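import Mathlib

set_option linter.all false

section

/-!
Nonnegativity of a bivariate integer polynomial on a box, by Kronecker substitution:
the homogenised polynomial in the two barycentric coordinates is evaluated at one pair of
large integers, and the digits of the value are its coefficients.
-/

namespace Pool.EK71

/-- evaluation of `P` at `(x, y)` -/
noncomputable def ev1 (y : ℝ) : List ℤ → ℝ
  | [] => 0
  | a :: l => (a : ℝ) + y * ev1 y l

noncomputable def ev2 (x y : ℝ) : List (List ℤ) → ℝ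
  | [] => 0
  | r :: P => ev1 y r + x * ev2 x y P

section Rp

variable {Z W : ℤ} {T0 T1 V0 V1 : ℝ}

end Rp

end Pool.EK71

end

section

set_option autoImplicit false
open Complex MeasureTheory Metric Set
open scoped Real ENNReal ComplexConjugate

/-! The Cauchy kernel: `∫_{|u| < M} conj u ^ k / (v - u) dA(u) = π conj v ^ (k+1) / (k+1)`. -/

namespace Pool.Agent.Helper39.Area

theorem circle_inv_out {ρ : ℝ} (hρ : 0 < ρ) {v : ℂ} (hv : ρ < ‖v‖) :
    (∮ w in C(0, ρ), (v - w)⁻¹) = 0 := by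
  apply Complex.circleIntegral_eq_zero_of_differentiable_on_off_countable hρ.le countable_empty
  · apply ContinuousOn.inv₀ (by fun_prop)
    intro w hw h
    rw [sub_eq_zero] at h
    subst h
    rw [mem_closedBall, dist_zero_right] at hw
    linarith
  · intro w hw
    have hw' : w ∈ ball (0:ℂ) ρ := hw.1
    apply DifferentiableAt.inv (by fun_prop)
    intro h
    rw [sub_eq_zero] at h
    subst h
    rw [mem_ball, dist_zero_right] at hw'
    linarith

theorem circle_inv_in {ρ : ℝ} {v : ℂ} (hv : ‖v‖ < ρ) :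
    (∮ w in C(0, ρ), (v - w)⁻¹) = - (2 * π * I) := by
  have h := circleIntegral.integral_sub_inv_of_mem_ball (c := 0) (w := v) (R := ρ)
    (by simpa using hv)
  have h2 : (∮ w in C(0, ρ), (v - w)⁻¹) = ∮ w in C(0, ρ), (-1 : ℂ) * (w - v)⁻¹ := by
    congr 1
    funext w
    rw [← neg_sub w v, inv_neg]; ring
  rw [h2, circleIntegral.integral_const_mul, h]
  ring

theorem circle_pow_inv (ρ : ℝ) (k : ℕ) :
    (∮ w in C(0, ρ), (w ^ (k + 2))⁻¹) = 0 := by
  have h := circleIntegral.integral_sub_zpow_of_ne (n := -((k:ℤ) + 2)) (by omega) (0:ℂ) 0 ρ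
  rw [← h]
  congr 1
  funext w
  rw [sub_zero, zpow_neg]
  norm_cast

theorem circle_inv_zero {ρ : ℝ} (hρ : 0 < ρ) :
    (∮ w in C(0, ρ), (w ^ (0 + 1))⁻¹) = 2 * π * I := by
  have h := circleIntegral.integral_sub_center_inv (0:ℂ) hρ.ne'
  simpa using h

theorem cont_pow_inv {ρ : ℝ} (hρ : 0 < ρ) (k : ℕ) :
    CircleIntegrable (fun w : ℂ => (w ^ k)⁻¹) 0 ρ := by
  apply ContinuousOn.circleIntegrable hρ.le
  apply ContinuousOn.inv₀ (by fun_prop)
  intro w hw
  apply pow_ne_zero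
  rintro rfl
  simp at hw
  exact hρ.ne hw

theorem cont_sub_inv {ρ : ℝ} {v : ℂ} (hv : ‖v‖ ≠ ρ) :
    ContinuousOn (fun w : ℂ => (v - w)⁻¹) (sphere 0 ρ) := by
  apply ContinuousOn.inv₀ (by fun_prop)
  intro w hw h
  rw [sub_eq_zero] at h
  subst h
  simp at hw
  exact hv hw

theorem circle_kernel {ρ : ℝ} (hρ : 0 < ρ) {v : ℂ} (hv0 : v ≠ 0) (hv : ‖v‖ ≠ ρ) (k : ℕ) :
    (∮ w in C(0, ρ), (w ^ (k + 1))⁻¹ * (v - w)⁻¹) =
      if ρ < ‖v‖ then 2 * π * I * (v ^ (k + 1))⁻¹ else 0 := by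
  have hcs := cont_sub_inv hv
  have hint : ∀ j : ℕ, CircleIntegrable (fun w : ℂ => (w ^ j)⁻¹ * (v - w)⁻¹) 0 ρ := by
    intro j
    apply ContinuousOn.circleIntegrable hρ.le
    apply ContinuousOn.mul _ hcs
    apply ContinuousOn.inv₀ (by fun_prop)
    intro w hw
    apply pow_ne_zero
    rintro rfl
    simp at hw
    exact hρ.ne hw
  have key : ∀ j : ℕ, (∮ w in C(0, ρ), (w ^ (j + 1))⁻¹ * (v - w)⁻¹) =
      v⁻¹ * ((∮ w in C(0, ρ), (w ^ (j + 1))⁻¹) + ∮ w in C(0, ρ), (w ^ j)⁻¹ * (v - w)⁻¹) := by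
    intro j
    rw [← circleIntegral.integral_add (cont_pow_inv hρ _) (hint j),
      ← circleIntegral.integral_const_mul]
    apply circleIntegral.integral_congr hρ.le
    intro w hw
    have hw0 : w ≠ 0 := by
      rintro rfl
      simp at hw
      exact hρ.ne hw
    have hvw : v - w ≠ 0 := by
      intro h
      rw [sub_eq_zero] at h
      subst h
      simp at hw
      exact hv hw
    simp only
    field_simp
    ring
  induction k with
  | zero =>
    rw [key 0, circle_inv_zero hρ]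
    simp only [pow_zero, inv_one, one_mul]
    split_ifs with h
    · rw [circle_inv_out hρ h]; simp; ring
    · rw [circle_inv_in (lt_of_le_of_ne (not_lt.mp h) hv)]; simp
  | succ k ih =>
    rw [key (k + 1), circle_pow_inv, ih]
    split_ifs with h
    · field_simp
      ring
    · simp

/-- the angular integral -/
theorem angular {ρ : ℝ} (hρ : 0 < ρ) {v : ℂ} (hv : ‖v‖ ≠ ρ) (k : ℕ) :
    (∫ θ in Ioo (-π) π, conj (Complex.polarCoord.symm (ρ, θ)) ^ k /
      (v - Complex.polarCoord.symm (ρ, θ))) =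
      if ρ < ‖v‖ then 2 * π * ρ ^ (2 * k) * (v ^ (k + 1))⁻¹ else 0 := by
  have e1 : ∀ θ : ℝ, Complex.polarCoord.symm (ρ, θ) = circleMap 0 ρ θ := by
    intro θ
    rw [Complex.polarCoord_symm_apply, circleMap, zero_add, Complex.exp_mul_I]
    simp
  simp_rw [e1]
  rw [← integral_Ioc_eq_integral_Ioo, ← intervalIntegral.integral_of_le (by linarith [Real.pi_pos])]
  have hper : Function.Periodic (fun θ : ℝ => conj (circleMap 0 ρ θ) ^ k / (v - circleMap 0 ρ θ))
      (2 * π) := by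
    intro θ
    simp only [periodic_circleMap 0 ρ θ]
  have h2 := hper.intervalIntegral_add_eq (-π) 0
  rw [show -π + 2 * π = π by ring, zero_add] at h2
  rw [h2]
  -- express through a circle integral
  have e2 : (∫ θ in (0:ℝ)..2 * π, conj (circleMap 0 ρ θ) ^ k / (v - circleMap 0 ρ θ)) =
      (∮ w in C(0, ρ), ((ρ:ℂ) ^ (2 * k) * (-I)) * ((w ^ (k + 1))⁻¹ * (v - w)⁻¹)) := by
    rw [circleIntegral]
    apply intervalIntegral.integral_congr
    intro θ _
    simp only [deriv_circleMap, smul_eq_mul]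
    have hne : circleMap 0 ρ θ ≠ 0 := circleMap_ne_center (c := 0) (θ := θ) hρ.ne'
    have hc : conj (circleMap 0 ρ θ) = (ρ:ℂ) ^ 2 * (circleMap 0 ρ θ)⁻¹ := by
      rw [eq_mul_inv_iff_mul_eq₀ hne, mul_comm, Complex.mul_conj, Complex.normSq_eq_norm_sq]
      simp [abs_of_pos hρ]
    rw [hc, mul_pow, ← pow_mul, pow_succ, mul_inv, inv_pow, div_eq_mul_inv]
    have hI : I * -I = 1 := by simp
    linear_combination (-(((ρ:ℂ) ^ (2 * k)) * (circleMap 0 ρ θ ^ k)⁻¹ * (v - circleMap 0 ρ θ)⁻¹)) * hI * (circleMap 0 ρ θ * (circleMap 0 ρ θ)⁻¹) + (-(((ρ:ℂ) ^ (2 * k)) * (circleMap 0 ρ θ ^ k)⁻¹ * (v - circleMap 0 ρ θ)⁻¹)) * (mul_inv_cancel₀ hne)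
  rw [e2, circleIntegral.integral_const_mul]
  by_cases hv0 : v = 0
  · subst hv0
    have h3 : (∮ w in C(0, ρ), (w ^ (k + 1))⁻¹ * ((0:ℂ) - w)⁻¹) =
        ∮ w in C(0, ρ), (-1 : ℂ) * (w ^ (k + 2))⁻¹ := by
      congr 1
      funext w
      rw [zero_sub, inv_neg, pow_succ, pow_succ, pow_succ, mul_inv, mul_inv, mul_inv]
      ring
    rw [h3, circleIntegral.integral_const_mul, circle_pow_inv]
    simp
  · rw [circle_kernel hρ hv0 hv]
    split_ifs with h
    · have hI : I * -I = 1 := by simp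
      linear_combination (2 * π * (ρ:ℂ) ^ (2 * k) * (v ^ (k + 1))⁻¹) * hI
    · simp

/-- local integrability of the Cauchy kernel, uniformly -/
theorem lint_inv_ball (M : ℝ) :
    ∫⁻ u in ball (0:ℂ) M, ENNReal.ofReal (‖u‖⁻¹) ≤ ENNReal.ofReal (2 * π * M) := by
  rw [← lintegral_indicator measurableSet_ball, ← Complex.lintegral_comp_polarCoord_symm]
  calc _ ≤ ∫⁻ p in polarCoord.target, (Ioo 0 M ×ˢ Ioo (-π) π).indicator (fun _ => (1 : ℝ≥0∞)) p := by
        apply setLIntegral_mono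
        · exact measurable_const.indicator (measurableSet_Ioo.prod measurableSet_Ioo)
        rintro ⟨r, θ⟩ ⟨hr, hθ⟩
        simp only [mem_Ioi] at hr
        by_cases hrM : r < M
        · rw [indicator_of_mem (show (r, θ) ∈ Ioo 0 M ×ˢ Ioo (-π) π from ⟨⟨hr, hrM⟩, hθ⟩),
            indicator_of_mem (by rw [mem_ball, dist_zero_right, Complex.norm_polarCoord_symm, abs_of_pos hr]; exact hrM),
            Complex.norm_polarCoord_symm, abs_of_pos hr, smul_eq_mul, ← ENNReal.ofReal_mul hr.le,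
            mul_inv_cancel₀ hr.ne']
          simp
        · rw [indicator_of_notMem (by rw [mem_ball, dist_zero_right, Complex.norm_polarCoord_symm, abs_of_pos hr]; exact hrM)]
          simp
    _ ≤ ∫⁻ p, (Ioo 0 M ×ˢ Ioo (-π) π).indicator (fun _ => (1 : ℝ≥0∞)) p :=
        setLIntegral_le_lintegral _ _
    _ = ENNReal.ofReal (2 * π * M) := by
        rw [lintegral_indicator (measurableSet_Ioo.prod measurableSet_Ioo), setLIntegral_one,
          Measure.volume_eq_prod, Measure.prod_prod, Real.volume_Ioo, Real.volume_Ioo]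
        rcases le_total M 0 with h | h
        · rw [ENNReal.ofReal_of_nonpos (by linarith), zero_mul, ENNReal.ofReal_of_nonpos]
          nlinarith [Real.pi_pos]
        · rw [← ENNReal.ofReal_mul (by linarith)]
          congr 1; ring

theorem lint_inv (v : ℂ) (M : ℝ) :
    ∫⁻ u in ball (0:ℂ) M, ENNReal.ofReal (‖v - u‖⁻¹) ≤ ENNReal.ofReal (2 * π * (‖v‖ + M)) := by
  rw [← lintegral_indicator measurableSet_ball]
  calc ∫⁻ u, (ball (0:ℂ) M).indicator (fun u => ENNReal.ofReal (‖v - u‖⁻¹)) u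
      ≤ ∫⁻ u, (ball (0:ℂ) (‖v‖ + M)).indicator (fun u => ENNReal.ofReal (‖u‖⁻¹)) (v - u) := by
        apply lintegral_mono
        intro u
        by_cases hu : u ∈ ball (0:ℂ) M
        · have h2 : v - u ∈ ball (0:ℂ) (‖v‖ + M) := by
            rw [mem_ball, dist_zero_right] at hu ⊢
            linarith [norm_sub_le v u]
          rw [indicator_of_mem hu]
          show _ ≤ (ball (0:ℂ) (‖v‖ + M)).indicator (fun u => ENNReal.ofReal (‖u‖⁻¹)) (v - u)
          rw [indicator_of_mem h2]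
        · rw [indicator_of_notMem hu]; exact zero_le
    _ = ∫⁻ u, (ball (0:ℂ) (‖v‖ + M)).indicator (fun u => ENNReal.ofReal (‖u‖⁻¹)) u :=
        lintegral_sub_left_eq_self _ v
    _ ≤ _ := by
        rw [lintegral_indicator measurableSet_ball]
        exact lint_inv_ball _

theorem integrable_inv (v : ℂ) (M : ℝ) :
    IntegrableOn (fun u : ℂ => ‖v - u‖⁻¹) (ball (0:ℂ) M) := by
  refine ⟨(by fun_prop : Measurable fun u : ℂ => ‖v - u‖⁻¹).aestronglyMeasurable, ?_⟩
  rw [hasFiniteIntegral_iff_enorm]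
  refine lt_of_le_of_lt ?_ (lt_of_le_of_lt (lint_inv v M) ENNReal.ofReal_lt_top)
  apply lintegral_mono
  intro u
  simp only
  rw [← ofReal_norm, Real.norm_of_nonneg (by positivity)]

theorem integrable_kernel (k : ℕ) (M : ℝ) (v : ℂ) :
    IntegrableOn (fun u : ℂ => conj u ^ k / (v - u)) (ball (0:ℂ) M) := by
  have h := (integrable_inv v M).const_mul (M ^ k)
  refine Integrable.mono' h ?_ ?_
  · apply Measurable.aestronglyMeasurable
    apply Measurable.div _ (by fun_prop)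
    exact (Complex.continuous_conj.measurable).pow_const k
  · rw [ae_restrict_iff' measurableSet_ball]
    refine Filter.Eventually.of_forall ?_
    intro u hu
    rw [mem_ball, dist_zero_right] at hu
    rw [norm_div, norm_pow, RCLike.norm_conj, div_eq_mul_inv]
    gcongr

theorem kernel (k : ℕ) (M : ℝ) (v : ℂ) (hv : ‖v‖ < M) :
    ∫ u in ball (0:ℂ) M, conj u ^ k / (v - u) = π * conj v ^ (k + 1) / (k + 1) := by
  have hM : 0 < M := lt_of_le_of_lt (norm_nonneg v) hv
  set f : ℂ → ℂ := (ball (0:ℂ) M).indicator (fun u => conj u ^ k / (v - u)) with hf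
  have hfi : Integrable f := by
    rw [hf, integrable_indicator_iff measurableSet_ball]
    exact integrable_kernel k M v
  have hfm : Measurable f := by
    apply Measurable.indicator _ measurableSet_ball
    apply Measurable.div _ (by fun_prop)
    exact (Complex.continuous_conj.measurable).pow_const k
  have hsm : Measurable (fun p : ℝ × ℝ => (Complex.polarCoord.symm p : ℂ)) := by
    simp only [Complex.polarCoord_symm_apply]
    fun_prop
  have hprod : IntegrableOn (fun p : ℝ × ℝ => p.1 • f (Complex.polarCoord.symm p))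
      (Ioi (0:ℝ) ×ˢ Ioo (-π) π) := by
    refine ⟨(measurable_fst.smul (hfm.comp hsm)).aestronglyMeasurable, ?_⟩
    rw [hasFiniteIntegral_iff_enorm]
    have h1 := Complex.lintegral_comp_polarCoord_symm (fun u => ‖f u‖ₑ)
    have h2 : (∫⁻ p in Ioi (0:ℝ) ×ˢ Ioo (-π) π, ‖p.1 • f (Complex.polarCoord.symm p)‖ₑ) =
        ∫⁻ p in polarCoord.target, ENNReal.ofReal p.1 • ‖f (Complex.polarCoord.symm p)‖ₑ := by
      apply setLIntegral_congr_fun (measurableSet_Ioi.prod measurableSet_Ioo)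
      rintro ⟨r, θ⟩ ⟨hr, hθ⟩
      simp only [mem_Ioi] at hr
      simp only [smul_eq_mul]
      rw [enorm_smul]
      congr 1
      rw [← ofReal_norm, Real.norm_of_nonneg hr.le]
    rw [h2, h1]
    exact hfi.2
  rw [← integral_indicator measurableSet_ball, ← hf, ← Complex.integral_comp_polarCoord_symm]
  rw [show polarCoord.target = Ioi (0:ℝ) ×ˢ Ioo (-π) π from rfl]
  rw [Measure.volume_eq_prod] at hprod ⊢
  rw [setIntegral_prod _ hprod]
  -- the inner integral
  have hin : ∀ r ∈ Ioi (0:ℝ), r ≠ ‖v‖ → r ≠ M →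
      (∫ θ in Ioo (-π) π, (r, θ).1 • f (Complex.polarCoord.symm (r, θ))) =
        (Ioo 0 ‖v‖).indicator (fun r : ℝ => 2 * π * (v ^ (k + 1))⁻¹ * ((r ^ (2 * k + 1) : ℝ) : ℂ)) r := by
    intro r hr hrv _
    simp only [mem_Ioi] at hr
    by_cases hrM : r < M
    · have e : ∀ θ, (r, θ).1 • f (Complex.polarCoord.symm (r, θ)) =
          (r : ℂ) * (conj (Complex.polarCoord.symm (r, θ)) ^ k / (v - Complex.polarCoord.symm (r, θ))) := by
        intro θ
        rw [hf, indicator_of_mem (by rw [mem_ball, dist_zero_right, Complex.norm_polarCoord_symm, abs_of_pos hr]; exact hrM)]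
        simp
      simp_rw [e]
      rw [integral_const_mul, angular hr (Ne.symm hrv) k]
      by_cases h : r < ‖v‖
      · rw [if_pos h, indicator_of_mem (show r ∈ Ioo 0 ‖v‖ from ⟨hr, h⟩)]
        push_cast
        ring
      · rw [if_neg h, indicator_of_notMem (fun h' => h h'.2), mul_zero]
    · have e : ∀ θ, (r, θ).1 • f (Complex.polarCoord.symm (r, θ)) = 0 := by
        intro θ
        rw [hf, indicator_of_notMem (by rw [mem_ball, dist_zero_right, Complex.norm_polarCoord_symm, abs_of_pos hr]; exact hrM)]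
        simp
      simp_rw [e]
      rw [indicator_of_notMem (fun h' => hrM (h'.2.trans hv))]
      simp
  have hae : (∫ r in Ioi (0:ℝ), ∫ θ in Ioo (-π) π, (r, θ).1 • f (Complex.polarCoord.symm (r, θ))) =
      ∫ r in Ioi (0:ℝ), (Ioo 0 ‖v‖).indicator
        (fun r : ℝ => 2 * π * (v ^ (k + 1))⁻¹ * ((r ^ (2 * k + 1) : ℝ) : ℂ)) r := by
    apply setIntegral_congr_ae measurableSet_Ioi
    have h1 : ∀ᵐ r : ℝ, r ≠ ‖v‖ := by
      simp [ae_iff, measure_singleton]
    have h2 : ∀ᵐ r : ℝ, r ≠ M := by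
      simp [ae_iff, measure_singleton]
    filter_upwards [h1, h2] with r hr1 hr2 hr
    exact hin r hr hr1 hr2
  rw [hae, setIntegral_indicator measurableSet_Ioo, inter_eq_self_of_subset_right Ioo_subset_Ioi_self,
    integral_const_mul, integral_complex_ofReal, ← integral_Ioc_eq_integral_Ioo,
    ← intervalIntegral.integral_of_le (norm_nonneg v), integral_pow]
  by_cases hv0 : v = 0
  · subst hv0; simp
  have hc : ((‖v‖ : ℝ) : ℂ) ^ 2 = v * conj v := by
    rw [Complex.mul_conj, Complex.normSq_eq_norm_sq]; push_cast; ring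
  have hpow : ((‖v‖ : ℝ) : ℂ) ^ (2 * k + 1 + 1) = v ^ (k + 1) * conj v ^ (k + 1) := by
    rw [show 2 * k + 1 + 1 = 2 * (k + 1) by ring, pow_mul, hc, mul_pow]
  have hvk : v ^ (k + 1) ≠ 0 := pow_ne_zero _ hv0
  have hk : ((k : ℂ) + 1) ≠ 0 := by exact_mod_cast Nat.succ_ne_zero k
  push_cast
  rw [zero_pow (by omega), sub_zero, hpow, show (2 * (k:ℂ) + 1 + 1) = 2 * ((k:ℂ) + 1) by ring]
  field_simp

end Pool.Agent.Helper39.Area

end

section

set_option autoImplicit false
open Complex MeasureTheory Metric Set Polynomial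
open scoped Real ENNReal ComplexConjugate

/-! Winding numbers for the exterior map in the coordinate `ζ = 1/z`. -/

namespace Pool.Agent.Helper39.Area

/-- data of a univalent function `φ ζ = ζ⁻¹ + β ζ` on the punctured disc -/
structure Ext (β : ℂ → ℂ) : Prop where
  diff : DifferentiableOn ℂ β (ball 0 1)
  inj : ∀ ζ ω : ℂ, ζ ∈ ball (0:ℂ) 1 → ω ∈ ball (0:ℂ) 1 → ζ ≠ 0 → ω ≠ 0 →
    ζ⁻¹ + β ζ = ω⁻¹ + β ω → ζ = ω
  ne : ∀ ζ : ℂ, ζ ∈ ball (0:ℂ) 1 → 1 - ζ ^ 2 * deriv β ζ ≠ 0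

noncomputable def phi (β : ℂ → ℂ) (ζ : ℂ) : ℂ := ζ⁻¹ + β ζ
noncomputable def dphi (β : ℂ → ℂ) (ζ : ℂ) : ℂ := -(ζ ^ 2)⁻¹ + deriv β ζ
noncomputable def qq (β : ℂ → ℂ) (a ζ : ℂ) : ℂ := 1 - a * ζ * dslope β a ζ

variable {β : ℂ → ℂ}

theorem hasDerivAt_phi (h : DifferentiableOn ℂ β (ball 0 1)) {ζ : ℂ} (hζ : ζ ∈ ball (0:ℂ) 1)
    (h0 : ζ ≠ 0) : HasDerivAt (phi β) (dphi β ζ) ζ := by
  have h1 := (h.differentiableAt (isOpen_ball.mem_nhds hζ)).hasDerivAt
  exact (hasDerivAt_inv h0).add h1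

theorem phi_sub (a ζ : ℂ) (ha : a ≠ 0) (hζ : ζ ≠ 0) :
    phi β ζ - phi β a = (ζ⁻¹ - a⁻¹) * qq β a ζ := by
  unfold phi qq
  by_cases h : ζ = a
  · subst h; simp
  · rw [dslope_of_ne _ h, slope_def_field]
    have h1 : ζ - a ≠ 0 := sub_ne_zero.mpr h
    field_simp
    ring

theorem qq_diff (h : DifferentiableOn ℂ β (ball 0 1)) {a : ℂ} (ha : a ∈ ball (0:ℂ) 1) :
    DifferentiableOn ℂ (qq β a) (ball 0 1) := by
  have h1 : DifferentiableOn ℂ (dslope β a) (ball 0 1) :=
    (Complex.differentiableOn_dslope (isOpen_ball.mem_nhds ha)).mpr h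
  unfold qq
  fun_prop

theorem qq_ne (h : Ext β) {a ζ : ℂ} (ha : a ∈ ball (0:ℂ) 1) (hζ : ζ ∈ ball (0:ℂ) 1) :
    qq β a ζ ≠ 0 := by
  by_cases ha0 : a = 0
  · subst ha0; simp [qq]
  by_cases hζ0 : ζ = 0
  · subst hζ0; simp [qq]
  by_cases hne : ζ = a
  · subst hne
    have := h.ne ζ hζ
    unfold qq
    rw [dslope_same]
    intro h'
    apply this
    rw [← h']; ring
  · intro hq
    have h1 := phi_sub (β := β) a ζ ha0 hζ0
    rw [hq, mul_zero, sub_eq_zero] at h1
    exact hne (h.inj ζ a hζ ha hζ0 ha0 h1)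

theorem mem_ball_of_sphere {ρ : ℝ} (hρ1 : ρ < 1) {ζ : ℂ} (hζ : ζ ∈ closedBall (0:ℂ) ρ) :
    ζ ∈ ball (0:ℂ) 1 := by
  rw [mem_closedBall, dist_zero_right] at hζ
  rw [mem_ball, dist_zero_right]
  linarith

theorem sphere_ne {ρ : ℝ} (hρ : 0 < ρ) {ζ : ℂ} (hζ : ζ ∈ sphere (0:ℂ) ρ) : ζ ≠ 0 := by
  rintro rfl
  simp at hζ
  exact hρ.ne hζ

/-- integral of a logarithmic derivative of a zero free function -/
theorem circle_logDeriv {ρ : ℝ} (hρ : 0 < ρ) (hρ1 : ρ < 1) {s : ℂ → ℂ}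
    (hs : DifferentiableOn ℂ s (ball 0 1)) (hs0 : ∀ ζ ∈ closedBall (0:ℂ) ρ, s ζ ≠ 0) :
    (∮ ζ in C(0, ρ), deriv s ζ / s ζ) = 0 := by
  have hd : DifferentiableOn ℂ (deriv s) (ball 0 1) := hs.deriv isOpen_ball
  apply Complex.circleIntegral_eq_zero_of_differentiable_on_off_countable hρ.le countable_empty
  · apply ContinuousOn.div
    · exact hd.continuousOn.mono (fun ζ hζ => mem_ball_of_sphere hρ1 hζ)
    · exact hs.continuousOn.mono (fun ζ hζ => mem_ball_of_sphere hρ1 hζ)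
    · exact hs0
  · intro ζ hζ
    have hζ' : ζ ∈ closedBall (0:ℂ) ρ := ball_subset_closedBall hζ.1
    have hζ1 := mem_ball_of_sphere hρ1 hζ'
    exact (hd.differentiableAt (isOpen_ball.mem_nhds hζ1)).div
      (hs.differentiableAt (isOpen_ball.mem_nhds hζ1)) (hs0 ζ hζ')

theorem cont_logDeriv {ρ : ℝ} (hρ1 : ρ < 1) {s : ℂ → ℂ}
    (hs : DifferentiableOn ℂ s (ball 0 1)) (hs0 : ∀ ζ ∈ closedBall (0:ℂ) ρ, s ζ ≠ 0) :
    ContinuousOn (fun ζ => deriv s ζ / s ζ) (sphere 0 ρ) := by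
  have hd : DifferentiableOn ℂ (deriv s) (ball 0 1) := hs.deriv isOpen_ball
  apply ContinuousOn.div
  · exact hd.continuousOn.mono (fun ζ hζ => mem_ball_of_sphere hρ1 (sphere_subset_closedBall hζ))
  · exact hs.continuousOn.mono (fun ζ hζ => mem_ball_of_sphere hρ1 (sphere_subset_closedBall hζ))
  · intro ζ hζ; exact hs0 ζ (sphere_subset_closedBall hζ)

/-- the logarithmic derivative of `φ - φ a` -/
theorem dphi_div (h : Ext β) {a ζ : ℂ} (ha : a ∈ ball (0:ℂ) 1) (hζ : ζ ∈ ball (0:ℂ) 1)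
    (ha0 : a ≠ 0) (hζ0 : ζ ≠ 0) (hne : ζ ≠ a) :
    dphi β ζ / (phi β ζ - phi β a) = deriv (qq β a) ζ / qq β a ζ + (ζ - a)⁻¹ - ζ⁻¹ := by
  have hq := qq_ne h ha hζ
  have h1 : HasDerivAt (phi β) (-(ζ ^ 2)⁻¹ * qq β a ζ + (ζ⁻¹ - a⁻¹) * deriv (qq β a) ζ) ζ := by
    have h2 : HasDerivAt (fun ω => phi β a + (ω⁻¹ - a⁻¹) * qq β a ω)
        (-(ζ ^ 2)⁻¹ * qq β a ζ + (ζ⁻¹ - a⁻¹) * deriv (qq β a) ζ) ζ := by
      have h3 := ((qq_diff h.diff ha).differentiableAt (isOpen_ball.mem_nhds hζ)).hasDerivAt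
      exact (((hasDerivAt_inv hζ0).sub_const _).mul h3).const_add _
    apply h2.congr_of_eventuallyEq
    filter_upwards [isOpen_ne.mem_nhds hζ0] with ω hω
    rw [← phi_sub a ω ha0 hω]; ring
  have h4 := h1.unique (hasDerivAt_phi h.diff hζ hζ0)
  rw [← h4, phi_sub a ζ ha0 hζ0]
  have h5 : ζ - a ≠ 0 := sub_ne_zero.mpr hne
  have h6 : ζ⁻¹ - a⁻¹ ≠ 0 := by
    rw [sub_ne_zero]
    intro h'
    exact hne (inv_injective h')
  have h7 : a - ζ ≠ 0 := sub_ne_zero.mpr (Ne.symm hne)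
  have h8 : ζ⁻¹ - a⁻¹ = (a - ζ) / (ζ * a) := by field_simp
  rw [h8]
  field_simp
  ring

theorem wind_in (h : Ext β) {ρ : ℝ} (hρ : 0 < ρ) (hρ1 : ρ < 1) {a : ℂ} (ha : a ∈ ball (0:ℂ) ρ)
    (ha0 : a ≠ 0) : (∮ ζ in C(0, ρ), dphi β ζ / (phi β ζ - phi β a)) = 0 := by
  have ha1 : a ∈ ball (0:ℂ) 1 := mem_ball_of_sphere hρ1 (ball_subset_closedBall ha)
  have hq0 : ∀ ζ ∈ closedBall (0:ℂ) ρ, qq β a ζ ≠ 0 := fun ζ hζ =>
    qq_ne h ha1 (mem_ball_of_sphere hρ1 hζ)
  have h1 : (∮ ζ in C(0, ρ), dphi β ζ / (phi β ζ - phi β a)) =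
      ∮ ζ in C(0, ρ), (deriv (qq β a) ζ / qq β a ζ + (ζ - a)⁻¹ - ζ⁻¹) := by
    apply circleIntegral.integral_congr hρ.le
    intro ζ hζ
    apply dphi_div h ha1 (mem_ball_of_sphere hρ1 (sphere_subset_closedBall hζ)) ha0
      (sphere_ne hρ hζ)
    rintro rfl
    simp at hζ ha
    linarith
  have hc1 := (cont_logDeriv hρ1 (qq_diff h.diff ha1) hq0).circleIntegrable hρ.le
  have hc2 : CircleIntegrable (fun ζ : ℂ => (ζ - a)⁻¹) 0 ρ := by
    apply ContinuousOn.circleIntegrable hρ.le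
    apply ContinuousOn.inv₀ (by fun_prop)
    intro ζ hζ h'
    rw [sub_eq_zero] at h'
    subst h'
    simp at hζ ha
    linarith
  have hc3 : CircleIntegrable (fun ζ : ℂ => ζ⁻¹) 0 ρ := by
    apply ContinuousOn.circleIntegrable hρ.le
    apply ContinuousOn.inv₀ (by fun_prop)
    intro ζ hζ
    exact sphere_ne hρ hζ
  have hc12 : CircleIntegrable (fun ζ => deriv (qq β a) ζ / qq β a ζ + (ζ - a)⁻¹) 0 ρ :=
    hc1.add hc2
  rw [h1, circleIntegral.integral_sub hc12 hc3, circleIntegral.integral_add hc1 hc2,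
    circle_logDeriv hρ hρ1 (qq_diff h.diff ha1) hq0, circleIntegral.integral_sub_inv_of_mem_ball ha]
  have h2 := circle_inv_zero hρ
  simp only [zero_add, pow_one] at h2
  rw [h2]; ring

theorem wind_out (h : DifferentiableOn ℂ β (ball 0 1)) {ρ : ℝ} (hρ : 0 < ρ) (hρ1 : ρ < 1) {u : ℂ}
    (hu : ∀ ζ ∈ closedBall (0:ℂ) ρ, ζ ≠ 0 → phi β ζ ≠ u) :
    (∮ ζ in C(0, ρ), dphi β ζ / (phi β ζ - u)) = - (2 * π * I) := by
  set s : ℂ → ℂ := fun ζ => 1 + ζ * (β ζ - u) with hs
  have hsd : DifferentiableOn ℂ s (ball 0 1) := by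
    rw [hs]; fun_prop
  have hsphi : ∀ ζ : ℂ, ζ ≠ 0 → phi β ζ - u = ζ⁻¹ * s ζ := by
    intro ζ hζ
    simp only [phi, hs]
    field_simp
    ring
  have hs0 : ∀ ζ ∈ closedBall (0:ℂ) ρ, s ζ ≠ 0 := by
    intro ζ hζ
    by_cases h0 : ζ = 0
    · subst h0; simp [hs]
    · intro h'
      have h2 := hsphi ζ h0
      rw [h', mul_zero, sub_eq_zero] at h2
      exact hu ζ hζ h0 h2
  have h1 : (∮ ζ in C(0, ρ), dphi β ζ / (phi β ζ - u)) =
      ∮ ζ in C(0, ρ), (deriv s ζ / s ζ - ζ⁻¹) := by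
    apply circleIntegral.integral_congr hρ.le
    intro ζ hζ
    have hζ0 := sphere_ne hρ hζ
    have hζ1 := mem_ball_of_sphere hρ1 (sphere_subset_closedBall hζ)
    have hsne := hs0 ζ (sphere_subset_closedBall hζ)
    have h3 : HasDerivAt (phi β) (-(ζ ^ 2)⁻¹ * s ζ + ζ⁻¹ * deriv s ζ) ζ := by
      have h2 : HasDerivAt (fun ω => u + ω⁻¹ * s ω) (-(ζ ^ 2)⁻¹ * s ζ + ζ⁻¹ * deriv s ζ) ζ := by
        have h3 := (hsd.differentiableAt (isOpen_ball.mem_nhds hζ1)).hasDerivAt
        exact ((hasDerivAt_inv hζ0).mul h3).const_add _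
      apply h2.congr_of_eventuallyEq
      filter_upwards [isOpen_ne.mem_nhds hζ0] with ω hω
      rw [← hsphi ω hω]; ring
    have h4 := h3.unique (hasDerivAt_phi h hζ1 hζ0)
    simp only
    rw [← h4, hsphi ζ hζ0]
    field_simp
    ring
  have hc1 := (cont_logDeriv hρ1 hsd hs0).circleIntegrable hρ.le
  have hc3 : CircleIntegrable (fun ζ : ℂ => ζ⁻¹) 0 ρ := by
    apply ContinuousOn.circleIntegrable hρ.le
    apply ContinuousOn.inv₀ (by fun_prop)
    intro ζ hζ
    exact sphere_ne hρ hζ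
  rw [h1, circleIntegral.integral_sub hc1 hc3, circle_logDeriv hρ hρ1 hsd hs0]
  have h2 := circle_inv_zero hρ
  simp only [zero_add, pow_one] at h2
  rw [h2]; ring

theorem exact (h : DifferentiableOn ℂ β (ball 0 1)) {ρ : ℝ} (hρ : 0 < ρ) (hρ1 : ρ < 1)
    (Q : ℂ[X]) : (∮ ζ in C(0, ρ), Q.eval (phi β ζ) * dphi β ζ) = 0 := by
  have hcphi : ContinuousOn (phi β) (sphere 0 ρ) := fun ζ hζ =>
    (hasDerivAt_phi h (mem_ball_of_sphere hρ1 (sphere_subset_closedBall hζ))
      (sphere_ne hρ hζ)).continuousAt.continuousWithinAt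
  have hcd : ContinuousOn (dphi β) (sphere 0 ρ) := by
    apply ContinuousOn.add
    · apply ContinuousOn.neg
      apply ContinuousOn.inv₀ (by fun_prop)
      intro ζ hζ
      exact pow_ne_zero _ (sphere_ne hρ hζ)
    · exact (h.deriv isOpen_ball).continuousOn.mono
        (fun ζ hζ => mem_ball_of_sphere hρ1 (sphere_subset_closedBall hζ))
  have hci : ∀ Q : ℂ[X], CircleIntegrable (fun ζ => Q.eval (phi β ζ) * dphi β ζ) 0 ρ := by
    intro Q
    apply ContinuousOn.circleIntegrable hρ.le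
    exact (Q.continuous.comp_continuousOn hcphi).mul hcd
  induction Q using Polynomial.induction_on' with
  | add p q hp hq =>
    have : (∮ ζ in C(0, ρ), (p + q).eval (phi β ζ) * dphi β ζ) =
        ∮ ζ in C(0, ρ), (p.eval (phi β ζ) * dphi β ζ + q.eval (phi β ζ) * dphi β ζ) := by
      congr 1; funext ζ; rw [eval_add, add_mul]
    rw [this, circleIntegral.integral_add (hci p) (hci q), hp, hq, add_zero]
  | monomial n a =>
    apply circleIntegral.integral_eq_zero_of_hasDerivWithinAt hρ.le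
      (f := fun ζ => a * (phi β ζ ^ (n + 1) / (n + 1)))
    intro ζ hζ
    have h1 := hasDerivAt_phi h (mem_ball_of_sphere hρ1 (sphere_subset_closedBall hζ))
      (sphere_ne hρ hζ)
    have hn : ((n : ℂ) + 1) ≠ 0 := by exact_mod_cast Nat.succ_ne_zero n
    have h2 := ((h1.pow (n + 1)).div_const ((n:ℂ) + 1)).const_mul a
    have h3 : (monomial n a).eval (phi β ζ) * dphi β ζ =
        a * (((n + 1 : ℕ) : ℂ) * phi β ζ ^ (n + 1 - 1) * dphi β ζ / ((n:ℂ) + 1)) := by
      rw [eval_monomial, Nat.add_sub_cancel]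
      push_cast
      field_simp
    rw [h3]
    exact h2.hasDerivWithinAt

end Pool.Agent.Helper39.Area

end

section

set_option autoImplicit false
open Complex MeasureTheory Metric Set
open scoped Real ComplexConjugate

/-! Project EK (exact integral means of `psi'` for large negative powers): common definitions.

Coordinates: `z` in the unit disc, `zeta = 1/z` outside; `phi β z = 1/z + β z`, `N β z = psi'(1/z)`.
Strip coordinate `ω = ξ + i η`, `0 ≤ η ≤ π`, `Z = exp ω`, `z = zf ω = (i - Z)/(i + Z)`. -/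

namespace Pool.Agent.Helper52.EK

open Pool.Agent.Helper39.Area

/-- data of a univalent function `φ ζ = ζ⁻¹ + β ζ` on a punctured disc of radius `R > 1` -/
structure ExtR (β : ℂ → ℂ) (R : ℝ) : Prop where
  one_lt : 1 < R
  diff : DifferentiableOn ℂ β (ball 0 R)
  inj : ∀ ζ ω : ℂ, ζ ∈ ball (0:ℂ) R → ω ∈ ball (0:ℂ) R → ζ ≠ 0 → ω ≠ 0 →
    ζ⁻¹ + β ζ = ω⁻¹ + β ω → ζ = ω
  ne : ∀ ζ : ℂ, ζ ∈ ball (0:ℂ) R → 1 - ζ ^ 2 * deriv β ζ ≠ 0

theorem ExtR.toExt {β : ℂ → ℂ} {R : ℝ} (h : ExtR β R) : Ext β := by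
  have hs : ball (0:ℂ) 1 ⊆ ball 0 R := ball_subset_ball h.one_lt.le
  exact ⟨h.diff.mono hs, fun ζ ω h1 h2 => h.inj ζ ω (hs h1) (hs h2), fun ζ h1 => h.ne ζ (hs h1)⟩

/-- `N β z = psi'(1/z)` -/
noncomputable def N (β : ℂ → ℂ) (z : ℂ) : ℂ := 1 - z ^ 2 * deriv β z

/-- Poisson kernel of the disc -/
noncomputable def Pk (ζ z : ℂ) : ℝ := (1 - ‖z‖ ^ 2) / ‖ζ - z‖ ^ 2

/-- normalised gradient of `log (Pk ζ)`: unimodular for `‖ζ‖ = 1`, `‖z‖ < 1` -/
noncomputable def ee (ζ z : ℂ) : ℂ := (1 - conj z * ζ) / (ζ - z)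

/-- the point `e^(t + i θ)` -/
noncomputable def ep (t θ : ℝ) : ℂ := Complex.exp ((t : ℂ) + (θ : ℂ) * I)

/-- the entropy loss at the target `ζ` for the normalised field `w` -/
noncomputable def Kf (w : ℂ → ℂ) (ζ : ℂ) (t₀ t₂ : ℝ) : ℝ :=
  (2 * π)⁻¹ * ∫ t in t₀..t₂, ∫ θ in (-π)..π,
    (t₂ - t) * Pk ζ (ep t θ) * ‖ee ζ (ep t θ) - w (ep t θ)‖ ^ 2 / Real.sinh t ^ 2

/-- the normalised gradient of `log ((1 - |z|^2)/|N|^2)` in the radial frame -/
noncomputable def mrad (β : ℂ → ℂ) (z : ℂ) : ℂ :=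
  (z / ‖z‖) * (-conj z - (1 - ‖z‖ ^ 2) * (deriv (N β) z / N β z))

/-- the field built from the function `G` of the radial gradient -/
noncomputable def wf (G : ℂ → ℂ) (β : ℂ → ℂ) (z : ℂ) : ℂ :=
  conj (z / ‖z‖) * G (mrad β z)

/-- admissible functions `G` (the certificate uses `Gc`, below) -/
structure GLip (G : ℂ → ℂ) (L : ℝ) : Prop where
  le_one : ∀ m, ‖G m‖ ≤ 1
  lip : ∀ m m', ‖G m - G m'‖ ≤ L * ‖m - m'‖
  rot : ∀ u m : ℂ, ‖u‖ = 1 → ‖G (u * m) - G m‖ ≤ L * ‖u - 1‖

/-- `m` for `‖m‖ ≤ 1`, its inverse point `m/‖m‖²` otherwise -/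
noncomputable def Gc (m : ℂ) : ℂ := m / ((max 1 (‖m‖ ^ 2) : ℝ) : ℂ)

/-- strip coordinate to the disc -/
noncomputable def zf (ω : ℂ) : ℂ := (I - Complex.exp ω) / (I + Complex.exp ω)

/-- derivative of `zf` -/
noncomputable def zd (ω : ℂ) : ℂ := -2 * I * Complex.exp ω / (Complex.exp ω + I) ^ 2

/-- `X = f_ω / (2 (f - f(a)))` in the strip coordinate -/
noncomputable def Xf (β : ℂ → ℂ) (a : ℝ) (ω : ℂ) : ℂ :=
  zd ω * dphi β (zf ω) / (2 * (phi β (zf ω) - phi β (a : ℂ)))

/-- `τ = (1-a)/(1+a)`: the point `a` is `ω = log τ + i π/2` -/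
noncomputable def tau (a : ℝ) : ℝ := (1 - a) / (1 + a)

noncomputable def kap (a : ℝ) (ω : ℂ) : ℂ :=
  Complex.exp ω ^ 2 * (1 - (tau a : ℂ) ^ 2) /
    ((Complex.exp ω ^ 2 + (tau a : ℂ) ^ 2) * (Complex.exp ω ^ 2 + 1))

/-- the point `ξ + i η` -/
noncomputable def pt (ξ η : ℝ) : ℂ := (ξ : ℂ) + (η : ℂ) * I

/-- `e₀ = -(c - i s)²`, with `c = cos η`, `s = sin η` -/
noncomputable def e0 (s c : ℝ) : ℂ := -((c : ℂ) - (s : ℂ) * I) ^ 2

/-- the function `m` of `X`, `Y = X'` and the angle -/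
noncomputable def mX (X Y : ℂ) (s c : ℝ) : ℂ := (1 + e0 s c) * (2 * X - 1 + Y / X) - 1

/-- the integrand: `‖G m - e₀‖²` -/
noncomputable def TG (G : ℂ → ℂ) (X Y : ℂ) (s c : ℝ) : ℝ := ‖G (mX X Y s c) - e0 s c‖ ^ 2

/-- the closed rectangle of the strip -/
def Rect (x₁ x₂ : ℝ) : Set ℂ := Icc x₁ x₂ ×ℂ Icc 0 π

/-- double integral over a rectangle of the strip -/
noncomputable def II (x₁ x₂ : ℝ) (F : ℝ → ℝ → ℝ) : ℝ := ∫ ξ in x₁..x₂, ∫ η in (0:ℝ)..π, F ξ η

/-- analytic without zeros near a closed rectangle of the strip -/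
structure NiceX (X : ℂ → ℂ) (x₁ x₂ : ℝ) : Prop where
  an : AnalyticOnNhd ℂ X (Rect x₁ x₂)
  ne : ∀ ω ∈ Rect x₁ x₂, X ω ≠ 0

/-- a C¹ function of a complex variable with its partial derivatives -/
structure C1f (W Wx Wy : ℂ → ℝ) : Prop where
  hd : ∀ X : ℂ, HasFDerivAt W (Wx X • reCLM + Wy X • imCLM) X
  cx : Continuous Wx
  cy : Continuous Wy

/-- a C² function with its first partial derivatives and its Laplacian -/
structure C2f (U Ux Uy Lap : ℂ → ℝ) : Prop where
  h1 : C1f U Ux Uy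
  h2 : ∃ Uxx Uxy Uyy : ℂ → ℝ, C1f Ux Uxx Uxy ∧ C1f Uy Uxy Uyy ∧ ∀ X, Lap X = Uxx X + Uyy X

/-- the integrated form of the certificate, for a general functional `T` -/
def StripIneq (κ₂ : ℝ) (T : ℂ → ℂ → ℝ → ℝ → ℝ) : Prop :=
  ∃ C₁ : ℝ, ∀ (X : ℂ → ℂ) (x₁ x₂ l : ℝ), 1 ≤ l → x₁ + l ≤ x₂ - l → NiceX X x₁ x₂ →
    II (x₁ + l) (x₂ - l) (fun ξ η => T (X (pt ξ η)) (deriv X (pt ξ η)) (Real.sin η) (Real.cos η)) ≤
      (κ₂ + C₁ / l) * II x₁ x₂ (fun ξ η => ‖X (pt ξ η) - 1‖ ^ 2)

end Pool.Agent.Helper52.EK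

end

section

set_option autoImplicit false
open Complex MeasureTheory Metric Set Filter Topology
open scoped Real ENNReal ComplexConjugate NNReal

/-! Positivity of the Dirichlet form `∮ conj E dE`. -/

namespace Pool.Agent.Helper39.Area

theorem taylor_term {E : ℂ → ℂ} {R : ℝ} (hR : 0 < R) (hE : DifferentiableOn ℂ E (closedBall 0 R))
    (n : ℕ) (y : ℂ) : (cauchyPowerSeries E 0 R n fun _ => y) =
      y ^ n * (iteratedDeriv n E 0 / n.factorial) := by
  rw [cauchyPowerSeries_apply]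
  have h1 := hE.circleIntegral_one_div_sub_center_pow_smul hR n
  have h2 : (∮ z in C(0, R), (y / (z - 0)) ^ n • (z - 0)⁻¹ • E z) =
      y ^ n * ∮ z in C(0, R), (1 / (z - 0) ^ (n + 1)) • E z := by
    rw [← circleIntegral.integral_const_mul]
    congr 1
    funext z
    simp only [sub_zero, smul_eq_mul, div_pow, pow_succ, one_div, mul_inv]
    ring
  rw [h2, h1]
  have : (2 * π * I : ℂ) ≠ 0 := two_pi_I_ne_zero
  simp only [smul_eq_mul]
  field_simp

theorem sphere_ne' {ρ : ℝ} (hρ : 0 < ρ) {ζ : ℂ} (hζ : ζ ∈ sphere (0:ℂ) ρ) : ζ ≠ 0 := by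
  rintro rfl
  simp at hζ
  exact hρ.ne hζ

theorem conj_sphere {ρ : ℝ} (hρ : 0 < ρ) {ζ : ℂ} (hζ : ζ ∈ sphere (0:ℂ) ρ) :
    conj ζ = (ρ:ℂ) ^ 2 / ζ := by
  have h0 := sphere_ne' hρ hζ
  rw [eq_div_iff h0, mul_comm, Complex.mul_conj, Complex.normSq_eq_norm_sq]
  have : ‖ζ‖ = ρ := by simpa using hζ
  rw [this]
  push_cast
  rfl

theorem deriv_coeff {E : ℂ → ℂ} {R ρ : ℝ} (hE : DifferentiableOn ℂ E (ball 0 R)) (hρ : 0 < ρ)
    (hρR : ρ < R) (n : ℕ) :
    (∮ ζ in C(0, ρ), (ζ ^ n)⁻¹ * deriv E ζ) =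
      2 * π * I * (n * (iteratedDeriv n E 0 / n.factorial)) := by
  have hd : DifferentiableOn ℂ (deriv E) (ball 0 R) := hE.deriv isOpen_ball
  cases n with
  | zero =>
    simp only [pow_zero, inv_one, one_mul, CharP.cast_eq_zero, zero_mul, mul_zero]
    apply circleIntegral.integral_eq_zero_of_hasDerivWithinAt hρ.le (f := E)
    intro ζ hζ
    have h1 : ζ ∈ ball (0:ℂ) R := by
      rw [mem_ball, dist_zero_right]
      rw [mem_sphere, dist_zero_right] at hζ
      linarith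
    exact (hE.differentiableAt (isOpen_ball.mem_nhds h1)).hasDerivAt.hasDerivWithinAt
  | succ n =>
    have h1 := (hd.mono (closedBall_subset_ball hρR)).circleIntegral_one_div_sub_center_pow_smul hρ n
    have h2 : (∮ ζ in C(0, ρ), (ζ ^ (n + 1))⁻¹ * deriv E ζ) =
        ∮ z in C(0, ρ), (1 / (z - 0) ^ (n + 1)) • deriv E z := by
      congr 1
      funext z
      simp
    rw [h2, h1, ← iteratedDeriv_succ', Nat.factorial_succ]
    have h3 : ((n.factorial : ℕ) : ℂ) ≠ 0 := by exact_mod_cast n.factorial_ne_zero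
    have h4 : ((n : ℂ) + 1) ≠ 0 := by exact_mod_cast Nat.succ_ne_zero n
    push_cast
    simp only [smul_eq_mul]
    field_simp

theorem dirichlet_nonneg {E : ℂ → ℂ} {R ρ : ℝ} (hE : DifferentiableOn ℂ E (ball 0 R)) (hρ : 0 < ρ)
    (hρR : ρ < R) :
    ∃ c : ℝ, 0 ≤ c ∧ (∮ ζ in C(0, ρ), conj (E ζ) * deriv E ζ) = 2 * π * I * c := by
  obtain ⟨r, hρr, hrR⟩ := exists_between hρR
  have hr : 0 < r := hρ.trans hρr
  lift r to ℝ≥0 using hr.le
  have hEr : DifferentiableOn ℂ E (closedBall 0 r) := hE.mono (closedBall_subset_ball hrR)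
  have hps := hEr.hasFPowerSeriesOnBall (by exact_mod_cast hr)
  obtain ⟨r', hρr', hr'r⟩ := exists_between hρr
  lift r' to ℝ≥0 using (hρ.trans hρr').le
  have hun := hps.tendstoUniformlyOn (r' := r') (by exact_mod_cast hr'r)
  have hd : DifferentiableOn ℂ (deriv E) (ball 0 R) := hE.deriv isOpen_ball
  have hmem : ∀ ζ ∈ sphere (0:ℂ) ρ, ζ ∈ ball (0:ℂ) R := by
    intro ζ hζ
    rw [mem_ball, dist_zero_right]
    rw [mem_sphere, dist_zero_right] at hζ
    linarith
  have hdc : ContinuousOn (deriv E) (sphere 0 ρ) := hd.continuousOn.mono hmem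
  set e : ℕ → ℂ := fun n => iteratedDeriv n E 0 / n.factorial with he
  have hpart : ∀ (N : ℕ) (y : ℂ), (cauchyPowerSeries E 0 r).partialSum N y =
      ∑ n ∈ Finset.range N, y ^ n * e n := by
    intro N y
    unfold FormalMultilinearSeries.partialSum
    apply Finset.sum_congr rfl
    intro n _
    exact taylor_term hr hEr n y
  set T : ℕ → ℂ → ℂ := fun N y => ∑ n ∈ Finset.range N, y ^ n * e n with hT
  have hTc : ∀ N, Continuous (T N) := by
    intro N
    rw [hT]
    fun_prop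
  have hTE : TendstoUniformlyOn T E atTop (sphere 0 ρ) := by
    have h1 : TendstoUniformlyOn T E atTop (ball 0 r') := by
      have h2 : (fun (n : ℕ) (y : ℂ) => (cauchyPowerSeries E 0 r).partialSum n y) = T := by
        funext N y; exact hpart N y
      rw [h2] at hun
      simpa using hun
    apply h1.mono
    intro ζ hζ
    rw [mem_ball, dist_zero_right]
    rw [mem_sphere, dist_zero_right] at hζ
    linarith
  -- bound for the derivative
  obtain ⟨B, hB⟩ := (isCompact_sphere (0:ℂ) ρ).exists_bound_of_continuousOn hdc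
  have hlim : Tendsto (fun N => ∮ ζ in C(0, ρ), conj (T N ζ) * deriv E ζ) atTop
      (𝓝 (∮ ζ in C(0, ρ), conj (E ζ) * deriv E ζ)) := by
    apply TendstoUniformlyOn.tendsto_circleIntegral_of_continuousOn hρ.le
    · refine Eventually.of_forall fun N => ?_
      exact ((Complex.continuous_conj.comp (hTc N)).continuousOn).mul hdc
    · rw [Metric.tendstoUniformlyOn_iff] at hTE ⊢
      intro ε hε
      have hε' : 0 < ε / (|B| + 1) := by positivity
      filter_upwards [hTE _ hε'] with N hN ζ hζ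
      have h1 := hN ζ hζ
      rw [dist_eq_norm] at h1 ⊢
      rw [← sub_mul, ← map_sub, norm_mul, RCLike.norm_conj]
      calc ‖E ζ - T N ζ‖ * ‖deriv E ζ‖ ≤ ‖E ζ - T N ζ‖ * (|B| + 1) := by
            gcongr
            exact (hB ζ hζ).trans ((le_abs_self B).trans (by linarith))
        _ < ε / (|B| + 1) * (|B| + 1) := by gcongr
        _ = ε := by field_simp
  have hval : ∀ N, (∮ ζ in C(0, ρ), conj (T N ζ) * deriv E ζ) =
      2 * π * I * ((∑ n ∈ Finset.range N, (n:ℝ) * ρ ^ (2 * n) * ‖e n‖ ^ 2 : ℝ) : ℂ) := by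
    intro N
    have h1 : (∮ ζ in C(0, ρ), conj (T N ζ) * deriv E ζ) =
        ∮ ζ in C(0, ρ), ∑ n ∈ Finset.range N,
          (ρ:ℂ) ^ (2 * n) * conj (e n) * ((ζ ^ n)⁻¹ * deriv E ζ) := by
      apply circleIntegral.integral_congr hρ.le
      intro ζ hζ
      simp only [hT, map_sum, map_mul, map_pow, Finset.sum_mul]
      apply Finset.sum_congr rfl
      intro n _
      rw [conj_sphere hρ hζ, div_pow, ← pow_mul, div_eq_mul_inv]
      ring
    rw [h1, circleIntegral.integral_fun_sum]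
    · push_cast
      rw [Finset.mul_sum]
      apply Finset.sum_congr rfl
      intro n _
      rw [circleIntegral.integral_const_mul, deriv_coeff hE hρ hρR n]
      have h5 : (((‖e n‖ : ℝ)) : ℂ) ^ 2 = e n * conj (e n) := by
        rw [Complex.mul_conj, Complex.normSq_eq_norm_sq]
        push_cast
        rfl
      rw [h5]
      ring
    · intro n _
      apply ContinuousOn.circleIntegrable hρ.le
      apply continuousOn_const.mul
      apply ContinuousOn.mul _ hdc
      apply ContinuousOn.inv₀ (by fun_prop)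
      intro ζ hζ
      exact pow_ne_zero _ (sphere_ne' hρ hζ)
  -- the limit
  have h2pi : (2 * π * I : ℂ) ≠ 0 := two_pi_I_ne_zero
  set L : ℂ := ∮ ζ in C(0, ρ), conj (E ζ) * deriv E ζ with hL
  set c : ℕ → ℝ := fun N => ∑ n ∈ Finset.range N, (n:ℝ) * ρ ^ (2 * n) * ‖e n‖ ^ 2 with hc
  have hlim2 : Tendsto (fun N => ((c N : ℝ) : ℂ)) atTop (𝓝 ((2 * π * I : ℂ)⁻¹ * L)) := by
    have := hlim.const_mul ((2 * π * I : ℂ)⁻¹)
    refine this.congr ?_
    intro N
    rw [hval N, ← mul_assoc, inv_mul_cancel₀ h2pi, one_mul]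
  have hre := (Complex.continuous_re.tendsto _).comp hlim2
  have him := (Complex.continuous_im.tendsto _).comp hlim2
  refine ⟨((2 * π * I : ℂ)⁻¹ * L).re, ?_, ?_⟩
  · apply ge_of_tendsto' hre
    intro N
    simp only [Function.comp, Complex.ofReal_re, hc]
    positivity
  · have him0 : ((2 * π * I : ℂ)⁻¹ * L).im = 0 := by
      have h1 : (Complex.im ∘ fun N => ((c N : ℝ) : ℂ)) = fun _ => (0:ℝ) := by
        funext N; simp
      rw [h1] at him
      exact (tendsto_nhds_unique him tendsto_const_nhds)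
    have h3 : ((((2 * π * I : ℂ)⁻¹ * L).re : ℝ) : ℂ) = (2 * π * I : ℂ)⁻¹ * L := by
      apply Complex.ext
      · simp
      · simp only [Complex.ofReal_im]; exact him0.symm
    rw [h3, ← mul_assoc, mul_inv_cancel₀ h2pi, one_mul]

end Pool.Agent.Helper39.Area

end

section

/-!
Parseval's identity for power series on circles.
-/

set_option autoImplicit false

open MeasureTheory Set Metric Filter Topology
open scoped ENNReal NNReal Real

namespace Pool.Agent.Helper22.Marshall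

theorem integral_exp_int (n : ℤ) (hn : n ≠ 0) :
    ∫ θ in (-π)..π, Complex.exp ((n : ℂ) * (θ : ℂ) * Complex.I) = 0 := by
  have h1 : ∀ θ : ℝ, (n : ℂ) * (θ : ℂ) * Complex.I = (n : ℂ) * Complex.I * (θ : ℂ) := by
    intro θ; ring
  simp_rw [h1]
  have hne : (n : ℂ) * Complex.I ≠ 0 :=
    mul_ne_zero (Int.cast_ne_zero.mpr hn) Complex.I_ne_zero
  rw [integral_exp_mul_complex hne]
  have h2 : Complex.exp ((n : ℂ) * Complex.I * ((π : ℝ) : ℂ))
      = Complex.exp ((n : ℂ) * Complex.I * ((-π : ℝ) : ℂ)) := by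
    rw [Complex.exp_eq_exp_iff_exists_int]
    refine ⟨n, ?_⟩
    push_cast
    ring
  rw [h2, sub_self, zero_div]

theorem hasSum_mul_aux (F G : ℕ → ℂ) (s t : ℂ) (h0 : HasSum F s) (h1 : HasSum G t)
    (h : Summable fun n => ‖F n‖) (h2 : Summable fun n => ‖G n‖) :
    HasSum (fun p : ℕ × ℕ => F p.1 * G p.2) (s * t) :=
  h0.mul h1 (summable_mul_of_summable_norm h h2)

theorem parseval_aux (c : ℕ → ℂ) (r : ℝ) (hr : 0 ≤ r)
    (hs : Summable fun n => ‖c n‖ * r ^ n) (f : ℝ → ℂ)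
    (hf : ∀ θ : ℝ, HasSum (fun n => c n * ((r : ℂ) * Complex.exp (θ * Complex.I)) ^ n) (f θ)) :
    HasSum (fun n => ‖c n‖ ^ 2 * r ^ (2 * n)) ((1 / (2 * π)) * ∫ θ in (-π)..π, ‖f θ‖ ^ 2) := by
  obtain ⟨F, hF⟩ : ∃ F : ℕ → ℝ → ℂ,
    F = fun (n : ℕ) (θ : ℝ) => c n * ((r : ℂ) * Complex.exp ((θ : ℂ) * Complex.I)) ^ n :=
    ⟨_, rfl⟩
  have hnormF : ∀ n θ, ‖F n θ‖ = ‖c n‖ * r ^ n := by
    intro n θ
    simp only [hF, norm_mul, norm_pow, Complex.norm_exp_ofReal_mul_I, mul_one]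
    rw [Complex.norm_real, Real.norm_of_nonneg hr]
  have hsn : ∀ θ, Summable fun n => ‖F n θ‖ := by
    intro θ
    simp_rw [hnormF]
    exact hs
  have hprod : ∀ θ, HasSum (fun p : ℕ × ℕ => F p.1 θ * (starRingEnd ℂ) (F p.2 θ))
      (f θ * (starRingEnd ℂ) (f θ)) := by
    intro θ
    have h1 : HasSum (fun n => (starRingEnd ℂ) (F n θ)) ((starRingEnd ℂ) (f θ)) := by
      have := (hf θ).map (starRingEnd ℂ) Complex.continuous_conj
      rw [hF]
      exact this
    have h0 : HasSum (fun n => F n θ) (f θ) := by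
      rw [hF]
      exact hf θ
    have h2 : Summable fun n => ‖(starRingEnd ℂ) (F n θ)‖ := by
      simp_rw [Complex.norm_conj]
      exact hsn θ
    exact hasSum_mul_aux (fun n => F n θ) (fun n => (starRingEnd ℂ) (F n θ)) _ _ h0 h1 (hsn θ) h2

  have hFc : ∀ n, Continuous (F n) := by
    intro n
    simp only [hF]
    fun_prop
  have hint : HasSum (fun p : ℕ × ℕ => ∫ θ in (-π)..π, F p.1 θ * (starRingEnd ℂ) (F p.2 θ))
      (∫ θ in (-π)..π, f θ * (starRingEnd ℂ) (f θ)) := by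
    have hpi : (-π : ℝ) ≤ π := by linarith [Real.pi_pos]
    have key : ∀ g : ℝ → ℂ, ∫ θ in (-π)..π, g θ = ∫ θ in Ioc (-π) π, g θ := fun g =>
      intervalIntegral.integral_of_le hpi
    simp_rw [key]
    have h2 := hasSum_integral_of_summable_integral_norm (μ := volume.restrict (Ioc (-π) π))
      (F := fun (p : ℕ × ℕ) (θ : ℝ) => F p.1 θ * (starRingEnd ℂ) (F p.2 θ)) ?_ ?_
    · have h3 : (fun θ => ∑' p : ℕ × ℕ, F p.1 θ * (starRingEnd ℂ) (F p.2 θ))
          = fun θ => f θ * (starRingEnd ℂ) (f θ) := by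
        funext θ
        exact (hprod θ).tsum_eq
      rw [h3] at h2
      exact h2
    · intro p
      apply Continuous.integrableOn_Ioc
      exact (hFc p.1).mul (Complex.continuous_conj.comp (hFc p.2))
    · have h4 : ∀ p : ℕ × ℕ, ∫ θ in Ioc (-π) π, ‖F p.1 θ * (starRingEnd ℂ) (F p.2 θ)‖
          = (2 * π) * ((‖c p.1‖ * r ^ p.1) * (‖c p.2‖ * r ^ p.2)) := by
        intro p
        have : ∀ θ, ‖F p.1 θ * (starRingEnd ℂ) (F p.2 θ)‖
            = (‖c p.1‖ * r ^ p.1) * (‖c p.2‖ * r ^ p.2) := by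
          intro θ
          rw [norm_mul, Complex.norm_conj, hnormF, hnormF]
        simp_rw [this]
        rw [setIntegral_const]
        simp only [smul_eq_mul]
        rw [Real.volume_real_Ioc_of_le hpi]
        ring
      simp_rw [h4]
      apply Summable.mul_left
      exact summable_mul_of_summable_norm
        (f := fun n => ‖c n‖ * r ^ n) (g := fun n => ‖c n‖ * r ^ n)
        (by simpa [abs_of_nonneg hr] using hs) (by simpa [abs_of_nonneg hr] using hs)
  -- compute the integrals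
  have hval : ∀ p : ℕ × ℕ, ∫ θ in (-π)..π, F p.1 θ * (starRingEnd ℂ) (F p.2 θ)
      = if p.1 = p.2 then ((2 * π * (‖c p.1‖ ^ 2 * r ^ (2 * p.1)) : ℝ) : ℂ) else 0 := by
    rintro ⟨m, n⟩
    have h5 : ∀ θ : ℝ, F m θ * (starRingEnd ℂ) (F n θ)
        = (c m * (starRingEnd ℂ) (c n) * (r : ℂ) ^ (m + n)) *
          Complex.exp (((m : ℤ) - (n : ℤ) : ℤ) * (θ : ℂ) * Complex.I) := by
      intro θ
      simp only [hF, map_mul, map_pow, Complex.conj_ofReal]
      rw [← Complex.exp_conj]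
      simp only [map_mul, Complex.conj_ofReal, Complex.conj_I]
      rw [mul_pow, mul_pow, ← Complex.exp_nat_mul, ← Complex.exp_nat_mul]
      have : Complex.exp (((m : ℤ) - (n : ℤ) : ℤ) * (θ : ℂ) * Complex.I)
          = Complex.exp ((m : ℂ) * ((θ : ℂ) * Complex.I))
            * Complex.exp ((n : ℂ) * ((θ : ℂ) * -Complex.I)) := by
        rw [← Complex.exp_add]
        congr 1
        push_cast
        ring
      rw [this]
      ring
    simp only
    simp_rw [h5]
    rw [intervalIntegral.integral_const_mul]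
    by_cases hmn : m = n
    · subst hmn
      rw [if_pos rfl]
      simp only [sub_self, Int.cast_zero, zero_mul, Complex.exp_zero]
      rw [intervalIntegral.integral_const, Complex.mul_conj, Complex.normSq_eq_norm_sq]
      simp only [sub_neg_eq_add, Complex.real_smul, mul_one]
      push_cast
      ring
    · rw [if_neg hmn, integral_exp_int _ (sub_ne_zero.mpr (by exact_mod_cast hmn)), mul_zero]
  simp_rw [hval] at hint
  -- restrict to the diagonal
  have hdiag : HasSum (fun n : ℕ => ((2 * π * (‖c n‖ ^ 2 * r ^ (2 * n)) : ℝ) : ℂ))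
      (∫ θ in (-π)..π, f θ * (starRingEnd ℂ) (f θ)) := by
    have hinj : Function.Injective (fun n : ℕ => (n, n)) := by
      intro a b h
      exact (Prod.mk.inj h).1
    have := (hinj.hasSum_iff (f := fun p : ℕ × ℕ =>
      if p.1 = p.2 then ((2 * π * (‖c p.1‖ ^ 2 * r ^ (2 * p.1)) : ℝ) : ℂ) else 0)
      (a := ∫ θ in (-π)..π, f θ * (starRingEnd ℂ) (f θ)) ?_).mpr hint
    · simpa [Function.comp_def] using this
    · rintro ⟨a, b⟩ hab
      rw [if_neg]
      intro h
      apply hab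
      refine ⟨a, ?_⟩
      simp only [Prod.mk.injEq, true_and]
      exact h
  have hreal : (∫ θ in (-π)..π, f θ * (starRingEnd ℂ) (f θ))
      = ((∫ θ in (-π)..π, ‖f θ‖ ^ 2 : ℝ) : ℂ) := by
    rw [← intervalIntegral.integral_ofReal]
    congr 1
    funext θ
    rw [Complex.mul_conj, Complex.normSq_eq_norm_sq]
  rw [hreal] at hdiag
  have h6 := Complex.hasSum_ofReal.mp hdiag
  have h7 := h6.mul_left (1 / (2 * π))
  have hpi := Real.pi_pos
  have h8 : (fun n => ‖c n‖ ^ 2 * r ^ (2 * n))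
      = fun n => 1 / (2 * π) * (2 * π * (‖c n‖ ^ 2 * r ^ (2 * n))) := by
    funext n
    field_simp
  rw [h8]
  exact h7

end Pool.Agent.Helper22.Marshall

end

section

/-!
Taylor coefficients of holomorphic functions on the unit disc, and Parseval's identity.
-/

set_option autoImplicit false

open MeasureTheory Set Metric Filter Topology
open scoped ENNReal NNReal Real Nat

namespace Pool.Agent.Helper22.Marshall

/-- Taylor coefficient at zero. -/
noncomputable def coeff (f : ℂ → ℂ) (n : ℕ) : ℂ := (n ! : ℂ)⁻¹ * iteratedDeriv n f 0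

theorem coeff_zero (f : ℂ → ℂ) : coeff f 0 = f 0 := by simp [coeff]

theorem coeff_one (f : ℂ → ℂ) : coeff f 1 = deriv f 0 := by simp [coeff]

theorem hasSum_coeff {f : ℂ → ℂ} (hf : DifferentiableOn ℂ f (ball 0 1)) {z : ℂ}
    (hz : ‖z‖ < 1) : HasSum (fun n => coeff f n * z ^ n) (f z) := by
  have h := Complex.hasSum_taylorSeries_on_ball (c := 0) (r := 1) (z := z) hf (by simpa using hz)
  have : (fun n => coeff f n * z ^ n)
      = fun n : ℕ => (n ! : ℂ)⁻¹ • (z - 0) ^ n • iteratedDeriv n f 0 := by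
    funext n
    simp only [coeff, smul_eq_mul, sub_zero]
    ring
  rw [this]
  exact h

theorem coeff_deriv (f : ℂ → ℂ) (n : ℕ) :
    coeff (deriv f) n = ((n : ℂ) + 1) * coeff f (n + 1) := by
  simp only [coeff, Nat.factorial_succ, Nat.cast_mul, Nat.cast_succ]
  rw [iteratedDeriv_succ']
  have h1 : ((n : ℂ) + 1) ≠ 0 := Nat.cast_add_one_ne_zero n
  have h2 : ((n ! : ℕ) : ℂ) ≠ 0 := Nat.cast_ne_zero.mpr (Nat.factorial_ne_zero n)
  field_simp

theorem differentiableOn_deriv {f : ℂ → ℂ} (hf : DifferentiableOn ℂ f (ball 0 1)) :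
    DifferentiableOn ℂ (deriv f) (ball 0 1) := hf.deriv isOpen_ball

theorem hasSum_coeff_deriv {f : ℂ → ℂ} (hf : DifferentiableOn ℂ f (ball 0 1)) {z : ℂ}
    (hz : ‖z‖ < 1) : HasSum (fun n : ℕ => (n : ℂ) * coeff f n * z ^ n) (z * deriv f z) := by
  have h := (hasSum_coeff (differentiableOn_deriv hf) hz).mul_left z
  have h2 : HasSum (fun n : ℕ => ((n + 1 : ℕ) : ℂ) * coeff f (n + 1) * z ^ (n + 1))
      (z * deriv f z) := by
    have : (fun n : ℕ => ((n + 1 : ℕ) : ℂ) * coeff f (n + 1) * z ^ (n + 1))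
        = fun n => z * (coeff (deriv f) n * z ^ n) := by
      funext n
      rw [coeff_deriv]
      push_cast
      ring
    rw [this]
    exact h
  rw [← hasSum_nat_add_iff' 1]
  simpa using h2

theorem parseval_comb {f : ℂ → ℂ} (hf : DifferentiableOn ℂ f (ball 0 1)) (α β : ℂ) {r : ℝ}
    (hr : 0 ≤ r) (hr1 : r < 1) :
    HasSum (fun n : ℕ => ‖(α * n + β) * coeff f n‖ ^ 2 * r ^ (2 * n))
      ((1 / (2 * π)) * ∫ θ in (-π)..π,
        ‖α * (((r : ℂ) * Complex.exp ((θ : ℂ) * Complex.I)) *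
          deriv f ((r : ℂ) * Complex.exp ((θ : ℂ) * Complex.I)))
          + β * f ((r : ℂ) * Complex.exp ((θ : ℂ) * Complex.I))‖ ^ 2) := by
  have hsum : ∀ z : ℂ, ‖z‖ < 1 → HasSum (fun n : ℕ => (α * n + β) * coeff f n * z ^ n)
      (α * (z * deriv f z) + β * f z) := by
    intro z hz
    have h1 := (hasSum_coeff_deriv hf hz).mul_left α
    have h2 := (hasSum_coeff hf hz).mul_left β
    have h3 := h1.add h2
    have : (fun n : ℕ => (α * n + β) * coeff f n * z ^ n)
        = fun n : ℕ => α * ((n : ℂ) * coeff f n * z ^ n) + β * (coeff f n * z ^ n) := by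
      funext n
      ring
    rw [this]
    exact h3
  have hnorm : ∀ θ : ℝ, ‖(r : ℂ) * Complex.exp ((θ : ℂ) * Complex.I)‖ = r := by
    intro θ
    rw [norm_mul, Complex.norm_exp_ofReal_mul_I, mul_one, Complex.norm_real,
      Real.norm_of_nonneg hr]
  apply parseval_aux (fun n : ℕ => (α * n + β) * coeff f n) r hr
  · have h := (hsum (r : ℂ) (by rw [Complex.norm_real, Real.norm_of_nonneg hr]; exact hr1)).summable
    have h2 := h.norm
    have : (fun n : ℕ => ‖(α * n + β) * coeff f n‖ * r ^ n)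
        = fun n : ℕ => ‖(α * n + β) * coeff f n * (r : ℂ) ^ n‖ := by
      funext n
      rw [norm_mul _ ((r : ℂ) ^ n), norm_pow, Complex.norm_real, Real.norm_of_nonneg hr]
    rw [this]
    exact h2
  · intro θ
    exact hsum _ (by rw [hnorm]; exact hr1)

end Pool.Agent.Helper22.Marshall

end

section

/-!
Taylor coefficients of products, and Cauchy's formula on circles.
-/

set_option autoImplicit false

open MeasureTheory Set Metric Filter Topology
open scoped ENNReal NNReal Real Nat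

namespace Pool.Agent.Helper22.Marshall

theorem coeff_mul {f g : ℂ → ℂ} (hf : AnalyticAt ℂ f 0) (hg : AnalyticAt ℂ g 0) (n : ℕ) :
    coeff (fun z => f z * g z) n = ∑ i ∈ Finset.range (n + 1), coeff f i * coeff g (n - i) := by
  unfold coeff
  have h := iteratedDeriv_mul (n := n) (x := (0 : ℂ)) hf.contDiffAt hg.contDiffAt
  have e : (fun z => f z * g z) = f * g := rfl
  rw [e, h, Finset.mul_sum]
  apply Finset.sum_congr rfl
  intro i hi
  rw [Finset.mem_range] at hi
  have h2 : (n.choose i : ℂ) * ((i ! : ℕ) : ℂ) * (((n - i)! : ℕ) : ℂ) = ((n ! : ℕ) : ℂ) := by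
    exact_mod_cast Nat.choose_mul_factorial_mul_factorial (by omega : i ≤ n)
  have h3 : ((n ! : ℕ) : ℂ) ≠ 0 := Nat.cast_ne_zero.mpr (Nat.factorial_ne_zero n)
  have h4 : ((i ! : ℕ) : ℂ) ≠ 0 := Nat.cast_ne_zero.mpr (Nat.factorial_ne_zero i)
  have h5 : (((n - i)! : ℕ) : ℂ) ≠ 0 := Nat.cast_ne_zero.mpr (Nat.factorial_ne_zero _)
  rw [← h2]
  have h6 : (n.choose i : ℂ) ≠ 0 := by
    intro h
    rw [h, zero_mul, zero_mul] at h2
    exact h3 h2.symm
  field_simp

theorem coeff_congr {f g : ℂ → ℂ} (h : f =ᶠ[𝓝 0] g) (n : ℕ) : coeff f n = coeff g n := by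
  unfold coeff
  rw [h.iteratedDeriv_eq]

theorem coeff_const_mul (c : ℂ) (f : ℂ → ℂ) (n : ℕ) :
    coeff (fun z => c * f z) n = c * coeff f n := by
  unfold coeff
  rw [iteratedDeriv_const_mul_field]
  ring

/-- uniqueness of Taylor coefficients -/
theorem coeff_eq_of_hasSum {f : ℂ → ℂ} {a : ℕ → ℂ} {r : ℝ} (hr : 0 < r)
    (h : ∀ z : ℂ, ‖z‖ < r → HasSum (fun n => a n * z ^ n) (f z)) (n : ℕ) : coeff f n = a n := by
  have hp : HasFPowerSeriesAt f (FormalMultilinearSeries.ofScalars ℂ a) 0 := by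
    rw [hasFPowerSeriesAt_iff]
    filter_upwards [ball_mem_nhds (0 : ℂ) hr] with z hz
    rw [mem_ball_zero_iff] at hz
    have e : (fun n => z ^ n • (FormalMultilinearSeries.ofScalars ℂ a).coeff n)
        = fun n => a n * z ^ n := by
      funext n
      rw [FormalMultilinearSeries.coeff_ofScalars, smul_eq_mul, mul_comm]
    rw [e, zero_add]
    exact h z hz
  have han : AnalyticAt ℂ f 0 := hp.analyticAt
  have h2 := han.hasFPowerSeriesAt
  have h3 := hp.eq_formalMultilinearSeries h2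
  have h4 := congrArg (fun p : FormalMultilinearSeries ℂ ℂ ℂ => p.coeff n) h3
  simp only [FormalMultilinearSeries.coeff_ofScalars] at h4
  rw [h4]
  unfold coeff
  rw [div_eq_inv_mul]

end Pool.Agent.Helper22.Marshall

end

section

/-!
Two classical facts: the derivative of an injective holomorphic function has no zero, and a
holomorphic function without zeros on the disc has a holomorphic logarithm.
-/

set_option autoImplicit false

open Set Metric Filter Topology

namespace Pool.Agent.Helper24.Br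

/-- the derivative of an injective holomorphic function has no zero -/
theorem deriv_ne_of_inj {f : ℂ → ℂ} {U : Set ℂ} (hU : IsOpen U) (hf : DifferentiableOn ℂ f U)
    (hinj : InjOn f U) {z : ℂ} (hz : z ∈ U) : deriv f z ≠ 0 := by
  intro h0
  have hUz : U ∈ 𝓝 z := hU.mem_nhds hz
  have hfa : AnalyticAt ℂ f z := hf.analyticAt hUz
  have hFa : AnalyticAt ℂ (fun w => f w - f z) z := hfa.sub analyticAt_const
  have hnc : ¬ ∀ᶠ w in 𝓝 z, f w - f z = 0 := by
    intro hev
    have h1 : ∀ᶠ w in 𝓝 z, w = z := by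
      filter_upwards [hev, hUz] with w hw hwU
      exact hinj hwU hz (by linear_combination hw)
    have h2 : ∀ᶠ w in 𝓝[≠] z, w = z := h1.filter_mono nhdsWithin_le_nhds
    have h3 : ∀ᶠ w in 𝓝[≠] z, w ≠ z := self_mem_nhdsWithin
    obtain ⟨w, hw1, hw2⟩ := (h2.and h3).exists
    exact hw2 hw1
  obtain ⟨n, g, hg, hgz, hev⟩ := hFa.exists_eventuallyEq_pow_smul_nonzero_iff.mpr hnc
  simp only [smul_eq_mul] at hev
  have hdF : HasDerivAt (fun w => f w - f z) 0 z := by
    have h := (hfa.differentiableAt.hasDerivAt).sub_const (f z)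
    rwa [h0] at h
  have hn : 2 ≤ n := by
    by_contra hlt
    have hcase : n = 0 ∨ n = 1 := by omega
    rcases hcase with h | h
    · subst h
      have := hev.self_of_nhds
      simp only [sub_self, pow_zero, one_mul] at this
      exact hgz this.symm
    · subst h
      have h2 : HasDerivAt (fun w => (w - z) ^ 1 * g w) (g z) z := by
        have h3 := ((hasDerivAt_id z).sub_const z).mul hg.differentiableAt.hasDerivAt
        simp only [id_eq, one_mul, sub_self, zero_mul, add_zero] at h3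
        simp only [pow_one]
        exact h3
      have h4 := h2.congr_of_eventuallyEq hev
      have h5 := h4.unique hdF
      exact hgz h5
  have hn0 : (n : ℂ) ≠ 0 := by
    have : n ≠ 0 := by omega
    exact_mod_cast this
  -- a local root
  obtain ⟨c, hc⟩ : ∃ c : ℂ, c ^ n = g z := by
    have : 0 < n := by omega
    obtain ⟨c, hc⟩ := IsAlgClosed.exists_pow_nat_eq (g z) this
    exact ⟨c, hc⟩
  have hc0 : c ≠ 0 := by
    intro h
    rw [h, zero_pow (by omega)] at hc
    exact hgz hc.symm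
  have hq : AnalyticAt ℂ (fun w => g w / g z) z := hg.div analyticAt_const hgz
  have hq1 : g z / g z = 1 := div_self hgz
  have hlog : AnalyticAt ℂ (fun w => Complex.log (g w / g z)) z := by
    apply AnalyticAt.clog hq
    rw [hq1]
    exact Complex.one_mem_slitPlane
  have hk : AnalyticAt ℂ (fun w => c * Complex.exp (Complex.log (g w / g z) / n)) z :=
    analyticAt_const.mul (hlog.div analyticAt_const hn0).cexp
  obtain ⟨k, hkd⟩ : ∃ k : ℂ → ℂ, k = fun w => c * Complex.exp (Complex.log (g w / g z) / n) :=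
    ⟨_, rfl⟩
  rw [← hkd] at hk
  have hkz : k z = c := by
    rw [hkd]
    simp only [hq1, Complex.log_one, zero_div, Complex.exp_zero, mul_one]
  have hgne : ∀ᶠ w in 𝓝 z, g w ≠ 0 := hg.continuousAt.eventually_ne hgz
  have hkn : ∀ᶠ w in 𝓝 z, k w ^ n = g w := by
    filter_upwards [hgne] with w hw
    rw [hkd]
    simp only
    rw [mul_pow, hc, ← Complex.exp_nat_mul, mul_div_cancel₀ _ hn0,
      Complex.exp_log (div_ne_zero hw hgz), mul_div_cancel₀ _ hgz]
  obtain ⟨u, hud⟩ : ∃ u : ℂ → ℂ, u = fun w => (w - z) * k w := ⟨_, rfl⟩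
  have hua : AnalyticAt ℂ u z := by
    rw [hud]
    exact (analyticAt_id.sub analyticAt_const).mul hk
  have hu' : HasDerivAt u c z := by
    have h3 := ((hasDerivAt_id z).sub_const z).mul hk.differentiableAt.hasDerivAt
    simp only [id_eq, one_mul, sub_self, zero_mul, add_zero] at h3
    rw [hkz] at h3
    rw [hud]
    exact h3
  have hus : HasStrictDerivAt u c z := by
    have := hua.hasStrictDerivAt
    rwa [hu'.deriv] at this
  have huz : u z = 0 := by rw [hud]; simp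
  have hmap := hus.map_nhds_eq hc0
  rw [huz] at hmap
  have hgood : ∀ᶠ w in 𝓝 z, w ∈ U ∧ f w - f z = u w ^ n := by
    filter_upwards [hUz, hev, hkn] with w h1 h2 h3
    refine ⟨h1, ?_⟩
    rw [h2, hud]
    simp only
    rw [mul_pow, h3]
  have himg : u '' {w | w ∈ U ∧ f w - f z = u w ^ n} ∈ 𝓝 (0 : ℂ) := by
    rw [← hmap]
    exact image_mem_map hgood
  rw [Metric.mem_nhds_iff] at himg
  obtain ⟨ε, hε, hball⟩ := himg
  have hω := Complex.isPrimitiveRoot_exp n (by omega)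
  obtain ⟨ω, hωd⟩ : ∃ ω : ℂ, ω = Complex.exp (2 * Real.pi * Complex.I / n) := ⟨_, rfl⟩
  rw [← hωd] at hω
  have hω1 : ω ≠ 1 := hω.ne_one (by omega)
  have hωn : ω ^ n = 1 := hω.pow_eq_one
  have hωnorm : ‖ω‖ = 1 := hω.norm'_eq_one (by omega)
  have he0 : ((ε / 2 : ℝ) : ℂ) ≠ 0 := by
    have : (ε / 2 : ℝ) ≠ 0 := by positivity
    exact_mod_cast this
  have hen : ‖((ε / 2 : ℝ) : ℂ)‖ < ε := by
    rw [Complex.norm_real, Real.norm_of_nonneg (by positivity)]
    linarith
  obtain ⟨w1, ⟨hw1U, hw1⟩, hw1e⟩ := hball (mem_ball_zero_iff.mpr hen)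
  have hen2 : ω * ((ε / 2 : ℝ) : ℂ) ∈ ball (0 : ℂ) ε := by
    rw [mem_ball_zero_iff, norm_mul, hωnorm, one_mul]; exact hen
  obtain ⟨w2, ⟨hw2U, hw2⟩, hw2e⟩ := hball hen2
  rw [hw1e] at hw1
  rw [hw2e, mul_pow, hωn, one_mul] at hw2
  have h12 : w1 = w2 := hinj hw1U hw2U (by linear_combination hw1 - hw2)
  rw [h12, hw2e] at hw1e
  apply hω1
  have : (ω - 1) * ((ε / 2 : ℝ) : ℂ) = 0 := by linear_combination hw1e
  rcases mul_eq_zero.mp this with h | h
  · linear_combination h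
  · exact absurd h he0

/-- the holomorphic logarithm on the disc -/
theorem exists_log_ball {q : ℂ → ℂ} (hq : DifferentiableOn ℂ q (ball 0 1))
    (hq0 : ∀ z ∈ ball (0 : ℂ) 1, q z ≠ 0) (h1 : q 0 = 1) :
    ∃ H : ℂ → ℂ, DifferentiableOn ℂ H (ball 0 1) ∧ H 0 = 0 ∧
      ∀ z ∈ ball (0 : ℂ) 1, Complex.exp (H z) = q z := by
  have hd : DifferentiableOn ℂ (fun z => deriv q z / q z) (ball 0 1) :=
    (hq.deriv isOpen_ball).div hq hq0
  obtain ⟨H, hH0, hH⟩ := hd.isExactOn_ball.with_val_at 0 0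
  refine ⟨H, fun z hz => (hH z hz).differentiableAt.differentiableWithinAt, hH0, ?_⟩
  have hconst : ∀ z ∈ ball (0 : ℂ) 1, HasDerivAt (fun z => q z * Complex.exp (-H z)) 0 z := by
    intro z hz
    have hqz := (hq.differentiableAt (isOpen_ball.mem_nhds hz)).hasDerivAt
    have hne : HasDerivAt (fun z => -H z) (-(deriv q z / q z)) z := (hH z hz).neg
    have h3 : HasDerivAt (fun z => q z * Complex.exp (-H z))
        (deriv q z * Complex.exp (-H z) + q z * (Complex.exp (-H z) * -(deriv q z / q z))) z :=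
      hqz.mul hne.cexp
    have e : deriv q z * Complex.exp (-H z) + q z * (Complex.exp (-H z) * -(deriv q z / q z)) = 0 := by
      have := hq0 z hz
      field_simp
      ring
    rw [e] at h3
    exact h3
  intro z hz
  have h4 : (fun z => q z * Complex.exp (-H z)) z = (fun z => q z * Complex.exp (-H z)) 0 := by
    apply (convex_ball (0 : ℂ) 1).is_const_of_fderivWithin_eq_zero (𝕜 := ℂ)
      (f := fun z => q z * Complex.exp (-H z)) (fun w hw => (hconst w hw).differentiableAt.differentiableWithinAt)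
      ?_ hz (mem_ball_self one_pos)
    intro w hw
    rw [fderivWithin_of_isOpen isOpen_ball hw]
    have := (hconst w hw).hasFDerivAt.fderiv
    rw [this]
    ext
    simp
  simp only [hH0, neg_zero, Complex.exp_zero, mul_one, h1] at h4
  have h5 : Complex.exp (H z) * Complex.exp (-H z) = 1 := by
    rw [← Complex.exp_add, add_neg_cancel, Complex.exp_zero]
  have h6 := Complex.exp_ne_zero (-H z)
  apply mul_right_cancel₀ h6
  rw [h5, h4]

end Pool.Agent.Helper24.Br

end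

section

namespace Pool.Agent.Helper39.Area
end Pool.Agent.Helper39.Area

/-!
Dirichlet integrals of analytic functions on discs: contour form, coefficients and area.
-/

set_option autoImplicit false

open Complex MeasureTheory Metric Set Filter Topology

open scoped Real ENNReal ComplexConjugate NNReal

namespace Pool.Agent.Helper39.EK

open Pool.Agent.Helper39.Area

/-- the contour form of the Dirichlet integral dominates the partial sums of the coefficient
form -/
theorem dirichlet_sum {E : ℂ → ℂ} {R ρ : ℝ} (hE : DifferentiableOn ℂ E (ball 0 R)) (hρ : 0 < ρ)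
    (hρR : ρ < R) :
    ∃ c : ℝ, (∀ N : ℕ, ∑ n ∈ Finset.range N,
        (n:ℝ) * ρ ^ (2 * n) * ‖iteratedDeriv n E 0 / n.factorial‖ ^ 2 ≤ c) ∧
      (∮ ζ in C(0, ρ), conj (E ζ) * deriv E ζ) = 2 * π * I * c := by
  obtain ⟨r, hρr, hrR⟩ := exists_between hρR
  have hr : 0 < r := hρ.trans hρr
  lift r to ℝ≥0 using hr.le
  have hEr : DifferentiableOn ℂ E (closedBall 0 r) := hE.mono (closedBall_subset_ball hrR)
  have hps := hEr.hasFPowerSeriesOnBall (by exact_mod_cast hr)
  obtain ⟨r', hρr', hr'r⟩ := exists_between hρr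
  lift r' to ℝ≥0 using (hρ.trans hρr').le
  have hun := hps.tendstoUniformlyOn (r' := r') (by exact_mod_cast hr'r)
  have hd : DifferentiableOn ℂ (deriv E) (ball 0 R) := hE.deriv isOpen_ball
  have hmem : ∀ ζ ∈ sphere (0:ℂ) ρ, ζ ∈ ball (0:ℂ) R := by
    intro ζ hζ
    rw [mem_ball, dist_zero_right]
    rw [mem_sphere, dist_zero_right] at hζ
    (clear * - hrR hρr' hr'r hζ; linarith)
  have hdc : ContinuousOn (deriv E) (sphere 0 ρ) := hd.continuousOn.mono hmem
  set e : ℕ → ℂ := fun n => iteratedDeriv n E 0 / n.factorial with he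
  have hpart : ∀ (N : ℕ) (y : ℂ), (cauchyPowerSeries E 0 r).partialSum N y =
      ∑ n ∈ Finset.range N, y ^ n * e n := by
    intro N y
    unfold FormalMultilinearSeries.partialSum
    apply Finset.sum_congr rfl
    intro n _
    exact taylor_term hr hEr n y
  set T : ℕ → ℂ → ℂ := fun N y => ∑ n ∈ Finset.range N, y ^ n * e n with hT
  have hTc : ∀ N, Continuous (T N) := by
    intro N
    rw [hT]
    fun_prop
  have hTE : TendstoUniformlyOn T E atTop (sphere 0 ρ) := by
    have h1 : TendstoUniformlyOn T E atTop (ball 0 r') := by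
      have h2 : (fun (n : ℕ) (y : ℂ) => (cauchyPowerSeries E 0 r).partialSum n y) = T := by
        funext N y; exact hpart N y
      rw [h2] at hun
      simpa using hun
    apply h1.mono
    intro ζ hζ
    rw [mem_ball, dist_zero_right]
    rw [mem_sphere, dist_zero_right] at hζ
    linarith only [hρr', hζ]
  obtain ⟨B, hB⟩ := (isCompact_sphere (0:ℂ) ρ).exists_bound_of_continuousOn hdc
  have hlim : Tendsto (fun N => ∮ ζ in C(0, ρ), conj (T N ζ) * deriv E ζ) atTop
      (𝓝 (∮ ζ in C(0, ρ), conj (E ζ) * deriv E ζ)) := by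
    apply TendstoUniformlyOn.tendsto_circleIntegral_of_continuousOn hρ.le
    · refine Eventually.of_forall fun N => ?_
      exact ((Complex.continuous_conj.comp (hTc N)).continuousOn).mul hdc
    · rw [Metric.tendstoUniformlyOn_iff] at hTE ⊢
      intro ε hε
      have hε' : 0 < ε / (|B| + 1) := by (clear * - hε; positivity)
      filter_upwards [hTE _ hε'] with N hN ζ hζ
      have h1 := hN ζ hζ
      rw [dist_eq_norm] at h1 ⊢
      rw [← sub_mul, ← map_sub, norm_mul, RCLike.norm_conj]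
      calc ‖E ζ - T N ζ‖ * ‖deriv E ζ‖ ≤ ‖E ζ - T N ζ‖ * (|B| + 1) := by
            gcongr
            exact (hB ζ hζ).trans ((le_abs_self B).trans (by linarith only []))
        _ < ε / (|B| + 1) * (|B| + 1) := by (clear * - h1; gcongr)
        _ = ε := by (clear * - hε; field_simp)
  have hval : ∀ N, (∮ ζ in C(0, ρ), conj (T N ζ) * deriv E ζ) =
      2 * π * I * ((∑ n ∈ Finset.range N, (n:ℝ) * ρ ^ (2 * n) * ‖e n‖ ^ 2 : ℝ) : ℂ) := by
    intro N
    have h1 : (∮ ζ in C(0, ρ), conj (T N ζ) * deriv E ζ) =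
        ∮ ζ in C(0, ρ), ∑ n ∈ Finset.range N,
          (ρ:ℂ) ^ (2 * n) * conj (e n) * ((ζ ^ n)⁻¹ * deriv E ζ) := by
      apply circleIntegral.integral_congr hρ.le
      intro ζ hζ
      simp only [hT, map_sum, map_mul, map_pow, Finset.sum_mul]
      apply Finset.sum_congr rfl
      intro n _
      rw [conj_sphere hρ hζ, div_pow, ← pow_mul, div_eq_mul_inv]
      ring
    rw [h1, circleIntegral.integral_fun_sum]
    · push_cast
      rw [Finset.mul_sum]
      apply Finset.sum_congr rfl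
      intro n _
      rw [circleIntegral.integral_const_mul, deriv_coeff hE hρ hρR n]
      have h5 : (((‖e n‖ : ℝ)) : ℂ) ^ 2 = e n * conj (e n) := by
        rw [Complex.mul_conj, Complex.normSq_eq_norm_sq]
        push_cast
        rfl
      rw [h5]
      ring
    · intro n _
      apply ContinuousOn.circleIntegrable hρ.le
      apply continuousOn_const.mul
      apply ContinuousOn.mul _ hdc
      apply ContinuousOn.inv₀ (by fun_prop)
      intro ζ hζ
      exact pow_ne_zero _ (sphere_ne' hρ hζ)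
  have h2pi : (2 * π * I : ℂ) ≠ 0 := two_pi_I_ne_zero
  set L : ℂ := ∮ ζ in C(0, ρ), conj (E ζ) * deriv E ζ with hL
  set c : ℕ → ℝ := fun N => ∑ n ∈ Finset.range N, (n:ℝ) * ρ ^ (2 * n) * ‖e n‖ ^ 2 with hc
  have hlim2 : Tendsto (fun N => ((c N : ℝ) : ℂ)) atTop (𝓝 ((2 * π * I : ℂ)⁻¹ * L)) := by
    have := hlim.const_mul ((2 * π * I : ℂ)⁻¹)
    refine this.congr ?_
    intro N
    rw [hval N, ← mul_assoc, inv_mul_cancel₀ h2pi, one_mul]
  have hre := (Complex.continuous_re.tendsto _).comp hlim2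
  have him := (Complex.continuous_im.tendsto _).comp hlim2
  have hmono : Monotone c := by
    refine monotone_nat_of_le_succ fun N => ?_
    simp only [hc, Finset.sum_range_succ]
    have : 0 ≤ (N:ℝ) * ρ ^ (2 * N) * ‖e N‖ ^ 2 := by (clear * - hρ; positivity)
    linarith only [this]
  refine ⟨((2 * π * I : ℂ)⁻¹ * L).re, ?_, ?_⟩
  · intro N
    have h1 : Tendsto c atTop (𝓝 ((2 * π * I : ℂ)⁻¹ * L).re) := by
      refine hre.congr fun N => ?_
      simp only [Function.comp, Complex.ofReal_re]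
    exact hmono.ge_of_tendsto h1 N
  · have him0 : ((2 * π * I : ℂ)⁻¹ * L).im = 0 := by
      have h1 : (Complex.im ∘ fun N => ((c N : ℝ) : ℂ)) = fun _ => (0:ℝ) := by
        funext N; simp
      rw [h1] at him
      exact (tendsto_nhds_unique him tendsto_const_nhds)
    have h3 : ((((2 * π * I : ℂ)⁻¹ * L).re : ℝ) : ℂ) = (2 * π * I : ℂ)⁻¹ * L := by
      apply Complex.ext
      · simp
      · simp only [Complex.ofReal_im]; exact him0.symm
    rw [h3, ← mul_assoc, mul_inv_cancel₀ h2pi, one_mul]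

end Pool.Agent.Helper39.EK

end

section

namespace Pool.Agent.Helper39.Area
end Pool.Agent.Helper39.Area

set_option autoImplicit false

open Complex MeasureTheory Metric Set Filter Topology

open scoped Real ENNReal ComplexConjugate NNReal

namespace Pool.Agent.Helper39.EK

open Pool.Agent.Helper39.Area

/-- Parseval for the derivative -/
theorem parseval_deriv {E : ℂ → ℂ} {R s : ℝ} (hE : DifferentiableOn ℂ E (ball 0 R)) (hs : 0 ≤ s)
    (hsR : s < R) :
    HasSum (fun n : ℕ => ‖((n:ℂ) + 1) * (iteratedDeriv (n + 1) E 0 / (n + 1).factorial)‖ ^ 2 *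
        s ^ (2 * n))
      ((1 / (2 * π)) * ∫ θ in (-π)..π, ‖deriv E ((s:ℂ) * Complex.exp (θ * I))‖ ^ 2) := by
  have hR : 0 < R := hs.trans_lt hsR
  have hd : DifferentiableOn ℂ (deriv E) (ball 0 R) := hE.deriv isOpen_ball
  have hsum : ∀ z : ℂ, ‖z‖ < R → HasSum (fun n : ℕ =>
      ((n:ℂ) + 1) * (iteratedDeriv (n + 1) E 0 / (n + 1).factorial) * z ^ n) (deriv E z) := by
    intro z hz
    have h := Complex.hasSum_taylorSeries_on_ball (c := 0) (r := R) (z := z) hd (by simpa using hz)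
    have he : (fun n : ℕ => ((n:ℂ) + 1) * (iteratedDeriv (n + 1) E 0 / (n + 1).factorial) * z ^ n)
        = fun n : ℕ => (n.factorial : ℂ)⁻¹ • (z - 0) ^ n • iteratedDeriv n (deriv E) 0 := by
      funext n
      simp only [smul_eq_mul, sub_zero]
      rw [← iteratedDeriv_succ', Nat.factorial_succ, Nat.cast_mul, Nat.cast_succ]
      have h1 : ((n : ℂ) + 1) ≠ 0 := Nat.cast_add_one_ne_zero n
      have h2 : ((n.factorial : ℕ) : ℂ) ≠ 0 := Nat.cast_ne_zero.mpr (Nat.factorial_ne_zero n)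
      field_simp
    rw [he]
    exact h
  have hnorm : ∀ θ : ℝ, ‖(s : ℂ) * Complex.exp ((θ : ℂ) * I)‖ = s := by
    intro θ
    rw [norm_mul, Complex.norm_exp_ofReal_mul_I, mul_one, Complex.norm_real,
      Real.norm_of_nonneg hs]
  apply Pool.Agent.Helper22.Marshall.parseval_aux
    (fun n : ℕ => ((n:ℂ) + 1) * (iteratedDeriv (n + 1) E 0 / (n + 1).factorial)) s hs
  · have h := (hsum (s : ℂ) (by rw [Complex.norm_real, Real.norm_of_nonneg hs]; exact hsR)).summable
    have h2 := h.norm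
    refine h2.congr fun n => ?_
    rw [norm_mul _ ((s : ℂ) ^ n), norm_pow, Complex.norm_real, Real.norm_of_nonneg hs]
  · intro θ
    exact hsum _ (by rw [hnorm]; exact hsR)

/-- the area form is at most the coefficient form -/
theorem area_le {E : ℂ → ℂ} {R ρ c : ℝ} (hE : DifferentiableOn ℂ E (ball 0 R)) (hρ : 0 < ρ)
    (hρR : ρ < R) (hc : ∀ N : ℕ, ∑ n ∈ Finset.range N,
        (n:ℝ) * ρ ^ (2 * n) * ‖iteratedDeriv n E 0 / n.factorial‖ ^ 2 ≤ c) :
    ∫ z in ball (0:ℂ) ρ, ‖deriv E z‖ ^ 2 ≤ π * c := by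
  have hd : DifferentiableOn ℂ (deriv E) (ball 0 R) := hE.deriv isOpen_ball
  set e : ℕ → ℂ := fun n => iteratedDeriv n E 0 / n.factorial with he
  set f : ℂ → ℝ := fun z => ‖deriv E z‖ ^ 2 with hf
  have hfc : ContinuousOn f (ball 0 R) := (hd.continuousOn.norm).pow 2
  -- polar coordinates
  have h1 : ∫ z in ball (0:ℂ) ρ, f z =
      ∫ s in Ioo 0 ρ, ∫ θ in Ioo (-π) π, s * f ((s:ℂ) * Complex.exp (θ * I)) := by
    rw [← integral_indicator measurableSet_ball, ← Complex.integral_comp_polarCoord_symm]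
    have h2 : ∫ p in polarCoord.target, p.1 • (ball (0:ℂ) ρ).indicator f
        (Complex.polarCoord.symm p) = ∫ p in Ioo 0 ρ ×ˢ Ioo (-π) π,
          p.1 * f ((p.1:ℂ) * Complex.exp (p.2 * I)) := by
      have h3 : ∀ p ∈ polarCoord.target, p.1 • (ball (0:ℂ) ρ).indicator f
          (Complex.polarCoord.symm p) = (Ioo 0 ρ ×ˢ Ioo (-π) π).indicator
            (fun p => p.1 * f ((p.1:ℂ) * Complex.exp (p.2 * I))) p := by
        rintro ⟨r, θ⟩ ⟨hr, hθ⟩
        simp only [mem_Ioi] at hr hθ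
        have h4 : Complex.polarCoord.symm (r, θ) = (r:ℂ) * Complex.exp (θ * I) := by
          rw [Complex.polarCoord_symm_apply, Complex.exp_mul_I, Complex.ofReal_cos,
            Complex.ofReal_sin]
        have h5 : ‖Complex.polarCoord.symm (r, θ)‖ = r := by
          rw [h4, norm_mul, Complex.norm_exp_ofReal_mul_I, mul_one, Complex.norm_real,
            Real.norm_of_nonneg hr.le]
        by_cases hrρ : r < ρ
        · rw [indicator_of_mem (by rw [mem_ball, dist_zero_right, h5]; exact hrρ),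
            indicator_of_mem (show (r, θ) ∈ Ioo 0 ρ ×ˢ Ioo (-π) π from ⟨⟨hr, hrρ⟩, hθ⟩), h4,
            smul_eq_mul]
        · rw [indicator_of_notMem (by rw [mem_ball, dist_zero_right, h5]; exact hrρ),
            indicator_of_notMem (fun h : (r, θ) ∈ Ioo 0 ρ ×ˢ Ioo (-π) π => hrρ h.1.2), smul_zero]
      rw [setIntegral_congr_fun polarCoord.open_target.measurableSet h3,
        setIntegral_indicator (measurableSet_Ioo.prod measurableSet_Ioo)]
      congr 2
      apply inter_eq_right.2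
      rintro ⟨r, θ⟩ ⟨hr, hθ⟩
      exact ⟨hr.1, hθ⟩
    rw [h2, Measure.volume_eq_prod, setIntegral_prod]
    -- integrability
    have h6 : ContinuousOn (fun p : ℝ × ℝ => p.1 * f ((p.1:ℂ) * Complex.exp (p.2 * I)))
        (Icc 0 ρ ×ˢ Icc (-π) π) := by
      apply continuous_fst.continuousOn.mul
      apply hfc.comp (by fun_prop)
      rintro ⟨r, θ⟩ ⟨hr, hθ⟩
      simp only [mem_ball, dist_zero_right, norm_mul, Complex.norm_exp_ofReal_mul_I, mul_one,
        Complex.norm_real]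
      rw [Real.norm_of_nonneg hr.1]
      exact hr.2.trans_lt hρR
    have h7 := h6.integrableOn_compact (μ := (volume : Measure (ℝ × ℝ)))
      (isCompact_Icc.prod isCompact_Icc)
    rw [Measure.volume_eq_prod] at h7
    exact h7.mono_set (prod_mono Ioo_subset_Icc_self Ioo_subset_Icc_self)
  -- the inner integral
  have h8 : ∀ s ∈ Ioo 0 ρ, ∫ θ in Ioo (-π) π, s * f ((s:ℂ) * Complex.exp (θ * I)) =
      ∑' n : ℕ, 2 * π * (‖((n:ℂ) + 1) * e (n + 1)‖ ^ 2 * s ^ (2 * n + 1)) := by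
    intro s hs
    have h9 := (parseval_deriv hE hs.1.le (hs.2.trans hρR)).mul_left (2 * π * s)
    have h10 : 2 * π * s * (1 / (2 * π) * ∫ θ in (-π)..π,
        ‖deriv E ((s:ℂ) * Complex.exp (θ * I))‖ ^ 2) =
        ∫ θ in Ioo (-π) π, s * f ((s:ℂ) * Complex.exp (θ * I)) := by
      rw [integral_const_mul, intervalIntegral.integral_of_le (by (clear * -; linarith only [Real.pi_pos])),
        integral_Ioc_eq_integral_Ioo]
      have hpi : 2 * π * s * (1 / (2 * π)) = s := by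
        have : (2 * π) ≠ 0 := by positivity
        (clear * -; field_simp)
      rw [← mul_assoc, hpi]
    rw [h10] at h9
    rw [← h9.tsum_eq]
    refine tsum_congr fun n => ?_
    simp only [he]
    ring
  rw [h1, setIntegral_congr_fun measurableSet_Ioo h8]
  -- integrate the series
  have h11 : ∀ n : ℕ, ∫ s in Ioo 0 ρ, 2 * π * (‖((n:ℂ) + 1) * e (n + 1)‖ ^ 2 * s ^ (2 * n + 1)) =
      π * (((n:ℝ) + 1) * ρ ^ (2 * (n + 1)) * ‖e (n + 1)‖ ^ 2) := by
    intro n
    rw [integral_const_mul, integral_const_mul, ← integral_Ioc_eq_integral_Ioo,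
      ← intervalIntegral.integral_of_le hρ.le, integral_pow, norm_mul]
    have h12 : ‖(n:ℂ) + 1‖ = (n:ℝ) + 1 := by
      have : ((n:ℂ) + 1) = (((n:ℝ) + 1 : ℝ) : ℂ) := by push_cast; rfl
      rw [this, Complex.norm_real, Real.norm_of_nonneg (by (clear * -; positivity))]
    rw [h12, zero_pow (by omega), sub_zero]
    push_cast
    have h13 : ((2:ℝ) * n + 1 + 1) ≠ 0 := by (clear * -; positivity)
    field_simp
    ring
  have h14 : ∀ N : ℕ, ∑ n ∈ Finset.range N,
      (((n:ℝ) + 1) * ρ ^ (2 * (n + 1)) * ‖e (n + 1)‖ ^ 2) ≤ c := by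
    intro N
    have h15 := hc (N + 1)
    rw [Finset.sum_range_succ'] at h15
    simp only [Nat.cast_add, Nat.cast_one, Nat.cast_zero, zero_mul, add_zero] at h15
    exact h15
  have h16 : Summable fun n : ℕ => ((n:ℝ) + 1) * ρ ^ (2 * (n + 1)) * ‖e (n + 1)‖ ^ 2 :=
    summable_of_sum_range_le (fun n => by (clear * - hρ; positivity)) h14
  have h17 := hasSum_integral_of_summable_integral_norm (μ := volume.restrict (Ioo (0:ℝ) ρ))
      (F := fun (n : ℕ) (s : ℝ) => 2 * π * (‖((n:ℂ) + 1) * e (n + 1)‖ ^ 2 * s ^ (2 * n + 1)))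
      (fun n => by
        have : Continuous fun s : ℝ => 2 * π * (‖((n:ℂ) + 1) * e (n + 1)‖ ^ 2 * s ^ (2 * n + 1)) := by
          fun_prop
        exact (this.continuousOn.integrableOn_compact isCompact_Icc).mono_set Ioo_subset_Icc_self)
      (by
        refine (h16.mul_left π).congr fun n => ?_
        rw [← h11 n]
        apply setIntegral_congr_fun measurableSet_Ioo
        intro s hs
        simp only
        rw [Real.norm_of_nonneg (by have := hs.1; (clear * - this; positivity))])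
  rw [← h17.tsum_eq]
  simp only [h11]
  rw [tsum_mul_left]
  exact mul_le_mul_of_nonneg_left (h16.tsum_le_of_sum_range_le h14) Real.pi_pos.le

end Pool.Agent.Helper39.EK

end

section

set_option autoImplicit false
open Complex MeasureTheory Metric Set
open scoped Real ComplexConjugate

/-! Project EK: integrals over open rectangles of the complex plane, holomorphic change of
variables. -/

namespace Pool.Agent.Helper84.EK

theorem reProdIm_eq (x₁ x₂ y₁ y₂ : ℝ) : (measurableEquivRealProd.symm ⁻¹'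
    (Ioo x₁ x₂ ×ℂ Ioo y₁ y₂) : Set (ℝ × ℝ)) = Ioo x₁ x₂ ×ˢ Ioo y₁ y₂ := by
  ext p
  simp [Complex.mem_reProdIm, Complex.measurableEquivRealProd]

theorem equiv_apply (p : ℝ × ℝ) :
    measurableEquivRealProd.symm p = (p.1 : ℂ) + (p.2 : ℂ) * I := by
  apply Complex.ext <;> simp [Complex.measurableEquivRealProd]

theorem rect_integrable {x₁ x₂ y₁ y₂ : ℝ} {h : ℂ → ℝ} :
    IntegrableOn (fun p : ℝ × ℝ => h ((p.1 : ℂ) + (p.2 : ℂ) * I)) (Ioo x₁ x₂ ×ˢ Ioo y₁ y₂) ↔
      IntegrableOn h (Ioo x₁ x₂ ×ℂ Ioo y₁ y₂) := by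
  have hm := Complex.volume_preserving_equiv_real_prod.symm
  have := hm.integrableOn_comp_preimage (f := h) measurableEquivRealProd.symm.measurableEmbedding
    (s := Ioo x₁ x₂ ×ℂ Ioo y₁ y₂)
  rw [reProdIm_eq] at this
  rw [← this]
  have e : (h ∘ measurableEquivRealProd.symm) =
      fun p : ℝ × ℝ => h ((p.1 : ℂ) + (p.2 : ℂ) * I) := by
    funext p
    simp only [Function.comp_apply, equiv_apply]
  rw [e]

/-- Integral over an open rectangle as an iterated integral. -/
theorem rect_integral {x₁ x₂ y₁ y₂ : ℝ} (hx : x₁ ≤ x₂) (hy : y₁ ≤ y₂) {h : ℂ → ℝ}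
    (hi : IntegrableOn h (Ioo x₁ x₂ ×ℂ Ioo y₁ y₂)) :
    ∫ s in Ioo x₁ x₂ ×ℂ Ioo y₁ y₂, h s =
      ∫ ξ in x₁..x₂, ∫ η in y₁..y₂, h ((ξ : ℂ) + (η : ℂ) * I) := by
  have hm := Complex.volume_preserving_equiv_real_prod.symm
  have h1 := hm.setIntegral_preimage_emb measurableEquivRealProd.symm.measurableEmbedding h
    (Ioo x₁ x₂ ×ℂ Ioo y₁ y₂)
  rw [reProdIm_eq] at h1
  rw [← h1]
  simp only [equiv_apply]
  have h2 := rect_integrable.2 hi
  rw [Measure.volume_eq_prod] at h2 ⊢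
  rw [setIntegral_prod _ h2, intervalIntegral.integral_of_le hx, integral_Ioc_eq_integral_Ioo]
  refine setIntegral_congr_fun measurableSet_Ioo fun ξ _ => ?_
  simp only
  rw [intervalIntegral.integral_of_le hy, integral_Ioc_eq_integral_Ioo]

theorem det_mul (b : ℂ) : (b • (1 : ℂ →L[ℝ] ℂ)).det = ‖b‖ ^ 2 := by
  have h1 : Algebra.norm ℝ b = Complex.normSq b := by
    rw [Algebra.norm_complex_eq]
    rfl
  rw [← Complex.normSq_eq_norm_sq, ← h1, Algebra.norm_apply]
  rfl

/-- Change of variables for an injective holomorphic map. -/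
theorem cov {S : Set ℂ} (hS : MeasurableSet S) {Φ D : ℂ → ℂ} (hd : ∀ s ∈ S, HasDerivAt Φ (D s) s)
    (hi : InjOn Φ S) (g : ℂ → ℝ) :
    ∫ ω in Φ '' S, g ω = ∫ s in S, ‖D s‖ ^ 2 * g (Φ s) := by
  rw [integral_image_eq_integral_abs_det_fderiv_smul volume hS
    (f' := fun s => D s • (1 : ℂ →L[ℝ] ℂ))
    (fun s hs => ((hd s hs).complexToReal_fderiv).hasFDerivWithinAt) hi]
  refine setIntegral_congr_fun hS fun s _ => ?_
  show |(D s • (1 : ℂ →L[ℝ] ℂ)).det| • g (Φ s) = ‖D s‖ ^ 2 * g (Φ s)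
  rw [det_mul, abs_of_nonneg (by positivity), smul_eq_mul]

end Pool.Agent.Helper84.EK

end
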