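import Mathlib
import Pool.Agent.Helper60.BE.T01

set_option linter.all false

section

/-!
Polynomials in seven variables `l, S, C, P, R, u, v`, homogeneous for the weight
`S, C : 1`, `P, R : 2`, represented by their value at one point with large integer
coordinates (Kronecker substitution).
-/

set_option autoImplicit false

namespace Pool.Sos71

/-- exponents of a monomial -/
structure Mon where
  a : ℕ
  b : ℕ
  c : ℕ
  d : ℕ
  e : ℕ
  f : ℕ
  g : ℕ

/-- a point -/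
structure Pnt where
  a : ℝ
  b : ℝ
  c : ℝ
  d : ℝ
  e : ℝ
  f : ℝ
  g : ℝ

def Mon.add (m n : Mon) : Mon :=
  ⟨m.a + n.a, m.b + n.b, m.c + n.c, m.d + n.d, m.e + n.e, m.f + n.f, m.g + n.g⟩

noncomputable def Mon.val (x : Pnt) (m : Mon) : ℝ :=
  x.a ^ m.a * x.b ^ m.b * x.c ^ m.c * x.d ^ m.d * x.e ^ m.e * x.f ^ m.f * x.g ^ m.g

lemma Mon.val_add (x : Pnt) (m n : Mon) : (m.add n).val x = m.val x * n.val x := by
  simp only [Mon.val, Mon.add, pow_add]; ring

/-- bounds of the exponents, and the weight -/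
structure Bd where
  a : ℕ
  b : ℕ
  d : ℕ
  e : ℕ
  f : ℕ
  g : ℕ
  w : ℕ

def Bd.add (B D : Bd) : Bd :=
  ⟨B.a + D.a, B.b + D.b, B.d + D.d, B.e + D.e, B.f + D.f, B.g + D.g, B.w + D.w⟩

/-- `B` is contained in `D` -/
def Bd.le (B D : Bd) : Prop :=
  B.a ≤ D.a ∧ B.b ≤ D.b ∧ B.d ≤ D.d ∧ B.e ≤ D.e ∧ B.f ≤ D.f ∧ B.g ≤ D.g ∧ B.w = D.w

def Bd.leb (B D : Bd) : Bool :=
  Nat.ble B.a D.a && Nat.ble B.b D.b && Nat.ble B.d D.d && Nat.ble B.e D.e &&
    Nat.ble B.f D.f && Nat.ble B.g D.g && Nat.beq B.w D.w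

lemma Bd.leb_sound {B D : Bd} (h : B.leb D = true) : B.le D := by
  simp only [Bd.leb, Bool.and_eq_true, Nat.ble_eq] at h
  obtain ⟨⟨⟨⟨⟨⟨h1, h2⟩, h3⟩, h4⟩, h5⟩, h6⟩, h7⟩ := h
  exact ⟨h1, h2, h3, h4, h5, h6, Nat.eq_of_beq_eq_true h7⟩

/-- the radices: `code = f + rg g + ra a + rb b + rd d + re e` -/
structure Rad where
  rg : ℕ
  ra : ℕ
  rb : ℕ
  rd : ℕ
  re : ℕ

def Mon.code (r : Rad) (m : Mon) : ℕ :=
  m.f + r.rg * m.g + r.ra * m.a + r.rb * m.b + r.rd * m.d + r.re * m.e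

lemma Mon.code_add (r : Rad) (m n : Mon) : (m.add n).code r = m.code r + n.code r := by
  simp only [Mon.code, Mon.add]; ring

/-- the radices are large enough for the box `B` -/
def Rad.ok (r : Rad) (B : Bd) : Prop :=
  B.f < r.rg ∧ B.f + r.rg * B.g < r.ra ∧ B.f + r.rg * B.g + r.ra * B.a < r.rb ∧
    B.f + r.rg * B.g + r.ra * B.a + r.rb * B.b < r.rd ∧
    B.f + r.rg * B.g + r.ra * B.a + r.rb * B.b + r.rd * B.d < r.re

def Rad.okb (r : Rad) (B : Bd) : Bool :=
  Nat.blt B.f r.rg && Nat.blt (B.f + r.rg * B.g) r.ra &&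
    Nat.blt (B.f + r.rg * B.g + r.ra * B.a) r.rb &&
    Nat.blt (B.f + r.rg * B.g + r.ra * B.a + r.rb * B.b) r.rd &&
    Nat.blt (B.f + r.rg * B.g + r.ra * B.a + r.rb * B.b + r.rd * B.d) r.re

lemma Rad.okb_sound {r : Rad} {B : Bd} (h : r.okb B = true) : r.ok B := by
  simp only [Rad.okb, Bool.and_eq_true, Nat.blt_eq] at h
  obtain ⟨⟨⟨⟨h1, h2⟩, h3⟩, h4⟩, h5⟩ := h
  exact ⟨h1, h2, h3, h4, h5⟩

/-- uniqueness of the leading digit -/
lemma dig_unique {r x y n m : ℕ} (hx : x < r) (hy : y < r) (h : x + r * n = y + r * m) :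
    n = m ∧ x = y := by
  have h1 : (x + r * n) / r = (y + r * m) / r := by rw [h]
  have hr : 0 < r := by omega
  rw [Nat.add_mul_div_left _ _ hr, Nat.add_mul_div_left _ _ hr, Nat.div_eq_of_lt hx,
    Nat.div_eq_of_lt hy] at h1
  have h2 : n = m := by omega
  subst h2
  exact ⟨rfl, by omega⟩

abbrev Pol := List (ℤ × Mon)

def Pol.ev (w : ℤ) (r : Rad) (P : Pol) : ℤ := (P.map fun t => t.1 * w ^ t.2.code r).sum

noncomputable def Pol.re (x : Pnt) (P : Pol) : ℝ := (P.map fun t => (t.1 : ℝ) * t.2.val x).sum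

def Pol.nm (P : Pol) : ℕ := (P.map fun t => t.1.natAbs).sum

def Pol.mul (P Q : Pol) : Pol := P.flatMap fun t => Q.map fun s => (t.1 * s.1, t.2.add s.2)

lemma sum_smul {R α : Type*} [CommSemiring R] (c : R) (f g : α → R) (Q : List α)
    (h : ∀ s, f s = c * g s) : (Q.map f).sum = c * (Q.map g).sum := by
  induction Q with
  | nil => simp
  | cons s Q ih => rw [List.map_cons, List.sum_cons, List.map_cons, List.sum_cons, ih, h]; ring

lemma Pol.ev_mul (w : ℤ) (r : Rad) (P Q : Pol) :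
    (P.mul Q).ev w r = P.ev w r * Q.ev w r := by
  unfold Pol.ev Pol.mul
  induction P with
  | nil => simp
  | cons t P ih =>
    rw [List.flatMap_cons, List.map_append, List.sum_append, ih, List.map_cons, List.sum_cons,
      add_mul, List.map_map]
    congr 1
    refine sum_smul _ _ _ _ (fun s => ?_)
    simp only [Function.comp, Mon.code_add, pow_add]; ring

lemma Pol.re_mul (x : Pnt) (P Q : Pol) : (P.mul Q).re x = P.re x * Q.re x := by
  unfold Pol.re Pol.mul
  induction P with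
  | nil => simp
  | cons t P ih =>
    rw [List.flatMap_cons, List.map_append, List.sum_append, ih, List.map_cons, List.sum_cons,
      add_mul, List.map_map]
    congr 1
    refine sum_smul _ _ _ _ (fun s => ?_)
    simp only [Function.comp, Mon.val_add]; push_cast; ring

lemma Pol.nm_mul (P Q : Pol) : (P.mul Q).nm = P.nm * Q.nm := by
  unfold Pol.nm Pol.mul
  induction P with
  | nil => simp
  | cons t P ih =>
    rw [List.flatMap_cons, List.map_append, List.sum_append, ih, List.map_cons, List.sum_cons,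
      add_mul, List.map_map]
    congr 1
    refine sum_smul _ _ _ _ (fun s => ?_)
    simp only [Function.comp, Int.natAbs_mul]

section Rep

variable {w : ℤ} {r : Rad} {x : Pnt}

end Rep

open Polynomial in
/-- a polynomial with small coefficients which vanishes at `w` is zero -/
lemma poly_zero {w : ℕ} (P : ℤ[X]) (h : ∀ k, (P.coeff k).natAbs < w) (h0 : P.eval (w : ℤ) = 0) :
    P = 0 := by
  by_contra hP
  obtain ⟨Q, hQ, hdvd⟩ : ∃ Q : ℤ[X], P = X ^ P.natTrailingDegree * Q ∧ Q.coeff 0 ≠ 0 := by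
    have h1 : X ^ P.natTrailingDegree ∣ P := by
      rw [X_pow_dvd_iff]
      intro d hd
      exact coeff_eq_zero_of_lt_natTrailingDegree hd
    obtain ⟨Q, hQ⟩ := h1
    refine ⟨Q, hQ, ?_⟩
    have h2 : P.coeff P.natTrailingDegree ≠ 0 := by
      rw [← trailingCoeff]
      exact trailingCoeff_nonzero_iff_nonzero.2 hP
    intro h3
    apply h2
    have h4 : P.coeff P.natTrailingDegree = Q.coeff 0 := by
      have e := congrArg (fun R : ℤ[X] => R.coeff P.natTrailingDegree) hQ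
      have := coeff_X_pow_mul Q P.natTrailingDegree 0
      rw [zero_add] at this
      exact e.trans this
    rw [h4, h3]
  have hw : (0 : ℤ) < w := by
    have := h 0
    omega
  have h5 : Q.eval (w : ℤ) = 0 := by
    rw [hQ, eval_mul, eval_pow, eval_X] at h0
    rcases mul_eq_zero.1 h0 with h6 | h6
    · exact absurd h6 (pow_ne_zero _ hw.ne')
    · exact h6
  have h6 : (w : ℤ) ∣ Q.coeff 0 := by
    have h7 : (X - C (w : ℤ)) ∣ Q := dvd_iff_isRoot.2 h5
    obtain ⟨S, hS⟩ := h7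
    refine ⟨-S.coeff 0, ?_⟩
    rw [hS, coeff_zero_eq_eval_zero, eval_mul, coeff_zero_eq_eval_zero]
    simp
  have h8 : P.coeff P.natTrailingDegree = Q.coeff 0 := by
    have e := congrArg (fun R : ℤ[X] => R.coeff P.natTrailingDegree) hQ
    have := coeff_X_pow_mul Q P.natTrailingDegree 0
    rw [zero_add] at this
    exact e.trans this
  have h9 := h P.natTrailingDegree
  rw [h8] at h9
  have h10 := Int.natAbs_dvd_natAbs.2 h6
  rw [Int.natAbs_natCast] at h10
  have h11 : (Q.coeff 0).natAbs = 0 := Nat.eq_zero_of_dvd_of_lt h10 h9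
  exact hdvd (Int.natAbs_eq_zero.1 h11)

open Polynomial in
/-- the univariate polynomial of a list of terms -/
noncomputable def uni (r : Rad) (P : Pol) : ℤ[X] := (P.map fun t => C t.1 * X ^ t.2.code r).sum

open Polynomial in
lemma uni_coeff (r : Rad) (P : Pol) (k : ℕ) : ((uni r P).coeff k).natAbs ≤ P.nm := by
  unfold uni Pol.nm
  induction P with
  | nil => simp
  | cons t P ih =>
    rw [List.map_cons, List.sum_cons, coeff_add, List.map_cons, List.sum_cons]
    refine (Int.natAbs_add_le _ _).trans (Nat.add_le_add ?_ ih)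
    rw [coeff_C_mul, coeff_X_pow]
    split_ifs <;> simp

open Polynomial in
lemma uni_eval (r : Rad) (P : Pol) (w : ℤ) : (uni r P).eval w = P.ev w r := by
  unfold uni Pol.ev
  induction P with
  | nil => simp
  | cons t P ih =>
    rw [List.map_cons, List.sum_cons, eval_add, ih, List.map_cons, List.sum_cons]
    simp

open Polynomial in
/-- a linear functional of the coefficients -/
lemma uni_sum (r : Rad) (P : Pol) (F : ℕ → ℝ) :
    (P.map fun t => (t.1 : ℝ) * F (t.2.code r)).sum =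
      (uni r P).sum (fun k a => (a : ℝ) * F k) := by
  unfold uni
  induction P with
  | nil => simp
  | cons t P ih =>
    rw [List.map_cons, List.sum_cons, ih, List.map_cons, List.sum_cons]
    rw [sum_add_index]
    · congr 1
      rw [C_mul_X_pow_eq_monomial, sum_monomial_index _ _ (by simp)]
    · intro i; simp
    · intro i a b; push_cast; ring

end Pool.Sos71

end

section

/-!
Expressions for polynomials in `l, S, C, P, R, u, v` (variables `va 0, ..., va 6`).
`bp P` is the polynomial in `(u, v)` given by a list of rows.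
-/

set_option autoImplicit false

namespace Pool.Sos71

inductive Ex where
  | lit (z : ℤ) : Ex
  | va (i : ℕ) : Ex
  | add (p q : Ex) : Ex
  | mul (p q : Ex) : Ex
  | sc (z : ℤ) (p : Ex) : Ex
  | pow (p : Ex) (n : ℕ) : Ex
  | bp (P : List (List ℤ)) : Ex

/-- values of the variables `S, l, P, R, v, u` at the integer point (`C = 1`) -/
structure IPt where
  a : ℤ
  b : ℤ
  d : ℤ
  e : ℤ
  f : ℤ
  g : ℤ

def ipow (z : ℤ) : ℕ → ℤ
  | 0 => 1
  | n + 1 => Int.mul z (ipow z n)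

def npow (z : ℕ) : ℕ → ℕ
  | 0 => 1
  | n + 1 => Nat.mul z (npow z n)

def iev1 (y : ℤ) : List ℤ → ℤ
  | [] => 0
  | a :: l => Int.add a (Int.mul y (iev1 y l))

def iev2 (x y : ℤ) : List (List ℤ) → ℤ
  | [] => 0
  | r :: P => Int.add (iev1 y r) (Int.mul x (iev2 x y P))

def nm1 : List ℤ → ℕ
  | [] => 0
  | a :: l => Nat.add a.natAbs (nm1 l)

def nm2 : List (List ℤ) → ℕ
  | [] => 0
  | r :: P => Nat.add (nm1 r) (nm2 P)

/-- degree of a list of coefficients -/
def dg1 : List ℤ → ℕ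
  | [] => 0
  | _ :: l => match l with
    | [] => 0
    | _ :: _ => Nat.succ (dg1 l)

def dgy : List (List ℤ) → ℕ
  | [] => 0
  | r :: P => Nat.max (dg1 r) (dgy P)

def dgx : List (List ℤ) → ℕ
  | [] => 0
  | _ :: P => match P with
    | [] => 0
    | _ :: _ => Nat.succ (dgx P)

/-- evaluation at the integer point -/
def Ex.ev (X : IPt) : Ex → ℤ
  | lit z => z
  | va i => match i with
    | 0 => X.a
    | 1 => X.b
    | 2 => 1
    | 3 => X.d
    | 4 => X.e
    | 5 => X.f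
    | _ => X.g
  | add p q => Int.add (p.ev X) (q.ev X)
  | mul p q => Int.mul (p.ev X) (q.ev X)
  | sc z p => Int.mul z (p.ev X)
  | pow p n => ipow (p.ev X) n
  | bp P => iev2 X.f X.g P

/-- real value -/
noncomputable def Ex.re (x : Pnt) : Ex → ℝ
  | lit z => z
  | va i => match i with
    | 0 => x.a
    | 1 => x.b
    | 2 => x.c
    | 3 => x.d
    | 4 => x.e
    | 5 => x.f
    | _ => x.g
  | add p q => p.re x + q.re x
  | mul p q => p.re x * q.re x
  | sc z p => z * p.re x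
  | pow p n => p.re x ^ n
  | bp P => Pool.EK71.ev2 x.f x.g P

/-- norm bound -/
def Ex.nm : Ex → ℕ
  | lit z => z.natAbs
  | va _ => 1
  | add p q => Nat.add p.nm q.nm
  | mul p q => Nat.mul p.nm q.nm
  | sc z p => Nat.mul z.natAbs p.nm
  | pow p n => npow p.nm n
  | bp P => nm2 P

def Bd.max (B D : Bd) : Bd :=
  ⟨Nat.max B.a D.a, Nat.max B.b D.b, Nat.max B.d D.d, Nat.max B.e D.e, Nat.max B.f D.f,
    Nat.max B.g D.g, B.w⟩

def Bd.smul (n : ℕ) (B : Bd) : Bd :=
  ⟨n * B.a, n * B.b, n * B.d, n * B.e, n * B.f, n * B.g, n * B.w⟩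

/-- the integer point of the radices `r` and the base `w` -/
def Rad.pt (r : Rad) (w : ℤ) : IPt := ⟨w ^ r.ra, w ^ r.rb, w ^ r.rd, w ^ r.re, w, w ^ r.rg⟩

lemma Bd.le_max_left (B D : Bd) : B.le (B.max D) :=
  ⟨Nat.le_max_left _ _, Nat.le_max_left _ _, Nat.le_max_left _ _, Nat.le_max_left _ _,
    Nat.le_max_left _ _, Nat.le_max_left _ _, rfl⟩

lemma Bd.le_max_right (B D : Bd) (h : B.w = D.w) : D.le (B.max D) :=
  ⟨Nat.le_max_right _ _, Nat.le_max_right _ _, Nat.le_max_right _ _, Nat.le_max_right _ _,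
    Nat.le_max_right _ _, Nat.le_max_right _ _, h.symm⟩

end Pool.Sos71

end

section

namespace Pool.Sos71
end Pool.Sos71

set_option autoImplicit false

open Complex MeasureTheory Metric Set

open scoped Real ComplexConjugate

namespace Pool.Agent.Helper69.EK3

open Pool.Sos71

/-- a list of `(c, i, j)`: the polynomial `∑ c S^i C^j` -/
abbrev AP := List (ℤ × ℕ × ℕ)

noncomputable def aev (S C : ℝ) : AP → ℝ
  | [] => 0
  | (c, i, j) :: g => (c : ℝ) * (S ^ i * C ^ j) + aev S C g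

/-- the value at the angle `η` -/
noncomputable def af (g : AP) (η : ℝ) : ℝ := aev (Real.sin (η / 2)) (Real.cos (η / 2)) g

/-- twice the derivative -/
def ader : AP → AP
  | [] => []
  | (c, i, j) :: g =>
    (match i with
      | 0 => []
      | i' + 1 => [(Int.mul c (Int.ofNat (i' + 1)), i', j + 1)]) ++
    (match j with
      | 0 => []
      | j' + 1 => [(Int.mul (-c) (Int.ofNat (j' + 1)), i + 1, j')]) ++ ader g

/-- multiplication by `S^a C^b` -/
def ash (a b : ℕ) : AP → AP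
  | [] => []
  | (c, i, j) :: g => (c, i + a, j + b) :: ash a b g

/-- the sum of the coefficients -/
def asum : AP → ℤ
  | [] => 0
  | (c, _, _) :: g => Int.add c (asum g)

/-- homogeneous of weight `w` -/
def ahom (w : ℕ) : AP → Bool
  | [] => true
  | (_, i, j) :: g => Nat.beq (i + j) w && ahom w g

theorem nbeq {a b : ℕ} (h : a = b) : Nat.beq a b = true := by
  subst h
  induction a with
  | zero => rfl
  | succ n ih => exact ih

theorem aev_ash (S C : ℝ) (a b : ℕ) (g : AP) : aev S C (ash a b g) = S ^ a * C ^ b * aev S C g := by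
  induction g with
  | nil => simp [aev, ash]
  | cons t g ih =>
    obtain ⟨c, i, j⟩ := t
    simp only [aev, ash, ih]
    ring

theorem imul_cast' (a b : ℤ) : ((Int.mul a b : ℤ) : ℝ) = a * b := by
  show (((a * b : ℤ)) : ℝ) = _
  push_cast
  ring

theorem iadd_cast' (a b : ℤ) : ((Int.add a b : ℤ) : ℝ) = a + b := by
  show (((a + b : ℤ)) : ℝ) = _
  push_cast
  ring

theorem ofNat_cast' (a : ℕ) : ((Int.ofNat a : ℤ) : ℝ) = a := by simp

theorem hasDerivAt_mon (i j : ℕ) (η : ℝ) :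
    HasDerivAt (fun η : ℝ => Real.sin (η / 2) ^ i * Real.cos (η / 2) ^ j)
      ((i * Real.sin (η / 2) ^ (i - 1) * Real.cos (η / 2) ^ (j + 1) -
        j * Real.sin (η / 2) ^ (i + 1) * Real.cos (η / 2) ^ (j - 1)) / 2) η := by
  have h0 : HasDerivAt (fun η : ℝ => η / 2) (1 / 2) η := (hasDerivAt_id η).div_const 2
  have h1 := (h0.sin).pow i
  have h2 := (h0.cos).pow j
  refine (h1.mul h2).congr_deriv ?_
  simp only [Pi.pow_apply]
  rw [pow_succ, pow_succ]
  ring

theorem af_hasDerivAt (g : AP) (η : ℝ) : HasDerivAt (af g) (af (ader g) η / 2) η := by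
  induction g with
  | nil =>
    have : af [] = fun _ => (0:ℝ) := by
      funext η
      simp [af, aev]
    rw [this]
    have e : af (ader []) η / 2 = 0 := by simp [ader, af, aev]
    rw [e]
    exact hasDerivAt_const _ _
  | cons t g ih =>
    obtain ⟨c, i, j⟩ := t
    have h1 := ((hasDerivAt_mon i j η).const_mul (c : ℝ)).add ih
    refine h1.congr_deriv ?_
    cases i with
    | zero =>
      cases j with
      | zero => simp [ader, af]
      | succ j =>
        simp only [ader, af, List.nil_append, List.cons_append, aev, imul_cast', ofNat_cast']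
        push_cast
        ring
    | succ i =>
      cases j with
      | zero =>
        simp only [ader, af, List.append_nil, List.cons_append, aev, imul_cast',
          ofNat_cast', List.nil_append]
        push_cast
        ring
      | succ j =>
        simp only [ader, af, List.cons_append, aev, imul_cast', ofNat_cast', List.nil_append]
        push_cast
        ring

theorem af_cont (g : AP) : Continuous (af g) :=
  continuous_iff_continuousAt.2 fun η => (af_hasDerivAt g η).continuousAt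

theorem aev_sum (S : ℝ) (w : ℕ) (g : AP) (h : ahom w g = true) :
    aev S S g = asum g * S ^ w := by
  induction g with
  | nil => simp [aev, asum]
  | cons t g ih =>
    obtain ⟨c, i, j⟩ := t
    simp only [ahom, Bool.and_eq_true] at h
    have h1 : i + j = w := Nat.eq_of_beq_eq_true h.1
    simp only [aev, asum, ih h.2, iadd_cast']
    rw [← pow_add, h1]
    ring

/-- the value at the centre line -/
theorem af_half {w : ℕ} {g : AP} (h : ahom w g = true) :
    af g (π / 2) = asum g * (Real.sqrt 2 / 2) ^ w := by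
  unfold af
  have e : π / 2 / 2 = π / 4 := by ring
  rw [e, Real.sin_pi_div_four, Real.cos_pi_div_four]
  exact aev_sum _ w g h

theorem af_half_even {w : ℕ} {g : AP} (h : ahom (2 * w) g = true) :
    af g (π / 2) = asum g / 2 ^ w := by
  rw [af_half h, pow_mul]
  have e : (Real.sqrt 2 / 2) ^ 2 = 1 / 2 := by
    rw [div_pow, Real.sq_sqrt (by norm_num)]
    norm_num
  rw [e, one_div, inv_pow]
  rfl

theorem ahom_ash {w : ℕ} (a b : ℕ) {g : AP} (h : ahom w g = true) :
    ahom (w + a + b) (ash a b g) = true := by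
  induction g with
  | nil => rfl
  | cons t g ih =>
    obtain ⟨c, i, j⟩ := t
    simp only [ahom, Bool.and_eq_true] at h
    have h1 : i + j = w := Nat.eq_of_beq_eq_true h.1
    simp only [ash, ahom, Bool.and_eq_true, ih h.2, and_true]
    exact nbeq (by omega)

theorem ahom_ader {w : ℕ} {g : AP} (h : ahom w g = true) : ahom w (ader g) = true := by
  induction g with
  | nil => rfl
  | cons t g ih =>
    obtain ⟨c, i, j⟩ := t
    simp only [ahom, Bool.and_eq_true] at h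
    have h1 : i + j = w := Nat.eq_of_beq_eq_true h.1
    have h2 := ih h.2
    cases i with
    | zero =>
      cases j with
      | zero => simpa only [ader, List.nil_append] using h2
      | succ j =>
        simp only [ader, List.nil_append, List.cons_append, ahom, Bool.and_eq_true, h2, and_true]
        exact nbeq (by omega)
    | succ i =>
      cases j with
      | zero =>
        simp only [ader, List.append_nil, List.cons_append, List.nil_append, ahom,
          Bool.and_eq_true, h2, and_true]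
        exact nbeq (by omega)
      | succ j =>
        simp only [ader, List.cons_append, List.nil_append, ahom, Bool.and_eq_true, h2, and_true]
        exact ⟨nbeq (by omega), nbeq (by omega)⟩

/-- monomial `c S^i C^j` -/
def moE (c : ℤ) (i j : ℕ) : Ex :=
  Ex.sc c (Ex.mul (Ex.pow (Ex.va 1) i) (Ex.pow (Ex.va 2) j))

def apE : AP → Ex
  | [] => Ex.lit 0
  | [(c, i, j)] => moE c i j
  | (c, i, j) :: t :: g => Ex.add (moE c i j) (apE (t :: g))

theorem moE_re (x : Pnt) (c : ℤ) (i j : ℕ) : (moE c i j).re x = c * (x.b ^ i * x.c ^ j) := rfl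

theorem apE_re (x : Pnt) (g : AP) : (apE g).re x = aev x.b x.c g := by
  induction g with
  | nil => simp [apE, aev, Ex.re]
  | cons t g ih =>
    obtain ⟨c, i, j⟩ := t
    cases g with
    | nil =>
      simp only [apE, aev, moE_re]
      ring
    | cons t' g =>
      have : (apE ((c, i, j) :: t' :: g)).re x = (moE c i j).re x + (apE (t' :: g)).re x := rfl
      rw [this, ih, moE_re]
      rfl

end Pool.Agent.Helper69.EK3

end

section

namespace Pool.Agent.Helper52.EK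
end Pool.Agent.Helper52.EK

set_option autoImplicit false

open Complex MeasureTheory Metric Set

open scoped Real ComplexConjugate

namespace Pool.Agent.Helper84.EK

open Pool.Agent.Helper52.EK

theorem one_add_ne {z : ℂ} (hz : ‖z‖ < 1) : 1 + z ≠ 0 := by
  intro h
  have h1 : z = -1 := by linear_combination h
  rw [h1] at hz
  simp at hz

theorem one_sub_ne {z : ℂ} (hz : ‖z‖ < 1) : 1 - z ≠ 0 := by
  intro h
  have h1 : z = 1 := by linear_combination -h
  rw [h1] at hz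
  simp at hz

theorem cay_im {z : ℂ} (hz : ‖z‖ < 1) :
    (I * (1 - z) / (1 + z)).im = (1 - ‖z‖ ^ 2) / ‖1 + z‖ ^ 2 := by
  rw [← Complex.normSq_eq_norm_sq, ← Complex.normSq_eq_norm_sq]
  rw [Complex.div_im, Complex.normSq_apply, Complex.normSq_apply]
  have h : (1 + z).re * (1 + z).re + (1 + z).im * (1 + z).im ≠ 0 := by
    rw [← Complex.normSq_apply]
    exact fun h => one_add_ne hz (Complex.normSq_eq_zero.1 h)
  field_simp
  simp
  ring

theorem cay_im_pos {z : ℂ} (hz : ‖z‖ < 1) : 0 < (I * (1 - z) / (1 + z)).im := by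
  rw [cay_im hz]
  have h1 : 0 < ‖1 + z‖ := norm_pos_iff.2 (one_add_ne hz)
  have h2 : 0 < 1 - ‖z‖ ^ 2 := by nlinarith only [norm_nonneg z, hz]
  (clear * - h2 h1; positivity)

theorem cay_sub {z : ℂ} (hz : ‖z‖ < 1) :
    ‖I * (1 - z) / (1 + z) - I‖ = 2 * ‖z‖ / ‖1 + z‖ := by
  have h := one_add_ne hz
  have h1 : I * (1 - z) / (1 + z) - I = -(2 * I) * z / (1 + z) := by
    field_simp
    ring
  rw [h1, norm_div, norm_mul, norm_neg, norm_mul, Complex.norm_I, Complex.norm_ofNat]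
  ring

theorem cay_add {z : ℂ} (hz : ‖z‖ < 1) :
    ‖I * (1 - z) / (1 + z) + I‖ = 2 / ‖1 + z‖ := by
  have h := one_add_ne hz
  have h1 : I * (1 - z) / (1 + z) + I = 2 * I / (1 + z) := by
    field_simp
    ring
  rw [h1, norm_div, norm_mul, Complex.norm_I, Complex.norm_ofNat, mul_one]

/-- `Z` as a function of `s = t + i θ`. -/
noncomputable def Zs (s : ℂ) : ℂ := I * (1 - Complex.exp s) / (1 + Complex.exp s)

/-- `ω` as a function of `s`. -/
noncomputable def Om (s : ℂ) : ℂ := Complex.log (Zs s)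

/-- the derivative of `Om` -/
noncomputable def Dm (s : ℂ) : ℂ :=
  -(2 * Complex.exp s) / ((1 + Complex.exp s) * (1 - Complex.exp s))

theorem norm_exp_lt {s : ℂ} (hs : s.re < 0) : ‖Complex.exp s‖ < 1 := by
  rw [Complex.norm_exp]
  exact Real.exp_lt_one_iff.2 hs

theorem Zs_im_pos {s : ℂ} (hs : s.re < 0) : 0 < (Zs s).im := cay_im_pos (norm_exp_lt hs)

theorem Zs_ne {s : ℂ} (hs : s.re < 0) : Zs s ≠ 0 := by
  intro h
  have := Zs_im_pos hs
  rw [h] at this
  exact lt_irrefl _ this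

theorem exp_Om {s : ℂ} (hs : s.re < 0) : Complex.exp (Om s) = Zs s := Complex.exp_log (Zs_ne hs)

theorem zf_Om {s : ℂ} (hs : s.re < 0) : zf (Om s) = Complex.exp s := by
  unfold zf
  rw [exp_Om hs]
  unfold Zs
  have h := one_add_ne (norm_exp_lt hs)
  have hI := Complex.I_ne_zero
  have h1 : I - I * (1 - Complex.exp s) / (1 + Complex.exp s) =
      2 * I * Complex.exp s / (1 + Complex.exp s) := by
    field_simp
    ring
  have h2 : I + I * (1 - Complex.exp s) / (1 + Complex.exp s) =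
      2 * I / (1 + Complex.exp s) := by
    field_simp
    ring
  rw [h1, h2]
  field_simp

theorem Om_im {s : ℂ} (hs : s.re < 0) : 0 < (Om s).im ∧ (Om s).im < π := by
  unfold Om
  rw [Complex.log_im]
  have h := Zs_im_pos hs
  constructor
  · refine lt_of_le_of_ne (Complex.arg_nonneg_iff.2 h.le) fun h0 => ?_
    have := (Complex.arg_eq_zero_iff.1 h0.symm).2
    exact absurd this h.ne'
  · refine lt_of_le_of_ne (Complex.arg_le_pi _) fun h0 => ?_
    have := (Complex.arg_eq_pi_iff.1 h0).2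
    exact absurd this h.ne'

theorem hasDerivAt_Om {s : ℂ} (hs : s.re < 0) : HasDerivAt Om (Dm s) s := by
  have h1 := one_add_ne (norm_exp_lt hs)
  have h2 := one_sub_ne (norm_exp_lt hs)
  have hI := Complex.I_ne_zero
  have hnum : HasDerivAt (fun s => I * (1 - Complex.exp s)) (I * (-Complex.exp s)) s := by
    have := ((Complex.hasDerivAt_exp s).const_sub 1).const_mul I
    simpa using this
  have hden : HasDerivAt (fun s => 1 + Complex.exp s) (Complex.exp s) s := by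
    simpa using (Complex.hasDerivAt_exp s).const_add 1
  have h3 : HasDerivAt Zs ((I * (-Complex.exp s) * (1 + Complex.exp s) -
      I * (1 - Complex.exp s) * Complex.exp s) / (1 + Complex.exp s) ^ 2) s := hnum.div hden h1
  have h4 : Zs s ∈ slitPlane := by
    rw [Complex.mem_slitPlane_iff]
    exact Or.inr (Zs_im_pos hs).ne'
  have h5 := h3.clog h4
  have h6 : (I * (-Complex.exp s) * (1 + Complex.exp s) -
      I * (1 - Complex.exp s) * Complex.exp s) / (1 + Complex.exp s) ^ 2 / Zs s = Dm s := by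
    unfold Zs Dm
    field_simp
    ring
  rw [h6] at h5
  exact h5

theorem Om_inj {t₂ : ℝ} (ht : t₂ ≤ 0) : InjOn Om (Ioo (-1) t₂ ×ℂ Ioo (-π) π) := by
  intro s hs s' hs' h
  rw [Complex.mem_reProdIm] at hs hs'
  have h1 : s.re < 0 := hs.1.2.trans_le ht
  have h2 : s'.re < 0 := hs'.1.2.trans_le ht
  have h3 : Complex.exp s = Complex.exp s' := by
    rw [← zf_Om h1, ← zf_Om h2, h]
  exact Complex.exp_inj_of_neg_pi_lt_of_le_pi hs.2.1 hs.2.2.le hs'.2.1 hs'.2.2.le h3

end Pool.Agent.Helper84.EK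

end

section

namespace Pool.Agent.Helper52.EK
end Pool.Agent.Helper52.EK

set_option autoImplicit false

open Complex MeasureTheory Metric Set

open scoped Real ComplexConjugate

namespace Pool.Agent.Helper84.EK

open Pool.Agent.Helper52.EK

/-- the loss -/
noncomputable def TT (w : ℂ → ℂ) (z : ℂ) : ℝ := ‖ee 1 z - w z‖ ^ 2

theorem TT_nonneg (w : ℂ → ℂ) (z : ℂ) : 0 ≤ TT w z := sq_nonneg _

theorem norm_ee {z : ℂ} (hz : ‖z‖ < 1) : ‖ee 1 z‖ = 1 := by
  unfold ee
  rw [norm_div, mul_one]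
  have h : ‖1 - conj z‖ = ‖1 - z‖ := by
    rw [← Complex.norm_conj, map_sub, map_one, Complex.conj_conj]
  rw [h, div_self (norm_ne_zero_iff.2 (one_sub_ne hz))]

theorem TT_le {w : ℂ → ℂ} (hw : ∀ z, ‖w z‖ ≤ 1) {z : ℂ} (hz : ‖z‖ < 1) : TT w z ≤ 4 := by
  unfold TT
  have h := norm_sub_le (ee 1 z) (w z)
  rw [norm_ee hz] at h
  have h1 := hw z
  have h2 := norm_nonneg (ee 1 z - w z)
  nlinarith only [h, h1, h2]

theorem ee_cont : ContinuousOn (ee 1) (ball (0:ℂ) 1) := by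
  unfold ee
  refine ContinuousOn.div ?_ ?_ fun z hz => one_sub_ne (mem_ball_zero_iff.1 hz)
  · exact (continuous_const.sub (Complex.continuous_conj.mul continuous_const)).continuousOn
  · exact (continuous_const.sub continuous_id).continuousOn

theorem TT_cont {w : ℂ → ℂ} (hw : ContinuousOn w {z | 0 < ‖z‖ ∧ ‖z‖ < 1}) :
    ContinuousOn (TT w) {z | 0 < ‖z‖ ∧ ‖z‖ < 1} := by
  unfold TT
  exact ((ee_cont.mono fun z hz => mem_ball_zero_iff.2 hz.2).sub hw).norm.pow 2

/-- the integrand in the coordinate `s = t + i θ` -/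
noncomputable def hh (w : ℂ → ℂ) (t₂ : ℝ) (s : ℂ) : ℝ :=
  (t₂ - s.re) * Pk 1 (Complex.exp s) * TT w (Complex.exp s) / Real.sinh s.re ^ 2

/-- the integrand in the strip -/
noncomputable def GG (w : ℂ → ℂ) (t₂ : ℝ) (ω : ℂ) : ℝ :=
  (t₂ - Real.log ‖zf ω‖) / (Complex.exp ω).im * TT w (zf ω)

theorem hh_eq (w : ℂ → ℂ) {t₂ : ℝ} {s : ℂ} (hs : s.re < 0) :
    ‖Dm s‖ ^ 2 * GG w t₂ (Om s) = hh w t₂ s := by
  have hz := norm_exp_lt hs
  have h1 : ‖1 + Complex.exp s‖ ≠ 0 := norm_ne_zero_iff.2 (one_add_ne hz)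
  have h2 : ‖1 - Complex.exp s‖ ≠ 0 := norm_ne_zero_iff.2 (one_sub_ne hz)
  have hr : ‖Complex.exp s‖ = Real.exp s.re := Complex.norm_exp s
  have hr0 : 0 < Real.exp s.re := Real.exp_pos _
  have h3 : 1 - Real.exp s.re ^ 2 ≠ 0 := by
    rw [← hr]
    nlinarith only [norm_nonneg (Complex.exp s), hz]
  have hsinh : Real.sinh s.re ^ 2 = (1 - Real.exp s.re ^ 2) ^ 2 / (4 * Real.exp s.re ^ 2) := by
    rw [Real.sinh_eq, Real.exp_neg]
    field_simp
    ring
  unfold GG hh Pk Dm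
  rw [zf_Om hs, exp_Om hs]
  have h4 : (Zs s).im = (1 - ‖Complex.exp s‖ ^ 2) / ‖1 + Complex.exp s‖ ^ 2 := cay_im hz
  rw [h4, hsinh, norm_div, norm_neg, norm_mul, norm_mul, Complex.norm_ofNat, hr, Real.log_exp]
  field_simp
  ring

theorem hh_cont {w : ℂ → ℂ} (hw : ContinuousOn w {z | 0 < ‖z‖ ∧ ‖z‖ < 1}) (t₂ : ℝ) :
    ContinuousOn (hh w t₂) {s | s.re < 0} := by
  have hexp : ContinuousOn Complex.exp {s : ℂ | s.re < 0} := Complex.continuous_exp.continuousOn
  have hmap : MapsTo Complex.exp {s : ℂ | s.re < 0} {z | 0 < ‖z‖ ∧ ‖z‖ < 1} := fun s hs =>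
    ⟨norm_pos_iff.2 (Complex.exp_ne_zero s), norm_exp_lt hs⟩
  have hT : ContinuousOn (fun s => TT w (Complex.exp s)) {s : ℂ | s.re < 0} :=
    (TT_cont hw).comp hexp hmap
  have hP : ContinuousOn (fun s => Pk 1 (Complex.exp s)) {s : ℂ | s.re < 0} := by
    unfold Pk
    refine ContinuousOn.div ?_ ?_ fun s hs => ?_
    · exact (continuous_const.sub (Complex.continuous_exp.norm.pow 2)).continuousOn
    · exact ((continuous_const.sub Complex.continuous_exp).norm.pow 2).continuousOn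
    · exact pow_ne_zero 2 (norm_ne_zero_iff.2 (one_sub_ne (norm_exp_lt hs)))
  unfold hh
  refine ContinuousOn.div ((ContinuousOn.mul ?_ hP).mul hT) ?_ fun s hs => ?_
  · exact (continuous_const.sub Complex.continuous_re).continuousOn
  · exact ((Real.continuous_sinh.comp Complex.continuous_re).pow 2).continuousOn
  · refine pow_ne_zero 2 fun h => ?_
    exact (ne_of_lt hs) (Real.sinh_eq_zero.1 h)

theorem hh_int {w : ℂ → ℂ} (hw : ContinuousOn w {z | 0 < ‖z‖ ∧ ‖z‖ < 1}) {t₂ : ℝ} (h2 : t₂ < 0) :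
    IntegrableOn (hh w t₂) (Ioo (-1) t₂ ×ℂ Ioo (-π) π) := by
  have hc : IsCompact (Icc (-1) t₂ ×ℂ Icc (-π) π : Set ℂ) := isCompact_Icc.reProdIm isCompact_Icc
  have h1 : ContinuousOn (hh w t₂) (Icc (-1) t₂ ×ℂ Icc (-π) π) :=
    (hh_cont hw t₂).mono fun s hs => (Complex.mem_reProdIm.1 hs).1.2.trans_lt h2
  refine (h1.integrableOn_compact hc).mono_set fun s hs => ?_
  rw [Complex.mem_reProdIm] at hs ⊢
  exact ⟨Ioo_subset_Icc_self hs.1, Ioo_subset_Icc_self hs.2⟩

/-- `Kf` as an integral in the strip. -/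
theorem Kf_eq {w : ℂ → ℂ} (hw : ContinuousOn w {z | 0 < ‖z‖ ∧ ‖z‖ < 1}) {t₂ : ℝ}
    (h1 : -1 < t₂) (h2 : t₂ < 0) :
    Kf w 1 (-1) t₂ = (2 * π)⁻¹ * ∫ ω in Om '' (Ioo (-1) t₂ ×ℂ Ioo (-π) π), GG w t₂ ω := by
  have hS : MeasurableSet (Ioo (-1) t₂ ×ℂ Ioo (-π) π : Set ℂ) :=
    (isOpen_Ioo.reProdIm isOpen_Ioo).measurableSet
  have hneg : ∀ s ∈ (Ioo (-1) t₂ ×ℂ Ioo (-π) π : Set ℂ), s.re < 0 := fun s hs =>
    (Complex.mem_reProdIm.1 hs).1.2.trans h2
  rw [cov hS (fun s hs => hasDerivAt_Om (hneg s hs)) (Om_inj h2.le)]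
  rw [setIntegral_congr_fun hS fun s hs => hh_eq w (hneg s hs)]
  rw [rect_integral h1.le (by linarith only [Real.pi_pos]) (hh_int hw h2)]
  unfold Kf hh ep TT
  congr 1
  refine intervalIntegral.integral_congr fun t _ => ?_
  refine intervalIntegral.integral_congr fun θ _ => ?_
  simp

end Pool.Agent.Helper84.EK

end

section

namespace Pool.Agent.Helper52.EK
end Pool.Agent.Helper52.EK

set_option autoImplicit false

open Complex MeasureTheory Metric Set

open scoped Real ComplexConjugate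

namespace Pool.Agent.Helper84.EK

open Pool.Agent.Helper52.EK

/-- The weight. -/
theorem GG_le {w : ℂ → ℂ} {t₂ : ℝ} (h2 : t₂ ≤ 0) {s : ℂ} (hs : s.re < 0) :
    (2 * π)⁻¹ * GG w t₂ (Om s) ≤ π⁻¹ * TT w (Complex.exp s) / ‖Zs s - I‖ ^ 2 := by
  have hz := norm_exp_lt hs
  have h1 : 0 < ‖1 + Complex.exp s‖ := norm_pos_iff.2 (one_add_ne hz)
  have hr : ‖Complex.exp s‖ = Real.exp s.re := Complex.norm_exp s
  have hr0 : 0 < Real.exp s.re := Real.exp_pos _
  have h3 : 0 < 1 - Real.exp s.re ^ 2 := by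
    rw [← hr]
    nlinarith only [norm_nonneg (Complex.exp s), hz]
  have h4 : (Zs s).im = (1 - ‖Complex.exp s‖ ^ 2) / ‖1 + Complex.exp s‖ ^ 2 := cay_im hz
  have h5 : ‖Zs s - I‖ = 2 * ‖Complex.exp s‖ / ‖1 + Complex.exp s‖ := cay_sub hz
  have hlog : Real.exp s.re ^ 2 * (-2 * s.re) ≤ 1 - Real.exp s.re ^ 2 := by
    have h6 := Real.add_one_le_exp (-2 * s.re)
    have h7 : Real.exp s.re ^ 2 * Real.exp (-2 * s.re) = 1 := by
      rw [← Real.exp_nat_mul, ← Real.exp_add]
      simp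
    (clear * - h7 h6; nlinarith only [h6, h7])
  unfold GG
  rw [zf_Om hs, exp_Om hs, h4, h5, hr, Real.log_exp]
  have hT := TT_nonneg w (Complex.exp s)
  have hpi := Real.pi_pos
  have e1 : (2 * π)⁻¹ * ((t₂ - s.re) / ((1 - Real.exp s.re ^ 2) / ‖1 + Complex.exp s‖ ^ 2) *
      TT w (Complex.exp s)) = (t₂ - s.re) * (‖1 + Complex.exp s‖ ^ 2 * TT w (Complex.exp s) /
        (2 * π * (1 - Real.exp s.re ^ 2))) := by
    field_simp
  have e2 : π⁻¹ * TT w (Complex.exp s) / (2 * Real.exp s.re / ‖1 + Complex.exp s‖) ^ 2 =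
      ((1 - Real.exp s.re ^ 2) / (2 * Real.exp s.re ^ 2)) *
        (‖1 + Complex.exp s‖ ^ 2 * TT w (Complex.exp s) /
        (2 * π * (1 - Real.exp s.re ^ 2))) := by
    (clear * - h3 h1; field_simp)
  rw [e1, e2]
  refine mul_le_mul_of_nonneg_right ?_ (by (clear * - h1 hT h3; positivity))
  rw [le_div_iff₀ (by positivity)]
  (clear * - hlog h2; nlinarith only [h2, hlog])

theorem GG_nonneg {w : ℂ → ℂ} {t₂ : ℝ} {s : ℂ} (hs : s.re < 0) (h : s.re ≤ t₂) :
    0 ≤ GG w t₂ (Om s) := by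
  unfold GG
  rw [zf_Om hs, exp_Om hs, Complex.norm_exp, Real.log_exp]
  exact mul_nonneg (div_nonneg (by (clear * - h; linarith only [h])) (Zs_im_pos hs).le) (TT_nonneg _ _)

/-- The real part of the image. -/
theorem exp_Om_re {s : ℂ} (hs : s.re < 0) : Real.exp (Om s).re = ‖Zs s‖ := by
  rw [← Complex.norm_exp, exp_Om hs]

theorem inv_sq_bound {x : ℝ} (h0 : 0 ≤ x) (h : x ≤ 37 / 100) :
    1 / (1 - x) ^ 2 ≤ 1 + 6 * x := by
  rw [div_le_iff₀ (by nlinarith)]
  (clear * - h0 h; nlinarith [mul_nonneg h0 h0, mul_nonneg h0 (mul_nonneg h0 h0),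
    mul_nonneg h0 (sub_nonneg.2 h)])

theorem exp_neg_one_le : Real.exp (-1) ≤ 37 / 100 := by
  have := Real.exp_neg_one_lt_d9
  linarith only [this]

/-- Region `ξ ≤ -1`. -/
theorem bound_small {w : ℂ → ℂ} (hw : ∀ z, ‖w z‖ ≤ 1) {t₂ : ℝ} (h2 : t₂ ≤ 0) {s : ℂ}
    (hs : s.re < 0) (h : (Om s).re ≤ -1) :
    (2 * π)⁻¹ * GG w t₂ (Om s) ≤ π⁻¹ * TT w (Complex.exp s) + 8 * Real.exp (Om s).re := by
  have h1 := GG_le (w := w) h2 hs
  have hT := TT_nonneg w (Complex.exp s)
  have hT4 := TT_le hw (norm_exp_lt hs)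
  set x := Real.exp (Om s).re with hx
  have hx0 : 0 < x := Real.exp_pos _
  have hx1 : x ≤ 37 / 100 := (Real.exp_le_exp.2 h).trans exp_neg_one_le
  have h3 : 1 - x ≤ ‖Zs s - I‖ := by
    have h4 := norm_sub_norm_le I (Zs s)
    rw [Complex.norm_I, ← exp_Om_re hs, norm_sub_rev] at h4
    exact h4
  have h5 : π⁻¹ * TT w (Complex.exp s) / ‖Zs s - I‖ ^ 2 ≤
      π⁻¹ * TT w (Complex.exp s) * (1 / (1 - x) ^ 2) := by
    rw [div_eq_mul_one_div]
    refine mul_le_mul_of_nonneg_left ?_ (by (clear * - hT; positivity))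
    refine one_div_le_one_div_of_le (by nlinarith only [hx1]) ?_
    exact pow_le_pow_left₀ (by (clear * - hx1; linarith only [hx1])) h3 2
  have h6 := inv_sq_bound hx0.le hx1
  have h7 : π⁻¹ * TT w (Complex.exp s) * (1 / (1 - x) ^ 2) ≤
      π⁻¹ * TT w (Complex.exp s) * (1 + 6 * x) := mul_le_mul_of_nonneg_left h6 (by (clear * - hT; positivity))
  have h8 : π⁻¹ ≤ 1 / 3 := by
    rw [← one_div]
    exact one_div_le_one_div_of_le (by norm_num) Real.pi_gt_three.le
  have h9 : π⁻¹ * TT w (Complex.exp s) ≤ 4 / 3 := by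
    calc π⁻¹ * TT w (Complex.exp s) ≤ 1 / 3 * 4 :=
          mul_le_mul h8 hT4 hT (by norm_num)
      _ = 4 / 3 := by norm_num
  have h10 : π⁻¹ * TT w (Complex.exp s) * (1 + 6 * x) ≤ π⁻¹ * TT w (Complex.exp s) + 8 * x := by
    nlinarith only [hx0, h9]
  (clear * - h1 h5 h7 h10; linarith only [h1, h5, h7, h10])

/-- Lower bound of `ξ`. -/
theorem re_lower {a : ℝ} (h0 : 0 < a) (h1 : a < 1) {s : ℂ} (hs : s.re < 0)
    (hsa : s.re ≤ Real.log a) (h : (Om s).re ≤ -1) : Real.log (tau a) - 3 ≤ (Om s).re := by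
  have hz := norm_exp_lt hs
  have hza : ‖Complex.exp s‖ ≤ a := by
    rw [Complex.norm_exp]
    calc Real.exp s.re ≤ Real.exp (Real.log a) := Real.exp_le_exp.2 hsa
      _ = a := Real.exp_log h0
  set x := Real.exp (Om s).re with hx
  have hx0 : 0 < x := Real.exp_pos _
  have hx1 : x ≤ 37 / 100 := (Real.exp_le_exp.2 h).trans exp_neg_one_le
  have hxZ : x = ‖Zs s‖ := exp_Om_re hs
  have h3 : 1 - x ≤ ‖Zs s + I‖ := by
    have h4 := norm_sub_norm_le I (-Zs s)
    rw [Complex.norm_I, norm_neg, ← hxZ, sub_neg_eq_add, add_comm] at h4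
    exact h4
  have h5 : (Zs s).im = (1 - ‖Complex.exp s‖ ^ 2) / ‖1 + Complex.exp s‖ ^ 2 := cay_im hz
  have h6 : ‖Zs s + I‖ = 2 / ‖1 + Complex.exp s‖ := cay_add hz
  have h7 : 0 < ‖1 + Complex.exp s‖ := norm_pos_iff.2 (one_add_ne hz)
  have h8 : 4 * (Zs s).im = (1 - ‖Complex.exp s‖ ^ 2) * ‖Zs s + I‖ ^ 2 := by
    rw [h5, h6]
    field_simp
    ring
  have h9 : (Zs s).im ≤ x := by
    rw [hxZ]
    exact (le_abs_self _).trans (Complex.abs_im_le_norm _)
  have h10 : tau a ≤ 1 - a ^ 2 := by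
    unfold tau
    rw [div_le_iff₀ (by (clear * - h0; linarith only [h0]))]
    (clear * - h1 h0; nlinarith only [h0, h1])
  have h11 : 0 < tau a := by
    unfold tau
    exact div_pos (by linarith only [h1]) (by linarith only [h0])
  have h12 : 1 - a ^ 2 ≤ 1 - ‖Complex.exp s‖ ^ 2 := by
    nlinarith only [norm_nonneg (Complex.exp s), hza]
  have h13 : (63 / 100) ^ 2 ≤ ‖Zs s + I‖ ^ 2 := pow_le_pow_left₀ (by norm_num) (by linarith only [hx1, h3]) 2
  have h14 : tau a * (63 / 100) ^ 2 ≤ 4 * x := by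
    calc tau a * (63 / 100) ^ 2 ≤ (1 - ‖Complex.exp s‖ ^ 2) * ‖Zs s + I‖ ^ 2 :=
          mul_le_mul (h10.trans h12) h13 (by (clear * -; positivity)) (by linarith only [h10, h11, h12])
      _ = 4 * (Zs s).im := h8.symm
      _ ≤ 4 * x := by (clear * - h9; linarith only [h9])
  have h15 : Real.exp (-3) ≤ (37 / 100) ^ 3 := by
    have : Real.exp (-3) = Real.exp (-1) ^ 3 := by
      rw [← Real.exp_nat_mul]
      norm_num
    rw [this]
    exact pow_le_pow_left₀ (Real.exp_pos _).le exp_neg_one_le 3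
  have h16 : Real.exp (Real.log (tau a) - 3) ≤ x := by
    rw [sub_eq_add_neg, Real.exp_add, Real.exp_log h11]
    (clear * - h11 h14 h15; nlinarith only [h11, h14, h15])
  exact Real.exp_le_exp.1 h16

/-- Region `-A < ξ`. -/
theorem bound_large {w : ℂ → ℂ} (hw : ∀ z, ‖w z‖ ≤ 1) {t₂ : ℝ} (h2 : t₂ ≤ 0) {s : ℂ}
    (hs : s.re < 0) (h : -1 ≤ s.re) :
    (2 * π)⁻¹ * GG w t₂ (Om s) ≤ 12 / (1 + Real.exp (Om s).re ^ 2) := by
  have h1 := GG_le (w := w) h2 hs
  have hT := TT_nonneg w (Complex.exp s)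
  have hz := norm_exp_lt hs
  have hT4 := TT_le hw hz
  set x := Real.exp (Om s).re with hx
  have hx0 : 0 < x := Real.exp_pos _
  have hxZ : x = ‖Zs s‖ := exp_Om_re hs
  have h6 : ‖Zs s + I‖ = 2 / ‖1 + Complex.exp s‖ := cay_add hz
  have h7 : 0 < ‖1 + Complex.exp s‖ := norm_pos_iff.2 (one_add_ne hz)
  have h5 : ‖Zs s - I‖ = 2 * ‖Complex.exp s‖ / ‖1 + Complex.exp s‖ := cay_sub hz
  have h8 : ‖Zs s - I‖ = ‖Complex.exp s‖ * ‖Zs s + I‖ := by
    rw [h5, h6]
    ring
  have h9 : 1 + x ^ 2 ≤ ‖Zs s + I‖ ^ 2 := by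
    rw [hxZ, ← Complex.normSq_eq_norm_sq, ← Complex.normSq_eq_norm_sq, Complex.normSq_apply,
      Complex.normSq_apply]
    have := Zs_im_pos hs
    simp only [Complex.add_re, Complex.add_im, Complex.I_re, Complex.I_im, add_zero]
    (clear * - this; linarith only [this])
  have h10 : Real.exp (-2) ≤ ‖Complex.exp s‖ ^ 2 := by
    rw [Complex.norm_exp, ← Real.exp_nat_mul]
    refine Real.exp_le_exp.2 ?_
    push_cast
    (clear * - h; linarith only [h])
  have h11 : Real.exp (-2) * (1 + x ^ 2) ≤ ‖Zs s - I‖ ^ 2 := by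
    rw [h8, mul_pow]
    exact mul_le_mul h10 h9 (by positivity) (by (clear * -; positivity))
  have h12 : Real.exp 2 ≤ 8 := by
    have h13 : Real.exp 2 = Real.exp 1 ^ 2 := by
      rw [← Real.exp_nat_mul]
      norm_num
    have h14 := Real.exp_one_lt_d9
    rw [h13]
    (clear * - h14; nlinarith only [Real.exp_pos 1, h14])
  have h8' : π⁻¹ ≤ 1 / 3 := by
    rw [← one_div]
    exact one_div_le_one_div_of_le (by norm_num) Real.pi_gt_three.le
  have h9' : π⁻¹ * TT w (Complex.exp s) ≤ 4 / 3 := by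
    calc π⁻¹ * TT w (Complex.exp s) ≤ 1 / 3 * 4 :=
          mul_le_mul h8' hT4 hT (by norm_num)
      _ = 4 / 3 := by norm_num
  refine h1.trans ?_
  calc π⁻¹ * TT w (Complex.exp s) / ‖Zs s - I‖ ^ 2
      ≤ π⁻¹ * TT w (Complex.exp s) / (Real.exp (-2) * (1 + x ^ 2)) :=
        div_le_div_of_nonneg_left (by (clear * - hT; positivity)) (by positivity) h11
    _ ≤ 4 / 3 / (Real.exp (-2) * (1 + x ^ 2)) :=
        div_le_div_of_nonneg_right h9' (by positivity)
    _ = 4 / 3 * Real.exp 2 / (1 + x ^ 2) := by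
        rw [Real.exp_neg]
        (clear * - hx0; field_simp)
    _ ≤ 12 / (1 + x ^ 2) := by
        refine div_le_div_of_nonneg_right ?_ (by positivity)
        linarith only [h12]

end Pool.Agent.Helper84.EK

end

section

namespace Pool.Agent.Helper52.EK
end Pool.Agent.Helper52.EK

set_option autoImplicit false

open Complex MeasureTheory Metric Set

open scoped Real ComplexConjugate

namespace Pool.Agent.Helper84.EK

open Pool.Agent.Helper52.EK

theorem prod_fun {f g : ℝ → ℝ} (hf : Integrable f) (hg : Integrable g) :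
    Integrable (fun ω : ℂ => f ω.re * g ω.im) ∧
      ∫ ω : ℂ, f ω.re * g ω.im = (∫ x, f x) * ∫ y, g y := by
  have hm := Complex.volume_preserving_equiv_real_prod
  have he : (fun ω : ℂ => f ω.re * g ω.im) =
      (fun p : ℝ × ℝ => f p.1 * g p.2) ∘ measurableEquivRealProd := by
    funext ω
    simp [Complex.measurableEquivRealProd]
  constructor
  · rw [he, hm.integrable_comp_emb measurableEquivRealProd.measurableEmbedding]
    exact hf.mul_prod hg
  · have h1 := hm.integral_comp measurableEquivRealProd.measurableEmbedding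
      (fun p : ℝ × ℝ => f p.1 * g p.2)
    have h2 : ∫ ω : ℂ, f ω.re * g ω.im =
        ∫ ω : ℂ, (fun p : ℝ × ℝ => f p.1 * g p.2) (measurableEquivRealProd ω) := by
      refine integral_congr_ae (Filter.Eventually.of_forall fun ω => ?_)
      simp [Complex.measurableEquivRealProd]
    rw [h2, h1, Measure.volume_eq_prod, integral_prod_mul]

/-- the dominating function -/
noncomputable def bb (K L₁ L₂ ξ : ℝ) : ℝ :=
  K * ((Icc L₁ L₂).indicator (fun _ => (1:ℝ)) ξ + (1 + ξ ^ 2)⁻¹)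

theorem bb_int (K : ℝ) {L₁ L₂ : ℝ} (h : L₁ ≤ L₂) :
    Integrable (bb K L₁ L₂) ∧ ∫ ξ, bb K L₁ L₂ ξ = K * ((L₂ - L₁) + π) := by
  have h1 : Integrable ((Icc L₁ L₂).indicator (fun _ => (1:ℝ))) :=
    (integrable_indicator_iff measurableSet_Icc).2 (integrableOn_const (by simp))
  have h2 : Integrable (fun ξ : ℝ => (1 + ξ ^ 2)⁻¹) := integrable_inv_one_add_sq
  constructor
  · exact (h1.add h2).const_mul K
  · unfold bb
    rw [integral_const_mul, integral_add h1 h2, integral_indicator measurableSet_Icc,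
      integral_univ_inv_one_add_sq]
    simp [h]

theorem zf_mem {ω : ℂ} (h : ω.re < 0) (h0 : 0 < ω.im) (h1 : ω.im < π) :
    I + Complex.exp ω ≠ 0 ∧ 0 < ‖zf ω‖ ∧ ‖zf ω‖ < 1 := by
  have hY : 0 < (Complex.exp ω).im := by
    rw [Complex.exp_im]
    exact mul_pos (Real.exp_pos _) (Real.sin_pos_of_pos_of_lt_pi h0 h1)
  have hne : I + Complex.exp ω ≠ 0 := by
    intro h2
    have := congrArg Complex.im h2
    simp only [Complex.add_im, Complex.I_im, Complex.zero_im] at this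
    linarith only [hY, this]
  have hne2 : I - Complex.exp ω ≠ 0 := by
    intro h2
    have h3 : Complex.exp ω = I := by linear_combination -h2
    have h4 := norm_exp_lt h
    rw [h3, Complex.norm_I] at h4
    exact lt_irrefl _ h4
  refine ⟨hne, ?_, ?_⟩
  · unfold zf
    exact norm_pos_iff.2 (div_ne_zero hne2 hne)
  · unfold zf
    rw [norm_div, div_lt_one (norm_pos_iff.2 hne)]
    refine lt_of_pow_lt_pow_left₀ 2 (norm_nonneg _) ?_
    rw [← Complex.normSq_eq_norm_sq, ← Complex.normSq_eq_norm_sq, Complex.normSq_apply,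
      Complex.normSq_apply]
    simp only [Complex.add_re, Complex.add_im, Complex.sub_re, Complex.sub_im, Complex.I_re,
      Complex.I_im]
    (clear * - hY; linarith only [hY])

theorem TTzf_int {w : ℂ → ℂ} (hw : ContinuousOn w {z | 0 < ‖z‖ ∧ ‖z‖ < 1})
    (hw1 : ∀ z, ‖w z‖ ≤ 1) {x₁ x₂ : ℝ} (h2 : x₂ ≤ 0) :
    IntegrableOn (fun ω => TT w (zf ω)) (Ioo x₁ x₂ ×ℂ Ioo 0 π) := by
  have hS : MeasurableSet (Ioo x₁ x₂ ×ℂ Ioo 0 π : Set ℂ) :=
    (isOpen_Ioo.reProdIm isOpen_Ioo).measurableSet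
  have hmem : ∀ ω ∈ (Ioo x₁ x₂ ×ℂ Ioo 0 π : Set ℂ),
      I + Complex.exp ω ≠ 0 ∧ 0 < ‖zf ω‖ ∧ ‖zf ω‖ < 1 := fun ω hω => by
    rw [Complex.mem_reProdIm] at hω
    exact zf_mem (hω.1.2.trans_le h2) hω.2.1 hω.2.2
  have hzc : ContinuousOn zf (Ioo x₁ x₂ ×ℂ Ioo 0 π : Set ℂ) := by
    unfold zf
    refine ContinuousOn.div ?_ ?_ fun ω hω => (hmem ω hω).1
    · exact (continuous_const.sub Complex.continuous_exp).continuousOn
    · exact (continuous_const.add Complex.continuous_exp).continuousOn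
  have hc : ContinuousOn (fun ω => TT w (zf ω)) (Ioo x₁ x₂ ×ℂ Ioo 0 π : Set ℂ) :=
    (TT_cont hw).comp hzc fun ω hω => (hmem ω hω).2
  have hfin : volume (Ioo x₁ x₂ ×ℂ Ioo 0 π : Set ℂ) ≠ ⊤ := by
    have h3 : (Ioo x₁ x₂ ×ℂ Ioo 0 π : Set ℂ) ⊆ Icc x₁ x₂ ×ℂ Icc 0 π := fun ω hω => by
      rw [Complex.mem_reProdIm] at hω ⊢
      exact ⟨Ioo_subset_Icc_self hω.1, Ioo_subset_Icc_self hω.2⟩
    exact ((measure_mono h3).trans_lt
      (isCompact_Icc.reProdIm isCompact_Icc).measure_lt_top).ne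
  refine IntegrableOn.of_bound (lt_top_iff_ne_top.2 hfin) (hc.aestronglyMeasurable hS) 4 ?_
  refine (ae_restrict_iff' hS).2 (Filter.Eventually.of_forall fun ω hω => ?_)
  rw [Real.norm_eq_abs, abs_of_nonneg (TT_nonneg _ _)]
  exact TT_le hw1 (hmem ω hω).2.2

/-- E3b: change of variables; `w` arbitrary -/
theorem E3b : ∀ A : ℝ, 1 ≤ A → ∃ C : ℝ, ∀ (w : ℂ → ℂ) (a : ℝ),
    ContinuousOn w {z | 0 < ‖z‖ ∧ ‖z‖ < 1} → (∀ z, ‖w z‖ ≤ 1) → Real.exp (-1) < a → a < 1 →
    Real.log (tau a) + A ≤ -A →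
    Kf w 1 (-1) (Real.log a) ≤ π⁻¹ * II (Real.log (tau a) + A) (-A)
      (fun ξ η => ‖ee 1 (zf (pt ξ η)) - w (zf (pt ξ η))‖ ^ 2) + C := by
  intro A hA
  refine ⟨60 * (1 + A ^ 2) * ((A + 3) + π) * π, fun w a hw hw1 ha ha1 hτ => ?_⟩
  have ha0 : 0 < a := (Real.exp_pos _).trans ha
  have ht1 : -1 < Real.log a := by
    rw [← Real.log_exp (-1)]
    exact Real.log_lt_log (Real.exp_pos _) ha
  have ht2 : Real.log a < 0 := Real.log_neg ha0 ha1
  set K : ℝ := 60 * (1 + A ^ 2) with hK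
  have hK60 : 60 ≤ K := by nlinarith only [hK]
  set x₁ : ℝ := Real.log (tau a) + A with hx1
  set L₁ : ℝ := Real.log (tau a) - 3 with hL1
  have hL : L₁ ≤ x₁ := by rw [hL1, hx1]; linarith only [hA]
  set Q : Set ℂ := Ioo (-1) (Real.log a) ×ℂ Ioo (-π) π with hQ
  have hQm : MeasurableSet Q := (isOpen_Ioo.reProdIm isOpen_Ioo).measurableSet
  have hneg : ∀ s ∈ Q, s.re < 0 := fun s hs => (Complex.mem_reProdIm.1 hs).1.2.trans ht2
  have hIm : MeasurableSet (Om '' Q) := by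
    refine measurable_image_of_fderivWithin hQm
      (fun s hs => ((hasDerivAt_Om (hneg s hs)).complexToReal_fderiv).hasFDerivWithinAt)
      (Om_inj ht2.le)
  set Mn : Set ℂ := Ioo x₁ (-A) ×ℂ Ioo 0 π with hMn
  have hMm : MeasurableSet Mn := (isOpen_Ioo.reProdIm isOpen_Ioo).measurableSet
  -- the dominating function
  set g : ℂ → ℝ := fun ω => Mn.indicator (fun ω => π⁻¹ * TT w (zf ω)) ω +
    bb K L₁ x₁ ω.re * (Ioo 0 π).indicator (fun _ => (1:ℝ)) ω.im with hg
  have hT := TTzf_int hw hw1 (x₁ := x₁) (x₂ := -A) (by linarith only [hA])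
  have hone : Integrable ((Ioo 0 π).indicator (fun _ : ℝ => (1:ℝ))) :=
    (integrable_indicator_iff measurableSet_Ioo).2 (integrableOn_const (by simp))
  have hone2 : ∫ y, (Ioo 0 π).indicator (fun _ : ℝ => (1:ℝ)) y = π := by
    rw [integral_indicator measurableSet_Ioo]
    simp [Real.pi_pos.le]
  have hbb := bb_int K hL
  have hpf := prod_fun hbb.1 hone
  have hg1 : Integrable (Mn.indicator (fun ω => π⁻¹ * TT w (zf ω))) :=
    (integrable_indicator_iff hMm).2 (hT.const_mul _)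
  have hgi : Integrable g := hg1.add hpf.1
  have hgI : ∫ ω, g ω = π⁻¹ * (∫ ω in Mn, TT w (zf ω)) + K * ((A + 3) + π) * π := by
    rw [hg, integral_add hg1 hpf.1, hpf.2, hbb.2, hone2, integral_indicator hMm,
      integral_const_mul]
    have : x₁ - L₁ = A + 3 := by rw [hx1, hL1]; ring
    rw [this]
  have hbn : ∀ ξ, 0 ≤ bb K L₁ x₁ ξ := by
    intro ξ
    unfold bb
    refine mul_nonneg (by linarith only [hK60]) (add_nonneg ?_ (by (clear * -; positivity)))
    exact Set.indicator_nonneg (fun _ _ => zero_le_one) _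
  have hg0 : ∀ ω, 0 ≤ g ω := by
    intro ω
    rw [hg]
    refine add_nonneg (Set.indicator_nonneg (fun ω _ => ?_) _) (mul_nonneg (hbn _) ?_)
    · exact mul_nonneg (by positivity) (TT_nonneg _ _)
    · exact Set.indicator_nonneg (fun _ _ => zero_le_one) _
  -- the pointwise bound
  have hpt : ∀ ω ∈ Om '' Q, (2 * π)⁻¹ * GG w (Real.log a) ω ≤ g ω := by
    rintro _ ⟨s, hs, rfl⟩
    have hs0 := hneg s hs
    have hsQ := Complex.mem_reProdIm.1 hs
    have him := Om_im hs0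
    have hind : (Ioo 0 π).indicator (fun _ : ℝ => (1:ℝ)) (Om s).im = 1 :=
      Set.indicator_of_mem (s := Ioo 0 π) (show (Om s).im ∈ Ioo 0 π from him) _
    have hMn0 : 0 ≤ Mn.indicator (fun ω => π⁻¹ * TT w (zf ω)) (Om s) :=
      Set.indicator_nonneg (fun ω _ => mul_nonneg (by positivity) (TT_nonneg _ _)) _
    have hI0 : 0 ≤ (Icc L₁ x₁).indicator (fun _ => (1:ℝ)) (Om s).re :=
      Set.indicator_nonneg (fun _ _ => zero_le_one) _
    have hgs : g (Om s) = Mn.indicator (fun ω => π⁻¹ * TT w (zf ω)) (Om s) +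
        K * ((Icc L₁ x₁).indicator (fun _ => (1:ℝ)) (Om s).re + (1 + (Om s).re ^ 2)⁻¹) := by
      rw [hg]
      simp only [hind, mul_one]
      rfl
    set ξ := (Om s).re with hξ
    have hq : 0 < 1 + ξ ^ 2 := by (clear * -; positivity)
    rw [hgs]
    by_cases hc : ξ ≤ -A
    · have h1 : ξ ≤ -1 := by linarith only [hA, hc]
      have h2 := bound_small hw1 ht2.le hs0 (by rw [← hξ]; exact h1)
      rw [← hξ] at h2
      have hT4 := TT_le hw1 (norm_exp_lt hs0)
      have h8 : π⁻¹ ≤ 1 / 3 := by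
        rw [← one_div]
        exact one_div_le_one_div_of_le (by norm_num) Real.pi_gt_three.le
      have h9 : π⁻¹ * TT w (Complex.exp s) ≤ 4 / 3 := by
        calc π⁻¹ * TT w (Complex.exp s) ≤ 1 / 3 * 4 :=
              mul_le_mul h8 hT4 (TT_nonneg _ _) (by norm_num)
          _ = 4 / 3 := by norm_num
      have h10 : Real.exp ξ ≤ 1 := Real.exp_le_one_iff.2 (by linarith only [h1])
      by_cases hc1 : ξ ≤ x₁
      · have h3 : L₁ ≤ ξ := re_lower ha0 ha1 hs0 hsQ.1.2.le (by rw [← hξ]; exact h1)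
        have h4 : (Icc L₁ x₁).indicator (fun _ => (1:ℝ)) ξ = 1 :=
          Set.indicator_of_mem (s := Icc L₁ x₁) (show ξ ∈ Icc L₁ x₁ from ⟨h3, hc1⟩) _
        rw [h4]
        have h5 : 0 ≤ K * (1 + ξ ^ 2)⁻¹ := mul_nonneg (by (clear * - hK60; linarith only [hK60])) (by (clear * -; positivity))
        rw [mul_add, mul_one]
        (clear * - hK60 hMn0 h2 h9 h10 h5; linarith only [hK60, hMn0, h2, h9, h10, h5])
      · push Not at hc1
        by_cases hc2 : ξ < -A
        · have h3 : Om s ∈ Mn := by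
            rw [hMn, Complex.mem_reProdIm]
            exact ⟨⟨hc1, hc2⟩, him⟩
          have h4 : Mn.indicator (fun ω => π⁻¹ * TT w (zf ω)) (Om s) =
              π⁻¹ * TT w (Complex.exp s) := by
            rw [Set.indicator_of_mem h3, zf_Om hs0]
          rw [h4]
          have h5 : 8 * Real.exp ξ ≤ K * (1 + ξ ^ 2)⁻¹ := by
            rw [← div_eq_mul_inv, le_div_iff₀ hq]
            have h6 : 1 + ξ ^ 2 ≤ 2 * Real.exp (-ξ) := by
              have := Real.quadratic_le_exp_of_nonneg (x := -ξ) (by linarith only [h1])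
              linarith only [h1, this]
            have h7 : Real.exp ξ * Real.exp (-ξ) = 1 := by
              rw [← Real.exp_add]
              simp
            have h8 := mul_le_mul_of_nonneg_left h6 (Real.exp_pos ξ).le
            have h9 : Real.exp ξ * (2 * Real.exp (-ξ)) = 2 := by linear_combination 2 * h7
            linarith only [hK60, h8, h9]
          have h6 : 0 ≤ K * (Icc L₁ x₁).indicator (fun _ => (1:ℝ)) ξ :=
            mul_nonneg (by linarith only [hK60]) hI0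
          rw [mul_add]
          linarith only [h2, h5, h6]
        · have h3 : ξ = -A := le_antisymm hc (not_lt.1 hc2)
          have h5 : 60 ≤ K * (1 + ξ ^ 2)⁻¹ := by
            rw [← div_eq_mul_inv, le_div_iff₀ hq, hK, h3]
            exact le_of_eq (by ring)
          have h6 : 0 ≤ K * (Icc L₁ x₁).indicator (fun _ => (1:ℝ)) ξ :=
            mul_nonneg (by linarith only [hK60]) hI0
          rw [mul_add]
          linarith only [hMn0, h2, h9, h10, h5, h6]
    · push Not at hc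
      have h2 := bound_large hw1 ht2.le hs0 hsQ.1.1.le
      rw [← hξ] at h2
      have h5 : 12 / (1 + Real.exp ξ ^ 2) ≤ K * (1 + ξ ^ 2)⁻¹ := by
        rw [← div_eq_mul_inv, div_le_div_iff₀ (by positivity) hq]
        by_cases hc3 : 0 ≤ ξ
        · have h6 := Real.add_one_le_exp ξ
          have h7 : 1 + ξ ^ 2 ≤ 1 + Real.exp ξ ^ 2 := by (clear * - hc3 h6; nlinarith only [hc3, h6])
          exact mul_le_mul (by linarith only [hK60]) h7 hq.le (by linarith only [hK60])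
        · push Not at hc3
          have h6 : ξ ^ 2 ≤ A ^ 2 := by nlinarith only [hc, hc3]
          have h7 : 0 ≤ K * Real.exp ξ ^ 2 := mul_nonneg (by linarith only [hq, h6]) (by positivity)
          rw [mul_add, mul_one]
          linarith only [hq, h6, h7]
      have h6 : 0 ≤ K * (Icc L₁ x₁).indicator (fun _ => (1:ℝ)) ξ :=
        mul_nonneg (by linarith only [hK60]) hI0
      rw [mul_add]
      (clear * - hMn0 h2 h5 h6; linarith)
  rw [Kf_eq hw ht1 ht2, ← integral_const_mul]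
  have hstep : ∫ ω in Om '' Q, (2 * π)⁻¹ * GG w (Real.log a) ω ≤ ∫ ω in Om '' Q, g ω := by
    refine integral_mono_of_nonneg ?_ hgi.integrableOn ?_
    · refine (ae_restrict_iff' hIm).2 (Filter.Eventually.of_forall ?_)
      rintro _ ⟨s, hs, rfl⟩
      exact mul_nonneg (by positivity) (GG_nonneg (hneg s hs) (Complex.mem_reProdIm.1 hs).1.2.le)
    · exact (ae_restrict_iff' hIm).2 (Filter.Eventually.of_forall hpt)
  have hstep2 : ∫ ω in Om '' Q, g ω ≤ ∫ ω, g ω :=
    setIntegral_le_integral hgi (Filter.Eventually.of_forall hg0)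
  refine (hstep.trans hstep2).trans ?_
  rw [hgI, hMn, rect_integral hτ Real.pi_pos.le hT]
  exact le_rfl

end Pool.Agent.Helper84.EK

end

section

namespace Pool.Agent.Helper39.Area
end Pool.Agent.Helper39.Area
namespace Pool.Agent.Helper52.EK
end Pool.Agent.Helper52.EK

set_option autoImplicit false

open Complex MeasureTheory Metric Set

open scoped Real ComplexConjugate

namespace Pool.Agent.Helper16.EK

open Pool.Agent.Helper39.Area Pool.Agent.Helper52.EK

theorem tau_pos {a : ℝ} (h0 : 0 < a) (h1 : a < 1) : 0 < tau a := by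
  unfold tau
  exact div_pos (by (clear * - h1; linarith only [h1])) (by (clear * - h0; linarith only [h0]))

theorem norm_kap_sub_one {a ξ η : ℝ} (h0 : 0 < a) (h1 : a < 1) (h2 : Real.log (tau a) + 1 ≤ ξ)
    (h3 : ξ ≤ -1) :
    ‖kap a (pt ξ η) - 1‖ ^ 2 ≤
      8 * (Real.exp (4 * ξ) + 9 * (tau a ^ 4 * Real.exp (-(4 * ξ)))) := by
  have ht : 0 < tau a := tau_pos h0 h1
  set t : ℝ := tau a with htd
  set r : ℝ := Real.exp ξ with hr
  have hr0 : 0 < r := Real.exp_pos _
  have he : (2 : ℝ) ≤ Real.exp 1 := by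
    have := Real.add_one_le_exp (1 : ℝ)
    (clear * - this; linarith only [this])
  have htr : 2 * t ≤ r := by
    have h4 : Real.exp (Real.log t + 1) ≤ Real.exp ξ := Real.exp_le_exp.2 h2
    rw [Real.exp_add, Real.exp_log ht] at h4
    (clear * - h4 he hr0; nlinarith only [hr0, he, h4])
  have hr1 : 2 * r ≤ 1 := by
    have h4 : Real.exp ξ * Real.exp 1 ≤ 1 := by
      rw [← Real.exp_add]
      calc Real.exp (ξ + 1) ≤ Real.exp 0 := Real.exp_le_exp.2 (by (clear * - h3; linarith only [h3]))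
        _ = 1 := Real.exp_zero
    (clear * - he h4; nlinarith only [he, h4])
  set Z : ℂ := Complex.exp (pt ξ η) with hZ
  have hZn : ‖Z‖ = r := by
    rw [hZ, Complex.norm_exp]
    simp [pt, hr]
  have hZ2 : ‖Z ^ 2‖ = r ^ 2 := by rw [norm_pow, hZn]
  have htn : ‖((t : ℂ)) ^ 2‖ = t ^ 2 := by
    rw [norm_pow, Complex.norm_real, Real.norm_eq_abs, sq_abs]
  have hA : 3 / 4 * r ^ 2 ≤ ‖Z ^ 2 + (t : ℂ) ^ 2‖ := by
    have h5 : ‖Z ^ 2‖ - ‖(t : ℂ) ^ 2‖ ≤ ‖Z ^ 2 + (t : ℂ) ^ 2‖ := by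
      have := norm_sub_norm_le (Z ^ 2) (-((t : ℂ) ^ 2))
      rwa [norm_neg, sub_neg_eq_add] at this
    rw [hZ2, htn] at h5
    (clear * - h5 ht htr; nlinarith only [ht, htr, h5])
  have hB : 3 / 4 ≤ ‖Z ^ 2 + 1‖ := by
    have h5 : ‖(1 : ℂ)‖ - ‖Z ^ 2‖ ≤ ‖Z ^ 2 + 1‖ := by
      have := norm_sub_norm_le (1 : ℂ) (-(Z ^ 2))
      rw [norm_neg, sub_neg_eq_add, add_comm] at this
      exact this
    rw [hZ2, norm_one] at h5
    (clear * - hr1 h5 hr0; nlinarith only [hr0, hr1, h5])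
  have hA0 : Z ^ 2 + (t : ℂ) ^ 2 ≠ 0 := by
    intro h
    rw [h, norm_zero] at hA
    (clear * - hA hr0; nlinarith only [hr0, hA])
  have hB0 : Z ^ 2 + 1 ≠ 0 := by
    intro h
    rw [h, norm_zero] at hB
    linarith only [hB]
  have hk : kap a (pt ξ η) - 1 =
      -(Z ^ 4 + 2 * (t : ℂ) ^ 2 * Z ^ 2 + (t : ℂ) ^ 2) /
        ((Z ^ 2 + (t : ℂ) ^ 2) * (Z ^ 2 + 1)) := by
    unfold kap
    rw [← hZ, ← htd]
    field_simp
    ring
  have hnum : ‖-(Z ^ 4 + 2 * (t : ℂ) ^ 2 * Z ^ 2 + (t : ℂ) ^ 2)‖ ≤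
      r ^ 4 + 2 * t ^ 2 * r ^ 2 + t ^ 2 := by
    rw [norm_neg]
    calc ‖Z ^ 4 + 2 * (t : ℂ) ^ 2 * Z ^ 2 + (t : ℂ) ^ 2‖
        ≤ ‖Z ^ 4‖ + ‖2 * (t : ℂ) ^ 2 * Z ^ 2‖ + ‖(t : ℂ) ^ 2‖ := norm_add₃_le
      _ = r ^ 4 + 2 * t ^ 2 * r ^ 2 + t ^ 2 := by
          rw [norm_mul, norm_mul, htn, hZ2, norm_pow, hZn]
          simp
  have hden : 9 / 16 * r ^ 2 ≤ ‖(Z ^ 2 + (t : ℂ) ^ 2) * (Z ^ 2 + 1)‖ := by
    rw [norm_mul]
    (clear * - hA hB; nlinarith only [hA, hB])
  have hq : ‖kap a (pt ξ η) - 1‖ ≤ 2 * (r ^ 2 + 3 * (t ^ 2 / r ^ 2)) := by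
    rw [hk, norm_div]
    have hr2 : 0 < r ^ 2 := by positivity
    have hden0 : 0 < ‖(Z ^ 2 + (t : ℂ) ^ 2) * (Z ^ 2 + 1)‖ := by
      refine lt_of_lt_of_le ?_ hden
      positivity
    rw [div_le_iff₀ hden0]
    have h6 : 2 * (r ^ 2 + 3 * (t ^ 2 / r ^ 2)) * (9 / 16 * r ^ 2) ≤
        2 * (r ^ 2 + 3 * (t ^ 2 / r ^ 2)) * ‖(Z ^ 2 + (t : ℂ) ^ 2) * (Z ^ 2 + 1)‖ :=
      mul_le_mul_of_nonneg_left hden (by positivity)
    have h7 : 2 * (r ^ 2 + 3 * (t ^ 2 / r ^ 2)) * (9 / 16 * r ^ 2) =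
        9 / 8 * (r ^ 4 + 3 * t ^ 2) := by
      field_simp
      ring
    have h8 : r ^ 4 + 2 * t ^ 2 * r ^ 2 + t ^ 2 ≤ 9 / 8 * (r ^ 4 + 3 * t ^ 2) := by
      have : t ^ 2 * r ^ 2 ≤ t ^ 2 * 1 := by
        apply mul_le_mul_of_nonneg_left _ (sq_nonneg t)
        nlinarith only [hr0, hr1]
      nlinarith only [this]
    linarith only [hnum, h6, h7, h8]
  have hE1 : Real.exp (4 * ξ) = r ^ 4 := by
    rw [hr, ← Real.exp_nat_mul]
    norm_num
  have hE2 : Real.exp (-(4 * ξ)) = (r ^ 4)⁻¹ := by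
    rw [Real.exp_neg, hE1]
  rw [hE1, hE2]
  calc ‖kap a (pt ξ η) - 1‖ ^ 2 ≤ (2 * (r ^ 2 + 3 * (t ^ 2 / r ^ 2))) ^ 2 :=
        pow_le_pow_left₀ (norm_nonneg _) hq 2
    _ ≤ 8 * (r ^ 4 + 9 * (t ^ 4 * (r ^ 4)⁻¹)) := by
        have h9 : t ^ 4 * (r ^ 4)⁻¹ = (t ^ 2 / r ^ 2) ^ 2 := by
          field_simp
        rw [h9]
        linarith only [sq_nonneg (r ^ 2 - 3 * (t ^ 2 / r ^ 2))]

/-- E1d: the comparison function -/
theorem E1d : ∃ C : ℝ, ∀ a : ℝ, 0 < a → a < 1 → ∀ x₁ x₂ : ℝ, Real.log (tau a) + 1 ≤ x₁ →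
    x₁ ≤ x₂ → x₂ ≤ -1 → II x₁ x₂ (fun ξ η => ‖kap a (pt ξ η) - 1‖ ^ 2) ≤ C := by
  refine ⟨π * (8 * (1 / 4 + 9 * (1 / 4))), fun a h0 h1 x₁ x₂ h2 h12 h3 => ?_⟩
  have ht : 0 < tau a := tau_pos h0 h1
  set t : ℝ := tau a with htd
  have hin : ∀ ξ ∈ Ioc x₁ x₂, (∫ η in (0:ℝ)..π, ‖kap a (pt ξ η) - 1‖ ^ 2) ≤
      π * (8 * (Real.exp (4 * ξ) + 9 * (t ^ 4 * Real.exp (-(4 * ξ))))) := by
    intro ξ hξ
    rw [intervalIntegral.integral_of_le Real.pi_pos.le]
    have h4 : (∫ η in Ioc 0 π, ‖kap a (pt ξ η) - 1‖ ^ 2) ≤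
        ∫ η in Ioc 0 π, (8 * (Real.exp (4 * ξ) + 9 * (t ^ 4 * Real.exp (-(4 * ξ))))) := by
      refine integral_mono_of_nonneg (Filter.Eventually.of_forall fun η => ?_) ?_
        (Filter.Eventually.of_forall fun η => ?_)
      · exact sq_nonneg _
      · exact integrable_const _
      · exact norm_kap_sub_one h0 h1 (h2.trans hξ.1.le) (hξ.2.trans h3)
    refine h4.trans (le_of_eq ?_)
    rw [setIntegral_const]
    simp [Real.pi_pos.le]
  have hII : II x₁ x₂ (fun ξ η => ‖kap a (pt ξ η) - 1‖ ^ 2) ≤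
      ∫ ξ in x₁..x₂, π * (8 * (Real.exp (4 * ξ) + 9 * (t ^ 4 * Real.exp (-(4 * ξ))))) := by
    unfold II
    rw [intervalIntegral.integral_of_le h12, intervalIntegral.integral_of_le h12]
    refine integral_mono_of_nonneg (Filter.Eventually.of_forall fun ξ => ?_) ?_ ?_
    · exact intervalIntegral.integral_nonneg Real.pi_pos.le fun η _ => sq_nonneg _
    · have hc : Continuous fun ξ : ℝ =>
          π * (8 * (Real.exp (4 * ξ) + 9 * (t ^ 4 * Real.exp (-(4 * ξ))))) := by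
        fun_prop
      exact (hc.integrableOn_Icc (a := x₁) (b := x₂)).mono_set Ioc_subset_Icc_self
    · exact (ae_restrict_iff' measurableSet_Ioc).2 (Filter.Eventually.of_forall hin)
  refine hII.trans ?_
  have hd : ∀ ξ : ℝ, HasDerivAt (fun ξ : ℝ => π * (8 * (Real.exp (4 * ξ) / 4 -
      9 * (t ^ 4 * (Real.exp (-(4 * ξ)) / 4)))))
      (π * (8 * (Real.exp (4 * ξ) + 9 * (t ^ 4 * Real.exp (-(4 * ξ)))))) ξ := by
    intro ξ
    have h5 : HasDerivAt (fun ξ : ℝ => Real.exp (4 * ξ)) (Real.exp (4 * ξ) * 4) ξ := by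
      simpa using ((hasDerivAt_id ξ).const_mul 4).exp
    have h6 : HasDerivAt (fun ξ : ℝ => Real.exp (-(4 * ξ))) (Real.exp (-(4 * ξ)) * (-4)) ξ := by
      simpa using (((hasDerivAt_id ξ).const_mul 4).neg).exp
    have h7 := (((h5.div_const 4).sub (((h6.div_const 4).const_mul (t ^ 4)).const_mul
      9)).const_mul 8).const_mul π
    refine h7.congr_deriv ?_
    ring
  rw [intervalIntegral.integral_eq_sub_of_hasDerivAt (fun ξ _ => hd ξ)]
  · have e1 : Real.exp (4 * x₂) ≤ 1 := by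
      rw [← Real.exp_zero]
      exact Real.exp_le_exp.2 (by (clear * - h3; linarith only [h3]))
    have e2 : t ^ 4 * Real.exp (-(4 * x₁)) ≤ 1 := by
      have h8 : t ^ 4 = Real.exp (4 * Real.log t) := by
        rw [mul_comm, Real.exp_mul, Real.exp_log ht]
        norm_cast
      rw [h8, ← Real.exp_add, ← Real.exp_zero]
      exact Real.exp_le_exp.2 (by (clear * - h0 h1 h2; linarith))
    have e3 : 0 < Real.exp (4 * x₁) := Real.exp_pos _
    have e4 : 0 < t ^ 4 * Real.exp (-(4 * x₂)) := by positivity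
    have hpi := Real.pi_pos
    have key : 8 * (Real.exp (4 * x₂) / 4 - 9 * (t ^ 4 * (Real.exp (-(4 * x₂)) / 4))) -
        8 * (Real.exp (4 * x₁) / 4 - 9 * (t ^ 4 * (Real.exp (-(4 * x₁)) / 4))) ≤
        8 * (1 / 4 + 9 * (1 / 4)) := by
      have e5 : t ^ 4 * (Real.exp (-(4 * x₂)) / 4) = t ^ 4 * Real.exp (-(4 * x₂)) / 4 := by ring
      have e6 : t ^ 4 * (Real.exp (-(4 * x₁)) / 4) = t ^ 4 * Real.exp (-(4 * x₁)) / 4 := by ring
      rw [e5, e6]
      (clear * - e1 e2 e3 e4; linarith only [e1, e2, e3, e4])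
    calc _ = π * (8 * (Real.exp (4 * x₂) / 4 - 9 * (t ^ 4 * (Real.exp (-(4 * x₂)) / 4))) -
        8 * (Real.exp (4 * x₁) / 4 - 9 * (t ^ 4 * (Real.exp (-(4 * x₁)) / 4)))) := by ring
      _ ≤ _ := mul_le_mul_of_nonneg_left key hpi.le
  · have hc : Continuous fun ξ : ℝ =>
        π * (8 * (Real.exp (4 * ξ) + 9 * (t ^ 4 * Real.exp (-(4 * ξ))))) := by
      fun_prop
    exact hc.intervalIntegrable _ _

end Pool.Agent.Helper16.EK

end

section

namespace Pool.Agent.Helper52.EK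
end Pool.Agent.Helper52.EK

/-!
# Project EK, E4d: from the pointwise inequality to the integrated one

The theorem `strip_aux` has the null Lagrangian identities and the cut-off function as hypotheses.
-/

set_option autoImplicit false

open Complex MeasureTheory Metric Set

open scoped Real ComplexConjugate

namespace Pool.Agent.Helper44.EK

open Pool.Agent.Helper52.EK

/-- The closed rectangle in the plane. -/
def RR (x₁ x₂ : ℝ) : Set (ℝ × ℝ) := Icc x₁ x₂ ×ˢ Icc 0 π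

/-- Continuity on the closed rectangle. -/
def CO (x₁ x₂ : ℝ) (F : ℝ → ℝ → ℝ) : Prop :=
  ContinuousOn (fun p : ℝ × ℝ => F p.1 p.2) (RR x₁ x₂)

theorem isCompact_RR (x₁ x₂ : ℝ) : IsCompact (RR x₁ x₂) := isCompact_Icc.prod isCompact_Icc

theorem measurableSet_RR (x₁ x₂ : ℝ) : MeasurableSet (RR x₁ x₂) :=
  measurableSet_Icc.prod measurableSet_Icc

theorem CO.integrableOn {x₁ x₂ : ℝ} {F : ℝ → ℝ → ℝ} (h : CO x₁ x₂ F) :
    IntegrableOn (fun p : ℝ × ℝ => F p.1 p.2) (RR x₁ x₂) :=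
  ContinuousOn.integrableOn_compact (isCompact_RR x₁ x₂) h

theorem II_eq {x₁ x₂ : ℝ} (hx : x₁ ≤ x₂) {F : ℝ → ℝ → ℝ} (hF : CO x₁ x₂ F) :
    II x₁ x₂ F = ∫ p in RR x₁ x₂, F p.1 p.2 := by
  have h1 : ∫ p in RR x₁ x₂, F p.1 p.2 = ∫ ξ in Icc x₁ x₂, ∫ η in Icc (0:ℝ) π, F ξ η := by
    have h2 := hF.integrableOn
    rw [Measure.volume_eq_prod] at h2 ⊢
    exact setIntegral_prod _ h2
  rw [h1]
  unfold II
  rw [intervalIntegral.integral_of_le hx, ← integral_Icc_eq_integral_Ioc]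
  refine setIntegral_congr_fun measurableSet_Icc fun ξ _ => ?_
  rw [intervalIntegral.integral_of_le Real.pi_pos.le, ← integral_Icc_eq_integral_Ioc]

theorem II_mono {x₁ x₂ : ℝ} (hx : x₁ ≤ x₂) {F G : ℝ → ℝ → ℝ} (hF : CO x₁ x₂ F)
    (hG : CO x₁ x₂ G) (h : ∀ ξ ∈ Icc x₁ x₂, ∀ η ∈ Icc (0:ℝ) π, F ξ η ≤ G ξ η) :
    II x₁ x₂ F ≤ II x₁ x₂ G := by
  rw [II_eq hx hF, II_eq hx hG]
  exact setIntegral_mono_on hF.integrableOn hG.integrableOn (measurableSet_RR _ _)
    fun p hp => h p.1 hp.1 p.2 hp.2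

end Pool.Agent.Helper44.EK

end

section

set_option autoImplicit false

open Complex MeasureTheory Metric Set

open scoped Real ComplexConjugate

namespace Pool.Agent.Helper52.EK

noncomputable def uu (ρ : ℝ → ℝ) (t θ : ℝ) : ℝ :=
  (2 * π)⁻¹ * ∫ α in (0:ℝ)..(2 * π), Pk (Complex.exp (α * I)) (ep t θ) * ρ α

noncomputable def AA (ρ : ℝ → ℝ) (t : ℝ) : ℝ :=
  (2 * π)⁻¹ * ∫ θ in (-π)..π, uu ρ t θ * Real.log (uu ρ t θ)

/-- a probability density on the circle -/
structure Dens (ρ : ℝ → ℝ) : Prop where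
  cont : Continuous ρ
  pos : ∀ α, 0 < ρ α
  per : Function.Periodic ρ (2 * π)
  one : ∫ α in (0:ℝ)..(2 * π), ρ α = 2 * π

noncomputable def ut (ρ : ℝ → ℝ) (t θ : ℝ) : ℝ := deriv (fun t' => uu ρ t' θ) t

noncomputable def uth (ρ : ℝ → ℝ) (t θ : ℝ) : ℝ := deriv (fun θ' => uu ρ t θ') θ

noncomputable def A1 (ρ : ℝ → ℝ) (t : ℝ) : ℝ :=
  (2 * π)⁻¹ * ∫ θ in (-π)..π, (1 + Real.log (uu ρ t θ)) * ut ρ t θ

noncomputable def A2 (ρ : ℝ → ℝ) (t : ℝ) : ℝ :=
  (2 * π)⁻¹ * ∫ θ in (-π)..π, (ut ρ t θ ^ 2 + uth ρ t θ ^ 2) / uu ρ t θ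

/-- the double average of the loss at height t -/
noncomputable def kk (ρ : ℝ → ℝ) (w : ℂ → ℂ) (t : ℝ) : ℝ :=
  (2 * π)⁻¹ * ∫ θ in (-π)..π, (2 * π)⁻¹ * ∫ α in (0:ℝ)..(2 * π),
    ρ α * (Pk (Complex.exp (α * I)) (ep t θ) *
      ‖ee (Complex.exp (α * I)) (ep t θ) - w (ep t θ)‖ ^ 2 / Real.sinh t ^ 2)

end Pool.Agent.Helper52.EK

end

section

namespace Pool.Agent.Helper52.EK
end Pool.Agent.Helper52.EK

set_option autoImplicit false

open Complex MeasureTheory Metric Set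

open scoped Real ComplexConjugate

namespace Pool.Agent.Helper73.EK

open Pool.Agent.Helper52.EK

theorem norm_cis (α : ℝ) : ‖Complex.exp (α * I)‖ = 1 := Complex.norm_exp_ofReal_mul_I α

theorem ep_eq (t θ : ℝ) : ep t θ = (Real.exp t : ℂ) * Complex.exp (θ * I) := by
  unfold ep
  rw [Complex.exp_add, Complex.ofReal_exp]

theorem norm_ep (t θ : ℝ) : ‖ep t θ‖ = Real.exp t := by
  rw [ep_eq, norm_mul, norm_cis, mul_one, Complex.norm_real, Real.norm_eq_abs,
    abs_of_pos (Real.exp_pos t)]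

theorem norm_ep_lt {t : ℝ} (ht : t < 0) (θ : ℝ) : ‖ep t θ‖ < 1 := by
  rw [norm_ep]
  rw [← Real.exp_zero]
  exact Real.exp_lt_exp.2 ht

theorem Pk_pos {ζ z : ℂ} (hζ : ‖ζ‖ = 1) (hz : ‖z‖ < 1) : 0 < Pk ζ z := by
  unfold Pk
  have h1 : ζ - z ≠ 0 := by
    intro h
    rw [sub_eq_zero] at h
    rw [← h, hζ] at hz
    exact lt_irrefl _ hz
  have h2 : 0 < ‖ζ - z‖ := norm_pos_iff.2 h1
  have h3 : ‖z‖ ^ 2 < 1 := by
    have := norm_nonneg z
    nlinarith only [hz, this]
  exact div_pos (by (clear * - h3; linarith)) (by positivity)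

theorem sub_ne_zero_of {ζ z : ℂ} (hζ : ‖ζ‖ = 1) (hz : ‖z‖ < 1) : ζ - z ≠ 0 := by
  intro h
  rw [sub_eq_zero] at h
  rw [← h, hζ] at hz
  exact lt_irrefl _ hz

/-- The mean of the Poisson kernel over the boundary points. -/
theorem integral_Pk {z : ℂ} (hz : ‖z‖ < 1) :
    ∫ α in (0:ℝ)..(2 * π), Pk (Complex.exp (α * I)) z = 2 * π := by
  have hf : DiffContOnCl ℂ (fun _ : ℂ => (1:ℂ)) (ball 0 1) := diffContOnCl_const
  have h1 := hf.circleAverage_poissonKernel_smul (w := z) (by simpa using hz)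
  have h2 : ∀ θ : ℝ, (poissonKernel 0 z • fun _ : ℂ => (1:ℂ)) (circleMap 0 1 θ) =
      ((Pk (Complex.exp (θ * I)) z : ℝ) : ℂ) := by
    intro θ
    have h3 : circleMap 0 1 θ = Complex.exp (θ * I) := by simp [circleMap]
    rw [h3]
    simp only [Pi.smul_apply', poissonKernel, Pk, sub_zero, norm_cis, one_pow]
    simp
  rw [Real.circleAverage_def] at h1
  simp_rw [h2] at h1
  rw [intervalIntegral.integral_ofReal] at h1
  have h4 : ((2 * π)⁻¹ * ∫ α in (0:ℝ)..(2 * π), Pk (Complex.exp (α * I)) z : ℝ) = 1 := by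
    have h5 := congrArg Complex.re h1
    simpa using h5
  have hpi : (0:ℝ) < 2 * π := by positivity
  field_simp at h4
  exact h4

theorem norm_symm (t α θ : ℝ) : ‖Complex.exp (α * I) - ep t θ‖ = ‖Complex.exp (θ * I) - ep t α‖ := by
  have h1 : Complex.exp (α * I) - ep t θ =
      (Complex.exp (α * I) * Complex.exp (θ * I)) * conj (Complex.exp (θ * I) - ep t α) := by
    have e1 : ∀ β : ℝ, conj (Complex.exp (β * I)) = (Complex.exp (β * I))⁻¹ := by
      intro β
      rw [← Complex.exp_conj, ← Complex.exp_neg]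
      congr 1
      simp
    rw [ep_eq, ep_eq, map_sub, map_mul, e1, e1, Complex.conj_ofReal]
    have n1 := Complex.exp_ne_zero (α * I)
    have n2 := Complex.exp_ne_zero (θ * I)
    (clear * - n1; field_simp)
  rw [h1, norm_mul, norm_mul, norm_cis, norm_cis, one_mul, one_mul, Complex.norm_conj]

/-- The symmetry of the Poisson kernel. -/
theorem Pk_symm (t α θ : ℝ) :
    Pk (Complex.exp (α * I)) (ep t θ) = Pk (Complex.exp (θ * I)) (ep t α) := by
  unfold Pk
  rw [norm_symm, norm_ep, norm_ep]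

/-- The Poisson kernel is continuous. -/
theorem continuous_Pk {t : ℝ} (ht : t < 0) :
    Continuous fun p : ℝ × ℝ => Pk (Complex.exp (p.1 * I)) (ep t p.2) := by
  unfold Pk
  have h1 : Continuous fun p : ℝ × ℝ => ep t p.2 := by
    unfold ep
    fun_prop
  refine Continuous.div (by fun_prop) (by fun_prop) fun p => ?_
  have h2 := sub_ne_zero_of (norm_cis p.1) (norm_ep_lt ht p.2)
  (clear * - h2; positivity)

theorem Pk_per (ζ : ℂ) (t : ℝ) : Function.Periodic (fun θ : ℝ => Pk ζ (ep t θ)) (2 * π) := by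
  intro θ
  have h1 : ep t (θ + 2 * π) = ep t θ := by
    unfold ep
    push_cast
    rw [add_mul, ← add_assoc]
    exact Complex.exp_periodic _
  simp only [h1]

/-- The mean of the Poisson kernel over the circle of radius `e^t`. -/
theorem integral_Pk' {t : ℝ} (ht : t < 0) (α : ℝ) :
    ∫ θ in (-π)..π, Pk (Complex.exp (α * I)) (ep t θ) = 2 * π := by
  have h1 := (Pk_per (Complex.exp (α * I)) t).intervalIntegral_add_eq (-π) 0
  rw [show -π + 2 * π = π by ring, zero_add] at h1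
  rw [h1]
  refine Eq.trans ?_ (integral_Pk (norm_ep_lt ht α))
  exact intervalIntegral.integral_congr fun θ _ => Pk_symm t α θ

end Pool.Agent.Helper73.EK

end
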