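import Mathlib
import Pool.Agent.Helper60.BE.T01

set_option linter.all false

section

namespace Pool.Agent.Helper52.EK
end Pool.Agent.Helper52.EK

set_option autoImplicit false

open Complex

open scoped ComplexConjugate

namespace Pool.Agent.Helper2.EK

open Pool.Agent.Helper52.EK

theorem c1_congr {W Wx Wy W' Wx' Wy' : ℂ → ℝ} (h : C1f W Wx Wy) (e : ∀ X, W' X = W X)
    (ex : ∀ X, Wx' X = Wx X) (ey : ∀ X, Wy' X = Wy X) : C1f W' Wx' Wy' := by
  obtain rfl : W' = W := funext e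
  obtain rfl : Wx' = Wx := funext ex
  obtain rfl : Wy' = Wy := funext ey
  exact h

theorem c1_const (c : ℝ) : C1f (fun _ => c) (fun _ => 0) (fun _ => 0) := by
  refine ⟨fun X => ?_, continuous_const, continuous_const⟩
  simpa using hasFDerivAt_const c X

theorem c1_re : C1f (fun X => X.re) (fun _ => 1) (fun _ => 0) := by
  refine ⟨fun X => ?_, continuous_const, continuous_const⟩
  have h : HasFDerivAt (fun X : ℂ => X.re) reCLM X := reCLM.hasFDerivAt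
  refine h.congr_fderiv ?_
  ext1 v
  simp

theorem c1_im : C1f (fun X => X.im) (fun _ => 0) (fun _ => 1) := by
  refine ⟨fun X => ?_, continuous_const, continuous_const⟩
  have h : HasFDerivAt (fun X : ℂ => X.im) imCLM X := imCLM.hasFDerivAt
  refine h.congr_fderiv ?_
  ext1 v
  simp

theorem C1f_cont {W Wx Wy : ℂ → ℝ} (h : C1f W Wx Wy) : Continuous W :=
  continuous_iff_continuousAt.2 fun X => (h.hd X).continuousAt

theorem c1_add {A Ax Ay B Bx By : ℂ → ℝ} (hA : C1f A Ax Ay) (hB : C1f B Bx By) :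
    C1f (fun X => A X + B X) (fun X => Ax X + Bx X) (fun X => Ay X + By X) := by
  refine ⟨fun X => ?_, hA.cx.add hB.cx, hA.cy.add hB.cy⟩
  refine ((hA.hd X).add (hB.hd X)).congr_fderiv ?_
  ext1 v
  simp
  ring

theorem c1_sub {A Ax Ay B Bx By : ℂ → ℝ} (hA : C1f A Ax Ay) (hB : C1f B Bx By) :
    C1f (fun X => A X - B X) (fun X => Ax X - Bx X) (fun X => Ay X - By X) := by
  refine ⟨fun X => ?_, hA.cx.sub hB.cx, hA.cy.sub hB.cy⟩
  refine ((hA.hd X).sub (hB.hd X)).congr_fderiv ?_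
  ext1 v
  simp
  ring

theorem c1_mul {A Ax Ay B Bx By : ℂ → ℝ} (hA : C1f A Ax Ay) (hB : C1f B Bx By) :
    C1f (fun X => A X * B X) (fun X => Ax X * B X + A X * Bx X)
      (fun X => Ay X * B X + A X * By X) := by
  refine ⟨fun X => ?_, (hA.cx.mul (C1f_cont hB)).add ((C1f_cont hA).mul hB.cx),
    (hA.cy.mul (C1f_cont hB)).add ((C1f_cont hA).mul hB.cy)⟩
  refine ((hA.hd X).mul (hB.hd X)).congr_fderiv ?_
  ext1 v
  simp
  ring

theorem c1_inv {B Bx By : ℂ → ℝ} (hB : C1f B Bx By) (h0 : ∀ X, B X ≠ 0) :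
    C1f (fun X => (B X)⁻¹) (fun X => -Bx X / B X ^ 2) (fun X => -By X / B X ^ 2) := by
  refine ⟨fun X => ?_, hB.cx.neg.div₀ ((C1f_cont hB).pow 2) fun X => pow_ne_zero 2 (h0 X),
    hB.cy.neg.div₀ ((C1f_cont hB).pow 2) fun X => pow_ne_zero 2 (h0 X)⟩
  refine ((hasDerivAt_inv (h0 X)).comp_hasFDerivAt X (hB.hd X)).congr_fderiv ?_
  ext1 v
  simp
  ring

end Pool.Agent.Helper2.EK

end

section

/-!
Arithmetic of bivariate integer polynomials given as lists of lists.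
-/

namespace Pool.EK71

/-- bivariate polynomials: row `i` is the coefficient of `x^i`, a polynomial in `y` -/
abbrev BP := List (List ℤ)

def ad1 : List ℤ → List ℤ → List ℤ
  | [], q => q
  | a :: p, [] => a :: p
  | a :: p, b :: q => Int.add a b :: ad1 p q

def ad2 : BP → BP → BP
  | [], Q => Q
  | r :: P, [] => r :: P
  | r :: P, s :: Q => ad1 r s :: ad2 P Q

def sm1 (c : ℤ) : List ℤ → List ℤ
  | [] => []
  | a :: p => Int.mul c a :: sm1 c p

def sm2 (c : ℤ) : BP → BP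
  | [] => []
  | r :: P => sm1 c r :: sm2 c P

def mu1 : List ℤ → List ℤ → List ℤ
  | [], _ => []
  | a :: p, q => ad1 (sm1 a q) (0 :: mu1 p q)

/-- product of a polynomial in `y` and a bivariate one -/
def mr (r : List ℤ) : BP → BP
  | [] => []
  | s :: Q => mu1 r s :: mr r Q

def mu2 : BP → BP → BP
  | [], _ => []
  | r :: P, Q => ad2 (mr r Q) ([] :: mu2 P Q)

/-- `d/dy` of a polynomial in `y`, first argument: index -/
def dy1 : ℕ → List ℤ → List ℤ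
  | _, [] => []
  | n, a :: p => Int.mul (Int.ofNat n) a :: dy1 (n + 1) p

def dyr : List ℤ → List ℤ
  | [] => []
  | _ :: p => dy1 1 p

def dY : BP → BP
  | [] => []
  | r :: P => dyr r :: dY P

def dx1 : ℕ → BP → BP
  | _, [] => []
  | n, r :: P => sm1 (Int.ofNat n) r :: dx1 (n + 1) P

def dX : BP → BP
  | [] => []
  | _ :: P => dx1 1 P

lemma ev1_ad (y : ℝ) (p q : List ℤ) : ev1 y (ad1 p q) = ev1 y p + ev1 y q := by
  induction p generalizing q with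
  | nil => simp [ad1, ev1]
  | cons a p ih =>
    cases q with
    | nil => simp [ad1, ev1]
    | cons b q =>
      simp only [ad1, ev1, ih]
      have : ((Int.add a b : ℤ) : ℝ) = a + b := by
        show (((a + b : ℤ)) : ℝ) = _
        push_cast; ring
      rw [this]; ring

lemma ev2_ad (x y : ℝ) (P Q : BP) : ev2 x y (ad2 P Q) = ev2 x y P + ev2 x y Q := by
  induction P generalizing Q with
  | nil => simp [ad2, ev2]
  | cons a p ih =>
    cases Q with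
    | nil => simp [ad2, ev2]
    | cons b q => simp only [ad2, ev2, ih, ev1_ad]; ring

lemma imul_cast (a b : ℤ) : ((Int.mul a b : ℤ) : ℝ) = a * b := by
  show (((a * b : ℤ)) : ℝ) = _
  push_cast; ring

lemma ev1_sm (y : ℝ) (c : ℤ) (p : List ℤ) : ev1 y (sm1 c p) = c * ev1 y p := by
  induction p with
  | nil => simp [sm1, ev1]
  | cons a p ih => simp only [sm1, ev1, ih, imul_cast]; ring

lemma ev2_sm (x y : ℝ) (c : ℤ) (P : BP) : ev2 x y (sm2 c P) = c * ev2 x y P := by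
  induction P with
  | nil => simp [sm2, ev2]
  | cons a p ih => simp only [sm2, ev2, ih, ev1_sm]; ring

lemma ev1_mu (y : ℝ) (p q : List ℤ) : ev1 y (mu1 p q) = ev1 y p * ev1 y q := by
  induction p with
  | nil => simp [mu1, ev1]
  | cons a p ih => simp only [mu1, ev1_ad, ev1_sm, ev1, ih, Int.cast_zero]; ring

lemma ev2_mr (x y : ℝ) (r : List ℤ) (Q : BP) : ev2 x y (mr r Q) = ev1 y r * ev2 x y Q := by
  induction Q with
  | nil => simp [mr, ev2]
  | cons a p ih => simp only [mr, ev2, ih, ev1_mu]; ring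

lemma ev2_mu (x y : ℝ) (P Q : BP) : ev2 x y (mu2 P Q) = ev2 x y P * ev2 x y Q := by
  induction P with
  | nil => simp [mu2, ev2]
  | cons a p ih => simp only [mu2, ev2_ad, ev2_mr, ev2, ih, ev1]; ring

lemma dy1_ev (n : ℕ) (y : ℝ) (p : List ℤ) :
    ev1 y (dy1 (n + 1) p) = (n + 1) * ev1 y p + y * ev1 y (dyr p) := by
  induction p generalizing n with
  | nil => simp [dy1, dyr, ev1]
  | cons a p ih =>
    have h1 := ih (n + 1)
    have h0 := ih 0
    simp only [dy1, dyr, ev1, imul_cast] at h1 h0 ⊢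
    rw [h1, show dy1 1 p = dy1 (0 + 1) p from rfl, h0]
    push_cast
    have : ((Int.ofNat (n + 1) : ℤ) : ℝ) = n + 1 := by
      show (((n + 1 : ℕ) : ℤ) : ℝ) = _
      push_cast; ring
    rw [this]; ring

lemma dyr_ev (y : ℝ) (a : ℤ) (p : List ℤ) :
    ev1 y (dyr (a :: p)) = ev1 y p + y * ev1 y (dyr p) := by
  have := dy1_ev 0 y p
  simp only [dyr] at this ⊢
  rw [show dy1 1 p = dy1 (0 + 1) p from rfl, this]; push_cast; ring

lemma dx1_ev (n : ℕ) (x y : ℝ) (P : BP) :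
    ev2 x y (dx1 (n + 1) P) = (n + 1) * ev2 x y P + x * ev2 x y (dX P) := by
  induction P generalizing n with
  | nil => simp [dx1, dX, ev2]
  | cons a p ih =>
    have h1 := ih (n + 1)
    have h0 := ih 0
    simp only [dx1, dX, ev2, ev1_sm] at h1 h0 ⊢
    rw [h1, show dx1 1 p = dx1 (0 + 1) p from rfl, h0]
    push_cast
    have : ((Int.ofNat (n + 1) : ℤ) : ℝ) = n + 1 := by
      show (((n + 1 : ℕ) : ℤ) : ℝ) = _
      push_cast; ring
    rw [this]; ring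

lemma dX_ev (x y : ℝ) (r : List ℤ) (P : BP) :
    ev2 x y (dX (r :: P)) = ev2 x y P + x * ev2 x y (dX P) := by
  have := dx1_ev 0 x y P
  simp only [dX] at this ⊢
  rw [show dx1 1 P = dx1 (0 + 1) P from rfl, this]; push_cast; ring

open Pool.Agent.Helper52.EK Pool.Agent.Helper2.EK in
lemma c1_ev1 (p : List ℤ) : C1f (fun X : ℂ => ev1 X.im p) (fun _ => 0)
    (fun X => ev1 X.im (dyr p)) := by
  induction p with
  | nil =>
    refine c1_congr (c1_const 0) (fun X => ?_) (fun X => ?_) (fun X => ?_)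
    · simp [ev1]
    · rfl
    · simp [dyr, ev1]
  | cons a p ih =>
    refine c1_congr (c1_add (c1_const (a : ℝ)) (c1_mul c1_im ih)) (fun X => ?_) (fun X => ?_)
      (fun X => ?_)
    · simp only [ev1]
    · ring
    · rw [dyr_ev]; ring

end Pool.EK71

end

section

namespace Pool.EK71
end Pool.EK71
namespace Pool.Agent.Helper52.EK
end Pool.Agent.Helper52.EK
namespace Pool.Agent.Helper2.EK
end Pool.Agent.Helper2.EK
namespace Pool.Agent.Helper71.EK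
end Pool.Agent.Helper71.EK

/-!
Certificates given by integer lists: the potentials, their derivatives and bounds, and the
polynomials of the two conditions.
-/

set_option autoImplicit false

open Complex

namespace Pool.Agent.Helper71.EKC

open Pool.EK71 Pool.Agent.Helper52.EK Pool.Agent.Helper2.EK Pool.Agent.Helper71.EK

def sb2 (P Q : BP) : BP := ad2 P (sm2 (-1) Q)

def pw2 (P : BP) : ℕ → BP
  | 0 => [[1]]
  | n + 1 => mu2 P (pw2 P n)

section ev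

variable (x y : ℝ)

lemma e_sb (P Q : BP) : ev2 x y (sb2 P Q) = ev2 x y P - ev2 x y Q := by
  rw [sb2, ev2_ad, ev2_sm]; push_cast; ring

lemma e_pw (P : BP) (n : ℕ) : ev2 x y (pw2 P n) = ev2 x y P ^ n := by
  induction n with
  | zero => simp [pw2, ev2, ev1]
  | succ n ih => rw [pw2, ev2_mu, ih]; ring

end ev

lemma c1_unique {A Ax Ay Bx By : ℂ → ℝ} (h : C1f A Ax Ay) (h' : C1f A Bx By) (X : ℂ) :
    Ax X = Bx X ∧ Ay X = By X := by
  have e := (h.hd X).unique (h'.hd X)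
  have e1 := DFunLike.congr_fun e 1
  have e2 := DFunLike.congr_fun e I
  simp at e1 e2
  exact ⟨e1, e2⟩

namespace CD

end CD

end Pool.Agent.Helper71.EKC

end

section

namespace Pool.EK71
end Pool.EK71
namespace Pool.Agent.Helper52.EK
end Pool.Agent.Helper52.EK
namespace Pool.Agent.Helper2.EK
end Pool.Agent.Helper2.EK
namespace Pool.Agent.Helper71.EK
end Pool.Agent.Helper71.EK
namespace Pool.Agent.Helper71.EKC
end Pool.Agent.Helper71.EKC

/-!
Certificates given by integer lists, centred at `X = 1`: the potentials, their derivatives,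
and the polynomials of one condition.
-/

set_option autoImplicit false

open Complex

namespace Pool.Agent.Helper71.EK3

open Pool.EK71 Pool.Agent.Helper52.EK Pool.Agent.Helper2.EK Pool.Agent.Helper71.EK

open Pool.Agent.Helper71.EKC (c1_unique sb2 pw2 e_sb e_pw)

def xL : BP := [[1], [1]]

def yL : BP := [[0, 1]]

def r2L : BP := [[1, 0, 1], [2], [1]]

def FL : BP := [[0, 0, 1], [], [1]]

def G2L : BP := [[0, 0, -1], [], [1]]

section ev

variable (u y : ℝ)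

lemma e_x : ev2 u y xL = 1 + u := by simp [ev2, ev1, xL]

lemma e_y : ev2 u y yL = y := by simp [ev2, ev1, yL]

lemma e_r2 : ev2 u y r2L = (1 + u) ^ 2 + y ^ 2 := by simp [ev2, ev1, r2L]; ring

lemma e_F : ev2 u y FL = u ^ 2 + y ^ 2 := by simp [ev2, ev1, FL]; ring

lemma e_G2 : ev2 u y G2L = u ^ 2 - y ^ 2 := by simp [ev2, ev1, G2L]; ring

end ev

lemma c1_sh (P : BP) : C1f (fun X : ℂ => ev2 (X.re - 1) X.im P)
    (fun X => ev2 (X.re - 1) X.im (dX P)) (fun X => ev2 (X.re - 1) X.im (dY P)) := by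
  induction P with
  | nil =>
    refine c1_congr (c1_const 0) (fun X => ?_) (fun X => ?_) (fun X => ?_)
    · simp [ev2]
    · simp [dX, ev2]
    · simp [dY, ev2]
  | cons r P ih =>
    refine c1_congr (c1_add (c1_ev1 r) (c1_mul (c1_sub c1_re (c1_const 1)) ih)) (fun X => ?_)
      (fun X => ?_) (fun X => ?_)
    · simp only [ev2]
    · rw [dX_ev]; ring
    · simp only [dY, ev2]; ring

namespace C3

section cnd

variable (m : ℤ) (R Nu : BP)

end cnd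

section val

variable (u y : ℝ)

end val

end C3

end Pool.Agent.Helper71.EK3

end

section

namespace Pool.Agent.Helper52.EK
end Pool.Agent.Helper52.EK

set_option autoImplicit false

open Complex MeasureTheory Metric Set

open scoped Real ComplexConjugate

namespace Pool.Agent.Helper78.EK

open Pool.Agent.Helper52.EK

theorem continuous_pt : Continuous (fun p : ℝ × ℝ => pt p.1 p.2) := by
  unfold pt
  fun_prop

end Pool.Agent.Helper78.EK

end

section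

namespace Pool.Agent.Helper52.EK
end Pool.Agent.Helper52.EK
namespace Pool.Agent.Helper78.EK
end Pool.Agent.Helper78.EK
namespace Pool.Agent.Helper4.EK
end Pool.Agent.Helper4.EK

set_option autoImplicit false

open Complex MeasureTheory Metric Set

open scoped Real ComplexConjugate

namespace Pool.Agent.Helper69.EK3

open Pool.Agent.Helper52.EK Pool.Agent.Helper78.EK Pool.Agent.Helper4.EK

/-- the closed rectangle `x₁ ≤ ξ ≤ x₂`, `0 ≤ η ≤ h` -/
def RectH (x₁ x₂ h : ℝ) : Set ℂ := Icc x₁ x₂ ×ℂ Icc 0 h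

/-- double integral over the rectangle `x₁ ≤ ξ ≤ x₂`, `0 ≤ η ≤ h` -/
noncomputable def IH (x₁ x₂ h : ℝ) (F : ℝ → ℝ → ℝ) : ℝ := ∫ ξ in x₁..x₂, ∫ η in (0:ℝ)..h, F ξ η

/-- the derivative of `U ∘ X` in the direction of `η` -/
noncomputable def dEta (Ux Uy : ℂ → ℝ) (X Y : ℂ) : ℝ := -Ux X * Y.im + Uy X * Y.re

theorem pt_mem_RectH {x₁ x₂ h ξ η : ℝ} (h1 : ξ ∈ Icc x₁ x₂) (h2 : η ∈ Icc 0 h) :
    pt ξ η ∈ RectH x₁ x₂ h := by
  constructor
  · simpa [pt] using h1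
  · simpa [pt] using h2

theorem contH {X : ℂ → ℂ} {x₁ x₂ h : ℝ} (hX : ContinuousOn X (RectH x₁ x₂ h)) :
    ContinuousOn (fun p : ℝ × ℝ => X (pt p.1 p.2)) (Icc x₁ x₂ ×ˢ Icc 0 h) :=
  hX.comp Pool.Agent.Helper78.EK.continuous_pt.continuousOn fun _ hp => pt_mem_RectH hp.1 hp.2

end Pool.Agent.Helper69.EK3

end

section

/-!
# Project EK, E4c: a cut-off function with two bounded derivatives
-/

set_option autoImplicit false

open Set

open scoped Real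

namespace Pool.Agent.Helper56.EK

theorem bounded_of_zero_outside {f : ℝ → ℝ} (hf : Continuous f)
    (h0 : ∀ t, t < 0 → f t = 0) (h1 : ∀ t, 1 < t → f t = 0) : ∃ M : ℝ, ∀ t, |f t| ≤ M := by
  obtain ⟨M, hM⟩ := (isCompact_Icc (a := (0:ℝ)) (b := 1)).exists_bound_of_continuousOn
    hf.continuousOn
  refine ⟨M, fun t => ?_⟩
  have hM0 : 0 ≤ M := (norm_nonneg _).trans (hM 0 ⟨le_refl _, zero_le_one⟩)
  rcases lt_or_ge t 0 with h | h
  · rw [h0 t h, abs_zero]; exact hM0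
  rcases lt_or_ge 1 t with h' | h'
  · rw [h1 t h', abs_zero]; exact hM0
  · have := hM t ⟨h, h'⟩
    rwa [Real.norm_eq_abs] at this

theorem deriv_zero_left {f : ℝ → ℝ} {c : ℝ} (h0 : ∀ t, t < 0 → f t = c) :
    ∀ t, t < 0 → deriv f t = 0 := by
  intro t ht
  have h : f =ᶠ[nhds t] fun _ => c := by
    filter_upwards [Iio_mem_nhds ht] with s hs using h0 s hs
  rw [h.deriv_eq, deriv_const]

theorem deriv_zero_right {f : ℝ → ℝ} {c : ℝ} (h1 : ∀ t, 1 < t → f t = c) :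
    ∀ t, 1 < t → deriv f t = 0 := by
  intro t ht
  have h : f =ᶠ[nhds t] fun _ => c := by
    filter_upwards [Ioi_mem_nhds ht] with s hs using h1 s hs
  rw [h.deriv_eq, deriv_const]

end Pool.Agent.Helper56.EK

end

section

namespace Pool.Agent.Helper52.EK
end Pool.Agent.Helper52.EK

set_option autoImplicit false

open Complex MeasureTheory Metric Set

open scoped Real ComplexConjugate

namespace Pool.Agent.Helper69.EK3

open Pool.Agent.Helper52.EK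

/-- continuity on the closed rectangle `x₁ ≤ ξ ≤ x₂`, `0 ≤ η ≤ h` -/
def CH (x₁ x₂ h : ℝ) (F : ℝ → ℝ → ℝ) : Prop :=
  ContinuousOn (fun p : ℝ × ℝ => F p.1 p.2) (Icc x₁ x₂ ×ˢ Icc 0 h)

theorem CH.add {x₁ x₂ h : ℝ} {F G : ℝ → ℝ → ℝ} (hF : CH x₁ x₂ h F) (hG : CH x₁ x₂ h G) :
    CH x₁ x₂ h (fun ξ η => F ξ η + G ξ η) := ContinuousOn.add hF hG

theorem CH.sub {x₁ x₂ h : ℝ} {F G : ℝ → ℝ → ℝ} (hF : CH x₁ x₂ h F) (hG : CH x₁ x₂ h G) :
    CH x₁ x₂ h (fun ξ η => F ξ η - G ξ η) := ContinuousOn.sub hF hG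

theorem CH.mul {x₁ x₂ h : ℝ} {F G : ℝ → ℝ → ℝ} (hF : CH x₁ x₂ h F) (hG : CH x₁ x₂ h G) :
    CH x₁ x₂ h (fun ξ η => F ξ η * G ξ η) := ContinuousOn.mul hF hG

theorem CH.neg {x₁ x₂ h : ℝ} {F : ℝ → ℝ → ℝ} (hF : CH x₁ x₂ h F) :
    CH x₁ x₂ h (fun ξ η => - F ξ η) := ContinuousOn.neg hF

theorem CH_const {x₁ x₂ h : ℝ} (c : ℝ) : CH x₁ x₂ h (fun _ _ => c) := continuousOn_const

theorem CH_xi {x₁ x₂ h : ℝ} {f : ℝ → ℝ} (hf : Continuous f) : CH x₁ x₂ h (fun ξ _ => f ξ) :=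
  (hf.comp continuous_fst).continuousOn

theorem CH_comp {x₁ x₂ h : ℝ} {X : ℂ → ℂ} (hX : ContinuousOn X (RectH x₁ x₂ h)) {W : ℂ → ℝ}
    (hW : Continuous W) : CH x₁ x₂ h (fun ξ η => W (X (pt ξ η))) :=
  hW.comp_continuousOn (contH hX)

theorem CH.integrableOn {x₁ x₂ h : ℝ} {F : ℝ → ℝ → ℝ} (hF : CH x₁ x₂ h F) :
    IntegrableOn (fun p : ℝ × ℝ => F p.1 p.2) (Icc x₁ x₂ ×ˢ Icc 0 h) :=
  ContinuousOn.integrableOn_compact (isCompact_Icc.prod isCompact_Icc) hF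

theorem IH_eq {x₁ x₂ h : ℝ} (hx : x₁ ≤ x₂) (hh : 0 ≤ h) {F : ℝ → ℝ → ℝ} (hF : CH x₁ x₂ h F) :
    IH x₁ x₂ h F = ∫ p in Icc x₁ x₂ ×ˢ Icc 0 h, F p.1 p.2 := by
  have h1 : ∫ p in Icc x₁ x₂ ×ˢ Icc 0 h, F p.1 p.2 =
      ∫ ξ in Icc x₁ x₂, ∫ η in Icc (0:ℝ) h, F ξ η := by
    have h2 := hF.integrableOn
    rw [Measure.volume_eq_prod] at h2 ⊢
    exact setIntegral_prod _ h2
  rw [h1]
  unfold IH
  rw [intervalIntegral.integral_of_le hx, ← integral_Icc_eq_integral_Ioc]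
  refine setIntegral_congr_fun measurableSet_Icc fun ξ _ => ?_
  rw [intervalIntegral.integral_of_le hh, ← integral_Icc_eq_integral_Ioc]

theorem IH_add {x₁ x₂ h : ℝ} (hx : x₁ ≤ x₂) (hh : 0 ≤ h) {F G : ℝ → ℝ → ℝ}
    (hF : CH x₁ x₂ h F) (hG : CH x₁ x₂ h G) :
    IH x₁ x₂ h (fun ξ η => F ξ η + G ξ η) = IH x₁ x₂ h F + IH x₁ x₂ h G := by
  rw [IH_eq hx hh (hF.add hG), IH_eq hx hh hF, IH_eq hx hh hG]
  exact integral_add hF.integrableOn hG.integrableOn

theorem IH_const_mul {x₁ x₂ h : ℝ} (c : ℝ) (F : ℝ → ℝ → ℝ) :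
    IH x₁ x₂ h (fun ξ η => c * F ξ η) = c * IH x₁ x₂ h F := by
  unfold IH
  simp only [intervalIntegral.integral_const_mul]

theorem IH_mono {x₁ x₂ h : ℝ} (hx : x₁ ≤ x₂) (hh : 0 ≤ h) {F G : ℝ → ℝ → ℝ}
    (hF : CH x₁ x₂ h F) (hG : CH x₁ x₂ h G)
    (hle : ∀ ξ ∈ Icc x₁ x₂, ∀ η ∈ Icc (0:ℝ) h, F ξ η ≤ G ξ η) :
    IH x₁ x₂ h F ≤ IH x₁ x₂ h G := by
  rw [IH_eq hx hh hF, IH_eq hx hh hG]
  exact setIntegral_mono_on hF.integrableOn hG.integrableOn
    (measurableSet_Icc.prod measurableSet_Icc) fun p hp => hle p.1 hp.1 p.2 hp.2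

theorem IH_xi {x₁ x₂ h : ℝ} (f : ℝ → ℝ) :
    IH x₁ x₂ h (fun ξ _ => f ξ) = h * ∫ ξ in x₁..x₂, f ξ := by
  unfold IH
  simp only [intervalIntegral.integral_const, sub_zero, smul_eq_mul,
    intervalIntegral.integral_const_mul]

/-- the mirror image of a function on the strip -/
noncomputable def mir (X : ℂ → ℂ) (ω : ℂ) : ℂ := conj (X (conj ω + π * I))

theorem conj_pt (ξ η : ℝ) : conj (pt ξ η) + π * I = pt ξ (π - η) := by
  simp only [pt, map_add, map_mul, conj_ofReal, conj_I, ofReal_sub]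
  ring

theorem mir_pt (X : ℂ → ℂ) (ξ η : ℝ) : mir X (pt ξ η) = conj (X (pt ξ (π - η))) := by
  rw [mir, conj_pt]

theorem mir_hasDerivAt {X : ℂ → ℂ} {ω d : ℂ} (hX : HasDerivAt X d (conj ω + π * I)) :
    HasDerivAt (mir X) (conj d) ω := by
  have h1 : HasDerivAt (fun z : ℂ => X (z + π * I)) d (conj ω) := hX.comp_add_const _ _
  have h2 := h1.conj_conj
  rw [starRingEnd_self_apply] at h2
  exact h2

theorem mir_deriv_pt {X : ℂ → ℂ} {ξ η : ℝ} (hX : DifferentiableAt ℂ X (pt ξ (π - η))) :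
    deriv (mir X) (pt ξ η) = conj (deriv X (pt ξ (π - η))) := by
  have h1 : HasDerivAt X (deriv X (pt ξ (π - η))) (conj (pt ξ η) + π * I) := by
    rw [conj_pt]
    exact hX.hasDerivAt
  exact (mir_hasDerivAt h1).deriv

theorem mir_an {X : ℂ → ℂ} {ω : ℂ} (hX : AnalyticAt ℂ X (conj ω + π * I)) :
    AnalyticAt ℂ (mir X) ω := by
  rw [Complex.analyticAt_iff_eventually_differentiableAt] at hX ⊢
  have hc : Filter.Tendsto (fun z : ℂ => conj z + π * I) (nhds ω) (nhds (conj ω + π * I)) :=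
    (Complex.continuous_conj.add continuous_const).continuousAt
  filter_upwards [hc.eventually hX] with z hz
  exact (mir_hasDerivAt hz.hasDerivAt).differentiableAt

theorem mir_mem {x₁ x₂ : ℝ} {ω : ℂ} (hω : ω ∈ RectH x₁ x₂ (π / 2)) :
    conj ω + π * I ∈ Rect x₁ x₂ := by
  obtain ⟨h1, h2⟩ := hω
  simp only [mem_preimage, mem_Icc] at h1 h2
  have := Real.pi_pos
  constructor
  · simp only [mem_preimage, mem_Icc, add_re, conj_re, mul_re, ofReal_re, I_re, mul_zero,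
      ofReal_im, I_im, mul_one, sub_self, add_zero]
    exact h1
  · simp only [mem_preimage, mem_Icc, add_im, conj_im, mul_im, ofReal_re, I_im, mul_one,
      ofReal_im, I_re, mul_zero, add_zero]
    constructor <;> (clear * - h2; linarith only [h2])

theorem rectH_sub {x₁ x₂ : ℝ} : RectH x₁ x₂ (π / 2) ⊆ Rect x₁ x₂ := by
  rintro ω ⟨h1, h2⟩
  refine ⟨h1, ?_⟩
  simp only [mem_preimage, mem_Icc] at h2 ⊢
  have := Real.pi_pos
  constructor <;> linarith only [h2]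

theorem mir_an_H {X : ℂ → ℂ} {x₁ x₂ : ℝ} (hX : AnalyticOnNhd ℂ X (Rect x₁ x₂)) :
    AnalyticOnNhd ℂ (mir X) (RectH x₁ x₂ (π / 2)) := fun _ hω => mir_an (hX _ (mir_mem hω))

/-- the integral over the strip is the sum over the two halves -/
theorem II_split {x₁ x₂ : ℝ} (hx : x₁ ≤ x₂) {F : ℝ → ℝ → ℝ} (hF : CH x₁ x₂ π F) :
    II x₁ x₂ F = IH x₁ x₂ (π / 2) F + IH x₁ x₂ (π / 2) (fun ξ η => F ξ (π - η)) := by
  have hpi := Real.pi_pos
  have c1 : CH x₁ x₂ (π / 2) F :=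
    ContinuousOn.mono hF (prod_mono subset_rfl (Icc_subset_Icc le_rfl (by linarith)))
  have c2 : CH x₁ x₂ (π / 2) (fun ξ η => F ξ (π - η)) := by
    refine ContinuousOn.comp (g := fun p : ℝ × ℝ => F p.1 p.2)
      (f := fun p : ℝ × ℝ => (p.1, π - p.2)) hF (by fun_prop) ?_
    rintro ⟨x, y⟩ ⟨h1, h2⟩
    refine ⟨h1, ?_⟩
    simp only [mem_Icc] at h2 ⊢
    constructor <;> (clear * - h2; linarith only [h2])
  have hs : ∀ ξ ∈ Icc x₁ x₂, ∫ η in (0:ℝ)..π, F ξ η =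
      (∫ η in (0:ℝ)..(π / 2), F ξ η) + ∫ η in (0:ℝ)..(π / 2), F ξ (π - η) := by
    intro ξ hξ
    have cc : ContinuousOn (fun η => F ξ η) (Icc 0 π) := by
      refine ContinuousOn.comp (g := fun p : ℝ × ℝ => F p.1 p.2)
        (f := fun y : ℝ => (ξ, y)) hF (by fun_prop) ?_
      intro y hy
      exact ⟨hξ, hy⟩
    have i1 : IntervalIntegrable (fun η => F ξ η) volume 0 (π / 2) :=
      (cc.mono (Icc_subset_Icc le_rfl (by (clear * - hpi; linarith only [hpi])))).intervalIntegrable_of_Icc (by linarith only [hpi])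
    have i2 : IntervalIntegrable (fun η => F ξ η) volume (π / 2) π :=
      (cc.mono (Icc_subset_Icc (by linarith) le_rfl)).intervalIntegrable_of_Icc (by linarith)
    rw [← intervalIntegral.integral_add_adjacent_intervals i1 i2]
    congr 1
    have := intervalIntegral.integral_comp_sub_left (a := 0) (b := π / 2) (fun η => F ξ η) π
    rw [this]
    congr 1 <;> ring
  have key : ∀ {H : ℝ → ℝ → ℝ}, CH x₁ x₂ (π / 2) H →
      IntervalIntegrable (fun x => ∫ y in (0:ℝ)..(π / 2), H x y) volume x₁ x₂ := by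
    intro H hH
    have h2 : IntegrableOn (fun p : ℝ × ℝ => H p.1 p.2) (Ioc x₁ x₂ ×ˢ Ioc 0 (π / 2)) :=
      hH.integrableOn.mono_set (prod_mono Ioc_subset_Icc_self Ioc_subset_Icc_self)
    rw [IntegrableOn, Measure.volume_eq_prod, ← Measure.prod_restrict] at h2
    have h3 := h2.integral_prod_left
    rw [intervalIntegrable_iff_integrableOn_Ioc_of_le hx, IntegrableOn]
    simpa only [intervalIntegral.integral_of_le (by linarith : (0:ℝ) ≤ π / 2)] using h3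
  unfold II IH
  rw [← intervalIntegral.integral_add (key c1) (key c2)]
  refine intervalIntegral.integral_congr fun ξ hξ => ?_
  rw [uIcc_of_le hx] at hξ
  exact hs ξ hξ

end Pool.Agent.Helper69.EK3

end

section

namespace Pool.Agent.Helper52.EK
end Pool.Agent.Helper52.EK

set_option autoImplicit false

open Complex MeasureTheory Metric Set

open scoped Real ComplexConjugate

namespace Pool.Agent.Helper69.EK3

open Pool.Agent.Helper52.EK

/-- the energy on the half strip -/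
noncomputable def En (X : ℂ → ℂ) (x₁ x₂ : ℝ) : ℝ :=
  IH x₁ x₂ (π / 2) (fun ξ η => ‖X (pt ξ η) - 1‖ ^ 2)

/-- `X` is analytic without zeros near the half strip -/
structure NiceH (X : ℂ → ℂ) (x₁ x₂ : ℝ) : Prop where
  an : AnalyticOnNhd ℂ X (RectH x₁ x₂ (π / 2))
  ne : ∀ ω ∈ RectH x₁ x₂ (π / 2), X ω ≠ 0

theorem NiceX.half {X : ℂ → ℂ} {x₁ x₂ : ℝ} (h : NiceX X x₁ x₂) : NiceH X x₁ x₂ :=
  ⟨fun ω hω => h.an ω (rectH_sub hω), fun ω hω => h.ne ω (rectH_sub hω)⟩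

theorem NiceX.mir {X : ℂ → ℂ} {x₁ x₂ : ℝ} (h : NiceX X x₁ x₂) : NiceH (mir X) x₁ x₂ :=
  ⟨mir_an_H h.an, fun ω hω h0 => h.ne _ (mir_mem hω) (by
    unfold EK3.mir at h0
    exact (map_eq_zero _).1 h0)⟩

theorem En_nonneg {X : ℂ → ℂ} {x₁ x₂ : ℝ} (hx : x₁ ≤ x₂) : 0 ≤ En X x₁ x₂ := by
  unfold En IH
  refine intervalIntegral.integral_nonneg hx fun ξ _ => ?_
  exact intervalIntegral.integral_nonneg (by (clear * -; positivity)) fun η _ => sq_nonneg _

theorem cent_mem {x₁ x₂ ξ : ℝ} (hξ : ξ ∈ Icc x₁ x₂) : pt ξ (π / 2) ∈ RectH x₁ x₂ (π / 2) :=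
  pt_mem_RectH hξ ⟨by (clear * -; positivity), le_rfl⟩

theorem contC {X : ℂ → ℂ} {x₁ x₂ : ℝ} (hX : ContinuousOn X (RectH x₁ x₂ (π / 2))) :
    ContinuousOn (fun ξ : ℝ => X (pt ξ (π / 2))) (Icc x₁ x₂) :=
  hX.comp (by unfold pt; fun_prop) fun _ hξ => cent_mem hξ

variable {P : (ℂ → ℂ) → ℝ → ℝ → Prop}

end Pool.Agent.Helper69.EK3

end

section

namespace Pool.Agent.Helper52.EK
end Pool.Agent.Helper52.EK
namespace Pool.Agent.Helper78.EK
end Pool.Agent.Helper78.EK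

set_option autoImplicit false

open Complex MeasureTheory Metric Set

open scoped Real ComplexConjugate

namespace Pool.Agent.Helper69.EK3

open Pool.Agent.Helper52.EK Pool.Agent.Helper78.EK

variable {P : (ℂ → ℂ) → ℝ → ℝ → Prop}

/-- a complex function of class C¹ (in the real sense) outside `0`, with its partial
derivatives -/
structure C1c (H Hx Hy : ℂ → ℂ) : Prop where
  hd : ∀ X : ℂ, X ≠ 0 → HasFDerivAt H (reCLM.smulRight (Hx X) + imCLM.smulRight (Hy X)) X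
  cx : ContinuousOn Hx {X | X ≠ 0}
  cy : ContinuousOn Hy {X | X ≠ 0}

theorem C1c.cont {H Hx Hy : ℂ → ℂ} (h : C1c H Hx Hy) : ContinuousOn H {X | X ≠ 0} :=
  fun X hX => (h.hd X hX).continuousAt.continuousWithinAt

end Pool.Agent.Helper69.EK3

end

section

namespace Pool.Agent.Helper52.EK
end Pool.Agent.Helper52.EK
namespace Pool.Agent.Helper78.EK
end Pool.Agent.Helper78.EK

set_option autoImplicit false

open Complex MeasureTheory Metric Set

open scoped Real ComplexConjugate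

namespace Pool.Agent.Helper69.EK3

open Pool.Agent.Helper52.EK Pool.Agent.Helper78.EK

variable {P : (ℂ → ℂ) → ℝ → ℝ → Prop}

/-- the integrand of the field `a(η) F(X) g` -/
noncomputable def NG (a a₁ : ℝ → ℝ) (F Fx Fy : ℂ → ℂ) (X Y g : ℂ) (η : ℝ) : ℝ :=
  a η * ((Fx X + I * Fy X) * (g * conj Y)).re - a₁ η * (F X * g).im

end Pool.Agent.Helper69.EK3

end

section

namespace Pool.Agent.Helper39.Area
end Pool.Agent.Helper39.Area
namespace Pool.Agent.Helper52.EK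
end Pool.Agent.Helper52.EK

set_option autoImplicit false

open Complex MeasureTheory Metric Set

open scoped Real ComplexConjugate

namespace Pool.Agent.Helper67.EK

open Pool.Agent.Helper39.Area Pool.Agent.Helper52.EK

/-- the point `Z = exp ω`: `Im Z ≥ 0` and `‖Z‖ = exp (re ω)` on the closed strip -/
theorem exp_im_nonneg {ω : ℂ} (h0 : 0 ≤ ω.im) (h1 : ω.im ≤ π) : 0 ≤ (Complex.exp ω).im := by
  rw [Complex.exp_im]
  exact mul_nonneg (Real.exp_pos _).le (Real.sin_nonneg_of_nonneg_of_le_pi h0 h1)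

theorem norm_exp_lt_one {ω : ℂ} (h : ω.re < 0) : ‖Complex.exp ω‖ < 1 := by
  rw [Complex.norm_exp]
  exact Real.exp_lt_one_iff.mpr h

theorem I_add_ne {Z : ℂ} (h : ‖Z‖ < 1) : I + Z ≠ 0 := by
  intro h'
  have h1 : Z = -I := by linear_combination h'
  rw [h1, norm_neg, Complex.norm_I] at h
  exact lt_irrefl _ h

theorem I_sub_ne {Z : ℂ} (h : ‖Z‖ < 1) : I - Z ≠ 0 := by
  intro h'
  have h1 : Z = I := by linear_combination -h'
  rw [h1, Complex.norm_I] at h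
  exact lt_irrefl _ h

theorem norm_sub_le_add {Z : ℂ} (h : 0 ≤ Z.im) : ‖I - Z‖ ≤ ‖I + Z‖ := by
  have h1 : ‖I - Z‖ ^ 2 ≤ ‖I + Z‖ ^ 2 := by
    rw [← Complex.normSq_eq_norm_sq, ← Complex.normSq_eq_norm_sq, Complex.normSq_apply,
      Complex.normSq_apply]
    simp only [Complex.sub_re, Complex.sub_im, Complex.add_re, Complex.add_im, Complex.I_re,
      Complex.I_im]
    (clear * - h; linarith only [h])
  exact (sq_le_sq₀ (norm_nonneg _) (norm_nonneg _)).mp h1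

/-- `‖zf ω‖ ≤ 1` on the closed left half strip -/
theorem norm_zf_le {ω : ℂ} (h : ω.re < 0) (h0 : 0 ≤ ω.im) (h1 : ω.im ≤ π) : ‖zf ω‖ ≤ 1 := by
  unfold zf
  rw [norm_div]
  have h2 := I_add_ne (norm_exp_lt_one h)
  rw [div_le_one (norm_pos_iff.mpr h2)]
  exact norm_sub_le_add (exp_im_nonneg h0 h1)

theorem zf_ne_zero {ω : ℂ} (h : ω.re < 0) : zf ω ≠ 0 := by
  unfold zf
  exact div_ne_zero (I_sub_ne (norm_exp_lt_one h)) (I_add_ne (norm_exp_lt_one h))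

/-- `zf ω = a` only at `ω` with real part `log τ` -/
theorem zf_ne_a {ω : ℂ} {a : ℝ} (ha : 0 < a) (ha1 : a < 1) (h : ω.re < 0)
    (h1 : Real.log (tau a) < ω.re) : zf ω ≠ (a : ℂ) := by
  intro h'
  have h2 := I_add_ne (norm_exp_lt_one h)
  unfold zf at h'
  rw [div_eq_iff h2] at h'
  have h3 : (1 + (a : ℂ)) * Complex.exp ω = (1 - (a : ℂ)) * I := by linear_combination -h'
  have h4 : ‖(1 + (a : ℂ)) * Complex.exp ω‖ = ‖(1 - (a : ℂ)) * I‖ := by rw [h3]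
  have h5 : ‖(1 + (a : ℂ))‖ = 1 + a := by
    rw [show (1 + (a : ℂ)) = ((1 + a : ℝ) : ℂ) by push_cast; ring, Complex.norm_real,
      Real.norm_of_nonneg (by (clear * - ha; linarith only [ha]))]
  have h6 : ‖(1 - (a : ℂ))‖ = 1 - a := by
    rw [show (1 - (a : ℂ)) = ((1 - a : ℝ) : ℂ) by push_cast; ring, Complex.norm_real,
      Real.norm_of_nonneg (by (clear * - ha1; linarith only [ha1]))]
  rw [norm_mul, norm_mul, h5, h6, Complex.norm_I, mul_one, Complex.norm_exp] at h4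
  have h7 : tau a = Real.exp ω.re := by
    unfold tau
    rw [div_eq_iff (by linarith only [ha])]
    linarith only [h4]
  rw [h7, Real.log_exp] at h1
  exact lt_irrefl _ h1

theorem zd_ne_zero {ω : ℂ} (h : ω.re < 0) : zd ω ≠ 0 := by
  unfold zd
  have h2 := I_add_ne (norm_exp_lt_one h)
  have h3 : Complex.exp ω + I ≠ 0 := by rw [add_comm]; exact h2
  refine div_ne_zero (mul_ne_zero (mul_ne_zero (by norm_num) I_ne_zero) (Complex.exp_ne_zero _)) ?_
  exact pow_ne_zero 2 h3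

theorem dphi_ne_zero {β : ℂ → ℂ} {R : ℝ} (h : ExtR β R) {z : ℂ} (hz : z ∈ ball (0:ℂ) R)
    (h0 : z ≠ 0) : dphi β z ≠ 0 := by
  intro h'
  apply h.ne z hz
  unfold dphi at h'
  have h1 : z ^ 2 ≠ 0 := pow_ne_zero 2 h0
  have h2 : deriv β z = (z ^ 2)⁻¹ := by linear_combination h'
  rw [h2, mul_inv_cancel₀ h1, sub_self]

theorem phi_sub_ne {β : ℂ → ℂ} {R : ℝ} (h : ExtR β R) {z a : ℂ} (hz : z ∈ ball (0:ℂ) R)
    (ha : a ∈ ball (0:ℂ) R) (h0 : z ≠ 0) (ha0 : a ≠ 0) (hza : z ≠ a) :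
    phi β z - phi β a ≠ 0 := by
  intro h'
  exact hza (h.inj z a hz ha h0 ha0 (sub_eq_zero.mp h'))

theorem beta_an {β : ℂ → ℂ} {R : ℝ} (h : ExtR β R) {z : ℂ} (hz : z ∈ ball (0:ℂ) R) :
    AnalyticAt ℂ β z :=
  h.diff.analyticAt (isOpen_ball.mem_nhds hz)

theorem phi_an {β : ℂ → ℂ} {R : ℝ} (h : ExtR β R) {z : ℂ} (hz : z ∈ ball (0:ℂ) R)
    (h0 : z ≠ 0) : AnalyticAt ℂ (phi β) z :=
  (analyticAt_id.inv h0).add (beta_an h hz)

theorem dphi_an {β : ℂ → ℂ} {R : ℝ} (h : ExtR β R) {z : ℂ} (hz : z ∈ ball (0:ℂ) R)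
    (h0 : z ≠ 0) : AnalyticAt ℂ (dphi β) z :=
  (((analyticAt_id.pow 2).inv (pow_ne_zero 2 h0)).neg).add (beta_an h hz).deriv

theorem zf_an {ω : ℂ} (h : ω.re < 0) : AnalyticAt ℂ zf ω := by
  unfold zf
  exact (analyticAt_const.sub analyticAt_cexp).div (analyticAt_const.add analyticAt_cexp)
    (I_add_ne (norm_exp_lt_one h))

theorem zd_an {ω : ℂ} (h : ω.re < 0) : AnalyticAt ℂ zd ω := by
  unfold zd
  refine ((analyticAt_const.mul analyticAt_cexp)).div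
    ((analyticAt_cexp.add analyticAt_const).pow 2) ?_
  have h2 := I_add_ne (norm_exp_lt_one h)
  refine pow_ne_zero 2 ?_
  rw [add_comm]
  exact h2

/-- E1c -/
theorem E1c {β : ℂ → ℂ} {R : ℝ} (h : ExtR β R) {a : ℝ} (ha : 0 < a) (ha1 : a < 1) {x₁ x₂ : ℝ}
    (h1 : Real.log (tau a) < x₁) (h2 : x₂ < 0) : NiceX (Xf β a) x₁ x₂ := by
  have key : ∀ ω ∈ Rect x₁ x₂, ω.re < 0 ∧ zf ω ∈ ball (0:ℂ) R ∧ zf ω ≠ 0 ∧
      phi β (zf ω) - phi β (a : ℂ) ≠ 0 := by
    intro ω hω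
    obtain ⟨⟨hr1, hr2⟩, hi1, hi2⟩ := hω
    have hre : ω.re < 0 := lt_of_le_of_lt hr2 h2
    have hz : zf ω ∈ ball (0:ℂ) R := by
      rw [mem_ball_zero_iff]
      exact lt_of_le_of_lt (norm_zf_le hre hi1 hi2) h.one_lt
    have haR : (a : ℂ) ∈ ball (0:ℂ) R := by
      rw [mem_ball_zero_iff, Complex.norm_real, Real.norm_of_nonneg ha.le]
      exact ha1.trans h.one_lt
    refine ⟨hre, hz, zf_ne_zero hre, ?_⟩
    exact phi_sub_ne h hz haR (zf_ne_zero hre) (by exact_mod_cast ha.ne')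
      (zf_ne_a ha ha1 hre (lt_of_lt_of_le h1 hr1))
  constructor
  · intro ω hω
    obtain ⟨hre, hz, hz0, hne⟩ := key ω hω
    unfold Xf
    have hzf := zf_an hre
    have hd : AnalyticAt ℂ (fun w => dphi β (zf w)) ω := (dphi_an h hz hz0).comp hzf
    have hp : AnalyticAt ℂ (fun w => phi β (zf w)) ω := (phi_an h hz hz0).comp hzf
    refine ((zd_an hre).mul hd).div (analyticAt_const.mul (hp.sub analyticAt_const)) ?_
    exact mul_ne_zero two_ne_zero hne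
  · intro ω hω
    obtain ⟨hre, hz, hz0, hne⟩ := key ω hω
    unfold Xf
    exact div_ne_zero (mul_ne_zero (zd_ne_zero hre) (dphi_ne_zero h hz hz0))
      (mul_ne_zero two_ne_zero hne)

end Pool.Agent.Helper67.EK

end

section

namespace Pool.Agent.Helper39.Area
end Pool.Agent.Helper39.Area
namespace Pool.Agent.Helper52.EK
end Pool.Agent.Helper52.EK

set_option autoImplicit false

open Complex MeasureTheory Metric Set

open scoped Real ComplexConjugate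

namespace Pool.Agent.Helper97.EK

open Pool.Agent.Helper39.Area Pool.Agent.Helper52.EK

/-- unimodular factor between the frames -/
noncomputable def ph (Z : ℂ) : ℂ := ((‖I + Z‖ / ‖I - Z‖ : ℝ) : ℂ) * ((I - Z) / (I - conj Z))

section basic

theorem exp_pt (ξ η : ℝ) : Complex.exp (pt ξ η) =
    ((Real.exp ξ : ℝ) : ℂ) * ((Real.cos η : ℂ) + (Real.sin η : ℂ) * I) := by
  unfold pt
  rw [Complex.exp_add, Complex.exp_mul_I, Complex.ofReal_exp, Complex.ofReal_cos,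
    Complex.ofReal_sin]

theorem pt_re (ξ η : ℝ) : (pt ξ η).re = ξ := by simp [pt]

theorem pt_im (ξ η : ℝ) : (pt ξ η).im = η := by simp [pt]

theorem exp_pt_im (ξ η : ℝ) : (Complex.exp (pt ξ η)).im = Real.exp ξ * Real.sin η := by
  rw [Complex.exp_im, pt_re, pt_im]

theorem norm_exp_pt (ξ η : ℝ) : ‖Complex.exp (pt ξ η)‖ = Real.exp ξ := by
  rw [Complex.norm_exp, pt_re]

variable {ξ η : ℝ}

theorem im_pos (h0 : 0 < η) (h1 : η < π) : 0 < (Complex.exp (pt ξ η)).im := by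
  rw [exp_pt_im]
  exact mul_pos (Real.exp_pos _) (Real.sin_pos_of_pos_of_lt_pi h0 h1)

theorem norm_lt (hξ : ξ < 0) : ‖Complex.exp (pt ξ η)‖ < 1 := by
  rw [norm_exp_pt, ← Real.exp_zero]
  exact Real.exp_lt_exp.2 hξ

theorem addI_ne (h0 : 0 < η) (h1 : η < π) : I + Complex.exp (pt ξ η) ≠ 0 := by
  intro h
  have h2 := congrArg Complex.im h
  rw [Complex.add_im, Complex.I_im, Complex.zero_im] at h2
  have := im_pos (ξ := ξ) h0 h1
  (clear * - h2 this; linarith only [h2, this])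

theorem subI_ne (hξ : ξ < 0) : I - Complex.exp (pt ξ η) ≠ 0 := by
  intro h
  have h2 : Complex.exp (pt ξ η) = I := (sub_eq_zero.1 h).symm
  have h3 := norm_lt (η := η) hξ
  rw [h2, Complex.norm_I] at h3
  exact lt_irrefl _ h3

theorem subconj_ne (h0 : 0 < η) (h1 : η < π) : I - conj (Complex.exp (pt ξ η)) ≠ 0 := by
  intro h
  have h2 := congrArg Complex.im h
  rw [Complex.sub_im, Complex.I_im, Complex.conj_im, Complex.zero_im] at h2
  have := im_pos (ξ := ξ) h0 h1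
  (clear * - h2 this; linarith only [h2, this])

/-- `e₀ = - conj Z / Z` -/
theorem e0_eq (ξ η : ℝ) : e0 (Real.sin η) (Real.cos η) =
    -(conj (Complex.exp (pt ξ η)) / Complex.exp (pt ξ η)) := by
  unfold e0
  rw [eq_neg_iff_add_eq_zero, neg_add_eq_zero, eq_div_iff (Complex.exp_ne_zero _)]
  rw [exp_pt]
  simp only [map_mul, map_add, Complex.conj_ofReal, Complex.conj_I]
  have h : ((Real.cos η : ℝ) : ℂ) ^ 2 + ((Real.sin η : ℝ) : ℂ) ^ 2 = 1 := by
    rw [add_comm]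
    exact_mod_cast Real.sin_sq_add_cos_sq η
  linear_combination (((Real.exp ξ : ℝ) : ℂ) * ((Real.cos η : ℂ) - (Real.sin η : ℂ) * I)) * h -
    (((Real.exp ξ : ℝ) : ℂ) * ((Real.cos η : ℂ) - (Real.sin η : ℂ) * I) *
      ((Real.sin η : ℝ) : ℂ) ^ 2) * Complex.I_sq

theorem conj_zf (ω : ℂ) : conj (zf ω) =
    (-I - conj (Complex.exp ω)) / (-I + conj (Complex.exp ω)) := by
  unfold zf
  rw [map_div₀, map_sub, map_add, Complex.conj_I]

theorem norm_zf (ω : ℂ) : ‖zf ω‖ = ‖I - Complex.exp ω‖ / ‖I + Complex.exp ω‖ := by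
  unfold zf
  rw [norm_div]

theorem frame_alg (Z W r₁ r₂ : ℂ) (hZ : Z ≠ 0) (h1 : I + Z ≠ 0) (h2 : I - Z ≠ 0)
    (h3 : I - W ≠ 0) (hr1 : r₁ ≠ 0) (hr2 : r₂ ≠ 0) :
    (I - Z) / (I + Z) / (r₁ / r₂) * ((1 - (-I - W) / (-I + W) * 1) / (1 - (I - Z) / (I + Z))) =
      r₂ / r₁ * ((I - Z) / (I - W)) * -(W / Z) := by
  have h3' : -I + W ≠ 0 := by
    intro h
    apply h3
    linear_combination -h
  have e1 : 1 - (-I - W) / (-I + W) * 1 = -(2 * W) / (I - W) := by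
    field_simp
    ring
  have e2 : 1 - (I - Z) / (I + Z) = 2 * Z / (I + Z) := by
    field_simp
    ring
  rw [e1, e2]
  field_simp

end basic

/-- E3a -/
theorem E3a1 {ξ η : ℝ} (h0 : 0 < η) (h1 : η < π) (hξ : ξ < 0) :
    (zf (pt ξ η) / ‖zf (pt ξ η)‖) * ee 1 (zf (pt ξ η)) =
      ph (Complex.exp (pt ξ η)) * e0 (Real.sin η) (Real.cos η) := by
  have a1 := addI_ne (ξ := ξ) h0 h1
  have a2 := subI_ne (η := η) hξ
  have a3 := subconj_ne (ξ := ξ) h0 h1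
  rw [e0_eq ξ η, norm_zf]
  unfold ee ph
  rw [conj_zf]
  unfold zf
  rw [Complex.ofReal_div, Complex.ofReal_div]
  exact frame_alg _ _ _ _ (Complex.exp_ne_zero _) a1 a2 a3
    (Complex.ofReal_ne_zero.2 (norm_ne_zero_iff.2 a2))
    (Complex.ofReal_ne_zero.2 (norm_ne_zero_iff.2 a1))

theorem hasDerivAt_zf {ω : ℂ} (h : I + Complex.exp ω ≠ 0) : HasDerivAt zf (zd ω) ω := by
  have h1 : HasDerivAt (fun ω => (I - Complex.exp ω) / (I + Complex.exp ω))
      ((-Complex.exp ω * (I + Complex.exp ω) - (I - Complex.exp ω) * Complex.exp ω) /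
        (I + Complex.exp ω) ^ 2) ω :=
    ((Complex.hasDerivAt_exp ω).const_sub I).div ((Complex.hasDerivAt_exp ω).const_add I) h
  have e : zd ω = (-Complex.exp ω * (I + Complex.exp ω) - (I - Complex.exp ω) * Complex.exp ω) /
      (I + Complex.exp ω) ^ 2 := by
    unfold zd
    rw [add_comm (Complex.exp ω) I]
    congr 1
    ring
  rw [e]
  exact h1

theorem hasDerivAt_zd {ω : ℂ} (h : I + Complex.exp ω ≠ 0) :
    HasDerivAt zd (zd ω * zf ω) ω := by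
  have h0 : Complex.exp ω + I ≠ 0 := by rwa [add_comm]
  have h1 : HasDerivAt (fun ω => -2 * I * Complex.exp ω) (-2 * I * Complex.exp ω) ω :=
    (Complex.hasDerivAt_exp ω).const_mul (-2 * I)
  have h2 : HasDerivAt (fun ω => (Complex.exp ω + I) ^ 2)
      (((2 : ℕ) : ℂ) * (Complex.exp ω + I) ^ (2 - 1) * Complex.exp ω) ω :=
    ((Complex.hasDerivAt_exp ω).add_const I).pow 2
  have h3 := h1.div h2 (pow_ne_zero 2 h0)
  have e : zd ω * zf ω = (-2 * I * Complex.exp ω * (Complex.exp ω + I) ^ 2 -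
      -2 * I * Complex.exp ω * (((2 : ℕ) : ℂ) * (Complex.exp ω + I) ^ (2 - 1) * Complex.exp ω)) /
      ((Complex.exp ω + I) ^ 2) ^ 2 := by
    unfold zd zf
    rw [add_comm I (Complex.exp ω)]
    field_simp
    push_cast
    ring
  rw [e]
  exact h3

section beta

variable {β : ℂ → ℂ}

theorem dphi_eq {z : ℂ} (hz : z ≠ 0) : dphi β z = - N β z / z ^ 2 := by
  unfold dphi N
  field_simp
  ring

theorem hasDerivAt_deriv (h : Ext β) {z : ℂ} (hz : z ∈ ball (0 : ℂ) 1) :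
    HasDerivAt (deriv β) (deriv (deriv β) z) z :=
  ((h.diff.deriv isOpen_ball).differentiableAt (isOpen_ball.mem_nhds hz)).hasDerivAt

theorem hasDerivAt_N (h : Ext β) {z : ℂ} (hz : z ∈ ball (0 : ℂ) 1) :
    HasDerivAt (N β) (-(2 * z * deriv β z + z ^ 2 * deriv (deriv β) z)) z := by
  have h1 : HasDerivAt (fun z : ℂ => z ^ 2) (((2 : ℕ) : ℂ) * z ^ (2 - 1) * 1) z :=
    (hasDerivAt_id z).pow 2
  have h2 := (h1.mul (hasDerivAt_deriv h hz)).const_sub 1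
  have e : -(((2 : ℕ) : ℂ) * z ^ (2 - 1) * 1 * deriv β z + z ^ 2 * deriv (deriv β) z) =
      -(2 * z * deriv β z + z ^ 2 * deriv (deriv β) z) := by
    push_cast
    ring
  rw [← e]
  exact h2

theorem hasDerivAt_dphi (h : Ext β) {z : ℂ} (hz : z ∈ ball (0 : ℂ) 1) (hz0 : z ≠ 0) :
    HasDerivAt (dphi β) (dphi β z * (deriv (N β) z / N β z - 2 / z)) z := by
  have hN : N β z ≠ 0 := h.ne z hz
  have h1 : HasDerivAt (fun z : ℂ => z ^ 2) (((2 : ℕ) : ℂ) * z ^ (2 - 1) * 1) z :=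
    (hasDerivAt_id z).pow 2
  have h2 := (h1.inv (pow_ne_zero 2 hz0)).neg.add (hasDerivAt_deriv h hz)
  have e : dphi β z * (deriv (N β) z / N β z - 2 / z) =
      -(-(((2 : ℕ) : ℂ) * z ^ (2 - 1) * 1) / (z ^ 2) ^ 2) + deriv (deriv β) z := by
    rw [dphi_eq hz0, (hasDerivAt_N h hz).deriv]
    have hN' : N β z = 1 - z ^ 2 * deriv β z := rfl
    field_simp
    rw [hN']
    push_cast
    ring
  rw [e]
  exact h2

/-- the logarithmic derivative of `X` -/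
theorem deriv_Xf (h : Ext β) {a : ℝ} {ω : ℂ} (hω : I + Complex.exp ω ≠ 0)
    (hz : zf ω ∈ ball (0 : ℂ) 1) (hz0 : zf ω ≠ 0)
    (hne : phi β (zf ω) - phi β (a : ℂ) ≠ 0) :
    deriv (Xf β a) ω = Xf β a ω * (zf ω + zd ω * (deriv (N β) (zf ω) / N β (zf ω) - 2 / zf ω)
      - 2 * Xf β a ω) := by
  have h1 := hasDerivAt_zf hω
  have h2 := hasDerivAt_zd hω
  have h3 := (hasDerivAt_dphi h hz hz0).comp ω h1
  have h4 := (hasDerivAt_phi h.diff hz hz0).comp ω h1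
  have h5 := (h2.mul h3).div ((h4.sub_const (phi β (a : ℂ))).const_mul 2)
    (mul_ne_zero two_ne_zero hne)
  have h6 : deriv (Xf β a) ω = _ := h5.deriv
  rw [h6]
  unfold Xf
  simp only [Function.comp_apply, Pi.mul_apply]
  have hd : phi β (zf ω) - phi β (a : ℂ) ≠ 0 := hne
  set Δ := phi β (zf ω) - phi β (a : ℂ) with hΔ
  have h7 : -(zf ω ^ 2)⁻¹ + deriv β (zf ω) = dphi β (zf ω) := rfl
  try rw [h7]
  set D := deriv (N β) (zf ω) / N β (zf ω) - 2 / zf ω with hD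
  field_simp

end beta

theorem frame_alg2 (Z y r₁ r₂ D : ℂ) (hZ : Z ≠ 0) (h1 : I + Z ≠ 0) (h2 : I - Z ≠ 0)
    (h3 : I - (Z - 2 * y * I) ≠ 0) (hr1 : r₁ ≠ 0) (hr2 : r₂ ≠ 0) :
    (I - Z) / (I + Z) / (r₁ / r₂) * (-((-I - (Z - 2 * y * I)) / (-I + (Z - 2 * y * I))) -
      (1 - (I - Z) / (I + Z) * ((-I - (Z - 2 * y * I)) / (-I + (Z - 2 * y * I)))) * D) =
    r₂ / r₁ * ((I - Z) / (I - (Z - 2 * y * I))) *
      (((1 + -((Z - 2 * y * I) / Z)) * ((I - Z) / (I + Z) + -2 * I * Z / (Z + I) ^ 2 *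
        (D - 2 / ((I - Z) / (I + Z))) - 1) - 1) + 2 * I * y / (Z + I) + 4 * I * y / (Z - I)) := by
  obtain ⟨u, rfl⟩ : ∃ u, Z = I * u := ⟨-I * Z, by
    rw [← mul_assoc, mul_neg, Complex.I_mul_I]; ring⟩
  have hI : I ≠ 0 := Complex.I_ne_zero
  have hu : u ≠ 0 := right_ne_zero_of_mul hZ
  have k1 : 1 + u ≠ 0 := by
    intro h
    apply h1
    linear_combination I * h
  have k2 : 1 - u ≠ 0 := by
    intro h
    apply h2
    linear_combination I * h
  have k2' : u - 1 ≠ 0 := by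
    intro h
    apply k2
    linear_combination -h
  have k3 : 1 - (u - 2 * y) ≠ 0 := by
    intro h
    apply h3
    linear_combination I * h
  have e1 : (I - I * u) / (I + I * u) = (1 - u) / (1 + u) := by
    field_simp
  have e2 : (-I - (I * u - 2 * y * I)) / (-I + (I * u - 2 * y * I)) =
      (1 + (u - 2 * y)) / (1 - (u - 2 * y)) := by
    have k4 : -I + (I * u - 2 * y * I) ≠ 0 := by
      intro h
      apply h3
      linear_combination -h
    rw [div_eq_div_iff k4 k3]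
    ring
  have e3 : (I - I * u) / (I - (I * u - 2 * y * I)) = (1 - u) / (1 - (u - 2 * y)) := by
    rw [div_eq_div_iff h3 k3]
    ring
  have e4 : (I * u - 2 * y * I) / (I * u) = (u - 2 * y) / u := by
    (clear * - hI hu; field_simp)
  have e5 : -2 * I * (I * u) / (I * u + I) ^ 2 = -2 * u / (1 + u) ^ 2 := by
    rw [div_eq_div_iff (pow_ne_zero 2 (by rw [add_comm]; exact h1)) (pow_ne_zero 2 k1)]
    ring
  have e6 : 2 * I * y / (I * u + I) = 2 * y / (1 + u) := by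
    rw [div_eq_div_iff (by rw [add_comm]; exact h1) k1]
    ring
  have e7 : 4 * I * y / (I * u - I) = 4 * y / (u - 1) := by
    have k5 : I * u - I ≠ 0 := by
      intro h
      apply h2
      linear_combination -h
    rw [div_eq_div_iff k5 k2']
    ring
  rw [e1, e2, e3, e4, e5, e6, e7]
  have k6 : (1 - u) / (1 + u) ≠ 0 := div_ne_zero k2 k1
  have e8 : 4 * y / (u - 1) = -(4 * y) / (1 - u) := by
    rw [div_eq_div_iff k2' k2]
    ring
  rw [e8]
  field_simp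
  ring

theorem zf_mem {ξ η : ℝ} (h0 : 0 < η) (h1 : η < π) : zf (pt ξ η) ∈ ball (0 : ℂ) 1 := by
  rw [mem_ball_zero_iff, norm_zf]
  have a1 := addI_ne (ξ := ξ) h0 h1
  rw [div_lt_one (norm_pos_iff.2 a1)]
  have hy := im_pos (ξ := ξ) h0 h1
  set Z := Complex.exp (pt ξ η) with hZ
  have e1 : ‖I - Z‖ ^ 2 = Z.re ^ 2 + (1 - Z.im) ^ 2 := by
    rw [← Complex.normSq_eq_norm_sq, Complex.normSq_apply]
    simp
    ring
  have e2 : ‖I + Z‖ ^ 2 = Z.re ^ 2 + (1 + Z.im) ^ 2 := by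
    rw [← Complex.normSq_eq_norm_sq, Complex.normSq_apply]
    simp
    ring
  have e3 : ‖I - Z‖ ^ 2 < ‖I + Z‖ ^ 2 := by
    rw [e1, e2]
    linarith only [hy]
  exact lt_of_pow_lt_pow_left₀ 2 (norm_nonneg _) e3

theorem zf_ne {ξ η : ℝ} (h0 : 0 < η) (h1 : η < π) (hξ : ξ < 0) : zf (pt ξ η) ≠ 0 :=
  div_ne_zero (subI_ne hξ) (addI_ne h0 h1)

theorem zf_ne_a {ξ η a : ℝ} (ha : 0 < a) (ha1 : a < 1) (h0 : 0 < η) (h1 : η < π)
    (hξ1 : Real.log (tau a) < ξ) : zf (pt ξ η) ≠ (a : ℂ) := by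
  intro h
  have a1 := addI_ne (ξ := ξ) h0 h1
  have hτ : 0 < tau a := div_pos (by (clear * - ha1; linarith)) (by linarith only [ha])
  unfold zf at h
  rw [div_eq_iff a1] at h
  have ha' : (1 + (a : ℂ)) ≠ 0 := by
    exact_mod_cast (by linarith only [ha] : (1 + a : ℝ) ≠ 0)
  have h2 : Complex.exp (pt ξ η) = I * ((tau a : ℝ) : ℂ) := by
    unfold tau
    push_cast
    field_simp
    linear_combination -h
  have h3 := norm_exp_pt ξ η
  rw [h2, norm_mul, Complex.norm_I, one_mul, Complex.norm_real, Real.norm_of_nonneg hτ.le] at h3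
  have h4 : tau a < Real.exp ξ := (Real.log_lt_iff_lt_exp hτ).1 hξ1
  (clear * - h3 h4; linarith)

theorem E3a2 {β : ℂ → ℂ} (h : Ext β) {a : ℝ} (ha : 0 < a) (ha1 : a < 1) {ξ η : ℝ} (h0 : 0 < η)
    (h1 : η < π) (hξ : ξ < 0) (hξ1 : Real.log (tau a) < ξ) :
    mrad β (zf (pt ξ η)) = ph (Complex.exp (pt ξ η)) *
      (mX (Xf β a (pt ξ η)) (deriv (Xf β a) (pt ξ η)) (Real.sin η) (Real.cos η) +
        2 * I * (Complex.exp (pt ξ η)).im / (Complex.exp (pt ξ η) + I) +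
        4 * I * (Complex.exp (pt ξ η)).im / (Complex.exp (pt ξ η) - I)) := by
  have a1 := addI_ne (ξ := ξ) h0 h1
  have a2 := subI_ne (η := η) hξ
  have a3 := subconj_ne (ξ := ξ) h0 h1
  have hz := zf_mem (ξ := ξ) h0 h1
  have hz0 := zf_ne h0 h1 hξ
  have hza := zf_ne_a ha ha1 h0 h1 hξ1
  have haB : (a : ℂ) ∈ ball (0 : ℂ) 1 := by
    rw [mem_ball_zero_iff, Complex.norm_real, Real.norm_of_nonneg ha.le]
    exact ha1
  have ha0 : (a : ℂ) ≠ 0 := Complex.ofReal_ne_zero.2 ha.ne'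
  have hΔ : phi β (zf (pt ξ η)) - phi β (a : ℂ) ≠ 0 := fun h2 =>
    hza (h.inj _ _ hz haB hz0 ha0 (sub_eq_zero.1 h2))
  have hN : N β (zf (pt ξ η)) ≠ 0 := h.ne _ hz
  have hdphi : dphi β (zf (pt ξ η)) ≠ 0 := by
    rw [dphi_eq hz0]
    exact div_ne_zero (neg_ne_zero.2 hN) (pow_ne_zero 2 hz0)
  have hzd : zd (pt ξ η) ≠ 0 := by
    unfold zd
    refine div_ne_zero (mul_ne_zero (mul_ne_zero (by norm_num) Complex.I_ne_zero)
      (Complex.exp_ne_zero _)) (pow_ne_zero 2 (by rwa [add_comm]))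
  have hX : Xf β a (pt ξ η) ≠ 0 := by
    unfold Xf
    exact div_ne_zero (mul_ne_zero hzd hdphi) (mul_ne_zero two_ne_zero hΔ)
  have hdX := deriv_Xf h a1 hz hz0 hΔ
  have hq : deriv (Xf β a) (pt ξ η) / Xf β a (pt ξ η) = zf (pt ξ η) + zd (pt ξ η) *
      (deriv (N β) (zf (pt ξ η)) / N β (zf (pt ξ η)) - 2 / zf (pt ξ η)) -
      2 * Xf β a (pt ξ η) := by
    rw [hdX, mul_div_cancel_left₀ _ hX]
  have hconj : conj (Complex.exp (pt ξ η)) = Complex.exp (pt ξ η) -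
      2 * ((Complex.exp (pt ξ η)).im : ℂ) * I := by
    have := Complex.sub_conj (Complex.exp (pt ξ η))
    push_cast at this
    linear_combination -this
  have hnz : (1 : ℂ) - ((‖zf (pt ξ η)‖ : ℝ) : ℂ) ^ 2 =
      1 - zf (pt ξ η) * conj (zf (pt ξ η)) := by
    rw [Complex.mul_conj']
  unfold mrad mX
  rw [hq, e0_eq ξ η, hnz, norm_zf, Complex.ofReal_div]
  have e1 : 2 * Xf β a (pt ξ η) - 1 + (zf (pt ξ η) + zd (pt ξ η) *
      (deriv (N β) (zf (pt ξ η)) / N β (zf (pt ξ η)) - 2 / zf (pt ξ η)) -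
      2 * Xf β a (pt ξ η)) = zf (pt ξ η) + zd (pt ξ η) *
      (deriv (N β) (zf (pt ξ η)) / N β (zf (pt ξ η)) - 2 / zf (pt ξ η)) - 1 := by ring
  rw [e1]
  set D := deriv (N β) (zf (pt ξ η)) / N β (zf (pt ξ η)) with hD
  clear_value D
  rw [conj_zf]
  unfold ph zf zd
  rw [hconj] at a3 ⊢
  rw [Complex.ofReal_div]
  exact frame_alg2 _ _ _ _ D (Complex.exp_ne_zero _) a1 a2 a3
    (Complex.ofReal_ne_zero.2 (norm_ne_zero_iff.2 a2))
    (Complex.ofReal_ne_zero.2 (norm_ne_zero_iff.2 a1))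

end Pool.Agent.Helper97.EK

end

section

namespace Pool.Agent.Helper52.EK
end Pool.Agent.Helper52.EK

set_option autoImplicit false

open Complex MeasureTheory Metric Set

open scoped Real ComplexConjugate

namespace Pool.Agent.Helper69.EK3

open Pool.Agent.Helper52.EK

variable {P : (ℂ → ℂ) → ℝ → ℝ → Prop}

/-- values on a line of the mirror image -/
theorem mir_cent (X : ℂ → ℂ) (ξ : ℝ) : mir X (pt ξ (π / 2)) = conj (X (pt ξ (π / 2))) := by
  rw [mir_pt]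
  congr 3
  ring

theorem CH_X {X : ℂ → ℂ} {x₁ x₂ : ℝ} (hX : NiceX X x₁ x₂) {W : ℂ → ℝ} (hW : Continuous W) :
    CH x₁ x₂ π (fun ξ η => W (X (pt ξ η))) := CH_comp (h := π) hX.an.continuousOn hW

/-- the two halves of the energy -/
theorem En_add {X : ℂ → ℂ} {x₁ x₂ : ℝ} (hx : x₁ ≤ x₂) (hX : NiceX X x₁ x₂) :
    En X x₁ x₂ + En (mir X) x₁ x₂ = II x₁ x₂ (fun ξ η => ‖X (pt ξ η) - 1‖ ^ 2) := by
  rw [II_split hx (CH_X hX (W := fun Z => ‖Z - 1‖ ^ 2) (by fun_prop))]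
  unfold En
  congr 1
  have : ∀ ξ η : ℝ, ‖mir X (pt ξ η) - 1‖ ^ 2 = ‖X (pt ξ (π - η)) - 1‖ ^ 2 := by
    intro ξ η
    rw [mir_pt]
    have : conj (X (pt ξ (π - η))) - 1 = conj (X (pt ξ (π - η)) - 1) := by simp
    rw [this, norm_conj]
  simp only [this]

end Pool.Agent.Helper69.EK3

end

section

namespace Pool.Agent.Helper39.Area
end Pool.Agent.Helper39.Area
namespace Pool.Agent.Helper52.EK
end Pool.Agent.Helper52.EK

set_option autoImplicit false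

open Complex MeasureTheory Metric Set

open scoped Real ComplexConjugate

namespace Pool.Agent.Helper70.EK

open Pool.Agent.Helper39.Area Pool.Agent.Helper52.EK

theorem GLip.nonneg {G : ℂ → ℂ} {L : ℝ} (hG : GLip G L) : 0 ≤ L := by
  have h := hG.lip 1 0
  have h2 : L * ‖(1:ℂ) - 0‖ = L := by simp
  rw [h2] at h
  exact (norm_nonneg _).trans h

theorem GLip.continuous {G : ℂ → ℂ} {L : ℝ} (hG : GLip G L) : Continuous G := by
  have h : LipschitzWith (Real.toNNReal L) G := by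
    apply LipschitzWith.of_dist_le_mul
    intro x y
    rw [dist_eq_norm, dist_eq_norm, Real.coe_toNNReal _ (GLip.nonneg hG)]
    exact hG.lip x y
  exact h.continuous

theorem N_diff {β : ℂ → ℂ} (h : Ext β) : DifferentiableOn ℂ (N β) (ball 0 1) := by
  have h1 : DifferentiableOn ℂ (deriv β) (ball 0 1) := h.diff.deriv isOpen_ball
  unfold N
  fun_prop

theorem mrad_cont {β : ℂ → ℂ} (h : Ext β) :
    ContinuousOn (mrad β) {z | 0 < ‖z‖ ∧ ‖z‖ < 1} := by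
  have hs : {z : ℂ | 0 < ‖z‖ ∧ ‖z‖ < 1} ⊆ ball 0 1 := by
    rintro z ⟨_, hz⟩
    rw [mem_ball, dist_zero_right]
    exact hz
  have h1 : ContinuousOn (N β) {z : ℂ | 0 < ‖z‖ ∧ ‖z‖ < 1} := (N_diff h).continuousOn.mono hs
  have h2 : ContinuousOn (deriv (N β)) {z : ℂ | 0 < ‖z‖ ∧ ‖z‖ < 1} :=
    ((N_diff h).deriv isOpen_ball).continuousOn.mono hs
  have h3 : ∀ z ∈ {z : ℂ | 0 < ‖z‖ ∧ ‖z‖ < 1}, N β z ≠ 0 := fun z hz => h.ne z (hs hz)
  have h4 : ContinuousOn (fun z : ℂ => z / (‖z‖ : ℂ)) {z : ℂ | 0 < ‖z‖ ∧ ‖z‖ < 1} := by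
    apply ContinuousOn.div continuousOn_id
    · exact (Complex.continuous_ofReal.comp continuous_norm).continuousOn
    · rintro z ⟨hz, _⟩
      exact Complex.ofReal_ne_zero.mpr hz.ne'
  have h5 : ContinuousOn (fun z : ℂ => deriv (N β) z / N β z) {z : ℂ | 0 < ‖z‖ ∧ ‖z‖ < 1} :=
    h2.div h1 h3
  have h6 : ContinuousOn (fun z : ℂ => -conj z - (1 - (‖z‖ : ℂ) ^ 2) * (deriv (N β) z / N β z))
      {z : ℂ | 0 < ‖z‖ ∧ ‖z‖ < 1} := by
    apply ContinuousOn.sub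
    · exact (Complex.continuous_conj.neg).continuousOn
    · apply ContinuousOn.mul _ h5
      exact (continuous_const.sub
        ((Complex.continuous_ofReal.comp continuous_norm).pow 2)).continuousOn
  exact h4.mul h6

/-- E3c -/
theorem wf_cont {G : ℂ → ℂ} {L : ℝ} (hG : GLip G L) {β : ℂ → ℂ} (h : Ext β) :
    ContinuousOn (wf G β) {z | 0 < ‖z‖ ∧ ‖z‖ < 1} := by
  have h4 : ContinuousOn (fun z : ℂ => conj (z / (‖z‖ : ℂ))) {z : ℂ | 0 < ‖z‖ ∧ ‖z‖ < 1} := by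
    apply Complex.continuous_conj.comp_continuousOn
    apply ContinuousOn.div continuousOn_id
    · exact (Complex.continuous_ofReal.comp continuous_norm).continuousOn
    · rintro z ⟨hz, _⟩
      exact Complex.ofReal_ne_zero.mpr hz.ne'
  exact h4.mul ((GLip.continuous hG).comp_continuousOn (mrad_cont h))

end Pool.Agent.Helper70.EK

end

section

namespace Pool.Agent.Helper39.Area
end Pool.Agent.Helper39.Area
namespace Pool.Agent.Helper52.EK
end Pool.Agent.Helper52.EK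

set_option autoImplicit false

open Complex MeasureTheory Metric Set

open scoped Real ComplexConjugate

namespace Pool.Agent.Helper70.EK

open Pool.Agent.Helper39.Area Pool.Agent.Helper52.EK

/-- unimodular factor between the frames -/
noncomputable def ph (Z : ℂ) : ℂ := ((‖I + Z‖ / ‖I - Z‖ : ℝ) : ℂ) * ((I - Z) / (I - conj Z))

theorem norm_sub_conj (Z : ℂ) : ‖I - conj Z‖ = ‖I + Z‖ := by
  have h : I - conj Z = -(conj (I + Z)) := by
    rw [map_add, Complex.conj_I]; ring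
  rw [h, norm_neg, RCLike.norm_conj]

theorem low (Z : ℂ) (hZ : ‖Z‖ ≤ 1 / 2) : 1 / 2 ≤ ‖I + Z‖ ∧ 1 / 2 ≤ ‖I - Z‖ ∧ ‖I + Z‖ ≤ 3 / 2 ∧
    ‖I - Z‖ ≤ 3 / 2 := by
  have h1 : ‖I‖ = 1 := Complex.norm_I
  have h2 := norm_add_le I Z
  have h3 := norm_sub_le I Z
  have h4 : ‖I‖ ≤ ‖I + Z‖ + ‖Z‖ := by
    have := norm_sub_le (I + Z) Z
    simpa using this
  have h5 : ‖I‖ ≤ ‖I - Z‖ + ‖Z‖ := by
    have := norm_add_le (I - Z) Z
    simpa using this
  refine ⟨?_, ?_, ?_, ?_⟩ <;> (clear * - hZ h1 h4 h5 h2 h3; linarith only [hZ, h1, h4, h5, h2, h3])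

theorem norm_ph {Z : ℂ} (hZ : ‖Z‖ ≤ 1 / 2) : ‖ph Z‖ = 1 := by
  obtain ⟨h1, h2, _, _⟩ := low Z hZ
  unfold ph
  rw [norm_mul, norm_div, norm_sub_conj, Complex.norm_real, norm_div, norm_norm, norm_norm]
  have h3 : ‖I + Z‖ ≠ 0 := by (clear * - h1; linarith only [h1])
  have h4 : ‖I - Z‖ ≠ 0 := by (clear * - h2; linarith only [h2])
  (clear * - h3 h4; field_simp)

theorem ph_sub_one {Z : ℂ} (hZ : ‖Z‖ ≤ 1 / 2) : ‖ph Z - 1‖ ≤ 16 * ‖Z‖ := by
  obtain ⟨h1, h2, h3, h4⟩ := low Z hZ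
  set r : ℝ := ‖I + Z‖ / ‖I - Z‖ with hr
  set q : ℂ := (I - Z) / (I - conj Z) with hq
  have e1 : ph Z - 1 = (r : ℂ) * (q - 1) + ((r - 1 : ℝ) : ℂ) := by
    have e0' : ph Z = (r : ℂ) * q := rfl
    rw [e0']
    push_cast
    ring
  have e2 : |r| ≤ 3 := by
    rw [abs_of_nonneg (by (clear * - h1 h2; positivity)), hr, div_le_iff₀ (by linarith only [h2])]
    linarith only [h2, h3]
  have e3 : |r - 1| ≤ 4 * ‖Z‖ := by
    have h5 : r - 1 = (‖I + Z‖ - ‖I - Z‖) / ‖I - Z‖ := by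
      rw [hr]
      have : ‖I - Z‖ ≠ 0 := by linarith only [h2]
      (clear * - this; field_simp)
    have h6 : |‖I + Z‖ - ‖I - Z‖| ≤ 2 * ‖Z‖ := by
      have h7 := abs_norm_sub_norm_le (I + Z) (I - Z)
      have h8 : I + Z - (I - Z) = 2 * Z := by ring
      rw [h8, norm_mul] at h7
      simpa using h7
    rw [h5, abs_div, abs_of_nonneg (norm_nonneg (I - Z)), div_le_iff₀ (by (clear * - h2; linarith only [h2]))]
    (clear * - h6 h2; nlinarith only [norm_nonneg Z, h2, h6])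
  have e4 : ‖q - 1‖ ≤ 4 * ‖Z‖ := by
    have h5 : ‖I - conj Z‖ = ‖I + Z‖ := norm_sub_conj Z
    have h6 : I - conj Z ≠ 0 := by
      intro h
      rw [h, norm_zero] at h5
      linarith only [h1, h5]
    have h7 : q - 1 = (conj Z - Z) / (I - conj Z) := by
      rw [hq]
      field_simp
      ring
    rw [h7, norm_div, h5, div_le_iff₀ (by linarith only [h1])]
    have h8 : ‖conj Z - Z‖ ≤ 2 * ‖Z‖ := by
      have := norm_sub_le (conj Z) Z
      rw [RCLike.norm_conj] at this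
      linarith only [this]
    nlinarith only [norm_nonneg Z, h1, h8]
  rw [e1]
  have h9 := norm_add_le ((r : ℂ) * (q - 1)) ((r - 1 : ℝ) : ℂ)
  rw [norm_mul, Complex.norm_real, Complex.norm_real, Real.norm_eq_abs, Real.norm_eq_abs] at h9
  have h10 : |r| * ‖q - 1‖ ≤ 3 * (4 * ‖Z‖) :=
    mul_le_mul e2 e4 (norm_nonneg _) (by norm_num)
  linarith only [e3, h9, h10]

theorem err_le {Z : ℂ} (hZ : ‖Z‖ ≤ 1 / 2) :
    ‖2 * I * Z.im / (Z + I) + 4 * I * Z.im / (Z - I)‖ ≤ 12 * ‖Z‖ := by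
  obtain ⟨h1, h2, _, _⟩ := low Z hZ
  have h3 : ‖(Z.im : ℂ)‖ ≤ ‖Z‖ := by
    rw [Complex.norm_real, Real.norm_eq_abs]
    exact Complex.abs_im_le_norm Z
  have h4 : ‖Z + I‖ = ‖I + Z‖ := by rw [add_comm]
  have h5 : ‖Z - I‖ = ‖I - Z‖ := norm_sub_rev Z I
  have a1 : ‖2 * I * (Z.im : ℂ) / (Z + I)‖ ≤ 4 * ‖Z‖ := by
    rw [norm_div, norm_mul, norm_mul, h4, Complex.norm_I, div_le_iff₀ (by (clear * - h1; linarith only [h1]))]
    have : ‖(2:ℂ)‖ = 2 := by simp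
    rw [this]
    (clear * - h3 h1; nlinarith only [norm_nonneg Z, h1, h3])
  have a2 : ‖4 * I * (Z.im : ℂ) / (Z - I)‖ ≤ 8 * ‖Z‖ := by
    rw [norm_div, norm_mul, norm_mul, h5, Complex.norm_I, div_le_iff₀ (by linarith only [h2])]
    have : ‖(4:ℂ)‖ = 4 := by simp
    rw [this]
    nlinarith only [norm_nonneg Z, h2, h3]
  have h6 := norm_add_le (2 * I * (Z.im : ℂ) / (Z + I)) (4 * I * (Z.im : ℂ) / (Z - I))
  linarith only [a1, a2, h6]

theorem norm_e0 (η : ℝ) : ‖e0 (Real.sin η) (Real.cos η)‖ = 1 := by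
  unfold e0
  rw [norm_neg, norm_pow]
  have h : ‖((Real.cos η : ℝ) : ℂ) - (Real.sin η : ℝ) * I‖ ^ 2 = 1 := by
    rw [← Complex.normSq_eq_norm_sq, Complex.normSq_apply]
    have h1 : (((Real.cos η : ℝ) : ℂ) - (Real.sin η : ℝ) * I).re = Real.cos η := by
      simp only [Complex.sub_re, Complex.ofReal_re, Complex.mul_re, Complex.I_re, Complex.I_im,
        Complex.ofReal_im]
      ring
    have h2 : (((Real.cos η : ℝ) : ℂ) - (Real.sin η : ℝ) * I).im = -Real.sin η := by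
      simp only [Complex.sub_im, Complex.ofReal_re, Complex.mul_im, Complex.I_re, Complex.I_im,
        Complex.ofReal_im]
      ring
    rw [h1, h2]
    linarith only [Real.sin_sq_add_cos_sq η]
  exact h

theorem norm_E (ξ η : ℝ) : ‖Complex.exp (pt ξ η)‖ = Real.exp ξ := by
  rw [Complex.norm_exp]
  congr 1
  simp [pt]

theorem im_E (ξ η : ℝ) : (Complex.exp (pt ξ η)).im = Real.exp ξ * Real.sin η := by
  rw [Complex.exp_im]
  simp [pt]

theorem zf_norm {ξ η : ℝ} (h0 : 0 < η) (h1 : η < π) (hξ : ξ < 0) :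
    0 < ‖zf (pt ξ η)‖ ∧ ‖zf (pt ξ η)‖ < 1 := by
  set E := Complex.exp (pt ξ η) with hE
  have h2 : ‖E‖ < 1 := by
    rw [hE, norm_E]
    rw [← Real.exp_zero]
    exact Real.exp_lt_exp.mpr hξ
  have h3 : 0 < E.im := by
    rw [hE, im_E]
    exact mul_pos (Real.exp_pos _) (Real.sin_pos_of_pos_of_lt_pi h0 h1)
  have h4 : I - E ≠ 0 := by
    intro h
    have : E = I := (sub_eq_zero.mp h).symm
    rw [this, Complex.norm_I] at h2
    exact lt_irrefl _ h2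
  have h5 : I + E ≠ 0 := by
    intro h
    have : E = -I := by linear_combination h
    rw [this, norm_neg, Complex.norm_I] at h2
    exact lt_irrefl _ h2
  unfold zf
  rw [← hE, norm_div]
  refine ⟨div_pos (norm_pos_iff.mpr h4) (norm_pos_iff.mpr h5), ?_⟩
  rw [div_lt_one (norm_pos_iff.mpr h5)]
  have h6 : ‖I - E‖ ^ 2 < ‖I + E‖ ^ 2 := by
    rw [← Complex.normSq_eq_norm_sq, ← Complex.normSq_eq_norm_sq, Complex.normSq_apply,
      Complex.normSq_apply]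
    simp only [Complex.sub_re, Complex.I_re, Complex.sub_im, Complex.I_im, Complex.add_re,
      Complex.add_im]
    linarith only [h3]
  exact lt_of_pow_lt_pow_left₀ 2 (norm_nonneg _) h6

theorem wf_term {w g : ℂ} {z : ℂ} (hz : 0 < ‖z‖) :
    ‖w - conj (z / (‖z‖ : ℂ)) * g‖ = ‖(z / (‖z‖ : ℂ)) * w - g‖ := by
  set u : ℂ := z / (‖z‖ : ℂ) with hu
  have h1 : ‖u‖ = 1 := by
    rw [hu, norm_div, Complex.norm_real, norm_norm]
    exact div_self hz.ne'
  have h2 : u * conj u = 1 := by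
    rw [Complex.mul_conj, Complex.normSq_eq_norm_sq, h1]
    simp
  have h3 : u * w - g = u * (w - conj u * g) := by
    linear_combination g * h2
  rw [h3, norm_mul, h1, one_mul]

end Pool.Agent.Helper70.EK

end

section

namespace Pool.Agent.Helper39.Area
end Pool.Agent.Helper39.Area
namespace Pool.Agent.Helper52.EK
end Pool.Agent.Helper52.EK

set_option autoImplicit false

open Complex MeasureTheory Metric Set

open scoped Real ComplexConjugate

namespace Pool.Agent.Helper70.EK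

open Pool.Agent.Helper39.Area Pool.Agent.Helper52.EK

theorem integrableOn_strip {F : ℝ × ℝ → ℝ} {x₁ x₂ M : ℝ}
    (hc : ContinuousOn F (Ioc x₁ x₂ ×ˢ Ioo 0 π)) (hb : ∀ p ∈ Ioc x₁ x₂ ×ˢ Ioo 0 π, ‖F p‖ ≤ M) :
    IntegrableOn F (Ioc x₁ x₂ ×ˢ Ioo 0 π) := by
  have hm : MeasurableSet (Ioc x₁ x₂ ×ˢ Ioo 0 π) := measurableSet_Ioc.prod measurableSet_Ioo
  have hf : volume (Ioc x₁ x₂ ×ˢ Ioo 0 π) ≠ ⊤ := by
    rw [Measure.volume_eq_prod, Measure.prod_prod, Real.volume_Ioc, Real.volume_Ioo]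
    exact ENNReal.mul_ne_top ENNReal.ofReal_ne_top ENNReal.ofReal_ne_top
  have : IsFiniteMeasure (volume.restrict (Ioc x₁ x₂ ×ˢ Ioo 0 π)) := by
    refine ⟨?_⟩
    rw [Measure.restrict_apply_univ]
    exact hf.lt_top
  exact Integrable.of_bound (hc.aestronglyMeasurable hm) M
    ((ae_restrict_iff' hm).mpr (Filter.Eventually.of_forall hb))

theorem II_eq {F : ℝ → ℝ → ℝ} {x₁ x₂ : ℝ} (h : x₁ ≤ x₂)
    (hF : IntegrableOn (fun p : ℝ × ℝ => F p.1 p.2) (Ioc x₁ x₂ ×ˢ Ioo 0 π)) :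
    II x₁ x₂ F = ∫ p in Ioc x₁ x₂ ×ˢ Ioo 0 π, F p.1 p.2 := by
  unfold II
  rw [Measure.volume_eq_prod] at hF ⊢
  rw [intervalIntegral.integral_of_le h, setIntegral_prod _ hF]
  apply setIntegral_congr_fun measurableSet_Ioc
  intro ξ _
  change ∫ η in (0:ℝ)..π, F ξ η = _
  rw [intervalIntegral.integral_of_le Real.pi_pos.le, integral_Ioc_eq_integral_Ioo]

theorem II_exp {K : ℝ} (x₁ x₂ : ℝ) : II x₁ x₂ (fun ξ _ => K * Real.exp ξ) =
    K * π * (Real.exp x₂ - Real.exp x₁) := by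
  unfold II
  have h : ∀ ξ : ℝ, ∫ _ in (0:ℝ)..π, K * Real.exp ξ = K * π * Real.exp ξ := by
    intro ξ
    rw [intervalIntegral.integral_const]
    simp only [smul_eq_mul, sub_zero]
    ring
  simp only [h]
  rw [intervalIntegral.integral_const_mul, integral_exp]

theorem II_le {F₁ F₂ : ℝ → ℝ → ℝ} {x₁ x₂ K M : ℝ} (h : x₁ ≤ x₂) (hx : x₂ ≤ 0) (hK : 0 ≤ K)
    (c₁ : ContinuousOn (fun p : ℝ × ℝ => F₁ p.1 p.2) (Ioc x₁ x₂ ×ˢ Ioo 0 π))
    (c₂ : ContinuousOn (fun p : ℝ × ℝ => F₂ p.1 p.2) (Ioc x₁ x₂ ×ˢ Ioo 0 π))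
    (b₁ : ∀ p ∈ Ioc x₁ x₂ ×ˢ Ioo 0 π, ‖F₁ p.1 p.2‖ ≤ M)
    (b₂ : ∀ p ∈ Ioc x₁ x₂ ×ˢ Ioo 0 π, ‖F₂ p.1 p.2‖ ≤ M)
    (hle : ∀ p ∈ Ioc x₁ x₂ ×ˢ Ioo 0 π, F₁ p.1 p.2 ≤ F₂ p.1 p.2 + K * Real.exp p.1) :
    II x₁ x₂ F₁ ≤ II x₁ x₂ F₂ + K * π := by
  have i₁ := integrableOn_strip c₁ b₁
  have i₂ := integrableOn_strip c₂ b₂
  have c₃ : ContinuousOn (fun p : ℝ × ℝ => K * Real.exp p.1) (Ioc x₁ x₂ ×ˢ Ioo 0 π) := by
    apply Continuous.continuousOn
    exact continuous_const.mul (Real.continuous_exp.comp continuous_fst)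
  have b₃ : ∀ p ∈ Ioc x₁ x₂ ×ˢ Ioo 0 π, ‖K * Real.exp p.1‖ ≤ K := by
    rintro ⟨ξ, η⟩ ⟨hξ, _⟩
    have h1 : Real.exp ξ ≤ 1 := by
      rw [← Real.exp_zero]
      exact Real.exp_le_exp.mpr (hξ.2.trans hx)
    have h2 := Real.exp_pos ξ
    change ‖K * Real.exp ξ‖ ≤ K
    rw [Real.norm_eq_abs, abs_of_nonneg (by (clear * - hK; positivity))]
    nlinarith only [hK, h1]
  have i₃ := integrableOn_strip c₃ b₃
  rw [II_eq h i₁, II_eq h i₂]
  have h3 : II x₁ x₂ (fun ξ _ => K * Real.exp ξ) ≤ K * π := by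
    rw [II_exp]
    have h1 : Real.exp x₂ ≤ 1 := by
      rw [← Real.exp_zero]
      exact Real.exp_le_exp.mpr hx
    have h2 := Real.exp_pos x₁
    have h4 : 0 ≤ K * π := mul_nonneg hK Real.pi_pos.le
    (clear * - h1 h4 h2; nlinarith only [h1, h2, h4])
  rw [II_eq (F := fun ξ _ => K * Real.exp ξ) h i₃] at h3
  have hm : MeasurableSet (Ioc x₁ x₂ ×ˢ Ioo 0 π) := measurableSet_Ioc.prod measurableSet_Ioo
  have h4 : ∫ p in Ioc x₁ x₂ ×ˢ Ioo 0 π, F₁ p.1 p.2 ≤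
      ∫ p in Ioc x₁ x₂ ×ˢ Ioo 0 π, (F₂ p.1 p.2 + K * Real.exp p.1) :=
    setIntegral_mono_on i₁ (i₂.add i₃) hm hle
  rw [integral_add i₂ i₃] at h4
  linarith

theorem continuous_pt : Continuous (fun p : ℝ × ℝ => pt p.1 p.2) := by
  unfold pt
  fun_prop

theorem zf_contOn {x₁ x₂ : ℝ} (hx : x₂ < 0) :
    ContinuousOn (fun p : ℝ × ℝ => zf (pt p.1 p.2)) (Ioc x₁ x₂ ×ˢ Ioo 0 π) := by
  have h1 : Continuous (fun p : ℝ × ℝ => Complex.exp (pt p.1 p.2)) :=
    Complex.continuous_exp.comp continuous_pt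
  unfold zf
  apply ContinuousOn.div
  · exact (continuous_const.sub h1).continuousOn
  · exact (continuous_const.add h1).continuousOn
  · rintro ⟨ξ, η⟩ ⟨hξ, _⟩ h
    have h2 : Complex.exp (pt ξ η) = -I := by linear_combination h
    have h3 := norm_E ξ η
    rw [h2, norm_neg, Complex.norm_I] at h3
    have h4 : Real.exp ξ < 1 := by
      rw [← Real.exp_zero]
      exact Real.exp_lt_exp.mpr (lt_of_le_of_lt hξ.2 hx)
    linarith only [h3, h4]

theorem zf_mapsTo {x₁ x₂ : ℝ} (hx : x₂ < 0) :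
    MapsTo (fun p : ℝ × ℝ => zf (pt p.1 p.2)) (Ioc x₁ x₂ ×ˢ Ioo 0 π)
      {z | 0 < ‖z‖ ∧ ‖z‖ < 1} := by
  rintro ⟨ξ, η⟩ ⟨hξ, hη⟩
  exact zf_norm hη.1 hη.2 (lt_of_le_of_lt hξ.2 hx)

theorem F1_contOn {w : ℂ → ℂ} (hw : ContinuousOn w {z | 0 < ‖z‖ ∧ ‖z‖ < 1}) {x₁ x₂ : ℝ}
    (hx : x₂ < 0) :
    ContinuousOn (fun p : ℝ × ℝ => ‖ee 1 (zf (pt p.1 p.2)) - w (zf (pt p.1 p.2))‖ ^ 2)
      (Ioc x₁ x₂ ×ˢ Ioo 0 π) := by
  have h1 := zf_contOn (x₁ := x₁) hx
  have h2 : ContinuousOn (fun p : ℝ × ℝ => w (zf (pt p.1 p.2))) (Ioc x₁ x₂ ×ˢ Ioo 0 π) :=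
    hw.comp h1 (zf_mapsTo hx)
  have h3 : ContinuousOn (fun p : ℝ × ℝ => ee 1 (zf (pt p.1 p.2))) (Ioc x₁ x₂ ×ˢ Ioo 0 π) := by
    unfold ee
    apply ContinuousOn.div
    · apply continuousOn_const.sub
      apply ContinuousOn.mul _ continuousOn_const
      exact Complex.continuous_conj.comp_continuousOn h1
    · exact continuousOn_const.sub h1
    · intro p hp h
      have h4 := (zf_mapsTo hx hp).2
      have h5 : zf (pt p.1 p.2) = 1 := (sub_eq_zero.mp h).symm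
      change ‖zf (pt p.1 p.2)‖ < 1 at h4
      rw [h5, norm_one] at h4
      exact lt_irrefl _ h4
  exact (h3.sub h2).norm.pow 2

theorem norm_ee {z : ℂ} (hz : ‖z‖ < 1) : ‖ee 1 z‖ = 1 := by
  unfold ee
  have h1 : (1 : ℂ) - conj z * 1 = conj (1 - z) := by
    rw [map_sub, map_one, mul_one]
  rw [h1, norm_div, RCLike.norm_conj]
  have h2 : (1 : ℂ) - z ≠ 0 := by
    intro h
    have h5 : z = 1 := (sub_eq_zero.mp h).symm
    rw [h5, norm_one] at hz
    exact lt_irrefl _ hz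
  exact div_self (norm_ne_zero_iff.mpr h2)

end Pool.Agent.Helper70.EK

end

section

namespace Pool.Agent.Helper52.EK
end Pool.Agent.Helper52.EK

/-!
E1d: the comparison function `kap` is close to `1` in the mean square.
-/

set_option autoImplicit false

open Complex MeasureTheory Metric Set

open scoped Real ComplexConjugate

namespace Pool.Agent.Helper46.EK

open Pool.Agent.Helper52.EK

lemma tau_pos {a : ℝ} (h0 : 0 < a) (h1 : a < 1) : 0 < tau a := by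
  unfold tau
  exact div_pos (by (clear * - h1; linarith)) (by linarith)

lemma norm_exp_pt (ξ η : ℝ) : ‖Complex.exp (pt ξ η)‖ = Real.exp ξ := by
  rw [Complex.norm_exp]
  simp [pt]

lemma kap_sub_one {τ : ℂ} {Z : ℂ} (h1 : Z ^ 2 + τ ^ 2 ≠ 0) (h2 : Z ^ 2 + 1 ≠ 0) :
    Z ^ 2 * (1 - τ ^ 2) / ((Z ^ 2 + τ ^ 2) * (Z ^ 2 + 1)) - 1 =
      -((Z ^ 2) ^ 2 + 2 * τ ^ 2 * Z ^ 2 + τ ^ 2) / ((Z ^ 2 + τ ^ 2) * (Z ^ 2 + 1)) := by
  field_simp
  ring

lemma exp_neg_two_lt : Real.exp (-2) < 1 / 4 := by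
  have h1 : (2.7182818283 : ℝ) < Real.exp 1 := Real.exp_one_gt_d9
  have h2 : Real.exp 2 = Real.exp 1 * Real.exp 1 := by rw [← Real.exp_add]; norm_num
  have h3 : (4 : ℝ) < Real.exp 2 := by rw [h2]; (clear * - h1; nlinarith only [h1])
  rw [Real.exp_neg, one_div]
  exact inv_strictAnti₀ (by norm_num) h3

lemma kap_bound {a : ℝ} (h0 : 0 < a) (h1 : a < 1) {ξ η : ℝ} (hx : Real.log (tau a) + 1 ≤ ξ)
    (hx2 : ξ ≤ -1) :
    ‖kap a (pt ξ η) - 1‖ ^ 2 ≤ 144 * Real.exp ξ + 16 * (tau a * Real.exp (-ξ)) := by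
  have hτ : 0 < tau a := tau_pos h0 h1
  set τ : ℝ := tau a with hτdef
  set Z : ℂ := Complex.exp (pt ξ η) with hZ
  set r : ℝ := Real.exp ξ with hr
  have hnZ : ‖Z‖ = r := norm_exp_pt ξ η
  have hr0 : 0 < r := Real.exp_pos _
  have he2 := exp_neg_two_lt
  -- `4 τ² ≤ r²`, `4 r² ≤ 1`
  have hτr : τ ^ 2 ≤ r ^ 2 / 4 := by
    have h2 : τ * Real.exp 1 ≤ r := by
      have : Real.exp (Real.log τ + 1) ≤ Real.exp ξ := Real.exp_le_exp.2 hx
      rwa [Real.exp_add, Real.exp_log hτ] at this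
    have h3 : (2.7182818283 : ℝ) < Real.exp 1 := Real.exp_one_gt_d9
    have h4 : τ * 2 ≤ r := le_trans (by (clear * - hτ h3; nlinarith only [hτ, h3])) h2
    (clear * - hτ h4; nlinarith only [hτ, h4])
  have hr2 : r ^ 2 ≤ 1 / 4 := by
    have h2 : r ^ 2 = Real.exp (2 * ξ) := by
      rw [hr, ← Real.exp_nat_mul]; norm_num
    have h3 : Real.exp (2 * ξ) ≤ Real.exp (-2) := Real.exp_le_exp.2 (by linarith only [hx2])
    linarith only [he2, h2, h3]
  have hr1 : r ≤ 1 / 2 := by (clear * - hr2; nlinarith only [hr2])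
  have hτr1 : τ ≤ r / 2 := by
    have : τ ^ 2 ≤ (r / 2) ^ 2 := by (clear * - hτr; linarith only [hτr])
    exact (sq_le_sq₀ hτ.le (by positivity)).1 this
  have hA : r ^ 2 * (3 / 4) ≤ ‖Z ^ 2 + (τ : ℂ) ^ 2‖ := by
    have h2 : ‖Z ^ 2‖ - ‖(τ : ℂ) ^ 2‖ ≤ ‖Z ^ 2 + (τ : ℂ) ^ 2‖ := by
      have := norm_sub_norm_le (Z ^ 2) (-(τ : ℂ) ^ 2)
      rw [norm_neg, sub_neg_eq_add] at this
      exact this
    rw [norm_pow, norm_pow, hnZ, Complex.norm_real, Real.norm_eq_abs, sq_abs] at h2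
    (clear * - hτr h2; linarith only [hτr, h2])
  have hB : (3 / 4 : ℝ) ≤ ‖Z ^ 2 + 1‖ := by
    have h2 : ‖(1 : ℂ)‖ - ‖Z ^ 2‖ ≤ ‖Z ^ 2 + 1‖ := by
      have := norm_sub_norm_le (1 : ℂ) (-(Z ^ 2))
      rw [norm_neg, sub_neg_eq_add, add_comm (1 : ℂ)] at this
      exact this
    rw [norm_one, norm_pow, hnZ] at h2
    linarith only [hr2, h2]
  have hA0 : Z ^ 2 + (τ : ℂ) ^ 2 ≠ 0 := by
    intro h
    rw [h, norm_zero] at hA
    (clear * - hA hr0; nlinarith only [hr0, hA])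
  have hB0 : Z ^ 2 + 1 ≠ 0 := by
    intro h
    rw [h, norm_zero] at hB
    linarith only [hB]
  have hk : kap a (pt ξ η) - 1 =
      -((Z ^ 2) ^ 2 + 2 * (τ : ℂ) ^ 2 * Z ^ 2 + (τ : ℂ) ^ 2) /
        ((Z ^ 2 + (τ : ℂ) ^ 2) * (Z ^ 2 + 1)) := by
    rw [← kap_sub_one hA0 hB0]
    rfl
  have hnum : ‖-((Z ^ 2) ^ 2 + 2 * (τ : ℂ) ^ 2 * Z ^ 2 + (τ : ℂ) ^ 2)‖ ≤
      r ^ 4 + 2 * τ ^ 2 * r ^ 2 + τ ^ 2 := by
    rw [norm_neg]
    refine (norm_add_le _ _).trans ?_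
    refine add_le_add ((norm_add_le _ _).trans (add_le_add ?_ ?_)) ?_
    · rw [norm_pow, norm_pow, hnZ]; exact le_of_eq (by ring)
    · rw [norm_mul, norm_mul, norm_pow, norm_pow, hnZ, Complex.norm_real, Real.norm_eq_abs, sq_abs]
      simp
    · rw [norm_pow, Complex.norm_real, Real.norm_eq_abs, sq_abs]
  have hden : r ^ 2 * (9 / 16) ≤ ‖(Z ^ 2 + (τ : ℂ) ^ 2) * (Z ^ 2 + 1)‖ := by
    rw [norm_mul]
    calc r ^ 2 * (9 / 16) = (r ^ 2 * (3 / 4)) * (3 / 4) := by ring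
      _ ≤ _ := mul_le_mul hA hB (by norm_num) (norm_nonneg _)
  have hden0 : 0 < r ^ 2 * (9 / 16) := by positivity
  have hmain : ‖kap a (pt ξ η) - 1‖ ≤ 2 * (r ^ 2 + 2 * τ ^ 2 + τ ^ 2 / r ^ 2) := by
    rw [hk, norm_div]
    calc _ ≤ (r ^ 4 + 2 * τ ^ 2 * r ^ 2 + τ ^ 2) / (r ^ 2 * (9 / 16)) :=
          div_le_div₀ (by positivity) hnum hden0 hden
      _ = 16 / 9 * (r ^ 2 + 2 * τ ^ 2 + τ ^ 2 / r ^ 2) := by field_simp
      _ ≤ _ := by
          have : 0 ≤ r ^ 2 + 2 * τ ^ 2 + τ ^ 2 / r ^ 2 := by positivity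
          linarith only [this]
  -- crude form
  have hq : τ ^ 2 / r ^ 2 = (τ / r) ^ 2 := by rw [div_pow]
  have hq0 : 0 < τ / r := div_pos hτ hr0
  have hq1 : τ / r ≤ 1 / 2 := by
    rw [div_le_iff₀ hr0]; linarith only [hτr1]
  have h3 : ‖kap a (pt ξ η) - 1‖ ≤ 3 * r ^ 2 + 2 * (τ / r) ^ 2 := by
    refine hmain.trans ?_
    rw [hq]
    linarith only [hτr]
  have h4 : ‖kap a (pt ξ η) - 1‖ ^ 2 ≤ (3 * r ^ 2 + 2 * (τ / r) ^ 2) ^ 2 :=
    pow_le_pow_left₀ (norm_nonneg _) h3 2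
  have h5 : (3 * r ^ 2 + 2 * (τ / r) ^ 2) ^ 2 ≤ 144 * r + 16 * (τ / r) := by
    have h6 : 3 * r ^ 2 + 2 * (τ / r) ^ 2 ≤ 3 * r + 2 * (τ / r) := by nlinarith only [hr0, hr1, hq0, hq1]
    have h7 : 3 * r + 2 * (τ / r) ≤ 3 := by linarith only [hr1, hq1]
    have h8 : 0 ≤ 3 * r ^ 2 + 2 * (τ / r) ^ 2 := by positivity
    nlinarith only [hr0, h6, h7]
  have h9 : τ / r = τ * Real.exp (-ξ) := by
    rw [Real.exp_neg, hr]; rfl
  rw [← h9]
  exact h4.trans h5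

end Pool.Agent.Helper46.EK

end
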