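import Pool.Agent.Helper60.BE.T03
import Pool.Agent.Helper60.BE.T02
import Pool.Agent.Helper60.BE.T01

set_option linter.all false

section

namespace Pool.EK71
end Pool.EK71
namespace Pool.Agent.Helper52.EK
end Pool.Agent.Helper52.EK
namespace Pool.Agent.Helper2.EK
end Pool.Agent.Helper2.EK
namespace Pool.Agent.Helper71.EK
end Pool.Agent.Helper71.EK
namespace Pool.Agent.Helper68.EKC
end Pool.Agent.Helper68.EKC

/-!
Certificates at the vertices of a polygon: the potentials and `κ₂` are affine functions of the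
direction `α = (1+u)/2`, the weight `σ` is fixed.
-/

set_option autoImplicit false

open Complex

open scoped ComplexConjugate

namespace Pool.Agent.Helper71.EKC

open Pool.EK71 Pool.Agent.Helper52.EK Pool.Agent.Helper2.EK Pool.Agent.Helper71.EK

lemma c1_conj {A Ax Ay : ℂ → ℝ} (hA : C1f A Ax Ay) :
    C1f (fun X => A (conj X)) (fun X => Ax (conj X)) (fun X => -Ay (conj X)) := by
  refine ⟨fun X => ?_, hA.cx.comp continuous_conj, (hA.cy.comp continuous_conj).neg⟩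
  have h1 := hA.hd (conj X)
  have h2 : HasFDerivAt (fun X : ℂ => conj X) (Complex.conjCLE : ℂ →L[ℝ] ℂ) X :=
    Complex.conjCLE.hasFDerivAt
  have h3 := h1.comp X h2
  refine h3.congr_fderiv ?_
  ext z
  simp

end Pool.Agent.Helper71.EKC

end

section

namespace Pool.Agent.Helper52.EK
end Pool.Agent.Helper52.EK

set_option autoImplicit false

open Complex Metric Set

open scoped Real ComplexConjugate

namespace Pool.Agent.Helper69.EK3

open Pool.Agent.Helper52.EK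

/-- a point of the unit circle on a segment -/
theorem exists_cross {m m' : ℂ} (h : ‖m‖ ≤ 1) (h' : 1 ≤ ‖m'‖) :
    ∃ p : ℂ, ‖p‖ = 1 ∧ ‖m - p‖ + ‖p - m'‖ = ‖m - m'‖ := by
  have hc : Continuous (fun t : ℝ => ‖m + (t : ℂ) * (m' - m)‖) := by fun_prop
  have h1 : (1:ℝ) ∈ Icc ((fun t : ℝ => ‖m + (t : ℂ) * (m' - m)‖) 0)
      ((fun t : ℝ => ‖m + (t : ℂ) * (m' - m)‖) 1) := by
    simp only [ofReal_zero, zero_mul, add_zero, ofReal_one, one_mul, add_sub_cancel]
    exact ⟨h, h'⟩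
  obtain ⟨t, ht, he⟩ := intermediate_value_Icc (zero_le_one) hc.continuousOn h1
  refine ⟨m + (t : ℂ) * (m' - m), he, ?_⟩
  have e1 : m - (m + (t : ℂ) * (m' - m)) = (t : ℂ) * (m - m') := by ring
  have e2 : m + (t : ℂ) * (m' - m) - m' = ((1 - t : ℝ) : ℂ) * (m - m') := by
    push_cast
    ring
  rw [e1, e2, norm_mul, norm_mul, Complex.norm_real, Complex.norm_real,
    Real.norm_of_nonneg ht.1, Real.norm_of_nonneg (by (clear * - ht; linarith [ht.2]))]
  ring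

end Pool.Agent.Helper69.EK3

end

section

namespace Pool.Agent.Helper39.Area
end Pool.Agent.Helper39.Area
namespace Pool.Agent.Helper52.EK
end Pool.Agent.Helper52.EK

set_option autoImplicit false

open Complex MeasureTheory Metric Set

open scoped Real ComplexConjugate

namespace Pool.Agent.Helper9.EK

open Pool.Agent.Helper39.Area Pool.Agent.Helper52.EK

/-- rotated data: `phi (rotβ β α) z = e^(iα) phi β (e^(iα) z)` -/
noncomputable def rotβ (β : ℂ → ℂ) (α : ℝ) (z : ℂ) : ℂ :=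
  Complex.exp (α * I) * β (Complex.exp (α * I) * z)

theorem norm_exp_mul (α : ℝ) (z : ℂ) : ‖Complex.exp (α * I) * z‖ = ‖z‖ := by
  rw [norm_mul, Complex.norm_exp_ofReal_mul_I, one_mul]

theorem mem_ball_rot {α R : ℝ} {z : ℂ} (hz : z ∈ ball (0:ℂ) R) :
    Complex.exp (α * I) * z ∈ ball (0:ℂ) R := by
  rw [mem_ball_zero_iff] at hz ⊢
  rwa [norm_exp_mul]

theorem deriv_rotβ {β : ℂ → ℂ} (α : ℝ) (z : ℂ) :
    deriv (rotβ β α) z = Complex.exp (α * I) * (Complex.exp (α * I) *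
      deriv β (Complex.exp (α * I) * z)) := by
  have h1 : rotβ β α = fun z => Complex.exp (α * I) * (fun z => β (Complex.exp (α * I) * z)) z := rfl
  rw [h1, deriv_const_mul_field, deriv_comp_mul_left, smul_eq_mul]

theorem rot_N' {β : ℂ → ℂ} (α : ℝ) (z : ℂ) :
    N (rotβ β α) z = N β (Complex.exp (α * I) * z) := by
  unfold N
  rw [deriv_rotβ]
  ring

theorem rot_ExtR {β : ℂ → ℂ} {R : ℝ} (h : ExtR β R) (α : ℝ) : ExtR (rotβ β α) R := by
  have hc : Complex.exp (α * I) ≠ 0 := Complex.exp_ne_zero _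
  refine ⟨h.one_lt, ?_, ?_, ?_⟩
  · have h1 : DifferentiableOn ℂ (fun z => β (Complex.exp (α * I) * z)) (ball 0 R) :=
      h.diff.comp (differentiableOn_id.const_mul _) (fun z hz => mem_ball_rot hz)
    exact h1.const_mul _
  · intro ζ ω hζ hω hζ0 hω0 he
    have h2 := h.inj (Complex.exp (α * I) * ζ) (Complex.exp (α * I) * ω) (mem_ball_rot hζ)
      (mem_ball_rot hω) (mul_ne_zero hc hζ0) (mul_ne_zero hc hω0) ?_
    · exact mul_left_cancel₀ hc h2
    · apply mul_left_cancel₀ hc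
      have e1 : ∀ w : ℂ, Complex.exp (α * I) * ((Complex.exp (α * I) * w)⁻¹ +
          β (Complex.exp (α * I) * w)) = w⁻¹ + rotβ β α w := by
        intro w
        unfold rotβ
        rw [mul_add, mul_inv, ← mul_assoc, mul_inv_cancel₀ hc, one_mul]
      rw [e1, e1, he]
  · intro ζ hζ
    have h3 := h.ne (Complex.exp (α * I) * ζ) (mem_ball_rot hζ)
    have h4 := rot_N' (β := β) α ζ
    unfold N at h4
    rw [h4]
    exact h3

theorem ep_add (t θ α : ℝ) : ep t (θ + α) = Complex.exp (α * I) * ep t θ := by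
  unfold ep
  rw [← Complex.exp_add]
  congr 1
  push_cast
  ring

theorem ep_two_pi (t θ : ℝ) : ep t (θ + 2 * π) = ep t θ := by
  rw [ep_add]
  have : Complex.exp (((2 * π : ℝ) : ℂ) * I) = 1 := by
    push_cast
    exact Complex.exp_two_pi_mul_I
  rw [this, one_mul]

theorem norm_exp_one (α : ℝ) : ‖Complex.exp (α * I)‖ = 1 := Complex.norm_exp_ofReal_mul_I α

theorem conj_exp_mul (α : ℝ) : conj (Complex.exp (α * I)) * Complex.exp (α * I) = 1 := by
  rw [← Complex.normSq_eq_conj_mul_self, Complex.normSq_eq_norm_sq, norm_exp_one]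
  simp

theorem Pk_rot (α : ℝ) (z : ℂ) : Pk (Complex.exp (α * I)) (Complex.exp (α * I) * z) = Pk 1 z := by
  unfold Pk
  rw [norm_exp_mul]
  have : Complex.exp (α * I) - Complex.exp (α * I) * z = Complex.exp (α * I) * (1 - z) := by ring
  rw [this, norm_exp_mul]

theorem ee_rot (α : ℝ) (z : ℂ) : ee (Complex.exp (α * I)) (Complex.exp (α * I) * z) =
    conj (Complex.exp (α * I)) * ee 1 z := by
  unfold ee
  have hc : Complex.exp (α * I) ≠ 0 := Complex.exp_ne_zero _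
  have e1 : Complex.exp (α * I) - Complex.exp (α * I) * z = Complex.exp (α * I) * (1 - z) := by ring
  have e2 : 1 - conj (Complex.exp (α * I) * z) * Complex.exp (α * I) = 1 - conj z * 1 := by
    rw [map_mul]
    have := conj_exp_mul α
    linear_combination (-(conj z)) * this
  have e3 : (Complex.exp (α * I))⁻¹ = conj (Complex.exp (α * I)) := by
    rw [eq_comm, ← mul_eq_one_iff_eq_inv₀ hc]
    exact conj_exp_mul α
  rw [e1, e2, div_eq_mul_inv, mul_inv, e3]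
  ring

theorem mrad_rot {β : ℂ → ℂ} (α : ℝ) (z : ℂ) :
    mrad (rotβ β α) z = mrad β (Complex.exp (α * I) * z) := by
  have h1 : N (rotβ β α) = fun z => N β (Complex.exp (α * I) * z) := funext (rot_N' α)
  unfold mrad
  rw [h1, deriv_comp_mul_left, smul_eq_mul, norm_exp_mul, map_mul]
  have := conj_exp_mul α
  have e : ∀ A : ℂ, Complex.exp (α * I) * z / (‖z‖ : ℂ) *
      (-(conj (Complex.exp (α * I)) * conj z) - A) =
      z / (‖z‖ : ℂ) * (-(conj (Complex.exp (α * I)) * Complex.exp (α * I)) * conj z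
        - Complex.exp (α * I) * A) := by
    intro A; ring
  rw [e, this]
  ring

theorem wf_rot {G β : ℂ → ℂ} (α : ℝ) (z : ℂ) :
    wf G β (Complex.exp (α * I) * z) = conj (Complex.exp (α * I)) * wf G (rotβ β α) z := by
  unfold wf
  rw [mrad_rot, norm_exp_mul, mul_div_assoc, map_mul]
  ring

theorem rot_Kf' {β G : ℂ → ℂ} (α : ℝ) (t₀ t₂ : ℝ) :
    Kf (wf G β) (Complex.exp (α * I)) t₀ t₂ = Kf (wf G (rotβ β α)) 1 t₀ t₂ := by
  unfold Kf
  congr 1
  apply intervalIntegral.integral_congr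
  intro t _
  show (∫ θ in (-π)..π, (t₂ - t) * Pk (Complex.exp (α * I)) (ep t θ) *
      ‖ee (Complex.exp (α * I)) (ep t θ) - wf G β (ep t θ)‖ ^ 2 / Real.sinh t ^ 2) =
    ∫ θ in (-π)..π, (t₂ - t) * Pk 1 (ep t θ) *
      ‖ee 1 (ep t θ) - wf G (rotβ β α) (ep t θ)‖ ^ 2 / Real.sinh t ^ 2
  set f : ℝ → ℝ := fun θ => (t₂ - t) * Pk (Complex.exp (α * I)) (ep t θ) *
      ‖ee (Complex.exp (α * I)) (ep t θ) - wf G β (ep t θ)‖ ^ 2 / Real.sinh t ^ 2 with hf
  have hper : Function.Periodic f (2 * π) := by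
    intro θ
    simp only [hf, ep_two_pi]
  have hshift : ∀ θ, f (θ + α) = (t₂ - t) * Pk 1 (ep t θ) *
      ‖ee 1 (ep t θ) - wf G (rotβ β α) (ep t θ)‖ ^ 2 / Real.sinh t ^ 2 := by
    intro θ
    simp only [hf]
    rw [ep_add, Pk_rot, ee_rot, wf_rot, ← mul_sub, norm_mul]
    have : ‖conj (Complex.exp (α * I))‖ = 1 := by
      rw [RCLike.norm_conj, norm_exp_one]
    rw [this, one_mul]
  have h1 : (∫ θ in (-π)..π, (t₂ - t) * Pk 1 (ep t θ) *
      ‖ee 1 (ep t θ) - wf G (rotβ β α) (ep t θ)‖ ^ 2 / Real.sinh t ^ 2) =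
      ∫ θ in (-π)..π, f (θ + α) := by
    apply intervalIntegral.integral_congr
    intro θ _
    exact (hshift θ).symm
  rw [h1, intervalIntegral.integral_comp_add_right]
  have h2 := hper.intervalIntegral_add_eq (-π) (-π + α)
  have e1 : -π + 2 * π = π := by ring
  have e2 : -π + α + 2 * π = π + α := by ring
  rw [e1, e2] at h2
  exact h2

end Pool.Agent.Helper9.EK

end

section

namespace Pool.Agent.Helper39.Area
end Pool.Agent.Helper39.Area
namespace Pool.Agent.Helper52.EK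
end Pool.Agent.Helper52.EK
namespace Pool.Agent.Helper9.EK
end Pool.Agent.Helper9.EK

set_option autoImplicit false

open Complex MeasureTheory Metric Set

open scoped Real ComplexConjugate

namespace Pool.Agent.Helper61.EK

open Pool.Agent.Helper39.Area Pool.Agent.Helper52.EK Pool.Agent.Helper9.EK

theorem N_circ_cont {β : ℂ → ℂ} {R : ℝ} (h : ExtR β R) {a : ℝ} (ha : 0 < a) (ha1 : a < 1) :
    Continuous (fun α : ℝ => N β (a * Complex.exp (α * I))) := by
  have hmem : ∀ α : ℝ, (a * Complex.exp (α * I) : ℂ) ∈ ball (0:ℂ) R := by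
    intro α
    rw [mem_ball_zero_iff, norm_mul, Complex.norm_exp_ofReal_mul_I, mul_one, Complex.norm_real,
      Real.norm_eq_abs, abs_of_pos ha]
    exact ha1.trans h.one_lt
  have hd : ContinuousOn (deriv β) (ball 0 R) := (h.diff.deriv isOpen_ball).continuousOn
  have hc : Continuous (fun α : ℝ => (a * Complex.exp (α * I) : ℂ)) := by fun_prop
  have h1 : Continuous (fun α : ℝ => deriv β (a * Complex.exp (α * I))) :=
    hd.comp_continuous hc hmem
  unfold N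
  exact continuous_const.sub ((hc.pow 2).mul h1)

theorem N_circ_pos {β : ℂ → ℂ} {R : ℝ} (h : ExtR β R) {a : ℝ} (ha : 0 < a) (ha1 : a < 1) (α : ℝ) :
    0 < ‖N β (a * Complex.exp (α * I))‖ := by
  rw [norm_pos_iff]
  apply h.ne
  rw [mem_ball_zero_iff, norm_mul, Complex.norm_exp_ofReal_mul_I, mul_one, Complex.norm_real,
      Real.norm_eq_abs, abs_of_pos ha]
  exact ha1.trans h.one_lt

theorem exp_per (α : ℝ) : Complex.exp (((α + 2 * π : ℝ) : ℂ) * I) = Complex.exp (α * I) := by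
  push_cast
  rw [add_mul, Complex.exp_add, Complex.exp_two_pi_mul_I, mul_one]

end Pool.Agent.Helper61.EK

end

section

namespace Pool.Agent.Helper52.EK
end Pool.Agent.Helper52.EK
namespace Pool.Agent.Helper73.EK
end Pool.Agent.Helper73.EK

set_option autoImplicit false

open Complex MeasureTheory Metric Set

open scoped Real ComplexConjugate

namespace Pool.Agent.Helper6.EK

open Pool.Agent.Helper52.EK Pool.Agent.Helper73.EK

theorem exp_lt_one' {t : ℝ} (ht : t < 0) : Real.exp t < 1 := by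
  rw [← Real.exp_zero]
  exact Real.exp_lt_exp.2 ht

/-- bounds of the Poisson kernel -/
theorem Pk_bounds {t : ℝ} (ht : t < 0) (α θ : ℝ) :
    (1 - Real.exp t) / (1 + Real.exp t) ≤ Pk (Complex.exp (α * I)) (ep t θ) ∧
      Pk (Complex.exp (α * I)) (ep t θ) ≤ (1 + Real.exp t) / (1 - Real.exp t) := by
  have h0 : 0 < Real.exp t := Real.exp_pos t
  have h1 : Real.exp t < 1 := exp_lt_one' ht
  have h2 : ‖Complex.exp (α * I) - ep t θ‖ ≤ 1 + Real.exp t := by
    have h := norm_sub_le (Complex.exp (α * I)) (ep t θ)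
    rwa [norm_cis, norm_ep] at h
  have h3 : 1 - Real.exp t ≤ ‖Complex.exp (α * I) - ep t θ‖ := by
    have h := norm_sub_norm_le (Complex.exp (α * I)) (ep t θ)
    rwa [norm_cis, norm_ep] at h
  have h4 : 0 < ‖Complex.exp (α * I) - ep t θ‖ := by (clear * - h1 h3; linarith only [h1, h3])
  unfold Pk
  rw [norm_ep]
  constructor
  · rw [div_le_div_iff₀ (by linarith only [h2, h3]) (by (clear * - h4; positivity))]
    have h5 : ‖Complex.exp (α * I) - ep t θ‖ ^ 2 ≤ (1 + Real.exp t) ^ 2 :=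
      pow_le_pow_left₀ h4.le h2 2
    (clear * - h1 h5; nlinarith only [h1, h5])
  · rw [div_le_div_iff₀ (by (clear * - h4; positivity)) (by (clear * - h1; linarith))]
    have h5 : (1 - Real.exp t) ^ 2 ≤ ‖Complex.exp (α * I) - ep t θ‖ ^ 2 :=
      pow_le_pow_left₀ (by (clear * - h1; linarith)) h3 2
    (clear * - h2 h5 h4; nlinarith only [h2, h4, h5])

theorem continuous_F {ρ : ℝ → ℝ} (h : Dens ρ) {t : ℝ} (ht : t < 0) :
    Continuous (Function.uncurry fun θ α : ℝ => Pk (Complex.exp (α * I)) (ep t θ) * ρ α) := by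
  rw [Function.uncurry_def]
  refine Continuous.mul ?_ (h.cont.comp continuous_snd)
  exact Continuous.comp (g := fun p : ℝ × ℝ => Pk (Complex.exp (p.1 * I)) (ep t p.2))
    (f := fun p : ℝ × ℝ => (p.2, p.1)) (continuous_Pk ht)
    (continuous_snd.prodMk continuous_fst)

theorem continuous_uu {ρ : ℝ → ℝ} (h : Dens ρ) {t : ℝ} (ht : t < 0) :
    Continuous (uu ρ t) := by
  have h1 : Continuous fun θ : ℝ => ∫ α in (0:ℝ)..(2 * π),
      Pk (Complex.exp (α * I)) (ep t θ) * ρ α :=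
    intervalIntegral.continuous_parametric_intervalIntegral_of_continuous'
      (continuous_F h ht) 0 (2 * π)
  exact continuous_const.mul h1

theorem cont_alpha {ρ : ℝ → ℝ} (h : Dens ρ) {t : ℝ} (ht : t < 0) (θ : ℝ) :
    Continuous fun α : ℝ => Pk (Complex.exp (α * I)) (ep t θ) * ρ α := by
  have h2 : Continuous fun α : ℝ => ((θ, α) : ℝ × ℝ) := Continuous.prodMk_right θ
  have h3 := (continuous_F h ht).comp h2
  exact h3

theorem uu_bounds {ρ : ℝ → ℝ} (h : Dens ρ) {t : ℝ} (ht : t < 0) (θ : ℝ) :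
    (1 - Real.exp t) / (1 + Real.exp t) ≤ uu ρ t θ ∧
      uu ρ t θ ≤ (1 + Real.exp t) / (1 - Real.exp t) := by
  have hpi : (0:ℝ) < 2 * π := by positivity
  have key : ∀ c : ℝ, (2 * π)⁻¹ * ∫ α in (0:ℝ)..(2 * π), c * ρ α = c := by
    intro c
    rw [intervalIntegral.integral_const_mul, h.one]
    (clear * -; field_simp)
  unfold uu
  constructor
  · conv_lhs => rw [← key ((1 - Real.exp t) / (1 + Real.exp t))]
    refine mul_le_mul_of_nonneg_left ?_ (by positivity)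
    refine intervalIntegral.integral_mono_on hpi.le
      ((continuous_const.mul h.cont).intervalIntegrable _ _)
      ((cont_alpha h ht θ).intervalIntegrable _ _) fun α _ => ?_
    exact mul_le_mul_of_nonneg_right (Pk_bounds ht α θ).1 (h.pos α).le
  · conv_rhs => rw [← key ((1 + Real.exp t) / (1 - Real.exp t))]
    refine mul_le_mul_of_nonneg_left ?_ (by positivity)
    refine intervalIntegral.integral_mono_on hpi.le
      ((cont_alpha h ht θ).intervalIntegrable _ _)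
      ((continuous_const.mul h.cont).intervalIntegrable _ _) fun α _ => ?_
    exact mul_le_mul_of_nonneg_right (Pk_bounds ht α θ).2 (h.pos α).le

theorem uu_pos' {ρ : ℝ → ℝ} (h : Dens ρ) {t : ℝ} (ht : t < 0) (θ : ℝ) : 0 < uu ρ t θ := by
  refine lt_of_lt_of_le ?_ (uu_bounds h ht θ).1
  have h0 : 0 < Real.exp t := Real.exp_pos t
  have h1 : Real.exp t < 1 := exp_lt_one' ht
  exact div_pos (by (clear * - h1; linarith only [h1])) (by linarith only [h0])

/-- the mean of `u` -/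
theorem mean_uu {ρ : ℝ → ℝ} (h : Dens ρ) {t : ℝ} (ht : t < 0) :
    ∫ θ in (-π)..π, uu ρ t θ = 2 * π := by
  unfold uu
  rw [intervalIntegral.integral_const_mul]
  have h1 : ∫ θ in (-π)..π, ∫ α in (0:ℝ)..(2 * π), Pk (Complex.exp (α * I)) (ep t θ) * ρ α =
      ∫ α in (0:ℝ)..(2 * π), ∫ θ in (-π)..π, Pk (Complex.exp (α * I)) (ep t θ) * ρ α := by
    refine intervalIntegral_intervalIntegral_swap
      (F := fun θ α : ℝ => Pk (Complex.exp (α * I)) (ep t θ) * ρ α) ?_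
    have h2 : Continuous (Function.uncurry fun θ α : ℝ =>
        Pk (Complex.exp (α * I)) (ep t θ) * ρ α) := continuous_F h ht
    refine (h2.continuousOn.integrableOn_compact
      (isCompact_uIcc.prod isCompact_uIcc) :
        IntegrableOn _ (uIcc (-π) π ×ˢ uIcc 0 (2 * π))).mono_set ?_
    exact prod_mono uIoc_subset_uIcc uIoc_subset_uIcc
  rw [h1]
  have h3 : ∀ α : ℝ, ∫ θ in (-π)..π, Pk (Complex.exp (α * I)) (ep t θ) * ρ α =
      2 * π * ρ α := by
    intro α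
    rw [intervalIntegral.integral_mul_const, integral_Pk' ht α]
  simp_rw [h3]
  rw [intervalIntegral.integral_const_mul, h.one]
  field_simp

/-- the Poisson kernel is Lipschitz in the radius -/
theorem Pk_lip {s t s₁ : ℝ} (hs : s ≤ s₁) (ht : t ≤ s₁) (hs₁ : s₁ < 0) (α θ : ℝ) :
    |Pk (Complex.exp (α * I)) (ep t θ) - Pk (Complex.exp (α * I)) (ep s θ)| ≤
      8 / (1 - Real.exp s₁) ^ 4 * |t - s| := by
  set ζ := Complex.exp (α * I) with hζ
  set e := Complex.exp (θ * I) with he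
  have hζ1 : ζ.re * ζ.re + ζ.im * ζ.im = 1 := by
    have h := norm_cis α
    rw [← hζ] at h
    have h2 : ‖ζ‖ ^ 2 = 1 := by rw [h, one_pow]
    rw [← Complex.normSq_eq_norm_sq, Complex.normSq_apply] at h2
    exact h2
  have he1 : e.re * e.re + e.im * e.im = 1 := by
    have h := norm_cis θ
    rw [← he] at h
    have h2 : ‖e‖ ^ 2 = 1 := by rw [h, one_pow]
    rw [← Complex.normSq_eq_norm_sq, Complex.normSq_apply] at h2
    exact h2
  set c := ζ.re * e.re + ζ.im * e.im with hc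
  have hc1 : |c| ≤ 1 := by
    rw [abs_le]
    constructor <;> nlinarith only [sq_nonneg (ζ.im + e.im), hζ1, he1, sq_nonneg (ζ.im - e.im)]
  have hD : ∀ t : ℝ, ‖ζ - ep t θ‖ ^ 2 = 1 - 2 * Real.exp t * c + Real.exp t ^ 2 := by
    intro t
    rw [ep_eq, ← he, ← Complex.normSq_eq_norm_sq, Complex.normSq_apply]
    have h1 : (ζ - (Real.exp t : ℂ) * e).re = ζ.re - Real.exp t * e.re := by
      rw [Complex.sub_re, Complex.re_ofReal_mul]
    have h2 : (ζ - (Real.exp t : ℂ) * e).im = ζ.im - Real.exp t * e.im := by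
      rw [Complex.sub_im, Complex.im_ofReal_mul]
    rw [h1, h2, hc]
    linear_combination hζ1 + Real.exp t ^ 2 * he1
  have hPk : ∀ t : ℝ, Pk ζ (ep t θ) =
      (1 - Real.exp t ^ 2) / (1 - 2 * Real.exp t * c + Real.exp t ^ 2) := by
    intro t
    unfold Pk
    rw [hD, norm_ep]
  set r := Real.exp t with hr
  set q := Real.exp s with hq
  set δ := 1 - Real.exp s₁ with hδ
  have hE1 : Real.exp s₁ < 1 := exp_lt_one' hs₁
  have hδ0 : 0 < δ := by rw [hδ]; linarith only [hE1]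
  have hr0 : 0 < r := Real.exp_pos t
  have hq0 : 0 < q := Real.exp_pos s
  have hr1 : r ≤ Real.exp s₁ := Real.exp_le_exp.2 ht
  have hq1 : q ≤ Real.exp s₁ := Real.exp_le_exp.2 hs
  obtain ⟨hcl, hcu⟩ := abs_le.1 hc1
  have hDr : δ ^ 2 ≤ 1 - 2 * r * c + r ^ 2 := by
    have h1 : (1 - r) ^ 2 ≤ 1 - 2 * r * c + r ^ 2 := by nlinarith only [hr0, hcu]
    have h2 : δ ^ 2 ≤ (1 - r) ^ 2 := pow_le_pow_left₀ hδ0.le (by rw [hδ]; (clear * - hr1; linarith)) 2
    (clear * - h1 h2; linarith)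
  have hDq : δ ^ 2 ≤ 1 - 2 * q * c + q ^ 2 := by
    have h1 : (1 - q) ^ 2 ≤ 1 - 2 * q * c + q ^ 2 := by (clear * - hcu hq0; nlinarith only [hq0, hcu])
    have h2 : δ ^ 2 ≤ (1 - q) ^ 2 := pow_le_pow_left₀ hδ0.le (by rw [hδ]; linarith only [hq1]) 2
    linarith only [h1, h2]
  have hδ2 : 0 < δ ^ 2 := by (clear * - hE1; positivity)
  have hDr0 : 0 < 1 - 2 * r * c + r ^ 2 := lt_of_lt_of_le hδ2 hDr
  have hDq0 : 0 < 1 - 2 * q * c + q ^ 2 := lt_of_lt_of_le hδ2 hDq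
  rw [hPk, hPk]
  have hdiff : (1 - r ^ 2) / (1 - 2 * r * c + r ^ 2) - (1 - q ^ 2) / (1 - 2 * q * c + q ^ 2) =
      (r - q) * (2 * c - 2 * (r + q) + 2 * r * q * c) /
        ((1 - 2 * r * c + r ^ 2) * (1 - 2 * q * c + q ^ 2)) := by
    rw [div_sub_div _ _ hDr0.ne' hDq0.ne']
    congr 1
    ring
  rw [hdiff, abs_div, abs_mul]
  have hden : δ ^ 4 ≤ |(1 - 2 * r * c + r ^ 2) * (1 - 2 * q * c + q ^ 2)| := by
    rw [abs_of_pos (mul_pos hDr0 hDq0)]
    calc δ ^ 4 = δ ^ 2 * δ ^ 2 := by ring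
      _ ≤ _ := mul_le_mul hDr hDq hδ2.le hDr0.le
  have hr1' : r < 1 := lt_of_le_of_lt hr1 hE1
  have hq1' : q < 1 := lt_of_le_of_lt hq1 hE1
  have hnum : |2 * c - 2 * (r + q) + 2 * r * q * c| ≤ 8 := by
    have hrq : 0 ≤ r * q := by positivity
    have hrq1 : r * q ≤ 1 := by (clear * - hq1' hq0 hr1'; nlinarith only [hq0, hr1', hq1'])
    rw [abs_le]
    constructor <;> nlinarith only [hcl, hr1', hq1', hrq, hrq1, hδ0, hr0, hq0, hr1, hq1, hcu, hDr0]
  have hexp : |r - q| ≤ |t - s| := by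
    have h1 : ∀ u v : ℝ, u ≤ v → v ≤ 0 → Real.exp v - Real.exp u ≤ v - u := by
      intro u v huv hv
      have h2 := Real.add_one_le_exp (u - v)
      have h3 : Real.exp u = Real.exp v * Real.exp (u - v) := by
        rw [← Real.exp_add]
        congr 1
        ring
      have h4 : Real.exp v ≤ 1 := Real.exp_le_one_iff.2 hv
      have h5 := Real.exp_pos v
      rw [h3]
      nlinarith only [huv, h2, h4, h5]
    rcases le_total s t with hst | hst
    · rw [abs_of_nonneg (sub_nonneg.2 hst), abs_of_nonneg (sub_nonneg.2 (Real.exp_le_exp.2 hst))]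
      exact h1 s t hst (by linarith only [ht, hs₁])
    · rw [abs_of_nonpos (sub_nonpos.2 hst), abs_of_nonpos (sub_nonpos.2 (Real.exp_le_exp.2 hst))]
      have := h1 t s hst (by (clear * - hs hs₁; linarith only [hs, hs₁]))
      linarith only [this]
  calc |r - q| * |2 * c - 2 * (r + q) + 2 * r * q * c| /
        |(1 - 2 * r * c + r ^ 2) * (1 - 2 * q * c + q ^ 2)|
      ≤ (|t - s| * 8) / δ ^ 4 := by
        refine div_le_div₀ (by (clear * -; positivity)) ?_ (by (clear * - hE1; positivity)) hden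
        exact mul_le_mul hexp hnum (abs_nonneg _) (abs_nonneg _)
    _ = 8 / δ ^ 4 * |t - s| := by ring

/-- the derivative of `u` in `t` at `-1` is bounded -/
theorem ut_bound {ρ : ℝ → ℝ} (h : Dens ρ) (θ : ℝ) :
    |ut ρ (-1) θ| ≤ 8 / (1 - Real.exp (-1 / 2)) ^ 4 := by
  have hpi : (0:ℝ) < 2 * π := by positivity
  have hE : Real.exp (-1 / 2 : ℝ) < 1 := exp_lt_one' (by norm_num)
  have hpos : 0 < 1 - Real.exp (-1 / 2 : ℝ) := by linarith only [hE]
  set L := 8 / (1 - Real.exp (-1 / 2 : ℝ)) ^ 4 with hL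
  have hL0 : 0 ≤ L := by (clear * - hE; positivity)
  change ‖deriv (fun t' => uu ρ t' θ) (-1)‖ ≤ L
  refine norm_deriv_le_of_lip' hL0 ?_
  filter_upwards [Iio_mem_nhds (show (-1:ℝ) < -1 / 2 by norm_num)] with t ht
  have ht' : t ≤ -1 / 2 := le_of_lt ht
  have ht0 : t < 0 := by (clear * - ht'; linarith only [ht'])
  rw [Real.norm_eq_abs, Real.norm_eq_abs]
  change |uu ρ t θ - uu ρ (-1) θ| ≤ _
  unfold uu
  rw [← mul_sub, ← intervalIntegral.integral_sub
    ((cont_alpha h ht0 θ).intervalIntegrable _ _)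
    ((cont_alpha h (by norm_num : (-1:ℝ) < 0) θ).intervalIntegrable _ _), abs_mul,
    abs_of_pos (inv_pos.2 hpi)]
  have h1 : |∫ α in (0:ℝ)..(2 * π), (Pk (Complex.exp (α * I)) (ep t θ) * ρ α -
      Pk (Complex.exp (α * I)) (ep (-1) θ) * ρ α)| ≤
      ∫ α in (0:ℝ)..(2 * π), L * |t - -1| * ρ α := by
    rw [← Real.norm_eq_abs]
    refine intervalIntegral.norm_integral_le_of_norm_le hpi.le ?_
      ((continuous_const.mul h.cont).intervalIntegrable _ _)
    refine Filter.Eventually.of_forall fun α _ => ?_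
    rw [← sub_mul, norm_mul, Real.norm_eq_abs, Real.norm_eq_abs, abs_of_pos (h.pos α)]
    exact mul_le_mul_of_nonneg_right
      (Pk_lip (s₁ := -1 / 2) (by norm_num) ht' (by norm_num) α θ) (h.pos α).le
  rw [intervalIntegral.integral_const_mul, h.one] at h1
  calc (2 * π)⁻¹ * |∫ α in (0:ℝ)..(2 * π), (Pk (Complex.exp (α * I)) (ep t θ) * ρ α -
        Pk (Complex.exp (α * I)) (ep (-1) θ) * ρ α)|
      ≤ (2 * π)⁻¹ * (L * |t - -1| * (2 * π)) :=
        mul_le_mul_of_nonneg_left h1 (inv_nonneg.2 hpi.le)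
    _ = L * |t - -1| := by field_simp

theorem E2c : ∃ C : ℝ, ∀ ρ : ℝ → ℝ, Dens ρ → 0 ≤ AA ρ (-1) ∧ -C ≤ A1 ρ (-1) := by
  have hpi : (0:ℝ) < 2 * π := by positivity
  have h10 : (-1:ℝ) < 0 := by norm_num
  have hE0 : 0 < Real.exp (-1 : ℝ) := Real.exp_pos _
  have hE1 : Real.exp (-1 : ℝ) < 1 := exp_lt_one' h10
  have hE : Real.exp (-1 / 2 : ℝ) < 1 := exp_lt_one' (by norm_num)
  have hpos : 0 < 1 - Real.exp (-1 / 2 : ℝ) := by linarith
  set L := 8 / (1 - Real.exp (-1 / 2 : ℝ)) ^ 4 with hL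
  have hL0 : 0 ≤ L := by (clear * - hE; positivity)
  set M := Real.log ((1 + Real.exp (-1)) / (1 - Real.exp (-1))) with hM
  have hM0 : 0 ≤ M := by
    apply Real.log_nonneg
    rw [le_div_iff₀ (by linarith only [hE1])]
    (clear * - hE0; linarith only [hE0])
  refine ⟨(1 + M) * L, fun ρ h => ⟨?_, ?_⟩⟩
  · have hcont := continuous_uu h h10
    have h1 : 0 ≤ ∫ θ in (-π)..π, (uu ρ (-1) θ * Real.log (uu ρ (-1) θ) - (uu ρ (-1) θ - 1)) := by
      refine intervalIntegral.integral_nonneg (by linarith only [hpi]) fun θ _ => ?_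
      have h2 := uu_pos' h h10 θ
      have h3 := Real.one_sub_inv_le_log_of_pos h2
      have h4 := mul_le_mul_of_nonneg_left h3 h2.le
      rw [mul_sub, mul_inv_cancel₀ h2.ne', mul_one] at h4
      (clear * - h4; linarith only [h4])
    have hclog : Continuous fun θ => uu ρ (-1) θ * Real.log (uu ρ (-1) θ) :=
      hcont.mul (hcont.log fun θ => (uu_pos' h h10 θ).ne')
    have hc1 : Continuous fun θ => uu ρ (-1) θ - 1 := hcont.sub continuous_const
    have hc2 : Continuous fun _ : ℝ => (1:ℝ) := continuous_const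
    rw [intervalIntegral.integral_sub (hclog.intervalIntegrable _ _)
      (hc1.intervalIntegrable _ _),
      intervalIntegral.integral_sub (hcont.intervalIntegrable _ _)
      (hc2.intervalIntegrable _ _), mean_uu h h10] at h1
    have h5 : ∫ _θ in (-π)..π, (1:ℝ) = 2 * π := by
      rw [intervalIntegral.integral_const, smul_eq_mul, mul_one]
      ring
    rw [h5, sub_self, sub_zero] at h1
    unfold AA
    exact mul_nonneg (inv_nonneg.2 hpi.le) h1
  · have hlog : ∀ θ, |1 + Real.log (uu ρ (-1) θ)| ≤ 1 + M := by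
      intro θ
      obtain ⟨h1, h2⟩ := uu_bounds h h10 θ
      have h3 := uu_pos' h h10 θ
      have h4 : Real.log (uu ρ (-1) θ) ≤ M := Real.log_le_log h3 h2
      have h5 : -M ≤ Real.log (uu ρ (-1) θ) := by
        have h6 : -M = Real.log ((1 - Real.exp (-1)) / (1 + Real.exp (-1))) := by
          rw [hM, ← Real.log_inv, inv_div]
        rw [h6]
        exact Real.log_le_log (div_pos (by (clear * - hE1; linarith only [hE1])) (by linarith only [hE0])) h1
      rw [abs_le]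
      constructor <;> (clear * - h5 h4; linarith only [h5, h4])
    have h1 : ‖∫ θ in (-π)..π, (1 + Real.log (uu ρ (-1) θ)) * ut ρ (-1) θ‖ ≤
        (1 + M) * L * |π - -π| := by
      refine intervalIntegral.norm_integral_le_of_norm_le_const fun θ _ => ?_
      rw [norm_mul, Real.norm_eq_abs, Real.norm_eq_abs]
      exact mul_le_mul (hlog θ) (ut_bound h θ) (abs_nonneg _) (by linarith only [hM0])
    rw [Real.norm_eq_abs, show π - -π = 2 * π by ring, abs_of_pos hpi] at h1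
    have h2 := (abs_le.1 h1).1
    unfold A1
    have h3 : (2 * π)⁻¹ * (-((1 + M) * L * (2 * π))) = -((1 + M) * L) := by (clear * - hM0; field_simp)
    rw [← h3]
    exact mul_le_mul_of_nonneg_left h2 (inv_nonneg.2 hpi.le)

end Pool.Agent.Helper6.EK

end

section

namespace Pool.Agent.Helper52.EK
end Pool.Agent.Helper52.EK

set_option autoImplicit false

/-!
Project EK (MP_16b0ee_an), E2e: the entropy loss is a continuous function of the target.
-/

open Complex MeasureTheory Metric Set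

open scoped Real ComplexConjugate

namespace Pool.Agent.Helper26.EK

open Pool.Agent.Helper52.EK

theorem norm_ep (t θ : ℝ) : ‖ep t θ‖ = Real.exp t := by
  unfold ep
  rw [Complex.norm_exp]
  simp

theorem continuous_ep {X : Type*} [TopologicalSpace X] {f g : X → ℝ} (hf : Continuous f)
    (hg : Continuous g) : Continuous fun x => ep (f x) (g x) := by
  unfold ep
  fun_prop

/-- E2e -/
theorem Kf_cont {w : ℂ → ℂ} (hw : ContinuousOn w {z | 0 < ‖z‖ ∧ ‖z‖ < 1}) {t₂ : ℝ}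
    (h1 : -1 < t₂) (h2 : t₂ < 0) :
    Continuous (fun α : ℝ => Kf w (Complex.exp (α * I)) (-1) t₂) := by
  set cl : ℝ → ℝ := fun t => max (-1) (min t t₂) with hcl
  have hclc : Continuous cl := by
    rw [hcl]
    fun_prop
  have hcl0 : ∀ t, cl t < 0 := by
    intro t
    rw [hcl]
    exact max_lt (by norm_num) ((min_le_right _ _).trans_lt h2)
  have hcl1 : ∀ t ∈ uIcc (-1) t₂, cl t = t := by
    intro t ht
    rw [uIcc_of_le h1.le] at ht
    rw [hcl]
    simp only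
    rw [min_eq_left ht.2, max_eq_right ht.1]
  -- the integrand with `t` replaced by its projection to the interval
  set F : (ℝ × ℝ) × ℝ → ℝ := fun q => (t₂ - q.1.2) *
      Pk (Complex.exp (q.1.1 * I)) (ep (cl q.1.2) q.2) *
      ‖ee (Complex.exp (q.1.1 * I)) (ep (cl q.1.2) q.2) - w (ep (cl q.1.2) q.2)‖ ^ 2 /
        Real.sinh (cl q.1.2) ^ 2 with hF
  have hz : Continuous fun q : (ℝ × ℝ) × ℝ => ep (cl q.1.2) q.2 :=
    continuous_ep (hclc.comp (continuous_snd.comp continuous_fst)) continuous_snd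
  have hnz : ∀ q : (ℝ × ℝ) × ℝ, ‖ep (cl q.1.2) q.2‖ < 1 := by
    intro q
    rw [norm_ep]
    exact Real.exp_lt_one_iff.mpr (hcl0 _)
  have hnz0 : ∀ q : (ℝ × ℝ) × ℝ, 0 < ‖ep (cl q.1.2) q.2‖ := by
    intro q
    rw [norm_ep]
    exact Real.exp_pos _
  have hζ : Continuous fun q : (ℝ × ℝ) × ℝ => Complex.exp (q.1.1 * I) := by
    fun_prop
  have hnζ : ∀ q : (ℝ × ℝ) × ℝ, ‖Complex.exp (q.1.1 * I)‖ = 1 := fun q =>
    Complex.norm_exp_ofReal_mul_I _
  have hne : ∀ q : (ℝ × ℝ) × ℝ, Complex.exp (q.1.1 * I) - ep (cl q.1.2) q.2 ≠ 0 := by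
    intro q h
    have h3 := congrArg norm (sub_eq_zero.1 h)
    rw [hnζ] at h3
    exact (hnz q).ne h3.symm
  have hFc : Continuous F := by
    rw [hF]
    have hsinh : ∀ q : (ℝ × ℝ) × ℝ, Real.sinh (cl q.1.2) ^ 2 ≠ 0 := by
      intro q
      have := Real.sinh_neg_iff.2 (hcl0 q.1.2)
      exact pow_ne_zero 2 this.ne
    have hP : Continuous fun q : (ℝ × ℝ) × ℝ =>
        Pk (Complex.exp (q.1.1 * I)) (ep (cl q.1.2) q.2) := by
      unfold Pk
      refine Continuous.div ?_ ?_ ?_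
      · exact continuous_const.sub (hz.norm.pow 2)
      · exact (hζ.sub hz).norm.pow 2
      · intro q
        exact pow_ne_zero 2 (norm_ne_zero_iff.2 (hne q))
    have hE : Continuous fun q : (ℝ × ℝ) × ℝ =>
        ee (Complex.exp (q.1.1 * I)) (ep (cl q.1.2) q.2) := by
      unfold ee
      refine Continuous.div ?_ ?_ ?_
      · exact continuous_const.sub ((Complex.continuous_conj.comp hz).mul hζ)
      · exact hζ.sub hz
      · exact hne
    have hW : Continuous fun q : (ℝ × ℝ) × ℝ => w (ep (cl q.1.2) q.2) :=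
      hw.comp_continuous hz fun q => ⟨hnz0 q, hnz q⟩
    refine Continuous.div ?_ ?_ hsinh
    · refine Continuous.mul (Continuous.mul ?_ hP) ?_
      · exact continuous_const.sub (continuous_snd.comp continuous_fst)
      · exact (hE.sub hW).norm.pow 2
    · exact (Real.continuous_sinh.comp (hclc.comp (continuous_snd.comp continuous_fst))).pow 2
  -- the integrals
  have h3 : Continuous fun p : ℝ × ℝ => ∫ θ in (-π)..π, F (p, θ) :=
    intervalIntegral.continuous_parametric_intervalIntegral_of_continuous' (μ := volume)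
      (f := fun p : ℝ × ℝ => fun θ => F (p, θ)) hFc (-π) π
  have h4 : Continuous fun α : ℝ => ∫ t in (-1)..t₂, ∫ θ in (-π)..π, F ((α, t), θ) :=
    intervalIntegral.continuous_parametric_intervalIntegral_of_continuous' (μ := volume)
      (f := fun α : ℝ => fun t => ∫ θ in (-π)..π, F ((α, t), θ)) h3 (-1) t₂
  have h5 : (fun α : ℝ => Kf w (Complex.exp (α * I)) (-1) t₂) =
      fun α : ℝ => (2 * π)⁻¹ * ∫ t in (-1)..t₂, ∫ θ in (-π)..π, F ((α, t), θ) := by
    funext α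
    unfold Kf
    congr 1
    refine intervalIntegral.integral_congr fun t ht => ?_
    refine intervalIntegral.integral_congr fun θ _ => ?_
    have h6 := hcl1 t ht
    change _ = (t₂ - t) * Pk (Complex.exp (α * I)) (ep (cl t) θ) *
      ‖ee (Complex.exp (α * I)) (ep (cl t) θ) - w (ep (cl t) θ)‖ ^ 2 / Real.sinh (cl t) ^ 2
    rw [h6]
  rw [h5]
  exact continuous_const.mul h4

end Pool.Agent.Helper26.EK

end

section

namespace Pool.Agent.Helper52.EK
end Pool.Agent.Helper52.EK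

set_option autoImplicit false

open Complex Metric Set

open scoped Real ComplexConjugate

namespace Pool.Agent.Helper69.EK3

open Pool.Agent.Helper52.EK

/-- `p₀ + p₁ |m+1|² + p₂ |m|²` -/
noncomputable def rF (p0 p1 p2 : ℝ) (m : ℂ) : ℝ := p0 + p1 * ‖m + 1‖ ^ 2 + p2 * ‖m‖ ^ 2

/-- `m + (1 - |m|²)/ρ (a m + b)` -/
noncomputable def Fq (a b p0 p1 p2 : ℝ) (m : ℂ) : ℂ :=
  m + (((1 - ‖m‖ ^ 2) / rF p0 p1 p2 m : ℝ) : ℂ) * ((a : ℂ) * m + (b : ℂ))

theorem normsq_add_one (m : ℂ) : ‖m + 1‖ ^ 2 = ‖m‖ ^ 2 + 2 * m.re + 1 := by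
  rw [← normSq_eq_norm_sq, ← normSq_eq_norm_sq, normSq_apply, normSq_apply]
  simp only [add_re, add_im, one_re, one_im]
  ring

theorem rF_eq (p0 p1 p2 : ℝ) (m : ℂ) :
    rF p0 p1 p2 m = (p0 + p1) + 2 * p1 * m.re + (p1 + p2) * ‖m‖ ^ 2 := by
  unfold rF
  rw [normsq_add_one]
  ring

theorem re_sq_le (m : ℂ) : m.re ^ 2 ≤ ‖m‖ ^ 2 := by
  rw [← normSq_eq_norm_sq, normSq_apply]
  nlinarith [mul_self_nonneg m.im]

theorem sq_lip (m m' : ℂ) : |‖m‖ ^ 2 - ‖m'‖ ^ 2| ≤ (‖m‖ + ‖m'‖) * ‖m - m'‖ := by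
  have e : ‖m‖ ^ 2 - ‖m'‖ ^ 2 = (‖m‖ + ‖m'‖) * (‖m‖ - ‖m'‖) := by ring
  rw [e, abs_mul, abs_of_nonneg (by (clear * -; positivity))]
  exact mul_le_mul_of_nonneg_left (abs_norm_sub_norm_le m m') (by (clear * -; positivity))

theorem re_lip (m m' : ℂ) : |m.re - m'.re| ≤ ‖m - m'‖ := by
  have := Complex.abs_re_le_norm (m - m')
  rwa [sub_re] at this

theorem rF_lip (p0 p1 p2 : ℝ) (m m' : ℂ) : |rF p0 p1 p2 m - rF p0 p1 p2 m'| ≤
    (|2 * p1| + |p1 + p2|) * ((1 + ‖m‖ + ‖m'‖) * ‖m - m'‖) := by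
  have e : rF p0 p1 p2 m - rF p0 p1 p2 m' = 2 * p1 * (m.re - m'.re) +
      (p1 + p2) * (‖m‖ ^ 2 - ‖m'‖ ^ 2) := by
    rw [rF_eq, rF_eq]
    ring
  rw [e]
  refine (abs_add_le _ _).trans ?_
  rw [abs_mul (2 * p1), abs_mul (p1 + p2)]
  have h1 := re_lip m m'
  have h2 := sq_lip m m'
  have h0 := norm_nonneg (m - m')
  have h3 := norm_nonneg m
  have h4 := norm_nonneg m'
  have h5 : |m.re - m'.re| ≤ (1 + ‖m‖ + ‖m'‖) * ‖m - m'‖ := by (clear * - h3 h0 h4 h1; linarith only [mul_nonneg h3 h0, mul_nonneg h4 h0, h1])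
  have h6 : |‖m‖ ^ 2 - ‖m'‖ ^ 2| ≤ (1 + ‖m‖ + ‖m'‖) * ‖m - m'‖ := by (clear * - h2 h0; linarith only [h2, h0])
  have h7 := mul_le_mul_of_nonneg_left h5 (abs_nonneg (2 * p1))
  have h8 := mul_le_mul_of_nonneg_left h6 (abs_nonneg (p1 + p2))
  linarith only [h7, h8]

/-- Lipschitz bound with decay for a quotient -/
theorem rat_lip {N N' : ℂ} {r r' x y t CN Cr c B : ℝ} (hc : 0 < c) (hCN : 0 ≤ CN) (hCr : 0 ≤ Cr)
    (hB : 0 ≤ B) (ht : 0 ≤ t) (hy : 0 ≤ y) (hxy : y ≤ x)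
    (h1 : ‖N - N'‖ ≤ CN * ((1 + x + y) * t)) (h2 : |r - r'| ≤ Cr * ((1 + x + y) * t))
    (h3 : c * (1 + x ^ 2) ≤ r) (h4 : 0 < r') (h5 : ‖N'‖ ≤ B * r') :
    (1 + x) * ‖N / (r : ℂ) - N' / (r' : ℂ)‖ ≤ 4 * (CN + B * Cr) / c * t := by
  have hx : 0 ≤ x := hy.trans hxy
  have hr : 0 < r := lt_of_lt_of_le (by (clear * - hc; positivity)) h3
  have hrc : (r : ℂ) ≠ 0 := by exact_mod_cast hr.ne'
  have hrc' : (r' : ℂ) ≠ 0 := by exact_mod_cast h4.ne'
  have e : N / (r : ℂ) - N' / (r' : ℂ) =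
      ((N - N') - (N' / (r' : ℂ)) * (((r - r' : ℝ)) : ℂ)) / (r : ℂ) := by
    push_cast
    field_simp
    ring
  have h6 : ‖N' / (r' : ℂ)‖ ≤ B := by
    rw [norm_div, Complex.norm_real, Real.norm_of_nonneg h4.le, div_le_iff₀ h4]
    exact h5
  have h7 : ‖(N - N') - (N' / (r' : ℂ)) * (((r - r' : ℝ)) : ℂ)‖ ≤
      (CN + B * Cr) * ((1 + x + y) * t) := by
    refine (norm_sub_le _ _).trans ?_
    rw [norm_mul, Complex.norm_real, Real.norm_eq_abs]
    have := mul_le_mul h6 h2 (abs_nonneg _) hB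
    (clear * - h1 this; linarith only [h1, this])
  rw [e, norm_div, Complex.norm_real, Real.norm_of_nonneg hr.le]
  have h8 : (1 + x) * ((1 + x + y) * t) ≤ 4 / c * t * r := by
    have h9 : (1 + x) * (1 + x + y) ≤ 4 * (1 + x ^ 2) := by nlinarith only [sq_nonneg (x - 1), hy, hxy]
    have h10 : 4 * (1 + x ^ 2) ≤ 4 / c * r := by
      rw [div_mul_eq_mul_div, le_div_iff₀ hc]
      linarith only [h3]
    have h11 := mul_le_mul_of_nonneg_right (h9.trans h10) ht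
    linarith only [h11]
  rw [mul_div_assoc', div_le_iff₀ hr]
  have hC : 0 ≤ CN + B * Cr := by (clear * - hCN hB hCr; positivity)
  calc (1 + x) * ‖(N - N') - (N' / (r' : ℂ)) * (((r - r' : ℝ)) : ℂ)‖ ≤
        (1 + x) * ((CN + B * Cr) * ((1 + x + y) * t)) :=
        mul_le_mul_of_nonneg_left h7 (by linarith only [hx])
    _ = (CN + B * Cr) * ((1 + x) * ((1 + x + y) * t)) := by ring
    _ ≤ (CN + B * Cr) * (4 / c * t * r) := mul_le_mul_of_nonneg_left h8 hC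
    _ = 4 * (CN + B * Cr) / c * t * r := by ring

theorem Fq_conj (a b p0 p1 p2 : ℝ) (m : ℂ) :
    Fq a b p0 p1 p2 (conj m) = conj (Fq a b p0 p1 p2 m) := by
  have h : rF p0 p1 p2 (conj m) = rF p0 p1 p2 m := by
    rw [rF_eq, rF_eq, norm_conj, conj_re]
  unfold Fq
  rw [h, norm_conj]
  simp only [map_add, map_mul, conj_ofReal]

theorem Fq_circle {a b p0 p1 p2 : ℝ} {m : ℂ} (hm : ‖m‖ = 1) : Fq a b p0 p1 p2 m = m := by
  unfold Fq
  rw [hm]
  simp

theorem Fq_div {a b p0 p1 p2 : ℝ} {m : ℂ} (h : rF p0 p1 p2 m ≠ 0) : Fq a b p0 p1 p2 m =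
    (m * ((rF p0 p1 p2 m : ℝ) : ℂ) + ((1 - ‖m‖ ^ 2 : ℝ) : ℂ) * ((a : ℂ) * m + (b : ℂ))) /
      ((rF p0 p1 p2 m : ℝ) : ℂ) := by
  have h' : ((rF p0 p1 p2 m : ℝ) : ℂ) ≠ 0 := by exact_mod_cast h
  unfold Fq
  push_cast
  (clear * - h'; field_simp)

theorem quad_nonneg {A B C n x : ℝ} (hA : 0 ≤ A) (hC : 0 ≤ C) (h : B ^ 2 ≤ 4 * (A * C))
    (hn : x ^ 2 ≤ n) : 0 ≤ A * n + B * x + C := by
  have h1 : A * x ^ 2 ≤ A * n := mul_le_mul_of_nonneg_left hn hA
  rcases eq_or_lt_of_le hA with h0 | h0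
  · rw [← h0] at h h1
    have hB : B = 0 := by (clear * - h; nlinarith only [h])
    rw [hB, ← h0]
    linarith
  · have h2 : 0 ≤ 4 * A * (A * x ^ 2 + B * x + C) := by
      have e : 4 * A * (A * x ^ 2 + B * x + C) = (2 * A * x + B) ^ 2 + (4 * (A * C) - B ^ 2) := by
        ring
      rw [e]
      (clear * - h; nlinarith only [h])
    have h3 := nonneg_of_mul_nonneg_right h2 (by positivity)
    linarith

section inside

end inside

section outside

end outside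

end Pool.Agent.Helper69.EK3

end

section

namespace Pool.Agent.Helper39.Area
end Pool.Agent.Helper39.Area
namespace Pool.Agent.Helper52.EK
end Pool.Agent.Helper52.EK
namespace Pool.Agent.Helper97.EK
end Pool.Agent.Helper97.EK

set_option autoImplicit false

open Complex MeasureTheory Metric Set

open scoped Real ComplexConjugate

namespace Pool.Agent.Helper69.EK7

open Pool.Agent.Helper39.Area Pool.Agent.Helper52.EK Pool.Agent.Helper97.EK

/-- the Schwarzian derivative of `φ ζ = ζ⁻¹ + β ζ` -/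
noncomputable def Sc (β : ℂ → ℂ) (z : ℂ) : ℂ :=
  deriv (deriv (N β)) z / N β z - 3 / 2 * (deriv (N β) z / N β z) ^ 2 +
    2 / z * (deriv (N β) z / N β z)

/-- the normalised Schwarzian derivative in the radial frame -/
noncomputable def srad (β : ℂ → ℂ) (z : ℂ) : ℂ :=
  (z / ‖z‖) ^ 2 * (1 - ‖z‖ ^ 2) ^ 2 * Sc β z

/-- the Schwarzian derivative as a function of `X`, `Y = X'`, `Z = X''` and the angle -/
noncomputable def tX (X Y Z : ℂ) (s c : ℝ) : ℂ :=
  4 * (s : ℂ) ^ 2 * e0 s c * (1 / 2 - 2 * X ^ 2 + Z / X - 3 / 2 * (Y / X) ^ 2)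

theorem hasDerivAt_N1 {β : ℂ → ℂ} (h : Ext β) {z : ℂ} (hz : z ∈ ball (0 : ℂ) 1) :
    HasDerivAt (N β) (deriv (N β) z) z := (hasDerivAt_N h hz).differentiableAt.hasDerivAt

theorem N_diffOn {β : ℂ → ℂ} (h : Ext β) : DifferentiableOn ℂ (N β) (ball 0 1) := fun _ hz =>
  (hasDerivAt_N h hz).differentiableAt.differentiableWithinAt

theorem hasDerivAt_N2 {β : ℂ → ℂ} (h : Ext β) {z : ℂ} (hz : z ∈ ball (0 : ℂ) 1) :
    HasDerivAt (deriv (N β)) (deriv (deriv (N β)) z) z :=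
  (((N_diffOn h).deriv isOpen_ball).differentiableAt (isOpen_ball.mem_nhds hz)).hasDerivAt

/-- the derivative of `N'/N - 2/z` -/
theorem hasDerivAt_D {β : ℂ → ℂ} (h : Ext β) {z : ℂ} (hz : z ∈ ball (0 : ℂ) 1) (hz0 : z ≠ 0) :
    HasDerivAt (fun z => deriv (N β) z / N β z - 2 / z)
      (Sc β z + (deriv (N β) z / N β z - 2 / z) ^ 2 / 2) z := by
  have hN : N β z ≠ 0 := h.ne z hz
  have h1 := (hasDerivAt_N2 h hz).div (hasDerivAt_N1 h hz) hN
  have h2 : HasDerivAt (fun z : ℂ => 2 / z) (-(2 / z ^ 2)) z := by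
    have h3 := (hasDerivAt_inv hz0).const_mul 2
    refine (h3.congr_deriv ?_).congr_of_eventuallyEq (Filter.Eventually.of_forall fun w => ?_)
    · field_simp
    · simp only
      rw [div_eq_mul_inv]
  refine (h1.sub h2).congr_deriv ?_
  unfold Sc
  field_simp
  ring

theorem deriv2_Xf {β : ℂ → ℂ} (h : Ext β) {a : ℝ} (ha : 0 < a) (ha1 : a < 1) {ω : ℂ}
    (hω : I + Complex.exp ω ≠ 0) (hz : zf ω ∈ ball (0 : ℂ) 1) (hz0 : zf ω ≠ 0)
    (hza : zf ω ≠ (a : ℂ)) :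
    deriv (Xf β a) ω = Xf β a ω * (zf ω + zd ω * (deriv (N β) (zf ω) / N β (zf ω) - 2 / zf ω)
      - 2 * Xf β a ω) ∧
    deriv (deriv (Xf β a)) ω = Xf β a ω * ((zf ω + zd ω * (deriv (N β) (zf ω) / N β (zf ω) -
        2 / zf ω) - 2 * Xf β a ω) ^ 2 +
      (zd ω + zd ω * zf ω * (deriv (N β) (zf ω) / N β (zf ω) - 2 / zf ω) + zd ω *
        ((Sc β (zf ω) + (deriv (N β) (zf ω) / N β (zf ω) - 2 / zf ω) ^ 2 / 2) * zd ω) -
        2 * (Xf β a ω * (zf ω + zd ω * (deriv (N β) (zf ω) / N β (zf ω) - 2 / zf ω)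
      - 2 * Xf β a ω)))) := by
  have haB : (a : ℂ) ∈ ball (0 : ℂ) 1 := by
    rw [mem_ball_zero_iff, Complex.norm_real, Real.norm_of_nonneg ha.le]
    exact ha1
  have ha0 : (a : ℂ) ≠ 0 := Complex.ofReal_ne_zero.2 ha.ne'
  have hne : ∀ z : ℂ, z ∈ ball (0 : ℂ) 1 → z ≠ 0 → z ≠ (a : ℂ) →
      phi β z - phi β (a : ℂ) ≠ 0 := fun z h1 h2 h3 h4 =>
    h3 (h.inj _ _ h1 haB h2 ha0 (sub_eq_zero.1 h4))
  have hzf : ContinuousAt zf ω := (hasDerivAt_zf hω).continuousAt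
  have ev1 : ∀ᶠ v in nhds ω, I + Complex.exp v ≠ 0 :=
    (continuous_const.add Complex.continuous_exp).continuousAt.eventually_ne hω
  have ev2 : ∀ᶠ v in nhds ω, zf v ∈ ball (0 : ℂ) 1 := hzf.eventually (isOpen_ball.mem_nhds hz)
  have ev3 : ∀ᶠ v in nhds ω, zf v ≠ 0 := hzf.eventually_ne hz0
  have ev4 : ∀ᶠ v in nhds ω, zf v ≠ (a : ℂ) := hzf.eventually_ne hza
  have ev : deriv (Xf β a) =ᶠ[nhds ω] fun v => Xf β a v * (zf v + zd v *
      (deriv (N β) (zf v) / N β (zf v) - 2 / zf v) - 2 * Xf β a v) := by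
    filter_upwards [ev1, ev2, ev3, ev4] with v h1 h2 h3 h4
    exact deriv_Xf h h1 h2 h3 (hne _ h2 h3 h4)
  have e1 : deriv (Xf β a) ω = Xf β a ω * (zf ω + zd ω * (deriv (N β) (zf ω) / N β (zf ω) -
      2 / zf ω) - 2 * Xf β a ω) := ev.self_of_nhds
  refine ⟨e1, ?_⟩
  have hXd : HasDerivAt (Xf β a) (deriv (Xf β a) ω) ω := by
    have h1 := hasDerivAt_zf hω
    have h2 := hasDerivAt_zd hω
    have h3 := (hasDerivAt_dphi h hz hz0).comp ω h1
    have h4 := (hasDerivAt_phi h.diff hz hz0).comp ω h1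
    exact ((h2.mul h3).div ((h4.sub_const (phi β (a : ℂ))).const_mul 2)
      (mul_ne_zero two_ne_zero (hne _ hz hz0 hza))).differentiableAt.hasDerivAt
  have hD := (hasDerivAt_D h hz hz0).comp ω (hasDerivAt_zf hω)
  have hA := ((hasDerivAt_zf hω).add ((hasDerivAt_zd hω).mul hD)).sub (hXd.const_mul 2)
  have hF := hXd.mul hA
  rw [ev.deriv_eq]
  have e2 := hF.deriv
  refine Eq.trans e2 ?_
  simp only [Function.comp_apply, Pi.add_apply, Pi.sub_apply, Pi.mul_apply]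
  rw [e1]
  ring

/-- the bracket is the Schwarzian derivative times `zd²` -/
theorem bracket_alg {X q A z d S D : ℂ} (hX : X ≠ 0) (hA : A = z + d * D) (hq : q = A - 2 * X)
    (hz : 1 / 2 - z ^ 2 / 2 + d = 0) :
    1 / 2 - 2 * X ^ 2 + X * (q ^ 2 + (d + d * z * D + d * ((S + D ^ 2 / 2) * d) -
      2 * (X * q))) / X - 3 / 2 * (X * q / X) ^ 2 = d ^ 2 * S := by
  rw [mul_div_cancel_left₀ _ hX, mul_div_cancel_left₀ _ hX, hq, hA]
  linear_combination hz

theorem half_zf {ω : ℂ} (h : I + Complex.exp ω ≠ 0) :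
    1 / 2 - zf ω ^ 2 / 2 + zd ω = 0 := by
  unfold zf zd
  rw [add_comm (Complex.exp ω) I]
  field_simp
  ring

/-- the frames -/
theorem frame_sq (Z W y r₁ r₂ : ℂ) (hW : W = Z - 2 * y * I) (hZ : Z ≠ 0) (h1 : I + Z ≠ 0)
    (h2 : I - Z ≠ 0) (h3 : I - W ≠ 0) (hr1 : r₁ ≠ 0) (hr2 : r₂ ≠ 0) :
    ((I - Z) / (I + Z) / (r₁ / r₂)) ^ 2 * (1 - (I - Z) / (I + Z) * ((-I - W) / (-I + W))) ^ 2 =
    (r₂ / r₁ * ((I - Z) / (I - W))) ^ 2 *
      (-(4 * y ^ 2 / Z ^ 2) * (-2 * I * Z / (Z + I) ^ 2) ^ 2) := by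
  have h3' : -I + W ≠ 0 := by
    intro h
    apply h3
    linear_combination -h
  have h1' : Z + I ≠ 0 := by rwa [add_comm]
  have e1 : 1 - (I - Z) / (I + Z) * ((-I - W) / (-I + W)) = 4 * y / ((I + Z) * (-I + W)) := by
    rw [div_mul_div_comm, eq_div_iff (mul_ne_zero h1 h3'), sub_mul,
      div_mul_cancel₀ _ (mul_ne_zero h1 h3'), hW]
    linear_combination (-4 * y) * I_sq
  have e3 : (4 * y / ((I + Z) * (-I + W))) ^ 2 = (4 * y) ^ 2 / ((I + Z) ^ 2 * (I - W) ^ 2) := by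
    have e2 : (-I + W) ^ 2 = (I - W) ^ 2 := by ring
    rw [div_pow, mul_pow (I + Z), e2]
  have e4 : (-2 * I * Z / (Z + I) ^ 2) ^ 2 = -(4 * Z ^ 2) / (I + Z) ^ 4 := by
    rw [div_pow, add_comm Z I]
    congr 1
    · linear_combination (4 * Z ^ 2) * I_sq
    · ring
  rw [e1, e3, e4]
  (clear * - hZ h3 hr2 hr1 h1 h2; field_simp)

/-- `4 s² e₀ = - 4 y² / Z²` -/
theorem s2_e0 (ξ η : ℝ) : 4 * ((Real.sin η : ℝ) : ℂ) ^ 2 * e0 (Real.sin η) (Real.cos η) =
    -(4 * ((Complex.exp (pt ξ η)).im : ℂ) ^ 2 / Complex.exp (pt ξ η) ^ 2) := by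
  have hE := Complex.exp_ne_zero (pt ξ η)
  have hc : conj (Complex.exp (pt ξ η)) ≠ 0 := (map_ne_zero _).2 hE
  rw [e0_eq ξ η, exp_pt_im]
  have h1 : Complex.exp (pt ξ η) * conj (Complex.exp (pt ξ η)) = ((Real.exp ξ : ℝ) : ℂ) ^ 2 := by
    rw [Complex.mul_conj', norm_exp_pt]
  rw [Complex.ofReal_mul, mul_pow, ← h1]
  field_simp

theorem E3a3 {β : ℂ → ℂ} (h : Ext β) {a : ℝ} (ha : 0 < a) (ha1 : a < 1) {ξ η : ℝ} (h0 : 0 < η)
    (h1 : η < π) (hξ : ξ < 0) (hξ1 : Real.log (tau a) < ξ) :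
    srad β (zf (pt ξ η)) = ph (Complex.exp (pt ξ η)) ^ 2 *
      tX (Xf β a (pt ξ η)) (deriv (Xf β a) (pt ξ η)) (deriv (deriv (Xf β a)) (pt ξ η))
        (Real.sin η) (Real.cos η) := by
  have a1 := addI_ne (ξ := ξ) h0 h1
  have a2 := subI_ne (η := η) hξ
  have a3 := subconj_ne (ξ := ξ) h0 h1
  have hz := zf_mem (ξ := ξ) h0 h1
  have hz0 := zf_ne h0 h1 hξ
  have hza := zf_ne_a ha ha1 h0 h1 hξ1
  have haB : (a : ℂ) ∈ ball (0 : ℂ) 1 := by
    rw [mem_ball_zero_iff, Complex.norm_real, Real.norm_of_nonneg ha.le]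
    exact ha1
  have ha0 : (a : ℂ) ≠ 0 := Complex.ofReal_ne_zero.2 ha.ne'
  have hΔ : phi β (zf (pt ξ η)) - phi β (a : ℂ) ≠ 0 := fun h2 =>
    hza (h.inj _ _ hz haB hz0 ha0 (sub_eq_zero.1 h2))
  have hN : N β (zf (pt ξ η)) ≠ 0 := h.ne _ hz
  have hdphi : dphi β (zf (pt ξ η)) ≠ 0 := by
    rw [dphi_eq hz0]
    exact div_ne_zero (neg_ne_zero.2 hN) (pow_ne_zero 2 hz0)
  have hzd : zd (pt ξ η) ≠ 0 := by
    unfold zd
    refine div_ne_zero (mul_ne_zero (mul_ne_zero (by norm_num) Complex.I_ne_zero)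
      (Complex.exp_ne_zero _)) (pow_ne_zero 2 (by rwa [add_comm]))
  have hX : Xf β a (pt ξ η) ≠ 0 := by
    unfold Xf
    exact div_ne_zero (mul_ne_zero hzd hdphi) (mul_ne_zero two_ne_zero hΔ)
  obtain ⟨d1, d2⟩ := deriv2_Xf h ha ha1 a1 hz hz0 hza
  have hnz : (1 : ℂ) - ((‖zf (pt ξ η)‖ : ℝ) : ℂ) ^ 2 =
      1 - zf (pt ξ η) * conj (zf (pt ξ η)) := by
    rw [Complex.mul_conj']
  have hconj : conj (Complex.exp (pt ξ η)) = Complex.exp (pt ξ η) -
      2 * ((Complex.exp (pt ξ η)).im : ℂ) * I := by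
    have := Complex.sub_conj (Complex.exp (pt ξ η))
    push_cast at this
    linear_combination -this
  unfold tX
  rw [d1, d2, bracket_alg hX rfl rfl (half_zf a1), s2_e0 ξ η]
  unfold srad
  rw [hnz, norm_zf, Complex.ofReal_div]
  have h4 := frame_sq (Complex.exp (pt ξ η)) (conj (Complex.exp (pt ξ η)))
    ((Complex.exp (pt ξ η)).im : ℂ) (‖I - Complex.exp (pt ξ η)‖ : ℝ)
    (‖I + Complex.exp (pt ξ η)‖ : ℝ) hconj (Complex.exp_ne_zero _) a1 a2 a3
    (Complex.ofReal_ne_zero.2 (norm_ne_zero_iff.2 a2))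
    (Complex.ofReal_ne_zero.2 (norm_ne_zero_iff.2 a1))
  rw [conj_zf]
  obtain ⟨S, hS⟩ : ∃ S, S = Sc β (zf (pt ξ η)) := ⟨_, rfl⟩
  rw [← hS]
  unfold ph zf zd
  rw [Complex.ofReal_div]
  linear_combination S * h4

end Pool.Agent.Helper69.EK7

end

section

namespace Pool.Agent.Helper52.EK
end Pool.Agent.Helper52.EK
namespace Pool.Agent.Helper69.EK7
end Pool.Agent.Helper69.EK7

/-!
# Project EK7: identities of the field in the half angle ring

`S = sin (η/2)`, `C = cos (η/2)`, `P = S q`, `ρ = S² q'`, `σ = S (2X-1) + P`, `ω = 2S(X-1) + P`,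
`κ = S²(1-4X²) + 2ρ - P²`, `ν = κ + 3σ²`, `E = (C - iS)²`.
-/

set_option autoImplicit false

open Complex Metric Set

open scoped Real ComplexConjugate

namespace Pool.Agent.Helper20.EK7

open Pool.Agent.Helper52.EK Pool.Agent.Helper69.EK7

section alg

variable {S C : ℝ} (h : S ^ 2 + C ^ 2 = 1)

/-- `E = (C - iS)²` -/
noncomputable def En (S C : ℝ) : ℂ := ((C : ℂ) - (S : ℂ) * I) ^ 2

/-- `σ`, `ω`, `κ`, `ν` -/
noncomputable def sgm (S : ℝ) (X P : ℂ) : ℂ := (S : ℂ) * (2 * X - 1) + P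

noncomputable def omg (S : ℝ) (X P : ℂ) : ℂ := 2 * (S : ℂ) * (X - 1) + P

noncomputable def kpp (S : ℝ) (X P R : ℂ) : ℂ := (S : ℂ) ^ 2 * (1 - 4 * X ^ 2) + 2 * R - P ^ 2

noncomputable def nuu (S : ℝ) (X P R : ℂ) : ℂ := kpp S X P R + 3 * sgm S X P ^ 2

theorem En_eq (S C : ℝ) : En S C = ((C ^ 2 - S ^ 2 : ℝ) : ℂ) - ((2 * S * C : ℝ) : ℂ) * I := by
  unfold En
  push_cast
  linear_combination (S : ℂ) ^ 2 * I_sq

include h in
theorem hc : (S : ℂ) ^ 2 + (C : ℂ) ^ 2 = 1 := by exact_mod_cast h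

include h in
theorem norm_En : ‖En S C‖ = 1 := by
  unfold En
  rw [norm_pow, ← normSq_eq_norm_sq, normSq_apply]
  simp only [sub_re, sub_im, mul_re, mul_im, ofReal_re, ofReal_im, I_re, I_im]
  linarith only [h]

include h in
theorem En_conj : En S C * conj (En S C) = 1 := by
  rw [Complex.mul_conj', norm_En h]
  simp

theorem e0_En (S C : ℝ) : e0 (2 * S * C) (C ^ 2 - S ^ 2) = -(En S C) ^ 2 := by
  unfold e0
  rw [En_eq]

include h in
theorem one_add_e0 : 1 + e0 (2 * S * C) (C ^ 2 - S ^ 2) = 4 * I * S * C * En S C := by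
  have h1 := hc h
  rw [e0_En]
  unfold En
  have h2 : (1:ℂ) = ((S : ℂ) ^ 2 + (C : ℂ) ^ 2) ^ 2 := by rw [h1, one_pow]
  rw [h2]
  linear_combination (-(S : ℂ) ^ 4 * I ^ 2 + S ^ 4 + 2 * (S : ℂ) ^ 2 * C ^ 2) * I_sq

include h in
theorem ring_p {X Y P : ℂ} (hP : P = S * (Y / X)) :
    mX X Y (2 * S * C) (C ^ 2 - S ^ 2) + 1 = 4 * I * C * En S C * sgm S X P := by
  unfold mX sgm
  rw [one_add_e0 h, hP]
  ring

include h in
theorem ring_m {X Y P : ℂ} (hP : P = S * (Y / X)) :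
    mX X Y (2 * S * C) (C ^ 2 - S ^ 2) = 4 * I * C * En S C * sgm S X P - 1 := by
  rw [← ring_p h hP]
  ring

include h in
theorem ring_me {X Y P : ℂ} (hP : P = S * (Y / X)) :
    mX X Y (2 * S * C) (C ^ 2 - S ^ 2) - e0 (2 * S * C) (C ^ 2 - S ^ 2) =
      4 * I * C * En S C * omg S X P := by
  have h1 := one_add_e0 h
  have h2 : mX X Y (2 * S * C) (C ^ 2 - S ^ 2) - e0 (2 * S * C) (C ^ 2 - S ^ 2) =
      (1 + e0 (2 * S * C) (C ^ 2 - S ^ 2)) * (2 * X - 2 + Y / X) := by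
    unfold mX
    ring
  rw [h2, h1, hP]
  unfold omg
  ring

theorem ring_t {X Y Z P R : ℂ} (hP : P = S * (Y / X)) (hR : R = (S : ℂ) ^ 2 * (Z / X - (Y / X) ^ 2)) :
    tX X Y Z (2 * S * C) (C ^ 2 - S ^ 2) = -8 * C ^ 2 * En S C ^ 2 * kpp S X P R := by
  unfold tX kpp
  rw [e0_En, hP, hR]
  push_cast
  ring

include h in
theorem ring_vs {X Y Z P R : ℂ} (hP : P = S * (Y / X))
    (hR : R = (S : ℂ) ^ 2 * (Z / X - (Y / X) ^ 2)) :
    -tX X Y Z (2 * S * C) (C ^ 2 - S ^ 2) -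
      3 / 2 * (mX X Y (2 * S * C) (C ^ 2 - S ^ 2) + 1) ^ 2 =
      8 * C ^ 2 * En S C ^ 2 * nuu S X P R := by
  rw [ring_t hP hR, ring_p h hP]
  unfold nuu
  linear_combination (-24 * (C : ℂ) ^ 2 * En S C ^ 2 * sgm S X P ^ 2) * I_sq

include h in
theorem norm_p {X Y P : ℂ} (hP : P = S * (Y / X)) :
    ‖mX X Y (2 * S * C) (C ^ 2 - S ^ 2) + 1‖ ^ 2 = 16 * C ^ 2 * ‖sgm S X P‖ ^ 2 := by
  rw [ring_p h hP, norm_mul, norm_mul, norm_mul, norm_mul, norm_En h, Complex.norm_I,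
    Complex.norm_real, Real.norm_eq_abs, mul_pow, mul_pow, mul_pow, mul_pow, sq_abs]
  simp only [Complex.norm_ofNat]
  ring

/-- the 2-jet term of the field -/
noncomputable def Dj (g0 g1 d : ℝ) (m t : ℂ) : ℂ :=
  ((g0 : ℂ) + g1 * conj (m + 1)) * (-t - 3 / 2 * (m + 1) ^ 2) / ((1 + d * ‖m + 1‖ ^ 2 : ℝ) : ℂ)

/-- the variable `v` -/
noncomputable def vv (g0 g1 d S C : ℝ) (X P R : ℂ) : ℂ :=
  (-2 * I * g0 * C * En S C * nuu S X P R - 8 * g1 * C ^ 2 * conj (sgm S X P) * nuu S X P R) /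
    ((1 + 16 * d * C ^ 2 * ‖sgm S X P‖ ^ 2 : ℝ) : ℂ)

include h in
theorem ring_Dj {g0 g1 d : ℝ} {X Y Z P R : ℂ} (hP : P = S * (Y / X))
    (hR : R = (S : ℂ) ^ 2 * (Z / X - (Y / X) ^ 2)) :
    Dj g0 g1 d (mX X Y (2 * S * C) (C ^ 2 - S ^ 2)) (tX X Y Z (2 * S * C) (C ^ 2 - S ^ 2)) =
      4 * I * C * En S C * vv g0 g1 d S C X P R := by
  unfold Dj vv
  rw [ring_vs h hP hR, norm_p h hP]
  have e1 : (1 + d * (16 * C ^ 2 * ‖sgm S X P‖ ^ 2) : ℝ) =
      1 + 16 * d * C ^ 2 * ‖sgm S X P‖ ^ 2 := by ring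
  rw [e1, ring_p h hP]
  have hE := En_conj h
  simp only [map_mul, map_ofNat, conj_I, conj_ofReal]
  rw [mul_div_assoc']
  congr 1
  linear_combination (8 * g0 * (C : ℂ) ^ 2 * En S C ^ 2 * nuu S X P R) * I_sq + (-32 * I * g1 *
    (C : ℂ) ^ 3 * En S C * conj (sgm S X P) * nuu S X P R) * hE

/-- the value of the field; `l` is a real number (with its sign) -/
noncomputable def Fv (gam c0 a b g0 g1 d l : ℝ) (m t : ℂ) : ℂ :=
  gam * m + c0 + l * (a * m + b) + Dj g0 g1 d m t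

/-- `W = γ ω + v + l a σ` -/
noncomputable def WW (gam a l S : ℝ) (X P v : ℂ) : ℂ :=
  gam * omg S X P + v + l * a * sgm S X P

include h in
theorem ring_B {gam c0 a b g0 g1 d l : ℝ} {X Y Z P R : ℂ} (hP : P = S * (Y / X))
    (hR : R = (S : ℂ) ^ 2 * (Z / X - (Y / X) ^ 2)) :
    Fv gam c0 a b g0 g1 d l (mX X Y (2 * S * C) (C ^ 2 - S ^ 2))
      (tX X Y Z (2 * S * C) (C ^ 2 - S ^ 2)) - e0 (2 * S * C) (C ^ 2 - S ^ 2) =
      4 * I * C * En S C * WW gam a l S X P (vv g0 g1 d S C X P R) +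
        ((c0 + l * (b - a) : ℝ) : ℂ) + ((gam - 1 : ℝ) : ℂ) * e0 (2 * S * C) (C ^ 2 - S ^ 2) := by
  have h1 := ring_me h hP
  have h2 := ring_p h hP
  unfold Fv WW
  rw [ring_Dj h hP hR]
  push_cast
  linear_combination (gam : ℂ) * h1 + (l : ℂ) * a * h2

/-- the loss in weight 4, as a function of real and imaginary parts -/
noncomputable def Tw (gam K S C W1 W2 : ℝ) : ℝ :=
  16 * C ^ 2 * (W1 ^ 2 + W2 ^ 2) +
    8 * K * C * (2 * S * C * W1 - (C ^ 2 - S ^ 2) * W2) +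
    8 * (gam - 1) * C * (2 * S * C * W1 + (C ^ 2 - S ^ 2) * W2) +
    (K ^ 2 + (gam - 1) ^ 2) * (S ^ 2 + C ^ 2) ^ 2 +
    2 * K * (gam - 1) * ((2 * S * C) ^ 2 - (C ^ 2 - S ^ 2) ^ 2)

include h in
theorem Tw_eq (gam K : ℝ) (W : ℂ) :
    ‖4 * I * C * En S C * W + (K : ℂ) + ((gam - 1 : ℝ) : ℂ) * e0 (2 * S * C) (C ^ 2 - S ^ 2)‖ ^ 2 =
      Tw gam K S C W.re W.im := by
  rw [e0_En, En_eq, ← normSq_eq_norm_sq, normSq_apply, pow_two (_ - _ * I)]
  simp only [add_re, add_im, sub_re, sub_im, neg_re, neg_im, mul_re, mul_im, ofReal_re, ofReal_im,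
    I_re, I_im, re_ofNat, im_ofNat]
  have hA : (2 * S * C) ^ 2 + (C ^ 2 - S ^ 2) ^ 2 = 1 := by
    have : (2 * S * C) ^ 2 + (C ^ 2 - S ^ 2) ^ 2 = (S ^ 2 + C ^ 2) ^ 2 := by ring
    rw [this, h, one_pow]
  unfold Tw
  rw [h]
  generalize hAd : 2 * S * C = A at hA ⊢
  generalize hBd : C ^ 2 - S ^ 2 = B at hA ⊢
  linear_combination (16 * C ^ 2 * (W.re ^ 2 + W.im ^ 2) +
    8 * (gam - 1) * C * (A * W.re + B * W.im) + (gam - 1) ^ 2 * (A ^ 2 + B ^ 2 + 1)) * hA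

include h in
/-- **the loss** -/
theorem ring_T {gam c0 a b g0 g1 d l : ℝ} {X Y Z P R : ℂ} (hP : P = S * (Y / X))
    (hR : R = (S : ℂ) ^ 2 * (Z / X - (Y / X) ^ 2)) :
    ‖Fv gam c0 a b g0 g1 d l (mX X Y (2 * S * C) (C ^ 2 - S ^ 2))
      (tX X Y Z (2 * S * C) (C ^ 2 - S ^ 2)) - e0 (2 * S * C) (C ^ 2 - S ^ 2)‖ ^ 2 =
      Tw gam (c0 + l * (b - a)) S C (WW gam a l S X P (vv g0 g1 d S C X P R)).re
        (WW gam a l S X P (vv g0 g1 d S C X P R)).im := by
  rw [ring_B h hP hR, Tw_eq h]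

end alg

end Pool.Agent.Helper20.EK7

end

section

namespace Pool.Agent.Helper39.Area
end Pool.Agent.Helper39.Area
namespace Pool.Agent.Helper52.EK
end Pool.Agent.Helper52.EK

set_option autoImplicit false

open Complex MeasureTheory Metric Set

open scoped Real ComplexConjugate

namespace Pool.Agent.Helper52.CK

open Pool.Agent.Helper39.Area Pool.Agent.Helper52.EK

/-- density of the targets -/
noncomputable def FF (κ : ℝ) (β : ℂ → ℂ) (x θ : ℝ) : ℝ := ‖N β (ep (-x) θ)‖ ^ (-κ)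

/-- integral over a rectangle of the variables `x, θ` -/
noncomputable def RR (a b : ℝ) (F : ℝ → ℝ → ℝ) : ℝ := ∫ x in a..b, ∫ θ in (-π)..π, F x θ

/-- the functional -/
noncomputable def JJ (κ : ℝ) (om u : ℝ → ℝ) (a b : ℝ) (β : ℂ → ℂ) : ℝ :=
  RR a b fun x θ => om x * u θ * FF κ β x θ

/-- the weights -/
structure Wt (om om' u u' : ℝ → ℝ) (a b : ℝ) : Prop where
  a0 : 0 < a
  ab : a < b
  b1 : b ≤ 1 / 4
  dom : ∀ x, HasDerivAt om (om' x) x
  com : Continuous om'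
  om0 : ∀ x, 0 ≤ om x
  omz : ∀ x, x ∉ Ioo a b → om x = 0
  du : ∀ θ, HasDerivAt u (u' θ) θ
  cu : Continuous u'
  u0 : ∀ θ, 0 ≤ u θ
  u1 : ∀ θ, u θ ≤ 1
  up : Function.Periodic u (2 * π)

/-- `A²`, `A = φ'(z0) / (2 (φ(z0) - φ(z)))` -/
noncomputable def kA (β : ℂ → ℂ) (z z0 : ℂ) : ℂ := (dphi β z0 / (2 * (phi β z0 - phi β z))) ^ 2

noncomputable def k1 (z z0 : ℂ) : ℂ :=
  z * z0 / (z - z0) ^ 2 + conj z * z0 / (1 - z0 * conj z) ^ 2

noncomputable def k3 (z z0 : ℂ) : ℂ :=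
  z0 * (1 - (‖z‖ : ℂ) ^ 2) / ((z - z0) * (1 - z0 * conj z))

noncomputable def k5 (z z0 : ℂ) : ℂ :=
  I / 2 * ((z + z0) / (z - z0) + (1 + z0 * conj z) / (1 - z0 * conj z))

/-- the first variation: `dJ = Re (B E(z0))` -/
noncomputable def EE (κ : ℝ) (om om' u u' : ℝ → ℝ) (a b : ℝ) (β : ℂ → ℂ) (z0 : ℂ) : ℂ :=
  ∫ x in a..b, ∫ θ in (-π)..π, ((FF κ β x θ : ℝ) : ℂ) *
    (((κ * (om x * u θ) : ℝ) : ℂ) * (1 - 4 * z0 ^ 2 * kA β (ep (-x) θ) z0) +
      (((κ + 2) * (om x * u θ) : ℝ) : ℂ) * k1 (ep (-x) θ) z0 +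
      ((κ * (om x * u θ) + om' x * u θ : ℝ) : ℂ) * k3 (ep (-x) θ) z0 +
      ((om x * u' θ : ℝ) : ℂ) * k5 (ep (-x) θ) z0)

/-- the logarithmic derivative of the strip coordinate of the target `e^(iθ)` -/
noncomputable def omp (θ : ℝ) (z0 : ℂ) : ℂ :=
  2 * Complex.exp (θ * I) / (Complex.exp (θ * I) ^ 2 - z0 ^ 2)

/-- cut-off functions: functions of `z0` only -/
structure Cutf (b : ℝ) (W0 : ℂ → ℝ) : Prop where
  cont : Continuous W0
  nn : ∀ z, 0 ≤ W0 z
  le1 : ∀ z, W0 z ≤ 1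
  supp : ∀ z, W0 z ≠ 0 → Real.exp (-1) ≤ ‖z‖ ∧ ‖z‖ ≤ Real.exp (-2 * b) ∧ ‖z - 1‖ ≤ 1 / 2

/-- the term of the multiplier for the target `z = ep (-x) θ` -/
noncomputable def MM (κ dl : ℝ) (W0 : ℂ → ℝ) (Mh : ℂ → ℂ) (β : ℂ → ℂ) (x θ : ℝ) : ℝ :=
  π⁻¹ * ∫ z0 : ℂ, W0 z0 * (Mh z0 * (kA β (ep (-x) θ) z0 -
    ((1 + dl / (2 * κ) : ℝ) : ℂ) * omp θ z0 ^ 2)).re

/-- NEAR: near-maximisers are nearly critical -/
def NearStmt (κ : ℝ) : Prop :=
  ∀ (om om' u u' : ℝ → ℝ) (a b : ℝ), Wt om om' u u' a b → (∃ x, 0 < om x) → (∃ θ, 0 < u θ) →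
    ∀ η : ℝ, 0 < η → ∃ (β : ℂ → ℂ) (R : ℝ), ExtR β R ∧
      (∀ γ : ℂ → ℂ, Ext γ → (1 - η) * JJ κ om u a b γ ≤ JJ κ om u a b β) ∧
      ∀ z0 : ℂ, Real.exp (-1) ≤ ‖z0‖ → ‖z0‖ ≤ Real.exp (-2 * b) →
        ‖EE κ om om' u u' a b β z0‖ ≤ η

/-- MINT: the integral of the multiplier term over the targets -/
def MIntStmt (κ dl : ℝ) : Prop :=
  ∀ Mb : ℝ, 0 ≤ Mb → ∃ C₁ : ℝ, 0 ≤ C₁ ∧ ∀ (om om' u u' : ℝ → ℝ) (a b : ℝ), Wt om om' u u' a b →
    (∀ θ ∈ Icc (-π) π, u θ ≠ 0 → |θ| ≤ 1 / 2) →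
    ∀ (β : ℂ → ℂ) (R η : ℝ), ExtR β R → 0 ≤ η →
      (∀ z0 : ℂ, Real.exp (-1) ≤ ‖z0‖ → ‖z0‖ ≤ Real.exp (-2 * b) →
        ‖EE κ om om' u u' a b β z0‖ ≤ η) →
      ∀ (W0 : ℂ → ℝ) (Mh : ℂ → ℂ), Cutf b W0 → ContinuousOn Mh {z | 0 < ‖z‖ ∧ ‖z‖ < 1} →
        (∀ z, ‖Mh z‖ ≤ Mb) →
        RR a b (fun x θ => om x * u θ * FF κ β x θ * MM κ dl W0 Mh β x θ) ≤
          C₁ * JJ κ om u a b β +
          (Mb / (2 * κ)) * (-Real.log b + C₁) *
            RR a b (fun x θ => |(κ - 2 + dl) * om x - x * om' x| * u θ * FF κ β x θ) +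
          C₁ * RR a b (fun x θ => om x * |u' θ| * FF κ β x θ) + C₁ * η

/-- ENT: entropy inequality on one circle -/
def EntStmt : Prop :=
  ∃ C : ℝ, ∀ (κ : ℝ) (β : ℂ → ℂ) (R : ℝ) (w : ℂ → ℂ) (u : ℝ → ℝ) (x : ℝ), 0 ≤ κ → ExtR β R →
    ContinuousOn w {z | 0 < ‖z‖ ∧ ‖z‖ < 1} → Continuous u → (∀ θ, 0 ≤ u θ) → (∀ θ, u θ ≤ 1) →
    Function.Periodic u (2 * π) → 0 < x → x < 1 →
    ∀ m : ℝ, m = (2 * π)⁻¹ * ∫ θ in (-π)..π, u θ * FF κ β x θ → 0 < m →
    m * Real.log m ≤ m * (Real.log (1 - Real.exp (-2 * x)) + C) +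
      (2 * π)⁻¹ * ∫ θ in (-π)..π, u θ * FF κ β x θ *
        (Kf w (Complex.exp (θ * I)) (-1) (-x) - κ * Real.log ‖N β (ep (-x) θ)‖)

/-- PT: the inequality for one target; `n` is the depth of the window, `W0` depends on `n` and
`ε` only -/
def PTStmt (κ dl : ℝ) (G : ℂ → ℂ) (Mh : (ℂ → ℂ) → ℂ → ℂ) : Prop :=
  ∃ C₀ : ℝ, 0 ≤ C₀ ∧ ∀ ε : ℝ, 0 < ε → ∃ s C : ℝ, 0 < s ∧ s ≤ 1 / 2 ∧ 0 ≤ C ∧ ∀ n : ℝ, 2 ≤ n →
    ∃ W0 : ℂ → ℝ, Cutf (Real.exp (-n)) W0 ∧ ∀ (β : ℂ → ℂ) (R : ℝ), ExtR β R →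
      ∀ x θ : ℝ, 0 < x → x ≤ Real.exp (-n) → |θ| ≤ s →
        Kf (wf G β) (Complex.exp (θ * I)) (-1) (-x) ≤
          κ * Real.log (‖N β (ep (-x) θ)‖ / (1 - Real.exp (-2 * x))) +
          MM κ dl W0 (Mh β) β x θ + C + (dl + ε) * (-Real.log x) + C₀ * (-Real.log x - n)

end Pool.Agent.Helper52.CK

end

section

namespace Pool.EK71
end Pool.EK71

/-!
# Project CK: positivity of integer polynomials in two variables on a region

`bx F G n c1 h1 c2 h2`: subdivision of the box `|x - c1| ≤ h1`, `|y - c2| ≤ h2`; the box is left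
when the Taylor expansion of `F` at the centre is dominated by its constant term, or when one of
the polynomials of `G` is negative on the box.
-/

set_option autoImplicit false

namespace Pool.Agent.Helper20.CK

open Pool.EK71

/-- multiplication by `c + h v` -/
def li1 (c h : ℤ) (q : List ℤ) : List ℤ := ad1 (sm1 c q) (0 :: sm1 h q)

/-- `p (c + h v)` -/
def ty1 (c h : ℤ) : List ℤ → List ℤ
  | [] => []
  | a :: p => ad1 [a] (li1 c h (ty1 c h p))

/-- multiplication by `c + h u` -/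
def li2 (c h : ℤ) (Q : BP) : BP := ad2 (sm2 c Q) ([] :: sm2 h Q)

/-- `P (c + h u, c' + h' v)` -/
def ty2 (c h c' h' : ℤ) : BP → BP
  | [] => []
  | r :: P => ad2 [ty1 c' h' r] (li2 c h (ty2 c h c' h' P))

theorem ev1_ty (v : ℝ) (c h : ℤ) (p : List ℤ) : ev1 v (ty1 c h p) = ev1 (c + h * v) p := by
  induction p with
  | nil => rfl
  | cons a p ih =>
    simp only [ty1, li1, ev1_ad, ev1_sm, ev1, ih, Int.cast_zero]
    ring

theorem ev2_ty (u v : ℝ) (c h c' h' : ℤ) (P : BP) :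
    ev2 u v (ty2 c h c' h' P) = ev2 (c + h * u) (c' + h' * v) P := by
  induction P with
  | nil => rfl
  | cons r P ih =>
    simp only [ty2, li2, ev2_ad, ev2_sm, ev2, ev1, ih, ev1_ty]
    ring

/-- sum of the absolute values -/
def sa1 : List ℤ → ℕ
  | [] => 0
  | a :: p => Nat.add (Int.natAbs a) (sa1 p)

def sa2 : BP → ℕ
  | [] => 0
  | r :: P => Nat.add (sa1 r) (sa2 P)

theorem natAbs_cast_abs (a : ℤ) : ((Int.natAbs a : ℕ) : ℝ) = |(a : ℝ)| := by
  rw [← Int.cast_abs, Int.abs_eq_natAbs, Int.cast_natCast]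

theorem nadd_cast (a b : ℕ) : ((Nat.add a b : ℕ) : ℝ) = a + b := by
  show (((a + b : ℕ)) : ℝ) = _
  push_cast
  ring

theorem ev1_le {v : ℝ} (hv : |v| ≤ 1) (p : List ℤ) : |ev1 v p| ≤ (sa1 p : ℝ) := by
  induction p with
  | nil => simp [ev1, sa1]
  | cons a p ih =>
    simp only [ev1, sa1]
    rw [nadd_cast, natAbs_cast_abs]
    refine (abs_add_le _ _).trans ?_
    rw [abs_mul]
    have := mul_le_mul hv ih (abs_nonneg _) zero_le_one
    linarith only [this]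

theorem ev2_le {u v : ℝ} (hu : |u| ≤ 1) (hv : |v| ≤ 1) (P : BP) :
    |ev2 u v P| ≤ (sa2 P : ℝ) := by
  induction P with
  | nil => simp [ev2, sa2]
  | cons r P ih =>
    simp only [ev2, sa2]
    rw [nadd_cast]
    refine (abs_add_le _ _).trans ?_
    rw [abs_mul]
    have := mul_le_mul hu ih (abs_nonneg _) zero_le_one
    have := ev1_le hv r
    linarith

/-- the constant term is larger than all the others together -/
def dom : BP → Bool
  | (Int.ofNat n :: r) :: P => Nat.ble (Nat.succ (Nat.add (sa1 r) (sa2 P))) n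
  | _ => false

/-- minus the constant term is larger than all the others together -/
def domn : BP → Bool
  | (Int.negSucc n :: r) :: P => Nat.ble (Nat.add (sa1 r) (sa2 P)) n
  | _ => false

theorem dom_pos {P : BP} (h : dom P = true) {u v : ℝ} (hu : |u| ≤ 1) (hv : |v| ≤ 1) :
    0 < ev2 u v P := by
  match P, h with
  | (Int.ofNat n :: r) :: P, h =>
    simp only [dom, Nat.ble_eq] at h
    have h1 : ((Nat.add (sa1 r) (sa2 P) : ℕ) : ℝ) + 1 ≤ n := by exact_mod_cast h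
    rw [nadd_cast] at h1
    simp only [ev2, ev1]
    have e : ((Int.ofNat n : ℤ) : ℝ) = n := by simp
    rw [e]
    have k1 := abs_le.1 (ev1_le hv r)
    have k2 := abs_le.1 (ev2_le hu hv P)
    have k3 : |v * ev1 v r| ≤ sa1 r := by
      rw [abs_mul]
      have := mul_le_mul hv (ev1_le hv r) (abs_nonneg _) zero_le_one
      linarith only [this]
    have k4 : |u * ev2 u v P| ≤ sa2 P := by
      rw [abs_mul]
      have := mul_le_mul hu (ev2_le hu hv P) (abs_nonneg _) zero_le_one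
      linarith only [this]
    have k5 := (abs_le.1 k3).1
    have k6 := (abs_le.1 k4).1
    (clear * - h1 k5 k6; linarith only [h1, k5, k6])

theorem domn_neg {P : BP} (h : domn P = true) {u v : ℝ} (hu : |u| ≤ 1) (hv : |v| ≤ 1) :
    ev2 u v P < 0 := by
  match P, h with
  | (Int.negSucc n :: r) :: P, h =>
    simp only [domn, Nat.ble_eq] at h
    have h1 : ((Nat.add (sa1 r) (sa2 P) : ℕ) : ℝ) ≤ n := by exact_mod_cast h
    rw [nadd_cast] at h1
    simp only [ev2, ev1]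
    have e : ((Int.negSucc n : ℤ) : ℝ) = - (n + 1) := by
      rw [Int.cast_negSucc]
      push_cast
      ring
    rw [e]
    have k3 : |v * ev1 v r| ≤ sa1 r := by
      rw [abs_mul]
      have := mul_le_mul hv (ev1_le hv r) (abs_nonneg _) zero_le_one
      (clear * - this; linarith only [this])
    have k4 : |u * ev2 u v P| ≤ sa2 P := by
      rw [abs_mul]
      have := mul_le_mul hu (ev2_le hu hv P) (abs_nonneg _) zero_le_one
      (clear * - this; linarith only [this])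
    have k5 := (abs_le.1 k3).2
    have k6 := (abs_le.1 k4).2
    (clear * - h1 k5 k6; linarith only [h1, k5, k6])

/-- `true`: the first variable matters more -/
def dirx : BP → Bool
  | (_ :: r) :: P => Nat.ble (sa1 r) (sa2 P)
  | _ => true

def negs (c1 h1 c2 h2 : ℤ) : List BP → Bool
  | [] => false
  | g :: G => or (domn (ty2 c1 h1 c2 h2 g)) (negs c1 h1 c2 h2 G)

/-- half of a width, rounded up -/
def hf (h : ℕ) : ℕ := Nat.div (Nat.succ h) 2

theorem hf_le (h : ℕ) : h ≤ 2 * hf h := by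
  unfold hf
  have : Nat.div (Nat.succ h) 2 = (h + 1) / 2 := rfl
  rw [this]
  omega

/-- the subdivision -/
def bx (F : BP) (G : List BP) : ℕ → ℤ → ℕ → ℤ → ℕ → Bool
  | 0, _, _, _, _ => false
  | n + 1, c1, h1, c2, h2 =>
    or (dom (ty2 c1 (Int.ofNat h1) c2 (Int.ofNat h2) F))
      (or (negs c1 (Int.ofNat h1) c2 (Int.ofNat h2) G)
        (cond (dirx (ty2 c1 (Int.ofNat h1) c2 (Int.ofNat h2) F))
          (and (bx F G n (Int.sub c1 (Int.ofNat (hf h1))) (hf h1) c2 h2)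
            (bx F G n (Int.add c1 (Int.ofNat (hf h1))) (hf h1) c2 h2))
          (and (bx F G n c1 h1 (Int.sub c2 (Int.ofNat (hf h2))) (hf h2))
            (bx F G n c1 h1 (Int.add c2 (Int.ofNat (hf h2))) (hf h2)))))

theorem exists_unit {x : ℝ} {c : ℤ} {h : ℕ} (hx : |x - c| ≤ h) :
    ∃ u : ℝ, |u| ≤ 1 ∧ x = c + ((Int.ofNat h : ℤ) : ℝ) * u := by
  have e : ((Int.ofNat h : ℤ) : ℝ) = h := by simp
  rw [e]
  rcases Nat.eq_zero_or_pos h with h0 | h0
  · refine ⟨0, by norm_num, ?_⟩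
    rw [h0, Nat.cast_zero] at hx
    have := abs_eq_zero.1 (le_antisymm hx (abs_nonneg _))
    linarith only [this]
  · have h1 : (0:ℝ) < h := by exact_mod_cast h0
    refine ⟨(x - c) / h, ?_, by field_simp; ring⟩
    rw [abs_div, abs_of_pos h1, div_le_one h1]
    exact hx

theorem split_box {x : ℝ} {c : ℤ} {h : ℕ} (hx : |x - c| ≤ h) :
    |x - ((Int.sub c (Int.ofNat (hf h)) : ℤ) : ℝ)| ≤ hf h ∨
      |x - ((Int.add c (Int.ofNat (hf h)) : ℤ) : ℝ)| ≤ hf h := by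
  have e1 : ((Int.sub c (Int.ofNat (hf h)) : ℤ) : ℝ) = c - hf h := by
    show (((c - (hf h : ℤ) : ℤ)) : ℝ) = _
    push_cast
    ring
  have e2 : ((Int.add c (Int.ofNat (hf h)) : ℤ) : ℝ) = c + hf h := by
    show (((c + (hf h : ℤ) : ℤ)) : ℝ) = _
    push_cast
    ring
  rw [e1, e2]
  have h1 : (h : ℝ) ≤ 2 * hf h := by exact_mod_cast hf_le h
  obtain ⟨k1, k2⟩ := abs_le.1 hx
  rcases le_total x c with k | k
  · left
    rw [abs_le]
    constructor <;> linarith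
  · right
    rw [abs_le]
    constructor <;> linarith

theorem negs_false {c1 c2 : ℤ} {h1 h2 : ℕ} {x y : ℝ} (hx : |x - c1| ≤ h1) (hy : |y - c2| ≤ h2)
    {G : List BP} (hG : ∀ g ∈ G, 0 ≤ ev2 x y g)
    (h : negs c1 (Int.ofNat h1) c2 (Int.ofNat h2) G = true) : False := by
  induction G with
  | nil => simp [negs] at h
  | cons g G ih =>
    simp only [negs, Bool.or_eq_true] at h
    rcases h with h | h
    · obtain ⟨u, hu, eu⟩ := exists_unit hx
      obtain ⟨v, hv, ev⟩ := exists_unit hy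
      have h3 := domn_neg h hu hv
      rw [ev2_ty, ← eu, ← ev] at h3
      have := hG g List.mem_cons_self
      (clear * - h3 this; linarith)
    · exact ih (fun g hg => hG g (List.mem_cons_of_mem _ hg)) h

/-- **the checker is correct** -/
theorem bx_sound {F : BP} {G : List BP} {x y : ℝ} (hG : ∀ g ∈ G, 0 ≤ ev2 x y g) :
    ∀ (n : ℕ) (c1 : ℤ) (h1 : ℕ) (c2 : ℤ) (h2 : ℕ), bx F G n c1 h1 c2 h2 = true →
      |x - c1| ≤ h1 → |y - c2| ≤ h2 → 0 < ev2 x y F := by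
  intro n
  induction n with
  | zero => intro c1 h1 c2 h2 h; simp [bx] at h
  | succ n ih =>
    intro c1 h1 c2 h2 h hx hy
    rw [bx, Bool.or_eq_true, Bool.or_eq_true] at h
    rcases h with h | h | h
    · obtain ⟨u, hu, eu⟩ := exists_unit hx
      obtain ⟨v, hv, ev⟩ := exists_unit hy
      have h3 := dom_pos h hu hv
      rwa [ev2_ty, ← eu, ← ev] at h3
    · exact (negs_false hx hy hG h).elim
    · cases hd : dirx (ty2 c1 (Int.ofNat h1) c2 (Int.ofNat h2) F)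
      · rw [hd, cond_false, Bool.and_eq_true] at h
        rcases split_box hy with k | k
        · exact ih _ _ _ _ h.1 hx k
        · exact ih _ _ _ _ h.2 hx k
      · rw [hd, cond_true, Bool.and_eq_true] at h
        rcases split_box hx with k | k
        · exact ih _ _ _ _ h.1 k hy
        · exact ih _ _ _ _ h.2 k hy

end Pool.Agent.Helper20.CK

end
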