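import Mathlib
import Pool.Agent.Helper60.BE.T02
import Pool.Agent.Helper60.BE.T03
import Pool.Agent.Helper60.BE.T01
import Pool.Agent.Helper60.BE.T04

set_option linter.all false

section

/-!
Weighted sums of squares with packed integer coefficients, and the check of the identity.
-/

set_option autoImplicit false

namespace Pool.Sos71

/-- a factor `c m1 + d m2`, or `c m1 - d m2` if `s`; `b1`, `b2` are the shifts of `m1`, `m2` -/
structure Fac where
  c : ℕ
  m1 : Mon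
  b1 : ℕ
  s : Bool
  d : ℕ
  m2 : Mon
  b2 : ℕ

/-- multiplication by the value of the factor -/
def Fac.ap (f : Fac) (x : ℕ) : ℕ := match f.s with
  | false => Nat.add (Nat.shiftLeft (Nat.mul f.c x) f.b1) (Nat.shiftLeft (Nat.mul f.d x) f.b2)
  | true => Nat.sub (Nat.shiftLeft (Nat.mul f.c x) f.b1) (Nat.shiftLeft (Nat.mul f.d x) f.b2)

def Fac.V (f : Fac) : ℕ := f.ap 1

noncomputable def Fac.re (f : Fac) (x : Pnt) : ℝ := match f.s with
  | false => f.c * f.m1.val x + f.d * f.m2.val x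
  | true => f.c * f.m1.val x - f.d * f.m2.val x

lemma Fac.ap_eq (f : Fac) (x : ℕ) : f.ap x = x * f.V := by
  unfold Fac.V Fac.ap
  cases f.s
  · show (f.c * x) <<< f.b1 + (f.d * x) <<< f.b2 = x * ((f.c * 1) <<< f.b1 + (f.d * 1) <<< f.b2)
    simp only [Nat.shiftLeft_eq]; ring
  · show (f.c * x) <<< f.b1 - (f.d * x) <<< f.b2 = x * ((f.c * 1) <<< f.b1 - (f.d * 1) <<< f.b2)
    simp only [Nat.shiftLeft_eq]
    rw [Nat.mul_sub]
    congr 1 <;> ring

/-- an element of the basis: the monomial `m` times the factor `f`; `a` is the shift of `m`;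
`e` marks the end of a group of elements with the same factor -/
structure Itm where
  m : Mon
  a : ℕ
  f : Fac
  e : Bool

/-- multiplication by the value of the element -/
def Itm.ap (i : Itm) (x : ℕ) : ℕ := i.f.ap (Nat.shiftLeft x i.a)

def Itm.v (i : Itm) : ℕ := i.ap 1

noncomputable def Itm.re (i : Itm) (x : Pnt) : ℝ := i.m.val x * i.f.re x

lemma Itm.v_eq (i : Itm) : i.v = 2 ^ i.a * i.f.V := by
  unfold Itm.v Itm.ap
  rw [Fac.ap_eq]
  show 1 <<< i.a * _ = _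
  rw [Nat.shiftLeft_eq, one_mul]

lemma Itm.ap_eq (i : Itm) (x : ℕ) : i.ap x = x * i.v := by
  rw [Itm.v_eq]
  unfold Itm.ap
  rw [Fac.ap_eq]
  show x <<< i.a * _ = _
  rw [Nat.shiftLeft_eq]; ring

/-- `sum of d_j z_j`, `d_j` the digits of `p` in base `B` -/
def lin (B : ℕ) : List Itm → ℕ → ℕ → ℕ
  | [], _, acc => acc
  | i :: it, p, acc => match i.e with
    | false => lin B it (Nat.div p B) (Nat.add acc (Nat.shiftLeft (Nat.mod p B) i.a))
    | true => Nat.add (i.f.ap (Nat.add acc (Nat.shiftLeft (Nat.mod p B) i.a)))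
        (lin B it (Nat.div p B) 0)

/-- the value of the factor of the current group -/
def eb : List Itm → ℕ
  | [] => 1
  | i :: it => match i.e with
    | false => eb it
    | true => i.f.V

/-- `(A - T)²` -/
def sqd (A T : ℕ) : ℕ := Nat.mul (Nat.add (Nat.sub A T) (Nat.sub T A)) (Nat.add (Nat.sub A T) (Nat.sub T A))

/-- sum of the squares; `tot` is the sum of the elements -/
def sqs (B off : ℕ) : List Itm → List ℕ → ℕ → ℕ
  | [], _, _ => 0
  | i :: it, Ls, tot => match Ls with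
    | [] => 0
    | L :: Ls' => Nat.add (sqd (lin B (i :: it) L 0) (Nat.mul off tot))
        (sqs B off it Ls' (Nat.sub tot i.v))

/-- positive part of the mixed terms -/
def eps (B : ℕ) : List Itm → List ℕ → ℕ
  | [], _ => 0
  | i :: it, Es => match Es with
    | [] => 0
    | E :: Es' => Nat.add (i.ap (lin B (i :: it) E 0)) (eps B it Es')

/-- negative part of the mixed terms -/
def ens (off : ℕ) : List Itm → List ℕ → ℕ → ℕ
  | [], _, _ => 0
  | i :: it, Es, tot => match Es with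
    | [] => 0
    | _ :: Es' => Nat.add (i.ap (Nat.mul off tot)) (ens off it Es' (Nat.sub tot i.v))

def tot : List Itm → ℕ
  | [] => 0
  | i :: it => Nat.add i.v (tot it)

/-- sum of the squares of the basis elements -/
def z2 : List Itm → ℕ
  | [] => 0
  | i :: it => Nat.add (Nat.mul i.v i.v) (z2 it)

/-- `d * z2 it`, nothing is computed for `d = 0` -/
def dz2 (d : ℕ) (it : List Itm) : ℕ := match d with
  | 0 => 0
  | n + 1 => Nat.mul (Nat.succ n) (z2 it)

lemma dz2_eq (d : ℕ) (it : List Itm) : dz2 d it = d * z2 it := by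
  cases d with
  | zero => rw [Nat.zero_mul]; rfl
  | succ n => rfl

/-- `sum of (d_j - off) z_j(x)` -/
noncomputable def rl (B off : ℕ) (x : Pnt) : List Itm → ℕ → ℝ
  | [], _ => 0
  | i :: it, p => (((p % B : ℕ) : ℝ) - off) * i.re x + rl B off x it (p / B)

noncomputable def rsq (B off : ℕ) (x : Pnt) : List Itm → List ℕ → ℝ
  | [], _ => 0
  | i :: it, Ls => match Ls with
    | [] => 0
    | L :: Ls' => rl B off x (i :: it) L ^ 2 + rsq B off x it Ls'

noncomputable def rex (B off : ℕ) (x : Pnt) : List Itm → List ℕ → ℝ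
  | [], _ => 0
  | i :: it, Es => match Es with
    | [] => 0
    | E :: Es' => rl B off x (i :: it) E * i.re x + rex B off x it Es'

noncomputable def rz2 (x : Pnt) : List Itm → ℝ
  | [] => 0
  | i :: it => i.re x ^ 2 + rz2 x it

noncomputable def rab (x : Pnt) : List Itm → ℝ
  | [] => 0
  | i :: it => |i.re x| + rab x it

lemma rsq_nonneg (B off : ℕ) (x : Pnt) (it : List Itm) (Ls : List ℕ) : 0 ≤ rsq B off x it Ls := by
  induction it generalizing Ls with
  | nil => exact le_rfl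
  | cons i it ih =>
    cases Ls with
    | nil => exact le_rfl
    | cons L Ls => exact add_nonneg (sq_nonneg _) (ih Ls)

lemma rz2_nonneg (x : Pnt) (it : List Itm) : 0 ≤ rz2 x it := by
  induction it with
  | nil => exact le_rfl
  | cons i it ih => exact add_nonneg (sq_nonneg _) ih

lemma dig_le {B off : ℕ} (hB : B = 2 * off) (h0 : 0 < off) (p : ℕ) :
    |((p % B : ℕ) : ℝ) - off| ≤ off := by
  have h1 : p % B < B := Nat.mod_lt _ (by omega)
  have h2 : ((p % B : ℕ) : ℝ) ≤ 2 * off := by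
    have : p % B ≤ 2 * off := by omega
    exact_mod_cast this
  have h3 : (0 : ℝ) ≤ ((p % B : ℕ) : ℝ) := Nat.cast_nonneg _
  rw [abs_le]
  constructor <;> (clear * - h2; linarith only [h2])

lemma rl_abs {B off : ℕ} (hB : B = 2 * off) (h0 : 0 < off) (x : Pnt) (it : List Itm) (p : ℕ) :
    |rl B off x it p| ≤ off * rab x it := by
  induction it generalizing p with
  | nil => simp [rl, rab]
  | cons i it ih =>
    have h1 := dig_le hB h0 p
    calc |rl B off x (i :: it) p| ≤ |(((p % B : ℕ) : ℝ) - off) * i.re x|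
          + |rl B off x it (p / B)| := abs_add_le _ _
      _ ≤ off * |i.re x| + off * rab x it := by
        refine add_le_add ?_ (ih _)
        rw [abs_mul]
        exact mul_le_mul_of_nonneg_right h1 (abs_nonneg _)
      _ = _ := by rw [rab]; ring

/-- `|z_0| (|z_0| + sum) ≤ ...` -/
lemma rab_le (x : Pnt) (it : List Itm) (t : ℝ) :
    2 * (|t| * rab x it) ≤ it.length * t ^ 2 + rz2 x it := by
  induction it with
  | nil => simp [rab, rz2]
  | cons i it ih =>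
    have h1 : 2 * (|t| * |i.re x|) ≤ t ^ 2 + i.re x ^ 2 := by
      have := sq_nonneg (|t| - |i.re x|)
      (clear * - this; linarith only [sq_abs t, sq_abs (i.re x), this])
    rw [rab, rz2, List.length_cons]
    push_cast
    (clear * - ih h1; linarith only [ih, h1])

lemma rex_abs {B off : ℕ} (hB : B = 2 * off) (h0 : 0 < off) (x : Pnt) (it : List Itm)
    (Es : List ℕ) : 2 * |rex B off x it Es| ≤ (it.length + 1) * off * rz2 x it := by
  induction it generalizing Es with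
  | nil => simp [rex, rz2]
  | cons i it ih =>
    have hz := rz2_nonneg x it
    have hoff : (0 : ℝ) ≤ off := Nat.cast_nonneg _
    cases Es with
    | nil =>
      rw [rex]
      simp only [abs_zero, mul_zero]
      have := rz2_nonneg x (i :: it)
      (clear * - h0 this; positivity)
    | cons E Es =>
      have h1 := rl_abs hB h0 x (i :: it) E
      have h2 := ih Es
      have h3 := rab_le x it (i.re x)
      have h4 : |rl B off x (i :: it) E * i.re x| ≤
          off * (|i.re x| + rab x it) * |i.re x| := by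
        rw [abs_mul]
        exact mul_le_mul_of_nonneg_right h1 (abs_nonneg _)
      have h5 : |rex B off x (i :: it) (E :: Es)| ≤
          off * (|i.re x| + rab x it) * |i.re x| + |rex B off x it Es| :=
        (abs_add_le _ _).trans (add_le_add h4 le_rfl)
      have h6 : |i.re x| * |i.re x| = i.re x ^ 2 := by rw [← sq, sq_abs]
      have h7 : 2 * (off * (|i.re x| + rab x it) * |i.re x|) ≤
          off * (2 * i.re x ^ 2 + (it.length * i.re x ^ 2 + rz2 x it)) := by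
        have : 2 * (off * (|i.re x| + rab x it) * |i.re x|) =
            off * (2 * (|i.re x| * |i.re x|) + 2 * (|i.re x| * rab x it)) := by ring
        rw [this, h6]
        exact mul_le_mul_of_nonneg_left (by (clear * - h3; linarith only [h3])) hoff
      rw [List.length_cons, rz2]
      push_cast
      have h8 : 0 ≤ (off : ℝ) * rz2 x it := by (clear * - h0 hz; positivity)
      linarith only [h2, h5, h7]

section rep

variable {k : ℕ} {r : Rad} {N : Bd} {nf : ℕ}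

/-- `sum of d_j z_j` without accumulator -/
def sd (B : ℕ) : List Itm → ℕ → ℕ
  | [], _ => 0
  | i :: it, p => p % B * i.v + sd B it (p / B)

lemma two_pow_code (m : Mon) : ((2 ^ k : ℕ) : ℤ) ^ m.code r = ((2 ^ (k * m.code r) : ℕ) : ℤ) := by
  push_cast; rw [pow_mul]

lemma sqd_eq (A T : ℕ) : ((sqd A T : ℕ) : ℤ) = ((A : ℤ) - T) * ((A : ℤ) - T) := by
  have : sqd A T = (A - T + (T - A)) * (A - T + (T - A)) := rfl
  rw [this]
  rcases le_total A T with h | h
  · rw [Nat.sub_eq_zero_of_le h]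
    push_cast [Nat.cast_sub h]; ring
  · rw [Nat.sub_eq_zero_of_le h]
    push_cast [Nat.cast_sub h]; ring

lemma tot_sub (i : Itm) (it : List Itm) : Nat.sub (tot (i :: it)) i.v = tot it := by
  show (i.v + tot it) - i.v = _
  omega

end rep

structure Blk where
  mult : Ex
  N : Bd
  nf : ℕ
  its : List Itm
  B : ℕ
  off : ℕ
  L : List ℕ
  BE : ℕ
  offE : ℕ
  E : List ℕ
  dl : ℕ

def eqF (f g : Fac) : Bool :=
  Nat.beq f.c g.c && Nat.beq f.b1 g.b1 && Nat.beq f.d g.d && Nat.beq f.b2 g.b2 &&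
    (match f.s, g.s with
      | false, false => true
      | true, true => true
      | _, _ => false)

lemma eqF_sound {f g : Fac} (h : eqF f g = true) : f.V = g.V := by
  simp only [eqF, Bool.and_eq_true] at h
  obtain ⟨⟨⟨⟨h1, h2⟩, h3⟩, h4⟩, h5⟩ := h
  have h1 := Nat.eq_of_beq_eq_true h1
  have h2 := Nat.eq_of_beq_eq_true h2
  have h3 := Nat.eq_of_beq_eq_true h3
  have h4 := Nat.eq_of_beq_eq_true h4
  have h6 : f.s = g.s := by
    revert h5
    cases f.s <;> cases g.s <;> simp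
  unfold Fac.V Fac.ap
  rw [h1, h2, h3, h4, h6]

/-- the next element has the same factor -/
def nxt (i : Itm) : List Itm → Bool
  | [] => false
  | j :: _ => eqF i.f j.f

def len (l : List Itm) : ℕ := match l with
  | [] => 0
  | _ :: it => Nat.succ (len it)

lemma len_eq (l : List Itm) : len l = l.length := by
  induction l with
  | nil => rfl
  | cons i it ih => rw [len, ih]; rfl

def lenN (l : List ℕ) : ℕ := match l with
  | [] => 0
  | _ :: it => Nat.succ (lenN it)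

lemma lenN_eq (l : List ℕ) : lenN l = l.length := by
  induction l with
  | nil => rfl
  | cons i it ih => rw [lenN, ih]; rfl

def emp (l : List ℕ) : Bool := match l with
  | [] => true
  | _ :: _ => false

/-- positive and negative part of the value of the form -/
def Blk.vp (b : Blk) : ℕ :=
  Nat.add (sqs b.B b.off b.its b.L (tot b.its))
    (Nat.add (dz2 b.dl b.its) (eps b.BE b.its b.E))

def Blk.vn (b : Blk) : ℕ := ens b.offE b.its b.E (tot b.its)

def Blk.nmq (b : Blk) : ℕ :=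
  lenN b.L * ((len b.its * (b.off * b.nf)) * (len b.its * (b.off * b.nf)))
    + b.dl * (len b.its * (b.nf * b.nf)) + lenN b.E * ((len b.its * (b.offE * b.nf)) * b.nf)

noncomputable def Blk.q (b : Blk) (x : Pnt) : ℝ :=
  rsq b.B b.off x b.its b.L + b.dl * rz2 x b.its + rex b.BE b.offE x b.its b.E

structure Cert where
  k : ℕ
  r : Rad
  N : Bd
  s : ℕ
  target : Ex
  blocks : List Blk

/-- the integer point -/
def ipt (k : ℕ) (r : Rad) : IPt :=
  ⟨Int.ofNat (Nat.pow 2 (Nat.mul k r.ra)), Int.ofNat (Nat.pow 2 (Nat.mul k r.rb)),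
    Int.ofNat (Nat.pow 2 (Nat.mul k r.rd)), Int.ofNat (Nat.pow 2 (Nat.mul k r.re)),
    Int.ofNat (Nat.pow 2 k), Int.ofNat (Nat.pow 2 (Nat.mul k r.rg))⟩

lemma ipt_eq (k : ℕ) (r : Rad) : ipt k r = r.pt ((2 ^ k : ℕ) : ℤ) := by
  have h : ∀ n : ℕ, Int.ofNat (Nat.pow 2 (Nat.mul k n)) = ((2 ^ k : ℕ) : ℤ) ^ n := by
    intro n
    show (((2 ^ (k * n) : ℕ)) : ℤ) = _
    push_cast; rw [pow_mul]
  have h1 : Int.ofNat (Nat.pow 2 k) = ((2 ^ k : ℕ) : ℤ) := rfl
  rw [ipt, Rad.pt, h, h, h, h, h, h1]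

/-- sum of the values of the blocks -/
def bsum (X : IPt) : List Blk → ℤ
  | [] => 0
  | b :: bs => Int.add (Int.mul (b.mult.ev X) (Int.sub (Int.ofNat b.vp) (Int.ofNat b.vn)))
      (bsum X bs)

def bnm : List Blk → ℕ
  | [] => 0
  | b :: bs => Nat.add (Nat.mul b.mult.nm b.nmq) (bnm bs)

noncomputable def brs (x : Pnt) : List Blk → ℝ
  | [] => 0
  | b :: bs => b.mult.re x * b.q x + brs x bs

/-- a test of equality of integers -/
def eqi : ℤ → ℤ → Bool
  | Int.ofNat a, Int.ofNat b => Nat.beq a b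
  | Int.negSucc a, Int.negSucc b => Nat.beq a b
  | _, _ => false

lemma eqi_sound {a b : ℤ} (h : eqi a b = true) : a = b := by
  match a, b, h with
  | Int.ofNat a, Int.ofNat b, h => exact congrArg Int.ofNat (Nat.eq_of_beq_eq_true h)
  | Int.negSucc a, Int.negSucc b, h => exact congrArg Int.negSucc (Nat.eq_of_beq_eq_true h)
  | Int.ofNat a, Int.negSucc b, h => exact absurd h (by simp [eqi])
  | Int.negSucc a, Int.ofNat b, h => exact absurd h (by simp [eqi])

end Pool.Sos71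

end

section

/-!
The same checker with the weights `S, C, P, R : 1`.
-/

set_option autoImplicit false

namespace Pool.Sos71

def Mon.InW (m : Mon) (B : Bd) : Prop :=
  m.a ≤ B.a ∧ m.b ≤ B.b ∧ m.d ≤ B.d ∧ m.e ≤ B.e ∧ m.f ≤ B.f ∧ m.g ≤ B.g ∧
    m.b + m.c + m.d + m.e = B.w

lemma Mon.InW.add {m n : Mon} {B D : Bd} (h : m.InW B) (h' : n.InW D) : (m.add n).InW (B.add D) := by
  obtain ⟨h1, h2, h3, h4, h5, h6, h7⟩ := h
  obtain ⟨g1, g2, g3, g4, g5, g6, g7⟩ := h'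
  refine ⟨Nat.add_le_add h1 g1, Nat.add_le_add h2 g2, Nat.add_le_add h3 g3,
    Nat.add_le_add h4 g4, Nat.add_le_add h5 g5, Nat.add_le_add h6 g6, ?_⟩
  simp only [Mon.add, Bd.add]; omega

lemma Mon.InW.le {m : Mon} {B D : Bd} (h : m.InW B) (h' : B.le D) : m.InW D := by
  obtain ⟨h1, h2, h3, h4, h5, h6, h7⟩ := h
  obtain ⟨g1, g2, g3, g4, g5, g6, g7⟩ := h'
  exact ⟨h1.trans g1, h2.trans g2, h3.trans g3, h4.trans g4, h5.trans g5, h6.trans g6,
    h7.trans g7⟩

lemma code_injW {r : Rad} {B : Bd} (hr : r.ok B) {m n : Mon} (hm : m.InW B) (hn : n.InW B)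
    (h : m.code r = n.code r) : m = n := by
  obtain ⟨r1, r2, r3, r4, r5⟩ := hr
  obtain ⟨a1, a2, a3, a4, a5, a6, a7⟩ := hm
  obtain ⟨b1, b2, b3, b4, b5, b6, b7⟩ := hn
  simp only [Mon.code] at h
  have g1 : r.rg * m.g ≤ r.rg * B.g := Nat.mul_le_mul_left _ a6
  have g2 : r.rg * n.g ≤ r.rg * B.g := Nat.mul_le_mul_left _ b6
  have g3 : r.ra * m.a ≤ r.ra * B.a := Nat.mul_le_mul_left _ a1
  have g4 : r.ra * n.a ≤ r.ra * B.a := Nat.mul_le_mul_left _ b1
  have g5 : r.rb * m.b ≤ r.rb * B.b := Nat.mul_le_mul_left _ a2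
  have g6 : r.rb * n.b ≤ r.rb * B.b := Nat.mul_le_mul_left _ b2
  have g7 : r.rd * m.d ≤ r.rd * B.d := Nat.mul_le_mul_left _ a3
  have g8 : r.rd * n.d ≤ r.rd * B.d := Nat.mul_le_mul_left _ b3
  obtain ⟨e5, h5⟩ := dig_unique (r := r.re) (by omega) (by (clear * - m r5 b5 g2 g4 g6 g8; omega)) h
  obtain ⟨e4, h4⟩ := dig_unique (r := r.rd) (by (clear * - h r4 a5 g1 g3 g5 h5; omega)) (by omega) h5
  obtain ⟨e3, h3⟩ := dig_unique (r := r.rb) (by (clear * - h r3 a5 g1 g3 h5 h4; omega)) (by omega) h4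
  obtain ⟨e2, h2⟩ := dig_unique (r := r.ra) (by (clear * - h r2 a5 g1 h5 h4 h3; omega)) (by omega) h3
  obtain ⟨e1, h1⟩ := dig_unique (r := r.rg) (by omega) (by (clear * - m r1 b5; omega)) h2
  have e6 : m.c = n.c := by (clear * - r a7 b7 e5 e4 e3; omega)
  cases m; cases n
  simp_all

/-- `v` and `φ` are the values of one polynomial in the box `N` with norm at most `c` -/
def RepW (w : ℤ) (r : Rad) (x : Pnt) (N : Bd) (c : ℕ) (v : ℤ) (φ : ℝ) : Prop :=
  ∃ P : Pol, (∀ t ∈ P, t.2.InW N) ∧ P.nm ≤ c ∧ P.ev w r = v ∧ P.re x = φ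

section RepW

variable {w : ℤ} {r : Rad} {x : Pnt}

lemma RepW.zero (N : Bd) (c : ℕ) : RepW w r x N c 0 0 :=
  ⟨[], by simp, by simp [Pol.nm], by simp [Pol.ev], by simp [Pol.re]⟩

lemma RepW.mon (z : ℤ) {m : Mon} {N : Bd} (h : m.InW N) :
    RepW w r x N z.natAbs (z * w ^ m.code r) (z * m.val x) :=
  ⟨[(z, m)], by simpa using h, by simp [Pol.nm], by simp [Pol.ev], by simp [Pol.re]⟩

lemma RepW.add {N : Bd} {c c' : ℕ} {v v' : ℤ} {φ φ' : ℝ} (h : RepW w r x N c v φ)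
    (h' : RepW w r x N c' v' φ') : RepW w r x N (c + c') (v + v') (φ + φ') := by
  obtain ⟨P, h1, h2, rfl, rfl⟩ := h
  obtain ⟨Q, g1, g2, rfl, rfl⟩ := h'
  refine ⟨P ++ Q, ?_, ?_, ?_, ?_⟩
  · intro t ht
    rcases List.mem_append.1 ht with h | h
    · exact h1 t h
    · exact g1 t h
  · unfold Pol.nm at *
    rw [List.map_append, List.sum_append]; exact Nat.add_le_add h2 g2
  · unfold Pol.ev; rw [List.map_append, List.sum_append]
  · unfold Pol.re; rw [List.map_append, List.sum_append]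

lemma RepW.mul {N N' : Bd} {c c' : ℕ} {v v' : ℤ} {φ φ' : ℝ} (h : RepW w r x N c v φ)
    (h' : RepW w r x N' c' v' φ') : RepW w r x (N.add N') (c * c') (v * v') (φ * φ') := by
  obtain ⟨P, h1, h2, rfl, rfl⟩ := h
  obtain ⟨Q, g1, g2, rfl, rfl⟩ := h'
  refine ⟨P.mul Q, ?_, ?_, Pol.ev_mul _ _ _ _, Pol.re_mul _ _ _⟩
  · intro t ht
    obtain ⟨s, hs, ht⟩ := List.mem_flatMap.1 ht
    obtain ⟨q, hq, rfl⟩ := List.mem_map.1 ht
    exact (h1 s hs).add (g1 q hq)
  · rw [Pol.nm_mul]; exact Nat.mul_le_mul h2 g2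

lemma RepW.smul {N : Bd} {c : ℕ} {v : ℤ} {φ : ℝ} (z : ℤ) (h : RepW w r x N c v φ) :
    RepW w r x N (z.natAbs * c) (z * v) (z * φ) := by
  obtain ⟨P, h1, h2, rfl, rfl⟩ := h
  refine ⟨P.map fun t => (z * t.1, t.2), ?_, ?_, ?_, ?_⟩
  · intro t ht
    obtain ⟨s, hs, rfl⟩ := List.mem_map.1 ht
    exact h1 s hs
  · unfold Pol.nm at *
    rw [List.map_map]
    have : (P.map ((fun t : ℤ × Mon => t.1.natAbs) ∘ fun t => (z * t.1, t.2))).sum
        = z.natAbs * (P.map (fun t => t.1.natAbs)).sum := by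
      rw [← List.sum_map_mul_left]
      congr 1
      refine List.map_congr_left (fun t _ => ?_)
      simp [Int.natAbs_mul]
    rw [this]; exact Nat.mul_le_mul_left _ h2
  · unfold Pol.ev
    rw [List.map_map, ← List.sum_map_mul_left]
    congr 1
    refine List.map_congr_left (fun t _ => ?_)
    simp only [Function.comp]; ring
  · unfold Pol.re
    rw [List.map_map, ← List.sum_map_mul_left]
    congr 1
    refine List.map_congr_left (fun t _ => ?_)
    simp only [Function.comp]; push_cast; ring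

lemma RepW.mono {N : Bd} {c c' : ℕ} {v : ℤ} {φ : ℝ} (h : RepW w r x N c v φ) (hc : c ≤ c') :
    RepW w r x N c' v φ := by
  obtain ⟨P, h1, h2, h3, h4⟩ := h
  exact ⟨P, h1, h2.trans hc, h3, h4⟩

lemma RepW.le {N N' : Bd} {c : ℕ} {v : ℤ} {φ : ℝ} (h : RepW w r x N c v φ) (hN : N.le N') :
    RepW w r x N' c v φ := by
  obtain ⟨P, h1, h2, h3, h4⟩ := h
  exact ⟨P, fun t ht => (h1 t ht).le hN, h2, h3, h4⟩

end RepW

/-- the value determines the polynomial -/
theorem RepW.eq_zero {w : ℕ} {r : Rad} {x : Pnt} {N : Bd} {c : ℕ} {φ : ℝ}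
    (hr : r.ok N) (h : RepW (w : ℤ) r x N c 0 φ) (hc : c < w) : φ = 0 := by
  classical
  obtain ⟨P, h1, h2, h3, rfl⟩ := h
  have h4 : uni r P = 0 := by
    apply poly_zero (w := w)
    · intro k
      exact lt_of_le_of_lt ((uni_coeff r P k).trans h2) hc
    · rw [uni_eval]; exact h3
  set F : ℕ → ℝ := fun k => if h : ∃ m : Mon, m.InW N ∧ m.code r = k then h.choose.val x else 0
    with hF
  have h5 : ∀ t ∈ P, t.2.val x = F (t.2.code r) := by
    intro t ht
    have h6 : ∃ m : Mon, m.InW N ∧ m.code r = t.2.code r := ⟨t.2, h1 t ht, rfl⟩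
    have h7 := h6.choose_spec
    rw [hF]
    simp only
    rw [dif_pos h6, code_injW hr h7.1 (h1 t ht) h7.2]
  have h8 : P.re x = (P.map fun t => (t.1 : ℝ) * F (t.2.code r)).sum := by
    unfold Pol.re
    congr 1
    refine List.map_congr_left (fun t ht => ?_)
    rw [h5 t ht]
  rw [h8, uni_sum, h4, Polynomial.sum_zero_index]

/-- box of the exponents -/
def Ex.bdW : Ex → Bd
  | lit _ => ⟨0, 0, 0, 0, 0, 0, 0⟩
  | va i => match i with
    | 0 => ⟨1, 0, 0, 0, 0, 0, 0⟩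
    | 1 => ⟨0, 1, 0, 0, 0, 0, 1⟩
    | 2 => ⟨0, 0, 0, 0, 0, 0, 1⟩
    | 3 => ⟨0, 0, 1, 0, 0, 0, 1⟩
    | 4 => ⟨0, 0, 0, 1, 0, 0, 1⟩
    | 5 => ⟨0, 0, 0, 0, 1, 0, 0⟩
    | _ => ⟨0, 0, 0, 0, 0, 1, 0⟩
  | add p q => p.bdW.max q.bdW
  | mul p q => p.bdW.add q.bdW
  | sc _ p => p.bdW
  | pow p n => p.bdW.smul n
  | bp P => ⟨0, 0, 0, 0, dgx P, dgy P, 0⟩

/-- homogeneity -/
def Ex.okW : Ex → Bool
  | lit _ => true
  | va _ => true
  | add p q => p.okW && q.okW && Nat.beq p.bdW.w q.bdW.w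
  | mul p q => p.okW && q.okW
  | sc _ p => p.okW
  | pow p _ => p.okW
  | bp _ => true

lemma RepW.of_mon {w : ℤ} {r : Rad} {x : Pnt} {m : Mon} {N : Bd} (h : m.InW N) {v : ℤ} {φ : ℝ}
    (hv : v = w ^ m.code r) (hφ : φ = m.val x) : RepW w r x N 1 v φ := by
  have := RepW.mon (w := w) (r := r) (x := x) 1 h
  rw [hv, hφ]
  simpa using this

lemma RepW.b1 {w : ℤ} {r : Rad} {x : Pnt} (l : List ℤ) :
    RepW w r x ⟨0, 0, 0, 0, 0, dg1 l, 0⟩ (nm1 l) (iev1 (w ^ r.rg) l) (Pool.EK71.ev1 x.g l) := by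
  induction l with
  | nil => exact RepW.zero _ _
  | cons a l ih =>
    have h0 : (⟨0, 0, 0, 0, 0, 0, 0⟩ : Mon).InW ⟨0, 0, 0, 0, 0, dg1 (a :: l), 0⟩ := by
      simp [Mon.InW]
    have h1 := RepW.mon (w := w) (r := r) (x := x) a h0
    simp only [Mon.code, Mon.val, mul_zero, add_zero, pow_zero, mul_one] at h1
    cases l with
    | nil =>
      have h2 := h1.add (RepW.zero (w := w) (r := r) (x := x) ⟨0, 0, 0, 0, 0, dg1 [a], 0⟩ 0)
      have e1 : iev1 (w ^ r.rg) [a] = a + 0 := by simp [iev1]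
      have e2 : Pool.EK71.ev1 x.g [a] = a + 0 := by simp [Pool.EK71.ev1]
      rw [e1, e2]
      exact h2
    | cons b l =>
      have h2 := RepW.of_mon (w := w) (r := r) (x := x) (m := ⟨0, 0, 0, 0, 0, 0, 1⟩)
        (N := ⟨0, 0, 0, 0, 0, 1, 0⟩) (by simp [Mon.InW]) (v := w ^ r.rg) (φ := x.g)
        (by simp [Mon.code]) (by simp [Mon.val])
      have h3 := h1.add ((h2.mul ih).le (N' := ⟨0, 0, 0, 0, 0, dg1 (a :: b :: l), 0⟩) (by
        refine ⟨by simp [Bd.add], by simp [Bd.add], by simp [Bd.add], by simp [Bd.add],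
          by simp [Bd.add], ?_, by simp [Bd.add]⟩
        show 1 + dg1 (b :: l) ≤ Nat.succ (dg1 (b :: l))
        omega))
      rw [one_mul] at h3
      exact h3

lemma RepW.b2 {w : ℤ} {r : Rad} {x : Pnt} (P : List (List ℤ)) :
    RepW w r x ⟨0, 0, 0, 0, dgx P, dgy P, 0⟩ (nm2 P) (iev2 w (w ^ r.rg) P)
      (Pool.EK71.ev2 x.f x.g P) := by
  induction P with
  | nil => exact RepW.zero _ _
  | cons a l ih =>
    have h1 := (RepW.b1 (w := w) (r := r) (x := x) a).le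
      (N' := ⟨0, 0, 0, 0, dgx (a :: l), dgy (a :: l), 0⟩)
      ⟨le_rfl, le_rfl, le_rfl, le_rfl, Nat.zero_le _, Nat.le_max_left _ _, rfl⟩
    cases l with
    | nil =>
      have h2 := h1.add (RepW.zero (w := w) (r := r) (x := x) ⟨0, 0, 0, 0, dgx [a], dgy [a], 0⟩ 0)
      have e1 : iev2 w (w ^ r.rg) [a] = iev1 (w ^ r.rg) a + 0 := by simp [iev2]
      have e2 : Pool.EK71.ev2 x.f x.g [a] = Pool.EK71.ev1 x.g a + 0 := by simp [Pool.EK71.ev2]
      rw [e1, e2]
      exact h2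
    | cons b l =>
      have h2 := RepW.of_mon (w := w) (r := r) (x := x) (m := ⟨0, 0, 0, 0, 0, 1, 0⟩)
        (N := ⟨0, 0, 0, 0, 1, 0, 0⟩) (by simp [Mon.InW]) (v := w) (φ := x.f)
        (by simp [Mon.code]) (by simp [Mon.val])
      have h3 := h1.add ((h2.mul ih).le
        (N' := ⟨0, 0, 0, 0, dgx (a :: b :: l), dgy (a :: b :: l), 0⟩) (by
        refine ⟨by simp [Bd.add], by simp [Bd.add], by simp [Bd.add], by simp [Bd.add],
          ?_, ?_, by simp [Bd.add]⟩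
        · show 1 + dgx (b :: l) ≤ Nat.succ (dgx (b :: l))
          omega
        · show 0 + dgy (b :: l) ≤ Nat.max (dg1 a) (dgy (b :: l))
          rw [Nat.zero_add]
          exact Nat.le_max_right _ _))
      rw [one_mul] at h3
      exact h3

lemma Ex.repW {w : ℤ} {r : Rad} {x : Pnt} (e : Ex) (h : e.okW = true) :
    RepW w r x e.bdW e.nm (e.ev (r.pt w)) (e.re x) := by
  induction e with
  | lit z =>
    have h1 : (⟨0, 0, 0, 0, 0, 0, 0⟩ : Mon).InW ⟨0, 0, 0, 0, 0, 0, 0⟩ := by simp [Mon.InW]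
    have := RepW.mon (w := w) (r := r) (x := x) z h1
    simpa [Mon.code, Mon.val, Ex.ev, Ex.re, Ex.nm, Ex.bdW] using this
  | va i =>
    match i with
    | 0 => exact RepW.of_mon (m := ⟨1, 0, 0, 0, 0, 0, 0⟩) (by simp [Mon.InW, Ex.bdW])
            (by simp [Ex.ev, Rad.pt, Mon.code]) (by simp [Ex.re, Mon.val])
    | 1 => exact RepW.of_mon (m := ⟨0, 1, 0, 0, 0, 0, 0⟩) (by simp [Mon.InW, Ex.bdW])
            (by simp [Ex.ev, Rad.pt, Mon.code]) (by simp [Ex.re, Mon.val])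
    | 2 => exact RepW.of_mon (m := ⟨0, 0, 1, 0, 0, 0, 0⟩) (by simp [Mon.InW, Ex.bdW])
            (by simp [Ex.ev, Mon.code]) (by simp [Ex.re, Mon.val])
    | 3 => exact RepW.of_mon (m := ⟨0, 0, 0, 1, 0, 0, 0⟩) (by simp [Mon.InW, Ex.bdW])
            (by simp [Ex.ev, Rad.pt, Mon.code]) (by simp [Ex.re, Mon.val])
    | 4 => exact RepW.of_mon (m := ⟨0, 0, 0, 0, 1, 0, 0⟩) (by simp [Mon.InW, Ex.bdW])
            (by simp [Ex.ev, Rad.pt, Mon.code]) (by simp [Ex.re, Mon.val])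
    | 5 => exact RepW.of_mon (m := ⟨0, 0, 0, 0, 0, 1, 0⟩) (by simp [Mon.InW, Ex.bdW])
            (by simp [Ex.ev, Rad.pt, Mon.code]) (by simp [Ex.re, Mon.val])
    | (k + 6) =>
      exact RepW.of_mon (m := ⟨0, 0, 0, 0, 0, 0, 1⟩) (by simp [Mon.InW, Ex.bdW])
        (by simp [Ex.ev, Rad.pt, Mon.code]) (by simp [Ex.re, Mon.val])
  | add p q ihp ihq =>
    simp only [Ex.okW, Bool.and_eq_true] at h
    obtain ⟨⟨h1, h2⟩, h3⟩ := h
    have h3 := Nat.eq_of_beq_eq_true h3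
    exact ((ihp h1).le (Bd.le_max_left _ _)).add ((ihq h2).le (Bd.le_max_right _ _ h3))
  | mul p q ihp ihq =>
    simp only [Ex.okW, Bool.and_eq_true] at h
    exact (ihp h.1).mul (ihq h.2)
  | sc z p ih =>
    simp only [Ex.okW] at h
    exact (ih h).smul z
  | pow p n ih =>
    simp only [Ex.okW] at h
    have ih := ih h
    show RepW w r x (p.bdW.smul n) (npow p.nm n) (ipow (p.ev (r.pt w)) n) (p.re x ^ n)
    induction n with
    | zero =>
      have h1 : (⟨0, 0, 0, 0, 0, 0, 0⟩ : Mon).InW (p.bdW.smul 0) := by simp [Mon.InW, Bd.smul]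
      have := RepW.of_mon (w := w) (r := r) (x := x) h1 (v := 1) (φ := 1) (by simp [Mon.code])
        (by simp [Mon.val])
      simpa [npow, ipow] using this
    | succ n ihn =>
      have h2 := ih.mul ihn
      have e1 : p.bdW.add (p.bdW.smul n) = p.bdW.smul (n + 1) := by
        simp only [Bd.add, Bd.smul]
        congr 1 <;> ring
      rw [e1] at h2
      rw [pow_succ, mul_comm (p.re x ^ n)]
      exact h2
  | bp P => exact RepW.b2 P

section rep

variable {k : ℕ} {r : Rad} {N : Bd} {nf : ℕ}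

/-- the shifts are right, the monomials are in the box, the norm is at most `nf` -/
def Itm.OkW (k : ℕ) (r : Rad) (N : Bd) (nf : ℕ) (i : Itm) : Prop :=
  (i.m.add i.f.m1).InW N ∧ (i.m.add i.f.m2).InW N ∧ i.a = k * i.m.code r ∧
    i.f.b1 = k * i.f.m1.code r ∧ i.f.b2 = k * i.f.m2.code r ∧ i.f.c + i.f.d ≤ nf ∧
    (i.f.s = true → i.f.d <<< i.f.b2 ≤ i.f.c <<< i.f.b1)

def GdW (k : ℕ) (r : Rad) (N : Bd) (nf : ℕ) : List Itm → Prop
  | [] => True
  | i :: it => i.OkW k r N nf ∧ i.f.V = eb (i :: it) ∧ GdW k r N nf it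

lemma lin_eqW {B : ℕ} (it : List Itm) (h : GdW k r N nf it) (p acc : ℕ) :
    lin B it p acc = acc * eb it + sd B it p := by
  induction it generalizing p acc with
  | nil => simp [lin, eb, sd]
  | cons i it ih =>
    obtain ⟨_, h3, h4⟩ := h
    rw [lin, sd, Itm.v_eq, h3]
    rw [eb] at h3 ⊢
    rcases ho : i.e with _ | _
    · simp only [ho] at h3 ⊢
      rw [ih h4]
      show (acc + (p % B) <<< i.a) * eb it + sd B it (p / B) = _
      rw [Nat.shiftLeft_eq]; ring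
    · simp only [ho] at h3 ⊢
      rw [ih h4, Fac.ap_eq]
      show (acc + (p % B) <<< i.a) * i.f.V + (0 * eb it + sd B it (p / B)) = _
      rw [Nat.shiftLeft_eq]; ring

lemma rep_itemW {i : Itm} (h : i.OkW k r N nf) {x : Pnt} :
    RepW ((2 ^ k : ℕ) : ℤ) r x N nf (i.v : ℤ) (i.re x) := by
  obtain ⟨h1, h2, h3, h4, h5, h6, h7⟩ := h
  have r1 := RepW.mon (w := ((2 ^ k : ℕ) : ℤ)) (r := r) (x := x) (i.f.c : ℤ) h1
  rw [two_pow_code, Mon.code_add, Mon.val_add] at r1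
  unfold Itm.re Fac.re
  rw [Itm.v_eq]
  unfold Fac.V Fac.ap
  rcases hs : i.f.s with _ | _
  · have r2 := RepW.mon (w := ((2 ^ k : ℕ) : ℤ)) (r := r) (x := x) (i.f.d : ℤ) h2
    rw [two_pow_code, Mon.code_add, Mon.val_add] at r2
    have r3 := (r1.add r2).mono (c' := nf) (by simpa using h6)
    have e1 : (i.f.c : ℤ) * ((2 ^ (k * (i.m.code r + i.f.m1.code r)) : ℕ) : ℤ)
        + (i.f.d : ℤ) * ((2 ^ (k * (i.m.code r + i.f.m2.code r)) : ℕ) : ℤ) =
        ((2 ^ i.a * (Nat.add (Nat.shiftLeft (Nat.mul i.f.c 1) i.f.b1)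
          (Nat.shiftLeft (Nat.mul i.f.d 1) i.f.b2)) : ℕ) : ℤ) := by
      show _ = ((2 ^ i.a * ((i.f.c * 1) <<< i.f.b1 + (i.f.d * 1) <<< i.f.b2) : ℕ) : ℤ)
      rw [Nat.shiftLeft_eq, Nat.shiftLeft_eq, h3, h4, h5, Nat.mul_add k, Nat.mul_add k, pow_add,
        pow_add]
      push_cast; ring
    rw [e1] at r3
    have e2 : ((i.f.c : ℤ) : ℝ) * (i.m.val x * i.f.m1.val x)
        + ((i.f.d : ℤ) : ℝ) * (i.m.val x * i.f.m2.val x) =
        i.m.val x * (i.f.c * i.f.m1.val x + i.f.d * i.f.m2.val x) := by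
      push_cast; ring
    rw [e2] at r3
    exact r3
  · have r2 := RepW.mon (w := ((2 ^ k : ℕ) : ℤ)) (r := r) (x := x) (-(i.f.d : ℤ)) h2
    rw [two_pow_code, Mon.code_add, Mon.val_add] at r2
    have r3 := (r1.add r2).mono (c' := nf) (by simpa using h6)
    have h8 := h7 hs
    have e1 : (i.f.c : ℤ) * ((2 ^ (k * (i.m.code r + i.f.m1.code r)) : ℕ) : ℤ)
        + -(i.f.d : ℤ) * ((2 ^ (k * (i.m.code r + i.f.m2.code r)) : ℕ) : ℤ) =
        ((2 ^ i.a * (Nat.sub (Nat.shiftLeft (Nat.mul i.f.c 1) i.f.b1)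
          (Nat.shiftLeft (Nat.mul i.f.d 1) i.f.b2)) : ℕ) : ℤ) := by
      show _ = ((2 ^ i.a * ((i.f.c * 1) <<< i.f.b1 - (i.f.d * 1) <<< i.f.b2) : ℕ) : ℤ)
      rw [Nat.cast_mul, Nat.cast_sub (by rw [mul_one, mul_one]; exact h8)]
      rw [Nat.shiftLeft_eq, Nat.shiftLeft_eq, h3, h4, h5, Nat.mul_add k, Nat.mul_add k, pow_add,
        pow_add]
      push_cast; ring
    rw [e1] at r3
    have e2 : ((i.f.c : ℤ) : ℝ) * (i.m.val x * i.f.m1.val x)
        + ((-(i.f.d : ℤ) : ℤ) : ℝ) * (i.m.val x * i.f.m2.val x) =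
        i.m.val x * (i.f.c * i.f.m1.val x - i.f.d * i.f.m2.val x) := by
      push_cast; ring
    rw [e2] at r3
    exact r3

lemma rep_linW {B off : ℕ} (hB : B = 2 * off) (h0 : 0 < off) {x : Pnt} (it : List Itm)
    (h : GdW k r N nf it) (p : ℕ) :
    RepW ((2 ^ k : ℕ) : ℤ) r x N (it.length * (off * nf)) ((sd B it p : ℤ) - off * (tot it : ℤ))
      (rl B off x it p) := by
  induction it generalizing p with
  | nil =>
    have := RepW.zero (w := ((2 ^ k : ℕ) : ℤ)) (r := r) (x := x) N 0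
    simpa [sd, tot, rl] using this
  | cons i it ih =>
    have h1 := rep_itemW h.1 (x := x)
    have h2 := (h1.smul (((p % B : ℕ) : ℤ) - off)).add (ih h.2.2 (p / B))
    have h3 : (((p % B : ℕ) : ℤ) - off).natAbs ≤ off := by
      have : p % B < B := Nat.mod_lt _ (by omega)
      omega
    have e1 : (((p % B : ℕ) : ℤ) - off) * (i.v : ℤ)
        + ((sd B it (p / B) : ℤ) - off * (tot it : ℤ)) =
        ((sd B (i :: it) p : ℕ) : ℤ) - off * ((tot (i :: it) : ℕ) : ℤ) := by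
      have e2 : tot (i :: it) = i.v + tot it := rfl
      rw [sd, e2]
      generalize p % B = d
      push_cast; ring
    have e3 : (((((p % B : ℕ) : ℤ) - off : ℤ)) : ℝ) * i.re x + rl B off x it (p / B) =
        rl B off x (i :: it) p := by
      rw [rl]
      generalize p % B = d
      push_cast; ring
    rw [e1, e3] at h2
    refine h2.mono ?_
    rw [List.length_cons]
    (clear * - h3; nlinarith only [h3])

lemma rep_sqsW {B off : ℕ} (hB : B = 2 * off) (h0 : 0 < off) {x : Pnt} (it : List Itm)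
    (h : GdW k r N nf it) (Ls : List ℕ) {n : ℕ} (hn : it.length ≤ n) :
    RepW ((2 ^ k : ℕ) : ℤ) r x (N.add N) (Ls.length * ((n * (off * nf)) * (n * (off * nf))))
      ((sqs B off it Ls (tot it) : ℕ) : ℤ) (rsq B off x it Ls) := by
  induction it generalizing Ls with
  | nil => exact (RepW.zero _ _)
  | cons i it ih =>
    cases Ls with
    | nil => exact (RepW.zero _ _)
    | cons L Ls =>
      have h1 := rep_linW hB h0 (x := x) (i :: it) h L
      have h2 := (h1.mono (Nat.mul_le_mul_right (off * nf) hn))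
      have h3 := (h2.mul h2).add (ih h.2.2 Ls ((Nat.le_succ _).trans hn))
      have e1 : ((sqs B off (i :: it) (L :: Ls) (tot (i :: it)) : ℕ) : ℤ) =
          ((sd B (i :: it) L : ℤ) - off * (tot (i :: it) : ℤ))
            * ((sd B (i :: it) L : ℤ) - off * (tot (i :: it) : ℤ))
          + ((sqs B off it Ls (tot it) : ℕ) : ℤ) := by
        rw [sqs, tot_sub, lin_eqW (i :: it) h, zero_mul, zero_add]
        show ((sqd (sd B (i :: it) L) (off * tot (i :: it)) + sqs B off it Ls (tot it) : ℕ) : ℤ) = _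
        push_cast
        rw [sqd_eq]
        push_cast; ring
      have e2 : rl B off x (i :: it) L * rl B off x (i :: it) L + rsq B off x it Ls =
          rsq B off x (i :: it) (L :: Ls) := by
        rw [rsq]; ring
      rw [← e1, e2] at h3
      refine h3.mono (le_of_eq ?_)
      rw [List.length_cons]; ring

lemma rep_exW {B off : ℕ} (hB : B = 2 * off) (h0 : 0 < off) {x : Pnt} (it : List Itm)
    (h : GdW k r N nf it) (Es : List ℕ) {n : ℕ} (hn : it.length ≤ n) :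
    RepW ((2 ^ k : ℕ) : ℤ) r x (N.add N) (Es.length * ((n * (off * nf)) * nf))
      (((eps B it Es : ℕ) : ℤ) - ((ens off it Es (tot it) : ℕ) : ℤ)) (rex B off x it Es) := by
  induction it generalizing Es with
  | nil => exact (RepW.zero _ _)
  | cons i it ih =>
    cases Es with
    | nil => exact (RepW.zero _ _)
    | cons E Es =>
      have h1 := rep_linW hB h0 (x := x) (i :: it) h E
      have h2 := (h1.mono (Nat.mul_le_mul_right (off * nf) hn))
      have h3 := (h2.mul (rep_itemW h.1 (x := x))).add (ih h.2.2 Es ((Nat.le_succ _).trans hn))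
      have e1 : ((eps B (i :: it) (E :: Es) : ℕ) : ℤ)
            - ((ens off (i :: it) (E :: Es) (tot (i :: it)) : ℕ) : ℤ) =
          ((sd B (i :: it) E : ℤ) - off * (tot (i :: it) : ℤ)) * (i.v : ℤ)
          + (((eps B it Es : ℕ) : ℤ) - ((ens off it Es (tot it) : ℕ) : ℤ)) := by
        rw [eps, ens, tot_sub, lin_eqW (i :: it) h, zero_mul, zero_add, Itm.ap_eq, Itm.ap_eq]
        show ((sd B (i :: it) E * i.v + eps B it Es : ℕ) : ℤ)
          - (((off * tot (i :: it)) * i.v + ens off it Es (tot it) : ℕ) : ℤ) = _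
        push_cast; ring
      have e2 : rl B off x (i :: it) E * i.re x + rex B off x it Es =
          rex B off x (i :: it) (E :: Es) := rfl
      rw [← e1, e2] at h3
      refine h3.mono (le_of_eq ?_)
      rw [List.length_cons]; ring

lemma rep_z2W {x : Pnt} (it : List Itm) (h : GdW k r N nf it) :
    RepW ((2 ^ k : ℕ) : ℤ) r x (N.add N) (it.length * (nf * nf)) ((z2 it : ℕ) : ℤ)
      (rz2 x it) := by
  induction it with
  | nil => exact (RepW.zero _ _)
  | cons i it ih =>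
    have h1 := rep_itemW h.1 (x := x)
    have h2 := (h1.mul h1).add (ih h.2.2)
    have e1 : ((z2 (i :: it) : ℕ) : ℤ) = (i.v : ℤ) * (i.v : ℤ) + ((z2 it : ℕ) : ℤ) := by
      rw [z2]
      show ((i.v * i.v + z2 it : ℕ) : ℤ) = _
      push_cast; ring
    have e2 : i.re x * i.re x + rz2 x it = rz2 x (i :: it) := by rw [rz2]; ring
    rw [← e1, e2] at h2
    refine h2.mono (le_of_eq ?_)
    rw [List.length_cons]; ring

end rep

def Mon.inbW (m : Mon) (B : Bd) : Bool :=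
  Nat.ble m.a B.a && Nat.ble m.b B.b && Nat.ble m.d B.d && Nat.ble m.e B.e &&
    Nat.ble m.f B.f && Nat.ble m.g B.g && Nat.beq (m.b + m.c + m.d + m.e) B.w

lemma Mon.inbW_sound {m : Mon} {B : Bd} (h : m.inbW B = true) : m.InW B := by
  simp only [Mon.inbW, Bool.and_eq_true, Nat.ble_eq] at h
  obtain ⟨⟨⟨⟨⟨⟨h1, h2⟩, h3⟩, h4⟩, h5⟩, h6⟩, h7⟩ := h
  exact ⟨h1, h2, h3, h4, h5, h6, Nat.eq_of_beq_eq_true h7⟩

def Itm.okbW (k : ℕ) (r : Rad) (N : Bd) (nf : ℕ) (i : Itm) : Bool :=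
  (i.m.add i.f.m1).inbW N && (i.m.add i.f.m2).inbW N && Nat.beq i.a (k * i.m.code r) &&
    Nat.beq i.f.b1 (k * i.f.m1.code r) && Nat.beq i.f.b2 (k * i.f.m2.code r) &&
    Nat.ble (i.f.c + i.f.d) nf &&
    (match i.f.s with
      | false => true
      | true => Nat.ble (Nat.shiftLeft i.f.d i.f.b2) (Nat.shiftLeft i.f.c i.f.b1))

lemma Itm.okbW_sound {k : ℕ} {r : Rad} {N : Bd} {nf : ℕ} {i : Itm} (h : i.okbW k r N nf = true) :
    i.OkW k r N nf := by
  simp only [Itm.okbW, Bool.and_eq_true] at h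
  obtain ⟨⟨⟨⟨⟨⟨h1, h2⟩, h3⟩, h4⟩, h5⟩, h6⟩, h7⟩ := h
  refine ⟨Mon.inbW_sound h1, Mon.inbW_sound h2, Nat.eq_of_beq_eq_true h3,
    Nat.eq_of_beq_eq_true h4, Nat.eq_of_beq_eq_true h5, Nat.le_of_ble_eq_true h6, ?_⟩
  intro hs
  rw [hs] at h7
  exact Nat.le_of_ble_eq_true h7

def gdbW (k : ℕ) (r : Rad) (N : Bd) (nf : ℕ) : List Itm → Bool
  | [] => true
  | i :: it => i.okbW k r N nf && (i.e || nxt i it) && gdbW k r N nf it

lemma gdbW_sound {k : ℕ} {r : Rad} {N : Bd} {nf : ℕ} {it : List Itm}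
    (h : gdbW k r N nf it = true) : GdW k r N nf it := by
  induction it with
  | nil => trivial
  | cons i it ih =>
    simp only [gdbW, Bool.and_eq_true, Bool.or_eq_true] at h
    obtain ⟨⟨h1, h2⟩, h3⟩ := h
    have h4 := ih h3
    refine ⟨Itm.okbW_sound h1, ?_, h4⟩
    rw [eb]
    rcases he : i.e with _ | _
    · rw [he] at h2
      cases it with
      | nil => simp [nxt] at h2
      | cons j it =>
        have h5 : eqF i.f j.f = true := by simpa [nxt] using h2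
        show i.f.V = eb (j :: it)
        rw [eqF_sound h5]
        exact h4.2.1
    · rfl

def Blk.okW (b : Blk) (k : ℕ) (r : Rad) : Bool :=
  gdbW k r b.N b.nf b.its && b.mult.okW && Nat.beq b.B (2 * b.off) && Nat.blt 0 b.off &&
    Nat.beq b.BE (2 * b.offE) && Nat.blt 0 b.offE &&
    (emp b.E || Nat.ble ((len b.its + 1) * b.offE) (2 * b.dl))

lemma Blk.q_nonnegW {b : Blk} {k : ℕ} {r : Rad} (h : b.okW k r = true) (x : Pnt) : 0 ≤ b.q x := by
  simp only [Blk.okW, Bool.and_eq_true, Bool.or_eq_true, Nat.blt_eq, Nat.ble_eq] at h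
  obtain ⟨⟨⟨⟨⟨⟨_, _⟩, _⟩, _⟩, h5⟩, h6⟩, h7⟩ := h
  have h5 := Nat.eq_of_beq_eq_true h5
  have a1 := rsq_nonneg b.B b.off x b.its b.L
  have a2 := rz2_nonneg x b.its
  have a3 : (0 : ℝ) ≤ b.dl := Nat.cast_nonneg _
  rcases h7 with h7 | h7
  · have hE : b.E = [] := by
      cases hE : b.E with
      | nil => rfl
      | cons a l => rw [hE] at h7; simp [emp] at h7
    have : rex b.BE b.offE x b.its b.E = 0 := by
      rw [hE]
      cases b.its <;> rfl
    rw [Blk.q, this]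
    (clear * - a1 a2; positivity)
  · have a4 := rex_abs h5 h6 x b.its b.E
    have a5 : (((len b.its + 1) * b.offE : ℕ) : ℝ) ≤ ((2 * b.dl : ℕ) : ℝ) := by
      exact_mod_cast h7
    rw [len_eq] at a5
    push_cast at a5
    have a6 := neg_abs_le (rex b.BE b.offE x b.its b.E)
    have a7 : ((b.its.length : ℝ) + 1) * b.offE * rz2 x b.its ≤ 2 * b.dl * rz2 x b.its :=
      mul_le_mul_of_nonneg_right a5 a2
    rw [Blk.q]
    linarith only [a1, a4, a6, a7]

lemma Blk.repW {b : Blk} {k : ℕ} {r : Rad} (h : b.okW k r = true) (x : Pnt) :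
    RepW ((2 ^ k : ℕ) : ℤ) r x (b.N.add b.N) b.nmq ((b.vp : ℤ) - (b.vn : ℤ)) (b.q x) := by
  simp only [Blk.okW, Bool.and_eq_true, Nat.blt_eq] at h
  obtain ⟨⟨⟨⟨⟨⟨h1, _⟩, h3⟩, h4⟩, h5⟩, h6⟩, _⟩ := h
  have h3 := Nat.eq_of_beq_eq_true h3
  have h5 := Nat.eq_of_beq_eq_true h5
  have hg := gdbW_sound h1
  have r1 := rep_sqsW h3 h4 (x := x) b.its hg b.L (n := b.its.length) le_rfl
  have r2 := rep_exW h5 h6 (x := x) b.its hg b.E (n := b.its.length) le_rfl
  have r3 := (rep_z2W (x := x) b.its hg).smul (b.dl : ℤ)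
  have r4 := (r1.add r3).add r2
  have e1 : ((sqs b.B b.off b.its b.L (tot b.its) : ℕ) : ℤ) + (b.dl : ℤ) * ((z2 b.its : ℕ) : ℤ)
      + (((eps b.BE b.its b.E : ℕ) : ℤ) - ((ens b.offE b.its b.E (tot b.its) : ℕ) : ℤ)) =
      (b.vp : ℤ) - (b.vn : ℤ) := by
    have e2 : b.vp = sqs b.B b.off b.its b.L (tot b.its)
      + (dz2 b.dl b.its + eps b.BE b.its b.E) := rfl
    rw [e2, Blk.vn, dz2_eq]; push_cast; ring
  have e3 : rsq b.B b.off x b.its b.L + ((b.dl : ℤ) : ℝ) * rz2 x b.its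
      + rex b.BE b.offE x b.its b.E = b.q x := by
    rw [Blk.q]; push_cast; ring
  rw [e1, e3] at r4
  refine r4.mono (le_of_eq ?_)
  rw [Blk.nmq, len_eq, lenN_eq, lenN_eq]
  simp

def bokW (k : ℕ) (r : Rad) (N : Bd) : List Blk → Bool
  | [] => true
  | b :: bs => b.okW k r && (b.mult.bdW.add (b.N.add b.N)).leb N && bokW k r N bs

def Cert.checkW (c : Cert) : Bool :=
  c.r.okb c.N && c.target.okW && c.target.bdW.leb c.N && Nat.blt 0 c.s && bokW c.k c.r c.N c.blocks &&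
    Nat.blt (Nat.add (Nat.mul c.s c.target.nm) (bnm c.blocks)) (Nat.pow 2 c.k) &&
    eqi (Int.mul (Int.ofNat c.s) (c.target.ev (ipt c.k c.r))) (bsum (ipt c.k c.r) c.blocks)

lemma bsum_repW {k : ℕ} {r : Rad} {N : Bd} (bs : List Blk) (h : bokW k r N bs = true) (x : Pnt) :
    RepW ((2 ^ k : ℕ) : ℤ) r x N (bnm bs) (bsum (ipt k r) bs) (brs x bs) := by
  induction bs with
  | nil => exact RepW.zero _ _
  | cons b bs ih =>
    simp only [bokW, Bool.and_eq_true] at h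
    obtain ⟨⟨h1, h2⟩, h3⟩ := h
    have hm : b.mult.okW = true := by
      simp only [Blk.okW, Bool.and_eq_true] at h1
      exact h1.1.1.1.1.1.2
    have r1 := Ex.repW (w := ((2 ^ k : ℕ) : ℤ)) (r := r) (x := x) b.mult hm
    have r2 := ((r1.mul (Blk.repW h1 x)).le (Bd.leb_sound h2)).add (ih h3)
    rw [← ipt_eq] at r2
    exact r2

theorem Cert.soundW {c : Cert} (h : c.checkW = true) (x : Pnt) :
    (c.s : ℝ) * c.target.re x = brs x c.blocks := by
  simp only [Cert.checkW, Bool.and_eq_true, Nat.blt_eq] at h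
  obtain ⟨⟨⟨⟨⟨⟨h1, h2⟩, h3⟩, h4⟩, h5⟩, h6⟩, h7⟩ := h
  have r1 := (Ex.repW (w := ((2 ^ c.k : ℕ) : ℤ)) (r := c.r) (x := x) c.target h2).le
    (Bd.leb_sound h3)
  have r2 := (bsum_repW c.blocks h5 x).smul (-1)
  have r3 := (r1.smul (c.s : ℤ)).add r2
  have e7 := eqi_sound h7
  have e8 : (c.s : ℤ) * c.target.ev (c.r.pt ((2 ^ c.k : ℕ) : ℤ))
      + -1 * bsum (ipt c.k c.r) c.blocks = 0 := by
    rw [← ipt_eq]
    have : (c.s : ℤ) * c.target.ev (ipt c.k c.r) = bsum (ipt c.k c.r) c.blocks := e7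
    rw [this]; ring
  rw [e8] at r3
  have r4 := r3.eq_zero (Rad.okb_sound h1) (by
    have h6' : c.s * c.target.nm + bnm c.blocks < 2 ^ c.k := h6
    simpa using h6')
  push_cast at r4
  linarith only [r4]

theorem sos_posW {c : Cert} (h : c.checkW = true) (x : Pnt)
    (hm : ∀ b ∈ c.blocks, 0 ≤ b.mult.re x) : 0 ≤ c.target.re x := by
  have h1 := Cert.soundW h x
  have h2 : 0 ≤ brs x c.blocks := by
    have h5 : bokW c.k c.r c.N c.blocks = true := by
      simp only [Cert.checkW, Bool.and_eq_true] at h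
      exact h.1.1.2
    revert h5 hm
    induction c.blocks with
    | nil => intro _ _; exact le_rfl
    | cons b bs ih =>
      intro hm h5
      simp only [bokW, Bool.and_eq_true] at h5
      exact add_nonneg (mul_nonneg (hm b (by simp)) (Blk.q_nonnegW h5.1.1 x))
        (ih (fun b' hb => hm b' (by simp [hb])) h5.2)
  have h3 : (0 : ℝ) < c.s := by
    simp only [Cert.checkW, Bool.and_eq_true, Nat.blt_eq] at h
    exact_mod_cast h.1.1.1.2
  rw [← h1] at h2
  exact nonneg_of_mul_nonneg_right h2 h3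

end Pool.Sos71

end

section

/-!
A faster evaluation of the same certificates: the products are summed group by group, so that
only few large numbers appear.
-/

set_option autoImplicit false

namespace Pool.Sos71

/-- difference of two natural numbers -/
structure Cell where
  p : ℕ
  n : ℕ

def Cell.z (c : Cell) : ℤ := (c.p : ℤ) - c.n

/-- sign (`true` for `+`) and size -/
structure Sg where
  s : Bool
  m : ℕ

def sgz (s : Bool) (m : ℕ) : ℤ := match s with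
  | true => (m : ℤ)
  | false => -(m : ℤ)

def Sg.z (x : Sg) : ℤ := sgz x.s x.m

def mkS (A T : ℕ) : Sg := ⟨Nat.ble T A, Nat.add (Nat.sub A T) (Nat.sub T A)⟩

lemma mkS_z (A T : ℕ) : (mkS A T).z = (A : ℤ) - T := by
  have h : (mkS A T).m = (A - T) + (T - A) := rfl
  have h' : (mkS A T).s = Nat.ble T A := rfl
  unfold Sg.z
  rw [h, h']
  rcases hb : Nat.ble T A with _ | _
  · have h1 : ¬ T ≤ A := by
      intro hh
      rw [Nat.ble_eq_true_of_le hh] at hb
      exact absurd hb (by decide)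
    show -(((A - T) + (T - A) : ℕ) : ℤ) = _
    omega
  · have h1 : T ≤ A := Nat.le_of_ble_eq_true hb
    show (((A - T) + (T - A) : ℕ) : ℤ) = _
    omega

noncomputable def addC (s : Bool) (m : ℕ) (c : Cell) : Cell :=
  Bool.rec ⟨c.p, Nat.add c.n m⟩ ⟨Nat.add c.p m, c.n⟩ s

lemma addC_z (s : Bool) (m : ℕ) (c : Cell) : (addC s m c).z = c.z + sgz s m := by
  cases s
  · show ((c.p : ℕ) : ℤ) - ((c.n + m : ℕ) : ℤ) = ((c.p : ℤ) - c.n) + -(m : ℤ)
    push_cast; ring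
  · show ((c.p + m : ℕ) : ℤ) - (c.n : ℤ) = ((c.p : ℤ) - c.n) + (m : ℤ)
    push_cast; ring

noncomputable def eqs (a b : Bool) : Bool := Bool.rec (Bool.rec true false b) b a

lemma sgz_mul (a b : Bool) (m n : ℕ) : sgz (eqs a b) (Nat.mul m n) = sgz a m * sgz b n := by
  have h : ((Nat.mul m n : ℕ) : ℤ) = (m : ℤ) * n := by
    show ((m * n : ℕ) : ℤ) = _
    push_cast; ring
  cases a <;> cases b <;> simp only [sgz, eqs, h] <;> ring

/-- `c_h + x y_h` -/
noncomputable def updR (x : Sg) (ys : List Sg) : List Cell → List Cell :=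
  List.rec (fun c => c) (fun y _ ih c =>
    List.rec (addC (eqs x.s y.s) (Nat.mul x.m y.m) ⟨0, 0⟩ :: ih [])
      (fun d c' _ => addC (eqs x.s y.s) (Nat.mul x.m y.m) d :: ih c') c) ys

lemma updR_nil (x : Sg) (c : List Cell) : updR x [] c = c := rfl

lemma updR_cn (x y : Sg) (ys : List Sg) : updR x (y :: ys) [] =
    addC (eqs x.s y.s) (Nat.mul x.m y.m) ⟨0, 0⟩ :: updR x ys [] := rfl

lemma updR_cc (x y : Sg) (ys : List Sg) (d : Cell) (c : List Cell) : updR x (y :: ys) (d :: c) =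
    addC (eqs x.s y.s) (Nat.mul x.m y.m) d :: updR x ys c := rfl

/-- `c_gh + x_g x_h` -/
noncomputable def updM (xs : List Sg) : List (List Cell) → List (List Cell) :=
  List.rec (fun M => M) (fun x xs' ih M =>
    List.rec (updR x (x :: xs') [] :: ih [])
      (fun r M' _ => updR x (x :: xs') r :: ih M') M) xs

lemma updM_nil (M : List (List Cell)) : updM [] M = M := rfl

lemma updM_cn (x : Sg) (xs : List Sg) : updM (x :: xs) [] =
    updR x (x :: xs) [] :: updM xs [] := rfl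

lemma updM_cc (x : Sg) (xs : List Sg) (r : List Cell) (M : List (List Cell)) :
    updM (x :: xs) (r :: M) = updR x (x :: xs) r :: updM xs M := rfl

/-- `c_h + 2^a y_h` -/
noncomputable def updE (a : ℕ) (ys : List Sg) : List Cell → List Cell :=
  List.rec (fun c => c) (fun y _ ih c =>
    List.rec (addC y.s (Nat.shiftLeft y.m a) ⟨0, 0⟩ :: ih [])
      (fun d c' _ => addC y.s (Nat.shiftLeft y.m a) d :: ih c') c) ys

lemma updE_nil (a : ℕ) (c : List Cell) : updE a [] c = c := rfl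

lemma updE_cn (a : ℕ) (y : Sg) (ys : List Sg) : updE a (y :: ys) [] =
    addC y.s (Nat.shiftLeft y.m a) ⟨0, 0⟩ :: updE a ys [] := rfl

lemma updE_cc (a : ℕ) (y : Sg) (ys : List Sg) (d : Cell) (c : List Cell) :
    updE a (y :: ys) (d :: c) = addC y.s (Nat.shiftLeft y.m a) d :: updE a ys c := rfl

/-- forces the evaluation of the numbers -/
noncomputable def okC (l : List Cell) : Bool :=
  List.rec true (fun c _ ih => Bool.rec false (Bool.rec false ih (Nat.ble 0 c.n)) (Nat.ble 0 c.p)) l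

noncomputable def okM (l : List (List Cell)) : Bool :=
  List.rec true (fun r _ ih => Bool.rec false ih (okC r)) l

lemma okC_true (l : List Cell) : okC l = true := by
  induction l with
  | nil => rfl
  | cons c cs ih =>
    have h : okC (c :: cs) = Bool.rec false (Bool.rec false (okC cs) (Nat.ble 0 c.n))
      (Nat.ble 0 c.p) := rfl
    rw [h, Nat.ble_eq_true_of_le (Nat.zero_le c.p), Nat.ble_eq_true_of_le (Nat.zero_le c.n)]
    exact ih

lemma okM_true (l : List (List Cell)) : okM l = true := by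
  induction l with
  | nil => rfl
  | cons c cs ih =>
    have h : okM (c :: cs) = Bool.rec false (okM cs) (okC c) := rfl
    rw [h, okC_true]
    exact ih

def dotC : List Cell → List ℕ → ℤ
  | [], _ => 0
  | c :: cs, V => match V with
    | [] => 0
    | v :: vs => c.z * v + dotC cs vs

def dotS : List Sg → List ℕ → ℤ
  | [], _ => 0
  | c :: cs, V => match V with
    | [] => 0
    | v :: vs => c.z * v + dotS cs vs

/-- `sum of c_gh v_g v_h` for one `g` -/
def Qr (r : List Cell) (v : ℕ) (vs : List ℕ) : ℤ := match r with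
  | [] => 0
  | c :: cs => v * (c.z * v + 2 * dotC cs vs)

def Q : List (List Cell) → List ℕ → ℤ
  | [], _ => 0
  | r :: M, V => match V with
    | [] => 0
    | v :: vs => Qr r v vs + Q M vs

lemma dotC_nil (c : List Cell) : dotC c [] = 0 := by cases c <;> rfl

lemma dotS_nil (c : List Sg) : dotS c [] = 0 := by cases c <;> rfl

lemma Q_nil (c : List (List Cell)) : Q c [] = 0 := by cases c <;> rfl

lemma zeroC : (⟨0, 0⟩ : Cell).z = 0 := rfl

lemma dotC_updR (x : Sg) (ys : List Sg) (c : List Cell) (vs : List ℕ) :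
    dotC (updR x ys c) vs = dotC c vs + x.z * dotS ys vs := by
  induction ys generalizing c vs with
  | nil => rw [updR_nil]; simp [dotS]
  | cons y ys ih =>
    cases vs with
    | nil => rw [dotC_nil, dotC_nil, dotS_nil]; ring
    | cons v vs =>
      cases c with
      | nil =>
        rw [updR_cn]
        simp only [dotC, dotS]
        rw [ih, addC_z, zeroC, sgz_mul]
        unfold Sg.z
        rw [show dotC ([] : List Cell) vs = 0 from rfl]
        ring
      | cons d c =>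
        rw [updR_cc]
        simp only [dotC, dotS]
        rw [ih, addC_z, sgz_mul]
        unfold Sg.z
        ring

lemma dotC_updE (a : ℕ) (ys : List Sg) (c : List Cell) (vs : List ℕ) :
    dotC (updE a ys c) vs = dotC c vs + 2 ^ a * dotS ys vs := by
  have hs : ∀ y : Sg, sgz y.s (Nat.shiftLeft y.m a) = 2 ^ a * y.z := by
    intro y
    have h1 : ((Nat.shiftLeft y.m a : ℕ) : ℤ) = (y.m : ℤ) * 2 ^ a := by
      show ((y.m <<< a : ℕ) : ℤ) = _
      rw [Nat.shiftLeft_eq]; push_cast; ring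
    unfold Sg.z
    cases y.s
    · show -((Nat.shiftLeft y.m a : ℕ) : ℤ) = 2 ^ a * -(y.m : ℤ)
      rw [h1]; ring
    · show ((Nat.shiftLeft y.m a : ℕ) : ℤ) = 2 ^ a * (y.m : ℤ)
      rw [h1]; ring
  induction ys generalizing c vs with
  | nil => rw [updE_nil]; simp [dotS]
  | cons y ys ih =>
    cases vs with
    | nil => rw [dotC_nil, dotC_nil, dotS_nil]; ring
    | cons v vs =>
      cases c with
      | nil =>
        rw [updE_cn]
        simp only [dotC, dotS]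
        rw [ih, addC_z, zeroC, hs]
        rw [show dotC ([] : List Cell) vs = 0 from rfl]
        ring
      | cons d c =>
        rw [updE_cc]
        simp only [dotC, dotS]
        rw [ih, addC_z, hs]
        ring

lemma Q_updM (xs : List Sg) (M : List (List Cell)) (vs : List ℕ) :
    Q (updM xs M) vs = Q M vs + dotS xs vs * dotS xs vs := by
  induction xs generalizing M vs with
  | nil => rw [updM_nil]; simp [dotS]
  | cons x xs ih =>
    cases vs with
    | nil => rw [Q_nil, Q_nil, dotS_nil]; ring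
    | cons v vs =>
      have key : ∀ r : List Cell, Qr (updR x (x :: xs) r) v vs =
          Qr r v vs + v * (x.z * x.z * v + 2 * (x.z * dotS xs vs)) := by
        intro r
        cases r with
        | nil =>
          rw [updR_cn]
          simp only [Qr]
          rw [dotC_updR, addC_z, zeroC, sgz_mul]
          rw [show dotC ([] : List Cell) vs = 0 from rfl]
          unfold Sg.z
          ring
        | cons d c =>
          rw [updR_cc]
          simp only [Qr]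
          rw [dotC_updR, addC_z, sgz_mul]
          unfold Sg.z
          ring
      cases M with
      | nil =>
        rw [updM_cn]
        simp only [Q, dotS]
        rw [ih, key]
        rw [show Q ([] : List (List Cell)) vs = 0 from rfl, show Qr [] v vs = 0 from rfl]
        ring
      | cons r M =>
        rw [updM_cc]
        simp only [Q, dotS]
        rw [ih, key]
        ring

/-- sums of `2^a` over the groups, times `off` -/
def gT (off : ℕ) : List Itm → ℕ → List ℕ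
  | [], _ => []
  | i :: it, t => match i.e with
    | false => gT off it (Nat.add t (Nat.shiftLeft off i.a))
    | true => Nat.add t (Nat.shiftLeft off i.a) :: gT off it 0

/-- factors of the groups -/
def gF : List Itm → List Fac
  | [] => []
  | i :: it => match i.e with
    | false => gF it
    | true => i.f :: gF it

def gV (it : List Itm) : List ℕ := (gF it).map Fac.V

/-- digits of `p` summed over the groups -/
noncomputable def grp (B : ℕ) (it : List Itm) : ℕ → ℕ → List ℕ → List Sg :=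
  List.rec (fun _ _ _ => [])
    (fun i _ ih p acc Ts =>
      Bool.rec (ih (Nat.div p B) (Nat.add acc (Nat.shiftLeft (Nat.mod p B) i.a)) Ts)
        (List.rec [] (fun T Ts' _ => mkS (Nat.add acc (Nat.shiftLeft (Nat.mod p B) i.a)) T ::
          ih (Nat.div p B) 0 Ts') Ts) i.e) it

lemma grp_nil (B p acc : ℕ) (Ts : List ℕ) : grp B [] p acc Ts = [] := rfl

lemma grp_f {B : ℕ} {i : Itm} (h : i.e = false) (it : List Itm) (p acc : ℕ) (Ts : List ℕ) :
    grp B (i :: it) p acc Ts =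
      grp B it (Nat.div p B) (Nat.add acc (Nat.shiftLeft (Nat.mod p B) i.a)) Ts := by
  have h1 : grp B (i :: it) p acc Ts = Bool.rec
      (grp B it (Nat.div p B) (Nat.add acc (Nat.shiftLeft (Nat.mod p B) i.a)) Ts)
        (List.rec [] (fun T Ts' _ => mkS (Nat.add acc (Nat.shiftLeft (Nat.mod p B) i.a)) T ::
          grp B it (Nat.div p B) 0 Ts') Ts) i.e := rfl
  rw [h1, h]

lemma grp_t {B : ℕ} {i : Itm} (h : i.e = true) (it : List Itm) (p acc T : ℕ) (Ts : List ℕ) :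
    grp B (i :: it) p acc (T :: Ts) =
      mkS (Nat.add acc (Nat.shiftLeft (Nat.mod p B) i.a)) T :: grp B it (Nat.div p B) 0 Ts := by
  have h1 : grp B (i :: it) p acc (T :: Ts) = Bool.rec
      (grp B it (Nat.div p B) (Nat.add acc (Nat.shiftLeft (Nat.mod p B) i.a)) (T :: Ts))
        (mkS (Nat.add acc (Nat.shiftLeft (Nat.mod p B) i.a)) T ::
          grp B it (Nat.div p B) 0 Ts) i.e := rfl
  rw [h1, h]

def decT (c : ℕ) : List ℕ → List ℕ
  | [] => []
  | T :: Ts => Nat.sub T c :: Ts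

def tlT : List ℕ → List ℕ
  | [] => []
  | _ :: Ts => Ts

/-- every group is closed -/
def Ge : List Itm → Prop
  | [] => True
  | i :: it => (i.e = true ∨ it ≠ []) ∧ Ge it

lemma decT_gT (off c : ℕ) (it : List Itm) (t : ℕ) :
    decT c (gT off it (t + c)) = gT off it t := by
  induction it generalizing t with
  | nil => rfl
  | cons i it ih =>
    rw [gT, gT]
    rcases i.e with _ | _
    · show decT c (gT off it (t + c + off <<< i.a)) = gT off it (t + off <<< i.a)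
      rw [add_right_comm]
      exact ih _
    · show Nat.sub (t + c + off <<< i.a) c :: gT off it 0 = (t + off <<< i.a) :: gT off it 0
      congr 1
      show t + c + off <<< i.a - c = t + off <<< i.a
      generalize off <<< i.a = y
      omega

section

variable {k : ℕ} {r : Rad} {N : Bd} {nf : ℕ}

lemma dot_grp {B off : ℕ} (it : List Itm) (h : GdW k r N nf it) (he : Ge it) (p acc t : ℕ)
    (h0 : it = [] → acc = t) :
    dotS (grp B it p acc (gT off it t)) (gV it) =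
      ((acc : ℤ) - t) * eb it + ((sd B it p : ℤ) - off * (tot it : ℤ)) := by
  induction it generalizing p acc t with
  | nil => rw [grp_nil]; simp [dotS, sd, tot, h0 rfl]
  | cons i it ih =>
    obtain ⟨_, h3, h4⟩ := h
    obtain ⟨e1, e2⟩ := he
    have e3 : tot (i :: it) = i.v + tot it := rfl
    rw [gT, sd, Itm.v_eq, e3, Itm.v_eq]
    rw [eb] at h3 ⊢
    have hs : ∀ y : ℕ, (((y <<< i.a : ℕ)) : ℤ) = (y : ℤ) * 2 ^ i.a := by
      intro y; rw [Nat.shiftLeft_eq]; push_cast; ring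
    rcases ho : i.e with _ | _
    · simp only [ho] at h3 ⊢
      have hne : it ≠ [] := by
        rcases e1 with e1 | e1
        · rw [ho] at e1; exact absurd e1 (by decide)
        · exact e1
      have hV : gV (i :: it) = gV it := by
        unfold gV; rw [gF, ho]
      rw [hV, grp_f ho]
      rw [ih h4 e2 _ _ _ (fun hh => absurd hh hne)]
      show ((((acc + (p % B) <<< i.a : ℕ)) : ℤ) - ((t + off <<< i.a : ℕ) : ℤ)) * (eb it : ℤ)
        + (((sd B it (p / B) : ℕ) : ℤ) - off * (tot it : ℤ)) = _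
      rw [h3]
      generalize p % B = d
      generalize p / B = p'
      push_cast [hs]
      ring
    · simp only [ho] at h3 ⊢
      have hV : gV (i :: it) = i.f.V :: gV it := by
        unfold gV; rw [gF, ho]; rfl
      rw [hV, grp_t ho]
      simp only [dotS]
      rw [ih h4 e2 _ _ _ (fun _ => rfl), mkS_z]
      show ((((acc + (p % B) <<< i.a : ℕ)) : ℤ) - ((t + off <<< i.a : ℕ) : ℤ)) * (i.f.V : ℤ)
        + ((((0 : ℕ) : ℤ) - ((0 : ℕ) : ℤ)) * (eb it : ℤ)
          + (((sd B it (p / B) : ℕ) : ℤ) - off * (tot it : ℤ))) = _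
      generalize p % B = d
      generalize p / B = p'
      push_cast [hs]
      ring

lemma gF_head {it : List Itm} {f : Fac} {fs : List Fac} (h : gF it = f :: fs) : f.V = eb it := by
  induction it with
  | nil => simp [gF] at h
  | cons i it ih =>
    rw [gF] at h
    rw [eb]
    rcases ho : i.e with _ | _
    · simp only [ho] at h ⊢
      exact ih h
    · simp only [ho, List.cons.injEq] at h ⊢
      rw [h.1]

/-- `sum of c_h f_h` -/
noncomputable def finC : List Fac → List Cell → Cell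
  | [], _ => ⟨0, 0⟩
  | f :: fs, C => match C with
    | [] => ⟨0, 0⟩
    | c :: cs => addC (mkS c.p c.n).s (f.ap (mkS c.p c.n).m) (finC fs cs)

lemma sgz_ap (f : Fac) (x : Sg) : sgz x.s (f.ap x.m) = x.z * f.V := by
  rw [Fac.ap_eq]
  unfold Sg.z sgz
  cases x.s
  · show -((x.m * f.V : ℕ) : ℤ) = -(x.m : ℤ) * f.V
    push_cast; ring
  · show ((x.m * f.V : ℕ) : ℤ) = (x.m : ℤ) * f.V
    push_cast; ring

lemma finC_z (fs : List Fac) (C : List Cell) : (finC fs C).z = dotC C (fs.map Fac.V) := by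
  induction fs generalizing C with
  | nil => rw [List.map_nil, dotC_nil]; rfl
  | cons f fs ih =>
    cases C with
    | nil => rfl
    | cons c cs =>
      rw [finC]
      simp only [List.map_cons, dotC]
      rw [addC_z, ih, sgz_ap, mkS_z]
      unfold Cell.z
      ring

/-- `acc + f * (sum of c_h f_h)` -/
noncomputable def finE (f : Fac) (fs : List Fac) (C : List Cell) (acc : Cell) : Cell :=
  addC (mkS (finC fs C).p (finC fs C).n).s (f.ap (mkS (finC fs C).p (finC fs C).n).m) acc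

lemma finE_z (f : Fac) (fs : List Fac) (C : List Cell) (acc : Cell) :
    (finE f fs C acc).z = acc.z + f.V * dotC C (fs.map Fac.V) := by
  rw [finE, addC_z, sgz_ap, mkS_z, ← finC_z]
  unfold Cell.z
  ring

def dbl (c : Cell) : Cell := ⟨Nat.mul 2 c.p, Nat.mul 2 c.n⟩

lemma dbl_z (c : Cell) : (dbl c).z = 2 * c.z := by
  show ((2 * c.p : ℕ) : ℤ) - ((2 * c.n : ℕ) : ℤ) = 2 * ((c.p : ℤ) - c.n)
  push_cast; ring

/-- `acc + f (c f + 2 sum of c_h f_h)` -/
noncomputable def finR (f : Fac) (fs : List Fac) (c : Cell) (cs : List Cell) (acc : Cell) : Cell :=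
  match addC (mkS c.p c.n).s (f.ap (mkS c.p c.n).m) (dbl (finC fs cs)) with
  | ⟨p, n⟩ => addC (mkS p n).s (f.ap (mkS p n).m) acc

noncomputable def finRow (f : Fac) (fs : List Fac) (r : List Cell) (acc : Cell) : Cell := match r with
  | [] => acc
  | c :: cs => finR f fs c cs acc

lemma finRow_z (f : Fac) (fs : List Fac) (r : List Cell) (acc : Cell) :
    (finRow f fs r acc).z = acc.z + Qr r f.V (fs.map Fac.V) := by
  cases r with
  | nil => simp [finRow, Qr]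
  | cons c cs =>
    have h1 : finRow f fs (c :: cs) acc = addC
        (mkS (addC (mkS c.p c.n).s (f.ap (mkS c.p c.n).m) (dbl (finC fs cs))).p
          (addC (mkS c.p c.n).s (f.ap (mkS c.p c.n).m) (dbl (finC fs cs))).n).s
        (f.ap (mkS (addC (mkS c.p c.n).s (f.ap (mkS c.p c.n).m) (dbl (finC fs cs))).p
          (addC (mkS c.p c.n).s (f.ap (mkS c.p c.n).m) (dbl (finC fs cs))).n).m) acc := rfl
    have h2 := addC_z (mkS c.p c.n).s (f.ap (mkS c.p c.n).m) (dbl (finC fs cs))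
    rw [sgz_ap, mkS_z, dbl_z, finC_z] at h2
    rw [h1, addC_z, sgz_ap, mkS_z]
    unfold Cell.z at h2
    rw [h2]
    simp only [Qr]
    unfold Cell.z
    ring

noncomputable def finM : List Fac → List (List Cell) → Cell
  | [], _ => ⟨0, 0⟩
  | f :: fs, M => match M with
    | [] => ⟨0, 0⟩
    | r :: M' => finRow f fs r (finM fs M')

lemma finM_z (fs : List Fac) (M : List (List Cell)) : (finM fs M).z = Q M (fs.map Fac.V) := by
  induction fs generalizing M with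
  | nil => rw [List.map_nil, Q_nil]; rfl
  | cons f fs ih =>
    cases M with
    | nil => rfl
    | cons r M =>
      rw [finM]
      simp only [List.map_cons, Q]
      rw [finRow_z, ih]
      ring

noncomputable def sqF (B off : ℕ) (it : List Itm) :
    List ℕ → List ℕ → List Fac → List (List Cell) → Cell :=
  List.rec (fun _ _ Fs M => finM Fs M)
    (fun i it' ih Ls Ts Fs M =>
      List.rec (finM Fs M)
        (fun L Ls' _ =>
          Bool.rec ⟨0, 0⟩
            (Bool.rec (ih Ls' (decT (Nat.shiftLeft off i.a) Ts) Fs (updM (grp B (i :: it') L 0 Ts) M))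
              (List.rec ⟨0, 0⟩ (fun f Fs' _ =>
                List.rec ⟨0, 0⟩ (fun r M' _ => finRow f Fs' r (ih Ls' (tlT Ts) Fs' M'))
                  (updM (grp B (i :: it') L 0 Ts) M)) Fs) i.e)
            (okM (updM (grp B (i :: it') L 0 Ts) M))) Ls) it

lemma sqF_nil (B off : ℕ) (Ls Ts : List ℕ) (Fs : List Fac) (M : List (List Cell)) :
    sqF B off [] Ls Ts Fs M = finM Fs M := rfl

lemma sqF_cn (B off : ℕ) (i : Itm) (it : List Itm) (Ts : List ℕ) (Fs : List Fac)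
    (M : List (List Cell)) : sqF B off (i :: it) [] Ts Fs M = finM Fs M := rfl

lemma sqF_f {B off : ℕ} {i : Itm} (h : i.e = false) (it : List Itm) (L : ℕ) (Ls Ts : List ℕ)
    (Fs : List Fac) (M : List (List Cell)) :
    sqF B off (i :: it) (L :: Ls) Ts Fs M = sqF B off it Ls (decT (Nat.shiftLeft off i.a) Ts) Fs
            (updM (grp B (i :: it) L 0 Ts) M) := by
  have h1 : sqF B off (i :: it) (L :: Ls) Ts Fs M = Bool.rec ⟨0, 0⟩
            (Bool.rec (sqF B off it Ls (decT (Nat.shiftLeft off i.a) Ts) Fs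
              (updM (grp B (i :: it) L 0 Ts) M))
              (List.rec ⟨0, 0⟩ (fun f Fs' _ =>
                List.rec ⟨0, 0⟩ (fun r M' _ => finRow f Fs' r (sqF B off it Ls (tlT Ts) Fs' M'))
                  (updM (grp B (i :: it) L 0 Ts) M)) Fs) i.e)
            (okM (updM (grp B (i :: it) L 0 Ts) M)) := rfl
  rw [h1, okM_true, h]

lemma sqF_t {B off : ℕ} {i : Itm} (h : i.e = true) (it : List Itm) (L : ℕ) (Ls Ts : List ℕ)
    (f : Fac) (Fs : List Fac) (M : List (List Cell)) {r : List Cell} {M' : List (List Cell)}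
    (hM : updM (grp B (i :: it) L 0 Ts) M = r :: M') :
    sqF B off (i :: it) (L :: Ls) Ts (f :: Fs) M =
      finRow f Fs r (sqF B off it Ls (tlT Ts) Fs M') := by
  have h1 : sqF B off (i :: it) (L :: Ls) Ts (f :: Fs) M = Bool.rec ⟨0, 0⟩
            (Bool.rec (sqF B off it Ls (decT (Nat.shiftLeft off i.a) Ts) (f :: Fs)
              (updM (grp B (i :: it) L 0 Ts) M))
                (List.rec ⟨0, 0⟩ (fun r M' _ => finRow f Fs r (sqF B off it Ls (tlT Ts) Fs M'))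
                  (updM (grp B (i :: it) L 0 Ts) M)) i.e)
            (okM (updM (grp B (i :: it) L 0 Ts) M)) := rfl
  rw [h1, okM_true, h, hM]

lemma sqF_z {B off : ℕ} (it : List Itm) (h : GdW k r N nf it) (he : Ge it) (Ls : List ℕ)
    (M : List (List Cell)) :
    (sqF B off it Ls (gT off it 0) (gF it) M).z =
      Q M (gV it) + ((sqs B off it Ls (tot it) : ℕ) : ℤ) := by
  induction it generalizing Ls M with
  | nil =>
    rw [sqF_nil, finM_z]
    show _ = Q M (gV []) + ((0 : ℕ) : ℤ)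
    rw [Nat.cast_zero, add_zero]; rfl
  | cons i it ih =>
    cases Ls with
    | nil =>
      rw [sqF_cn, finM_z]
      show _ = Q M (gV (i :: it)) + ((0 : ℕ) : ℤ)
      rw [Nat.cast_zero, add_zero]; rfl
    | cons L Ls =>
      have hd := dot_grp (B := B) (off := off) (i :: it) h he L 0 0 (fun _ => rfl)
      have hq := Q_updM (grp B (i :: it) L 0 (gT off (i :: it) 0)) M (gV (i :: it))
      rw [hd] at hq
      have hs : ((sqs B off (i :: it) (L :: Ls) (tot (i :: it)) : ℕ) : ℤ) =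
          ((sd B (i :: it) L : ℤ) - off * (tot (i :: it) : ℤ))
            * ((sd B (i :: it) L : ℤ) - off * (tot (i :: it) : ℤ))
          + ((sqs B off it Ls (tot it) : ℕ) : ℤ) := by
        rw [sqs, tot_sub, lin_eqW (i :: it) h, zero_mul, zero_add]
        show ((sqd (sd B (i :: it) L) (off * tot (i :: it)) + sqs B off it Ls (tot it) : ℕ) : ℤ) = _
        push_cast
        rw [sqd_eq]
        push_cast; ring
      rw [hs]
      rcases ho : i.e with _ | _
      · have hT : decT (Nat.shiftLeft off i.a) (gT off (i :: it) 0) = gT off it 0 := by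
          rw [gT, ho]
          exact decT_gT off _ it 0
        have hF : gF (i :: it) = gF it := by rw [gF, ho]
        have hV : gV (i :: it) = gV it := by unfold gV; rw [hF]
        rw [hV] at hq
        rw [hV, sqF_f ho]
        rw [hT, hF, ih h.2.2 he.2, hq]
        push_cast; ring
      · have hT : tlT (gT off (i :: it) 0) = gT off it 0 := by
          rw [gT, ho]; rfl
        have hF : gF (i :: it) = i.f :: gF it := by rw [gF, ho]
        have hV : gV (i :: it) = i.f.V :: gV it := by unfold gV; rw [hF]; rfl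
        rw [hF]
        rcases hM : updM (grp B (i :: it) L 0 (gT off (i :: it) 0)) M with _ | ⟨r, M'⟩
        · exfalso
          have : grp B (i :: it) L 0 (gT off (i :: it) 0) ≠ [] := by
            rw [gT, ho]
            simp only
            rw [grp_t ho]; simp
          revert hM
          rcases hg : grp B (i :: it) L 0 (gT off (i :: it) 0) with _ | ⟨x, xs⟩
          · exact absurd hg this
          · cases M with
            | nil => rw [updM_cn]; simp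
            | cons r M => rw [updM_cc]; simp
        · rw [sqF_t ho _ _ _ _ _ _ _ hM, hT]
          rw [hM, hV] at hq
          simp only [Q] at hq
          rw [finRow_z, ih h.2.2 he.2, hV]
          have hV' : (gF it).map Fac.V = gV it := rfl
          rw [hV']
          push_cast at hq ⊢
          (clear * - hq; linarith only [hq])

noncomputable def flE (Fs : List Fac) (C : List Cell) : Cell := match Fs with
  | [] => ⟨0, 0⟩
  | f :: fs => finE f (f :: fs) C ⟨0, 0⟩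

noncomputable def exF (B off : ℕ) (it : List Itm) :
    List ℕ → List ℕ → List Fac → List Cell → Cell :=
  List.rec (fun _ _ _ _ => ⟨0, 0⟩)
    (fun i it' ih Es Ts Fs C =>
      List.rec (flE Fs C)
        (fun E Es' _ =>
          Bool.rec ⟨0, 0⟩
            (Bool.rec (ih Es' (decT (Nat.shiftLeft off i.a) Ts) Fs
                (updE i.a (grp B (i :: it') E 0 Ts) C))
              (List.rec ⟨0, 0⟩ (fun f Fs' _ =>
                finE f (f :: Fs') (updE i.a (grp B (i :: it') E 0 Ts) C)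
                  (ih Es' (tlT Ts) Fs' [])) Fs) i.e)
            (okC (updE i.a (grp B (i :: it') E 0 Ts) C))) Es) it

lemma exF_cn (B off : ℕ) (i : Itm) (it : List Itm) (Ts : List ℕ) (Fs : List Fac)
    (C : List Cell) : exF B off (i :: it) [] Ts Fs C = flE Fs C := rfl

lemma exF_f {B off : ℕ} {i : Itm} (h : i.e = false) (it : List Itm) (E : ℕ) (Es Ts : List ℕ)
    (Fs : List Fac) (C : List Cell) :
    exF B off (i :: it) (E :: Es) Ts Fs C = exF B off it Es (decT (Nat.shiftLeft off i.a) Ts) Fs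
            (updE i.a (grp B (i :: it) E 0 Ts) C) := by
  have h1 : exF B off (i :: it) (E :: Es) Ts Fs C = Bool.rec ⟨0, 0⟩
            (Bool.rec (exF B off it Es (decT (Nat.shiftLeft off i.a) Ts) Fs
                (updE i.a (grp B (i :: it) E 0 Ts) C))
              (List.rec ⟨0, 0⟩ (fun f Fs' _ =>
                finE f (f :: Fs') (updE i.a (grp B (i :: it) E 0 Ts) C)
                  (exF B off it Es (tlT Ts) Fs' [])) Fs) i.e)
            (okC (updE i.a (grp B (i :: it) E 0 Ts) C)) := rfl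
  rw [h1, okC_true, h]

lemma exF_t {B off : ℕ} {i : Itm} (h : i.e = true) (it : List Itm) (E : ℕ) (Es Ts : List ℕ)
    (f : Fac) (Fs : List Fac) (C : List Cell) :
    exF B off (i :: it) (E :: Es) Ts (f :: Fs) C =
      finE f (f :: Fs) (updE i.a (grp B (i :: it) E 0 Ts) C) (exF B off it Es (tlT Ts) Fs []) := by
  have h1 : exF B off (i :: it) (E :: Es) Ts (f :: Fs) C = Bool.rec ⟨0, 0⟩
            (Bool.rec (exF B off it Es (decT (Nat.shiftLeft off i.a) Ts) (f :: Fs)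
                (updE i.a (grp B (i :: it) E 0 Ts) C))
              (finE f (f :: Fs) (updE i.a (grp B (i :: it) E 0 Ts) C)
                  (exF B off it Es (tlT Ts) Fs [])) i.e)
            (okC (updE i.a (grp B (i :: it) E 0 Ts) C)) := rfl
  rw [h1, okC_true, h]

lemma flE_z (it : List Itm) (C : List Cell) : (flE (gF it) C).z = eb it * dotC C (gV it) := by
  unfold gV
  rcases hF : gF it with _ | ⟨f, fs⟩
  · rw [List.map_nil, dotC_nil, mul_zero]; rfl
  · show (finE f (f :: fs) C ⟨0, 0⟩).z = _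
    rw [finE_z, gF_head hF, zeroC, zero_add]

lemma exF_z {B off : ℕ} (it : List Itm) (h : GdW k r N nf it) (he : Ge it) (Es : List ℕ)
    (C : List Cell) :
    (exF B off it Es (gT off it 0) (gF it) C).z =
      eb it * dotC C (gV it) +
        (((eps B it Es : ℕ) : ℤ) - ((ens off it Es (tot it) : ℕ) : ℤ)) := by
  induction it generalizing Es C with
  | nil =>
    have : gV [] = [] := rfl
    rw [this, dotC_nil]
    show ((0 : ℕ) : ℤ) - ((0 : ℕ) : ℤ) = _
    simp [eps, ens]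
  | cons i it ih =>
    cases Es with
    | nil =>
      rw [exF_cn, flE_z]
      show _ = _ + (((0 : ℕ) : ℤ) - ((0 : ℕ) : ℤ))
      ring
    | cons E Es =>
      have hd := dot_grp (B := B) (off := off) (i :: it) h he E 0 0 (fun _ => rfl)
      have hq := dotC_updE i.a (grp B (i :: it) E 0 (gT off (i :: it) 0)) C (gV (i :: it))
      rw [hd] at hq
      have e1 : ((eps B (i :: it) (E :: Es) : ℕ) : ℤ)
            - ((ens off (i :: it) (E :: Es) (tot (i :: it)) : ℕ) : ℤ) =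
          ((sd B (i :: it) E : ℤ) - off * (tot (i :: it) : ℤ)) * (i.v : ℤ)
          + (((eps B it Es : ℕ) : ℤ) - ((ens off it Es (tot it) : ℕ) : ℤ)) := by
        rw [eps, ens, tot_sub, lin_eqW (i :: it) h, zero_mul, zero_add, Itm.ap_eq, Itm.ap_eq]
        show ((sd B (i :: it) E * i.v + eps B it Es : ℕ) : ℤ)
          - (((off * tot (i :: it)) * i.v + ens off it Es (tot it) : ℕ) : ℤ) = _
        push_cast; ring
      have hv : (i.v : ℤ) = 2 ^ i.a * (eb (i :: it) : ℤ) := by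
        rw [Itm.v_eq, h.2.1]; push_cast; ring
      rw [e1]
      rcases ho : i.e with _ | _
      · have hT : decT (Nat.shiftLeft off i.a) (gT off (i :: it) 0) = gT off it 0 := by
          rw [gT, ho]
          exact decT_gT off _ it 0
        have hF : gF (i :: it) = gF it := by rw [gF, ho]
        have hV : gV (i :: it) = gV it := by unfold gV; rw [hF]
        have hE : eb (i :: it) = eb it := by rw [eb, ho]
        rw [hV] at hq
        rw [hE] at hv hq
        rw [hV, hE, exF_f ho]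
        rw [hT, hF, ih h.2.2 he.2, hq, hv]
        push_cast; ring
      · have hT : tlT (gT off (i :: it) 0) = gT off it 0 := by
          rw [gT, ho]; rfl
        have hF : gF (i :: it) = i.f :: gF it := by rw [gF, ho]
        have hE : eb (i :: it) = i.f.V := by rw [eb, ho]
        rw [hF, exF_t ho, hT]
        have hV' : (i.f :: gF it).map Fac.V = gV (i :: it) := by unfold gV; rw [hF]
        rw [finE_z, ih h.2.2 he.2, hV', hq, hv, hE]
        rw [show dotC ([] : List Cell) (gV it) = 0 from rfl]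
        push_cast; ring

def z2F : List Itm → ℕ → ℕ
  | [], _ => 0
  | i :: it, acc => match i.e with
    | false => z2F it (Nat.add acc (Nat.shiftLeft 1 (Nat.mul 2 i.a)))
    | true => Nat.add (i.f.ap (i.f.ap (Nat.add acc (Nat.shiftLeft 1 (Nat.mul 2 i.a)))))
        (z2F it 0)

lemma z2F_eq (it : List Itm) (h : GdW k r N nf it) (he : Ge it) (acc : ℕ)
    (h0 : it = [] → acc = 0) : z2F it acc = acc * (eb it * eb it) + z2 it := by
  induction it generalizing acc with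
  | nil => simp [z2F, z2, h0 rfl]
  | cons i it ih =>
    obtain ⟨_, h3, h4⟩ := h
    obtain ⟨e1, e2⟩ := he
    rw [z2F, z2, Itm.v_eq]
    rw [eb] at h3 ⊢
    have hs : (1 : ℕ) <<< (2 * i.a) = 2 ^ i.a * 2 ^ i.a := by
      rw [Nat.shiftLeft_eq, one_mul, two_mul, pow_add]
    rcases ho : i.e with _ | _
    · simp only [ho] at h3 ⊢
      have hne : it ≠ [] := by
        rcases e1 with e1 | e1
        · rw [ho] at e1; exact absurd e1 (by decide)
        · exact e1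
      rw [ih h4 e2 _ (fun hh => absurd hh hne)]
      show (acc + 1 <<< (2 * i.a)) * (eb it * eb it) + z2 it =
        acc * (eb it * eb it) + (2 ^ i.a * i.f.V * (2 ^ i.a * i.f.V) + z2 it)
      rw [hs, h3]; ring
    · simp only [ho] at h3 ⊢
      rw [ih h4 e2 _ (fun _ => rfl), Fac.ap_eq, Fac.ap_eq]
      show (acc + 1 <<< (2 * i.a)) * i.f.V * i.f.V + (0 * (eb it * eb it) + z2 it) =
        acc * (i.f.V * i.f.V) + (2 ^ i.a * i.f.V * (2 ^ i.a * i.f.V) + z2 it)
      rw [hs]; ring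

end

def dz2F (d : ℕ) (it : List Itm) : ℕ := match d with
  | 0 => 0
  | n + 1 => Nat.mul (Nat.succ n) (z2F it 0)

def toI (c : Cell) : ℤ := match c with
  | ⟨p, n⟩ => Int.sub (Int.ofNat p) (Int.ofNat n)

lemma toI_eq (c : Cell) : toI c = c.z := rfl

noncomputable def Blk.vF (b : Blk) : ℤ :=
  Int.add (toI (sqF b.B b.off b.its b.L (gT b.off b.its 0) (gF b.its) []))
    (Int.add (Int.ofNat (dz2F b.dl b.its))
      (toI (exF b.BE b.offE b.its b.E (gT b.offE b.its 0) (gF b.its) [])))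

lemma Ge_of_gdbW {k : ℕ} {r : Rad} {N : Bd} {nf : ℕ} {it : List Itm}
    (h : gdbW k r N nf it = true) : Ge it := by
  induction it with
  | nil => trivial
  | cons i it ih =>
    simp only [gdbW, Bool.and_eq_true, Bool.or_eq_true] at h
    obtain ⟨⟨_, h2⟩, h3⟩ := h
    refine ⟨?_, ih h3⟩
    rcases h2 with h2 | h2
    · exact Or.inl h2
    · right
      intro hh
      rw [hh] at h2
      exact absurd h2 Bool.false_ne_true

lemma Blk.vF_eq {b : Blk} {k : ℕ} {r : Rad} (h : b.okW k r = true) :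
    b.vF = Int.sub (Int.ofNat b.vp) (Int.ofNat b.vn) := by
  simp only [Blk.okW, Bool.and_eq_true] at h
  have h1 := h.1.1.1.1.1.1
  have hg := gdbW_sound h1
  have he := Ge_of_gdbW h1
  have a1 := sqF_z (B := b.B) (off := b.off) b.its hg he b.L []
  have a2 := exF_z (B := b.BE) (off := b.offE) b.its hg he b.E []
  have a3 : dz2F b.dl b.its = b.dl * z2 b.its := by
    have := z2F_eq b.its hg he 0 (fun _ => rfl)
    rcases hd : b.dl with _ | n
    · rw [Nat.zero_mul]; rfl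
    · show (n + 1) * z2F b.its 0 = _
      rw [this, zero_mul, zero_add]
  rw [show Q ([] : List (List Cell)) (gV b.its) = 0 from rfl, zero_add] at a1
  rw [show dotC ([] : List Cell) (gV b.its) = 0 from rfl, mul_zero, zero_add] at a2
  unfold Blk.vF
  rw [toI_eq, toI_eq, a1, a2, a3]
  have e2 : b.vp = sqs b.B b.off b.its b.L (tot b.its)
      + (dz2 b.dl b.its + eps b.BE b.its b.E) := rfl
  show ((sqs b.B b.off b.its b.L (tot b.its) : ℕ) : ℤ) + (((b.dl * z2 b.its : ℕ) : ℤ)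
    + (((eps b.BE b.its b.E : ℕ) : ℤ) - ((ens b.offE b.its b.E (tot b.its) : ℕ) : ℤ))) =
    ((b.vp : ℕ) : ℤ) - ((b.vn : ℕ) : ℤ)
  rw [e2, Blk.vn, dz2_eq]; push_cast; ring

noncomputable def bsumF (X : IPt) : List Blk → ℤ
  | [] => 0
  | b :: bs => Int.add (Int.mul (b.mult.ev X) b.vF) (bsumF X bs)

lemma bsumF_eq {k : ℕ} {r : Rad} {N : Bd} (X : IPt) (bs : List Blk) (h : bokW k r N bs = true) :
    bsumF X bs = bsum X bs := by
  induction bs with
  | nil => rfl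
  | cons b bs ih =>
    simp only [bokW, Bool.and_eq_true] at h
    rw [bsumF, bsum, ih h.2, Blk.vF_eq h.1.1]

noncomputable def Cert.checkF (c : Cert) : Bool :=
  c.r.okb c.N && c.target.okW && c.target.bdW.leb c.N && Nat.blt 0 c.s && bokW c.k c.r c.N c.blocks &&
    Nat.blt (Nat.add (Nat.mul c.s c.target.nm) (bnm c.blocks)) (Nat.pow 2 c.k) &&
    eqi (Int.mul (Int.ofNat c.s) (c.target.ev (ipt c.k c.r))) (bsumF (ipt c.k c.r) c.blocks)

theorem Cert.checkW_of_F {c : Cert} (h : c.checkF = true) : c.checkW = true := by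
  have h' := h
  simp only [Cert.checkF, Bool.and_eq_true] at h
  obtain ⟨⟨⟨⟨⟨⟨h1, h2⟩, h3⟩, h4⟩, h5⟩, h6⟩, h7⟩ := h
  rw [bsumF_eq _ _ h5] at h7
  simp only [Cert.checkW, Bool.and_eq_true]
  exact ⟨⟨⟨⟨⟨⟨h1, h2⟩, h3⟩, h4⟩, h5⟩, h6⟩, h7⟩

end Pool.Sos71

end

section

namespace Pool.Sos71
end Pool.Sos71

set_option autoImplicit false

/-!
MP_16b0ee, project EK3 (after helper98): a form of a block is bounded by a power of `1 + u² + v²` if its basis has
no factors `P, R` and small degrees in `u, v`.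
-/

namespace Pool.Sos71.Bdd

open Pool.Sos71

/-- the size of a point -/
noncomputable def rho (x : Pnt) : ℝ := Real.sqrt (1 + x.f ^ 2 + x.g ^ 2)

theorem rho_one (x : Pnt) : 1 ≤ rho x := by
  unfold rho
  rw [Real.one_le_sqrt]
  nlinarith only []

theorem rho_sq (x : Pnt) : rho x ^ 2 = 1 + x.f ^ 2 + x.g ^ 2 :=
  Real.sq_sqrt (by (clear * -; positivity))

theorem f_le (x : Pnt) : |x.f| ≤ rho x := by
  unfold rho
  rw [← Real.sqrt_sq_eq_abs]
  exact Real.sqrt_le_sqrt (by (clear * -; nlinarith only []))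

theorem g_le (x : Pnt) : |x.g| ≤ rho x := by
  unfold rho
  rw [← Real.sqrt_sq_eq_abs]
  exact Real.sqrt_le_sqrt (by nlinarith only [])

end Pool.Sos71.Bdd

end

section

namespace Pool.Agent.Helper52.EK
end Pool.Agent.Helper52.EK
namespace Pool.Agent.Helper69.EK3
end Pool.Agent.Helper69.EK3

set_option autoImplicit false

open Complex MeasureTheory Metric Set

open scoped Real ComplexConjugate

namespace Pool.Agent.Helper63.CK

open Pool.Agent.Helper52.EK Pool.Agent.Helper69.EK3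

theorem inner {f : ℝ → ℝ} (hf : ContinuousOn f (Icc 0 π))
    (h1 : ∀ η ∈ Icc (0:ℝ) π, f η ≤ 1) {q : ℝ} (hq : 0 ≤ q)
    (hz : ∀ η ∈ Icc (0:ℝ) π, q ≤ Real.sin η → f η = 0) :
    ∫ η in (0:ℝ)..π, f η ≤ π * min 1 q := by
  have hπ := Real.pi_pos
  have hi : ∀ a b : ℝ, 0 ≤ a → a ≤ b → b ≤ π → IntervalIntegrable f volume a b := by
    intro a b ha hab hb
    apply ContinuousOn.intervalIntegrable
    rw [uIcc_of_le hab]
    exact hf.mono (Icc_subset_Icc ha hb)
  have hm : ∀ a b : ℝ, 0 ≤ a → a ≤ b → b ≤ π → ∫ η in a..b, f η ≤ b - a := by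
    intro a b ha hab hb
    calc ∫ η in a..b, f η ≤ ∫ _ in a..b, (1:ℝ) := by
          apply intervalIntegral.integral_mono_on hab (hi a b ha hab hb)
            (by simp)
          intro η hη
          exact h1 η ⟨ha.trans hη.1, hη.2.trans hb⟩
      _ = b - a := by simp
  rcases le_total 1 q with h | h
  · rw [min_eq_left h]
    have := hm 0 π le_rfl hπ.le le_rfl
    linarith only [this]
  · rw [min_eq_right h]
    set u : ℝ := π * q / 2 with hu
    have hu0 : 0 ≤ u := by (clear * - hq; positivity)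
    have hu1 : u ≤ π / 2 := by
      rw [hu]
      (clear * - hπ h; nlinarith only [hπ, h])
    have e1 : ∫ η in (0:ℝ)..π, f η = (∫ η in (0:ℝ)..u, f η) + (∫ η in u..(π - u), f η) +
        ∫ η in (π - u)..π, f η := by
      rw [intervalIntegral.integral_add_adjacent_intervals (hi 0 u le_rfl hu0 (by linarith only [hu0, hu1]))
        (hi u (π - u) hu0 (by linarith only [hu1]) (by linarith only [hu0])),
        intervalIntegral.integral_add_adjacent_intervals (hi 0 (π - u) le_rfl (by linarith only [hu0, hu1])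
          (by (clear * - hu0; linarith))) (hi (π - u) π (by (clear * - hπ hu1; linarith)) (by (clear * - hu0; linarith)) le_rfl)]
    have e2 : ∫ η in u..(π - u), f η = 0 := by
      apply intervalIntegral.integral_zero_ae
      refine Filter.Eventually.of_forall fun η hη => ?_
      rw [uIoc_of_le (by (clear * - hu1; linarith only [hu1]))] at hη
      have hη0 : 0 ≤ η := hu0.trans hη.1.le
      have hηπ : η ≤ π := hη.2.trans (by (clear * - hu0; linarith only [hu0]))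
      apply hz η ⟨hη0, hηπ⟩
      have h3 : 2 / π * u = q := by
        rw [hu]
        (clear * -; field_simp)
      rcases le_total η (π / 2) with h4 | h4
      · have h5 := Real.mul_le_sin hη0 h4
        have h6 : 2 / π * u ≤ 2 / π * η := mul_le_mul_of_nonneg_left hη.1.le (by (clear * -; positivity))
        (clear * - h3 h5 h6; linarith only [h3, h5, h6])
      · have h5 := Real.mul_le_sin (x := π - η) (by linarith only [hηπ]) (by linarith only [h4])
        rw [Real.sin_pi_sub] at h5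
        have h6 : 2 / π * u ≤ 2 / π * (π - η) :=
          mul_le_mul_of_nonneg_left (by (clear * - hη; linarith only [hη.2])) (by positivity)
        (clear * - h3 h5 h6; linarith)
    have e3 := hm 0 u le_rfl hu0 (by linarith only [hu0, hu1])
    have e4 := hm (π - u) π (by linarith) (by linarith only [hu0]) le_rfl
    rw [e1, e2]
    have : u + u = π * q := by rw [hu]; ring
    linarith only [e3, e4, this]

theorem min_le_log (t : ℝ) : min 1 (Real.exp (-t)) ≤ 2 * Real.exp (-t) / (1 + Real.exp (-t)) := by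
  have h := Real.exp_pos (-t)
  rw [le_div_iff₀ (by (clear * -; positivity))]
  rcases le_total 1 (Real.exp (-t)) with h1 | h1
  · rw [min_eq_left h1]
    linarith only [h1]
  · rw [min_eq_right h1]
    (clear * - h h1; nlinarith only [h, h1])

theorem outer_int (lb a b : ℝ) :
    ∫ ξ in a..b, 2 * Real.exp (-(ξ - lb)) / (1 + Real.exp (-(ξ - lb))) =
      2 * Real.log (1 + Real.exp (-(a - lb))) - 2 * Real.log (1 + Real.exp (-(b - lb))) := by
  have hd : ∀ x ∈ uIcc a b, HasDerivAt (fun ξ => -(2 * Real.log (1 + Real.exp (-(ξ - lb)))))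
      (2 * Real.exp (-(x - lb)) / (1 + Real.exp (-(x - lb)))) x := by
    intro x _
    have h0 : HasDerivAt (fun ξ : ℝ => -(ξ - lb)) (-1) x :=
      ((hasDerivAt_id x).sub_const lb).neg
    have h1 := h0.exp.const_add 1
    have hp : (1 + Real.exp (-(x - lb))) ≠ 0 := by positivity
    have h2 := ((h1.log hp).const_mul 2).neg
    refine h2.congr_deriv ?_
    ring
  have hc : Continuous (fun x : ℝ => 2 * Real.exp (-(x - lb)) / (1 + Real.exp (-(x - lb)))) := by
    apply Continuous.div (by fun_prop) (by fun_prop)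
    intro x
    positivity
  rw [intervalIntegral.integral_eq_sub_of_hasDerivAt hd (hc.intervalIntegrable _ _)]
  ring

theorem log_one_add_exp_le (t : ℝ) : Real.log (1 + Real.exp t) ≤ max t 0 + 1 := by
  have h1 : 1 + Real.exp t ≤ 2 * Real.exp (max t 0) := by
    have h2 : Real.exp t ≤ Real.exp (max t 0) := Real.exp_le_exp.mpr (le_max_left _ _)
    have h3 : 1 ≤ Real.exp (max t 0) := Real.one_le_exp (le_max_right _ _)
    linarith
  have h4 : Real.log (1 + Real.exp t) ≤ Real.log (2 * Real.exp (max t 0)) :=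
    Real.log_le_log (by positivity) h1
  rw [Real.log_mul (by norm_num) (Real.exp_pos _).ne', Real.log_exp] at h4
  have h5 : Real.log 2 ≤ 1 := by
    have := Real.log_le_sub_one_of_pos (x := 2) (by norm_num)
    (clear * - this; linarith only [this])
  (clear * - h4 h5; linarith only [h4, h5])

/-- the area bound: `W = 1` where `ξ ≤ -A` and `e^lb ≤ e^ξ sin η` -/
theorem area_le {x₁ x₂ A lb : ℝ} (hx : x₁ ≤ x₂) (hA : -A ≤ x₂) {W : ℝ → ℝ → ℝ}
    (hW : CH x₁ x₂ π W) (h0 : ∀ ξ ∈ Icc x₁ x₂, ∀ η ∈ Icc (0:ℝ) π, 0 ≤ W ξ η)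
    (h1 : ∀ ξ ∈ Icc x₁ x₂, ∀ η ∈ Icc (0:ℝ) π, ξ ≤ -A →
      Real.exp lb ≤ Real.exp ξ * Real.sin η → W ξ η = 1) :
    II x₁ x₂ (fun ξ η => 1 - W ξ η) ≤ π * (2 * (max (lb - x₁) 0 + 1) + (x₂ + A)) := by
  have hπ := Real.pi_pos
  have hf : CH x₁ x₂ π (fun ξ η => 1 - W ξ η) := (CH_const 1).sub hW
  have hfξ : ∀ ξ ∈ Icc x₁ x₂, ContinuousOn (fun η => 1 - W ξ η) (Icc 0 π) := fun ξ hξ =>
    ContinuousOn.comp (f := fun η : ℝ => (ξ, η)) (g := fun p : ℝ × ℝ => 1 - W p.1 p.2) hf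
      (by fun_prop) (fun η hη => ⟨hξ, hη⟩)
  set F : ℝ → ℝ := fun ξ => ∫ η in (0:ℝ)..π, (1 - W ξ η) with hF
  have hFi : IntegrableOn F (Icc x₁ x₂) := by
    have h2 := hf.integrableOn
    have h3 : IntegrableOn (fun p : ℝ × ℝ => 1 - W p.1 p.2) (Icc x₁ x₂ ×ˢ Icc 0 π)
        (volume.prod volume) := h2
    rw [IntegrableOn, ← Measure.prod_restrict] at h3
    have h4 := h3.integral_prod_left
    have h5 : (fun ξ => ∫ η in Icc (0:ℝ) π, (1 - W ξ η)) = F := by
      funext ξ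
      rw [hF]
      simp only
      rw [intervalIntegral.integral_of_le hπ.le, ← integral_Icc_eq_integral_Ioc]
    rw [← h5]
    exact h4
  have hFI : ∀ a b : ℝ, x₁ ≤ a → a ≤ b → b ≤ x₂ → IntervalIntegrable F volume a b := by
    intro a b ha hab hb
    rw [intervalIntegrable_iff_integrableOn_Icc_of_le hab]
    exact hFi.mono_set (Icc_subset_Icc ha hb)
  have b1 : ∀ ξ ∈ Icc x₁ x₂, F ξ ≤ π := by
    intro ξ hξ
    have h2 := inner (q := 2) (hfξ ξ hξ) (fun η hη => by linarith only [h0 ξ hξ η hη]) (by norm_num)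
      (fun η hη hs => absurd (Real.sin_le_one η) (by (clear * - hs; linarith only [hs])))
    have h3 : min (1:ℝ) 2 = 1 := by norm_num
    rw [h3, mul_one] at h2
    exact h2
  have b2 : ∀ ξ ∈ Icc x₁ x₂, ξ ≤ -A →
      F ξ ≤ π * (2 * Real.exp (-(ξ - lb)) / (1 + Real.exp (-(ξ - lb)))) := by
    intro ξ hξ hξA
    have h2 := inner (q := Real.exp (-(ξ - lb))) (hfξ ξ hξ)
      (fun η hη => by (clear * - h0 hξ hη; linarith only [h0 ξ hξ η hη])) (Real.exp_pos _).le
      (fun η hη hs => by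
        have h3 : Real.exp lb ≤ Real.exp ξ * Real.sin η := by
          have h4 : Real.exp lb = Real.exp ξ * Real.exp (-(ξ - lb)) := by
            rw [← Real.exp_add]
            congr 1
            ring
          rw [h4]
          exact mul_le_mul_of_nonneg_left hs (Real.exp_pos _).le
        rw [h1 ξ hξ η hη hξA h3]
        ring)
    exact h2.trans (mul_le_mul_of_nonneg_left (min_le_log _) hπ.le)
  have hc : Continuous (fun x : ℝ => 2 * Real.exp (-(x - lb)) / (1 + Real.exp (-(x - lb)))) := by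
    apply Continuous.div (by fun_prop) (by fun_prop)
    intro x
    positivity
  have hII : II x₁ x₂ (fun ξ η => 1 - W ξ η) = ∫ ξ in x₁..x₂, F ξ := rfl
  rw [hII]
  have hlog : Real.log (1 + Real.exp (-(x₁ - lb))) ≤ max (lb - x₁) 0 + 1 := by
    have h2 := log_one_add_exp_le (-(x₁ - lb))
    have h3 : -(x₁ - lb) = lb - x₁ := by ring
    rwa [h3] at h2 ⊢
  have hlog0 : 0 ≤ max (lb - x₁) 0 := le_max_right _ _
  rcases le_total x₁ (-A) with hxA | hxA
  · have e1 : ∫ ξ in x₁..x₂, F ξ = (∫ ξ in x₁..(-A), F ξ) + ∫ ξ in (-A)..x₂, F ξ :=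
      (intervalIntegral.integral_add_adjacent_intervals (hFI x₁ (-A) le_rfl hxA hA)
        (hFI (-A) x₂ hxA hA le_rfl)).symm
    have e2 : ∫ ξ in (-A)..x₂, F ξ ≤ π * (x₂ + A) := by
      calc ∫ ξ in (-A)..x₂, F ξ ≤ ∫ _ in (-A)..x₂, π := by
            apply intervalIntegral.integral_mono_on hA (hFI (-A) x₂ hxA hA le_rfl) (by simp)
            intro ξ hξ
            exact b1 ξ ⟨hxA.trans hξ.1, hξ.2⟩
        _ = π * (x₂ + A) := by
            rw [intervalIntegral.integral_const, smul_eq_mul]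
            ring
    have e3 : ∫ ξ in x₁..(-A), F ξ ≤ π * (2 * (max (lb - x₁) 0 + 1)) := by
      calc ∫ ξ in x₁..(-A), F ξ ≤
            ∫ ξ in x₁..(-A), π * (2 * Real.exp (-(ξ - lb)) / (1 + Real.exp (-(ξ - lb)))) := by
            apply intervalIntegral.integral_mono_on hxA (hFI x₁ (-A) le_rfl hxA hA)
              ((continuous_const.mul hc).intervalIntegrable _ _)
            intro ξ hξ
            exact b2 ξ ⟨hξ.1, hξ.2.trans hA⟩ hξ.2
        _ ≤ π * (2 * (max (lb - x₁) 0 + 1)) := by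
            rw [intervalIntegral.integral_const_mul, outer_int]
            apply mul_le_mul_of_nonneg_left _ hπ.le
            have h4 : 0 ≤ Real.log (1 + Real.exp (-(-A - lb))) := by
              apply Real.log_nonneg
              have := Real.exp_pos (-(-A - lb))
              (clear * - this; linarith only [this])
            linarith only [hlog, h4]
    rw [e1]
    have : π * (2 * (max (lb - x₁) 0 + 1) + (x₂ + A)) =
      π * (2 * (max (lb - x₁) 0 + 1)) + π * (x₂ + A) := by ring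
    linarith only [e2, e3]
  · calc ∫ ξ in x₁..x₂, F ξ ≤ ∫ _ in x₁..x₂, π := by
          apply intervalIntegral.integral_mono_on hx (hFI x₁ x₂ le_rfl hx le_rfl) (by simp)
          intro ξ hξ
          exact b1 ξ hξ
      _ = π * (x₂ - x₁) := by
          rw [intervalIntegral.integral_const, smul_eq_mul]
          ring
      _ ≤ π * (2 * (max (lb - x₁) 0 + 1) + (x₂ + A)) := by
          apply mul_le_mul_of_nonneg_left _ hπ.le
          linarith only [hlog0, hxA]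

theorem tau_ge {x : ℝ} (h0 : 0 < x) (h1 : x ≤ 1) : x / 4 ≤ tau (Real.exp (-x)) := by
  have h2 : Real.exp (-x) ≤ 1 - x / 2 := by
    have h3 := Real.add_one_le_exp x
    have h4 : 0 < Real.exp x := Real.exp_pos x
    rw [Real.exp_neg, inv_le_comm₀ h4 (by (clear * - h1; linarith only [h1]))]
    rw [inv_le_iff_one_le_mul₀ (by (clear * - h1; linarith only [h1]))]
    (clear * - h3 h0 h1; nlinarith)
  have h3 : 0 < Real.exp (-x) := Real.exp_pos _
  unfold tau
  rw [le_div_iff₀ (by linarith only [h3])]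
  (clear * - h2 h0; nlinarith)

theorem tau_le {x : ℝ} (h0 : 0 < x) (h1 : x ≤ Real.exp (-2)) :
    tau (Real.exp (-x)) ≤ Real.exp (-2) := by
  have h3 : 0 < Real.exp (-x) := Real.exp_pos _
  have h4 := Real.add_one_le_exp (-x)
  unfold tau
  rw [div_le_iff₀ (by (clear * - h3; linarith))]
  (clear * - h1 h4 h0 h3; nlinarith only [h0, h1, h3, h4])

end Pool.Agent.Helper63.CK

end

section

namespace Pool.Agent.Helper52.EK
end Pool.Agent.Helper52.EK
namespace Pool.Agent.Helper56.EK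
end Pool.Agent.Helper56.EK

set_option autoImplicit false

open Complex Set Filter

open scoped Real Topology

namespace Pool.Agent.Helper73.CK

open Pool.Agent.Helper52.EK

open Pool.Agent.Helper56.EK (bounded_of_zero_outside deriv_zero_left deriv_zero_right)

/-- A smooth step with bounded derivative, zero on the left of `0` and one on the right of `1`. -/
theorem step : ∃ (f f₁ : ℝ → ℝ) (M : ℝ), (∀ t, HasDerivAt f (f₁ t) t) ∧ Continuous f₁ ∧
    (∀ t, 0 ≤ f t ∧ f t ≤ 1) ∧ (∀ t, t ≤ 0 → f t = 0) ∧ (∀ t, 1 ≤ t → f t = 1) ∧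
    (∀ t, t ≤ 0 → f₁ t = 0) ∧ (∀ t, 1 ≤ t → f₁ t = 0) ∧ (∀ t, |f₁ t| ≤ M) ∧ 0 ≤ M := by
  have hs : ContDiff ℝ 1 Real.smoothTransition := Real.smoothTransition.contDiff
  have hd0 : Differentiable ℝ Real.smoothTransition := hs.differentiable (by norm_num)
  have h1 : Continuous (deriv Real.smoothTransition) := hs.continuous_deriv (by norm_num)
  have z0 : ∀ t : ℝ, t < 0 → Real.smoothTransition t = 0 := fun t ht =>
    Real.smoothTransition.zero_of_nonpos ht.le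
  have z1 : ∀ t : ℝ, 1 < t → Real.smoothTransition t = 1 := fun t ht =>
    Real.smoothTransition.one_of_one_le ht.le
  have a0 := deriv_zero_left z0
  have a1 := deriv_zero_right z1
  obtain ⟨M, hM⟩ := bounded_of_zero_outside h1 a0 a1
  refine ⟨Real.smoothTransition, deriv Real.smoothTransition, M, fun t => (hd0 t).hasDerivAt, h1,
    fun t => ⟨Real.smoothTransition.nonneg t, Real.smoothTransition.le_one t⟩,
    fun t ht => Real.smoothTransition.zero_of_nonpos ht,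
    fun t ht => Real.smoothTransition.one_of_one_le ht, ?_, ?_, hM, (abs_nonneg _).trans (hM 0)⟩
  · intro t ht
    rcases ht.lt_or_eq with h | h
    · exact a0 t h
    · subst h
      have : IsLocalMin Real.smoothTransition 0 := by
        refine Filter.Eventually.of_forall fun t => ?_
        rw [Real.smoothTransition.zero]
        exact Real.smoothTransition.nonneg t
      exact this.deriv_eq_zero
  · intro t ht
    rcases ht.lt_or_eq with h | h
    · exact a1 t h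
    · subst h
      have : IsLocalMax Real.smoothTransition 1 := by
        refine Filter.Eventually.of_forall fun t => ?_
        rw [Real.smoothTransition.one_of_one_le le_rfl]
        exact Real.smoothTransition.le_one t
      exact this.deriv_eq_zero

/-- derivative of the logarithm of the norm along a curve -/
theorem hasDerivAt_log_norm {v : ℝ → ℂ} {v' : ℂ} {t : ℝ} (h : HasDerivAt v v' t) (h0 : v t ≠ 0) :
    HasDerivAt (fun t => Real.log ‖v t‖) ((v' / v t).re) t := by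
  have hre : HasDerivAt (fun t => (v t).re) v'.re t :=
    (Complex.reCLM.hasFDerivAt.comp_hasDerivAt t h)
  have him : HasDerivAt (fun t => (v t).im) v'.im t :=
    (Complex.imCLM.hasFDerivAt.comp_hasDerivAt t h)
  have hn : Complex.normSq (v t) ≠ 0 := by simpa [Complex.normSq_eq_zero] using h0
  have h1 : HasDerivAt (fun t => (v t).re * (v t).re + (v t).im * (v t).im)
      (v'.re * (v t).re + (v t).re * v'.re + (v'.im * (v t).im + (v t).im * v'.im)) t :=
    (hre.mul hre).add (him.mul him)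
  have h2 : HasDerivAt (fun t => Real.log ((v t).re * (v t).re + (v t).im * (v t).im))
      ((v'.re * (v t).re + (v t).re * v'.re + (v'.im * (v t).im + (v t).im * v'.im)) /
        ((v t).re * (v t).re + (v t).im * (v t).im)) t :=
    h1.log (by rw [Complex.normSq_apply] at hn; exact hn)
  have h3 := h2.const_mul (1 / 2 : ℝ)
  have e1 : (fun t => Real.log ‖v t‖) =
      fun t => (1 / 2 : ℝ) * Real.log ((v t).re * (v t).re + (v t).im * (v t).im) := by
    funext s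
    rw [← Complex.normSq_apply, Complex.normSq_eq_norm_sq, Real.log_pow]
    push_cast
    ring
  rw [e1]
  refine h3.congr_deriv ?_
  rw [Complex.div_re, Complex.normSq_apply]
  rw [Complex.normSq_apply] at hn
  field_simp
  ring

/-- `|Z + i|²` in the strip coordinate -/
noncomputable def dd (ξ η : ℝ) : ℝ := Real.exp ξ ^ 2 + 2 * Real.exp ξ * Real.sin η + 1

theorem exp_pt (ξ η : ℝ) : Complex.exp (pt ξ η) =
    (Real.exp ξ * Real.cos η : ℝ) + (Real.exp ξ * Real.sin η : ℝ) * I := by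
  unfold pt
  rw [Complex.exp_add_mul_I, ← Complex.ofReal_exp, ← Complex.ofReal_cos, ← Complex.ofReal_sin]
  push_cast
  ring

theorem normSq_add (ξ η : ℝ) : ‖I + Complex.exp (pt ξ η)‖ ^ 2 = dd ξ η := by
  rw [exp_pt, ← Complex.normSq_eq_norm_sq, Complex.normSq_apply]
  simp only [Complex.add_re, Complex.I_re, Complex.ofReal_re, Complex.mul_re, Complex.ofReal_im,
    Complex.add_im, Complex.I_im, Complex.mul_im, dd]
  (clear * -; nlinarith only [Real.sin_sq_add_cos_sq η])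

theorem normSq_sub (ξ η : ℝ) : ‖I - Complex.exp (pt ξ η)‖ ^ 2 =
    Real.exp ξ ^ 2 - 2 * Real.exp ξ * Real.sin η + 1 := by
  rw [exp_pt, ← Complex.normSq_eq_norm_sq, Complex.normSq_apply]
  simp only [Complex.sub_re, Complex.I_re, Complex.ofReal_re, Complex.mul_re, Complex.ofReal_im,
    Complex.sub_im, Complex.I_im, Complex.mul_im, Complex.add_re, Complex.add_im]
  (clear * -; nlinarith only [Real.sin_sq_add_cos_sq η])

theorem dd_ge {ξ η : ℝ} (h : 0 ≤ Real.sin η) : 1 ≤ dd ξ η := by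
  unfold dd
  have := Real.exp_pos ξ
  have h1 : 0 ≤ 2 * Real.exp ξ * Real.sin η := by (clear * - h; positivity)
  nlinarith only [h1]

theorem den_ne {ξ η : ℝ} (h : 0 ≤ Real.sin η) : I + Complex.exp (pt ξ η) ≠ 0 := by
  intro h0
  have h1 := normSq_add ξ η
  rw [h0] at h1
  have h2 := dd_ge (ξ := ξ) h
  simp at h1
  linarith

theorem one_sub_zf {ξ η : ℝ} (h : 0 ≤ Real.sin η) :
    1 - ‖zf (pt ξ η)‖ ^ 2 = 4 * Real.exp ξ * Real.sin η / dd ξ η := by
  have h1 := normSq_add ξ η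
  have h2 := normSq_sub ξ η
  have h3 := dd_ge (ξ := ξ) h
  unfold zf
  rw [norm_div, div_pow, h1, h2]
  have h4 : dd ξ η ≠ 0 := by linarith only [h3]
  field_simp
  unfold dd
  ring

theorem zf_sub_one {ξ η : ℝ} (h : 0 ≤ Real.sin η) :
    zf (pt ξ η) - 1 = -2 * Complex.exp (pt ξ η) / (I + Complex.exp (pt ξ η)) := by
  unfold zf
  have := den_ne (ξ := ξ) h
  field_simp
  ring

theorem norm_exp_pt (ξ η : ℝ) : ‖Complex.exp (pt ξ η)‖ = Real.exp ξ := by
  rw [Complex.norm_exp]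
  simp [pt]

theorem norm_den_ge {ξ η : ℝ} (h : 0 ≤ Real.sin η) : 1 ≤ ‖I + Complex.exp (pt ξ η)‖ := by
  have h1 := normSq_add ξ η
  have h2 := dd_ge (ξ := ξ) h
  have h3 := norm_nonneg (I + Complex.exp (pt ξ η))
  nlinarith only [h1, h2, h3]

theorem norm_zf_sub_one {ξ η : ℝ} (h : 0 ≤ Real.sin η) :
    ‖zf (pt ξ η) - 1‖ = 2 * Real.exp ξ / ‖I + Complex.exp (pt ξ η)‖ := by
  rw [zf_sub_one h, norm_div, norm_mul, norm_exp_pt]
  norm_num

theorem norm_zd_le {ξ η : ℝ} (h : 0 ≤ Real.sin η) :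
    ‖zd (pt ξ η)‖ ≤ ‖zf (pt ξ η) - 1‖ := by
  rw [norm_zf_sub_one h]
  unfold zd
  have h1 := norm_den_ge (ξ := ξ) h
  rw [norm_div, norm_mul, norm_exp_pt, norm_pow, add_comm (Complex.exp (pt ξ η)) I]
  have h2 : ‖(-2 * I : ℂ)‖ = 2 := by simp
  rw [h2]
  have h3 := Real.exp_pos ξ
  rw [div_le_div_iff₀ (by positivity) (by positivity)]
  (clear * - h3 h1; linarith only [mul_nonneg (mul_nonneg (by norm_num : (0:ℝ) ≤ 2) h3.le) (mul_nonneg (norm_nonneg (I + Complex.exp (pt ξ η))) (sub_nonneg.2 h1))])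

theorem hasDerivAt_zf {ξ η : ℝ} (h : 0 ≤ Real.sin η) : HasDerivAt zf (zd (pt ξ η)) (pt ξ η) := by
  have h0 := den_ne (ξ := ξ) h
  have h1 : HasDerivAt (fun ω : ℂ => I - Complex.exp ω) (-Complex.exp (pt ξ η)) (pt ξ η) :=
    (Complex.hasDerivAt_exp _).const_sub I
  have h2 : HasDerivAt (fun ω : ℂ => I + Complex.exp ω) (Complex.exp (pt ξ η)) (pt ξ η) :=
    (Complex.hasDerivAt_exp _).const_add I
  have h3 := h1.div h2 h0
  have h4 : zd (pt ξ η) = (-Complex.exp (pt ξ η) * (I + Complex.exp (pt ξ η)) -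
      (I - Complex.exp (pt ξ η)) * Complex.exp (pt ξ η)) / (I + Complex.exp (pt ξ η)) ^ 2 := by
    unfold zd
    rw [add_comm (Complex.exp (pt ξ η)) I]
    congr 1
    ring
  rw [h4]
  exact h3

theorem hasDerivAt_pt_xi (ξ η : ℝ) : HasDerivAt (fun ξ : ℝ => pt ξ η) 1 ξ := by
  unfold pt
  exact (Complex.ofRealCLM.hasDerivAt (x := ξ)).add_const _

theorem hasDerivAt_pt_eta (ξ η : ℝ) : HasDerivAt (fun η : ℝ => pt ξ η) I η := by
  unfold pt
  have h := ((Complex.ofRealCLM.hasDerivAt (x := η)).mul_const I).const_add (ξ : ℂ)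
  simpa using h

end Pool.Agent.Helper73.CK

end

section

namespace Pool.Agent.Helper52.EK
end Pool.Agent.Helper52.EK

set_option autoImplicit false

open Complex Set Filter

open scoped Real Topology

namespace Pool.Agent.Helper73.CK

open Pool.Agent.Helper52.EK

/-- first argument -/
noncomputable def ar1 (w n : ℝ) (y : ℝ) : ℝ :=
  (Real.log (max y (Real.exp (-n))) + n - Real.log 8) / w

/-- second argument -/
noncomputable def ar2 (k : ℝ) (r : ℝ) : ℝ := (-k - Real.log r) / k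

noncomputable def W0 (f : ℝ → ℝ) (k w n : ℝ) (z : ℂ) : ℝ :=
  f (ar1 w n (1 - ‖z‖ ^ 2)) * f (ar2 k ‖z - 1‖)

theorem ar1_cont (w n : ℝ) : Continuous (ar1 w n) := by
  unfold ar1
  have h : Continuous fun y : ℝ => Real.log (max y (Real.exp (-n))) := by
    rw [continuous_iff_continuousAt]
    intro y
    apply ContinuousAt.log
    · exact (continuous_id.max continuous_const).continuousAt
    · exact ne_of_gt (lt_of_lt_of_le (Real.exp_pos _) (le_max_right _ _))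
  exact ((h.add continuous_const).sub continuous_const).div_const w

theorem ar1_nonpos {w n y : ℝ} (hw : 0 < w) (hy : y ≤ 8 * Real.exp (-n)) : ar1 w n y ≤ 0 := by
  unfold ar1
  apply div_nonpos_of_nonpos_of_nonneg _ hw.le
  have h1 : max y (Real.exp (-n)) ≤ 8 * Real.exp (-n) :=
    max_le hy (by (clear * -; linarith only [Real.exp_pos (-n)]))
  have h2 : Real.log (max y (Real.exp (-n))) ≤ Real.log (8 * Real.exp (-n)) :=
    Real.log_le_log (lt_of_lt_of_le (Real.exp_pos _) (le_max_right _ _)) h1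
  rw [Real.log_mul (by norm_num) (Real.exp_pos _).ne', Real.log_exp] at h2
  (clear * - h2; linarith)

theorem ar1_ge_one {w n y : ℝ} (hw : 0 < w) (hy : 8 * Real.exp (-(n - w)) ≤ y) :
    1 ≤ ar1 w n y := by
  unfold ar1
  rw [le_div_iff₀ hw]
  have h1 : 8 * Real.exp (-(n - w)) ≤ max y (Real.exp (-n)) := hy.trans (le_max_left _ _)
  have h2 : Real.log (8 * Real.exp (-(n - w))) ≤ Real.log (max y (Real.exp (-n))) :=
    Real.log_le_log (by positivity) h1
  rw [Real.log_mul (by norm_num) (Real.exp_pos _).ne', Real.log_exp] at h2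
  linarith only [h2]

theorem ar2_nonpos {k r : ℝ} (hk : 0 < k) (hr : Real.exp (-k) ≤ r) : ar2 k r ≤ 0 := by
  unfold ar2
  apply div_nonpos_of_nonpos_of_nonneg _ hk.le
  have h2 := Real.log_le_log (Real.exp_pos _) hr
  rw [Real.log_exp] at h2
  linarith

theorem ar2_ge_one {k r : ℝ} (hk : 0 < k) (hr0 : 0 < r) (hr : r ≤ Real.exp (-(2 * k))) :
    1 ≤ ar2 k r := by
  unfold ar2
  rw [le_div_iff₀ hk]
  have h2 := Real.log_le_log hr0 hr
  rw [Real.log_exp] at h2
  linarith only [h2]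

variable {f f₁ : ℝ → ℝ} {M : ℝ}

/-- the properties of the step -/
structure Stp (f f₁ : ℝ → ℝ) (M : ℝ) : Prop where
  d : ∀ t, HasDerivAt f (f₁ t) t
  c : Continuous f₁
  b : ∀ t, 0 ≤ f t ∧ f t ≤ 1
  z : ∀ t, t ≤ 0 → f t = 0
  o : ∀ t, 1 ≤ t → f t = 1
  z1 : ∀ t, t ≤ 0 → f₁ t = 0
  o1 : ∀ t, 1 ≤ t → f₁ t = 0
  m : ∀ t, |f₁ t| ≤ M
  m0 : 0 ≤ M

theorem exists_stp : ∃ (f f₁ : ℝ → ℝ) (M : ℝ), Stp f f₁ M := by
  obtain ⟨f, f₁, M, a1, a2, a3, a4, a5, a6, a7, a8, a9⟩ := step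
  exact ⟨f, f₁, M, ⟨a1, a2, a3, a4, a5, a6, a7, a8, a9⟩⟩

theorem Stp.cf (h : Stp f f₁ M) : Continuous f :=
  continuous_iff_continuousAt.2 fun t => (h.d t).continuousAt

theorem W0_bd (h : Stp f f₁ M) (k w n : ℝ) (z : ℂ) : 0 ≤ W0 f k w n z ∧ W0 f k w n z ≤ 1 := by
  have h1 := h.b (ar1 w n (1 - ‖z‖ ^ 2))
  have h2 := h.b (ar2 k ‖z - 1‖)
  exact ⟨mul_nonneg h1.1 h2.1, mul_le_one₀ h1.2 h2.1 h2.2⟩

theorem W0_zero1 (h : Stp f f₁ M) {k w n : ℝ} (hw : 0 < w) {z : ℂ}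
    (hz : 1 - ‖z‖ ^ 2 ≤ 8 * Real.exp (-n)) : W0 f k w n z = 0 := by
  unfold W0
  rw [h.z _ (ar1_nonpos hw hz), zero_mul]

theorem W0_zero2 (h : Stp f f₁ M) {k w n : ℝ} (hk : 0 < k) {z : ℂ}
    (hz : Real.exp (-k) ≤ ‖z - 1‖) : W0 f k w n z = 0 := by
  unfold W0
  rw [h.z _ (ar2_nonpos hk hz), mul_zero]

theorem W0_one (h : Stp f f₁ M) {k w n : ℝ} (hk : 0 < k) (hw : 0 < w) {z : ℂ}
    (h1 : 8 * Real.exp (-(n - w)) ≤ 1 - ‖z‖ ^ 2) (h2 : ‖z - 1‖ ≤ Real.exp (-(2 * k))) :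
    W0 f k w n z = 1 := by
  have h3 : 0 < ‖z - 1‖ := by
    rw [norm_pos_iff]
    intro h0
    rw [sub_eq_zero] at h0
    subst h0
    have h5 := Real.exp_pos (-(n - w))
    rw [norm_one, one_pow, sub_self] at h1
    (clear * - h1 h5; linarith only [h1, h5])
  unfold W0
  rw [h.o _ (ar1_ge_one hw h1), h.o _ (ar2_ge_one hk h3 h2), mul_one]

theorem W0_cont (h : Stp f f₁ M) (k : ℝ) {w : ℝ} (n : ℝ) (hw : 0 < w) :
    Continuous (W0 f k w n) := by
  rw [continuous_iff_continuousAt]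
  intro z
  have c1 : Continuous fun z : ℂ => f (ar1 w n (1 - ‖z‖ ^ 2)) :=
    h.cf.comp ((ar1_cont w n).comp (by fun_prop))
  by_cases hz : z = 1
  · have h1 : ∀ᶠ z' : ℂ in 𝓝 z, 1 - ‖z'‖ ^ 2 < 8 * Real.exp (-n) := by
      have h2 : ContinuousAt (fun z' : ℂ => 1 - ‖z'‖ ^ 2) z := by fun_prop
      apply h2.eventually_lt_const
      rw [hz]
      simp only [norm_one, one_pow, sub_self]
      positivity
    have h3 : W0 f k w n =ᶠ[𝓝 z] fun _ => 0 := by
      filter_upwards [h1] with z' hz'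
      exact W0_zero1 h hw hz'.le
    exact (continuousAt_const).congr h3.symm
  · have c2 : ContinuousAt (fun z : ℂ => f (ar2 k ‖z - 1‖)) z := by
      apply h.cf.continuousAt.comp
      unfold ar2
      apply ContinuousAt.div_const
      apply ContinuousAt.sub continuousAt_const
      apply ContinuousAt.log
      · fun_prop
      · exact norm_ne_zero_iff.2 (sub_ne_zero.2 hz)
    exact c1.continuousAt.mul c2

noncomputable def yy (ξ η : ℝ) : ℝ := 1 - ‖zf (pt ξ η)‖ ^ 2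

noncomputable def D1 (ξ η : ℝ) : ℝ :=
  1 - 2 * (Real.exp ξ ^ 2 + Real.exp ξ * Real.sin η) / dd ξ η

noncomputable def D2 (ξ η : ℝ) : ℝ :=
  Real.cos η / Real.sin η - 2 * Real.exp ξ * Real.cos η / dd ξ η

theorem abs_D1 {ξ η : ℝ} (h : 0 ≤ Real.sin η) : |D1 ξ η| ≤ 1 := by
  have h1 := dd_ge (ξ := ξ) h
  have h2 := Real.exp_pos ξ
  have h3 : 0 ≤ Real.exp ξ * Real.sin η := by (clear * - h; positivity)
  unfold D1
  have h4 : 0 ≤ 2 * (Real.exp ξ ^ 2 + Real.exp ξ * Real.sin η) / dd ξ η := by (clear * - h h1; positivity)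
  have h5 : 2 * (Real.exp ξ ^ 2 + Real.exp ξ * Real.sin η) / dd ξ η ≤ 2 := by
    rw [div_le_iff₀ (by linarith only [h1])]
    unfold dd
    (clear * - h3; linarith only [h3])
  rw [abs_le]
  constructor <;> linarith only [h5, h4]

theorem abs_D2 {ξ η : ℝ} (h : 0 ≤ Real.sin η) : |D2 ξ η| * Real.sin η ≤ 1 := by
  have h1 := dd_ge (ξ := ξ) h
  have h2 := Real.exp_pos ξ
  rcases h.eq_or_lt with h0 | h0
  · rw [← h0]; simp
  · have h3 : 0 ≤ Real.exp ξ * Real.sin η := by positivity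
    have e : |D2 ξ η| * Real.sin η =
        |Real.cos η| * |1 - 2 * Real.exp ξ * Real.sin η / dd ξ η| := by
      rw [← abs_of_pos h0, ← abs_mul, ← abs_mul, abs_of_pos h0]
      congr 1
      unfold D2
      field_simp
    rw [e]
    have h4 : 0 ≤ 2 * Real.exp ξ * Real.sin η / dd ξ η := by (clear * - h0 h1; positivity)
    have h5 : 2 * Real.exp ξ * Real.sin η / dd ξ η ≤ 1 := by
      rw [div_le_iff₀ (by linarith only [h1])]
      unfold dd
      (clear * -; nlinarith only [])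
    have h6 : |1 - 2 * Real.exp ξ * Real.sin η / dd ξ η| ≤ 1 := by
      rw [abs_le]; constructor <;> linarith only [h5, h4]
    have h7 := Real.abs_cos_le_one η
    exact mul_le_one₀ h7 (abs_nonneg _) h6

theorem sin_pos_of_yy {ξ η : ℝ} (h : 0 ≤ Real.sin η) (hy : 0 < yy ξ η) : 0 < Real.sin η := by
  rcases h.eq_or_lt with h0 | h0
  · unfold yy at hy
    rw [one_sub_zf h, ← h0] at hy
    simp at hy
  · exact h0

theorem log_yy {ξ η : ℝ} (h : 0 < Real.sin η) :
    Real.log (yy ξ η) = Real.log 4 + ξ + Real.log (Real.sin η) - Real.log (dd ξ η) := by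
  have h1 := dd_ge (ξ := ξ) h.le
  have h2 := Real.exp_pos ξ
  unfold yy
  rw [one_sub_zf h.le, Real.log_div (by (clear * - h; positivity)) (by (clear * - h1; linarith only [h1])), Real.log_mul (by positivity)
    h.ne', Real.log_mul (by norm_num) h2.ne', Real.log_exp]

theorem hasDerivAt_dd_xi (ξ η : ℝ) : HasDerivAt (fun ξ => dd ξ η)
    (2 * (Real.exp ξ ^ 2 + Real.exp ξ * Real.sin η)) ξ := by
  unfold dd
  have h1 := (((Real.hasDerivAt_exp ξ).pow 2).add
    (((Real.hasDerivAt_exp ξ).const_mul 2).mul_const (Real.sin η))).add_const 1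
  refine h1.congr_deriv ?_
  push_cast
  ring

theorem hasDerivAt_dd_eta (ξ η : ℝ) : HasDerivAt (fun η => dd ξ η)
    (2 * Real.exp ξ * Real.cos η) η := by
  unfold dd
  have h1 := ((((Real.hasDerivAt_sin η).const_mul (2 * Real.exp ξ)).const_add
    (Real.exp ξ ^ 2))).add_const 1
  exact h1

theorem hasDerivAt_logyy_xi {ξ η : ℝ} (h : 0 < Real.sin η) :
    HasDerivAt (fun ξ => Real.log (yy ξ η)) (D1 ξ η) ξ := by
  have h1 := dd_ge (ξ := ξ) h.le
  have e : (fun ξ => Real.log (yy ξ η)) =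
      fun ξ => Real.log 4 + ξ + Real.log (Real.sin η) - Real.log (dd ξ η) := by
    funext t
    exact log_yy h
  rw [e]
  have h2 := (((hasDerivAt_id ξ).const_add (Real.log 4)).add_const (Real.log (Real.sin η))).sub
    ((hasDerivAt_dd_xi ξ η).log (by (clear * - h1; linarith)))
  exact h2

theorem hasDerivAt_logyy_eta {ξ η : ℝ} (h : 0 < Real.sin η) :
    HasDerivAt (fun η => Real.log (yy ξ η)) (D2 ξ η) η := by
  have h1 := dd_ge (ξ := ξ) h.le
  have e : (fun η => Real.log (yy ξ η)) =ᶠ[𝓝 η]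
      fun η => Real.log 4 + ξ + Real.log (Real.sin η) - Real.log (dd ξ η) := by
    have h3 : ∀ᶠ t in 𝓝 η, 0 < Real.sin t :=
      Real.continuous_sin.continuousAt.eventually_const_lt h
    filter_upwards [h3] with t ht
    exact log_yy ht
  have h2 := (((Real.hasDerivAt_sin η).log h.ne').const_add (Real.log 4 + ξ)).sub
    ((hasDerivAt_dd_eta ξ η).log (by linarith only [h1]))
  exact h2.congr_of_eventuallyEq e

/-- continuity of `zf ∘ pt` at the points of the closed strip -/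
theorem contAt_zf {ξ η : ℝ} (h : 0 ≤ Real.sin η) :
    ContinuousAt (fun p : ℝ × ℝ => zf (pt p.1 p.2)) (ξ, η) := by
  have h1 : ContinuousAt (fun p : ℝ × ℝ => pt p.1 p.2) (ξ, η) := by
    unfold pt
    fun_prop
  exact ContinuousAt.comp (f := fun p : ℝ × ℝ => pt p.1 p.2) (g := zf)
    (hasDerivAt_zf h).continuousAt h1

theorem contAt_yy {ξ η : ℝ} (h : 0 ≤ Real.sin η) :
    ContinuousAt (fun p : ℝ × ℝ => yy p.1 p.2) (ξ, η) := by
  unfold yy
  exact continuousAt_const.sub ((contAt_zf h).norm.pow 2)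

theorem yy_le {ξ η : ℝ} (h : 0 ≤ Real.sin η) : yy ξ η ≤ 4 * Real.exp ξ := by
  have h1 := dd_ge (ξ := ξ) h
  have h2 := Real.exp_pos ξ
  unfold yy
  rw [one_sub_zf h, div_le_iff₀ (by (clear * - h1; linarith))]
  have h3 := Real.sin_le_one η
  (clear * - h1 h2 h3; nlinarith only [h1, h2, h3])

theorem yy_ge {ξ η : ℝ} (h : 0 ≤ Real.sin η) (hξ : ξ ≤ -1) :
    2 * Real.exp ξ * Real.sin η ≤ yy ξ η := by
  have h1 := dd_ge (ξ := ξ) h
  have h2 := Real.exp_pos ξ
  have h3 := Real.sin_le_one η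
  have h4 : Real.exp ξ ≤ 0.4 := by
    have := Real.exp_le_exp.2 hξ
    have h9 : Real.exp (-1) < 0.3678794412 := Real.exp_neg_one_lt_d9
    (clear * - this h9; linarith only [this, h9])
  have h5 : dd ξ η ≤ 2 := by
    unfold dd
    (clear * - h2 h4 h3; nlinarith only [h2, h3, h4])
  unfold yy
  rw [one_sub_zf h, le_div_iff₀ (by linarith only [h1])]
  have h6 : 0 ≤ Real.exp ξ * Real.sin η := by positivity
  (clear * - h5 h6; nlinarith only [h5, h6])

theorem zf_lt_one {ξ η : ℝ} (hy : 0 < yy ξ η) : ‖zf (pt ξ η)‖ < 1 := by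
  unfold yy at hy
  have := norm_nonneg (zf (pt ξ η))
  (clear * - hy; nlinarith only [hy])

end Pool.Agent.Helper73.CK

end

section

namespace Pool.Agent.Helper52.EK
end Pool.Agent.Helper52.EK

set_option autoImplicit false

open Complex Set Filter

open scoped Real Topology

namespace Pool.Agent.Helper73.CK

open Pool.Agent.Helper52.EK

variable {f f₁ : ℝ → ℝ} {M : ℝ}

/-- the second distance -/
noncomputable def vv (ζ : ℂ) (ξ η : ℝ) : ℂ := ζ * zf (pt ξ η) - 1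

noncomputable def E1 (ζ : ℂ) (ξ η : ℝ) : ℝ := (ζ * zd (pt ξ η) / vv ζ ξ η).re

noncomputable def E2 (ζ : ℂ) (ξ η : ℝ) : ℝ := (ζ * (zd (pt ξ η) * I) / vv ζ ξ η).re

/-- the weight -/
noncomputable def Om (f : ℝ → ℝ) (k w n : ℝ) (ζ : ℂ) (ξ η : ℝ) : ℝ :=
  f (ar1 w n (yy ξ η)) * f (ar2 k ‖vv ζ ξ η‖)

noncomputable def Om1 (f f₁ : ℝ → ℝ) (k w n : ℝ) (ζ : ℂ) (ξ η : ℝ) : ℝ :=
  f₁ (ar1 w n (yy ξ η)) * (D1 ξ η / w) * f (ar2 k ‖vv ζ ξ η‖) +
    f (ar1 w n (yy ξ η)) * (f₁ (ar2 k ‖vv ζ ξ η‖) * (-E1 ζ ξ η / k))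

noncomputable def Om2 (f f₁ : ℝ → ℝ) (k w n : ℝ) (ζ : ℂ) (ξ η : ℝ) : ℝ :=
  f₁ (ar1 w n (yy ξ η)) * (D2 ξ η / w) * f (ar2 k ‖vv ζ ξ η‖) +
    f (ar1 w n (yy ξ η)) * (f₁ (ar2 k ‖vv ζ ξ η‖) * (-E2 ζ ξ η / k))

theorem Om_eq (f : ℝ → ℝ) (k w n : ℝ) {ζ : ℂ} (hζ : ‖ζ‖ = 1) (ξ η : ℝ) :
    W0 f k w n (ζ * zf (pt ξ η)) = Om f k w n ζ ξ η := by
  unfold W0 Om yy vv
  rw [norm_mul, hζ, one_mul]

theorem sin_nn {η : ℝ} (hη : η ∈ Icc (0:ℝ) π) : 0 ≤ Real.sin η :=
  Real.sin_nonneg_of_nonneg_of_le_pi hη.1 hη.2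

theorem Om_zero (h : Stp f f₁ M) {k w n : ℝ} (hw : 0 < w) (ζ : ℂ) {ξ η : ℝ}
    (hy : yy ξ η ≤ 8 * Real.exp (-n)) : Om f k w n ζ ξ η = 0 := by
  unfold Om
  rw [h.z _ (ar1_nonpos hw hy), zero_mul]

theorem Om1_zero (h : Stp f f₁ M) {k w n : ℝ} (hw : 0 < w) (ζ : ℂ) {ξ η : ℝ}
    (hy : yy ξ η ≤ 8 * Real.exp (-n)) : Om1 f f₁ k w n ζ ξ η = 0 := by
  unfold Om1
  rw [h.z _ (ar1_nonpos hw hy), h.z1 _ (ar1_nonpos hw hy)]
  ring

theorem Om2_zero (h : Stp f f₁ M) {k w n : ℝ} (hw : 0 < w) (ζ : ℂ) {ξ η : ℝ}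
    (hy : yy ξ η ≤ 8 * Real.exp (-n)) : Om2 f f₁ k w n ζ ξ η = 0 := by
  unfold Om2
  rw [h.z _ (ar1_nonpos hw hy), h.z1 _ (ar1_nonpos hw hy)]
  ring

theorem vv_ne {ζ : ℂ} (hζ : ‖ζ‖ = 1) {ξ η : ℝ} (hy : 0 < yy ξ η) : vv ζ ξ η ≠ 0 := by
  intro h0
  unfold vv at h0
  rw [sub_eq_zero] at h0
  have h1 : ‖ζ * zf (pt ξ η)‖ = 1 := by rw [h0, norm_one]
  rw [norm_mul, hζ, one_mul] at h1
  have := zf_lt_one hy
  (clear * - h1 this; linarith)

/-- continuity of `yy` along the two directions -/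
theorem contAt_yy1 {ξ η : ℝ} (h : 0 ≤ Real.sin η) : ContinuousAt (fun t => yy t η) ξ :=
  ContinuousAt.comp (f := fun t : ℝ => (t, η)) (g := fun p : ℝ × ℝ => yy p.1 p.2)
    (contAt_yy h) (by fun_prop)

theorem contAt_yy2 {ξ η : ℝ} (h : 0 ≤ Real.sin η) : ContinuousAt (fun t => yy ξ t) η :=
  ContinuousAt.comp (f := fun t : ℝ => (ξ, t)) (g := fun p : ℝ × ℝ => yy p.1 p.2)
    (contAt_yy h) (by fun_prop)

theorem ar1_eq {w n y : ℝ} (hy : Real.exp (-n) ≤ y) :
    ar1 w n y = (Real.log y + n - Real.log 8) / w := by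
  unfold ar1
  rw [max_eq_left hy]

/-- derivative of the first factor -/
theorem der1 (h : Stp f f₁ M) {w n : ℝ} {g : ℝ → ℝ} {t g' : ℝ}
    (hy : 8 * Real.exp (-n) ≤ g t) (hg : ContinuousAt g t)
    (hd : HasDerivAt (fun s => Real.log (g s)) g' t) :
    HasDerivAt (fun s => f (ar1 w n (g s))) (f₁ (ar1 w n (g t)) * (g' / w)) t := by
  have h0 : Real.exp (-n) < g t := by (clear * - hy; linarith only [Real.exp_pos (-n), hy])
  have h1 : ∀ᶠ s in 𝓝 t, Real.exp (-n) < g s := hg.eventually_const_lt h0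
  have h2 : HasDerivAt (fun s => (Real.log (g s) + n - Real.log 8) / w) (g' / w) t :=
    ((hd.add_const n).sub_const (Real.log 8)).div_const w
  have h3 : (fun s => ar1 w n (g s)) =ᶠ[𝓝 t] fun s => (Real.log (g s) + n - Real.log 8) / w := by
    filter_upwards [h1] with s hs
    exact ar1_eq hs.le
  have h4 := h2.congr_of_eventuallyEq h3
  exact (h.d _).comp t h4

/-- derivative of the second factor -/
theorem der2 (h : Stp f f₁ M) {k : ℝ} {v : ℝ → ℂ} {v' : ℂ} {t : ℝ} (hv : HasDerivAt v v' t)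
    (h0 : v t ≠ 0) :
    HasDerivAt (fun s => f (ar2 k ‖v s‖)) (f₁ (ar2 k ‖v t‖) * (-(v' / v t).re / k)) t := by
  have h1 : HasDerivAt (fun s => ar2 k ‖v s‖) (-(v' / v t).re / k) t := by
    unfold ar2
    exact ((hasDerivAt_log_norm hv h0).const_sub (-k)).div_const k
  exact (h.d _).comp t h1

theorem hasDerivAt_vv_xi {ζ : ℂ} {ξ η : ℝ} (h : 0 ≤ Real.sin η) :
    HasDerivAt (fun t => vv ζ t η) (ζ * zd (pt ξ η)) ξ := by
  unfold vv
  have h0 := hasDerivAt_zf (ξ := ξ) h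
  have h1 : HasDerivAt (fun t : ℝ => zf (pt t η)) (zd (pt ξ η) * 1) ξ :=
    HasDerivAt.comp (h₂ := zf) (h := fun t : ℝ => pt t η) ξ h0 (hasDerivAt_pt_xi ξ η)
  rw [mul_one] at h1
  exact (h1.const_mul ζ).sub_const 1

theorem hasDerivAt_vv_eta {ζ : ℂ} {ξ η : ℝ} (h : 0 ≤ Real.sin η) :
    HasDerivAt (fun t => vv ζ ξ t) (ζ * (zd (pt ξ η) * I)) η := by
  unfold vv
  have h0 := hasDerivAt_zf (ξ := ξ) h
  have h1 : HasDerivAt (fun t : ℝ => zf (pt ξ t)) (zd (pt ξ η) * I) η :=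
    HasDerivAt.comp (h₂ := zf) (h := fun t : ℝ => pt ξ t) η h0 (hasDerivAt_pt_eta ξ η)
  exact (h1.const_mul ζ).sub_const 1

theorem Om_d1 (h : Stp f f₁ M) {k w n : ℝ} (hw : 0 < w) {ζ : ℂ} (hζ : ‖ζ‖ = 1) {ξ η : ℝ}
    (hs : 0 ≤ Real.sin η) :
    HasDerivAt (fun t => Om f k w n ζ t η) (Om1 f f₁ k w n ζ ξ η) ξ := by
  have hn := Real.exp_pos (-n)
  rcases lt_or_ge (yy ξ η) (8 * Real.exp (-n)) with hy | hy
  · rw [Om1_zero h hw ζ hy.le]
    have h1 : ∀ᶠ t in 𝓝 ξ, yy t η < 8 * Real.exp (-n) :=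
      (contAt_yy1 hs).eventually_lt_const hy
    have h2 : (fun t => Om f k w n ζ t η) =ᶠ[𝓝 ξ] fun _ => 0 := by
      filter_upwards [h1] with t ht
      exact Om_zero h hw ζ ht.le
    exact (hasDerivAt_const ξ (0:ℝ)).congr_of_eventuallyEq h2
  · have hy0 : 0 < yy ξ η := by (clear * - hn hy; linarith)
    have hsp := sin_pos_of_yy hs hy0
    have a := der1 (w := w) (g := fun t => yy t η) h hy (contAt_yy1 hs) (hasDerivAt_logyy_xi hsp)
    have b := der2 (k := k) h (hasDerivAt_vv_xi (ζ := ζ) (ξ := ξ) hs) (vv_ne hζ hy0)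
    exact a.mul b

theorem Om_d2 (h : Stp f f₁ M) {k w n : ℝ} (hw : 0 < w) {ζ : ℂ} (hζ : ‖ζ‖ = 1) {ξ η : ℝ}
    (hs : 0 ≤ Real.sin η) :
    HasDerivAt (fun t => Om f k w n ζ ξ t) (Om2 f f₁ k w n ζ ξ η) η := by
  have hn := Real.exp_pos (-n)
  rcases lt_or_ge (yy ξ η) (8 * Real.exp (-n)) with hy | hy
  · rw [Om2_zero h hw ζ hy.le]
    have h1 : ∀ᶠ t in 𝓝 η, yy ξ t < 8 * Real.exp (-n) :=
      (contAt_yy2 hs).eventually_lt_const hy
    have h2 : (fun t => Om f k w n ζ ξ t) =ᶠ[𝓝 η] fun _ => 0 := by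
      filter_upwards [h1] with t ht
      exact Om_zero h hw ζ ht.le
    exact (hasDerivAt_const η (0:ℝ)).congr_of_eventuallyEq h2
  · have hy0 : 0 < yy ξ η := by linarith only [hn, hy]
    have hsp := sin_pos_of_yy hs hy0
    have a := der1 (w := w) (g := fun t => yy ξ t) h hy (contAt_yy2 hs) (hasDerivAt_logyy_eta hsp)
    have b := der2 (k := k) h (hasDerivAt_vv_eta (ζ := ζ) (ξ := ξ) hs) (vv_ne hζ hy0)
    exact a.mul b

theorem E_bd {ζ : ℂ} (hζ : ‖ζ‖ = 1) {s k : ℝ} (hs1 : ‖ζ - 1‖ ≤ s) (hsk : s ≤ Real.exp (-(2 * k)))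
    {ξ η : ℝ} (hs : 0 ≤ Real.sin η) (hv : Real.exp (-(2 * k)) ≤ ‖vv ζ ξ η‖) (u : ℂ)
    (hu : ‖u‖ = 1) : |(ζ * (zd (pt ξ η) * u) / vv ζ ξ η).re| ≤ 2 := by
  have h0 : 0 < ‖vv ζ ξ η‖ := lt_of_lt_of_le (Real.exp_pos _) hv
  refine (Complex.abs_re_le_norm _).trans ?_
  rw [norm_div, norm_mul, norm_mul, hζ, hu, one_mul, mul_one, div_le_iff₀ h0]
  have h1 := norm_zd_le (ξ := ξ) hs
  have h2 : zf (pt ξ η) - 1 = ζ⁻¹ * (vv ζ ξ η - (ζ - 1)) := by
    have hz : ζ ≠ 0 := by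
      intro h3
      rw [h3] at hζ
      simp at hζ
    unfold vv
    field_simp
    ring
  have h3 : ‖zf (pt ξ η) - 1‖ ≤ ‖vv ζ ξ η‖ + s := by
    rw [h2, norm_mul, norm_inv, hζ, inv_one, one_mul]
    exact (norm_sub_le _ _).trans (by linarith only [hs1])
  linarith only [hsk, hv, h1, h3]

theorem E1_bd {ζ : ℂ} (hζ : ‖ζ‖ = 1) {s k : ℝ} (hs1 : ‖ζ - 1‖ ≤ s)
    (hsk : s ≤ Real.exp (-(2 * k))) {ξ η : ℝ} (hs : 0 ≤ Real.sin η)
    (hv : Real.exp (-(2 * k)) ≤ ‖vv ζ ξ η‖) : |E1 ζ ξ η| ≤ 2 := by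
  have := E_bd hζ hs1 hsk hs hv 1 (by simp)
  rwa [mul_one] at this

theorem E2_bd {ζ : ℂ} (hζ : ‖ζ‖ = 1) {s k : ℝ} (hs1 : ‖ζ - 1‖ ≤ s)
    (hsk : s ≤ Real.exp (-(2 * k))) {ξ η : ℝ} (hs : 0 ≤ Real.sin η)
    (hv : Real.exp (-(2 * k)) ≤ ‖vv ζ ξ η‖) : |E2 ζ ξ η| ≤ 2 :=
  E_bd hζ hs1 hsk hs hv I (by simp)

theorem abs_f (h : Stp f f₁ M) (t : ℝ) : |f t| ≤ 1 := by
  rw [abs_of_nonneg (h.b t).1]
  exact (h.b t).2

theorem second_bd (h : Stp f f₁ M) {k : ℝ} (hk : 0 < k) {r e : ℝ} (hr0 : 0 ≤ r)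
    (he : Real.exp (-(2 * k)) ≤ r → |e| ≤ 2) : |f₁ (ar2 k r) * (-e / k)| ≤ 2 * M / k := by
  rcases le_or_gt (Real.exp (-(2 * k))) r with hr | hr
  · rw [abs_mul, abs_div, abs_neg, abs_of_pos hk]
    have h1 := h.m (ar2 k r)
    have h2 := he hr
    rw [mul_div_assoc', div_le_div_iff_of_pos_right hk]
    nlinarith only [abs_nonneg (f₁ (ar2 k r)), h1, h2]
  · rcases hr0.eq_or_lt with h0 | h0
    · rw [← h0]
      have h3 : ar2 k 0 ≤ 0 := by
        unfold ar2
        rw [Real.log_zero]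
        apply div_nonpos_of_nonpos_of_nonneg _ hk.le
        (clear * - hk; linarith)
      rw [h.z1 _ h3, zero_mul, abs_zero]
      exact div_nonneg (by linarith [h.m0]) hk.le
    · rw [h.o1 _ (ar2_ge_one hk h0 hr.le), zero_mul, abs_zero]
      exact div_nonneg (by (clear * - h; linarith [h.m0])) hk.le

theorem Om1_bd (h : Stp f f₁ M) {k w n : ℝ} (hk : 0 < k) (hw : 0 < w) {ζ : ℂ} (hζ : ‖ζ‖ = 1)
    {s : ℝ} (hs1 : ‖ζ - 1‖ ≤ s) (hsk : s ≤ Real.exp (-(2 * k))) {ξ η : ℝ}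
    (hs : 0 ≤ Real.sin η) : |Om1 f f₁ k w n ζ ξ η| * Real.sin η ≤ M / w + 2 * M / k := by
  have b1 := second_bd h hk (norm_nonneg (vv ζ ξ η)) (E1_bd hζ hs1 hsk hs)
  have b2 := abs_D1 (ξ := ξ) hs
  have b3 := h.m (ar1 w n (yy ξ η))
  have b4 := abs_f h (ar2 k ‖vv ζ ξ η‖)
  have b5 := abs_f h (ar1 w n (yy ξ η))
  have b6 := Real.sin_le_one η
  have c1 : |f₁ (ar1 w n (yy ξ η)) * (D1 ξ η / w) * f (ar2 k ‖vv ζ ξ η‖)| ≤ M / w := by
    rw [abs_mul, abs_mul, abs_div, abs_of_pos hw]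
    have d1 : |f₁ (ar1 w n (yy ξ η))| * (|D1 ξ η| / w) ≤ M * (1 / w) := by
      apply mul_le_mul b3 _ (by (clear * - hw; positivity)) h.m0
      exact div_le_div_of_nonneg_right b2 hw.le
    have d2 : 0 ≤ M * (1 / w) := mul_nonneg h.m0 (by positivity)
    calc |f₁ (ar1 w n (yy ξ η))| * (|D1 ξ η| / w) * |f (ar2 k ‖vv ζ ξ η‖)|
        ≤ M * (1 / w) * 1 := mul_le_mul d1 b4 (abs_nonneg _) d2
      _ = M / w := by ring
  have c2 : |f (ar1 w n (yy ξ η)) * (f₁ (ar2 k ‖vv ζ ξ η‖) * (-E1 ζ ξ η / k))| ≤ 2 * M / k := by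
    rw [abs_mul]
    have d2 : 0 ≤ 2 * M / k := div_nonneg (by (clear * - h; linarith [h.m0])) hk.le
    calc |f (ar1 w n (yy ξ η))| * |f₁ (ar2 k ‖vv ζ ξ η‖) * (-E1 ζ ξ η / k)|
        ≤ 1 * (2 * M / k) := mul_le_mul b5 b1 (abs_nonneg _) zero_le_one
      _ = 2 * M / k := one_mul _
  have c3 : |Om1 f f₁ k w n ζ ξ η| ≤ M / w + 2 * M / k := by
    unfold Om1
    exact (abs_add_le _ _).trans (add_le_add c1 c2)
  have c4 : 0 ≤ M / w + 2 * M / k := (abs_nonneg _).trans c3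
  calc |Om1 f f₁ k w n ζ ξ η| * Real.sin η ≤ (M / w + 2 * M / k) * 1 :=
        mul_le_mul c3 b6 hs c4
    _ = _ := mul_one _

theorem Om2_bd (h : Stp f f₁ M) {k w n : ℝ} (hk : 0 < k) (hw : 0 < w) {ζ : ℂ} (hζ : ‖ζ‖ = 1)
    {s : ℝ} (hs1 : ‖ζ - 1‖ ≤ s) (hsk : s ≤ Real.exp (-(2 * k))) {ξ η : ℝ}
    (hs : 0 ≤ Real.sin η) : |Om2 f f₁ k w n ζ ξ η| * Real.sin η ≤ M / w + 2 * M / k := by
  have b1 := second_bd h hk (norm_nonneg (vv ζ ξ η)) (E2_bd hζ hs1 hsk hs)
  have b2 := abs_D2 (ξ := ξ) hs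
  have b3 := h.m (ar1 w n (yy ξ η))
  have b4 := abs_f h (ar2 k ‖vv ζ ξ η‖)
  have b5 := abs_f h (ar1 w n (yy ξ η))
  have b6 := Real.sin_le_one η
  have c1 : |f₁ (ar1 w n (yy ξ η)) * (D2 ξ η / w) * f (ar2 k ‖vv ζ ξ η‖)| * Real.sin η ≤
      M / w := by
    rw [abs_mul, abs_mul, abs_div, abs_of_pos hw]
    have d1 : |f₁ (ar1 w n (yy ξ η))| * (|D2 ξ η| * Real.sin η / w) ≤ M * (1 / w) := by
      apply mul_le_mul b3 _ (by (clear * - hs hw; positivity)) h.m0
      exact div_le_div_of_nonneg_right b2 hw.le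
    have d2 : 0 ≤ M * (1 / w) := mul_nonneg h.m0 (by positivity)
    calc |f₁ (ar1 w n (yy ξ η))| * (|D2 ξ η| / w) * |f (ar2 k ‖vv ζ ξ η‖)| * Real.sin η
        = |f₁ (ar1 w n (yy ξ η))| * (|D2 ξ η| * Real.sin η / w) * |f (ar2 k ‖vv ζ ξ η‖)| := by
          ring
      _ ≤ M * (1 / w) * 1 := mul_le_mul d1 b4 (abs_nonneg _) d2
      _ = M / w := by ring
  have c2 : |f (ar1 w n (yy ξ η)) * (f₁ (ar2 k ‖vv ζ ξ η‖) * (-E2 ζ ξ η / k))| * Real.sin η ≤
      2 * M / k := by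
    rw [abs_mul]
    have d2 : 0 ≤ 2 * M / k := div_nonneg (by linarith only [h.m0]) hk.le
    calc |f (ar1 w n (yy ξ η))| * |f₁ (ar2 k ‖vv ζ ξ η‖) * (-E2 ζ ξ η / k)| * Real.sin η
        ≤ 1 * (2 * M / k) * 1 :=
          mul_le_mul (mul_le_mul b5 b1 (abs_nonneg _) zero_le_one) b6 hs (by (clear * - d2; linarith only [d2]))
      _ = 2 * M / k := by ring
  unfold Om2
  calc |f₁ (ar1 w n (yy ξ η)) * (D2 ξ η / w) * f (ar2 k ‖vv ζ ξ η‖) +
        f (ar1 w n (yy ξ η)) * (f₁ (ar2 k ‖vv ζ ξ η‖) * (-E2 ζ ξ η / k))| * Real.sin η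
      ≤ (|f₁ (ar1 w n (yy ξ η)) * (D2 ξ η / w) * f (ar2 k ‖vv ζ ξ η‖)| +
        |f (ar1 w n (yy ξ η)) * (f₁ (ar2 k ‖vv ζ ξ η‖) * (-E2 ζ ξ η / k))|) * Real.sin η :=
        mul_le_mul_of_nonneg_right (abs_add_le _ _) hs
    _ ≤ M / w + 2 * M / k := by
        rw [add_mul]
        exact add_le_add c1 c2

theorem contAt_vv {ζ : ℂ} {ξ η : ℝ} (hs : 0 ≤ Real.sin η) :
    ContinuousAt (fun p : ℝ × ℝ => vv ζ p.1 p.2) (ξ, η) := by
  unfold vv
  exact (continuousAt_const.mul (contAt_zf hs)).sub continuousAt_const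

theorem contAt_zd {ξ η : ℝ} (hs : 0 ≤ Real.sin η) :
    ContinuousAt (fun p : ℝ × ℝ => zd (pt p.1 p.2)) (ξ, η) := by
  have h1 : ContinuousAt (fun p : ℝ × ℝ => Complex.exp (pt p.1 p.2)) (ξ, η) := by
    unfold pt
    fun_prop
  unfold zd
  apply ContinuousAt.div
  · exact continuousAt_const.mul h1
  · exact (h1.add continuousAt_const).pow 2
  · have := den_ne (ξ := ξ) hs
    rw [add_comm] at this
    exact pow_ne_zero 2 this

theorem contAt_a1 {g : ℝ → ℝ} (hg : Continuous g) (w n : ℝ) {ξ η : ℝ}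
    (hs : 0 ≤ Real.sin η) :
    ContinuousAt (fun p : ℝ × ℝ => g (ar1 w n (yy p.1 p.2))) (ξ, η) :=
  ContinuousAt.comp (f := fun p : ℝ × ℝ => yy p.1 p.2) (g := fun y => g (ar1 w n y))
    (hg.comp (ar1_cont w n)).continuousAt (contAt_yy hs)

theorem contAt_a2 {g : ℝ → ℝ} (hg : Continuous g) (k : ℝ) {ζ : ℂ} {ξ η : ℝ}
    (hs : 0 ≤ Real.sin η) (hv : vv ζ ξ η ≠ 0) :
    ContinuousAt (fun p : ℝ × ℝ => g (ar2 k ‖vv ζ p.1 p.2‖)) (ξ, η) := by
  have h1 : ContinuousAt (fun p : ℝ × ℝ => ar2 k ‖vv ζ p.1 p.2‖) (ξ, η) := by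
    unfold ar2
    apply ContinuousAt.div_const
    apply ContinuousAt.sub continuousAt_const
    apply ContinuousAt.log
    · exact (contAt_vv hs).norm
    · exact norm_ne_zero_iff.2 hv
  exact ContinuousAt.comp (f := fun p : ℝ × ℝ => ar2 k ‖vv ζ p.1 p.2‖) (g := g)
    hg.continuousAt h1

theorem dd_cont : Continuous (fun p : ℝ × ℝ => dd p.1 p.2) := by
  unfold dd
  fun_prop

theorem contAt_D1 {ξ η : ℝ} (hs : 0 ≤ Real.sin η) :
    ContinuousAt (fun p : ℝ × ℝ => D1 p.1 p.2) (ξ, η) := by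
  have h1 := dd_ge (ξ := ξ) hs
  unfold D1
  apply ContinuousAt.sub continuousAt_const
  apply ContinuousAt.div
  · fun_prop
  · exact dd_cont.continuousAt
  · exact ne_of_gt (by (clear * - h1; linarith))

theorem contAt_D2 {ξ η : ℝ} (hs : 0 < Real.sin η) :
    ContinuousAt (fun p : ℝ × ℝ => D2 p.1 p.2) (ξ, η) := by
  have h1 := dd_ge (ξ := ξ) hs.le
  unfold D2
  apply ContinuousAt.sub
  · apply ContinuousAt.div
    · fun_prop
    · fun_prop
    · exact hs.ne'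
  · apply ContinuousAt.div
    · fun_prop
    · exact dd_cont.continuousAt
    · exact ne_of_gt (by linarith)

theorem contAt_E (u : ℂ) {ζ : ℂ} {ξ η : ℝ} (hs : 0 ≤ Real.sin η) (hv : vv ζ ξ η ≠ 0) :
    ContinuousAt (fun p : ℝ × ℝ => (ζ * (zd (pt p.1 p.2) * u) / vv ζ p.1 p.2).re) (ξ, η) := by
  have h1 : ContinuousAt (fun p : ℝ × ℝ => ζ * (zd (pt p.1 p.2) * u) / vv ζ p.1 p.2) (ξ, η) := by
    apply ContinuousAt.div
    · exact continuousAt_const.mul ((contAt_zd hs).mul continuousAt_const)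
    · exact contAt_vv hs
    · exact hv
  exact Complex.continuous_re.continuousAt.comp h1

theorem contAt_E1 {ζ : ℂ} {ξ η : ℝ} (hs : 0 ≤ Real.sin η) (hv : vv ζ ξ η ≠ 0) :
    ContinuousAt (fun p : ℝ × ℝ => E1 ζ p.1 p.2) (ξ, η) := by
  have := contAt_E 1 hs hv
  simp only [mul_one] at this
  exact this

theorem contAt_E2 {ζ : ℂ} {ξ η : ℝ} (hs : 0 ≤ Real.sin η) (hv : vv ζ ξ η ≠ 0) :
    ContinuousAt (fun p : ℝ × ℝ => E2 ζ p.1 p.2) (ξ, η) := contAt_E I hs hv

/-- a function which vanishes where `yy` is small and is continuous elsewhere -/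
theorem cont_of {F : ℝ × ℝ → ℝ} {n : ℝ} {ξ η : ℝ} (hs : 0 ≤ Real.sin η)
    (h0 : ∀ p : ℝ × ℝ, yy p.1 p.2 ≤ 8 * Real.exp (-n) → F p = 0)
    (h1 : 8 * Real.exp (-n) ≤ yy ξ η → ContinuousAt F (ξ, η)) : ContinuousAt F (ξ, η) := by
  rcases lt_or_ge (yy ξ η) (8 * Real.exp (-n)) with hy | hy
  · have h2 : ∀ᶠ p : ℝ × ℝ in 𝓝 (ξ, η), yy p.1 p.2 < 8 * Real.exp (-n) :=
      (contAt_yy hs).eventually_lt_const hy
    have h3 : F =ᶠ[𝓝 (ξ, η)] fun _ => 0 := by
      filter_upwards [h2] with p hp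
      exact h0 p hp.le
    exact continuousAt_const.congr h3.symm
  · exact h1 hy

theorem Om_cont (h : Stp f f₁ M) {k w n : ℝ} (hw : 0 < w) {ζ : ℂ} (hζ : ‖ζ‖ = 1) {ξ η : ℝ}
    (hs : 0 ≤ Real.sin η) : ContinuousAt (fun p : ℝ × ℝ => Om f k w n ζ p.1 p.2) (ξ, η) := by
  have hn := Real.exp_pos (-n)
  refine cont_of (n := n) hs (fun p hp => Om_zero h hw ζ hp) fun hy => ?_
  have hy0 : 0 < yy ξ η := by linarith
  exact (contAt_a1 h.cf w n hs).mul (contAt_a2 h.cf k hs (vv_ne hζ hy0))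

theorem Om1_cont (h : Stp f f₁ M) {k w n : ℝ} (hw : 0 < w) {ζ : ℂ} (hζ : ‖ζ‖ = 1) {ξ η : ℝ}
    (hs : 0 ≤ Real.sin η) :
    ContinuousAt (fun p : ℝ × ℝ => Om1 f f₁ k w n ζ p.1 p.2) (ξ, η) := by
  have hn := Real.exp_pos (-n)
  refine cont_of (n := n) hs (fun p hp => Om1_zero h hw ζ hp) fun hy => ?_
  have hy0 : 0 < yy ξ η := by (clear * - hn hy; linarith)
  have hv := vv_ne hζ hy0
  have hsp := sin_pos_of_yy hs hy0
  exact (((contAt_a1 h.c w n hs).mul ((contAt_D1 hs).div_const w)).mul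
    (contAt_a2 h.cf k hs hv)).add
    ((contAt_a1 h.cf w n hs).mul ((contAt_a2 h.c k hs hv).mul
      ((contAt_E1 hs hv).neg.div_const k)))

theorem Om2_cont (h : Stp f f₁ M) {k w n : ℝ} (hw : 0 < w) {ζ : ℂ} (hζ : ‖ζ‖ = 1) {ξ η : ℝ}
    (hs : 0 ≤ Real.sin η) :
    ContinuousAt (fun p : ℝ × ℝ => Om2 f f₁ k w n ζ p.1 p.2) (ξ, η) := by
  have hn := Real.exp_pos (-n)
  refine cont_of (n := n) hs (fun p hp => Om2_zero h hw ζ hp) fun hy => ?_
  have hy0 : 0 < yy ξ η := by (clear * - hn hy; linarith)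
  have hv := vv_ne hζ hy0
  have hsp := sin_pos_of_yy hs hy0
  exact (((contAt_a1 h.c w n hs).mul ((contAt_D2 hsp).div_const w)).mul
    (contAt_a2 h.cf k hs hv)).add
    ((contAt_a1 h.cf w n hs).mul ((contAt_a2 h.c k hs hv).mul
      ((contAt_E2 hs hv).neg.div_const k)))

end Pool.Agent.Helper73.CK

end

section

namespace Pool.Agent.Helper39.Area
end Pool.Agent.Helper39.Area
namespace Pool.Agent.Helper52.EK
end Pool.Agent.Helper52.EK

/-!
Calculus for the area functional in log-polar coordinates: derivatives of `‖N‖ ^ (-κ)` along the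
coordinate lines, integration by parts on the rectangle.
-/

set_option autoImplicit false

open Complex MeasureTheory Metric Set Filter Topology

open scoped Real ComplexConjugate

namespace Pool.Agent.Helper14.CK

open Pool.Agent.Helper39.Area Pool.Agent.Helper52.EK

/-- derivative of `log ‖u‖` along a path -/
theorem hasDerivAt_log_norm {u : ℝ → ℂ} {u' : ℂ} {t : ℝ} (hu : HasDerivAt u u' t)
    (h0 : u t ≠ 0) : HasDerivAt (fun t => Real.log ‖u t‖) (u' / u t).re t := by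
  have hre : HasDerivAt (fun t => (u t).re) u'.re t := by
    exact Complex.reCLM.hasFDerivAt.comp_hasDerivAt t hu
  have him : HasDerivAt (fun t => (u t).im) u'.im t := by
    exact Complex.imCLM.hasFDerivAt.comp_hasDerivAt t hu
  have hsq : HasDerivAt (fun t => Complex.normSq (u t))
      (2 * ((u t).re * u'.re + (u t).im * u'.im)) t := by
    have h1 := (hre.mul hre).add (him.mul him)
    have h2 : (fun t => Complex.normSq (u t))
        = fun t => (u t).re * (u t).re + (u t).im * (u t).im := by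
      funext s
      rw [Complex.normSq_apply]
    rw [h2]
    convert! h1 using 1
    ring
  have hne : Complex.normSq (u t) ≠ 0 := by
    rw [Ne, Complex.normSq_eq_zero]
    exact h0
  have hlog := (hsq.log hne).div_const 2
  have h3 : (fun t => Real.log ‖u t‖) = fun t => Real.log (Complex.normSq (u t)) / 2 := by
    funext s
    rw [Complex.normSq_eq_norm_sq, Real.log_pow]
    push_cast
    ring
  rw [h3]
  convert! hlog using 1
  rw [Complex.div_re]
  field_simp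

/-- derivative of `‖u‖ ^ (-κ)` along a path -/
theorem hasDerivAt_norm_rpow {u : ℝ → ℂ} {u' : ℂ} {t : ℝ} (κ : ℝ) (hu : HasDerivAt u u' t)
    (h0 : u t ≠ 0) : HasDerivAt (fun t => ‖u t‖ ^ (-κ))
      (-κ * ‖u t‖ ^ (-κ) * (u' / u t).re) t := by
  have h1 := ((hasDerivAt_log_norm hu h0).mul_const (-κ)).exp
  have h2 : (fun t => ‖u t‖ ^ (-κ)) =ᶠ[𝓝 t] fun t => Real.exp (Real.log ‖u t‖ * -κ) := by
    have h3 : ∀ᶠ s in 𝓝 t, u s ≠ 0 := hu.continuousAt.eventually_ne h0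
    filter_upwards [h3] with s hs
    exact Real.rpow_def_of_pos (norm_pos_iff.mpr hs) _
  have h4 := h1.congr_of_eventuallyEq h2
  convert! h4 using 1
  rw [← Real.rpow_def_of_pos (norm_pos_iff.mpr h0)]
  ring

theorem norm_ep (t θ : ℝ) : ‖ep t θ‖ = Real.exp t := by
  rw [ep, Complex.norm_exp]
  simp

theorem hasDerivAt_ep_x (x θ : ℝ) : HasDerivAt (fun x : ℝ => ep (-x) θ) (-ep (-x) θ) x := by
  unfold ep
  have h1 : HasDerivAt (fun x : ℝ => ((-x : ℝ) : ℂ) + (θ : ℂ) * I) (-1) x := by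
    have h2 : HasDerivAt (fun x : ℝ => ((-x : ℝ) : ℂ)) (-1) x := by
      have := ((hasDerivAt_id x).neg).ofReal_comp
      simpa using this
    exact h2.add_const _
  have h3 := h1.cexp
  convert! h3 using 1
  ring

theorem hasDerivAt_ep_θ (t θ : ℝ) : HasDerivAt (fun θ : ℝ => ep t θ) (I * ep t θ) θ := by
  unfold ep
  have h1 : HasDerivAt (fun θ : ℝ => ((t : ℝ) : ℂ) + (θ : ℂ) * I) I θ := by
    have h2 : HasDerivAt (fun θ : ℝ => (θ : ℂ)) 1 θ := by
      have := (hasDerivAt_id θ).ofReal_comp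
      simpa using this
    have h3 := (h2.mul_const I).const_add ((t : ℝ) : ℂ)
    simpa using h3
  have h3 := h1.cexp
  convert! h3 using 1
  ring

/-- chain rule along `x` -/
theorem hasDerivAt_comp_x {g : ℂ → ℂ} {g' : ℂ} {x θ : ℝ} (hg : HasDerivAt g g' (ep (-x) θ)) :
    HasDerivAt (fun x : ℝ => g (ep (-x) θ)) (-(ep (-x) θ * g')) x := by
  have h1 := HasDerivAt.scomp x hg (hasDerivAt_ep_x x θ)
  convert! h1 using 1
  rw [smul_eq_mul]
  ring

/-- chain rule along `θ` -/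
theorem hasDerivAt_comp_θ {g : ℂ → ℂ} {g' : ℂ} {t θ : ℝ} (hg : HasDerivAt g g' (ep t θ)) :
    HasDerivAt (fun θ : ℝ => g (ep t θ)) (I * (ep t θ * g')) θ := by
  have h1 := HasDerivAt.scomp θ hg (hasDerivAt_ep_θ t θ)
  convert! h1 using 1
  rw [smul_eq_mul]
  ring

theorem hasDerivAt_re {u : ℝ → ℂ} {u' : ℂ} {t : ℝ} (hu : HasDerivAt u u' t) :
    HasDerivAt (fun t => (u t).re) u'.re t := by
  exact Complex.reCLM.hasFDerivAt.comp_hasDerivAt t hu

theorem hasDerivAt_im {u : ℝ → ℂ} {u' : ℂ} {t : ℝ} (hu : HasDerivAt u u' t) :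
    HasDerivAt (fun t => (u t).im) u'.im t := by
  exact Complex.imCLM.hasFDerivAt.comp_hasDerivAt t hu

/-- the rectangle of the log-polar coordinates -/
def Rect (a b : ℝ) : Set (ℝ × ℝ) := Icc a b ×ˢ Icc (-π) π

theorem isCompact_rect (a b : ℝ) : IsCompact (Rect a b) := isCompact_Icc.prod isCompact_Icc

theorem measurableSet_rect (a b : ℝ) : MeasurableSet (Rect a b) :=
  measurableSet_Icc.prod measurableSet_Icc

theorem integrableOn_rect {a b : ℝ} {f : ℝ × ℝ → ℝ} (hf : ContinuousOn f (Rect a b)) :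
    IntegrableOn f (Rect a b) := hf.integrableOn_compact (isCompact_rect a b)

theorem integrableOn_rectC {a b : ℝ} {f : ℝ × ℝ → ℂ} (hf : ContinuousOn f (Rect a b)) :
    IntegrableOn f (Rect a b) := hf.integrableOn_compact (isCompact_rect a b)

/-- iterated integral, inner variable `θ` -/
theorem rect_eq {a b : ℝ} (hab : a ≤ b) {f : ℝ × ℝ → ℝ} (hf : ContinuousOn f (Rect a b)) :
    ∫ p in Rect a b, f p = ∫ x in a..b, ∫ θ in (-π)..π, f (x, θ) := by
  have hπ : -π ≤ π := by (clear * -; linarith only [Real.pi_pos])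
  have h1 := integrableOn_rect hf
  rw [Measure.volume_eq_prod] at h1 ⊢
  rw [Rect, setIntegral_prod _ h1, intervalIntegral.integral_of_le hab, integral_Icc_eq_integral_Ioc]
  refine setIntegral_congr_fun measurableSet_Ioc fun x _ => ?_
  show ∫ y in Icc (-π) π, f (x, y) = ∫ θ in (-π)..π, f (x, θ)
  rw [intervalIntegral.integral_of_le hπ, integral_Icc_eq_integral_Ioc]

/-- iterated integral, inner variable `x` -/
theorem rect_eq' {a b : ℝ} (hab : a ≤ b) {f : ℝ × ℝ → ℝ} (hf : ContinuousOn f (Rect a b)) :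
    ∫ p in Rect a b, f p = ∫ θ in (-π)..π, ∫ x in a..b, f (x, θ) := by
  have hπ : -π ≤ π := by (clear * -; linarith only [Real.pi_pos])
  have h1 := integrableOn_rect hf
  have h2 : IntegrableOn (fun p : ℝ × ℝ => f p.swap) (Icc (-π) π ×ˢ Icc a b) := by
    apply ContinuousOn.integrableOn_compact (isCompact_Icc.prod isCompact_Icc)
    apply hf.comp continuous_swap.continuousOn
    intro p hp
    exact ⟨hp.2, hp.1⟩
  rw [Measure.volume_eq_prod] at h1 h2 ⊢
  rw [Rect, ← setIntegral_prod_swap, setIntegral_prod _ h2,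
    intervalIntegral.integral_of_le hπ, integral_Icc_eq_integral_Ioc]
  refine setIntegral_congr_fun measurableSet_Ioc fun x _ => ?_
  simp only [Prod.swap_prod_mk]
  rw [intervalIntegral.integral_of_le hab, integral_Icc_eq_integral_Ioc]

/-- integration by parts in `x`: no boundary terms -/
theorem ibp_x {a b : ℝ} (hab : a ≤ b) {G Gx : ℝ × ℝ → ℝ} (hc : ContinuousOn Gx (Rect a b))
    (hd : ∀ x ∈ Icc a b, ∀ θ ∈ Icc (-π) π, HasDerivAt (fun x => G (x, θ)) (Gx (x, θ)) x)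
    (ha : ∀ θ, G (a, θ) = 0) (hb : ∀ θ, G (b, θ) = 0) : ∫ p in Rect a b, Gx p = 0 := by
  have hπ : -π ≤ π := by (clear * -; linarith [Real.pi_pos])
  rw [rect_eq' hab hc, intervalIntegral.integral_of_le hπ]
  rw [setIntegral_congr_fun (g := fun _ => (0 : ℝ)) measurableSet_Ioc, integral_zero]
  intro θ hθ
  have hθ' : θ ∈ Icc (-π) π := Ioc_subset_Icc_self hθ
  simp only
  rw [intervalIntegral.integral_eq_sub_of_hasDerivAt (f := fun x => G (x, θ))
    (f' := fun x => Gx (x, θ)), ha, hb, sub_zero]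
  · intro x hx
    rw [uIcc_of_le hab] at hx
    exact hd x hx θ hθ'
  · apply ContinuousOn.intervalIntegrable
    rw [uIcc_of_le hab]
    exact hc.comp (by fun_prop) (fun x hx => ⟨hx, hθ'⟩)

/-- integration by parts in `θ`: periodicity -/
theorem ibp_θ {a b : ℝ} (hab : a ≤ b) {G Gθ : ℝ × ℝ → ℝ} (hc : ContinuousOn Gθ (Rect a b))
    (hd : ∀ x ∈ Icc a b, ∀ θ ∈ Icc (-π) π, HasDerivAt (fun θ => G (x, θ)) (Gθ (x, θ)) θ)
    (hp : ∀ x, G (x, -π) = G (x, π)) : ∫ p in Rect a b, Gθ p = 0 := by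
  have hπ : -π ≤ π := by (clear * -; linarith [Real.pi_pos])
  rw [rect_eq hab hc, intervalIntegral.integral_of_le hab]
  rw [setIntegral_congr_fun (g := fun _ => (0 : ℝ)) measurableSet_Ioc, integral_zero]
  intro x hx
  have hx' : x ∈ Icc a b := Ioc_subset_Icc_self hx
  simp only
  rw [intervalIntegral.integral_eq_sub_of_hasDerivAt (f := fun θ => G (x, θ))
    (f' := fun θ => Gθ (x, θ)), hp, sub_self]
  · intro θ hθ
    rw [uIcc_of_le hπ] at hθ
    exact hd x hx' θ hθ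
  · apply ContinuousOn.intervalIntegrable
    rw [uIcc_of_le hπ]
    exact hc.comp (by fun_prop) (fun θ hθ => ⟨hx', hθ⟩)

end Pool.Agent.Helper14.CK

end

section

/-!
Comparison of the kernels of the first variation in the rotated coordinate `w = z₀ / ζ`, the target
being `q ζ`.
-/

set_option autoImplicit false

open Complex MeasureTheory Metric Set Filter Topology

open scoped Real ComplexConjugate

namespace Pool.Agent.Helper14.CK

section kernels

variable {q : ℝ} {w : ℂ}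

theorem ker_d1 (hw1 : ‖w‖ < 1) : 0 < ‖1 - w‖ := by
  rw [norm_pos_iff]
  intro h
  have h1 : w = 1 := by linear_combination -h
  rw [h1, norm_one] at hw1
  exact lt_irrefl _ hw1

/-- `1 - q ≤ ‖1 - w‖` -/
theorem ker_q_le (hq : 1 / 2 ≤ q) (hq1 : q < 1) (hw : ‖w‖ ≤ q ^ 2) : 1 - q ≤ ‖1 - w‖ := by
  have h1 : 1 - ‖w‖ ≤ ‖1 - w‖ := by
    have := norm_sub_norm_le (1 : ℂ) w
    rwa [norm_one] at this
  nlinarith only [hq, hq1, hw, h1]

theorem ker_qw (hq : 1 / 2 ≤ q) (hq1 : q < 1) (hw : ‖w‖ ≤ q ^ 2) :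
    ‖1 - w‖ ≤ 3 * ‖(q : ℂ) - w‖ := by
  have h1 : q - ‖w‖ ≤ ‖(q : ℂ) - w‖ := by
    have := norm_sub_norm_le (q : ℂ) w
    rwa [Complex.norm_real, Real.norm_of_nonneg (by linarith)] at this
  have h2 : ‖1 - w‖ ≤ ‖(1 : ℂ) - q‖ + ‖(q : ℂ) - w‖ := by
    have := norm_add_le ((1 : ℂ) - q) ((q : ℂ) - w)
    rwa [sub_add_sub_cancel] at this
  have h3 : ‖(1 : ℂ) - q‖ = 1 - q := by
    have : (1 : ℂ) - q = ((1 - q : ℝ) : ℂ) := by push_cast; ring
    rw [this, Complex.norm_real, Real.norm_of_nonneg (by linarith only [hq1])]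
  have h4 : q * (1 - q) ≤ ‖(q : ℂ) - w‖ := by (clear * - hw h1; linarith only [hw, h1])
  have h5 : 1 - q ≤ 2 * (q * (1 - q)) := by (clear * - hq hq1; nlinarith only [hq, hq1])
  rw [h3] at h2
  linarith only [h2, h4, h5]

theorem ker_1qw (hq : 1 / 2 ≤ q) (hq1 : q < 1) (hw : ‖w‖ ≤ q ^ 2) :
    ‖1 - w‖ ≤ 2 * ‖1 - (q : ℂ) * w‖ := by
  have hw1 : ‖w‖ ≤ 1 := by nlinarith only [hq, hq1, hw]
  have h1 : 1 - q * ‖w‖ ≤ ‖1 - (q : ℂ) * w‖ := by
    have := norm_sub_norm_le (1 : ℂ) ((q : ℂ) * w)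
    rwa [norm_one, norm_mul, Complex.norm_real, Real.norm_of_nonneg (by (clear * - hq hq1; linarith))] at this
  have h2 : ‖1 - w‖ ≤ ‖1 - (q : ℂ) * w‖ + ‖((q : ℂ) - 1) * w‖ := by
    have := norm_add_le (1 - (q : ℂ) * w) (((q : ℂ) - 1) * w)
    have e : 1 - (q : ℂ) * w + ((q : ℂ) - 1) * w = 1 - w := by ring
    rwa [e] at this
  have h3 : ‖((q : ℂ) - 1) * w‖ ≤ 1 - q := by
    have : (q : ℂ) - 1 = ((q - 1 : ℝ) : ℂ) := by push_cast; ring
    rw [norm_mul, this, Complex.norm_real, Real.norm_of_nonpos (by (clear * - hq1; linarith only [hq1]))]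
    (clear * - hq1 hw1; nlinarith only [hq1, hw1])
  have h4 : 1 - q ≤ 1 - q * ‖w‖ := by (clear * - hq1 hw hq; nlinarith [norm_nonneg w])
  linarith only [h1, h2, h3, h4]

theorem ker_ne1 (hq : 1 / 2 ≤ q) (hq1 : q < 1) (hw : ‖w‖ ≤ q ^ 2) : (q : ℂ) - w ≠ 0 := by
  have hw1 : ‖w‖ < 1 := by (clear * - hq1 hw hq; nlinarith)
  have h1 := ker_qw hq hq1 hw
  have h2 := ker_d1 hw1
  rw [← norm_pos_iff]
  (clear * - h1 h2; linarith only [h1, h2])

theorem ker_ne2 (hq : 1 / 2 ≤ q) (hq1 : q < 1) (hw : ‖w‖ ≤ q ^ 2) :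
    1 - (q : ℂ) * w ≠ 0 := by
  have hw1 : ‖w‖ < 1 := by nlinarith
  have h1 := ker_1qw hq hq1 hw
  have h2 := ker_d1 hw1
  rw [← norm_pos_iff]
  (clear * - h1 h2; linarith only [h1, h2])

/-- `k1` -/
theorem ker_k1 (hq : 1 / 2 ≤ q) (hq1 : q < 1) (hw : ‖w‖ ≤ q ^ 2) :
    ‖(q : ℂ) * w / ((q : ℂ) - w) ^ 2 - w / (1 - w) ^ 2‖ ≤ 27 * (1 - q) / ‖1 - w‖ ^ 3 := by
  have hw1 : ‖w‖ < 1 := by nlinarith
  have hd := ker_d1 hw1
  have hn1 := ker_ne1 hq hq1 hw
  have hn3 : 1 - w ≠ 0 := norm_pos_iff.mp hd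
  have e : (q : ℂ) * w / ((q : ℂ) - w) ^ 2 - w / (1 - w) ^ 2
      = w * (1 - q) * (q - w ^ 2) / (((q : ℂ) - w) ^ 2 * (1 - w) ^ 2) := by
    field_simp
    ring
  have h1 : ‖(q : ℂ) - w ^ 2‖ ≤ 3 * ‖1 - w‖ := by
    have h2 : (q : ℂ) - w ^ 2 = (1 - w) * (1 + w) + (((q - 1 : ℝ)) : ℂ) := by
      push_cast
      ring
    have h3 : ‖(1 - w) * (1 + w)‖ ≤ 2 * ‖1 - w‖ := by
      rw [norm_mul]
      have : ‖1 + w‖ ≤ 2 := by
        have := norm_add_le (1 : ℂ) w
        rw [norm_one] at this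
        (clear * - hw1 this; linarith only [hw1, this])
      (clear * - hd this; nlinarith only [hd, this])
    have h4 : ‖(((q - 1 : ℝ)) : ℂ)‖ ≤ ‖1 - w‖ := by
      rw [Complex.norm_real, Real.norm_of_nonpos (by linarith only [hq1])]
      have := ker_q_le hq hq1 hw
      linarith only [this]
    rw [h2]
    exact (norm_add_le _ _).trans (by linarith only [h3, h4])
  have hqn : ‖(1 : ℂ) - q‖ = 1 - q := by
    have : (1 : ℂ) - q = ((1 - q : ℝ) : ℂ) := by push_cast; ring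
    rw [this, Complex.norm_real, Real.norm_of_nonneg (by linarith only [hq1])]
  rw [e, norm_div, norm_mul, norm_mul, norm_mul, norm_pow, norm_pow, hqn]
  have h5 : ‖1 - w‖ / 3 ≤ ‖(q : ℂ) - w‖ := by (clear * - hq hq1 hw; linarith only [ker_qw hq hq1 hw])
  rw [div_le_div_iff₀ (by positivity) (by positivity)]
  have h6 : (‖1 - w‖ / 3) ^ 2 ≤ ‖(q : ℂ) - w‖ ^ 2 := by gcongr
  have h7 : ‖w‖ * (1 - q) * ‖(q : ℂ) - w ^ 2‖ ≤ 1 * (1 - q) * (3 * ‖1 - w‖) := by
    gcongr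
  calc ‖w‖ * (1 - q) * ‖(q : ℂ) - w ^ 2‖ * ‖1 - w‖ ^ 3
      ≤ 1 * (1 - q) * (3 * ‖1 - w‖) * ‖1 - w‖ ^ 3 := by gcongr
    _ = 27 * (1 - q) * ((‖1 - w‖ / 3) ^ 2 * ‖1 - w‖ ^ 2) := by ring
    _ ≤ 27 * (1 - q) * (‖(q : ℂ) - w‖ ^ 2 * ‖1 - w‖ ^ 2) := by
      have : 0 ≤ 1 - q := by linarith only [hq1]
      gcongr

/-- `k2` -/
theorem ker_k2 (hq : 1 / 2 ≤ q) (hq1 : q < 1) (hw : ‖w‖ ≤ q ^ 2) :
    ‖(q : ℂ) * w / (1 - (q : ℂ) * w) ^ 2 - w / (1 - w) ^ 2‖ ≤ 12 * (1 - q) / ‖1 - w‖ ^ 3 := by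
  have hw1 : ‖w‖ < 1 := by nlinarith
  have hd := ker_d1 hw1
  have hn1 := ker_ne2 hq hq1 hw
  have hn3 : 1 - w ≠ 0 := norm_pos_iff.mp hd
  have e : (q : ℂ) * w / (1 - (q : ℂ) * w) ^ 2 - w / (1 - w) ^ 2
      = -(w * (1 - q) * (1 - q * w ^ 2)) / ((1 - (q : ℂ) * w) ^ 2 * (1 - w) ^ 2) := by
    rw [div_sub_div _ _ (pow_ne_zero 2 hn1) (pow_ne_zero 2 hn3)]
    congr 1
    ring
  have h1 : ‖(1 : ℂ) - q * w ^ 2‖ ≤ 3 * ‖1 - w‖ := by
    have h2 : (1 : ℂ) - q * w ^ 2 = (1 - w) * (1 + w) + (((1 - q : ℝ)) : ℂ) * w ^ 2 := by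
      push_cast
      ring
    have h3 : ‖(1 - w) * (1 + w)‖ ≤ 2 * ‖1 - w‖ := by
      rw [norm_mul]
      have : ‖1 + w‖ ≤ 2 := by
        have := norm_add_le (1 : ℂ) w
        rw [norm_one] at this
        linarith only [hw1, this]
      (clear * - hd this; nlinarith only [hd, this])
    have h4 : ‖(((1 - q : ℝ)) : ℂ) * w ^ 2‖ ≤ ‖1 - w‖ := by
      rw [norm_mul, Complex.norm_real, Real.norm_of_nonneg (by linarith only [hq1]), norm_pow]
      have h5 := ker_q_le hq hq1 hw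
      have h6 : ‖w‖ ^ 2 ≤ 1 := by nlinarith only [norm_nonneg w, hw1]
      (clear * - h5 hd h6; nlinarith only [hd, h5, h6])
    rw [h2]
    exact (norm_add_le _ _).trans (by linarith only [h3, h4])
  have hqn : ‖(1 : ℂ) - q‖ = 1 - q := by
    have : (1 : ℂ) - q = ((1 - q : ℝ) : ℂ) := by push_cast; ring
    rw [this, Complex.norm_real, Real.norm_of_nonneg (by linarith only [hq1])]
  rw [e, norm_div, norm_neg, norm_mul, norm_mul, norm_mul, norm_pow, norm_pow, hqn]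
  have h5 : ‖1 - w‖ / 2 ≤ ‖1 - (q : ℂ) * w‖ := by linarith only [ker_1qw hq hq1 hw]
  rw [div_le_div_iff₀ (by positivity) (by positivity)]
  have h6 : (‖1 - w‖ / 2) ^ 2 ≤ ‖1 - (q : ℂ) * w‖ ^ 2 := by gcongr
  have h7 : ‖w‖ * (1 - q) * ‖(1 : ℂ) - q * w ^ 2‖ ≤ 1 * (1 - q) * (3 * ‖1 - w‖) := by
    gcongr
  calc ‖w‖ * (1 - q) * ‖(1 : ℂ) - q * w ^ 2‖ * ‖1 - w‖ ^ 3
      ≤ 1 * (1 - q) * (3 * ‖1 - w‖) * ‖1 - w‖ ^ 3 := by gcongr
    _ = 12 * (1 - q) * ((‖1 - w‖ / 2) ^ 2 * ‖1 - w‖ ^ 2) := by ring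
    _ ≤ 12 * (1 - q) * (‖1 - (q : ℂ) * w‖ ^ 2 * ‖1 - w‖ ^ 2) := by
      have : 0 ≤ 1 - q := by linarith only [hq1]
      (clear * - h6 hn3 hq1; gcongr)

/-- size of `k3 / (1 - q)` -/
theorem ker_k3_le (hq : 1 / 2 ≤ q) (hq1 : q < 1) (hw : ‖w‖ ≤ q ^ 2) :
    ‖w * (1 + q) / (((q : ℂ) - w) * (1 - (q : ℂ) * w))‖ ≤ 12 / ‖1 - w‖ ^ 2 := by
  have hw1 : ‖w‖ < 1 := by nlinarith
  have hd := ker_d1 hw1
  have hn1 := ker_ne1 hq hq1 hw
  have hn2 := ker_ne2 hq hq1 hw
  have h5 : ‖1 - w‖ / 3 ≤ ‖(q : ℂ) - w‖ := by linarith only [ker_qw hq hq1 hw]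
  have h6 : ‖1 - w‖ / 2 ≤ ‖1 - (q : ℂ) * w‖ := by linarith only [ker_1qw hq hq1 hw]
  have hqn : ‖(1 : ℂ) + q‖ = 1 + q := by
    have : (1 : ℂ) + q = ((1 + q : ℝ) : ℂ) := by push_cast; ring
    rw [this, Complex.norm_real, Real.norm_of_nonneg (by linarith only [hq])]
  rw [norm_div, norm_mul, norm_mul, hqn]
  have h7 : 0 < ‖(q : ℂ) - w‖ := norm_pos_iff.mpr hn1
  have h8 : 0 < ‖1 - (q : ℂ) * w‖ := norm_pos_iff.mpr hn2
  rw [div_le_div_iff₀ (by positivity) (by positivity)]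
  calc ‖w‖ * (1 + q) * ‖1 - w‖ ^ 2 ≤ 1 * 2 * ‖1 - w‖ ^ 2 := by
        gcongr
        (clear * - hq1; linarith only [hq1])
    _ = 12 * ((‖1 - w‖ / 3) * (‖1 - w‖ / 2)) := by ring
    _ ≤ 12 * (‖(q : ℂ) - w‖ * ‖1 - (q : ℂ) * w‖) := by (clear * - h5 h6 hd hn1; gcongr)

/-- `k3 / (1 - q)` against `2 w / (1 - w)²` -/
theorem ker_k3 (hq : 1 / 2 ≤ q) (hq1 : q < 1) (hw : ‖w‖ ≤ q ^ 2) :
    ‖w * (1 + q) / (((q : ℂ) - w) * (1 - (q : ℂ) * w)) - 2 * (w / (1 - w) ^ 2)‖
      ≤ 24 * (1 - q) / ‖1 - w‖ ^ 3 := by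
  have hw1 : ‖w‖ < 1 := by (clear * - hq1 hw hq; nlinarith)
  have hd := ker_d1 hw1
  have hn1 := ker_ne1 hq hq1 hw
  have hn2 := ker_ne2 hq hq1 hw
  have hn3 : 1 - w ≠ 0 := norm_pos_iff.mp hd
  have e : w * (1 + q) / (((q : ℂ) - w) * (1 - (q : ℂ) * w)) - 2 * (w / (1 - w) ^ 2)
      = w * (1 - q) * (1 - 2 * q * w + w ^ 2)
        / (((q : ℂ) - w) * (1 - (q : ℂ) * w) * (1 - w) ^ 2) := by
    rw [eq_div_iff (mul_ne_zero (mul_ne_zero hn1 hn2) (pow_ne_zero 2 hn3)), sub_mul]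
    have e1 : w * (1 + q) / (((q : ℂ) - w) * (1 - (q : ℂ) * w))
        * (((q : ℂ) - w) * (1 - (q : ℂ) * w) * (1 - w) ^ 2) = w * (1 + q) * (1 - w) ^ 2 := by
      rw [← mul_assoc, div_mul_cancel₀ _ (mul_ne_zero hn1 hn2)]
    have e2 : 2 * (w / (1 - w) ^ 2) * (((q : ℂ) - w) * (1 - (q : ℂ) * w) * (1 - w) ^ 2)
        = 2 * w * (((q : ℂ) - w) * (1 - (q : ℂ) * w)) := by
      have : w / (1 - w) ^ 2 * (1 - w) ^ 2 = w := div_mul_cancel₀ _ (pow_ne_zero 2 hn3)
      linear_combination (2 * (((q : ℂ) - w) * (1 - (q : ℂ) * w))) * this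
    rw [e1, e2]
    ring
  have h1 : ‖(1 : ℂ) - 2 * q * w + w ^ 2‖ ≤ 4 * ‖1 - w‖ := by
    have h2 : (1 : ℂ) - 2 * q * w + w ^ 2 = (1 - w) * (1 - w) + (((1 - q : ℝ)) : ℂ) * (2 * w) := by
      push_cast
      ring
    have h3 : ‖(1 - w) * (1 - w)‖ ≤ 2 * ‖1 - w‖ := by
      rw [norm_mul]
      have : ‖1 - w‖ ≤ 2 := by
        have := norm_sub_le (1 : ℂ) w
        rw [norm_one] at this
        linarith only [hw1, this]
      (clear * - this hd; nlinarith only [hd, this])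
    have h4 : ‖(((1 - q : ℝ)) : ℂ) * (2 * w)‖ ≤ 2 * ‖1 - w‖ := by
      rw [norm_mul, norm_mul, Complex.norm_real, Real.norm_of_nonneg (by linarith only [hq1]),
        Complex.norm_ofNat]
      have h5 := ker_q_le hq hq1 hw
      nlinarith only [hq1, hw1, h5]
    rw [h2]
    exact (norm_add_le _ _).trans (by linarith only [h3, h4])
  have hqn : ‖(1 : ℂ) - q‖ = 1 - q := by
    have : (1 : ℂ) - q = ((1 - q : ℝ) : ℂ) := by push_cast; ring
    rw [this, Complex.norm_real, Real.norm_of_nonneg (by linarith only [hq1])]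
  rw [e, norm_div, norm_mul, norm_mul, norm_mul, norm_mul, norm_pow, hqn]
  have h5 : ‖1 - w‖ / 3 ≤ ‖(q : ℂ) - w‖ := by linarith only [ker_qw hq hq1 hw]
  have h6 : ‖1 - w‖ / 2 ≤ ‖1 - (q : ℂ) * w‖ := by linarith only [ker_1qw hq hq1 hw]
  have h7 : 0 < ‖(q : ℂ) - w‖ := norm_pos_iff.mpr hn1
  have h8 : 0 < ‖1 - (q : ℂ) * w‖ := norm_pos_iff.mpr hn2
  rw [div_le_div_iff₀ (by positivity) (by positivity)]
  have h9 : 0 ≤ 1 - q := by linarith only [hq1]
  calc ‖w‖ * (1 - q) * ‖(1 : ℂ) - 2 * q * w + w ^ 2‖ * ‖1 - w‖ ^ 3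
      ≤ 1 * (1 - q) * (4 * ‖1 - w‖) * ‖1 - w‖ ^ 3 := by (clear * - hw1 hq1 h1 hn3; gcongr)
    _ = 24 * (1 - q) * ((‖1 - w‖ / 3) * (‖1 - w‖ / 2) * ‖1 - w‖ ^ 2) := by ring
    _ ≤ 24 * (1 - q) * (‖(q : ℂ) - w‖ * ‖1 - (q : ℂ) * w‖ * ‖1 - w‖ ^ 2) := by (clear * - h5 h6 hn3 hn1 hq1; gcongr)

/-- `k5` -/
theorem ker_k5 (hq : 1 / 2 ≤ q) (hq1 : q < 1) (hw : ‖w‖ ≤ q ^ 2) :
    ‖((q : ℂ) + w) / ((q : ℂ) - w) + (1 + (q : ℂ) * w) / (1 - (q : ℂ) * w)‖
      ≤ 24 / ‖1 - w‖ := by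
  have hw1 : ‖w‖ < 1 := by nlinarith
  have hd := ker_d1 hw1
  have hn1 := ker_ne1 hq hq1 hw
  have hn2 := ker_ne2 hq hq1 hw
  have e : ((q : ℂ) + w) / ((q : ℂ) - w) + (1 + (q : ℂ) * w) / (1 - (q : ℂ) * w)
      = 2 * q * ((1 - w) * (1 + w)) / (((q : ℂ) - w) * (1 - (q : ℂ) * w)) := by
    rw [div_add_div _ _ hn1 hn2]
    congr 1
    ring
  have h5 : ‖1 - w‖ / 3 ≤ ‖(q : ℂ) - w‖ := by (clear * - hq hq1 hw; linarith only [ker_qw hq hq1 hw])
  have h6 : ‖1 - w‖ / 2 ≤ ‖1 - (q : ℂ) * w‖ := by (clear * - hq hq1 hw; linarith only [ker_1qw hq hq1 hw])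
  have h7 : 0 < ‖(q : ℂ) - w‖ := norm_pos_iff.mpr hn1
  have h8 : 0 < ‖1 - (q : ℂ) * w‖ := norm_pos_iff.mpr hn2
  have h9 : ‖1 + w‖ ≤ 2 := by
    have := norm_add_le (1 : ℂ) w
    rw [norm_one] at this
    linarith only [hw1, this]
  rw [e, norm_div, norm_mul, norm_mul, norm_mul, norm_mul, Complex.norm_real,
    Real.norm_of_nonneg (by (clear * - hq; linarith only [hq])), Complex.norm_ofNat]
  rw [div_le_div_iff₀ (by (clear * - hn1 hn2; positivity)) (by positivity)]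
  calc 2 * q * (‖1 - w‖ * ‖1 + w‖) * ‖1 - w‖ ≤ 2 * 1 * (‖1 - w‖ * 2) * ‖1 - w‖ := by (clear * - hq1 h9 hd; gcongr)
    _ = 24 * ((‖1 - w‖ / 3) * (‖1 - w‖ / 2)) := by ring
    _ ≤ 24 * (‖(q : ℂ) - w‖ * ‖1 - (q : ℂ) * w‖) := by (clear * - h5 h6 hd hn1; gcongr)

/-- `4 w² / (1 - w²)²` against `w / (1 - w)²` -/
theorem ker_om (hw1 : ‖w‖ < 1) (hre : 0 ≤ w.re) :
    ‖w / (1 - w) ^ 2 - 4 * w ^ 2 / (1 - w ^ 2) ^ 2‖ ≤ 1 := by
  have hd := ker_d1 hw1
  have hn3 : 1 - w ≠ 0 := norm_pos_iff.mp hd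
  have h1 : 1 ≤ ‖1 + w‖ := by
    have h2 : (1 + w).re ≤ ‖1 + w‖ := Complex.re_le_norm _
    rw [Complex.add_re, Complex.one_re] at h2
    linarith only [hre, h2]
  have hn4 : 1 + w ≠ 0 := by
    rw [← norm_pos_iff]
    linarith only [h1]
  have hf : 1 - w ^ 2 = (1 - w) * (1 + w) := by ring
  have e : w / (1 - w) ^ 2 - 4 * w ^ 2 / (1 - w ^ 2) ^ 2 = w / (1 + w) ^ 2 := by
    rw [hf]
    field_simp
    ring
  rw [e, norm_div, norm_pow, div_le_one (by positivity)]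
  (clear * - hw1 h1; nlinarith only [hw1, h1])

end kernels

end Pool.Agent.Helper14.CK

end

section

namespace Pool.Agent.Helper39.Area
end Pool.Agent.Helper39.Area
namespace Pool.Agent.Helper52.EK
end Pool.Agent.Helper52.EK
namespace Pool.Agent.Helper52.CK
end Pool.Agent.Helper52.CK

/-!
Pointwise bounds of the kernels of the first variation in the original coordinates.
-/

set_option autoImplicit false

open Complex MeasureTheory Metric Set Filter Topology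

open scoped Real ComplexConjugate

namespace Pool.Agent.Helper14.CK

open Pool.Agent.Helper39.Area Pool.Agent.Helper52.EK Pool.Agent.Helper52.CK

section

variable {ζ w : ℂ} {q : ℝ}

theorem conj_unit (hζ : ‖ζ‖ = 1) : conj ζ * ζ = 1 := by
  rw [mul_comm, Complex.mul_conj, Complex.normSq_eq_norm_sq, hζ]
  norm_num

theorem unit_ne (hζ : ‖ζ‖ = 1) : ζ ≠ 0 := by
  intro h
  rw [h, norm_zero] at hζ
  exact zero_ne_one hζ

theorem one_sub_conj (hζ : ‖ζ‖ = 1) :
    1 - (w * ζ) * conj ((q : ℂ) * ζ) = 1 - (q : ℂ) * w := by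
  rw [map_mul, Complex.conj_ofReal]
  linear_combination (-(w * q)) * conj_unit hζ

theorem k1_rot (hζ : ‖ζ‖ = 1) : k1 ((q : ℂ) * ζ) (w * ζ)
    = (q : ℂ) * w / ((q : ℂ) - w) ^ 2 + (q : ℂ) * w / (1 - (q : ℂ) * w) ^ 2 := by
  have h0 := unit_ne hζ
  rw [k1, one_sub_conj hζ]
  congr 1
  · have e1 : (q : ℂ) * ζ * (w * ζ) = ((q : ℂ) * w) * ζ ^ 2 := by ring
    have e2 : ((q : ℂ) * ζ - w * ζ) ^ 2 = ((q : ℂ) - w) ^ 2 * ζ ^ 2 := by ring
    rw [e1, e2, mul_div_mul_right _ _ (pow_ne_zero 2 h0)]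
  · congr 1
    rw [map_mul, Complex.conj_ofReal]
    linear_combination (q * w) * conj_unit hζ

theorem k3_rot (hζ : ‖ζ‖ = 1) (hq : 0 ≤ q) : k3 ((q : ℂ) * ζ) (w * ζ)
    = (1 - q) * (w * (1 + q) / (((q : ℂ) - w) * (1 - (q : ℂ) * w))) := by
  have h0 := unit_ne hζ
  have hn : ‖(q : ℂ) * ζ‖ = q := by
    rw [norm_mul, hζ, mul_one, Complex.norm_real, Real.norm_of_nonneg hq]
  rw [k3, one_sub_conj hζ, hn]
  have e1 : w * ζ * (1 - (q : ℂ) ^ 2) = ((1 - q) * (w * (1 + q))) * ζ := by ring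
  have e2 : ((q : ℂ) * ζ - w * ζ) * (1 - (q : ℂ) * w)
      = (((q : ℂ) - w) * (1 - (q : ℂ) * w)) * ζ := by ring
  rw [e1, e2, mul_div_mul_right _ _ h0, mul_div_assoc]

theorem k5_rot (hζ : ‖ζ‖ = 1) : k5 ((q : ℂ) * ζ) (w * ζ)
    = I / 2 * (((q : ℂ) + w) / ((q : ℂ) - w) + (1 + (q : ℂ) * w) / (1 - (q : ℂ) * w)) := by
  have h0 := unit_ne hζ
  rw [k5, one_sub_conj hζ]
  have e1 : (q : ℂ) * ζ + w * ζ = ((q : ℂ) + w) * ζ := by ring
  have e2 : (q : ℂ) * ζ - w * ζ = ((q : ℂ) - w) * ζ := by ring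
  have e3 : 1 + (w * ζ) * conj ((q : ℂ) * ζ) = 1 + (q : ℂ) * w := by
    rw [map_mul, Complex.conj_ofReal]
    linear_combination (w * q) * conj_unit hζ
  rw [e1, e2, e3, mul_div_mul_right _ _ h0]

theorem omp_rot (hζ : ‖ζ‖ = 1) : (w * ζ) ^ 2 * (2 * ζ / (ζ ^ 2 - (w * ζ) ^ 2)) ^ 2
    = 4 * w ^ 2 / (1 - w ^ 2) ^ 2 := by
  have h0 := unit_ne hζ
  have e1 : ζ ^ 2 - (w * ζ) ^ 2 = ζ * (ζ * (1 - w ^ 2)) := by ring
  have e2 : 2 * ζ / (ζ ^ 2 - (w * ζ) ^ 2) = 2 / (ζ * (1 - w ^ 2)) := by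
    rw [e1, mul_comm 2 ζ, mul_div_mul_left _ _ h0]
  rw [e2, div_pow, mul_pow, mul_pow]
  have e3 : w ^ 2 * ζ ^ 2 * (2 ^ 2 / (ζ ^ 2 * (1 - w ^ 2) ^ 2))
      = (4 * w ^ 2 * ζ ^ 2) / ((1 - w ^ 2) ^ 2 * ζ ^ 2) := by
    rw [mul_div_assoc']
    congr 1
    · ring
    · ring
  rw [e3, mul_div_mul_right _ _ (pow_ne_zero 2 h0)]

end

/-- data of a pair (target, observer) -/
structure Pr (x θ : ℝ) (z0 : ℂ) : Prop where
  x0 : 0 < x
  x1 : x ≤ 1 / 4
  z1 : ‖z0‖ ≤ Real.exp (-2 * x)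

section

variable {x θ : ℝ} {z0 : ℂ}

/-- the rotated observer -/
noncomputable def rw0 (θ : ℝ) (z0 : ℂ) : ℂ := z0 * Complex.exp (-(θ * I))

theorem rw0_mul (θ : ℝ) (z0 : ℂ) : rw0 θ z0 * Complex.exp (θ * I) = z0 := by
  rw [rw0, mul_assoc, ← Complex.exp_add]
  simp

theorem norm_rw0 (θ : ℝ) (z0 : ℂ) : ‖rw0 θ z0‖ = ‖z0‖ := by
  rw [rw0, norm_mul, Complex.norm_exp]
  simp

theorem norm_one_sub_rw0 (θ : ℝ) (z0 : ℂ) :
    ‖1 - rw0 θ z0‖ = ‖Complex.exp (θ * I) - z0‖ := by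
  have h1 : Complex.exp (θ * I) - z0 = (1 - rw0 θ z0) * Complex.exp (θ * I) := by
    rw [sub_mul, one_mul, rw0_mul]
  rw [h1, norm_mul, Complex.norm_exp_ofReal_mul_I, mul_one]

theorem ep_eq (x θ : ℝ) : ep (-x) θ = ((Real.exp (-x) : ℝ) : ℂ) * Complex.exp (θ * I) := by
  rw [ep, Complex.exp_add, Complex.ofReal_exp]

theorem Pr.q1 (h : Pr x θ z0) : Real.exp (-x) < 1 := by
  rw [Real.exp_lt_one_iff]
  (clear * - h; linarith [h.x0])

theorem Pr.qx (h : Pr x θ z0) : 1 - x ≤ Real.exp (-x) := by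
  have := Real.add_one_le_exp (-x)
  linarith only [this]

theorem Pr.qh (h : Pr x θ z0) : 1 / 2 ≤ Real.exp (-x) := by
  linarith only [h.qx, h.x1]

theorem Pr.w1 (h : Pr x θ z0) : ‖rw0 θ z0‖ ≤ Real.exp (-x) ^ 2 := by
  rw [norm_rw0, ← Real.exp_nat_mul]
  refine h.z1.trans (le_of_eq ?_)
  congr 1
  push_cast
  ring

theorem Pr.wlt (h : Pr x θ z0) : ‖rw0 θ z0‖ < 1 := by
  have h1 := h.w1
  have h2 := h.q1
  have h3 := Real.exp_pos (-x)
  (clear * - h1 h2 h3; nlinarith only [h1, h2, h3])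

theorem Pr.d0 (h : Pr x θ z0) : 0 < ‖Complex.exp (θ * I) - z0‖ := by
  rw [← norm_one_sub_rw0]
  exact ker_d1 h.wlt

/-- `(1 - q) / x` is close to `1` -/
theorem Pr.ratio (h : Pr x θ z0) :
    |(1 - Real.exp (-x)) / x - 1| ≤ 1 - Real.exp (-x) := by
  have hx := h.x0
  have h1 := h.qx
  have h2 : x * Real.exp (-x) ≤ 1 - Real.exp (-x) := by
    have h3 : 1 + x ≤ Real.exp x := by
      have := Real.add_one_le_exp x
      linarith only [this]
    have h4 : (1 + x) * Real.exp (-x) ≤ 1 := by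
      calc (1 + x) * Real.exp (-x) ≤ Real.exp x * Real.exp (-x) := by
            have := Real.exp_pos (-x)
            (clear * - h3; gcongr)
        _ = 1 := by rw [← Real.exp_add]; simp
    (clear * - h4; linarith only [h4])
  rw [abs_le]
  constructor
  · have : Real.exp (-x) ≤ (1 - Real.exp (-x)) / x := by
      rw [le_div_iff₀ hx]
      linarith only [h2]
    (clear * - this; linarith)
  · have : (1 - Real.exp (-x)) / x ≤ 1 := by
      rw [div_le_one hx]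
      linarith only [h1]
    linarith only [h.q1, this]

/-- the cubic error -/
noncomputable def Er (x θ : ℝ) (z0 : ℂ) : ℝ :=
  x * ((1 / (1 - ‖z0‖)) / ‖Complex.exp (θ * I) - z0‖ ^ 2)

theorem Pr.zlt (h : Pr x θ z0) : ‖z0‖ < 1 := by
  have := h.wlt
  rwa [norm_rw0] at this

theorem Pr.er_nn (h : Pr x θ z0) : 0 ≤ Er x θ z0 := by
  have h1 := h.zlt
  have h2 := h.x0
  have h3 : 0 ≤ 1 / (1 - ‖z0‖) := by
    apply div_nonneg one_pos.le
    linarith only [h1]
  unfold Er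
  (clear * - h2 h1; positivity)

theorem Pr.er (h : Pr x θ z0) :
    (1 - Real.exp (-x)) / ‖1 - rw0 θ z0‖ ^ 3 ≤ Er x θ z0 := by
  have h1 := h.zlt
  have h2 := h.x0
  have h3 : 0 < 1 - ‖z0‖ := by linarith only [h1]
  have h4 : 1 - ‖z0‖ ≤ ‖Complex.exp (θ * I) - z0‖ := by
    have := norm_sub_norm_le (Complex.exp (θ * I)) z0
    rwa [Complex.norm_exp_ofReal_mul_I] at this
  have h5 := h.d0
  rw [norm_one_sub_rw0, Er, div_div, mul_one_div]
  have h6 : 1 - Real.exp (-x) ≤ x := by (clear * - h; linarith only [h.qx])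
  rw [div_le_div_iff₀ (by (clear * - h5; positivity)) (by (clear * - h1 h5; positivity))]
  have h7 : 0 ≤ 1 - Real.exp (-x) := by linarith only [h.q1]
  calc (1 - Real.exp (-x)) * ((1 - ‖z0‖) * ‖Complex.exp (θ * I) - z0‖ ^ 2)
      ≤ x * (‖Complex.exp (θ * I) - z0‖ * ‖Complex.exp (θ * I) - z0‖ ^ 2) := by gcongr
    _ = x * ‖Complex.exp (θ * I) - z0‖ ^ 3 := by ring

/-- the model kernel -/
noncomputable def Kw (θ : ℝ) (z0 : ℂ) : ℂ := rw0 θ z0 / (1 - rw0 θ z0) ^ 2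

theorem Pr.k1_le (h : Pr x θ z0) :
    ‖k1 (ep (-x) θ) z0 - 2 * Kw θ z0‖ ≤ 39 * Er x θ z0 := by
  have h1 := ker_k1 h.qh h.q1 h.w1
  have h2 := ker_k2 h.qh h.q1 h.w1
  have h3 := h.er
  have h4 : k1 (ep (-x) θ) z0 - 2 * Kw θ z0
      = (((Real.exp (-x) : ℝ) : ℂ) * rw0 θ z0 / (((Real.exp (-x) : ℝ) : ℂ) - rw0 θ z0) ^ 2
          - rw0 θ z0 / (1 - rw0 θ z0) ^ 2)
        + (((Real.exp (-x) : ℝ) : ℂ) * rw0 θ z0 / (1 - ((Real.exp (-x) : ℝ) : ℂ) * rw0 θ z0) ^ 2
          - rw0 θ z0 / (1 - rw0 θ z0) ^ 2) := by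
    have h5 := k1_rot (ζ := Complex.exp (θ * I)) (w := rw0 θ z0) (q := Real.exp (-x))
      (Complex.norm_exp_ofReal_mul_I θ)
    rw [rw0_mul, ← ep_eq] at h5
    rw [h5, Kw]
    ring
  rw [h4]
  refine (norm_add_le _ _).trans ?_
  have h6 : 27 * (1 - Real.exp (-x)) / ‖1 - rw0 θ z0‖ ^ 3 ≤ 27 * Er x θ z0 := by
    rw [mul_div_assoc]
    (clear * - h3; gcongr)
  have h7 : 12 * (1 - Real.exp (-x)) / ‖1 - rw0 θ z0‖ ^ 3 ≤ 12 * Er x θ z0 := by
    rw [mul_div_assoc]
    gcongr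
  linarith only [h1, h2, h6, h7]

theorem Pr.sq_le (h : Pr x θ z0) :
    (1 - Real.exp (-x)) * (12 / ‖1 - rw0 θ z0‖ ^ 2) ≤ 24 * Er x θ z0 := by
  have h1 := h.er
  have h2 : 0 < ‖1 - rw0 θ z0‖ := ker_d1 h.wlt
  have h3 : ‖1 - rw0 θ z0‖ ≤ 2 := by
    have := norm_sub_le (1 : ℂ) (rw0 θ z0)
    rw [norm_one] at this
    linarith only [h.wlt, this]
  have h4 : 0 ≤ 1 - Real.exp (-x) := by (clear * - h; linarith only [h.q1])
  have h5 : (1 - Real.exp (-x)) * (12 / ‖1 - rw0 θ z0‖ ^ 2)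
      = 12 * ‖1 - rw0 θ z0‖ * ((1 - Real.exp (-x)) / ‖1 - rw0 θ z0‖ ^ 3) := by
    (clear * - h2; field_simp)
  rw [h5]
  calc 12 * ‖1 - rw0 θ z0‖ * ((1 - Real.exp (-x)) / ‖1 - rw0 θ z0‖ ^ 3)
      ≤ 12 * 2 * Er x θ z0 := by gcongr
    _ = 24 * Er x θ z0 := by ring

theorem Pr.k3_eq (h : Pr x θ z0) : k3 (ep (-x) θ) z0
    = (1 - ((Real.exp (-x) : ℝ) : ℂ)) * (rw0 θ z0 * (1 + ((Real.exp (-x) : ℝ) : ℂ)) /
      ((((Real.exp (-x) : ℝ) : ℂ) - rw0 θ z0) * (1 - ((Real.exp (-x) : ℝ) : ℂ) * rw0 θ z0))) := by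
  have h5 := k3_rot (ζ := Complex.exp (θ * I)) (w := rw0 θ z0) (q := Real.exp (-x))
    (Complex.norm_exp_ofReal_mul_I θ) (Real.exp_pos _).le
  rw [rw0_mul, ← ep_eq] at h5
  exact h5

theorem Pr.k3_le (h : Pr x θ z0) : ‖k3 (ep (-x) θ) z0‖ ≤ 24 * Er x θ z0 := by
  rw [h.k3_eq, norm_mul]
  have h1 := ker_k3_le h.qh h.q1 h.w1
  have h2 : ‖(1 : ℂ) - ((Real.exp (-x) : ℝ) : ℂ)‖ = 1 - Real.exp (-x) := by
    have : (1 : ℂ) - ((Real.exp (-x) : ℝ) : ℂ) = ((1 - Real.exp (-x) : ℝ) : ℂ) := by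
      push_cast
      ring
    rw [this, Complex.norm_real, Real.norm_of_nonneg (by (clear * - h; linarith only [h.q1]))]
  rw [h2]
  have h4 : 0 ≤ 1 - Real.exp (-x) := by (clear * - h; linarith only [h.q1])
  exact (mul_le_mul_of_nonneg_left h1 h4).trans h.sq_le

theorem Pr.k3_div (h : Pr x θ z0) :
    ‖k3 (ep (-x) θ) z0 / x - 2 * Kw θ z0‖ ≤ 48 * Er x θ z0 := by
  have hx := h.x0
  set T : ℂ := rw0 θ z0 * (1 + ((Real.exp (-x) : ℝ) : ℂ)) /
      ((((Real.exp (-x) : ℝ) : ℂ) - rw0 θ z0) * (1 - ((Real.exp (-x) : ℝ) : ℂ) * rw0 θ z0)) with hT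
  have h1 := ker_k3_le h.qh h.q1 h.w1
  have h2 := ker_k3 h.qh h.q1 h.w1
  have h3 : k3 (ep (-x) θ) z0 / x - 2 * Kw θ z0
      = (((1 - Real.exp (-x)) / x - 1 : ℝ) : ℂ) * T + (T - 2 * Kw θ z0) := by
    rw [h.k3_eq, ← hT]
    push_cast
    ring
  rw [h3]
  refine (norm_add_le _ _).trans ?_
  have h4 : ‖(((1 - Real.exp (-x)) / x - 1 : ℝ) : ℂ) * T‖ ≤ 24 * Er x θ z0 := by
    rw [norm_mul, Complex.norm_real, Real.norm_eq_abs]
    have h5 : 0 ≤ 1 - Real.exp (-x) := by linarith only [h.q1]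
    calc |(1 - Real.exp (-x)) / x - 1| * ‖T‖
        ≤ (1 - Real.exp (-x)) * (12 / ‖1 - rw0 θ z0‖ ^ 2) := by
          have := h.ratio
          gcongr
      _ ≤ 24 * Er x θ z0 := h.sq_le
  have h5 : ‖T - 2 * Kw θ z0‖ ≤ 24 * Er x θ z0 := by
    refine h2.trans ?_
    rw [mul_div_assoc]
    have := h.er
    (clear * - this; gcongr)
  (clear * - h4 h5; linarith only [h4, h5])

theorem Pr.k5_le (h : Pr x θ z0) :
    ‖k5 (ep (-x) θ) z0‖ ≤ 12 * (1 / ‖Complex.exp (θ * I) - z0‖) := by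
  have h5 := k5_rot (ζ := Complex.exp (θ * I)) (w := rw0 θ z0) (q := Real.exp (-x))
    (Complex.norm_exp_ofReal_mul_I θ)
  rw [rw0_mul, ← ep_eq] at h5
  have h6 := ker_k5 h.qh h.q1 h.w1
  rw [h5, norm_mul, ← norm_one_sub_rw0]
  have h7 : ‖I / 2‖ = 1 / 2 := by simp
  rw [h7]
  calc 1 / 2 * ‖_‖ ≤ 1 / 2 * (24 / ‖1 - rw0 θ z0‖) := by gcongr
    _ = 12 * (1 / ‖1 - rw0 θ z0‖) := by ring

theorem omp_sq (θ : ℝ) (z0 : ℂ) :
    z0 ^ 2 * omp θ z0 ^ 2 = 4 * rw0 θ z0 ^ 2 / (1 - rw0 θ z0 ^ 2) ^ 2 := by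
  have h := omp_rot (ζ := Complex.exp (θ * I)) (w := rw0 θ z0) (Complex.norm_exp_ofReal_mul_I θ)
  rw [rw0_mul] at h
  exact h

theorem Pr.om (h : Pr x θ z0) (hre : 0 ≤ (rw0 θ z0).re) :
    ‖Kw θ z0 - z0 ^ 2 * omp θ z0 ^ 2‖ ≤ 1 := by
  rw [omp_sq, Kw]
  exact ker_om h.wlt hre

/-- size of `omp` -/
theorem Pr.omp_le (h : Pr x θ z0) (hre : 0 ≤ (rw0 θ z0).re) :
    ‖omp θ z0‖ ^ 2 ≤ 1 / ‖Complex.exp (θ * I) - z0‖ ^ 2
      + 2 * (1 / ‖Complex.exp (θ * I) - z0‖) + 1 := by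
  have h1 := h.d0
  set ζ : ℂ := Complex.exp (θ * I) with hζ
  have h2 : 1 ≤ ‖ζ + z0‖ := by
    have h3 : ζ + z0 = (1 + rw0 θ z0) * ζ := by
      rw [add_mul, one_mul, hζ, rw0_mul]
    rw [h3, norm_mul, hζ, Complex.norm_exp_ofReal_mul_I, mul_one]
    have h4 : (1 + rw0 θ z0).re ≤ ‖1 + rw0 θ z0‖ := Complex.re_le_norm _
    rw [Complex.add_re, Complex.one_re] at h4
    linarith
  have h3 : ζ - z0 ≠ 0 := norm_pos_iff.mp h1
  have h4 : ζ + z0 ≠ 0 := by
    rw [← norm_pos_iff]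
    (clear * - h2; linarith only [h2])
  have h5 : omp θ z0 = 1 / (ζ - z0) + 1 / (ζ + z0) := by
    rw [omp, ← hζ, div_add_div _ _ h3 h4]
    congr 1
    · ring
    · ring
  have h6 : ‖omp θ z0‖ ≤ 1 / ‖ζ - z0‖ + 1 := by
    rw [h5]
    refine (norm_add_le _ _).trans ?_
    rw [norm_div, norm_div, norm_one]
    have : 1 / ‖ζ + z0‖ ≤ 1 := by
      rw [div_le_one (by (clear * - h2; linarith only [h2]))]
      exact h2
    linarith only [this]
  calc ‖omp θ z0‖ ^ 2 ≤ (1 / ‖ζ - z0‖ + 1) ^ 2 := by (clear * - h6; gcongr)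
    _ = 1 / ‖ζ - z0‖ ^ 2 + 2 * (1 / ‖ζ - z0‖) + 1 := by
      rw [add_sq, div_pow, one_pow]
      ring

/-- the real part of the rotated observer is positive near `1` -/
theorem rw0_re (hθ : |θ| ≤ 1 / 2) (hz : ‖z0 - 1‖ ≤ 1 / 2) : 0 ≤ (rw0 θ z0).re := by
  have h1 : rw0 θ z0 = Complex.exp (((-θ : ℝ) : ℂ) * I)
      + (z0 - 1) * Complex.exp (((-θ : ℝ) : ℂ) * I) := by
    rw [rw0]
    push_cast
    rw [neg_mul]
    ring
  have h2 : (Complex.exp (((-θ : ℝ) : ℂ) * I)).re = Real.cos θ := by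
    rw [Complex.exp_ofReal_mul_I_re, Real.cos_neg]
  have h3 : -(1 / 2 : ℝ) ≤ ((z0 - 1) * Complex.exp (((-θ : ℝ) : ℂ) * I)).re := by
    have h4 := Complex.abs_re_le_norm ((z0 - 1) * Complex.exp (((-θ : ℝ) : ℂ) * I))
    rw [norm_mul, Complex.norm_exp_ofReal_mul_I, mul_one] at h4
    have h5 := neg_abs_le ((z0 - 1) * Complex.exp (((-θ : ℝ) : ℂ) * I)).re
    (clear * - hz h4 h5; linarith only [hz, h4, h5])
  have h6 : 1 / 2 ≤ Real.cos θ := by
    have h7 := Real.one_sub_sq_div_two_le_cos (x := θ)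
    have h8 : θ ^ 2 ≤ 1 / 4 := by
      rw [← sq_abs]
      (clear * - hθ; nlinarith only [abs_nonneg θ, hθ])
    (clear * - h7 h8; linarith)
  rw [h1, Complex.add_re, h2]
  (clear * - h3 h6; linarith only [h3, h6])

end

end Pool.Agent.Helper14.CK

end

section

namespace Pool.Agent.Helper39.Area
end Pool.Agent.Helper39.Area
namespace Pool.Agent.Helper52.EK
end Pool.Agent.Helper52.EK

/-!
Plane integrals used for the kernels: radial weights against `‖ζ - z‖ ^ (-2)`, and `‖ζ - z‖ ^ (-1)`.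
-/

set_option autoImplicit false

open Complex MeasureTheory Metric Set Filter Topology

open scoped Real ComplexConjugate

namespace Pool.Agent.Helper14.CK

open Pool.Agent.Helper39.Area Pool.Agent.Helper52.EK

/-- polar coordinates on a ball -/
theorem polar_ball {ρ : ℝ} {f : ℂ → ℝ} (hf : ContinuousOn f (closedBall 0 ρ)) :
    ∫ z in ball (0:ℂ) ρ, f z =
      ∫ s in Ioo 0 ρ, ∫ θ in Ioo (-π) π, s * f ((s:ℂ) * Complex.exp (θ * I)) := by
  rw [← integral_indicator measurableSet_ball, ← Complex.integral_comp_polarCoord_symm]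
  have h2 : ∫ p in polarCoord.target, p.1 • (ball (0:ℂ) ρ).indicator f
      (Complex.polarCoord.symm p) = ∫ p in Ioo 0 ρ ×ˢ Ioo (-π) π,
        p.1 * f ((p.1:ℂ) * Complex.exp (p.2 * I)) := by
    have h3 : ∀ p ∈ polarCoord.target, p.1 • (ball (0:ℂ) ρ).indicator f
        (Complex.polarCoord.symm p) = (Ioo 0 ρ ×ˢ Ioo (-π) π).indicator
          (fun p => p.1 * f ((p.1:ℂ) * Complex.exp (p.2 * I))) p := by
      rintro ⟨r, θ⟩ ⟨hr, hθ⟩
      simp only [mem_Ioi] at hr hθ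
      have h4 : Complex.polarCoord.symm (r, θ) = (r:ℂ) * Complex.exp (θ * I) := by
        rw [Complex.polarCoord_symm_apply, Complex.exp_mul_I, Complex.ofReal_cos,
          Complex.ofReal_sin]
      have h5 : ‖Complex.polarCoord.symm (r, θ)‖ = r := by
        rw [h4, norm_mul, Complex.norm_exp_ofReal_mul_I, mul_one, Complex.norm_real,
          Real.norm_of_nonneg hr.le]
      by_cases hrρ : r < ρ
      · rw [indicator_of_mem (by rw [mem_ball, dist_zero_right, h5]; exact hrρ),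
          indicator_of_mem (show (r, θ) ∈ Ioo 0 ρ ×ˢ Ioo (-π) π from ⟨⟨hr, hrρ⟩, hθ⟩), h4,
          smul_eq_mul]
      · rw [indicator_of_notMem (by rw [mem_ball, dist_zero_right, h5]; exact hrρ),
          indicator_of_notMem (fun h : (r, θ) ∈ Ioo 0 ρ ×ˢ Ioo (-π) π => hrρ h.1.2), smul_zero]
    rw [setIntegral_congr_fun polarCoord.open_target.measurableSet h3,
      setIntegral_indicator (measurableSet_Ioo.prod measurableSet_Ioo)]
    congr 2
    apply inter_eq_right.2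
    rintro ⟨r, θ⟩ ⟨hr, hθ⟩
    exact ⟨hr.1, hθ⟩
  rw [h2, Measure.volume_eq_prod, setIntegral_prod]
  have h6 : ContinuousOn (fun p : ℝ × ℝ => p.1 * f ((p.1:ℂ) * Complex.exp (p.2 * I)))
      (Icc 0 ρ ×ˢ Icc (-π) π) := by
    apply continuous_fst.continuousOn.mul
    apply hf.comp (by fun_prop)
    rintro ⟨r, θ⟩ ⟨hr, hθ⟩
    simp only [mem_closedBall, dist_zero_right, norm_mul, Complex.norm_exp_ofReal_mul_I, mul_one,
      Complex.norm_real]
    rw [Real.norm_of_nonneg hr.1]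
    exact hr.2
  have h7 := h6.integrableOn_compact (μ := (volume : Measure (ℝ × ℝ)))
    (isCompact_Icc.prod isCompact_Icc)
  rw [Measure.volume_eq_prod] at h7
  exact h7.mono_set (prod_mono Ioo_subset_Icc_self Ioo_subset_Icc_self)

/-- radial weight against the square kernel -/
theorem int_kernel {ρ : ℝ} (hρ1 : ρ < 1) {g : ℝ → ℝ} (hg : ContinuousOn g (Icc 0 ρ)) (α : ℝ) :
    ∫ z in ball (0:ℂ) ρ, g ‖z‖ / ‖Complex.exp (α * I) - z‖ ^ 2 =
      ∫ s in Ioo 0 ρ, 2 * π * (s * (g s / (1 - s ^ 2))) := by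
  have hne : ∀ z ∈ closedBall (0:ℂ) ρ, ‖Complex.exp (α * I) - z‖ ^ 2 ≠ 0 := by
    intro z hz
    rw [mem_closedBall, dist_zero_right] at hz
    apply pow_ne_zero
    rw [norm_ne_zero_iff, sub_ne_zero]
    rintro rfl
    rw [Complex.norm_exp_ofReal_mul_I] at hz
    linarith only [hρ1, hz]
  rw [polar_ball (f := fun z => g ‖z‖ / ‖Complex.exp (α * I) - z‖ ^ 2)]
  · refine setIntegral_congr_fun measurableSet_Ioo fun s hs => ?_
    have hs1 : s < 1 := hs.2.trans hρ1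
    have h1 : 0 < 1 - s ^ 2 := by (clear * - hs1 hs; nlinarith only [hs.1, hs1])
    have hn : ∀ θ : ℝ, ‖(s:ℂ) * Complex.exp (θ * I)‖ = s := by
      intro θ
      rw [norm_mul, Complex.norm_exp_ofReal_mul_I, mul_one, Complex.norm_real,
        Real.norm_of_nonneg hs.1.le]
    have hep : ∀ θ : ℝ, (s:ℂ) * Complex.exp (θ * I) = ep (Real.log s) θ := by
      intro θ
      rw [ep, Complex.exp_add, ← Complex.ofReal_exp, Real.exp_log hs.1]
    have h2 : ∀ θ : ℝ, s * (g ‖(s:ℂ) * Complex.exp (θ * I)‖ /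
        ‖Complex.exp (α * I) - (s:ℂ) * Complex.exp (θ * I)‖ ^ 2)
        = (s * (g s / (1 - s ^ 2))) * Pk (Complex.exp (α * I)) (ep (Real.log s) θ) := by
      intro θ
      rw [Pk, ← hep θ, hn θ]
      field_simp
    show ∫ θ in Ioo (-π) π, s * (g ‖(s:ℂ) * Complex.exp (θ * I)‖ /
        ‖Complex.exp (α * I) - (s:ℂ) * Complex.exp (θ * I)‖ ^ 2)
        = 2 * π * (s * (g s / (1 - s ^ 2)))
    simp only [h2]
    rw [integral_const_mul, ← integral_Ioc_eq_integral_Ioo,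
      ← intervalIntegral.integral_of_le (by (clear * -; linarith only [Real.pi_pos])),
      Pool.Agent.Helper73.EK.integral_Pk' (Real.log_neg hs.1 hs1)]
    ring
  · apply ContinuousOn.div
    · apply hg.comp continuous_norm.continuousOn
      intro z hz
      rw [mem_closedBall, dist_zero_right] at hz
      exact ⟨norm_nonneg _, hz⟩
    · fun_prop
    · exact hne

/-- `∬ 1 / ‖ζ - z‖²` -/
theorem int_sq {b : ℝ} (hb : 0 < b) (hb1 : b ≤ 1 / 2) (α : ℝ) :
    ∫ z in ball (0:ℂ) (Real.exp (-b)), 1 / ‖Complex.exp (α * I) - z‖ ^ 2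
      ≤ π * Real.log (1 / b) := by
  have hρ1 : Real.exp (-b) < 1 := by
    rw [Real.exp_lt_one_iff]
    linarith only [hb]
  have hρ0 : 0 < Real.exp (-b) := Real.exp_pos _
  have h1 := int_kernel hρ1 (g := fun _ => 1) continuousOn_const α
  rw [h1]
  have h2 : ∫ s in Ioo 0 (Real.exp (-b)), 2 * π * (s * (1 / (1 - s ^ 2)))
      = ∫ s in (0:ℝ)..Real.exp (-b), 2 * π * (s * (1 / (1 - s ^ 2))) := by
    rw [intervalIntegral.integral_of_le hρ0.le, integral_Ioc_eq_integral_Ioo]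
  rw [h2]
  have hpos : ∀ s ∈ uIcc 0 (Real.exp (-b)), 0 < 1 - s ^ 2 := by
    intro s hs
    rw [uIcc_of_le hρ0.le] at hs
    (clear * - hs hρ1; nlinarith only [hs.1, hs.2, hρ1])
  have h3 : ∀ s ∈ uIcc 0 (Real.exp (-b)),
      HasDerivAt (fun s : ℝ => -π * Real.log (1 - s ^ 2)) (2 * π * (s * (1 / (1 - s ^ 2)))) s := by
    intro s hs
    have h4 := hpos s hs
    have h5 : HasDerivAt (fun s : ℝ => 1 - s ^ 2) (-(2 * s)) s := by
      have := ((hasDerivAt_id s).pow 2).const_sub 1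
      convert! this using 1
      simp
    have h6 := (h5.log h4.ne').const_mul (-π)
    convert! h6 using 1
    (clear * - h4; field_simp)
  have hc : ContinuousOn (fun s : ℝ => 2 * π * (s * (1 / (1 - s ^ 2))))
      (uIcc 0 (Real.exp (-b))) := by
    apply continuousOn_const.mul
    apply continuousOn_id.mul
    apply continuousOn_const.div (by fun_prop)
    intro s hs
    exact (hpos s hs).ne'
  rw [intervalIntegral.integral_eq_sub_of_hasDerivAt h3 hc.intervalIntegrable]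
  have h7 : b ≤ 1 - Real.exp (-b) ^ 2 := by
    have h8 : Real.exp (-b) ^ 2 = Real.exp (-(2 * b)) := by
      rw [← Real.exp_nat_mul]
      congr 1
      push_cast
      ring
    rw [h8]
    have h9 : Real.exp (-(2 * b)) * (1 + 2 * b) ≤ 1 := by
      have h10 : 1 + 2 * b ≤ Real.exp (2 * b) := by
        have := Real.add_one_le_exp (2 * b)
        linarith only [this]
      calc Real.exp (-(2 * b)) * (1 + 2 * b) ≤ Real.exp (-(2 * b)) * Real.exp (2 * b) := by (clear * - h10; gcongr)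
        _ = 1 := by rw [← Real.exp_add]; simp
    have h11 : 0 < Real.exp (-(2 * b)) := Real.exp_pos _
    nlinarith only [hb, hb1, h9]
  have h8 : Real.log (1 / b) = - Real.log b := by
    rw [one_div, Real.log_inv]
  have h9 : Real.log b ≤ Real.log (1 - Real.exp (-b) ^ 2) := Real.log_le_log hb h7
  rw [h8]
  simp only [ne_eq, OfNat.ofNat_ne_zero, not_false_eq_true, zero_pow, sub_zero, Real.log_one,
    mul_zero]
  (clear * - h9; nlinarith only [Real.pi_pos, h9])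

/-- `∬ 1 / ((1 - ‖z‖) ‖ζ - z‖²)` -/
theorem int_cube {b : ℝ} (hb : 0 < b) (hb1 : b ≤ 1 / 2) (α : ℝ) :
    ∫ z in ball (0:ℂ) (Real.exp (-b)), (1 / (1 - ‖z‖)) / ‖Complex.exp (α * I) - z‖ ^ 2
      ≤ 4 * π / b := by
  have hρ1 : Real.exp (-b) < 1 := by
    rw [Real.exp_lt_one_iff]
    linarith only [hb]
  have hρ0 : 0 < Real.exp (-b) := Real.exp_pos _
  have hpos' : ∀ s ∈ Icc 0 (Real.exp (-b)), 0 < 1 - s := by
    intro s hs
    (clear * - hs hρ1; linarith only [hs.2, hρ1])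
  have hc1 : ContinuousOn (fun s : ℝ => 1 / (1 - s)) (Icc 0 (Real.exp (-b))) := by
    apply continuousOn_const.div (by fun_prop)
    intro s hs
    exact (hpos' s hs).ne'
  have h1 := int_kernel hρ1 (g := fun s => 1 / (1 - s)) hc1 α
  rw [h1]
  have h2 : ∫ s in Ioo 0 (Real.exp (-b)), 2 * π * (s * (1 / (1 - s) / (1 - s ^ 2)))
      = ∫ s in (0:ℝ)..Real.exp (-b), 2 * π * (s * (1 / (1 - s) / (1 - s ^ 2))) := by
    rw [intervalIntegral.integral_of_le hρ0.le, integral_Ioc_eq_integral_Ioo]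
  rw [h2]
  have hpos : ∀ s ∈ Icc 0 (Real.exp (-b)), 0 < 1 - s ^ 2 := by
    intro s hs
    (clear * - hs hρ1; nlinarith only [hs.1, hs.2, hρ1])
  have hc2 : ContinuousOn (fun s : ℝ => 2 * π * (s * (1 / (1 - s) / (1 - s ^ 2))))
      (uIcc 0 (Real.exp (-b))) := by
    rw [uIcc_of_le hρ0.le]
    apply continuousOn_const.mul
    apply continuousOn_id.mul
    apply hc1.div (by fun_prop)
    intro s hs
    exact (hpos s hs).ne'
  have hc3 : ContinuousOn (fun s : ℝ => 2 * π * (1 / (1 - s) ^ 2)) (uIcc 0 (Real.exp (-b))) := by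
    rw [uIcc_of_le hρ0.le]
    apply continuousOn_const.mul
    apply continuousOn_const.div (by fun_prop)
    intro s hs
    exact (pow_pos (hpos' s hs) 2).ne'
  have h3 : ∫ s in (0:ℝ)..Real.exp (-b), 2 * π * (s * (1 / (1 - s) / (1 - s ^ 2)))
      ≤ ∫ s in (0:ℝ)..Real.exp (-b), 2 * π * (1 / (1 - s) ^ 2) := by
    apply intervalIntegral.integral_mono_on hρ0.le hc2.intervalIntegrable hc3.intervalIntegrable
    intro s hs
    have h4 := hpos' s hs
    have h5 := hpos s hs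
    have h6 : s * (1 / (1 - s) / (1 - s ^ 2)) ≤ 1 / (1 - s) ^ 2 := by
      rw [div_div, mul_one_div, div_le_div_iff₀ (mul_pos h4 h5) (pow_pos h4 2)]
      have h7 : (1 - s) * (1 - s ^ 2) = (1 - s) ^ 2 * (1 + s) := by ring
      rw [h7]
      have h8 : 0 < (1 - s) ^ 2 := pow_pos h4 2
      nlinarith only []
    have := Real.pi_pos
    (clear * - h6; gcongr)
  refine h3.trans ?_
  have h4 : ∀ s ∈ uIcc 0 (Real.exp (-b)),
      HasDerivAt (fun s : ℝ => 2 * π * (1 / (1 - s))) (2 * π * (1 / (1 - s) ^ 2)) s := by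
    intro s hs
    rw [uIcc_of_le hρ0.le] at hs
    have h5 := hpos' s hs
    have h6 : HasDerivAt (fun s : ℝ => 1 - s) (-1) s := (hasDerivAt_id s).const_sub 1
    have h7 := (h6.inv h5.ne').const_mul (2 * π)
    simp only [one_div]
    convert! h7 using 1
    (clear * - h5; field_simp)
  rw [intervalIntegral.integral_eq_sub_of_hasDerivAt h4 hc3.intervalIntegrable]
  have h5 : b / 2 ≤ 1 - Real.exp (-b) := by
    have h9 : Real.exp (-b) * (1 + b) ≤ 1 := by
      have h10 : 1 + b ≤ Real.exp b := by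
        have := Real.add_one_le_exp b
        linarith only [this]
      calc Real.exp (-b) * (1 + b) ≤ Real.exp (-b) * Real.exp b := by gcongr
        _ = 1 := by rw [← Real.exp_add]; simp
    nlinarith only [hb, hb1, h9]
  have h6 : 1 / (1 - Real.exp (-b)) ≤ 2 / b := by
    rw [div_le_div_iff₀ (by linarith only [hρ1]) hb]
    linarith only [h5]
  have h7 : 2 * π * (1 / (1 - Real.exp (-b))) ≤ 2 * π * (2 / b) := by
    have := Real.pi_pos
    (clear * - h6; gcongr)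
  have h8 : 2 * π * (2 / b) = 4 * π / b := by ring
  have h9 : 0 ≤ 2 * π * (1 / (1 - (0:ℝ))) := by
    have := Real.pi_pos
    simp only [sub_zero, div_one, mul_one]
    positivity
  linarith only [h7, h8, h9]

/-- `∬ 1 / ‖ζ - z‖` -/
theorem int_one (ζ : ℂ) (hζ : ‖ζ‖ = 1) {ρ : ℝ} (hρ1 : ρ ≤ 1) :
    IntegrableOn (fun z : ℂ => 1 / ‖ζ - z‖) (ball 0 ρ) ∧
    ∫ z in ball (0:ℂ) ρ, 1 / ‖ζ - z‖ ≤ 4 * π := by
  -- radial function
  set f : ℝ → ℝ := fun y => (Iio (2:ℝ)).indicator (fun y => 1 / y) y with hf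
  have hI : IntegrableOn (fun y : ℝ => y ^ (Module.finrank ℝ ℂ - 1) • f y) (Ioi 0) := by
    have h1 : ∀ y ∈ Ioi (0:ℝ), y ^ (Module.finrank ℝ ℂ - 1) • f y
        = (Ioo (0:ℝ) 2).indicator (fun _ => (1:ℝ)) y := by
      intro y hy
      rw [mem_Ioi] at hy
      rw [Complex.finrank_real_complex, hf]
      simp only
      by_cases hy2 : y < 2
      · rw [indicator_of_mem (show y ∈ Iio (2:ℝ) from hy2),
          indicator_of_mem (show y ∈ Ioo (0:ℝ) 2 from ⟨hy, hy2⟩), smul_eq_mul]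
        simp [hy.ne']
      · rw [indicator_of_notMem (show y ∉ Iio (2:ℝ) from hy2),
          indicator_of_notMem (show y ∉ Ioo (0:ℝ) 2 from fun h => hy2 h.2), smul_zero]
    rw [integrableOn_congr_fun h1 measurableSet_Ioi]
    apply Integrable.integrableOn
    rw [integrable_indicator_iff measurableSet_Ioo]
    exact integrableOn_const (by simp)
  have hI2 : Integrable (fun z : ℂ => f ‖z‖) := (integrable_fun_norm_addHaar volume).mpr hI
  have hval : ∫ z : ℂ, f ‖z‖ = 4 * π := by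
    rw [integral_fun_norm_addHaar volume f]
    have h1 : ∀ y ∈ Ioi (0:ℝ), y ^ (Module.finrank ℝ ℂ - 1) • f y
        = (Ioo (0:ℝ) 2).indicator (fun _ => (1:ℝ)) y := by
      intro y hy
      rw [mem_Ioi] at hy
      rw [Complex.finrank_real_complex, hf]
      simp only
      by_cases hy2 : y < 2
      · rw [indicator_of_mem (show y ∈ Iio (2:ℝ) from hy2),
          indicator_of_mem (show y ∈ Ioo (0:ℝ) 2 from ⟨hy, hy2⟩), smul_eq_mul]
        simp [hy.ne']
      · rw [indicator_of_notMem (show y ∉ Iio (2:ℝ) from hy2),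
          indicator_of_notMem (show y ∉ Ioo (0:ℝ) 2 from fun h => hy2 h.2), smul_zero]
    rw [setIntegral_congr_fun measurableSet_Ioi h1, setIntegral_indicator measurableSet_Ioo]
    have h2 : Ioi (0:ℝ) ∩ Ioo 0 2 = Ioo 0 2 := inter_eq_right.2 fun y hy => hy.1
    rw [h2, Complex.finrank_real_complex]
    have h3 : (volume : Measure ℂ).real (ball (0:ℂ) 1) = π := by
      rw [Measure.real, Complex.volume_ball]
      simp
    rw [h3]
    simp only [integral_const, MeasurableSet.univ, measureReal_restrict_apply, univ_inter,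
      Real.volume_real_Ioo, smul_eq_mul, nsmul_eq_mul]
    norm_num
    ring
  have hI3 : Integrable (fun z : ℂ => f ‖ζ - z‖) := hI2.comp_sub_left ζ
  have hval3 : ∫ z : ℂ, f ‖ζ - z‖ = 4 * π := by
    rw [← hval]
    exact integral_sub_left_eq_self (fun z => f ‖z‖) volume ζ
  have hle : ∀ z ∈ ball (0:ℂ) ρ, f ‖ζ - z‖ = 1 / ‖ζ - z‖ := by
    intro z hz
    rw [mem_ball, dist_zero_right] at hz
    have h1 : ‖ζ - z‖ < 2 := by
      have := norm_sub_le ζ z
      (clear * - hζ hρ1 hz this; linarith only [hζ, hρ1, hz, this])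
    rw [hf]
    simp only
    rw [indicator_of_mem (show ‖ζ - z‖ ∈ Iio (2:ℝ) from h1)]
  have hnn : ∀ z : ℂ, 0 ≤ f ‖ζ - z‖ := by
    intro z
    rw [hf]
    simp only
    by_cases h : ‖ζ - z‖ < 2
    · rw [indicator_of_mem (show ‖ζ - z‖ ∈ Iio (2:ℝ) from h)]
      (clear * -; positivity)
    · rw [indicator_of_notMem (show ‖ζ - z‖ ∉ Iio (2:ℝ) from h)]
  refine ⟨(integrableOn_congr_fun hle measurableSet_ball).mp hI3.integrableOn, ?_⟩
  rw [← setIntegral_congr_fun measurableSet_ball hle, ← hval3]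
  exact setIntegral_le_integral hI3 (Eventually.of_forall hnn)

end Pool.Agent.Helper14.CK

end

section

namespace Pool.Agent.Helper39.Area
end Pool.Agent.Helper39.Area
namespace Pool.Agent.Helper52.EK
end Pool.Agent.Helper52.EK
namespace Pool.Agent.Helper52.CK
end Pool.Agent.Helper52.CK

/-!
The set of observers; continuity of the kernels in (observer, target); integrals over the observers.
-/

set_option autoImplicit false

open Complex MeasureTheory Metric Set Filter Topology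

open scoped Real ComplexConjugate

namespace Pool.Agent.Helper14.CK

open Pool.Agent.Helper39.Area Pool.Agent.Helper52.EK Pool.Agent.Helper52.CK

/-- the observers -/
def Ob (b : ℝ) : Set ℂ :=
  {z | Real.exp (-1) ≤ ‖z‖ ∧ ‖z‖ ≤ Real.exp (-2 * b) ∧ ‖z - 1‖ ≤ 1 / 2}

theorem isClosed_ob (b : ℝ) : IsClosed (Ob b) := by
  apply IsClosed.inter
  · exact isClosed_le continuous_const continuous_norm
  · apply IsClosed.inter
    · exact isClosed_le continuous_norm continuous_const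
    · exact isClosed_le ((continuous_id.sub continuous_const).norm) continuous_const

theorem isCompact_ob (b : ℝ) : IsCompact (Ob b) := by
  apply Metric.isCompact_of_isClosed_isBounded (isClosed_ob b)
  apply (isBounded_closedBall (x := (0:ℂ)) (r := Real.exp (-2 * b))).subset
  intro z hz
  rw [mem_closedBall, dist_zero_right]
  exact hz.2.1

theorem ob_pos {b : ℝ} {z : ℂ} (hz : z ∈ Ob b) : 0 < ‖z‖ := (Real.exp_pos _).trans_le hz.1

theorem ob_lt {b : ℝ} (hb : 0 < b) {z : ℂ} (hz : z ∈ Ob b) : ‖z‖ < 1 := by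
  refine hz.2.1.trans_lt ?_
  rw [Real.exp_lt_one_iff]
  (clear * - hb; linarith only [hb])

theorem ob_sub {b : ℝ} (hb : 0 < b) : Ob b ⊆ ball (0:ℂ) (Real.exp (-b)) := by
  intro z hz
  rw [mem_ball, dist_zero_right]
  refine hz.2.1.trans_lt ?_
  rw [Real.exp_lt_exp]
  linarith only [hb]

theorem ob_pr {b x θ : ℝ} {z : ℂ} (hz : z ∈ Ob b) (hx : 0 < x) (hxb : x ≤ b) (hb : b ≤ 1 / 4) :
    Pr x θ z := by
  refine ⟨hx, hxb.trans hb, hz.2.1.trans ?_⟩
  rw [Real.exp_le_exp]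
  (clear * - hxb; linarith only [hxb])

/-- integral of the error terms over the observers -/
theorem ob_int {b x : ℝ} (θ : ℝ) (hx : 0 < x) (hxb : x ≤ b) (hb1 : b ≤ 1 / 4)
    {A0 A1 A2 A3 : ℝ} (h0 : 0 ≤ A0) (h1 : 0 ≤ A1) (h2 : 0 ≤ A2) (h3 : 0 ≤ A3) :
    IntegrableOn (fun z : ℂ => A0 + A1 * Er x θ z + A2 * (1 / ‖Complex.exp (θ * I) - z‖) +
      A3 * (1 / ‖Complex.exp (θ * I) - z‖ ^ 2)) (Ob b) ∧
    ∫ z in Ob b, (A0 + A1 * Er x θ z + A2 * (1 / ‖Complex.exp (θ * I) - z‖) +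
      A3 * (1 / ‖Complex.exp (θ * I) - z‖ ^ 2)) ≤
      A0 * π + A1 * (4 * π) + A2 * (4 * π) + A3 * (π * Real.log (1 / b)) := by
  have hb : 0 < b := hx.trans_le hxb
  set B : Set ℂ := ball (0:ℂ) (Real.exp (-b)) with hB
  have hr1 : Real.exp (-b) < 1 := by
    rw [Real.exp_lt_one_iff]
    linarith only [hb]
  have hBc : ∀ z ∈ closedBall (0:ℂ) (Real.exp (-b)), ‖z‖ < 1 := by
    intro z hz
    rw [mem_closedBall, dist_zero_right] at hz
    (clear * - hr1 hz; linarith only [hr1, hz])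
  have hne : ∀ z ∈ closedBall (0:ℂ) (Real.exp (-b)), ‖Complex.exp (θ * I) - z‖ ≠ 0 := by
    intro z hz
    rw [norm_ne_zero_iff, sub_ne_zero]
    rintro rfl
    have := hBc _ hz
    rw [Complex.norm_exp_ofReal_mul_I] at this
    exact lt_irrefl _ this
  have hcE : ContinuousOn (fun z => Er x θ z) (closedBall (0:ℂ) (Real.exp (-b))) := by
    unfold Er
    apply continuousOn_const.mul
    apply ContinuousOn.div
    · apply continuousOn_const.div (by fun_prop)
      intro z hz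
      have := hBc z hz
      linarith only [this]
    · fun_prop
    · intro z hz
      exact pow_ne_zero 2 (hne z hz)
  have hc1 : ContinuousOn (fun z : ℂ => 1 / ‖Complex.exp (θ * I) - z‖)
      (closedBall (0:ℂ) (Real.exp (-b))) := by
    apply continuousOn_const.div (by fun_prop) hne
  have hc2 : ContinuousOn (fun z : ℂ => 1 / ‖Complex.exp (θ * I) - z‖ ^ 2)
      (closedBall (0:ℂ) (Real.exp (-b))) := by
    apply continuousOn_const.div (by fun_prop)
    intro z hz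
    exact pow_ne_zero 2 (hne z hz)
  have hcc : IsCompact (closedBall (0:ℂ) (Real.exp (-b))) := isCompact_closedBall _ _
  have hsub : B ⊆ closedBall (0:ℂ) (Real.exp (-b)) := ball_subset_closedBall
  have hi0 : IntegrableOn (fun _ : ℂ => A0) B :=
    (continuousOn_const.integrableOn_compact hcc).mono_set hsub
  have hiE : IntegrableOn (fun z => A1 * Er x θ z) B :=
    ((continuousOn_const.mul hcE).integrableOn_compact hcc).mono_set hsub
  have hi1 : IntegrableOn (fun z : ℂ => A2 * (1 / ‖Complex.exp (θ * I) - z‖)) B :=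
    ((continuousOn_const.mul hc1).integrableOn_compact hcc).mono_set hsub
  have hi2 : IntegrableOn (fun z : ℂ => A3 * (1 / ‖Complex.exp (θ * I) - z‖ ^ 2)) B :=
    ((continuousOn_const.mul hc2).integrableOn_compact hcc).mono_set hsub
  have hi : IntegrableOn (fun z : ℂ => A0 + A1 * Er x θ z +
      A2 * (1 / ‖Complex.exp (θ * I) - z‖) + A3 * (1 / ‖Complex.exp (θ * I) - z‖ ^ 2)) B :=
    ((hi0.add hiE).add hi1).add hi2
  refine ⟨hi.mono_set (ob_sub hb), ?_⟩
  have hEnn : ∀ z ∈ B, 0 ≤ Er x θ z := by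
    intro z hz
    have h4 := hBc z (hsub hz)
    have h5 : 0 ≤ 1 / (1 - ‖z‖) := div_nonneg one_pos.le (by linarith only [h4])
    unfold Er
    (clear * - hx h4; positivity)
  have hmono : ∫ z in Ob b, (A0 + A1 * Er x θ z + A2 * (1 / ‖Complex.exp (θ * I) - z‖) +
      A3 * (1 / ‖Complex.exp (θ * I) - z‖ ^ 2)) ≤
      ∫ z in B, (A0 + A1 * Er x θ z + A2 * (1 / ‖Complex.exp (θ * I) - z‖) +
      A3 * (1 / ‖Complex.exp (θ * I) - z‖ ^ 2)) := by
    apply setIntegral_mono_set hi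
    · filter_upwards [ae_restrict_mem measurableSet_ball] with z hz
      have h4 := hEnn z hz
      simp only [Pi.zero_apply]
      (clear * - h0 h1 h4 h2 h3; positivity)
    · exact (ob_sub hb).eventuallyLE
  refine hmono.trans ?_
  have e1 : ∫ z in B, (A0 + A1 * Er x θ z + A2 * (1 / ‖Complex.exp (θ * I) - z‖) +
      A3 * (1 / ‖Complex.exp (θ * I) - z‖ ^ 2)) =
      (((∫ _ in B, A0) + ∫ z in B, A1 * Er x θ z) +
        ∫ z in B, A2 * (1 / ‖Complex.exp (θ * I) - z‖)) +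
        ∫ z in B, A3 * (1 / ‖Complex.exp (θ * I) - z‖ ^ 2) := by
    have j1 := integral_add hi0 hiE
    have j2 := integral_add (hi0.add hiE) hi1
    have j3 := integral_add ((hi0.add hiE).add hi1) hi2
    simp only [Pi.add_apply] at j1 j2 j3
    rw [j3, j2, j1]
  rw [e1, integral_const_mul, integral_const_mul, integral_const_mul]
  have i0 : ∫ _ in B, A0 ≤ A0 * π := by
    rw [setIntegral_const, smul_eq_mul, mul_comm]
    have h4 : (volume : Measure ℂ).real B ≤ π := by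
      rw [Measure.real, hB, Complex.volume_ball]
      rw [ENNReal.toReal_mul, ENNReal.toReal_pow, ENNReal.toReal_ofReal (Real.exp_pos _).le]
      have h5 : ((NNReal.pi : NNReal) : ENNReal).toReal = π := rfl
      rw [h5]
      have h6 : Real.exp (-b) ^ 2 ≤ 1 := by
        have := Real.exp_pos (-b)
        (clear * - hr1 this; nlinarith only [hr1, this])
      have := Real.pi_pos
      nlinarith only [h6, this]
    exact mul_le_mul_of_nonneg_left h4 h0
  have iE : ∫ z in B, Er x θ z ≤ 4 * π := by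
    unfold Er
    rw [integral_const_mul]
    have h4 := int_cube hb (by linarith only [hb1]) θ
    have h5 : x * (4 * π / b) ≤ 4 * π := by
      rw [mul_div_assoc', div_le_iff₀ hb]
      have := Real.pi_pos
      (clear * - hxb this; nlinarith only [hxb, this])
    exact (mul_le_mul_of_nonneg_left h4 hx.le).trans h5
  have i1 : ∫ z in B, 1 / ‖Complex.exp (θ * I) - z‖ ≤ 4 * π :=
    (int_one (Complex.exp (θ * I)) (Complex.norm_exp_ofReal_mul_I θ) hr1.le).2
  have i2 : ∫ z in B, 1 / ‖Complex.exp (θ * I) - z‖ ^ 2 ≤ π * Real.log (1 / b) :=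
    int_sq hb (by linarith only [hb1]) θ
  have j1 := mul_le_mul_of_nonneg_left iE h1
  have j2 := mul_le_mul_of_nonneg_left i1 h2
  have j3 := mul_le_mul_of_nonneg_left i2 h3
  linarith

/-- pairs (observer, target) -/
def Sp (a b : ℝ) : Set (ℂ × (ℝ × ℝ)) := Ob b ×ˢ (Icc a b ×ˢ univ)

section

variable {a b : ℝ} {β : ℂ → ℂ}

theorem cont_ep : Continuous fun p : ℝ × ℝ => ep (-p.1) p.2 := by
  unfold ep
  fun_prop

theorem sp_z {s : ℂ × (ℝ × ℝ)} (ha : 0 < a) (hs : s ∈ Sp a b) :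
    0 < ‖ep (-s.2.1) s.2.2‖ ∧ ‖ep (-s.2.1) s.2.2‖ < 1 ∧ Real.exp (-b) ≤ ‖ep (-s.2.1) s.2.2‖ := by
  rw [norm_ep]
  refine ⟨Real.exp_pos _, ?_, ?_⟩
  · rw [Real.exp_lt_one_iff]
    have := hs.2.1.1
    (clear * - ha this; linarith only [ha, this])
  · rw [Real.exp_le_exp]
    have := hs.2.1.2
    (clear * - this; linarith only [this])

theorem sp_ne {s : ℂ × (ℝ × ℝ)} (ha : 0 < a) (hb : 0 < b) (hs : s ∈ Sp a b) :
    ep (-s.2.1) s.2.2 - s.1 ≠ 0 := by
  intro h
  have h1 : ep (-s.2.1) s.2.2 = s.1 := sub_eq_zero.mp h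
  have h2 := (sp_z ha hs).2.2
  rw [h1] at h2
  have h3 := hs.1.2.1
  have h4 : Real.exp (-2 * b) < Real.exp (-b) := by
    rw [Real.exp_lt_exp]
    (clear * - hb; linarith only [hb])
  (clear * - h2 h3 h4; linarith only [h2, h3, h4])

theorem sp_ne2 {s : ℂ × (ℝ × ℝ)} (ha : 0 < a) (hb : 0 < b) (hs : s ∈ Sp a b) :
    1 - s.1 * conj (ep (-s.2.1) s.2.2) ≠ 0 := by
  intro h
  have h1 : s.1 * conj (ep (-s.2.1) s.2.2) = 1 := (sub_eq_zero.mp h).symm
  have h2 : ‖s.1 * conj (ep (-s.2.1) s.2.2)‖ = 1 := by rw [h1, norm_one]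
  rw [norm_mul, RCLike.norm_conj] at h2
  have h3 := (sp_z ha hs).2.1
  have h4 := ob_lt hb hs.1
  nlinarith only [norm_nonneg (ep (-s.2.1) s.2.2), h2, h3, h4]

theorem sp_ne3 {s : ℂ × (ℝ × ℝ)} (hb : 0 < b) (hs : s ∈ Sp a b) :
    Complex.exp (s.2.2 * I) ^ 2 - s.1 ^ 2 ≠ 0 := by
  intro h
  have h1 : Complex.exp (s.2.2 * I) ^ 2 = s.1 ^ 2 := sub_eq_zero.mp h
  have h2 := congrArg norm h1
  rw [norm_pow, norm_pow, Complex.norm_exp_ofReal_mul_I] at h2
  have h3 := ob_lt hb hs.1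
  have h4 := norm_nonneg s.1
  nlinarith only [h2, h3, h4]

theorem cont_z : Continuous fun s : ℂ × (ℝ × ℝ) => ep (-s.2.1) s.2.2 :=
  cont_ep.comp continuous_snd

theorem cont_k1 (ha : 0 < a) (hb : 0 < b) :
    ContinuousOn (fun s : ℂ × (ℝ × ℝ) => k1 (ep (-s.2.1) s.2.2) s.1) (Sp a b) := by
  have hz := cont_z
  have hzc : Continuous fun s : ℂ × (ℝ × ℝ) => conj (ep (-s.2.1) s.2.2) :=
    Complex.continuous_conj.comp hz
  unfold k1
  apply ContinuousOn.add
  · apply ContinuousOn.div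
    · fun_prop
    · fun_prop
    · intro s hs
      exact pow_ne_zero 2 (sp_ne ha hb hs)
  · apply ContinuousOn.div
    · fun_prop
    · fun_prop
    · intro s hs
      exact pow_ne_zero 2 (sp_ne2 ha hb hs)

theorem cont_k3 (ha : 0 < a) (hb : 0 < b) :
    ContinuousOn (fun s : ℂ × (ℝ × ℝ) => k3 (ep (-s.2.1) s.2.2) s.1) (Sp a b) := by
  have hz := cont_z
  have hzc : Continuous fun s : ℂ × (ℝ × ℝ) => conj (ep (-s.2.1) s.2.2) :=
    Complex.continuous_conj.comp hz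
  have hzn : Continuous fun s : ℂ × (ℝ × ℝ) => ((‖ep (-s.2.1) s.2.2‖ : ℝ) : ℂ) :=
    Complex.continuous_ofReal.comp hz.norm
  unfold k3
  apply ContinuousOn.div
  · fun_prop
  · fun_prop
  · intro s hs
    exact mul_ne_zero (sp_ne ha hb hs) (sp_ne2 ha hb hs)

theorem cont_k5 (ha : 0 < a) (hb : 0 < b) :
    ContinuousOn (fun s : ℂ × (ℝ × ℝ) => k5 (ep (-s.2.1) s.2.2) s.1) (Sp a b) := by
  have hz := cont_z
  have hzc : Continuous fun s : ℂ × (ℝ × ℝ) => conj (ep (-s.2.1) s.2.2) :=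
    Complex.continuous_conj.comp hz
  unfold k5
  apply continuousOn_const.mul
  apply ContinuousOn.add
  · apply ContinuousOn.div
    · fun_prop
    · fun_prop
    · intro s hs
      exact sp_ne ha hb hs
  · apply ContinuousOn.div
    · fun_prop
    · fun_prop
    · intro s hs
      exact sp_ne2 ha hb hs

theorem cont_omp (hb : 0 < b) :
    ContinuousOn (fun s : ℂ × (ℝ × ℝ) => omp s.2.2 s.1) (Sp a b) := by
  unfold omp
  apply ContinuousOn.div
  · fun_prop
  · fun_prop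
  · intro s hs
    exact sp_ne3 hb hs

/-- the punctured disc -/
def Pd : Set ℂ := {z | 0 < ‖z‖ ∧ ‖z‖ < 1}

theorem pd_ball {z : ℂ} (hz : z ∈ Pd) : z ∈ ball (0:ℂ) 1 := by
  rw [mem_ball, dist_zero_right]
  exact hz.2

theorem pd_ne {z : ℂ} (hz : z ∈ Pd) : z ≠ 0 := norm_pos_iff.mp hz.1

theorem cont_phi (h : Ext β) : ContinuousOn (phi β) Pd := by
  unfold phi
  apply ContinuousOn.add
  · exact continuousOn_id.inv₀ fun z hz => pd_ne hz
  · exact h.diff.continuousOn.mono fun z hz => pd_ball hz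

theorem cont_dphi (h : Ext β) : ContinuousOn (dphi β) Pd := by
  unfold dphi
  apply ContinuousOn.add
  · apply ContinuousOn.neg
    apply ContinuousOn.inv₀ (by fun_prop)
    intro z hz
    exact pow_ne_zero 2 (pd_ne hz)
  · exact (h.diff.deriv isOpen_ball).continuousOn.mono fun z hz => pd_ball hz

theorem sp_pd1 (hb : 0 < b) {s : ℂ × (ℝ × ℝ)} (hs : s ∈ Sp a b) : s.1 ∈ Pd :=
  ⟨ob_pos hs.1, ob_lt hb hs.1⟩

theorem sp_pd2 (ha : 0 < a) {s : ℂ × (ℝ × ℝ)} (hs : s ∈ Sp a b) :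
    ep (-s.2.1) s.2.2 ∈ Pd := ⟨(sp_z ha hs).1, (sp_z ha hs).2.1⟩

theorem cont_kA (h : Ext β) (ha : 0 < a) (hb : 0 < b) :
    ContinuousOn (fun s : ℂ × (ℝ × ℝ) => kA β (ep (-s.2.1) s.2.2) s.1) (Sp a b) := by
  have h1 : ContinuousOn (fun s : ℂ × (ℝ × ℝ) => dphi β s.1) (Sp a b) :=
    (cont_dphi h).comp continuous_fst.continuousOn fun s hs => sp_pd1 hb hs
  have h2 : ContinuousOn (fun s : ℂ × (ℝ × ℝ) => phi β s.1) (Sp a b) :=
    (cont_phi h).comp continuous_fst.continuousOn fun s hs => sp_pd1 hb hs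
  have h3 : ContinuousOn (fun s : ℂ × (ℝ × ℝ) => phi β (ep (-s.2.1) s.2.2)) (Sp a b) :=
    (cont_phi h).comp cont_z.continuousOn fun s hs => sp_pd2 ha hs
  unfold kA
  apply ContinuousOn.pow
  apply h1.div (continuousOn_const.mul (h2.sub h3))
  intro s hs
  apply mul_ne_zero two_ne_zero
  show phi β s.1 - phi β (ep (-s.2.1) s.2.2) ≠ 0
  rw [sub_ne_zero]
  intro h4
  have h5 := h.inj s.1 (ep (-s.2.1) s.2.2) (pd_ball (sp_pd1 hb hs)) (pd_ball (sp_pd2 ha hs))
    (pd_ne (sp_pd1 hb hs)) (pd_ne (sp_pd2 ha hs)) h4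
  exact sp_ne ha hb hs (sub_eq_zero.mpr h5.symm)

/-- continuity of the density -/
theorem cont_FF (h : Ext β) (κ : ℝ) :
    ContinuousOn (fun p : ℝ × ℝ => FF κ β p.1 p.2) {p | 0 < p.1} := by
  have h1 : ContinuousOn (N β) (ball 0 1) := by
    have h2 : ContinuousOn (deriv β) (ball 0 1) := (h.diff.deriv isOpen_ball).continuousOn
    unfold N
    fun_prop
  have hm : ∀ p : ℝ × ℝ, 0 < p.1 → ep (-p.1) p.2 ∈ ball (0:ℂ) 1 := by
    intro p hp
    rw [mem_ball, dist_zero_right, norm_ep, Real.exp_lt_one_iff]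
    linarith
  have h3 : ContinuousOn (fun p : ℝ × ℝ => N β (ep (-p.1) p.2)) {p | 0 < p.1} :=
    h1.comp cont_ep.continuousOn fun p hp => hm p hp
  unfold FF
  intro p hp
  exact (h3 p hp).norm.rpow_const (Or.inl (norm_ne_zero_iff.2 (h.ne _ (hm p hp))))

theorem FF_nn (κ : ℝ) (β : ℂ → ℂ) (x θ : ℝ) : 0 ≤ FF κ β x θ :=
  Real.rpow_nonneg (norm_nonneg _) _

end

end Pool.Agent.Helper14.CK

end

section

namespace Pool.Agent.Helper39.Area
end Pool.Agent.Helper39.Area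
namespace Pool.Agent.Helper52.EK
end Pool.Agent.Helper52.EK
namespace Pool.Agent.Helper52.CK
end Pool.Agent.Helper52.CK

/-!
MINT: the integral of the multiplier term over the targets, at a nearly critical function.
-/

set_option autoImplicit false

open Complex MeasureTheory Metric Set Filter Topology

open scoped Real ComplexConjugate

namespace Pool.Agent.Helper14.CK

open Pool.Agent.Helper39.Area Pool.Agent.Helper52.EK Pool.Agent.Helper52.CK

section

variable {κ dl a b : ℝ} {W0 : ℂ → ℝ} {Mh β : ℂ → ℂ}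

/-- the integrand of `MM` -/
noncomputable def gM (κ dl : ℝ) (W0 : ℂ → ℝ) (Mh β : ℂ → ℂ) (s : ℂ × (ℝ × ℝ)) : ℝ :=
  W0 s.1 * (Mh s.1 * (kA β (ep (-s.2.1) s.2.2) s.1 -
    ((1 + dl / (2 * κ) : ℝ) : ℂ) * omp s.2.2 s.1 ^ 2)).re

theorem cont_Mh (hb : 0 < b) (hM : ContinuousOn Mh {z | 0 < ‖z‖ ∧ ‖z‖ < 1}) :
    ContinuousOn Mh (Ob b) := hM.mono fun _ hz => ⟨ob_pos hz, ob_lt hb hz⟩

theorem cont_gM (h : Ext β) (ha : 0 < a) (hb : 0 < b) (hW : Cutf b W0)
    (hM : ContinuousOn Mh {z | 0 < ‖z‖ ∧ ‖z‖ < 1}) :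
    ContinuousOn (gM κ dl W0 Mh β) (Sp a b) := by
  have h1 : ContinuousOn (fun s : ℂ × (ℝ × ℝ) => Mh s.1) (Sp a b) :=
    (cont_Mh hb hM).comp continuous_fst.continuousOn fun s hs => hs.1
  have h2 : ContinuousOn (fun s : ℂ × (ℝ × ℝ) => W0 s.1) (Sp a b) :=
    (hW.cont.comp continuous_fst).continuousOn
  have h3 := cont_kA h ha hb
  have h4 := cont_omp (a := a) hb
  unfold gM
  apply h2.mul
  apply Complex.continuous_re.comp_continuousOn
  exact h1.mul (h3.sub (continuousOn_const.mul (h4.pow 2)))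

theorem MM_ob (hW : Cutf b W0) (x θ : ℝ) :
    MM κ dl W0 Mh β x θ = π⁻¹ * ∫ z0 in Ob b, gM κ dl W0 Mh β (z0, (x, θ)) := by
  rw [MM]
  congr 1
  symm
  apply setIntegral_eq_integral_of_forall_compl_eq_zero
  intro z hz
  have h0 : W0 z = 0 := by
    by_contra hne
    exact hz (hW.supp z hne)
  simp only [gM, h0, zero_mul]

/-- continuity of `MM` on rectangles -/
theorem MM_contOn (h : Ext β) (ha : 0 < a) (hb : 0 < b) (hW : Cutf b W0)
    (hM : ContinuousOn Mh {z | 0 < ‖z‖ ∧ ‖z‖ < 1}) (c d : ℝ) :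
    ContinuousOn (fun p : ℝ × ℝ => MM κ dl W0 Mh β p.1 p.2) (Icc a b ×ˢ Icc c d) := by
  have hc := cont_gM (κ := κ) (dl := dl) h ha hb hW hM
  have hcomp : IsCompact (Ob b ×ˢ (Icc a b ×ˢ Icc c d)) :=
    (isCompact_ob b).prod (isCompact_Icc.prod isCompact_Icc)
  have hsub : Ob b ×ˢ (Icc a b ×ˢ Icc c d) ⊆ Sp a b :=
    prod_mono subset_rfl (prod_mono subset_rfl (subset_univ _))
  obtain ⟨C, hC⟩ := hcomp.exists_bound_of_continuousOn (hc.mono hsub)
  have h1 : (fun p : ℝ × ℝ => MM κ dl W0 Mh β p.1 p.2)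
      = fun p : ℝ × ℝ => π⁻¹ * ∫ z0 in Ob b, gM κ dl W0 Mh β (z0, p) := by
    funext p
    exact MM_ob hW p.1 p.2
  rw [h1]
  apply continuousOn_const.mul
  refine continuousOn_of_dominated (bound := fun _ => C) ?_ ?_ ?_ ?_
  · intro p hp
    have h2 : ContinuousOn (fun z0 : ℂ => gM κ dl W0 Mh β (z0, p)) (Ob b) :=
      hc.comp (by fun_prop) fun z hz => hsub ⟨hz, hp⟩
    exact h2.aestronglyMeasurable (isClosed_ob b).measurableSet
  · intro p hp
    filter_upwards [ae_restrict_mem (isClosed_ob b).measurableSet] with z hz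
    exact hC (z, p) ⟨hz, hp⟩
  · exact continuousOn_const.integrableOn_compact (isCompact_ob b)
  · filter_upwards [ae_restrict_mem (isClosed_ob b).measurableSet] with z hz
    exact hc.comp (by fun_prop) fun p hp => hsub ⟨hz, hp⟩

/-- the integrand of `EE` -/
noncomputable def Ei (κ : ℝ) (om om' u u' : ℝ → ℝ) (β : ℂ → ℂ) (s : ℂ × (ℝ × ℝ)) : ℂ :=
  ((FF κ β s.2.1 s.2.2 : ℝ) : ℂ) *
    (((κ * (om s.2.1 * u s.2.2) : ℝ) : ℂ) *
        (1 - 4 * s.1 ^ 2 * kA β (ep (-s.2.1) s.2.2) s.1) +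
      (((κ + 2) * (om s.2.1 * u s.2.2) : ℝ) : ℂ) * k1 (ep (-s.2.1) s.2.2) s.1 +
      ((κ * (om s.2.1 * u s.2.2) + om' s.2.1 * u s.2.2 : ℝ) : ℂ) * k3 (ep (-s.2.1) s.2.2) s.1 +
      ((om s.2.1 * u' s.2.2 : ℝ) : ℂ) * k5 (ep (-s.2.1) s.2.2) s.1)

/-- the kernel difference -/
noncomputable def D1 (κ dl : ℝ) (s : ℂ × (ℝ × ℝ)) : ℂ :=
  κ + (κ + 2) * k1 (ep (-s.2.1) s.2.2) s.1 + κ * k3 (ep (-s.2.1) s.2.2) s.1 +
    (κ - 2 + dl) * (k3 (ep (-s.2.1) s.2.2) s.1 / s.2.1) -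
    (4 * κ + 2 * dl) * (s.1 ^ 2 * omp s.2.2 s.1 ^ 2)

/-- what remains -/
noncomputable def Qi (κ dl : ℝ) (om om' u u' : ℝ → ℝ) (β : ℂ → ℂ) (s : ℂ × (ℝ × ℝ)) : ℂ :=
  ((FF κ β s.2.1 s.2.2 : ℝ) : ℂ) *
    (((om s.2.1 * u s.2.2 : ℝ) : ℂ) * D1 κ dl s -
      ((((κ - 2 + dl) * om s.2.1 - s.2.1 * om' s.2.1) * u s.2.2 : ℝ) : ℂ) *
        (k3 (ep (-s.2.1) s.2.2) s.1 / s.2.1) +
      ((om s.2.1 * u' s.2.2 : ℝ) : ℂ) * k5 (ep (-s.2.1) s.2.2) s.1)

theorem key_id (om om' u u' : ℝ → ℝ) (hκ : κ ≠ 0) {s : ℂ × (ℝ × ℝ)} (hx : s.2.1 ≠ 0) :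
    4 * κ * s.1 ^ 2 * ((om s.2.1 * u s.2.2 * FF κ β s.2.1 s.2.2 : ℝ) : ℂ) *
      (kA β (ep (-s.2.1) s.2.2) s.1 - ((1 + dl / (2 * κ) : ℝ) : ℂ) * omp s.2.2 s.1 ^ 2)
      = -Ei κ om om' u u' β s + Qi κ dl om om' u u' β s := by
  have hx' : (s.2.1 : ℂ) ≠ 0 := by exact_mod_cast hx
  have hκ' : (κ : ℂ) ≠ 0 := by exact_mod_cast hκ
  unfold Ei Qi D1
  set K3 := k3 (ep (-s.2.1) s.2.2) s.1 with hK3
  obtain ⟨T, hT⟩ : ∃ T : ℂ, K3 = s.2.1 * T := ⟨K3 / s.2.1, by (clear * - hx'; field_simp)⟩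
  have hT2 : K3 / s.2.1 = T := by
    rw [hT]
    (clear * - hx'; field_simp)
  rw [hT2, hT]
  push_cast
  field_simp
  ring

/-- the multiplier with the cut-off -/
noncomputable def Cm (κ : ℝ) (W0 : ℂ → ℝ) (Mh : ℂ → ℂ) (z0 : ℂ) : ℂ :=
  (W0 z0 : ℂ) * Mh z0 / (4 * π * κ * z0 ^ 2)

theorem Cm_cont (hκ : 0 < κ) (hb : 0 < b) (hW : Cutf b W0)
    (hM : ContinuousOn Mh {z | 0 < ‖z‖ ∧ ‖z‖ < 1}) : ContinuousOn (Cm κ W0 Mh) (Ob b) := by
  unfold Cm
  apply ContinuousOn.div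
  · exact (Complex.continuous_ofReal.comp hW.cont).continuousOn.mul (cont_Mh hb hM)
  · fun_prop
  · intro z hz
    have h1 : z ≠ 0 := norm_pos_iff.mp (ob_pos hz)
    have h2 : (κ : ℂ) ≠ 0 := by exact_mod_cast hκ.ne'
    have h3 : (π : ℂ) ≠ 0 := by exact_mod_cast Real.pi_ne_zero
    exact mul_ne_zero (mul_ne_zero (mul_ne_zero (by norm_num) h3) h2) (pow_ne_zero 2 h1)

theorem Cm_le {Mb : ℝ} (hκ : 0 < κ) (hW : Cutf b W0) (hMb : ∀ z, ‖Mh z‖ ≤ Mb) {z0 : ℂ}
    (hz : z0 ∈ Ob b) : ‖Cm κ W0 Mh z0‖ ≤ Mb / (4 * π * κ) * (1 / ‖z0‖ ^ 2) := by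
  have h0 : 0 ≤ Mb := (norm_nonneg _).trans (hMb 0)
  have h1 := ob_pos hz
  have h2 : ‖(4 : ℂ) * π * κ * z0 ^ 2‖ = 4 * π * κ * ‖z0‖ ^ 2 := by
    rw [norm_mul, norm_mul, norm_mul, norm_pow, Complex.norm_real, Complex.norm_real,
      Real.norm_of_nonneg Real.pi_pos.le, Real.norm_of_nonneg hκ.le, Complex.norm_ofNat]
  have hpi := Real.pi_pos
  rw [Cm, norm_div, norm_mul, h2, Complex.norm_real, Real.norm_of_nonneg (hW.nn z0)]
  calc W0 z0 * ‖Mh z0‖ / (4 * π * κ * ‖z0‖ ^ 2) ≤ 1 * Mb / (4 * π * κ * ‖z0‖ ^ 2) := by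
        gcongr
        · exact hW.le1 z0
        · exact hMb z0
    _ = Mb / (4 * π * κ) * (1 / ‖z0‖ ^ 2) := by
        (clear * - h1 hκ; field_simp)

theorem ob_inv {z0 : ℂ} (hz : z0 ∈ Ob b) : 1 / ‖z0‖ ^ 2 ≤ 9 := by
  have h1 := hz.1
  have h2 : (1:ℝ) / 3 ≤ Real.exp (-1) := by
    rw [Real.exp_neg, one_div]
    apply inv_anti₀ (Real.exp_pos _)
    have := Real.exp_one_lt_d9
    (clear * - this; linarith only [this])
  have h3 : 1 / 3 ≤ ‖z0‖ := h2.trans h1
  rw [div_le_iff₀ (by positivity)]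
  (clear * - h3; nlinarith only [h3])

/-- identity under the integral -/
theorem re_id (hκ : 0 < κ) (om om' u u' : ℝ → ℝ) {s : ℂ × (ℝ × ℝ)} (hx : s.2.1 ≠ 0)
    (hz : s.1 ∈ Ob b) :
    om s.2.1 * u s.2.2 * FF κ β s.2.1 s.2.2 * (π⁻¹ * gM κ dl W0 Mh β s)
      = -(Cm κ W0 Mh s.1 * Ei κ om om' u u' β s).re
        + (Cm κ W0 Mh s.1 * Qi κ dl om om' u u' β s).re := by
  have h1 := key_id (β := β) (dl := dl) om om' u u' hκ.ne' hx
  have hz0 : s.1 ≠ 0 := norm_pos_iff.mp (ob_pos hz)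
  have h2 : (κ : ℂ) ≠ 0 := by exact_mod_cast hκ.ne'
  have h3 : (π : ℂ) ≠ 0 := by exact_mod_cast Real.pi_ne_zero
  have h4 : Cm κ W0 Mh s.1 * (-Ei κ om om' u u' β s + Qi κ dl om om' u u' β s)
      = ((om s.2.1 * u s.2.2 * FF κ β s.2.1 s.2.2 * π⁻¹ * W0 s.1 : ℝ) : ℂ) *
        (Mh s.1 * (kA β (ep (-s.2.1) s.2.2) s.1 -
          ((1 + dl / (2 * κ) : ℝ) : ℂ) * omp s.2.2 s.1 ^ 2)) := by
    rw [← h1, Cm]
    push_cast
    field_simp
  have h5 := congrArg Complex.re h4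
  rw [Complex.re_ofReal_mul, mul_add, mul_neg, Complex.add_re, Complex.neg_re] at h5
  rw [h5, gM]
  ring

/-- bound of the kernel difference -/
theorem D1_le (hκ : 0 < κ) (hdl : 0 ≤ dl) {x θ : ℝ} {z0 : ℂ} (h : Pr x θ z0)
    (hre : 0 ≤ (rw0 θ z0).re) : ‖D1 κ dl (z0, (x, θ))‖
      ≤ (5 * κ + 2 * dl) + (39 * (κ + 2) + 24 * κ + 48 * (κ + 2 + dl)) * Er x θ z0 := by
  have e : D1 κ dl (z0, (x, θ)) = ((κ : ℝ) : ℂ)
      + ((κ + 2 : ℝ) : ℂ) * (k1 (ep (-x) θ) z0 - 2 * Kw θ z0)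
      + ((κ : ℝ) : ℂ) * k3 (ep (-x) θ) z0
      + ((κ - 2 + dl : ℝ) : ℂ) * (k3 (ep (-x) θ) z0 / x - 2 * Kw θ z0)
      + ((4 * κ + 2 * dl : ℝ) : ℂ) * (Kw θ z0 - z0 ^ 2 * omp θ z0 ^ 2) := by
    unfold D1
    push_cast
    ring
  have h1 := h.k1_le
  have h2 := h.k3_le
  have h3 := h.k3_div
  have h4 := h.om hre
  have h5 := h.er_nn
  rw [e]
  refine (norm_add_le _ _).trans ?_
  refine (add_le_add_left ((norm_add_le _ _).trans (add_le_add_left ((norm_add_le _ _).trans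
    (add_le_add_left (norm_add_le _ _) _)) _)) _).trans ?_
  rw [norm_mul, norm_mul, norm_mul, norm_mul, Complex.norm_real, Complex.norm_real,
    Complex.norm_real, Complex.norm_real, Real.norm_of_nonneg hκ.le,
    Real.norm_of_nonneg (show 0 ≤ κ + 2 by linarith only [hκ]),
    Real.norm_of_nonneg (show 0 ≤ 4 * κ + 2 * dl by (clear * - hκ hdl; linarith only [hκ, hdl])), Real.norm_eq_abs]
  have h6 : |κ - 2 + dl| ≤ κ + 2 + dl := by
    rw [abs_le]
    constructor <;> (clear * - hκ hdl; linarith only [hκ, hdl])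
  have g1 : (κ + 2) * ‖k1 (ep (-x) θ) z0 - 2 * Kw θ z0‖ ≤ (κ + 2) * (39 * Er x θ z0) := by
    (clear * - h1 hκ; gcongr)
  have g2 : κ * ‖k3 (ep (-x) θ) z0‖ ≤ κ * (24 * Er x θ z0) := by (clear * - h2 hκ; gcongr)
  have g3 : |κ - 2 + dl| * ‖k3 (ep (-x) θ) z0 / x - 2 * Kw θ z0‖
      ≤ (κ + 2 + dl) * (48 * Er x θ z0) := by
    (clear * - h6 h3 hκ hdl; gcongr)
  have g4 : (4 * κ + 2 * dl) * ‖Kw θ z0 - z0 ^ 2 * omp θ z0 ^ 2‖ ≤ (4 * κ + 2 * dl) * 1 := by
    gcongr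
  linarith only [g1, g2, g3, g4]

/-- bound of `k3 / x` -/
theorem k3x_le {x θ : ℝ} {z0 : ℂ} (h : Pr x θ z0) (hre : 0 ≤ (rw0 θ z0).re) :
    ‖k3 (ep (-x) θ) z0 / x‖ ≤ (2 + 48 * Er x θ z0) + 2 * ‖z0‖ ^ 2 * ‖omp θ z0‖ ^ 2 := by
  have e : k3 (ep (-x) θ) z0 / x = (k3 (ep (-x) θ) z0 / x - 2 * Kw θ z0)
      + 2 * (Kw θ z0 - z0 ^ 2 * omp θ z0 ^ 2) + 2 * (z0 ^ 2 * omp θ z0 ^ 2) := by ring
  have h3 := h.k3_div
  have h4 := h.om hre
  rw [e]
  refine (norm_add_le _ _).trans ?_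
  refine (add_le_add_left (norm_add_le _ _) _).trans ?_
  rw [norm_mul, norm_mul, norm_mul, norm_pow, norm_pow, Complex.norm_ofNat]
  linarith only [h3, h4]

/-- pointwise bound of the remaining term -/
theorem Q_le {Mb : ℝ} (hκ : 0 < κ) (hdl : 0 ≤ dl) (hW : Cutf b W0) (hMb : ∀ z, ‖Mh z‖ ≤ Mb)
    {om om' u u' : ℝ → ℝ} (hu : ∀ θ, 0 ≤ u θ) (hom : ∀ x, 0 ≤ om x)
    {x θ : ℝ} {z0 : ℂ} (hz : z0 ∈ Ob b) (h : Pr x θ z0)
    (hre : u θ ≠ 0 → 0 ≤ (rw0 θ z0).re) :
    (Cm κ W0 Mh z0 * Qi κ dl om om' u u' β (z0, (x, θ))).re ≤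
      FF κ β x θ * (Mb / (4 * π * κ)) *
        ((om x * u θ * (9 * (5 * κ + 2 * dl)) +
            |(κ - 2 + dl) * om x - x * om' x| * u θ * 20) +
          (om x * u θ * (9 * (39 * (κ + 2) + 24 * κ + 48 * (κ + 2 + dl))) +
            |(κ - 2 + dl) * om x - x * om' x| * u θ * 432) * Er x θ z0 +
          (|(κ - 2 + dl) * om x - x * om' x| * u θ * 4 + om x * |u' θ| * 108) *
            (1 / ‖Complex.exp (θ * I) - z0‖) +
          (|(κ - 2 + dl) * om x - x * om' x| * u θ * 2) *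
            (1 / ‖Complex.exp (θ * I) - z0‖ ^ 2)) := by
  have hMb0 : 0 ≤ Mb := (norm_nonneg _).trans (hMb 0)
  have hpi := Real.pi_pos
  have hF := FF_nn κ β x θ
  have hC := Cm_le hκ hW hMb hz
  have hinv := ob_inv hz
  have hz1 := ob_pos hz
  have hEr := h.er_nn
  set σ : ℝ := |(κ - 2 + dl) * om x - x * om' x| with hσ
  have hσ0 : 0 ≤ σ := abs_nonneg _
  set A : ℝ := Mb / (4 * π * κ) with hA
  have hA0 : 0 ≤ A := by (clear * - hMb0 hκ; positivity)
  set d1 : ℝ := 1 / ‖Complex.exp (θ * I) - z0‖ with hd1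
  set d2 : ℝ := 1 / ‖Complex.exp (θ * I) - z0‖ ^ 2 with hd2
  have hd10 : 0 ≤ d1 := by (clear * -; positivity)
  have hd20 : 0 ≤ d2 := by (clear * -; positivity)
  have hQ : ‖Qi κ dl om om' u u' β (z0, (x, θ))‖ ≤ FF κ β x θ *
      (om x * (u θ * ‖D1 κ dl (z0, (x, θ))‖) + σ * (u θ * ‖k3 (ep (-x) θ) z0 / x‖) +
        om x * |u' θ| * ‖k5 (ep (-x) θ) z0‖) := by
    unfold Qi
    rw [norm_mul, Complex.norm_real, Real.norm_of_nonneg hF]
    apply mul_le_mul_of_nonneg_left _ hF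
    refine (norm_add_le _ _).trans ?_
    refine (add_le_add_left (norm_sub_le _ _) _).trans ?_
    rw [norm_mul, norm_mul, norm_mul, Complex.norm_real, Complex.norm_real, Complex.norm_real,
      Real.norm_eq_abs, Real.norm_eq_abs, Real.norm_eq_abs, abs_mul, abs_mul, abs_mul,
      abs_of_nonneg (hom x), abs_of_nonneg (hu θ), mul_assoc, mul_assoc]
  have g1 : u θ * ‖D1 κ dl (z0, (x, θ))‖ ≤ u θ * ((5 * κ + 2 * dl) +
      (39 * (κ + 2) + 24 * κ + 48 * (κ + 2 + dl)) * Er x θ z0) := by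
    by_cases h0 : u θ = 0
    · rw [h0, zero_mul, zero_mul]
    · exact mul_le_mul_of_nonneg_left (D1_le hκ hdl h (hre h0)) (hu θ)
  have g2 : u θ * ‖k3 (ep (-x) θ) z0 / x‖ ≤ u θ * ((2 + 48 * Er x θ z0) +
      2 * ‖z0‖ ^ 2 * (d2 + 2 * d1 + 1)) := by
    by_cases h0 : u θ = 0
    · rw [h0, zero_mul, zero_mul]
    · apply mul_le_mul_of_nonneg_left _ (hu θ)
      refine (k3x_le h (hre h0)).trans ?_
      have h6 := h.omp_le (hre h0)
      have h7 : 2 * ‖z0‖ ^ 2 * ‖omp θ z0‖ ^ 2 ≤ 2 * ‖z0‖ ^ 2 * (d2 + 2 * d1 + 1) := by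
        (clear * - h6 hz1; gcongr)
      linarith only [h7]
  have g3 : ‖k5 (ep (-x) θ) z0‖ ≤ 12 * d1 := h.k5_le
  have hu0 := hu θ
  have hom0 := hom x
  have hB : 0 ≤ om x * (u θ * ((5 * κ + 2 * dl) +
      (39 * (κ + 2) + 24 * κ + 48 * (κ + 2 + dl)) * Er x θ z0)) +
      σ * (u θ * ((2 + 48 * Er x θ z0) + 2 * ‖z0‖ ^ 2 * (d2 + 2 * d1 + 1))) +
      om x * |u' θ| * (12 * d1) := by (clear * - hom0 hu0 hκ hdl hEr hz1; positivity)
  calc (Cm κ W0 Mh z0 * Qi κ dl om om' u u' β (z0, (x, θ))).re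
      ≤ ‖Cm κ W0 Mh z0 * Qi κ dl om om' u u' β (z0, (x, θ))‖ := Complex.re_le_norm _
    _ = ‖Cm κ W0 Mh z0‖ * ‖Qi κ dl om om' u u' β (z0, (x, θ))‖ := norm_mul _ _
    _ ≤ (A * (1 / ‖z0‖ ^ 2)) * (FF κ β x θ *
      (om x * (u θ * ((5 * κ + 2 * dl) +
      (39 * (κ + 2) + 24 * κ + 48 * (κ + 2 + dl)) * Er x θ z0)) +
      σ * (u θ * ((2 + 48 * Er x θ z0) + 2 * ‖z0‖ ^ 2 * (d2 + 2 * d1 + 1))) +
      om x * |u' θ| * (12 * d1))) := by
        apply mul_le_mul hC _ (norm_nonneg _) (by (clear * - hMb0 hκ hz1; positivity))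
        refine hQ.trans ?_
        apply mul_le_mul_of_nonneg_left _ hF
        (clear * - g1 hom0 g2 g3; gcongr)
    _ = FF κ β x θ * A * ((1 / ‖z0‖ ^ 2) * (om x * (u θ * ((5 * κ + 2 * dl) +
      (39 * (κ + 2) + 24 * κ + 48 * (κ + 2 + dl)) * Er x θ z0))) +
      (1 / ‖z0‖ ^ 2) * (σ * (u θ * (2 + 48 * Er x θ z0))) +
      (‖z0‖ ^ 2 / ‖z0‖ ^ 2) * (σ * (u θ * (2 * (d2 + 2 * d1 + 1)))) +
      (1 / ‖z0‖ ^ 2) * (om x * |u' θ| * (12 * d1))) := by ring
    _ ≤ FF κ β x θ * A * (9 * (om x * (u θ * ((5 * κ + 2 * dl) +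
      (39 * (κ + 2) + 24 * κ + 48 * (κ + 2 + dl)) * Er x θ z0))) +
      9 * (σ * (u θ * (2 + 48 * Er x θ z0))) +
      1 * (σ * (u θ * (2 * (d2 + 2 * d1 + 1)))) +
      9 * (om x * |u' θ| * (12 * d1))) := by
        have h8 : ‖z0‖ ^ 2 / ‖z0‖ ^ 2 = 1 := div_self (by positivity)
        rw [h8]
        (clear * - hinv hom0 hu0 hκ hdl hEr hF hMb0; gcongr)
    _ = _ := by ring

/-- the integral over the observers -/
theorem Qint_le {Mb : ℝ} (hκ : 0 < κ) (hdl : 0 ≤ dl) (hW : Cutf b W0) (hMb : ∀ z, ‖Mh z‖ ≤ Mb)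
    {om om' u u' : ℝ → ℝ} (hu : ∀ θ, 0 ≤ u θ) (hom : ∀ x, 0 ≤ om x)
    {x θ : ℝ} (hx : 0 < x) (hxb : x ≤ b) (hb1 : b ≤ 1 / 4) (huθ : u θ ≠ 0 → |θ| ≤ 1 / 2)
    (hI : IntegrableOn (fun z0 => (Cm κ W0 Mh z0 * Qi κ dl om om' u u' β (z0, (x, θ))).re)
      (Ob b)) :
    ∫ z0 in Ob b, (Cm κ W0 Mh z0 * Qi κ dl om om' u u' β (z0, (x, θ))).re ≤
      FF κ β x θ *
        (om x * u θ * (9 * Mb / (4 * κ) *
            ((5 * κ + 2 * dl) + 4 * (39 * (κ + 2) + 24 * κ + 48 * (κ + 2 + dl)))) +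
          |(κ - 2 + dl) * om x - x * om' x| * u θ * (Mb / (2 * κ) * (-Real.log b + 882)) +
          om x * |u' θ| * (Mb / κ * 108)) := by
  have hMb0 : 0 ≤ Mb := (norm_nonneg _).trans (hMb 0)
  have hpi := Real.pi_pos
  have hF := FF_nn κ β x θ
  have hu0 := hu θ
  have hom0 := hom x
  set σ : ℝ := |(κ - 2 + dl) * om x - x * om' x| with hσ
  have hσ0 : 0 ≤ σ := abs_nonneg _
  set A : ℝ := Mb / (4 * π * κ) with hA
  have hA0 : 0 ≤ A := by (clear * - hMb0 hκ; positivity)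
  obtain ⟨hi, hle⟩ := ob_int (x := x) θ hx hxb hb1
    (A0 := om x * u θ * (9 * (5 * κ + 2 * dl)) + σ * u θ * 20)
    (A1 := om x * u θ * (9 * (39 * (κ + 2) + 24 * κ + 48 * (κ + 2 + dl))) + σ * u θ * 432)
    (A2 := σ * u θ * 4 + om x * |u' θ| * 108) (A3 := σ * u θ * 2)
    (by (clear * - hom0 hu0 hκ hdl; positivity)) (by (clear * - hom0 hu0 hκ hdl; positivity)) (by (clear * - hu0 hom0; positivity)) (by (clear * - hu0; positivity))
  have h1 : ∫ z0 in Ob b, (Cm κ W0 Mh z0 * Qi κ dl om om' u u' β (z0, (x, θ))).re ≤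
      ∫ z0 in Ob b, FF κ β x θ * A *
        ((om x * u θ * (9 * (5 * κ + 2 * dl)) + σ * u θ * 20) +
          (om x * u θ * (9 * (39 * (κ + 2) + 24 * κ + 48 * (κ + 2 + dl))) + σ * u θ * 432) *
            Er x θ z0 +
          (σ * u θ * 4 + om x * |u' θ| * 108) * (1 / ‖Complex.exp (θ * I) - z0‖) +
          (σ * u θ * 2) * (1 / ‖Complex.exp (θ * I) - z0‖ ^ 2)) := by
    apply setIntegral_mono_on hI (hi.const_mul _) (isClosed_ob b).measurableSet
    intro z0 hz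
    exact Q_le hκ hdl hW hMb hu hom hz (ob_pr hz hx hxb hb1)
      (fun h0 => rw0_re (huθ h0) hz.2.2)
  refine h1.trans ?_
  rw [integral_const_mul]
  refine (mul_le_mul_of_nonneg_left hle (by (clear * - hF hMb0 hκ; positivity))).trans (le_of_eq ?_)
  rw [one_div, Real.log_inv, hA]
  field_simp
  ring

end

end Pool.Agent.Helper14.CK

end
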