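import Pool.Agent.Helper60.BE.T03
import Pool.Agent.Helper60.BE.T02

set_option linter.all false

section

namespace Pool.EK71
end Pool.EK71
namespace Pool.Agent.Helper52.EK
end Pool.Agent.Helper52.EK
namespace Pool.Agent.Helper2.EK
end Pool.Agent.Helper2.EK
namespace Pool.Agent.Helper71.EK3
end Pool.Agent.Helper71.EK3
namespace Pool.Agent.Helper71.EKC
end Pool.Agent.Helper71.EKC

set_option autoImplicit false

open Complex MeasureTheory Metric Set

open scoped Real ComplexConjugate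

namespace Pool.Agent.Helper69.EK3

open Pool.EK71 Pool.Agent.Helper52.EK Pool.Agent.Helper2.EK

open Pool.Agent.Helper71.EK3 Pool.Agent.Helper71.EKC

/-- total degree at most `d` -/
def dle : ℕ → BP → Bool
  | _, [] => true
  | 0, r :: P => decide (r.length ≤ 1) && (P.all fun r => decide (r.length = 0))
  | d + 1, r :: P => decide (r.length ≤ d + 2) && dle d P

/-- sums of the absolute values of the coefficients -/
noncomputable def nr1 : List ℤ → ℝ
  | [] => 0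
  | c :: r => |(c : ℝ)| + nr1 r

noncomputable def nr2 : BP → ℝ
  | [] => 0
  | r :: P => nr1 r + nr2 P

theorem nr1_nonneg (r : List ℤ) : 0 ≤ nr1 r := by
  induction r with
  | nil => simp [nr1]
  | cons c r ih =>
    simp only [nr1]
    (clear * - ih; positivity)

theorem nr2_nonneg (P : BP) : 0 ≤ nr2 P := by
  induction P with
  | nil => simp [nr2]
  | cons r P ih =>
    simp only [nr2]
    exact add_nonneg (nr1_nonneg r) ih

theorem ev1_le {T y : ℝ} (hT : 1 ≤ T) (hy : |y| ≤ T) (d : ℕ) (r : List ℤ) (h : r.length ≤ d + 1) :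
    |ev1 y r| ≤ nr1 r * T ^ d := by
  induction r generalizing d with
  | nil => simp [ev1, nr1]
  | cons c r ih =>
    simp only [ev1, nr1]
    have hT0 : 0 ≤ T := by (clear * - hT; linarith only [hT])
    have hTd : 1 ≤ T ^ d := one_le_pow₀ hT
    have h1 := abs_add_le (c : ℝ) (y * ev1 y r)
    rw [abs_mul] at h1
    have h2 : |y| * |ev1 y r| ≤ nr1 r * T ^ d := by
      cases r with
      | nil => simp [ev1, nr1]
      | cons c' r' =>
        cases d with
        | zero => simp at h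
        | succ d =>
          have h3 := ih d (by simp only [List.length_cons] at h ⊢; omega)
          calc |y| * |ev1 y (c' :: r')| ≤ T * (nr1 (c' :: r') * T ^ d) :=
                mul_le_mul hy h3 (abs_nonneg _) hT0
            _ = _ := by rw [pow_succ]; ring
    have h4 : |(c : ℝ)| ≤ |(c : ℝ)| * T ^ d := le_mul_of_one_le_right (abs_nonneg _) hTd
    have e : (|(c : ℝ)| + nr1 r) * T ^ d = |(c : ℝ)| * T ^ d + nr1 r * T ^ d := by ring
    rw [e]
    linarith only [h1, h2, h4]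

theorem ev2_zero (x y : ℝ) (P : BP) (h : (P.all fun r => decide (r.length = 0)) = true) :
    ev2 x y P = 0 := by
  induction P with
  | nil => simp [ev2]
  | cons r P ih =>
    simp only [List.all_cons, Bool.and_eq_true, decide_eq_true_eq] at h
    have hr : r = [] := List.length_eq_zero_iff.1 h.1
    simp only [ev2, hr, ev1, ih h.2]
    ring

theorem ev2_le' {T x y : ℝ} (hT : 1 ≤ T) (hx : |x| ≤ T) (hy : |y| ≤ T) (d : ℕ) (P : BP)
    (h : dle d P = true) : |ev2 x y P| ≤ nr2 P * T ^ d := by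
  have hT0 : 0 ≤ T := by linarith only [hT]
  induction P generalizing d with
  | nil => simp [ev2, nr2]
  | cons r P ih =>
    cases d with
    | zero =>
      simp only [dle, Bool.and_eq_true, decide_eq_true_eq] at h
      have h1 := ev1_le hT hy 0 r (by omega)
      have h2 := ev2_zero x y P h.2
      simp only [ev2, h2, mul_zero, add_zero, nr2]
      refine h1.trans ?_
      have h3 : 0 ≤ nr2 P := nr2_nonneg P
      simp only [pow_zero, mul_one]
      (clear * - h3; linarith only [h3])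
    | succ d =>
      simp only [dle, Bool.and_eq_true, decide_eq_true_eq] at h
      have h1 := ev1_le hT hy (d + 1) r (by omega)
      have h2 := ih d h.2
      have h3 := abs_add_le (ev1 y r) (x * ev2 x y P)
      rw [abs_mul] at h3
      have h4 : |x| * |ev2 x y P| ≤ T * (nr2 P * T ^ d) := mul_le_mul hx h2 (abs_nonneg _) hT0
      simp only [ev2, nr2]
      refine h3.trans ?_
      have e : (nr1 r + nr2 P) * T ^ (d + 1) = nr1 r * T ^ (d + 1) + T * (nr2 P * T ^ d) := by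
        rw [pow_succ]
        ring
      rw [e]
      (clear * - h1 h4; linarith only [h1, h4])

theorem C1c_real {W Wx Wy : ℂ → ℝ} (h : C1f W Wx Wy) :
    C1c (fun X => (W X : ℂ)) (fun X => (Wx X : ℂ)) (fun X => (Wy X : ℂ)) := by
  refine ⟨fun X _ => ?_, ?_, ?_⟩
  · have h1 := ofRealCLM.hasFDerivAt.comp X (h.hd X)
    refine h1.congr_fderiv ?_
    ext v
    simp
    ring
  · exact (Complex.continuous_ofReal.comp h.cx).continuousOn
  · exact (Complex.continuous_ofReal.comp h.cy).continuousOn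

theorem C1c_I {W Wx Wy : ℂ → ℝ} (h : C1f W Wx Wy) :
    C1c (fun X => I * (W X : ℂ)) (fun X => I * (Wx X : ℂ)) (fun X => I * (Wy X : ℂ)) := by
  have h0 := C1c_real h
  refine ⟨fun X hX => ?_, ?_, ?_⟩
  · have h1 := (h0.hd X hX).const_mul I
    refine h1.congr_fderiv ?_
    ext v
    simp
    ring
  · exact continuousOn_const.mul h0.cx
  · exact continuousOn_const.mul h0.cy

theorem C1c_holo {F F' : ℂ → ℂ} (h : ∀ X, HasDerivAt F (F' X) X) (hc : Continuous F') :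
    C1c F F' (fun X => I * F' X) := by
  refine ⟨fun X _ => ?_, hc.continuousOn, (continuous_const.mul hc).continuousOn⟩
  have h1 : HasFDerivAt F ((ContinuousLinearMap.toSpanSingleton ℂ (F' X)).restrictScalars ℝ) X :=
    ((h X).hasFDerivAt).restrictScalars ℝ
  refine h1.congr_fderiv ?_
  ext v
  simp
  linear_combination -(F' X) * (re_add_im v)

end Pool.Agent.Helper69.EK3

end

section

namespace Pool.EK71
end Pool.EK71
namespace Pool.Agent.Helper52.EK
end Pool.Agent.Helper52.EK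
namespace Pool.Agent.Helper2.EK
end Pool.Agent.Helper2.EK
namespace Pool.Agent.Helper69.EK3
end Pool.Agent.Helper69.EK3
namespace Pool.Agent.Helper71.EK3
end Pool.Agent.Helper71.EK3
namespace Pool.Agent.Helper71.EKC
end Pool.Agent.Helper71.EKC

set_option autoImplicit false

open Complex MeasureTheory Metric Set

open scoped Real ComplexConjugate

namespace Pool.Agent.Helper69.EK5

open Pool.EK71 Pool.Agent.Helper52.EK Pool.Agent.Helper2.EK

open Pool.Agent.Helper69.EK3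

open Pool.Agent.Helper71.EK3 (xL yL r2L FL G2L e_x e_y e_r2 e_F e_G2 c1_sh)

open Pool.Agent.Helper71.EKC (c1_unique sb2 pw2 e_sb e_pw)

/-- `D = A (Re X - 1)² + E (Im X)² + B (Re X - 1) + C` -/
structure DQ where
  A : ℤ
  E : ℤ
  B : ℤ
  C : ℤ
  hA : 0 < A
  hE : 0 < E
  hB : B ^ 2 < 4 * (A * C)

noncomputable def Dd (d : DQ) (x y : ℝ) : ℝ :=
  d.A * (x - 1) ^ 2 + d.E * y ^ 2 + d.B * (x - 1) + d.C

theorem Dd_low (d : DQ) : ∃ k : ℝ, 0 < k ∧ ∀ x y : ℝ,
    1 + ((x - 1) ^ 2 + y ^ 2) ≤ k * Dd d x y := by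
  have hA : (0:ℝ) < d.A := by exact_mod_cast d.hA
  have hE1 : (0:ℝ) < d.E := by exact_mod_cast d.hE
  have hB : (d.B : ℝ) ^ 2 < 4 * (d.A * d.C) := by exact_mod_cast d.hB
  have hC : (0:ℝ) < d.C := by
    by_contra h
    nlinarith only [hA, hB, h]
  obtain ⟨E, hE⟩ : ∃ E : ℝ, E = 4 * (d.A * d.C) - (d.B : ℝ) ^ 2 := ⟨_, rfl⟩
  have hE0 : 0 < E := by rw [hE]; (clear * - hB; linarith)
  have h0 : ∀ x : ℝ, 1 + (x - 1) ^ 2 ≤ 4 * (d.A + d.C) / E * (d.A * (x - 1) ^ 2 + d.B * (x - 1) + d.C) := by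
    intro x
    rw [div_mul_eq_mul_div, le_div_iff₀ hE0]
    have h1 : 0 ≤ 4 * (((d.A : ℝ) + d.C) * (d.A * (x - 1) ^ 2 + d.B * (x - 1) + d.C)) -
        E * (1 + (x - 1) ^ 2) := by
      have e : 4 * (((d.A : ℝ) + d.C) * (d.A * (x - 1) ^ 2 + d.B * (x - 1) + d.C)) -
        E * (1 + (x - 1) ^ 2) = (2 * d.A * (x - 1) + d.B) ^ 2 + (2 * d.C + d.B * (x - 1)) ^ 2 := by
        rw [hE]
        ring
      rw [e]
      (clear * -; positivity)
    linarith only [h1]
  refine ⟨4 * (d.A + d.C) / E + 1 / d.E, by positivity, fun x y => ?_⟩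
  have h1 := h0 x
  have hq : 0 ≤ d.A * (x - 1) ^ 2 + d.B * (x - 1) + d.C := by
    have h2 : 0 < 4 * ((d.A : ℝ) + d.C) / E := by positivity
    have h3 : 0 < 4 * ((d.A : ℝ) + d.C) / E * (d.A * (x - 1) ^ 2 + d.B * (x - 1) + d.C) := by
      nlinarith only [h1]
    exact ((mul_pos_iff_of_pos_left h2).1 h3).le
  have h2 : 1 / (d.E : ℝ) * (d.E * y ^ 2) = y ^ 2 := by
    field_simp
  have h3 : 0 ≤ 4 * ((d.A : ℝ) + d.C) / E * (d.E * y ^ 2) := by (clear * - hA hC hE0 hE1; positivity)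
  have h4 : 0 ≤ 1 / (d.E : ℝ) * (d.A * (x - 1) ^ 2 + d.B * (x - 1) + d.C) := by (clear * - hE1 hq; positivity)
  unfold Dd
  have e : (4 * ((d.A : ℝ) + d.C) / E + 1 / d.E) * (d.A * (x - 1) ^ 2 + d.E * y ^ 2 +
      d.B * (x - 1) + d.C) = 4 * ((d.A : ℝ) + d.C) / E * (d.A * (x - 1) ^ 2 + d.B * (x - 1) +
      d.C) + 1 / d.E * (d.E * y ^ 2) + 4 * ((d.A : ℝ) + d.C) / E * (d.E * y ^ 2) +
      1 / d.E * (d.A * (x - 1) ^ 2 + d.B * (x - 1) + d.C) := by ring
  rw [e, h2]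
  (clear * - h1 h3 h4; linarith)

theorem Dd_pos (d : DQ) (x y : ℝ) : 0 < Dd d x y := by
  obtain ⟨k, hk, h⟩ := Dd_low d
  have h1 := h x y
  have h2 : 0 < k * Dd d x y := by nlinarith only [h1]
  exact (mul_pos_iff_of_pos_left hk).1 h2

/-- `D` as a polynomial in `(Re X - 1, Im X)` -/
def DL (d : DQ) : BP := [[d.C, 0, d.E], [d.B], [d.A]]

def DxL (d : DQ) : BP := [[d.B], [Int.mul 2 d.A]]

def DyL (d : DQ) : BP := [[0, Int.mul 2 d.E]]

theorem e_D (u y : ℝ) (d : DQ) : ev2 u y (DL d) = Dd d (1 + u) y := by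
  simp only [ev2, ev1, DL, Dd]
  push_cast
  ring

theorem e_Dx (u y : ℝ) (d : DQ) : ev2 u y (DxL d) = 2 * d.A * u + d.B := by
  simp only [ev2, ev1, DxL, imul_cast']
  push_cast
  ring

theorem e_Dy (u y : ℝ) (d : DQ) : ev2 u y (DyL d) = 2 * d.E * y := by
  simp only [ev2, ev1, DyL, imul_cast']
  push_cast
  ring

theorem e_dD (u y : ℝ) (d : DQ) : ev2 u y (dX (DL d)) = 2 * d.A * u + d.B ∧
    ev2 u y (dY (DL d)) = 2 * d.E * y := by
  constructor
  · simp [DL, dX, dx1, sm1, ev2, ev1]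
    ring
  · simp [DL, dY, dyr, dy1, ev2, ev1]
    ring

theorem c1_Dd (d : DQ) : C1f (fun X => Dd d X.re X.im) (fun X => 2 * d.A * (X.re - 1) + d.B)
    (fun X => 2 * d.E * X.im) := by
  refine c1_congr (c1_sh (DL d)) (fun X => ?_) (fun X => ?_) (fun X => ?_)
  · rw [e_D]
    congr 1
    ring
  · rw [(e_dD _ _ d).1]
  · rw [(e_dD _ _ d).2]

/-- `A / D^k` -/
theorem c1_divD (d : DQ) {A Ax Ay : ℂ → ℝ} (hA : C1f A Ax Ay) (k : ℕ) :
    C1f (fun X => A X / Dd d X.re X.im ^ k)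
      (fun X => (Ax X * Dd d X.re X.im - k * (2 * d.A * (X.re - 1) + d.B) * A X)
        / (Dd d X.re X.im ^ k * Dd d X.re X.im))
      (fun X => (Ay X * Dd d X.re X.im - k * (2 * d.E * X.im) * A X)
        / (Dd d X.re X.im ^ k * Dd d X.re X.im)) := by
  induction k with
  | zero =>
    refine c1_congr hA ?_ ?_ ?_ <;> intro X
    · simp
    · have := (Dd_pos d X.re X.im).ne'
      field_simp
      simp
    · have := (Dd_pos d X.re X.im).ne'
      field_simp
      simp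
  | succ k ih =>
    refine c1_congr (c1_mul ih (c1_inv (c1_Dd d) fun X => (Dd_pos d X.re X.im).ne')) ?_ ?_ ?_ <;>
      intro X <;> have := (Dd_pos d X.re X.im).ne' <;> push_cast <;> field_simp <;> ring

/-- numerators of the derivatives of `P / D ^ j` -/
def qX (d : DQ) (j : ℕ) (P : BP) : BP :=
  sb2 (mu2 (DL d) (dX P)) (sm2 (Int.ofNat j) (mu2 (DxL d) P))

def qY (d : DQ) (j : ℕ) (P : BP) : BP :=
  sb2 (mu2 (DL d) (dY P)) (sm2 (Int.ofNat j) (mu2 (DyL d) P))

/-- `P / D ^ j` at `X`; the variables of `P` are `Re X - 1` and `Im X` -/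
noncomputable def Rr (d : DQ) (j : ℕ) (P : BP) (X : ℂ) : ℝ :=
  ev2 (X.re - 1) X.im P / Dd d X.re X.im ^ j

theorem qX_ev (d : DQ) (j : ℕ) (P : BP) (u y : ℝ) : ev2 u y (qX d j P) =
    ev2 u y (dX P) * Dd d (1 + u) y - j * (2 * d.A * u + d.B) * ev2 u y P := by
  rw [qX, e_sb, ev2_mu, ev2_sm, ev2_mu, e_D, e_Dx, ofNat_cast']
  ring

theorem qY_ev (d : DQ) (j : ℕ) (P : BP) (u y : ℝ) : ev2 u y (qY d j P) =
    ev2 u y (dY P) * Dd d (1 + u) y - j * (2 * d.E * y) * ev2 u y P := by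
  rw [qY, e_sb, ev2_mu, ev2_sm, ev2_mu, e_D, e_Dy, ofNat_cast']
  ring

theorem c1_Rr (d : DQ) (j : ℕ) (P : BP) :
    C1f (Rr d j P) (Rr d (j + 1) (qX d j P)) (Rr d (j + 1) (qY d j P)) := by
  have ex : ∀ X : ℂ, 1 + (X.re - 1) = X.re := fun X => by ring
  refine c1_congr (c1_divD d (c1_sh P) j) (fun X => rfl) (fun X => ?_) (fun X => ?_)
  · unfold Rr
    rw [qX_ev, ex, pow_succ]
  · unfold Rr
    rw [qY_ev, ex, pow_succ]

/-- numerator of the Laplacian of `P / D ^ j` over `D ^ (j + 2)` -/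
def qL (d : DQ) (j : ℕ) (P : BP) : BP := ad2 (qX d (j + 1) (qX d j P)) (qY d (j + 1) (qY d j P))

theorem normsq_sub_one (X : ℂ) : ‖X - 1‖ ^ 2 = (X.re - 1) ^ 2 + X.im ^ 2 := by
  rw [← normSq_eq_norm_sq, normSq_apply]
  simp
  ring

end Pool.Agent.Helper69.EK5

end

section

namespace Pool.Agent.Helper52.EK
end Pool.Agent.Helper52.EK
namespace Pool.Agent.Helper73.EK
end Pool.Agent.Helper73.EK

set_option autoImplicit false

open Complex MeasureTheory Metric Set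

open scoped Real ComplexConjugate

namespace Pool.Agent.Helper5.EK

open Pool.Agent.Helper52.EK Pool.Agent.Helper73.EK

/-- exchange of two interval integrals of a continuous function -/
theorem swap2 {F : ℝ → ℝ → ℝ} (hF : Continuous (Function.uncurry F)) (a b c d : ℝ) :
    ∫ x in a..b, ∫ y in c..d, F x y = ∫ y in c..d, ∫ x in a..b, F x y := by
  refine MeasureTheory.intervalIntegral_intervalIntegral_swap ?_
  have h1 : IntegrableOn (Function.uncurry F) (uIcc a b ×ˢ uIcc c d) :=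
    hF.continuousOn.integrableOn_compact (isCompact_uIcc.prod isCompact_uIcc)
  exact h1.mono_set (prod_mono uIoc_subset_uIcc uIoc_subset_uIcc)

/-- exchange of three interval integrals of a continuous function -/
theorem swap3 {F : ℝ → ℝ → ℝ → ℝ}
    (hF : Continuous fun p : ℝ × ℝ × ℝ => F p.1 p.2.1 p.2.2) (a b c d e f : ℝ) :
    ∫ t in a..b, ∫ θ in c..d, ∫ α in e..f, F t θ α =
      ∫ α in e..f, ∫ t in a..b, ∫ θ in c..d, F t θ α := by
  have h1 : ∀ t : ℝ, ∫ θ in c..d, ∫ α in e..f, F t θ α = ∫ α in e..f, ∫ θ in c..d, F t θ α := by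
    intro t
    apply swap2
    exact hF.comp (by fun_prop : Continuous fun q : ℝ × ℝ => (t, q.1, q.2))
  simp_rw [h1]
  apply swap2
  have h2 : Continuous (Function.uncurry fun (q : ℝ × ℝ) (θ : ℝ) => F q.1 θ q.2) :=
    hF.comp (by fun_prop : Continuous fun q : (ℝ × ℝ) × ℝ => (q.1.1, q.2, q.1.2))
  exact intervalIntegral.continuous_parametric_intervalIntegral_of_continuous' h2 c d

theorem cont_inner {F : ℝ → ℝ → ℝ → ℝ}
    (hF : Continuous fun p : ℝ × ℝ × ℝ => F p.1 p.2.1 p.2.2) (c d e f : ℝ) :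
    Continuous fun t : ℝ => ∫ θ in c..d, ∫ α in e..f, F t θ α := by
  have h2 : Continuous (Function.uncurry fun (q : ℝ × ℝ) (α : ℝ) => F q.1 q.2 α) :=
    hF.comp (by fun_prop : Continuous fun q : (ℝ × ℝ) × ℝ => (q.1.1, q.1.2, q.2))
  have h3 := intervalIntegral.continuous_parametric_intervalIntegral_of_continuous' (μ := volume)
    h2 e f
  have h4 : Continuous (Function.uncurry fun (t : ℝ) (θ : ℝ) => ∫ α in e..f, F t θ α) := h3
  exact intervalIntegral.continuous_parametric_intervalIntegral_of_continuous' h4 c d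

/-- the integrand, with the height cut at `t₂` -/
noncomputable def Hc (ρ : ℝ → ℝ) (w : ℂ → ℂ) (t₂ t θ α : ℝ) : ℝ :=
  ρ α * (Pk (Complex.exp (α * I)) (ep (min t t₂) θ) *
    ‖ee (Complex.exp (α * I)) (ep (min t t₂) θ) - w (ep (min t t₂) θ)‖ ^ 2 /
      Real.sinh (min t t₂) ^ 2)

theorem Hc_cont {ρ : ℝ → ℝ} (hρ : Continuous ρ) {w : ℂ → ℂ}
    (hw : ContinuousOn w {z | 0 < ‖z‖ ∧ ‖z‖ < 1}) {t₂ : ℝ} (h2 : t₂ < 0) :
    Continuous fun p : ℝ × ℝ × ℝ => Hc ρ w t₂ p.1 p.2.1 p.2.2 := by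
  have hm : ∀ t : ℝ, min t t₂ < 0 := fun t => lt_of_le_of_lt (min_le_right _ _) h2
  have he : Continuous fun p : ℝ × ℝ × ℝ => ep (min p.1 t₂) p.2.1 := by
    unfold ep
    fun_prop
  have hwc : Continuous fun p : ℝ × ℝ × ℝ => w (ep (min p.1 t₂) p.2.1) := by
    refine hw.comp_continuous he fun p => ⟨?_, norm_ep_lt (hm _) _⟩
    rw [norm_ep]
    exact Real.exp_pos _
  have hne : ∀ p : ℝ × ℝ × ℝ, Complex.exp (p.2.2 * I) - ep (min p.1 t₂) p.2.1 ≠ 0 := fun p =>
    sub_ne_zero_of (norm_cis _) (norm_ep_lt (hm _) _)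
  have hs : ∀ p : ℝ × ℝ × ℝ, Real.sinh (min p.1 t₂) ^ 2 ≠ 0 := fun p =>
    pow_ne_zero _ (Real.sinh_neg_iff.2 (hm _)).ne
  have hp : Continuous fun p : ℝ × ℝ × ℝ => Pk (Complex.exp (p.2.2 * I)) (ep (min p.1 t₂) p.2.1) := by
    unfold Pk
    refine Continuous.div (by fun_prop) (by fun_prop) fun p => ?_
    have := hne p
    positivity
  have hee : Continuous fun p : ℝ × ℝ × ℝ => ee (Complex.exp (p.2.2 * I)) (ep (min p.1 t₂) p.2.1) := by
    unfold ee
    refine Continuous.div ?_ (by fun_prop) hne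
    have h3 : Continuous fun p : ℝ × ℝ × ℝ => conj (ep (min p.1 t₂) p.2.1) :=
      Complex.continuous_conj.comp he
    fun_prop
  unfold Hc
  refine Continuous.mul (by fun_prop) ?_
  refine Continuous.div ?_ (by fun_prop) hs
  exact hp.mul ((hee.sub hwc).norm.pow 2)

theorem kk_eq {ρ : ℝ → ℝ} {w : ℂ → ℂ} {t₂ t : ℝ} (ht : t ≤ t₂) :
    kk ρ w t = (2 * π)⁻¹ * ((2 * π)⁻¹ * ∫ θ in (-π)..π, ∫ α in (0:ℝ)..(2 * π), Hc ρ w t₂ t θ α) := by
  unfold kk Hc
  rw [min_eq_left ht, intervalIntegral.integral_const_mul]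

theorem kk_intervalIntegrable {ρ : ℝ → ℝ} (hρ : Continuous ρ) {w : ℂ → ℂ}
    (hw : ContinuousOn w {z | 0 < ‖z‖ ∧ ‖z‖ < 1}) {t₂ : ℝ} (h2 : t₂ < 0) {t₀ : ℝ} (h0 : t₀ ≤ t₂) :
    IntervalIntegrable (fun t => (t₂ - t) * kk ρ w t) volume t₀ t₂ := by
  have h1 : ContinuousOn (fun t => (t₂ - t) * kk ρ w t) (uIcc t₀ t₂) := by
    have h3 : Continuous fun t : ℝ => (t₂ - t) * ((2 * π)⁻¹ * ((2 * π)⁻¹ *
        ∫ θ in (-π)..π, ∫ α in (0:ℝ)..(2 * π), Hc ρ w t₂ t θ α)) := by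
      have := cont_inner (Hc_cont hρ hw h2) (-π) π 0 (2 * π)
      fun_prop
    refine h3.continuousOn.congr fun t ht => ?_
    rw [uIcc_of_le h0] at ht
    show (t₂ - t) * kk ρ w t = _
    rw [kk_eq ht.2]
  exact h1.intervalIntegrable

theorem fub {ρ : ℝ → ℝ} (hρ : Continuous ρ) {w : ℂ → ℂ}
    (hw : ContinuousOn w {z | 0 < ‖z‖ ∧ ‖z‖ < 1}) {t₂ : ℝ} (h2 : t₂ < 0) {t₀ : ℝ} (h0 : t₀ ≤ t₂) :
    ∫ t in t₀..t₂, (t₂ - t) * kk ρ w t =
      (2 * π)⁻¹ * ∫ α in (0:ℝ)..(2 * π), ρ α * Kf w (Complex.exp (α * I)) t₀ t₂ := by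
  have hH := Hc_cont hρ hw h2
  have e1 : ∫ t in t₀..t₂, (t₂ - t) * kk ρ w t =
      ∫ t in t₀..t₂, (2 * π)⁻¹ * ((2 * π)⁻¹ * ∫ θ in (-π)..π, ∫ α in (0:ℝ)..(2 * π),
        (t₂ - t) * Hc ρ w t₂ t θ α) := by
    refine intervalIntegral.integral_congr fun t ht => ?_
    rw [uIcc_of_le h0] at ht
    show (t₂ - t) * kk ρ w t = _
    rw [kk_eq ht.2]
    simp_rw [intervalIntegral.integral_const_mul]
    ring
  have e2 : ∀ α : ℝ, ρ α * Kf w (Complex.exp (α * I)) t₀ t₂ =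
      (2 * π)⁻¹ * ∫ t in t₀..t₂, ∫ θ in (-π)..π, (t₂ - t) * Hc ρ w t₂ t θ α := by
    intro α
    unfold Kf
    have e3 : ∫ t in t₀..t₂, ∫ θ in (-π)..π, (t₂ - t) * Hc ρ w t₂ t θ α =
        ∫ t in t₀..t₂, ρ α * ∫ θ in (-π)..π, (t₂ - t) * Pk (Complex.exp (α * I)) (ep t θ) *
          ‖ee (Complex.exp (α * I)) (ep t θ) - w (ep t θ)‖ ^ 2 / Real.sinh t ^ 2 := by
      refine intervalIntegral.integral_congr fun t ht => ?_
      rw [uIcc_of_le h0] at ht
      show ∫ θ in (-π)..π, (t₂ - t) * Hc ρ w t₂ t θ α = _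
      rw [← intervalIntegral.integral_const_mul]
      refine intervalIntegral.integral_congr fun θ _ => ?_
      show (t₂ - t) * Hc ρ w t₂ t θ α = _
      unfold Hc
      rw [min_eq_left ht.2]
      ring
    rw [e3, intervalIntegral.integral_const_mul]
    ring
  rw [e1, intervalIntegral.integral_const_mul, intervalIntegral.integral_const_mul]
  simp_rw [e2]
  rw [intervalIntegral.integral_const_mul]
  rw [swap3 (F := fun t θ α => (t₂ - t) * Hc ρ w t₂ t θ α)]
  fun_prop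

/-- the antiderivative -/
theorem int_sinh {t₂ : ℝ} (h1 : -1 ≤ t₂) (h2 : t₂ < 0) :
    ∫ t in (-1)..t₂, (t₂ - t) * (1 / Real.sinh t ^ 2) =
      -Real.log (Real.sinh (-t₂)) - (t₂ + 1) * (Real.cosh 1 / Real.sinh 1) +
        Real.log (Real.sinh 1) := by
  have hd : ∀ t ∈ uIcc (-1) t₂, HasDerivAt (fun t => -((t₂ - t) * (Real.cosh t / Real.sinh t)) -
      Real.log (Real.sinh t)) ((t₂ - t) * (1 / Real.sinh t ^ 2)) t := by
    intro t ht
    rw [uIcc_of_le h1] at ht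
    have hs : Real.sinh t ≠ 0 := (Real.sinh_neg_iff.2 (lt_of_le_of_lt ht.2 h2)).ne
    have d1 : HasDerivAt (fun t => t₂ - t) (-1) t := by
      simpa using (hasDerivAt_id t).const_sub t₂
    have d2 : HasDerivAt (fun t => Real.cosh t / Real.sinh t)
        ((Real.sinh t * Real.sinh t - Real.cosh t * Real.cosh t) / Real.sinh t ^ 2) t :=
      (Real.hasDerivAt_cosh t).div (Real.hasDerivAt_sinh t) hs
    have d3 : HasDerivAt (fun t => Real.log (Real.sinh t)) (Real.cosh t / Real.sinh t) t :=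
      (Real.hasDerivAt_sinh t).log hs
    have d4 := ((d1.mul d2).neg).sub d3
    refine d4.congr_deriv ?_
    have hcs : Real.cosh t ^ 2 = Real.sinh t ^ 2 + 1 := Real.cosh_sq t
    field_simp
    rw [hcs]
    ring
  have hc : IntervalIntegrable (fun t => (t₂ - t) * (1 / Real.sinh t ^ 2)) volume (-1) t₂ := by
    apply ContinuousOn.intervalIntegrable
    intro t ht
    rw [uIcc_of_le h1] at ht
    have hs : Real.sinh t ≠ 0 := (Real.sinh_neg_iff.2 (lt_of_le_of_lt ht.2 h2)).ne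
    have hs2 : Real.sinh t ^ 2 ≠ 0 := pow_ne_zero _ hs
    apply ContinuousAt.continuousWithinAt
    exact (by fun_prop : ContinuousAt (fun t => t₂ - t) t).mul
      (ContinuousAt.div (by fun_prop) (Real.continuous_sinh.continuousAt.pow 2) hs2)
  rw [intervalIntegral.integral_eq_sub_of_hasDerivAt hd hc]
  rw [Real.sinh_neg, Real.cosh_neg, Real.sinh_neg, Real.log_neg_eq_log, Real.log_neg_eq_log]
  have hs1 : Real.sinh 1 ≠ 0 := (Real.sinh_pos_iff.2 one_pos).ne'
  field_simp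
  ring

theorem sinh_neg_log {a : ℝ} (h0 : 0 < a) : Real.sinh (-Real.log a) = (1 - a ^ 2) / (2 * a) := by
  rw [Real.sinh_neg, Real.sinh_eq, Real.exp_neg, Real.exp_log h0]
  field_simp
  ring

theorem int_ge {a : ℝ} (ha : Real.exp (-1) < a) (ha1 : a < 1) :
    -Real.log (1 - a ^ 2) - (1 + Real.cosh 1 / Real.sinh 1 + |Real.log (Real.sinh 1)|) ≤
      ∫ t in (-1)..(Real.log a), (Real.log a - t) * (1 / Real.sinh t ^ 2) := by
  have h0 : 0 < a := lt_trans (Real.exp_pos _) ha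
  have hl1 : -1 < Real.log a := by
    rw [Real.lt_log_iff_exp_lt h0]
    exact ha
  have hl2 : Real.log a < 0 := Real.log_neg h0 ha1
  rw [int_sinh hl1.le hl2, sinh_neg_log h0]
  have h3 : 0 < 1 - a ^ 2 := by nlinarith only [ha1, h0]
  rw [Real.log_div h3.ne' (by (clear * - h0; positivity)), Real.log_mul (by norm_num) h0.ne']
  have h4 : 0 ≤ Real.log 2 := Real.log_nonneg (by norm_num)
  have h5 : 0 < Real.cosh 1 / Real.sinh 1 :=
    div_pos (Real.cosh_pos 1) (Real.sinh_pos_iff.2 one_pos)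
  have h6 : -|Real.log (Real.sinh 1)| ≤ Real.log (Real.sinh 1) := neg_abs_le _
  have h7 : (Real.log a + 1) * (Real.cosh 1 / Real.sinh 1) ≤ 1 * (Real.cosh 1 / Real.sinh 1) :=
    mul_le_mul_of_nonneg_right (by (clear * - hl2; linarith)) h5.le
  (clear * - hl1 h4 h6 h7; linarith)

end Pool.Agent.Helper5.EK

end

section

namespace Pool.Agent.Helper52.EK
end Pool.Agent.Helper52.EK
namespace Pool.Agent.Helper73.EK
end Pool.Agent.Helper73.EK

set_option autoImplicit false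

open Complex MeasureTheory Metric Set

open scoped Real ComplexConjugate

namespace Pool.Agent.Helper5.EK

open Pool.Agent.Helper52.EK Pool.Agent.Helper73.EK

/-- Taylor's formula of order two with the integral remainder -/
theorem taylor2 {f f1 f2 : ℝ → ℝ} {t₀ t₂ : ℝ} (h0 : t₀ ≤ t₂) (h2 : t₂ < 0)
    (hf : ∀ t : ℝ, t < 0 → HasDerivAt f (f1 t) t ∧ HasDerivAt f1 (f2 t) t ∧ ContinuousAt f2 t) :
    ∫ t in t₀..t₂, (t₂ - t) * f2 t = f t₂ - f t₀ - (t₂ - t₀) * f1 t₀ := by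
  have hd : ∀ t ∈ uIcc t₀ t₂, HasDerivAt (fun t => f t + (t₂ - t) * f1 t) ((t₂ - t) * f2 t) t := by
    intro t ht
    rw [uIcc_of_le h0] at ht
    obtain ⟨a1, a2, -⟩ := hf t (lt_of_le_of_lt ht.2 h2)
    have d1 : HasDerivAt (fun t => t₂ - t) (-1) t := by
      simpa using (hasDerivAt_id t).const_sub t₂
    refine (a1.add (d1.mul a2)).congr_deriv ?_
    ring
  have hc : IntervalIntegrable (fun t => (t₂ - t) * f2 t) volume t₀ t₂ := by
    apply ContinuousOn.intervalIntegrable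
    intro t ht
    rw [uIcc_of_le h0] at ht
    obtain ⟨-, -, a3⟩ := hf t (lt_of_le_of_lt ht.2 h2)
    exact ((by fun_prop : ContinuousAt (fun t => t₂ - t) t).mul a3).continuousWithinAt
  rw [intervalIntegral.integral_eq_sub_of_hasDerivAt hd hc]
  ring

theorem entropy_of
    (hE2a : ∀ ρ : ℝ → ℝ, Dens ρ → ∀ t : ℝ, t < 0 →
      HasDerivAt (AA ρ) (A1 ρ t) t ∧ HasDerivAt (A1 ρ) (A2 ρ t) t ∧ ContinuousAt (A2 ρ) t)
    (hE2b : ∀ (ρ : ℝ → ℝ) (w : ℂ → ℂ), Dens ρ → ContinuousOn w {z | 0 < ‖z‖ ∧ ‖z‖ < 1} →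
      ∀ t : ℝ, t < 0 → 1 / Real.sinh t ^ 2 - kk ρ w t ≤ A2 ρ t)
    (hE2c : ∃ C : ℝ, ∀ ρ : ℝ → ℝ, Dens ρ → 0 ≤ AA ρ (-1) ∧ -C ≤ A1 ρ (-1))
    (hE2d : ∀ ρ : ℝ → ℝ, Dens ρ → ∀ t : ℝ, t < 0 →
      AA ρ t ≤ (2 * π)⁻¹ * ∫ α in (0:ℝ)..(2 * π), ρ α * Real.log (ρ α)) :
    ∃ C : ℝ, ∀ (ρ : ℝ → ℝ) (w : ℂ → ℂ) (a : ℝ), Dens ρ →
    ContinuousOn w {z | 0 < ‖z‖ ∧ ‖z‖ < 1} → Real.exp (-1) < a → a < 1 →
    -Real.log (1 - a ^ 2) - C ≤ (2 * π)⁻¹ * (∫ α in (0:ℝ)..(2 * π), ρ α * Real.log (ρ α)) +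
      (2 * π)⁻¹ * ∫ α in (0:ℝ)..(2 * π), ρ α * Kf w (Complex.exp (α * I)) (-1) (Real.log a) := by
  obtain ⟨C, hC⟩ := hE2c
  refine ⟨1 + Real.cosh 1 / Real.sinh 1 + |Real.log (Real.sinh 1)| + |C|, ?_⟩
  intro ρ w a h hw ha ha1
  have h0 : 0 < a := lt_trans (Real.exp_pos _) ha
  have hl1 : -1 < Real.log a := by
    rw [Real.lt_log_iff_exp_lt h0]
    exact ha
  have hl2 : Real.log a < 0 := Real.log_neg h0 ha1
  set t₂ : ℝ := Real.log a with ht₂
  obtain ⟨c1, c2⟩ := hC ρ h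
  have hT := taylor2 hl1.le hl2 (fun t ht => hE2a ρ h t ht)
  have hF := fub h.cont hw hl2 hl1.le
  have hK := kk_intervalIntegrable h.cont hw hl2 hl1.le
  have hS : IntervalIntegrable (fun t => (t₂ - t) * (1 / Real.sinh t ^ 2)) volume (-1) t₂ := by
    apply ContinuousOn.intervalIntegrable
    intro t ht
    rw [uIcc_of_le hl1.le] at ht
    have hs : Real.sinh t ≠ 0 := (Real.sinh_neg_iff.2 (lt_of_le_of_lt ht.2 hl2)).ne
    have hs2 : Real.sinh t ^ 2 ≠ 0 := pow_ne_zero _ hs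
    apply ContinuousAt.continuousWithinAt
    exact (by fun_prop : ContinuousAt (fun t => t₂ - t) t).mul
      (ContinuousAt.div (by fun_prop) (Real.continuous_sinh.continuousAt.pow 2) hs2)
  have hA : IntervalIntegrable (fun t => (t₂ - t) * A2 ρ t) volume (-1) t₂ := by
    apply ContinuousOn.intervalIntegrable
    intro t ht
    rw [uIcc_of_le hl1.le] at ht
    obtain ⟨-, -, a3⟩ := hE2a ρ h t (lt_of_le_of_lt ht.2 hl2)
    exact ((by fun_prop : ContinuousAt (fun t => t₂ - t) t).mul a3).continuousWithinAt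
  have hM : ∫ t in (-1)..t₂, ((t₂ - t) * (1 / Real.sinh t ^ 2) - (t₂ - t) * kk ρ w t) ≤
      ∫ t in (-1)..t₂, (t₂ - t) * A2 ρ t := by
    refine intervalIntegral.integral_mono_on hl1.le (hS.sub hK) hA fun t ht => ?_
    have h5 := hE2b ρ w h hw t (lt_of_le_of_lt ht.2 hl2)
    have h6 : 0 ≤ t₂ - t := by (clear * - ht; linarith only [ht.2])
    have h7 := mul_le_mul_of_nonneg_left h5 h6
    linarith only [h7]
  rw [intervalIntegral.integral_sub hS hK, hF, hT] at hM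
  have hI := int_ge ha ha1
  have hD := hE2d ρ h t₂ hl2
  have hC1 : -|C| ≤ (t₂ - -1) * A1 ρ (-1) := by
    have h8 : 0 ≤ t₂ - -1 := by linarith only [hl1]
    have h9 : t₂ - -1 ≤ 1 := by linarith only [hl2]
    have h10 : -|C| ≤ A1 ρ (-1) := le_trans (neg_le_neg (le_abs_self C)) c2
    have h11 := mul_le_mul_of_nonneg_left h10 h8
    have h12 : (t₂ - -1) * |C| ≤ 1 * |C| := mul_le_mul_of_nonneg_right h9 (abs_nonneg C)
    linarith only [h11, h12]
  linarith only [c1, hM, hI, hD, hC1]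

end Pool.Agent.Helper5.EK

end

section

namespace Pool.Agent.Helper52.EK
end Pool.Agent.Helper52.EK

set_option autoImplicit false

open Complex MeasureTheory Metric Set

open scoped Real ComplexConjugate

namespace Pool.Agent.Helper73.EK

open Pool.Agent.Helper52.EK

variable {ρ : ℝ → ℝ}

theorem continuous_Pk_one (z : ℂ) (hz : ‖z‖ < 1) :
    Continuous fun α : ℝ => Pk (Complex.exp (α * I)) z := by
  unfold Pk
  refine Continuous.div (by fun_prop) (by fun_prop) fun α => ?_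
  have h2 := sub_ne_zero_of (norm_cis α) hz
  (clear * - h2; positivity)

theorem two_pi_pos' : (0:ℝ) < 2 * π := by (clear * -; positivity)

theorem uu_pos (h : Dens ρ) {t : ℝ} (ht : t < 0) (θ : ℝ) : 0 < uu ρ t θ := by
  unfold uu
  have h1 : 0 < ∫ α in (0:ℝ)..(2 * π), Pk (Complex.exp (α * I)) (ep t θ) * ρ α := by
    refine intervalIntegral.intervalIntegral_pos_of_pos ?_ (fun α => ?_) two_pi_pos'
    · exact ((continuous_Pk_one _ (norm_ep_lt ht θ)).mul h.cont).intervalIntegrable _ _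
    · exact mul_pos (Pk_pos (norm_cis α) (norm_ep_lt ht θ)) (h.pos α)
  exact mul_pos (inv_pos.2 two_pi_pos') h1

theorem continuous_uu (h : Dens ρ) {t : ℝ} (ht : t < 0) : Continuous (uu ρ t) := by
  unfold uu
  refine continuous_const.mul ?_
  refine intervalIntegral.continuous_parametric_intervalIntegral_of_continuous' ?_ _ _
  have h1 : Continuous fun q : ℝ × ℝ => (q.2, q.1) := by fun_prop
  exact ((continuous_Pk ht).comp h1).mul (h.cont.comp continuous_snd)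

/-- The tangent line of `x log x`. -/
theorem tangent {u x : ℝ} (hu : 0 < u) (hx : 0 < x) :
    u * Real.log u + (1 + Real.log u) * (x - u) ≤ x * Real.log x := by
  have h1 : Real.log (u / x) ≤ u / x - 1 := Real.log_le_sub_one_of_pos (div_pos hu hx)
  rw [Real.log_div hu.ne' hx.ne'] at h1
  have h2 : x * (Real.log u - Real.log x) ≤ x * (u / x - 1) :=
    mul_le_mul_of_nonneg_left h1 hx.le
  have h3 : x * (u / x - 1) = u - x := by (clear * - hx; field_simp)
  rw [h3] at h2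
  linarith only [h2]

theorem uu_log_le (h : Dens ρ) {t : ℝ} (ht : t < 0) (θ : ℝ) :
    uu ρ t θ * Real.log (uu ρ t θ) ≤ (2 * π)⁻¹ * ∫ α in (0:ℝ)..(2 * π),
      Pk (Complex.exp (α * I)) (ep t θ) * (ρ α * Real.log (ρ α)) := by
  have hu := uu_pos h ht θ
  have hz := norm_ep_lt ht θ
  have cP := continuous_Pk_one _ hz
  have cR : Continuous fun α => ρ α * Real.log (ρ α) :=
    h.cont.mul (h.cont.log fun α => (h.pos α).ne')
  set u := uu ρ t θ with hudef
  have h1 : ∫ α in (0:ℝ)..(2 * π), Pk (Complex.exp (α * I)) (ep t θ) *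
      (u * Real.log u + (1 + Real.log u) * (ρ α - u)) ≤
      ∫ α in (0:ℝ)..(2 * π), Pk (Complex.exp (α * I)) (ep t θ) * (ρ α * Real.log (ρ α)) := by
    refine intervalIntegral.integral_mono_on two_pi_pos'.le ?_ ?_ fun α _ => ?_
    · refine Continuous.intervalIntegrable ?_ _ _
      exact cP.mul (continuous_const.add (continuous_const.mul (h.cont.sub continuous_const)))
    · exact (cP.mul cR).intervalIntegrable _ _
    · exact mul_le_mul_of_nonneg_left (tangent hu (h.pos α)) (Pk_pos (norm_cis α) hz).le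
  have h2 : ∫ α in (0:ℝ)..(2 * π), Pk (Complex.exp (α * I)) (ep t θ) *
      (u * Real.log u + (1 + Real.log u) * (ρ α - u)) = (2 * π) * (u * Real.log u) := by
    have e1 : ∀ α : ℝ, Pk (Complex.exp (α * I)) (ep t θ) *
        (u * Real.log u + (1 + Real.log u) * (ρ α - u)) =
        (u * Real.log u - (1 + Real.log u) * u) * Pk (Complex.exp (α * I)) (ep t θ) +
          (1 + Real.log u) * (Pk (Complex.exp (α * I)) (ep t θ) * ρ α) := fun α => by ring
    simp_rw [e1]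
    rw [intervalIntegral.integral_add, intervalIntegral.integral_const_mul,
      intervalIntegral.integral_const_mul, integral_Pk hz]
    · have e2 : ∫ α in (0:ℝ)..(2 * π), Pk (Complex.exp (α * I)) (ep t θ) * ρ α =
          2 * π * u := by
        rw [hudef]
        unfold uu
        rw [← mul_assoc, mul_inv_cancel₀ two_pi_pos'.ne', one_mul]
      rw [e2]
      ring
    · exact (continuous_const.mul cP).intervalIntegrable _ _
    · exact (continuous_const.mul (cP.mul h.cont)).intervalIntegrable _ _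
  rw [h2] at h1
  have h3 := mul_le_mul_of_nonneg_left h1 (inv_pos.2 two_pi_pos').le
  rwa [← mul_assoc, inv_mul_cancel₀ two_pi_pos'.ne', one_mul] at h3

/-- E2d (Jensen) -/
theorem E2d (h : Dens ρ) {t : ℝ} (ht : t < 0) :
    AA ρ t ≤ (2 * π)⁻¹ * ∫ α in (0:ℝ)..(2 * π), ρ α * Real.log (ρ α) := by
  have cR : Continuous fun α => ρ α * Real.log (ρ α) :=
    h.cont.mul (h.cont.log fun α => (h.pos α).ne')
  have cu := continuous_uu h ht
  have hpi : -π ≤ π := by (clear * -; linarith only [Real.pi_pos])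
  have cF : Continuous fun q : ℝ × ℝ =>
      Pk (Complex.exp (q.2 * I)) (ep t q.1) * (ρ q.2 * Real.log (ρ q.2)) := by
    have h1 : Continuous fun q : ℝ × ℝ => (q.2, q.1) := by fun_prop
    exact ((continuous_Pk ht).comp h1).mul (cR.comp continuous_snd)
  have h1 : ∫ θ in (-π)..π, uu ρ t θ * Real.log (uu ρ t θ) ≤
      ∫ θ in (-π)..π, (2 * π)⁻¹ * ∫ α in (0:ℝ)..(2 * π),
        Pk (Complex.exp (α * I)) (ep t θ) * (ρ α * Real.log (ρ α)) := by
    refine intervalIntegral.integral_mono_on hpi ?_ ?_ fun θ _ => uu_log_le h ht θ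
    · exact (cu.mul (cu.log fun θ => (uu_pos h ht θ).ne')).intervalIntegrable _ _
    · refine Continuous.intervalIntegrable ?_ _ _
      refine continuous_const.mul ?_
      exact intervalIntegral.continuous_parametric_intervalIntegral_of_continuous' cF _ _
  have h2 : ∫ θ in (-π)..π, ∫ α in (0:ℝ)..(2 * π),
        Pk (Complex.exp (α * I)) (ep t θ) * (ρ α * Real.log (ρ α)) =
      ∫ α in (0:ℝ)..(2 * π), ∫ θ in (-π)..π,
        Pk (Complex.exp (α * I)) (ep t θ) * (ρ α * Real.log (ρ α)) := by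
    refine intervalIntegral_intervalIntegral_swap ?_
    refine (cF.continuousOn.integrableOn_compact (K := uIcc (-π) π ×ˢ uIcc 0 (2 * π)) ?_).mono_set
      (prod_mono uIoc_subset_uIcc uIoc_subset_uIcc)
    exact isCompact_uIcc.prod isCompact_uIcc
  have h3 : ∀ α : ℝ, ∫ θ in (-π)..π,
      Pk (Complex.exp (α * I)) (ep t θ) * (ρ α * Real.log (ρ α)) =
      2 * π * (ρ α * Real.log (ρ α)) := by
    intro α
    rw [intervalIntegral.integral_mul_const, integral_Pk' ht]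
  unfold AA
  rw [intervalIntegral.integral_const_mul, h2] at h1
  simp_rw [h3] at h1
  rw [intervalIntegral.integral_const_mul, ← mul_assoc, inv_mul_cancel₀ two_pi_pos'.ne',
    one_mul] at h1
  exact mul_le_mul_of_nonneg_left h1 (inv_pos.2 two_pi_pos').le

end Pool.Agent.Helper73.EK

end

section

namespace Pool.Agent.Helper52.EK
end Pool.Agent.Helper52.EK

set_option autoImplicit false

open Complex MeasureTheory Metric Set

open scoped Real ComplexConjugate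

namespace Pool.Agent.Helper48.EK

open Pool.Agent.Helper52.EK

/-- derivative under the integral, continuous case -/
theorem hasDerivAt_param {𝕜 E : Type*} [RCLike 𝕜] [NormedAddCommGroup E] [NormedSpace ℝ E]
    [NormedSpace 𝕜 E] {F F' : 𝕜 → ℝ → E} {U : Set 𝕜} (hU : IsOpen U) {x₀ : 𝕜} (hx : x₀ ∈ U)
    {a b : ℝ} (hF : ContinuousOn (fun p : 𝕜 × ℝ => F p.1 p.2) (U ×ˢ univ))
    (hF' : ContinuousOn (fun p : 𝕜 × ℝ => F' p.1 p.2) (U ×ˢ univ))
    (hd : ∀ x ∈ U, ∀ t, HasDerivAt (fun x => F x t) (F' x t) x) :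
    HasDerivAt (fun x => ∫ t in a..b, F x t) (∫ t in a..b, F' x₀ t) x₀ := by
  obtain ⟨ε, hε, hεU⟩ := Metric.nhds_basis_closedBall.mem_iff.1 (hU.mem_nhds hx)
  have hs : ∀ x ∈ U, Continuous fun t => F x t := fun x hxU =>
    hF.comp_continuous (by fun_prop : Continuous fun t : ℝ => (x, t)) fun t => ⟨hxU, trivial⟩
  have hs' : ∀ x ∈ U, Continuous fun t => F' x t := fun x hxU =>
    hF'.comp_continuous (by fun_prop : Continuous fun t : ℝ => (x, t)) fun t => ⟨hxU, trivial⟩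
  have hK : IsCompact (Metric.closedBall x₀ ε ×ˢ Set.uIcc a b) :=
    (isCompact_closedBall x₀ ε).prod isCompact_uIcc
  obtain ⟨C, hC⟩ := hK.exists_bound_of_continuousOn
    (hF'.mono (Set.prod_mono hεU (Set.subset_univ _)))
  refine (intervalIntegral.hasDerivAt_integral_of_dominated_loc_of_deriv_le
    (F := F) (F' := F') (bound := fun _ => C) (Metric.ball_mem_nhds x₀ hε) ?_ ?_ ?_ ?_ ?_ ?_).2
  · filter_upwards [hU.mem_nhds hx] with x hxU
    exact (hs x hxU).aestronglyMeasurable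
  · exact (hs x₀ hx).intervalIntegrable _ _
  · exact (hs' x₀ hx).aestronglyMeasurable
  · refine Filter.Eventually.of_forall fun t ht x hxb => ?_
    exact hC (x, t) ⟨Metric.ball_subset_closedBall hxb, Set.uIoc_subset_uIcc ht⟩
  · exact intervalIntegrable_const
  · refine Filter.Eventually.of_forall fun t _ x hxb => ?_
    exact hd x (hεU (Metric.ball_subset_closedBall hxb)) t

/-- continuity of a parametric integral, continuous case -/
theorem continuousAt_param {X E : Type*} [TopologicalSpace X] [FirstCountableTopology X]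
    [LocallyCompactSpace X] [NormedAddCommGroup E] [NormedSpace ℝ E]
    {F : X → ℝ → E} {U : Set X} (hU : IsOpen U) {x₀ : X} (hx : x₀ ∈ U)
    {a b : ℝ} (hF : ContinuousOn (fun p : X × ℝ => F p.1 p.2) (U ×ˢ univ)) :
    ContinuousAt (fun x => ∫ t in a..b, F x t) x₀ := by
  obtain ⟨K, hK1, hKU, hK⟩ := LocallyCompactSpace.local_compact_nhds x₀ U (hU.mem_nhds hx)
  have hs : ∀ x ∈ U, Continuous fun t => F x t := fun x hxU =>
    hF.comp_continuous (by fun_prop : Continuous fun t : ℝ => (x, t)) fun t => ⟨hxU, trivial⟩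
  obtain ⟨C, hC⟩ := (hK.prod (isCompact_uIcc (a := a) (b := b))).exists_bound_of_continuousOn
    (hF.mono (Set.prod_mono hKU (Set.subset_univ _)))
  refine intervalIntegral.continuousAt_of_dominated_interval (bound := fun _ => C) ?_ ?_ ?_ ?_
  · filter_upwards [hU.mem_nhds hx] with x hxU
    exact (hs x hxU).aestronglyMeasurable
  · filter_upwards [hK1] with x hxK
    refine Filter.Eventually.of_forall fun t ht => ?_
    exact hC (x, t) ⟨hxK, Set.uIoc_subset_uIcc ht⟩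
  · exact intervalIntegrable_const
  · refine Filter.Eventually.of_forall fun t _ => ?_
    have h1 : ContinuousAt (fun p : X × ℝ => F p.1 p.2) (x₀, t) :=
      hF.continuousAt ((hU.prod isOpen_univ).mem_nhds ⟨hx, trivial⟩)
    exact ContinuousAt.comp (f := fun x : X => (x, t)) h1 (by fun_prop)

/-- the left half plane -/
def HP : Set ℂ := {w : ℂ | w.re < 0}

theorem isOpen_HP : IsOpen HP := isOpen_lt Complex.continuous_re continuous_const

noncomputable def KK (w : ℂ) (α : ℝ) : ℂ :=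
  (Complex.exp (α * I) + Complex.exp w) / (Complex.exp (α * I) - Complex.exp w)

noncomputable def KK' (w : ℂ) (α : ℝ) : ℂ :=
  2 * Complex.exp (α * I) * Complex.exp w / (Complex.exp (α * I) - Complex.exp w) ^ 2

noncomputable def FF (ρ : ℝ → ℝ) (w : ℂ) : ℂ :=
  ((2 * π)⁻¹ : ℝ) • ∫ α in (0:ℝ)..(2 * π), (ρ α : ℂ) * KK w α

theorem den_ne {w : ℂ} (hw : w ∈ HP) (α : ℝ) :
    Complex.exp (α * I) - Complex.exp w ≠ 0 := by
  intro h
  rw [sub_eq_zero] at h
  have h1 := congrArg norm h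
  rw [Complex.norm_exp_ofReal_mul_I, Complex.norm_exp] at h1
  have h2 : Real.exp w.re < 1 := by
    rw [← Real.exp_zero]
    exact Real.exp_lt_exp.2 hw
  linarith only [h1, h2]

theorem re_div (ζ z : ℂ) : ((ζ + z) / (ζ - z)).re = (‖ζ‖ ^ 2 - ‖z‖ ^ 2) / ‖ζ - z‖ ^ 2 := by
  rw [Complex.div_re, ← Complex.normSq_eq_norm_sq, ← Complex.normSq_eq_norm_sq,
    ← Complex.normSq_eq_norm_sq, ← add_div]
  congr 1
  simp only [Complex.normSq_apply, Complex.add_re, Complex.add_im, Complex.sub_re, Complex.sub_im]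
  ring

theorem KK_re (w : ℂ) (α : ℝ) :
    (KK w α).re = Pk (Complex.exp (α * I)) (Complex.exp w) := by
  unfold KK Pk
  rw [re_div, Complex.norm_exp_ofReal_mul_I, one_pow]

theorem hasDerivAt_KK {w : ℂ} (hw : w ∈ HP) (α : ℝ) :
    HasDerivAt (fun w => KK w α) (KK' w α) w := by
  unfold KK KK'
  have h1 : HasDerivAt (fun w : ℂ => Complex.exp (α * I) + Complex.exp w) (Complex.exp w) w :=
    (Complex.hasDerivAt_exp w).const_add _
  have h2 : HasDerivAt (fun w : ℂ => Complex.exp (α * I) - Complex.exp w) (-Complex.exp w) w :=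
    (Complex.hasDerivAt_exp w).const_sub _
  refine (h1.fun_div h2 (den_ne hw α)).congr_deriv ?_
  congr 1
  ring

theorem continuousOn_KK : ContinuousOn (fun p : ℂ × ℝ => KK p.1 p.2) (HP ×ˢ univ) := by
  unfold KK
  refine ContinuousOn.div (by fun_prop) (by fun_prop) fun p hp => den_ne hp.1 p.2

theorem continuousOn_KK' : ContinuousOn (fun p : ℂ × ℝ => KK' p.1 p.2) (HP ×ˢ univ) := by
  unfold KK'
  refine ContinuousOn.div (by fun_prop) (by fun_prop) fun p hp => ?_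
  exact pow_ne_zero 2 (den_ne hp.1 p.2)

theorem hasDerivAt_FF {ρ : ℝ → ℝ} (hρ : Continuous ρ) {w : ℂ} (hw : w ∈ HP) :
    HasDerivAt (FF ρ) (((2 * π)⁻¹ : ℝ) • ∫ α in (0:ℝ)..(2 * π), (ρ α : ℂ) * KK' w α) w := by
  have h := hasDerivAt_param (𝕜 := ℂ) (E := ℂ) (F := fun w α => (ρ α : ℂ) * KK w α)
    (F' := fun w α => (ρ α : ℂ) * KK' w α) (a := 0) (b := 2 * π) isOpen_HP hw
    (by
      have h1 : Continuous fun p : ℂ × ℝ => (ρ p.2 : ℂ) := by fun_prop
      exact h1.continuousOn.mul continuousOn_KK)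
    (by
      have h1 : Continuous fun p : ℂ × ℝ => (ρ p.2 : ℂ) := by fun_prop
      exact h1.continuousOn.mul continuousOn_KK')
    (fun x hx t => (hasDerivAt_KK hx t).const_mul _)
  exact h.const_smul ((2 * π)⁻¹ : ℝ)

theorem differentiableOn_FF {ρ : ℝ → ℝ} (hρ : Continuous ρ) : DifferentiableOn ℂ (FF ρ) HP :=
  fun _ hw => (hasDerivAt_FF hρ hw).differentiableAt.differentiableWithinAt

theorem FF_per (ρ : ℝ → ℝ) (w : ℂ) : FF ρ (w + 2 * π * I) = FF ρ w := by
  unfold FF KK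
  simp only [Complex.exp_periodic w]

theorem dFF_per (ρ : ℝ → ℝ) (w : ℂ) : deriv (FF ρ) (w + 2 * π * I) = deriv (FF ρ) w := by
  rw [← deriv_comp_add_const]
  congr 1
  funext z
  exact FF_per ρ z

/-- `t + iθ` -/
theorem pt_mem {t : ℝ} (ht : t < 0) (θ : ℝ) : (t : ℂ) + (θ : ℂ) * I ∈ HP := by
  simpa [HP] using ht

theorem uu_eq {ρ : ℝ → ℝ} (hρ : Continuous ρ) {t : ℝ} (ht : t < 0) (θ : ℝ) :
    uu ρ t θ = (FF ρ ((t : ℂ) + (θ : ℂ) * I)).re := by
  have hc : Continuous fun α : ℝ => (ρ α : ℂ) * KK ((t : ℂ) + (θ : ℂ) * I) α := by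
    refine Continuous.mul (by fun_prop) ?_
    exact continuousOn_KK.comp_continuous
      (by fun_prop : Continuous fun α : ℝ => (((t : ℂ) + (θ : ℂ) * I), α))
      fun α => ⟨pt_mem ht θ, trivial⟩
  have h1 := Complex.reCLM.intervalIntegral_comp_comm (μ := volume)
    (hc.intervalIntegrable 0 (2 * π))
  unfold uu FF
  rw [Complex.smul_re, smul_eq_mul]
  congr 1
  rw [show (∫ α in (0:ℝ)..(2 * π), (ρ α : ℂ) * KK ((t : ℂ) + (θ : ℂ) * I) α).re =
    Complex.reCLM (∫ α in (0:ℝ)..(2 * π), (ρ α : ℂ) * KK ((t : ℂ) + (θ : ℂ) * I) α) from rfl,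
    ← h1]
  refine intervalIntegral.integral_congr fun α _ => ?_
  simp only [Complex.reCLM_apply, Complex.re_ofReal_mul, KK_re]
  unfold ep
  ring

theorem uu_per (ρ : ℝ → ℝ) (t θ : ℝ) : uu ρ t (θ + 2 * π) = uu ρ t θ := by
  have h1 : ep t (θ + 2 * π) = ep t θ := by
    unfold ep
    push_cast
    rw [add_mul, ← add_assoc]
    exact Complex.exp_periodic _
  unfold uu
  rw [h1]

theorem uu_pos {ρ : ℝ → ℝ} (h : Dens ρ) {t : ℝ} (ht : t < 0) (θ : ℝ) : 0 < uu ρ t θ :=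
  Helper73.EK.uu_pos h ht θ

theorem hasDerivAt_re_t {G : ℂ → ℂ} {G' : ℂ} {t θ : ℝ}
    (h : HasDerivAt G G' ((t : ℂ) + (θ : ℂ) * I)) :
    HasDerivAt (fun t' : ℝ => (G ((t' : ℂ) + (θ : ℂ) * I)).re) G'.re t := by
  have h1 : HasDerivAt (fun t' : ℝ => (t' : ℂ) + (θ : ℂ) * I) 1 t :=
    (Complex.ofRealCLM.hasDerivAt.add_const _)
  have h2 : HasDerivAt (fun t' : ℝ => G ((t' : ℂ) + (θ : ℂ) * I)) (G' * 1) t :=
    HasDerivAt.comp t h h1
  have h3 : HasDerivAt (fun t' : ℝ => (G ((t' : ℂ) + (θ : ℂ) * I)).re) (G' * 1).re t :=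
    Complex.reCLM.hasFDerivAt.comp_hasDerivAt t h2
  rwa [mul_one] at h3

theorem hasDerivAt_re_th {G : ℂ → ℂ} {G' : ℂ} {t θ : ℝ}
    (h : HasDerivAt G G' ((t : ℂ) + (θ : ℂ) * I)) :
    HasDerivAt (fun θ' : ℝ => (G ((t : ℂ) + (θ' : ℂ) * I)).re) (-G'.im) θ := by
  have h1 : HasDerivAt (fun θ' : ℝ => (t : ℂ) + (θ' : ℂ) * I) I θ := by
    have := (Complex.ofRealCLM.hasDerivAt (x := θ)).mul_const I
    simpa using this.const_add (t : ℂ)
  have h2 : HasDerivAt (fun θ' : ℝ => G ((t : ℂ) + (θ' : ℂ) * I)) (G' * I) θ :=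
    HasDerivAt.comp θ h h1
  have h3 : HasDerivAt (fun θ' : ℝ => (G ((t : ℂ) + (θ' : ℂ) * I)).re) (G' * I).re θ :=
    Complex.reCLM.hasFDerivAt.comp_hasDerivAt θ h2
  rwa [Complex.mul_I_re] at h3

theorem hasDerivAt_im_th {G : ℂ → ℂ} {G' : ℂ} {t θ : ℝ}
    (h : HasDerivAt G G' ((t : ℂ) + (θ : ℂ) * I)) :
    HasDerivAt (fun θ' : ℝ => (G ((t : ℂ) + (θ' : ℂ) * I)).im) G'.re θ := by
  have h1 : HasDerivAt (fun θ' : ℝ => (t : ℂ) + (θ' : ℂ) * I) I θ := by
    have := (Complex.ofRealCLM.hasDerivAt (x := θ)).mul_const I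
    simpa using this.const_add (t : ℂ)
  have h2 : HasDerivAt (fun θ' : ℝ => G ((t : ℂ) + (θ' : ℂ) * I)) (G' * I) θ :=
    HasDerivAt.comp θ h h1
  have h3 : HasDerivAt (fun θ' : ℝ => (G ((t : ℂ) + (θ' : ℂ) * I)).im) (G' * I).im θ :=
    Complex.imCLM.hasFDerivAt.comp_hasDerivAt θ h2
  rwa [Complex.mul_I_im] at h3

variable {ρ : ℝ → ℝ}

theorem FF_hasDerivAt (hρ : Continuous ρ) {w : ℂ} (hw : w ∈ HP) :
    HasDerivAt (FF ρ) (deriv (FF ρ) w) w := (hasDerivAt_FF hρ hw).differentiableAt.hasDerivAt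

theorem dFF_hasDerivAt (hρ : Continuous ρ) {w : ℂ} (hw : w ∈ HP) :
    HasDerivAt (deriv (FF ρ)) (deriv (deriv (FF ρ)) w) w :=
  (((differentiableOn_FF hρ).deriv isOpen_HP).differentiableAt (isOpen_HP.mem_nhds hw)).hasDerivAt

theorem cont_FF (hρ : Continuous ρ) : ContinuousOn (FF ρ) HP :=
  (differentiableOn_FF hρ).continuousOn

theorem cont_dFF (hρ : Continuous ρ) : ContinuousOn (deriv (FF ρ)) HP :=
  ((differentiableOn_FF hρ).deriv isOpen_HP).continuousOn

theorem cont_ddFF (hρ : Continuous ρ) : ContinuousOn (deriv (deriv (FF ρ))) HP :=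
  (((differentiableOn_FF hρ).deriv isOpen_HP).deriv isOpen_HP).continuousOn

theorem eventually_neg {t : ℝ} (ht : t < 0) : ∀ᶠ t' in nhds t, t' < 0 := eventually_lt_nhds ht

theorem hasDerivAt_uu_t (hρ : Continuous ρ) {t : ℝ} (ht : t < 0) (θ : ℝ) :
    HasDerivAt (fun t' => uu ρ t' θ) (deriv (FF ρ) ((t : ℂ) + (θ : ℂ) * I)).re t := by
  have h := hasDerivAt_re_t (FF_hasDerivAt hρ (pt_mem ht θ))
  refine h.congr_of_eventuallyEq ?_
  filter_upwards [eventually_neg ht] with t' ht'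
  exact uu_eq hρ ht' θ

theorem hasDerivAt_uu_th (hρ : Continuous ρ) {t : ℝ} (ht : t < 0) (θ : ℝ) :
    HasDerivAt (fun θ' => uu ρ t θ') (-(deriv (FF ρ) ((t : ℂ) + (θ : ℂ) * I)).im) θ := by
  have h := hasDerivAt_re_th (FF_hasDerivAt hρ (pt_mem ht θ))
  refine h.congr_of_eventuallyEq ?_
  filter_upwards with θ'
  exact uu_eq hρ ht θ'

theorem ut_eq (hρ : Continuous ρ) {t : ℝ} (ht : t < 0) (θ : ℝ) :
    ut ρ t θ = (deriv (FF ρ) ((t : ℂ) + (θ : ℂ) * I)).re := (hasDerivAt_uu_t hρ ht θ).deriv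

theorem uth_eq (hρ : Continuous ρ) {t : ℝ} (ht : t < 0) (θ : ℝ) :
    uth ρ t θ = -(deriv (FF ρ) ((t : ℂ) + (θ : ℂ) * I)).im := (hasDerivAt_uu_th hρ ht θ).deriv

/-- the closed formula for the derivative of `FF` -/
theorem deriv_FF (hρ : Continuous ρ) {w : ℂ} (hw : w ∈ HP) :
    deriv (FF ρ) w = ((2 * π)⁻¹ : ℝ) • ∫ α in (0:ℝ)..(2 * π), (ρ α : ℂ) * KK' w α :=
  (hasDerivAt_FF hρ hw).deriv

theorem contOn_comp {G : ℂ → ℂ} (hG : ContinuousOn G HP) :
    ContinuousOn (fun p : ℝ × ℝ => G ((p.1 : ℂ) + (p.2 : ℂ) * I)) (Iio 0 ×ˢ univ) :=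
  hG.comp (by fun_prop) fun p hp => pt_mem hp.1 p.2

theorem cont_uu (hρ : Continuous ρ) :
    ContinuousOn (fun p : ℝ × ℝ => uu ρ p.1 p.2) (Iio 0 ×ˢ univ) := by
  have h := Complex.continuous_re.comp_continuousOn (contOn_comp (cont_FF hρ))
  refine h.congr fun p hp => ?_
  exact uu_eq hρ hp.1 p.2

theorem cont_ut (hρ : Continuous ρ) :
    ContinuousOn (fun p : ℝ × ℝ => ut ρ p.1 p.2) (Iio 0 ×ˢ univ) := by
  have h := Complex.continuous_re.comp_continuousOn (contOn_comp (cont_dFF hρ))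
  refine h.congr fun p hp => ?_
  exact ut_eq hρ hp.1 p.2

theorem cont_uth (hρ : Continuous ρ) :
    ContinuousOn (fun p : ℝ × ℝ => uth ρ p.1 p.2) (Iio 0 ×ˢ univ) := by
  have h := (Complex.continuous_im.comp_continuousOn (contOn_comp (cont_dFF hρ))).neg
  refine h.congr fun p hp => ?_
  exact uth_eq hρ hp.1 p.2

noncomputable def utt (ρ : ℝ → ℝ) (t θ : ℝ) : ℝ :=
  (deriv (deriv (FF ρ)) ((t : ℂ) + (θ : ℂ) * I)).re

theorem cont_utt (hρ : Continuous ρ) :
    ContinuousOn (fun p : ℝ × ℝ => utt ρ p.1 p.2) (Iio 0 ×ˢ univ) :=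
  Complex.continuous_re.comp_continuousOn (contOn_comp (cont_ddFF hρ))

theorem hasDerivAt_ut_t (hρ : Continuous ρ) {t : ℝ} (ht : t < 0) (θ : ℝ) :
    HasDerivAt (fun t' => ut ρ t' θ) (utt ρ t θ) t := by
  have h := hasDerivAt_re_t (dFF_hasDerivAt hρ (pt_mem ht θ))
  refine h.congr_of_eventuallyEq ?_
  filter_upwards [eventually_neg ht] with t' ht'
  exact ut_eq hρ ht' θ

/-- Laplace's equation: `∂_θ uth = - utt` -/
theorem hasDerivAt_uth_th (hρ : Continuous ρ) {t : ℝ} (ht : t < 0) (θ : ℝ) :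
    HasDerivAt (fun θ' => uth ρ t θ') (-utt ρ t θ) θ := by
  have h := (hasDerivAt_im_th (dFF_hasDerivAt hρ (pt_mem ht θ))).fun_neg
  refine h.congr_of_eventuallyEq ?_
  filter_upwards with θ'
  exact uth_eq hρ ht θ'

theorem hasDerivAt_uu_t' (hρ : Continuous ρ) {t : ℝ} (ht : t < 0) (θ : ℝ) :
    HasDerivAt (fun t' => uu ρ t' θ) (ut ρ t θ) t := by
  rw [ut_eq hρ ht]
  exact hasDerivAt_uu_t hρ ht θ

theorem hasDerivAt_uu_th' (hρ : Continuous ρ) {t : ℝ} (ht : t < 0) (θ : ℝ) :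
    HasDerivAt (fun θ' => uu ρ t θ') (uth ρ t θ) θ := by
  rw [uth_eq hρ ht]
  exact hasDerivAt_uu_th hρ ht θ

theorem uth_per (hρ : Continuous ρ) {t : ℝ} (ht : t < 0) (θ : ℝ) :
    uth ρ t (θ + 2 * π) = uth ρ t θ := by
  rw [uth_eq hρ ht, uth_eq hρ ht]
  have h1 : (t : ℂ) + ((θ + 2 * π : ℝ) : ℂ) * I = ((t : ℂ) + (θ : ℂ) * I) + 2 * π * I := by
    push_cast
    ring
  rw [h1, dFF_per]

theorem slice {G : ℝ → ℝ → ℝ} (hG : ContinuousOn (fun p : ℝ × ℝ => G p.1 p.2) (Iio 0 ×ˢ univ))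
    {t : ℝ} (ht : t < 0) : Continuous fun θ => G t θ :=
  hG.comp_continuous (by fun_prop : Continuous fun θ : ℝ => (t, θ)) fun _ => ⟨ht, trivial⟩

theorem logC (h : Dens ρ) :
    ContinuousOn (fun p : ℝ × ℝ => Real.log (uu ρ p.1 p.2)) (Iio 0 ×ˢ univ) :=
  (cont_uu h.cont).log fun p hp => (uu_pos h hp.1 p.2).ne'

theorem cont_i0 (h : Dens ρ) : ContinuousOn
    (fun p : ℝ × ℝ => uu ρ p.1 p.2 * Real.log (uu ρ p.1 p.2)) (Iio 0 ×ˢ univ) :=
  (cont_uu h.cont).mul (logC h)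

theorem cont_i1 (h : Dens ρ) : ContinuousOn
    (fun p : ℝ × ℝ => (1 + Real.log (uu ρ p.1 p.2)) * ut ρ p.1 p.2) (Iio 0 ×ˢ univ) :=
  (continuousOn_const.add (logC h)).mul (cont_ut h.cont)

theorem cont_i2 (h : Dens ρ) : ContinuousOn
    (fun p : ℝ × ℝ => (ut ρ p.1 p.2 ^ 2 + uth ρ p.1 p.2 ^ 2) / uu ρ p.1 p.2) (Iio 0 ×ˢ univ) :=
  (((cont_ut h.cont).pow 2).add ((cont_uth h.cont).pow 2)).div (cont_uu h.cont)
    fun p hp => (uu_pos h hp.1 p.2).ne'

theorem cont_i1' (h : Dens ρ) : ContinuousOn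
    (fun p : ℝ × ℝ => ut ρ p.1 p.2 / uu ρ p.1 p.2 * ut ρ p.1 p.2 +
      (1 + Real.log (uu ρ p.1 p.2)) * utt ρ p.1 p.2) (Iio 0 ×ˢ univ) :=
  (((cont_ut h.cont).div (cont_uu h.cont) fun p hp => (uu_pos h hp.1 p.2).ne').mul
    (cont_ut h.cont)).add ((continuousOn_const.add (logC h)).mul (cont_utt h.cont))

/-- integration by parts in `θ` -/
theorem parts (h : Dens ρ) {t : ℝ} (ht : t < 0) :
    ∫ θ in (-π)..π, (uth ρ t θ / uu ρ t θ * uth ρ t θ +
      (1 + Real.log (uu ρ t θ)) * (-utt ρ t θ)) = 0 := by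
  have hd : ∀ θ : ℝ, HasDerivAt (fun θ => (1 + Real.log (uu ρ t θ)) * uth ρ t θ)
      (uth ρ t θ / uu ρ t θ * uth ρ t θ + (1 + Real.log (uu ρ t θ)) * (-utt ρ t θ)) θ := by
    intro θ
    have h1 := ((hasDerivAt_uu_th' h.cont ht θ).log (uu_pos h ht θ).ne').const_add 1
    exact h1.fun_mul (hasDerivAt_uth_th h.cont ht θ)
  have hc : Continuous fun θ => uth ρ t θ / uu ρ t θ * uth ρ t θ +
      (1 + Real.log (uu ρ t θ)) * (-utt ρ t θ) := by
    have c1 := slice (cont_uth h.cont) ht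
    have c2 := slice (cont_uu h.cont) ht
    have c3 := slice (cont_utt h.cont) ht
    have c4 := slice (G := fun t θ => Real.log (uu ρ t θ)) (logC h) ht
    exact ((c1.div c2 fun θ => (uu_pos h ht θ).ne').mul c1).add
      ((continuous_const.add c4).mul c3.neg)
  rw [intervalIntegral.integral_eq_sub_of_hasDerivAt (fun θ _ => hd θ)
    (hc.intervalIntegrable _ _)]
  have e1 : uu ρ t π = uu ρ t (-π) := by
    rw [← uu_per ρ t (-π)]
    congr 1
    ring
  have e2 : uth ρ t π = uth ρ t (-π) := by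
    rw [← uth_per h.cont ht (-π)]
    congr 1
    ring
  rw [e1, e2, sub_self]

theorem E2a {ρ : ℝ → ℝ} (h : Dens ρ) {t : ℝ} (ht : t < 0) :
    HasDerivAt (AA ρ) (A1 ρ t) t ∧ HasDerivAt (A1 ρ) (A2 ρ t) t ∧ ContinuousAt (A2 ρ) t := by
  refine ⟨?_, ?_, ?_⟩
  · have h1 := hasDerivAt_param (𝕜 := ℝ) (E := ℝ)
      (F := fun t θ => uu ρ t θ * Real.log (uu ρ t θ))
      (F' := fun t θ => (1 + Real.log (uu ρ t θ)) * ut ρ t θ) (a := -π) (b := π)
      isOpen_Iio (x₀ := t) ht (cont_i0 h) (cont_i1 h)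
      (fun x hx θ => by
        have d1 := hasDerivAt_uu_t' h.cont hx θ
        have hp := (uu_pos h hx θ).ne'
        refine (d1.fun_mul (d1.log hp)).congr_deriv ?_
        field_simp
        ring)
    exact h1.const_mul _
  · have h1 := hasDerivAt_param (𝕜 := ℝ) (E := ℝ)
      (F := fun t θ => (1 + Real.log (uu ρ t θ)) * ut ρ t θ)
      (F' := fun t θ => ut ρ t θ / uu ρ t θ * ut ρ t θ +
        (1 + Real.log (uu ρ t θ)) * utt ρ t θ) (a := -π) (b := π)
      isOpen_Iio (x₀ := t) ht (cont_i1 h) (cont_i1' h)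
      (fun x hx θ => by
        have d1 := hasDerivAt_uu_t' h.cont hx θ
        have hp := (uu_pos h hx θ).ne'
        exact ((d1.log hp).const_add 1).fun_mul (hasDerivAt_ut_t h.cont hx θ))
    have h2 : ∫ θ in (-π)..π, (ut ρ t θ / uu ρ t θ * ut ρ t θ +
        (1 + Real.log (uu ρ t θ)) * utt ρ t θ) =
        ∫ θ in (-π)..π, (ut ρ t θ ^ 2 + uth ρ t θ ^ 2) / uu ρ t θ := by
      have h3 := parts h ht
      have i1 : IntervalIntegrable (fun θ => ut ρ t θ / uu ρ t θ * ut ρ t θ +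
        (1 + Real.log (uu ρ t θ)) * utt ρ t θ) volume (-π) π :=
        (slice (G := fun t θ => ut ρ t θ / uu ρ t θ * ut ρ t θ +
        (1 + Real.log (uu ρ t θ)) * utt ρ t θ) (cont_i1' h) ht).intervalIntegrable _ _
      have i2 : IntervalIntegrable (fun θ => uth ρ t θ / uu ρ t θ * uth ρ t θ +
        (1 + Real.log (uu ρ t θ)) * (-utt ρ t θ)) volume (-π) π := by
        have c1 := slice (cont_uth h.cont) ht
        have c2 := slice (cont_uu h.cont) ht
        have c3 := slice (cont_utt h.cont) ht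
        have c4 := slice (G := fun t θ => Real.log (uu ρ t θ)) (logC h) ht
        exact (((c1.div c2 fun θ => (uu_pos h ht θ).ne').mul c1).add
          ((continuous_const.add c4).mul c3.neg)).intervalIntegrable _ _
      have h4 := intervalIntegral.integral_add i1 i2
      rw [h3, add_zero] at h4
      rw [← h4]
      refine intervalIntegral.integral_congr fun θ _ => ?_
      have hp := (uu_pos h ht θ).ne'
      field_simp
      ring
    rw [h2] at h1
    exact h1.const_mul _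
  · exact (continuousAt_param (X := ℝ) (E := ℝ)
      (F := fun t θ => (ut ρ t θ ^ 2 + uth ρ t θ ^ 2) / uu ρ t θ) (a := -π) (b := π)
      isOpen_Iio (x₀ := t) ht (cont_i2 h)).const_mul _

end Pool.Agent.Helper48.EK

end
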