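import Pool.Agent.Helper60.BE.T01

set_option linter.all false

section

set_option autoImplicit false
open Complex MeasureTheory Metric Set
open scoped Real ENNReal ComplexConjugate

/-! The logarithmic kernel: `∫_{|u| < M} (conj u)⁻¹ / (v - u) dA(u) = 2π (log |v| - log M)`. -/

namespace Pool.Agent.Helper39.Area

theorem angular_log {ρ : ℝ} (hρ : 0 < ρ) {v : ℂ} (hv : ‖v‖ ≠ ρ) :
    (∫ θ in Ioo (-π) π, (conj (Complex.polarCoord.symm (ρ, θ)))⁻¹ /
      (v - Complex.polarCoord.symm (ρ, θ))) =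
      if ρ < ‖v‖ then 0 else - (2 * π) * ((ρ:ℂ) ^ 2)⁻¹ := by
  have e1 : ∀ θ : ℝ, Complex.polarCoord.symm (ρ, θ) = circleMap 0 ρ θ := by
    intro θ
    rw [Complex.polarCoord_symm_apply, circleMap, zero_add, Complex.exp_mul_I]
    simp
  simp_rw [e1]
  rw [← integral_Ioc_eq_integral_Ioo, ← intervalIntegral.integral_of_le (by linarith [Real.pi_pos])]
  have hper : Function.Periodic (fun θ : ℝ => (conj (circleMap 0 ρ θ))⁻¹ / (v - circleMap 0 ρ θ))
      (2 * π) := by
    intro θ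
    simp only [periodic_circleMap 0 ρ θ]
  have h2 := hper.intervalIntegral_add_eq (-π) 0
  rw [show -π + 2 * π = π by ring, zero_add] at h2
  rw [h2]
  have e2 : (∫ θ in (0:ℝ)..2 * π, (conj (circleMap 0 ρ θ))⁻¹ / (v - circleMap 0 ρ θ)) =
      (∮ w in C(0, ρ), (((ρ:ℂ) ^ 2)⁻¹ * (-I)) * (v - w)⁻¹) := by
    rw [circleIntegral]
    apply intervalIntegral.integral_congr
    intro θ _
    simp only [deriv_circleMap, smul_eq_mul]
    have hne : circleMap 0 ρ θ ≠ 0 := circleMap_ne_center (c := 0) (θ := θ) hρ.ne'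
    have hρ' : (ρ:ℂ) ≠ 0 := by exact_mod_cast hρ.ne'
    have hc : (conj (circleMap 0 ρ θ))⁻¹ = ((ρ:ℂ) ^ 2)⁻¹ * circleMap 0 ρ θ := by
      have h3 : circleMap 0 ρ θ * conj (circleMap 0 ρ θ) = (ρ:ℂ) ^ 2 := by
        rw [Complex.mul_conj, Complex.normSq_eq_norm_sq]
        simp [abs_of_pos hρ]
      have h4 : conj (circleMap 0 ρ θ) ≠ 0 := by simpa using hne
      rw [inv_eq_iff_eq_inv, mul_inv, inv_inv, ← h3]
      field_simp
    rw [hc, div_eq_mul_inv]
    have hI : I * -I = 1 := by simp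
    linear_combination (-(((ρ:ℂ) ^ 2)⁻¹ * circleMap 0 ρ θ * (v - circleMap 0 ρ θ)⁻¹)) * hI
  rw [e2, circleIntegral.integral_const_mul]
  split_ifs with h
  · rw [circle_inv_out hρ h, mul_zero]
  · rw [circle_inv_in (lt_of_le_of_ne (not_lt.mp h) hv)]
    have hI : I * -I = 1 := by simp
    linear_combination (-(2 * π * ((ρ:ℂ) ^ 2)⁻¹)) * hI

theorem inv_mul_inv_le (u v : ℂ) (hv : v ≠ 0) :
    ‖u‖⁻¹ * ‖v - u‖⁻¹ ≤ ‖v‖⁻¹ * (‖u‖⁻¹ + ‖v - u‖⁻¹) := by
  by_cases hu : u = 0
  · subst hu; simp; positivity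
  by_cases huv : v - u = 0
  · rw [huv]; simp
    positivity
  have h1 : 0 < ‖u‖ := norm_pos_iff.mpr hu
  have h2 : 0 < ‖v - u‖ := norm_pos_iff.mpr huv
  have h3 : 0 < ‖v‖ := norm_pos_iff.mpr hv
  have h4 : ‖v‖ ≤ ‖u‖ + ‖v - u‖ := by
    calc ‖v‖ = ‖u + (v - u)‖ := by congr 1; ring
      _ ≤ _ := norm_add_le _ _
  rw [← sub_nonneg]
  have : ‖v‖⁻¹ * (‖u‖⁻¹ + ‖v - u‖⁻¹) - ‖u‖⁻¹ * ‖v - u‖⁻¹ =
      (‖u‖ + ‖v - u‖ - ‖v‖) / (‖v‖ * ‖u‖ * ‖v - u‖) := by
    field_simp
    ring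
  rw [this]
  apply div_nonneg (by linarith) (by positivity)

theorem measurable_logkernel (v : ℂ) : Measurable (fun u : ℂ => (conj u)⁻¹ / (v - u)) := by
  apply Measurable.div _ (by fun_prop)
  exact (Complex.continuous_conj.measurable).inv

theorem integrable_logkernel (M : ℝ) {v : ℂ} (hv : v ≠ 0) :
    IntegrableOn (fun u : ℂ => (conj u)⁻¹ / (v - u)) (ball (0:ℂ) M) := by
  have h0 := integrable_inv 0 M
  simp only [zero_sub, norm_neg] at h0
  have h := (h0.add (integrable_inv v M)).const_mul (‖v‖⁻¹)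
  refine Integrable.mono' h (measurable_logkernel v).aestronglyMeasurable ?_
  refine Filter.Eventually.of_forall ?_
  intro u
  rw [norm_div, norm_inv, RCLike.norm_conj, div_eq_mul_inv]
  exact inv_mul_inv_le u v hv

theorem logkernel (M : ℝ) {v : ℂ} (hv0 : v ≠ 0) (hv : ‖v‖ < M) :
    ∫ u in ball (0:ℂ) M, (conj u)⁻¹ / (v - u) = ((2 * π * (Real.log ‖v‖ - Real.log M) : ℝ) : ℂ) := by
  have hvpos : 0 < ‖v‖ := norm_pos_iff.mpr hv0
  have hM : 0 < M := hvpos.trans hv
  set f : ℂ → ℂ := (ball (0:ℂ) M).indicator (fun u => (conj u)⁻¹ / (v - u)) with hf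
  have hfi : Integrable f := by
    rw [hf, integrable_indicator_iff measurableSet_ball]
    exact integrable_logkernel M hv0
  have hfm : Measurable f := (measurable_logkernel v).indicator measurableSet_ball
  have hsm : Measurable (fun p : ℝ × ℝ => (Complex.polarCoord.symm p : ℂ)) := by
    simp only [Complex.polarCoord_symm_apply]
    fun_prop
  have hprod : IntegrableOn (fun p : ℝ × ℝ => p.1 • f (Complex.polarCoord.symm p))
      (Ioi (0:ℝ) ×ˢ Ioo (-π) π) := by
    refine ⟨(measurable_fst.smul (hfm.comp hsm)).aestronglyMeasurable, ?_⟩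
    rw [hasFiniteIntegral_iff_enorm]
    have h1 := Complex.lintegral_comp_polarCoord_symm (fun u => ‖f u‖ₑ)
    have h2 : (∫⁻ p in Ioi (0:ℝ) ×ˢ Ioo (-π) π, ‖p.1 • f (Complex.polarCoord.symm p)‖ₑ) =
        ∫⁻ p in polarCoord.target, ENNReal.ofReal p.1 • ‖f (Complex.polarCoord.symm p)‖ₑ := by
      apply setLIntegral_congr_fun (measurableSet_Ioi.prod measurableSet_Ioo)
      rintro ⟨r, θ⟩ ⟨hr, hθ⟩
      simp only [mem_Ioi] at hr
      simp only [smul_eq_mul]
      rw [enorm_smul]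
      congr 1
      rw [← ofReal_norm, Real.norm_of_nonneg hr.le]
    rw [h2, h1]
    exact hfi.2
  rw [← integral_indicator measurableSet_ball, ← hf, ← Complex.integral_comp_polarCoord_symm]
  rw [show polarCoord.target = Ioi (0:ℝ) ×ˢ Ioo (-π) π from rfl]
  rw [Measure.volume_eq_prod] at hprod ⊢
  rw [setIntegral_prod _ hprod]
  -- the inner integral
  have hin : ∀ r ∈ Ioi (0:ℝ), r ≠ ‖v‖ → r ≠ M →
      (∫ θ in Ioo (-π) π, (r, θ).1 • f (Complex.polarCoord.symm (r, θ))) =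
        (Ioo ‖v‖ M).indicator (fun r : ℝ => ((-(2 * π) * (r⁻¹) : ℝ) : ℂ)) r := by
    intro r hr hrv hrM'
    simp only [mem_Ioi] at hr
    by_cases hrM : r < M
    · have e : ∀ θ, (r, θ).1 • f (Complex.polarCoord.symm (r, θ)) =
          (r : ℂ) * ((conj (Complex.polarCoord.symm (r, θ)))⁻¹ / (v - Complex.polarCoord.symm (r, θ))) := by
        intro θ
        rw [hf, indicator_of_mem (by rw [mem_ball, dist_zero_right, Complex.norm_polarCoord_symm, abs_of_pos hr]; exact hrM)]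
        simp
      simp_rw [e]
      rw [integral_const_mul, angular_log hr (Ne.symm hrv)]
      have hr' : (r:ℂ) ≠ 0 := by exact_mod_cast hr.ne'
      by_cases h : r < ‖v‖
      · rw [if_pos h, indicator_of_notMem (fun h' => absurd h'.1 (not_lt.mpr h.le)), mul_zero]
      · rw [if_neg h, indicator_of_mem (show r ∈ Ioo ‖v‖ M from
          ⟨lt_of_le_of_ne (not_lt.mp h) (Ne.symm hrv), hrM⟩)]
        push_cast
        field_simp
    · have e : ∀ θ, (r, θ).1 • f (Complex.polarCoord.symm (r, θ)) = 0 := by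
        intro θ
        rw [hf, indicator_of_notMem (by rw [mem_ball, dist_zero_right, Complex.norm_polarCoord_symm, abs_of_pos hr]; exact hrM)]
        simp
      simp_rw [e]
      rw [indicator_of_notMem (fun h' => hrM h'.2)]
      simp
  have hae : (∫ r in Ioi (0:ℝ), ∫ θ in Ioo (-π) π, (r, θ).1 • f (Complex.polarCoord.symm (r, θ))) =
      ∫ r in Ioi (0:ℝ), (Ioo ‖v‖ M).indicator (fun r : ℝ => ((-(2 * π) * (r⁻¹) : ℝ) : ℂ)) r := by
    apply setIntegral_congr_ae measurableSet_Ioi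
    have h1 : ∀ᵐ r : ℝ, r ≠ ‖v‖ := by
      simp [ae_iff, measure_singleton]
    have h2 : ∀ᵐ r : ℝ, r ≠ M := by
      simp [ae_iff, measure_singleton]
    filter_upwards [h1, h2] with r hr1 hr2 hr
    exact hin r hr hr1 hr2
  have hsub : Ioo ‖v‖ M ⊆ Ioi (0:ℝ) := fun r hr => hvpos.trans hr.1
  rw [hae, setIntegral_indicator measurableSet_Ioo, inter_eq_self_of_subset_right hsub,
    integral_complex_ofReal, ← integral_Ioc_eq_integral_Ioo,
    ← intervalIntegral.integral_of_le hv.le, intervalIntegral.integral_const_mul,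
    integral_inv_of_pos hvpos hM, Real.log_div hM.ne' hvpos.ne']
  congr 1
  ring

end Pool.Agent.Helper39.Area

end

section

set_option autoImplicit false
open Complex MeasureTheory Metric Set Polynomial
open scoped Real ENNReal ComplexConjugate

/-! The area inequality for a polynomial of the exterior map. -/

namespace Pool.Agent.Helper39.Area

variable {β : ℂ → ℂ}

theorem integrable_kernel_poly (p : ℂ[X]) (M : ℝ) (v : ℂ) :
    IntegrableOn (fun u : ℂ => conj (p.eval u) / (v - u)) (ball (0:ℂ) M) := by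
  induction p using Polynomial.induction_on' with
  | add p q hp hq =>
    have : (fun u : ℂ => conj ((p + q).eval u) / (v - u)) =
        fun u => conj (p.eval u) / (v - u) + conj (q.eval u) / (v - u) := by
      funext u; rw [eval_add, map_add, add_div]
    rw [this]
    exact hp.add hq
  | monomial n a =>
    have : (fun u : ℂ => conj ((monomial n a).eval u) / (v - u)) =
        fun u => conj a * (conj u ^ n / (v - u)) := by
      funext u; rw [eval_monomial, map_mul, map_pow, mul_div_assoc]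
    rw [this]
    exact (integrable_kernel n M v).const_mul _

theorem kernel_poly (p : ℂ[X]) (M : ℝ) (v : ℂ) (hv : ‖v‖ < M) :
    ∫ u in ball (0:ℂ) M, conj ((derivative p).eval u) / (v - u) =
      π * (conj (p.eval v) - conj (p.eval 0)) := by
  induction p using Polynomial.induction_on' with
  | add p q hp hq =>
    have : (fun u : ℂ => conj ((derivative (p + q)).eval u) / (v - u)) =
        fun u => conj ((derivative p).eval u) / (v - u) + conj ((derivative q).eval u) / (v - u) := by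
      funext u; rw [derivative_add, eval_add, map_add, add_div]
    rw [this, integral_add (integrable_kernel_poly _ M v) (integrable_kernel_poly _ M v), hp, hq]
    simp only [eval_add, map_add]
    ring
  | monomial n a =>
    cases n with
    | zero => simp
    | succ n =>
      have : (fun u : ℂ => conj ((derivative (monomial (n + 1) a)).eval u) / (v - u)) =
          fun u => conj a * (n + 1) * (conj u ^ n / (v - u)) := by
        funext u
        rw [derivative_monomial, eval_monomial]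
        simp only [Nat.add_sub_cancel, map_mul, map_pow, Complex.conj_natCast]
        push_cast
        ring
      rw [this, integral_const_mul, kernel n M v hv]
      have hn : ((n : ℂ) + 1) ≠ 0 := by exact_mod_cast Nat.succ_ne_zero n
      simp only [eval_monomial, map_mul, map_pow]
      rw [map_zero, zero_pow (Nat.succ_ne_zero n)]
      field_simp
      ring

theorem cont_phi (h : DifferentiableOn ℂ β (ball 0 1)) {ρ : ℝ} (hρ : 0 < ρ) (hρ1 : ρ < 1) :
    ContinuousOn (phi β) (sphere 0 ρ) := fun ζ hζ =>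
  (hasDerivAt_phi h (mem_ball_of_sphere hρ1 (sphere_subset_closedBall hζ))
    (sphere_ne hρ hζ)).continuousAt.continuousWithinAt

theorem cont_dphi (h : DifferentiableOn ℂ β (ball 0 1)) {ρ : ℝ} (hρ : 0 < ρ) (hρ1 : ρ < 1) :
    ContinuousOn (dphi β) (sphere 0 ρ) := by
  apply ContinuousOn.add
  · apply ContinuousOn.neg
    apply ContinuousOn.inv₀ (by fun_prop)
    intro ζ hζ
    exact pow_ne_zero _ (sphere_ne hρ hζ)
  · exact (h.deriv isOpen_ball).continuousOn.mono
      (fun ζ hζ => mem_ball_of_sphere hρ1 (sphere_subset_closedBall hζ))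

theorem circleMap_mem {ρ : ℝ} (hρ : 0 < ρ) (θ : ℝ) : circleMap 0 ρ θ ∈ sphere (0:ℂ) ρ :=
  circleMap_mem_sphere 0 hρ.le θ

/-- the inner contour integral -/
theorem inner_int (h : DifferentiableOn ℂ β (ball 0 1)) {ρ : ℝ} (hρ : 0 < ρ) (hρ1 : ρ < 1)
    (P : ℂ[X]) {u : ℂ} (hu : u ∉ phi β '' sphere 0 ρ) :
    (∮ ζ in C(0, ρ), P.eval (phi β ζ) * dphi β ζ / (phi β ζ - u)) =
      P.eval u * ∮ ζ in C(0, ρ), dphi β ζ / (phi β ζ - u) := by
  have hne : ∀ ζ ∈ sphere (0:ℂ) ρ, phi β ζ - u ≠ 0 := by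
    intro ζ hζ h'
    exact hu ⟨ζ, hζ, sub_eq_zero.mp h'⟩
  have hc1 : CircleIntegrable (fun ζ => P.eval u * (dphi β ζ / (phi β ζ - u))) 0 ρ := by
    apply ContinuousOn.circleIntegrable hρ.le
    exact continuousOn_const.mul ((cont_dphi h hρ hρ1).div
      ((cont_phi h hρ hρ1).sub continuousOn_const) hne)
  have hc2 : CircleIntegrable (fun ζ => (P /ₘ (X - C u)).eval (phi β ζ) * dphi β ζ) 0 ρ := by
    apply ContinuousOn.circleIntegrable hρ.le
    exact ((P /ₘ (X - C u)).continuous.comp_continuousOn (cont_phi h hρ hρ1)).mul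
      (cont_dphi h hρ hρ1)
  have h1 : (∮ ζ in C(0, ρ), P.eval (phi β ζ) * dphi β ζ / (phi β ζ - u)) =
      ∮ ζ in C(0, ρ), (P.eval u * (dphi β ζ / (phi β ζ - u)) +
        (P /ₘ (X - C u)).eval (phi β ζ) * dphi β ζ) := by
    apply circleIntegral.integral_congr hρ.le
    intro ζ hζ
    have h2 : P.eval (phi β ζ) = P.eval u + (phi β ζ - u) * (P /ₘ (X - C u)).eval (phi β ζ) := by
      have h3 := modByMonic_add_div P (X - C u)
      have h4 := congrArg (eval (phi β ζ)) h3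
      rw [modByMonic_X_sub_C_eq_C_eval] at h4
      simpa using h4.symm
    simp only
    rw [h2]
    have := hne ζ hζ
    field_simp
  rw [h1, circleIntegral.integral_add hc1 hc2, exact h hρ hρ1, add_zero,
    circleIntegral.integral_const_mul]

/-- the area inequality: `∮ conj P dP` is a nonpositive multiple of `2 i`. -/
theorem area_ineq (h : Ext β) {ρ : ℝ} (hρ : 0 < ρ) (hρ1 : ρ < 1) (p : ℂ[X]) :
    ∃ c : ℝ, 0 ≤ c ∧ (∮ ζ in C(0, ρ), conj (p.eval (phi β ζ)) *
      ((derivative p).eval (phi β ζ) * dphi β ζ)) = -(2 * I) * c := by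
  have hphic := cont_phi h.diff hρ hρ1
  have hdc := cont_dphi h.diff hρ hρ1
  -- the radius
  obtain ⟨M, hM⟩ : ∃ M : ℝ, ∀ ζ ∈ sphere (0:ℂ) ρ, ‖phi β ζ‖ < M := by
    obtain ⟨M, hM⟩ := (isCompact_sphere (0:ℂ) ρ).exists_bound_of_continuousOn hphic
    exact ⟨M + 1, fun ζ hζ => lt_of_le_of_lt (hM ζ hζ) (lt_add_one M)⟩
  have hMpos : 0 < M := lt_of_le_of_lt (norm_nonneg _) (hM _ (circleMap_mem hρ 0))
  set D : ℂ → ℂ := fun ζ => (derivative p).eval (phi β ζ) * dphi β ζ with hD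
  have hDc : ContinuousOn D (sphere 0 ρ) :=
    ((derivative p).continuous.comp_continuousOn hphic).mul hdc
  -- Step 1: rewrite with the kernel
  have e1 : (∮ ζ in C(0, ρ), conj (p.eval (phi β ζ)) * D ζ) =
      ∮ ζ in C(0, ρ), ((π:ℂ)⁻¹ * (D ζ * ∫ u in ball (0:ℂ) M,
        conj ((derivative p).eval u) / (phi β ζ - u)) + conj (p.eval 0) * D ζ) := by
    apply circleIntegral.integral_congr hρ.le
    intro ζ hζ
    simp only
    rw [kernel_poly p M _ (hM ζ hζ)]
    have : (π:ℂ) ≠ 0 := by exact_mod_cast Real.pi_ne_zero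
    field_simp
    ring
  have hpc : ContinuousOn (fun ζ => conj (p.eval (phi β ζ))) (sphere 0 ρ) :=
    Complex.continuous_conj.comp_continuousOn (p.continuous.comp_continuousOn hphic)
  have hci2 : CircleIntegrable (fun ζ => conj (p.eval 0) * D ζ) 0 ρ :=
    (continuousOn_const.mul hDc).circleIntegrable hρ.le
  have hci1 : CircleIntegrable (fun ζ => (π:ℂ)⁻¹ * (D ζ * ∫ u in ball (0:ℂ) M,
        conj ((derivative p).eval u) / (phi β ζ - u))) 0 ρ := by
    apply ContinuousOn.circleIntegrable hρ.le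
    have hcc : ContinuousOn (fun ζ => conj (p.eval (phi β ζ)) * D ζ - conj (p.eval 0) * D ζ)
        (sphere 0 ρ) := (hpc.mul hDc).sub (continuousOn_const.mul hDc)
    apply hcc.congr
    intro ζ hζ
    simp only
    rw [kernel_poly p M _ (hM ζ hζ)]
    have : (π:ℂ) ≠ 0 := by exact_mod_cast Real.pi_ne_zero
    field_simp
  have e2 : (∮ ζ in C(0, ρ), conj (p.eval 0) * D ζ) = 0 := by
    rw [circleIntegral.integral_const_mul, hD, exact h.diff hρ hρ1, mul_zero]
  rw [e1, circleIntegral.integral_add hci1 hci2, e2, add_zero, circleIntegral.integral_const_mul]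
  -- Step 2: Fubini
  have e3 : (∮ ζ in C(0, ρ), D ζ * ∫ u in ball (0:ℂ) M,
        conj ((derivative p).eval u) / (phi β ζ - u)) =
      ∫ u in ball (0:ℂ) M, conj ((derivative p).eval u) *
        ∮ ζ in C(0, ρ), (derivative p).eval (phi β ζ) * dphi β ζ / (phi β ζ - u) := by
    simp only [circleIntegral]
    have e4 : (∫ θ in (0:ℝ)..2 * π, deriv (circleMap 0 ρ) θ • (D (circleMap 0 ρ θ) *
        ∫ u in ball (0:ℂ) M, conj ((derivative p).eval u) / (phi β (circleMap 0 ρ θ) - u))) =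
        ∫ θ in (0:ℝ)..2 * π, ∫ u in ball (0:ℂ) M, deriv (circleMap 0 ρ) θ * (D (circleMap 0 ρ θ) *
          (conj ((derivative p).eval u) / (phi β (circleMap 0 ρ θ) - u))) := by
      congr 1
      funext θ
      rw [smul_eq_mul, ← integral_const_mul, ← integral_const_mul]
    have e5 : (∫ u in ball (0:ℂ) M, conj ((derivative p).eval u) *
        ∫ θ in (0:ℝ)..2 * π, deriv (circleMap 0 ρ) θ •
          ((derivative p).eval (phi β (circleMap 0 ρ θ)) * dphi β (circleMap 0 ρ θ) /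
            (phi β (circleMap 0 ρ θ) - u))) =
        ∫ u in ball (0:ℂ) M, ∫ θ in (0:ℝ)..2 * π, deriv (circleMap 0 ρ) θ * (D (circleMap 0 ρ θ) *
          (conj ((derivative p).eval u) / (phi β (circleMap 0 ρ θ) - u))) := by
      congr 1
      funext u
      rw [← intervalIntegral.integral_const_mul]
      congr 1
      funext θ
      simp only [hD, smul_eq_mul]
      ring
    rw [e4, e5]
    simp only [intervalIntegral.integral_of_le Real.two_pi_pos.le]
    apply integral_integral_swap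
    -- integrability
    have hcθ : Continuous (fun θ : ℝ => circleMap 0 ρ θ) := continuous_circleMap 0 ρ
    have hc1 : Continuous (fun θ : ℝ => phi β (circleMap 0 ρ θ)) :=
      hphic.comp_continuous hcθ (fun θ => circleMap_mem hρ θ)
    have hc2 : Continuous (fun θ : ℝ => deriv (circleMap 0 ρ) θ * D (circleMap 0 ρ θ)) := by
      have : deriv (circleMap 0 ρ) = fun θ => circleMap 0 ρ θ * I := by
        funext θ; rw [deriv_circleMap]
      apply Continuous.mul
      · rw [this]; fun_prop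
      · exact hDc.comp_continuous hcθ (fun θ => circleMap_mem hρ θ)
    have hmeas : Measurable (fun z : ℝ × ℂ => deriv (circleMap 0 ρ) z.1 * (D (circleMap 0 ρ z.1) *
          (conj ((derivative p).eval z.2) / (phi β (circleMap 0 ρ z.1) - z.2)))) := by
      have m1 : Measurable (fun z : ℝ × ℂ => deriv (circleMap 0 ρ) z.1 * D (circleMap 0 ρ z.1)) :=
        hc2.measurable.comp measurable_fst
      have m2 : Measurable (fun z : ℝ × ℂ => conj ((derivative p).eval z.2)) :=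
        (Complex.continuous_conj.comp (derivative p).continuous).measurable.comp measurable_snd
      have m3 : Measurable (fun z : ℝ × ℂ => phi β (circleMap 0 ρ z.1) - z.2) :=
        (hc1.measurable.comp measurable_fst).sub measurable_snd
      have e : (fun z : ℝ × ℂ => deriv (circleMap 0 ρ) z.1 * (D (circleMap 0 ρ z.1) *
          (conj ((derivative p).eval z.2) / (phi β (circleMap 0 ρ z.1) - z.2)))) =
          fun z : ℝ × ℂ => (deriv (circleMap 0 ρ) z.1 * D (circleMap 0 ρ z.1)) *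
          (conj ((derivative p).eval z.2) / (phi β (circleMap 0 ρ z.1) - z.2)) := by
        funext z; ring
      rw [e]
      exact m1.mul (m2.div m3)
    show Integrable (fun z : ℝ × ℂ => deriv (circleMap 0 ρ) z.1 * (D (circleMap 0 ρ z.1) *
          (conj ((derivative p).eval z.2) / (phi β (circleMap 0 ρ z.1) - z.2))))
          ((volume.restrict (Ioc 0 (2 * π))).prod (volume.restrict (ball 0 M)))
    refine ⟨hmeas.aestronglyMeasurable, ?_⟩
    -- bounds
    obtain ⟨B1, hB1⟩ := (isCompact_Icc (a := (0:ℝ)) (b := 2 * π)).exists_bound_of_continuousOn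
      hc2.continuousOn
    obtain ⟨B2, hB2⟩ := (isCompact_closedBall (0:ℂ) M).exists_bound_of_continuousOn
      (Complex.continuous_conj.comp (derivative p).continuous).continuousOn
    rw [hasFiniteIntegral_iff_enorm]
    rw [lintegral_prod _ (hmeas.enorm.aemeasurable)]
    calc ∫⁻ θ in Ioc (0:ℝ) (2 * π), ∫⁻ u in ball (0:ℂ) M, ‖deriv (circleMap 0 ρ) θ *
          (D (circleMap 0 ρ θ) *
          (conj ((derivative p).eval u) / (phi β (circleMap 0 ρ θ) - u)))‖ₑ
        ≤ ∫⁻ θ in Ioc (0:ℝ) (2 * π), ENNReal.ofReal (B1 * B2) * ENNReal.ofReal (2 * π * (M + M)) := by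
          apply setLIntegral_mono measurable_const
          intro θ hθ
          have hθ' : θ ∈ Icc (0:ℝ) (2 * π) := Ioc_subset_Icc_self hθ
          calc ∫⁻ u in ball (0:ℂ) M, ‖deriv (circleMap 0 ρ) θ * (D (circleMap 0 ρ θ) *
                (conj ((derivative p).eval u) / (phi β (circleMap 0 ρ θ) - u)))‖ₑ
              ≤ ∫⁻ u in ball (0:ℂ) M, ENNReal.ofReal (B1 * B2) *
                  ENNReal.ofReal (‖phi β (circleMap 0 ρ θ) - u‖⁻¹) := by
                apply setLIntegral_mono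
                · apply Measurable.const_mul
                  exact (by fun_prop : Measurable fun u : ℂ => ‖phi β (circleMap 0 ρ θ) - u‖⁻¹).ennreal_ofReal
                intro u hu
                rw [← ofReal_norm, ← ENNReal.ofReal_mul (mul_nonneg
                  ((norm_nonneg _).trans (hB1 θ hθ')) ((norm_nonneg _).trans (hB2 u (ball_subset_closedBall hu))))]
                apply ENNReal.ofReal_le_ofReal
                have b1 := hB1 θ hθ'
                have b2 := hB2 u (ball_subset_closedBall hu)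
                simp only [Function.comp] at b2
                calc ‖deriv (circleMap 0 ρ) θ * (D (circleMap 0 ρ θ) *
                      (conj ((derivative p).eval u) / (phi β (circleMap 0 ρ θ) - u)))‖
                    = ‖deriv (circleMap 0 ρ) θ * D (circleMap 0 ρ θ)‖ *
                      ‖conj ((derivative p).eval u)‖ * ‖phi β (circleMap 0 ρ θ) - u‖⁻¹ := by
                      rw [← mul_assoc, norm_mul, norm_div, div_eq_mul_inv]
                      ring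
                  _ ≤ B1 * B2 * ‖phi β (circleMap 0 ρ θ) - u‖⁻¹ := by
                      apply mul_le_mul_of_nonneg_right _ (by positivity)
                      exact mul_le_mul b1 b2 (norm_nonneg _) ((norm_nonneg _).trans b1)
            _ = ENNReal.ofReal (B1 * B2) * ∫⁻ u in ball (0:ℂ) M,
                  ENNReal.ofReal (‖phi β (circleMap 0 ρ θ) - u‖⁻¹) := by
                rw [lintegral_const_mul' _ _ ENNReal.ofReal_ne_top]
            _ ≤ ENNReal.ofReal (B1 * B2) * ENNReal.ofReal (2 * π * (M + M)) := by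
                gcongr
                refine (lint_inv _ M).trans ?_
                apply ENNReal.ofReal_le_ofReal
                have := (hM _ (circleMap_mem hρ θ)).le
                have hpi := Real.pi_pos
                nlinarith
      _ < ⊤ := by
          rw [setLIntegral_const]
          apply ENNReal.mul_lt_top
          · exact ENNReal.mul_lt_top ENNReal.ofReal_lt_top ENNReal.ofReal_lt_top
          · rw [Real.volume_Ioc]; exact ENNReal.ofReal_lt_top
  rw [e3]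
  -- Step 3: evaluate the inner integral almost everywhere
  have hnull : volume (phi β '' sphere 0 ρ) = 0 := by
    apply addHaar_image_eq_zero_of_differentiableOn_of_addHaar_eq_zero
    · intro ζ hζ
      have h1 := hasDerivAt_phi h.diff (mem_ball_of_sphere hρ1 (sphere_subset_closedBall hζ))
        (sphere_ne hρ hζ)
      exact (h1.hasFDerivAt.restrictScalars ℝ).differentiableAt.differentiableWithinAt
    · exact Measure.addHaar_sphere volume 0 ρ
  set S : Set ℂ := phi β '' (ball 0 ρ \ {0}) with hS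
  have hSo : IsOpen S := by
    -- open mapping
    have ho : ∀ ζ ∈ ball (0:ℂ) ρ \ {0}, S ∈ nhds (phi β ζ) := by
      rintro ζ ⟨hζ, hζ0⟩
      have hζ0' : ζ ≠ 0 := hζ0
      have hζ1 : ζ ∈ ball (0:ℂ) 1 := mem_ball_of_sphere hρ1 (ball_subset_closedBall hζ)
      have hst : HasStrictDerivAt (phi β) (dphi β ζ) ζ := by
        have h1 : DifferentiableOn ℂ (phi β) (ball 0 1 \ {0}) := by
          rintro ω ⟨hω, hω0⟩
          exact (hasDerivAt_phi h.diff hω hω0).differentiableAt.differentiableWithinAt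
        have h2 : AnalyticAt ℂ (phi β) ζ :=
          h1.analyticAt ((isOpen_ball.sdiff isClosed_singleton).mem_nhds ⟨hζ1, hζ0⟩)
        have h3 := h2.hasStrictDerivAt
        rwa [(hasDerivAt_phi h.diff hζ1 hζ0').deriv] at h3
      have hd0 : dphi β ζ ≠ 0 := by
        have := h.ne ζ hζ1
        intro h'
        apply this
        have : 1 - ζ ^ 2 * deriv β ζ = - ζ ^ 2 * dphi β ζ := by
          unfold dphi
          field_simp
          ring
        rw [this, h', mul_zero]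
      have hmap := hst.map_nhds_eq hd0
      rw [← hmap]
      exact Filter.image_mem_map ((isOpen_ball.sdiff isClosed_singleton).mem_nhds ⟨hζ, hζ0⟩)
    rw [isOpen_iff_mem_nhds]
    rintro _ ⟨ζ, hζ, rfl⟩
    exact ho ζ hζ
  have hae : ∀ᵐ u : ℂ, conj ((derivative p).eval u) *
        (∮ ζ in C(0, ρ), (derivative p).eval (phi β ζ) * dphi β ζ / (phi β ζ - u)) =
      -(2 * π * I) * ((Sᶜ.indicator (fun u => ‖(derivative p).eval u‖ ^ 2) u : ℝ) : ℂ) := by
    have : ∀ᵐ u : ℂ, u ∉ phi β '' sphere 0 ρ := measure_eq_zero_iff_ae_notMem.mp hnull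
    filter_upwards [this] with u hu
    rw [inner_int h.diff hρ hρ1 _ hu]
    by_cases huS : u ∈ S
    · rw [indicator_of_notMem (by simpa using huS)]
      obtain ⟨a, ⟨ha, ha0⟩, rfl⟩ := huS
      rw [wind_in h hρ hρ1 ha ha0]
      simp
    · rw [indicator_of_mem (by simpa using huS)]
      rw [wind_out h.diff hρ hρ1]
      · have h7 : (((‖(derivative p).eval u‖ ^ 2 : ℝ)) : ℂ) =
            (derivative p).eval u * conj ((derivative p).eval u) := by
          rw [Complex.mul_conj, Complex.normSq_eq_norm_sq]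
        rw [h7]; ring
      · intro ζ hζ hζ0 h'
        rcases lt_or_eq_of_le (show ‖ζ‖ ≤ ρ by simpa using hζ) with h8 | h8
        · exact huS ⟨ζ, ⟨by simpa using h8, hζ0⟩, h'⟩
        · exact hu ⟨ζ, by simpa using h8, h'⟩
  rw [setIntegral_congr_ae measurableSet_ball (hae.mono fun u hu _ => hu), integral_const_mul,
    integral_complex_ofReal]
  refine ⟨∫ u in ball (0:ℂ) M, Sᶜ.indicator (fun u => ‖(derivative p).eval u‖ ^ 2) u, ?_, ?_⟩
  · apply integral_nonneg
    intro u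
    apply indicator_nonneg
    intro u _
    positivity
  · have : (π:ℂ) ≠ 0 := by exact_mod_cast Real.pi_ne_zero
    field_simp

end Pool.Agent.Helper39.Area

end

section

set_option autoImplicit false
open Complex MeasureTheory Metric Set
open scoped Real ENNReal ComplexConjugate

/-! The area inequality for the logarithm of the exterior map. -/

namespace Pool.Agent.Helper39.Area

variable {β : ℂ → ℂ}

/-- the inner contour integral -/
theorem inner_log (h : Ext β) {ρ : ℝ} (hρ : 0 < ρ) (hρ1 : ρ < 1)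
    {a : ℂ} (ha : a ∈ ball (0:ℂ) ρ) (ha0 : a ≠ 0) {u : ℂ} (hu0 : u ≠ 0)
    (hu : phi β a + u ∉ phi β '' sphere 0 ρ) :
    (∮ ζ in C(0, ρ), dphi β ζ / (phi β ζ - phi β a) / (phi β ζ - phi β a - u)) =
      u⁻¹ * ∮ ζ in C(0, ρ), dphi β ζ / (phi β ζ - (phi β a + u)) := by
  have ha1 : a ∈ ball (0:ℂ) 1 := mem_ball_of_sphere hρ1 (ball_subset_closedBall ha)
  have hne : ∀ ζ ∈ sphere (0:ℂ) ρ, phi β ζ - (phi β a + u) ≠ 0 := by
    intro ζ hζ h'
    exact hu ⟨ζ, hζ, sub_eq_zero.mp h'⟩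
  have hne2 : ∀ ζ ∈ sphere (0:ℂ) ρ, phi β ζ - phi β a ≠ 0 := by
    intro ζ hζ h'
    have h2 := h.inj ζ a (mem_ball_of_sphere hρ1 (sphere_subset_closedBall hζ)) ha1
      (sphere_ne hρ hζ) ha0 (sub_eq_zero.mp h')
    subst h2
    simp at ha hζ
    linarith
  have hc1 : CircleIntegrable (fun ζ => dphi β ζ / (phi β ζ - (phi β a + u))) 0 ρ := by
    apply ContinuousOn.circleIntegrable hρ.le
    exact (cont_dphi h.diff hρ hρ1).div
      ((cont_phi h.diff hρ hρ1).sub continuousOn_const) hne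
  have hc2 : CircleIntegrable (fun ζ => dphi β ζ / (phi β ζ - phi β a)) 0 ρ := by
    apply ContinuousOn.circleIntegrable hρ.le
    exact (cont_dphi h.diff hρ hρ1).div
      ((cont_phi h.diff hρ hρ1).sub continuousOn_const) hne2
  have h1 : (∮ ζ in C(0, ρ), dphi β ζ / (phi β ζ - phi β a) / (phi β ζ - phi β a - u)) =
      ∮ ζ in C(0, ρ), u⁻¹ * (dphi β ζ / (phi β ζ - (phi β a + u)) -
        dphi β ζ / (phi β ζ - phi β a)) := by
    apply circleIntegral.integral_congr hρ.le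
    intro ζ hζ
    have h3 := hne ζ hζ
    have h4 := hne2 ζ hζ
    have h5 : phi β ζ - phi β a - u ≠ 0 := by
      intro h'
      apply h3
      rw [← h']; ring
    simp only
    rw [show phi β ζ - (phi β a + u) = phi β ζ - phi β a - u by ring]
    field_simp
    ring
  rw [h1, circleIntegral.integral_const_mul, circleIntegral.integral_sub hc1 hc2,
    wind_in h hρ hρ1 ha ha0, sub_zero]

/-- the area inequality for `log (φ - φ a)` -/
theorem area_log (h : Ext β) {ρ : ℝ} (hρ : 0 < ρ) (hρ1 : ρ < 1)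
    {a : ℂ} (ha : a ∈ ball (0:ℂ) ρ) (ha0 : a ≠ 0) :
    ∃ c : ℝ, 0 ≤ c ∧ (∮ ζ in C(0, ρ), ((2 * Real.log ‖phi β ζ - phi β a‖ : ℝ) : ℂ) *
      (dphi β ζ / (phi β ζ - phi β a))) = -(2 * I) * c := by
  have ha1 : a ∈ ball (0:ℂ) 1 := mem_ball_of_sphere hρ1 (ball_subset_closedBall ha)
  have hphic := cont_phi h.diff hρ hρ1
  have hdc := cont_dphi h.diff hρ hρ1
  set w : ℂ := phi β a with hw
  have hne2 : ∀ ζ ∈ sphere (0:ℂ) ρ, phi β ζ - w ≠ 0 := by
    intro ζ hζ h'
    have h2 := h.inj ζ a (mem_ball_of_sphere hρ1 (sphere_subset_closedBall hζ)) ha1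
      (sphere_ne hρ hζ) ha0 (sub_eq_zero.mp h')
    subst h2
    simp at ha hζ
    linarith
  have hvc : ContinuousOn (fun ζ => phi β ζ - w) (sphere 0 ρ) := hphic.sub continuousOn_const
  -- the radius
  obtain ⟨M, hM⟩ : ∃ M : ℝ, ∀ ζ ∈ sphere (0:ℂ) ρ, ‖phi β ζ - w‖ < M := by
    obtain ⟨M, hM⟩ := (isCompact_sphere (0:ℂ) ρ).exists_bound_of_continuousOn hvc
    exact ⟨M + 1, fun ζ hζ => lt_of_le_of_lt (hM ζ hζ) (lt_add_one M)⟩
  have hMpos : 0 < M := lt_of_le_of_lt (norm_nonneg _) (hM _ (circleMap_mem hρ 0))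
  -- the lower bound
  obtain ⟨d, hd0, hd⟩ : ∃ d : ℝ, 0 < d ∧ ∀ ζ ∈ sphere (0:ℂ) ρ, ‖phi β ζ - w‖⁻¹ ≤ d := by
    have : ContinuousOn (fun ζ => (phi β ζ - w)⁻¹) (sphere 0 ρ) := hvc.inv₀ hne2
    obtain ⟨M, hM⟩ := (isCompact_sphere (0:ℂ) ρ).exists_bound_of_continuousOn this
    refine ⟨|M| + 1, by positivity, fun ζ hζ => ?_⟩
    have := hM ζ hζ
    rw [norm_inv] at this
    linarith [le_abs_self M]
  set D : ℂ → ℂ := fun ζ => dphi β ζ / (phi β ζ - w) with hD
  have hDc : ContinuousOn D (sphere 0 ρ) := hdc.div hvc hne2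
  -- Step 1: rewrite with the kernel
  have e1 : (∮ ζ in C(0, ρ), ((2 * Real.log ‖phi β ζ - w‖ : ℝ) : ℂ) * D ζ) =
      ∮ ζ in C(0, ρ), ((π:ℂ)⁻¹ * (D ζ * ∫ u in ball (0:ℂ) M,
        (conj u)⁻¹ / (phi β ζ - w - u)) + ((2 * Real.log M : ℝ) : ℂ) * D ζ) := by
    apply circleIntegral.integral_congr hρ.le
    intro ζ hζ
    simp only
    rw [logkernel M (hne2 ζ hζ) (hM ζ hζ)]
    have : (π:ℂ) ≠ 0 := by exact_mod_cast Real.pi_ne_zero
    push_cast
    field_simp
    ring
  have hlc : ContinuousOn (fun ζ => ((2 * Real.log ‖phi β ζ - w‖ : ℝ) : ℂ)) (sphere 0 ρ) := by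
    apply Complex.continuous_ofReal.comp_continuousOn
    apply continuousOn_const.mul
    apply ContinuousOn.log hvc.norm
    intro ζ hζ
    exact norm_ne_zero_iff.mpr (hne2 ζ hζ)
  have hci2 : CircleIntegrable (fun ζ => ((2 * Real.log M : ℝ) : ℂ) * D ζ) 0 ρ :=
    (continuousOn_const.mul hDc).circleIntegrable hρ.le
  have hci1 : CircleIntegrable (fun ζ => (π:ℂ)⁻¹ * (D ζ * ∫ u in ball (0:ℂ) M,
        (conj u)⁻¹ / (phi β ζ - w - u))) 0 ρ := by
    apply ContinuousOn.circleIntegrable hρ.le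
    have hcc : ContinuousOn (fun ζ => ((2 * Real.log ‖phi β ζ - w‖ : ℝ) : ℂ) * D ζ -
        ((2 * Real.log M : ℝ) : ℂ) * D ζ) (sphere 0 ρ) :=
      (hlc.mul hDc).sub (continuousOn_const.mul hDc)
    apply hcc.congr
    intro ζ hζ
    simp only
    rw [logkernel M (hne2 ζ hζ) (hM ζ hζ)]
    have : (π:ℂ) ≠ 0 := by exact_mod_cast Real.pi_ne_zero
    push_cast
    field_simp
  have e2 : (∮ ζ in C(0, ρ), ((2 * Real.log M : ℝ) : ℂ) * D ζ) = 0 := by
    rw [circleIntegral.integral_const_mul, hD, wind_in h hρ hρ1 ha ha0, mul_zero]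
  rw [e1, circleIntegral.integral_add hci1 hci2, e2, add_zero, circleIntegral.integral_const_mul]
  -- Step 2: Fubini
  have e3 : (∮ ζ in C(0, ρ), D ζ * ∫ u in ball (0:ℂ) M, (conj u)⁻¹ / (phi β ζ - w - u)) =
      ∫ u in ball (0:ℂ) M, (conj u)⁻¹ *
        ∮ ζ in C(0, ρ), dphi β ζ / (phi β ζ - w) / (phi β ζ - w - u) := by
    simp only [circleIntegral]
    have e4 : (∫ θ in (0:ℝ)..2 * π, deriv (circleMap 0 ρ) θ • (D (circleMap 0 ρ θ) *
        ∫ u in ball (0:ℂ) M, (conj u)⁻¹ / (phi β (circleMap 0 ρ θ) - w - u))) =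
        ∫ θ in (0:ℝ)..2 * π, ∫ u in ball (0:ℂ) M, deriv (circleMap 0 ρ) θ * (D (circleMap 0 ρ θ) *
          ((conj u)⁻¹ / (phi β (circleMap 0 ρ θ) - w - u))) := by
      congr 1
      funext θ
      rw [smul_eq_mul, ← integral_const_mul, ← integral_const_mul]
    have e5 : (∫ u in ball (0:ℂ) M, (conj u)⁻¹ *
        ∫ θ in (0:ℝ)..2 * π, deriv (circleMap 0 ρ) θ •
          (dphi β (circleMap 0 ρ θ) / (phi β (circleMap 0 ρ θ) - w) /
            (phi β (circleMap 0 ρ θ) - w - u))) =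
        ∫ u in ball (0:ℂ) M, ∫ θ in (0:ℝ)..2 * π, deriv (circleMap 0 ρ) θ * (D (circleMap 0 ρ θ) *
          ((conj u)⁻¹ / (phi β (circleMap 0 ρ θ) - w - u))) := by
      congr 1
      funext u
      rw [← intervalIntegral.integral_const_mul]
      congr 1
      funext θ
      simp only [hD, smul_eq_mul]
      ring
    rw [e4, e5]
    simp only [intervalIntegral.integral_of_le Real.two_pi_pos.le]
    apply integral_integral_swap
    -- integrability
    have hcθ : Continuous (fun θ : ℝ => circleMap 0 ρ θ) := continuous_circleMap 0 ρ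
    have hc1 : Continuous (fun θ : ℝ => phi β (circleMap 0 ρ θ) - w) :=
      hvc.comp_continuous hcθ (fun θ => circleMap_mem hρ θ)
    have hc2 : Continuous (fun θ : ℝ => deriv (circleMap 0 ρ) θ * D (circleMap 0 ρ θ)) := by
      have : deriv (circleMap 0 ρ) = fun θ => circleMap 0 ρ θ * I := by
        funext θ; rw [deriv_circleMap]
      apply Continuous.mul
      · rw [this]; fun_prop
      · exact hDc.comp_continuous hcθ (fun θ => circleMap_mem hρ θ)
    have hmeas : Measurable (fun z : ℝ × ℂ => deriv (circleMap 0 ρ) z.1 * (D (circleMap 0 ρ z.1) *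
          ((conj z.2)⁻¹ / (phi β (circleMap 0 ρ z.1) - w - z.2)))) := by
      have m1 : Measurable (fun z : ℝ × ℂ => deriv (circleMap 0 ρ) z.1 * D (circleMap 0 ρ z.1)) :=
        hc2.measurable.comp measurable_fst
      have m2 : Measurable (fun z : ℝ × ℂ => (conj z.2)⁻¹) :=
        (Complex.continuous_conj.measurable.inv).comp measurable_snd
      have m3 : Measurable (fun z : ℝ × ℂ => phi β (circleMap 0 ρ z.1) - w - z.2) :=
        (hc1.measurable.comp measurable_fst).sub measurable_snd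
      have e : (fun z : ℝ × ℂ => deriv (circleMap 0 ρ) z.1 * (D (circleMap 0 ρ z.1) *
          ((conj z.2)⁻¹ / (phi β (circleMap 0 ρ z.1) - w - z.2)))) =
          fun z : ℝ × ℂ => (deriv (circleMap 0 ρ) z.1 * D (circleMap 0 ρ z.1)) *
          ((conj z.2)⁻¹ / (phi β (circleMap 0 ρ z.1) - w - z.2)) := by
        funext z; ring
      rw [e]
      exact m1.mul (m2.div m3)
    show Integrable (fun z : ℝ × ℂ => deriv (circleMap 0 ρ) z.1 * (D (circleMap 0 ρ z.1) *
          ((conj z.2)⁻¹ / (phi β (circleMap 0 ρ z.1) - w - z.2))))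
          ((volume.restrict (Ioc 0 (2 * π))).prod (volume.restrict (ball 0 M)))
    refine ⟨hmeas.aestronglyMeasurable, ?_⟩
    -- bounds
    obtain ⟨B1, hB1⟩ := (isCompact_Icc (a := (0:ℝ)) (b := 2 * π)).exists_bound_of_continuousOn
      hc2.continuousOn
    have hB10 : 0 ≤ B1 := (norm_nonneg _).trans (hB1 0 ⟨le_rfl, Real.two_pi_pos.le⟩)
    rw [hasFiniteIntegral_iff_enorm]
    rw [lintegral_prod _ (hmeas.enorm.aemeasurable)]
    calc ∫⁻ θ in Ioc (0:ℝ) (2 * π), ∫⁻ u in ball (0:ℂ) M, ‖deriv (circleMap 0 ρ) θ *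
          (D (circleMap 0 ρ θ) *
          ((conj u)⁻¹ / (phi β (circleMap 0 ρ θ) - w - u)))‖ₑ
        ≤ ∫⁻ θ in Ioc (0:ℝ) (2 * π), ENNReal.ofReal (B1 * d) *
            (ENNReal.ofReal (2 * π * M) + ENNReal.ofReal (2 * π * (M + M))) := by
          apply setLIntegral_mono measurable_const
          intro θ hθ
          have hθ' : θ ∈ Icc (0:ℝ) (2 * π) := Ioc_subset_Icc_self hθ
          set v : ℂ := phi β (circleMap 0 ρ θ) - w with hv
          have hv0 : v ≠ 0 := hne2 _ (circleMap_mem hρ θ)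
          have hvd : ‖v‖⁻¹ ≤ d := hd _ (circleMap_mem hρ θ)
          have hvM : ‖v‖ < M := hM _ (circleMap_mem hρ θ)
          calc ∫⁻ u in ball (0:ℂ) M, ‖deriv (circleMap 0 ρ) θ * (D (circleMap 0 ρ θ) *
                ((conj u)⁻¹ / (v - u)))‖ₑ
              ≤ ∫⁻ u in ball (0:ℂ) M, ENNReal.ofReal (B1 * d) *
                  (ENNReal.ofReal (‖u‖⁻¹) + ENNReal.ofReal (‖v - u‖⁻¹)) := by
                apply setLIntegral_mono
                · apply Measurable.const_mul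
                  exact (by fun_prop : Measurable fun u : ℂ => ‖u‖⁻¹).ennreal_ofReal.add
                    (by fun_prop : Measurable fun u : ℂ => ‖v - u‖⁻¹).ennreal_ofReal
                intro u hu
                rw [← ofReal_norm, ← ENNReal.ofReal_add (by positivity) (by positivity),
                  ← ENNReal.ofReal_mul (by positivity)]
                apply ENNReal.ofReal_le_ofReal
                have b1 := hB1 θ hθ'
                calc ‖deriv (circleMap 0 ρ) θ * (D (circleMap 0 ρ θ) *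
                      ((conj u)⁻¹ / (v - u)))‖
                    = ‖deriv (circleMap 0 ρ) θ * D (circleMap 0 ρ θ)‖ *
                      (‖u‖⁻¹ * ‖v - u‖⁻¹) := by
                      rw [← mul_assoc, norm_mul, norm_div, norm_inv, RCLike.norm_conj, div_eq_mul_inv]
                  _ ≤ B1 * (‖v‖⁻¹ * (‖u‖⁻¹ + ‖v - u‖⁻¹)) := by
                      apply mul_le_mul b1 (inv_mul_inv_le u v hv0) (by positivity) hB10
                  _ ≤ B1 * (d * (‖u‖⁻¹ + ‖v - u‖⁻¹)) := by gcongr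
                  _ = B1 * d * (‖u‖⁻¹ + ‖v - u‖⁻¹) := by ring
            _ = ENNReal.ofReal (B1 * d) * (∫⁻ u in ball (0:ℂ) M, ENNReal.ofReal (‖u‖⁻¹) +
                  ENNReal.ofReal (‖v - u‖⁻¹)) := by
                rw [lintegral_const_mul' _ _ ENNReal.ofReal_ne_top]
            _ = ENNReal.ofReal (B1 * d) * ((∫⁻ u in ball (0:ℂ) M, ENNReal.ofReal (‖u‖⁻¹)) +
                  ∫⁻ u in ball (0:ℂ) M, ENNReal.ofReal (‖v - u‖⁻¹)) := by
                rw [lintegral_add_left (by fun_prop : Measurable fun u : ℂ => ‖u‖⁻¹).ennreal_ofReal]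
            _ ≤ ENNReal.ofReal (B1 * d) *
                (ENNReal.ofReal (2 * π * M) + ENNReal.ofReal (2 * π * (M + M))) := by
                gcongr
                · exact lint_inv_ball M
                · refine (lint_inv _ M).trans ?_
                  apply ENNReal.ofReal_le_ofReal
                  have hpi := Real.pi_pos
                  nlinarith
      _ < ⊤ := by
          rw [setLIntegral_const]
          apply ENNReal.mul_lt_top
          · apply ENNReal.mul_lt_top ENNReal.ofReal_lt_top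
            exact ENNReal.add_lt_top.mpr ⟨ENNReal.ofReal_lt_top, ENNReal.ofReal_lt_top⟩
          · rw [Real.volume_Ioc]; exact ENNReal.ofReal_lt_top
  rw [e3]
  -- Step 3: evaluate the inner integral almost everywhere
  have hnull : volume (phi β '' sphere 0 ρ) = 0 := by
    apply addHaar_image_eq_zero_of_differentiableOn_of_addHaar_eq_zero
    · intro ζ hζ
      have h1 := hasDerivAt_phi h.diff (mem_ball_of_sphere hρ1 (sphere_subset_closedBall hζ))
        (sphere_ne hρ hζ)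
      exact (h1.hasFDerivAt.restrictScalars ℝ).differentiableAt.differentiableWithinAt
    · exact Measure.addHaar_sphere volume 0 ρ
  set S : Set ℂ := phi β '' (ball 0 ρ \ {0}) with hS
  have hSo : IsOpen S := by
    have ho : ∀ ζ ∈ ball (0:ℂ) ρ \ {0}, S ∈ nhds (phi β ζ) := by
      rintro ζ ⟨hζ, hζ0⟩
      have hζ0' : ζ ≠ 0 := hζ0
      have hζ1 : ζ ∈ ball (0:ℂ) 1 := mem_ball_of_sphere hρ1 (ball_subset_closedBall hζ)
      have hst : HasStrictDerivAt (phi β) (dphi β ζ) ζ := by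
        have h1 : DifferentiableOn ℂ (phi β) (ball 0 1 \ {0}) := by
          rintro ω ⟨hω, hω0⟩
          exact (hasDerivAt_phi h.diff hω hω0).differentiableAt.differentiableWithinAt
        have h2 : AnalyticAt ℂ (phi β) ζ :=
          h1.analyticAt ((isOpen_ball.sdiff isClosed_singleton).mem_nhds ⟨hζ1, hζ0⟩)
        have h3 := h2.hasStrictDerivAt
        rwa [(hasDerivAt_phi h.diff hζ1 hζ0').deriv] at h3
      have hd0 : dphi β ζ ≠ 0 := by
        have := h.ne ζ hζ1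
        intro h'
        apply this
        have : 1 - ζ ^ 2 * deriv β ζ = - ζ ^ 2 * dphi β ζ := by
          unfold dphi
          field_simp
          ring
        rw [this, h', mul_zero]
      have hmap := hst.map_nhds_eq hd0
      rw [← hmap]
      exact Filter.image_mem_map ((isOpen_ball.sdiff isClosed_singleton).mem_nhds ⟨hζ, hζ0⟩)
    rw [isOpen_iff_mem_nhds]
    rintro _ ⟨ζ, hζ, rfl⟩
    exact ho ζ hζ
  set T : Set ℂ := {u | w + u ∉ S} with hT
  have hae : ∀ᵐ u : ℂ, (conj u)⁻¹ *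
        (∮ ζ in C(0, ρ), dphi β ζ / (phi β ζ - w) / (phi β ζ - w - u)) =
      -(2 * π * I) * ((T.indicator (fun u => (‖u‖ ^ 2)⁻¹) u : ℝ) : ℂ) := by
    have h1 : ∀ᵐ u : ℂ, w + u ∉ phi β '' sphere 0 ρ := by
      have h2 : volume ((fun u => w + u) ⁻¹' (phi β '' sphere 0 ρ)) = 0 := by
        rw [measure_preimage_add]; exact hnull
      exact measure_eq_zero_iff_ae_notMem.mp h2
    have h2 : ∀ᵐ u : ℂ, u ≠ 0 := by
      have : volume ({0} : Set ℂ) = 0 := measure_singleton 0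
      filter_upwards [measure_eq_zero_iff_ae_notMem.mp this] with u hu
      simpa using hu
    filter_upwards [h1, h2] with u hu hu0
    rw [inner_log h hρ hρ1 ha ha0 hu0 hu]
    by_cases huS : w + u ∈ S
    · rw [indicator_of_notMem (by simpa [hT] using huS)]
      obtain ⟨b, ⟨hb, hb0⟩, hbw⟩ := huS
      rw [← hw, ← hbw, wind_in h hρ hρ1 hb hb0]
      simp
    · rw [indicator_of_mem (by simpa [hT] using huS)]
      rw [wind_out h.diff hρ hρ1]
      · have h7 : (((‖u‖ ^ 2)⁻¹ : ℝ) : ℂ) = u⁻¹ * (conj u)⁻¹ := by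
          rw [← mul_inv, Complex.mul_conj, Complex.normSq_eq_norm_sq]
          push_cast
          rfl
        rw [h7]; ring
      · intro ζ hζ hζ0 h'
        rcases lt_or_eq_of_le (show ‖ζ‖ ≤ ρ by simpa using hζ) with h8 | h8
        · exact huS ⟨ζ, ⟨by simpa using h8, hζ0⟩, h'⟩
        · exact hu ⟨ζ, by simpa using h8, h'⟩
  rw [setIntegral_congr_ae measurableSet_ball (hae.mono fun u hu _ => hu), integral_const_mul,
    integral_complex_ofReal]
  refine ⟨∫ u in ball (0:ℂ) M, T.indicator (fun u => (‖u‖ ^ 2)⁻¹) u, ?_, ?_⟩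
  · apply integral_nonneg
    intro u
    apply indicator_nonneg
    intro u _
    positivity
  · have : (π:ℂ) ≠ 0 := by exact_mod_cast Real.pi_ne_zero
    field_simp

end Pool.Agent.Helper39.Area

end

section

set_option autoImplicit false
open Complex MeasureTheory Metric Set Filter Topology
open scoped Real ENNReal ComplexConjugate NNReal

/-! The Goluzin inequality at one point. -/

namespace Pool.Agent.Helper39.Area

/-- conjugate of a circle integral -/
theorem conj_circle {ρ : ℝ} (hρ : 0 < ρ) (f : ℂ → ℂ) :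
    conj (∮ ζ in C(0, ρ), f ζ) = ∮ ζ in C(0, ρ), (-((ρ:ℂ) ^ 2 / ζ ^ 2)) * conj (f ζ) := by
  rw [circleIntegral, circleIntegral, intervalIntegral.integral_of_le Real.two_pi_pos.le,
    intervalIntegral.integral_of_le Real.two_pi_pos.le, ← integral_conj]
  congr 1
  funext θ
  have hne : circleMap 0 ρ θ ≠ 0 := circleMap_ne_center (c := 0) (θ := θ) hρ.ne'
  have hc : conj (circleMap 0 ρ θ) = (ρ:ℂ) ^ 2 / circleMap 0 ρ θ :=
    conj_sphere hρ (circleMap_mem_sphere 0 hρ.le θ)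
  simp only [deriv_circleMap, smul_eq_mul, map_mul, Complex.conj_I, hc]
  field_simp

theorem parts {ρ : ℝ} (hρ : 0 < ρ) {f g f' g' : ℂ → ℂ}
    (hf : ∀ ζ ∈ sphere (0:ℂ) ρ, HasDerivAt f (f' ζ) ζ)
    (hg : ∀ ζ ∈ sphere (0:ℂ) ρ, HasDerivAt g (g' ζ) ζ)
    (hf' : ContinuousOn f' (sphere 0 ρ)) (hg' : ContinuousOn g' (sphere 0 ρ)) :
    (∮ ζ in C(0, ρ), f ζ * g' ζ) = - ∮ ζ in C(0, ρ), g ζ * f' ζ := by
  have hfc : ContinuousOn f (sphere 0 ρ) := fun ζ hζ => (hf ζ hζ).continuousAt.continuousWithinAt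
  have hgc : ContinuousOn g (sphere 0 ρ) := fun ζ hζ => (hg ζ hζ).continuousAt.continuousWithinAt
  have h1 : (∮ ζ in C(0, ρ), (f' ζ * g ζ + f ζ * g' ζ)) = 0 := by
    apply circleIntegral.integral_eq_zero_of_hasDerivWithinAt hρ.le (f := fun ζ => f ζ * g ζ)
    intro ζ hζ
    exact ((hf ζ hζ).mul (hg ζ hζ)).hasDerivWithinAt
  have hi1 : CircleIntegrable (fun ζ => f' ζ * g ζ) 0 ρ := (hf'.mul hgc).circleIntegrable hρ.le
  have hi2 : CircleIntegrable (fun ζ => f ζ * g' ζ) 0 ρ := (hfc.mul hg').circleIntegrable hρ.le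
  rw [circleIntegral.integral_add hi1 hi2] at h1
  have h2 : (∮ ζ in C(0, ρ), f' ζ * g ζ) = ∮ ζ in C(0, ρ), g ζ * f' ζ := by
    congr 1; funext ζ; ring
  rw [h2] at h1
  linear_combination h1

theorem cauchy_zero {ρ R : ℝ} (hρ : 0 < ρ) (hρR : ρ < R) {W : ℂ → ℂ}
    (hW : DifferentiableOn ℂ W (ball 0 R)) : (∮ ζ in C(0, ρ), W ζ) = 0 := by
  apply Complex.circleIntegral_eq_zero_of_differentiable_on_off_countable hρ.le countable_empty
  · exact hW.continuousOn.mono (closedBall_subset_ball hρR)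
  · intro ζ hζ
    exact hW.differentiableAt (isOpen_ball.mem_nhds
      (closedBall_subset_ball hρR (ball_subset_closedBall hζ.1)))

/-- derivative of `log (1 - a / ζ)` -/
noncomputable def gp (a ζ : ℂ) : ℂ := (ζ - a)⁻¹ - ζ⁻¹

/-- reproducing property -/
theorem repro {ρ R : ℝ} (hρ : 0 < ρ) (hρR : ρ < R) {W : ℂ → ℂ}
    (hW : DifferentiableOn ℂ W (ball 0 R)) {a : ℂ} (ha : a ∈ ball (0:ℂ) ρ) :
    (∮ ζ in C(0, ρ), W ζ * gp a ζ) = 2 * π * I * (W a - W 0) := by
  have hWc : DifferentiableOn ℂ W (closedBall 0 ρ) := hW.mono (closedBall_subset_ball hρR)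
  have h1 := hWc.circleIntegral_sub_inv_smul ha
  have h2 := hWc.circleIntegral_sub_inv_smul (mem_ball_self hρ)
  have hWs : ContinuousOn W (sphere 0 ρ) := hWc.continuousOn.mono sphere_subset_closedBall
  have hc : ∀ b ∈ ball (0:ℂ) ρ, CircleIntegrable (fun z => (z - b)⁻¹ • W z) 0 ρ := by
    intro b hb
    apply ContinuousOn.circleIntegrable hρ.le
    have hb' : ContinuousOn (fun z : ℂ => (z - b)⁻¹) (sphere 0 ρ) := by
      apply ContinuousOn.inv₀ (by fun_prop)
      intro ζ hζ h'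
      rw [sub_eq_zero] at h'
      subst h'
      simp at hζ hb
      linarith
    exact hb'.smul hWs
  have h3 : (∮ ζ in C(0, ρ), W ζ * gp a ζ) =
      ∮ ζ in C(0, ρ), ((ζ - a)⁻¹ • W ζ - (ζ - 0)⁻¹ • W ζ) := by
    congr 1
    funext ζ
    simp only [gp, smul_eq_mul, sub_zero]
    ring
  rw [h3, circleIntegral.integral_sub (hc a ha) (hc 0 (mem_ball_self hρ)), h1, h2]
  simp only [smul_eq_mul]
  ring

section

variable {ρ : ℝ} {a : ℂ}

/-- `log (1 - conj a ζ / ρ²)` -/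
noncomputable def Lam (ρ : ℝ) (a ζ : ℂ) : ℂ := Complex.log (1 - conj a * ζ / (ρ:ℂ) ^ 2)

noncomputable def Lamp (ρ : ℝ) (a ζ : ℂ) : ℂ := (-(conj a / (ρ:ℂ) ^ 2)) / (1 - conj a * ζ / (ρ:ℂ) ^ 2)

theorem lam_re (hρ : 0 < ρ) (_ha : a ∈ ball (0:ℂ) ρ) (ha0 : a ≠ 0) {ζ : ℂ}
    (hζ : ζ ∈ ball (0:ℂ) (ρ ^ 2 / ‖a‖)) : 0 < (1 - conj a * ζ / (ρ:ℂ) ^ 2).re := by
  have ha' : 0 < ‖a‖ := norm_pos_iff.mpr ha0
  have h1 : ‖conj a * ζ / (ρ:ℂ) ^ 2‖ < 1 := by
    rw [norm_div, norm_mul, RCLike.norm_conj, norm_pow, Complex.norm_real, Real.norm_eq_abs,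
      abs_of_pos hρ, div_lt_one (by positivity)]
    rw [mem_ball, dist_zero_right, lt_div_iff₀ ha'] at hζ
    linarith
  have h2 := (abs_le.mp (Complex.abs_re_le_norm (conj a * ζ / (ρ:ℂ) ^ 2))).2
  rw [Complex.sub_re, Complex.one_re]
  linarith

theorem lam_hasDeriv (hρ : 0 < ρ) (ha : a ∈ ball (0:ℂ) ρ) (ha0 : a ≠ 0) {ζ : ℂ}
    (hζ : ζ ∈ ball (0:ℂ) (ρ ^ 2 / ‖a‖)) : HasDerivAt (Lam ρ a) (Lamp ρ a ζ) ζ := by
  have h1 : HasDerivAt (fun ζ : ℂ => 1 - conj a * ζ / (ρ:ℂ) ^ 2) (-(conj a / (ρ:ℂ) ^ 2)) ζ := by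
    have h2 := (((hasDerivAt_id ζ).const_mul (conj a)).div_const ((ρ:ℂ) ^ 2)).const_sub 1
    have e : (-(conj a / (ρ:ℂ) ^ 2)) = -(conj a * 1 / (ρ:ℂ) ^ 2) := by ring
    rw [e]
    exact h2
  exact h1.clog (Or.inl (lam_re hρ ha ha0 hζ))

theorem rad_lt (hρ : 0 < ρ) (ha : a ∈ ball (0:ℂ) ρ) (ha0 : a ≠ 0) : ρ < ρ ^ 2 / ‖a‖ := by
  have ha' : 0 < ‖a‖ := norm_pos_iff.mpr ha0
  rw [lt_div_iff₀ ha']
  rw [mem_ball, dist_zero_right] at ha
  nlinarith

theorem lam_diff (hρ : 0 < ρ) (ha : a ∈ ball (0:ℂ) ρ) (ha0 : a ≠ 0) :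
    DifferentiableOn ℂ (Lam ρ a) (ball 0 (ρ ^ 2 / ‖a‖)) := fun _ hζ =>
  (lam_hasDeriv hρ ha ha0 hζ).differentiableAt.differentiableWithinAt

theorem conj_lam (hρ : 0 < ρ) (ha : a ∈ ball (0:ℂ) ρ) (ha0 : a ≠ 0) {ζ : ℂ}
    (hζ : ζ ∈ sphere (0:ℂ) ρ) : conj (Lam ρ a ζ) = Complex.log (1 - a / ζ) := by
  have h1 : ζ ∈ ball (0:ℂ) (ρ ^ 2 / ‖a‖) := by
    have := rad_lt hρ ha ha0
    rw [mem_ball, dist_zero_right]
    rw [mem_sphere, dist_zero_right] at hζ
    linarith
  have h2 := lam_re hρ ha ha0 h1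
  have h3 : (1 - conj a * ζ / (ρ:ℂ) ^ 2).arg ≠ π := by
    intro h
    rw [Complex.arg_eq_pi_iff] at h
    linarith [h.1]
  rw [Lam, ← Complex.log_conj _ h3]
  congr 1
  have hρ' : (ρ:ℂ) ≠ 0 := by exact_mod_cast hρ.ne'
  have h0 := sphere_ne' hρ hζ
  simp only [map_sub, map_one, map_div₀, map_mul, Complex.conj_conj, map_pow, Complex.conj_ofReal]
  rw [conj_sphere hρ hζ]
  field_simp

theorem g_hasDeriv (ha : a ∈ ball (0:ℂ) ρ) (hρ : 0 < ρ) {ζ : ℂ}
    (hζ : ζ ∈ sphere (0:ℂ) ρ) : HasDerivAt (fun ζ => Complex.log (1 - a / ζ)) (gp a ζ) ζ := by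
  have h0 := sphere_ne' hρ hζ
  have hne : ζ - a ≠ 0 := by
    intro h'
    rw [sub_eq_zero] at h'
    subst h'
    simp at hζ ha
    linarith
  have h1 : HasDerivAt (fun ζ : ℂ => 1 - a / ζ) (a / ζ ^ 2) ζ := by
    have h2 := ((hasDerivAt_inv h0).const_mul a).const_sub 1
    have e : a / ζ ^ 2 = -(a * -(ζ ^ 2)⁻¹) := by field_simp
    rw [e]
    exact h2
  have h2 : 0 < (1 - a / ζ).re := by
    have h3 : ‖a / ζ‖ < 1 := by
      rw [norm_div]
      rw [mem_ball, dist_zero_right] at ha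
      rw [mem_sphere, dist_zero_right] at hζ
      rw [hζ, div_lt_one hρ]
      exact ha
    have h4 := (abs_le.mp (Complex.abs_re_le_norm (a / ζ))).2
    rw [Complex.sub_re, Complex.one_re]
    linarith
  have h5 := h1.clog (Or.inl h2)
  have e : a / ζ ^ 2 / (1 - a / ζ) = gp a ζ := by
    unfold gp
    have h6 : 1 - a / ζ = (ζ - a) / ζ := by field_simp
    rw [h6]
    field_simp
    ring
  rw [← e]
  exact h5

theorem gp_cont (ha : a ∈ ball (0:ℂ) ρ) (hρ : 0 < ρ) : ContinuousOn (gp a) (sphere 0 ρ) := by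
  apply ContinuousOn.sub
  · apply ContinuousOn.inv₀ (by fun_prop)
    intro ζ hζ h'
    rw [sub_eq_zero] at h'
    subst h'
    simp at hζ ha
    linarith
  · exact ContinuousOn.inv₀ (by fun_prop) (fun ζ hζ => sphere_ne' hρ hζ)

/-- relation between the two derivatives -/
theorem lamp_eq (hρ : 0 < ρ) (ha : a ∈ ball (0:ℂ) ρ) (ha0 : a ≠ 0) {ζ : ℂ}
    (hζ : ζ ∈ sphere (0:ℂ) ρ) : (-((ρ:ℂ) ^ 2 / ζ ^ 2)) * conj (gp a ζ) = Lamp ρ a ζ := by
  have h1 : ζ ∈ ball (0:ℂ) (ρ ^ 2 / ‖a‖) := by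
    have := rad_lt hρ ha ha0
    rw [mem_ball, dist_zero_right]
    rw [mem_sphere, dist_zero_right] at hζ
    linarith
  have h2 := lam_re hρ ha ha0 h1
  have hne : 1 - conj a * ζ / (ρ:ℂ) ^ 2 ≠ 0 := by
    intro h; rw [h] at h2; simp at h2
  have hρ' : (ρ:ℂ) ≠ 0 := by exact_mod_cast hρ.ne'
  have h0 := sphere_ne' hρ hζ
  have h3 : (ρ:ℂ) ^ 2 - conj a * ζ ≠ 0 := by
    intro h
    apply hne
    rw [sub_eq_zero] at h
    rw [← h]
    field_simp
    ring
  have h4 : (ρ:ℂ) ^ 2 / ζ - conj a = ((ρ:ℂ) ^ 2 - conj a * ζ) / ζ := by field_simp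
  have h5 : 1 - conj a * ζ / (ρ:ℂ) ^ 2 = ((ρ:ℂ) ^ 2 - conj a * ζ) / (ρ:ℂ) ^ 2 := by field_simp
  unfold gp Lamp
  simp only [map_sub, map_inv₀]
  rw [conj_sphere hρ hζ, h4, h5]
  generalize conj a = x at h3 ⊢
  have h6 : (ρ:ℂ) ^ 2 - ζ * x ≠ 0 := by rwa [mul_comm] at h3
  field_simp
  ring

theorem gp_eq (hρ : 0 < ρ) (ha : a ∈ ball (0:ℂ) ρ) (ha0 : a ≠ 0) {ζ : ℂ}
    (hζ : ζ ∈ sphere (0:ℂ) ρ) : (-((ρ:ℂ) ^ 2 / ζ ^ 2)) * conj (Lamp ρ a ζ) = gp a ζ := by
  rw [← lamp_eq hρ ha ha0 hζ]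
  have hρ' : (ρ:ℂ) ≠ 0 := by exact_mod_cast hρ.ne'
  have h0 := sphere_ne' hρ hζ
  simp only [map_mul, map_neg, map_div₀, map_pow, Complex.conj_ofReal, Complex.conj_conj]
  rw [conj_sphere hρ hζ]
  field_simp

theorem lamp_cont (hρ : 0 < ρ) (ha : a ∈ ball (0:ℂ) ρ) (ha0 : a ≠ 0) :
    ContinuousOn (Lamp ρ a) (sphere 0 ρ) := by
  unfold Lamp
  apply ContinuousOn.div continuousOn_const (by fun_prop)
  intro ζ hζ h
  have h1 : ζ ∈ ball (0:ℂ) (ρ ^ 2 / ‖a‖) := by
    have := rad_lt hρ ha ha0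
    rw [mem_ball, dist_zero_right]
    rw [mem_sphere, dist_zero_right] at hζ
    linarith
  have h2 := lam_re hρ ha ha0 h1
  rw [h] at h2; simp at h2

end

end Pool.Agent.Helper39.Area

end

section

set_option autoImplicit false
open Complex MeasureTheory Metric Set Filter Topology
open scoped Real ENNReal ComplexConjugate NNReal

/-! The Goluzin inequality at one point, main computation. -/

namespace Pool.Agent.Helper39.Area

variable {β : ℂ → ℂ}

theorem lam_zero (ρ : ℝ) (a : ℂ) : Lam ρ a 0 = 0 := by simp [Lam]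

theorem lam_self {ρ : ℝ} (hρ : 0 < ρ) {a : ℂ} (ha : a ∈ ball (0:ℂ) ρ) :
    Lam ρ a a = ((Real.log (1 - ‖a‖ ^ 2 / ρ ^ 2) : ℝ) : ℂ) := by
  have h1 : conj a * a = ((‖a‖ ^ 2 : ℝ) : ℂ) := by
    rw [mul_comm, Complex.mul_conj, Complex.normSq_eq_norm_sq]
  have h2 : 0 ≤ 1 - ‖a‖ ^ 2 / ρ ^ 2 := by
    rw [mem_ball, dist_zero_right] at ha
    have : ‖a‖ ^ 2 / ρ ^ 2 ≤ 1 := by
      rw [div_le_one (by positivity)]
      gcongr
    linarith
  rw [Lam, h1, Complex.ofReal_log h2]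
  congr 1
  push_cast
  ring

theorem log_bound_aux (h : Ext β) {ρ : ℝ} (hρ : 0 < ρ) (hρ1 : ρ < 1)
    {a : ℂ} (ha : a ∈ ball (0:ℂ) ρ) (ha0 : a ≠ 0) {F : ℂ → ℂ}
    (hF : ∀ ζ ∈ ball (0:ℂ) 1, HasDerivAt F (deriv (qq β a) ζ / qq β a ζ) ζ)
    (hF0 : F 0 = 0) (hexp : ∀ ζ ∈ ball (0:ℂ) 1, Complex.exp (F ζ) = qq β a ζ) :
    ‖F a‖ ≤ - Real.log (1 - ‖a‖ ^ 2 / ρ ^ 2) := by
  have ha1 : a ∈ ball (0:ℂ) 1 := mem_ball_of_sphere hρ1 (ball_subset_closedBall ha)
  have hapos : 0 < ‖a‖ := norm_pos_iff.mpr ha0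
  have haρ : ‖a‖ < ρ := by simpa using ha
  set Q : ℂ → ℂ := fun ζ => deriv (qq β a) ζ / qq β a ζ with hQ
  set R : ℝ := min 1 (ρ ^ 2 / ‖a‖) with hR
  have hρR : ρ < R := lt_min hρ1 (rad_lt hρ ha ha0)
  have hR1 : ball (0:ℂ) R ⊆ ball 0 1 := ball_subset_ball (min_le_left _ _)
  have hR2 : ball (0:ℂ) R ⊆ ball 0 (ρ ^ 2 / ‖a‖) := ball_subset_ball (min_le_right _ _)
  have hsR : sphere (0:ℂ) ρ ⊆ ball 0 R := by
    intro ζ hζ
    rw [mem_ball, dist_zero_right]
    rw [mem_sphere, dist_zero_right] at hζ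
    linarith
  have hFd : DifferentiableOn ℂ F (ball 0 R) := fun ζ hζ =>
    (hF ζ (hR1 hζ)).differentiableAt.differentiableWithinAt
  have hQd : DifferentiableOn ℂ Q (ball 0 R) := by
    have h1 : DifferentiableOn ℂ (deriv F) (ball 0 R) := hFd.deriv isOpen_ball
    apply h1.congr
    intro ζ hζ
    exact (hF ζ (hR1 hζ)).deriv.symm
  have hLd : DifferentiableOn ℂ (Lam ρ a) (ball 0 R) := (lam_diff hρ ha ha0).mono hR2
  have hLpd : DifferentiableOn ℂ (Lamp ρ a) (ball 0 R) := by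
    have h1 : DifferentiableOn ℂ (deriv (Lam ρ a)) (ball 0 R) := hLd.deriv isOpen_ball
    apply h1.congr
    intro ζ hζ
    exact (lam_hasDeriv hρ ha ha0 (hR2 hζ)).deriv.symm
  have hFc : ContinuousOn F (sphere 0 ρ) := hFd.continuousOn.mono hsR
  have hQc : ContinuousOn Q (sphere 0 ρ) := hQd.continuousOn.mono hsR
  have hLc : ContinuousOn (Lam ρ a) (sphere 0 ρ) := hLd.continuousOn.mono hsR
  have hLpc : ContinuousOn (Lamp ρ a) (sphere 0 ρ) := hLpd.continuousOn.mono hsR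
  have hgpc : ContinuousOn (gp a) (sphere 0 ρ) := gp_cont ha hρ
  set G : ℂ → ℂ := fun ζ => Complex.log (1 - a / ζ) with hG
  have hGc : ContinuousOn G (sphere 0 ρ) := fun ζ hζ =>
    (g_hasDeriv ha hρ hζ).continuousAt.continuousWithinAt
  have hcFc : ContinuousOn (fun ζ => conj (F ζ)) (sphere 0 ρ) :=
    Complex.continuous_conj.comp_continuousOn hFc
  have hFs : ∀ ζ ∈ sphere (0:ℂ) ρ, HasDerivAt F (Q ζ) ζ := fun ζ hζ => hF ζ (hR1 (hsR hζ))
  have hLs : ∀ ζ ∈ sphere (0:ℂ) ρ, HasDerivAt (Lam ρ a) (Lamp ρ a ζ) ζ := fun ζ hζ =>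
    lam_hasDeriv hρ ha ha0 (hR2 (hsR hζ))
  have hGs : ∀ ζ ∈ sphere (0:ℂ) ρ, HasDerivAt G (gp a ζ) ζ := fun ζ hζ => g_hasDeriv ha hρ hζ
  have hGL : ∀ ζ ∈ sphere (0:ℂ) ρ, conj (Lam ρ a ζ) = G ζ := fun ζ hζ => conj_lam hρ ha ha0 hζ
  set ℓ : ℝ := - Real.log (1 - ‖a‖ ^ 2 / ρ ^ 2) with hℓ
  have hfrac : 0 < ‖a‖ ^ 2 / ρ ^ 2 := by positivity
  have hfrac1 : ‖a‖ ^ 2 / ρ ^ 2 < 1 := by
    rw [div_lt_one (by positivity)]
    exact pow_lt_pow_left₀ haρ hapos.le two_ne_zero
  have hℓpos : 0 < ℓ := by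
    rw [hℓ, neg_pos]
    exact Real.log_neg (by linarith) (by linarith)
  have hLa : Lam ρ a a = -(ℓ:ℂ) := by
    rw [lam_self hρ ha, hℓ]; push_cast; ring
  have hL0 : Lam ρ a 0 = 0 := lam_zero ρ a
  -- the basic integrals
  have I3 : (∮ ζ in C(0, ρ), G ζ * Q ζ) = -(2 * π * I * F a) := by
    rw [parts hρ hGs hFs hgpc hQc, repro hρ hρR hFd ha, hF0, sub_zero]
  have I4 : (∮ ζ in C(0, ρ), G ζ * gp a ζ) = 0 := by
    have h1 := parts hρ hGs hGs hgpc hgpc
    have h2 : (2:ℂ) * (∮ ζ in C(0, ρ), G ζ * gp a ζ) = 0 := by linear_combination h1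
    simpa using h2
  obtain ⟨A, hA0, hA⟩ := dirichlet_nonneg hFd hρ hρR
  have I5 : (∮ ζ in C(0, ρ), conj (F ζ) * Q ζ) = 2 * π * I * A := by
    rw [← hA]
    apply circleIntegral.integral_congr hρ.le
    intro ζ hζ
    simp only
    rw [(hFs ζ hζ).deriv]
  have I6 : (∮ ζ in C(0, ρ), conj (F ζ) * gp a ζ) = 0 := by
    have h1 := conj_circle hρ (fun ζ => conj (F ζ) * gp a ζ)
    have h2 : (∮ ζ in C(0, ρ), (-((ρ:ℂ) ^ 2 / ζ ^ 2)) * conj (conj (F ζ) * gp a ζ)) =
        ∮ ζ in C(0, ρ), F ζ * Lamp ρ a ζ := by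
      apply circleIntegral.integral_congr hρ.le
      intro ζ hζ
      simp only
      rw [map_mul, Complex.conj_conj, ← lamp_eq hρ ha ha0 hζ]
      ring
    have hz : (∮ ζ in C(0, ρ), F ζ * Lamp ρ a ζ) = 0 := cauchy_zero hρ hρR (hFd.mul hLpd)
    rw [h2, hz] at h1
    simpa using h1
  have I7 : (∮ ζ in C(0, ρ), conj (F ζ) * Lamp ρ a ζ) = -(2 * π * I * conj (F a)) := by
    have h1 := conj_circle hρ (fun ζ => conj (F ζ) * Lamp ρ a ζ)
    have h2 : (∮ ζ in C(0, ρ), (-((ρ:ℂ) ^ 2 / ζ ^ 2)) * conj (conj (F ζ) * Lamp ρ a ζ)) =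
        ∮ ζ in C(0, ρ), F ζ * gp a ζ := by
      apply circleIntegral.integral_congr hρ.le
      intro ζ hζ
      simp only
      rw [map_mul, Complex.conj_conj, ← gp_eq hρ ha ha0 hζ]
      ring
    rw [h2, repro hρ hρR hFd ha, hF0, sub_zero] at h1
    have h3 := congrArg conj h1
    rw [Complex.conj_conj] at h3
    rw [h3]
    simp only [map_mul, Complex.conj_ofReal, Complex.conj_I, map_ofNat]
    ring
  have I8 : (∮ ζ in C(0, ρ), G ζ * Lamp ρ a ζ) = 2 * π * I * ℓ := by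
    rw [parts hρ hGs hLs hgpc hLpc, repro hρ hρR hLd ha, hLa, hL0]
    ring
  -- the area inequality
  obtain ⟨c, hc0, hc⟩ := area_log h hρ hρ1 ha ha0
  set c0 : ℂ := ((-2 * Real.log ‖a‖ : ℝ) : ℂ) with hc0'
  have hW : DifferentiableOn ℂ (fun ζ => c0 + Lam ρ a ζ + F ζ) (ball 0 R) :=
    ((differentiableOn_const c0).add hLd).add hFd
  have hWc : ContinuousOn (fun ζ => c0 + Lam ρ a ζ + F ζ) (sphere 0 ρ) := hW.continuousOn.mono hsR
  have I1 : (∮ ζ in C(0, ρ), (c0 + Lam ρ a ζ + F ζ) * Q ζ) = 0 :=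
    cauchy_zero hρ hρR (hW.mul hQd)
  have I2 : (∮ ζ in C(0, ρ), (c0 + Lam ρ a ζ + F ζ) * gp a ζ) = 2 * π * I * (F a - ℓ) := by
    rw [repro hρ hρR hW ha, hLa, hL0, hF0]
    ring
  have hJ : (∮ ζ in C(0, ρ), ((2 * Real.log ‖phi β ζ - phi β a‖ : ℝ) : ℂ) *
      (dphi β ζ / (phi β ζ - phi β a))) =
      ∮ ζ in C(0, ρ), ((((((c0 + Lam ρ a ζ + F ζ) * Q ζ) + ((c0 + Lam ρ a ζ + F ζ) * gp a ζ)) +
        (G ζ * Q ζ)) + (G ζ * gp a ζ)) + (conj (F ζ) * Q ζ)) + (conj (F ζ) * gp a ζ) := by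
    apply circleIntegral.integral_congr hρ.le
    intro ζ hζ
    have hζ1 : ζ ∈ ball (0:ℂ) 1 := hR1 (hsR hζ)
    have hζ0 : ζ ≠ 0 := sphere_ne' hρ hζ
    have hne : ζ ≠ a := by
      rintro rfl
      simp at hζ
      linarith
    have h1 : ((2 * Real.log ‖phi β ζ - phi β a‖ : ℝ) : ℂ) =
        c0 + Lam ρ a ζ + F ζ + G ζ + conj (F ζ) := by
      have h2 : phi β ζ - phi β a = -a⁻¹ * (1 - a / ζ) * qq β a ζ := by
        rw [phi_sub a ζ ha0 hζ0]
        field_simp
        ring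
      have h3 : (1 - a / ζ) ≠ 0 := by
        intro h'
        rw [sub_eq_zero, eq_div_iff hζ0, one_mul] at h'
        exact hne h'
      have h4 : qq β a ζ ≠ 0 := qq_ne h ha1 hζ1
      have h5 : Real.log ‖phi β ζ - phi β a‖ = - Real.log ‖a‖ + (G ζ).re + (F ζ).re := by
        rw [h2, norm_mul, norm_mul, norm_neg, norm_inv,
          Real.log_mul (mul_ne_zero (inv_ne_zero hapos.ne') (norm_ne_zero_iff.mpr h3))
            (norm_ne_zero_iff.mpr h4),
          Real.log_mul (inv_ne_zero hapos.ne') (norm_ne_zero_iff.mpr h3), Real.log_inv, hG,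
          Complex.log_re, ← hexp ζ hζ1, Complex.norm_exp, Real.log_exp]
      have h6 : Lam ρ a ζ = conj (G ζ) := by rw [← hGL ζ hζ, Complex.conj_conj]
      rw [h5, h6, hc0']
      have h7 := Complex.add_conj (G ζ)
      have h8 := Complex.add_conj (F ζ)
      push_cast at h7 h8 ⊢
      linear_combination -h7 - h8
    simp only
    rw [h1, dphi_div h ha1 hζ1 ha0 hζ0 hne]
    simp only [gp, hQ]
    ring
  have hc1 : CircleIntegrable (fun ζ => (c0 + Lam ρ a ζ + F ζ) * Q ζ) 0 ρ :=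
    (hWc.mul hQc).circleIntegrable hρ.le
  have hc2 : CircleIntegrable (fun ζ => (c0 + Lam ρ a ζ + F ζ) * gp a ζ) 0 ρ :=
    (hWc.mul hgpc).circleIntegrable hρ.le
  have hc3 : CircleIntegrable (fun ζ => G ζ * Q ζ) 0 ρ := (hGc.mul hQc).circleIntegrable hρ.le
  have hc4 : CircleIntegrable (fun ζ => G ζ * gp a ζ) 0 ρ := (hGc.mul hgpc).circleIntegrable hρ.le
  have hc5 : CircleIntegrable (fun ζ => conj (F ζ) * Q ζ) 0 ρ :=
    (hcFc.mul hQc).circleIntegrable hρ.le
  have hc6 : CircleIntegrable (fun ζ => conj (F ζ) * gp a ζ) 0 ρ :=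
    (hcFc.mul hgpc).circleIntegrable hρ.le
  have hc12 : CircleIntegrable (fun ζ => ((c0 + Lam ρ a ζ + F ζ) * Q ζ) +
      ((c0 + Lam ρ a ζ + F ζ) * gp a ζ)) 0 ρ := hc1.add hc2
  have hc13 : CircleIntegrable (fun ζ => (((c0 + Lam ρ a ζ + F ζ) * Q ζ) +
      ((c0 + Lam ρ a ζ + F ζ) * gp a ζ)) + (G ζ * Q ζ)) 0 ρ := hc12.add hc3
  have hc14 : CircleIntegrable (fun ζ => ((((c0 + Lam ρ a ζ + F ζ) * Q ζ) +
      ((c0 + Lam ρ a ζ + F ζ) * gp a ζ)) + (G ζ * Q ζ)) + (G ζ * gp a ζ)) 0 ρ := hc13.add hc4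
  have hc15 : CircleIntegrable (fun ζ => (((((c0 + Lam ρ a ζ + F ζ) * Q ζ) +
      ((c0 + Lam ρ a ζ + F ζ) * gp a ζ)) + (G ζ * Q ζ)) + (G ζ * gp a ζ)) +
      (conj (F ζ) * Q ζ)) 0 ρ := hc14.add hc5
  rw [hJ, circleIntegral.integral_add hc15 hc6, circleIntegral.integral_add hc14 hc5,
    circleIntegral.integral_add hc13 hc4, circleIntegral.integral_add hc12 hc3,
    circleIntegral.integral_add hc1 hc2, I1, I2, I3, I4, I5, I6] at hc
  have hpi : (π:ℂ) ≠ 0 := by exact_mod_cast Real.pi_ne_zero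
  have hAc : (A:ℂ) = ℓ - c / π := by
    have hI : (2 * I : ℂ) ≠ 0 := by simp
    have : (2 * I : ℂ) * (π * A) = (2 * I : ℂ) * (π * ℓ - c) := by linear_combination hc
    have h2 := mul_left_cancel₀ hI this
    field_simp
    linear_combination h2
  have hAr : A = ℓ - c / π := by exact_mod_cast hAc
  have hAle : A ≤ ℓ := by
    rw [hAr]
    have : 0 ≤ c / π := div_nonneg hc0 Real.pi_pos.le
    linarith
  -- the Dirichlet form of the combination
  set lam : ℂ := F a / ℓ with hlam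
  have hEd : DifferentiableOn ℂ (fun ζ => F ζ + lam * Lam ρ a ζ) (ball 0 R) :=
    hFd.add (hLd.const_mul lam)
  obtain ⟨c2, hc20, hc2'⟩ := dirichlet_nonneg hEd hρ hρR
  have hℓc : (ℓ:ℂ) ≠ 0 := by exact_mod_cast hℓpos.ne'
  have hE : (∮ ζ in C(0, ρ), conj (F ζ + lam * Lam ρ a ζ) *
      deriv (fun ζ => F ζ + lam * Lam ρ a ζ) ζ) =
      ∮ ζ in C(0, ρ), (((conj (F ζ) * Q ζ) + lam * (conj (F ζ) * Lamp ρ a ζ)) +
        conj lam * (G ζ * Q ζ)) + (conj lam * lam) * (G ζ * Lamp ρ a ζ) := by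
    apply circleIntegral.integral_congr hρ.le
    intro ζ hζ
    have h1 : deriv (fun ζ => F ζ + lam * Lam ρ a ζ) ζ = Q ζ + lam * Lamp ρ a ζ :=
      ((hFs ζ hζ).add ((hLs ζ hζ).const_mul lam)).deriv
    simp only
    rw [h1, map_add, map_mul, hGL ζ hζ]
    ring
  have hd2 : CircleIntegrable (fun ζ => lam * (conj (F ζ) * Lamp ρ a ζ)) 0 ρ :=
    (continuousOn_const.mul (hcFc.mul hLpc)).circleIntegrable hρ.le
  have hd3 : CircleIntegrable (fun ζ => conj lam * (G ζ * Q ζ)) 0 ρ :=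
    (continuousOn_const.mul (hGc.mul hQc)).circleIntegrable hρ.le
  have hd4 : CircleIntegrable (fun ζ => (conj lam * lam) * (G ζ * Lamp ρ a ζ)) 0 ρ :=
    (continuousOn_const.mul (hGc.mul hLpc)).circleIntegrable hρ.le
  have hd12 : CircleIntegrable (fun ζ => (conj (F ζ) * Q ζ) +
      lam * (conj (F ζ) * Lamp ρ a ζ)) 0 ρ := hc5.add hd2
  have hd13 : CircleIntegrable (fun ζ => ((conj (F ζ) * Q ζ) +
      lam * (conj (F ζ) * Lamp ρ a ζ)) + conj lam * (G ζ * Q ζ)) 0 ρ := hd12.add hd3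
  rw [hE, circleIntegral.integral_add hd13 hd4, circleIntegral.integral_add hd12 hd3,
    circleIntegral.integral_add hc5 hd2, circleIntegral.integral_const_mul,
    circleIntegral.integral_const_mul, circleIntegral.integral_const_mul, I5, I7, I3, I8] at hc2'
  have hFa : F a * conj (F a) = ((‖F a‖ ^ 2 : ℝ) : ℂ) := by
    rw [Complex.mul_conj, Complex.normSq_eq_norm_sq]
  have hclam : conj lam = conj (F a) / ℓ := by
    rw [hlam, map_div₀, Complex.conj_ofReal]
  have hfin : (A:ℂ) = c2 + ((‖F a‖ ^ 2 : ℝ) : ℂ) / ℓ := by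
    have h2pi : (2 * π * I : ℂ) ≠ 0 := two_pi_I_ne_zero
    apply mul_left_cancel₀ h2pi
    rw [← hFa]
    rw [hclam, hlam] at hc2'
    have h9 : (2 * π * I : ℂ) * A + F a / ℓ * -(2 * π * I * conj (F a)) +
        conj (F a) / ℓ * -(2 * π * I * F a) + conj (F a) / ℓ * (F a / ℓ) * (2 * π * I * ℓ) =
        2 * π * I * (A - F a * conj (F a) / ℓ) := by
      field_simp
      ring
    rw [h9] at hc2'
    linear_combination hc2'
  have hfinr : A = c2 + ‖F a‖ ^ 2 / ℓ := by exact_mod_cast hfin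
  have h10 : ‖F a‖ ^ 2 / ℓ ≤ ℓ := by linarith
  rw [div_le_iff₀ hℓpos] at h10
  nlinarith [norm_nonneg (F a)]

theorem log_bound (h : Ext β) {a : ℂ} (ha : a ∈ ball (0:ℂ) 1) {F : ℂ → ℂ}
    (hF : ∀ ζ ∈ ball (0:ℂ) 1, HasDerivAt F (deriv (qq β a) ζ / qq β a ζ) ζ)
    (hF0 : F 0 = 0) (hexp : ∀ ζ ∈ ball (0:ℂ) 1, Complex.exp (F ζ) = qq β a ζ) :
    ‖F a‖ ≤ - Real.log (1 - ‖a‖ ^ 2) := by
  by_cases ha0 : a = 0
  · subst ha0; simp [hF0]
  have ha' : ‖a‖ < 1 := by simpa using ha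
  have hlim : Tendsto (fun ρ : ℝ => - Real.log (1 - ‖a‖ ^ 2 / ρ ^ 2)) (𝓝[<] 1)
      (𝓝 (- Real.log (1 - ‖a‖ ^ 2))) := by
    have h1 : ContinuousAt (fun ρ : ℝ => - Real.log (1 - ‖a‖ ^ 2 / ρ ^ 2)) 1 := by
      apply ContinuousAt.neg
      apply ContinuousAt.log
      · apply ContinuousAt.sub continuousAt_const
        apply ContinuousAt.div continuousAt_const (by fun_prop) (by norm_num)
      · have : ‖a‖ ^ 2 < 1 := by nlinarith [norm_nonneg a]
        simp only [one_pow, div_one]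
        linarith
    have h2 := h1.tendsto
    simp only [one_pow, div_one] at h2
    exact h2.mono_left nhdsWithin_le_nhds
  apply ge_of_tendsto hlim
  have h1 : Ioo ‖a‖ 1 ∈ 𝓝[<] (1:ℝ) := Ioo_mem_nhdsLT ha'
  filter_upwards [h1] with ρ hρ
  exact log_bound_aux h ((norm_nonneg a).trans_lt hρ.1) hρ.2 (by simpa using hρ.1) ha0 hF hF0 hexp

end Pool.Agent.Helper39.Area

end
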