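import Pool.Agent.Helper60.BE.T07
import Pool.Agent.Helper60.BE.T01

set_option linter.all false

section

namespace Pool.Agent.Helper39.Area
end Pool.Agent.Helper39.Area

/-!
The energy of the logarithm of a difference, on a disc of radius `ρ < 1`.
-/

set_option autoImplicit false

open Complex MeasureTheory Metric Set Filter Topology

open scoped Real ENNReal ComplexConjugate NNReal

namespace Pool.Agent.Helper39.EK

open Pool.Agent.Helper39.Area

variable {β : ℂ → ℂ}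

theorem energy_aux (h : Ext β) {ρ : ℝ} (hρ : 0 < ρ) (hρ1 : ρ < 1)
    {a : ℂ} (ha : a ∈ ball (0:ℂ) ρ) (ha0 : a ≠ 0) {F : ℂ → ℂ}
    (hF : ∀ ζ ∈ ball (0:ℂ) 1, HasDerivAt F (deriv (qq β a) ζ / qq β a ζ) ζ)
    (hF0 : F 0 = 0) (hexp : ∀ ζ ∈ ball (0:ℂ) 1, Complex.exp (F ζ) = qq β a ζ) :
    ∃ c2 : ℝ, c2 ≤ 2 * (- Real.log (1 - ‖a‖ ^ 2 / ρ ^ 2)) + 2 * (F a).re ∧
      ∀ N : ℕ, ∑ n ∈ Finset.range N, (n:ℝ) * ρ ^ (2 * n) *
        ‖iteratedDeriv n (fun ζ => F ζ - Lam ρ a ζ) 0 / n.factorial‖ ^ 2 ≤ c2 := by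
  have ha1 : a ∈ ball (0:ℂ) 1 := mem_ball_of_sphere hρ1 (ball_subset_closedBall ha)
  have hapos : 0 < ‖a‖ := norm_pos_iff.mpr ha0
  have haρ : ‖a‖ < ρ := by simpa using ha
  set Q : ℂ → ℂ := fun ζ => deriv (qq β a) ζ / qq β a ζ with hQ
  set R : ℝ := min 1 (ρ ^ 2 / ‖a‖) with hR
  have hρR : ρ < R := lt_min hρ1 (rad_lt hρ ha ha0)
  have hR1 : ball (0:ℂ) R ⊆ ball 0 1 := ball_subset_ball (min_le_left _ _)
  have hR2 : ball (0:ℂ) R ⊆ ball 0 (ρ ^ 2 / ‖a‖) := ball_subset_ball (min_le_right _ _)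
  have hsR : sphere (0:ℂ) ρ ⊆ ball 0 R := by
    intro ζ hζ
    rw [mem_ball, dist_zero_right]
    rw [mem_sphere, dist_zero_right] at hζ
    (clear * - hρR hζ; linarith only [hρR, hζ])
  have hFd : DifferentiableOn ℂ F (ball 0 R) := fun ζ hζ =>
    (hF ζ (hR1 hζ)).differentiableAt.differentiableWithinAt
  have hQd : DifferentiableOn ℂ Q (ball 0 R) := by
    have h1 : DifferentiableOn ℂ (deriv F) (ball 0 R) := hFd.deriv isOpen_ball
    apply h1.congr
    intro ζ hζ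
    exact (hF ζ (hR1 hζ)).deriv.symm
  have hLd : DifferentiableOn ℂ (Lam ρ a) (ball 0 R) := (lam_diff hρ ha ha0).mono hR2
  have hLpd : DifferentiableOn ℂ (Lamp ρ a) (ball 0 R) := by
    have h1 : DifferentiableOn ℂ (deriv (Lam ρ a)) (ball 0 R) := hLd.deriv isOpen_ball
    apply h1.congr
    intro ζ hζ
    exact (lam_hasDeriv hρ ha ha0 (hR2 hζ)).deriv.symm
  have hFc : ContinuousOn F (sphere 0 ρ) := hFd.continuousOn.mono hsR
  have hQc : ContinuousOn Q (sphere 0 ρ) := hQd.continuousOn.mono hsR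
  have hLc : ContinuousOn (Lam ρ a) (sphere 0 ρ) := hLd.continuousOn.mono hsR
  have hLpc : ContinuousOn (Lamp ρ a) (sphere 0 ρ) := hLpd.continuousOn.mono hsR
  have hgpc : ContinuousOn (gp a) (sphere 0 ρ) := gp_cont ha hρ
  set G : ℂ → ℂ := fun ζ => Complex.log (1 - a / ζ) with hG
  have hGc : ContinuousOn G (sphere 0 ρ) := fun ζ hζ =>
    (g_hasDeriv ha hρ hζ).continuousAt.continuousWithinAt
  have hcFc : ContinuousOn (fun ζ => conj (F ζ)) (sphere 0 ρ) :=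
    Complex.continuous_conj.comp_continuousOn hFc
  have hFs : ∀ ζ ∈ sphere (0:ℂ) ρ, HasDerivAt F (Q ζ) ζ := fun ζ hζ => hF ζ (hR1 (hsR hζ))
  have hLs : ∀ ζ ∈ sphere (0:ℂ) ρ, HasDerivAt (Lam ρ a) (Lamp ρ a ζ) ζ := fun ζ hζ =>
    lam_hasDeriv hρ ha ha0 (hR2 (hsR hζ))
  have hGs : ∀ ζ ∈ sphere (0:ℂ) ρ, HasDerivAt G (gp a ζ) ζ := fun ζ hζ => g_hasDeriv ha hρ hζ
  have hGL : ∀ ζ ∈ sphere (0:ℂ) ρ, conj (Lam ρ a ζ) = G ζ := fun ζ hζ => conj_lam hρ ha ha0 hζ
  set ℓ : ℝ := - Real.log (1 - ‖a‖ ^ 2 / ρ ^ 2) with hℓ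
  have hfrac : 0 < ‖a‖ ^ 2 / ρ ^ 2 := by (clear * - ha0 hρ; positivity)
  have hfrac1 : ‖a‖ ^ 2 / ρ ^ 2 < 1 := by
    rw [div_lt_one (by positivity)]
    exact pow_lt_pow_left₀ haρ hapos.le two_ne_zero
  have hℓpos : 0 < ℓ := by
    rw [hℓ, neg_pos]
    exact Real.log_neg (by (clear * - hfrac1; linarith only [hfrac1])) (by linarith only [hfrac])
  have hLa : Lam ρ a a = -(ℓ:ℂ) := by
    rw [lam_self hρ ha, hℓ]; push_cast; ring
  have hL0 : Lam ρ a 0 = 0 := lam_zero ρ a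
  -- the basic integrals
  have I3 : (∮ ζ in C(0, ρ), G ζ * Q ζ) = -(2 * π * I * F a) := by
    rw [parts hρ hGs hFs hgpc hQc, repro hρ hρR hFd ha, hF0, sub_zero]
  have I4 : (∮ ζ in C(0, ρ), G ζ * gp a ζ) = 0 := by
    have h1 := parts hρ hGs hGs hgpc hgpc
    have h2 : (2:ℂ) * (∮ ζ in C(0, ρ), G ζ * gp a ζ) = 0 := by linear_combination h1
    simpa using h2
  obtain ⟨A, hA0, hA⟩ := dirichlet_nonneg hFd hρ hρR
  have I5 : (∮ ζ in C(0, ρ), conj (F ζ) * Q ζ) = 2 * π * I * A := by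
    rw [← hA]
    apply circleIntegral.integral_congr hρ.le
    intro ζ hζ
    simp only
    rw [(hFs ζ hζ).deriv]
  have I6 : (∮ ζ in C(0, ρ), conj (F ζ) * gp a ζ) = 0 := by
    have h1 := conj_circle hρ (fun ζ => conj (F ζ) * gp a ζ)
    have h2 : (∮ ζ in C(0, ρ), (-((ρ:ℂ) ^ 2 / ζ ^ 2)) * conj (conj (F ζ) * gp a ζ)) =
        ∮ ζ in C(0, ρ), F ζ * Lamp ρ a ζ := by
      apply circleIntegral.integral_congr hρ.le
      intro ζ hζ
      simp only
      rw [map_mul, Complex.conj_conj, ← lamp_eq hρ ha ha0 hζ]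
      ring
    have hz : (∮ ζ in C(0, ρ), F ζ * Lamp ρ a ζ) = 0 := cauchy_zero hρ hρR (hFd.mul hLpd)
    rw [h2, hz] at h1
    simpa using h1
  have I7 : (∮ ζ in C(0, ρ), conj (F ζ) * Lamp ρ a ζ) = -(2 * π * I * conj (F a)) := by
    have h1 := conj_circle hρ (fun ζ => conj (F ζ) * Lamp ρ a ζ)
    have h2 : (∮ ζ in C(0, ρ), (-((ρ:ℂ) ^ 2 / ζ ^ 2)) * conj (conj (F ζ) * Lamp ρ a ζ)) =
        ∮ ζ in C(0, ρ), F ζ * gp a ζ := by
      apply circleIntegral.integral_congr hρ.le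
      intro ζ hζ
      simp only
      rw [map_mul, Complex.conj_conj, ← gp_eq hρ ha ha0 hζ]
      ring
    rw [h2, repro hρ hρR hFd ha, hF0, sub_zero] at h1
    have h3 := congrArg conj h1
    rw [Complex.conj_conj] at h3
    rw [h3]
    simp only [map_mul, Complex.conj_ofReal, Complex.conj_I, map_ofNat]
    ring
  have I8 : (∮ ζ in C(0, ρ), G ζ * Lamp ρ a ζ) = 2 * π * I * ℓ := by
    rw [parts hρ hGs hLs hgpc hLpc, repro hρ hρR hLd ha, hLa, hL0]
    ring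
  -- the area inequality
  obtain ⟨c, hc0, hc⟩ := area_log h hρ hρ1 ha ha0
  set c0 : ℂ := ((-2 * Real.log ‖a‖ : ℝ) : ℂ) with hc0'
  have hW : DifferentiableOn ℂ (fun ζ => c0 + Lam ρ a ζ + F ζ) (ball 0 R) :=
    ((differentiableOn_const c0).add hLd).add hFd
  have hWc : ContinuousOn (fun ζ => c0 + Lam ρ a ζ + F ζ) (sphere 0 ρ) := hW.continuousOn.mono hsR
  have I1 : (∮ ζ in C(0, ρ), (c0 + Lam ρ a ζ + F ζ) * Q ζ) = 0 :=
    cauchy_zero hρ hρR (hW.mul hQd)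
  have I2 : (∮ ζ in C(0, ρ), (c0 + Lam ρ a ζ + F ζ) * gp a ζ) = 2 * π * I * (F a - ℓ) := by
    rw [repro hρ hρR hW ha, hLa, hL0, hF0]
    ring
  have hJ : (∮ ζ in C(0, ρ), ((2 * Real.log ‖phi β ζ - phi β a‖ : ℝ) : ℂ) *
      (dphi β ζ / (phi β ζ - phi β a))) =
      ∮ ζ in C(0, ρ), ((((((c0 + Lam ρ a ζ + F ζ) * Q ζ) + ((c0 + Lam ρ a ζ + F ζ) * gp a ζ)) +
        (G ζ * Q ζ)) + (G ζ * gp a ζ)) + (conj (F ζ) * Q ζ)) + (conj (F ζ) * gp a ζ) := by
    apply circleIntegral.integral_congr hρ.le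
    intro ζ hζ
    have hζ1 : ζ ∈ ball (0:ℂ) 1 := hR1 (hsR hζ)
    have hζ0 : ζ ≠ 0 := sphere_ne' hρ hζ
    have hne : ζ ≠ a := by
      rintro rfl
      simp at hζ
      linarith only [haρ, hζ]
    have h1 : ((2 * Real.log ‖phi β ζ - phi β a‖ : ℝ) : ℂ) =
        c0 + Lam ρ a ζ + F ζ + G ζ + conj (F ζ) := by
      have h2 : phi β ζ - phi β a = -a⁻¹ * (1 - a / ζ) * qq β a ζ := by
        rw [phi_sub a ζ ha0 hζ0]
        field_simp
        ring
      have h3 : (1 - a / ζ) ≠ 0 := by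
        intro h'
        rw [sub_eq_zero, eq_div_iff hζ0, one_mul] at h'
        exact hne h'
      have h4 : qq β a ζ ≠ 0 := qq_ne h ha1 hζ1
      have h5 : Real.log ‖phi β ζ - phi β a‖ = - Real.log ‖a‖ + (G ζ).re + (F ζ).re := by
        rw [h2, norm_mul, norm_mul, norm_neg, norm_inv,
          Real.log_mul (mul_ne_zero (inv_ne_zero hapos.ne') (norm_ne_zero_iff.mpr h3))
            (norm_ne_zero_iff.mpr h4),
          Real.log_mul (inv_ne_zero hapos.ne') (norm_ne_zero_iff.mpr h3), Real.log_inv, hG,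
          Complex.log_re, ← hexp ζ hζ1, Complex.norm_exp, Real.log_exp]
      have h6 : Lam ρ a ζ = conj (G ζ) := by rw [← hGL ζ hζ, Complex.conj_conj]
      rw [h5, h6, hc0']
      have h7 := Complex.add_conj (G ζ)
      have h8 := Complex.add_conj (F ζ)
      push_cast at h7 h8 ⊢
      linear_combination -h7 - h8
    simp only
    rw [h1, dphi_div h ha1 hζ1 ha0 hζ0 hne]
    simp only [gp, hQ]
    ring
  have hc1 : CircleIntegrable (fun ζ => (c0 + Lam ρ a ζ + F ζ) * Q ζ) 0 ρ :=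
    (hWc.mul hQc).circleIntegrable hρ.le
  have hc2 : CircleIntegrable (fun ζ => (c0 + Lam ρ a ζ + F ζ) * gp a ζ) 0 ρ :=
    (hWc.mul hgpc).circleIntegrable hρ.le
  have hc3 : CircleIntegrable (fun ζ => G ζ * Q ζ) 0 ρ := (hGc.mul hQc).circleIntegrable hρ.le
  have hc4 : CircleIntegrable (fun ζ => G ζ * gp a ζ) 0 ρ := (hGc.mul hgpc).circleIntegrable hρ.le
  have hc5 : CircleIntegrable (fun ζ => conj (F ζ) * Q ζ) 0 ρ :=
    (hcFc.mul hQc).circleIntegrable hρ.le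
  have hc6 : CircleIntegrable (fun ζ => conj (F ζ) * gp a ζ) 0 ρ :=
    (hcFc.mul hgpc).circleIntegrable hρ.le
  have hc12 : CircleIntegrable (fun ζ => ((c0 + Lam ρ a ζ + F ζ) * Q ζ) +
      ((c0 + Lam ρ a ζ + F ζ) * gp a ζ)) 0 ρ := hc1.add hc2
  have hc13 : CircleIntegrable (fun ζ => (((c0 + Lam ρ a ζ + F ζ) * Q ζ) +
      ((c0 + Lam ρ a ζ + F ζ) * gp a ζ)) + (G ζ * Q ζ)) 0 ρ := hc12.add hc3
  have hc14 : CircleIntegrable (fun ζ => ((((c0 + Lam ρ a ζ + F ζ) * Q ζ) +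
      ((c0 + Lam ρ a ζ + F ζ) * gp a ζ)) + (G ζ * Q ζ)) + (G ζ * gp a ζ)) 0 ρ := hc13.add hc4
  have hc15 : CircleIntegrable (fun ζ => (((((c0 + Lam ρ a ζ + F ζ) * Q ζ) +
      ((c0 + Lam ρ a ζ + F ζ) * gp a ζ)) + (G ζ * Q ζ)) + (G ζ * gp a ζ)) +
      (conj (F ζ) * Q ζ)) 0 ρ := hc14.add hc5
  rw [hJ, circleIntegral.integral_add hc15 hc6, circleIntegral.integral_add hc14 hc5,
    circleIntegral.integral_add hc13 hc4, circleIntegral.integral_add hc12 hc3,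
    circleIntegral.integral_add hc1 hc2, I1, I2, I3, I4, I5, I6] at hc
  have hpi : (π:ℂ) ≠ 0 := by exact_mod_cast Real.pi_ne_zero
  have hAc : (A:ℂ) = ℓ - c / π := by
    have hI : (2 * I : ℂ) ≠ 0 := by simp
    have : (2 * I : ℂ) * (π * A) = (2 * I : ℂ) * (π * ℓ - c) := by linear_combination hc
    have h2 := mul_left_cancel₀ hI this
    field_simp
    linear_combination h2
  have hAr : A = ℓ - c / π := by exact_mod_cast hAc
  have hAle : A ≤ ℓ := by
    rw [hAr]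
    have : 0 ≤ c / π := div_nonneg hc0 Real.pi_pos.le
    linarith only [this]
  -- the Dirichlet form of the combination
  have hEd : DifferentiableOn ℂ (fun ζ => F ζ - Lam ρ a ζ) (ball 0 R) := hFd.sub hLd
  obtain ⟨c2, hc20, hc2'⟩ := dirichlet_sum hEd hρ hρR
  have hE : (∮ ζ in C(0, ρ), conj (F ζ - Lam ρ a ζ) *
      deriv (fun ζ => F ζ - Lam ρ a ζ) ζ) =
      ∮ ζ in C(0, ρ), (((conj (F ζ) * Q ζ) - (conj (F ζ) * Lamp ρ a ζ)) -
        (G ζ * Q ζ)) + (G ζ * Lamp ρ a ζ) := by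
    apply circleIntegral.integral_congr hρ.le
    intro ζ hζ
    have h1 : deriv (fun ζ => F ζ - Lam ρ a ζ) ζ = Q ζ - Lamp ρ a ζ :=
      ((hFs ζ hζ).sub (hLs ζ hζ)).deriv
    simp only
    rw [h1, map_sub, hGL ζ hζ]
    ring
  have hd2 : CircleIntegrable (fun ζ => conj (F ζ) * Lamp ρ a ζ) 0 ρ :=
    (hcFc.mul hLpc).circleIntegrable hρ.le
  have hd4 : CircleIntegrable (fun ζ => G ζ * Lamp ρ a ζ) 0 ρ :=
    (hGc.mul hLpc).circleIntegrable hρ.le
  have hd12 : CircleIntegrable (fun ζ => (conj (F ζ) * Q ζ) -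
      (conj (F ζ) * Lamp ρ a ζ)) 0 ρ := hc5.sub hd2
  have hd13 : CircleIntegrable (fun ζ => ((conj (F ζ) * Q ζ) -
      (conj (F ζ) * Lamp ρ a ζ)) - (G ζ * Q ζ)) 0 ρ := hd12.sub hc3
  rw [hE, circleIntegral.integral_add hd13 hd4, circleIntegral.integral_sub hd12 hc3,
    circleIntegral.integral_sub hc5 hd2, I5, I7, I3, I8] at hc2'
  have hfin : (A:ℂ) + 2 * ((F a).re : ℂ) + ℓ = c2 := by
    have h2pi : (2 * π * I : ℂ) ≠ 0 := two_pi_I_ne_zero
    apply mul_left_cancel₀ h2pi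
    have h8 := Complex.add_conj (F a)
    push_cast at h8
    rw [← hc2', ← h8]
    ring
  have hfinr : A + 2 * (F a).re + ℓ = c2 := by exact_mod_cast hfin
  refine ⟨c2, ?_, hc20⟩
  linarith only [hAle, hfinr]

end Pool.Agent.Helper39.EK

end

section

namespace Pool.Agent.Helper39.Area
end Pool.Agent.Helper39.Area

/-!
E1: the energy inequality.
-/

set_option autoImplicit false

open Complex MeasureTheory Metric Set Filter Topology

open scoped Real ENNReal ComplexConjugate NNReal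

namespace Pool.Agent.Helper39.EK

open Pool.Agent.Helper39.Area

variable {β : ℂ → ℂ}

theorem energy_rho (h : Ext β) {ρ₀ ρ : ℝ} (hρ₀ : 0 < ρ₀) (hρ : ρ₀ < ρ) (hρ1 : ρ < 1)
    {a : ℂ} (ha : a ∈ ball (0:ℂ) ρ) (ha0 : a ≠ 0) {F : ℂ → ℂ}
    (hF : ∀ ζ ∈ ball (0:ℂ) 1, HasDerivAt F (deriv (qq β a) ζ / qq β a ζ) ζ)
    (hF0 : F 0 = 0) (hexp : ∀ ζ ∈ ball (0:ℂ) 1, Complex.exp (F ζ) = qq β a ζ) :
    ∫ z in ball (0:ℂ) ρ₀, ‖deriv F z + conj a / ((ρ:ℂ) ^ 2 - conj a * z)‖ ^ 2 ≤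
      π * (2 * (- Real.log (1 - ‖a‖ ^ 2 / ρ ^ 2)) + 2 * (F a).re) := by
  have hρp : 0 < ρ := hρ₀.trans hρ
  obtain ⟨c2, hc2, hsum⟩ := energy_aux h hρp hρ1 ha ha0 hF hF0 hexp
  set R : ℝ := min 1 (ρ ^ 2 / ‖a‖) with hR
  have hρR : ρ < R := lt_min hρ1 (rad_lt hρp ha ha0)
  have hR1 : ball (0:ℂ) R ⊆ ball 0 1 := ball_subset_ball (min_le_left _ _)
  have hR2 : ball (0:ℂ) R ⊆ ball 0 (ρ ^ 2 / ‖a‖) := ball_subset_ball (min_le_right _ _)
  have hFd : DifferentiableOn ℂ F (ball 0 R) := fun ζ hζ =>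
    (hF ζ (hR1 hζ)).differentiableAt.differentiableWithinAt
  have hLd : DifferentiableOn ℂ (Lam ρ a) (ball 0 R) := (lam_diff hρp ha ha0).mono hR2
  have hEd : DifferentiableOn ℂ (fun ζ => F ζ - Lam ρ a ζ) (ball 0 R) := hFd.sub hLd
  have h1 := area_le hEd hρp hρR hsum
  have hder : ∀ z ∈ ball (0:ℂ) R, deriv (fun ζ => F ζ - Lam ρ a ζ) z =
      deriv F z + conj a / ((ρ:ℂ) ^ 2 - conj a * z) := by
    intro z hz
    have h2 : deriv (fun ζ => F ζ - Lam ρ a ζ) z = deriv F z - Lamp ρ a z :=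
      (((hF z (hR1 hz)).differentiableAt.hasDerivAt).sub (lam_hasDeriv hρp ha ha0 (hR2 hz))).deriv
    rw [h2, Lamp]
    have hρc : (ρ:ℂ) ^ 2 ≠ 0 := pow_ne_zero _ (by exact_mod_cast hρp.ne')
    have h3 : (1 - conj a * z / (ρ:ℂ) ^ 2) = ((ρ:ℂ) ^ 2 - conj a * z) / (ρ:ℂ) ^ 2 := by
      rw [sub_div, div_self hρc]
    rw [h3, neg_div, sub_neg_eq_add, div_div_div_cancel_right₀ hρc]
  have hcont : ContinuousOn (fun z => ‖deriv F z + conj a / ((ρ:ℂ) ^ 2 - conj a * z)‖ ^ 2)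
      (closedBall 0 ρ) := by
    have h4 : ContinuousOn (fun z => ‖deriv (fun ζ => F ζ - Lam ρ a ζ) z‖ ^ 2) (closedBall 0 ρ) :=
      (((hEd.deriv isOpen_ball).continuousOn.mono (closedBall_subset_ball hρR)).norm).pow 2
    refine h4.congr fun z hz => ?_
    simp only
    rw [hder z (closedBall_subset_ball hρR hz)]
  have hint : IntegrableOn (fun z => ‖deriv F z + conj a / ((ρ:ℂ) ^ 2 - conj a * z)‖ ^ 2)
      (ball 0 ρ) :=
    (hcont.integrableOn_compact (isCompact_closedBall _ _)).mono_set ball_subset_closedBall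
  calc ∫ z in ball (0:ℂ) ρ₀, ‖deriv F z + conj a / ((ρ:ℂ) ^ 2 - conj a * z)‖ ^ 2
      ≤ ∫ z in ball (0:ℂ) ρ, ‖deriv F z + conj a / ((ρ:ℂ) ^ 2 - conj a * z)‖ ^ 2 :=
        setIntegral_mono_set hint (ae_of_all _ fun _ => by (clear * -; positivity))
          (ball_subset_ball hρ.le).eventuallyLE
    _ = ∫ z in ball (0:ℂ) ρ, ‖deriv (fun ζ => F ζ - Lam ρ a ζ) z‖ ^ 2 := by
        apply setIntegral_congr_fun measurableSet_ball
        intro z hz
        simp only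
        rw [hder z (ball_subset_ball hρR.le hz)]
    _ ≤ π * c2 := h1
    _ ≤ _ := mul_le_mul_of_nonneg_left hc2 Real.pi_pos.le

/-- E1: the energy inequality -/
theorem energy (h : Ext β) {ρ₀ : ℝ} (hρ₀ : 0 < ρ₀) (hρ₀1 : ρ₀ < 1)
    {a : ℂ} (ha : a ∈ ball (0:ℂ) 1) (ha0 : a ≠ 0) {F : ℂ → ℂ}
    (hF : ∀ ζ ∈ ball (0:ℂ) 1, HasDerivAt F (deriv (qq β a) ζ / qq β a ζ) ζ)
    (hF0 : F 0 = 0) (hexp : ∀ ζ ∈ ball (0:ℂ) 1, Complex.exp (F ζ) = qq β a ζ) :
    ∫ z in ball (0:ℂ) ρ₀, ‖deriv F z + conj a / (1 - conj a * z)‖ ^ 2 ≤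
      2 * π * (- Real.log (1 - ‖a‖ ^ 2) + (F a).re) := by
  have ha1 : ‖a‖ < 1 := by simpa using ha
  have hapos : 0 < ‖a‖ := norm_pos_iff.mpr ha0
  have hFd : DifferentiableOn ℂ F (ball 0 1) := fun ζ hζ =>
    (hF ζ hζ).differentiableAt.differentiableWithinAt
  have hdc : ContinuousOn (deriv F) (closedBall 0 ρ₀) :=
    (hFd.deriv isOpen_ball).continuousOn.mono (closedBall_subset_ball hρ₀1)
  obtain ⟨M, hM⟩ := (isCompact_closedBall (0:ℂ) ρ₀).exists_bound_of_continuousOn hdc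
  have hM0 : 0 ≤ M := (norm_nonneg _).trans (hM 0 (mem_closedBall_self hρ₀.le))
  have haρ : ‖a‖ * ρ₀ < 1 := by nlinarith
  set δ : ℝ := (1 - ‖a‖ * ρ₀) / 2 with hδ
  have hδ0 : 0 < δ := by rw [hδ]; (clear * - haρ; linarith only [haρ])
  have hlow : ∀ ρ : ℝ, (1 + ‖a‖ * ρ₀) / 2 ≤ ρ ^ 2 → ∀ z ∈ ball (0:ℂ) ρ₀,
      δ ≤ ‖(ρ:ℂ) ^ 2 - conj a * z‖ := by
    intro ρ hρ z hz
    have h1 : ‖(ρ:ℂ) ^ 2‖ = ρ ^ 2 := by
      rw [norm_pow, Complex.norm_real, Real.norm_eq_abs, sq_abs]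
    have h2 : ‖conj a * z‖ ≤ ‖a‖ * ρ₀ := by
      rw [norm_mul, RCLike.norm_conj]
      rw [mem_ball, dist_zero_right] at hz
      exact mul_le_mul_of_nonneg_left hz.le (norm_nonneg _)
    have h3 := norm_sub_norm_le ((ρ:ℂ) ^ 2) (conj a * z)
    rw [h1] at h3
    rw [hδ]
    linarith only [hρ, h2, h3]
  have hev : ∀ᶠ ρ : ℝ in 𝓝[<] 1, ρ₀ < ρ ∧ ‖a‖ < ρ ∧ ρ < 1 ∧ (1 + ‖a‖ * ρ₀) / 2 ≤ ρ ^ 2 := by
    have h1 : ∀ᶠ ρ : ℝ in 𝓝[<] 1, ρ₀ < ρ :=
      (eventually_gt_nhds hρ₀1).filter_mono nhdsWithin_le_nhds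
    have h2 : ∀ᶠ ρ : ℝ in 𝓝[<] 1, ‖a‖ < ρ :=
      (eventually_gt_nhds ha1).filter_mono nhdsWithin_le_nhds
    have h3 : ∀ᶠ ρ : ℝ in 𝓝[<] 1, ρ < 1 := eventually_mem_nhdsWithin
    have h4 : ∀ᶠ ρ : ℝ in 𝓝[<] 1, (1 + ‖a‖ * ρ₀) / 2 < ρ ^ 2 := by
      have h5 : Tendsto (fun ρ : ℝ => ρ ^ 2) (𝓝[<] 1) (𝓝 (1 ^ 2)) :=
        ((continuous_pow 2).tendsto 1).mono_left nhdsWithin_le_nhds
      exact h5.eventually (eventually_gt_nhds (by (clear * - hδ hδ0; linarith only [hδ, hδ0])))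
    filter_upwards [h1, h2, h3, h4] with ρ a1 a2 a3 a4
    exact ⟨a1, a2, a3, a4.le⟩
  have hL : Tendsto (fun ρ : ℝ => ∫ z in ball (0:ℂ) ρ₀,
      ‖deriv F z + conj a / ((ρ:ℂ) ^ 2 - conj a * z)‖ ^ 2) (𝓝[<] 1)
      (𝓝 (∫ z in ball (0:ℂ) ρ₀, ‖deriv F z + conj a / (1 - conj a * z)‖ ^ 2)) := by
    apply tendsto_integral_filter_of_dominated_convergence (fun _ => (M + ‖a‖ / δ) ^ 2)
    · filter_upwards [hev] with ρ hρ
      have hc : ContinuousOn (fun z => ‖deriv F z + conj a / ((ρ:ℂ) ^ 2 - conj a * z)‖ ^ 2)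
          (ball 0 ρ₀) := by
        apply ContinuousOn.pow
        apply ContinuousOn.norm
        apply (hdc.mono ball_subset_closedBall).add
        apply ContinuousOn.div continuousOn_const (by fun_prop)
        intro z hz h0
        have := hlow ρ hρ.2.2.2 z hz
        rw [h0, norm_zero] at this
        (clear * - hδ0 this; linarith only [hδ0, this])
      exact hc.aestronglyMeasurable measurableSet_ball
    · filter_upwards [hev] with ρ hρ
      filter_upwards [ae_restrict_mem measurableSet_ball] with z hz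
      rw [Real.norm_of_nonneg (by (clear * -; positivity))]
      gcongr
      refine (norm_add_le _ _).trans (add_le_add (hM z (ball_subset_closedBall hz)) ?_)
      rw [norm_div, RCLike.norm_conj]
      exact div_le_div_of_nonneg_left (norm_nonneg _) hδ0 (hlow ρ hρ.2.2.2 z hz)
    · exact integrableOn_const measure_ball_lt_top.ne
    · filter_upwards [ae_restrict_mem measurableSet_ball] with z hz
      have hne : (1:ℂ) - conj a * z ≠ 0 := by
        intro h0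
        have := hlow 1 (by linarith only [hδ, hδ0]) z hz
        rw [Complex.ofReal_one, one_pow, h0, norm_zero] at this
        linarith only [hδ0, this]
      have h1 : Tendsto (fun ρ : ℝ => (ρ:ℂ) ^ 2 - conj a * z) (𝓝[<] 1)
          (𝓝 (((1:ℝ):ℂ) ^ 2 - conj a * z)) := by
        have hc : Continuous fun ρ : ℝ => (ρ:ℂ) ^ 2 - conj a * z := by fun_prop
        exact (hc.tendsto 1).mono_left nhdsWithin_le_nhds
      rw [Complex.ofReal_one, one_pow] at h1
      exact (((tendsto_const_nhds (x := conj a)).div h1 hne).const_add (deriv F z)).norm.pow 2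
  have hRlim : Tendsto (fun ρ : ℝ => π * (2 * (- Real.log (1 - ‖a‖ ^ 2 / ρ ^ 2)) + 2 * (F a).re))
      (𝓝[<] 1) (𝓝 (π * (2 * (- Real.log (1 - ‖a‖ ^ 2 / 1 ^ 2)) + 2 * (F a).re))) := by
    have h1 : ContinuousAt (fun ρ : ℝ => π * (2 * (- Real.log (1 - ‖a‖ ^ 2 / ρ ^ 2)) +
        2 * (F a).re)) 1 := by
      have h2 : (1:ℝ) - ‖a‖ ^ 2 / 1 ^ 2 ≠ 0 := by
        have : ‖a‖ ^ 2 < 1 := by nlinarith only [ha1, hapos]
        rw [one_pow, div_one]
        (clear * - this; linarith only [this])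
      have h3 : ContinuousAt (fun ρ : ℝ => 1 - ‖a‖ ^ 2 / ρ ^ 2) 1 := by
        apply continuousAt_const.sub
        apply continuousAt_const.div (by fun_prop)
        norm_num
      have h4 := h3.log h2
      exact continuousAt_const.mul ((continuousAt_const.mul h4.neg).add continuousAt_const)
    exact h1.tendsto.mono_left nhdsWithin_le_nhds
  have hfin := le_of_tendsto_of_tendsto hL hRlim (by
    filter_upwards [hev] with ρ hρ
    exact energy_rho h hρ₀ hρ.1 hρ.2.2.1 (by simpa using hρ.2.1) ha0 hF hF0 hexp)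
  rw [one_pow, div_one] at hfin
  (clear * - hfin; linarith only [hfin])

end Pool.Agent.Helper39.EK

end

section

namespace Pool.Agent.Helper39.Area
end Pool.Agent.Helper39.Area
namespace Pool.Agent.Helper52.EK
end Pool.Agent.Helper52.EK

/-!
E1a: the energy on the disc, and the lower bound for `N`.
-/

set_option autoImplicit false

open Complex MeasureTheory Metric Set Filter Topology

open scoped Real ENNReal ComplexConjugate NNReal

namespace Pool.Agent.Helper39.EK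

open Pool.Agent.Helper39.Area Pool.Agent.Helper52.EK

/-- derivative of `log ((f z - f a) / ((1/z - 1/a) (1 - a z)))` -/
noncomputable def Dd (β : ℂ → ℂ) (a : ℝ) (z : ℂ) : ℂ :=
  dphi β z / (phi β z - phi β a) - (-z⁻¹ + (z - a)⁻¹ - a / (1 - a * z))

/-- the logarithm of the divided difference -/
theorem exists_log {β : ℂ → ℂ} (h : Ext β) {a : ℂ} (ha : a ∈ ball (0:ℂ) 1) :
    ∃ F : ℂ → ℂ, F 0 = 0 ∧
      (∀ ζ ∈ ball (0:ℂ) 1, HasDerivAt F (deriv (qq β a) ζ / qq β a ζ) ζ) ∧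
      ∀ ζ ∈ ball (0:ℂ) 1, Complex.exp (F ζ) = qq β a ζ := by
  have h0b : (0:ℂ) ∈ ball (0:ℂ) 1 := mem_ball_self one_pos
  have hqd := qq_diff h.diff ha
  have hQd : DifferentiableOn ℂ (fun ζ => deriv (qq β a) ζ / qq β a ζ) (ball 0 1) :=
    (hqd.deriv isOpen_ball).div hqd (fun ζ hζ => qq_ne h ha hζ)
  obtain ⟨F, hF0, hF⟩ := hQd.isExactOn_ball.with_val_at 0 0
  refine ⟨F, hF0, hF, ?_⟩
  have hderiv : ∀ ζ ∈ ball (0:ℂ) 1, HasDerivAt (fun ζ => Complex.exp (-F ζ) * qq β a ζ) 0 ζ := by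
    intro ζ hζ
    have h1 := ((hF ζ hζ).neg.cexp).mul ((hqd.differentiableAt (isOpen_ball.mem_nhds hζ)).hasDerivAt)
    have h2 := qq_ne h ha hζ
    have e : (0:ℂ) = Complex.exp (-F ζ) * -(deriv (qq β a) ζ / qq β a ζ) * qq β a ζ +
        Complex.exp (-F ζ) * deriv (qq β a) ζ := by
      field_simp
      ring
    rw [e]
    exact h1
  intro ζ hζ
  have h1 : Complex.exp (-F ζ) * qq β a ζ = Complex.exp (-F 0) * qq β a 0 := by
    apply (convex_ball (0:ℂ) 1).is_const_of_fderivWithin_eq_zero (𝕜 := ℂ)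
      (f := fun ζ => Complex.exp (-F ζ) * qq β a ζ) _ _ hζ h0b
    · intro ω hω
      exact (hderiv ω hω).differentiableAt.differentiableWithinAt
    · intro ω hω
      have h3 := (hderiv ω hω).hasFDerivAt.hasFDerivWithinAt (s := ball (0:ℂ) 1)
      rw [h3.fderivWithin (isOpen_ball.uniqueDiffWithinAt hω)]
      ext
      simp
  rw [hF0, neg_zero, Complex.exp_zero, one_mul] at h1
  have h2 : qq β a 0 = 1 := by simp [qq]
  rw [h2, Complex.exp_neg] at h1
  have h3 := Complex.exp_ne_zero (F ζ)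
  field_simp at h1
  exact h1.symm

theorem qq_self {β : ℂ → ℂ} (a : ℂ) : qq β a a = N β a := by
  rw [qq, dslope_same, N]
  ring

theorem N_ge {β : ℂ → ℂ} (h : Ext β) {z : ℂ} (hz : ‖z‖ < 1) : 1 - ‖z‖ ^ 2 ≤ ‖N β z‖ := by
  have hz1 : z ∈ ball (0:ℂ) 1 := by simpa using hz
  obtain ⟨F, hF0, hF, hexp⟩ := exists_log h hz1
  have h1 := log_bound h hz1 hF hF0 hexp
  have h2 : 0 < 1 - ‖z‖ ^ 2 := by nlinarith only [norm_nonneg z, hz]
  rw [← qq_self, ← hexp z hz1, Complex.norm_exp]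
  have h3 : -‖F z‖ ≤ (F z).re := by
    have := Complex.abs_re_le_norm (F z)
    exact (neg_le_neg this).trans (neg_abs_le _)
  calc 1 - ‖z‖ ^ 2 = Real.exp (Real.log (1 - ‖z‖ ^ 2)) := (Real.exp_log h2).symm
    _ ≤ Real.exp (F z).re := Real.exp_le_exp.mpr (by (clear * - h1 h3; linarith))

theorem E1a {β : ℂ → ℂ} (h : Ext β) {a ρ : ℝ} (ha : 0 < a) (haρ : a < ρ) (hρ : ρ < 1) :
    IntegrableOn (fun z : ℂ => ‖Dd β a z‖ ^ 2) (ball 0 ρ) ∧
    ∫ z in ball (0:ℂ) ρ, ‖Dd β a z‖ ^ 2 ≤ 2 * π * Real.log (‖N β a‖ / (1 - a ^ 2)) := by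
  have hρ0 : 0 < ρ := ha.trans haρ
  have ha1 : ((a:ℝ):ℂ) ∈ ball (0:ℂ) 1 := by
    rw [mem_ball, dist_zero_right, Complex.norm_real, Real.norm_of_nonneg ha.le]
    linarith only [haρ, hρ]
  have ha0 : ((a:ℝ):ℂ) ≠ 0 := by exact_mod_cast ha.ne'
  obtain ⟨F, hF0, hF, hexp⟩ := exists_log h ha1
  have hFd : DifferentiableOn ℂ F (ball 0 1) := fun ζ hζ =>
    (hF ζ hζ).differentiableAt.differentiableWithinAt
  set g : ℂ → ℝ := fun z => ‖deriv F z + conj (a:ℂ) / (1 - conj (a:ℂ) * z)‖ ^ 2 with hg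
  have hgc : ContinuousOn g (closedBall 0 ρ) := by
    have hdc : ContinuousOn (deriv F) (closedBall 0 ρ) :=
      (hFd.deriv isOpen_ball).continuousOn.mono (closedBall_subset_ball hρ)
    apply ContinuousOn.pow
    apply ContinuousOn.norm
    apply hdc.add
    apply ContinuousOn.div continuousOn_const (by fun_prop)
    intro z hz h0
    rw [mem_closedBall, dist_zero_right] at hz
    have h1 : conj (a:ℂ) * z = 1 := (sub_eq_zero.mp h0).symm
    have h2 : ‖conj (a:ℂ) * z‖ = 1 := by rw [h1, norm_one]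
    rw [norm_mul, RCLike.norm_conj, Complex.norm_real, Real.norm_of_nonneg ha.le] at h2
    (clear * - haρ hρ h2 ha hz; nlinarith only [ha, haρ, hρ, hz, h2])
  have hgi : IntegrableOn g (ball 0 ρ) :=
    (hgc.integrableOn_compact (isCompact_closedBall _ _)).mono_set ball_subset_closedBall
  have hae : (fun z : ℂ => ‖Dd β a z‖ ^ 2) =ᵐ[volume.restrict (ball (0:ℂ) ρ)] g := by
    have h1 : ∀ᵐ z : ℂ ∂(volume.restrict (ball (0:ℂ) ρ)), z ∈ ball (0:ℂ) ρ :=
      ae_restrict_mem measurableSet_ball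
    have h2 : ∀ᵐ z : ℂ ∂(volume.restrict (ball (0:ℂ) ρ)), z ≠ 0 := by
      apply ae_restrict_of_ae
      exact measure_eq_zero_iff_ae_notMem.mp (measure_singleton (μ := (volume : Measure ℂ)) 0)
    have h3 : ∀ᵐ z : ℂ ∂(volume.restrict (ball (0:ℂ) ρ)), z ≠ a := by
      apply ae_restrict_of_ae
      exact measure_eq_zero_iff_ae_notMem.mp (measure_singleton (μ := (volume : Measure ℂ)) (a:ℂ))
    filter_upwards [h1, h2, h3] with z hz hz0 hza
    have hz1 : z ∈ ball (0:ℂ) 1 := ball_subset_ball hρ.le hz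
    rw [hg, Dd, dphi_div h ha1 hz1 ha0 hz0 hza]
    simp only
    rw [(hF z hz1).deriv, Complex.conj_ofReal]
    congr 2
    ring
  refine ⟨hgi.congr hae.symm, ?_⟩
  rw [integral_congr_ae hae]
  have h4 := energy h hρ0 hρ ha1 ha0 hF hF0 hexp
  refine h4.trans (le_of_eq ?_)
  have h5 : ‖N β (a:ℂ)‖ = Real.exp (F a).re := by
    rw [← qq_self, ← hexp _ ha1, Complex.norm_exp]
  have h6 : (0:ℝ) < 1 - a ^ 2 := by (clear * - haρ hρ ha; nlinarith only [ha, haρ, hρ])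
  rw [h5, Real.log_div (Real.exp_pos _).ne' h6.ne', Real.log_exp, Complex.norm_real,
    Real.norm_of_nonneg ha.le]
  ring

end Pool.Agent.Helper39.EK

end

section

namespace Pool.Agent.Helper39.Area
end Pool.Agent.Helper39.Area
namespace Pool.Agent.Helper52.EK
end Pool.Agent.Helper52.EK
namespace Pool.Agent.Helper39.EK
end Pool.Agent.Helper39.EK

/-!
E1b: the energy on the strip (change of variables from the disc).
-/

set_option autoImplicit false

open Complex MeasureTheory Metric Set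

open scoped Real ComplexConjugate ENNReal

namespace Pool.Agent.Helper86.EK

open Pool.Agent.Helper39.Area Pool.Agent.Helper52.EK Pool.Agent.Helper39.EK

theorem det_cmul (c : ℂ) : |(c • (1 : ℂ →L[ℝ] ℂ)).det| = ‖c‖ ^ 2 := by
  have h : (c • (1 : ℂ →L[ℝ] ℂ)).det = ‖c‖ ^ 2 := by
    have h1 : (((c • (1 : ℂ →L[ℝ] ℂ)) : ℂ →L[ℝ] ℂ) : ℂ →ₗ[ℝ] ℂ) =
        ((c • (LinearMap.id : ℂ →ₗ[ℂ] ℂ)).restrictScalars ℝ) := by
      ext
      all_goals simp
    rw [ContinuousLinearMap.det, h1, LinearMap.det_restrictScalars]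
    simp [Algebra.norm_complex_eq, Complex.normSq_eq_norm_sq]
  rw [h, abs_of_nonneg (by (clear * -; positivity))]

theorem pt_eq (ξ η : ℝ) : pt ξ η = ⟨ξ, η⟩ := by
  rw [pt, ← Complex.mk_eq_add_mul_I]

/-- the double integral as an integral over a set of the plane -/
theorem II_eq {F : ℂ → ℝ} {x₁ x₂ : ℝ} (hx : x₁ ≤ x₂) (hF : ContinuousOn F (Rect x₁ x₂)) :
    II x₁ x₂ (fun ξ η => F (pt ξ η)) = ∫ z in Ioo x₁ x₂ ×ℂ Ioo 0 π, F z := by
  have hπ := Real.pi_pos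
  have hc : ContinuousOn (fun p : ℝ × ℝ => F (pt p.1 p.2)) (Icc x₁ x₂ ×ˢ Icc 0 π) := by
    apply hF.comp (by unfold pt; fun_prop)
    rintro ⟨ξ, η⟩ ⟨h1, h2⟩
    simp only [pt_eq]
    exact ⟨h1, h2⟩
  have hi : IntegrableOn (fun p : ℝ × ℝ => F (pt p.1 p.2)) (Ioo x₁ x₂ ×ˢ Ioo 0 π)
      ((volume : Measure ℝ).prod (volume : Measure ℝ)) :=
    (hc.integrableOn_compact (isCompact_Icc.prod isCompact_Icc)).mono_set
      (prod_mono Ioo_subset_Icc_self Ioo_subset_Icc_self)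
  rw [II, intervalIntegral.integral_of_le hx, integral_Ioc_eq_integral_Ioo]
  have h1 : ∀ ξ : ℝ, (∫ η in (0:ℝ)..π, F (pt ξ η)) = ∫ η in Ioo 0 π, F (pt ξ η) := fun ξ => by
    rw [intervalIntegral.integral_of_le hπ.le, integral_Ioc_eq_integral_Ioo]
  simp_rw [h1]
  rw [← setIntegral_prod (fun p : ℝ × ℝ => F (pt p.1 p.2)) hi]
  have h2 := (Complex.volume_preserving_equiv_real_prod.symm _).setIntegral_preimage_emb
    Complex.measurableEquivRealProd.symm.measurableEmbedding F (Ioo x₁ x₂ ×ℂ Ioo 0 π)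
  rw [← h2, ← Measure.volume_eq_prod]
  congr 1
  ext p
  rw [pt_eq]
  rfl

section

variable {a x₁ x₂ : ℝ} {ω : ℂ}

theorem norm_exp_lt (h2 : x₂ < 0) (hω : ω ∈ Rect x₁ x₂) : ‖Complex.exp ω‖ < 1 := by
  rw [Complex.norm_exp, Real.exp_lt_one_iff]
  exact lt_of_le_of_lt hω.1.2 h2

theorem tau_pos (ha : 0 < a) (ha1 : a < 1) : 0 < tau a := by
  unfold tau
  have : 0 < 1 - a := by (clear * - ha1; linarith only [ha1])
  (clear * - ha1 ha; positivity)

theorem tau_lt_exp (ha : 0 < a) (ha1 : a < 1) (h1 : Real.log (tau a) < x₁)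
    (hω : ω ∈ Rect x₁ x₂) : tau a < ‖Complex.exp ω‖ := by
  rw [Complex.norm_exp, ← Real.log_lt_iff_lt_exp (tau_pos ha ha1)]
  exact lt_of_lt_of_le h1 hω.1.1

theorem exp_im_nonneg (hω : ω ∈ Rect x₁ x₂) : 0 ≤ (Complex.exp ω).im := by
  rw [Complex.exp_im]
  exact mul_nonneg (Real.exp_pos _).le (Real.sin_nonneg_of_nonneg_of_le_pi hω.2.1 hω.2.2)

theorem exp_ne_I (h2 : x₂ < 0) (hω : ω ∈ Rect x₁ x₂) : I - Complex.exp ω ≠ 0 := by
  intro h
  have h3 := norm_exp_lt h2 hω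
  rw [← sub_eq_zero.mp h, norm_I] at h3
  exact lt_irrefl _ h3

theorem exp_ne_neg_I (hω : ω ∈ Rect x₁ x₂) : I + Complex.exp ω ≠ 0 := by
  intro h
  have h3 := exp_im_nonneg hω
  have h4 := congrArg Complex.im h
  simp only [Complex.add_im, Complex.I_im, Complex.zero_im] at h4
  (clear * - h3 h4; linarith only [h3, h4])

theorem zf_ne_zero (h2 : x₂ < 0) (hω : ω ∈ Rect x₁ x₂) : zf ω ≠ 0 :=
  div_ne_zero (exp_ne_I h2 hω) (exp_ne_neg_I hω)

theorem norm_zf_le (hω : ω ∈ Rect x₁ x₂) : ‖zf ω‖ ≤ 1 := by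
  have h1 := exp_im_nonneg hω
  rw [zf, norm_div, div_le_one (norm_pos_iff.mpr (exp_ne_neg_I hω))]
  rw [← Real.sqrt_sq (norm_nonneg (I - Complex.exp ω)),
    ← Real.sqrt_sq (norm_nonneg (I + Complex.exp ω))]
  apply Real.sqrt_le_sqrt
  rw [← Complex.normSq_eq_norm_sq, ← Complex.normSq_eq_norm_sq, Complex.normSq_apply,
    Complex.normSq_apply]
  simp only [Complex.sub_re, Complex.add_re, Complex.sub_im, Complex.add_im, Complex.I_re,
    Complex.I_im]
  (clear * - h1; linarith only [h1])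

theorem norm_zf_lt (h : 0 < (Complex.exp ω).im) : ‖zf ω‖ < 1 := by
  have h0 : I + Complex.exp ω ≠ 0 := by
    intro h3
    have h4 := congrArg Complex.im h3
    simp only [Complex.add_im, Complex.I_im, Complex.zero_im] at h4
    linarith
  rw [zf, norm_div, div_lt_one (norm_pos_iff.mpr h0)]
  rw [← Real.sqrt_sq (norm_nonneg (I - Complex.exp ω)),
    ← Real.sqrt_sq (norm_nonneg (I + Complex.exp ω))]
  apply Real.sqrt_lt_sqrt (by positivity)
  rw [← Complex.normSq_eq_norm_sq, ← Complex.normSq_eq_norm_sq, Complex.normSq_apply,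
    Complex.normSq_apply]
  simp only [Complex.sub_re, Complex.add_re, Complex.sub_im, Complex.add_im, Complex.I_re,
    Complex.I_im]
  linarith only [h]

theorem sq_add_tau_ne (ha : 0 < a) (ha1 : a < 1) (h1 : Real.log (tau a) < x₁)
    (hω : ω ∈ Rect x₁ x₂) : Complex.exp ω ^ 2 + (tau a : ℂ) ^ 2 ≠ 0 := by
  intro h
  have h3 := tau_lt_exp ha ha1 h1 hω
  have h4 := tau_pos ha ha1
  have h5 : ‖Complex.exp ω‖ ^ 2 = tau a ^ 2 := by
    rw [← norm_pow, eq_neg_of_add_eq_zero_left h, norm_neg, norm_pow, Complex.norm_real,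
      Real.norm_of_nonneg h4.le]
  nlinarith only [h3, h4, h5]

theorem sq_add_one_ne (h2 : x₂ < 0) (hω : ω ∈ Rect x₁ x₂) : Complex.exp ω ^ 2 + 1 ≠ 0 := by
  intro h
  have h3 := norm_exp_lt h2 hω
  have h5 : ‖Complex.exp ω‖ ^ 2 = 1 := by
    rw [← norm_pow, eq_neg_of_add_eq_zero_left h, norm_neg, norm_one]
  nlinarith only [norm_nonneg (Complex.exp ω), h3, h5]

theorem zf_ne_a (ha : 0 < a) (ha1 : a < 1) (h1 : Real.log (tau a) < x₁)
    (hω : ω ∈ Rect x₁ x₂) : zf ω ≠ a := by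
  intro h
  apply sq_add_tau_ne ha ha1 h1 hω
  have h0 := exp_ne_neg_I hω
  rw [zf, div_eq_iff h0] at h
  have ha2 : (1 + (a:ℂ)) ≠ 0 := by
    have : ((1 + a : ℝ) : ℂ) ≠ 0 := by exact_mod_cast (by (clear * - ha; positivity))
    simpa using this
  have h3 : Complex.exp ω = I * (tau a : ℂ) := by
    rw [tau]
    push_cast
    field_simp
    linear_combination -h
  rw [h3, mul_pow, I_sq]
  ring

theorem hasDerivAt_zf (hω : I + Complex.exp ω ≠ 0) : HasDerivAt zf (zd ω) ω := by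
  have h1 : HasDerivAt (fun w : ℂ => I - Complex.exp w) (-Complex.exp ω) ω :=
    (Complex.hasDerivAt_exp ω).const_sub I
  have h2 : HasDerivAt (fun w : ℂ => I + Complex.exp w) (Complex.exp ω) ω :=
    (Complex.hasDerivAt_exp ω).const_add I
  have h3 := h1.div h2 hω
  have h4 : zd ω = (-Complex.exp ω * (I + Complex.exp ω) - (I - Complex.exp ω) * Complex.exp ω) /
      (I + Complex.exp ω) ^ 2 := by
    rw [zd, add_comm (Complex.exp ω) I]
    congr 1
    ring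
  rw [h4]
  exact h3

/-- the chain rule identity -/
theorem zd_Dd {β : ℂ → ℂ} (ha : 0 < a) (ha1 : a < 1) (h1 : Real.log (tau a) < x₁)
    (h2 : x₂ < 0) (hω : ω ∈ Rect x₁ x₂) :
    zd ω * Dd β a (zf ω) = 2 * Xf β a ω - 2 * kap a ω := by
  have hX : 2 * Xf β a ω = zd ω * (dphi β (zf ω) / (phi β (zf ω) - phi β (a:ℂ))) := by
    rw [Xf]
    by_cases h : phi β (zf ω) - phi β (a:ℂ) = 0
    · rw [h]; simp
    · field_simp
  have hk : zd ω * (-(zf ω)⁻¹ + (zf ω - a)⁻¹ - a / (1 - a * zf ω)) = 2 * kap a ω := by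
    have e1 := exp_ne_I h2 hω
    have e2 := exp_ne_neg_I hω
    have e3 := sq_add_tau_ne ha ha1 h1 hω
    have e4 := sq_add_one_ne h2 hω
    have e5 : (1 + (a:ℂ)) ≠ 0 := by
      have : ((1 + a : ℝ) : ℂ) ≠ 0 := by exact_mod_cast (by (clear * - ha; positivity))
      simpa using this
    set E := Complex.exp ω with hE
    have ht : (tau a : ℂ) = (1 - a) / (1 + a) := by rw [tau]; push_cast; ring
    set t : ℂ := (tau a : ℂ) with htt
    have e6 : E ^ 2 + t ^ 2 = (E - I * t) * (E + I * t) := by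
      linear_combination (t ^ 2) * I_sq
    have e7 : E - I * t ≠ 0 := fun h => e3 (by rw [e6, h, zero_mul])
    have e8 : E + I * t ≠ 0 := fun h => e3 (by rw [e6, h, mul_zero])
    have f1 : zf ω - a = (1 + a) * (I * t - E) / (I + E) := by
      rw [zf, ← hE, ht]
      field_simp
      ring
    have f2 : 1 - a * zf ω = (1 + a) * (I * t + E) / (I + E) := by
      rw [zf, ← hE, ht]
      field_simp
      ring
    have e7' : I * t - E ≠ 0 := fun h => e7 (by linear_combination -h)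
    have e8' : I * t + E ≠ 0 := fun h => e8 (by linear_combination h)
    rw [f1, f2, zd, kap, zf, ← hE, e6]
    have e9 : E ^ 2 + 1 = -(I - E) * (I + E) := by linear_combination I_sq
    rw [e9]
    have e10 : E + I = I + E := add_comm _ _
    rw [e10]
    have e11 : (1 + a : ℂ) * t = 1 - a := by rw [ht]; (clear * - e5; field_simp)
    have e12 : (1 + t) ≠ 0 := by
      intro h
      have : (1 + a : ℂ) * (1 + t) = 2 := by linear_combination e11
      rw [h, mul_zero] at this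
      norm_num at this
    have e13 : (a:ℂ) = (1 - t) / (1 + t) := by
      rw [eq_div_iff e12]
      linear_combination e11
    have e14 : (1 + a : ℂ) = 2 / (1 + t) := by
      rw [e13]
      field_simp
      ring
    rw [e14, e13]
    field_simp
    ring_nf
    simp only [I_sq, I_pow_four]
    ring
  rw [Dd, mul_sub, hX, hk]

end

theorem lint_ball {β : ℂ → ℂ} (h : Ext β) {a : ℝ} (ha : 0 < a) (ha1 : a < 1) :
    ∫⁻ z in ball (0:ℂ) 1, ENNReal.ofReal (‖Dd β a z‖ ^ 2) ≤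
      ENNReal.ofReal (2 * π * Real.log (‖N β a‖ / (1 - a ^ 2))) := by
  set r : ℕ → ℝ := fun n => 1 - (1 - a) / (n + 2) with hrdef
  have h1a : 0 < 1 - a := by (clear * - ha1; linarith only [ha1])
  have hr : ∀ n, a < r n ∧ r n < 1 := by
    intro n
    have hn : (0:ℝ) ≤ n := Nat.cast_nonneg n
    constructor
    · have : (1 - a) / ((n:ℝ) + 2) < 1 - a := by
        rw [div_lt_iff₀ (by (clear * -; positivity))]
        (clear * - h1a; nlinarith only [h1a])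
      simp only [hrdef]
      linarith only [this]
    · have : 0 < (1 - a) / ((n:ℝ) + 2) := by (clear * - ha1; positivity)
      simp only [hrdef]
      linarith
  have hmono : Monotone r := by
    intro m n hmn
    have hmn' : (m:ℝ) ≤ n := by exact_mod_cast hmn
    have hm : (0:ℝ) ≤ m := Nat.cast_nonneg m
    simp only [hrdef]
    have : (1 - a) / ((n:ℝ) + 2) ≤ (1 - a) / ((m:ℝ) + 2) := by gcongr
    linarith only [this]
  have hU : ball (0:ℂ) 1 = ⋃ n, ball 0 (r n) := by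
    ext z
    rw [mem_iUnion]
    constructor
    · intro hz
      rw [mem_ball, dist_zero_right] at hz
      obtain ⟨n, hn⟩ := exists_nat_gt ((1 - a) / (1 - ‖z‖))
      have hz1 : 0 < 1 - ‖z‖ := by (clear * - hz; linarith only [hz])
      refine ⟨n, ?_⟩
      rw [mem_ball, dist_zero_right]
      rw [div_lt_iff₀ hz1] at hn
      have hn0 : (0:ℝ) ≤ n := Nat.cast_nonneg n
      have : (1 - a) / ((n:ℝ) + 2) < 1 - ‖z‖ := by
        rw [div_lt_iff₀ (by (clear * -; positivity))]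
        (clear * - hz hn; linarith only [hz, hn])
      simp only [hrdef]
      (clear * - this; linarith only [this])
    · rintro ⟨n, hn⟩
      exact ball_subset_ball (hr n).2.le hn
  rw [hU, setLIntegral_iUnion_of_directed _
    (Monotone.directed_le (fun m n hmn => ball_subset_ball (hmono hmn)))]
  refine iSup_le fun n => ?_
  obtain ⟨hi, hle⟩ := E1a h ha (hr n).1 (hr n).2
  rw [← ofReal_integral_eq_lintegral_ofReal hi (Filter.Eventually.of_forall fun _ => by (clear * -; positivity))]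
  exact ENNReal.ofReal_le_ofReal hle

/-- continuity of the integrand on the closed rectangle -/
theorem cont_F {β : ℂ → ℂ} {R : ℝ} (h : ExtR β R) {a : ℝ} (ha : 0 < a) (ha1 : a < 1) {x₁ x₂ : ℝ}
    (h1 : Real.log (tau a) < x₁) (h2 : x₂ < 0) :
    ContinuousOn (fun ω => ‖2 * Xf β a ω - 2 * kap a ω‖ ^ 2) (Rect x₁ x₂) := by
  have hR := h.one_lt
  have hzc : ContinuousOn zf (Rect x₁ x₂) := fun ω hω =>
    (hasDerivAt_zf (exp_ne_neg_I hω)).continuousAt.continuousWithinAt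
  have hmaps : MapsTo zf (Rect x₁ x₂) (ball 0 R) := by
    intro ω hω
    rw [mem_ball, dist_zero_right]
    exact lt_of_le_of_lt (norm_zf_le hω) hR
  have hβ : ContinuousOn (fun ω => β (zf ω)) (Rect x₁ x₂) := h.diff.continuousOn.comp hzc hmaps
  have hdβ : ContinuousOn (fun ω => deriv β (zf ω)) (Rect x₁ x₂) :=
    (h.diff.deriv isOpen_ball).continuousOn.comp hzc hmaps
  have hX : ContinuousOn (Xf β a) (Rect x₁ x₂) := by
    have c1 : ContinuousOn zd (Rect x₁ x₂) := by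
      apply ContinuousOn.div (by fun_prop) (by fun_prop)
      intro ω hω
      apply pow_ne_zero
      rw [add_comm]
      exact exp_ne_neg_I hω
    have c2 : ContinuousOn (fun ω => dphi β (zf ω)) (Rect x₁ x₂) := by
      apply ContinuousOn.add _ hdβ
      apply ContinuousOn.neg
      apply ContinuousOn.inv₀ (hzc.pow 2)
      intro ω hω
      exact pow_ne_zero _ (zf_ne_zero h2 hω)
    have c3 : ContinuousOn (fun ω => phi β (zf ω) - phi β (a:ℂ)) (Rect x₁ x₂) := by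
      apply ContinuousOn.sub _ continuousOn_const
      apply ContinuousOn.add _ hβ
      exact hzc.inv₀ (fun ω hω => zf_ne_zero h2 hω)
    apply (c1.mul c2).div (continuousOn_const.mul c3)
    intro ω hω h3
    have h4 : phi β (zf ω) - phi β (a:ℂ) = 0 := by simpa using h3
    have haR : ((a:ℝ):ℂ) ∈ ball (0:ℂ) R := by
      rw [mem_ball, dist_zero_right, Complex.norm_real, Real.norm_of_nonneg ha.le]
      linarith only [ha1, hR]
    exact zf_ne_a ha ha1 h1 hω (h.inj _ _ (hmaps hω) haR (zf_ne_zero h2 hω)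
      (by exact_mod_cast ha.ne') (sub_eq_zero.mp h4))
  have hk : ContinuousOn (kap a) (Rect x₁ x₂) := by
    apply ContinuousOn.div (by fun_prop) (by fun_prop)
    intro ω hω
    exact mul_ne_zero (sq_add_tau_ne ha ha1 h1 hω) (sq_add_one_ne h2 hω)
  exact (((continuousOn_const.mul hX).sub (continuousOn_const.mul hk)).norm).pow 2

/-- E1b: energy on the strip -/
theorem E1b {β : ℂ → ℂ} {R : ℝ} (h : ExtR β R) {a : ℝ} (ha : 0 < a) (ha1 : a < 1) {x₁ x₂ : ℝ}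
    (h1 : Real.log (tau a) < x₁) (h12 : x₁ ≤ x₂) (h2 : x₂ < 0) :
    II x₁ x₂ (fun ξ η => ‖2 * Xf β a (pt ξ η) - 2 * kap a (pt ξ η)‖ ^ 2) ≤
      2 * π * Real.log (‖N β a‖ / (1 - a ^ 2)) := by
  have hF := cont_F h ha ha1 h1 h2
  have hE := h.toExt
  have hB : 0 ≤ 2 * π * Real.log (‖N β a‖ / (1 - a ^ 2)) := by
    have haa : a < (a + 1) / 2 := by (clear * - ha1; linarith)
    have haa1 : (a + 1) / 2 < 1 := by (clear * - ha1; linarith)
    exact (integral_nonneg fun z => by (clear * -; positivity)).trans (E1a hE ha haa haa1).2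
  rw [II_eq h12 hF]
  have hSR : Ioo x₁ x₂ ×ℂ Ioo 0 π ⊆ Rect x₁ x₂ := fun ω hω =>
    ⟨Ioo_subset_Icc_self hω.1, Ioo_subset_Icc_self hω.2⟩
  have hSm : MeasurableSet (Ioo x₁ x₂ ×ℂ Ioo 0 π) :=
    (isOpen_Ioo.reProdIm isOpen_Ioo).measurableSet
  rw [integral_eq_lintegral_of_nonneg_ae (Filter.Eventually.of_forall fun _ => by (clear * -; positivity))
    ((hF.mono hSR).aestronglyMeasurable hSm)]
  apply ENNReal.toReal_le_of_le_ofReal hB
  have hd : ∀ ω ∈ Ioo x₁ x₂ ×ℂ Ioo 0 π, HasFDerivWithinAt zf (zd ω • (1 : ℂ →L[ℝ] ℂ))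
      (Ioo x₁ x₂ ×ℂ Ioo 0 π) ω := fun ω hω =>
    (hasDerivAt_zf (exp_ne_neg_I (hSR hω))).complexToReal_fderiv.hasFDerivWithinAt
  have hinj : InjOn zf (Ioo x₁ x₂ ×ℂ Ioo 0 π) := by
    intro ω hω ω' hω' he
    have e1 := exp_ne_neg_I (hSR hω)
    have e2 := exp_ne_neg_I (hSR hω')
    rw [zf, zf, div_eq_div_iff e1 e2] at he
    have e3 : Complex.exp ω = Complex.exp ω' := by
      have : 2 * I * (Complex.exp ω - Complex.exp ω') = 0 := by linear_combination -he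
      have h4 : (2:ℂ) * I ≠ 0 := by simp
      exact sub_eq_zero.mp ((mul_eq_zero.mp this).resolve_left h4)
    obtain ⟨n, hn⟩ := Complex.exp_eq_exp_iff_exists_int.mp e3
    have h5 := congrArg Complex.im hn
    simp only [Complex.add_im, Complex.mul_im, Complex.intCast_re, Complex.intCast_im,
      Complex.mul_re, Complex.re_ofNat, Complex.im_ofNat, Complex.ofReal_re, Complex.ofReal_im,
      Complex.I_re, Complex.I_im, mul_zero, mul_one, sub_zero, zero_mul, add_zero] at h5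
    have hπ := Real.pi_pos
    have h6 := hω.2
    have h7 := hω'.2
    have h6a : 0 < ω.im := h6.1
    have h6b : ω.im < π := h6.2
    have h7a : 0 < ω'.im := h7.1
    have h7b : ω'.im < π := h7.2
    have h8 : n = 0 := by
      have h9 : (n:ℝ) < 1 := by
        by_contra h10
        push Not at h10
        (clear * - h5 h6b h7a h7b h10; nlinarith only [h5, h6b, h7a, h7b, h10])
      have h11 : (-1:ℝ) < n := by
        by_contra h10
        push Not at h10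
        nlinarith only [h5, h6a, h7a, h7b, h10]
      have h9' : n < 1 := by exact_mod_cast h9
      have h11' : -1 < n := by exact_mod_cast h11
      omega
    rw [hn, h8]
    simp
  have himg : zf '' (Ioo x₁ x₂ ×ℂ Ioo 0 π) ⊆ ball 0 1 := by
    rintro _ ⟨ω, hω, rfl⟩
    rw [mem_ball, dist_zero_right]
    apply norm_zf_lt
    rw [Complex.exp_im]
    exact mul_pos (Real.exp_pos _) (Real.sin_pos_of_pos_of_lt_pi hω.2.1 hω.2.2)
  calc ∫⁻ ω in Ioo x₁ x₂ ×ℂ Ioo 0 π, ENNReal.ofReal (‖2 * Xf β a ω - 2 * kap a ω‖ ^ 2)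
      = ∫⁻ ω in Ioo x₁ x₂ ×ℂ Ioo 0 π, ENNReal.ofReal |(zd ω • (1 : ℂ →L[ℝ] ℂ)).det| *
          ENNReal.ofReal (‖Dd β a (zf ω)‖ ^ 2) := by
        apply setLIntegral_congr_fun hSm
        intro ω hω
        simp only
        rw [det_cmul, ← ENNReal.ofReal_mul (by (clear * -; positivity)), ← mul_pow, ← norm_mul,
          zd_Dd ha ha1 h1 h2 (hSR hω)]
    _ = ∫⁻ z in zf '' (Ioo x₁ x₂ ×ℂ Ioo 0 π), ENNReal.ofReal (‖Dd β a z‖ ^ 2) :=
        (lintegral_image_eq_lintegral_abs_det_fderiv_mul volume hSm hd hinj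
          (fun z => ENNReal.ofReal (‖Dd β a z‖ ^ 2))).symm
    _ ≤ ∫⁻ z in ball (0:ℂ) 1, ENNReal.ofReal (‖Dd β a z‖ ^ 2) := lintegral_mono_set himg
    _ ≤ _ := lint_ball hE ha ha1

end Pool.Agent.Helper86.EK

end
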