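import Pool.Agent.Helper60.BE.T09
import Pool.Agent.Helper60.BE.T03
import Pool.Agent.Helper60.BE.T08

set_option linter.all false

section

namespace Pool.Agent.Helper39.Area
end Pool.Agent.Helper39.Area
namespace Pool.Agent.Helper39.EK
end Pool.Agent.Helper39.EK
namespace Pool.Agent.Helper52.EK
end Pool.Agent.Helper52.EK
namespace Pool.Agent.Helper86.EK
end Pool.Agent.Helper86.EK

/-!
EK3 (a), part 1: the Bloch bound from the energy, and the function `log ((f - f a)/..)` in the strip.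
-/

set_option autoImplicit false

open Complex MeasureTheory Metric Set Filter Topology

open scoped Real ENNReal ComplexConjugate NNReal

namespace Pool.Agent.Helper79.EK3

open Pool.Agent.Helper39.Area Pool.Agent.Helper39.EK Pool.Agent.Helper52.EK Pool.Agent.Helper86.EK

/-- polar coordinates for a continuous function on a disc around the origin -/
theorem polar_ball {f : ℂ → ℝ} {R ρ : ℝ} (hρR : ρ < R) (hfc : ContinuousOn f (ball 0 R)) :
    ∫ z in ball (0:ℂ) ρ, f z =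
      ∫ s in Ioo 0 ρ, ∫ θ in Ioo (-π) π, s * f ((s:ℂ) * Complex.exp (θ * I)) := by
  rw [← integral_indicator measurableSet_ball, ← Complex.integral_comp_polarCoord_symm]
  have h2 : ∫ p in polarCoord.target, p.1 • (ball (0:ℂ) ρ).indicator f
      (Complex.polarCoord.symm p) = ∫ p in Ioo 0 ρ ×ˢ Ioo (-π) π,
        p.1 * f ((p.1:ℂ) * Complex.exp (p.2 * I)) := by
    have h3 : ∀ p ∈ polarCoord.target, p.1 • (ball (0:ℂ) ρ).indicator f
        (Complex.polarCoord.symm p) = (Ioo 0 ρ ×ˢ Ioo (-π) π).indicator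
          (fun p => p.1 * f ((p.1:ℂ) * Complex.exp (p.2 * I))) p := by
      rintro ⟨r, θ⟩ ⟨hr, hθ⟩
      simp only [mem_Ioi] at hr hθ
      have h4 : Complex.polarCoord.symm (r, θ) = (r:ℂ) * Complex.exp (θ * I) := by
        rw [Complex.polarCoord_symm_apply, Complex.exp_mul_I, Complex.ofReal_cos,
          Complex.ofReal_sin]
      have h5 : ‖Complex.polarCoord.symm (r, θ)‖ = r := by
        rw [h4, norm_mul, Complex.norm_exp_ofReal_mul_I, mul_one, Complex.norm_real,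
          Real.norm_of_nonneg hr.le]
      by_cases hrρ : r < ρ
      · rw [indicator_of_mem (by rw [mem_ball, dist_zero_right, h5]; exact hrρ),
          indicator_of_mem (show (r, θ) ∈ Ioo 0 ρ ×ˢ Ioo (-π) π from ⟨⟨hr, hrρ⟩, hθ⟩), h4,
          smul_eq_mul]
      · rw [indicator_of_notMem (by rw [mem_ball, dist_zero_right, h5]; exact hrρ),
          indicator_of_notMem (fun h : (r, θ) ∈ Ioo 0 ρ ×ˢ Ioo (-π) π => hrρ h.1.2), smul_zero]
    rw [setIntegral_congr_fun polarCoord.open_target.measurableSet h3,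
      setIntegral_indicator (measurableSet_Ioo.prod measurableSet_Ioo)]
    congr 2
    apply inter_eq_right.2
    rintro ⟨r, θ⟩ ⟨hr, hθ⟩
    exact ⟨hr.1, hθ⟩
  rw [h2, Measure.volume_eq_prod, setIntegral_prod]
  have h6 : ContinuousOn (fun p : ℝ × ℝ => p.1 * f ((p.1:ℂ) * Complex.exp (p.2 * I)))
      (Icc 0 ρ ×ˢ Icc (-π) π) := by
    apply continuous_fst.continuousOn.mul
    apply hfc.comp (by fun_prop)
    rintro ⟨r, θ⟩ ⟨hr, hθ⟩
    simp only [mem_ball, dist_zero_right, norm_mul, Complex.norm_exp_ofReal_mul_I, mul_one,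
      Complex.norm_real]
    rw [Real.norm_of_nonneg hr.1]
    exact hr.2.trans_lt hρR
  have h7 := h6.integrableOn_compact (μ := (volume : Measure (ℝ × ℝ)))
    (isCompact_Icc.prod isCompact_Icc)
  rw [Measure.volume_eq_prod] at h7
  exact h7.mono_set (prod_mono Ioo_subset_Icc_self Ioo_subset_Icc_self)

/-- area mean value inequality at the origin -/
theorem mean_zero {E : ℂ → ℂ} {R r : ℝ} (hE : DifferentiableOn ℂ E (ball 0 R)) (hr : 0 < r)
    (hrR : r < R) : π * r ^ 2 * ‖deriv E 0‖ ^ 2 ≤ ∫ z in ball (0:ℂ) r, ‖deriv E z‖ ^ 2 := by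
  have hd : DifferentiableOn ℂ (deriv E) (ball 0 R) := hE.deriv isOpen_ball
  have hfc : ContinuousOn (fun z => ‖deriv E z‖ ^ 2) (ball 0 R) := (hd.continuousOn.norm).pow 2
  have hπ := Real.pi_pos
  rw [polar_ball hrR hfc]
  have h1 : ∀ s ∈ Ioo 0 r, 2 * π * s * ‖deriv E 0‖ ^ 2 ≤
      ∫ θ in Ioo (-π) π, s * ‖deriv E ((s:ℂ) * Complex.exp (θ * I))‖ ^ 2 := by
    intro s hs
    have h2 := parseval_deriv hE hs.1.le (hs.2.trans hrR)
    have h3 : ‖deriv E 0‖ ^ 2 ≤ (1 / (2 * π)) * ∫ θ in (-π)..π,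
        ‖deriv E ((s:ℂ) * Complex.exp (θ * I))‖ ^ 2 := by
      have h4 := h2.summable.sum_le_tsum (Finset.range 1) (fun n _ => by
        have := hs.1
        (clear * - this; positivity))
      rw [h2.tsum_eq, Finset.sum_range_one] at h4
      have h5 : ‖((0:ℕ):ℂ) + 1‖ = 1 := by simp
      simpa using h4
    have h6 : (∫ θ in Ioo (-π) π, s * ‖deriv E ((s:ℂ) * Complex.exp (θ * I))‖ ^ 2) =
        s * ∫ θ in (-π)..π, ‖deriv E ((s:ℂ) * Complex.exp (θ * I))‖ ^ 2 := by
      rw [integral_const_mul, intervalIntegral.integral_of_le (by (clear * - hπ; linarith)),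
        integral_Ioc_eq_integral_Ioo]
    rw [h6]
    have h7 : (∫ θ in (-π)..π, ‖deriv E ((s:ℂ) * Complex.exp (θ * I))‖ ^ 2) =
        2 * π * ((1 / (2 * π)) * ∫ θ in (-π)..π,
        ‖deriv E ((s:ℂ) * Complex.exp (θ * I))‖ ^ 2) := by
      rw [← mul_assoc, mul_one_div_cancel (by positivity), one_mul]
    rw [h7]
    have h8 : 0 ≤ s * (2 * π) := by have := hs.1; positivity
    (clear * - h3 h8; nlinarith only [h3, h8])
  have h9 : ∫ s in Ioo 0 r, 2 * π * s * ‖deriv E 0‖ ^ 2 = π * r ^ 2 * ‖deriv E 0‖ ^ 2 := by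
    rw [← integral_Ioc_eq_integral_Ioo, ← intervalIntegral.integral_of_le hr.le,
      intervalIntegral.integral_mul_const, intervalIntegral.integral_const_mul, integral_id]
    ring
  rw [← h9]
  apply setIntegral_mono_on _ _ measurableSet_Ioo h1
  · exact (by fun_prop : Continuous fun s : ℝ => 2 * π * s * ‖deriv E 0‖ ^ 2).continuousOn.integrableOn_compact isCompact_Icc |>.mono_set Ioo_subset_Icc_self
  · have hc2 : ContinuousOn (fun p : ℝ × ℝ => p.1 * ‖deriv E ((p.1:ℂ) * Complex.exp (p.2 * I))‖ ^ 2)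
        (Icc 0 r ×ˢ Icc (-π) π) := by
      apply continuous_fst.continuousOn.mul
      apply hfc.comp (by fun_prop)
      rintro ⟨s, θ⟩ ⟨hs, hθ⟩
      simp only [mem_ball, dist_zero_right, norm_mul, Complex.norm_exp_ofReal_mul_I, mul_one,
        Complex.norm_real]
      rw [Real.norm_of_nonneg hs.1]
      exact hs.2.trans_lt hrR
    have h7 := hc2.integrableOn_compact (μ := (volume : Measure (ℝ × ℝ)))
      (isCompact_Icc.prod isCompact_Icc)
    have h10 : IntegrableOn (fun p : ℝ × ℝ => p.1 * ‖deriv E ((p.1:ℂ) * Complex.exp (p.2 * I))‖ ^ 2)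
        (Ioo 0 r ×ˢ Ioo (-π) π) ((volume : Measure ℝ).prod volume) := by
      rw [Measure.volume_eq_prod] at h7
      exact h7.mono_set (prod_mono Ioo_subset_Icc_self Ioo_subset_Icc_self)
    rw [IntegrableOn, ← Measure.prod_restrict] at h10
    exact h10.integral_prod_left

/-- Bloch bound: the derivative of a function of finite energy -/
theorem bloch {E : ℂ → ℂ} {J : ℝ} (hE : DifferentiableOn ℂ E (ball 0 1))
    (hJ : ∀ ρ : ℝ, 0 < ρ → ρ < 1 → ∫ z in ball (0:ℂ) ρ, ‖deriv E z‖ ^ 2 ≤ 2 * π * J)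
    {z : ℂ} (hz : ‖z‖ < 1) : ‖deriv E z‖ * (1 - ‖z‖) ≤ Real.sqrt (2 * J) := by
  have hd : DifferentiableOn ℂ (deriv E) (ball 0 1) := hE.deriv isOpen_ball
  have hπ := Real.pi_pos
  have key : ∀ r : ℝ, 0 < r → r < 1 - ‖z‖ → r ^ 2 * ‖deriv E z‖ ^ 2 ≤ 2 * J := by
    intro r hr hr1
    set E₁ : ℂ → ℂ := fun w => E (z + w) with hE₁
    have hsub : ∀ w ∈ ball (0:ℂ) (1 - ‖z‖), z + w ∈ ball (0:ℂ) 1 := by
      intro w hw
      rw [mem_ball, dist_zero_right] at hw ⊢
      have := norm_add_le z w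
      (clear * - hw this; linarith only [hw, this])
    have hd1 : ∀ w ∈ ball (0:ℂ) (1 - ‖z‖), HasDerivAt E₁ (deriv E (z + w)) w := by
      intro w hw
      have h1 := (hE.differentiableAt (isOpen_ball.mem_nhds (hsub w hw))).hasDerivAt
      have h2 : HasDerivAt (fun w : ℂ => z + w) 1 w := (hasDerivAt_id w).const_add z
      have h3 := HasDerivAt.comp w h1 h2
      rw [mul_one] at h3
      exact h3
    have hE1 : DifferentiableOn ℂ E₁ (ball 0 (1 - ‖z‖)) := fun w hw =>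
      (hd1 w hw).differentiableAt.differentiableWithinAt
    have h3 := mean_zero hE1 hr hr1
    have h0 : (0:ℂ) ∈ ball (0:ℂ) (1 - ‖z‖) := mem_ball_self (by linarith)
    rw [(hd1 0 h0).deriv, add_zero] at h3
    have h4 : ∫ w in ball (0:ℂ) r, ‖deriv E₁ w‖ ^ 2 = ∫ w in ball (0:ℂ) r, ‖deriv E (z + w)‖ ^ 2 := by
      apply setIntegral_congr_fun measurableSet_ball
      intro w hw
      simp only
      rw [(hd1 w (ball_subset_ball hr1.le hw)).deriv]
    have h5 : ∫ w in ball (0:ℂ) r, ‖deriv E (z + w)‖ ^ 2 = ∫ w in ball z r, ‖deriv E w‖ ^ 2 := by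
      rw [← integral_indicator measurableSet_ball, ← integral_indicator measurableSet_ball,
        ← integral_add_left_eq_self (μ := (volume : Measure ℂ))
          ((ball z r).indicator fun w => ‖deriv E w‖ ^ 2) z]
      congr 1
      funext w
      by_cases hw : w ∈ ball (0:ℂ) r
      · rw [indicator_of_mem hw, indicator_of_mem]
        rw [mem_ball, dist_eq_norm, add_sub_cancel_left]
        rwa [mem_ball, dist_zero_right] at hw
      · rw [indicator_of_notMem hw, indicator_of_notMem]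
        rw [mem_ball, dist_eq_norm, add_sub_cancel_left]
        rwa [mem_ball, dist_zero_right] at hw
    have hρ : ‖z‖ + r < 1 := by linarith only [hr1]
    have hρ0 : 0 < ‖z‖ + r := by have := norm_nonneg z; linarith
    have h6 : ∫ w in ball z r, ‖deriv E w‖ ^ 2 ≤ ∫ w in ball (0:ℂ) (‖z‖ + r), ‖deriv E w‖ ^ 2 := by
      apply setIntegral_mono_set
      · have hc : ContinuousOn (fun w => ‖deriv E w‖ ^ 2) (closedBall 0 (‖z‖ + r)) :=
          (hd.continuousOn.norm.pow 2).mono (closedBall_subset_ball hρ)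
        exact (hc.integrableOn_compact (isCompact_closedBall _ _)).mono_set ball_subset_closedBall
      · exact Eventually.of_forall fun w => by (clear * -; positivity)
      · apply LE.le.eventuallyLE
        intro w hw
        rw [mem_ball, dist_zero_right]
        rw [mem_ball, dist_eq_norm] at hw
        have := norm_add_le z (w - z)
        rw [add_sub_cancel] at this
        linarith
    have h7 := hJ _ hρ0 hρ
    rw [h4, h5] at h3
    have h8 : π * (r ^ 2 * ‖deriv E z‖ ^ 2) ≤ π * (2 * J) := by linarith only [h3, h6, h7]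
    exact le_of_mul_le_mul_left h8 hπ
  have hlim : (1 - ‖z‖) ^ 2 * ‖deriv E z‖ ^ 2 ≤ 2 * J := by
    have h1 : Tendsto (fun r : ℝ => r ^ 2 * ‖deriv E z‖ ^ 2) (𝓝[<] (1 - ‖z‖))
        (𝓝 ((1 - ‖z‖) ^ 2 * ‖deriv E z‖ ^ 2)) := by
      have : Continuous fun r : ℝ => r ^ 2 * ‖deriv E z‖ ^ 2 := by fun_prop
      exact (this.tendsto _).mono_left nhdsWithin_le_nhds
    apply le_of_tendsto h1
    have h2 : Ioo 0 (1 - ‖z‖) ∈ 𝓝[<] (1 - ‖z‖) := Ioo_mem_nhdsLT (by linarith)
    filter_upwards [h2] with r hr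
    exact key r hr.1 hr.2
  apply Real.le_sqrt_of_sq_le
  linarith only [hlim]

end Pool.Agent.Helper79.EK3

end

section

namespace Pool.Agent.Helper39.Area
end Pool.Agent.Helper39.Area
namespace Pool.Agent.Helper39.EK
end Pool.Agent.Helper39.EK
namespace Pool.Agent.Helper52.EK
end Pool.Agent.Helper52.EK
namespace Pool.Agent.Helper86.EK
end Pool.Agent.Helper86.EK

/-!
EK3 (a), part 2: the function `Φ = log ((f - f a)/((1/z - 1/a)(1 - a z)))` in the strip: values at the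
two ends of the centre line and the size of its derivative.
-/

set_option autoImplicit false

open Complex MeasureTheory Metric Set Filter Topology

open scoped Real ENNReal ComplexConjugate NNReal

namespace Pool.Agent.Helper79.EK3

open Pool.Agent.Helper39.Area Pool.Agent.Helper39.EK Pool.Agent.Helper52.EK Pool.Agent.Helper86.EK

/-- the right side of the energy inequality, divided by `2 π` -/
noncomputable def JJ (β : ℂ → ℂ) (a : ℝ) : ℝ := Real.log (‖N β a‖ / (1 - a ^ 2))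

theorem JJ_nonneg {β : ℂ → ℂ} (h : Ext β) {a : ℝ} (ha : 0 < a) (ha1 : a < 1) : 0 ≤ JJ β a := by
  have h1 : (0:ℝ) < 1 - a ^ 2 := by nlinarith only [ha, ha1]
  apply Real.log_nonneg
  rw [le_div_iff₀ h1, one_mul]
  have h2 := N_ge h (z := (a:ℂ)) (by rw [Complex.norm_real, Real.norm_of_nonneg ha.le]; exact ha1)
  rwa [Complex.norm_real, Real.norm_of_nonneg ha.le] at h2

theorem exp_im_pos {ω : ℂ} (h0 : 0 < ω.im) (h1 : ω.im < π) : 0 < (Complex.exp ω).im := by
  rw [Complex.exp_im]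
  exact mul_pos (Real.exp_pos _) (Real.sin_pos_of_pos_of_lt_pi h0 h1)

theorem exp_ne_neg_I' {ω : ℂ} (h0 : 0 < ω.im) (h1 : ω.im < π) : I + Complex.exp ω ≠ 0 := by
  intro h
  have h3 := exp_im_pos h0 h1
  have h4 := congrArg Complex.im h
  simp only [Complex.add_im, Complex.I_im, Complex.zero_im] at h4
  (clear * - h3 h4; linarith)

/-- hyperbolic metrics: `|zd| = (1 - |z|²) / (2 sin η)` -/
theorem norm_zd {ω : ℂ} (h0 : 0 < ω.im) (h1 : ω.im < π) :
    ‖zd ω‖ * (2 * Real.sin ω.im) = 1 - ‖zf ω‖ ^ 2 := by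
  have hne := exp_ne_neg_I' h0 h1
  have hn : 0 < ‖I + Complex.exp ω‖ := norm_pos_iff.mpr hne
  have hZ : ‖Complex.exp ω‖ = Real.exp ω.re := Complex.norm_exp ω
  have h2 : ‖zd ω‖ = 2 * Real.exp ω.re / ‖I + Complex.exp ω‖ ^ 2 := by
    rw [zd, norm_div, norm_pow, norm_mul, norm_mul, hZ, add_comm (Complex.exp ω) I]
    simp
  have h3 : ‖I + Complex.exp ω‖ ^ 2 - ‖I - Complex.exp ω‖ ^ 2 = 4 * (Complex.exp ω).im := by
    rw [← Complex.normSq_eq_norm_sq, ← Complex.normSq_eq_norm_sq, Complex.normSq_apply,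
      Complex.normSq_apply]
    simp only [Complex.sub_re, Complex.add_re, Complex.sub_im, Complex.add_im, Complex.I_re,
      Complex.I_im]
    ring
  rw [h2, zf, norm_div, div_pow]
  rw [Complex.exp_im] at h3
  have h4 : (1:ℝ) - ‖I - Complex.exp ω‖ ^ 2 / ‖I + Complex.exp ω‖ ^ 2 =
      (‖I + Complex.exp ω‖ ^ 2 - ‖I - Complex.exp ω‖ ^ 2) / ‖I + Complex.exp ω‖ ^ 2 := by
    field_simp
  rw [h4, h3]
  ring

theorem exists_Phi {β : ℂ → ℂ} (h : Ext β) {a : ℝ} (ha : 0 < a) (ha1 : a < 1) :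
    ∃ Φ Φ' : ℂ → ℂ, (∀ ω : ℂ, 0 < ω.im → ω.im < π → HasDerivAt Φ (Φ' ω) ω) ∧
      (∀ ω : ℂ, 0 < ω.im → ω.im < π → ‖Φ' ω‖ * Real.sin ω.im ≤ Real.sqrt (2 * JJ β a)) ∧
      (∀ ω : ℂ, 0 < ω.im → ω.im < π → Real.log (tau a) < ω.re → ω.re < 0 →
        Φ' ω = 2 * Xf β a ω - 2 * kap a ω) ∧
      (Φ (pt (Real.log (tau a)) (π / 2))).re = JJ β a ∧ Φ (pt 0 (π / 2)) = 0 := by
  have haC : ((a:ℝ):ℂ) ∈ ball (0:ℂ) 1 := by
    rw [mem_ball, dist_zero_right, Complex.norm_real, Real.norm_of_nonneg ha.le]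
    exact ha1
  have ha0 : ((a:ℝ):ℂ) ≠ 0 := by exact_mod_cast ha.ne'
  obtain ⟨F, hF0, hF, hexp⟩ := exists_log h haC
  have hre : ∀ z ∈ ball (0:ℂ) 1, 0 < (1 - (a:ℂ) * z).re := by
    intro z hz
    rw [mem_ball, dist_zero_right] at hz
    have h1 : ((a:ℂ) * z).re ≤ ‖(a:ℂ) * z‖ := Complex.re_le_norm _
    rw [norm_mul, Complex.norm_real, Real.norm_of_nonneg ha.le] at h1
    rw [Complex.sub_re, Complex.one_re]
    nlinarith only [ha, ha1, hz, h1]
  have hsl : ∀ z ∈ ball (0:ℂ) 1, (1 - (a:ℂ) * z) ∈ slitPlane := fun z hz => Or.inl (hre z hz)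
  set D : ℂ → ℂ := fun z => F z - Complex.log (1 - (a:ℂ) * z) with hD
  set D' : ℂ → ℂ := fun z => deriv F z + (a:ℂ) / (1 - (a:ℂ) * z) with hD'
  have hder : ∀ z ∈ ball (0:ℂ) 1, HasDerivAt D (D' z) z := by
    intro z hz
    have h1 : HasDerivAt (fun z : ℂ => 1 - (a:ℂ) * z) (-(a:ℂ)) z := by
      have := ((hasDerivAt_id z).const_mul (a:ℂ)).const_sub 1
      simpa using this
    have h2 := h1.clog (hsl z hz)
    have h3 := (hF z hz).sub h2
    have h4 : D' z = deriv (qq β a) z / qq β a z - -(a:ℂ) / (1 - (a:ℂ) * z) := by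
      simp only [hD']
      rw [(hF z hz).deriv]
      ring
    rw [h4]
    exact h3
  have hDd : DifferentiableOn ℂ D (ball 0 1) := fun z hz =>
    (hder z hz).differentiableAt.differentiableWithinAt
  have hJ : - Real.log (1 - ‖((a:ℝ):ℂ)‖ ^ 2) + (F a).re = JJ β a := by
    have h5 : ‖N β (a:ℂ)‖ = Real.exp (F a).re := by
      rw [← qq_self, ← hexp _ haC, Complex.norm_exp]
    have h6 : (0:ℝ) < 1 - a ^ 2 := by (clear * - ha1 ha; nlinarith only [ha, ha1])
    rw [JJ, h5, Real.log_div (Real.exp_pos _).ne' h6.ne', Real.log_exp, Complex.norm_real,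
      Real.norm_of_nonneg ha.le]
    ring
  have hen : ∀ ρ : ℝ, 0 < ρ → ρ < 1 → ∫ z in ball (0:ℂ) ρ, ‖deriv D z‖ ^ 2 ≤ 2 * π * JJ β a := by
    intro ρ h0 h1
    have h2 := energy h h0 h1 haC ha0 hF hF0 hexp
    rw [hJ] at h2
    refine le_trans (le_of_eq ?_) h2
    apply setIntegral_congr_fun measurableSet_ball
    intro z hz
    simp only
    rw [(hder z (ball_subset_ball h1.le hz)).deriv, hD', Complex.conj_ofReal]
  have hz1 : ∀ ω : ℂ, 0 < ω.im → ω.im < π → zf ω ∈ ball (0:ℂ) 1 := by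
    intro ω h0 h1
    rw [mem_ball, dist_zero_right]
    exact norm_zf_lt (exp_im_pos h0 h1)
  refine ⟨fun ω => D (zf ω), fun ω => D' (zf ω) * zd ω, ?_, ?_, ?_, ?_, ?_⟩
  · intro ω h0 h1
    exact (hder _ (hz1 ω h0 h1)).comp ω (hasDerivAt_zf (exp_ne_neg_I' h0 h1))
  · intro ω h0 h1
    have h2 := hz1 ω h0 h1
    have h3 : ‖zf ω‖ < 1 := by simpa using h2
    have h4 := bloch hDd hen h3
    rw [(hder _ h2).deriv] at h4
    have h5 := norm_zd h0 h1
    have hs : 0 < Real.sin ω.im := Real.sin_pos_of_pos_of_lt_pi h0 h1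
    simp only
    rw [norm_mul]
    have h6 : ‖zd ω‖ * Real.sin ω.im = (1 - ‖zf ω‖) * (1 + ‖zf ω‖) / 2 := by
      linear_combination (1 / 2) * h5
    calc ‖D' (zf ω)‖ * ‖zd ω‖ * Real.sin ω.im = ‖D' (zf ω)‖ * (‖zd ω‖ * Real.sin ω.im) := by ring
      _ = (‖D' (zf ω)‖ * (1 - ‖zf ω‖)) * ((1 + ‖zf ω‖) / 2) := by rw [h6]; ring
      _ ≤ (‖D' (zf ω)‖ * (1 - ‖zf ω‖)) * 1 := by
          apply mul_le_mul_of_nonneg_left (by linarith only [h3])
          exact mul_nonneg (norm_nonneg _) (by linarith only [h3])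
      _ ≤ _ := by rw [mul_one]; exact h4
  · intro ω h0 h1 h2 h3
    have hR : ω ∈ Rect ω.re ω.re := ⟨⟨le_refl _, le_refl _⟩, ⟨h0.le, h1.le⟩⟩
    have hzb := hz1 ω h0 h1
    have hz0 : zf ω ≠ 0 := zf_ne_zero h3 hR
    have hza : zf ω ≠ a := zf_ne_a ha ha1 h2 hR
    rw [← zd_Dd ha ha1 h2 h3 hR, Dd, dphi_div h haC hzb ha0 hz0 hza, hD']
    simp only
    rw [(hF _ hzb).deriv]
    ring
  · have h1 : zf (pt (Real.log (tau a)) (π / 2)) = a := by
      have h2 : Complex.exp (pt (Real.log (tau a)) (π / 2)) = (tau a : ℂ) * I := by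
        rw [pt, Complex.exp_add, ← Complex.ofReal_exp, Real.exp_log (tau_pos ha ha1)]
        congr 1
        push_cast
        exact Complex.exp_pi_div_two_mul_I
      rw [zf, h2, tau]
      have h3 : (1 + (a:ℂ)) ≠ 0 := by
        have : ((1 + a : ℝ) : ℂ) ≠ 0 := by exact_mod_cast (by (clear * - ha; positivity))
        simpa using this
      have h4 : (I:ℂ) ≠ 0 := I_ne_zero
      push_cast
      have h5 : I + (1 - (a:ℂ)) / (1 + a) * I = 2 / (1 + a) * I := by field_simp; ring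
      have h6 : I - (1 - (a:ℂ)) / (1 + a) * I = 2 * a / (1 + a) * I := by field_simp; ring
      rw [h5, h6]
      (clear * - h3 h4 ha0; field_simp)
    simp only [h1]
    rw [← hJ, hD]
    simp only
    have h7 : (1 - (a:ℂ) * a) = ((1 - a ^ 2 : ℝ) : ℂ) := by push_cast; ring
    rw [h7, ← Complex.ofReal_log (by (clear * - ha1 ha; nlinarith only [ha, ha1])), Complex.sub_re, Complex.ofReal_re,
      Complex.norm_real, Real.norm_of_nonneg ha.le]
    ring
  · have h1 : zf (pt 0 (π / 2)) = 0 := by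
      have h2 : Complex.exp (pt 0 (π / 2)) = I := by
        rw [pt]
        push_cast
        rw [zero_add]
        exact Complex.exp_pi_div_two_mul_I
      rw [zf, h2, sub_self, zero_div]
    simp only [h1]
    rw [hD]
    simp [hF0]

end Pool.Agent.Helper79.EK3

end

section

namespace Pool.Agent.Helper39.Area
end Pool.Agent.Helper39.Area
namespace Pool.Agent.Helper39.EK
end Pool.Agent.Helper39.EK
namespace Pool.Agent.Helper52.EK
end Pool.Agent.Helper52.EK
namespace Pool.Agent.Helper86.EK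
end Pool.Agent.Helper86.EK

set_option autoImplicit false

open Complex MeasureTheory Metric Set Filter Topology

open scoped Real ENNReal ComplexConjugate NNReal

namespace Pool.Agent.Helper79.EK3

open Pool.Agent.Helper39.Area Pool.Agent.Helper39.EK Pool.Agent.Helper52.EK Pool.Agent.Helper86.EK

theorem pt_re (ξ η : ℝ) : (pt ξ η).re = ξ := by simp [pt]

theorem pt_im (ξ η : ℝ) : (pt ξ η).im = η := by simp [pt]

theorem hasDerivAt_pt (ξ η : ℝ) : HasDerivAt (fun t : ℝ => pt t η) 1 ξ := by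
  have h : HasDerivAt (fun t : ℝ => (t:ℂ) + (η:ℂ) * I) 1 ξ :=
    (Complex.ofRealCLM.hasDerivAt (x := ξ)).add_const _
  exact h

/-- `Φ` moves slowly along the centre line -/
theorem horiz {Φ Φ' : ℂ → ℂ} {B : ℝ} (h1 : ∀ ω : ℂ, 0 < ω.im → ω.im < π → HasDerivAt Φ (Φ' ω) ω)
    (h2 : ∀ ω : ℂ, 0 < ω.im → ω.im < π → ‖Φ' ω‖ * Real.sin ω.im ≤ B) (x y : ℝ) :
    ‖Φ (pt y (π / 2)) - Φ (pt x (π / 2))‖ ≤ B * |y - x| := by
  have hπ := Real.pi_pos
  have hd : ∀ t ∈ (univ : Set ℝ), HasDerivWithinAt (fun t : ℝ => Φ (pt t (π / 2)))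
      (Φ' (pt t (π / 2))) univ t := by
    intro t _
    have h3 := h1 (pt t (π / 2)) (by rw [pt_im]; linarith only [hπ]) (by rw [pt_im]; (clear * - hπ; linarith only [hπ]))
    have h4 := h3.comp_of_eq t (hasDerivAt_pt t (π / 2)) rfl
    rw [mul_one] at h4
    exact h4.hasDerivWithinAt
  have hb : ∀ t ∈ (univ : Set ℝ), ‖Φ' (pt t (π / 2))‖ ≤ B := by
    intro t _
    have h3 := h2 (pt t (π / 2)) (by rw [pt_im]; (clear * - hπ; linarith only [hπ])) (by rw [pt_im]; (clear * - hπ; linarith only [hπ]))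
    rwa [pt_im, Real.sin_pi_div_two, mul_one] at h3
  have := convex_univ.norm_image_sub_le_of_norm_hasDerivWithin_le hd hb (mem_univ x) (mem_univ y)
  rwa [Real.norm_eq_abs] at this

theorem kap_re {a : ℝ} (h0 : 0 < a) (h1 : a < 1) {ξ η : ℝ} (hx : Real.log (tau a) + 1 ≤ ξ)
    (hx2 : ξ ≤ -1) :
    1 - (kap a (pt ξ η)).re ≤ 12 * Real.exp (ξ / 2) + 4 * Real.exp ((Real.log (tau a) - ξ) / 2) := by
  have h3 := Pool.Agent.Helper46.EK.kap_bound h0 h1 (η := η) hx hx2
  have hτ := tau_pos h0 h1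
  have h4 : 1 - (kap a (pt ξ η)).re ≤ ‖kap a (pt ξ η) - 1‖ := by
    have := Complex.abs_re_le_norm (kap a (pt ξ η) - 1)
    rw [Complex.sub_re, Complex.one_re] at this
    have h5 := neg_abs_le ((kap a (pt ξ η)).re - 1)
    (clear * - this h5; linarith only [this, h5])
  refine h4.trans ?_
  apply le_of_sq_le_sq _ (by positivity)
  have e1 : Real.exp (ξ / 2) ^ 2 = Real.exp ξ := by
    rw [← Real.exp_nat_mul]; congr 1; push_cast; ring
  have e2 : Real.exp ((Real.log (tau a) - ξ) / 2) ^ 2 = tau a * Real.exp (-ξ) := by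
    rw [← Real.exp_nat_mul]
    have : ((2:ℕ):ℝ) * ((Real.log (tau a) - ξ) / 2) = Real.log (tau a) + -ξ := by push_cast; ring
    rw [this, Real.exp_add, Real.exp_log hτ]
  have p1 := Real.exp_pos (ξ / 2)
  have p2 := Real.exp_pos ((Real.log (tau a) - ξ) / 2)
  (clear * - p2 p1 h3 e1 e2; nlinarith only [h3, e1, e2, p1, p2])

theorem int_exp_half {x₁ x₂ L : ℝ} (h1 : L + 1 ≤ x₁) (h12 : x₁ ≤ x₂) (h2 : x₂ ≤ -1) :
    ∫ ξ in x₁..x₂, (12 * Real.exp (ξ / 2) + 4 * Real.exp ((L - ξ) / 2)) ≤ 32 := by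
  have hd : ∀ ξ ∈ uIcc x₁ x₂, HasDerivAt (fun ξ : ℝ => 24 * Real.exp (ξ / 2) -
      8 * Real.exp ((L - ξ) / 2)) (12 * Real.exp (ξ / 2) + 4 * Real.exp ((L - ξ) / 2)) ξ := by
    intro ξ _
    have a1 : HasDerivAt (fun ξ : ℝ => ξ / 2) (1 / 2) ξ := (hasDerivAt_id ξ).div_const 2
    have a2 : HasDerivAt (fun ξ : ℝ => (L - ξ) / 2) (-1 / 2) ξ :=
      ((hasDerivAt_id ξ).const_sub L).div_const 2
    have a3 := (a1.exp.const_mul 24).sub (a2.exp.const_mul 8)
    have a4 : 12 * Real.exp (ξ / 2) + 4 * Real.exp ((L - ξ) / 2) =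
        24 * (Real.exp (ξ / 2) * (1 / 2)) - 8 * (Real.exp ((L - ξ) / 2) * (-1 / 2)) := by ring
    rw [a4]
    exact a3
  rw [intervalIntegral.integral_eq_sub_of_hasDerivAt hd
    ((by fun_prop : Continuous fun ξ : ℝ => 12 * Real.exp (ξ / 2) +
      4 * Real.exp ((L - ξ) / 2)).intervalIntegrable _ _)]
  have b1 : Real.exp (x₂ / 2) ≤ 1 := Real.exp_le_one_iff.mpr (by (clear * - h2; linarith))
  have b2 : Real.exp ((L - x₁) / 2) ≤ 1 := Real.exp_le_one_iff.mpr (by (clear * - h1; linarith))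
  have b3 := Real.exp_pos (x₁ / 2)
  have b4 := Real.exp_pos ((L - x₂) / 2)
  linarith

/-- the linear input on the centre line, with the distances to the ends -/
theorem centre_aux {β : ℂ → ℂ} {R : ℝ} (h : ExtR β R) {a : ℝ} (ha : 0 < a) (ha1 : a < 1)
    {x₁ x₂ : ℝ} (h1 : Real.log (tau a) + 1 ≤ x₁) (h12 : x₁ ≤ x₂) (h2 : x₂ ≤ -1) :
    2 * ∫ ξ in x₁..x₂, (1 - (Xf β a (pt ξ (π / 2))).re) ≤
      JJ β a + 64 + Real.sqrt (2 * JJ β a) * ((x₁ - Real.log (tau a)) - x₂) := by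
  have hπ := Real.pi_pos
  obtain ⟨Φ, Φ', hd, hb, hX, hJ, hO⟩ := exists_Phi h.toExt ha ha1
  have hN := Pool.Agent.Helper67.EK.E1c h ha ha1 (x₁ := x₁) (x₂ := x₂) (by linarith only [h1]) (by (clear * - h2; linarith only [h2]))
  have hmem : ∀ ξ ∈ Icc x₁ x₂, pt ξ (π / 2) ∈ Rect x₁ x₂ := by
    intro ξ hξ
    refine ⟨?_, ?_⟩
    · simp only [mem_preimage, pt_re]; exact hξ
    · simp only [mem_preimage, pt_im, mem_Icc]; constructor <;> (clear * - hπ; linarith only [hπ])
  have hptc : Continuous fun ξ : ℝ => pt ξ (π / 2) := by unfold pt; fun_prop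
  have hXc : ContinuousOn (fun ξ : ℝ => Xf β a (pt ξ (π / 2))) (Icc x₁ x₂) :=
    hN.an.continuousOn.comp hptc.continuousOn hmem
  have hkc : ContinuousOn (fun ξ : ℝ => kap a (pt ξ (π / 2))) (Icc x₁ x₂) := by
    have hk : ContinuousOn (kap a) (Rect x₁ x₂) := by
      apply ContinuousOn.div (by fun_prop) (by fun_prop)
      intro ω hω
      exact mul_ne_zero (sq_add_tau_ne ha ha1 (by linarith only [h1]) hω) (sq_add_one_ne (by linarith only [h2]) hω)
    exact hk.comp hptc.continuousOn hmem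
  have hXi : IntervalIntegrable (fun ξ : ℝ => (Xf β a (pt ξ (π / 2))).re) volume x₁ x₂ := by
    apply ContinuousOn.intervalIntegrable
    rw [uIcc_of_le h12]
    exact Complex.continuous_re.comp_continuousOn hXc
  have hki : IntervalIntegrable (fun ξ : ℝ => (kap a (pt ξ (π / 2))).re) volume x₁ x₂ := by
    apply ContinuousOn.intervalIntegrable
    rw [uIcc_of_le h12]
    exact Complex.continuous_re.comp_continuousOn hkc
  -- fundamental theorem of calculus for `Re Φ`
  have hft : ∫ ξ in x₁..x₂, (2 * (Xf β a (pt ξ (π / 2))).re - 2 * (kap a (pt ξ (π / 2))).re) =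
      (Φ (pt x₂ (π / 2))).re - (Φ (pt x₁ (π / 2))).re := by
    apply intervalIntegral.integral_eq_sub_of_hasDerivAt (f := fun ξ => (Φ (pt ξ (π / 2))).re)
    · intro ξ hξ
      rw [uIcc_of_le h12] at hξ
      have i1 : 0 < (pt ξ (π / 2)).im := by rw [pt_im]; linarith only [hπ]
      have i2 : (pt ξ (π / 2)).im < π := by rw [pt_im]; linarith only [hπ]
      have h3 := (hd _ i1 i2).comp_of_eq ξ (hasDerivAt_pt ξ (π / 2)) rfl
      rw [mul_one, hX _ i1 i2 (by rw [pt_re]; linarith only [hξ.1, h1]) (by rw [pt_re]; linarith only [hξ.2, h2])] at h3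
      have h4 := (Complex.reCLM.hasFDerivAt.comp_hasDerivAt ξ h3)
      have h5 : Complex.reCLM (2 * Xf β a (pt ξ (π / 2)) - 2 * kap a (pt ξ (π / 2))) =
          2 * (Xf β a (pt ξ (π / 2))).re - 2 * (kap a (pt ξ (π / 2))).re := by
        simp
      rw [h5] at h4
      exact h4
    · exact (hXi.const_mul 2).sub (hki.const_mul 2)
  have hB0 : 0 ≤ Real.sqrt (2 * JJ β a) := Real.sqrt_nonneg _
  -- the two ends
  have hend2 : -(Real.sqrt (2 * JJ β a) * -x₂) ≤ (Φ (pt x₂ (π / 2))).re := by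
    have h3 := horiz hd hb 0 x₂
    rw [hO, sub_zero, sub_zero, abs_of_nonpos (by (clear * - h2; linarith only [h2]))] at h3
    have h4 := Complex.abs_re_le_norm (Φ (pt x₂ (π / 2)))
    have h5 := neg_abs_le (Φ (pt x₂ (π / 2))).re
    (clear * - h3 h4 h5; linarith only [h3, h4, h5])
  have hend1 : (Φ (pt x₁ (π / 2))).re ≤ JJ β a + Real.sqrt (2 * JJ β a) * (x₁ - Real.log (tau a)) := by
    have h3 := horiz hd hb (Real.log (tau a)) x₁
    rw [abs_of_nonneg (by linarith only [h1])] at h3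
    have h4 := Complex.re_le_norm (Φ (pt x₁ (π / 2)) - Φ (pt (Real.log (tau a)) (π / 2)))
    rw [Complex.sub_re, hJ] at h4
    (clear * - h3 h4; linarith)
  have hkap : 2 * ∫ ξ in x₁..x₂, (1 - (kap a (pt ξ (π / 2))).re) ≤ 64 := by
    have h3 : ∫ ξ in x₁..x₂, (1 - (kap a (pt ξ (π / 2))).re) ≤
        ∫ ξ in x₁..x₂, (12 * Real.exp (ξ / 2) + 4 * Real.exp ((Real.log (tau a) - ξ) / 2)) := by
      apply intervalIntegral.integral_mono_on h12
      · exact (intervalIntegrable_const).sub hki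
      · exact (by fun_prop : Continuous fun ξ : ℝ => 12 * Real.exp (ξ / 2) +
          4 * Real.exp ((Real.log (tau a) - ξ) / 2)).intervalIntegrable _ _
      · intro ξ hξ
        exact kap_re ha ha1 (h1.trans hξ.1) (hξ.2.trans h2)
    have h4 := int_exp_half h1 h12 h2
    (clear * - h3 h4; linarith only [h3, h4])
  have hsplit : 2 * ∫ ξ in x₁..x₂, (1 - (Xf β a (pt ξ (π / 2))).re) =
      2 * (∫ ξ in x₁..x₂, (1 - (kap a (pt ξ (π / 2))).re)) -
        ∫ ξ in x₁..x₂, (2 * (Xf β a (pt ξ (π / 2))).re - 2 * (kap a (pt ξ (π / 2))).re) := by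
    rw [← intervalIntegral.integral_const_mul, ← intervalIntegral.integral_const_mul,
      ← intervalIntegral.integral_sub ((intervalIntegrable_const.sub hki).const_mul 2)
        ((hXi.const_mul 2).sub (hki.const_mul 2))]
    congr 1
    funext ξ
    ring
  rw [hsplit, hft]
  (clear * - hend2 hend1 hkap; linarith only [hend2, hend1, hkap])

/-- EK3 (a): the linear input on the centre line -/
theorem centre_line {δ : ℝ} (hδ : 0 < δ) : ∃ C : ℝ, ∀ (β : ℂ → ℂ) (R a : ℝ), ExtR β R → 0 < a →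
    a < 1 → ∀ x₁ x₂ : ℝ, Real.log (tau a) + 1 ≤ x₁ → x₁ ≤ x₂ → x₂ ≤ -1 →
    2 * ∫ ξ in x₁..x₂, (1 - (Xf β a (pt ξ (π / 2))).re) ≤
      (1 + δ) * Real.log (‖N β a‖ / (1 - a ^ 2)) + C := by
  refine ⟨96 + 2 / δ, fun β R a h ha ha1 x₁ x₂ h1 h12 h2 => ?_⟩
  have hπ := Real.pi_pos
  set L := Real.log (tau a) with hL
  have h3 := centre_aux h ha ha1 (x₁ := L + 1) (x₂ := -1) (le_refl _) (by linarith) (le_refl _)
  have hJ := JJ_nonneg h.toExt ha ha1
  have h4 : Real.sqrt (2 * JJ β a) * ((L + 1 - L) - -1) ≤ δ * JJ β a + 2 / δ := by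
    set B := Real.sqrt (2 * JJ β a) with hB
    have hB2 : B ^ 2 = 2 * JJ β a := Real.sq_sqrt (by linarith only [hJ])
    have h7 : 0 ≤ (δ * B - 2) ^ 2 / (2 * δ) := by (clear * - hδ; positivity)
    have h8 : (δ * B - 2) ^ 2 / (2 * δ) = δ / 2 * B ^ 2 + 2 / δ - B * 2 := by
      field_simp
      ring
    rw [h8, hB2] at h7
    (clear * - h7; linarith only [h7])
  -- the rest of the centre line, by Koebe
  have hN := Pool.Agent.Helper67.EK.E1c h ha ha1 (x₁ := L + 1) (x₂ := -1) (by linarith only [])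
    (by linarith only [])
  have hptc : Continuous fun ξ : ℝ => pt ξ (π / 2) := by unfold pt; fun_prop
  have hfc : ContinuousOn (fun ξ : ℝ => 1 - (Xf β a (pt ξ (π / 2))).re) (Icc (L + 1) (-1)) := by
    apply continuousOn_const.sub
    apply Complex.continuous_re.comp_continuousOn
    apply hN.an.continuousOn.comp hptc.continuousOn
    intro ξ hξ
    refine ⟨?_, ?_⟩
    · simp only [mem_preimage, pt_re]; exact hξ
    · simp only [mem_preimage, pt_im, mem_Icc]; constructor <;> (clear * - hπ; linarith only [hπ])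
  have hii : ∀ u v : ℝ, L + 1 ≤ u → u ≤ v → v ≤ -1 →
      IntervalIntegrable (fun ξ : ℝ => 1 - (Xf β a (pt ξ (π / 2))).re) volume u v := by
    intro u v hu huv hv
    apply ContinuousOn.intervalIntegrable
    rw [uIcc_of_le huv]
    exact hfc.mono (Icc_subset_Icc hu hv)
  have hpos : ∀ u v : ℝ, L + 1 ≤ u → u ≤ v → v ≤ -1 →
      -8 ≤ ∫ ξ in u..v, (1 - (Xf β a (pt ξ (π / 2))).re) := by
    intro u v hu huv hv
    have g1 : ∫ ξ in u..v, (-(4 * Real.exp ξ + 4 * Real.exp (L - ξ))) ≤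
        ∫ ξ in u..v, (1 - (Xf β a (pt ξ (π / 2))).re) := by
      apply intervalIntegral.integral_mono_on huv
      · exact (by fun_prop : Continuous fun ξ : ℝ =>
          -(4 * Real.exp ξ + 4 * Real.exp (L - ξ))).intervalIntegrable _ _
      · exact hii u v hu huv hv
      · intro ξ hξ
        have g2 := Pool.Agent.Helper84.EK.centre_err h.toExt ha ha1 (ξ := ξ) (hu.trans hξ.1)
          (hξ.2.trans hv)
        have g3 := Complex.re_le_norm (Xf β a (pt ξ (π / 2)))
        rw [← hL] at g2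
        linarith only [g2, g3]
    have g4 : ∫ ξ in u..v, (-(4 * Real.exp ξ + 4 * Real.exp (L - ξ))) =
        (-(4 * Real.exp v) + 4 * Real.exp (L - v)) - (-(4 * Real.exp u) + 4 * Real.exp (L - u)) := by
      apply intervalIntegral.integral_eq_sub_of_hasDerivAt
        (f := fun ξ : ℝ => -(4 * Real.exp ξ) + 4 * Real.exp (L - ξ))
      · intro ξ _
        have a1 := ((Real.hasDerivAt_exp ξ).const_mul 4).neg
        have a2 : HasDerivAt (fun ξ : ℝ => L - ξ) (-1) ξ := (hasDerivAt_id ξ).const_sub L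
        have a3 := a1.add (a2.exp.const_mul 4)
        have a4 : -(4 * Real.exp ξ + 4 * Real.exp (L - ξ)) =
            -(4 * Real.exp ξ) + 4 * (Real.exp (L - ξ) * -1) := by ring
        rw [a4]
        exact a3
      · exact (by fun_prop : Continuous fun ξ : ℝ =>
          -(4 * Real.exp ξ + 4 * Real.exp (L - ξ))).intervalIntegrable _ _
    have b1 : Real.exp v ≤ 1 := Real.exp_le_one_iff.mpr (by linarith only [hv])
    have b2 : Real.exp (L - u) ≤ 1 := Real.exp_le_one_iff.mpr (by linarith only [hu])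
    have b3 := Real.exp_pos u
    have b4 := Real.exp_pos (L - v)
    rw [g4] at g1
    linarith only [g1, b1, b2, b3, b4]
  have hs1 := intervalIntegral.integral_add_adjacent_intervals
    (hii (L + 1) x₁ (le_refl _) h1 (h12.trans h2)) (hii x₁ x₂ h1 h12 h2)
  have hs2 := intervalIntegral.integral_add_adjacent_intervals
    (hii (L + 1) x₂ (le_refl _) (h1.trans h12) h2) (hii x₂ (-1) (h1.trans h12) h2 (le_refl _))
  have p1 := hpos (L + 1) x₁ (le_refl _) h1 (h12.trans h2)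
  have p2 := hpos x₂ (-1) (h1.trans h12) h2 (le_refl _)
  have h11 : (1 + δ) * Real.log (‖N β a‖ / (1 - a ^ 2)) = JJ β a + δ * JJ β a := by
    rw [JJ]; ring
  rw [h11]
  linarith only [h3, h4, hs1, hs2, p1, p2]

end Pool.Agent.Helper79.EK3

end
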