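import Pool.Agent.Helper60.BE.T08
import Pool.Agent.Helper60.BE.T03
import Pool.Agent.Helper60.BE.T09
import Pool.Agent.Helper60.BE.T02
import Pool.Agent.Helper60.BE.T10
import Pool.Agent.Helper60.BE.T06
import Pool.Agent.Helper60.BE.T04

set_option linter.all false

section

namespace Pool.Agent.Helper22.Marshall
end Pool.Agent.Helper22.Marshall
namespace Pool.Agent.Helper84.EK
end Pool.Agent.Helper84.EK

set_option autoImplicit false

open Complex Metric Set Filter Topology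

/-! Project EK3: the inequalities of Koebe and Bieberbach for univalent functions without zeros,
in terms of the logarithmic derivative. -/

namespace Pool.Agent.Helper69.EK3

open Pool.Agent.Helper22.Marshall (coeff coeff_one coeff_deriv)

open Pool.Agent.Helper84.EK (second_le_two koebe_r)

/-- Bieberbach, without normalisation -/
theorem bieb_one {h : ℂ → ℂ} (hd : DifferentiableOn ℂ h (ball 0 1)) (hi : InjOn h (ball 0 1)) :
    ‖deriv (deriv h) 0‖ ≤ 4 * ‖deriv h 0‖ := by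
  have h0b : (0:ℂ) ∈ ball (0:ℂ) 1 := mem_ball_self one_pos
  have hne : deriv h 0 ≠ 0 := Pool.Agent.Helper24.Br.deriv_ne_of_inj isOpen_ball hd hi h0b
  set d := deriv h 0 with hdd
  have hf : deriv (fun z => (h z - h 0) / d) = fun z => deriv h z / d := by
    funext z
    rw [deriv_div_const, deriv_sub_const]
  have e := second_le_two (f := fun z => (h z - h 0) / d) ((hd.sub_const _).div_const _)
    (by
      intro z hz w hw hzw
      apply hi hz hw
      have h1 : (h z - h 0) / d = (h w - h 0) / d := hzw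
      rw [div_left_inj' hne] at h1
      linear_combination h1) (by simp) (by
        rw [hf]
        exact div_self hne)
  have e2 := coeff_deriv (fun z => (h z - h 0) / d) 1
  rw [coeff_one, hf, deriv_div_const] at e2
  have e3 : deriv (deriv h) 0 = 2 * coeff (fun z => (h z - h 0) / d) 2 * d := by
    rw [div_eq_iff hne] at e2
    rw [e2]
    norm_num
  rw [e3, norm_mul, norm_mul]
  have e4 : ‖(2:ℂ)‖ = 2 := by simp
  rw [e4]
  have := norm_nonneg d
  nlinarith only [e, this]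

/-- Bieberbach in a disc of radius `r` -/
theorem bieb_r {g : ℂ → ℂ} {r : ℝ} (hr : 0 < r) (hg : DifferentiableOn ℂ g (ball 0 r))
    (hinj : InjOn g (ball 0 r)) : ‖deriv (deriv g) 0‖ * r ≤ 4 * ‖deriv g 0‖ := by
  have hm : MapsTo (fun z : ℂ => (r : ℂ) * z) (ball 0 1) (ball 0 r) := by
    intro z hz
    rw [mem_ball_zero_iff] at hz ⊢
    rw [norm_mul, Complex.norm_real, Real.norm_of_nonneg hr.le]
    nlinarith only [hr, hz]
  have hr0 : (r : ℂ) ≠ 0 := by exact_mod_cast hr.ne'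
  have h1 := bieb_one (h := fun z => g ((r : ℂ) * z)) (hg.comp (by fun_prop) hm)
    (by
      intro z hz w hw h
      exact mul_left_cancel₀ hr0 (hinj (hm hz) (hm hw) h))
  have e1 : deriv (fun z => g ((r : ℂ) * z)) = fun z => (r : ℂ) * deriv g ((r : ℂ) * z) := by
    funext z
    rw [deriv_comp_mul_left, smul_eq_mul]
  have e2 : deriv (deriv (fun z => g ((r : ℂ) * z))) 0 = (r : ℂ) ^ 2 * deriv (deriv g) 0 := by
    rw [e1, deriv_const_mul_field, deriv_comp_mul_left, smul_eq_mul, mul_zero]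
    ring
  rw [e2, e1] at h1
  simp only [mul_zero, norm_mul, norm_pow, Complex.norm_real, Real.norm_of_nonneg hr.le] at h1
  have h2 : r * (‖deriv (deriv g) 0‖ * r) ≤ r * (4 * ‖deriv g 0‖) := by (clear * - h1; linarith only [h1])
  exact le_of_mul_le_mul_left h2 hr

/-- one half of the statement below -/
theorem univ_half {G B : ℂ → ℂ} {b : ℂ} {r : ℝ} (hr : 0 < r) (hi : InjOn G (ball 0 r))
    (hne : ∀ z ∈ ball (0:ℂ) r, G z ≠ 0) (hG : ∀ z ∈ ball (0:ℂ) r, HasDerivAt G (G z * B z) z)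
    (hB : HasDerivAt B b 0) : ‖B 0‖ * r ≤ 4 ∧ ‖b + B 0 ^ 2‖ * r ≤ 4 * ‖B 0‖ := by
  have h0 : (0:ℂ) ∈ ball (0:ℂ) r := mem_ball_self hr
  have hb : ball (0:ℂ) r ∈ 𝓝 (0:ℂ) := ball_mem_nhds 0 hr
  have hd : DifferentiableOn ℂ G (ball 0 r) := fun z hz =>
    (hG z hz).differentiableAt.differentiableWithinAt
  have hG0 := hne 0 h0
  have hp : 0 < ‖G 0‖ := norm_pos_iff.mpr hG0
  have e1 := koebe_r hr hd hi hne
  have e2 := bieb_r hr hd hi
  have e3 : deriv G =ᶠ[𝓝 0] fun z => G z * B z := by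
    filter_upwards [hb] with z hz
    exact (hG z hz).deriv
  have e4 : deriv (deriv G) 0 = G 0 * (b + B 0 ^ 2) := by
    have e5 : HasDerivAt (fun z => G z * B z) (G 0 * B 0 * B 0 + G 0 * b) 0 := (hG 0 h0).mul hB
    rw [e3.deriv_eq, e5.deriv]
    ring
  rw [(hG 0 h0).deriv, norm_mul] at e1
  rw [e4, (hG 0 h0).deriv, norm_mul, norm_mul] at e2
  constructor
  · have : ‖G 0‖ * (‖B 0‖ * r) ≤ ‖G 0‖ * 4 := by (clear * - e1; linarith only [e1])
    exact le_of_mul_le_mul_left this hp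
  · have : ‖G 0‖ * (‖b + B 0 ^ 2‖ * r) ≤ ‖G 0‖ * (4 * ‖B 0‖) := by linarith only [e2]
    exact le_of_mul_le_mul_left this hp

/-- Koebe and Bieberbach for a univalent function `G` without zeros and for `1 / G`; `B` is the
logarithmic derivative of `G` -/
theorem univ_log {G B : ℂ → ℂ} {b : ℂ} {r : ℝ} (hr : 0 < r) (hi : InjOn G (ball 0 r))
    (hne : ∀ z ∈ ball (0:ℂ) r, G z ≠ 0) (hG : ∀ z ∈ ball (0:ℂ) r, HasDerivAt G (G z * B z) z)
    (hB : HasDerivAt B b 0) :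
    ‖B 0‖ * r ≤ 4 ∧ ‖b + B 0 ^ 2‖ * r ≤ 4 * ‖B 0‖ ∧ ‖b - B 0 ^ 2‖ * r ≤ 4 * ‖B 0‖ := by
  obtain ⟨h1, h2⟩ := univ_half hr hi hne hG hB
  refine ⟨h1, h2, ?_⟩
  obtain ⟨_, h3⟩ := univ_half (G := fun z => (G z)⁻¹) (B := fun z => -B z) (b := -b) hr
    (fun z hz w hw h => hi hz hw (inv_injective h)) (fun z hz => inv_ne_zero (hne z hz))
    (fun z hz => by
      have e := (hG z hz).inv (hne z hz)
      have e1 : (G z)⁻¹ * -B z = -(G z * B z) / G z ^ 2 := by
        have := hne z hz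
        field_simp
      rw [e1]
      exact e) hB.neg
  have e2 : -b + (-B 0) ^ 2 = -(b - B 0 ^ 2) := by ring
  rw [e2, norm_neg, norm_neg] at h3
  exact h3

end Pool.Agent.Helper69.EK3

end

section

namespace Pool.Agent.Helper39.Area
end Pool.Agent.Helper39.Area
namespace Pool.Agent.Helper52.EK
end Pool.Agent.Helper52.EK
namespace Pool.Agent.Helper67.EK
end Pool.Agent.Helper67.EK

set_option autoImplicit false

open Complex Metric Set Filter Topology

open scoped Real ComplexConjugate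

namespace Pool.Agent.Helper69.EK3

open Pool.Agent.Helper39.Area Pool.Agent.Helper52.EK Pool.Agent.Helper67.EK

/-- `exp (-2 i η)` -/
noncomputable def kq (η : ℝ) : ℂ := -e0 (Real.sin η) (Real.cos η)

/-- the chart of the strip around the point `ξ + i η` -/
noncomputable def oo (ξ η : ℝ) (u : ℂ) : ℂ :=
  pt ξ η + (Complex.log (1 - kq η * u) - Complex.log (1 - u))

/-- its derivative -/
noncomputable def od (η : ℝ) (u : ℂ) : ℂ := -kq η / (1 - kq η * u) + 1 / (1 - u)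

theorem kq_eq (η : ℝ) : kq η = ((Real.cos η : ℂ) - (Real.sin η : ℂ) * I) ^ 2 := by
  simp only [kq, e0, neg_neg]

theorem exp_pt (ξ η : ℝ) : Complex.exp (pt ξ η) =
    (Real.exp ξ : ℂ) * ((Real.cos η : ℂ) + (Real.sin η : ℂ) * I) := by
  rw [pt, Complex.exp_add, Complex.exp_mul_I, ofReal_exp, ofReal_cos, ofReal_sin]

theorem exp_pt_re (ξ η : ℝ) : (Complex.exp (pt ξ η)).re = Real.exp ξ * Real.cos η := by
  rw [Complex.exp_re]
  simp [pt]

theorem exp_pt_im (ξ η : ℝ) : (Complex.exp (pt ξ η)).im = Real.exp ξ * Real.sin η := by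
  rw [Complex.exp_im]
  simp [pt]

theorem norm_kq (η : ℝ) : ‖kq η‖ = 1 := by
  rw [kq_eq, norm_pow]
  have h : ‖(Real.cos η : ℂ) - (Real.sin η : ℂ) * I‖ = 1 := by
    have e : (Real.cos η : ℂ) - (Real.sin η : ℂ) * I = Complex.exp (((-η : ℝ) : ℂ) * I) := by
      rw [Complex.exp_mul_I, ← ofReal_cos, ← ofReal_sin, Real.cos_neg, Real.sin_neg]
      push_cast
      ring
    rw [e, Complex.norm_exp_ofReal_mul_I]
  rw [h, one_pow]

theorem kq_ne_one {η : ℝ} (h0 : 0 < η) (h1 : η < π) : kq η ≠ 1 := by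
  have hs := Real.sin_pos_of_pos_of_lt_pi h0 h1
  intro h
  rw [kq_eq] at h
  have h2 := congrArg Complex.re h
  simp only [pow_two, mul_re, sub_re, sub_im, ofReal_re, ofReal_im, mul_im, I_re, I_im, one_re] at h2
  nlinarith only [Real.sin_sq_add_cos_sq η, hs, h2]

theorem one_sub_kq_ne {η : ℝ} {u : ℂ} (hu : ‖u‖ < 1) : 1 - kq η * u ≠ 0 := by
  intro h
  have h1 : kq η * u = 1 := by linear_combination -h
  have h2 := congrArg (fun w : ℂ => ‖w‖) h1
  simp only [norm_mul, norm_kq, one_mul, norm_one] at h2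
  linarith only [hu, h2]

theorem one_sub_ne' {u : ℂ} (hu : ‖u‖ < 1) : 1 - u ≠ 0 := by
  intro h
  have h1 : u = 1 := by linear_combination -h
  rw [h1, norm_one] at hu
  linarith

theorem re_pos_of {u : ℂ} (hu : ‖u‖ < 1) : 0 < (1 - u).re := by
  have h := Complex.re_le_norm u
  rw [sub_re, one_re]
  linarith

theorem oo_hasDerivAt (ξ η : ℝ) {u : ℂ} (hu : ‖u‖ < 1) : HasDerivAt (oo ξ η) (od η u) u := by
  have hk : ‖kq η * u‖ < 1 := by rw [norm_mul, norm_kq, one_mul]; exact hu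
  have h1 : HasDerivAt (fun u : ℂ => 1 - kq η * u) (-kq η) u := by
    simpa using ((hasDerivAt_id u).const_mul (kq η)).const_sub 1
  have h2 : HasDerivAt (fun u : ℂ => 1 - u) (-1) u := by
    simpa using (hasDerivAt_id u).const_sub 1
  have h3 := h1.clog (Or.inl (re_pos_of hk))
  have h4 := h2.clog (Or.inl (re_pos_of hu))
  have h5 := (h3.sub h4).const_add (pt ξ η)
  have e : od η u = -kq η / (1 - kq η * u) - -1 / (1 - u) := by
    unfold od
    ring
  rw [e]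
  exact h5

theorem oo_zero (ξ η : ℝ) : oo ξ η 0 = pt ξ η := by simp [oo]

theorem oo_exp (ξ η : ℝ) {u : ℂ} (hu : ‖u‖ < 1) :
    Complex.exp (oo ξ η u) * (1 - u) = Complex.exp (pt ξ η) * (1 - kq η * u) := by
  unfold oo
  rw [Complex.exp_add, Complex.exp_sub, Complex.exp_log (one_sub_kq_ne hu),
    Complex.exp_log (one_sub_ne' hu)]
  have := one_sub_ne' hu
  field_simp

theorem od_zero (η : ℝ) : od η 0 = 1 - kq η := by
  simp [od]
  ring

theorem od_hasDerivAt (η : ℝ) : HasDerivAt (od η) (1 - kq η ^ 2) 0 := by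
  have h1 : HasDerivAt (fun u : ℂ => 1 - kq η * u) (-kq η) 0 := by
    simpa using ((hasDerivAt_id (0:ℂ)).const_mul (kq η)).const_sub 1
  have h2 : HasDerivAt (fun u : ℂ => 1 - u) (-1) 0 := by
    simpa using (hasDerivAt_id (0:ℂ)).const_sub 1
  have h3 := ((hasDerivAt_const (0:ℂ) (-kq η)).div h1 (by simp)).add
    ((hasDerivAt_const (0:ℂ) (1:ℂ)).div h2 (by simp))
  have e : 1 - kq η ^ 2 = (0 * (1 - kq η * 0) - -kq η * -kq η) / (1 - kq η * 0) ^ 2 +
      (0 * (1 - 0) - 1 * -1) / (1 - 0) ^ 2 := by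
    simp
    ring
  rw [e]
  exact h3

/-- `conj Z = kq Z` for `Z = exp (pt ξ η)` -/
theorem conj_exp_pt (ξ η : ℝ) :
    conj (Complex.exp (pt ξ η)) = kq η * Complex.exp (pt ξ η) := by
  have h1 : ((Real.cos η : ℂ) - (Real.sin η : ℂ) * I) * ((Real.cos η : ℂ) + (Real.sin η : ℂ) * I)
      = 1 := by
    have h2 : (Real.cos η : ℂ) ^ 2 + (Real.sin η : ℂ) ^ 2 = 1 := by
      exact_mod_cast Real.cos_sq_add_sin_sq η
    linear_combination h2 - (Real.sin η : ℂ) ^ 2 * I_sq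
  rw [exp_pt, kq_eq, map_mul, map_add, map_mul, conj_ofReal, conj_ofReal, conj_ofReal, conj_I]
  linear_combination -(Real.exp ξ : ℂ) * ((Real.cos η : ℂ) - (Real.sin η : ℂ) * I) * h1

/-- the image of the disc is the half plane -/
theorem oo_im {ξ η : ℝ} (h0 : 0 < η) (h1 : η < π) {u : ℂ} (hu : ‖u‖ < 1) :
    0 < (Complex.exp (oo ξ η u)).im := by
  have hs := Real.sin_pos_of_pos_of_lt_pi h0 h1
  set W := Complex.exp (oo ξ η u) with hW
  set Z := Complex.exp (pt ξ η) with hZ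
  have hE : W * (1 - u) = Z - conj Z * u := by
    rw [hW, hZ, oo_exp ξ η hu, conj_exp_pt]
    ring
  have hZi : Z.im = Real.exp ξ * Real.sin η := by rw [hZ, exp_pt_im]
  have hZp : 0 < Z.im := by
    rw [hZi]
    exact mul_pos (Real.exp_pos ξ) hs
  have hn : 0 < ‖1 - u‖ ^ 2 := by
    have := norm_pos_iff.mpr (one_sub_ne' hu)
    (clear * - this; positivity)
  have hu2 : ‖u‖ ^ 2 < 1 := by (clear * - hu; nlinarith only [norm_nonneg u, hu])
  have e1 : W.im * ‖1 - u‖ ^ 2 = Z.im * (1 - ‖u‖ ^ 2) := by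
    have e2 := congrArg (fun w : ℂ => (w * conj (1 - u)).im) hE
    rw [← Complex.normSq_eq_norm_sq, ← Complex.normSq_eq_norm_sq, Complex.normSq_apply,
      Complex.normSq_apply]
    simp only [mul_im, mul_re, sub_re, sub_im, conj_re, conj_im, one_re, one_im, map_sub,
      map_one] at e2 ⊢
    linear_combination e2
  by_contra hc
  push Not at hc
  (clear * - e1 hc hZp hu2; nlinarith only [hZp, hu2, e1, hc])

theorem I_add_exp_ne {ω : ℂ} (h : 0 < (Complex.exp ω).im) : I + Complex.exp ω ≠ 0 := by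
  intro h0
  have h1 := congrArg Complex.im h0
  simp only [add_im, I_im, zero_im] at h1
  linarith only [h, h1]

theorem zf_mem_of {ω : ℂ} (h : 0 < (Complex.exp ω).im) : zf ω ∈ ball (0:ℂ) 1 := by
  rw [mem_ball_zero_iff, zf, norm_div, div_lt_one (norm_pos_iff.mpr (I_add_exp_ne h))]
  have h2 : ‖I - Complex.exp ω‖ ^ 2 < ‖I + Complex.exp ω‖ ^ 2 := by
    rw [← Complex.normSq_eq_norm_sq, ← Complex.normSq_eq_norm_sq, Complex.normSq_apply,
      Complex.normSq_apply]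
    simp only [add_re, add_im, sub_re, sub_im, I_re, I_im]
    linarith only [h]
  exact lt_of_pow_lt_pow_left₀ 2 (norm_nonneg _) h2

/-- the distance estimate -/
theorem oo_ne {ξ η σ r : ℝ} (h0 : 0 < η) (h1 : η < π) (hσ : 0 < σ)
    (hr : 0 ≤ r) (hr1 : r * (Real.exp ξ + σ) ≤ |Real.exp ξ - σ|) {u : ℂ} (hu : ‖u‖ < r)
    (hu1 : ‖u‖ < 1) : Complex.exp (oo ξ η u) ≠ (σ : ℂ) * I := by
  have hs := Real.sin_pos_of_pos_of_lt_pi h0 h1
  have hy := Real.exp_pos ξ
  intro hc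
  have hE := oo_exp ξ η hu1
  rw [hc] at hE
  set Z := Complex.exp (pt ξ η) with hZ
  have hE2 : (conj Z - (σ : ℂ) * I) * u = Z - (σ : ℂ) * I := by
    rw [hZ, conj_exp_pt, ← hZ]
    linear_combination hE
  have hZr : Z.re = Real.exp ξ * Real.cos η := by rw [hZ, exp_pt_re]
  have hZi : Z.im = Real.exp ξ * Real.sin η := by rw [hZ, exp_pt_im]
  have e1 := congrArg (fun w : ℂ => ‖w‖ ^ 2) hE2
  simp only [norm_mul, mul_pow] at e1
  rw [← Complex.normSq_eq_norm_sq, ← Complex.normSq_eq_norm_sq (Z - _), Complex.normSq_apply,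
    Complex.normSq_apply] at e1
  simp only [mul_im, mul_re, sub_re, sub_im, conj_re, conj_im, I_re, I_im, ofReal_re,
    ofReal_im] at e1
  rw [hZr, hZi] at e1
  set y := Real.exp ξ with hyd
  set s := Real.sin η with hsd
  set c := Real.cos η with hcd
  have hsc : s ^ 2 + c ^ 2 = 1 := Real.sin_sq_add_cos_sq η
  have hs1 : s ≤ 1 := Real.sin_le_one η
  have e2 : (y ^ 2 + σ ^ 2 + 2 * y * σ * s) * ‖u‖ ^ 2 = y ^ 2 + σ ^ 2 - 2 * y * σ * s := by
    linear_combination e1 + (-(‖u‖ ^ 2) * y ^ 2 + y ^ 2) * hsc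
  have e3 : r ^ 2 * (y + σ) ^ 2 ≤ (y - σ) ^ 2 := by
    have := mul_nonneg hr (by linarith only [hσ, hy] : 0 ≤ y + σ)
    have h3 : (r * (y + σ)) ^ 2 ≤ |y - σ| ^ 2 := pow_le_pow_left₀ this hr1 2
    rw [sq_abs] at h3
    (clear * - h3; linarith only [h3])
  have e4 : ‖u‖ ^ 2 < r ^ 2 := pow_lt_pow_left₀ hu (norm_nonneg u) (by norm_num)
  have hyσ : 0 < y * σ := mul_pos hy hσ
  have e5 : 0 < y ^ 2 + σ ^ 2 + 2 * y * σ * s := by (clear * - hσ hs; positivity)
  have e6 : (y ^ 2 + σ ^ 2 - 2 * y * σ * s) * (y + σ) ^ 2 -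
      (y - σ) ^ 2 * (y ^ 2 + σ ^ 2 + 2 * y * σ * s) =
      4 * (y * σ) * (y ^ 2 + σ ^ 2) * (1 - s) := by ring
  have e7 : 0 ≤ 4 * (y * σ) * (y ^ 2 + σ ^ 2) * (1 - s) := by
    have : 0 ≤ 1 - s := by linarith only [hs1]
    (clear * - hσ hs1; positivity)
  have e8 : 0 < (y + σ) ^ 2 := by positivity
  have e9 : ‖u‖ ^ 2 * (y + σ) ^ 2 * (y ^ 2 + σ ^ 2 + 2 * y * σ * s) <
      r ^ 2 * (y + σ) ^ 2 * (y ^ 2 + σ ^ 2 + 2 * y * σ * s) := by
    apply mul_lt_mul_of_pos_right _ e5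
    exact mul_lt_mul_of_pos_right e4 e8
  have e10 : r ^ 2 * (y + σ) ^ 2 * (y ^ 2 + σ ^ 2 + 2 * y * σ * s) ≤
      (y - σ) ^ 2 * (y ^ 2 + σ ^ 2 + 2 * y * σ * s) := mul_le_mul_of_nonneg_right e3 e5.le
  have e11 : ‖u‖ ^ 2 * (y + σ) ^ 2 * (y ^ 2 + σ ^ 2 + 2 * y * σ * s) =
      (y ^ 2 + σ ^ 2 - 2 * y * σ * s) * (y + σ) ^ 2 := by
    linear_combination (y + σ) ^ 2 * e2
  (clear * - e7 e9 e10 e11; linarith)

/-- **Koebe and Bieberbach at all points of the strip** -/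
theorem bieb_strip {β : ℂ → ℂ} {R : ℝ} (h : ExtR β R) {a : ℝ} (ha : 0 < a) (ha1 : a < 1)
    {ξ η : ℝ} (h1 : Real.log (tau a) < ξ) (h2 : ξ < 0) (h3 : 0 < η) (h4 : η < π) {r : ℝ}
    (hr : 0 < r) (hr1 : r * (1 + Real.exp ξ) ≤ 1 - Real.exp ξ)
    (hr2 : r * (Real.exp ξ + tau a) ≤ Real.exp ξ - tau a) {X Y : ℂ}
    (hX : X = Xf β a (pt ξ η)) (hY : Y = deriv (Xf β a) (pt ξ η)) :
    Real.sin η * ‖X‖ * r ≤ 1 ∧
    ‖(1 + e0 (Real.sin η) (Real.cos η)) * (2 * X - 1 + Y / X) + 2‖ * r ≤ 4 ∧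
    ‖(1 + e0 (Real.sin η) (Real.cos η)) * (-2 * X - 1 + Y / X) + 2‖ * r ≤ 4 := by
  have hτ : 0 < tau a := by
    unfold tau
    have : 0 < 1 - a := by linarith
    (clear * - ha1 ha; positivity)
  have hs := Real.sin_pos_of_pos_of_lt_pi h3 h4
  have hy := Real.exp_pos ξ
  have hyτ : tau a < Real.exp ξ := (Real.log_lt_iff_lt_exp hτ).mp h1
  have hy1 : Real.exp ξ < 1 := by
    rw [← Real.exp_zero]
    exact Real.exp_lt_exp.mpr h2
  have hrlt : r < 1 := by
    by_contra hc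
    push Not at hc
    (clear * - hr2 hτ hc hyτ; nlinarith only [hr2, hτ, hyτ, hc])
  have hat : a = (1 - tau a) / (1 + tau a) := by
    unfold tau
    field_simp
    ring
  have haB : (a : ℂ) ∈ ball (0:ℂ) 1 := by
    rw [mem_ball_zero_iff, Complex.norm_real, Real.norm_of_nonneg ha.le]
    exact ha1
  have ha0 : (a : ℂ) ≠ 0 := by exact_mod_cast ha.ne'
  have hlt : ∀ u ∈ ball (0:ℂ) r, ‖u‖ < 1 := by
    intro u hu
    rw [mem_ball_zero_iff] at hu
    (clear * - hrlt hu; linarith)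
  have him : ∀ u ∈ ball (0:ℂ) r, 0 < (Complex.exp (oo ξ η u)).im := fun u hu =>
    oo_im h3 h4 (hlt u hu)
  have hmem : ∀ u ∈ ball (0:ℂ) r, zf (oo ξ η u) ∈ ball (0:ℂ) 1 := fun u hu =>
    zf_mem_of (him u hu)
  have hne0 : ∀ u ∈ ball (0:ℂ) r, zf (oo ξ η u) ≠ 0 := by
    intro u hu h0
    have hu' := hu
    rw [mem_ball_zero_iff] at hu'
    rw [zf, div_eq_zero_iff] at h0
    rcases h0 with h0 | h0
    · refine oo_ne (ξ := ξ) (σ := 1) h3 h4 one_pos hr.le ?_ hu' (hlt u hu) ?_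
      · rw [abs_of_neg (by linarith)]
        linarith
      · rw [ofReal_one, one_mul]
        linear_combination -h0
    · exact I_add_exp_ne (him u hu) h0
  have hnea : ∀ u ∈ ball (0:ℂ) r, zf (oo ξ η u) ≠ a := by
    intro u hu h0
    have hu' := hu
    rw [mem_ball_zero_iff] at hu'
    rw [zf, div_eq_iff (I_add_exp_ne (him u hu))] at h0
    refine oo_ne (ξ := ξ) (σ := tau a) h3 h4 hτ hr.le ?_ hu' (hlt u hu) ?_
    · rw [abs_of_pos (by (clear * - hyτ; linarith))]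
      (clear * - hr2; linarith)
    · have e1 : (1 + (a : ℂ)) * Complex.exp (oo ξ η u) = (1 - a) * I := by
        linear_combination -h0
      have e2 : (1 + (a : ℂ)) ≠ 0 := by
        have : (1 + a : ℝ) ≠ 0 := by positivity
        exact_mod_cast this
      have e3 : ((tau a : ℝ) : ℂ) = (1 - a) / (1 + a) := by
        unfold tau
        push_cast
        rfl
      rw [e3, div_mul_eq_mul_div, eq_div_iff e2]
      linear_combination e1
  set G : ℂ → ℂ := fun u => phi β (zf (oo ξ η u)) - phi β a with hG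
  set B : ℂ → ℂ := fun u => 2 * Xf β a (oo ξ η u) * od η u with hB
  have hGne : ∀ u ∈ ball (0:ℂ) r, G u ≠ 0 := by
    intro u hu h0
    exact hnea u hu (h.toExt.inj _ _ (hmem u hu) haB (hne0 u hu) ha0 (sub_eq_zero.mp h0))
  have hGi : InjOn G (ball 0 r) := by
    intro u hu v hv huv
    have e1 : phi β (zf (oo ξ η u)) = phi β (zf (oo ξ η v)) := by
      have : phi β (zf (oo ξ η u)) - phi β a = phi β (zf (oo ξ η v)) - phi β a := huv
      linear_combination this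
    have e2 := h.toExt.inj _ _ (hmem u hu) (hmem v hv) (hne0 u hu) (hne0 v hv) e1
    have e3 : Complex.exp (oo ξ η u) = Complex.exp (oo ξ η v) := by
      unfold zf at e2
      rw [div_eq_div_iff (I_add_exp_ne (him u hu)) (I_add_exp_ne (him v hv))] at e2
      have e4 : (Complex.exp (oo ξ η u) - Complex.exp (oo ξ η v)) * (2 * I) = 0 := by
        linear_combination -e2
      rcases mul_eq_zero.mp e4 with e4 | e4
      · linear_combination e4
      · exact absurd e4 (by simp)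
    have u1 := oo_exp ξ η (hlt u hu)
    have v1 := oo_exp ξ η (hlt v hv)
    rw [e3] at u1
    have e5 : Complex.exp (pt ξ η) * ((kq η - 1) * (u - v)) = 0 := by
      linear_combination (1 - v) * u1 - (1 - u) * v1
    rcases mul_eq_zero.mp e5 with e6 | e6
    · exact absurd e6 (Complex.exp_ne_zero _)
    · rcases mul_eq_zero.mp e6 with e7 | e7
      · exact absurd (by linear_combination e7) (kq_ne_one h3 h4)
      · linear_combination e7
  have hGd : ∀ u ∈ ball (0:ℂ) r, HasDerivAt G (G u * B u) u := by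
    intro u hu
    have d1 := oo_hasDerivAt ξ η (hlt u hu)
    have d2 := (Pool.Agent.Helper97.EK.hasDerivAt_zf (I_add_exp_ne (him u hu))).comp u d1
    have d3 := (hasDerivAt_phi h.toExt.diff (hmem u hu) (hne0 u hu)).comp u d2
    have d4 := d3.sub_const (phi β a)
    have e : G u * B u = dphi β (zf (oo ξ η u)) * (zd (oo ξ η u) * od η u) := by
      have := hGne u hu
      simp only [hG] at this
      simp only [hG, hB]
      unfold Xf
      (clear * - this; field_simp)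
    rw [e]
    exact d4
  obtain ⟨x₁, hx₁, hx₁'⟩ := exists_between h1
  obtain ⟨x₂, hx₂, hx₂'⟩ := exists_between h2
  have hN := E1c h ha ha1 hx₁ hx₂'
  have hω0 : pt ξ η ∈ Rect x₁ x₂ := by
    unfold Rect
    rw [Complex.mem_reProdIm]
    have e1 : (pt ξ η).re = ξ := by simp [pt]
    have e2 : (pt ξ η).im = η := by simp [pt]
    rw [e1, e2]
    exact ⟨⟨hx₁'.le, hx₂.le⟩, ⟨h3.le, h4.le⟩⟩
  have hXa : AnalyticAt ℂ (Xf β a) (pt ξ η) := hN.an _ hω0
  have hX0 : X ≠ 0 := by rw [hX]; exact hN.ne _ hω0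
  have hz1 : ‖(0:ℂ)‖ < 1 := by simp
  have hBd : HasDerivAt B (2 * (Y * od η 0) * od η 0 + 2 * X * (1 - kq η ^ 2)) 0 := by
    have d1 := oo_hasDerivAt ξ η hz1
    have d2 : HasDerivAt (Xf β a) Y (oo ξ η 0) := by
      rw [oo_zero, hY]
      exact hXa.differentiableAt.hasDerivAt
    have d3 := ((d2.comp (0:ℂ) d1).const_mul 2).mul (od_hasDerivAt η)
    have e : 2 * (Y * od η 0) * od η 0 + 2 * X * (1 - kq η ^ 2) =
        2 * (Y * od η 0) * od η 0 + 2 * (Xf β a ∘ oo ξ η) 0 * (1 - kq η ^ 2) := by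
      rw [Function.comp_apply, oo_zero, hX]
    rw [e]
    exact d3
  obtain ⟨k1, k2, k3⟩ := univ_log hr hGi hGne hGd hBd
  have hB0 : B 0 = 2 * X * (1 - kq η) := by
    simp only [hB]
    rw [oo_zero, od_zero, hX]
  have hkn : ‖1 - kq η‖ = 2 * Real.sin η := by
    have e1 : 1 - kq η = (2 * Real.sin η : ℝ) * ((Real.sin η : ℂ) + (Real.cos η : ℂ) * I) := by
      rw [kq_eq]
      push_cast
      have h5 : Complex.cos η ^ 2 + Complex.sin η ^ 2 = 1 := Complex.cos_sq_add_sin_sq _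
      linear_combination -h5 - Complex.sin η ^ 2 * I_sq
    have e2 : ‖(Real.sin η : ℂ) + (Real.cos η : ℂ) * I‖ = 1 := by
      have e3 : ‖(Real.sin η : ℂ) + (Real.cos η : ℂ) * I‖ ^ 2 = 1 := by
        rw [← Complex.normSq_eq_norm_sq, Complex.normSq_apply]
        simp only [add_re, add_im, mul_re, mul_im, ofReal_re, ofReal_im, I_re, I_im, mul_zero,
          mul_one, sub_zero, add_zero, zero_add]
        linarith only [Real.sin_sq_add_cos_sq η]
      have e4 := norm_nonneg ((Real.sin η : ℂ) + (Real.cos η : ℂ) * I)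
      (clear * - e3 e4; nlinarith only [e3, e4])
    rw [e1, norm_mul, e2, mul_one, Complex.norm_real, Real.norm_of_nonneg (by positivity)]
  have hke : 1 + e0 (Real.sin η) (Real.cos η) = 1 - kq η := by
    unfold kq
    ring
  have hXn : 0 < ‖X‖ := norm_pos_iff.mpr hX0
  have hBn : ‖B 0‖ = 4 * (Real.sin η * ‖X‖) := by
    rw [hB0, norm_mul, norm_mul, hkn]
    have : ‖(2:ℂ)‖ = 2 := by simp
    rw [this]
    ring
  have hBp : 0 < ‖B 0‖ := by
    rw [hBn]
    positivity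
  refine ⟨?_, ?_, ?_⟩
  · rw [hBn] at k1
    linarith only [k1]
  · have e : 2 * (Y * od η 0) * od η 0 + 2 * X * (1 - kq η ^ 2) + B 0 ^ 2 =
        B 0 * ((1 - kq η) * (2 * X - 1 + Y / X) + 2) := by
      rw [hB0, od_zero]
      field_simp
      ring
    rw [e, norm_mul] at k2
    rw [hke]
    have : ‖B 0‖ * (‖(1 - kq η) * (2 * X - 1 + Y / X) + 2‖ * r) ≤ ‖B 0‖ * 4 := by linarith only [k2]
    exact le_of_mul_le_mul_left this hBp
  · have e : 2 * (Y * od η 0) * od η 0 + 2 * X * (1 - kq η ^ 2) - B 0 ^ 2 =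
        B 0 * ((1 - kq η) * (-2 * X - 1 + Y / X) + 2) := by
      rw [hB0, od_zero]
      field_simp
      ring
    rw [e, norm_mul] at k3
    rw [hke]
    have : ‖B 0‖ * (‖(1 - kq η) * (-2 * X - 1 + Y / X) + 2‖ * r) ≤ ‖B 0‖ * 4 := by linarith only [k3]
    exact le_of_mul_le_mul_left this hBp

end Pool.Agent.Helper69.EK3

end

section

namespace Pool.Agent.Helper39.Area
end Pool.Agent.Helper39.Area
namespace Pool.Agent.Helper52.EK
end Pool.Agent.Helper52.EK
namespace Pool.Agent.Helper70.EK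
end Pool.Agent.Helper70.EK

set_option autoImplicit false

open Complex MeasureTheory Metric Set

open scoped Real ComplexConjugate

namespace Pool.Agent.Helper83.EK

open Pool.Agent.Helper39.Area Pool.Agent.Helper52.EK Pool.Agent.Helper70.EK

theorem integrableOn_rect {F : ℝ × ℝ → ℝ} {x₁ x₂ : ℝ}
    (hc : ContinuousOn F (Icc x₁ x₂ ×ˢ Icc 0 π)) :
    IntegrableOn F (Ioc x₁ x₂ ×ˢ Ioo 0 π) :=
  (hc.integrableOn_compact (isCompact_Icc.prod isCompact_Icc)).mono_set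
    (prod_mono Ioc_subset_Icc_self Ioo_subset_Icc_self)

/-- comparison of the energies: `∬ F₁ ≤ p ∬ F₂ + q ∬ F₃` -/
theorem II_le3 {F₁ F₂ F₃ : ℝ → ℝ → ℝ} {x₁ x₂ p q : ℝ} (h : x₁ ≤ x₂)
    (c₁ : ContinuousOn (fun v : ℝ × ℝ => F₁ v.1 v.2) (Icc x₁ x₂ ×ˢ Icc 0 π))
    (c₂ : ContinuousOn (fun v : ℝ × ℝ => F₂ v.1 v.2) (Icc x₁ x₂ ×ˢ Icc 0 π))
    (c₃ : ContinuousOn (fun v : ℝ × ℝ => F₃ v.1 v.2) (Icc x₁ x₂ ×ˢ Icc 0 π))
    (hle : ∀ ξ η : ℝ, F₁ ξ η ≤ p * F₂ ξ η + q * F₃ ξ η) :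
    II x₁ x₂ F₁ ≤ p * II x₁ x₂ F₂ + q * II x₁ x₂ F₃ := by
  have i₁ := integrableOn_rect c₁
  have i₂ := integrableOn_rect c₂
  have i₃ := integrableOn_rect c₃
  rw [II_eq h i₁, II_eq h i₂, II_eq h i₃, ← integral_const_mul, ← integral_const_mul,
    ← integral_add (i₂.const_mul p) (i₃.const_mul q)]
  exact setIntegral_mono_on i₁ ((i₂.const_mul p).add (i₃.const_mul q))
    (measurableSet_Ioc.prod measurableSet_Ioo) (fun v _ => hle v.1 v.2)

theorem II_nonneg {F : ℝ → ℝ → ℝ} {x₁ x₂ : ℝ} (h : x₁ ≤ x₂) (hF : ∀ ξ η : ℝ, 0 ≤ F ξ η) :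
    0 ≤ II x₁ x₂ F := by
  unfold II
  apply intervalIntegral.integral_nonneg h
  intro ξ _
  exact intervalIntegral.integral_nonneg Real.pi_pos.le (fun η _ => hF ξ η)

theorem pt_mapsTo (x₁ x₂ : ℝ) :
    MapsTo (fun p : ℝ × ℝ => pt p.1 p.2) (Icc x₁ x₂ ×ˢ Icc 0 π) (Rect x₁ x₂) := by
  rintro ⟨ξ, η⟩ ⟨hξ, hη⟩
  change pt ξ η ∈ Rect x₁ x₂
  unfold Rect
  rw [Complex.mem_reProdIm]
  have e1 : (pt ξ η).re = ξ := by simp [pt]
  have e2 : (pt ξ η).im = η := by simp [pt]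
  rw [e1, e2]
  exact ⟨hξ, hη⟩

theorem tau_pos {a : ℝ} (ha : 0 < a) (ha1 : a < 1) : 0 < tau a := by
  unfold tau
  exact div_pos (by (clear * - ha1; linarith only [ha1])) (by (clear * - ha; linarith only [ha]))

theorem kap_contOn {a x₁ x₂ : ℝ} (ha : 0 < a) (ha1 : a < 1) (h1 : Real.log (tau a) < x₁)
    (h2 : x₂ < 0) :
    ContinuousOn (fun v : ℝ × ℝ => kap a (pt v.1 v.2)) (Icc x₁ x₂ ×ˢ Icc 0 π) := by
  have ht := tau_pos ha ha1
  have hE : Continuous (fun v : ℝ × ℝ => Complex.exp (pt v.1 v.2)) :=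
    Complex.continuous_exp.comp continuous_pt
  unfold kap
  apply ContinuousOn.div
  · exact ((hE.pow 2).mul continuous_const).continuousOn
  · exact (((hE.pow 2).add continuous_const).mul ((hE.pow 2).add continuous_const)).continuousOn
  · rintro ⟨ξ, η⟩ ⟨hξ, _⟩
    have hξ1 : x₁ ≤ ξ := hξ.1
    have hξ2 : ξ ≤ x₂ := hξ.2
    have hn : ‖Complex.exp (pt ξ η)‖ = Real.exp ξ := by
      rw [Complex.norm_exp]
      simp [pt]
    have h3 : tau a < Real.exp ξ := by
      rw [← Real.exp_log ht]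
      exact Real.exp_lt_exp.mpr (by linarith only [h1, hξ1])
    have h4 : Real.exp ξ < 1 := by
      rw [← Real.exp_zero]
      exact Real.exp_lt_exp.mpr (by (clear * - h2 hξ2; linarith))
    have h5 := Real.exp_pos ξ
    apply mul_ne_zero
    · intro h
      have h6 : Complex.exp (pt ξ η) ^ 2 = -((tau a : ℂ) ^ 2) := by linear_combination h
      have h7 : ‖Complex.exp (pt ξ η) ^ 2‖ = tau a ^ 2 := by
        rw [h6, norm_neg, norm_pow, Complex.norm_real, Real.norm_eq_abs, abs_of_pos ht]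
      rw [norm_pow, hn] at h7
      nlinarith only [ht, h3, h7]
    · intro h
      have h6 : Complex.exp (pt ξ η) ^ 2 = -1 := by linear_combination h
      have h7 : ‖Complex.exp (pt ξ η) ^ 2‖ = 1 := by
        rw [h6, norm_neg, norm_one]
      rw [norm_pow, hn] at h7
      (clear * - h4 h7 h5; nlinarith only [h4, h5, h7])

/-- the threshold: the two halves of the strip are far apart for `a` close to one -/
theorem tau_far {a A : ℝ} (ha : 1 - Real.exp (-2 * A) < a) (ha0 : 0 < a) (ha1 : a < 1) :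
    Real.log (tau a) + A ≤ -A := by
  have ht := tau_pos ha0 ha1
  have h1 : tau a ≤ Real.exp (-2 * A) := by
    unfold tau
    rw [div_le_iff₀ (by (clear * - ha0; linarith only [ha0]))]
    have := Real.exp_pos (-2 * A)
    (clear * - ha0 ha1 ha; nlinarith only [ha, ha0, ha1])
  have h2 : Real.log (tau a) ≤ -2 * A := by
    rw [Real.log_le_iff_le_exp ht]
    exact h1
  (clear * - h2; linarith)

end Pool.Agent.Helper83.EK

end

section

namespace Pool.Agent.Helper39.Area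
end Pool.Agent.Helper39.Area
namespace Pool.Agent.Helper52.EK
end Pool.Agent.Helper52.EK

set_option autoImplicit false

open Complex MeasureTheory Metric Set

open scoped Real ComplexConjugate

namespace Pool.Agent.Helper69.EK3

open Pool.Agent.Helper39.Area Pool.Agent.Helper52.EK

theorem exp_int (a b : ℝ) : ∫ ξ in a..b, Real.exp ξ = Real.exp b - Real.exp a :=
  integral_exp

theorem e0_neg (s c : ℝ) : e0 s (-c) = conj (e0 s c) := by
  unfold e0
  simp only [map_neg, map_pow, map_sub, map_mul, conj_ofReal, conj_I, ofReal_neg]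
  ring

theorem mX_conj (X Y : ℂ) (s c : ℝ) : mX (conj X) (conj Y) s c = conj (mX X Y s (-c)) := by
  unfold mX
  rw [e0_neg]
  simp only [map_sub, map_mul, map_add, map_div₀, map_one, map_ofNat, Complex.conj_conj]

end Pool.Agent.Helper69.EK3

end

section

namespace Pool.Agent.Helper39.Area
end Pool.Agent.Helper39.Area
namespace Pool.Agent.Helper52.EK
end Pool.Agent.Helper52.EK

set_option autoImplicit false

open Complex MeasureTheory Metric Set

open scoped Real ComplexConjugate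

namespace Pool.Agent.Helper69.EK3

open Pool.Agent.Helper39.Area Pool.Agent.Helper52.EK

/-- the expression `(1+e₀)(σ 2X - 1 + X'/X) + 2`, `σ = ±1` -/
noncomputable def dA (σ : ℝ) (X Y : ℂ) (s c : ℝ) : ℂ :=
  (1 + e0 s c) * ((σ : ℂ) * (2 * X) - 1 + Y / X) + 2

/-- the bounds of Koebe and Bieberbach with an integrable error -/
def DiscP (X : ℂ → ℂ) (x₁ x₂ : ℝ) : Prop :=
  ∃ δ : ℝ → ℝ, Continuous δ ∧ (∀ ξ, 0 ≤ δ ξ) ∧ (∀ ξ ∈ Icc x₁ x₂, δ ξ ≤ 8) ∧
    (∫ ξ in x₁..x₂, δ ξ ≤ 8) ∧ ∀ ξ ∈ Icc x₁ x₂, ∀ η ∈ Icc (0:ℝ) (π / 2),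
      Real.sin η * ‖X (pt ξ η)‖ ≤ 1 + δ ξ ∧
      ‖dA 1 (X (pt ξ η)) (deriv X (pt ξ η)) (Real.sin η) (Real.cos η)‖ ≤ 4 * (1 + δ ξ) ∧
      ‖dA (-1) (X (pt ξ η)) (deriv X (pt ξ η)) (Real.sin η) (Real.cos η)‖ ≤ 4 * (1 + δ ξ)

theorem norm_one_add_e0 {η : ℝ} (hs : 0 ≤ Real.sin η) :
    ‖1 + e0 (Real.sin η) (Real.cos η)‖ = 2 * Real.sin η := by
  have e1 : 1 + e0 (Real.sin η) (Real.cos η) =
      (2 * Real.sin η : ℝ) * ((Real.sin η : ℂ) + (Real.cos η : ℂ) * I) := by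
    unfold e0
    push_cast
    have h5 : Complex.cos η ^ 2 + Complex.sin η ^ 2 = 1 := Complex.cos_sq_add_sin_sq _
    linear_combination -h5 - Complex.sin η ^ 2 * I_sq
  have e2 : ‖(Real.sin η : ℂ) + (Real.cos η : ℂ) * I‖ = 1 := by
    have e3 : ‖(Real.sin η : ℂ) + (Real.cos η : ℂ) * I‖ ^ 2 = 1 := by
      rw [← Complex.normSq_eq_norm_sq, Complex.normSq_apply]
      simp only [add_re, add_im, mul_re, mul_im, ofReal_re, ofReal_im, I_re, I_im, mul_zero,
        mul_one, sub_zero, add_zero, zero_add]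
      linarith only [Real.sin_sq_add_cos_sq η]
    have e4 := norm_nonneg ((Real.sin η : ℂ) + (Real.cos η : ℂ) * I)
    nlinarith only [e3, e4]
  rw [e1, norm_mul, e2, mul_one, Complex.norm_real, Real.norm_of_nonneg (by (clear * - hs; positivity))]

/-- the bound of `q = X'/X` in the class -/
theorem sin_q_le {X Y : ℂ} {η d : ℝ} (hs : 0 ≤ Real.sin η) (hd : d ≤ 8)
    (h1 : Real.sin η * ‖X‖ ≤ 1 + d)
    (h2 : ‖dA 1 X Y (Real.sin η) (Real.cos η)‖ ≤ 4 * (1 + d)) :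
    Real.sin η * ‖Y / X‖ ≤ 38 := by
  have hn := norm_one_add_e0 hs
  have hs1 : Real.sin η ≤ 1 := Real.sin_le_one η
  set E := 1 + e0 (Real.sin η) (Real.cos η) with hE
  have e : E * (Y / X) = dA 1 X Y (Real.sin η) (Real.cos η) - 2 - E * (2 * X) + E := by
    unfold dA
    rw [← hE]
    push_cast
    ring
  have h3 : ‖E * (Y / X)‖ ≤ 4 * (1 + d) + 2 + 2 * Real.sin η * (2 * ‖X‖) + 2 * Real.sin η := by
    rw [e]
    have a1 := norm_add_le (dA 1 X Y (Real.sin η) (Real.cos η) - 2 - E * (2 * X)) E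
    have a2 := norm_sub_le (dA 1 X Y (Real.sin η) (Real.cos η) - 2) (E * (2 * X))
    have a3 := norm_sub_le (dA 1 X Y (Real.sin η) (Real.cos η)) 2
    have a4 : ‖(2:ℂ)‖ = 2 := by simp
    rw [norm_mul E, norm_mul (2:ℂ), a4, hn] at a2
    rw [a4] at a3
    rw [hn] at a1
    (clear * - h2 a1 a2 a3; linarith only [h2, a1, a2, a3])
  rw [norm_mul, hn] at h3
  linarith only [hd, h1, hs1, h3]

theorem DiscP.q_le (X : ℂ → ℂ) (x₁ x₂ : ℝ) (_hx : x₁ ≤ x₂) (_hX : NiceH X x₁ x₂)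
    (h : DiscP X x₁ x₂) : ∀ ξ ∈ Icc x₁ x₂, ∀ η ∈ Icc (0:ℝ) (π / 2),
      Real.sin η * ‖deriv X (pt ξ η) / X (pt ξ η)‖ ≤ 38 := by
  obtain ⟨δ, _, _, h3, _, h5⟩ := h
  intro ξ hξ η hη
  have hs : 0 ≤ Real.sin η := Real.sin_nonneg_of_nonneg_of_le_pi hη.1
    (hη.2.trans (by (clear * -; linarith only [Real.pi_pos])))
  obtain ⟨k1, k2, _⟩ := h5 ξ hξ η hη
  exact sin_q_le hs (h3 ξ hξ) k1 k2

theorem DiscP.X_le (X : ℂ → ℂ) (x₁ x₂ : ℝ) (_hx : x₁ ≤ x₂) (_hX : NiceH X x₁ x₂)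
    (h : DiscP X x₁ x₂) : ∀ ξ ∈ Icc x₁ x₂, ∀ η ∈ Icc (0:ℝ) (π / 2),
      Real.sin η * ‖X (pt ξ η)‖ ≤ 9 := by
  obtain ⟨δ, _, _, h3, _, h5⟩ := h
  intro ξ hξ η hη
  obtain ⟨k1, _, _⟩ := h5 ξ hξ η hη
  linarith only [h3 ξ hξ, k1]

/-- the bounds for `Xf`, on the whole strip -/
theorem disc_Xf {β : ℂ → ℂ} {R a : ℝ} (h : ExtR β R) (ha : 0 < a) (ha1 : a < 1) {ξ η : ℝ}
    (h1 : Real.log (tau a) + 1 ≤ ξ) (h2 : ξ ≤ -1) (h3 : 0 ≤ η) (h4 : η ≤ π) :
    Real.sin η * ‖Xf β a (pt ξ η)‖ ≤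
      1 + (4 * Real.exp ξ + 4 * Real.exp (Real.log (tau a) - ξ)) ∧
    ‖dA 1 (Xf β a (pt ξ η)) (deriv (Xf β a) (pt ξ η)) (Real.sin η) (Real.cos η)‖ ≤
      4 * (1 + (4 * Real.exp ξ + 4 * Real.exp (Real.log (tau a) - ξ))) ∧
    ‖dA (-1) (Xf β a (pt ξ η)) (deriv (Xf β a) (pt ξ η)) (Real.sin η) (Real.cos η)‖ ≤
      4 * (1 + (4 * Real.exp ξ + 4 * Real.exp (Real.log (tau a) - ξ))) := by
  have hy0 := Real.exp_pos ξ
  have hq0 := Real.exp_pos (Real.log (tau a) - ξ)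
  rcases eq_or_lt_of_le h3 with h5 | h5
  · subst h5
    have e : dA 1 (Xf β a (pt ξ 0)) (deriv (Xf β a) (pt ξ 0)) (Real.sin 0) (Real.cos 0) = 2 := by
      simp [dA, e0]
    have e' : dA (-1) (Xf β a (pt ξ 0)) (deriv (Xf β a) (pt ξ 0)) (Real.sin 0) (Real.cos 0) =
        2 := by
      simp [dA, e0]
    have e4 : ‖(2:ℂ)‖ = 2 := by simp
    rw [e, e', e4, Real.sin_zero, zero_mul]
    refine ⟨by linarith only [hy0, hq0], by linarith only [hy0, hq0], by linarith only [hy0, hq0]⟩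
  rcases eq_or_lt_of_le h4 with h6 | h6
  · subst h6
    have e : dA 1 (Xf β a (pt ξ π)) (deriv (Xf β a) (pt ξ π)) (Real.sin π) (Real.cos π) = 2 := by
      simp [dA, e0]
    have e' : dA (-1) (Xf β a (pt ξ π)) (deriv (Xf β a) (pt ξ π)) (Real.sin π) (Real.cos π) =
        2 := by
      simp [dA, e0]
    have e4 : ‖(2:ℂ)‖ = 2 := by simp
    rw [e, e', e4, Real.sin_pi, zero_mul]
    refine ⟨by (clear * - hy0 hq0; linarith only [hy0, hq0]), by (clear * - ha ha1 hy0 hq0; linarith), by linarith⟩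
  have hτ : 0 < tau a := by
    unfold tau
    have : 0 < 1 - a := by linarith
    (clear * - ha1 ha; positivity)
  have hhalf : Real.exp (-1) ≤ 1 / 2 := by
    have h9 : Real.exp (-1) < 0.3678794412 := Real.exp_neg_one_lt_d9
    (clear * - h9; linarith only [h9])
  have hy : Real.exp ξ ≤ 1 / 2 := (Real.exp_le_exp.mpr h2).trans hhalf
  have hq : Real.exp (Real.log (tau a) - ξ) ≤ 1 / 2 :=
    (Real.exp_le_exp.mpr (by linarith only [h1])).trans hhalf
  have hτe : tau a = Real.exp ξ * Real.exp (Real.log (tau a) - ξ) := by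
    rw [← Real.exp_add, add_sub_cancel, Real.exp_log hτ]
  obtain ⟨δ, hδ⟩ : ∃ δ, δ = 4 * Real.exp ξ + 4 * Real.exp (Real.log (tau a) - ξ) := ⟨_, rfl⟩
  have hδ0 : 0 < δ := by rw [hδ]; (clear * -; positivity)
  have hr : 0 < (1 + δ)⁻¹ := by (clear * - hδ0; positivity)
  have hk := bieb_strip h ha ha1 (ξ := ξ) (η := η) (by linarith only [h1]) (by linarith only [h2]) h5 h6 hr
    (by
      rw [inv_mul_le_iff₀ (by linarith only [hδ0]), hδ]
      (clear * - hq0 hy0 hy; nlinarith only [hy0, hq0, hy]))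
    (by
      rw [inv_mul_le_iff₀ (by linarith only [hδ0])]
      have e1 : Real.exp ξ + tau a = Real.exp ξ * (1 + Real.exp (Real.log (tau a) - ξ)) := by
        nth_rewrite 1 [hτe]
        ring
      have e2 : Real.exp ξ - tau a = Real.exp ξ * (1 - Real.exp (Real.log (tau a) - ξ)) := by
        nth_rewrite 1 [hτe]
        ring
      rw [e1, e2]
      have e3 : 1 + Real.exp (Real.log (tau a) - ξ) ≤
          (1 + δ) * (1 - Real.exp (Real.log (tau a) - ξ)) := by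
        rw [hδ]
        (clear * - hq0 hq hy0; nlinarith only [hy0, hq0, hq])
      calc Real.exp ξ * (1 + Real.exp (Real.log (tau a) - ξ)) ≤
            Real.exp ξ * ((1 + δ) * (1 - Real.exp (Real.log (tau a) - ξ))) :=
            mul_le_mul_of_nonneg_left e3 hy0.le
        _ = (1 + δ) * (Real.exp ξ * (1 - Real.exp (Real.log (tau a) - ξ))) := by ring)
    rfl rfl
  obtain ⟨k1, k2, k3⟩ := hk
  rw [← hδ]
  have hp : 0 < 1 + δ := by linarith only [hδ0]
  refine ⟨?_, ?_, ?_⟩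
  · rwa [← div_eq_mul_inv, div_le_iff₀ hp, one_mul] at k1
  · rw [← div_eq_mul_inv, div_le_iff₀ hp] at k2
    have e : dA 1 (Xf β a (pt ξ η)) (deriv (Xf β a) (pt ξ η)) (Real.sin η) (Real.cos η) =
        (1 + e0 (Real.sin η) (Real.cos η)) * (2 * Xf β a (pt ξ η) - 1 +
          deriv (Xf β a) (pt ξ η) / Xf β a (pt ξ η)) + 2 := by
      unfold dA
      push_cast
      ring
    rw [e]
    exact k2
  · rw [← div_eq_mul_inv, div_le_iff₀ hp] at k3
    have e : dA (-1) (Xf β a (pt ξ η)) (deriv (Xf β a) (pt ξ η)) (Real.sin η) (Real.cos η) =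
        (1 + e0 (Real.sin η) (Real.cos η)) * (-2 * Xf β a (pt ξ η) - 1 +
          deriv (Xf β a) (pt ξ η) / Xf β a (pt ξ η)) + 2 := by
      unfold dA
      push_cast
      ring
    rw [e]
    exact k3

theorem dA_mir (σ : ℝ) (X Y : ℂ) (s c : ℝ) :
    dA σ (conj X) (conj Y) s c = conj (dA σ X Y s (-c)) := by
  unfold dA
  rw [e0_neg]
  simp only [map_add, map_sub, map_mul, map_div₀, map_one, map_ofNat, Complex.conj_conj,
    conj_ofReal]

/-- `Xf` and its mirror image are in the class -/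
theorem discP_Xf (β : ℂ → ℂ) (R a : ℝ) (h : ExtR β R) (ha : 0 < a) (ha1 : a < 1)
    (_hx : Real.log (tau a) + 1 ≤ -1) : DiscP (Xf β a) (Real.log (tau a) + 1) (-1) ∧
      DiscP (mir (Xf β a)) (Real.log (tau a) + 1) (-1) := by
  have hc : Continuous (fun ξ : ℝ => 4 * Real.exp ξ + 4 * Real.exp (Real.log (tau a) - ξ)) := by
    fun_prop
  have h0 : ∀ ξ : ℝ, 0 ≤ 4 * Real.exp ξ + 4 * Real.exp (Real.log (tau a) - ξ) := fun ξ => by
    (clear * -; positivity)
  have h8 : ∀ ξ ∈ Icc (Real.log (tau a) + 1) (-1),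
      4 * Real.exp ξ + 4 * Real.exp (Real.log (tau a) - ξ) ≤ 8 := by
    intro ξ hξ
    have h1 : Real.exp ξ ≤ 1 := Real.exp_le_one_iff.2 (by linarith only [hξ.2])
    have h2 : Real.exp (Real.log (tau a) - ξ) ≤ 1 := Real.exp_le_one_iff.2 (by linarith only [hξ.1])
    linarith only [h1, h2]
  have hI : ∫ ξ in (Real.log (tau a) + 1)..(-1),
      (4 * Real.exp ξ + 4 * Real.exp (Real.log (tau a) - ξ)) ≤ 8 := by
    have i1 : IntervalIntegrable (fun ξ : ℝ => 4 * Real.exp ξ) volume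
        (Real.log (tau a) + 1) (-1) :=
      (by fun_prop : Continuous fun ξ : ℝ => 4 * Real.exp ξ).intervalIntegrable _ _
    have i2 : IntervalIntegrable (fun ξ : ℝ => 4 * Real.exp (Real.log (tau a) - ξ)) volume
        (Real.log (tau a) + 1) (-1) :=
      (by fun_prop : Continuous fun ξ : ℝ => 4 * Real.exp (Real.log (tau a) - ξ)).intervalIntegrable
        _ _
    rw [intervalIntegral.integral_add i1 i2, intervalIntegral.integral_const_mul,
      intervalIntegral.integral_const_mul,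
      intervalIntegral.integral_comp_sub_left (fun u => Real.exp u) (Real.log (tau a)),
      exp_int, exp_int]
    have e1 : Real.exp (-1) ≤ 1 := Real.exp_le_one_iff.2 (by norm_num)
    have e2 := Real.exp_pos (Real.log (tau a) + 1)
    have e3 : Real.exp (Real.log (tau a) - (Real.log (tau a) + 1)) ≤ 1 :=
      Real.exp_le_one_iff.2 (by linarith)
    have e4 := Real.exp_pos (Real.log (tau a) - -1)
    linarith only [e1, e2, e3, e4]
  have hpi := Real.pi_pos
  refine ⟨⟨_, hc, h0, h8, hI, fun ξ hξ η hη => ?_⟩, ⟨_, hc, h0, h8, hI, fun ξ hξ η hη => ?_⟩⟩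
  · exact disc_Xf h ha ha1 hξ.1 hξ.2 hη.1 (by (clear * - hpi hη; linarith [hη.2]))
  · have hN : NiceX (Xf β a) (Real.log (tau a) + 1) (-1) :=
      Pool.Agent.Helper67.EK.E1c h ha ha1 (by (clear * - ha ha1; linarith)) (by norm_num)
    have hd : DifferentiableAt ℂ (Xf β a) (pt ξ (π - η)) := by
      refine (hN.an _ ?_).differentiableAt
      rw [← conj_pt]
      exact mir_mem (pt_mem_RectH hξ hη)
    have hk := disc_Xf h ha ha1 hξ.1 hξ.2 (η := π - η) (by (clear * - hη hpi; linarith only [hη.2, hpi])) (by (clear * - hη; linarith [hη.1]))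
    rw [mir_pt, mir_deriv_pt hd, dA_mir, dA_mir, norm_conj, norm_conj, norm_conj]
    rw [Real.sin_pi_sub, Real.cos_pi_sub] at hk
    exact hk

end Pool.Agent.Helper69.EK3

end

section

namespace Pool.EK71
end Pool.EK71
namespace Pool.Agent.Helper52.EK
end Pool.Agent.Helper52.EK
namespace Pool.Agent.Helper2.EK
end Pool.Agent.Helper2.EK
namespace Pool.Agent.Helper71.EK3
end Pool.Agent.Helper71.EK3
namespace Pool.Agent.Helper71.EKC
end Pool.Agent.Helper71.EKC

set_option autoImplicit false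

open Complex MeasureTheory Metric Set

open scoped Real ComplexConjugate

namespace Pool.Agent.Helper69.EK3

open Pool.EK71 Pool.Agent.Helper52.EK Pool.Agent.Helper2.EK

open Pool.Agent.Helper71.EK3 Pool.Agent.Helper71.EKC

variable {P : (ℂ → ℂ) → ℝ → ℝ → Prop}

theorem norm_pow_le (m : ℕ) (hm : m ≤ 2) (X : ℂ) : ‖(X - 1) ^ m‖ ≤ 1 * (1 + ‖X - 1‖ ^ 2) := by
  rw [norm_pow, one_mul]
  have h := norm_nonneg (X - 1)
  interval_cases m
  · rw [pow_zero]
    nlinarith only []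
  · rw [pow_one]
    (clear * -; nlinarith only [])
  · linarith only []

end Pool.Agent.Helper69.EK3

end

section

namespace Pool.EK71
end Pool.EK71
namespace Pool.Agent.Helper52.EK
end Pool.Agent.Helper52.EK
namespace Pool.Agent.Helper2.EK
end Pool.Agent.Helper2.EK
namespace Pool.Agent.Helper69.EK3
end Pool.Agent.Helper69.EK3
namespace Pool.Agent.Helper69.EK5
end Pool.Agent.Helper69.EK5
namespace Pool.Agent.Helper71.EK3
end Pool.Agent.Helper71.EK3
namespace Pool.Agent.Helper71.EKC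
end Pool.Agent.Helper71.EKC

set_option autoImplicit false

open Complex MeasureTheory Metric Set

open scoped Real ComplexConjugate

namespace Pool.Agent.Helper69.EK6

open Pool.EK71 Pool.Agent.Helper52.EK Pool.Agent.Helper2.EK

open Pool.Agent.Helper69.EK3

open Pool.Agent.Helper69.EK5 (DQ Dd Dd_pos Dd_low DL e_D qX qY qL Rr c1_Rr)

open Pool.Agent.Helper71.EK3 (xL yL r2L FL G2L e_x e_y e_r2 e_F e_G2)

open Pool.Agent.Helper71.EKC (c1_unique pw2 e_pw sb2 e_sb)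

variable {P : (ℂ → ℂ) → ℝ → ℝ → Prop}

theorem af_ash20 (g : AP) (η : ℝ) : af (ash 2 0 g) η = Real.sin (η / 2) ^ 2 * af g η := by
  unfold af
  rw [aev_ash]
  ring

theorem af_ash10 (g : AP) (η : ℝ) : af (ash 1 0 g) η = Real.sin (η / 2) * af g η := by
  unfold af
  rw [aev_ash]
  ring

/-- `2 (S² g)'· 2 / S` as a polynomial: `2 · af (ader (ash 2 0 g)) = S · af (adas g)` -/
def adas : AP → AP
  | [] => []
  | (c, i, j) :: g => (Int.mul (Int.mul 2 c) (Int.ofNat (i + 2)), i, j + 1) ::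
      ((match j with
        | 0 => []
        | j' + 1 => [(Int.mul (Int.mul (-2) c) (Int.ofNat (j' + 1)), i + 2, j')]) ++ adas g)

theorem aev_adas (S C : ℝ) (g : AP) :
    2 * aev S C (ader (ash 2 0 g)) = S * aev S C (adas g) := by
  induction g with
  | nil => simp [ader, ash, adas, aev]
  | cons t g ih =>
    obtain ⟨c, i, j⟩ := t
    cases j with
    | zero =>
      simp only [ash, ader, adas, List.cons_append, List.nil_append, aev, imul_cast', ofNat_cast',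
        add_zero]
      rw [mul_add, mul_add, ih]
      push_cast
      ring
    | succ j =>
      simp only [ash, ader, adas, List.cons_append, List.nil_append, aev, imul_cast', ofNat_cast',
        add_zero]
      rw [mul_add, mul_add, mul_add, mul_add, ih]
      push_cast
      simp only [Nat.succ_eq_add_one]
      ring

theorem af_adas (g : AP) (η : ℝ) :
    2 * af (ader (ash 2 0 g)) η = Real.sin (η / 2) * af (adas g) η := by
  unfold af
  rw [aev_adas]

/-- `S² ≤ S ≤ s` and `0 ≤ S` on the half strip -/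
theorem half_le {η : ℝ} (hη : η ∈ Icc (0:ℝ) (π / 2)) :
    0 ≤ Real.sin (η / 2) ∧ Real.sin (η / 2) ≤ Real.sin η ∧ Real.sin (η / 2) ^ 2 ≤ Real.sin η := by
  have hp := Real.pi_pos
  have h0 : 0 ≤ Real.sin (η / 2) :=
    Real.sin_nonneg_of_nonneg_of_le_pi (by (clear * - hη; linarith only [hη.1])) (by linarith only [hη.2, hp])
  have h1 : Real.sin (η / 2) ≤ Real.sin η :=
    Real.sin_le_sin_of_le_of_le_pi_div_two (by (clear * - hp hη; linarith [hη.1])) hη.2 (by (clear * - hη; linarith [hη.1]))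
  have h2 := Real.sin_le_one (η / 2)
  exact ⟨h0, h1, by (clear * - h1 h0 h2; nlinarith)⟩

noncomputable def NU (a : DQ) (j : ℕ) (t : AP × BP) (X Y : ℂ) (η : ℝ) : ℝ :=
  4 * af (ash 2 0 t.1) η * Rr a (j + 2) (qL a j t.2) X * ‖Y‖ ^ 2 -
    af (ader (ader (ash 2 0 t.1))) η * Rr a j t.2 X

noncomputable def KU (a : DQ) (j : ℕ) (t : AP × BP) (X Y : ℂ) : ℝ :=
  4 * af (ash 2 0 t.1) (π / 2) * dEta (Rr a (j + 1) (qX a j t.2)) (Rr a (j + 1) (qY a j t.2)) X Y -
    2 * af (ader (ash 2 0 t.1)) (π / 2) * Rr a j t.2 X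

noncomputable def NVX (a : DQ) (j : ℕ) (t : AP × BP) (X Y : ℂ) (η : ℝ) : ℝ :=
  2 * af (ash 1 0 t.1) η * (Rr a (j + 1) (qX a j t.2) X * Y.re +
    Rr a (j + 1) (qY a j t.2) X * Y.im)

noncomputable def NVE (a : DQ) (j : ℕ) (t : AP × BP) (X Y : ℂ) (η : ℝ) : ℝ :=
  2 * af (ash 1 0 t.1) η * dEta (Rr a (j + 1) (qX a j t.2)) (Rr a (j + 1) (qY a j t.2)) X Y +
    af (ader (ash 1 0 t.1)) η * Rr a j t.2 X

noncomputable def KVE (a : DQ) (j : ℕ) (t : AP × BP) (X _Y : ℂ) : ℝ :=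
  2 * af (ash 1 0 t.1) (π / 2) * Rr a j t.2 X

noncomputable def NF0 (a : DQ) (j : ℕ) (t : AP × BP) (X Y : ℂ) (η : ℝ) : ℝ :=
  NG (fun η => 4 * af (ash 2 0 t.1) η) (fun η => 2 * af (ader (ash 2 0 t.1)) η)
    (fun X => (Rr a j t.2 X : ℂ)) (fun X => (Rr a (j + 1) (qX a j t.2) X : ℂ))
    (fun X => (Rr a (j + 1) (qY a j t.2) X : ℂ)) X Y ((Y / X) ^ 1) η

noncomputable def KF0 (a : DQ) (j : ℕ) (t : AP × BP) (X Y : ℂ) : ℝ :=
  - (4 * af (ash 2 0 t.1) (π / 2) * ((Rr a j t.2 X : ℂ) * (Y / X) ^ 1).im)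

noncomputable def NF1 (a : DQ) (j : ℕ) (t : AP × BP) (X Y : ℂ) (η : ℝ) : ℝ :=
  NG (fun η => 4 * af (ash 2 0 t.1) η) (fun η => 2 * af (ader (ash 2 0 t.1)) η)
    (fun X => I * (Rr a j t.2 X : ℂ)) (fun X => I * (Rr a (j + 1) (qX a j t.2) X : ℂ))
    (fun X => I * (Rr a (j + 1) (qY a j t.2) X : ℂ)) X Y ((Y / X) ^ 1) η

noncomputable def KF1 (a : DQ) (j : ℕ) (t : AP × BP) (X Y : ℂ) : ℝ :=
  - (4 * af (ash 2 0 t.1) (π / 2) * (I * (Rr a j t.2 X : ℂ) * (Y / X) ^ 1).im)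

/-- primitive of `4 S² g` -/
noncomputable def apr (g : AP) (η : ℝ) : ℝ := ∫ t in (0:ℝ)..η, 4 * af (ash 2 0 g) t

noncomputable def NH (t : AP × ℕ) (X Y : ℂ) (η : ℝ) : ℝ :=
  NG (apr t.1) (fun η => 4 * af (ash 2 0 t.1) η) (fun X => (X - 1) ^ t.2)
    (fun X => (t.2 : ℂ) * (X - 1) ^ (t.2 - 1)) (fun X => I * ((t.2 : ℂ) * (X - 1) ^ (t.2 - 1)))
    X Y ((Y / X) ^ 2) η

noncomputable def KH (t : AP × ℕ) (X Y : ℂ) : ℝ :=
  - (apr t.1 (π / 2) * ((X - 1) ^ t.2 * (Y / X) ^ 2).im)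

end Pool.Agent.Helper69.EK6

end

section

namespace Pool.Sos71
end Pool.Sos71
namespace Pool.EK71
end Pool.EK71
namespace Pool.Agent.Helper52.EK
end Pool.Agent.Helper52.EK
namespace Pool.Agent.Helper2.EK
end Pool.Agent.Helper2.EK
namespace Pool.Agent.Helper71.EK3
end Pool.Agent.Helper71.EK3
namespace Pool.Agent.Helper71.EKC
end Pool.Agent.Helper71.EKC

set_option autoImplicit false

open Complex MeasureTheory Metric Set

open scoped Real ComplexConjugate

namespace Pool.Agent.Helper69.EK3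

open Pool.Sos71

open Pool.EK71 Pool.Agent.Helper52.EK Pool.Agent.Helper2.EK

open Pool.Agent.Helper71.EK3 (xL yL r2L FL G2L e_x e_y e_r2 e_F e_G2)

open Pool.Agent.Helper71.EKC (pw2 e_pw sb2 e_sb)

def ePR : Ex := Ex.add (Ex.pow (Ex.va 3) 2) (Ex.pow (Ex.va 4) 2)

/-- `s q` in real and imaginary parts of `Y` -/
theorem sY_re {X Y : ℂ} (hX : X ≠ 0) (s : ℝ) :
    s * Y.re = (s * (Y / X).re) * X.re - (s * (Y / X).im) * X.im := by
  have e : Y = (Y / X) * X := (div_mul_cancel₀ Y hX).symm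
  have h := congrArg Complex.re e
  rw [mul_re] at h
  rw [h]
  ring

theorem sY_im {X Y : ℂ} (hX : X ≠ 0) (s : ℝ) :
    s * Y.im = (s * (Y / X).re) * X.im + (s * (Y / X).im) * X.re := by
  have e : Y = (Y / X) * X := (div_mul_cancel₀ Y hX).symm
  have h := congrArg Complex.im e
  rw [mul_im] at h
  rw [h]
  ring

theorem nq_sq (z : ℂ) : ‖z‖ ^ 2 = z.re ^ 2 + z.im ^ 2 := by
  rw [← normSq_eq_norm_sq, normSq_apply]
  ring

theorem sY_sq {X Y : ℂ} (hX : X ≠ 0) (s : ℝ) :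
    s ^ 2 * ‖Y‖ ^ 2 = ((s * (Y / X).re) ^ 2 + (s * (Y / X).im) ^ 2) * (X.re ^ 2 + X.im ^ 2) := by
  rw [← nq_sq X]
  have e : ‖Y‖ = ‖Y / X‖ * ‖X‖ := by
    rw [← norm_mul, div_mul_cancel₀ Y hX]
  rw [e, mul_pow, nq_sq (Y / X)]
  ring

section

variable (a K j : ℕ)

theorem qcY {X Y : ℂ} (hX : X ≠ 0) : (Y / X) ^ 1 * conj Y =
    (((Y / X).re ^ 2 + (Y / X).im ^ 2 : ℝ) : ℂ) * conj X := by
  have e : conj Y = conj (Y / X) * conj X := by
    rw [← map_mul, div_mul_cancel₀ Y hX]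
  rw [pow_one, e, ← mul_assoc, mul_conj, normSq_apply]
  congr 2
  ring

end

/-- real and imaginary part of `(u + i v)^m`, `m ≤ 2` -/
def reB : ℕ → BP
  | 0 => [[1]]
  | 1 => [[0], [1]]
  | _ => G2L

def imB : ℕ → BP
  | 0 => [[0]]
  | 1 => [[0, 1]]
  | _ => [[], [0, 2]]

theorem reB_ev (m : ℕ) (hm : m ≤ 2) (X : ℂ) :
    ev2 (X.re - 1) X.im (reB m) = ((X - 1) ^ m).re := by
  interval_cases m
  · simp [reB, ev2, ev1]
  · simp [reB, ev2, ev1]
  · have h : ((X - 1) ^ 2).re = (X.re - 1) ^ 2 - X.im ^ 2 := by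
      rw [pow_two (X - 1), mul_re]
      simp
      ring
    simp only [reB, e_G2, h]

theorem imB_ev (m : ℕ) (hm : m ≤ 2) (X : ℂ) :
    ev2 (X.re - 1) X.im (imB m) = ((X - 1) ^ m).im := by
  interval_cases m
  · simp [imB, ev2, ev1]
  · simp [imB, ev2, ev1]
  · have h : ((X - 1) ^ 2).im = 2 * (X.re - 1) * X.im := by
      rw [pow_two (X - 1), mul_im]
      simp
      ring
    simp [imB, ev2, ev1, h]
    ring

end Pool.Agent.Helper69.EK3

end

section

namespace Pool.Sos71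
end Pool.Sos71
namespace Pool.EK71
end Pool.EK71
namespace Pool.Agent.Helper52.EK
end Pool.Agent.Helper52.EK
namespace Pool.Agent.Helper2.EK
end Pool.Agent.Helper2.EK
namespace Pool.Agent.Helper69.EK3
end Pool.Agent.Helper69.EK3
namespace Pool.Agent.Helper71.EK3
end Pool.Agent.Helper71.EK3
namespace Pool.Agent.Helper71.EKC
end Pool.Agent.Helper71.EKC

set_option autoImplicit false

open Complex MeasureTheory Metric Set

open scoped Real ComplexConjugate

namespace Pool.Agent.Helper69.EK5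

open Pool.Sos71

open Pool.EK71 Pool.Agent.Helper52.EK Pool.Agent.Helper2.EK

open Pool.Agent.Helper69.EK3

open Pool.Agent.Helper71.EK3 (xL yL r2L FL G2L e_x e_y e_r2 e_F e_G2)

open Pool.Agent.Helper71.EKC (c1_unique pw2 e_pw sb2 e_sb)

def Dn (a : DQ) (n : ℕ) : BP := pw2 (DL a) n

theorem Dn_ev (a : DQ) (n : ℕ) (X : ℂ) : ev2 (X.re - 1) X.im (Dn a n) = Dd a X.re X.im ^ n := by
  rw [Dn, e_pw, e_D]
  congr 2
  ring

section

variable (a : DQ) (K j : ℕ)

end

end Pool.Agent.Helper69.EK5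

end

section

namespace Pool.Sos71
end Pool.Sos71
namespace Pool.EK71
end Pool.EK71
namespace Pool.Agent.Helper52.EK
end Pool.Agent.Helper52.EK
namespace Pool.Agent.Helper2.EK
end Pool.Agent.Helper2.EK
namespace Pool.Agent.Helper69.EK3
end Pool.Agent.Helper69.EK3
namespace Pool.Agent.Helper69.EK5
end Pool.Agent.Helper69.EK5
namespace Pool.Agent.Helper71.EK3
end Pool.Agent.Helper71.EK3
namespace Pool.Agent.Helper71.EKC
end Pool.Agent.Helper71.EKC

set_option autoImplicit false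

open Complex MeasureTheory Metric Set

open scoped Real ComplexConjugate

namespace Pool.Agent.Helper69.EK6

open Pool.Sos71

open Pool.EK71 Pool.Agent.Helper52.EK Pool.Agent.Helper2.EK

open Pool.Agent.Helper69.EK3

open Pool.Agent.Helper69.EK5 (DQ Dd Dd_pos Dd_low DL e_D qX qY qL Rr c1_Rr Dn Dn_ev)

open Pool.Agent.Helper71.EK3 (xL yL r2L FL G2L e_x e_y e_r2 e_F e_G2)

open Pool.Agent.Helper71.EKC (c1_unique pw2 e_pw sb2 e_sb)

/-- the point of the variables -/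
noncomputable def px (l η : ℝ) (X Y : ℂ) : Pnt :=
  ⟨l, Real.sin (η / 2), Real.cos (η / 2), Real.sin (η / 2) * (Y / X).re,
    Real.sin (η / 2) * (Y / X).im, X.re - 1, X.im⟩

section

variable (a : DQ) (K j : ℕ)

def EU (t : AP × BP) : Ex :=
  Ex.add (Ex.mul (Ex.mul (Ex.sc 4 (apE t.1)) ePR) (Ex.bp (mu2 (mu2 r2L (qL a j t.2)) (Dn a (K - j - 2)))))
    (Ex.mul (Ex.sc (-1) (apE (ader (ader (ash 2 0 t.1))))) (Ex.bp (mu2 t.2 (Dn a (K - j)))))

theorem EU_re (t : AP × BP) (hK : j + 2 ≤ K) {X Y : ℂ} (hX : X ≠ 0) (l η : ℝ) :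
    (EU a K j t).re (px l η X Y) = Dd a X.re X.im ^ K * NU a j t X Y η := by
  obtain ⟨m, rfl⟩ := Nat.exists_eq_add_of_le hK
  have hD := (Dd_pos a X.re X.im).ne'
  have e1 : j + 2 + m - j - 2 = m := by omega
  have e2 : j + 2 + m - j = m + 2 := by omega
  simp only [EU, Ex.re, apE_re, ePR, ev2_mu, e_r2, e1, e2]
  rw [show (px l η X Y).f = X.re - 1 from rfl, show (px l η X Y).g = X.im from rfl, Dn_ev, Dn_ev,
    show (px l η X Y).b = Real.sin (η / 2) from rfl, show (px l η X Y).c = Real.cos (η / 2) from rfl,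
    show (px l η X Y).d = Real.sin (η / 2) * (Y / X).re from rfl,
    show (px l η X Y).e = Real.sin (η / 2) * (Y / X).im from rfl]
  have h1 := sY_sq (Y := Y) hX (Real.sin (η / 2))
  unfold NU Rr
  rw [af_ash20]
  have e3 : 4 * (Real.sin (η / 2) ^ 2 * af t.1 η) * (ev2 (X.re - 1) X.im (qL a j t.2) /
      Dd a X.re X.im ^ (j + 2)) * ‖Y‖ ^ 2 = 4 * (Real.sin (η / 2) ^ 2 * ‖Y‖ ^ 2) * af t.1 η *
      (ev2 (X.re - 1) X.im (qL a j t.2) / Dd a X.re X.im ^ (j + 2)) := by ring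
  rw [e3, h1]
  unfold af
  have e4 : (1:ℝ) + (X.re - 1) = X.re := by ring
  rw [e4]
  have p1 : Dd a X.re X.im ^ (j + 2 + m) = Dd a X.re X.im ^ j * Dd a X.re X.im ^ 2 *
    Dd a X.re X.im ^ m := by rw [pow_add, pow_add]
  have p2 : Dd a X.re X.im ^ (j + 2) = Dd a X.re X.im ^ j * Dd a X.re X.im ^ 2 := by rw [pow_add]
  have p3 : Dd a X.re X.im ^ (m + 2) = Dd a X.re X.im ^ m * Dd a X.re X.im ^ 2 := by rw [pow_add]
  rw [p1, p2, p3]
  field_simp
  push_cast
  ring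

def EVX (t : AP × BP) : Ex :=
  Ex.mul (Ex.sc 2 (apE t.1)) (Ex.add
    (Ex.mul (Ex.va 3) (Ex.bp (mu2 (ad2 (mu2 xL (qX a j t.2)) (mu2 yL (qY a j t.2)))
      (Dn a (K - j - 1)))))
    (Ex.mul (Ex.va 4) (Ex.bp (mu2 (sb2 (mu2 xL (qY a j t.2)) (mu2 yL (qX a j t.2)))
      (Dn a (K - j - 1))))))

theorem EVX_re (t : AP × BP) (hK : j + 1 ≤ K) {X Y : ℂ} (hX : X ≠ 0) (l η : ℝ) :
    (EVX a K j t).re (px l η X Y) = Dd a X.re X.im ^ K * NVX a j t X Y η := by
  obtain ⟨m, rfl⟩ := Nat.exists_eq_add_of_le hK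
  have hD := (Dd_pos a X.re X.im).ne'
  have e1 : j + 1 + m - j - 1 = m := by (clear * - hK; omega)
  simp only [EVX, Ex.re, apE_re, ev2_mu, ev2_ad, e_sb, e_x, e_y, e1]
  rw [show (px l η X Y).f = X.re - 1 from rfl, show (px l η X Y).g = X.im from rfl, Dn_ev,
    show (px l η X Y).b = Real.sin (η / 2) from rfl, show (px l η X Y).c = Real.cos (η / 2) from rfl,
    show (px l η X Y).d = Real.sin (η / 2) * (Y / X).re from rfl,
    show (px l η X Y).e = Real.sin (η / 2) * (Y / X).im from rfl]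
  unfold NVX Rr
  rw [af_ash10]
  have h1 := sY_re (Y := Y) hX (Real.sin (η / 2))
  have h2 := sY_im (Y := Y) hX (Real.sin (η / 2))
  have e3 : 2 * (Real.sin (η / 2) * af t.1 η) * (ev2 (X.re - 1) X.im (qX a j t.2) /
      Dd a X.re X.im ^ (j + 1) * Y.re + ev2 (X.re - 1) X.im (qY a j t.2) /
      Dd a X.re X.im ^ (j + 1) * Y.im) = 2 * af t.1 η * (ev2 (X.re - 1) X.im (qX a j t.2) /
      Dd a X.re X.im ^ (j + 1) * (Real.sin (η / 2) * Y.re) + ev2 (X.re - 1) X.im (qY a j t.2) /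
      Dd a X.re X.im ^ (j + 1) * (Real.sin (η / 2) * Y.im)) := by ring
  rw [e3, h1, h2]
  unfold af
  have e4 : (1:ℝ) + (X.re - 1) = X.re := by ring
  rw [e4]
  have p1 : Dd a X.re X.im ^ (j + 1 + m) = Dd a X.re X.im ^ (j + 1) * Dd a X.re X.im ^ m := by
    rw [pow_add]
  rw [p1]
  field_simp
  ring

def EVE (t : AP × BP) : Ex :=
  Ex.add (Ex.mul (Ex.sc 2 (apE t.1)) (Ex.add
    (Ex.mul (Ex.va 3) (Ex.bp (mu2 (sb2 (mu2 xL (qY a j t.2)) (mu2 yL (qX a j t.2)))
      (Dn a (K - j - 1)))))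
    (Ex.mul (Ex.va 4) (Ex.bp (mu2 (sm2 (-1) (ad2 (mu2 xL (qX a j t.2)) (mu2 yL (qY a j t.2))))
      (Dn a (K - j - 1)))))))
    (Ex.mul (apE (ader (ash 1 0 t.1))) (Ex.bp (mu2 t.2 (Dn a (K - j)))))

theorem EVE_re (t : AP × BP) (hK : j + 1 ≤ K) {X Y : ℂ} (hX : X ≠ 0) (l η : ℝ) :
    (EVE a K j t).re (px l η X Y) = Dd a X.re X.im ^ K * NVE a j t X Y η := by
  obtain ⟨m, rfl⟩ := Nat.exists_eq_add_of_le hK
  have hD := (Dd_pos a X.re X.im).ne'
  have e1 : j + 1 + m - j - 1 = m := by omega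
  have e2 : j + 1 + m - j = m + 1 := by omega
  simp only [EVE, Ex.re, apE_re, ev2_mu, ev2_ad, ev2_sm, e_sb, e_x, e_y, e1, e2]
  rw [show (px l η X Y).f = X.re - 1 from rfl, show (px l η X Y).g = X.im from rfl, Dn_ev, Dn_ev,
    show (px l η X Y).b = Real.sin (η / 2) from rfl, show (px l η X Y).c = Real.cos (η / 2) from rfl,
    show (px l η X Y).d = Real.sin (η / 2) * (Y / X).re from rfl,
    show (px l η X Y).e = Real.sin (η / 2) * (Y / X).im from rfl]
  unfold NVE Rr dEta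
  rw [af_ash10]
  have h1 := sY_re (Y := Y) hX (Real.sin (η / 2))
  have h2 := sY_im (Y := Y) hX (Real.sin (η / 2))
  have e3 : 2 * (Real.sin (η / 2) * af t.1 η) * (-(ev2 (X.re - 1) X.im (qX a j t.2) /
      Dd a X.re X.im ^ (j + 1)) * Y.im + ev2 (X.re - 1) X.im (qY a j t.2) /
      Dd a X.re X.im ^ (j + 1) * Y.re) = 2 * af t.1 η * (-(ev2 (X.re - 1) X.im (qX a j t.2) /
      Dd a X.re X.im ^ (j + 1)) * (Real.sin (η / 2) * Y.im) + ev2 (X.re - 1) X.im (qY a j t.2) /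
      Dd a X.re X.im ^ (j + 1) * (Real.sin (η / 2) * Y.re)) := by ring
  rw [e3, h1, h2]
  unfold af
  have e4 : (1:ℝ) + (X.re - 1) = X.re := by ring
  rw [e4]
  have p1 : Dd a X.re X.im ^ (j + 1 + m) = Dd a X.re X.im ^ j * Dd a X.re X.im *
      Dd a X.re X.im ^ m := by rw [pow_add, pow_succ]
  have p2 : Dd a X.re X.im ^ (j + 1) = Dd a X.re X.im ^ j * Dd a X.re X.im := by rw [pow_succ]
  have p3 : Dd a X.re X.im ^ (m + 1) = Dd a X.re X.im ^ m * Dd a X.re X.im := by rw [pow_succ]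
  rw [p1, p2, p3]
  field_simp
  push_cast
  ring

def EF0 (t : AP × BP) : Ex :=
  Ex.add (Ex.mul (Ex.mul (Ex.sc 4 (apE t.1)) ePR) (Ex.bp (mu2 (ad2 (mu2 xL (qX a j t.2))
      (mu2 yL (qY a j t.2))) (Dn a (K - j - 1)))))
    (Ex.mul (Ex.mul (Ex.sc (-1) (apE (adas t.1))) (Ex.va 4)) (Ex.bp (mu2 t.2 (Dn a (K - j)))))

def EF1 (t : AP × BP) : Ex :=
  Ex.add (Ex.mul (Ex.mul (Ex.sc 4 (apE t.1)) ePR) (Ex.bp (mu2 (sb2 (mu2 yL (qX a j t.2))
      (mu2 xL (qY a j t.2))) (Dn a (K - j - 1)))))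
    (Ex.mul (Ex.mul (Ex.sc (-1) (apE (adas t.1))) (Ex.va 3)) (Ex.bp (mu2 t.2 (Dn a (K - j)))))

theorem EF0_re (t : AP × BP) (hK : j + 1 ≤ K) {X Y : ℂ} (hX : X ≠ 0) (l η : ℝ) :
    (EF0 a K j t).re (px l η X Y) = Dd a X.re X.im ^ K * NF0 a j t X Y η := by
  obtain ⟨m, rfl⟩ := Nat.exists_eq_add_of_le hK
  have hD := (Dd_pos a X.re X.im).ne'
  have e1 : j + 1 + m - j - 1 = m := by omega
  have e2 : j + 1 + m - j = m + 1 := by omega
  simp only [EF0, Ex.re, apE_re, ePR, ev2_mu, ev2_ad, e_sb, e_x, e_y, e1, e2]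
  rw [show (px l η X Y).f = X.re - 1 from rfl, show (px l η X Y).g = X.im from rfl, Dn_ev, Dn_ev,
    show (px l η X Y).b = Real.sin (η / 2) from rfl, show (px l η X Y).c = Real.cos (η / 2) from rfl,
    show (px l η X Y).d = Real.sin (η / 2) * (Y / X).re from rfl,
    show (px l η X Y).e = Real.sin (η / 2) * (Y / X).im from rfl]
  unfold NF0 NG
  rw [qcY hX]
  beta_reduce
  rw [af_ash20, af_adas, pow_one]
  unfold Rr
  simp only [mul_re, mul_im, add_re, add_im, ofReal_re, ofReal_im, I_re, I_im, conj_re, conj_im]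
  unfold af
  have e4 : (1:ℝ) + (X.re - 1) = X.re := by ring
  rw [e4]
  have p1 : Dd a X.re X.im ^ (j + 1 + m) = Dd a X.re X.im ^ j * Dd a X.re X.im *
      Dd a X.re X.im ^ m := by rw [pow_add, pow_succ]
  have p2 : Dd a X.re X.im ^ (j + 1) = Dd a X.re X.im ^ j * Dd a X.re X.im := by rw [pow_succ]
  have p3 : Dd a X.re X.im ^ (m + 1) = Dd a X.re X.im ^ m * Dd a X.re X.im := by rw [pow_succ]
  rw [p1, p2, p3]
  field_simp
  push_cast
  ring

theorem EF1_re (t : AP × BP) (hK : j + 1 ≤ K) {X Y : ℂ} (hX : X ≠ 0) (l η : ℝ) :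
    (EF1 a K j t).re (px l η X Y) = Dd a X.re X.im ^ K * NF1 a j t X Y η := by
  obtain ⟨m, rfl⟩ := Nat.exists_eq_add_of_le hK
  have hD := (Dd_pos a X.re X.im).ne'
  have e1 : j + 1 + m - j - 1 = m := by omega
  have e2 : j + 1 + m - j = m + 1 := by omega
  simp only [EF1, Ex.re, apE_re, ePR, ev2_mu, ev2_ad, e_sb, e_x, e_y, e1, e2]
  rw [show (px l η X Y).f = X.re - 1 from rfl, show (px l η X Y).g = X.im from rfl, Dn_ev, Dn_ev,
    show (px l η X Y).b = Real.sin (η / 2) from rfl, show (px l η X Y).c = Real.cos (η / 2) from rfl,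
    show (px l η X Y).d = Real.sin (η / 2) * (Y / X).re from rfl,
    show (px l η X Y).e = Real.sin (η / 2) * (Y / X).im from rfl]
  unfold NF1 NG
  rw [qcY hX]
  beta_reduce
  rw [af_ash20, af_adas, pow_one]
  unfold Rr
  simp only [mul_re, mul_im, add_re, add_im, ofReal_re, ofReal_im, I_re, I_im, conj_re, conj_im]
  unfold af
  have e4 : (1:ℝ) + (X.re - 1) = X.re := by ring
  rw [e4]
  have p1 : Dd a X.re X.im ^ (j + 1 + m) = Dd a X.re X.im ^ j * Dd a X.re X.im *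
      Dd a X.re X.im ^ m := by rw [pow_add, pow_succ]
  have p2 : Dd a X.re X.im ^ (j + 1) = Dd a X.re X.im ^ j * Dd a X.re X.im := by rw [pow_succ]
  have p3 : Dd a X.re X.im ^ (m + 1) = Dd a X.re X.im ^ m * Dd a X.re X.im := by rw [pow_succ]
  rw [p1, p2, p3]
  field_simp
  push_cast
  ring

end

def EH (a : DQ) (K : ℕ) (t : AP × ℕ) : Ex :=
  Ex.add (Ex.mul (Ex.mul (Ex.sc (-8) (apE t.1)) (Ex.mul (Ex.va 3) (Ex.va 4)))
      (Ex.bp (mu2 (reB t.2) (Dn a K))))
    (Ex.mul (Ex.mul (Ex.sc 4 (apE t.1)) (Ex.add (Ex.pow (Ex.va 4) 2) (Ex.sc (-1) (Ex.pow (Ex.va 3) 2))))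
      (Ex.bp (mu2 (imB t.2) (Dn a K))))

theorem EH_re (a : DQ) (K : ℕ) (t : AP × ℕ) (ht : t.2 ≤ 2) (X Y : ℂ) (l η : ℝ) :
    (EH a K t).re (px l η X Y) = Dd a X.re X.im ^ K * NH t X Y η := by
  simp only [EH, Ex.re, apE_re, ev2_mu]
  rw [show (px l η X Y).f = X.re - 1 from rfl, show (px l η X Y).g = X.im from rfl, Dn_ev,
    reB_ev _ ht, imB_ev _ ht,
    show (px l η X Y).b = Real.sin (η / 2) from rfl, show (px l η X Y).c = Real.cos (η / 2) from rfl,
    show (px l η X Y).d = Real.sin (η / 2) * (Y / X).re from rfl,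
    show (px l η X Y).e = Real.sin (η / 2) * (Y / X).im from rfl]
  unfold NH NG
  have e : (t.2 : ℂ) * (X - 1) ^ (t.2 - 1) + I * (I * ((t.2 : ℂ) * (X - 1) ^ (t.2 - 1))) = 0 := by
    linear_combination ((t.2 : ℂ) * (X - 1) ^ (t.2 - 1)) * I_sq
  rw [e, zero_mul]
  beta_reduce
  rw [af_ash20]
  unfold af
  rw [pow_two (Y / X)]
  simp only [zero_re, mul_re, mul_im]
  push_cast
  ring

end Pool.Agent.Helper69.EK6

end

section

namespace Pool.Sos71
end Pool.Sos71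
namespace Pool.EK71
end Pool.EK71
namespace Pool.Agent.Helper52.EK
end Pool.Agent.Helper52.EK
namespace Pool.Agent.Helper2.EK
end Pool.Agent.Helper2.EK
namespace Pool.Agent.Helper71.EK3
end Pool.Agent.Helper71.EK3
namespace Pool.Agent.Helper71.EKC
end Pool.Agent.Helper71.EKC

set_option autoImplicit false

open Complex MeasureTheory Metric Set

open scoped Real ComplexConjugate

namespace Pool.Agent.Helper69.EK3

open Pool.Sos71

open Pool.EK71 Pool.Agent.Helper52.EK Pool.Agent.Helper2.EK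

open Pool.Agent.Helper71.EK3 (xL yL r2L FL G2L e_x e_y e_r2 e_F e_G2)

open Pool.Agent.Helper71.EKC (pw2 e_pw sb2 e_sb)

/-- one side of the field: `b = m + sg l (α m + β)`, `r (n - 1) + sg l (r0 + r1 |m+1|² + r2 n) = 0`;
`Ma = M α`, `Mb = M β`, `Maa = M α²`, `Mab = M α β`, `Mbb = M β²` -/
structure Sd where
  sg : ℤ
  Ma : ℤ
  Mb : ℤ
  Maa : ℤ
  Mab : ℤ
  Mbb : ℤ
  r : ℤ
  r0 : ℤ
  r1 : ℤ
  r2 : ℤ
  L0 : List (AP × BP)
  L1 : List (AP × BP)

def eA : Ex := Ex.sc 2 (Ex.mul (Ex.va 1) (Ex.va 2))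

def eB : Ex := Ex.add (Ex.pow (Ex.va 2) 2) (Ex.sc (-1) (Ex.pow (Ex.va 1) 2))

def eo : Ex := Ex.add (Ex.pow (Ex.va 2) 2) (Ex.pow (Ex.va 1) 2)

def eone : Ex := Ex.pow eo 2

/-- `cos kη`, `sin kη` -/
def csE : ℕ → Ex × Ex
  | 0 => (Ex.lit 1, Ex.lit 0)
  | k + 1 => (Ex.add (Ex.mul (csE k).1 eB) (Ex.sc (-1) (Ex.mul (csE k).2 eA)),
      Ex.add (Ex.mul (csE k).2 eB) (Ex.mul (csE k).1 eA))

/-- sum of a list of expressions -/
def sumE {ι : Type} (f : ι → Ex) (base : Ex) : List ι → Ex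
  | [] => base
  | t :: L => Ex.add (f t) (sumE f base L)

namespace Dat

end Dat

theorem sumE_re {ι : Type} (f : ι → Ex) (base : Ex) (L : List ι) (x : Pnt) :
    (sumE f base L).re x = (L.map fun t => (f t).re x).sum + base.re x := by
  induction L with
  | nil => simp [sumE]
  | cons t L ih =>
    simp only [sumE, List.map_cons, List.sum_cons]
    show (f t).re x + (sumE f base L).re x = _
    rw [ih]
    ring

/-- `m + 1 = 2 (s + i c) s (2X - 1 + q)` -/
theorem mX_add {X Y : ℂ} {s c : ℝ} (hsc : s ^ 2 + c ^ 2 = 1) :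
    mX X Y s c + 1 = 2 * ((s : ℂ) + (c : ℂ) * I) *
      (((s * (2 * X.re - 1) + s * (Y / X).re : ℝ) : ℂ) +
        ((s * (2 * X.im) + s * (Y / X).im : ℝ) : ℂ) * I) := by
  have h1 : 2 * X - 1 + Y / X = ((2 * X.re - 1 + (Y / X).re : ℝ) : ℂ) +
      ((2 * X.im + (Y / X).im : ℝ) : ℂ) * I := by
    apply Complex.ext
    · simp
    · simp
  have h2 : 1 + e0 s c = 2 * (s : ℂ) * ((s : ℂ) + (c : ℂ) * I) := by
    unfold e0
    have h3 : (s : ℂ) ^ 2 + (c : ℂ) ^ 2 = 1 := by exact_mod_cast hsc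
    linear_combination -h3 - (s : ℂ) ^ 2 * I_sq
  unfold mX
  rw [h1, h2]
  push_cast
  ring

section val

variable (l η : ℝ) (X Y : ℂ)

theorem norm_e0 : ‖e0 (Real.sin η) (Real.cos η)‖ = 1 := by
  have h1 : ‖(Real.cos η : ℂ) - (Real.sin η : ℂ) * I‖ ^ 2 = 1 := by
    rw [nq_sq]
    simp only [sub_re, sub_im, mul_re, mul_im, ofReal_re, ofReal_im, I_re, I_im, mul_zero,
      mul_one, sub_zero, add_zero, zero_add, zero_sub]
    (clear * -; linarith only [Real.sin_sq_add_cos_sq η])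
  unfold e0
  rw [norm_neg, norm_pow, h1]

end val

end Pool.Agent.Helper69.EK3

end

section

namespace Pool.Sos71
end Pool.Sos71
namespace Pool.EK71
end Pool.EK71
namespace Pool.Agent.Helper52.EK
end Pool.Agent.Helper52.EK
namespace Pool.Agent.Helper2.EK
end Pool.Agent.Helper2.EK
namespace Pool.Agent.Helper71.EK3
end Pool.Agent.Helper71.EK3
namespace Pool.Agent.Helper71.EKC
end Pool.Agent.Helper71.EKC

set_option autoImplicit false

open Complex MeasureTheory Metric Set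

open scoped Real ComplexConjugate

namespace Pool.Agent.Helper69.EK3

open Pool.Sos71

open Pool.EK71 Pool.Agent.Helper52.EK Pool.Agent.Helper2.EK

open Pool.Agent.Helper71.EK3 (xL yL r2L FL G2L e_x e_y e_r2 e_F e_G2)

open Pool.Agent.Helper71.EKC (pw2 e_pw sb2 e_sb c1_unique c1_conj)

/-- parity of a polynomial in `y`; `true`: even -/
def par : Bool → List ℤ → Bool
  | _, [] => true
  | true, _ :: l => par false l
  | false, a :: l => decide (a = 0) && par true l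

def par2 (b : Bool) (P : BP) : Bool := P.all (par b)

theorem par_ev (y : ℝ) (l : List ℤ) : (par true l = true → ev1 (-y) l = ev1 y l) ∧
    (par false l = true → ev1 (-y) l = - ev1 y l) := by
  induction l with
  | nil => simp [ev1]
  | cons a l ih =>
    constructor
    · intro h
      simp only [par] at h
      simp only [ev1, ih.2 h]
      ring
    · intro h
      simp only [par, Bool.and_eq_true, decide_eq_true_eq] at h
      simp only [ev1, ih.1 h.2, h.1]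
      push_cast
      ring

theorem par2_even (x y : ℝ) (P : BP) (h : par2 true P = true) : ev2 x (-y) P = ev2 x y P := by
  induction P with
  | nil => simp [ev2]
  | cons r P ih =>
    simp only [par2, List.all_cons, Bool.and_eq_true] at h
    simp only [ev2, (par_ev y r).1 h.1, ih h.2]

theorem par2_odd (x y : ℝ) (P : BP) (h : par2 false P = true) : ev2 x (-y) P = - ev2 x y P := by
  induction P with
  | nil => simp [ev2]
  | cons r P ih =>
    simp only [par2, List.all_cons, Bool.and_eq_true] at h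
    simp only [ev2, (par_ev y r).2 h.1, ih h.2]
    ring

/-- `y ↦ -y` -/
def fl1 (s : ℤ) : List ℤ → List ℤ
  | [] => []
  | a :: l => Int.mul s a :: fl1 (-s) l

def fl2 (P : BP) : BP := P.map (fl1 1)

theorem fl1_ev (s : ℤ) (y : ℝ) (l : List ℤ) : ev1 y (fl1 s l) = s * ev1 (-y) l := by
  induction l generalizing s with
  | nil => simp [fl1, ev1]
  | cons a l ih =>
    simp only [fl1, ev1, ih, imul_cast']
    push_cast
    ring

theorem fl2_ev (x y : ℝ) (P : BP) : ev2 x y (fl2 P) = ev2 x (-y) P := by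
  induction P with
  | nil => simp [fl2, ev2]
  | cons r P ih =>
    have ih' : ev2 x y (P.map (fl1 1)) = ev2 x (-y) P := ih
    simp only [fl2, List.map_cons, ev2, fl1_ev, ih']
    push_cast
    ring

theorem asum_ash (a b : ℕ) (g : AP) : asum (ash a b g) = asum g := by
  induction g with
  | nil => rfl
  | cons t g ih =>
    obtain ⟨c, i, j⟩ := t
    simp only [ash, asum, ih]

/-- `12 ∫ cos kη` resp. `12 ∫ sin kη` over `(0, π/2)`, `1 ≤ k ≤ 4` -/
def hmv : ℕ → Bool → ℤ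
  | 1, true => 12
  | 3, true => -4
  | 1, false => 12
  | 2, false => 12
  | 3, false => 4
  | _, _ => 0

noncomputable def trg (k : ℕ) (b : Bool) (η : ℝ) : ℝ := if b then Real.cos (k * η) else Real.sin (k * η)

theorem trg_cont (k : ℕ) (b : Bool) : Continuous (trg k b) := by
  unfold trg
  cases b
  · simpa using (by fun_prop : Continuous fun η : ℝ => Real.sin (k * η))
  · simpa using (by fun_prop : Continuous fun η : ℝ => Real.cos (k * η))

theorem trg_int (k : ℕ) (b : Bool) (h1 : 1 ≤ k) (h2 : k ≤ 4) :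
    12 * ∫ t in (0:ℝ)..(π / 2), trg k b t = hmv k b := by
  have hk : (k : ℝ) ≠ 0 := by (clear * - h1; positivity)
  cases b
  · have e : ∫ t in (0:ℝ)..(π / 2), trg k false t = (k : ℝ)⁻¹ * (1 - Real.cos (k * (π / 2))) := by
      simp only [trg, Bool.false_eq_true, if_false]
      rw [intervalIntegral.integral_comp_mul_left (fun t => Real.sin t) hk, integral_sin,
        smul_eq_mul, mul_zero, Real.cos_zero]
    rw [e]
    interval_cases k
    · simp [hmv]
    · have : ((2 : ℕ) : ℝ) * (π / 2) = π := by push_cast; ring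
      rw [this, Real.cos_pi]
      simp [hmv]
      norm_num
    · have : ((3 : ℕ) : ℝ) * (π / 2) = π + π / 2 := by push_cast; ring
      rw [this, Real.cos_add, Real.cos_pi_div_two, Real.sin_pi]
      simp [hmv]
      norm_num
    · have : ((4 : ℕ) : ℝ) * (π / 2) = 2 * π := by push_cast; ring
      rw [this, Real.cos_two_pi]
      simp [hmv]
  · have e : ∫ t in (0:ℝ)..(π / 2), trg k true t = (k : ℝ)⁻¹ * Real.sin (k * (π / 2)) := by
      simp only [trg, if_true]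
      rw [intervalIntegral.integral_comp_mul_left (fun t => Real.cos t) hk, integral_cos,
        smul_eq_mul, mul_zero, Real.sin_zero, sub_zero]
    rw [e]
    interval_cases k
    · simp [hmv]
    · have : ((2 : ℕ) : ℝ) * (π / 2) = π := by push_cast; ring
      rw [this, Real.sin_pi]
      simp [hmv]
    · have : ((3 : ℕ) : ℝ) * (π / 2) = π + π / 2 := by push_cast; ring
      rw [this, Real.sin_add, Real.cos_pi_div_two, Real.sin_pi, Real.cos_pi,
        Real.sin_pi_div_two]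
      simp [hmv]
      norm_num
    · have : ((4 : ℕ) : ℝ) * (π / 2) = 2 * π := by push_cast; ring
      rw [this, Real.sin_two_pi]
      simp [hmv]

noncomputable def NM (t : ℕ × Bool × ℤ) (X _Y : ℂ) (η : ℝ) : ℝ :=
  (t.2.2 : ℝ) * (trg t.1 t.2.1 η * ((X - 1) ^ 2).re)

noncomputable def KM (t : ℕ × Bool × ℤ) (X _Y : ℂ) : ℝ :=
  (t.2.2 : ℝ) * ((∫ u in (0:ℝ)..(π / 2), trg t.1 t.2.1 u) * ((X - 1) ^ 2).re)

theorem KM_conj {t : ℕ × Bool × ℤ} (h1 : 1 ≤ t.1) (h2 : t.1 ≤ 4) (X Y : ℂ) :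
    KM t X Y + KM t (conj X) (conj Y) =
      (t.2.2 : ℝ) * hmv t.1 t.2.1 / 6 * ((X.re - 1) ^ 2 - X.im ^ 2) := by
  have h3 : ∀ X : ℂ, ((X - 1) ^ 2).re = (X.re - 1) ^ 2 - X.im ^ 2 := by
    intro X
    rw [pow_two (X - 1), mul_re]
    simp
    ring
  have h4 := trg_int t.1 t.2.1 h1 h2
  unfold KM
  rw [h3, h3, ← h4, conj_re, conj_im]
  ring

end Pool.Agent.Helper69.EK3

end

section

namespace Pool.Sos71
end Pool.Sos71
namespace Pool.EK71
end Pool.EK71
namespace Pool.Agent.Helper52.EK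
end Pool.Agent.Helper52.EK
namespace Pool.Agent.Helper2.EK
end Pool.Agent.Helper2.EK
namespace Pool.Agent.Helper69.EK3
end Pool.Agent.Helper69.EK3
namespace Pool.Agent.Helper71.EK3
end Pool.Agent.Helper71.EK3
namespace Pool.Agent.Helper71.EKC
end Pool.Agent.Helper71.EKC

set_option autoImplicit false

open Complex MeasureTheory Metric Set

open scoped Real ComplexConjugate

namespace Pool.Agent.Helper69.EK5

open Pool.Sos71

open Pool.EK71 Pool.Agent.Helper52.EK Pool.Agent.Helper2.EK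

open Pool.Agent.Helper69.EK3

open Pool.Agent.Helper71.EK3 (xL yL r2L FL G2L e_x e_y e_r2 e_F e_G2)

open Pool.Agent.Helper71.EKC (c1_unique pw2 e_pw sb2 e_sb)

open Pool.Agent.Helper71.EKC (c1_conj)

theorem Dd_conj (a : DQ) (X : ℂ) : Dd a (conj X).re (conj X).im = Dd a X.re X.im := by
  simp [Dd]

theorem Rr_conj_even {a : DQ} {j : ℕ} {P : BP} (h : par2 true P = true) (X : ℂ) :
    Rr a j P (conj X) = Rr a j P X := by
  unfold Rr
  rw [Dd_conj, conj_re, conj_im, par2_even _ _ _ h]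

theorem Rr_conj_odd {a : DQ} {j : ℕ} {P : BP} (h : par2 false P = true) (X : ℂ) :
    Rr a j P (conj X) = - Rr a j P X := by
  unfold Rr
  rw [Dd_conj, conj_re, conj_im, par2_odd _ _ _ h]
  ring

/-- `R + R ∘ conj` -/
noncomputable def Rs (a : DQ) (j : ℕ) (P : BP) (X : ℂ) : ℝ := Rr a j P X + Rr a j P (conj X)

theorem dEta_conj {a : DQ} {j : ℕ} {P : BP} (h : par2 true P = true) (X Y : ℂ) :
    dEta (Rr a (j + 1) (qX a j P)) (Rr a (j + 1) (qY a j P)) X Y +
      dEta (Rr a (j + 1) (qX a j P)) (Rr a (j + 1) (qY a j P)) (conj X) (conj Y) = 0 := by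
  have h1 := c1_Rr a j P
  have h2 := c1_conj h1
  have h3 : C1f (fun X => Rr a j P X) (fun X => Rr a (j + 1) (qX a j P) (conj X))
      (fun X => - Rr a (j + 1) (qY a j P) (conj X)) :=
    c1_congr h2 (fun X => (Rr_conj_even h X).symm) (fun _ => rfl) (fun _ => rfl)
  obtain ⟨e1, e2⟩ := c1_unique h1 h3 X
  unfold dEta
  rw [conj_re, conj_im, e1, e2]
  ring

end Pool.Agent.Helper69.EK5

end
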