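import Pool.Agent.Helper60.BE.T03
import Pool.Agent.Helper60.BE.T08
import Pool.Agent.Helper60.BE.T04
import Pool.Agent.Helper60.BE.T09

set_option linter.all false

section

namespace Pool.Agent.Helper39.Area
end Pool.Agent.Helper39.Area
namespace Pool.Agent.Helper52.EK
end Pool.Agent.Helper52.EK
namespace Pool.Agent.Helper97.EK
end Pool.Agent.Helper97.EK
namespace Pool.Agent.Helper22.Marshall
end Pool.Agent.Helper22.Marshall

set_option autoImplicit false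

open Complex MeasureTheory Metric Set

open scoped Real ComplexConjugate

namespace Pool.Agent.Helper69.CK

open Pool.Agent.Helper39.Area Pool.Agent.Helper52.EK Pool.Agent.Helper97.EK

open Pool.Agent.Helper22.Marshall (coeff)

variable {β : ℂ → ℂ}

/-- the pre-Schwarzian derivative: `Q = 2 z (1 - ‖z‖) (N'/N - 2/z)`, `‖Q - 2 (2‖z‖ - 1)‖ ≤ 4` -/
theorem preS_le (h : Ext β) {z : ℂ} (h1 : ‖z‖ < 1) (h2 : 1 / 2 ≤ ‖z‖) :
    ‖2 * z * (1 - ‖z‖) * (deriv (N β) z / N β z - 2 / z) - 2 * (2 * ‖z‖ - 1)‖ ≤ 4 := by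
  obtain ⟨t, ht⟩ : ∃ t : ℝ, t = ‖z‖ := ⟨_, rfl⟩
  rw [← ht] at h1 h2 ⊢
  have hz : z ∈ ball (0:ℂ) 1 := by rwa [mem_ball_zero_iff, ← ht]
  have hz0 : z ≠ 0 := by
    rw [← norm_pos_iff, ← ht]
    linarith only [h2]
  have hw1 : (2 * t - 1) < 1 := by linarith only [h1]
  have hw0 : 0 ≤ 2 * t - 1 := by linarith
  obtain ⟨w, hw⟩ : ∃ w : ℂ, w = 2 * t - 1 := ⟨_, rfl⟩
  rw [← hw]
  have hwr : w = ((2 * t - 1 : ℝ) : ℂ) := by rw [hw]; push_cast; ring
  have hwn : ‖w‖ = 2 * t - 1 := by rw [hwr, Complex.norm_real, Real.norm_of_nonneg hw0]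
  -- the Moebius map
  have hd : ∀ v ∈ ball (0:ℂ) 1, 1 + w * v ≠ 0 := by
    intro v hv h0
    rw [mem_ball_zero_iff] at hv
    have h3 : ‖w * v‖ = 1 := by
      have h4 : w * v = -1 := by linear_combination h0
      rw [h4]
      simp
    rw [norm_mul, hwn] at h3
    (clear * - hw1 h3 hw0 hv; nlinarith only [hw1, hw0, hv, h3])
  have hmb : ∀ v ∈ ball (0:ℂ) 1, z * (1 + v) / (1 + w * v) ∈ ball (0:ℂ) 1 ∧
      z * (1 + v) / (1 + w * v) ≠ 0 := by
    intro v hv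
    have hd0 := hd v hv
    rw [mem_ball_zero_iff] at hv ⊢
    have hn := norm_nonneg v
    have hv2 : ‖v‖ ^ 2 = v.re ^ 2 + v.im ^ 2 := by
      rw [← Complex.normSq_eq_norm_sq, Complex.normSq_apply]
      ring
    have hvr : v.re ≤ ‖v‖ := (le_abs_self _).trans (abs_re_le_norm v)
    constructor
    · rw [norm_div, norm_mul, ← ht, div_lt_one (norm_pos_iff.2 hd0)]
      refine lt_of_pow_lt_pow_left₀ 2 (norm_nonneg _) ?_
      rw [mul_pow, ← Complex.normSq_eq_norm_sq, ← Complex.normSq_eq_norm_sq,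
        Complex.normSq_apply, Complex.normSq_apply, hwr]
      simp only [add_re, add_im, one_re, one_im, zero_add, re_ofReal_mul, im_ofReal_mul]
      have h5 : 0 < (1 - t) * ((1 + t) - 2 * v.re * (1 - t) - ‖v‖ ^ 2 * (3 * t - 1)) := by
        refine mul_pos (by linarith only [hw1]) ?_
        have h6 : v.re * (1 - t) ≤ ‖v‖ * (1 - t) :=
          mul_le_mul_of_nonneg_right hvr (by (clear * - h1; linarith))
        nlinarith only [mul_nonneg hn (by (clear * - hv; linarith) : 0 ≤ 1 - ‖v‖), mul_pos (by (clear * - hv; linarith) : 0 < 1 - ‖v‖) (by linarith : 0 < 3 * t - 1), hv, h6]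
      rw [hv2] at h5
      linarith only [h5]
    · refine div_ne_zero (mul_ne_zero hz0 fun h0 => ?_) hd0
      have h4 : v = -1 := by linear_combination h0
      rw [h4] at hv
      simp at hv
  have hN : ∀ w ∈ ball (0:ℂ) 1, w ≠ 0 → dphi β w ≠ 0 := by
    intro w hw hw0
    rw [dphi_eq hw0]
    exact div_ne_zero (neg_ne_zero.2 (h.ne w hw)) (pow_ne_zero 2 hw0)
  have hD : dphi β z ≠ 0 := hN z hz hz0
  have hrc : (1 : ℂ) - t ≠ 0 := by
    have : ((1 - t : ℝ) : ℂ) ≠ 0 := by exact_mod_cast (by (clear * - hw1; linarith only [hw1]) : (1 - t : ℝ) ≠ 0)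
    simpa using this
  have h2z : 2 * z * (1 - (t:ℂ)) ≠ 0 := mul_ne_zero (mul_ne_zero two_ne_zero hz0) hrc
  have hL : ∀ v ∈ ball (0:ℂ) 1, HasDerivAt (fun v : ℂ => z * (1 + v) / (1 + w * v))
      (2 * z * (1 - (t:ℂ)) / (1 + w * v) ^ 2) v := fun v hv => by
    have a1 : HasDerivAt (fun v : ℂ => z * (1 + v)) (z * 1) v :=
      ((hasDerivAt_id v).const_add 1).const_mul z
    have a2 : HasDerivAt (fun v : ℂ => 1 + w * v) (w * 1) v :=
      ((hasDerivAt_id v).const_mul w).const_add 1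
    refine (a1.div a2 (hd v hv)).congr_deriv ?_
    congr 1
    rw [hw]
    ring
  have hg : ∀ v ∈ ball (0:ℂ) 1, HasDerivAt
      (fun v => (phi β (z * (1 + v) / (1 + w * v)) - phi β z) / (2 * z * (1 - (t:ℂ)) * dphi β z))
      (dphi β (z * (1 + v) / (1 + w * v)) / (1 + w * v) ^ 2 / dphi β z) v := fun v hv => by
    have a1 : HasDerivAt (fun v => phi β (z * (1 + v) / (1 + w * v)))
        (dphi β (z * (1 + v) / (1 + w * v)) * (2 * z * (1 - (t:ℂ)) / (1 + w * v) ^ 2)) v :=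
      HasDerivAt.comp (h₂ := phi β) v (hasDerivAt_phi h.diff (hmb v hv).1 (hmb v hv).2) (hL v hv)
    refine ((a1.sub_const _).div_const _).congr_deriv ?_
    have := hd v hv
    field_simp
  have h0b : (0:ℂ) ∈ ball (0:ℂ) 1 := mem_ball_self one_pos
  have e1 : z * (1 + 0) / (1 + w * 0) = z := by simp
  have k1 := Pool.Agent.Helper84.EK.second_le_two
    (f := fun v => (phi β (z * (1 + v) / (1 + w * v)) - phi β z) /
      (2 * z * (1 - (t:ℂ)) * dphi β z))
    (fun v hv => (hg v hv).differentiableAt.differentiableWithinAt)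
    (by
      intro v hv v' hv' he
      change (phi β (z * (1 + v) / (1 + w * v)) - phi β z) / (2 * z * (1 - (t:ℂ)) * dphi β z) =
        (phi β (z * (1 + v') / (1 + w * v')) - phi β z) / (2 * z * (1 - (t:ℂ)) * dphi β z) at he
      rw [div_left_inj' (mul_ne_zero h2z hD), sub_left_inj] at he
      have h3 := h.inj _ _ (hmb v hv).1 (hmb v' hv').1 (hmb v hv).2 (hmb v' hv').2 he
      rw [div_eq_div_iff (hd v hv) (hd v' hv')] at h3
      have h4 : 2 * z * (1 - (t:ℂ)) * (v - v') = 0 := by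
        rw [hw] at h3
        linear_combination h3
      exact sub_eq_zero.1 ((mul_eq_zero.1 h4).resolve_left h2z))
    (by
      change (phi β (z * (1 + 0) / (1 + w * 0)) - phi β z) / (2 * z * (1 - (t:ℂ)) * dphi β z) = 0
      rw [e1]
      simp)
    (by
      rw [(hg 0 h0b).deriv, e1]
      simp [hD])
  have k2 : iteratedDeriv 2 (fun v => (phi β (z * (1 + v) / (1 + w * v)) - phi β z) /
      (2 * z * (1 - (t:ℂ)) * dphi β z)) 0 =
      2 * z * (1 - (t:ℂ)) * (deriv (N β) z / N β z - 2 / z) - 2 * w := by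
    rw [iteratedDeriv_succ, iteratedDeriv_one]
    have h3 : deriv (fun v => (phi β (z * (1 + v) / (1 + w * v)) - phi β z) /
        (2 * z * (1 - (t:ℂ)) * dphi β z))
        =ᶠ[nhds 0] fun v => dphi β (z * (1 + v) / (1 + w * v)) / (1 + w * v) ^ 2 / dphi β z := by
      filter_upwards [isOpen_ball.mem_nhds h0b] with v hv
      exact (hg v hv).deriv
    rw [h3.deriv_eq]
    have h4 : HasDerivAt (dphi β) (dphi β z * (deriv (N β) z / N β z - 2 / z))
        (z * (1 + 0) / (1 + w * 0)) := by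
      rw [e1]
      exact hasDerivAt_dphi h hz hz0
    have h5 : HasDerivAt (fun v => dphi β (z * (1 + v) / (1 + w * v)))
        (dphi β z * (deriv (N β) z / N β z - 2 / z) * (2 * z * (1 - (t:ℂ)) / (1 + w * 0) ^ 2))
        0 :=
      HasDerivAt.comp (h₂ := dphi β) (0:ℂ) h4 (hL 0 h0b)
    have h6 : HasDerivAt (fun v : ℂ => (1 + w * v) ^ 2)
        (((2:ℕ):ℂ) * (1 + w * 0) ^ (2 - 1) * (w * 1)) 0 :=
      (((hasDerivAt_id (0:ℂ)).const_mul w).const_add 1).pow 2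
    have h7 := ((h5.div h6 (pow_ne_zero 2 (hd 0 h0b))).div_const (dphi β z)).deriv
    change deriv (fun v => dphi β (z * (1 + v) / (1 + w * v)) / (1 + w * v) ^ 2 / dphi β z) 0 = _
      at h7
    rw [h7, e1]
    generalize deriv (N β) z / N β z - 2 / z = q
    simp only [mul_zero, add_zero, one_pow, div_one, mul_one]
    push_cast
    (clear * - hD; field_simp)
  unfold coeff at k1
  rw [k2, norm_mul] at k1
  have h5 : ‖((Nat.factorial 2 : ℕ) : ℂ)⁻¹‖ = 1 / 2 := by simp [Nat.factorial]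
  rw [h5] at k1
  linarith only [k1]

/-- **the range of `mrad`** -/
theorem mrad_range (h : Ext β) {z : ℂ} (h1 : ‖z‖ < 1) (h2 : 1 / 2 ≤ ‖z‖) :
    ‖mrad β z + 3‖ ≤ 4 + 5 * (1 - ‖z‖) := by
  have k1 := preS_le h h1 h2
  have hz1 : 0 < ‖z‖ := by linarith only [h2]
  have hz0 : z ≠ 0 := norm_pos_iff.1 hz1
  have hc : conj z = (‖z‖ : ℂ) ^ 2 / z := by
    rw [eq_div_iff hz0, mul_comm, Complex.mul_conj']
  have e : mrad β z + 3 = -((((1 + ‖z‖) / (2 * ‖z‖) : ℝ)) : ℂ) *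
      (2 * z * (1 - ‖z‖) * (deriv (N β) z / N β z - 2 / z) - 2 * (2 * ‖z‖ - 1)) +
      -((((1 - ‖z‖) ^ 2 / ‖z‖ : ℝ)) : ℂ) := by
    unfold mrad
    generalize deriv (N β) z / N β z = D
    rw [hc]
    obtain ⟨t, ht⟩ : ∃ t : ℝ, t = ‖z‖ := ⟨_, rfl⟩
    rw [← ht]
    have ht0 : (t:ℂ) ≠ 0 := by
      rw [ht]
      exact_mod_cast hz1.ne'
    push_cast
    field_simp
    ring
  rw [e]
  refine (norm_add_le _ _).trans ?_
  rw [norm_mul, norm_neg, norm_neg, Complex.norm_real, Complex.norm_real,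
    Real.norm_of_nonneg (by (clear * - hz0; positivity)), Real.norm_of_nonneg (by positivity)]
  have h3 : (1 + ‖z‖) / (2 * ‖z‖) * ‖2 * z * (1 - ‖z‖) * (deriv (N β) z / N β z - 2 / z) -
      2 * (2 * ‖z‖ - 1)‖ ≤ (1 + ‖z‖) / (2 * ‖z‖) * 4 :=
    mul_le_mul_of_nonneg_left k1 (by positivity)
  refine (add_le_add h3 le_rfl).trans ?_
  rw [div_mul_eq_mul_div, div_add_div _ _ (by positivity) (by positivity),
    div_le_iff₀ (by positivity)]
  (clear * - h1 h2 hz1; linarith only [mul_nonneg (mul_nonneg (by linarith : 0 ≤ 1 - ‖z‖) (by linarith : 0 ≤ 2 * ‖z‖ - 1)) hz1.le])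

end Pool.Agent.Helper69.CK

end

section

namespace Pool.Agent.Helper39.Area
end Pool.Agent.Helper39.Area
namespace Pool.Agent.Helper52.EK
end Pool.Agent.Helper52.EK
namespace Pool.Agent.Helper52.CK
end Pool.Agent.Helper52.CK
namespace Pool.Agent.Helper70.EK
end Pool.Agent.Helper70.EK

set_option autoImplicit false

open Complex MeasureTheory Metric Set

open scoped Real ComplexConjugate

namespace Pool.Agent.Helper69.CK

open Pool.Agent.Helper39.Area Pool.Agent.Helper52.EK Pool.Agent.Helper52.CK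

open Pool.Agent.Helper70.EK (low norm_ph ph_sub_one err_le norm_e0)

/-- the multiplier `M` of the certificate and its bounded version `M'` -/
structure MOk (M M' : ℂ → ℂ) (Mb L ε : ℝ) : Prop where
  cont : Continuous M
  eq : ∀ m, ‖m + 3‖ ≤ 4 + ε → M m = M' m
  le : ∀ m, ‖M' m‖ ≤ Mb
  lip : ∀ m m', ‖M' m - M' m'‖ ≤ L * ‖m - m'‖

theorem MOk.cont' {M M' : ℂ → ℂ} {Mb L ε : ℝ} (h : MOk M M' Mb L ε) : Continuous M' := by
  have h1 : LipschitzWith (Real.toNNReal |L|) M' := by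
    refine LipschitzWith.of_dist_le_mul fun m m' => ?_
    rw [dist_eq_norm, dist_eq_norm, Real.coe_toNNReal _ (abs_nonneg L)]
    exact (h.lip m m').trans (mul_le_mul_of_nonneg_right (le_abs_self L) (norm_nonneg _))
  exact h1.continuous

theorem MOk.L0 {M M' : ℂ → ℂ} {Mb L ε : ℝ} (h : MOk M M' Mb L ε) : 0 ≤ L := by
  have h1 := h.lip 1 0
  have h2 : L * ‖(1:ℂ) - 0‖ = L := by simp
  rw [h2] at h1
  exact (norm_nonneg _).trans h1

theorem MOk.Mb0 {M M' : ℂ → ℂ} {Mb L ε : ℝ} (h : MOk M M' Mb L ε) : 0 ≤ Mb :=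
  (norm_nonneg _).trans (h.le 0)

/-- the multiplier as a function on the disc -/
noncomputable def Mh (M' : ℂ → ℂ) (β : ℂ → ℂ) (z : ℂ) : ℂ := (z / ‖z‖) ^ 2 * M' (mrad β z)

/-- the term of the multiplier in the strip -/
noncomputable def Mt (M : ℂ → ℂ) (q : ℝ) (X : ℂ → ℂ) (ξ η : ℝ) : ℝ :=
  (M (mX (X (pt ξ η)) (deriv X (pt ξ η)) (Real.sin η) (Real.cos η)) *
    e0 (Real.sin η) (Real.cos η) * (X (pt ξ η) ^ 2 - q)).re

theorem Mh_le {M M' : ℂ → ℂ} {Mb L ε : ℝ} (h : MOk M M' Mb L ε) (β : ℂ → ℂ) (z : ℂ) :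
    ‖Mh M' β z‖ ≤ Mb := by
  unfold Mh
  rw [norm_mul, norm_pow, norm_div, Complex.norm_real, norm_norm]
  have h1 : ‖z‖ / ‖z‖ ≤ 1 := div_self_le_one _
  have h2 : 0 ≤ ‖z‖ / ‖z‖ := by (clear * -; positivity)
  have h3 := h.le (mrad β z)
  have h4 : (‖z‖ / ‖z‖) ^ 2 ≤ 1 := pow_le_one₀ h2 h1
  have h5 := norm_nonneg (M' (mrad β z))
  nlinarith only [h3, h4, h5]

theorem Mh_cont {M M' : ℂ → ℂ} {Mb L ε : ℝ} (h : MOk M M' Mb L ε) {β : ℂ → ℂ} (hβ : Ext β) :
    ContinuousOn (Mh M' β) {z | 0 < ‖z‖ ∧ ‖z‖ < 1} := by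
  have h4 : ContinuousOn (fun z : ℂ => z / (‖z‖ : ℂ)) {z : ℂ | 0 < ‖z‖ ∧ ‖z‖ < 1} := by
    apply ContinuousOn.div continuousOn_id
    · exact (Complex.continuous_ofReal.comp continuous_norm).continuousOn
    · rintro z ⟨hz, _⟩
      exact Complex.ofReal_ne_zero.mpr hz.ne'
  exact (h4.pow 2).mul (h.cont'.comp_continuousOn (Pool.Agent.Helper70.EK.mrad_cont hβ))

theorem unit_sub_I {w : ℂ} (h : I + w ≠ 0) : ‖(I + w) / (‖I + w‖ : ℂ) - I‖ ≤ 2 * ‖w‖ := by
  have hr : 0 < ‖I + w‖ := norm_pos_iff.2 h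
  have hrc : (‖I + w‖ : ℂ) ≠ 0 := by exact_mod_cast hr.ne'
  have e : (I + w) / (‖I + w‖ : ℂ) - I = (I + w) / (‖I + w‖ : ℂ) * ((1 - ‖I + w‖ : ℝ) : ℂ) + w := by
    push_cast
    field_simp
    ring
  rw [e]
  refine (norm_add_le _ _).trans ?_
  rw [norm_mul, norm_div, Complex.norm_real, Complex.norm_real, norm_norm, div_self hr.ne',
    one_mul, Real.norm_eq_abs]
  have h1 : |1 - ‖I + w‖| ≤ ‖w‖ := by
    have h2 := abs_norm_sub_norm_le (I + w) I
    rw [Complex.norm_I, add_sub_cancel_left] at h2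
    rw [abs_sub_comm]
    exact h2
  (clear * - h1; linarith only [h1])

/-- the phase of the frame -/
theorem phase {ξ η : ℝ} (h0 : 0 < η) (h1 : η < π) (hξ : ξ ≤ -1) :
    ∃ p : ℂ, ‖p‖ = 1 ∧
      e0 (Real.sin η) (Real.cos η) * zd (pt ξ η) ^ 2 = (‖zd (pt ξ η)‖ : ℂ) ^ 2 * p ∧
      ‖p - (zf (pt ξ η) / ‖zf (pt ξ η)‖) ^ 2‖ ≤ 8 * Real.exp ξ := by
  have hξ0 : ξ < 0 := by (clear * - hξ; linarith only [hξ])
  have a1 := Pool.Agent.Helper97.EK.addI_ne (ξ := ξ) h0 h1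
  have a2 := Pool.Agent.Helper97.EK.subI_ne (η := η) hξ0
  have hE0 := Complex.exp_ne_zero (pt ξ η)
  have hEn := Pool.Agent.Helper97.EK.norm_exp_pt ξ η
  have he := Pool.Agent.Helper97.EK.e0_eq ξ η
  have hE2 : conj (Complex.exp (pt ξ η)) * Complex.exp (pt ξ η) = ((Real.exp ξ : ℝ) : ℂ) ^ 2 := by
    rw [mul_comm, Complex.mul_conj', hEn]
  rw [← hEn]
  unfold zd zf
  generalize Complex.exp (pt ξ η) = E at *
  have r1 : 0 < ‖I + E‖ := norm_pos_iff.2 a1
  have r2 : 0 < ‖I - E‖ := norm_pos_iff.2 a2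
  have c1 : (‖I + E‖ : ℂ) ≠ 0 := by exact_mod_cast r1.ne'
  have c2 : (‖I - E‖ : ℂ) ≠ 0 := by exact_mod_cast r2.ne'
  obtain ⟨u, hu⟩ : ∃ u : ℂ, u = (I + E) / (‖I + E‖ : ℂ) := ⟨_, rfl⟩
  obtain ⟨v, hv⟩ : ∃ v : ℂ, v = (I + -E) / (‖I + -E‖ : ℂ) := ⟨_, rfl⟩
  have u1 : ‖u‖ = 1 := by
    rw [hu, norm_div, Complex.norm_real, norm_norm, div_self r1.ne']
  have v1 : ‖v‖ = 1 := by
    rw [hv, norm_div, Complex.norm_real, norm_norm, div_self]
    rw [← sub_eq_add_neg]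
    exact r2.ne'
  have u0 : u ≠ 0 := by
    rw [← norm_pos_iff, u1]
    exact one_pos
  have k1 : ‖u - I‖ ≤ 2 * ‖E‖ := by
    rw [hu]
    exact unit_sub_I a1
  have k2 : ‖v - I‖ ≤ 2 * ‖E‖ := by
    have := unit_sub_I (w := -E) (by rwa [← sub_eq_add_neg])
    rw [norm_neg] at this
    rw [hv]
    exact this
  refine ⟨(u ^ 4)⁻¹, by rw [norm_inv, norm_pow, u1, one_pow, inv_one], ?_, ?_⟩
  · rw [he, norm_div, norm_pow, norm_mul, norm_mul, norm_neg, Complex.norm_I, hEn]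
    have e1 : E + I = (‖I + E‖ : ℂ) * u := by
      rw [hu]
      field_simp
      ring
    have e2 : ‖E + I‖ = ‖I + E‖ := by rw [add_comm]
    rw [e2, e1]
    have n2 : ‖(2:ℂ)‖ = 2 := by simp
    rw [n2]
    push_cast
    have e3 : -(conj E / E) * (-2 * I * E / ((‖I + E‖ : ℂ) * u) ^ 2) ^ 2 =
        4 * (conj E * E) / ((‖I + E‖ : ℂ) ^ 4 * u ^ 4) := by
      field_simp
      linear_combination (-4 * conj E) * Complex.I_sq
    rw [e3, hE2]
    push_cast
    field_simp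
    ring
  · have e1 : (I - E) / (I + E) / (‖(I - E) / (I + E)‖ : ℂ) = v / u := by
      rw [hu, hv, norm_div, ← sub_eq_add_neg]
      push_cast
      (clear * - c1 c2 a1 a2; field_simp)
    rw [e1]
    have e2 : (u ^ 4)⁻¹ - (v / u) ^ 2 = (u ^ 2)⁻¹ * ((u ^ 2)⁻¹ * (1 + u ^ 2) - (1 + v ^ 2)) := by
      field_simp
      ring
    rw [e2, norm_mul, norm_inv, norm_pow, u1, one_pow, inv_one, one_mul]
    refine (norm_sub_le _ _).trans ?_
    rw [norm_mul, norm_inv, norm_pow, u1, one_pow, inv_one, one_mul]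
    have k3 : ∀ x : ℂ, ‖x‖ = 1 → ‖x - I‖ ≤ 2 * ‖E‖ → ‖1 + x ^ 2‖ ≤ 4 * ‖E‖ := by
      intro x hx hxI
      have e3 : 1 + x ^ 2 = (x - I) * (x + I) := by linear_combination Complex.I_sq
      rw [e3, norm_mul]
      have k4 : ‖x + I‖ ≤ 2 := by
        have := norm_add_le x I
        rw [hx, Complex.norm_I] at this
        linarith only [this]
      nlinarith only [norm_nonneg (x - I), hxI, k4]
    have := k3 u u1 k1
    have := k3 v v1 k2
    linarith

theorem mX_close {β : ℂ → ℂ} (h : Ext β) {a : ℝ} (ha : 0 < a) (ha1 : a < 1) {ξ η : ℝ} (h0 : 0 < η)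
    (h1 : η < π) (hξ : ξ ≤ -1) (hξ1 : Real.log (tau a) < ξ) (hz : 1 / 2 ≤ ‖zf (pt ξ η)‖) :
    ‖mX (Xf β a (pt ξ η)) (deriv (Xf β a) (pt ξ η)) (Real.sin η) (Real.cos η) -
      mrad β (zf (pt ξ η))‖ ≤ 164 * Real.exp ξ := by
  have hξ0 : ξ < 0 := by linarith only [hξ]
  have hEn := Pool.Agent.Helper97.EK.norm_exp_pt ξ η
  have hE : ‖Complex.exp (pt ξ η)‖ ≤ 1 / 2 := by
    rw [hEn]
    have h8 : Real.exp ξ ≤ Real.exp (-1) := Real.exp_le_exp.mpr hξ
    have h9 : Real.exp (-1) < 0.3678794412 := Real.exp_neg_one_lt_d9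
    (clear * - h8 h9; linarith only [h8, h9])
  have k0 := Pool.Agent.Helper97.EK.zf_mem (ξ := ξ) h0 h1
  rw [mem_ball_zero_iff] at k0
  have k1 := mrad_range h k0 hz
  have k2 := Pool.Agent.Helper97.EK.E3a2 h ha ha1 h0 h1 hξ0 hξ1
  rw [add_assoc] at k2
  have n1 := norm_ph hE
  have n2 := ph_sub_one hE
  have n3 := err_le hE
  rw [hEn] at n2 n3
  change mrad β (zf (pt ξ η)) = Pool.Agent.Helper70.EK.ph (Complex.exp (pt ξ η)) * _ at k2
  generalize Pool.Agent.Helper70.EK.ph (Complex.exp (pt ξ η)) = p at *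
  generalize (2 * I * (Complex.exp (pt ξ η)).im / (Complex.exp (pt ξ η) + I) +
    4 * I * (Complex.exp (pt ξ η)).im / (Complex.exp (pt ξ η) - I) : ℂ) = e at *
  generalize mX (Xf β a (pt ξ η)) (deriv (Xf β a) (pt ξ η)) (Real.sin η) (Real.cos η) = m at *
  have k3 : ‖m + e‖ ≤ 19 / 2 := by
    have k4 : ‖mrad β (zf (pt ξ η))‖ = ‖m + e‖ := by rw [k2, norm_mul, n1, one_mul]
    rw [← k4]
    have k5 := norm_sub_le (mrad β (zf (pt ξ η)) + 3) 3
    rw [add_sub_cancel_right] at k5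
    have : ‖(3:ℂ)‖ = 3 := by simp
    rw [this] at k5
    linarith only [hz, k1, k5]
  have e1 : m - mrad β (zf (pt ξ η)) = -((p - 1) * (m + e)) - e := by
    rw [k2]
    ring
  rw [e1]
  refine (norm_sub_le _ _).trans ?_
  rw [norm_neg, norm_mul]
  have := mul_le_mul n2 k3 (norm_nonneg _) (by positivity)
  (clear * - n3 this; linarith only [n3, this])

theorem zd_zf {ω : ℂ} (h : I + Complex.exp ω ≠ 0) : zd ω = -(1 - zf ω ^ 2) / 2 := by
  unfold zd zf
  have h' : Complex.exp ω + I ≠ 0 := by rwa [add_comm]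
  field_simp
  ring

theorem omp_zero (z : ℂ) : omp 0 z = 2 / (1 - z ^ 2) := by
  unfold omp
  simp

/-- `X² - q` in the coordinates of the disc -/
theorem X_sq {β : ℂ → ℂ} {a q : ℝ} {ω : ℂ} (h : I + Complex.exp ω ≠ 0) :
    Xf β a ω ^ 2 - q = zd ω ^ 2 * (kA β a (zf ω) - q * omp 0 (zf ω) ^ 2) := by
  have hzd : zd ω ≠ 0 := by
    unfold zd
    refine div_ne_zero (mul_ne_zero (mul_ne_zero (by norm_num) Complex.I_ne_zero)
      (Complex.exp_ne_zero _)) (pow_ne_zero 2 (by rwa [add_comm]))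
  have e1 : zd ω ^ 2 * omp 0 (zf ω) ^ 2 = 1 := by
    have e2 := zd_zf h
    have h1 : (1 - zf ω ^ 2) ≠ 0 := by
      intro h0
      rw [h0] at e2
      simp at e2
      exact hzd e2
    rw [omp_zero, e2]
    field_simp
  have e3 : Xf β a ω ^ 2 = zd ω ^ 2 * kA β a (zf ω) := by
    unfold Xf kA
    ring
  rw [e3, mul_sub, ← mul_assoc, mul_comm (zd ω ^ 2) (q:ℂ), mul_assoc, e1, mul_one]

theorem norm_sq_sub (x : ℂ) (q : ℝ) :
    ‖x ^ 2 - q‖ ≤ (2 + |1 - q|) * (1 + ‖x - 1‖ ^ 2) := by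
  have e : x ^ 2 - q = (x - 1) ^ 2 + 2 * (x - 1) + ((1 - q : ℝ) : ℂ) := by
    push_cast
    ring
  rw [e]
  refine (norm_add_le _ _).trans ((add_le_add (norm_add_le _ _) le_rfl).trans ?_)
  rw [norm_pow, norm_mul, Complex.norm_real, Real.norm_eq_abs]
  have : ‖(2:ℂ)‖ = 2 := by simp
  rw [this]
  (clear * -; nlinarith only [mul_nonneg (abs_nonneg (1 - q)) (sq_nonneg ‖x - 1‖)])

/-- the comparison of the integrands -/
theorem cmp {M M' : ℂ → ℂ} {Mb L ε : ℝ} (hM : MOk M M' Mb L ε) (q : ℝ) {β : ℂ → ℂ} (h : Ext β)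
    {a : ℝ} (ha : 0 < a) (ha1 : a < 1) {ξ η : ℝ} (h0 : 0 < η) (h1 : η < π)
    (hξ1 : Real.log (tau a) < ξ) (hξ : 8 * Real.exp ξ ≤ 1) (hε : 184 * Real.exp ξ ≤ ε) :
    |Mt M q (Xf β a) ξ η - ‖zd (pt ξ η)‖ ^ 2 * (Mh M' β (zf (pt ξ η)) *
      (kA β a (zf (pt ξ η)) - q * omp 0 (zf (pt ξ η)) ^ 2)).re| ≤
      (164 * L + 8 * Mb) * (2 + |1 - q|) * (Real.exp ξ * (1 + ‖Xf β a (pt ξ η) - 1‖ ^ 2)) := by
  have hx1 : ξ ≤ -1 := by
    by_contra h2
    push Not at h2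
    have h3 : Real.exp (-1) < Real.exp ξ := Real.exp_lt_exp.2 h2
    have h4 : (0.36787944116:ℝ) < Real.exp (-1) := Real.exp_neg_one_gt_d9
    linarith only [hξ, h3, h4]
  have a1 := Pool.Agent.Helper97.EK.addI_ne (ξ := ξ) h0 h1
  obtain ⟨p, p1, p2, p3⟩ := phase h0 h1 hx1
  have k0 := Pool.Agent.Helper97.EK.zf_mem (ξ := ξ) h0 h1
  rw [mem_ball_zero_iff] at k0
  -- the point is near the circle
  have hEn := Pool.Agent.Helper97.EK.norm_exp_pt ξ η
  have k1 : 1 - ‖zf (pt ξ η)‖ ≤ 4 * Real.exp ξ := by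
    have e1 : 1 - zf (pt ξ η) = 2 * Complex.exp (pt ξ η) / (I + Complex.exp (pt ξ η)) := by
      unfold zf
      field_simp
      ring
    have h2 : ‖(1:ℂ)‖ - ‖zf (pt ξ η)‖ ≤ ‖1 - zf (pt ξ η)‖ := norm_sub_norm_le _ _
    rw [norm_one, e1, norm_div, norm_mul, hEn] at h2
    have h3 := (low (Complex.exp (pt ξ η)) (by rw [hEn]; (clear * - hξ; linarith only [hξ]))).1
    have : ‖(2:ℂ)‖ = 2 := by simp
    rw [this] at h2
    refine h2.trans ?_
    rw [div_le_iff₀ (by (clear * - h3; linarith only [h3]))]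
    (clear * - h3; nlinarith only [Real.exp_pos ξ, h3])
  have k2 : 1 / 2 ≤ ‖zf (pt ξ η)‖ := by linarith only [hξ, k1]
  have k3 := mX_close h ha ha1 h0 h1 hx1 hξ1 k2
  have k4 := mrad_range h k0 k2
  have k5 : ‖mX (Xf β a (pt ξ η)) (deriv (Xf β a) (pt ξ η)) (Real.sin η) (Real.cos η) + 3‖ ≤
      4 + ε := by
    have e1 : mX (Xf β a (pt ξ η)) (deriv (Xf β a) (pt ξ η)) (Real.sin η) (Real.cos η) + 3 =
        (mX (Xf β a (pt ξ η)) (deriv (Xf β a) (pt ξ η)) (Real.sin η) (Real.cos η) -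
        mrad β (zf (pt ξ η))) + (mrad β (zf (pt ξ η)) + 3) := by ring
    rw [e1]
    refine (norm_add_le _ _).trans ?_
    (clear * - hε k1 k3 k4; linarith only [hε, k1, k3, k4])
  have k6 := hM.eq _ k5
  unfold Mt
  rw [k6, mul_assoc, X_sq a1, ← mul_assoc (e0 (Real.sin η) (Real.cos η)), p2]
  have k7 : ‖(‖zd (pt ξ η)‖ : ℂ) ^ 2 * (kA β a (zf (pt ξ η)) - q * omp 0 (zf (pt ξ η)) ^ 2)‖ ≤
      (2 + |1 - q|) * (1 + ‖Xf β a (pt ξ η) - 1‖ ^ 2) := by
    have h2 := norm_sq_sub (Xf β a (pt ξ η)) q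
    rw [X_sq a1] at h2
    rw [norm_mul, norm_pow] at h2 ⊢
    rwa [Complex.norm_real, norm_norm]
  set K := kA β a (zf (pt ξ η)) - q * omp 0 (zf (pt ξ η)) ^ 2 with hK
  clear_value K
  have k8 := hM.lip (mX (Xf β a (pt ξ η)) (deriv (Xf β a) (pt ξ η)) (Real.sin η) (Real.cos η))
    (mrad β (zf (pt ξ η)))
  generalize mX (Xf β a (pt ξ η)) (deriv (Xf β a) (pt ξ η)) (Real.sin η) (Real.cos η) = m at *
  have k9 := hM.le (mrad β (zf (pt ξ η)))
  unfold Mh
  generalize mrad β (zf (pt ξ η)) = m' at *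
  have e1 : (M' m * ((‖zd (pt ξ η)‖ : ℂ) ^ 2 * p * K)).re -
      ‖zd (pt ξ η)‖ ^ 2 * ((zf (pt ξ η) / ‖zf (pt ξ η)‖) ^ 2 * M' m' * K).re =
      (((M' m - M' m') * p + M' m' * (p - (zf (pt ξ η) / ‖zf (pt ξ η)‖) ^ 2)) *
        ((‖zd (pt ξ η)‖ : ℂ) ^ 2 * K)).re := by
    have e2 : ‖zd (pt ξ η)‖ ^ 2 * ((zf (pt ξ η) / ‖zf (pt ξ η)‖) ^ 2 * M' m' * K).re =
        (((‖zd (pt ξ η)‖ ^ 2 : ℝ) : ℂ) * ((zf (pt ξ η) / ‖zf (pt ξ η)‖) ^ 2 * M' m' * K)).re := by
      rw [Complex.re_ofReal_mul]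
    rw [e2, ← Complex.sub_re]
    congr 1
    push_cast
    ring
  rw [e1]
  refine (abs_re_le_norm _).trans ?_
  rw [norm_mul]
  have hL := hM.L0
  have hMb := hM.Mb0
  have hexp := Real.exp_pos ξ
  have k10 : ‖(M' m - M' m') * p + M' m' * (p - (zf (pt ξ η) / ‖zf (pt ξ η)‖) ^ 2)‖ ≤
      (164 * L + 8 * Mb) * Real.exp ξ := by
    refine (norm_add_le _ _).trans ?_
    rw [norm_mul, norm_mul, p1, mul_one]
    have b1 : ‖M' m - M' m'‖ ≤ L * (164 * Real.exp ξ) :=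
      k8.trans (mul_le_mul_of_nonneg_left k3 hL)
    have b2 : ‖M' m'‖ * ‖p - (zf (pt ξ η) / ‖zf (pt ξ η)‖) ^ 2‖ ≤ Mb * (8 * Real.exp ξ) :=
      mul_le_mul k9 p3 (norm_nonneg _) hMb
    linarith only [b1, b2]
  have k11 := mul_le_mul k10 k7 (norm_nonneg _) (by (clear * - hL hMb; positivity))
  refine k11.trans (le_of_eq ?_)
  ring

end Pool.Agent.Helper69.CK

end

section

namespace Pool.Agent.Helper39.Area
end Pool.Agent.Helper39.Area
namespace Pool.Agent.Helper52.EK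
end Pool.Agent.Helper52.EK
namespace Pool.Agent.Helper52.CK
end Pool.Agent.Helper52.CK

set_option autoImplicit false

open Complex MeasureTheory Metric Set

open scoped Real ComplexConjugate

namespace Pool.Agent.Helper69.CK

open Pool.Agent.Helper39.Area Pool.Agent.Helper52.EK Pool.Agent.Helper52.CK

/-- the open rectangle -/
def SR (x₁ x₂ : ℝ) : Set ℂ := Ioo x₁ x₂ ×ℂ Ioo 0 π

theorem SR_sub (x₁ x₂ : ℝ) : SR x₁ x₂ ⊆ Rect x₁ x₂ := fun _ hω =>
  ⟨Ioo_subset_Icc_self hω.1, Ioo_subset_Icc_self hω.2⟩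

theorem SR_open (x₁ x₂ : ℝ) : IsOpen (SR x₁ x₂) := isOpen_Ioo.reProdIm isOpen_Ioo

theorem inj_zf {x₁ x₂ : ℝ} : InjOn zf (SR x₁ x₂) := by
  intro ω hω ω' hω' he
  have e1 := Pool.Agent.Helper86.EK.exp_ne_neg_I (SR_sub _ _ hω)
  have e2 := Pool.Agent.Helper86.EK.exp_ne_neg_I (SR_sub _ _ hω')
  rw [zf, zf, div_eq_div_iff e1 e2] at he
  have e3 : Complex.exp ω = Complex.exp ω' := by
    have : 2 * I * (Complex.exp ω - Complex.exp ω') = 0 := by linear_combination -he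
    have h4 : (2:ℂ) * I ≠ 0 := by simp
    exact sub_eq_zero.mp ((mul_eq_zero.mp this).resolve_left h4)
  obtain ⟨n, hn⟩ := Complex.exp_eq_exp_iff_exists_int.mp e3
  have h5 := congrArg Complex.im hn
  simp only [Complex.add_im, Complex.mul_im, Complex.intCast_re, Complex.intCast_im,
    Complex.mul_re, Complex.re_ofNat, Complex.im_ofNat, Complex.ofReal_re, Complex.ofReal_im,
    Complex.I_re, Complex.I_im, mul_zero, mul_one, sub_zero, zero_mul, add_zero] at h5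
  have hπ := Real.pi_pos
  have h6a : 0 < ω.im := hω.2.1
  have h6b : ω.im < π := hω.2.2
  have h7a : 0 < ω'.im := hω'.2.1
  have h7b : ω'.im < π := hω'.2.2
  have h8 : n = 0 := by
    have h9 : (n:ℝ) < 1 := by
      by_contra h10
      push Not at h10
      nlinarith only [h5, h6b, h7a, h7b, h10]
    have h11 : (-1:ℝ) < n := by
      by_contra h10
      push Not at h10
      (clear * - h5 hπ h6a h7b h10; nlinarith only [h5, hπ, h6a, h7b, h10])
    have h9' : n < 1 := by exact_mod_cast h9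
    have h11' : -1 < n := by exact_mod_cast h11
    omega
  rw [hn, h8]
  simp

/-- the points of the disc in the coordinate of the strip -/
theorem mem_image_zf {x₁ x₂ : ℝ} {z : ℂ} (h1 : ‖z‖ < 1) (h2 : Real.exp x₁ < ‖1 - z‖ / ‖1 + z‖)
    (h3 : ‖1 - z‖ / ‖1 + z‖ < Real.exp x₂) : z ∈ zf '' SR x₁ x₂ := by
  have hp : 1 + z ≠ 0 := by
    intro h0
    have : z = -1 := by linear_combination h0
    rw [this] at h1
    simp at h1
  have hE : I * (1 - z) / (1 + z) ≠ 0 := by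
    refine div_ne_zero (mul_ne_zero Complex.I_ne_zero fun h0 => ?_) hp
    have : z = 1 := by linear_combination -h0
    rw [this] at h1
    simp at h1
  have him : 0 < (I * (1 - z) / (1 + z)).im := by
    have e1 : I * (1 - z) / (1 + z) = I * (1 - z) * conj (1 + z) / (Complex.normSq (1 + z) : ℂ) := by
      rw [Complex.normSq_eq_conj_mul_self]
      have : conj (1 + z) ≠ 0 := (map_ne_zero _).2 hp
      field_simp
    rw [e1, Complex.div_ofReal_im]
    refine div_pos ?_ (Complex.normSq_pos.2 hp)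
    have h4 : ‖z‖ ^ 2 < 1 := pow_lt_one₀ (norm_nonneg _) h1 two_ne_zero
    rw [← Complex.normSq_eq_norm_sq, Complex.normSq_apply] at h4
    simp only [mul_im, mul_re, I_re, I_im, sub_re, sub_im, one_re, one_im, conj_re, conj_im,
      add_re, add_im]
    (clear * - h4; linarith only [h4])
  refine ⟨Complex.log (I * (1 - z) / (1 + z)), ⟨⟨?_, ?_⟩, ?_, ?_⟩, ?_⟩
  · change x₁ < (Complex.log _).re
    rw [Complex.log_re, norm_div, norm_mul, Complex.norm_I, one_mul]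
    rw [← Real.log_exp x₁]
    exact Real.log_lt_log (Real.exp_pos _) h2
  · change (Complex.log _).re < x₂
    rw [Complex.log_re, norm_div, norm_mul, Complex.norm_I, one_mul]
    rw [← Real.log_exp x₂]
    exact Real.log_lt_log ((Real.exp_pos _).trans h2) h3
  · change 0 < (Complex.log _).im
    rw [Complex.log_im]
    have h5 : 0 ≤ Complex.arg (I * (1 - z) / (1 + z)) := Complex.arg_nonneg_iff.2 him.le
    refine lt_of_le_of_ne h5 fun h6 => ?_
    have h7 := Complex.arg_eq_zero_iff.1 h6.symm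
    (clear * - him h7; linarith only [him, h7])
  · change (Complex.log _).im < π
    rw [Complex.log_im]
    refine lt_of_le_of_ne (Complex.arg_le_pi _) fun h6 => ?_
    have h7 := Complex.arg_eq_pi_iff.1 h6
    linarith only [him, h7]
  · unfold zf
    rw [Complex.exp_log hE]
    field_simp
    ring

/-- change of variables for functions supported in the image of the rectangle -/
theorem chg {x₁ x₂ : ℝ} {g : ℂ → ℝ} (hg : ∀ z, z ∉ zf '' SR x₁ x₂ → g z = 0) :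
    ∫ z, g z = ∫ ω in SR x₁ x₂, ‖zd ω‖ ^ 2 * g (zf ω) := by
  have hd : ∀ ω ∈ SR x₁ x₂, HasFDerivWithinAt zf (zd ω • (1 : ℂ →L[ℝ] ℂ)) (SR x₁ x₂) ω :=
    fun ω hω => (Pool.Agent.Helper86.EK.hasDerivAt_zf (Pool.Agent.Helper86.EK.exp_ne_neg_I
      (SR_sub _ _ hω))).complexToReal_fderiv.hasFDerivWithinAt
  rw [← setIntegral_eq_integral_of_forall_compl_eq_zero hg,
    integral_image_eq_integral_abs_det_fderiv_smul volume (SR_open x₁ x₂).measurableSet hd inj_zf]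
  simp only [Pool.Agent.Helper86.EK.det_cmul, smul_eq_mul]

/-- the strip integral of a difference -/
theorem int_diff {x₁ x₂ : ℝ} {F₁ F₂ E : ℂ → ℝ} (h1 : ContinuousOn F₁ (Rect x₁ x₂))
    (h2 : ContinuousOn F₂ (SR x₁ x₂)) (hE : ContinuousOn E (Rect x₁ x₂))
    (h : ∀ ω ∈ SR x₁ x₂, |F₁ ω - F₂ ω| ≤ E ω) :
    |(∫ ω in SR x₁ x₂, F₁ ω) - ∫ ω in SR x₁ x₂, F₂ ω| ≤ ∫ ω in SR x₁ x₂, E ω := by
  have hK : IsCompact (Rect x₁ x₂) := isCompact_Icc.reProdIm isCompact_Icc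
  have i1 : IntegrableOn F₁ (SR x₁ x₂) := (h1.integrableOn_compact hK).mono_set (SR_sub _ _)
  have iE : IntegrableOn E (SR x₁ x₂) := (hE.integrableOn_compact hK).mono_set (SR_sub _ _)
  have hm := (SR_open x₁ x₂).measurableSet
  have i2 : IntegrableOn F₂ (SR x₁ x₂) := by
    refine Integrable.mono' (i1.abs.add iE) (h2.aestronglyMeasurable hm) ?_
    rw [ae_restrict_iff' hm]
    refine Filter.Eventually.of_forall fun ω hω => ?_
    have h3 := h ω hω
    rw [Real.norm_eq_abs]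
    have h4 := abs_sub_abs_le_abs_sub (F₂ ω) (F₁ ω)
    rw [abs_sub_comm (F₂ ω)] at h4
    simp only [Pi.add_apply]
    (clear * - h3 h4; linarith only [h3, h4])
  rw [← integral_sub i1 i2, ← Real.norm_eq_abs]
  refine norm_integral_le_of_norm_le iE ?_
  rw [ae_restrict_iff' hm]
  exact Filter.Eventually.of_forall fun ω hω => by
    rw [Real.norm_eq_abs]
    exact h ω hω

/-- **the multiplier term, from the strip to the disc** -/
theorem conv {M M' : ℂ → ℂ} {Mb L ε : ℝ} (hM : MOk M M' Mb L ε) (q : ℝ) :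
    ∃ C : ℝ, 0 ≤ C ∧ ∀ (β : ℂ → ℂ) (R a A x₁ : ℝ) (W : ℂ → ℝ), ExtR β R → 0 < a → a < 1 →
      Real.log (tau a) < x₁ → x₁ ≤ -1 → 8 * Real.exp (-A) ≤ 1 → 184 * Real.exp (-A) ≤ ε →
      Continuous W → (∀ z, 0 ≤ W z) → (∀ z, W z ≤ 1) →
      (∀ z, W z ≠ 0 → ‖z‖ < 1 ∧ Real.exp x₁ < ‖1 - z‖ / ‖1 + z‖ ∧
        ‖1 - z‖ / ‖1 + z‖ ≤ Real.exp (-A)) →
      |II x₁ (-1) (fun ξ η => W (zf (pt ξ η)) * Mt M q (Xf β a) ξ η) -
        ∫ z0 : ℂ, W z0 * (Mh M' β z0 * (kA β a z0 - q * omp 0 z0 ^ 2)).re| ≤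
        C * (1 + Real.exp (-A) * II x₁ (-1) (fun ξ η => ‖Xf β a (pt ξ η) - 1‖ ^ 2)) := by
  obtain ⟨C₀, hC₀⟩ : ∃ C₀ : ℝ, C₀ = (164 * L + 8 * Mb) * (2 + |1 - q|) := ⟨_, rfl⟩
  have hL := hM.L0
  have hMb := hM.Mb0
  have hC0 : 0 ≤ C₀ := by rw [hC₀]; (clear * - hL hMb; positivity)
  refine ⟨C₀ * (π + 1), mul_nonneg hC0 (by positivity), ?_⟩
  intro β R a A x₁ W hβ ha ha1 hx1 hx hA1 hA2 hWc hW0 hW1 hWs
  have hxm : (-1:ℝ) < 0 := by norm_num
  have hX : NiceX (Xf β a) x₁ (-1) := Pool.Agent.Helper67.EK.E1c hβ ha ha1 hx1 hxm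
  have hexpA := Real.exp_pos (-A)
  have hAm : Real.exp (-A) < Real.exp (-1) := by
    have h4 : (0.36787944116:ℝ) < Real.exp (-1) := Real.exp_neg_one_gt_d9
    linarith only [hA1, h4]
  have himg : ∀ z, W z ≠ 0 → z ∈ zf '' SR x₁ (-1) := fun z hz => by
    obtain ⟨h1, h2, h3⟩ := hWs z hz
    exact mem_image_zf h1 h2 (h3.trans_lt hAm)
  -- the support in the strip
  have hsup : ∀ ω ∈ SR x₁ (-1), W (zf ω) ≠ 0 → Real.exp ω.re ≤ Real.exp (-A) := by
    intro ω hω h0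
    obtain ⟨_, _, h3⟩ := hWs _ h0
    have e1 := Pool.Agent.Helper86.EK.exp_ne_neg_I (SR_sub _ _ hω)
    have e2 : ‖1 - zf ω‖ / ‖1 + zf ω‖ = Real.exp ω.re := by
      rw [← norm_div]
      have e3 : (1 - zf ω) / (1 + zf ω) = Complex.exp ω / I := by
        have h5 : 1 - zf ω = 2 * Complex.exp ω / (I + Complex.exp ω) := by
          unfold zf
          field_simp
          ring
        have h6 : 1 + zf ω = 2 * I / (I + Complex.exp ω) := by
          unfold zf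
          field_simp
          ring
        rw [h5, h6]
        (clear * - e1; field_simp)
      rw [e3, norm_div, Complex.norm_I, div_one, Complex.norm_exp]
    rwa [e2] at h3
  -- continuity
  have hzc : ContinuousOn zf (Rect x₁ (-1)) := fun ω hω =>
    (Pool.Agent.Helper86.EK.hasDerivAt_zf
      (Pool.Agent.Helper86.EK.exp_ne_neg_I hω)).continuousAt.continuousWithinAt
  have cX := hX.an.continuousOn
  have cY := hX.an.deriv.continuousOn
  have ce : Continuous fun ω : ℂ => e0 (Real.sin ω.im) (Real.cos ω.im) := by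
    unfold e0
    fun_prop
  have cm : ContinuousOn (fun ω : ℂ => mX (Xf β a ω) (deriv (Xf β a) ω) (Real.sin ω.im)
      (Real.cos ω.im)) (Rect x₁ (-1)) := by
    unfold mX
    exact ((continuousOn_const.add ce.continuousOn).mul
      (((continuousOn_const.mul cX).sub continuousOn_const).add (cY.div cX hX.ne))).sub
      continuousOn_const
  have c1 : ContinuousOn (fun ω : ℂ => W (zf ω) * (M (mX (Xf β a ω) (deriv (Xf β a) ω)
      (Real.sin ω.im) (Real.cos ω.im)) * e0 (Real.sin ω.im) (Real.cos ω.im) *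
      (Xf β a ω ^ 2 - q)).re) (Rect x₁ (-1)) := by
    refine (hWc.comp_continuousOn hzc).mul (Complex.continuous_re.comp_continuousOn ?_)
    exact ((hM.cont.comp_continuousOn cm).mul ce.continuousOn).mul
      ((cX.pow 2).sub continuousOn_const)
  have cE : ContinuousOn (fun ω : ℂ => C₀ * (Real.exp ω.re + Real.exp (-A) *
      ‖Xf β a ω - 1‖ ^ 2)) (Rect x₁ (-1)) := by
    refine continuousOn_const.mul (ContinuousOn.add (by fun_prop)
      (continuousOn_const.mul ((cX.sub continuousOn_const).norm.pow 2)))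
  have hz1 : ∀ ω ∈ SR x₁ (-1), 0 < ‖zf ω‖ ∧ ‖zf ω‖ < 1 := by
    intro ω hω
    refine ⟨norm_pos_iff.2 (Pool.Agent.Helper86.EK.zf_ne_zero hxm (SR_sub _ _ hω)), ?_⟩
    apply Pool.Agent.Helper86.EK.norm_zf_lt
    rw [Complex.exp_im]
    exact mul_pos (Real.exp_pos _) (Real.sin_pos_of_pos_of_lt_pi hω.2.1 hω.2.2)
  have hzd0 : ∀ ω ∈ Rect x₁ (-1), zd ω ≠ 0 := by
    intro ω hω
    have h1 := Pool.Agent.Helper86.EK.exp_ne_neg_I hω
    unfold zd
    refine div_ne_zero (mul_ne_zero (mul_ne_zero (by norm_num) Complex.I_ne_zero)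
      (Complex.exp_ne_zero _)) (pow_ne_zero 2 (by rwa [add_comm]))
  have czd : ContinuousOn zd (Rect x₁ (-1)) := by
    unfold zd
    apply ContinuousOn.div (by fun_prop) (by fun_prop)
    intro ω hω
    apply pow_ne_zero
    rw [add_comm]
    exact Pool.Agent.Helper86.EK.exp_ne_neg_I hω
  have c2 : ContinuousOn (fun ω : ℂ => ‖zd ω‖ ^ 2 * (W (zf ω) * (Mh M' β (zf ω) *
      (kA β a (zf ω) - q * omp 0 (zf ω) ^ 2)).re)) (SR x₁ (-1)) := by
    have c3 : ContinuousOn (fun ω : ℂ => ‖zd ω‖ ^ 2 * (W (zf ω) * (Mh M' β (zf ω) *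
      ((Xf β a ω ^ 2 - q) / zd ω ^ 2)).re)) (SR x₁ (-1)) := by
      have s := SR_sub x₁ (-1)
      refine ((czd.mono s).norm.pow 2).mul ((hWc.comp_continuousOn (hzc.mono s)).mul
        (Complex.continuous_re.comp_continuousOn ?_))
      refine ((Mh_cont hM hβ.toExt).comp (hzc.mono s) hz1).mul ?_
      refine ((((cX.mono s).pow 2).sub continuousOn_const)).div ((czd.mono s).pow 2) ?_
      intro ω hω
      exact pow_ne_zero 2 (hzd0 ω (s hω))
    refine c3.congr fun ω hω => ?_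
    simp only
    rw [X_sq (Pool.Agent.Helper86.EK.exp_ne_neg_I (SR_sub _ _ hω)),
      mul_div_cancel_left₀ _ (pow_ne_zero 2 (hzd0 ω (SR_sub _ _ hω)))]
  -- the comparison
  have k1 := int_diff c1 c2 cE (by
    intro ω hω
    by_cases h0 : W (zf ω) = 0
    · rw [h0]
      simp only [zero_mul, mul_zero, sub_zero, abs_zero]
      exact mul_nonneg hC0 (by (clear * -; positivity))
    · have h1 := hsup ω hω h0
      have e1 : pt ω.re ω.im = ω := by
        rw [Pool.Agent.Helper86.EK.pt_eq]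
      have h2 := cmp hM q hβ.toExt ha ha1 (ξ := ω.re) (η := ω.im) hω.2.1 hω.2.2
        (hx1.trans hω.1.1) (by linarith) (by linarith)
      unfold Mt at h2
      rw [e1, ← hC₀] at h2
      have e2 : ∀ A B : ℝ, W (zf ω) * A - ‖zd ω‖ ^ 2 * (W (zf ω) * B) =
          W (zf ω) * (A - ‖zd ω‖ ^ 2 * B) := fun A B => by ring
      rw [e2, abs_mul, abs_of_nonneg (hW0 _)]
      refine (mul_le_mul_of_nonneg_right (hW1 _) (abs_nonneg _)).trans ?_
      rw [one_mul]
      refine h2.trans (mul_le_mul_of_nonneg_left ?_ hC0)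
      rw [mul_add, mul_one]
      exact add_le_add le_rfl (mul_le_mul_of_nonneg_right h1 (sq_nonneg _)))
  -- the integrals
  have e1 : II x₁ (-1) (fun ξ η => W (zf (pt ξ η)) * Mt M q (Xf β a) ξ η) =
      ∫ ω in SR x₁ (-1), W (zf ω) * (M (mX (Xf β a ω) (deriv (Xf β a) ω)
      (Real.sin ω.im) (Real.cos ω.im)) * e0 (Real.sin ω.im) (Real.cos ω.im) *
      (Xf β a ω ^ 2 - q)).re := by
    have h1 := Pool.Agent.Helper86.EK.II_eq hx c1
    rw [SR, ← h1]
    simp only [Pool.Agent.Helper97.EK.pt_im]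
    rfl
  have e2 : ∫ z0 : ℂ, W z0 * (Mh M' β z0 * (kA β a z0 - q * omp 0 z0 ^ 2)).re =
      ∫ ω in SR x₁ (-1), ‖zd ω‖ ^ 2 * (W (zf ω) * (Mh M' β (zf ω) *
      (kA β a (zf ω) - q * omp 0 (zf ω) ^ 2)).re) := by
    refine chg (g := fun z0 => W z0 * (Mh M' β z0 * (kA β a z0 - q * omp 0 z0 ^ 2)).re)
      fun z hz => ?_
    by_cases h0 : W z = 0
    · simp only [h0, zero_mul]
    · exact absurd (himg z h0) hz
  have e3 : ∫ ω in SR x₁ (-1), C₀ * (Real.exp ω.re + Real.exp (-A) * ‖Xf β a ω - 1‖ ^ 2) ≤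
      C₀ * (π + 1) * (1 + Real.exp (-A) * II x₁ (-1) (fun ξ η => ‖Xf β a (pt ξ η) - 1‖ ^ 2)) := by
    have hK : IsCompact (Rect x₁ (-1)) := isCompact_Icc.reProdIm isCompact_Icc
    have c5 : ContinuousOn (fun ω : ℂ => ‖Xf β a ω - 1‖ ^ 2) (Rect x₁ (-1)) :=
      (cX.sub continuousOn_const).norm.pow 2
    have c6 : ContinuousOn (fun ω : ℂ => Real.exp ω.re) (Rect x₁ (-1)) := by fun_prop
    have i5 : IntegrableOn (fun ω : ℂ => ‖Xf β a ω - 1‖ ^ 2) (SR x₁ (-1)) :=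
      (c5.integrableOn_compact hK).mono_set (SR_sub _ _)
    have i6 : IntegrableOn (fun ω : ℂ => Real.exp ω.re) (SR x₁ (-1)) :=
      (c6.integrableOn_compact hK).mono_set (SR_sub _ _)
    have h5 := Pool.Agent.Helper86.EK.II_eq hx c5
    have h6 := Pool.Agent.Helper86.EK.II_eq hx c6
    rw [integral_const_mul, integral_add i6 (i5.const_mul _), integral_const_mul]
    have h5' : ∫ ω in SR x₁ (-1), ‖Xf β a ω - 1‖ ^ 2 =
        II x₁ (-1) (fun ξ η => ‖Xf β a (pt ξ η) - 1‖ ^ 2) := h5.symm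
    have h6' : ∫ ω in SR x₁ (-1), Real.exp ω.re ≤ π := by
      have h7 : ∫ ω in SR x₁ (-1), Real.exp ω.re = II x₁ (-1) fun ξ η => Real.exp ξ := by
        rw [SR, ← h6]
        simp only [Pool.Agent.Helper97.EK.pt_re]
      rw [h7]
      unfold II
      simp only [intervalIntegral.integral_const, sub_zero, smul_eq_mul]
      rw [intervalIntegral.integral_const_mul, integral_exp]
      have h8 : Real.exp (-1) < 0.3678794412 := Real.exp_neg_one_lt_d9
      have := Real.exp_pos x₁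
      nlinarith only [Real.pi_pos, h8, this]
    rw [h5', mul_assoc]
    refine mul_le_mul_of_nonneg_left ?_ hC0
    have hnn : 0 ≤ II x₁ (-1) (fun ξ η => ‖Xf β a (pt ξ η) - 1‖ ^ 2) := by
      rw [← h5']
      exact integral_nonneg fun _ => sq_nonneg _
    have := mul_nonneg hexpA.le hnn
    nlinarith only [Real.pi_pos, h6', this]
  rw [e1, e2]
  exact k1.trans e3

end Pool.Agent.Helper69.CK

end

section

namespace Pool.Agent.Helper39.Area
end Pool.Agent.Helper39.Area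
namespace Pool.Agent.Helper52.EK
end Pool.Agent.Helper52.EK
namespace Pool.Agent.Helper52.CK
end Pool.Agent.Helper52.CK
namespace Pool.Agent.Helper9.EK
end Pool.Agent.Helper9.EK

set_option autoImplicit false

open Complex MeasureTheory Metric Set

open scoped Real ComplexConjugate

namespace Pool.Agent.Helper69.CK

open Pool.Agent.Helper39.Area Pool.Agent.Helper52.EK Pool.Agent.Helper52.CK

open Pool.Agent.Helper9.EK (rotβ norm_exp_mul deriv_rotβ mrad_rot conj_exp_mul norm_exp_one)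

theorem phi_rot {β : ℂ → ℂ} (α : ℝ) (z : ℂ) :
    phi (rotβ β α) z = Complex.exp (α * I) * phi β (Complex.exp (α * I) * z) := by
  have hc : Complex.exp (α * I) ≠ 0 := Complex.exp_ne_zero _
  unfold phi rotβ
  rw [mul_add, mul_inv, ← mul_assoc, mul_inv_cancel₀ hc, one_mul]

theorem dphi_rot {β : ℂ → ℂ} (α : ℝ) (z : ℂ) :
    dphi (rotβ β α) z = Complex.exp (α * I) ^ 2 * dphi β (Complex.exp (α * I) * z) := by
  have hc : Complex.exp (α * I) ≠ 0 := Complex.exp_ne_zero _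
  unfold dphi
  have h1 : Complex.exp (α * I) ^ 2 * (Complex.exp (α * I) ^ 2)⁻¹ = 1 :=
    mul_inv_cancel₀ (pow_ne_zero 2 hc)
  rw [deriv_rotβ, mul_pow, mul_inv]
  linear_combination (z ^ 2)⁻¹ * h1

theorem kA_rot {β : ℂ → ℂ} (α : ℝ) (b z : ℂ) :
    kA (rotβ β α) b z = Complex.exp (α * I) ^ 2 *
      kA β (Complex.exp (α * I) * b) (Complex.exp (α * I) * z) := by
  have hc : Complex.exp (α * I) ≠ 0 := Complex.exp_ne_zero _
  unfold kA
  rw [phi_rot, phi_rot, dphi_rot, ← mul_sub, mul_left_comm (2:ℂ)]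
  have e : Complex.exp (α * I) ^ 2 * dphi β (Complex.exp (α * I) * z) /
      (Complex.exp (α * I) * (2 * (phi β (Complex.exp (α * I) * z) -
        phi β (Complex.exp (α * I) * b)))) =
      Complex.exp (α * I) * (dphi β (Complex.exp (α * I) * z) /
      (2 * (phi β (Complex.exp (α * I) * z) - phi β (Complex.exp (α * I) * b)))) := by
    rw [pow_two, mul_assoc, mul_div_mul_left _ _ hc, mul_div_assoc]
  rw [e, mul_pow]

theorem omp_rot (α : ℝ) (z : ℂ) :
    omp 0 z = Complex.exp (α * I) * omp α (Complex.exp (α * I) * z) := by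
  have hc : Complex.exp (α * I) ≠ 0 := Complex.exp_ne_zero _
  rw [omp_zero]
  unfold omp
  have e : Complex.exp (α * I) ^ 2 - (Complex.exp (α * I) * z) ^ 2 =
      Complex.exp (α * I) ^ 2 * (1 - z ^ 2) := by ring
  rw [e, ← mul_div_assoc, mul_left_comm, ← pow_two, mul_comm (2:ℂ),
    mul_div_mul_left _ _ (pow_ne_zero 2 hc)]

theorem Mh_rot {M' β : ℂ → ℂ} (α : ℝ) (z : ℂ) :
    Mh M' (rotβ β α) z = conj (Complex.exp (α * I)) ^ 2 * Mh M' β (Complex.exp (α * I) * z) := by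
  unfold Mh
  rw [mrad_rot, norm_exp_mul, mul_div_assoc, mul_pow, ← mul_assoc, ← mul_assoc, ← mul_pow,
    conj_exp_mul, one_pow, one_mul]

theorem ep_eq (x θ : ℝ) : ep (-x) θ = Complex.exp (θ * I) * ((Real.exp (-x) : ℝ) : ℂ) := by
  unfold ep
  rw [Complex.ofReal_exp, ← Complex.exp_add]
  congr 1
  push_cast
  ring

theorem integral_rot (α : ℝ) (f : ℂ → ℝ) :
    ∫ z : ℂ, f (Complex.exp (α * I) * z) = ∫ z : ℂ, f z := by
  obtain ⟨u, hu⟩ : ∃ u : Circle, (u : ℂ) = Complex.exp (α * I) := ⟨Circle.exp α, Circle.coe_exp α⟩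
  have h1 := (rotation u).measurePreserving
  have h2 := h1.integral_comp (rotation u).toHomeomorph.measurableEmbedding f
  rw [← h2]
  simp only [rotation_apply, hu]

/-- **rotation of the multiplier term** -/
theorem MM_rot (κ dl : ℝ) (W0 : ℂ → ℝ) (M' β : ℂ → ℂ) (x θ : ℝ) :
    MM κ dl W0 (Mh M' β) β x θ = π⁻¹ * ∫ z : ℂ, W0 (Complex.exp (θ * I) * z) *
      (Mh M' (rotβ β θ) z * (kA (rotβ β θ) ((Real.exp (-x) : ℝ) : ℂ) z -
        ((1 + dl / (2 * κ) : ℝ) : ℂ) * omp 0 z ^ 2)).re := by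
  unfold MM
  rw [← integral_rot θ]
  congr 1
  refine integral_congr_ae (Filter.Eventually.of_forall fun z => ?_)
  simp only
  rw [Mh_rot, kA_rot, omp_rot θ, ep_eq]
  have h := conj_exp_mul θ
  congr 2
  have e : ∀ A B C D E : ℂ, E * D = 1 →
      B * (A - C) = E ^ 2 * B * (D ^ 2 * A - D ^ 2 * C) := by
    intro A B C D E h
    linear_combination (-(B * (A - C)) * (E * D + 1)) * h
  have e1 := e (kA β (Complex.exp (θ * I) * ((Real.exp (-x) : ℝ) : ℂ)) (Complex.exp (θ * I) * z))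
    (Mh M' β (Complex.exp (θ * I) * z)) (((1 + dl / (2 * κ) : ℝ) : ℂ) *
      omp θ (Complex.exp (θ * I) * z) ^ 2) (Complex.exp (θ * I)) (conj (Complex.exp (θ * I))) h
  rw [e1]
  ring

end Pool.Agent.Helper69.CK

end
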