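import Pool.Agent.Helper60.BE.T06
import Pool.Agent.Helper60.BE.T04
import Pool.Agent.Helper60.BE.T09
import Pool.Agent.Helper60.BE.T07
import Pool.Agent.Helper60.BE.T03
import Pool.Agent.Helper60.BE.T02

set_option linter.all false

section

namespace Pool.Agent.Helper52.EK
end Pool.Agent.Helper52.EK

set_option autoImplicit false

open Complex MeasureTheory Metric Set

open scoped Real ComplexConjugate

namespace Pool.Agent.Helper5.EK

open Pool.Agent.Helper52.EK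

theorem entropy_of_E2b
    (hE2b : ∀ (ρ : ℝ → ℝ) (w : ℂ → ℂ), Dens ρ → ContinuousOn w {z | 0 < ‖z‖ ∧ ‖z‖ < 1} →
      ∀ t : ℝ, t < 0 → 1 / Real.sinh t ^ 2 - kk ρ w t ≤ A2 ρ t) :
    ∃ C : ℝ, ∀ (ρ : ℝ → ℝ) (w : ℂ → ℂ) (a : ℝ), Dens ρ →
    ContinuousOn w {z | 0 < ‖z‖ ∧ ‖z‖ < 1} → Real.exp (-1) < a → a < 1 →
    -Real.log (1 - a ^ 2) - C ≤ (2 * π)⁻¹ * (∫ α in (0:ℝ)..(2 * π), ρ α * Real.log (ρ α)) +
      (2 * π)⁻¹ * ∫ α in (0:ℝ)..(2 * π), ρ α * Kf w (Complex.exp (α * I)) (-1) (Real.log a) :=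
  entropy_of (fun _ h _ ht => Pool.Agent.Helper48.EK.E2a h ht) hE2b
    Pool.Agent.Helper6.EK.E2c (fun _ h _ ht => Pool.Agent.Helper73.EK.E2d h ht)

end Pool.Agent.Helper5.EK

end

section

namespace Pool.Agent.Helper52.EK
end Pool.Agent.Helper52.EK
namespace Pool.Agent.Helper73.EK
end Pool.Agent.Helper73.EK
namespace Pool.Agent.Helper48.EK
end Pool.Agent.Helper48.EK

set_option autoImplicit false

open Complex MeasureTheory Metric Set

open scoped Real ComplexConjugate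

namespace Pool.Agent.Helper93.EK

open Pool.Agent.Helper52.EK Pool.Agent.Helper73.EK Pool.Agent.Helper48.EK

variable {ρ : ℝ → ℝ}

theorem tp : (0:ℝ) < 2 * π := by positivity

/-- the mean of `uu` over the circle -/
theorem mean_uu (h : Dens ρ) {t : ℝ} (ht : t < 0) :
    ∫ θ in (-π)..π, uu ρ t θ = 2 * π := by
  have cF : Continuous (Function.uncurry fun θ α : ℝ =>
      Pk (Complex.exp (α * I)) (ep t θ) * ρ α) := by
    have h1 : Continuous fun q : ℝ × ℝ => (q.2, q.1) := by fun_prop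
    exact ((continuous_Pk ht).comp h1).mul (h.cont.comp continuous_snd)
  unfold uu
  rw [intervalIntegral.integral_const_mul, Helper5.EK.swap2 cF]
  have h3 : ∀ α : ℝ, ∫ θ in (-π)..π, Pk (Complex.exp (α * I)) (ep t θ) * ρ α =
      2 * π * ρ α := by
    intro α
    rw [intervalIntegral.integral_mul_const, integral_Pk' ht]
  simp_rw [h3]
  rw [intervalIntegral.integral_const_mul, ← mul_assoc, inv_mul_cancel₀ tp.ne', one_mul, h.one]

theorem conj_mul_self_one {ζ : ℂ} (hζ : ‖ζ‖ = 1) : conj ζ * ζ = 1 := by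
  rw [mul_comm, Complex.mul_conj, Complex.normSq_eq_norm_sq, hζ]
  norm_num

theorem one_sub_conj {z ζ : ℂ} (hζ : ‖ζ‖ = 1) : 1 - conj z * ζ = conj (ζ - z) * ζ := by
  rw [map_sub, sub_mul, conj_mul_self_one hζ]

theorem norm_ee {ζ z : ℂ} (hζ : ‖ζ‖ = 1) (hz : ‖z‖ < 1) : ‖ee ζ z‖ = 1 := by
  have h2 : 0 < ‖ζ - z‖ := norm_pos_iff.mpr (sub_ne_zero_of hζ hz)
  rw [ee, one_sub_conj hζ, norm_div, norm_mul, RCLike.norm_conj, hζ, mul_one, div_self h2.ne']

/-- `Pk ee` is a multiple of `KK'` -/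
theorem pk_ee {t : ℝ} (ht : t < 0) (θ α : ℝ) :
    ((Pk (Complex.exp (α * I)) (ep t θ) : ℝ) : ℂ) * ee (Complex.exp (α * I)) (ep t θ) =
      ((1 - ‖ep t θ‖ ^ 2 : ℝ) : ℂ) / (2 * ep t θ) * KK' ((t : ℂ) + (θ : ℂ) * I) α := by
  have hz := norm_ep_lt ht θ
  have hζ := norm_cis α
  have h3 := sub_ne_zero_of hζ hz
  have h5 : conj (Complex.exp (α * I) - ep t θ) ≠ 0 := by rwa [Ne, map_eq_zero]
  have h4 : ((‖Complex.exp (α * I) - ep t θ‖ ^ 2 : ℝ) : ℂ) =
      (Complex.exp (α * I) - ep t θ) * conj (Complex.exp (α * I) - ep t θ) := by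
    rw [Complex.mul_conj, Complex.normSq_eq_norm_sq]
  have h6 : ep t θ ≠ 0 := by
    unfold ep
    exact Complex.exp_ne_zero _
  have h7 : KK' ((t : ℂ) + (θ : ℂ) * I) α =
      2 * Complex.exp (α * I) * ep t θ / (Complex.exp (α * I) - ep t θ) ^ 2 := rfl
  rw [Pk, ee, one_sub_conj hζ, Complex.ofReal_div, h4, h7]
  field_simp

theorem sinh_ep {t : ℝ} (ht : t < 0) (θ : ℝ) :
    ‖((1 - ‖ep t θ‖ ^ 2 : ℝ) : ℂ) / (2 * ep t θ)‖ = -Real.sinh t := by
  have h1 : 0 < 1 - ‖ep t θ‖ ^ 2 := by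
    have := norm_ep_lt ht θ
    nlinarith only [norm_nonneg (ep t θ), this]
  rw [norm_div, norm_mul, Complex.norm_real, Real.norm_of_nonneg h1.le, norm_ep, Real.sinh_eq,
    Complex.norm_ofNat]
  have h2 := Real.exp_pos t
  have h3 : Real.exp (-t) = (Real.exp t)⁻¹ := Real.exp_neg t
  rw [h3]
  field_simp
  ring

/-- the mean of `ρ Pk ee` -/
noncomputable def DD (ρ : ℝ → ℝ) (t θ : ℝ) : ℂ :=
  ((1 - ‖ep t θ‖ ^ 2 : ℝ) : ℂ) / (2 * ep t θ) * deriv (FF ρ) ((t : ℂ) + (θ : ℂ) * I)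

theorem cont_DD (hρ : Continuous ρ) {t : ℝ} (ht : t < 0) : Continuous fun θ => DD ρ t θ := by
  unfold DD
  have h1 : Continuous fun θ => ep t θ := by
    unfold ep
    fun_prop
  refine Continuous.mul (Continuous.div (by fun_prop) (by fun_prop) fun θ => ?_) ?_
  · have h6 : ep t θ ≠ 0 := by
      unfold ep
      exact Complex.exp_ne_zero _
    simpa using h6
  · exact (cont_dFF hρ).comp_continuous (by fun_prop) fun θ => pt_mem ht θ

theorem cont_pk {t : ℝ} (ht : t < 0) (θ : ℝ) :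
    Continuous fun α : ℝ => Pk (Complex.exp (α * I)) (ep t θ) :=
  continuous_Pk_one _ (norm_ep_lt ht θ)

theorem cont_ee {t : ℝ} (ht : t < 0) (θ : ℝ) :
    Continuous fun α : ℝ => ee (Complex.exp (α * I)) (ep t θ) := by
  unfold ee
  refine Continuous.div (by fun_prop) (by fun_prop) fun α => ?_
  exact sub_ne_zero_of (norm_cis α) (norm_ep_lt ht θ)

theorem int_DD (hρ : Continuous ρ) {t : ℝ} (ht : t < 0) (θ : ℝ) :
    ∫ α in (0:ℝ)..(2 * π), ((ρ α * Pk (Complex.exp (α * I)) (ep t θ) : ℝ) : ℂ) *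
      ee (Complex.exp (α * I)) (ep t θ) = 2 * π * DD ρ t θ := by
  have h1 : ∀ α : ℝ, ((ρ α * Pk (Complex.exp (α * I)) (ep t θ) : ℝ) : ℂ) *
      ee (Complex.exp (α * I)) (ep t θ) = ((1 - ‖ep t θ‖ ^ 2 : ℝ) : ℂ) / (2 * ep t θ) *
        ((ρ α : ℂ) * KK' ((t : ℂ) + (θ : ℂ) * I) α) := by
    intro α
    rw [Complex.ofReal_mul, mul_assoc, pk_ee ht]
    ring
  simp_rw [h1]
  rw [intervalIntegral.integral_const_mul, DD, deriv_FF hρ (pt_mem ht θ), Complex.real_smul]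
  have h2 : ((2 * π : ℝ) : ℂ) ≠ 0 := by exact_mod_cast tp.ne'
  push_cast at h2 ⊢
  field_simp

theorem norm_DD (hρ : Continuous ρ) {t : ℝ} (ht : t < 0) (θ : ℝ) :
    ‖DD ρ t θ‖ ^ 2 = Real.sinh t ^ 2 * (ut ρ t θ ^ 2 + uth ρ t θ ^ 2) := by
  rw [DD, norm_mul, sinh_ep ht, mul_pow, neg_sq, ut_eq hρ ht, uth_eq hρ ht,
    ← Complex.normSq_eq_norm_sq (deriv (FF ρ) _), Complex.normSq_apply]
  ring

/-- the loss at one point -/
theorem loss_eq (h : Dens ρ) {t : ℝ} (ht : t < 0) (θ : ℝ) (b : ℂ) :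
    (2 * π)⁻¹ * ∫ α in (0:ℝ)..(2 * π),
      ρ α * (Pk (Complex.exp (α * I)) (ep t θ) *
        ‖ee (Complex.exp (α * I)) (ep t θ) - b‖ ^ 2 / Real.sinh t ^ 2) =
      (Real.sinh t ^ 2)⁻¹ *
        ((1 + ‖b‖ ^ 2) * uu ρ t θ - 2 * (DD ρ t θ * conj b).re) := by
  have h1 : ∀ α : ℝ, ρ α * (Pk (Complex.exp (α * I)) (ep t θ) *
        ‖ee (Complex.exp (α * I)) (ep t θ) - b‖ ^ 2 / Real.sinh t ^ 2) =
      (Real.sinh t ^ 2)⁻¹ * ((1 + ‖b‖ ^ 2) * (Pk (Complex.exp (α * I)) (ep t θ) * ρ α) -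
        2 * ((((ρ α * Pk (Complex.exp (α * I)) (ep t θ) : ℝ) : ℂ) *
      ee (Complex.exp (α * I)) (ep t θ)) * conj b).re) := by
    intro α
    have h2 : ‖ee (Complex.exp (α * I)) (ep t θ) - b‖ ^ 2 =
        1 + ‖b‖ ^ 2 - 2 * (ee (Complex.exp (α * I)) (ep t θ) * conj b).re := by
      rw [← Complex.normSq_eq_norm_sq, Complex.normSq_sub, Complex.normSq_eq_norm_sq,
        Complex.normSq_eq_norm_sq, norm_ee (norm_cis α) (norm_ep_lt ht θ), one_pow]
    rw [h2, mul_assoc, Complex.re_ofReal_mul]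
    ring
  have c1 : Continuous fun α : ℝ => Pk (Complex.exp (α * I)) (ep t θ) * ρ α :=
    (cont_pk ht θ).mul h.cont
  have c2 : Continuous fun α : ℝ => ((ρ α * Pk (Complex.exp (α * I)) (ep t θ) : ℝ) : ℂ) *
      ee (Complex.exp (α * I)) (ep t θ) :=
    (Complex.continuous_ofReal.comp (h.cont.mul (cont_pk ht θ))).mul (cont_ee ht θ)
  have c3 : Continuous fun α : ℝ => ((((ρ α * Pk (Complex.exp (α * I)) (ep t θ) : ℝ) : ℂ) *
      ee (Complex.exp (α * I)) (ep t θ)) * conj b).re :=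
    Complex.continuous_re.comp (c2.mul continuous_const)
  simp_rw [h1]
  rw [intervalIntegral.integral_const_mul, intervalIntegral.integral_sub
    ((c1.const_mul _).intervalIntegrable _ _) ((c3.const_mul _).intervalIntegrable _ _),
    intervalIntegral.integral_const_mul, intervalIntegral.integral_const_mul]
  have h4 : ∫ α in (0:ℝ)..(2 * π), ((((ρ α * Pk (Complex.exp (α * I)) (ep t θ) : ℝ) : ℂ) *
      ee (Complex.exp (α * I)) (ep t θ)) * conj b).re = 2 * π * (DD ρ t θ * conj b).re := by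
    have h5 := Complex.reCLM.intervalIntegral_comp_comm (μ := volume)
      (f := fun α : ℝ => (((ρ α * Pk (Complex.exp (α * I)) (ep t θ) : ℝ) : ℂ) *
        ee (Complex.exp (α * I)) (ep t θ)) * conj b)
      ((c2.mul (continuous_const (y := conj b))).intervalIntegrable 0 (2 * π))
    simp only [Complex.reCLM_apply] at h5
    rw [h5, intervalIntegral.integral_mul_const, int_DD h.cont ht, mul_assoc,
      show (2 * (π : ℂ)) = ((2 * π : ℝ) : ℂ) by push_cast; ring, Complex.re_ofReal_mul]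
  have h6 : ∫ α in (0:ℝ)..(2 * π), Pk (Complex.exp (α * I)) (ep t θ) * ρ α =
      2 * π * uu ρ t θ := by
    rw [uu, ← mul_assoc, mul_inv_cancel₀ tp.ne', one_mul]
  rw [h4, h6]
  have h7 := tp.ne'
  (clear * -; field_simp)

/-- the variance inequality at one point -/
theorem loss_ge (h : Dens ρ) {t : ℝ} (ht : t < 0) (θ : ℝ) (b : ℂ) :
    (Real.sinh t ^ 2)⁻¹ * uu ρ t θ - (ut ρ t θ ^ 2 + uth ρ t θ ^ 2) / uu ρ t θ ≤
      (Real.sinh t ^ 2)⁻¹ *
        ((1 + ‖b‖ ^ 2) * uu ρ t θ - 2 * (DD ρ t θ * conj b).re) := by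
  have hs : Real.sinh t ≠ 0 := by
    have := Real.sinh_neg_iff.2 ht
    exact this.ne
  have hs2 : 0 < Real.sinh t ^ 2 := by (clear * - hs; positivity)
  have hu := Helper73.EK.uu_pos h ht θ
  set u := uu ρ t θ with hu'
  have h1 : ut ρ t θ ^ 2 + uth ρ t θ ^ 2 = (Real.sinh t ^ 2)⁻¹ * ‖DD ρ t θ‖ ^ 2 := by
    rw [norm_DD h.cont ht, ← mul_assoc, inv_mul_cancel₀ hs2.ne', one_mul]
  set D := DD ρ t θ
  have h6 : (D * conj b).re ≤ ‖D‖ * ‖b‖ := by
    refine (Complex.re_le_norm _).trans ?_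
    rw [norm_mul, RCLike.norm_conj]
  have h7 : ‖D‖ ^ 2 / u + ‖b‖ ^ 2 * u - 2 * (‖D‖ * ‖b‖) = (‖D‖ - u * ‖b‖) ^ 2 / u := by
    field_simp
    ring
  have h8 : 0 ≤ (‖D‖ - u * ‖b‖) ^ 2 / u := by (clear * - hu; positivity)
  have h9 : u - ‖D‖ ^ 2 / u ≤ (1 + ‖b‖ ^ 2) * u - 2 * (D * conj b).re := by linarith only [h6, h7, h8]
  rw [h1, mul_div_assoc, ← mul_sub]
  exact mul_le_mul_of_nonneg_left h9 (inv_pos.2 hs2).le

/-- E2b (variance inequality) -/
theorem E2b {ρ : ℝ → ℝ} (h : Dens ρ) {w : ℂ → ℂ}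
    (hw : ContinuousOn w {z | 0 < ‖z‖ ∧ ‖z‖ < 1}) {t : ℝ} (ht : t < 0) :
    1 / Real.sinh t ^ 2 - kk ρ w t ≤ A2 ρ t := by
  have hpi : -π ≤ π := by (clear * -; linarith only [Real.pi_pos])
  have cw : Continuous fun θ => w (ep t θ) := by
    refine hw.comp_continuous ?_ fun θ => ⟨?_, norm_ep_lt ht θ⟩
    · unfold ep
      fun_prop
    · rw [norm_ep]
      exact Real.exp_pos t
  have cu : Continuous fun θ => uu ρ t θ := continuous_uu h ht
  have cD := cont_DD h.cont ht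
  have cR : Continuous fun θ => (Real.sinh t ^ 2)⁻¹ *
      ((1 + ‖w (ep t θ)‖ ^ 2) * uu ρ t θ - 2 * (DD ρ t θ * conj (w (ep t θ))).re) := by
    have c1 : Continuous fun θ => conj (w (ep t θ)) := Complex.continuous_conj.comp cw
    have c2 : Continuous fun θ => (DD ρ t θ * conj (w (ep t θ))).re :=
      Complex.continuous_re.comp (cD.mul c1)
    exact (((continuous_const.add (cw.norm.pow 2)).mul cu).sub (c2.const_mul 2)).const_mul _
  have c3 := slice (G := fun t θ => (ut ρ t θ ^ 2 + uth ρ t θ ^ 2) / uu ρ t θ) (cont_i2 h) ht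
  have h1 := intervalIntegral.integral_mono_on (μ := volume) hpi
    (((cu.const_mul ((Real.sinh t ^ 2)⁻¹)).sub c3).intervalIntegrable (-π) π)
    (cR.intervalIntegrable (-π) π) fun θ _ => loss_ge h ht θ (w (ep t θ))
  simp only [Pi.sub_apply] at h1
  rw [intervalIntegral.integral_sub ((cu.const_mul _).intervalIntegrable _ _)
    (c3.intervalIntegrable _ _), intervalIntegral.integral_const_mul, mean_uu h ht] at h1
  have h2 : kk ρ w t = (2 * π)⁻¹ * ∫ θ in (-π)..π, (Real.sinh t ^ 2)⁻¹ *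
      ((1 + ‖w (ep t θ)‖ ^ 2) * uu ρ t θ - 2 * (DD ρ t θ * conj (w (ep t θ))).re) := by
    unfold kk
    congr 1
    exact intervalIntegral.integral_congr fun θ _ => loss_eq h ht θ _
  have h3 := mul_le_mul_of_nonneg_left h1 (inv_pos.2 tp).le
  rw [← h2, mul_sub] at h3
  have h4 : (2 * π)⁻¹ * ((Real.sinh t ^ 2)⁻¹ * (2 * π)) = 1 / Real.sinh t ^ 2 := by
    have h7 := tp.ne'
    rw [one_div]
    field_simp
  rw [h4] at h3
  have h5 : A2 ρ t = (2 * π)⁻¹ * ∫ θ in (-π)..π, (ut ρ t θ ^ 2 + uth ρ t θ ^ 2) / uu ρ t θ := rfl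
  rw [h5]
  (clear * - h3; linarith only [h3])

end Pool.Agent.Helper93.EK

end

section

namespace Pool.Agent.Helper52.EK
end Pool.Agent.Helper52.EK

set_option autoImplicit false

open Complex MeasureTheory Metric Set

open scoped Real ComplexConjugate

namespace Pool.Agent.Helper5.EK

open Pool.Agent.Helper52.EK

/-- E2: the entropy inequality (assembly) -/
theorem entropy : ∃ C : ℝ, ∀ (ρ : ℝ → ℝ) (w : ℂ → ℂ) (a : ℝ), Dens ρ →
    ContinuousOn w {z | 0 < ‖z‖ ∧ ‖z‖ < 1} → Real.exp (-1) < a → a < 1 →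
    -Real.log (1 - a ^ 2) - C ≤ (2 * π)⁻¹ * (∫ α in (0:ℝ)..(2 * π), ρ α * Real.log (ρ α)) +
      (2 * π)⁻¹ * ∫ α in (0:ℝ)..(2 * π), ρ α * Kf w (Complex.exp (α * I)) (-1) (Real.log a) :=
  entropy_of_E2b fun _ _ h hw _ ht => Pool.Agent.Helper93.EK.E2b h hw ht

end Pool.Agent.Helper5.EK

end

section

namespace Pool.Agent.Helper39.Area
end Pool.Agent.Helper39.Area
namespace Pool.Agent.Helper52.EK
end Pool.Agent.Helper52.EK

set_option autoImplicit false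

open Complex MeasureTheory Metric Set

open scoped Real ComplexConjugate

namespace Pool.Agent.Helper28.EK

open Pool.Agent.Helper39.Area Pool.Agent.Helper52.EK

theorem scale_mem {ρ : ℝ} (h0 : 0 < ρ) {z : ℂ} (hz : z ∈ ball (0:ℂ) ρ⁻¹) :
    (ρ : ℂ) * z ∈ ball (0:ℂ) 1 := by
  rw [mem_ball_zero_iff] at hz ⊢
  rw [norm_mul, Complex.norm_real, Real.norm_eq_abs, abs_of_pos h0]
  have := mul_lt_mul_of_pos_left hz h0
  rwa [mul_inv_cancel₀ h0.ne'] at this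

theorem scale_deriv {β : ℂ → ℂ} (h : DifferentiableOn ℂ β (ball 0 1)) {ρ : ℝ} {z : ℂ}
    (hz : (ρ : ℂ) * z ∈ ball (0:ℂ) 1) :
    HasDerivAt (fun z => (ρ : ℂ) * β (ρ * z)) ((ρ : ℂ) * (deriv β (ρ * z) * ρ)) z := by
  have h1 : HasDerivAt β (deriv β (ρ * z)) (ρ * z) :=
    (h.differentiableAt (isOpen_ball.mem_nhds hz)).hasDerivAt
  have h2 : HasDerivAt (fun z : ℂ => (ρ : ℂ) * z) (ρ : ℂ) z := by
    simpa using (hasDerivAt_id z).const_mul (ρ : ℂ)
  exact (h1.comp z h2).const_mul (ρ : ℂ)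

theorem scale_N {β : ℂ → ℂ} (h : DifferentiableOn ℂ β (ball 0 1)) {ρ : ℝ} {z : ℂ}
    (hz : (ρ : ℂ) * z ∈ ball (0:ℂ) 1) :
    N (fun z => (ρ : ℂ) * β (ρ * z)) z = N β (ρ * z) := by
  unfold N
  rw [(scale_deriv h hz).deriv]
  ring

/-- E6d: scaling -/
theorem scale_ExtR {β : ℂ → ℂ} (h : Ext β) {ρ : ℝ} (h0 : 0 < ρ) (h1 : ρ < 1) :
    ExtR (fun z => (ρ : ℂ) * β (ρ * z)) ρ⁻¹ := by
  have hρC : (ρ : ℂ) ≠ 0 := by exact_mod_cast h0.ne'
  refine ⟨(one_lt_inv₀ h0).2 h1, ?_, ?_, ?_⟩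
  · intro z hz
    exact (scale_deriv h.diff (scale_mem h0 hz)).differentiableAt.differentiableWithinAt
  · intro ζ ω hζ hω hζ0 hω0 heq
    have e : ∀ x : ℂ, x ≠ 0 → x⁻¹ + (ρ : ℂ) * β (ρ * x) = ρ * ((ρ * x)⁻¹ + β (ρ * x)) := by
      intro x hx
      (clear * - hx hρC; field_simp)
    rw [e ζ hζ0, e ω hω0] at heq
    have h3 := mul_left_cancel₀ hρC heq
    have h4 := h.inj _ _ (scale_mem h0 hζ) (scale_mem h0 hω) (mul_ne_zero hρC hζ0)
      (mul_ne_zero hρC hω0) h3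
    exact mul_left_cancel₀ hρC h4
  · intro ζ hζ
    have h3 := scale_N h.diff (scale_mem h0 hζ)
    unfold N at h3
    rw [h3]
    exact h.ne _ (scale_mem h0 hζ)

theorem N_cont {β : ℂ → ℂ} (h : Ext β) {r : ℝ} (h0 : 0 < r) (h1 : r < 1) (p : ℝ) :
    Continuous (fun α : ℝ => ‖N β (r * Complex.exp (α * I))‖ ^ (-p)) := by
  have hmem : ∀ α : ℝ, (r : ℂ) * Complex.exp (α * I) ∈ ball (0:ℂ) 1 := by
    intro α
    rw [mem_ball_zero_iff, norm_mul, Complex.norm_exp_ofReal_mul_I, mul_one, Complex.norm_real,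
      Real.norm_eq_abs, abs_of_pos h0]
    exact h1
  have hN : ContinuousOn (fun z => ‖N β z‖ ^ (-p)) (ball (0:ℂ) 1) := by
    have hd : ContinuousOn (deriv β) (ball (0:ℂ) 1) :=
      ((h.diff.deriv isOpen_ball).continuousOn)
    have h2 : ContinuousOn (fun z => ‖N β z‖) (ball (0:ℂ) 1) := by
      unfold N
      exact (continuousOn_const.sub ((continuousOn_id.pow 2).mul hd)).norm
    refine h2.rpow_const ?_
    intro z hz
    left
    exact norm_ne_zero_iff.2 (h.ne z hz)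
  have h3 : Continuous (fun α : ℝ => (r : ℂ) * Complex.exp (α * I)) := by fun_prop
  exact hN.comp_continuous h3 hmem

end Pool.Agent.Helper28.EK

end

section

set_option autoImplicit false
open Complex MeasureTheory Metric Set Filter Topology
open scoped Real ENNReal ComplexConjugate NNReal

/-! Identification of the branch; the Goluzin inequality `|log (1 - ζ² β')| ≤ log 1/(1-|ζ|²)`. -/

namespace Pool.Agent.Helper39.Area

theorem eq_zero_of_exp_one {X : Type*} [TopologicalSpace X] {S : Set X} (hS : IsPreconnected S)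
    {f : X → ℂ} (hf : ContinuousOn f S) (he : ∀ x ∈ S, Complex.exp (f x) = 1) {x0 : X}
    (hx0 : x0 ∈ S) (h0 : f x0 = 0) : ∀ x ∈ S, f x = 0 := by
  have him : ContinuousOn (fun x => (f x).im) S := Complex.continuous_im.comp_continuousOn hf
  have hpre := (hS.image _ him).ordConnected
  intro x hx
  obtain ⟨n, hn⟩ := Complex.exp_eq_one_iff.mp (he x hx)
  have him2 : (f x).im = n * (2 * π) := by rw [hn]; simp
  have hn0 : n = 0 := by
    by_contra hne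
    -- a value with imaginary part ±π
    have hz : (0:ℝ) ∈ (fun x => (f x).im) '' S := ⟨x0, hx0, by simp [h0]⟩
    have hz2 : (n * (2 * π) : ℝ) ∈ (fun x => (f x).im) '' S := ⟨x, hx, him2⟩
    have key : ∀ t : ℝ, (t = π ∨ t = -π) → t ∉ (fun x => (f x).im) '' S := by
      rintro t ht ⟨y, hy, hyt⟩
      obtain ⟨m, hm⟩ := Complex.exp_eq_one_iff.mp (he y hy)
      have h1 : (f y).im = m * (2 * π) := by rw [hm]; simp
      simp only at hyt
      rw [hyt] at h1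
      have hpi := Real.pi_pos
      rcases ht with rfl | rfl
      · have h2 : (1:ℝ) = m * 2 := by
          have : π * 1 = π * (m * 2) := by linarith
          exact mul_left_cancel₀ hpi.ne' this
        have h3 : (1:ℤ) = m * 2 := by exact_mod_cast h2
        omega
      · have h2 : (-1:ℝ) = m * 2 := by
          have : π * (-1) = π * (m * 2) := by linarith
          exact mul_left_cancel₀ hpi.ne' this
        have h3 : (-1:ℤ) = m * 2 := by exact_mod_cast h2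
        omega
    have hpi := Real.pi_pos
    rcases lt_or_gt_of_ne hne with h | h
    · have h1 : (n:ℝ) ≤ -1 := by exact_mod_cast (Int.le_sub_one_iff.mpr h)
      exact key (-π) (Or.inr rfl) (hpre.out hz2 hz ⟨by nlinarith, by linarith⟩)
    · have h1 : (1:ℝ) ≤ n := by exact_mod_cast h
      exact key π (Or.inl rfl) (hpre.out hz hz2 ⟨by linarith, by nlinarith⟩)
  rw [hn, hn0]; simp

variable {β : ℂ → ℂ}

theorem dslope_cont (hβ : DifferentiableOn ℂ β (ball 0 1)) :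
    ContinuousOn (fun p : ℂ × ℂ => dslope β p.1 p.2) (ball 0 1 ×ˢ ball 0 1) := by
  rintro ⟨a, b⟩ ⟨ha, hb⟩
  simp only at ha hb
  apply ContinuousAt.continuousWithinAt
  have hβa : ContinuousAt β a := (hβ.differentiableAt (isOpen_ball.mem_nhds ha)).continuousAt
  have hβb : ContinuousAt β b := (hβ.differentiableAt (isOpen_ball.mem_nhds hb)).continuousAt
  by_cases hab : a = b
  · subst hab
    have han : AnalyticAt ℂ β a := hβ.analyticAt (isOpen_ball.mem_nhds ha)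
    have hst : HasStrictDerivAt β (deriv β a) a := han.hasStrictDerivAt
    have hdc : ContinuousAt (deriv β) a :=
      ((hβ.deriv isOpen_ball).differentiableAt (isOpen_ball.mem_nhds ha)).continuousAt
    have hdc2 : ContinuousAt (fun p : ℂ × ℂ => deriv β p.1) (a, a) :=
      ContinuousAt.comp (f := Prod.fst) (g := deriv β) (x := ((a, a) : ℂ × ℂ)) hdc continuousAt_fst
    rw [Metric.continuousAt_iff']
    intro ε hε
    rw [Metric.continuousAt_iff'] at hdc2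
    have h1 := (hasStrictDerivAt_iff_hasStrictFDerivAt.mp hst).isLittleO
    have h2 := (Asymptotics.isLittleO_iff.mp h1) (half_pos hε)
    filter_upwards [h2, hdc2 ε hε] with p hp1 hp2
    simp only [dslope_same]
    by_cases hp : p.1 = p.2
    · rw [← hp, dslope_same]
      exact hp2
    · rw [dslope_of_ne _ (Ne.symm hp), slope_def_field, dist_eq_norm]
      have h3 : p.2 - p.1 ≠ 0 := sub_ne_zero.mpr (Ne.symm hp)
      have h4 : (β p.2 - β p.1) / (p.2 - p.1) - deriv β a =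
          (β p.1 - β p.2 - (p.1 - p.2) * deriv β a) / (p.1 - p.2) := by
        have h5 : p.1 - p.2 ≠ 0 := sub_ne_zero.mpr hp
        field_simp
        ring
      rw [h4, norm_div]
      have h5 : 0 < ‖p.1 - p.2‖ := norm_pos_iff.mpr (sub_ne_zero.mpr hp)
      rw [div_lt_iff₀ h5]
      have h6 : ‖β p.1 - β p.2 - (p.1 - p.2) * deriv β a‖ ≤ ε / 2 * ‖p.1 - p.2‖ := by
        simpa [mul_comm] using hp1
      nlinarith
  · have hne : ∀ᶠ p : ℂ × ℂ in 𝓝 (a, b), p.1 ≠ p.2 := by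
      have : IsOpen {p : ℂ × ℂ | p.1 ≠ p.2} := isOpen_ne_fun continuous_fst continuous_snd
      exact this.mem_nhds hab
    have h1 : ContinuousAt (fun p : ℂ × ℂ => (β p.2 - β p.1) / (p.2 - p.1)) (a, b) := by
      have c1 : ContinuousAt (fun p : ℂ × ℂ => β p.1) (a, b) :=
        ContinuousAt.comp (f := Prod.fst) (g := β) (x := ((a, b) : ℂ × ℂ)) hβa continuousAt_fst
      have c2 : ContinuousAt (fun p : ℂ × ℂ => β p.2) (a, b) :=
        ContinuousAt.comp (f := Prod.snd) (g := β) (x := ((a, b) : ℂ × ℂ)) hβb continuousAt_snd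
      exact (c2.sub c1).div (continuousAt_snd.sub continuousAt_fst) (sub_ne_zero.mpr (Ne.symm hab))
    apply h1.congr
    filter_upwards [hne] with p hp
    rw [dslope_of_ne _ (Ne.symm hp), slope_def_field]

theorem goluzin (h : Ext β) {H : ℂ → ℂ} (hH : ContinuousOn H (ball 0 1)) (hH0 : H 0 = 0)
    (hexp : ∀ ζ ∈ ball (0:ℂ) 1, Complex.exp (H ζ) = 1 - ζ ^ 2 * deriv β ζ) {a : ℂ}
    (ha : a ∈ ball (0:ℂ) 1) : ‖H a‖ ≤ - Real.log (1 - ‖a‖ ^ 2) := by
  set U : Set (ℂ × ℂ) := ball 0 1 ×ˢ ball 0 1 with hU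
  have hUo : IsOpen U := isOpen_ball.prod isOpen_ball
  have hUconv : Convex ℝ U := (convex_ball _ _).prod (convex_ball _ _)
  have h00 : ((0:ℂ), (0:ℂ)) ∈ U := ⟨mem_ball_self one_pos, mem_ball_self one_pos⟩
  have hUs : IsSimplyConnected U := by
    have hc : ContractibleSpace U := hUconv.contractibleSpace ⟨_, h00⟩
    show SimplyConnectedSpace U
    infer_instance
  have hqc : ContinuousOn (fun p : ℂ × ℂ => qq β p.1 p.2) U := by
    unfold qq
    apply ContinuousOn.sub continuousOn_const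
    apply ContinuousOn.mul (by fun_prop)
    exact dslope_cont h.diff
  have hq0 : 0 ∉ (fun p : ℂ × ℂ => qq β p.1 p.2) '' U := by
    rintro ⟨p, ⟨hp1, hp2⟩, hp⟩
    exact qq_ne h hp1 hp2 hp
  obtain ⟨Φ, hΦc, hΦ⟩ := Complex.exists_continuousOn_eqOn_exp_comp hUs hUo hqc hq0
  have hΦe : ∀ b ∈ ball (0:ℂ) 1, ∀ ζ ∈ ball (0:ℂ) 1, Complex.exp (Φ (b, ζ)) = qq β b ζ :=
    fun b hb ζ hζ => hΦ (show (b, ζ) ∈ U from ⟨hb, hζ⟩)
  have h0b : (0:ℂ) ∈ ball (0:ℂ) 1 := mem_ball_self one_pos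
  -- the diagonal
  have hTc : ContinuousOn (fun b : ℂ => Φ (b, b) - Φ (b, 0)) (ball 0 1) := by
    apply ContinuousOn.sub
    · exact hΦc.comp (by fun_prop) (fun b hb => ⟨hb, hb⟩)
    · exact hΦc.comp (by fun_prop) (fun b hb => ⟨hb, h0b⟩)
  have hTe : ∀ b ∈ ball (0:ℂ) 1, Complex.exp (Φ (b, b) - Φ (b, 0)) = 1 - b ^ 2 * deriv β b := by
    intro b hb
    rw [Complex.exp_sub, hΦe b hb b hb, hΦe b hb 0 h0b]
    simp only [qq, mul_zero, zero_mul, sub_zero, div_one, dslope_same]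
    ring
  have hTHc : ContinuousOn (fun b : ℂ => (Φ (b, b) - Φ (b, 0)) - H b) (ball 0 1) := hTc.sub hH
  have hTH : ∀ b ∈ ball (0:ℂ) 1, (Φ (b, b) - Φ (b, 0)) - H b = 0 := by
    apply eq_zero_of_exp_one (convex_ball (0:ℂ) 1).isPreconnected hTHc _ h0b
    · simp [hH0]
    · intro b hb
      rw [Complex.exp_sub, hTe b hb, hexp b hb, div_self]
      exact h.ne b hb
  -- the logarithm for fixed `a`
  have hqd := qq_diff h.diff ha
  have hQd : DifferentiableOn ℂ (fun ζ => deriv (qq β a) ζ / qq β a ζ) (ball 0 1) :=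
    (hqd.deriv isOpen_ball).div hqd (fun ζ hζ => qq_ne h ha hζ)
  obtain ⟨F, hF0, hF⟩ := hQd.isExactOn_ball.with_val_at 0 0
  have hFe : ∀ ζ ∈ ball (0:ℂ) 1, Complex.exp (F ζ) = qq β a ζ := by
    -- `exp F / q` has zero derivative
    have hderiv : ∀ ζ ∈ ball (0:ℂ) 1, HasDerivAt (fun ζ => Complex.exp (-F ζ) * qq β a ζ) 0 ζ := by
      intro ζ hζ
      have h1 := ((hF ζ hζ).neg.cexp).mul ((hqd.differentiableAt (isOpen_ball.mem_nhds hζ)).hasDerivAt)
      have h2 := qq_ne h ha hζ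
      have e : (0:ℂ) = Complex.exp (-F ζ) * -(deriv (qq β a) ζ / qq β a ζ) * qq β a ζ +
          Complex.exp (-F ζ) * deriv (qq β a) ζ := by
        field_simp
        ring
      rw [e]
      exact h1
    intro ζ hζ
    have h1 : Complex.exp (-F ζ) * qq β a ζ = Complex.exp (-F 0) * qq β a 0 := by
      apply (convex_ball (0:ℂ) 1).is_const_of_fderivWithin_eq_zero (𝕜 := ℂ)
        (f := fun ζ => Complex.exp (-F ζ) * qq β a ζ) _ _ hζ h0b
      · intro ω hω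
        exact (hderiv ω hω).differentiableAt.differentiableWithinAt
      · intro ω hω
        have h3 := (hderiv ω hω).hasFDerivAt.hasFDerivWithinAt (s := ball (0:ℂ) 1)
        rw [h3.fderivWithin (isOpen_ball.uniqueDiffWithinAt hω)]
        ext
        simp
    rw [hF0, neg_zero, Complex.exp_zero, one_mul] at h1
    have h2 : qq β a 0 = 1 := by simp [qq]
    rw [h2, Complex.exp_neg] at h1
    have h3 := Complex.exp_ne_zero (F ζ)
    field_simp at h1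
    exact h1.symm
  have hFc : ContinuousOn F (ball 0 1) := fun ζ hζ => (hF ζ hζ).continuousAt.continuousWithinAt
  have hFΦ : ∀ ζ ∈ ball (0:ℂ) 1, (Φ (a, ζ) - Φ (a, 0)) - F ζ = 0 := by
    apply eq_zero_of_exp_one (convex_ball (0:ℂ) 1).isPreconnected _ _ h0b
    · simp [hF0]
    · apply ContinuousOn.sub _ hFc
      apply ContinuousOn.sub _ continuousOn_const
      exact hΦc.comp (by fun_prop) (fun ζ hζ => ⟨ha, hζ⟩)
    · intro ζ hζ
      rw [Complex.exp_sub, Complex.exp_sub, hΦe a ha ζ hζ, hΦe a ha 0 h0b, hFe ζ hζ]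
      have h2 : qq β a 0 = 1 := by simp [qq]
      rw [h2, div_one, div_self (qq_ne h ha hζ)]
  have h1 := hTH a ha
  have h2 := hFΦ a ha
  have h3 : H a = F a := by linear_combination h2 - h1
  rw [h3]
  exact log_bound h ha hF hF0 hFe

end Pool.Agent.Helper39.Area

end

section

set_option autoImplicit false
open Complex MeasureTheory Metric Set Filter Topology
open scoped Real ENNReal ComplexConjugate NNReal

/-! Transfer from the exterior of the disc to the disc. -/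

namespace Pool.Agent.Helper39.Area

noncomputable def toDisc (l : ℂ) (f : ℂ → ℂ) (ζ : ℂ) : ℂ := if ζ = 0 then l else f ζ⁻¹

theorem inv_mem {ζ : ℂ} (hζ : ζ ∈ ball (0:ℂ) 1) (h0 : ζ ≠ 0) : 1 < ‖ζ⁻¹‖ := by
  rw [mem_ball, dist_zero_right] at hζ
  rw [norm_inv]
  exact (one_lt_inv₀ (norm_pos_iff.mpr h0)).mpr hζ

theorem isOpen_ext : IsOpen {z : ℂ | 1 < ‖z‖} := isOpen_lt continuous_const continuous_norm

theorem toDisc_diff {f : ℂ → ℂ} {l : ℂ} (hf : DifferentiableOn ℂ f {z : ℂ | 1 < ‖z‖})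
    (hl : Tendsto f (Bornology.cobounded ℂ) (𝓝 l)) :
    DifferentiableOn ℂ (toDisc l f) (ball 0 1) := by
  have hb : ball (0:ℂ) 1 ∈ 𝓝 (0:ℂ) := ball_mem_nhds 0 one_pos
  rw [← differentiableOn_compl_singleton_and_continuousAt_iff hb]
  constructor
  · rintro ζ ⟨hζ, h0⟩
    have h0' : ζ ≠ 0 := h0
    have h1 : DifferentiableAt ℂ (fun ζ : ℂ => f ζ⁻¹) ζ := by
      have h2 := hf.differentiableAt (isOpen_ext.mem_nhds (inv_mem hζ h0'))
      exact h2.comp ζ (differentiableAt_inv h0')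
    have h2 : toDisc l f =ᶠ[𝓝 ζ] fun ζ : ℂ => f ζ⁻¹ := by
      filter_upwards [isOpen_ne.mem_nhds h0'] with ω hω
      simp only [toDisc]
      rw [if_neg hω]
    exact (h1.congr_of_eventuallyEq h2).differentiableWithinAt
  · rw [continuousAt_iff_punctured_nhds]
    have h1 : Tendsto (fun ζ : ℂ => f ζ⁻¹) (𝓝[≠] 0) (𝓝 l) := hl.comp tendsto_inv₀_nhdsNE_zero
    have h2 : toDisc l f 0 = l := by simp [toDisc]
    rw [h2]
    apply h1.congr'
    filter_upwards [self_mem_nhdsWithin] with ω hω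
    have hω' : ω ≠ 0 := hω
    simp only [toDisc]
    rw [if_neg hω']

theorem ext_data {ψ h : ℂ → ℂ} {b : ℂ}
    (hψ : DifferentiableOn ℂ ψ {z : ℂ | 1 < ‖z‖})
    (hinj : InjOn ψ {z : ℂ | 1 < ‖z‖})
    (hb : Tendsto (fun z => ψ z - z) (Bornology.cobounded ℂ) (𝓝 b))
    (hexp : ∀ z : ℂ, 1 < ‖z‖ → Complex.exp (h z) = deriv ψ z) :
    Ext (toDisc b (fun z => ψ z - z)) ∧ ∀ ζ ∈ ball (0:ℂ) 1,
      Complex.exp (toDisc 0 h ζ) = 1 - ζ ^ 2 * deriv (toDisc b (fun z => ψ z - z)) ζ := by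
  set β : ℂ → ℂ := toDisc b (fun z => ψ z - z) with hβ
  have hdiff : DifferentiableOn ℂ β (ball 0 1) := toDisc_diff (hψ.sub differentiableOn_id) hb
  have hβ' : ∀ ζ : ℂ, ζ ≠ 0 → β ζ = ψ ζ⁻¹ - ζ⁻¹ := by
    intro ζ hζ
    simp only [hβ, toDisc]
    rw [if_neg hζ]
  have hE : ∀ ζ ∈ ball (0:ℂ) 1, Complex.exp (toDisc 0 h ζ) = 1 - ζ ^ 2 * deriv β ζ := by
    intro ζ hζ
    by_cases h0 : ζ = 0
    · subst h0; simp [toDisc]
    · have h1 := inv_mem hζ h0
      have h2 : toDisc 0 h ζ = h ζ⁻¹ := by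
        simp only [toDisc]; rw [if_neg h0]
      rw [h2, hexp _ h1]
      have h3 := (hψ.differentiableAt (isOpen_ext.mem_nhds h1)).hasDerivAt
      have h4 : HasDerivAt (fun ζ : ℂ => ψ ζ⁻¹) (deriv ψ ζ⁻¹ * -(ζ ^ 2)⁻¹) ζ :=
        h3.comp ζ (hasDerivAt_inv h0)
      have h5 : HasDerivAt (fun ζ : ℂ => ψ ζ⁻¹ - ζ⁻¹) (deriv ψ ζ⁻¹ * -(ζ ^ 2)⁻¹ - -(ζ ^ 2)⁻¹) ζ :=
        h4.sub (hasDerivAt_inv h0)
      have h6 : β =ᶠ[𝓝 ζ] fun ζ : ℂ => ψ ζ⁻¹ - ζ⁻¹ := by
        filter_upwards [isOpen_ne.mem_nhds h0] with ω hω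
        exact hβ' ω hω
      rw [(h5.congr_of_eventuallyEq h6).deriv]
      field_simp
      ring
  refine ⟨⟨hdiff, ?_, ?_⟩, hE⟩
  · intro ζ ω hζ hω hζ0 hω0 heq
    rw [hβ' ζ hζ0, hβ' ω hω0] at heq
    have h1 : ψ ζ⁻¹ = ψ ω⁻¹ := by linear_combination heq
    exact inv_injective (hinj (inv_mem hζ hζ0) (inv_mem hω hω0) h1)
  · intro ζ hζ h'
    rw [← hE ζ hζ] at h'
    exact Complex.exp_ne_zero _ h'

/-- Goluzin's inequality, in the coordinate `ζ = 1/z`. -/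
theorem goluzin_disc {ψ h : ℂ → ℂ}
    (hψ : DifferentiableOn ℂ ψ {z : ℂ | 1 < ‖z‖})
    (hinj : InjOn ψ {z : ℂ | 1 < ‖z‖})
    (hb : ∃ b : ℂ, Tendsto (fun z => ψ z - z) (Bornology.cobounded ℂ) (𝓝 b))
    (hh : DifferentiableOn ℂ h {z : ℂ | 1 < ‖z‖})
    (hexp : ∀ z : ℂ, 1 < ‖z‖ → Complex.exp (h z) = deriv ψ z)
    (hh0 : Tendsto h (Bornology.cobounded ℂ) (𝓝 0)) :
    DifferentiableOn ℂ (toDisc 0 h) (ball 0 1) ∧ ∀ ζ ∈ ball (0:ℂ) 1,
      ‖toDisc 0 h ζ‖ ≤ Real.log (1 / (1 - ‖ζ‖ ^ 2)) := by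
  obtain ⟨b, hb⟩ := hb
  obtain ⟨h1, h2⟩ := ext_data hψ hinj hb hexp
  have h3 : DifferentiableOn ℂ (toDisc 0 h) (ball 0 1) := toDisc_diff hh hh0
  refine ⟨h3, fun ζ hζ => ?_⟩
  have h4 := goluzin h1 h3.continuousOn (by simp [toDisc]) h2 hζ
  rwa [one_div, Real.log_inv]

/-- Goluzin's inequality. -/
theorem goluzin_ext {ψ h : ℂ → ℂ}
    (hψ : DifferentiableOn ℂ ψ {z : ℂ | 1 < ‖z‖})
    (hinj : InjOn ψ {z : ℂ | 1 < ‖z‖})
    (hb : ∃ b : ℂ, Tendsto (fun z => ψ z - z) (Bornology.cobounded ℂ) (𝓝 b))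
    (hh : DifferentiableOn ℂ h {z : ℂ | 1 < ‖z‖})
    (hexp : ∀ z : ℂ, 1 < ‖z‖ → Complex.exp (h z) = deriv ψ z)
    (hh0 : Tendsto h (Bornology.cobounded ℂ) (𝓝 0)) {z : ℂ} (hz : 1 < ‖z‖) :
    ‖h z‖ ≤ Real.log (‖z‖ ^ 2 / (‖z‖ ^ 2 - 1)) := by
  have hz0 : z ≠ 0 := by
    rintro rfl
    simp at hz
    linarith
  have hmem : z⁻¹ ∈ ball (0:ℂ) 1 := by
    rw [mem_ball, dist_zero_right, norm_inv]
    exact inv_lt_one_of_one_lt₀ hz
  have h1 := (goluzin_disc hψ hinj hb hh hexp hh0).2 z⁻¹ hmem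
  have h2 : toDisc 0 h z⁻¹ = h z := by
    simp only [toDisc]
    rw [if_neg (inv_ne_zero hz0), inv_inv]
  rw [h2] at h1
  have h3 : 1 / (1 - ‖z⁻¹‖ ^ 2) = ‖z‖ ^ 2 / (‖z‖ ^ 2 - 1) := by
    rw [norm_inv]
    have : ‖z‖ ≠ 0 := norm_ne_zero_iff.mpr hz0
    have h4 : ‖z‖ ^ 2 - 1 ≠ 0 := by nlinarith
    field_simp
  rwa [h3] at h1

/-- the circle integral in both coordinates -/
theorem integral_transfer (h : ℂ → ℂ) (a R : ℝ) (hR : 1 < R) :
    (∫ θ in (0:ℝ)..(2 * π),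
        Real.exp (a * ‖h ((R : ℂ) * Complex.exp ((θ : ℂ) * I))‖ ^ 2
          / Real.log (R ^ 2 / (R ^ 2 - 1)))) =
      ∫ θ in (0:ℝ)..(2 * π),
        Real.exp (a * ‖toDisc 0 h (((R⁻¹ : ℝ) : ℂ) * Complex.exp ((θ : ℂ) * I))‖ ^ 2
          / Real.log (1 / (1 - (R⁻¹) ^ 2))) := by
  have hR0 : R ≠ 0 := by linarith
  have hL : Real.log (R ^ 2 / (R ^ 2 - 1)) = Real.log (1 / (1 - (R⁻¹) ^ 2)) := by
    congr 1
    have h4 : R ^ 2 - 1 ≠ 0 := by nlinarith
    field_simp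
  set k : ℝ → ℝ := fun θ => Real.exp (a * ‖toDisc 0 h (((R⁻¹ : ℝ) : ℂ) * Complex.exp ((θ : ℂ) * I))‖ ^ 2
          / Real.log (1 / (1 - (R⁻¹) ^ 2))) with hk
  have h1 : ∀ θ : ℝ, Real.exp (a * ‖h ((R : ℂ) * Complex.exp ((θ : ℂ) * I))‖ ^ 2
          / Real.log (R ^ 2 / (R ^ 2 - 1))) = k (-θ) := by
    intro θ
    simp only [hk]
    rw [hL]
    have hne : ((R⁻¹ : ℝ) : ℂ) * Complex.exp (((-θ : ℝ) : ℂ) * I) ≠ 0 := by
      apply mul_ne_zero _ (Complex.exp_ne_zero _)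
      exact_mod_cast inv_ne_zero hR0
    have h2 : (((R⁻¹ : ℝ) : ℂ) * Complex.exp (((-θ : ℝ) : ℂ) * I))⁻¹ =
        (R : ℂ) * Complex.exp ((θ : ℂ) * I) := by
      rw [mul_inv, ← Complex.exp_neg]
      push_cast
      rw [inv_inv]
      congr 2
      ring
    simp only [toDisc]
    rw [if_neg hne, h2]
  simp_rw [h1]
  rw [intervalIntegral.integral_comp_neg (fun θ => k θ)]
  have hper : Function.Periodic k (2 * π) := by
    intro θ
    simp only [hk]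
    have : Complex.exp (((θ + 2 * π : ℝ) : ℂ) * I) = Complex.exp ((θ : ℂ) * I) := by
      push_cast
      rw [add_mul, Complex.exp_add, Complex.exp_two_pi_mul_I, mul_one]
    rw [this]
  have h2 := hper.intervalIntegral_add_eq (-(2 * π)) 0
  simp only [neg_add_cancel, zero_add] at h2
  rw [neg_zero]
  exact h2

end Pool.Agent.Helper39.Area

end

section

namespace Pool.Agent.Helper39.Area
end Pool.Agent.Helper39.Area
namespace Pool.Agent.Helper52.EK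
end Pool.Agent.Helper52.EK
namespace Pool.Agent.Helper9.EK
end Pool.Agent.Helper9.EK

set_option autoImplicit false

open Complex MeasureTheory Metric Set

open scoped Real ComplexConjugate

namespace Pool.Agent.Helper69.EK7

open Pool.Agent.Helper39.Area Pool.Agent.Helper52.EK

/-- admissible functions of the two invariants -/
structure GLip2 (G : ℂ → ℂ → ℂ) (L : ℝ) : Prop where
  le_one : ∀ m t, ‖G m t‖ ≤ 1
  lip : ∀ m m' t, ‖G m t - G m' t‖ ≤ L * ‖m - m'‖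
  rot : ∀ u m t : ℂ, ‖u‖ = 1 → ‖G (u * m) (u ^ 2 * t) - G m t‖ ≤ L * ‖u - 1‖
  cont : Continuous (fun p : ℂ × ℂ => G p.1 p.2)

/-- the field -/
noncomputable def wf2 (G : ℂ → ℂ → ℂ) (β : ℂ → ℂ) (z : ℂ) : ℂ :=
  conj (z / ‖z‖) * G (mrad β z) (srad β z)

/-- the integrand `‖G m t - e₀‖²` -/
noncomputable def TG2 (G : ℂ → ℂ → ℂ) (X Y Z : ℂ) (s c : ℝ) : ℝ :=
  ‖G (mX X Y s c) (tX X Y Z s c) - e0 s c‖ ^ 2

theorem GLip2.nonneg {G : ℂ → ℂ → ℂ} {L : ℝ} (hG : GLip2 G L) : 0 ≤ L := by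
  have h := hG.lip 1 0 0
  have h2 : L * ‖(1:ℂ) - 0‖ = L := by simp
  rw [h2] at h
  exact (norm_nonneg _).trans h

theorem srad_cont {β : ℂ → ℂ} (h : Ext β) :
    ContinuousOn (srad β) {z | 0 < ‖z‖ ∧ ‖z‖ < 1} := by
  have hs : {z : ℂ | 0 < ‖z‖ ∧ ‖z‖ < 1} ⊆ ball 0 1 := by
    rintro z ⟨_, hz⟩
    rw [mem_ball, dist_zero_right]
    exact hz
  have hd := N_diffOn h
  have h1 : ContinuousOn (N β) {z : ℂ | 0 < ‖z‖ ∧ ‖z‖ < 1} := hd.continuousOn.mono hs
  have h2 : ContinuousOn (deriv (N β)) {z : ℂ | 0 < ‖z‖ ∧ ‖z‖ < 1} :=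
    (hd.deriv isOpen_ball).continuousOn.mono hs
  have h2' : ContinuousOn (deriv (deriv (N β))) {z : ℂ | 0 < ‖z‖ ∧ ‖z‖ < 1} :=
    ((hd.deriv isOpen_ball).deriv isOpen_ball).continuousOn.mono hs
  have h3 : ∀ z ∈ {z : ℂ | 0 < ‖z‖ ∧ ‖z‖ < 1}, N β z ≠ 0 := fun z hz => h.ne z (hs hz)
  have h4 : ContinuousOn (fun z : ℂ => z / (‖z‖ : ℂ)) {z : ℂ | 0 < ‖z‖ ∧ ‖z‖ < 1} := by
    apply ContinuousOn.div continuousOn_id
    · exact (Complex.continuous_ofReal.comp continuous_norm).continuousOn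
    · rintro z ⟨hz, _⟩
      exact Complex.ofReal_ne_zero.mpr hz.ne'
  have h5 : ContinuousOn (fun z : ℂ => deriv (N β) z / N β z) {z : ℂ | 0 < ‖z‖ ∧ ‖z‖ < 1} :=
    h2.div h1 h3
  have h6 : ContinuousOn (fun z : ℂ => 2 / z) {z : ℂ | 0 < ‖z‖ ∧ ‖z‖ < 1} := by
    apply ContinuousOn.div continuousOn_const continuousOn_id
    rintro z ⟨hz, _⟩
    exact norm_pos_iff.1 hz
  have h7 : ContinuousOn (Sc β) {z : ℂ | 0 < ‖z‖ ∧ ‖z‖ < 1} := by
    unfold Sc
    exact ((h2'.div h1 h3).sub (continuousOn_const.mul (h5.pow 2))).add (h6.mul h5)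
  have h8 : ContinuousOn (fun z : ℂ => ((1 : ℂ) - (‖z‖ : ℂ) ^ 2) ^ 2)
      {z : ℂ | 0 < ‖z‖ ∧ ‖z‖ < 1} :=
    ((continuous_const.sub ((Complex.continuous_ofReal.comp continuous_norm).pow 2)).pow
      2).continuousOn
  unfold srad
  exact ((h4.pow 2).mul h8).mul h7

theorem wf2_cont {G : ℂ → ℂ → ℂ} {L : ℝ} (hG : GLip2 G L) {β : ℂ → ℂ} (h : Ext β) :
    ContinuousOn (wf2 G β) {z | 0 < ‖z‖ ∧ ‖z‖ < 1} := by
  have h4 : ContinuousOn (fun z : ℂ => conj (z / (‖z‖ : ℂ))) {z : ℂ | 0 < ‖z‖ ∧ ‖z‖ < 1} := by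
    apply Complex.continuous_conj.comp_continuousOn
    apply ContinuousOn.div continuousOn_id
    · exact (Complex.continuous_ofReal.comp continuous_norm).continuousOn
    · rintro z ⟨hz, _⟩
      exact Complex.ofReal_ne_zero.mpr hz.ne'
  exact h4.mul (hG.cont.comp_continuousOn
    ((Pool.Agent.Helper70.EK.mrad_cont h).prodMk (srad_cont h)))

theorem wf2_le_one {G : ℂ → ℂ → ℂ} {L : ℝ} (hG : GLip2 G L) (β : ℂ → ℂ) (z : ℂ) :
    ‖wf2 G β z‖ ≤ 1 := by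
  unfold wf2
  rw [norm_mul, RCLike.norm_conj, norm_div, Complex.norm_real, norm_norm]
  have h1 : ‖z‖ / ‖z‖ ≤ 1 := div_self_le_one _
  have h2 := hG.le_one (mrad β z) (srad β z)
  have h3 : 0 ≤ ‖z‖ / ‖z‖ := by (clear * -; positivity)
  nlinarith only [h1, h2, h3]

open Pool.Agent.Helper9.EK

end Pool.Agent.Helper69.EK7

end

section

namespace Pool.Agent.Helper39.Area
end Pool.Agent.Helper39.Area
namespace Pool.Agent.Helper52.EK
end Pool.Agent.Helper52.EK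
namespace Pool.Agent.Helper70.EK
end Pool.Agent.Helper70.EK
namespace Pool.Agent.Helper9.EK
end Pool.Agent.Helper9.EK
namespace Pool.Agent.Helper61.EK
end Pool.Agent.Helper61.EK

set_option autoImplicit false

open Complex MeasureTheory Metric Set

open scoped Real ComplexConjugate

namespace Pool.Agent.Helper69.EK7

open Pool.Agent.Helper39.Area Pool.Agent.Helper52.EK Pool.Agent.Helper70.EK

open Pool.Agent.Helper9.EK (rotβ rot_ExtR)

open Pool.Agent.Helper61.EK (N_circ_cont N_circ_pos exp_per)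

/-- the abstract comparison -/
theorem core2 {G : ℂ → ℂ → ℂ} {L : ℝ} (hG : GLip2 G L) {p e m err t : ℂ} {δ : ℝ} (hp : ‖p‖ = 1)
    (he : ‖e‖ = 1) (h1 : ‖p - 1‖ ≤ 16 * δ) (h2 : ‖err‖ ≤ 12 * δ) :
    ‖p * e - G (p * (m + err)) (p ^ 2 * t)‖ ^ 2 ≤
      ‖G m t - e‖ ^ 2 + 4 * (16 + 28 * L) * δ := by
  have hL := hG.nonneg
  have a1 : ‖p * e - e‖ ≤ 16 * δ := by
    have : p * e - e = (p - 1) * e := by ring
    rw [this, norm_mul, he, mul_one]
    exact h1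
  have a2 : ‖G m t - G (m + err) t‖ ≤ L * (12 * δ) := by
    have h3 := hG.lip m (m + err) t
    have h4 : ‖m - (m + err)‖ = ‖err‖ := by
      have : m - (m + err) = -err := by ring
      rw [this, norm_neg]
    rw [h4] at h3
    exact h3.trans (mul_le_mul_of_nonneg_left h2 hL)
  have a3 : ‖G (p * (m + err)) (p ^ 2 * t) - G (m + err) t‖ ≤ L * (16 * δ) :=
    (hG.rot p (m + err) t hp).trans (mul_le_mul_of_nonneg_left h1 hL)
  have a4 : ‖p * e - G (p * (m + err)) (p ^ 2 * t)‖ ≤ ‖G m t - e‖ + (16 + 28 * L) * δ := by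
    have e1 : p * e - G (p * (m + err)) (p ^ 2 * t) = (p * e - e) + (-(G m t - e)) +
        (G m t - G (m + err) t) + (-(G (p * (m + err)) (p ^ 2 * t) - G (m + err) t)) := by ring
    rw [e1]
    have b1 := norm_add_le ((p * e - e) + (-(G m t - e)) + (G m t - G (m + err) t))
      (-(G (p * (m + err)) (p ^ 2 * t) - G (m + err) t))
    have b2 := norm_add_le ((p * e - e) + (-(G m t - e))) (G m t - G (m + err) t)
    have b3 := norm_add_le (p * e - e) (-(G m t - e))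
    rw [norm_neg] at b1 b3
    (clear * - a1 a2 a3 b1 b2 b3; linarith only [a1, a2, a3, b1, b2, b3])
  have a5 : ‖p * e - G (p * (m + err)) (p ^ 2 * t)‖ ≤ 2 := by
    have b1 := norm_sub_le (p * e) (G (p * (m + err)) (p ^ 2 * t))
    rw [norm_mul, hp, he] at b1
    have b2 := hG.le_one (p * (m + err)) (p ^ 2 * t)
    linarith only [b1, b2]
  have a6 : ‖G m t - e‖ ≤ 2 := by
    have b1 := norm_sub_le (G m t) e
    rw [he] at b1
    have b2 := hG.le_one m t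
    (clear * - b1 b2; linarith only [b1, b2])
  have hδ : 0 ≤ (16 + 28 * L) * δ := by
    have : 0 ≤ δ := by
      have := norm_nonneg (p - 1)
      linarith only [h1, this]
    (clear * - hL this; positivity)
  have c1 := norm_nonneg (p * e - G (p * (m + err)) (p ^ 2 * t))
  have c2 := norm_nonneg (G m t - e)
  nlinarith only [a4, a5, a6, hδ, c1, c2]

theorem F3_contOn {G : ℂ → ℂ → ℂ} {L : ℝ} (hG : GLip2 G L) {X : ℂ → ℂ} {x₁ x₂ : ℝ}
    (hX : NiceX X x₁ x₂) :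
    ContinuousOn (fun p : ℝ × ℝ => TG2 G (X (pt p.1 p.2)) (deriv X (pt p.1 p.2))
      (deriv (deriv X) (pt p.1 p.2)) (Real.sin p.2) (Real.cos p.2)) (Icc x₁ x₂ ×ˢ Icc 0 π) := by
  have hmap : MapsTo (fun p : ℝ × ℝ => pt p.1 p.2) (Icc x₁ x₂ ×ˢ Icc 0 π) (Rect x₁ x₂) := by
    rintro ⟨ξ, η⟩ ⟨hξ, hη⟩
    change pt ξ η ∈ Rect x₁ x₂
    unfold Rect
    rw [Complex.mem_reProdIm]
    have e1 : (pt ξ η).re = ξ := by simp [pt]
    have e2 : (pt ξ η).im = η := by simp [pt]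
    rw [e1, e2]
    exact ⟨hξ, hη⟩
  have h1 : ContinuousOn (fun p : ℝ × ℝ => X (pt p.1 p.2)) (Icc x₁ x₂ ×ˢ Icc 0 π) :=
    hX.an.continuousOn.comp continuous_pt.continuousOn hmap
  have h2 : ContinuousOn (fun p : ℝ × ℝ => deriv X (pt p.1 p.2)) (Icc x₁ x₂ ×ˢ Icc 0 π) :=
    hX.an.deriv.continuousOn.comp continuous_pt.continuousOn hmap
  have h2' : ContinuousOn (fun p : ℝ × ℝ => deriv (deriv X) (pt p.1 p.2))
      (Icc x₁ x₂ ×ˢ Icc 0 π) :=
    hX.an.deriv.deriv.continuousOn.comp continuous_pt.continuousOn hmap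
  have hne : ∀ p ∈ Icc x₁ x₂ ×ˢ Icc 0 π, X (pt p.1 p.2) ≠ 0 := fun p hp => hX.ne _ (hmap hp)
  have h3 : ContinuousOn (fun p : ℝ × ℝ => deriv X (pt p.1 p.2) / X (pt p.1 p.2))
      (Icc x₁ x₂ ×ˢ Icc 0 π) := h2.div h1 hne
  have h3' : ContinuousOn (fun p : ℝ × ℝ => deriv (deriv X) (pt p.1 p.2) / X (pt p.1 p.2))
      (Icc x₁ x₂ ×ˢ Icc 0 π) := h2'.div h1 hne
  have h4 : ContinuousOn (fun p : ℝ × ℝ => e0 (Real.sin p.2) (Real.cos p.2))
      (Icc x₁ x₂ ×ˢ Icc 0 π) := by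
    apply Continuous.continuousOn
    unfold e0
    fun_prop
  have h5 : ContinuousOn (fun p : ℝ × ℝ => mX (X (pt p.1 p.2)) (deriv X (pt p.1 p.2))
      (Real.sin p.2) (Real.cos p.2)) (Icc x₁ x₂ ×ˢ Icc 0 π) := by
    unfold mX
    exact ((continuousOn_const.add h4).mul
      (((continuousOn_const.mul h1).sub continuousOn_const).add h3)).sub continuousOn_const
  have h6 : ContinuousOn (fun p : ℝ × ℝ => tX (X (pt p.1 p.2)) (deriv X (pt p.1 p.2))
      (deriv (deriv X) (pt p.1 p.2)) (Real.sin p.2) (Real.cos p.2)) (Icc x₁ x₂ ×ˢ Icc 0 π) := by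
    unfold tX
    have h7 : ContinuousOn (fun p : ℝ × ℝ => 4 * ((Real.sin p.2 : ℝ) : ℂ) ^ 2)
        (Icc x₁ x₂ ×ˢ Icc 0 π) := by
      apply Continuous.continuousOn
      fun_prop
    exact (h7.mul h4).mul (((continuousOn_const.sub (continuousOn_const.mul (h1.pow 2))).add
      h3').sub (continuousOn_const.mul (h3.pow 2)))
  unfold TG2
  exact ((hG.cont.comp_continuousOn (h5.prodMk h6)).sub h4).norm.pow 2

/-- **from the disc to the strip** -/
theorem E3F {G : ℂ → ℂ → ℂ} {L : ℝ} (hG : GLip2 G L) : ∀ A : ℝ, 1 ≤ A → ∃ C : ℝ,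
    ∀ (β : ℂ → ℂ) (R a : ℝ), ExtR β R → Real.exp (-1) < a → a < 1 →
    Real.log (tau a) + A ≤ -A →
    Kf (wf2 G β) 1 (-1) (Real.log a) ≤ π⁻¹ * II (Real.log (tau a) + A) (-A)
      (fun ξ η => TG2 G (Xf β a (pt ξ η)) (deriv (Xf β a) (pt ξ η))
        (deriv (deriv (Xf β a)) (pt ξ η)) (Real.sin η) (Real.cos η)) + C := by
  intro A hA
  obtain ⟨C, hC⟩ := Pool.Agent.Helper84.EK.E3b A hA
  refine ⟨C + 4 * (16 + 28 * L), ?_⟩
  intro β R a hβ ha ha1 hx
  have ha0 : 0 < a := (Real.exp_pos _).trans ha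
  have hw := wf2_cont hG hβ.toExt
  have h1 := hC (wf2 G β) a hw (wf2_le_one hG β) ha ha1 hx
  have hL := hG.nonneg
  set x₁ := Real.log (tau a) + A with hx₁
  have hx₂ : -A < 0 := by (clear * - hA; linarith only [hA])
  have hxx : Real.log (tau a) < x₁ := by (clear * - hx₂; linarith only [hx₂])
  have hX : NiceX (Xf β a) x₁ (-A) := Pool.Agent.Helper67.EK.E1c hβ ha0 ha1 hxx hx₂
  have hsub : Ioc x₁ (-A) ×ˢ Ioo 0 π ⊆ Icc x₁ (-A) ×ˢ Icc 0 π :=
    prod_mono Ioc_subset_Icc_self Ioo_subset_Icc_self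
  have h2 : II x₁ (-A) (fun ξ η => ‖ee 1 (zf (pt ξ η)) - wf2 G β (zf (pt ξ η))‖ ^ 2) ≤
      II x₁ (-A) (fun ξ η => TG2 G (Xf β a (pt ξ η)) (deriv (Xf β a) (pt ξ η))
        (deriv (deriv (Xf β a)) (pt ξ η)) (Real.sin η)
        (Real.cos η)) + (4 * (16 + 28 * L)) * π := by
    apply II_le (M := 4) hx hx₂.le (by (clear * - hL; positivity)) (F1_contOn hw hx₂)
      ((F3_contOn hG hX).mono hsub)
    · intro p hp
      have h3 := (zf_mapsTo hx₂ hp).2
      change ‖zf (pt p.1 p.2)‖ < 1 at h3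
      have h4 := norm_sub_le (ee 1 (zf (pt p.1 p.2))) (wf2 G β (zf (pt p.1 p.2)))
      rw [norm_ee h3] at h4
      have h5 := wf2_le_one hG β (zf (pt p.1 p.2))
      rw [norm_pow, norm_norm]
      have h6 := norm_nonneg (ee 1 (zf (pt p.1 p.2)) - wf2 G β (zf (pt p.1 p.2)))
      nlinarith only [h4, h5, h6]
    · intro p hp
      unfold TG2
      rw [norm_pow, norm_norm]
      have h4 := norm_sub_le (G (mX (Xf β a (pt p.1 p.2)) (deriv (Xf β a) (pt p.1 p.2))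
        (Real.sin p.2) (Real.cos p.2)) (tX (Xf β a (pt p.1 p.2)) (deriv (Xf β a) (pt p.1 p.2))
        (deriv (deriv (Xf β a)) (pt p.1 p.2)) (Real.sin p.2) (Real.cos p.2)))
        (e0 (Real.sin p.2) (Real.cos p.2))
      rw [norm_e0] at h4
      have h5 := hG.le_one (mX (Xf β a (pt p.1 p.2)) (deriv (Xf β a) (pt p.1 p.2))
        (Real.sin p.2) (Real.cos p.2)) (tX (Xf β a (pt p.1 p.2)) (deriv (Xf β a) (pt p.1 p.2))
        (deriv (deriv (Xf β a)) (pt p.1 p.2)) (Real.sin p.2) (Real.cos p.2))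
      have h6 := norm_nonneg (G (mX (Xf β a (pt p.1 p.2)) (deriv (Xf β a) (pt p.1 p.2))
        (Real.sin p.2) (Real.cos p.2)) (tX (Xf β a (pt p.1 p.2)) (deriv (Xf β a) (pt p.1 p.2))
        (deriv (deriv (Xf β a)) (pt p.1 p.2)) (Real.sin p.2) (Real.cos p.2)) -
        e0 (Real.sin p.2) (Real.cos p.2))
      (clear * - h4 h5 h6; nlinarith only [h4, h5, h6])
    · rintro ⟨ξ, η⟩ ⟨hξ, hη⟩
      have hξ' : x₁ < ξ ∧ ξ ≤ -A := hξ
      have hη' : 0 < η ∧ η < π := hη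
      have hξ0 : ξ < 0 := by (clear * - hA ha1 ha0 hξ'; linarith [hξ'.2])
      have hz := zf_norm hη'.1 hη'.2 hξ0
      change ‖ee 1 (zf (pt ξ η)) - wf2 G β (zf (pt ξ η))‖ ^ 2 ≤
        TG2 G (Xf β a (pt ξ η)) (deriv (Xf β a) (pt ξ η)) (deriv (deriv (Xf β a)) (pt ξ η))
          (Real.sin η) (Real.cos η) + (4 * (16 + 28 * L)) * Real.exp ξ
      have hE : ‖Complex.exp (pt ξ η)‖ ≤ 1 / 2 := by
        rw [norm_E]
        have h7 : ξ ≤ -1 := by (clear * - hA hξ'; linarith [hξ'.2])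
        have h8 : Real.exp ξ ≤ Real.exp (-1) := Real.exp_le_exp.mpr h7
        have h9 : Real.exp (-1) < 0.3678794412 := Real.exp_neg_one_lt_d9
        linarith only [h8, h9]
      have h10 := core2 hG (m := mX (Xf β a (pt ξ η)) (deriv (Xf β a) (pt ξ η)) (Real.sin η)
        (Real.cos η)) (t := tX (Xf β a (pt ξ η)) (deriv (Xf β a) (pt ξ η))
        (deriv (deriv (Xf β a)) (pt ξ η)) (Real.sin η) (Real.cos η)) (norm_ph hE) (norm_e0 η)
        (ph_sub_one hE) (err_le hE)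
      rw [norm_E] at h10
      have m1 := Pool.Agent.Helper97.EK.E3a1 hη'.1 hη'.2 hξ0
      have m2 := Pool.Agent.Helper97.EK.E3a2 hβ.toExt ha0 ha1 hη'.1 hη'.2 hξ0
        (lt_trans hxx hξ'.1)
      have m3 := E3a3 hβ.toExt ha0 ha1 hη'.1 hη'.2 hξ0 (lt_trans hxx hξ'.1)
      have h11 : ‖ee 1 (zf (pt ξ η)) - wf2 G β (zf (pt ξ η))‖ =
          ‖ph (Complex.exp (pt ξ η)) * e0 (Real.sin η) (Real.cos η) -
            G (ph (Complex.exp (pt ξ η)) * (mX (Xf β a (pt ξ η)) (deriv (Xf β a) (pt ξ η))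
              (Real.sin η) (Real.cos η) +
              (2 * I * (Complex.exp (pt ξ η)).im / (Complex.exp (pt ξ η) + I) +
              4 * I * (Complex.exp (pt ξ η)).im / (Complex.exp (pt ξ η) - I))))
              (ph (Complex.exp (pt ξ η)) ^ 2 * tX (Xf β a (pt ξ η)) (deriv (Xf β a) (pt ξ η))
        (deriv (deriv (Xf β a)) (pt ξ η)) (Real.sin η) (Real.cos η))‖ := by
        unfold wf2
        rw [wf_term hz.1, m1, m2, m3, add_assoc]
        rfl
      rw [h11]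
      exact h10
  have hπ : 0 < π⁻¹ := inv_pos.mpr Real.pi_pos
  have h3 := mul_le_mul_of_nonneg_left h2 hπ.le
  have h4 : π⁻¹ * ((4 * (16 + 28 * L)) * π) = 4 * (16 + 28 * L) := by
    (clear * - hL; field_simp)
  rw [mul_add, h4] at h3
  (clear * - h1 h3; linarith)

end Pool.Agent.Helper69.EK7

end
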