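import Pool.Agent.Helper60.BE.T13
import Pool.Agent.Helper60.BE.T04

set_option linter.all false

section

/-!
# Project EK7: radial retractions
-/

set_option autoImplicit false

open Complex Metric Set Filter Topology

open scoped Real ComplexConjugate

namespace Pool.Agent.Helper20.EK7

/-- radial retraction to the closed unit disc -/
noncomputable def prj (w : ℂ) : ℂ := w / ((max 1 ‖w‖ : ℝ) : ℂ)

/-- radial retraction to the closed disc of radius `6` -/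
noncomputable def cut6 (t : ℂ) : ℂ := ((6 / max 6 ‖t‖ : ℝ) : ℂ) * t

theorem prj_of_le {w : ℂ} (h : ‖w‖ ≤ 1) : prj w = w := by
  unfold prj
  rw [max_eq_left h, ofReal_one, div_one]

theorem one_le_mx (w : ℂ) : 1 ≤ max 1 ‖w‖ := le_max_left _ _

theorem mx_ne (w : ℂ) : ((max 1 ‖w‖ : ℝ) : ℂ) ≠ 0 :=
  Complex.ofReal_ne_zero.2 (zero_lt_one.trans_le (one_le_mx w)).ne'

theorem norm_prj_le (w : ℂ) : ‖prj w‖ ≤ 1 := by
  have h := one_le_mx w
  unfold prj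
  rw [norm_div, Complex.norm_real, Real.norm_of_nonneg (by (clear * - h; linarith only [h])), div_le_one (by (clear * - h; linarith only [h]))]
  exact le_max_right _ _

theorem prj_lip (w w' : ℂ) : ‖prj w - prj w'‖ ≤ 2 * ‖w - w'‖ := by
  have h := one_le_mx w
  have e : prj w - prj w' = ((w - w') + prj w' * (((max 1 ‖w'‖ - max 1 ‖w‖ : ℝ)) : ℂ)) /
      ((max 1 ‖w‖ : ℝ) : ℂ) := by
    have h1 := mx_ne w
    have h2 := mx_ne w'
    unfold prj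
    push_cast at h1 h2 ⊢
    field_simp
    ring
  rw [e, norm_div, Complex.norm_real, Real.norm_of_nonneg (by (clear * - h; linarith only [h])),
    div_le_iff₀ (by linarith only [h])]
  have h3 : |max 1 ‖w'‖ - max 1 ‖w‖| ≤ ‖w - w'‖ := by
    rw [max_comm 1, max_comm 1]
    refine (abs_max_sub_max_le_abs _ _ _).trans ?_
    rw [norm_sub_rev]
    exact abs_norm_sub_norm_le _ _
  have h4 : ‖(w - w') + prj w' * (((max 1 ‖w'‖ - max 1 ‖w‖ : ℝ)) : ℂ)‖ ≤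
      ‖w - w'‖ + 1 * ‖w - w'‖ := by
    refine (norm_add_le _ _).trans ?_
    rw [norm_mul, Complex.norm_real, Real.norm_eq_abs]
    have := mul_le_mul (norm_prj_le w') h3 (abs_nonneg _) zero_le_one
    (clear * - this; linarith only [this])
  nlinarith only [norm_nonneg (w - w'), h, h4]

theorem prj_conj (w : ℂ) : prj (conj w) = conj (prj w) := by
  unfold prj
  rw [norm_conj, map_div₀, conj_ofReal]

/-- the retraction does not increase the distance to points of the disc -/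
theorem prj_dist {w e : ℂ} (he : ‖e‖ ≤ 1) : ‖prj w - e‖ ≤ ‖w - e‖ := by
  rcases le_or_gt ‖w‖ 1 with h | h
  · rw [prj_of_le h]
  · have hn : 0 < ‖w‖ := by (clear * - h; linarith only [h])
    have e1 : prj w = (((‖w‖)⁻¹ : ℝ) : ℂ) * w := by
      unfold prj
      rw [max_eq_right h.le, div_eq_inv_mul, ofReal_inv]
    have h1 : ‖w - e‖ ^ 2 = ‖w‖ ^ 2 - 2 * (w.re * e.re + w.im * e.im) + ‖e‖ ^ 2 := by
      rw [← normSq_eq_norm_sq, ← normSq_eq_norm_sq, ← normSq_eq_norm_sq, normSq_apply,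
        normSq_apply, normSq_apply]
      simp only [sub_re, sub_im]
      ring
    have h2 : ‖prj w - e‖ ^ 2 = 1 - 2 * (‖w‖)⁻¹ * (w.re * e.re + w.im * e.im) + ‖e‖ ^ 2 := by
      have h3 : ‖prj w‖ ^ 2 = 1 := by
        rw [e1, norm_mul, Complex.norm_real, Real.norm_of_nonneg (by (clear * - h; positivity)),
          inv_mul_cancel₀ hn.ne', one_pow]
      rw [← h3, ← normSq_eq_norm_sq, ← normSq_eq_norm_sq, ← normSq_eq_norm_sq, normSq_apply,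
        normSq_apply, normSq_apply, e1]
      simp only [sub_re, sub_im, mul_re, mul_im, ofReal_re, ofReal_im]
      ring
    have h4 : w.re * e.re + w.im * e.im ≤ ‖w‖ := by
      have h5 : (w * conj e).re ≤ ‖w * conj e‖ := Complex.re_le_norm _
      rw [norm_mul, norm_conj] at h5
      simp only [mul_re, conj_re, conj_im] at h5
      have h6 := mul_le_mul_of_nonneg_left he hn.le
      (clear * - h5 h6; linarith only [h5, h6])
    have h7 : ‖prj w - e‖ ^ 2 ≤ ‖w - e‖ ^ 2 := by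
      rw [h1, h2]
      have h8 : (‖w‖)⁻¹ ≤ 1 := inv_le_one_of_one_le₀ h.le
      have h9 : ‖w‖ * (‖w‖)⁻¹ = 1 := mul_inv_cancel₀ hn.ne'
      have h10 := mul_le_mul_of_nonneg_left h4 (sub_nonneg.2 h8)
      nlinarith only [h, h9, h10]
    exact le_of_sq_le_sq h7 (norm_nonneg _)

theorem prj_dist_sq {w e : ℂ} (he : ‖e‖ ≤ 1) : ‖prj w - e‖ ^ 2 ≤ ‖w - e‖ ^ 2 :=
  pow_le_pow_left₀ (norm_nonneg _) (prj_dist he) 2

theorem cut6_eq (t : ℂ) : cut6 t = 6 * prj (t / 6) := by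
  unfold cut6 prj
  have h1 : ‖t / 6‖ = ‖t‖ / 6 := by
    rw [norm_div]
    simp
  have h2 : max 1 (‖t‖ / 6) = max 6 ‖t‖ / 6 := by
    rw [← max_div_div_right (by norm_num : (0:ℝ) ≤ 6)]
    norm_num
  have h3 : ((max 6 ‖t‖ : ℝ) : ℂ) ≠ 0 := by
    apply Complex.ofReal_ne_zero.2
    have : (6:ℝ) ≤ max 6 ‖t‖ := le_max_left _ _
    (clear * - this; linarith only [this])
  rw [h1, h2]
  push_cast at h3 ⊢
  field_simp

theorem norm_cut6_le (t : ℂ) : ‖cut6 t‖ ≤ 6 := by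
  rw [cut6_eq, norm_mul]
  have := norm_prj_le (t / 6)
  simp only [Complex.norm_ofNat]
  linarith

theorem cut6_of_le {t : ℂ} (h : ‖t‖ ≤ 6) : cut6 t = t := by
  rw [cut6_eq, prj_of_le]
  · (clear * -; field_simp)
  · rw [norm_div]
    simp only [Complex.norm_ofNat]
    linarith only [h]

theorem cut6_lip (t t' : ℂ) : ‖cut6 t - cut6 t'‖ ≤ 2 * ‖t - t'‖ := by
  rw [cut6_eq, cut6_eq, ← mul_sub, norm_mul]
  have h1 := prj_lip (t / 6) (t' / 6)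
  rw [← sub_div, norm_div] at h1
  simp only [Complex.norm_ofNat] at h1 ⊢
  linarith

theorem cut6_mul {u : ℂ} (hu : ‖u‖ = 1) (t : ℂ) : cut6 (u * t) = u * cut6 t := by
  unfold cut6
  rw [norm_mul, hu, one_mul]
  ring

theorem cut6_conj (t : ℂ) : cut6 (conj t) = conj (cut6 t) := by
  unfold cut6
  rw [norm_conj, map_mul, conj_ofReal]

end Pool.Agent.Helper20.EK7

end

section

namespace Pool.Agent.Helper52.EK
end Pool.Agent.Helper52.EK
namespace Pool.Agent.Helper69.EK3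
end Pool.Agent.Helper69.EK3
namespace Pool.Agent.Helper69.EK7
end Pool.Agent.Helper69.EK7

/-!
# Project EK7: fields `G m t` given by two pieces, inside and outside the unit circle of `m`

`InLip A L`, `OutLip B L`: the conditions on the two pieces (closed under sums);
`glue2`: gluing, with the radial retraction to the unit disc.
-/

set_option autoImplicit false

open Complex Metric Set Filter Topology

open scoped Real ComplexConjugate NNReal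

namespace Pool.Agent.Helper20.EK7

open Pool.Agent.Helper52.EK Pool.Agent.Helper69.EK3 Pool.Agent.Helper69.EK7

/-- conditions on the inside piece -/
structure InLip (A : ℂ → ℂ → ℂ) (L : ℝ) : Prop where
  nonneg : 0 ≤ L
  lip : ∀ m m' t t' : ℂ, ‖m‖ ≤ 1 → ‖m'‖ ≤ 1 → ‖A m t - A m' t'‖ ≤ L * (‖m - m'‖ + ‖t - t'‖)
  rot : ∀ u m t : ℂ, ‖u‖ = 1 → ‖m‖ ≤ 1 → ‖A (u * m) (u ^ 2 * t) - A m t‖ ≤ L * ‖u - 1‖

/-- conditions on the outside piece -/
structure OutLip (B : ℂ → ℂ → ℂ) (L : ℝ) : Prop where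
  nonneg : 0 ≤ L
  lip : ∀ m m' t t' : ℂ, 1 ≤ ‖m‖ → 1 ≤ ‖m'‖ → ‖B m t - B m' t'‖ ≤ L * (‖m - m'‖ + ‖t - t'‖)
  rot : ∀ u m t : ℂ, ‖u‖ = 1 → 1 ≤ ‖m‖ → ‖B (u * m) (u ^ 2 * t) - B m t‖ ≤ L * ‖u - 1‖

theorem InLip.mono {A : ℂ → ℂ → ℂ} {L L' : ℝ} (h : InLip A L) (hL : L ≤ L') : InLip A L' :=
  ⟨h.nonneg.trans hL,
    fun m m' t t' h1 h2 => (h.lip m m' t t' h1 h2).trans
      (mul_le_mul_of_nonneg_right hL (by (clear * -; positivity))),
    fun u m t h1 h2 => (h.rot u m t h1 h2).trans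
      (mul_le_mul_of_nonneg_right hL (norm_nonneg _))⟩

theorem InLip.add {A A' : ℂ → ℂ → ℂ} {L L' : ℝ} (h : InLip A L) (h' : InLip A' L') :
    InLip (fun m t => A m t + A' m t) (L + L') := by
  refine ⟨add_nonneg h.nonneg h'.nonneg, fun m m' t t' h1 h2 => ?_, fun u m t h1 h2 => ?_⟩
  · rw [add_sub_add_comm, add_mul]
    exact (norm_add_le _ _).trans (add_le_add (h.lip m m' t t' h1 h2) (h'.lip m m' t t' h1 h2))
  · rw [add_sub_add_comm, add_mul]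
    exact (norm_add_le _ _).trans (add_le_add (h.rot u m t h1 h2) (h'.rot u m t h1 h2))

theorem OutLip.add {B B' : ℂ → ℂ → ℂ} {L L' : ℝ} (h : OutLip B L) (h' : OutLip B' L') :
    OutLip (fun m t => B m t + B' m t) (L + L') := by
  refine ⟨add_nonneg h.nonneg h'.nonneg, fun m m' t t' h1 h2 => ?_, fun u m t h1 h2 => ?_⟩
  · rw [add_sub_add_comm, add_mul]
    exact (norm_add_le _ _).trans (add_le_add (h.lip m m' t t' h1 h2) (h'.lip m m' t t' h1 h2))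
  · rw [add_sub_add_comm, add_mul]
    exact (norm_add_le _ _).trans (add_le_add (h.rot u m t h1 h2) (h'.rot u m t h1 h2))

section pieces

variable {b : ℂ → ℂ → ℂ} {K : ℝ≥0}

theorem lip_of_on (hb : LipschitzOnWith K (fun p : ℂ × ℂ => b p.1 p.2)
    (closedBall 0 1 ×ˢ closedBall 0 6)) {m m' t t' : ℂ} (hm : ‖m‖ ≤ 1) (hm' : ‖m'‖ ≤ 1)
    (ht : ‖t‖ ≤ 6) (ht' : ‖t'‖ ≤ 6) :
    ‖b m t - b m' t'‖ ≤ (K : ℝ) * (‖m - m'‖ + ‖t - t'‖) := by
  have h1 : (m, t) ∈ closedBall (0:ℂ) 1 ×ˢ closedBall (0:ℂ) 6 :=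
    ⟨mem_closedBall_zero_iff.2 hm, mem_closedBall_zero_iff.2 ht⟩
  have h2 : (m', t') ∈ closedBall (0:ℂ) 1 ×ˢ closedBall (0:ℂ) 6 :=
    ⟨mem_closedBall_zero_iff.2 hm', mem_closedBall_zero_iff.2 ht'⟩
  have h3 := hb.dist_le_mul _ h1 _ h2
  rw [dist_eq_norm, Prod.dist_eq, dist_eq_norm, dist_eq_norm] at h3
  refine h3.trans (mul_le_mul_of_nonneg_left ?_ K.2)
  exact max_le (by linarith [norm_nonneg (t - t')]) (by (clear * -; linarith only [norm_nonneg (m - m')]))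

theorem norm_sq_sub_one_le {u : ℂ} (hu : ‖u‖ = 1) : ‖u ^ 2 - 1‖ ≤ 2 * ‖u - 1‖ := by
  have e : u ^ 2 - 1 = (u + 1) * (u - 1) := by ring
  rw [e, norm_mul]
  have h1 := norm_add_le u 1
  rw [hu, norm_one] at h1
  exact mul_le_mul_of_nonneg_right (by (clear * - h1; linarith)) (norm_nonneg _)

theorem rot_of_on (hb : LipschitzOnWith K (fun p : ℂ × ℂ => b p.1 p.2)
    (closedBall 0 1 ×ˢ closedBall 0 6)) {u m t : ℂ} (hu : ‖u‖ = 1) (hm : ‖m‖ ≤ 1) :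
    ‖b (u * m) (cut6 (u ^ 2 * t)) - b m (cut6 t)‖ ≤ (13 * (K : ℝ)) * ‖u - 1‖ := by
  have hu2 : ‖u ^ 2‖ = 1 := by rw [norm_pow, hu, one_pow]
  have h1 := lip_of_on hb (m := u * m) (m' := m) (t := cut6 (u ^ 2 * t)) (t' := cut6 t)
    (by rw [norm_mul, hu, one_mul]; exact hm) hm (norm_cut6_le _) (norm_cut6_le _)
  refine h1.trans ?_
  rw [cut6_mul hu2]
  have e1 : u * m - m = (u - 1) * m := by ring
  have e2 : u ^ 2 * cut6 t - cut6 t = (u ^ 2 - 1) * cut6 t := by ring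
  rw [e1, e2, norm_mul, norm_mul]
  have g0 := norm_nonneg (u - 1)
  have g1 := mul_le_mul_of_nonneg_left hm g0
  have g2 : ‖u ^ 2 - 1‖ * ‖cut6 t‖ ≤ (2 * ‖u - 1‖) * 6 :=
    mul_le_mul (norm_sq_sub_one_le hu) (norm_cut6_le t) (norm_nonneg _) (by (clear * -; positivity))
  have g3 : (K : ℝ) * (‖u - 1‖ * ‖m‖ + ‖u ^ 2 - 1‖ * ‖cut6 t‖) ≤ K * (13 * ‖u - 1‖) :=
    mul_le_mul_of_nonneg_left (by linarith) K.2
  linarith

theorem inLip_of_on (hb : LipschitzOnWith K (fun p : ℂ × ℂ => b p.1 p.2)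
    (closedBall 0 1 ×ˢ closedBall 0 6)) : InLip (fun m t => b m (cut6 t)) (13 * K) := by
  have hK : (0:ℝ) ≤ K := K.2
  refine ⟨by (clear * -; positivity), fun m m' t t' hm hm' => ?_, fun u m t hu hm => rot_of_on hb hu hm⟩
  have h1 := lip_of_on hb hm hm' (norm_cut6_le t) (norm_cut6_le t')
  have h2 := cut6_lip t t'
  refine h1.trans ?_
  have h3 : (K : ℝ) * (‖m - m'‖ + ‖cut6 t - cut6 t'‖) ≤ K * (13 * (‖m - m'‖ + ‖t - t'‖)) :=
    mul_le_mul_of_nonneg_left (by linarith [norm_nonneg (m - m'), norm_nonneg (t - t')]) hK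
  (clear * - h3; linarith)

end pieces

/-- (2) Lipschitz bound from `C¹` on an open neighbourhood -/
theorem lipOn_of_contDiffOn {f : ℂ × ℂ → ℂ} {U : Set (ℂ × ℂ)} (hU : IsOpen U)
    (hs : closedBall (0:ℂ) 1 ×ˢ closedBall (0:ℂ) 6 ⊆ U) (hf : ContDiffOn ℝ 1 f U) :
    ∃ K : ℝ≥0, LipschitzOnWith K f (closedBall 0 1 ×ˢ closedBall 0 6) := by
  have hc : IsCompact (closedBall (0:ℂ) 1 ×ˢ closedBall (0:ℂ) 6) :=
    (isCompact_closedBall 0 1).prod (isCompact_closedBall 0 6)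
  have h1 : ContinuousOn (fderiv ℝ f) (closedBall (0:ℂ) 1 ×ˢ closedBall (0:ℂ) 6) :=
    (hf.continuousOn_fderiv_of_isOpen hU le_rfl).mono hs
  obtain ⟨C, hC⟩ := hc.exists_bound_of_continuousOn h1
  refine ⟨C.toNNReal, Convex.lipschitzOnWith_of_nnnorm_fderiv_le (𝕜 := ℝ) (fun x hx => ?_)
    (fun x hx => ?_) ((convex_closedBall 0 1).prod (convex_closedBall 0 6))⟩
  · exact (hf.differentiableOn one_ne_zero).differentiableAt (hU.mem_nhds (hs hx))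
  · rw [← NNReal.coe_le_coe, coe_nnnorm]
    exact (hC x hx).trans (Real.le_coe_toNNReal C)

/-- (2) -/
theorem lipOn_of_contDiff {f : ℂ × ℂ → ℂ} (hf : ContDiff ℝ 1 f) :
    ∃ K : ℝ≥0, LipschitzOnWith K f (closedBall 0 1 ×ˢ closedBall 0 6) :=
  lipOn_of_contDiffOn isOpen_univ (subset_univ _) hf.contDiffOn

end Pool.Agent.Helper20.EK7

end

section

namespace Pool.Agent.Helper52.EK
end Pool.Agent.Helper52.EK
namespace Pool.Agent.Helper69.EK3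
end Pool.Agent.Helper69.EK3
namespace Pool.Agent.Helper69.EK7
end Pool.Agent.Helper69.EK7

/-!
# Project EK7: the one-jet pieces `m + (1 - |m|²)/ρ (a m + b)` without the condition `|G| ≤ 1`
-/

set_option autoImplicit false

open Complex Metric Set Filter Topology

open scoped Real ComplexConjugate NNReal

namespace Pool.Agent.Helper20.EK7

open Pool.Agent.Helper52.EK Pool.Agent.Helper69.EK3 Pool.Agent.Helper69.EK7

/-- conditions on the inside denominator -/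
structure InL (p0 p1 p2 : ℝ) : Prop where
  pos : 0 < p0 + p1 - |2 * p1|
  pos' : 0 < p0 + p1 - |2 * p1| + (p1 + p2)

/-- conditions on the outside denominator -/
structure OutL (a p0 p1 p2 : ℝ) : Prop where
  eq : p1 + p2 = a
  pos : 0 < p0 + p1 - |p1|
  pos' : 0 < p1 + p2 - |p1|

theorem InL.low {p0 p1 p2 : ℝ} (h : InL p0 p1 p2) :
    ∃ c : ℝ, 0 < c ∧ ∀ m : ℂ, ‖m‖ ≤ 1 → c * (1 + ‖m‖ ^ 2) ≤ rF p0 p1 p2 m := by
  have k1 := h.pos
  have k2 := h.pos'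
  refine ⟨min (p0 + p1 - |2 * p1|) (p0 + p1 - |2 * p1| + (p1 + p2)) / 2,
    by have := lt_min k1 k2; (clear * - this; linarith), fun m hm => ?_⟩
  have hx := (Complex.abs_re_le_norm m).trans hm
  have h0 : 0 ≤ ‖m‖ ^ 2 := sq_nonneg _
  have h1 : ‖m‖ ^ 2 ≤ 1 := by (clear * - hm; nlinarith only [norm_nonneg m, hm])
  have h2 : |2 * p1 * m.re| ≤ |2 * p1| := by
    rw [abs_mul]
    have := mul_le_mul_of_nonneg_left hx (abs_nonneg (2 * p1))
    (clear * - this; linarith)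
  have h3 := (abs_le.1 h2).1
  have m1 := min_le_left (p0 + p1 - |2 * p1|) (p0 + p1 - |2 * p1| + (p1 + p2))
  have m2 := min_le_right (p0 + p1 - |2 * p1|) (p0 + p1 - |2 * p1| + (p1 + p2))
  have m3 := lt_min k1 k2
  set d := min (p0 + p1 - |2 * p1|) (p0 + p1 - |2 * p1| + (p1 + p2))
  rw [rF_eq]
  have h4 : d ≤ (p0 + p1 - |2 * p1|) + (p1 + p2) * ‖m‖ ^ 2 := by
    (clear * - m2 h1 m1; nlinarith only [h1, m1, m2])
  nlinarith only [h1, h3, m1, m2, m3]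

theorem OutL.low {a p0 p1 p2 : ℝ} (h : OutL a p0 p1 p2) :
    ∃ c : ℝ, 0 < c ∧ ∀ m : ℂ, c * (1 + ‖m‖ ^ 2) ≤ rF p0 p1 p2 m := by
  have k1 := h.pos
  have k2 := h.pos'
  refine ⟨min (p0 + p1 - |p1|) (p1 + p2 - |p1|), lt_min k1 k2, fun m => ?_⟩
  have hx := Complex.abs_re_le_norm m
  have h0 : 0 ≤ ‖m‖ ^ 2 := sq_nonneg _
  have h1 : |m.re| ≤ (1 + ‖m‖ ^ 2) / 2 := by linarith only [sq_nonneg (‖m‖ - 1), hx]
  have h2 : |2 * p1 * m.re| ≤ |p1| * (1 + ‖m‖ ^ 2) := by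
    rw [abs_mul, abs_mul, abs_two]
    have := mul_le_mul_of_nonneg_left h1 (abs_nonneg p1)
    (clear * - this; linarith only [this])
  have h3 := (abs_le.1 h2).1
  have m1 := min_le_left (p0 + p1 - |p1|) (p1 + p2 - |p1|)
  have m2 := min_le_right (p0 + p1 - |p1|) (p1 + p2 - |p1|)
  rw [rF_eq]
  have m3 := mul_le_mul_of_nonneg_right m2 h0
  linarith only [h3, m1, m3]

/-- the inside piece is Lipschitz -/
theorem InL.lipF {p0 p1 p2 : ℝ} (h : InL p0 p1 p2) (a b : ℝ) : ∃ C : ℝ, 0 ≤ C ∧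
    ∀ m m' : ℂ, ‖m‖ ≤ 1 → ‖m'‖ ≤ 1 →
      ‖Fq a b p0 p1 p2 m - Fq a b p0 p1 p2 m'‖ ≤ C * ‖m - m'‖ := by
  obtain ⟨c, hc, hl⟩ := h.low
  obtain ⟨R, hR⟩ : ∃ R : ℝ, R = |p0 + p1| + |2 * p1| + |p1 + p2| := ⟨_, rfl⟩
  obtain ⟨Cr, hCr⟩ : ∃ Cr : ℝ, Cr = |2 * p1| + |p1 + p2| := ⟨_, rfl⟩
  have hCr0 : 0 ≤ Cr := by rw [hCr]; (clear * -; positivity)
  have hR0 : 0 ≤ R := by rw [hR]; (clear * -; positivity)
  obtain ⟨CN, hCN⟩ : ∃ CN : ℝ, CN = R + Cr + |a| + (|a| + |b|) := ⟨_, rfl⟩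
  have hCN0 : 0 ≤ CN := by rw [hCN]; (clear * - hR0 hCr0; positivity)
  obtain ⟨Bd, hBd⟩ : ∃ Bd : ℝ, Bd = 1 + (|a| + |b|) / c := ⟨_, rfl⟩
  have hBd0 : 0 ≤ Bd := by rw [hBd]; (clear * - hc; positivity)
  have hw : ∀ m' : ℂ, ‖m'‖ ≤ 1 → ‖(a : ℂ) * m' + (b : ℂ)‖ ≤ |a| + |b| := by
    intro m' hm'
    refine (norm_add_le _ _).trans ?_
    rw [norm_mul, Complex.norm_real, Complex.norm_real, Real.norm_eq_abs, Real.norm_eq_abs]
    have := mul_le_mul_of_nonneg_left hm' (abs_nonneg a)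
    linarith only [this]
  have hrp : ∀ m : ℂ, ‖m‖ ≤ 1 → c ≤ rF p0 p1 p2 m := by
    intro m hm
    have h1 := hl m hm
    have h2 : c * 1 ≤ c * (1 + ‖m‖ ^ 2) := mul_le_mul_of_nonneg_left
      (by (clear * -; nlinarith only [])) hc.le
    linarith only [h1, h2]
  have key : ∀ m m' : ℂ, ‖m‖ ≤ 1 → ‖m'‖ ≤ ‖m‖ → ‖Fq a b p0 p1 p2 m - Fq a b p0 p1 p2 m'‖ ≤
      4 * (CN + Bd * Cr) / c * ‖m - m'‖ := by
    intro m m' hm hm2
    have hm' : ‖m'‖ ≤ 1 := hm2.trans hm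
    have r1 : 0 < rF p0 p1 p2 m := hc.trans_le (hrp m hm)
    have r2 : 0 < rF p0 p1 p2 m' := hc.trans_le (hrp m' hm')
    have q1 := rF_lip p0 p1 p2 m m'
    have hn := norm_nonneg m
    have hn' := norm_nonneg m'
    have hd := norm_nonneg (m - m')
    have hRm : |rF p0 p1 p2 m| ≤ R := by
      rw [rF_eq, hR]
      refine (abs_add_three _ _ _).trans ?_
      have hx := (Complex.abs_re_le_norm m).trans hm
      have h4 : ‖m‖ ^ 2 ≤ 1 := by (clear * - hm hm2 hn'; nlinarith only [hm, hm2, hn'])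
      rw [abs_mul (2 * p1), abs_mul (p1 + p2), abs_of_nonneg (sq_nonneg ‖m‖)]
      have g1 := mul_le_mul_of_nonneg_left hx (abs_nonneg (2 * p1))
      have g2 := mul_le_mul_of_nonneg_left h4 (abs_nonneg (p1 + p2))
      linarith only [g1, g2]
    have hN' : ‖m' * ((rF p0 p1 p2 m' : ℝ) : ℂ) + ((1 - ‖m'‖ ^ 2 : ℝ) : ℂ) *
        ((a : ℂ) * m' + (b : ℂ))‖ ≤ Bd * rF p0 p1 p2 m' := by
      refine (norm_add_le _ _).trans ?_
      rw [norm_mul, norm_mul, Complex.norm_real, Complex.norm_real, Real.norm_of_nonneg r2.le]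
      have g1 : ‖(1 - ‖m'‖ ^ 2 : ℝ)‖ ≤ 1 := by
        rw [Real.norm_eq_abs]
        exact abs_le.2 ⟨by (clear * - hm' hn'; nlinarith only [hm', hn']), by nlinarith only []⟩
      have g2 := mul_le_mul g1 (hw m' hm') (norm_nonneg _) zero_le_one
      have g3 : ‖m'‖ * rF p0 p1 p2 m' ≤ 1 * rF p0 p1 p2 m' :=
        mul_le_mul_of_nonneg_right hm' r2.le
      have g4 : (|a| + |b|) ≤ (|a| + |b|) / c * rF p0 p1 p2 m' := by
        rw [div_mul_eq_mul_div, le_div_iff₀ hc]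
        exact mul_le_mul_of_nonneg_left (hrp m' hm') (by (clear * -; positivity))
      rw [hBd]
      (clear * - g2 g3 g4; linarith)
    have hNN : ‖(m * ((rF p0 p1 p2 m : ℝ) : ℂ) + ((1 - ‖m‖ ^ 2 : ℝ) : ℂ) *
        ((a : ℂ) * m + (b : ℂ))) - (m' * ((rF p0 p1 p2 m' : ℝ) : ℂ) +
        ((1 - ‖m'‖ ^ 2 : ℝ) : ℂ) * ((a : ℂ) * m' + (b : ℂ)))‖ ≤
        CN * ((1 + ‖m‖ + ‖m'‖) * ‖m - m'‖) := by
      have e : (m * ((rF p0 p1 p2 m : ℝ) : ℂ) + ((1 - ‖m‖ ^ 2 : ℝ) : ℂ) *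
        ((a : ℂ) * m + (b : ℂ))) - (m' * ((rF p0 p1 p2 m' : ℝ) : ℂ) +
        ((1 - ‖m'‖ ^ 2 : ℝ) : ℂ) * ((a : ℂ) * m' + (b : ℂ))) =
          ((rF p0 p1 p2 m : ℝ) : ℂ) * (m - m') +
          ((rF p0 p1 p2 m - rF p0 p1 p2 m' : ℝ) : ℂ) * m' +
          (((1 - ‖m‖ ^ 2) * a : ℝ) : ℂ) * (m - m') -
          ((‖m‖ ^ 2 - ‖m'‖ ^ 2 : ℝ) : ℂ) * ((a : ℂ) * m' + (b : ℂ)) := by
        push_cast
        ring
      rw [e]
      refine (norm_sub_le _ _).trans ?_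
      refine (add_le_add_left (norm_add₃_le) _).trans ?_
      rw [norm_mul, norm_mul, norm_mul, norm_mul, Complex.norm_real, Complex.norm_real,
        Complex.norm_real, Complex.norm_real, Real.norm_eq_abs, Real.norm_eq_abs,
        Real.norm_eq_abs, Real.norm_eq_abs]
      have w1 := hw m' hm'
      have w2 : |(1 - ‖m‖ ^ 2) * a| ≤ |a| := by
        rw [abs_mul]
        have h4 : ‖m‖ ^ 2 ≤ 1 := by (clear * - hm hn; nlinarith only [hm, hn])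
        have : |1 - ‖m‖ ^ 2| ≤ 1 := abs_le.2 ⟨by linarith only [h4], by linarith only [sq_nonneg ‖m‖]⟩
        have := mul_le_mul_of_nonneg_right this (abs_nonneg a)
        linarith only [this]
      have w3 := sq_lip m m'
      set T := (1 + ‖m‖ + ‖m'‖) * ‖m - m'‖ with hT
      have t1 : ‖m - m'‖ ≤ T := by rw [hT]; (clear * - hn hd hn'; nlinarith only [hn, hn', hd])
      have t2 : (‖m‖ + ‖m'‖) * ‖m - m'‖ ≤ T := by rw [hT]; linarith only [hd]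
      have hT0 : 0 ≤ T := hd.trans t1
      have g1 : |rF p0 p1 p2 m| * ‖m - m'‖ ≤ R * T := mul_le_mul hRm t1 hd hR0
      have g2 : |rF p0 p1 p2 m - rF p0 p1 p2 m'| * ‖m'‖ ≤ (Cr * T) * 1 :=
        mul_le_mul (by rw [hCr]; exact q1) hm' hn' (mul_nonneg hCr0 hT0)
      have g3 : |(1 - ‖m‖ ^ 2) * a| * ‖m - m'‖ ≤ |a| * T := mul_le_mul w2 t1 hd (abs_nonneg a)
      have g4 : |‖m‖ ^ 2 - ‖m'‖ ^ 2| * ‖(a : ℂ) * m' + (b : ℂ)‖ ≤ T * (|a| + |b|) :=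
        mul_le_mul (w3.trans t2) w1 (norm_nonneg _) hT0
      rw [hCN]
      (clear * - g1 g2 g3 g4; linarith only [g1, g2, g3, g4])
    have hq := rat_lip hc hCN0 hCr0 hBd0 hd hn' hm2 hNN (by rw [hCr]; exact q1) (hl m hm)
      r2 hN'
    rw [← Fq_div r1.ne', ← Fq_div r2.ne'] at hq
    have hF := norm_nonneg (Fq a b p0 p1 p2 m - Fq a b p0 p1 p2 m')
    nlinarith only [hn, hq, hF]
  refine ⟨4 * (CN + Bd * Cr) / c, by (clear * - hCN0 hBd0 hCr0 hc; positivity), fun m m' hm hm' => ?_⟩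
  rcases le_total ‖m'‖ ‖m‖ with h1 | h1
  · exact key m m' hm h1
  · rw [norm_sub_rev, norm_sub_rev m]
    exact key m' m hm' h1

/-- the outside piece is Lipschitz, with decay -/
theorem OutL.lipF {a p0 p1 p2 : ℝ} (h : OutL a p0 p1 p2) (b : ℝ) : ∃ C : ℝ, 0 ≤ C ∧
    ∀ m m' : ℂ, 1 ≤ ‖m'‖ → ‖m'‖ ≤ ‖m‖ →
    (1 + ‖m‖) * ‖Fq a b p0 p1 p2 m - Fq a b p0 p1 p2 m'‖ ≤ C * ‖m - m'‖ := by
  obtain ⟨c, hc, hl⟩ := h.low
  obtain ⟨Cr, hCr⟩ : ∃ Cr : ℝ, Cr = |2 * p1| + |p1 + p2| := ⟨_, rfl⟩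
  have hCr0 : 0 ≤ Cr := by rw [hCr]; (clear * -; positivity)
  obtain ⟨CN, hCN⟩ : ∃ CN : ℝ, CN = |p0 + p1 + a| + |2 * p1| + |b| := ⟨_, rfl⟩
  have hCN0 : 0 ≤ CN := by rw [hCN]; (clear * -; positivity)
  obtain ⟨Bd, hBd⟩ : ∃ Bd : ℝ, Bd = CN / c := ⟨_, rfl⟩
  have hBd0 : 0 ≤ Bd := by rw [hBd]; (clear * - hCN0 hc; positivity)
  refine ⟨4 * (CN + Bd * Cr) / c, by (clear * - hCN0 hBd0 hCr0 hc; positivity), fun m m' hm' hm2 => ?_⟩
  have hm : 1 ≤ ‖m‖ := hm'.trans hm2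
  have r1 : 0 < rF p0 p1 p2 m := lt_of_lt_of_le (by (clear * - hc hm; positivity)) (hl m)
  have r2 : 0 < rF p0 p1 p2 m' := lt_of_lt_of_le (by positivity) (hl m')
  have q1 := rF_lip p0 p1 p2 m m'
  have hn := norm_nonneg m
  have hn' := norm_nonneg m'
  have hd := norm_nonneg (m - m')
  have hN' : ‖m' * ((rF p0 p1 p2 m' : ℝ) : ℂ) + ((1 - ‖m'‖ ^ 2 : ℝ) : ℂ) *
      ((a : ℂ) * m' + (b : ℂ))‖ ≤ Bd * rF p0 p1 p2 m' := by
    have e : m' * ((rF p0 p1 p2 m' : ℝ) : ℂ) + ((1 - ‖m'‖ ^ 2 : ℝ) : ℂ) *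
        ((a : ℂ) * m' + (b : ℂ)) = ((p0 + p1 + a : ℝ) : ℂ) * m' +
          ((2 * p1 * m'.re : ℝ) : ℂ) * m' + ((b * (1 - ‖m'‖ ^ 2) : ℝ) : ℂ) := by
      rw [rF_eq, h.eq]
      push_cast
      ring
    rw [e]
    refine (norm_add₃_le).trans ?_
    rw [norm_mul, norm_mul, Complex.norm_real, Complex.norm_real, Complex.norm_real,
      Real.norm_eq_abs, Real.norm_eq_abs, Real.norm_eq_abs, abs_mul (2 * p1), abs_mul b]
    have w4 := Complex.abs_re_le_norm m'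
    have g1 : |p0 + p1 + a| * ‖m'‖ ≤ |p0 + p1 + a| * (1 + ‖m'‖ ^ 2) :=
      mul_le_mul_of_nonneg_left (by nlinarith only []) (abs_nonneg _)
    have g2 : |2 * p1| * |m'.re| * ‖m'‖ ≤ |2 * p1| * (1 + ‖m'‖ ^ 2) := by
      have : |m'.re| * ‖m'‖ ≤ 1 + ‖m'‖ ^ 2 := by
        have := mul_le_mul_of_nonneg_right w4 hn'
        linarith only [this]
      have := mul_le_mul_of_nonneg_left this (abs_nonneg (2 * p1))
      (clear * - this; linarith)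
    have g3 : |b| * |1 - ‖m'‖ ^ 2| ≤ |b| * (1 + ‖m'‖ ^ 2) :=
      mul_le_mul_of_nonneg_left (abs_le.2 ⟨by (clear * -; linarith [sq_nonneg ‖m'‖]),
        by linarith [sq_nonneg ‖m'‖]⟩) (abs_nonneg _)
    have g4 : CN * (1 + ‖m'‖ ^ 2) ≤ Bd * rF p0 p1 p2 m' := by
      rw [hBd, div_mul_eq_mul_div, le_div_iff₀ hc]
      have := mul_le_mul_of_nonneg_left (hl m') hCN0
      (clear * - this; linarith only [this])
    have g5 : |p0 + p1 + a| * (1 + ‖m'‖ ^ 2) + |2 * p1| * (1 + ‖m'‖ ^ 2) +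
        |b| * (1 + ‖m'‖ ^ 2) = CN * (1 + ‖m'‖ ^ 2) := by
      rw [hCN]
      ring
    (clear * - g1 g2 g3 g4 g5; linarith)
  have hNN : ‖(m * ((rF p0 p1 p2 m : ℝ) : ℂ) + ((1 - ‖m‖ ^ 2 : ℝ) : ℂ) *
      ((a : ℂ) * m + (b : ℂ))) - (m' * ((rF p0 p1 p2 m' : ℝ) : ℂ) +
      ((1 - ‖m'‖ ^ 2 : ℝ) : ℂ) * ((a : ℂ) * m' + (b : ℂ)))‖ ≤
      CN * ((1 + ‖m‖ + ‖m'‖) * ‖m - m'‖) := by
    have e : (m * ((rF p0 p1 p2 m : ℝ) : ℂ) + ((1 - ‖m‖ ^ 2 : ℝ) : ℂ) *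
      ((a : ℂ) * m + (b : ℂ))) - (m' * ((rF p0 p1 p2 m' : ℝ) : ℂ) +
      ((1 - ‖m'‖ ^ 2 : ℝ) : ℂ) * ((a : ℂ) * m' + (b : ℂ))) =
        ((p0 + p1 + a : ℝ) : ℂ) * (m - m') +
        ((2 * p1 : ℝ) : ℂ) * ((m.re : ℂ) * (m - m') + ((m.re - m'.re : ℝ) : ℂ) * m') -
        ((b * (‖m‖ ^ 2 - ‖m'‖ ^ 2) : ℝ) : ℂ) := by
      rw [rF_eq, rF_eq, h.eq]
      push_cast
      ring
    rw [e]
    have w2 := sq_lip m m'
    have w3 := re_lip m m'
    have w4 := Complex.abs_re_le_norm m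
    set T := (1 + ‖m‖ + ‖m'‖) * ‖m - m'‖ with hT
    have t1 : ‖m - m'‖ ≤ T := by rw [hT]; (clear * - hn hd hn'; nlinarith only [hn, hn', hd])
    have t2 : (‖m‖ + ‖m'‖) * ‖m - m'‖ ≤ T := by rw [hT]; (clear * - hd; linarith only [hd])
    have hT0 : 0 ≤ T := hd.trans t1
    have v1 : ‖(m.re : ℂ) * (m - m') + ((m.re - m'.re : ℝ) : ℂ) * m'‖ ≤ T := by
      refine (norm_add_le _ _).trans (le_trans ?_ t2)
      rw [norm_mul, norm_mul, Complex.norm_real, Complex.norm_real, Real.norm_eq_abs,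
        Real.norm_eq_abs]
      have g1 := mul_le_mul_of_nonneg_right w4 hd
      have g2 := mul_le_mul_of_nonneg_right w3 hn'
      linarith only [g1, g2]
    refine (norm_sub_le _ _).trans ?_
    refine (add_le_add_left (norm_add_le _ _) _).trans ?_
    rw [norm_mul, norm_mul, Complex.norm_real, Complex.norm_real, Complex.norm_real,
      Real.norm_eq_abs, Real.norm_eq_abs, Real.norm_eq_abs, abs_mul b]
    have g1 := mul_le_mul_of_nonneg_left t1 (abs_nonneg (p0 + p1 + a))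
    have g2 := mul_le_mul_of_nonneg_left v1 (abs_nonneg (2 * p1))
    have g3 := mul_le_mul_of_nonneg_left (w2.trans t2) (abs_nonneg b)
    rw [hCN]
    linarith only [g1, g2, g3]
  have hq := rat_lip hc hCN0 hCr0 hBd0 hd hn' hm2 hNN (by rw [hCr]; exact q1) (hl m)
    r2 hN'
  rw [← Fq_div r1.ne', ← Fq_div r2.ne'] at hq
  exact hq

/-- (5), inside piece -/
theorem InL.inLip {p0 p1 p2 : ℝ} (h : InL p0 p1 p2) (a b : ℝ) :
    ∃ C : ℝ, InLip (fun m _ => Fq a b p0 p1 p2 m) C := by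
  obtain ⟨C, hC, hk⟩ := h.lipF a b
  refine ⟨C, hC, fun m m' t t' hm hm' => ?_, fun u m t hu hm => ?_⟩
  · exact (hk m m' hm hm').trans (mul_le_mul_of_nonneg_left
      (by linarith [norm_nonneg (t - t')]) hC)
  · refine (hk (u * m) m (by rw [norm_mul, hu, one_mul]; exact hm) hm).trans ?_
    have e : u * m - m = (u - 1) * m := by ring
    rw [e, norm_mul]
    have h2 := mul_le_mul_of_nonneg_left hm (norm_nonneg (u - 1))
    exact mul_le_mul_of_nonneg_left (by (clear * - h2; linarith)) hC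

/-- (5), outside piece -/
theorem OutL.outLip {a p0 p1 p2 : ℝ} (h : OutL a p0 p1 p2) (b : ℝ) :
    ∃ C : ℝ, OutLip (fun m _ => Fq a b p0 p1 p2 m) C := by
  obtain ⟨C, hC, k2⟩ := h.lipF b
  refine ⟨C, hC, fun m m' t t' hm hm' => ?_, fun u m t hu hm => ?_⟩
  · have h3 := norm_nonneg (Fq a b p0 p1 p2 m - Fq a b p0 p1 p2 m')
    have h4 : ‖Fq a b p0 p1 p2 m - Fq a b p0 p1 p2 m'‖ ≤ C * ‖m - m'‖ := by
      rcases le_total ‖m'‖ ‖m‖ with h1 | h1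
      · have h2 := k2 m m' hm' h1
        nlinarith only [hm', h3, h1, h2]
      · have h2 := k2 m' m hm h1
        rw [norm_sub_rev, norm_sub_rev m]
        rw [norm_sub_rev] at h3
        (clear * - h3 h2 hm'; nlinarith only [hm', h3, h2])
    exact h4.trans (mul_le_mul_of_nonneg_left (by (clear * -; linarith [norm_nonneg (t - t')])) hC)
  · have e0 : ‖u * m‖ = ‖m‖ := by rw [norm_mul, hu, one_mul]
    have h2 := k2 (u * m) m hm (by rw [e0])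
    have e : u * m - m = (u - 1) * m := by ring
    rw [e0, e, norm_mul] at h2
    have h4 : 0 < 1 + ‖m‖ := by (clear * - hm; positivity)
    have h5 : C * (‖u - 1‖ * ‖m‖) ≤ (1 + ‖m‖) * (C * ‖u - 1‖) := by
      have := mul_nonneg hC (norm_nonneg (u - 1))
      linarith only [this]
    exact le_of_mul_le_mul_left (h2.trans h5) h4

end Pool.Agent.Helper20.EK7

end

section

namespace Pool.Agent.Helper52.EK
end Pool.Agent.Helper52.EK
namespace Pool.Agent.Helper69.EK3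
end Pool.Agent.Helper69.EK3
namespace Pool.Agent.Helper69.EK7
end Pool.Agent.Helper69.EK7

/-!
# Project EK7: the general field is admissible

`Fd m t = gam m + c0 + l (a m + b) + Dj g0 g1 d m t`, `l = (1 - |m|²)/(p0 + p1 |m+1|² + p2 |m|²)`,
with different `a, b, p0, p1, p2` inside and outside the unit circle, retracted to the unit disc.
-/

set_option autoImplicit false

open Complex Metric Set Filter Topology

open scoped Real ComplexConjugate NNReal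

namespace Pool.Agent.Helper20.EK7

open Pool.Agent.Helper52.EK Pool.Agent.Helper69.EK3 Pool.Agent.Helper69.EK7

/-- the weak conditions on the outside piece -/
structure OutLipW (B : ℂ → ℂ → ℂ) (L : ℝ) : Prop where
  nonneg : 0 ≤ L
  lip : ∀ m m' t t' : ℂ, 1 ≤ ‖m‖ → 1 ≤ ‖m'‖ → ‖B m t - B m' t'‖ ≤ L * (‖m - m'‖ + ‖t - t'‖)
  rot : ∀ u m t : ℂ, ‖u‖ = 1 → 1 ≤ ‖m‖ →
    ‖B (u * m) (u ^ 2 * t) - B m t‖ ≤ L * ‖u - 1‖ * max 1 ‖B m t‖

theorem prj_lip_mul (w w' : ℂ) : ‖prj w - prj w'‖ * max 1 ‖w'‖ ≤ 2 * ‖w - w'‖ := by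
  have h := one_le_mx w'
  have e : prj w' - prj w = ((w' - w) + prj w * (((max 1 ‖w‖ - max 1 ‖w'‖ : ℝ)) : ℂ)) /
      ((max 1 ‖w'‖ : ℝ) : ℂ) := by
    have h1 := mx_ne w
    have h2 := mx_ne w'
    unfold prj
    push_cast at h1 h2 ⊢
    field_simp
    ring
  rw [norm_sub_rev, e, norm_div, Complex.norm_real, Real.norm_of_nonneg (by (clear * - h; linarith only [h])),
    div_mul_cancel₀ _ (by (clear * - h; linarith only [h]))]
  have h3 : |max 1 ‖w‖ - max 1 ‖w'‖| ≤ ‖w - w'‖ := by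
    rw [max_comm 1, max_comm 1]
    exact (abs_max_sub_max_le_abs _ _ _).trans (abs_norm_sub_norm_le _ _)
  refine (norm_add_le _ _).trans ?_
  rw [norm_mul, Complex.norm_real, Real.norm_eq_abs, norm_sub_rev w' w]
  have := mul_le_mul (norm_prj_le w) h3 (abs_nonneg _) zero_le_one
  linarith only [this]

/-- **gluing**, weak form -/
theorem glue3 {A B : ℂ → ℂ → ℂ} {L L' : ℝ} (hA : InLip A L) (hB : OutLipW B L')
    (hAB : ∀ m t : ℂ, ‖m‖ = 1 → A m t = B m t) :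
    ∃ M : ℝ, GLip2 (fun m t => prj (if ‖m‖ ≤ 1 then A m t else B m t)) M := by
  obtain ⟨M, hM⟩ : ∃ M, M = max L L' := ⟨_, rfl⟩
  have hA' : InLip A M := hA.mono (by rw [hM]; exact le_max_left _ _)
  have hLM : L' ≤ M := by rw [hM]; exact le_max_right _ _
  have hM0 := hA'.nonneg
  have hBl : ∀ m m' t t' : ℂ, 1 ≤ ‖m‖ → 1 ≤ ‖m'‖ →
      ‖B m t - B m' t'‖ ≤ M * (‖m - m'‖ + ‖t - t'‖) := fun m m' t t' h1 h2 =>
    (hB.lip m m' t t' h1 h2).trans (mul_le_mul_of_nonneg_right hLM (by (clear * -; positivity)))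
  have key : ∀ m m' t : ℂ, ‖m‖ ≤ 1 → 1 ≤ ‖m'‖ → ‖A m t - B m' t‖ ≤ M * ‖m - m'‖ := by
    intro m m' t h h'
    obtain ⟨p, hp, he⟩ := exists_cross h h'
    have e : A m t - B m' t = (A m t - A p t) + (B p t - B m' t) := by rw [hAB p t hp]; ring
    rw [e]
    refine (norm_add_le _ _).trans ?_
    have h1 := hA'.lip m p t t h hp.le
    have h2 := hBl p m' t t hp.ge h'
    rw [sub_self, norm_zero, add_zero] at h1 h2
    rw [← he, mul_add]
    (clear * - h1 h2; linarith only [h1, h2])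
  set F : ℂ → ℂ → ℂ := fun m t => if ‖m‖ ≤ 1 then A m t else B m t with hF
  have lm : ∀ m m' t : ℂ, ‖F m t - F m' t‖ ≤ M * ‖m - m'‖ := by
    intro m m' t
    simp only [hF]
    split_ifs with h h' h'
    · have h1 := hA'.lip m m' t t h h'
      rwa [sub_self, norm_zero, add_zero] at h1
    · exact key m m' t h (le_of_lt (not_le.mp h'))
    · rw [norm_sub_rev, norm_sub_rev m]
      exact key m' m t h' (le_of_lt (not_le.mp h))
    · have h1 := hBl m m' t t (le_of_lt (not_le.mp h)) (le_of_lt (not_le.mp h'))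
      rwa [sub_self, norm_zero, add_zero] at h1
  have lt : ∀ m t t' : ℂ, ‖F m t - F m t'‖ ≤ M * ‖t - t'‖ := by
    intro m t t'
    simp only [hF]
    split_ifs with h
    · have h1 := hA'.lip m m t t' h h
      rwa [sub_self, norm_zero, zero_add] at h1
    · have h1 := hBl m m t t' (le_of_lt (not_le.mp h)) (le_of_lt (not_le.mp h))
      rwa [sub_self, norm_zero, zero_add] at h1
  have lr : ∀ u m t : ℂ, ‖u‖ = 1 →
      ‖F (u * m) (u ^ 2 * t) - F m t‖ ≤ M * ‖u - 1‖ * max 1 ‖F m t‖ := by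
    intro u m t hu
    simp only [hF]
    rw [norm_mul, hu, one_mul]
    have hn := norm_nonneg (u - 1)
    split_ifs with h
    · have h1 := hA'.rot u m t hu h
      have h2 : 1 ≤ max 1 ‖A m t‖ := le_max_left _ _
      have h3 : 0 ≤ M * ‖u - 1‖ := by (clear * - hM0; positivity)
      (clear * - h1 h2 h3; nlinarith only [h1, h2, h3])
    · refine (hB.rot u m t hu (le_of_lt (not_le.mp h))).trans ?_
      have h2 : 0 ≤ max 1 ‖B m t‖ := le_trans zero_le_one (le_max_left _ _)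
      exact mul_le_mul_of_nonneg_right (mul_le_mul_of_nonneg_right hLM hn) h2
  refine ⟨2 * M, ?_⟩
  change GLip2 (fun m t => prj (F m t)) (2 * M)
  refine ⟨fun m t => norm_prj_le _, fun m m' t => ?_, fun u m t hu => ?_, ?_⟩
  · have := (prj_lip (F m t) (F m' t)).trans
      (mul_le_mul_of_nonneg_left (lm m m' t) (by norm_num))
    linarith only [this]
  · have h1 := prj_lip_mul (F (u * m) (u ^ 2 * t)) (F m t)
    have h2 := lr u m t hu
    have h3 : 0 < max 1 ‖F m t‖ := lt_of_lt_of_le one_pos (le_max_left _ _)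
    have h4 : ‖prj (F (u * m) (u ^ 2 * t)) - prj (F m t)‖ * max 1 ‖F m t‖ ≤
        (2 * M * ‖u - 1‖) * max 1 ‖F m t‖ := by linarith only [h1, h2]
    exact le_of_mul_le_mul_right h4 h3
  · have hlip : ∀ p q : ℂ × ℂ, dist (prj (F p.1 p.2)) (prj (F q.1 q.2)) ≤
        (4 * M) * dist p q := by
      intro p q
      rw [dist_eq_norm]
      have h1 := prj_lip (F p.1 p.2) (F q.1 q.2)
      have e : F p.1 p.2 - F q.1 q.2 = (F p.1 p.2 - F q.1 p.2) + (F q.1 p.2 - F q.1 q.2) := by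
        ring
      have h2 := norm_add_le (F p.1 p.2 - F q.1 p.2) (F q.1 p.2 - F q.1 q.2)
      rw [← e] at h2
      have h3 := lm p.1 q.1 p.2
      have h4 := lt q.1 p.2 q.2
      have h5 : ‖p.1 - q.1‖ ≤ dist p q := by
        rw [← dist_eq_norm, Prod.dist_eq]
        exact le_max_left _ _
      have h6 : ‖p.2 - q.2‖ ≤ dist p q := by
        rw [← dist_eq_norm, Prod.dist_eq]
        exact le_max_right _ _
      have h7 := mul_le_mul_of_nonneg_left h5 hM0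
      have h8 := mul_le_mul_of_nonneg_left h6 hM0
      linarith
    exact (LipschitzWith.of_dist_le_mul (K := ⟨4 * M, by (clear * - hM0; positivity)⟩) hlip).continuous

/-- bounded outside pieces -/
def OutRE (R : ℂ → ℂ → ℂ) : Prop :=
  ∃ L M : ℝ, OutLip R L ∧ ∀ m t : ℂ, 1 ≤ ‖m‖ → ‖R m t‖ ≤ M

theorem OutRE.add {R R' : ℂ → ℂ → ℂ} (h : OutRE R) (h' : OutRE R') :
    OutRE (fun m t => R m t + R' m t) := by
  obtain ⟨L, M, h1, h2⟩ := h
  obtain ⟨L', M', h1', h2'⟩ := h'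
  exact ⟨L + L', M + M', h1.add h1', fun m t hm =>
    (norm_add_le _ _).trans (add_le_add (h2 m t hm) (h2' m t hm))⟩

theorem OutRE.smul {R : ℂ → ℂ → ℂ} (h : OutRE R) (c : ℂ) : OutRE (fun m t => c * R m t) := by
  obtain ⟨L, M, h1, h2⟩ := h
  refine ⟨‖c‖ * L, ‖c‖ * M, ⟨mul_nonneg (norm_nonneg _) h1.nonneg, fun m m' t t' g g' => ?_,
    fun u m t g g' => ?_⟩, fun m t hm => ?_⟩
  · rw [← mul_sub, norm_mul, mul_assoc]
    exact mul_le_mul_of_nonneg_left (h1.lip m m' t t' g g') (norm_nonneg _)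
  · rw [← mul_sub, norm_mul, mul_assoc]
    exact mul_le_mul_of_nonneg_left (h1.rot u m t g g') (norm_nonneg _)
  · rw [norm_mul]
    exact mul_le_mul_of_nonneg_left (h2 m t hm) (norm_nonneg _)

theorem OutRE.const (c : ℂ) : OutRE (fun _ _ => c) :=
  ⟨0, ‖c‖, ⟨le_rfl, fun _ _ _ _ _ _ => by simp, fun _ _ _ _ _ => by simp⟩, fun _ _ _ => le_rfl⟩

/-- a linear function plus a bounded piece -/
theorem OutRE.lin {R : ℂ → ℂ → ℂ} (h : OutRE R) (κ : ℂ) :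
    ∃ L : ℝ, OutLipW (fun m t => κ * m + R m t) L := by
  obtain ⟨L, M, h1, h2⟩ := h
  have hL := h1.nonneg
  have hM : 0 ≤ M := (norm_nonneg _).trans (h2 1 0 (by simp))
  have hk := norm_nonneg κ
  refine ⟨‖κ‖ + (1 + M + L), by (clear * - hM hL; positivity), fun m m' t t' g g' => ?_, fun u m t g g' => ?_⟩
  · have e : κ * m + R m t - (κ * m' + R m' t') = κ * (m - m') + (R m t - R m' t') := by ring
    rw [e]
    refine (norm_add_le _ _).trans ?_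
    rw [norm_mul]
    have := h1.lip m m' t t' g g'
    have k1 := norm_nonneg (m - m')
    have k2 := norm_nonneg (t - t')
    (clear * - this k1 k2 hM hk; nlinarith only [hM, hk, this, k1, k2])
  · have e : κ * (u * m) + R (u * m) (u ^ 2 * t) - (κ * m + R m t) =
        (κ * m) * (u - 1) + (R (u * m) (u ^ 2 * t) - R m t) := by ring
    rw [e]
    refine (norm_add_le _ _).trans ?_
    rw [norm_mul]
    have k1 := h1.rot u m t g g'
    have k2 := h2 m t g'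
    have k3 : ‖κ * m‖ ≤ ‖κ * m + R m t‖ + M := by
      have : κ * m = (κ * m + R m t) - R m t := by ring
      calc ‖κ * m‖ = ‖(κ * m + R m t) - R m t‖ := by rw [← this]
        _ ≤ ‖κ * m + R m t‖ + ‖R m t‖ := norm_sub_le _ _
        _ ≤ _ := by linarith
    obtain ⟨x, hx⟩ : ∃ x, x = max 1 ‖κ * m + R m t‖ := ⟨_, rfl⟩
    have x1 : 1 ≤ x := by rw [hx]; exact le_max_left _ _
    have x2 : ‖κ * m + R m t‖ ≤ x := by rw [hx]; exact le_max_right _ _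
    rw [← hx]
    have hn := norm_nonneg (u - 1)
    have k4 : ‖κ * m‖ ≤ (1 + M) * x := by (clear * - k3 x2 hM x1; nlinarith only [hM, k3, x1, x2])
    have k5 := mul_le_mul_of_nonneg_right k4 hn
    have k6 : L * ‖u - 1‖ ≤ L * ‖u - 1‖ * x := by
      have : 0 ≤ L * ‖u - 1‖ := by (clear * - hL; positivity)
      (clear * - x1 this; nlinarith only [x1, this])
    have k7 : 0 ≤ ‖κ‖ * ‖u - 1‖ * x := by (clear * - x1; positivity)
    have e2 : (‖κ‖ + (1 + M + L)) * ‖u - 1‖ * x = ‖κ‖ * ‖u - 1‖ * x + (1 + M) * x * ‖u - 1‖ +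
      L * ‖u - 1‖ * x := by ring
    rw [e2]
    linarith only [k1, k5, k6, k7]

/-- the outside one-jet piece is bounded -/
theorem OutL.bdd {a p0 p1 p2 : ℝ} (h : OutL a p0 p1 p2) (b : ℝ) :
    ∃ M : ℝ, ∀ m : ℂ, ‖Fq a b p0 p1 p2 m‖ ≤ M := by
  obtain ⟨c, hc, hl⟩ := h.low
  obtain ⟨CN, hCN⟩ : ∃ CN : ℝ, CN = |p0 + p1 + a| + |2 * p1| + |b| := ⟨_, rfl⟩
  have hCN0 : 0 ≤ CN := by rw [hCN]; (clear * -; positivity)
  refine ⟨CN / c, fun m' => ?_⟩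
  have r2 : 0 < rF p0 p1 p2 m' := lt_of_lt_of_le (by (clear * - hc; positivity)) (hl m')
  have hn' := norm_nonneg m'
  rw [Fq_div r2.ne', norm_div, Complex.norm_real, Real.norm_of_nonneg r2.le, div_le_iff₀ r2]
  have e : m' * ((rF p0 p1 p2 m' : ℝ) : ℂ) + ((1 - ‖m'‖ ^ 2 : ℝ) : ℂ) *
      ((a : ℂ) * m' + (b : ℂ)) = ((p0 + p1 + a : ℝ) : ℂ) * m' +
        ((2 * p1 * m'.re : ℝ) : ℂ) * m' + ((b * (1 - ‖m'‖ ^ 2) : ℝ) : ℂ) := by
    rw [rF_eq, h.eq]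
    push_cast
    ring
  rw [e]
  refine (norm_add₃_le).trans ?_
  rw [norm_mul, norm_mul, Complex.norm_real, Complex.norm_real, Complex.norm_real,
    Real.norm_eq_abs, Real.norm_eq_abs, Real.norm_eq_abs, abs_mul (2 * p1), abs_mul b]
  have w4 := Complex.abs_re_le_norm m'
  have g1 : |p0 + p1 + a| * ‖m'‖ ≤ |p0 + p1 + a| * (1 + ‖m'‖ ^ 2) :=
    mul_le_mul_of_nonneg_left (by (clear * -; nlinarith only [])) (abs_nonneg _)
  have g2 : |2 * p1| * |m'.re| * ‖m'‖ ≤ |2 * p1| * (1 + ‖m'‖ ^ 2) := by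
    have : |m'.re| * ‖m'‖ ≤ 1 + ‖m'‖ ^ 2 := by
      have := mul_le_mul_of_nonneg_right w4 hn'
      linarith only [this]
    have := mul_le_mul_of_nonneg_left this (abs_nonneg (2 * p1))
    (clear * - this; linarith only [this])
  have g3 : |b| * |1 - ‖m'‖ ^ 2| ≤ |b| * (1 + ‖m'‖ ^ 2) :=
    mul_le_mul_of_nonneg_left (abs_le.2 ⟨by linarith only [],
      by linarith only [sq_nonneg ‖m'‖]⟩) (abs_nonneg _)
  have g4 : CN * (1 + ‖m'‖ ^ 2) ≤ CN / c * rF p0 p1 p2 m' := by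
    rw [div_mul_eq_mul_div, le_div_iff₀ hc]
    have := mul_le_mul_of_nonneg_left (hl m') hCN0
    (clear * - this; linarith only [this])
  have g5 : |p0 + p1 + a| * (1 + ‖m'‖ ^ 2) + |2 * p1| * (1 + ‖m'‖ ^ 2) +
      |b| * (1 + ‖m'‖ ^ 2) = CN * (1 + ‖m'‖ ^ 2) := by
    rw [hCN]
    ring
  (clear * - g1 g2 g3 g4 g5; linarith only [g1, g2, g3, g4, g5])

theorem OutL.outRE {a p0 p1 p2 : ℝ} (h : OutL a p0 p1 p2) (b : ℝ) :
    OutRE (fun m _ => Fq a b p0 p1 p2 m) := by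
  obtain ⟨C, hC⟩ := h.outLip b
  obtain ⟨M, hM⟩ := h.bdd b
  exact ⟨C, M, hC, fun m _ _ => hM m⟩

/-- conditions on the outside denominator -/
structure OutD (p0 p1 p2 : ℝ) : Prop where
  pos : 0 < p0 + p1 - |p1|
  pos' : 0 < p1 + p2 - |p1|

/-- the general outside one-jet piece -/
theorem Fq_split {a b p0 p1 p2 : ℝ} (hP : p1 + p2 ≠ 0) (m : ℂ) :
    Fq a b p0 p1 p2 m = ((1 - a / (p1 + p2) : ℝ) : ℂ) * m +
      (((a / (p1 + p2) - 1 : ℝ) : ℂ) * Fq (p1 + p2) 0 p0 p1 p2 m +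
        Fq (p1 + p2) b p0 p1 p2 m) := by
  have hP' : ((p1 : ℂ) + (p2 : ℂ)) ≠ 0 := by exact_mod_cast hP
  unfold Fq
  push_cast
  field_simp
  ring

end Pool.Agent.Helper20.EK7

end

section

namespace Pool.Agent.Helper52.EK
end Pool.Agent.Helper52.EK
namespace Pool.Agent.Helper69.EK3
end Pool.Agent.Helper69.EK3
namespace Pool.Agent.Helper69.EK7
end Pool.Agent.Helper69.EK7

/-!
# Project EK7: the general field is admissible, the 2-jet term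
-/

set_option autoImplicit false

open Complex Metric Set Filter Topology

open scoped Real ComplexConjugate NNReal

namespace Pool.Agent.Helper20.EK7

open Pool.Agent.Helper52.EK Pool.Agent.Helper69.EK3 Pool.Agent.Helper69.EK7

theorem Dj_contDiff {g0 g1 d : ℝ} (hd : 0 ≤ d) :
    ContDiff ℝ 1 (fun p : ℂ × ℂ => Dj g0 g1 d p.1 p.2) := by
  have h1 : ContDiff ℝ 1 (fun p : ℂ × ℂ => p.1) := contDiff_fst
  have h2 : ContDiff ℝ 1 (fun p : ℂ × ℂ => p.2) := contDiff_snd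
  have h3 : ContDiff ℝ 1 (fun p : ℂ × ℂ => p.1 + 1) := h1.add contDiff_const
  have h4 : ContDiff ℝ 1 (fun p : ℂ × ℂ => conj (p.1 + 1)) :=
    (Complex.conjCLE : ℂ ≃L[ℝ] ℂ).contDiff.comp h3
  have h5 : ContDiff ℝ 1 (fun p : ℂ × ℂ => ((1 + d * ‖p.1 + 1‖ ^ 2 : ℝ) : ℂ)) := by
    have h6 : ContDiff ℝ 1 (fun p : ℂ × ℂ => (1 + d * ‖p.1 + 1‖ ^ 2 : ℝ)) :=
      contDiff_const.add (contDiff_const.mul (h3.norm_sq ℝ))
    exact (Complex.ofRealCLM : ℝ →L[ℝ] ℂ).contDiff.comp h6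
  have h7 : ∀ p : ℂ × ℂ, ((1 + d * ‖p.1 + 1‖ ^ 2 : ℝ) : ℂ) ≠ 0 := by
    intro p
    apply Complex.ofReal_ne_zero.2
    (clear * - hd; positivity)
  have h8 : ContDiff ℝ 1 (fun p : ℂ × ℂ => ((g0 : ℂ) + g1 * conj (p.1 + 1)) *
      (-p.2 - 3 / 2 * (p.1 + 1) ^ 2)) :=
    (contDiff_const.add (contDiff_const.mul h4)).mul
      ((h2.neg).sub (contDiff_const.mul (h3.pow 2)))
  have h9 : (fun p : ℂ × ℂ => Dj g0 g1 d p.1 p.2) = fun p : ℂ × ℂ =>
      (((g0 : ℂ) + g1 * conj (p.1 + 1)) * (-p.2 - 3 / 2 * (p.1 + 1) ^ 2)) *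
        (((1 + d * ‖p.1 + 1‖ ^ 2 : ℝ) : ℂ))⁻¹ := by
    funext p
    unfold Dj
    rw [div_eq_mul_inv]
  rw [h9]
  exact h8.mul (h5.inv h7)

theorem Dj_in {g0 g1 d : ℝ} (hd : 0 ≤ d) :
    ∃ L : ℝ, InLip (fun m t => Dj g0 g1 d m (cut6 t)) L := by
  obtain ⟨K, hK⟩ := lipOn_of_contDiff (Dj_contDiff (g0 := g0) (g1 := g1) hd)
  exact ⟨_, inLip_of_on hK⟩

/-- the numerator of the bounded part -/
noncomputable def nD (g0 g1 d : ℝ) (m τ : ℂ) : ℂ :=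
  -g0 * τ + -g1 * τ * conj (m + 1) + (-(3 / 2 * g0 : ℝ) : ℂ) * (m + 1) ^ 2 +
    ((3 / 2 * (g1 / d) : ℝ) : ℂ) * (m + 1)

/-- the denominator -/
noncomputable def rD (d : ℝ) (m : ℂ) : ℝ := 1 + d * ‖m + 1‖ ^ 2

theorem rD_pos {d : ℝ} (hd : 0 < d) (m : ℂ) : 0 < rD d m := by
  unfold rD
  (clear * - hd; positivity)

theorem Dj_split {g0 g1 d : ℝ} (hd : 0 < d) (m τ : ℂ) :
    Dj g0 g1 d m τ = ((-(3 / 2 * (g1 / d)) : ℝ) : ℂ) * (m + 1) +
      nD g0 g1 d m τ / ((rD d m : ℝ) : ℂ) := by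
  have h0 : ((rD d m : ℝ) : ℂ) ≠ 0 := Complex.ofReal_ne_zero.2 (rD_pos hd m).ne'
  have hd0 : (d : ℂ) ≠ 0 := Complex.ofReal_ne_zero.2 hd.ne'
  have e : Dj g0 g1 d m τ = (((g0 : ℂ) + g1 * conj (m + 1)) * (-τ - 3 / 2 * (m + 1) ^ 2)) /
      ((rD d m : ℝ) : ℂ) := rfl
  have e2 : (((-(3 / 2 * (g1 / d)) : ℝ) : ℂ) * (m + 1) + nD g0 g1 d m τ / ((rD d m : ℝ) : ℂ)) *
      ((rD d m : ℝ) : ℂ) = ((-(3 / 2 * (g1 / d)) : ℝ) : ℂ) * (m + 1) * ((rD d m : ℝ) : ℂ) +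
        nD g0 g1 d m τ := by
    rw [add_mul, div_mul_cancel₀ _ h0]
  rw [e, div_eq_iff h0, e2]
  have h1 : ((rD d m : ℝ) : ℂ) = 1 + d * ((m + 1) * conj (m + 1)) := by
    unfold rD
    rw [Complex.mul_conj']
    push_cast
    ring
  rw [h1]
  unfold nD
  push_cast
  field_simp
  ring

theorem nD_lip {g0 g1 d : ℝ} (m m' : ℂ) {τ : ℂ} (hτ : ‖τ‖ ≤ 6) : ‖nD g0 g1 d m τ - nD g0 g1 d m' τ‖ ≤
    (6 * |g1| + 3 * |g0| + 3 / 2 * |g1 / d|) * ((1 + ‖m‖ + ‖m'‖) * ‖m - m'‖) := by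
  have e : nD g0 g1 d m τ - nD g0 g1 d m' τ = ((-g1 : ℝ) : ℂ) * τ * conj (m - m') +
      ((-(3 / 2 * g0) : ℝ) : ℂ) * ((m + m' + 2) * (m - m')) +
        ((3 / 2 * (g1 / d) : ℝ) : ℂ) * (m - m') := by
    unfold nD
    rw [map_add, map_add, map_sub]
    push_cast
    ring
  rw [e]
  refine (norm_add₃_le).trans ?_
  rw [norm_mul, norm_mul, norm_mul, norm_mul, norm_mul, norm_conj, Complex.norm_real,
    Complex.norm_real, Complex.norm_real, Real.norm_eq_abs, Real.norm_eq_abs, Real.norm_eq_abs,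
    abs_neg, abs_neg, abs_mul, abs_mul (3 / 2) (g1 / d)]
  have h3 : |(3 / 2 : ℝ)| = 3 / 2 := abs_of_pos (by norm_num)
  rw [h3]
  have hn := norm_nonneg m
  have hn' := norm_nonneg m'
  have ht := norm_nonneg (m - m')
  have k1 : ‖m + m' + 2‖ ≤ 2 * (1 + ‖m‖ + ‖m'‖) := by
    have := norm_add₃_le (a := m) (b := m') (c := (2:ℂ))
    simp only [Complex.norm_ofNat] at this
    (clear * - hn hn' this; linarith only [hn, hn', this])
  set T := (1 + ‖m‖ + ‖m'‖) * ‖m - m'‖ with hT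
  have t1 : ‖m - m'‖ ≤ T := by rw [hT]; (clear * - hn ht hn'; nlinarith only [hn, hn', ht])
  have t2 : ‖m + m' + 2‖ * ‖m - m'‖ ≤ 2 * T := by
    rw [hT]
    have := mul_le_mul_of_nonneg_right k1 ht
    linarith only [this]
  have hT0 : 0 ≤ T := ht.trans t1
  have g1' : |g1| * ‖τ‖ * ‖m - m'‖ ≤ |g1| * 6 * T :=
    mul_le_mul (mul_le_mul_of_nonneg_left hτ (abs_nonneg _)) t1 ht (by (clear * -; positivity))
  have g2' : 3 / 2 * |g0| * (‖m + m' + 2‖ * ‖m - m'‖) ≤ 3 / 2 * |g0| * (2 * T) :=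
    mul_le_mul_of_nonneg_left t2 (by (clear * -; positivity))
  have g3' : 3 / 2 * |g1 / d| * ‖m - m'‖ ≤ 3 / 2 * |g1 / d| * T :=
    mul_le_mul_of_nonneg_left t1 (by (clear * -; positivity))
  (clear * - g1' g2' g3'; linarith)

section

variable {g0 g1 d : ℝ} (hd : 0 < d)

include hd

theorem rD_lip (m m' : ℂ) : |rD d m - rD d m'| ≤ (2 * d) * ((1 + ‖m‖ + ‖m'‖) * ‖m - m'‖) := by
  have e : rD d m - rD d m' = d * (‖m + 1‖ ^ 2 - ‖m' + 1‖ ^ 2) := by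
    unfold rD
    ring
  rw [e, abs_mul, abs_of_pos hd]
  have h1 := sq_lip (m + 1) (m' + 1)
  rw [add_sub_add_right_eq_sub] at h1
  have h2 := norm_add_le m 1
  have h3 := norm_add_le m' 1
  rw [norm_one] at h2 h3
  have ht := norm_nonneg (m - m')
  have h4 : (‖m + 1‖ + ‖m' + 1‖) * ‖m - m'‖ ≤ (2 * (1 + ‖m‖ + ‖m'‖)) * ‖m - m'‖ :=
    mul_le_mul_of_nonneg_right (by (clear * - h2 h3; linarith only [norm_nonneg m, norm_nonneg m', h2, h3])) ht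
  have h5 := mul_le_mul_of_nonneg_left (h1.trans h4) hd.le
  linarith only [h5]

theorem rD_low : ∃ c : ℝ, 0 < c ∧ ∀ m : ℂ, c * (1 + ‖m‖ ^ 2) ≤ rD d m := by
  refine ⟨min (1 / 3) (d / 2), lt_min (by norm_num) (by linarith only [hd]), fun m => ?_⟩
  have h1 : ‖m‖ ≤ ‖m + 1‖ + 1 := by
    have := norm_sub_le (m + 1) 1
    rw [add_sub_cancel_right, norm_one] at this
    exact this
  have h2 : ‖m‖ ^ 2 ≤ 2 * ‖m + 1‖ ^ 2 + 2 := by
    (clear * - h1; nlinarith only [norm_nonneg m, sq_nonneg (‖m + 1‖ - 1), h1])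
  have m1 := min_le_left (1 / 3) (d / 2)
  have m2 := min_le_right (1 / 3) (d / 2)
  have m0 : 0 < min (1 / 3) (d / 2) := lt_min (by norm_num) (by linarith only [hd])
  unfold rD
  have h3 : min (1 / 3) (d / 2) * (1 + ‖m‖ ^ 2) ≤ min (1 / 3) (d / 2) *
      (3 + 2 * ‖m + 1‖ ^ 2) := mul_le_mul_of_nonneg_left (by linarith only [h2]) m0.le
  have h4 := mul_le_mul_of_nonneg_right m2 (sq_nonneg ‖m + 1‖)
  linarith only [m1, h3, h4]

theorem nD_le (m : ℂ) {τ : ℂ} (hτ : ‖τ‖ ≤ 6) : ‖nD g0 g1 d m τ‖ ≤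
    ((6 * |g0| + 6 * |g1| + 3 / 2 * |g0| + 3 / 2 * |g1 / d|) * (1 + 1 / d)) * rD d m := by
  unfold nD
  have e : (-g0 * τ + -g1 * τ * conj (m + 1) + (-(3 / 2 * g0 : ℝ) : ℂ) * (m + 1) ^ 2 +
      ((3 / 2 * (g1 / d) : ℝ) : ℂ) * (m + 1)) = ((-g0 : ℝ) : ℂ) * τ +
      ((-g1 : ℝ) : ℂ) * τ * conj (m + 1) + ((-(3 / 2 * g0) : ℝ) : ℂ) * (m + 1) ^ 2 +
      ((3 / 2 * (g1 / d) : ℝ) : ℂ) * (m + 1) := by
    push_cast
    ring
  rw [e]
  refine (norm_add_le _ _).trans ?_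
  refine (add_le_add_left (norm_add₃_le) _).trans ?_
  rw [norm_mul, norm_mul, norm_mul, norm_mul, norm_mul, norm_pow, norm_conj, Complex.norm_real,
    Complex.norm_real, Complex.norm_real, Complex.norm_real, Real.norm_eq_abs, Real.norm_eq_abs,
    Real.norm_eq_abs, Real.norm_eq_abs, abs_neg, abs_neg, abs_neg, abs_mul,
    abs_mul (3 / 2) (g1 / d)]
  have h3 : |(3 / 2 : ℝ)| = 3 / 2 := abs_of_pos (by norm_num)
  rw [h3]
  obtain ⟨s, hs⟩ : ∃ s, s = ‖m + 1‖ := ⟨_, rfl⟩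
  have hs0 : 0 ≤ s := by rw [hs]; exact norm_nonneg _
  have hr : rD d m = 1 + d * s ^ 2 := by rw [hs]; rfl
  rw [hr, ← hs]
  have s1 : s ≤ 1 + s ^ 2 := by (clear * -; nlinarith only [])
  have s2 : 1 ≤ 1 + s ^ 2 := by (clear * -; nlinarith only [])
  have s3 : s ^ 2 ≤ 1 + s ^ 2 := by linarith only []
  have q1 : |g0| * ‖τ‖ ≤ |g0| * 6 * (1 + s ^ 2) := by
    have := mul_le_mul_of_nonneg_left hτ (abs_nonneg g0)
    have h5 : |g0| * 6 * 1 ≤ |g0| * 6 * (1 + s ^ 2) :=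
      mul_le_mul_of_nonneg_left s2 (by (clear * -; positivity))
    linarith only [this, h5]
  have q2 : |g1| * ‖τ‖ * s ≤ |g1| * 6 * (1 + s ^ 2) :=
    mul_le_mul (mul_le_mul_of_nonneg_left hτ (abs_nonneg _)) s1 hs0 (by (clear * -; positivity))
  have q3 : 3 / 2 * |g0| * s ^ 2 ≤ 3 / 2 * |g0| * (1 + s ^ 2) :=
    mul_le_mul_of_nonneg_left s3 (by (clear * -; positivity))
  have q4 : 3 / 2 * |g1 / d| * s ≤ 3 / 2 * |g1 / d| * (1 + s ^ 2) :=
    mul_le_mul_of_nonneg_left s1 (by (clear * -; positivity))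
  have q5 : 1 + s ^ 2 ≤ (1 + 1 / d) * (1 + d * s ^ 2) := by
    have : (1 + 1 / d) * (1 + d * s ^ 2) = 1 + s ^ 2 + (1 / d + d * s ^ 2) := by
      field_simp
      ring
    rw [this]
    have : 0 ≤ 1 / d + d * s ^ 2 := by (clear * - hd; positivity)
    (clear * - this; linarith only [this])
  have q6 := mul_le_mul_of_nonneg_left q5 (show 0 ≤ 6 * |g0| + 6 * |g1| + 3 / 2 * |g0| +
    3 / 2 * |g1 / d| by (clear * -; positivity))
  have q7 : (6 * |g0| + 6 * |g1| + 3 / 2 * |g0| + 3 / 2 * |g1 / d|) * (1 + s ^ 2) =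
    |g0| * 6 * (1 + s ^ 2) + |g1| * 6 * (1 + s ^ 2) + 3 / 2 * |g0| * (1 + s ^ 2) +
      3 / 2 * |g1 / d| * (1 + s ^ 2) := by ring
  linarith

/-- the bounded part of the outside 2-jet term -/
theorem nD_outRE : OutRE (fun m t => nD g0 g1 d m (cut6 t) / ((rD d m : ℝ) : ℂ)) := by
  obtain ⟨c, hc, hl⟩ := rD_low hd
  obtain ⟨CN, hCN⟩ : ∃ CN : ℝ, CN = 6 * |g1| + 3 * |g0| + 3 / 2 * |g1 / d| := ⟨_, rfl⟩
  have hCN0 : 0 ≤ CN := by rw [hCN]; (clear * -; positivity)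
  obtain ⟨Bd, hBd⟩ : ∃ Bd : ℝ, Bd = (6 * |g0| + 6 * |g1| + 3 / 2 * |g0| + 3 / 2 * |g1 / d|) *
    (1 + 1 / d) := ⟨_, rfl⟩
  have hBd0 : 0 ≤ Bd := by rw [hBd]; (clear * - hd; positivity)
  obtain ⟨C, hC⟩ : ∃ C : ℝ, C = 4 * (CN + Bd * (2 * d)) / c := ⟨_, rfl⟩
  have hC0 : 0 ≤ C := by rw [hC]; (clear * - hCN0 hBd0 hd hc; positivity)
  -- decay Lipschitz bound in `m`
  have k1 : ∀ (m m' τ : ℂ), ‖τ‖ ≤ 6 → ‖m'‖ ≤ ‖m‖ → (1 + ‖m‖) *
      ‖nD g0 g1 d m τ / ((rD d m : ℝ) : ℂ) - nD g0 g1 d m' τ / ((rD d m' : ℝ) : ℂ)‖ ≤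
      C * ‖m - m'‖ := by
    intro m m' τ hτ hm
    rw [hC]
    exact rat_lip hc hCN0 (by linarith only [hd]) hBd0 (norm_nonneg _) (norm_nonneg _) hm
      (by rw [hCN]; exact nD_lip m m' hτ) (rD_lip hd m m') (hl m) (rD_pos hd m')
      (by rw [hBd]; exact nD_le hd m' hτ)
  have k1' : ∀ (m m' τ : ℂ), ‖τ‖ ≤ 6 →
      ‖nD g0 g1 d m τ / ((rD d m : ℝ) : ℂ) - nD g0 g1 d m' τ / ((rD d m' : ℝ) : ℂ)‖ ≤
      C * ‖m - m'‖ := by
    intro m m' τ hτ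
    have h3 := norm_nonneg (nD g0 g1 d m τ / ((rD d m : ℝ) : ℂ) -
      nD g0 g1 d m' τ / ((rD d m' : ℝ) : ℂ))
    rcases le_total ‖m'‖ ‖m‖ with h1 | h1
    · have h2 := k1 m m' τ hτ h1
      (clear * - h2 h3; nlinarith only [norm_nonneg m, h3, h2])
    · have h2 := k1 m' m τ hτ h1
      rw [norm_sub_rev, norm_sub_rev m]
      rw [norm_sub_rev] at h3
      (clear * - h2 h3; nlinarith only [norm_nonneg m', h3, h2])
  -- Lipschitz bound in `τ`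
  obtain ⟨D, hD⟩ : ∃ D : ℝ, D = (|g0| + |g1|) * (1 + 1 / d) := ⟨_, rfl⟩
  have hD0 : 0 ≤ D := by rw [hD]; (clear * - hd; positivity)
  have k2 : ∀ (m τ τ' : ℂ),
      ‖nD g0 g1 d m τ / ((rD d m : ℝ) : ℂ) - nD g0 g1 d m τ' / ((rD d m : ℝ) : ℂ)‖ ≤
      D * ‖τ - τ'‖ := by
    intro m τ τ'
    have hr := rD_pos hd m
    rw [← sub_div, norm_div, Complex.norm_real, Real.norm_of_nonneg hr.le, div_le_iff₀ hr]
    have e : nD g0 g1 d m τ - nD g0 g1 d m τ' =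
        (((-g0 : ℝ) : ℂ) + ((-g1 : ℝ) : ℂ) * conj (m + 1)) * (τ - τ') := by
      unfold nD
      push_cast
      ring
    rw [e, norm_mul]
    have h1 : ‖((-g0 : ℝ) : ℂ) + ((-g1 : ℝ) : ℂ) * conj (m + 1)‖ ≤ |g0| + |g1| * ‖m + 1‖ := by
      refine (norm_add_le _ _).trans ?_
      rw [norm_mul, norm_conj, Complex.norm_real, Complex.norm_real, Real.norm_eq_abs,
        Real.norm_eq_abs, abs_neg, abs_neg]
    obtain ⟨s, hs⟩ : ∃ s, s = ‖m + 1‖ := ⟨_, rfl⟩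
    have hs0 : 0 ≤ s := by rw [hs]; exact norm_nonneg _
    have hr' : rD d m = 1 + d * s ^ 2 := by rw [hs]; rfl
    rw [← hs] at h1
    have s1 : s ≤ 1 + s ^ 2 := by (clear * -; nlinarith only [])
    have s2 : 1 ≤ 1 + s ^ 2 := by nlinarith only []
    have q5 : 1 + s ^ 2 ≤ (1 + 1 / d) * (1 + d * s ^ 2) := by
      have : (1 + 1 / d) * (1 + d * s ^ 2) = 1 + s ^ 2 + (1 / d + d * s ^ 2) := by
        field_simp
        ring
      rw [this]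
      have : 0 ≤ 1 / d + d * s ^ 2 := by (clear * - hd; positivity)
      linarith only [this]
    have h2 : |g0| + |g1| * s ≤ D * rD d m := by
      have g1' := mul_le_mul_of_nonneg_left s2 (abs_nonneg g0)
      have g2' := mul_le_mul_of_nonneg_left s1 (abs_nonneg g1)
      have g3' := mul_le_mul_of_nonneg_left q5 (show 0 ≤ |g0| + |g1| by (clear * -; positivity))
      rw [hD, hr']
      linarith only [g1', g2', g3']
    have h3 := mul_le_mul_of_nonneg_right (h1.trans h2) (norm_nonneg (τ - τ'))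
    linarith only [h3]
  refine ⟨C + 12 * D, Bd, ⟨by (clear * - hC0 hD0; positivity), fun m m' t t' hm hm' => ?_, fun u m t hu hm => ?_⟩,
    fun m t hm => ?_⟩
  · have e : nD g0 g1 d m (cut6 t) / ((rD d m : ℝ) : ℂ) -
        nD g0 g1 d m' (cut6 t') / ((rD d m' : ℝ) : ℂ) =
        (nD g0 g1 d m (cut6 t) / ((rD d m : ℝ) : ℂ) -
          nD g0 g1 d m' (cut6 t) / ((rD d m' : ℝ) : ℂ)) +
        (nD g0 g1 d m' (cut6 t) / ((rD d m' : ℝ) : ℂ) -
          nD g0 g1 d m' (cut6 t') / ((rD d m' : ℝ) : ℂ)) := by ring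
    rw [e]
    refine (norm_add_le _ _).trans ?_
    have h1 := k1' m m' (cut6 t) (norm_cut6_le t)
    have h2 := k2 m' (cut6 t) (cut6 t')
    have h3 := mul_le_mul_of_nonneg_left (cut6_lip t t') hD0
    have n1 := norm_nonneg (m - m')
    have n2 := norm_nonneg (t - t')
    nlinarith only [hC0, hD0, h1, h2, h3, n1, n2]
  · have hu2 : ‖u ^ 2‖ = 1 := by rw [norm_pow, hu, one_pow]
    have e0 : ‖u * m‖ = ‖m‖ := by rw [norm_mul, hu, one_mul]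
    have e : nD g0 g1 d (u * m) (cut6 (u ^ 2 * t)) / ((rD d (u * m) : ℝ) : ℂ) -
        nD g0 g1 d m (cut6 t) / ((rD d m : ℝ) : ℂ) =
        (nD g0 g1 d (u * m) (cut6 (u ^ 2 * t)) / ((rD d (u * m) : ℝ) : ℂ) -
          nD g0 g1 d m (cut6 (u ^ 2 * t)) / ((rD d m : ℝ) : ℂ)) +
        (nD g0 g1 d m (cut6 (u ^ 2 * t)) / ((rD d m : ℝ) : ℂ) -
          nD g0 g1 d m (cut6 t) / ((rD d m : ℝ) : ℂ)) := by ring
    rw [e]
    refine (norm_add_le _ _).trans ?_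
    have h1 := k1 (u * m) m (cut6 (u ^ 2 * t)) (norm_cut6_le _) (by rw [e0])
    have e1 : u * m - m = (u - 1) * m := by ring
    rw [e0, e1, norm_mul] at h1
    have h4 : 0 < 1 + ‖m‖ := by positivity
    have h5 : C * (‖u - 1‖ * ‖m‖) ≤ (1 + ‖m‖) * (C * ‖u - 1‖) := by
      have := mul_nonneg hC0 (norm_nonneg (u - 1))
      linarith only [this]
    have h6 := le_of_mul_le_mul_left (h1.trans h5) h4
    have h2 := k2 m (cut6 (u ^ 2 * t)) (cut6 t)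
    rw [cut6_mul hu2] at h2
    have e2 : u ^ 2 * cut6 t - cut6 t = (u ^ 2 - 1) * cut6 t := by ring
    rw [e2, norm_mul] at h2
    have h7 : ‖u ^ 2 - 1‖ * ‖cut6 t‖ ≤ (2 * ‖u - 1‖) * 6 :=
      mul_le_mul (norm_sq_sub_one_le hu) (norm_cut6_le t) (norm_nonneg _)
        (by have := norm_nonneg (u - 1); (clear * - this; linarith only [this]))
    have h8 := mul_le_mul_of_nonneg_left h7 hD0
    rw [cut6_mul hu2] at h6 ⊢
    linarith only [h6, h2, h8]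
  · have hr := rD_pos hd m
    rw [norm_div, Complex.norm_real, Real.norm_of_nonneg hr.le, div_le_iff₀ hr, hBd]
    exact nD_le hd m (norm_cut6_le t)

end

/-- one side of the field -/
noncomputable def Fd (gam c0 g0 g1 d a b p0 p1 p2 : ℝ) (m t : ℂ) : ℂ :=
  Fv gam c0 a b g0 g1 d ((1 - ‖m‖ ^ 2) / rF p0 p1 p2 m) m t

theorem Fd_eq (gam c0 g0 g1 d a b p0 p1 p2 : ℝ) (m t : ℂ) :
    Fd gam c0 g0 g1 d a b p0 p1 p2 m t =
      Fq a b p0 p1 p2 m + (((gam - 1 : ℝ) : ℂ) * m + (c0 : ℂ)) + Dj g0 g1 d m t := by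
  unfold Fd Fv Fq
  push_cast
  ring

theorem lin_in (c c0 : ℂ) : InLip (fun m _ => c * m + c0) ‖c‖ := by
  refine ⟨norm_nonneg _, fun m m' t t' _ _ => ?_, fun u m t hu hm => ?_⟩
  · have e : c * m + c0 - (c * m' + c0) = c * (m - m') := by ring
    rw [e, norm_mul]
    exact mul_le_mul_of_nonneg_left (by (clear * -; linarith only [norm_nonneg (t - t')])) (norm_nonneg _)
  · have e : c * (u * m) + c0 - (c * m + c0) = c * ((u - 1) * m) := by ring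
    rw [e, norm_mul, norm_mul]
    have := mul_le_mul_of_nonneg_left hm (norm_nonneg (u - 1))
    exact mul_le_mul_of_nonneg_left (by (clear * - this; linarith)) (norm_nonneg _)

theorem Fd_in (gam c0 g0 g1 d a b p0 p1 p2 : ℝ) (hd : 0 < d) (h : InL p0 p1 p2) :
    ∃ L : ℝ, InLip (fun m t => Fd gam c0 g0 g1 d a b p0 p1 p2 m (cut6 t)) L := by
  obtain ⟨L1, h1⟩ := h.inLip a b
  obtain ⟨L2, h2⟩ := Dj_in (g0 := g0) (g1 := g1) hd.le
  have h3 := (h1.add (lin_in ((gam - 1 : ℝ) : ℂ) (c0 : ℂ))).add h2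
  refine ⟨L1 + ‖((gam - 1 : ℝ) : ℂ)‖ + L2, ?_⟩
  have e : (fun m t => Fd gam c0 g0 g1 d a b p0 p1 p2 m (cut6 t)) =
      fun m t => Fq a b p0 p1 p2 m + (((gam - 1 : ℝ) : ℂ) * m + (c0 : ℂ)) +
        Dj g0 g1 d m (cut6 t) := by
    funext m t
    exact Fd_eq gam c0 g0 g1 d a b p0 p1 p2 m (cut6 t)
  rw [e]
  exact h3

theorem Fd_out (gam c0 g0 g1 d a b p0 p1 p2 : ℝ) (hd : 0 < d) (h : OutD p0 p1 p2) :
    ∃ L : ℝ, OutLipW (fun m t => Fd gam c0 g0 g1 d a b p0 p1 p2 m (cut6 t)) L := by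
  have hP : p1 + p2 ≠ 0 := by
    have := h.pos'
    have := abs_nonneg p1
    linarith
  have hL : OutL (p1 + p2) p0 p1 p2 := ⟨rfl, h.pos, h.pos'⟩
  have r1 := (((hL.outRE 0).smul ((a / (p1 + p2) - 1 : ℝ) : ℂ)).add (hL.outRE b)).add
    ((OutRE.const ((c0 - 3 / 2 * (g1 / d) : ℝ) : ℂ)).add (nD_outRE (g0 := g0) (g1 := g1) hd))
  obtain ⟨L, hL'⟩ := r1.lin ((gam - a / (p1 + p2) - 3 / 2 * (g1 / d) : ℝ) : ℂ)
  refine ⟨L, ?_⟩
  have e : (fun m t => Fd gam c0 g0 g1 d a b p0 p1 p2 m (cut6 t)) =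
      fun m t => ((gam - a / (p1 + p2) - 3 / 2 * (g1 / d) : ℝ) : ℂ) * m +
        ((((a / (p1 + p2) - 1 : ℝ) : ℂ) * Fq (p1 + p2) 0 p0 p1 p2 m +
          Fq (p1 + p2) b p0 p1 p2 m) + (((c0 - 3 / 2 * (g1 / d) : ℝ) : ℂ) +
            nD g0 g1 d m (cut6 t) / ((rD d m : ℝ) : ℂ))) := by
    funext m t
    rw [Fd_eq, Fq_split hP, Dj_split hd]
    push_cast
    ring
  rw [e]
  exact hL'

/-- **the two-sided field**, retracted to the unit disc -/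
noncomputable def GF (gam c0 g0 g1 d a b p0 p1 p2 a' b' q0 q1 q2 : ℝ) (m t : ℂ) : ℂ :=
  prj (if ‖m‖ ≤ 1 then Fd gam c0 g0 g1 d a b p0 p1 p2 m (cut6 t)
    else Fd gam c0 g0 g1 d a' b' q0 q1 q2 m (cut6 t))

theorem Fd_circle {gam c0 g0 g1 d a b p0 p1 p2 a' b' q0 q1 q2 : ℝ} {m : ℂ} (hm : ‖m‖ = 1)
    (t : ℂ) : Fd gam c0 g0 g1 d a b p0 p1 p2 m t = Fd gam c0 g0 g1 d a' b' q0 q1 q2 m t := by
  rw [Fd_eq, Fd_eq, Fq_circle hm, Fq_circle hm]

theorem GF_glip (gam c0 g0 g1 d a b p0 p1 p2 a' b' q0 q1 q2 : ℝ) (hd : 0 < d)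
    (h : InL p0 p1 p2) (h' : OutD q0 q1 q2) :
    ∃ L : ℝ, GLip2 (GF gam c0 g0 g1 d a b p0 p1 p2 a' b' q0 q1 q2) L := by
  obtain ⟨L1, h1⟩ := Fd_in gam c0 g0 g1 d a b p0 p1 p2 hd h
  obtain ⟨L2, h2⟩ := Fd_out gam c0 g0 g1 d a' b' q0 q1 q2 hd h'
  exact glue3 h1 h2 fun m t hm => Fd_circle hm (cut6 t)

theorem Dj_conj (g0 g1 d : ℝ) (m t : ℂ) :
    Dj g0 g1 d (conj m) (conj t) = conj (Dj g0 g1 d m t) := by
  unfold Dj
  have e : conj m + 1 = conj (m + 1) := by simp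
  rw [e, norm_conj]
  simp only [map_div₀, map_mul, map_add, map_sub, map_neg, map_pow, conj_ofReal, map_one,
    map_ofNat, Complex.conj_conj]

theorem Fd_conj (gam c0 g0 g1 d a b p0 p1 p2 : ℝ) (m t : ℂ) :
    Fd gam c0 g0 g1 d a b p0 p1 p2 (conj m) (conj t) =
      conj (Fd gam c0 g0 g1 d a b p0 p1 p2 m t) := by
  rw [Fd_eq, Fd_eq, Fq_conj, Dj_conj]
  simp only [map_add, map_mul, conj_ofReal]

theorem GF_conj (gam c0 g0 g1 d a b p0 p1 p2 a' b' q0 q1 q2 : ℝ) (m t : ℂ) :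
    GF gam c0 g0 g1 d a b p0 p1 p2 a' b' q0 q1 q2 (conj m) (conj t) =
      conj (GF gam c0 g0 g1 d a b p0 p1 p2 a' b' q0 q1 q2 m t) := by
  unfold GF
  rw [norm_conj, cut6_conj, ← prj_conj]
  split_ifs
  · rw [Fd_conj]
  · rw [Fd_conj]

theorem GF_in {gam c0 g0 g1 d a b p0 p1 p2 a' b' q0 q1 q2 : ℝ} {m t : ℂ} (hm : ‖m‖ ≤ 1)
    (ht : ‖t‖ ≤ 6) {e : ℂ} (he : ‖e‖ = 1) :
    ‖GF gam c0 g0 g1 d a b p0 p1 p2 a' b' q0 q1 q2 m t - e‖ ^ 2 ≤
      ‖Fd gam c0 g0 g1 d a b p0 p1 p2 m t - e‖ ^ 2 := by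
  unfold GF
  rw [if_pos hm, cut6_of_le ht]
  exact prj_dist_sq he.le

theorem GF_out {gam c0 g0 g1 d a b p0 p1 p2 a' b' q0 q1 q2 : ℝ} {m t : ℂ} (hm : 1 ≤ ‖m‖)
    (ht : ‖t‖ ≤ 6) {e : ℂ} (he : ‖e‖ = 1) :
    ‖GF gam c0 g0 g1 d a b p0 p1 p2 a' b' q0 q1 q2 m t - e‖ ^ 2 ≤
      ‖Fd gam c0 g0 g1 d a' b' q0 q1 q2 m t - e‖ ^ 2 := by
  rcases eq_or_lt_of_le hm with h | h
  · refine (GF_in h.symm.le ht he).trans (le_of_eq ?_)
    rw [Fd_circle h.symm]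
  · unfold GF
    rw [if_neg (not_le.2 h), cut6_of_le ht]
    exact prj_dist_sq he.le

end Pool.Agent.Helper20.EK7

end
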