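import Pool.Agent.Helper60.BE.T03
import Pool.Agent.Helper60.BE.T08
import Pool.Agent.Helper60.BE.T01
import Pool.Agent.Helper60.BE.T04

set_option linter.all false

section

namespace Pool.Agent.Helper52.EK
end Pool.Agent.Helper52.EK
namespace Pool.Agent.Helper69.EK3
end Pool.Agent.Helper69.EK3

set_option autoImplicit false

open Complex MeasureTheory Metric Set

open scoped Real ComplexConjugate

namespace Pool.Agent.Helper69.EK7

open Pool.Agent.Helper52.EK Pool.Agent.Helper69.EK3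

variable {P : (ℂ → ℂ) → ℝ → ℝ → Prop}

/-- the order of integration -/
theorem IH_swap {x₁ x₂ h : ℝ} (hx : x₁ ≤ x₂) (hh : 0 ≤ h) {F : ℝ → ℝ → ℝ} (hF : CH x₁ x₂ h F) :
    IH x₁ x₂ h F = ∫ η in (0:ℝ)..h, ∫ ξ in x₁..x₂, F ξ η := by
  unfold IH
  rw [intervalIntegral.integral_of_le hx, intervalIntegral.integral_of_le hh]
  simp only [intervalIntegral.integral_of_le hx, intervalIntegral.integral_of_le hh]
  refine integral_integral_swap ?_
  have h1 : IntegrableOn (fun p : ℝ × ℝ => F p.1 p.2) (Ioc x₁ x₂ ×ˢ Ioc 0 h) :=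
    hF.integrableOn.mono_set (prod_mono Ioc_subset_Icc_self Ioc_subset_Icc_self)
  rw [IntegrableOn, Measure.volume_eq_prod, ← Measure.prod_restrict] at h1
  exact h1

end Pool.Agent.Helper69.EK7

end

section

namespace Pool.Agent.Helper52.EK
end Pool.Agent.Helper52.EK
namespace Pool.Agent.Helper69.EK3
end Pool.Agent.Helper69.EK3

set_option autoImplicit false

open Complex MeasureTheory Metric Set

open scoped Real ComplexConjugate

namespace Pool.Agent.Helper69.EK7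

open Pool.Agent.Helper52.EK Pool.Agent.Helper69.EK3

variable {P : (ℂ → ℂ) → ℝ → ℝ → Prop}

theorem d_xi {f : ℂ → ℂ} {ξ η : ℝ} (hf : DifferentiableAt ℂ f (pt ξ η)) :
    HasDerivAt (fun ξ : ℝ => f (pt ξ η)) (deriv f (pt ξ η)) ξ := by
  have h1 : HasDerivAt (fun ξ : ℝ => pt ξ η) 1 ξ := by
    unfold pt
    simpa using (Complex.ofRealCLM.hasDerivAt (x := ξ)).add_const ((η : ℂ) * I)
  have h2 := hf.hasDerivAt.scomp ξ h1
  rw [one_smul] at h2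
  exact h2

theorem d_eta {f : ℂ → ℂ} {ξ η : ℝ} (hf : DifferentiableAt ℂ f (pt ξ η)) :
    HasDerivAt (fun η : ℝ => f (pt ξ η)) (I * deriv f (pt ξ η)) η := by
  have h1 : HasDerivAt (fun η : ℝ => pt ξ η) I η := by
    unfold pt
    simpa using ((Complex.ofRealCLM.hasDerivAt (x := η)).mul_const I).const_add (ξ : ℂ)
  have h2 := hf.hasDerivAt.scomp η h1
  rw [smul_eq_mul] at h2
  exact h2

theorem d_H {H Hx Hy : ℂ → ℂ} (hH : C1c H Hx Hy) {g : ℝ → ℂ} {t : ℝ} {v : ℂ} (hg : g t ≠ 0)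
    (hd : HasDerivAt g v t) :
    HasDerivAt (fun s => H (g s)) (Hx (g t) * (v.re : ℂ) + Hy (g t) * (v.im : ℂ)) t := by
  have h1 := (hH.hd (g t) hg).comp_hasDerivAt t hd
  refine h1.congr_deriv ?_
  simp only [_root_.add_apply, ContinuousLinearMap.smulRight_apply, reCLM_apply, imCLM_apply,
    real_smul]
  ring

theorem d_conj {g : ℝ → ℂ} {t : ℝ} {v : ℂ} (hd : HasDerivAt g v t) :
    HasDerivAt (fun s => conj (g s)) (conj v) t :=
  (Complex.conjCLE.toContinuousLinearMap.hasFDerivAt (x := g t)).comp_hasDerivAt t hd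

theorem d_re {g : ℝ → ℂ} {t : ℝ} {v : ℂ} (hd : HasDerivAt g v t) :
    HasDerivAt (fun s => (g s).re) v.re t :=
  (reCLM.hasFDerivAt (x := g t)).comp_hasDerivAt t hd

theorem d_im {g : ℝ → ℂ} {t : ℝ} {v : ℂ} (hd : HasDerivAt g v t) :
    HasDerivAt (fun s => (g s).im) v.im t :=
  (imCLM.hasFDerivAt (x := g t)).comp_hasDerivAt t hd

/-- the field -/
noncomputable def FA (a : ℝ → ℝ) (H : ℂ → ℂ) (f h : (ℂ → ℂ) → ℂ → ℂ) (X : ℂ → ℂ) (ξ η : ℝ) : ℂ :=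
  (a η : ℂ) * H (X (pt ξ η)) * f X (pt ξ η) * conj (h X (pt ξ η))

/-- the integrand of the field `a(η) H(X) f conj h` -/
noncomputable def NF (a a₁ : ℝ → ℝ) (H Hx Hy : ℂ → ℂ) (f h : (ℂ → ℂ) → ℂ → ℂ)
    (X : ℂ → ℂ) (ξ η : ℝ) : ℝ :=
  (I * (a₁ η : ℂ) * H (X (pt ξ η)) * f X (pt ξ η) * conj (h X (pt ξ η)) +
    (a η : ℂ) * ((Hx (X (pt ξ η)) + I * Hy (X (pt ξ η))) * conj (deriv X (pt ξ η))) *
      f X (pt ξ η) * conj (h X (pt ξ η)) +
    2 * ((a η : ℂ) * H (X (pt ξ η)) * f X (pt ξ η) * conj (deriv (h X) (pt ξ η)))).re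

/-- the derivatives of the field -/
noncomputable def FA1 (a : ℝ → ℝ) (H Hx Hy : ℂ → ℂ) (f h : (ℂ → ℂ) → ℂ → ℂ) (X : ℂ → ℂ)
    (ξ η : ℝ) : ℂ :=
  (a η : ℂ) * (((Hx (X (pt ξ η)) * ((deriv X (pt ξ η)).re : ℂ) + Hy (X (pt ξ η)) *
      ((deriv X (pt ξ η)).im : ℂ)) * f X (pt ξ η) +
    H (X (pt ξ η)) * deriv (f X) (pt ξ η)) * conj (h X (pt ξ η)) +
    H (X (pt ξ η)) * f X (pt ξ η) * conj (deriv (h X) (pt ξ η)))

noncomputable def FA2 (a a₁ : ℝ → ℝ) (H Hx Hy : ℂ → ℂ) (f h : (ℂ → ℂ) → ℂ → ℂ) (X : ℂ → ℂ)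
    (ξ η : ℝ) : ℂ :=
  (a₁ η : ℂ) * (H (X (pt ξ η)) * f X (pt ξ η) * conj (h X (pt ξ η))) +
  (a η : ℂ) * (((Hx (X (pt ξ η)) * ((I * deriv X (pt ξ η)).re : ℂ) + Hy (X (pt ξ η)) *
      ((I * deriv X (pt ξ η)).im : ℂ)) * f X (pt ξ η) +
    H (X (pt ξ η)) * (I * deriv (f X) (pt ξ η))) * conj (h X (pt ξ η)) +
    H (X (pt ξ η)) * f X (pt ξ η) * conj (I * deriv (h X) (pt ξ η)))

theorem FA_sum (a a₁ : ℝ → ℝ) (H Hx Hy : ℂ → ℂ) (f h : (ℂ → ℂ) → ℂ → ℂ) (X : ℂ → ℂ)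
    (ξ η : ℝ) : (FA1 a H Hx Hy f h X ξ η).re + (-1) * (FA2 a a₁ H Hx Hy f h X ξ η).im =
      NF a a₁ H Hx Hy f h X ξ η := by
  unfold FA1 FA2 NF
  generalize H (X (pt ξ η)) = h0
  generalize Hx (X (pt ξ η)) = hx
  generalize Hy (X (pt ξ η)) = hy
  generalize deriv (h X) (pt ξ η) = k1
  generalize deriv (f X) (pt ξ η) = f1
  generalize deriv X (pt ξ η) = Y
  generalize h X (pt ξ η) = k
  generalize f X (pt ξ η) = f0
  simp only [mul_re, mul_im, add_re, add_im, conj_re, conj_im, ofReal_re, ofReal_im, I_re, I_im,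
    re_ofNat, im_ofNat]
  ring

/-- analytic functionals of `X` near the half strip -/
def AnF (f : (ℂ → ℂ) → ℂ → ℂ) : Prop :=
  ∀ (X : ℂ → ℂ) (x₁ x₂ : ℝ), NiceH X x₁ x₂ → AnalyticOnNhd ℂ (f X) (RectH x₁ x₂ (π / 2))

end Pool.Agent.Helper69.EK7

end

section

namespace Pool.Agent.Helper39.Area
end Pool.Agent.Helper39.Area
namespace Pool.Agent.Helper22.Marshall
end Pool.Agent.Helper22.Marshall

/-!
# The area theorem for the second coefficient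
-/

set_option autoImplicit false

open Complex Metric Set Filter Topology

open scoped Real ComplexConjugate

namespace Pool.Agent.Helper20.Kraus

open Pool.Agent.Helper39.Area

open Pool.Agent.Helper22.Marshall (coeff)

variable {k : ℂ → ℂ}

theorem phi_dslope (hk0 : k 0 = 1) {u : ℂ} (hu : u ≠ 0) :
    phi (dslope k 0) u = k u / u := by
  unfold phi
  rw [dslope_of_ne _ hu, slope_def_field, hk0, sub_zero]
  field_simp
  ring

theorem ext_of_k (hk : DifferentiableOn ℂ k (ball 0 1)) (hk0 : k 0 = 1)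
    (hinj : ∀ u ∈ ball (0:ℂ) 1, ∀ v ∈ ball (0:ℂ) 1, u ≠ 0 → v ≠ 0 → k u / u = k v / v → u = v) :
    Ext (dslope k 0) := by
  have hb0 : ball (0:ℂ) 1 ∈ 𝓝 (0:ℂ) := ball_mem_nhds 0 one_pos
  have hd : DifferentiableOn ℂ (dslope k 0) (ball 0 1) :=
    (Complex.differentiableOn_dslope hb0).mpr hk
  refine ⟨hd, ?_, ?_⟩
  · intro ζ ω hζ hω h1 h2 h
    have e1 := phi_dslope hk0 h1
    have e2 := phi_dslope hk0 h2
    unfold phi at e1 e2
    rw [e1, e2] at h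
    exact hinj ζ hζ ω hω h1 h2 h
  · intro ζ hζ
    by_cases h0 : ζ = 0
    · subst h0
      simp
    · have hopen : IsOpen (ball (0:ℂ) 1 ∩ {0}ᶜ) := isOpen_ball.inter isOpen_compl_singleton
      have hdp : DifferentiableOn ℂ (phi (dslope k 0)) (ball (0:ℂ) 1 ∩ {0}ᶜ) := by
        intro w hw
        exact (hasDerivAt_phi hd hw.1 hw.2).differentiableAt.differentiableWithinAt
      have hip : InjOn (phi (dslope k 0)) (ball (0:ℂ) 1 ∩ {0}ᶜ) := by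
        intro u hu v hv huv
        rw [phi_dslope hk0 hu.2, phi_dslope hk0 hv.2] at huv
        exact hinj u hu.1 v hv.1 hu.2 hv.2 huv
      have hne := Pool.Agent.Helper24.Br.deriv_ne_of_inj hopen hdp hip ⟨hζ, h0⟩
      rw [(hasDerivAt_phi hd hζ h0).deriv] at hne
      intro hc
      apply hne
      unfold dphi
      have : (ζ ^ 2)⁻¹ * (1 - ζ ^ 2 * deriv (dslope k 0) ζ) = 0 := by rw [hc, mul_zero]
      have hz2 : ζ ^ 2 ≠ 0 := pow_ne_zero _ h0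
      rw [mul_sub, mul_one, inv_mul_cancel_left₀ hz2] at this
      linear_combination -this

/-- the area theorem -/
theorem area_k (hk : DifferentiableOn ℂ k (ball 0 1)) (hk0 : k 0 = 1)
    (hinj : ∀ u ∈ ball (0:ℂ) 1, ∀ v ∈ ball (0:ℂ) 1, u ≠ 0 → v ≠ 0 → k u / u = k v / v → u = v) :
    ‖deriv (deriv k) 0‖ ≤ 2 := by
  have hE := ext_of_k hk hk0 hinj
  have hv : ∀ ζ : ℂ, ζ ≠ 0 → ‖ζ‖ < 1 → HasSum (fun m => coeff k m * ζ ^ m)
      (ζ ^ 1 * (Polynomial.X : Polynomial ℂ).eval (phi (dslope k 0) ζ)) := by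
    intro ζ h0 hζ
    have e1 : ζ ^ 1 * (Polynomial.X : Polynomial ℂ).eval (phi (dslope k 0) ζ) = k ζ := by
      rw [Polynomial.eval_X, phi_dslope hk0 h0]
      field_simp
    rw [e1]
    exact Pool.Agent.Helper22.Marshall.hasSum_coeff hk hζ
  have hA := Pool.Agent.Helper22.Marshall.gLe_one hE 1 Polynomial.X _
    (by rw [Polynomial.natDegree_X]) hv 3
  simp only [Finset.sum_range_succ, Finset.sum_range_zero, zero_add] at hA
  norm_num at hA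
  rw [Pool.Agent.Helper22.Marshall.coeff_zero, hk0] at hA
  have h2 : coeff k 2 = deriv (deriv k) 0 / 2 := by
    unfold Pool.Agent.Helper22.Marshall.coeff
    rw [iteratedDeriv_succ, iteratedDeriv_one]
    simp [Nat.factorial]
    ring
  rw [h2, norm_div] at hA
  have h3 : ‖(2:ℂ)‖ = 2 := by simp
  rw [h3, norm_one] at hA
  have h4 := norm_nonneg (deriv (deriv k) 0)
  (clear * - hA; nlinarith only [hA])

end Pool.Agent.Helper20.Kraus

end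

section

namespace Pool.Agent.Helper39.Area
end Pool.Agent.Helper39.Area
namespace Pool.Agent.Helper52.EK
end Pool.Agent.Helper52.EK

/-!
# The inequality of Kraus for the Schwarzian derivative
-/

set_option autoImplicit false

open Complex Metric Set Filter Topology

open scoped Real ComplexConjugate

namespace Pool.Agent.Helper20.Kraus

open Pool.Agent.Helper39.Area

open Pool.Agent.Helper52.EK

variable {β : ℂ → ℂ}

/-- the automorphism of the disc -/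
noncomputable def T (z u : ℂ) : ℂ := (u + z) / (1 + conj z * u)

theorem den_ne {z u : ℂ} (hz : ‖z‖ < 1) (hu : ‖u‖ < 1) : 1 + conj z * u ≠ 0 := by
  intro h
  have h1 : conj z * u = -1 := by linear_combination h
  have h2 := congrArg (fun w : ℂ => ‖w‖) h1
  simp only [norm_mul, RCLike.norm_conj, norm_neg, norm_one] at h2
  (clear * - hu h2 hz; nlinarith only [norm_nonneg u, hz, hu, h2])

theorem T_mem {z u : ℂ} (hz : ‖z‖ < 1) (hu : ‖u‖ < 1) : T z u ∈ ball (0:ℂ) 1 := by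
  have hd := den_ne hz hu
  rw [mem_ball_zero_iff, T, norm_div, div_lt_one (norm_pos_iff.mpr hd)]
  refine lt_of_pow_lt_pow_left₀ 2 (norm_nonneg _) ?_
  have h1 : ‖z‖ ^ 2 < 1 := by (clear * - hz; nlinarith only [norm_nonneg z, hz])
  have h2 : ‖u‖ ^ 2 < 1 := by (clear * - hu; nlinarith only [norm_nonneg u, hu])
  rw [← Complex.normSq_eq_norm_sq, Complex.normSq_apply] at h1 h2
  rw [← Complex.normSq_eq_norm_sq, ← Complex.normSq_eq_norm_sq, Complex.normSq_apply,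
    Complex.normSq_apply]
  simp only [add_re, add_im, mul_re, mul_im, one_re, one_im, conj_re, conj_im]
  (clear * - h1 h2; nlinarith only [h1, h2])

theorem T_hasDerivAt {z u : ℂ} (hz : ‖z‖ < 1) (hu : ‖u‖ < 1) :
    HasDerivAt (T z) ((1 - (‖z‖ : ℂ) ^ 2) / (1 + conj z * u) ^ 2) u := by
  have hd := den_ne hz hu
  have h1 : HasDerivAt (fun u : ℂ => u + z) 1 u := (hasDerivAt_id u).add_const z
  have h2 : HasDerivAt (fun u : ℂ => 1 + conj z * u) (conj z) u := by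
    simpa using ((hasDerivAt_id u).const_mul (conj z)).const_add 1
  have h3 := h1.div h2 hd
  have e : (1 * (1 + conj z * u) - (u + z) * conj z) / (1 + conj z * u) ^ 2 =
      (1 - (‖z‖ : ℂ) ^ 2) / (1 + conj z * u) ^ 2 := by
    congr 1
    rw [← Complex.mul_conj']
    ring
  rw [e] at h3
  exact h3

theorem T_zero (z : ℂ) : T z 0 = z := by simp [T]

theorem T_inj {z u v : ℂ} (hz : ‖z‖ < 1) (hu : ‖u‖ < 1) (hv : ‖v‖ < 1) (h : T z u = T z v) :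
    u = v := by
  have h1 := den_ne hz hu
  have h2 := den_ne hz hv
  unfold T at h
  rw [div_eq_div_iff h1 h2] at h
  have h3 : (u - v) * (1 - z * conj z) = 0 := by linear_combination h
  rcases mul_eq_zero.1 h3 with h4 | h4
  · exact sub_eq_zero.1 h4
  · exfalso
    rw [Complex.mul_conj'] at h4
    have h5 : ((1 - ‖z‖ ^ 2 : ℝ) : ℂ) = 0 := by
      push_cast
      exact h4
    have h6 : 1 - ‖z‖ ^ 2 = 0 := by exact_mod_cast h5
    nlinarith only [norm_nonneg z, hz, h6]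

/-- the function with `k u / u = c / (φ (T u) - φ z)` -/
noncomputable def kk (β : ℂ → ℂ) (z u : ℂ) : ℂ :=
  (u + z) / z * (N β z / qq β z (T z u))

theorem qq_self (z : ℂ) : qq β z z = N β z := by
  unfold qq N
  rw [dslope_same]
  ring

theorem kk_zero (h : Ext β) {z : ℂ} (hz : ‖z‖ < 1) (hz0 : z ≠ 0) : kk β z 0 = 1 := by
  have h1 : qq β z z ≠ 0 := qq_ne h (mem_ball_zero_iff.mpr hz) (mem_ball_zero_iff.mpr hz)
  rw [qq_self] at h1
  rw [kk, T_zero, qq_self, zero_add, div_self hz0, div_self h1, mul_one]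

theorem kk_diff (h : Ext β) {z : ℂ} (hz : ‖z‖ < 1) : DifferentiableOn ℂ (kk β z) (ball 0 1) := by
  have hzb : z ∈ ball (0:ℂ) 1 := mem_ball_zero_iff.mpr hz
  have hT : DifferentiableOn ℂ (T z) (ball 0 1) := fun u hu =>
    (T_hasDerivAt hz (mem_ball_zero_iff.mp hu)).differentiableAt.differentiableWithinAt
  have hm : MapsTo (T z) (ball 0 1) (ball 0 1) := fun u hu => T_mem hz (mem_ball_zero_iff.mp hu)
  have h1 : DifferentiableOn ℂ (fun u => qq β z (T z u)) (ball 0 1) := (qq_diff h.diff hzb).comp hT hm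
  have h2 : DifferentiableOn ℂ (fun u : ℂ => (u + z) / z) (ball 0 1) := by
    apply DifferentiableOn.div_const
    fun_prop
  exact h2.mul ((differentiableOn_const _).div h1 fun u hu => qq_ne h hzb (hm hu))

theorem z_sub_T {z u : ℂ} (hz : ‖z‖ < 1) (hu : ‖u‖ < 1) :
    z - T z u = -(u * (1 - (‖z‖ : ℂ) ^ 2)) / (1 + conj z * u) := by
  have hd := den_ne hz hu
  rw [T, eq_div_iff hd, sub_mul, div_mul_cancel₀ _ hd, ← Complex.mul_conj']
  ring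

theorem one_sub_ne {z : ℂ} (hz : ‖z‖ < 1) : (1 - (‖z‖ : ℂ) ^ 2) ≠ 0 := by
  intro h4
  have h5 : ((1 - ‖z‖ ^ 2 : ℝ) : ℂ) = 0 := by
    push_cast
    exact h4
  have h6 : 1 - ‖z‖ ^ 2 = 0 := by exact_mod_cast h5
  nlinarith only [norm_nonneg z, hz, h6]

/-- the relation between `kk` and `φ` -/
theorem kk_phi (h : Ext β) {z u : ℂ} (hz : ‖z‖ < 1) (hz0 : z ≠ 0) (hu : ‖u‖ < 1)
    (hT : T z u ≠ 0) :
    kk β z u * (phi β (T z u) - phi β z) = -(N β z * (1 - (‖z‖ : ℂ) ^ 2) / z ^ 2) * u := by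
  have hzb : z ∈ ball (0:ℂ) 1 := mem_ball_zero_iff.mpr hz
  have hd := den_ne hz hu
  have hq : qq β z (T z u) ≠ 0 := qq_ne h hzb (T_mem hz hu)
  have hs := z_sub_T hz hu
  rw [phi_sub z (T z u) hz0 hT]
  have e1 : (T z u)⁻¹ - z⁻¹ = (z - T z u) / (T z u * z) := by
    (clear * - hz0 hT; field_simp)
  have e2 : u + z = T z u * (1 + conj z * u) := by
    rw [T, div_mul_cancel₀ _ hd]
  rw [kk, e1, hs, e2]
  field_simp

theorem kk_inj (h : Ext β) {z : ℂ} (hz : ‖z‖ < 1) (hz0 : z ≠ 0) :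
    ∀ u ∈ ball (0:ℂ) 1, ∀ v ∈ ball (0:ℂ) 1, u ≠ 0 → v ≠ 0 → kk β z u / u = kk β z v / v → u = v := by
  have hzb : z ∈ ball (0:ℂ) 1 := mem_ball_zero_iff.mpr hz
  have hN : N β z ≠ 0 := by
    rw [← qq_self]
    exact qq_ne h hzb hzb
  have hkz : ∀ u ∈ ball (0:ℂ) 1, kk β z u = 0 → u = -z := by
    intro u hu h0
    have hq : qq β z (T z u) ≠ 0 := qq_ne h hzb (T_mem hz (mem_ball_zero_iff.mp hu))
    rw [kk] at h0
    rcases mul_eq_zero.1 h0 with h1 | h1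
    · rcases div_eq_zero_iff.1 h1 with h2 | h2
      · linear_combination h2
      · exact absurd h2 hz0
    · exact absurd h1 (div_ne_zero hN hq)
  have hTz : ∀ u ∈ ball (0:ℂ) 1, T z u = 0 → u = -z := by
    intro u hu h0
    rw [T] at h0
    rcases div_eq_zero_iff.1 h0 with h2 | h2
    · linear_combination h2
    · exact absurd h2 (den_ne hz (mem_ball_zero_iff.mp hu))
  have hk0 : kk β z (-z) = 0 := by
    rw [kk, neg_add_cancel, zero_div, zero_mul]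
  intro u hu v hv hu0 hv0 huv
  by_cases h1 : u = -z
  · rw [h1, hk0, zero_div] at huv
    have h2 : kk β z v = 0 := by
      rcases div_eq_zero_iff.1 huv.symm with h3 | h3
      · exact h3
      · exact absurd h3 hv0
    rw [h1, hkz v hv h2]
  by_cases h2 : v = -z
  · rw [h2, hk0, zero_div] at huv
    have h3 : kk β z u = 0 := by
      rcases div_eq_zero_iff.1 huv with h3 | h3
      · exact h3
      · exact absurd h3 hu0
    exact absurd (hkz u hu h3) h1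
  have hun := mem_ball_zero_iff.mp hu
  have hvn := mem_ball_zero_iff.mp hv
  have hTu : T z u ≠ 0 := fun h0 => h1 (hTz u hu h0)
  have hTv : T z v ≠ 0 := fun h0 => h2 (hTz v hv h0)
  have e1 := kk_phi h hz hz0 hun hTu
  have e2 := kk_phi h hz hz0 hvn hTv
  set c : ℂ := -(N β z * (1 - (‖z‖ : ℂ) ^ 2) / z ^ 2) with hc
  have hc0 : c ≠ 0 :=
    neg_ne_zero.mpr (div_ne_zero (mul_ne_zero hN (one_sub_ne hz)) (pow_ne_zero _ hz0))
  have hku : kk β z u ≠ 0 := fun h0 => h1 (hkz u hu h0)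
  have hkv : kk β z v ≠ 0 := fun h0 => h2 (hkz v hv h0)
  have e3 : phi β (T z u) - phi β z = c * (u / kk β z u) := by
    field_simp
    linear_combination e1
  have e4 : phi β (T z v) - phi β z = c * (v / kk β z v) := by
    field_simp
    linear_combination e2
  have e5 : u / kk β z u = v / kk β z v := by
    rw [← inv_div, ← inv_div (kk β z v), huv]
  have e6 : phi β (T z u) = phi β (T z v) := by
    rw [← sub_left_inj (a := phi β z), e3, e4, e5]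
  exact T_inj hz hun hvn (h.inj _ _ (T_mem hz hun) (T_mem hz hvn) hTu hTv e6)

/-- the area theorem for the Koebe transform -/
theorem kk_area (h : Ext β) {z : ℂ} (hz : ‖z‖ < 1) (hz0 : z ≠ 0) :
    ‖deriv (deriv (kk β z)) 0‖ ≤ 2 :=
  area_k (kk_diff h hz) (kk_zero h hz hz0) (kk_inj h hz hz0)

end Pool.Agent.Helper20.Kraus

end

section

namespace Pool.Agent.Helper39.Area
end Pool.Agent.Helper39.Area
namespace Pool.Agent.Helper52.EK
end Pool.Agent.Helper52.EK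

/-!
# The inequality of Kraus for the Schwarzian derivative: main statement

`N β z = ψ'(1/z)` and `φ' = -N/z²`, so that the Schwarzian derivative of `φ` is
`S_φ = (N'/N)' - (1/2)(N'/N)² + (2/z)(N'/N)`.
-/

set_option autoImplicit false

open Complex Metric Set Filter Topology

open scoped Real ComplexConjugate

namespace Pool.Agent.Helper20.Kraus

open Pool.Agent.Helper39.Area

open Pool.Agent.Helper52.EK

variable {β : ℂ → ℂ}

/-- the Schwarzian derivative of `φ` away from the origin, in terms of `N` -/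
noncomputable def SN (β : ℂ → ℂ) (z : ℂ) : ℂ :=
  deriv (deriv (N β)) z / N β z - 3 / 2 * (deriv (N β) z / N β z) ^ 2
    + 2 / z * (deriv (N β) z / N β z)

theorem N_diff (h : Ext β) : DifferentiableOn ℂ (N β) (ball 0 1) := by
  unfold N
  have h1 : DifferentiableOn ℂ (deriv β) (ball 0 1) := h.diff.deriv isOpen_ball
  have h2 : DifferentiableOn ℂ (fun z : ℂ => z ^ 2) (ball 0 1) := by fun_prop
  exact (differentiableOn_const _).sub (h2.mul h1)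

theorem N_ne (h : Ext β) {z : ℂ} (hz : ‖z‖ < 1) : N β z ≠ 0 := h.ne z (mem_ball_zero_iff.mpr hz)

/-- the function `N` along the automorphism -/
theorem M_hasDerivAt (h : Ext β) {z u : ℂ} (hz : ‖z‖ < 1) (hu : ‖u‖ < 1) :
    HasDerivAt (fun u => N β (T z u))
      (deriv (N β) (T z u) * ((1 - (‖z‖ : ℂ) ^ 2) / (1 + conj z * u) ^ 2)) u := by
  have hT := T_mem hz hu
  have h1 : HasDerivAt (N β) (deriv (N β) (T z u)) (T z u) :=
    ((N_diff h).differentiableAt (isOpen_ball.mem_nhds hT)).hasDerivAt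
  exact h1.comp u (T_hasDerivAt hz hu)

theorem M1_hasDerivAt (h : Ext β) {z : ℂ} (hz : ‖z‖ < 1) :
    HasDerivAt (fun u => deriv (N β) (T z u) * ((1 - (‖z‖ : ℂ) ^ 2) / (1 + conj z * u) ^ 2))
      (deriv (deriv (N β)) z * (1 - (‖z‖ : ℂ) ^ 2) ^ 2
        - 2 * conj z * deriv (N β) z * (1 - (‖z‖ : ℂ) ^ 2)) 0 := by
  have h0 : ‖(0:ℂ)‖ < 1 := by simp
  have hzb : z ∈ ball (0:ℂ) 1 := mem_ball_zero_iff.mpr hz
  have h1 : HasDerivAt (deriv (N β)) (deriv (deriv (N β)) z) (T z 0) := by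
    rw [T_zero]
    exact (((N_diff h).deriv isOpen_ball).differentiableAt (isOpen_ball.mem_nhds hzb)).hasDerivAt
  have h2 := h1.comp (0:ℂ) (T_hasDerivAt hz h0)
  have h3 : HasDerivAt (fun u : ℂ => (1 + conj z * u) ^ 2)
      (2 * (1 + conj z * 0) ^ 1 * (conj z)) 0 := by
    have h4 : HasDerivAt (fun u : ℂ => 1 + conj z * u) (conj z) 0 := by
      simpa using ((hasDerivAt_id (0:ℂ)).const_mul (conj z)).const_add 1
    exact h4.pow 2
  have h5 : HasDerivAt (fun u : ℂ => (1 - (‖z‖ : ℂ) ^ 2) / (1 + conj z * u) ^ 2)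
      ((0 * (1 + conj z * 0) ^ 2 - (1 - (‖z‖ : ℂ) ^ 2) * (2 * (1 + conj z * 0) ^ 1 * (conj z))) /
        ((1 + conj z * 0) ^ 2) ^ 2) 0 :=
    (hasDerivAt_const (0:ℂ) (1 - (‖z‖ : ℂ) ^ 2)).div h3 (by simp)
  have h6 := h2.mul h5
  have e : deriv (deriv (N β)) z * ((1 - (‖z‖ : ℂ) ^ 2) / (1 + conj z * 0) ^ 2) *
        ((1 - (‖z‖ : ℂ) ^ 2) / (1 + conj z * 0) ^ 2) +
      (deriv (N β) ∘ T z) 0 * ((0 * (1 + conj z * 0) ^ 2 - (1 - (‖z‖ : ℂ) ^ 2) *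
        (2 * (1 + conj z * 0) ^ 1 * (conj z))) / ((1 + conj z * 0) ^ 2) ^ 2) =
      deriv (deriv (N β)) z * (1 - (‖z‖ : ℂ) ^ 2) ^ 2
        - 2 * conj z * deriv (N β) z * (1 - (‖z‖ : ℂ) ^ 2) := by
    rw [Function.comp_apply, T_zero]
    simp only [mul_zero, add_zero, one_pow, div_one]
    ring
  rw [e] at h6
  exact h6

/-- the differential equation of `kk` -/
theorem kk_ode (h : Ext β) {z u : ℂ} (hz : ‖z‖ < 1) (hz0 : z ≠ 0) (hu : ‖u‖ < ‖z‖) :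
    z ^ 2 * (N β (T z u) * kk β z u ^ 2) =
      N β z * ((kk β z u - u * deriv (kk β z) u) * (u + z) ^ 2) := by
  have hb : ball (0:ℂ) ‖z‖ ∈ 𝓝 u := isOpen_ball.mem_nhds (mem_ball_zero_iff.mpr hu)
  have hu1 : ‖u‖ < 1 := hu.trans hz
  have hub : u ∈ ball (0:ℂ) 1 := mem_ball_zero_iff.mpr hu1
  have hne : ∀ v : ℂ, ‖v‖ < ‖z‖ → v + z ≠ 0 := by
    intro v hv h0
    have h1 : v = -z := by linear_combination h0
    rw [h1, norm_neg] at hv
    exact lt_irrefl _ hv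
  have hTne : ∀ v : ℂ, ‖v‖ < ‖z‖ → T z v ≠ 0 := by
    intro v hv
    exact div_ne_zero (hne v hv) (den_ne hz (hv.trans hz))
  have hd := den_ne hz hu1
  -- derivative of `φ ∘ T`
  have hT := T_mem hz hu1
  have hA : HasDerivAt (fun v => phi β (T z v) - phi β z)
      (dphi β (T z u) * ((1 - (‖z‖ : ℂ) ^ 2) / (1 + conj z * u) ^ 2)) u :=
    ((hasDerivAt_phi h.diff hT (hTne u hu)).comp u (T_hasDerivAt hz hu1)).sub_const _
  have hk : HasDerivAt (kk β z) (deriv (kk β z) u) u :=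
    ((kk_diff h hz).differentiableAt (isOpen_ball.mem_nhds hub)).hasDerivAt
  have h1 := hk.mul hA
  set c : ℂ := -(N β z * (1 - (‖z‖ : ℂ) ^ 2) / z ^ 2) with hc
  have h2 : HasDerivAt (fun v : ℂ => c * v) c u := by
    simpa using (hasDerivAt_id u).const_mul c
  have h3 : (fun v : ℂ => c * v) =ᶠ[𝓝 u] fun v => kk β z v * (phi β (T z v) - phi β z) := by
    filter_upwards [hb] with v hv
    have hv' := mem_ball_zero_iff.mp hv
    exact (kk_phi h hz hz0 (hv'.trans hz) (hTne v hv')).symm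
  have h4 : deriv (kk β z) u * (phi β (T z u) - phi β z) +
      kk β z u * (dphi β (T z u) * ((1 - (‖z‖ : ℂ) ^ 2) / (1 + conj z * u) ^ 2)) = c :=
    HasDerivAt.unique h1 (h2.congr_of_eventuallyEq h3.symm)
  have h5 := kk_phi h hz hz0 hu1 (hTne u hu)
  rw [← hc] at h5
  have h6 : dphi β (T z u) * ((1 - (‖z‖ : ℂ) ^ 2) / (1 + conj z * u) ^ 2) =
      -((1 - (‖z‖ : ℂ) ^ 2) * N β (T z u)) / (u + z) ^ 2 := by
    have e1 : u + z = T z u * (1 + conj z * u) := by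
      rw [T, div_mul_cancel₀ _ hd]
    have e2 : dphi β (T z u) = -N β (T z u) / (T z u) ^ 2 := by
      have := hTne u hu
      unfold dphi N
      field_simp
      ring
    rw [e2, e1]
    have := hTne u hu
    (clear * - hd this; field_simp)
  rw [h6] at h4
  have h7 : c * (kk β z u - u * deriv (kk β z) u) =
      kk β z u ^ 2 * (-((1 - (‖z‖ : ℂ) ^ 2) * N β (T z u)) / (u + z) ^ 2) := by
    linear_combination (-kk β z u) * h4 + deriv (kk β z) u * h5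
  have hn := hne u hu
  have ht := one_sub_ne hz
  rw [hc] at h7
  field_simp at h7
  linear_combination h7

end Pool.Agent.Helper20.Kraus

end

section

namespace Pool.Agent.Helper39.Area
end Pool.Agent.Helper39.Area
namespace Pool.Agent.Helper52.EK
end Pool.Agent.Helper52.EK

/-!
# The inequality of Kraus for the Schwarzian derivative: conclusion

`kraus`: `(1 - |z|²)² |S_φ(z)| ≤ 6` for `0 < |z| < 1`, with
`S_φ = N''/N - (3/2)(N'/N)² + (2/z)(N'/N)`.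
-/

set_option autoImplicit false

open Complex Metric Set Filter Topology

open scoped Real ComplexConjugate

namespace Pool.Agent.Helper20.Kraus

open Pool.Agent.Helper39.Area

open Pool.Agent.Helper52.EK

variable {β : ℂ → ℂ}

/-- the Schwarzian derivative as a coefficient of the Koebe transform -/
theorem kk_SN (h : Ext β) {z : ℂ} (hz : ‖z‖ < 1) (hz0 : z ≠ 0) :
    (1 - (‖z‖ : ℂ) ^ 2) ^ 2 * SN β z = -3 * deriv (deriv (kk β z)) 0 := by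
  have hzp : 0 < ‖z‖ := norm_pos_iff.mpr hz0
  have hN0 := N_ne h hz
  have hb0 : ball (0:ℂ) ‖z‖ ∈ 𝓝 (0:ℂ) := ball_mem_nhds 0 hzp
  have h01 : ‖(0:ℂ)‖ < 1 := by simp
  have hkd := kk_diff h hz
  have hk1d : DifferentiableOn ℂ (deriv (kk β z)) (ball 0 1) := hkd.deriv isOpen_ball
  have hk2d : DifferentiableOn ℂ (deriv (deriv (kk β z))) (ball 0 1) := hk1d.deriv isOpen_ball
  have hk : ∀ u : ℂ, ‖u‖ < 1 → HasDerivAt (kk β z) (deriv (kk β z) u) u := fun u hu =>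
    (hkd.differentiableAt (isOpen_ball.mem_nhds (mem_ball_zero_iff.mpr hu))).hasDerivAt
  have hk1 : ∀ u : ℂ, ‖u‖ < 1 → HasDerivAt (deriv (kk β z)) (deriv (deriv (kk β z)) u) u :=
    fun u hu => (hk1d.differentiableAt (isOpen_ball.mem_nhds (mem_ball_zero_iff.mpr hu))).hasDerivAt
  have hk2 : HasDerivAt (deriv (deriv (kk β z))) (deriv (deriv (deriv (kk β z))) 0) 0 :=
    (hk2d.differentiableAt (isOpen_ball.mem_nhds (mem_ball_zero_iff.mpr h01))).hasDerivAt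
  have hk0 := kk_zero h hz hz0
  set k := kk β z with hkdef
  set M1 : ℂ → ℂ :=
    fun u => deriv (N β) (T z u) * ((1 - (‖z‖ : ℂ) ^ 2) / (1 + conj z * u) ^ 2) with hM1
  -- left-hand side
  have hL : ∀ u : ℂ, ‖u‖ < 1 → HasDerivAt (fun u => z ^ 2 * (N β (T z u) * k u ^ 2))
      (z ^ 2 * (M1 u * k u ^ 2 + N β (T z u) * (2 * k u * deriv k u))) u := by
    intro u hu
    have h1 : HasDerivAt (fun u => k u ^ 2) (2 * k u * deriv k u) u := by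
      have := (hk u hu).fun_pow 2
      simpa using this
    exact ((M_hasDerivAt h hz hu).fun_mul h1).const_mul (z ^ 2)
  have hR : ∀ u : ℂ, ‖u‖ < 1 → HasDerivAt
      (fun u => N β z * ((k u - u * deriv k u) * (u + z) ^ 2))
      (N β z * ((-(u * deriv (deriv k) u)) * (u + z) ^ 2 +
        (k u - u * deriv k u) * (2 * (u + z)))) u := by
    intro u hu
    have h1 : HasDerivAt (fun u => k u - u * deriv k u) (-(u * deriv (deriv k) u)) u := by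
      have h2 := (hk u hu).fun_sub ((hasDerivAt_id' u).fun_mul (hk1 u hu))
      have e : deriv k u - (1 * deriv k u + u * deriv (deriv k) u) = -(u * deriv (deriv k) u) := by
        ring
      rw [e] at h2
      exact h2
    have h3 : HasDerivAt (fun u : ℂ => (u + z) ^ 2) (2 * (u + z)) u := by
      have := ((hasDerivAt_id' u).add_const z).fun_pow 2
      simpa using this
    exact (h1.fun_mul h3).const_mul (N β z)
  -- first derivatives agree near the origin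
  have hE : ∀ u : ℂ, ‖u‖ < ‖z‖ →
      z ^ 2 * (M1 u * k u ^ 2 + N β (T z u) * (2 * k u * deriv k u)) =
      N β z * ((-(u * deriv (deriv k) u)) * (u + z) ^ 2 +
        (k u - u * deriv k u) * (2 * (u + z))) := by
    intro u hu
    have hb : ball (0:ℂ) ‖z‖ ∈ 𝓝 u := isOpen_ball.mem_nhds (mem_ball_zero_iff.mpr hu)
    have h1 : (fun u => z ^ 2 * (N β (T z u) * k u ^ 2)) =ᶠ[𝓝 u]
        fun u => N β z * ((k u - u * deriv k u) * (u + z) ^ 2) := by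
      filter_upwards [hb] with v hv
      exact kk_ode h hz hz0 (mem_ball_zero_iff.mp hv)
    exact HasDerivAt.unique (hL u (hu.trans hz)) ((hR u (hu.trans hz)).congr_of_eventuallyEq h1)
  -- second derivatives at the origin
  have hM1d : HasDerivAt M1 (deriv (deriv (N β)) z * (1 - (‖z‖ : ℂ) ^ 2) ^ 2
        - 2 * conj z * deriv (N β) z * (1 - (‖z‖ : ℂ) ^ 2)) 0 := M1_hasDerivAt h hz
  have hM0 := M_hasDerivAt h hz h01
  have hL2 : HasDerivAt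
      (fun u => z ^ 2 * (M1 u * k u ^ 2 + N β (T z u) * (2 * k u * deriv k u)))
      (z ^ 2 * (((deriv (deriv (N β)) z * (1 - (‖z‖ : ℂ) ^ 2) ^ 2
        - 2 * conj z * deriv (N β) z * (1 - (‖z‖ : ℂ) ^ 2)) * k 0 ^ 2 +
          M1 0 * (2 * k 0 * deriv k 0)) +
        (M1 0 * (2 * k 0 * deriv k 0) +
          N β (T z 0) * ((2 * deriv k 0) * deriv k 0 + 2 * k 0 * deriv (deriv k) 0)))) 0 := by
    have h1 : HasDerivAt (fun u => k u ^ 2) (2 * k 0 * deriv k 0) 0 := by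
      have := (hk 0 h01).fun_pow 2
      simpa using this
    have h2 : HasDerivAt (fun u => 2 * k u * deriv k u)
        ((2 * deriv k 0) * deriv k 0 + 2 * k 0 * deriv (deriv k) 0) 0 :=
      ((hk 0 h01).const_mul 2).fun_mul (hk1 0 h01)
    exact ((hM1d.fun_mul h1).fun_add (hM0.fun_mul h2)).const_mul (z ^ 2)
  have hR2 : HasDerivAt
      (fun u => N β z * ((-(u * deriv (deriv k) u)) * (u + z) ^ 2 +
        (k u - u * deriv k u) * (2 * (u + z))))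
      (N β z * ((-(1 * deriv (deriv k) 0 + 0 * deriv (deriv (deriv k)) 0) * (0 + z) ^ 2 +
        (-((0:ℂ) * deriv (deriv k) 0)) * (2 * (0 + z))) +
        ((-((0:ℂ) * deriv (deriv k) 0)) * (2 * (0 + z)) +
        (k 0 - 0 * deriv k 0) * (2 * 1)))) 0 := by
    have h1 : HasDerivAt (fun u => k u - u * deriv k u) (-((0:ℂ) * deriv (deriv k) 0)) 0 := by
      have h2 := (hk 0 h01).fun_sub ((hasDerivAt_id' (0:ℂ)).fun_mul (hk1 0 h01))
      have e : deriv k 0 - (1 * deriv k 0 + 0 * deriv (deriv k) 0) =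
          -((0:ℂ) * deriv (deriv k) 0) := by ring
      rw [e] at h2
      exact h2
    have h3 : HasDerivAt (fun u : ℂ => (u + z) ^ 2) (2 * (0 + z)) 0 := by
      have := ((hasDerivAt_id' (0:ℂ)).add_const z).fun_pow 2
      simpa using this
    have h4 : HasDerivAt (fun u => -(u * deriv (deriv k) u))
        (-(1 * deriv (deriv k) 0 + 0 * deriv (deriv (deriv k)) 0)) 0 :=
      ((hasDerivAt_id' (0:ℂ)).fun_mul hk2).fun_neg
    have h5 : HasDerivAt (fun u : ℂ => 2 * (u + z)) (2 * 1) 0 :=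
      ((hasDerivAt_id' (0:ℂ)).add_const z).const_mul 2
    exact ((h4.fun_mul h3).fun_add (h1.fun_mul h5)).const_mul (N β z)
  have h2E : (fun u => z ^ 2 * (M1 u * k u ^ 2 + N β (T z u) * (2 * k u * deriv k u))) =ᶠ[𝓝 0]
      (fun u => N β z * ((-(u * deriv (deriv k) u)) * (u + z) ^ 2 +
        (k u - u * deriv k u) * (2 * (u + z)))) := by
    filter_upwards [hb0] with v hv
    exact hE v (mem_ball_zero_iff.mp hv)
  have e2 := HasDerivAt.unique hL2 (hR2.congr_of_eventuallyEq h2E)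
  have e1 := hE 0 (by simpa using hzp)
  have hM10 : M1 0 = deriv (N β) z * (1 - (‖z‖ : ℂ) ^ 2) := by
    rw [hM1]
    simp [T_zero]
  rw [hM10, T_zero, hk0] at e1 e2
  set a := deriv k 0
  set b := deriv (deriv k) 0
  set t : ℂ := 1 - (‖z‖ : ℂ) ^ 2 with ht
  have htz : t = 1 - conj z * z := by
    rw [ht, ← Complex.mul_conj']
    ring
  set n := N β z
  set n1 := deriv (N β) z
  set n2 := deriv (deriv (N β)) z
  -- `e1 : z²(n1 t + 2 n a) = 2 n z`, `e2` second order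
  have ha : a = 1 / z - n1 * t / (2 * n) := by
    field_simp
    have := mul_left_cancel₀ hz0 (show z * (z * (n1 * t + 2 * n * a)) = z * (2 * n) by
      linear_combination e1)
    linear_combination this
  have hbb : 3 * b * n * z ^ 2 = 2 * n - z ^ 2 * (n2 * t ^ 2 - 2 * conj z * n1 * t) -
      4 * z ^ 2 * (n1 * t) * a - 2 * z ^ 2 * n * a ^ 2 := by
    linear_combination e2
  have hb3 : -3 * b = t ^ 2 * SN β z := by
    have e3 : 3 * b = (2 * n - z ^ 2 * (n2 * t ^ 2 - 2 * conj z * n1 * t) -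
        4 * z ^ 2 * (n1 * t) * a - 2 * z ^ 2 * n * a ^ 2) / (n * z ^ 2) := by
      rw [eq_div_iff (mul_ne_zero hN0 (pow_ne_zero 2 hz0))]
      linear_combination hbb
    have e4 : conj z = (1 - t) / z := by
      rw [eq_div_iff hz0, htz]
      ring
    rw [ha, e4] at e3
    have e5 : -3 * b = -(3 * b) := by ring
    rw [e5, e3]
    unfold SN
    change -_ = t ^ 2 * (n2 / n - 3 / 2 * (n1 / n) ^ 2 + 2 / z * (n1 / n))
    field_simp
    ring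
  exact hb3.symm

/-- **Kraus.** `(1 - |z|²)² |S_φ(z)| ≤ 6` for `0 < |z| < 1`. -/
theorem kraus (h : Ext β) {z : ℂ} (hz : ‖z‖ < 1) (hz0 : z ≠ 0) :
    (1 - ‖z‖ ^ 2) ^ 2 * ‖SN β z‖ ≤ 6 := by
  have h1 := kk_SN h hz hz0
  have h2 := kk_area h hz hz0
  have h3 : (1 - ‖z‖ ^ 2) ^ 2 * ‖SN β z‖ = ‖(1 - (‖z‖ : ℂ) ^ 2) ^ 2 * SN β z‖ := by
    rw [norm_mul, norm_pow]
    congr 2
    have h4 : (1 - (‖z‖ : ℂ) ^ 2) = ((1 - ‖z‖ ^ 2 : ℝ) : ℂ) := by push_cast; ring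
    rw [h4, Complex.norm_real, Real.norm_of_nonneg]
    (clear * - hz; nlinarith only [norm_nonneg z, hz])
  rw [h3, h1, norm_mul, norm_neg]
  have h5 : ‖(3:ℂ)‖ = 3 := by simp
  rw [h5]
  linarith only [h2]

end Pool.Agent.Helper20.Kraus

end

section

namespace Pool.Agent.Helper39.Area
end Pool.Agent.Helper39.Area
namespace Pool.Agent.Helper52.EK
end Pool.Agent.Helper52.EK

/-!
# The inequality of Kraus for the Schwarzian derivative: all points of the disc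
-/

set_option autoImplicit false

open Complex Metric Set Filter Topology

open scoped Real ComplexConjugate

namespace Pool.Agent.Helper20.Kraus

open Pool.Agent.Helper39.Area

open Pool.Agent.Helper52.EK

variable {β : ℂ → ℂ}

/-- the first coefficient: `|β'(0)| ≤ 1` -/
theorem deriv_beta_zero (h : Ext β) : ‖deriv β 0‖ ≤ 1 := by
  have hk : DifferentiableOn ℂ (fun u : ℂ => 1 + u * β u) (ball 0 1) := by
    have h2 : DifferentiableOn ℂ (fun u : ℂ => u) (ball 0 1) := by fun_prop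
    exact (differentiableOn_const _).add (h2.mul h.diff)
  have hinj : ∀ u ∈ ball (0:ℂ) 1, ∀ v ∈ ball (0:ℂ) 1, u ≠ 0 → v ≠ 0 →
      (1 + u * β u) / u = (1 + v * β v) / v → u = v := by
    intro u hu v hv hu0 hv0 he
    have e : ∀ w : ℂ, w ≠ 0 → (1 + w * β w) / w = phi β w := by
      intro w hw
      unfold phi
      (clear * - hw; field_simp)
    rw [e u hu0, e v hv0] at he
    exact h.inj u v hu hv hu0 hv0 he
  have h1 := area_k hk (by simp) hinj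
  have h01 : (0:ℂ) ∈ ball (0:ℂ) 1 := mem_ball_self one_pos
  have hb : ∀ u ∈ ball (0:ℂ) 1, HasDerivAt β (deriv β u) u := fun u hu =>
    (h.diff.differentiableAt (isOpen_ball.mem_nhds hu)).hasDerivAt
  have hb1 : HasDerivAt (deriv β) (deriv (deriv β) 0) 0 :=
    ((h.diff.deriv isOpen_ball).differentiableAt (isOpen_ball.mem_nhds h01)).hasDerivAt
  have hd1 : ∀ u ∈ ball (0:ℂ) 1, deriv (fun u : ℂ => 1 + u * β u) u = β u + u * deriv β u := by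
    intro u hu
    have := (((hasDerivAt_id' u).fun_mul (hb u hu)).const_add 1).deriv
    rw [this]
    ring
  have hd2 : deriv (deriv (fun u : ℂ => 1 + u * β u)) 0 = 2 * deriv β 0 := by
    have h3 : deriv (fun u : ℂ => 1 + u * β u) =ᶠ[𝓝 0] fun u => β u + u * deriv β u := by
      filter_upwards [isOpen_ball.mem_nhds h01] with u hu
      exact hd1 u hu
    rw [h3.deriv_eq]
    have := ((hb 0 h01).fun_add ((hasDerivAt_id' (0:ℂ)).fun_mul hb1)).deriv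
    rw [this]
    ring
  rw [hd2, norm_mul] at h1
  have h5 : ‖(2:ℂ)‖ = 2 := by simp
  rw [h5] at h1
  linarith only [h1]

theorem SN_zero (h : Ext β) : SN β 0 = -2 * deriv β 0 := by
  have h01 : (0:ℂ) ∈ ball (0:ℂ) 1 := mem_ball_self one_pos
  have hb1 : ∀ u ∈ ball (0:ℂ) 1, HasDerivAt (deriv β) (deriv (deriv β) u) u := fun u hu =>
    ((h.diff.deriv isOpen_ball).differentiableAt (isOpen_ball.mem_nhds hu)).hasDerivAt
  have hb2 : HasDerivAt (deriv (deriv β)) (deriv (deriv (deriv β)) 0) 0 :=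
    (((h.diff.deriv isOpen_ball).deriv isOpen_ball).differentiableAt
      (isOpen_ball.mem_nhds h01)).hasDerivAt
  have hN1 : ∀ u ∈ ball (0:ℂ) 1, HasDerivAt (N β) (-(2 * u * deriv β u +
      u ^ 2 * deriv (deriv β) u)) u := by
    intro u hu
    have h3 : HasDerivAt (fun u : ℂ => u ^ 2) (2 * u) u := by
      have := (hasDerivAt_id' u).fun_pow 2
      simpa using this
    have := ((h3.fun_mul (hb1 u hu)).const_sub 1)
    exact this
  have hd1 : deriv (N β) =ᶠ[𝓝 0] fun u => -(2 * u * deriv β u + u ^ 2 * deriv (deriv β) u) := by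
    filter_upwards [isOpen_ball.mem_nhds h01] with u hu
    exact (hN1 u hu).deriv
  have hd0 : deriv (N β) 0 = 0 := by
    rw [(hN1 0 h01).deriv]
    ring
  have hd2 : deriv (deriv (N β)) 0 = -2 * deriv β 0 := by
    rw [hd1.deriv_eq]
    have h3 : HasDerivAt (fun u : ℂ => u ^ 2) (2 * 0) 0 := by
      have := (hasDerivAt_id' (0:ℂ)).fun_pow 2
      simpa using this
    have h4 : HasDerivAt (fun u : ℂ => 2 * u) (2 * 1) 0 := (hasDerivAt_id' (0:ℂ)).const_mul 2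
    have := ((h4.fun_mul (hb1 0 h01)).fun_add (h3.fun_mul hb2)).fun_neg.deriv
    rw [this]
    ring
  have hN0 : N β 0 = 1 := by
    unfold N
    simp
  rw [SN, hd0, hd2, hN0]
  simp

/-- **Kraus**, all points of the disc (at the origin the term `(2/z)(N'/N)` is read as `0`) -/
theorem kraus_all (h : Ext β) {z : ℂ} (hz : ‖z‖ < 1) :
    (1 - ‖z‖ ^ 2) ^ 2 * ‖SN β z‖ ≤ 6 := by
  by_cases h0 : z = 0
  · subst h0
    rw [SN_zero h, norm_mul, norm_neg, norm_zero]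
    have h1 := deriv_beta_zero h
    have h5 : ‖(2:ℂ)‖ = 2 := by simp
    rw [h5]
    (clear * - h1; linarith only [h1])
  · exact kraus h hz h0

end Pool.Agent.Helper20.Kraus

end

section

namespace Pool.Agent.Helper39.Area
end Pool.Agent.Helper39.Area
namespace Pool.Agent.Helper52.EK
end Pool.Agent.Helper52.EK
namespace Pool.Agent.Helper69.EK3
end Pool.Agent.Helper69.EK3
namespace Pool.Agent.Helper69.EK7
end Pool.Agent.Helper69.EK7

set_option autoImplicit false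

open Complex Metric Set Filter Topology

open scoped Real ComplexConjugate

namespace Pool.Agent.Helper20.Kraus2

open Pool.Agent.Helper39.Area

open Pool.Agent.Helper52.EK

open Pool.Agent.Helper69.EK3

open Pool.Agent.Helper69.EK7

variable {β : ℂ → ℂ}

theorem norm_srad_le (h : Ext β) {z : ℂ} (hz : ‖z‖ < 1) : ‖srad β z‖ ≤ 6 := by
  have hk := Pool.Agent.Helper20.Kraus.kraus_all h hz
  have hS : Pool.Agent.Helper20.Kraus.SN β z = Sc β z := rfl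
  rw [hS] at hk
  have h3 : ‖((1:ℂ) - (‖z‖ : ℂ) ^ 2) ^ 2‖ = (1 - ‖z‖ ^ 2) ^ 2 := by
    have h4 : ((1:ℂ) - (‖z‖ : ℂ) ^ 2) ^ 2 = (((1 - ‖z‖ ^ 2) ^ 2 : ℝ) : ℂ) := by push_cast; ring
    rw [h4, Complex.norm_real, Real.norm_of_nonneg (sq_nonneg _)]
  have h5 : ‖(z / ‖z‖ : ℂ)‖ ≤ 1 := by
    rw [norm_div, Complex.norm_real, norm_norm]
    exact div_self_le_one _
  unfold srad
  rw [norm_mul, norm_mul, norm_pow, h3]
  have h7 : ‖(z / ‖z‖ : ℂ)‖ ^ 2 ≤ 1 := by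
    have := norm_nonneg (z / ‖z‖ : ℂ)
    (clear * - h5 this; nlinarith only [h5, this])
  have h8 : 0 ≤ (1 - ‖z‖ ^ 2) ^ 2 * ‖Sc β z‖ := by (clear * -; positivity)
  have h9 : ‖(z / ‖z‖ : ℂ)‖ ^ 2 * (1 - ‖z‖ ^ 2) ^ 2 * ‖Sc β z‖ ≤
      (1 - ‖z‖ ^ 2) ^ 2 * ‖Sc β z‖ := by
    rw [mul_assoc]
    exact mul_le_of_le_one_left h8 h7
  (clear * - hk h9; linarith only [hk, h9])

theorem norm_ph {Z : ℂ} (h1 : I + Z ≠ 0) (h2 : I - Z ≠ 0) :
    ‖Pool.Agent.Helper97.EK.ph Z‖ = 1 := by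
  have e : ‖I - conj Z‖ = ‖I + Z‖ := by
    have e2 : I - conj Z = -conj (I + Z) := by
      rw [map_add, conj_I]
      ring
    rw [e2, norm_neg, RCLike.norm_conj]
  unfold Pool.Agent.Helper97.EK.ph
  rw [norm_mul, Complex.norm_real, norm_div, norm_div, norm_norm, norm_norm, e]
  have k1 := norm_pos_iff.mpr h1
  have k2 := norm_pos_iff.mpr h2
  field_simp

theorem tX_zero_s (X Y Z : ℂ) (c : ℝ) : tX X Y Z 0 c = 0 := by
  unfold tX
  simp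

/-- **Kraus in the closed strip** -/
theorem kraus_strip {R : ℝ} (h : ExtR β R) {a : ℝ} (ha : 0 < a) (ha1 : a < 1) {ξ η : ℝ}
    (h1 : Real.log (tau a) < ξ) (h2 : ξ < 0) (h3 : 0 ≤ η) (h4 : η ≤ π) :
    ‖tX (Xf β a (pt ξ η)) (deriv (Xf β a) (pt ξ η)) (deriv (deriv (Xf β a)) (pt ξ η))
      (Real.sin η) (Real.cos η)‖ ≤ 6 := by
  rcases eq_or_lt_of_le h3 with h0 | h0
  · rw [← h0, Real.sin_zero, tX_zero_s]
    simp
  rcases eq_or_lt_of_le h4 with h5 | h5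
  · rw [h5, Real.sin_pi, tX_zero_s]
    simp
  have e := E3a3 h.toExt ha ha1 h0 h5 h2 h1
  have hz := Pool.Agent.Helper97.EK.zf_mem (ξ := ξ) h0 h5
  have hk := norm_srad_le h.toExt (mem_ball_zero_iff.mp hz)
  rw [e, norm_mul, norm_pow, norm_ph (Pool.Agent.Helper97.EK.addI_ne h0 h5)
    (Pool.Agent.Helper97.EK.subI_ne h2), one_pow,
    one_mul] at hk
  exact hk

theorem tX_conj (X Y Z : ℂ) (s c : ℝ) :
    tX (conj X) (conj Y) (conj Z) s c = conj (tX X Y Z s (-c)) := by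
  unfold tX e0
  simp only [map_mul, map_add, map_sub, map_neg, map_pow, map_div₀, conj_ofReal, conj_I,
    map_ofNat, map_one, ofReal_neg]
  ring

theorem mir_deriv2_pt {X : ℂ → ℂ} {ξ η : ℝ} (hX : AnalyticAt ℂ X (pt ξ (π - η))) :
    deriv (deriv (mir X)) (pt ξ η) = conj (deriv (deriv X) (pt ξ (π - η))) := by
  have hX' : AnalyticAt ℂ X (conj (pt ξ η) + π * I) := by
    rw [conj_pt]
    exact hX
  have hc : Filter.Tendsto (fun z : ℂ => conj z + π * I) (𝓝 (pt ξ η))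
      (𝓝 (conj (pt ξ η) + π * I)) :=
    (Complex.continuous_conj.add continuous_const).continuousAt
  have hev := Complex.analyticAt_iff_eventually_differentiableAt.1 hX'
  have h1 : deriv (mir X) =ᶠ[𝓝 (pt ξ η)] mir (deriv X) := by
    filter_upwards [hc.eventually hev] with v hv
    exact (mir_hasDerivAt hv.hasDerivAt).deriv
  rw [h1.deriv_eq]
  exact mir_deriv_pt hX.deriv.differentiableAt

/-- **Kraus** for the mirror image -/
theorem kraus_mir {R : ℝ} (h : ExtR β R) {a : ℝ} (ha : 0 < a) (ha1 : a < 1) {ξ η : ℝ}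
    (h1 : Real.log (tau a) < ξ) (h2 : ξ < 0) (h3 : 0 ≤ η) (h4 : η ≤ π) :
    ‖tX (mir (Xf β a) (pt ξ η)) (deriv (mir (Xf β a)) (pt ξ η))
      (deriv (deriv (mir (Xf β a))) (pt ξ η)) (Real.sin η) (Real.cos η)‖ ≤ 6 := by
  have hN : NiceX (Xf β a) ξ ξ := Pool.Agent.Helper67.EK.E1c h ha ha1 h1 h2
  have hmem : pt ξ (π - η) ∈ Rect ξ ξ := by
    refine ⟨⟨?_, ?_⟩, ⟨?_, ?_⟩⟩ <;> simp [pt] <;> linarith
  have hA : AnalyticAt ℂ (Xf β a) (pt ξ (π - η)) := hN.an _ hmem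
  rw [mir_pt, mir_deriv_pt hA.differentiableAt, mir_deriv2_pt hA, tX_conj, RCLike.norm_conj]
  have hk := kraus_strip h ha ha1 h1 h2 (η := π - η) (by linarith) (by linarith)
  rw [Real.sin_pi_sub, Real.cos_pi_sub] at hk
  exact hk

end Pool.Agent.Helper20.Kraus2

end

section

namespace Pool.Agent.Helper52.EK
end Pool.Agent.Helper52.EK
namespace Pool.Agent.Helper69.EK3
end Pool.Agent.Helper69.EK3
namespace Pool.Agent.Helper69.EK7
end Pool.Agent.Helper69.EK7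

set_option autoImplicit false

open Complex MeasureTheory Metric Set

open scoped Real ComplexConjugate

namespace Pool.Agent.Helper84.CK

open Pool.Agent.Helper52.EK Pool.Agent.Helper69.EK3 Pool.Agent.Helper69.EK7

/-- a weight on the half strip with its partial derivatives and a bound `g` of its variation -/
structure Wt (x₁ x₂ : ℝ) (Ω Ω₁ Ω₂ g : ℝ → ℝ → ℝ) : Prop where
  c0 : CH x₁ x₂ (π / 2) Ω
  c1 : CH x₁ x₂ (π / 2) Ω₁
  c2 : CH x₁ x₂ (π / 2) Ω₂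
  cg : CH x₁ x₂ (π / 2) g
  d1 : ∀ ξ ∈ Icc x₁ x₂, ∀ η ∈ Icc (0:ℝ) (π / 2), HasDerivAt (fun t => Ω t η) (Ω₁ ξ η) ξ
  d2 : ∀ ξ ∈ Icc x₁ x₂, ∀ η ∈ Icc (0:ℝ) (π / 2), HasDerivAt (fun t => Ω ξ t) (Ω₂ ξ η) η
  e1 : ∀ η ∈ Icc (0:ℝ) (π / 2), Ω x₁ η = 0
  e2 : ∀ η ∈ Icc (0:ℝ) (π / 2), Ω x₂ η = 0
  b01 : ∀ ξ ∈ Icc x₁ x₂, ∀ η ∈ Icc (0:ℝ) (π / 2), 0 ≤ Ω ξ η ∧ Ω ξ η ≤ 1
  g1 : ∀ ξ ∈ Icc x₁ x₂, ∀ η ∈ Icc (0:ℝ) (π / 2), |Ω₁ ξ η| * Real.sin η ≤ g ξ η
  g2 : ∀ ξ ∈ Icc x₁ x₂, ∀ η ∈ Icc (0:ℝ) (π / 2), |Ω₂ ξ η| * Real.sin η ≤ g ξ η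

/-- the error term -/
noncomputable def Eg (g : ℝ → ℝ → ℝ) (X : ℂ → ℂ) (x₁ x₂ : ℝ) : ℝ :=
  IH x₁ x₂ (π / 2) (fun ξ η => g ξ η * (1 + ‖X (pt ξ η) - 1‖ ^ 2))

theorem sin_nn {η : ℝ} (hη : η ∈ Icc (0:ℝ) (π / 2)) : 0 ≤ Real.sin η :=
  Real.sin_nonneg_of_nonneg_of_le_pi hη.1 (hη.2.trans (by (clear * -; linarith only [Real.pi_pos])))

theorem CH_en {X : ℂ → ℂ} {x₁ x₂ : ℝ} (hX : NiceH X x₁ x₂) :
    CH x₁ x₂ (π / 2) (fun ξ η => ‖X (pt ξ η) - 1‖ ^ 2) :=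
  CH_comp hX.an.continuousOn (W := fun X => ‖X - 1‖ ^ 2) (by fun_prop)

theorem Eg_cont {X : ℂ → ℂ} {x₁ x₂ : ℝ} {g : ℝ → ℝ → ℝ} (hX : NiceH X x₁ x₂)
    (cg : CH x₁ x₂ (π / 2) g) :
    CH x₁ x₂ (π / 2) (fun ξ η => g ξ η * (1 + ‖X (pt ξ η) - 1‖ ^ 2)) :=
  cg.mul ((CH_const 1).add (CH_en hX))

/-- `N` is null against weights -/
structure IsNullW (P : (ℂ → ℂ) → ℝ → ℝ → Prop) (N : (ℂ → ℂ) → ℝ → ℝ → ℝ)
    (K : (ℂ → ℂ) → ℝ → ℝ) : Prop where
  cN : ∀ (X : ℂ → ℂ) (x₁ x₂ : ℝ), NiceH X x₁ x₂ → CH x₁ x₂ (π / 2) (N X)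
  cK : ∀ (X : ℂ → ℂ) (x₁ x₂ : ℝ), NiceH X x₁ x₂ → ContinuousOn (K X) (Icc x₁ x₂)
  le : ∃ C : ℝ, ∀ (X : ℂ → ℂ) (x₁ x₂ : ℝ) (Ω Ω₁ Ω₂ g : ℝ → ℝ → ℝ), x₁ ≤ x₂ →
    Wt x₁ x₂ Ω Ω₁ Ω₂ g → NiceH X x₁ x₂ → P X x₁ x₂ →
    |IH x₁ x₂ (π / 2) (fun ξ η => Ω ξ η * N X ξ η) - ∫ ξ in x₁..x₂, Ω ξ (π / 2) * K X ξ| ≤
      C * Eg g X x₁ x₂

theorem pi2_mem : π / 2 ∈ Icc (0:ℝ) (π / 2) := ⟨by positivity, le_rfl⟩

theorem CH_line {x₁ x₂ η : ℝ} {F : ℝ → ℝ → ℝ} (hF : CH x₁ x₂ (π / 2) F)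
    (hη : η ∈ Icc (0:ℝ) (π / 2)) : ContinuousOn (fun ξ => F ξ η) (Icc x₁ x₂) :=
  hF.comp (f := fun ξ : ℝ => (ξ, η)) (by fun_prop) fun _ hξ => ⟨hξ, hη⟩

theorem CH_col {x₁ x₂ ξ : ℝ} {F : ℝ → ℝ → ℝ} (hF : CH x₁ x₂ (π / 2) F)
    (hξ : ξ ∈ Icc x₁ x₂) : ContinuousOn (fun η => F ξ η) (Icc 0 (π / 2)) :=
  hF.comp (f := fun η : ℝ => (ξ, η)) (by fun_prop) fun _ hη => ⟨hξ, hη⟩

variable {P : (ℂ → ℂ) → ℝ → ℝ → Prop}

theorem IsNullW.add {N N' : (ℂ → ℂ) → ℝ → ℝ → ℝ} {K K' : (ℂ → ℂ) → ℝ → ℝ} (h : IsNullW P N K)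
    (h' : IsNullW P N' K') :
    IsNullW P (fun X ξ η => N X ξ η + N' X ξ η) (fun X ξ => K X ξ + K' X ξ) := by
  refine ⟨fun X x₁ x₂ hX => (h.cN X x₁ x₂ hX).add (h'.cN X x₁ x₂ hX),
    fun X x₁ x₂ hX => (h.cK X x₁ x₂ hX).add (h'.cK X x₁ x₂ hX), ?_⟩
  obtain ⟨C, hC⟩ := h.le
  obtain ⟨C', hC'⟩ := h'.le
  refine ⟨C + C', fun X x₁ x₂ Ω Ω₁ Ω₂ g hx12 hw hX hP => ?_⟩
  have h1 := hC X x₁ x₂ Ω Ω₁ Ω₂ g hx12 hw hX hP
  have h2 := hC' X x₁ x₂ Ω Ω₁ Ω₂ g hx12 hw hX hP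
  have a1 : CH x₁ x₂ (π / 2) (fun ξ η => Ω ξ η * N X ξ η) := hw.c0.mul (h.cN X x₁ x₂ hX)
  have a2 : CH x₁ x₂ (π / 2) (fun ξ η => Ω ξ η * N' X ξ η) := hw.c0.mul (h'.cN X x₁ x₂ hX)
  have s1 : IH x₁ x₂ (π / 2) (fun ξ η => Ω ξ η * (N X ξ η + N' X ξ η)) =
      IH x₁ x₂ (π / 2) (fun ξ η => Ω ξ η * N X ξ η) +
      IH x₁ x₂ (π / 2) (fun ξ η => Ω ξ η * N' X ξ η) := by
    rw [← IH_add hx12 (by positivity) a1 a2]
    simp only [mul_add]
  have cl := CH_line hw.c0 pi2_mem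
  have i1 : IntervalIntegrable (fun ξ => Ω ξ (π / 2) * K X ξ) volume x₁ x₂ :=
    (cl.mul (h.cK X x₁ x₂ hX)).intervalIntegrable_of_Icc hx12
  have i2 : IntervalIntegrable (fun ξ => Ω ξ (π / 2) * K' X ξ) volume x₁ x₂ :=
    (cl.mul (h'.cK X x₁ x₂ hX)).intervalIntegrable_of_Icc hx12
  have s3 : ∫ ξ in x₁..x₂, Ω ξ (π / 2) * (K X ξ + K' X ξ) =
      (∫ ξ in x₁..x₂, Ω ξ (π / 2) * K X ξ) + ∫ ξ in x₁..x₂, Ω ξ (π / 2) * K' X ξ := by
    rw [← intervalIntegral.integral_add i1 i2]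
    simp only [mul_add]
  rw [s1, s3]
  rw [abs_le] at h1 h2 ⊢
  constructor <;> linarith only [h1, h2]

theorem IsNullW.const_mul {N : (ℂ → ℂ) → ℝ → ℝ → ℝ} {K : (ℂ → ℂ) → ℝ → ℝ}
    (h : IsNullW P N K) (c : ℝ) :
    IsNullW P (fun X ξ η => c * N X ξ η) (fun X ξ => c * K X ξ) := by
  refine ⟨fun X x₁ x₂ hX => (CH_const c).mul (h.cN X x₁ x₂ hX),
    fun X x₁ x₂ hX => continuousOn_const.mul (h.cK X x₁ x₂ hX), ?_⟩
  obtain ⟨C, hC⟩ := h.le
  refine ⟨|c| * C, fun X x₁ x₂ Ω Ω₁ Ω₂ g hx hw hX hP => ?_⟩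
  have h1 := hC X x₁ x₂ Ω Ω₁ Ω₂ g hx hw hX hP
  have s1 : IH x₁ x₂ (π / 2) (fun ξ η => Ω ξ η * (c * N X ξ η)) =
      c * IH x₁ x₂ (π / 2) (fun ξ η => Ω ξ η * N X ξ η) := by
    rw [← IH_const_mul]
    simp only [mul_left_comm c]
  have s2 : ∫ ξ in x₁..x₂, Ω ξ (π / 2) * (c * K X ξ) =
      c * ∫ ξ in x₁..x₂, Ω ξ (π / 2) * K X ξ := by
    rw [← intervalIntegral.integral_const_mul]
    simp only [mul_left_comm c]
  rw [s1, s2, ← mul_sub, abs_mul, mul_assoc]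
  exact mul_le_mul_of_nonneg_left h1 (abs_nonneg c)

theorem IsNullW.zero : IsNullW P (fun _ _ _ => 0) (fun _ _ => 0) := by
  refine ⟨fun _ _ _ _ => CH_const 0, fun _ _ _ _ => continuousOn_const, ⟨0, ?_⟩⟩
  intro X x₁ x₂ Ω Ω₁ Ω₂ g hx hw hX hP
  simp [IH]

theorem IsNullW.congr {N N' : (ℂ → ℂ) → ℝ → ℝ → ℝ} {K K' : (ℂ → ℂ) → ℝ → ℝ}
    (h : IsNullW P N K) (hN : ∀ X ξ η, N X ξ η = N' X ξ η) (hK : ∀ X ξ, K X ξ = K' X ξ) :
    IsNullW P N' K' := by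
  have e1 : N = N' := by
    funext X ξ η
    exact hN X ξ η
  have e2 : K = K' := by
    funext X ξ
    exact hK X ξ
  rw [← e1, ← e2]
  exact h

theorem IsNullW.mono {P' : (ℂ → ℂ) → ℝ → ℝ → Prop} (hPP : ∀ X x₁ x₂, P' X x₁ x₂ → P X x₁ x₂)
    {N : (ℂ → ℂ) → ℝ → ℝ → ℝ} {K : (ℂ → ℂ) → ℝ → ℝ} (h : IsNullW P N K) : IsNullW P' N K := by
  refine ⟨h.cN, h.cK, ?_⟩
  obtain ⟨C, hC⟩ := h.le
  exact ⟨C, fun X x₁ x₂ Ω Ω₁ Ω₂ g hx hw hX hP => hC X x₁ x₂ Ω Ω₁ Ω₂ g hx hw hX (hPP _ _ _ hP)⟩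

/-- the sum over a list -/
theorem IsNullW.list {ι : Type} (L : List ι) {N : ι → (ℂ → ℂ) → ℝ → ℝ → ℝ}
    {K : ι → (ℂ → ℂ) → ℝ → ℝ} (h : ∀ i ∈ L, IsNullW P (N i) (K i)) :
    IsNullW P (fun X ξ η => (L.map fun i => N i X ξ η).sum)
      (fun X ξ => (L.map fun i => K i X ξ).sum) := by
  induction L with
  | nil => simpa using IsNullW.zero (P := P)
  | cons i L ih =>
    have h1 := (h i (by simp)).add (ih fun j hj => h j (by simp [hj]))
    simpa only [List.map_cons, List.sum_cons] using h1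

/-- the error of an integral with a density bounded by `g (1 + |X - 1|²)` -/
theorem err_le {X : ℂ → ℂ} {x₁ x₂ : ℝ} {F g : ℝ → ℝ → ℝ} (hx : x₁ ≤ x₂) (hX : NiceH X x₁ x₂)
    (cF : CH x₁ x₂ (π / 2) F) (cg : CH x₁ x₂ (π / 2) g) {C : ℝ}
    (h : ∀ ξ ∈ Icc x₁ x₂, ∀ η ∈ Icc (0:ℝ) (π / 2),
      |F ξ η| ≤ C * (g ξ η * (1 + ‖X (pt ξ η) - 1‖ ^ 2))) :
    |IH x₁ x₂ (π / 2) F| ≤ C * Eg g X x₁ x₂ := by
  have hpi : (0:ℝ) ≤ π / 2 := by (clear * -; positivity)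
  have cG : CH x₁ x₂ (π / 2) (fun ξ η => C * (g ξ η * (1 + ‖X (pt ξ η) - 1‖ ^ 2))) :=
    (CH_const C).mul (Eg_cont hX cg)
  have e : IH x₁ x₂ (π / 2) (fun ξ η => C * (g ξ η * (1 + ‖X (pt ξ η) - 1‖ ^ 2))) =
      C * Eg g X x₁ x₂ := by
    rw [IH_const_mul]
    rfl
  rw [abs_le]
  constructor
  · have h1 := IH_mono hx hpi (cG.neg) cF fun ξ hξ η hη => (abs_le.1 (h ξ hξ η hη)).1
    have h2 : IH x₁ x₂ (π / 2) (fun ξ η => - (C * (g ξ η * (1 + ‖X (pt ξ η) - 1‖ ^ 2)))) =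
        - IH x₁ x₂ (π / 2) (fun ξ η => C * (g ξ η * (1 + ‖X (pt ξ η) - 1‖ ^ 2))) := by
      have := IH_const_mul (x₁ := x₁) (x₂ := x₂) (h := π / 2) (-1)
        (fun ξ η => C * (g ξ η * (1 + ‖X (pt ξ η) - 1‖ ^ 2)))
      simpa using this
    rw [h2, e] at h1
    linarith only [h1]
  · have h1 := IH_mono hx hpi cF cG fun ξ hξ η hη => (abs_le.1 (h ξ hξ η hη)).2
    rw [e] at h1
    (clear * - h1; linarith only [h1])

/-- derivatives in the direction of `ξ` -/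
theorem isNullW_xi {F F₁ : (ℂ → ℂ) → ℝ → ℝ → ℝ}
    (cF : ∀ (X : ℂ → ℂ) (x₁ x₂ : ℝ), NiceH X x₁ x₂ → CH x₁ x₂ (π / 2) (F X))
    (cF₁ : ∀ (X : ℂ → ℂ) (x₁ x₂ : ℝ), NiceH X x₁ x₂ → CH x₁ x₂ (π / 2) (F₁ X))
    (hd : ∀ (X : ℂ → ℂ) (x₁ x₂ : ℝ), NiceH X x₁ x₂ → ∀ ξ ∈ Icc x₁ x₂, ∀ η ∈ Icc (0:ℝ) (π / 2),
      HasDerivAt (fun ξ => F X ξ η) (F₁ X ξ η) ξ) {C : ℝ}
    (hC : ∀ (X : ℂ → ℂ) (x₁ x₂ : ℝ), x₁ ≤ x₂ → NiceH X x₁ x₂ → P X x₁ x₂ →
      ∀ ξ ∈ Icc x₁ x₂, ∀ η ∈ Icc (0:ℝ) (π / 2),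
        |F X ξ η| ≤ C * Real.sin η * (1 + ‖X (pt ξ η) - 1‖ ^ 2)) :
    IsNullW P F₁ (fun _ _ => 0) := by
  refine ⟨cF₁, fun _ _ _ _ => continuousOn_const, |C|,
    fun X x₁ x₂ Ω Ω₁ Ω₂ g hx12 hw hX hP => ?_⟩
  have hpi : (0:ℝ) ≤ π / 2 := by positivity
  have c1 : CH x₁ x₂ (π / 2) (fun ξ η => Ω ξ η * F₁ X ξ η) := hw.c0.mul (cF₁ X x₁ x₂ hX)
  have c2 : CH x₁ x₂ (π / 2) (fun ξ η => Ω₁ ξ η * F X ξ η) := hw.c1.mul (cF X x₁ x₂ hX)
  have h1 : IH x₁ x₂ (π / 2) (fun ξ η => Ω ξ η * F₁ X ξ η) =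
      - IH x₁ x₂ (π / 2) (fun ξ η => Ω₁ ξ η * F X ξ η) := by
    rw [IH_swap hx12 hpi c1, IH_swap hx12 hpi c2, ← intervalIntegral.integral_neg]
    refine intervalIntegral.integral_congr fun η hη => ?_
    rw [uIcc_of_le hpi] at hη
    have i1 : IntervalIntegrable (fun ξ => Ω₁ ξ η * F X ξ η) volume x₁ x₂ :=
      (CH_line c2 hη).intervalIntegrable_of_Icc hx12
    have i2 : IntervalIntegrable (fun ξ => Ω ξ η * F₁ X ξ η) volume x₁ x₂ :=
      (CH_line c1 hη).intervalIntegrable_of_Icc hx12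
    have h2 := intervalIntegral.integral_eq_sub_of_hasDerivAt
      (f := fun ξ => Ω ξ η * F X ξ η) (f' := fun ξ => Ω₁ ξ η * F X ξ η + Ω ξ η * F₁ X ξ η)
      (a := x₁) (b := x₂) (fun ξ hξ => by
        rw [uIcc_of_le hx12] at hξ
        exact (hw.d1 ξ hξ η hη).mul (hd X x₁ x₂ hX ξ hξ η hη)) (i1.add i2)
    rw [intervalIntegral.integral_add i1 i2, hw.e1 η hη, hw.e2 η hη] at h2
    (clear * - h2; linarith only [h2])
  rw [h1]
  simp only [mul_zero, intervalIntegral.integral_zero, sub_zero, abs_neg]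
  refine err_le hx12 hX c2 hw.cg ?_
  intro ξ hξ η hη
  rw [abs_mul]
  have h2 := hC X x₁ x₂ hx12 hX hP ξ hξ η hη
  have h3 := hw.g1 ξ hξ η hη
  have hs := sin_nn hη
  have hn : 0 ≤ 1 + ‖X (pt ξ η) - 1‖ ^ 2 := by (clear * -; positivity)
  have h4 : |F X ξ η| ≤ |C| * Real.sin η * (1 + ‖X (pt ξ η) - 1‖ ^ 2) :=
    h2.trans (mul_le_mul_of_nonneg_right
      (mul_le_mul_of_nonneg_right (le_abs_self C) hs) hn)
  calc |Ω₁ ξ η| * |F X ξ η| ≤ |Ω₁ ξ η| * (|C| * Real.sin η * (1 + ‖X (pt ξ η) - 1‖ ^ 2)) :=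
        mul_le_mul_of_nonneg_left h4 (abs_nonneg _)
    _ = |C| * ((|Ω₁ ξ η| * Real.sin η) * (1 + ‖X (pt ξ η) - 1‖ ^ 2)) := by ring
    _ ≤ |C| * (g ξ η * (1 + ‖X (pt ξ η) - 1‖ ^ 2)) :=
        mul_le_mul_of_nonneg_left (mul_le_mul_of_nonneg_right h3 hn) (abs_nonneg C)

/-- derivatives in the direction of `η` -/
theorem isNullW_eta {F F₂ : (ℂ → ℂ) → ℝ → ℝ → ℝ}
    (cF : ∀ (X : ℂ → ℂ) (x₁ x₂ : ℝ), NiceH X x₁ x₂ → CH x₁ x₂ (π / 2) (F X))
    (cF₂ : ∀ (X : ℂ → ℂ) (x₁ x₂ : ℝ), NiceH X x₁ x₂ → CH x₁ x₂ (π / 2) (F₂ X))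
    (hd : ∀ (X : ℂ → ℂ) (x₁ x₂ : ℝ), NiceH X x₁ x₂ → ∀ ξ ∈ Icc x₁ x₂, ∀ η ∈ Icc (0:ℝ) (π / 2),
      HasDerivAt (fun η => F X ξ η) (F₂ X ξ η) η)
    (h0 : ∀ (X : ℂ → ℂ) (ξ : ℝ), F X ξ 0 = 0) {C : ℝ}
    (hC : ∀ (X : ℂ → ℂ) (x₁ x₂ : ℝ), x₁ ≤ x₂ → NiceH X x₁ x₂ → P X x₁ x₂ →
      ∀ ξ ∈ Icc x₁ x₂, ∀ η ∈ Icc (0:ℝ) (π / 2),
        |F X ξ η| ≤ C * Real.sin η * (1 + ‖X (pt ξ η) - 1‖ ^ 2)) :
    IsNullW P F₂ (fun X ξ => F X ξ (π / 2)) := by
  have hpi : (0:ℝ) ≤ π / 2 := by positivity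
  refine ⟨cF₂, fun X x₁ x₂ hX => (cF X x₁ x₂ hX).comp (f := fun ξ : ℝ => (ξ, π / 2))
    (by fun_prop) fun ξ hξ => ⟨hξ, hpi, le_rfl⟩, |C|,
    fun X x₁ x₂ Ω Ω₁ Ω₂ g hx12 hw hX hP => ?_⟩
  have c1 : CH x₁ x₂ (π / 2) (fun ξ η => Ω ξ η * F₂ X ξ η) := hw.c0.mul (cF₂ X x₁ x₂ hX)
  have c2 : CH x₁ x₂ (π / 2) (fun ξ η => Ω₂ ξ η * F X ξ η) := hw.c2.mul (cF X x₁ x₂ hX)
  have h1 : IH x₁ x₂ (π / 2) (fun ξ η => Ω₂ ξ η * F X ξ η + Ω ξ η * F₂ X ξ η) =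
      ∫ ξ in x₁..x₂, Ω ξ (π / 2) * F X ξ (π / 2) := by
    unfold IH
    refine intervalIntegral.integral_congr fun ξ hξ => ?_
    rw [uIcc_of_le hx12] at hξ
    have i1 : IntervalIntegrable (fun η => Ω₂ ξ η * F X ξ η) volume 0 (π / 2) :=
      (CH_col c2 hξ).intervalIntegrable_of_Icc hpi
    have i2 : IntervalIntegrable (fun η => Ω ξ η * F₂ X ξ η) volume 0 (π / 2) :=
      (CH_col c1 hξ).intervalIntegrable_of_Icc hpi
    have h2 := intervalIntegral.integral_eq_sub_of_hasDerivAt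
      (f := fun η => Ω ξ η * F X ξ η) (f' := fun η => Ω₂ ξ η * F X ξ η + Ω ξ η * F₂ X ξ η)
      (a := 0) (b := π / 2) (fun η hη => by
        rw [uIcc_of_le hpi] at hη
        exact (hw.d2 ξ hξ η hη).mul (hd X x₁ x₂ hX ξ hξ η hη)) (i1.add i2)
    simp only
    rw [h2, h0, mul_zero, sub_zero]
  rw [IH_add hx12 hpi c2 c1] at h1
  have h3 : IH x₁ x₂ (π / 2) (fun ξ η => Ω ξ η * F₂ X ξ η) -
      (∫ ξ in x₁..x₂, Ω ξ (π / 2) * F X ξ (π / 2)) =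
      - IH x₁ x₂ (π / 2) (fun ξ η => Ω₂ ξ η * F X ξ η) := by (clear * - h1; linarith only [h1])
  rw [h3, abs_neg]
  refine err_le hx12 hX c2 hw.cg ?_
  intro ξ hξ η hη
  rw [abs_mul]
  have h2 := hC X x₁ x₂ hx12 hX hP ξ hξ η hη
  have h3 := hw.g2 ξ hξ η hη
  have hs := sin_nn hη
  have hn : 0 ≤ 1 + ‖X (pt ξ η) - 1‖ ^ 2 := by (clear * -; positivity)
  have h4 : |F X ξ η| ≤ |C| * Real.sin η * (1 + ‖X (pt ξ η) - 1‖ ^ 2) :=
    h2.trans (mul_le_mul_of_nonneg_right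
      (mul_le_mul_of_nonneg_right (le_abs_self C) hs) hn)
  calc |Ω₂ ξ η| * |F X ξ η| ≤ |Ω₂ ξ η| * (|C| * Real.sin η * (1 + ‖X (pt ξ η) - 1‖ ^ 2)) :=
        mul_le_mul_of_nonneg_left h4 (abs_nonneg _)
    _ = |C| * ((|Ω₂ ξ η| * Real.sin η) * (1 + ‖X (pt ξ η) - 1‖ ^ 2)) := by ring
    _ ≤ |C| * (g ξ η * (1 + ‖X (pt ξ η) - 1‖ ^ 2)) :=
        mul_le_mul_of_nonneg_left (mul_le_mul_of_nonneg_right h3 hn) (abs_nonneg C)

end Pool.Agent.Helper84.CK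

end

section

namespace Pool.Agent.Helper52.EK
end Pool.Agent.Helper52.EK
namespace Pool.Agent.Helper69.EK3
end Pool.Agent.Helper69.EK3
namespace Pool.Agent.Helper69.EK7
end Pool.Agent.Helper69.EK7

set_option autoImplicit false

open Complex MeasureTheory Metric Set

open scoped Real ComplexConjugate

namespace Pool.Agent.Helper84.CK

open Pool.Agent.Helper52.EK Pool.Agent.Helper69.EK3 Pool.Agent.Helper69.EK7

variable {P : (ℂ → ℂ) → ℝ → ℝ → Prop}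

theorem isNullW_A {H Hx Hy : ℂ → ℂ} (hH : C1c H Hx Hy) {f h : (ℂ → ℂ) → ℂ → ℂ} (hf : AnF f)
    (hh : AnF h) {a a₁ : ℝ → ℝ} (g1 : ∀ η, HasDerivAt a (a₁ η) η) (g1c : Continuous a₁)
    (f1 : a 0 = 0) {C : ℝ}
    (hC : ∀ (X : ℂ → ℂ) (x₁ x₂ : ℝ), x₁ ≤ x₂ → NiceH X x₁ x₂ → P X x₁ x₂ →
      ∀ ξ ∈ Icc x₁ x₂, ∀ η ∈ Icc (0:ℝ) (π / 2),
        ‖FA a H f h X ξ η‖ ≤ C * Real.sin η * (1 + ‖X (pt ξ η) - 1‖ ^ 2)) :
    IsNullW P (NF a a₁ H Hx Hy f h) (fun X ξ => - (FA a H f h X ξ (π / 2)).im) := by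
  have ca : Continuous a := continuous_iff_continuousAt.2 fun t => (g1 t).continuousAt
  -- continuity
  have cX : ∀ (X : ℂ → ℂ) (x₁ x₂ : ℝ), NiceH X x₁ x₂ →
      ContinuousOn (fun p : ℝ × ℝ => X (pt p.1 p.2)) (Icc x₁ x₂ ×ˢ Icc 0 (π / 2)) :=
    fun X x₁ x₂ hX => contH hX.an.continuousOn
  have mX : ∀ (X : ℂ → ℂ) (x₁ x₂ : ℝ), NiceH X x₁ x₂ →
      MapsTo (fun p : ℝ × ℝ => X (pt p.1 p.2)) (Icc x₁ x₂ ×ˢ Icc 0 (π / 2)) {X | X ≠ 0} :=
    fun X x₁ x₂ hX p hp => hX.ne _ (pt_mem_RectH hp.1 hp.2)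
  have i2 : ∀ x₁ x₂ : ℝ, ContinuousOn (fun p : ℝ × ℝ => ((a p.2 : ℝ) : ℂ))
      (Icc x₁ x₂ ×ˢ Icc 0 (π / 2)) := fun _ _ =>
    (Complex.continuous_ofReal.comp (ca.comp continuous_snd)).continuousOn
  have i3 : ∀ x₁ x₂ : ℝ, ContinuousOn (fun p : ℝ × ℝ => ((a₁ p.2 : ℝ) : ℂ))
      (Icc x₁ x₂ ×ˢ Icc 0 (π / 2)) := fun _ _ =>
    (Complex.continuous_ofReal.comp (g1c.comp continuous_snd)).continuousOn
  have cFA : ∀ (X : ℂ → ℂ) (x₁ x₂ : ℝ), NiceH X x₁ x₂ →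
      ContinuousOn (fun p : ℝ × ℝ => FA a H f h X p.1 p.2) (Icc x₁ x₂ ×ˢ Icc 0 (π / 2)) := by
    intro X x₁ x₂ hX
    unfold FA
    exact (((i2 x₁ x₂).mul (hH.cont.comp (cX X x₁ x₂ hX) (mX X x₁ x₂ hX))).mul
      (contH (hf X x₁ x₂ hX).continuousOn)).mul
      (Complex.continuous_conj.comp_continuousOn (contH (hh X x₁ x₂ hX).continuousOn))
  have cFA1 : ∀ (X : ℂ → ℂ) (x₁ x₂ : ℝ), NiceH X x₁ x₂ →
      ContinuousOn (fun p : ℝ × ℝ => FA1 a H Hx Hy f h X p.1 p.2)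
        (Icc x₁ x₂ ×ˢ Icc 0 (π / 2)) := by
    intro X x₁ x₂ hX
    have cY := contH hX.an.deriv.continuousOn
    have cf := contH (hf X x₁ x₂ hX).continuousOn
    have cf1 := contH (hf X x₁ x₂ hX).deriv.continuousOn
    have ch := Complex.continuous_conj.comp_continuousOn (contH (hh X x₁ x₂ hX).continuousOn)
    have ch1 := Complex.continuous_conj.comp_continuousOn
      (contH (hh X x₁ x₂ hX).deriv.continuousOn)
    have c0 := hH.cont.comp (cX X x₁ x₂ hX) (mX X x₁ x₂ hX)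
    have cx := hH.cx.comp (cX X x₁ x₂ hX) (mX X x₁ x₂ hX)
    have cy := hH.cy.comp (cX X x₁ x₂ hX) (mX X x₁ x₂ hX)
    have yr := (Complex.continuous_ofReal.comp Complex.continuous_re).comp_continuousOn cY
    have yi := (Complex.continuous_ofReal.comp Complex.continuous_im).comp_continuousOn cY
    unfold FA1
    exact (i2 x₁ x₂).mul ((((((cx.mul yr).add (cy.mul yi)).mul cf).add (c0.mul cf1)).mul
      ch).add ((c0.mul cf).mul ch1))
  have cFA2 : ∀ (X : ℂ → ℂ) (x₁ x₂ : ℝ), NiceH X x₁ x₂ →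
      ContinuousOn (fun p : ℝ × ℝ => FA2 a a₁ H Hx Hy f h X p.1 p.2)
        (Icc x₁ x₂ ×ˢ Icc 0 (π / 2)) := by
    intro X x₁ x₂ hX
    have cY : ContinuousOn (fun p : ℝ × ℝ => I * deriv X (pt p.1 p.2))
        (Icc x₁ x₂ ×ˢ Icc 0 (π / 2)) := continuousOn_const.mul (contH hX.an.deriv.continuousOn)
    have cf := contH (hf X x₁ x₂ hX).continuousOn
    have cf1 : ContinuousOn (fun p : ℝ × ℝ => I * deriv (f X) (pt p.1 p.2))
        (Icc x₁ x₂ ×ˢ Icc 0 (π / 2)) :=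
      continuousOn_const.mul (contH (hf X x₁ x₂ hX).deriv.continuousOn)
    have ch := Complex.continuous_conj.comp_continuousOn (contH (hh X x₁ x₂ hX).continuousOn)
    have ch1' : ContinuousOn (fun p : ℝ × ℝ => I * deriv (h X) (pt p.1 p.2))
        (Icc x₁ x₂ ×ˢ Icc 0 (π / 2)) :=
      continuousOn_const.mul (contH (hh X x₁ x₂ hX).deriv.continuousOn)
    have ch1 := Complex.continuous_conj.comp_continuousOn ch1'
    have c0 := hH.cont.comp (cX X x₁ x₂ hX) (mX X x₁ x₂ hX)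
    have cx := hH.cx.comp (cX X x₁ x₂ hX) (mX X x₁ x₂ hX)
    have cy := hH.cy.comp (cX X x₁ x₂ hX) (mX X x₁ x₂ hX)
    have yr := (Complex.continuous_ofReal.comp Complex.continuous_re).comp_continuousOn cY
    have yi := (Complex.continuous_ofReal.comp Complex.continuous_im).comp_continuousOn cY
    unfold FA2
    exact ((i3 x₁ x₂).mul ((c0.mul cf).mul ch)).add ((i2 x₁ x₂).mul
      ((((((cx.mul yr).add (cy.mul yi)).mul cf).add (c0.mul cf1)).mul ch).add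
      ((c0.mul cf).mul ch1)))
  -- the direction of `ξ`
  have N1 := isNullW_xi (P := P) (F := fun X ξ η => (FA a H f h X ξ η).re)
    (F₁ := fun X ξ η => (FA1 a H Hx Hy f h X ξ η).re)
    (fun X x₁ x₂ hX => Complex.continuous_re.comp_continuousOn (cFA X x₁ x₂ hX))
    (fun X x₁ x₂ hX => Complex.continuous_re.comp_continuousOn (cFA1 X x₁ x₂ hX))
    (by
      intro X x₁ x₂ hX ξ hξ η hη
      have hm := pt_mem_RectH hξ hη
      have dX := d_xi (hX.an _ hm).differentiableAt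
      have df := d_xi (hf X x₁ x₂ hX _ hm).differentiableAt
      have dh := d_xi (hh X x₁ x₂ hX _ hm).differentiableAt
      have dH := d_H hH (g := fun ξ => X (pt ξ η)) (t := ξ) (hX.ne _ hm) dX
      have hd := d_re ((((hasDerivAt_const ξ ((a η : ℝ) : ℂ)).mul dH).mul df).mul (d_conj dh))
      refine (hd.congr_deriv ?_)
      congr 1
      simp only [Pi.mul_apply]
      unfold FA1
      ring)
    (fun X x₁ x₂ hx hX hP ξ hξ η hη =>
      (abs_re_le_norm _).trans (hC X x₁ x₂ hx hX hP ξ hξ η hη))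
  -- the direction of `η`
  have N2 := isNullW_eta (P := P) (F := fun X ξ η => (FA a H f h X ξ η).im)
    (F₂ := fun X ξ η => (FA2 a a₁ H Hx Hy f h X ξ η).im)
    (fun X x₁ x₂ hX => Complex.continuous_im.comp_continuousOn (cFA X x₁ x₂ hX))
    (fun X x₁ x₂ hX => Complex.continuous_im.comp_continuousOn (cFA2 X x₁ x₂ hX))
    (by
      intro X x₁ x₂ hX ξ hξ η hη
      have hm := pt_mem_RectH hξ hη
      have dX := d_eta (hX.an _ hm).differentiableAt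
      have df := d_eta (hf X x₁ x₂ hX _ hm).differentiableAt
      have dh := d_eta (hh X x₁ x₂ hX _ hm).differentiableAt
      have dH := d_H hH (g := fun η => X (pt ξ η)) (t := η) (hX.ne _ hm) dX
      have hd := d_im ((((g1 η).ofReal_comp.mul dH).mul df).mul (d_conj dh))
      refine (hd.congr_deriv ?_)
      congr 1
      simp only [Pi.mul_apply]
      unfold FA2
      ring)
    (fun X ξ => by
      unfold FA
      rw [f1]
      simp)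
    (fun X x₁ x₂ hx hX hP ξ hξ η hη =>
      (abs_im_le_norm _).trans (hC X x₁ x₂ hx hX hP ξ hξ η hη))
  refine (N1.add (N2.const_mul (-1))).congr (fun X ξ η => FA_sum a a₁ H Hx Hy f h X ξ η)
    fun X ξ => by ring

/-- the integrands of the families with one analytic factor -/
theorem NF_eq_NG (a a₁ : ℝ → ℝ) (H Hx Hy : ℂ → ℂ) (f : (ℂ → ℂ) → ℂ → ℂ) (X : ℂ → ℂ) (ξ η : ℝ) :
    NF a a₁ H Hx Hy f (fun _ _ => 1) X ξ η =
      NG a a₁ H Hx Hy (X (pt ξ η)) (deriv X (pt ξ η)) (f X (pt ξ η)) η := by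
  have e : deriv (fun _ : ℂ => (1:ℂ)) (pt ξ η) = 0 := by simp
  unfold NF NG
  rw [e]
  generalize H (X (pt ξ η)) = h0
  generalize Hx (X (pt ξ η)) = hx
  generalize Hy (X (pt ξ η)) = hy
  generalize deriv X (pt ξ η) = Y
  generalize f X (pt ξ η) = f0
  simp only [mul_re, mul_im, add_re, add_im, conj_re, conj_im, ofReal_re, ofReal_im, I_re, I_im,
    re_ofNat, im_ofNat, map_one, map_zero, one_re, one_im, zero_re, zero_im]
  ring

theorem anF_q (j : ℕ) : AnF (fun X ω => (deriv X ω / X ω) ^ j) := fun _ _ _ hX ω hω =>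
  ((hX.an.deriv ω hω).div (hX.an ω hω) (hX.ne ω hω)).pow j

theorem anF_one : AnF (fun _ _ => 1) := fun _ _ _ _ _ _ => analyticAt_const

/-- the family with one analytic factor -/
theorem isNullW_G {H Hx Hy : ℂ → ℂ} (hH : C1c H Hx Hy) {f : (ℂ → ℂ) → ℂ → ℂ} (hf : AnF f)
    {a a₁ : ℝ → ℝ} (g1 : ∀ η, HasDerivAt a (a₁ η) η) (g1c : Continuous a₁)
    (f1 : a 0 = 0) {C : ℝ}
    (hC : ∀ (X : ℂ → ℂ) (x₁ x₂ : ℝ), x₁ ≤ x₂ → NiceH X x₁ x₂ → P X x₁ x₂ →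
      ∀ ξ ∈ Icc x₁ x₂, ∀ η ∈ Icc (0:ℝ) (π / 2),
        |a η| * (‖H (X (pt ξ η))‖ * ‖f X (pt ξ η)‖) ≤
          C * Real.sin η * (1 + ‖X (pt ξ η) - 1‖ ^ 2)) :
    IsNullW P (fun X ξ η => NG a a₁ H Hx Hy (X (pt ξ η)) (deriv X (pt ξ η)) (f X (pt ξ η)) η)
      (fun X ξ => - (a (π / 2) * (H (X (pt ξ (π / 2))) * f X (pt ξ (π / 2))).im)) := by
  refine (isNullW_A (P := P) hH hf anF_one g1 g1c f1 (C := C) ?_).congr
    (fun X ξ η => NF_eq_NG a a₁ H Hx Hy f X ξ η) ?_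
  · intro X x₁ x₂ hx hX hP ξ hξ η hη
    have h := hC X x₁ x₂ hx hX hP ξ hξ η hη
    unfold FA
    rw [norm_mul, norm_mul, norm_mul, norm_real, Real.norm_eq_abs, map_one, norm_one, mul_one,
      mul_assoc]
    exact h
  · intro X ξ
    unfold FA
    rw [map_one, mul_one, mul_assoc, im_ofReal_mul]

end Pool.Agent.Helper84.CK

end

section

namespace Pool.Agent.Helper52.EK
end Pool.Agent.Helper52.EK
namespace Pool.Agent.Helper69.EK3
end Pool.Agent.Helper69.EK3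
namespace Pool.Agent.Helper69.EK7
end Pool.Agent.Helper69.EK7

set_option autoImplicit false

open Complex MeasureTheory Metric Set

open scoped Real ComplexConjugate

namespace Pool.Agent.Helper84.CK

open Pool.Agent.Helper52.EK Pool.Agent.Helper69.EK3 Pool.Agent.Helper69.EK7

/-- a weight on the strip with its partial derivatives; `K` bounds its variation -/
structure WtF (x₁ x₂ K : ℝ) (Ω Ω₁ Ω₂ : ℝ → ℝ → ℝ) : Prop where
  c0 : CH x₁ x₂ π Ω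
  c1 : CH x₁ x₂ π Ω₁
  c2 : CH x₁ x₂ π Ω₂
  d1 : ∀ ξ ∈ Icc x₁ x₂, ∀ η ∈ Icc (0:ℝ) π, HasDerivAt (fun t => Ω t η) (Ω₁ ξ η) ξ
  d2 : ∀ ξ ∈ Icc x₁ x₂, ∀ η ∈ Icc (0:ℝ) π, HasDerivAt (fun t => Ω ξ t) (Ω₂ ξ η) η
  e1 : ∀ η ∈ Icc (0:ℝ) π, Ω x₁ η = 0
  e2 : ∀ η ∈ Icc (0:ℝ) π, Ω x₂ η = 0
  b01 : ∀ ξ ∈ Icc x₁ x₂, ∀ η ∈ Icc (0:ℝ) π, 0 ≤ Ω ξ η ∧ Ω ξ η ≤ 1
  g1 : ∀ ξ ∈ Icc x₁ x₂, ∀ η ∈ Icc (0:ℝ) π, |Ω₁ ξ η| * Real.sin η ≤ K
  g2 : ∀ ξ ∈ Icc x₁ x₂, ∀ η ∈ Icc (0:ℝ) π, |Ω₂ ξ η| * Real.sin η ≤ K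

theorem half_sub {η : ℝ} (hη : η ∈ Icc (0:ℝ) (π / 2)) : η ∈ Icc (0:ℝ) π :=
  ⟨hη.1, hη.2.trans (by (clear * -; linarith only [Real.pi_pos]))⟩

theorem half_mir {η : ℝ} (hη : η ∈ Icc (0:ℝ) (π / 2)) : π - η ∈ Icc (0:ℝ) π :=
  ⟨by (clear * - hη; linarith [hη.2, Real.pi_pos]), by (clear * - hη; linarith [hη.1])⟩

/-- the lower half -/
theorem WtF.half {x₁ x₂ K : ℝ} {Ω Ω₁ Ω₂ : ℝ → ℝ → ℝ} (h : WtF x₁ x₂ K Ω Ω₁ Ω₂) :
    Wt x₁ x₂ Ω Ω₁ Ω₂ (fun _ _ => K) := by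
  have hs : Icc x₁ x₂ ×ˢ Icc (0:ℝ) (π / 2) ⊆ Icc x₁ x₂ ×ˢ Icc 0 π :=
    prod_mono subset_rfl fun _ hη => half_sub hη
  exact ⟨h.c0.mono hs, h.c1.mono hs, h.c2.mono hs, continuousOn_const,
    fun ξ hξ η hη => h.d1 ξ hξ η (half_sub hη), fun ξ hξ η hη => h.d2 ξ hξ η (half_sub hη),
    fun η hη => h.e1 η (half_sub hη), fun η hη => h.e2 η (half_sub hη),
    fun ξ hξ η hη => h.b01 ξ hξ η (half_sub hη), fun ξ hξ η hη => h.g1 ξ hξ η (half_sub hη),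
    fun ξ hξ η hη => h.g2 ξ hξ η (half_sub hη)⟩

/-- the upper half, reflected -/
theorem WtF.mir {x₁ x₂ K : ℝ} {Ω Ω₁ Ω₂ : ℝ → ℝ → ℝ} (h : WtF x₁ x₂ K Ω Ω₁ Ω₂) :
    Wt x₁ x₂ (fun ξ η => Ω ξ (π - η)) (fun ξ η => Ω₁ ξ (π - η)) (fun ξ η => -Ω₂ ξ (π - η))
      (fun _ _ => K) := by
  have hc : ∀ {F : ℝ → ℝ → ℝ}, CH x₁ x₂ π F →
      CH x₁ x₂ (π / 2) (fun ξ η => F ξ (π - η)) := fun hF =>
    ContinuousOn.comp (f := fun p : ℝ × ℝ => (p.1, π - p.2)) hF (by fun_prop)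
      fun p hp => ⟨hp.1, half_mir hp.2⟩
  refine ⟨hc h.c0, hc h.c1, (hc h.c2).neg, continuousOn_const,
    fun ξ hξ η hη => h.d1 ξ hξ _ (half_mir hη), fun ξ hξ η hη => ?_,
    fun η hη => h.e1 _ (half_mir hη), fun η hη => h.e2 _ (half_mir hη),
    fun ξ hξ η hη => h.b01 ξ hξ _ (half_mir hη), fun ξ hξ η hη => ?_,
    fun ξ hξ η hη => ?_⟩
  · have h1 := (h.d2 ξ hξ _ (half_mir hη)).comp_const_sub π η
    exact h1
  · have := h.g1 ξ hξ _ (half_mir hη)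
    rwa [Real.sin_pi_sub] at this
  · have := h.g2 ξ hξ _ (half_mir hη)
    rw [Real.sin_pi_sub] at this
    simpa only [abs_neg] using this

end Pool.Agent.Helper84.CK

end
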