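import Mathlib
import Pool.Agent.Helper60.BE.T07
import Pool.Agent.Helper60.BE.T01
import Pool.Agent.Helper60.BE.T08
import Pool.Agent.Helper60.BE.T03

set_option linter.all false

section

namespace Pool.Agent.Helper39.Area
end Pool.Agent.Helper39.Area

set_option autoImplicit false

open Complex MeasureTheory Metric Set

open scoped Real ENNReal ComplexConjugate

namespace Pool.Agent.Helper84.EK

open Pool.Agent.Helper39.Area

variable {F : ℂ → ℂ} {ρ : ℝ}

/-- univalent on the disc, with `F 0 = 0` -/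
structure Uni (F : ℂ → ℂ) : Prop where
  diff : DifferentiableOn ℂ F (ball 0 1)
  inj : InjOn F (ball 0 1)
  zero : F 0 = 0

theorem Uni.cont (h : Uni F) (hρ1 : ρ < 1) : ContinuousOn F (sphere 0 ρ) :=
  h.diff.continuousOn.mono fun _ hζ => mem_ball_of_sphere hρ1 (sphere_subset_closedBall hζ)

theorem Uni.dcont (h : Uni F) (hρ1 : ρ < 1) : ContinuousOn (deriv F) (sphere 0 ρ) :=
  (h.diff.deriv isOpen_ball).continuousOn.mono
    fun _ hζ => mem_ball_of_sphere hρ1 (sphere_subset_closedBall hζ)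

theorem Uni.dslope_ne (h : Uni F) {a ζ : ℂ} (ha : a ∈ ball (0:ℂ) 1) (hζ : ζ ∈ ball (0:ℂ) 1) :
    dslope F a ζ ≠ 0 := by
  by_cases hne : ζ = a
  · subst hne
    rw [dslope_same]
    exact Pool.Agent.Helper24.Br.deriv_ne_of_inj isOpen_ball h.diff h.inj hζ
  · rw [dslope_of_ne _ hne, slope_def_field]
    refine div_ne_zero ?_ (sub_ne_zero.mpr hne)
    intro h'
    exact hne (h.inj hζ ha (sub_eq_zero.mp h'))

theorem Uni.wind_in (h : Uni F) (hρ : 0 < ρ) (hρ1 : ρ < 1) {a : ℂ} (ha : a ∈ ball (0:ℂ) ρ) :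
    (∮ ζ in C(0, ρ), deriv F ζ / (F ζ - F a)) = 2 * π * I := by
  have ha1 : a ∈ ball (0:ℂ) 1 := mem_ball_of_sphere hρ1 (ball_subset_closedBall ha)
  have hsd : DifferentiableOn ℂ (dslope F a) (ball 0 1) :=
    (Complex.differentiableOn_dslope (isOpen_ball.mem_nhds ha1)).mpr h.diff
  have hs0 : ∀ ζ ∈ closedBall (0:ℂ) ρ, dslope F a ζ ≠ 0 := fun ζ hζ =>
    h.dslope_ne ha1 (mem_ball_of_sphere hρ1 hζ)
  have hfac : ∀ ζ : ℂ, F ζ = F a + (ζ - a) * dslope F a ζ := by
    intro ζ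
    have := sub_smul_dslope F a ζ
    rw [smul_eq_mul] at this
    rw [this]
    ring
  have h1 : (∮ ζ in C(0, ρ), deriv F ζ / (F ζ - F a)) =
      ∮ ζ in C(0, ρ), ((ζ - a)⁻¹ + deriv (dslope F a) ζ / dslope F a ζ) := by
    apply circleIntegral.integral_congr hρ.le
    intro ζ hζ
    have hζ1 := mem_ball_of_sphere hρ1 (sphere_subset_closedBall hζ)
    have hne : ζ - a ≠ 0 := by
      intro h'
      rw [sub_eq_zero] at h'
      subst h'
      simp at hζ ha
      (clear * - hζ ha; linarith only [hζ, ha])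
    have hs := hs0 ζ (sphere_subset_closedBall hζ)
    have h3 : HasDerivAt F (1 * dslope F a ζ + (ζ - a) * deriv (dslope F a) ζ) ζ := by
      have h4 := (((hasDerivAt_id ζ).sub_const a).mul
        ((hsd.differentiableAt (isOpen_ball.mem_nhds hζ1)).hasDerivAt)).const_add (F a)
      refine h4.congr_of_eventuallyEq (Filter.Eventually.of_forall fun w => ?_)
      exact hfac w
    have h5 : F ζ - F a = (ζ - a) * dslope F a ζ := by rw [hfac ζ]; ring
    simp only
    rw [h3.deriv, h5]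
    (clear * - hs hne; field_simp)
  have hc1 := (cont_logDeriv hρ1 hsd hs0).circleIntegrable hρ.le
  have hc2 : CircleIntegrable (fun ζ : ℂ => (ζ - a)⁻¹) 0 ρ := by
    apply ContinuousOn.circleIntegrable hρ.le
    apply ContinuousOn.inv₀ (by fun_prop)
    intro ζ hζ h'
    rw [sub_eq_zero] at h'
    subst h'
    simp at hζ ha
    (clear * - hζ ha; linarith only [hζ, ha])
  rw [h1, circleIntegral.integral_add hc2 hc1, circle_logDeriv hρ hρ1 hsd hs0,
    circleIntegral.integral_sub_inv_of_mem_ball ha, add_zero]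

theorem Uni.wind_out (h : Uni F) (hρ : 0 < ρ) (hρ1 : ρ < 1) {u : ℂ}
    (hu : ∀ ζ ∈ closedBall (0:ℂ) ρ, F ζ ≠ u) :
    (∮ ζ in C(0, ρ), deriv F ζ / (F ζ - u)) = 0 := by
  have h1 := circle_logDeriv hρ hρ1 (s := fun ζ => F ζ - u) (h.diff.sub_const u)
    (fun ζ hζ h' => hu ζ hζ (sub_eq_zero.mp h'))
  refine Eq.trans ?_ h1
  apply circleIntegral.integral_congr hρ.le
  intro ζ hζ
  have hζ1 := mem_ball_of_sphere hρ1 (sphere_subset_closedBall hζ)
  have h2 := ((h.diff.differentiableAt (isOpen_ball.mem_nhds hζ1)).hasDerivAt.sub_const u).deriv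
  simp only
  rw [h2]

theorem Uni.ne_on (h : Uni F) (hρ : 0 < ρ) (hρ1 : ρ < 1) : ∀ ζ ∈ sphere (0:ℂ) ρ, F ζ ≠ 0 := by
  intro ζ hζ h'
  have h2 := h.inj (mem_ball_of_sphere hρ1 (sphere_subset_closedBall hζ))
    (mem_ball_self one_pos) (h'.trans h.zero.symm)
  exact sphere_ne hρ hζ h2

/-- the inner contour integral -/
theorem Uni.inner (h : Uni F) (hρ : 0 < ρ) (hρ1 : ρ < 1) {u : ℂ} (hu0 : u ≠ 0)
    (hu : u ∉ F '' sphere 0 ρ) :
    (∮ ζ in C(0, ρ), deriv F ζ / F ζ / (F ζ - u)) =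
      u⁻¹ * ((∮ ζ in C(0, ρ), deriv F ζ / (F ζ - u)) - 2 * π * I) := by
  have hne : ∀ ζ ∈ sphere (0:ℂ) ρ, F ζ - u ≠ 0 := by
    intro ζ hζ h'
    exact hu ⟨ζ, hζ, sub_eq_zero.mp h'⟩
  have hne2 := h.ne_on hρ hρ1
  have hc1 : CircleIntegrable (fun ζ => deriv F ζ / (F ζ - u)) 0 ρ := by
    apply ContinuousOn.circleIntegrable hρ.le
    exact (h.dcont hρ1).div ((h.cont hρ1).sub continuousOn_const) hne
  have hc2 : CircleIntegrable (fun ζ => deriv F ζ / (F ζ - F 0)) 0 ρ := by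
    apply ContinuousOn.circleIntegrable hρ.le
    refine (h.dcont hρ1).div ((h.cont hρ1).sub continuousOn_const) ?_
    intro ζ hζ
    rw [h.zero, sub_zero]
    exact hne2 ζ hζ
  have h1 : (∮ ζ in C(0, ρ), deriv F ζ / F ζ / (F ζ - u)) =
      ∮ ζ in C(0, ρ), u⁻¹ * (deriv F ζ / (F ζ - u) - deriv F ζ / (F ζ - F 0)) := by
    apply circleIntegral.integral_congr hρ.le
    intro ζ hζ
    have h3 := hne ζ hζ
    have h4 := hne2 ζ hζ
    simp only
    rw [h.zero, sub_zero]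
    field_simp
    ring
  rw [h1, circleIntegral.integral_const_mul, circleIntegral.integral_sub hc1 hc2,
    h.wind_in hρ hρ1 (mem_ball_self hρ)]

theorem Uni.image_open (h : Uni F) (hρ1 : ρ < 1) : IsOpen (F '' ball 0 ρ) := by
  rw [isOpen_iff_mem_nhds]
  rintro _ ⟨ζ, hζ, rfl⟩
  have hζ1 : ζ ∈ ball (0:ℂ) 1 := mem_ball_of_sphere hρ1 (ball_subset_closedBall hζ)
  have h2 : AnalyticAt ℂ F ζ := h.diff.analyticAt (isOpen_ball.mem_nhds hζ1)
  have hmap := h2.hasStrictDerivAt.map_nhds_eq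
    (Pool.Agent.Helper24.Br.deriv_ne_of_inj isOpen_ball h.diff h.inj hζ1)
  rw [← hmap]
  exact Filter.image_mem_map (isOpen_ball.mem_nhds hζ)

end Pool.Agent.Helper84.EK

end

section

namespace Pool.Agent.Helper39.Area
end Pool.Agent.Helper39.Area

set_option autoImplicit false

open Complex MeasureTheory Metric Set

open scoped Real ENNReal ComplexConjugate

namespace Pool.Agent.Helper84.EK

open Pool.Agent.Helper39.Area

variable {F : ℂ → ℂ} {ρ : ℝ}

/-- the logarithmic area of the part of the disc of radius `M` outside of `F (ball 0 ρ)` -/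
noncomputable def lArea (F : ℂ → ℂ) (ρ M : ℝ) : ℝ :=
  ∫ u in ball (0:ℂ) M, (F '' ball 0 ρ)ᶜ.indicator (fun u => (‖u‖ ^ 2)⁻¹) u

theorem Uni.log_area (h : Uni F) (hρ : 0 < ρ) (hρ1 : ρ < 1) {M : ℝ}
    (hM : ∀ ζ ∈ sphere (0:ℂ) ρ, ‖F ζ‖ < M) :
    (∮ ζ in C(0, ρ), ((2 * Real.log ‖F ζ‖ : ℝ) : ℂ) * (deriv F ζ / F ζ)) =
      -(2 * I) * (lArea F ρ M : ℂ) + 4 * π * I * (Real.log M : ℂ) := by
  have hFc := h.cont hρ1
  have hdc := h.dcont hρ1
  have hne2 := h.ne_on hρ hρ1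
  have hMpos : 0 < M := lt_of_le_of_lt (norm_nonneg _) (hM _ (circleMap_mem hρ 0))
  -- the lower bound
  obtain ⟨d, hd0, hd⟩ : ∃ d : ℝ, 0 < d ∧ ∀ ζ ∈ sphere (0:ℂ) ρ, ‖F ζ‖⁻¹ ≤ d := by
    have : ContinuousOn (fun ζ => (F ζ)⁻¹) (sphere 0 ρ) := hFc.inv₀ hne2
    obtain ⟨M, hM⟩ := (isCompact_sphere (0:ℂ) ρ).exists_bound_of_continuousOn this
    refine ⟨|M| + 1, by (clear * -; positivity), fun ζ hζ => ?_⟩
    have := hM ζ hζ
    rw [norm_inv] at this
    linarith [le_abs_self M]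
  set D : ℂ → ℂ := fun ζ => deriv F ζ / F ζ with hD
  have hDc : ContinuousOn D (sphere 0 ρ) := hdc.div hFc hne2
  have hpi0 : (π:ℂ) ≠ 0 := by exact_mod_cast Real.pi_ne_zero
  -- Step 1: rewrite with the kernel
  have e1 : (∮ ζ in C(0, ρ), ((2 * Real.log ‖F ζ‖ : ℝ) : ℂ) * D ζ) =
      ∮ ζ in C(0, ρ), ((π:ℂ)⁻¹ * (D ζ * ∫ u in ball (0:ℂ) M,
        (conj u)⁻¹ / (F ζ - u)) + ((2 * Real.log M : ℝ) : ℂ) * D ζ) := by
    apply circleIntegral.integral_congr hρ.le
    intro ζ hζ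
    simp only
    rw [logkernel M (hne2 ζ hζ) (hM ζ hζ)]
    push_cast
    field_simp
    ring
  have hlc : ContinuousOn (fun ζ => ((2 * Real.log ‖F ζ‖ : ℝ) : ℂ)) (sphere 0 ρ) := by
    apply Complex.continuous_ofReal.comp_continuousOn
    apply continuousOn_const.mul
    apply ContinuousOn.log hFc.norm
    intro ζ hζ
    exact norm_ne_zero_iff.mpr (hne2 ζ hζ)
  have hci2 : CircleIntegrable (fun ζ => ((2 * Real.log M : ℝ) : ℂ) * D ζ) 0 ρ :=
    (continuousOn_const.mul hDc).circleIntegrable hρ.le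
  have hci1 : CircleIntegrable (fun ζ => (π:ℂ)⁻¹ * (D ζ * ∫ u in ball (0:ℂ) M,
        (conj u)⁻¹ / (F ζ - u))) 0 ρ := by
    apply ContinuousOn.circleIntegrable hρ.le
    have hcc : ContinuousOn (fun ζ => ((2 * Real.log ‖F ζ‖ : ℝ) : ℂ) * D ζ -
        ((2 * Real.log M : ℝ) : ℂ) * D ζ) (sphere 0 ρ) :=
      (hlc.mul hDc).sub (continuousOn_const.mul hDc)
    apply hcc.congr
    intro ζ hζ
    simp only
    rw [logkernel M (hne2 ζ hζ) (hM ζ hζ)]
    push_cast
    field_simp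
  have e2 : (∮ ζ in C(0, ρ), ((2 * Real.log M : ℝ) : ℂ) * D ζ) =
      4 * π * I * (Real.log M : ℂ) := by
    have h1 := h.wind_in hρ hρ1 (mem_ball_self hρ)
    simp only [h.zero, sub_zero] at h1
    rw [circleIntegral.integral_const_mul, hD, h1]
    push_cast
    ring
  rw [e1, circleIntegral.integral_add hci1 hci2, e2, circleIntegral.integral_const_mul]
  -- Step 2: Fubini
  have e3 : (∮ ζ in C(0, ρ), D ζ * ∫ u in ball (0:ℂ) M, (conj u)⁻¹ / (F ζ - u)) =
      ∫ u in ball (0:ℂ) M, (conj u)⁻¹ *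
        ∮ ζ in C(0, ρ), deriv F ζ / F ζ / (F ζ - u) := by
    simp only [circleIntegral]
    have e4 : (∫ θ in (0:ℝ)..2 * π, deriv (circleMap 0 ρ) θ • (D (circleMap 0 ρ θ) *
        ∫ u in ball (0:ℂ) M, (conj u)⁻¹ / (F (circleMap 0 ρ θ) - u))) =
        ∫ θ in (0:ℝ)..2 * π, ∫ u in ball (0:ℂ) M, deriv (circleMap 0 ρ) θ * (D (circleMap 0 ρ θ) *
          ((conj u)⁻¹ / (F (circleMap 0 ρ θ) - u))) := by
      congr 1
      funext θ
      rw [smul_eq_mul, ← integral_const_mul, ← integral_const_mul]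
    have e5 : (∫ u in ball (0:ℂ) M, (conj u)⁻¹ *
        ∫ θ in (0:ℝ)..2 * π, deriv (circleMap 0 ρ) θ •
          (deriv F (circleMap 0 ρ θ) / F (circleMap 0 ρ θ) /
            (F (circleMap 0 ρ θ) - u))) =
        ∫ u in ball (0:ℂ) M, ∫ θ in (0:ℝ)..2 * π, deriv (circleMap 0 ρ) θ * (D (circleMap 0 ρ θ) *
          ((conj u)⁻¹ / (F (circleMap 0 ρ θ) - u))) := by
      congr 1
      funext u
      rw [← intervalIntegral.integral_const_mul]
      congr 1
      funext θ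
      simp only [hD, smul_eq_mul]
      ring
    rw [e4, e5]
    simp only [intervalIntegral.integral_of_le Real.two_pi_pos.le]
    apply integral_integral_swap
    -- integrability
    have hcθ : Continuous (fun θ : ℝ => circleMap 0 ρ θ) := continuous_circleMap 0 ρ
    have hc1 : Continuous (fun θ : ℝ => F (circleMap 0 ρ θ)) :=
      hFc.comp_continuous hcθ (fun θ => circleMap_mem hρ θ)
    have hc2 : Continuous (fun θ : ℝ => deriv (circleMap 0 ρ) θ * D (circleMap 0 ρ θ)) := by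
      have : deriv (circleMap 0 ρ) = fun θ => circleMap 0 ρ θ * I := by
        funext θ; rw [deriv_circleMap]
      apply Continuous.mul
      · rw [this]; fun_prop
      · exact hDc.comp_continuous hcθ (fun θ => circleMap_mem hρ θ)
    have hmeas : Measurable (fun z : ℝ × ℂ => deriv (circleMap 0 ρ) z.1 * (D (circleMap 0 ρ z.1) *
          ((conj z.2)⁻¹ / (F (circleMap 0 ρ z.1) - z.2)))) := by
      have m1 : Measurable (fun z : ℝ × ℂ => deriv (circleMap 0 ρ) z.1 * D (circleMap 0 ρ z.1)) :=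
        hc2.measurable.comp measurable_fst
      have m2 : Measurable (fun z : ℝ × ℂ => (conj z.2)⁻¹) :=
        (Complex.continuous_conj.measurable.inv).comp measurable_snd
      have m3 : Measurable (fun z : ℝ × ℂ => F (circleMap 0 ρ z.1) - z.2) :=
        (hc1.measurable.comp measurable_fst).sub measurable_snd
      have e : (fun z : ℝ × ℂ => deriv (circleMap 0 ρ) z.1 * (D (circleMap 0 ρ z.1) *
          ((conj z.2)⁻¹ / (F (circleMap 0 ρ z.1) - z.2)))) =
          fun z : ℝ × ℂ => (deriv (circleMap 0 ρ) z.1 * D (circleMap 0 ρ z.1)) *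
          ((conj z.2)⁻¹ / (F (circleMap 0 ρ z.1) - z.2)) := by
        funext z; ring
      rw [e]
      exact m1.mul (m2.div m3)
    show Integrable (fun z : ℝ × ℂ => deriv (circleMap 0 ρ) z.1 * (D (circleMap 0 ρ z.1) *
          ((conj z.2)⁻¹ / (F (circleMap 0 ρ z.1) - z.2))))
          ((volume.restrict (Ioc 0 (2 * π))).prod (volume.restrict (ball 0 M)))
    refine ⟨hmeas.aestronglyMeasurable, ?_⟩
    -- bounds
    obtain ⟨B1, hB1⟩ := (isCompact_Icc (a := (0:ℝ)) (b := 2 * π)).exists_bound_of_continuousOn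
      hc2.continuousOn
    have hB10 : 0 ≤ B1 := (norm_nonneg _).trans (hB1 0 ⟨le_rfl, Real.two_pi_pos.le⟩)
    rw [hasFiniteIntegral_iff_enorm]
    rw [lintegral_prod _ (hmeas.enorm.aemeasurable)]
    calc ∫⁻ θ in Ioc (0:ℝ) (2 * π), ∫⁻ u in ball (0:ℂ) M, ‖deriv (circleMap 0 ρ) θ *
          (D (circleMap 0 ρ θ) *
          ((conj u)⁻¹ / (F (circleMap 0 ρ θ) - u)))‖ₑ
        ≤ ∫⁻ θ in Ioc (0:ℝ) (2 * π), ENNReal.ofReal (B1 * d) *
            (ENNReal.ofReal (2 * π * M) + ENNReal.ofReal (2 * π * (M + M))) := by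
          apply setLIntegral_mono measurable_const
          intro θ hθ
          have hθ' : θ ∈ Icc (0:ℝ) (2 * π) := Ioc_subset_Icc_self hθ
          set v : ℂ := F (circleMap 0 ρ θ) with hv
          have hv0 : v ≠ 0 := hne2 _ (circleMap_mem hρ θ)
          have hvd : ‖v‖⁻¹ ≤ d := hd _ (circleMap_mem hρ θ)
          have hvM : ‖v‖ < M := hM _ (circleMap_mem hρ θ)
          calc ∫⁻ u in ball (0:ℂ) M, ‖deriv (circleMap 0 ρ) θ * (D (circleMap 0 ρ θ) *
                ((conj u)⁻¹ / (v - u)))‖ₑ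
              ≤ ∫⁻ u in ball (0:ℂ) M, ENNReal.ofReal (B1 * d) *
                  (ENNReal.ofReal (‖u‖⁻¹) + ENNReal.ofReal (‖v - u‖⁻¹)) := by
                apply setLIntegral_mono
                · apply Measurable.const_mul
                  exact (by fun_prop : Measurable fun u : ℂ => ‖u‖⁻¹).ennreal_ofReal.add
                    (by fun_prop : Measurable fun u : ℂ => ‖v - u‖⁻¹).ennreal_ofReal
                intro u hu
                rw [← ofReal_norm, ← ENNReal.ofReal_add (by (clear * -; positivity)) (by (clear * -; positivity)),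
                  ← ENNReal.ofReal_mul (by (clear * - hB10 hd0; positivity))]
                apply ENNReal.ofReal_le_ofReal
                have b1 := hB1 θ hθ'
                calc ‖deriv (circleMap 0 ρ) θ * (D (circleMap 0 ρ θ) *
                      ((conj u)⁻¹ / (v - u)))‖
                    = ‖deriv (circleMap 0 ρ) θ * D (circleMap 0 ρ θ)‖ *
                      (‖u‖⁻¹ * ‖v - u‖⁻¹) := by
                      rw [← mul_assoc, norm_mul, norm_div, norm_inv, RCLike.norm_conj, div_eq_mul_inv]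
                  _ ≤ B1 * (‖v‖⁻¹ * (‖u‖⁻¹ + ‖v - u‖⁻¹)) := by
                      apply mul_le_mul b1 (inv_mul_inv_le u v hv0) (by (clear * -; positivity)) hB10
                  _ ≤ B1 * (d * (‖u‖⁻¹ + ‖v - u‖⁻¹)) := by (clear * - hvd hB10; gcongr)
                  _ = B1 * d * (‖u‖⁻¹ + ‖v - u‖⁻¹) := by ring
            _ = ENNReal.ofReal (B1 * d) * (∫⁻ u in ball (0:ℂ) M, ENNReal.ofReal (‖u‖⁻¹) +
                  ENNReal.ofReal (‖v - u‖⁻¹)) := by
                rw [lintegral_const_mul' _ _ ENNReal.ofReal_ne_top]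
            _ = ENNReal.ofReal (B1 * d) * ((∫⁻ u in ball (0:ℂ) M, ENNReal.ofReal (‖u‖⁻¹)) +
                  ∫⁻ u in ball (0:ℂ) M, ENNReal.ofReal (‖v - u‖⁻¹)) := by
                rw [lintegral_add_left (by fun_prop : Measurable fun u : ℂ => ‖u‖⁻¹).ennreal_ofReal]
            _ ≤ ENNReal.ofReal (B1 * d) *
                (ENNReal.ofReal (2 * π * M) + ENNReal.ofReal (2 * π * (M + M))) := by
                gcongr
                · exact lint_inv_ball M
                · refine (lint_inv _ M).trans ?_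
                  apply ENNReal.ofReal_le_ofReal
                  have hpi := Real.pi_pos
                  nlinarith only [hvM, hpi]
      _ < ⊤ := by
          rw [setLIntegral_const]
          apply ENNReal.mul_lt_top
          · apply ENNReal.mul_lt_top ENNReal.ofReal_lt_top
            exact ENNReal.add_lt_top.mpr ⟨ENNReal.ofReal_lt_top, ENNReal.ofReal_lt_top⟩
          · rw [Real.volume_Ioc]; exact ENNReal.ofReal_lt_top
  rw [e3]
  -- Step 3: evaluate the inner integral almost everywhere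
  have hnull : volume (F '' sphere 0 ρ) = 0 := by
    apply addHaar_image_eq_zero_of_differentiableOn_of_addHaar_eq_zero
    · intro ζ hζ
      have h1 := (h.diff.differentiableAt (isOpen_ball.mem_nhds
        (mem_ball_of_sphere hρ1 (sphere_subset_closedBall hζ)))).hasDerivAt
      exact (h1.hasFDerivAt.restrictScalars ℝ).differentiableAt.differentiableWithinAt
    · exact Measure.addHaar_sphere volume 0 ρ
  set S : Set ℂ := F '' ball 0 ρ with hS
  have hae : ∀ᵐ u : ℂ, (conj u)⁻¹ *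
        (∮ ζ in C(0, ρ), deriv F ζ / F ζ / (F ζ - u)) =
      -(2 * π * I) * ((Sᶜ.indicator (fun u => (‖u‖ ^ 2)⁻¹) u : ℝ) : ℂ) := by
    have h1 : ∀ᵐ u : ℂ, u ∉ F '' sphere 0 ρ := measure_eq_zero_iff_ae_notMem.mp hnull
    have h2 : ∀ᵐ u : ℂ, u ≠ 0 := by
      have : volume ({0} : Set ℂ) = 0 := measure_singleton 0
      filter_upwards [measure_eq_zero_iff_ae_notMem.mp this] with u hu
      simpa using hu
    filter_upwards [h1, h2] with u hu hu0
    rw [h.inner hρ hρ1 hu0 hu]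
    by_cases huS : u ∈ S
    · rw [indicator_of_notMem (by simpa using huS)]
      obtain ⟨b, hb, hbw⟩ := huS
      rw [← hbw, h.wind_in hρ hρ1 hb]
      simp
    · rw [indicator_of_mem (by simpa using huS)]
      rw [h.wind_out hρ hρ1]
      · have h7 : (((‖u‖ ^ 2)⁻¹ : ℝ) : ℂ) = u⁻¹ * (conj u)⁻¹ := by
          rw [← mul_inv, Complex.mul_conj, Complex.normSq_eq_norm_sq]
          push_cast
          rfl
        rw [h7]; ring
      · intro ζ hζ h'
        rcases lt_or_eq_of_le (show ‖ζ‖ ≤ ρ by simpa using hζ) with h8 | h8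
        · exact huS ⟨ζ, by simpa using h8, h'⟩
        · exact hu ⟨ζ, by simpa using h8, h'⟩
  rw [setIntegral_congr_ae measurableSet_ball (hae.mono fun u hu _ => hu), integral_const_mul,
    integral_complex_ofReal]
  have e9 : (π:ℂ)⁻¹ * (-(2 * π * I) * ((∫ u in ball (0:ℂ) M,
      Sᶜ.indicator (fun u => (‖u‖ ^ 2)⁻¹) u : ℝ) : ℂ)) = -(2 * I) * (lArea F ρ M : ℂ) := by
    unfold lArea
    rw [← hS]
    field_simp
  rw [e9]

end Pool.Agent.Helper84.EK

end

section

namespace Pool.Agent.Helper39.Area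
end Pool.Agent.Helper39.Area

set_option autoImplicit false

open Complex MeasureTheory Metric Set

open scoped Real ENNReal ComplexConjugate

namespace Pool.Agent.Helper84.EK

open Pool.Agent.Helper39.Area

variable {F : ℂ → ℂ} {ρ : ℝ}

theorem det_cmul (c : ℂ) : |(c • (1 : ℂ →L[ℝ] ℂ)).det| = ‖c‖ ^ 2 := by
  have h : (c • (1 : ℂ →L[ℝ] ℂ)).det = ‖c‖ ^ 2 := by
    have h1 : (((c • (1 : ℂ →L[ℝ] ℂ)) : ℂ →L[ℝ] ℂ) : ℂ →ₗ[ℝ] ℂ) =
        ((c • (LinearMap.id : ℂ →ₗ[ℂ] ℂ)).restrictScalars ℝ) := by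
      ext
      all_goals simp
    rw [ContinuousLinearMap.det, h1, LinearMap.det_restrictScalars]
    simp [Algebra.norm_complex_eq, Complex.normSq_eq_norm_sq]
  rw [h, abs_of_nonneg (by positivity)]

theorem uni_id : Uni (fun z => z) := ⟨differentiableOn_id, fun _ _ _ _ h => h, rfl⟩

theorem lArea_id {M : ℝ} (hM : 1 < M) : lArea (fun z => z) M⁻¹ M = 4 * π * Real.log M := by
  have hM0 : 0 < M := by (clear * - hM; linarith only [hM])
  have hρ : 0 < M⁻¹ := inv_pos.mpr hM0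
  have hρ1 : M⁻¹ < 1 := inv_lt_one_of_one_lt₀ hM
  have h := uni_id.log_area hρ hρ1 (M := M) (by
    intro ζ hζ
    rw [mem_sphere, dist_zero_right] at hζ
    rw [hζ]
    (clear * - hM hρ1; linarith only [hM, hρ1]))
  have h1 : (∮ ζ in C(0, M⁻¹), ((2 * Real.log ‖ζ‖ : ℝ) : ℂ) * (deriv (fun z : ℂ => z) ζ / ζ)) =
      ∮ ζ in C(0, M⁻¹), ((2 * Real.log M⁻¹ : ℝ) : ℂ) * (ζ - 0)⁻¹ := by
    apply circleIntegral.integral_congr hρ.le
    intro ζ hζ
    rw [mem_sphere, dist_zero_right] at hζ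
    simp only
    rw [hζ, show deriv (fun z : ℂ => z) ζ = 1 from deriv_id ζ, sub_zero, one_div]
  rw [h1, circleIntegral.integral_const_mul,
    circleIntegral.integral_sub_inv_of_mem_ball (mem_ball_self hρ), Real.log_inv] at h
  have h2 : (2 * I : ℂ) ≠ 0 := mul_ne_zero two_ne_zero I_ne_zero
  have h3 : ((lArea (fun z => z) M⁻¹ M : ℝ) : ℂ) = ((4 * π * Real.log M : ℝ) : ℂ) := by
    apply mul_left_cancel₀ h2
    push_cast at h ⊢
    linear_combination h
  exact_mod_cast h3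

theorem lArea_ge (h : Uni F) (hρ : 0 < ρ) (hρ1 : ρ < 1)
    (hne : ∀ z ∈ ball (0:ℂ) ρ, ∀ w ∈ ball (0:ℂ) ρ, F z * F w ≠ 1) {M : ℝ} (hM : 1 < M) :
    2 * π * Real.log M ≤ lArea F ρ M := by
  have hM0 : 0 < M := by (clear * - hM; linarith only [hM])
  have hMi : 0 < M⁻¹ := inv_pos.mpr hM0
  set f : ℂ → ℝ := fun u => (‖u‖ ^ 2)⁻¹ with hf
  set S : Set ℂ := F '' ball 0 ρ with hS
  have hSo : IsOpen S := h.image_open hρ1
  have hSm : MeasurableSet S := hSo.measurableSet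
  have h0S : (0:ℂ) ∈ S := ⟨0, mem_ball_self hρ, h.zero⟩
  obtain ⟨δ, hδ, hδS⟩ := Metric.isOpen_iff.mp hSo 0 h0S
  have hfm : Measurable f := by
    rw [hf]
    fun_prop
  have hf0 : ∀ u, 0 ≤ f u := fun u => by simp only [hf]; (clear * -; positivity)
  -- integrability away from 0
  have hint : ∀ T : Set ℂ, MeasurableSet T → T ⊆ ball 0 M → (∃ e : ℝ, 0 < e ∧ ∀ u ∈ T, e ≤ ‖u‖) →
      IntegrableOn f T := by
    rintro T hT hTM ⟨e, he, heT⟩
    have hfin : volume T ≠ ⊤ := ((measure_mono hTM).trans_lt measure_ball_lt_top).ne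
    have hfi : IsFiniteMeasure (volume.restrict T) := by
      refine ⟨?_⟩
      rw [Measure.restrict_apply_univ]
      exact hfin.lt_top
    apply Integrable.of_bound hfm.aestronglyMeasurable ((e ^ 2)⁻¹)
    rw [ae_restrict_iff' hT]
    refine Filter.Eventually.of_forall fun u hu => ?_
    rw [Real.norm_of_nonneg (hf0 u)]
    simp only [hf]
    have := heT u hu
    (clear * - he this; gcongr)
  set A : Set ℂ := ball 0 M \ closedBall 0 M⁻¹ with hA
  have hAm : MeasurableSet A := measurableSet_ball.diff measurableSet_closedBall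
  have hAi : IntegrableOn f A := hint A hAm sdiff_subset ⟨M⁻¹, hMi, fun u hu => by
    have := hu.2
    rw [mem_closedBall, dist_zero_right, not_le] at this
    exact this.le⟩
  have hBi : IntegrableOn f (ball 0 M \ S) :=
    hint _ (measurableSet_ball.diff hSm) sdiff_subset ⟨δ, hδ, fun u hu => by
      by_contra hlt
      push Not at hlt
      exact hu.2 (hδS (by rw [mem_ball, dist_zero_right]; exact hlt))⟩
  -- the two areas
  have e1 : lArea F ρ M = ∫ u in ball (0:ℂ) M \ S, f u := by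
    unfold lArea
    rw [← hS, setIntegral_indicator hSm.compl]
    rfl
  have e2 : (∫ u in A, f u) = 4 * π * Real.log M := by
    rw [← lArea_id hM]
    unfold lArea
    have e3 : (fun z : ℂ => z) '' ball 0 M⁻¹ = ball 0 M⁻¹ := by simp
    rw [e3, setIntegral_indicator measurableSet_ball.compl]
    apply setIntegral_congr_set
    have hs : volume (sphere (0:ℂ) M⁻¹) = 0 := Measure.addHaar_sphere volume 0 M⁻¹
    have h1 : ∀ᵐ u : ℂ, u ∉ sphere (0:ℂ) M⁻¹ := measure_eq_zero_iff_ae_notMem.mp hs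
    filter_upwards [h1] with u hu
    rw [mem_sphere, dist_zero_right] at hu
    apply propext
    change u ∈ A ↔ u ∈ ball (0:ℂ) M ∩ (ball 0 M⁻¹)ᶜ
    rw [hA, mem_sdiff, mem_inter_iff, mem_compl_iff, mem_closedBall, mem_ball (ε := M⁻¹),
      dist_zero_right]
    constructor
    · rintro ⟨h2, h3⟩
      exact ⟨h2, fun h4 => h3 h4.le⟩
    · rintro ⟨h2, h3⟩
      exact ⟨h2, fun h4 => h3 (lt_of_le_of_ne h4 hu)⟩
  -- the inversion
  have hinv : (∫ u in (fun u : ℂ => u⁻¹) '' (A ∩ S), f u) = ∫ u in A ∩ S, f u := by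
    have hne0 : ∀ u ∈ A ∩ S, u ≠ 0 := by
      rintro u ⟨hu, -⟩ rfl
      exact hu.2 (mem_closedBall_self hMi.le)
    rw [integral_image_eq_integral_abs_det_fderiv_smul volume (hAm.inter hSm)
      (f' := fun u => (-(u ^ 2)⁻¹) • (1 : ℂ →L[ℝ] ℂ))
      (fun u hu => (hasDerivAt_inv (hne0 u hu)).complexToReal_fderiv.hasFDerivWithinAt)
      (fun u _ v _ huv => inv_injective huv)]
    apply setIntegral_congr_fun (hAm.inter hSm)
    intro u hu
    have h1 : ‖u‖ ≠ 0 := norm_ne_zero_iff.mpr (hne0 u hu)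
    simp only [hf]
    rw [det_cmul, norm_neg, norm_inv, norm_pow, norm_inv, smul_eq_mul]
    field_simp
  have hsub : (fun u : ℂ => u⁻¹) '' (A ∩ S) ⊆ A \ S := by
    rintro _ ⟨u, ⟨huA, huS⟩, rfl⟩
    have hu0 : u ≠ 0 := by
      rintro rfl
      exact huA.2 (mem_closedBall_self hMi.le)
    have hupos : 0 < ‖u‖ := norm_pos_iff.mpr hu0
    have hu1 : ‖u‖ < M := by simpa using huA.1
    have hu2 : M⁻¹ < ‖u‖ := by
      have := huA.2
      rw [mem_closedBall, dist_zero_right, not_le] at this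
      exact this
    refine ⟨⟨?_, ?_⟩, ?_⟩
    · rw [mem_ball, dist_zero_right, norm_inv]
      exact inv_lt_of_inv_lt₀ hM0 hu2
    · rw [mem_closedBall, dist_zero_right, norm_inv, not_le]
      exact (inv_lt_inv₀ hM0 hupos).mpr hu1
    · rintro ⟨w, hw, hwu⟩
      obtain ⟨z, hz, hzu⟩ := huS
      apply hne z hz w hw
      rw [hzu, hwu]
      exact mul_inv_cancel₀ hu0
  have h1 : (∫ u in A ∩ S, f u) ≤ ∫ u in A \ S, f u := by
    rw [← hinv]
    exact setIntegral_mono_set (hAi.mono_set sdiff_subset)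
      (Filter.Eventually.of_forall fun u => hf0 u) (LE.le.eventuallyLE hsub)
  have h2 : (∫ u in A ∩ S, f u) + (∫ u in A \ S, f u) = ∫ u in A, f u :=
    integral_inter_add_sdiff hSm hAi
  have h3 : (∫ u in A \ S, f u) ≤ ∫ u in ball (0:ℂ) M \ S, f u :=
    setIntegral_mono_set hBi (Filter.Eventually.of_forall fun u => hf0 u)
      (LE.le.eventuallyLE (sdiff_subset_sdiff_left sdiff_subset))
  rw [e1]
  linarith only [e2, h1, h2, h3]

end Pool.Agent.Helper84.EK

end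

section

namespace Pool.Agent.Helper39.Area
end Pool.Agent.Helper39.Area

set_option autoImplicit false

open Complex MeasureTheory Metric Set Filter Topology

open scoped Real ENNReal ComplexConjugate

namespace Pool.Agent.Helper84.EK

open Pool.Agent.Helper39.Area

variable {F : ℂ → ℂ} {ρ : ℝ}

theorem be_radius (h : Uni F) {H : ℂ → ℂ} {c : ℂ} (hc : c ≠ 0)
    (hH : DifferentiableOn ℂ H (ball 0 1)) (hH0 : H 0 = 0)
    (hFH : ∀ z ∈ ball (0:ℂ) 1, F z = c * z * Complex.exp (H z)) (hρ : 0 < ρ) (hρ1 : ρ < 1)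
    (hne : ∀ z ∈ ball (0:ℂ) 1, ∀ w ∈ ball (0:ℂ) 1, F z * F w ≠ 1) (N : ℕ) :
    ∑ n ∈ Finset.range N, (n:ℝ) * ρ ^ (2 * n) * ‖iteratedDeriv n H 0 / n.factorial‖ ^ 2 ≤
      -2 * Real.log ‖c‖ - 2 * Real.log ρ := by
  obtain ⟨C, hC, hCe⟩ := Pool.Agent.Helper39.EK.dirichlet_sum hH hρ hρ1
  refine (hC N).trans ?_
  -- the radius
  obtain ⟨M, hM1, hM⟩ : ∃ M : ℝ, 1 < M ∧ ∀ ζ ∈ sphere (0:ℂ) ρ, ‖F ζ‖ < M := by
    obtain ⟨M, hM⟩ := (isCompact_sphere (0:ℂ) ρ).exists_bound_of_continuousOn (h.cont hρ1)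
    refine ⟨max M 1 + 1, ?_, fun ζ hζ => ?_⟩
    · (clear * -; linarith only [le_max_right M 1])
    · (clear * - hM hζ; linarith only [hM ζ hζ, le_max_left M 1])
  have hJ := h.log_area hρ hρ1 hM
  have hA := lArea_ge h hρ hρ1 (fun z hz w hw => hne z (mem_ball_of_sphere hρ1
    (ball_subset_closedBall hz)) w (mem_ball_of_sphere hρ1 (ball_subset_closedBall hw))) hM1
  have hcpos : 0 < ‖c‖ := norm_pos_iff.mpr hc
  have hHd : ContinuousOn (deriv H) (sphere 0 ρ) :=
    (hH.deriv isOpen_ball).continuousOn.mono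
      fun _ hζ => mem_ball_of_sphere hρ1 (sphere_subset_closedBall hζ)
  have hHc : ContinuousOn H (sphere 0 ρ) :=
    hH.continuousOn.mono fun _ hζ => mem_ball_of_sphere hρ1 (sphere_subset_closedBall hζ)
  set K : ℂ := ((2 * Real.log ‖c‖ + 2 * Real.log ρ : ℝ) : ℂ) with hK
  -- expansion of the contour integral
  have e1 : (∮ ζ in C(0, ρ), ((2 * Real.log ‖F ζ‖ : ℝ) : ℂ) * (deriv F ζ / F ζ)) =
      ∮ ζ in C(0, ρ), (K * (ζ - 0)⁻¹ + K * deriv H ζ + (ζ - 0)⁻¹ • H ζ +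
        H ζ * deriv H ζ + conj (H ζ) * ζ⁻¹ + conj (H ζ) * deriv H ζ) := by
    apply circleIntegral.integral_congr hρ.le
    intro ζ hζ
    have hζ1 := mem_ball_of_sphere hρ1 (sphere_subset_closedBall hζ)
    have hζ0 := sphere_ne hρ hζ
    have hζn : ‖ζ‖ = ρ := by simpa using hζ
    have hd : HasDerivAt F (c * 1 * Complex.exp (H ζ) + c * ζ * (Complex.exp (H ζ) * deriv H ζ))
        ζ := by
      have h1 := (((hasDerivAt_id ζ).const_mul c).mul
        ((hH.differentiableAt (isOpen_ball.mem_nhds hζ1)).hasDerivAt).cexp)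
      refine h1.congr_of_eventuallyEq ?_
      filter_upwards [isOpen_ball.mem_nhds hζ1] with w hw
      exact hFH w hw
    have hE := Complex.exp_ne_zero (H ζ)
    have h2 : deriv F ζ / F ζ = ζ⁻¹ + deriv H ζ := by
      rw [hd.deriv, hFH ζ hζ1]
      field_simp
    have h3 : ((2 * Real.log ‖F ζ‖ : ℝ) : ℂ) = K + H ζ + conj (H ζ) := by
      rw [hFH ζ hζ1, norm_mul, norm_mul, Complex.norm_exp, hζn,
        Real.log_mul (by positivity) (Real.exp_pos _).ne', Real.log_mul hcpos.ne' hρ.ne',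
        Real.log_exp, add_assoc K (H ζ), Complex.add_conj, hK]
      push_cast
      ring
    simp only
    rw [h2, h3, sub_zero, smul_eq_mul]
    ring
  have c1 : CircleIntegrable (fun ζ : ℂ => K * (ζ - 0)⁻¹) 0 ρ := by
    apply ContinuousOn.circleIntegrable hρ.le
    apply continuousOn_const.mul
    apply ContinuousOn.inv₀ (by fun_prop)
    intro ζ hζ
    rw [sub_zero]
    exact sphere_ne hρ hζ
  have c2 : CircleIntegrable (fun ζ : ℂ => K * deriv H ζ) 0 ρ :=
    (continuousOn_const.mul hHd).circleIntegrable hρ.le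
  have hinv : ContinuousOn (fun ζ : ℂ => ζ⁻¹) (sphere 0 ρ) :=
    ContinuousOn.inv₀ (by fun_prop) fun ζ hζ => sphere_ne hρ hζ
  have c3 : CircleIntegrable (fun ζ : ℂ => (ζ - 0)⁻¹ • H ζ) 0 ρ := by
    apply ContinuousOn.circleIntegrable hρ.le
    simp only [sub_zero, smul_eq_mul]
    exact hinv.mul hHc
  have c4 : CircleIntegrable (fun ζ : ℂ => H ζ * deriv H ζ) 0 ρ :=
    (hHc.mul hHd).circleIntegrable hρ.le
  have hcc : ContinuousOn (fun ζ : ℂ => conj (H ζ)) (sphere 0 ρ) :=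
    Complex.continuous_conj.comp_continuousOn hHc
  have c5 : CircleIntegrable (fun ζ : ℂ => conj (H ζ) * ζ⁻¹) 0 ρ :=
    (hcc.mul hinv).circleIntegrable hρ.le
  have c6 : CircleIntegrable (fun ζ : ℂ => conj (H ζ) * deriv H ζ) 0 ρ :=
    (hcc.mul hHd).circleIntegrable hρ.le
  have v3 : (∮ ζ in C(0, ρ), (ζ - 0)⁻¹ • H ζ) = 0 := by
    have h1 := (hH.mono (closedBall_subset_ball hρ1)).circleIntegral_sub_inv_smul
      (mem_ball_self hρ)
    rw [h1, hH0, smul_zero]
  have v5 : (∮ ζ in C(0, ρ), conj (H ζ) * ζ⁻¹) = 0 := by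
    have h1 : (∮ ζ in C(0, ρ), conj (H ζ) * ζ⁻¹) = -conj (∮ ζ in C(0, ρ), (ζ - 0)⁻¹ • H ζ) := by
      simp only [circleIntegral]
      rw [intervalIntegral.integral_of_le Real.two_pi_pos.le,
        intervalIntegral.integral_of_le Real.two_pi_pos.le, ← integral_conj, ← integral_neg]
      congr 1
      funext θ
      have h2 : circleMap 0 ρ θ ≠ 0 := circleMap_ne_center hρ.ne'
      rw [deriv_circleMap]
      simp only [smul_eq_mul, map_mul, sub_zero, map_inv₀, Complex.conj_I]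
      have h3 : conj (circleMap 0 ρ θ) ≠ 0 := (map_ne_zero _).mpr h2
      (clear * - h2 h3; field_simp)
    rw [h1, v3, map_zero, neg_zero]
  have v2 : (∮ ζ in C(0, ρ), K * deriv H ζ) = 0 := by
    apply circleIntegral.integral_eq_zero_of_hasDerivWithinAt hρ.le (f := fun ζ => K * H ζ)
    intro ζ hζ
    have hζ1 := mem_ball_of_sphere hρ1 (sphere_subset_closedBall hζ)
    exact ((hH.differentiableAt (isOpen_ball.mem_nhds hζ1)).hasDerivAt.const_mul K).hasDerivWithinAt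
  have v4 : (∮ ζ in C(0, ρ), H ζ * deriv H ζ) = 0 := by
    apply circleIntegral.integral_eq_zero_of_hasDerivWithinAt hρ.le (f := fun ζ => H ζ ^ 2 / 2)
    intro ζ hζ
    have hζ1 := mem_ball_of_sphere hρ1 (sphere_subset_closedBall hζ)
    have h1 := ((hH.differentiableAt (isOpen_ball.mem_nhds hζ1)).hasDerivAt.pow 2).div_const 2
    have h2 : ((2 : ℕ) : ℂ) * H ζ ^ (2 - 1) * deriv H ζ / 2 = H ζ * deriv H ζ := by
      push_cast
      ring
    rw [h2] at h1
    exact h1.hasDerivWithinAt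
  have c12 : CircleIntegrable (fun ζ : ℂ => K * (ζ - 0)⁻¹ + K * deriv H ζ) 0 ρ := c1.add c2
  have c13 : CircleIntegrable (fun ζ : ℂ => K * (ζ - 0)⁻¹ + K * deriv H ζ + (ζ - 0)⁻¹ • H ζ)
    0 ρ := c12.add c3
  have c14 : CircleIntegrable (fun ζ : ℂ => K * (ζ - 0)⁻¹ + K * deriv H ζ + (ζ - 0)⁻¹ • H ζ +
    H ζ * deriv H ζ) 0 ρ := c13.add c4
  have c15 : CircleIntegrable (fun ζ : ℂ => K * (ζ - 0)⁻¹ + K * deriv H ζ + (ζ - 0)⁻¹ • H ζ +
    H ζ * deriv H ζ + conj (H ζ) * ζ⁻¹) 0 ρ := c14.add c5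
  rw [e1, circleIntegral.integral_add c15 c6, circleIntegral.integral_add c14 c5,
    circleIntegral.integral_add c13 c4, circleIntegral.integral_add c12 c3,
    circleIntegral.integral_add c1 c2,
    v2, v3, v4, v5, hCe, circleIntegral.integral_const_mul,
    circleIntegral.integral_sub_inv_of_mem_ball (mem_ball_self hρ)] at hJ
  have h2 : (2 * I : ℂ) ≠ 0 := mul_ne_zero two_ne_zero I_ne_zero
  have h4 : ((π * (2 * Real.log ‖c‖ + 2 * Real.log ρ) + π * C : ℝ) : ℂ) =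
      ((-lArea F ρ M + 2 * π * Real.log M : ℝ) : ℂ) := by
    apply mul_left_cancel₀ h2
    rw [hK] at hJ
    push_cast at hJ ⊢
    linear_combination hJ
  have h5 : π * (2 * Real.log ‖c‖ + 2 * Real.log ρ) + π * C = -lArea F ρ M + 2 * π * Real.log M := by
    exact_mod_cast h4
  have hpi := Real.pi_pos
  have h6 : π * (2 * Real.log ‖c‖ + 2 * Real.log ρ + C) ≤ 0 := by
    rw [mul_add, h5]
    linarith only [hA]
  have h7 : 2 * Real.log ‖c‖ + 2 * Real.log ρ + C ≤ 0 := by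
    by_contra hcon
    push Not at hcon
    have := mul_pos hpi hcon
    linarith only [h6, this]
  linarith only [h7]

/-- **the logarithmic area theorem** for univalent functions `F = c z exp H` with
`F z * F w ≠ 1` -/
theorem be_sum (h : Uni F) {H : ℂ → ℂ} {c : ℂ} (hc : c ≠ 0)
    (hH : DifferentiableOn ℂ H (ball 0 1)) (hH0 : H 0 = 0)
    (hFH : ∀ z ∈ ball (0:ℂ) 1, F z = c * z * Complex.exp (H z))
    (hne : ∀ z ∈ ball (0:ℂ) 1, ∀ w ∈ ball (0:ℂ) 1, F z * F w ≠ 1) (N : ℕ) :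
    ∑ n ∈ Finset.range N, (n:ℝ) * ‖iteratedDeriv n H 0 / n.factorial‖ ^ 2 ≤
      -2 * Real.log ‖c‖ := by
  have h1 : Tendsto (fun ρ : ℝ => ∑ n ∈ Finset.range N,
      (n:ℝ) * ρ ^ (2 * n) * ‖iteratedDeriv n H 0 / n.factorial‖ ^ 2) (𝓝[<] 1)
      (𝓝 (∑ n ∈ Finset.range N,
        (n:ℝ) * 1 ^ (2 * n) * ‖iteratedDeriv n H 0 / n.factorial‖ ^ 2)) := by
    have : Continuous (fun ρ : ℝ => ∑ n ∈ Finset.range N,
      (n:ℝ) * ρ ^ (2 * n) * ‖iteratedDeriv n H 0 / n.factorial‖ ^ 2) := by fun_prop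
    exact this.continuousAt.tendsto.mono_left nhdsWithin_le_nhds
  have h2 : Tendsto (fun ρ : ℝ => -2 * Real.log ‖c‖ - 2 * Real.log ρ) (𝓝[<] 1)
      (𝓝 (-2 * Real.log ‖c‖ - 2 * Real.log 1)) := by
    apply Tendsto.mono_left _ nhdsWithin_le_nhds
    exact tendsto_const_nhds.sub ((Real.continuousAt_log one_ne_zero).tendsto.const_mul 2)
  have h3 := le_of_tendsto_of_tendsto h1 h2 (by
    filter_upwards [Ioo_mem_nhdsLT (show (0:ℝ) < 1 by norm_num)] with ρ hρ
    exact be_radius h hc hH hH0 hFH hρ.1 hρ.2 hne N)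
  simpa using h3

end Pool.Agent.Helper84.EK

end

section

namespace Pool.Agent.Helper39.Area
end Pool.Agent.Helper39.Area
namespace Pool.Agent.Helper22.Marshall
end Pool.Agent.Helper22.Marshall

set_option autoImplicit false

open Complex MeasureTheory Metric Set Filter Topology

open scoped Real ENNReal ComplexConjugate

namespace Pool.Agent.Helper84.EK

open Pool.Agent.Helper39.Area

open Pool.Agent.Helper22.Marshall (coeff coeff_zero coeff_one coeff_mul coeff_congr coeff_deriv)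

/-- the function of Bieberbach and Eilenberg attached to a univalent function `exp L` -/
theorem exists_be {L : ℂ → ℂ} (hL : DifferentiableOn ℂ L (ball 0 1)) (hL0 : L 0 = 0)
    (hinj : InjOn (fun z => Complex.exp (L z)) (ball 0 1)) :
    ∃ F H : ℂ → ℂ, Uni F ∧ DifferentiableOn ℂ H (ball 0 1) ∧ H 0 = 0 ∧ deriv F 0 ≠ 0 ∧
      (∀ z ∈ ball (0:ℂ) 1, F z = deriv F 0 * z * Complex.exp (H z)) ∧
      (∀ z ∈ ball (0:ℂ) 1, deriv F z = deriv L z / 4 * (1 - F z * F z)) ∧
      ∀ N : ℕ, ∑ n ∈ Finset.range N, (n:ℝ) * ‖iteratedDeriv n H 0 / n.factorial‖ ^ 2 ≤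
        -2 * Real.log ‖deriv F 0‖ := by
  have h0b : (0:ℂ) ∈ ball (0:ℂ) 1 := mem_ball_self one_pos
  have hb0 : ball (0:ℂ) 1 ∈ 𝓝 (0:ℂ) := ball_mem_nhds 0 one_pos
  set k : ℂ → ℂ := fun z => Complex.exp (L z / 2) with hk
  have hkk : ∀ z, k z * k z = Complex.exp (L z) := by
    intro z
    simp only [hk]
    rw [← Complex.exp_add]
    congr 1
    ring
  have hk0 : k 0 = 1 := by simp [hk, hL0]
  have hkne : ∀ z, k z ≠ 0 := fun z => Complex.exp_ne_zero _
  have hsum : ∀ z ∈ ball (0:ℂ) 1, ∀ w ∈ ball (0:ℂ) 1, k z + k w ≠ 0 := by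
    intro z hz w hw h
    have h1 : k z = -k w := by linear_combination h
    have h2 : Complex.exp (L z) = Complex.exp (L w) := by
      rw [← hkk, ← hkk, h1]
      ring
    have h3 : z = w := hinj hz hw h2
    subst h3
    have h4 : 2 * k z = 0 := by linear_combination h
    rcases mul_eq_zero.mp h4 with h5 | h5
    · norm_num at h5
    · exact hkne z h5
  have hk1 : ∀ z ∈ ball (0:ℂ) 1, k z + 1 ≠ 0 := by
    intro z hz
    have := hsum z hz 0 h0b
    rwa [hk0] at this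
  have hkd : DifferentiableOn ℂ k (ball 0 1) := (hL.div_const 2).cexp
  set F : ℂ → ℂ := fun z => (k z - 1) / (k z + 1) with hF
  have hFd : DifferentiableOn ℂ F (ball 0 1) := (hkd.sub_const 1).div (hkd.add_const 1) hk1
  have hFi : InjOn F (ball 0 1) := by
    intro z hz w hw h
    simp only [hF] at h
    rw [div_eq_div_iff (hk1 z hz) (hk1 w hw)] at h
    have h1 : k z = k w := by linear_combination h / 2
    apply hinj hz hw
    simp only
    rw [← hkk, ← hkk, h1]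
  have hF0 : F 0 = 0 := by simp [hF, hk0]
  have hU : Uni F := ⟨hFd, hFi, hF0⟩
  have hne : ∀ z ∈ ball (0:ℂ) 1, ∀ w ∈ ball (0:ℂ) 1, F z * F w ≠ 1 := by
    intro z hz w hw h
    simp only [hF] at h
    rw [div_mul_div_comm, div_eq_one_iff_eq (mul_ne_zero (hk1 z hz) (hk1 w hw))] at h
    apply hsum z hz w hw
    linear_combination -h / 2
  have hdF : ∀ z ∈ ball (0:ℂ) 1, deriv F z = deriv L z / 4 * (1 - F z * F z) := by
    intro z hz
    have h1 : HasDerivAt L (deriv L z) z :=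
      (hL.differentiableAt (isOpen_ball.mem_nhds hz)).hasDerivAt
    have h2 : HasDerivAt k (k z * (deriv L z / 2)) z := (h1.div_const 2).cexp
    have h3 := (h2.sub_const 1).div (h2.add_const 1) (hk1 z hz)
    have h4 : deriv F z = (k z * (deriv L z / 2) * (k z + 1) -
        (k z - 1) * (k z * (deriv L z / 2))) / (k z + 1) ^ 2 := h3.deriv
    rw [h4]
    have h5 := hk1 z hz
    simp only [hF]
    field_simp
    ring
  -- the factorisation
  set G : ℂ → ℂ := dslope F 0 with hG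
  have hGd : DifferentiableOn ℂ G (ball 0 1) := (Complex.differentiableOn_dslope hb0).mpr hFd
  have hG0 : G 0 = deriv F 0 := dslope_same F 0
  have hGne : ∀ z ∈ ball (0:ℂ) 1, G z ≠ 0 := fun z hz => hU.dslope_ne h0b hz
  have hc : deriv F 0 ≠ 0 := by rw [← hG0]; exact hGne 0 h0b
  have hGf : ∀ z : ℂ, F z = z * G z := by
    intro z
    have := sub_smul_dslope F 0 z
    rw [smul_eq_mul, sub_zero, hF0, sub_zero] at this
    exact this.symm
  obtain ⟨H, hHd, hH0, hHe⟩ := Pool.Agent.Helper24.Br.exists_log_ball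
    (q := fun z => G z / deriv F 0) (hGd.div_const _) (fun z hz => div_ne_zero (hGne z hz) hc)
    (by rw [hG0, div_self hc])
  have hFH : ∀ z ∈ ball (0:ℂ) 1, F z = deriv F 0 * z * Complex.exp (H z) := by
    intro z hz
    rw [hHe z hz, hGf z]
    (clear * - hc; field_simp)
  exact ⟨F, H, hU, hHd, hH0, hc, hFH, hdF, be_sum hU hc hHd hH0 hFH hne⟩

/-- **the area theorem of Bieberbach-Eilenberg functions**, two coefficients -/
theorem be_two {L : ℂ → ℂ} (hL : DifferentiableOn ℂ L (ball 0 1)) (hL0 : L 0 = 0)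
    (hinj : InjOn (fun z => Complex.exp (L z)) (ball 0 1)) {l1 l2 l3 : ℂ} (h1 : coeff L 1 = l1)
    (h2 : coeff L 2 = l2) (h3 : coeff L 3 = l3) :
    l1 ≠ 0 ∧ ‖l2 / l1‖ ^ 2 + 2 * ‖l3 / l1 - (l2 / l1) ^ 2 / 2 - l1 ^ 2 / 48‖ ^ 2 ≤
      -2 * Real.log (‖l1‖ / 4) := by
  have h0b : (0:ℂ) ∈ ball (0:ℂ) 1 := mem_ball_self one_pos
  have hb0 : ball (0:ℂ) 1 ∈ 𝓝 (0:ℂ) := ball_mem_nhds 0 one_pos
  obtain ⟨F, H, hU, hH, hH0, hc, hFH, hdF, hsum⟩ := exists_be hL hL0 hinj
  have hLa : AnalyticAt ℂ L 0 := hL.analyticAt hb0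
  have hFa : AnalyticAt ℂ F 0 := hU.diff.analyticAt hb0
  have hHa : AnalyticAt ℂ H 0 := hH.analyticAt hb0
  set c := deriv F 0 with hcdef
  set G : ℂ → ℂ := fun z => c * Complex.exp (H z) with hG
  have hGd : DifferentiableOn ℂ G (ball 0 1) := (hH.cexp).const_mul c
  have hGa : AnalyticAt ℂ G 0 := hGd.analyticAt hb0
  -- F = z G
  have hxa : AnalyticAt ℂ (fun z : ℂ => z) 0 := analyticAt_id
  have x0 : coeff (fun z : ℂ => z) 0 = 0 := by rw [coeff_zero]
  have x1 : coeff (fun z : ℂ => z) 1 = 1 := by rw [coeff_one]; simp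
  have hFG : F =ᶠ[𝓝 0] fun z => z * G z := by
    filter_upwards [hb0] with z hz
    rw [hFH z hz]
    simp only [hG]
    ring
  have hdx : deriv (fun z : ℂ => z) = fun _ => (1:ℂ) := by
    funext z
    exact deriv_id z
  have x2 : ∀ n, coeff (fun z : ℂ => z) (n + 2) = 0 := by
    intro n
    have e := coeff_deriv (fun z : ℂ => z) (n + 1)
    rw [hdx] at e
    have e2 : coeff (fun _ : ℂ => (1:ℂ)) (n + 1) = 0 := by
      have e3 := coeff_deriv (fun _ : ℂ => (1:ℂ)) n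
      have e4 : deriv (fun _ : ℂ => (1:ℂ)) = fun _ => (0:ℂ) := by
        funext z
        simp
      rw [e4] at e3
      have e5 : coeff (fun _ : ℂ => (0:ℂ)) n = 0 := by
        have e6 := Pool.Agent.Helper22.Marshall.coeff_const_mul 0 (fun _ : ℂ => (0:ℂ)) n
        simpa using e6
      rw [e5] at e3
      have e7 : ((n : ℂ) + 1) ≠ 0 := by exact_mod_cast Nat.succ_ne_zero n
      exact (mul_eq_zero.mp e3.symm).resolve_left e7
    rw [e2] at e
    have e7 : (((n + 1 : ℕ) : ℂ) + 1) ≠ 0 := by exact_mod_cast Nat.succ_ne_zero (n + 1)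
    exact (mul_eq_zero.mp e.symm).resolve_left e7
  have f0 : coeff F 0 = 0 := by rw [coeff_zero, hU.zero]
  have f1 : coeff F 1 = coeff G 0 := by
    rw [coeff_congr hFG, coeff_mul hxa hGa]
    simp [Finset.sum_range_succ, x0, x1]
  have f2 : coeff F 2 = coeff G 1 := by
    rw [coeff_congr hFG, coeff_mul hxa hGa]
    have := x2 0
    simp only [zero_add] at this
    simp [Finset.sum_range_succ, x0, x1, this]
  have f3 : coeff F 3 = coeff G 2 := by
    rw [coeff_congr hFG, coeff_mul hxa hGa]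
    have e0 := x2 0
    have e1 := x2 1
    simp only [zero_add, Nat.reduceAdd] at e0 e1
    simp [Finset.sum_range_succ, x0, x1, e0, e1]
  -- G' = G H'
  have hGH : deriv G =ᶠ[𝓝 0] fun z => G z * deriv H z := by
    filter_upwards [hb0] with z hz
    have e1 := ((hH.differentiableAt (isOpen_ball.mem_nhds hz)).hasDerivAt).cexp.const_mul c
    have e2 : deriv G z = c * (Complex.exp (H z) * deriv H z) := e1.deriv
    rw [e2]
    simp only [hG]
    ring
  have g0 : coeff G 0 = c := by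
    rw [coeff_zero]
    simp [hG, hH0]
  have hdH : AnalyticAt ℂ (deriv H) 0 := hHa.deriv
  have g1 : coeff G 1 = c * coeff H 1 := by
    have e1 := coeff_congr hGH 0
    rw [coeff_mul hGa hdH, coeff_deriv] at e1
    simp only [Finset.sum_range_succ, Finset.sum_range_zero, zero_add, Nat.sub_self, coeff_deriv,
      g0] at e1
    push_cast at e1
    linear_combination e1
  have g2 : 2 * coeff G 2 = 2 * c * coeff H 2 + coeff G 1 * coeff H 1 := by
    have e1 := coeff_congr hGH 1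
    rw [coeff_mul hGa hdH, coeff_deriv] at e1
    simp only [Finset.sum_range_succ, Finset.sum_range_zero, zero_add, Nat.sub_self, Nat.sub_zero,
      coeff_deriv, g0] at e1
    push_cast at e1
    linear_combination e1
  -- F' = L'/4 (1 - F^2)
  have hFL : deriv F =ᶠ[𝓝 0] fun z => (deriv L z * 4⁻¹) * (1 - F z * F z) := by
    filter_upwards [hb0] with z hz
    rw [hdF z hz]
    ring
  have hdL : AnalyticAt ℂ (deriv L) 0 := hLa.deriv
  have hdL4 : AnalyticAt ℂ (fun z => deriv L z * 4⁻¹) 0 := hdL.mul analyticAt_const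
  have hFF : AnalyticAt ℂ (fun z => F z * F z) 0 := hFa.mul hFa
  have h1FF : AnalyticAt ℂ (fun z => 1 - F z * F z) 0 := analyticAt_const.sub hFF
  have cL : ∀ n : ℕ, coeff (fun z => deriv L z * 4⁻¹) n = ((n:ℂ) + 1) * coeff L (n + 1) / 4 := by
    intro n
    have e1 : (fun z => deriv L z * 4⁻¹) = fun z => (4:ℂ)⁻¹ * deriv L z := by
      funext z
      ring
    rw [e1, Pool.Agent.Helper22.Marshall.coeff_const_mul, coeff_deriv]
    ring
  -- the coefficients of 1 - F^2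
  have q0 : coeff (fun z => 1 - F z * F z) 0 = 1 := by
    rw [coeff_zero]
    simp [hU.zero]
  have hQd : deriv (fun z => 1 - F z * F z) =ᶠ[𝓝 0] fun z => (-2) * (F z * deriv F z) := by
    filter_upwards [hb0] with z hz
    have e1 := (hU.diff.differentiableAt (isOpen_ball.mem_nhds hz)).hasDerivAt
    have e2 := (e1.mul e1).const_sub 1
    have e3 : deriv (fun z => 1 - F z * F z) z = -(deriv F z * F z + F z * deriv F z) := e2.deriv
    rw [e3]
    ring
  have hdFa : AnalyticAt ℂ (deriv F) 0 := hFa.deriv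
  have cQ : ∀ n : ℕ, ((n:ℂ) + 1) * coeff (fun z => 1 - F z * F z) (n + 1) =
      -2 * ∑ i ∈ Finset.range (n + 1), coeff F i * coeff (deriv F) (n - i) := by
    intro n
    rw [← coeff_deriv, coeff_congr hQd, Pool.Agent.Helper22.Marshall.coeff_const_mul,
      coeff_mul hFa hdFa]
  have q1 : coeff (fun z => 1 - F z * F z) 1 = 0 := by
    have e1 := cQ 0
    simp only [Finset.sum_range_succ, Finset.sum_range_zero, f0] at e1
    push_cast at e1
    linear_combination e1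
  have q2 : coeff (fun z => 1 - F z * F z) 2 = -(coeff F 1) ^ 2 := by
    have e1 := cQ 1
    simp only [Finset.sum_range_succ, Finset.sum_range_zero, f0, Nat.sub_self, coeff_deriv] at e1
    push_cast at e1
    linear_combination e1 / 2
  have r0 : coeff F 1 = l1 / 4 := by
    have e1 := coeff_congr hFL 0
    rw [coeff_mul hdL4 h1FF, coeff_deriv] at e1
    simp only [Finset.sum_range_succ, Finset.sum_range_zero, Nat.sub_self, cL, q0] at e1
    push_cast at e1
    rw [← h1]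
    linear_combination e1
  have r1 : 2 * coeff F 2 = l2 / 2 := by
    have e1 := coeff_congr hFL 1
    rw [coeff_mul hdL4 h1FF, coeff_deriv] at e1
    simp only [Finset.sum_range_succ, Finset.sum_range_zero, Nat.sub_self, Nat.sub_zero, cL, q0,
      q1] at e1
    push_cast at e1
    rw [← h2]
    linear_combination e1
  have r2 : 3 * coeff F 3 = 3 * l3 / 4 - l1 / 4 * (coeff F 1) ^ 2 := by
    have e1 := coeff_congr hFL 2
    rw [coeff_mul hdL4 h1FF, coeff_deriv] at e1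
    simp only [Finset.sum_range_succ, Finset.sum_range_zero, Nat.sub_self, Nat.sub_zero, cL, q0,
      q1, q2, show (2 - 1 : ℕ) = 1 from rfl] at e1
    push_cast at e1
    rw [← h3, ← h1]
    linear_combination e1
  have hc1 : c = l1 / 4 := by rw [← r0, f1, g0]
  have hl1 : l1 ≠ 0 := by
    intro h
    apply hc
    rw [hc1, h, zero_div]
  refine ⟨hl1, ?_⟩
  have hH1 : coeff H 1 = l2 / l1 := by
    have e1 : c * coeff H 1 = l2 / 4 := by
      rw [← g1, ← f2]
      linear_combination r1 / 2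
    rw [hc1] at e1
    field_simp at e1 ⊢
    linear_combination e1
  have hH2 : coeff H 2 = l3 / l1 - (l2 / l1) ^ 2 / 2 - l1 ^ 2 / 48 := by
    have e1 : coeff G 2 = l3 / 4 - l1 ^ 3 / 192 := by
      rw [← f3]
      have e3 : (coeff F 1) ^ 2 = (l1 / 4) ^ 2 := by rw [r0]
      linear_combination r2 / 3 - l1 / 12 * e3
    rw [e1, g1, hH1, hc1] at g2
    have e4 : l1 / 2 ≠ 0 := div_ne_zero hl1 two_ne_zero
    apply mul_left_cancel₀ e4
    have e5 : l1 / 2 * (l3 / l1 - (l2 / l1) ^ 2 / 2 - l1 ^ 2 / 48) =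
        l3 / 2 - l1 / 4 * (l2 / l1) ^ 2 - l1 ^ 3 / 96 := by
      field_simp
      ring
    rw [e5]
    linear_combination -g2
  have hs := hsum 3
  simp only [Finset.sum_range_succ, Finset.sum_range_zero, Nat.cast_zero, zero_mul, zero_add,
    Nat.cast_one, one_mul] at hs
  have e1 : iteratedDeriv 1 H 0 / (Nat.factorial 1 : ℂ) = l2 / l1 := by
    rw [← hH1, Pool.Agent.Helper22.Marshall.coeff, div_eq_inv_mul]
  have e2 : iteratedDeriv 2 H 0 / (Nat.factorial 2 : ℂ) =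
      l3 / l1 - (l2 / l1) ^ 2 / 2 - l1 ^ 2 / 48 := by
    rw [← hH2, Pool.Agent.Helper22.Marshall.coeff, div_eq_inv_mul]
  have h4 : ‖l1 / 4‖ = ‖l1‖ / 4 := by rw [norm_div]; simp
  rw [e1, e2, hc1, h4] at hs
  simpa using hs

end Pool.Agent.Helper84.EK

end

section

namespace Pool.Agent.Helper39.Area
end Pool.Agent.Helper39.Area
namespace Pool.Agent.Helper52.EK
end Pool.Agent.Helper52.EK
namespace Pool.Agent.Helper22.Marshall
end Pool.Agent.Helper22.Marshall

set_option autoImplicit false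

open Complex Metric Set Filter Topology

open scoped Real

namespace Pool.Agent.Helper84.EK

open Pool.Agent.Helper39.Area Pool.Agent.Helper52.EK

open Pool.Agent.Helper22.Marshall (coeff coeff_zero coeff_one coeff_deriv)

/-- the automorphism of the disc with `0 ↦ z₀` -/
noncomputable def mob (z₀ : ℝ) (u : ℂ) : ℂ := (u + z₀) / (1 + z₀ * u)

section

variable {a z₀ r : ℝ} {u v : ℂ}

theorem mob_den (hz₀ : 0 < z₀) (hz1 : z₀ < 1) (hr1 : r ≤ z₀) (hu : u ∈ ball (0:ℂ) r) :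
    (1 + (z₀ : ℂ) * u) ≠ 0 := by
  intro h0
  rw [mem_ball_zero_iff] at hu
  have h1 : (z₀ : ℂ) * u = -1 := by linear_combination h0
  have h2 : z₀ * ‖u‖ = 1 := by
    have := congrArg (fun w : ℂ => ‖w‖) h1
    simpa [Complex.norm_real, abs_of_pos hz₀] using this
  nlinarith [norm_nonneg u]

theorem mob_mem (hz₀ : 0 < z₀) (hz1 : z₀ < 1) (hr1 : r ≤ z₀) (hu : u ∈ ball (0:ℂ) r) :
    mob z₀ u ∈ ball (0:ℂ) 1 := by
  have h1 := mob_den hz₀ hz1 hr1 hu
  rw [mem_ball_zero_iff] at hu ⊢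
  unfold mob
  rw [norm_div, div_lt_one (norm_pos_iff.mpr h1)]
  have h2 : ‖u + z₀‖ ^ 2 < ‖1 + (z₀ : ℂ) * u‖ ^ 2 := by
    have h3 : ‖u‖ ^ 2 = u.re ^ 2 + u.im ^ 2 := by
      rw [← Complex.normSq_eq_norm_sq, Complex.normSq_apply]
      ring
    have h4 : ‖u‖ ^ 2 < 1 := by (clear * - hz1 hr1 hu; nlinarith only [norm_nonneg u, hz1, hr1, hu])
    rw [← Complex.normSq_eq_norm_sq, ← Complex.normSq_eq_norm_sq, Complex.normSq_apply,
      Complex.normSq_apply]
    simp only [Complex.add_re, Complex.add_im, Complex.ofReal_re, Complex.ofReal_im,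
      Complex.one_re, Complex.one_im, Complex.mul_re, Complex.mul_im, add_zero, zero_add,
      zero_mul, sub_zero]
    have h5 : 0 < (1 - (u.re ^ 2 + u.im ^ 2)) * (1 - z₀ ^ 2) := by
      apply mul_pos
      · rw [← h3]; (clear * - h4; linarith)
      · (clear * - hz1 hz₀; nlinarith only [hz₀, hz1])
    (clear * - h5; linarith only [h5])
  exact lt_of_pow_lt_pow_left₀ 2 (norm_nonneg _) h2

theorem mob_ne_zero (hz₀ : 0 < z₀) (hz1 : z₀ < 1) (hr1 : r ≤ z₀) (hu : u ∈ ball (0:ℂ) r) :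
    mob z₀ u ≠ 0 := by
  intro h0
  have h1 := mob_den hz₀ hz1 hr1 hu
  unfold mob at h0
  rw [div_eq_zero_iff] at h0
  rcases h0 with h0 | h0
  · have h2 : u = -(z₀ : ℂ) := by linear_combination h0
    rw [mem_ball_zero_iff, h2, norm_neg, Complex.norm_real, Real.norm_of_nonneg hz₀.le] at hu
    (clear * - hr1 hu; linarith)
  · exact h1 h0

theorem mob_ne_a (ha1 : a < 1) (hz₀ : 0 < z₀) (hza : z₀ < a) (hr1 : r ≤ z₀)
    (hr2 : r * (1 - a * z₀) ≤ a - z₀) (hu : u ∈ ball (0:ℂ) r) : mob z₀ u ≠ a := by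
  intro h0
  have hz1 : z₀ < 1 := hza.trans ha1
  have haz : 0 < 1 - a * z₀ := by nlinarith only [ha1, hz₀, hza]
  have h1 := mob_den hz₀ hz1 hr1 hu
  unfold mob at h0
  rw [div_eq_iff h1] at h0
  have h2 : u * ((1 - a * z₀ : ℝ) : ℂ) = ((a - z₀ : ℝ) : ℂ) := by
    push_cast
    linear_combination h0
  have h3 := congrArg (fun w : ℂ => ‖w‖) h2
  simp only [norm_mul, Complex.norm_real] at h3
  rw [Real.norm_of_nonneg haz.le, Real.norm_of_nonneg (by (clear * - hza; linarith))] at h3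
  rw [mem_ball_zero_iff] at hu
  (clear * - hr2 h3 hu haz; nlinarith only [hr2, hu, haz, h3])

theorem mob_inj (hz₀ : 0 < z₀) (hz1 : z₀ < 1) (hr1 : r ≤ z₀) (hu : u ∈ ball (0:ℂ) r)
    (hv : v ∈ ball (0:ℂ) r) (h0 : mob z₀ u = mob z₀ v) : u = v := by
  unfold mob at h0
  rw [div_eq_div_iff (mob_den hz₀ hz1 hr1 hu) (mob_den hz₀ hz1 hr1 hv)] at h0
  have h1 : (u - v) * ((1 - z₀ ^ 2 : ℝ) : ℂ) = 0 := by
    push_cast
    linear_combination h0
  have h2 : ((1 - z₀ ^ 2 : ℝ) : ℂ) ≠ 0 := by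
    have : (1 - z₀ ^ 2 : ℝ) ≠ 0 := by nlinarith only [hz₀, hz1]
    exact_mod_cast this
  exact sub_eq_zero.mp ((mul_eq_zero.mp h1).resolve_right h2)

theorem mob_deriv (hu : (1 + (z₀ : ℂ) * u) ≠ 0) :
    HasDerivAt (mob z₀) ((1 - (z₀ : ℂ) ^ 2) / (1 + z₀ * u) ^ 2) u := by
  have h1 : HasDerivAt (fun u : ℂ => u + (z₀ : ℂ)) 1 u := (hasDerivAt_id _).add_const _
  have h2 : HasDerivAt (fun u : ℂ => 1 + (z₀ : ℂ) * u) (z₀ : ℂ) u := by
    simpa using ((hasDerivAt_id u).const_mul (z₀ : ℂ)).const_add 1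
  have h3 := h1.div h2 hu
  have e : (1 - (z₀ : ℂ) ^ 2) / (1 + z₀ * u) ^ 2 =
      (1 * (1 + (z₀ : ℂ) * u) - (u + (z₀ : ℂ)) * z₀) / (1 + (z₀ : ℂ) * u) ^ 2 := by
    congr 1
    ring
  rw [e]
  exact h3

end

/-- the path in the strip -/
noncomputable def om (ξ : ℝ) (u : ℂ) : ℂ := pt ξ (π / 2) + Complex.log ((1 - u) / (1 + u))

theorem one_add_neC {u : ℂ} (hu : ‖u‖ < 1) : 1 + u ≠ 0 := by
  intro h
  have h1 : u = -1 := by linear_combination h
  rw [h1, norm_neg, norm_one] at hu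
  exact lt_irrefl _ hu

theorem one_sub_neC {u : ℂ} (hu : ‖u‖ < 1) : 1 - u ≠ 0 := by
  intro h
  have h1 : u = 1 := by linear_combination -h
  rw [h1, norm_one] at hu
  exact lt_irrefl _ hu

theorem quot_re {u : ℂ} (hu : ‖u‖ < 1) : 0 < ((1 - u) / (1 + u)).re := by
  have h1 := one_add_neC hu
  have h2 : 0 < Complex.normSq (1 + u) := Complex.normSq_pos.mpr h1
  have h3 : u.re ^ 2 + u.im ^ 2 < 1 := by
    have h4 : ‖u‖ ^ 2 = u.re ^ 2 + u.im ^ 2 := by
      rw [← Complex.normSq_eq_norm_sq, Complex.normSq_apply]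
      ring
    rw [← h4]
    (clear * - hu; nlinarith only [norm_nonneg u, hu])
  rw [Complex.div_re, ← add_div]
  apply div_pos _ h2
  simp only [Complex.sub_re, Complex.sub_im, Complex.add_re, Complex.add_im, Complex.one_re,
    Complex.one_im, zero_sub, zero_add]
  (clear * - h3; linarith only [h3])

theorem om_deriv (ξ : ℝ) {u : ℂ} (hu : ‖u‖ < 1) : HasDerivAt (om ξ) (-2 / (1 - u ^ 2)) u := by
  have h1 := one_add_neC hu
  have h2 := one_sub_neC hu
  have h3 : HasDerivAt (fun u : ℂ => (1 - u) / (1 + u))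
      ((-1 * (1 + u) - (1 - u) * 1) / (1 + u) ^ 2) u :=
    ((hasDerivAt_id u).const_sub 1).div ((hasDerivAt_id u).const_add 1) h1
  have h4 := (h3.clog (Or.inl (quot_re hu))).const_add (pt ξ (π / 2))
  have e : (-1 * (1 + u) - (1 - u) * 1) / (1 + u) ^ 2 / ((1 - u) / (1 + u)) =
      -2 / (1 - u ^ 2) := by
    have h5 : 1 - u ^ 2 = (1 - u) * (1 + u) := by ring
    rw [h5]
    field_simp
    ring
  rw [e] at h4
  exact h4

theorem om_exp (ξ : ℝ) {u : ℂ} (hu : ‖u‖ < 1) :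
    Complex.exp (om ξ u) = (Real.exp ξ : ℂ) * I * ((1 - u) / (1 + u)) := by
  unfold om
  rw [Complex.exp_add, Complex.exp_log, exp_pt_half]
  exact div_ne_zero (one_sub_neC hu) (one_add_neC hu)

theorem om_zero (ξ : ℝ) : om ξ 0 = pt ξ (π / 2) := by simp [om]

/-- `zf (om u) = mob u` and the chain rule -/
theorem om_zf {ξ z₀ r : ℝ} (hz : z₀ = (1 - Real.exp ξ) / (1 + Real.exp ξ)) (hz₀ : 0 < z₀)
    (hz1 : z₀ < 1) (hr1 : r ≤ z₀) {u : ℂ} (hu : u ∈ ball (0:ℂ) r) :
    zf (om ξ u) = mob z₀ u ∧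
      zd (om ξ u) * (-2 / (1 - u ^ 2)) = (1 - (z₀ : ℂ) ^ 2) / (1 + z₀ * u) ^ 2 := by
  have hu1 : ‖u‖ < 1 := by
    rw [mem_ball_zero_iff] at hu
    linarith only [hz1, hr1, hu]
  have hy := Real.exp_pos ξ
  have hE := om_exp ξ hu1
  have h1 := one_add_neC hu1
  have h2 := one_sub_neC hu1
  have h3 := mob_den hz₀ hz1 hr1 hu
  set y := Real.exp ξ with hydef
  have hy1 : (1 + (y : ℂ)) ≠ 0 := by
    have : (1 + y : ℝ) ≠ 0 := by positivity
    exact_mod_cast this
  have hzc : (z₀ : ℂ) = (1 - y) / (1 + y) := by rw [hz]; push_cast; ring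
  have h4 : (1 + (z₀ : ℂ) * u) * (1 + y) = 1 + u + y * (1 - u) := by
    rw [hzc]
    field_simp
    ring
  have h5 : 1 + u + (y : ℂ) * (1 - u) ≠ 0 := by
    rw [← h4]
    exact mul_ne_zero h3 hy1
  have h6 : (u + (z₀ : ℂ)) * (1 + y) = 1 + u - y * (1 - u) := by
    rw [hzc]
    field_simp
    ring
  have hI := I_ne_zero
  constructor
  · unfold zf mob
    rw [hE]
    have e1 : I - (y : ℂ) * I * ((1 - u) / (1 + u)) = I * (1 + u - y * (1 - u)) / (1 + u) := by
      (clear * - h1 hI; field_simp)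
    have e2 : I + (y : ℂ) * I * ((1 - u) / (1 + u)) = I * (1 + u + y * (1 - u)) / (1 + u) := by
      field_simp
    rw [e1, e2, ← h4, ← h6]
    (clear * - hI hy1 h1; field_simp)
  · unfold zd
    rw [hE]
    have e2 : (y : ℂ) * I * ((1 - u) / (1 + u)) + I = I * ((1 + (z₀ : ℂ) * u) * (1 + y)) /
        (1 + u) := by
      rw [h4]
      field_simp
      ring
    have e3 : 1 - (z₀ : ℂ) ^ 2 = 4 * y / (1 + y) ^ 2 := by
      rw [hzc]
      field_simp
      ring
    have e4 : 1 - u ^ 2 = (1 - u) * (1 + u) := by ring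
    rw [e2, e3, e4]
    field_simp
    ring_nf

/-- **the area inequality on the centre line** -/
theorem centre_be {β : ℂ → ℂ} {R : ℝ} (h : ExtR β R) {a : ℝ} (ha : 0 < a) (ha1 : a < 1) {ξ : ℝ}
    (h1 : Real.log (tau a) < ξ) (h2 : ξ < 0) {r : ℝ}
    (hr : r = (max ((1 + Real.exp ξ) / (1 - Real.exp ξ))
      ((Real.exp ξ + tau a) / (Real.exp ξ - tau a)))⁻¹) {X X1 X2 : ℂ}
    (hX : X = Xf β a (pt ξ (π / 2))) (hX1 : X1 = deriv (Xf β a) (pt ξ (π / 2)))
    (hX2 : X2 = deriv (deriv (Xf β a)) (pt ξ (π / 2))) :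
    X ≠ 0 ∧ 0 < r ∧ r < 1 ∧ r ^ 2 * ‖X1 / X‖ ^ 2 +
      2 * r ^ 4 * ‖(1 - X ^ 2 + 2 * (X2 / X) - 3 / 2 * (X1 / X) ^ 2) / 3‖ ^ 2 ≤
      -2 * Real.log (r * ‖X‖) := by
  have hτ : 0 < tau a := by
    unfold tau
    have : 0 < 1 - a := by linarith only [ha1]
    (clear * - ha1 ha; positivity)
  have hy0 : 0 < Real.exp ξ := Real.exp_pos ξ
  have hy1 : Real.exp ξ < 1 := by
    rw [← Real.exp_zero]
    exact Real.exp_lt_exp.mpr h2
  have hyτ : tau a < Real.exp ξ := (Real.log_lt_iff_lt_exp hτ).mp h1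
  have hE := h.toExt
  have hat : a = (1 - tau a) / (1 + tau a) := by
    unfold tau
    field_simp
    ring
  obtain ⟨z₀, hz₀⟩ : ∃ z₀ : ℝ, z₀ = (1 - Real.exp ξ) / (1 + Real.exp ξ) := ⟨_, rfl⟩
  have hzpos : 0 < z₀ := by rw [hz₀]; exact div_pos (by (clear * - hy1; linarith only [hy1])) (by (clear * - hy0; linarith only [hy0]))
  have hza : z₀ < a := by
    rw [hat, hz₀, div_lt_div_iff₀ (by linarith only [hy0]) (by linarith only [hτ])]
    linarith only [hyτ]
  have hz1 : z₀ < 1 := hza.trans ha1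
  set m := max ((1 + Real.exp ξ) / (1 - Real.exp ξ))
      ((Real.exp ξ + tau a) / (Real.exp ξ - tau a)) with hm
  have hm1 : (1 + Real.exp ξ) / (1 - Real.exp ξ) ≤ m := le_max_left _ _
  have hm2 : (Real.exp ξ + tau a) / (Real.exp ξ - tau a) ≤ m := le_max_right _ _
  have hmpos : 0 < m := lt_of_lt_of_le (div_pos (by (clear * - hy0; linarith only [hy0])) (by linarith only [hy1])) hm1
  have hr0 : 0 < r := by rw [hr]; exact inv_pos.mpr hmpos
  have hr1 : r ≤ z₀ := by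
    rw [hr, inv_le_comm₀ hmpos hzpos, hz₀, inv_div]
    exact hm1
  have hr2 : r * (1 - a * z₀) ≤ a - z₀ := by
    have e1 : 1 - a * z₀ = 2 * (Real.exp ξ + tau a) / ((1 + tau a) * (1 + Real.exp ξ)) := by
      rw [hz₀]
      nth_rewrite 1 [hat]
      field_simp
      ring
    have e2 : a - z₀ = 2 * (Real.exp ξ - tau a) / ((1 + tau a) * (1 + Real.exp ξ)) := by
      rw [hz₀]
      nth_rewrite 1 [hat]
      field_simp
      ring
    rw [e1, e2, hr, inv_mul_le_iff₀ hmpos, ← mul_div_assoc]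
    apply div_le_div_of_nonneg_right _ (by positivity)
    rw [div_le_iff₀ (by linarith only [hyτ])] at hm2
    (clear * - hm2; linarith only [hm2])
  have hrlt : r < 1 := lt_of_le_of_lt hr1 hz1
  -- the univalent function
  have hmem : ∀ z ∈ ball (0:ℂ) 1, (r : ℂ) * z ∈ ball (0:ℂ) r := by
    intro z hz
    rw [mem_ball_zero_iff] at hz ⊢
    rw [norm_mul, Complex.norm_real, Real.norm_of_nonneg hr0.le]
    (clear * - hr0 hz; nlinarith only [hr0, hz])
  have h0b : (0:ℂ) ∈ ball (0:ℂ) 1 := mem_ball_self one_pos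
  have hb0 : ball (0:ℂ) 1 ∈ 𝓝 (0:ℂ) := ball_mem_nhds 0 one_pos
  have haB : (a : ℂ) ∈ ball (0:ℂ) 1 := by
    rw [mem_ball_zero_iff, Complex.norm_real, Real.norm_of_nonneg ha.le]
    exact ha1
  have ha0 : (a : ℂ) ≠ 0 := by exact_mod_cast ha.ne'
  have hrc : (r : ℂ) ≠ 0 := by exact_mod_cast hr0.ne'
  have hne : ∀ u ∈ ball (0:ℂ) r, phi β (mob z₀ u) - phi β a ≠ 0 := by
    intro u hu h0
    exact mob_ne_a ha1 hzpos hza hr1 hr2 hu (hE.inj _ _ (mob_mem hzpos hz1 hr1 hu) haB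
      (mob_ne_zero hzpos hz1 hr1 hu) ha0 (sub_eq_zero.mp h0))
  have hmob0 : mob z₀ 0 = z₀ := by simp [mob]
  set K : ℂ := phi β z₀ - phi β a with hK
  have hK0 : K ≠ 0 := by
    have := hne 0 (mem_ball_self hr0)
    rwa [hmob0] at this
  set g : ℂ → ℂ := fun z => (phi β (mob z₀ (r * z)) - phi β a) / K with hg
  have hgder : ∀ z ∈ ball (0:ℂ) 1, HasDerivAt g (dphi β (mob z₀ (r * z)) *
      (((1 - (z₀ : ℂ) ^ 2) / (1 + z₀ * (r * z)) ^ 2) * r) / K) z := by
    intro z hz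
    have hu := hmem z hz
    have d1 : HasDerivAt (fun z : ℂ => (r : ℂ) * z) (r : ℂ) z := by
      simpa using (hasDerivAt_id z).const_mul (r : ℂ)
    have d2 := (mob_deriv (mob_den hzpos hz1 hr1 hu)).comp z d1
    have d3 := (hasDerivAt_phi hE.diff (mob_mem hzpos hz1 hr1 hu)
      (mob_ne_zero hzpos hz1 hr1 hu)).comp z d2
    exact (d3.sub_const _).div_const K
  have hgd : DifferentiableOn ℂ g (ball 0 1) := fun z hz =>
    (hgder z hz).differentiableAt.differentiableWithinAt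
  have hgne : ∀ z ∈ ball (0:ℂ) 1, g z ≠ 0 := fun z hz => div_ne_zero (hne _ (hmem z hz)) hK0
  have hg0 : g 0 = 1 := by
    simp only [hg, mul_zero, hmob0]
    exact div_self hK0
  have hgi : InjOn g (ball 0 1) := by
    intro z hz w hw hzw
    simp only [hg] at hzw
    rw [div_left_inj' hK0] at hzw
    have e1 : phi β (mob z₀ (r * z)) = phi β (mob z₀ (r * w)) := by linear_combination hzw
    have e2 := hE.inj _ _ (mob_mem hzpos hz1 hr1 (hmem z hz)) (mob_mem hzpos hz1 hr1 (hmem w hw))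
      (mob_ne_zero hzpos hz1 hr1 (hmem z hz)) (mob_ne_zero hzpos hz1 hr1 (hmem w hw)) e1
    exact mul_left_cancel₀ hrc (mob_inj hzpos hz1 hr1 (hmem z hz) (hmem w hw) e2)
  obtain ⟨L, hLd, hL0, hLe⟩ := Pool.Agent.Helper24.Br.exists_log_ball hgd hgne hg0
  have hLi : InjOn (fun z => Complex.exp (L z)) (ball 0 1) := by
    intro z hz w hw hzw
    simp only at hzw
    rw [hLe z hz, hLe w hw] at hzw
    exact hgi hz hw hzw
  -- the functions in the strip
  set P : ℂ → ℂ := fun z => Xf β a (om ξ (r * z)) with hP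
  set Q : ℂ → ℂ := fun z => deriv (Xf β a) (om ξ (r * z)) with hQ
  set S : ℂ → ℂ := fun z => deriv (deriv (Xf β a)) (om ξ (r * z)) with hS
  set w : ℂ → ℂ := fun z => (1 - ((r : ℂ) * z) ^ 2)⁻¹ with hw
  have hL' : ∀ z ∈ ball (0:ℂ) 1, deriv L z = -4 * r * (P z * w z) := by
    intro z hz
    have hu := hmem z hz
    have e1 : HasDerivAt (fun z => Complex.exp (L z)) (Complex.exp (L z) * deriv L z) z :=
      ((hLd.differentiableAt (isOpen_ball.mem_nhds hz)).hasDerivAt).cexp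
    have e2 : (fun z => Complex.exp (L z)) =ᶠ[𝓝 z] g := by
      filter_upwards [isOpen_ball.mem_nhds hz] with v hv
      exact hLe v hv
    have e3 := e1.unique ((hgder z hz).congr_of_eventuallyEq e2)
    obtain ⟨o1, o2⟩ := om_zf hz₀ hzpos hz1 hr1 hu
    have n1 := hne _ hu
    have e4 : deriv L z = dphi β (mob z₀ (r * z)) *
      (((1 - (z₀ : ℂ) ^ 2) / (1 + z₀ * (r * z)) ^ 2) * r) / (phi β (mob z₀ (r * z)) - phi β a) := by
      rw [hLe z hz] at e3
      simp only [hg] at e3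
      have e5 : (phi β (mob z₀ (r * z)) - phi β a) * deriv L z = dphi β (mob z₀ (r * z)) *
          (((1 - (z₀ : ℂ) ^ 2) / (1 + z₀ * (r * z)) ^ 2) * r) := by
        apply mul_right_cancel₀ (inv_ne_zero hK0)
        rw [← div_eq_mul_inv, ← div_eq_mul_inv, ← e3]
        ring
      rw [← e5]
      (clear * - n1; field_simp)
    rw [e4, ← o2]
    simp only [hP, hw]
    unfold Xf
    rw [o1]
    field_simp
    ring
  -- analyticity of X
  obtain ⟨x₁, hx₁, hx₁'⟩ := exists_between h1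
  obtain ⟨x₂, hx₂, hx₂'⟩ := exists_between h2
  have hN := Pool.Agent.Helper67.EK.E1c h ha ha1 hx₁ hx₂'
  have hω0 : pt ξ (π / 2) ∈ Rect x₁ x₂ := by
    unfold Rect
    rw [Complex.mem_reProdIm]
    have e1 : (pt ξ (π / 2)).re = ξ := by simp [pt]
    have e2 : (pt ξ (π / 2)).im = π / 2 := by simp [pt]
    rw [e1, e2]
    have := Real.pi_pos
    exact ⟨⟨hx₁'.le, hx₂.le⟩, ⟨by (clear * - this; linarith only [this]), by linarith only [this]⟩⟩
  have hXa : AnalyticAt ℂ (Xf β a) (pt ξ (π / 2)) := hN.an _ hω0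
  have hX0 : X ≠ 0 := by rw [hX]; exact hN.ne _ hω0
  have hrz : HasDerivAt (fun z : ℂ => (r : ℂ) * z) (r : ℂ) 0 := by
    simpa using (hasDerivAt_id (0:ℂ)).const_mul (r : ℂ)
  have homd : ∀ z ∈ ball (0:ℂ) 1, HasDerivAt (fun z => om ξ (r * z)) (-2 * r * w z) z := by
    intro z hz
    have hu := hmem z hz
    have hu1 : ‖(r : ℂ) * z‖ < 1 := by
      rw [mem_ball_zero_iff] at hu
      linarith only [hrlt, hu]
    have d1 : HasDerivAt (fun z : ℂ => (r : ℂ) * z) (r : ℂ) z := by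
      simpa using (hasDerivAt_id z).const_mul (r : ℂ)
    have d2 := (om_deriv ξ hu1).comp z d1
    have e1 : -2 * r * w z = -2 / (1 - ((r : ℂ) * z) ^ 2) * r := by
      simp only [hw]
      ring
    rw [e1]
    exact d2
  have hom0 : om ξ ((r : ℂ) * 0) = pt ξ (π / 2) := by rw [mul_zero, om_zero]
  have hev : ∀ᶠ z in 𝓝 (0:ℂ), AnalyticAt ℂ (Xf β a) (om ξ (r * z)) := by
    have hc : ContinuousAt (fun z => om ξ (r * z)) 0 := (homd 0 h0b).continuousAt
    have e1 := hXa.eventually_analyticAt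
    rw [← hom0] at e1
    exact hc.eventually e1
  have hev1 : ∀ᶠ z in 𝓝 (0:ℂ), HasDerivAt P (-2 * r * w z * Q z) z ∧
      HasDerivAt Q (-2 * r * w z * S z) z ∧ HasDerivAt w (2 * (r : ℂ) ^ 2 * z * (w z * w z)) z := by
    filter_upwards [hev, hb0] with z hz hzb
    have e1 := homd z hzb
    have e2 := hz.differentiableAt.hasDerivAt.comp z e1
    have e3 := hz.deriv.differentiableAt.hasDerivAt.comp z e1
    have hu := hmem z hzb
    have hu1 : ‖(r : ℂ) * z‖ < 1 := by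
      rw [mem_ball_zero_iff] at hu
      linarith only [hrlt, hu]
    have e4 : (1 - ((r : ℂ) * z) ^ 2) ≠ 0 := by
      have e5 : 1 - ((r : ℂ) * z) ^ 2 = (1 - r * z) * (1 + r * z) := by ring
      rw [e5]
      exact mul_ne_zero (one_sub_neC hu1) (one_add_neC hu1)
    refine ⟨?_, ?_, ?_⟩
    · have e6 : -2 * r * w z * Q z = deriv (Xf β a) (om ξ (r * z)) * (-2 * r * w z) := by
        simp only [hQ]
        ring
      rw [e6]
      exact e2
    · have e6 : -2 * r * w z * S z = deriv (deriv (Xf β a)) (om ξ (r * z)) * (-2 * r * w z) := by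
        simp only [hS]
        ring
      rw [e6]
      exact e3
    · have d1 : HasDerivAt (fun z : ℂ => (r : ℂ) * z) (r : ℂ) z := by
        simpa using (hasDerivAt_id z).const_mul (r : ℂ)
      have d2 := ((d1.pow 2).const_sub 1).inv e4
      have e6 : 2 * (r : ℂ) ^ 2 * z * (w z * w z) =
          -(-(((2 : ℕ) : ℂ) * ((r : ℂ) * z) ^ (2 - 1) * r)) / (1 - ((r : ℂ) * z) ^ 2) ^ 2 := by
        simp only [hw]
        push_cast
        (clear * - hrc; field_simp)
      rw [e6]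
      exact d2
  have hev2 : ∀ᶠ z in 𝓝 (0:ℂ), deriv (deriv L) z =
      -4 * r * (-2 * r * (w z * w z) * Q z + 2 * (r : ℂ) ^ 2 * z * (w z * w z) * P z) := by
    have hb1 : ∀ᶠ z in 𝓝 (0:ℂ), deriv L =ᶠ[𝓝 z] fun z => -4 * r * (P z * w z) := by
      filter_upwards [hb0] with z hz
      filter_upwards [isOpen_ball.mem_nhds hz] with v hv
      exact hL' v hv
    filter_upwards [hev1, hb1] with z hz hzb
    rw [hzb.deriv_eq]
    have e1 := ((hz.1.mul hz.2.2).const_mul (-4 * (r : ℂ))).deriv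
    refine e1.trans ?_
    ring
  have hw0 : w 0 = 1 := by simp [hw]
  have hP0 : P 0 = X := by simp only [hP]; rw [hom0, hX]
  have hQ0 : Q 0 = X1 := by simp only [hQ]; rw [hom0, hX1]
  have hS0 : S 0 = X2 := by simp only [hS]; rw [hom0, hX2]
  have v1 : deriv L 0 = -4 * r * X := by
    rw [hL' 0 h0b, hP0, hw0, mul_one]
  have v2 : deriv (deriv L) 0 = 8 * (r : ℂ) ^ 2 * X1 := by
    rw [hev2.self_of_nhds, hw0, hQ0]
    ring
  have v3 : deriv (deriv (deriv L)) 0 = -16 * (r : ℂ) ^ 3 * X2 - 8 * (r : ℂ) ^ 3 * X := by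
    have hev2' : deriv (deriv L) =ᶠ[𝓝 (0:ℂ)] fun z =>
      -4 * r * (-2 * r * (w z * w z) * Q z + 2 * (r : ℂ) ^ 2 * z * (w z * w z) * P z) := hev2
    rw [hev2'.deriv_eq]
    obtain ⟨p1, p2, p3⟩ := hev1.self_of_nhds
    have e1 := (((((p3.mul p3).const_mul (-2 * (r : ℂ))).mul p2).add
      ((((hasDerivAt_id (0:ℂ)).const_mul (2 * (r : ℂ) ^ 2)).mul (p3.mul p3)).mul p1)).const_mul
        (-4 * (r : ℂ))).deriv
    refine e1.trans ?_
    simp only [Pi.mul_apply, id, hw0, hP0, hQ0, hS0, mul_zero, zero_mul, mul_one, add_zero,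
      zero_add]
    ring
  have c1 : coeff L 1 = -4 * r * X := by rw [coeff_one, v1]
  have c2 : coeff L 2 = 4 * (r : ℂ) ^ 2 * X1 := by
    have e1 := coeff_deriv L 1
    rw [coeff_one, v2] at e1
    push_cast at e1
    linear_combination -e1 / 2
  have c3 : coeff L 3 = -(8 * (r : ℂ) ^ 3 * X2 + 4 * (r : ℂ) ^ 3 * X) / 3 := by
    have e1 := coeff_deriv L 2
    have e2 := coeff_deriv (deriv L) 1
    rw [coeff_one, v3] at e2
    push_cast at e1 e2
    linear_combination -e1 / 3 - e2 / 6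
  obtain ⟨-, hbe⟩ := be_two hLd hL0 hLi c1 c2 c3
  refine ⟨hX0, hr0, hrlt, ?_⟩
  have n1 : ‖(4 * (r : ℂ) ^ 2 * X1) / (-4 * r * X)‖ ^ 2 = r ^ 2 * ‖X1 / X‖ ^ 2 := by
    have e1 : (4 * (r : ℂ) ^ 2 * X1) / (-4 * r * X) = -((r : ℂ) * (X1 / X)) := by
      (clear * - hX0 hrc; field_simp)
    rw [e1, norm_neg, norm_mul, Complex.norm_real, Real.norm_of_nonneg hr0.le, mul_pow]
  have n2 : ‖-(8 * (r : ℂ) ^ 3 * X2 + 4 * (r : ℂ) ^ 3 * X) / 3 / (-4 * r * X) -
      ((4 * (r : ℂ) ^ 2 * X1) / (-4 * r * X)) ^ 2 / 2 - (-4 * r * X) ^ 2 / 48‖ ^ 2 =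
      r ^ 4 * ‖(1 - X ^ 2 + 2 * (X2 / X) - 3 / 2 * (X1 / X) ^ 2) / 3‖ ^ 2 := by
    have e1 : -(8 * (r : ℂ) ^ 3 * X2 + 4 * (r : ℂ) ^ 3 * X) / 3 / (-4 * r * X) -
      ((4 * (r : ℂ) ^ 2 * X1) / (-4 * r * X)) ^ 2 / 2 - (-4 * r * X) ^ 2 / 48 =
      ((r ^ 2 : ℝ) : ℂ) * ((1 - X ^ 2 + 2 * (X2 / X) - 3 / 2 * (X1 / X) ^ 2) / 3) := by
      push_cast
      field_simp
      ring
    rw [e1, norm_mul, Complex.norm_real, Real.norm_of_nonneg (by positivity), mul_pow]
    ring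
  have n3 : ‖-4 * (r : ℂ) * X‖ / 4 = r * ‖X‖ := by
    rw [norm_mul, norm_mul, Complex.norm_real, Real.norm_of_nonneg hr0.le, norm_neg]
    have e1 : ‖(4:ℂ)‖ = 4 := by simp
    rw [e1]
    ring
  rw [n1, n2, n3] at hbe
  (clear * - hbe; linarith only [hbe])

end Pool.Agent.Helper84.EK

end

section

namespace Pool.Agent.Helper39.Area
end Pool.Agent.Helper39.Area

set_option autoImplicit false

open Complex Metric Set

open scoped ComplexConjugate

namespace Pool.Agent.Helper5.CK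

open Pool.Agent.Helper39.Area

/-- the tangential vector field `z h(z)` has a simple pole at `p` and `h` is imaginary on the
unit circle -/
noncomputable def hh (p τ z : ℂ) : ℂ :=
  (1 / 2) * (τ * ((z + p) / (z - p)) - conj τ * ((1 + conj p * z) / (1 - conj p * z)))

/-- inner map -/
noncomputable def psi (p τ z : ℂ) : ℂ := z * Complex.exp (hh p τ z)

/-- coefficient of the outer map `w ↦ w + eps / (w - phi p)` -/
noncomputable def eps (β : ℂ → ℂ) (p τ : ℂ) : ℂ := -(τ * p ^ 2 * dphi β p ^ 2)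

/-- first variation -/
noncomputable def VV (β : ℂ → ℂ) (p τ z : ℂ) : ℂ :=
  eps β p τ / (phi β z - phi β p) + dphi β z * (z * hh p τ z)

/-- The variation lemma. -/
def Variation : Prop :=
  ∀ η : ℝ, 0 < η → ∃ C t0 : ℝ, 0 < C ∧ 0 < t0 ∧ ∀ β : ℂ → ℂ, Ext β → ∀ p : ℂ, η ≤ ‖p‖ → ‖p‖ ≤ 1 - η →
    ∀ τ : ℂ, ‖τ‖ ≤ t0 → ∃ γ : ℂ → ℂ, Ext γ ∧ ∀ z : ℂ, η ≤ ‖z‖ → ‖z‖ ≤ 1 - η → η ≤ ‖z - p‖ →
      ‖deriv γ z - deriv β z - deriv (fun z => VV β p τ z - (τ.re : ℂ) * phi β z) z‖ ≤ C * ‖τ‖ ^ 2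

theorem hh_smul (p B z : ℂ) (t : ℝ) : hh p (t * B) z = t * hh p B z := by
  unfold hh
  rw [map_mul, Complex.conj_ofReal]
  ring

end Pool.Agent.Helper5.CK

end

section

namespace Pool.Agent.Helper39.Area
end Pool.Agent.Helper39.Area

set_option autoImplicit false

open Complex Metric Set Filter Topology

open scoped ComplexConjugate

namespace Pool.Agent.Helper5.CK

open Pool.Agent.Helper39.Area

/-- the map `W ∘ phi ∘ psi` -/
noncomputable def gg (β : ℂ → ℂ) (p τ z : ℂ) : ℂ :=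
  phi β (psi p τ z) + eps β p τ / (phi β (psi p τ z) - phi β p)

theorem psi_ne {p τ z : ℂ} (hz : z ≠ 0) : psi p τ z ≠ 0 :=
  mul_ne_zero hz (Complex.exp_ne_zero _)

theorem one_sub_ne {p z : ℂ} (hp : ‖p‖ < 1) (hz : ‖z‖ < 1) : 1 - conj p * z ≠ 0 := by
  intro h
  have h1 : conj p * z = 1 := (sub_eq_zero.mp h).symm
  have h2 : ‖conj p * z‖ = 1 := by rw [h1, norm_one]
  rw [norm_mul, RCLike.norm_conj] at h2
  nlinarith only [norm_nonneg z, hp, hz, h2]

theorem hh_diff {p τ z : ℂ} (hp : ‖p‖ < 1) (hz : ‖z‖ < 1) (hzp : z ≠ p) :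
    DifferentiableAt ℂ (hh p τ) z := by
  have h1 : z - p ≠ 0 := sub_ne_zero.mpr hzp
  have h2 := one_sub_ne hp hz
  unfold hh
  fun_prop (disch := assumption)

theorem psi_diff {p τ z : ℂ} (hp : ‖p‖ < 1) (hz : ‖z‖ < 1) (hzp : z ≠ p) :
    DifferentiableAt ℂ (psi p τ) z := by
  have h1 := hh_diff (τ := τ) hp hz hzp
  unfold psi
  exact differentiableAt_id.mul h1.cexp

theorem gg_diff {β : ℂ → ℂ} (h : Ext β) {p τ z : ℂ} (hp : ‖p‖ < 1) (hz : ‖z‖ < 1) (hz0 : z ≠ 0)
    (hzp : z ≠ p) (h1 : ‖psi p τ z‖ < 1) (h2 : phi β (psi p τ z) - phi β p ≠ 0) :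
    DifferentiableAt ℂ (gg β p τ) z := by
  have h3 := psi_diff (τ := τ) hp hz hzp
  have h4 : DifferentiableAt ℂ (phi β) (psi p τ z) :=
    (hasDerivAt_phi h.diff (by simpa using h1) (psi_ne hz0)).differentiableAt
  have h5 : DifferentiableAt ℂ (fun z => phi β (psi p τ z)) z := h4.comp z h3
  unfold gg
  exact h5.add ((differentiableAt_const _).div (h5.sub (differentiableAt_const _)) h2)

theorem W_lower {a b w e : ℂ} {c : ℝ} (hc : 0 < c) (ha : c ≤ ‖a - w‖) (hb : c ≤ ‖b - w‖)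
    (he : ‖e‖ ≤ c ^ 2 / 2) : ‖a - b‖ / 2 ≤ ‖(a + e / (a - w)) - (b + e / (b - w))‖ := by
  have ha0 : a - w ≠ 0 := by
    intro h; rw [h, norm_zero] at ha; (clear * - hc ha; linarith only [hc, ha])
  have hb0 : b - w ≠ 0 := by
    intro h; rw [h, norm_zero] at hb; (clear * - hc hb; linarith only [hc, hb])
  have h1 : (a + e / (a - w)) - (b + e / (b - w)) = (a - b) * (1 - e / ((a - w) * (b - w))) := by
    field_simp
    ring
  rw [h1, norm_mul, div_eq_mul_inv]
  apply mul_le_mul_of_nonneg_left _ (norm_nonneg _)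
  have h2 : ‖e / ((a - w) * (b - w))‖ ≤ 1 / 2 := by
    rw [norm_div, norm_mul, div_le_iff₀ (by positivity)]
    have : c ^ 2 ≤ ‖a - w‖ * ‖b - w‖ := by
      rw [pow_two]; exact mul_le_mul ha hb hc.le (norm_nonneg _)
    linarith only [he, this]
  have h3 := norm_sub_norm_le (1:ℂ) (e / ((a - w) * (b - w)))
  rw [norm_one] at h3
  norm_num
  (clear * - h2 h3; linarith only [h2, h3])

theorem hh_zero (p τ : ℂ) (hp : p ≠ 0) : hh p τ 0 = -(τ.re : ℂ) := by
  have h1 : (τ.re : ℂ) = (τ + conj τ) / 2 := by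
    rw [Complex.add_conj]; push_cast; ring
  unfold hh
  rw [h1]
  simp only [zero_add, zero_sub, mul_zero, add_zero, sub_zero, div_one, mul_one]
  rw [div_neg, div_self hp]
  ring

theorem eps_norm {β : ℂ → ℂ} {p τ : ℂ} {M : ℝ} (hp : ‖p‖ ≤ 1) (h : ‖dphi β p‖ ≤ M) :
    ‖eps β p τ‖ ≤ M ^ 2 * ‖τ‖ := by
  unfold eps
  rw [norm_neg, norm_mul, norm_mul, norm_pow, norm_pow]
  have h1 : ‖dphi β p‖ ^ 2 ≤ M ^ 2 := pow_le_pow_left₀ (norm_nonneg _) h 2
  have h2 : ‖p‖ ^ 2 ≤ 1 := pow_le_one₀ (norm_nonneg _) hp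
  calc ‖τ‖ * ‖p‖ ^ 2 * ‖dphi β p‖ ^ 2 ≤ ‖τ‖ * 1 * M ^ 2 := by
        apply mul_le_mul _ h1 (by (clear * -; positivity)) (by (clear * -; positivity))
        exact mul_le_mul_of_nonneg_left h2 (norm_nonneg _)
    _ = M ^ 2 * ‖τ‖ := by ring

/-- the pole of `gg` at the origin -/
theorem gg_lim {β : ℂ → ℂ} (h : Ext β) {p τ : ℂ} (hp : ‖p‖ < 1) (hp0 : p ≠ 0) {c : ℝ} (hc : 0 < c)
    (hb : ∀ᶠ z in 𝓝[≠] (0:ℂ), c ≤ ‖phi β (psi p τ z) - phi β p‖) :
    Tendsto (fun z => z * gg β p τ z) (𝓝[≠] 0) (𝓝 (Real.exp τ.re : ℂ)) := by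
  have h0 : ‖(0:ℂ)‖ < 1 := by simp
  have hψ : ContinuousAt (psi p τ) 0 := (psi_diff (τ := τ) hp h0 (Ne.symm hp0)).continuousAt
  have hψ0 : psi p τ 0 = 0 := by simp [psi]
  have hβ : ContinuousAt β (psi p τ 0) := by
    rw [hψ0]
    exact (h.diff.differentiableAt (ball_mem_nhds 0 one_pos)).continuousAt
  have hβψ : ContinuousAt (fun z => β (psi p τ z)) 0 := hβ.comp hψ
  have hh1 : ContinuousAt (fun z => Complex.exp (-hh p τ z)) 0 := by
    have := (hh_diff (τ := τ) hp h0 (Ne.symm hp0)).continuousAt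
    exact this.neg.cexp
  have h1 : Tendsto (fun z => Complex.exp (-hh p τ z) + z * β (psi p τ z)) (𝓝[≠] 0)
      (𝓝 (Real.exp τ.re : ℂ)) := by
    have h2 : ContinuousAt (fun z => Complex.exp (-hh p τ z) + z * β (psi p τ z)) 0 :=
      hh1.add (continuousAt_id.mul hβψ)
    have h3 := h2.tendsto.mono_left (nhdsWithin_le_nhds (s := {0}ᶜ))
    rw [hh_zero p τ hp0, neg_neg, zero_mul, add_zero] at h3
    rw [Complex.ofReal_exp]
    exact h3
  have h2 : Tendsto (fun z => z * (eps β p τ / (phi β (psi p τ z) - phi β p))) (𝓝[≠] 0) (𝓝 0) := by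
    rw [tendsto_zero_iff_norm_tendsto_zero]
    have h3 : Tendsto (fun z : ℂ => ‖z‖ * (‖eps β p τ‖ / c)) (𝓝[≠] 0) (𝓝 0) := by
      have : ContinuousAt (fun z : ℂ => ‖z‖ * (‖eps β p τ‖ / c)) 0 := by fun_prop
      have h4 := this.tendsto.mono_left (nhdsWithin_le_nhds (s := {0}ᶜ))
      simpa using h4
    apply squeeze_zero' (Eventually.of_forall fun z => norm_nonneg _) _ h3
    filter_upwards [hb] with z hz
    rw [norm_mul, norm_div]
    apply mul_le_mul_of_nonneg_left _ (norm_nonneg _)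
    exact div_le_div_of_nonneg_left (norm_nonneg _) hc hz
  have h3 := h1.add h2
  rw [add_zero] at h3
  apply h3.congr'
  filter_upwards [self_mem_nhdsWithin] with z hz
  have hz0 : z ≠ 0 := hz
  have h4 := Complex.exp_ne_zero (hh p τ z)
  unfold gg phi psi
  rw [mul_inv, ← Complex.exp_neg]
  field_simp

end Pool.Agent.Helper5.CK

end

section

namespace Pool.Agent.Helper5.CK
end Pool.Agent.Helper5.CK

set_option autoImplicit false

/-!
# Project CK (critical multiplier), module V2: the elementary maps of the interior variation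

Explicit constants for `hh p τ z`, `psi p τ z` of `Helper5.CK.Defs` and for the outer map
`WW e w0 w = w + e / (w - w0)`.
-/

namespace Pool.Agent.Helper47.CMV

open Complex ComplexConjugate Metric Set

open Pool.Agent.Helper5.CK

variable {p τ : ℂ} {ρ η : ℝ}

/-- the bound of `hh` -/
noncomputable def HH (ρ η : ℝ) : ℝ := 1 / ρ + 1 / η

/-- the Lipschitz constant of `hh` -/
noncomputable def LL (ρ η : ℝ) : ℝ := 1 / ρ ^ 2 + 1 / η ^ 2

theorem den_ge (hz0 : ‖p‖ ≤ 1 - η) {z : ℂ} (hz : ‖z‖ ≤ 1) :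
    η ≤ ‖1 - conj p * z‖ := by
  have h1 : ‖conj p * z‖ ≤ 1 - η := by
    rw [norm_mul, Complex.norm_conj]
    calc ‖p‖ * ‖z‖ ≤ ‖p‖ * 1 := mul_le_mul_of_nonneg_left hz (norm_nonneg _)
      _ = ‖p‖ := mul_one _
      _ ≤ 1 - η := hz0
  have h2 : ‖(1:ℂ)‖ - ‖conj p * z‖ ≤ ‖1 - conj p * z‖ := norm_sub_norm_le _ _
  rw [norm_one] at h2
  linarith only [h1, h2]

theorem den_ne (hη : 0 < η) (hz0 : ‖p‖ ≤ 1 - η) {z : ℂ} (hz : ‖z‖ ≤ 1) :
    1 - conj p * z ≠ 0 := by
  intro h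
  have := den_ge hz0 hz
  rw [h, norm_zero] at this
  (clear * - hη this; linarith only [hη, this])

theorem ne_of_dist (hρ : 0 < ρ) {z w : ℂ} (hd : ρ ≤ ‖z - w‖) : z - w ≠ 0 := by
  intro h
  rw [h, norm_zero] at hd
  linarith only [hρ, hd]

theorem hh_norm_le (hρ : 0 < ρ) (hη : 0 < η) (hz0 : ‖p‖ ≤ 1 - η) {z : ℂ}
    (hz : ‖z‖ ≤ 1) (hd : ρ ≤ ‖z - p‖) : ‖hh p τ z‖ ≤ ‖τ‖ * HH ρ η := by
  have h0 : ‖p‖ ≤ 1 := by linarith
  have h1 : ‖τ * ((z + p) / (z - p))‖ ≤ ‖τ‖ * (2 / ρ) := by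
    rw [norm_mul, norm_div]
    have h2 : ‖z + p‖ ≤ 2 := (norm_add_le _ _).trans (by (clear * - hz h0; linarith only [hz, h0]))
    exact mul_le_mul_of_nonneg_left (div_le_div₀ (by norm_num) h2 hρ hd) (norm_nonneg _)
  have h4 : ‖conj τ * ((1 + conj p * z) / (1 - conj p * z))‖ ≤ ‖τ‖ * (2 / η) := by
    rw [norm_mul, norm_div, Complex.norm_conj]
    have h2 : ‖1 + conj p * z‖ ≤ 2 := by
      refine (norm_add_le _ _).trans ?_
      rw [norm_one, norm_mul, Complex.norm_conj]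
      have : ‖p‖ * ‖z‖ ≤ 1 * 1 := mul_le_mul h0 hz (norm_nonneg _) zero_le_one
      linarith only [this]
    exact mul_le_mul_of_nonneg_left (div_le_div₀ (by norm_num) h2 hη (den_ge hz0 hz))
      (norm_nonneg _)
  unfold hh HH
  rw [norm_mul]
  have h5 : ‖(1 / 2 : ℂ)‖ = 1 / 2 := by
    rw [norm_div, norm_one, RCLike.norm_ofNat]
  rw [h5]
  have h6 := norm_sub_le (τ * ((z + p) / (z - p))) (conj τ * ((1 + conj p * z) / (1 - conj p * z)))
  have h7 : ‖τ‖ * (1 / ρ + 1 / η) = 1 / 2 * (‖τ‖ * (2 / ρ) + ‖τ‖ * (2 / η)) := by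
    ring
  rw [h7]
  exact mul_le_mul_of_nonneg_left (h6.trans (add_le_add h1 h4)) (by norm_num)

theorem hh_sub_eq {x y : ℂ} (h1 : x - p ≠ 0) (h2 : y - p ≠ 0)
    (h3 : 1 - conj p * x ≠ 0) (h4 : 1 - conj p * y ≠ 0) :
    hh p τ x - hh p τ y = -(x - y) * (τ * p / ((x - p) * (y - p)) +
      conj τ * conj p / ((1 - conj p * x) * (1 - conj p * y))) := by
  unfold hh
  generalize conj p = c at *
  generalize conj τ = d at *
  have e1 : (x + p) / (x - p) - (y + p) / (y - p) =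
      -(x - y) * (2 * p / ((x - p) * (y - p))) := by
    rw [div_sub_div _ _ h1 h2, ← mul_div_assoc]
    congr 1
    ring
  have e2 : (1 + c * x) / (1 - c * x) - (1 + c * y) / (1 - c * y) =
      (x - y) * (2 * c / ((1 - c * x) * (1 - c * y))) := by
    rw [div_sub_div _ _ h3 h4, ← mul_div_assoc]
    congr 1
    ring
  have e3 : (1 / 2 : ℂ) * (τ * ((x + p) / (x - p)) - d * ((1 + c * x) / (1 - c * x))) -
      (1 / 2 : ℂ) * (τ * ((y + p) / (y - p)) - d * ((1 + c * y) / (1 - c * y))) =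
      (1 / 2 : ℂ) * (τ * ((x + p) / (x - p) - (y + p) / (y - p)) -
        d * ((1 + c * x) / (1 - c * x) - (1 + c * y) / (1 - c * y))) := by ring
  rw [e3, e1, e2]
  ring

theorem hh_sub_le (hρ : 0 < ρ) (hη : 0 < η) (hz0 : ‖p‖ ≤ 1 - η) {x y : ℂ}
    (hx : ‖x‖ ≤ 1) (hy : ‖y‖ ≤ 1) (hdx : ρ ≤ ‖x - p‖) (hdy : ρ ≤ ‖y - p‖) :
    ‖hh p τ x - hh p τ y‖ ≤ ‖τ‖ * LL ρ η * ‖x - y‖ := by
  have h0 : ‖p‖ ≤ 1 := by linarith only [hη, hz0]
  rw [hh_sub_eq (ne_of_dist hρ hdx) (ne_of_dist hρ hdy) (den_ne hη hz0 hx) (den_ne hη hz0 hy),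
    norm_mul, norm_neg, mul_comm]
  refine mul_le_mul_of_nonneg_right ?_ (norm_nonneg _)
  have hBz : ‖τ‖ * ‖p‖ ≤ ‖τ‖ := by
    calc ‖τ‖ * ‖p‖ ≤ ‖τ‖ * 1 := mul_le_mul_of_nonneg_left h0 (norm_nonneg _)
      _ = ‖τ‖ := mul_one _
  have h1 : ‖τ * p / ((x - p) * (y - p))‖ ≤ ‖τ‖ / ρ ^ 2 := by
    rw [norm_div, norm_mul, norm_mul]
    refine div_le_div₀ (norm_nonneg _) hBz (by (clear * - hρ; positivity)) ?_
    rw [pow_two]
    exact mul_le_mul hdx hdy hρ.le (norm_nonneg _)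
  have h2 : ‖conj τ * conj p / ((1 - conj p * x) * (1 - conj p * y))‖ ≤ ‖τ‖ / η ^ 2 := by
    rw [norm_div, norm_mul, norm_mul, Complex.norm_conj, Complex.norm_conj]
    refine div_le_div₀ (norm_nonneg _) hBz (by positivity) ?_
    rw [pow_two]
    exact mul_le_mul (den_ge hz0 hx) (den_ge hz0 hy) hη.le (norm_nonneg _)
  unfold LL
  calc _ ≤ ‖τ‖ / ρ ^ 2 + ‖τ‖ / η ^ 2 := (norm_add_le _ _).trans (add_le_add h1 h2)
    _ = ‖τ‖ * (1 / ρ ^ 2 + 1 / η ^ 2) := by ring

theorem hh_re {z : ℂ} (h1 : z - p ≠ 0) (h2 : 1 - conj p * z ≠ 0) :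
    (hh p τ z).re =
      (1 - ‖z‖ ^ 2) * (τ * p / ((z - p) * (1 - p * conj z))).re := by
  have h3 : 1 - p * conj z ≠ 0 := by
    intro h
    apply h2
    have h4 := congrArg conj h
    simpa using h4
  have e1 : (conj τ * ((1 + conj p * z) / (1 - conj p * z))).re =
      (τ * ((1 + p * conj z) / (1 - p * conj z))).re := by
    rw [← Complex.conj_re]
    simp
  have e2 : (hh p τ z).re = (1 / 2) * (τ * ((z + p) / (z - p)) -
      τ * ((1 + p * conj z) / (1 - p * conj z))).re := by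
    unfold hh
    have : ((1 / 2 : ℂ) * (τ * ((z + p) / (z - p)) -
        conj τ * ((1 + conj p * z) / (1 - conj p * z)))).re =
        (1 / 2) * (τ * ((z + p) / (z - p)) -
        conj τ * ((1 + conj p * z) / (1 - conj p * z))).re := by
      have h5 : (1 / 2 : ℂ) = ((1 / 2 : ℝ) : ℂ) := by push_cast; ring
      rw [h5, Complex.re_ofReal_mul]
    rw [this, Complex.sub_re, e1, ← Complex.sub_re]
  have hz2 : z * conj z = ((‖z‖ ^ 2 : ℝ) : ℂ) := by
    rw [Complex.mul_conj, Complex.normSq_eq_norm_sq]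
  have e3 : τ * ((z + p) / (z - p)) - τ * ((1 + p * conj z) / (1 - p * conj z)) =
      ((2 * (1 - ‖z‖ ^ 2) : ℝ) : ℂ) * (τ * p / ((z - p) * (1 - p * conj z))) := by
    have h6 : ((2 * (1 - ‖z‖ ^ 2) : ℝ) : ℂ) = 2 * (1 - z * conj z) := by
      rw [hz2]; push_cast; ring
    rw [h6, ← mul_sub, div_sub_div _ _ h1 h3]
    field_simp
    ring
  rw [e2, e3, Complex.re_ofReal_mul]
  ring

theorem hh_re_abs_le (hρ : 0 < ρ) (hη : 0 < η) (hz0 : ‖p‖ ≤ 1 - η) {z : ℂ}
    (hz : ‖z‖ ≤ 1) (hd : ρ ≤ ‖z - p‖) :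
    |(hh p τ z).re| ≤ ‖τ‖ * (1 / (ρ * η)) * (1 - ‖z‖ ^ 2) := by
  have h0 : ‖p‖ ≤ 1 := by linarith
  have hz1 : 0 ≤ 1 - ‖z‖ ^ 2 := by (clear * - hz; nlinarith only [norm_nonneg z, hz])
  rw [hh_re (ne_of_dist hρ hd) (den_ne hη hz0 hz), abs_mul, abs_of_nonneg hz1, mul_comm]
  refine mul_le_mul_of_nonneg_right ?_ hz1
  refine (Complex.abs_re_le_norm _).trans ?_
  rw [norm_div, norm_mul, norm_mul]
  have hBz : ‖τ‖ * ‖p‖ ≤ ‖τ‖ := by
    calc ‖τ‖ * ‖p‖ ≤ ‖τ‖ * 1 := mul_le_mul_of_nonneg_left h0 (norm_nonneg _)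
      _ = ‖τ‖ := mul_one _
  have h3 : ‖1 - p * conj z‖ = ‖1 - conj p * z‖ := by
    rw [← Complex.norm_conj]
    simp
  rw [h3]
  calc ‖τ‖ * ‖p‖ / (‖z - p‖ * ‖1 - conj p * z‖) ≤ ‖τ‖ / (ρ * η) :=
        div_le_div₀ (norm_nonneg _) hBz (by positivity)
          (mul_le_mul hd (den_ge hz0 hz) hη.le (norm_nonneg _))
    _ = ‖τ‖ * (1 / (ρ * η)) := by ring

theorem psi_sub_le (hρ : 0 < ρ) (hη : 0 < η) (hz0 : ‖p‖ ≤ 1 - η) {z : ℂ}
    (hz : ‖z‖ ≤ 1) (hd : ρ ≤ ‖z - p‖) (htH : ‖τ‖ * HH ρ η ≤ 1) :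
    ‖psi p τ z - z‖ ≤ 2 * (‖τ‖ * HH ρ η) * ‖z‖ := by
  have h1 := hh_norm_le (τ := τ) hρ hη hz0 hz hd
  have h2 : psi p τ z - z = z * (Complex.exp (hh p τ z) - 1) := by
    unfold psi
    ring
  rw [h2, norm_mul, mul_comm]
  refine mul_le_mul_of_nonneg_right ?_ (norm_nonneg _)
  exact (Complex.norm_exp_sub_one_le (h1.trans htH)).trans (by (clear * - h1; linarith only [h1]))

theorem HH_nonneg (hρ : 0 < ρ) (hη : 0 < η) : 0 ≤ HH ρ η := by
  unfold HH
  (clear * - hρ hη; positivity)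

theorem LL_nonneg (hρ : 0 < ρ) (hη : 0 < η) : 0 ≤ LL ρ η := by
  unfold LL
  (clear * - hρ hη; positivity)

/-- `1 / psi` moves differences by a factor `1 - C‖τ‖` at least -/
theorem psi_inv_sub_ge (hρ : 0 < ρ) (hη : 0 < η) (hz0 : ‖p‖ ≤ 1 - η) {x y : ℂ}
    (hx : ‖x‖ ≤ 1) (hy : ‖y‖ ≤ 1) (hx0 : x ≠ 0) (hy0 : y ≠ 0)
    (hdx : ρ ≤ ‖x - p‖) (hdy : ρ ≤ ‖y - p‖) (htH : 2 * (‖τ‖ * HH ρ η) ≤ 1) :
    (1 - ‖τ‖ * (2 * HH ρ η + 6 * LL ρ η)) * ‖x⁻¹ - y⁻¹‖ ≤
      ‖(psi p τ x)⁻¹ - (psi p τ y)⁻¹‖ := by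
  have hH0 := HH_nonneg hρ hη
  have hL0 := LL_nonneg hρ hη
  have htH0 : 0 ≤ ‖τ‖ * HH ρ η := mul_nonneg (norm_nonneg _) hH0
  have htL0 : 0 ≤ ‖τ‖ * LL ρ η := mul_nonneg (norm_nonneg _) hL0
  have h1 := hh_norm_le (τ := τ) hρ hη hz0 hx hdx
  have h2 := hh_norm_le (τ := τ) hρ hη hz0 hy hdy
  have huv := hh_sub_le (τ := τ) hρ hη hz0 hx hy hdx hdy
  set u : ℂ := hh p τ x with hu
  set v : ℂ := hh p τ y with hv
  have huv1 : ‖u - v‖ ≤ 1 := by
    have := norm_sub_le u v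
    linarith only [htH, h1, h2, this]
  have hpx : (psi p τ x)⁻¹ = x⁻¹ * Complex.exp (-u) := by
    unfold psi
    rw [mul_inv, ← Complex.exp_neg]
  have hpy : (psi p τ y)⁻¹ = y⁻¹ * Complex.exp (-v) := by
    unfold psi
    rw [mul_inv, ← Complex.exp_neg]
  have hdec : (psi p τ x)⁻¹ - (psi p τ y)⁻¹ =
      (x⁻¹ - y⁻¹) * Complex.exp (-u) - y⁻¹ * (Complex.exp (-u) * (Complex.exp (u - v) - 1)) := by
    rw [hpx, hpy, mul_sub (Complex.exp (-u)), mul_one, ← Complex.exp_add]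
    have : -u + (u - v) = -v := by ring
    rw [this]
    ring
  have hu1 : ‖u‖ ≤ 1 / 2 := by (clear * - htH h1; linarith only [htH, h1])
  -- lower bound of exp (-u)
  have hlow : 1 - 2 * (‖τ‖ * HH ρ η) ≤ ‖Complex.exp (-u)‖ := by
    have h5 : ‖Complex.exp (-u) - 1‖ ≤ 2 * ‖-u‖ :=
      Complex.norm_exp_sub_one_le (by rw [norm_neg]; linarith only [hu1])
    rw [norm_neg] at h5
    have h6 : ‖(1:ℂ)‖ - ‖Complex.exp (-u)‖ ≤ ‖1 - Complex.exp (-u)‖ := norm_sub_norm_le _ _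
    rw [norm_one, norm_sub_rev] at h6
    (clear * - h1 h5 h6; linarith only [h1, h5, h6])
  have hup : ‖Complex.exp (-u)‖ ≤ 3 := by
    have h5 : ‖Complex.exp (-u) - 1‖ ≤ 2 * ‖-u‖ :=
      Complex.norm_exp_sub_one_le (by rw [norm_neg]; linarith only [hu1])
    rw [norm_neg] at h5
    have h6 : ‖Complex.exp (-u)‖ - ‖(1:ℂ)‖ ≤ ‖Complex.exp (-u) - 1‖ := norm_sub_norm_le _ _
    rw [norm_one] at h6
    linarith only [hu1, h5, h6]
  have hd2 : ‖Complex.exp (u - v) - 1‖ ≤ 2 * ‖u - v‖ := Complex.norm_exp_sub_one_le huv1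
  have hnx : ‖x‖ ≠ 0 := norm_ne_zero_iff.2 hx0
  have hny : ‖y‖ ≠ 0 := norm_ne_zero_iff.2 hy0
  have hxy : ‖x - y‖ = ‖x‖ * ‖y‖ * ‖x⁻¹ - y⁻¹‖ := by
    have h5 : x - y = -(x * y * (x⁻¹ - y⁻¹)) := by
      field_simp
      ring
    rw [h5, norm_neg, norm_mul, norm_mul]
  have hsec : ‖y⁻¹ * (Complex.exp (-u) * (Complex.exp (u - v) - 1))‖ ≤
      6 * (‖τ‖ * LL ρ η) * ‖x⁻¹ - y⁻¹‖ := by
    rw [norm_mul, norm_mul, norm_inv]
    have h5 : ‖Complex.exp (-u)‖ * ‖Complex.exp (u - v) - 1‖ ≤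
        3 * (2 * (‖τ‖ * LL ρ η * ‖x - y‖)) :=
      mul_le_mul hup (hd2.trans (by (clear * - huv; linarith only [huv]))) (norm_nonneg _) (by norm_num)
    calc ‖y‖⁻¹ * (‖Complex.exp (-u)‖ * ‖Complex.exp (u - v) - 1‖)
        ≤ ‖y‖⁻¹ * (3 * (2 * (‖τ‖ * LL ρ η * ‖x - y‖))) :=
          mul_le_mul_of_nonneg_left h5 (inv_nonneg.2 (norm_nonneg _))
      _ = 6 * (‖τ‖ * LL ρ η) * (‖x‖ * ‖x⁻¹ - y⁻¹‖) := by
          rw [hxy]
          field_simp
          ring
      _ ≤ 6 * (‖τ‖ * LL ρ η) * (1 * ‖x⁻¹ - y⁻¹‖) := by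
          refine mul_le_mul_of_nonneg_left ?_ (by (clear * - hL0; positivity))
          exact mul_le_mul_of_nonneg_right hx (norm_nonneg _)
      _ = _ := by rw [one_mul]
  rw [hdec]
  have h7 := norm_sub_norm_le ((x⁻¹ - y⁻¹) * Complex.exp (-u))
    (y⁻¹ * (Complex.exp (-u) * (Complex.exp (u - v) - 1)))
  rw [norm_mul (x⁻¹ - y⁻¹)] at h7
  have h8 : (1 - 2 * (‖τ‖ * HH ρ η)) * ‖x⁻¹ - y⁻¹‖ ≤ ‖x⁻¹ - y⁻¹‖ * ‖Complex.exp (-u)‖ := by
    rw [mul_comm]
    exact mul_le_mul_of_nonneg_left hlow (norm_nonneg _)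
  (clear * - hsec h7 h8; linarith only [hsec, h7, h8])

variable {e w0 : ℂ}

end Pool.Agent.Helper47.CMV

end

section

/-!
# Outer part and reflected outer part of a function near a circle

`outer z0 ρ lam z = -(1/2πi) ∮_{|s-z0|=ρ} lam(s)/(s-z) ds` for `|z - z0| > ρ`, and
`outerR z0 ρ lam z = conj (outer z0 ρ lam (1 / conj z))` (`0` at `z = 0`).
-/

set_option autoImplicit false

namespace Pool.Agent.Helper81.CK

open Complex Metric Set Filter Topology MeasureTheory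

open scoped Real ComplexConjugate Interval

/-- differentiation of a circle integral with respect to a parameter -/
theorem hasDerivAt_param {z0 : ℂ} {ρ : ℝ} {U : Set ℂ} (hU : IsOpen U) (k k' : ℂ → ℂ → ℂ)
    (hk : ∀ z ∈ U, ContinuousOn (k z) (sphere z0 |ρ|))
    (hk' : ContinuousOn (fun p : ℂ × ℂ => k' p.1 p.2) (U ×ˢ sphere z0 |ρ|))
    (hd : ∀ z ∈ U, ∀ s ∈ sphere z0 |ρ|, HasDerivAt (fun z => k z s) (k' z s) z) {z : ℂ}
    (hz : z ∈ U) :
    HasDerivAt (fun z => ∮ s in C(z0, ρ), k z s) (∮ s in C(z0, ρ), k' z s) z := by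
  obtain ⟨r, hr, hrU⟩ := Metric.isOpen_iff.1 hU z hz
  have hcb : closedBall z (r / 2) ⊆ U :=
    (closedBall_subset_ball (by linarith only [hr])).trans hrU
  have hcomp : IsCompact (closedBall z (r / 2) ×ˢ sphere z0 |ρ|) :=
    (isCompact_closedBall z (r / 2)).prod (isCompact_sphere z0 |ρ|)
  obtain ⟨C, hC⟩ := hcomp.exists_bound_of_continuousOn
    (hk'.mono (prod_mono_left hcb))
  have hcm : Continuous (circleMap z0 ρ) := continuous_circleMap z0 ρ
  have hcd : Continuous (deriv (circleMap z0 ρ)) := by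
    have : deriv (circleMap z0 ρ) = fun θ => circleMap 0 ρ θ * I := by
      funext θ
      exact deriv_circleMap z0 ρ θ
    rw [this]
    exact (continuous_circleMap 0 ρ).mul continuous_const
  have hms : ∀ θ, circleMap z0 ρ θ ∈ sphere z0 |ρ| := fun θ => circleMap_mem_sphere' z0 ρ θ
  have hFc : ∀ x ∈ U, Continuous fun θ => deriv (circleMap z0 ρ) θ • k x (circleMap z0 ρ θ) := by
    intro x hx
    exact hcd.smul ((hk x hx).comp_continuous hcm hms)
  have hF'c : ∀ x ∈ U,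
      Continuous fun θ => deriv (circleMap z0 ρ) θ • k' x (circleMap z0 ρ θ) := by
    intro x hx
    refine hcd.smul ?_
    exact hk'.comp_continuous (continuous_const.prodMk hcm) fun θ => ⟨hx, hms θ⟩
  have hkey := intervalIntegral.hasDerivAt_integral_of_dominated_loc_of_deriv_le
    (μ := volume) (a := 0) (b := 2 * π)
    (F := fun x θ => deriv (circleMap z0 ρ) θ • k x (circleMap z0 ρ θ))
    (F' := fun x θ => deriv (circleMap z0 ρ) θ • k' x (circleMap z0 ρ θ))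
    (x₀ := z) (s := ball z (r / 2)) (bound := fun _ => |ρ| * C)
    (ball_mem_nhds z (by linarith only [hr]))
    (by
      filter_upwards [hU.mem_nhds hz] with x hx
      exact (hFc x hx).aestronglyMeasurable)
    ((hFc z hz).intervalIntegrable _ _)
    ((hF'c z hz).aestronglyMeasurable)
    (by
      refine Eventually.of_forall fun θ _ x hx => ?_
      rw [norm_smul]
      have h1 : ‖deriv (circleMap z0 ρ) θ‖ = |ρ| := by
        rw [deriv_circleMap, norm_mul, Complex.norm_I, mul_one, norm_circleMap_zero]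
      rw [h1]
      exact mul_le_mul_of_nonneg_left
        (hC (x, circleMap z0 ρ θ) ⟨ball_subset_closedBall hx, hms θ⟩) (abs_nonneg ρ))
    (intervalIntegrable_const)
    (by
      refine Eventually.of_forall fun θ _ x hx => ?_
      exact HasDerivAt.const_smul (deriv (circleMap z0 ρ) θ)
        (hd x (hcb (ball_subset_closedBall hx)) _ (hms θ)))
  exact hkey.2

/-- the outer part -/
noncomputable def outer (z0 : ℂ) (ρ : ℝ) (lam : ℂ → ℂ) (z : ℂ) : ℂ :=
  -((2 * π * I : ℂ)⁻¹ * ∮ s in C(z0, ρ), lam s * (s - z)⁻¹)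

section

variable {z0 : ℂ} {ρ : ℝ} {lam mu : ℂ → ℂ}

theorem twoPiI_ne : (2 * π * I : ℂ) ≠ 0 := by
  simp [Real.pi_ne_zero]

/-- the kernel is continuous on the circle -/
theorem cont_kernel (hlam : ContinuousOn lam (sphere z0 ρ)) {z : ℂ}
    (hz : z ∉ closedBall z0 ρ) : ContinuousOn (fun s => lam s * (s - z)⁻¹) (sphere z0 ρ) := by
  refine hlam.mul (ContinuousOn.inv₀ (by fun_prop) ?_)
  intro s hs h
  rw [sub_eq_zero] at h
  exact hz (h ▸ sphere_subset_closedBall hs)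

/-- bound of the outer part -/
theorem outer_bound (hρ : 0 < ρ) {C : ℝ} (hC : ∀ s ∈ sphere z0 ρ, ‖lam s‖ ≤ C) {z : ℂ} {d : ℝ}
    (hd : 0 < d) (hz : ρ + d ≤ ‖z - z0‖) : ‖outer z0 ρ lam z‖ ≤ ρ * C / d := by
  unfold outer
  rw [norm_neg, ← smul_eq_mul]
  have h := circleIntegral.norm_two_pi_i_inv_smul_integral_le_of_norm_le_const (c := z0) (R := ρ)
    (f := fun s => lam s * (s - z)⁻¹) (C := C / d) hρ.le ?_
  · refine h.trans (le_of_eq ?_)
    ring
  · intro s hs
    rw [norm_mul, norm_inv, div_eq_mul_inv]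
    have h1 : d ≤ ‖s - z‖ := by
      have h2 : ‖z - z0‖ ≤ ‖s - z‖ + ‖s - z0‖ := by
        have : z - z0 = (s - z0) - (s - z) := by ring
        rw [this]
        exact (norm_sub_le _ _).trans (by rw [add_comm])
      rw [mem_sphere_iff_norm.1 hs] at h2
      (clear * - hz h2; linarith)
    have h3 : 0 ≤ C := (norm_nonneg _).trans (hC s hs)
    exact mul_le_mul (hC s hs) (inv_anti₀ hd h1) (inv_nonneg.2 (norm_nonneg _)) h3

/-- the outer part of a function analytic inside is zero -/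
theorem outer_inner (hρ : 0 < ρ) (h : DiffContOnCl ℂ lam (ball z0 ρ)) {z : ℂ}
    (hz : z ∉ closedBall z0 ρ) : outer z0 ρ lam z = 0 := by
  unfold outer
  have h1 : DiffContOnCl ℂ (fun s => lam s * (s - z)⁻¹) (ball z0 ρ) := by
    have h2 : DifferentiableOn ℂ (fun s : ℂ => (s - z)⁻¹) (closure (ball z0 ρ)) := by
      intro s hs
      have h3 : s - z ≠ 0 := by
        rw [sub_ne_zero]
        rintro rfl
        exact hz (closure_ball_subset_closedBall hs)
      exact ((differentiableAt_id.sub_const z).inv h3).differentiableWithinAt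
    exact h.smul h2.diffContOnCl
  rw [h1.circleIntegral_eq_zero hρ.le]
  simp

/-- outside the circle the integral of `1/(s-z)` is zero -/
theorem integral_inv_outside (hρ : 0 < ρ) {z : ℂ} (hz : z ∉ closedBall z0 ρ) :
    (∮ s in C(z0, ρ), (s - z)⁻¹) = 0 := by
  have h := outer_inner (lam := fun _ => 1) hρ diffContOnCl_const hz
  unfold outer at h
  simp only [one_mul] at h
  have h2 := neg_eq_zero.1 h
  rcases mul_eq_zero.1 h2 with h3 | h3
  · exact absurd h3 (inv_ne_zero twoPiI_ne)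
  · exact h3

/-- the outer part is Lipschitz -/
theorem outer_lip (hρ : 0 < ρ) (hlam : ContinuousOn lam (sphere z0 ρ)) {C : ℝ}
    (hC : ∀ s ∈ sphere z0 ρ, ‖lam s‖ ≤ C) {z w : ℂ} {d : ℝ}
    (hd : 0 < d) (hz : ρ + d ≤ ‖z - z0‖) (hw : ρ + d ≤ ‖w - z0‖) :
    ‖outer z0 ρ lam z - outer z0 ρ lam w‖ ≤ ρ * C / d ^ 2 * ‖z - w‖ := by
  have hdist : ∀ v : ℂ, ρ + d ≤ ‖v - z0‖ → ∀ s ∈ sphere z0 ρ, d ≤ ‖s - v‖ := by
    intro v hv s hs
    have h2 : ‖v - z0‖ ≤ ‖s - v‖ + ‖s - z0‖ := by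
      have : v - z0 = (s - z0) - (s - v) := by ring
      rw [this]
      exact (norm_sub_le _ _).trans (by rw [add_comm])
    rw [mem_sphere_iff_norm.1 hs] at h2
    linarith
  have hnot : ∀ v : ℂ, ρ + d ≤ ‖v - z0‖ → v ∉ closedBall z0 ρ := by
    intro v hv h
    rw [mem_closedBall_iff_norm] at h
    (clear * - hd hv h; linarith)
  have h1 : outer z0 ρ lam z - outer z0 ρ lam w =
      -((2 * π * I : ℂ)⁻¹ • ∮ s in C(z0, ρ), lam s * ((s - z)⁻¹ * (s - w)⁻¹ * (z - w))) := by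
    unfold outer
    have h2 : (∮ s in C(z0, ρ), lam s * ((s - z)⁻¹ * (s - w)⁻¹ * (z - w))) =
        (∮ s in C(z0, ρ), lam s * (s - z)⁻¹) - ∮ s in C(z0, ρ), lam s * (s - w)⁻¹ := by
      rw [← circleIntegral.integral_sub ((cont_kernel hlam (hnot z hz)).circleIntegrable hρ.le)
        ((cont_kernel hlam (hnot w hw)).circleIntegrable hρ.le)]
      refine circleIntegral.integral_congr hρ.le fun s hs => ?_
      have h3 : s - z ≠ 0 := norm_pos_iff.1 (hd.trans_le (hdist z hz s hs))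
      have h4 : s - w ≠ 0 := norm_pos_iff.1 (hd.trans_le (hdist w hw s hs))
      field_simp
      ring
    rw [h2, smul_eq_mul]
    ring
  rw [h1, norm_neg]
  have h := circleIntegral.norm_two_pi_i_inv_smul_integral_le_of_norm_le_const (c := z0) (R := ρ)
    (f := fun s => lam s * ((s - z)⁻¹ * (s - w)⁻¹ * (z - w))) (C := C / d ^ 2 * ‖z - w‖) hρ.le ?_
  · refine h.trans (le_of_eq ?_)
    ring
  · intro s hs
    have h3 := hdist z hz s hs
    have h4 := hdist w hw s hs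
    have hC0 : 0 ≤ C := (norm_nonneg _).trans (hC s hs)
    rw [norm_mul, norm_mul, norm_mul, norm_inv, norm_inv]
    have h5 : ‖s - z‖⁻¹ * ‖s - w‖⁻¹ ≤ (d ^ 2)⁻¹ := by
      rw [pow_two, mul_inv]
      exact mul_le_mul (inv_anti₀ hd h3) (inv_anti₀ hd h4) (inv_nonneg.2 (norm_nonneg _))
        (inv_nonneg.2 hd.le)
    calc ‖lam s‖ * (‖s - z‖⁻¹ * ‖s - w‖⁻¹ * ‖z - w‖)
        ≤ C * ((d ^ 2)⁻¹ * ‖z - w‖) := by
          refine mul_le_mul (hC s hs) (mul_le_mul_of_nonneg_right h5 (norm_nonneg _)) ?_ hC0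
          (clear * -; positivity)
      _ = C / d ^ 2 * ‖z - w‖ := by ring

/-- derivative of the outer part -/
theorem outer_hasDerivAt (hlam : ContinuousOn lam (sphere z0 |ρ|)) {z : ℂ}
    (hz : z ∉ sphere z0 |ρ|) :
    HasDerivAt (outer z0 ρ lam)
      (-((2 * π * I : ℂ)⁻¹ * ∮ s in C(z0, ρ), lam s * ((s - z) ^ 2)⁻¹)) z := by
  have hU : IsOpen (sphere z0 |ρ|)ᶜ := isClosed_sphere.isOpen_compl
  have hne : ∀ z ∈ (sphere z0 |ρ|)ᶜ, ∀ s ∈ sphere z0 |ρ|, s - z ≠ 0 := by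
    intro z hz s hs h
    rw [sub_eq_zero] at h
    exact hz (h ▸ hs)
  have h := hasDerivAt_param (z0 := z0) (ρ := ρ) hU (fun z s => lam s * (s - z)⁻¹)
    (fun z s => lam s * ((s - z) ^ 2)⁻¹) (z := z) ?_ ?_ ?_ hz
  · exact (h.const_mul _).neg
  · intro z hz
    exact hlam.mul (ContinuousOn.inv₀ (by fun_prop) (hne z hz))
  · have h1 : ContinuousOn (fun p : ℂ × ℂ => lam p.2) ((sphere z0 |ρ|)ᶜ ×ˢ sphere z0 |ρ|) :=
      hlam.comp continuousOn_snd fun p hp => hp.2
    refine h1.mul (ContinuousOn.inv₀ (by fun_prop) ?_)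
    intro p hp
    exact pow_ne_zero 2 (hne p.1 hp.1 p.2 hp.2)
  · intro z hz s hs
    have h2 : HasDerivAt (fun z : ℂ => s - z) (-1) z := by
      simpa using (hasDerivAt_id z).const_sub s
    have h3 := (h2.inv (hne z hz s hs)).const_mul (lam s)
    exact h3.congr_deriv (by rw [neg_neg, one_div])

theorem outer_differentiableOn (hρ : 0 < ρ) (hlam : ContinuousOn lam (sphere z0 ρ)) :
    DifferentiableOn ℂ (outer z0 ρ lam) (closedBall z0 ρ)ᶜ := by
  intro z hz
  rw [← abs_of_pos hρ] at hlam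
  refine (outer_hasDerivAt hlam ?_).differentiableAt.differentiableWithinAt
  rw [abs_of_pos hρ]
  exact fun h => hz (sphere_subset_closedBall h)

/-- the inner part -/
noncomputable def inner' (z0 : ℂ) (ρ : ℝ) (lam : ℂ → ℂ) (z : ℂ) : ℂ := - outer z0 ρ lam z

theorem inner_differentiableOn (hρ : 0 < ρ) (hlam : ContinuousOn lam (sphere z0 ρ)) :
    DifferentiableOn ℂ (inner' z0 ρ lam) (ball z0 ρ) := by
  intro z hz
  rw [← abs_of_pos hρ] at hlam
  refine ((outer_hasDerivAt hlam ?_).differentiableAt.neg).differentiableWithinAt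
  rw [abs_of_pos hρ]
  intro h
  rw [mem_ball, mem_sphere.1 h] at hz
  exact lt_irrefl _ hz

/-- **Laurent splitting**: Cauchy's formula for an annulus -/
theorem inner_add_outer {ρ' : ℝ} (hρ : 0 < ρ) {g : ℂ → ℂ}
    (hg : ∀ s, ρ ≤ ‖s - z0‖ → ‖s - z0‖ ≤ ρ' → DifferentiableAt ℂ g s) {z : ℂ}
    (h1 : ρ < ‖z - z0‖) (h2 : ‖z - z0‖ < ρ') :
    inner' z0 ρ' g z + outer z0 ρ g z = g z := by
  have hρ' : 0 < ρ' := hρ.trans (h1.trans h2)
  have hmem : ∀ s, s ∈ closedBall z0 ρ' \ ball z0 ρ → DifferentiableAt ℂ g s := by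
    intro s hs
    refine hg s ?_ ?_
    · have := hs.2
      rw [mem_ball_iff_norm, not_lt] at this
      exact this
    · have := hs.1
      rwa [mem_closedBall_iff_norm] at this
  have hzb : z ∈ ball z0 ρ' := by rwa [mem_ball_iff_norm]
  have hzc : z ∉ closedBall z0 ρ := by
    rw [mem_closedBall_iff_norm, not_le]
    exact h1
  have hnhds : closedBall z0 ρ' \ ball z0 ρ ∈ 𝓝 z := by
    have h3 : ball z0 ρ' \ closedBall z0 ρ ∈ 𝓝 z :=
      (isOpen_ball.sdiff isClosed_closedBall).mem_nhds ⟨hzb, hzc⟩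
    exact mem_of_superset h3 (sdiff_subset_sdiff ball_subset_closedBall ball_subset_closedBall)
  have hcont : ContinuousOn (dslope g z) (closedBall z0 ρ' \ ball z0 ρ) :=
    (continuousOn_dslope hnhds).2
      ⟨fun s hs => (hmem s hs).continuousAt.continuousWithinAt, hmem z (mem_of_mem_nhds hnhds)⟩
  have hdiff : ∀ s ∈ (ball z0 ρ' \ closedBall z0 ρ) \ {z}, DifferentiableAt ℂ (dslope g z) s := by
    intro s hs
    exact (differentiableAt_dslope_of_ne hs.2).2
      (hmem s (sdiff_subset_sdiff ball_subset_closedBall ball_subset_closedBall hs.1))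
  have key := circleIntegral_eq_of_differentiable_on_annulus_off_countable hρ
    (h1.trans h2).le (countable_singleton z) hcont hdiff
  have hsph : sphere z0 ρ ⊆ closedBall z0 ρ' \ ball z0 ρ := by
    intro s hs
    refine ⟨?_, ?_⟩
    · rw [mem_closedBall, mem_sphere.1 hs]
      exact (h1.trans h2).le
    · rw [mem_ball, mem_sphere.1 hs]
      exact lt_irrefl ρ
  have hsph' : sphere z0 ρ' ⊆ closedBall z0 ρ' \ ball z0 ρ := by
    intro s hs
    refine ⟨sphere_subset_closedBall hs, ?_⟩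
    rw [mem_ball, mem_sphere.1 hs, not_lt]
    exact (h1.trans h2).le
  have hc : ContinuousOn g (sphere z0 ρ) := fun s hs =>
    (hmem s (hsph hs)).continuousAt.continuousWithinAt
  have hc' : ContinuousOn g (sphere z0 ρ') := fun s hs =>
    (hmem s (hsph' hs)).continuousAt.continuousWithinAt
  have hne : ∀ s ∈ sphere z0 ρ, s - z ≠ 0 := by
    intro s hs h
    rw [sub_eq_zero] at h
    exact hzc (h ▸ sphere_subset_closedBall hs)
  have hne' : ∀ s ∈ sphere z0 ρ', s - z ≠ 0 := by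
    intro s hs h
    rw [sub_eq_zero] at h
    rw [← h, mem_ball, mem_sphere.1 hs] at hzb
    exact lt_irrefl _ hzb
  have e1 : (∮ s in C(z0, ρ'), dslope g z s) =
      (∮ s in C(z0, ρ'), g s * (s - z)⁻¹) - g z * (2 * π * I) := by
    rw [← circleIntegral.integral_sub_inv_of_mem_ball hzb, ← circleIntegral.integral_const_mul,
      ← circleIntegral.integral_sub]
    · refine circleIntegral.integral_congr hρ'.le fun s hs => ?_
      have h3 : s ≠ z := sub_ne_zero.1 (hne' s hs)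
      simp only [dslope_of_ne g h3, slope_def_field]
      rw [← sub_mul, div_eq_mul_inv]
    · exact (hc'.mul (ContinuousOn.inv₀ (by fun_prop) hne')).circleIntegrable hρ'.le
    · exact (continuousOn_const.mul
        (ContinuousOn.inv₀ (by fun_prop) hne')).circleIntegrable hρ'.le
  have e2 : (∮ s in C(z0, ρ), dslope g z s) = ∮ s in C(z0, ρ), g s * (s - z)⁻¹ := by
    have h4 : (∮ s in C(z0, ρ), dslope g z s) =
        (∮ s in C(z0, ρ), g s * (s - z)⁻¹) - g z * ∮ s in C(z0, ρ), (s - z)⁻¹ := by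
      rw [← circleIntegral.integral_const_mul, ← circleIntegral.integral_sub]
      · refine circleIntegral.integral_congr hρ.le fun s hs => ?_
        have h3 : s ≠ z := sub_ne_zero.1 (hne s hs)
        simp only [dslope_of_ne g h3, slope_def_field]
        rw [← sub_mul, div_eq_mul_inv]
      · exact (cont_kernel hc hzc).circleIntegrable hρ.le
      · exact (continuousOn_const.mul
          (ContinuousOn.inv₀ (by fun_prop) hne)).circleIntegrable hρ.le
    rw [h4, integral_inv_outside hρ hzc, mul_zero, sub_zero]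
  rw [e1, e2] at key
  unfold inner' outer
  rw [← key]
  have := twoPiI_ne
  field_simp
  ring

/-- **Regular part.** If `g` is holomorphic on `D` minus a disc and close to a holomorphic function
`p` on the annulus, then `g` minus the outer part of `g - p` extends to `D`, and the extension is
close to `p` inside. -/
theorem regular_part {D : Set ℂ} (hD : IsOpen D) {ρ0 ρ' η : ℝ} {g p : ℂ → ℂ} (hρ : 0 < ρ)
    (h0 : ρ0 < ρ) (h1 : ρ < ρ') (hsub : closedBall z0 ρ' ⊆ D)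
    (hg : DifferentiableOn ℂ g (D \ closedBall z0 ρ0)) (hp : DifferentiableOn ℂ p D)
    (hη : ∀ s, ρ ≤ ‖s - z0‖ → ‖s - z0‖ ≤ ρ' → ‖g s - p s‖ ≤ η) :
    ∃ F : ℂ → ℂ, DifferentiableOn ℂ F D ∧
      (∀ z, ρ < ‖z - z0‖ → F z = g z - outer z0 ρ (fun s => g s - p s) z) ∧
      ∀ r, ρ < r → r < ρ' → ∀ z ∈ closedBall z0 r, ‖F z - p z‖ ≤ η * r / (r - ρ) := by
  classical
  set e : ℂ → ℂ := fun s => g s - p s with he
  have hann : ∀ s, ρ ≤ ‖s - z0‖ → ‖s - z0‖ ≤ ρ' → DifferentiableAt ℂ g s := by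
    intro s hs1 hs2
    have hopen : IsOpen (D \ closedBall z0 ρ0) := hD.sdiff isClosed_closedBall
    refine (hg s ⟨hsub (mem_closedBall_iff_norm.2 hs2), ?_⟩).differentiableAt
      (hopen.mem_nhds ⟨hsub (mem_closedBall_iff_norm.2 hs2), ?_⟩) <;>
    · rw [mem_closedBall_iff_norm, not_le]
      (clear * - h0 hs1; linarith)
  have hpd : ∀ s ∈ D, DifferentiableAt ℂ p s := fun s hs =>
    (hp s hs).differentiableAt (hD.mem_nhds hs)
  have hed : ∀ s, ρ ≤ ‖s - z0‖ → ‖s - z0‖ ≤ ρ' → DifferentiableAt ℂ e s := by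
    intro s hs1 hs2
    exact (hann s hs1 hs2).sub (hpd s (hsub (mem_closedBall_iff_norm.2 hs2)))
  have hρ' : 0 < ρ' := hρ.trans h1
  have hec : ContinuousOn e (sphere z0 ρ) := by
    intro s hs
    rw [mem_sphere_iff_norm] at hs
    exact (hed s hs.ge (by linarith)).continuousAt.continuousWithinAt
  have hec' : ContinuousOn e (sphere z0 ρ') := by
    intro s hs
    rw [mem_sphere_iff_norm] at hs
    exact (hed s (by linarith) hs.le).continuousAt.continuousWithinAt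
  let F : ℂ → ℂ := fun z =>
    if ‖z - z0‖ < ρ' then p z + inner' z0 ρ' e z else g z - outer z0 ρ e z
  have hFout : ∀ z, ρ < ‖z - z0‖ → F z = g z - outer z0 ρ e z := by
    intro z hz
    by_cases hz' : ‖z - z0‖ < ρ'
    · have h2 := inner_add_outer hρ hed hz hz'
      simp only [F, hz', if_true]
      rw [show g z = e z + p z by simp only [he]; ring, ← h2]
      ring
    · simp only [F, hz', if_false]
  have hFd : DifferentiableOn ℂ F D := by
    intro z hz
    by_cases hz' : ‖z - z0‖ < ρ'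
    · have h2 : DifferentiableAt ℂ (fun z => p z + inner' z0 ρ' e z) z := by
        refine (hpd z hz).add ?_
        exact (inner_differentiableOn hρ' hec').differentiableAt
          (isOpen_ball.mem_nhds (mem_ball_iff_norm.2 hz'))
      refine (h2.congr_of_eventuallyEq ?_).differentiableWithinAt
      filter_upwards [isOpen_ball.mem_nhds (mem_ball_iff_norm.2 hz' : z ∈ ball z0 ρ')] with w hw
      rw [mem_ball_iff_norm] at hw
      simp only [F, hw, if_true]
    · have hz2 : ρ < ‖z - z0‖ := h1.trans_le (not_lt.1 hz')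
      have hopen : IsOpen (D \ closedBall z0 ρ) := hD.sdiff isClosed_closedBall
      have hzm : z ∈ D \ closedBall z0 ρ := by
        refine ⟨hz, ?_⟩
        rw [mem_closedBall_iff_norm, not_le]
        exact hz2
      have h2 : DifferentiableAt ℂ (fun z => g z - outer z0 ρ e z) z := by
        refine DifferentiableAt.sub ?_ ?_
        · refine (hg.mono ?_).differentiableAt (hopen.mem_nhds hzm)
          exact sdiff_subset_sdiff_right (closedBall_subset_closedBall h0.le)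
        · exact (outer_differentiableOn hρ hec).differentiableAt
            (isClosed_closedBall.isOpen_compl.mem_nhds hzm.2)
      refine (h2.congr_of_eventuallyEq ?_).differentiableWithinAt
      filter_upwards [hopen.mem_nhds hzm] with w hw
      refine hFout w ?_
      have := hw.2
      rwa [mem_closedBall_iff_norm, not_le] at this
  refine ⟨F, hFd, hFout, ?_⟩
  intro r hr hr' z hz
  have hr0 : 0 < r := hρ.trans hr
  have hsubr : closedBall z0 r ⊆ D := (closedBall_subset_closedBall hr'.le).trans hsub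
  have hcl : DiffContOnCl ℂ (fun z => F z - p z) (ball z0 r) := by
    refine DifferentiableOn.diffContOnCl ?_
    rw [closure_ball z0 hr0.ne']
    exact (hFd.sub hp).mono hsubr
  refine Complex.norm_le_of_forall_mem_frontier_norm_le isBounded_ball hcl ?_
    (by rwa [closure_ball z0 hr0.ne'])
  intro w hw
  rw [frontier_ball z0 hr0.ne', mem_sphere_iff_norm] at hw
  have h2 : F w - p w = e w - outer z0 ρ e w := by
    rw [hFout w (by rw [hw]; exact hr)]
    simp only [he]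
    ring
  rw [h2]
  have h3 : ‖e w‖ ≤ η := hη w (by (clear * - hr hw; linarith)) (by linarith)
  have h4 : ‖outer z0 ρ e w‖ ≤ ρ * η / (r - ρ) := by
    refine outer_bound hρ ?_ (by linarith) (by rw [hw]; linarith)
    intro s hs
    rw [mem_sphere_iff_norm] at hs
    exact hη s hs.ge (by linarith)
  calc ‖e w - outer z0 ρ e w‖ ≤ ‖e w‖ + ‖outer z0 ρ e w‖ := norm_sub_le _ _
    _ ≤ η + ρ * η / (r - ρ) := add_le_add h3 h4
    _ = η * r / (r - ρ) := by
      have : r - ρ ≠ 0 := by linarith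
      field_simp
      ring

end

end Pool.Agent.Helper81.CK

end

section

namespace Pool.Agent.Helper39.Area
end Pool.Agent.Helper39.Area
namespace Pool.Agent.Helper5.CK
end Pool.Agent.Helper5.CK

/-!
# CK V7: the variation field is holomorphic at the pole

`(z - p) VV z` is holomorphic near `p` and vanishes at `p`.
-/

set_option autoImplicit false

namespace Pool.Agent.Helper81.CK

open Complex Metric Set Filter Topology

open scoped ComplexConjugate

open Pool.Agent.Helper39.Area Pool.Agent.Helper5.CK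

theorem dphi_ne {β : ℂ → ℂ} (h : Ext β) {p : ℂ} (hp : p ∈ ball (0 : ℂ) 1) (hp0 : p ≠ 0) :
    dphi β p ≠ 0 := by
  have h1 := h.ne p hp
  have h2 : dphi β p = -(1 - p ^ 2 * deriv β p) / p ^ 2 := by
    unfold dphi
    field_simp
    ring
  rw [h2]
  exact div_ne_zero (neg_ne_zero.2 h1) (pow_ne_zero 2 hp0)

theorem phi_differentiableOn {β : ℂ → ℂ} (h : Ext β) :
    DifferentiableOn ℂ (phi β) (ball 0 1 \ {0}) := fun _ hz =>
  (hasDerivAt_phi h.diff hz.1 hz.2).differentiableAt.differentiableWithinAt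

theorem dphi_differentiableOn {β : ℂ → ℂ} (h : Ext β) :
    DifferentiableOn ℂ (dphi β) (ball 0 1 \ {0}) := by
  intro z hz
  have h1 : DifferentiableAt ℂ (deriv β) z :=
    (h.diff.deriv isOpen_ball).differentiableAt (isOpen_ball.mem_nhds hz.1)
  have h2 : DifferentiableAt ℂ (fun z : ℂ => -(z ^ 2)⁻¹) z :=
    ((differentiableAt_id.pow 2).inv (pow_ne_zero 2 hz.2)).neg
  exact (h2.add h1).differentiableWithinAt

/-- the variation field extends holomorphically to the pole -/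
theorem reg_ext {β : ℂ → ℂ} (h : Ext β) {p : ℂ} (hp : p ∈ ball (0 : ℂ) 1) (hp0 : p ≠ 0) (τ : ℂ) :
    ∃ V : ℂ → ℂ, DifferentiableOn ℂ V (ball 0 1 \ {0}) ∧
      ∀ z ∈ ball (0 : ℂ) 1 \ {0}, z ≠ p → V z = VV β p τ z := by
  have hUo : IsOpen (ball (0 : ℂ) 1 \ {0}) := isOpen_ball.sdiff isClosed_singleton
  have hpU : p ∈ ball (0 : ℂ) 1 \ {0} := ⟨hp, hp0⟩
  have hUn : ball (0 : ℂ) 1 \ {0} ∈ 𝓝 p := hUo.mem_nhds hpU
  set Q : ℂ → ℂ := dslope (phi β) p with hQ
  have hQd : DifferentiableOn ℂ Q (ball 0 1 \ {0}) :=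
    (Complex.differentiableOn_dslope hUn).2 (phi_differentiableOn h)
  have hQne : ∀ z ∈ ball (0 : ℂ) 1 \ {0}, Q z ≠ 0 := by
    intro z hz
    by_cases hzp : z = p
    · rw [hzp, hQ, dslope_same, (hasDerivAt_phi h.diff hp hp0).deriv]
      exact dphi_ne h hp hp0
    · rw [hQ, dslope_of_ne _ hzp, slope_def_field]
      refine div_ne_zero ?_ (sub_ne_zero.2 hzp)
      intro h0
      exact hzp (h.inj z p hz.1 hp hz.2 hp0 (sub_eq_zero.1 h0))
  set N : ℂ → ℂ := fun z => eps β p τ / Q z + dphi β z * (z * ((1 / 2) *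
    (τ * (z + p) - (z - p) * (conj τ * ((1 + conj p * z) / (1 - conj p * z)))))) with hN
  have hden : ∀ z ∈ ball (0 : ℂ) 1 \ {0}, 1 - conj p * z ≠ 0 := by
    intro z hz h0
    have h1 : ‖conj p * z‖ < 1 := by
      rw [norm_mul, RCLike.norm_conj]
      have h2 := mem_ball_zero_iff.1 hp
      have h3 := mem_ball_zero_iff.1 hz.1
      nlinarith only [norm_nonneg z, h2, h3]
    rw [← sub_eq_zero.1 h0, norm_one] at h1
    exact lt_irrefl _ h1
  have hNd : DifferentiableOn ℂ N (ball 0 1 \ {0}) := by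
    intro z hz
    refine DifferentiableWithinAt.add ?_ ?_
    · exact (differentiableWithinAt_const _).div (hQd z hz) (hQne z hz)
    · refine (dphi_differentiableOn h z hz).mul ?_
      refine DifferentiableAt.differentiableWithinAt ?_
      have h1 : DifferentiableAt ℂ (fun z : ℂ => (1 + conj p * z) / (1 - conj p * z)) z :=
        DifferentiableAt.div (by fun_prop) (by fun_prop) (hden z hz)
      fun_prop
  have hNp : N p = 0 := by
    simp only [hN, hQ, dslope_same, (hasDerivAt_phi h.diff hp hp0).deriv, sub_self, zero_mul,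
      sub_zero, eps]
    have := dphi_ne h hp hp0
    field_simp
    ring
  refine ⟨dslope N p, (Complex.differentiableOn_dslope hUn).2 hNd, ?_⟩
  intro z hz hzp
  have hzp' : z - p ≠ 0 := sub_ne_zero.2 hzp
  rw [dslope_of_ne _ hzp, slope_def_field, hNp, sub_zero]
  have hQz : Q z = (phi β z - phi β p) / (z - p) := by
    rw [hQ, dslope_of_ne _ hzp, slope_def_field]
  have hphi : phi β z - phi β p ≠ 0 := by
    intro h0
    exact hzp (h.inj z p hz.1 hp hz.2 hp0 (sub_eq_zero.1 h0))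
  have hd := hden z hz
  simp only [hN, hQz, VV, hh]
  (clear * - hphi hzp'; field_simp)

end Pool.Agent.Helper81.CK

end

section

namespace Pool.Agent.Helper39.Area
end Pool.Agent.Helper39.Area

/-!
# CK V8: normalisation

A univalent function on a punctured disc with a simple pole at `0` is, after a dilation and
division by the residue, of the form `1 / z + γ z` with `Ext γ`.
-/

set_option autoImplicit false

namespace Pool.Agent.Helper81.CK

open Complex Metric Set Filter Topology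

open scoped ComplexConjugate

open Pool.Agent.Helper39.Area

theorem normalise {f : ℂ → ℂ} {r : ℝ} {c : ℂ} (hr : 0 < r) (_hr1 : r ≤ 1)
    (hd : DifferentiableOn ℂ f (ball 0 r \ {0})) (hinj : InjOn f (ball 0 r \ {0})) (hc : c ≠ 0)
    (hlim : Tendsto (fun z => z * f z) (𝓝[≠] 0) (𝓝 c)) :
    ∃ γ : ℂ → ℂ, Ext γ ∧ ∀ z ∈ ball (0 : ℂ) 1, z ≠ 0 → z⁻¹ + γ z = (r / c) * f (r * z) := by
  have hr0 : (r : ℂ) ≠ 0 := by exact_mod_cast hr.ne'
  set g : ℂ → ℂ := fun z => (r / c) * f (r * z) with hg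
  have hmaps : ∀ z ∈ ball (0 : ℂ) 1 \ {0}, (r : ℂ) * z ∈ ball (0 : ℂ) r \ {0} := by
    intro z hz
    refine ⟨?_, mul_ne_zero hr0 hz.2⟩
    rw [mem_ball_zero_iff, norm_mul, Complex.norm_real, Real.norm_of_nonneg hr.le]
    have := mem_ball_zero_iff.1 hz.1
    (clear * - hr this; nlinarith only [hr, this])
  have hUo : IsOpen (ball (0 : ℂ) 1 \ {0}) := isOpen_ball.sdiff isClosed_singleton
  have hgd : DifferentiableOn ℂ g (ball 0 1 \ {0}) := by
    refine DifferentiableOn.const_mul ?_ _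
    exact hd.comp (by fun_prop) hmaps
  have hginj : InjOn g (ball 0 1 \ {0}) := by
    intro z hz w hw h
    have h1 : f (r * z) = f (r * w) := mul_left_cancel₀ (div_ne_zero hr0 hc) h
    exact mul_left_cancel₀ hr0 (hinj (hmaps z hz) (hmaps w hw) h1)
  have hglim : Tendsto (fun z => z * g z) (𝓝[≠] 0) (𝓝 1) := by
    have h1 : Tendsto (fun z : ℂ => (r : ℂ) * z) (𝓝[≠] 0) (𝓝[≠] 0) := by
      refine tendsto_nhdsWithin_of_tendsto_nhds_of_eventually_within _ ?_ ?_
      · have : Tendsto (fun z : ℂ => (r : ℂ) * z) (𝓝 0) (𝓝 0) := by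
          have h2 : Continuous fun z : ℂ => (r : ℂ) * z := by fun_prop
          simpa using h2.tendsto 0
        exact this.mono_left nhdsWithin_le_nhds
      · filter_upwards [self_mem_nhdsWithin] with z hz
        exact mul_ne_zero hr0 hz
    have h2 := (hlim.comp h1).const_mul c⁻¹
    rw [inv_mul_cancel₀ hc] at h2
    refine h2.congr fun z => ?_
    simp only [Function.comp_apply, hg]
    field_simp
  set γ0 : ℂ → ℂ := fun z => g z - z⁻¹ with hγ0
  have hγd : DifferentiableOn ℂ γ0 (ball 0 1 \ {0}) := by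
    refine hgd.sub ?_
    intro z hz
    have hz' : z ≠ 0 := hz.2
    exact (hasDerivAt_inv hz').differentiableAt.differentiableWithinAt
  have ho : (fun z => γ0 z - γ0 0) =o[𝓝[≠] 0] fun z : ℂ => (z - 0)⁻¹ := by
    rw [Asymptotics.isLittleO_iff_tendsto']
    · have h1 : Tendsto (fun z : ℂ => z * g z - 1 - z * γ0 0) (𝓝[≠] 0) (𝓝 (1 - 1 - 0 * γ0 0)) := by
        refine (hglim.sub_const 1).sub ?_
        refine Tendsto.mul_const _ ?_
        exact tendsto_id.mono_left nhdsWithin_le_nhds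
      rw [sub_self, zero_mul, sub_zero] at h1
      refine h1.congr' ?_
      filter_upwards [self_mem_nhdsWithin] with z hz
      have hz' : z ≠ 0 := hz
      simp only [hγ0, sub_zero]
      field_simp
    · filter_upwards [self_mem_nhdsWithin] with z hz h
      have hz' : z ≠ 0 := hz
      rw [sub_zero] at h
      exact absurd h (inv_ne_zero hz')
  have hext := Complex.differentiableOn_update_limUnder_of_isLittleO
    (isOpen_ball.mem_nhds (mem_ball_self one_pos) : ball (0 : ℂ) 1 ∈ 𝓝 0) hγd ho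
  set γ : ℂ → ℂ := Function.update γ0 0 (limUnder (𝓝[≠] 0) γ0) with hγ
  have hγeq : ∀ z, z ≠ 0 → z⁻¹ + γ z = g z := by
    intro z hz
    rw [hγ, Function.update_of_ne hz]
    simp only [hγ0]
    ring
  refine ⟨γ, ⟨hext, ?_, ?_⟩, fun z _ hz => hγeq z hz⟩
  · intro ζ ω hζ hω hζ0 hω0 h
    rw [hγeq ζ hζ0, hγeq ω hω0] at h
    exact hginj ⟨hζ, hζ0⟩ ⟨hω, hω0⟩ h
  · intro ζ hζ
    by_cases h0 : ζ = 0
    · rw [h0]
      simp
    · intro h1
      have h2 : HasDerivAt g (-(ζ ^ 2)⁻¹ + deriv γ ζ) ζ := by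
        have h3 : HasDerivAt (fun z => z⁻¹ + γ z) (-(ζ ^ 2)⁻¹ + deriv γ ζ) ζ :=
          (hasDerivAt_inv h0).add
            ((hext.differentiableAt (isOpen_ball.mem_nhds hζ)).hasDerivAt)
        refine h3.congr_of_eventuallyEq ?_
        filter_upwards [isOpen_ne.mem_nhds h0] with z hz
        exact (hγeq z hz).symm
      have h4 := Pool.Agent.Helper24.Br.deriv_ne_of_inj hUo hgd hginj (z := ζ) ⟨hζ, h0⟩
      rw [h2.deriv] at h4
      apply h4
      have h5 : deriv γ ζ = (ζ ^ 2)⁻¹ := by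
        have h6 : ζ ^ 2 ≠ 0 := pow_ne_zero 2 h0
        field_simp
        linear_combination -h1
      rw [h5]
      ring

end Pool.Agent.Helper81.CK

end
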