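import Pool.Agent.Helper60.BE.T15
import Pool.Agent.Helper60.BE.T13
import Pool.Agent.Helper60.BE.T11
import Pool.Agent.Helper60.BE.T12
import Pool.Agent.Helper60.BE.T16

set_option linter.all false

section

namespace Pool.Agent.Helper39.Area
end Pool.Agent.Helper39.Area
namespace Pool.Agent.Helper52.EK
end Pool.Agent.Helper52.EK
namespace Pool.Agent.Helper69.EK3
end Pool.Agent.Helper69.EK3

set_option autoImplicit false

open Complex MeasureTheory Metric Set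

open scoped Real ComplexConjugate

namespace Pool.Agent.Helper69.EK7

open Pool.Agent.Helper39.Area Pool.Agent.Helper52.EK Pool.Agent.Helper69.EK3

/-- the integrand as a functional of `X` -/
noncomputable def T2 (G : ℂ → ℂ → ℂ) (X : ℂ → ℂ) (ξ η : ℝ) : ℝ :=
  TG2 G (X (pt ξ η)) (deriv X (pt ξ η)) (deriv (deriv X) (pt ξ η)) (Real.sin η) (Real.cos η)

variable {P : (ℂ → ℂ) → ℝ → ℝ → Prop}

theorem T2_cont_H {G : ℂ → ℂ → ℂ} {L : ℝ} (hG : GLip2 G L) (X : ℂ → ℂ) (x₁ x₂ : ℝ)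
    (hX : NiceH X x₁ x₂) : CH x₁ x₂ (π / 2) (T2 G X) := by
  have h1 := contH hX.an.continuousOn
  have h2 := contH hX.an.deriv.continuousOn
  have h2' := contH hX.an.deriv.deriv.continuousOn
  have hne : ∀ p ∈ Icc x₁ x₂ ×ˢ Icc (0:ℝ) (π / 2), X (pt p.1 p.2) ≠ 0 := fun p hp =>
    hX.ne _ (pt_mem_RectH hp.1 hp.2)
  have h3 := h2.div h1 hne
  have h3' := h2'.div h1 hne
  have h4 : ContinuousOn (fun p : ℝ × ℝ => e0 (Real.sin p.2) (Real.cos p.2))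
      (Icc x₁ x₂ ×ˢ Icc 0 (π / 2)) := by
    apply Continuous.continuousOn
    unfold e0
    fun_prop
  have h5 : ContinuousOn (fun p : ℝ × ℝ => mX (X (pt p.1 p.2)) (deriv X (pt p.1 p.2))
      (Real.sin p.2) (Real.cos p.2)) (Icc x₁ x₂ ×ˢ Icc 0 (π / 2)) := by
    unfold mX
    exact ((continuousOn_const.add h4).mul
      (((continuousOn_const.mul h1).sub continuousOn_const).add h3)).sub continuousOn_const
  have h6 : ContinuousOn (fun p : ℝ × ℝ => tX (X (pt p.1 p.2)) (deriv X (pt p.1 p.2))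
      (deriv (deriv X) (pt p.1 p.2)) (Real.sin p.2) (Real.cos p.2))
      (Icc x₁ x₂ ×ˢ Icc 0 (π / 2)) := by
    unfold tX
    have h7 : ContinuousOn (fun p : ℝ × ℝ => 4 * ((Real.sin p.2 : ℝ) : ℂ) ^ 2)
        (Icc x₁ x₂ ×ˢ Icc 0 (π / 2)) := by
      apply Continuous.continuousOn
      fun_prop
    exact (h7.mul h4).mul (((continuousOn_const.sub (continuousOn_const.mul (h1.pow 2))).add
      h3').sub (continuousOn_const.mul (h3.pow 2)))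
  exact ((hG.cont.comp_continuousOn (h5.prodMk h6)).sub h4).norm.pow 2

theorem T2_mirror {G : ℂ → ℂ → ℂ} (hGc : ∀ m t, G (conj m) (conj t) = conj (G m t)) (X : ℂ → ℂ)
    (x₁ x₂ : ℝ) (hX : NiceX X x₁ x₂) (ξ : ℝ) (hξ : ξ ∈ Icc x₁ x₂) (η : ℝ)
    (hη : η ∈ Icc (0:ℝ) (π / 2)) : T2 G X ξ (π - η) = T2 G (mir X) ξ η := by
  have hm : pt ξ (π - η) ∈ Rect x₁ x₂ := by
    have := mir_mem (pt_mem_RectH hξ hη)
    rwa [conj_pt] at this
  have hA : AnalyticAt ℂ X (pt ξ (π - η)) := hX.an _ hm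
  unfold T2 TG2
  rw [mir_pt, mir_deriv_pt hA.differentiableAt, Pool.Agent.Helper20.Kraus2.mir_deriv2_pt hA,
    Pool.Agent.Helper20.Kraus2.tX_conj, mX_conj, hGc, Real.sin_pi_sub, Real.cos_pi_sub]
  have e1 : e0 (Real.sin η) (Real.cos η) = conj (e0 (Real.sin η) (-Real.cos η)) := by
    rw [e0_neg, Complex.conj_conj]
  rw [e1, ← map_sub, norm_conj]

/-- the bounds of Koebe and Bieberbach with an integrable error and the exact bound of Kraus -/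
def DiscK (X : ℂ → ℂ) (x₁ x₂ : ℝ) : Prop :=
  DiscP X x₁ x₂ ∧ ∀ ξ ∈ Icc x₁ x₂, ∀ η ∈ Icc (0:ℝ) (π / 2),
    ‖tX (X (pt ξ η)) (deriv X (pt ξ η)) (deriv (deriv X) (pt ξ η)) (Real.sin η)
      (Real.cos η)‖ ≤ 6

theorem discK_Xf (β : ℂ → ℂ) (R a : ℝ) (h : ExtR β R) (ha : 0 < a) (ha1 : a < 1)
    (hx : Real.log (tau a) + 1 ≤ -1) : DiscK (Xf β a) (Real.log (tau a) + 1) (-1) ∧
      DiscK (mir (Xf β a)) (Real.log (tau a) + 1) (-1) := by
  obtain ⟨h1, h2⟩ := discP_Xf β R a h ha ha1 hx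
  have hpi := Real.pi_pos
  exact ⟨⟨h1, fun ξ hξ η hη => Pool.Agent.Helper20.Kraus2.kraus_strip h ha ha1
      (by linarith only [hξ.1]) (by linarith only [hξ.2]) hη.1 (by (clear * - hη hpi; linarith only [hη.2, hpi]))⟩,
    ⟨h2, fun ξ hξ η hη => Pool.Agent.Helper20.Kraus2.kraus_mir h ha ha1
      (by linarith [hξ.1]) (by linarith [hξ.2]) hη.1 (by linarith [hη.2])⟩⟩

end Pool.Agent.Helper69.EK7

end

section

namespace Pool.Agent.Helper52.EK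
end Pool.Agent.Helper52.EK
namespace Pool.Agent.Helper69.EK3
end Pool.Agent.Helper69.EK3
namespace Pool.Agent.Helper69.EK7
end Pool.Agent.Helper69.EK7

set_option autoImplicit false

open Complex MeasureTheory Metric Set

open scoped Real ComplexConjugate

namespace Pool.Agent.Helper84.CK

open Pool.Agent.Helper52.EK Pool.Agent.Helper69.EK3 Pool.Agent.Helper69.EK7

variable {P : (ℂ → ℂ) → ℝ → ℝ → Prop}

/-- powers of `X - 1` times a function of `η` -/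
theorem isNullW_har {β : ℝ → ℝ} (hβ : Continuous β) (m : ℕ) (hm : m ≤ 2) :
    IsNullW P (fun X ξ η => β η * ((X (pt ξ η) - 1) ^ m).re)
      (fun X ξ => (∫ t in (0:ℝ)..(π / 2), β t) * ((X (pt ξ (π / 2)) - 1) ^ m).re) := by
  have hd : ∀ η : ℝ, HasDerivAt (fun η => -∫ t in (0:ℝ)..η, β t) (-β η) η := fun η =>
    (intervalIntegral.integral_hasDerivAt_right (hβ.intervalIntegrable _ _)
      hβ.stronglyMeasurable.stronglyMeasurableAtFilter hβ.continuousAt).neg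
  have hF : C1c (fun X => I * (X - 1) ^ m) (fun X => I * ((m : ℂ) * (X - 1) ^ (m - 1)))
      (fun X => I * (I * ((m : ℂ) * (X - 1) ^ (m - 1)))) := by
    refine C1c_holo (fun X => ?_) (by fun_prop)
    have h1 : HasDerivAt (fun X : ℂ => X - 1) 1 X := (hasDerivAt_id X).sub_const 1
    have h2 : HasDerivAt (fun X : ℂ => (X - 1) ^ m) ((m : ℂ) * (X - 1) ^ (m - 1)) X :=
      (h1.fun_pow m).congr_deriv (by ring)
    exact h2.const_mul I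
  obtain ⟨B, hB⟩ := (isCompact_Icc (a := (0:ℝ)) (b := π / 2)).bddAbove_image
    hβ.abs.continuousOn
  have hB' : ∀ η ∈ Icc (0:ℝ) (π / 2), |β η| ≤ B := fun η hη => hB (mem_image_of_mem _ hη)
  have hB0 : 0 ≤ B := (abs_nonneg _).trans (hB' 0 ⟨le_rfl, by positivity⟩)
  have h := isNullW_G (P := P) hF anF_one hd hβ.neg (by simp) (C := B * (π / 2)) (by
      intro X x₁ x₂ hx hX hP ξ hξ η hη
      have h1 : ‖∫ t in (0:ℝ)..η, β t‖ ≤ B * |η - 0| := by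
        refine intervalIntegral.norm_integral_le_of_norm_le_const fun t ht => ?_
        rw [uIoc_of_le hη.1] at ht
        exact hB' t ⟨ht.1.le, ht.2.trans hη.2⟩
      rw [Real.norm_eq_abs, sub_zero, abs_of_nonneg hη.1] at h1
      have h2 := Real.mul_le_sin hη.1 hη.2
      have hp := Real.pi_pos
      rw [div_mul_eq_mul_div, div_le_iff₀ hp] at h2
      have h3 : |-∫ t in (0:ℝ)..η, β t| ≤ B * (π / 2) * Real.sin η := by
        rw [abs_neg]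
        refine h1.trans ?_
        rw [mul_assoc]
        refine mul_le_mul_of_nonneg_left ?_ hB0
        (clear * - h2; linarith only [h2])
      have h4 := norm_pow_le m hm (X (pt ξ η))
      rw [one_mul] at h4
      rw [norm_mul, norm_I, one_mul, norm_one, mul_one]
      exact mul_le_mul h3 h4 (norm_nonneg _)
        (mul_nonneg (mul_nonneg hB0 (by positivity)) (sin_nn hη)))
  refine h.congr ?_ ?_
  · intro X ξ η
    unfold NG
    have e : I * ((m : ℂ) * (X (pt ξ η) - 1) ^ (m - 1)) +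
        I * (I * (I * ((m : ℂ) * (X (pt ξ η) - 1) ^ (m - 1)))) = 0 := by
      linear_combination (I * (m : ℂ) * (X (pt ξ η) - 1) ^ (m - 1)) * I_sq
    rw [e]
    simp
  · intro X ξ
    simp

end Pool.Agent.Helper84.CK

end

section

namespace Pool.Agent.Helper52.EK
end Pool.Agent.Helper52.EK
namespace Pool.Agent.Helper69.EK3
end Pool.Agent.Helper69.EK3
namespace Pool.Agent.Helper69.EK7
end Pool.Agent.Helper69.EK7

set_option autoImplicit false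

open Complex MeasureTheory Metric Set

open scoped Real ComplexConjugate

namespace Pool.Agent.Helper84.CK

open Pool.Agent.Helper52.EK Pool.Agent.Helper69.EK3 Pool.Agent.Helper69.EK7

variable {P : (ℂ → ℂ) → ℝ → ℝ → Prop}

/-- the linear null Lagrangian -/
theorem isNullW_lin : IsNullW P (fun X ξ η => 1 - (X (pt ξ η)).re)
    (fun X ξ => π / 2 * (1 - (X (pt ξ (π / 2))).re)) := by
  refine (isNullW_har (P := P) (β := fun _ => (-1 : ℝ)) continuous_const 1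
    (by norm_num)).congr ?_ ?_
  · intro X ξ η
    rw [pow_one, sub_re, one_re]
    ring
  · intro X ξ
    rw [pow_one, sub_re, one_re, intervalIntegral.integral_const, smul_eq_mul]
    ring

theorem Eg_const {X : ℂ → ℂ} {x₁ x₂ V : ℝ} (hx : x₁ ≤ x₂) (hX : NiceH X x₁ x₂) :
    Eg (fun _ _ => V) X x₁ x₂ = V * (π / 2 * (x₂ - x₁) + En X x₁ x₂) := by
  have hpi : (0:ℝ) ≤ π / 2 := by positivity
  unfold Eg
  rw [IH_const_mul, IH_add hx hpi (CH_const 1) (CH_en hX)]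
  congr 2
  unfold IH
  simp
  ring

/-- the two halves of the weighted integral of a functional with the mirror property -/
theorem split_w {x₁ x₂ : ℝ} (hx12 : x₁ ≤ x₂) {Ω : ℝ → ℝ → ℝ} {T : (ℂ → ℂ) → ℝ → ℝ → ℝ}
    {X : ℂ → ℂ} (cΩ : CH x₁ x₂ π Ω) (cT : CH x₁ x₂ π (T X))
    (hTm : ∀ ξ ∈ Icc x₁ x₂, ∀ η ∈ Icc (0:ℝ) (π / 2), T X ξ (π - η) = T (mir X) ξ η) :
    II x₁ x₂ (fun ξ η => Ω ξ η * T X ξ η) =
      IH x₁ x₂ (π / 2) (fun ξ η => Ω ξ η * T X ξ η) +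
      IH x₁ x₂ (π / 2) (fun ξ η => Ω ξ (π - η) * T (mir X) ξ η) := by
  have hpi : (0:ℝ) ≤ π / 2 := by (clear * -; positivity)
  have split := II_split hx12 (CH.mul cΩ cT)
  have e3 : IH x₁ x₂ (π / 2) (fun ξ η => Ω ξ (π - η) * T X ξ (π - η)) =
      IH x₁ x₂ (π / 2) (fun ξ η => Ω ξ (π - η) * T (mir X) ξ η) := by
    unfold IH
    refine intervalIntegral.integral_congr fun ξ hξ => ?_
    rw [uIcc_of_le hx12] at hξ
    refine intervalIntegral.integral_congr fun η hη => ?_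
    rw [uIcc_of_le hpi] at hη
    simp only
    rw [hTm ξ hξ η hη]
  rw [← e3]
  exact split

/-- The assembly. The pointwise inequality may have an integrable error `ε ξ`. -/
theorem stripW {k₂ lam dc D : ℝ} (hlam : 0 ≤ lam) (hk₂ : lam ≤ k₂) (hdc : 0 ≤ dc)
    {T Mt : (ℂ → ℂ) → ℝ → ℝ → ℝ}
    (hTc : ∀ (X : ℂ → ℂ) (x₁ x₂ : ℝ), NiceX X x₁ x₂ → CH x₁ x₂ π (T X))
    (hTh : ∀ (X : ℂ → ℂ) (x₁ x₂ : ℝ), NiceH X x₁ x₂ → CH x₁ x₂ (π / 2) (T X))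
    (hTm : ∀ (X : ℂ → ℂ) (x₁ x₂ : ℝ), NiceX X x₁ x₂ → ∀ ξ ∈ Icc x₁ x₂,
      ∀ η ∈ Icc (0:ℝ) (π / 2), T X ξ (π - η) = T (mir X) ξ η)
    (hMc : ∀ (X : ℂ → ℂ) (x₁ x₂ : ℝ), NiceX X x₁ x₂ → CH x₁ x₂ π (Mt X))
    (hMh : ∀ (X : ℂ → ℂ) (x₁ x₂ : ℝ), NiceH X x₁ x₂ → CH x₁ x₂ (π / 2) (Mt X))
    (hMm : ∀ (X : ℂ → ℂ) (x₁ x₂ : ℝ), NiceX X x₁ x₂ → ∀ ξ ∈ Icc x₁ x₂,
      ∀ η ∈ Icc (0:ℝ) (π / 2), Mt X ξ (π - η) = Mt (mir X) ξ η)
    {N : (ℂ → ℂ) → ℝ → ℝ → ℝ} {K : (ℂ → ℂ) → ℝ → ℝ} (hN : IsNullW P N K)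
    (hp : ∀ (X : ℂ → ℂ) (x₁ x₂ : ℝ), x₁ ≤ x₂ → NiceH X x₁ x₂ → P X x₁ x₂ →
      ∃ ε : ℝ → ℝ, Continuous ε ∧ (∀ ξ, 0 ≤ ε ξ) ∧ ∫ ξ in x₁..x₂, ε ξ ≤ D ∧
        ∀ ξ ∈ Icc x₁ x₂, ∀ η ∈ Icc (0:ℝ) (π / 2),
          T X ξ η ≤ k₂ * (1 - (X (pt ξ η)).re) +
            lam * (‖X (pt ξ η)‖ ^ 2 - (X (pt ξ η)).re) + dc + N X ξ η + Mt X ξ η + ε ξ) :
    ∃ C : ℝ, 0 ≤ C ∧ ∀ (X : ℂ → ℂ) (x₁ x₂ V : ℝ) (Ω Ω₁ Ω₂ : ℝ → ℝ → ℝ), x₁ ≤ x₂ → 0 ≤ V →
      WtF x₁ x₂ V Ω Ω₁ Ω₂ → NiceX X x₁ x₂ → P X x₁ x₂ → P (mir X) x₁ x₂ →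
      II x₁ x₂ (fun ξ η => Ω ξ η * T X ξ η) ≤
      lam * II x₁ x₂ (fun ξ η => ‖X (pt ξ η) - 1‖ ^ 2) +
        (k₂ - lam) * (π * ∫ ξ in x₁..x₂, Ω ξ (π / 2) * (1 - (X (pt ξ (π / 2))).re)) +
        dc * (π * (x₂ - x₁)) +
        (∫ ξ in x₁..x₂, Ω ξ (π / 2) * (K X ξ + K (mir X) ξ)) +
        II x₁ x₂ (fun ξ η => Ω ξ η * Mt X ξ η) +
        C * (1 + V * (π * (x₂ - x₁) + II x₁ x₂ (fun ξ η => ‖X (pt ξ η) - 1‖ ^ 2))) := by
  obtain ⟨C₁, hC₁⟩ := hN.le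
  obtain ⟨C₂, hC₂⟩ := (isNullW_lin (P := P)).le
  refine ⟨|C₁| + (k₂ - lam) * |C₂| + π * |D|, by
    have : 0 ≤ k₂ - lam := by (clear * - hk₂; linarith)
    (clear * - hk₂; positivity), fun X x₁ x₂ V Ω Ω₁ Ω₂ hx12 hV hw hX hP hP' => ?_⟩
  have hpi : (0:ℝ) ≤ π / 2 := by positivity
  have hkl : 0 ≤ k₂ - lam := by (clear * - hk₂; linarith)
  obtain ⟨E, hE⟩ : ∃ E, E = II x₁ x₂ (fun ξ η => ‖X (pt ξ η) - 1‖ ^ 2) := ⟨_, rfl⟩
  have hEE := En_add hx12 hX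
  rw [← hE] at hEE ⊢
  have hE0 : 0 ≤ E := by
    rw [← hEE]
    exact add_nonneg (En_nonneg hx12) (En_nonneg hx12)
  -- one half
  have half : ∀ (Z : ℂ → ℂ) (ω ω₁ ω₂ : ℝ → ℝ → ℝ), Wt x₁ x₂ ω ω₁ ω₂ (fun _ _ => V) →
      NiceH Z x₁ x₂ → P Z x₁ x₂ →
      IH x₁ x₂ (π / 2) (fun ξ η => ω ξ η * T Z ξ η) ≤
      (k₂ - lam) * (∫ ξ in x₁..x₂, ω ξ (π / 2) * (π / 2 * (1 - (Z (pt ξ (π / 2))).re))) +
        lam * En Z x₁ x₂ + dc * (π / 2 * (x₂ - x₁)) +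
        (∫ ξ in x₁..x₂, ω ξ (π / 2) * K Z ξ) +
        IH x₁ x₂ (π / 2) (fun ξ η => ω ξ η * Mt Z ξ η) +
        π / 2 * |D| + (|C₁| + (k₂ - lam) * |C₂|) * (V * (π / 2 * (x₂ - x₁) + En Z x₁ x₂)) := by
    intro Z ω ω₁ ω₂ hω hZ hPZ
    obtain ⟨ε, cε, ε0, εD, hε⟩ := hp Z x₁ x₂ hx12 hZ hPZ
    have b1 := hC₁ Z x₁ x₂ ω ω₁ ω₂ _ hx12 hω hZ hPZ
    have b2 := hC₂ Z x₁ x₂ ω ω₁ ω₂ _ hx12 hω hZ hPZ
    rw [Eg_const hx12 hZ] at b1 b2
    have hen := En_nonneg (X := Z) hx12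
    obtain ⟨F, hF⟩ : ∃ F, F = V * (π / 2 * (x₂ - x₁) + En Z x₁ x₂) := ⟨_, rfl⟩
    have hF0 : 0 ≤ F := by
      rw [hF]
      have : 0 ≤ x₂ - x₁ := by linarith only [hx12]
      (clear * - hV hx12 hen; positivity)
    rw [← hF] at b1 b2 ⊢
    have cT : CH x₁ x₂ (π / 2) (T Z) := hTh Z x₁ x₂ hZ
    have f1 : CH x₁ x₂ (π / 2) (fun ξ η => (k₂ - lam) * (ω ξ η * (1 - (Z (pt ξ η)).re))) :=
      (CH_const _).mul (hω.c0.mul
        (CH_comp hZ.an.continuousOn (W := fun X => 1 - X.re) (by fun_prop)))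
    have f2 : CH x₁ x₂ (π / 2) (fun ξ η => lam * ‖Z (pt ξ η) - 1‖ ^ 2) :=
      (CH_const _).mul (CH_comp hZ.an.continuousOn (W := fun X => ‖X - 1‖ ^ 2) (by fun_prop))
    have f3 : CH x₁ x₂ (π / 2) (fun ξ η => ω ξ η * N Z ξ η) := hω.c0.mul (hN.cN Z x₁ x₂ hZ)
    have f5 : CH x₁ x₂ (π / 2) (fun ξ η => ω ξ η * Mt Z ξ η) := hω.c0.mul (hMh Z x₁ x₂ hZ)
    have f4 : CH x₁ x₂ (π / 2) (fun ξ _ => ε ξ) := CH_xi cε
    have f6 : CH x₁ x₂ (π / 2) (fun _ _ => dc * 1) := CH_const _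
    have m := IH_mono hx12 hpi (hω.c0.mul cT) (((((f1.add f2).add f3).add f5).add f6).add f4) (by
      intro ξ hξ η hη
      have h1 := hε ξ hξ η hη
      obtain ⟨w0, w1⟩ := hω.b01 ξ hξ η hη
      have h2 := mul_le_mul_of_nonneg_left h1 w0
      refine h2.trans ?_
      obtain ⟨Q, hQ⟩ : ∃ Q, Q = Z (pt ξ η) := ⟨_, rfl⟩
      have hn : ‖Q - 1‖ ^ 2 = ‖Q‖ ^ 2 - 2 * Q.re + 1 := by
        rw [← normSq_eq_norm_sq, ← normSq_eq_norm_sq, normSq_apply, normSq_apply, sub_re, sub_im,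
          one_re, one_im]
        ring
      have h3 : ω ξ η * ε ξ ≤ ε ξ := mul_le_of_le_one_left (ε0 ξ) w1
      have h4 : ω ξ η * (lam * ‖Q - 1‖ ^ 2) ≤ lam * ‖Q - 1‖ ^ 2 :=
        mul_le_of_le_one_left (mul_nonneg hlam (sq_nonneg _)) w1
      have h5 : ω ξ η * (k₂ * (1 - Q.re) + lam * (‖Q‖ ^ 2 - Q.re) + dc + N Z ξ η + Mt Z ξ η +
          ε ξ) =
          (k₂ - lam) * (ω ξ η * (1 - Q.re)) + ω ξ η * (lam * ‖Q - 1‖ ^ 2) + ω ξ η * dc +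
            ω ξ η * N Z ξ η + ω ξ η * Mt Z ξ η + ω ξ η * ε ξ := by
        rw [hn]
        ring
      have h6 : ω ξ η * dc ≤ dc := mul_le_of_le_one_left hdc w1
      rw [← hQ, h5]
      linarith only [h3, h4, h6])
    have e0 : IH x₁ x₂ (π / 2) (fun _ _ => dc * 1) = dc * (π / 2 * (x₂ - x₁)) := by
      rw [IH_const_mul]
      congr 1
      unfold IH
      simp
      ring
    rw [IH_add hx12 hpi ((((f1.add f2).add f3).add f5).add f6) f4,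
      IH_add hx12 hpi (((f1.add f2).add f3).add f5) f6,
      IH_add hx12 hpi ((f1.add f2).add f3) f5, IH_add hx12 hpi (f1.add f2) f3,
      IH_add hx12 hpi f1 f2, e0, IH_const_mul, IH_const_mul, IH_xi] at m
    have hD : π / 2 * ∫ ξ in x₁..x₂, ε ξ ≤ π / 2 * |D| :=
      mul_le_mul_of_nonneg_left (εD.trans (le_abs_self D)) hpi
    have r1 : C₁ * F ≤ |C₁| * F := mul_le_mul_of_nonneg_right (le_abs_self C₁) hF0
    have r2 : C₂ * F ≤ |C₂| * F := mul_le_mul_of_nonneg_right (le_abs_self C₂) hF0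
    have b1' := (abs_le.1 b1).2
    have b2' := (abs_le.1 b2).2
    have b3 : (k₂ - lam) * IH x₁ x₂ (π / 2) (fun ξ η => ω ξ η * (1 - (Z (pt ξ η)).re)) ≤
        (k₂ - lam) * ((∫ ξ in x₁..x₂, ω ξ (π / 2) * (π / 2 * (1 - (Z (pt ξ (π / 2))).re))) +
          |C₂| * F) := mul_le_mul_of_nonneg_left (by (clear * - r2 b2'; linarith only [r2, b2'])) hkl
    rw [mul_add] at b3
    refine m.trans ?_
    have e : (|C₁| + (k₂ - lam) * |C₂|) * F = |C₁| * F + (k₂ - lam) * (|C₂| * F) := by ring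
    rw [e]
    unfold En
    linarith
  have t1 := half X Ω Ω₁ Ω₂ hw.half (NiceX.half hX) hP
  have t2 := half (mir X) _ _ _ hw.mir (NiceX.mir hX) hP'
  have s1 := split_w (T := T) hx12 hw.c0 (hTc X x₁ x₂ hX) (hTm X x₁ x₂ hX)
  have s2 := split_w (T := Mt) hx12 hw.c0 (hMc X x₁ x₂ hX) (hMm X x₁ x₂ hX)
  have epi : π - π / 2 = π / 2 := by ring
  simp only [epi] at t2
  rw [s1, s2]
  -- the line integrals
  have cΩ := CH_line hw.half.c0 pi2_mem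
  have cXc : ContinuousOn (fun ξ : ℝ => X (pt ξ (π / 2))) (Icc x₁ x₂) :=
    contC (NiceX.half hX).an.continuousOn
  have i1 : IntervalIntegrable (fun ξ => Ω ξ (π / 2) * K X ξ) volume x₁ x₂ :=
    (cΩ.mul (hN.cK X x₁ x₂ (NiceX.half hX))).intervalIntegrable_of_Icc hx12
  have i2 : IntervalIntegrable (fun ξ => Ω ξ (π / 2) * K (mir X) ξ) volume x₁ x₂ :=
    (cΩ.mul (hN.cK (mir X) x₁ x₂ (NiceX.mir hX))).intervalIntegrable_of_Icc hx12
  have s3 : ∫ ξ in x₁..x₂, Ω ξ (π / 2) * (K X ξ + K (mir X) ξ) =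
      (∫ ξ in x₁..x₂, Ω ξ (π / 2) * K X ξ) + ∫ ξ in x₁..x₂, Ω ξ (π / 2) * K (mir X) ξ := by
    rw [← intervalIntegral.integral_add i1 i2]
    simp only [mul_add]
  rw [s3]
  obtain ⟨S, hS⟩ : ∃ S, S = ∫ ξ in x₁..x₂, Ω ξ (π / 2) * (1 - (X (pt ξ (π / 2))).re) := ⟨_, rfl⟩
  have e5 : ∫ ξ in x₁..x₂, Ω ξ (π / 2) * (π / 2 * (1 - (X (pt ξ (π / 2))).re)) = π / 2 * S := by
    rw [hS, ← intervalIntegral.integral_const_mul]
    refine intervalIntegral.integral_congr fun ξ _ => ?_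
    ring
  have e6 : ∫ ξ in x₁..x₂, Ω ξ (π / 2) * (π / 2 * (1 - (mir X (pt ξ (π / 2))).re)) =
      π / 2 * S := by
    rw [← e5]
    refine intervalIntegral.integral_congr fun ξ _ => ?_
    rw [mir_cent, conj_re]
  rw [e5] at t1
  rw [e6] at t2
  rw [← hS]
  have hF : V * (π / 2 * (x₂ - x₁) + En X x₁ x₂) + V * (π / 2 * (x₂ - x₁) + En (mir X) x₁ x₂) =
      V * (π * (x₂ - x₁) + E) := by
    rw [← hEE]
    ring
  have hFn : 0 ≤ V * (π * (x₂ - x₁) + E) := by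
    have : 0 ≤ x₂ - x₁ := by linarith only [hx12]
    (clear * - hV hx12 hE0; positivity)
  obtain ⟨c, hc⟩ : ∃ c, c = |C₁| + (k₂ - lam) * |C₂| := ⟨_, rfl⟩
  have hc0 : 0 ≤ c := by rw [hc]; (clear * - hk₂; positivity)
  rw [← hc] at t1 t2 ⊢
  have e7 : (c + π * |D|) * (1 + V * (π * (x₂ - x₁) + E)) =
      c * (V * (π * (x₂ - x₁) + E)) + c + π * |D| + π * |D| * (V * (π * (x₂ - x₁) + E)) := by
    ring
  have e8 : c * (V * (π / 2 * (x₂ - x₁) + En X x₁ x₂)) +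
      c * (V * (π / 2 * (x₂ - x₁) + En (mir X) x₁ x₂)) = c * (V * (π * (x₂ - x₁) + E)) := by
    rw [← mul_add, hF]
  have e9 : 0 ≤ π * |D| * (V * (π * (x₂ - x₁) + E)) :=
    mul_nonneg (mul_nonneg Real.pi_pos.le (abs_nonneg D)) hFn
  have e10 : lam * En X x₁ x₂ + lam * En (mir X) x₁ x₂ = lam * E := by rw [← mul_add, hEE]
  have e11 : dc * (π * (x₂ - x₁)) = dc * (π / 2 * (x₂ - x₁)) + dc * (π / 2 * (x₂ - x₁)) := by
    ring
  rw [e7, e11]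
  linarith only [t2, t1, hc0, e8, e9, e10]

end Pool.Agent.Helper84.CK

end

section

namespace Pool.Agent.Helper39.Area
end Pool.Agent.Helper39.Area
namespace Pool.Agent.Helper52.EK
end Pool.Agent.Helper52.EK
namespace Pool.Agent.Helper69.EK3
end Pool.Agent.Helper69.EK3
namespace Pool.Agent.Helper69.EK7
end Pool.Agent.Helper69.EK7

set_option autoImplicit false

open Complex MeasureTheory Metric Set

open scoped Real ComplexConjugate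

namespace Pool.Agent.Helper84.CK

open Pool.Agent.Helper39.Area Pool.Agent.Helper52.EK Pool.Agent.Helper69.EK3

open Pool.Agent.Helper69.EK7

/-- the integrated inequality with a weight -/
def StripIneqW (lam k₂ dc : ℝ) (T Mt : (ℂ → ℂ) → ℝ → ℝ → ℝ) (adm : (ℂ → ℂ) → ℝ → ℝ → Prop) :
    Prop :=
  ∃ C : ℝ, 0 ≤ C ∧ ∀ (X : ℂ → ℂ) (x₁ x₂ V : ℝ) (Ω Ω₁ Ω₂ : ℝ → ℝ → ℝ), x₁ ≤ x₂ → 0 ≤ V →
    WtF x₁ x₂ V Ω Ω₁ Ω₂ → NiceX X x₁ x₂ → adm X x₁ x₂ →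
    II x₁ x₂ (fun ξ η => Ω ξ η * T X ξ η) ≤
    lam * II x₁ x₂ (fun ξ η => ‖X (pt ξ η) - 1‖ ^ 2) +
      (k₂ - lam) * (π * ∫ ξ in x₁..x₂, (1 - (X (pt ξ (π / 2))).re)) +
      dc * (π * (x₂ - x₁)) +
      II x₁ x₂ (fun ξ η => Ω ξ η * Mt X ξ η) +
      C * (1 + V * (x₂ - x₁ + II x₁ x₂ (fun ξ η => ‖X (pt ξ η) - 1‖ ^ 2)))

/-- a cut-off function of one variable -/
structure Cut1 (x₁ x₂ V : ℝ) (χ χ₁ : ℝ → ℝ) : Prop where
  c0 : ContinuousOn χ (Icc x₁ x₂)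
  c1 : ContinuousOn χ₁ (Icc x₁ x₂)
  d : ∀ ξ ∈ Icc x₁ x₂, HasDerivAt χ (χ₁ ξ) ξ
  e1 : χ x₁ = 0
  e2 : χ x₂ = 0
  b01 : ∀ ξ ∈ Icc x₁ x₂, 0 ≤ χ ξ ∧ χ ξ ≤ 1
  k1 : ∀ ξ ∈ Icc x₁ x₂, |χ₁ ξ| ≤ V

theorem pi2_mem' : π / 2 ∈ Icc (0:ℝ) π := ⟨by positivity, by (clear * -; linarith only [Real.pi_pos])⟩

theorem WtF.line {x₁ x₂ V : ℝ} {Ω Ω₁ Ω₂ : ℝ → ℝ → ℝ} (h : WtF x₁ x₂ V Ω Ω₁ Ω₂) :
    Cut1 x₁ x₂ V (fun ξ => Ω ξ (π / 2)) (fun ξ => Ω₁ ξ (π / 2)) := by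
  refine ⟨CH_line h.half.c0 pi2_mem, CH_line h.half.c1 pi2_mem,
    fun ξ hξ => h.d1 ξ hξ _ pi2_mem', h.e1 _ pi2_mem', h.e2 _ pi2_mem',
    fun ξ hξ => h.b01 ξ hξ _ pi2_mem', fun ξ hξ => ?_⟩
  have := h.g1 ξ hξ _ pi2_mem'
  rwa [Real.sin_pi_div_two, mul_one] at this

variable {P : (ℂ → ℂ) → ℝ → ℝ → Prop}

/-- the integrated inequality from the pointwise one and the centre line -/
theorem stripW_b {k₂ lam dc D : ℝ} (hlam : 0 ≤ lam) (hk₂ : lam ≤ k₂) (hdc : 0 ≤ dc)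
    {T Mt : (ℂ → ℂ) → ℝ → ℝ → ℝ}
    (hTc : ∀ (X : ℂ → ℂ) (x₁ x₂ : ℝ), NiceX X x₁ x₂ → CH x₁ x₂ π (T X))
    (hTh : ∀ (X : ℂ → ℂ) (x₁ x₂ : ℝ), NiceH X x₁ x₂ → CH x₁ x₂ (π / 2) (T X))
    (hTm : ∀ (X : ℂ → ℂ) (x₁ x₂ : ℝ), NiceX X x₁ x₂ → ∀ ξ ∈ Icc x₁ x₂,
      ∀ η ∈ Icc (0:ℝ) (π / 2), T X ξ (π - η) = T (mir X) ξ η)
    (hMc : ∀ (X : ℂ → ℂ) (x₁ x₂ : ℝ), NiceX X x₁ x₂ → CH x₁ x₂ π (Mt X))
    (hMh : ∀ (X : ℂ → ℂ) (x₁ x₂ : ℝ), NiceH X x₁ x₂ → CH x₁ x₂ (π / 2) (Mt X))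
    (hMm : ∀ (X : ℂ → ℂ) (x₁ x₂ : ℝ), NiceX X x₁ x₂ → ∀ ξ ∈ Icc x₁ x₂,
      ∀ η ∈ Icc (0:ℝ) (π / 2), Mt X ξ (π - η) = Mt (mir X) ξ η)
    {N : (ℂ → ℂ) → ℝ → ℝ → ℝ} {K : (ℂ → ℂ) → ℝ → ℝ} (hN : IsNullW P N K)
    (hp : ∀ (X : ℂ → ℂ) (x₁ x₂ : ℝ), x₁ ≤ x₂ → NiceH X x₁ x₂ → P X x₁ x₂ →
      ∃ ε : ℝ → ℝ, Continuous ε ∧ (∀ ξ, 0 ≤ ε ξ) ∧ ∫ ξ in x₁..x₂, ε ξ ≤ D ∧
        ∀ ξ ∈ Icc x₁ x₂, ∀ η ∈ Icc (0:ℝ) (π / 2),
          T X ξ η ≤ k₂ * (1 - (X (pt ξ η)).re) +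
            lam * (‖X (pt ξ η)‖ ^ 2 - (X (pt ξ η)).re) + dc + N X ξ η + Mt X ξ η + ε ξ)
    {Q : (ℂ → ℂ) → ℝ → ℝ → Prop}
    (hCen : ∃ C' : ℝ, ∀ (x₁ x₂ V : ℝ) (χ χ₁ : ℝ → ℝ) (X : ℂ → ℂ),
      Cut1 x₁ x₂ V χ χ₁ → x₁ ≤ x₂ → 0 ≤ V → NiceX X x₁ x₂ → Q X x₁ x₂ →
      ∫ ξ in x₁..x₂, χ ξ * (K X ξ + K (mir X) ξ) ≤ C' * (1 + V * (x₂ - x₁)))
    {D' : ℝ} (hQ : ∀ (X : ℂ → ℂ) (x₁ x₂ : ℝ), Q X x₁ x₂ → ∃ δ : ℝ → ℝ, Continuous δ ∧
      (∀ ξ ∈ Icc x₁ x₂, 0 ≤ δ ξ) ∧ (∀ ξ ∈ Icc x₁ x₂, (X (pt ξ (π / 2))).re ≤ 1 + δ ξ) ∧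
      ∫ ξ in x₁..x₂, δ ξ ≤ D') :
    StripIneqW lam k₂ dc T Mt (fun X x₁ x₂ => P X x₁ x₂ ∧ P (mir X) x₁ x₂ ∧ Q X x₁ x₂) := by
  obtain ⟨C, hC0, hC⟩ := stripW hlam hk₂ hdc hTc hTh hTm hMc hMh hMm hN hp
  obtain ⟨C', hC'⟩ := hCen
  have hkl : 0 ≤ k₂ - lam := by linarith
  refine ⟨C * π + |C'| + (k₂ - lam) * (π * |D'|), by (clear * - hC0 hk₂; positivity), ?_⟩
  rintro X x₁ x₂ V Ω Ω₁ Ω₂ hx12 hV hw hX ⟨hP, hP', hQX⟩
  obtain ⟨δ, cδ, δ0, hδ, hD'⟩ := hQ X x₁ x₂ hQX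
  have hmain := hC X x₁ x₂ V Ω Ω₁ Ω₂ hx12 hV hw hX hP hP'
  have hl := hw.line
  have h1 := hC' x₁ x₂ V _ _ X hl hx12 hV hX hQX
  have hE0 : 0 ≤ II x₁ x₂ (fun ξ η => ‖X (pt ξ η) - 1‖ ^ 2) := by
    rw [← En_add hx12 hX]
    exact add_nonneg (En_nonneg hx12) (En_nonneg hx12)
  -- the linear term
  have cXc : ContinuousOn (fun ξ : ℝ => (X (pt ξ (π / 2))).re) (Icc x₁ x₂) :=
    Complex.continuous_re.comp_continuousOn (contC (NiceX.half hX).an.continuousOn)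
  have h2 : ∫ ξ in x₁..x₂, Ω ξ (π / 2) * (1 - (X (pt ξ (π / 2))).re) ≤
      (∫ ξ in x₁..x₂, (1 - (X (pt ξ (π / 2))).re)) + |D'| := by
    have j1 : ContinuousOn (fun ξ : ℝ => Ω ξ (π / 2) * (1 - (X (pt ξ (π / 2))).re))
        (Icc x₁ x₂) := hl.c0.mul (continuousOn_const.sub cXc)
    have j2 : ContinuousOn (fun ξ : ℝ => (1 - (X (pt ξ (π / 2))).re)) (Icc x₁ x₂) :=
      continuousOn_const.sub cXc
    have j3 : ContinuousOn δ (Icc x₁ x₂) := cδ.continuousOn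
    have i1 : IntervalIntegrable (fun ξ : ℝ => Ω ξ (π / 2) * (1 - (X (pt ξ (π / 2))).re))
        volume x₁ x₂ := j1.intervalIntegrable_of_Icc hx12
    have i2 : IntervalIntegrable (fun ξ : ℝ => (1 - (X (pt ξ (π / 2))).re)) volume x₁ x₂ :=
      j2.intervalIntegrable_of_Icc hx12
    have i3 : IntervalIntegrable δ volume x₁ x₂ := j3.intervalIntegrable_of_Icc hx12
    have m : ∫ ξ in x₁..x₂, Ω ξ (π / 2) * (1 - (X (pt ξ (π / 2))).re) ≤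
        ∫ ξ in x₁..x₂, ((1 - (X (pt ξ (π / 2))).re) + δ ξ) := by
      refine intervalIntegral.integral_mono_on hx12 i1 (i2.add i3) ?_
      intro ξ hξ
      obtain ⟨w0, w1⟩ := hl.b01 ξ hξ
      have r1 := hδ ξ hξ
      have r2 := δ0 ξ hξ
      obtain ⟨p, hp⟩ : ∃ p, p = (X (pt ξ (π / 2))).re := ⟨_, rfl⟩
      obtain ⟨o, ho⟩ : ∃ o, o = Ω ξ (π / 2) := ⟨_, rfl⟩
      obtain ⟨q, hq⟩ : ∃ q, q = δ ξ := ⟨_, rfl⟩
      have w0' : 0 ≤ o := by rw [ho]; exact w0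
      have w1' : o ≤ 1 := by rw [ho]; exact w1
      rw [← hp, ← hq] at r1
      rw [← hq] at r2
      rw [← hp, ← ho, ← hq]
      (clear * - r2 w0' r1 w1'; nlinarith only [r2, r1, w0', w1'])
    rw [intervalIntegral.integral_add i2 i3] at m
    have := hD'.trans (le_abs_self D')
    linarith only [m, this]
  obtain ⟨E, hE⟩ : ∃ E, E = II x₁ x₂ (fun ξ η => ‖X (pt ξ η) - 1‖ ^ 2) := ⟨_, rfl⟩
  rw [← hE] at hmain hE0 ⊢
  have h3 : (k₂ - lam) * (π * ∫ ξ in x₁..x₂, Ω ξ (π / 2) * (1 - (X (pt ξ (π / 2))).re)) ≤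
      (k₂ - lam) * (π * ((∫ ξ in x₁..x₂, (1 - (X (pt ξ (π / 2))).re)) + |D'|)) :=
    mul_le_mul_of_nonneg_left (mul_le_mul_of_nonneg_left h2 Real.pi_pos.le) hkl
  have h4 : (k₂ - lam) * (π * ((∫ ξ in x₁..x₂, (1 - (X (pt ξ (π / 2))).re)) + |D'|)) =
      (k₂ - lam) * (π * ∫ ξ in x₁..x₂, (1 - (X (pt ξ (π / 2))).re)) +
        (k₂ - lam) * (π * |D'|) := by ring
  have hd : 0 ≤ x₂ - x₁ := by linarith only [hx12]
  have hVd : 0 ≤ V * (x₂ - x₁) := mul_nonneg hV hd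
  have hVE : 0 ≤ V * E := mul_nonneg hV hE0
  have h5 : C' * (1 + V * (x₂ - x₁)) ≤ |C'| * (1 + V * (x₂ - x₁)) :=
    mul_le_mul_of_nonneg_right (le_abs_self C') (by linarith only [hVd])
  have hpi := Real.pi_pos
  have hpi1 : 1 ≤ π := by linarith only [Real.pi_gt_three]
  have h6 : C * (1 + V * (π * (x₂ - x₁) + E)) ≤ C * π * (1 + V * (x₂ - x₁ + E)) := by
    rw [mul_assoc]
    refine mul_le_mul_of_nonneg_left ?_ hC0
    (clear * - hpi1 hVE; nlinarith only [hVE, hpi1])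
  have h7 : (C * π + |C'| + (k₂ - lam) * (π * |D'|)) * (1 + V * (x₂ - x₁ + E)) =
      C * π * (1 + V * (x₂ - x₁ + E)) + |C'| * (1 + V * (x₂ - x₁)) + |C'| * (V * E) +
        (k₂ - lam) * (π * |D'|) + (k₂ - lam) * (π * |D'|) * (V * (x₂ - x₁) + V * E) := by ring
  have n1 : 0 ≤ |C'| * (V * E) := mul_nonneg (abs_nonneg _) hVE
  have n2 : 0 ≤ (k₂ - lam) * (π * |D'|) * (V * (x₂ - x₁) + V * E) :=
    mul_nonneg (mul_nonneg hkl (by (clear * -; positivity))) (by linarith only [hVd, hVE])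
  rw [h7]
  linarith only [h1, hmain, h3, h5, h6, n1, n2]

/-- **the bound for one target, with a weight and with the critical multiplier** -/
theorem K_oneW {lam k₂ dc κ : ℝ} {w : (ℂ → ℂ) → ℂ → ℂ} {T Mt : (ℂ → ℂ) → ℝ → ℝ → ℝ}
    (hE3 : ∃ C : ℝ, ∀ (β : ℂ → ℂ) (R a : ℝ), ExtR β R → Real.exp (-1) < a → a < 1 →
      Real.log (tau a) + 1 ≤ -1 →
      Kf (w β) 1 (-1) (Real.log a) ≤ π⁻¹ * II (Real.log (tau a) + 1) (-1) (T (Xf β a)) + C)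
    (hT4 : ∀ (X : ℂ → ℂ) (ξ η : ℝ), T X ξ η ≤ 4)
    (hTc : ∀ (X : ℂ → ℂ) (x₁ x₂ : ℝ), NiceX X x₁ x₂ → CH x₁ x₂ π (T X))
    {adm : (ℂ → ℂ) → ℝ → ℝ → Prop}
    (hadm : ∀ (β : ℂ → ℂ) (R a : ℝ), ExtR β R → 0 < a → a < 1 → Real.log (tau a) + 1 ≤ -1 →
      adm (Xf β a) (Real.log (tau a) + 1) (-1))
    (line : ∀ δ : ℝ, 0 < δ → ∃ C : ℝ, ∀ (β : ℂ → ℂ) (R a : ℝ), ExtR β R → 0 < a → a < 1 →
      ∀ x₁ x₂ : ℝ, Real.log (tau a) + 1 ≤ x₁ → x₁ ≤ x₂ → x₂ ≤ -1 →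
      2 * ∫ ξ in x₁..x₂, (1 - (Xf β a (pt ξ (π / 2))).re) ≤
        (1 + δ) * Real.log (‖N β a‖ / (1 - a ^ 2)) + C)
    (hS : StripIneqW lam k₂ dc T Mt adm) (h0 : 0 ≤ lam) (h1 : lam ≤ k₂)
    (hκ : k₂ < 2 * κ) : ∃ e C V₀ a₀ : ℝ, 0 < e ∧ 0 ≤ C ∧ 0 < V₀ ∧ a₀ < 1 ∧
      ∀ (β : ℂ → ℂ) (R a V : ℝ) (Ω Ω₁ Ω₂ : ℝ → ℝ → ℝ), ExtR β R → a₀ < a → a < 1 →
      0 ≤ V → V ≤ V₀ → WtF (Real.log (tau a) + 1) (-1) V Ω Ω₁ Ω₂ →
      Kf (w β) 1 (-1) (Real.log a) +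
          e * II (Real.log (tau a) + 1) (-1) (fun ξ η => ‖Xf β a (pt ξ η) - 1‖ ^ 2) ≤
        κ * Real.log (‖N β a‖ / (1 - a ^ 2)) +
          π⁻¹ * II (Real.log (tau a) + 1) (-1) (fun ξ η => Ω ξ η * Mt (Xf β a) ξ η) +
          4 * π⁻¹ * II (Real.log (tau a) + 1) (-1) (fun ξ η => 1 - Ω ξ η) +
          dc * (-1 - (Real.log (tau a) + 1)) +
          C * (1 + V * (-1 - (Real.log (tau a) + 1))) := by
  obtain ⟨C₁, hC₁0, hC₁⟩ := hS
  obtain ⟨Cd, hCd⟩ := Pool.Agent.Helper16.EK.E1d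
  obtain ⟨d, hd⟩ : ∃ d, d = 2 * κ - k₂ := ⟨_, rfl⟩
  have hd0 : 0 < d := by rw [hd]; linarith
  obtain ⟨V₀, hV₀⟩ : ∃ V₀, V₀ = d / (8 * (C₁ + 1)) := ⟨_, rfl⟩
  have hV₀0 : 0 < V₀ := by rw [hV₀]; (clear * - hd0 hC₁0; positivity)
  have hCV : C₁ * V₀ ≤ d / 8 := by
    have h2 : 8 * (V₀ * (C₁ + 1)) = d := by
      rw [hV₀]
      (clear * - hC₁0 hd0; field_simp)
    linarith only [hV₀0, h2]
  -- the energy coefficient
  obtain ⟨k, hk⟩ : ∃ k, k = lam + d / 8 + d / 8 := ⟨_, rfl⟩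
  have hk0 : 0 ≤ k := by rw [hk]; (clear * - h0 hκ hd; linarith only [h0, hκ, hd])
  obtain ⟨g, hg⟩ : ∃ g, g = d / (4 * (k + 1)) := ⟨_, rfl⟩
  have hg0 : 0 < g := by rw [hg]; (clear * - hd0 hk0; positivity)
  have hkg : k * g ≤ d / 4 := by
    have h2 : 4 * (g * (k + 1)) = d := by
      rw [hg]
      (clear * - hk0 hd0; field_simp)
    linarith only [hg0, h2]
  obtain ⟨e, he⟩ : ∃ e, e = d / (4 * (k₂ - lam + 1)) := ⟨_, rfl⟩
  have hkl : 0 < k₂ - lam + 1 := by linarith only [h1]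
  have he0 : 0 < e := by rw [he]; (clear * - hd0 h1; positivity)
  have hke : (k₂ - lam) * e ≤ d / 4 := by
    have h2 : 4 * (e * (k₂ - lam + 1)) = d := by
      rw [he]
      (clear * - hkl hd0; field_simp)
    linarith only [he0, h2]
  obtain ⟨Cs, hCs⟩ := line e he0
  obtain ⟨C₃, hC₃⟩ := hE3
  have hπ : 0 < π := Real.pi_pos
  have hπi : 0 < π⁻¹ := inv_pos.mpr hπ
  refine ⟨π⁻¹ * (d / 8), |C₃| + π⁻¹ * (k * ((1 + 1 / g) * |Cd|)) + (k₂ - lam) * (|Cs| / 2) +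
    π⁻¹ * C₁, V₀, max (Real.exp (-1)) (1 - Real.exp (-2 * 1)), by positivity,
    by
      have : 0 ≤ k₂ - lam := by linarith only [h1]
      (clear * - hk0 hg0 h1 hC₁0; positivity), hV₀0, ?_, ?_⟩
  · apply max_lt
    · rw [← Real.exp_zero]
      exact Real.exp_lt_exp.mpr (by norm_num)
    · linarith only [Real.exp_pos (-2 * 1)]
  intro β R a V Ω Ω₁ Ω₂ hβ ha ha1 hV hVV hw
  have hae : Real.exp (-1) < a := lt_of_le_of_lt (le_max_left _ _) ha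
  have ha0 : 0 < a := (Real.exp_pos _).trans hae
  have hfar := Pool.Agent.Helper83.EK.tau_far (A := 1) (lt_of_le_of_lt (le_max_right _ _) ha) ha0
    ha1
  have hK := hC₃ β R a hβ hae ha1 hfar
  obtain ⟨x₁, hx₁⟩ : ∃ x₁, x₁ = Real.log (tau a) + 1 := ⟨_, rfl⟩
  rw [← hx₁] at hK hfar hw ⊢
  have hx12 : x₁ ≤ -1 := by linarith only [hfar]
  have hxt : Real.log (tau a) < x₁ := by linarith only [hx₁]
  have hX : NiceX (Xf β a) x₁ (-1) := Pool.Agent.Helper67.EK.E1c hβ ha0 ha1 hxt (by norm_num)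
  have hst := hC₁ (Xf β a) x₁ (-1) V Ω Ω₁ Ω₂ hx12 hV hw hX (by
    rw [hx₁]
    exact hadm β R a hβ ha0 ha1 (by rw [← hx₁]; exact hx12))
  have hb := Pool.Agent.Helper86.EK.E1b hβ ha0 ha1 hxt hx12 (by norm_num)
  have hdd := hCd a ha0 ha1 x₁ (-1) hx₁.ge hx12 le_rfl
  have hs := hCs β R a hβ ha0 ha1 x₁ (-1) hx₁.ge hx12 le_rfl
  obtain ⟨Λ, hΛ⟩ : ∃ Λ, Λ = Real.log (‖N β a‖ / (1 - a ^ 2)) := ⟨_, rfl⟩
  rw [← hΛ] at hb hs ⊢
  -- the part where the weight is smaller than `1`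
  have cT : CH x₁ (-1) π (T (Xf β a)) := hTc _ _ _ hX
  have hsplit : II x₁ (-1) (T (Xf β a)) ≤ II x₁ (-1) (fun ξ η => Ω ξ η * T (Xf β a) ξ η) +
      4 * II x₁ (-1) (fun ξ η => 1 - Ω ξ η) := by
    have e1 : ∀ (y₁ y₂ : ℝ) (F : ℝ → ℝ → ℝ), II y₁ y₂ F = IH y₁ y₂ π F := fun _ _ _ => rfl
    have c3 : CH x₁ (-1) π (fun ξ η => 4 * (1 - Ω ξ η)) :=
      (CH_const 4).mul (CH.sub (CH_const 1) hw.c0)
    rw [e1, e1, e1, ← IH_const_mul, ← IH_add hx12 hπ.le (hw.c0.mul cT) c3]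
    refine IH_mono hx12 hπ.le cT ((hw.c0.mul cT).add c3) ?_
    intro ξ hξ η hη
    obtain ⟨w0, w1⟩ := hw.b01 ξ hξ η hη
    have h4 := hT4 (Xf β a) ξ η
    (clear * - w1 h4; nlinarith only [w1, h4])
  -- continuity
  have cX : ContinuousOn (fun v : ℝ × ℝ => Xf β a (pt v.1 v.2)) (Icc x₁ (-1) ×ˢ Icc 0 π) :=
    hX.an.continuousOn.comp Pool.Agent.Helper70.EK.continuous_pt.continuousOn
      (Pool.Agent.Helper83.EK.pt_mapsTo _ _)
  have cK : ContinuousOn (fun v : ℝ × ℝ => kap a (pt v.1 v.2)) (Icc x₁ (-1) ×ˢ Icc 0 π) :=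
    Pool.Agent.Helper83.EK.kap_contOn ha0 ha1 hxt (by norm_num)
  have c1 : ContinuousOn (fun v : ℝ × ℝ => ‖Xf β a (pt v.1 v.2) - 1‖ ^ 2)
      (Icc x₁ (-1) ×ˢ Icc 0 π) := (cX.sub continuousOn_const).norm.pow 2
  have c2 : ContinuousOn (fun v : ℝ × ℝ => ‖2 * Xf β a (pt v.1 v.2) - 2 * kap a (pt v.1 v.2)‖ ^ 2)
      (Icc x₁ (-1) ×ˢ Icc 0 π) :=
    ((continuousOn_const.mul cX).sub (continuousOn_const.mul cK)).norm.pow 2
  have c3 : ContinuousOn (fun v : ℝ × ℝ => ‖kap a (pt v.1 v.2) - 1‖ ^ 2)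
      (Icc x₁ (-1) ×ˢ Icc 0 π) := (cK.sub continuousOn_const).norm.pow 2
  have hE := Pool.Agent.Helper83.EK.II_le3 (F₁ := fun ξ η => ‖Xf β a (pt ξ η) - 1‖ ^ 2)
    (F₂ := fun ξ η => ‖2 * Xf β a (pt ξ η) - 2 * kap a (pt ξ η)‖ ^ 2)
    (F₃ := fun ξ η => ‖kap a (pt ξ η) - 1‖ ^ 2) (p := (1 + g) / 4) (q := 1 + 1 / g)
    hx12 c1 c2 c3 (by
      intro ξ η
      have h1 : Xf β a (pt ξ η) - 1 = (2 * Xf β a (pt ξ η) - 2 * kap a (pt ξ η)) / 2 +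
        (kap a (pt ξ η) - 1) := by ring
      have h2 : ‖Xf β a (pt ξ η) - 1‖ ≤ ‖2 * Xf β a (pt ξ η) - 2 * kap a (pt ξ η)‖ / 2 +
          ‖kap a (pt ξ η) - 1‖ := by
        rw [h1]
        refine (norm_add_le _ _).trans ?_
        rw [norm_div]
        simp
      have h3 := norm_nonneg (Xf β a (pt ξ η) - 1)
      have h4 := norm_nonneg (2 * Xf β a (pt ξ η) - 2 * kap a (pt ξ η))
      have h5 := norm_nonneg (kap a (pt ξ η) - 1)
      generalize ‖Xf β a (pt ξ η) - 1‖ = u at *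
      generalize ‖2 * Xf β a (pt ξ η) - 2 * kap a (pt ξ η)‖ = v at *
      generalize ‖kap a (pt ξ η) - 1‖ = w at *
      have h6 : u ^ 2 ≤ (v / 2 + w) ^ 2 := by (clear * - h3 h2; nlinarith only [h3, h2])
      have h7 : (v / 2 + w) ^ 2 ≤ (1 + g) / 4 * v ^ 2 + (1 + 1 / g) * w ^ 2 := by
        have h8 : (1 + g) / 4 * v ^ 2 + (1 + 1 / g) * w ^ 2 - (v / 2 + w) ^ 2 =
            (g * v / 2 - w) ^ 2 / g := by
          field_simp
          ring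
        have h9 : 0 ≤ (g * v / 2 - w) ^ 2 / g := by (clear * - hg0; positivity)
        linarith only [h8, h9]
      exact h6.trans h7)
  -- assemble
  have hEn : 0 ≤ II x₁ (-1) (fun ξ η => ‖Xf β a (pt ξ η) - 1‖ ^ 2) :=
    Pool.Agent.Helper83.EK.II_nonneg hx12 (fun ξ η => by (clear * -; positivity))
  obtain ⟨E, hEdef⟩ : ∃ E, E = II x₁ (-1) (fun ξ η => ‖Xf β a (pt ξ η) - 1‖ ^ 2) := ⟨_, rfl⟩
  rw [← hEdef] at hE hEn hst ⊢
  obtain ⟨S, hSdef⟩ : ∃ S, S = ∫ ξ in x₁..(-1), (1 - (Xf β a (pt ξ (π / 2))).re) := ⟨_, rfl⟩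
  rw [← hSdef] at hst hs
  obtain ⟨Mv, hMv⟩ : ∃ Mv, Mv = II x₁ (-1) (fun ξ η => Ω ξ η * Mt (Xf β a) ξ η) := ⟨_, rfl⟩
  rw [← hMv] at hst ⊢
  obtain ⟨Wv, hWv⟩ : ∃ Wv, Wv = II x₁ (-1) (fun ξ η => 1 - Ω ξ η) := ⟨_, rfl⟩
  rw [← hWv] at hsplit ⊢
  have hE2 : E ≤ (1 + g) / 4 * (2 * π * Λ) + (1 + 1 / g) * |Cd| := by
    have h1 : 0 < (1 + g) / 4 := by (clear * - hg0; positivity)
    have h2 : 0 < 1 + 1 / g := by positivity
    have h3 := mul_le_mul_of_nonneg_left hb h1.le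
    have h4 := mul_le_mul_of_nonneg_left (hdd.trans (le_abs_self Cd)) h2.le
    linarith only [hE, h3, h4]
  have hΛ0 : 0 ≤ Λ := by
    have h1 : 0 ≤ II x₁ (-1) (fun ξ η => ‖2 * Xf β a (pt ξ η) - 2 * kap a (pt ξ η)‖ ^ 2) :=
      Pool.Agent.Helper83.EK.II_nonneg hx12 (fun ξ η => by (clear * -; positivity))
    have h2 : 0 ≤ 2 * π * Λ := h1.trans hb
    exact nonneg_of_mul_nonneg_right h2 (by positivity)
  have hlen : 0 ≤ -1 - x₁ := by linarith only [hx12]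
  have hVl : 0 ≤ V * (-1 - x₁) := mul_nonneg hV hlen
  have hCVE : C₁ * (V * E) ≤ d / 8 * E := by
    have h1 : C₁ * V ≤ d / 8 := (mul_le_mul_of_nonneg_left hVV hC₁0).trans hCV
    have h2 := mul_le_mul_of_nonneg_right h1 hEn
    linarith only [h2]
  have hT : II x₁ (-1) (T (Xf β a)) + d / 8 * E ≤
      k * E + (k₂ - lam) * (π * S) + dc * (π * (-1 - x₁)) + Mv + 4 * Wv +
        C₁ * (1 + V * (-1 - x₁)) := by
    have h3 : C₁ * (1 + V * (-1 - x₁ + E)) = C₁ * (1 + V * (-1 - x₁)) + C₁ * (V * E) := by ring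
    rw [hk, add_mul, add_mul]
    (clear * - hst hsplit hCVE; linarith only [hst, hsplit, hCVE])
  have h2 : k * E ≤ k * ((1 + g) / 4 * (2 * π * Λ) + (1 + 1 / g) * |Cd|) :=
    mul_le_mul_of_nonneg_left hE2 hk0
  have h3 : (k₂ - lam) * (π * S) ≤ (k₂ - lam) * (π * (((1 + e) * Λ + |Cs|) / 2)) := by
    refine mul_le_mul_of_nonneg_left (mul_le_mul_of_nonneg_left ?_ hπ.le) (by linarith only [h1])
    linarith only [le_abs_self Cs, hs]
  have h4 : π⁻¹ * (II x₁ (-1) (T (Xf β a)) + d / 8 * E) ≤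
      π⁻¹ * (k * ((1 + g) / 4 * (2 * π * Λ) + (1 + 1 / g) * |Cd|) +
        (k₂ - lam) * (π * (((1 + e) * Λ + |Cs|) / 2)) + dc * (π * (-1 - x₁)) + Mv + 4 * Wv +
        C₁ * (1 + V * (-1 - x₁))) :=
    mul_le_mul_of_nonneg_left (by linarith only [hT, h2, h3]) hπi.le
  have h5 : π⁻¹ * (k * ((1 + g) / 4 * (2 * π * Λ) + (1 + 1 / g) * |Cd|) +
        (k₂ - lam) * (π * (((1 + e) * Λ + |Cs|) / 2)) + dc * (π * (-1 - x₁)) + Mv + 4 * Wv +
        C₁ * (1 + V * (-1 - x₁))) =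
      (k * (1 + g) + (k₂ - lam) * (1 + e)) / 2 * Λ + π⁻¹ * (k * ((1 + 1 / g) * |Cd|)) +
        (k₂ - lam) * (|Cs| / 2) + dc * (-1 - x₁) + π⁻¹ * Mv + 4 * π⁻¹ * Wv +
        π⁻¹ * C₁ * (1 + V * (-1 - x₁)) := by
    field_simp
    ring
  have h6 : (k * (1 + g) + (k₂ - lam) * (1 + e)) / 2 * Λ ≤ κ * Λ := by
    apply mul_le_mul_of_nonneg_right _ hΛ0
    have : k ≤ lam + d / 4 := by rw [hk]; linarith only []
    rw [hd] at this hkg hke hd0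
    linarith only [hd, hd0, hk, hkg, hke]
  have h7 : 0 ≤ π⁻¹ * (k * ((1 + 1 / g) * |Cd|)) := by (clear * - hk0 hg0; positivity)
  have h8 : 0 ≤ (k₂ - lam) * (|Cs| / 2) := mul_nonneg (by linarith only [h1]) (by (clear * -; positivity))
  have h9 : (|C₃| + π⁻¹ * (k * ((1 + 1 / g) * |Cd|)) + (k₂ - lam) * (|Cs| / 2) + π⁻¹ * C₁) *
      (1 + V * (-1 - x₁)) =
      |C₃| + π⁻¹ * (k * ((1 + 1 / g) * |Cd|)) + (k₂ - lam) * (|Cs| / 2) +
      π⁻¹ * C₁ * (1 + V * (-1 - x₁)) +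
      (|C₃| + π⁻¹ * (k * ((1 + 1 / g) * |Cd|)) + (k₂ - lam) * (|Cs| / 2)) *
        (V * (-1 - x₁)) := by ring
  have h10 : 0 ≤ (|C₃| + π⁻¹ * (k * ((1 + 1 / g) * |Cd|)) + (k₂ - lam) * (|Cs| / 2)) *
      (V * (-1 - x₁)) := mul_nonneg (by (clear * - hk0 hg0 h1; positivity)) hVl
  have h11 := le_abs_self C₃
  rw [h5, mul_add] at h4
  rw [h9]
  have h12 : π⁻¹ * (d / 8 * E) = π⁻¹ * (d / 8) * E := by ring
  rw [h12] at h4
  linarith only [hK, h4, h6, h10, h11]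

end Pool.Agent.Helper84.CK

end

section

namespace Pool.Agent.Helper39.Area
end Pool.Agent.Helper39.Area
namespace Pool.Agent.Helper52.EK
end Pool.Agent.Helper52.EK
namespace Pool.Agent.Helper69.EK3
end Pool.Agent.Helper69.EK3
namespace Pool.Agent.Helper69.EK7
end Pool.Agent.Helper69.EK7
namespace Pool.Agent.Helper69.CK
end Pool.Agent.Helper69.CK

set_option autoImplicit false

open Complex MeasureTheory Metric Set

open scoped Real ComplexConjugate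

namespace Pool.Agent.Helper84.CK

open Pool.Agent.Helper39.Area Pool.Agent.Helper52.EK Pool.Agent.Helper69.EK3

open Pool.Agent.Helper69.EK7 Pool.Agent.Helper69.CK

theorem Mt_contOn {M : ℂ → ℂ} (hM : Continuous M) (q : ℝ) {X : ℂ → ℂ} {S : Set (ℝ × ℝ)}
    (h1 : ContinuousOn (fun p : ℝ × ℝ => X (pt p.1 p.2)) S)
    (h2 : ContinuousOn (fun p : ℝ × ℝ => deriv X (pt p.1 p.2)) S)
    (h0 : ∀ p ∈ S, X (pt p.1 p.2) ≠ 0) :
    ContinuousOn (fun p : ℝ × ℝ => Mt M q X p.1 p.2) S := by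
  have h3 := h2.div h1 h0
  have h4 : ContinuousOn (fun p : ℝ × ℝ => e0 (Real.sin p.2) (Real.cos p.2)) S := by
    apply Continuous.continuousOn
    unfold e0
    fun_prop
  have h5 : ContinuousOn (fun p : ℝ × ℝ => mX (X (pt p.1 p.2)) (deriv X (pt p.1 p.2))
      (Real.sin p.2) (Real.cos p.2)) S := by
    unfold mX
    exact ((continuousOn_const.add h4).mul
      (((continuousOn_const.mul h1).sub continuousOn_const).add h3)).sub continuousOn_const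
  unfold Mt
  exact Complex.continuous_re.comp_continuousOn (((hM.comp_continuousOn h5).mul h4).mul
    ((h1.pow 2).sub continuousOn_const))

theorem Mt_cont_H {M : ℂ → ℂ} (hM : Continuous M) (q : ℝ) (X : ℂ → ℂ) (x₁ x₂ : ℝ)
    (hX : NiceH X x₁ x₂) : CH x₁ x₂ (π / 2) (Mt M q X) :=
  Mt_contOn hM q (contH hX.an.continuousOn) (contH hX.an.deriv.continuousOn)
    fun _ hp => hX.ne _ (pt_mem_RectH hp.1 hp.2)

theorem Mt_cont_X {M : ℂ → ℂ} (hM : Continuous M) (q : ℝ) (X : ℂ → ℂ) (x₁ x₂ : ℝ)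
    (hX : NiceX X x₁ x₂) : CH x₁ x₂ π (Mt M q X) :=
  Mt_contOn hM q (contH (h := π) hX.an.continuousOn) (contH (h := π) hX.an.deriv.continuousOn)
    fun _ hp => hX.ne _ (pt_mem_RectH hp.1 hp.2)

theorem Mt_mirror {M : ℂ → ℂ} (hMc : ∀ m, M (conj m) = conj (M m)) (q : ℝ) (X : ℂ → ℂ)
    (x₁ x₂ : ℝ) (hX : NiceX X x₁ x₂) (ξ : ℝ) (hξ : ξ ∈ Icc x₁ x₂) (η : ℝ)
    (hη : η ∈ Icc (0:ℝ) (π / 2)) : Mt M q X ξ (π - η) = Mt M q (mir X) ξ η := by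
  have hm : pt ξ (π - η) ∈ Rect x₁ x₂ := by
    have := mir_mem (pt_mem_RectH hξ hη)
    rwa [conj_pt] at this
  have hA : AnalyticAt ℂ X (pt ξ (π - η)) := hX.an _ hm
  unfold Mt
  rw [mir_pt, mir_deriv_pt hA.differentiableAt, mX_conj, hMc, Real.sin_pi_sub, Real.cos_pi_sub]
  have e1 : e0 (Real.sin η) (Real.cos η) = conj (e0 (Real.sin η) (-Real.cos η)) := by
    rw [e0_neg, Complex.conj_conj]
  rw [e1, ← Complex.conj_re]
  congr 1
  simp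

theorem T2_le4 {G : ℂ → ℂ → ℂ} {L : ℝ} (hG : GLip2 G L) (X : ℂ → ℂ) (ξ η : ℝ) :
    T2 G X ξ η ≤ 4 := by
  unfold T2 TG2
  have h1 := hG.le_one (mX (X (pt ξ η)) (deriv X (pt ξ η)) (Real.sin η) (Real.cos η))
    (tX (X (pt ξ η)) (deriv X (pt ξ η)) (deriv (deriv X) (pt ξ η)) (Real.sin η) (Real.cos η))
  have h2 : ‖e0 (Real.sin η) (Real.cos η)‖ = 1 := Pool.Agent.Helper70.EK.norm_e0 η
  have h3 := norm_sub_le (G (mX (X (pt ξ η)) (deriv X (pt ξ η)) (Real.sin η) (Real.cos η))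
    (tX (X (pt ξ η)) (deriv X (pt ξ η)) (deriv (deriv X) (pt ξ η)) (Real.sin η) (Real.cos η)))
    (e0 (Real.sin η) (Real.cos η))
  rw [h2] at h3
  have h4 := norm_nonneg (G (mX (X (pt ξ η)) (deriv X (pt ξ η)) (Real.sin η) (Real.cos η))
    (tX (X (pt ξ η)) (deriv X (pt ξ η)) (deriv (deriv X) (pt ξ η)) (Real.sin η) (Real.cos η)) -
    e0 (Real.sin η) (Real.cos η))
  (clear * - h1 h3 h4; nlinarith only [h1, h3, h4])

theorem GLip.two {G : ℂ → ℂ} {L : ℝ} (hG : GLip G L) : GLip2 (fun m _ => G m) L := by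
  refine ⟨fun m _ => hG.le_one m, fun m m' _ => hG.lip m m', fun u m _ hu => hG.rot u m hu, ?_⟩
  have h1 : Continuous G := by
    have h2 : LipschitzWith (Real.toNNReal |L|) G := by
      refine LipschitzWith.of_dist_le_mul fun m m' => ?_
      rw [dist_eq_norm, dist_eq_norm, Real.coe_toNNReal _ (abs_nonneg L)]
      exact (hG.lip m m').trans (mul_le_mul_of_nonneg_right (le_abs_self L) (norm_nonneg _))
    exact h2.continuous
  exact h1.comp continuous_fst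

end Pool.Agent.Helper84.CK

end

section

namespace Pool.Agent.Helper39.Area
end Pool.Agent.Helper39.Area
namespace Pool.Agent.Helper52.EK
end Pool.Agent.Helper52.EK
namespace Pool.Agent.Helper69.EK3
end Pool.Agent.Helper69.EK3

set_option autoImplicit false

open Complex MeasureTheory Metric Set

open scoped Real ComplexConjugate

namespace Pool.Agent.Helper84.CB

open Pool.Agent.Helper39.Area Pool.Agent.Helper52.EK Pool.Agent.Helper69.EK3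

/-- the second coefficient in terms of `X`, `Y = X'`, `Z = X''` -/
noncomputable def bc (X Y Z : ℂ) : ℂ := (X - X ^ 3 + 2 * Z - 3 / 2 * (Y ^ 2 / X)) / 3

/-- the region of `(X, X', b)` on the centre line -/
structure RegC (X Y b : ℂ) : Prop where
  ne : X ≠ 0
  le : ‖X‖ ≤ 1
  ar : ‖Y‖ ^ 2 + 2 * ‖b‖ ^ 2 ≤ -(‖X‖ ^ 2 * Real.log (‖X‖ ^ 2))
  b1 : ‖Y + 2 * X ^ 2‖ ≤ 2 * ‖X‖
  b2 : ‖Y - 2 * X ^ 2‖ ≤ 2 * ‖X‖

/-- the class: the scaled values lie in the region -/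
def CenP (X : ℂ → ℂ) (x₁ x₂ : ℝ) : Prop :=
  ∃ ρ : ℝ → ℝ, Continuous ρ ∧ (∀ ξ, 1 / 9 ≤ ρ ξ ∧ ρ ξ ≤ 1) ∧
    ∫ ξ in x₁..x₂, (1 - ρ ξ) ≤ 8 ∧ ∀ ξ ∈ Icc x₁ x₂,
      RegC ((ρ ξ : ℂ) * X (pt ξ (π / 2))) ((ρ ξ : ℂ) ^ 2 * deriv X (pt ξ (π / 2)))
        ((ρ ξ : ℂ) ^ 3 * bc (X (pt ξ (π / 2))) (deriv X (pt ξ (π / 2)))
          (deriv (deriv X) (pt ξ (π / 2))))

/-- the area inequality is monotone in the radius -/
theorem ar_mono {r ρ u v w : ℝ} (hρ : 0 < ρ) (h : ρ ≤ r) (hw : 0 < w)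
    (ha : r ^ 2 * u ^ 2 + 2 * r ^ 4 * v ^ 2 ≤ -2 * Real.log (r * w)) :
    ρ ^ 2 * u ^ 2 + 2 * ρ ^ 4 * v ^ 2 ≤ -2 * Real.log (ρ * w) := by
  have h1 : ρ ^ 2 * u ^ 2 ≤ r ^ 2 * u ^ 2 :=
    mul_le_mul_of_nonneg_right (pow_le_pow_left₀ hρ.le h 2) (sq_nonneg _)
  have h2 : ρ ^ 4 * v ^ 2 ≤ r ^ 4 * v ^ 2 :=
    mul_le_mul_of_nonneg_right (pow_le_pow_left₀ hρ.le h 4) (sq_nonneg _)
  have h3 : Real.log (ρ * w) ≤ Real.log (r * w) :=
    Real.log_le_log (mul_pos hρ hw) (mul_le_mul_of_nonneg_right h hw.le)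
  linarith only [ha, h1, h2, h3]

/-- the region from the inequalities at radius `ρ` -/
theorem regC_of {X Y Z : ℂ} (hX : X ≠ 0) {ρ δ : ℝ} (hρ : 0 < ρ) (hδ : ρ * (1 + δ) ≤ 1)
    (ha : ρ ^ 2 * ‖Y / X‖ ^ 2 +
      2 * ρ ^ 4 * ‖(1 - X ^ 2 + 2 * (Z / X) - 3 / 2 * (Y / X) ^ 2) / 3‖ ^ 2 ≤
      -2 * Real.log (ρ * ‖X‖))
    (h1 : ‖2 * X + Y / X‖ ≤ 2 * (1 + δ)) (h2 : ‖-(2 * X) + Y / X‖ ≤ 2 * (1 + δ)) :
    RegC ((ρ : ℂ) * X) ((ρ : ℂ) ^ 2 * Y) ((ρ : ℂ) ^ 3 * bc X Y Z) := by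
  have hn : 0 < ‖X‖ := norm_pos_iff.2 hX
  have hρn : ‖(ρ : ℂ)‖ = ρ := by rw [norm_real, Real.norm_of_nonneg hρ.le]
  have hnX : ‖(ρ : ℂ) * X‖ = ρ * ‖X‖ := by rw [norm_mul, hρn]
  have hY : ‖Y‖ = ‖Y / X‖ * ‖X‖ := by rw [norm_div, div_mul_cancel₀ _ hn.ne']
  have hb : ‖bc X Y Z‖ = ‖(1 - X ^ 2 + 2 * (Z / X) - 3 / 2 * (Y / X) ^ 2) / 3‖ * ‖X‖ := by
    rw [← norm_mul]
    congr 1
    unfold bc
    (clear * - hX; field_simp)
  have hlog : 0 ≤ -2 * Real.log (ρ * ‖X‖) := le_trans (by (clear * - hρ; positivity)) ha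
  have hle : ρ * ‖X‖ ≤ 1 := by
    by_contra hc
    have := Real.log_pos (not_le.1 hc)
    linarith only [hlog, this]
  refine ⟨mul_ne_zero (by exact_mod_cast hρ.ne') hX, by rw [hnX]; exact hle, ?_, ?_, ?_⟩
  · rw [hnX, norm_mul, norm_pow, hρn, norm_mul, norm_pow, hρn, hY, hb]
    have e1 : Real.log ((ρ * ‖X‖) ^ 2) = 2 * Real.log (ρ * ‖X‖) := by
      rw [Real.log_pow]
      norm_num
    rw [e1]
    have h3 := mul_le_mul_of_nonneg_left ha (sq_nonneg (ρ * ‖X‖))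
    refine le_trans (le_of_eq ?_) (h3.trans (le_of_eq ?_))
    · ring
    · ring
  · have e : (ρ : ℂ) ^ 2 * Y + 2 * ((ρ : ℂ) * X) ^ 2 = (ρ : ℂ) ^ 2 * X * (2 * X + Y / X) := by
      field_simp
      ring
    rw [e, norm_mul, norm_mul, norm_pow, hρn, hnX]
    have h3 := mul_le_mul_of_nonneg_left h1 (by positivity : 0 ≤ ρ ^ 2 * ‖X‖)
    have h4 := mul_le_mul_of_nonneg_left hδ (by positivity : 0 ≤ 2 * ρ * ‖X‖)
    linarith only [h3, h4]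
  · have e : (ρ : ℂ) ^ 2 * Y - 2 * ((ρ : ℂ) * X) ^ 2 = (ρ : ℂ) ^ 2 * X * (-(2 * X) + Y / X) := by
      field_simp
      ring
    rw [e, norm_mul, norm_mul, norm_pow, hρn, hnX]
    have h3 := mul_le_mul_of_nonneg_left h2 (by positivity : 0 ≤ ρ ^ 2 * ‖X‖)
    have h4 := mul_le_mul_of_nonneg_left hδ (by positivity : 0 ≤ 2 * ρ * ‖X‖)
    linarith only [h3, h4]

theorem dA_cent (σ : ℝ) (X Y : ℂ) : dA σ X Y (Real.sin (π / 2)) (Real.cos (π / 2)) =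
    2 * ((σ : ℂ) * (2 * X) + Y / X) := by
  unfold dA e0
  rw [Real.sin_pi_div_two, Real.cos_pi_div_two]
  push_cast
  linear_combination -((σ : ℂ) * (2 * X) - 1 + Y / X) * I_sq

/-- **the class for the functions `Xf`** -/
theorem cenP_Xf {β : ℂ → ℂ} {R a : ℝ} (h : ExtR β R) (ha : 0 < a) (ha1 : a < 1)
    (hx : Real.log (tau a) + 1 ≤ -1) : CenP (Xf β a) (Real.log (tau a) + 1) (-1) := by
  obtain ⟨δ, hδ⟩ : ∃ δ : ℝ → ℝ, δ = fun ξ => 4 * Real.exp (min ξ 0) +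
      4 * Real.exp (min (Real.log (tau a) - ξ) 0) := ⟨_, rfl⟩
  have cδ : Continuous δ := by rw [hδ]; fun_prop
  have δ0 : ∀ ξ, 0 ≤ δ ξ := fun ξ => by rw [hδ]; positivity
  have δ8 : ∀ ξ, δ ξ ≤ 8 := by
    intro ξ
    rw [hδ]
    have h1 : Real.exp (min ξ 0) ≤ 1 := Real.exp_le_one_iff.2 (min_le_right _ _)
    have h2 : Real.exp (min (Real.log (tau a) - ξ) 0) ≤ 1 :=
      Real.exp_le_one_iff.2 (min_le_right _ _)
    simp only
    linarith only [h1, h2]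
  have hδe : ∀ ξ ∈ Icc (Real.log (tau a) + 1) (-1 : ℝ), δ ξ =
      4 * Real.exp ξ + 4 * Real.exp (Real.log (tau a) - ξ) := by
    intro ξ hξ
    rw [hδ]
    simp only
    rw [min_eq_left (by (clear * - ha ha1 hξ; linarith [hξ.2])), min_eq_left (by linarith [hξ.1])]
  have hI : ∫ ξ in (Real.log (tau a) + 1)..(-1), δ ξ ≤ 8 := by
    have e : ∫ ξ in (Real.log (tau a) + 1)..(-1), δ ξ = ∫ ξ in (Real.log (tau a) + 1)..(-1),
        (4 * Real.exp ξ + 4 * Real.exp (Real.log (tau a) - ξ)) := by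
      refine intervalIntegral.integral_congr fun ξ hξ => ?_
      rw [uIcc_of_le hx] at hξ
      exact hδe ξ hξ
    rw [e]
    have i1 : IntervalIntegrable (fun ξ : ℝ => 4 * Real.exp ξ) volume
        (Real.log (tau a) + 1) (-1) :=
      (by fun_prop : Continuous fun ξ : ℝ => 4 * Real.exp ξ).intervalIntegrable _ _
    have i2 : IntervalIntegrable (fun ξ : ℝ => 4 * Real.exp (Real.log (tau a) - ξ)) volume
        (Real.log (tau a) + 1) (-1) :=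
      (by fun_prop : Continuous fun ξ : ℝ => 4 * Real.exp (Real.log (tau a) - ξ)).intervalIntegrable
        _ _
    rw [intervalIntegral.integral_add i1 i2, intervalIntegral.integral_const_mul,
      intervalIntegral.integral_const_mul,
      intervalIntegral.integral_comp_sub_left (fun u => Real.exp u) (Real.log (tau a)),
      exp_int, exp_int]
    have e1 : Real.exp (-1) ≤ 1 := Real.exp_le_one_iff.2 (by norm_num)
    have e2 := Real.exp_pos (Real.log (tau a) + 1)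
    have e3 : Real.exp (Real.log (tau a) - (Real.log (tau a) + 1)) ≤ 1 :=
      Real.exp_le_one_iff.2 (by linarith)
    have e4 := Real.exp_pos (Real.log (tau a) - -1)
    (clear * - e1 e2 e3 e4; linarith)
  have hpos : ∀ ξ, 0 < 1 + δ ξ := fun ξ => by linarith [δ0 ξ]
  have cρ : Continuous fun ξ => (1 + δ ξ)⁻¹ :=
    (continuous_const.add cδ).inv₀ fun ξ => (hpos ξ).ne'
  refine ⟨fun ξ => (1 + δ ξ)⁻¹, cρ, fun ξ => ⟨?_, ?_⟩, ?_, fun ξ hξ => ?_⟩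
  · rw [one_div]
    exact inv_anti₀ (hpos ξ) (by linarith [δ8 ξ])
  · exact inv_le_one_of_one_le₀ (by linarith [δ0 ξ])
  · refine le_trans (intervalIntegral.integral_mono_on hx
      ((continuous_const.sub cρ).intervalIntegrable _ _) (cδ.intervalIntegrable _ _)
      fun ξ _ => ?_) hI
    have h1 : 1 - (1 + δ ξ)⁻¹ = δ ξ / (1 + δ ξ) := by
      have := (hpos ξ).ne'
      field_simp
      ring
    rw [h1]
    exact div_le_self (δ0 ξ) (by linarith [δ0 ξ])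
  · have hτ : 0 < tau a := by
      unfold tau
      have : 0 < 1 - a := by linarith
      (clear * - ha1 ha; positivity)
    obtain ⟨hX0, hr0, hr1, har⟩ := Pool.Agent.Helper84.EK.centre_be h ha ha1 (ξ := ξ)
      (by linarith [hξ.1]) (by linarith [hξ.2]) rfl rfl rfl rfl
    obtain ⟨_, d1, d2⟩ := disc_Xf h ha ha1 hξ.1 hξ.2 (η := π / 2) (by positivity)
      (by linarith only [Real.pi_pos])
    rw [← hδe ξ hξ] at d1 d2
    -- comparison of the radii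
    have hr : (1 + δ ξ)⁻¹ ≤ (max ((1 + Real.exp ξ) / (1 - Real.exp ξ))
        ((Real.exp ξ + tau a) / (Real.exp ξ - tau a)))⁻¹ := by
      have hhalf : Real.exp (-1) ≤ 1 / 2 := by
        have h9 : Real.exp (-1) < 0.3678794412 := Real.exp_neg_one_lt_d9
        linarith only [h9]
      have key : ∀ q : ℝ, 0 < q → q ≤ 1 / 2 → (1 + q) / (1 - q) ≤ 1 + 4 * q := by
        intro q hq hq2
        rw [div_le_iff₀ (by linarith only [hq2])]
        (clear * - hq hq2; nlinarith only [hq, hq2])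
      have hy : Real.exp ξ ≤ 1 / 2 := (Real.exp_le_exp.mpr hξ.2).trans hhalf
      have hq : Real.exp (Real.log (tau a) - ξ) ≤ 1 / 2 :=
        (Real.exp_le_exp.mpr (by linarith only [hξ.1])).trans hhalf
      have hy0 := Real.exp_pos ξ
      have hq0 := Real.exp_pos (Real.log (tau a) - ξ)
      have hτe : tau a = Real.exp ξ * Real.exp (Real.log (tau a) - ξ) := by
        rw [← Real.exp_add, add_sub_cancel, Real.exp_log hτ]
      refine inv_anti₀ (lt_of_lt_of_le (div_pos (by linarith only [hy0]) (by linarith only [hy])) (le_max_left _ _))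
        (max_le ?_ ?_)
      · rw [hδe ξ hξ]
        have := key _ hy0 hy
        linarith only [hq0, this]
      · have h3 := key _ hq0 hq
        have h4 : (Real.exp ξ + tau a) / (Real.exp ξ - tau a) =
            (1 + Real.exp (Real.log (tau a) - ξ)) / (1 - Real.exp (Real.log (tau a) - ξ)) := by
          rw [div_eq_div_iff]
          · linear_combination 2 * hτe
          · have h5 : tau a < Real.exp ξ := (Real.log_lt_iff_lt_exp hτ).mp (by linarith only [hξ.1])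
            linarith only [h5]
          · linarith only [hq]
        rw [h4, hδe ξ hξ]
        linarith only [hy0, h3]
    have hρ0 : 0 < (1 + δ ξ)⁻¹ := inv_pos.2 (hpos ξ)
    have har' := ar_mono hρ0 hr (norm_pos_iff.2 hX0) har
    rw [dA_cent, norm_mul] at d1 d2
    have n2 : ‖(2:ℂ)‖ = 2 := by simp
    rw [n2] at d1 d2
    have e1 : ((1 : ℝ) : ℂ) * (2 * Xf β a (pt ξ (π / 2))) = 2 * Xf β a (pt ξ (π / 2)) := by simp
    have e2 : ((-1 : ℝ) : ℂ) * (2 * Xf β a (pt ξ (π / 2))) = -(2 * Xf β a (pt ξ (π / 2))) := by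
      simp
    rw [e1] at d1
    rw [e2] at d2
    exact regC_of hX0 hρ0 (δ := δ ξ) (inv_mul_cancel₀ (hpos ξ).ne').le har' (by linarith only [d1])
      (by linarith only [d2])

end Pool.Agent.Helper84.CB

end

section

namespace Pool.Agent.Helper39.Area
end Pool.Agent.Helper39.Area
namespace Pool.Agent.Helper52.EK
end Pool.Agent.Helper52.EK
namespace Pool.Agent.Helper69.EK3
end Pool.Agent.Helper69.EK3

set_option autoImplicit false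

open Complex MeasureTheory Metric Set

open scoped Real ComplexConjugate

namespace Pool.Agent.Helper84.CB

open Pool.Agent.Helper39.Area Pool.Agent.Helper52.EK Pool.Agent.Helper69.EK3

theorem hasDerivAt_pt (ξ : ℝ) : HasDerivAt (fun t : ℝ => pt t (π / 2)) 1 ξ := by
  have h := (Complex.ofRealCLM.hasDerivAt (x := ξ)).add_const (((π / 2 : ℝ) : ℂ) * I)
  exact h.congr_deriv (by simp)

theorem line_hd {F : ℂ → ℂ} {ξ : ℝ} (hF : AnalyticAt ℂ F (pt ξ (π / 2))) :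
    HasDerivAt (fun t : ℝ => F (pt t (π / 2))) (deriv F (pt ξ (π / 2))) ξ := by
  have h1 := (hF.differentiableAt.hasDerivAt).comp_of_eq ξ (hasDerivAt_pt ξ) rfl
  exact h1.congr_deriv (mul_one _)

end Pool.Agent.Helper84.CB

end

section

namespace Pool.Agent.Helper39.Area
end Pool.Agent.Helper39.Area
namespace Pool.Agent.Helper52.EK
end Pool.Agent.Helper52.EK
namespace Pool.Agent.Helper69.EK3
end Pool.Agent.Helper69.EK3

set_option autoImplicit false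

open Complex MeasureTheory Metric Set

open scoped Real ComplexConjugate

namespace Pool.Agent.Helper84.CB

open Pool.Agent.Helper39.Area Pool.Agent.Helper52.EK Pool.Agent.Helper69.EK3

/-- the coefficient `b` -/
noncomputable def bq (X Y Z : ℂ) : ℂ := (1 - X ^ 2 + 2 * (Z / X) - 3 / 2 * (Y / X) ^ 2) / 3

/-- the region of `(X, q, b)` on the centre line -/
structure RegQ (X q b : ℂ) : Prop where
  ne : X ≠ 0
  le : ‖X‖ ≤ 1
  ar : ‖q‖ ^ 2 + 2 * ‖b‖ ^ 2 ≤ -Real.log (‖X‖ ^ 2)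
  b1 : ‖q + 2 * X‖ ≤ 2
  b2 : ‖q - 2 * X‖ ≤ 2
  kr : ‖b - X ^ 2 - q ^ 2 / 2‖ ≤ 1

/-- the class: the scaled values lie in the region -/
def CenQP (X : ℂ → ℂ) (x₁ x₂ : ℝ) : Prop :=
  ∃ ρ : ℝ → ℝ, Continuous ρ ∧ (∀ ξ, 1 / 9 ≤ ρ ξ ∧ ρ ξ ≤ 1) ∧
    ∫ ξ in x₁..x₂, (1 - ρ ξ) ≤ 8 ∧ ∀ ξ ∈ Icc x₁ x₂,
      RegQ ((ρ ξ : ℂ) * X (pt ξ (π / 2)))
        ((ρ ξ : ℂ) * (deriv X (pt ξ (π / 2)) / X (pt ξ (π / 2))))
        ((ρ ξ : ℂ) ^ 2 * bq (X (pt ξ (π / 2))) (deriv X (pt ξ (π / 2)))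
          (deriv (deriv X) (pt ξ (π / 2))))

theorem RegQ.of_C {X Y Z : ℂ} {ρ : ℝ} (hρ : 0 < ρ) (hρ1 : ρ ≤ 1) (hX : X ≠ 0)
    (h : RegC ((ρ : ℂ) * X) ((ρ : ℂ) ^ 2 * Y) ((ρ : ℂ) ^ 3 * bc X Y Z))
    (hk : ‖Pool.Agent.Helper69.EK7.tX X Y Z 1 0‖ ≤ 6) :
    RegQ ((ρ : ℂ) * X) ((ρ : ℂ) * (Y / X)) ((ρ : ℂ) ^ 2 * bq X Y Z) := by
  have hc : (ρ : ℂ) ≠ 0 := by exact_mod_cast hρ.ne'
  have hn : 0 < ‖(ρ : ℂ) * X‖ := norm_pos_iff.2 h.ne
  have eY : (ρ : ℂ) ^ 2 * Y = ((ρ : ℂ) * X) * ((ρ : ℂ) * (Y / X)) := by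
    (clear * - hX hc; field_simp)
  have eb : (ρ : ℂ) ^ 3 * bc X Y Z = ((ρ : ℂ) * X) * ((ρ : ℂ) ^ 2 * bq X Y Z) := by
    unfold bc bq
    (clear * - hX hc; field_simp)
  refine ⟨h.ne, h.le, ?_, ?_, ?_, ?_⟩
  · have h1 := h.ar
    rw [eY, eb, norm_mul ((ρ : ℂ) * X), norm_mul ((ρ : ℂ) * X)] at h1
    have h2 : 0 < ‖(ρ : ℂ) * X‖ ^ 2 := pow_pos hn 2
    refine le_of_mul_le_mul_left (le_trans (le_of_eq ?_) (h1.trans (le_of_eq ?_))) h2
    · ring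
    · ring
  · have h1 := h.b1
    have e : (ρ : ℂ) ^ 2 * Y + 2 * ((ρ : ℂ) * X) ^ 2 =
        ((ρ : ℂ) * X) * ((ρ : ℂ) * (Y / X) + 2 * ((ρ : ℂ) * X)) := by
      rw [eY]
      ring
    rw [e, norm_mul ((ρ : ℂ) * X)] at h1
    refine le_of_mul_le_mul_left ?_ hn
    linarith only [h1]
  · have h1 := h.b2
    have e : (ρ : ℂ) ^ 2 * Y - 2 * ((ρ : ℂ) * X) ^ 2 =
        ((ρ : ℂ) * X) * ((ρ : ℂ) * (Y / X) - 2 * ((ρ : ℂ) * X)) := by
      rw [eY]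
      ring
    rw [e, norm_mul ((ρ : ℂ) * X)] at h1
    refine le_of_mul_le_mul_left ?_ hn
    linarith only [h1]
  · have e1 : Pool.Agent.Helper69.EK7.tX X Y Z 1 0 = 6 * (bq X Y Z - X ^ 2 - (Y / X) ^ 2 / 2) := by
      unfold Pool.Agent.Helper69.EK7.tX bq e0
      push_cast
      linear_combination -4 * (1 / 2 - 2 * X ^ 2 + Z / X - 3 / 2 * (Y / X) ^ 2) * I_sq
    rw [e1, norm_mul] at hk
    have n6 : ‖(6:ℂ)‖ = 6 := by simp
    rw [n6] at hk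
    have e2 : (ρ : ℂ) ^ 2 * bq X Y Z - ((ρ : ℂ) * X) ^ 2 - ((ρ : ℂ) * (Y / X)) ^ 2 / 2 =
        (ρ : ℂ) ^ 2 * (bq X Y Z - X ^ 2 - (Y / X) ^ 2 / 2) := by ring
    rw [e2, norm_mul, norm_pow, norm_real, Real.norm_of_nonneg hρ.le]
    have h1 : ρ ^ 2 ≤ 1 := pow_le_one₀ hρ.le hρ1
    (clear * - hρ1 hk hρ; nlinarith only [hρ, hρ1, hk])

/-- **the class for the functions `Xf`** -/
theorem cenQP_Xf {β : ℂ → ℂ} {R a : ℝ} (h : ExtR β R) (ha : 0 < a) (ha1 : a < 1)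
    (hx : Real.log (tau a) + 1 ≤ -1) : CenQP (Xf β a) (Real.log (tau a) + 1) (-1) := by
  obtain ⟨ρ, cρ, hρ, hI, hR⟩ := cenP_Xf h ha ha1 hx
  refine ⟨ρ, cρ, hρ, hI, fun ξ hξ => ?_⟩
  have hρ0 : 0 < ρ ξ := by linarith only [(hρ ξ).1]
  have hr := hR ξ hξ
  have hX : Xf β a (pt ξ (π / 2)) ≠ 0 := by
    intro h0
    exact hr.ne (by rw [h0, mul_zero])
  refine RegQ.of_C hρ0 (hρ ξ).2 hX hr ?_
  have hk := Pool.Agent.Helper20.Kraus2.kraus_strip h ha ha1 (ξ := ξ) (η := π / 2)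
    (by (clear * - hξ; linarith only [hξ.1])) (by (clear * - ha ha1 hξ; linarith [hξ.2])) (by (clear * -; positivity)) (by (clear * -; linarith only [Real.pi_pos]))
  rw [Real.sin_pi_div_two, Real.cos_pi_div_two] at hk
  exact hk

theorem RegQ.q_le {X q b : ℂ} (h : RegQ X q b) : ‖q‖ ≤ 2 := by
  have e : q = (1 / 2 : ℂ) * ((q + 2 * X) + (q - 2 * X)) := by ring
  rw [e, norm_mul]
  have h1 := norm_add_le (q + 2 * X) (q - 2 * X)
  have n2 : ‖(1 / 2 : ℂ)‖ = 1 / 2 := by simp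
  rw [n2]
  (clear * - h1 h; linarith [h.b1, h.b2])

theorem RegQ.b_le {X q b : ℂ} (h : RegQ X q b) : ‖b‖ ≤ 4 := by
  have e : b = (b - X ^ 2 - q ^ 2 / 2) + (X ^ 2 + q ^ 2 / 2) := by ring
  rw [e]
  have h1 := norm_add_le (b - X ^ 2 - q ^ 2 / 2) (X ^ 2 + q ^ 2 / 2)
  have h2 := norm_add_le (X ^ 2) (q ^ 2 / 2)
  rw [norm_pow, norm_div, norm_pow] at h2
  have n2 : ‖(2 : ℂ)‖ = 2 := by simp
  rw [n2] at h2
  have h3 : ‖X‖ ^ 2 ≤ 1 := pow_le_one₀ (norm_nonneg _) h.le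
  have h4 : ‖q‖ ^ 2 ≤ 2 ^ 2 := pow_le_pow_left₀ (norm_nonneg _) h.q_le 2
  (clear * - h1 h2 h3 h4 h; linarith [h.kr])

end Pool.Agent.Helper84.CB

end

section

namespace Pool.Agent.Helper39.Area
end Pool.Agent.Helper39.Area
namespace Pool.Agent.Helper52.EK
end Pool.Agent.Helper52.EK
namespace Pool.Agent.Helper69.EK3
end Pool.Agent.Helper69.EK3

set_option autoImplicit false

open Complex MeasureTheory Metric Set

open scoped Real ComplexConjugate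

namespace Pool.Agent.Helper84.CB

open Pool.Agent.Helper39.Area Pool.Agent.Helper52.EK Pool.Agent.Helper69.EK3

/-- the values of `Q` near the region -/
theorem Q_lowQ {Q : ℂ → ℂ → ℂ → ℝ} (hQ : ∀ X q b : ℂ, RegQ X q b → 0 ≤ Q X q b)
    (hQL : LocallyLipschitz fun p : ℂ × ℂ × ℂ => Q p.1 p.2.1 p.2.2) :
    ∃ M : ℝ, 0 ≤ M ∧ ∀ (X q b : ℂ) (ρ : ℝ), 1 / 9 ≤ ρ → ρ ≤ 1 →
      RegQ ((ρ : ℂ) * X) ((ρ : ℂ) * q) ((ρ : ℂ) ^ 2 * b) → -(M * (1 - ρ)) ≤ Q X q b := by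
  obtain ⟨K, hK⟩ := hQL.locallyLipschitzOn.exists_lipschitzOnWith_of_compact
    (s := closedBall (0 : ℂ × ℂ × ℂ) 324) (isCompact_closedBall _ _)
  refine ⟨K * 648, by (clear * -; positivity), fun X q b ρ h1 h2 hR => ?_⟩
  have hρ0 : 0 < ρ := by (clear * - h1; linarith)
  have hρn : ‖(ρ : ℂ)‖ = ρ := by rw [norm_real, Real.norm_of_nonneg hρ0.le]
  have x1 : ρ * ‖X‖ ≤ 1 := by
    have := hR.le
    rwa [norm_mul, hρn] at this
  have q1 : ρ * ‖q‖ ≤ 2 := by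
    have := hR.q_le
    rwa [norm_mul, hρn] at this
  have b1 : ρ ^ 2 * ‖b‖ ≤ 4 := by
    have := hR.b_le
    rwa [norm_mul, norm_pow, hρn] at this
  have x2 : ‖X‖ ≤ 9 := by (clear * - h1 x1; nlinarith only [h1, x1])
  have q2 : ‖q‖ ≤ 18 := by nlinarith only [h1, q1]
  have b2 : ‖b‖ ≤ 324 := by
    have h3 : (1 / 9 : ℝ) ^ 2 ≤ ρ ^ 2 := pow_le_pow_left₀ (by norm_num) h1 2
    (clear * - b1 h3; nlinarith only [b1, h3])
  have hd : (0:ℝ) ≤ 1 - ρ := by linarith only [h2]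
  have m1 : ((X, q, b) : ℂ × ℂ × ℂ) ∈ closedBall (0 : ℂ × ℂ × ℂ) 324 := by
    rw [mem_closedBall_zero_iff, Prod.norm_def, Prod.norm_def]
    exact max_le (by (clear * - x2; linarith)) (max_le (by linarith only [q2]) b2)
  have m2 : (((ρ : ℂ) * X, (ρ : ℂ) * q, (ρ : ℂ) ^ 2 * b) : ℂ × ℂ × ℂ) ∈
      closedBall (0 : ℂ × ℂ × ℂ) 324 := by
    rw [mem_closedBall_zero_iff, Prod.norm_def, Prod.norm_def]
    refine max_le ?_ (max_le ?_ ?_)
    · simp only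
      rw [norm_mul, hρn]
      linarith only [x1]
    · simp only
      rw [norm_mul, hρn]
      linarith only [q1]
    · simp only
      rw [norm_mul, norm_pow, hρn]
      linarith only [b1]
  have hL := hK.dist_le_mul _ m1 _ m2
  have hdist : dist ((X, q, b) : ℂ × ℂ × ℂ)
      ((ρ : ℂ) * X, (ρ : ℂ) * q, (ρ : ℂ) ^ 2 * b) ≤ 648 * (1 - ρ) := by
    rw [dist_eq_norm, Prod.norm_def, Prod.norm_def]
    refine max_le ?_ (max_le ?_ ?_)
    · simp only [Prod.fst_sub]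
      have e : X - (ρ : ℂ) * X = ((1 - ρ : ℝ) : ℂ) * X := by push_cast; ring
      rw [e, norm_mul, norm_real, Real.norm_of_nonneg hd]
      (clear * - hd x2; nlinarith only [x2, hd])
    · simp only [Prod.snd_sub, Prod.fst_sub]
      have e : q - (ρ : ℂ) * q = ((1 - ρ : ℝ) : ℂ) * q := by
        push_cast
        ring
      rw [e, norm_mul, norm_real, Real.norm_of_nonneg hd]
      nlinarith only [q2, hd]
    · simp only [Prod.snd_sub]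
      have e : b - (ρ : ℂ) ^ 2 * b = ((1 - ρ : ℝ) : ℂ) * ((1 + ρ : ℝ) : ℂ) * b := by
        push_cast
        ring
      rw [e, norm_mul, norm_mul, norm_real, norm_real, Real.norm_of_nonneg hd,
        Real.norm_of_nonneg (by (clear * - hρ0; linarith))]
      have h3 : (1 - ρ) * (1 + ρ) ≤ (1 - ρ) * 2 := mul_le_mul_of_nonneg_left (by (clear * - h2; linarith)) hd
      have h4 := mul_le_mul h3 b2 (norm_nonneg b) (by (clear * - h2; positivity))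
      linarith only [h4]
  have hq := hQ _ _ _ hR
  have h5 : dist (Q X q b) (Q ((ρ : ℂ) * X) ((ρ : ℂ) * q) ((ρ : ℂ) ^ 2 * b)) ≤
      K * (648 * (1 - ρ)) := hL.trans (mul_le_mul_of_nonneg_left hdist K.coe_nonneg)
  rw [Real.dist_eq] at h5
  have h6 := (abs_le.1 h5).1
  linarith only [hq, h6]

/-- the linear term: from the class -/
theorem CenQP.re_le {X : ℂ → ℂ} {x₁ x₂ : ℝ} (h : CenQP X x₁ x₂) :
    ∃ δ : ℝ → ℝ, Continuous δ ∧ (∀ ξ ∈ Icc x₁ x₂, 0 ≤ δ ξ) ∧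
      (∀ ξ ∈ Icc x₁ x₂, ‖X (pt ξ (π / 2))‖ ≤ 1 + δ ξ) ∧ ∫ ξ in x₁..x₂, δ ξ ≤ 72 := by
  obtain ⟨ρ, cρ, hρ, hI, hR⟩ := h
  refine ⟨fun ξ => 9 * (1 - ρ ξ), by fun_prop, fun ξ _ => by have := (hρ ξ).2; (clear * - this; linarith),
    fun ξ hξ => ?_, ?_⟩
  · have h3 := (hR ξ hξ).le
    obtain ⟨r1, r2⟩ := hρ ξ
    have hρ0 : 0 < ρ ξ := by (clear * - r1; linarith only [r1])
    rw [norm_mul, norm_real, Real.norm_of_nonneg hρ0.le] at h3
    have h4 : ‖X (pt ξ (π / 2))‖ ≤ 9 := by (clear * - h3 r1; nlinarith only [h3, r1])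
    nlinarith only [h3, r1, r2]
  · rw [intervalIntegral.integral_const_mul]
    linarith

/-- the derivative of `q` -/
theorem q_hd {x y : ℝ → ℂ} {z : ℂ} {ξ : ℝ} (h1 : HasDerivAt x (y ξ) ξ) (h2 : HasDerivAt y z ξ)
    (h0 : x ξ ≠ 0) : HasDerivAt (fun t => y t / x t)
      ((3 * bq (x ξ) (y ξ) z - 1 + x ξ ^ 2) / 2 - (y ξ / x ξ) ^ 2 / 4) ξ := by
  refine (h2.div h1 h0).congr_deriv ?_
  unfold bq
  field_simp
  ring

end Pool.Agent.Helper84.CB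

end

section

namespace Pool.Agent.Helper39.Area
end Pool.Agent.Helper39.Area
namespace Pool.Agent.Helper52.EK
end Pool.Agent.Helper52.EK
namespace Pool.Agent.Helper67.EK
end Pool.Agent.Helper67.EK
namespace Pool.Agent.Helper69.EK3
end Pool.Agent.Helper69.EK3

set_option autoImplicit false

open Complex Metric Set Filter Topology

open scoped Real ComplexConjugate

namespace Pool.Agent.Helper69.CK

open Pool.Agent.Helper39.Area Pool.Agent.Helper52.EK Pool.Agent.Helper67.EK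

open Pool.Agent.Helper69.EK3

/-- the distance estimate -/
theorem oo_ne_g {ξ η σ r : ℝ} (h0 : 0 < η) (h1 : η < π) (hσ : 0 < σ)
    (hr1 : r ^ 2 * (Real.exp ξ ^ 2 + σ ^ 2 + 2 * Real.exp ξ * σ * Real.sin η) ≤
      Real.exp ξ ^ 2 + σ ^ 2 - 2 * Real.exp ξ * σ * Real.sin η) {u : ℂ} (hu : ‖u‖ < r)
    (hu1 : ‖u‖ < 1) : Complex.exp (oo ξ η u) ≠ (σ : ℂ) * I := by
  have hs := Real.sin_pos_of_pos_of_lt_pi h0 h1
  have hy := Real.exp_pos ξ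
  intro hc
  have hE := oo_exp ξ η hu1
  rw [hc] at hE
  set Z := Complex.exp (pt ξ η) with hZ
  have hE2 : (conj Z - (σ : ℂ) * I) * u = Z - (σ : ℂ) * I := by
    rw [hZ, conj_exp_pt, ← hZ]
    linear_combination hE
  have hZr : Z.re = Real.exp ξ * Real.cos η := by rw [hZ, exp_pt_re]
  have hZi : Z.im = Real.exp ξ * Real.sin η := by rw [hZ, exp_pt_im]
  have e1 := congrArg (fun w : ℂ => ‖w‖ ^ 2) hE2
  simp only [norm_mul, mul_pow] at e1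
  rw [← Complex.normSq_eq_norm_sq, ← Complex.normSq_eq_norm_sq (Z - _), Complex.normSq_apply,
    Complex.normSq_apply] at e1
  simp only [mul_im, mul_re, sub_re, sub_im, conj_re, conj_im, I_re, I_im, ofReal_re,
    ofReal_im] at e1
  rw [hZr, hZi] at e1
  set y := Real.exp ξ with hyd
  set s := Real.sin η with hsd
  set c := Real.cos η with hcd
  have hsc : s ^ 2 + c ^ 2 = 1 := Real.sin_sq_add_cos_sq η
  have e2 : (y ^ 2 + σ ^ 2 + 2 * y * σ * s) * ‖u‖ ^ 2 = y ^ 2 + σ ^ 2 - 2 * y * σ * s := by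
    linear_combination e1 + (-(‖u‖ ^ 2) * y ^ 2 + y ^ 2) * hsc
  have e4 : ‖u‖ ^ 2 < r ^ 2 := pow_lt_pow_left₀ hu (norm_nonneg u) (by norm_num)
  have e5 : 0 < y ^ 2 + σ ^ 2 + 2 * y * σ * s := by (clear * - hσ hs; positivity)
  have e6 : (y ^ 2 + σ ^ 2 + 2 * y * σ * s) * ‖u‖ ^ 2 <
      (y ^ 2 + σ ^ 2 + 2 * y * σ * s) * r ^ 2 := mul_lt_mul_of_pos_left e4 e5
  linarith only [hr1, e2, e6]

/-- **Koebe and Bieberbach at all points of the strip** -/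
theorem bieb_strip_g {β : ℂ → ℂ} {R : ℝ} (h : ExtR β R) {a : ℝ} (ha : 0 < a) (ha1 : a < 1)
    {ξ η : ℝ} (h1 : Real.log (tau a) < ξ) (h2 : ξ < 0) (h3 : 0 < η) (h4 : η < π) {r : ℝ}
    (hr : 0 < r) (hrlt : r < 1)
    (hr1 : r ^ 2 * (Real.exp ξ ^ 2 + 1 ^ 2 + 2 * Real.exp ξ * 1 * Real.sin η) ≤
      Real.exp ξ ^ 2 + 1 ^ 2 - 2 * Real.exp ξ * 1 * Real.sin η)
    (hr2 : r ^ 2 * (Real.exp ξ ^ 2 + tau a ^ 2 + 2 * Real.exp ξ * tau a * Real.sin η) ≤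
      Real.exp ξ ^ 2 + tau a ^ 2 - 2 * Real.exp ξ * tau a * Real.sin η) {X Y : ℂ}
    (hX : X = Xf β a (pt ξ η)) (hY : Y = deriv (Xf β a) (pt ξ η)) :
    Real.sin η * ‖X‖ * r ≤ 1 ∧
    ‖(1 + e0 (Real.sin η) (Real.cos η)) * (2 * X - 1 + Y / X) + 2‖ * r ≤ 4 ∧
    ‖(1 + e0 (Real.sin η) (Real.cos η)) * (-2 * X - 1 + Y / X) + 2‖ * r ≤ 4 := by
  have hτ : 0 < tau a := by
    unfold tau
    have : 0 < 1 - a := by (clear * - ha1; linarith)
    (clear * - ha1 ha; positivity)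
  have hs := Real.sin_pos_of_pos_of_lt_pi h3 h4
  have hy := Real.exp_pos ξ
  have hat : a = (1 - tau a) / (1 + tau a) := by
    unfold tau
    field_simp
    ring
  have haB : (a : ℂ) ∈ ball (0:ℂ) 1 := by
    rw [mem_ball_zero_iff, Complex.norm_real, Real.norm_of_nonneg ha.le]
    exact ha1
  have ha0 : (a : ℂ) ≠ 0 := by exact_mod_cast ha.ne'
  have hlt : ∀ u ∈ ball (0:ℂ) r, ‖u‖ < 1 := by
    intro u hu
    rw [mem_ball_zero_iff] at hu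
    (clear * - hrlt hu; linarith only [hrlt, hu])
  have him : ∀ u ∈ ball (0:ℂ) r, 0 < (Complex.exp (oo ξ η u)).im := fun u hu =>
    oo_im h3 h4 (hlt u hu)
  have hmem : ∀ u ∈ ball (0:ℂ) r, zf (oo ξ η u) ∈ ball (0:ℂ) 1 := fun u hu =>
    zf_mem_of (him u hu)
  have hne0 : ∀ u ∈ ball (0:ℂ) r, zf (oo ξ η u) ≠ 0 := by
    intro u hu h0
    have hu' := hu
    rw [mem_ball_zero_iff] at hu'
    rw [zf, div_eq_zero_iff] at h0
    rcases h0 with h0 | h0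
    · refine oo_ne_g (ξ := ξ) (σ := 1) h3 h4 one_pos hr1 hu' (hlt u hu) ?_
      rw [ofReal_one, one_mul]
      linear_combination -h0
    · exact I_add_exp_ne (him u hu) h0
  have hnea : ∀ u ∈ ball (0:ℂ) r, zf (oo ξ η u) ≠ a := by
    intro u hu h0
    have hu' := hu
    rw [mem_ball_zero_iff] at hu'
    rw [zf, div_eq_iff (I_add_exp_ne (him u hu))] at h0
    refine oo_ne_g (ξ := ξ) (σ := tau a) h3 h4 hτ hr2 hu' (hlt u hu) ?_
    · have e1 : (1 + (a : ℂ)) * Complex.exp (oo ξ η u) = (1 - a) * I := by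
        linear_combination -h0
      have e2 : (1 + (a : ℂ)) ≠ 0 := by
        have : (1 + a : ℝ) ≠ 0 := by (clear * - ha; positivity)
        exact_mod_cast this
      have e3 : ((tau a : ℝ) : ℂ) = (1 - a) / (1 + a) := by
        unfold tau
        push_cast
        rfl
      rw [e3, div_mul_eq_mul_div, eq_div_iff e2]
      linear_combination e1
  set G : ℂ → ℂ := fun u => phi β (zf (oo ξ η u)) - phi β a with hG
  set B : ℂ → ℂ := fun u => 2 * Xf β a (oo ξ η u) * od η u with hB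
  have hGne : ∀ u ∈ ball (0:ℂ) r, G u ≠ 0 := by
    intro u hu h0
    exact hnea u hu (h.toExt.inj _ _ (hmem u hu) haB (hne0 u hu) ha0 (sub_eq_zero.mp h0))
  have hGi : InjOn G (ball 0 r) := by
    intro u hu v hv huv
    have e1 : phi β (zf (oo ξ η u)) = phi β (zf (oo ξ η v)) := by
      have : phi β (zf (oo ξ η u)) - phi β a = phi β (zf (oo ξ η v)) - phi β a := huv
      linear_combination this
    have e2 := h.toExt.inj _ _ (hmem u hu) (hmem v hv) (hne0 u hu) (hne0 v hv) e1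
    have e3 : Complex.exp (oo ξ η u) = Complex.exp (oo ξ η v) := by
      unfold zf at e2
      rw [div_eq_div_iff (I_add_exp_ne (him u hu)) (I_add_exp_ne (him v hv))] at e2
      have e4 : (Complex.exp (oo ξ η u) - Complex.exp (oo ξ η v)) * (2 * I) = 0 := by
        linear_combination -e2
      rcases mul_eq_zero.mp e4 with e4 | e4
      · linear_combination e4
      · exact absurd e4 (by simp)
    have u1 := oo_exp ξ η (hlt u hu)
    have v1 := oo_exp ξ η (hlt v hv)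
    rw [e3] at u1
    have e5 : Complex.exp (pt ξ η) * ((kq η - 1) * (u - v)) = 0 := by
      linear_combination (1 - v) * u1 - (1 - u) * v1
    rcases mul_eq_zero.mp e5 with e6 | e6
    · exact absurd e6 (Complex.exp_ne_zero _)
    · rcases mul_eq_zero.mp e6 with e7 | e7
      · exact absurd (by linear_combination e7) (kq_ne_one h3 h4)
      · linear_combination e7
  have hGd : ∀ u ∈ ball (0:ℂ) r, HasDerivAt G (G u * B u) u := by
    intro u hu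
    have d1 := oo_hasDerivAt ξ η (hlt u hu)
    have d2 := (Pool.Agent.Helper97.EK.hasDerivAt_zf (I_add_exp_ne (him u hu))).comp u d1
    have d3 := (hasDerivAt_phi h.toExt.diff (hmem u hu) (hne0 u hu)).comp u d2
    have d4 := d3.sub_const (phi β a)
    have e : G u * B u = dphi β (zf (oo ξ η u)) * (zd (oo ξ η u) * od η u) := by
      have := hGne u hu
      simp only [hG] at this
      simp only [hG, hB]
      unfold Xf
      (clear * - this; field_simp)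
    rw [e]
    exact d4
  obtain ⟨x₁, hx₁, hx₁'⟩ := exists_between h1
  obtain ⟨x₂, hx₂, hx₂'⟩ := exists_between h2
  have hN := E1c h ha ha1 hx₁ hx₂'
  have hω0 : pt ξ η ∈ Rect x₁ x₂ := by
    unfold Rect
    rw [Complex.mem_reProdIm]
    have e1 : (pt ξ η).re = ξ := by simp [pt]
    have e2 : (pt ξ η).im = η := by simp [pt]
    rw [e1, e2]
    exact ⟨⟨hx₁'.le, hx₂.le⟩, ⟨h3.le, h4.le⟩⟩
  have hXa : AnalyticAt ℂ (Xf β a) (pt ξ η) := hN.an _ hω0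
  have hX0 : X ≠ 0 := by rw [hX]; exact hN.ne _ hω0
  have hz1 : ‖(0:ℂ)‖ < 1 := by simp
  have hBd : HasDerivAt B (2 * (Y * od η 0) * od η 0 + 2 * X * (1 - kq η ^ 2)) 0 := by
    have d1 := oo_hasDerivAt ξ η hz1
    have d2 : HasDerivAt (Xf β a) Y (oo ξ η 0) := by
      rw [oo_zero, hY]
      exact hXa.differentiableAt.hasDerivAt
    have d3 := ((d2.comp (0:ℂ) d1).const_mul 2).mul (od_hasDerivAt η)
    have e : 2 * (Y * od η 0) * od η 0 + 2 * X * (1 - kq η ^ 2) =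
        2 * (Y * od η 0) * od η 0 + 2 * (Xf β a ∘ oo ξ η) 0 * (1 - kq η ^ 2) := by
      rw [Function.comp_apply, oo_zero, hX]
    rw [e]
    exact d3
  obtain ⟨k1, k2, k3⟩ := univ_log hr hGi hGne hGd hBd
  have hB0 : B 0 = 2 * X * (1 - kq η) := by
    simp only [hB]
    rw [oo_zero, od_zero, hX]
  have hkn : ‖1 - kq η‖ = 2 * Real.sin η := by
    have e1 : 1 - kq η = (2 * Real.sin η : ℝ) * ((Real.sin η : ℂ) + (Real.cos η : ℂ) * I) := by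
      rw [kq_eq]
      push_cast
      have h5 : Complex.cos η ^ 2 + Complex.sin η ^ 2 = 1 := Complex.cos_sq_add_sin_sq _
      linear_combination -h5 - Complex.sin η ^ 2 * I_sq
    have e2 : ‖(Real.sin η : ℂ) + (Real.cos η : ℂ) * I‖ = 1 := by
      have e3 : ‖(Real.sin η : ℂ) + (Real.cos η : ℂ) * I‖ ^ 2 = 1 := by
        rw [← Complex.normSq_eq_norm_sq, Complex.normSq_apply]
        simp only [add_re, add_im, mul_re, mul_im, ofReal_re, ofReal_im, I_re, I_im, mul_zero,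
          mul_one, sub_zero, add_zero, zero_add]
        (clear * -; linarith only [Real.sin_sq_add_cos_sq η])
      have e4 := norm_nonneg ((Real.sin η : ℂ) + (Real.cos η : ℂ) * I)
      nlinarith only [e3, e4]
    rw [e1, norm_mul, e2, mul_one, Complex.norm_real, Real.norm_of_nonneg (by (clear * - hs; positivity))]
  have hke : 1 + e0 (Real.sin η) (Real.cos η) = 1 - kq η := by
    unfold kq
    ring
  have hXn : 0 < ‖X‖ := norm_pos_iff.mpr hX0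
  have hBn : ‖B 0‖ = 4 * (Real.sin η * ‖X‖) := by
    rw [hB0, norm_mul, norm_mul, hkn]
    have : ‖(2:ℂ)‖ = 2 := by simp
    rw [this]
    ring
  have hBp : 0 < ‖B 0‖ := by
    rw [hBn]
    (clear * - hs hX0; positivity)
  refine ⟨?_, ?_, ?_⟩
  · rw [hBn] at k1
    linarith only [k1]
  · have e : 2 * (Y * od η 0) * od η 0 + 2 * X * (1 - kq η ^ 2) + B 0 ^ 2 =
        B 0 * ((1 - kq η) * (2 * X - 1 + Y / X) + 2) := by
      rw [hB0, od_zero]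
      field_simp
      ring
    rw [e, norm_mul] at k2
    rw [hke]
    have : ‖B 0‖ * (‖(1 - kq η) * (2 * X - 1 + Y / X) + 2‖ * r) ≤ ‖B 0‖ * 4 := by (clear * - k2; linarith only [k2])
    exact le_of_mul_le_mul_left this hBp
  · have e : 2 * (Y * od η 0) * od η 0 + 2 * X * (1 - kq η ^ 2) - B 0 ^ 2 =
        B 0 * ((1 - kq η) * (-2 * X - 1 + Y / X) + 2) := by
      rw [hB0, od_zero]
      field_simp
      ring
    rw [e, norm_mul] at k3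
    rw [hke]
    have : ‖B 0‖ * (‖(1 - kq η) * (-2 * X - 1 + Y / X) + 2‖ * r) ≤ ‖B 0‖ * 4 := by linarith only [k3]
    exact le_of_mul_le_mul_left this hBp

end Pool.Agent.Helper69.CK

end

section

namespace Pool.Agent.Helper39.Area
end Pool.Agent.Helper39.Area
namespace Pool.Agent.Helper52.EK
end Pool.Agent.Helper52.EK
namespace Pool.Agent.Helper69.EK3
end Pool.Agent.Helper69.EK3

set_option autoImplicit false

open Complex MeasureTheory Metric Set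

open scoped Real ComplexConjugate

namespace Pool.Agent.Helper69.CK

open Pool.Agent.Helper39.Area Pool.Agent.Helper52.EK Pool.Agent.Helper69.EK3

/-- the bounds of Koebe and Bieberbach with an integrable error times `sin η`, `0 ≤ η ≤ h` -/
def DiscG (h : ℝ) (X : ℂ → ℂ) (x₁ x₂ : ℝ) : Prop :=
  ∃ δ : ℝ → ℝ, Continuous δ ∧ (∀ ξ, 0 ≤ δ ξ) ∧ (∀ ξ ∈ Icc x₁ x₂, δ ξ ≤ 8) ∧
    (∫ ξ in x₁..x₂, δ ξ ≤ 8) ∧ ∀ ξ ∈ Icc x₁ x₂, ∀ η ∈ Icc (0:ℝ) h,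
      Real.sin η * ‖X (pt ξ η)‖ ≤ 1 + δ ξ * Real.sin η ∧
      ‖dA 1 (X (pt ξ η)) (deriv X (pt ξ η)) (Real.sin η) (Real.cos η)‖ ≤
        4 * (1 + δ ξ * Real.sin η) ∧
      ‖dA (-1) (X (pt ξ η)) (deriv X (pt ξ η)) (Real.sin η) (Real.cos η)‖ ≤
        4 * (1 + δ ξ * Real.sin η)

theorem sin_nnh {h η : ℝ} (hh : h ≤ π) (hη : η ∈ Icc (0:ℝ) h) : 0 ≤ Real.sin η :=
  Real.sin_nonneg_of_nonneg_of_le_pi hη.1 (hη.2.trans hh)

theorem ds_le {d s : ℝ} (hd : 0 ≤ d) (_hs : 0 ≤ s) (hs1 : s ≤ 1) : d * s ≤ d := by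
  (clear * - hd hs1; nlinarith only [hd, hs1])

theorem DiscG.X_le {h : ℝ} (hh : h ≤ π) {X : ℂ → ℂ} {x₁ x₂ : ℝ} (hD : DiscG h X x₁ x₂) :
    ∀ ξ ∈ Icc x₁ x₂, ∀ η ∈ Icc (0:ℝ) h, Real.sin η * ‖X (pt ξ η)‖ ≤ 9 := by
  obtain ⟨δ, _, h2, h3, _, h5⟩ := hD
  intro ξ hξ η hη
  obtain ⟨k1, _, _⟩ := h5 ξ hξ η hη
  have := ds_le (h2 ξ) (sin_nnh hh hη) (Real.sin_le_one η)
  (clear * - h3 hξ k1 this; linarith only [h3 ξ hξ, k1, this])

theorem DiscG.q_le {h : ℝ} (hh : h ≤ π) {X : ℂ → ℂ} {x₁ x₂ : ℝ} (hD : DiscG h X x₁ x₂) :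
    ∀ ξ ∈ Icc x₁ x₂, ∀ η ∈ Icc (0:ℝ) h,
      Real.sin η * ‖deriv X (pt ξ η) / X (pt ξ η)‖ ≤ 38 := by
  obtain ⟨δ, _, h2, h3, _, h5⟩ := hD
  intro ξ hξ η hη
  obtain ⟨k1, k2, _⟩ := h5 ξ hξ η hη
  have := ds_le (h2 ξ) (sin_nnh hh hη) (Real.sin_le_one η)
  have h8 := h3 ξ hξ
  exact sin_q_le (sin_nnh hh hη) h8 (k1.trans (by (clear * - this; linarith only [this]))) (k2.trans (by linarith only [this]))

/-- the angular inequality -/
theorem ang_ineq {t s d : ℝ} (ht : 0 ≤ t) (ht1 : t ≤ 1 / 2) (hs : 0 ≤ s) (hs1 : s ≤ 1)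
    (hd : 8 * t * s ≤ d) :
    1 + t ^ 2 + 2 * t * s ≤ (1 + d) ^ 2 * (1 + t ^ 2 - 2 * t * s) := by
  have h0 : 0 ≤ t * s := mul_nonneg ht hs
  have h1 : t * s ≤ t := by nlinarith only [ht, hs1]
  have h2 : 1 / 4 ≤ 1 + t ^ 2 - 2 * t * s := by nlinarith only [ht, ht1, hs1]
  have h3 : 1 + 16 * (t * s) ≤ (1 + d) ^ 2 := by nlinarith only [hd, h0]
  have h4 : (1 + 16 * (t * s)) * (1 + t ^ 2 - 2 * t * s) ≤ (1 + d) ^ 2 * (1 + t ^ 2 - 2 * t * s) :=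
    mul_le_mul_of_nonneg_right h3 (by linarith only [h2])
  nlinarith only [h0, h2, h3]

/-- the bounds for `Xf`, on the whole strip -/
theorem disc_Xf_g {β : ℂ → ℂ} {R a : ℝ} (h : ExtR β R) (ha : 0 < a) (ha1 : a < 1) {ξ η : ℝ}
    (h1 : Real.log (tau a) + 1 ≤ ξ) (h2 : ξ ≤ -1) (h3 : 0 ≤ η) (h4 : η ≤ π) :
    Real.sin η * ‖Xf β a (pt ξ η)‖ ≤
      1 + (8 * Real.exp ξ + 8 * Real.exp (Real.log (tau a) - ξ)) * Real.sin η ∧
    ‖dA 1 (Xf β a (pt ξ η)) (deriv (Xf β a) (pt ξ η)) (Real.sin η) (Real.cos η)‖ ≤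
      4 * (1 + (8 * Real.exp ξ + 8 * Real.exp (Real.log (tau a) - ξ)) * Real.sin η) ∧
    ‖dA (-1) (Xf β a (pt ξ η)) (deriv (Xf β a) (pt ξ η)) (Real.sin η) (Real.cos η)‖ ≤
      4 * (1 + (8 * Real.exp ξ + 8 * Real.exp (Real.log (tau a) - ξ)) * Real.sin η) := by
  have hy0 := Real.exp_pos ξ
  have hq0 := Real.exp_pos (Real.log (tau a) - ξ)
  rcases eq_or_lt_of_le h3 with h5 | h5
  · subst h5
    have e : dA 1 (Xf β a (pt ξ 0)) (deriv (Xf β a) (pt ξ 0)) (Real.sin 0) (Real.cos 0) = 2 := by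
      simp [dA, e0]
    have e' : dA (-1) (Xf β a (pt ξ 0)) (deriv (Xf β a) (pt ξ 0)) (Real.sin 0) (Real.cos 0) =
        2 := by
      simp [dA, e0]
    have e4 : ‖(2:ℂ)‖ = 2 := by simp
    rw [e, e', e4, Real.sin_zero, zero_mul]
    refine ⟨by (clear * -; linarith only []), by (clear * -; linarith only []), by (clear * -; linarith only [])⟩
  rcases eq_or_lt_of_le h4 with h6 | h6
  · subst h6
    have e : dA 1 (Xf β a (pt ξ π)) (deriv (Xf β a) (pt ξ π)) (Real.sin π) (Real.cos π) = 2 := by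
      simp [dA, e0]
    have e' : dA (-1) (Xf β a (pt ξ π)) (deriv (Xf β a) (pt ξ π)) (Real.sin π) (Real.cos π) =
        2 := by
      simp [dA, e0]
    have e4 : ‖(2:ℂ)‖ = 2 := by simp
    rw [e, e', e4, Real.sin_pi, zero_mul]
    refine ⟨by (clear * -; linarith only []), by (clear * -; linarith only []), by linarith only []⟩
  have hτ : 0 < tau a := by
    unfold tau
    have : 0 < 1 - a := by linarith only [ha1]
    (clear * - ha1 ha; positivity)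
  have hhalf : Real.exp (-1) ≤ 1 / 2 := by
    have h9 : Real.exp (-1) < 0.3678794412 := Real.exp_neg_one_lt_d9
    (clear * - h9; linarith only [h9])
  have hy : Real.exp ξ ≤ 1 / 2 := (Real.exp_le_exp.mpr h2).trans hhalf
  have hq : Real.exp (Real.log (tau a) - ξ) ≤ 1 / 2 :=
    (Real.exp_le_exp.mpr (by linarith only [h1])).trans hhalf
  have hτe : tau a = Real.exp ξ * Real.exp (Real.log (tau a) - ξ) := by
    rw [← Real.exp_add, add_sub_cancel, Real.exp_log hτ]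
  have hs := Real.sin_pos_of_pos_of_lt_pi h5 h6
  have hs1 := Real.sin_le_one η
  obtain ⟨δ, hδ⟩ : ∃ δ, δ = (8 * Real.exp ξ + 8 * Real.exp (Real.log (tau a) - ξ)) *
    Real.sin η := ⟨_, rfl⟩
  have hδ0 : 0 < δ := by rw [hδ]; (clear * - hs; positivity)
  have hr : 0 < (1 + δ)⁻¹ := by (clear * - hδ0; positivity)
  have hr1 : (1 + δ)⁻¹ < 1 := inv_lt_one_of_one_lt₀ (by (clear * - hδ0; linarith only [hδ0]))
  have hδ1 : 8 * Real.exp ξ * Real.sin η ≤ δ := by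
    rw [hδ]
    (clear * - hq0 hs; linarith only [mul_pos hq0 hs])
  have hδ2 : 8 * Real.exp (Real.log (tau a) - ξ) * Real.sin η ≤ δ := by
    rw [hδ]
    linarith only [mul_pos hy0 hs]
  have a1 := ang_ineq hy0.le hy hs.le hs1 hδ1
  have a2 := ang_ineq hq0.le hq hs.le hs1 hδ2
  have hk := bieb_strip_g h ha ha1 (ξ := ξ) (η := η) (by linarith only [h1]) (by linarith only [h2]) h5 h6 hr hr1
    (by
      rw [inv_pow, inv_mul_le_iff₀ (by (clear * - hδ0; positivity))]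
      (clear * - a1; linarith only [a1]))
    (by
      rw [inv_pow, inv_mul_le_iff₀ (by (clear * - hδ0; positivity))]
      have e1 : Real.exp ξ ^ 2 + tau a ^ 2 + 2 * Real.exp ξ * tau a * Real.sin η =
          Real.exp ξ ^ 2 * (1 + Real.exp (Real.log (tau a) - ξ) ^ 2 +
            2 * Real.exp (Real.log (tau a) - ξ) * Real.sin η) := by
        generalize Real.exp (Real.log (tau a) - ξ) = t at *
        rw [hτe]
        ring
      have e2 : Real.exp ξ ^ 2 + tau a ^ 2 - 2 * Real.exp ξ * tau a * Real.sin η =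
          Real.exp ξ ^ 2 * (1 + Real.exp (Real.log (tau a) - ξ) ^ 2 -
            2 * Real.exp (Real.log (tau a) - ξ) * Real.sin η) := by
        generalize Real.exp (Real.log (tau a) - ξ) = t at *
        rw [hτe]
        ring
      rw [e1, e2]
      have := mul_le_mul_of_nonneg_left a2 (sq_nonneg (Real.exp ξ))
      (clear * - this; linarith only [this]))
    rfl rfl
  obtain ⟨k1, k2, k3⟩ := hk
  rw [← hδ]
  have hp : 0 < 1 + δ := by linarith only [hδ0]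
  refine ⟨?_, ?_, ?_⟩
  · rwa [← div_eq_mul_inv, div_le_iff₀ hp, one_mul] at k1
  · rw [← div_eq_mul_inv, div_le_iff₀ hp] at k2
    have e : dA 1 (Xf β a (pt ξ η)) (deriv (Xf β a) (pt ξ η)) (Real.sin η) (Real.cos η) =
        (1 + e0 (Real.sin η) (Real.cos η)) * (2 * Xf β a (pt ξ η) - 1 +
          deriv (Xf β a) (pt ξ η) / Xf β a (pt ξ η)) + 2 := by
      unfold dA
      push_cast
      ring
    rw [e]
    exact k2
  · rw [← div_eq_mul_inv, div_le_iff₀ hp] at k3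
    have e : dA (-1) (Xf β a (pt ξ η)) (deriv (Xf β a) (pt ξ η)) (Real.sin η) (Real.cos η) =
        (1 + e0 (Real.sin η) (Real.cos η)) * (-2 * Xf β a (pt ξ η) - 1 +
          deriv (Xf β a) (pt ξ η) / Xf β a (pt ξ η)) + 2 := by
      unfold dA
      push_cast
      ring
    rw [e]
    exact k3

theorem dG_cont (a : ℝ) :
    Continuous (fun ξ : ℝ => 8 * Real.exp ξ + 8 * Real.exp (Real.log (tau a) - ξ)) := by
  fun_prop

theorem dG_le8 (a : ℝ) : ∀ ξ ∈ Icc (Real.log (tau a) + 1) (-1),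
    8 * Real.exp ξ + 8 * Real.exp (Real.log (tau a) - ξ) ≤ 8 := by
  intro ξ hξ
  have h9 : Real.exp (-1) < 0.3678794412 := Real.exp_neg_one_lt_d9
  have h1 : Real.exp ξ ≤ Real.exp (-1) := Real.exp_le_exp.2 hξ.2
  have h2 : Real.exp (Real.log (tau a) - ξ) ≤ Real.exp (-1) :=
    Real.exp_le_exp.2 (by (clear * - hξ; linarith only [hξ.1]))
  (clear * - h9 h1 h2; linarith only [h9, h1, h2])

theorem dG_int (a : ℝ) : ∫ ξ in (Real.log (tau a) + 1)..(-1),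
    (8 * Real.exp ξ + 8 * Real.exp (Real.log (tau a) - ξ)) ≤ 8 := by
  have i1 : IntervalIntegrable (fun ξ : ℝ => 8 * Real.exp ξ) volume
      (Real.log (tau a) + 1) (-1) :=
    (by fun_prop : Continuous fun ξ : ℝ => 8 * Real.exp ξ).intervalIntegrable _ _
  have i2 : IntervalIntegrable (fun ξ : ℝ => 8 * Real.exp (Real.log (tau a) - ξ)) volume
      (Real.log (tau a) + 1) (-1) :=
    (by fun_prop : Continuous fun ξ : ℝ => 8 * Real.exp (Real.log (tau a) - ξ)).intervalIntegrable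
      _ _
  rw [intervalIntegral.integral_add i1 i2, intervalIntegral.integral_const_mul,
    intervalIntegral.integral_const_mul,
    intervalIntegral.integral_comp_sub_left (fun u => Real.exp u) (Real.log (tau a)),
    integral_exp, integral_exp]
  have h9 : Real.exp (-1) < 0.3678794412 := Real.exp_neg_one_lt_d9
  have e2 := Real.exp_pos (Real.log (tau a) + 1)
  have e3 : Real.exp (Real.log (tau a) - (Real.log (tau a) + 1)) = Real.exp (-1) := by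
    congr 1
    ring
  have e4 := Real.exp_pos (Real.log (tau a) - -1)
  rw [e3]
  (clear * - h9 e2 e4; linarith)

/-- `Xf` and its mirror image are in the class, on the half strip -/
theorem discG_Xf_half (β : ℂ → ℂ) (R a : ℝ) (h : ExtR β R) (ha : 0 < a) (ha1 : a < 1)
    (_hx : Real.log (tau a) + 1 ≤ -1) : DiscG (π / 2) (Xf β a) (Real.log (tau a) + 1) (-1) ∧
      DiscG (π / 2) (mir (Xf β a)) (Real.log (tau a) + 1) (-1) := by
  have hpi := Real.pi_pos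
  refine ⟨⟨_, dG_cont a, fun ξ => by positivity, dG_le8 a, dG_int a,
    fun ξ hξ η hη => disc_Xf_g h ha ha1 hξ.1 hξ.2 hη.1 (hη.2.trans (by (clear * - hpi; linarith)))⟩,
    ⟨_, dG_cont a, fun ξ => by positivity, dG_le8 a, dG_int a, ?_⟩⟩
  intro ξ hξ η hη
  have hX := Pool.Agent.Helper67.EK.E1c h ha ha1 (x₁ := Real.log (tau a) + 1) (x₂ := -1)
    (by (clear * - ha ha1; linarith)) (by norm_num)
  have hm : pt ξ (π - η) ∈ Rect (Real.log (tau a) + 1) (-1) := by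
    have := mir_mem (pt_mem_RectH hξ hη)
    rwa [conj_pt] at this
  have hA : AnalyticAt ℂ (Xf β a) (pt ξ (π - η)) := hX.an _ hm
  have hk := disc_Xf_g h ha ha1 hξ.1 hξ.2 (η := π - η) (by (clear * - hη hpi; linarith only [hη.2, hpi])) (by linarith [hη.1])
  rw [Real.sin_pi_sub, Real.cos_pi_sub] at hk
  rw [mir_pt, mir_deriv_pt hA.differentiableAt, dA_mir, dA_mir, Complex.norm_conj,
    Complex.norm_conj, Complex.norm_conj]
  exact hk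

end Pool.Agent.Helper69.CK

end
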