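import Pool.Agent.Helper60.BE.T11
import Pool.Agent.Helper60.BE.T04
import Pool.Agent.Helper60.BE.T13
import Pool.Agent.Helper60.BE.T14
import Pool.Agent.Helper60.BE.T15
import Pool.Agent.Helper60.BE.T17
import Pool.Agent.Helper60.BE.T05
import Pool.Agent.Helper60.BE.T12

set_option linter.all false

section

namespace Pool.Sos71
end Pool.Sos71
namespace Pool.EK71
end Pool.EK71
namespace Pool.Agent.Helper52.EK
end Pool.Agent.Helper52.EK
namespace Pool.Agent.Helper2.EK
end Pool.Agent.Helper2.EK
namespace Pool.Agent.Helper69.EK3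
end Pool.Agent.Helper69.EK3
namespace Pool.Agent.Helper69.EK5
end Pool.Agent.Helper69.EK5
namespace Pool.Agent.Helper71.EK3
end Pool.Agent.Helper71.EK3
namespace Pool.Agent.Helper71.EKC
end Pool.Agent.Helper71.EKC

set_option autoImplicit false

open Complex MeasureTheory Metric Set

open scoped Real ComplexConjugate

namespace Pool.Agent.Helper69.EK6

open Pool.Sos71

open Pool.EK71 Pool.Agent.Helper52.EK Pool.Agent.Helper2.EK

open Pool.Agent.Helper69.EK3

open Pool.Agent.Helper69.EK5 (DQ Dd Dd_pos Dd_low DL e_D qX qY qL Rr c1_Rr Dn Dn_ev)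

open Pool.Agent.Helper71.EK3 (xL yL r2L FL G2L e_x e_y e_r2 e_F e_G2)

open Pool.Agent.Helper71.EKC (c1_unique pw2 e_pw sb2 e_sb)

structure Dat where
  a : DQ
  K : ℕ
  kU : ℕ
  kV : ℕ
  kF : ℕ
  kL : ℕ
  h : ℕ
  M : ℤ
  lam : ℤ
  c1 : ℤ
  a2 : ℤ
  UU : List (AP × BP)
  VX : List (AP × BP)
  VE : List (AP × BP)
  F0 : List (AP × BP)
  F1 : List (AP × BP)
  HH : List (AP × ℕ)
  HM : List (ℕ × Bool × ℤ)
  fi : Sd
  fo : Sd

/-- `sin η Re q`, `sin η Im q` -/
def eP : Ex := Ex.mul (Ex.sc 2 (Ex.va 2)) (Ex.va 3)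

def eR : Ex := Ex.mul (Ex.sc 2 (Ex.va 2)) (Ex.va 4)

def es1 : Ex := Ex.add (Ex.mul eA (Ex.bp [[1], [2]])) eP

def es2 : Ex := Ex.add (Ex.mul eA (Ex.bp [[0, 2]])) eR

def esq : Ex := Ex.add (Ex.pow es1 2) (Ex.pow es2 2)

/-- `n - 1` -/
def eNM : Ex := Ex.sc 4 (Ex.add esq (Ex.add (Ex.sc (-1) (Ex.mul eA es1)) (Ex.mul eB es2)))

/-- `Re m` -/
def eRm : Ex := Ex.add (Ex.sc 2 (Ex.add (Ex.mul eA es1) (Ex.sc (-1) (Ex.mul eB es2))))
  (Ex.sc (-1) eone)

def eCon (f : Sd) : Ex :=
  Ex.add (Ex.sc f.r eNM) (Ex.mul (Ex.sc f.sg (Ex.va 0)) (Ex.add (Ex.sc f.r0 eone)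
    (Ex.add (Ex.sc (4 * f.r1) esq) (Ex.sc f.r2 (Ex.add eNM eone)))))

def mulE (a : DQ) (K k : ℕ) (t : AP × BP) : Ex := Ex.mul (apE t.1) (Ex.bp (mu2 t.2 (Dn a (K - k))))

def EHM (a : DQ) (K h : ℕ) (t : ℕ × Bool × ℤ) : Ex :=
  Ex.mul (Ex.mul (Ex.sc t.2.2 (if t.2.1 then (csE t.1).1 else (csE t.1).2)) (Ex.pow eo (h - t.1)))
    (Ex.bp (mu2 G2L (Dn a K)))

namespace Dat

variable (c : Dat)

/-- the null Lagrangians and `lam |X-1|² + a₂ Re (X-1)²`, times `D^K` -/
def tN : Ex :=
  sumE (EU c.a c.K c.kU) (sumE (EVX c.a c.K c.kV) (sumE (EVE c.a c.K c.kV)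
    (sumE (EF0 c.a c.K c.kF) (sumE (EF1 c.a c.K c.kF) (sumE (EH c.a c.K)
      (sumE (EHM c.a c.K c.h)
        (Ex.mul (Ex.pow eo c.h) (Ex.bp (mu2 (ad2 (sm2 c.lam FL) (sm2 c.a2 G2L)) (Dn c.a c.K))))
        c.HM) c.HH) c.F1) c.F0) c.VE) c.VX) c.UU

def tMul (f : Sd) : Ex :=
  Ex.add (sumE (mulE c.a c.K c.kL) (Ex.sc 0 (Ex.pow eo (c.h - 2))) f.L0)
    (Ex.mul (Ex.va 0) (sumE (mulE c.a c.K c.kL) (Ex.sc 0 (Ex.pow eo (c.h - 2))) f.L1))

end Dat

theorem px_A (l η : ℝ) (X Y : ℂ) : eA.re (px l η X Y) = Real.sin η := by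
  have e : Real.sin η = 2 * Real.sin (η / 2) * Real.cos (η / 2) := by
    rw [← Real.sin_two_mul]
    congr 1
    ring
  rw [e]
  simp only [eA, Ex.re, px]
  push_cast
  ring

theorem px_B (l η : ℝ) (X Y : ℂ) : eB.re (px l η X Y) = Real.cos η := by
  have e : Real.cos η = Real.cos (η / 2) ^ 2 - Real.sin (η / 2) ^ 2 := by
    rw [← Real.cos_two_mul']
    congr 1
    ring
  rw [e]
  simp only [eB, Ex.re, px]
  push_cast
  ring

theorem px_o (l η : ℝ) (X Y : ℂ) : eo.re (px l η X Y) = 1 := by
  simp only [eo, Ex.re, px]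
  exact Real.cos_sq_add_sin_sq _

theorem csE_re (k : ℕ) (l η : ℝ) (X Y : ℂ) :
    (csE k).1.re (px l η X Y) = Real.cos (k * η) ∧ (csE k).2.re (px l η X Y) = Real.sin (k * η) := by
  induction k with
  | zero => simp [csE, Ex.re]
  | succ k ih =>
    have e : ((k + 1 : ℕ) : ℝ) * η = k * η + η := by push_cast; ring
    rw [e, Real.cos_add, Real.sin_add]
    constructor
    · show (csE k).1.re _ * eB.re _ + (-1 : ℤ) * ((csE k).2.re _ * eA.re _) = _
      rw [ih.1, ih.2, px_A, px_B]
      push_cast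
      ring
    · show (csE k).2.re _ * eB.re _ + (csE k).1.re _ * eA.re _ = _
      rw [ih.1, ih.2, px_A, px_B]

section val

variable (l η : ℝ) (X Y : ℂ)

theorem px_P : eP.re (px l η X Y) = Real.sin η * (Y / X).re := by
  have e : Real.sin η = 2 * Real.sin (η / 2) * Real.cos (η / 2) := by
    rw [← Real.sin_two_mul]
    congr 1
    ring
  rw [e]
  simp only [eP, Ex.re, px]
  push_cast
  ring

theorem px_R : eR.re (px l η X Y) = Real.sin η * (Y / X).im := by
  have e : Real.sin η = 2 * Real.sin (η / 2) * Real.cos (η / 2) := by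
    rw [← Real.sin_two_mul]
    congr 1
    ring
  rw [e]
  simp only [eR, Ex.re, px]
  push_cast
  ring

theorem px_s1 : es1.re (px l η X Y) =
    Real.sin η * (2 * X.re - 1) + Real.sin η * (Y / X).re := by
  show eA.re _ * (Ex.bp [[1], [2]]).re _ + eP.re _ = _
  rw [px_A, px_P]
  simp only [Ex.re, ev2, ev1, px]
  push_cast
  ring

theorem px_s2 : es2.re (px l η X Y) = Real.sin η * (2 * X.im) + Real.sin η * (Y / X).im := by
  show eA.re _ * (Ex.bp [[0, 2]]).re _ + eR.re _ = _
  rw [px_A, px_R]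
  simp only [Ex.re, ev2, ev1, px]
  push_cast
  ring

theorem px_sq : esq.re (px l η X Y) = ‖mX X Y (Real.sin η) (Real.cos η) + 1‖ ^ 2 / 4 := by
  show es1.re _ ^ 2 + es2.re _ ^ 2 = _
  rw [px_s1, px_s2, mX_add (Real.sin_sq_add_cos_sq η), norm_mul, norm_mul, mul_pow, mul_pow,
    nq_sq ((Real.sin η : ℂ) + _), nq_sq ((((_ : ℝ) : ℂ)) + _)]
  simp only [add_re, add_im, mul_re, mul_im, ofReal_re, ofReal_im, I_re, I_im, mul_zero,
    mul_one, sub_zero, add_zero, zero_add, Complex.norm_ofNat]
  have h := Real.sin_sq_add_cos_sq η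
  linear_combination (-((Real.sin η * (2 * X.re - 1) + Real.sin η * (Y / X).re) ^ 2 +
    (Real.sin η * (2 * X.im) + Real.sin η * (Y / X).im) ^ 2)) * h

theorem px_Rm : eRm.re (px l η X Y) = (mX X Y (Real.sin η) (Real.cos η)).re := by
  show (2:ℤ) * (eA.re _ * es1.re _ + (-1 : ℤ) * (eB.re _ * es2.re _)) +
    (-1 : ℤ) * (eo.re _ ^ 2) = _
  rw [px_A, px_B, px_o, px_s1, px_s2]
  have h := congrArg Complex.re (mX_add (X := X) (Y := Y) (Real.sin_sq_add_cos_sq η))
  simp only [add_re, add_im, mul_re, mul_im, ofReal_re, ofReal_im, I_re, I_im, mul_zero,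
    mul_one, sub_zero, add_zero, zero_add, one_re, re_ofNat, im_ofNat] at h
  push_cast
  linear_combination -h

theorem px_NM : eNM.re (px l η X Y) = ‖mX X Y (Real.sin η) (Real.cos η)‖ ^ 2 - 1 := by
  show (4:ℤ) * (esq.re _ + ((-1 : ℤ) * (eA.re _ * es1.re _) + eB.re _ * es2.re _)) = _
  have h1 := px_sq l η X Y
  have h2 := px_Rm l η X Y
  have h3 : eRm.re (px l η X Y) = (2:ℤ) * (eA.re (px l η X Y) * es1.re (px l η X Y) +
    (-1 : ℤ) * (eB.re (px l η X Y) * es2.re (px l η X Y))) + (-1 : ℤ) *
      (eo.re (px l η X Y) ^ 2) := rfl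
  rw [px_o] at h3
  have h4 : ‖mX X Y (Real.sin η) (Real.cos η) + 1‖ ^ 2 =
      ‖mX X Y (Real.sin η) (Real.cos η)‖ ^ 2 + 2 * (mX X Y (Real.sin η) (Real.cos η)).re + 1 := by
    rw [nq_sq, nq_sq]
    simp only [add_re, add_im, one_re, one_im]
    ring
  rw [h4] at h1
  rw [h2] at h3
  push_cast at h3 ⊢
  linear_combination 4 * h1 + 2 * h3

theorem px_Con (f : Sd) : (eCon f).re (px l η X Y) =
    f.r * (‖mX X Y (Real.sin η) (Real.cos η)‖ ^ 2 - 1) + f.sg * l *
      (f.r0 + f.r1 * ‖mX X Y (Real.sin η) (Real.cos η) + 1‖ ^ 2 +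
        f.r2 * ‖mX X Y (Real.sin η) (Real.cos η)‖ ^ 2) := by
  have e : (eCon f).re (px l η X Y) = f.r * eNM.re (px l η X Y) + (f.sg * l) *
      (f.r0 * eo.re (px l η X Y) ^ 2 + (((4 * f.r1 : ℤ) : ℝ) * esq.re (px l η X Y) +
      f.r2 * (eNM.re (px l η X Y) + eo.re (px l η X Y) ^ 2))) := rfl
  rw [e, px_NM, px_sq, px_o]
  push_cast
  ring

end val

end Pool.Agent.Helper69.EK6

end

section

namespace Pool.Sos71
end Pool.Sos71
namespace Pool.EK71
end Pool.EK71
namespace Pool.Agent.Helper52.EK
end Pool.Agent.Helper52.EK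
namespace Pool.Agent.Helper2.EK
end Pool.Agent.Helper2.EK
namespace Pool.Agent.Helper69.EK3
end Pool.Agent.Helper69.EK3
namespace Pool.Agent.Helper69.EK5
end Pool.Agent.Helper69.EK5
namespace Pool.Agent.Helper71.EK3
end Pool.Agent.Helper71.EK3
namespace Pool.Agent.Helper71.EKC
end Pool.Agent.Helper71.EKC

set_option autoImplicit false

open Complex MeasureTheory Metric Set

open scoped Real ComplexConjugate

namespace Pool.Agent.Helper69.EK6

open Pool.Sos71

open Pool.EK71 Pool.Agent.Helper52.EK Pool.Agent.Helper2.EK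

open Pool.Agent.Helper69.EK3

open Pool.Agent.Helper69.EK5 (DQ Dd Dd_pos Dd_low DL e_D qX qY qL Rr c1_Rr Dn Dn_ev Dd_conj Rr_conj_even Rr_conj_odd Rs dEta_conj)

open Pool.Agent.Helper71.EK3 (xL yL r2L FL G2L e_x e_y e_r2 e_F e_G2)

open Pool.Agent.Helper71.EKC (c1_unique pw2 e_pw sb2 e_sb)

open Pool.Agent.Helper71.EKC (c1_conj)

/-- conditions of the families -/
def okU (h j : ℕ) (t : AP × BP) : Bool :=
  dle (2 * j + 2) t.2 && ahom (2 * h - 2) t.1 && (decide (asum t.1 = 0) || par2 true t.2)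

def okF (b : Bool) (h j : ℕ) (t : AP × BP) : Bool :=
  dle (2 * j + 2) t.2 && ahom (2 * h - 2) t.1 && (decide (asum t.1 = 0) || par2 b t.2)

theorem KU_conj {a : DQ} {j h : ℕ} (hh : 2 ≤ h) {t : AP × BP} (ht : okU h j t = true) (X Y : ℂ) :
    KU a j t X Y + KU a j t (conj X) (conj Y) =
      - (2 * (asum (ader (ash 2 0 t.1)) : ℝ) / 2 ^ h * Rs a j t.2 X) := by
  simp only [okU, Bool.and_eq_true, Bool.or_eq_true, decide_eq_true_eq] at ht
  obtain ⟨⟨_, h2⟩, h3⟩ := ht
  have e0 : 2 * h - 2 + 2 + 0 = 2 * h := by omega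
  have g1 : ahom (2 * h) (ash 2 0 t.1) = true := by
    have := ahom_ash 2 0 h2
    rwa [e0] at this
  have g2 := ahom_ader g1
  unfold KU Rs
  rw [af_half_even g1, af_half_even g2, asum_ash]
  rcases h3 with h3 | h3
  · rw [h3]
    push_cast
    ring
  · have h4 := dEta_conj (a := a) (j := j) h3 X Y
    linear_combination (4 * ((asum t.1 : ℝ) / 2 ^ h)) * h4

theorem KVE_conj {a : DQ} {j h : ℕ} (hh : 2 ≤ h) {t : AP × BP} (ht : ahom (2 * h - 1) t.1 = true)
    (X Y : ℂ) : KVE a j t X Y + KVE a j t (conj X) (conj Y) =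
      2 * (asum t.1 : ℝ) / 2 ^ h * Rs a j t.2 X := by
  have e0 : 2 * h - 1 + 1 + 0 = 2 * h := by omega
  have g1 : ahom (2 * h) (ash 1 0 t.1) = true := by
    have := ahom_ash 1 0 ht
    rwa [e0] at this
  unfold KVE Rs
  rw [af_half_even g1, asum_ash]
  ring

theorem KF0_conj {a : DQ} {j h : ℕ} (hh : 2 ≤ h) {t : AP × BP} (ht : okF true h j t = true) (X Y : ℂ) :
    KF0 a j t X Y + KF0 a j t (conj X) (conj Y) = 0 := by
  simp only [okF, Bool.and_eq_true, Bool.or_eq_true, decide_eq_true_eq] at ht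
  obtain ⟨⟨_, h2⟩, h3⟩ := ht
  have e0 : 2 * h - 2 + 2 + 0 = 2 * h := by omega
  have g1 : ahom (2 * h) (ash 2 0 t.1) = true := by
    have := ahom_ash 2 0 h2
    rwa [e0] at this
  unfold KF0
  rw [af_half_even g1, asum_ash]
  rcases h3 with h3 | h3
  · rw [h3]
    simp
  · rw [Rr_conj_even h3, pow_one, pow_one, ← map_div₀]
    simp only [mul_im, ofReal_re, ofReal_im, conj_re, conj_im]
    ring

theorem KF1_conj {a : DQ} {j h : ℕ} (hh : 2 ≤ h) {t : AP × BP} (ht : okF false h j t = true) (X Y : ℂ) :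
    KF1 a j t X Y + KF1 a j t (conj X) (conj Y) = 0 := by
  simp only [okF, Bool.and_eq_true, Bool.or_eq_true, decide_eq_true_eq] at ht
  obtain ⟨⟨_, h2⟩, h3⟩ := ht
  have e0 : 2 * h - 2 + 2 + 0 = 2 * h := by (clear * - hh; omega)
  have g1 : ahom (2 * h) (ash 2 0 t.1) = true := by
    have := ahom_ash 2 0 h2
    rwa [e0] at this
  unfold KF1
  rw [af_half_even g1, asum_ash]
  rcases h3 with h3 | h3
  · rw [h3]
    simp
  · rw [Rr_conj_odd h3, pow_one, pow_one, ← map_div₀]
    simp only [mul_im, mul_re, I_re, I_im, ofReal_re, ofReal_im, conj_re, conj_im]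
    ring

theorem KH_conj (t : AP × ℕ) (X Y : ℂ) : KH t X Y + KH t (conj X) (conj Y) = 0 := by
  unfold KH
  have e : (conj X - 1) ^ t.2 * (conj Y / conj X) ^ 2 = conj ((X - 1) ^ t.2 * (Y / X) ^ 2) := by
    simp
  rw [e, conj_im]
  ring

theorem EHM_re (a : DQ) (K h : ℕ) (t : ℕ × Bool × ℤ) (X Y : ℂ) (l η : ℝ) :
    (EHM a K h t).re (px l η X Y) = Dd a X.re X.im ^ K * NM t X Y η := by
  have h1 := csE_re t.1 l η X Y
  have e : (EHM a K h t).re (px l η X Y) = (t.2.2 : ℝ) *
      ((if t.2.1 then (csE t.1).1 else (csE t.1).2).re (px l η X Y)) *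
      (eo.re (px l η X Y) ^ (h - t.1)) * ev2 (X.re - 1) X.im (mu2 G2L (Dn a K)) := rfl
  rw [e, px_o, one_pow, ev2_mu, e_G2, Dn_ev]
  have h3 : ((X - 1) ^ 2).re = (X.re - 1) ^ 2 - X.im ^ 2 := by
    rw [pow_two (X - 1), mul_re]
    simp
    ring
  unfold NM trg
  rw [h3]
  cases hb : t.2.1
  · simp only [Bool.false_eq_true, if_false, h1.2]
    ring
  · simp only [if_true, h1.1]
    ring

end Pool.Agent.Helper69.EK6

end

section

namespace Pool.Sos71
end Pool.Sos71
namespace Pool.EK71
end Pool.EK71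
namespace Pool.Agent.Helper52.EK
end Pool.Agent.Helper52.EK
namespace Pool.Agent.Helper2.EK
end Pool.Agent.Helper2.EK
namespace Pool.Agent.Helper71.EK3
end Pool.Agent.Helper71.EK3
namespace Pool.Agent.Helper71.EKC
end Pool.Agent.Helper71.EKC

set_option autoImplicit false

open Complex MeasureTheory Metric Set

open scoped Real ComplexConjugate

namespace Pool.Agent.Helper69.EK3

open Pool.Sos71

open Pool.EK71 Pool.Agent.Helper52.EK Pool.Agent.Helper2.EK

open Pool.Agent.Helper71.EK3 (xL yL r2L FL G2L e_x e_y e_r2 e_F e_G2)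

open Pool.Agent.Helper71.EKC (pw2 e_pw sb2 e_sb c1_unique c1_conj)

/-- sum of a list of polynomials -/
def sumB {ι : Type} (f : ι → BP) (base : BP) : List ι → BP
  | [] => base
  | t :: L => ad2 (f t) (sumB f base L)

theorem sumB_ev {ι : Type} (f : ι → BP) (base : BP) (L : List ι) (x y : ℝ) :
    ev2 x y (sumB f base L) = (L.map fun t => ev2 x y (f t)).sum + ev2 x y base := by
  induction L with
  | nil => simp [sumB]
  | cons t L ih =>
    simp only [sumB, List.map_cons, List.sum_cons, ev2_ad, ih]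
    ring

theorem map_sum_mul {ι : Type} (L : List ι) (f : ι → ℝ) (c : ℝ) :
    (L.map fun t => c * f t).sum = c * (L.map f).sum := by
  induction L with
  | nil => simp
  | cons t L ih =>
    simp only [List.map_cons, List.sum_cons, ih]
    ring

theorem map_sum_add {ι : Type} (L : List ι) (f g : ι → ℝ) :
    (L.map f).sum + (L.map g).sum = (L.map fun t => f t + g t).sum := by
  induction L with
  | nil => simp
  | cons t L ih =>
    simp only [List.map_cons, List.sum_cons, ← ih]
    ring

theorem map_sum_congr {ι : Type} (L : List ι) {f g : ι → ℝ} (h : ∀ t ∈ L, f t = g t) :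
    (L.map f).sum = (L.map g).sum := by
  rw [List.map_congr_left h]

theorem c1_list {ι : Type} (L : List ι) (F : ι → ℂ → ℝ)
    (h : ∀ t, ∃ Fx Fy : ℂ → ℝ, C1f (F t) Fx Fy) :
    ∃ Fx Fy : ℂ → ℝ, C1f (fun X => (L.map fun t => F t X).sum) Fx Fy := by
  induction L with
  | nil => exact ⟨_, _, by simpa using c1_const 0⟩
  | cons t L ih =>
    obtain ⟨Ax, Ay, hA⟩ := h t
    obtain ⟨Bx, By, hB⟩ := ih
    exact ⟨_, _, by simpa only [List.map_cons, List.sum_cons] using c1_add hA hB⟩

namespace Dat

variable {c}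

variable (c)

variable {c}

end Dat

end Pool.Agent.Helper69.EK3

end

section

namespace Pool.Sos71
end Pool.Sos71
namespace Pool.EK71
end Pool.EK71
namespace Pool.Agent.Helper52.EK
end Pool.Agent.Helper52.EK
namespace Pool.Agent.Helper2.EK
end Pool.Agent.Helper2.EK
namespace Pool.Agent.Helper69.EK3
end Pool.Agent.Helper69.EK3
namespace Pool.Agent.Helper69.EK5
end Pool.Agent.Helper69.EK5
namespace Pool.Agent.Helper71.EK3
end Pool.Agent.Helper71.EK3
namespace Pool.Agent.Helper71.EKC
end Pool.Agent.Helper71.EKC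

set_option autoImplicit false

open Complex MeasureTheory Metric Set

open scoped Real ComplexConjugate

namespace Pool.Agent.Helper69.EK6

open Pool.Sos71

open Pool.EK71 Pool.Agent.Helper52.EK Pool.Agent.Helper2.EK

open Pool.Agent.Helper69.EK3

open Pool.Agent.Helper69.EK5 (DQ Dd Dd_pos Dd_low DL e_D qX qY qL Rr c1_Rr Dn Dn_ev Dd_conj Rr_conj_even Rr_conj_odd Rs dEta_conj)

open Pool.Agent.Helper71.EK3 (xL yL r2L FL G2L e_x e_y e_r2 e_F e_G2)

open Pool.Agent.Helper71.EKC (c1_unique pw2 e_pw sb2 e_sb)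

open Pool.Agent.Helper71.EKC (c1_conj)

namespace Dat

variable (c : Dat)

/-- conditions on the data -/
def wf : Bool :=
  Nat.ble (c.kU + 2) c.K && Nat.ble (c.kV + 1) c.K && Nat.ble (c.kF + 1) c.K &&
  Nat.ble c.kL c.K && Nat.ble 2 c.h &&
  c.UU.all (okU c.h c.kU) && c.VX.all (fun t => dle (2 * c.kV + 2) t.2) &&
  c.VE.all (fun t => ahom (2 * c.h - 1) t.1) &&
  c.F0.all (okF true c.h c.kF) && c.F1.all (okF false c.h c.kF) &&
  c.HH.all (fun t => Nat.ble t.2 2) && c.HM.all (fun t => Nat.ble 1 t.1 && Nat.ble t.1 4)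

structure Wf : Prop where
  kU : c.kU + 2 ≤ c.K
  kV : c.kV + 1 ≤ c.K
  kF : c.kF + 1 ≤ c.K
  kL : c.kL ≤ c.K
  h2 : 2 ≤ c.h
  uu : ∀ t ∈ c.UU, okU c.h c.kU t = true
  vx : ∀ t ∈ c.VX, dle (2 * c.kV + 2) t.2 = true
  ve : ∀ t ∈ c.VE, ahom (2 * c.h - 1) t.1 = true
  f0 : ∀ t ∈ c.F0, okF true c.h c.kF t = true
  f1 : ∀ t ∈ c.F1, okF false c.h c.kF t = true
  hh : ∀ t ∈ c.HH, t.2 ≤ 2
  hm : ∀ t ∈ c.HM, 1 ≤ t.1 ∧ t.1 ≤ 4

theorem wf_iff (h : c.wf = true) : c.Wf := by
  simp only [wf, Bool.and_eq_true, Nat.ble_eq, List.all_eq_true] at h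
  obtain ⟨⟨⟨⟨⟨⟨⟨⟨⟨⟨⟨h2, h3⟩, h4⟩, h5⟩, h6⟩, h7⟩, h8⟩, h9⟩, h10⟩, h11⟩, h12⟩, h13⟩ := h
  exact ⟨h2, h3, h4, h5, h6, h7, h8, h9, h10, h11, h12, h13⟩

/-- the total null Lagrangian -/
noncomputable def NT (X Y : ℂ) (η : ℝ) : ℝ :=
  (c.UU.map fun t => NU c.a c.kU t X Y η).sum + ((c.VX.map fun t => NVX c.a c.kV t X Y η).sum +
  ((c.VE.map fun t => NVE c.a c.kV t X Y η).sum + ((c.F0.map fun t => NF0 c.a c.kF t X Y η).sum +
  ((c.F1.map fun t => NF1 c.a c.kF t X Y η).sum + ((c.HH.map fun t => NH t X Y η).sum +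
  (c.HM.map fun t => NM t X Y η).sum)))))

noncomputable def KT (X Y : ℂ) : ℝ :=
  (c.UU.map fun t => KU c.a c.kU t X Y).sum + ((c.VX.map fun _ => (0:ℝ)).sum +
  ((c.VE.map fun t => KVE c.a c.kV t X Y).sum + ((c.F0.map fun t => KF0 c.a c.kF t X Y).sum +
  ((c.F1.map fun t => KF1 c.a c.kF t X Y).sum + ((c.HH.map fun t => KH t X Y).sum +
  (c.HM.map fun t => KM t X Y).sum)))))

variable {c}

theorem tN_re (w : c.Wf) {X Y : ℂ} (hX : X ≠ 0) (l η : ℝ) : c.tN.re (px l η X Y) =
    Dd c.a X.re X.im ^ c.K * (c.NT X Y η + (c.lam * ‖X - 1‖ ^ 2 +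
      c.a2 * ((X.re - 1) ^ 2 - X.im ^ 2))) := by
  have e0 : ‖X - 1‖ ^ 2 = (X.re - 1) ^ 2 + X.im ^ 2 := by
    rw [nq_sq]
    simp
  unfold tN
  simp only [sumE_re]
  rw [map_sum_congr c.UU fun t _ => EU_re c.a c.K c.kU t w.kU (Y := Y) hX l η,
    map_sum_congr c.VX fun t _ => EVX_re c.a c.K c.kV t w.kV (Y := Y) hX l η,
    map_sum_congr c.VE fun t _ => EVE_re c.a c.K c.kV t w.kV (Y := Y) hX l η,
    map_sum_congr c.F0 fun t _ => EF0_re c.a c.K c.kF t w.kF (Y := Y) hX l η,
    map_sum_congr c.F1 fun t _ => EF1_re c.a c.K c.kF t w.kF (Y := Y) hX l η,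
    map_sum_congr c.HH fun t ht => EH_re c.a c.K t (w.hh t ht) X Y l η,
    map_sum_congr c.HM fun t _ => EHM_re c.a c.K c.h t X Y l η]
  simp only [map_sum_mul]
  have e1 : (Ex.mul (Ex.pow eo c.h) (Ex.bp (mu2 (ad2 (sm2 c.lam FL) (sm2 c.a2 G2L))
      (Dn c.a c.K)))).re (px l η X Y) = (eo.re (px l η X Y)) ^ c.h *
      ev2 (X.re - 1) X.im (mu2 (ad2 (sm2 c.lam FL) (sm2 c.a2 G2L)) (Dn c.a c.K)) := rfl
  rw [e1, px_o, one_pow, ev2_mu, ev2_ad, ev2_sm, ev2_sm, e_F, e_G2, Dn_ev, e0]
  unfold NT
  ring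

variable (c)

def cU (t : AP × BP) : BP :=
  sm2 (Int.mul 2712 (asum (ader (ash 2 0 t.1)))) (mu2 (ad2 t.2 (fl2 t.2)) (Dn c.a (c.K - c.kU)))

def cE (t : AP × BP) : BP :=
  sm2 (Int.mul (-2712) (asum t.1)) (mu2 (ad2 t.2 (fl2 t.2)) (Dn c.a (c.K - c.kV)))

def cM (t : ℕ × Bool × ℤ) : BP :=
  sm2 (Int.mul (Int.mul (-226) (Int.ofNat (2 ^ c.h))) (Int.mul t.2.2 (hmv t.1 t.2.1)))
    (mu2 G2L (Dn c.a c.K))

def c0 : BP :=
  mu2 (sm2 (Int.mul (-4260) (Int.ofNat (2 ^ c.h))) (ad2 (sm2 c.c1 [[0], [1]]) (sm2 c.a2 G2L)))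
    (Dn c.a c.K)

/-- the centre polynomial: `12 · 113 · 2^h · D^K · E_c` with `355/113` for `π` -/
def cen : BP := sumB c.cU (sumB c.cE (sumB c.cM c.c0 c.HM) c.VE) c.UU

/-- the centre function with `p` for `π` and `k` for `c₁` -/
noncomputable def Ecp (k p : ℝ) (X : ℂ) : ℝ :=
  (c.UU.map fun t => 2 * (asum (ader (ash 2 0 t.1)) : ℝ) / 2 ^ c.h * Rs c.a c.kU t.2 X).sum +
  ((c.VE.map fun t => - (2 * (asum t.1 : ℝ) / 2 ^ c.h * Rs c.a c.kV t.2 X)).sum +
  ((c.HM.map fun t => - ((t.2.2 : ℝ) * hmv t.1 t.2.1 / 6 * ((X.re - 1) ^ 2 - X.im ^ 2))).sum +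
  (- (k * p * (X.re - 1)) - c.a2 * p * ((X.re - 1) ^ 2 - X.im ^ 2))))

variable {c}

theorem cen_ev (w : c.Wf) (X : ℂ) : ev2 (X.re - 1) X.im c.cen =
    1356 * 2 ^ c.h * Dd c.a X.re X.im ^ c.K * c.Ecp c.c1 (355 / 113) X := by
  have hD := (Dd_pos c.a X.re X.im).ne'
  have h2 : (2:ℝ) ^ c.h ≠ 0 := by positivity
  have eU : ∀ t ∈ c.UU, ev2 (X.re - 1) X.im (c.cU t) =
      1356 * 2 ^ c.h * Dd c.a X.re X.im ^ c.K *
        (2 * (asum (ader (ash 2 0 t.1)) : ℝ) / 2 ^ c.h * Rs c.a c.kU t.2 X) := by
    intro t _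
    obtain ⟨m, hm⟩ := Nat.exists_eq_add_of_le (le_trans (Nat.le_add_right _ 2) w.kU)
    have e2 : c.K - c.kU = m := by omega
    rw [cU, ev2_sm, ev2_mu, ev2_ad, fl2_ev, Dn_ev, imul_cast', e2]
    unfold Rs Rr
    rw [Dd_conj, conj_re, conj_im]
    have p1 : Dd c.a X.re X.im ^ c.K = Dd c.a X.re X.im ^ c.kU * Dd c.a X.re X.im ^ m := by
      rw [hm, pow_add]
    rw [p1]
    field_simp
    push_cast
    ring
  have eE : ∀ t ∈ c.VE, ev2 (X.re - 1) X.im (c.cE t) =
      1356 * 2 ^ c.h * Dd c.a X.re X.im ^ c.K *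
        (- (2 * (asum t.1 : ℝ) / 2 ^ c.h * Rs c.a c.kV t.2 X)) := by
    intro t _
    obtain ⟨m, hm⟩ := Nat.exists_eq_add_of_le (le_trans (Nat.le_add_right _ 1) w.kV)
    have e2 : c.K - c.kV = m := by omega
    rw [cE, ev2_sm, ev2_mu, ev2_ad, fl2_ev, Dn_ev, imul_cast', e2]
    unfold Rs Rr
    rw [Dd_conj, conj_re, conj_im]
    have p1 : Dd c.a X.re X.im ^ c.K = Dd c.a X.re X.im ^ c.kV * Dd c.a X.re X.im ^ m := by
      rw [hm, pow_add]
    rw [p1]
    field_simp
    push_cast
    ring
  have eM : ∀ t ∈ c.HM, ev2 (X.re - 1) X.im (c.cM t) =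
      1356 * 2 ^ c.h * Dd c.a X.re X.im ^ c.K *
        (- ((t.2.2 : ℝ) * hmv t.1 t.2.1 / 6 * ((X.re - 1) ^ 2 - X.im ^ 2))) := by
    intro t _
    rw [cM, ev2_sm, ev2_mu, e_G2, Dn_ev, imul_cast', imul_cast', imul_cast', ofNat_cast']
    push_cast
    ring
  rw [cen, sumB_ev, sumB_ev, sumB_ev, map_sum_congr _ eU, map_sum_congr _ eE, map_sum_congr _ eM,
    map_sum_mul, map_sum_mul, map_sum_mul, c0, ev2_mu, ev2_sm, ev2_ad, ev2_sm, ev2_sm, e_G2,
    Dn_ev, imul_cast', ofNat_cast']
  unfold Ecp
  simp only [ev2, ev1]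
  push_cast
  ring

theorem KT_conj (w : c.Wf) (X Y : ℂ) (k : ℝ) :
    (c.KT X Y + (c.a2 * (π / 2) * ((X.re - 1) ^ 2 - X.im ^ 2) + k * (π / 2) * (X.re - 1))) +
    (c.KT (conj X) (conj Y) + (c.a2 * (π / 2) * (((conj X).re - 1) ^ 2 - (conj X).im ^ 2) +
      k * (π / 2) * ((conj X).re - 1))) = - c.Ecp k π X := by
  have eU := map_sum_congr c.UU fun t ht => KU_conj (a := c.a) w.h2 (w.uu t ht) X Y
  have eE := map_sum_congr c.VE fun t ht => KVE_conj (a := c.a) (j := c.kV) w.h2 (w.ve t ht) X Y
  have e0 := map_sum_congr c.F0 fun t ht => KF0_conj (a := c.a) w.h2 (w.f0 t ht) X Y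
  have e1 := map_sum_congr c.F1 fun t ht => KF1_conj (a := c.a) w.h2 (w.f1 t ht) X Y
  have eH := map_sum_congr c.HH fun t _ => KH_conj t X Y
  have eM := map_sum_congr c.HM fun t ht => KM_conj (w.hm t ht).1 (w.hm t ht).2 X Y
  rw [← map_sum_add] at eU eE e0 e1 eH eM
  have n0 : ∀ (L : List (AP × BP)), (L.map fun _ => (0:ℝ)).sum = 0 := fun L => by
    induction L with
    | nil => simp
    | cons t L ih => simpa using ih
  have n1 : ∀ (L : List (AP × ℕ)), (L.map fun _ => (0:ℝ)).sum = 0 := fun L => by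
    induction L with
    | nil => simp
    | cons t L ih => simpa using ih
  have g1 : (c.UU.map fun t => - (2 * (asum (ader (ash 2 0 t.1)) : ℝ) / 2 ^ c.h *
      Rs c.a c.kU t.2 X)).sum = - (c.UU.map fun t => 2 * (asum (ader (ash 2 0 t.1)) : ℝ) /
      2 ^ c.h * Rs c.a c.kU t.2 X).sum := by
    have := map_sum_mul c.UU (fun t => 2 * (asum (ader (ash 2 0 t.1)) : ℝ) / 2 ^ c.h *
      Rs c.a c.kU t.2 X) (-1)
    simp only [neg_mul, one_mul] at this
    exact this
  have g2 : (c.VE.map fun t => - (2 * (asum t.1 : ℝ) / 2 ^ c.h * Rs c.a c.kV t.2 X)).sum =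
      - (c.VE.map fun t => 2 * (asum t.1 : ℝ) / 2 ^ c.h * Rs c.a c.kV t.2 X).sum := by
    have := map_sum_mul c.VE (fun t => 2 * (asum t.1 : ℝ) / 2 ^ c.h * Rs c.a c.kV t.2 X) (-1)
    simp only [neg_mul, one_mul] at this
    exact this
  have g3 : (c.HM.map fun t => - ((t.2.2 : ℝ) * hmv t.1 t.2.1 / 6 *
      ((X.re - 1) ^ 2 - X.im ^ 2))).sum = - (c.HM.map fun t => (t.2.2 : ℝ) * hmv t.1 t.2.1 / 6 *
      ((X.re - 1) ^ 2 - X.im ^ 2)).sum := by
    have := map_sum_mul c.HM (fun t => (t.2.2 : ℝ) * hmv t.1 t.2.1 / 6 *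
      ((X.re - 1) ^ 2 - X.im ^ 2)) (-1)
    simp only [neg_mul, one_mul] at this
    exact this
  rw [n0] at e0 e1
  rw [n1] at eH
  rw [g1] at eU
  unfold Ecp KT
  rw [g2, g3, n0, conj_re, conj_im]
  linear_combination eU + eE + e0 + e1 + eH + eM

theorem Ecp_c1 (k p : ℝ) : ∃ Ex Ey : ℂ → ℝ, C1f (c.Ecp k p) Ex Ey := by
  have hR : ∀ (a : DQ) (j : ℕ) (P : BP), ∃ Fx Fy : ℂ → ℝ, C1f (Rs a j P) Fx Fy := fun a j P =>
    ⟨_, _, c1_add (c1_Rr a j P) (c1_conj (c1_Rr a j P))⟩
  have hS : ∃ Fx Fy : ℂ → ℝ, C1f (fun X : ℂ => (X.re - 1) ^ 2 - X.im ^ 2) Fx Fy :=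
    ⟨_, _, by
      have h1 := c1_sub c1_re (c1_const 1)
      have h2 := c1_sub (c1_mul h1 h1) (c1_mul c1_im c1_im)
      exact c1_congr h2 (fun X => by ring) (fun _ => rfl) (fun _ => rfl)⟩
  obtain ⟨A1, A2, hA⟩ := c1_list c.UU (fun t X => 2 * (asum (ader (ash 2 0 t.1)) : ℝ) /
    2 ^ c.h * Rs c.a c.kU t.2 X) (fun t => by
      obtain ⟨_, _, h⟩ := hR c.a c.kU t.2
      exact ⟨_, _, c1_mul (c1_const _) h⟩)
  obtain ⟨B1, B2, hB⟩ := c1_list c.VE (fun t X => - (2 * (asum t.1 : ℝ) / 2 ^ c.h *
    Rs c.a c.kV t.2 X)) (fun t => by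
      obtain ⟨_, _, h⟩ := hR c.a c.kV t.2
      exact ⟨_, _, c1_congr (c1_mul (c1_const (-(2 * (asum t.1 : ℝ) / 2 ^ c.h))) h)
        (fun X => by ring) (fun _ => rfl) (fun _ => rfl)⟩)
  obtain ⟨C1, C2, hC⟩ := c1_list c.HM (fun t X => - ((t.2.2 : ℝ) * hmv t.1 t.2.1 / 6 *
    ((X.re - 1) ^ 2 - X.im ^ 2))) (fun t => by
      obtain ⟨_, _, h⟩ := hS
      exact ⟨_, _, c1_congr (c1_mul (c1_const (-((t.2.2 : ℝ) * hmv t.1 t.2.1 / 6))) h)
        (fun X => by ring) (fun _ => rfl) (fun _ => rfl)⟩)
  obtain ⟨S1, S2, hS⟩ := hS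
  have hL := c1_sub (c1_mul (c1_const (-(k * p))) (c1_sub c1_re (c1_const 1)))
    (c1_mul (c1_const (c.a2 * p)) hS)
  refine ⟨_, _, c1_congr (c1_add hA (c1_add hB (c1_add hC hL))) (fun X => ?_) (fun _ => rfl)
    (fun _ => rfl)⟩
  unfold Ecp
  ring

end Dat

end Pool.Agent.Helper69.EK6

end

section

namespace Pool.Sos71
end Pool.Sos71
namespace Pool.EK71
end Pool.EK71
namespace Pool.Agent.Helper52.EK
end Pool.Agent.Helper52.EK
namespace Pool.Agent.Helper2.EK
end Pool.Agent.Helper2.EK
namespace Pool.Agent.Helper71.EK3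
end Pool.Agent.Helper71.EK3
namespace Pool.Agent.Helper71.EKC
end Pool.Agent.Helper71.EKC

set_option autoImplicit false

open Complex MeasureTheory Metric Set

open scoped Real ComplexConjugate

namespace Pool.Agent.Helper69.EK3

open Pool.Sos71

open Pool.EK71 Pool.Agent.Helper52.EK Pool.Agent.Helper2.EK

open Pool.Agent.Helper71.EK3 (xL yL r2L FL G2L e_x e_y e_r2 e_F e_G2)

open Pool.Agent.Helper71.EKC (pw2 e_pw sb2 e_sb c1_unique c1_conj)

namespace Dat

theorem half_bd {η : ℝ} (hη : η ∈ Icc (0:ℝ) (π / 2)) :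
    0 ≤ Real.sin (η / 2) ∧ Real.sin (η / 2) ≤ Real.cos (η / 2) := by
  have hp := Real.pi_pos
  refine ⟨Real.sin_nonneg_of_nonneg_of_le_pi (by linarith [hη.1]) (by (clear * - hη hp; linarith only [hη.2, hp])), ?_⟩
  have h1 : Real.sin (η / 2) ≤ Real.sin (π / 4) :=
    Real.sin_le_sin_of_le_of_le_pi_div_two (by linarith [hη.1]) (by linarith only [hp]) (by (clear * - hη; linarith only [hη.2]))
  have h2 : Real.cos (π / 4) ≤ Real.cos (η / 2) :=
    Real.cos_le_cos_of_nonneg_of_le_pi (by (clear * - hη; linarith [hη.1])) (by (clear * - hp; linarith)) (by linarith [hη.2])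
  rw [Real.sin_pi_div_four] at h1
  rw [Real.cos_pi_div_four] at h2
  exact h1.trans h2

theorem pi_err {p : ℝ} (hp : p = 355 / 113) : 0 ≤ p - π ∧ (p - π) / π ≤ 1 / 10 ^ 7 := by
  have h1 := Real.pi_gt_d20
  have h2 := Real.pi_lt_d20
  have h3 := Real.pi_pos
  subst hp
  refine ⟨by norm_num at h2 ⊢; linarith only [h2], ?_⟩
  rw [div_le_iff₀ h3]
  norm_num at h1 ⊢
  linarith

theorem disc_im {X : ℂ} (hX : ‖X‖ ≤ 1) : |(X.re - 1) ^ 2 - X.im ^ 2| ≤ 2 * (1 - X.re) := by
  have h1 : X.re ^ 2 + X.im ^ 2 ≤ 1 := by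
    rw [← nq_sq]
    nlinarith only [norm_nonneg X, hX]
  have h2 : X.re ≤ 1 := (Complex.re_le_norm X).trans hX
  rw [abs_le]
  constructor
  · (clear * - h1; nlinarith only [h1])
  · nlinarith only [h1]

end Dat

end Pool.Agent.Helper69.EK3

end

section

namespace Pool.Sos71
end Pool.Sos71
namespace Pool.EK71
end Pool.EK71
namespace Pool.Agent.Helper52.EK
end Pool.Agent.Helper52.EK
namespace Pool.Agent.Helper2.EK
end Pool.Agent.Helper2.EK
namespace Pool.Agent.Helper69.EK3
end Pool.Agent.Helper69.EK3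
namespace Pool.Agent.Helper69.EK5
end Pool.Agent.Helper69.EK5
namespace Pool.Agent.Helper71.EK3
end Pool.Agent.Helper71.EK3
namespace Pool.Agent.Helper71.EKC
end Pool.Agent.Helper71.EKC
namespace Pool.Agent.Helper69.EK3.Dat
end Pool.Agent.Helper69.EK3.Dat

set_option autoImplicit false

open Complex MeasureTheory Metric Set

open scoped Real ComplexConjugate

namespace Pool.Agent.Helper69.EK6

open Pool.Sos71

open Pool.EK71 Pool.Agent.Helper52.EK Pool.Agent.Helper2.EK

open Pool.Agent.Helper69.EK3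

open Pool.Agent.Helper69.EK5 (DQ Dd Dd_pos Dd_low DL e_D qX qY qL Rr c1_Rr Dn Dn_ev Dd_conj Rr_conj_even Rr_conj_odd Rs dEta_conj)

open Pool.Agent.Helper71.EK3 (xL yL r2L FL G2L e_x e_y e_r2 e_F e_G2)

open Pool.Agent.Helper71.EKC (c1_unique pw2 e_pw sb2 e_sb)

open Pool.Agent.Helper71.EKC (c1_conj)

open Pool.Agent.Helper69.EK3.Dat (half_bd pi_err disc_im)

/-- `16 - |(1 + e₀)(2 σ X - 1 + X'/X) + 2|²` -/
def eDi (σ : ℤ) : Ex :=
  Ex.add (Ex.sc 16 eone) (Ex.sc (-4) (Ex.add
    (Ex.pow (Ex.add eP (Ex.mul (Ex.sc (2 * σ) eA) (Ex.bp [[1], [1]]))) 2)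
    (Ex.pow (Ex.add (Ex.add eR (Ex.mul (Ex.sc (2 * σ) eA) (Ex.bp [[0, 1]])))
      (Ex.sc (-1) eB)) 2)))

theorem px_Di (σ : ℤ) (l η : ℝ) (X Y : ℂ) : (eDi σ).re (px l η X Y) =
    16 - ‖dA (σ : ℝ) X Y (Real.sin η) (Real.cos η)‖ ^ 2 := by
  have e : (eDi σ).re (px l η X Y) = ((16 : ℤ) : ℝ) * eo.re (px l η X Y) ^ 2 +
      ((-4 : ℤ) : ℝ) * ((eP.re (px l η X Y) + ((2 * σ : ℤ) : ℝ) * eA.re (px l η X Y) *
        ev2 (X.re - 1) X.im [[1], [1]]) ^ 2 + (eR.re (px l η X Y) + ((2 * σ : ℤ) : ℝ) *
        eA.re (px l η X Y) * ev2 (X.re - 1) X.im [[0, 1]] + ((-1 : ℤ) : ℝ) *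
        eB.re (px l η X Y)) ^ 2) := rfl
  have h3 := Real.sin_sq_add_cos_sq η
  have h3c : (Real.sin η : ℂ) ^ 2 + (Real.cos η : ℂ) ^ 2 = 1 := by exact_mod_cast h3
  have h4 : ‖(Real.sin η : ℂ) + (Real.cos η : ℂ) * I‖ ^ 2 = 1 := by
    rw [nq_sq]
    simp only [add_re, add_im, mul_re, mul_im, ofReal_re, ofReal_im, I_re, I_im, mul_zero,
      mul_one, sub_zero, add_zero, zero_add]
    exact h3
  have h5 : dA (σ : ℝ) X Y (Real.sin η) (Real.cos η) =
      2 * ((Real.sin η : ℂ) + (Real.cos η : ℂ) * I) *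
        ((Real.sin η : ℂ) * (Y / X) + 2 * (σ : ℂ) * (Real.sin η : ℂ) * X -
          (Real.cos η : ℂ) * I) := by
    unfold dA e0
    push_cast
    have h3c' : Complex.sin η ^ 2 + Complex.cos η ^ 2 = 1 := by
      push_cast at h3c
      exact h3c
    linear_combination (2 * (σ : ℂ) * X - 1 + Y / X) * (-h3c' - Complex.sin η ^ 2 * I_sq) -
      2 * h3c' + 2 * Complex.cos η ^ 2 * I_sq
  rw [e, px_A, px_B, px_o, px_P, px_R, h5, norm_mul, norm_mul, mul_pow, mul_pow, h4, nq_sq (_ - _)]
  simp only [ev2, ev1, sub_re, sub_im, add_re, add_im, mul_re, mul_im, ofReal_re, ofReal_im,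
    I_re, I_im, intCast_re, intCast_im, re_ofNat, im_ofNat, Complex.norm_ofNat, mul_zero, mul_one,
    sub_zero, add_zero, zero_add, zero_mul]
  push_cast
  ring

namespace Dat

variable {c : Dat} {ka kb p0 p1 p2 la lb q0 q1 q2 : ℝ} {Ln Ld Ln' Ld' : ℤ}

end Dat

end Pool.Agent.Helper69.EK6

end

section

namespace Pool.Sos71
end Pool.Sos71
namespace Pool.EK71
end Pool.EK71
namespace Pool.Agent.Helper52.EK
end Pool.Agent.Helper52.EK

set_option autoImplicit false

open Complex MeasureTheory Metric Set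

open scoped Real ComplexConjugate

namespace Pool.Agent.Helper69.EK7

open Pool.Sos71 Pool.EK71 Pool.Agent.Helper52.EK

structure Pnt9 where
  t : Pnt
  r1 : ℝ
  r2 : ℝ
  v1 : ℝ
  v2 : ℝ

/-- the value of an expression -/
noncomputable def re9 (x : Pnt9) : Ex → ℝ
  | Ex.lit z => z
  | Ex.va i => match i with
    | 0 => x.t.a
    | 1 => x.t.b
    | 2 => x.t.c
    | 3 => x.t.d
    | 4 => x.t.e
    | 5 => x.t.f
    | 6 => x.t.g
    | 7 => x.r1
    | 8 => x.r2
    | 9 => x.v1
    | _ => x.v2
  | Ex.add p q => re9 x p + re9 x q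
  | Ex.mul p q => re9 x p * re9 x q
  | Ex.sc z p => z * re9 x p
  | Ex.pow p n => re9 x p ^ n
  | Ex.bp P => ev2 x.t.f x.t.g P

/-- only the variables `0, ..., 6` occur -/
def low : Ex → Bool
  | Ex.lit _ => true
  | Ex.va i => Nat.ble i 6
  | Ex.add p q => low p && low q
  | Ex.mul p q => low p && low q
  | Ex.sc _ p => low p
  | Ex.pow p _ => low p
  | Ex.bp _ => true

theorem re9_low (x : Pnt9) (p : Ex) (h : low p = true) : re9 x p = p.re x.t := by
  induction p with
  | lit z => rfl
  | va i =>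
    simp only [low, Nat.ble_eq] at h
    rcases i with _ | _ | _ | _ | _ | _ | _ | i <;> first | rfl | omega
  | add p q ihp ihq =>
    simp only [low, Bool.and_eq_true] at h
    show re9 x p + re9 x q = p.re x.t + q.re x.t
    rw [ihp h.1, ihq h.2]
  | mul p q ihp ihq =>
    simp only [low, Bool.and_eq_true] at h
    show re9 x p * re9 x q = p.re x.t * q.re x.t
    rw [ihp h.1, ihq h.2]
  | sc z p ih =>
    simp only [low] at h
    show (z : ℝ) * re9 x p = z * p.re x.t
    rw [ih h]
  | pow p n ih =>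
    simp only [low] at h
    show re9 x p ^ n = p.re x.t ^ n
    rw [ih h]
  | bp P => rfl

structure CE where
  r : Ex
  i : Ex

namespace CE

def add (a b : CE) : CE := ⟨Ex.add a.r b.r, Ex.add a.i b.i⟩

def mul (a b : CE) : CE := ⟨Ex.add (Ex.mul a.r b.r) (Ex.sc (-1) (Ex.mul a.i b.i)),
  Ex.add (Ex.mul a.r b.i) (Ex.mul a.i b.r)⟩

def sc (z : ℤ) (a : CE) : CE := ⟨Ex.sc z a.r, Ex.sc z a.i⟩

def cj (a : CE) : CE := ⟨a.r, Ex.sc (-1) a.i⟩

def mI (a : CE) : CE := ⟨Ex.sc (-1) a.i, a.r⟩

def pow (a : CE) : ℕ → CE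
  | 0 => ⟨Ex.lit 1, Ex.lit 0⟩
  | 1 => a
  | n + 2 => mul a (pow a (n + 1))

/-- multiplication by a real expression -/
def rm (p : Ex) (a : CE) : CE := ⟨Ex.mul p a.r, Ex.mul p a.i⟩

/-- the value -/
noncomputable def v (x : Pnt9) (a : CE) : ℂ := ⟨re9 x a.r, re9 x a.i⟩

variable (x : Pnt9) (a b : CE)

theorem v_add : v x (add a b) = v x a + v x b := by
  apply Complex.ext
  · rfl
  · rfl

theorem v_mul : v x (mul a b) = v x a * v x b := by
  apply Complex.ext
  · rw [mul_re]
    simp only [v, mul, re9]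
    push_cast
    ring
  · rw [mul_im]
    simp only [v, mul, re9]

theorem v_sc (z : ℤ) : v x (sc z a) = (z : ℂ) * v x a := by
  apply Complex.ext
  · simp [v, sc, re9]
  · simp [v, sc, re9]

theorem v_cj : v x (cj a) = conj (v x a) := by
  apply Complex.ext
  · rfl
  · simp [v, cj, re9]

theorem v_mI : v x (mI a) = I * v x a := by
  apply Complex.ext
  · simp [v, mI, re9]
  · simp [v, mI, re9]

theorem v_pow (n : ℕ) : v x (pow a n) = v x a ^ n := by
  induction n using Nat.strong_induction_on with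
  | _ n ih =>
    match n with
    | 0 =>
      apply Complex.ext
      · simp [v, pow, re9]
      · simp [v, pow, re9]
    | 1 => simp [pow]
    | n + 2 =>
      rw [pow, v_mul, ih (n + 1) (by omega)]
      ring

theorem v_rm (p : Ex) : v x (rm p a) = (re9 x p : ℂ) * v x a := by
  apply Complex.ext
  · simp [v, rm, re9]
  · simp [v, rm, re9]

end CE

/-- `P` -/
def cP : CE := ⟨Ex.va 3, Ex.va 4⟩

/-- `ρ` -/
def cR : CE := ⟨Ex.va 7, Ex.va 8⟩

/-- `v` -/
def cV : CE := ⟨Ex.va 9, Ex.va 10⟩

/-- the point of the variables -/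
noncomputable def px9 (l η : ℝ) (X Y Z w : ℂ) : Pnt9 :=
  ⟨EK6.px l η X Y, ((Real.sin (η / 2) : ℂ) ^ 2 * (Z / X - (Y / X) ^ 2)).re,
    ((Real.sin (η / 2) : ℂ) ^ 2 * (Z / X - (Y / X) ^ 2)).im, w.re, w.im⟩

variable (l η : ℝ) (X Y Z w : ℂ)

theorem v_cP : CE.v (px9 l η X Y Z w) cP = (Real.sin (η / 2) : ℂ) * (Y / X) := by
  apply Complex.ext
  · simp only [CE.v, cP, re9, px9, EK6.px, mul_re, ofReal_re, ofReal_im]
    ring
  · simp only [CE.v, cP, re9, px9, EK6.px, mul_im, ofReal_re, ofReal_im]
    ring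

theorem v_cR : CE.v (px9 l η X Y Z w) cR =
    (Real.sin (η / 2) : ℂ) ^ 2 * (Z / X - (Y / X) ^ 2) := Complex.ext rfl rfl

theorem v_cV : CE.v (px9 l η X Y Z w) cV = w := Complex.ext rfl rfl

end Pool.Agent.Helper69.EK7

end

section

namespace Pool.Sos71
end Pool.Sos71
namespace Pool.EK71
end Pool.EK71
namespace Pool.Agent.Helper52.EK
end Pool.Agent.Helper52.EK
namespace Pool.Agent.Helper69.EK7
end Pool.Agent.Helper69.EK7
namespace Pool.Agent.Helper69.EK3
end Pool.Agent.Helper69.EK3

/-!
# Project EK7: the field in the half angle ring, expressions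
-/

set_option autoImplicit false

open Complex Metric Set

open scoped Real ComplexConjugate

namespace Pool.Agent.Helper20.EK7

open Pool.Sos71 Pool.EK71 Pool.Agent.Helper52.EK Pool.Agent.Helper69.EK7

open Pool.Agent.Helper69.EK3 (eA eB eo)

/-- `σ = S (2X-1) + P` -/
def cSg : CE := CE.add (CE.rm (Ex.va 1) ⟨Ex.bp [[1], [2]], Ex.bp [[0, 2]]⟩) cP

/-- `ω = 2 S (X-1) + P` -/
def cOm : CE := CE.add (CE.rm (Ex.va 1) ⟨Ex.bp [[0], [2]], Ex.bp [[0, 2]]⟩) cP

/-- squared modulus -/
def cSq (a : CE) : Ex := Ex.add (Ex.pow a.r 2) (Ex.pow a.i 2)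

/-- `N W = Gm ω + N v + sg l Al σ` -/
def cWW (N Gm Al sg : ℤ) : CE := CE.add (CE.sc Gm cOm)
  (CE.add (CE.sc N cV) (CE.rm (Ex.sc (sg * Al) (Ex.va 0)) cSg))

/-- `N K = C0 + sg l (Be - Al)` -/
def eKK (C0 Al Be sg : ℤ) : Ex := Ex.add (Ex.lit C0) (Ex.sc (sg * (Be - Al)) (Ex.va 0))

/-- the loss times `N²`, weight 4 -/
def eT9 (N Gm C0 Al Be sg : ℤ) : Ex :=
  Ex.add (Ex.sc 16 (Ex.mul (Ex.pow (Ex.va 2) 2) (cSq (cWW N Gm Al sg))))
    (Ex.add (Ex.sc 8 (Ex.mul (Ex.mul (eKK C0 Al Be sg) (Ex.va 2))
        (Ex.add (Ex.mul eA (cWW N Gm Al sg).r) (Ex.sc (-1) (Ex.mul eB (cWW N Gm Al sg).i)))))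
      (Ex.add (Ex.sc (8 * (Gm - N)) (Ex.mul (Ex.va 2)
          (Ex.add (Ex.mul eA (cWW N Gm Al sg).r) (Ex.mul eB (cWW N Gm Al sg).i))))
        (Ex.add (Ex.mul (Ex.add (Ex.pow (eKK C0 Al Be sg) 2) (Ex.lit ((Gm - N) ^ 2)))
            (Ex.pow eo 2))
          (Ex.sc (2 * (Gm - N)) (Ex.mul (eKK C0 Al Be sg)
            (Ex.add (Ex.pow eA 2) (Ex.sc (-1) (Ex.pow eB 2))))))))

section val

variable (l η : ℝ) (X Y Z w : ℂ)

theorem re9_1 : re9 (px9 l η X Y Z w) (Ex.va 1) = Real.sin (η / 2) := rfl

theorem re9_2 : re9 (px9 l η X Y Z w) (Ex.va 2) = Real.cos (η / 2) := rfl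

theorem re9_eA : re9 (px9 l η X Y Z w) eA = 2 * Real.sin (η / 2) * Real.cos (η / 2) := by
  show ((2 : ℤ) : ℝ) * (Real.sin (η / 2) * Real.cos (η / 2)) = _
  push_cast
  ring

theorem re9_eB : re9 (px9 l η X Y Z w) eB =
    Real.cos (η / 2) ^ 2 - Real.sin (η / 2) ^ 2 := by
  show Real.cos (η / 2) ^ 2 + ((-1 : ℤ) : ℝ) * Real.sin (η / 2) ^ 2 = _
  push_cast
  ring

theorem re9_eo : re9 (px9 l η X Y Z w) eo =
    Real.sin (η / 2) ^ 2 + Real.cos (η / 2) ^ 2 := by
  show Real.cos (η / 2) ^ 2 + Real.sin (η / 2) ^ 2 = _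
  ring

theorem v_bp (P Q : List (List ℤ)) : CE.v (px9 l η X Y Z w) ⟨Ex.bp P, Ex.bp Q⟩ =
    ⟨ev2 (X.re - 1) X.im P, ev2 (X.re - 1) X.im Q⟩ := rfl

theorem v_cSg : CE.v (px9 l η X Y Z w) cSg =
    sgm (Real.sin (η / 2)) X ((Real.sin (η / 2) : ℂ) * (Y / X)) := by
  rw [cSg, CE.v_add, CE.v_rm, re9_1, v_cP, v_bp, sgm]
  congr 2
  apply Complex.ext
  · simp only [ev2, ev1, sub_re, mul_re, re_ofNat, im_ofNat, one_re]
    push_cast
    ring
  · simp only [ev2, ev1, sub_im, mul_im, re_ofNat, im_ofNat, one_im]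
    push_cast
    ring

theorem v_cOm : CE.v (px9 l η X Y Z w) cOm =
    omg (Real.sin (η / 2)) X ((Real.sin (η / 2) : ℂ) * (Y / X)) := by
  rw [cOm, CE.v_add, CE.v_rm, re9_1, v_cP, v_bp, omg]
  congr 1
  have e : (⟨ev2 (X.re - 1) X.im [[0], [2]], ev2 (X.re - 1) X.im [[0, 2]]⟩ : ℂ) =
      2 * (X - 1) := by
    apply Complex.ext
    · simp only [ev2, ev1, sub_re, mul_re, re_ofNat, im_ofNat, one_re]
      push_cast
      ring
    · simp only [ev2, ev1, sub_re, sub_im, mul_im, re_ofNat, im_ofNat, one_re, one_im]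
      push_cast
      ring
  rw [e]
  ring

/-- the value of `v` at the point -/
noncomputable def vpt (g0 g1 d η : ℝ) (X Y Z : ℂ) : ℂ :=
  vv g0 g1 d (Real.sin (η / 2)) (Real.cos (η / 2)) X ((Real.sin (η / 2) : ℂ) * (Y / X))
    ((Real.sin (η / 2) : ℂ) ^ 2 * (Z / X - (Y / X) ^ 2))

theorem sin_half (η : ℝ) : Real.sin η = 2 * Real.sin (η / 2) * Real.cos (η / 2) := by
  rw [← Real.sin_two_mul]
  congr 1
  ring

theorem cos_half (η : ℝ) : Real.cos η = Real.cos (η / 2) ^ 2 - Real.sin (η / 2) ^ 2 := by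
  rw [← Real.cos_two_mul']
  congr 1
  ring

variable {N Gm C0 Al Be sg : ℤ} {gam c0 a b g0 g1 d : ℝ}

theorem v_cWW (h1 : (Gm : ℝ) = N * gam) (h3 : (Al : ℝ) = N * a) :
    CE.v (px9 l η X Y Z w) (cWW N Gm Al sg) = (N : ℂ) * WW gam a (sg * l) (Real.sin (η / 2)) X
      ((Real.sin (η / 2) : ℂ) * (Y / X)) w := by
  rw [cWW, CE.v_add, CE.v_sc, CE.v_add, CE.v_sc, CE.v_rm, v_cOm, v_cV, v_cSg]
  have e : re9 (px9 l η X Y Z w) (Ex.sc (sg * Al) (Ex.va 0)) = N * (sg * l * a) := by
    show ((sg * Al : ℤ) : ℝ) * l = _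
    push_cast
    rw [h3]
    ring
  have h1' : (Gm : ℂ) = (N : ℂ) * (gam : ℂ) := by exact_mod_cast congrArg (fun t : ℝ => (t : ℂ)) h1
  rw [e, h1', WW]
  push_cast
  ring

theorem re9_eKK (h2 : (C0 : ℝ) = N * c0) (h3 : (Al : ℝ) = N * a) (h4 : (Be : ℝ) = N * b) :
    re9 (px9 l η X Y Z w) (eKK C0 Al Be sg) = N * (c0 + (sg * l) * (b - a)) := by
  show (C0 : ℝ) + ((sg * (Be - Al) : ℤ) : ℝ) * l = _
  push_cast
  rw [h2, h3, h4]
  ring

/-- **the loss** as an expression -/
theorem re9_eT9 (h1 : (Gm : ℝ) = N * gam) (h2 : (C0 : ℝ) = N * c0) (h3 : (Al : ℝ) = N * a)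
    (h4 : (Be : ℝ) = N * b) :
    re9 (px9 l η X Y Z (vpt g0 g1 d η X Y Z)) (eT9 N Gm C0 Al Be sg) =
      (N : ℝ) ^ 2 * ‖Fv gam c0 a b g0 g1 d (sg * l) (mX X Y (Real.sin η) (Real.cos η))
        (tX X Y Z (Real.sin η) (Real.cos η)) - e0 (Real.sin η) (Real.cos η)‖ ^ 2 := by
  have hSC : Real.sin (η / 2) ^ 2 + Real.cos (η / 2) ^ 2 = 1 := Real.sin_sq_add_cos_sq _
  have hT := ring_T (gam := gam) (c0 := c0) (a := a) (b := b) (g0 := g0) (g1 := g1) (d := d)
    (l := sg * l) hSC (X := X) (Y := Y) (Z := Z) rfl rfl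
  rw [sin_half η, cos_half η, hT]
  have hW := v_cWW (sg := sg) l η X Y Z (vpt g0 g1 d η X Y Z) h1 h3
  have hK := re9_eKK (sg := sg) l η X Y Z (vpt g0 g1 d η X Y Z) h2 h3 h4
  obtain ⟨W, hWd⟩ : ∃ W, W = WW gam a (sg * l) (Real.sin (η / 2)) X
      ((Real.sin (η / 2) : ℂ) * (Y / X)) (vpt g0 g1 d η X Y Z) := ⟨_, rfl⟩
  have hWd' : WW gam a (sg * l) (Real.sin (η / 2)) X ((Real.sin (η / 2) : ℂ) * (Y / X))
      (vv g0 g1 d (Real.sin (η / 2)) (Real.cos (η / 2)) X ((Real.sin (η / 2) : ℂ) * (Y / X))
        ((Real.sin (η / 2) : ℂ) ^ 2 * (Z / X - (Y / X) ^ 2))) = W := hWd.symm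
  rw [← hWd] at hW
  rw [hWd']
  have hr : re9 (px9 l η X Y Z (vpt g0 g1 d η X Y Z)) (cWW N Gm Al sg).r = N * W.re := by
    have := congrArg Complex.re hW
    simpa [CE.v, mul_re] using this
  have hi : re9 (px9 l η X Y Z (vpt g0 g1 d η X Y Z)) (cWW N Gm Al sg).i = N * W.im := by
    have := congrArg Complex.im hW
    simpa [CE.v, mul_im] using this
  have hA := re9_eA l η X Y Z (vpt g0 g1 d η X Y Z)
  have hB := re9_eB l η X Y Z (vpt g0 g1 d η X Y Z)
  have ho := re9_eo l η X Y Z (vpt g0 g1 d η X Y Z)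
  have h2' := re9_2 l η X Y Z (vpt g0 g1 d η X Y Z)
  simp only [eT9, cSq, re9] at hA hB ho h2' hK hr hi ⊢
  rw [hA, hB, ho, hK, hr, hi]
  simp only [px9, Pool.Agent.Helper69.EK6.px]
  unfold Tw
  push_cast
  rw [h1]
  ring

end val

end Pool.Agent.Helper20.EK7

end

section

namespace Pool.Sos71
end Pool.Sos71
namespace Pool.EK71
end Pool.EK71
namespace Pool.Agent.Helper52.EK
end Pool.Agent.Helper52.EK
namespace Pool.Agent.Helper69.EK7
end Pool.Agent.Helper69.EK7
namespace Pool.Agent.Helper20.EK7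
end Pool.Agent.Helper20.EK7
namespace Pool.Agent.Helper69.EK3
end Pool.Agent.Helper69.EK3

/-!
# Project CK: the critical multiplier in the half angle ring

`A = sin η = 2SC`, `B = cos η = C² - S²`, `sY = s(2X-1) + s q = 2Cσ`, `D = 2 conj (sY) - (A + iB)`:
`conj m (A + iB) = D`, `e₀ = (A+iB)²`, so `conj m ^ j e₀ = (A+iB)^(2-j) D^j`, `j ≤ 2`, of weight 4.
-/

set_option autoImplicit false

open Complex Metric Set

open scoped Real ComplexConjugate

namespace Pool.Agent.Helper20.CK

open Pool.Sos71 Pool.EK71 Pool.Agent.Helper52.EK Pool.Agent.Helper69.EK7 Pool.Agent.Helper20.EK7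

open Pool.Agent.Helper69.EK3 (eA eB eo)

/-- `A + iB = i E` -/
noncomputable def AB (S C : ℝ) : ℂ := I * En S C

/-- `D = 2 conj (2 C σ) - (A + i B)` -/
noncomputable def DD (S C : ℝ) (X P : ℂ) : ℂ := 2 * conj (2 * C * sgm S X P) - AB S C

theorem AB_eq (S C : ℝ) : AB S C = ((2 * S * C : ℝ) : ℂ) + ((C ^ 2 - S ^ 2 : ℝ) : ℂ) * I := by
  unfold AB
  rw [En_eq]
  linear_combination (-((2 * S * C : ℝ) : ℂ)) * I_sq

theorem e0_AB (S C : ℝ) : e0 (2 * S * C) (C ^ 2 - S ^ 2) = AB S C ^ 2 := by
  rw [e0_En]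
  unfold AB
  linear_combination (-(En S C) ^ 2) * I_sq

section

variable {S C : ℝ} (h : S ^ 2 + C ^ 2 = 1)

include h

theorem norm_AB : ‖AB S C‖ = 1 := by
  unfold AB
  rw [norm_mul, Complex.norm_I, norm_En h, one_mul]

theorem AB_conj : AB S C * conj (AB S C) = 1 := by
  rw [Complex.mul_conj', norm_AB h]
  simp

theorem m_AB {X Y P : ℂ} (hP : P = S * (Y / X)) :
    mX X Y (2 * S * C) (C ^ 2 - S ^ 2) = 4 * C * AB S C * sgm S X P - 1 := by
  rw [ring_m h hP]
  unfold AB
  ring

theorem cm_AB {X Y P : ℂ} (hP : P = S * (Y / X)) :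
    conj (mX X Y (2 * S * C) (C ^ 2 - S ^ 2)) * AB S C = DD S C X P := by
  rw [m_AB h hP]
  have h1 := AB_conj h
  unfold DD
  simp only [map_sub, map_mul, map_ofNat, conj_ofReal, map_one]
  linear_combination (4 * (C : ℂ) * conj (sgm S X P)) * h1

/-- `conj m ^ j e₀ = (A + iB)^k D^j`, `j + k = 2` -/
theorem cmj_e0 {X Y P : ℂ} (hP : P = S * (Y / X)) {j k : ℕ} (hjk : j + k = 2) :
    conj (mX X Y (2 * S * C) (C ^ 2 - S ^ 2)) ^ j * e0 (2 * S * C) (C ^ 2 - S ^ 2) =
      AB S C ^ k * DD S C X P ^ j := by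
  rw [e0_AB, ← cm_AB h hP, ← hjk]
  ring

end

/-- `A + i B` -/
def cAB : CE := ⟨eA, eB⟩

/-- `sY = 2 C σ` -/
def csY : CE := CE.sc 2 (CE.rm (Ex.va 2) cSg)

/-- `D` -/
def cDD : CE := CE.add (CE.sc 2 (CE.cj csY)) (CE.sc (-1) cAB)

section val

variable (l η : ℝ) (X Y Z w : ℂ)

theorem v_cAB : CE.v (px9 l η X Y Z w) cAB = AB (Real.sin (η / 2)) (Real.cos (η / 2)) := by
  rw [AB_eq]
  apply Complex.ext
  · show re9 _ eA = _
    rw [re9_eA]
    simp only [add_re, mul_re, ofReal_re, ofReal_im, I_re, I_im]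
    ring
  · show re9 _ eB = _
    rw [re9_eB]
    simp only [add_im, mul_im, ofReal_re, ofReal_im, I_re, I_im]
    ring

theorem v_csY : CE.v (px9 l η X Y Z w) csY = 2 * (Real.cos (η / 2) : ℂ) *
    sgm (Real.sin (η / 2)) X ((Real.sin (η / 2) : ℂ) * (Y / X)) := by
  rw [csY, CE.v_sc, CE.v_rm, re9_2, v_cSg]
  push_cast
  ring

theorem v_cDD : CE.v (px9 l η X Y Z w) cDD = DD (Real.sin (η / 2)) (Real.cos (η / 2)) X
    ((Real.sin (η / 2) : ℂ) * (Y / X)) := by
  rw [cDD, CE.v_add, CE.v_sc, CE.v_cj, CE.v_sc, v_cAB, v_csY, DD]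
  push_cast
  ring

end val

section val2

variable (l η : ℝ) (X Y Z w : ℂ)

end val2

end Pool.Agent.Helper20.CK

end

section

namespace Pool.Sos71
end Pool.Sos71
namespace Pool.EK71
end Pool.EK71
namespace Pool.Agent.Helper52.EK
end Pool.Agent.Helper52.EK
namespace Pool.Agent.Helper2.EK
end Pool.Agent.Helper2.EK
namespace Pool.Agent.Helper69.EK3
end Pool.Agent.Helper69.EK3
namespace Pool.Agent.Helper69.EK5
end Pool.Agent.Helper69.EK5
namespace Pool.Agent.Helper69.EK6
end Pool.Agent.Helper69.EK6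
namespace Pool.Agent.Helper71.EKC
end Pool.Agent.Helper71.EKC
namespace Pool.Agent.Helper69.EK3.Dat
end Pool.Agent.Helper69.EK3.Dat
namespace Pool.Agent.Helper20.CK
end Pool.Agent.Helper20.CK

set_option autoImplicit false

open Complex MeasureTheory Metric Set

open scoped Real ComplexConjugate

namespace Pool.Agent.Helper71.CK

open Pool.Sos71

open Pool.EK71 Pool.Agent.Helper52.EK Pool.Agent.Helper2.EK

open Pool.Agent.Helper69.EK3 hiding NM KM

open Pool.Agent.Helper69.EK5 (DQ Dd Dd_pos Dd_low Dn Dn_ev)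

open Pool.Agent.Helper69.EK6 (px px_o csE_re)

open Pool.Agent.Helper71.EKC (c1_unique)

structure DatM where
  c : Pool.Agent.Helper69.EK6.Dat
  HM1 : List (ℕ × Bool × ℤ)
  kb : ℤ
  del : ℤ
  MI : List (ℕ × ℕ × ℤ)
  MO : List (ℕ × ℕ × ℤ)

/-- `c cos kη Re (X-1)` or `c sin kη Re (X-1)`, times `D^K` -/
def EHM1 (a : DQ) (K h : ℕ) (t : ℕ × Bool × ℤ) : Ex :=
  Ex.mul (Ex.mul (Ex.sc t.2.2 (if t.2.1 then (csE t.1).1 else (csE t.1).2)) (Ex.pow eo (h - t.1)))
    (Ex.bp (mu2 [[0], [1]] (Dn a K)))

namespace DatM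

variable (d : DatM)

/-- `kb (1 - Re X) + del` and the families `HM1`, times `D^K` -/
def tX : Ex :=
  sumE (EHM1 d.c.a d.c.K d.c.h)
    (Ex.mul (Ex.pow eo d.c.h) (Ex.bp (mu2 [[d.del], [Int.neg d.kb]] (Dn d.c.a d.c.K)))) d.HM1

/-- conditions on the data -/
def wf : Bool :=
  d.c.wf && d.HM1.all (fun t => Nat.ble 1 t.1 && Nat.ble t.1 4) &&
  d.MI.all (fun t => Nat.ble t.2.1 2) && d.MO.all (fun t => Nat.ble t.2.1 2)

structure Wf : Prop where
  c : d.c.Wf
  hm : ∀ t ∈ d.HM1, 1 ≤ t.1 ∧ t.1 ≤ 4
  mi : ∀ t ∈ d.MI, t.2.1 ≤ 2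
  mo : ∀ t ∈ d.MO, t.2.1 ≤ 2

theorem wf_iff (h : d.wf = true) : d.Wf := by
  simp only [wf, Bool.and_eq_true, Nat.ble_eq, List.all_eq_true] at h
  obtain ⟨⟨⟨h1, h2⟩, h3⟩, h4⟩ := h
  exact ⟨Pool.Agent.Helper69.EK6.Dat.wf_iff d.c h1, h2, h3, h4⟩

end DatM

/-- `∑ c lⁿ (conj m)^j` -/
noncomputable def MS (L : List (ℕ × ℕ × ℤ)) (l : ℝ) (m : ℂ) : ℂ :=
  (L.map fun t => (t.2.2 : ℂ) * ((l : ℂ) ^ t.1 * conj m ^ t.2.1)).sum

/-- **the multiplier** `Mq(m)` -/
noncomputable def Mq (M : ℤ) (MI MO : List (ℕ × ℕ × ℤ)) (p0 p1 p2 q0 q1 q2 : ℝ) (m : ℂ) : ℂ :=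
  if ‖m‖ ≤ 1 then MS MI ((1 - ‖m‖ ^ 2) / rF p0 p1 p2 m) m / (M : ℂ)
  else MS MO ((‖m‖ ^ 2 - 1) / rF q0 q1 q2 m) m / (M : ℂ)

theorem MS_conj (L : List (ℕ × ℕ × ℤ)) (l : ℝ) (m : ℂ) :
    MS L l (conj m) = conj (MS L l m) := by
  unfold MS
  induction L with
  | nil => simp
  | cons t L ih =>
    simp only [List.map_cons, List.sum_cons, map_add, ih, map_mul, map_pow, conj_ofReal,
      map_intCast]

theorem rF_conj' (p0 p1 p2 : ℝ) (m : ℂ) : rF p0 p1 p2 (conj m) = rF p0 p1 p2 m := by
  rw [rF_eq, rF_eq, norm_conj, conj_re]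

theorem Mq_conj (M : ℤ) (MI MO : List (ℕ × ℕ × ℤ)) (p0 p1 p2 q0 q1 q2 : ℝ) (m : ℂ) :
    Mq M MI MO p0 p1 p2 q0 q1 q2 (conj m) = conj (Mq M MI MO p0 p1 p2 q0 q1 q2 m) := by
  unfold Mq
  rw [norm_conj, rF_conj', rF_conj']
  split_ifs
  · rw [MS_conj, map_div₀, map_intCast]
  · rw [MS_conj, map_div₀, map_intCast]

/-- on the unit circle only the terms `n = 0` remain -/
theorem MS_zero (L : List (ℕ × ℕ × ℤ)) (m : ℂ) :
    MS L 0 m = MS (L.filter fun t => t.1 == 0) 0 m := by
  unfold MS
  induction L with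
  | nil => simp
  | cons t L ih =>
    obtain ⟨n, j, c⟩ := t
    rw [List.map_cons, List.sum_cons, ih]
    cases n with
    | zero => simp
    | succ n => simp

section val

variable (l η : ℝ) (X Y : ℂ)

theorem EHM1_re (a : DQ) (K h : ℕ) (t : ℕ × Bool × ℤ) :
    (EHM1 a K h t).re (px l η X Y) = Dd a X.re X.im ^ K *
      ((t.2.2 : ℝ) * (trg t.1 t.2.1 η * ((X - 1) ^ 1).re)) := by
  have h1 := csE_re t.1 l η X Y
  have e : (EHM1 a K h t).re (px l η X Y) = (t.2.2 : ℝ) *
      ((if t.2.1 then (csE t.1).1 else (csE t.1).2).re (px l η X Y)) *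
      (eo.re (px l η X Y) ^ (h - t.1)) * ev2 (X.re - 1) X.im (mu2 [[0], [1]] (Dn a K)) := rfl
  have e2 : ev2 (X.re - 1) X.im [[0], [1]] = X.re - 1 := by
    simp only [ev2, ev1]
    push_cast
    ring
  rw [e, px_o, one_pow, ev2_mu, e2, Dn_ev, pow_one, sub_re, one_re]
  unfold trg
  cases hb : t.2.1
  · simp only [Bool.false_eq_true, if_false, h1.2]
    ring
  · simp only [if_true, h1.1]
    ring

end val

namespace DatM

variable (d : DatM)

/-- the total null Lagrangian -/
noncomputable def NT (X Y : ℂ) (η : ℝ) : ℝ :=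
  d.c.NT X Y η + (d.HM1.map fun t => (t.2.2 : ℝ) * (trg t.1 t.2.1 η * ((X - 1) ^ 1).re)).sum

/-- its centre function -/
noncomputable def KT (X Y : ℂ) : ℝ :=
  d.c.KT X Y + (d.HM1.map fun t => (t.2.2 : ℝ) *
    ((∫ u in (0:ℝ)..(π / 2), trg t.1 t.2.1 u) * ((X - 1) ^ 1).re)).sum

variable {d}

theorem tX_re (l η : ℝ) (X Y : ℂ) : d.tX.re (px l η X Y) = Dd d.c.a X.re X.im ^ d.c.K *
    ((d.HM1.map fun t => (t.2.2 : ℝ) * (trg t.1 t.2.1 η * ((X - 1) ^ 1).re)).sum +
      (d.kb * (1 - X.re) + d.del)) := by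
  unfold tX
  rw [sumE_re, map_sum_congr d.HM1 fun t _ => EHM1_re l η X Y d.c.a d.c.K d.c.h t, map_sum_mul]
  have e1 : (Ex.mul (Ex.pow eo d.c.h) (Ex.bp (mu2 [[d.del], [Int.neg d.kb]]
      (Dn d.c.a d.c.K)))).re (px l η X Y) = (eo.re (px l η X Y)) ^ d.c.h *
      ev2 (X.re - 1) X.im (mu2 [[d.del], [Int.neg d.kb]] (Dn d.c.a d.c.K)) := rfl
  have e2 : ev2 (X.re - 1) X.im [[d.del], [Int.neg d.kb]] = d.kb * (1 - X.re) + d.del := by
    have e3 : Int.neg d.kb = - d.kb := rfl
    rw [e3]
    simp only [ev2, ev1]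
    push_cast
    ring
  rw [e1, px_o, one_pow, ev2_mu, e2, Dn_ev]
  ring

end DatM

end Pool.Agent.Helper71.CK

end

section

namespace Pool.Sos71
end Pool.Sos71
namespace Pool.EK71
end Pool.EK71
namespace Pool.Agent.Helper52.EK
end Pool.Agent.Helper52.EK
namespace Pool.Agent.Helper2.EK
end Pool.Agent.Helper2.EK
namespace Pool.Agent.Helper69.EK3
end Pool.Agent.Helper69.EK3
namespace Pool.Agent.Helper69.EK5
end Pool.Agent.Helper69.EK5
namespace Pool.Agent.Helper69.EK6
end Pool.Agent.Helper69.EK6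
namespace Pool.Agent.Helper69.EK6.Dat
end Pool.Agent.Helper69.EK6.Dat
namespace Pool.Agent.Helper71.EKC
end Pool.Agent.Helper71.EKC
namespace Pool.Agent.Helper69.EK3.Dat
end Pool.Agent.Helper69.EK3.Dat
namespace Pool.Agent.Helper20.EK7
end Pool.Agent.Helper20.EK7

set_option autoImplicit false

open Complex MeasureTheory Metric Set

open scoped Real ComplexConjugate

namespace Pool.Agent.Helper71.CK

open Pool.Sos71

open Pool.EK71 Pool.Agent.Helper52.EK Pool.Agent.Helper2.EK

open Pool.Agent.Helper69.EK3 hiding NM KM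

open Pool.Agent.Helper69.EK5 (DQ Dd Dd_pos Dd_low Dn Dn_ev)

open Pool.Agent.Helper69.EK6 (px px_o csE_re eCon)

open Pool.Agent.Helper71.EKC (c1_unique)

open Pool.Agent.Helper69.EK3.Dat (disc_im)

open Pool.Agent.Helper20.EK7 (InL OutL)

/-- `1 - |m|² ≤ L rF p (m)` -/
structure LIn (p0 p1 p2 L : ℝ) : Prop where
  lA : 0 ≤ L * (p1 + p2) + 1
  lC : 0 ≤ L * (p0 + p1) - 1
  lB : (L * (2 * p1)) ^ 2 ≤ 4 * ((L * (p1 + p2) + 1) * (L * (p0 + p1) - 1))

/-- `|m|² - 1 ≤ L rF q (m)` -/
structure LOut (q0 q1 q2 L : ℝ) : Prop where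
  lA : 0 ≤ L * (q1 + q2) - 1
  lC : 0 ≤ L * (q0 + q1) + 1
  lB : (L * (2 * q1)) ^ 2 ≤ 4 * ((L * (q1 + q2) - 1) * (L * (q0 + q1) + 1))

theorem LIn.l_bd {p0 p1 p2 L : ℝ} (h : LIn p0 p1 p2 L) (g : InL p0 p1 p2) {m : ℂ}
    (hm : ‖m‖ ≤ 1) : 0 < rF p0 p1 p2 m ∧ 0 ≤ (1 - ‖m‖ ^ 2) / rF p0 p1 p2 m ∧
      (1 - ‖m‖ ^ 2) / rF p0 p1 p2 m ≤ L := by
  obtain ⟨c, hc, hl⟩ := g.low
  have h1 : 0 < rF p0 p1 p2 m := lt_of_lt_of_le (by (clear * - hc; positivity)) (hl m hm)
  have h2 : ‖m‖ ^ 2 ≤ 1 := by nlinarith only [norm_nonneg m, hm]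
  refine ⟨h1, div_nonneg (by (clear * - h2; linarith)) h1.le, ?_⟩
  rw [div_le_iff₀ h1, rF_eq]
  have h3 := quad_nonneg h.lA h.lC h.lB (re_sq_le m)
  (clear * - h3; linarith)

theorem LOut.l_bd {a q0 q1 q2 L : ℝ} (h : LOut q0 q1 q2 L) (g : OutL a q0 q1 q2) {m : ℂ}
    (hm : 1 ≤ ‖m‖) : 0 < rF q0 q1 q2 m ∧ 0 ≤ (‖m‖ ^ 2 - 1) / rF q0 q1 q2 m ∧
      (‖m‖ ^ 2 - 1) / rF q0 q1 q2 m ≤ L := by
  obtain ⟨c, hc, hl⟩ := g.low
  have h1 : 0 < rF q0 q1 q2 m := lt_of_lt_of_le (by (clear * - hc hm; positivity)) (hl m)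
  have h2 : 1 ≤ ‖m‖ ^ 2 := by nlinarith only [hm]
  refine ⟨h1, div_nonneg (by (clear * - h2; linarith)) h1.le, ?_⟩
  rw [div_le_iff₀ h1, rF_eq]
  have h3 := quad_nonneg h.lA h.lC h.lB (re_sq_le m)
  (clear * - h3; linarith only [h3])

namespace DatM

variable {d : DatM} {ka kb p0 p1 p2 la lb q0 q1 q2 : ℝ} {Ln Ld Ln' Ld' : ℤ}

section cen

variable (d)

def cM1 (t : ℕ × Bool × ℤ) : BP :=
  sm2 (Int.mul (Int.mul (-226) (Int.ofNat (2 ^ d.c.h))) (Int.mul t.2.2 (hmv t.1 t.2.1)))
    (mu2 [[0], [1]] (Dn d.c.a d.c.K))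

/-- the centre polynomial: `12 · 113 · 2^h · D^K · E_c` with `355/113` for `π` -/
def cen : BP := sumB d.cM1 (ad2 d.c.cen (mu2 (sm2 (Int.mul 4260 (Int.ofNat (2 ^ d.c.h)))
  [[0], [d.kb]]) (Dn d.c.a d.c.K))) d.HM1

/-- the centre function with `p` for `π` and `k` for `c₁` -/
noncomputable def Ecp (k p : ℝ) (X : ℂ) : ℝ :=
  d.c.Ecp k p X + ((d.HM1.map fun t => - ((t.2.2 : ℝ) * hmv t.1 t.2.1 / 6 * (X.re - 1))).sum +
    d.kb * p * (X.re - 1))

end cen

theorem cen_ev (w : d.Wf) (X : ℂ) : ev2 (X.re - 1) X.im d.cen =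
    1356 * 2 ^ d.c.h * Dd d.c.a X.re X.im ^ d.c.K * d.Ecp d.c.c1 (355 / 113) X := by
  have e2 : ev2 (X.re - 1) X.im [[0], [1]] = X.re - 1 := by
    simp only [ev2, ev1]
    push_cast
    ring
  have e3 : ev2 (X.re - 1) X.im [[0], [d.kb]] = d.kb * (X.re - 1) := by
    simp only [ev2, ev1]
    push_cast
    ring
  have eM : ∀ t ∈ d.HM1, ev2 (X.re - 1) X.im (d.cM1 t) =
      1356 * 2 ^ d.c.h * Dd d.c.a X.re X.im ^ d.c.K *
        (- ((t.2.2 : ℝ) * hmv t.1 t.2.1 / 6 * (X.re - 1))) := by
    intro t _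
    rw [cM1, ev2_sm, ev2_mu, e2, Dn_ev, imul_cast', imul_cast', imul_cast', ofNat_cast']
    push_cast
    ring
  rw [cen, sumB_ev, map_sum_congr _ eM, map_sum_mul, ev2_ad, ev2_mu, ev2_sm, e3, Dn_ev,
    imul_cast', ofNat_cast', Pool.Agent.Helper69.EK6.Dat.cen_ev w.c]
  unfold Ecp
  push_cast
  ring

theorem KT_conj (w : d.Wf) (X Y : ℂ) (k : ℝ) :
    (d.KT X Y + (d.c.a2 * (π / 2) * ((X.re - 1) ^ 2 - X.im ^ 2) +
      (k - d.kb) * (π / 2) * (X.re - 1))) +
    (d.KT (conj X) (conj Y) + (d.c.a2 * (π / 2) * (((conj X).re - 1) ^ 2 - (conj X).im ^ 2) +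
      (k - d.kb) * (π / 2) * ((conj X).re - 1))) = - d.Ecp k π X := by
  have h1 := Pool.Agent.Helper69.EK6.Dat.KT_conj w.c X Y k
  have h2 : ∀ t ∈ d.HM1, (t.2.2 : ℝ) * ((∫ u in (0:ℝ)..(π / 2), trg t.1 t.2.1 u) *
      ((X - 1) ^ 1).re) + (t.2.2 : ℝ) * ((∫ u in (0:ℝ)..(π / 2), trg t.1 t.2.1 u) *
      ((conj X - 1) ^ 1).re) = (t.2.2 : ℝ) * hmv t.1 t.2.1 / 6 * (X.re - 1) := by
    intro t ht
    have h4 := trg_int t.1 t.2.1 (w.hm t ht).1 (w.hm t ht).2
    rw [pow_one, pow_one, sub_re, sub_re, conj_re, one_re, ← h4]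
    ring
  have h3 := map_sum_congr _ h2
  rw [← map_sum_add] at h3
  have h4 : (d.HM1.map fun t => - ((t.2.2 : ℝ) * hmv t.1 t.2.1 / 6 * (X.re - 1))).sum =
      - (d.HM1.map fun t => (t.2.2 : ℝ) * hmv t.1 t.2.1 / 6 * (X.re - 1)).sum := by
    have := map_sum_mul d.HM1 (fun t => (t.2.2 : ℝ) * hmv t.1 t.2.1 / 6 * (X.re - 1)) (-1)
    simp only [neg_mul, one_mul] at this
    exact this
  unfold KT Ecp
  rw [h4]
  rw [conj_re, conj_im] at h1 ⊢
  linear_combination h1 + h3

theorem Ecp_c1 (k p : ℝ) : ∃ Ex Ey : ℂ → ℝ, C1f (d.Ecp k p) Ex Ey := by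
  obtain ⟨A1, A2, hA⟩ := Pool.Agent.Helper69.EK6.Dat.Ecp_c1 (c := d.c) k p
  have hS := c1_sub c1_re (c1_const 1)
  obtain ⟨B1, B2, hB⟩ := c1_list d.HM1 (fun t X => - ((t.2.2 : ℝ) * hmv t.1 t.2.1 / 6 *
    (X.re - 1))) (fun t =>
      ⟨_, _, c1_congr (c1_mul (c1_const (-((t.2.2 : ℝ) * hmv t.1 t.2.1 / 6))) hS)
        (fun X => by ring) (fun _ => rfl) (fun _ => rfl)⟩)
  refine ⟨_, _, c1_congr (c1_add hA (c1_add hB (c1_mul (c1_const (d.kb * p)) hS)))
    (fun X => ?_) (fun _ => rfl) (fun _ => rfl)⟩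
  unfold Ecp
  ring

/-- `355/113` for `π`: the error is dominated by a small change of `c₁`; `ε π = A (p - π)`,
`A ≥ c₁ + kb⁻ + 2 |a₂|` -/
theorem Ecp_pi {p ε : ℝ} (hp : 0 ≤ p - π)
    (hε : ε * π = (|(d.c.c1 : ℝ) - d.kb| + 2 * |(d.c.a2 : ℝ)|) * (p - π)) {X : ℂ}
    (hX : ‖X‖ ≤ 1) : 0 ≤ d.Ecp (d.c.c1 + ε) π X - d.Ecp d.c.c1 p X := by
  have h4 : d.Ecp (d.c.c1 + ε) π X - d.Ecp d.c.c1 p X =
      (ε * π - (d.c.c1 - d.kb) * (p - π)) * (1 - X.re) +
      d.c.a2 * (p - π) * ((X.re - 1) ^ 2 - X.im ^ 2) := by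
    unfold Ecp Pool.Agent.Helper69.EK6.Dat.Ecp
    ring
  rw [h4, hε]
  have h5 := disc_im hX
  have h6 : -(|(d.c.a2 : ℝ)| * (2 * (1 - X.re))) ≤ d.c.a2 * ((X.re - 1) ^ 2 - X.im ^ 2) := by
    have h7 : |(d.c.a2 : ℝ) * ((X.re - 1) ^ 2 - X.im ^ 2)| ≤
        |(d.c.a2 : ℝ)| * (2 * (1 - X.re)) := by
      rw [abs_mul]
      exact mul_le_mul_of_nonneg_left h5 (abs_nonneg _)
    exact (abs_le.1 h7).1
  have h8 := mul_le_mul_of_nonneg_left h6 hp
  have h9 := le_abs_self ((d.c.c1 : ℝ) - d.kb)
  have h10 : 0 ≤ 1 - X.re := by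
    have := (Complex.abs_re_le_norm X).trans hX
    have := (abs_le.1 this).2
    (clear * - this; linarith)
  have h11 := mul_nonneg (mul_nonneg (sub_nonneg.2 h9) hp) h10
  (clear * - h8 h11; linarith only [h8, h11])

end DatM

end Pool.Agent.Helper71.CK

end

section

namespace Pool.Sos71
end Pool.Sos71
namespace Pool.EK71
end Pool.EK71
namespace Pool.Agent.Helper52.EK
end Pool.Agent.Helper52.EK
namespace Pool.Agent.Helper2.EK
end Pool.Agent.Helper2.EK
namespace Pool.Agent.Helper69.EK3
end Pool.Agent.Helper69.EK3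
namespace Pool.Agent.Helper69.EK5
end Pool.Agent.Helper69.EK5
namespace Pool.Agent.Helper69.EK6
end Pool.Agent.Helper69.EK6
namespace Pool.Agent.Helper69.EK6.Dat
end Pool.Agent.Helper69.EK6.Dat
namespace Pool.Agent.Helper69.EK3.Dat
end Pool.Agent.Helper69.EK3.Dat
namespace Pool.Agent.Helper69.EK7
end Pool.Agent.Helper69.EK7
namespace Pool.Agent.Helper20.CK
end Pool.Agent.Helper20.CK
namespace Pool.Agent.Helper20.EK7
end Pool.Agent.Helper20.EK7

set_option autoImplicit false

open Complex MeasureTheory Metric Set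

open scoped Real ComplexConjugate

namespace Pool.Agent.Helper71.CK

open Pool.Sos71

open Pool.EK71 Pool.Agent.Helper52.EK Pool.Agent.Helper2.EK

open Pool.Agent.Helper69.EK3 hiding NM KM

open Pool.Agent.Helper69.EK5 (DQ Dd Dd_pos Dd_low Dn Dn_ev)

open Pool.Agent.Helper69.EK6 (px px_o csE_re eCon)

open Pool.Agent.Helper69.EK3.Dat (disc_im)

open Pool.Agent.Helper69.EK7 (px9 re9 re9_low low CE)

open Pool.Agent.Helper20.CK (cAB cDD AB DD v_cAB v_cDD cmj_e0)

open Pool.Agent.Helper20.EK7

/-- `td (X² - 1) - tn` -/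
def cXt (tn td : ℤ) : CE := ⟨Ex.bp [[Int.neg tn, 0, Int.neg td], [Int.mul 2 td], [td]],
  Ex.bp [[0, Int.mul 2 td], [0, Int.mul 2 td]]⟩

/-- `conj m ^ j e₀ (td (X² - 1) - tn)`, `j ≤ 2`, weight 4 -/
def cMt (tn td : ℤ) (j : ℕ) : CE := CE.mul (CE.mul (CE.pow cAB (2 - j)) (CE.pow cDD j)) (cXt tn td)

section val

variable (l η : ℝ) (X Y Z w : ℂ) (tn td : ℤ)

theorem v_cXt : CE.v (px9 l η X Y Z w) (cXt tn td) = td * (X ^ 2 - 1) - tn := by
  have e1 : Int.neg tn = - tn := rfl
  have e2 : Int.neg td = - td := rfl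
  have e3 : Int.mul 2 td = 2 * td := rfl
  apply Complex.ext
  · show ev2 (X.re - 1) X.im [[Int.neg tn, 0, Int.neg td], [Int.mul 2 td], [td]] = _
    rw [e1, e2, e3]
    simp only [ev2, ev1, pow_two, sub_re, mul_re, one_re, intCast_re, intCast_im, sub_im, mul_im,
      one_im]
    push_cast
    ring
  · show ev2 (X.re - 1) X.im [[0, Int.mul 2 td], [0, Int.mul 2 td]] = _
    rw [e3]
    simp only [ev2, ev1, pow_two, sub_re, mul_re, one_re, intCast_re, intCast_im, sub_im, mul_im,
      one_im]
    push_cast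
    ring

theorem v_cMt {j : ℕ} (hj : j ≤ 2) : CE.v (px9 l η X Y Z w) (cMt tn td j) =
    conj (mX X Y (Real.sin η) (Real.cos η)) ^ j * e0 (Real.sin η) (Real.cos η) *
      (td * (X ^ 2 - 1) - tn) := by
  have hSC : Real.sin (η / 2) ^ 2 + Real.cos (η / 2) ^ 2 = 1 := Real.sin_sq_add_cos_sq _
  rw [cMt, CE.v_mul, CE.v_mul, CE.v_pow, CE.v_pow, v_cAB, v_cDD, v_cXt, sin_half η, cos_half η,
    cmj_e0 hSC (P := (Real.sin (η / 2) : ℂ) * (Y / X)) rfl (show j + (2 - j) = 2 by omega)]

theorem re_cMt {j : ℕ} (hj : j ≤ 2) : (cMt tn td j).r.re (px l η X Y) =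
    (conj (mX X Y (Real.sin η) (Real.cos η)) ^ j * e0 (Real.sin η) (Real.cos η) *
      (td * (X ^ 2 - 1) - tn)).re := by
  have h1 : re9 (px9 l η X Y 0 0) (cMt tn td j).r = (conj (mX X Y (Real.sin η) (Real.cos η)) ^ j *
      e0 (Real.sin η) (Real.cos η) * (td * (X ^ 2 - 1) - tn)).re := by
    rw [← v_cMt l η X Y 0 0 tn td hj]
    rfl
  have h2 : low (cMt tn td j).r = true := by
    interval_cases j <;> rfl
  rw [re9_low _ _ h2] at h1
  exact h1

/-- `c lⁿ Re [(conj m)^j e₀ (td (X² - 1) - tn)]`, times `D^K` -/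
def EMt (tn td : ℤ) (a : DQ) (K h : ℕ) (t : ℕ × ℕ × ℤ) : Ex :=
  Ex.mul (Ex.mul (Ex.pow (Ex.va 0) t.1) (Ex.sc t.2.2 (cMt tn td t.2.1).r))
    (Ex.mul (Ex.pow eo (h - 2)) (Ex.bp (Dn a K)))

theorem EMt_re (a : DQ) (K h : ℕ) (t : ℕ × ℕ × ℤ) (ht : t.2.1 ≤ 2) :
    (EMt tn td a K h t).re (px l η X Y) = Dd a X.re X.im ^ K *
      ((t.2.2 : ℂ) * ((l : ℂ) ^ t.1 * conj (mX X Y (Real.sin η) (Real.cos η)) ^ t.2.1) *
        e0 (Real.sin η) (Real.cos η) * (td * (X ^ 2 - 1) - tn)).re := by
  have h1 := re_cMt l η X Y tn td ht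
  have e : (EMt tn td a K h t).re (px l η X Y) = l ^ t.1 * ((t.2.2 : ℝ) *
      (cMt tn td t.2.1).r.re (px l η X Y)) * (eo.re (px l η X Y) ^ (h - 2) *
        ev2 (X.re - 1) X.im (Dn a K)) := rfl
  rw [e, px_o, one_pow, Dn_ev, h1]
  have e2 : (t.2.2 : ℂ) * ((l : ℂ) ^ t.1 * conj (mX X Y (Real.sin η) (Real.cos η)) ^ t.2.1) *
      e0 (Real.sin η) (Real.cos η) * (td * (X ^ 2 - 1) - tn) = ((t.2.2 * l ^ t.1 : ℝ) : ℂ) *
      (conj (mX X Y (Real.sin η) (Real.cos η)) ^ t.2.1 * e0 (Real.sin η) (Real.cos η) *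
        (td * (X ^ 2 - 1) - tn)) := by
    push_cast
    ring
  rw [e2, re_ofReal_mul]
  ring

end val

/-- multiplication of the coefficients by `td` -/
def scl (td : ℤ) (L : List (ℕ × ℕ × ℤ)) : List (ℕ × ℕ × ℤ) :=
  L.map fun t => (t.1, t.2.1, Int.mul td t.2.2)

theorem MS_scl (td : ℤ) (L : List (ℕ × ℕ × ℤ)) (l : ℝ) (m : ℂ) :
    MS (scl td L) l m = td * MS L l m := by
  unfold MS scl
  induction L with
  | nil => simp
  | cons t L ih =>
    have e : Int.mul td t.2.2 = td * t.2.2 := rfl
    rw [List.map_cons, List.map_cons, List.sum_cons, ih, List.map_cons, List.sum_cons, e]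
    push_cast
    ring

structure DatT where
  d : DatM
  tn : ℤ
  td : ℤ

namespace DatT

variable (s : DatT)

variable {s}

theorem mt_re {L : List (ℕ × ℕ × ℤ)} (hL : ∀ t ∈ L, t.2.1 ≤ 2) (l η : ℝ) (X Y : ℂ) :
    (L.map fun t => (EMt s.tn s.td s.d.c.a s.d.c.K s.d.c.h t).re (px l η X Y)).sum =
      Dd s.d.c.a X.re X.im ^ s.d.c.K * (MS L l (mX X Y (Real.sin η) (Real.cos η)) *
        e0 (Real.sin η) (Real.cos η) * (s.td * (X ^ 2 - 1) - s.tn)).re := by
  rw [map_sum_congr L fun t ht => EMt_re l η X Y s.tn s.td s.d.c.a s.d.c.K s.d.c.h t (hL t ht),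
    map_sum_mul]
  congr 1
  unfold MS
  induction L with
  | nil => simp
  | cons t L ih =>
    rw [List.map_cons, List.sum_cons, ih fun r hr => hL r (List.mem_cons_of_mem _ hr),
      List.map_cons, List.sum_cons, add_mul, add_mul, add_re]

/-- the multiplier of the data -/
noncomputable def Mu (s : DatT) (p0 p1 p2 q0 q1 q2 : ℝ) (m : ℂ) : ℂ :=
  Mq s.d.c.M (scl s.td s.d.MI) (scl s.td s.d.MO) p0 p1 p2 q0 q1 q2 m

variable {ka kb p0 p1 p2 la lb q0 q1 q2 : ℝ} {Ln Ld Ln' Ld' : ℤ}

theorem Mu_conj (m : ℂ) : s.Mu p0 p1 p2 q0 q1 q2 (conj m) = conj (s.Mu p0 p1 p2 q0 q1 q2 m) :=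
  Mq_conj _ _ _ _ _ _ _ _ _ _

end DatT

end Pool.Agent.Helper71.CK

end

section

namespace Pool.Sos71
end Pool.Sos71
namespace Pool.EK71
end Pool.EK71
namespace Pool.Agent.Helper52.EK
end Pool.Agent.Helper52.EK
namespace Pool.Agent.Helper2.EK
end Pool.Agent.Helper2.EK
namespace Pool.Agent.Helper69.EK3
end Pool.Agent.Helper69.EK3
namespace Pool.Agent.Helper69.EK5
end Pool.Agent.Helper69.EK5
namespace Pool.Agent.Helper71.EK3
end Pool.Agent.Helper71.EK3
namespace Pool.Agent.Helper71.EKC
end Pool.Agent.Helper71.EKC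

set_option autoImplicit false

open Complex MeasureTheory Metric Set

open scoped Real ComplexConjugate

namespace Pool.Agent.Helper69.EK7

open Pool.Sos71

open Pool.EK71 Pool.Agent.Helper52.EK Pool.Agent.Helper2.EK

open Pool.Agent.Helper69.EK3

open Pool.Agent.Helper69.EK5 (DQ Dd Dd_pos Dd_low DL e_D qX qY Rr c1_Rr Dn Dn_ev normsq_sub_one)

open Pool.Agent.Helper71.EK3 (xL yL e_x e_y)

open Pool.Agent.Helper71.EKC (e_sb sb2)

/-- `ader (ash (w + 1) 0 g) = S^w adw w g` -/
def adw (w : ℕ) : AP → AP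
  | [] => []
  | (c, i, j) :: g => (Int.mul c (Int.ofNat (w + 1 + i)), i, j + 1) ::
      ((match j with
        | 0 => []
        | j' + 1 => [(Int.mul (-c) (Int.ofNat (j' + 1)), i + 2, j')]) ++ adw w g)

theorem aev_adw (S C : ℝ) (w : ℕ) (g : AP) :
    aev S C (ader (ash (w + 1) 0 g)) = S ^ w * aev S C (adw w g) := by
  induction g with
  | nil => simp [ader, ash, adw, aev]
  | cons t g ih =>
    obtain ⟨c, i, j⟩ := t
    have e : i + (w + 1) = (i + w) + 1 := by omega
    cases j with
    | zero =>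
      simp only [ash, e, ader, adw, List.cons_append, List.nil_append, aev, imul_cast',
        ofNat_cast', add_zero]
      rw [mul_add, ← ih]
      push_cast
      ring
    | succ j =>
      simp only [ash, e, ader, adw, List.cons_append, List.nil_append, aev, imul_cast',
        ofNat_cast', add_zero]
      rw [mul_add, mul_add, ← ih]
      push_cast
      simp only [Nat.succ_eq_add_one]
      ring

theorem af_adw (w : ℕ) (g : AP) (η : ℝ) :
    af (ader (ash (w + 1) 0 g)) η = Real.sin (η / 2) ^ w * af (adw w g) η := by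
  unfold af
  rw [aev_adw]

theorem af_ashw (w : ℕ) (g : AP) (η : ℝ) :
    af (ash (w + 1) 0 g) η = Real.sin (η / 2) ^ (w + 1) * af g η := by
  unfold af
  rw [aev_ash]
  ring

/-- the potentials `2 S g (M₁ + i M₂) / D^k P^j conj(P)^n ρ^e`, `(g, M₁, M₂) ∈ l` -/
structure Grp where
  j : ℕ
  n : ℕ
  e : ℕ
  k : ℕ
  l : List (AP × BP × BP)

/-- the weight of the jet factor -/
def Grp.w (G : Grp) : ℕ := G.j + G.n + 2 * G.e

noncomputable def HC (a : DQ) (k : ℕ) (M1 M2 : BP) (X : ℂ) : ℂ :=
  (Rr a k M1 X : ℂ) + I * (Rr a k M2 X : ℂ)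

theorem c1_HC (a : DQ) (k : ℕ) (M1 M2 : BP) : C1c (HC a k M1 M2)
    (HC a (k + 1) (qX a k M1) (qX a k M2)) (HC a (k + 1) (qY a k M1) (qY a k M2)) := by
  have h1 := C1c_real (c1_Rr a k M1)
  have h2 := C1c_I (c1_Rr a k M2)
  refine ⟨fun X hX => ?_, h1.cx.add h2.cx, h1.cy.add h2.cy⟩
  refine ((h1.hd X hX).add (h2.hd X hX)).congr_fderiv ?_
  ext v
  simp [HC]
  ring

theorem s_half {η : ℝ} (hη : η ∈ Icc (0:ℝ) (π / 2)) :
    0 ≤ Real.sin (η / 2) ∧ Real.sin (η / 2) ≤ 1 ∧ Real.sin (η / 2) ≤ Real.sin η ∧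
      0 ≤ Real.cos (η / 2) ∧ Real.cos (η / 2) ≤ 1 := by
  have hp := Real.pi_pos
  obtain ⟨h0, h1, _⟩ := EK6.half_le hη
  exact ⟨h0, Real.sin_le_one _, h1, Real.cos_nonneg_of_neg_pi_div_two_le_of_le
    (by linarith only [hη.1, hp]) (by (clear * - hη hp; linarith only [hη.2, hp])), Real.cos_le_one _⟩

/-- growth of one potential -/
theorem Rr_gr (a : DQ) (k m : ℕ) (M : BP) (h : dle (2 * k + 2 + m) M = true) :
    ∃ C : ℝ, 0 ≤ C ∧ ∀ (X : ℂ) (S : ℝ), 0 ≤ S → S ≤ 1 → S * ‖X - 1‖ ≤ 10 →
      S ^ m * |Rr a k M X| ≤ C * (1 + ‖X - 1‖ ^ 2) := by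
  obtain ⟨c, hc, hl⟩ := Dd_low a
  refine ⟨nr2 M * 11 ^ m * c ^ k, mul_nonneg (mul_nonneg (nr2_nonneg M) (by positivity))
    (by positivity), fun X S hS0 hS1 hSX => ?_⟩
  have e := normsq_sub_one X
  obtain ⟨T, hT⟩ : ∃ T, T = Real.sqrt (1 + ‖X - 1‖ ^ 2) := ⟨_, rfl⟩
  have hT2 : T ^ 2 = 1 + ‖X - 1‖ ^ 2 := by
    rw [hT]
    exact Real.sq_sqrt (by (clear * -; positivity))
  have hT0 : 0 ≤ T := by rw [hT]; exact Real.sqrt_nonneg _
  have hT1 : 1 ≤ T := by
    have : (1:ℝ) ^ 2 ≤ T ^ 2 := by rw [hT2]; (clear * -; nlinarith only [])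
    exact le_of_sq_le_sq this hT0
  have hT3 : T ≤ 1 + ‖X - 1‖ := by
    refine le_of_sq_le_sq ?_ (by (clear * -; positivity))
    rw [hT2]
    (clear * -; linarith only [norm_nonneg (X - 1)])
  have hx : |X.re - 1| ≤ T := by
    refine le_of_sq_le_sq ?_ hT0
    rw [sq_abs, hT2, e]
    (clear * -; nlinarith only [])
  have hy : |X.im| ≤ T := by
    refine le_of_sq_le_sq ?_ hT0
    rw [sq_abs, hT2, e]
    nlinarith only []
  have h1 := ev2_le' hT1 hx hy _ M h
  have hD : 1 + ‖X - 1‖ ^ 2 ≤ c * Dd a X.re X.im := by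
    rw [e]
    exact hl X.re X.im
  have hDp := Dd_pos a X.re X.im
  have hST : S * T ≤ 11 := by
    calc S * T ≤ S * (1 + ‖X - 1‖) := mul_le_mul_of_nonneg_left hT3 hS0
      _ = S + S * ‖X - 1‖ := by ring
      _ ≤ 11 := by linarith
  have hSTm : (S * T) ^ m ≤ 11 ^ m := pow_le_pow_left₀ (mul_nonneg hS0 hT0) hST m
  have hTD : T ^ (2 * k) ≤ c ^ k * Dd a X.re X.im ^ k := by
    rw [pow_mul, hT2, ← mul_pow]
    exact pow_le_pow_left₀ (by (clear * -; positivity)) hD k
  have hn := nr2_nonneg M
  unfold Rr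
  rw [abs_div, abs_of_pos (pow_pos hDp k), ← mul_div_assoc, div_le_iff₀ (pow_pos hDp k)]
  calc S ^ m * |ev2 (X.re - 1) X.im M| ≤ S ^ m * (nr2 M * T ^ (2 * k + 2 + m)) :=
        mul_le_mul_of_nonneg_left h1 (pow_nonneg hS0 m)
    _ = nr2 M * (S * T) ^ m * T ^ (2 * k) * (1 + ‖X - 1‖ ^ 2) := by
        rw [← hT2, mul_pow]
        ring
    _ ≤ nr2 M * 11 ^ m * (c ^ k * Dd a X.re X.im ^ k) * (1 + ‖X - 1‖ ^ 2) := by
        gcongr
    _ = nr2 M * 11 ^ m * c ^ k * (1 + ‖X - 1‖ ^ 2) * Dd a X.re X.im ^ k := by ring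

theorem HC_gr1 (a : DQ) (k m : ℕ) (M1 M2 : BP) (h : dle (2 * k + 2 + m) M1 = true)
    (h' : dle (2 * k + 2 + m) M2 = true) :
    ∃ C : ℝ, 0 ≤ C ∧ ∀ (X : ℂ) (S : ℝ), 0 ≤ S → S ≤ 1 → S * ‖X - 1‖ ≤ 10 →
      S ^ m * ‖HC a k M1 M2 X‖ ≤ C * (1 + ‖X - 1‖ ^ 2) := by
  obtain ⟨C₁, h1, k1⟩ := Rr_gr a k m M1 h
  obtain ⟨C₂, h2, k2⟩ := Rr_gr a k m M2 h'
  refine ⟨C₁ + C₂, add_nonneg h1 h2, fun X S a1 a2 a3 => ?_⟩
  have e : ‖HC a k M1 M2 X‖ ≤ |Rr a k M1 X| + |Rr a k M2 X| := by
    unfold HC
    refine (norm_add_le _ _).trans (add_le_add ?_ ?_)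
    · rw [norm_real, Real.norm_eq_abs]
    · rw [norm_mul, norm_I, one_mul, norm_real, Real.norm_eq_abs]
  have h3 := mul_le_mul_of_nonneg_left e (pow_nonneg a1 m)
  have h4 := k1 X S a1 a2 a3
  have h5 := k2 X S a1 a2 a3
  rw [mul_add] at h3
  rw [add_mul]
  (clear * - h3 h4 h5; linarith)

/-- the angular factor -/
noncomputable def aT (w : ℕ) (g : AP) (η : ℝ) : ℝ := 2 * af (ash (w + 1) 0 g) η

theorem hd_aT (w : ℕ) (g : AP) (η : ℝ) :
    HasDerivAt (aT w g) (af (ader (ash (w + 1) 0 g)) η) η := by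
  refine ((af_hasDerivAt (ash (w + 1) 0 g) η).const_mul 2).congr_deriv ?_
  ring

end Pool.Agent.Helper69.EK7

end

section

namespace Pool.Sos71
end Pool.Sos71
namespace Pool.EK71
end Pool.EK71
namespace Pool.Agent.Helper52.EK
end Pool.Agent.Helper52.EK
namespace Pool.Agent.Helper2.EK
end Pool.Agent.Helper2.EK
namespace Pool.Agent.Helper69.EK3
end Pool.Agent.Helper69.EK3
namespace Pool.Agent.Helper69.EK5
end Pool.Agent.Helper69.EK5
namespace Pool.Agent.Helper71.EK3
end Pool.Agent.Helper71.EK3
namespace Pool.Agent.Helper71.EKC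
end Pool.Agent.Helper71.EKC

set_option autoImplicit false

open Complex MeasureTheory Metric Set

open scoped Real ComplexConjugate

namespace Pool.Agent.Helper69.EK7

open Pool.Sos71

open Pool.EK71 Pool.Agent.Helper52.EK Pool.Agent.Helper2.EK

open Pool.Agent.Helper69.EK3

open Pool.Agent.Helper69.EK5 (DQ Dd Dd_pos Dd_low DL e_D qX qY Rr c1_Rr Dn Dn_ev normsq_sub_one)

open Pool.Agent.Helper71.EK3 (xL yL e_x e_y)

open Pool.Agent.Helper71.EKC (e_sb sb2)

namespace CE

/-- sums over lists -/
def sumC {ι : Type} (f : ι → CE) : List ι → CE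
  | [] => ⟨Ex.lit 0, Ex.lit 0⟩
  | [t] => f t
  | t :: s :: L => add (f t) (sumC f (s :: L))

theorem v_sumC {ι : Type} (x : Pnt9) (f : ι → CE) (L : List ι) :
    v x (sumC f L) = (L.map fun t => v x (f t)).sum := by
  induction L with
  | nil =>
    apply Complex.ext
    · simp [v, sumC, re9]
    · simp [v, sumC, re9]
  | cons t L ih =>
    cases L with
    | nil => simp [sumC]
    | cons s L =>
      rw [sumC, v_add, ih]
      simp

/-- products of lists -/
def prodC : List CE → CE
  | [] => ⟨Ex.lit 1, Ex.lit 0⟩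
  | [a] => a
  | a :: b :: L => mul a (prodC (b :: L))

theorem v_prodC (x : Pnt9) (L : List CE) : v x (prodC L) = (L.map fun a => v x a).prod := by
  induction L with
  | nil =>
    apply Complex.ext
    · simp [v, prodC, re9]
    · simp [v, prodC, re9]
  | cons a L ih =>
    cases L with
    | nil => simp [prodC]
    | cons b L =>
      rw [prodC, v_mul, ih]
      simp

end CE

/-- `P^j conj(P)^n ρ^e` -/
def cQ (j n e : ℕ) : CE :=
  CE.prodC (List.replicate j cP ++ (List.replicate n (CE.cj cP) ++ List.replicate e cR))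

theorem v_cQ (x : Pnt9) (j n e : ℕ) : CE.v x (cQ j n e) =
    CE.v x cP ^ j * conj (CE.v x cP) ^ n * CE.v x cR ^ e := by
  rw [cQ, CE.v_prodC]
  simp only [List.map_append, List.map_replicate, List.prod_append, List.prod_replicate,
    CE.v_cj]
  ring

section

variable (a : DQ) (K k : ℕ)

def cM (m : ℕ) (M1 M2 : BP) : CE := ⟨Ex.bp (mu2 M1 (Dn a m)), Ex.bp (mu2 M2 (Dn a m))⟩

/-- the numerator of `conj(X) (H_x + i H_y)` times `D^m` -/
def cB (m : ℕ) (M1 M2 : BP) : CE :=
  ⟨Ex.bp (mu2 (ad2 (mu2 xL (sb2 (qX a k M1) (qY a k M2)))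
      (mu2 yL (ad2 (qX a k M2) (qY a k M1)))) (Dn a m)),
    Ex.bp (mu2 (sb2 (mu2 xL (ad2 (qX a k M2) (qY a k M1)))
      (mu2 yL (sb2 (qX a k M1) (qY a k M2)))) (Dn a m))⟩

def tA (w : ℕ) (t : AP × BP × BP) : CE :=
  CE.mI (CE.rm (apE (adw w t.1)) (cM a (K - k) t.2.1 t.2.2))

def tB (t : AP × BP × BP) : CE :=
  CE.rm (Ex.sc 2 (apE t.1)) (cB a k (K - k - 1) t.2.1 t.2.2)

def tC (n : ℕ) (t : AP × BP × BP) : CE :=
  CE.rm (Ex.sc (4 * Int.ofNat n) (apE t.1)) (cM a (K - k) t.2.1 t.2.2)

end

/-- the expression of a group, times `D^K` -/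
def EGr (a : DQ) (K : ℕ) (G : Grp) : Ex :=
  let s := CE.add (CE.sumC (tA a K G.k G.w) G.l) (CE.mul (CE.cj cP) (CE.sumC (tB a K G.k) G.l))
  match G.n with
  | 0 => (match G.j, G.e with
    | 0, 0 => s.r
    | j, e => (CE.mul (cQ j 0 e) s).r)
  | n + 1 => Ex.add (CE.mul (cQ G.j (n + 1) G.e) s).r
      (CE.mul (CE.mul (cQ G.j n G.e) (CE.cj cR)) (CE.sumC (tC a K G.k (n + 1)) G.l)).r

noncomputable def Npc (a : DQ) (G : Grp) (t : AP × BP × BP) (X Y Z : ℂ) (η : ℝ) : ℂ :=
  I * ((Real.sin (η / 2) ^ G.w * af (adw G.w t.1) η : ℝ) : ℂ) * HC a G.k t.2.1 t.2.2 X *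
      ((Y / X) ^ G.j * (Z / X - (Y / X) ^ 2) ^ G.e) * conj ((Y / X) ^ G.n) +
    ((aT G.w t.1 η : ℝ) : ℂ) * ((HC a (G.k + 1) (qX a G.k t.2.1) (qX a G.k t.2.2) X +
      I * HC a (G.k + 1) (qY a G.k t.2.1) (qY a G.k t.2.2) X) * conj Y) *
      ((Y / X) ^ G.j * (Z / X - (Y / X) ^ 2) ^ G.e) * conj ((Y / X) ^ G.n) +
    2 * (((aT G.w t.1 η : ℝ) : ℂ) * HC a G.k t.2.1 t.2.2 X *
      ((Y / X) ^ G.j * (Z / X - (Y / X) ^ 2) ^ G.e) *
      conj (G.n * ((Y / X) ^ (G.n - 1) * (Z / X - (Y / X) ^ 2))))

section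

variable (l η : ℝ) (X Y Z w : ℂ)

theorem re9_mo (x : Pnt9) (c : ℤ) (i j : ℕ) :
    re9 x (moE c i j) = c * (x.t.b ^ i * x.t.c ^ j) := rfl

theorem re9_ap (x : Pnt9) (g : AP) : re9 x (apE g) = aev x.t.b x.t.c g := by
  induction g with
  | nil => simp [apE, aev, re9]
  | cons t g ih =>
    obtain ⟨c, i, j⟩ := t
    cases g with
    | nil =>
      simp only [apE, aev, re9_mo]
      ring
    | cons t' g =>
      have : re9 x (apE ((c, i, j) :: t' :: g)) = re9 x (moE c i j) +
        re9 x (apE (t' :: g)) := rfl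
      rw [this, ih, re9_mo]
      rfl

theorem re9_apf (g : AP) : re9 (px9 l η X Y Z w) (apE g) = af g η := by
  rw [re9_ap]
  rfl

theorem v_cM (a : DQ) (m : ℕ) (M1 M2 : BP) : CE.v (px9 l η X Y Z w) (cM a m M1 M2) =
    (Dd a X.re X.im ^ m : ℝ) * ((ev2 (X.re - 1) X.im M1 : ℝ) +
      I * (ev2 (X.re - 1) X.im M2 : ℝ)) := by
  apply Complex.ext
  · simp only [CE.v, cM, re9, ev2_mu]
    rw [show (px9 l η X Y Z w).t.f = X.re - 1 from rfl,
      show (px9 l η X Y Z w).t.g = X.im from rfl, Dn_ev]
    simp only [mul_re, mul_im, add_re, add_im, ofReal_re, ofReal_im, I_re, I_im]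
    ring
  · simp only [CE.v, cM, re9, ev2_mu]
    rw [show (px9 l η X Y Z w).t.f = X.re - 1 from rfl,
      show (px9 l η X Y Z w).t.g = X.im from rfl, Dn_ev]
    simp only [mul_re, mul_im, add_re, add_im, ofReal_re, ofReal_im, I_re, I_im]
    ring

theorem v_cB (a : DQ) (k m : ℕ) (M1 M2 : BP) : CE.v (px9 l η X Y Z w) (cB a k m M1 M2) =
    (Dd a X.re X.im ^ m : ℝ) * (conj X * (((ev2 (X.re - 1) X.im (qX a k M1) : ℝ) +
      I * (ev2 (X.re - 1) X.im (qX a k M2) : ℝ)) + I * ((ev2 (X.re - 1) X.im (qY a k M1) : ℝ) +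
      I * (ev2 (X.re - 1) X.im (qY a k M2) : ℝ)))) := by
  have e4 : (1:ℝ) + (X.re - 1) = X.re := by ring
  apply Complex.ext
  · simp only [CE.v, cB, re9, ev2_mu, ev2_ad, e_sb, e_x, e_y]
    rw [show (px9 l η X Y Z w).t.f = X.re - 1 from rfl,
      show (px9 l η X Y Z w).t.g = X.im from rfl, Dn_ev, e4]
    simp only [mul_re, mul_im, add_re, add_im, ofReal_re, ofReal_im, I_re, I_im, conj_re,
      conj_im]
    ring
  · simp only [CE.v, cB, re9, ev2_mu, ev2_ad, e_sb, e_x, e_y]
    rw [show (px9 l η X Y Z w).t.f = X.re - 1 from rfl,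
      show (px9 l η X Y Z w).t.g = X.im from rfl, Dn_ev, e4]
    simp only [mul_re, mul_im, add_re, add_im, ofReal_re, ofReal_im, I_re, I_im, conj_re,
      conj_im]
    ring

end

/-- one potential -/
theorem EG1 (a : DQ) {K : ℕ} (G : Grp) (hK : G.k + 1 ≤ K) (t : AP × BP × BP) (l η : ℝ)
    {X : ℂ} (hX : X ≠ 0) (Y Z w : ℂ) :
    CE.v (px9 l η X Y Z w) (cQ G.j G.n G.e) * (CE.v (px9 l η X Y Z w) (tA a K G.k G.w t) +
      conj (CE.v (px9 l η X Y Z w) cP) * CE.v (px9 l η X Y Z w) (tB a K G.k t)) +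
    CE.v (px9 l η X Y Z w) (cQ G.j (G.n - 1) G.e) * conj (CE.v (px9 l η X Y Z w) cR) *
      CE.v (px9 l η X Y Z w) (tC a K G.k G.n t) =
    (Dd a X.re X.im ^ K : ℝ) * Npc a G t X Y Z η := by
  obtain ⟨m, rfl⟩ := Nat.exists_eq_add_of_le hK
  have hD : (Dd a X.re X.im : ℂ) ≠ 0 := by exact_mod_cast (Dd_pos a X.re X.im).ne'
  have e1 : G.k + 1 + m - G.k - 1 = m := by omega
  have e2 : G.k + 1 + m - G.k = m + 1 := by omega
  rw [v_cQ, v_cQ, v_cP, v_cR]
  unfold tA tB tC
  rw [CE.v_mI, CE.v_rm, CE.v_rm, CE.v_rm, v_cM, v_cB, re9_apf, e1, e2]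
  have e3 : re9 (px9 l η X Y Z w) (Ex.sc 2 (apE t.1)) = 2 * af t.1 η := by
    show ((2:ℤ) : ℝ) * re9 _ (apE t.1) = _
    rw [re9_apf]
    push_cast
    rfl
  have e4 : re9 (px9 l η X Y Z w) (Ex.sc (4 * Int.ofNat G.n) (apE t.1)) =
      4 * G.n * af t.1 η := by
    show ((4 * Int.ofNat G.n : ℤ) : ℝ) * re9 _ (apE t.1) = _
    rw [re9_apf]
    push_cast
    simp
  rw [e3, e4]
  unfold Npc aT HC Rr
  rw [af_ashw]
  obtain ⟨q, hq⟩ : ∃ q, q = Y / X := ⟨_, rfl⟩
  have hY : Y = q * X := by rw [hq]; (clear * - hX; field_simp)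
  rw [← hq, hY]
  generalize Z / X - q ^ 2 = r
  generalize Real.sin (η / 2) = S
  generalize af t.1 η = g
  generalize af (adw G.w t.1) η = g'
  generalize ev2 (X.re - 1) X.im (qX a G.k t.2.1) = x1
  generalize ev2 (X.re - 1) X.im (qX a G.k t.2.2) = x2
  generalize ev2 (X.re - 1) X.im (qY a G.k t.2.1) = y1
  generalize ev2 (X.re - 1) X.im (qY a G.k t.2.2) = y2
  generalize ev2 (X.re - 1) X.im t.2.1 = m1
  generalize ev2 (X.re - 1) X.im t.2.2 = m2
  generalize Dd a X.re X.im = D at hD
  simp only [map_mul, map_pow, conj_ofReal, map_natCast]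
  push_cast
  have hw : G.w = G.j + G.n + 2 * G.e := rfl
  rw [hw]
  generalize conj X = X'
  generalize conj q = q'
  generalize conj r = r'
  rcases Nat.eq_zero_or_pos G.n with hn | hn
  · rw [hn]
    simp only [Nat.cast_zero, mul_zero, zero_mul, add_zero, pow_zero, mul_one]
    field_simp
    ring
  · obtain ⟨n, hn⟩ : ∃ n, G.n = n + 1 := ⟨G.n - 1, by omega⟩
    rw [hn]
    simp only [Nat.add_sub_cancel]
    field_simp
    ring

/-- the value of the expression of a group -/
theorem EGr_re (a : DQ) {K : ℕ} (G : Grp) (hK : G.k + 1 ≤ K) (l η : ℝ)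
    {X : ℂ} (hX : X ≠ 0) (Y Z w : ℂ) :
    re9 (px9 l η X Y Z w) (EGr a K G) =
      Dd a X.re X.im ^ K * (G.l.map fun t => (Npc a G t X Y Z η).re).sum := by
  have key : ∀ L : List (AP × BP × BP),
      (CE.v (px9 l η X Y Z w) (cQ G.j G.n G.e) *
        ((L.map fun t => CE.v (px9 l η X Y Z w) (tA a K G.k G.w t)).sum +
      conj (CE.v (px9 l η X Y Z w) cP) *
        (L.map fun t => CE.v (px9 l η X Y Z w) (tB a K G.k t)).sum) +
      CE.v (px9 l η X Y Z w) (cQ G.j (G.n - 1) G.e) * conj (CE.v (px9 l η X Y Z w) cR) *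
        (L.map fun t => CE.v (px9 l η X Y Z w) (tC a K G.k G.n t)).sum).re =
      Dd a X.re X.im ^ K * (L.map fun t => (Npc a G t X Y Z η).re).sum := by
    intro L
    induction L with
    | nil => simp
    | cons t L ih =>
      simp only [List.map_cons, List.sum_cons]
      rw [mul_add (Dd a X.re X.im ^ K), ← ih]
      have h1 := congrArg Complex.re (EG1 a G hK t l η hX Y Z w)
      rw [re_ofReal_mul] at h1
      rw [← h1, ← add_re]
      congr 1
      ring
  rw [← key G.l]
  have h0 : ∀ c : CE, re9 (px9 l η X Y Z w) c.r = (CE.v (px9 l η X Y Z w) c).re := fun _ => rfl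
  rcases Nat.eq_zero_or_pos G.n with hn | hn
  · have e : re9 (px9 l η X Y Z w) (EGr a K G) = (CE.v (px9 l η X Y Z w) (cQ G.j 0 G.e) *
        CE.v (px9 l η X Y Z w) (CE.add (CE.sumC (tA a K G.k G.w) G.l)
          (CE.mul (CE.cj cP) (CE.sumC (tB a K G.k) G.l)))).re := by
      rw [← CE.v_mul]
      unfold EGr
      rw [hn]
      rcases Nat.eq_zero_or_pos G.j with hj | hj
      · rcases Nat.eq_zero_or_pos G.e with he | he
        · rw [hj, he]
          simp only
          rw [h0, CE.v_mul, v_cQ]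
          simp
        · obtain ⟨e, he⟩ : ∃ e, G.e = e + 1 := ⟨G.e - 1, by omega⟩
          rw [hj, he]
          rfl
      · obtain ⟨j, hj⟩ : ∃ j, G.j = j + 1 := ⟨G.j - 1, by omega⟩
        rw [hj]
        rfl
    rw [e, CE.v_add, CE.v_mul, CE.v_cj, CE.v_sumC, CE.v_sumC, hn]
    congr 1
    have z : (G.l.map fun t => CE.v (px9 l η X Y Z w) (tC a K G.k 0 t)).sum = 0 := by
      apply List.sum_eq_zero
      intro y hy
      simp only [List.mem_map] at hy
      obtain ⟨t, _, rfl⟩ := hy
      unfold tC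
      rw [CE.v_rm]
      have : re9 (px9 l η X Y Z w) (Ex.sc (4 * Int.ofNat 0) (apE t.1)) = 0 := by
        show ((4 * Int.ofNat 0 : ℤ) : ℝ) * _ = 0
        simp
      rw [this]
      simp
    rw [z, mul_zero, add_zero]
  · obtain ⟨n, hn⟩ : ∃ n, G.n = n + 1 := ⟨G.n - 1, by omega⟩
    have e : re9 (px9 l η X Y Z w) (EGr a K G) = (CE.v (px9 l η X Y Z w) (cQ G.j (n + 1) G.e) *
        CE.v (px9 l η X Y Z w) (CE.add (CE.sumC (tA a K G.k G.w) G.l)
          (CE.mul (CE.cj cP) (CE.sumC (tB a K G.k) G.l))) +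
        CE.v (px9 l η X Y Z w) (cQ G.j n G.e) * conj (CE.v (px9 l η X Y Z w) cR) *
          CE.v (px9 l η X Y Z w) (CE.sumC (tC a K G.k (n + 1)) G.l)).re := by
      rw [← CE.v_cj, ← CE.v_mul, ← CE.v_mul, ← CE.v_mul, add_re, ← h0, ← h0]
      unfold EGr
      rw [hn]
      rfl
    rw [e, CE.v_add, CE.v_mul, CE.v_cj, CE.v_sumC, CE.v_sumC, CE.v_sumC, hn]
    rfl

end Pool.Agent.Helper69.EK7

end

section

namespace Pool.Sos71
end Pool.Sos71
namespace Pool.EK71
end Pool.EK71
namespace Pool.Agent.Helper52.EK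
end Pool.Agent.Helper52.EK
namespace Pool.Agent.Helper2.EK
end Pool.Agent.Helper2.EK
namespace Pool.Agent.Helper69.EK3
end Pool.Agent.Helper69.EK3
namespace Pool.Agent.Helper69.EK5
end Pool.Agent.Helper69.EK5
namespace Pool.Agent.Helper69.EK6
end Pool.Agent.Helper69.EK6
namespace Pool.Agent.Helper69.EK7
end Pool.Agent.Helper69.EK7
namespace Pool.Agent.Helper84.CK
end Pool.Agent.Helper84.CK
namespace Pool.Agent.Helper71.EKC
end Pool.Agent.Helper71.EKC

set_option autoImplicit false

open Complex MeasureTheory Metric Set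

open scoped Real ComplexConjugate

namespace Pool.Agent.Helper71.CK

open Pool.Sos71

open Pool.EK71 Pool.Agent.Helper52.EK Pool.Agent.Helper2.EK

open Pool.Agent.Helper69.EK3

open Pool.Agent.Helper69.EK5 (DQ Dd Dd_pos Dd_low DL e_D qX qY Rr c1_Rr Dn Dn_ev Rr_conj_even Rr_conj_odd Rs Dd_conj)

open Pool.Agent.Helper69.EK6 (px)

open Pool.Agent.Helper69.EK7 Pool.Agent.Helper84.CK

open Pool.Agent.Helper71.EKC (c1_conj)

def lowC (a : CE) : Bool := low a.r && low a.i

section

variable {a b : CE}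

theorem lowC_iff : lowC a = true ↔ low a.r = true ∧ low a.i = true := by
  simp [lowC]

theorem lowC_add (h : lowC a = true) (h' : lowC b = true) : lowC (CE.add a b) = true := by
  rw [lowC_iff] at *
  simp [CE.add, low, h, h']

theorem lowC_mul (h : lowC a = true) (h' : lowC b = true) : lowC (CE.mul a b) = true := by
  rw [lowC_iff] at *
  simp [CE.mul, low, h, h']

theorem lowC_cj (h : lowC a = true) : lowC (CE.cj a) = true := by
  rw [lowC_iff] at *
  simp [CE.cj, low, h]

theorem lowC_mI (h : lowC a = true) : lowC (CE.mI a) = true := by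
  rw [lowC_iff] at *
  simp [CE.mI, low, h]

theorem lowC_rm {p : Ex} (hp : low p = true) (h : lowC a = true) : lowC (CE.rm p a) = true := by
  rw [lowC_iff] at *
  simp [CE.rm, low, h, hp]

end

theorem lowC_sum {ι : Type} {f : ι → CE} (L : List ι) (h : ∀ t ∈ L, lowC (f t) = true) :
    lowC (CE.sumC f L) = true := by
  induction L with
  | nil => rfl
  | cons t L ih =>
    cases L with
    | nil => exact h t (by simp)
    | cons s L =>
      rw [CE.sumC]
      exact lowC_add (h t (by simp)) (ih fun r hr => h r (by simp [hr]))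

theorem lowC_prod (L : List CE) (h : ∀ a ∈ L, lowC a = true) : lowC (CE.prodC L) = true := by
  induction L with
  | nil => rfl
  | cons t L ih =>
    cases L with
    | nil => exact h t (by simp)
    | cons s L =>
      rw [CE.prodC]
      exact lowC_mul (h t (by simp)) (ih fun r hr => h r (by simp [hr]))

theorem lowC_P : lowC cP = true := rfl

theorem low_ap (g : AP) : low (apE g) = true := by
  induction g with
  | nil => rfl
  | cons t g ih =>
    obtain ⟨c, i, j⟩ := t
    have h0 : low (moE c i j) = true := rfl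
    cases g with
    | nil => exact h0
    | cons t' g =>
      have : low (apE ((c, i, j) :: t' :: g)) = (low (moE c i j) && low (apE (t' :: g))) := rfl
      rw [this, h0, ih]
      rfl

theorem low_EGr (a : DQ) (K : ℕ) {G : Grp} (hn : G.n = 0) (he : G.e = 0) :
    low (EGr a K G) = true := by
  have hA : lowC (CE.sumC (tA a K G.k G.w) G.l) = true := lowC_sum _ fun t _ => by
    unfold tA
    exact lowC_mI (lowC_rm (low_ap _) rfl)
  have hB : lowC (CE.sumC (tB a K G.k) G.l) = true := lowC_sum _ fun t _ => by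
    unfold tB
    exact lowC_rm (low_ap _) rfl
  have hS : lowC (CE.add (CE.sumC (tA a K G.k G.w) G.l)
      (CE.mul (CE.cj cP) (CE.sumC (tB a K G.k) G.l))) = true :=
    lowC_add hA (lowC_mul (lowC_cj lowC_P) hB)
  obtain ⟨j, n, e, k, L⟩ := G
  simp only at hn he
  subst hn
  subst he
  cases j with
  | zero => exact (lowC_iff.1 hS).1
  | succ j =>
    have hQ : lowC (cQ (j + 1) 0 0) = true := by
      unfold cQ
      refine lowC_prod _ fun a ha => ?_
      simp only [List.replicate_zero, List.append_nil] at ha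
      rw [List.eq_of_mem_replicate ha]
      rfl
    exact (lowC_iff.1 (lowC_mul hQ hS)).1

/-- growth with the additional factor `sin η` -/
def okW (k : ℕ) (t : AP × BP × BP) : Bool :=
  t.1.all fun s => dle (2 * k + 2 + s.2.1) t.2.1 && dle (2 * k + 2 + s.2.1) t.2.2

/-- the null Lagrangian of one potential -/
noncomputable def NGt (a : DQ) (j k : ℕ) (t : AP × BP × BP) (X Y : ℂ) (η : ℝ) : ℝ :=
  NG (aT j t.1) (fun η => af (ader (ash (j + 1) 0 t.1)) η) (HC a k t.2.1 t.2.2)
    (HC a (k + 1) (qX a k t.2.1) (qX a k t.2.2)) (HC a (k + 1) (qY a k t.2.1) (qY a k t.2.2))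
    X Y ((Y / X) ^ j) η

/-- its centre term -/
noncomputable def KGt (a : DQ) (j k : ℕ) (t : AP × BP × BP) (X Y : ℂ) : ℝ :=
  - (aT j t.1 (π / 2) * (HC a k t.2.1 t.2.2 X * (Y / X) ^ j).im)

theorem EGr_low (a : DQ) {K : ℕ} {G : Grp} (hn : G.n = 0) (he : G.e = 0) (hK : G.k + 1 ≤ K)
    (l η : ℝ) {X : ℂ} (hX : X ≠ 0) (Y : ℂ) : (EGr a K G).re (px l η X Y) =
      Dd a X.re X.im ^ K * (G.l.map fun t => NGt a G.j G.k t X Y η).sum := by
  have h1 := EGr_re a G hK l η hX Y 0 0
  have h2 := re9_low (px9 l η X Y 0 0) _ (low_EGr a K hn he)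
  rw [h1] at h2
  have h3 : (px9 l η X Y 0 0).t = px l η X Y := rfl
  rw [h3] at h2
  rw [← h2]
  congr 2
  apply List.map_congr_left
  intro t _
  have hw : G.w = G.j := by
    unfold Grp.w
    rw [hn, he]
    omega
  unfold Npc NGt NG
  rw [hn, he, hw]
  beta_reduce
  rw [af_adw]
  generalize HC a G.k t.2.1 t.2.2 X = H0
  generalize HC a (G.k + 1) (qX a G.k t.2.1) (qX a G.k t.2.2) X = H1
  generalize HC a (G.k + 1) (qY a G.k t.2.1) (qY a G.k t.2.2) X = H2
  generalize (Y / X) ^ G.j = q
  generalize aT G.j t.1 η = α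
  generalize (0 : ℂ) / X - (Y / X) ^ 2 = z
  generalize Real.sin (η / 2) ^ G.j * af (adw G.j t.1) η = β
  simp only [pow_zero, mul_one, map_one, Nat.cast_zero, zero_mul, map_zero, mul_zero, add_zero]
  rw [add_re]
  have e1 : (I * (β : ℂ) * H0 * q).re = - (β * (H0 * q).im) := by
    have : I * (β : ℂ) * H0 * q = (β : ℂ) * (I * (H0 * q)) := by ring
    rw [this, re_ofReal_mul, I_mul_re]
    ring
  have e2 : ((α : ℂ) * ((H1 + I * H2) * conj Y) * q).re =
      α * ((H1 + I * H2) * (q * conj Y)).re := by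
    have : (α : ℂ) * ((H1 + I * H2) * conj Y) * q = (α : ℂ) * ((H1 + I * H2) * (q * conj Y)) := by
      ring
    rw [this, re_ofReal_mul]
  rw [e1, e2]
  ring

theorem discP_q {X : ℂ → ℂ} {x₁ x₂ : ℝ} (hx : x₁ ≤ x₂) (hX : NiceH X x₁ x₂)
    (hP : DiscP X x₁ x₂) {ξ η : ℝ} (hξ : ξ ∈ Icc x₁ x₂) (hη : η ∈ Icc (0:ℝ) (π / 2)) :
    Real.sin (η / 2) * ‖X (pt ξ η) - 1‖ ≤ 10 ∧
      Real.sin (η / 2) * ‖deriv X (pt ξ η) / X (pt ξ η)‖ ≤ 38 := by
  have q9 := DiscP.X_le X x₁ x₂ hx hX hP ξ hξ η hη
  have q38 := DiscP.q_le X x₁ x₂ hx hX hP ξ hξ η hη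
  obtain ⟨s0, s1, s2, _, _⟩ := s_half hη
  refine ⟨?_, (mul_le_mul_of_nonneg_right s2 (norm_nonneg _)).trans q38⟩
  have h1 : ‖X (pt ξ η) - 1‖ ≤ ‖X (pt ξ η)‖ + 1 := by
    have := norm_sub_le (X (pt ξ η)) 1
    rwa [norm_one] at this
  calc Real.sin (η / 2) * ‖X (pt ξ η) - 1‖ ≤ Real.sin (η / 2) * (‖X (pt ξ η)‖ + 1) :=
        mul_le_mul_of_nonneg_left h1 s0
    _ = Real.sin (η / 2) * ‖X (pt ξ η)‖ + Real.sin (η / 2) := by ring
    _ ≤ Real.sin η * ‖X (pt ξ η)‖ + 1 :=
        add_le_add (mul_le_mul_of_nonneg_right s2 (norm_nonneg _)) s1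
    _ ≤ 10 := by (clear * - q9; linarith only [q9])

theorem HC_grW (a : DQ) (k : ℕ) (M1 M2 : BP) (g : AP) (h : okW k (g, M1, M2) = true) :
    ∃ C : ℝ, 0 ≤ C ∧ ∀ (X : ℂ) (η : ℝ), η ∈ Icc (0:ℝ) (π / 2) →
      Real.sin (η / 2) * ‖X - 1‖ ≤ 10 →
      |af g η| * ‖HC a k M1 M2 X‖ ≤ C * (1 + ‖X - 1‖ ^ 2) := by
  induction g with
  | nil =>
    refine ⟨0, le_rfl, fun X η hη _ => ?_⟩
    simp [af, aev]
  | cons t g ih =>
    obtain ⟨c, i, j⟩ := t
    simp only [okW, List.all_cons, Bool.and_eq_true] at h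
    obtain ⟨⟨a1, a2⟩, a3⟩ := h
    obtain ⟨C₁, h1, k1⟩ := ih (by simpa only [okW] using a3)
    obtain ⟨C₂, h2, k2⟩ := HC_gr1 a k i M1 M2 a1 a2
    refine ⟨|(c : ℝ)| * C₂ + C₁, by (clear * - h2 h1; positivity), fun X η hη hX => ?_⟩
    obtain ⟨s0, s1, _, c0, c1⟩ := s_half hη
    have k3 := k1 X η hη hX
    have k4 := k2 X _ s0 s1 hX
    have hn := norm_nonneg (HC a k M1 M2 X)
    have e1 : |af ((c, i, j) :: g) η| ≤ |(c : ℝ)| * Real.sin (η / 2) ^ i + |af g η| := by
      unfold af
      rw [aev]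
      refine (abs_add_le _ _).trans (add_le_add ?_ le_rfl)
      rw [abs_mul, abs_of_nonneg (mul_nonneg (pow_nonneg s0 i) (pow_nonneg c0 j))]
      refine mul_le_mul_of_nonneg_left ?_ (abs_nonneg _)
      exact mul_le_of_le_one_right (pow_nonneg s0 i) (pow_le_one₀ c0 c1)
    calc |af ((c, i, j) :: g) η| * ‖HC a k M1 M2 X‖ ≤
          (|(c : ℝ)| * Real.sin (η / 2) ^ i + |af g η|) * ‖HC a k M1 M2 X‖ :=
          mul_le_mul_of_nonneg_right e1 hn
      _ = |(c : ℝ)| * (Real.sin (η / 2) ^ i * ‖HC a k M1 M2 X‖) +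
          |af g η| * ‖HC a k M1 M2 X‖ := by ring
      _ ≤ |(c : ℝ)| * (C₂ * (1 + ‖X - 1‖ ^ 2)) + C₁ * (1 + ‖X - 1‖ ^ 2) :=
          add_le_add (mul_le_mul_of_nonneg_left k4 (abs_nonneg _)) k3
      _ = (|(c : ℝ)| * C₂ + C₁) * (1 + ‖X - 1‖ ^ 2) := by ring

/-- **a group entry is null against weights** -/
theorem isNullW_Gt (a : DQ) (j k : ℕ) (t : AP × BP × BP) (h : okW k t = true) :
    IsNullW DiscP (fun X ξ η => NGt a j k t (X (pt ξ η)) (deriv X (pt ξ η)) η)
      (fun X ξ => KGt a j k t (X (pt ξ (π / 2))) (deriv X (pt ξ (π / 2)))) := by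
  obtain ⟨g, M1, M2⟩ := t
  obtain ⟨C, hC0, hC⟩ := HC_grW a k M1 M2 g h
  refine isNullW_G (P := DiscP) (C := 2 * 38 ^ j * C) (c1_HC a k M1 M2) (anF_q j) (hd_aT j g)
    (af_cont _) ?_ ?_
  · unfold aT
    rw [af_ashw]
    simp
  · intro X x₁ x₂ hx hX hP ξ hξ η hη
    obtain ⟨b1, b2⟩ := discP_q hx hX hP hξ hη
    obtain ⟨s0, s1, s2, _, _⟩ := s_half hη
    have h1 := hC (X (pt ξ η)) η hη b1
    obtain ⟨Z, hZ⟩ : ∃ Z, Z = X (pt ξ η) := ⟨_, rfl⟩
    obtain ⟨q, hq⟩ : ∃ q, q = deriv X (pt ξ η) / X (pt ξ η) := ⟨_, rfl⟩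
    rw [← hq] at b2 ⊢
    rw [← hZ] at h1 ⊢
    unfold aT
    rw [af_ashw, norm_pow, abs_mul, abs_mul, abs_of_nonneg (pow_nonneg s0 _),
      abs_of_pos (by norm_num : (0:ℝ) < 2)]
    have h2 : (Real.sin (η / 2) * ‖q‖) ^ j ≤ 38 ^ j :=
      pow_le_pow_left₀ (mul_nonneg s0 (norm_nonneg _)) b2 j
    calc 2 * (Real.sin (η / 2) ^ (j + 1) * |af g η|) * (‖HC a k M1 M2 Z‖ * ‖q‖ ^ j) =
          2 * (Real.sin (η / 2) * ‖q‖) ^ j * (|af g η| * ‖HC a k M1 M2 Z‖) *
            Real.sin (η / 2) := by rw [mul_pow, pow_succ]; ring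
      _ ≤ 2 * 38 ^ j * (C * (1 + ‖Z - 1‖ ^ 2)) * Real.sin η := by
          refine mul_le_mul ?_ s2 s0 (by (clear * - hC0; positivity))
          exact mul_le_mul (mul_le_mul_of_nonneg_left h2 (by norm_num)) h1 (by (clear * -; positivity))
            (by positivity)
      _ = 2 * 38 ^ j * C * Real.sin η * (1 + ‖Z - 1‖ ^ 2) := by ring

/-- `c β(η) Re (X-1)^n`, `n ≤ 2`, is null against weights -/
theorem isNullW_har' {β : ℝ → ℝ} (hβ : Continuous β) (n : ℕ) (hn : n ≤ 2) :
    IsNullW DiscP (fun X ξ η => β η * ((X (pt ξ η) - 1) ^ n).re)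
      (fun X ξ => (∫ t in (0:ℝ)..(π / 2), β t) * ((X (pt ξ (π / 2)) - 1) ^ n).re) := by
  have hd : ∀ η : ℝ, HasDerivAt (fun η => -∫ t in (0:ℝ)..η, β t) (-β η) η := fun η =>
    (intervalIntegral.integral_hasDerivAt_right (hβ.intervalIntegrable _ _)
      hβ.stronglyMeasurable.stronglyMeasurableAtFilter hβ.continuousAt).neg
  have hF : C1c (fun X => I * (X - 1) ^ n) (fun X => I * ((n : ℂ) * (X - 1) ^ (n - 1)))
      (fun X => I * (I * ((n : ℂ) * (X - 1) ^ (n - 1)))) := by
    refine C1c_holo (fun X => ?_) (by fun_prop)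
    have h1 : HasDerivAt (fun X : ℂ => X - 1) 1 X := (hasDerivAt_id X).sub_const 1
    have h2 : HasDerivAt (fun X : ℂ => (X - 1) ^ n) ((n : ℂ) * (X - 1) ^ (n - 1)) X :=
      (h1.fun_pow n).congr_deriv (by ring)
    exact h2.const_mul I
  obtain ⟨M, hM⟩ := (isCompact_Icc (a := (0:ℝ)) (b := π / 2)).bddAbove_image hβ.abs.continuousOn
  have hM' : ∀ η ∈ Icc (0:ℝ) (π / 2), |β η| ≤ M := fun η hη => hM (mem_image_of_mem _ hη)
  have hM0 : 0 ≤ M := (abs_nonneg _).trans (hM' 0 ⟨le_rfl, by positivity⟩)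
  have hb : ∀ η ∈ Icc (0:ℝ) (π / 2), |-∫ t in (0:ℝ)..η, β t| ≤ M * 2 * Real.sin η := by
    intro η hη
    rw [abs_neg]
    have h1 : ∀ t ∈ Set.uIoc 0 η, ‖β t‖ ≤ M := by
      intro t ht
      rw [uIoc_of_le hη.1] at ht
      exact hM' t ⟨ht.1.le, ht.2.trans hη.2⟩
    have h2 := intervalIntegral.norm_integral_le_of_norm_le_const h1
    rw [Real.norm_eq_abs, sub_zero, abs_of_nonneg hη.1] at h2
    have hp := Real.pi_pos
    have h3 := Real.mul_le_sin hη.1 hη.2
    have h4 : η / 2 ≤ 2 / π * η := by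
      have : 1 / 2 ≤ 2 / π := by
        rw [div_le_div_iff₀ (by norm_num) hp]
        (clear * -; linarith only [Real.pi_le_four])
      have := mul_le_mul_of_nonneg_right this hη.1
      (clear * - this; linarith only [this])
    have h5 : M * η ≤ M * (2 * Real.sin η) :=
      mul_le_mul_of_nonneg_left (by linarith only [h3, h4]) hM0
    linarith only [h2, h5]
  have h := isNullW_G (P := DiscP) (C := M * 2) hF anF_one hd hβ.neg (by simp) (fun X x₁ x₂ hx hX hP
    ξ hξ η hη => by
      have h1 := hb η hη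
      have h2 := norm_pow_le n hn (X (pt ξ η))
      have hs := sin_nn hη
      rw [norm_one, mul_one, norm_mul, norm_I, one_mul]
      calc |-∫ t in (0:ℝ)..η, β t| * ‖(X (pt ξ η) - 1) ^ n‖ ≤
            (M * 2 * Real.sin η) * (1 * (1 + ‖X (pt ξ η) - 1‖ ^ 2)) :=
            mul_le_mul h1 h2 (norm_nonneg _) (mul_nonneg (by positivity) hs)
        _ = M * 2 * Real.sin η * (1 + ‖X (pt ξ η) - 1‖ ^ 2) := by ring)
  refine h.congr (fun X ξ η => ?_) (fun X ξ => ?_)
  · unfold NG
    have e : I * ((n : ℂ) * (X (pt ξ η) - 1) ^ (n - 1)) + I * (I * (I * ((n : ℂ) *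
        (X (pt ξ η) - 1) ^ (n - 1)))) = 0 := by
      linear_combination (I * (n : ℂ) * (X (pt ξ η) - 1) ^ (n - 1)) * I_sq
    rw [e]
    simp
  · simp

end Pool.Agent.Helper71.CK

end

section

namespace Pool.Sos71
end Pool.Sos71
namespace Pool.EK71
end Pool.EK71
namespace Pool.Agent.Helper52.EK
end Pool.Agent.Helper52.EK
namespace Pool.Agent.Helper2.EK
end Pool.Agent.Helper2.EK
namespace Pool.Agent.Helper69.EK3
end Pool.Agent.Helper69.EK3
namespace Pool.Agent.Helper69.EK5
end Pool.Agent.Helper69.EK5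
namespace Pool.Agent.Helper69.EK6
end Pool.Agent.Helper69.EK6
namespace Pool.Agent.Helper69.EK6.Dat
end Pool.Agent.Helper69.EK6.Dat
namespace Pool.Agent.Helper69.EK3.Dat
end Pool.Agent.Helper69.EK3.Dat
namespace Pool.Agent.Helper69.EK7
end Pool.Agent.Helper69.EK7
namespace Pool.Agent.Helper20.EK7
end Pool.Agent.Helper20.EK7
namespace Pool.Agent.Helper84.CK
end Pool.Agent.Helper84.CK
namespace Pool.Agent.Helper71.EKC
end Pool.Agent.Helper71.EKC
namespace Pool.Agent.Helper71.EK3
end Pool.Agent.Helper71.EK3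

set_option autoImplicit false

open Complex MeasureTheory Metric Set

open scoped Real ComplexConjugate

namespace Pool.Agent.Helper71.CK

open Pool.Sos71

open Pool.EK71 Pool.Agent.Helper52.EK Pool.Agent.Helper2.EK

open Pool.Agent.Helper69.EK3

open Pool.Agent.Helper69.EK5 (DQ Dd Dd_pos Dd_low DL e_D qX qY Rr c1_Rr Dn Dn_ev Rr_conj_even Rr_conj_odd Rs Dd_conj)

open Pool.Agent.Helper69.EK6 (px px_o csE_re eCon)

open Pool.Agent.Helper69.EK3.Dat (disc_im)

open Pool.Agent.Helper69.EK7 (Grp HC c1_HC aT hd_aT EGr)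

open Pool.Agent.Helper20.EK7 (InL OutL)

open Pool.Agent.Helper84.CK

open Pool.Agent.Helper71.EKC (c1_conj)

open Pool.Agent.Helper71.EK3 (e_G2)

/-- `∑ asum(g) M₁` -/
def gs1 (G : Grp) : BP := sumB (fun t => sm2 (asum t.1) t.2.1) [] G.l

/-- `∑ asum(g) M₂` -/
def gs2 (G : Grp) : BP := sumB (fun t => sm2 (asum t.1) t.2.2) [] G.l

/-- conditions on a group -/
def okGr (K h : ℕ) (G : Grp) : Bool :=
  Nat.beq G.n 0 && Nat.beq G.e 0 && Nat.ble (G.k + 1) K && Nat.ble (G.j + 1) (2 * h) &&
  G.l.all (fun t => ahom (2 * h - 1 - G.j) t.1) && G.l.all (fun t => okW G.k t) &&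
  (Nat.beq G.j 0 || (par2 true (gs1 G) && par2 false (gs2 G)))

structure OkGr (K h : ℕ) (G : Grp) : Prop where
  n : G.n = 0
  e : G.e = 0
  k : G.k + 1 ≤ K
  j : G.j + 1 ≤ 2 * h
  hom : ∀ t ∈ G.l, ahom (2 * h - 1 - G.j) t.1 = true
  gr : ∀ t ∈ G.l, okW G.k t = true
  cen : G.j = 0 ∨ (par2 true (gs1 G) = true ∧ par2 false (gs2 G) = true)

theorem okGr_iff {K h : ℕ} {G : Grp} (w : okGr K h G = true) : OkGr K h G := by
  simp only [okGr, Bool.and_eq_true, Bool.or_eq_true, Nat.beq_eq, Nat.ble_eq,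
    List.all_eq_true] at w
  obtain ⟨⟨⟨⟨⟨⟨h1, h2⟩, h3⟩, h4⟩, h5⟩, h6⟩, h7⟩ := w
  exact ⟨h1, h2, h3, h4, h5, h6, h7⟩

theorem gs_ev (L : List (AP × BP × BP)) (f : AP × BP × BP → BP) (x y : ℝ) :
    ev2 x y (sumB (fun t => sm2 (asum t.1) (f t)) [] L) =
      (L.map fun t => (asum t.1 : ℝ) * ev2 x y (f t)).sum := by
  rw [sumB_ev]
  simp only [ev2_sm]
  have : ev2 x y [] = 0 := rfl
  rw [this, add_zero]

section cen

variable {K h : ℕ} {G : Grp} (w : OkGr K h G) (a : DQ)

include w

theorem aT_half {t : AP × BP × BP} (ht : t ∈ G.l) :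
    aT G.j t.1 (π / 2) = 2 * (asum t.1 : ℝ) / 2 ^ h := by
  have e0 : 2 * h - 1 - G.j + (G.j + 1) + 0 = 2 * h := by
    have := w.j
    omega
  have g1 : ahom (2 * h) (ash (G.j + 1) 0 t.1) = true := by
    have := ahom_ash (G.j + 1) 0 (w.hom t ht)
    rwa [e0] at this
  unfold aT
  rw [af_half_even g1, asum_ash]
  ring

/-- the sum of the centre terms of a group -/
theorem KG_sum (X Y : ℂ) : (G.l.map fun t => KGt a G.j G.k t X Y).sum =
    - (2 / 2 ^ h * (((Rr a G.k (gs1 G) X : ℂ) + I * (Rr a G.k (gs2 G) X : ℂ)) *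
      (Y / X) ^ G.j).im) := by
  have e : ∀ t ∈ G.l, KGt a G.j G.k t X Y = - (2 / 2 ^ h *
      ((((asum t.1 : ℝ) * ev2 (X.re - 1) X.im t.2.1 / Dd a X.re X.im ^ G.k : ℝ) +
        I * (((asum t.1 : ℝ) * ev2 (X.re - 1) X.im t.2.2 / Dd a X.re X.im ^ G.k : ℝ) : ℂ)) *
          (Y / X) ^ G.j).im) := by
    intro t ht
    unfold KGt
    rw [aT_half w ht]
    unfold HC Rr
    have e1 : ((((asum t.1 : ℝ) * ev2 (X.re - 1) X.im t.2.1 / Dd a X.re X.im ^ G.k : ℝ) : ℂ) +
        I * (((asum t.1 : ℝ) * ev2 (X.re - 1) X.im t.2.2 / Dd a X.re X.im ^ G.k : ℝ) : ℂ)) *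
          (Y / X) ^ G.j = ((asum t.1 : ℝ) : ℂ) *
        ((((ev2 (X.re - 1) X.im t.2.1 / Dd a X.re X.im ^ G.k : ℝ) : ℂ) +
        I * ((ev2 (X.re - 1) X.im t.2.2 / Dd a X.re X.im ^ G.k : ℝ) : ℂ)) *
          (Y / X) ^ G.j) := by
      push_cast
      ring
    rw [e1, im_ofReal_mul]
    ring
  rw [map_sum_congr _ e]
  have e2 : ∀ L : List (AP × BP × BP), (L.map fun t => - (2 / 2 ^ h *
      ((((asum t.1 : ℝ) * ev2 (X.re - 1) X.im t.2.1 / Dd a X.re X.im ^ G.k : ℝ) +
        I * (((asum t.1 : ℝ) * ev2 (X.re - 1) X.im t.2.2 / Dd a X.re X.im ^ G.k : ℝ) : ℂ)) *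
          (Y / X) ^ G.j).im)).sum = - (2 / 2 ^ h *
      (((((L.map fun t => (asum t.1 : ℝ) * ev2 (X.re - 1) X.im t.2.1).sum /
        Dd a X.re X.im ^ G.k : ℝ) : ℂ) + I * (((L.map fun t => (asum t.1 : ℝ) *
          ev2 (X.re - 1) X.im t.2.2).sum / Dd a X.re X.im ^ G.k : ℝ) : ℂ)) *
          (Y / X) ^ G.j).im) := by
    intro L
    induction L with
    | nil => simp
    | cons t L ih =>
      rw [List.map_cons, List.sum_cons, ih, List.map_cons, List.sum_cons, List.map_cons,
        List.sum_cons]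
      push_cast
      have e3 : ∀ (A1 B1 A2 B2 D q : ℂ), ((A1 + A2) / D + I * ((B1 + B2) / D)) * q =
          (A1 / D + I * (B1 / D)) * q + (A2 / D + I * (B2 / D)) * q := by
        intros
        ring
      rw [e3, add_im]
      ring
  rw [e2, ← gs_ev G.l (fun t => t.2.1), ← gs_ev G.l (fun t => t.2.2)]
  rfl

theorem KG_conj (X Y : ℂ) : (G.l.map fun t => KGt a G.j G.k t X Y).sum +
    (G.l.map fun t => KGt a G.j G.k t (conj X) (conj Y)).sum =
      - (if G.j = 0 then 2 / 2 ^ h * Rs a G.k (gs2 G) X else 0) := by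
  rw [KG_sum w, KG_sum w]
  by_cases hj : G.j = 0
  · rw [if_pos hj, hj]
    unfold Rs
    simp only [pow_zero, mul_one, add_im, ofReal_im, mul_im, I_re, I_im, ofReal_re]
    ring
  · rw [if_neg hj]
    rcases w.cen with h1 | ⟨h1, h2⟩
    · exact absurd h1 hj
    · rw [Rr_conj_even h1, Rr_conj_odd h2]
      have e : ((Rr a G.k (gs1 G) X : ℂ) + I * ((- Rr a G.k (gs2 G) X : ℝ) : ℂ)) *
          (conj Y / conj X) ^ G.j = conj (((Rr a G.k (gs1 G) X : ℂ) +
            I * (Rr a G.k (gs2 G) X : ℂ)) * (Y / X) ^ G.j) := by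
        simp
      rw [e, conj_im]
      ring

end cen

structure DatG where
  s : DatT
  GR : List Grp

namespace DatG

variable (g : DatG)

/-- conditions on the data -/
def wf : Bool :=
  g.s.d.wf && g.s.d.c.UU.isEmpty && g.s.d.c.VX.isEmpty && g.s.d.c.VE.isEmpty &&
  g.s.d.c.F0.isEmpty && g.s.d.c.F1.isEmpty && g.s.d.c.HH.isEmpty &&
  g.GR.all (okGr g.s.d.c.K g.s.d.c.h)

structure Wf : Prop where
  d : g.s.d.Wf
  uu : g.s.d.c.UU = []
  vx : g.s.d.c.VX = []
  ve : g.s.d.c.VE = []
  f0 : g.s.d.c.F0 = []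
  f1 : g.s.d.c.F1 = []
  hh : g.s.d.c.HH = []
  gr : ∀ G ∈ g.GR, OkGr g.s.d.c.K g.s.d.c.h G

theorem wf_iff (h : g.wf = true) : g.Wf := by
  simp only [wf, Bool.and_eq_true, List.isEmpty_iff, List.all_eq_true] at h
  obtain ⟨⟨⟨⟨⟨⟨⟨h1, h2⟩, h3⟩, h4⟩, h5⟩, h6⟩, h7⟩, h8⟩ := h
  exact ⟨DatM.wf_iff _ h1, h2, h3, h4, h5, h6, h7, fun G hG => okGr_iff (h8 G hG)⟩

/-- the groups -/
noncomputable def NGR (X Y : ℂ) (η : ℝ) : ℝ :=
  (g.GR.map fun G => (G.l.map fun t => NGt g.s.d.c.a G.j G.k t X Y η).sum).sum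

noncomputable def KGR (X Y : ℂ) : ℝ :=
  (g.GR.map fun G => (G.l.map fun t => KGt g.s.d.c.a G.j G.k t X Y).sum).sum

/-- the total null Lagrangian -/
noncomputable def NT (X Y : ℂ) (η : ℝ) : ℝ := g.s.d.NT X Y η + g.NGR X Y η

/-- its centre function -/
noncomputable def KT (X Y : ℂ) : ℝ := g.s.d.KT X Y + g.KGR X Y

variable {g}

variable {ka kb p0 p1 p2 la lb q0 q1 q2 : ℝ} {Ln Ld Ln' Ld' : ℤ}

/-- **the total null Lagrangian is null against weights** -/
theorem isNullW_NT (w : g.Wf) :
    IsNullW DiscP (fun X ξ η => g.NT (X (pt ξ η)) (deriv X (pt ξ η)) η)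
      (fun X ξ => g.KT (X (pt ξ (π / 2))) (deriv X (pt ξ (π / 2)))) := by
  have n1 := IsNullW.list g.s.d.c.HM (fun t _ =>
    (isNullW_har' (trg_cont t.1 t.2.1) 2 le_rfl).const_mul (t.2.2 : ℝ))
  have n2 := IsNullW.list g.s.d.HM1 (fun t _ =>
    (isNullW_har' (trg_cont t.1 t.2.1) 1 (by norm_num)).const_mul (t.2.2 : ℝ))
  have n3 := IsNullW.list g.GR (fun G hG => IsNullW.list G.l fun t ht =>
    isNullW_Gt g.s.d.c.a G.j G.k t ((w.gr G hG).gr t ht))
  refine ((n1.add n2).add n3).congr (fun X ξ η => ?_) (fun X ξ => ?_)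
  · unfold NT NGR DatM.NT Pool.Agent.Helper69.EK6.Dat.NT
    rw [w.uu, w.vx, w.ve, w.f0, w.f1, w.hh]
    simp only [List.map_nil, List.sum_nil, zero_add]
    rfl
  · unfold KT KGR DatM.KT Pool.Agent.Helper69.EK6.Dat.KT
    rw [w.uu, w.vx, w.ve, w.f0, w.f1, w.hh]
    simp only [List.map_nil, List.sum_nil, zero_add]
    rfl

section cen

variable (g)

def cG (G : Grp) : BP := match G.j with
  | 0 => sm2 2712 (mu2 (ad2 (gs2 G) (fl2 (gs2 G))) (Dn g.s.d.c.a (g.s.d.c.K - G.k)))
  | _ => []

/-- the centre polynomial: `12 · 113 · 2^h · D^K · E_c` with `355/113` for `π` -/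
def cen : BP := sumB g.cG g.s.d.cen g.GR

/-- the centre function with `p` for `π` and `k` for `c₁` -/
noncomputable def Ecp (k p : ℝ) (X : ℂ) : ℝ :=
  g.s.d.Ecp k p X + (g.GR.map fun G => if G.j = 0 then
    2 / 2 ^ g.s.d.c.h * Rs g.s.d.c.a G.k (gs2 G) X else 0).sum

end cen

theorem cen_ev (w : g.Wf) (X : ℂ) : ev2 (X.re - 1) X.im g.cen =
    1356 * 2 ^ g.s.d.c.h * Dd g.s.d.c.a X.re X.im ^ g.s.d.c.K *
      g.Ecp g.s.d.c.c1 (355 / 113) X := by
  have hD := (Dd_pos g.s.d.c.a X.re X.im).ne'
  have eG : ∀ G ∈ g.GR, ev2 (X.re - 1) X.im (g.cG G) =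
      1356 * 2 ^ g.s.d.c.h * Dd g.s.d.c.a X.re X.im ^ g.s.d.c.K *
        (if G.j = 0 then 2 / 2 ^ g.s.d.c.h * Rs g.s.d.c.a G.k (gs2 G) X else 0) := by
    intro G hG
    obtain ⟨m, hm⟩ := Nat.exists_eq_add_of_le (le_trans (Nat.le_add_right _ 1) (w.gr G hG).k)
    have e2 : g.s.d.c.K - G.k = m := by omega
    rcases Nat.eq_zero_or_pos G.j with hj | hj
    · have e1 : g.cG G = sm2 2712 (mu2 (ad2 (gs2 G) (fl2 (gs2 G)))
          (Dn g.s.d.c.a (g.s.d.c.K - G.k))) := by
        unfold cG
        rw [hj]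
        rfl
      rw [e1, if_pos hj, ev2_sm, ev2_mu, ev2_ad, fl2_ev, Dn_ev, e2]
      unfold Rs Rr
      rw [Dd_conj, conj_re, conj_im]
      have p1 : Dd g.s.d.c.a X.re X.im ^ g.s.d.c.K = Dd g.s.d.c.a X.re X.im ^ G.k *
          Dd g.s.d.c.a X.re X.im ^ m := by
        rw [hm, pow_add]
      rw [p1]
      field_simp
      push_cast
      ring
    · obtain ⟨j, hj'⟩ : ∃ j, G.j = j + 1 := ⟨G.j - 1, by omega⟩
      have e1 : g.cG G = [] := by
        unfold cG
        rw [hj']
        rfl
      rw [e1, if_neg (by omega)]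
      simp [ev2]
  rw [cen, sumB_ev, map_sum_congr _ eG, map_sum_mul, DatM.cen_ev w.d]
  unfold Ecp
  ring

theorem KT_conj (w : g.Wf) (X Y : ℂ) (k : ℝ) :
    (g.KT X Y + (g.s.d.c.a2 * (π / 2) * ((X.re - 1) ^ 2 - X.im ^ 2) +
      (k - g.s.d.kb) * (π / 2) * (X.re - 1))) +
    (g.KT (conj X) (conj Y) + (g.s.d.c.a2 * (π / 2) * (((conj X).re - 1) ^ 2 -
      (conj X).im ^ 2) + (k - g.s.d.kb) * (π / 2) * ((conj X).re - 1))) =
      - g.Ecp k π X := by
  have h1 := DatM.KT_conj w.d X Y k
  have h2 := map_sum_congr g.GR fun G hG => KG_conj (w.gr G hG) g.s.d.c.a X Y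
  rw [← map_sum_add] at h2
  have h4 : (g.GR.map fun G => - (if G.j = 0 then
      2 / 2 ^ g.s.d.c.h * Rs g.s.d.c.a G.k (gs2 G) X else 0)).sum =
      - (g.GR.map fun G => if G.j = 0 then
        2 / 2 ^ g.s.d.c.h * Rs g.s.d.c.a G.k (gs2 G) X else 0).sum := by
    have := map_sum_mul g.GR (fun G => if G.j = 0 then
      2 / 2 ^ g.s.d.c.h * Rs g.s.d.c.a G.k (gs2 G) X else 0) (-1)
    simp only [neg_mul, one_mul] at this
    exact this
  rw [h4] at h2
  unfold KT KGR Ecp
  linear_combination h1 + h2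

theorem Ecp_c1 (k p : ℝ) : ∃ Ex Ey : ℂ → ℝ, C1f (g.Ecp k p) Ex Ey := by
  obtain ⟨A1, A2, hA⟩ := DatM.Ecp_c1 (d := g.s.d) k p
  obtain ⟨B1, B2, hB⟩ := c1_list g.GR (fun G X => if G.j = 0 then
    2 / 2 ^ g.s.d.c.h * Rs g.s.d.c.a G.k (gs2 G) X else 0) (fun G => by
      by_cases hj : G.j = 0
      · exact ⟨_, _, c1_congr (c1_mul (c1_const (2 / 2 ^ g.s.d.c.h))
          (c1_add (c1_Rr g.s.d.c.a G.k (gs2 G)) (c1_conj (c1_Rr g.s.d.c.a G.k (gs2 G)))))
          (fun X => by rw [if_pos hj]; unfold Rs; ring) (fun _ => rfl) (fun _ => rfl)⟩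
      · exact ⟨_, _, c1_congr (c1_const 0) (fun X => by rw [if_neg hj]) (fun _ => rfl)
          (fun _ => rfl)⟩)
  refine ⟨_, _, c1_congr (c1_add hA hB) (fun X => ?_) (fun _ => rfl) (fun _ => rfl)⟩
  unfold Ecp
  ring

/-- `355/113` for `π` -/
theorem Ecp_pi {p ε : ℝ} (hp : 0 ≤ p - π)
    (hε : ε * π = (|(g.s.d.c.c1 : ℝ) - g.s.d.kb| + 2 * |(g.s.d.c.a2 : ℝ)|) * (p - π)) {X : ℂ}
    (hX : ‖X‖ ≤ 1) : 0 ≤ g.Ecp (g.s.d.c.c1 + ε) π X - g.Ecp g.s.d.c.c1 p X := by
  have h1 := DatM.Ecp_pi (d := g.s.d) hp hε hX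
  unfold Ecp
  (clear * - h1; linarith only [h1])

end DatG

end Pool.Agent.Helper71.CK

end

section

namespace Pool.Sos71
end Pool.Sos71
namespace Pool.EK71
end Pool.EK71
namespace Pool.Agent.Helper52.EK
end Pool.Agent.Helper52.EK
namespace Pool.Agent.Helper69.EK7
end Pool.Agent.Helper69.EK7
namespace Pool.Agent.Helper20.EK7
end Pool.Agent.Helper20.EK7
namespace Pool.Agent.Helper69.EK3
end Pool.Agent.Helper69.EK3

/-!
# Project CK: the loss of the general one-jet field in seven variables
-/

set_option autoImplicit false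

open Complex Metric Set

open scoped Real ComplexConjugate

namespace Pool.Agent.Helper20.CK

open Pool.Sos71 Pool.EK71 Pool.Agent.Helper52.EK Pool.Agent.Helper69.EK7 Pool.Agent.Helper20.EK7

open Pool.Agent.Helper69.EK3 (eA eB eo)

/-- `N W = Gm ω + sg l Al σ` -/
def cW7 (Gm Al sg : ℤ) : CE := CE.add (CE.sc Gm cOm) (CE.rm (Ex.sc (sg * Al) (Ex.va 0)) cSg)

/-- the loss times `N²`, weight 4, seven variables -/
def eT7 (N Gm C0 Al Be sg : ℤ) : Ex :=
  Ex.add (Ex.sc 16 (Ex.mul (Ex.pow (Ex.va 2) 2) (cSq (cW7 Gm Al sg))))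
    (Ex.add (Ex.sc 8 (Ex.mul (Ex.mul (eKK C0 Al Be sg) (Ex.va 2))
        (Ex.add (Ex.mul eA (cW7 Gm Al sg).r) (Ex.sc (-1) (Ex.mul eB (cW7 Gm Al sg).i)))))
      (Ex.add (Ex.sc (8 * (Gm - N)) (Ex.mul (Ex.va 2)
          (Ex.add (Ex.mul eA (cW7 Gm Al sg).r) (Ex.mul eB (cW7 Gm Al sg).i))))
        (Ex.add (Ex.mul (Ex.add (Ex.pow (eKK C0 Al Be sg) 2) (Ex.lit ((Gm - N) ^ 2)))
            (Ex.pow eo 2))
          (Ex.sc (2 * (Gm - N)) (Ex.mul (eKK C0 Al Be sg)
            (Ex.add (Ex.pow eA 2) (Ex.sc (-1) (Ex.pow eB 2))))))))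

theorem Dj_zero (d : ℝ) (m t : ℂ) : Dj 0 0 d m t = 0 := by
  unfold Dj
  simp

theorem vv_zero (d S C : ℝ) (X P R : ℂ) : vv 0 0 d S C X P R = 0 := by
  unfold vv
  simp

variable {N Gm C0 Al Be sg : ℤ} {gam c0 a b : ℝ} (l η : ℝ) (X Y : ℂ)

theorem re9_eT7_eq (Z : ℂ) : re9 (px9 l η X Y Z 0) (eT7 N Gm C0 Al Be sg) =
    re9 (px9 l η X Y Z 0) (eT9 N Gm C0 Al Be sg) := by
  have h9 : re9 (px9 l η X Y Z 0) (Ex.va 9) = 0 := rfl
  have h10 : re9 (px9 l η X Y Z 0) (Ex.va 10) = 0 := rfl
  have hr : re9 (px9 l η X Y Z 0) (cWW N Gm Al sg).r = re9 (px9 l η X Y Z 0) (cW7 Gm Al sg).r := by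
    have e1 : re9 (px9 l η X Y Z 0) (cWW N Gm Al sg).r = re9 (px9 l η X Y Z 0) (CE.sc Gm cOm).r +
      ((N : ℝ) * re9 (px9 l η X Y Z 0) (Ex.va 9) +
        re9 (px9 l η X Y Z 0) (CE.rm (Ex.sc (sg * Al) (Ex.va 0)) cSg).r) := rfl
    have e2 : re9 (px9 l η X Y Z 0) (cW7 Gm Al sg).r = re9 (px9 l η X Y Z 0) (CE.sc Gm cOm).r +
        re9 (px9 l η X Y Z 0) (CE.rm (Ex.sc (sg * Al) (Ex.va 0)) cSg).r := rfl
    rw [e1, e2, h9]
    ring
  have hi : re9 (px9 l η X Y Z 0) (cWW N Gm Al sg).i = re9 (px9 l η X Y Z 0) (cW7 Gm Al sg).i := by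
    have e1 : re9 (px9 l η X Y Z 0) (cWW N Gm Al sg).i = re9 (px9 l η X Y Z 0) (CE.sc Gm cOm).i +
      ((N : ℝ) * re9 (px9 l η X Y Z 0) (Ex.va 10) +
        re9 (px9 l η X Y Z 0) (CE.rm (Ex.sc (sg * Al) (Ex.va 0)) cSg).i) := rfl
    have e2 : re9 (px9 l η X Y Z 0) (cW7 Gm Al sg).i = re9 (px9 l η X Y Z 0) (CE.sc Gm cOm).i +
        re9 (px9 l η X Y Z 0) (CE.rm (Ex.sc (sg * Al) (Ex.va 0)) cSg).i := rfl
    rw [e1, e2, h10]
    ring
  simp only [eT7, eT9, cSq, re9] at hr hi ⊢
  rw [hr, hi]

theorem low_eT7 : low (eT7 N Gm C0 Al Be sg) = true := rfl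

/-- **the loss** of `gam m + c0 + sg l (a m + b)` in seven variables -/
theorem re_eT7 (h1 : (Gm : ℝ) = N * gam) (h2 : (C0 : ℝ) = N * c0) (h3 : (Al : ℝ) = N * a)
    (h4 : (Be : ℝ) = N * b) (t : ℂ) :
    (eT7 N Gm C0 Al Be sg).re (Pool.Agent.Helper69.EK6.px l η X Y) =
      (N : ℝ) ^ 2 * ‖Fv gam c0 a b 0 0 1 (sg * l) (mX X Y (Real.sin η) (Real.cos η)) t -
        e0 (Real.sin η) (Real.cos η)‖ ^ 2 := by
  have k1 := re9_low (px9 l η X Y 0 0) (eT7 N Gm C0 Al Be sg) low_eT7
  have k2 : (px9 l η X Y 0 0).t = Pool.Agent.Helper69.EK6.px l η X Y := rfl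
  rw [k2] at k1
  rw [← k1, re9_eT7_eq]
  have k3 := re9_eT9 (N := N) (Gm := Gm) (C0 := C0) (Al := Al) (Be := Be) (sg := sg)
    (g0 := 0) (g1 := 0) (d := 1) l η X Y 0 h1 h2 h3 h4
  have k4 : vpt 0 0 1 η X Y 0 = 0 := vv_zero _ _ _ _ _ _
  rw [k4] at k3
  rw [k3]
  have k5 : ∀ t : ℂ, Fv gam c0 a b 0 0 1 (sg * l) (mX X Y (Real.sin η) (Real.cos η)) t =
      gam * mX X Y (Real.sin η) (Real.cos η) + c0 + ((sg * l : ℝ) : ℂ) *
        (a * mX X Y (Real.sin η) (Real.cos η) + b) := by
    intro t
    unfold Fv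
    rw [Dj_zero, add_zero]
  rw [k5, k5]

end Pool.Agent.Helper20.CK

end

section

namespace Pool.Sos71
end Pool.Sos71
namespace Pool.EK71
end Pool.EK71
namespace Pool.Agent.Helper52.EK
end Pool.Agent.Helper52.EK
namespace Pool.Agent.Helper2.EK
end Pool.Agent.Helper2.EK
namespace Pool.Agent.Helper69.EK3
end Pool.Agent.Helper69.EK3
namespace Pool.Agent.Helper69.EK5
end Pool.Agent.Helper69.EK5
namespace Pool.Agent.Helper69.EK6
end Pool.Agent.Helper69.EK6
namespace Pool.Agent.Helper69.EK6.Dat
end Pool.Agent.Helper69.EK6.Dat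
namespace Pool.Agent.Helper69.EK7
end Pool.Agent.Helper69.EK7
namespace Pool.Agent.Helper20.EK7
end Pool.Agent.Helper20.EK7
namespace Pool.Agent.Helper71.CK
end Pool.Agent.Helper71.CK
namespace Pool.Agent.Helper84.CK
end Pool.Agent.Helper84.CK

set_option autoImplicit false

open Complex MeasureTheory Metric Set

open scoped Real ComplexConjugate

namespace Pool.Agent.Helper20.CK

open Pool.Sos71

open Pool.EK71 Pool.Agent.Helper52.EK Pool.Agent.Helper2.EK

open Pool.Agent.Helper69.EK3

open Pool.Agent.Helper69.EK5 (DQ Dd Dd_pos Dn Dn_ev)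

open Pool.Agent.Helper69.EK6 (px px_o eCon px_Con)

open Pool.Agent.Helper69.EK6.Dat (tN_re)

open Pool.Agent.Helper69.EK7 (Grp EGr GLip2)

open Pool.Agent.Helper20.EK7

open Pool.Agent.Helper71.CK

open Pool.Agent.Helper84.CK

/-- one side of the data agrees with real parameters -/
structure SideF (f : Sd) (sg : ℤ) (p0 p1 p2 : ℝ) : Prop where
  sg : f.sg = sg
  r : 0 < f.r
  r0 : (f.r0 : ℝ) = f.r * p0
  r1 : (f.r1 : ℝ) = f.r * p1
  r2 : (f.r2 : ℝ) = f.r * p2

theorem SideF.con {f : Sd} {sg : ℤ} {p0 p1 p2 : ℝ} (h : SideF f sg p0 p1 p2) {X Y : ℂ}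
    {η l : ℝ} (hl : l * rF p0 p1 p2 (mX X Y (Real.sin η) (Real.cos η)) =
      sg * (1 - ‖mX X Y (Real.sin η) (Real.cos η)‖ ^ 2)) (hs : (sg : ℝ) ^ 2 = 1) :
    (eCon f).re (px l η X Y) = 0 := by
  rw [px_Con, h.r0, h.r1, h.r2, h.sg]
  unfold rF at hl
  linear_combination (f.r * (sg : ℝ)) * hl + (f.r * (1 -
    ‖mX X Y (Real.sin η) (Real.cos η)‖ ^ 2)) * hs

/-- the conditions on a field `G` which enter the pointwise inequality -/
structure FldF (G : ℂ → ℂ) (gam c0 ka kb p0 p1 p2 la lb q0 q1 q2 : ℝ) : Prop where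
  gin : ∀ m : ℂ, ‖m‖ ≤ 1 → ∀ e : ℂ, ‖e‖ = 1 →
    ‖G m - e‖ ^ 2 ≤ ‖Fd gam c0 0 0 1 ka kb p0 p1 p2 m 0 - e‖ ^ 2
  gout : ∀ m : ℂ, 1 < ‖m‖ → ∀ e : ℂ, ‖e‖ = 1 →
    ‖G m - e‖ ^ 2 ≤ ‖Fd gam c0 0 0 1 la lb q0 q1 q2 m 0 - e‖ ^ 2

/-- the field of the data -/
noncomputable def GF0 (gam c0 ka kb p0 p1 p2 la lb q0 q1 q2 : ℝ) (m : ℂ) : ℂ :=
  GF gam c0 0 0 1 ka kb p0 p1 p2 la lb q0 q1 q2 m 0

theorem fld_GF0 (gam c0 ka kb p0 p1 p2 la lb q0 q1 q2 : ℝ) :
    FldF (GF0 gam c0 ka kb p0 p1 p2 la lb q0 q1 q2) gam c0 ka kb p0 p1 p2 la lb q0 q1 q2 :=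
  ⟨fun _ hm _ he => GF_in hm (by rw [norm_zero]; norm_num) he,
    fun _ hm _ he => GF_out hm.le (by rw [norm_zero]; norm_num) he⟩

theorem GF0_conj (gam c0 ka kb p0 p1 p2 la lb q0 q1 q2 : ℝ) (m : ℂ) :
    GF0 gam c0 ka kb p0 p1 p2 la lb q0 q1 q2 (conj m) =
      conj (GF0 gam c0 ka kb p0 p1 p2 la lb q0 q1 q2 m) := by
  unfold GF0
  rw [← GF_conj, map_zero]

/-- the field is admissible -/
theorem GF0_glip (gam c0 ka kb p0 p1 p2 la lb q0 q1 q2 : ℝ) (h : InL p0 p1 p2)
    (h' : OutD q0 q1 q2) : ∃ L : ℝ, GLip (GF0 gam c0 ka kb p0 p1 p2 la lb q0 q1 q2) L := by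
  obtain ⟨L, hL⟩ := GF_glip gam c0 0 0 1 ka kb p0 p1 p2 la lb q0 q1 q2 one_pos h h'
  refine ⟨L, fun m => hL.le_one m 0, fun m m' => hL.lip m m' 0, fun u m hu => ?_⟩
  have h1 := hL.rot u m 0 hu
  rw [mul_zero] at h1
  exact h1

theorem outD_outL {q0 q1 q2 : ℝ} (h : OutD q0 q1 q2) : OutL (q1 + q2) q0 q1 q2 :=
  ⟨rfl, h.pos, h.pos'⟩

structure DatF where
  g : DatG
  N : ℤ
  mu : ℤ
  Gm : ℤ
  C0 : ℤ
  Al : ℤ
  Be : ℤ
  Al' : ℤ
  Be' : ℤ

namespace DatF

variable (e : DatF)

/-- the part of a target without multiplier and groups -/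
def tL (f : Sd) (Al Be : ℤ) : Ex :=
  Ex.add e.g.s.d.c.tN (Ex.add
    (Ex.mul (Ex.mul (Ex.pow eo (e.g.s.d.c.h - 2))
      (Ex.bp (sm2 (Int.neg e.mu) (Dn e.g.s.d.c.a e.g.s.d.c.K)))) (eT7 e.N e.Gm e.C0 Al Be f.sg))
    (Ex.mul (e.g.s.d.c.tMul f) (eCon f)))

/-- the target of one side -/
def tSide (f : Sd) (L : List (ℕ × ℕ × ℤ)) (Al Be : ℤ) : Ex :=
  sumE (EGr e.g.s.d.c.a e.g.s.d.c.K) (Ex.add (e.tL f Al Be)
    (sumE (EMt e.g.s.tn e.g.s.td e.g.s.d.c.a e.g.s.d.c.K e.g.s.d.c.h) e.g.s.d.tX L)) e.g.GR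

/-- the target inside -/
def tIn : Ex := e.tSide e.g.s.d.c.fi e.g.s.d.MI e.Al e.Be

/-- the target outside -/
def tOut : Ex := e.tSide e.g.s.d.c.fo e.g.s.d.MO e.Al' e.Be'

variable {e}

theorem tSide_re (w : e.g.Wf) {f : Sd} {L : List (ℕ × ℕ × ℤ)} (hL : ∀ t ∈ L, t.2.1 ≤ 2)
    {X Y : ℂ} (hX : X ≠ 0) (l η : ℝ) (h : (eCon f).re (px l η X Y) = 0) (Al Be : ℤ) :
    (e.tSide f L Al Be).re (px l η X Y) = Dd e.g.s.d.c.a X.re X.im ^ e.g.s.d.c.K *
      (e.g.NT X Y η + (e.g.s.d.c.lam * ‖X - 1‖ ^ 2 + e.g.s.d.c.a2 * ((X.re - 1) ^ 2 -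
        X.im ^ 2)) + (e.g.s.d.kb * (1 - X.re) + e.g.s.d.del) +
        (MS L l (mX X Y (Real.sin η) (Real.cos η)) * e0 (Real.sin η) (Real.cos η) *
          (e.g.s.td * (X ^ 2 - 1) - e.g.s.tn)).re -
        e.mu * (eT7 e.N e.Gm e.C0 Al Be f.sg).re (px l η X Y)) := by
  have e1 : ∀ A B : Ex, (Ex.add A B).re (px l η X Y) = A.re (px l η X Y) + B.re (px l η X Y) :=
    fun _ _ => rfl
  have e2 : (e.tL f Al Be).re (px l η X Y) = e.g.s.d.c.tN.re (px l η X Y) +
      (((eo.re (px l η X Y)) ^ (e.g.s.d.c.h - 2) *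
        ev2 (X.re - 1) X.im (sm2 (Int.neg e.mu) (Dn e.g.s.d.c.a e.g.s.d.c.K))) *
        (eT7 e.N e.Gm e.C0 Al Be f.sg).re (px l η X Y) +
          (e.g.s.d.c.tMul f).re (px l η X Y) * (eCon f).re (px l η X Y)) := rfl
  have e3 : ((Int.neg e.mu : ℤ) : ℝ) = - e.mu := by
    show (((- e.mu : ℤ)) : ℝ) = _
    push_cast
    ring
  unfold tSide
  rw [sumE_re, e1, sumE_re, DatM.tX_re, DatT.mt_re hL, e2, h, tN_re w.d.c hX, px_o, one_pow,
    ev2_sm, Dn_ev, e3,
    map_sum_congr e.g.GR fun G hG => EGr_low e.g.s.d.c.a (w.gr G hG).n (w.gr G hG).e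
      (w.gr G hG).k l η hX Y, map_sum_mul]
  unfold DatG.NT DatG.NGR DatM.NT
  ring

/-- conditions on the data -/
structure Ok (e : DatF) (gam c0 ka kb p0 p1 p2 la lb q0 q1 q2 : ℝ) (Ln Ld Ln' Ld' : ℤ) :
    Prop where
  wf : e.g.wf = true
  N0 : e.N ≠ 0
  mu0 : 0 < e.mu
  M0 : e.g.s.d.c.M = e.mu * e.N ^ 2
  td0 : 0 < e.g.s.td
  lam0 : 0 ≤ e.g.s.d.c.lam
  fi : SideF e.g.s.d.c.fi 1 p0 p1 p2
  fo : SideF e.g.s.d.c.fo (-1) q0 q1 q2
  eg : (e.Gm : ℝ) = e.N * gam
  ec : (e.C0 : ℝ) = e.N * c0
  ea : (e.Al : ℝ) = e.N * ka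
  eb : (e.Be : ℝ) = e.N * kb
  ea' : (e.Al' : ℝ) = e.N * la
  eb' : (e.Be' : ℝ) = e.N * lb
  Ld0 : 0 < Ld
  Ld0' : 0 < Ld'
  inL : InL p0 p1 p2
  outD : OutD q0 q1 q2
  lIn : LIn p0 p1 p2 (Ln / Ld)
  lOut : LOut q0 q1 q2 (Ln' / Ld')

variable {gam c0 ka kb p0 p1 p2 la lb q0 q1 q2 : ℝ} {Ln Ld Ln' Ld' : ℤ}

theorem Ok.Mpos (o : e.Ok gam c0 ka kb p0 p1 p2 la lb q0 q1 q2 Ln Ld Ln' Ld') :
    0 < e.g.s.d.c.M := by
  rw [o.M0]
  have := o.mu0
  have := o.N0
  positivity

end DatF

end Pool.Agent.Helper20.CK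

end

section

namespace Pool.Sos71
end Pool.Sos71
namespace Pool.Agent.Helper69.EK7
end Pool.Agent.Helper69.EK7
namespace Pool.Agent.Helper71.CK
end Pool.Agent.Helper71.CK
namespace Pool.Agent.Helper20.CK
end Pool.Agent.Helper20.CK

set_option autoImplicit false

namespace Pool.Agent.Helper9.CKD.E3

open Pool.Sos71 Pool.Agent.Helper69.EK7 Pool.Agent.Helper71.CK Pool.Agent.Helper20.CK

/-- the basic data -/
def cb : Pool.Agent.Helper69.EK6.Dat := {
  a := ⟨8, 16, 5, 2, by decide, by decide, by decide⟩, K := 2, kU := 0, kV := 0, kF := 0, kL := 2, h := 3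
  M := 34087745579567284224000
  lam := 13888283160457267200000
  c1 := 122446054750790596608000
  a2 := 573606925302244177152000
  UU := [], VX := [], VE := [], F0 := [], F1 := [], HH := []
  HM := [(1, true, 698990270732741472768000), (1, false, -2104762943669581117440000), (2, true, -1936165855940387124480000), (2, false, 613485746213485238784000), (3, true, 609022560493505431296000), (3, false, 282847842623928130560000)]
  fi := ⟨1, 0, 0, 0, 0, 0, 20, 20, 1, -4,
    [
    ([(1, 2, 0)], [[61809952511055974400, -162842798628083378534400, 816426152012147623372800, -11242193235426718495027200, 40035998183858953252300800, -149378365020976070197708800, 426792065824480950849024000, -372022262000377867523174400, 1546377252687523683937843200], [169706452845264274944000, -2147394180931698159360000, 19572759101365623145267200, -114161195218887039616819200, 541651805964701482054348800, -660606337140611110086297600, 2920936197468441785841100800, -417097030031151437895782400], [2599930531686557660313600,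 -18841734736061360700672000, 238315374378523632685363200, -477162412121962374114355200, 2835836019081272618810265600, -1487324247432877370215987200, 4635795376487466721222963200], [30627561797074898903347200, -80921019816837717404313600, 1248871937629818431626905600, -1094184409633330578387148800, 6171507438890435295211929600, -1044581281589641916417587200], [180578894977681904159078400, -190065407806162911105792000, 3242262577768543145764915200, -1418539220671029378806016000, 4993261692634556981082777600], [556991876210204596936089600, -256736989283464967216486400, 4259356717991450371415654400, -702466695646313215151923200], [943366053078978040778342400, -187531018667422971496704000, 2331600278542536159646617600], [852141866897370557798553600, -49166616617424975249561600], [332179052027758795635148800]]),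
    ([(1, 1, 1)], [[123858160002698803200, 160911159132322575820800, -467331693776854630041600, 10571413401209876758732800, -16098080810794176458649600, 126564731835850748037427200, -45833957840187466202880000, 397848771484899568052428800], [21146849861804738150400, 1674429691900037850316800, -2609592769474589892096000, 99797535198047435616000000, -65558839749533781408921600, 555026386660523401446604800, -127893742087667999892019200], [68165928964915189401600, 16249407869334681876326400, -10849410763015888983398400, 383132989710926111683123200, -187050362633107634574028800, 793682728917445914451660800], [-196198160505560363980800, 71786314789096411114905600, -28169887509799784107776000, 672302697055709494666752000, -170443543419475341623193600], [-1838547445970536108185600, 156597729735523982426265600, -35020685637679937060966400, 500394362228345169512755200], [-4912646390569293404313600, 172787529389237548481894400, -7724670364586061389721600], [-4760894669393817059788800, 83011571632953468439142400],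 [-484258462559747314790400]]),
    ([(1, 0, 2)], [[-184734331122855628800, 4044465542993609779200, 72086930488312792473600, -65724312932150605056000, 831253141863650241331200, -679023826795809298022400, 719073716950903936204800], [-8072514338744751667200, 38194136554693326336000, 237093083400421711872000, -414749674995926284339200, 1111017836678782704998400, -638055039814468288358400], [-22265907617183460249600, 46487633932582515302400, 521677574654151886387200, -1208493449785161905817600, 1254150379396807245158400], [-34739673753254366361600, -74639503866623091609600, 251509800563716862822400, -1117805074425203371315200], [29976878786312772864000, -193698184681922231808000, 329275439347602007756800], [91444971313779024844800, -115584804449329636915200], [107710259219324160307200]])],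
    [
    ([(1, 2, 0)], [[20356038391377227673600, -30468471101660642918400, 1578647435454479336140800, 719070364534732333516800, 18632600522005143391027200, 43443729637555395949516800, 47560998872957016422246400, 69048478088471959538688000, -83732456962463166285926400], [217269137098560547584000, 255513530817245748787200, 20641375039423362307430400, 25635278740019479967692800, 77470194309352741597593600, 234893124060920407621324800, -267798648160209998025676800, 40833919308845097622886400], [2850241593528756070502400, 5581546080104500466227200, 78551886831831733272422400, 122389236938180766358425600, -65979186709049036408678400, 560474399675550114810316800, -244658881954143870038323200], [12631741270154438592153600, 32081233688657930763417600, 70199275717079308382515200, 344864608896407137059225600, -445538431983096084753561600, 321162065142938878840473600], [16473849465761979579648000, 88623118150848165517977600, -158687512216902140839372800, 447703072119979837268428800, -213324843334426296807168000],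 [-25763688348144054318489600, 133647330046592866625740800, -348946095439757845445068800, 165079845907251040491724800], [-92388293294424796801382400, 100570090840495461152409600, -150560982747873478315008000], [-84976934546207866030387200, 22572866219852805836544000], [-19948473739274725446451200]]),
    ([(1, 1, 1)], [[-7635571778603391436800, -3113034512463330048000, -586593178689746030284800, -1718521764677687709849600, -3517816669499229853132800, -32141509501317025769164800, -9202551624892569763123200, -41519839418518468504780800], [-55918747973957186764800, -263705330135172721766400, -6700349696565994427750400, -25071237306256286407219200, 2040256339598061931622400, -119657676759025670874777600, 32375412831969223298150400], [-841858613051843791872000, -4005062447890213396684800, -25504088355421813769932800, -88218828674194468869734400, 53283398780990431093708800, -112297755823898047372800000], [-3977520673964842228838400, -19966142749825042060032000, -32571742059685091077171200, -142170989233378959634176000,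 76897842585002751068928000], [-8374740337687708878336000, -42960290347570912428902400, -12091498080775355617228800, -90529812581443318808985600], [-6750825173649667636531200, -41351331577298819577292800, 5275271053868407875072000], [-289418674116655363276800, -14258594389826792283955200], [1192230743320416486758400]]),
    ([(1, 0, 2)], [[8192457588462322636800, -15062744192485044787200, 491987779415175796070400, -737811846445498048051200, 5962546984122332850585600, -1617606470524230206668800, 21446686230405150787430400], [79400619933260813568000, -81086518473002219980800, 4605684731254385771673600, -2844364241880192284928000, 25454571461003858623488000, -4756171102715715938150400], [788347390638521858457600, -371171945773454940518400, 18676730940253583470848000, -7096750215302734605619200, 41604816043615028685004800], [3523617883861854915225600, -1024351017018961692211200, 33882231466610984324505600, -6520951231829491035340800], [7867350271211417946777600, -1327827213714616987392000,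 26975801002436039728281600], [8884523776731062859417600, -543509697428439599462400], [4419758503529676182016000]])]⟩
  fo := ⟨-1, 0, 0, 0, 0, 0, 20, 10, -1, 12,
    [
    ([(1, 2, 0)], [[-387369952664565196800, -183781564466074601472000, 1280399763287190438144000, -11693088492312291507302400, 45453863090670862784716800, -127493974982115905383987200, 259088403598998264945100800, -219187757322793254206822400, 602545098042037075999795200], [183995739286983958579200, -2581084151330193162086400, 21750595654731186803558400, -108546429571726321602201600, 414216783145099974251520000, -547964524793983762008115200, 1172883714005121986758809600, -34642209520296374001868800], [2319169961755233357004800, -21523284769679346973593600, 197853485747267155016448000, -483279380136505376158003200, 1563807768843740944506163200, -964797818570329570613913600, 1777374169631673065155123200], [23582281777024619072102400, -101471859531610145030246400, 845568866035931430499891200, -1093498518727661831926272000,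 2714858195581517385445632000, -438935343214304037309235200], [130159394122691978373888000, -271339362931158414642124800, 1846188139346973374699520000, -1236171575548690750371686400, 1975856058417039371208345600], [381271759719691818557491200, -394073660361654147116851200, 2091781266839784137592576000, -495909747081042010142515200], [611100684099556193786572800, -279538888237530685448140800, 1042287291152676773895168000], [520880739719017574851430400, -65710247930894949061017600], [194104201803610785144883200]]),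
    ([(1, 1, 1)], [[331707434664666009600, 186411272119103607552000, -919908313946594600601600, 9789512431316933852467200, -22003678446993207942912000, 79646157978320154258892800, -31227171161751298764288000, 154345954840063190270668800], [38213614738614675456000, 1448076262046798274048000, -5714249410245136644864000, 71504811837230594660352000, -92426962366765383443712000, 238618001676318034168627200, -12070559076446782466611200], [221393013700601767219200, 12111570747483378232780800, -25778440237081312812441600, 225271575570950224147353600, -172863178252319317603737600, 300906000131897670377472000], [549203792226501442406400, 51374215986340279310899200, -60464836471782942901094400, 323329070686854945393561600, -112996713726586198331596800], [527639376751362736588800, 107350941812839852940236800, -62169496349468431068518400, 216868278477310462514534400], [-739241477041252506163200, 110769927362943796776960000, -16915532410426082405068800], [-1732534394219597699020800, 50104119407694200792524800],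 [-304823897153746737408000]]),
    ([(1, 0, 2)], [[-74206902622846003200, 2962363470558585753600, 75265016635402084915200, -67796267681591665920000, 747560270487667356979200, -211031776144213473024000, 506840255153457887692800], [-6736454240178650112000, 23503279828247438745600, 208514506394742471475200, -156109658237815785062400, 873911073132499897497600, -311109171249133316505600], [-17956320297996365107200, -1161575310845245593600, 480002829088309366118400, -278483504649058298880000, 693849668265189178214400], [-39336996029668034918400, -117397201639561093324800, 443449197164559487795200, -154559585555451888076800], [-24396863244723657676800, -137695958067523768012800, 529255463756111122176000], [-22001853820287191040000, 8406981136830910924800], [24267784209477822720000]])],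
    [
    ([(1, 2, 0)], [[-20121755608635992985600, 163111616213048628480000, -2228209541630528102092800, 9177917558629600686643200, -34813631003779078758604800, 70419267273134768741222400, -166311334590207650574796800, 124965748821960815138611200, -331000111795523104532275200], [-303754651848040773427200, 1499550640533796754073600, -21550524715949169195878400, 66692580928985158903296000, -251298514611272371935283200, 290281534428891165682176000, -629036196568648468976793600, 18965099956678334770176000], [-3239785757354968109721600, 11984810011747362312192000, -132837036054366985893734400, 269800249771546261863782400, -876402414122413506892185600, 529327430385398024970700800, -979913606819669315004211200], [-20858799024802972653926400, 54798779959556907669811200, -486144079092013147074201600, 594494490801015435846297600, -1455249783610327501316966400, 236434803013275345030758400], [-85341500980134139511193600, 143093525075568972264038400, -1011015075088957119735398400, 671240857638930217461964800,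 -1081053584652209856001228800], [-218410995158683640028518400, 207904202289135066943641600, -1126379230920612415315353600, 273115507113925625415628800], [-334140797298599286175641600, 150393116170021031384371200, -572466128788746884736460800], [-281670376406317392912076800, 35701105779294062680627200], [-106614915576843896505446400]]),
    ([(1, 1, 1)], [[9127492362310906368000, -99744347694528865843200, 1311191572840643736576000, -6702423804336240719769600, 16030027985631104595916800, -44062548830740031417856000, 21092921514108078485760000, -93313406236778383160217600], [80780356075993739366400, -605241258699683496499200, 7297156631285234195097600, -43802464865118107567616000, 62232679989199702194739200, -136988143705790841489408000, 6054161911335831421900800], [684901462966734611404800, -6050717265316806363340800, 22601505584178521656012800, -133611175031645187084441600, 113635530794484987143270400, -179116848908565645957120000], [2558476992847936400640000, -28651401134158005674956800,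 42261169960934847896371200, -192942360058183659459532800, 68849977346985642793113600], [4528824526943952121497600, -63232333319542891509043200, 40155949421292315675340800, -129251721024353336486400000], [4510383042584943370598400, -67006977987453543838771200, 10178563377516325726464000], [2867511775489014475468800, -30720222930401469756979200], [427831476159848110387200]]),
    ([(1, 0, 2)], [[-15605128211030754969600, 40772166916363434086400, -770388850084300915968000, 1419669576325908158515200, -5938509120420109940121600, 2267468594867799275673600, -10731116229072059354572800], [-125915886051603024384000, 279862754745107069337600, -5195234372063208055603200, 6305897354955528525926400, -17083034596625106082406400, 820664416699082639769600], [-895089059263491134054400, 1503195790731197416704000, -15714468837658271435673600, 11727353891302564825497600, -20874066872638915190016000], [-3555671983449569426995200, 3851443686888303749222400, -22823840797755360584601600, 7595254957166272188979200],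 [-7317258095079433419264000, 3989824334520089717145600, -15343300631453326996377600], [-7575286338779010693580800, 1113158735184726228326400], [-3437449063126057211443200]])]⟩ }

/-- the multiplier and the harmonic terms -/
def cm : DatM := {
  c := cb
  HM1 := [(1, true, -168979314067534268928000), (1, false, 105226761819997444608000), (2, true, 535823444877308667648000), (2, false, 66049072029999684864000), (3, true, -161986693425928229376000), (3, false, -82434744554020146432000)]
  kb := 206287096383456797952000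
  del := 167155413670416384000
  MI := [(0, 1, 77843655804151270080), (0, 2, 1645369317957222720), (1, 0, 10868942194705071360), (1, 1, 11686861858197407040), (1, 2, -13161530457232130880), (2, 0, -2623548242424219840), (2, 1, 15163908422467688640), (2, 2, 4695919932178117440)]
  MO := [(0, 1, 77843655804151270080), (0, 2, 1645369317957222720), (1, 0, -728360061565680000), (1, 1, -33623140137224627520), (1, 2, 7282520024993317440), (2, 0, 10907313603434720640), (2, 1, -451818013250442240), (2, 2, -3717663276040583040)] }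

def ct : DatT := ⟨cm, 1, 800⟩

/-- the null Lagrangians -/
def g : DatG := ⟨ct, [
  ⟨0, 0, 0, 1, [
    ([(1, 0, 5)], [[0, 43667194677834594816000, 652990229603967744000, 0, 18390647079177345792000], [1055763237037662720000, 151930378173030709248000, -29820182909144514048000, 819687303292933672704000], [-4091840609708381184000, 209701185284692859904000, 10175319720965592576000], [-15997067779341148416000, 497671625308796232192000], [9125182983342258432000]], [[-154770851554571520000, -69167335967405568000, -44940171656064628224000, -3705661932993476352000], [238054240162881354240000, -10710811235735550720000, 1745486984007227296512000, 2959465737544429824000], [575446789078372613376000, 10242453751585731072000, 116962043470130951424000], [917301517411357315584000, 1108908762500367360000], [64735181009597193984000]]),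
    ([(1, 1, 4)], [[0, 595048803480537546240000, -178539676895432383488000, 7058200414963138836480000, -2025569804442154868736000, 265616508845797401600000], [512483612313816873216000, 234770473991332608768000, 1617582148038289324800000, -1802626690065994179072000, 1316206284529644094464000], [885815335159428644352000, 467929834813981154304000, -2615390134639506869760000, -394842697747896964608000], [98637166517995489536000, -1178285995867132154880000, 138457555912431751680000], [-1721865050887526383104000, -108168622923651547392000], [-649832179353386376960000]], [[-77459341397324544000, 19727091819118985472000, 265909875938479726848000, 1304224433930171195136000, 0, 1930449066828242492160000], [-24447285911209082112000, -1165195792997677112832000, 1472725928075194063872000, -6855670185974980784640000, 258464080312539805440000], [-187473940140310997760000, -3026571957041968168704000, 333068482488252621312000, -4196674191051124162560000], [-612750503321435478528000, -4609979601953913904896000,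 -391295528743897301760000], [-574416783158106590208000, -2555522014636221543936000], [-43603850445493142016000]]),
    ([(1, 2, 3)], [[0, 2159675560700319068928000, 3836737131632786366208000, -291493697679957420288000, 164412668604565410048000, -12478575961733153283072000, 511606463513468633856000], [-422080797656553050880000, 4902863405526531827712000, 29513000760298682512896000, -56109637008727971982848000, -4598841762906464042496000, -6870752701571885974272000], [-4286672488656027883008000, 4432244536985933435904000, -18798404979181878314496000, 3393752476595383261440000, -2297143374260232402432000], [-856160288273989737216000, 1102616947894862004480000, 14962797620310240997632000, 89835033209147829504000], [-6224864921272847731968000, 2868919830907470190080000, -113906866638526345728000], [12241699163142717627648000, 4022720620258683419136000], [-5847786111428042789376000]], [[95279660521505280000, 13764030297714144000000, -1170868686537255964416000, -8390261366795231617536000, 0,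 -834915649277422282752000, -2189676957620788984320000], [-45557279676981446400000, 2694439557884162686464000, -7775420752817029009152000, 173888543451876694272000, 28757148551348195566080000, -724947800753567990016000], [1250908860943023363072000, 9164969302178344813056000, -12737931105911185133568000, 18772038780458198688000000, 15222430977726408963840000], [1370866652955825511680000, 8442282382607375096832000, -3283354189853382124800000, 2903752601541367732224000], [-1299878302455720405504000, 5627234523267689001984000, -1442298060219501372672000], [-7953070276433616890112000, -1051911899649934216704000], [-2791544033033443065600000]]),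
    ([(1, 3, 2)], [[0, -1726755483047136231168000, 7830657043663993477632000, -19159693814170013045760000, 88596986848350458457600000, -31257734602255652086272000, 8263011257014227462144000, 167564979374698960128000], [-6162018127512970528512000, 15564485907748279565568000, -91331653705320411180288000, 211194414266283271544832000, -22508760760179160619520000, 14190548000077195015680000, -9080793753142082770944000], [-3571116114760187917824000, 53805119531979665378304000, 39323801905954660790784000, -90808231095388405569024000, -28251400704420823580160000, -339197592440275425792000], [-5835494468228723474688000, 69357820748033061338112000, -124910396352844767869184000, 23023398050081357458176000, -26241579994162678043904000], [52009055833472362605312000, -910352716817152195584000, -13551817655512592160768000, 995070132294924351744000], [6127617029455640017152000, 63859338457407804683520000, -9192364352959375816704000], [40428436303912574492928000, 20620574265437861707008000], [2764681633446005862144000]],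 [[72095784464295936000, 38886009017485446144000, 6140048770718289183744000, 21093404642419638177792000, 0, -13899139449824896955136000, 3348008938364388986880000, -10240172754764106025728000], [969950942047060289280000, -2767659726573457452288000, 13085237247650392741632000, 53843357237968142189568000, -102379525266172377906432000, -42050626458221135814912000, 639118431727244686080000], [-4446959370926110007040000, -3106578104142417536256000, 21992116386995386078464000, 7053015094029411906816000, -32887619915100517237248000, -26782999495167535469568000], [-3922861558154604553728000, 27074043171239378455296000, 25509484407610595227392000, 49337659750579933416192000, -1581066572029304212224000], [4896105002858425448448000, 47455093122837217507584000, 11430572643708611003136000, 18620555892519189480192000], [24663657580867048218624000, 36759251316570404590080000, -635246518136168293632000], [4188007708028882378496000, 7555478004416269649664000], [-693251898590417144832000]]),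
    ([(1, 4, 1)], [[0, -1117107972678096988416000, -12031173867255711316992000, 0, -130672552484859546032640000, 94142497416555095808768000, -64911893891896125743616000, 54960256348808125655808000, -2528482028875574828544000], [6691439322862417578240000, -25650058478971626240768000, 79119434960072209808640000, -262049877240130480220928000, 37703119565140374802176000, 56785783200517080847872000, -8780419750752271754496000, 32484040623934059218688000], [12513363562938927273984000, -88832153615770495945728000, 77528740584692200396032000, -10665851659912107042048000, 26720663090492070671616000, 144721183943988401068800000, 3215280702939841223424000], [14789816092985542951680000, -122934305692568892192768000, 187012844268708599481600000, -110690528396267068222464000, 72422527898639655023616000, 45905121344393983328256000], [-53513226951852241278720000, 3532285147663421397504000, -25864810925375428892928000, 15357141862873130587392000, 4754714783912327814912000], [-82674178091861618260224000,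 -28214159494924510163712000, -6439159313271960698880000, 3855553776144784442880000], [-81194850244359464926464000, 5909720731235632295424000, -2694271899022944415488000], [-14384571489306336319488000, 1222112512748567079936000], [-452123780829738227712000]], [[-18917281016338176000, -11986895107793917440000, -8250268201695879966720000, -14708036828282840805888000, 0, 487397358907429853952000, -13222549831690579935744000, 15965116857932045810688000, 6984341946900282546432000], [-1946201714069564229120000, 2783147143300660081152000, -14970055171332312746496000, -123657697561053323372544000, 89738789329024772702976000, 27304777890026908604928000, -36999515756306389300992000, 9333137827710233296128000], [3753550556400368696832000, -16873715310625993307904000, -36838491999981818782464000, -141388254147469385074176000, -89133042883563593980416000, 11080800888265688719104000, -16290070784886893156352000], [-52559998693710667776000, -102908352672002742365952000, -129007175439278131310592000,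 -201230903590175908599552000, -135053357486951959352064000, -1015139890106578492416000], [-16713241325714424107520000, -153208578117639647165184000, -161239100222650865960448000, -76395220829482498324992000, -47424564674836754128128000], [-45095869632392267279616000, -110234295230210085388032000, -82726499486900472106752000, -1915269916649767305984000], [-11995136254584175207680000, -28700359929344295461376000, -15100372155000169960704000], [754715189505612913920000, -167052997375194161664000], [788325424239017463552000]]),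
    ([(1, 5, 0)], [[0, 76883044060152758016000, -4433312475203322237696000, 22372080500591432907264000, 30719799787983443647488000, -37225472285080760442624000, 72835441970030264083968000, -53171146669414404218112000, -7836178253626606682880000], [1185183699594502120704000, 8216908890501024018432000, -23972534933483958633216000, 129026071980579182524416000, -33665842234705602684672000, -35828408048566018692096000, 20669298637520693806848000, -24998054272670955787776000], [-1115124967583356043520000, 45339463488893911462656000, -130769518649000419434240000, 180969394605324040848384000, -105969195635046172374528000, -100163910065846664817152000, 8874872140835663347968000], [-13033961163471233274624000, 83619684247830818105088000, -222535287673642443810816000, 173683726751686756352256000, -113529372676423820015616000, -31703804695181187698688000], [-33626074564731629640960000, 50080711484993594095872000, -169712384509189939668480000, 5214254757435046635264000, -9083974826233430767872000],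 [-22791184999759117608192000, 13629281714450918051328000, -74993738348686399305984000, -6315279263918020048896000], [-26551626135149838799872000, -6519019332405477500928000, -6950187847044245203200000], [-7524589909843972081152000, 1885025323834717847040000], [-402813419656170481920000]], [[83855437589470464000, 1586424840162135552000, 3060585340006770243072000, 3375046359986929876224000, 0, 6883791920467195435776000, 11946578848011842750208000, -21429296322859285615872000, -7295891427426175499520000], [-14872486945865895936000, -1306450703996602919424000, -134155163963008691712000, 66928208819776596209664000, -16994980630663185959424000, -37954021702922525387520000, 33372441854998499017728000, -13598384876731134616320000], [-3001656059791076505600000, 12052757875018998150144000, 26969144318372216070144000, 88714097427500950579200000, 101384595277932639377664000, -56887980607918708773120000, 12386946198626611176960000], [-986734338042697473024000, 57983634636497205854976000, 105392119641575935615488000,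 77882997886027922354688000, 124544689788204879213312000, -17924099684341911648768000], [13612294852717031617536000, 71146026022805059343616000, 145697495085239081817600000, 9512168121739076253696000, 41536984864627943721216000], [28313603660523891432960000, 28315351778478660057600000, 76877395396600593643776000, -5199747365128364999424000], [10349985745619228777472000, -6388555111887381746688000, 13054083384262226158080000], [-288209597671891858176000, -5200011753265742402304000], [-848843381766665475072000]])]⟩,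
  ⟨1, 0, 0, 1, [
    ([(1, 0, 4)], [[291855363620540935680000, 7120001530610415360000, 2127782246194568194560000, 124438241474336088576000, 215093186243280758016000], [1213496357161459979520000, 1289673232131085056000, 3335434271128037611008000, 79116661334531259648000], [2574763562571518389248000, 27150137380743904512000, 1393537095879717185280000], [2516315090502007943424000, -6387484363143024384000], [928224986843620935936000]], [[1039919168407115520000, -88406046895970283264000, 45083170515100893696000], [-4574466141326848512000, -215387497335487124736000], [-22831075644472286208000, -15276821631176941056000], [8782723946087633664000, 140737667308879246848000], [28425685393847930112000]]),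
    ([(1, 1, 3)], [[386401307597388129024000, -952140725138375276544000, 5650360094723349399552000, -11645596149703823752704000, 2141313894756345772800000, 1910247342205614725376000], [476157229781131157760000, -6502700000638200128256000, 11492915865236198698752000, -10305553228631220593664000, 439180411327348343040000], [569967024333436058880000, -11868588685606649347584000, 3453093550217163481344000, -2801526647942254514688000], [-638669684645309657088000, -7479321964148344495104000, 1119583923740913846528000], [-1177259124501222034176000, -368746686143780228352000], [-63154304259231391488000]], [[321726415785646887936000, -371972160804211725312000, 2525471046908826628608000], [530855801089956732672000, -2093921759700239143680000], [-331011418969693891584000, 536382716413006280448000], [-1159205884169773084416000, 238680278044637458176000], [-994299835661997172992000, -578693708368550120448000], [-396216817110254124288000]]),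
    ([(1, 2, 2)], [[1352712795780984088320000, 2600629945708934253312000, 939164403003658967808000, 554342969078551058688000, 2804939568448384642560000, 15458012120352593382912000, -54319026759648687360000], [6534586793802748057344000, 24665503016490295385088000, -12353784460282576039680000, 18390563813527151182848000, -32463643235557589597952000, 2048014380423312649728000], [10358784762376033589760000, 42200942230171462364928000, -29805332633256209702400000, -40770236494960864026624000, -5564187990153748742400000], [1639703109714167976192000, 3565728983530099586304000, 6418882971995693193216000, -5951175646909157266176000], [-8855441355708313341696000, -21192662782530784276992000, -7623491160113144960256000], [-931131778166759932416000, 22393939155109698240000000], [2645771223065085040896000]], [[-203995057527190305792000, 2392677694680328251648000, 7499673648598183681536000], [-5348597769867838816512000, 17306486550903677603328000, -17577036490605388448256000], [-4856938297278705183744000,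 50811104216271648241152000], [2910856611182766612480000, 37353845439077899574016000], [15567650166763402702848000, 7116622668857837666304000, 107551427706920775168000], [3141441265644658492416000, 5833684649349738830592000], [-11536689884958359209728000]]),
    ([(1, 3, 1)], [[-83305425015462636288000, 11238171077536629009408000, -37107147848820121198080000, 7973694806429548551168000, 45148033515004133101056000, 64261435226949173894400000, -34466022448294788960768000, -3564981367177064871168000], [1403092791189324525312000, 19619655765367488325632000, -121676159462405546983680000, -93357793055029766031360000, 255383955255103809841152000, 125091760102931133715968000, -11687683840711240594176000], [8835083872649430437376000, 25207284923520416861184000, -247544791478824412611584000, -5142924317167153069824000, 145471348030399153530624000, 52863282301552575840000000], [31886186259570481870848000, 20337018395111630779392000, -351480560543901766808064000, -57750481135692011699712000, 40108638474267627838464000],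 [45245194230020633385984000, -17098234180968140679168000, -227987883011179649873664000, -10725754551437560172544000], [54842026361184398055168000, -105789218028203059508736000, -69284871725220127717632000], [46478666105319501418752000, -8146535757855241128192000], [11620143282105436566528000]], [[-2308414077564070060800000, 1711787268456368266752000, -19771629805461654026496000, 4326520366226819835648000], [3295189767952977917184000, -8741125103783842854144000, 17577036490605388448256000, -11693096490020235264000], [18910259182829301760512000, -67571055437593774901760000], [60010447577513450655744000, -28573204791097708134912000], [73595682614359711192320000, 84644163416780168396544000, -107551427706920775168000], [92174820255466249494528000, 123301775816293234450176000], [76179787740857924557056000, 40847278427114447524608000], [7685426245871546422272000]]),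
    ([(1, 4, 0)], [[-561889950185534305536000, -12893780299637798401536000, 31501775254161632527872000, 2993120132721388054272000, -43201273777707710744064000, -81629694689507382002688000, 51855895653572501102592000, 3564981367177064871168000, 18553922045789473522944000], [-2532642586431341577984000, -37783748454451714667520000, 93976895961793935569664000, 85193665808799304182528000, -119493281713787042022144000, -127139774483354446365696000, 50520659284655466190848000], [-3783312548271816081408000, -55566788605465973783040000, 209117627493028209156096000, 48714687460070271611136000, 100213532141839298325504000, -52863282301552575840000000, 26654692962083905209600000], [-4258063003520570144256000, -16417037930130242846208000, 338201743954676110788096000, 63701656782601168965888000, 207241026607005225769728000], [13253286123656235424512000, 38659643649642705184512000, 292313848438829210084352000, 10725754551437560172544000, 78939854214504292836864000], [26267301903947253940224000, 83395278873093361268736000,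 128711513298648462628608000], [22555019662845300082944000, 8146535757855241128192000, 16627906344678060685824000], [15951793668550494347520000], [4146474614162513624064000]], [[2189642800137206363136000, -1111408646756482075392000, 9701401939439542822656000, -6960699312779953152000], [1527126666966231015168000, 7693032998074083418368000], [-13699478390936430398976000, 38166509555461314074880000], [-61770881028472531817472000, 15642963788928814632960000], [-88197458630854964652288000, -14916852260345575540224000], [-94920044704000653862656000, -17791964319442420161792000], [-64643097855899565347328000, 5044521937809035160576000], [-7685426245871546422272000, 4927283499914298452736000]])]⟩,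
  ⟨2, 0, 0, 1, [
    ([(1, 0, 3)], [[3251334037572009216000, 243790994412680686848000, -30791122018524656640000, 1743326516364836509440000, 56892039041848061952000], [-10239425802761644800000, 848690660922600619008000, 11150754671869632000000, 1334390786048234644992000], [-49087282731852556800000, 1550364713576803809792000, 62711164049716751616000], [-51339951627370113024000, 863743527435585042432000], [-17095924766378810880000]], [[23462585943539268096000, 58141593678642153984000, -219321140928150274560000, 100397112194644054272000, -15136695207431407872000], [326674612263143280384000, 107096545822212389376000, -21768391156009953024000, 57353888753841268224000], [840134146173456651264000, 88043795109543449088000, 147218104662739354368000], [897443064671678242560000, 49743324868273304832000], [334304472870540442368000]]),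
    ([(1, 1, 2)], [[-35857277939772981504000, -697919544069824788992000, 399773499572443958784000, -3016853768795158144512000, -10177139708219841136128000, 820460067956843738112000], [-736044354252218255616000, -3104552753542168319232000, 1405482065052230476800000, -1866177381702582888192000, -8678276564936074156800000], [-3442377395425919157504000, -3624113925400485473280000, -3753812701718084210688000, -1810960433729062048512000], [-5495245064078328147456000, -629312551841142950400000, -3954881729785914514944000], [-3605488538480956452096000, 687956746045739959296000], [-905399225490265293312000]], [[-39362163631308829440000, -356621707494412920576000, 3138998664714613949952000, 3980334291107705063424000, -7961112388531048967424000, -30325803444864509184000], [-288068616453669795072000, -1389587618707676902656000, 7041318619588497861120000, 9040691516945091653376000, -2731065897186072251136000], [-1383530501873681162496000, -482359819373347910400000, 4749517215394299380736000, 4918383328899950572032000],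 [-1447850348989658913024000, 1624548859814041226496000, 2149177848918659055360000], [-62518948953418552320000, 1634440967373844995840000], [262131368914475274240000]]),
    ([(1, 2, 1)], [[155149206933861637632000, 1386755594767426754304000, 1034539794936553791744000, -8288777388978684403200000, 21392827607575813453056000, 4859806544106434539776000, 1995312504953388059136000], [2169752273898039346176000, 4919011364249491286016000, 1624313549365903325952000, -26982937162726203787776000, -6965408724676909910784000, 8507532296379179697408000], [9672563859843890951424000, -2985482520163801854720000, -6033519690565156257024000, -28826206810788422218752000, -1876609257471877741056000], [14105043137823328350720000, -18406483875633771802368000, -15872805693421414520832000, -11177442764280182935296000], [6421609044931426216704000, -15399073140055992225792000, -4667064008118668331264000], [339217317113159232000000, -3362440178533366338048000], [33077053885496806656000]], [[11215502093144123136000,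 486252953182209346560000, -4692179502705717939456000, -5840790182757359419392000, -1992613657371065856000, 12205940414177410200576000, 1543159856385497668608000], [953650385217893636352000, 1094684865148293493248000, -18950034920128144773120000, 21659081092067328768000, -28889670255223281396480000, -1226221481776735742976000], [7744676797051284393216000, -2537211706169481444096000, -26714076366139378490880000, -12637021195113531595776000, -17734075133466585049344000], [13432309417194318302976000, -7302600174674092506624000, -24568609810364005022208000, -7159877710966058522112000], [7285452651458568681984000, -4323438776968847426304000, -4865151348043945917696000], [1603821662452940348160000, 366513805266298822656000], [619653426738497775360000]]),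
    ([(1, 3, 0)], [[-113814786635177789952000, -932627045110282652160000, -778757109354586711296000, 9562304641409006038272000, 393792896673914591232000, -5680266612063278277888000, -10806217664417064783360000], [-1675633557081551696640000, -2663149271629923585792000, -69970663339088942592000, 27514723758380552030976000, 34673323622812517127168000, -8507532296379179697408000, -5295551858071046654976000], [-8272219586540228681472000, 5059231731987483518208000, 23625290803166543812608000, 30637167244517484267264000, 22228635513003374552832000], [-16314604122199876906752000, 18172052900039329710336000, 42112165167919406889216000, 11177442764280182935296000, 7943327787106569982464000], [-16643987646125298960384000, 14711116394010252266496000, 21671659839931684075008000], [-10417127582995981454592000, 3362440178533366338048000, 4236441486456837323980800], [-3803657929195736959488000], [-529555185807104665497600]], [[4684075594625438208000, -148614366568085565696000, 1772501978919254264064000,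 3328033466895554430720000, 7978241697395851441152000, 3150823351505542753536000, -1543159856385497668608000, -1059110371614209330995200], [-992256381027367121664000, -891345469545447171840000, 11930484691695656865024000, 335350423468140956928000, 31620736152409353647616000, 23570331125618263601664000], [-7201280441351059881984000, -1485604996657175708928000, 21817341046082339755776000, 25264094211870873083136000, 17734075133466585049344000, 10061548530334988644454400], [-12881902132876337632512000, -3951810826353342839808000, 22419431961445345966848000, 13545035895100617123840000], [-7557238175375690572032000, -13030497526966311838464000, 4865151348043945917696000], [-1865953031367415622400000, -12027064676158479048192000], [-619653426738497775360000, -2647775929035523327488000]])]⟩,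
  ⟨3, 0, 0, 1, [
    ([(1, 0, 2)], [[-901623987463617792000, -15685142210465506560000, 176045158177736905728000, 2997466918006231296000, 363684700121322472704000], [-38790059468744381184000, -2603984596933559040000, 555913156449851976960000, -4994861740099252992000], [-64377518524968172032000, -572581409938147584000, 363206891386762873344000], [-46548429838686139392000, -31837847517306630144000], [-26812759092926360832000]], [[4557875891979497472000, 58110914314358021376000, 58713703330533145344000, 574381769906968079616000, 29818752421356642816000], [1056160613701702656000, 346675296704797419264000, 128281607076911413248000, 672983167731818397696000], [-5923158439297206528000, 867950919613936129536000, 88003179252352521216000], [-1609637689525900032000, 555789049978627763712000], [605142515828620800000]]),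
    ([(1, 1, 1)], [[13939213494205769472000, 296131802383533652992000, -562073091398627016960000, -2565758885021436890880000, 1343710357743690904320000, 672994288272252499968000], [194122610551386362880000, 282426867023425228800000, -1323803210207544476928000, -4402409501351169474048000, 723442848377885441280000], [-83917712534227994880000, -1640082469119629107968000, -1013281309031400603648000, -1682485720680631249920000], [-844837826024073176064000, -2857062232837737354240000, 120573808062980906880000], [-713883768695979358464000, -1009491432408378749952000], [-120573808062980906880000]], [[4287463615369578240000, -91777885313165312256000, 569380677883219722240000, -2414313691050120173568000, -2104113708119955992832000, 241147616125961813760000], [219857707584107654400000, -1163448721263956917248000, 1603459610018991495936000, -2882496066739613715456000, -2018982864816757499904000], [801148452150250043136000, -3124550676698567679744000, 1185725292445061607168000, -602869040314904534400000],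 [1312231864117921401600000, -2375569170684754979328000, -336497144136126249984000], [1067248978601034401280000, -361721424188942720640000], [336497144136126249984000]]),
    ([(1, 2, 0)], [[-14317579671556750848000, -280446660173068146432000, 754910745246293375232000, 2562761418103430659584000, 72730849971991968000000, -672994288272252499968000, -317755201356876420864000], [-220125259350448588800000, -279822882426491669760000, 978233313805149576960000, 4407404363091268727040000, 2889513445818046696704000], [-256722724126235720448000, 1640655050529567255552000, 1252883188521035297280000, 1682485720680631249920000, 1747653607462820314752000], [-131483164062020963328000, 2888900080355043984384000, 1093926326917821718824000], [-500870005135699412736000, 1009491432408378749952000, 635510402713752841728000], [-597433824797702311224000], [-158877600678438210432000]], [[-8845339507349075712000, -17363580311802398976000, -628094381213752867584000, 1420009838775912425472000, 2074294955698599350016000,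 996270648747356859408000], [-220913868197809357056000, 656488970696505602304000, -1731741217095902909184000, -401873508794852421120000, 2018982864816757499904000, 1271020805427505683456000], [-795225293710952836608000, 1014496692421041715968000, -1273728471697414128384000, -2093482620172296622440000], [-1310622226428395501568000, -923429289925383671808000, 336497144136126249984000, -635510402713752841728000], [-1067854121116863022080000, -1891599974817130815192000], [-336497144136126249984000, -635510402713752841728000]])]⟩]⟩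

/-- the data -/
def e : DatF := ⟨g, 3480, 2814749767106560, 3360, 96, 435, 290, 1848, 87⟩

/-- additional multipliers of the relation -/
def mi : Ex := (.add (.add (.add (.add (.add (.add (.add (.add (.add (.add (.add (.add (.add (.mul (.pow (.va 4) 2) (.bp [[121796840775447788544000, -267252724290909439180800, 7680810324161306990131200, -12677298534657673238016000, 103970465535107389200076800, -38411652858378987389184000, 390199764829635139315968000], [1468380045410935358054400, -2446770631204548112435200, 85189896177786100256256000, -63594039746581194056140800, 519795571663682349230131200, -113095008721522511297740800], [14214851237595702592512000, -11583470521727997183590400, 357986832379283579846860800, -178261375232752980688281600, 762665294139137043506841600], [65676316048311096692582400, -29523662315481459996518400, 668474942774069366194636800, -175347248535332887788288000], [149756810305726097659238400, -36958470660512010957772800, 503759274609058309994342400], [170404077791096774953574400,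 -17447855773535820477388800], [82233897591568763377152000]]))
    (.mul (.mul (.va 3) (.va 4)) (.bp [[-6977289370347397324800, 39526414175528038656000, -248465033653471313356800, -1575338701881130334668800, -1140978548866439610316800, 6551711375004381564518400, 11247532350601569132902400], [-128004534004595798937600, -460348331717215136563200, -172686096111492906393600, -8096262815568354211123200, 11184365152953626932684800, 16646023183109222589235200], [-817849034247494997964800, -4794879018350749160448000, 5555014173090443315404800, -6539065477211869345843200, 30095808720065394700032000], [-2219972800286593187481600, -12503787739160218787174400, 11071779423997333233254400, 4744832312699754624460800], [-2755824816489045677107200, -12969665508682563064934400, 5748760797415899230822400], [-1333277631158285517465600, -5775117869724560757043200], [-237509945237814906009600]])))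
    (.mul (.pow (.va 3) 2) (.bp [[125431068909674174976000, -207924771542553603532800, 6956068684414624801689600, -10414818295462979911065600, 105805934950428312257894400, -34024318417199168130816000, 396246165181831642750617600], [1533181195335415190630400, -1458416248225843016908800, 82805221778140143161395200, -56390190523552592554291200, 528669045784785581590579200, -119260576254796441905715200], [14586508161665947494604800, -6963303136672748334643200, 354240712748406286885939200, -162553156301196441450086400, 781576336667982416136192000], [66851408344839408403660800, -19031798899210726185062400, 668198195261524852969420800, -159920383895303322765312000], [151879247456786157032755200, -24597859923358842673612800, 511242270277471509267763200], [172477937279113195197542400, -10594656994016800929024000], [83122117881561039311308800]])))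
    (.mul (.mul (.va 2) (.va 4)) (.bp [[71925309494609822208000, -142469713552434899558400, 4113852151638329134848000, -6424478876484898248038400, 57876639703267825952409600, -21093809724750656658124800, 198626699244038685448550400], [777381712716903313766400, -921887465796450753638400, 44434814700353384265062400, -32434875525082274804275200, 274408602997699276059340800, -64439692680766517727436800], [7314309929692438613913600, -4207007770626064028313600, 182752936719177577153536000, -91383595068655989867110400, 398204841067968200666112000], [33976647528237052115097600, -11347335289351072789401600, 337828927586479983329587200, -93789121745682862456320000], [77909711771469703142246400, -14408304755479915885977600, 255006054223861317255936000], [88763313413719271424614400, -6558550754718700133222400], [42708382428928239694080000]])))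
    (.mul (.mul (.va 2) (.va 3)) (.bp [[3166095307152416716800, -20141018650709579520000, 135088120771773235200, -1503884299227164884684800, 1253098938677126218905600, -6057054223074255081830400, 4845124232278633758873600], [30422749122202253414400, -178131608772482816870400, -32285811921616605081600, -5215303800090732078028800, 2884040483263195399372800, -8378978422719371882342400], [174740764448906351308800, -734959762541288253388800, 139575253595718633523200, -5606814642716332711065600, 8643794977648745405798400], [543781375668731624140800, -1374987345124211419852800, 1070048520979570536192000, -813488333813226154598400], [786825312140077606195200, -1417853001646997339904000, 812787752819792193638400], [634566298836389976115200, -889713444720631630233600], [212081757881158547712000]])))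
    (.mul (.mul (.va 1) (.va 4)) (.bp [[-68297178471631019827200, 666976398394440267417600, -4476717063462572127129600, 33952038164190906244300800, -92962995864328275003187200, 411553702462796012787148800, -249267000337879471629004800, 1555903702420761340047513600], [-690244366878830518732800, 6322097225474662875494400, -41804079568907834802124800, 345316722857759120382259200, -426108605811332414610585600, 2089028772698460071485593600, -415002489593734073478297600], [-5611039478650845081446400, 54624461344601374836633600, -162635241785980609710950400, 1429717747241646737056972800, -920473101790964263402905600, 3036188751808633729925990400], [-24809185410198431403110400, 246112746739728587877427200, -306419187129774173309952000, 2653567606820178534937190400, -633812026173509621773670400], [-56762239319663612091955200, 557969811303157472922624000, -268564112549949122084966400, 1967894228489876988072652800], [-67751053999839902744524800, 636875187169314638769868800, -50362591495222561332326400],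 [-38065836150505946779084800, 309849731085826715891097600], [-4346001470833108104038400]])))
    (.mul (.mul (.va 1) (.va 3)) (.bp [[111153707943774516633600, -204813660649180402944000, 6830695778813882636544000, -8638987293966549411072000, 101971029984670745125632000, -24992317832097511318579200, 383593573609677675275673600, 27357398352003211258982400], [1750234095086341187635200, -2572664445910182370867200, 108872418777120593007206400, -88812302897660951325542400, 917436047791805956458547200, -201236329699926828551424000, 1592095788134964599169024000], [18783224379341320858214400, -14958587452966230222489600, 672626809912285999062374400, -356920920714898172503296000, 2815484952396588180700262400, -414477544782291114094848000], [118781563874213492769945600, -53588485975794253397913600, 2048324799444525096257894400, -781086783616418417756313600, 3087775826391738894817536000], [407408695047901392897024000, -109970027885463788230963200, 3144145076931618913406515200, -634042047762131273791488000],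 [766458062237451639613132800, -115277963015801700678297600, 2025531662459674846780108800], [763830609994041057724262400, -44954162769167302679193600], [329521032353421877200076800]])))
    (.mul (.mul (.va 0) (.pow (.va 4) 2)) (.bp [[-5036315370714608025600, 22370949844753712025600, -569000363473545846681600, 3695433397147768435660800, -7682950303049964110745600, 11459393080571713340620800, -20139928608981889715097600], [18454635929210048870400, 510837476444557267968000, -7385044575930498126489600, 16379143594466715424972800, -45704600823577169191219200, 14606177489616819904819200], [-236439950688528203520000, 4292116950159095242291200, -33008968992100514938214400, 45052187399670348090777600, -36087593451896340129945600], [-3170365627096548486144000, 13482848227138350362726400, -65362728436171012751616000, 34332412724381401678540800], [-8660341151110830959308800, 16746932077147753821388800, -36153962590209342332774400], [-9598067789378542947532800, 6463240035545436838502400], [-3395335960383767240140800]])))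
    (.mul (.mul (.mul (.va 0) (.va 3)) (.va 4)) (.bp [[14905777300519511347200, -148235220677054555136000, -257413472789606870630400, -1402402353940043664998400, -4980341761516070522265600, -18151134673941718636492800, -13694553580483628796672000], [80417984867842914662400, -1027940280633319301683200, -1132505277603304731955200, -10606941883659509451417600, 12763504575083000553523200, -46635197018443105615257600], [89376528858839960832000, -1700423165160057641932800, -2651715390206515867545600, -43542839255258618518579200, 18362749926767485249382400], [224008260735818557440000, -208266398124696769996800, -442477824714910317772800, -56473769523553746296832000], [2263757784060020987750400, 4345324349877881501184000, 5739742400020090569676800], [4222661463556623036057600, 5368445543351899871078400], [2565814283114711898470400]])))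
    (.mul (.mul (.va 0) (.pow (.va 3) 2)) (.bp [[-11507342557978450022400, 41390058096256696934400, 257774957608024181145600, 4358078187038013802752000, 3979996643608750053273600, 29694408320143502655897600, 22915749043932725792102400], [-133851773270259170611200, 603146145073873837363200, -1054778110179000169881600, 20436931996854105813350400, -4601560908784952852582400, 2536660449781246908979200], [-1343674803073248373248000, 4671953719425201168691200, -7364131053851332827187200, 47810072632224989664000000, 40619310608646380483942400], [-6660113757881118404198400, 14333322116354086385510400, -29258270519446582519910400, 9916763707865373629184000], [-14348403891492714307123200, 17409144621710661242112000, -16075614062161778623948800], [-13326317126224228277913600, 2706878724946386830899200], [-2748536349732871040102400]])))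
    (.mul (.mul (.mul (.va 0) (.va 2)) (.va 4)) (.bp [[-22125365219129844787200, 63790365673986327244800, -576828832756424094259200, 1613271533173201302681600, -11199919912152213983846400, 10754546690636971995340800, -21760992414377099257651200], [-188998282041306071040000, 439664506838702425958400, -7435152216935786514585600, 10639865250176708526796800, -56131330930786415772518400, 16726185023415010692710400], [-1197114484163079032985600, 1665076981352810363596800, -30425194660348361716531200, 30627730788299740150272000, -50155091537233862677708800], [-5839892093089093212057600, 3703442642200986132787200, -58199623758276365557094400, 29698361004991255486156800], [-13839036035622914311372800, 3561612576258346396876800, -34918690568406083668684800], [-15101704667674050142003200, 453405364145976284928000], [-5810191977571219661414400]])))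
    (.mul (.mul (.mul (.va 0) (.va 2)) (.va 3)) (.bp [[1439499274861604198400, -18625352058277747200000, 138362148986395660646400, 1151772457256579849011200, -1957783133436907029811200, 374030551247616278784000, -3846862529236426350182400], [5267946557237587200000, -100932456745962182707200, -791427385260045120153600, 768108252645954520473600, 7188753065813118488678400, -6401757722946390209433600], [-89741085764213708236800, -767860723122862364467200, -2497193588436163160371200, -10539839847662165834035200, 488590013788059249100800], [-504009537740535520512000, -3126610409172813660672000, -1744730158905028483891200, -18936924839062845261465600], [-786218774308983771033600, -3818322583499596380364800, 28638558903446991820800], [-528495809794475612774400, -1510235733675896282880000], [-154838928617165658470400]])))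
    (.mul (.mul (.mul (.va 0) (.va 1)) (.va 4)) (.bp [[19763962280150146560000, -262755085926197111961600, 216880004656705589913600, -6296913561080520620236800, 21883229359294276627200000, -69249843545381785385164800, 35040680515046502445363200, -104076586166145956905420800], [115174978734225040588800, -1760836811326343803699200, 1996293589318766586931200, -58792547374046861402880000, 115980052143567343807180800, -265859372563939453188556800, 34865167091443770740889600], [-18085428890740500019200, -10080452768778414447206400, 12397778585472029664153600, -230067678255180738357657600, 251822936877050500720128000, -245953995848350695747072000], [244734686189428081766400, -39302735734051532509593600, 50716779000029872472217600, -413340930609029830605772800, 184668578772815073520281600], [3955268409953878372147200, -79459592129487771779635200, 71813642430422210305075200, -245087653178613970762905600], [12932695820282056766208000, -70193946138453112009420800, 46232928596957024744294400], [16072958627887457819750400,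 -17331474619724392595865600], [7673180960881036300032000]])))
    (.mul (.mul (.mul (.va 0) (.va 1)) (.va 3)) (.bp [[-22101993322380415641600, 153873437991066015436800, -1134760688518296636979200, 1595582798928374715494400, -8566003537259279642726400, 26176138338042171128678400, 7310011353349109648947200, -18821375490737915753472000], [-353035226177733401395200, 1752044450608960074086400, -13067776141466264531712000, 28472100019511843333376000, -81539694318673950334617600, 167230395266640481549209600, -17643367814984328209817600], [-3103238596992463172505600, 11521831037907519396864000, -73529731609860123548928000, 119978015304052398565785600, -169782816913821233883648000, 83044629887423872480819200], [-18864047015759327874508800, 44626872799658364705331200, -209445447372232816361779200, 206591939283235482841190400, -61236344206872630463334400], [-63188348133979995996211200, 91776542807288274724915200, -299511274935073713414451200, 61752472885865895481958400], [-108541176115892492633241600,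 86812033756362949587916800, -140498275769441122285209600], [-87247758591497484305049600, 18122511443341473539020800], [-21093755762414559187353600]])))

def mo : Ex := (.add (.add (.add (.add (.add (.add (.add (.add (.add (.add (.add (.add (.add (.mul (.pow (.va 4) 2) (.bp [[123667078180249045094400, -515617100786495190988800, 7488035730848450406297600, -18013284955608349209753600, 66537850145059466414899200, -27854461836914703249254400, 153022291506574949093068800], [1141287671803488870297600, -3733638051828559825612800, 62318153704739189101056000, -88158525478269139331020800, 220446165852931718960179200, 338715891121374346752000], [9929373513213322029772800, -19209487794186900621772800, 207803176890094796362905600, -167466317781734311842662400, 289330115925555564637132800], [43998358117230332185190400, -49867682413140322654924800, 314954837364015116711424000, -110024918870176297345075200], [95290137658439833688985600, -53573407526788537441536000, 209897362623597740602675200], [101694845643138652287744000,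 -17745130096349242529433600], [47040657752847838266316800]]))
    (.mul (.mul (.va 3) (.va 4)) (.bp [[-3802410007387890739200, 49185910182017884723200, -88572840974556734361600, 42823939149105017702400, -781693322308230822451200, 6177426399309460904294400, 522633529008735533568000], [-76182266045455224422400, 259461311411811837081600, 1220878734330832283289600, -1120137225808631095756800, -1744050834634922435174400, 9285732305533172300083200], [-596686727426213674598400, 348748211072002080614400, 7939564829920241545881600, -628284438050820428390400, 4487452435521164818944000], [-2078136993633427310745600, 1515508969559206172313600, 12225811523357446398259200, 4810162613022788551833600], [-3564301417211076213657600, 3271206726664730308915200, 6568531513402793965056000], [-2766486892270306286131200, 708767378963280058521600], [-856589146766631965952000]])))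
    (.mul (.pow (.va 3) 2) (.bp [[124157133794901821184000, -489560184535661177241600, 6816652907238221957683200, -16594475844429522268876800, 66758532731432687312179200, -31916272130982007814707200, 149462697162180513227673600], [1188550822326236564889600, -3467879131325101469337600, 59151461998297636296345600, -88163415230713002024652800, 224459818094601942079795200, -8374767386108379540940800], [10236124627406461320652800, -18010839005262433704038400, 200938602218101530719385600, -171895465320657289340313600, 291374855690672948554137600], [45027489932242127324006400, -46571052288703297865011200, 310847717765748285314611200, -111111514561067175376128000], [97213070686398576027955200, -48792512063190289978828800, 214693255735707005511321600], [103414846207553289260236800, -14485518752289192612403200], [47590432971474978020044800]])))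
    (.mul (.mul (.va 2) (.va 4)) (.bp [[75086058800052649267200, -310041472289137206220800, 4027931407045327133952000, -8937172256882241392179200, 37079447659297060320921600, -15521524841966134579200000, 76938377963102459914752000], [647810192009746338048000, -2078627726962107944755200, 32456877583302695775744000, -43138476008808157613721600, 116799028620013704005683200, -3977423792688806556825600], [5346038549778685774387200, -10427515059638710124697600, 105419172723944418386841600, -80220128782771741970534400, 149202543127584939976857600], [23466771242193404819865600, -26804478328362262237132800, 157814263324688777913600000, -54631531345121033719910400], [50658066790457796513331200, -28058364080510355074764800, 105920380432368565970688000], [53688367883416541817139200, -8620042097658065882112000], [24524203349942654488934400]])))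
    (.mul (.mul (.va 2) (.va 3)) (.bp [[2738120647591387238400, -16965091807166564352000, 80146302818837453107200, -1093759961643459501926400, 938923556423495328460800, -3257906081637101982566400, 888146726801738702284800], [23046244039627952486400, -112059646530631560345600, 616640256402487609190400, -3269039254413087399321600, -1470469786924309267968000, -4470190142090512122316800], [138854513477625763276800, -514283789623350990182400, 1625530625364926906265600, -2412793127945494856448000, -555984342228274246656000], [352895257187072326656000, -791845002551274801408000, 2002073032741510677657600, 2088174691401274722816000], [271491944748643581696000, -385035763057154539315200, 763313955937514371584000], [92521090353969508147200, -331719012559844093030400], [41101553928267140198400]])))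
    (.mul (.mul (.va 1) (.va 4)) (.bp [[-68777744717623088793600, 808962293935257743462400, -5427949949753963711385600, 35349071729297936965632000, -96632363307926534903654400, 255654393783900977708697600, -162001182215584867996569600, 607392316162440758950502400], [-533043447611702669107200, 6045117287828051884492800, -38701950165018332216524800, 271240680080049649029273600, -422284992664876655774054400, 850672251060309464046336000, -10359505045993990865356800], [-3670971023171758818816000, 45298890671788480809369600, -144917133724113786062438400, 870306118195597245779097600, -746035165987074016755148800, 1132414607968133886779904000], [-14901395165133403874918400, 189339846519491594255001600, -289390116168536593469184000, 1295438485332841272999936000, -415925799179145517384704000], [-30500228867538989423001600, 393486328229436179737804800, -274374276112438052119142400, 844295078655482417962444800], [-31323896154656245275494400, 406695455615990757991219200, -72339656191792383021004800],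 [-15267376855618801880832000, 184201828206872998543718400], [-1116342797764095128678400]])))
    (.mul (.mul (.va 1) (.va 3)) (.bp [[113544283806315671961600, -478347634608049981900800, 6674577067288964389017600, -15118890687354993819955200, 61858495207656475454361600, -26148719549598734523340800, 151617907227132431572838400, 4617434868065849029939200], [1502172341440654475980800, -5714555313382828648704000, 85833894292001896900147200, -144063380280645364858214400, 465371146512426293293363200, -123362064550444479845990400, 610483337327851032680755200], [13906338363826319270707200, -33608071640060127371520000, 437674317090929050911436800, -488592370710777012723763200, 1140724115255326004430796800, -26948603567416517622835200], [83396522256528785399654400, -124014573269096181711667200, 1119782273583382419985920000, -749504070740405143714406400, 1147371099125004301925376000], [275104180575696695906764800, -242853945117498194137804800, 1467563672256140059304140800, -415517971413533619314073600],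 [492171200328302296653772800, -214766524725459006415564800, 858085191520550550820454400], [461912125802274339116544000, -60126386682884680815667200], [190512843550826685832396800]])))
    (.mul (.mul (.va 0) (.pow (.va 4) 2)) (.bp [[-65938246315620105830400, 287414568906208661606400, -4100757062236599663360000, 9875805461707641167462400, -36276066110282940179251200, 14856948733269548094566400, -84180374641269681860044800], [-620615233817720751052800, 2067957988780489479014400, -34317875682371057210265600, 48041084433419607704371200, -120137851730029928472576000, -548338984747310394777600], [-5401857329332379359948800, 10537341221637632294553600, -114252087266259862996684800, 91074978952671849997824000, -158657743449174422263910400], [-23981654364020166800332800, 27450777351621204699494400, -173330752924652617675468800, 59924059949310421313894400], [-52089317817670988619724800, 29743580597066465450342400, -115601337738187620671692800], [-55785668905393676093030400, 9984779978097660228864000],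 [-25876360934298197902080000]])))
    (.mul (.mul (.mul (.va 0) (.va 3)) (.va 4)) (.bp [[-59330294548210022400, -27312648041354999961600, 53784541336712726937600, 99518809190109709363200, 447532610958675925401600, -2681077998887580820377600, -48556818334487109427200], [40629920140865300428800, -88628444885931373670400, -866672189164974644582400, 630401597450066233036800, 1192212145057544330342400, -5638122024791297124096000], [393848969690194992691200, 215371868016795907276800, -5420184398253615858739200, -1034778316534861723545600, -2081604403992433260441600], [1412636343211772674560000, 131209424254530695116800, -8308715822662144038451200, -3789852668316148559155200], [2388798794808016670822400, -808714063297073072793600, -4439846467085709300019200], [1795637938562962666444800, -875656237997088921600], [518701893336416865024000]])))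
    (.mul (.mul (.va 0) (.pow (.va 3) 2)) (.bp [[-65817541588265505331200, 273818293091972515123200, -3604211792497511591270400, 8964125088207414726297600, -36568889526648078773452800, 17417366649566394435072000, -81892283588312370032793600], [-641315369255035590144000, 1932069707849806727270400, -31993305720413961651148800, 48496039536128909195059200, -122426003250025501395916800, 4930182950976974480486400], [-5567924340450540514713600, 9823762886205634170163200, -109545890109413085734860800, 94882083231160461940531200, -158764878222633788595609600], [-24556851852733494254131200, 25160711264128841135155200, -170351050622718570124953600, 61387869320045175439411200], [-53086955135862362213376000, 26270953476564248196249600, -118084468241162526925363200], [-56551955038572482024140800, 7805029851920333240524800], [-26065867394335112688384000]])))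
    (.mul (.mul (.mul (.va 0) (.va 2)) (.va 4)) (.bp [[-43571883451388075366400, 176289661860097762713600, -2323048767240697149081600, 5129855758407540446208000, -21758779262279541332275200, 9509080554380991961958400, -46109135500068879054028800], [-366058921776195509452800, 1206265526805017963059200, -19246438010492061058713600, 25583477462918790697267200, -69972612721818621525504000, 2198093586126585581721600], [-3142981411079388720537600, 6135460754942612647526400, -63855138189378236967936000, 48474836597740086095155200, -89754713851106179542988800], [-14037322926680686657382400, 15720308729640578409984000, -95714293852429622097408000, 33175643148050469589094400], [-30471421297431000079872000, 16336241376354732387225600, -63621836307791589913344000], [-32289596405544277451980800, 5031856243859407053465600], [-14731667485267247642419200]])))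
    (.mul (.mul (.mul (.va 0) (.va 2)) (.va 3)) (.bp [[771964088703858432000, -8234295399663928012800, -30613978105377025536000, 558067331509665165619200, -162913812680007461376000, 1480187400496612305408000, -864280483013881580083200], [-11870155374218373888000, -119142238552825711104000, -127275684405874655846400, 1964853686581845884928000, 1645664519772702020505600, 3040661907881789733273600], [-101626241897341908633600, -268522005761836448716800, -615032166594993031526400, 1728867160470337088256000, 697565646427321663948800], [-266557850681067881625600, -361127264978429844480000, -1147623651667104275865600, -1231392591362246011084800], [-217934905595483842560000, -501656502538012288665600, -628374620205982539878400], [-77928386614500472012800, -116730246063152168294400], [-25348375521958462617600]])))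
    (.mul (.mul (.mul (.va 0) (.va 1)) (.va 4)) (.bp [[38596563215348823705600, -408666100271165650022400, 2803308625253881261670400, -18509714535601329049497600, 54984559362834026016000000, -140338761266672258590310400, 91289620056126143713075200, -333230462976681678771763200], [300336538990230236620800, -3348396052299810127872000, 21348300477932260841779200, -145763919003075015273062400, 233978472670390588652544000, -469676645750082223220889600, 6602704973143084160409600], [2037577942607437849190400, -25486117052782693385318400, 82825100623503850650163200, -476819016752403172898150400, 410166131505595415059046400, -625394401499453889513369600], [8196338195295541344921600, -104310669855426397949952000, 167457704794837921352908800, -713581123981069774849075200, 227335248430657482018816000], [16848058452939427968921600, -212519164391898848099481600, 158453870324027992133990400, -463844188894193015134003200], [17404586442674958779596800, -217338218662669318242662400, 40508760952806434250393600],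 [8228720397572036651059200, -98543694863467064293171200], [305945593699687782451200]])))
    (.mul (.mul (.mul (.va 0) (.va 1)) (.va 3)) (.bp [[-61497816821569094860800, 285643776614062335897600, -3079643734722637784678400, 6815044973152401113088000, -29411349846722202409574400, 11681473537176990375628800, -78372046483563644093030400, -2917509001306842460723200], [-792095863953485070028800, 3362460439649969003673600, -42499990450958325524582400, 72291688362167072979456000, -241890653804790767614617600, 61728160615100722625126400, -337622912559521846248550400], [-7136007048520591644979200, 18883090475892674676633600, -226957154281137129718425600, 255316258303710940318924800, -613495645699392170976153600, 9814900979495341682380800], [-43591451189454942894489600, 68288814484208604904550400, -599407241473456323070464000, 404851137876891150546585600, -633931702344260880493824000], [-147070411233335083783987200, 133653605884058377465344000, -798788007486422349251328000, 229955723021620814058547200],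 [-267306866680673249452800000, 118067593399464379575859200, -472964336891060060224051200], [-253330458748060603296153600, 32601035711421283030272000], [-105274618157117505601843200]])))

end Pool.Agent.Helper9.CKD.E3

end

section

namespace Pool.Agent.Helper39.Area
end Pool.Agent.Helper39.Area
namespace Pool.Agent.Helper52.EK
end Pool.Agent.Helper52.EK
namespace Pool.Agent.Helper69.EK3
end Pool.Agent.Helper69.EK3

set_option autoImplicit false

open Complex MeasureTheory Metric Set

open scoped Real ComplexConjugate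

namespace Pool.Agent.Helper84.CB

open Pool.Agent.Helper39.Area Pool.Agent.Helper52.EK Pool.Agent.Helper69.EK3

/-- the centre condition for a function `E` of `X` -/
def CenE (E : ℂ → ℝ) : Prop :=
  ∃ (Q : ℂ → ℂ → ℂ → ℝ) (Wc : ℂ → ℂ → ℝ),
    (∀ X q b : ℂ, RegQ X q b → 0 ≤ Q X q b) ∧
    (LocallyLipschitz fun p : ℂ × ℂ × ℂ => Q p.1 p.2.1 p.2.2) ∧
    (Continuous fun p : ℂ × ℂ => Wc p.1 p.2) ∧
    ∀ (x q : ℝ → ℂ) (b : ℂ) (ξ : ℝ), HasDerivAt x (x ξ * q ξ) ξ →
      HasDerivAt q ((3 * b - 1 + x ξ ^ 2) / 2 - q ξ ^ 2 / 4) ξ →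
      HasDerivAt (fun t : ℝ => Wc (x t) (q t)) (E (x ξ) - Q (x ξ) (q ξ) b) ξ

/-- a `C¹` function of a complex variable -/
theorem C1f.contDiff {W Wx Wy : ℂ → ℝ} (h : C1f W Wx Wy) : ContDiff ℝ 1 W := by
  rw [contDiff_one_iff_hasFDerivAt]
  exact ⟨fun X => Wx X • reCLM + Wy X • imCLM,
    (h.cx.smul continuous_const).add (h.cy.smul continuous_const), h.hd⟩

theorem ll_add {Q Q' : ℂ → ℂ → ℂ → ℝ} (h : LocallyLipschitz fun p : ℂ × ℂ × ℂ => Q p.1 p.2.1 p.2.2)
    (h' : LocallyLipschitz fun p : ℂ × ℂ × ℂ => Q' p.1 p.2.1 p.2.2) :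
    LocallyLipschitz fun p : ℂ × ℂ × ℂ => Q p.1 p.2.1 p.2.2 + Q' p.1 p.2.1 p.2.2 := by
  intro x
  obtain ⟨K, t, ht, hK⟩ := h x
  obtain ⟨K', t', ht', hK'⟩ := h' x
  refine ⟨K + K', t ∩ t', Filter.inter_mem ht ht', ?_⟩
  exact (hK.mono inter_subset_left).add (hK'.mono inter_subset_right)

/-- adding a function which is nonnegative on the unit disc -/
theorem CenE.add {E₀ E F Fx Fy : ℂ → ℝ} (h : CenE E₀) (hF : C1f F Fx Fy)
    (hE : ∀ X, E X = E₀ X + F X) (hp : ∀ X : ℂ, ‖X‖ ≤ 1 → 0 ≤ F X) : CenE E := by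
  obtain ⟨Q, Wc, h1, h2, h3, h4⟩ := h
  refine ⟨fun X q b => Q X q b + F X, Wc, fun X q b hR => add_nonneg (h1 X q b hR)
    (hp X hR.le), ?_, h3, fun x q b ξ hx hq => ?_⟩
  · refine ll_add h2 (Q' := fun X _ _ => F X) ?_
    have h5 : ContDiff ℝ 1 fun p : ℂ × ℂ × ℂ => F p.1 := (C1f.contDiff hF).comp contDiff_fst
    exact h5.locallyLipschitz
  · refine (h4 x q b ξ hx hq).congr_deriv ?_
    rw [hE]
    ring

/-- functions which are nonnegative on the unit disc -/
theorem CenE.of_pos {E Ex Ey : ℂ → ℝ} (hE : C1f E Ex Ey) (hp : ∀ X : ℂ, ‖X‖ ≤ 1 → 0 ≤ E X) :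
    CenE E := by
  have h5 : ContDiff ℝ 1 fun p : ℂ × ℂ × ℂ => E p.1 := (C1f.contDiff hE).comp contDiff_fst
  refine ⟨fun X _ _ => E X, fun _ _ => 0, fun X q b hR => hp X hR.le,
    h5.locallyLipschitz, continuous_const, fun x q b ξ _ _ => ?_⟩
  rw [sub_self]
  exact hasDerivAt_const _ _

theorem CenE.const_mul {E : ℂ → ℝ} (h : CenE E) {c : ℝ} (hc : 0 ≤ c) : CenE fun X => c * E X := by
  obtain ⟨Q, Wc, h1, h2, h3, h4⟩ := h
  refine ⟨fun X q b => c * Q X q b, fun X q => c * Wc X q, fun X q b hR =>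
    mul_nonneg hc (h1 X q b hR), ?_, continuous_const.mul h3, fun x q b ξ hx hq => ?_⟩
  · intro x
    obtain ⟨K, t, ht, hK⟩ := h2 x
    refine ⟨‖c‖₊ * K, t, ht, ?_⟩
    intro u hu v hv
    have h5 := hK hu hv
    have e : edist (c * Q u.1 u.2.1 u.2.2) (c * Q v.1 v.2.1 v.2.2) =
        (‖c‖₊ : ENNReal) * edist (Q u.1 u.2.1 u.2.2) (Q v.1 v.2.1 v.2.2) := by
      rw [← smul_eq_mul, ← smul_eq_mul, edist_smul₀]
      rfl
    simp only
    rw [e]
    calc (‖c‖₊ : ENNReal) * edist (Q u.1 u.2.1 u.2.2) (Q v.1 v.2.1 v.2.2) ≤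
          (‖c‖₊ : ENNReal) * (K * edist u v) := by (clear * - h5; gcongr)
      _ = _ := by rw [ENNReal.coe_mul, mul_assoc]
  · refine ((h4 x q b ξ hx hq).const_mul c).congr_deriv ?_
    ring

end Pool.Agent.Helper84.CB

end

section

namespace Pool.EK71
end Pool.EK71
namespace Pool.Agent.Helper71.CK
end Pool.Agent.Helper71.CK
namespace Pool.Agent.Helper69.EK3
end Pool.Agent.Helper69.EK3
namespace Pool.Agent.Helper20.EK7
end Pool.Agent.Helper20.EK7

/-!
# Project CK: bound of the multiplier, checked by the kernel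

`mchk true/false ...`: `|MS L l m| ≤ (Bn / Bd) M` for `l = sg (1 - |m|²) r / ρ(m)`,
`ρ(m) = r0 + r1 |m+1|² + r2 |m|²`, on `|m| ≤ 1` and on `1 ≤ |m|`, `|m + 3| ≤ 4`.
-/

set_option autoImplicit false

open Complex

open scoped ComplexConjugate

namespace Pool.Agent.Helper20.CK

open Pool.EK71

open Pool.Agent.Helper71.CK (MS Mq)

open Pool.Agent.Helper69.EK3 (rF rF_eq re_sq_le)

open Pool.Agent.Helper69.EK3 (imul_cast' iadd_cast')

open Pool.Agent.Helper20.EK7 (InL OutL)

/-- `P ^ n` -/
def pw (P : BP) : ℕ → BP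
  | 0 => [[1]]
  | n + 1 => mu2 P (pw P n)

theorem ev2_pw (x y : ℝ) (P : BP) (n : ℕ) : ev2 x y (pw P n) = ev2 x y P ^ n := by
  induction n with
  | zero => simp [pw, ev2, ev1]
  | succ n ih => rw [pw, ev2_mu, ih, pow_succ]; ring

/-- `w ρ`, in the variables `w x`, `w s` -/
def rh (w r0 r1 r2 : ℤ) : BP :=
  [[Int.mul (Int.add r0 r1) w, Int.add r1 r2], [Int.mul 2 r1]]

/-- `w sg r (1 - s)` -/
def om (w sg r : ℤ) : BP := [[Int.mul (Int.mul sg r) w, Int.neg (Int.mul sg r)]]

/-- the coefficient of `(conj m)^j`, times `(w ρ)^N` -/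
def pj (R O : BP) (N j : ℕ) : List (ℕ × ℕ × ℤ) → BP
  | [] => []
  | t :: L => ad2 (cond (Nat.beq t.2.1 j) (sm2 t.2.2 (mu2 (pw O t.1) (pw R (N - t.1)))) [])
      (pj R O N j L)

/-- `w x` -/
def bX : BP := [[], [1]]

/-- `w s` -/
def bS : BP := [[0, 1]]

/-- a constant -/
def bC (w : ℤ) : BP := [[w]]

/-- `|p0 + p1 conj m + p2 (conj m)²|²`, homogenized with degree two -/
def nq (w : ℤ) (A B C : BP) : BP :=
  ad2 (ad2 (mu2 (bC (Int.mul w w)) (mu2 A A)) (ad2 (mu2 (mu2 (bC w) bS) (mu2 B B))
      (mu2 (mu2 bS bS) (mu2 C C))))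
    (sm2 2 (ad2 (mu2 (mu2 (bC w) bX) (mu2 A B)) (ad2 (mu2 (mu2 bX bS) (mu2 B C))
      (mu2 (ad2 (sm2 2 (mu2 bX bX)) (sm2 (-1) (mu2 (bC w) bS))) (mu2 A C)))))

/-- the polynomial of the condition -/
def mF (w sg r r0 r1 r2 M Bn Bd : ℤ) (N : ℕ) (L : List (ℕ × ℕ × ℤ)) : BP :=
  ad2 (sm2 (Int.mul (Int.mul (Int.mul Bn M) (Int.mul Bn M)) (Int.mul w w))
      (pw (rh w r0 r1 r2) (2 * N)))
    (sm2 (Int.neg (Int.mul Bd Bd))
      (nq w (pj (rh w r0 r1 r2) (om w sg r) N 0 L) (pj (rh w r0 r1 r2) (om w sg r) N 1 L)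
        (pj (rh w r0 r1 r2) (om w sg r) N 2 L)))

/-- `w² (s - x²)` -/
def gS (w : ℤ) : BP := [[0, w], [], [-1]]

/-- `w (7 - s - 6 x)` -/
def g7 (w : ℤ) : BP := [[Int.mul 7 w, -1], [-6]]

def degs (N : ℕ) : List (ℕ × ℕ × ℤ) → Bool
  | [] => true
  | t :: L => and (and (Nat.ble t.1 N) (Nat.ble t.2.1 2)) (degs N L)

/-- the check, resolution `2k`, degree `N` in `l`, depth `n` -/
def mchk (inn : Bool) (k : ℕ) (n N : ℕ) (sg r r0 r1 r2 M Bn Bd : ℤ)
    (L : List (ℕ × ℕ × ℤ)) : Bool :=
  and (degs N L) (cond inn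
    (bx (mF (Int.ofNat (Nat.mul 2 k)) sg r r0 r1 r2 M Bn Bd N L)
      [gS (Int.ofNat (Nat.mul 2 k))] n 0 (Nat.mul 2 k) (Int.ofNat k) k)
    (bx (mF (Int.ofNat (Nat.mul 2 k)) sg r r0 r1 r2 M Bn Bd N L)
      [gS (Int.ofNat (Nat.mul 2 k)), g7 (Int.ofNat (Nat.mul 2 k))] n
      (Int.mul (-6) (Int.ofNat k)) (Nat.mul 8 k) (Int.ofNat (Nat.mul 50 k)) (Nat.mul 48 k)))

/-- `∑ c lⁿ` over the terms with `(conj m)^j` -/
noncomputable def sj (l : ℝ) (j : ℕ) (L : List (ℕ × ℕ × ℤ)) : ℝ :=
  (L.map fun t => if t.2.1 = j then (t.2.2 : ℝ) * l ^ t.1 else 0).sum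

theorem MS_sj {L : List (ℕ × ℕ × ℤ)} (hL : ∀ t ∈ L, t.2.1 ≤ 2) (l : ℝ) (m : ℂ) :
    MS L l m = (sj l 0 L : ℂ) + (sj l 1 L : ℂ) * conj m + (sj l 2 L : ℂ) * conj m ^ 2 := by
  unfold MS sj
  induction L with
  | nil => simp
  | cons t L ih =>
    rw [List.map_cons, List.sum_cons, ih fun s hs => hL s (List.mem_cons_of_mem _ hs)]
    simp only [List.map_cons, List.sum_cons]
    have h := hL t List.mem_cons_self
    obtain ⟨n, j, c⟩ := t
    simp only at h ⊢
    interval_cases j
    · simp
      ring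
    · simp
      ring
    · simp
      ring

theorem norm_sq_quad (a b c : ℝ) (m : ℂ) :
    ‖(a : ℂ) + (b : ℂ) * conj m + (c : ℂ) * conj m ^ 2‖ ^ 2 =
      a ^ 2 + b ^ 2 * ‖m‖ ^ 2 + c ^ 2 * (‖m‖ ^ 2) ^ 2 + 2 * (a * b * m.re) +
        2 * (b * c * (m.re * ‖m‖ ^ 2)) + 2 * (a * c * (2 * m.re ^ 2 - ‖m‖ ^ 2)) := by
  rw [← normSq_eq_norm_sq, ← normSq_eq_norm_sq, normSq_apply, normSq_apply]
  simp only [pow_two, add_re, add_im, mul_re, mul_im, ofReal_re, ofReal_im, conj_re, conj_im]
  ring

section

variable {w r r0 r1 r2 : ℤ} {sg : ℤ} {x s ρ l : ℝ} {N : ℕ}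

theorem ev_rh (w r0 r1 r2 : ℤ) (x s : ℝ) : ev2 (w * x) (w * s) (rh w r0 r1 r2) =
    w * ((r0 + r1 : ℝ) + 2 * r1 * x + (r1 + r2) * s) := by
  simp only [rh, ev2, ev1, imul_cast', iadd_cast']
  push_cast
  ring

theorem ev_om (w sg r : ℤ) (x s : ℝ) : ev2 (w * x) (w * s) (om w sg r) =
    w * (sg * r * (1 - s)) := by
  have e3 : ((Int.neg (Int.mul sg r) : ℤ) : ℝ) = - (sg * r) := by
    show (((-(sg * r) : ℤ)) : ℝ) = _
    push_cast
    ring
  simp only [om, ev2, ev1, imul_cast', e3]
  ring

theorem ev_pj {w sg r r0 r1 r2 : ℤ} {x s ρ l : ℝ} {N : ℕ}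
    (hρ : ρ = (r0 + r1 : ℝ) + 2 * r1 * x + (r1 + r2) * s) (hl : l * ρ = sg * r * (1 - s))
    (j : ℕ) (L : List (ℕ × ℕ × ℤ)) (hL : ∀ t ∈ L, t.1 ≤ N) :
    ev2 (w * x) (w * s) (pj (rh w r0 r1 r2) (om w sg r) N j L) =
      (w * ρ) ^ N * sj l j L := by
  induction L with
  | nil => simp [pj, ev2, sj]
  | cons t L ih =>
    have ih' := ih fun q hq => hL q (List.mem_cons_of_mem _ hq)
    have hn := hL t List.mem_cons_self
    have e : sj l j (t :: L) = (if t.2.1 = j then (t.2.2 : ℝ) * l ^ t.1 else 0) + sj l j L := by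
      simp [sj]
    rw [pj, ev2_ad, ih', e]
    by_cases h : t.2.1 = j
    · have hb : Nat.beq t.2.1 j = true := by rw [h]; exact Nat.beq_refl j
      rw [hb, cond_true, if_pos h, ev2_sm, ev2_mu, ev2_pw, ev2_pw, ev_rh, ev_om, ← hρ, ← hl]
      have e2 : (w * ρ) ^ N = (w * ρ) ^ t.1 * (w * ρ) ^ (N - t.1) := by
        rw [← pow_add]
        congr 1
        omega
      rw [e2]
      ring
    · have hb : Nat.beq t.2.1 j = false := by
        rw [Bool.eq_false_iff]
        intro h2
        exact h (Nat.eq_of_beq_eq_true h2)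
      rw [hb, cond_false, if_neg h]
      simp only [ev2]
      ring

theorem ev_nq (w : ℤ) (A B C : BP) (x s : ℝ) : ev2 (w * x) (w * s) (nq w A B C) =
    w ^ 2 * (ev2 (w * x) (w * s) A ^ 2 + ev2 (w * x) (w * s) B ^ 2 * s +
      ev2 (w * x) (w * s) C ^ 2 * s ^ 2 +
      2 * (ev2 (w * x) (w * s) A * ev2 (w * x) (w * s) B * x) +
      2 * (ev2 (w * x) (w * s) B * ev2 (w * x) (w * s) C * (x * s)) +
      2 * (ev2 (w * x) (w * s) A * ev2 (w * x) (w * s) C * (2 * x ^ 2 - s))) := by
  unfold nq
  simp only [ev2_ad, ev2_sm, ev2_mu]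
  have e1 : ev2 (w * x) (w * s) (bC (Int.mul w w)) = w * w := by
    simp [bC, ev2, ev1]
  have e2 : ev2 (w * x) (w * s) (bC w) = w := by simp [bC, ev2, ev1]
  have e3 : ev2 (w * x) (w * s) bX = w * x := by simp [bX, ev2, ev1]
  have e4 : ev2 (w * x) (w * s) bS = w * s := by simp [bS, ev2, ev1]
  rw [e1, e2, e3, e4]
  push_cast
  ring

theorem ev_mF {w sg r r0 r1 r2 M Bn Bd : ℤ} {x s ρ l : ℝ} {N : ℕ}
    (hρ : ρ = (r0 + r1 : ℝ) + 2 * r1 * x + (r1 + r2) * s) (hl : l * ρ = sg * r * (1 - s))
    {L : List (ℕ × ℕ × ℤ)} (hL : ∀ t ∈ L, t.1 ≤ N) :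
    ev2 (w * x) (w * s) (mF w sg r r0 r1 r2 M Bn Bd N L) =
      w ^ 2 * ((w * ρ) ^ N) ^ 2 * ((Bn * M) ^ 2 - Bd ^ 2 *
        (sj l 0 L ^ 2 + sj l 1 L ^ 2 * s + sj l 2 L ^ 2 * s ^ 2 +
          2 * (sj l 0 L * sj l 1 L * x) + 2 * (sj l 1 L * sj l 2 L * (x * s)) +
          2 * (sj l 0 L * sj l 2 L * (2 * x ^ 2 - s)))) := by
  unfold mF
  have e3 : ((Int.neg (Int.mul Bd Bd) : ℤ) : ℝ) = - (Bd * Bd) := by
    show (((-(Bd * Bd) : ℤ)) : ℝ) = _
    push_cast
    ring
  rw [ev2_ad, ev2_sm, ev2_sm, ev2_pw, ev_rh, ev_nq, ev_pj hρ hl 0 L hL, ev_pj hρ hl 1 L hL,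
    ev_pj hρ hl 2 L hL, ← hρ, e3]
  simp only [imul_cast']
  rw [pow_mul']
  ring

end

theorem degs_iff {N : ℕ} {L : List (ℕ × ℕ × ℤ)} (h : degs N L = true) :
    (∀ t ∈ L, t.1 ≤ N) ∧ ∀ t ∈ L, t.2.1 ≤ 2 := by
  induction L with
  | nil => simp
  | cons t L ih =>
    simp only [degs, Bool.and_eq_true, Nat.ble_eq] at h
    obtain ⟨⟨h1, h2⟩, h3⟩ := h
    obtain ⟨k1, k2⟩ := ih h3
    exact ⟨by intro q hq; rcases List.mem_cons.1 hq with rfl | hq <;> [exact h1; exact k1 q hq],
      by intro q hq; rcases List.mem_cons.1 hq with rfl | hq <;> [exact h2; exact k2 q hq]⟩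

theorem nmul_cast (a b : ℕ) : ((Nat.mul a b : ℕ) : ℝ) = a * b := by
  show (((a * b : ℕ)) : ℝ) = _
  push_cast
  ring

theorem zof_cast (a : ℕ) : ((Int.ofNat a : ℤ) : ℝ) = a := by simp

/-- **the bound** from the checker -/
theorem MS_le {inn : Bool} {k n N : ℕ} {sg r r0 r1 r2 M Bn Bd : ℤ}
    {L : List (ℕ × ℕ × ℤ)} (h : mchk inn k n N sg r r0 r1 r2 M Bn Bd L = true) (hk : 0 < k)
    (hM : 0 < M) (hBn : 0 ≤ Bn) (hBd : 0 < Bd) {m : ℂ}
    (hm : (inn = true ∧ ‖m‖ ≤ 1) ∨ (inn = false ∧ 1 ≤ ‖m‖ ∧ ‖m + 3‖ ≤ 4)) {l ρ : ℝ}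
    (hρ : ρ = (r0 + r1 : ℝ) + 2 * r1 * m.re + (r1 + r2) * ‖m‖ ^ 2) (hρ0 : ρ ≠ 0)
    (hl : l * ρ = sg * r * (1 - ‖m‖ ^ 2)) :
    ‖MS L l m / (M : ℂ)‖ ≤ (Bn : ℝ) / Bd := by
  rw [mchk, Bool.and_eq_true] at h
  obtain ⟨hd, h⟩ := h
  obtain ⟨d1, d2⟩ := degs_iff hd
  obtain ⟨w, hw⟩ : ∃ w : ℤ, w = Int.ofNat (Nat.mul 2 k) := ⟨_, rfl⟩
  have hwr : (w : ℝ) = 2 * k := by rw [hw, zof_cast, nmul_cast, Nat.cast_ofNat]
  have hk0 : (0:ℝ) < k := by exact_mod_cast hk
  have hw0 : (0:ℝ) < w := by rw [hwr]; positivity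
  rw [← hw] at h
  have hs := re_sq_le m
  obtain ⟨s, hs'⟩ : ∃ s : ℝ, s = ‖m‖ ^ 2 := ⟨_, rfl⟩
  obtain ⟨x, hx'⟩ : ∃ x : ℝ, x = m.re := ⟨_, rfl⟩
  have hgS : 0 ≤ ev2 (w * x) (w * s) (gS w) := by
    simp only [gS, ev2, ev1]
    push_cast
    have : (w:ℝ) * s * (w + w * s * 0) + w * x * (0 + w * x * (-1 + w * s * 0 + w * x * 0)) =
        w ^ 2 * (s - x ^ 2) := by ring
    have h2 : 0 ≤ (w:ℝ) ^ 2 * (s - x ^ 2) := by
      rw [hs', hx']
      exact mul_nonneg (sq_nonneg _) (sub_nonneg.2 hs)
    (clear * - h2; linarith only [h2])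
  have key : 0 < ev2 (w * x) (w * s) (mF w sg r r0 r1 r2 M Bn Bd N L) := by
    rcases hm with ⟨hi, hm⟩ | ⟨hi, hm, hm3⟩
    · rw [hi, cond_true] at h
      refine bx_sound (G := [gS w]) (by simpa using hgS) n _ _ _ _ h ?_ ?_
      · rw [Int.cast_zero, sub_zero, nmul_cast, abs_mul, abs_of_pos hw0, hwr, hx']
        have := (Complex.abs_re_le_norm m).trans hm
        push_cast
        nlinarith only [this]
      · have h1 : s ≤ 1 := by rw [hs']; (clear * - hm; nlinarith only [norm_nonneg m, hm])
        have h0 : 0 ≤ s := by rw [hs']; (clear * -; positivity)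
        rw [zof_cast, hwr, abs_le]
        constructor <;> (clear * - h0 h1; nlinarith only [h0, h1])
    · rw [hi, cond_false] at h
      have e3 : ‖m + 3‖ ^ 2 = s + 6 * x + 9 := by
        rw [hs', hx', ← normSq_eq_norm_sq, ← normSq_eq_norm_sq, normSq_apply, normSq_apply]
        simp only [add_re, add_im, re_ofNat, im_ofNat]
        ring
      have e4 : s + 6 * x ≤ 7 := by
        have : ‖m + 3‖ ^ 2 ≤ 16 := by (clear * - hm3; nlinarith only [norm_nonneg (m + 3), hm3])
        linarith only [e3, this]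
      have h1 : 1 ≤ s := by rw [hs']; nlinarith only [hm]
      rw [← hs', ← hx'] at hs
      have hx1 : x ≤ 1 := by linarith only [e4, h1]
      have hx7 : -7 ≤ x := by nlinarith only [hs, e4]
      have hs49 : s ≤ 49 := by linarith only [e4, hx7]
      have hg7 : 0 ≤ ev2 (w * x) (w * s) (g7 w) := by
        simp only [g7, ev2, ev1, imul_cast']
        push_cast
        have : (0:ℝ) ≤ w * (7 - s - 6 * x) := mul_nonneg hw0.le (by (clear * - e4; linarith only [e4]))
        linarith only [this]
      refine bx_sound (G := [gS w, g7 w]) (by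
        intro g hg
        simp only [List.mem_cons, List.not_mem_nil, or_false] at hg
        rcases hg with rfl | rfl
        · exact hgS
        · exact hg7) n _ _ _ _ h ?_ ?_
      · rw [imul_cast', zof_cast, nmul_cast, hwr, abs_le]
        push_cast
        constructor <;> (clear * - hx7 hx1; nlinarith only [hx7, hx1])
      · rw [zof_cast, nmul_cast, nmul_cast, hwr, abs_le]
        push_cast
        constructor <;> nlinarith only [h1, hs49]
  rw [← hs', ← hx'] at hρ
  rw [← hs'] at hl
  rw [ev_mF hρ hl d1] at key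
  have h5 : 0 < (w:ℝ) ^ 2 * ((w * ρ) ^ N) ^ 2 := by (clear * - hw0 hρ0; positivity)
  have h6 := (mul_pos_iff_of_pos_left h5).1 key
  have h7 := norm_sq_quad (sj l 0 L) (sj l 1 L) (sj l 2 L) m
  rw [← MS_sj d2 l m, ← hs', ← hx'] at h7
  have hM0 : (0:ℝ) < M := by exact_mod_cast hM
  have hB0 : (0:ℝ) < Bd := by exact_mod_cast hBd
  have hBn0 : (0:ℝ) ≤ Bn := by exact_mod_cast hBn
  have h8 : (Bd * ‖MS L l m‖) ^ 2 ≤ (Bn * M : ℝ) ^ 2 := by
    rw [mul_pow, h7]
    (clear * - h6; linarith only [h6])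
  have h9 : (Bd : ℝ) * ‖MS L l m‖ ≤ Bn * M :=
    le_of_sq_le_sq h8 (mul_nonneg hBn0 hM0.le)
  rw [norm_div, norm_intCast, abs_of_pos hM0, div_le_div_iff₀ hM0 hB0]
  linarith only [h9]

/-- the parameters of one side are the rationals `ri / r` -/
structure ROk (r r0 r1 r2 : ℤ) (p0 p1 p2 : ℝ) : Prop where
  pos : 0 < r
  e0 : (r0 : ℝ) = r * p0
  e1 : (r1 : ℝ) = r * p1
  e2 : (r2 : ℝ) = r * p2

/-- **the bound of the multiplier** -/
theorem Mq_le {a p0 p1 p2 q0 q1 q2 : ℝ} (hp : InL p0 p1 p2) (hq : OutL a q0 q1 q2)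
    {r r0 r1 r2 r' r0' r1' r2' : ℤ} (hr : ROk r r0 r1 r2 p0 p1 p2)
    (hr' : ROk r' r0' r1' r2' q0 q1 q2) {k n N k' n' N' : ℕ} {M Bn Bd : ℤ}
    {MI MO : List (ℕ × ℕ × ℤ)} (hk : 0 < k) (hk' : 0 < k') (hM : 0 < M) (hBn : 0 ≤ Bn)
    (hBd : 0 < Bd) (h : mchk true k n N 1 r r0 r1 r2 M Bn Bd MI = true)
    (h' : mchk false k' n' N' (-1) r' r0' r1' r2' M Bn Bd MO = true) {m : ℂ}
    (hm : ‖m + 3‖ ≤ 4) : ‖Mq M MI MO p0 p1 p2 q0 q1 q2 m‖ ≤ (Bn : ℝ) / Bd := by
  unfold Mq
  split_ifs with h1
  · obtain ⟨c, hc, hl⟩ := hp.low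
    have hr0 : (0:ℝ) < r := by exact_mod_cast hr.pos
    have h2 : 0 < rF p0 p1 p2 m := lt_of_lt_of_le (by (clear * - hc; positivity)) (hl m h1)
    refine MS_le h hk hM hBn hBd (Or.inl ⟨rfl, h1⟩) (ρ := r * rF p0 p1 p2 m) ?_
      (mul_pos hr0 h2).ne' ?_
    · rw [rF_eq, hr.e0, hr.e1, hr.e2]
      ring
    · push_cast
      field_simp
  · have h1' : 1 ≤ ‖m‖ := (not_le.1 h1).le
    obtain ⟨c, hc, hl⟩ := hq.low
    have hr0 : (0:ℝ) < r' := by exact_mod_cast hr'.pos
    have h2 : 0 < rF q0 q1 q2 m := lt_of_lt_of_le (by (clear * - hc h1'; positivity)) (hl m)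
    refine MS_le h' hk' hM hBn hBd (Or.inr ⟨rfl, h1', hm⟩) (ρ := r' * rF q0 q1 q2 m) ?_
      (mul_pos hr0 h2).ne' ?_
    · rw [rF_eq, hr'.e0, hr'.e1, hr'.e2]
      ring
    · push_cast
      field_simp
      ring

end Pool.Agent.Helper20.CK

end

section

namespace Pool.EK71
end Pool.EK71
namespace Pool.Agent.Helper71.CK
end Pool.Agent.Helper71.CK
namespace Pool.Agent.Helper69.EK3
end Pool.Agent.Helper69.EK3
namespace Pool.Agent.Helper69.EK7
end Pool.Agent.Helper69.EK7
namespace Pool.Agent.Helper20.EK7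
end Pool.Agent.Helper20.EK7

/-!
# Project CK: the global multiplier

`Mg = Mq ∘ p4`, `p4` the retraction to the disc `|m + 3| ≤ 4`.
-/

set_option autoImplicit false

open Complex Metric Set

open scoped ComplexConjugate

namespace Pool.Agent.Helper20.CK

open Pool.EK71

open Pool.Agent.Helper71.CK (MS Mq MS_conj MS_zero Mq_conj)

open Pool.Agent.Helper69.EK3 (rF rF_eq exists_cross)

open Pool.Agent.Helper69.EK7

open Pool.Agent.Helper20.EK7

/-- bounded and Lipschitz on `S` -/
def BLi (S : Set ℂ) (f : ℂ → ℂ) : Prop :=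
  ∃ C : ℝ, 0 ≤ C ∧ (∀ m ∈ S, ‖f m‖ ≤ C) ∧ ∀ m ∈ S, ∀ m' ∈ S, ‖f m - f m'‖ ≤ C * ‖m - m'‖

variable {S : Set ℂ} {f g : ℂ → ℂ}

theorem BLi.congr (h : BLi S f) (e : ∀ m ∈ S, g m = f m) : BLi S g := by
  obtain ⟨C, h0, h1, h2⟩ := h
  exact ⟨C, h0, fun m hm => by rw [e m hm]; exact h1 m hm,
    fun m hm m' hm' => by rw [e m hm, e m' hm']; exact h2 m hm m' hm'⟩

theorem BLi.const (c : ℂ) : BLi S fun _ => c :=
  ⟨‖c‖, norm_nonneg _, fun _ _ => le_rfl, fun m _ m' _ => by
    rw [sub_self, norm_zero]; (clear * -; positivity)⟩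

theorem BLi.idf {R : ℝ} (hS : ∀ m ∈ S, ‖m‖ ≤ R) : BLi S fun m => m :=
  ⟨max R 1, by positivity, fun m hm => (hS m hm).trans (le_max_left _ _), fun m _ m' _ => by
    have := mul_le_mul_of_nonneg_right (le_max_right R 1) (norm_nonneg (m - m'))
    (clear * - this; linarith only [this])⟩

theorem BLi.conjf (h : BLi S f) : BLi S fun m => conj (f m) := by
  obtain ⟨C, h0, h1, h2⟩ := h
  refine ⟨C, h0, fun m hm => by rw [norm_conj]; exact h1 m hm, fun m hm m' hm' => ?_⟩
  rw [← map_sub, norm_conj]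
  exact h2 m hm m' hm'

theorem BLi.add (h : BLi S f) (h' : BLi S g) : BLi S fun m => f m + g m := by
  obtain ⟨C, h0, h1, h2⟩ := h
  obtain ⟨D, k0, k1, k2⟩ := h'
  refine ⟨C + D, by positivity, fun m hm => (norm_add_le _ _).trans
    (add_le_add (h1 m hm) (k1 m hm)), fun m hm m' hm' => ?_⟩
  rw [add_sub_add_comm, add_mul]
  exact (norm_add_le _ _).trans (add_le_add (h2 m hm m' hm') (k2 m hm m' hm'))

theorem BLi.mul (h : BLi S f) (h' : BLi S g) : BLi S fun m => f m * g m := by
  obtain ⟨C, h0, h1, h2⟩ := h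
  obtain ⟨D, k0, k1, k2⟩ := h'
  refine ⟨2 * (C * D) , by positivity, fun m hm => ?_, fun m hm m' hm' => ?_⟩
  · rw [norm_mul]
    have := mul_le_mul (h1 m hm) (k1 m hm) (norm_nonneg _) h0
    have := mul_nonneg h0 k0
    linarith
  · have e : f m * g m - f m' * g m' = (f m - f m') * g m + f m' * (g m - g m') := by ring
    rw [e]
    refine (norm_add_le _ _).trans ?_
    rw [norm_mul, norm_mul]
    have q := norm_nonneg (m - m')
    have a1 := mul_le_mul (h2 m hm m' hm') (k1 m hm) (norm_nonneg _) (mul_nonneg h0 q)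
    have a2 := mul_le_mul (h1 m' hm') (k2 m hm m' hm') (norm_nonneg _) h0
    linarith only [a1, a2]

theorem BLi.powf (h : BLi S f) (n : ℕ) : BLi S fun m => f m ^ n := by
  induction n with
  | zero => exact (BLi.const 1).congr fun m _ => pow_zero _
  | succ n ih => exact (ih.mul h).congr fun m _ => pow_succ _ _

theorem BLi.inv (h : BLi S f) {c : ℝ} (hc : 0 < c) (hf : ∀ m ∈ S, c ≤ ‖f m‖) :
    BLi S fun m => (f m)⁻¹ := by
  obtain ⟨C, h0, h1, h2⟩ := h
  have hne : ∀ m ∈ S, f m ≠ 0 := fun m hm => norm_pos_iff.1 (hc.trans_le (hf m hm))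
  refine ⟨max (1 / c) (C / c ^ 2), by (clear * - hc; positivity), fun m hm => ?_, fun m hm m' hm' => ?_⟩
  · rw [norm_inv, ← one_div]
    exact (one_div_le_one_div_of_le hc (hf m hm)).trans (le_max_left _ _)
  · have n1 := hne m hm
    have n2 := hne m' hm'
    have e : (f m)⁻¹ - (f m')⁻¹ = - (f m - f m') / (f m * f m') := by
      field_simp
      ring
    rw [e, norm_div, norm_neg, norm_mul]
    have a1 : c ^ 2 ≤ ‖f m‖ * ‖f m'‖ := by
      rw [pow_two]
      exact mul_le_mul (hf m hm) (hf m' hm') hc.le (norm_nonneg _)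
    have a2 := h2 m hm m' hm'
    have q := norm_nonneg (m - m')
    have a3 : ‖f m - f m'‖ / (‖f m‖ * ‖f m'‖) ≤ C * ‖m - m'‖ / c ^ 2 :=
      div_le_div₀ (mul_nonneg h0 q) a2 (by positivity) a1
    refine a3.trans ?_
    rw [mul_div_right_comm]
    exact mul_le_mul_of_nonneg_right (le_max_right _ _) q

theorem BLi.normsq {R : ℝ} (hS : ∀ m ∈ S, ‖m‖ ≤ R) : BLi S fun m => ((‖m‖ ^ 2 : ℝ) : ℂ) :=
  ((BLi.idf hS).mul (BLi.idf hS).conjf).congr fun m _ => by
    rw [mul_conj, normSq_eq_norm_sq]

theorem BLi.ref {R : ℝ} (hS : ∀ m ∈ S, ‖m‖ ≤ R) : BLi S fun m => ((m.re : ℝ) : ℂ) :=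
  ((BLi.const (1 / 2)).mul ((BLi.idf hS).add (BLi.idf hS).conjf)).congr fun m _ => by
    rw [add_conj]
    push_cast
    ring

theorem BLi.rFf {R : ℝ} (hS : ∀ m ∈ S, ‖m‖ ≤ R) (p0 p1 p2 : ℝ) :
    BLi S fun m => ((rF p0 p1 p2 m : ℝ) : ℂ) :=
  (((BLi.const ((p0 + p1 : ℝ) : ℂ)).add ((BLi.const ((2 * p1 : ℝ) : ℂ)).mul (BLi.ref hS))).add
    ((BLi.const ((p1 + p2 : ℝ) : ℂ)).mul (BLi.normsq hS))).congr fun m _ => by
    rw [rF_eq]
    push_cast
    ring

/-- the function `l` -/
theorem BLi.lf {R c : ℝ} (hS : ∀ m ∈ S, ‖m‖ ≤ R) (a b p0 p1 p2 : ℝ) (hc : 0 < c)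
    (hr : ∀ m ∈ S, c ≤ rF p0 p1 p2 m) :
    BLi S fun m => (((a + b * ‖m‖ ^ 2) / rF p0 p1 p2 m : ℝ) : ℂ) :=
  (((BLi.const (a : ℂ)).add ((BLi.const (b : ℂ)).mul (BLi.normsq hS))).mul
    ((BLi.rFf hS p0 p1 p2).inv hc fun m hm => by
      rw [norm_real, Real.norm_of_nonneg (hc.le.trans (hr m hm))]
      exact hr m hm)).congr fun m _ => by
    rw [div_eq_mul_inv]
    push_cast
    ring

theorem BLi.ms {R : ℝ} (hS : ∀ m ∈ S, ‖m‖ ≤ R) {l : ℂ → ℝ} (hl : BLi S fun m => (l m : ℂ))
    (M : ℤ) (L : List (ℕ × ℕ × ℤ)) : BLi S fun m => MS L (l m) m / (M : ℂ) := by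
  have h : BLi S fun m => MS L (l m) m := by
    induction L with
    | nil => exact (BLi.const 0).congr fun m _ => by simp [MS]
    | cons t L ih =>
      exact (((BLi.const (t.2.2 : ℂ)).mul ((hl.powf t.1).mul
        ((BLi.idf hS).conjf.powf t.2.1))).add ih).congr fun m _ => by
          simp [MS]
  exact (h.mul (BLi.const ((M : ℂ)⁻¹))).congr fun m _ => div_eq_mul_inv _ _

/-- the `l⁰` terms agree -/
def Zeq (MI MO : List (ℕ × ℕ × ℤ)) : Prop :=
  (MI.filter fun t => t.1 == 0) = (MO.filter fun t => t.1 == 0)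

instance (MI MO : List (ℕ × ℕ × ℤ)) : Decidable (Zeq MI MO) := by
  unfold Zeq; infer_instance

section glob

variable {a p0 p1 p2 q0 q1 q2 : ℝ} {MI MO : List (ℕ × ℕ × ℤ)}

/-- **the multiplier is bounded and Lipschitz on bounded sets** -/
theorem Mq_lip (hp : InL p0 p1 p2) (hq : OutL a q0 q1 q2) (hz : Zeq MI MO) (M : ℤ) (R : ℝ) :
    ∃ C : ℝ, 0 ≤ C ∧ (∀ m : ℂ, ‖m‖ ≤ R → ‖Mq M MI MO p0 p1 p2 q0 q1 q2 m‖ ≤ C) ∧
      ∀ m m' : ℂ, ‖m‖ ≤ R → ‖m'‖ ≤ R →
        ‖Mq M MI MO p0 p1 p2 q0 q1 q2 m - Mq M MI MO p0 p1 p2 q0 q1 q2 m'‖ ≤ C * ‖m - m'‖ := by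
  obtain ⟨c, hc, hcl⟩ := hp.low
  obtain ⟨d, hd, hdl⟩ := hq.low
  -- inside
  have hA := BLi.ms (S := {m : ℂ | ‖m‖ ≤ 1}) (R := 1) (fun m hm => hm)
    (BLi.lf (S := {m : ℂ | ‖m‖ ≤ 1}) (R := 1) (fun m hm => hm) 1 (-1) p0 p1 p2 hc
      fun m hm => (le_mul_of_one_le_right hc.le (by have := sq_nonneg ‖m‖; linarith only [this])).trans
        (hcl m hm)) M MI
  have hB := BLi.ms (S := {m : ℂ | 1 ≤ ‖m‖ ∧ ‖m‖ ≤ max R 1}) (R := max R 1) (fun m hm => hm.2)
    (BLi.lf (S := {m : ℂ | 1 ≤ ‖m‖ ∧ ‖m‖ ≤ max R 1}) (R := max R 1) (fun m hm => hm.2)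
      (-1) 1 q0 q1 q2 hd
      fun m hm => (le_mul_of_one_le_right hd.le (by have := sq_nonneg ‖m‖; (clear * - this; linarith only [this]))).trans
        (hdl m)) M MO
  obtain ⟨C, hC0, hC1, hC2⟩ := hA
  obtain ⟨D, hD0, hD1, hD2⟩ := hB
  have eA : ∀ m : ℂ, ‖m‖ ≤ 1 → Mq M MI MO p0 p1 p2 q0 q1 q2 m =
      MS MI ((1 + (-1) * ‖m‖ ^ 2) / rF p0 p1 p2 m) m / (M : ℂ) := by
    intro m hm
    unfold Mq
    rw [if_pos hm]
    congr 3
    ring
  have eB' : ∀ m : ℂ, 1 < ‖m‖ → Mq M MI MO p0 p1 p2 q0 q1 q2 m =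
      MS MO ((-1 + 1 * ‖m‖ ^ 2) / rF q0 q1 q2 m) m / (M : ℂ) := by
    intro m hm
    unfold Mq
    rw [if_neg (not_le.2 hm)]
    congr 3
    ring
  have eB : ∀ m : ℂ, 1 ≤ ‖m‖ → Mq M MI MO p0 p1 p2 q0 q1 q2 m =
      MS MO ((-1 + 1 * ‖m‖ ^ 2) / rF q0 q1 q2 m) m / (M : ℂ) := by
    intro m hm
    rcases hm.lt_or_eq with h | h
    · exact eB' m h
    · rw [eA m h.ge, ← h]
      have e1 : (1 + (-1) * (1:ℝ) ^ 2) / rF p0 p1 p2 m = 0 := by norm_num
      have e2 : (-1 + 1 * (1:ℝ) ^ 2) / rF q0 q1 q2 m = 0 := by norm_num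
      rw [e1, e2, MS_zero MI, MS_zero MO, hz]
  have hle : ∀ m : ℂ, ‖m‖ ≤ R → ‖Mq M MI MO p0 p1 p2 q0 q1 q2 m‖ ≤ max C D := by
    intro m hm
    rcases le_or_gt ‖m‖ 1 with h | h
    · rw [eA m h]
      exact (hC1 m h).trans (le_max_left _ _)
    · rw [eB m h.le]
      exact (hD1 m ⟨h.le, hm.trans (le_max_left _ _)⟩).trans (le_max_right _ _)
  have h00 : 0 ≤ max C D := le_max_of_le_left hC0
  have kA : ∀ m m' : ℂ, ‖m‖ ≤ 1 → ‖m'‖ ≤ 1 →
      ‖Mq M MI MO p0 p1 p2 q0 q1 q2 m - Mq M MI MO p0 p1 p2 q0 q1 q2 m'‖ ≤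
        max C D * ‖m - m'‖ := by
    intro m m' h h'
    rw [eA m h, eA m' h']
    exact (hC2 m h m' h').trans (mul_le_mul_of_nonneg_right (le_max_left _ _) (norm_nonneg _))
  have kB : ∀ m m' : ℂ, 1 ≤ ‖m‖ → 1 ≤ ‖m'‖ → ‖m‖ ≤ max R 1 → ‖m'‖ ≤ max R 1 →
      ‖Mq M MI MO p0 p1 p2 q0 q1 q2 m - Mq M MI MO p0 p1 p2 q0 q1 q2 m'‖ ≤
        max C D * ‖m - m'‖ := by
    intro m m' h h' k k'
    rw [eB m h, eB m' h']
    exact (hD2 m ⟨h, k⟩ m' ⟨h', k'⟩).trans
      (mul_le_mul_of_nonneg_right (le_max_right _ _) (norm_nonneg _))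
  have kC : ∀ m m' : ℂ, ‖m‖ ≤ 1 → 1 ≤ ‖m'‖ → ‖m'‖ ≤ max R 1 →
      ‖Mq M MI MO p0 p1 p2 q0 q1 q2 m - Mq M MI MO p0 p1 p2 q0 q1 q2 m'‖ ≤
        max C D * ‖m - m'‖ := by
    intro m m' h h' k'
    obtain ⟨p, hp1, he⟩ := exists_cross h h'
    have h1 := kA m p h hp1.le
    have h2 := kB p m' hp1.ge h' (hp1.le.trans (le_max_right _ _)) k'
    have e : Mq M MI MO p0 p1 p2 q0 q1 q2 m - Mq M MI MO p0 p1 p2 q0 q1 q2 m' =
      (Mq M MI MO p0 p1 p2 q0 q1 q2 m - Mq M MI MO p0 p1 p2 q0 q1 q2 p) +
      (Mq M MI MO p0 p1 p2 q0 q1 q2 p - Mq M MI MO p0 p1 p2 q0 q1 q2 m') := by ring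
    rw [e, ← he, mul_add]
    exact (norm_add_le _ _).trans (add_le_add h1 h2)
  refine ⟨max C D, h00, hle, fun m m' hm hm' => ?_⟩
  rcases le_or_gt ‖m‖ 1 with h | h <;> rcases le_or_gt ‖m'‖ 1 with h' | h'
  · exact kA m m' h h'
  · exact kC m m' h h'.le (hm'.trans (le_max_left _ _))
  · rw [norm_sub_rev, norm_sub_rev m]
    exact kC m' m h' h.le (hm.trans (le_max_left _ _))
  · exact kB m m' h.le h'.le (hm.trans (le_max_left _ _)) (hm'.trans (le_max_left _ _))

end glob

end Pool.Agent.Helper20.CK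

end

section

namespace Pool.Agent.Helper39.Area
end Pool.Agent.Helper39.Area
namespace Pool.Agent.Helper52.EK
end Pool.Agent.Helper52.EK
namespace Pool.Agent.Helper69.CK
end Pool.Agent.Helper69.CK
namespace Pool.Agent.Helper84.CK
end Pool.Agent.Helper84.CK
namespace Pool.Agent.Helper71.CK
end Pool.Agent.Helper71.CK
namespace Pool.Agent.Helper84.CB
end Pool.Agent.Helper84.CB
namespace Pool.Agent.Helper69.EK3
end Pool.Agent.Helper69.EK3
namespace Pool.Agent.Helper20.CK
end Pool.Agent.Helper20.CK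
namespace Pool.Agent.Helper2.EK
end Pool.Agent.Helper2.EK

set_option autoImplicit false

open Complex MeasureTheory Metric Set

open scoped Real ComplexConjugate

namespace Pool.Agent.Helper65.CK

open Pool.Agent.Helper39.Area Pool.Agent.Helper52.EK

open Pool.Agent.Helper69.CK Pool.Agent.Helper84.CK Pool.Agent.Helper71.CK

open Pool.Agent.Helper84.CB (RegQ CenQP Q_lowQ bq CenE line_hd q_hd cenQP_Xf)

open Pool.Agent.Helper69.EK3 (NiceH RectH pt_mem_RectH)

open Pool.Agent.Helper20.CK (Zeq Mq_lip)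

open Pool.Agent.Helper2.EK (c1_sub)

/-- the centre terms against a cut-off, from an inequality on the region `RegQ` -/
theorem cenW_q {Kl : (ℂ → ℂ) → ℝ → ℝ} {Q : ℂ → ℂ → ℂ → ℝ} {Wc : ℂ → ℂ → ℝ}
    (hQ : ∀ X q b : ℂ, RegQ X q b → 0 ≤ Q X q b)
    (hQL : LocallyLipschitz fun p : ℂ × ℂ × ℂ => Q p.1 p.2.1 p.2.2)
    (cW : Continuous fun p : ℂ × ℂ => Wc p.1 p.2)
    (cK : ∀ (X : ℂ → ℂ) (x₁ x₂ : ℝ), NiceH X x₁ x₂ → ContinuousOn (Kl X) (Icc x₁ x₂))
    (hd : ∀ (X : ℂ → ℂ) (x₁ x₂ : ℝ), NiceX X x₁ x₂ → ∀ ξ ∈ Icc x₁ x₂,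
      HasDerivAt (fun t : ℝ => Wc (X (pt t (π / 2))) (deriv X (pt t (π / 2)) / X (pt t (π / 2))))
        (-(Kl X ξ + Kl (Pool.Agent.Helper69.EK3.mir X) ξ) - Q (X (pt ξ (π / 2)))
          (deriv X (pt ξ (π / 2)) / X (pt ξ (π / 2)))
          (bq (X (pt ξ (π / 2))) (deriv X (pt ξ (π / 2))) (deriv (deriv X) (pt ξ (π / 2))))) ξ) :
    ∃ C' : ℝ, ∀ (x₁ x₂ V : ℝ) (χ χ₁ : ℝ → ℝ) (X : ℂ → ℂ),
      Cut1 x₁ x₂ V χ χ₁ → x₁ ≤ x₂ → 0 ≤ V → NiceX X x₁ x₂ → CenQP X x₁ x₂ →
      ∫ ξ in x₁..x₂, χ ξ * (Kl X ξ + Kl (Pool.Agent.Helper69.EK3.mir X) ξ) ≤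
        C' * (1 + V * (x₂ - x₁)) := by
  obtain ⟨M, hM, hlow⟩ := Q_lowQ hQ hQL
  obtain ⟨B, hB⟩ := (isCompact_closedBall (0 : ℂ × ℂ) 18).bddAbove_image cW.abs.continuousOn
  have hB' : ∀ Z ∈ closedBall (0 : ℂ × ℂ) 18, |Wc Z.1 Z.2| ≤ B :=
    fun Z hZ => hB (mem_image_of_mem _ hZ)
  have hB0 : 0 ≤ B := (abs_nonneg _).trans (hB' 0 (by simp))
  refine ⟨M * 8 + B, fun x₁ x₂ V χ χ₁ X hc hx hV hX hP => ?_⟩
  obtain ⟨ρ, cρ, hρ, hI, hR⟩ := hP
  have hXh := Pool.Agent.Helper69.EK3.NiceX.half hX
  obtain ⟨e, he⟩ : ∃ e : ℝ → ℝ, e = fun ξ => Kl X ξ + Kl (Pool.Agent.Helper69.EK3.mir X) ξ :=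
    ⟨_, rfl⟩
  have ce : ContinuousOn e (Icc x₁ x₂) := by
    rw [he]
    exact (cK X x₁ x₂ hXh).add (cK _ x₁ x₂ (Pool.Agent.Helper69.EK3.NiceX.mir hX))
  obtain ⟨x, hxd⟩ : ∃ x : ℝ → ℂ, x = fun ξ => X (pt ξ (π / 2)) := ⟨_, rfl⟩
  obtain ⟨y, hyd⟩ : ∃ y : ℝ → ℂ, y = fun ξ => deriv X (pt ξ (π / 2)) := ⟨_, rfl⟩
  obtain ⟨z, hzd⟩ : ∃ z : ℝ → ℂ, z = fun ξ => deriv (deriv X) (pt ξ (π / 2)) := ⟨_, rfl⟩
  have cx : ContinuousOn x (Icc x₁ x₂) := by
    rw [hxd]; exact Pool.Agent.Helper69.EK3.contC hXh.an.continuousOn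
  have cy : ContinuousOn y (Icc x₁ x₂) := by
    rw [hyd]; exact Pool.Agent.Helper69.EK3.contC hXh.an.deriv.continuousOn
  have cz : ContinuousOn z (Icc x₁ x₂) := by
    rw [hzd]; exact Pool.Agent.Helper69.EK3.contC hXh.an.deriv.deriv.continuousOn
  have hne : ∀ ξ ∈ Icc x₁ x₂, x ξ ≠ 0 := fun ξ hξ => by
    rw [hxd]; exact hXh.ne _ (Pool.Agent.Helper69.EK3.cent_mem hξ)
  obtain ⟨q, hqd⟩ : ∃ q : ℝ → ℝ, q = fun ξ => Q (x ξ) (y ξ / x ξ) (bq (x ξ) (y ξ) (z ξ)) :=
    ⟨_, rfl⟩
  obtain ⟨w, hwd⟩ : ∃ w : ℝ → ℝ, w = fun ξ => Wc (x ξ) (y ξ / x ξ) := ⟨_, rfl⟩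
  have cyx : ContinuousOn (fun ξ => y ξ / x ξ) (Icc x₁ x₂) := cy.div cx hne
  have cq : ContinuousOn q (Icc x₁ x₂) := by
    rw [hqd]
    have cb : ContinuousOn (fun ξ => bq (x ξ) (y ξ) (z ξ)) (Icc x₁ x₂) := by
      unfold bq
      exact ((((continuousOn_const.sub (cx.pow 2)).add (continuousOn_const.mul
        (cz.div cx hne))).sub (continuousOn_const.mul (cyx.pow 2))).div_const _)
    exact hQL.continuous.comp_continuousOn (cx.prodMk (cyx.prodMk cb))
  have cw : ContinuousOn w (Icc x₁ x₂) := by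
    rw [hwd]
    exact cW.comp_continuousOn (cx.prodMk cyx)
  have hd' : ∀ ξ ∈ Icc x₁ x₂, HasDerivAt w (- e ξ - q ξ) ξ := by
    intro ξ hξ
    rw [hwd, hqd, hxd, hyd, hzd, he]
    exact hd X x₁ x₂ hX ξ hξ
  have cχ := hc.c0
  have cχ1 := hc.c1
  have i1 : IntervalIntegrable (fun ξ => χ ξ * e ξ) volume x₁ x₂ :=
    (cχ.mul ce).intervalIntegrable_of_Icc hx
  have i2 : IntervalIntegrable (fun ξ => χ ξ * q ξ) volume x₁ x₂ :=
    (cχ.mul cq).intervalIntegrable_of_Icc hx
  have i3 : IntervalIntegrable (fun ξ => χ₁ ξ * w ξ) volume x₁ x₂ :=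
    (cχ1.mul cw).intervalIntegrable_of_Icc hx
  have hF : ∫ ξ in x₁..x₂, (χ₁ ξ * w ξ + χ ξ * (- e ξ - q ξ)) = 0 := by
    have hi : IntervalIntegrable (fun ξ => χ₁ ξ * w ξ + χ ξ * (- e ξ - q ξ)) volume x₁ x₂ :=
      ((cχ1.mul cw).add (cχ.mul (ce.neg.sub cq))).intervalIntegrable_of_Icc hx
    have h0 := intervalIntegral.integral_eq_sub_of_hasDerivAt (f := fun ξ => χ ξ * w ξ)
      (f' := fun ξ => χ₁ ξ * w ξ + χ ξ * (- e ξ - q ξ)) (fun ξ hξ => by
        rw [uIcc_of_le hx] at hξ
        exact (hc.d ξ hξ).mul (hd' ξ hξ)) hi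
    rw [h0]
    simp [hc.e1, hc.e2]
  have e1 : ∫ ξ in x₁..x₂, (χ₁ ξ * w ξ + χ ξ * (- e ξ - q ξ)) =
      (∫ ξ in x₁..x₂, χ₁ ξ * w ξ) - (∫ ξ in x₁..x₂, χ ξ * e ξ) -
        ∫ ξ in x₁..x₂, χ ξ * q ξ := by
    rw [← intervalIntegral.integral_sub i3 i1, ← intervalIntegral.integral_sub (i3.sub i1) i2]
    refine intervalIntegral.integral_congr fun ξ _ => ?_
    ring
  rw [e1] at hF
  have b1 : -(M * 8) ≤ ∫ ξ in x₁..x₂, χ ξ * q ξ := by
    have h1 : ∫ ξ in x₁..x₂, -(M * (1 - ρ ξ)) ≤ ∫ ξ in x₁..x₂, χ ξ * q ξ := by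
      refine intervalIntegral.integral_mono_on hx
        ((continuous_const.mul (continuous_const.sub cρ)).neg.intervalIntegrable _ _) i2
        fun ξ hξ => ?_
      have h2 := hR ξ hξ
      have h3 := hlow _ _ _ (ρ ξ) (hρ ξ).1 (hρ ξ).2 h2
      have h4 : -(M * (1 - ρ ξ)) ≤ q ξ := by
        rw [hqd, hxd, hyd, hzd]
        exact h3
      have h5 := hc.b01 ξ hξ
      have h6 : 0 ≤ M * (1 - ρ ξ) := mul_nonneg hM (by linarith only [(hρ ξ).2])
      (clear * - h4 h5 h6; nlinarith only [h4, h5, h6])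
    rw [intervalIntegral.integral_neg, intervalIntegral.integral_const_mul] at h1
    have := mul_le_mul_of_nonneg_left hI hM
    (clear * - h1 this; linarith)
  have b2 : ∫ ξ in x₁..x₂, χ₁ ξ * w ξ ≤ B * (V * (x₂ - x₁)) := by
    have h1 : ∫ ξ in x₁..x₂, χ₁ ξ * w ξ ≤ ∫ _ in x₁..x₂, B * V := by
      refine intervalIntegral.integral_mono_on hx i3 (by simp) fun ξ hξ => ?_
      have h2 : |w ξ| ≤ B := by
        rw [hwd]
        refine hB' (x ξ, y ξ / x ξ) ?_
        have hr := hR ξ hξ
        obtain ⟨r1, r2⟩ := hρ ξ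
        have hρ0 : 0 < ρ ξ := by linarith only [r1]
        have hρn : ‖(ρ ξ : ℂ)‖ = ρ ξ := by rw [norm_real, Real.norm_of_nonneg hρ0.le]
        have x1 := hr.le
        have q1 := hr.q_le
        rw [norm_mul, hρn] at x1 q1
        rw [mem_closedBall_zero_iff, Prod.norm_def, hxd, hyd]
        refine max_le ?_ ?_
        · simp only
          (clear * - r1 x1; nlinarith only [r1, x1])
        · simp only
          nlinarith only [r1, q1]
      calc χ₁ ξ * w ξ ≤ |χ₁ ξ * w ξ| := le_abs_self _
        _ = |w ξ| * |χ₁ ξ| := by rw [abs_mul, mul_comm]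
        _ ≤ B * V := mul_le_mul h2 (hc.k1 ξ hξ) (abs_nonneg _) hB0
    rw [intervalIntegral.integral_const, smul_eq_mul] at h1
    linarith only [h1]
  have h9 : ∫ ξ in x₁..x₂, χ ξ * (Kl X ξ + Kl (Pool.Agent.Helper69.EK3.mir X) ξ) =
      ∫ ξ in x₁..x₂, χ ξ * e ξ := by rw [he]
  rw [h9]
  have hVd : 0 ≤ V * (x₂ - x₁) := mul_nonneg hV (by (clear * - hx; linarith))
  have h10 : 0 ≤ M * 8 * (V * (x₂ - x₁)) := by (clear * - hM hV hx; positivity)
  linarith only [hB0, hF, b1, b2, h10]

/-- the centre terms which depend on `X` only -/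
theorem cenW_E {E : ℂ → ℝ} (hE : CenE E) {Kl : (ℂ → ℂ) → ℝ → ℝ}
    (cK : ∀ (X : ℂ → ℂ) (x₁ x₂ : ℝ), NiceH X x₁ x₂ → ContinuousOn (Kl X) (Icc x₁ x₂))
    (hK : ∀ (X : ℂ → ℂ) (x₁ x₂ : ℝ), NiceX X x₁ x₂ → ∀ ξ ∈ Icc x₁ x₂,
      Kl X ξ + Kl (Pool.Agent.Helper69.EK3.mir X) ξ = - E (X (pt ξ (π / 2)))) :
    ∃ C' : ℝ, ∀ (x₁ x₂ V : ℝ) (χ χ₁ : ℝ → ℝ) (X : ℂ → ℂ),
      Cut1 x₁ x₂ V χ χ₁ → x₁ ≤ x₂ → 0 ≤ V → NiceX X x₁ x₂ → CenQP X x₁ x₂ →
      ∫ ξ in x₁..x₂, χ ξ * (Kl X ξ + Kl (Pool.Agent.Helper69.EK3.mir X) ξ) ≤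
        C' * (1 + V * (x₂ - x₁)) := by
  obtain ⟨Q, Wc, h1, h2, h3, h4⟩ := hE
  refine cenW_q h1 h2 h3 cK fun X x₁ x₂ hX ξ hξ => ?_
  have hXh := Pool.Agent.Helper69.EK3.NiceX.half hX
  have hm := Pool.Agent.Helper69.EK3.cent_mem hξ
  have n0 := hXh.ne _ hm
  have d1 := line_hd (hXh.an _ hm)
  have d2 := line_hd (hXh.an _ hm).deriv
  have e : X (pt ξ (π / 2)) * (deriv X (pt ξ (π / 2)) / X (pt ξ (π / 2))) =
      deriv X (pt ξ (π / 2)) := by
    field_simp
  rw [hK X x₁ x₂ hX ξ hξ, neg_neg]
  exact h4 (fun t => X (pt t (π / 2)))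
    (fun t => deriv X (pt t (π / 2)) / X (pt t (π / 2)))
    (bq (X (pt ξ (π / 2))) (deriv X (pt ξ (π / 2))) (deriv (deriv X) (pt ξ (π / 2)))) ξ
    (by
      rw [e]
      exact d1) (q_hd d1 d2 n0)

theorem Zeq_scl {td : ℤ} {MI MO : List (ℕ × ℕ × ℤ)} (h : Zeq MI MO) :
    Zeq (scl td MI) (scl td MO) := by
  have e : ∀ L : List (ℕ × ℕ × ℤ), (scl td L).filter (fun t => t.1 == 0) =
      scl td (L.filter fun t => t.1 == 0) := by
    intro L
    unfold scl
    rw [List.filter_map]
    rfl
  unfold Zeq at h ⊢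
  rw [e, e, h]

theorem Mq_cont {a p0 p1 p2 q0 q1 q2 : ℝ} {MI MO : List (ℕ × ℕ × ℤ)}
    (hp : Pool.Agent.Helper20.EK7.InL p0 p1 p2) (hq : Pool.Agent.Helper20.EK7.OutL a q0 q1 q2)
    (hz : Zeq MI MO) (M : ℤ) : Continuous (Mq M MI MO p0 p1 p2 q0 q1 q2) := by
  rw [continuous_iff_continuousAt]
  intro m
  obtain ⟨C, h0, -, h2⟩ := Mq_lip hp hq hz M (‖m‖ + 1)
  have h3 : ContinuousOn (Mq M MI MO p0 p1 p2 q0 q1 q2) (ball m 1) := by
    refine (LipschitzOnWith.of_dist_le_mul (K := ⟨C, h0⟩) fun u hu v hv => ?_).continuousOn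
    rw [dist_eq_norm, dist_eq_norm]
    have g : ∀ u ∈ ball m 1, ‖u‖ ≤ ‖m‖ + 1 := by
      intro u hu
      rw [mem_ball, dist_eq_norm] at hu
      have e : u = m + (u - m) := by ring
      rw [e]
      exact (norm_add_le _ _).trans (by (clear * - hu; linarith only [hu]))
    exact h2 u v (g u hu) (g v hv)
  exact h3.continuousAt (ball_mem_nhds m one_pos)

variable {g : DatG}

/-- the centre condition from a nonnegative polynomial on the unit disc -/
theorem cenE_pos (w : g.Wf)
    (hCen : ∀ x : Pool.Sos71.Pnt, 0 ≤ -2 * x.f - x.f ^ 2 - x.g ^ 2 →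
      0 ≤ (Pool.Sos71.Ex.bp g.cen).re x) : CenE (g.Ecp g.s.d.c.c1 (355 / 113)) := by
  obtain ⟨Ex, Ey, hE⟩ := DatG.Ecp_c1 (g := g) g.s.d.c.c1 (355 / 113)
  refine CenE.of_pos hE fun X hX => ?_
  have h1 : 0 ≤ (Pool.Sos71.Ex.bp g.cen).re ⟨0, 0, 0, 0, 0, X.re - 1, X.im⟩ := by
    apply hCen
    show 0 ≤ -2 * (X.re - 1) - (X.re - 1) ^ 2 - X.im ^ 2
    have h1 : X.re ^ 2 + X.im ^ 2 ≤ 1 := by
      rw [← Pool.Agent.Helper69.EK3.nq_sq]
      nlinarith only [norm_nonneg X, hX]
    (clear * - h1; linarith)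
  have h2 : (Pool.Sos71.Ex.bp g.cen).re ⟨0, 0, 0, 0, 0, X.re - 1, X.im⟩ =
    Pool.EK71.ev2 (X.re - 1) X.im g.cen := rfl
  rw [h2, DatG.cen_ev w] at h1
  refine nonneg_of_mul_nonneg_right h1 ?_
  have := pow_pos (Pool.Agent.Helper69.EK5.Dd_pos g.s.d.c.a X.re X.im) g.s.d.c.K
  (clear * - this; positivity)

end Pool.Agent.Helper65.CK

end

section

namespace Pool.Agent.Helper69.EK6
end Pool.Agent.Helper69.EK6

/-!
From a certificate with the standard multipliers to the hypothesis `Side` of helper69.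
-/

set_option autoImplicit false

namespace Pool.Sos71

open Pool.Agent.Helper69.EK6 (eDi)

/-- `1` -/
def mOne : Ex := .lit 1

/-- `S (C - S)` -/
def mAB : Ex := .mul (.va 1) (.add (.va 2) (.sc (-1) (.va 1)))

/-- `l (Ln - Ld l)` -/
def mL (Ln Ld : ℤ) : Ex := .mul (.va 0) (.add (.lit Ln) (.sc (-Ld) (.va 0)))

/-- `S (C - S) l (Ln - Ld l)` -/
def mABL (Ln Ld : ℤ) : Ex := .mul mAB (mL Ln Ld)

/-- `-2 u - u² - v²` -/
def mCen : Ex := .bp [[0, 0, -1], [-2], [-1]]

/-- the domain -/
structure DomL (Ln Ld : ℤ) (x : Pnt) : Prop where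
  b0 : 0 ≤ x.b
  bc : x.b ≤ x.c
  u1 : x.b ^ 2 + x.c ^ 2 = 1
  a0 : 0 ≤ x.a
  a1 : (Ld : ℝ) * x.a ≤ Ln

variable {Ln Ld : ℤ} {x : Pnt}

lemma mOne_re (x : Pnt) : mOne.re x = 1 := by
  show ((1 : ℤ) : ℝ) = 1
  norm_num

lemma mAB_re (x : Pnt) : mAB.re x = x.b * (x.c - x.b) := by
  show x.b * (x.c + ((-1 : ℤ) : ℝ) * x.b) = _
  push_cast; ring

lemma mL_re (Ln Ld : ℤ) (x : Pnt) : (mL Ln Ld).re x = x.a * (Ln - Ld * x.a) := by
  show x.a * ((Ln : ℝ) + ((-Ld : ℤ) : ℝ) * x.a) = _
  push_cast; ring

lemma mCen_re (x : Pnt) : mCen.re x = -2 * x.f - x.f ^ 2 - x.g ^ 2 := by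
  simp only [mCen, Ex.re, Pool.EK71.ev2, Pool.EK71.ev1]
  push_cast; ring

lemma mAB_nonneg (h : DomL Ln Ld x) : 0 ≤ mAB.re x := by
  rw [mAB_re]
  exact mul_nonneg h.b0 (by linarith only [h.bc])

lemma mL_nonneg (h : DomL Ln Ld x) : 0 ≤ (mL Ln Ld).re x := by
  rw [mL_re]
  exact mul_nonneg h.a0 (by (clear * - h; linarith [h.a1]))

lemma mABL_nonneg (h : DomL Ln Ld x) : 0 ≤ (mABL Ln Ld).re x := by
  show 0 ≤ mAB.re x * (mL Ln Ld).re x
  exact mul_nonneg (mAB_nonneg h) (mL_nonneg h)

section

variable {K : ℕ} {b : Blk}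

end

/-- the centre -/
theorem cen_of {D : Cert} (h : D.checkW = true)
    (hg : ∀ b ∈ D.blocks, b.mult = mOne ∨ b.mult = mCen) (x : Pnt)
    (hx : 0 ≤ -2 * x.f - x.f ^ 2 - x.g ^ 2) : 0 ≤ D.target.re x := by
  refine sos_posW h x fun b hb => ?_
  rcases hg b hb with h | h
  · rw [h, mOne_re]; norm_num
  · rw [h, mCen_re]; exact hx

end Pool.Sos71

end

section

namespace Pool.Sos71
end Pool.Sos71
namespace Pool.Sos71.Bdd
end Pool.Sos71.Bdd
namespace Pool.Agent.Helper69.EK6
end Pool.Agent.Helper69.EK6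

set_option autoImplicit false

/-!
Growth version of `Sos/Bdd.lean` and `Sos/Side.lean`: the basis of a block may have the degree
`K + i` in `u, v` with a factor `Sⁱ`, on the domain `S √(1 + u² + v²) ≤ 10`.
-/

namespace Pool.Sos71.BddG

open Pool.Sos71

open Pool.Sos71.Bdd (rho rho_one rho_sq f_le g_le)

end Pool.Sos71.BddG

namespace Pool.Sos71

open Pool.Agent.Helper69.EK6 (eDi)

/-- the condition of growth of the domain -/
def DomW (x : Pnt) : Prop := x.b ^ 2 * (1 + x.f ^ 2 + x.g ^ 2) ≤ 100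

variable {Ln Ld : ℤ} {x : Pnt}

section

variable {K : ℕ} {b : Blk}

end

end Pool.Sos71

end

section

namespace Pool.Sos71
end Pool.Sos71
namespace Pool.EK71
end Pool.EK71
namespace Pool.Agent.Helper52.EK
end Pool.Agent.Helper52.EK
namespace Pool.Agent.Helper2.EK
end Pool.Agent.Helper2.EK
namespace Pool.Agent.Helper69.EK3
end Pool.Agent.Helper69.EK3
namespace Pool.Agent.Helper69.EK5
end Pool.Agent.Helper69.EK5
namespace Pool.Agent.Helper69.EK6
end Pool.Agent.Helper69.EK6
namespace Pool.Agent.Helper69.EK6.Dat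
end Pool.Agent.Helper69.EK6.Dat
namespace Pool.Agent.Helper69.EK3.Dat
end Pool.Agent.Helper69.EK3.Dat
namespace Pool.Agent.Helper20.EK7
end Pool.Agent.Helper20.EK7

set_option autoImplicit false

open Complex MeasureTheory Metric Set

open scoped Real ComplexConjugate

namespace Pool.Agent.Helper71.CK

open Pool.Sos71

open Pool.EK71 Pool.Agent.Helper52.EK Pool.Agent.Helper2.EK

open Pool.Agent.Helper69.EK3

open Pool.Agent.Helper69.EK5 (DQ Dd Dd_pos Dd_low DL e_D qX qY Rr c1_Rr Dn Dn_ev Rr_conj_even Rr_conj_odd Rs Dd_conj)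

open Pool.Agent.Helper69.EK6 (px px_o csE_re eCon eDi px_Di)

open Pool.Agent.Helper69.EK3.Dat (disc_im half_bd)

open Pool.Agent.Helper20.EK7 (InL OutL)

variable {Ln Ld : ℤ}

/-- the domain of the growth condition -/
theorem domW_px {X Y : ℂ} {l η : ℝ} (hη : η ∈ Icc (0:ℝ) (π / 2))
    (h9 : Real.sin η * ‖X‖ ≤ 9) : DomW (px l η X Y) := by
  obtain ⟨b1, b2⟩ := half_bd hη
  have h1 := Real.sin_sq_add_cos_sq (η / 2)
  have hs : Real.sin η = 2 * Real.sin (η / 2) * Real.cos (η / 2) := by
    rw [← Real.sin_two_mul]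
    congr 1
    ring
  have hs' : Real.sin (η / 2) ^ 2 * 2 ≤ Real.sin η ^ 2 := by
    rw [hs]
    (clear * - b1 b2 h1; nlinarith only [mul_nonneg (sq_nonneg (Real.sin (η / 2))) (sub_nonneg.2 (pow_le_pow_left₀ b1 b2 2)), h1])
  have hX : ‖X‖ ^ 2 = X.re ^ 2 + X.im ^ 2 := by
    rw [← Complex.normSq_eq_norm_sq, Complex.normSq_apply]
    ring
  have hs0 : 0 ≤ Real.sin η := by
    rw [hs]
    exact mul_nonneg (by (clear * - b1; linarith only [b1])) (by linarith only [b1, b2])
  have h2 : (Real.sin η * ‖X‖) ^ 2 ≤ 81 := by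
    have := pow_le_pow_left₀ (mul_nonneg hs0 (norm_nonneg X)) h9 2
    linarith only [this]
  have h3 : Real.sin (η / 2) ^ 2 ≤ 1 := by (clear * - h1; nlinarith only [h1])
  show Real.sin (η / 2) ^ 2 * (1 + (X.re - 1) ^ 2 + X.im ^ 2) ≤ 100
  have h4 : Real.sin (η / 2) ^ 2 * 2 * ‖X‖ ^ 2 ≤ 81 := by
    have := mul_le_mul_of_nonneg_right hs' (sq_nonneg ‖X‖)
    linarith only [h2, this]
  have h5 : 1 + (X.re - 1) ^ 2 + X.im ^ 2 ≤ 3 + 2 * ‖X‖ ^ 2 := by
    rw [hX]
    (clear * -; nlinarith only [sq_nonneg (X.re + 1)])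
  have h6 := mul_le_mul_of_nonneg_left h5 (sq_nonneg (Real.sin (η / 2)))
  nlinarith only [h3, h4, h5]

namespace DatG

variable {g : DatG} {ka kb p0 p1 p2 la lb q0 q1 q2 : ℝ} {Ln' Ld' : ℤ}

end DatG

end Pool.Agent.Helper71.CK

end

section

namespace Pool.Agent.Helper39.Area
end Pool.Agent.Helper39.Area
namespace Pool.Agent.Helper52.EK
end Pool.Agent.Helper52.EK
namespace Pool.Agent.Helper69.EK3
end Pool.Agent.Helper69.EK3
namespace Pool.Agent.Helper69.EK7
end Pool.Agent.Helper69.EK7
namespace Pool.Agent.Helper69.CKC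
end Pool.Agent.Helper69.CKC

set_option autoImplicit false

open Complex MeasureTheory Metric Set

open scoped Real ComplexConjugate

namespace Pool.Agent.Helper69.CK

open Pool.Agent.Helper39.Area Pool.Agent.Helper52.EK Pool.Agent.Helper69.EK3

open Pool.Agent.Helper69.EK7 Pool.Agent.Helper69.CKC

/-- the error of one disc -/
theorem grow_one {s d B ε t l A c : ℝ} (hs : 0 ≤ s) (hd : 0 ≤ d) (hd8 : d ≤ 8)
    (hB : 0 ≤ B) (hε : 0 < ε) (ht : 0 ≤ t) (hst : s * t ≤ 10) (hs1 : s ≤ 1) (hc : 0 ≤ c)
    (hA : A ≤ c * (d * s)) (hl0 : 0 ≤ l) (hl : l ≤ B * (1 + t ^ 2)) :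
    l * A ≤ (c * B + 200 * c ^ 2 * B ^ 2 / ε) * d + ε * t ^ 2 := by
  have h1 : l * A ≤ l * (c * (d * s)) := mul_le_mul_of_nonneg_left hA hl0
  have h2 : l * (c * (d * s)) ≤ B * (1 + t ^ 2) * (c * (d * s)) :=
    mul_le_mul_of_nonneg_right hl (by (clear * - hc hd hs; positivity))
  have h3 : B * (1 + t ^ 2) * (c * (d * s)) = c * B * d * s + c * B * d * ((s * t) * t) := by ring
  have h4 : c * B * d * s ≤ c * B * d := by
    have : 0 ≤ c * B * d := by (clear * - hc hB hd; positivity)
    (clear * - hs1 this; nlinarith only [hs1, this])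
  have h5 : c * B * d * ((s * t) * t) ≤ c * B * d * (10 * t) :=
    mul_le_mul_of_nonneg_left (mul_le_mul_of_nonneg_right hst ht) (by positivity)
  have h6 : c * B * d * (10 * t) ≤ ε * t ^ 2 + (10 * c * B * d) ^ 2 / (4 * ε) := by
    have e : ε * t ^ 2 + (10 * c * B * d) ^ 2 / (4 * ε) - c * B * d * (10 * t) =
        (2 * ε * t - 10 * c * B * d) ^ 2 / (4 * ε) := by
      field_simp
      ring
    have : 0 ≤ (2 * ε * t - 10 * c * B * d) ^ 2 / (4 * ε) := by (clear * - hε; positivity)
    (clear * - e this; linarith only [e, this])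
  have h7 : (10 * c * B * d) ^ 2 / (4 * ε) ≤ 200 * c ^ 2 * B ^ 2 / ε * d := by
    rw [div_le_iff₀ (by positivity)]
    have e : 200 * c ^ 2 * B ^ 2 / ε * d * (4 * ε) = 800 * c ^ 2 * B ^ 2 * d := by
      field_simp
      ring
    rw [e]
    have : d ^ 2 ≤ 8 * d := by (clear * - hd hd8; nlinarith only [hd, hd8])
    have h8 : (10 * c * B * d) ^ 2 = 100 * c ^ 2 * B ^ 2 * d ^ 2 := by ring
    rw [h8]
    have h9 : 0 ≤ 100 * c ^ 2 * B ^ 2 := by (clear * -; positivity)
    (clear * - this h9; nlinarith only [this, h9])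
  have h10 : (c * B + 200 * c ^ 2 * B ^ 2 / ε) * d =
      c * B * d + 200 * c ^ 2 * B ^ 2 / ε * d := by ring
  rw [h10]
  linarith

/-- **the error of the discs with quadratic growth of the multipliers** -/
theorem grow_err {B ε : ℝ} (hB : 0 ≤ B) (hε : 0 < ε) : ∃ K : ℝ, 0 ≤ K ∧
    ∀ (X : ℂ) (s d A₁ A₂ l₀ l₁ l₂ : ℝ), 0 ≤ s → s ≤ 1 → 0 ≤ d → d ≤ 8 →
      s * ‖X‖ ≤ 1 + d * s → 0 ≤ A₁ → A₁ ≤ 4 * (1 + d * s) → 0 ≤ A₂ → A₂ ≤ 4 * (1 + d * s) →
      0 ≤ l₀ → l₀ ≤ B * (1 + ‖X - 1‖ ^ 2) → 0 ≤ l₁ → l₁ ≤ B * (1 + ‖X - 1‖ ^ 2) →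
      0 ≤ l₂ → l₂ ≤ B * (1 + ‖X - 1‖ ^ 2) →
      l₀ * ((s * ‖X‖) ^ 2 - 1) + l₁ * (A₁ ^ 2 - 16) + l₂ * (A₂ ^ 2 - 16) ≤
        K * d + ε * ‖X - 1‖ ^ 2 := by
  have hε3 : 0 < ε / 3 := by (clear * - hε; positivity)
  refine ⟨3 * (160 * B + 200 * 160 ^ 2 * B ^ 2 / (ε / 3)), by (clear * - hB hε; positivity), ?_⟩
  intro X s d A₁ A₂ l₀ l₁ l₂ hs hs1 hd hd8 hX hA₁ hA₁' hA₂ hA₂' h0 h0' h1 h1' h2 h2'
  have hds : 0 ≤ d * s := mul_nonneg hd hs
  have hds8 : d * s ≤ 8 := by (clear * - hd8 hs1 hd; nlinarith only [hs1, hd, hd8])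
  have hn := norm_nonneg X
  have ht := norm_nonneg (X - 1)
  have ht1 : ‖X - 1‖ ≤ ‖X‖ + 1 := by
    have := norm_sub_le X 1
    rwa [norm_one] at this
  have hst : s * ‖X - 1‖ ≤ 10 := by
    have q1 : s * ‖X - 1‖ ≤ s * (‖X‖ + 1) := mul_le_mul_of_nonneg_left ht1 hs
    (clear * - hs1 hd8 hX q1 hd; nlinarith only [hs1, hd, hd8, hX, q1])
  have a0 : (s * ‖X‖) ^ 2 - 1 ≤ 160 * (d * s) := by
    have q1 : 0 ≤ s * ‖X‖ := mul_nonneg hs hn
    have q2 : (s * ‖X‖) ^ 2 ≤ (1 + d * s) ^ 2 := pow_le_pow_left₀ q1 hX 2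
    nlinarith only [hds, hds8, q2]
  have a1 : A₁ ^ 2 - 16 ≤ 160 * (d * s) := by
    have q2 : A₁ ^ 2 ≤ (4 * (1 + d * s)) ^ 2 := pow_le_pow_left₀ hA₁ hA₁' 2
    (clear * - q2 hds hds8; nlinarith only [hds, hds8, q2])
  have a2 : A₂ ^ 2 - 16 ≤ 160 * (d * s) := by
    have q2 : A₂ ^ 2 ≤ (4 * (1 + d * s)) ^ 2 := pow_le_pow_left₀ hA₂ hA₂' 2
    nlinarith only [hds, hds8, q2]
  have b0 := grow_one hs hd hd8 hB hε3 ht hst hs1 (by norm_num : (0:ℝ) ≤ 160) a0 h0 h0'
  have b1 := grow_one hs hd hd8 hB hε3 ht hst hs1 (by norm_num : (0:ℝ) ≤ 160) a1 h1 h1'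
  have b2 := grow_one hs hd hd8 hB hε3 ht hst hs1 (by norm_num : (0:ℝ) ≤ 160) a2 h2 h2'
  (clear * - b0 b1 b2; linarith only [b0, b1, b2])

/-- the class with the hyperbolic error is contained in the old classes -/
theorem DiscG.toP {X : ℂ → ℂ} {x₁ x₂ : ℝ} (h : DiscG (π / 2) X x₁ x₂) : DiscP X x₁ x₂ := by
  have hpi := Real.pi_pos
  obtain ⟨δ, h1, h2, h3, h4, h5⟩ := h
  refine ⟨δ, h1, h2, h3, h4, fun ξ hξ η hη => ?_⟩
  obtain ⟨k1, k2, k3⟩ := h5 ξ hξ η hη
  have := ds_le (h2 ξ) (sin_nnh (h := π / 2) (by (clear * - hpi; linarith only [hpi])) hη) (Real.sin_le_one η)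
  exact ⟨k1.trans (by (clear * - this; linarith only [this])), k2.trans (by (clear * - this; linarith only [this])), k3.trans (by (clear * - this; linarith))⟩

end Pool.Agent.Helper69.CK

end

section

namespace Pool.Agent.Helper39.Area
end Pool.Agent.Helper39.Area
namespace Pool.Agent.Helper52.EK
end Pool.Agent.Helper52.EK
namespace Pool.Agent.Helper69.EK3
end Pool.Agent.Helper69.EK3
namespace Pool.Agent.Helper69.EK7
end Pool.Agent.Helper69.EK7
namespace Pool.Agent.Helper69.CK
end Pool.Agent.Helper69.CK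

set_option autoImplicit false

open Complex MeasureTheory Metric Set

open scoped Real ComplexConjugate

namespace Pool.Agent.Helper84.CK

open Pool.Agent.Helper39.Area Pool.Agent.Helper52.EK Pool.Agent.Helper69.EK3

open Pool.Agent.Helper69.EK7 Pool.Agent.Helper69.CK

/-- the energy around `1` -/
theorem energy_one (X : ℂ) : ‖X - 1‖ ^ 2 = (1 - X.re) + (‖X‖ ^ 2 - X.re) := by
  rw [← Complex.normSq_eq_norm_sq, ← Complex.normSq_eq_norm_sq, Complex.normSq_apply,
    Complex.normSq_apply]
  simp only [Complex.sub_re, Complex.one_re, Complex.sub_im, Complex.one_im]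
  ring

/-- the class of `DiscG`, with the bound of Kraus -/
def DiscGK (X : ℂ → ℂ) (x₁ x₂ : ℝ) : Prop :=
  DiscG (π / 2) X x₁ x₂ ∧ ∀ ξ ∈ Icc x₁ x₂, ∀ η ∈ Icc (0:ℝ) (π / 2),
    ‖tX (X (pt ξ η)) (deriv X (pt ξ η)) (deriv (deriv X) (pt ξ η)) (Real.sin η)
      (Real.cos η)‖ ≤ 6

theorem DiscGK.toK {X : ℂ → ℂ} {x₁ x₂ : ℝ} (h : DiscGK X x₁ x₂) : DiscK X x₁ x₂ :=
  ⟨h.1.toP, h.2⟩

theorem discGK_Xf (β : ℂ → ℂ) (R a : ℝ) (h : ExtR β R) (ha : 0 < a) (ha1 : a < 1)
    (hx : Real.log (tau a) + 1 ≤ -1) : DiscGK (Xf β a) (Real.log (tau a) + 1) (-1) ∧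
      DiscGK (mir (Xf β a)) (Real.log (tau a) + 1) (-1) := by
  obtain ⟨h1, h2⟩ := discG_Xf_half β R a h ha ha1 hx
  obtain ⟨h3, h4⟩ := discK_Xf β R a h ha ha1 hx
  exact ⟨⟨h1, h3.2⟩, ⟨h2, h4.2⟩⟩

/-- **the bound for one target from a certificate with the critical multiplier**, fields built
from 2-jets, multipliers of the discs with quadratic growth -/
theorem K_oneW_gd {k₂ lam dc κ L B q : ℝ} (hB : 0 ≤ B) (hlam : 0 ≤ lam) (hk₂ : lam ≤ k₂)
    (hdc : 0 ≤ dc) (hκ : k₂ < 2 * κ) {G : ℂ → ℂ → ℂ} (hG : GLip2 G L)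
    (hGc : ∀ m t, G (conj m) (conj t) = conj (G m t))
    {M : ℂ → ℂ} (hM : Continuous M) (hMc : ∀ m, M (conj m) = conj (M m))
    {Nl : (ℂ → ℂ) → ℝ → ℝ → ℝ} {Kl : (ℂ → ℂ) → ℝ → ℝ} (hN : IsNullW DiscK Nl Kl)
    (hp : ∀ (X : ℂ → ℂ) (x₁ x₂ : ℝ), NiceH X x₁ x₂ → ∀ ξ ∈ Icc x₁ x₂,
      ∀ η ∈ Icc (0:ℝ) (π / 2), ‖tX (X (pt ξ η)) (deriv X (pt ξ η)) (deriv (deriv X) (pt ξ η))
        (Real.sin η) (Real.cos η)‖ ≤ 6 → Real.sin η * ‖X (pt ξ η)‖ ≤ 9 →
      Real.sin η * ‖deriv X (pt ξ η) / X (pt ξ η)‖ ≤ 38 → ∃ l₀ l₁ l₂ : ℝ,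
      0 ≤ l₀ ∧ l₀ ≤ B * (1 + ‖X (pt ξ η) - 1‖ ^ 2) ∧
      0 ≤ l₁ ∧ l₁ ≤ B * (1 + ‖X (pt ξ η) - 1‖ ^ 2) ∧
      0 ≤ l₂ ∧ l₂ ≤ B * (1 + ‖X (pt ξ η) - 1‖ ^ 2) ∧
      T2 G X ξ η + l₀ * (1 - (Real.sin η * ‖X (pt ξ η)‖) ^ 2) +
        l₁ * (16 - ‖dA 1 (X (pt ξ η)) (deriv X (pt ξ η)) (Real.sin η) (Real.cos η)‖ ^ 2) +
        l₂ * (16 - ‖dA (-1) (X (pt ξ η)) (deriv X (pt ξ η)) (Real.sin η) (Real.cos η)‖ ^ 2) ≤
      k₂ * (1 - (X (pt ξ η)).re) + lam * (‖X (pt ξ η)‖ ^ 2 - (X (pt ξ η)).re) + dc +
        Nl X ξ η + Mt M q X ξ η)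
    {Q : (ℂ → ℂ) → ℝ → ℝ → Prop}
    (hQf : ∀ (β : ℂ → ℂ) (R a : ℝ), ExtR β R → 0 < a → a < 1 → Real.log (tau a) + 1 ≤ -1 →
      Q (Xf β a) (Real.log (tau a) + 1) (-1))
    (hCen : ∃ C' : ℝ, ∀ (x₁ x₂ V : ℝ) (χ χ₁ : ℝ → ℝ) (X : ℂ → ℂ),
      Cut1 x₁ x₂ V χ χ₁ → x₁ ≤ x₂ → 0 ≤ V → NiceX X x₁ x₂ → Q X x₁ x₂ →
      ∫ ξ in x₁..x₂, χ ξ * (Kl X ξ + Kl (mir X) ξ) ≤ C' * (1 + V * (x₂ - x₁)))
    {D' : ℝ} (hQ : ∀ (X : ℂ → ℂ) (x₁ x₂ : ℝ), Q X x₁ x₂ → ∃ δ : ℝ → ℝ, Continuous δ ∧
      (∀ ξ ∈ Icc x₁ x₂, 0 ≤ δ ξ) ∧ (∀ ξ ∈ Icc x₁ x₂, (X (pt ξ (π / 2))).re ≤ 1 + δ ξ) ∧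
      ∫ ξ in x₁..x₂, δ ξ ≤ D') :
    ∃ e C V₀ a₀ : ℝ, 0 < e ∧ 0 ≤ C ∧ 0 < V₀ ∧ a₀ < 1 ∧
      ∀ (β : ℂ → ℂ) (R a V : ℝ) (Ω Ω₁ Ω₂ : ℝ → ℝ → ℝ), ExtR β R → a₀ < a → a < 1 →
      0 ≤ V → V ≤ V₀ → WtF (Real.log (tau a) + 1) (-1) V Ω Ω₁ Ω₂ →
      Kf (wf2 G β) 1 (-1) (Real.log a) +
          e * II (Real.log (tau a) + 1) (-1) (fun ξ η => ‖Xf β a (pt ξ η) - 1‖ ^ 2) ≤
        κ * Real.log (‖N β a‖ / (1 - a ^ 2)) +
          π⁻¹ * II (Real.log (tau a) + 1) (-1) (fun ξ η => Ω ξ η * Mt M q (Xf β a) ξ η) +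
          4 * π⁻¹ * II (Real.log (tau a) + 1) (-1) (fun ξ η => 1 - Ω ξ η) +
          dc * (-1 - (Real.log (tau a) + 1)) +
          C * (1 + V * (-1 - (Real.log (tau a) + 1))) := by
  have hpi := Real.pi_pos
  obtain ⟨ε, hε⟩ : ∃ ε, ε = (2 * κ - k₂) / 2 := ⟨_, rfl⟩
  have hε0 : 0 < ε := by rw [hε]; linarith only [hκ]
  obtain ⟨Kg, hKg0, hKg⟩ := grow_err hB hε0
  have hS := stripW_b (P := DiscGK) (T := T2 G) (Mt := Mt M q) (D := Kg * 8) (dc := dc)
    (lam := lam + ε) (k₂ := k₂ + ε)
    (by (clear * - hlam hε0; linarith)) (by (clear * - hk₂; linarith)) hdc (fun X x₁ x₂ hX => F3_contOn hG hX) (T2_cont_H hG)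
    (T2_mirror hGc)
    (Mt_cont_X hM q) (Mt_cont_H hM q) (Mt_mirror hMc q)
    (hN.mono fun _ _ _ h => DiscGK.toK h) ?_ hCen hQ
  · exact K_oneW (w := wf2 G) (E3F hG 1 le_rfl) (T2_le4 hG)
      (fun X x₁ x₂ hX => F3_contOn hG hX)
      (fun β R a h ha ha1 hx => ⟨(discGK_Xf β R a h ha ha1 hx).1,
      (discGK_Xf β R a h ha ha1 hx).2, hQf β R a h ha ha1 hx⟩)
      (fun δ hδ => Pool.Agent.Helper79.EK3.centre_line hδ) hS (by linarith) (by linarith)
      (by rw [hε]; (clear * - hε hε0; linarith only [hε, hε0]))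
  intro X x₁ x₂ hx hX hP
  have q9 := DiscG.X_le (by linarith) hP.1
  have q38 := DiscG.q_le (by (clear * - hpi; linarith)) hP.1
  obtain ⟨⟨δ, h1, h2, h3, h4, h5⟩, h6⟩ := hP
  refine ⟨fun ξ => Kg * δ ξ, by fun_prop, fun ξ => mul_nonneg hKg0 (h2 ξ), ?_, ?_⟩
  · rw [intervalIntegral.integral_const_mul]
    exact mul_le_mul_of_nonneg_left h4 hKg0
  · intro ξ hξ η hη
    have hs : 0 ≤ Real.sin η := Real.sin_nonneg_of_nonneg_of_le_pi hη.1
      (hη.2.trans (by (clear * - hpi; linarith)))
    obtain ⟨l₀, l₁, l₂, a1, a2, b1, b2, c1, c2, hl⟩ := hp X x₁ x₂ hX ξ hξ η hη (h6 ξ hξ η hη)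
      (q9 ξ hξ η hη) (q38 ξ hξ η hη)
    obtain ⟨k1, k2, k3⟩ := h5 ξ hξ η hη
    have hg := hKg (X (pt ξ η)) (Real.sin η) (δ ξ) _ _ l₀ l₁ l₂ hs (Real.sin_le_one η) (h2 ξ)
      (h3 ξ hξ) k1 (norm_nonneg _) k2 (norm_nonneg _) k3 a1 a2 b1 b2 c1 c2
    rw [energy_one] at hg
    show T2 G X ξ η ≤ (k₂ + ε) * (1 - (X (pt ξ η)).re) +
      (lam + ε) * (‖X (pt ξ η)‖ ^ 2 - (X (pt ξ η)).re) + dc + Nl X ξ η + Mt M q X ξ η +
      Kg * δ ξ
    linarith only [hl, hg]

/-- **the same for fields built from the gradient** -/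
theorem K_oneW_g {k₂ lam dc κ L B q : ℝ} (hB : 0 ≤ B) (hlam : 0 ≤ lam) (hk₂ : lam ≤ k₂)
    (hdc : 0 ≤ dc) (hκ : k₂ < 2 * κ) {G : ℂ → ℂ} (hG : GLip G L)
    (hGc : ∀ m, G (conj m) = conj (G m))
    {M : ℂ → ℂ} (hM : Continuous M) (hMc : ∀ m, M (conj m) = conj (M m))
    {Nl : (ℂ → ℂ) → ℝ → ℝ → ℝ} {Kl : (ℂ → ℂ) → ℝ → ℝ} (hN : IsNullW DiscP Nl Kl)
    (hp : ∀ (X : ℂ → ℂ) (x₁ x₂ : ℝ), NiceH X x₁ x₂ → ∀ ξ ∈ Icc x₁ x₂,
      ∀ η ∈ Icc (0:ℝ) (π / 2), Real.sin η * ‖X (pt ξ η)‖ ≤ 9 →
      Real.sin η * ‖deriv X (pt ξ η) / X (pt ξ η)‖ ≤ 38 → ∃ l₀ l₁ l₂ : ℝ,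
      0 ≤ l₀ ∧ l₀ ≤ B * (1 + ‖X (pt ξ η) - 1‖ ^ 2) ∧
      0 ≤ l₁ ∧ l₁ ≤ B * (1 + ‖X (pt ξ η) - 1‖ ^ 2) ∧
      0 ≤ l₂ ∧ l₂ ≤ B * (1 + ‖X (pt ξ η) - 1‖ ^ 2) ∧
      TG G (X (pt ξ η)) (deriv X (pt ξ η)) (Real.sin η) (Real.cos η) +
        l₀ * (1 - (Real.sin η * ‖X (pt ξ η)‖) ^ 2) +
        l₁ * (16 - ‖dA 1 (X (pt ξ η)) (deriv X (pt ξ η)) (Real.sin η) (Real.cos η)‖ ^ 2) +
        l₂ * (16 - ‖dA (-1) (X (pt ξ η)) (deriv X (pt ξ η)) (Real.sin η) (Real.cos η)‖ ^ 2) ≤
      k₂ * (1 - (X (pt ξ η)).re) + lam * (‖X (pt ξ η)‖ ^ 2 - (X (pt ξ η)).re) + dc +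
        Nl X ξ η + Mt M q X ξ η)
    {Q : (ℂ → ℂ) → ℝ → ℝ → Prop}
    (hQf : ∀ (β : ℂ → ℂ) (R a : ℝ), ExtR β R → 0 < a → a < 1 → Real.log (tau a) + 1 ≤ -1 →
      Q (Xf β a) (Real.log (tau a) + 1) (-1))
    (hCen : ∃ C' : ℝ, ∀ (x₁ x₂ V : ℝ) (χ χ₁ : ℝ → ℝ) (X : ℂ → ℂ),
      Cut1 x₁ x₂ V χ χ₁ → x₁ ≤ x₂ → 0 ≤ V → NiceX X x₁ x₂ → Q X x₁ x₂ →
      ∫ ξ in x₁..x₂, χ ξ * (Kl X ξ + Kl (mir X) ξ) ≤ C' * (1 + V * (x₂ - x₁)))
    {D' : ℝ} (hQ : ∀ (X : ℂ → ℂ) (x₁ x₂ : ℝ), Q X x₁ x₂ → ∃ δ : ℝ → ℝ, Continuous δ ∧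
      (∀ ξ ∈ Icc x₁ x₂, 0 ≤ δ ξ) ∧ (∀ ξ ∈ Icc x₁ x₂, (X (pt ξ (π / 2))).re ≤ 1 + δ ξ) ∧
      ∫ ξ in x₁..x₂, δ ξ ≤ D') :
    ∃ e C V₀ a₀ : ℝ, 0 < e ∧ 0 ≤ C ∧ 0 < V₀ ∧ a₀ < 1 ∧
      ∀ (β : ℂ → ℂ) (R a V : ℝ) (Ω Ω₁ Ω₂ : ℝ → ℝ → ℝ), ExtR β R → a₀ < a → a < 1 →
      0 ≤ V → V ≤ V₀ → WtF (Real.log (tau a) + 1) (-1) V Ω Ω₁ Ω₂ →
      Kf (wf G β) 1 (-1) (Real.log a) +
          e * II (Real.log (tau a) + 1) (-1) (fun ξ η => ‖Xf β a (pt ξ η) - 1‖ ^ 2) ≤
        κ * Real.log (‖N β a‖ / (1 - a ^ 2)) +
          π⁻¹ * II (Real.log (tau a) + 1) (-1) (fun ξ η => Ω ξ η * Mt M q (Xf β a) ξ η) +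
          4 * π⁻¹ * II (Real.log (tau a) + 1) (-1) (fun ξ η => 1 - Ω ξ η) +
          dc * (-1 - (Real.log (tau a) + 1)) +
          C * (1 + V * (-1 - (Real.log (tau a) + 1))) :=
  K_oneW_gd (G := fun m _ => G m) hB hlam hk₂ hdc hκ (GLip.two hG) (fun m _ => hGc m) hM hMc
    (hN.mono fun _ _ _ h => h.1) (fun X x₁ x₂ hX ξ hξ η hη _ => hp X x₁ x₂ hX ξ hξ η hη)
    hQf hCen hQ

end Pool.Agent.Helper84.CK

end

section

namespace Pool.Sos71
end Pool.Sos71
namespace Pool.EK71
end Pool.EK71
namespace Pool.Agent.Helper52.EK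
end Pool.Agent.Helper52.EK
namespace Pool.Agent.Helper2.EK
end Pool.Agent.Helper2.EK
namespace Pool.Agent.Helper69.EK3
end Pool.Agent.Helper69.EK3
namespace Pool.Agent.Helper69.EK5
end Pool.Agent.Helper69.EK5
namespace Pool.Agent.Helper69.EK6
end Pool.Agent.Helper69.EK6
namespace Pool.Agent.Helper69.EK6.Dat
end Pool.Agent.Helper69.EK6.Dat
namespace Pool.Agent.Helper69.EK7
end Pool.Agent.Helper69.EK7
namespace Pool.Agent.Helper20.EK7
end Pool.Agent.Helper20.EK7
namespace Pool.Agent.Helper71.CK
end Pool.Agent.Helper71.CK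
namespace Pool.Agent.Helper84.CK
end Pool.Agent.Helper84.CK
namespace Pool.Agent.Helper20.CK
end Pool.Agent.Helper20.CK
namespace Pool.Agent.Helper20.CK.DatF
end Pool.Agent.Helper20.CK.DatF
namespace Pool.Agent.Helper39.Area
end Pool.Agent.Helper39.Area
namespace Pool.Agent.Helper69.CK
end Pool.Agent.Helper69.CK
namespace Pool.Agent.Helper84.CB
end Pool.Agent.Helper84.CB

set_option autoImplicit false

open Complex MeasureTheory Metric Set

open scoped Real ComplexConjugate

namespace Pool.Agent.Helper9.CKD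

open Pool.Sos71

open Pool.EK71 Pool.Agent.Helper52.EK Pool.Agent.Helper2.EK

open Pool.Agent.Helper69.EK3

open Pool.Agent.Helper69.EK5 (DQ Dd Dd_pos Dn Dn_ev)

open Pool.Agent.Helper69.EK6 (px px_o eCon px_Con)

open Pool.Agent.Helper69.EK6.Dat (tN_re)

open Pool.Agent.Helper69.EK7 (Grp EGr GLip2)

open Pool.Agent.Helper20.EK7

open Pool.Agent.Helper71.CK

open Pool.Agent.Helper84.CK

open Pool.Agent.Helper20.CK

variable {e : DatF}

/-- the target inside with an additional multiplier of the relation -/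
def tInM (e : DatF) (mi : Ex) : Ex := .add e.tIn (.mul mi (eCon e.g.s.d.c.fi))

/-- the target outside with an additional multiplier of the relation -/
def tOutM (e : DatF) (mo : Ex) : Ex := .add e.tOut (.mul mo (eCon e.g.s.d.c.fo))

variable {gam c0 ka kb p0 p1 p2 la lb q0 q1 q2 : ℝ} {Ln Ld Ln' Ld' : ℤ}

open Pool.Agent.Helper20.CK.DatF (tSide_re)

section

open Pool.Agent.Helper39.Area Pool.Agent.Helper69.CK

open Pool.Agent.Helper84.CB (CenE)

end

end Pool.Agent.Helper9.CKD

end
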