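import Pool.Agent.Helper60.BE.T13
import Pool.Agent.Helper60.BE.T01
import Pool.Agent.Helper60.BE.T16
import Pool.Agent.Helper60.BE.T08

set_option linter.all false

section

namespace Pool.Agent.Helper39.Area
end Pool.Agent.Helper39.Area

/-!
# CK: Goluzin's two-point inequality

`|log ((φ b - φ a) / (1/b - 1/a))|^2 ≤ log (1/(1-|a|^2)) log (1/(1-|b|^2))` and the lower bound
`|ψ a - ψ b| ≥ (1 - r^(-2)) |a - b|` for `|a|, |b| ≥ r`. Copy of `Helper39/Area/GolMain.lean`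
with a second point.
-/

set_option autoImplicit false

open Complex MeasureTheory Metric Set Filter Topology

open scoped Real ENNReal ComplexConjugate NNReal

namespace Pool.Agent.Helper77.CK

open Pool.Agent.Helper39.Area

variable {β : ℂ → ℂ}

theorem dir_le (h : Ext β) {ρ : ℝ} (hρ : 0 < ρ) (hρ1 : ρ < 1)
    {a : ℂ} (ha : a ∈ ball (0:ℂ) ρ) (ha0 : a ≠ 0) {F : ℂ → ℂ}
    (hF : ∀ ζ ∈ ball (0:ℂ) 1, HasDerivAt F (deriv (qq β a) ζ / qq β a ζ) ζ)
    (hF0 : F 0 = 0) (hexp : ∀ ζ ∈ ball (0:ℂ) 1, Complex.exp (F ζ) = qq β a ζ) :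
    ∃ A : ℝ, A ≤ - Real.log (1 - ‖a‖ ^ 2 / ρ ^ 2) ∧
      (∮ ζ in C(0, ρ), conj (F ζ) * (deriv (qq β a) ζ / qq β a ζ)) = 2 * π * I * A := by
  have ha1 : a ∈ ball (0:ℂ) 1 := mem_ball_of_sphere hρ1 (ball_subset_closedBall ha)
  have hapos : 0 < ‖a‖ := norm_pos_iff.mpr ha0
  have haρ : ‖a‖ < ρ := by simpa using ha
  set Q : ℂ → ℂ := fun ζ => deriv (qq β a) ζ / qq β a ζ with hQ
  set R : ℝ := min 1 (ρ ^ 2 / ‖a‖) with hR
  have hρR : ρ < R := lt_min hρ1 (rad_lt hρ ha ha0)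
  have hR1 : ball (0:ℂ) R ⊆ ball 0 1 := ball_subset_ball (min_le_left _ _)
  have hR2 : ball (0:ℂ) R ⊆ ball 0 (ρ ^ 2 / ‖a‖) := ball_subset_ball (min_le_right _ _)
  have hsR : sphere (0:ℂ) ρ ⊆ ball 0 R := by
    intro ζ hζ
    rw [mem_ball, dist_zero_right]
    rw [mem_sphere, dist_zero_right] at hζ
    linarith only [hρR, hζ]
  have hFd : DifferentiableOn ℂ F (ball 0 R) := fun ζ hζ =>
    (hF ζ (hR1 hζ)).differentiableAt.differentiableWithinAt
  have hQd : DifferentiableOn ℂ Q (ball 0 R) := by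
    have h1 : DifferentiableOn ℂ (deriv F) (ball 0 R) := hFd.deriv isOpen_ball
    apply h1.congr
    intro ζ hζ
    exact (hF ζ (hR1 hζ)).deriv.symm
  have hLd : DifferentiableOn ℂ (Lam ρ a) (ball 0 R) := (lam_diff hρ ha ha0).mono hR2
  have hLpd : DifferentiableOn ℂ (Lamp ρ a) (ball 0 R) := by
    have h1 : DifferentiableOn ℂ (deriv (Lam ρ a)) (ball 0 R) := hLd.deriv isOpen_ball
    apply h1.congr
    intro ζ hζ
    exact (lam_hasDeriv hρ ha ha0 (hR2 hζ)).deriv.symm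
  have hFc : ContinuousOn F (sphere 0 ρ) := hFd.continuousOn.mono hsR
  have hQc : ContinuousOn Q (sphere 0 ρ) := hQd.continuousOn.mono hsR
  have hLc : ContinuousOn (Lam ρ a) (sphere 0 ρ) := hLd.continuousOn.mono hsR
  have hLpc : ContinuousOn (Lamp ρ a) (sphere 0 ρ) := hLpd.continuousOn.mono hsR
  have hgpc : ContinuousOn (gp a) (sphere 0 ρ) := gp_cont ha hρ
  set G : ℂ → ℂ := fun ζ => Complex.log (1 - a / ζ) with hG
  have hGc : ContinuousOn G (sphere 0 ρ) := fun ζ hζ =>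
    (g_hasDeriv ha hρ hζ).continuousAt.continuousWithinAt
  have hcFc : ContinuousOn (fun ζ => conj (F ζ)) (sphere 0 ρ) :=
    Complex.continuous_conj.comp_continuousOn hFc
  have hFs : ∀ ζ ∈ sphere (0:ℂ) ρ, HasDerivAt F (Q ζ) ζ := fun ζ hζ => hF ζ (hR1 (hsR hζ))
  have hLs : ∀ ζ ∈ sphere (0:ℂ) ρ, HasDerivAt (Lam ρ a) (Lamp ρ a ζ) ζ := fun ζ hζ =>
    lam_hasDeriv hρ ha ha0 (hR2 (hsR hζ))
  have hGs : ∀ ζ ∈ sphere (0:ℂ) ρ, HasDerivAt G (gp a ζ) ζ := fun ζ hζ => g_hasDeriv ha hρ hζ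
  have hGL : ∀ ζ ∈ sphere (0:ℂ) ρ, conj (Lam ρ a ζ) = G ζ := fun ζ hζ => conj_lam hρ ha ha0 hζ
  set ℓ : ℝ := - Real.log (1 - ‖a‖ ^ 2 / ρ ^ 2) with hℓ
  have hfrac : 0 < ‖a‖ ^ 2 / ρ ^ 2 := by (clear * - ha0 hρ; positivity)
  have hfrac1 : ‖a‖ ^ 2 / ρ ^ 2 < 1 := by
    rw [div_lt_one (by positivity)]
    exact pow_lt_pow_left₀ haρ hapos.le two_ne_zero
  have hℓpos : 0 < ℓ := by
    rw [hℓ, neg_pos]
    exact Real.log_neg (by (clear * - hfrac1; linarith)) (by linarith only [hfrac])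
  have hLa : Lam ρ a a = -(ℓ:ℂ) := by
    rw [lam_self hρ ha, hℓ]; push_cast; ring
  have hL0 : Lam ρ a 0 = 0 := lam_zero ρ a
  -- the basic integrals
  have I3 : (∮ ζ in C(0, ρ), G ζ * Q ζ) = -(2 * π * I * F a) := by
    rw [parts hρ hGs hFs hgpc hQc, repro hρ hρR hFd ha, hF0, sub_zero]
  have I4 : (∮ ζ in C(0, ρ), G ζ * gp a ζ) = 0 := by
    have h1 := parts hρ hGs hGs hgpc hgpc
    have h2 : (2:ℂ) * (∮ ζ in C(0, ρ), G ζ * gp a ζ) = 0 := by linear_combination h1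
    simpa using h2
  obtain ⟨A, hA0, hA⟩ := dirichlet_nonneg hFd hρ hρR
  have I5 : (∮ ζ in C(0, ρ), conj (F ζ) * Q ζ) = 2 * π * I * A := by
    rw [← hA]
    apply circleIntegral.integral_congr hρ.le
    intro ζ hζ
    simp only
    rw [(hFs ζ hζ).deriv]
  have I6 : (∮ ζ in C(0, ρ), conj (F ζ) * gp a ζ) = 0 := by
    have h1 := conj_circle hρ (fun ζ => conj (F ζ) * gp a ζ)
    have h2 : (∮ ζ in C(0, ρ), (-((ρ:ℂ) ^ 2 / ζ ^ 2)) * conj (conj (F ζ) * gp a ζ)) =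
        ∮ ζ in C(0, ρ), F ζ * Lamp ρ a ζ := by
      apply circleIntegral.integral_congr hρ.le
      intro ζ hζ
      simp only
      rw [map_mul, Complex.conj_conj, ← lamp_eq hρ ha ha0 hζ]
      ring
    have hz : (∮ ζ in C(0, ρ), F ζ * Lamp ρ a ζ) = 0 := cauchy_zero hρ hρR (hFd.mul hLpd)
    rw [h2, hz] at h1
    simpa using h1
  -- the area inequality
  obtain ⟨c, hc0, hc⟩ := area_log h hρ hρ1 ha ha0
  set c0 : ℂ := ((-2 * Real.log ‖a‖ : ℝ) : ℂ) with hc0'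
  have hW : DifferentiableOn ℂ (fun ζ => c0 + Lam ρ a ζ + F ζ) (ball 0 R) :=
    ((differentiableOn_const c0).add hLd).add hFd
  have hWc : ContinuousOn (fun ζ => c0 + Lam ρ a ζ + F ζ) (sphere 0 ρ) := hW.continuousOn.mono hsR
  have I1 : (∮ ζ in C(0, ρ), (c0 + Lam ρ a ζ + F ζ) * Q ζ) = 0 :=
    cauchy_zero hρ hρR (hW.mul hQd)
  have I2 : (∮ ζ in C(0, ρ), (c0 + Lam ρ a ζ + F ζ) * gp a ζ) = 2 * π * I * (F a - ℓ) := by
    rw [repro hρ hρR hW ha, hLa, hL0, hF0]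
    ring
  have hJ : (∮ ζ in C(0, ρ), ((2 * Real.log ‖phi β ζ - phi β a‖ : ℝ) : ℂ) *
      (dphi β ζ / (phi β ζ - phi β a))) =
      ∮ ζ in C(0, ρ), ((((((c0 + Lam ρ a ζ + F ζ) * Q ζ) + ((c0 + Lam ρ a ζ + F ζ) * gp a ζ)) +
        (G ζ * Q ζ)) + (G ζ * gp a ζ)) + (conj (F ζ) * Q ζ)) + (conj (F ζ) * gp a ζ) := by
    apply circleIntegral.integral_congr hρ.le
    intro ζ hζ
    have hζ1 : ζ ∈ ball (0:ℂ) 1 := hR1 (hsR hζ)
    have hζ0 : ζ ≠ 0 := sphere_ne' hρ hζ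
    have hne : ζ ≠ a := by
      rintro rfl
      simp at hζ
      (clear * - haρ hζ; linarith only [haρ, hζ])
    have h1 : ((2 * Real.log ‖phi β ζ - phi β a‖ : ℝ) : ℂ) =
        c0 + Lam ρ a ζ + F ζ + G ζ + conj (F ζ) := by
      have h2 : phi β ζ - phi β a = -a⁻¹ * (1 - a / ζ) * qq β a ζ := by
        rw [phi_sub a ζ ha0 hζ0]
        field_simp
        ring
      have h3 : (1 - a / ζ) ≠ 0 := by
        intro h'
        rw [sub_eq_zero, eq_div_iff hζ0, one_mul] at h'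
        exact hne h'
      have h4 : qq β a ζ ≠ 0 := qq_ne h ha1 hζ1
      have h5 : Real.log ‖phi β ζ - phi β a‖ = - Real.log ‖a‖ + (G ζ).re + (F ζ).re := by
        rw [h2, norm_mul, norm_mul, norm_neg, norm_inv,
          Real.log_mul (mul_ne_zero (inv_ne_zero hapos.ne') (norm_ne_zero_iff.mpr h3))
            (norm_ne_zero_iff.mpr h4),
          Real.log_mul (inv_ne_zero hapos.ne') (norm_ne_zero_iff.mpr h3), Real.log_inv, hG,
          Complex.log_re, ← hexp ζ hζ1, Complex.norm_exp, Real.log_exp]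
      have h6 : Lam ρ a ζ = conj (G ζ) := by rw [← hGL ζ hζ, Complex.conj_conj]
      rw [h5, h6, hc0']
      have h7 := Complex.add_conj (G ζ)
      have h8 := Complex.add_conj (F ζ)
      push_cast at h7 h8 ⊢
      linear_combination -h7 - h8
    simp only
    rw [h1, dphi_div h ha1 hζ1 ha0 hζ0 hne]
    simp only [gp, hQ]
    ring
  have hc1 : CircleIntegrable (fun ζ => (c0 + Lam ρ a ζ + F ζ) * Q ζ) 0 ρ :=
    (hWc.mul hQc).circleIntegrable hρ.le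
  have hc2 : CircleIntegrable (fun ζ => (c0 + Lam ρ a ζ + F ζ) * gp a ζ) 0 ρ :=
    (hWc.mul hgpc).circleIntegrable hρ.le
  have hc3 : CircleIntegrable (fun ζ => G ζ * Q ζ) 0 ρ := (hGc.mul hQc).circleIntegrable hρ.le
  have hc4 : CircleIntegrable (fun ζ => G ζ * gp a ζ) 0 ρ := (hGc.mul hgpc).circleIntegrable hρ.le
  have hc5 : CircleIntegrable (fun ζ => conj (F ζ) * Q ζ) 0 ρ :=
    (hcFc.mul hQc).circleIntegrable hρ.le
  have hc6 : CircleIntegrable (fun ζ => conj (F ζ) * gp a ζ) 0 ρ :=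
    (hcFc.mul hgpc).circleIntegrable hρ.le
  have hc12 : CircleIntegrable (fun ζ => ((c0 + Lam ρ a ζ + F ζ) * Q ζ) +
      ((c0 + Lam ρ a ζ + F ζ) * gp a ζ)) 0 ρ := hc1.add hc2
  have hc13 : CircleIntegrable (fun ζ => (((c0 + Lam ρ a ζ + F ζ) * Q ζ) +
      ((c0 + Lam ρ a ζ + F ζ) * gp a ζ)) + (G ζ * Q ζ)) 0 ρ := hc12.add hc3
  have hc14 : CircleIntegrable (fun ζ => ((((c0 + Lam ρ a ζ + F ζ) * Q ζ) +
      ((c0 + Lam ρ a ζ + F ζ) * gp a ζ)) + (G ζ * Q ζ)) + (G ζ * gp a ζ)) 0 ρ := hc13.add hc4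
  have hc15 : CircleIntegrable (fun ζ => (((((c0 + Lam ρ a ζ + F ζ) * Q ζ) +
      ((c0 + Lam ρ a ζ + F ζ) * gp a ζ)) + (G ζ * Q ζ)) + (G ζ * gp a ζ)) +
      (conj (F ζ) * Q ζ)) 0 ρ := hc14.add hc5
  rw [hJ, circleIntegral.integral_add hc15 hc6, circleIntegral.integral_add hc14 hc5,
    circleIntegral.integral_add hc13 hc4, circleIntegral.integral_add hc12 hc3,
    circleIntegral.integral_add hc1 hc2, I1, I2, I3, I4, I5, I6] at hc
  have hpi : (π:ℂ) ≠ 0 := by exact_mod_cast Real.pi_ne_zero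
  have hAc : (A:ℂ) = ℓ - c / π := by
    have hI : (2 * I : ℂ) ≠ 0 := by simp
    have : (2 * I : ℂ) * (π * A) = (2 * I : ℂ) * (π * ℓ - c) := by linear_combination hc
    have h2 := mul_left_cancel₀ hI this
    field_simp
    linear_combination h2
  have hAr : A = ℓ - c / π := by exact_mod_cast hAc
  have hAle : A ≤ ℓ := by
    rw [hAr]
    have : 0 ≤ c / π := div_nonneg hc0 Real.pi_pos.le
    linarith only [this]
  exact ⟨A, hAle, I5⟩

/-- two points -/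
theorem two_aux (h : Ext β) {ρ : ℝ} (hρ : 0 < ρ) (hρ1 : ρ < 1)
    {a b : ℂ} (ha : a ∈ ball (0:ℂ) ρ) (ha0 : a ≠ 0) (hb : b ∈ ball (0:ℂ) ρ) (hb0 : b ≠ 0)
    {F : ℂ → ℂ}
    (hF : ∀ ζ ∈ ball (0:ℂ) 1, HasDerivAt F (deriv (qq β a) ζ / qq β a ζ) ζ)
    (hF0 : F 0 = 0) (hexp : ∀ ζ ∈ ball (0:ℂ) 1, Complex.exp (F ζ) = qq β a ζ) :
    ‖F b‖ ^ 2 ≤ Real.log (1 - ‖a‖ ^ 2 / ρ ^ 2) * Real.log (1 - ‖b‖ ^ 2 / ρ ^ 2) := by
  obtain ⟨A, hAle, I5⟩ := dir_le h hρ hρ1 ha ha0 hF hF0 hexp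
  have hbpos : 0 < ‖b‖ := norm_pos_iff.mpr hb0
  have hbρ : ‖b‖ < ρ := by simpa using hb
  set Q : ℂ → ℂ := fun ζ => deriv (qq β a) ζ / qq β a ζ with hQ
  set R : ℝ := min 1 (ρ ^ 2 / ‖b‖) with hR
  have hρR : ρ < R := lt_min hρ1 (rad_lt hρ hb hb0)
  have hR1 : ball (0:ℂ) R ⊆ ball 0 1 := ball_subset_ball (min_le_left _ _)
  have hR2 : ball (0:ℂ) R ⊆ ball 0 (ρ ^ 2 / ‖b‖) := ball_subset_ball (min_le_right _ _)
  have hsR : sphere (0:ℂ) ρ ⊆ ball 0 R := by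
    intro ζ hζ
    rw [mem_ball, dist_zero_right]
    rw [mem_sphere, dist_zero_right] at hζ
    (clear * - hρR hζ; linarith only [hρR, hζ])
  have hFd : DifferentiableOn ℂ F (ball 0 R) := fun ζ hζ =>
    (hF ζ (hR1 hζ)).differentiableAt.differentiableWithinAt
  have hQd : DifferentiableOn ℂ Q (ball 0 R) := by
    have h1 : DifferentiableOn ℂ (deriv F) (ball 0 R) := hFd.deriv isOpen_ball
    apply h1.congr
    intro ζ hζ
    exact (hF ζ (hR1 hζ)).deriv.symm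
  have hLd : DifferentiableOn ℂ (Lam ρ b) (ball 0 R) := (lam_diff hρ hb hb0).mono hR2
  have hLpd : DifferentiableOn ℂ (Lamp ρ b) (ball 0 R) := by
    have h1 : DifferentiableOn ℂ (deriv (Lam ρ b)) (ball 0 R) := hLd.deriv isOpen_ball
    apply h1.congr
    intro ζ hζ
    exact (lam_hasDeriv hρ hb hb0 (hR2 hζ)).deriv.symm
  have hFc : ContinuousOn F (sphere 0 ρ) := hFd.continuousOn.mono hsR
  have hQc : ContinuousOn Q (sphere 0 ρ) := hQd.continuousOn.mono hsR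
  have hLc : ContinuousOn (Lam ρ b) (sphere 0 ρ) := hLd.continuousOn.mono hsR
  have hLpc : ContinuousOn (Lamp ρ b) (sphere 0 ρ) := hLpd.continuousOn.mono hsR
  have hgpc : ContinuousOn (gp b) (sphere 0 ρ) := gp_cont hb hρ
  set G : ℂ → ℂ := fun ζ => Complex.log (1 - b / ζ) with hG
  have hGc : ContinuousOn G (sphere 0 ρ) := fun ζ hζ =>
    (g_hasDeriv hb hρ hζ).continuousAt.continuousWithinAt
  have hcFc : ContinuousOn (fun ζ => conj (F ζ)) (sphere 0 ρ) :=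
    Complex.continuous_conj.comp_continuousOn hFc
  have hFs : ∀ ζ ∈ sphere (0:ℂ) ρ, HasDerivAt F (Q ζ) ζ := fun ζ hζ => hF ζ (hR1 (hsR hζ))
  have hLs : ∀ ζ ∈ sphere (0:ℂ) ρ, HasDerivAt (Lam ρ b) (Lamp ρ b ζ) ζ := fun ζ hζ =>
    lam_hasDeriv hρ hb hb0 (hR2 (hsR hζ))
  have hGs : ∀ ζ ∈ sphere (0:ℂ) ρ, HasDerivAt G (gp b ζ) ζ := fun ζ hζ => g_hasDeriv hb hρ hζ
  have hGL : ∀ ζ ∈ sphere (0:ℂ) ρ, conj (Lam ρ b ζ) = G ζ := fun ζ hζ => conj_lam hρ hb hb0 hζ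
  set ℓ : ℝ := - Real.log (1 - ‖b‖ ^ 2 / ρ ^ 2) with hℓ
  have hfrac : 0 < ‖b‖ ^ 2 / ρ ^ 2 := by (clear * - hb0 hρ; positivity)
  have hfrac1 : ‖b‖ ^ 2 / ρ ^ 2 < 1 := by
    rw [div_lt_one (by (clear * - hρ; positivity))]
    exact pow_lt_pow_left₀ hbρ hbpos.le two_ne_zero
  have hℓpos : 0 < ℓ := by
    rw [hℓ, neg_pos]
    exact Real.log_neg (by (clear * - hfrac1; linarith only [hfrac1])) (by linarith only [hfrac])
  have hLa : Lam ρ b b = -(ℓ:ℂ) := by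
    rw [lam_self hρ hb, hℓ]; push_cast; ring
  have hL0 : Lam ρ b 0 = 0 := lam_zero ρ b
  have I3 : (∮ ζ in C(0, ρ), G ζ * Q ζ) = -(2 * π * I * F b) := by
    rw [parts hρ hGs hFs hgpc hQc, repro hρ hρR hFd hb, hF0, sub_zero]
  have I7 : (∮ ζ in C(0, ρ), conj (F ζ) * Lamp ρ b ζ) = -(2 * π * I * conj (F b)) := by
    have h1 := conj_circle hρ (fun ζ => conj (F ζ) * Lamp ρ b ζ)
    have h2 : (∮ ζ in C(0, ρ), (-((ρ:ℂ) ^ 2 / ζ ^ 2)) * conj (conj (F ζ) * Lamp ρ b ζ)) =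
        ∮ ζ in C(0, ρ), F ζ * gp b ζ := by
      apply circleIntegral.integral_congr hρ.le
      intro ζ hζ
      simp only
      rw [map_mul, Complex.conj_conj, ← gp_eq hρ hb hb0 hζ]
      ring
    rw [h2, repro hρ hρR hFd hb, hF0, sub_zero] at h1
    have h3 := congrArg conj h1
    rw [Complex.conj_conj] at h3
    rw [h3]
    simp only [map_mul, Complex.conj_ofReal, Complex.conj_I, map_ofNat]
    ring
  have I8 : (∮ ζ in C(0, ρ), G ζ * Lamp ρ b ζ) = 2 * π * I * ℓ := by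
    rw [parts hρ hGs hLs hgpc hLpc, repro hρ hρR hLd hb, hLa, hL0]
    ring
  -- the Dirichlet form of the combination
  set lam : ℂ := F b / ℓ with hlam
  have hEd : DifferentiableOn ℂ (fun ζ => F ζ + lam * Lam ρ b ζ) (ball 0 R) :=
    hFd.add (hLd.const_mul lam)
  obtain ⟨c2, hc20, hc2'⟩ := dirichlet_nonneg hEd hρ hρR
  have hℓc : (ℓ:ℂ) ≠ 0 := by exact_mod_cast hℓpos.ne'
  have hE : (∮ ζ in C(0, ρ), conj (F ζ + lam * Lam ρ b ζ) *
      deriv (fun ζ => F ζ + lam * Lam ρ b ζ) ζ) =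
      ∮ ζ in C(0, ρ), (((conj (F ζ) * Q ζ) + lam * (conj (F ζ) * Lamp ρ b ζ)) +
        conj lam * (G ζ * Q ζ)) + (conj lam * lam) * (G ζ * Lamp ρ b ζ) := by
    apply circleIntegral.integral_congr hρ.le
    intro ζ hζ
    have h1 : deriv (fun ζ => F ζ + lam * Lam ρ b ζ) ζ = Q ζ + lam * Lamp ρ b ζ :=
      ((hFs ζ hζ).add ((hLs ζ hζ).const_mul lam)).deriv
    simp only
    rw [h1, map_add, map_mul, hGL ζ hζ]
    ring
  have hc5 : CircleIntegrable (fun ζ => conj (F ζ) * Q ζ) 0 ρ :=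
    (hcFc.mul hQc).circleIntegrable hρ.le
  have hd2 : CircleIntegrable (fun ζ => lam * (conj (F ζ) * Lamp ρ b ζ)) 0 ρ :=
    (continuousOn_const.mul (hcFc.mul hLpc)).circleIntegrable hρ.le
  have hd3 : CircleIntegrable (fun ζ => conj lam * (G ζ * Q ζ)) 0 ρ :=
    (continuousOn_const.mul (hGc.mul hQc)).circleIntegrable hρ.le
  have hd4 : CircleIntegrable (fun ζ => (conj lam * lam) * (G ζ * Lamp ρ b ζ)) 0 ρ :=
    (continuousOn_const.mul (hGc.mul hLpc)).circleIntegrable hρ.le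
  have hd12 : CircleIntegrable (fun ζ => (conj (F ζ) * Q ζ) +
      lam * (conj (F ζ) * Lamp ρ b ζ)) 0 ρ := hc5.add hd2
  have hd13 : CircleIntegrable (fun ζ => ((conj (F ζ) * Q ζ) +
      lam * (conj (F ζ) * Lamp ρ b ζ)) + conj lam * (G ζ * Q ζ)) 0 ρ := hd12.add hd3
  rw [hE, circleIntegral.integral_add hd13 hd4, circleIntegral.integral_add hd12 hd3,
    circleIntegral.integral_add hc5 hd2, circleIntegral.integral_const_mul,
    circleIntegral.integral_const_mul, circleIntegral.integral_const_mul, I5, I7, I3, I8] at hc2'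
  have hFb : F b * conj (F b) = ((‖F b‖ ^ 2 : ℝ) : ℂ) := by
    rw [Complex.mul_conj, Complex.normSq_eq_norm_sq]
  have hclam : conj lam = conj (F b) / ℓ := by
    rw [hlam, map_div₀, Complex.conj_ofReal]
  have hfin : (A:ℂ) = c2 + ((‖F b‖ ^ 2 : ℝ) : ℂ) / ℓ := by
    have h2pi : (2 * π * I : ℂ) ≠ 0 := two_pi_I_ne_zero
    apply mul_left_cancel₀ h2pi
    rw [← hFb]
    rw [hclam, hlam] at hc2'
    have h9 : (2 * π * I : ℂ) * A + F b / ℓ * -(2 * π * I * conj (F b)) +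
        conj (F b) / ℓ * -(2 * π * I * F b) + conj (F b) / ℓ * (F b / ℓ) * (2 * π * I * ℓ) =
        2 * π * I * (A - F b * conj (F b) / ℓ) := by
      field_simp
      ring
    rw [h9] at hc2'
    linear_combination hc2'
  have hfinr : A = c2 + ‖F b‖ ^ 2 / ℓ := by exact_mod_cast hfin
  have h10 : ‖F b‖ ^ 2 / ℓ ≤ - Real.log (1 - ‖a‖ ^ 2 / ρ ^ 2) := by linarith only [hAle, hc20, hfinr]
  rw [div_le_iff₀ hℓpos] at h10
  rw [hℓ] at h10
  (clear * - h10; linarith only [h10])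

/-- Goluzin's inequality at two points -/
theorem two_log (h : Ext β) {a b : ℂ} (ha : a ∈ ball (0:ℂ) 1) (ha0 : a ≠ 0)
    (hb : b ∈ ball (0:ℂ) 1) (hb0 : b ≠ 0) {F : ℂ → ℂ}
    (hF : ∀ ζ ∈ ball (0:ℂ) 1, HasDerivAt F (deriv (qq β a) ζ / qq β a ζ) ζ)
    (hF0 : F 0 = 0) (hexp : ∀ ζ ∈ ball (0:ℂ) 1, Complex.exp (F ζ) = qq β a ζ) :
    ‖F b‖ ^ 2 ≤ Real.log (1 - ‖a‖ ^ 2) * Real.log (1 - ‖b‖ ^ 2) := by
  have ha' : ‖a‖ < 1 := by simpa using ha
  have hb' : ‖b‖ < 1 := by simpa using hb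
  have hc : ∀ c : ℂ, ‖c‖ < 1 → ContinuousAt (fun ρ : ℝ => Real.log (1 - ‖c‖ ^ 2 / ρ ^ 2)) 1 := by
    intro c hc
    apply ContinuousAt.log
    · apply ContinuousAt.sub continuousAt_const
      apply ContinuousAt.div continuousAt_const (by fun_prop) (by norm_num)
    · have : ‖c‖ ^ 2 < 1 := by nlinarith only [norm_nonneg c, hc]
      simp only [one_pow, div_one]
      (clear * - this; linarith only [this])
  have hlim : Tendsto (fun ρ : ℝ => Real.log (1 - ‖a‖ ^ 2 / ρ ^ 2) *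
      Real.log (1 - ‖b‖ ^ 2 / ρ ^ 2)) (𝓝[<] 1)
      (𝓝 (Real.log (1 - ‖a‖ ^ 2) * Real.log (1 - ‖b‖ ^ 2))) := by
    have h2 := ((hc a ha').tendsto.mul (hc b hb').tendsto)
    rw [one_pow, div_one, div_one] at h2
    exact h2.mono_left nhdsWithin_le_nhds
  apply ge_of_tendsto hlim
  have h1 : Ioo (max ‖a‖ ‖b‖) 1 ∈ 𝓝[<] (1:ℝ) := Ioo_mem_nhdsLT (max_lt ha' hb')
  filter_upwards [h1] with ρ hρ
  have h2 : ‖a‖ < ρ := (le_max_left _ _).trans_lt hρ.1
  have h3 : ‖b‖ < ρ := (le_max_right _ _).trans_lt hρ.1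
  exact two_aux h ((norm_nonneg a).trans_lt h2) hρ.2 (by simpa using h2) ha0
    (by simpa using h3) hb0 hF hF0 hexp

/-- the logarithm of the difference quotient -/
theorem exists_log (h : Ext β) {a : ℂ} (ha : a ∈ ball (0:ℂ) 1) :
    ∃ F : ℂ → ℂ, F 0 = 0 ∧
      (∀ ζ ∈ ball (0:ℂ) 1, HasDerivAt F (deriv (qq β a) ζ / qq β a ζ) ζ) ∧
      ∀ ζ ∈ ball (0:ℂ) 1, Complex.exp (F ζ) = qq β a ζ := by
  have h0b : (0:ℂ) ∈ ball (0:ℂ) 1 := mem_ball_self one_pos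
  have hqd := qq_diff h.diff ha
  have hQd : DifferentiableOn ℂ (fun ζ => deriv (qq β a) ζ / qq β a ζ) (ball 0 1) :=
    (hqd.deriv isOpen_ball).div hqd (fun ζ hζ => qq_ne h ha hζ)
  obtain ⟨F, hF0, hF⟩ := hQd.isExactOn_ball.with_val_at 0 0
  refine ⟨F, hF0, hF, ?_⟩
  have hderiv : ∀ ζ ∈ ball (0:ℂ) 1, HasDerivAt (fun ζ => Complex.exp (-F ζ) * qq β a ζ) 0 ζ := by
    intro ζ hζ
    have h1 := ((hF ζ hζ).neg.cexp).mul
      ((hqd.differentiableAt (isOpen_ball.mem_nhds hζ)).hasDerivAt)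
    have h2 := qq_ne h ha hζ
    have e : (0:ℂ) = Complex.exp (-F ζ) * -(deriv (qq β a) ζ / qq β a ζ) * qq β a ζ +
        Complex.exp (-F ζ) * deriv (qq β a) ζ := by
      field_simp
      ring
    rw [e]
    exact h1
  intro ζ hζ
  have h1 : Complex.exp (-F ζ) * qq β a ζ = Complex.exp (-F 0) * qq β a 0 := by
    apply (convex_ball (0:ℂ) 1).is_const_of_fderivWithin_eq_zero (𝕜 := ℂ)
      (f := fun ζ => Complex.exp (-F ζ) * qq β a ζ) _ _ hζ h0b
    · intro ω hω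
      exact (hderiv ω hω).differentiableAt.differentiableWithinAt
    · intro ω hω
      have h3 := (hderiv ω hω).hasFDerivAt.hasFDerivWithinAt (s := ball (0:ℂ) 1)
      rw [h3.fderivWithin (isOpen_ball.uniqueDiffWithinAt hω)]
      ext
      simp
  rw [hF0, neg_zero, Complex.exp_zero, one_mul] at h1
  have h2 : qq β a 0 = 1 := by simp [qq]
  rw [h2, Complex.exp_neg] at h1
  have h3 := Complex.exp_ne_zero (F ζ)
  field_simp at h1
  exact h1.symm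

/-- the difference quotient is at least `1 - s^2` -/
theorem qq_ge (h : Ext β) {a b : ℂ} (ha0 : a ≠ 0) (hb0 : b ≠ 0) {s : ℝ} (hs : s < 1)
    (ha : ‖a‖ ≤ s) (hb : ‖b‖ ≤ s) : 1 - s ^ 2 ≤ ‖qq β a b‖ ∧ ‖qq β a b‖ ≤ 1 / (1 - s ^ 2) := by
  have ha1 : a ∈ ball (0:ℂ) 1 := by simpa using ha.trans_lt hs
  have hb1 : b ∈ ball (0:ℂ) 1 := by simpa using hb.trans_lt hs
  have hs0 : 0 ≤ s := (norm_nonneg a).trans ha
  have hs1 : 0 < 1 - s ^ 2 := by nlinarith only [hs, hs0]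
  obtain ⟨F, hF0, hF, hexp⟩ := exists_log h ha1
  have h1 := two_log h ha1 ha0 hb1 hb0 hF hF0 hexp
  have h2 : ∀ c : ℂ, ‖c‖ ≤ s → 0 ≤ -Real.log (1 - ‖c‖ ^ 2) ∧
      -Real.log (1 - ‖c‖ ^ 2) ≤ -Real.log (1 - s ^ 2) := by
    intro c hc
    have h3 : ‖c‖ ^ 2 ≤ s ^ 2 := pow_le_pow_left₀ (norm_nonneg c) hc 2
    refine ⟨?_, ?_⟩
    · rw [neg_nonneg]
      exact Real.log_nonpos (by linarith only [hs1, h3]) (by (clear * -; nlinarith only []))
    · exact neg_le_neg (Real.log_le_log hs1 (by linarith))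
  obtain ⟨ha2, ha3⟩ := h2 a ha
  obtain ⟨hb2, hb3⟩ := h2 b hb
  have h4 : ‖F b‖ ^ 2 ≤ (-Real.log (1 - s ^ 2)) ^ 2 := by
    calc ‖F b‖ ^ 2 ≤ (-Real.log (1 - ‖a‖ ^ 2)) * (-Real.log (1 - ‖b‖ ^ 2)) := by (clear * - h1; linarith)
      _ ≤ (-Real.log (1 - s ^ 2)) * (-Real.log (1 - s ^ 2)) := by gcongr; exact ha2.trans ha3
      _ = _ := by ring
  have h5 : ‖F b‖ ≤ -Real.log (1 - s ^ 2) := by
    have h6 : 0 ≤ -Real.log (1 - s ^ 2) := ha2.trans ha3
    exact le_of_sq_le_sq h4 h6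
  have h7 : ‖qq β a b‖ = Real.exp (F b).re := by
    rw [← hexp b hb1, Complex.norm_exp]
  have h8 : |(F b).re| ≤ -Real.log (1 - s ^ 2) := (Complex.abs_re_le_norm _).trans h5
  rw [abs_le] at h8
  rw [h7]
  constructor
  · calc 1 - s ^ 2 = Real.exp (Real.log (1 - s ^ 2)) := (Real.exp_log hs1).symm
      _ ≤ _ := Real.exp_le_exp.2 (by (clear * - h8; linarith only [h8]))
  · calc Real.exp (F b).re ≤ Real.exp (-Real.log (1 - s ^ 2)) := Real.exp_le_exp.2 h8.2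
      _ = 1 / (1 - s ^ 2) := by rw [Real.exp_neg, Real.exp_log hs1, one_div]

/-- lower bound, in the coordinate `ζ = 1/z` -/
theorem phi_sub_ge (h : Ext β) {a b : ℂ} (ha0 : a ≠ 0) (hb0 : b ≠ 0) {s : ℝ} (hs : s < 1)
    (ha : ‖a‖ ≤ s) (hb : ‖b‖ ≤ s) :
    (1 - s ^ 2) * ‖b⁻¹ - a⁻¹‖ ≤ ‖phi β b - phi β a‖ := by
  rw [phi_sub a b ha0 hb0, norm_mul, mul_comm]
  exact mul_le_mul_of_nonneg_left (qq_ge h ha0 hb0 hs ha hb).1 (norm_nonneg _)

/-- upper bound, in the coordinate `ζ = 1/z` -/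
theorem phi_sub_le (h : Ext β) {a b : ℂ} (ha0 : a ≠ 0) (hb0 : b ≠ 0) {s : ℝ} (hs : s < 1)
    (ha : ‖a‖ ≤ s) (hb : ‖b‖ ≤ s) :
    ‖phi β b - phi β a‖ ≤ ‖b⁻¹ - a⁻¹‖ / (1 - s ^ 2) := by
  rw [phi_sub a b ha0 hb0, norm_mul, div_eq_mul_one_div]
  exact mul_le_mul_of_nonneg_left (qq_ge h ha0 hb0 hs ha hb).2 (norm_nonneg _)

section

variable {ψ : ℂ → ℂ}

end

end Pool.Agent.Helper77.CK

end

section

namespace Pool.Agent.Helper39.Area
end Pool.Agent.Helper39.Area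

/-!
# CK: uniform bounds in the class `Ext`
-/

set_option autoImplicit false

open Complex Metric Set Filter Topology

open scoped ComplexConjugate

namespace Pool.Agent.Helper77.CK

open Pool.Agent.Helper39.Area

variable {β : ℂ → ℂ}

/-- bounds for `ψ'(1/z) = 1 - z^2 β'(z)` -/
theorem N_bounds (h : Ext β) {z : ℂ} (hz : ‖z‖ < 1) :
    1 - ‖z‖ ^ 2 ≤ ‖1 - z ^ 2 * deriv β z‖ ∧ ‖1 - z ^ 2 * deriv β z‖ ≤ 1 / (1 - ‖z‖ ^ 2) := by
  by_cases h0 : z = 0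
  · subst h0
    simp
  · have h1 := qq_ge h h0 h0 hz le_rfl le_rfl
    have h2 : qq β z z = 1 - z ^ 2 * deriv β z := by
      unfold qq
      rw [dslope_same]
      ring
    rwa [h2] at h1

theorem dphi_eq {z : ℂ} (h0 : z ≠ 0) : dphi β z = -(1 - z ^ 2 * deriv β z) / z ^ 2 := by
  unfold dphi
  field_simp
  ring

/-- (a) bounds for `φ'` -/
theorem dphi_bounds (h : Ext β) {η : ℝ} (hη : 0 < η) {z : ℂ} (h1 : η ≤ ‖z‖) (h2 : ‖z‖ ≤ 1 - η) :
    η ≤ ‖dphi β z‖ ∧ ‖dphi β z‖ ≤ (η ^ 3)⁻¹ := by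
  have hz0 : 0 < ‖z‖ := hη.trans_le h1
  have h0 : z ≠ 0 := norm_pos_iff.mp hz0
  have hz1 : ‖z‖ < 1 := by (clear * - hη h2; linarith only [hη, h2])
  obtain ⟨h3, h4⟩ := N_bounds h hz1
  have h5 : ‖z‖ ^ 2 ≤ 1 := by nlinarith only [hη, h1, h2]
  have h6 : 0 < ‖z‖ ^ 2 := by (clear * - h0; positivity)
  have h7 : η ≤ 1 - ‖z‖ ^ 2 := by (clear * - h2 hη h1; nlinarith only [hη, h1, h2])
  rw [dphi_eq h0, norm_div, norm_neg, norm_pow]
  constructor
  · rw [le_div_iff₀ h6]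
    nlinarith only [h3, h5, h7]
  · rw [div_le_iff₀ h6]
    have h8 : 1 / (1 - ‖z‖ ^ 2) ≤ 1 / η := one_div_le_one_div_of_le hη h7
    have h9 : η ^ 2 ≤ ‖z‖ ^ 2 := pow_le_pow_left₀ hη.le h1 2
    calc ‖1 - z ^ 2 * deriv β z‖ ≤ 1 / η := h4.trans h8
      _ = (η ^ 3)⁻¹ * η ^ 2 := by field_simp
      _ ≤ (η ^ 3)⁻¹ * ‖z‖ ^ 2 := by gcongr

/-- (b) Koebe's lower bound -/
theorem koebe_phi (h : Ext β) {p y : ℂ} {r : ℝ} (hr : 0 < r) (h1 : r ≤ ‖p‖) (h2 : r ≤ 1 - ‖p‖)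
    (hy : y ∈ ball (0:ℂ) 1) (hy0 : y ≠ 0) (h3 : r ≤ ‖y - p‖) :
    r * ‖dphi β p‖ ≤ 4 * ‖phi β y - phi β p‖ := by
  have hp1 : ‖p‖ < 1 := by linarith only [hr, h2]
  have hp0 : p ≠ 0 := norm_pos_iff.mp (hr.trans_le h1)
  have hm : ∀ u ∈ ball (0:ℂ) r, p + u ∈ ball (0:ℂ) 1 ∧ p + u ≠ 0 := by
    intro u hu
    rw [mem_ball_zero_iff] at hu
    constructor
    · rw [mem_ball_zero_iff]
      exact (norm_add_le _ _).trans_lt (by (clear * - h2 hu; linarith only [h2, hu]))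
    · intro h0
      have : ‖p‖ = ‖u‖ := by
        rw [← norm_neg u]
        congr 1
        linear_combination h0
      (clear * - h1 hu this; linarith only [h1, hu, this])
  have hdat : ∀ u ∈ ball (0:ℂ) r, HasDerivAt (fun u => phi β (p + u) - phi β y)
      (dphi β (p + u)) u := by
    intro u hu
    have h4 := hasDerivAt_phi h.diff (hm u hu).1 (hm u hu).2
    have h5 : HasDerivAt (fun u : ℂ => p + u) 1 u := (hasDerivAt_id u).const_add p
    have h6 := h4.comp u h5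
    rw [mul_one] at h6
    exact h6.sub_const _
  have h4 := Pool.Agent.Helper84.EK.koebe_r (g := fun u => phi β (p + u) - phi β y) hr
    (fun u hu => (hdat u hu).differentiableAt.differentiableWithinAt) ?_ ?_
  · rw [(hdat 0 (mem_ball_self hr)).deriv, add_zero] at h4
    rw [norm_sub_rev (phi β y), mul_comm]
    exact h4
  · intro u hu v hv huv
    have h5 : phi β (p + u) = phi β (p + v) := by
      have h6 : phi β (p + u) - phi β y = phi β (p + v) - phi β y := huv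
      linear_combination h6
    have h6 := h.inj (p + u) (p + v) (hm u hu).1 (hm v hv).1 (hm u hu).2 (hm v hv).2 h5
    linear_combination h6
  · intro u hu h0
    have h5 : phi β (p + u) = phi β y := sub_eq_zero.mp h0
    have h6 := h.inj (p + u) y (hm u hu).1 hy (hm u hu).2 hy0 h5
    rw [← h6, add_sub_cancel_left] at h3
    rw [mem_ball_zero_iff] at hu
    linarith

/-- bound for `β'` -/
theorem dbeta_le (h : Ext β) {s : ℝ} (hs : 1 / 2 ≤ s) (hs1 : s < 1) {z : ℂ} (hz : ‖z‖ ≤ s) :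
    ‖deriv β z‖ ≤ 4 * (1 + 1 / (1 - s ^ 2)) := by
  have hs0 : 0 < s := by (clear * - hs hs1; linarith)
  have hd : DifferentiableOn ℂ (deriv β) (ball 0 1) := h.diff.deriv isOpen_ball
  have hcl : closure (ball (0:ℂ) s) ⊆ ball 0 1 := by
    rw [closure_ball _ hs0.ne']
    exact closedBall_subset_ball hs1
  have h1 : DiffContOnCl ℂ (deriv β) (ball 0 s) := (hd.mono hcl).diffContOnCl
  have hs2 : 0 < 1 - s ^ 2 := by (clear * - hs1 hs; nlinarith only [hs, hs1])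
  refine Complex.norm_le_of_forall_mem_frontier_norm_le isBounded_ball h1 ?_ ?_
  · intro w hw
    rw [frontier_ball _ hs0.ne', mem_sphere_zero_iff_norm] at hw
    have hw1 : ‖w‖ < 1 := by rw [hw]; exact hs1
    have h2 := (N_bounds h hw1).2
    rw [hw] at h2
    have h3 : ‖w ^ 2 * deriv β w‖ ≤ 1 + 1 / (1 - s ^ 2) := by
      have h4 : w ^ 2 * deriv β w = 1 - (1 - w ^ 2 * deriv β w) := by ring
      rw [h4]
      refine (norm_sub_le _ _).trans ?_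
      rw [norm_one]
      (clear * - h2; linarith only [h2])
    rw [norm_mul, norm_pow, hw] at h3
    have h5 : (1:ℝ) / 4 ≤ s ^ 2 := by (clear * - hs; nlinarith only [hs])
    (clear * - h3 h5; nlinarith only [norm_nonneg (deriv β w), h3, h5])
  · rw [closure_ball _ hs0.ne', mem_closedBall_zero_iff]
    exact hz

/-- (c) bound for `β` -/
theorem beta_le (h : Ext β) (h0 : β 0 = 0) {s : ℝ} (hs : 1 / 2 ≤ s) (hs1 : s < 1) {z : ℂ}
    (hz : ‖z‖ ≤ s) : ‖β z‖ ≤ 4 * (1 + 1 / (1 - s ^ 2)) := by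
  have hs0 : 0 < s := by linarith
  have hs2 : 0 < 1 - s ^ 2 := by (clear * - hs1 hs0; nlinarith only [hs1, hs0])
  have h1 : ∀ w ∈ closedBall (0:ℂ) s, DifferentiableAt ℂ β w := fun w hw =>
    h.diff.differentiableAt (isOpen_ball.mem_nhds (closedBall_subset_ball hs1 hw))
  have h2 : ∀ w ∈ closedBall (0:ℂ) s, ‖deriv β w‖ ≤ 4 * (1 + 1 / (1 - s ^ 2)) := fun w hw =>
    dbeta_le h hs hs1 (by simpa using hw)
  have h3 := (convex_closedBall (0:ℂ) s).norm_image_sub_le_of_norm_deriv_le h1 h2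
    (mem_closedBall_self hs0.le) (mem_closedBall_zero_iff.2 hz)
  rw [h0, sub_zero, sub_zero] at h3
  refine h3.trans ?_
  have h4 : 0 ≤ 4 * (1 + 1 / (1 - s ^ 2)) := by (clear * - hs2; positivity)
  (clear * - hs1 h4 hz; nlinarith only [hs1, hz, h4])

/-- (c) uniform form -/
theorem exists_beta_le {η : ℝ} (hη : 0 < η) : ∃ C : ℝ, 0 < C ∧ ∀ β : ℂ → ℂ, Ext β → β 0 = 0 →
    ∀ z : ℂ, ‖z‖ ≤ 1 - η → ‖β z‖ ≤ C ∧ ‖deriv β z‖ ≤ C := by
  have h1 : 0 < min η (1 / 2) := lt_min hη (by norm_num)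
  have h2 : 1 / 2 ≤ 1 - min η (1 / 2) := by linarith [min_le_right η (1 / 2)]
  have h3 : 1 - min η (1 / 2) < 1 := by (clear * - h1; linarith only [h1])
  have h4 : 0 < 1 - (1 - min η (1 / 2)) ^ 2 := by (clear * - h3 h2; nlinarith only [h2, h3])
  refine ⟨4 * (1 + 1 / (1 - (1 - min η (1 / 2)) ^ 2)), by (clear * - h4; positivity), ?_⟩
  intro β h h0 z hz
  have h5 : ‖z‖ ≤ 1 - min η (1 / 2) := hz.trans (by linarith only [min_le_left η (1 / 2)])
  exact ⟨beta_le h h0 h2 h3 h5, dbeta_le h h2 h3 h5⟩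

end Pool.Agent.Helper77.CK

end

section

namespace Pool.Agent.Helper39.Area
end Pool.Agent.Helper39.Area
namespace Pool.Agent.Helper5.CK
end Pool.Agent.Helper5.CK

/-!
# CK: first order expansion of `W (φ (ψ z))`
-/

set_option autoImplicit false

open Complex Metric Set Filter Topology

open scoped ComplexConjugate

namespace Pool.Agent.Helper77.CK

open Pool.Agent.Helper39.Area Pool.Agent.Helper5.CK

variable {β : ℂ → ℂ}

/-- bound for the vector field -/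
theorem hh_le {η s : ℝ} (hη : 0 < η) (hs : 0 < s) {p τ z : ℂ} (hp : ‖p‖ ≤ 1 - η) (hz : ‖z‖ ≤ 1)
    (hzp : s ≤ ‖z - p‖) : ‖hh p τ z‖ ≤ (1 / s + 1 / η) * ‖τ‖ := by
  have hp0 := norm_nonneg p
  have hz0 := norm_nonneg z
  have h1 : ‖(z + p) / (z - p)‖ ≤ 2 / s := by
    rw [norm_div]
    have h2 : ‖z + p‖ ≤ 2 := (norm_add_le _ _).trans (by (clear * - hη hp hz; linarith))
    exact div_le_div₀ (by norm_num) h2 hs hzp
  have h3 : ‖conj p * z‖ ≤ 1 - η := by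
    rw [norm_mul, RCLike.norm_conj]
    (clear * - hp hz hp0; nlinarith only [hp, hz, hp0])
  have h4 : η ≤ ‖1 - conj p * z‖ := by
    have h5 : ‖(1:ℂ)‖ - ‖conj p * z‖ ≤ ‖1 - conj p * z‖ := norm_sub_norm_le _ _
    rw [norm_one] at h5
    linarith only [h3, h5]
  have h6 : ‖(1 + conj p * z) / (1 - conj p * z)‖ ≤ 2 / η := by
    rw [norm_div]
    have h2 : ‖1 + conj p * z‖ ≤ 2 := (norm_add_le _ _).trans (by rw [norm_one]; linarith only [hη, h3])
    exact div_le_div₀ (by norm_num) h2 hη h4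
  unfold hh
  rw [norm_mul]
  have h7 : ‖τ * ((z + p) / (z - p)) - conj τ * ((1 + conj p * z) / (1 - conj p * z))‖ ≤
      ‖τ‖ * (2 / s) + ‖τ‖ * (2 / η) := by
    refine (norm_sub_le _ _).trans (add_le_add ?_ ?_)
    · rw [norm_mul]
      exact mul_le_mul_of_nonneg_left h1 (norm_nonneg _)
    · rw [norm_mul, RCLike.norm_conj]
      exact mul_le_mul_of_nonneg_left h6 (norm_nonneg _)
  have h8 : ‖(1 / 2 : ℂ)‖ = 1 / 2 := by simp
  rw [h8]
  calc 1 / 2 * ‖τ * ((z + p) / (z - p)) - conj τ * ((1 + conj p * z) / (1 - conj p * z))‖ ≤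
      1 / 2 * (‖τ‖ * (2 / s) + ‖τ‖ * (2 / η)) := by (clear * - h7; gcongr)
    _ = _ := by ring

/-- second order Taylor bound for `φ` -/
theorem taylor_phi (h : Ext β) {η : ℝ} (hη : 0 < η) {z w : ℂ} (h1 : η ≤ ‖z‖) (h2 : ‖z‖ ≤ 1 - η)
    (hw : ‖w - z‖ ≤ η / 2) :
    ‖phi β w - phi β z - dphi β z * (w - z)‖ ≤ 256 / η ^ 4 * ‖w - z‖ ^ 2 ∧
      ‖phi β w - phi β z‖ ≤ 64 / η ^ 3 * ‖w - z‖ := by
  have hη4 : 0 < η / 4 := by (clear * - hη; linarith only [hη])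
  have hη2 : 0 < η / 2 := by (clear * - hη4; linarith only [hη4])
  -- the annulus of size `η / 4`
  have hb : ∀ v : ℂ, ‖v - z‖ ≤ 3 * η / 4 → ‖dphi β v‖ ≤ 64 / η ^ 3 ∧ v ∈ ball (0:ℂ) 1 ∧ v ≠ 0 := by
    intro v hv
    have h3 : ‖v‖ ≤ ‖z‖ + ‖v - z‖ := by
      calc ‖v‖ = ‖z + (v - z)‖ := by congr 1; ring
        _ ≤ _ := norm_add_le _ _
    have h4 : ‖z‖ ≤ ‖v‖ + ‖v - z‖ := by
      calc ‖z‖ = ‖v - (v - z)‖ := by congr 1; ring
        _ ≤ _ := norm_sub_le _ _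
    have h5 := (dphi_bounds h hη4 (z := v) (by (clear * - h1 hv h4; linarith only [h1, hv, h4])) (by linarith only [h2, hv, h3])).2
    refine ⟨h5.trans (le_of_eq ?_), ?_, ?_⟩
    · field_simp
      norm_num
    · rw [mem_ball_zero_iff]
      linarith only [h2, hη2, hv, h3]
    · intro h0
      have h6 : ‖v‖ = 0 := by rw [h0, norm_zero]
      linarith only [h1, hη2, hv, h4, h6]
  have hU : ∀ v ∈ ball z (3 * η / 4), HasDerivAt (phi β) (dphi β v) v := by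
    intro v hv
    rw [mem_ball_iff_norm] at hv
    exact hasDerivAt_phi h.diff (hb v hv.le).2.1 (hb v hv.le).2.2
  have hphid : DifferentiableOn ℂ (phi β) (ball z (3 * η / 4)) := fun v hv =>
    (hU v hv).differentiableAt.differentiableWithinAt
  have hdd : DifferentiableOn ℂ (dphi β) (ball z (3 * η / 4)) := by
    have h3 : DifferentiableOn ℂ (deriv (phi β)) (ball z (3 * η / 4)) := hphid.deriv isOpen_ball
    apply h3.congr
    intro v hv
    exact (hU v hv).deriv.symm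
  -- second derivative
  have hsec : ∀ v ∈ closedBall z (η / 2), ‖deriv (dphi β) v‖ ≤ 256 / η ^ 4 := by
    intro v hv
    rw [mem_closedBall_iff_norm] at hv
    -- a slightly smaller circle
    have h3 : ∀ r : ℝ, 0 < r → r < η / 4 → ‖deriv (dphi β) v‖ ≤ 64 / η ^ 3 / r := by
      intro r hr hr4
      have h4 : closure (ball v r) ⊆ ball z (3 * η / 4) := by
        rw [closure_ball _ hr.ne']
        intro u hu
        rw [mem_closedBall_iff_norm] at hu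
        rw [mem_ball_iff_norm]
        calc ‖u - z‖ = ‖(u - v) + (v - z)‖ := by congr 1; ring
          _ ≤ ‖u - v‖ + ‖v - z‖ := norm_add_le _ _
          _ < _ := by linarith only [hv, hr4, hu]
      apply Complex.norm_deriv_le_of_forall_mem_sphere_norm_le hr (hdd.mono h4).diffContOnCl
      intro u hu
      rw [mem_sphere_iff_norm] at hu
      apply (hb u _).1
      calc ‖u - z‖ = ‖(u - v) + (v - z)‖ := by congr 1; ring
        _ ≤ ‖u - v‖ + ‖v - z‖ := norm_add_le _ _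
        _ ≤ _ := by (clear * - hv hr4 hu; linarith)
    have h5 : ContinuousAt (fun r : ℝ => 64 / η ^ 3 / r) (η / 4) :=
      continuousAt_const.div continuousAt_id hη4.ne'
    have h6 : Tendsto (fun r : ℝ => 64 / η ^ 3 / r) (𝓝[<] (η / 4)) (𝓝 (64 / η ^ 3 / (η / 4))) :=
      h5.tendsto.mono_left nhdsWithin_le_nhds
    have h7 : ‖deriv (dphi β) v‖ ≤ 64 / η ^ 3 / (η / 4) := by
      apply ge_of_tendsto h6
      filter_upwards [Ioo_mem_nhdsLT hη4] with r hr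
      exact h3 r hr.1 hr.2
    refine h7.trans (le_of_eq ?_)
    field_simp
    norm_num
  have hsub : closedBall z (η / 2) ⊆ ball z (3 * η / 4) := closedBall_subset_ball (by linarith only [hη2])
  have hzc : z ∈ closedBall z (η / 2) := mem_closedBall_self hη2.le
  have hwc : w ∈ closedBall z (η / 2) := mem_closedBall_iff_norm.2 hw
  have hlip : ∀ v ∈ closedBall z (η / 2), ‖dphi β v - dphi β z‖ ≤ 256 / η ^ 4 * ‖v - z‖ := by
    intro v hv
    exact (convex_closedBall z (η / 2)).norm_image_sub_le_of_norm_deriv_le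
      (fun u hu => hdd.differentiableAt (isOpen_ball.mem_nhds (hsub hu))) hsec hzc hv
  constructor
  · have h8 : ∀ u ∈ closedBall z ‖w - z‖, HasDerivWithinAt
        (fun u => phi β u - dphi β z * u) (dphi β u - dphi β z) (closedBall z ‖w - z‖) u := by
      intro u hu
      have h9 : u ∈ ball z (3 * η / 4) := hsub (closedBall_subset_closedBall hw hu)
      have h10 := (hU u h9).sub ((hasDerivAt_id u).const_mul (dphi β z))
      rw [mul_one] at h10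
      exact h10.hasDerivWithinAt
    have h9 : ∀ u ∈ closedBall z ‖w - z‖, ‖dphi β u - dphi β z‖ ≤ 256 / η ^ 4 * ‖w - z‖ := by
      intro u hu
      have h10 := hlip u (closedBall_subset_closedBall hw hu)
      rw [mem_closedBall_iff_norm] at hu
      exact h10.trans (by (clear * - hu hη; gcongr))
    have h10 := (convex_closedBall z ‖w - z‖).norm_image_sub_le_of_norm_hasDerivWithin_le h8 h9
      (mem_closedBall_self (norm_nonneg _)) (mem_closedBall_iff_norm.2 le_rfl)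
    have e : phi β w - phi β z - dphi β z * (w - z) =
        phi β w - dphi β z * w - (phi β z - dphi β z * z) := by ring
    rw [e]
    refine h10.trans (le_of_eq ?_)
    ring
  · exact (convex_closedBall z (η / 2)).norm_image_sub_le_of_norm_hasDerivWithin_le
      (fun u hu => (hU u (hsub hu)).hasDerivWithinAt)
      (fun u hu => (hb u ((mem_closedBall_iff_norm.1 hu).trans (by linarith only [hη2]))).1) hzc hwc

/-- (V6) the expansion -/
theorem expand (η s : ℝ) (hη : 0 < η) (hs : 0 < s) : ∃ C : ℝ, 0 < C ∧ ∀ β : ℂ → ℂ, Ext β →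
    ∀ p : ℂ, η ≤ ‖p‖ → ‖p‖ ≤ 1 - η → ∀ τ : ℂ, C * ‖τ‖ ≤ 1 →
    ∀ z : ℂ, η ≤ ‖z‖ → ‖z‖ ≤ 1 - η → s ≤ ‖z - p‖ →
      C⁻¹ ≤ ‖phi β (psi p τ z) - phi β p‖ ∧ ‖VV β p τ z‖ ≤ C * ‖τ‖ ∧
      ‖phi β (psi p τ z) + eps β p τ / (phi β (psi p τ z) - phi β p) - phi β z - VV β p τ z‖ ≤
        C * ‖τ‖ ^ 2 := by
  obtain ⟨A, hA⟩ : ∃ A, A = 1 / s + 1 / η := ⟨_, rfl⟩
  have hA0 : 0 < A := by rw [hA]; (clear * - hs hη; positivity)
  obtain ⟨D, hD⟩ : ∃ D, D = 64 / η ^ 3 := ⟨_, rfl⟩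
  have hD0 : 0 < D := by rw [hD]; (clear * - hη; positivity)
  obtain ⟨c, hc⟩ : ∃ c, c = min η (s / 2) * η / 4 := ⟨_, rfl⟩
  have hm0 : 0 < min η (s / 2) := lt_min hη (by linarith only [hs])
  have hc0 : 0 < c := by rw [hc]; positivity
  -- the constant
  obtain ⟨C, hC⟩ : ∃ C, C = c⁻¹ + A + 4 * A / η + 4 * A / s + (D ^ 2 / c + D * A) +
      (256 / η ^ 4 * (4 * A ^ 2) + D * A ^ 2 + D ^ 2 * (D * (2 * A)) / c ^ 2) := ⟨_, rfl⟩
  have t1 : 0 ≤ c⁻¹ := by positivity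
  have t3 : 0 ≤ 4 * A / η := by positivity
  have t4 : 0 ≤ 4 * A / s := by positivity
  have t5 : 0 ≤ D ^ 2 / c + D * A := by (clear * - hD0 hc0 hA0; positivity)
  have t6 : 0 ≤ 256 / η ^ 4 * (4 * A ^ 2) + D * A ^ 2 + D ^ 2 * (D * (2 * A)) / c ^ 2 := by
    (clear * - hη hA0 hD0 hc0; positivity)
  have hC0 : 0 < C := by rw [hC]; linarith only [hA0, t1, t3, t4, t5, t6]
  refine ⟨C, hC0, ?_⟩
  intro β h p hp1 hp2 τ hτ z hz1 hz2 hzp
  have hτ0 := norm_nonneg τ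
  have hle : ∀ X : ℝ, X ≤ C → X * ‖τ‖ ≤ 1 := fun X hX => (mul_le_mul_of_nonneg_right hX hτ0).trans hτ
  have hh1 : ‖hh p τ z‖ ≤ A * ‖τ‖ := by
    rw [hA]
    exact hh_le hη hs hp2 (by linarith only [hη, hz2]) hzp
  have hA1 : A * ‖τ‖ ≤ 1 := hle A (by rw [hC]; (clear * - t1 t3 t4 t5 t6; linarith))
  have hA2 : 2 * (A * ‖τ‖) ≤ η / 2 := by
    have h1 := hle (4 * A / η) (by rw [hC]; linarith only [hA0, t1, t4, t5, t6])
    rw [div_mul_eq_mul_div, div_le_iff₀ hη] at h1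
    linarith only [h1]
  have hA3 : 2 * (A * ‖τ‖) ≤ s / 2 := by
    have h1 := hle (4 * A / s) (by rw [hC]; linarith only [hA0, t1, t3, t5, t6])
    rw [div_mul_eq_mul_div, div_le_iff₀ hs] at h1
    linarith only [h1]
  have hzn : ‖z‖ ≤ 1 := by linarith only [hη, hz2]
  have he1 : ‖psi p τ z - z‖ ≤ 2 * (A * ‖τ‖) := by
    have h1 : psi p τ z - z = z * (Complex.exp (hh p τ z) - 1) := by unfold psi; ring
    rw [h1, norm_mul]
    have h2 := Complex.norm_exp_sub_one_le (hh1.trans hA1)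
    have h3 := norm_nonneg (Complex.exp (hh p τ z) - 1)
    have h4 := norm_nonneg z
    (clear * - hh1 h2 hzn h3; nlinarith only [hh1, hzn, h2, h3])
  have he2 : ‖psi p τ z - z - z * hh p τ z‖ ≤ (A * ‖τ‖) ^ 2 := by
    have h1 : psi p τ z - z - z * hh p τ z = z * (Complex.exp (hh p τ z) - 1 - hh p τ z) := by
      unfold psi; ring
    rw [h1, norm_mul]
    have h2 := Complex.norm_exp_sub_one_sub_id_le (hh1.trans hA1)
    have h3 := norm_nonneg (Complex.exp (hh p τ z) - 1 - hh p τ z)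
    have h4 := norm_nonneg z
    have h5 : ‖hh p τ z‖ ^ 2 ≤ (A * ‖τ‖) ^ 2 := pow_le_pow_left₀ (norm_nonneg _) hh1 2
    (clear * - h5 hzn h2 h4; nlinarith only [hzn, h2, h4, h5])
  set w : ℂ := psi p τ z with hw
  obtain ⟨hT1, hT2⟩ := taylor_phi h hη hz1 hz2 (he1.trans hA2)
  rw [← hD] at hT2
  have hdz : ‖dphi β z‖ ≤ D := by
    refine (dphi_bounds h hη hz1 hz2).2.trans ?_
    rw [hD, inv_eq_one_div]
    gcongr
    norm_num
  have hdp := dphi_bounds h hη hp1 hp2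
  have hdpD : ‖dphi β p‖ ≤ D := by
    refine hdp.2.trans ?_
    rw [hD, inv_eq_one_div]
    gcongr
    norm_num
  -- points near `z`
  have hkoe : ∀ y : ℂ, y ∈ ball (0:ℂ) 1 → y ≠ 0 → s / 2 ≤ ‖y - p‖ → c ≤ ‖phi β y - phi β p‖ := by
    intro y hy1 hy0 hyp
    have h1 := koebe_phi h hm0 ((min_le_left _ _).trans hp1)
      ((min_le_left η (s / 2)).trans (by linarith only [hp2])) hy1 hy0 ((min_le_right _ _).trans hyp)
    have h2 : min η (s / 2) * η ≤ min η (s / 2) * ‖dphi β p‖ :=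
      mul_le_mul_of_nonneg_left hdp.1 hm0.le
    rw [hc]
    linarith only [h1, h2]
  have hw3 : ‖w‖ ≤ ‖z‖ + ‖w - z‖ := by
    calc ‖w‖ = ‖z + (w - z)‖ := by congr 1; ring
      _ ≤ _ := norm_add_le _ _
  have hw4 : ‖z‖ ≤ ‖w‖ + ‖w - z‖ := by
    calc ‖z‖ = ‖w - (w - z)‖ := by congr 1; ring
      _ ≤ _ := norm_sub_le _ _
  have hw5 : ‖z - p‖ ≤ ‖w - p‖ + ‖w - z‖ := by
    calc ‖z - p‖ = ‖(w - p) - (w - z)‖ := by congr 1; ring
      _ ≤ _ := norm_sub_le _ _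
  have hwb : w ∈ ball (0:ℂ) 1 := by
    rw [mem_ball_zero_iff]
    linarith only [hη, hz2, hA2, he1, hw3]
  have hw0 : w ≠ 0 := by
    intro h0
    rw [h0, norm_zero, zero_sub, norm_neg] at hw4
    rw [h0, zero_sub, norm_neg] at he1
    linarith only [hη, hz1, hA2, he1]
  have hzb : z ∈ ball (0:ℂ) 1 := by
    rw [mem_ball_zero_iff]
    linarith only [hη, hz2]
  have hz0 : z ≠ 0 := norm_pos_iff.mp (hη.trans_le hz1)
  have hkw := hkoe w hwb hw0 (by linarith only [hzp, hA3, he1, hw5])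
  have hkz := hkoe z hzb hz0 (by linarith only [hs, hzp])
  have hkw0 : phi β w - phi β p ≠ 0 := norm_pos_iff.mp (hc0.trans_le hkw)
  have hkz0 : phi β z - phi β p ≠ 0 := norm_pos_iff.mp (hc0.trans_le hkz)
  have heps : ‖eps β p τ‖ ≤ D ^ 2 * ‖τ‖ := by
    unfold eps
    rw [norm_neg, norm_mul, norm_mul, norm_pow, norm_pow]
    have h1 : ‖p‖ ^ 2 ≤ 1 := by
      have := norm_nonneg p
      (clear * - hp2 hη hp1; nlinarith only [hη, hp1, hp2])
    have h2 : ‖dphi β p‖ ^ 2 ≤ D ^ 2 := pow_le_pow_left₀ (norm_nonneg _) hdpD 2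
    calc ‖τ‖ * ‖p‖ ^ 2 * ‖dphi β p‖ ^ 2 ≤ ‖τ‖ * 1 * D ^ 2 := by (clear * - h1 h2; gcongr)
      _ = _ := by ring
  refine ⟨?_, ?_, ?_⟩
  · refine le_trans ?_ hkw
    rw [inv_le_comm₀ hC0 hc0, hC]
    linarith only [hA0, t3, t4, t5, t6]
  · unfold VV
    have h1 : ‖eps β p τ / (phi β z - phi β p)‖ ≤ D ^ 2 * ‖τ‖ / c := by
      rw [norm_div]
      exact div_le_div₀ (by (clear * - hD0; positivity)) heps hc0 hkz
    have h2 : ‖dphi β z * (z * hh p τ z)‖ ≤ D * (A * ‖τ‖) := by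
      rw [norm_mul, norm_mul]
      have h3 : ‖z‖ * ‖hh p τ z‖ ≤ 1 * (A * ‖τ‖) := by (clear * - hzn hh1; gcongr)
      rw [one_mul] at h3
      (clear * - hdz h3 hz0 hD0; gcongr)
    calc ‖eps β p τ / (phi β z - phi β p) + dphi β z * (z * hh p τ z)‖ ≤
        D ^ 2 * ‖τ‖ / c + D * (A * ‖τ‖) := (norm_add_le _ _).trans (add_le_add h1 h2)
      _ = (D ^ 2 / c + D * A) * ‖τ‖ := by ring
      _ ≤ C * ‖τ‖ := by
          apply mul_le_mul_of_nonneg_right _ hτ0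
          rw [hC]
          linarith only [hA0, t1, t3, t4, t6]
  · have e : phi β w + eps β p τ / (phi β w - phi β p) - phi β z - VV β p τ z =
        (phi β w - phi β z - dphi β z * (w - z)) + dphi β z * (w - z - z * hh p τ z) -
          eps β p τ * (phi β w - phi β z) / ((phi β w - phi β p) * (phi β z - phi β p)) := by
      unfold VV
      field_simp
      ring
    rw [e]
    have h1 : ‖phi β w - phi β z - dphi β z * (w - z)‖ ≤ 256 / η ^ 4 * (2 * (A * ‖τ‖)) ^ 2 := by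
      refine hT1.trans ?_
      (clear * - he1 hη; gcongr)
    have h2 : ‖dphi β z * (w - z - z * hh p τ z)‖ ≤ D * (A * ‖τ‖) ^ 2 := by
      rw [norm_mul]
      (clear * - hdz he2 hD0; gcongr)
    have h3 : ‖eps β p τ * (phi β w - phi β z) / ((phi β w - phi β p) * (phi β z - phi β p))‖ ≤
        D ^ 2 * ‖τ‖ * (D * (2 * (A * ‖τ‖))) / (c * c) := by
      rw [norm_div, norm_mul, norm_mul]
      have h4 : ‖phi β w - phi β z‖ ≤ D * (2 * (A * ‖τ‖)) := hT2.trans (by (clear * - he1 hD0; gcongr))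
      apply div_le_div₀ (by (clear * - hD0 hA0; positivity))
      · (clear * - heps h4 hD0; gcongr)
      · positivity
      · (clear * - hkw hkz hc0 hkw0; gcongr)
    calc _ ≤ 256 / η ^ 4 * (2 * (A * ‖τ‖)) ^ 2 + D * (A * ‖τ‖) ^ 2 +
          D ^ 2 * ‖τ‖ * (D * (2 * (A * ‖τ‖))) / (c * c) :=
          (norm_sub_le _ _).trans (add_le_add ((norm_add_le _ _).trans (add_le_add h1 h2)) h3)
      _ = (256 / η ^ 4 * (4 * A ^ 2) + D * A ^ 2 + D ^ 2 * (D * (2 * A)) / c ^ 2) * ‖τ‖ ^ 2 := by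
          ring
      _ ≤ C * ‖τ‖ ^ 2 := by
          apply mul_le_mul_of_nonneg_right _ (by (clear * -; positivity))
          rw [hC]
          linarith only [hA0, t1, t3, t4, t5]

end Pool.Agent.Helper77.CK

end

section

namespace Pool.Agent.Helper39.Area
end Pool.Agent.Helper39.Area
namespace Pool.Agent.Helper47.CMV
end Pool.Agent.Helper47.CMV

set_option autoImplicit false

open Complex Metric Set Filter Topology

open scoped ComplexConjugate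

namespace Pool.Agent.Helper5.CK

open Pool.Agent.Helper39.Area

open Pool.Agent.Helper47.CMV (HH LL HH_nonneg LL_nonneg hh_re_abs_le psi_sub_le psi_inv_sub_ge)

theorem psi_facts {η s : ℝ} (hη : 0 < η) (hs : 0 < s) : ∃ C : ℝ, 0 < C ∧ ∀ p τ : ℂ, ‖p‖ ≤ 1 - η →
    C * ‖τ‖ ≤ 1 / 2 →
    (∀ z, ‖z‖ < 1 → s ≤ ‖z - p‖ → (1 - C * ‖τ‖) * (1 - ‖z‖ ^ 2) ≤ 1 - ‖psi p τ z‖ ^ 2 ∧
      ‖psi p τ z - z‖ ≤ C * ‖τ‖) ∧
    (∀ x y, ‖x‖ < 1 → ‖y‖ < 1 → x ≠ 0 → y ≠ 0 → s ≤ ‖x - p‖ → s ≤ ‖y - p‖ →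
      (1 - C * ‖τ‖) * ‖x⁻¹ - y⁻¹‖ ≤ ‖(psi p τ x)⁻¹ - (psi p τ y)⁻¹‖) := by
  have hH := HH_nonneg hs hη
  have hL := LL_nonneg hs hη
  have hk : 0 < 1 / (s * η) := by (clear * - hs hη; positivity)
  refine ⟨4 * (1 / (s * η)) + (2 * HH s η + 6 * LL s η), by (clear * - hs hη hH hL; positivity), ?_⟩
  intro p τ hp hτ
  have ht := norm_nonneg τ
  obtain ⟨a, ha⟩ : ∃ a : ℝ, a = ‖τ‖ * HH s η := ⟨_, rfl⟩
  obtain ⟨b, hb⟩ : ∃ b : ℝ, b = ‖τ‖ * LL s η := ⟨_, rfl⟩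
  obtain ⟨k, hk'⟩ : ∃ k : ℝ, k = ‖τ‖ * (1 / (s * η)) := ⟨_, rfl⟩
  have ha0 : 0 ≤ a := by rw [ha]; (clear * - hH; positivity)
  have hb0 : 0 ≤ b := by rw [hb]; (clear * - hL; positivity)
  have hk0 : 0 ≤ k := by rw [hk']; (clear * - hs hη; positivity)
  have hC : (4 * (1 / (s * η)) + (2 * HH s η + 6 * LL s η)) * ‖τ‖ = 4 * k + 2 * a + 6 * b := by
    rw [ha, hb, hk']; ring
  rw [hC] at hτ ⊢
  refine ⟨?_, ?_⟩
  · intro z hz hzp
    constructor
    · have h1 := hh_re_abs_le (τ := τ) hs hη hp hz.le hzp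
      rw [← hk'] at h1
      have hz1 : 0 ≤ 1 - ‖z‖ ^ 2 := by (clear * - hz; nlinarith only [norm_nonneg z, hz])
      have hz2 : 1 - ‖z‖ ^ 2 ≤ 1 := by nlinarith only []
      have h2 : ‖psi p τ z‖ ^ 2 = ‖z‖ ^ 2 * Real.exp (2 * (hh p τ z).re) := by
        unfold psi
        rw [norm_mul, Complex.norm_exp, mul_pow, ← Real.exp_nat_mul]
        norm_num
      obtain ⟨y, hy⟩ : ∃ y : ℝ, y = 2 * (k * (1 - ‖z‖ ^ 2)) := ⟨_, rfl⟩
      have hy0 : 0 ≤ y := by rw [hy]; (clear * - hk0 hz1; positivity)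
      have hy1 : y ≤ 1 := by
        rw [hy]
        nlinarith only [hτ, ha0, hb0, hk0]
      have h3 : Real.exp (2 * (hh p τ z).re) ≤ Real.exp y := by
        apply Real.exp_le_exp.mpr
        rw [hy]
        have := (abs_le.mp h1).2
        linarith only [this]
      have h4 : Real.exp y ≤ 1 + 2 * y := by
        have := Real.abs_exp_sub_one_sub_id_le (x := y) (by rw [abs_of_nonneg hy0]; exact hy1)
        have h5 := (abs_le.mp this).2
        nlinarith only [hy0, hy1, h5]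
      have h5 : ‖z‖ ^ 2 ≤ 1 := by linarith only [hz1]
      have h6 : ‖psi p τ z‖ ^ 2 ≤ ‖z‖ ^ 2 * (1 + 2 * y) := by
        rw [h2]
        exact mul_le_mul_of_nonneg_left (h3.trans h4) (by (clear * -; positivity))
      have h7 : ‖z‖ ^ 2 * (1 + 2 * y) ≤ ‖z‖ ^ 2 + 2 * y := by (clear * - hy0 h5; nlinarith only [hy0, h5])
      have h8 : 2 * y = 4 * k * (1 - ‖z‖ ^ 2) := by rw [hy]; ring
      have h9 : 0 ≤ (2 * a + 6 * b) * (1 - ‖z‖ ^ 2) := by (clear * - ha0 hb0 h5; positivity)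
      linarith only [h6, h7, h8, h9]
    · have h1 := psi_sub_le (τ := τ) hs hη hp hz.le hzp (by rw [← ha]; (clear * - hτ hb0 hk0; linarith only [hτ, hb0, hk0]))
      rw [← ha] at h1
      have h2 : 2 * a * ‖z‖ ≤ 2 * a * 1 := mul_le_mul_of_nonneg_left hz.le (by positivity)
      linarith only [hb0, hk0, h1, h2]
  · intro x y hx hy hx0 hy0 hxp hyp
    have h1 := psi_inv_sub_ge (τ := τ) hs hη hp hx.le hy.le hx0 hy0 hxp hyp
      (by rw [← ha]; linarith only [hτ, hb0, hk0])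
    have h2 : ‖τ‖ * (2 * HH s η + 6 * LL s η) = 2 * a + 6 * b := by rw [ha, hb]; ring
    rw [h2] at h1
    refine le_trans ?_ h1
    apply mul_le_mul_of_nonneg_right _ (norm_nonneg _)
    linarith only [hk0]

theorem dphi_bd {β : ℂ → ℂ} (h : Ext β) {η : ℝ} (hη : 0 < η) {z : ℂ} (h1 : η ≤ ‖z‖)
    (h2 : ‖z‖ ≤ 1 - η) : η ≤ ‖dphi β z‖ ∧ ‖dphi β z‖ ≤ (η ^ 3)⁻¹ :=
  Pool.Agent.Helper77.CK.dphi_bounds h hη h1 h2

theorem koebe_phi {β : ℂ → ℂ} (h : Ext β) {p y : ℂ} {r : ℝ} (hr : 0 < r) (hp : r ≤ ‖p‖)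
    (hp1 : r ≤ 1 - ‖p‖) (hy : y ∈ ball (0:ℂ) 1) (hy0 : y ≠ 0) (hyp : r ≤ ‖y - p‖) :
    r * ‖dphi β p‖ ≤ 4 * ‖phi β y - phi β p‖ :=
  Pool.Agent.Helper77.CK.koebe_phi h hr hp hp1 hy hy0 hyp

theorem beta_bd {η : ℝ} (hη : 0 < η) : ∃ C : ℝ, 0 < C ∧ ∀ β : ℂ → ℂ, Ext β → β 0 = 0 → ∀ z : ℂ,
    ‖z‖ ≤ 1 - η → ‖β z‖ ≤ C := by
  obtain ⟨C, hC, H⟩ := Pool.Agent.Helper77.CK.exists_beta_le hη
  exact ⟨C, hC, fun β h h0 z hz => (H β h h0 z hz).1⟩

theorem expand {η s : ℝ} (hη : 0 < η) (hs : 0 < s) : ∃ C : ℝ, 0 < C ∧ ∀ β, Ext β → ∀ p : ℂ,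
    η ≤ ‖p‖ → ‖p‖ ≤ 1 - η → ∀ τ : ℂ, C * ‖τ‖ ≤ 1 → ∀ z : ℂ, η ≤ ‖z‖ → ‖z‖ ≤ 1 - η → s ≤ ‖z - p‖ →
    ‖VV β p τ z‖ ≤ C * ‖τ‖ ∧
    ‖phi β (psi p τ z) + eps β p τ / (phi β (psi p τ z) - phi β p) - phi β z - VV β p τ z‖ ≤
      C * ‖τ‖ ^ 2 := by
  obtain ⟨C, hC, H⟩ := Pool.Agent.Helper77.CK.expand η s hη hs
  exact ⟨C, hC, fun β h p hp hp1 τ hτ z hz hz1 hzp => (H β h p hp hp1 τ hτ z hz hz1 hzp).2⟩

theorem reg_ext {β : ℂ → ℂ} (h : Ext β) {p : ℂ} (hp : p ∈ ball (0:ℂ) 1) (hp0 : p ≠ 0) (τ : ℂ) :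
    ∃ V : ℂ → ℂ, DifferentiableOn ℂ V (ball 0 1 \ {0}) ∧
      ∀ z ∈ ball (0:ℂ) 1 \ {0}, z ≠ p → V z = VV β p τ z :=
  Pool.Agent.Helper81.CK.reg_ext h hp hp0 τ

theorem normalise {f : ℂ → ℂ} {r : ℝ} {c : ℂ} (hr : 0 < r) (hr1 : r ≤ 1)
    (hf : DifferentiableOn ℂ f (ball 0 r \ {0})) (hi : InjOn f (ball 0 r \ {0})) (hc : c ≠ 0)
    (hl : Tendsto (fun z => z * f z) (𝓝[≠] 0) (𝓝 c)) :
    ∃ γ : ℂ → ℂ, Ext γ ∧ ∀ z ∈ ball (0:ℂ) 1, z ≠ 0 → z⁻¹ + γ z = (r / c) * f (r * z) :=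
  Pool.Agent.Helper81.CK.normalise hr hr1 hf hi hc hl

end Pool.Agent.Helper5.CK

end

section

namespace Pool.Agent.Helper39.Area
end Pool.Agent.Helper39.Area
namespace Pool.Agent.Helper81.CK
end Pool.Agent.Helper81.CK

set_option autoImplicit false

open Complex Metric Set Filter Topology

open scoped ComplexConjugate

namespace Pool.Agent.Helper5.CK

open Pool.Agent.Helper39.Area

open Pool.Agent.Helper81.CK (outer outer_bound outer_lip regular_part)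

/-- a small number under two constraints -/
theorem exists_small {A b : ℝ} (hA : 0 < A) (hb : 0 < b) : ∃ t : ℝ, 0 < t ∧ t ≤ 1 ∧ A * t ≤ b := by
  refine ⟨min 1 (b / A), by positivity, min_le_left _ _, ?_⟩
  calc A * min 1 (b / A) ≤ A * (b / A) := mul_le_mul_of_nonneg_left (min_le_right _ _) hA.le
    _ = b := by field_simp

theorem norm_inv_sub_le {x y : ℂ} {a b : ℝ} (ha : 0 < a) (hb : 0 < b) (hx : a ≤ ‖x‖) (hy : b ≤ ‖y‖) :
    ‖x⁻¹ - y⁻¹‖ ≤ ‖x - y‖ / (a * b) := by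
  have hx0 : x ≠ 0 := by
    intro h; rw [h, norm_zero] at hx; (clear * - ha hx; linarith only [ha, hx])
  have hy0 : y ≠ 0 := by
    intro h; rw [h, norm_zero] at hy; linarith only [hb, hy]
  have h1 : x⁻¹ - y⁻¹ = (y - x) / (x * y) := by (clear * - hy0 hx0; field_simp)
  rw [h1, norm_div, norm_mul, norm_sub_rev]
  exact div_le_div_of_nonneg_left (norm_nonneg _) (by positivity) (mul_le_mul hx hy hb.le (norm_nonneg _))

theorem norm_le_inv_sub {x y : ℂ} (hx : x ≠ 0) (hy : y ≠ 0) (hx1 : ‖x‖ ≤ 1) (hy1 : ‖y‖ ≤ 1) :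
    ‖x - y‖ ≤ ‖x⁻¹ - y⁻¹‖ := by
  have h1 : x - y = (y⁻¹ - x⁻¹) * (x * y) := by field_simp
  have h2 : ‖x * y‖ ≤ 1 := by
    rw [norm_mul]
    exact mul_le_one₀ hx1 (norm_nonneg _) hy1
  rw [h1, norm_mul, norm_sub_rev]
  calc ‖x⁻¹ - y⁻¹‖ * ‖x * y‖ ≤ ‖x⁻¹ - y⁻¹‖ * 1 := mul_le_mul_of_nonneg_left h2 (norm_nonneg _)
    _ = _ := mul_one _

/-- lower bound for `gg` -/
theorem gg_lower {β : ℂ → ℂ} (h : Ext β) {p τ x y : ℂ} {r c k : ℝ} (hr : r < 1)
    (hc : 0 < c) (hk : k ≤ 1 / 2)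
    (hx : ‖x‖ ≤ r) (hy : ‖y‖ ≤ r) (hx0 : x ≠ 0) (hy0 : y ≠ 0)
    (hx2 : (1 - k) * (1 - ‖x‖ ^ 2) ≤ 1 - ‖psi p τ x‖ ^ 2)
    (hy2 : (1 - k) * (1 - ‖y‖ ^ 2) ≤ 1 - ‖psi p τ y‖ ^ 2)
    (hxy : (1 - k) * ‖x⁻¹ - y⁻¹‖ ≤ ‖(psi p τ x)⁻¹ - (psi p τ y)⁻¹‖)
    (hcx : c ≤ ‖phi β (psi p τ x) - phi β p‖) (hcy : c ≤ ‖phi β (psi p τ y) - phi β p‖)
    (he : ‖eps β p τ‖ ≤ c ^ 2 / 2) :
    (1 - r ^ 2) / 8 * ‖x - y‖ ≤ ‖gg β p τ x - gg β p τ y‖ := by
  have hr0 : 0 ≤ r := (norm_nonneg x).trans hx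
  have hr1 : 0 < 1 - r ^ 2 := by (clear * - hr hr0; nlinarith only [hr, hr0])
  have h1 := W_lower hc hcx hcy he
  set s : ℝ := Real.sqrt (1 - (1 - r ^ 2) / 2) with hs
  have hs0 : 0 ≤ 1 - (1 - r ^ 2) / 2 := by (clear * -; nlinarith only [])
  have hs2 : s ^ 2 = 1 - (1 - r ^ 2) / 2 := Real.sq_sqrt hs0
  have hs1 : s < 1 := by
    have := Real.sqrt_nonneg (1 - (1 - r ^ 2) / 2)
    nlinarith only [hr1, hs2]
  have hb : ∀ z : ℂ, ‖z‖ ≤ r → (1 - k) * (1 - ‖z‖ ^ 2) ≤ 1 - ‖psi p τ z‖ ^ 2 →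
      ‖psi p τ z‖ ≤ s := by
    intro z hz hz2
    apply Real.le_sqrt_of_sq_le
    have h3 : ‖z‖ ^ 2 ≤ r ^ 2 := pow_le_pow_left₀ (norm_nonneg _) hz 2
    (clear * - hz2 h3 hk hr1; nlinarith only [hk, hr1, hz2, h3])
  have h2 := Pool.Agent.Helper77.CK.phi_sub_ge h (psi_ne (p := p) (τ := τ) hy0)
    (psi_ne (p := p) (τ := τ) hx0) hs1 (hb y hy hy2) (hb x hx hx2)
  have h3 := norm_le_inv_sub hx0 hy0 (hx.trans hr.le) (hy.trans hr.le)
  have h4 : ‖x - y‖ / 2 ≤ ‖(psi p τ x)⁻¹ - (psi p τ y)⁻¹‖ := by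
    refine le_trans ?_ hxy
    have := norm_nonneg (x⁻¹ - y⁻¹)
    nlinarith only [hk, h3, this]
  rw [hs2] at h2
  have h5 : (1 - (1 - (1 - r ^ 2) / 2)) * (‖x - y‖ / 2) ≤ ‖phi β (psi p τ x) - phi β (psi p τ y)‖ :=
    le_trans (mul_le_mul_of_nonneg_left h4 (by linarith only [hr1])) h2
  unfold gg
  refine le_trans ?_ h1
  linarith only [h5]

end Pool.Agent.Helper5.CK

end

section

namespace Pool.Agent.Helper39.Area
end Pool.Agent.Helper39.Area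
namespace Pool.Agent.Helper81.CK
end Pool.Agent.Helper81.CK

set_option autoImplicit false

open Complex Metric Set Filter Topology

open scoped ComplexConjugate

namespace Pool.Agent.Helper5.CK

open Pool.Agent.Helper39.Area

open Pool.Agent.Helper81.CK (outer outer_bound outer_lip regular_part outer_differentiableOn)

theorem sq_le_self' {t : ℝ} (h0 : 0 ≤ t) (h1 : t ≤ 1) : t ^ 2 ≤ t := by (clear * - h0 h1; nlinarith only [h0, h1])

theorem one_sub_sq_pos' {t : ℝ} (h0 : 0 ≤ t) (h1 : t < 1) : 0 < 1 - t ^ 2 := by (clear * - h1 h0; nlinarith only [h0, h1])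

theorem lt_one_of_sq' {t : ℝ} (h1 : t ^ 2 < 1) : t < 1 := by (clear * - h1; nlinarith only [h1])

theorem small_of {A B t u b : ℝ} (h : B * u ≤ b) (hu : t ≤ u) (hAB : A ≤ B) (ht : 0 ≤ t)
    (hB : 0 ≤ B) : A * t ≤ b :=
  (mul_le_mul hAB hu ht hB).trans h

theorem frac_bd {η s1 k k2 : ℝ} (h1 : s1 ≤ η / 512) (hk : 0 ≤ k) (h2 : k2 ≤ k) (hη : 0 < η) :
    k2 * (3 * η / 8) ≤ 2 * k * (3 * η / 8 - s1) := by nlinarith

theorem sub_sq_ge {r : ℝ} (h0 : 0 ≤ r) (h1 : r ≤ 1) : 1 - r ≤ 1 - r ^ 2 := by nlinarith only [h0, h1]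

theorem eta_aux {η : ℝ} (h0 : 0 < η) (h1 : η ≤ 1 / 2) :
    0 ≤ 1 - (1 - η / 2) ^ 2 ∧ η / 2 ≤ 1 - (1 - η / 2) ^ 2 ∧ η / 2 ≤ η - η ^ 2 / 4 := by
  refine ⟨?_, ?_, ?_⟩ <;> nlinarith only [h0, h1]

theorem contra_aux {η k : ℝ} (h0 : 0 < η) (h1 : η ≤ 1 / 2)
    (h2 : (1 - (1 - η / 2) ^ 2) * (η / 8) ≤ 3 * k) (h3 : k ≤ η ^ 2 / 2048) : False := by
  have h4 := (eta_aux h0 h1).2.1
  nlinarith only [h0, h1, h2, h3]

theorem eps_aux {e k c η n : ℝ} (he : e ≤ k) (hk : k ≤ c * η ^ 2 / 512) (hn : c ≤ n)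
    : e ≤ η ^ 2 / 512 * n := by nlinarith [sq_nonneg η]

theorem last_aux {C2 t A : ℝ} (h : 0 ≤ A * t ^ 2) : C2 * t ^ 2 + C2 * t ^ 2 ≤ (A + 2 * C2) * t ^ 2 := by
  (clear * - h; linarith only [h])

/-- three cases of injectivity -/
theorem injOn_of_cases {F : ℂ → ℂ} {D : Set ℂ} {p : ℂ} {ra rb : ℝ} (hab : ra < rb)
    (h1 : ∀ x ∈ D, ∀ y ∈ D, ra ≤ ‖x - p‖ → ra ≤ ‖y - p‖ → F x = F y → x = y)
    (h2 : ∀ x ∈ D, ∀ y ∈ D, ‖x - p‖ ≤ rb → ‖y - p‖ ≤ rb → F x = F y → x = y)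
    (h3 : ∀ x ∈ D, ∀ y ∈ D, ‖x - p‖ ≤ ra → rb ≤ ‖y - p‖ → F x ≠ F y) : InjOn F D := by
  intro x hx y hy hxy
  rcases le_total ra ‖x - p‖ with hxa | hxa <;> rcases le_total ra ‖y - p‖ with hya | hya
  · exact h1 x hx y hy hxa hya hxy
  · rcases le_total rb ‖x - p‖ with hxb | hxb
    · exact absurd hxy.symm (h3 y hy x hx hya hxb)
    · exact h2 x hx y hy hxb (hya.trans hab.le) hxy
  · rcases le_total rb ‖y - p‖ with hyb | hyb
    · exact absurd hxy (h3 x hx y hy hxa hyb)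
    · exact h2 x hx y hy (hxa.trans hab.le) hyb hxy
  · exact h2 x hx y hy (hxa.trans hab.le) (hya.trans hab.le) hxy

theorem lower_of_near {β : ℂ → ℂ} (h : Ext β) {p τ z : ℂ} {η s k : ℝ} (hη : 0 < η)
    (hp : η ≤ ‖p‖) (hp1 : ‖p‖ ≤ 1 - η) (hs : 0 < s) (hsη : s ≤ η)
    (hz0 : z ≠ 0) (hzp : s ≤ ‖z - p‖) (h1 : ‖psi p τ z‖ < 1) (h2 : ‖psi p τ z - z‖ ≤ k)
    (hk : k ≤ s / 2) : s * η / 8 ≤ ‖phi β (psi p τ z) - phi β p‖ := by
  have h3 : s / 2 ≤ ‖psi p τ z - p‖ := by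
    have h4 : ‖z - p‖ ≤ ‖psi p τ z - p‖ + ‖psi p τ z - z‖ := by
      have : z - p = (psi p τ z - p) - (psi p τ z - z) := by ring
      rw [this]; exact norm_sub_le _ _
    linarith only [hzp, h2, hk, h4]
  have h4 := koebe_phi h (p := p) (y := psi p τ z) (r := s / 2) (by (clear * - hs; linarith only [hs])) (by linarith only [hp, hs, hsη])
    (by (clear * - hη hp1 hsη; linarith)) (by simpa using h1) (psi_ne hz0) h3
  have h5 := (dphi_bd h hη hp hp1).1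
  nlinarith only [hs, h4, h5]

/-- the varied function before dilation -/
theorem exists_F {η : ℝ} (hη : 0 < η) (hη2 : η ≤ 1 / 2) : ∃ C t0 : ℝ, 0 < C ∧ 0 < t0 ∧
    ∀ β : ℂ → ℂ, Ext β → ∀ p : ℂ, η ≤ ‖p‖ → ‖p‖ ≤ 1 - η → ∀ τ : ℂ, τ ≠ 0 → ‖τ‖ ≤ t0 →
    ∃ (F : ℂ → ℂ) (r : ℝ), 0 < r ∧ r < 1 ∧ 1 - r ≤ C * ‖τ‖ ^ 2 ∧
      DifferentiableOn ℂ F (ball 0 1 \ {0}) ∧ InjOn F (ball 0 r \ {0}) ∧
      Tendsto (fun z => z * F z) (𝓝[≠] 0) (𝓝 (Real.exp τ.re : ℂ)) ∧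
      ∀ z, η / 4 ≤ ‖z‖ → ‖z‖ ≤ 1 - η / 4 → η / 4 ≤ ‖z - p‖ →
        ‖F z - phi β z - VV β p τ z‖ ≤ C * ‖τ‖ ^ 2 := by
  obtain ⟨sa, hsa⟩ : ∃ sa : ℝ, sa = η ^ 5 / 256 := ⟨_, rfl⟩
  have hsa0 : 0 < sa := by rw [hsa]; (clear * - hη; positivity)
  have hη5 : η ^ 5 ≤ η := by
    have : η ^ 5 ≤ η ^ 1 := pow_le_pow_of_le_one hη.le (by linarith only [hη2]) (by norm_num)
    simpa using this
  have hsa1 : sa ≤ η / 256 := by rw [hsa]; (clear * - hη5; linarith only [hη5])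
  obtain ⟨s1, hs1⟩ : ∃ s1 : ℝ, s1 = sa / 2 := ⟨_, rfl⟩
  obtain ⟨s0, hs0⟩ : ∃ s0 : ℝ, s0 = sa / 4 := ⟨_, rfl⟩
  have hs1p : 0 < s1 := by linarith only [hsa0, hs1]
  have hs0p : 0 < s0 := by (clear * - hsa0 hs0; linarith)
  obtain ⟨C1, hC1, H1⟩ := psi_facts hη hs0p
  obtain ⟨C2, hC2, H2⟩ := expand (η := η / 4) (s := s0) (by (clear * - hsa0 hsa1; linarith only [hsa0, hsa1])) hs0p
  obtain ⟨c, hc⟩ : ∃ c : ℝ, c = s0 * η / 8 := ⟨_, rfl⟩
  have hc0 : 0 < c := by rw [hc]; positivity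
  obtain ⟨E1, hE1⟩ : ∃ E1 : ℝ, E1 = ((η ^ 3)⁻¹) ^ 2 := ⟨_, rfl⟩
  have hE1p : 0 < E1 := by rw [hE1]; positivity
  -- the small parameter
  obtain ⟨b, hb0, hb1, hb2, hb3, hb4, hb5⟩ : ∃ b : ℝ, 0 < b ∧ b ≤ s0 / 2 ∧ b ≤ c ^ 2 / 2 ∧
      b ≤ s1 / 64 ∧ b ≤ η ^ 2 / 2048 ∧ b ≤ c * η ^ 2 / 512 := by
    refine ⟨min (s0 / 2) (min (c ^ 2 / 2) (min (s1 / 64) (min (η ^ 2 / 2048) (c * η ^ 2 / 512)))),
      by (clear * - hs0p hc0 hs1p hη; positivity), ?_, ?_, ?_, ?_, ?_⟩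
    · exact min_le_left _ _
    · exact (min_le_right _ _).trans (min_le_left _ _)
    · exact (min_le_right _ _).trans ((min_le_right _ _).trans (min_le_left _ _))
    · exact (min_le_right _ _).trans ((min_le_right _ _).trans ((min_le_right _ _).trans
        (min_le_left _ _)))
    · exact (min_le_right _ _).trans ((min_le_right _ _).trans ((min_le_right _ _).trans
        (min_le_right _ _)))
  obtain ⟨t0, ht0, ht1, ht2⟩ := exists_small (A := C1 + C2 + E1) (b := b) (by (clear * - hC1 hC2 hE1p; positivity)) hb0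
  refine ⟨16 * C2 / s1 + 2 * C2, t0, by positivity, ht0, ?_⟩
  intro β h p hp hp1 τ hτ hτt
  have hτp : 0 < ‖τ‖ := norm_pos_iff.mpr hτ
  have hτ1 : ‖τ‖ ≤ 1 := hτt.trans ht1
  have hC1τ : C1 * ‖τ‖ ≤ b :=
    small_of ht2 hτt (by linarith only [hC2, hE1p]) (norm_nonneg _) (by (clear * - hC1 hC2 hE1p; positivity))
  have hC2τ : C2 * ‖τ‖ ≤ b :=
    small_of ht2 hτt (by linarith only [hC1, hE1p]) (norm_nonneg _) (by positivity)
  have hE1τ : E1 * ‖τ‖ ≤ b :=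
    small_of ht2 hτt (by linarith only [hC1, hC2]) (norm_nonneg _) (by positivity)
  have hs0η : s0 ≤ η := by linarith only [hsa1, hs1, hs0, hs1p]
  have hp1' : ‖p‖ < 1 := by linarith only [hb0, hb1, hp1, hs0η]
  have hp0 : p ≠ 0 := by
    intro h0; rw [h0, norm_zero] at hp; linarith only [hb0, hb1, hp, hs0η]
  have hη2' : η ^ 2 ≤ 1 := pow_le_one₀ hη.le (by linarith only [hη2])
  have hC1k : C1 * ‖τ‖ ≤ 1 / 2 := by linarith only [hb4, hC1τ, hη2']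
  obtain ⟨H1a, H1b⟩ := H1 p τ hp1 hC1k
  have hC2k : C2 * ‖τ‖ ≤ 1 := by linarith only [hb4, hC2τ, hη2']
  have he : ‖eps β p τ‖ ≤ E1 * ‖τ‖ := by
    rw [hE1]; exact eps_norm hp1'.le (dphi_bd h hη hp hp1).2
  have hψ1 : ∀ z : ℂ, ‖z‖ < 1 → s0 ≤ ‖z - p‖ → ‖psi p τ z‖ < 1 := by
    intro z hz hzp
    have h1 := (H1a z hz hzp).1
    have h2 : 0 < 1 - ‖z‖ ^ 2 := one_sub_sq_pos' (norm_nonneg z) hz
    have h3 : 0 < (1 - C1 * ‖τ‖) * (1 - ‖z‖ ^ 2) := mul_pos (by (clear * - hC1k; linarith only [hC1k])) h2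
    have h4 : ‖psi p τ z‖ ^ 2 < 1 := by linarith only [h1, h3]
    exact lt_one_of_sq' h4
  have hlow : ∀ z : ℂ, ‖z‖ < 1 → z ≠ 0 → s0 ≤ ‖z - p‖ →
      c ≤ ‖phi β (psi p τ z) - phi β p‖ := by
    intro z hz hz0 hzp
    rw [hc]
    exact lower_of_near h hη hp hp1 hs0p hs0η hz0 hzp (hψ1 z hz hzp) (H1a z hz hzp).2
      (by linarith only [hb1, hC1τ])
  have hlow2 : ∀ z : ℂ, ‖z‖ < 1 → z ≠ 0 → η / 4 ≤ ‖z - p‖ →
      η ^ 2 / 32 ≤ ‖phi β (psi p τ z) - phi β p‖ := by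
    intro z hz hz0 hzp
    have h1 := lower_of_near h hη hp hp1 (s := η / 4) (by linarith only [hsa0, hsa1]) (by (clear * - hsa0 hsa1; linarith only [hsa0, hsa1])) hz0 hzp
      (hψ1 z hz (by linarith only [hsa1, hs1, hs0, hs1p, hzp])) (H1a z hz (by linarith only [hsa1, hs1, hs0, hs1p, hzp])).2 (by linarith only [hs1, hs0, hs1p, hb3, hC1τ, hs0η])
    (clear * - h1; linarith only [h1])
  -- regular part of the variation
  have hpb : p ∈ ball (0:ℂ) 1 := by simpa using hp1'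
  obtain ⟨V, hVd, hV⟩ := reg_ext h hpb hp0 τ
  set D : Set ℂ := ball (0:ℂ) 1 \ {0} with hD
  have hDo : IsOpen D := isOpen_ball.sdiff isClosed_singleton
  have hcb : ∀ z : ℂ, ‖z - p‖ ≤ η / 2 → η / 2 ≤ ‖z‖ ∧ ‖z‖ ≤ 1 - η / 2 := by
    intro z hz
    have h1 : ‖p‖ ≤ ‖z‖ + ‖z - p‖ := by
      have : p = z - (z - p) := by ring
      calc ‖p‖ = ‖z - (z - p)‖ := by rw [← this]
        _ ≤ _ := norm_sub_le _ _
    have h2 : ‖z‖ ≤ ‖p‖ + ‖z - p‖ := by
      have : z = p + (z - p) := by ring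
      calc ‖z‖ = ‖p + (z - p)‖ := by rw [← this]
        _ ≤ _ := norm_add_le _ _
    constructor <;> linarith only [hp, hz, h1, hp1, h2]
  have hcbD : closedBall p (η / 2) ⊆ D := by
    intro z hz
    rw [mem_closedBall, dist_eq_norm] at hz
    have h1 := hcb z hz
    refine ⟨by rw [mem_ball, dist_zero_right]; linarith only [hb0, hb1, hs0η, h1], ?_⟩
    rintro (rfl : z = 0)
    rw [norm_zero] at h1; linarith only [hb0, hb1, hs0η, h1]
  set P : ℂ → ℂ := fun z => phi β z + V z with hP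
  have hφd : DifferentiableOn ℂ (phi β) D := by
    rintro z ⟨hz, hz0⟩
    exact (hasDerivAt_phi h.diff hz hz0).differentiableAt.differentiableWithinAt
  have hPd : DifferentiableOn ℂ P D := hφd.add hVd
  have hDn : ∀ z ∈ D, ‖z‖ < 1 ∧ z ≠ 0 := by
    rintro z ⟨hz, hz0⟩
    exact ⟨by simpa using hz, hz0⟩
  have hgd' : ∀ z, ‖z‖ < 1 → z ≠ 0 → s0 < ‖z - p‖ → DifferentiableAt ℂ (gg β p τ) z := by
    intro z hz hz0 hzp
    have hzne : z ≠ p := by
      rintro rfl; rw [sub_self, norm_zero] at hzp; linarith only [hb0, hb1, hzp]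
    refine gg_diff h hp1' hz hz0 hzne (hψ1 z hz hzp.le) ?_
    intro h0
    have := hlow z hz hz0 hzp.le
    rw [h0, norm_zero] at this
    linarith only [hc0, this]
  have hgd : DifferentiableOn ℂ (gg β p τ) (D \ closedBall p s0) := by
    rintro z ⟨hz, hzp⟩
    rw [mem_closedBall, dist_eq_norm, not_le] at hzp
    exact (hgd' z (hDn z hz).1 (hDn z hz).2 hzp).differentiableWithinAt
  have hVeq : ∀ z ∈ D, s0 ≤ ‖z - p‖ → V z = VV β p τ z := by
    intro z hz hzp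
    refine hV z hz ?_
    rintro rfl; rw [sub_self, norm_zero] at hzp; linarith only [hb0, hb1, hzp]
  have hG : ∀ z, η / 4 ≤ ‖z‖ → ‖z‖ ≤ 1 - η / 4 → s0 ≤ ‖z - p‖ →
      ‖gg β p τ z - P z‖ ≤ C2 * ‖τ‖ ^ 2 := by
    intro z hz1 hz2 hzp
    have hzD : z ∈ D := by
      refine ⟨by rw [mem_ball, dist_zero_right]; (clear * - hb0 hb1 hs0η hz2; linarith only [hb0, hb1, hs0η, hz2]), ?_⟩
      rintro (rfl : z = 0)
      rw [norm_zero] at hz1; (clear * - hb0 hb1 hs0η hz1; linarith only [hb0, hb1, hs0η, hz1])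
    have h1 := (H2 β h p (by linarith only [hη, hp]) (by (clear * - hη hp1; linarith only [hη, hp1])) τ hC2k z hz1 hz2 hzp).2
    rw [hP]
    simp only
    rw [hVeq z hzD hzp]
    have : gg β p τ z - (phi β z + VV β p τ z) =
        phi β (psi p τ z) + eps β p τ / (phi β (psi p τ z) - phi β p) - phi β z - VV β p τ z := by
      unfold gg; ring
    rw [this]
    exact h1
  have hann : ∀ s : ℂ, s1 ≤ ‖s - p‖ → ‖s - p‖ ≤ η / 2 → ‖gg β p τ s - P s‖ ≤ C2 * ‖τ‖ ^ 2 := by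
    intro s hs hs'
    have h1 := hcb s hs'
    exact hG s (by linarith only [hb0, hb3, hs, hs', h1]) (by linarith only [hb0, hb3, hs, hs', h1]) (by (clear * - hs1 hs0 hs0p hs; linarith only [hs1, hs0, hs0p, hs]))
  obtain ⟨F, hFd, hFeq, hFP⟩ := regular_part hDo hs1p (by linarith only [hs1, hs0, hs0p] : s0 < s1)
    (by linarith only [hsa0, hsa1, hs1] : s1 < η / 2) hcbD hgd hPd hann
  set e : ℂ → ℂ := fun s => gg β p τ s - P s with he'
  have hec : ContinuousOn e (sphere p s1) := by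
    intro s hs
    rw [mem_sphere, dist_eq_norm] at hs
    have h1 : s ∈ D := hcbD (by rw [mem_closedBall, dist_eq_norm]; linarith only [hsa0, hsa1, hs1, hs])
    have h2 := (hgd' s (hDn s h1).1 (hDn s h1).2 (by linarith only [hs1, hs0, hs0p, hs])).continuousAt
    have h3 := (hPd.differentiableAt (hDo.mem_nhds h1)).continuousAt
    exact (h2.sub h3).continuousWithinAt
  have heb : ∀ s ∈ sphere p s1, ‖e s‖ ≤ C2 * ‖τ‖ ^ 2 := by
    intro s hs
    rw [mem_sphere, dist_eq_norm] at hs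
    exact hann s hs.ge (by (clear * - hsa0 hsa1 hs1 hs; linarith only [hsa0, hsa1, hs1, hs]))
  have hE : ∀ z, sa ≤ ‖z - p‖ → ‖outer p s1 e z‖ ≤ C2 * ‖τ‖ ^ 2 := by
    intro z hz
    have h1 := outer_bound hs1p heb (z := z) (d := s1) hs1p (by (clear * - hs1 hz; linarith only [hs1, hz]))
    have h2 : s1 * (C2 * ‖τ‖ ^ 2) / s1 = C2 * ‖τ‖ ^ 2 := by field_simp
    rwa [h2] at h1
  have hEl : ∀ z w, sa ≤ ‖z - p‖ → sa ≤ ‖w - p‖ →
      ‖outer p s1 e z - outer p s1 e w‖ ≤ C2 * ‖τ‖ ^ 2 / s1 * ‖z - w‖ := by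
    intro z w hz hw
    have h1 := outer_lip hs1p hec heb (z := z) (w := w) (d := s1) hs1p (by linarith only [hs1, hz]) (by linarith only [hs1, hw])
    have h2 : s1 * (C2 * ‖τ‖ ^ 2) / s1 ^ 2 = C2 * ‖τ‖ ^ 2 / s1 := by field_simp
    rwa [h2] at h1
  -- the bound inside
  have hVb : ∀ z ∈ closedBall p (η / 2), ‖V z‖ ≤ C2 * ‖τ‖ := by
    have hfr : ∀ z ∈ frontier (ball p (η / 2)), ‖V z‖ ≤ C2 * ‖τ‖ := by
      intro z hz
      rw [frontier_ball p (by linarith only [hη])] at hz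
      rw [mem_sphere, dist_eq_norm] at hz
      have h1 := hcb z hz.le
      have h2 : z ∈ D := hcbD (by rw [mem_closedBall, dist_eq_norm]; linarith only [hz])
      rw [hVeq z h2 (by linarith only [hsa0, hsa1, hs0, hz])]
      exact (H2 β h p (by linarith only [hη, hp]) (by linarith only [hη, hp1]) τ hC2k z (by linarith only [hb0, hb1, hs0η, h1]) (by (clear * - hb0 hb1 hs0η h1; linarith only [hb0, hb1, hs0η, h1]))
        (by linarith only [hsa0, hsa1, hs0, hz])).1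
    intro z hz
    have hcl : closure (ball p (η / 2)) = closedBall p (η / 2) := closure_ball p (by linarith only [hη])
    apply Complex.norm_le_of_forall_mem_frontier_norm_le isBounded_ball _ hfr
    · rw [hcl]; exact hz
    · apply DifferentiableOn.diffContOnCl
      rw [hcl]
      exact hVd.mono hcbD
  have hFφ : ∀ z ∈ closedBall p (3 * η / 8), ‖F z - phi β z‖ ≤ 3 * (C2 * ‖τ‖) := by
    intro z hz
    have h1 := hFP (3 * η / 8) (by linarith only [hsa0, hsa1, hs1]) (by linarith only [hη]) z hz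
    have h2 := hVb z (closedBall_subset_closedBall (by linarith only [hη]) hz)
    have h3 : C2 * ‖τ‖ ^ 2 * (3 * η / 8) / (3 * η / 8 - s1) ≤ 2 * (C2 * ‖τ‖) := by
      rw [div_le_iff₀ (by linarith only [hsa0, hsa1, hs1])]
      have h4 : C2 * ‖τ‖ ^ 2 ≤ C2 * ‖τ‖ := by
        have : ‖τ‖ ^ 2 ≤ ‖τ‖ := sq_le_self' (norm_nonneg _) hτ1
        exact mul_le_mul_of_nonneg_left this hC2.le
      have h5 : 0 ≤ C2 * ‖τ‖ := by positivity
      exact frac_bd (by (clear * - hs1 hsa1; linarith only [hs1, hsa1])) h5 h4 hη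
    have h4 : F z - phi β z = (F z - P z) + V z := by rw [hP]; ring
    rw [h4]
    refine (norm_add_le _ _).trans ?_
    linarith only [h1, h2, h3]
  have hQd : DifferentiableOn ℂ (fun z => F z - phi β z) D := hFd.sub hφd
  -- the dilation factor
  obtain ⟨r, hr⟩ : ∃ r : ℝ, r = 1 - 16 * (C2 * ‖τ‖ ^ 2 / s1) := ⟨_, rfl⟩
  have hq0 : 0 < C2 * ‖τ‖ ^ 2 / s1 := by (clear * - hC2 hτ hs1p; positivity)
  have hq1 : C2 * ‖τ‖ ^ 2 / s1 ≤ 1 / 64 := by
    rw [div_le_iff₀ hs1p]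
    have h4 : C2 * ‖τ‖ ^ 2 ≤ C2 * ‖τ‖ := by
      have : ‖τ‖ ^ 2 ≤ ‖τ‖ := sq_le_self' (norm_nonneg _) hτ1
      exact mul_le_mul_of_nonneg_left this hC2.le
    (clear * - hb3 hC2τ h4; linarith only [hb3, hC2τ, h4])
  have hr0 : 0 < r := by rw [hr]; linarith only [hq1]
  have hr1 : r < 1 := by rw [hr]; linarith only [hq0]
  refine ⟨F, r, hr0, hr1, ?_, hFd, ?_, ?_, ?_⟩
  · rw [hr]
    have h1 : 0 ≤ 2 * C2 * ‖τ‖ ^ 2 := by positivity
    have h2 : 16 * (C2 * ‖τ‖ ^ 2 / s1) = 16 * C2 / s1 * ‖τ‖ ^ 2 := by ring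
    linarith only [h1, h2]
  · -- injectivity
    have hsub : ball (0:ℂ) r \ {0} ⊆ D := sdiff_subset_sdiff_left (ball_subset_ball hr1.le)
    have hn : ∀ x ∈ ball (0:ℂ) r \ {0}, ‖x‖ < r ∧ x ≠ 0 := by
      rintro x ⟨hx, hx0⟩
      exact ⟨by simpa using hx, hx0⟩
    apply injOn_of_cases (p := p) (ra := sa) (rb := η / 4) (by linarith only [hsa0, hsa1])
    · intro x hx y hy hxp hyp hxy
      by_contra hne
      obtain ⟨hx1, hx0⟩ := hn x hx
      obtain ⟨hy1, hy0⟩ := hn y hy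
      have hxp0 : s0 ≤ ‖x - p‖ := by (clear * - hs1 hs0 hs1p hxp; linarith only [hs1, hs0, hs1p, hxp])
      have hyp0 : s0 ≤ ‖y - p‖ := by linarith only [hs1, hs0, hs1p, hyp]
      have g1 := gg_lower h (r := r) (c := c) (k := C1 * ‖τ‖) hr1 hc0 hC1k hx1.le hy1.le
        hx0 hy0 (H1a x (by linarith only [hr1, hx1]) hxp0).1 (H1a y (by linarith only [hr1, hy1]) hyp0).1
        (H1b x y (by linarith only [hr1, hx1]) (by linarith only [hr1, hy1]) hx0 hy0 hxp0 hyp0)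
        (hlow x (by linarith only [hr1, hx1]) hx0 hxp0) (hlow y (by linarith only [hr1, hy1]) hy0 hyp0) (by linarith only [hb2, hE1τ, he])
      have g2 := hEl x y hxp hyp
      rw [hFeq x (by linarith only [hs1, hs1p, hxp]), hFeq y (by linarith only [hs1, hs1p, hyp])] at hxy
      have g3 : gg β p τ x - gg β p τ y = outer p s1 e x - outer p s1 e y := by
        linear_combination hxy
      rw [g3] at g1
      have g4 : 0 < ‖x - y‖ := norm_pos_iff.mpr (sub_ne_zero.mpr hne)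
      have g5 : (1 - r ^ 2) / 8 * ‖x - y‖ ≤ C2 * ‖τ‖ ^ 2 / s1 * ‖x - y‖ := g1.trans g2
      have g6 : (1 - r ^ 2) / 8 ≤ C2 * ‖τ‖ ^ 2 / s1 := le_of_mul_le_mul_right g5 g4
      have g7 : 1 - r ≤ 1 - r ^ 2 := sub_sq_ge hr0.le hr1.le
      rw [hr] at g7
      rw [hr] at g6
      linarith only [hq0, g6, g7]
    · intro x hx y hy hxp hyp hxy
      by_contra hne
      have hx1 := hcb x (by linarith only [hsa1, hs1, hs1p, hxp])
      have hy1 := hcb y (by (clear * - hsa1 hs1 hs1p hyp; linarith only [hsa1, hs1, hs1p, hyp]))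
      have hx0 := (hn x hx).2
      have hy0 := (hn y hy).2
      have g1 := Pool.Agent.Helper77.CK.phi_sub_ge h hx0 hy0 (s := 1 - η / 2) (by (clear * - hsa1 hs1 hs1p; linarith only [hsa1, hs1, hs1p]))
        hx1.2 hy1.2
      have g2 := norm_le_inv_sub hy0 hx0 (by (clear * - hsa hη5 hs1 hb0 hb3 hy1; linarith) : ‖y‖ ≤ 1) (by linarith only [hsa1, hs1, hs1p, hx1] : ‖x‖ ≤ 1)
      have g3 : ‖(fun z => F z - phi β z) x - (fun z => F z - phi β z) y‖ ≤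
          3 * (C2 * ‖τ‖) / (η / 8) * ‖x - y‖ := by
        refine Convex.norm_image_sub_le_of_norm_deriv_le (f := fun z => F z - phi β z)
          (s := closedBall p (η / 4)) ?_ ?_ (convex_closedBall p (η / 4)) ?_ ?_
        · intro z hz
          rw [mem_closedBall, dist_eq_norm] at hz
          exact hQd.differentiableAt (hDo.mem_nhds (hcbD (by
            rw [mem_closedBall, dist_eq_norm]; linarith only [hsa1, hs0, hs0p, hz])))
        · intro z hz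
          rw [mem_closedBall, dist_eq_norm] at hz
          apply Complex.norm_deriv_le_of_forall_mem_sphere_norm_le (by linarith only [hsa1, hs1, hs1p])
          · apply DifferentiableOn.diffContOnCl
            rw [closure_ball z (by linarith only [hsa1, hs1, hs1p])]
            apply hQd.mono
            intro w hw
            rw [mem_closedBall, dist_eq_norm] at hw
            apply hcbD
            rw [mem_closedBall, dist_eq_norm]
            have : w - p = (w - z) + (z - p) := by ring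
            rw [this]
            exact (norm_add_le _ _).trans (by linarith only [hsa1, hs0, hs0p, hz, hw])
          · intro w hw
            rw [mem_sphere, dist_eq_norm] at hw
            apply hFφ
            rw [mem_closedBall, dist_eq_norm]
            have : w - p = (w - z) + (z - p) := by ring
            rw [this]
            exact (norm_add_le _ _).trans (by linarith only [hz, hw])
        · rw [mem_closedBall, dist_eq_norm]; exact hyp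
        · rw [mem_closedBall, dist_eq_norm]; exact hxp
      have g4 : (fun z => F z - phi β z) x - (fun z => F z - phi β z) y = phi β y - phi β x := by
        simp only
        linear_combination hxy
      rw [g4] at g3
      have g5 : 0 < ‖x - y‖ := norm_pos_iff.mpr (sub_ne_zero.mpr hne)
      rw [norm_sub_rev y x] at g2
      have g6 : (1 - (1 - η / 2) ^ 2) * ‖x - y‖ ≤ 3 * (C2 * ‖τ‖) / (η / 8) * ‖x - y‖ := by
        refine le_trans ?_ (g1.trans g3)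
        exact mul_le_mul_of_nonneg_left g2 (eta_aux hη hη2).1
      have g7 := le_of_mul_le_mul_right g6 g5
      rw [le_div_iff₀ (by linarith only [hsa1, hs1, hs1p])] at g7
      exact contra_aux hη hη2 g7 (hC2τ.trans hb4)
    · intro x hx y hy hxp hyp hxy
      have hx1 := hcb x (by linarith only [hsa1, hs1, hs1p, hxp])
      obtain ⟨hy1, hy0⟩ := hn y hy
      have hx0 := (hn x hx).2
      have g1 := hFφ x (by rw [mem_closedBall, dist_eq_norm]; linarith only [hsa1, hs1, hs1p, hxp])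
      have g2 := Pool.Agent.Helper77.CK.phi_sub_le h hp0 hx0 (s := 1 - η / 2) (by linarith only [hsa1, hs1, hs1p])
        (by linarith only [hb0, hb1, hp1, hs0η]) hx1.2
      have g3 := norm_inv_sub_le (x := x) (y := p) (a := η / 2) (b := η) (by linarith only [hsa1, hs1, hs1p]) hη hx1.1 hp
      have g4 : ‖phi β x - phi β p‖ ≤ η ^ 2 / 64 := by
        have k1 : 1 - (1 - η / 2) ^ 2 = η - η ^ 2 / 4 := by ring
        have k2 : η / 2 ≤ η - η ^ 2 / 4 := (eta_aux hη hη2).2.2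
        have k3 : ‖x⁻¹ - p⁻¹‖ ≤ sa / (η / 2 * η) :=
          g3.trans (div_le_div_of_nonneg_right hxp (by positivity))
        calc ‖phi β x - phi β p‖ ≤ ‖x⁻¹ - p⁻¹‖ / (1 - (1 - η / 2) ^ 2) := g2
          _ ≤ (sa / (η / 2 * η)) / (η / 2) := by
              rw [k1]
              exact div_le_div₀ (by positivity) k3 (by linarith only [hsa1, hs1, hs1p]) k2
          _ = η ^ 2 / 64 := by rw [hsa]; field_simp; norm_num
      have g5 : ‖F x - phi β p‖ ≤ η ^ 2 / 64 + 3 * (C2 * ‖τ‖) := by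
        have : F x - phi β p = (F x - phi β x) + (phi β x - phi β p) := by ring
        rw [this]
        exact (norm_add_le _ _).trans (by linarith only [g1, g4])
      have hl1 := hlow y (by linarith only [hr1, hy1]) hy0 (by linarith only [hsa1, hs1, hs0, hs1p, hyp])
      have hl2 := hlow2 y (by linarith only [hr1, hy1]) hy0 hyp
      have g6 : ‖eps β p τ / (phi β (psi p τ y) - phi β p)‖ ≤ η ^ 2 / 512 := by
        rw [norm_div, div_le_iff₀ (by linarith only [hc0, hl1])]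
        exact eps_aux (he.trans hE1τ) hb5 hl1
      have g7 := hE y (by linarith only [hsa1, hs1, hs1p, hyp])
      have g8 : F y = gg β p τ y - outer p s1 e y := hFeq y (by linarith only [hsa1, hs1, hs1p, hyp])
      have g9 : phi β (psi p τ y) - phi β p = (F y - phi β p) + outer p s1 e y -
          eps β p τ / (phi β (psi p τ y) - phi β p) := by
        rw [g8]; unfold gg; ring
      have g10 : ‖phi β (psi p τ y) - phi β p‖ ≤ ‖F y - phi β p‖ + ‖outer p s1 e y‖ +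
          ‖eps β p τ / (phi β (psi p τ y) - phi β p)‖ := by
        calc ‖phi β (psi p τ y) - phi β p‖ = ‖(F y - phi β p) + outer p s1 e y -
              eps β p τ / (phi β (psi p τ y) - phi β p)‖ := by rw [← g9]
          _ ≤ _ := (norm_sub_le _ _).trans (by gcongr; exact norm_add_le _ _)
      rw [← hxy] at g10
      have h4 : C2 * ‖τ‖ ^ 2 ≤ C2 * ‖τ‖ := by
        have : ‖τ‖ ^ 2 ≤ ‖τ‖ := sq_le_self' (norm_nonneg _) hτ1
        exact mul_le_mul_of_nonneg_left this hC2.le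
      have h5 : 0 < η ^ 2 := by positivity
      linarith only [hb4, hC2τ, g5, hl2, g6, g7, g10, h4, h5]
  · -- the pole
    have h1 := gg_lim h (τ := τ) hp1' hp0 hc0 (by
      have : ball (0:ℂ) (η / 2) \ {0} ∈ 𝓝[≠] (0:ℂ) := by
        rw [sdiff_eq, inter_comm]
        exact inter_mem self_mem_nhdsWithin (mem_nhdsWithin_of_mem_nhds
          (ball_mem_nhds 0 (by linarith only [hη])))
      filter_upwards [this] with z hz
      have hz1 : ‖z‖ < η / 2 := by simpa using hz.1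
      have hz0 : z ≠ 0 := hz.2
      have hzp : η / 2 ≤ ‖z - p‖ := by
        have := norm_sub_norm_le p z
        rw [norm_sub_rev] at this
        linarith only [hp, hz1, this]
      exact hlow z (by linarith only [hp, hp1, hz1]) hz0 (by linarith only [hsa1, hs1, hs0, hs1p, hzp]))
    have h2 : Tendsto (fun z => z * outer p s1 e z) (𝓝[≠] 0) (𝓝 0) := by
      have h3 : ContinuousAt (outer p s1 e) 0 := by
        have h4 : (0:ℂ) ∈ (closedBall p s1)ᶜ := by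
          rw [mem_compl_iff, mem_closedBall, dist_zero_left, not_le]
          linarith only [hsa0, hsa1, hs1, hp]
        exact ((outer_differentiableOn hs1p hec).differentiableAt
          (isClosed_closedBall.isOpen_compl.mem_nhds h4)).continuousAt
      have h4 : ContinuousAt (fun z => z * outer p s1 e z) 0 := continuousAt_id.mul h3
      have h5 := h4.tendsto.mono_left (nhdsWithin_le_nhds (s := {0}ᶜ))
      simpa using h5
    have h3 := h1.sub h2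
    rw [sub_zero] at h3
    apply h3.congr'
    have : ball (0:ℂ) (η / 2) ∈ 𝓝[≠] (0:ℂ) :=
      mem_nhdsWithin_of_mem_nhds (ball_mem_nhds 0 (by linarith only [hη]))
    filter_upwards [this] with z hz
    have hz1 : ‖z‖ < η / 2 := by simpa using hz
    have hzp : η / 2 ≤ ‖z - p‖ := by
      have := norm_sub_norm_le p z
      rw [norm_sub_rev] at this
      linarith only [hp, hz1, this]
    rw [hFeq z (by linarith only [hsa1, hs1, hs1p, hzp])]
    ring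
  · -- expansion
    intro z hz1 hz2 hzp
    have hzD : z ∈ D := by
      refine ⟨by rw [mem_ball, dist_zero_right]; linarith only [hb0, hb1, hs0η, hz2], ?_⟩
      rintro (rfl : z = 0)
      rw [norm_zero] at hz1; linarith only [hb0, hb1, hs0η, hz1]
    have h1 := hG z hz1 hz2 (by linarith only [hsa0, hsa1, hs0, hzp])
    have h2 := hE z (by linarith only [hsa1, hs1, hs1p, hzp])
    have h3 : F z - phi β z - VV β p τ z = (gg β p τ z - P z) - outer p s1 e z := by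
      rw [hFeq z (by linarith only [hsa1, hs1, hs1p, hzp]), hP]
      simp only
      rw [hVeq z hzD (by linarith only [hsa1, hs1, hs0, hs1p, hzp])]
      ring
    rw [h3]
    refine (norm_sub_le _ _).trans ?_
    have h4 : 0 ≤ 16 * C2 / s1 * ‖τ‖ ^ 2 := by positivity
    exact (add_le_add h1 h2).trans (last_aux h4)

end Pool.Agent.Helper5.CK

end
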