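import Mathlib
import Pool.Agent.Helper60.BE.T05
import Pool.Agent.Helper60.BE.T15
import Pool.Agent.Helper60.BE.T04
import Pool.Agent.Helper60.BE.T09
import Pool.Agent.Helper60.BE.T16
import Pool.Agent.Helper60.BE.T13

set_option linter.all false

section

namespace Pool.Agent.Helper52.EK
end Pool.Agent.Helper52.EK
namespace Pool.Agent.Helper52.CK
end Pool.Agent.Helper52.CK
namespace Pool.Agent.Helper84.CK
end Pool.Agent.Helper84.CK

set_option autoImplicit false

open Complex Set Filter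

open scoped Real Topology

namespace Pool.Agent.Helper73.CK

open Pool.Agent.Helper52.EK Pool.Agent.Helper52.CK Pool.Agent.Helper84.CK

theorem norm_ez (θ : ℝ) : ‖Complex.exp (θ * I)‖ = 1 := Complex.norm_exp_ofReal_mul_I θ

theorem ez_sub_one (θ : ℝ) : ‖Complex.exp (θ * I) - 1‖ ≤ |θ| := by
  have := Real.norm_exp_I_mul_ofReal_sub_one_le (x := θ)
  rw [mul_comm I] at this
  simpa using this

theorem tau_exp_le {x : ℝ} (hx : 0 < x) : tau (Real.exp (-x)) ≤ x / 2 := by
  unfold tau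
  have h1 := Real.exp_pos (-x)
  rw [div_le_iff₀ (by (clear * - h1; linarith only [h1]))]
  -- 1 - e^-x ≤ (x/2)(1 + e^-x)
  have key : ∀ t : ℝ, 0 ≤ t → 0 ≤ t / 2 * (1 + Real.exp (-t)) - (1 - Real.exp (-t)) := by
    intro t ht
    have hd : ∀ s : ℝ, HasDerivAt (fun t => t / 2 * (1 + Real.exp (-t)) - (1 - Real.exp (-t)))
        (1 / 2 * (1 + Real.exp (-s)) + s / 2 * (-Real.exp (-s)) - Real.exp (-s)) s := by
      intro s
      have e1 : HasDerivAt (fun t : ℝ => Real.exp (-t)) (-Real.exp (-s)) s := by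
        have := (hasDerivAt_neg' s).exp
        simpa using this
      have e2 := (((hasDerivAt_id s).div_const 2).mul (e1.const_add 1)).sub (e1.const_sub 1)
      refine e2.congr_deriv ?_
      simp only [id]
      ring
    have hm : MonotoneOn (fun t => t / 2 * (1 + Real.exp (-t)) - (1 - Real.exp (-t)))
        (Ici 0) := by
      apply monotoneOn_of_deriv_nonneg (convex_Ici 0)
      · exact fun s _ => (hd s).continuousAt.continuousWithinAt
      · exact fun s _ => (hd s).differentiableAt.differentiableWithinAt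
      · intro s hs
        rw [interior_Ici] at hs
        rw [(hd s).deriv]
        have h2 : Real.exp (-s) * (s + 1) ≤ 1 := by
          have h3 := Real.add_one_le_exp s
          have h4 : Real.exp (-s) * Real.exp s = 1 := by rw [← Real.exp_add]; simp
          (clear * - h4 h3; nlinarith only [Real.exp_pos (-s), h3, h4])
        (clear * - h2; linarith only [h2])
    have h5 := hm (self_mem_Ici) (show t ∈ Ici (0:ℝ) from ht) ht
    simpa using h5
  have := key x hx.le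
  linarith only [this]

theorem x1_lt {n x : ℝ} (hx : 0 < x) (hxn : x ≤ Real.exp (-n)) :
    Real.exp (Real.log (tau (Real.exp (-x))) + 1) < 2 * Real.exp (-n) := by
  have h0 : 0 < tau (Real.exp (-x)) := by
    unfold tau
    have h1 := Real.exp_pos (-x)
    have h2 : Real.exp (-x) < 1 := by
      rw [Real.exp_lt_one_iff]
      (clear * - hx; linarith only [hx])
    apply div_pos <;> (clear * - h2 h1; linarith only [h2, h1])
  rw [Real.exp_add, Real.exp_log h0]
  have h1 := tau_exp_le hx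
  have h2 : Real.exp 1 < 2.7182818286 := Real.exp_one_lt_d9
  have h3 := Real.exp_pos (-n)
  have h4 := Real.exp_pos 1
  nlinarith only [hxn, h0, h1, h2]

/-- the area bound with an absolute coefficient of `l - n` (after `Pool.Agent.Helper63.CK.area`) -/
theorem area2 (B : ℝ) : ∃ C : ℝ, 0 ≤ C ∧ ∀ (n w x : ℝ) (W : ℝ → ℝ → ℝ), 2 ≤ n → 1 ≤ w → w ≤ n →
    0 < x → x ≤ Real.exp (-n) →
    Pool.Agent.Helper69.EK3.CH (Real.log (tau (Real.exp (-x))) + 1) (-1) π W →
    (∀ ξ ∈ Icc (Real.log (tau (Real.exp (-x))) + 1) (-1), ∀ η ∈ Icc (0:ℝ) π,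
      0 ≤ W ξ η ∧ W ξ η ≤ 1) →
    (∀ ξ ∈ Icc (Real.log (tau (Real.exp (-x))) + 1) (-1), ∀ η ∈ Icc (0:ℝ) π, ξ ≤ -B →
      4 * Real.exp (-(n - w)) ≤ Real.exp ξ * Real.sin η → W ξ η = 1) →
    II (Real.log (tau (Real.exp (-x))) + 1) (-1) (fun ξ η => 1 - W ξ η) ≤
      100 * w + C + 7 * (-Real.log x - n) := by
  have hπ := Real.pi_pos
  have hπ3 := Real.pi_lt_d2
  refine ⟨π * (6 + |B|), by (clear * -; positivity), ?_⟩
  intro n w x W hn hw hwn hx hxn hW h01 h1
  have hx2 : x ≤ Real.exp (-2) := hxn.trans (Real.exp_le_exp.mpr (by (clear * - hn; linarith only [hn])))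
  have hx1 : x ≤ 1 := hx2.trans (by
    rw [← Real.exp_zero]
    exact Real.exp_le_exp.mpr (by norm_num))
  have ht4 : x / 4 ≤ tau (Real.exp (-x)) := Pool.Agent.Helper63.CK.tau_ge hx hx1
  have ht0 : 0 < tau (Real.exp (-x)) := lt_of_lt_of_le (by (clear * - hx; positivity)) ht4
  have ht2 : Real.log (tau (Real.exp (-x))) ≤ -2 := by
    rw [← Real.log_exp (-2)]
    exact Real.log_le_log ht0 (Pool.Agent.Helper63.CK.tau_le hx hx2)
  have htl : Real.log x - Real.log 4 ≤ Real.log (tau (Real.exp (-x))) := by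
    rw [← Real.log_div hx.ne' (by norm_num)]
    exact Real.log_le_log (by (clear * - hx; positivity)) ht4
  have hlx : Real.log x ≤ -n := by
    rw [← Real.log_exp (-n)]
    exact Real.log_le_log hx hxn
  have hl4 : Real.log 4 ≤ 3 / 2 := by
    have h2 : Real.log 4 = 2 * Real.log 2 := by
      rw [show (4:ℝ) = 2 ^ 2 by norm_num, Real.log_pow]
      norm_num
    have h3 := Real.log_two_lt_d9
    (clear * - h2 h3; linarith)
  set x₁ : ℝ := Real.log (tau (Real.exp (-x))) + 1 with hx₁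
  have hle := Pool.Agent.Helper63.CK.area_le (x₁ := x₁) (x₂ := -1) (A := 1 + |B|)
    (lb := Real.log 4 + (-(n - w)))
    (by (clear * - ht2; linarith only [ht2])) (by (clear * -; linarith only [abs_nonneg B])) (W := W) hW
    (fun ξ hξ η hη => (h01 ξ hξ η hη).1)
    (fun ξ hξ η hη hξA hs => by
      apply h1 ξ hξ η hη (by linarith only [le_abs_self B, hξA])
      rwa [Real.exp_add, Real.exp_log (by norm_num)] at hs)
  refine hle.trans ?_
  have hm : max (Real.log 4 + (-(n - w)) - x₁) 0 ≤ 2 + w + (-Real.log x - n) := by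
    apply max_le <;> linarith only [htl, hl4, hw, hlx]
  have hL : 0 ≤ -Real.log x - n := by linarith only [hlx]
  have h2 : π * (2 * (max (Real.log 4 + (-(n - w)) - x₁) 0 + 1) + (-1 + (1 + |B|))) ≤
      π * (2 * (2 + w + (-Real.log x - n) + 1) + |B|) := by
    apply mul_le_mul_of_nonneg_left _ hπ.le
    linarith only [hm]
  refine h2.trans ?_
  have h3 : π * (2 * w) ≤ 100 * w := by (clear * - hπ3 hw; nlinarith only [hπ3, hw])
  have h6 : π * 2 * (-Real.log x - n) ≤ 7 * (-Real.log x - n) := by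
    apply mul_le_mul_of_nonneg_right _ hL
    linarith only [hπ3]
  have h7 : π * (2 * (2 + w + (-Real.log x - n) + 1) + |B|) =
      π * (2 * w) + π * 2 * (-Real.log x - n) + π * (6 + |B|) := by ring
  rw [h7]
  linarith only [h3, h6]

/-- the statement used by the assembly -/
def CutStmt : Prop := ∃ C₀ : ℝ, 0 ≤ C₀ ∧ ∀ K ε A : ℝ, 0 < K → 0 < ε → ∃ s C n₀ : ℝ, 0 < s ∧
    s ≤ 1 / 2 ∧ 0 ≤ C ∧ ∀ n : ℝ, n₀ ≤ n → ∃ W0 : ℂ → ℝ, Cutf (Real.exp (-n)) W0 ∧
      ∀ x θ : ℝ, 0 < x → x ≤ Real.exp (-n) → |θ| ≤ s →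
        (∃ W₁ W₂ : ℝ → ℝ → ℝ, WtF (Real.log (tau (Real.exp (-x))) + 1) (-1) K
          (fun ξ η => W0 (Complex.exp (θ * I) * zf (pt ξ η))) W₁ W₂) ∧
        (∀ z : ℂ, W0 (Complex.exp (θ * I) * z) ≠ 0 → ‖z‖ < 1 ∧
          Real.exp (Real.log (tau (Real.exp (-x))) + 1) < ‖1 - z‖ / ‖1 + z‖ ∧
          ‖1 - z‖ / ‖1 + z‖ ≤ Real.exp (-A)) ∧
        II (Real.log (tau (Real.exp (-x))) + 1) (-1)
          (fun ξ η => 1 - W0 (Complex.exp (θ * I) * zf (pt ξ η))) ≤
            ε * (-Real.log x) + C + C₀ * (-Real.log x - n)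

/-- **the cut-off function** -/
theorem cut : CutStmt := by
  refine ⟨7, by norm_num, ?_⟩
  intro K ε A hK hε
  obtain ⟨f, f₁, M, hf⟩ := exists_stp
  -- the constants
  set k : ℝ := max 2 (max (A + 1) (4 * M / K)) with hk
  have hk2 : 2 ≤ k := le_max_left _ _
  have hkA : A + 1 ≤ k := (le_max_left _ _).trans (le_max_right _ _)
  have hkM : 4 * M / K ≤ k := (le_max_right _ _).trans (le_max_right _ _)
  have hk0 : 0 < k := by (clear * - hk2; linarith only [hk2])
  set s : ℝ := Real.exp (-(2 * k)) / 2 with hs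
  have hs0 : 0 < s := by (clear * -; positivity)
  have hsk : s ≤ Real.exp (-(2 * k)) := by
    rw [hs]; (clear * - hs hs0; linarith only [hs, hs0])
  have hs1 : s ≤ 1 / 2 := by
    have : Real.exp (-(2 * k)) ≤ 1 := Real.exp_le_one_iff.2 (by (clear * - hk0; linarith only [hk0]))
    rw [hs]; linarith only [this]
  set ε' : ℝ := min (ε / 100) (1 / 2) with hε'
  have hε'0 : 0 < ε' := lt_min (by positivity) (by norm_num)
  have hε'1 : ε' ≤ ε / 100 := min_le_left _ _
  have hε'2 : ε' ≤ 1 / 2 := min_le_right _ _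
  obtain ⟨C, hC0, hC⟩ := area2 (2 * k + 2)
  set n₀ : ℝ := max 2 (max (1 / ε') (2 * M / (K * ε'))) with hn₀
  refine ⟨s, C, n₀, hs0, hs1, hC0, ?_⟩
  intro n hn
  have hn2 : 2 ≤ n := (le_max_left _ _).trans hn
  have hn3 : 1 / ε' ≤ n := ((le_max_left _ _).trans (le_max_right _ _)).trans hn
  have hn4 : 2 * M / (K * ε') ≤ n := ((le_max_right _ _).trans (le_max_right _ _)).trans hn
  set w : ℝ := ε' * n with hw
  have hw1 : 1 ≤ w := by
    rw [div_le_iff₀ hε'0] at hn3
    (clear * - hn3; linarith only [hn3])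
  have hw0 : 0 < w := by linarith only [hw1]
  have hwn : w ≤ n := by
    rw [hw]; (clear * - hε'2 hn2; nlinarith only [hε'2, hn2])
  have hMw : M / w ≤ K / 2 := by
    rw [div_le_iff₀ (by positivity)] at hn4
    rw [div_le_iff₀ hw0, hw]
    linarith only [hn4]
  have hMk : 2 * M / k ≤ K / 2 := by
    rw [div_le_iff₀ hK] at hkM
    rw [div_le_iff₀ hk0]
    linarith only [hkM]
  have hbn := Real.exp_pos (-n)
  have hek : Real.exp (-k) ≤ Real.exp (-2) := Real.exp_le_exp.2 (by linarith only [hk2])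
  have he2 : Real.exp (-2) ≤ 0.14 := by
    have h1 : Real.exp (-1) < 0.3678794412 := Real.exp_neg_one_lt_d9
    have h2 : Real.exp (-2) = Real.exp (-1) * Real.exp (-1) := by
      rw [← Real.exp_add]; norm_num
    have h3 := Real.exp_pos (-1)
    rw [h2]
    (clear * - h1 h3; nlinarith only [h1, h3])
  have hs2 : s ≤ Real.exp (-k) := by
    have : Real.exp (-(2 * k)) ≤ Real.exp (-k) := Real.exp_le_exp.2 (by linarith only [hk0])
    linarith only [hsk, this]
  refine ⟨W0 f k w n, ⟨W0_cont hf k n hw0, fun z => (W0_bd hf k w n z).1,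
    fun z => (W0_bd hf k w n z).2, ?_⟩, ?_⟩
  · intro z hz
    have a1 : 8 * Real.exp (-n) < 1 - ‖z‖ ^ 2 := by
      by_contra h1
      exact hz (W0_zero1 hf hw0 (not_lt.1 h1))
    have a2 : ‖z - 1‖ < Real.exp (-k) := by
      by_contra h1
      exact hz (W0_zero2 hf hk0 (not_lt.1 h1))
    have a3 : 1 ≤ ‖z‖ + ‖z - 1‖ := by
      have := norm_sub_le z (z - 1)
      simpa using this
    refine ⟨?_, ?_, by linarith only [hek, he2, a2]⟩
    · have h1 : Real.exp (-1) < 0.3678794412 := Real.exp_neg_one_lt_d9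
      linarith only [hek, he2, a2, a3, h1]
    · have b1 : ‖z‖ ^ 2 ≤ Real.exp (-2 * Real.exp (-n)) ^ 2 := by
        have b2 := Real.add_one_le_exp (-4 * Real.exp (-n))
        have b3 : Real.exp (-2 * Real.exp (-n)) ^ 2 = Real.exp (-4 * Real.exp (-n)) := by
          rw [sq, ← Real.exp_add]
          congr 1
          ring
        rw [b3]
        (clear * - hbn a1 b2; linarith only [hbn, a1, b2])
      exact (sq_le_sq₀ (norm_nonneg z) (Real.exp_pos _).le).1 b1
  · intro x θ hx hxn hθ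
    set ζ : ℂ := Complex.exp (θ * I) with hζ
    have hz1 : ‖ζ‖ = 1 := norm_ez θ
    have hz2 : ‖ζ - 1‖ ≤ s := (ez_sub_one θ).trans hθ
    have hx1 := x1_lt hx hxn
    set x₁ : ℝ := Real.log (tau (Real.exp (-x))) + 1 with hx₁
    simp only [Om_eq f k w n hz1]
    have hCH : Pool.Agent.Helper69.EK3.CH x₁ (-1) π (Om f k w n ζ) := by
      rintro ⟨ξ, η⟩ ⟨hξ, hη⟩
      exact (Om_cont hf hw0 hz1 (sin_nn hη)).continuousWithinAt
    have hb01 : ∀ ξ η : ℝ, 0 ≤ Om f k w n ζ ξ η ∧ Om f k w n ζ ξ η ≤ 1 := by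
      intro ξ η
      rw [← Om_eq f k w n hz1 ξ η]
      exact W0_bd hf k w n _
    refine ⟨⟨Om1 f f₁ k w n ζ, Om2 f f₁ k w n ζ, ?_⟩, ?_, ?_⟩
    · refine ⟨hCH, ?_, ?_, ?_, ?_, ?_, ?_, fun ξ _ η _ => hb01 ξ η, ?_, ?_⟩
      · rintro ⟨ξ, η⟩ ⟨hξ, hη⟩
        exact (Om1_cont hf hw0 hz1 (sin_nn hη)).continuousWithinAt
      · rintro ⟨ξ, η⟩ ⟨hξ, hη⟩
        exact (Om2_cont hf hw0 hz1 (sin_nn hη)).continuousWithinAt
      · intro ξ hξ η hη
        exact Om_d1 hf hw0 hz1 (sin_nn hη)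
      · intro ξ hξ η hη
        exact Om_d2 hf hw0 hz1 (sin_nn hη)
      · intro η hη
        apply Om_zero hf hw0
        exact (yy_le (sin_nn hη)).trans (by linarith only [hx1])
      · intro η hη
        -- far end
        have hs3 := sin_nn hη
        change Om f k w n ζ (-1) η = 0
        unfold Om
        have h3 : Real.exp (-k) ≤ ‖vv ζ (-1) η‖ := by
          have h4 : ‖zf (pt (-1) η) - 1‖ ≤ ‖vv ζ (-1) η‖ + s := by
            have h2 : zf (pt (-1) η) - 1 = ζ⁻¹ * (vv ζ (-1) η - (ζ - 1)) := by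
              have hz : ζ ≠ 0 := Complex.exp_ne_zero _
              unfold vv
              field_simp
              ring
            rw [h2, norm_mul, norm_inv, hz1, inv_one, one_mul]
            exact (norm_sub_le _ _).trans (by linarith only [hz2])
          have h5 : 0.5 ≤ ‖zf (pt (-1) η) - 1‖ := by
            rw [norm_zf_sub_one hs3]
            have h6 : ‖I + Complex.exp (pt (-1) η)‖ ≤ 1 + Real.exp (-1) := by
              have := norm_add_le I (Complex.exp (pt (-1) η))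
              rwa [norm_I, norm_exp_pt] at this
            have h7 := norm_den_ge (ξ := -1) hs3
            rw [le_div_iff₀ (by linarith only [h7])]
            have h8 : 0.36787944116 < Real.exp (-1) := Real.exp_neg_one_gt_d9
            linarith only [h6, h8]
          linarith only [hek, he2, hs2, h4, h5]
        rw [hf.z _ (ar2_nonpos hk0 h3), mul_zero]
      · intro ξ hξ η hη
        exact (Om1_bd hf hk0 hw0 hz1 hz2 hsk (sin_nn hη)).trans (by linarith only [hMw, hMk])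
      · intro ξ hξ η hη
        exact (Om2_bd hf hk0 hw0 hz1 hz2 hsk (sin_nn hη)).trans (by linarith only [hMw, hMk])
    swap
    · have h1 := hC n w x (Om f k w n ζ) hn2 hw1 hwn hx hxn hCH (fun ξ _ η _ => hb01 ξ η) ?_
      · refine h1.trans ?_
        have h2 : n ≤ -Real.log x := by
          have := Real.log_le_log hx hxn
          rw [Real.log_exp] at this
          linarith only [this]
        have h3 : 100 * w ≤ ε * (-Real.log x) := by
          rw [hw]
          have h4 : 100 * ε' ≤ ε := by linarith only [hε'1]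
          have h5 : 0 ≤ n := by linarith only [hw0, hwn]
          calc 100 * (ε' * n) = (100 * ε') * n := by ring
            _ ≤ ε * n := mul_le_mul_of_nonneg_right h4 h5
            _ ≤ ε * (-Real.log x) := mul_le_mul_of_nonneg_left h2 hε.le
        linarith only [h3]
      · intro ξ hξ η hη hξB hy
        have hs3 := sin_nn hη
        rw [← Om_eq f k w n hz1 ξ η]
        apply W0_one hf hk0 hw0
        · have h4 := yy_ge (ξ := ξ) hs3 hξ.2
          rw [norm_mul, hz1, one_mul]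
          have h5 : yy ξ η = 1 - ‖zf (pt ξ η)‖ ^ 2 := rfl
          rw [← h5]
          linarith only [hy, h4]
        · have h4 : ‖ζ * zf (pt ξ η) - 1‖ ≤ ‖zf (pt ξ η) - 1‖ + s := by
            have h2 : ζ * zf (pt ξ η) - 1 = ζ * (zf (pt ξ η) - 1) + (ζ - 1) := by ring
            rw [h2]
            refine (norm_add_le _ _).trans ?_
            rw [norm_mul, hz1, one_mul]
            linarith only [hz2]
          have h5 : ‖zf (pt ξ η) - 1‖ ≤ 2 * Real.exp ξ := by
            rw [norm_zf_sub_one hs3]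
            have h7 := norm_den_ge (ξ := ξ) hs3
            exact div_le_self (by positivity) h7
          have h6 : Real.exp ξ ≤ Real.exp (-(2 * k)) * 0.14 := by
            have : Real.exp ξ ≤ Real.exp (-(2 * k) + -2) := Real.exp_le_exp.2 (by linarith only [hξB])
            rw [Real.exp_add] at this
            (clear * - this hs he2 hs0; nlinarith only [hs, hs0, he2, this])
          have h8 := Real.exp_pos (-(2 * k))
          linarith only [hs, hsk, h4, h5, h6]
    · intro z hz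
      have hnz : ‖ζ * z‖ = ‖z‖ := by rw [norm_mul, hz1, one_mul]
      have a1 : 8 * Real.exp (-n) < 1 - ‖z‖ ^ 2 := by
        by_contra h1
        refine hz (W0_zero1 hf hw0 ?_)
        rw [hnz]
        exact not_lt.1 h1
      have a2 : ‖ζ * z - 1‖ < Real.exp (-k) := by
        by_contra h1
        exact hz (W0_zero2 hf hk0 (not_lt.1 h1))
      have a3 : ‖z‖ < 1 := by (clear * - hx hxn a1; nlinarith only [hx, hxn, a1])
      have a4 : ‖1 - z‖ ≤ ‖ζ * z - 1‖ + s := by
        have h2 : 1 - z = ζ⁻¹ * ((ζ - 1) - (ζ * z - 1)) := by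
          have hz : ζ ≠ 0 := Complex.exp_ne_zero _
          field_simp
          ring
        rw [h2, norm_mul, norm_inv, hz1, inv_one, one_mul]
        exact (norm_sub_le _ _).trans (by linarith only [hz2])
      have a5 : 2 ≤ ‖1 + z‖ + ‖1 - z‖ := by
        have := norm_add_le (1 + z) (1 - z)
        have h3 : (1 + z) + (1 - z) = 2 := by ring
        rw [h3] at this
        simpa using this
      have a6 : ‖1 - z‖ ≤ 2 * Real.exp (-k) := by (clear * - hs2 a2 a4; linarith only [hs2, a2, a4])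
      have a7 : 1 ≤ ‖1 + z‖ := by (clear * - hek he2 a5 a6; linarith only [hek, he2, a5, a6])
      have a8 : ‖1 + z‖ ≤ 2 := by
        have := norm_add_le 1 z
        rw [norm_one] at this
        linarith only [a3, this]
      have a9 : 4 * Real.exp (-n) < ‖1 - z‖ := by
        have h1 : 1 - ‖z‖ ≤ ‖1 - z‖ := by
          have := norm_sub_norm_le (1:ℂ) z
          rwa [norm_one] at this
        nlinarith only [a1, a5, a8, h1]
      refine ⟨a3, ?_, ?_⟩
      · refine hx1.trans ?_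
        rw [lt_div_iff₀ (by linarith only [a7])]
        nlinarith only [a5, a7, a8, a9]
      · rw [div_le_iff₀ (by linarith only [a7])]
        have h1 : 2 * Real.exp (-k) ≤ Real.exp (-A) := by
          have h2 : Real.exp (-k) ≤ Real.exp (-A) * Real.exp (-1) := by
            rw [← Real.exp_add]
            exact Real.exp_le_exp.2 (by linarith only [hkA])
          have h3 : Real.exp (-1) < 0.3678794412 := Real.exp_neg_one_lt_d9
          nlinarith only [Real.exp_pos (-A), h2, h3]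
        nlinarith only [a5, a6, a7, a8, h1]

end Pool.Agent.Helper73.CK

end

section

namespace Pool.Agent.Helper39.Area
end Pool.Agent.Helper39.Area
namespace Pool.Agent.Helper52.EK
end Pool.Agent.Helper52.EK
namespace Pool.Agent.Helper39.EK
end Pool.Agent.Helper39.EK

/-!
The class of the exterior maps `φ z = z⁻¹ + β z`, `β 0 = 0`, is compact for the locally uniform
convergence of `β` on the unit disc.
-/

set_option autoImplicit false

open Complex MeasureTheory Metric Set Filter Topology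

open scoped Real ComplexConjugate

namespace Pool.Agent.Helper43.CK

open Pool.Agent.Helper39.Area Pool.Agent.Helper52.EK Pool.Agent.Helper39.EK

variable {β : ℂ → ℂ}

/-- upper bound for `N` -/
theorem N_le (h : Ext β) {z : ℂ} (hz : ‖z‖ < 1) : ‖N β z‖ ≤ (1 - ‖z‖ ^ 2)⁻¹ := by
  have hz1 : z ∈ ball (0:ℂ) 1 := by simpa using hz
  obtain ⟨F, hF0, hF, hexp⟩ := exists_log h hz1
  have h1 := log_bound h hz1 hF hF0 hexp
  have h2 : 0 < 1 - ‖z‖ ^ 2 := by nlinarith [norm_nonneg z]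
  rw [← qq_self, ← hexp z hz1, Complex.norm_exp]
  have h3 : (F z).re ≤ ‖F z‖ := Complex.re_le_norm (F z)
  calc Real.exp (F z).re ≤ Real.exp (Real.log ((1 - ‖z‖ ^ 2)⁻¹)) := by
        rw [Real.log_inv]
        exact Real.exp_le_exp.mpr (by (clear * - h1 h3; linarith only [h1, h3]))
    _ = (1 - ‖z‖ ^ 2)⁻¹ := Real.exp_log (by (clear * - h2; positivity))

end Pool.Agent.Helper43.CK

end

section

/-!
Project CK, module L4: expansion of the weighted area functional
`J(f) = ∬ |f'|^{-κ} W(1-|z|²)` under an interior variation `F ∘ ψ_t = G_t ∘ f`.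
Weight `W(y) = y^a (y+δ)^{-η}`.
-/

open MeasureTheory Set Filter Topology

namespace Pool.Agent.Helper27.CK

noncomputable section

/-- `log ‖1+z‖ = Re z + O(‖z‖²)` -/
lemma log_norm_one_add {z : ℂ} (hz : ‖z‖ ≤ 1 / 2) :
    |Real.log ‖1 + z‖ - z.re| ≤ ‖z‖ ^ 2 := by
  have h1 : ‖z‖ < 1 := by linarith only [hz]
  have h2 := Complex.norm_log_one_add_sub_self_le h1
  have h3 : Real.log ‖1 + z‖ - z.re = (Complex.log (1 + z) - z).re := by
    rw [Complex.sub_re, Complex.log_re]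
  rw [h3]
  refine (Complex.abs_re_le_norm _).trans (h2.trans ?_)
  have h4 : (1 - ‖z‖)⁻¹ ≤ 2 := by
    rw [inv_le_comm₀ (by (clear * - h1; linarith only [h1])) (by norm_num)]
    (clear * - hz; linarith only [hz])
  have h5 : (0 : ℝ) ≤ ‖z‖ ^ 2 := by (clear * -; positivity)
  (clear * - h4; nlinarith only [h4])

/-- if `z = t u + O(t²)` then `log ‖1+z‖ = t Re u + O(t²)` -/
lemma log_norm_expand {C t : ℝ} {z u : ℂ} (hC : 0 ≤ C) (hu : ‖u‖ ≤ C)
    (hz : ‖z - 1 - t * u‖ ≤ C * t ^ 2) (ht : |t| ≤ 1) (htC : 4 * (C + 1) * |t| ≤ 1) :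
    |Real.log ‖z‖ - t * u.re| ≤ (C + 4 * C ^ 2) * t ^ 2 := by
  have ht2 : t ^ 2 = |t| ^ 2 := (sq_abs t).symm
  have ht0 := abs_nonneg t
  have h1 : ‖z - 1‖ ≤ 2 * C * |t| := by
    have : z - 1 = (z - 1 - t * u) + t * u := by ring
    rw [this]
    refine (norm_add_le _ _).trans ?_
    rw [norm_mul, Complex.norm_real, Real.norm_eq_abs]
    have : C * t ^ 2 ≤ C * |t| := by
      rw [ht2]
      (clear * - hC ht0 ht; nlinarith only [mul_nonneg hC ht0, ht])
    (clear * - hz this hu ht0; nlinarith only [hu, hz, ht0, this])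
  have h2 : ‖z - 1‖ ≤ 1 / 2 := by
    refine h1.trans ?_
    (clear * - htC ht0; linarith only [htC, ht0])
  have h3 := log_norm_one_add h2
  have h4 : (1 : ℂ) + (z - 1) = z := by ring
  rw [h4] at h3
  have h5 : |(z - 1).re - t * u.re| ≤ C * t ^ 2 := by
    have : (z - 1).re - t * u.re = (z - 1 - t * u).re := by simp
    rw [this]
    exact (Complex.abs_re_le_norm _).trans hz
  have h6 : ‖z - 1‖ ^ 2 ≤ 4 * C ^ 2 * t ^ 2 := by
    rw [ht2]
    calc ‖z - 1‖ ^ 2 ≤ (2 * C * |t|) ^ 2 := by gcongr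
      _ = _ := by ring
  calc |Real.log ‖z‖ - t * u.re| = |(Real.log ‖z‖ - (z - 1).re) + ((z - 1).re - t * u.re)| := by
        congr 1; ring
    _ ≤ _ := (abs_add_le _ _).trans (by linarith only [h3, h5, h6])

/-- exponential form: `exp S = 1 + t a + O(t²)` -/
lemma exp_expand {C t S a : ℝ} (hC : 0 ≤ C) (ha : |a| ≤ C) (hS : |S - t * a| ≤ C * t ^ 2)
    (ht : |t| ≤ 1) (htC : 4 * (C + 1) * |t| ≤ 1) :
    |Real.exp S - 1 - t * a| ≤ (C + 4 * C ^ 2) * t ^ 2 := by
  have ht2 : t ^ 2 = |t| ^ 2 := (sq_abs t).symm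
  have ht0 := abs_nonneg t
  have h1 : |S| ≤ 2 * C * |t| := by
    have : S = (S - t * a) + t * a := by ring
    rw [this]
    refine (abs_add_le _ _).trans ?_
    rw [abs_mul]
    have : C * t ^ 2 ≤ C * |t| := by
      rw [ht2]
      (clear * - hC ht0 ht; nlinarith only [mul_nonneg hC ht0, ht])
    nlinarith only [ha, hS, ht0, this]
  have h2 : |S| ≤ 1 := by linarith only [htC, ht0, h1]
  have h3 := Real.abs_exp_sub_one_sub_id_le h2
  have h4 : S ^ 2 ≤ 4 * C ^ 2 * t ^ 2 := by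
    rw [ht2, ← sq_abs S]
    calc |S| ^ 2 ≤ (2 * C * |t|) ^ 2 := by gcongr
      _ = _ := by ring
  calc |Real.exp S - 1 - t * a| = |(Real.exp S - 1 - S) + (S - t * a)| := by congr 1; ring
    _ ≤ _ := (abs_add_le _ _).trans (by (clear * - hS h3 h4; linarith))

end

end Pool.Agent.Helper27.CK

end

section

namespace Pool.Agent.Helper39.Area
end Pool.Agent.Helper39.Area
namespace Pool.Agent.Helper52.EK
end Pool.Agent.Helper52.EK
namespace Pool.Agent.Helper5.CK
end Pool.Agent.Helper5.CK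

set_option autoImplicit false

open Complex MeasureTheory Metric Set Filter Topology

open scoped Real ComplexConjugate

namespace Pool.Agent.Helper27.CK

open Pool.Agent.Helper39.Area Pool.Agent.Helper52.EK Pool.Agent.Helper5.CK

noncomputable section

/-- derivative of `hh` -/
def hd (p τ z : ℂ) : ℂ :=
  -(τ * (p / (z - p) ^ 2)) - conj τ * (conj p / (1 - conj p * z) ^ 2)

theorem hasDerivAt_hh {p τ z : ℂ} (h1 : z ≠ p) (h2 : conj p * z ≠ 1) :
    HasDerivAt (hh p τ) (hd p τ z) z := by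
  have e1 : z - p ≠ 0 := sub_ne_zero.mpr h1
  have e2 : 1 - conj p * z ≠ 0 := sub_ne_zero.mpr (Ne.symm h2)
  have d1 : HasDerivAt (fun z : ℂ => (z + p) / (z - p)) ((1 * (z - p) - (z + p) * 1) / (z - p) ^ 2) z :=
    ((hasDerivAt_id z).add_const p).div ((hasDerivAt_id z).sub_const p) e1
  have d2' : HasDerivAt (fun z : ℂ => conj p * z) (conj p) z := by
    simpa using (hasDerivAt_id z).const_mul (conj p)
  have d2 : HasDerivAt (fun z : ℂ => (1 + conj p * z) / (1 - conj p * z))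
      ((conj p * (1 - conj p * z) - (1 + conj p * z) * (-conj p)) / (1 - conj p * z) ^ 2) z :=
    (d2'.const_add 1).div (d2'.const_sub 1) e2
  have d3 := ((d1.const_mul τ).sub (d2.const_mul (conj τ))).const_mul (1 / 2)
  have d4 := d3.congr_deriv (g' := hd p τ z) (by
    unfold hd
    field_simp
    ring)
  exact d4

/-- the relative variation `δN/N` -/
def dl (β : ℂ → ℂ) (p τ z : ℂ) : ℂ :=
  -(eps β p τ / (phi β z - phi β p) ^ 2) + hh p τ z * (z * deriv (N β) z / N β z) - hh p τ z +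
    z * hd p τ z - (τ.re : ℂ)

theorem dl_smul (β : ℂ → ℂ) (p B z : ℂ) (t : ℝ) : dl β p (t * B) z = t * dl β p B z := by
  unfold dl
  rw [hh_smul]
  have e1 : eps β p (t * B) = t * eps β p B := by unfold eps; ring
  have e2 : hd p (t * B) z = t * hd p B z := by
    unfold hd
    rw [map_mul, Complex.conj_ofReal]
    ring
  have e3 : (((t : ℂ) * B).re : ℂ) = t * (B.re : ℂ) := by
    rw [Complex.re_ofReal_mul]
    push_cast
    ring
  rw [e1, e2, e3]
  ring

/-- the variation of `N` -/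
theorem deriv_VV {β : ℂ → ℂ} (h : Ext β) {p τ z : ℂ} (hp : p ∈ ball (0:ℂ) 1) (hp0 : p ≠ 0)
    (hz : z ∈ ball (0:ℂ) 1) (hz0 : z ≠ 0) (hzp : z ≠ p) :
    -z ^ 2 * deriv (fun z => VV β p τ z - (τ.re : ℂ) * phi β z) z = N β z * dl β p τ z := by
  have hN : N β z ≠ 0 := h.ne z hz
  have hne : phi β z - phi β p ≠ 0 := by
    intro h1
    exact hzp (h.inj z p hz hp hz0 hp0 (sub_eq_zero.mp h1))
  have hc : conj p * z ≠ 1 := by
    intro h1
    have h2 : ‖conj p * z‖ = 1 := by rw [h1, norm_one]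
    rw [norm_mul, RCLike.norm_conj] at h2
    have h3 : ‖p‖ < 1 := by simpa using hp
    have h4 : ‖z‖ < 1 := by simpa using hz
    (clear * - h2 h4 h3; nlinarith only [norm_nonneg z, h2, h3, h4])
  have hb : DifferentiableOn ℂ (deriv β) (ball 0 1) := h.diff.deriv isOpen_ball
  have hnb : ball (0:ℂ) 1 ∈ 𝓝 z := isOpen_ball.mem_nhds hz
  have db : HasDerivAt β (deriv β z) z := (h.diff.differentiableAt hnb).hasDerivAt
  have ddb : HasDerivAt (deriv β) (deriv (deriv β) z) z := (hb.differentiableAt hnb).hasDerivAt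
  have dphi1 : HasDerivAt (phi β) (dphi β z) z := by
    have := (hasDerivAt_inv hz0).add db
    unfold dphi
    exact this
  have ddphi : HasDerivAt (dphi β) (2 * (z ^ 3)⁻¹ + deriv (deriv β) z) z := by
    have h1 : HasDerivAt (fun z : ℂ => z ^ 2) (2 * z) z := by simpa using hasDerivAt_pow 2 z
    have h2 := (h1.inv (pow_ne_zero 2 hz0)).neg.add ddb
    have h3 := h2.congr_deriv (g' := 2 * (z ^ 3)⁻¹ + deriv (deriv β) z) (by
      field_simp)
    exact h3
  have dN : deriv (N β) z = -(2 * z * deriv β z) - z ^ 2 * deriv (deriv β) z := by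
    have h1 : HasDerivAt (fun z : ℂ => z ^ 2) (2 * z) z := by simpa using hasDerivAt_pow 2 z
    have h2 := (h1.mul ddb).const_sub 1
    have h3 : deriv (N β) z = -(2 * z * deriv β z + z ^ 2 * deriv (deriv β) z) := by
      unfold N
      exact h2.deriv
    rw [h3]
    ring
  have dh := hasDerivAt_hh (τ := τ) hzp hc
  have d1 : HasDerivAt (fun z => eps β p τ / (phi β z - phi β p))
      (-(eps β p τ * dphi β z) / (phi β z - phi β p) ^ 2) z := by
    have h1 := (hasDerivAt_const z (eps β p τ)).div (dphi1.sub_const (phi β p)) hne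
    exact h1.congr_deriv (by ring)
  have d2 : HasDerivAt (fun z => dphi β z * (z * hh p τ z))
      ((2 * (z ^ 3)⁻¹ + deriv (deriv β) z) * (z * hh p τ z) +
        dphi β z * (1 * hh p τ z + z * hd p τ z)) z :=
    ddphi.mul ((hasDerivAt_id z).mul dh)
  have d3 : HasDerivAt (fun z => VV β p τ z - (τ.re : ℂ) * phi β z)
      (-(eps β p τ * dphi β z) / (phi β z - phi β p) ^ 2 +
        ((2 * (z ^ 3)⁻¹ + deriv (deriv β) z) * (z * hh p τ z) +
        dphi β z * (1 * hh p τ z + z * hd p τ z)) - (τ.re : ℂ) * dphi β z) z := by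
    have := (d1.add d2).sub (dphi1.const_mul (τ.re : ℂ))
    unfold VV
    exact this
  rw [d3.deriv]
  unfold dl
  rw [dN]
  have hN' : N β z = 1 - z ^ 2 * deriv β z := rfl
  have key : N β z * (-(eps β p τ / (phi β z - phi β p) ^ 2) + hh p τ z *
      (z * (-(2 * z * deriv β z) - z ^ 2 * deriv (deriv β) z) / N β z) - hh p τ z +
      z * hd p τ z - (τ.re : ℂ)) = -(N β z * eps β p τ / (phi β z - phi β p) ^ 2) + hh p τ z *
      (z * (-(2 * z * deriv β z) - z ^ 2 * deriv (deriv β) z)) - N β z * hh p τ z +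
      N β z * (z * hd p τ z) - N β z * (τ.re : ℂ) := by
    field_simp
  rw [key, hN']
  unfold dphi
  field_simp
  ring

end

end Pool.Agent.Helper27.CK

end

section

namespace Pool.Agent.Helper39.Area
end Pool.Agent.Helper39.Area
namespace Pool.Agent.Helper5.CK
end Pool.Agent.Helper5.CK
namespace Pool.Agent.Helper52.EK
end Pool.Agent.Helper52.EK
namespace Pool.Agent.Helper14.CK
end Pool.Agent.Helper14.CK

/-!
Project CK: the first variation of the area functional in log-polar coordinates.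
-/

set_option autoImplicit false

open Complex MeasureTheory Metric Set Filter Topology

open scoped Real ComplexConjugate

namespace Pool.Agent.Helper27.CK

open Pool.Agent.Helper39.Area Pool.Agent.Helper5.CK

open Pool.Agent.Helper52.EK hiding Rect

open Pool.Agent.Helper14.CK

noncomputable section

/-- product weight in log-polar coordinates -/
structure Wt2 (om om' : ℝ → ℝ) (a b : ℝ) (u u' : ℝ → ℝ) : Prop where
  a_pos : 0 < a
  a_lt : a < b
  om_d : ∀ x, HasDerivAt om (om' x) x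
  om_c : Continuous om'
  om_a : om a = 0
  om_b : om b = 0
  om_nn : ∀ x, 0 ≤ om x
  u_d : ∀ θ, HasDerivAt u (u' θ) θ
  u_c : Continuous u'
  u_per : u (-π) = u π
  u_nn : ∀ θ, 0 ≤ u θ

/-- the density `‖N‖ ^ (-κ)` in log-polar coordinates -/
def FF (κ : ℝ) (β : ℂ → ℂ) (p : ℝ × ℝ) : ℝ := ‖N β (ep (-p.1) p.2)‖ ^ (-κ)

/-- the functional -/
def J (κ : ℝ) (om u : ℝ → ℝ) (a b : ℝ) (β : ℂ → ℂ) : ℝ :=
  ∫ p in Rect a b, om p.1 * u p.2 * FF κ β p

/-- kernel of `Re h` -/
def k3 (z0 z : ℂ) : ℂ := z0 * ((1 - ‖z‖ ^ 2 : ℝ) : ℂ) / ((z - z0) * (1 - z0 * conj z))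

/-- kernel of `Im h` -/
def k5 (z0 z : ℂ) : ℂ := (z + z0) / (z - z0) + (1 + z0 * conj z) / (1 - z0 * conj z)

/-- kernel of `- Re (z h')` -/
def k4 (z0 z : ℂ) : ℂ := z * z0 / (z - z0) ^ 2 + conj z * z0 / (1 - z0 * conj z) ^ 2

/-- the kernel of the first variation -/
def body (κ : ℝ) (om om' u u' : ℝ → ℝ) (β : ℂ → ℂ) (z0 : ℂ) (p : ℝ × ℝ) : ℂ :=
  (om p.1 : ℂ) * (u p.2 : ℂ) *
    ((κ : ℂ) - κ * (z0 ^ 2 * dphi β z0 ^ 2 / (phi β (ep (-p.1) p.2) - phi β z0) ^ 2) +
      (κ + 2) * k4 z0 (ep (-p.1) p.2) + κ * k3 z0 (ep (-p.1) p.2)) +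
    (om' p.1 : ℂ) * (u p.2 : ℂ) * k3 z0 (ep (-p.1) p.2) +
    I / 2 * ((om p.1 : ℂ) * (u' p.2 : ℂ) * k5 z0 (ep (-p.1) p.2))

/-- the first variation -/
def EE (κ : ℝ) (om om' u u' : ℝ → ℝ) (a b : ℝ) (β : ℂ → ℂ) (z0 : ℂ) : ℂ :=
  ∫ p in Rect a b, (FF κ β p : ℂ) * body κ om om' u u' β z0 p

theorem hh_re {p B z : ℂ} (h1 : z ≠ p) (h2 : p * conj z ≠ 1) :
    (hh p B z).re = (B * k3 p z).re := by
  have e1 : z - p ≠ 0 := sub_ne_zero.mpr h1
  have e2 : 1 - p * conj z ≠ 0 := sub_ne_zero.mpr (Ne.symm h2)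
  have h3 : conj ((1 + conj p * z) / (1 - conj p * z)) = (1 + p * conj z) / (1 - p * conj z) := by
    simp [map_div₀]
  have h4 : (hh p B z).re = (1 / 2) * (B * ((z + p) / (z - p) -
      (1 + p * conj z) / (1 - p * conj z))).re := by
    unfold hh
    have : ((1 / 2 : ℂ) * (B * ((z + p) / (z - p)) - conj B * ((1 + conj p * z) /
        (1 - conj p * z)))).re = (1 / 2 : ℝ) * (B * ((z + p) / (z - p)) - conj B *
        ((1 + conj p * z) / (1 - conj p * z))).re := by
      rw [show (1 / 2 : ℂ) = ((1 / 2 : ℝ) : ℂ) by norm_num, Complex.re_ofReal_mul]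
    rw [this]
    congr 1
    rw [← h3]
    simp only [Complex.sub_re, Complex.mul_re, Complex.conj_re, Complex.conj_im, Complex.sub_im]
    ring
  have h5 : (z + p) / (z - p) - (1 + p * conj z) / (1 - p * conj z) = 2 * k3 p z := by
    unfold k3
    have h6 : ((1 - ‖z‖ ^ 2 : ℝ) : ℂ) = 1 - z * conj z := by
      rw [Complex.mul_conj, Complex.normSq_eq_norm_sq]
      push_cast
      ring
    rw [h6]
    field_simp
    ring
  rw [h4, h5]
  have h7 : (B * (2 * k3 p z)).re = 2 * (B * k3 p z).re := by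
    rw [show B * (2 * k3 p z) = ((2 : ℝ) : ℂ) * (B * k3 p z) by push_cast; ring,
      Complex.re_ofReal_mul]
  rw [h7]
  ring

theorem hh_im {p B z : ℂ} :
    -(hh p B z).im = (B * (I / 2 * k5 p z)).re := by
  have h3 : conj ((1 + conj p * z) / (1 - conj p * z)) = (1 + p * conj z) / (1 - p * conj z) := by
    simp [map_div₀]
  have h5 : k5 p z = (z + p) / (z - p) + conj ((1 + conj p * z) / (1 - conj p * z)) := by
    rw [h3]; rfl
  rw [h5]
  unfold hh
  generalize (z + p) / (z - p) = X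
  generalize (1 + conj p * z) / (1 - conj p * z) = Y
  have e1 : (1 / 2 * (B * X - conj B * Y)).im = 1 / 2 * (B * X - conj B * Y).im := by
    rw [show (1 / 2 : ℂ) = ((1 / 2 : ℝ) : ℂ) by norm_num, Complex.im_ofReal_mul]
  have e2 : (B * (I / 2 * (X + conj Y))).re = 1 / 2 * (B * (I * (X + conj Y))).re := by
    rw [show B * (I / 2 * (X + conj Y)) = ((1 / 2 : ℝ) : ℂ) * (B * (I * (X + conj Y))) by
      push_cast; ring, Complex.re_ofReal_mul]
  rw [e1, e2]
  simp only [Complex.sub_im, Complex.mul_im, Complex.conj_re, Complex.conj_im, Complex.add_im,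
    Complex.add_re, Complex.mul_re, Complex.I_re, Complex.I_im]
  ring

theorem hd_re {p B z : ℂ} : -(z * hd p B z).re = (B * k4 p z).re := by
  have h3 : conj (z * (conj p / (1 - conj p * z) ^ 2)) = conj z * p / (1 - p * conj z) ^ 2 := by
    simp [map_div₀, mul_div_assoc]
  have h5 : k4 p z = z * (p / (z - p) ^ 2) + conj (z * (conj p / (1 - conj p * z) ^ 2)) := by
    rw [h3]; unfold k4; ring
  rw [h5]
  have h6 : z * hd p B z = -(B * (z * (p / (z - p) ^ 2))) -
      conj B * (z * (conj p / (1 - conj p * z) ^ 2)) := by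
    unfold hd; ring
  rw [h6]
  generalize z * (p / (z - p) ^ 2) = X
  generalize z * (conj p / (1 - conj p * z) ^ 2) = Y
  simp only [Complex.sub_re, Complex.mul_re, Complex.conj_re, Complex.conj_im, Complex.add_re,
    Complex.neg_re, Complex.add_im]
  ring

/-- the closed annulus of the window -/
def An (a b : ℝ) : Set ℂ := {z | Real.exp (-b) ≤ ‖z‖ ∧ ‖z‖ ≤ Real.exp (-a)}

theorem ep_mem_An {a b : ℝ} {p : ℝ × ℝ} (hp : p ∈ Rect a b) : ep (-p.1) p.2 ∈ An a b := by
  have h1 := hp.1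
  constructor
  · rw [norm_ep]
    exact Real.exp_le_exp.mpr (by (clear * - h1; linarith [h1.2]))
  · rw [norm_ep]
    exact Real.exp_le_exp.mpr (by linarith [h1.1])

theorem An_ball {a b : ℝ} (ha : 0 < a) {z : ℂ} (hz : z ∈ An a b) : z ∈ ball (0:ℂ) 1 := by
  have h1 : Real.exp (-a) < 1 := by
    rw [← Real.exp_zero]
    exact Real.exp_lt_exp.mpr (by linarith)
  have := hz.2
  rw [mem_ball, dist_zero_right]
  linarith

theorem An_ne {a b : ℝ} {z : ℂ} (hz : z ∈ An a b) : z ≠ 0 := by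
  have h1 := Real.exp_pos (-b)
  exact norm_pos_iff.mp (h1.trans_le hz.1)

theorem cont_ep : Continuous fun p : ℝ × ℝ => ep (-p.1) p.2 := by
  unfold ep
  fun_prop

theorem contRect {a b : ℝ} {E : Type*} [TopologicalSpace E] {g : ℂ → E}
    (hg : ContinuousOn g (An a b)) :
    ContinuousOn (fun p : ℝ × ℝ => g (ep (-p.1) p.2)) (Rect a b) :=
  hg.comp cont_ep.continuousOn fun _ hp => ep_mem_An hp

structure Geo (a b : ℝ) (β : ℂ → ℂ) (z0 : ℂ) : Prop where
  ext : Ext β
  a_pos : 0 < a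
  z0_ne : z0 ≠ 0
  z0_lt : ‖z0‖ < Real.exp (-b)
  ab : a ≤ b

section geo

variable {a b : ℝ} {β : ℂ → ℂ} {z0 z : ℂ}

theorem Geo.z0_ball (h : Geo a b β z0) : z0 ∈ ball (0:ℂ) 1 := by
  have h1 : Real.exp (-b) < 1 := by
    rw [← Real.exp_zero]
    exact Real.exp_lt_exp.mpr (by linarith only [h.a_pos, h.ab])
  rw [mem_ball, dist_zero_right]
  (clear * - h1 h; linarith [h.z0_lt])

theorem Geo.ne (h : Geo a b β z0) (hz : z ∈ An a b) : z ≠ z0 := by
  intro h1
  have := hz.1
  rw [h1] at this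
  linarith only [h.z0_lt, this]

theorem Geo.ne' (h : Geo a b β z0) (hz : z ∈ An a b) : z - z0 ≠ 0 := sub_ne_zero.mpr (h.ne hz)

theorem Geo.conj_ne (h : Geo a b β z0) (hz : z ∈ An a b) : z0 * conj z ≠ 1 := by
  intro h1
  have h2 : ‖z0 * conj z‖ = 1 := by rw [h1, norm_one]
  rw [norm_mul, RCLike.norm_conj] at h2
  have h3 : ‖z0‖ < 1 := by simpa using h.z0_ball
  have h4 : ‖z‖ < 1 := by simpa using An_ball h.a_pos hz
  (clear * - h2 h4 h3; nlinarith only [norm_nonneg z, h2, h3, h4])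

theorem Geo.conj_ne2 (h : Geo a b β z0) (hz : z ∈ An a b) : 1 - z0 * conj z ≠ 0 :=
  sub_ne_zero.mpr (Ne.symm (h.conj_ne hz))

theorem Geo.conj_ne3 (h : Geo a b β z0) (hz : z ∈ An a b) : conj z0 * z ≠ 1 := by
  intro h1
  apply h.conj_ne hz
  have := congrArg conj h1
  simpa using this

theorem Geo.conj_ne4 (h : Geo a b β z0) (hz : z ∈ An a b) : 1 - conj z0 * z ≠ 0 :=
  sub_ne_zero.mpr (Ne.symm (h.conj_ne3 hz))

theorem Geo.N_ne (h : Geo a b β z0) (hz : z ∈ An a b) : N β z ≠ 0 :=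
  h.ext.ne z (An_ball h.a_pos hz)

theorem Geo.phi_ne (h : Geo a b β z0) (hz : z ∈ An a b) : phi β z - phi β z0 ≠ 0 := by
  intro h1
  exact h.ne hz (h.ext.inj z z0 (An_ball h.a_pos hz) h.z0_ball (An_ne hz) h.z0_ne
    (sub_eq_zero.mp h1))

theorem Geo.cN (h : Geo a b β z0) : ContinuousOn (N β) (An a b) := by
  have hb : DifferentiableOn ℂ (deriv β) (ball 0 1) := h.ext.diff.deriv isOpen_ball
  unfold N
  exact (continuousOn_const.sub ((continuousOn_id.pow 2).mul hb.continuousOn)).mono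
    fun z hz => An_ball h.a_pos hz

theorem Geo.dN (h : Geo a b β z0) (hz : z ∈ An a b) : HasDerivAt (N β) (deriv (N β) z) z := by
  have hb : DifferentiableOn ℂ (deriv β) (ball 0 1) := h.ext.diff.deriv isOpen_ball
  have h1 : DifferentiableOn ℂ (N β) (ball 0 1) := by
    unfold N
    exact (differentiableOn_const _).sub ((differentiableOn_id.pow 2).mul hb)
  exact (h1.differentiableAt (isOpen_ball.mem_nhds (An_ball h.a_pos hz))).hasDerivAt

theorem Geo.cN' (h : Geo a b β z0) : ContinuousOn (deriv (N β)) (An a b) := by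
  have hb : DifferentiableOn ℂ (deriv β) (ball 0 1) := h.ext.diff.deriv isOpen_ball
  have h1 : DifferentiableOn ℂ (N β) (ball 0 1) := by
    unfold N
    exact (differentiableOn_const _).sub ((differentiableOn_id.pow 2).mul hb)
  exact (h1.deriv isOpen_ball).continuousOn.mono fun z hz => An_ball h.a_pos hz

theorem Geo.cphi (h : Geo a b β z0) : ContinuousOn (phi β) (An a b) := by
  unfold phi
  exact (continuousOn_inv₀.mono fun z hz => An_ne hz).add
    (h.ext.diff.continuousOn.mono fun z hz => An_ball h.a_pos hz)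

theorem Geo.cF (h : Geo a b β z0) (κ : ℝ) : ContinuousOn (FF κ β) (Rect a b) := by
  have h1 : ContinuousOn (fun z => ‖N β z‖ ^ (-κ)) (An a b) :=
    h.cN.norm.rpow_const fun z hz => Or.inl (norm_ne_zero_iff.mpr (h.N_ne hz))
  exact contRect h1

theorem Geo.ch (h : Geo a b β z0) (B : ℂ) : ContinuousOn (hh z0 B) (An a b) := by
  intro z hz
  exact (hasDerivAt_hh (τ := B) (h.ne hz) (h.conj_ne3 hz)).continuousAt.continuousWithinAt

theorem Geo.chd (h : Geo a b β z0) (B : ℂ) : ContinuousOn (hd z0 B) (An a b) := by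
  unfold hd
  refine ContinuousOn.sub (ContinuousOn.neg (continuousOn_const.mul (continuousOn_const.div ?_ ?_)))
    (continuousOn_const.mul (continuousOn_const.div ?_ ?_))
  · fun_prop
  · intro z hz
    exact pow_ne_zero 2 (h.ne' hz)
  · fun_prop
  · intro z hz
    exact pow_ne_zero 2 (h.conj_ne4 hz)

end geo

end

end Pool.Agent.Helper27.CK

end

section

namespace Pool.Agent.Helper39.Area
end Pool.Agent.Helper39.Area
namespace Pool.Agent.Helper5.CK
end Pool.Agent.Helper5.CK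
namespace Pool.Agent.Helper52.EK
end Pool.Agent.Helper52.EK
namespace Pool.Agent.Helper14.CK
end Pool.Agent.Helper14.CK

/-!
Project CK: the first variation of the area functional is `Re (B * EE)`.
-/

set_option autoImplicit false

open Complex MeasureTheory Metric Set Filter Topology

open scoped Real ComplexConjugate

namespace Pool.Agent.Helper27.CK

open Pool.Agent.Helper39.Area Pool.Agent.Helper5.CK

open Pool.Agent.Helper52.EK hiding Rect

open Pool.Agent.Helper14.CK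

noncomputable section

variable {a b κ : ℝ} {β : ℂ → ℂ} {z0 B : ℂ} {om om' u u' : ℝ → ℝ}

theorem Wt2.c_om (W : Wt2 om om' a b u u') : Continuous om :=
  continuous_iff_continuousAt.mpr fun r => (W.om_d r).continuousAt

theorem Wt2.c_u (W : Wt2 om om' a b u u') : Continuous u :=
  continuous_iff_continuousAt.mpr fun r => (W.u_d r).continuousAt

/-- logarithmic derivative `z N' / N` -/
def qN (β : ℂ → ℂ) (z : ℂ) : ℂ := z * deriv (N β) z / N β z

theorem Geo.cq (h : Geo a b β z0) : ContinuousOn (qN β) (An a b) :=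
  (continuousOn_id.mul h.cN').div h.cN fun _ hz => h.N_ne hz

/-- derivative of the density in `x` -/
theorem Geo.F_x (h : Geo a b β z0) {x θ : ℝ} (hx : (x, θ) ∈ Rect a b) :
    HasDerivAt (fun x => FF κ β (x, θ)) (κ * FF κ β (x, θ) * (qN β (ep (-x) θ)).re) x := by
  have hz := ep_mem_An hx
  have h1 := hasDerivAt_norm_rpow κ (hasDerivAt_comp_x (h.dN hz)) (h.N_ne hz)
  refine h1.congr_deriv ?_
  unfold FF qN
  rw [neg_div, Complex.neg_re]
  ring

/-- derivative of the density in `θ` -/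
theorem Geo.F_θ (h : Geo a b β z0) {x θ : ℝ} (hx : (x, θ) ∈ Rect a b) :
    HasDerivAt (fun θ => FF κ β (x, θ)) (κ * FF κ β (x, θ) * (qN β (ep (-x) θ)).im) θ := by
  have hz := ep_mem_An hx
  have h1 := hasDerivAt_norm_rpow κ (hasDerivAt_comp_θ (h.dN hz)) (h.N_ne hz)
  refine h1.congr_deriv ?_
  unfold FF qN
  rw [mul_div_assoc, Complex.I_mul_re]
  ring

/-- the `x` flux -/
def G1 (κ : ℝ) (om u : ℝ → ℝ) (β : ℂ → ℂ) (z0 B : ℂ) (p : ℝ × ℝ) : ℝ :=
  -(om p.1 * (u p.2 * (FF κ β p * (hh z0 B (ep (-p.1) p.2)).re)))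

def G1x (κ : ℝ) (om om' u : ℝ → ℝ) (β : ℂ → ℂ) (z0 B : ℂ) (p : ℝ × ℝ) : ℝ :=
  -(om' p.1 * (u p.2 * (FF κ β p * (hh z0 B (ep (-p.1) p.2)).re)) +
    om p.1 * (u p.2 * (κ * FF κ β p * (qN β (ep (-p.1) p.2)).re * (hh z0 B (ep (-p.1) p.2)).re +
      FF κ β p * (-(ep (-p.1) p.2 * hd z0 B (ep (-p.1) p.2))).re)))

/-- the `θ` flux -/
def G2 (κ : ℝ) (om u : ℝ → ℝ) (β : ℂ → ℂ) (z0 B : ℂ) (p : ℝ × ℝ) : ℝ :=
  om p.1 * (u p.2 * (FF κ β p * (hh z0 B (ep (-p.1) p.2)).im))

def G2θ (κ : ℝ) (om u u' : ℝ → ℝ) (β : ℂ → ℂ) (z0 B : ℂ) (p : ℝ × ℝ) : ℝ :=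
  om p.1 * (u' p.2 * (FF κ β p * (hh z0 B (ep (-p.1) p.2)).im) +
    u p.2 * (κ * FF κ β p * (qN β (ep (-p.1) p.2)).im * (hh z0 B (ep (-p.1) p.2)).im +
      FF κ β p * (I * (ep (-p.1) p.2 * hd z0 B (ep (-p.1) p.2))).im))

theorem Geo.c_hr (h : Geo a b β z0) (B : ℂ) :
    ContinuousOn (fun p : ℝ × ℝ => (hh z0 B (ep (-p.1) p.2)).re) (Rect a b) :=
  Complex.continuous_re.comp_continuousOn (contRect (h.ch B))

theorem Geo.c_hi (h : Geo a b β z0) (B : ℂ) :
    ContinuousOn (fun p : ℝ × ℝ => (hh z0 B (ep (-p.1) p.2)).im) (Rect a b) :=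
  Complex.continuous_im.comp_continuousOn (contRect (h.ch B))

theorem Geo.c_qr (h : Geo a b β z0) :
    ContinuousOn (fun p : ℝ × ℝ => (qN β (ep (-p.1) p.2)).re) (Rect a b) :=
  Complex.continuous_re.comp_continuousOn (contRect h.cq)

theorem Geo.c_qi (h : Geo a b β z0) :
    ContinuousOn (fun p : ℝ × ℝ => (qN β (ep (-p.1) p.2)).im) (Rect a b) :=
  Complex.continuous_im.comp_continuousOn (contRect h.cq)

theorem Geo.c_zd (h : Geo a b β z0) (B : ℂ) :
    ContinuousOn (fun p : ℝ × ℝ => ep (-p.1) p.2 * hd z0 B (ep (-p.1) p.2)) (Rect a b) :=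
  cont_ep.continuousOn.mul (contRect (h.chd B))

theorem Geo.G1_int (h : Geo a b β z0) (W : Wt2 om om' a b u u') :
    ContinuousOn (G1x κ om om' u β z0 B) (Rect a b) ∧
      ∫ p in Rect a b, G1x κ om om' u β z0 B p = 0 := by
  have co : ContinuousOn (fun p : ℝ × ℝ => om p.1) (Rect a b) :=
    (W.c_om.comp continuous_fst).continuousOn
  have co' : ContinuousOn (fun p : ℝ × ℝ => om' p.1) (Rect a b) :=
    (W.om_c.comp continuous_fst).continuousOn
  have cu : ContinuousOn (fun p : ℝ × ℝ => u p.2) (Rect a b) :=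
    (W.c_u.comp continuous_snd).continuousOn
  have hc : ContinuousOn (G1x κ om om' u β z0 B) (Rect a b) := by
    unfold G1x
    refine ContinuousOn.neg (ContinuousOn.add (co'.mul (cu.mul ((h.cF κ).mul (h.c_hr B)))) ?_)
    refine co.mul (cu.mul (ContinuousOn.add ?_ ?_))
    · exact ((continuousOn_const.mul (h.cF κ)).mul h.c_qr).mul (h.c_hr B)
    · exact (h.cF κ).mul (Complex.continuous_re.comp_continuousOn (h.c_zd B).neg)
  refine ⟨hc, ibp_x h.ab hc (G := G1 κ om u β z0 B) ?_ ?_ ?_⟩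
  · intro x hx θ hθ
    have hxr : (x, θ) ∈ Rect a b := ⟨hx, hθ⟩
    have hz := ep_mem_An hxr
    have h1 := h.F_x (κ := κ) hxr
    have h2 := hasDerivAt_re (hasDerivAt_comp_x (hasDerivAt_hh (τ := B) (h.ne hz) (h.conj_ne3 hz)))
    have h3 := ((W.om_d x).mul ((h1.mul h2).const_mul (u θ))).neg
    exact h3.congr_deriv (by unfold G1x; simp only [Pi.mul_apply])
  · intro θ
    simp [G1, W.om_a]
  · intro θ
    simp [G1, W.om_b]

theorem Geo.G2_int (h : Geo a b β z0) (W : Wt2 om om' a b u u') :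
    ContinuousOn (G2θ κ om u u' β z0 B) (Rect a b) ∧
      ∫ p in Rect a b, G2θ κ om u u' β z0 B p = 0 := by
  have co : ContinuousOn (fun p : ℝ × ℝ => om p.1) (Rect a b) :=
    (W.c_om.comp continuous_fst).continuousOn
  have cu : ContinuousOn (fun p : ℝ × ℝ => u p.2) (Rect a b) :=
    (W.c_u.comp continuous_snd).continuousOn
  have cu' : ContinuousOn (fun p : ℝ × ℝ => u' p.2) (Rect a b) :=
    (W.u_c.comp continuous_snd).continuousOn
  have hc : ContinuousOn (G2θ κ om u u' β z0 B) (Rect a b) := by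
    unfold G2θ
    refine co.mul (ContinuousOn.add (cu'.mul ((h.cF κ).mul (h.c_hi B))) ?_)
    refine cu.mul (ContinuousOn.add ?_ ?_)
    · exact ((continuousOn_const.mul (h.cF κ)).mul h.c_qi).mul (h.c_hi B)
    · exact (h.cF κ).mul (Complex.continuous_im.comp_continuousOn
        (continuousOn_const.mul (h.c_zd B)))
  refine ⟨hc, ibp_θ h.ab hc (G := G2 κ om u β z0 B) ?_ ?_⟩
  · intro x hx θ hθ
    have hxr : (x, θ) ∈ Rect a b := ⟨hx, hθ⟩
    have hz := ep_mem_An hxr
    have h1 := h.F_θ (κ := κ) hxr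
    have h2 := hasDerivAt_im (hasDerivAt_comp_θ (hasDerivAt_hh (τ := B) (h.ne hz) (h.conj_ne3 hz)))
    have h3 := (((W.u_d θ).mul (h1.mul h2)).const_mul (om x))
    exact h3.congr_deriv (by unfold G2θ; simp only [Pi.mul_apply])
  · intro x
    have e1 : ep (-x) (-π) = ep (-x) π := by
      unfold ep
      rw [Complex.exp_add, Complex.exp_add]
      congr 1
      push_cast
      rw [neg_mul, Complex.exp_neg, Complex.exp_pi_mul_I]
      norm_num
    unfold G2 FF
    simp only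
    rw [e1, W.u_per]

/-- pointwise identity -/
theorem dl_body (h : Geo a b β z0) {p : ℝ × ℝ} (hp : p ∈ Rect a b) :
    -κ * (om p.1 * u p.2 * (FF κ β p * (dl β z0 B (ep (-p.1) p.2)).re)) =
      G1x κ om om' u β z0 B p + G2θ κ om u u' β z0 B p +
        FF κ β p * (B * body κ om om' u u' β z0 p).re := by
  have hz := ep_mem_An hp
  set z := ep (-p.1) p.2 with hzd
  have e3 := hh_re (B := B) (h.ne hz) (h.conj_ne hz)
  have e5 := hh_im (p := z0) (B := B) (z := z)
  have e4 := hd_re (p := z0) (B := B) (z := z)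
  have eb : (B * body κ om om' u u' β z0 p).re =
      om p.1 * u p.2 * (κ * B.re + κ * (-(B * (z0 ^ 2 * dphi β z0 ^ 2 /
        (phi β z - phi β z0) ^ 2)).re) + (κ + 2) * (B * k4 z0 z).re + κ * (B * k3 z0 z).re) +
      om' p.1 * u p.2 * (B * k3 z0 z).re + om p.1 * u' p.2 * (B * (I / 2 * k5 z0 z)).re := by
    unfold body
    rw [← hzd]
    generalize z0 ^ 2 * dphi β z0 ^ 2 / (phi β z - phi β z0) ^ 2 = X
    generalize k3 z0 z = K3
    generalize k4 z0 z = K4
    generalize k5 z0 z = K5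
    have : B * ((om p.1 : ℂ) * (u p.2 : ℂ) * ((κ : ℂ) - κ * X + (κ + 2) * K4 + κ * K3) +
        (om' p.1 : ℂ) * (u p.2 : ℂ) * K3 + I / 2 * ((om p.1 : ℂ) * (u' p.2 : ℂ) * K5)) =
        ((om p.1 * u p.2 * κ : ℝ) : ℂ) * B + ((om p.1 * u p.2 * κ : ℝ) : ℂ) * (-(B * X)) +
        ((om p.1 * u p.2 * (κ + 2) : ℝ) : ℂ) * (B * K4) +
        ((om p.1 * u p.2 * κ : ℝ) : ℂ) * (B * K3) +
        ((om' p.1 * u p.2 : ℝ) : ℂ) * (B * K3) +
        ((om p.1 * u' p.2 : ℝ) : ℂ) * (B * (I / 2 * K5)) := by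
      push_cast
      ring
    rw [this]
    simp only [Complex.add_re, Complex.re_ofReal_mul, Complex.neg_re]
    ring
  rw [eb, ← e3, ← e5, ← e4]
  have ed : (dl β z0 B z).re = (B * (z0 ^ 2 * dphi β z0 ^ 2 / (phi β z - phi β z0) ^ 2)).re +
      ((hh z0 B z).re * (qN β z).re - (hh z0 B z).im * (qN β z).im) - (hh z0 B z).re +
      (z * hd z0 B z).re - B.re := by
    unfold dl
    have e1 : -(eps β z0 B / (phi β z - phi β z0) ^ 2) =
        B * (z0 ^ 2 * dphi β z0 ^ 2 / (phi β z - phi β z0) ^ 2) := by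
      unfold eps; ring
    rw [e1]
    have e2 : z * deriv (N β) z / N β z = qN β z := rfl
    rw [e2]
    simp only [Complex.add_re, Complex.sub_re, Complex.mul_re (hh z0 B z) (qN β z),
      Complex.ofReal_re]
  rw [ed]
  unfold G1x G2θ
  rw [← hzd]
  have e6 : (-(z * hd z0 B z)).re = -(z * hd z0 B z).re := Complex.neg_re _
  have e7 : (I * (z * hd z0 B z)).im = (z * hd z0 B z).re := by
    rw [Complex.I_mul_im]
  rw [e6, e7]
  ring

theorem Geo.c_body (h : Geo a b β z0) (W : Wt2 om om' a b u u') :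
    ContinuousOn (body κ om om' u u' β z0) (Rect a b) := by
  have co : ContinuousOn (fun p : ℝ × ℝ => (om p.1 : ℂ)) (Rect a b) :=
    (Complex.continuous_ofReal.comp (W.c_om.comp continuous_fst)).continuousOn
  have co' : ContinuousOn (fun p : ℝ × ℝ => (om' p.1 : ℂ)) (Rect a b) :=
    (Complex.continuous_ofReal.comp (W.om_c.comp continuous_fst)).continuousOn
  have cu : ContinuousOn (fun p : ℝ × ℝ => (u p.2 : ℂ)) (Rect a b) :=
    (Complex.continuous_ofReal.comp (W.c_u.comp continuous_snd)).continuousOn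
  have cu' : ContinuousOn (fun p : ℝ × ℝ => (u' p.2 : ℂ)) (Rect a b) :=
    (Complex.continuous_ofReal.comp (W.u_c.comp continuous_snd)).continuousOn
  have ck3 : ContinuousOn (k3 z0) (An a b) := by
    unfold k3
    refine ContinuousOn.div ?_ ?_ fun z hz => mul_ne_zero (h.ne' hz) (h.conj_ne2 hz)
    · have : Continuous fun z : ℂ => ((1 - ‖z‖ ^ 2 : ℝ) : ℂ) := by fun_prop
      exact (continuous_const.mul this).continuousOn
    · have : Continuous fun z : ℂ => (z - z0) * (1 - z0 * conj z) := by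
        have := Complex.continuous_conj
        fun_prop
      exact this.continuousOn
  have ck4 : ContinuousOn (k4 z0) (An a b) := by
    unfold k4
    refine ContinuousOn.add (ContinuousOn.div ?_ ?_ fun z hz => pow_ne_zero 2 (h.ne' hz))
      (ContinuousOn.div ?_ ?_ fun z hz => pow_ne_zero 2 (h.conj_ne2 hz))
    · fun_prop
    · fun_prop
    · have : Continuous fun z : ℂ => conj z * z0 := by
        have := Complex.continuous_conj
        fun_prop
      exact this.continuousOn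
    · have : Continuous fun z : ℂ => (1 - z0 * conj z) ^ 2 := by
        have := Complex.continuous_conj
        fun_prop
      exact this.continuousOn
  have ck5 : ContinuousOn (k5 z0) (An a b) := by
    unfold k5
    refine ContinuousOn.add (ContinuousOn.div ?_ ?_ fun z hz => h.ne' hz)
      (ContinuousOn.div ?_ ?_ fun z hz => h.conj_ne2 hz)
    · fun_prop
    · fun_prop
    · have : Continuous fun z : ℂ => 1 + z0 * conj z := by
        have := Complex.continuous_conj
        fun_prop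
      exact this.continuousOn
    · have : Continuous fun z : ℂ => 1 - z0 * conj z := by
        have := Complex.continuous_conj
        fun_prop
      exact this.continuousOn
  have cph : ContinuousOn (fun z => z0 ^ 2 * dphi β z0 ^ 2 / (phi β z - phi β z0) ^ 2)
      (An a b) :=
    continuousOn_const.div ((h.cphi.sub continuousOn_const).pow 2)
      fun z hz => pow_ne_zero 2 (h.phi_ne hz)
  have c3 := contRect ck3
  have c4 := contRect ck4
  have c5 := contRect ck5
  have cp := contRect cph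
  unfold body
  refine ContinuousOn.add (ContinuousOn.add ?_ ?_) ?_
  · refine (co.mul cu).mul ?_
    exact ((continuousOn_const.sub (continuousOn_const.mul cp)).add
      (continuousOn_const.mul c4)).add (continuousOn_const.mul c3)
  · exact (co'.mul cu).mul c3
  · exact continuousOn_const.mul ((co.mul cu').mul c5)

theorem Geo.c_EE (h : Geo a b β z0) (W : Wt2 om om' a b u u') :
    ContinuousOn (fun p => (FF κ β p : ℂ) * body κ om om' u u' β z0 p) (Rect a b) :=
  (Complex.continuous_ofReal.comp_continuousOn (h.cF κ)).mul (h.c_body W)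

/-- **the first variation of the area functional** -/
theorem dJ_eq (h : Geo a b β z0) (W : Wt2 om om' a b u u') (κ : ℝ) (B : ℂ) :
    -κ * ∫ p in Rect a b, om p.1 * u p.2 * (FF κ β p * (dl β z0 B (ep (-p.1) p.2)).re) =
      (B * EE κ om om' u u' a b β z0).re := by
  obtain ⟨c1, i1⟩ := h.G1_int (κ := κ) (B := B) W
  obtain ⟨c2, i2⟩ := h.G2_int (κ := κ) (B := B) W
  have c3 := h.c_EE (κ := κ) W
  have h1 : -κ * ∫ p in Rect a b, om p.1 * u p.2 * (FF κ β p * (dl β z0 B (ep (-p.1) p.2)).re) =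
      ∫ p in Rect a b, (G1x κ om om' u β z0 B p + G2θ κ om u u' β z0 B p +
        (B * ((FF κ β p : ℂ) * body κ om om' u u' β z0 p)).re) := by
    rw [← integral_const_mul]
    refine setIntegral_congr_fun (measurableSet_rect a b) fun p hp => ?_
    have h2 := dl_body (κ := κ) (om := om) (om' := om') (u := u) (u' := u') (B := B) h hp
    have h3 : (B * ((FF κ β p : ℂ) * body κ om om' u u' β z0 p)).re =
        FF κ β p * (B * body κ om om' u u' β z0 p).re := by
      rw [← Complex.re_ofReal_mul]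
      congr 1
      ring
    rw [h3]
    exact h2
  have c4 : ContinuousOn (fun p => (B * ((FF κ β p : ℂ) *
      body κ om om' u u' β z0 p)).re) (Rect a b) :=
    Complex.continuous_re.comp_continuousOn (continuousOn_const.mul c3)
  have i12 : IntegrableOn (fun p => G1x κ om om' u β z0 B p + G2θ κ om u u' β z0 B p)
      (Rect a b) := (integrableOn_rect c1).add (integrableOn_rect c2)
  rw [h1, integral_add i12 (integrableOn_rect c4),
    integral_add (integrableOn_rect c1) (integrableOn_rect c2), i1, i2]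
  rw [zero_add, zero_add]
  have h5 : IntegrableOn (fun p => B * ((FF κ β p : ℂ) * body κ om om' u u' β z0 p))
      (Rect a b) := integrableOn_rectC (continuousOn_const.mul c3)
  have h6 := integral_re (𝕜 := ℂ) h5
  simp only [RCLike.re_to_complex] at h6
  rw [h6, integral_const_mul]
  rfl

end

end Pool.Agent.Helper27.CK

end

section

namespace Pool.Agent.Helper39.Area
end Pool.Agent.Helper39.Area
namespace Pool.Agent.Helper52.EK
end Pool.Agent.Helper52.EK
namespace Pool.Agent.Helper5.CK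
end Pool.Agent.Helper5.CK
namespace Pool.Agent.Helper39.EK
end Pool.Agent.Helper39.EK
namespace Pool.Agent.Helper43.CK
end Pool.Agent.Helper43.CK

/-!
Project CK: uniform expansion of `‖N‖ ^ (-κ)` under the interior variation.
-/

set_option autoImplicit false

open Complex MeasureTheory Metric Set Filter Topology

open scoped Real ComplexConjugate

namespace Pool.Agent.Helper27.CK

open Pool.Agent.Helper39.Area Pool.Agent.Helper52.EK Pool.Agent.Helper5.CK

open Pool.Agent.Helper39.EK Pool.Agent.Helper43.CK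

noncomputable section

/-- one competitor -/
theorem expand_one {β γ : ℂ → ℂ} (hβ : Ext β) (_hγ : Ext γ) {p τ z : ℂ} {η C0 m : ℝ}
    (hm : 0 < m) (hmz : m ≤ ‖N β z‖) (hη : 0 < η) (hp : η ≤ ‖p‖) (hp1 : ‖p‖ ≤ 1 - η)
    (hz : η ≤ ‖z‖) (hz1 : ‖z‖ ≤ 1 - η) (hzp : η ≤ ‖z - p‖)
    (hC : ‖deriv γ z - deriv β z - deriv (fun z => VV β p τ z - (τ.re : ℂ) * phi β z) z‖ ≤
      C0 * ‖τ‖ ^ 2) :
    ‖N γ z / N β z - 1 - dl β p τ z‖ ≤ C0 / m * ‖τ‖ ^ 2 := by
  have hp0 : p ≠ 0 := norm_pos_iff.mp (by (clear * - hη hp; linarith only [hη, hp]))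
  have hz0 : z ≠ 0 := norm_pos_iff.mp (by (clear * - hη hz; linarith))
  have hzp' : z ≠ p := by
    intro h
    rw [h, sub_self, norm_zero] at hzp
    linarith
  have hpb : p ∈ ball (0:ℂ) 1 := by simp; (clear * - hη hp1; linarith)
  have hzb : z ∈ ball (0:ℂ) 1 := by simp; linarith only [hη, hz1]
  have hN : N β z ≠ 0 := hβ.ne z hzb
  have h1 := deriv_VV (τ := τ) hβ hpb hp0 hzb hz0 hzp'
  have h2 : N γ z / N β z - 1 - dl β p τ z = (-z ^ 2 * (deriv γ z - deriv β z -
      deriv (fun z => VV β p τ z - (τ.re : ℂ) * phi β z) z)) / N β z := by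
    have h3 : N γ z - N β z = -z ^ 2 * (deriv γ z - deriv β z) := by
      unfold N; ring
    have h4 : -z ^ 2 * (deriv γ z - deriv β z -
      deriv (fun z => VV β p τ z - (τ.re : ℂ) * phi β z) z) =
      (N γ z - N β z) - N β z * dl β p τ z := by
      rw [h3, ← h1]; ring
    rw [h4]
    field_simp
  rw [h2, norm_div, norm_mul, norm_neg, norm_pow]
  have hz2 : ‖z‖ ^ 2 ≤ 1 := pow_le_one₀ (norm_nonneg z) (by linarith only [hη, hz1])
  have h5 : ‖z‖ ^ 2 * ‖deriv γ z - deriv β z -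
      deriv (fun z => VV β p τ z - (τ.re : ℂ) * phi β z) z‖ ≤ C0 * ‖τ‖ ^ 2 := by
    calc _ ≤ 1 * ‖deriv γ z - deriv β z -
        deriv (fun z => VV β p τ z - (τ.re : ℂ) * phi β z) z‖ := by (clear * - hz2; gcongr)
      _ ≤ _ := by rw [one_mul]; exact hC
  have hC0 : 0 ≤ C0 * ‖τ‖ ^ 2 := (by (clear * - hz0; positivity) : (0:ℝ) ≤ ‖z‖ ^ 2 * ‖deriv γ z - deriv β z -
      deriv (fun z => VV β p τ z - (τ.re : ℂ) * phi β z) z‖).trans h5
  calc _ ≤ (C0 * ‖τ‖ ^ 2) / ‖N β z‖ := by (clear * - h5 hN; gcongr)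
    _ ≤ (C0 * ‖τ‖ ^ 2) / m := by (clear * - hC0 hm hmz; gcongr)
    _ = _ := by ring

theorem norm_smul_le {t : ℝ} {B : ℂ} (ht : 0 < t) (hB : ‖B‖ ≤ 1) : ‖(t : ℂ) * B‖ ≤ t := by
  rw [norm_mul, Complex.norm_real, Real.norm_eq_abs, abs_of_pos ht]
  calc t * ‖B‖ ≤ t * 1 := by (clear * - hB ht; gcongr)
    _ = t := mul_one t

theorem expand (hV : Variation) {κ : ℝ} (hκ : 0 ≤ κ) {η : ℝ} (hη : 0 < η) :
    ∃ C t1 : ℝ, 0 < C ∧ 0 < t1 ∧ ∀ β, Ext β → ∀ p : ℂ, η ≤ ‖p‖ → ‖p‖ ≤ 1 - η →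
      ∀ B : ℂ, ‖B‖ ≤ 1 →
      (∀ z : ℂ, η ≤ ‖z‖ → ‖z‖ ≤ 1 - η → η ≤ ‖z - p‖ → ‖dl β p B z‖ ≤ C) ∧
      ∀ t : ℝ, 0 < t → t ≤ t1 → ∃ γ, Ext γ ∧ ∀ z : ℂ, η ≤ ‖z‖ → ‖z‖ ≤ 1 - η → η ≤ ‖z - p‖ →
        |‖N γ z‖ ^ (-κ) - ‖N β z‖ ^ (-κ) + t * (κ * ‖N β z‖ ^ (-κ) * (dl β p B z).re)| ≤
          C * t ^ 2 := by
  obtain ⟨C0, t0, hC0, ht0, hV⟩ := hV η hη
  by_cases hη1 : η ≤ 1 - η
  swap
  · refine ⟨1, 1, one_pos, one_pos, fun β _ p h1 h2 => ?_⟩
    exact absurd (h1.trans h2) hη1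
  obtain ⟨m, hm⟩ : ∃ m : ℝ, m = 1 - (1 - η) ^ 2 := ⟨_, rfl⟩
  have hm0 : 0 < m := by
    have e : m = η * (2 - η) := by rw [hm]; ring
    rw [e]
    exact mul_pos hη (by linarith)
  obtain ⟨C1, hC1⟩ : ∃ C1 : ℝ, C1 = C0 / m := ⟨_, rfl⟩
  have hC1p : 0 < C1 := by rw [hC1]; positivity
  obtain ⟨K, hK⟩ : ∃ K : ℝ, K = ((m⁻¹) ^ 2 + 1 + C1 * t0 ^ 2) / t0 := ⟨_, rfl⟩
  have hKp : 0 < K := by rw [hK]; (clear * - hm0 hC1p ht0; positivity)
  obtain ⟨C2, hC2⟩ : ∃ C2 : ℝ, C2 = C1 + K := ⟨_, rfl⟩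
  have hC2p : 0 < C2 := by rw [hC2]; (clear * - hC1p hKp; positivity)
  obtain ⟨C3, hC3⟩ : ∃ C3 : ℝ, C3 = κ * (C2 + 4 * C2 ^ 2) + κ * C2 := ⟨_, rfl⟩
  have hC3p : 0 ≤ C3 := by rw [hC3]; (clear * - hκ hC2p; positivity)
  obtain ⟨C4, hC4⟩ : ∃ C4 : ℝ, C4 = C3 + 4 * C3 ^ 2 := ⟨_, rfl⟩
  have hC4p : 0 ≤ C4 := by rw [hC4]; (clear * - hC3p; positivity)
  obtain ⟨t1, ht1⟩ : ∃ t1 : ℝ, t1 = min t0 (min 1 (1 / (4 * (C2 + C3 + 1)))) := ⟨_, rfl⟩
  have ht1p : 0 < t1 := by
    rw [ht1]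
    refine lt_min ht0 (lt_min one_pos ?_)
    (clear * - hC2p hC3p; positivity)
  have hNge : ∀ {β : ℂ → ℂ}, Ext β → ∀ z : ℂ, ‖z‖ ≤ 1 - η → m ≤ ‖N β z‖ := by
    intro β hβ z hz
    have h1 := N_ge hβ (z := z) (by linarith only [hη, hz])
    have h2 : ‖z‖ ^ 2 ≤ (1 - η) ^ 2 := by
      have := norm_nonneg z
      (clear * - hz; gcongr)
    linarith only [hm, h1, h2]
  have hNle : ∀ {β : ℂ → ℂ}, Ext β → ∀ z : ℂ, ‖z‖ ≤ 1 - η → ‖N β z‖ ≤ m⁻¹ := by
    intro β hβ z hz
    have h1 := N_le hβ (z := z) (by linarith only [hη, hz])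
    have h2 : ‖z‖ ^ 2 ≤ (1 - η) ^ 2 := by
      have := norm_nonneg z
      (clear * - hz; gcongr)
    refine h1.trans ?_
    gcongr
    linarith only [hm, h2]
  -- uniform bound of the variation
  have hbd : ∀ β, Ext β → ∀ p : ℂ, η ≤ ‖p‖ → ‖p‖ ≤ 1 - η → ∀ B : ℂ, ‖B‖ ≤ 1 →
      ∀ z : ℂ, η ≤ ‖z‖ → ‖z‖ ≤ 1 - η → η ≤ ‖z - p‖ → ‖dl β p B z‖ ≤ K := by
    intro β hβ p hp hp1 B hB z hz hz1 hzp
    have hτ : ‖(t0 : ℂ) * B‖ ≤ t0 := norm_smul_le ht0 hB
    obtain ⟨γ, hγ, h1⟩ := hV β hβ p hp hp1 (t0 * B) hτ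
    have h2 := expand_one hβ hγ hm0 (hNge hβ z hz1) hη hp hp1 hz hz1 hzp (h1 z hz hz1 hzp)
    rw [dl_smul] at h2
    have h3 : ‖(t0 : ℂ) * B‖ ^ 2 ≤ t0 ^ 2 := by (clear * - hτ; gcongr)
    have h4 : ‖N γ z / N β z - 1 - t0 * dl β p B z‖ ≤ C1 * t0 ^ 2 := by
      refine h2.trans ?_
      rw [← hC1]
      (clear * - h3 hC1p; gcongr)
    have h5 : ‖N γ z / N β z‖ ≤ (m⁻¹) ^ 2 := by
      rw [norm_div]
      calc ‖N γ z‖ / ‖N β z‖ ≤ m⁻¹ / m := by
            have a1 := hNle hγ z hz1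
            have a2 := hNge hβ z hz1
            (clear * - hm0 a1 a2; gcongr)
        _ = _ := by field_simp
    have h6 : ‖(t0 : ℂ) * dl β p B z‖ ≤ (m⁻¹) ^ 2 + 1 + C1 * t0 ^ 2 := by
      have e : (t0 : ℂ) * dl β p B z = N γ z / N β z - 1 -
          (N γ z / N β z - 1 - t0 * dl β p B z) := by ring
      rw [e]
      refine (norm_sub_le _ _).trans ?_
      have := norm_sub_le (N γ z / N β z) 1
      rw [norm_one] at this
      (clear * - h4 h5 this; linarith)
    rw [norm_mul, Complex.norm_real, Real.norm_eq_abs, abs_of_pos ht0] at h6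
    rw [hK, le_div_iff₀ ht0]
    linarith only [h6]
  refine ⟨K + (m⁻¹) ^ κ * C4 + 1, t1, by (clear * - hKp hm0 hC4p; positivity), ht1p, fun β hβ p hp hp1 B hB => ⟨?_, ?_⟩⟩
  · intro z hz hz1 hzp
    have := hbd β hβ p hp hp1 B hB z hz hz1 hzp
    have h2 : 0 ≤ (m⁻¹) ^ κ * C4 := by (clear * - hm0 hC4p; positivity)
    (clear * - this h2; linarith only [this, h2])
  intro t ht htt
  rw [ht1] at htt
  have ht0' : t ≤ t0 := htt.trans (min_le_left _ _)
  have ht1' : t ≤ 1 := htt.trans ((min_le_right _ _).trans (min_le_left _ _))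
  have ht2' : t ≤ 1 / (4 * (C2 + C3 + 1)) :=
    htt.trans ((min_le_right _ _).trans (min_le_right _ _))
  have ht3 : 4 * (C2 + C3 + 1) * t ≤ 1 := by
    rw [le_div_iff₀ (by positivity)] at ht2'
    linarith only [ht2']
  have hτ : ‖(t : ℂ) * B‖ ≤ t := norm_smul_le ht hB
  obtain ⟨γ, hγ, h1⟩ := hV β hβ p hp hp1 (t * B) (hτ.trans ht0')
  refine ⟨γ, hγ, fun z hz hz1 hzp => ?_⟩
  have h2 := expand_one hβ hγ hm0 (hNge hβ z hz1) hη hp hp1 hz hz1 hzp (h1 z hz hz1 hzp)
  rw [dl_smul] at h2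
  have h3 : ‖(t : ℂ) * B‖ ^ 2 ≤ t ^ 2 := by (clear * - hτ; gcongr)
  have h4 : ‖N γ z / N β z - 1 - t * dl β p B z‖ ≤ C2 * t ^ 2 := by
    refine h2.trans ?_
    have a1 : C1 ≤ C2 := by (clear * - hKp hC2; linarith only [hKp, hC2])
    calc C0 / m * ‖(t : ℂ) * B‖ ^ 2 ≤ C1 * t ^ 2 := by rw [← hC1]; (clear * - h3 hC1p; gcongr)
      _ ≤ C2 * t ^ 2 := by (clear * - a1 ht; gcongr)
  have h5 := hbd β hβ p hp hp1 B hB z hz hz1 hzp
  have hβN : N β z ≠ 0 := hβ.ne z (by simp; linarith only [hη, hz1])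
  have hγN : N γ z ≠ 0 := hγ.ne z (by simp; linarith only [hη, hz1])
  have hβn : 0 < ‖N β z‖ := norm_pos_iff.mpr hβN
  have hγn : 0 < ‖N γ z‖ := norm_pos_iff.mpr hγN
  have habs : |t| = t := abs_of_pos ht
  have hsm2 : 4 * (C2 + 1) * t ≤ 1 := by
    have : 4 * (C2 + 1) * t ≤ 4 * (C2 + C3 + 1) * t := by gcongr; linarith only [hC3p]
    linarith only [ht3, this]
  have hsm3 : 4 * (C3 + 1) * t ≤ 1 := by
    have : 4 * (C3 + 1) * t ≤ 4 * (C2 + C3 + 1) * t := by gcongr; linarith only [hC2p]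
    linarith only [ht3, this]
  have h6 := log_norm_expand (C := C2) (t := t) (z := N γ z / N β z) (u := dl β p B z)
    hC2p.le (by linarith only [hC1p, hC2, h5]) h4 (by rw [habs]; exact ht1') (by rw [habs]; exact hsm2)
  have h7 : |-κ * Real.log ‖N γ z / N β z‖ - t * (-κ * (dl β p B z).re)| ≤ C3 * t ^ 2 := by
    have e : -κ * Real.log ‖N γ z / N β z‖ - t * (-κ * (dl β p B z).re) =
        -κ * (Real.log ‖N γ z / N β z‖ - t * (dl β p B z).re) := by ring
    rw [e, abs_mul, abs_neg, abs_of_nonneg hκ]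
    calc κ * |Real.log ‖N γ z / N β z‖ - t * (dl β p B z).re| ≤
          κ * ((C2 + 4 * C2 ^ 2) * t ^ 2) := by (clear * - h6 hκ; gcongr)
      _ = (κ * (C2 + 4 * C2 ^ 2)) * t ^ 2 := by ring
      _ ≤ C3 * t ^ 2 := by
          have : 0 ≤ κ * C2 := by (clear * - hκ hC2p; positivity)
          gcongr
          linarith only [hC3, this]
  have h8 : |(-κ * (dl β p B z).re)| ≤ C3 := by
    rw [abs_mul, abs_neg, abs_of_nonneg hκ]
    have a1 : |(dl β p B z).re| ≤ C2 := (Complex.abs_re_le_norm _).trans (by linarith only [hC1p, hC2, h5])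
    have a2 : κ * |(dl β p B z).re| ≤ κ * C2 := by (clear * - a1 hκ; gcongr)
    have a3 : 0 ≤ κ * (C2 + 4 * C2 ^ 2) := by (clear * - hκ hC2p; positivity)
    rw [hC3]
    linarith only [a2, a3]
  have h9 := exp_expand (C := C3) hC3p h8 h7 (by rw [habs]; exact ht1') (by rw [habs]; exact hsm3)
  have h10 : ‖N γ z‖ ^ (-κ) = ‖N β z‖ ^ (-κ) * Real.exp (-κ * Real.log ‖N γ z / N β z‖) := by
    rw [norm_div, Real.log_div hγn.ne' hβn.ne', Real.rpow_def_of_pos hγn,
      Real.rpow_def_of_pos hβn, ← Real.exp_add]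
    congr 1
    ring
  have h11 : ‖N γ z‖ ^ (-κ) - ‖N β z‖ ^ (-κ) + t * (κ * ‖N β z‖ ^ (-κ) * (dl β p B z).re) =
      ‖N β z‖ ^ (-κ) * (Real.exp (-κ * Real.log ‖N γ z / N β z‖) - 1 -
        t * (-κ * (dl β p B z).re)) := by
    rw [h10]; ring
  rw [h11, abs_mul, abs_of_nonneg (Real.rpow_nonneg (norm_nonneg _) _)]
  have h12 : ‖N β z‖ ^ (-κ) ≤ (m⁻¹) ^ κ := by
    rw [Real.rpow_neg (norm_nonneg _), ← Real.inv_rpow (norm_nonneg _)]
    have a2 := hNge hβ z hz1
    (clear * - hβN hm0 a2 hκ; gcongr)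
  calc ‖N β z‖ ^ (-κ) * |Real.exp (-κ * Real.log ‖N γ z / N β z‖) - 1 -
        t * (-κ * (dl β p B z).re)| ≤ (m⁻¹) ^ κ * (C4 * t ^ 2) := by
          rw [← hC4] at h9
          (clear * - h12 h9 hm0; gcongr)
    _ = ((m⁻¹) ^ κ * C4) * t ^ 2 := by ring
    _ ≤ (K + (m⁻¹) ^ κ * C4 + 1) * t ^ 2 := by
        gcongr
        linarith only [hKp]

end

end Pool.Agent.Helper27.CK

end

section

namespace Pool.Agent.Helper39.Area
end Pool.Agent.Helper39.Area
namespace Pool.Agent.Helper5.CK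
end Pool.Agent.Helper5.CK
namespace Pool.Agent.Helper39.EK
end Pool.Agent.Helper39.EK
namespace Pool.Agent.Helper52.EK
end Pool.Agent.Helper52.EK
namespace Pool.Agent.Helper14.CK
end Pool.Agent.Helper14.CK
namespace Pool.Agent.Helper28.EK
end Pool.Agent.Helper28.EK

/-!
Project CK: near-maximisers of the localised window functional are nearly critical.
-/

set_option autoImplicit false

open Complex MeasureTheory Metric Set Filter Topology

open scoped Real ComplexConjugate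

namespace Pool.Agent.Helper27.CK

open Pool.Agent.Helper39.Area Pool.Agent.Helper5.CK Pool.Agent.Helper39.EK

open Pool.Agent.Helper52.EK hiding Rect

open Pool.Agent.Helper14.CK

open Pool.Agent.Helper28.EK (scale_ExtR scale_N)

noncomputable section

variable {a b κ : ℝ} {om om' u u' : ℝ → ℝ}

theorem exp_neg_lt {a : ℝ} (ha : 0 < a) : Real.exp (-a) < 1 := by
  rw [← Real.exp_zero]
  exact Real.exp_lt_exp.mpr (by (clear * - ha; linarith))

theorem cFF {β : ℂ → ℂ} (h : Ext β) (ha : 0 < a) (κ : ℝ) : ContinuousOn (FF κ β) (Rect a b) := by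
  have hb : DifferentiableOn ℂ (deriv β) (ball 0 1) := h.diff.deriv isOpen_ball
  have h1 : ContinuousOn (N β) (An a b) := by
    unfold N
    exact (continuousOn_const.sub ((continuousOn_id.pow 2).mul hb.continuousOn)).mono
      fun z hz => An_ball ha hz
  have h2 : ContinuousOn (fun z => ‖N β z‖ ^ (-κ)) (An a b) :=
    h1.norm.rpow_const fun z hz => Or.inl (norm_ne_zero_iff.mpr (h.ne z (An_ball ha hz)))
  exact contRect h2

theorem cW (W : Wt2 om om' a b u u') :
    ContinuousOn (fun p : ℝ × ℝ => om p.1 * u p.2) (Rect a b) :=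
  (((W.c_om.comp continuous_fst).mul (W.c_u.comp continuous_snd))).continuousOn

/-- the total weight -/
def MW (om u : ℝ → ℝ) (a b : ℝ) : ℝ := ∫ p in Rect a b, om p.1 * u p.2

theorem MW_nonneg (W : Wt2 om om' a b u u') : 0 ≤ MW om u a b :=
  setIntegral_nonneg (measurableSet_rect a b) fun _ _ => mul_nonneg (W.om_nn _) (W.u_nn _)

theorem FF_nonneg (κ : ℝ) (β : ℂ → ℂ) (p : ℝ × ℝ) : 0 ≤ FF κ β p :=
  Real.rpow_nonneg (norm_nonneg _) _

theorem FF_le {β : ℂ → ℂ} (h : Ext β) (ha : 0 < a) (hκ : 0 ≤ κ) {p : ℝ × ℝ}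
    (hp : p ∈ Rect a b) : FF κ β p ≤ ((1 - Real.exp (-a) ^ 2)⁻¹) ^ κ := by
  have hz := ep_mem_An hp
  have h1 := N_ge h (z := ep (-p.1) p.2) (by simpa using An_ball ha hz)
  have h2 : ‖ep (-p.1) p.2‖ ^ 2 ≤ Real.exp (-a) ^ 2 := by
    have := hz.2
    (clear * - this; gcongr)
  have h3 := exp_neg_lt ha
  have h4 : 0 < 1 - Real.exp (-a) ^ 2 := by nlinarith only [Real.exp_pos (-a), h3]
  unfold FF
  rw [Real.rpow_neg (norm_nonneg _), ← Real.inv_rpow (norm_nonneg _)]
  have h5 : 1 - Real.exp (-a) ^ 2 ≤ ‖N β (ep (-p.1) p.2)‖ := by (clear * - h1 h2; linarith only [h1, h2])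
  (clear * - h4 h5 hκ; gcongr)

theorem J_nonneg (W : Wt2 om om' a b u u') (κ : ℝ) (β : ℂ → ℂ) : 0 ≤ J κ om u a b β :=
  setIntegral_nonneg (measurableSet_rect a b) fun _ _ =>
    mul_nonneg (mul_nonneg (W.om_nn _) (W.u_nn _)) (FF_nonneg _ _ _)

theorem J_le (W : Wt2 om om' a b u u') (hκ : 0 ≤ κ) {β : ℂ → ℂ} (h : Ext β) :
    J κ om u a b β ≤ ((1 - Real.exp (-a) ^ 2)⁻¹) ^ κ * MW om u a b := by
  unfold J MW
  rw [← integral_const_mul]
  refine setIntegral_mono_on (integrableOn_rect ((cW W).mul (cFF h W.a_pos κ)))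
    (integrableOn_rect (continuousOn_const.mul (cW W))) (measurableSet_rect a b) ?_
  intro p hp
  have h1 := FF_le h W.a_pos hκ hp
  have h2 : 0 ≤ om p.1 * u p.2 := mul_nonneg (W.om_nn _) (W.u_nn _)
  calc om p.1 * u p.2 * FF κ β p ≤ om p.1 * u p.2 * ((1 - Real.exp (-a) ^ 2)⁻¹) ^ κ := by gcongr
    _ = _ := by ring

/-- uniform expansion of the functional -/
theorem J_expand (hV : Variation) (hκ : 0 ≤ κ) (W : Wt2 om om' a b u u') :
    ∃ C t1 : ℝ, 0 < C ∧ 0 < t1 ∧ ∀ β, Ext β → ∀ z0 : ℂ, Real.exp (-1) ≤ ‖z0‖ →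
      ‖z0‖ ≤ Real.exp (-2 * b) → ∀ B : ℂ, ‖B‖ ≤ 1 → ∀ t : ℝ, 0 < t → t ≤ t1 →
      ∃ γ, Ext γ ∧
        |J κ om u a b γ - J κ om u a b β - t * (B * EE κ om om' u u' a b β z0).re| ≤
          C * t ^ 2 := by
  have ha := W.a_pos
  have hab := W.a_lt
  have hb : 0 < b := ha.trans hab
  have e1 : Real.exp (-2 * b) < Real.exp (-b) := Real.exp_lt_exp.mpr (by linarith)
  have e2 := exp_neg_lt ha
  have e3 : Real.exp (-b) ≤ Real.exp (-a) := Real.exp_le_exp.mpr (by (clear * - hab; linarith))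
  obtain ⟨η, hη⟩ : ∃ η : ℝ, η = min (Real.exp (-1)) (min (Real.exp (-b))
    (min (1 - Real.exp (-a)) (Real.exp (-b) - Real.exp (-2 * b)))) := ⟨_, rfl⟩
  have hη0 : 0 < η := by
    rw [hη]
    refine lt_min (Real.exp_pos _) (lt_min (Real.exp_pos _) (lt_min ?_ ?_)) <;> linarith
  have hη1 : η ≤ Real.exp (-1) := by rw [hη]; exact min_le_left _ _
  have hη2 : η ≤ Real.exp (-b) := by
    rw [hη]; exact (min_le_right _ _).trans (min_le_left _ _)
  have hη3 : η ≤ 1 - Real.exp (-a) := by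
    rw [hη]; exact (min_le_right _ _).trans ((min_le_right _ _).trans (min_le_left _ _))
  have hη4 : η ≤ Real.exp (-b) - Real.exp (-2 * b) := by
    rw [hη]; exact (min_le_right _ _).trans ((min_le_right _ _).trans (min_le_right _ _))
  obtain ⟨C, t1, hC, ht1, hE⟩ := expand hV hκ hη0
  have hM := MW_nonneg W
  refine ⟨C * MW om u a b + 1, t1, by (clear * - hC hM; positivity), ht1, ?_⟩
  intro β hβ z0 hz0 hz0' B hB t ht htt
  have hg : Geo a b β z0 := ⟨hβ, ha, norm_pos_iff.mp ((Real.exp_pos _).trans_le hz0),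
    by (clear * - e1 hz0'; linarith only [e1, hz0']), hab.le⟩
  obtain ⟨-, h2⟩ := hE β hβ z0 (hη1.trans hz0) (by linarith) B hB
  obtain ⟨γ, hγ, h3⟩ := h2 t ht htt
  refine ⟨γ, hγ, ?_⟩
  have h4 := dJ_eq hg W κ B
  have cdl : ContinuousOn (fun p : ℝ × ℝ => (dl β z0 B (ep (-p.1) p.2)).re) (Rect a b) := by
    refine Complex.continuous_re.comp_continuousOn (contRect (g := dl β z0 B) ?_)
    unfold dl
    have c1 : ContinuousOn (fun z => eps β z0 B / (phi β z - phi β z0) ^ 2) (An a b) :=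
      continuousOn_const.div ((hg.cphi.sub continuousOn_const).pow 2)
        fun z hz => pow_ne_zero 2 (hg.phi_ne hz)
    have c2 := hg.cq
    unfold qN at c2
    exact (((c1.neg.add ((hg.ch B).mul c2)).sub (hg.ch B)).add
      (continuousOn_id.mul (hg.chd B))).sub continuousOn_const
  have cγ := cFF (b := b) hγ ha κ
  have cβ := cFF (b := b) hβ ha κ
  have h5 : J κ om u a b γ - J κ om u a b β - t * (B * EE κ om om' u u' a b β z0).re =
      ∫ p in Rect a b, om p.1 * u p.2 * (FF κ γ p - FF κ β p +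
        t * (κ * FF κ β p * (dl β z0 B (ep (-p.1) p.2)).re)) := by
    have i1 : IntegrableOn (fun p : ℝ × ℝ => om p.1 * u p.2 * FF κ γ p) (Rect a b) :=
      integrableOn_rect ((cW W).mul cγ)
    have i2 : IntegrableOn (fun p : ℝ × ℝ => om p.1 * u p.2 * FF κ β p) (Rect a b) :=
      integrableOn_rect ((cW W).mul cβ)
    have i3 : IntegrableOn (fun p : ℝ × ℝ => om p.1 * u p.2 *
        (FF κ β p * (dl β z0 B (ep (-p.1) p.2)).re)) (Rect a b) :=
      integrableOn_rect ((cW W).mul (cβ.mul cdl))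
    rw [← h4]
    unfold J
    rw [← mul_assoc, ← integral_const_mul, ← integral_sub i1 i2, ← integral_sub]
    · refine setIntegral_congr_fun (measurableSet_rect a b) fun p _ => ?_
      ring
    · exact i1.sub i2
    · exact i3.const_mul _
  rw [h5, ← Real.norm_eq_abs]
  have h6 : ‖∫ p in Rect a b, om p.1 * u p.2 * (FF κ γ p - FF κ β p +
        t * (κ * FF κ β p * (dl β z0 B (ep (-p.1) p.2)).re))‖ ≤
      ∫ p in Rect a b, (C * t ^ 2) * (om p.1 * u p.2) := by
    refine norm_integral_le_of_norm_le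
      (integrableOn_rect (continuousOn_const.mul (cW W))) ?_
    filter_upwards [ae_restrict_mem (measurableSet_rect a b)] with p hp
    have hz := ep_mem_An hp
    have h7 := h3 (ep (-p.1) p.2) (hη2.trans hz.1) (by linarith only [hz.2, hη3]) (by
      have := norm_sub_norm_le (ep (-p.1) p.2) z0
      linarith only [hz.1, hη4, hz0', this])
    have hw : 0 ≤ om p.1 * u p.2 := mul_nonneg (W.om_nn _) (W.u_nn _)
    rw [norm_mul, Real.norm_of_nonneg hw, Real.norm_eq_abs]
    calc om p.1 * u p.2 * |FF κ γ p - FF κ β p +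
        t * (κ * FF κ β p * (dl β z0 B (ep (-p.1) p.2)).re)| ≤
          om p.1 * u p.2 * (C * t ^ 2) := by gcongr; exact h7
      _ = _ := by ring
  refine h6.trans ?_
  rw [integral_const_mul]
  have : 0 ≤ t ^ 2 := sq_nonneg t
  unfold MW
  (clear * -; nlinarith only [])

/-- dilation -/
theorem J_scale (hκ : 0 ≤ κ) (W : Wt2 om om' a b u u') {β : ℂ → ℂ} (h : Ext β) {δ : ℝ}
    (hδ : 0 < δ) : ∃ (γ : ℂ → ℂ) (R : ℝ), ExtR γ R ∧ J κ om u a b β - δ < J κ om u a b γ := by
  have ha := W.a_pos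
  have hbc : ContinuousOn (N β) (ball 0 1) := by
    have hb : DifferentiableOn ℂ (deriv β) (ball 0 1) := h.diff.deriv isOpen_ball
    unfold N
    exact continuousOn_const.sub ((continuousOn_id.pow 2).mul hb.continuousOn)
  have key : Tendsto (fun r : ℝ => J κ om u a b (fun z => (r : ℂ) * β (r * z))) (𝓝[<] 1)
      (𝓝 (J κ om u a b β)) := by
    unfold J
    have hev : ∀ᶠ r : ℝ in 𝓝[<] 1, 0 < r ∧ r < 1 := by
      filter_upwards [self_mem_nhdsWithin, mem_nhdsWithin_of_mem_nhds (lt_mem_nhds one_pos)] with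
        r h1 h2
      exact ⟨h2, h1⟩
    refine tendsto_integral_filter_of_dominated_convergence
      (fun p => ((1 - Real.exp (-a) ^ 2)⁻¹) ^ κ * (om p.1 * u p.2)) ?_ ?_ ?_ ?_
    · filter_upwards [hev] with r hr
      exact (integrableOn_rect ((cW W).mul
        (cFF (scale_ExtR h hr.1 hr.2).toExt ha κ))).aestronglyMeasurable
    · filter_upwards [hev] with r hr
      filter_upwards [ae_restrict_mem (measurableSet_rect a b)] with p hp
      have h1 := FF_le (scale_ExtR h hr.1 hr.2).toExt ha hκ hp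
      have hw : 0 ≤ om p.1 * u p.2 := mul_nonneg (W.om_nn _) (W.u_nn _)
      rw [Real.norm_of_nonneg (mul_nonneg hw (FF_nonneg _ _ _)), mul_comm]
      gcongr
    · exact integrableOn_rect (continuousOn_const.mul (cW W))
    · filter_upwards [ae_restrict_mem (measurableSet_rect a b)] with p hp
      have hz := An_ball ha (ep_mem_An hp)
      refine Tendsto.const_mul _ ?_
      have h1 : ∀ᶠ r : ℝ in 𝓝[<] 1, ‖N β ((r : ℂ) * ep (-p.1) p.2)‖ ^ (-κ) =
          FF κ (fun z => (r : ℂ) * β (r * z)) p := by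
        filter_upwards [hev] with r hr
        unfold FF
        rw [scale_N h.diff]
        rw [mem_ball_zero_iff, norm_mul, Complex.norm_real, Real.norm_eq_abs, abs_of_pos hr.1]
        have h2 : ‖ep (-p.1) p.2‖ < 1 := by simpa using hz
        nlinarith only [hr, h2]
      refine Tendsto.congr' h1 ?_
      have h2 : Tendsto (fun r : ℝ => (r : ℂ) * ep (-p.1) p.2) (𝓝[<] 1) (𝓝 (ep (-p.1) p.2)) := by
        have h3 : Continuous fun r : ℝ => (r : ℂ) * ep (-p.1) p.2 := by fun_prop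
        have h4 := h3.tendsto 1
        rw [Complex.ofReal_one, one_mul] at h4
        exact h4.mono_left nhdsWithin_le_nhds
      have h5 : ContinuousAt (N β) (ep (-p.1) p.2) := hbc.continuousAt (isOpen_ball.mem_nhds hz)
      have h6 := (h5.tendsto.comp h2).norm
      exact h6.rpow_const (Or.inl (norm_ne_zero_iff.mpr (h.ne _ hz)))
  have h1 : ∀ᶠ r : ℝ in 𝓝[<] 1, J κ om u a b β - δ <
      J κ om u a b (fun z => (r : ℂ) * β (r * z)) :=
    key.eventually (lt_mem_nhds (by (clear * - hδ; linarith)))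
  have hev : ∀ᶠ r : ℝ in 𝓝[<] 1, 0 < r ∧ r < 1 := by
    filter_upwards [self_mem_nhdsWithin, mem_nhdsWithin_of_mem_nhds (lt_mem_nhds one_pos)] with
      r h1 h2
    exact ⟨h2, h1⟩
  obtain ⟨r, hr1, hr2⟩ := (h1.and hev).exists
  exact ⟨_, _, scale_ExtR h hr2.1 hr2.2, hr1⟩

theorem Ext_zero : Ext (fun _ => (0 : ℂ)) := by
  refine ⟨differentiableOn_const _, ?_, ?_⟩
  · intro ζ ω _ _ _ _ h
    simpa using h
  · intro ζ _
    simp

/-- near-maximisers are nearly critical -/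
theorem near (hV : Variation) (hκ : 0 ≤ κ) (W : Wt2 om om' a b u u') {η : ℝ} (hη : 0 < η) :
    ∃ (β : ℂ → ℂ) (R : ℝ), ExtR β R ∧
      (∀ γ : ℂ → ℂ, Ext γ → (1 - η) * J κ om u a b γ ≤ J κ om u a b β) ∧
      ∀ z0 : ℂ, Real.exp (-1) ≤ ‖z0‖ → ‖z0‖ ≤ Real.exp (-2 * b) →
        ‖EE κ om om' u u' a b β z0‖ ≤ η := by
  obtain ⟨C, t1, hC, ht1, hE⟩ := J_expand hV hκ W
  set T : Set ℝ := {y | ∃ β, Ext β ∧ J κ om u a b β = y} with hT
  have hTb : BddAbove T := by
    refine ⟨((1 - Real.exp (-a) ^ 2)⁻¹) ^ κ * MW om u a b, ?_⟩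
    rintro y ⟨β, hβ, rfl⟩
    exact J_le W hκ hβ
  have hTn : T.Nonempty := ⟨_, _, Ext_zero, rfl⟩
  set S := sSup T with hS
  have hSle : ∀ γ, Ext γ → J κ om u a b γ ≤ S := fun γ hγ => le_csSup hTb ⟨γ, hγ, rfl⟩
  have hS0 : 0 ≤ S := (J_nonneg W κ _).trans (hSle _ Ext_zero)
  -- choice of the defect
  obtain ⟨s, hs⟩ : ∃ s : ℝ, s = min t1 (η / (1 + C)) := ⟨_, rfl⟩
  have hs0 : 0 < s := by rw [hs]; exact lt_min ht1 (by positivity)
  have hst : s ≤ t1 := by rw [hs]; exact min_le_left _ _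
  have hsη : (1 + C) * s ≤ η := by
    have : s ≤ η / (1 + C) := by rw [hs]; exact min_le_right _ _
    rw [le_div_iff₀ (by (clear * - hC; positivity))] at this
    linarith only [this]
  obtain ⟨δ, hδ⟩ : ∃ δ : ℝ, δ = if 0 < S then min (s ^ 2) (η * S) else s ^ 2 := ⟨_, rfl⟩
  have hδ0 : 0 < δ := by
    rw [hδ]
    split_ifs with h
    · exact lt_min (by (clear * - hs0; positivity)) (by (clear * - hη h; positivity))
    · positivity
  have hδs : δ ≤ s ^ 2 := by
    rw [hδ]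
    split_ifs with h
    · exact min_le_left _ _
    · exact le_rfl
  obtain ⟨y, ⟨β₀, hβ₀, rfl⟩, hy⟩ := exists_lt_of_lt_csSup hTn (show S - δ / 2 < S by linarith only [hδ0])
  obtain ⟨β, R, hβR, hβ⟩ := J_scale hκ W hβ₀ (δ := δ / 2) (by (clear * - hδ0; linarith only [hδ0]))
  have hβE := hβR.toExt
  have hJβ : S - δ < J κ om u a b β := by linarith only [hy, hβ]
  refine ⟨β, R, hβR, ?_, ?_⟩
  · intro γ hγ
    have h1 := hSle γ hγ
    have h0 := J_nonneg W κ γ
    have hb0 := J_nonneg W κ β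
    by_cases hη1 : η ≤ 1
    · by_cases hSp : 0 < S
      · have h2 : δ ≤ η * S := by
          rw [hδ, if_pos hSp]
          exact min_le_right _ _
        have h3 : (1 - η) * J κ om u a b γ ≤ (1 - η) * S :=
          mul_le_mul_of_nonneg_left h1 (by linarith only [hη1])
        linarith only [hJβ, h2, h3]
      · have h2 : J κ om u a b γ = 0 := le_antisymm (h1.trans (not_lt.mp hSp)) h0
        rw [h2, mul_zero]
        exact hb0
    · have h2 : (1 - η) * J κ om u a b γ ≤ 0 :=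
        mul_nonpos_of_nonpos_of_nonneg (by (clear * - hη1; linarith [not_le.mp hη1])) h0
      (clear * - hb0 h2; linarith)
  · intro z0 h1 h2
    set E := EE κ om om' u u' a b β z0 with hEd
    by_cases hE0 : E = 0
    · rw [hE0, norm_zero]
      exact hη.le
    have hEn : 0 < ‖E‖ := norm_pos_iff.mpr hE0
    have hB1 : ‖conj E / (‖E‖ : ℂ)‖ ≤ 1 := by
      rw [norm_div, RCLike.norm_conj, Complex.norm_real, Real.norm_eq_abs, abs_of_pos hEn,
        div_self hEn.ne']
    obtain ⟨γ, hγ, h3⟩ := hE β hβE z0 h1 h2 (conj E / (‖E‖ : ℂ)) hB1 s hs0 hst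
    rw [← hEd] at h3
    have h4 : (conj E / (‖E‖ : ℂ) * E).re = ‖E‖ := by
      have e1 : conj E / (‖E‖ : ℂ) * E = ((‖E‖ : ℝ) : ℂ) := by
        have e2 : conj E * E = ((‖E‖ ^ 2 : ℝ) : ℂ) := by
          rw [← Complex.normSq_eq_conj_mul_self, Complex.normSq_eq_norm_sq]
        have e3 : (‖E‖ : ℂ) ≠ 0 := by exact_mod_cast hEn.ne'
        rw [div_mul_eq_mul_div, e2]
        field_simp
        push_cast
        ring
      rw [e1, Complex.ofReal_re]
    rw [h4] at h3
    have h5 := hSle γ hγ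
    have h6 := (abs_le.mp h3).1
    have h7 : s * ‖E‖ ≤ δ + C * s ^ 2 := by (clear * - hJβ h5 h6; linarith only [hJβ, h5, h6])
    have h8 : s * ‖E‖ ≤ s * ((1 + C) * s) := by linarith only [hδs, h7]
    have h9 := le_of_mul_le_mul_left h8 hs0
    exact h9.trans hsη

end

end Pool.Agent.Helper27.CK

end

section

namespace Pool.Agent.Helper39.Area
end Pool.Agent.Helper39.Area
namespace Pool.Agent.Helper5.CK
end Pool.Agent.Helper5.CK
namespace Pool.Agent.Helper52.EK
end Pool.Agent.Helper52.EK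
namespace Pool.Agent.Helper14.CK
end Pool.Agent.Helper14.CK

/-!
Project CK: the interface NEAR of `Helper52.CK.Defs`.
-/

set_option autoImplicit false

open Complex MeasureTheory Metric Set Filter Topology

open scoped Real ComplexConjugate

namespace Pool.Agent.Helper27.CK

open Pool.Agent.Helper39.Area Pool.Agent.Helper5.CK

open Pool.Agent.Helper52.EK hiding Rect

open Pool.Agent.Helper14.CK

/-- iterated integral, inner variable `θ`, complex valued -/
theorem rect_eqC {a b : ℝ} (hab : a ≤ b) {f : ℝ × ℝ → ℂ} (hf : ContinuousOn f (Rect a b)) :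
    ∫ p in Rect a b, f p = ∫ x in a..b, ∫ θ in (-π)..π, f (x, θ) := by
  have hπ : -π ≤ π := by (clear * -; linarith only [Real.pi_pos])
  have h1 := integrableOn_rectC hf
  rw [Measure.volume_eq_prod] at h1 ⊢
  rw [Rect, setIntegral_prod _ h1, intervalIntegral.integral_of_le hab,
    integral_Icc_eq_integral_Ioc]
  refine setIntegral_congr_fun measurableSet_Ioc fun x _ => ?_
  show ∫ y in Icc (-π) π, f (x, y) = ∫ θ in (-π)..π, f (x, θ)
  rw [intervalIntegral.integral_of_le hπ, integral_Icc_eq_integral_Ioc]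

theorem wt_of {om om' u u' : ℝ → ℝ} {a b : ℝ} (W : Pool.Agent.Helper52.CK.Wt om om' u u' a b) :
    Wt2 om om' a b u u' := by
  refine ⟨W.a0, W.ab, W.dom, W.com, ?_, ?_, W.om0, W.du, W.cu, ?_, W.u0⟩
  · exact W.omz a fun h => lt_irrefl _ h.1
  · exact W.omz b fun h => lt_irrefl _ h.2
  · have h := W.up (-π)
    rw [show -π + 2 * π = π by ring] at h
    exact h.symm

theorem JJ_eq {om om' u u' : ℝ → ℝ} {a b : ℝ} (W : Wt2 om om' a b u u') {β : ℂ → ℂ}
    (h : Ext β) (κ : ℝ) : Pool.Agent.Helper52.CK.JJ κ om u a b β = J κ om u a b β := by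
  unfold J
  have hc : ContinuousOn (fun p : ℝ × ℝ => om p.1 * u p.2 * FF κ β p) (Rect a b) :=
    (cW W).mul (cFF h W.a_pos κ)
  rw [rect_eq W.a_lt.le hc]
  rfl

theorem EE_eq {om om' u u' : ℝ → ℝ} {a b : ℝ} (W : Wt2 om om' a b u u') {β : ℂ → ℂ} {z0 : ℂ}
    (h : Geo a b β z0) (κ : ℝ) :
    Pool.Agent.Helper52.CK.EE κ om om' u u' a b β z0 = EE κ om om' u u' a b β z0 := by
  unfold EE
  rw [rect_eqC W.a_lt.le (h.c_EE W)]
  unfold Pool.Agent.Helper52.CK.EE
  congr 1
  funext x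
  congr 1
  funext θ
  have e0 : ((Pool.Agent.Helper52.CK.FF κ β x θ : ℝ) : ℂ) = ((FF κ β (x, θ) : ℝ) : ℂ) := rfl
  rw [e0]
  congr 1
  unfold body
  simp only
  have e1 : 4 * z0 ^ 2 * Pool.Agent.Helper52.CK.kA β (ep (-x) θ) z0 =
      z0 ^ 2 * dphi β z0 ^ 2 / (phi β (ep (-x) θ) - phi β z0) ^ 2 := by
    unfold Pool.Agent.Helper52.CK.kA
    have : (phi β (ep (-x) θ) - phi β z0) ^ 2 = (phi β z0 - phi β (ep (-x) θ)) ^ 2 := by ring
    rw [this]
    generalize phi β z0 - phi β (ep (-x) θ) = X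
    rw [div_pow, mul_pow]
    by_cases hX : X = 0
    · rw [hX]; simp
    · field_simp
      ring
  have e3 : Pool.Agent.Helper52.CK.k3 (ep (-x) θ) z0 = k3 z0 (ep (-x) θ) := by
    unfold Pool.Agent.Helper52.CK.k3 k3
    push_cast
    ring
  have e4 : Pool.Agent.Helper52.CK.k1 (ep (-x) θ) z0 = k4 z0 (ep (-x) θ) := rfl
  have e5 : Pool.Agent.Helper52.CK.k5 (ep (-x) θ) z0 = I / 2 * k5 z0 (ep (-x) θ) := rfl
  rw [e1, e3, e4, e5]
  push_cast
  ring

/-- **NEAR** -/
theorem nearStmt (hV : Variation) {κ : ℝ} (hκ : 0 ≤ κ) : Pool.Agent.Helper52.CK.NearStmt κ := by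
  intro om om' u u' a b W _ _ η hη
  have W2 := wt_of W
  obtain ⟨β, R, hβ, h1, h2⟩ := near hV hκ W2 hη
  refine ⟨β, R, hβ, ?_, ?_⟩
  · intro γ hγ
    rw [JJ_eq W2 hγ, JJ_eq W2 hβ.toExt]
    exact h1 γ hγ
  · intro z0 hz hz'
    have hg : Geo a b β z0 := by
      refine ⟨hβ.toExt, W.a0, norm_pos_iff.mp ((Real.exp_pos _).trans_le hz), ?_, W.ab.le⟩
      refine hz'.trans_lt (Real.exp_lt_exp.mpr ?_)
      linarith only [W.a0, W.ab]
    rw [EE_eq W2 hg]
    exact h2 z0 hz hz'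

end Pool.Agent.Helper27.CK

end
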