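import Mathlib
import Pool.Agent.Helper60.BE.T04
import Pool.Agent.Helper60.BE.T13
import Pool.Agent.Helper60.BE.T01
import Pool.Agent.Helper60.BE.T03
import Pool.Agent.Helper60.BE.T05
import Pool.Agent.Helper60.BE.T11
import Pool.Agent.Helper60.BE.T09

set_option linter.all false

section

namespace Pool.Agent.Helper39.Area
end Pool.Agent.Helper39.Area
namespace Pool.Agent.Helper52.EK
end Pool.Agent.Helper52.EK
namespace Pool.Agent.Helper9.EK
end Pool.Agent.Helper9.EK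

set_option autoImplicit false

open Complex MeasureTheory Metric Set

open scoped Real ComplexConjugate ContDiff

namespace Pool.Agent.Helper52.CK

open Pool.Agent.Helper39.Area Pool.Agent.Helper52.EK Pool.Agent.Helper9.EK

noncomputable def omw (w : ℝ → ℝ) (p x : ℝ) : ℝ :=
  if 0 < x then w (-Real.log x - 2) * x ^ p else 0

noncomputable def omw' (w : ℝ → ℝ) (p x : ℝ) : ℝ :=
  if 0 < x then (-deriv w (-Real.log x - 2) + p * w (-Real.log x - 2)) * x ^ (p - 1) else 0

section weight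

variable {w : ℝ → ℝ} {n p : ℝ}

theorem omw_pos {x : ℝ} (hx : 0 < x) : omw w p x = w (-Real.log x - 2) * x ^ p := if_pos hx

theorem omw'_pos {x : ℝ} (hx : 0 < x) : omw' w p x =
    (-deriv w (-Real.log x - 2) + p * w (-Real.log x - 2)) * x ^ (p - 1) := if_pos hx

theorem w_far (hw0 : ∀ l, l ∉ Icc n (2 * n) → w l = 0) {l : ℝ} (hl : 2 * n < l) :
    w l = 0 ∧ deriv w l = 0 := by
  refine ⟨hw0 l fun h => absurd h.2 (not_le.2 hl), ?_⟩
  have h1 : w =ᶠ[nhds l] fun _ => 0 := by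
    filter_upwards [Ioi_mem_nhds hl] with y hy
    exact hw0 y fun h => absurd h.2 (not_le.2 hy)
  rw [h1.deriv_eq]
  simp

theorem omw_small (hw0 : ∀ l, l ∉ Icc n (2 * n) → w l = 0) {x : ℝ}
    (hx : x < Real.exp (-(2 * n + 2))) : omw w p x = 0 ∧ omw' w p x = 0 := by
  by_cases h0 : 0 < x
  · have h1 : 2 * n < -Real.log x - 2 := by
      have := Real.log_lt_log h0 hx
      rw [Real.log_exp] at this
      (clear * - this; linarith only [this])
    obtain ⟨h2, h3⟩ := w_far hw0 h1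
    rw [omw_pos h0, omw'_pos h0, h2, h3]
    simp
  · exact ⟨if_neg h0, if_neg h0⟩

theorem omw_deriv (hw : ContDiff ℝ ∞ w) (hw0 : ∀ l, l ∉ Icc n (2 * n) → w l = 0) (x : ℝ) :
    HasDerivAt (omw w p) (omw' w p x) x := by
  by_cases h0 : 0 < x
  · have h1 : omw w p =ᶠ[nhds x] fun x => w (-Real.log x - 2) * x ^ p := by
      filter_upwards [Ioi_mem_nhds h0] with y hy
      exact omw_pos hy
    have hd : Differentiable ℝ w := hw.differentiable (by norm_num)
    have h2 : HasDerivAt (fun x => -Real.log x - 2) (-x⁻¹) x :=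
      ((Real.hasDerivAt_log h0.ne').neg).sub_const 2
    have h3 := (hd (-Real.log x - 2)).hasDerivAt.comp x h2
    have h4 := h3.mul (Real.hasDerivAt_rpow_const (x := x) (p := p) (Or.inl h0.ne'))
    refine (h4.congr_of_eventuallyEq h1).congr_deriv ?_
    rw [omw'_pos h0]
    have e : x ^ p = x ^ (p - 1) * x := by
      rw [← Real.rpow_add_one h0.ne']
      congr 1
      ring
    simp only [Function.comp]
    rw [e]
    (clear * - h0; field_simp)
  · have hx : x < Real.exp (-(2 * n + 2)) := (not_lt.1 h0).trans_lt (Real.exp_pos _)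
    have h1 : omw w p =ᶠ[nhds x] fun _ => 0 := by
      filter_upwards [Iio_mem_nhds hx] with y hy
      exact (omw_small hw0 hy).1
    rw [(omw_small (p := p) hw0 hx).2]
    exact (hasDerivAt_const x (0:ℝ)).congr_of_eventuallyEq h1

theorem omw'_cont (hw : ContDiff ℝ ∞ w) (hw0 : ∀ l, l ∉ Icc n (2 * n) → w l = 0) :
    Continuous (omw' w p) := by
  rw [continuous_iff_continuousAt]
  intro x
  by_cases h0 : 0 < x
  · have h1 : omw' w p =ᶠ[nhds x] fun x =>
        (-deriv w (-Real.log x - 2) + p * w (-Real.log x - 2)) * x ^ (p - 1) := by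
      filter_upwards [Ioi_mem_nhds h0] with y hy
      exact omw'_pos hy
    have c1 : Continuous (deriv w) := hw.continuous_deriv (by norm_num)
    have c0 : Continuous w := hw.continuous
    have c2 : ContinuousAt (fun x => -Real.log x - 2) x :=
      ((Real.continuousAt_log h0.ne').neg).sub continuousAt_const
    have c3 : ContinuousAt (fun x : ℝ => x ^ (p - 1)) x :=
      Real.continuousAt_rpow_const x (p - 1) (Or.inl h0.ne')
    have c4 : ContinuousAt (fun x =>
        (-deriv w (-Real.log x - 2) + p * w (-Real.log x - 2)) * x ^ (p - 1)) x := by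
      refine ContinuousAt.mul (ContinuousAt.add ?_ (continuousAt_const.mul ?_)) c3
      · exact (ContinuousAt.comp (f := fun x => -Real.log x - 2) c1.continuousAt c2).neg
      · exact ContinuousAt.comp (f := fun x => -Real.log x - 2) c0.continuousAt c2
    exact c4.congr h1.symm
  · have hx : x < Real.exp (-(2 * n + 2)) := (not_lt.1 h0).trans_lt (Real.exp_pos _)
    have h1 : omw' w p =ᶠ[nhds x] fun _ => 0 := by
      filter_upwards [Iio_mem_nhds hx] with y hy
      exact (omw_small hw0 hy).2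
    exact continuousAt_const.congr h1.symm

theorem omw_nonneg (hwn : ∀ l, 0 ≤ w l) (x : ℝ) : 0 ≤ omw w p x := by
  by_cases h0 : 0 < x
  · rw [omw_pos h0]
    exact mul_nonneg (hwn _) (Real.rpow_nonneg h0.le _)
  · rw [omw, if_neg h0]

theorem w_ends (hw : ContDiff ℝ ∞ w) (hw0 : ∀ l, l ∉ Icc n (2 * n) → w l = 0) :
    w n = 0 ∧ w (2 * n) = 0 := by
  have c0 : Continuous w := hw.continuous
  have hcl : IsClosed {l | w l = 0} := isClosed_eq c0 continuous_const
  constructor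
  · have h1 : Iio n ⊆ {l | w l = 0} := fun l hl => hw0 l fun h => absurd h.1 (not_le.2 hl)
    have h2 := closure_minimal h1 hcl
    rw [closure_Iio] at h2
    exact h2 (Set.mem_Iic.2 le_rfl)
  · have h1 : Ioi (2 * n) ⊆ {l | w l = 0} := fun l hl => hw0 l fun h => absurd h.2 (not_le.2 hl)
    have h2 := closure_minimal h1 hcl
    rw [closure_Ioi] at h2
    exact h2 (Set.mem_Ici.2 le_rfl)

theorem omw_zero (hw : ContDiff ℝ ∞ w) (hw0 : ∀ l, l ∉ Icc n (2 * n) → w l = 0) {x : ℝ}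
    (hx : x ∉ Ioo (Real.exp (-(2 * n + 2))) (Real.exp (-(n + 2)))) : omw w p x = 0 := by
  by_cases h0 : 0 < x
  · rw [omw_pos h0]
    have h1 : w (-Real.log x - 2) = 0 := by
      rcases le_or_gt x (Real.exp (-(2 * n + 2))) with h | h
      · rcases eq_or_lt_of_le h with h | h
        · rw [h, Real.log_exp]
          have e : -(-(2 * n + 2)) - 2 = 2 * n := by ring
          rw [e]
          exact (w_ends hw hw0).2
        · have := (omw_small (p := 0) hw0 h).1
          rw [omw_pos h0, Real.rpow_zero, mul_one] at this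
          exact this
      · have h2 : Real.exp (-(n + 2)) ≤ x := by
          by_contra hlt
          exact hx ⟨h, not_le.1 hlt⟩
        rcases eq_or_lt_of_le h2 with h3 | h3
        · rw [← h3, Real.log_exp]
          have e : -(-(n + 2)) - 2 = n := by ring
          rw [e]
          exact (w_ends hw hw0).1
        · refine hw0 _ fun hm => ?_
          have := Real.log_lt_log (Real.exp_pos _) h3
          rw [Real.log_exp] at this
          (clear * - hm this; linarith only [hm.1, this])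
    rw [h1, zero_mul]
  · exact if_neg h0

theorem omw_id {x : ℝ} (hx : 0 < x) :
    p * omw w p x - x * omw' w p x = deriv w (-Real.log x - 2) * x ^ p := by
  rw [omw_pos hx, omw'_pos hx]
  have e : x ^ p = x ^ (p - 1) * x := by
    rw [← Real.rpow_add_one hx.ne']
    congr 1
    ring
  rw [e]
  ring

theorem exp_le_quarter (hn : 1 ≤ n) : Real.exp (-(n + 2)) ≤ 1 / 4 := by
  have h1 : Real.exp (-(n + 2)) ≤ Real.exp (-2) := Real.exp_le_exp.2 (by (clear * - hn; linarith))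
  have h2 : (2:ℝ) < Real.exp 1 := by
    have := Real.exp_one_gt_d9
    (clear * - this; linarith only [this])
  have h3 : Real.exp (-2) = (Real.exp 1 * Real.exp 1)⁻¹ := by
    rw [← Real.exp_add, ← Real.exp_neg]
    norm_num
  have h4 : (Real.exp 1 * Real.exp 1)⁻¹ ≤ (2 * 2 : ℝ)⁻¹ := by
    apply inv_anti₀ (by norm_num)
    (clear * - h2; nlinarith only [h2])
  rw [h3] at h1
  refine h1.trans (h4.trans (by norm_num))

/-- the weights of the project -/
theorem omw_Wt (hn : 1 ≤ n) (hw : ContDiff ℝ ∞ w) (hwn : ∀ l, 0 ≤ w l)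
    (hw0 : ∀ l, l ∉ Icc n (2 * n) → w l = 0) {u u' : ℝ → ℝ} (du : ∀ θ, HasDerivAt u (u' θ) θ)
    (cu : Continuous u') (u0 : ∀ θ, 0 ≤ u θ) (u1 : ∀ θ, u θ ≤ 1)
    (up : Function.Periodic u (2 * π)) :
    Wt (omw w p) (omw' w p) u u' (Real.exp (-(2 * n + 2))) (Real.exp (-(n + 2))) where
  a0 := Real.exp_pos _
  ab := Real.exp_lt_exp.2 (by (clear * - hn; linarith))
  b1 := exp_le_quarter hn
  dom := omw_deriv hw hw0
  com := omw'_cont hw hw0
  om0 := omw_nonneg hwn
  omz := fun _ hx => omw_zero hw hw0 hx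
  du := du
  cu := cu
  u0 := u0
  u1 := u1
  up := up

theorem omw_exists_pos (hwp : ∃ l, 0 < w l) : ∃ x, 0 < omw w p x := by
  obtain ⟨l, hl⟩ := hwp
  refine ⟨Real.exp (-(l + 2)), ?_⟩
  rw [omw_pos (Real.exp_pos _), Real.log_exp]
  have e : -(-(l + 2)) - 2 = l := by ring
  rw [e]
  exact mul_pos hl (Real.rpow_pos_of_pos (Real.exp_pos _) _)

end weight

theorem sub_exp {n : ℝ} (hn : 0 ≤ n) (f : ℝ → ℝ) :
    ∫ x in Real.exp (-(2 * n + 2))..Real.exp (-(n + 2)), f x =
      ∫ l in n..(2 * n), Real.exp (-(l + 2)) * f (Real.exp (-(l + 2))) := by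
  have hn2 : n ≤ 2 * n := by linarith
  have hab : Real.exp (-(2 * n + 2)) ≤ Real.exp (-(n + 2)) := Real.exp_le_exp.2 (by linarith only [hn2])
  have himg : (fun l : ℝ => Real.exp (-(l + 2))) '' Icc n (2 * n) =
      Icc (Real.exp (-(2 * n + 2))) (Real.exp (-(n + 2))) := by
    ext x
    constructor
    · rintro ⟨l, hl, rfl⟩
      exact ⟨Real.exp_le_exp.2 (by (clear * - hl; linarith [hl.2])), Real.exp_le_exp.2 (by linarith [hl.1])⟩
    · intro hx
      have hx0 : 0 < x := (Real.exp_pos _).trans_le hx.1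
      refine ⟨-Real.log x - 2, ⟨?_, ?_⟩, ?_⟩
      · have := Real.log_le_log hx0 hx.2
        rw [Real.log_exp] at this
        (clear * - this; linarith only [this])
      · have := Real.log_le_log (Real.exp_pos _) hx.1
        rw [Real.log_exp] at this
        linarith only [this]
      · simp only
        have e : -(-Real.log x - 2 + 2) = Real.log x := by ring
        rw [e, Real.exp_log hx0]
  rw [intervalIntegral.integral_of_le hab, intervalIntegral.integral_of_le hn2,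
    ← integral_Icc_eq_integral_Ioc, ← integral_Icc_eq_integral_Ioc, ← himg,
    integral_image_eq_integral_abs_deriv_smul (f' := fun l => -Real.exp (-(l + 2)))
      measurableSet_Icc ?_ ?_]
  · refine setIntegral_congr_fun measurableSet_Icc fun l _ => ?_
    simp only [smul_eq_mul, abs_neg, Real.abs_exp]
  · intro l _
    have h1 : HasDerivAt (fun l : ℝ => -(l + 2)) (-1) l :=
      HasDerivAt.fun_neg ((hasDerivAt_id' l).add_const 2)
    have h2 := h1.exp
    refine (h2.congr_deriv ?_).hasDerivWithinAt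
    ring
  · intro l _ l' _ h
    have := Real.exp_injective h
    (clear * - this; linarith)

/-- the main change of variables -/
theorem RR_omw {w : ℝ → ℝ} {n p : ℝ} (hn : 0 ≤ n) (H : ℝ → ℝ → ℝ) :
    RR (Real.exp (-(2 * n + 2))) (Real.exp (-(n + 2))) (fun x θ => omw w p x * H x θ) =
      ∫ l in n..(2 * n), w l * Real.exp (-((p + 1) * (l + 2))) *
        ∫ θ in (-π)..π, H (Real.exp (-(l + 2))) θ := by
  unfold RR
  rw [sub_exp hn]
  refine intervalIntegral.integral_congr fun l _ => ?_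
  simp only
  rw [intervalIntegral.integral_const_mul, omw_pos (Real.exp_pos _), Real.log_exp,
    ← Real.exp_mul]
  have e : -(-(l + 2)) - 2 = l := by ring
  have e2 : Real.exp (-((p + 1) * (l + 2))) = Real.exp (-(l + 2)) * Real.exp (-(l + 2) * p) := by
    rw [← Real.exp_add]
    congr 1
    ring
  rw [e, e2]
  ring

theorem RR_omw_abs {w : ℝ → ℝ} {n p : ℝ} (hn : 0 ≤ n) (H : ℝ → ℝ → ℝ) :
    RR (Real.exp (-(2 * n + 2))) (Real.exp (-(n + 2)))
      (fun x θ => |p * omw w p x - x * omw' w p x| * H x θ) =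
      ∫ l in n..(2 * n), |deriv w l| * Real.exp (-((p + 1) * (l + 2))) *
        ∫ θ in (-π)..π, H (Real.exp (-(l + 2))) θ := by
  unfold RR
  rw [sub_exp hn]
  refine intervalIntegral.integral_congr fun l _ => ?_
  simp only
  rw [intervalIntegral.integral_const_mul, omw_id (Real.exp_pos _), Real.log_exp,
    ← Real.exp_mul, abs_mul, abs_of_pos (Real.exp_pos _)]
  have e : -(-(l + 2)) - 2 = l := by ring
  have e2 : Real.exp (-((p + 1) * (l + 2))) = Real.exp (-(l + 2)) * Real.exp (-(l + 2) * p) := by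
    rw [← Real.exp_add]
    congr 1
    ring
  rw [e, e2]
  ring

/-- localised mean at depth `l` -/
noncomputable def mm (κ : ℝ) (u : ℝ → ℝ) (β : ℂ → ℂ) (l : ℝ) : ℝ :=
  (2 * π)⁻¹ * ∫ θ in (-π)..π, u θ * FF κ β (Real.exp (-l)) θ

/-- the level function -/
noncomputable def GG (κ dl : ℝ) (u : ℝ → ℝ) (β : ℂ → ℂ) (l : ℝ) : ℝ :=
  Real.log (mm κ u β (l + 2)) - (κ - 1 + dl) * (l + 2)

theorem exp_GG {κ dl : ℝ} {u : ℝ → ℝ} {β : ℂ → ℂ} {l : ℝ} (h : 0 < mm κ u β (l + 2)) :
    Real.exp (GG κ dl u β l) = mm κ u β (l + 2) * Real.exp (-((κ - 1 + dl) * (l + 2))) := by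
  unfold GG
  rw [sub_eq_add_neg, Real.exp_add, Real.exp_log h]

theorem norm_ep (t θ : ℝ) : ‖ep t θ‖ = Real.exp t := by
  unfold ep
  rw [Complex.norm_exp]
  simp

/-- LIP: the density changes by at most `e^(A |l - l'|)` along a radius -/
def LipStmt (κ : ℝ) : Prop :=
  ∃ A : ℝ, 0 ≤ A ∧ ∀ (β : ℂ → ℂ) (R : ℝ), ExtR β R →
    (∀ l l' θ : ℝ, 2 ≤ l → 2 ≤ l' →
      FF κ β (Real.exp (-l)) θ ≤ Real.exp (A * |l - l'|) * FF κ β (Real.exp (-l')) θ) ∧
    ∀ θ : ℝ, FF κ β (Real.exp (-2)) θ ≤ Real.exp A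

theorem FF_cont (κ : ℝ) {β : ℂ → ℂ} {R a : ℝ} (h : ExtR β R) (ha : 0 < a) :
    Continuous (fun q : ℝ × ℝ => FF κ β (max a q.1) q.2) := by
  have hmem : ∀ q : ℝ × ℝ, ep (-(max a q.1)) q.2 ∈ ball (0:ℂ) R := by
    intro q
    rw [mem_ball_zero_iff, norm_ep]
    have : Real.exp (-(max a q.1)) < 1 := by
      rw [Real.exp_lt_one_iff]
      have := le_max_left a q.1
      linarith only [ha, this]
    exact this.trans h.one_lt
  have hc : Continuous (fun q : ℝ × ℝ => ep (-(max a q.1)) q.2) := by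
    unfold ep
    fun_prop
  have hd : ContinuousOn (deriv β) (ball 0 R) := (h.diff.deriv isOpen_ball).continuousOn
  have h1 : Continuous (fun q : ℝ × ℝ => deriv β (ep (-(max a q.1)) q.2)) :=
    hd.comp_continuous hc hmem
  have h2 : Continuous (fun q : ℝ × ℝ => N β (ep (-(max a q.1)) q.2)) := by
    unfold N
    exact continuous_const.sub ((hc.pow 2).mul h1)
  have h3 : ∀ q : ℝ × ℝ, ‖N β (ep (-(max a q.1)) q.2)‖ ≠ 0 := fun q =>
    norm_ne_zero_iff.2 (h.ne _ (hmem q))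
  exact h2.norm.rpow_const fun q => Or.inl (h3 q)

theorem FF_pos (κ : ℝ) {β : ℂ → ℂ} {R x : ℝ} (h : ExtR β R) (hx : 0 < x) (θ : ℝ) :
    0 < FF κ β x θ := by
  refine Real.rpow_pos_of_pos (norm_pos_iff.2 (h.ne _ ?_)) _
  rw [mem_ball_zero_iff, norm_ep]
  have : Real.exp (-x) < 1 := by
    rw [Real.exp_lt_one_iff]
    linarith
  exact this.trans h.one_lt

theorem FF_cont_th (κ : ℝ) {β : ℂ → ℂ} {R x : ℝ} (h : ExtR β R) (hx : 0 < x) :
    Continuous (FF κ β x) := by
  have h1 := (FF_cont κ h hx).comp (Continuous.prodMk_right x)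
  refine h1.congr fun θ => ?_
  simp [Function.comp]

theorem rot_FF (κ : ℝ) (β : ℂ → ℂ) (α x θ : ℝ) :
    FF κ (rotβ β α) x θ = FF κ β x (θ + α) := by
  unfold FF
  rw [rot_N']
  congr 3
  unfold ep
  rw [← Complex.exp_add]
  congr 1
  push_cast
  ring

theorem FF_per (κ : ℝ) (β : ℂ → ℂ) (x : ℝ) : Function.Periodic (FF κ β x) (2 * π) := by
  intro θ
  unfold FF
  congr 3
  unfold ep
  have e : ((-x : ℝ) : ℂ) + ((θ + 2 * π : ℝ) : ℂ) * I =
      ((-x : ℝ) : ℂ) + (θ : ℂ) * I + 2 * π * I := by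
    push_cast
    ring
  rw [e, Complex.exp_add, Complex.exp_two_pi_mul_I, mul_one]

/-- rotation of the localised mean -/
theorem rot_int {κ : ℝ} {u : ℝ → ℝ} (up : Function.Periodic u (2 * π)) (β : ℂ → ℂ) (x α : ℝ) :
    ∫ θ in (-π)..π, u (θ + α) * FF κ β x θ =
      ∫ θ in (-π)..π, u θ * FF κ (rotβ β (-α)) x θ := by
  have h1 : ∀ θ, u (θ + α) * FF κ β x θ =
      (fun t => u t * FF κ (rotβ β (-α)) x t) (θ + α) := by
    intro θ
    simp only
    rw [rot_FF]
    congr 2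
    ring
  simp only [h1]
  rw [intervalIntegral.integral_comp_add_right (fun t => u t * FF κ (rotβ β (-α)) x t)]
  have hper : Function.Periodic (fun t => u t * FF κ (rotβ β (-α)) x t) (2 * π) := by
    intro t
    simp only
    rw [up t, FF_per]
  have := hper.intervalIntegral_add_eq (-π + α) (-π)
  have e1 : -π + α + 2 * π = π + α := by ring
  have e2 : -π + 2 * π = π := by ring
  rw [e1, e2] at this
  exact this

end Pool.Agent.Helper52.CK

end

section

set_option autoImplicit false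

open Real Set

/-! Project CK: the bump on an arc, and the cover of the circle by its rotations. -/

namespace Pool.Agent.Helper52.CK

theorem hasDerivAt_pos_sq (t : ℝ) : HasDerivAt (fun t : ℝ => (max 0 t) ^ 2) (2 * max 0 t) t := by
  rcases lt_trichotomy t 0 with h | h | h
  · have h1 : (fun t : ℝ => (max 0 t) ^ 2) =ᶠ[nhds t] fun _ => 0 := by
      filter_upwards [Iio_mem_nhds h] with x hx
      rw [max_eq_left (le_of_lt hx)]
      simp
    rw [max_eq_left h.le, mul_zero]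
    exact (hasDerivAt_const t (0:ℝ)).congr_of_eventuallyEq h1
  · subst h
    rw [hasDerivAt_iff_isLittleO]
    simp only [max_self, mul_zero, sub_zero, smul_eq_mul]
    have h1 : (fun x : ℝ => (max 0 x) ^ 2) =O[nhds 0] fun x => x ^ 2 := by
      refine Asymptotics.IsBigO.of_bound 1 (Filter.Eventually.of_forall fun x => ?_)
      rw [one_mul, norm_pow, norm_pow]
      refine pow_le_pow_left₀ (norm_nonneg _) ?_ 2
      rw [Real.norm_eq_abs, Real.norm_eq_abs]
      rcases le_total 0 x with h | h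
      · rw [max_eq_right h]
      · rw [max_eq_left h, abs_zero]
        exact abs_nonneg x
    have h2 : (fun x : ℝ => x ^ 2) =o[nhds 0] fun x => x := by
      have := (Asymptotics.isLittleO_pow_pow (𝕜 := ℝ) (m := 1) (n := 2) (by norm_num))
      simpa using this
    have h3 := h1.trans_isLittleO h2
    simpa using h3
  · have h1 : (fun t : ℝ => (max 0 t) ^ 2) =ᶠ[nhds t] fun t => t ^ 2 := by
      filter_upwards [Ioi_mem_nhds h] with x hx
      rw [max_eq_right (le_of_lt hx)]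
    rw [max_eq_right h.le]
    have h2 := (hasDerivAt_pow 2 t).congr_of_eventuallyEq h1
    refine h2.congr_deriv ?_
    norm_num

/-- the bump of the arc `|θ| < s` -/
noncomputable def bu (s θ : ℝ) : ℝ := (max 0 (cos θ - cos s)) ^ 2 / (1 - cos s) ^ 2

noncomputable def bu' (s θ : ℝ) : ℝ :=
  2 * max 0 (cos θ - cos s) * (-sin θ) / (1 - cos s) ^ 2

variable {s : ℝ}

theorem cos_s_lt (h0 : 0 < s) (h1 : s ≤ 1 / 2) : cos s < 1 := by
  have hpi := Real.pi_gt_three
  have := Real.cos_lt_cos_of_nonneg_of_le_pi_div_two (x := 0) (y := s) le_rfl (by (clear * - h0 h1 hpi; linarith)) h0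
  rwa [Real.cos_zero] at this

theorem bu_deriv (s θ : ℝ) : HasDerivAt (bu s) (bu' s θ) θ := by
  have h1 : HasDerivAt (fun θ => cos θ - cos s) (-sin θ) θ :=
    (Real.hasDerivAt_cos θ).sub_const _
  have h2 := (hasDerivAt_pos_sq (cos θ - cos s)).comp θ h1
  exact h2.div_const _

theorem bu'_cont (s : ℝ) : Continuous (bu' s) := by
  unfold bu'
  have : Continuous fun θ => max 0 (cos θ - cos s) :=
    continuous_const.max (Real.continuous_cos.sub continuous_const)
  fun_prop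

theorem bu_cont (s : ℝ) : Continuous (bu s) :=
  continuous_iff_continuousAt.2 fun θ => (bu_deriv s θ).continuousAt

theorem bu_nonneg (s θ : ℝ) : 0 ≤ bu s θ := by unfold bu; (clear * -; positivity)

theorem bu_le_one (h0 : 0 < s) (h1 : s ≤ 1 / 2) (θ : ℝ) : bu s θ ≤ 1 := by
  have hc := cos_s_lt h0 h1
  unfold bu
  rw [div_le_one (by have : 0 < 1 - cos s := by (clear * - hc; linarith only [hc])
                     (clear * - hc; positivity))]
  refine pow_le_pow_left₀ (le_max_left _ _) ?_ 2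
  exact max_le (by (clear * - hc; linarith only [hc])) (by (clear * -; linarith [Real.cos_le_one θ]))

theorem bu_per (s : ℝ) : Function.Periodic (bu s) (2 * π) := by
  intro θ
  unfold bu
  rw [Real.cos_add_two_pi]

theorem bu_supp (h0 : 0 < s) (h1 : s ≤ 1 / 2) {θ : ℝ} (hθ : θ ∈ Icc (-π) π)
    (h : bu s θ ≠ 0) : |θ| ≤ s := by
  by_contra hlt
  push Not at hlt
  apply h
  have hpi := Real.pi_gt_three
  have hle : |θ| ≤ π := abs_le.2 hθ
  have h2 : cos |θ| < cos s := Real.cos_lt_cos_of_nonneg_of_le_pi h0.le hle hlt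
  rw [Real.cos_abs] at h2
  unfold bu
  rw [max_eq_left (by linarith only [h2])]
  simp

theorem bu_pos_zero (h0 : 0 < s) (h1 : s ≤ 1 / 2) : 0 < bu s 0 := by
  have hc := cos_s_lt h0 h1
  unfold bu
  rw [Real.cos_zero, max_eq_right (by linarith only [hc])]
  have : 0 < 1 - cos s := by (clear * - hc; linarith only [hc])
  (clear * - hc; positivity)

/-- the bump is bounded below near its centre -/
theorem bu_ge (h0 : 0 < s) (h1 : s ≤ 1 / 2) : ∃ c : ℝ, 0 < c ∧ ∀ θ, |θ| ≤ s / 2 → c ≤ bu s θ := by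
  have hc := cos_s_lt h0 h1
  have hpi := Real.pi_gt_three
  have h2 : cos s < cos (s / 2) :=
    Real.cos_lt_cos_of_nonneg_of_le_pi (by linarith only [h0]) (by (clear * - h1 hpi; linarith only [h1, hpi])) (by (clear * - h0; linarith))
  refine ⟨(cos (s / 2) - cos s) ^ 2 / (1 - cos s) ^ 2, ?_, fun θ hθ => ?_⟩
  · have a1 : 0 < 1 - cos s := by (clear * - hc; linarith)
    have a2 : 0 < cos (s / 2) - cos s := by (clear * - h2; linarith)
    (clear * - h2 hc; positivity)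
  · have h3 : cos (s / 2) ≤ cos |θ| :=
      Real.cos_le_cos_of_nonneg_of_le_pi (abs_nonneg _) (by linarith only [h1, hpi]) hθ
    rw [Real.cos_abs] at h3
    unfold bu
    refine div_le_div_of_nonneg_right ?_ (sq_nonneg _)
    refine pow_le_pow_left₀ (by linarith only [h2]) ?_ 2
    exact (sub_le_sub_right h3 _).trans (le_max_right _ _)

/-- every angle is near a multiple of `2π/K`, modulo `2π` -/
theorem near_mult {K : ℕ} (hK : 0 < K) (θ : ℝ) :
    ∃ j ∈ Finset.range K, ∃ m : ℤ, |θ + 2 * π * j / K - m * (2 * π)| ≤ 2 * π / K := by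
  have hKr : (0:ℝ) < K := by exact_mod_cast hK
  have hpi := Real.pi_pos
  -- `q` = integer part of `-θ K / (2π)`
  obtain ⟨q, hq⟩ : ∃ q : ℤ, q = ⌊-θ * K / (2 * π)⌋ := ⟨_, rfl⟩
  obtain ⟨j, hj⟩ : ∃ j : ℕ, (j : ℤ) = q % K := ⟨(q % K).toNat, Int.toNat_of_nonneg
    (Int.emod_nonneg _ (by exact_mod_cast hK.ne'))⟩
  have hjK : j < K := by
    have := Int.emod_lt_of_pos q (by exact_mod_cast hK : (0:ℤ) < K)
    rw [← hj] at this
    exact_mod_cast this
  have hdiv : q = K * (q / K) + j := by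
    rw [hj]
    exact (Int.mul_ediv_add_emod q K).symm
  refine ⟨j, Finset.mem_range.2 hjK, -(q / K), ?_⟩
  have e : θ + 2 * π * j / K - ((-(q / K) : ℤ) : ℝ) * (2 * π) = θ + 2 * π * q / K := by
    have h1 : (q : ℝ) = K * ((q / K : ℤ) : ℝ) + j := by exact_mod_cast hdiv
    push_cast
    rw [h1]
    field_simp
    ring
  rw [e]
  have h1 : (q : ℝ) ≤ -θ * K / (2 * π) := by rw [hq]; exact Int.floor_le _
  have h2 : -θ * K / (2 * π) < q + 1 := by rw [hq]; exact Int.lt_floor_add_one _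
  rw [le_div_iff₀ (by positivity)] at h1
  rw [div_lt_iff₀ (by positivity)] at h2
  have h3 : θ + 2 * π * q / K = (θ * K + 2 * π * q) / K := by field_simp
  rw [h3, abs_div, abs_of_pos hKr, div_le_div_iff_of_pos_right hKr, abs_le]
  constructor
  · linarith only [h2]
  · linarith only [h1, h2]

/-- the cover -/
theorem bu_cover (h0 : 0 < s) (h1 : s ≤ 1 / 2) : ∃ (K : ℕ) (C : ℝ), 0 < K ∧ 0 < C ∧
    (∀ θ, 1 ≤ C * ∑ j ∈ Finset.range K, bu s (θ + 2 * π * j / K)) ∧
    (∀ θ, |bu' s θ| ≤ C * ∑ j ∈ Finset.range K, bu s (θ + 2 * π * j / K)) := by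
  obtain ⟨c, hc0, hc⟩ := bu_ge h0 h1
  have hpi := Real.pi_pos
  have hcs := cos_s_lt h0 h1
  obtain ⟨K, hK⟩ := exists_nat_gt (4 * π / s)
  have hK0 : 0 < K := by
    have : (0:ℝ) < K := lt_trans (by (clear * - h0; positivity)) hK
    exact_mod_cast this
  have hKr : (0:ℝ) < K := by exact_mod_cast hK0
  have hKs : 2 * π / K ≤ s / 2 := by
    rw [div_lt_iff₀ h0] at hK
    rw [div_le_iff₀ hKr]
    linarith only [hK]
  have key : ∀ θ, c ≤ ∑ j ∈ Finset.range K, bu s (θ + 2 * π * j / K) := by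
    intro θ
    obtain ⟨j, hj, m, hm⟩ := near_mult hK0 θ
    have h2 : c ≤ bu s (θ + 2 * π * j / K) := by
      have h3 := hc _ (hm.trans hKs)
      rwa [(bu_per s).sub_int_mul_eq] at h3
    exact h2.trans (Finset.single_le_sum (f := fun j : ℕ => bu s (θ + 2 * π * j / K))
      (fun i _ => bu_nonneg s _) hj)
  obtain ⟨D, hD⟩ : ∃ D, D = 2 / (1 - cos s) := ⟨_, rfl⟩
  have h1s : 0 < 1 - cos s := by (clear * - hcs; linarith only [hcs])
  have hD0 : 0 < D := by rw [hD]; (clear * - hcs; positivity)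
  have hb : ∀ θ, |bu' s θ| ≤ D := by
    intro θ
    unfold bu'
    rw [abs_div, abs_of_pos (by positivity : 0 < (1 - cos s) ^ 2), div_le_iff₀ (by positivity), hD]
    have e : 2 / (1 - cos s) * (1 - cos s) ^ 2 = 2 * (1 - cos s) := by (clear * - h1s; field_simp)
    rw [e, abs_mul, abs_mul, abs_neg, abs_of_pos (by norm_num : (0:ℝ) < 2),
      abs_of_nonneg (le_max_left _ _)]
    have h2 : max 0 (cos θ - cos s) ≤ 1 - cos s :=
      max_le h1s.le (by (clear * -; linarith only [Real.cos_le_one θ]))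
    have h3 := Real.abs_sin_le_one θ
    have h4 : (0:ℝ) ≤ max 0 (cos θ - cos s) := le_max_left _ _
    have h5 := abs_nonneg (sin θ)
    nlinarith only [h2, h3, h4]
  refine ⟨K, (1 + D) / c, hK0, by positivity, fun θ => ?_, fun θ => ?_⟩
  · have := key θ
    rw [div_mul_eq_mul_div, le_div_iff₀ hc0]
    nlinarith only [hc0, hD0, this]
  · have h2 := key θ
    refine (hb θ).trans ?_
    rw [div_mul_eq_mul_div, le_div_iff₀ hc0]
    nlinarith only [hc0, hD0, h2]

end Pool.Agent.Helper52.CK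

end

section

namespace Pool.Agent.Helper39.Area
end Pool.Agent.Helper39.Area
namespace Pool.Agent.Helper52.EK
end Pool.Agent.Helper52.EK
namespace Pool.Agent.Helper9.EK
end Pool.Agent.Helper9.EK

set_option autoImplicit false

open Complex MeasureTheory Metric Set

open scoped Real ComplexConjugate ContDiff

namespace Pool.Agent.Helper52.CK

open Pool.Agent.Helper39.Area Pool.Agent.Helper52.EK Pool.Agent.Helper9.EK

theorem FF_comp_cont (κ : ℝ) {β : ℂ → ℂ} {R : ℝ} (h : ExtR β R) {X : Type*} [TopologicalSpace X]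
    {g k : X → ℝ} (hg : Continuous g) (hk : Continuous k) (hpos : ∀ q, 0 < g q) :
    Continuous (fun q => FF κ β (g q) (k q)) := by
  have hmem : ∀ q, ep (-(g q)) (k q) ∈ ball (0:ℂ) R := by
    intro q
    rw [mem_ball_zero_iff, norm_ep]
    have : Real.exp (-(g q)) < 1 := by
      rw [Real.exp_lt_one_iff]
      have := hpos q
      (clear * - this; linarith only [this])
    exact this.trans h.one_lt
  have hc : Continuous (fun q => ep (-(g q)) (k q)) := by
    unfold ep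
    fun_prop
  have hd : ContinuousOn (deriv β) (ball 0 R) := (h.diff.deriv isOpen_ball).continuousOn
  have h1 : Continuous (fun q => deriv β (ep (-(g q)) (k q))) := hd.comp_continuous hc hmem
  have h2 : Continuous (fun q => N β (ep (-(g q)) (k q))) := by
    unfold N
    exact continuous_const.sub ((hc.pow 2).mul h1)
  have h3 : ∀ q, ‖N β (ep (-(g q)) (k q))‖ ≠ 0 := fun q =>
    norm_ne_zero_iff.2 (h.ne _ (hmem q))
  exact h2.norm.rpow_const fun q => Or.inl (h3 q)

theorem N_comp_cont {β : ℂ → ℂ} {R x : ℝ} (h : ExtR β R) (hx : 0 < x) :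
    Continuous (fun θ => Real.log ‖N β (ep (-x) θ)‖) := by
  have hmem : ∀ θ, ep (-x) θ ∈ ball (0:ℂ) R := by
    intro q
    rw [mem_ball_zero_iff, norm_ep]
    have : Real.exp (-x) < 1 := by
      rw [Real.exp_lt_one_iff]
      (clear * - hx; linarith only [hx])
    exact this.trans h.one_lt
  have hc : Continuous (fun q => ep (-x) q) := by
    unfold ep
    fun_prop
  have hd : ContinuousOn (deriv β) (ball 0 R) := (h.diff.deriv isOpen_ball).continuousOn
  have h1 : Continuous (fun q => deriv β (ep (-x) q)) := hd.comp_continuous hc hmem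
  have h2 : Continuous (fun q => N β (ep (-x) q)) := by
    unfold N
    exact continuous_const.sub ((hc.pow 2).mul h1)
  exact h2.norm.log fun q => norm_ne_zero_iff.2 (h.ne _ (hmem q))

section means

variable {κ dl : ℝ} {u : ℝ → ℝ} {β : ℂ → ℂ} {R : ℝ}

theorem mm_cont (h : ExtR β R) (cu : Continuous u) : Continuous (mm κ u β) := by
  unfold mm
  refine continuous_const.mul ?_
  refine intervalIntegral.continuous_parametric_intervalIntegral_of_continuous'
    (f := fun l θ => u θ * FF κ β (Real.exp (-l)) θ) ?_ _ _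
  have h1 := FF_comp_cont κ h (g := fun q : ℝ × ℝ => Real.exp (-q.1)) (k := fun q => q.2)
    (by fun_prop) (by fun_prop) (fun q => Real.exp_pos _)
  exact (cu.comp continuous_snd).mul h1

theorem int_pos (h : ExtR β R) (cu : Continuous u) (u0 : ∀ θ, 0 ≤ u θ) (hu : 0 < u 0) {x : ℝ}
    (hx : 0 < x) : 0 < ∫ θ in (-π)..π, u θ * FF κ β x θ := by
  have hpi := Real.pi_pos
  refine intervalIntegral.integral_pos (by (clear * - hpi; linarith only [hpi])) ?_ ?_ ?_
  · exact (cu.mul (FF_cont_th κ h hx)).continuousOn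
  · intro θ _
    exact mul_nonneg (u0 θ) (FF_pos κ h hx θ).le
  · exact ⟨0, ⟨by (clear * - hpi; linarith), hpi.le⟩, mul_pos hu (FF_pos κ h hx 0)⟩

theorem mm_pos (h : ExtR β R) (cu : Continuous u) (u0 : ∀ θ, 0 ≤ u θ) (hu : 0 < u 0) (l : ℝ) :
    0 < mm κ u β l := by
  unfold mm
  exact mul_pos (by positivity) (int_pos h cu u0 hu (Real.exp_pos _))

theorem GG_cont (h : ExtR β R) (cu : Continuous u) (u0 : ∀ θ, 0 ≤ u θ) (hu : 0 < u 0) :
    Continuous (GG κ dl u β) := by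
  unfold GG
  have h1 : Continuous fun l : ℝ => mm κ u β (l + 2) :=
    (mm_cont h cu).comp (continuous_id.add continuous_const)
  exact (h1.log fun l => (mm_pos h cu u0 hu _).ne').sub (by fun_prop)

end means

theorem RR_inner_cont {a : ℝ} {F : ℝ → ℝ → ℝ}
    (hF : Continuous (fun q : ℝ × ℝ => F (max a q.1) q.2)) :
    ContinuousOn (fun x => ∫ θ in (-π)..π, F x θ) (Ici a) := by
  have h : Continuous (fun x => ∫ θ in (-π)..π, F (max a x) θ) :=
    intervalIntegral.continuous_parametric_intervalIntegral_of_continuous'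
      (f := fun x θ => F (max a x) θ) hF _ _
  refine h.continuousOn.congr fun x hx => ?_
  simp only [max_eq_right (Set.mem_Ici.1 hx)]

theorem RR_inner_int {a b : ℝ} (hab : a ≤ b) {F : ℝ → ℝ → ℝ}
    (hF : Continuous (fun q : ℝ × ℝ => F (max a q.1) q.2)) :
    IntervalIntegrable (fun x => ∫ θ in (-π)..π, F x θ) volume a b := by
  refine ContinuousOn.intervalIntegrable ?_
  rw [uIcc_of_le hab]
  exact (RR_inner_cont hF).mono Icc_subset_Ici_self

theorem slice {a x : ℝ} (hx : a ≤ x) {F : ℝ → ℝ → ℝ}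
    (hF : Continuous (fun q : ℝ × ℝ => F (max a q.1) q.2)) : Continuous (F x) := by
  have h1 := hF.comp (Continuous.prodMk_right x)
  refine h1.congr fun θ => ?_
  simp [Function.comp, max_eq_right hx]

theorem RR_mono {a b : ℝ} (hab : a ≤ b) {F H : ℝ → ℝ → ℝ}
    (hF : Continuous (fun q : ℝ × ℝ => F (max a q.1) q.2))
    (hH : Continuous (fun q : ℝ × ℝ => H (max a q.1) q.2))
    (hle : ∀ x θ, a ≤ x → x ≤ b → F x θ ≤ H x θ) : RR a b F ≤ RR a b H := by
  unfold RR
  have hpi := Real.pi_pos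
  refine intervalIntegral.integral_mono_on hab (RR_inner_int hab hF) (RR_inner_int hab hH)
    fun x hx => ?_
  exact intervalIntegral.integral_mono_on (by (clear * - hpi; linarith))
    ((slice hx.1 hF).intervalIntegrable _ _) ((slice hx.1 hH).intervalIntegrable _ _)
    fun θ _ => hle x θ hx.1 hx.2

theorem RR_sum {a b : ℝ} (hab : a ≤ b) (K : ℕ) (C : ℝ) {F : ℕ → ℝ → ℝ → ℝ}
    (hF : ∀ j, Continuous (fun q : ℝ × ℝ => F j (max a q.1) q.2)) :
    RR a b (fun x θ => C * ∑ j ∈ Finset.range K, F j x θ) =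
      C * ∑ j ∈ Finset.range K, RR a b (F j) := by
  unfold RR
  have h1 : ∀ x ∈ uIcc a b, ∫ θ in (-π)..π, C * ∑ j ∈ Finset.range K, F j x θ =
      C * ∑ j ∈ Finset.range K, ∫ θ in (-π)..π, F j x θ := by
    intro x hx
    rw [uIcc_of_le hab] at hx
    rw [intervalIntegral.integral_const_mul, intervalIntegral.integral_finsetSum]
    intro j _
    exact (slice hx.1 (hF j)).intervalIntegrable _ _
  rw [intervalIntegral.integral_congr h1, intervalIntegral.integral_const_mul,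
    intervalIntegral.integral_finsetSum]
  intro j _
  exact RR_inner_int hab (hF j)

theorem one_sub_exp_ge {x : ℝ} (h0 : 0 < x) (h1 : x ≤ 1 / 4) : x ≤ 1 - Real.exp (-2 * x) := by
  have h2 : 1 + 2 * x ≤ Real.exp (2 * x) := by
    have := Real.add_one_le_exp (2 * x)
    linarith only [this]
  have h3 : Real.exp (-2 * x) = (Real.exp (2 * x))⁻¹ := by
    rw [← Real.exp_neg]
    congr 1
    ring
  have h4 : (Real.exp (2 * x))⁻¹ ≤ (1 + 2 * x)⁻¹ := inv_anti₀ (by (clear * - h0; positivity)) h2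
  have h5 : (1 + 2 * x)⁻¹ ≤ 1 - x := by
    rw [inv_le_iff_one_le_mul₀ (by positivity)]
    (clear * - h0 h1; nlinarith only [h0, h1])
  rw [h3]
  linarith

/-- the inequality of one level: entropy and the inequality of the targets -/
theorem level {κ dl CE C C₀ ε s n x : ℝ} {β : ℂ → ℂ} {R : ℝ} (h : ExtR β R) {w : ℂ → ℂ}
    (hκ : 1 ≤ κ) (hw : ContinuousOn w {z | 0 < ‖z‖ ∧ ‖z‖ < 1}) {u : ℝ → ℝ} (cu : Continuous u)
    (u0 : ∀ θ, 0 ≤ u θ) (us : ∀ θ ∈ Icc (-π) π, u θ ≠ 0 → |θ| ≤ s) (hx : 0 < x)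
    (hx4 : x ≤ 1 / 4) {Mx : ℝ → ℝ} (cM : Continuous Mx) {m : ℝ}
    (hm : m = (2 * π)⁻¹ * ∫ θ in (-π)..π, u θ * FF κ β x θ) (hm0 : 0 < m)
    (hE : m * Real.log m ≤ m * (Real.log (1 - Real.exp (-2 * x)) + CE) +
      (2 * π)⁻¹ * ∫ θ in (-π)..π, u θ * FF κ β x θ *
        (Kf w (Complex.exp (θ * I)) (-1) (-x) - κ * Real.log ‖N β (ep (-x) θ)‖))
    (hP : ∀ θ, |θ| ≤ s → Kf w (Complex.exp (θ * I)) (-1) (-x) ≤
      κ * Real.log (‖N β (ep (-x) θ)‖ / (1 - Real.exp (-2 * x))) +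
        Mx θ + C + (dl + ε) * (-Real.log x) + C₀ * (-Real.log x - n)) :
    m * Real.log m ≤ m * ((κ - 1) * (-Real.log x) + CE + C + (dl + ε) * (-Real.log x) +
      C₀ * (-Real.log x - n)) + (2 * π)⁻¹ * ∫ θ in (-π)..π, u θ * FF κ β x θ * Mx θ := by
  have hpi := Real.pi_pos
  have hge := one_sub_exp_ge hx hx4
  have h1e : 0 < 1 - Real.exp (-2 * x) := hx.trans_le hge
  have cF := FF_cont_th κ h hx
  have cK : Continuous fun θ : ℝ => Kf w (Complex.exp (θ * I)) (-1) (-x) :=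
    Pool.Agent.Helper26.EK.Kf_cont hw (by (clear * - hx4; linarith only [hx4])) (by (clear * - hx; linarith))
  have cN := N_comp_cont h hx
  obtain ⟨c, hc⟩ : ∃ c : ℝ, c = -κ * Real.log (1 - Real.exp (-2 * x)) + C +
    (dl + ε) * (-Real.log x) + C₀ * (-Real.log x - n) := ⟨_, rfl⟩
  have hint : ∫ θ in (-π)..π, u θ * FF κ β x θ *
        (Kf w (Complex.exp (θ * I)) (-1) (-x) - κ * Real.log ‖N β (ep (-x) θ)‖) ≤
      ∫ θ in (-π)..π, (c * (u θ * FF κ β x θ) + u θ * FF κ β x θ * Mx θ) := by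
    refine intervalIntegral.integral_mono_on (by linarith only [hpi]) ?_ ?_ ?_
    · exact ((cu.mul cF).mul (cK.sub (continuous_const.mul cN))).intervalIntegrable _ _
    · exact ((continuous_const.mul (cu.mul cF)).add ((cu.mul cF).mul cM)).intervalIntegrable _ _
    · intro θ hθ
      by_cases hu : u θ = 0
      · simp [hu]
      · have h1 := hP θ (us θ hθ hu)
        have hNpos : 0 < ‖N β (ep (-x) θ)‖ := by
          refine norm_pos_iff.2 (h.ne _ ?_)
          rw [mem_ball_zero_iff, norm_ep]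
          have : Real.exp (-x) < 1 := by
            rw [Real.exp_lt_one_iff]
            linarith only [hx]
          exact this.trans h.one_lt
        rw [Real.log_div hNpos.ne' h1e.ne'] at h1
        have h2 : Kf w (Complex.exp (θ * I)) (-1) (-x) - κ * Real.log ‖N β (ep (-x) θ)‖ ≤
            c + Mx θ := by
          rw [hc]
          linarith only [h1]
        have h3 : 0 ≤ u θ * FF κ β x θ := mul_nonneg (u0 θ) (FF_pos κ h hx θ).le
        calc _ ≤ u θ * FF κ β x θ * (c + Mx θ) := mul_le_mul_of_nonneg_left h2 h3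
          _ = _ := by ring
  have hi1 : IntervalIntegrable (fun θ => c * (u θ * FF κ β x θ)) volume (-π) π :=
    (continuous_const.mul (cu.mul cF)).intervalIntegrable _ _
  have hi2 : IntervalIntegrable (fun θ => u θ * FF κ β x θ * Mx θ) volume (-π) π :=
    ((cu.mul cF).mul cM).intervalIntegrable _ _
  rw [intervalIntegral.integral_add hi1 hi2, intervalIntegral.integral_const_mul] at hint
  have h4 : (2 * π)⁻¹ * ∫ θ in (-π)..π, u θ * FF κ β x θ *
        (Kf w (Complex.exp (θ * I)) (-1) (-x) - κ * Real.log ‖N β (ep (-x) θ)‖) ≤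
      c * m + (2 * π)⁻¹ * ∫ θ in (-π)..π, u θ * FF κ β x θ * Mx θ := by
    refine (mul_le_mul_of_nonneg_left hint (by positivity)).trans (le_of_eq ?_)
    rw [hm]
    ring
  have h5 : Real.log x ≤ Real.log (1 - Real.exp (-2 * x)) := Real.log_le_log hx hge
  have h6 : (1 - κ) * Real.log (1 - Real.exp (-2 * x)) ≤ (κ - 1) * (-Real.log x) := by
    (clear * - hκ h5; nlinarith only [hκ, h5])
  have h7 := mul_le_mul_of_nonneg_left h6 hm0.le
  rw [hc] at h4
  linarith only [h4, h7, hE]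

end Pool.Agent.Helper52.CK

end

section

set_option autoImplicit false

open MeasureTheory Set Filter

open scoped Real Topology ContDiff

namespace Pool.Agent.Helper96.CK

/-- the weight of the window around `N` -/
noncomputable def wt (γ δ ε N : ℝ) (χ : ℝ → ℝ) (l : ℝ) : ℝ :=
  Real.exp (-(γ * l) - δ * Real.sqrt (1 + (l - N) ^ 2)) * χ ((l - N) / (ε * N))

lemma sqrt_hasDeriv (N l : ℝ) :
    HasDerivAt (fun l : ℝ => Real.sqrt (1 + (l - N) ^ 2))
      ((l - N) / Real.sqrt (1 + (l - N) ^ 2)) l := by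
  have h1 : HasDerivAt (fun l : ℝ => 1 + (l - N) ^ 2) (2 * (l - N)) l := by
    have := ((hasDerivAt_id l).sub_const N).pow 2
    simp only [id] at this
    have h := this.const_add 1
    refine h.congr_deriv ?_
    simp
  have h2 : (1 + (l - N) ^ 2) ≠ 0 := by (clear * -; positivity)
  have h3 := h1.sqrt h2
  refine h3.congr_deriv ?_
  have : Real.sqrt (1 + (l - N) ^ 2) ≠ 0 := by (clear * -; positivity)
  field_simp

lemma wt_hasDeriv {γ δ ε N : ℝ} {χ : ℝ → ℝ} (hχ : Differentiable ℝ χ) (l : ℝ) :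
    HasDerivAt (wt γ δ ε N χ)
      ((-γ - δ * ((l - N) / Real.sqrt (1 + (l - N) ^ 2))) * wt γ δ ε N χ l +
        Real.exp (-(γ * l) - δ * Real.sqrt (1 + (l - N) ^ 2)) *
          (deriv χ ((l - N) / (ε * N)) / (ε * N))) l := by
  have h1 : HasDerivAt (fun l : ℝ => -(γ * l) - δ * Real.sqrt (1 + (l - N) ^ 2))
      (-γ - δ * ((l - N) / Real.sqrt (1 + (l - N) ^ 2))) l := by
    have a := ((hasDerivAt_id l).const_mul γ).neg
    have b := (sqrt_hasDeriv N l).const_mul δ
    have c := a.sub b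
    refine c.congr_deriv ?_
    simp
  have h2 := h1.exp
  have h3 : HasDerivAt (fun l : ℝ => (l - N) / (ε * N)) (1 / (ε * N)) l :=
    ((hasDerivAt_id l).sub_const N).div_const (ε * N)
  have h4 : HasDerivAt (fun l : ℝ => χ ((l - N) / (ε * N)))
      (deriv χ ((l - N) / (ε * N)) * (1 / (ε * N))) l :=
    (hχ ((l - N) / (ε * N))).hasDerivAt.comp l h3
  have h5 := h2.mul h4
  refine h5.congr_deriv ?_
  unfold wt
  ring

lemma wt_contDiff {γ δ ε N : ℝ} {χ : ℝ → ℝ} (hχ : ContDiff ℝ ∞ χ) :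
    ContDiff ℝ ∞ (wt γ δ ε N χ) := by
  unfold wt
  have h1 : ContDiff ℝ ∞ (fun l : ℝ => Real.sqrt (1 + (l - N) ^ 2)) := by
    refine ContDiff.sqrt (by fun_prop) fun l => ?_
    positivity
  have h2 : ContDiff ℝ ∞ (fun l : ℝ => χ ((l - N) / (ε * N))) :=
    hχ.comp (by fun_prop)
  have h3 : ContDiff ℝ ∞ (fun l : ℝ => -(γ * l) - δ * Real.sqrt (1 + (l - N) ^ 2)) :=
    (contDiff_const.mul contDiff_id).neg.sub (contDiff_const.mul h1)
  exact (Real.contDiff_exp.comp h3).mul h2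

lemma abs_slope (N l : ℝ) : |(l - N) / Real.sqrt (1 + (l - N) ^ 2)| ≤ 1 := by
  rw [abs_div, abs_of_nonneg (Real.sqrt_nonneg _)]
  rw [div_le_one (by (clear * -; positivity))]
  exact Real.abs_le_sqrt (by linarith only [])

lemma abs_le_sqrt' (N l : ℝ) : |l - N| ≤ Real.sqrt (1 + (l - N) ^ 2) :=
  Real.abs_le_sqrt (by (clear * -; linarith only []))

/-- pointwise bound for the derivative of the weight -/
lemma wt_deriv_le {γ δ ε N D : ℝ} {χ : ℝ → ℝ} (hγ : 0 ≤ γ) (hδ : 0 ≤ δ) (hε : 0 < ε) (hN : 0 < N)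
    (hχ : Differentiable ℝ χ) (hχ0 : ∀ x, 0 ≤ χ x) (hD : ∀ x, |deriv χ x| ≤ D)
    (hin : ∀ x, |x| < 1 / 2 → deriv χ x = 0) (l : ℝ) :
    |deriv (wt γ δ ε N χ) l| ≤ (γ + δ) * wt γ δ ε N χ l +
      Real.exp (-(γ * l) - δ * (ε * N / 2)) * (D / (ε * N)) := by
  have hD0 : 0 ≤ D := (abs_nonneg _).trans (hD 0)
  rw [(wt_hasDeriv hχ l).deriv]
  have hw : 0 ≤ wt γ δ ε N χ l := mul_nonneg (Real.exp_pos _).le (hχ0 _)
  refine (abs_add_le _ _).trans (add_le_add ?_ ?_)
  · rw [abs_mul, abs_of_nonneg hw]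
    refine mul_le_mul_of_nonneg_right ?_ hw
    refine (abs_sub _ _).trans ?_
    rw [abs_neg, abs_of_nonneg hγ, abs_mul, abs_of_nonneg hδ]
    have := abs_slope N l
    (clear * - hδ this; nlinarith)
  · rw [abs_mul, abs_of_nonneg (Real.exp_pos _).le, abs_div, abs_of_pos (mul_pos hε hN)]
    by_cases hx : |(l - N) / (ε * N)| < 1 / 2
    · rw [hin _ hx]
      simp only [abs_zero, zero_div, mul_zero]
      positivity
    · push Not at hx
      rw [abs_div, abs_of_pos (mul_pos hε hN), le_div_iff₀ (mul_pos hε hN)] at hx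
      have h1 := abs_le_sqrt' N l
      refine mul_le_mul ?_ ?_ (by positivity) (Real.exp_pos _).le
      · refine Real.exp_le_exp.mpr ?_
        have : δ * (ε * N / 2) ≤ δ * Real.sqrt (1 + (l - N) ^ 2) :=
          mul_le_mul_of_nonneg_left (by linarith only [hx, h1]) hδ
        (clear * - this; linarith)
      · exact div_le_div_of_nonneg_right (hD _) (mul_pos hε hN).le

end Pool.Agent.Helper96.CK

namespace Pool.Agent.Helper96.CK

end Pool.Agent.Helper96.CK

end

section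

set_option autoImplicit false

open MeasureTheory Set Filter

open scoped Real Topology ContDiff

namespace Pool.Agent.Helper96.CK

/-- the pointwise form of Jensen's inequality -/
lemma pointwise_log {a g w γ l : ℝ} (ha : 0 < a) (hw0 : 0 ≤ w) (hw : w ≤ Real.exp (-(γ * l))) :
    Real.exp g * w * (Real.log a + 1 + γ * l) - a ≤ Real.exp g * w * g := by
  rcases hw0.eq_or_lt with h | h
  · rw [← h]; simp [ha.le]
  · set F := Real.exp g * w with hF
    have hF0 : 0 < F := mul_pos (Real.exp_pos _) h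
    have h1 : Real.log F ≤ g - γ * l := by
      rw [hF, Real.log_mul (Real.exp_pos _).ne' h.ne', Real.log_exp]
      have : Real.log w ≤ -(γ * l) := by
        rw [Real.log_le_iff_le_exp h]; exact hw
      linarith only [this]
    have h2 : Real.log (a / F) ≤ a / F - 1 := Real.log_le_sub_one_of_pos (div_pos ha hF0)
    rw [Real.log_div ha.ne' hF0.ne'] at h2
    have h3 : F * (Real.log a - Real.log F) ≤ F * (a / F - 1) :=
      mul_le_mul_of_nonneg_left h2 hF0.le
    have h4 : F * (a / F - 1) = a - F := by (clear * - hF0; field_simp)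
    rw [h4] at h3
    have h5 : F * Real.log F ≤ F * (g - γ * l) := mul_le_mul_of_nonneg_left h1 hF0.le
    linarith only [h3, h5]

section window

variable {ι : Type*} {G : ι → ℝ → ℝ} {A : ℝ}

lemma G_cont (hL : ∀ i l l', 0 ≤ l → 0 ≤ l' → |G i l - G i l'| ≤ A * |l - l'|) (i : ι) :
    ContinuousOn (G i) (Ici 0) := by
  have h : LipschitzOnWith (Real.toNNReal A) (G i) (Ici 0) := by
    refine LipschitzOnWith.of_dist_le_mul fun x hx y hy => ?_
    rw [Real.dist_eq, Real.dist_eq]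
    refine (hL i x y hx hy).trans ?_
    refine mul_le_mul_of_nonneg_right ?_ (abs_nonneg _)
    exact Real.le_coe_toNNReal A
  exact h.continuousOn

/-- lower bound for the integral of `F G` -/
lemma lower_int {n γ : ℝ} (hn : 1 ≤ n) (hγ : 0 ≤ γ)
    (hL : ∀ i l l', 0 ≤ l → 0 ≤ l' → |G i l - G i l'| ≤ A * |l - l'|) (i : ι)
    {w : ℝ → ℝ} (hw : Continuous w) (hw0 : ∀ l, 0 ≤ w l)
    (hwe : ∀ l, w l ≤ Real.exp (-(γ * l)))
    (hJ : 0 < ∫ l in n..(2 * n), Real.exp (G i l) * w l) :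
    (∫ l in n..(2 * n), Real.exp (G i l) * w l) *
        (Real.log (∫ l in n..(2 * n), Real.exp (G i l) * w l) - Real.log n + γ * n) ≤
      ∫ l in n..(2 * n), Real.exp (G i l) * w l * G i l := by
  set J := ∫ l in n..(2 * n), Real.exp (G i l) * w l with hJdef
  have hn0 : 0 < n := by linarith only [hn]
  have hle : n ≤ 2 * n := by linarith only [hn0]
  have hsub : Set.uIcc n (2 * n) ⊆ Ici 0 := by
    rw [Set.uIcc_of_le hle]
    intro x hx
    exact le_trans hn0.le hx.1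
  have cG : ContinuousOn (G i) (Set.uIcc n (2 * n)) := (G_cont hL i).mono hsub
  have cF : ContinuousOn (fun l => Real.exp (G i l) * w l) (Set.uIcc n (2 * n)) :=
    (cG.rexp).mul hw.continuousOn
  have iF : IntervalIntegrable (fun l => Real.exp (G i l) * w l) volume n (2 * n) :=
    cF.intervalIntegrable
  have cl : ContinuousOn (fun l : ℝ => l) (Set.uIcc n (2 * n)) := continuousOn_id
  have h1 : ∫ l in n..(2 * n), (Real.exp (G i l) * w l * (Real.log (J / n) + 1 + γ * n) - J / n) ≤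
      ∫ l in n..(2 * n), Real.exp (G i l) * w l * G i l := by
    refine intervalIntegral.integral_mono_on hle ?_ ?_ ?_
    · exact ((cF.mul continuousOn_const).sub continuousOn_const).intervalIntegrable
    · exact (cF.mul cG).intervalIntegrable
    · intro l hl
      have h2 := pointwise_log (g := G i l) (div_pos hJ hn0) (hw0 l) (hwe l)
      have h3 : 0 ≤ Real.exp (G i l) * w l := mul_nonneg (Real.exp_pos _).le (hw0 l)
      have h4 : γ * n ≤ γ * l := mul_le_mul_of_nonneg_left hl.1 hγ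
      nlinarith only [h2, h3, h4]
  have h2 : ∫ l in n..(2 * n), (Real.exp (G i l) * w l * (Real.log (J / n) + 1 + γ * n) - J / n) =
      J * (Real.log (J / n) + 1 + γ * n) - J := by
    rw [intervalIntegral.integral_sub (iF.mul_const _) (by simp), intervalIntegral.integral_mul_const,
      intervalIntegral.integral_const, smul_eq_mul]
    congr 1
    field_simp
    ring
  rw [h2, Real.log_div hJ.ne' hn0.ne'] at h1
  linarith only [h1]

end window

end Pool.Agent.Helper96.CK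

end

section

set_option autoImplicit false

open MeasureTheory Set Filter

open scoped Real Topology ContDiff

namespace Pool.Agent.Helper96.CK

section window

variable {ι : Type*} {G : ι → ℝ → ℝ} {A : ℝ}

lemma upper_int1 {n N ε ε₁ C₀ C₁ : ℝ} (hn : 1 ≤ n) (hN : n = (1 - ε) * N) (hC₀ : 0 ≤ C₀)
    (hL : ∀ i l l', 0 ≤ l → 0 ≤ l' → |G i l - G i l'| ≤ A * |l - l'|) (i : ι)
    {w : ℝ → ℝ} (hw : Continuous w) (hw0 : ∀ l, 0 ≤ w l)
    (hws : ∀ l, (1 + ε) * N < l → w l = 0) :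
    (∫ l in n..(2 * n), Real.exp (G i l) * w l * (C₁ + ε₁ * n + C₀ * (l - n))) ≤
      (∫ l in n..(2 * n), Real.exp (G i l) * w l) * (C₁ + ε₁ * n + C₀ * (2 * ε * N)) := by
  have hn0 : 0 < n := by (clear * - hn; linarith only [hn])
  have hle : n ≤ 2 * n := by (clear * - hn0; linarith only [hn0])
  have hsub : Set.uIcc n (2 * n) ⊆ Ici 0 := by
    rw [Set.uIcc_of_le hle]
    intro x hx
    exact le_trans hn0.le hx.1
  have cG : ContinuousOn (G i) (Set.uIcc n (2 * n)) := (G_cont hL i).mono hsub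
  have cF : ContinuousOn (fun l => Real.exp (G i l) * w l) (Set.uIcc n (2 * n)) :=
    (cG.rexp).mul hw.continuousOn
  rw [← intervalIntegral.integral_mul_const]
  refine intervalIntegral.integral_mono_on hle ?_ ?_ ?_
  · exact (cF.mul (by fun_prop)).intervalIntegrable
  · exact (cF.mul continuousOn_const).intervalIntegrable
  · intro l hl
    by_cases h : (1 + ε) * N < l
    · simp [hws l h]
    · push Not at h
      refine mul_le_mul_of_nonneg_left ?_ (mul_nonneg (Real.exp_pos _).le (hw0 l))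
      have : C₀ * (l - n) ≤ C₀ * (2 * ε * N) := by
        refine mul_le_mul_of_nonneg_left ?_ hC₀
        rw [hN]; (clear * - h; linarith only [h])
      linarith

lemma upper_int2 {n N γ δ ε D K : ℝ} (hn : 1 ≤ n) (hN : n ≤ N) (hε : 0 < ε) (hD : 0 ≤ D)
    (hL : ∀ i l l', 0 ≤ l → 0 ≤ l' → |G i l - G i l'| ≤ A * |l - l'|) (i : ι)
    (hK : ∀ l, 0 ≤ l → G i l ≤ K + (γ + δ ^ 2) * l)
    {w : ℝ → ℝ} (hw : ContDiff ℝ ∞ w)
    (hwd : ∀ l, |deriv w l| ≤ (γ + δ) * w l +
      Real.exp (-(γ * l) - δ * (ε * N / 2)) * (D / (ε * N))) :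
    (∫ l in n..(2 * n), Real.exp (G i l) * |deriv w l|) ≤
      (γ + δ) * (∫ l in n..(2 * n), Real.exp (G i l) * w l) +
        D / ε * Real.exp (K + 2 * δ ^ 2 * N - δ * (ε * N / 2)) := by
  have hn0 : 0 < n := by (clear * - hn; linarith)
  have hN0 : 0 < N := by (clear * - hn hN; linarith only [hn, hN])
  have hle : n ≤ 2 * n := by linarith
  have hsub : Set.uIcc n (2 * n) ⊆ Ici 0 := by
    rw [Set.uIcc_of_le hle]
    intro x hx
    exact le_trans hn0.le hx.1
  have cG : ContinuousOn (G i) (Set.uIcc n (2 * n)) := (G_cont hL i).mono hsub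
  have cF : ContinuousOn (fun l => Real.exp (G i l) * w l) (Set.uIcc n (2 * n)) :=
    (cG.rexp).mul hw.continuous.continuousOn
  have cd : Continuous (deriv w) := hw.continuous_deriv (by simp)
  have h1 : (∫ l in n..(2 * n), Real.exp (G i l) * |deriv w l|) ≤
      ∫ l in n..(2 * n), ((γ + δ) * (Real.exp (G i l) * w l) +
        Real.exp (K + 2 * δ ^ 2 * N - δ * (ε * N / 2)) * (D / (ε * N))) := by
    refine intervalIntegral.integral_mono_on hle ?_ ?_ ?_
    · exact ((cG.rexp).mul cd.abs.continuousOn).intervalIntegrable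
    · exact ((continuousOn_const.mul cF).add continuousOn_const).intervalIntegrable
    · intro l hl
      have h2 := mul_le_mul_of_nonneg_left (hwd l) (Real.exp_pos (G i l)).le
      have h3 : Real.exp (G i l) * (Real.exp (-(γ * l) - δ * (ε * N / 2)) * (D / (ε * N))) ≤
          Real.exp (K + 2 * δ ^ 2 * N - δ * (ε * N / 2)) * (D / (ε * N)) := by
        rw [← mul_assoc, ← Real.exp_add]
        refine mul_le_mul_of_nonneg_right (Real.exp_le_exp.mpr ?_) (by (clear * - hD hε hN0; positivity))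
        have h4 := hK l (by (clear * - hn hl; linarith [hl.1]))
        have h5 : δ ^ 2 * l ≤ δ ^ 2 * (2 * N) :=
          mul_le_mul_of_nonneg_left (by linarith only [hl.2, hN]) (sq_nonneg δ)
        (clear * - h4 h5; linarith)
      calc _ ≤ _ := h2
        _ = (γ + δ) * (Real.exp (G i l) * w l) + Real.exp (G i l) *
            (Real.exp (-(γ * l) - δ * (ε * N / 2)) * (D / (ε * N))) := by ring
        _ ≤ _ := by linarith only [h3]
  refine h1.trans ?_
  have i1 : IntervalIntegrable (fun l => (γ + δ) * (Real.exp (G i l) * w l)) volume n (2 * n) :=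
    (continuousOn_const.mul cF).intervalIntegrable
  rw [intervalIntegral.integral_add i1 (by simp),
    intervalIntegral.integral_const_mul, intervalIntegral.integral_const, smul_eq_mul]
  refine add_le_add le_rfl ?_
  have h6 : (2 * n - n) * (Real.exp (K + 2 * δ ^ 2 * N - δ * (ε * N / 2)) * (D / (ε * N))) =
      D / ε * Real.exp (K + 2 * δ ^ 2 * N - δ * (ε * N / 2)) * (n / N) := by
    field_simp
    ring
  rw [h6]
  have h7 : n / N ≤ 1 := by rw [div_le_one hN0]; exact hN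
  have h8 : 0 ≤ D / ε * Real.exp (K + 2 * δ ^ 2 * N - δ * (ε * N / 2)) := by (clear * - hD hε; positivity)
  (clear * - h7 h8; nlinarith only [h7, h8])

/-- lower bound for the maximum -/
lemma low_J {n N γ δ ε : ℝ} {χ : ℝ → ℝ} (hε : 0 < ε) (hε3 : ε ≤ 1 / 3) (hεN : 2 ≤ ε * N)
    (hn : n = (1 - ε) * N) (hγ : 0 ≤ γ) (hδ : 0 ≤ δ) (hA : 0 ≤ A)
    (hL : ∀ i l l', 0 ≤ l → 0 ≤ l' → |G i l - G i l'| ≤ A * |l - l'|) (i : ι)
    (hχ : ContDiff ℝ ∞ χ) (hχ0 : ∀ x, 0 ≤ χ x) (hχ1 : ∀ x, |x| ≤ 1 / 2 → χ x = 1)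
    (hG : (γ - δ ^ 2) * N ≤ G i N) :
    2 * Real.exp (-(δ ^ 2 * N) - (A + γ + 2 * δ)) ≤
      ∫ l in n..(2 * n), Real.exp (G i l) * wt γ δ ε N χ l := by
  have hN6 : 6 ≤ N := by (clear * - hε3 hεN hε; nlinarith only [hε, hε3, hεN])
  have hN0 : 0 < N := by linarith only [hN6]
  have hnN : n ≤ N - 1 := by rw [hn]; (clear * - hεN; linarith only [hεN])
  have hn2 : N + 1 ≤ 2 * n := by rw [hn]; (clear * - hε3 hεN hε; nlinarith only [hε, hε3, hεN])
  have hn1 : 1 ≤ n := by linarith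
  have hn0 : 0 < n := by linarith only [hn1]
  have hle : n ≤ 2 * n := by linarith only [hn0]
  have hsub : Set.Icc n (2 * n) ⊆ Ici 0 := by
    intro x hx
    exact le_trans hn0.le hx.1
  have hw := wt_contDiff (γ := γ) (δ := δ) (ε := ε) (N := N) hχ
  have hw0 : ∀ l, 0 ≤ wt γ δ ε N χ l := fun l => mul_nonneg (Real.exp_pos _).le (hχ0 _)
  have cF : ContinuousOn (fun l => Real.exp (G i l) * wt γ δ ε N χ l) (Set.Icc n (2 * n)) :=
    ((G_cont hL i).mono hsub).rexp.mul hw.continuous.continuousOn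
  have iF : ∀ a b, n ≤ a → a ≤ b → b ≤ 2 * n → IntervalIntegrable
      (fun l => Real.exp (G i l) * wt γ δ ε N χ l) volume a b := by
    intro a b h1 h2 h3
    refine ContinuousOn.intervalIntegrable (cF.mono ?_)
    rw [Set.uIcc_of_le h2]
    exact Set.Icc_subset_Icc h1 h3
  have hF0 : ∀ l, 0 ≤ Real.exp (G i l) * wt γ δ ε N χ l := fun l =>
    mul_nonneg (Real.exp_pos _).le (hw0 l)
  rw [← intervalIntegral.integral_add_adjacent_intervals
    (iF n (N - 1) le_rfl hnN (by (clear * - hn2; linarith only [hn2]))) (iF (N - 1) (2 * n) hnN (by (clear * - hn2; linarith only [hn2])) le_rfl),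
    ← intervalIntegral.integral_add_adjacent_intervals
    (iF (N - 1) (N + 1) hnN (by linarith only []) hn2) (iF (N + 1) (2 * n) (by linarith) hn2 le_rfl)]
  have h1 : 0 ≤ ∫ l in n..(N - 1), Real.exp (G i l) * wt γ δ ε N χ l :=
    intervalIntegral.integral_nonneg hnN fun l _ => hF0 l
  have h2 : 0 ≤ ∫ l in (N + 1)..(2 * n), Real.exp (G i l) * wt γ δ ε N χ l :=
    intervalIntegral.integral_nonneg hn2 fun l _ => hF0 l
  have h3 : ∫ _l in (N - 1)..(N + 1), Real.exp (-(δ ^ 2 * N) - (A + γ + 2 * δ)) ≤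
      ∫ l in (N - 1)..(N + 1), Real.exp (G i l) * wt γ δ ε N χ l := by
    refine intervalIntegral.integral_mono_on (by (clear * -; linarith only [])) (by simp)
      (iF (N - 1) (N + 1) hnN (by linarith only []) hn2) ?_
    intro l hl
    have ha : |l - N| ≤ 1 := abs_le.mpr ⟨by linarith only [hl.1], by (clear * - hl; linarith [hl.2])⟩
    have hx : |(l - N) / (ε * N)| ≤ 1 / 2 := by
      rw [abs_div, abs_of_pos (by positivity : 0 < ε * N), div_le_iff₀ (by positivity)]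
      linarith only [hεN, ha]
    have hs : Real.sqrt (1 + (l - N) ^ 2) ≤ 2 := by
      rw [Real.sqrt_le_left (by norm_num)]
      have : (l - N) ^ 2 ≤ 1 := by
        rw [← sq_abs]; (clear * - ha; nlinarith only [abs_nonneg (l - N), ha])
      linarith only [this]
    unfold wt
    rw [hχ1 _ hx, mul_one, ← Real.exp_add]
    refine Real.exp_le_exp.mpr ?_
    have hb := hL i l N (by (clear * - hl hN6; linarith only [hl.1, hN6])) hN0.le
    have hc : G i N - A ≤ G i l := by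
      have := (abs_le.mp hb).1
      (clear * - this hA ha; nlinarith only [hA, ha, this])
    have hd : γ * l ≤ γ * (N + 1) := mul_le_mul_of_nonneg_left hl.2 hγ
    have he : δ * Real.sqrt (1 + (l - N) ^ 2) ≤ δ * 2 := mul_le_mul_of_nonneg_left hs hδ
    linarith only [hG, hc, hd, he]
  have h4 : ∫ _l in (N - 1)..(N + 1), Real.exp (-(δ ^ 2 * N) - (A + γ + 2 * δ)) =
      2 * Real.exp (-(δ ^ 2 * N) - (A + γ + 2 * δ)) := by
    rw [intervalIntegral.integral_const, smul_eq_mul]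
    ring
  linarith only [h1, h2, h3, h4]

end window

end Pool.Agent.Helper96.CK

end

section

set_option autoImplicit false

open MeasureTheory Set Filter

open scoped Real Topology ContDiff

namespace Pool.Agent.Helper96.CK

/-- a smooth bump with bounded derivative -/
lemma exists_bump : ∃ (χ : ℝ → ℝ) (D : ℝ), ContDiff ℝ ∞ χ ∧ (∀ x, 0 ≤ χ x) ∧
    (∀ x, |x| ≤ 1 / 2 → χ x = 1) ∧ (∀ x, χ x ≤ 1) ∧ (∀ x, 1 ≤ |x| → χ x = 0) ∧
    (∀ x, |deriv χ x| ≤ D) ∧ ∀ x, |x| < 1 / 2 → deriv χ x = 0 := by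
  let f : ContDiffBump (0:ℝ) := ⟨1 / 2, 1, by norm_num, by norm_num⟩
  have hc : ContDiff ℝ ∞ (f : ℝ → ℝ) := f.contDiff
  have hcd : Continuous (deriv (f : ℝ → ℝ)) := hc.continuous_deriv (by simp)
  have hcs : HasCompactSupport (deriv (f : ℝ → ℝ)) := f.hasCompactSupport.deriv
  obtain ⟨D, hD⟩ := hcs.exists_bound_of_continuous hcd
  refine ⟨f, D, hc, fun x => f.nonneg, fun x hx => ?_, fun x => f.le_one, fun x hx => ?_,
    fun x => ?_, fun x hx => ?_⟩
  · refine f.one_of_mem_closedBall ?_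
    rw [mem_closedBall_zero_iff, Real.norm_eq_abs]
    exact hx
  · refine f.zero_of_le_dist ?_
    rw [dist_zero_right, Real.norm_eq_abs]
    exact hx
  · have := hD x
    rwa [Real.norm_eq_abs] at this
  · have h1 : (f : ℝ → ℝ) =ᶠ[𝓝 x] fun _ => (1:ℝ) := by
      have : Metric.ball (0:ℝ) (1 / 2) ∈ 𝓝 x := by
        refine Metric.isOpen_ball.mem_nhds ?_
        rw [mem_ball_zero_iff, Real.norm_eq_abs]
        exact hx
      filter_upwards [this] with y hy
      exact f.one_of_mem_closedBall (Metric.ball_subset_closedBall hy)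
    rw [h1.deriv_eq]
    simp

end Pool.Agent.Helper96.CK

end

section

set_option autoImplicit false

open MeasureTheory Set Filter

open scoped Real Topology ContDiff

namespace Pool.Agent.Helper96.CK

/-- the real inequality at the end of the proof -/
lemma arith_end2 {J Rm n N γ δ ε ε₁ θ C₀ C₁ B₁ η S : ℝ} (hJ : 0 < J) (hN : 1 ≤ N)
    (hn : n = (1 - ε) * N) (hn1 : 1 ≤ n) (hγ : 0 ≤ γ) (hδ : 0 ≤ δ) (hε : 0 ≤ ε) (hε₁ : 0 ≤ ε₁) (hθ : 0 ≤ θ)
    (hC₁ : 0 ≤ C₁)
    (hJl : Real.exp (-(δ ^ 2 * N) - B₁) ≤ J) (hη : η ≤ Real.exp (-(δ ^ 2 * N) - B₁))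
    (hRm : Rm ≤ J * S)
    (h : J * (Real.log J - Real.log n + γ * n) ≤
      J * (C₁ + ε₁ * n + C₀ * (2 * ε * N)) + (θ * n + C₁) * ((γ + δ) * J + Rm) + η) :
    N * (γ * (1 - ε) - δ ^ 2 - ε₁ - 2 * C₀ * ε - θ * (γ + δ)) ≤
      C₁ + B₁ + Real.log N + C₁ * (γ + δ) + 1 + (θ * N + C₁) * max S 0 := by
  have hnN : n ≤ N := by rw [hn]; nlinarith only [hN, hε]
  have hlogJ : -(δ ^ 2 * N) - B₁ ≤ Real.log J := by
    rw [Real.le_log_iff_exp_le hJ]; exact hJl
  have hlogn : Real.log n ≤ Real.log N := Real.log_le_log (by (clear * - hn1; linarith only [hn1])) hnN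
  have h0 : 0 ≤ θ * n + C₁ := by (clear * - hθ hn1 hC₁; positivity)
  have h1 : (θ * n + C₁) * ((γ + δ) * J + Rm) ≤ J * ((θ * n + C₁) * ((γ + δ) + max S 0)) := by
    have : (γ + δ) * J + Rm ≤ J * ((γ + δ) + max S 0) := by
      have : J * S ≤ J * max S 0 := mul_le_mul_of_nonneg_left (le_max_left _ _) hJ.le
      linarith only [hRm, this]
    calc _ ≤ (θ * n + C₁) * (J * ((γ + δ) + max S 0)) := mul_le_mul_of_nonneg_left this h0
      _ = _ := by ring
  have h2 : η ≤ J * 1 := by (clear * - hJl hη; linarith only [hJl, hη])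
  have h3 : J * (Real.log J - Real.log n + γ * n) ≤
      J * (C₁ + ε₁ * n + C₀ * (2 * ε * N) + (θ * n + C₁) * ((γ + δ) + max S 0) + 1) := by
    linarith only [h, h1, h2]
  have h4 := le_of_mul_le_mul_left h3 hJ
  have hm : 0 ≤ max S 0 := le_max_right _ _
  have h5 : (θ * n + C₁) * ((γ + δ) + max S 0) ≤ (θ * N + C₁) * ((γ + δ) + max S 0) := by
    refine mul_le_mul_of_nonneg_right ?_ (by (clear * - hγ hδ; positivity))
    nlinarith only [hθ, hnN]
  have h6 : ε₁ * n ≤ ε₁ * N := mul_le_mul_of_nonneg_left hnN hε₁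
  have h7 : γ * n = γ * (1 - ε) * N := by rw [hn]; ring
  (clear * - hlogJ hlogn h4 h5 h6 h7; linarith only [hlogJ, hlogn, h4, h5, h6, h7])

/-- one window: the inequality which will be violated for large `N` -/
lemma one_window2 {ι : Type*} {G : ι → ℝ → ℝ} {A θ C₀ C₁ K γ δ ε ε₁ D N : ℝ} {χ : ℝ → ℝ}
    (hA0 : 0 ≤ A)
    (hL : ∀ i l l', 0 ≤ l → 0 ≤ l' → |G i l - G i l'| ≤ A * |l - l'|)
    (hε₁ : 0 ≤ ε₁) (hθ0 : 0 ≤ θ) (hC₀ : 0 ≤ C₀) (hC₁ : 0 ≤ C₁) (hγ : 0 ≤ γ)
    (hδ : δ = ε / 12) (hε : 0 < ε) (hε3 : ε ≤ 1 / 3) (hεN : 2 ≤ ε * N)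
    (hχ : ContDiff ℝ ∞ χ) (hχ0 : ∀ x, 0 ≤ χ x) (hχ1 : ∀ x, |x| ≤ 1 / 2 → χ x = 1)
    (hχle : ∀ x, χ x ≤ 1) (hχs : ∀ x, 1 ≤ |x| → χ x = 0)
    (hD : ∀ x, |deriv χ x| ≤ D) (hin : ∀ x, |x| < 1 / 2 → deriv χ x = 0)
    (hK : ∀ i l, 0 ≤ l → G i l ≤ K + (γ + δ ^ 2) * l)
    {i₀ : ι} (hG : (γ - δ ^ 2) * N ≤ G i₀ N)
    (H : ∀ n : ℝ, 1 ≤ n → ∀ w : ℝ → ℝ, ContDiff ℝ ∞ w →
      (∀ l, 0 ≤ w l) → (∀ l, l ∉ Set.Icc n (2 * n) → w l = 0) → (∃ l, 0 < w l) →
      ∀ η : ℝ, 0 < η → ∃ i,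
        (∀ j, (1 - η) * ∫ l in n..(2 * n), Real.exp (G j l) * w l ≤
          ∫ l in n..(2 * n), Real.exp (G i l) * w l) ∧
        ∫ l in n..(2 * n), Real.exp (G i l) * w l * G i l ≤
          (∫ l in n..(2 * n), Real.exp (G i l) * w l * (C₁ + ε₁ * n + C₀ * (l - n))) +
            (θ * n + C₁) * (∫ l in n..(2 * n), Real.exp (G i l) * |deriv w l|) + η) :
    N * (γ * (1 - ε) - δ ^ 2 - ε₁ - 2 * C₀ * ε - θ * (γ + δ)) ≤
      C₁ + (A + γ + 2 * δ) + Real.log N + C₁ * (γ + δ) + 1 +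
        (θ * N + C₁) * (D / ε * Real.exp (K + (A + γ + 2 * δ) - δ * ε / 4 * N)) := by
  have hδ0 : 0 ≤ δ := by rw [hδ]; (clear * - hε; positivity)
  have hD0 : 0 ≤ D := (abs_nonneg _).trans (hD 0)
  have hN6 : 6 ≤ N := by nlinarith only [hε, hε3, hεN]
  have hN0 : 0 < N := by linarith only [hN6]
  obtain ⟨n, hn⟩ : ∃ n, n = (1 - ε) * N := ⟨_, rfl⟩
  have hnN : n ≤ N - 1 := by rw [hn]; (clear * - hεN; linarith only [hεN])
  have hn2 : N + 1 ≤ 2 * n := by rw [hn]; (clear * - hε3 hεN hε; nlinarith only [hε, hε3, hεN])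
  have hn1 : 1 ≤ n := by linarith only [hnN, hn2]
  have hn0 : 0 < n := by linarith only [hn1]
  have hle : n ≤ 2 * n := by linarith only [hn0]
  have hpos : 0 < ε * N := by (clear * - hε hN6; positivity)
  set w := wt γ δ ε N χ with hwdef
  have hw : ContDiff ℝ ∞ w := wt_contDiff hχ
  have hw0 : ∀ l, 0 ≤ w l := fun l => mul_nonneg (Real.exp_pos _).le (hχ0 _)
  have hws1 : ∀ l, (1 + ε) * N < l → w l = 0 := by
    intro l hl
    have : 1 ≤ |(l - N) / (ε * N)| := by
      rw [abs_div, abs_of_pos hpos, le_div_iff₀ hpos, one_mul]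
      refine le_trans ?_ (le_abs_self _)
      linarith only [hl]
    simp [hwdef, wt, hχs _ this]
  have hws2 : ∀ l, l < n → w l = 0 := by
    intro l hl
    have : 1 ≤ |(l - N) / (ε * N)| := by
      rw [abs_div, abs_of_pos hpos, le_div_iff₀ hpos, one_mul]
      refine le_trans ?_ (neg_le_abs _)
      rw [hn] at hl
      (clear * - hl; linarith only [hl])
    simp [hwdef, wt, hχs _ this]
  have hws : ∀ l, l ∉ Set.Icc n (2 * n) → w l = 0 := by
    intro l hl
    rw [Set.mem_Icc, not_and_or, not_le, not_le] at hl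
    rcases hl with h | h
    · exact hws2 l h
    · refine hws1 l (lt_of_le_of_lt ?_ h)
      rw [hn]
      (clear * - hε3 hε hεN; nlinarith only [hε, hε3, hεN])
  have hwp : ∃ l, 0 < w l := by
    refine ⟨N, ?_⟩
    have : χ ((N - N) / (ε * N)) = 1 := hχ1 _ (by simp)
    simp only [hwdef, wt, this, mul_one]
    exact Real.exp_pos _
  have hwe : ∀ l, w l ≤ Real.exp (-(γ * l)) := by
    intro l
    calc w l ≤ Real.exp (-(γ * l) - δ * Real.sqrt (1 + (l - N) ^ 2)) * 1 :=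
          mul_le_mul_of_nonneg_left (hχle _) (Real.exp_pos _).le
      _ ≤ Real.exp (-(γ * l)) := by
          rw [mul_one]
          refine Real.exp_le_exp.mpr ?_
          have : 0 ≤ δ * Real.sqrt (1 + (l - N) ^ 2) := by (clear * - hδ0; positivity)
          linarith only [this]
  have hwd : ∀ l, |deriv w l| ≤ (γ + δ) * w l +
      Real.exp (-(γ * l) - δ * (ε * N / 2)) * (D / (ε * N)) := fun l =>
    wt_deriv_le hγ hδ0 hε hN0 (hχ.differentiable (by simp)) hχ0 hD hin l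
  set B₁ := A + γ + 2 * δ with hB₁
  obtain ⟨η, hη⟩ : ∃ η, η = min (1 / 2) (Real.exp (-(δ ^ 2 * N) - B₁)) := ⟨_, rfl⟩
  have hη0 : 0 < η := by rw [hη]; exact lt_min (by norm_num) (Real.exp_pos _)
  have hη1 : η ≤ 1 / 2 := by rw [hη]; exact min_le_left _ _
  have hη2 : η ≤ Real.exp (-(δ ^ 2 * N) - B₁) := by rw [hη]; exact min_le_right _ _
  obtain ⟨i, hi1, hi2⟩ := H n hn1 w hw hw0 hws hwp η hη0
  have hlow := low_J (A := A) hε hε3 hεN hn hγ hδ0 hA0 hL i₀ hχ hχ0 hχ1 hG
  set J := ∫ l in n..(2 * n), Real.exp (G i l) * w l with hJdef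
  have hJl : Real.exp (-(δ ^ 2 * N) - B₁) ≤ J := by
    have h1 := hi1 i₀
    have h2 : (1 - η) * (2 * Real.exp (-(δ ^ 2 * N) - B₁)) ≤
        (1 - η) * ∫ l in n..(2 * n), Real.exp (G i₀ l) * w l :=
      mul_le_mul_of_nonneg_left hlow (by linarith only [hη1])
    have h3 : Real.exp (-(δ ^ 2 * N) - B₁) ≤ (1 - η) * (2 * Real.exp (-(δ ^ 2 * N) - B₁)) := by
      have := Real.exp_pos (-(δ ^ 2 * N) - B₁)
      (clear * - hη1 this; nlinarith only [hη1, this])
    linarith only [h1, h2, h3]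
  have hJ0 : 0 < J := lt_of_lt_of_le (Real.exp_pos _) hJl
  have h1 := lower_int hn1 hγ hL i hw.continuous hw0 hwe hJ0
  have h2 := upper_int1 (ε₁ := ε₁) (C₁ := C₁) hn1 hn hC₀ hL i hw.continuous hw0 hws1
  have h3 := upper_int2 hn1 (by linarith only [hnN] : n ≤ N) hε hD0 hL i (hK i) hw hwd
  rw [← hJdef] at h1 h2 h3
  set Rm := D / ε * Real.exp (K + 2 * δ ^ 2 * N - δ * (ε * N / 2)) with hRm
  have hS : Rm ≤ J * (D / ε * Real.exp (K + B₁ - δ * ε / 4 * N)) := by
    have h4 : Rm = Real.exp (-(δ ^ 2 * N) - B₁) *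
        (D / ε * Real.exp (K + B₁ - δ * ε / 4 * N)) := by
      rw [hRm, mul_left_comm, ← Real.exp_add]
      congr 2
      rw [hδ]
      ring
    rw [h4]
    exact mul_le_mul_of_nonneg_right hJl (by (clear * - hD0 hε; positivity))
  have h0 : 0 ≤ θ * n + C₁ := by (clear * - hθ0 hn1 hC₁; positivity)
  have hfin : J * (Real.log J - Real.log n + γ * n) ≤
      J * (C₁ + ε₁ * n + C₀ * (2 * ε * N)) + (θ * n + C₁) * ((γ + δ) * J + Rm) + η := by
    have h5 := mul_le_mul_of_nonneg_left h3 h0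
    linarith only [hi2, h1, h2, h5]
  have hend := arith_end2 (B₁ := B₁) hJ0 (by linarith only [hnN, hn2]) hn hn1 hγ hδ0 hε.le hε₁ hθ0 hC₁ hJl hη2 hS hfin
  rw [max_eq_left (by (clear * - hD0 hε; positivity))] at hend
  exact hend

end Pool.Agent.Helper96.CK

end

section

set_option autoImplicit false

open MeasureTheory Set Filter

open scoped Real Topology ContDiff

namespace Pool.Agent.Helper96.CK

/-- the hypothesis at one `ε₁` -/
def WindowAt {ι : Type*} (G : ι → ℝ → ℝ) (θ C₀ ε₁ : ℝ) : Prop :=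
  ∃ C₁ : ℝ, 0 ≤ C₁ ∧ ∀ n : ℝ, 1 ≤ n → ∀ w : ℝ → ℝ, ContDiff ℝ ∞ w →
    (∀ l, 0 ≤ w l) → (∀ l, l ∉ Set.Icc n (2 * n) → w l = 0) → (∃ l, 0 < w l) →
    ∀ η : ℝ, 0 < η → ∃ i,
      (∀ j, (1 - η) * ∫ l in n..(2 * n), Real.exp (G j l) * w l ≤
        ∫ l in n..(2 * n), Real.exp (G i l) * w l) ∧
      ∫ l in n..(2 * n), Real.exp (G i l) * w l * G i l ≤
        (∫ l in n..(2 * n), Real.exp (G i l) * w l * (C₁ + ε₁ * n + C₀ * (l - n))) +
          (θ * n + C₁) * (∫ l in n..(2 * n), Real.exp (G i l) * |deriv w l|) + η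

/-- **Exponent bookkeeping.** -/
theorem exp_lemma3 {θ C₀ : ℝ} (hθ0 : 0 ≤ θ) (hθ : θ < 1) (hC₀ : 0 ≤ C₀) :
    ∀ e : ℝ, 0 < e → ∃ ε₁ : ℝ, 0 < ε₁ ∧ ∀ {ι : Type} {G : ι → ℝ → ℝ} {A : ℝ}, 0 ≤ A →
      (∀ i, G i 0 ≤ A) →
      (∀ i l l', 0 ≤ l → 0 ≤ l' → |G i l - G i l'| ≤ A * |l - l'|) →
      WindowAt G θ C₀ ε₁ → ∃ K : ℝ, ∀ i l, 0 ≤ l → G i l ≤ K + e * l := by
  intro e he
  have h1θ : 0 < 1 - θ := by (clear * - hθ; linarith)
  obtain ⟨ε₁, hε₁def⟩ : ∃ ε₁, ε₁ = e * (1 - θ) / 4 := ⟨_, rfl⟩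
  have hε₁ : 0 < ε₁ := by rw [hε₁def]; (clear * - he hθ; positivity)
  refine ⟨ε₁, hε₁, ?_⟩
  intro ι G A hA0 hA hL H
  by_contra hcon
  push Not at hcon
  set E : Set ℝ := {e | 0 ≤ e ∧ ∃ K : ℝ, ∀ i l, 0 ≤ l → G i l ≤ K + e * l} with hE
  have hup : ∀ a b, a ∈ E → a ≤ b → b ∈ E := by
    rintro a b ⟨ha, K, hK⟩ hab
    refine ⟨ha.trans hab, K, fun i l hl => (hK i l hl).trans ?_⟩
    have := mul_le_mul_of_nonneg_right hab hl
    (clear * - this; linarith)
  have hAE : A ∈ E := by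
    refine ⟨hA0, A, fun i l hl => ?_⟩
    have h1 := (abs_le.mp (hL i l 0 hl le_rfl)).2
    rw [sub_zero, abs_of_nonneg hl] at h1
    (clear * - h1 hA; linarith [hA i])
  have hbdd : BddBelow E := ⟨0, fun x hx => hx.1⟩
  obtain ⟨γ, hγdef⟩ : ∃ γ, γ = sInf E := ⟨_, rfl⟩
  have hγe : e ≤ γ := by
    rw [hγdef]
    refine le_csInf ⟨A, hAE⟩ fun a ha => ?_
    by_contra hlt
    push Not at hlt
    obtain ⟨-, K, hK⟩ := hup a e ha hlt.le
    obtain ⟨i, l, hl, h⟩ := hcon K
    exact absurd (hK i l hl) (not_le.mpr h)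
  have hγ0 : 0 < γ := lt_of_lt_of_le he hγe
  -- the parameters
  obtain ⟨C₁, hC₁, HC⟩ := H
  have hε₁γ : ε₁ ≤ γ * (1 - θ) / 4 := by
    rw [hε₁def]
    have := mul_le_mul_of_nonneg_right hγe h1θ.le
    linarith
  set ε : ℝ := min (1 / 3) (γ * (1 - θ) / (4 * (γ + 3 + 2 * C₀))) with hεdef
  have hden : 0 < γ + 3 + 2 * C₀ := by (clear * - hγ0 hC₀; positivity)
  have hε : 0 < ε := by
    rw [hεdef]
    exact lt_min (by norm_num) (by (clear * - hγ0 hθ hC₀; positivity))
  have hε3 : ε ≤ 1 / 3 := min_le_left _ _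
  have hε4 : ε * (γ + 3 + 2 * C₀) ≤ γ * (1 - θ) / 4 := by
    have : ε ≤ γ * (1 - θ) / (4 * (γ + 3 + 2 * C₀)) := min_le_right _ _
    rw [le_div_iff₀ (by positivity)] at this
    linarith only [this]
  set δ : ℝ := ε / 12 with hδdef
  have hδ0 : 0 < δ := by (clear * - hγ0 hθ hC₀; positivity)
  have hδε : δ ≤ ε / 12 := le_rfl
  have hδsq : δ ^ 2 ≤ ε := by
    rw [hδdef]; (clear * - hε hε3; nlinarith only [hε, hε3])
  have hεγ : ε < γ := by
    have h1 : ε * 3 ≤ ε * (γ + 3 + 2 * C₀) := mul_le_mul_of_nonneg_left (by linarith only [hC₀, he, hγe]) hε.le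
    have h2 : γ * (1 - θ) / 4 ≤ γ / 4 := by nlinarith only [hθ0, he, hγe]
    linarith only [hε4, hδ0, hδε, h1, h2]
  set β : ℝ := γ * (1 - ε) - δ ^ 2 - ε₁ - 2 * C₀ * ε - θ * (γ + δ) with hβdef
  have hβ : 0 < β := by
    have h1 : θ * δ ≤ ε := by
      have : θ * δ ≤ 1 * δ := mul_le_mul_of_nonneg_right hθ.le hδ0.le
      linarith only [hδdef, hδ0, this]
    have h2 : 0 < γ * (1 - θ) / 4 := by (clear * - hγ0 hθ; positivity)
    have h3 : β = γ * (1 - θ) - ε₁ - (ε * (γ + 2 * C₀) + δ ^ 2 + θ * δ) := by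
      rw [hβdef]; ring
    have h4 : ε * (γ + 3 + 2 * C₀) = ε * (γ + 2 * C₀) + 3 * ε := by ring
    (clear * - hε₁γ hε4 hδ0 hδε hδsq h1 h2; linarith only [hε₁γ, hε4, hδ0, hδε, hδsq, h1, h2])
  -- upper bound
  have hplus : γ + δ ^ 2 ∈ E := by
    have : sInf E < γ + δ ^ 2 := by rw [← hγdef]; (clear * - hδ0; nlinarith only [hδ0])
    obtain ⟨a, ha, hlt⟩ := exists_lt_of_csInf_lt ⟨A, hAE⟩ this
    exact hup a _ ha hlt.le
  obtain ⟨-, K, hK⟩ := hplus
  have hminus : γ - δ ^ 2 ∉ E := by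
    intro hm
    have h1 := csInf_le hbdd hm
    rw [← hγdef] at h1
    nlinarith only [hδ0, h1]
  obtain ⟨χ, D, b1, b2, b3, b4, b5, b6, b7⟩ := exists_bump
  have hD0 : 0 ≤ D := (abs_nonneg _).trans (b6 0)
  set Q : ℝ := C₁ + (A + γ + 2 * δ) + C₁ * (γ + δ) + 1 with hQ
  set S : ℝ → ℝ := fun N => D / ε * Real.exp (K + (A + γ + 2 * δ) - δ * ε / 4 * N) with hS
  have hSlim : Tendsto S atTop (𝓝 0) := by
    have h1 : Tendsto (fun N : ℝ => K + (A + γ + 2 * δ) - δ * ε / 4 * N) atTop atBot := by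
      refine tendsto_const_nhds.add_atBot ?_ |>.congr fun N => (sub_eq_add_neg _ _).symm
      exact tendsto_neg_atTop_atBot.comp
        (tendsto_id.const_mul_atTop (by (clear * - hγ0 hθ hC₀; positivity) : 0 < δ * ε / 4))
    have h2 := (Real.tendsto_exp_atBot.comp h1).const_mul (D / ε)
    simpa using h2
  have e1 : ∀ᶠ N in atTop, Real.log N ≤ β / 8 * N := by
    have := Real.isLittleO_log_id_atTop.bound (show (0:ℝ) < β / 8 by (clear * - hβ; positivity))
    filter_upwards [this, eventually_ge_atTop (1:ℝ)] with N h1 h2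
    simp only [id, Real.norm_eq_abs] at h1
    rw [abs_of_nonneg (by (clear * - h2; linarith only [h2]) : (0:ℝ) ≤ N)] at h1
    exact (le_abs_self _).trans h1
  have e2 : ∀ᶠ N in atTop, Q ≤ β / 8 * N :=
    (tendsto_id.const_mul_atTop (by (clear * - hβ; positivity) : 0 < β / 8)).eventually_ge_atTop Q
  have e3 : ∀ᶠ N in atTop, θ * S N ≤ β / 8 := by
    have h1 : Tendsto (fun N => θ * S N) atTop (𝓝 (θ * 0)) := hSlim.const_mul θ
    rw [mul_zero] at h1
    exact h1.eventually_le_const (by (clear * - hβ; positivity))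
  have e4 : ∀ᶠ N in atTop, C₁ * S N ≤ β / 8 := by
    have h1 : Tendsto (fun N => C₁ * S N) atTop (𝓝 (C₁ * 0)) := hSlim.const_mul C₁
    rw [mul_zero] at h1
    exact h1.eventually_le_const (by (clear * - hβ; positivity))
  obtain ⟨N₀, hN₀⟩ := eventually_atTop.mp (e1.and (e2.and (e3.and (e4.and
    ((tendsto_id.const_mul_atTop hε).eventually_ge_atTop (2:ℝ) |>.and
      (eventually_ge_atTop (1:ℝ)))))))
  obtain ⟨i₀, N, hN0, hNG⟩ : ∃ i₀ N, 0 ≤ N ∧ |K| + 2 * δ ^ 2 * |N₀| + (γ - δ ^ 2) * N < G i₀ N := by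
    by_contra hno
    push Not at hno
    exact hminus ⟨by linarith only [hδsq, hεγ], |K| + 2 * δ ^ 2 * |N₀|, fun i l hl => hno i l hl⟩
  have hNN : N₀ ≤ N := by
    have h1 := hK i₀ N hN0
    have h2 : 2 * δ ^ 2 * |N₀| < 2 * δ ^ 2 * N := by
      have := le_abs_self K
      linarith only [hNG, h1, this]
    have h3 : |N₀| < N := lt_of_mul_lt_mul_left h2 (by (clear * - hγ0 hθ hC₀; positivity))
    exact (le_abs_self _).trans h3.le
  obtain ⟨f1, f2, f3, f4, f5, f6⟩ := hN₀ N hNN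
  have hG : (γ - δ ^ 2) * N ≤ G i₀ N := by
    have : 0 ≤ |K| + 2 * δ ^ 2 * |N₀| := by (clear * - hγ0 hθ hC₀; positivity)
    linarith only [hNG, this]
  have f5' : 2 ≤ ε * N := f5
  have hmain := one_window2 hA0 hL hε₁.le hθ0 hC₀ hC₁ hγ0.le hδdef hε hε3 f5' b1 b2 b3 b4 b5 b6 b7 hK hG HC
  have hS0 : 0 ≤ S N := by simp only [hS]; (clear * - hD0 hγ0 hθ hC₀; positivity)
  have g1 : (θ * N + C₁) * S N ≤ β / 8 * N + β / 8 := by
    have : θ * S N * N ≤ β / 8 * N := mul_le_mul_of_nonneg_right f3 hN0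
    nlinarith only [f3, f4, f6]
  have g2 : N * β ≤ Q + Real.log N + (θ * N + C₁) * S N := by
    rw [← hβdef] at hmain
    simp only [hS, hQ]
    linarith only [hmain]
  nlinarith only [hβ, f1, f2, f3, f4, f6, hmain]

end Pool.Agent.Helper96.CK

end

section

namespace Pool.Agent.Helper39.Area
end Pool.Agent.Helper39.Area
namespace Pool.Agent.Helper52.EK
end Pool.Agent.Helper52.EK
namespace Pool.Agent.Helper9.EK
end Pool.Agent.Helper9.EK

set_option autoImplicit false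

open Complex MeasureTheory Metric Set

open scoped Real ComplexConjugate ContDiff

namespace Pool.Agent.Helper52.CK

open Pool.Agent.Helper39.Area Pool.Agent.Helper52.EK Pool.Agent.Helper9.EK

/-- continuity of the term of the multiplier in the target -/
def MContStmt (κ dl : ℝ) : Prop :=
  ∀ (a b : ℝ), 0 < a → a < b → b ≤ 1 / 4 → ∀ (β : ℂ → ℂ) (R : ℝ), ExtR β R →
    ∀ (W0 : ℂ → ℝ) (Mh : ℂ → ℂ) (Mb : ℝ), Cutf b W0 →
      ContinuousOn Mh {z | 0 < ‖z‖ ∧ ‖z‖ < 1} → (∀ z, ‖Mh z‖ ≤ Mb) →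
      ContinuousOn (fun p : ℝ × ℝ => MM κ dl W0 Mh β p.1 p.2) (Icc a b ×ˢ Icc (-(1 / 2)) (1 / 2))

/-- the truncated term -/
noncomputable def Mc (κ dl a b : ℝ) (W0 : ℂ → ℝ) (Mh : ℂ → ℂ) (β : ℂ → ℂ) (x θ : ℝ) : ℝ :=
  MM κ dl W0 Mh β (max a (min x b)) (max (-(1 / 2)) (min θ (1 / 2)))

theorem Mc_cont {κ dl a b : ℝ} (hab : a ≤ b) {W0 : ℂ → ℝ} {Mh : ℂ → ℂ} {β : ℂ → ℂ}
    (h : ContinuousOn (fun p : ℝ × ℝ => MM κ dl W0 Mh β p.1 p.2)
      (Icc a b ×ˢ Icc (-(1 / 2)) (1 / 2))) :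
    Continuous (fun q : ℝ × ℝ => Mc κ dl a b W0 Mh β q.1 q.2) := by
  have h1 : Continuous (fun q : ℝ × ℝ => (max a (min q.1 b), max (-(1 / 2)) (min q.2 (1 / 2)))) := by
    fun_prop
  have h2 : ∀ q : ℝ × ℝ, (max a (min q.1 b), max (-(1 / 2)) (min q.2 (1 / 2))) ∈
      Icc a b ×ˢ Icc (-(1 / 2) : ℝ) (1 / 2) := by
    intro q
    refine Set.mk_mem_prod ?_ ?_
    · exact ⟨le_max_left _ _, max_le hab (min_le_right _ _)⟩
    · exact ⟨le_max_left _ _, max_le (by norm_num) (min_le_right _ _)⟩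
  have h3 := h.comp_continuous h1 h2
  unfold Mc
  exact h3

theorem Mc_eq {κ dl a b : ℝ} {W0 : ℂ → ℝ} {Mh : ℂ → ℂ} {β : ℂ → ℂ} {x θ : ℝ} (hx : a ≤ x)
    (hx2 : x ≤ b) (hθ : |θ| ≤ 1 / 2) : Mc κ dl a b W0 Mh β x θ = MM κ dl W0 Mh β x θ := by
  unfold Mc
  obtain ⟨h1, h2⟩ := abs_le.1 hθ
  rw [min_eq_left hx2, max_eq_right hx, min_eq_left h2, max_eq_right h1]

section JJs

variable {κ dl n : ℝ} {w : ℝ → ℝ} {u : ℝ → ℝ} {β : ℂ → ℂ} {R : ℝ}

theorem two_pi_mm (l : ℝ) : ∫ θ in (-π)..π, u θ * FF κ β (Real.exp (-l)) θ =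
    2 * π * mm κ u β l := by
  have hpi := Real.pi_pos
  unfold mm
  (clear * -; field_simp)

theorem JJ_eq (h : ExtR β R) (cu : Continuous u) (u0 : ∀ θ, 0 ≤ u θ) (hu : 0 < u 0)
    (hn : 0 ≤ n) :
    JJ κ (omw w (κ - 2 + dl)) u (Real.exp (-(2 * n + 2))) (Real.exp (-(n + 2))) β =
      2 * π * ∫ l in n..(2 * n), Real.exp (GG κ dl u β l) * w l := by
  unfold JJ
  have e1 : (fun x θ => omw w (κ - 2 + dl) x * u θ * FF κ β x θ) =
      fun x θ => omw w (κ - 2 + dl) x * (u θ * FF κ β x θ) := by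
    funext x θ
    ring
  rw [e1, RR_omw hn, ← intervalIntegral.integral_const_mul]
  refine intervalIntegral.integral_congr fun l _ => ?_
  rw [two_pi_mm, exp_GG (mm_pos h cu u0 hu _)]
  have e2 : κ - 2 + dl + 1 = κ - 1 + dl := by ring
  rw [e2]
  ring

theorem JD_eq (h : ExtR β R) (cu : Continuous u) (u0 : ∀ θ, 0 ≤ u θ) (hu : 0 < u 0)
    (hn : 0 ≤ n) :
    RR (Real.exp (-(2 * n + 2))) (Real.exp (-(n + 2))) (fun x θ =>
      |(κ - 2 + dl) * omw w (κ - 2 + dl) x - x * omw' w (κ - 2 + dl) x| * u θ * FF κ β x θ) =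
      2 * π * ∫ l in n..(2 * n), Real.exp (GG κ dl u β l) * |deriv w l| := by
  have e1 : (fun x θ => |(κ - 2 + dl) * omw w (κ - 2 + dl) x - x * omw' w (κ - 2 + dl) x| *
      u θ * FF κ β x θ) = fun x θ => |(κ - 2 + dl) * omw w (κ - 2 + dl) x -
      x * omw' w (κ - 2 + dl) x| * (u θ * FF κ β x θ) := by
    funext x θ
    ring
  rw [e1, RR_omw_abs hn, ← intervalIntegral.integral_const_mul]
  refine intervalIntegral.integral_congr fun l _ => ?_
  rw [two_pi_mm, exp_GG (mm_pos h cu u0 hu _)]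
  have e2 : κ - 2 + dl + 1 = κ - 1 + dl := by ring
  rw [e2]
  ring

/-- the angular term is dominated by rotations -/
theorem JU_le {om om' u' : ℝ → ℝ} {a b : ℝ} (h : ExtR β R) (hW : Wt om om' u u' a b)
    {K : ℕ} {Cu : ℝ} (hCu : 0 ≤ Cu)
    (cov : ∀ θ, |u' θ| ≤ Cu * ∑ j ∈ Finset.range K, u (θ + 2 * π * j / K)) :
    RR a b (fun x θ => om x * |u' θ| * FF κ β x θ) ≤
      Cu * ∑ j ∈ Finset.range K, JJ κ om u a b (rotβ β (-(2 * π * j / K))) := by
  have co : Continuous om := continuous_iff_continuousAt.2 fun x => (hW.dom x).continuousAt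
  have cu : Continuous u := continuous_iff_continuousAt.2 fun x => (hW.du x).continuousAt
  have cF := FF_cont κ h hW.a0
  have com : Continuous (fun q : ℝ × ℝ => om (max a q.1)) := by fun_prop
  have h1 : RR a b (fun x θ => om x * |u' θ| * FF κ β x θ) ≤ RR a b (fun x θ =>
      Cu * ∑ j ∈ Finset.range K, om x * u (θ + 2 * π * j / K) * FF κ β x θ) := by
    refine RR_mono hW.ab.le ?_ ?_ ?_
    · have : Continuous (fun q : ℝ × ℝ => |u' q.2|) := (hW.cu.comp continuous_snd).abs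
      exact (com.mul this).mul cF
    · refine continuous_const.mul (continuous_finsetSum _ fun j _ => ?_)
      have : Continuous (fun q : ℝ × ℝ => u (q.2 + 2 * π * j / K)) := by fun_prop
      exact (com.mul this).mul cF
    · intro x θ hx _
      have hF := (FF_pos κ h (hW.a0.trans_le hx) θ).le
      have hc := cov θ
      have h2 : om x * FF κ β x θ * |u' θ| ≤ om x * FF κ β x θ *
          (Cu * ∑ j ∈ Finset.range K, u (θ + 2 * π * j / K)) :=
        mul_le_mul_of_nonneg_left hc (mul_nonneg (hW.om0 x) hF)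
      have e : Cu * ∑ j ∈ Finset.range K, om x * u (θ + 2 * π * j / K) * FF κ β x θ =
          om x * FF κ β x θ * (Cu * ∑ j ∈ Finset.range K, u (θ + 2 * π * j / K)) := by
        rw [Finset.mul_sum, Finset.mul_sum, Finset.mul_sum]
        refine Finset.sum_congr rfl fun j _ => ?_
        ring
      rw [e]
      calc om x * |u' θ| * FF κ β x θ = om x * FF κ β x θ * |u' θ| := by ring
        _ ≤ _ := h2
  rw [RR_sum hW.ab.le K Cu (F := fun j x θ => om x * u (θ + 2 * π * j / K) * FF κ β x θ)] at h1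
  · refine h1.trans (mul_le_mul_of_nonneg_left (Finset.sum_le_sum fun j _ => ?_) hCu)
    refine le_of_eq ?_
    unfold JJ RR
    refine intervalIntegral.integral_congr fun x _ => ?_
    simp only
    have e1 : ∀ θ, om x * u (θ + 2 * π * j / K) * FF κ β x θ =
        om x * (u (θ + 2 * π * j / K) * FF κ β x θ) := fun θ => by ring
    have e2 : ∀ θ, om x * u θ * FF κ (rotβ β (-(2 * π * j / K))) x θ =
        om x * (u θ * FF κ (rotβ β (-(2 * π * j / K))) x θ) := fun θ => by ring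
    simp only [e1, e2]
    rw [intervalIntegral.integral_const_mul, intervalIntegral.integral_const_mul,
      rot_int hW.up]
  · intro j
    have : Continuous (fun q : ℝ × ℝ => u (q.2 + 2 * π * j / K)) := by fun_prop
    exact (com.mul this).mul cF

end JJs

theorem cont_P (κ q : ℝ) {w : ℝ → ℝ} (cw : Continuous w) {u : ℝ → ℝ} (cu : Continuous u)
    {β : ℂ → ℂ} {R : ℝ} (h : ExtR β R) {Mf : ℝ → ℝ → ℝ}
    (cM : Continuous (fun q : ℝ × ℝ => Mf q.1 q.2)) :
    Continuous (fun l => w l * Real.exp (-(q * (l + 2))) *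
      ∫ θ in (-π)..π, u θ * FF κ β (Real.exp (-(l + 2))) θ * Mf (Real.exp (-(l + 2))) θ) := by
  have h1 := FF_comp_cont κ h (g := fun q : ℝ × ℝ => Real.exp (-(q.1 + 2)))
    (k := fun q => q.2) (by fun_prop) (by fun_prop) (fun q => Real.exp_pos _)
  have h2 : Continuous (fun q : ℝ × ℝ => (Real.exp (-(q.1 + 2)), q.2)) := by fun_prop
  have h3 : Continuous (fun q : ℝ × ℝ => Mf (Real.exp (-(q.1 + 2))) q.2) := cM.comp h2
  have h4 : Continuous (fun q : ℝ × ℝ => u q.2) := cu.comp continuous_snd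
  have h5 : Continuous (fun l => ∫ θ in (-π)..π, u θ * FF κ β (Real.exp (-(l + 2))) θ *
      Mf (Real.exp (-(l + 2))) θ) :=
    intervalIntegral.continuous_parametric_intervalIntegral_of_continuous'
      (f := fun l θ => u θ * FF κ β (Real.exp (-(l + 2))) θ * Mf (Real.exp (-(l + 2))) θ)
      ((h4.mul h1).mul h3) _ _
  have h6 : Continuous (fun l : ℝ => Real.exp (-(q * (l + 2)))) := by fun_prop
  exact (cw.mul h6).mul h5

theorem RM_eq {κ dl n : ℝ} (hn : 0 ≤ n) {w u : ℝ → ℝ} {β : ℂ → ℂ} {Mf Mg : ℝ → ℝ → ℝ} {s : ℝ}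
    (us : ∀ θ ∈ Icc (-π) π, u θ ≠ 0 → |θ| ≤ s)
    (he : ∀ x θ, Real.exp (-(2 * n + 2)) ≤ x → x ≤ Real.exp (-(n + 2)) → |θ| ≤ s →
      Mf x θ = Mg x θ) :
    RR (Real.exp (-(2 * n + 2))) (Real.exp (-(n + 2)))
      (fun x θ => omw w (κ - 2 + dl) x * u θ * FF κ β x θ * Mg x θ) =
      ∫ l in n..(2 * n), w l * Real.exp (-((κ - 1 + dl) * (l + 2))) *
        ∫ θ in (-π)..π, u θ * FF κ β (Real.exp (-(l + 2))) θ * Mf (Real.exp (-(l + 2))) θ := by
  have hpi := Real.pi_pos
  have hab : Real.exp (-(2 * n + 2)) ≤ Real.exp (-(n + 2)) := Real.exp_le_exp.2 (by linarith only [hn])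
  have e1 : RR (Real.exp (-(2 * n + 2))) (Real.exp (-(n + 2)))
      (fun x θ => omw w (κ - 2 + dl) x * u θ * FF κ β x θ * Mg x θ) =
      RR (Real.exp (-(2 * n + 2))) (Real.exp (-(n + 2))) (fun x θ => omw w (κ - 2 + dl) x *
        (u θ * FF κ β x θ * Mf x θ)) := by
    unfold RR
    refine intervalIntegral.integral_congr fun x hx => ?_
    rw [uIcc_of_le hab] at hx
    refine intervalIntegral.integral_congr fun θ hθ => ?_
    rw [uIcc_of_le (by (clear * - hpi; linarith only [hpi]) : -π ≤ π)] at hθ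
    simp only
    by_cases hu : u θ = 0
    · simp [hu]
    · rw [he x θ hx.1 hx.2 (us θ hθ hu)]
      ring
  rw [e1, RR_omw hn]
  refine intervalIntegral.integral_congr fun l _ => ?_
  have e2 : κ - 2 + dl + 1 = κ - 1 + dl := by ring
  rw [e2]

/-- the window hypothesis -/
theorem window {κ dl Mb : ℝ} (hκ : 1 ≤ κ) (hMb : 0 ≤ Mb) {G : ℂ → ℂ}
    {Mh : (ℂ → ℂ) → ℂ → ℂ}
    (hG : ∀ (β : ℂ → ℂ) (R : ℝ), ExtR β R → ContinuousOn (wf G β) {z | 0 < ‖z‖ ∧ ‖z‖ < 1})
    (hMc : ∀ (β : ℂ → ℂ) (R : ℝ), ExtR β R → ContinuousOn (Mh β) {z | 0 < ‖z‖ ∧ ‖z‖ < 1})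
    (hM : ∀ β z, ‖Mh β z‖ ≤ Mb) (near : NearStmt κ) (mint : MIntStmt κ dl)
    (mcont : MContStmt κ dl) (ent : EntStmt) {C₀ C ε s : ℝ} (hC₀ : 0 ≤ C₀) (hε : 0 < ε)
    (hε1 : ε ≤ 1) (hs0 : 0 < s) (hs1 : s ≤ 1 / 2) (hC : 0 ≤ C)
    (pt : ∀ n : ℝ, 2 ≤ n →
      ∃ W0 : ℂ → ℝ, Cutf (Real.exp (-n)) W0 ∧ ∀ (β : ℂ → ℂ) (R : ℝ), ExtR β R →
        ∀ x θ : ℝ, 0 < x → x ≤ Real.exp (-n) → |θ| ≤ s →
          Kf (wf G β) (Complex.exp (θ * I)) (-1) (-x) ≤
            κ * Real.log (‖N β (ep (-x) θ)‖ / (1 - Real.exp (-2 * x))) +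
            MM κ dl W0 (Mh β) β x θ + C + (dl + ε) * (-Real.log x) + C₀ * (-Real.log x - n)) :
    Pool.Agent.Helper96.CK.WindowAt
      (fun i : {β : ℂ → ℂ // ∃ R : ℝ, ExtR β R} => GG κ dl (bu s) i.1)
      (Mb / (2 * κ)) (C₀ + 1) ε := by
  have hpi := Real.pi_pos
  obtain ⟨C1, hC1, MI⟩ := mint Mb hMb
  obtain ⟨CE, EN⟩ := ent
  obtain ⟨K, Cu, hK, hCu, -, cov⟩ := bu_cover hs0 hs1
  obtain ⟨th, hth⟩ : ∃ th, th = Mb / (2 * κ) := ⟨_, rfl⟩
  have hth0 : 0 ≤ th := by rw [hth]; (clear * - hMb hκ; positivity)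
  obtain ⟨Q, hQ⟩ : ∃ Q : ℝ, Q = C1 + C1 * (Cu * (K * 2)) := ⟨_, rfl⟩
  have hQ0 : 0 ≤ Q := by rw [hQ]; (clear * - hC1 hCu hK; positivity)
  obtain ⟨Cf, hCf⟩ : ∃ Cf : ℝ, Cf = |CE| + C + 2 * ε + Q + th * (2 + C1) := ⟨_, rfl⟩
  have hCf0 : 0 ≤ Cf := by rw [hCf]; (clear * - hC hε hQ0 hth0 hC1; positivity)
  refine ⟨Cf, hCf0, ?_⟩
  rw [← hth]
  intro n hn w hw hwn hw0 hwp η hη
  obtain ⟨a, ha⟩ : ∃ a, a = Real.exp (-(2 * n + 2)) := ⟨_, rfl⟩
  obtain ⟨b, hb⟩ : ∃ b, b = Real.exp (-(n + 2)) := ⟨_, rfl⟩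
  have WT : Wt (omw w (κ - 2 + dl)) (omw' w (κ - 2 + dl)) (bu s) (bu' s) a b := by
    rw [ha, hb]
    exact omw_Wt hn hw hwn hw0 (bu_deriv s) (bu'_cont s) (bu_nonneg s) (bu_le_one hs0 hs1)
      (bu_per s)
  have hn0 : 0 ≤ n := by linarith only [hn]
  have hu0 : 0 < bu s 0 := bu_pos_zero hs0 hs1
  have cu : Continuous (bu s) := bu_cont s
  obtain ⟨η', hη'⟩ : ∃ η' : ℝ, η' = min (1 / 2) (min η (η / (1 + C1))) := ⟨_, rfl⟩
  have hη'0 : 0 < η' := by rw [hη']; (clear * - hη hC1; positivity)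
  have hη'1 : η' ≤ 1 / 2 := by rw [hη']; exact min_le_left _ _
  have hη'2 : η' ≤ η := by rw [hη']; exact (min_le_right _ _).trans (min_le_left _ _)
  have hη'3 : C1 * η' ≤ η := by
    have h1 : η' ≤ η / (1 + C1) := by
      rw [hη']; exact (min_le_right _ _).trans (min_le_right _ _)
    rw [le_div_iff₀ (by (clear * - hC1; positivity))] at h1
    linarith only [hη'0, h1]
  obtain ⟨β, R, hβ, hmax, hcrit⟩ := near _ _ _ _ a b WT (omw_exists_pos hwp) ⟨0, hu0⟩ η' hη'0
  obtain ⟨W0, hW0, PT⟩ := pt (n + 2) (by linarith only [hn0])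
  rw [← hb] at hW0
  have usupp : ∀ θ ∈ Icc (-π) π, bu s θ ≠ 0 → |θ| ≤ s := fun θ hθ h => bu_supp hs0 hs1 hθ h
  have MIβ := MI _ _ _ _ a b WT (fun θ hθ h => (usupp θ hθ h).trans hs1) β R η' hβ hη'0.le hcrit W0
    (Mh β) hW0 (hMc β R hβ) (hM β)
  have cMM := mcont a b WT.a0 WT.ab WT.b1 β R hβ W0 (Mh β) Mb hW0 (hMc β R hβ) (hM β)
  obtain ⟨Mf, cMf, Mf_eq⟩ : ∃ Mf : ℝ → ℝ → ℝ, Continuous (fun q : ℝ × ℝ => Mf q.1 q.2) ∧
      ∀ x θ, a ≤ x → x ≤ b → |θ| ≤ 1 / 2 → Mf x θ = MM κ dl W0 (Mh β) β x θ :=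
    ⟨Mc κ dl a b W0 (Mh β) β, Mc_cont WT.ab.le cMM, fun x θ h1 h2 h3 => Mc_eq h1 h2 h3⟩
  -- the level functions
  obtain ⟨g, hg⟩ : ∃ g : ℝ → ℝ, g = GG κ dl (bu s) β := ⟨_, rfl⟩
  have cg : Continuous g := by rw [hg]; exact GG_cont hβ cu (bu_nonneg s) hu0
  have cw : Continuous w := hw.continuous
  have cdw : Continuous (deriv w) := hw.continuous_deriv (by norm_num)
  have ceg : Continuous fun l => Real.exp (g l) := Real.continuous_exp.comp cg
  obtain ⟨J, hJ⟩ : ∃ J, J = ∫ l in n..(2 * n), Real.exp (g l) * w l := ⟨_, rfl⟩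
  obtain ⟨D, hD⟩ : ∃ D, D = ∫ l in n..(2 * n), Real.exp (g l) * |deriv w l| := ⟨_, rfl⟩
  have hn2 : n ≤ 2 * n := by linarith only [hn0]
  have hJ0 : 0 ≤ J := by
    rw [hJ]
    exact intervalIntegral.integral_nonneg hn2 fun l _ =>
      mul_nonneg (Real.exp_pos _).le (hwn l)
  have hD0 : 0 ≤ D := by
    rw [hD]
    exact intervalIntegral.integral_nonneg hn2 fun l _ =>
      mul_nonneg (Real.exp_pos _).le (abs_nonneg _)
  have JJβ : JJ κ (omw w (κ - 2 + dl)) (bu s) a b β = 2 * π * J := by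
    rw [ha, hb, JJ_eq hβ cu (bu_nonneg s) hu0 hn0, hJ, hg]
  have JDβ := JD_eq (κ := κ) (dl := dl) (w := w) hβ cu (bu_nonneg s) hu0 hn0
  rw [← ha, ← hb, ← hg, ← hD] at JDβ
  refine ⟨⟨β, R, hβ⟩, ?_, ?_⟩
  · -- near maximal
    rintro ⟨γ, Rγ, hγ⟩
    have h1 := hmax γ hγ.toExt
    rw [JJβ, ha, hb, JJ_eq hγ cu (bu_nonneg s) hu0 hn0] at h1
    have h2 : 0 ≤ ∫ l in n..(2 * n), Real.exp (GG κ dl (bu s) γ l) * w l :=
      intervalIntegral.integral_nonneg hn2 fun l _ => mul_nonneg (Real.exp_pos _).le (hwn l)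
    have h3 : (1 - η') * ∫ l in n..(2 * n), Real.exp (GG κ dl (bu s) γ l) * w l ≤ J := by
      have : 2 * π * ((1 - η') * ∫ l in n..(2 * n), Real.exp (GG κ dl (bu s) γ l) * w l) ≤
          2 * π * J := by
        calc _ = (1 - η') * (2 * π * ∫ l in n..(2 * n), Real.exp (GG κ dl (bu s) γ l) * w l) := by
              ring
          _ ≤ _ := h1
      exact le_of_mul_le_mul_left this (by positivity)
    have h5 : J = ∫ l in n..(2 * n), Real.exp (GG κ dl (bu s) β l) * w l := by rw [hJ, hg]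
    rw [h5] at h3
    exact le_trans (mul_le_mul_of_nonneg_right (by linarith only [hη'2]) h2) h3
  · -- the main inequality
    have goal' : ∫ l in n..(2 * n), Real.exp (g l) * w l * g l ≤
        (∫ l in n..(2 * n), Real.exp (g l) * w l * (Cf + ε * n + (C₀ + 1) * (l - n))) +
          (th * n + Cf) * (∫ l in n..(2 * n), Real.exp (g l) * |deriv w l|) + η := ?_
    · rw [hg] at goal'
      exact goal'
    rw [← hD]
    -- angular term
    have JU := JU_le (κ := κ) hβ WT hCu.le cov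
    have JU2 : RR a b (fun x θ => omw w (κ - 2 + dl) x * |bu' s θ| * FF κ β x θ) ≤
        Cu * (K * 2) * (2 * π * J) := by
      refine JU.trans ?_
      have h1 : ∀ j ∈ Finset.range K, JJ κ (omw w (κ - 2 + dl)) (bu s) a b
          (rotβ β (-(2 * π * j / K))) ≤ 2 * (2 * π * J) := by
        intro j _
        have h2 := hmax _ (rot_ExtR hβ (-(2 * π * j / K))).toExt
        rw [JJβ] at h2
        have h3 : 0 ≤ JJ κ (omw w (κ - 2 + dl)) (bu s) a b (rotβ β (-(2 * π * j / K))) := by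
          rw [ha, hb, JJ_eq (rot_ExtR hβ _) cu (bu_nonneg s) hu0 hn0]
          refine mul_nonneg (by positivity) (intervalIntegral.integral_nonneg hn2 fun l _ =>
            mul_nonneg (Real.exp_pos _).le (hwn l))
        (clear * - h2 hη'1 h3; nlinarith only [hη'1, h2, h3])
      have h4 := Finset.sum_le_sum h1
      rw [Finset.sum_const, Finset.card_range, nsmul_eq_mul] at h4
      calc _ ≤ Cu * (K * (2 * (2 * π * J))) := mul_le_mul_of_nonneg_left h4 hCu.le
        _ = _ := by ring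
    rw [JJβ, JDβ] at MIβ
    have hlogb : -Real.log b = n + 2 := by rw [hb, Real.log_exp]; ring
    rw [hlogb, ← hth] at MIβ
    -- the double integral of the term of the multiplier
    obtain ⟨P, hP⟩ : ∃ P : ℝ → ℝ, P = fun l => w l * Real.exp (-((κ - 1 + dl) * (l + 2))) *
      ∫ θ in (-π)..π, bu s θ * FF κ β (Real.exp (-(l + 2))) θ *
        Mf (Real.exp (-(l + 2))) θ := ⟨_, rfl⟩
    have cP : Continuous P := by
      rw [hP]
      exact cont_P κ _ cw cu hβ cMf
    have hRM : RR a b (fun x θ => omw w (κ - 2 + dl) x * bu s θ * FF κ β x θ *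
        MM κ dl W0 (Mh β) β x θ) = ∫ l in n..(2 * n), P l := by
      rw [ha, hb, hP]
      exact RM_eq (Mg := fun x θ => MM κ dl W0 (Mh β) β x θ) hn0 usupp
        (fun x θ h1 h2 h3 => Mf_eq x θ (by rw [ha]; exact h1) (by rw [hb]; exact h2)
          (h3.trans hs1))
    rw [hRM] at MIβ
    -- level by level
    have hlev : ∀ l ∈ Icc n (2 * n), Real.exp (g l) * w l * g l ≤
        Real.exp (g l) * w l * (|CE| + C + ε * (l + 2) + C₀ * (l - n)) +
          (2 * π)⁻¹ * P l := by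
      intro l hl
      obtain ⟨x, hx⟩ : ∃ x, x = Real.exp (-(l + 2)) := ⟨_, rfl⟩
      have hx0 : 0 < x := by rw [hx]; exact Real.exp_pos _
      have hxa : a ≤ x := by
        rw [ha, hx]
        exact Real.exp_le_exp.2 (by linarith only [hl.2])
      have hxb : x ≤ b := by
        rw [hb, hx]
        exact Real.exp_le_exp.2 (by linarith only [hl.1])
      have hlx : -Real.log x = l + 2 := by rw [hx, Real.log_exp]; ring
      have hm0 : 0 < mm κ (bu s) β (l + 2) := mm_pos hβ cu (bu_nonneg s) hu0 _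
      have hmeq : mm κ (bu s) β (l + 2) = (2 * π)⁻¹ * ∫ θ in (-π)..π, bu s θ * FF κ β x θ := by
        rw [hx]; rfl
      have hE := EN κ β R (wf G β) (bu s) x (by linarith only [hκ]) hβ (hG β R hβ) cu (bu_nonneg s)
        (bu_le_one hs0 hs1) (bu_per s) hx0 (by linarith only [hxb.trans WT.b1]) _ hmeq hm0
      have cMx : Continuous (Mf x) := cMf.comp (Continuous.prodMk_right x)
      have hL := level (dl := dl) (ε := ε) (s := s) (n := n + 2) (C := C) (C₀ := C₀) (CE := CE)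
        hβ hκ (hG β R hβ) cu (bu_nonneg s) usupp hx0 (hxb.trans WT.b1) cMx hmeq hm0 hE
        (fun θ hθ => by
          rw [Mf_eq x θ hxa hxb (hθ.trans hs1)]
          exact PT β R hβ x θ hx0 (hb ▸ hxb) hθ)
      rw [hlx] at hL
      have hgl : g l = Real.log (mm κ (bu s) β (l + 2)) - (κ - 1 + dl) * (l + 2) := by
        rw [hg]; rfl
      have heg : Real.exp (g l) = mm κ (bu s) β (l + 2) *
          Real.exp (-((κ - 1 + dl) * (l + 2))) := by
        rw [hg]; exact exp_GG hm0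
      obtain ⟨m, hmdef⟩ : ∃ m, m = mm κ (bu s) β (l + 2) := ⟨_, rfl⟩
      rw [← hmdef] at hL hm0 hgl heg
      obtain ⟨I0, hI0⟩ : ∃ I0, I0 = ∫ θ in (-π)..π, bu s θ * FF κ β x θ *
        Mf x θ := ⟨_, rfl⟩
      rw [← hI0] at hL
      have hL2 : m * g l ≤ m * (|CE| + C + ε * (l + 2) + C₀ * (l - n)) + (2 * π)⁻¹ * I0 := by
        have h1 := mul_le_mul_of_nonneg_left (le_abs_self CE) hm0.le
        rw [hgl]
        linarith only [hL, h1]
      obtain ⟨E, hEd⟩ : ∃ E, E = w l * Real.exp (-((κ - 1 + dl) * (l + 2))) := ⟨_, rfl⟩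
      have hE0 : 0 ≤ E := by rw [hEd]; exact mul_nonneg (hwn l) (Real.exp_pos _).le
      have hPl : P l = E * I0 := by
        rw [hP, hEd, hI0, hx]
      have heE : Real.exp (g l) * w l = m * E := by
        rw [heg, hEd]; ring
      rw [hPl, heE]
      have h2 := mul_le_mul_of_nonneg_left hL2 hE0
      calc m * E * g l = E * (m * g l) := by ring
        _ ≤ E * (m * (|CE| + C + ε * (l + 2) + C₀ * (l - n)) + (2 * π)⁻¹ * I0) := h2
        _ = _ := by ring
    have hint1 : ∫ l in n..(2 * n), Real.exp (g l) * w l * g l ≤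
        ∫ l in n..(2 * n), (Real.exp (g l) * w l * (|CE| + C + ε * (l + 2) + C₀ * (l - n)) +
          (2 * π)⁻¹ * P l) := by
      refine intervalIntegral.integral_mono_on hn2 ?_ ?_ hlev
      · exact ((ceg.mul cw).mul cg).intervalIntegrable _ _
      · refine Continuous.intervalIntegrable ?_ _ _
        exact ((ceg.mul cw).mul (by fun_prop)).add (continuous_const.mul cP)
    have cA : Continuous fun l => Real.exp (g l) * w l *
        (|CE| + C + ε * (l + 2) + C₀ * (l - n)) := (ceg.mul cw).mul (by fun_prop)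
    have cJ : Continuous fun l => Real.exp (g l) * w l := ceg.mul cw
    have cP2 : Continuous fun l => (2 * π)⁻¹ * P l := continuous_const.mul cP
    have hadd : ∫ l in n..(2 * n), (Real.exp (g l) * w l *
        (|CE| + C + ε * (l + 2) + C₀ * (l - n)) + (2 * π)⁻¹ * P l) =
        (∫ l in n..(2 * n), Real.exp (g l) * w l * (|CE| + C + ε * (l + 2) + C₀ * (l - n))) +
          (2 * π)⁻¹ * ∫ l in n..(2 * n), P l := by
      rw [intervalIntegral.integral_add (cA.intervalIntegrable _ _)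
        (cP2.intervalIntegrable _ _), intervalIntegral.integral_const_mul]
    rw [hadd] at hint1
    have hPb : (2 * π)⁻¹ * ∫ l in n..(2 * n), P l ≤
        Q * J + th * (n + 2 + C1) * D + η := by
      have h1 : (∫ l in n..(2 * n), P l) ≤ C1 * (2 * π * J) + th * (n + 2 + C1) * (2 * π * D) +
          C1 * (Cu * (K * 2) * (2 * π * J)) + C1 * η' :=
        MIβ.trans (by
          have := mul_le_mul_of_nonneg_left JU2 hC1
          linarith only [this])
      have h2 := mul_le_mul_of_nonneg_left h1 (by positivity : 0 ≤ (2 * π)⁻¹)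
      have h3 : (2 * π)⁻¹ * (C1 * (2 * π * J) + th * (n + 2 + C1) * (2 * π * D) +
          C1 * (Cu * (K * 2) * (2 * π * J)) + C1 * η') =
          Q * J + th * (n + 2 + C1) * D + (2 * π)⁻¹ * (C1 * η') := by
        rw [hQ]
        field_simp
        ring
      have h4 : (2 * π)⁻¹ * (C1 * η') ≤ 1 * η := by
        have h5 : (2 * π)⁻¹ ≤ 1 := by
          apply inv_le_one_of_one_le₀
          have := Real.pi_gt_three
          linarith only [this]
        exact mul_le_mul h5 hη'3 (by (clear * - hC1 hη'0; positivity)) (by norm_num)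
      rw [h3] at h2
      linarith only [h2, h4]
    have hfin : (∫ l in n..(2 * n), Real.exp (g l) * w l *
        (|CE| + C + ε * (l + 2) + C₀ * (l - n))) + Q * J ≤
        ∫ l in n..(2 * n), Real.exp (g l) * w l * (Cf + ε * n + (C₀ + 1) * (l - n)) := by
      have cJ2 : Continuous fun l => Q * (Real.exp (g l) * w l) := continuous_const.mul cJ
      rw [hJ, ← intervalIntegral.integral_const_mul, ← intervalIntegral.integral_add
        (cA.intervalIntegrable _ _) (cJ2.intervalIntegrable _ _)]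
      refine intervalIntegral.integral_mono_on hn2 ?_ ?_ ?_
      · exact (cA.add cJ2).intervalIntegrable _ _
      · exact ((ceg.mul cw).mul (by fun_prop)).intervalIntegrable _ _
      · intro l hl
        have h1 : 0 ≤ Real.exp (g l) * w l := mul_nonneg (Real.exp_pos _).le (hwn l)
        have h2 : |CE| + C + ε * (l + 2) + C₀ * (l - n) + Q ≤
            Cf + ε * n + (C₀ + 1) * (l - n) := by
          have h3 : ε * (l - n) ≤ 1 * (l - n) :=
            mul_le_mul_of_nonneg_right hε1 (by linarith only [hl.1])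
          have h4 : 0 ≤ th * (2 + C1) := by (clear * - hth0 hC1; positivity)
          rw [hCf]
          linarith only [h3, h4]
        have h3 := mul_le_mul_of_nonneg_left h2 h1
        linarith only [h3]
    have hthn : th * (n + 2 + C1) * D ≤ (th * n + Cf) * D := by
      refine mul_le_mul_of_nonneg_right ?_ hD0
      have h1 : th * (2 + C1) ≤ Cf := by
        rw [hCf]
        have : 0 ≤ |CE| + C + 2 * ε + Q := by (clear * - hC hε hQ0; positivity)
        linarith only [this]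
      linarith only [h1]
    linarith only [hint1, hPb, hfin, hthn]

end Pool.Agent.Helper52.CK

end

section

namespace Pool.Agent.Helper39.Area
end Pool.Agent.Helper39.Area
namespace Pool.Agent.Helper52.EK
end Pool.Agent.Helper52.EK
namespace Pool.Agent.Helper28.EK
end Pool.Agent.Helper28.EK
namespace Pool.Agent.Helper24.Br
end Pool.Agent.Helper24.Br

set_option autoImplicit false

open Complex MeasureTheory Metric Set

open scoped Real ComplexConjugate

namespace Pool.Agent.Helper58.CK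

open Pool.Agent.Helper39.Area Pool.Agent.Helper52.EK Pool.Agent.Helper28.EK

open Pool.Agent.Helper24.Br (deriv_ne_of_inj)

theorem moment_ExtS {κ s : ℝ} (hκ : 0 ≤ κ) (hs0 : 0 ≤ s)
    (hM : ∃ C a₀ : ℝ, a₀ < 1 ∧ ∀ (β : ℂ → ℂ) (R a : ℝ), ExtR β R → a₀ < a → a < 1 →
      (2 * π)⁻¹ * (∫ α in (0:ℝ)..(2 * π), ‖N β (a * Complex.exp (α * I))‖ ^ (-κ)) ≤
        C * (1 - a ^ 2) ^ (-s)) :
    ∀ p : ℝ, κ ≤ p → ∃ C : ℝ, ∀ (β : ℂ → ℂ) (r : ℝ), Ext β → 0 < r → r < 1 →
      (2 * π)⁻¹ * (∫ α in (0:ℝ)..(2 * π), ‖N β (r * Complex.exp (α * I))‖ ^ (-p)) ≤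
        C * (1 - r ^ 2) ^ (-(s + (p - κ))) := by
  obtain ⟨C₀, a₀, ha₀, hM⟩ := hM
  intro p hp
  obtain ⟨C₁, hC₁⟩ : ∃ C₁ : ℝ, C₁ = |C₀| * 2 ^ s := ⟨_, rfl⟩
  have hC₁0 : 0 ≤ C₁ := by rw [hC₁]; (clear * -; positivity)
  obtain ⟨b, hb⟩ : ∃ b : ℝ, b = max a₀ 0 := ⟨_, rfl⟩
  have hb0 : 0 ≤ b := by rw [hb]; exact le_max_right _ _
  have hb1 : b < 1 := by rw [hb]; exact max_lt ha₀ one_pos
  have hab : a₀ ≤ b := by rw [hb]; exact le_max_left _ _
  have h1b : 0 < 1 - b ^ 2 := by nlinarith only [hb0, hb1]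
  obtain ⟨C₂, hC₂⟩ : ∃ C₂ : ℝ, C₂ = (1 - b ^ 2) ^ (-p) := ⟨_, rfl⟩
  have hC₂0 : 0 ≤ C₂ := by rw [hC₂]; positivity
  refine ⟨C₁ + C₂, ?_⟩
  intro β r hβ hr0 hr1
  have hπ : 0 < 2 * π := by positivity
  have h1r : 0 < 1 - r ^ 2 := by (clear * - hr1 hr0; nlinarith only [hr0, hr1])
  have h1r1 : 1 - r ^ 2 ≤ 1 := by nlinarith only []
  have hmem : ∀ α : ℝ, ‖(r : ℂ) * Complex.exp (α * I)‖ = r := by
    intro α
    rw [norm_mul, Complex.norm_exp_ofReal_mul_I, mul_one, Complex.norm_real,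
      Real.norm_eq_abs, abs_of_pos hr0]
  have hNge : ∀ α : ℝ, 1 - r ^ 2 ≤ ‖N β (r * Complex.exp (α * I))‖ := by
    intro α
    have := Pool.Agent.Helper39.EK.N_ge hβ (z := (r : ℂ) * Complex.exp (α * I))
      (by rw [hmem]; exact hr1)
    rwa [hmem] at this
  have hcont : ∀ q : ℝ, IntervalIntegrable
      (fun α : ℝ => ‖N β (r * Complex.exp (α * I))‖ ^ (-q)) volume 0 (2 * π) :=
    fun q => (N_cont hβ hr0 hr1 q).intervalIntegrable _ _
  have hpow1 : 1 ≤ (1 - r ^ 2) ^ (-(s + (p - κ))) :=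
    Real.one_le_rpow_of_pos_of_le_one_of_nonpos h1r h1r1 (by (clear * - hs0 hp; linarith))
  rcases le_or_gt r b with hrb | hrb
  · -- small radius
    have hle : ∀ α : ℝ, ‖N β (r * Complex.exp (α * I))‖ ^ (-p) ≤ C₂ := by
      intro α
      rw [hC₂]
      have h2 : 1 - b ^ 2 ≤ 1 - r ^ 2 := by nlinarith only [hr0, hrb]
      exact Real.rpow_le_rpow_of_nonpos h1b (h2.trans (hNge α)) (by (clear * - hκ hp; linarith))
    have hint : (∫ α in (0:ℝ)..(2 * π), ‖N β (r * Complex.exp (α * I))‖ ^ (-p)) ≤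
        ∫ _α in (0:ℝ)..(2 * π), C₂ :=
      intervalIntegral.integral_mono_on hπ.le (hcont p) intervalIntegrable_const
        (fun α _ => hle α)
    rw [intervalIntegral.integral_const, smul_eq_mul, sub_zero] at hint
    have h3 : (2 * π)⁻¹ * (∫ α in (0:ℝ)..(2 * π), ‖N β (r * Complex.exp (α * I))‖ ^ (-p)) ≤
        (2 * π)⁻¹ * (2 * π * C₂) := mul_le_mul_of_nonneg_left hint (by positivity)
    rw [inv_mul_cancel_left₀ hπ.ne'] at h3
    calc _ ≤ C₂ := h3
      _ ≤ C₂ * (1 - r ^ 2) ^ (-(s + (p - κ))) := le_mul_of_one_le_right hC₂0 hpow1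
      _ ≤ (C₁ + C₂) * (1 - r ^ 2) ^ (-(s + (p - κ))) :=
          mul_le_mul_of_nonneg_right (by linarith only [hC₁0]) (by (clear * - h1r; positivity))
  · -- scaling
    have hex : ∃ ρ : ℝ, r < ρ ∧ ρ < 1 ∧ b < r / ρ ∧ (1 - r ^ 2) / 2 ≤ 1 - (r / ρ) ^ 2 := by
      have hcts : Filter.Tendsto (fun ρ : ℝ => r / ρ) (nhdsWithin 1 (Iio 1)) (nhds r) := by
        have h2 : ContinuousAt (fun ρ : ℝ => r / ρ) 1 :=
          continuousAt_const.div continuousAt_id one_ne_zero
        have h3 := h2.tendsto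
        simp only [div_one] at h3
        exact h3.mono_left nhdsWithin_le_nhds
      have hcts2 : Filter.Tendsto (fun ρ : ℝ => 1 - (r / ρ) ^ 2) (nhdsWithin 1 (Iio 1))
          (nhds (1 - r ^ 2)) := (hcts.pow 2).const_sub 1
      have e1 : ∀ᶠ ρ in nhdsWithin (1:ℝ) (Iio 1), b < r / ρ := hcts.eventually_const_lt hrb
      have e2 : ∀ᶠ ρ in nhdsWithin (1:ℝ) (Iio 1), (1 - r ^ 2) / 2 < 1 - (r / ρ) ^ 2 :=
        hcts2.eventually_const_lt (by (clear * - h1r; linarith only [h1r]))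
      have e3 : ∀ᶠ ρ in nhdsWithin (1:ℝ) (Iio 1), r < ρ :=
        (eventually_gt_nhds hr1).filter_mono nhdsWithin_le_nhds
      have e4 : ∀ᶠ ρ in nhdsWithin (1:ℝ) (Iio 1), ρ < 1 := eventually_mem_nhdsWithin
      obtain ⟨ρ, h4, h5, h6, h7⟩ := (e1.and (e2.and (e3.and e4))).exists
      exact ⟨ρ, h6, h7, h4, h5.le⟩
    obtain ⟨ρ, hrρ, hρ1, hbρ, hhalf⟩ := hex
    have hρ0 : 0 < ρ := hr0.trans hrρ
    have ha1 : r / ρ < 1 := by rw [div_lt_one hρ0]; exact hrρ
    have ha0 : 0 < r / ρ := by (clear * - hr0 hρ0; positivity)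
    have h2 := hM _ _ (r / ρ) (scale_ExtR hβ hρ0 hρ1) (lt_of_le_of_lt hab hbρ) ha1
    have hρC : (ρ : ℂ) ≠ 0 := by exact_mod_cast hρ0.ne'
    have hNeq : ∀ α : ℝ, N (fun z => (ρ : ℂ) * β (ρ * z)) (((r / ρ : ℝ) : ℂ) *
        Complex.exp (α * I)) = N β (r * Complex.exp (α * I)) := by
      intro α
      have e : (ρ : ℂ) * (((r / ρ : ℝ) : ℂ) * Complex.exp (α * I)) = r * Complex.exp (α * I) := by
        push_cast
        (clear * - hρC; field_simp)
      rw [scale_N hβ.diff (by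
        rw [e, mem_ball_zero_iff, hmem]
        exact hr1), e]
    simp only [hNeq] at h2
    have h3 : (1 - (r / ρ) ^ 2) ^ (-s) ≤ 2 ^ s * (1 - r ^ 2) ^ (-s) := by
      have h4 : (1 - (r / ρ) ^ 2) ^ (-s) ≤ ((1 - r ^ 2) / 2) ^ (-s) :=
        Real.rpow_le_rpow_of_nonpos (by (clear * - h1r; linarith only [h1r])) hhalf (by linarith only [hs0])
      refine h4.trans (le_of_eq ?_)
      rw [Real.div_rpow h1r.le (by norm_num), Real.rpow_neg (by norm_num : (0:ℝ) ≤ 2), div_inv_eq_mul,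
        mul_comm]
    have h5 : (2 * π)⁻¹ * (∫ α in (0:ℝ)..(2 * π), ‖N β (r * Complex.exp (α * I))‖ ^ (-κ)) ≤
        C₁ * (1 - r ^ 2) ^ (-s) := by
      have h6 : 0 < 1 - (r / ρ) ^ 2 := by linarith only [h1r, hhalf]
      calc _ ≤ C₀ * (1 - (r / ρ) ^ 2) ^ (-s) := h2
        _ ≤ |C₀| * (1 - (r / ρ) ^ 2) ^ (-s) :=
            mul_le_mul_of_nonneg_right (le_abs_self _) (by (clear * - h6; positivity))
        _ ≤ |C₀| * (2 ^ s * (1 - r ^ 2) ^ (-s)) :=
            mul_le_mul_of_nonneg_left h3 (abs_nonneg _)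
        _ = C₁ * (1 - r ^ 2) ^ (-s) := by rw [hC₁]; ring
    -- larger powers
    have hpt : ∀ α : ℝ, ‖N β (r * Complex.exp (α * I))‖ ^ (-p) ≤
        (1 - r ^ 2) ^ (-(p - κ)) * ‖N β (r * Complex.exp (α * I))‖ ^ (-κ) := by
      intro α
      have hpos : 0 < ‖N β (r * Complex.exp (α * I))‖ := lt_of_lt_of_le h1r (hNge α)
      have e : (-p) = -(p - κ) + (-κ) := by ring
      rw [e, Real.rpow_add hpos]
      refine mul_le_mul_of_nonneg_right ?_ (by positivity)
      exact Real.rpow_le_rpow_of_nonpos h1r (hNge α) (by linarith only [hp])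
    have hint : (∫ α in (0:ℝ)..(2 * π), ‖N β (r * Complex.exp (α * I))‖ ^ (-p)) ≤
        ∫ α in (0:ℝ)..(2 * π), (1 - r ^ 2) ^ (-(p - κ)) *
          ‖N β (r * Complex.exp (α * I))‖ ^ (-κ) :=
      intervalIntegral.integral_mono_on hπ.le (hcont p) ((hcont κ).const_mul _)
        (fun α _ => hpt α)
    rw [intervalIntegral.integral_const_mul] at hint
    have hq0 : (0:ℝ) ≤ (1 - r ^ 2) ^ (-(p - κ)) := by (clear * - h1r; positivity)
    calc (2 * π)⁻¹ * (∫ α in (0:ℝ)..(2 * π), ‖N β (r * Complex.exp (α * I))‖ ^ (-p))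
        ≤ (2 * π)⁻¹ * ((1 - r ^ 2) ^ (-(p - κ)) *
          ∫ α in (0:ℝ)..(2 * π), ‖N β (r * Complex.exp (α * I))‖ ^ (-κ)) :=
          mul_le_mul_of_nonneg_left hint (by positivity)
      _ = (1 - r ^ 2) ^ (-(p - κ)) * ((2 * π)⁻¹ *
          ∫ α in (0:ℝ)..(2 * π), ‖N β (r * Complex.exp (α * I))‖ ^ (-κ)) := by ring
      _ ≤ (1 - r ^ 2) ^ (-(p - κ)) * (C₁ * (1 - r ^ 2) ^ (-s)) :=
          mul_le_mul_of_nonneg_left h5 hq0
      _ = C₁ * (1 - r ^ 2) ^ (-(s + (p - κ))) := by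
          have e : -(s + (p - κ)) = -(p - κ) + -s := by ring
          rw [e, Real.rpow_add h1r]
          ring
      _ ≤ (C₁ + C₂) * (1 - r ^ 2) ^ (-(s + (p - κ))) :=
          mul_le_mul_of_nonneg_right (by linarith only [hC₂0]) (by (clear * - h1r; positivity))

/-- E6e: the class Σ -/
theorem finalS {p s : ℝ} (hM : ∃ C : ℝ, ∀ (β : ℂ → ℂ) (r : ℝ), Ext β → 0 < r →
      r < 1 → (2 * π)⁻¹ * (∫ α in (0:ℝ)..(2 * π), ‖N β (r * Complex.exp (α * I))‖ ^ (-p)) ≤
        C * (1 - r ^ 2) ^ (-s)) :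
    ∃ C : ℝ, ∀ ψ : ℂ → ℂ, DifferentiableOn ℂ ψ {z : ℂ | 1 < ‖z‖} →
      InjOn ψ {z : ℂ | 1 < ‖z‖} →
      (∃ b : ℂ, Filter.Tendsto (fun z => ψ z - z) (Bornology.cobounded ℂ) (nhds b)) →
      ∀ R : ℝ, 1 < R →
      (2 * π)⁻¹ * (∫ θ in (0:ℝ)..(2 * π), ‖deriv ψ (R * Complex.exp (θ * I))‖ ^ (-p)) ≤
        C * (R ^ 2 / (R ^ 2 - 1)) ^ s := by
  obtain ⟨C, hC⟩ := hM
  refine ⟨C, ?_⟩
  rintro ψ hψ hinj ⟨b, hb⟩ R hR
  have hR0 : 0 < R := by linarith only [hR]
  have hne : ∀ z : ℂ, 1 < ‖z‖ → deriv ψ z ≠ 0 := fun z hz =>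
    deriv_ne_of_inj isOpen_ext hψ hinj hz
  have hexp : ∀ z : ℂ, 1 < ‖z‖ → Complex.exp ((fun z => Complex.log (deriv ψ z)) z) =
      deriv ψ z := fun z hz => Complex.exp_log (hne z hz)
  obtain ⟨hE, hex⟩ := ext_data hψ hinj hb hexp
  have hr0 : 0 < R⁻¹ := by positivity
  have hr1 : R⁻¹ < 1 := inv_lt_one_of_one_lt₀ hR
  have hmain := hC (toDisc b (fun z => ψ z - z)) R⁻¹ hE hr0 hr1
  obtain ⟨k, hk⟩ : ∃ k : ℝ → ℝ, k = fun (α : ℝ) =>
    ‖N (toDisc b (fun z => ψ z - z)) (((R⁻¹ : ℝ) : ℂ) * Complex.exp (α * I))‖ ^ (-p) := ⟨_, rfl⟩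
  have h1 : ∀ θ : ℝ, ‖deriv ψ (R * Complex.exp (θ * I))‖ ^ (-p) = k (-θ) := by
    intro θ
    have hne0 : ((R⁻¹ : ℝ) : ℂ) * Complex.exp (((-θ : ℝ) : ℂ) * I) ≠ 0 := by
      apply mul_ne_zero _ (Complex.exp_ne_zero _)
      exact_mod_cast inv_ne_zero hR0.ne'
    have hmem : ((R⁻¹ : ℝ) : ℂ) * Complex.exp (((-θ : ℝ) : ℂ) * I) ∈ ball (0:ℂ) 1 := by
      rw [mem_ball_zero_iff, norm_mul, Complex.norm_exp_ofReal_mul_I, mul_one, Complex.norm_real,
        Real.norm_of_nonneg hr0.le]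
      exact hr1
    have h2 : (((R⁻¹ : ℝ) : ℂ) * Complex.exp (((-θ : ℝ) : ℂ) * I))⁻¹ =
        (R : ℂ) * Complex.exp ((θ : ℂ) * I) := by
      rw [mul_inv, ← Complex.exp_neg]
      push_cast
      rw [inv_inv]
      congr 2
      ring
    have h3 := hex _ hmem
    simp only [toDisc] at h3
    rw [if_neg hne0, h2, hexp] at h3
    · simp only [hk, N]
      rw [h3]
    · rw [norm_mul, Complex.norm_exp_ofReal_mul_I, mul_one, Complex.norm_real,
        Real.norm_of_nonneg hR0.le]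
      exact hR
  simp_rw [h1]
  rw [intervalIntegral.integral_comp_neg (fun θ => k θ)]
  have hper : Function.Periodic k (2 * π) := by
    intro θ
    simp only [hk]
    have : Complex.exp (((θ + 2 * π : ℝ) : ℂ) * I) = Complex.exp ((θ : ℂ) * I) := by
      push_cast
      rw [add_mul, Complex.exp_add, Complex.exp_two_pi_mul_I, mul_one]
    rw [this]
  have h2 := hper.intervalIntegral_add_eq (-(2 * π)) 0
  have e1 : -(2 * π) + 2 * π = (0:ℝ) := by ring
  have e2 : (0:ℝ) + 2 * π = 2 * π := by ring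
  rw [e1, e2] at h2
  rw [neg_zero, h2]
  have hRR : 0 < R ^ 2 - 1 := by (clear * - hR; nlinarith only [hR])
  have hx : (1 - R⁻¹ ^ 2) ^ (-s) = (R ^ 2 / (R ^ 2 - 1)) ^ s := by
    have h3 : 1 - R⁻¹ ^ 2 = (R ^ 2 / (R ^ 2 - 1))⁻¹ := by
      rw [inv_pow]
      (clear * - hR hRR; field_simp)
    rw [h3, Real.inv_rpow (by (clear * - hR hRR; positivity)), Real.rpow_neg (by (clear * - hR hRR; positivity)), inv_inv]
  rw [hx] at hmain
  rw [hk]
  exact hmain

end Pool.Agent.Helper58.CK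

end

section

namespace Pool.Agent.Helper39.Area
end Pool.Agent.Helper39.Area
namespace Pool.Agent.Helper52.EK
end Pool.Agent.Helper52.EK
namespace Pool.Agent.Helper9.EK
end Pool.Agent.Helper9.EK

set_option autoImplicit false

open Complex MeasureTheory Metric Set

open scoped Real ComplexConjugate ContDiff

namespace Pool.Agent.Helper52.CK

open Pool.Agent.Helper39.Area Pool.Agent.Helper52.EK Pool.Agent.Helper9.EK

/-- the mean over the whole circle is dominated by the localised means of the rotations -/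
theorem full_le {κ : ℝ} {u : ℝ → ℝ} (cu : Continuous u) (up : Function.Periodic u (2 * π))
    {K : ℕ} {Cu B l : ℝ} (hCu : 0 ≤ Cu)
    (cov : ∀ θ, 1 ≤ Cu * ∑ j ∈ Finset.range K, u (θ + 2 * π * j / K))
    {β : ℂ → ℂ} {R : ℝ} (h : ExtR β R)
    (hB : ∀ γ : ℂ → ℂ, ExtR γ R → mm κ u γ l ≤ B) :
    (2 * π)⁻¹ * ∫ θ in (-π)..π, FF κ β (Real.exp (-l)) θ ≤ Cu * K * B := by
  have hpi := Real.pi_pos
  have hx := Real.exp_pos (-l)
  have cF := FF_cont_th κ h hx
  have h1 : ∫ θ in (-π)..π, FF κ β (Real.exp (-l)) θ ≤ ∫ θ in (-π)..π,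
      Cu * ∑ j ∈ Finset.range K, u (θ + 2 * π * j / K) * FF κ β (Real.exp (-l)) θ := by
    refine intervalIntegral.integral_mono_on (by (clear * - hpi; linarith)) (cF.intervalIntegrable _ _) ?_ ?_
    · refine Continuous.intervalIntegrable ?_ _ _
      exact continuous_const.mul (continuous_finsetSum _ fun j _ =>
        (cu.comp (by fun_prop)).mul cF)
    · intro θ _
      rw [← Finset.sum_mul, ← mul_assoc]
      exact le_mul_of_one_le_left (FF_pos κ h hx θ).le (cov θ)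
  rw [intervalIntegral.integral_const_mul, intervalIntegral.integral_finsetSum] at h1
  · have h2 : ∀ j ∈ Finset.range K,
        ∫ θ in (-π)..π, u (θ + 2 * π * j / K) * FF κ β (Real.exp (-l)) θ ≤ 2 * π * B := by
      intro j _
      rw [rot_int up, two_pi_mm]
      exact mul_le_mul_of_nonneg_left (hB _ (rot_ExtR h _)) (by positivity)
    have h3 := Finset.sum_le_sum h2
    rw [Finset.sum_const, Finset.card_range, nsmul_eq_mul] at h3
    have h4 := h1.trans (mul_le_mul_of_nonneg_left h3 hCu)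
    have h5 := mul_le_mul_of_nonneg_left h4 (by positivity : 0 ≤ (2 * π)⁻¹)
    refine h5.trans (le_of_eq ?_)
    (clear * -; field_simp)
  · intro j _
    exact Continuous.intervalIntegrable ((cu.comp (by fun_prop)).mul cF) _ _

/-- **Assembly**: the exponent of the circle means. -/
theorem asm {κ dl Mb : ℝ} (hκ : 1 ≤ κ) (hdl : 0 ≤ dl) (hMb : 0 ≤ Mb) (hMb2 : Mb < 2 * κ)
    {G : ℂ → ℂ} {Mh : (ℂ → ℂ) → ℂ → ℂ}
    (hG : ∀ (β : ℂ → ℂ) (R : ℝ), ExtR β R → ContinuousOn (wf G β) {z | 0 < ‖z‖ ∧ ‖z‖ < 1})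
    (hMc : ∀ (β : ℂ → ℂ) (R : ℝ), ExtR β R → ContinuousOn (Mh β) {z | 0 < ‖z‖ ∧ ‖z‖ < 1})
    (hM : ∀ β z, ‖Mh β z‖ ≤ Mb) (near : NearStmt κ) (mint : MIntStmt κ dl)
    (mcont : MContStmt κ dl) (ent : EntStmt) (pt : PTStmt κ dl G Mh) (lip : LipStmt κ) :
    ∀ e : ℝ, 0 < e → ∃ C a₀ : ℝ, a₀ < 1 ∧ ∀ (β : ℂ → ℂ) (R a : ℝ), ExtR β R → a₀ < a → a < 1 →
      (2 * π)⁻¹ * (∫ α in (0:ℝ)..(2 * π), ‖N β (a * Complex.exp (α * I))‖ ^ (-κ)) ≤
        C * (1 - a ^ 2) ^ (-(κ - 1 + dl + e)) := by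
  intro e he
  have hpi := Real.pi_pos
  obtain ⟨C₀, hC₀, pt⟩ := pt
  have hth0 : 0 ≤ Mb / (2 * κ) := by (clear * - hMb hκ; positivity)
  have hth1 : Mb / (2 * κ) < 1 := by
    rw [div_lt_one (by linarith only [hMb, hMb2])]
    exact hMb2
  obtain ⟨ε₁, hε₁, EX⟩ := Pool.Agent.Helper96.CK.exp_lemma3 (C₀ := C₀ + 1) hth0 hth1
    (by (clear * - hC₀; linarith only [hC₀])) e he
  obtain ⟨ε, hε⟩ : ∃ ε, ε = min ε₁ 1 := ⟨_, rfl⟩
  have hε0 : 0 < ε := by rw [hε]; exact lt_min hε₁ one_pos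
  have hε1 : ε ≤ 1 := by rw [hε]; exact min_le_right _ _
  have hε2 : ε ≤ ε₁ := by rw [hε]; exact min_le_left _ _
  obtain ⟨s, C, hs0, hs1, hC, pt⟩ := pt ε hε0
  have hwin := window hκ hMb hG hMc hM near mint mcont ent hC₀ hε0 hε1 hs0 hs1 hC pt
  obtain ⟨A, hA, lip⟩ := lip
  have cu : Continuous (bu s) := bu_cont s
  have hu0 : 0 < bu s 0 := bu_pos_zero hs0 hs1
  -- `WindowAt` for `ε₁`
  have hwin2 : Pool.Agent.Helper96.CK.WindowAt
      (fun i : {β : ℂ → ℂ // ∃ R : ℝ, ExtR β R} => GG κ dl (bu s) i.1)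
      (Mb / (2 * κ)) (C₀ + 1) ε₁ := by
    obtain ⟨C₁, hC₁, H⟩ := hwin
    refine ⟨C₁, hC₁, fun n hn w hw hwn hw0 hwp η hη => ?_⟩
    obtain ⟨i, hi1, hi2⟩ := H n hn w hw hwn hw0 hwp η hη
    refine ⟨i, hi1, hi2.trans ?_⟩
    obtain ⟨β, R, hβ⟩ := i
    have cg : Continuous (GG κ dl (bu s) β) := GG_cont hβ cu (bu_nonneg s) hu0
    have ceg : Continuous fun l => Real.exp (GG κ dl (bu s) β l) := Real.continuous_exp.comp cg
    have cw : Continuous w := hw.continuous
    have hle : ∫ l in n..(2 * n), Real.exp (GG κ dl (bu s) β l) * w l *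
        (C₁ + ε * n + (C₀ + 1) * (l - n)) ≤ ∫ l in n..(2 * n),
          Real.exp (GG κ dl (bu s) β l) * w l * (C₁ + ε₁ * n + (C₀ + 1) * (l - n)) := by
      refine intervalIntegral.integral_mono_on (by linarith only [hn]) ?_ ?_ ?_
      · exact ((ceg.mul cw).mul (by fun_prop)).intervalIntegrable _ _
      · exact ((ceg.mul cw).mul (by fun_prop)).intervalIntegrable _ _
      · intro l _
        refine mul_le_mul_of_nonneg_left ?_ (mul_nonneg (Real.exp_pos _).le (hwn l))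
        have : ε * n ≤ ε₁ * n := mul_le_mul_of_nonneg_right hε2 (by linarith only [hn])
        (clear * - this; linarith only [this])
    have hle2 := add_le_add_left (add_le_add_left hle
      ((Mb / (2 * κ) * n + C₁) * ∫ l in n..(2 * n), Real.exp (GG κ dl (bu s) β l) *
        |deriv w l|)) η
    exact hle2
  -- Lipschitz
  have hm2 : ∀ (β : ℂ → ℂ) (R : ℝ), ExtR β R → ∀ l l' : ℝ, 2 ≤ l → 2 ≤ l' →
      mm κ (bu s) β l ≤ Real.exp (A * |l - l'|) * mm κ (bu s) β l' := by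
    intro β R hβ l l' hl hl'
    unfold mm
    have h1 : ∫ θ in (-π)..π, bu s θ * FF κ β (Real.exp (-l)) θ ≤
        ∫ θ in (-π)..π, Real.exp (A * |l - l'|) * (bu s θ * FF κ β (Real.exp (-l')) θ) := by
      refine intervalIntegral.integral_mono_on (by linarith only [hpi]) ?_ ?_ ?_
      · exact (cu.mul (FF_cont_th κ hβ (Real.exp_pos _))).intervalIntegrable _ _
      · exact (continuous_const.mul (cu.mul (FF_cont_th κ hβ
          (Real.exp_pos _)))).intervalIntegrable _ _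
      · intro θ _
        have h2 := mul_le_mul_of_nonneg_left ((lip β R hβ).1 l l' θ hl hl') (bu_nonneg s θ)
        calc _ ≤ _ := h2
          _ = _ := by ring
    rw [intervalIntegral.integral_const_mul] at h1
    calc _ ≤ (2 * π)⁻¹ * (Real.exp (A * |l - l'|) *
          ∫ θ in (-π)..π, bu s θ * FF κ β (Real.exp (-l')) θ) :=
          mul_le_mul_of_nonneg_left h1 (by positivity)
      _ = _ := by ring
  have hlog : ∀ (β : ℂ → ℂ) (R : ℝ), ExtR β R → ∀ l l' : ℝ, 2 ≤ l → 2 ≤ l' →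
      Real.log (mm κ (bu s) β l) - Real.log (mm κ (bu s) β l') ≤ A * |l - l'| := by
    intro β R hβ l l' hl hl'
    have hp := mm_pos (κ := κ) hβ cu (bu_nonneg s) hu0 l
    have hp' := mm_pos (κ := κ) hβ cu (bu_nonneg s) hu0 l'
    have h1 := Real.log_le_log hp (hm2 β R hβ l l' hl hl')
    rw [Real.log_mul (Real.exp_pos _).ne' hp'.ne', Real.log_exp] at h1
    linarith only [h1]
  obtain ⟨A', hA'⟩ : ∃ A', A' = A + (κ - 1 + dl) := ⟨_, rfl⟩
  have hA'0 : 0 ≤ A' := by rw [hA']; linarith only [hκ, hdl, hA]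
  obtain ⟨K, hK⟩ := EX (ι := {β : ℂ → ℂ // ∃ R : ℝ, ExtR β R})
    (G := fun i => GG κ dl (bu s) i.1) (A := A') hA'0 (by
      rintro ⟨β, R, hβ⟩
      have hp := mm_pos (κ := κ) hβ cu (bu_nonneg s) hu0 2
      have h1 : mm κ (bu s) β 2 ≤ Real.exp A := by
        unfold mm
        have h2 : ∫ θ in (-π)..π, bu s θ * FF κ β (Real.exp (-2)) θ ≤
            ∫ _θ in (-π)..π, Real.exp A := by
          refine intervalIntegral.integral_mono_on (by (clear * - hpi; linarith only [hpi])) ?_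
            intervalIntegrable_const ?_
          · exact (cu.mul (FF_cont_th κ hβ (Real.exp_pos _))).intervalIntegrable _ _
          · intro θ _
            have h3 := (lip β R hβ).2 θ
            have h4 := (FF_pos κ hβ (Real.exp_pos (-2)) θ).le
            calc _ ≤ 1 * FF κ β (Real.exp (-2)) θ :=
                  mul_le_mul_of_nonneg_right (bu_le_one hs0 hs1 θ) h4
              _ ≤ _ := by rw [one_mul]; exact h3
        rw [intervalIntegral.integral_const, smul_eq_mul] at h2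
        have h5 := mul_le_mul_of_nonneg_left h2 (by positivity : 0 ≤ (2 * π)⁻¹)
        refine h5.trans (le_of_eq ?_)
        field_simp
        ring
      have h6 := Real.log_le_log hp h1
      rw [Real.log_exp] at h6
      have h7 : GG κ dl (bu s) β 0 = Real.log (mm κ (bu s) β 2) - (κ - 1 + dl) * 2 := by
        unfold GG
        norm_num
      show GG κ dl (bu s) β 0 ≤ A'
      rw [h7, hA']
      linarith only [hκ, hdl, h6]) (by
      rintro ⟨β, R, hβ⟩ l l' hl hl'
      show |GG κ dl (bu s) β l - GG κ dl (bu s) β l'| ≤ A' * |l - l'|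
      have h1 := hlog β R hβ (l + 2) (l' + 2) (by linarith only [hl]) (by linarith only [hl'])
      have h2 := hlog β R hβ (l' + 2) (l + 2) (by linarith only [hl']) (by (clear * - hl; linarith))
      have e1 : l + 2 - (l' + 2) = l - l' := by ring
      have e2 : l' + 2 - (l + 2) = -(l - l') := by ring
      rw [e1] at h1
      rw [e2, abs_neg] at h2
      have h3 : (κ - 1 + dl) * (l - l') ≤ (κ - 1 + dl) * |l - l'| :=
        mul_le_mul_of_nonneg_left (le_abs_self _) (by linarith only [hκ, hdl])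
      have h4 : (κ - 1 + dl) * (-(l - l')) ≤ (κ - 1 + dl) * |l - l'| :=
        mul_le_mul_of_nonneg_left (neg_le_abs _) (by linarith only [hκ, hdl])
      unfold GG
      rw [hA', abs_le]
      constructor <;> linarith only [h2, h3, h1, h4]) hwin2
  -- conclusion
  obtain ⟨Kn, Cu, hKn, hCu, cov, -⟩ := bu_cover hs0 hs1
  obtain ⟨S, hS⟩ : ∃ S, S = κ - 1 + dl + e := ⟨_, rfl⟩
  have hS0 : 0 < S := by rw [hS]; linarith only [hκ, hdl, he]
  refine ⟨Cu * Kn * Real.exp K * 2 ^ S, Real.exp (-Real.exp (-2)), ?_, ?_⟩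
  · rw [Real.exp_lt_one_iff]
    have := Real.exp_pos (-2)
    linarith only [this]
  intro β R a hβ ha0 ha1
  have hapos : 0 < a := (Real.exp_pos _).trans ha0
  obtain ⟨x, hx⟩ : ∃ x, x = -Real.log a := ⟨_, rfl⟩
  have hx0 : 0 < x := by
    rw [hx]
    have := Real.log_neg hapos ha1
    linarith only [this]
  have hx2 : x ≤ Real.exp (-2) := by
    have := Real.log_le_log (Real.exp_pos _) ha0.le
    rw [Real.log_exp] at this
    rw [hx]
    linarith only [this]
  obtain ⟨l, hl⟩ : ∃ l, l = -Real.log x := ⟨_, rfl⟩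
  have hl2 : 2 ≤ l := by
    have := Real.log_le_log hx0 hx2
    rw [Real.log_exp] at this
    rw [hl]
    linarith only [this]
  have hxl : x = Real.exp (-l) := by rw [hl, neg_neg, Real.exp_log hx0]
  have hxa : Real.exp (-x) = a := by rw [hx, neg_neg, Real.exp_log hapos]
  have hB : ∀ γ : ℂ → ℂ, ExtR γ R → mm κ (bu s) γ l ≤ Real.exp K * Real.exp (S * l) := by
    intro γ hγ
    have h1 := hK ⟨γ, R, hγ⟩ (l - 2) (by linarith only [hl2])
    have h2 : GG κ dl (bu s) γ (l - 2) ≤ K + e * (l - 2) := h1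
    have e1 : l - 2 + 2 = l := by ring
    unfold GG at h2
    rw [e1] at h2
    have hp := mm_pos (κ := κ) hγ cu (bu_nonneg s) hu0 l
    rw [← Real.exp_add]
    calc mm κ (bu s) γ l = Real.exp (Real.log (mm κ (bu s) γ l)) := (Real.exp_log hp).symm
      _ ≤ _ := Real.exp_le_exp.2 (by rw [hS]; (clear * - he h2; linarith only [he, h2]))
  have hfull := full_le cu (bu_per s) hCu.le cov hβ hB
  -- the integral over `0..2π`
  have hN : ∀ α : ℝ, ‖N β (a * Complex.exp (α * I))‖ ^ (-κ) = FF κ β (Real.exp (-l)) α := by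
    intro α
    unfold FF
    congr 3
    rw [← hxl]
    unfold ep
    rw [Complex.exp_add, ← Complex.ofReal_exp, hxa]
  have hper : Function.Periodic (FF κ β (Real.exp (-l))) (2 * π) := FF_per κ β _
  have hshift := hper.intervalIntegral_add_eq 0 (-π)
  rw [zero_add, show -π + 2 * π = π by ring] at hshift
  simp only [hN]
  rw [hshift]
  refine hfull.trans ?_
  have h1a : 0 < 1 - a ^ 2 := by (clear * - ha1 hapos; nlinarith only [ha1, hapos])
  have hxge : (1 - a ^ 2) / 2 ≤ x := by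
    have := Real.add_one_le_exp (-x)
    rw [hxa] at this
    nlinarith only [h1a, this]
  have h9 : Real.exp (S * l) ≤ 2 ^ S * (1 - a ^ 2) ^ (-S) := by
    have e1 : Real.exp (S * l) = x ^ (-S) := by
      rw [Real.rpow_def_of_pos hx0, hl]
      congr 1
      ring
    rw [e1]
    calc x ^ (-S) ≤ ((1 - a ^ 2) / 2) ^ (-S) :=
          Real.rpow_le_rpow_of_nonpos (by (clear * - h1a; positivity)) hxge (by linarith only [hS0])
      _ = _ := by
          rw [Real.div_rpow h1a.le (by norm_num), Real.rpow_neg (by norm_num : (0:ℝ) ≤ 2),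
            div_inv_eq_mul, mul_comm]
  rw [← hS]
  calc Cu * Kn * (Real.exp K * Real.exp (S * l)) = Cu * Kn * Real.exp K * Real.exp (S * l) := by
        ring
    _ ≤ Cu * Kn * Real.exp K * (2 ^ S * (1 - a ^ 2) ^ (-S)) :=
        mul_le_mul_of_nonneg_left h9 (by (clear * - hCu hKn; positivity))
    _ = _ := by ring

/-- the class Σ and all larger powers -/
theorem asmS {κ dl Mb : ℝ} (hκ : 1 ≤ κ) (hdl : 0 ≤ dl) (hMb : 0 ≤ Mb) (hMb2 : Mb < 2 * κ)
    {G : ℂ → ℂ} {Mh : (ℂ → ℂ) → ℂ → ℂ}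
    (hG : ∀ (β : ℂ → ℂ) (R : ℝ), ExtR β R → ContinuousOn (wf G β) {z | 0 < ‖z‖ ∧ ‖z‖ < 1})
    (hMc : ∀ (β : ℂ → ℂ) (R : ℝ), ExtR β R → ContinuousOn (Mh β) {z | 0 < ‖z‖ ∧ ‖z‖ < 1})
    (hM : ∀ β z, ‖Mh β z‖ ≤ Mb) (near : NearStmt κ) (mint : MIntStmt κ dl)
    (mcont : MContStmt κ dl) (ent : EntStmt) (pt : PTStmt κ dl G Mh) (lip : LipStmt κ) :
    ∀ p : ℝ, κ ≤ p → ∀ e : ℝ, 0 < e → ∃ C : ℝ, ∀ ψ : ℂ → ℂ,
      DifferentiableOn ℂ ψ {z : ℂ | 1 < ‖z‖} → InjOn ψ {z : ℂ | 1 < ‖z‖} →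
      (∃ b : ℂ, Filter.Tendsto (fun z => ψ z - z) (Bornology.cobounded ℂ) (nhds b)) →
      ∀ R : ℝ, 1 < R →
      (2 * π)⁻¹ * (∫ θ in (0:ℝ)..(2 * π), ‖deriv ψ (R * Complex.exp (θ * I))‖ ^ (-p)) ≤
        C * (R ^ 2 / (R ^ 2 - 1)) ^ (p - 1 + dl + e) := by
  intro p hp e he
  have h1 := asm hκ hdl hMb hMb2 hG hMc hM near mint mcont ent pt lip e he
  have h2 := Pool.Agent.Helper58.CK.moment_ExtS (by linarith) (by (clear * - hκ hdl he; linarith only [hκ, hdl, he])) h1 p hp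
  have h3 : κ - 1 + dl + e + (p - κ) = p - 1 + dl + e := by ring
  rw [h3] at h2
  exact Pool.Agent.Helper58.CK.finalS h2

end Pool.Agent.Helper52.CK

end

section

namespace Pool.Agent.Helper39.Area
end Pool.Agent.Helper39.Area
namespace Pool.Agent.Helper52.EK
end Pool.Agent.Helper52.EK
namespace Pool.Agent.Helper52.CK
end Pool.Agent.Helper52.CK

/-!
MINT: the interface `MIntStmt` of project CK.
-/

set_option autoImplicit false

open Complex MeasureTheory Metric Set Filter Topology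

open scoped Real ComplexConjugate

namespace Pool.Agent.Helper14.CK

open Pool.Agent.Helper39.Area Pool.Agent.Helper52.EK Pool.Agent.Helper52.CK

section

variable {κ dl a b : ℝ} {W0 : ℂ → ℝ} {Mh β : ℂ → ℂ} {om om' u u' : ℝ → ℝ}

/-- the rectangle times the observers -/
def Rp (a b : ℝ) : Set (ℂ × (ℝ × ℝ)) := Ob b ×ˢ Rect a b

theorem rp_sub (a b : ℝ) : Rp a b ⊆ Sp a b :=
  prod_mono subset_rfl (prod_mono subset_rfl (subset_univ _))

theorem cont_FFs (h : Ext β) (ha : 0 < a) (κ : ℝ) :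
    ContinuousOn (fun s : ℂ × (ℝ × ℝ) => FF κ β s.2.1 s.2.2) (Sp a b) := by
  apply (cont_FF h κ).comp continuous_snd.continuousOn
  intro s hs
  exact lt_of_lt_of_le ha hs.2.1.1

theorem cont_ofReal {f : ℂ × (ℝ × ℝ) → ℝ} {S : Set (ℂ × (ℝ × ℝ))} (hf : ContinuousOn f S) :
    ContinuousOn (fun s => ((f s : ℝ) : ℂ)) S := Complex.continuous_ofReal.comp_continuousOn hf

theorem cont_Ei (h : Ext β) (ha : 0 < a) (hb : 0 < b) (hom : Continuous om)
    (hom' : Continuous om') (hu : Continuous u) (hu' : Continuous u') :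
    ContinuousOn (Ei κ om om' u u' β) (Sp a b) := by
  have h1 := cont_ofReal (cont_FFs (b := b) h ha κ)
  have h2 := cont_kA h ha hb
  have h3 := cont_k1 ha hb
  have h4 := cont_k3 ha hb
  have h5 := cont_k5 ha hb
  have c1 : Continuous fun s : ℂ × (ℝ × ℝ) => om s.2.1 := hom.comp (by fun_prop)
  have c2 : Continuous fun s : ℂ × (ℝ × ℝ) => om' s.2.1 := hom'.comp (by fun_prop)
  have c3 : Continuous fun s : ℂ × (ℝ × ℝ) => u s.2.2 := hu.comp (by fun_prop)
  have c4 : Continuous fun s : ℂ × (ℝ × ℝ) => u' s.2.2 := hu'.comp (by fun_prop)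
  unfold Ei
  apply h1.mul
  apply ContinuousOn.add
  · apply ContinuousOn.add
    · apply ContinuousOn.add
      · apply ContinuousOn.mul
        · exact cont_ofReal (continuous_const.mul (c1.mul c3)).continuousOn
        · apply continuousOn_const.sub
          exact ContinuousOn.mul (by fun_prop) h2
      · exact (cont_ofReal (continuous_const.mul (c1.mul c3)).continuousOn).mul h3
    · exact (cont_ofReal ((continuous_const.mul (c1.mul c3)).add (c2.mul c3)).continuousOn).mul h4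
  · exact (cont_ofReal (c1.mul c4).continuousOn).mul h5

theorem cont_D1 (ha : 0 < a) (hb : 0 < b) : ContinuousOn (D1 κ dl) (Sp a b) := by
  have h3 := cont_k1 ha hb
  have h4 := cont_k3 ha hb
  have h6 := cont_omp (a := a) hb
  have hx : ContinuousOn (fun s : ℂ × (ℝ × ℝ) => ((s.2.1 : ℝ) : ℂ)) (Sp a b) :=
    cont_ofReal (by fun_prop)
  unfold D1
  apply ContinuousOn.sub
  · apply ContinuousOn.add
    · apply ContinuousOn.add
      · exact continuousOn_const.add (continuousOn_const.mul h3)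
      · exact continuousOn_const.mul h4
    · apply continuousOn_const.mul
      apply h4.div hx
      intro s hs
      have : s.2.1 ≠ 0 := (lt_of_lt_of_le ha hs.2.1.1).ne'
      exact_mod_cast this
  · apply continuousOn_const.mul
    exact ContinuousOn.mul (by fun_prop) (h6.pow 2)

theorem cont_Qi (h : Ext β) (ha : 0 < a) (hb : 0 < b) (hom : Continuous om)
    (hom' : Continuous om') (hu : Continuous u) (hu' : Continuous u') :
    ContinuousOn (Qi κ dl om om' u u' β) (Sp a b) := by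
  have h1 := cont_ofReal (cont_FFs (b := b) h ha κ)
  have h4 := cont_k3 ha hb
  have h5 := cont_k5 ha hb
  have h6 := cont_D1 (κ := κ) (dl := dl) ha hb
  have c0 : Continuous fun s : ℂ × (ℝ × ℝ) => s.2.1 := by fun_prop
  have c1 : Continuous fun s : ℂ × (ℝ × ℝ) => om s.2.1 := hom.comp (by fun_prop)
  have c2 : Continuous fun s : ℂ × (ℝ × ℝ) => om' s.2.1 := hom'.comp (by fun_prop)
  have c3 : Continuous fun s : ℂ × (ℝ × ℝ) => u s.2.2 := hu.comp (by fun_prop)
  have c4 : Continuous fun s : ℂ × (ℝ × ℝ) => u' s.2.2 := hu'.comp (by fun_prop)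
  have hx : ContinuousOn (fun s : ℂ × (ℝ × ℝ) => ((s.2.1 : ℝ) : ℂ)) (Sp a b) :=
    cont_ofReal (by fun_prop)
  unfold Qi
  apply h1.mul
  apply ContinuousOn.add
  · apply ContinuousOn.sub
    · exact (cont_ofReal (c1.mul c3).continuousOn).mul h6
    · apply ContinuousOn.mul
      · exact cont_ofReal (((continuous_const.mul c1).sub (c0.mul c2)).mul c3).continuousOn
      · apply h4.div hx
        intro s hs
        have : s.2.1 ≠ 0 := (lt_of_lt_of_le ha hs.2.1.1).ne'
        exact_mod_cast this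
  · exact (cont_ofReal (c1.mul c4).continuousOn).mul h5

/-- complex iterated integral -/
theorem rect_eqC {f : ℝ × ℝ → ℂ} (hab : a ≤ b) (hf : ContinuousOn f (Rect a b)) :
    ∫ p in Rect a b, f p = ∫ x in a..b, ∫ θ in (-π)..π, f (x, θ) := by
  have hπ : -π ≤ π := by linarith only [Real.pi_pos]
  have h1 := integrableOn_rectC hf
  rw [Measure.volume_eq_prod] at h1 ⊢
  rw [Rect, setIntegral_prod _ h1, intervalIntegral.integral_of_le hab, integral_Icc_eq_integral_Ioc]
  refine setIntegral_congr_fun measurableSet_Ioc fun x _ => ?_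
  show ∫ y in Icc (-π) π, f (x, y) = ∫ θ in (-π)..π, f (x, θ)
  rw [intervalIntegral.integral_of_le hπ, integral_Icc_eq_integral_Ioc]

theorem fub_int {f : ℂ × (ℝ × ℝ) → ℝ} (hf : ContinuousOn f (Rp a b)) :
    Integrable (Function.uncurry fun (p : ℝ × ℝ) (z0 : ℂ) => f (z0, p))
      ((volume.restrict (Rect a b)).prod (volume.restrict (Ob b))) := by
  rw [Measure.prod_restrict]
  have h1 : ContinuousOn (fun s : (ℝ × ℝ) × ℂ => f (s.2, s.1)) (Rect a b ×ˢ Ob b) :=
    hf.comp (f := fun s : (ℝ × ℝ) × ℂ => (s.2, s.1)) (by fun_prop) fun s hs => ⟨hs.2, hs.1⟩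
  exact h1.integrableOn_compact (μ := (volume : Measure (ℝ × ℝ)).prod (volume : Measure ℂ))
    ((isCompact_rect a b).prod (isCompact_ob b))

/-- **MINT** -/
theorem mint (hκ : 0 < κ) (hdl : 0 ≤ dl) : MIntStmt κ dl := by
  intro Mb hMb0
  set c1 : ℝ := 9 * Mb / (4 * κ) *
    ((5 * κ + 2 * dl) + 4 * (39 * (κ + 2) + 24 * κ + 48 * (κ + 2 + dl))) with hc1
  have hc10 : 0 ≤ c1 := by (clear * - hMb0 hκ hdl; positivity)
  refine ⟨c1 + 882 + Mb / κ * 108 + 9 * Mb / (4 * κ), by (clear * - hMb0 hκ hdl; positivity), ?_⟩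
  set C1 : ℝ := c1 + 882 + Mb / κ * 108 + 9 * Mb / (4 * κ) with hC1
  have hA1 : 0 ≤ Mb / κ * 108 := by positivity
  have hA2 : 0 ≤ 9 * Mb / (4 * κ) := by positivity
  have hC1a : c1 ≤ C1 := by linarith only [hA1, hA2]
  have hC1b : 882 ≤ C1 := by (clear * - hc10 hA1 hA2; linarith only [hc10, hA1, hA2])
  have hC1c : Mb / κ * 108 ≤ C1 := by linarith only [hc10, hA2]
  have hC1d : 9 * Mb / (4 * κ) ≤ C1 := by linarith only [hc10, hA1]
  intro om om' u u' a b hwt husupp β R η hR hη hE W0 Mh hW hM hMb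
  have hext : Ext β := hR.toExt
  have ha := hwt.a0
  have hab := hwt.ab
  have hb : 0 < b := ha.trans hab
  have hb1 := hwt.b1
  have hom : Continuous om := continuous_iff_continuousAt.mpr fun x => (hwt.dom x).continuousAt
  have hu : Continuous u := continuous_iff_continuousAt.mpr fun x => (hwt.du x).continuousAt
  have hom' := hwt.com
  have hu' := hwt.cu
  have hpi := Real.pi_pos
  have hrx : ∀ p ∈ Rect a b, 0 < p.1 := fun p hp => lt_of_lt_of_le ha hp.1.1
  -- continuity on the rectangle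
  have cF : ContinuousOn (fun p : ℝ × ℝ => FF κ β p.1 p.2) (Rect a b) :=
    (cont_FF hext κ).mono hrx
  have cMM : ContinuousOn (fun p : ℝ × ℝ => MM κ dl W0 Mh β p.1 p.2) (Rect a b) :=
    MM_contOn hext ha hb hW hM _ _
  have co : Continuous fun p : ℝ × ℝ => om p.1 := hom.comp continuous_fst
  have co' : Continuous fun p : ℝ × ℝ => om' p.1 := hom'.comp continuous_fst
  have cu : Continuous fun p : ℝ × ℝ => u p.2 := hu.comp continuous_snd
  have cu' : Continuous fun p : ℝ × ℝ => u' p.2 := hu'.comp continuous_snd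
  have cL : ContinuousOn (fun p : ℝ × ℝ => om p.1 * u p.2 * FF κ β p.1 p.2 *
      MM κ dl W0 Mh β p.1 p.2) (Rect a b) := ((co.mul cu).continuousOn.mul cF).mul cMM
  have cJ : ContinuousOn (fun p : ℝ × ℝ => om p.1 * u p.2 * FF κ β p.1 p.2) (Rect a b) :=
    (co.mul cu).continuousOn.mul cF
  have cS : ContinuousOn (fun p : ℝ × ℝ =>
      |(κ - 2 + dl) * om p.1 - p.1 * om' p.1| * u p.2 * FF κ β p.1 p.2) (Rect a b) :=
    ((((continuous_const.mul co).sub (continuous_fst.mul co')).abs.mul cu).continuousOn).mul cF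
  have cT : ContinuousOn (fun p : ℝ × ℝ => om p.1 * |u' p.2| * FF κ β p.1 p.2) (Rect a b) :=
    ((co.mul cu'.abs).continuousOn).mul cF
  have hL : RR a b (fun x θ => om x * u θ * FF κ β x θ * MM κ dl W0 Mh β x θ)
      = ∫ p in Rect a b, om p.1 * u p.2 * FF κ β p.1 p.2 * MM κ dl W0 Mh β p.1 p.2 :=
    (rect_eq hab.le cL).symm
  have hJ : JJ κ om u a b β = ∫ p in Rect a b, om p.1 * u p.2 * FF κ β p.1 p.2 :=
    (rect_eq hab.le cJ).symm
  have hS : RR a b (fun x θ => |(κ - 2 + dl) * om x - x * om' x| * u θ * FF κ β x θ)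
      = ∫ p in Rect a b, |(κ - 2 + dl) * om p.1 - p.1 * om' p.1| * u p.2 * FF κ β p.1 p.2 :=
    (rect_eq hab.le cS).symm
  have hT : RR a b (fun x θ => om x * |u' θ| * FF κ β x θ)
      = ∫ p in Rect a b, om p.1 * |u' p.2| * FF κ β p.1 p.2 :=
    (rect_eq hab.le cT).symm
  rw [hL, hJ, hS, hT]
  -- continuity on observers times rectangle
  have cC : ContinuousOn (fun s : ℂ × (ℝ × ℝ) => Cm κ W0 Mh s.1) (Rp a b) :=
    (Cm_cont hκ hb hW hM).comp continuous_fst.continuousOn fun s hs => hs.1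
  have cE : ContinuousOn (Ei κ om om' u u' β) (Rp a b) :=
    (cont_Ei hext ha hb hom hom' hu hu').mono (rp_sub a b)
  have cQ : ContinuousOn (Qi κ dl om om' u u' β) (Rp a b) :=
    (cont_Qi hext ha hb hom hom' hu hu').mono (rp_sub a b)
  have cCE : ContinuousOn (fun s => (Cm κ W0 Mh s.1 * Ei κ om om' u u' β s).re) (Rp a b) :=
    Complex.continuous_re.comp_continuousOn (cC.mul cE)
  have cCQ : ContinuousOn (fun s => (Cm κ W0 Mh s.1 * Qi κ dl om om' u u' β s).re) (Rp a b) :=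
    Complex.continuous_re.comp_continuousOn (cC.mul cQ)
  have hOm : MeasurableSet (Ob b) := (isClosed_ob b).measurableSet
  have slice : ∀ (f : ℂ × (ℝ × ℝ) → ℝ), ContinuousOn f (Rp a b) → ∀ p ∈ Rect a b,
      IntegrableOn (fun z0 => f (z0, p)) (Ob b) := by
    intro f hf p hp
    apply ContinuousOn.integrableOn_compact (isCompact_ob b)
    exact hf.comp (by fun_prop) fun z hz => ⟨hz, hp⟩
  -- the two integrands
  obtain ⟨gE, hgE⟩ : ∃ g : ℂ × (ℝ × ℝ) → ℝ, g = fun s =>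
    (Cm κ W0 Mh s.1 * Ei κ om om' u u' β s).re := ⟨_, rfl⟩
  obtain ⟨gQ, hgQ⟩ : ∃ g : ℂ × (ℝ × ℝ) → ℝ, g = fun s =>
    (Cm κ W0 Mh s.1 * Qi κ dl om om' u u' β s).re := ⟨_, rfl⟩
  rw [← hgE] at cCE
  rw [← hgQ] at cCQ
  have sE : ∀ p ∈ Rect a b, IntegrableOn (fun z0 => gE (z0, p)) (Ob b) := slice _ cCE
  have sQ : ∀ p ∈ Rect a b, IntegrableOn (fun z0 => gQ (z0, p)) (Ob b) := slice _ cCQ
  -- the pointwise identity
  have hpt : ∀ p ∈ Rect a b, om p.1 * u p.2 * FF κ β p.1 p.2 * MM κ dl W0 Mh β p.1 p.2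
      = -(∫ z0 in Ob b, gE (z0, p)) + ∫ z0 in Ob b, gQ (z0, p) := by
    intro p hp
    have e1 : om p.1 * u p.2 * FF κ β p.1 p.2 * MM κ dl W0 Mh β p.1 p.2
        = ∫ z0 in Ob b, om p.1 * u p.2 * FF κ β p.1 p.2 * (π⁻¹ * gM κ dl W0 Mh β (z0, p)) := by
      rw [integral_const_mul, integral_const_mul, MM_ob hW]
    have e2 : ∫ z0 in Ob b, om p.1 * u p.2 * FF κ β p.1 p.2 * (π⁻¹ * gM κ dl W0 Mh β (z0, p))
        = ∫ z0 in Ob b, (-gE (z0, p) + gQ (z0, p)) := by
      apply setIntegral_congr_fun hOm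
      intro z0 hz
      rw [hgE, hgQ]
      exact re_id hκ om om' u u' (s := (z0, p)) (hrx p hp).ne' hz
    have e3 : ∫ z0 in Ob b, (-gE (z0, p) + gQ (z0, p))
        = (∫ z0 in Ob b, -gE (z0, p)) + ∫ z0 in Ob b, gQ (z0, p) :=
      integral_add (sE p hp).neg (sQ p hp)
    rw [e1, e2, e3, integral_neg]
  -- Fubini
  have hIE := fub_int cCE
  have hIQ := fub_int cCQ
  have iE : Integrable (fun p => ∫ z0 in Ob b, gE (z0, p)) (volume.restrict (Rect a b)) :=
    hIE.integral_prod_left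
  have iQ : Integrable (fun p => ∫ z0 in Ob b, gQ (z0, p)) (volume.restrict (Rect a b)) :=
    hIQ.integral_prod_left
  have hsplit : ∫ p in Rect a b, om p.1 * u p.2 * FF κ β p.1 p.2 * MM κ dl W0 Mh β p.1 p.2
      = -(∫ p in Rect a b, ∫ z0 in Ob b, gE (z0, p))
        + ∫ p in Rect a b, ∫ z0 in Ob b, gQ (z0, p) := by
    have e1 : ∫ p in Rect a b, om p.1 * u p.2 * FF κ β p.1 p.2 * MM κ dl W0 Mh β p.1 p.2
        = ∫ p in Rect a b, (-(∫ z0 in Ob b, gE (z0, p)) + ∫ z0 in Ob b, gQ (z0, p)) := by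
      apply setIntegral_congr_fun (measurableSet_rect a b)
      intro p hp
      exact hpt p hp
    have e2 : ∫ p in Rect a b, (-(∫ z0 in Ob b, gE (z0, p)) + ∫ z0 in Ob b, gQ (z0, p))
        = (∫ p in Rect a b, -(∫ z0 in Ob b, gE (z0, p)))
          + ∫ p in Rect a b, ∫ z0 in Ob b, gQ (z0, p) := integral_add iE.neg iQ
    rw [e1, e2, integral_neg]
  -- the critical part
  have hcrit : |∫ p in Rect a b, ∫ z0 in Ob b, gE (z0, p)| ≤ 9 * Mb / (4 * κ) * η := by
    rw [integral_integral_swap hIE]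
    have h1 : ∀ z0 ∈ Ob b, ‖∫ p in Rect a b, gE (z0, p)‖ ≤ 9 * Mb / (4 * π * κ) * η := by
      intro z0 hz
      rw [hgE]
      have c0 : ContinuousOn (fun p => Ei κ om om' u u' β (z0, p)) (Rect a b) :=
        cE.comp (by fun_prop) fun p hp => ⟨hz, hp⟩
      have hi0 : IntegrableOn (fun p => Cm κ W0 Mh z0 * Ei κ om om' u u' β (z0, p))
          (Rect a b) := integrableOn_rectC (continuousOn_const.mul c0)
      have e1 : ∫ p in Rect a b, (Cm κ W0 Mh z0 * Ei κ om om' u u' β (z0, p)).re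
          = (Cm κ W0 Mh z0 * EE κ om om' u u' a b β z0).re := by
        have e2 : EE κ om om' u u' a b β z0 = ∫ p in Rect a b, Ei κ om om' u u' β (z0, p) :=
          (rect_eqC hab.le c0).symm
        rw [e2, ← integral_const_mul]
        exact integral_re hi0
      rw [e1]
      have h2 := Cm_le hκ hW hMb hz
      have h3 := hE z0 hz.1 hz.2.1
      have h4 := ob_inv hz
      calc ‖(Cm κ W0 Mh z0 * EE κ om om' u u' a b β z0).re‖
          ≤ ‖Cm κ W0 Mh z0 * EE κ om om' u u' a b β z0‖ := by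
            rw [Real.norm_eq_abs]
            exact Complex.abs_re_le_norm _
        _ = ‖Cm κ W0 Mh z0‖ * ‖EE κ om om' u u' a b β z0‖ := norm_mul _ _
        _ ≤ (Mb / (4 * π * κ) * (1 / ‖z0‖ ^ 2)) * η := by (clear * - h2 h3 hMb0 hκ; gcongr)
        _ ≤ (Mb / (4 * π * κ) * 9) * η := by (clear * - h4 hMb0 hκ hη; gcongr)
        _ = 9 * Mb / (4 * π * κ) * η := by ring
    have h2 := norm_setIntegral_le_of_norm_le_const (μ := volume) (s := Ob b)
      (isCompact_ob b).measure_lt_top h1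
    rw [Real.norm_eq_abs] at h2
    refine h2.trans ?_
    have h3 : (volume : Measure ℂ).real (Ob b) ≤ π := by
      have h4 : (volume : Measure ℂ).real (Ob b) ≤ (volume : Measure ℂ).real (ball (0:ℂ) 1) := by
        apply measureReal_mono _ measure_ball_lt_top.ne
        intro z hz
        rw [mem_ball, dist_zero_right]
        exact ob_lt hb hz
      have h5 : (volume : Measure ℂ).real (ball (0:ℂ) 1) = π := by
        rw [Measure.real, Complex.volume_ball]
        simp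
      linarith only [h4, h5]
    calc 9 * Mb / (4 * π * κ) * η * (volume : Measure ℂ).real (Ob b)
        ≤ 9 * Mb / (4 * π * κ) * η * π := by (clear * - h3 hMb0 hκ hη; gcongr)
      _ = 9 * Mb / (4 * κ) * η := by
        (clear * - hκ; field_simp)
  -- the kernel part
  have hker : ∫ p in Rect a b, ∫ z0 in Ob b, gQ (z0, p)
      ≤ ∫ p in Rect a b, (c1 * (om p.1 * u p.2 * FF κ β p.1 p.2)
        + (Mb / (2 * κ) * (-Real.log b + 882)) *
          (|(κ - 2 + dl) * om p.1 - p.1 * om' p.1| * u p.2 * FF κ β p.1 p.2)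
        + (Mb / κ * 108) * (om p.1 * |u' p.2| * FF κ β p.1 p.2)) := by
    apply setIntegral_mono_on iQ
    · exact integrableOn_rect (((continuousOn_const.mul cJ).add (continuousOn_const.mul cS)).add
        (continuousOn_const.mul cT))
    · exact measurableSet_rect a b
    · intro p hp
      rw [hgQ] at sQ ⊢
      have h1 := Qint_le (β := β) (W0 := W0) (Mh := Mh) (om := om) (om' := om') (u := u) (u' := u')
        hκ hdl hW hMb hwt.u0 hwt.om0 (x := p.1) (θ := p.2)
        (hrx p hp) hp.1.2 hb1 (husupp p.2 hp.2) (sQ p hp)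
      refine h1.trans (le_of_eq ?_)
      rw [hc1]
      ring
  have hker2 : ∫ p in Rect a b, (c1 * (om p.1 * u p.2 * FF κ β p.1 p.2)
        + (Mb / (2 * κ) * (-Real.log b + 882)) *
          (|(κ - 2 + dl) * om p.1 - p.1 * om' p.1| * u p.2 * FF κ β p.1 p.2)
        + (Mb / κ * 108) * (om p.1 * |u' p.2| * FF κ β p.1 p.2))
      = c1 * (∫ p in Rect a b, om p.1 * u p.2 * FF κ β p.1 p.2)
        + (Mb / (2 * κ) * (-Real.log b + 882)) *
          (∫ p in Rect a b, |(κ - 2 + dl) * om p.1 - p.1 * om' p.1| * u p.2 * FF κ β p.1 p.2)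
        + (Mb / κ * 108) * (∫ p in Rect a b, om p.1 * |u' p.2| * FF κ β p.1 p.2) := by
    have i1 := (integrableOn_rect cJ).const_mul c1
    have i2 := (integrableOn_rect cS).const_mul (Mb / (2 * κ) * (-Real.log b + 882))
    have i3 := (integrableOn_rect cT).const_mul (Mb / κ * 108)
    have e1 := integral_add (i1.add i2) i3
    have e2 := integral_add i1 i2
    simp only [Pi.add_apply] at e1 e2
    rw [e1, e2, integral_const_mul, integral_const_mul, integral_const_mul]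
  have hJ0 : 0 ≤ ∫ p in Rect a b, om p.1 * u p.2 * FF κ β p.1 p.2 := by
    apply integral_nonneg
    intro p
    exact mul_nonneg (mul_nonneg (hwt.om0 _) (hwt.u0 _)) (FF_nn _ _ _ _)
  have hS0 : 0 ≤ ∫ p in Rect a b,
      |(κ - 2 + dl) * om p.1 - p.1 * om' p.1| * u p.2 * FF κ β p.1 p.2 := by
    apply integral_nonneg
    intro p
    exact mul_nonneg (mul_nonneg (abs_nonneg _) (hwt.u0 _)) (FF_nn _ _ _ _)
  have hT0 : 0 ≤ ∫ p in Rect a b, om p.1 * |u' p.2| * FF κ β p.1 p.2 := by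
    apply integral_nonneg
    intro p
    exact mul_nonneg (mul_nonneg (hwt.om0 _) (abs_nonneg _)) (FF_nn _ _ _ _)
  rw [hsplit]
  rw [hker2] at hker
  have h1 := neg_le_of_abs_le hcrit
  have h2 : 9 * Mb / (4 * κ) * η ≤ C1 * η := by (clear * - hC1d hη; gcongr)
  have h3 : c1 * (∫ p in Rect a b, om p.1 * u p.2 * FF κ β p.1 p.2)
      ≤ C1 * (∫ p in Rect a b, om p.1 * u p.2 * FF κ β p.1 p.2) := by (clear * - hC1a hJ0; gcongr)
  have h4 : (Mb / (2 * κ) * (-Real.log b + 882)) *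
      (∫ p in Rect a b, |(κ - 2 + dl) * om p.1 - p.1 * om' p.1| * u p.2 * FF κ β p.1 p.2)
      ≤ (Mb / (2 * κ) * (-Real.log b + C1)) *
      (∫ p in Rect a b, |(κ - 2 + dl) * om p.1 - p.1 * om' p.1| * u p.2 * FF κ β p.1 p.2) := by
    (clear * - hC1b hMb0 hκ hS0; gcongr)
  have h5 : (Mb / κ * 108) * (∫ p in Rect a b, om p.1 * |u' p.2| * FF κ β p.1 p.2)
      ≤ C1 * (∫ p in Rect a b, om p.1 * |u' p.2| * FF κ β p.1 p.2) := by (clear * - hC1c hT0; gcongr)
  linarith only [hker, h1, h2, h3, h4, h5]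

/-- continuity of `MM`, in the form used by the assembly -/
theorem MM_cont {κ dl Mb a b R : ℝ} {W0 : ℂ → ℝ} {Mh β : ℂ → ℂ} (hW : Cutf b W0)
    (hM : ContinuousOn Mh {z | 0 < ‖z‖ ∧ ‖z‖ < 1}) (_hMb : ∀ z, ‖Mh z‖ ≤ Mb) (hR : ExtR β R)
    (ha : 0 < a) (hab : a ≤ b) :
    ContinuousOn (fun p : ℝ × ℝ => MM κ dl W0 Mh β p.1 p.2)
      (Icc a b ×ˢ Icc (-(1 / 2)) (1 / 2)) :=
  MM_contOn hR.toExt ha (ha.trans_le hab) hW hM _ _

end

end Pool.Agent.Helper14.CK

end

section

set_option autoImplicit false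

open Complex MeasureTheory Metric Set

open scoped Real ComplexConjugate ContDiff

namespace Pool.Agent.Helper14.CK

/-- the term of the multiplier is continuous on the closed rectangles of the target -/
theorem mcont (κ dl : ℝ) : Pool.Agent.Helper52.CK.MContStmt κ dl := by
  intro a b ha hab _ β R hR W0 Mh Mb hW hM hMb
  exact MM_cont hW hM hMb hR ha hab.le

end Pool.Agent.Helper14.CK

end

section

namespace Pool.Agent.Helper39.Area
end Pool.Agent.Helper39.Area
namespace Pool.Agent.Helper52.EK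
end Pool.Agent.Helper52.EK
namespace Pool.Agent.Helper61.EK
end Pool.Agent.Helper61.EK

set_option autoImplicit false

open Complex MeasureTheory Metric Set

open scoped Real ComplexConjugate

namespace Pool.Agent.Helper58.CK

open Pool.Agent.Helper39.Area Pool.Agent.Helper52.EK Pool.Agent.Helper61.EK

/-- ENT for a positive cut-off function -/
theorem ent_pos {C : ℝ}
    (hE : ∀ (ρ : ℝ → ℝ) (w : ℂ → ℂ) (a : ℝ), Dens ρ →
      ContinuousOn w {z | 0 < ‖z‖ ∧ ‖z‖ < 1} → Real.exp (-1) < a → a < 1 →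
      -Real.log (1 - a ^ 2) - C ≤ (2 * π)⁻¹ * (∫ α in (0:ℝ)..(2 * π), ρ α * Real.log (ρ α)) +
        (2 * π)⁻¹ * ∫ α in (0:ℝ)..(2 * π), ρ α * Kf w (Complex.exp (α * I)) (-1) (Real.log a))
    {κ : ℝ} {β : ℂ → ℂ} {R a : ℝ} {w : ℂ → ℂ} {u : ℝ → ℝ} (h : ExtR β R)
    (hw : ContinuousOn w {z | 0 < ‖z‖ ∧ ‖z‖ < 1}) (hae : Real.exp (-1) < a) (ha1 : a < 1)
    (hu : Continuous u) (hu0 : ∀ α, 0 < u α) (hu1 : ∀ α, u α ≤ 1)
    (hper : Function.Periodic u (2 * π)) :
    ((2 * π)⁻¹ * ∫ α in (0:ℝ)..(2 * π), u α * ‖N β (a * Complex.exp (α * I))‖ ^ (-κ)) *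
        Real.log ((2 * π)⁻¹ * ∫ α in (0:ℝ)..(2 * π),
          u α * ‖N β (a * Complex.exp (α * I))‖ ^ (-κ)) ≤
      ((2 * π)⁻¹ * ∫ α in (0:ℝ)..(2 * π), u α * ‖N β (a * Complex.exp (α * I))‖ ^ (-κ)) *
        (Real.log (1 - a ^ 2) + C) +
      (2 * π)⁻¹ * ∫ α in (0:ℝ)..(2 * π), u α * ‖N β (a * Complex.exp (α * I))‖ ^ (-κ) *
        (Kf w (Complex.exp (α * I)) (-1) (Real.log a) -
          κ * Real.log ‖N β (a * Complex.exp (α * I))‖) := by
  have hap : 0 < a := (Real.exp_pos _).trans hae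
  have h2π : (0:ℝ) < 2 * π := by positivity
  obtain ⟨f, hf⟩ : ∃ f : ℝ → ℝ, f = fun α : ℝ => ‖N β (a * Complex.exp (α * I))‖ := ⟨_, rfl⟩
  have hfe : ∀ α : ℝ, ‖N β (a * Complex.exp (α * I))‖ = f α := fun α => by rw [hf]
  simp only [hfe]
  have hfc : Continuous f := by rw [hf]; exact (N_circ_cont h hap ha1).norm
  have hfp : ∀ α, 0 < f α := fun α => by rw [hf]; exact N_circ_pos h hap ha1 α
  have hfper : Function.Periodic f (2 * π) := by
    intro α
    rw [← hfe, ← hfe, exp_per]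
  obtain ⟨g, hg⟩ : ∃ g : ℝ → ℝ, g = fun α => u α * f α ^ (-κ) := ⟨_, rfl⟩
  have hge : ∀ α : ℝ, u α * f α ^ (-κ) = g α := fun α => by rw [hg]
  simp only [hge]
  have hgc : Continuous g := by
    rw [hg]; exact hu.mul (hfc.rpow_const (fun α => Or.inl (hfp α).ne'))
  have hgp : ∀ α, 0 < g α := fun α => by
    rw [hg]; exact mul_pos (hu0 α) (Real.rpow_pos_of_pos (hfp α) _)
  have hI : 0 < ∫ α in (0:ℝ)..(2 * π), g α :=
    intervalIntegral.intervalIntegral_pos_of_pos (hgc.intervalIntegrable _ _) hgp h2π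
  obtain ⟨M, hM⟩ : ∃ M : ℝ, M = (2 * π)⁻¹ * (∫ α in (0:ℝ)..(2 * π), g α) := ⟨_, rfl⟩
  rw [← hM]
  have hMp : 0 < M := by rw [hM]; exact mul_pos (inv_pos.mpr h2π) hI
  have hdens : Dens (fun α => M⁻¹ * g α) := by
    refine ⟨continuous_const.mul hgc, fun α => mul_pos (inv_pos.mpr hMp) (hgp α), ?_, ?_⟩
    · intro α
      simp only [hg]
      rw [hfper α, hper α]
    · rw [intervalIntegral.integral_const_mul, hM]
      (clear * - hI; field_simp)
  have hlog1 : -1 < Real.log a := (Real.lt_log_iff_exp_lt hap).mpr hae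
  have hlog2 : Real.log a < 0 := Real.log_neg hap ha1
  have hKc : Continuous (fun α : ℝ => Kf w (Complex.exp (α * I)) (-1) (Real.log a)) :=
    Pool.Agent.Helper26.EK.Kf_cont hw hlog1 hlog2
  have hmain := hE _ w a hdens hw hae ha1
  have hlogg : ∀ α, Real.log (M⁻¹ * g α) ≤ -κ * Real.log (f α) - Real.log M := by
    intro α
    rw [Real.log_mul (inv_pos.mpr hMp).ne' (hgp α).ne', Real.log_inv]
    have : Real.log (g α) = Real.log (u α) - κ * Real.log (f α) := by
      rw [← hge, Real.log_mul (hu0 α).ne' (Real.rpow_pos_of_pos (hfp α) _).ne',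
        Real.log_rpow (hfp α)]
      ring
    rw [this]
    have := Real.log_nonpos (hu0 α).le (hu1 α)
    (clear * - this; linarith only [this])
  have hi1 : IntervalIntegrable (fun α => M⁻¹ * g α * Real.log (M⁻¹ * g α)) volume 0 (2 * π) :=
    ((continuous_const.mul hgc).mul ((continuous_const.mul hgc).log
      fun α => (mul_pos (inv_pos.mpr hMp) (hgp α)).ne')).intervalIntegrable _ _
  have hi2 : IntervalIntegrable
      (fun α => M⁻¹ * g α * Kf w (Complex.exp (α * I)) (-1) (Real.log a)) volume 0 (2 * π) :=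
    ((continuous_const.mul hgc).mul hKc).intervalIntegrable _ _
  have hi3 : IntervalIntegrable (fun α => g α *
      (Kf w (Complex.exp (α * I)) (-1) (Real.log a) - κ * Real.log (f α))) volume 0 (2 * π) :=
    (hgc.mul (hKc.sub (continuous_const.mul
      (hfc.log fun α => (hfp α).ne')))).intervalIntegrable _ _
  have hsum : (∫ α in (0:ℝ)..(2 * π), M⁻¹ * g α * Real.log (M⁻¹ * g α)) +
      (∫ α in (0:ℝ)..(2 * π), M⁻¹ * g α * Kf w (Complex.exp (α * I)) (-1) (Real.log a)) ≤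
      M⁻¹ * (∫ α in (0:ℝ)..(2 * π), g α *
        (Kf w (Complex.exp (α * I)) (-1) (Real.log a) - κ * Real.log (f α))) -
        M⁻¹ * (∫ α in (0:ℝ)..(2 * π), g α) * Real.log M := by
    have hA : IntervalIntegrable (fun α => M⁻¹ * (g α *
        (Kf w (Complex.exp (α * I)) (-1) (Real.log a) - κ * Real.log (f α)))) volume 0 (2 * π) :=
      hi3.const_mul _
    have hB : IntervalIntegrable (fun α => M⁻¹ * (g α * Real.log M)) volume 0 (2 * π) :=
      (continuous_const.mul (hgc.mul continuous_const)).intervalIntegrable _ _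
    have e6 : M⁻¹ * (∫ α in (0:ℝ)..(2 * π), g α *
        (Kf w (Complex.exp (α * I)) (-1) (Real.log a) - κ * Real.log (f α))) -
        M⁻¹ * (∫ α in (0:ℝ)..(2 * π), g α) * Real.log M =
        ∫ α in (0:ℝ)..(2 * π), (M⁻¹ * (g α *
        (Kf w (Complex.exp (α * I)) (-1) (Real.log a) - κ * Real.log (f α))) -
        M⁻¹ * (g α * Real.log M)) := by
      rw [intervalIntegral.integral_sub hA hB, intervalIntegral.integral_const_mul,
        intervalIntegral.integral_const_mul, intervalIntegral.integral_mul_const]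
      ring
    rw [e6, ← intervalIntegral.integral_add hi1 hi2]
    apply intervalIntegral.integral_mono_on h2π.le (hi1.add hi2) (hA.sub hB)
    intro α _
    have h1 := mul_le_mul_of_nonneg_left (hlogg α) (mul_pos (inv_pos.mpr hMp) (hgp α)).le
    show M⁻¹ * g α * Real.log (M⁻¹ * g α) +
      M⁻¹ * g α * Kf w (Complex.exp (α * I)) (-1) (Real.log a) ≤ _
    (clear * - h1; linarith only [h1])
  have hone : (2 * π)⁻¹ * (M⁻¹ * (∫ α in (0:ℝ)..(2 * π), g α) * Real.log M) = Real.log M := by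
    have e : (2 * π)⁻¹ * (M⁻¹ * (∫ α in (0:ℝ)..(2 * π), g α) * Real.log M) =
        M⁻¹ * ((2 * π)⁻¹ * (∫ α in (0:ℝ)..(2 * π), g α)) * Real.log M := by ring
    rw [e, ← hM, inv_mul_cancel₀ hMp.ne', one_mul]
  have hsum2 := mul_le_mul_of_nonneg_left hsum (inv_pos.mpr h2π).le
  rw [mul_add, mul_sub, hone] at hsum2
  have h3 := hmain.trans hsum2
  have h4 := mul_le_mul_of_nonneg_left h3 hMp.le
  have e5 : M * ((2 * π)⁻¹ * (M⁻¹ * (∫ α in (0:ℝ)..(2 * π), g α *
        (Kf w (Complex.exp (α * I)) (-1) (Real.log a) - κ * Real.log (f α)))) - Real.log M) =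
      (2 * π)⁻¹ * (∫ α in (0:ℝ)..(2 * π), g α *
        (Kf w (Complex.exp (α * I)) (-1) (Real.log a) - κ * Real.log (f α))) -
        M * Real.log M := by
    obtain ⟨Q, hQ⟩ : ∃ Q : ℝ, Q = ∫ α in (0:ℝ)..(2 * π), g α *
        (Kf w (Complex.exp (α * I)) (-1) (Real.log a) - κ * Real.log (f α)) := ⟨_, rfl⟩
    rw [← hQ]
    (clear * - hMp; field_simp)
  rw [e5] at h4
  (clear * - h4; linarith only [h4])

/-- ENT: the entropy inequality for the localised Gibbs density on one circle -/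
theorem ent : ∃ C : ℝ, ∀ (κ : ℝ) (β : ℂ → ℂ) (R a : ℝ) (w : ℂ → ℂ) (u : ℝ → ℝ), ExtR β R →
    ContinuousOn w {z | 0 < ‖z‖ ∧ ‖z‖ < 1} → Real.exp (-1) < a → a < 1 →
    Continuous u → (∀ α, 0 ≤ u α) → (∀ α, u α ≤ 1) → Function.Periodic u (2 * π) →
    ((2 * π)⁻¹ * ∫ α in (0:ℝ)..(2 * π), u α * ‖N β (a * Complex.exp (α * I))‖ ^ (-κ)) *
        Real.log ((2 * π)⁻¹ * ∫ α in (0:ℝ)..(2 * π),
          u α * ‖N β (a * Complex.exp (α * I))‖ ^ (-κ)) ≤
      ((2 * π)⁻¹ * ∫ α in (0:ℝ)..(2 * π), u α * ‖N β (a * Complex.exp (α * I))‖ ^ (-κ)) *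
        (Real.log (1 - a ^ 2) + C) +
      (2 * π)⁻¹ * ∫ α in (0:ℝ)..(2 * π), u α * ‖N β (a * Complex.exp (α * I))‖ ^ (-κ) *
        (Kf w (Complex.exp (α * I)) (-1) (Real.log a) -
          κ * Real.log ‖N β (a * Complex.exp (α * I))‖) := by
  obtain ⟨C, hE⟩ := Pool.Agent.Helper5.EK.entropy
  refine ⟨C, ?_⟩
  intro κ β R a w u h hw hae ha1 hu hu0 hu1 hper
  have hap : 0 < a := (Real.exp_pos _).trans hae
  have hlog1 : -1 < Real.log a := (Real.lt_log_iff_exp_lt hap).mpr hae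
  have hlog2 : Real.log a < 0 := Real.log_neg hap ha1
  have hKc : Continuous (fun α : ℝ => Kf w (Complex.exp (α * I)) (-1) (Real.log a)) :=
    Pool.Agent.Helper26.EK.Kf_cont hw hlog1 hlog2
  have hfc : Continuous (fun α : ℝ => ‖N β (a * Complex.exp (α * I))‖) :=
    (N_circ_cont h hap ha1).norm
  have hfp : ∀ α : ℝ, 0 < ‖N β (a * Complex.exp (α * I))‖ := fun α => N_circ_pos h hap ha1 α
  have hFc : Continuous (fun α : ℝ => ‖N β (a * Complex.exp (α * I))‖ ^ (-κ)) :=
    hfc.rpow_const (fun α => Or.inl (hfp α).ne')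
  obtain ⟨F, hF⟩ : ∃ F : ℝ → ℝ, F = fun α : ℝ => ‖N β (a * Complex.exp (α * I))‖ ^ (-κ) := ⟨_, rfl⟩
  obtain ⟨K, hK⟩ : ∃ K : ℝ → ℝ, K = fun α : ℝ => Kf w (Complex.exp (α * I)) (-1) (Real.log a) -
      κ * Real.log ‖N β (a * Complex.exp (α * I))‖ := ⟨_, rfl⟩
  have hKc' : Continuous K := by
    rw [hK]; exact hKc.sub (continuous_const.mul (hfc.log fun α => (hfp α).ne'))
  rw [← hF] at hFc
  have hFe : ∀ α : ℝ, ‖N β (a * Complex.exp (α * I))‖ ^ (-κ) = F α := fun α => by rw [hF]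
  have hKe : ∀ α : ℝ, Kf w (Complex.exp (α * I)) (-1) (Real.log a) -
      κ * Real.log ‖N β (a * Complex.exp (α * I))‖ = K α := fun α => by rw [hK]
  simp only [hFe, hKe]
  -- the means as affine functions of the regularisation
  obtain ⟨m0, hm0⟩ : ∃ m0 : ℝ, m0 = ∫ α in (0:ℝ)..(2 * π), u α * F α := ⟨_, rfl⟩
  obtain ⟨m1, hm1⟩ : ∃ m1 : ℝ, m1 = ∫ α in (0:ℝ)..(2 * π), F α := ⟨_, rfl⟩
  obtain ⟨k0, hk0⟩ : ∃ k0 : ℝ, k0 = ∫ α in (0:ℝ)..(2 * π), u α * F α * K α := ⟨_, rfl⟩
  obtain ⟨k1, hk1⟩ : ∃ k1 : ℝ, k1 = ∫ α in (0:ℝ)..(2 * π), F α * K α := ⟨_, rfl⟩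
  rw [← hm0, ← hk0]
  have hcase : ∀ e : ℝ, 0 < e →
      ((2 * π)⁻¹ * ((1 + e)⁻¹ * (m0 + e * m1))) *
        Real.log ((2 * π)⁻¹ * ((1 + e)⁻¹ * (m0 + e * m1))) ≤
      ((2 * π)⁻¹ * ((1 + e)⁻¹ * (m0 + e * m1))) * (Real.log (1 - a ^ 2) + C) +
      (2 * π)⁻¹ * ((1 + e)⁻¹ * (k0 + e * k1)) := by
    intro e he
    have h1 := ent_pos hE (κ := κ) (u := fun α => (1 + e)⁻¹ * (u α + e)) h hw hae ha1
      (continuous_const.mul (hu.add continuous_const))
      (fun α => mul_pos (by (clear * - he; positivity)) (by have := hu0 α; linarith only [he, this]))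
      (fun α => by
        rw [inv_mul_le_iff₀ (by (clear * - he; positivity))]
        have := hu1 α
        (clear * - this; linarith))
      (fun α => by simp only [hper α])
    simp only [hFe, hKe] at h1
    have hj3 : IntervalIntegrable (fun α => u α * F α) volume 0 (2 * π) :=
      (hu.mul hFc).intervalIntegrable _ _
    have hj4 : IntervalIntegrable (fun α => e * F α) volume 0 (2 * π) :=
      (continuous_const.mul hFc).intervalIntegrable _ _
    have e1 : (∫ α in (0:ℝ)..(2 * π), (1 + e)⁻¹ * (u α + e) * F α) =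
        (1 + e)⁻¹ * (m0 + e * m1) := by
      rw [hm0, hm1, ← intervalIntegral.integral_const_mul e,
        ← intervalIntegral.integral_add hj3 hj4,
        ← intervalIntegral.integral_const_mul]
      congr 1
      funext α
      ring
    have hj1 : IntervalIntegrable (fun α => u α * F α * K α) volume 0 (2 * π) :=
      ((hu.mul hFc).mul hKc').intervalIntegrable _ _
    have hj2 : IntervalIntegrable (fun α => e * (F α * K α)) volume 0 (2 * π) :=
      (continuous_const.mul (hFc.mul hKc')).intervalIntegrable _ _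
    have e2 : (∫ α in (0:ℝ)..(2 * π), (1 + e)⁻¹ * (u α + e) * F α * K α) =
        (1 + e)⁻¹ * (k0 + e * k1) := by
      rw [hk0, hk1, ← intervalIntegral.integral_const_mul e,
        ← intervalIntegral.integral_add hj1 hj2,
        ← intervalIntegral.integral_const_mul]
      congr 1
      funext α
      ring
    rw [e1, e2] at h1
    exact h1
  -- the limit
  have hcm : ContinuousAt (fun e : ℝ => (2 * π)⁻¹ * ((1 + e)⁻¹ * (m0 + e * m1))) 0 := by
    have : ContinuousAt (fun e : ℝ => (1 + e)⁻¹) 0 :=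
      (continuous_const.add continuous_id).continuousAt.inv₀ (by norm_num)
    exact continuousAt_const.mul (this.mul (by fun_prop))
  have hck : ContinuousAt (fun e : ℝ => (2 * π)⁻¹ * ((1 + e)⁻¹ * (k0 + e * k1))) 0 := by
    have : ContinuousAt (fun e : ℝ => (1 + e)⁻¹) 0 :=
      (continuous_const.add continuous_id).continuousAt.inv₀ (by norm_num)
    exact continuousAt_const.mul (this.mul (by fun_prop))
  have hcl : ContinuousAt (fun e : ℝ => ((2 * π)⁻¹ * ((1 + e)⁻¹ * (m0 + e * m1))) *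
        Real.log ((2 * π)⁻¹ * ((1 + e)⁻¹ * (m0 + e * m1)))) 0 := by
    have := Real.continuous_mul_log.continuousAt.comp
      (f := fun e : ℝ => (2 * π)⁻¹ * ((1 + e)⁻¹ * (m0 + e * m1))) (x := 0) hcm
    exact this
  have hL := hcl.tendsto.mono_left (nhdsWithin_le_nhds (s := Ioi (0:ℝ)))
  have hR := ((hcm.mul (continuousAt_const (y := Real.log (1 - a ^ 2) + C))).add
    hck).tendsto.mono_left (nhdsWithin_le_nhds (s := Ioi (0:ℝ)))
  have hfin := le_of_tendsto_of_tendsto hL hR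
    (by filter_upwards [self_mem_nhdsWithin] with e he using hcase e he)
  simpa using hfin

theorem ep_eq (x θ : ℝ) : ep (-x) θ = (Real.exp (-x) : ℂ) * Complex.exp (θ * I) := by
  unfold ep
  rw [Complex.exp_add, Complex.ofReal_exp]

theorem integral_shift {f : ℝ → ℝ} (hf : Function.Periodic f (2 * π)) :
    ∫ θ in (-π)..π, f θ = ∫ θ in (0:ℝ)..(2 * π), f θ := by
  have h2 := hf.intervalIntegral_add_eq (-π) 0
  have e1 : -π + 2 * π = π := by ring
  have e2 : (0:ℝ) + 2 * π = 2 * π := by ring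
  rw [e1, e2] at h2
  exact h2

/-- ENT, in the form of the specification -/
theorem ent_stmt : Pool.Agent.Helper52.CK.EntStmt := by
  obtain ⟨C, hC⟩ := ent
  refine ⟨C, ?_⟩
  intro κ β R w u x _ h hw hu hu0 hu1 hper hx0 hx1 m hm _
  have hae : Real.exp (-1) < Real.exp (-x) := by
    rw [Real.exp_lt_exp]; (clear * - hx1; linarith only [hx1])
  have ha1 : Real.exp (-x) < 1 := by
    rw [Real.exp_lt_one_iff]; (clear * - hx0; linarith only [hx0])
  have h1 := hC κ β R (Real.exp (-x)) w u h hw hae ha1 hu hu0 hu1 hper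
  have e2 : Real.exp (-x) ^ 2 = Real.exp (-2 * x) := by
    rw [← Real.exp_nat_mul]; congr 1; push_cast; ring
  rw [Real.log_exp, e2] at h1
  have hp1 : Function.Periodic (fun θ : ℝ => u θ * Pool.Agent.Helper52.CK.FF κ β x θ) (2 * π) := by
    intro θ
    simp only [Pool.Agent.Helper52.CK.FF, ep_eq]
    rw [exp_per, hper θ]
  have hp2 : Function.Periodic (fun θ : ℝ => u θ * Pool.Agent.Helper52.CK.FF κ β x θ *
        (Kf w (Complex.exp (θ * I)) (-1) (-x) - κ * Real.log ‖N β (ep (-x) θ)‖)) (2 * π) := by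
    intro θ
    simp only [Pool.Agent.Helper52.CK.FF, ep_eq]
    rw [exp_per, hper θ]
  rw [integral_shift hp1] at hm
  rw [integral_shift hp2, hm]
  simp only [Pool.Agent.Helper52.CK.FF, ep_eq]
  exact h1

end Pool.Agent.Helper58.CK

end

section

namespace Pool.Agent.Helper39.Area
end Pool.Agent.Helper39.Area
namespace Pool.Agent.Helper52.EK
end Pool.Agent.Helper52.EK
namespace Pool.Agent.Helper52.CK
end Pool.Agent.Helper52.CK

/-!
# CK: Lipschitz bounds in the depth for the densities and the means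
-/

set_option autoImplicit false

open Complex MeasureTheory Metric Set Filter Topology

open scoped Real ComplexConjugate

namespace Pool.Agent.Helper77.CK

open Pool.Agent.Helper39.Area Pool.Agent.Helper52.EK Pool.Agent.Helper52.CK

theorem ep_ne (t θ : ℝ) : ep t θ ≠ 0 := by
  unfold ep
  exact Complex.exp_ne_zero _

theorem differentiableOn_N {β : ℂ → ℂ} (h : Ext β) : DifferentiableOn ℂ (N β) (ball 0 1) := by
  have h1 : DifferentiableOn ℂ (deriv β) (ball 0 1) := h.diff.deriv isOpen_ball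
  intro z hz
  have h2 := h1.differentiableAt (isOpen_ball.mem_nhds hz)
  unfold N
  exact ((differentiableAt_const _).sub ((differentiableAt_id.pow 2).mul h2)).differentiableWithinAt

/-- the classical bound for the second derivative -/
theorem logN {β : ℂ → ℂ} (h : Ext β) {z : ℂ} (h0 : z ≠ 0) (hz : ‖z‖ < 1) (h2 : 1 - ‖z‖ ≤ ‖z‖) :
    ‖z * (deriv (N β) z / N β z)‖ * (1 - ‖z‖) ≤ 4 * ‖z‖ + 2 * (1 - ‖z‖) := by
  have hr : 0 < 1 - ‖z‖ := by (clear * - hz; linarith only [hz])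
  have hm : ∀ u ∈ ball (0:ℂ) (1 - ‖z‖), z + u ∈ ball (0:ℂ) 1 ∧ z + u ≠ 0 := by
    intro u hu
    rw [mem_ball_zero_iff] at hu
    constructor
    · rw [mem_ball_zero_iff]
      exact (norm_add_le _ _).trans_lt (by linarith only [hu])
    · intro h3
      have : ‖z‖ = ‖u‖ := by
        rw [← norm_neg u]
        congr 1
        linear_combination h3
      (clear * - h2 hu this; linarith only [h2, hu, this])
  have hdat : ∀ u ∈ ball (0:ℂ) (1 - ‖z‖), HasDerivAt (fun u => phi β (z + u))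
      (dphi β (z + u)) u := by
    intro u hu
    have h4 := hasDerivAt_phi h.diff (hm u hu).1 (hm u hu).2
    have h5 : HasDerivAt (fun u : ℂ => z + u) 1 u := (hasDerivAt_id u).const_add z
    have h6 := h4.comp u h5
    rw [mul_one] at h6
    exact h6
  have h4 := Pool.Agent.Helper69.EK3.bieb_r (g := fun u => phi β (z + u)) hr
    (fun u hu => (hdat u hu).differentiableAt.differentiableWithinAt) ?_
  · have h5 : deriv (fun u => phi β (z + u)) 0 = dphi β z := by
      rw [(hdat 0 (mem_ball_self hr)).deriv, add_zero]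
    have hzb : z ∈ ball (0:ℂ) 1 := mem_ball_zero_iff.2 hz
    have hN : N β z ≠ 0 := h.ne z hzb
    have hNd : DifferentiableAt ℂ (N β) z :=
      (differentiableOn_N h).differentiableAt (isOpen_ball.mem_nhds hzb)
    have h6 : deriv (deriv (fun u => phi β (z + u))) 0 = deriv (dphi β) z := by
      have h7 : deriv (fun u => phi β (z + u)) =ᶠ[𝓝 0] fun u => dphi β (z + u) := by
        filter_upwards [isOpen_ball.mem_nhds (mem_ball_self hr)] with u hu
        exact (hdat u hu).deriv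
      rw [h7.deriv_eq, deriv_comp_const_add, add_zero]
    have h7 : deriv (dphi β) z = -(deriv (N β) z / z ^ 2) + 2 * N β z / z ^ 3 := by
      have h8 : dphi β =ᶠ[𝓝 z] fun w => -(N β w / w ^ 2) := by
        filter_upwards [isOpen_ne.mem_nhds h0] with w hw
        have hw' : w ≠ 0 := hw
        unfold dphi N
        field_simp
        ring
      rw [h8.deriv_eq]
      have h9 : HasDerivAt (fun w => -(N β w / w ^ 2))
          (-((deriv (N β) z * z ^ 2 - N β z * (2 * z)) / (z ^ 2) ^ 2)) z := by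
        have h10 : HasDerivAt (fun w : ℂ => w ^ 2) (2 * z) z := by
          have := hasDerivAt_pow 2 z
          simpa using this
        exact (hNd.hasDerivAt.div h10 (pow_ne_zero 2 h0)).neg
      rw [h9.deriv]
      field_simp
      ring
    have h8 : dphi β z = -(N β z / z ^ 2) := by
      unfold dphi N
      field_simp
      ring
    rw [h5, h6] at h4
    have h9 : z * (deriv (N β) z / N β z) = z * (deriv (dphi β) z / dphi β z) + 2 := by
      rw [h7, h8]
      field_simp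
      ring
    have h10 : 0 < ‖dphi β z‖ := by
      rw [norm_pos_iff, h8, neg_ne_zero]
      exact div_ne_zero hN (pow_ne_zero 2 h0)
    have h11 : ‖deriv (dphi β) z / dphi β z‖ * (1 - ‖z‖) ≤ 4 := by
      rw [norm_div, div_mul_eq_mul_div, div_le_iff₀ h10]
      exact h4
    calc ‖z * (deriv (N β) z / N β z)‖ * (1 - ‖z‖)
        ≤ (‖z‖ * ‖deriv (dphi β) z / dphi β z‖ + 2) * (1 - ‖z‖) := by
          rw [h9]
          refine mul_le_mul_of_nonneg_right ?_ hr.le
          refine (norm_add_le _ _).trans ?_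
          rw [norm_mul]
          norm_num
      _ ≤ 4 * ‖z‖ + 2 * (1 - ‖z‖) := by
          (clear * - h11 h2; nlinarith only [h2, h11])
  · intro u hu v hv huv
    have h6 := h.inj (z + u) (z + v) (hm u hu).1 (hm v hv).1 (hm u hu).2 (hm v hv).2 huv
    linear_combination h6

/-- (1) uniform bound of the logarithmic derivative -/
theorem lip_N : ∃ C : ℝ, 0 ≤ C ∧ ∀ (β : ℂ → ℂ) (R x θ : ℝ), ExtR β R → 0 < x → x ≤ 1 / 4 →
    x * ‖ep (-x) θ * (deriv (N β) (ep (-x) θ) / N β (ep (-x) θ))‖ ≤ C := by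
  refine ⟨6, by norm_num, ?_⟩
  intro β R x θ h hx hx1
  have h1 : Real.exp (-x) < 1 := by
    rw [Real.exp_lt_one_iff]
    linarith only [hx]
  have h2 : 1 - x ≤ Real.exp (-x) := by
    have := Real.add_one_le_exp (-x)
    linarith only [this]
  have h3 : Real.exp (-x) ≤ 1 - 3 / 4 * x := by
    have h4 := Real.abs_exp_sub_one_sub_id_le (x := -x) (by rw [abs_neg, abs_of_pos hx]; (clear * - hx hx1; linarith))
    have h5 := (abs_le.mp h4).2
    (clear * - h5 hx hx1; nlinarith)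
  have h4 := logN h.toExt (ep_ne (-x) θ) (by rw [norm_ep]; exact h1)
    (by rw [norm_ep]; linarith only [hx1, h2])
  rw [norm_ep] at h4
  set D := ‖ep (-x) θ * (deriv (N β) (ep (-x) θ) / N β (ep (-x) θ))‖ with hD
  have hD0 : 0 ≤ D := norm_nonneg _
  have h5 : 3 / 4 * x ≤ 1 - Real.exp (-x) := by (clear * - h3; linarith only [h3])
  have h6 : D * (3 / 4 * x) ≤ D * (1 - Real.exp (-x)) := mul_le_mul_of_nonneg_left h5 hD0
  (clear * - hD0 h6 h4; nlinarith only [h4, hD0, h6])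

theorem hasDerivAt_logN {β : ℂ → ℂ} (h : Ext β) (θ : ℝ) (l : ℝ) :
    HasDerivAt (fun l : ℝ => Real.log ‖N β (ep (-Real.exp (-l)) θ)‖)
      (Real.exp (-l) * (ep (-Real.exp (-l)) θ *
        (deriv (N β) (ep (-Real.exp (-l)) θ) / N β (ep (-Real.exp (-l)) θ))).re) l := by
  have hz : ep (-Real.exp (-l)) θ ∈ ball (0:ℂ) 1 := by
    rw [mem_ball_zero_iff, norm_ep, Real.exp_lt_one_iff]
    linarith [Real.exp_pos (-l)]
  have hNd := (differentiableOn_N h).differentiableAt (isOpen_ball.mem_nhds hz)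
  have hN : N β (ep (-Real.exp (-l)) θ) ≠ 0 := h.ne _ hz
  have h1 : HasDerivAt (fun l : ℝ => Real.exp (-l)) (-Real.exp (-l)) l := by
    have h0 := (hasDerivAt_neg l).exp
    rw [mul_neg_one] at h0
    exact h0
  have h2 : HasDerivAt (fun l : ℝ => ((-Real.exp (-l) : ℝ) : ℂ) + (θ : ℂ) * I)
      ((Real.exp (-l) : ℝ) : ℂ) l := by
    have h3 := h1.neg.ofReal_comp.add_const ((θ : ℂ) * I)
    simpa using h3
  have h3 : HasDerivAt (fun l : ℝ => ep (-Real.exp (-l)) θ)
      (ep (-Real.exp (-l)) θ * ((Real.exp (-l) : ℝ) : ℂ)) l := by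
    unfold ep
    exact h2.cexp
  have h4 : HasDerivAt (fun l : ℝ => N β (ep (-Real.exp (-l)) θ))
      (deriv (N β) (ep (-Real.exp (-l)) θ) * (ep (-Real.exp (-l)) θ * ((Real.exp (-l) : ℝ) : ℂ)))
      l := hNd.hasDerivAt.comp_of_eq l h3 rfl
  have h5 : HasDerivAt (fun l : ℝ => Complex.normSq (N β (ep (-Real.exp (-l)) θ)))
      (2 * ((deriv (N β) (ep (-Real.exp (-l)) θ) *
        (ep (-Real.exp (-l)) θ * ((Real.exp (-l) : ℝ) : ℂ))) *
        conj (N β (ep (-Real.exp (-l)) θ))).re) l := by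
    have h6 : ∀ w : ℂ, Complex.normSq w = w.re * w.re + w.im * w.im := fun w => rfl
    have h7 := (Complex.reCLM.hasFDerivAt.comp_hasDerivAt l h4)
    have h8 := (Complex.imCLM.hasFDerivAt.comp_hasDerivAt l h4)
    have h9 := (h7.mul h7).add (h8.mul h8)
    refine h9.congr_deriv ?_
    simp only [Function.comp_apply, Complex.reCLM_apply, Complex.imCLM_apply, Complex.mul_re,
      Complex.conj_re, Complex.conj_im, Complex.mul_im]
    ring
  have h6 : ∀ l : ℝ, Real.log ‖N β (ep (-Real.exp (-l)) θ)‖ =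
      1 / 2 * Real.log (Complex.normSq (N β (ep (-Real.exp (-l)) θ))) := by
    intro l
    rw [Complex.normSq_eq_norm_sq, Real.log_pow]
    push_cast
    ring
  have h7 : Complex.normSq (N β (ep (-Real.exp (-l)) θ)) ≠ 0 := by
    rw [Ne, Complex.normSq_eq_zero]
    exact hN
  have h8 := (h5.log h7).const_mul (1 / 2)
  have h9 : (fun l : ℝ => Real.log ‖N β (ep (-Real.exp (-l)) θ)‖) = fun l : ℝ =>
      1 / 2 * Real.log (Complex.normSq (N β (ep (-Real.exp (-l)) θ))) := funext h6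
  rw [h9]
  refine h8.congr_deriv ?_
  set A := ep (-Real.exp (-l)) θ
  set x := Real.exp (-l)
  have h10 : (A * (deriv (N β) A / N β A)).re =
      ((deriv (N β) A * A) * conj (N β A)).re / Complex.normSq (N β A) := by
    have h11 : A * (deriv (N β) A / N β A) =
        (deriv (N β) A * A) * conj (N β A) / ((Complex.normSq (N β A) : ℝ) : ℂ) := by
      rw [Complex.normSq_eq_conj_mul_self]
      have hc : conj (N β A) ≠ 0 := by
        rw [Ne, map_eq_zero]
        exact hN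
      (clear * - hc hN; field_simp)
    rw [h11, Complex.div_ofReal_re]
  have h11 : ((deriv (N β) A * (A * (x : ℂ))) * conj (N β A)).re =
      x * ((deriv (N β) A * A) * conj (N β A)).re := by
    have h12 : (deriv (N β) A * (A * (x : ℂ))) * conj (N β A) =
        (x : ℂ) * ((deriv (N β) A * A) * conj (N β A)) := by ring
    rw [h12, Complex.re_ofReal_mul]
  rw [h10, h11]
  (clear * - h7; field_simp)

theorem exp_neg_two_le : Real.exp (-2) ≤ 1 / 4 := by
  have h1 : (2:ℝ) ≤ Real.exp 1 := by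
    have := Real.add_one_le_exp (1:ℝ)
    linarith only [this]
  have h2 : (4:ℝ) ≤ Real.exp 2 := by
    have h3 : Real.exp 2 = Real.exp 1 * Real.exp 1 := by
      rw [← Real.exp_add]
      norm_num
    rw [h3]
    (clear * - h1; nlinarith only [h1])
  rw [Real.exp_neg]
  rw [show (1:ℝ) / 4 = (4:ℝ)⁻¹ by norm_num]
  exact inv_anti₀ (by norm_num) h2

/-- `log |N|` is Lipschitz in the depth -/
theorem logN_lip {C : ℝ} (hC : ∀ (β : ℂ → ℂ) (R x θ : ℝ), ExtR β R → 0 < x → x ≤ 1 / 4 →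
    x * ‖ep (-x) θ * (deriv (N β) (ep (-x) θ) / N β (ep (-x) θ))‖ ≤ C)
    {β : ℂ → ℂ} {R : ℝ} (h : ExtR β R) (θ : ℝ) {l l' : ℝ} (hl : 2 ≤ l) (hl' : 2 ≤ l') :
    |Real.log ‖N β (ep (-Real.exp (-l)) θ)‖ - Real.log ‖N β (ep (-Real.exp (-l')) θ)‖| ≤
      C * |l - l'| := by
  have h1 := (convex_Ici (2:ℝ)).norm_image_sub_le_of_norm_hasDerivWithin_le
    (f := fun l : ℝ => Real.log ‖N β (ep (-Real.exp (-l)) θ)‖) (C := C)
    (fun l _ => (hasDerivAt_logN h.toExt θ l).hasDerivWithinAt) ?_ (mem_Ici.2 hl') (mem_Ici.2 hl)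
  · rw [Real.norm_eq_abs, Real.norm_eq_abs] at h1
    exact h1
  · intro l hl
    rw [mem_Ici] at hl
    have h2 : Real.exp (-l) ≤ 1 / 4 := (Real.exp_le_exp.2 (by linarith)).trans exp_neg_two_le
    have h3 := hC β R (Real.exp (-l)) θ h (Real.exp_pos _) h2
    refine le_trans ?_ h3
    rw [norm_mul, Real.norm_eq_abs, abs_of_pos (Real.exp_pos _), Real.norm_eq_abs]
    exact mul_le_mul_of_nonneg_left (Complex.abs_re_le_norm _) (Real.exp_pos _).le

/-- pointwise form -/
theorem lip {κ : ℝ} (hκ : 0 ≤ κ) : LipStmt κ := by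
  obtain ⟨C, hC0, hC⟩ := lip_N
  have hc0 : 0 < 1 - Real.exp (-Real.exp (-2)) ^ 2 := by
    have h2 : Real.exp (-Real.exp (-2)) < 1 := by
      rw [Real.exp_lt_one_iff]
      linarith [Real.exp_pos (-2)]
    (clear * - h2; nlinarith only [Real.exp_pos (-Real.exp (-2)), h2])
  have hN0 : ∀ (β : ℂ → ℂ), Ext β → ∀ x θ : ℝ, 0 < x → 0 < ‖N β (ep (-x) θ)‖ := by
    intro β h x θ hx
    rw [norm_pos_iff]
    refine h.ne _ ?_
    rw [mem_ball_zero_iff, norm_ep, Real.exp_lt_one_iff]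
    linarith
  refine ⟨max (κ * C) (Real.log ((1 - Real.exp (-Real.exp (-2)) ^ 2) ^ (-κ))),
    (mul_nonneg hκ hC0).trans (le_max_left _ _), ?_⟩
  intro β R h
  refine ⟨?_, ?_⟩
  · intro l l' θ hl hl'
    unfold FF
    have h4 := hN0 β h.toExt (Real.exp (-l)) θ (Real.exp_pos _)
    have h5 := hN0 β h.toExt (Real.exp (-l')) θ (Real.exp_pos _)
    rw [Real.rpow_def_of_pos h4, Real.rpow_def_of_pos h5, ← Real.exp_add]
    apply Real.exp_le_exp.2
    have h6 := logN_lip hC h θ hl hl'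
    have h7 := (abs_le.mp h6).1
    have h8 : κ * C * |l - l'| ≤
        max (κ * C) (Real.log ((1 - Real.exp (-Real.exp (-2)) ^ 2) ^ (-κ))) * |l - l'| :=
      mul_le_mul_of_nonneg_right (le_max_left _ _) (abs_nonneg _)
    have h9 : κ * (Real.log ‖N β (ep (-Real.exp (-l')) θ)‖ -
        Real.log ‖N β (ep (-Real.exp (-l)) θ)‖) ≤ κ * (C * |l - l'|) :=
      mul_le_mul_of_nonneg_left (by linarith) hκ
    linarith only [h8, h9]
  · intro θ
    unfold FF
    have h3 : ‖ep (-Real.exp (-2)) θ‖ < 1 := by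
      rw [norm_ep, Real.exp_lt_one_iff]
      linarith [Real.exp_pos (-2)]
    have h4 := Pool.Agent.Helper39.EK.N_ge h.toExt h3
    rw [norm_ep] at h4
    have h5 := Real.rpow_le_rpow_of_nonpos hc0 h4 (by linarith : -κ ≤ 0)
    refine h5.trans ?_
    rw [← Real.log_le_iff_le_exp (Real.rpow_pos_of_pos hc0 _)]
    exact le_max_right _ _

end Pool.Agent.Helper77.CK

end
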