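import Pool.Agent.Helper60.BE.T05
import Pool.Agent.Helper60.BE.T18
import Pool.Agent.Helper60.BE.T17
import Pool.Agent.Helper60.BE.T12
import Pool.Agent.Helper60.BE.T22
import Pool.Agent.Helper60.BE.T21
import Pool.Agent.Helper60.BE.T23

set_option linter.all false

section

namespace Pool.Sos71
end Pool.Sos71
namespace Pool.Agent.Helper69.EK6
end Pool.Agent.Helper69.EK6
namespace Pool.Agent.Helper71.CK
end Pool.Agent.Helper71.CK

set_option autoImplicit false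

namespace Pool.Agent.Helper9.CKD.E3.D2

open Pool.Sos71

open Pool.Agent.Helper69.EK6 (eDi)

open Pool.Agent.Helper71.CK

def f0_0 : Fac := ⟨1, ⟨0, 0, 0, 0, 0, 0, 0⟩, 0, false, 0, ⟨0, 0, 0, 0, 0, 0, 0⟩, 0⟩

def its0 : List Itm := [⟨⟨0, 0, 0, 0, 0, 0, 0⟩, 0, f0_0, false⟩,
 ⟨⟨0, 0, 0, 0, 0, 1, 0⟩, 118, f0_0, false⟩,
 ⟨⟨0, 0, 0, 0, 0, 2, 0⟩, 236, f0_0, false⟩,
 ⟨⟨0, 0, 0, 0, 0, 3, 0⟩, 354, f0_0, false⟩,
 ⟨⟨0, 0, 0, 0, 0, 4, 0⟩, 472, f0_0, false⟩,
 ⟨⟨0, 0, 0, 0, 0, 5, 0⟩, 590, f0_0, false⟩,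
 ⟨⟨0, 0, 0, 0, 0, 6, 0⟩, 708, f0_0, false⟩,
 ⟨⟨0, 0, 0, 0, 0, 0, 2⟩, 3068, f0_0, false⟩,
 ⟨⟨0, 0, 0, 0, 0, 1, 2⟩, 3186, f0_0, false⟩,
 ⟨⟨0, 0, 0, 0, 0, 2, 2⟩, 3304, f0_0, false⟩,
 ⟨⟨0, 0, 0, 0, 0, 3, 2⟩, 3422, f0_0, false⟩,
 ⟨⟨0, 0, 0, 0, 0, 4, 2⟩, 3540, f0_0, false⟩,
 ⟨⟨0, 0, 0, 0, 0, 0, 4⟩, 6136, f0_0, false⟩,
 ⟨⟨0, 0, 0, 0, 0, 1, 4⟩, 6254, f0_0, false⟩,
 ⟨⟨0, 0, 0, 0, 0, 2, 4⟩, 6372, f0_0, false⟩,
 ⟨⟨0, 0, 0, 0, 0, 0, 6⟩, 9204, f0_0, true⟩]

def l0 : List ℕ := [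
 953894187363167203806851403504901784550729437803846489751796856931440509415594780673793465514045496003931967986805135343921760626962147470915570126160632210050566785505317607426125703267913441157689935562980921748222223232821689646114911332789006724690453,
 105744614759347758068580039648320573682340997366270452311491660064387599619776472271694696080405222630145414455965052819629457608934579473353904579050723263603647973521566888786093732755178597612100157804742109372261530439888999969192983846,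
 10793103154774549471752603129355494850751166586079125870051028711822146243927552061448228635246667059995136718791874763792128214087393582884722127694886819128746477176795822743621182912977121401100590262960902083026780523601,
 1307161631315891624693132665130922852520126951976492365368319673385176785219599398756146100510134570531922654190609083534105768644065557585383438144694154125269340042603203183515317344026106453016767477689138,
 134312183249202352481410227538695200138916114507278849470667914355818600368912875757386393644726946772121686121482481285799145089729540579568110627291334151290777335837844171245032164417418264,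
 17361001930091957060972760276582708655906357963953188856347012655114490794128581101825784469017035050045777692579652125831468389652880337795495686126198181470112753129369294945,
 1666468324918598241429458679245278444369544019003446900700306011415001244020005355264197246230297445907869765119684622349929744893705425305359978500316590829521,
 183935668901427214252467216287031707369679923208183818629624346120602177145984460787353908475965418679937366747132296217813159849360784674683133,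
 20826114117641565651503602779163152044762457507308892896371123122420055564469948900610457138818210302871006336468900030498722723,
 2880977348060043061228462234133926698067135815530875815219998552222928510493361138756640962938661266073272513302,
 219889870303843185538502819118654242212252501086329117179648888268422222688068189348661983638757,
 32268797590583850786433784378789302957145717853182590098653898877919828958178346,
 3506230005678916252655080368024651589208136478507064094724413829,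
 429760259577715919636051167641973686681962939198,
 35949878427081443886940812910440,
 4945625457583508]

def e0 : List ℕ := [
 939145450410149366726346100640991062358573569547183922171108115081672048281395045829880714554077416683830393317376526377437143172772747420112629386145987081893086142597356501282990747281336178524060517771709806475225177960611895671054483613372828765145671,
 99594021056704901722448547247652047334964603563025643397272306316138743728116099720175910850089099270505890074700654678129402564751657018473828360311972207397976842966995307896641190856779696434956434579034923813467593190327012014527809183,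
 10445088095610295412624738230060284623369445273619040029405622100829565861210287298164989097284962035411799302336877783024770850409752299717749698145945398771375839845012157823197627478672022398398750953121900867832786857395,
 1662359835669997088919014516580235272074590625692041078061671147189995757253856869772118929066028881173341428534194383025424285430874281807031516616120545925058297376490145001369623097913844243934463615994909,
 273845733367834244227969813936904936335871791131147152705506863698665034063219994391006970895515725413276068048018826203119587429564504244517698261539966477916587558932219213297887262571330791,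
 26914666698997371419800759724923576243681393135384461240408440344260511274356756968866768739988182396145643988727987628866398971885840164766144672422054279945442943548928170132,
 1606669116379009633457367279736338943325894602047379681677727380620923498646770087665224981360107207925658458846273873549045152256453988645797131347030752753209,
 189835988454943830180669507011468502070347264398625512885279433310613335858724228276475939366572040751064676306017168329177212431525713584366849,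
 17295459366497926032632475255577101476005292627991775735602318037421742337620879650480621720400939398320972302722723774589365095,
 2536048794354453504761169325292904552731366940793566731460692085851317081852348953483205193062044561030622702856,
 481294502117939562184674012652296412170101952250577964107107848189182785502456406002533265382164,
 41844649577895093647416367275382567809670832646621295440192757410202368012800662,
 2029221431983648190259567124079440533058799576841508921145342149,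
 94544264391282824592689241819978748398599313415,
 40815925662215670440801796509215,
 3212153186639615]

def b0 : Blk := ⟨mOne, ⟨0, 0, 0, 0, 6, 6, 0⟩, 1, its0, 9007199254740992, 4503599627370496, l0, 9007199254740992, 4503599627370496, e0, 3196606095791744876544⟩

def f1_0 : Fac := ⟨1, ⟨0, 0, 0, 0, 0, 0, 0⟩, 0, false, 0, ⟨0, 0, 0, 0, 0, 0, 0⟩, 0⟩

def its1 : List Itm := [⟨⟨0, 0, 0, 0, 0, 0, 1⟩, 1534, f1_0, false⟩,
 ⟨⟨0, 0, 0, 0, 0, 1, 1⟩, 1652, f1_0, false⟩,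
 ⟨⟨0, 0, 0, 0, 0, 2, 1⟩, 1770, f1_0, false⟩,
 ⟨⟨0, 0, 0, 0, 0, 3, 1⟩, 1888, f1_0, false⟩,
 ⟨⟨0, 0, 0, 0, 0, 4, 1⟩, 2006, f1_0, false⟩,
 ⟨⟨0, 0, 0, 0, 0, 5, 1⟩, 2124, f1_0, false⟩,
 ⟨⟨0, 0, 0, 0, 0, 0, 3⟩, 4602, f1_0, false⟩,
 ⟨⟨0, 0, 0, 0, 0, 1, 3⟩, 4720, f1_0, false⟩,
 ⟨⟨0, 0, 0, 0, 0, 2, 3⟩, 4838, f1_0, false⟩,
 ⟨⟨0, 0, 0, 0, 0, 3, 3⟩, 4956, f1_0, false⟩,
 ⟨⟨0, 0, 0, 0, 0, 0, 5⟩, 7670, f1_0, false⟩,
 ⟨⟨0, 0, 0, 0, 0, 1, 5⟩, 7788, f1_0, true⟩]

def l1 : List ℕ := [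
 129625390155057608298345251641783327608796991569818226157207975289210982152273240171361810897732776260635608524691231729517743501728730003119686535385173473373345562202386605156535285384477770,
 12777600085058837136533280526436756642082265375244425254263824034031043118424461166297866245004541790431949165845641202641083665110500876332860061445551677667274145073288079541,
 2534250535965978235167664271288231231255542395112674037079513720664907810757062157235178563357346027924109808598749076933283028999496209146683190252729974016240,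
 165529195579139590651582639560308867459880468204777843241527826128875522157087370713408570340866137671526349814017239055656107727717046731001722,
 18589051935957707784072838667780174365023468547745108853819785595292346740412156292862250913561879479686748447917244532399817859,
 2958492402065310588329120406584286524171122675007616814526399843590129627678931958145192241995568917707715392578,
 294265683014447845316016685585462718398375647356658869893514896085359261283296759859227221341666,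
 41024567373747565778283267059023792343868534436203258668396763827622655656979596,
 3238044756154570992318131376833145180639191675530779505358816036,
 270843469779332346862355186167037692341637838542,
 47523925332061139914139152333958,
 5010283765466624]

def e1 : List ℕ := [
 136289989026068432312080250481840009545369925762689945561274877542125471457919587543296967568950390137325375454510096693962370944593352500879655628693285736283447082225581309872998139210331819,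
 14293638582144663032368743190218320971221329929451404366743686640812080523287994330026879769036855204906519678717135562307065432821973246584752756968227422199941207189769905127,
 2274865512577755638522302203704636427208881115423592632490449969415725709514611296492553385535087187877410100993120210000853401831142541518889409505940918451710,
 374745708623290483998794886907372710524783077782753695302101878527686875911750765676278426691505688437560405280306494714310096661509795028324738,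
 36831524524530580313710017966935916362286232791887510514045331022006796439705570930884156314044284027006443668547520173702441210,
 2198655239707048136221203246191876866108118930864495333628225799827148746804909032162005763071908081404544967778,
 213182995813574698450594713088622690507356189198504902906622024170546781994795095065596232139385,
 31259214806236080430867334580242673569413658084777663320168959185760455104809922,
 5932412759666468304795254777868323295263765040027608158342175934,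
 515775127260536722403895817229456303403095493613,
 10496521917345044858887090823498,
 4531478044158062]

def b1 : Blk := ⟨mOne, ⟨0, 0, 0, 0, 5, 5, 0⟩, 1, its1, 9007199254740992, 4503599627370496, l1, 9007199254740992, 4503599627370496, e1, 1206506778151777757822976⟩

def f2_0 : Fac := ⟨1, ⟨0, 0, 0, 0, 0, 0, 0⟩, 0, false, 0, ⟨0, 0, 0, 0, 0, 0, 0⟩, 0⟩

def its2 : List Itm := [⟨⟨0, 0, 0, 0, 0, 0, 0⟩, 0, f2_0, false⟩,
 ⟨⟨0, 0, 0, 0, 0, 1, 0⟩, 118, f2_0, false⟩,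
 ⟨⟨0, 0, 0, 0, 0, 2, 0⟩, 236, f2_0, false⟩,
 ⟨⟨0, 0, 0, 0, 0, 3, 0⟩, 354, f2_0, false⟩,
 ⟨⟨0, 0, 0, 0, 0, 4, 0⟩, 472, f2_0, false⟩,
 ⟨⟨0, 0, 0, 0, 0, 5, 0⟩, 590, f2_0, false⟩,
 ⟨⟨0, 0, 0, 0, 0, 0, 2⟩, 3068, f2_0, false⟩,
 ⟨⟨0, 0, 0, 0, 0, 1, 2⟩, 3186, f2_0, false⟩,
 ⟨⟨0, 0, 0, 0, 0, 2, 2⟩, 3304, f2_0, false⟩,
 ⟨⟨0, 0, 0, 0, 0, 3, 2⟩, 3422, f2_0, false⟩,
 ⟨⟨0, 0, 0, 0, 0, 0, 4⟩, 6136, f2_0, false⟩,
 ⟨⟨0, 0, 0, 0, 0, 1, 4⟩, 6254, f2_0, true⟩]

def l2 : List ℕ := [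
 136916894061614542828834754140608348086368839805441845956710392230517441936696046626088429239592862223564474042839163315967760236370416652092931440046676855065030167491567463328021650003519108,
 13413248695054487385356248316490849736598961172124233695762708424544921390605582933217003058656919952782590950443216472924465408594888055555610003492734046562820929960479917662,
 2089772114469760308709939711537643343141671649333287537872664304316012520469858313615005086801686050966532555696734703959759061793858985767307642351456637624289,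
 181927627795613159040464245181024911559149786672202581126592980678426199015948166129130925439130197300692853811388882036528293196172407047155666,
 24182913353347821092138199919342538576210912813570285770163543224493795569093177638649194141171957683894109978667448198117761718,
 2864952213627576436068209139974490632214050026894976868317880002072991721978273111539334301406185636234461522395,
 250840531952454003155840023976185570246319864982989002837897098995931580092520540609417046737928,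
 42491292403253150126045514612436192600834814866671819984328715485003826000345282,
 1896266270075795588040900791409383213426765640762439745662865951,
 269300957062807756767433259962526143981232624172,
 57547520658323238758316217918089,
 5553352834696767]

def b2 : Blk := ⟨mCen, ⟨0, 0, 0, 0, 5, 4, 0⟩, 1, its2, 9007199254740992, 4503599627370496, l2, 2, 1, [], 46909387046873462734848⟩

def f3_0 : Fac := ⟨1, ⟨0, 0, 0, 0, 0, 0, 0⟩, 0, false, 0, ⟨0, 0, 0, 0, 0, 0, 0⟩, 0⟩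

def its3 : List Itm := [⟨⟨0, 0, 0, 0, 0, 0, 1⟩, 1534, f3_0, false⟩,
 ⟨⟨0, 0, 0, 0, 0, 1, 1⟩, 1652, f3_0, false⟩,
 ⟨⟨0, 0, 0, 0, 0, 2, 1⟩, 1770, f3_0, false⟩,
 ⟨⟨0, 0, 0, 0, 0, 3, 1⟩, 1888, f3_0, false⟩,
 ⟨⟨0, 0, 0, 0, 0, 4, 1⟩, 2006, f3_0, false⟩,
 ⟨⟨0, 0, 0, 0, 0, 0, 3⟩, 4602, f3_0, false⟩,
 ⟨⟨0, 0, 0, 0, 0, 1, 3⟩, 4720, f3_0, false⟩,
 ⟨⟨0, 0, 0, 0, 0, 2, 3⟩, 4838, f3_0, false⟩,
 ⟨⟨0, 0, 0, 0, 0, 0, 5⟩, 7670, f3_0, true⟩]

def l3 : List ℕ := [
 192559823449056366135645811148507553709384091911827049486419110369533119145071964252582968360916801366084011592840364291658296249083700423643673,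
 20404464077977292229843092675418807757616806660493581732953348256202214169966227703120361781105861317004403286685950177983413037,
 2716410272625882263462865729950604611393806942847162111946714222731198284076280342738703190398300640044940732268,
 254953364437871604893738800417723897991812397502132208313771683386593908251131128641340133742835,
 34133002468527593934901878754297253161194176531717863606563362543586070557974645,
 3220218314361095214883340334248044273134975920188098351441257301,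
 396109695466608104286979144371548110904284650556,
 30646993100057460401131112186595,
 5499688663862912]

def b3 : Blk := ⟨mCen, ⟨0, 0, 0, 0, 4, 5, 0⟩, 1, its3, 9007199254740992, 4503599627370496, l3, 2, 1, [], 0⟩

def cert : Cert := ⟨118, ⟨13, 169, 169, 169, 169⟩, ⟨0, 0, 0, 0, 12, 12, 0⟩, 12, (.bp g.cen),
 [b0, b1, b2, b3]⟩

theorem okF : cert.checkF = true := by decide +kernel

theorem ok : cert.checkW = true := Cert.checkW_of_F okF

end Pool.Agent.Helper9.CKD.E3.D2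

end

section

namespace Pool.Sos71
end Pool.Sos71
namespace Pool.Sos71.Bdd
end Pool.Sos71.Bdd
namespace Pool.Agent.Helper69.EK6
end Pool.Agent.Helper69.EK6

set_option autoImplicit false

/-!
Growth version of `Sos/Bdd.lean` and `Sos/Side.lean`: the basis of a block may have factors `P, R`
and the degree `K + i` in `u, v` with a factor `Sⁱ`, on the domain `S √(1 + u² + v²) ≤ 10`,
`P² + R² ≤ 900`.
-/

namespace Pool.Sos71.BddH

open Pool.Sos71

open Pool.Sos71.Bdd (rho rho_one rho_sq f_le g_le)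

/-- degree at most `K + i` in `u, v`, with a factor `Sⁱ` -/
def mob (K : ℕ) (m : Mon) : Bool := Nat.ble (m.f + m.g) (K + m.b)

/-- the basis has degrees at most `K` in `u, v` -/
def itb (K : ℕ) : List Itm → Bool
  | [] => true
  | i :: it => mob K (i.m.add i.f.m1) && mob K (i.m.add i.f.m2) && itb K it

theorem mob_iff {K : ℕ} {m : Mon} (h : mob K m = true) : m.f + m.g ≤ K + m.b := by
  simpa only [mob, Nat.ble_eq] using h

/-- points of the domain -/
def Dom0 (L : ℝ) (x : Pnt) : Prop := (0 ≤ x.a ∧ x.a ≤ L) ∧ |x.b| * rho x ≤ 10 ∧ |x.c| ≤ 1 ∧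
  |x.d| ≤ 30 ∧ |x.e| ≤ 30

theorem mon_le {K : ℕ} {L : ℝ} (hL : 1 ≤ L) {x : Pnt} (hx : Dom0 L x) {m : Mon}
    (h : m.f + m.g ≤ K + m.b) :
    |m.val x| ≤ L ^ m.a * 10 ^ m.b * 30 ^ m.d * 30 ^ m.e * rho x ^ K := by
  obtain ⟨⟨a0, a1⟩, b1, c1, d1, g1⟩ := hx
  have hr := rho_one x
  unfold Mon.val
  simp only [abs_mul, abs_pow]
  have e1 : |x.a| ^ m.a ≤ L ^ m.a := by
    rw [abs_of_nonneg a0]
    exact pow_le_pow_left₀ a0 a1 _
  have hr0 : 0 ≤ rho x := by (clear * - hr; linarith only [hr])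
  have e2 : (|x.b| * rho x) ^ m.b ≤ 10 ^ m.b :=
    pow_le_pow_left₀ (mul_nonneg (abs_nonneg _) hr0) b1 _
  have e3 : |x.c| ^ m.c ≤ 1 := pow_le_one₀ (abs_nonneg _) c1
  have e7 : |x.d| ^ m.d ≤ 30 ^ m.d := pow_le_pow_left₀ (abs_nonneg _) d1 _
  have e8 : |x.e| ^ m.e ≤ 30 ^ m.e := pow_le_pow_left₀ (abs_nonneg _) g1 _
  have e4 : |x.f| ^ m.f ≤ rho x ^ m.f := pow_le_pow_left₀ (abs_nonneg _) (f_le x) _
  have e5 : |x.g| ^ m.g ≤ rho x ^ m.g := pow_le_pow_left₀ (abs_nonneg _) (g_le x) _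
  have hL0 : 0 ≤ L ^ m.a := by positivity
  have e6 : rho x ^ (m.f + m.g) ≤ rho x ^ (K + m.b) := pow_le_pow_right₀ hr h
  calc |x.a| ^ m.a * |x.b| ^ m.b * |x.c| ^ m.c * |x.d| ^ m.d * |x.e| ^ m.e * |x.f| ^ m.f *
        |x.g| ^ m.g
      ≤ L ^ m.a * |x.b| ^ m.b * 1 * 30 ^ m.d * 30 ^ m.e * rho x ^ m.f * rho x ^ m.g := by (clear * - e1 e3 hL e7 e8 e4 e5 hr; gcongr)
    _ = L ^ m.a * |x.b| ^ m.b * 30 ^ m.d * 30 ^ m.e * rho x ^ (m.f + m.g) := by
        rw [pow_add]; ring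
    _ ≤ L ^ m.a * |x.b| ^ m.b * 30 ^ m.d * 30 ^ m.e * rho x ^ (K + m.b) := by (clear * - e6 hL; gcongr)
    _ = L ^ m.a * (|x.b| * rho x) ^ m.b * 30 ^ m.d * 30 ^ m.e * rho x ^ K := by
        rw [pow_add, mul_pow]; ring
    _ ≤ L ^ m.a * 10 ^ m.b * 30 ^ m.d * 30 ^ m.e * rho x ^ K := by (clear * - e2 hL hr; gcongr)

theorem itb_cons {K : ℕ} {i : Itm} {it : List Itm} (h : itb K (i :: it) = true) :
    mob K (i.m.add i.f.m1) = true ∧ mob K (i.m.add i.f.m2) = true ∧ itb K it = true := by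
  simp only [itb, Bool.and_eq_true] at h
  obtain ⟨⟨h1, h2⟩, h3⟩ := h
  exact ⟨h1, h2, h3⟩

/-- the bound of one element -/
noncomputable def cb (L : ℝ) (i : Itm) : ℝ :=
  i.f.c * (L ^ (i.m.add i.f.m1).a * 10 ^ (i.m.add i.f.m1).b * 30 ^ (i.m.add i.f.m1).d *
    30 ^ (i.m.add i.f.m1).e) +
    i.f.d * (L ^ (i.m.add i.f.m2).a * 10 ^ (i.m.add i.f.m2).b * 30 ^ (i.m.add i.f.m2).d *
    30 ^ (i.m.add i.f.m2).e)

theorem cb_nonneg {L : ℝ} (hL : 1 ≤ L) (i : Itm) : 0 ≤ cb L i := by unfold cb; (clear * - hL; positivity)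

theorem itm_le {K : ℕ} {L : ℝ} (hL : 1 ≤ L) {x : Pnt} (hx : Dom0 L x) {i : Itm}
    (h1 : mob K (i.m.add i.f.m1) = true) (h2 : mob K (i.m.add i.f.m2) = true) :
    |i.re x| ≤ cb L i * rho x ^ K := by
  have g1 := mon_le hL hx (mob_iff h1)
  have g2 := mon_le hL hx (mob_iff h2)
  have c1 : (0:ℝ) ≤ i.f.c := Nat.cast_nonneg _
  have c2 : (0:ℝ) ≤ i.f.d := Nat.cast_nonneg _
  have k1 := mul_le_mul_of_nonneg_left g1 c1
  have k2 := mul_le_mul_of_nonneg_left g2 c2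
  have e : ∀ s : ℝ, |s| ≤ 1 → |i.f.c * (i.m.add i.f.m1).val x + s * (i.f.d * (i.m.add i.f.m2).val x)| ≤
      cb L i * rho x ^ K := by
    intro s hs
    refine (abs_add_le _ _).trans ?_
    rw [abs_mul, abs_mul s, abs_mul (i.f.d : ℝ), abs_of_nonneg c1, abs_of_nonneg c2]
    have : |s| * (i.f.d * |(i.m.add i.f.m2).val x|) ≤ i.f.d * |(i.m.add i.f.m2).val x| :=
      mul_le_of_le_one_left (mul_nonneg c2 (abs_nonneg _)) hs
    unfold cb
    linarith only [k1, k2, this]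
  unfold Itm.re Fac.re
  rcases i.f.s with _ | _
  · have := e 1 (by simp)
    rw [Mon.val_add, Mon.val_add] at this
    refine le_trans (le_of_eq ?_) this
    congr 1
    simp only
    ring
  · have := e (-1) (by simp)
    rw [Mon.val_add, Mon.val_add] at this
    refine le_trans (le_of_eq ?_) this
    congr 1
    simp only
    ring

theorem rab_bd {K : ℕ} {L : ℝ} (hL : 1 ≤ L) (it : List Itm) (h : itb K it = true) :
    ∃ C : ℝ, 0 ≤ C ∧ ∀ x, Dom0 L x → rab x it ≤ C * rho x ^ K := by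
  induction it with
  | nil => exact ⟨0, le_rfl, fun x _ => by simp [rab]⟩
  | cons i it ih =>
    obtain ⟨h1, h2, h4⟩ := itb_cons h
    obtain ⟨C, hC, hC'⟩ := ih h4
    have hcb := cb_nonneg hL i
    refine ⟨cb L i + C, by (clear * - hcb hC; positivity), fun x hx => ?_⟩
    have := itm_le hL hx h1 h2
    have := hC' x hx
    rw [rab]
    linarith

theorem rz2_bd {K : ℕ} {L : ℝ} (hL : 1 ≤ L) (it : List Itm) (h : itb K it = true) :
    ∃ C : ℝ, 0 ≤ C ∧ ∀ x, Dom0 L x → rz2 x it ≤ C * (rho x ^ K) ^ 2 := by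
  induction it with
  | nil => exact ⟨0, le_rfl, fun x _ => by simp [rz2]⟩
  | cons i it ih =>
    obtain ⟨h1, h2, h4⟩ := itb_cons h
    obtain ⟨C, hC, hC'⟩ := ih h4
    have hcb := cb_nonneg hL i
    refine ⟨(cb L i) ^ 2 + C, by (clear * - hC; positivity), fun x hx => ?_⟩
    have h5 := itm_le hL hx h1 h2
    have h6 := hC' x hx
    have h7 : i.re x ^ 2 ≤ (cb L i * rho x ^ K) ^ 2 := by
      rw [← sq_abs]
      exact pow_le_pow_left₀ (abs_nonneg _) h5 2
    rw [rz2]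
    linarith only [h6, h7]

theorem rsq_bd {B off : ℕ} (hB : B = 2 * off) (h0 : 0 < off) {K : ℕ} {L : ℝ} (hL : 1 ≤ L)
    (it : List Itm) (h : itb K it = true) (Ls : List ℕ) :
    ∃ C : ℝ, 0 ≤ C ∧ ∀ x, Dom0 L x → rsq B off x it Ls ≤ C * (rho x ^ K) ^ 2 := by
  induction it generalizing Ls with
  | nil => exact ⟨0, le_rfl, fun x _ => by simp [rsq]⟩
  | cons i it ih =>
    cases Ls with
    | nil => exact ⟨0, le_rfl, fun x _ => by simp [rsq]⟩
    | cons l Ls =>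
      obtain ⟨C, hC, hC'⟩ := ih (itb_cons h).2.2 Ls
      obtain ⟨D, hD, hD'⟩ := rab_bd hL (i :: it) h
      refine ⟨(off * D) ^ 2 + C, by (clear * - hC; positivity), fun x hx => ?_⟩
      have h1 := rl_abs hB h0 x (i :: it) l
      have h2 := hD' x hx
      have h3 := hC' x hx
      have hoff : (0 : ℝ) ≤ off := Nat.cast_nonneg _
      have h4 : |rl B off x (i :: it) l| ≤ off * D * rho x ^ K := by
        refine h1.trans ?_
        rw [mul_assoc]
        exact mul_le_mul_of_nonneg_left h2 hoff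
      have h5 : rl B off x (i :: it) l ^ 2 ≤ (off * D * rho x ^ K) ^ 2 := by
        rw [← sq_abs]
        exact pow_le_pow_left₀ (abs_nonneg _) h4 2
      rw [rsq]
      linarith only [h3, h5]

/-- **the form of a block is bounded** -/
theorem q_bd {b : Blk} {k : ℕ} {r : Rad} (hb : b.okW k r = true) {K : ℕ}
    (hi : itb K b.its = true) {L : ℝ} (hL : 1 ≤ L) :
    ∃ C : ℝ, 0 ≤ C ∧ ∀ x, Dom0 L x → b.q x ≤ C * (1 + x.f ^ 2 + x.g ^ 2) ^ K := by
  simp only [Blk.okW, Bool.and_eq_true, Nat.blt_eq] at hb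
  obtain ⟨⟨⟨⟨⟨⟨_, _⟩, h3⟩, h4⟩, h5⟩, h6⟩, _⟩ := hb
  have h3 := Nat.eq_of_beq_eq_true h3
  have h5 := Nat.eq_of_beq_eq_true h5
  obtain ⟨C, hC, hC'⟩ := rsq_bd h3 h4 hL b.its hi b.L
  obtain ⟨D, hD, hD'⟩ := rz2_bd hL b.its hi
  refine ⟨C + b.dl * D + (b.its.length + 1) * b.offE * D, by (clear * - hC hD h6; positivity), fun x hx => ?_⟩
  have e : (rho x ^ K) ^ 2 = (1 + x.f ^ 2 + x.g ^ 2) ^ K := by
    rw [← rho_sq, ← pow_mul, ← pow_mul, mul_comm]
  have h7 := hC' x hx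
  have h8 := hD' x hx
  have h9 := rex_abs h5 h6 x b.its b.E
  have h10 := le_abs_self (rex b.BE b.offE x b.its b.E)
  rw [e] at h7 h8
  have h11 : (b.dl : ℝ) * rz2 x b.its ≤ b.dl * (D * (1 + x.f ^ 2 + x.g ^ 2) ^ K) :=
    mul_le_mul_of_nonneg_left h8 (Nat.cast_nonneg _)
  have h12 : ((b.its.length : ℝ) + 1) * b.offE * rz2 x b.its ≤
      ((b.its.length : ℝ) + 1) * b.offE * (D * (1 + x.f ^ 2 + x.g ^ 2) ^ K) :=
    mul_le_mul_of_nonneg_left h8 (by (clear * - h6; positivity))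
  have h13 : 0 ≤ ((b.its.length : ℝ) + 1) * b.offE * (D * (1 + x.f ^ 2 + x.g ^ 2) ^ K) := by
    (clear * - h6 hD; positivity)
  rw [Blk.q]
  linarith only [h7, h9, h10, h11, h12, h13]

end Pool.Sos71.BddH

namespace Pool.Sos71

open Pool.Agent.Helper69.EK6 (eDi)

/-- the condition of growth of the domain -/
def DomH (x : Pnt) : Prop :=
  x.b ^ 2 * (1 + x.f ^ 2 + x.g ^ 2) ≤ 100 ∧ x.d ^ 2 + x.e ^ 2 ≤ 900

/-- nonnegativity of the target of one side, with two disc multipliers with growth -/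
def SideH (K : ℕ) (Ln Ld : ℤ) (t : Ex) : Prop :=
  ∃ B : ℝ, ∀ x : Pnt, 0 ≤ x.b → x.b ≤ x.c → x.b ^ 2 + x.c ^ 2 = 1 → 0 ≤ x.a →
    (Ld : ℝ) * x.a ≤ Ln → DomH x → ∃ q1 q2 : ℝ, 0 ≤ q1 ∧
      q1 ≤ B * (1 + x.f ^ 2 + x.g ^ 2) ^ (K + 1) ∧
      0 ≤ q2 ∧ q2 ≤ B * (1 + x.f ^ 2 + x.g ^ 2) ^ (K + 1) ∧
      q1 * (eDi 1).re x + q2 * (eDi (-1)).re x ≤ t.re x

variable {Ln Ld : ℤ} {x : Pnt}

/-- a block with an admissible multiplier -/
def GoodH (K : ℕ) (Ln Ld : ℤ) (b : Blk) : Prop :=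
  (∀ x, DomL Ln Ld x → 0 ≤ b.mult.re x) ∨
    (BddH.itb (K + 1) b.its = true ∧ ((∀ x, DomL Ln Ld x → ∃ w : ℝ, 0 ≤ w ∧ w ≤ 1 ∧
      b.mult.re x = w * (eDi 1).re x) ∨ (∀ x, DomL Ln Ld x → ∃ w : ℝ, 0 ≤ w ∧ w ≤ 1 ∧
      b.mult.re x = w * (eDi (-1)).re x)))

section

variable {K : ℕ} {b : Blk}

lemma GoodH.one (h : b.mult = mOne) : GoodH K Ln Ld b :=
  Or.inl fun x _ => by rw [h, mOne_re]; norm_num

lemma GoodH.ab (h : b.mult = mAB) : GoodH K Ln Ld b :=
  Or.inl fun x hx => by rw [h]; exact mAB_nonneg hx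

lemma GoodH.l (h : b.mult = mL Ln Ld) : GoodH K Ln Ld b :=
  Or.inl fun x hx => by rw [h]; exact mL_nonneg hx

lemma GoodH.abl (h : b.mult = mABL Ln Ld) : GoodH K Ln Ld b :=
  Or.inl fun x hx => by rw [h]; exact mABL_nonneg hx

lemma GoodH.d1 (h : b.mult = eDi 1) (hi : BddH.itb (K + 1) b.its = true) : GoodH K Ln Ld b :=
  Or.inr ⟨hi, Or.inl fun x _ => ⟨1, zero_le_one, le_rfl, by rw [h, one_mul]⟩⟩

end

lemma DomL.domH (h : DomL Ln Ld x) (hw : DomH x) (hd : 0 < Ld) {L : ℝ}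
    (hL : (Ln : ℝ) / Ld ≤ L) : BddH.Dom0 L x := by
  have hd' : (0 : ℝ) < Ld := by exact_mod_cast hd
  have h1 : x.a ≤ Ln / Ld := by
    rw [le_div_iff₀ hd']
    linarith only [h.a1]
  have hc := h.b0.trans h.bc
  have hr := Bdd.rho_one x
  have hr2 := Bdd.rho_sq x
  obtain ⟨hw, hde⟩ := hw
  rw [← hr2, ← mul_pow] at hw
  refine ⟨⟨h.a0, h1.trans hL⟩, ?_, ?_, abs_le_of_sq_le_sq (by (clear * - hde; nlinarith only [hde]))
    (by norm_num), abs_le_of_sq_le_sq (by nlinarith only [hde]) (by norm_num)⟩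
  · rw [abs_of_nonneg h.b0]
    have h0 : 0 ≤ x.b * Bdd.rho x := mul_nonneg h.b0 (by linarith only [hr])
    (clear * - hw; nlinarith only [hw])
  · rw [abs_of_nonneg hc]
    (clear * - h; nlinarith only [h.u1])

theorem brs_sideH {k : ℕ} {r : Rad} {N : Bd} {K : ℕ} (hd : 0 < Ld) (bs : List Blk)
    (hk : bokW k r N bs = true) (hg : ∀ b ∈ bs, GoodH K Ln Ld b) :
    ∃ B : ℝ, 0 ≤ B ∧ ∀ x : Pnt, DomL Ln Ld x → DomH x → ∃ q1 q2 : ℝ, 0 ≤ q1 ∧
      q1 ≤ B * (1 + x.f ^ 2 + x.g ^ 2) ^ (K + 1) ∧ 0 ≤ q2 ∧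
      q2 ≤ B * (1 + x.f ^ 2 + x.g ^ 2) ^ (K + 1) ∧
      q1 * (eDi 1).re x + q2 * (eDi (-1)).re x ≤ brs x bs := by
  induction bs with
  | nil =>
    refine ⟨0, le_rfl, fun x _ _ => ⟨0, 0, le_rfl, by simp, le_rfl, by simp, ?_⟩⟩
    simp [brs]
  | cons b bs ih =>
    simp only [bokW, Bool.and_eq_true] at hk
    obtain ⟨⟨k1, _⟩, k3⟩ := hk
    obtain ⟨B, hB, ih⟩ := ih k3 fun b' hb => hg b' (List.mem_cons_of_mem _ hb)
    rcases hg b List.mem_cons_self with h | ⟨hi, h⟩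
    · refine ⟨B, hB, fun x hx hw => ?_⟩
      obtain ⟨q1, q2, a1, a2, a3, a4, a5⟩ := ih x hx hw
      refine ⟨q1, q2, a1, a2, a3, a4, ?_⟩
      have := mul_nonneg (h x hx) (Blk.q_nonnegW k1 x)
      rw [brs]
      linarith only [a5, this]
    · obtain ⟨C, hC, hC'⟩ := BddH.q_bd k1 hi (L := max 1 ((Ln : ℝ) / Ld)) (le_max_left _ _)
      refine ⟨B + C, by (clear * - hB hC; positivity), fun x hx hw => ?_⟩
      obtain ⟨q1, q2, a1, a2, a3, a4, a5⟩ := ih x hx hw
      have hq := Blk.q_nonnegW k1 x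
      have hq' := hC' x (hx.domH hw hd (le_max_right _ _))
      have hr : 0 ≤ (1 + x.f ^ 2 + x.g ^ 2) ^ (K + 1) := by (clear * -; positivity)
      rcases h with h | h
      · obtain ⟨w, w0, w1, hw⟩ := h x hx
        have h1 : w * b.q x ≤ b.q x := mul_le_of_le_one_left hq w1
        refine ⟨q1 + w * b.q x, q2, add_nonneg a1 (mul_nonneg w0 hq), ?_, a3, ?_, ?_⟩
        · rw [add_mul]
          (clear * - a2 hq' h1; linarith only [a2, hq', h1])
        · rw [add_mul]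
          (clear * - a4 hq hq'; linarith only [a4, hq, hq'])
        · rw [brs, hw]
          linarith only [a5]
      · obtain ⟨w, w0, w1, hw⟩ := h x hx
        have h1 : w * b.q x ≤ b.q x := mul_le_of_le_one_left hq w1
        refine ⟨q1, q2 + w * b.q x, a1, ?_, add_nonneg a3 (mul_nonneg w0 hq), ?_, ?_⟩
        · rw [add_mul]
          linarith only [mul_nonneg hC hr, a2]
        · rw [add_mul]
          (clear * - a4 hq' h1; linarith)
        · rw [brs, hw]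
          linarith only [a5]

/-- **the hypothesis of the growth version from a certificate** -/
theorem side_ofH {D : Cert} (h : D.checkW = true) {K : ℕ} (hd : 0 < Ld)
    (hg : ∀ b ∈ D.blocks, GoodH K Ln Ld b) : SideH K Ln Ld D.target := by
  have hk : bokW D.k D.r D.N D.blocks = true := by
    simp only [Cert.checkW, Bool.and_eq_true] at h
    exact h.1.1.2
  have hs : (0 : ℝ) < D.s := by
    simp only [Cert.checkW, Bool.and_eq_true, Nat.blt_eq] at h
    exact_mod_cast h.1.1.1.2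
  obtain ⟨B, hB, hb⟩ := brs_sideH hd D.blocks hk hg
  refine ⟨B / D.s, fun x h1 h2 h3 h4 h5 h6 => ?_⟩
  obtain ⟨q1, q2, a1, a2, a3, a4, a5⟩ := hb x ⟨h1, h2, h3, h4, h5⟩ h6
  rw [← Cert.soundW h x] at a5
  refine ⟨q1 / D.s, q2 / D.s, div_nonneg a1 hs.le, ?_, div_nonneg a3 hs.le, ?_, ?_⟩
  · rw [div_mul_eq_mul_div]
    exact div_le_div_of_nonneg_right a2 hs.le
  · rw [div_mul_eq_mul_div]
    exact div_le_div_of_nonneg_right a4 hs.le
  · rw [div_mul_eq_mul_div, div_mul_eq_mul_div, ← add_div, div_le_iff₀ hs]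
    linarith only [a5]

end Pool.Sos71

end

section

namespace Pool.Sos71
end Pool.Sos71
namespace Pool.EK71
end Pool.EK71
namespace Pool.Agent.Helper52.EK
end Pool.Agent.Helper52.EK
namespace Pool.Agent.Helper2.EK
end Pool.Agent.Helper2.EK
namespace Pool.Agent.Helper69.EK3
end Pool.Agent.Helper69.EK3
namespace Pool.Agent.Helper69.EK5
end Pool.Agent.Helper69.EK5
namespace Pool.Agent.Helper69.EK6
end Pool.Agent.Helper69.EK6
namespace Pool.Agent.Helper69.EK6.Dat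
end Pool.Agent.Helper69.EK6.Dat
namespace Pool.Agent.Helper69.EK3.Dat
end Pool.Agent.Helper69.EK3.Dat
namespace Pool.Agent.Helper20.EK7
end Pool.Agent.Helper20.EK7

set_option autoImplicit false

open Complex MeasureTheory Metric Set

open scoped Real ComplexConjugate

namespace Pool.Agent.Helper71.CK

open Pool.Sos71

open Pool.EK71 Pool.Agent.Helper52.EK Pool.Agent.Helper2.EK

open Pool.Agent.Helper69.EK3

open Pool.Agent.Helper69.EK5 (DQ Dd Dd_pos Dd_low DL e_D qX qY Rr c1_Rr Dn Dn_ev Rr_conj_even Rr_conj_odd Rs Dd_conj)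

open Pool.Agent.Helper69.EK6 (px px_o csE_re eCon eDi px_Di)

open Pool.Agent.Helper69.EK3.Dat (disc_im half_bd)

open Pool.Agent.Helper20.EK7 (InL OutL)

variable {Ln Ld : ℤ}

/-- the domain of the growth condition -/
theorem domH_px {X Y : ℂ} {l η : ℝ} (hη : η ∈ Icc (0:ℝ) (π / 2))
    (h9 : Real.sin η * ‖X‖ ≤ 9) (h38 : Real.sin η * ‖Y / X‖ ≤ 38) : DomH (px l η X Y) := by
  refine ⟨domW_px (Y := Y) (l := l) hη h9, ?_⟩
  obtain ⟨b1, b2⟩ := half_bd hη
  have hs : Real.sin η = 2 * Real.sin (η / 2) * Real.cos (η / 2) := by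
    rw [← Real.sin_two_mul]
    congr 1
    ring
  have h1 := Real.sin_sq_add_cos_sq (η / 2)
  have hs' : Real.sin (η / 2) ^ 2 * 2 ≤ Real.sin η ^ 2 := by
    rw [hs]
    (clear * - b1 b2 h1; nlinarith only [mul_nonneg (sq_nonneg (Real.sin (η / 2))) (sub_nonneg.2 (pow_le_pow_left₀ b1 b2 2)), h1])
  have hs0 : 0 ≤ Real.sin η := by
    rw [hs]
    exact mul_nonneg (by (clear * - b1; linarith)) (by linarith only [b1, b2])
  have h2 : (Real.sin η * ‖Y / X‖) ^ 2 ≤ 38 ^ 2 :=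
    pow_le_pow_left₀ (mul_nonneg hs0 (norm_nonneg _)) h38 2
  have hq : ‖Y / X‖ ^ 2 = (Y / X).re ^ 2 + (Y / X).im ^ 2 := by
    rw [← Complex.normSq_eq_norm_sq, Complex.normSq_apply]
    ring
  show (Real.sin (η / 2) * (Y / X).re) ^ 2 + (Real.sin (η / 2) * (Y / X).im) ^ 2 ≤ 900
  have h3 : (Real.sin (η / 2) * (Y / X).re) ^ 2 + (Real.sin (η / 2) * (Y / X).im) ^ 2 =
      Real.sin (η / 2) ^ 2 * ‖Y / X‖ ^ 2 := by
    rw [hq]
    ring
  rw [h3]
  have := mul_le_mul_of_nonneg_right hs' (sq_nonneg ‖Y / X‖)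
  (clear * - h2 hs'; nlinarith only [hs', h2])

theorem SideH.apply {c : Pool.Agent.Helper69.EK6.Dat} {t : Ex} (h : SideH c.K Ln Ld t) :
    ∃ B : ℝ, 0 ≤ B ∧ ∀ (X Y : ℂ) (l η : ℝ), η ∈ Icc (0:ℝ) (π / 2) →
      Real.sin η * ‖X‖ ≤ 9 → Real.sin η * ‖Y / X‖ ≤ 38 → 0 ≤ l → (Ld : ℝ) * l ≤ Ln →
      ∃ q1 q2 : ℝ, 0 ≤ q1 ∧ q1 ≤ B * (1 + ‖X - 1‖ ^ 2) ∧ 0 ≤ q2 ∧ q2 ≤ B * (1 + ‖X - 1‖ ^ 2) ∧
      Dd c.a X.re X.im ^ c.K * (q1 * (16 - ‖dA 1 X Y (Real.sin η) (Real.cos η)‖ ^ 2) +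
        q2 * (16 - ‖dA (-1) X Y (Real.sin η) (Real.cos η)‖ ^ 2)) ≤ t.re (px l η X Y) := by
  obtain ⟨B, hB⟩ := h
  obtain ⟨k, hk, hl⟩ := Dd_low c.a
  refine ⟨|B| * k ^ c.K, by (clear * - hk; positivity), fun X Y l η hη h9 h38 l0 l1 => ?_⟩
  obtain ⟨b1, b2⟩ := half_bd hη
  have hD := Dd_pos c.a X.re X.im
  have hDK : 0 < Dd c.a X.re X.im ^ c.K := pow_pos hD _
  obtain ⟨q1, q2, g1, g2, g3, g4, g5⟩ := hB (px l η X Y) b1 b2 (Real.sin_sq_add_cos_sq _) l0 l1
    (domH_px hη h9 h38)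
  have hX1 : 1 + ‖X - 1‖ ^ 2 = 1 + (X.re - 1) ^ 2 + X.im ^ 2 := by
    rw [← Complex.normSq_eq_norm_sq, Complex.normSq_apply]
    simp only [sub_re, sub_im, one_re, one_im, sub_zero]
    ring
  have hu : (1 + (X.re - 1) ^ 2 + X.im ^ 2) ^ c.K ≤ k ^ c.K * Dd c.a X.re X.im ^ c.K := by
    rw [← mul_pow]
    refine pow_le_pow_left₀ (by (clear * -; positivity)) ?_ _
    have := hl X.re X.im
    (clear * - this; linarith only [this])
  have hb : B * (1 + (X.re - 1) ^ 2 + X.im ^ 2) ^ (c.K + 1) ≤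
      |B| * k ^ c.K * (1 + ‖X - 1‖ ^ 2) * Dd c.a X.re X.im ^ c.K := by
    have h0 : 0 ≤ (1 + (X.re - 1) ^ 2 + X.im ^ 2) ^ (c.K + 1) := by (clear * -; positivity)
    have h1 : 0 ≤ |B| * (1 + (X.re - 1) ^ 2 + X.im ^ 2) := by (clear * -; positivity)
    calc B * (1 + (X.re - 1) ^ 2 + X.im ^ 2) ^ (c.K + 1) ≤
          |B| * (1 + (X.re - 1) ^ 2 + X.im ^ 2) ^ (c.K + 1) :=
          mul_le_mul_of_nonneg_right (le_abs_self B) h0
      _ = |B| * (1 + (X.re - 1) ^ 2 + X.im ^ 2) *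
          (1 + (X.re - 1) ^ 2 + X.im ^ 2) ^ c.K := by rw [pow_succ]; ring
      _ ≤ |B| * (1 + (X.re - 1) ^ 2 + X.im ^ 2) * (k ^ c.K * Dd c.a X.re X.im ^ c.K) :=
          mul_le_mul_of_nonneg_left hu h1
      _ = _ := by rw [hX1]; ring
  refine ⟨q1 / Dd c.a X.re X.im ^ c.K, q2 / Dd c.a X.re X.im ^ c.K, div_nonneg g1 hDK.le, ?_,
    div_nonneg g3 hDK.le, ?_, ?_⟩
  · rw [div_le_iff₀ hDK]
    exact g2.trans hb
  · rw [div_le_iff₀ hDK]
    exact g4.trans hb
  · rw [px_Di, px_Di] at g5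
    refine le_trans (le_of_eq ?_) g5
    push_cast
    (clear * - hD; field_simp)

namespace DatG

variable {g : DatG} {ka kb p0 p1 p2 la lb q0 q1 q2 : ℝ} {Ln' Ld' : ℤ}

end DatG

end Pool.Agent.Helper71.CK

end

section

namespace Pool.Agent.Helper39.Area
end Pool.Agent.Helper39.Area
namespace Pool.Agent.Helper52.EK
end Pool.Agent.Helper52.EK
namespace Pool.Agent.Helper52.CK
end Pool.Agent.Helper52.CK
namespace Pool.Agent.Helper84.CK
end Pool.Agent.Helper84.CK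
namespace Pool.Agent.Helper69.CK
end Pool.Agent.Helper69.CK
namespace Pool.Agent.Helper9.EK
end Pool.Agent.Helper9.EK

set_option autoImplicit false

open Complex MeasureTheory Metric Set Filter Topology

open scoped Real ComplexConjugate

namespace Pool.Agent.Helper77.CK

open Pool.Agent.Helper39.Area Pool.Agent.Helper52.EK Pool.Agent.Helper52.CK

open Pool.Agent.Helper84.CK (WtF)

open Pool.Agent.Helper69.CK (MOk Mh Mt)

open Pool.Agent.Helper9.EK (rotβ)

/-- the bound for the target on the real axis, with a weight -/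
def KOneStmt (κ dc : ℝ) (G M : ℂ → ℂ) (q : ℝ) : Prop :=
  ∃ e C V₀ a₀ : ℝ, 0 < e ∧ 0 ≤ C ∧ 0 < V₀ ∧ a₀ < 1 ∧
    ∀ (β : ℂ → ℂ) (R a V : ℝ) (Ω Ω₁ Ω₂ : ℝ → ℝ → ℝ), ExtR β R → a₀ < a → a < 1 →
    0 ≤ V → V ≤ V₀ → WtF (Real.log (tau a) + 1) (-1) V Ω Ω₁ Ω₂ →
    Kf (wf G β) 1 (-1) (Real.log a) +
        e * II (Real.log (tau a) + 1) (-1) (fun ξ η => ‖Xf β a (pt ξ η) - 1‖ ^ 2) ≤
      κ * Real.log (‖N β a‖ / (1 - a ^ 2)) +
        π⁻¹ * II (Real.log (tau a) + 1) (-1) (fun ξ η => Ω ξ η * Mt M q (Xf β a) ξ η) +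
        4 * π⁻¹ * II (Real.log (tau a) + 1) (-1) (fun ξ η => 1 - Ω ξ η) +
        dc * (-1 - (Real.log (tau a) + 1)) +
        C * (1 + V * (-1 - (Real.log (tau a) + 1)))

/-- the cut-off functions -/
def CutStmt : Prop :=
  ∃ C₀ : ℝ, 0 ≤ C₀ ∧ ∀ K ε A : ℝ, 0 < K → 0 < ε → ∃ s C n₀ : ℝ, 0 < s ∧ s ≤ 1 / 2 ∧ 0 ≤ C ∧
    ∀ n : ℝ, n₀ ≤ n → ∃ W0 : ℂ → ℝ, Cutf (Real.exp (-n)) W0 ∧
      ∀ x θ : ℝ, 0 < x → x ≤ Real.exp (-n) → |θ| ≤ s →
        (∃ W₁ W₂ : ℝ → ℝ → ℝ, WtF (Real.log (tau (Real.exp (-x))) + 1) (-1) K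
          (fun ξ η => W0 (Complex.exp (θ * I) * zf (pt ξ η))) W₁ W₂) ∧
        (∀ z : ℂ, W0 (Complex.exp (θ * I) * z) ≠ 0 → ‖z‖ < 1 ∧
          Real.exp (Real.log (tau (Real.exp (-x))) + 1) < ‖1 - z‖ / ‖1 + z‖ ∧
          ‖1 - z‖ / ‖1 + z‖ ≤ Real.exp (-A)) ∧
        II (Real.log (tau (Real.exp (-x))) + 1) (-1)
            (fun ξ η => 1 - W0 (Complex.exp (θ * I) * zf (pt ξ η))) ≤
          ε * (-Real.log x) + C + C₀ * (-Real.log x - n)

/-- the length of the strip -/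
theorem len_le {x : ℝ} (hx : 0 < x) (hx1 : x ≤ 1) :
    -1 - (Real.log (tau (Real.exp (-x))) + 1) ≤ -Real.log x := by
  have h1 := Pool.Agent.Helper63.CK.tau_ge hx hx1
  have h2 : Real.log (x / 4) ≤ Real.log (tau (Real.exp (-x))) :=
    Real.log_le_log (by (clear * - hx; positivity)) h1
  rw [Real.log_div hx.ne' (by norm_num)] at h2
  have h3 : Real.log 4 ≤ 2 := by
    have h4 : Real.log 4 = 2 * Real.log 2 := by
      rw [show (4:ℝ) = 2 ^ 2 by norm_num, Real.log_pow]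
      norm_num
    have h5 := Real.log_two_lt_d9
    (clear * - h4 h5; linarith only [h4, h5])
  (clear * - h2 h3; linarith only [h2, h3])

theorem tau_far' {x : ℝ} (hx : 0 < x) (hx1 : x ≤ Real.exp (-2)) :
    Real.log (tau (Real.exp (-x))) + 1 ≤ -1 := by
  have h1 := Pool.Agent.Helper63.CK.tau_le hx hx1
  have h2 : 0 < tau (Real.exp (-x)) := by
    have := Pool.Agent.Helper63.CK.tau_ge hx (hx1.trans (by
      rw [Real.exp_le_one_iff]
      norm_num))
    (clear * - hx this; linarith only [hx, this])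
  have h3 := Real.log_le_log h2 h1
  rw [Real.log_exp] at h3
  linarith

theorem exp_m2 : Real.exp (-2) ≤ 1 / 4 := by
  have h1 : Real.exp (-2) = Real.exp (-1) * Real.exp (-1) := by
    rw [← Real.exp_add]
    norm_num
  have h2 : Real.exp (-1) < 0.3678794412 := Real.exp_neg_one_lt_d9
  have h3 := Real.exp_pos (-1)
  rw [h1]
  nlinarith only [h2, h3]

/-- the crude bound -/
theorem crude {G : ℂ → ℂ} {L : ℝ} (hG : GLip G L) : ∃ C : ℝ, 0 ≤ C ∧
    ∀ (β : ℂ → ℂ) (R x : ℝ), ExtR β R → 0 < x → x ≤ Real.exp (-2) →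
      Kf (wf G β) 1 (-1) (-x) ≤ 4 * (-Real.log x) + C := by
  have hG2 := Pool.Agent.Helper84.CK.GLip.two hG
  obtain ⟨C, hC⟩ := Pool.Agent.Helper69.EK7.E3F hG2 1 le_rfl
  refine ⟨|C|, abs_nonneg C, ?_⟩
  intro β R x hβ hx hx1
  have hx2 : x ≤ 1 / 4 := hx1.trans exp_m2
  have ha1 : Real.exp (-x) < 1 := by
    rw [Real.exp_lt_one_iff]
    linarith only [hx]
  have ha : Real.exp (-1) < Real.exp (-x) := Real.exp_lt_exp.2 (by (clear * - hx2; linarith only [hx2]))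
  have hfar := tau_far' hx hx1
  have h1 := hC β R (Real.exp (-x)) hβ ha ha1 hfar
  rw [Real.log_exp] at h1
  have h1' : Kf (wf G β) 1 (-1) (-x) ≤ π⁻¹ * II (Real.log (tau (Real.exp (-x))) + 1) (-1)
      (Pool.Agent.Helper69.EK7.T2 (fun m _ => G m) (Xf β (Real.exp (-x)))) + C := h1
  have hlen := len_le hx (by linarith only [hx2] : x ≤ 1)
  obtain ⟨x₁, hx₁⟩ : ∃ x₁, x₁ = Real.log (tau (Real.exp (-x))) + 1 := ⟨_, rfl⟩
  rw [← hx₁] at h1' hlen hfar
  have hxt : Real.log (tau (Real.exp (-x))) < x₁ := by linarith only [hx₁]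
  have hX : NiceX (Xf β (Real.exp (-x))) x₁ (-1) :=
    Pool.Agent.Helper67.EK.E1c hβ (Real.exp_pos _) ha1 hxt (by norm_num)
  have hT : II x₁ (-1) (Pool.Agent.Helper69.EK7.T2 (fun m _ => G m) (Xf β (Real.exp (-x)))) ≤
      II x₁ (-1) (fun _ _ => 4) := by
    refine Pool.Agent.Helper44.EK.II_mono hfar ?_ ?_ ?_
    · exact Pool.Agent.Helper69.EK7.F3_contOn hG2 hX
    · exact continuousOn_const
    · intro ξ _ η _
      exact Pool.Agent.Helper84.CK.T2_le4 hG2 _ ξ η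
  have h4 : II x₁ (-1) (fun _ _ => (4:ℝ)) = 4 * π * (-1 - x₁) := by
    unfold II
    simp only [intervalIntegral.integral_const, smul_eq_mul]
    ring
  rw [h4] at hT
  have hpi := Real.pi_pos
  have h5 := mul_le_mul_of_nonneg_left hT (inv_pos.2 hpi).le
  have h6 : π⁻¹ * (4 * π * (-1 - x₁)) = 4 * (-1 - x₁) := by
    field_simp
  rw [h6] at h5
  have h7 := le_abs_self C
  linarith only [hlen, h1', h5, h7]

/-- `log (|N|/(1 - |z|²)) ≥ 0` -/
theorem log_nonneg' {β : ℂ → ℂ} (h : Ext β) {x θ : ℝ} (hx : 0 < x) :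
    0 ≤ Real.log (‖N β (ep (-x) θ)‖ / (1 - Real.exp (-2 * x))) := by
  have h1 : ‖ep (-x) θ‖ = Real.exp (-x) := by
    unfold ep
    rw [Complex.norm_exp]
    simp
  have h2 : Real.exp (-x) < 1 := by
    rw [Real.exp_lt_one_iff]
    linarith
  have h3 := Pool.Agent.Helper39.EK.N_ge h (z := ep (-x) θ) (by rw [h1]; exact h2)
  have h4 : Real.exp (-2 * x) = ‖ep (-x) θ‖ ^ 2 := by
    rw [h1, ← Real.exp_nat_mul]
    congr 1
    push_cast
    ring
  rw [← h4] at h3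
  have h5 : 0 < 1 - Real.exp (-2 * x) := by
    rw [h4, h1]
    (clear * - h2; nlinarith only [Real.exp_pos (-x), h2])
  apply Real.log_nonneg
  rw [le_div_iff₀ h5]
  (clear * - h3; linarith only [h3])

/-- **PT from its parts** -/
theorem pt_of {κ dl : ℝ} (hκ : 0 ≤ κ) (hdl : 0 ≤ dl) {G M M' : ℂ → ℂ} {L Mb Lm ε₀ : ℝ}
    (hG : GLip G L) (hM : MOk M M' Mb Lm ε₀) (hε₀ : 0 < ε₀)
    (hK : KOneStmt κ dl G M (1 + dl / (2 * κ))) (hcut : CutStmt) :
    PTStmt κ dl G (Mh M') := by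
  obtain ⟨e, C₁, V₀, a₀, he, hC₁, hV₀, ha₀, hK⟩ := hK
  obtain ⟨Cc, hCc, hconv⟩ := Pool.Agent.Helper69.CK.conv hM (1 + dl / (2 * κ))
  obtain ⟨Ck, hCk, hcut⟩ := hcut
  obtain ⟨Cr, hCr, hcr⟩ := crude hG
  have hpi := Real.pi_pos
  have hpi3 := Real.pi_gt_three
  have hpii : 0 < π⁻¹ := inv_pos.2 hpi
  refine ⟨4 * π⁻¹ * Ck + 4, by (clear * - hCk; positivity), ?_⟩
  intro ε hε
  obtain ⟨V, hV⟩ : ∃ V, V = min V₀ (ε / (2 * (C₁ + 1))) := ⟨_, rfl⟩
  have hVpos : 0 < V := by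
    rw [hV]
    exact lt_min hV₀ (by (clear * - hε hC₁; positivity))
  have hVV : V ≤ V₀ := by rw [hV]; exact min_le_left _ _
  have hCV : C₁ * V ≤ ε / 2 := by
    have h1 : V ≤ ε / (2 * (C₁ + 1)) := by rw [hV]; exact min_le_right _ _
    have h2 : V * (2 * (C₁ + 1)) ≤ ε := by
      rwa [le_div_iff₀ (by positivity)] at h1
    linarith only [hVpos, h2]
  -- the depth of the upper cut
  obtain ⟨A, hA⟩ : ∃ A : ℝ, 8 * Real.exp (-A) ≤ 1 ∧ 184 * Real.exp (-A) ≤ ε₀ ∧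
      π⁻¹ * Cc * Real.exp (-A) ≤ e := by
    have h1 : 0 < min (1 / 8) (min (ε₀ / 184) (e / (π⁻¹ * Cc + 1))) := by (clear * - hε₀ he hCc; positivity)
    refine ⟨-Real.log (min (1 / 8) (min (ε₀ / 184) (e / (π⁻¹ * Cc + 1)))), ?_⟩
    rw [neg_neg, Real.exp_log h1]
    have m1 := min_le_left (1 / 8 : ℝ) (min (ε₀ / 184) (e / (π⁻¹ * Cc + 1)))
    have m2 := (min_le_right (1 / 8 : ℝ) (min (ε₀ / 184) (e / (π⁻¹ * Cc + 1)))).trans
      (min_le_left _ _)
    have m3 := (min_le_right (1 / 8 : ℝ) (min (ε₀ / 184) (e / (π⁻¹ * Cc + 1)))).trans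
      (min_le_right _ _)
    refine ⟨by (clear * - m1; linarith only [m1]), ?_, ?_⟩
    · rw [le_div_iff₀ (by norm_num)] at m2
      (clear * - m2; linarith)
    · have h2 : 0 < π⁻¹ * Cc + 1 := by (clear * - hCc; positivity)
      rw [le_div_iff₀ h2] at m3
      linarith only [h1, m3]
  obtain ⟨hA1, hA2, hA3⟩ := hA
  obtain ⟨s, C₂, n₀, hs, hs1, hC₂, hcut⟩ := hcut V (ε * π / 8) A hVpos (by positivity)
  -- the first depth
  obtain ⟨n₁, hn₁⟩ : ∃ n₁ : ℝ, ∀ x : ℝ, x ≤ Real.exp (-n₁) → a₀ < Real.exp (-x) := by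
    refine ⟨-Real.log (1 - a₀) + 1, ?_⟩
    intro x hx
    have h1 : Real.exp (-(-Real.log (1 - a₀) + 1)) = (1 - a₀) * Real.exp (-1) := by
      rw [neg_add, neg_neg, Real.exp_add, Real.exp_log (by linarith only [ha₀])]
    rw [h1] at hx
    have h2 : Real.exp (-1) < 1 := by
      rw [Real.exp_lt_one_iff]
      norm_num
    have h3 := Real.add_one_le_exp (-x)
    (clear * - hx h3 ha₀ h2; nlinarith only [ha₀, hx, h2, h3])
  obtain ⟨n₂, hn₂⟩ : ∃ n₂, n₂ = max n₀ n₁ := ⟨_, rfl⟩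
  refine ⟨s, (Cr + 4 * |n₂|) + (π⁻¹ * Cc + 4 * π⁻¹ * C₂ + C₁), hs, hs1, by (clear * - hCr hCc hC₂ hC₁; positivity), ?_⟩
  intro n hn
  by_cases hnn : n₂ ≤ n
  · obtain ⟨W0, hW0, hcut⟩ := hcut n ((le_max_left _ _).trans (hn₂ ▸ hnn))
    refine ⟨W0, hW0, ?_⟩
    intro β R hβ x θ hx hxn hθ
    obtain ⟨⟨W₁, W₂, hWt⟩, hsupp, harea⟩ := hcut x θ hx hxn hθ
    have hx2 : x ≤ Real.exp (-2) := hxn.trans (Real.exp_le_exp.2 (by (clear * - hn; linarith only [hn])))
    have hx4 : x ≤ 1 / 4 := hx2.trans exp_m2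
    have ha1 : Real.exp (-x) < 1 := by
      rw [Real.exp_lt_one_iff]
      linarith only [hx]
    have ha0 : a₀ < Real.exp (-x) := hn₁ x (hxn.trans (Real.exp_le_exp.2 (by
      have := (le_max_right n₀ n₁).trans (hn₂ ▸ hnn)
      linarith only [this])))
    have hfar := tau_far' hx hx2
    have hlen := len_le hx (by linarith only [hx4] : x ≤ 1)
    have hβ' := Pool.Agent.Helper9.EK.rot_ExtR hβ θ
    have k1 := hK (rotβ β θ) R (Real.exp (-x)) V _ W₁ W₂ hβ' ha0 ha1 hVpos.le hVV hWt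
    have k2 := hconv (rotβ β θ) R (Real.exp (-x)) A (Real.log (tau (Real.exp (-x))) + 1)
      (fun z => W0 (Complex.exp (θ * I) * z)) hβ' (Real.exp_pos _) ha1 (by linarith only []) hfar hA1 hA2
      (hW0.cont.comp (continuous_const.mul continuous_id)) (fun z => hW0.nn _)
      (fun z => hW0.le1 _) hsupp
    rw [Real.log_exp, ← Pool.Agent.Helper9.EK.rot_Kf'] at k1
    have e1 : N (rotβ β θ) ((Real.exp (-x) : ℝ) : ℂ) = N β (ep (-x) θ) := by
      rw [Pool.Agent.Helper9.EK.rot_N', Pool.Agent.Helper69.CK.ep_eq]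
    have e2 : Real.exp (-x) ^ 2 = Real.exp (-2 * x) := by
      rw [← Real.exp_nat_mul]
      congr 1
      push_cast
      ring
    rw [e1, e2] at k1
    have e3 := Pool.Agent.Helper69.CK.MM_rot κ dl W0 M' β x θ
    set E := II (Real.log (tau (Real.exp (-x))) + 1) (-1)
      (fun ξ η => ‖Xf (rotβ β θ) (Real.exp (-x)) (pt ξ η) - 1‖ ^ 2) with hE
    set J := ∫ z : ℂ, W0 (Complex.exp (θ * I) * z) * (Mh M' (rotβ β θ) z *
      (kA (rotβ β θ) ((Real.exp (-x) : ℝ) : ℂ) z -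
        ((1 + dl / (2 * κ) : ℝ) : ℂ) * omp 0 z ^ 2)).re with hJ
    have hE0 : 0 ≤ E := Pool.Agent.Helper83.EK.II_nonneg hfar (fun ξ η => by (clear * -; positivity))
    have k3 := (abs_le.mp k2).2
    have k4 := mul_le_mul_of_nonneg_left k3 hpii.le
    rw [e3]
    have k5 : π⁻¹ * Cc * Real.exp (-A) * E ≤ e * E := mul_le_mul_of_nonneg_right hA3 hE0
    have k6 := mul_le_mul_of_nonneg_left harea (by positivity : 0 ≤ 4 * π⁻¹)
    have k7 : 4 * π⁻¹ * (ε * π / 8 * (-Real.log x) + C₂ + Ck * (-Real.log x - n)) =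
        ε / 2 * (-Real.log x) + 4 * π⁻¹ * C₂ + 4 * π⁻¹ * Ck * (-Real.log x - n) := by
      field_simp
      ring
    rw [k7] at k6
    have k8 : dl * (-1 - (Real.log (tau (Real.exp (-x))) + 1)) ≤ dl * (-Real.log x) :=
      mul_le_mul_of_nonneg_left hlen hdl
    have hl0 : 0 ≤ -Real.log x := by
      rw [neg_nonneg]
      exact Real.log_nonpos hx.le (by (clear * - hx4; linarith only [hx4]))
    have k9 : C₁ * (1 + V * (-1 - (Real.log (tau (Real.exp (-x))) + 1))) ≤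
        C₁ + ε / 2 * (-Real.log x) := by
      have q1 : C₁ * V * (-1 - (Real.log (tau (Real.exp (-x))) + 1)) ≤ C₁ * V * (-Real.log x) :=
        mul_le_mul_of_nonneg_left hlen (by (clear * - hC₁ hVpos; positivity))
      have q2 : C₁ * V * (-Real.log x) ≤ ε / 2 * (-Real.log x) :=
        mul_le_mul_of_nonneg_right hCV hl0
      have q3 : C₁ * (1 + V * (-1 - (Real.log (tau (Real.exp (-x))) + 1))) =
          C₁ + C₁ * V * (-1 - (Real.log (tau (Real.exp (-x))) + 1)) := by ring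
      linarith only [q1, q2]
    have hln : n ≤ -Real.log x := by
      have := Real.log_le_log hx hxn
      rw [Real.log_exp] at this
      linarith only [this]
    have k10 : 0 ≤ 4 * (-Real.log x - n) := by linarith only [hln]
    have k11 : 0 ≤ Cr + 4 * |n₂| := by (clear * - hCr; positivity)
    linarith only [k1, k4, k5, k6, k8, k9, k10, k11]
  · push Not at hnn
    refine ⟨fun _ => 0, ⟨continuous_const, fun _ => le_rfl, fun _ => zero_le_one,
      fun z h => absurd rfl h⟩, ?_⟩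
    intro β R hβ x θ hx hxn _
    have hx2 : x ≤ Real.exp (-2) := hxn.trans (Real.exp_le_exp.2 (by linarith only [hn]))
    have hx4 : x ≤ 1 / 4 := hx2.trans exp_m2
    have hβ' := Pool.Agent.Helper9.EK.rot_ExtR hβ θ
    have k1 := hcr (rotβ β θ) R x hβ' hx hx2
    rw [← Pool.Agent.Helper9.EK.rot_Kf'] at k1
    have k2 := log_nonneg' hβ.toExt (x := x) (θ := θ) hx
    have k3 : MM κ dl (fun _ => 0) (Mh M' β) β x θ = 0 := by
      unfold MM
      simp
    have k4 := mul_nonneg hκ k2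
    have hl0 : 0 ≤ -Real.log x := by
      rw [neg_nonneg]
      exact Real.log_nonpos hx.le (by (clear * - hx4; linarith only [hx4]))
    have k5 : 0 ≤ (dl + ε) * (-Real.log x) := by (clear * - hdl hε hl0; positivity)
    have hln : n ≤ -Real.log x := by
      have := Real.log_le_log hx hxn
      rw [Real.log_exp] at this
      linarith only [this]
    have k6 : 0 ≤ 4 * π⁻¹ * Ck * (-Real.log x - n) := mul_nonneg (by positivity) (by linarith only [hln])
    have k7 : 0 ≤ π⁻¹ * Cc + 4 * π⁻¹ * C₂ + C₁ := by (clear * - hCc hC₂ hC₁; positivity)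
    have k8 : 4 * n ≤ 4 * |n₂| := by
      have := le_abs_self n₂
      linarith only [hnn, this]
    rw [k3]
    have k9 : (4 * π⁻¹ * Ck + 4) * (-Real.log x - n) =
        4 * π⁻¹ * Ck * (-Real.log x - n) + 4 * (-Real.log x) - 4 * n := by ring
    rw [k9]
    linarith only [k1, k4, k5, k6, k7, k8]

end Pool.Agent.Helper77.CK

end

section

namespace Pool.Agent.Helper39.Area
end Pool.Agent.Helper39.Area
namespace Pool.Agent.Helper52.EK
end Pool.Agent.Helper52.EK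
namespace Pool.Agent.Helper52.CK
end Pool.Agent.Helper52.CK
namespace Pool.Agent.Helper69.CK
end Pool.Agent.Helper69.CK

/-!
# CK: PT from the bound for the target on the real axis
-/

set_option autoImplicit false

open Complex MeasureTheory Metric Set Filter Topology

open scoped Real ComplexConjugate

namespace Pool.Agent.Helper77.CK

open Pool.Agent.Helper39.Area Pool.Agent.Helper52.EK Pool.Agent.Helper52.CK

open Pool.Agent.Helper69.CK (MOk Mh Mt)

/-- **PT** -/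
theorem pt {κ dl : ℝ} (hκ : 0 ≤ κ) (hdl : 0 ≤ dl) {G M M' : ℂ → ℂ} {L Mb Lm ε₀ : ℝ}
    (hG : GLip G L) (hM : MOk M M' Mb Lm ε₀) (hε₀ : 0 < ε₀)
    (hK : KOneStmt κ dl G M (1 + dl / (2 * κ))) : PTStmt κ dl G (Mh M') :=
  pt_of hκ hdl hG hM hε₀ hK Pool.Agent.Helper73.CK.cut

end Pool.Agent.Helper77.CK

end

section

namespace Pool.Agent.Helper39.Area
end Pool.Agent.Helper39.Area

set_option autoImplicit false

open Complex Metric Set Filter Topology

open scoped ComplexConjugate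

namespace Pool.Agent.Helper5.CK

open Pool.Agent.Helper39.Area

theorem norm_ge_of_near {z w p : ℂ} {a b : ℝ} (h : a ≤ ‖z - p‖) (hw : ‖w - z‖ ≤ b) :
    a - b ≤ ‖w - p‖ := by
  have h1 : ‖z - p‖ ≤ ‖w - p‖ + ‖w - z‖ := by
    have : z - p = (w - p) - (w - z) := by ring
    rw [this]; exact norm_sub_le _ _
  (clear * - h hw h1; linarith only [h, hw, h1])

theorem norm_le_of_near {z w : ℂ} {a b : ℝ} (h : ‖z‖ ≤ a) (hw : ‖w - z‖ ≤ b) :
    ‖w‖ ≤ a + b := by
  have h1 : ‖w‖ ≤ ‖z‖ + ‖w - z‖ := by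
    have : w = z + (w - z) := by ring
    calc ‖w‖ = ‖z + (w - z)‖ := by rw [← this]
      _ ≤ _ := norm_add_le _ _
  (clear * - h hw h1; linarith)

/-- algebra of the error terms -/
theorem err_bound {q x : ℂ} {A B A' B' E : ℂ} {k1 k2 k3 k4 k5 k6 : ℝ} (hq : ‖q‖ ≤ 2)
    (hA : ‖A' - A‖ ≤ k1) (hqx : ‖q - (1 - x)‖ ≤ k2) (hA0 : ‖A‖ ≤ k3) (hB : ‖B' - B‖ ≤ k4)
    (hx : ‖x‖ ≤ k5) (hB0 : ‖B‖ ≤ k6) :
    ‖q * (A' + B' + E) - (1 - x) * A - B‖ ≤
      2 * k1 + k2 * k3 + 2 * k4 + (k2 + k5) * k6 + 2 * ‖E‖ := by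
  have h1 : q * (A' + B' + E) - (1 - x) * A - B =
      q * (A' - A) + (q - (1 - x)) * A + q * (B' - B) + ((q - (1 - x)) - x) * B + q * E := by
    ring
  have e1 : ‖q * (A' - A)‖ ≤ 2 * k1 := by
    rw [norm_mul]; exact mul_le_mul hq hA (norm_nonneg _) (by norm_num)
  have e2 : ‖(q - (1 - x)) * A‖ ≤ k2 * k3 := by
    rw [norm_mul]; exact mul_le_mul hqx hA0 (norm_nonneg _) ((norm_nonneg _).trans hqx)
  have e3 : ‖q * (B' - B)‖ ≤ 2 * k4 := by
    rw [norm_mul]; exact mul_le_mul hq hB (norm_nonneg _) (by norm_num)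
  have e4 : ‖((q - (1 - x)) - x) * B‖ ≤ (k2 + k5) * k6 := by
    rw [norm_mul]
    refine mul_le_mul ((norm_sub_le _ _).trans (add_le_add hqx hx)) hB0 (norm_nonneg _) ?_
    exact add_nonneg ((norm_nonneg _).trans hqx) ((norm_nonneg _).trans hx)
  have e5 : ‖q * E‖ ≤ 2 * ‖E‖ := by
    rw [norm_mul]; exact mul_le_mul_of_nonneg_right hq (norm_nonneg _)
  rw [h1]
  have f1 := norm_add_le (q * (A' - A) + (q - (1 - x)) * A + q * (B' - B) +
    ((q - (1 - x)) - x) * B) (q * E)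
  have f2 := norm_add_le (q * (A' - A) + (q - (1 - x)) * A + q * (B' - B))
    (((q - (1 - x)) - x) * B)
  have f3 := norm_add_le (q * (A' - A) + (q - (1 - x)) * A) (q * (B' - B))
  have f4 := norm_add_le (q * (A' - A)) ((q - (1 - x)) * A)
  linarith only [e1, e2, e3, e4, e5, f1, f2, f3, f4]

theorem exp_bound {x r : ℝ} (hx : |x| ≤ 1 / 2) (hr0 : 0 < r) (hr1 : r < 1) :
    |r / Real.exp x - (1 - x)| ≤ x ^ 2 + 2 * (1 - r) ∧ |r / Real.exp x| ≤ 2 := by
  have h1 : r / Real.exp x = r * Real.exp (-x) := by rw [Real.exp_neg]; rfl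
  have hx' : |(-x)| ≤ 1 := by rw [abs_neg]; linarith
  have h2 := Real.abs_exp_sub_one_sub_id_le hx'
  have h3 : r * Real.exp (-x) - (1 - x) = r * (Real.exp (-x) - 1 - -x) + (r - 1) * (1 - x) := by
    ring
  have h4 : |r * (Real.exp (-x) - 1 - -x)| ≤ x ^ 2 := by
    rw [abs_mul, abs_of_pos hr0]
    have : 0 ≤ |Real.exp (-x) - 1 - -x| := abs_nonneg _
    have h5 : (-x) ^ 2 = x ^ 2 := by ring
    rw [h5] at h2
    (clear * - hr1 hr0 h2; nlinarith only [hr0, hr1, h2])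
  have hxx := abs_le.mp hx
  have h5 : |(r - 1) * (1 - x)| ≤ 2 * (1 - r) := by
    rw [abs_mul, abs_of_nonpos (by (clear * - hr1; linarith only [hr1]) : r - 1 ≤ 0), abs_of_nonneg (by (clear * - hxx; linarith only [hxx]) : 0 ≤ 1 - x)]
    (clear * - hr1 hxx; nlinarith only [hr1, hxx])
  have h6 : |r / Real.exp x - (1 - x)| ≤ x ^ 2 + 2 * (1 - r) := by
    rw [h1, h3]
    exact (abs_add_le _ _).trans (add_le_add h4 h5)
  refine ⟨h6, ?_⟩
  rw [h1, abs_mul, abs_of_pos hr0, abs_of_pos (Real.exp_pos _)]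
  have h7 : Real.exp (-x) ≤ 2 := by
    have h8 := (abs_le.mp h2).2
    have h9 : (-x) ^ 2 ≤ 1 / 4 := by (clear * - hxx; nlinarith only [hxx])
    (clear * - hr0 hr1 hxx h8 h9; linarith)
  nlinarith only [hr0, hr1, h7]

theorem aux_mul {r t : ℝ} (h0 : 0 ≤ t) (h1 : t ≤ 1) (hr : r < 1) : -(r - 1) * t ≤ 1 - r := by
  (clear * - h1 hr; nlinarith only [h1, hr])

theorem aux_eta {η : ℝ} (h0 : 0 < η) (h1 : η ≤ 1 / 2) : η / 8 ≤ 1 - (1 - η / 8) ^ 2 := by
  nlinarith only [h0, h1]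

theorem aux_lin {C t : ℝ} (hC : 0 < C) (h : t ^ 2 ≤ t) :
    (1 + 2 * C) * t ^ 2 + t ≤ ((1 + 2 * C) + 1) * t := by nlinarith only [hC, h]

/-- the lemma for normalised functions -/
theorem variation_zero {η : ℝ} (hη : 0 < η) (hη2 : η ≤ 1 / 2) : ∃ C t0 : ℝ, 0 < C ∧ 0 < t0 ∧
    ∀ β : ℂ → ℂ, Ext β → β 0 = 0 → ∀ p : ℂ, η ≤ ‖p‖ → ‖p‖ ≤ 1 - η → ∀ τ : ℂ, τ ≠ 0 → ‖τ‖ ≤ t0 →
    ∃ γ : ℂ → ℂ, Ext γ ∧ ∀ z : ℂ, η ≤ ‖z‖ → ‖z‖ ≤ 1 - η → η ≤ ‖z - p‖ →
      ‖deriv γ z - deriv β z - deriv (fun z => VV β p τ z - (τ.re : ℂ) * phi β z) z‖ ≤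
        C * ‖τ‖ ^ 2 := by
  obtain ⟨C, t1, hC, ht1, H⟩ := exists_F hη hη2
  obtain ⟨Cb, hCb, Hb⟩ := beta_bd (η := η / 8) (by (clear * - hη; linarith only [hη]))
  obtain ⟨C2, hC2, H2⟩ := expand (η := η / 8) (s := η / 8) (by linarith only [hη]) (by linarith only [hη])
  obtain ⟨t2, ht2, ht2', ht2''⟩ := exists_small (A := C + C2 + 1) (b := η / 8) (by (clear * - hC hC2; positivity))
    (by (clear * - hη; linarith only [hη]))
  -- the constants
  obtain ⟨M1, hM1⟩ : ∃ M1 : ℝ, M1 = (1 / (η / 8 * (η / 8))) / (η / 8) := ⟨_, rfl⟩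
  have hM1p : 0 < M1 := by rw [hM1]; positivity
  obtain ⟨M0, hM0⟩ : ∃ M0 : ℝ, M0 = (η / 8)⁻¹ + Cb := ⟨_, rfl⟩
  have hM0p : 0 < M0 := by rw [hM0]; positivity
  obtain ⟨K, hK⟩ : ∃ K : ℝ, K = 2 * (M1 * C) + (1 + 2 * C) * M0 + 2 * (8 / η * C) +
      ((1 + 2 * C) + 1) * C2 + 2 * C := ⟨_, rfl⟩
  have hKp : 0 < K := by rw [hK]; positivity
  refine ⟨K / (η / 4), min t1 t2, by positivity, lt_min ht1 ht2, ?_⟩
  intro β h hβ0 p hp hp1 τ hτ hτt
  have hτ1 : ‖τ‖ ≤ t1 := hτt.trans (min_le_left _ _)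
  have hτ2 : ‖τ‖ ≤ t2 := hτt.trans (min_le_right _ _)
  have hτp : 0 < ‖τ‖ := norm_pos_iff.mpr hτ
  have hτle1 : ‖τ‖ ≤ 1 := hτ2.trans ht2'
  have hτC : C * ‖τ‖ ≤ η / 8 :=
    small_of ht2'' hτ2 (by linarith only [hC2]) (norm_nonneg _) (by (clear * - hC hC2; positivity))
  have hτC2 : C2 * ‖τ‖ ≤ η / 8 :=
    small_of ht2'' hτ2 (by linarith only [hC]) (norm_nonneg _) (by positivity)
  have hτ8 : ‖τ‖ ≤ η / 8 := by
    have := small_of (A := 1) ht2'' hτ2 (by linarith only [hC, hC2]) (norm_nonneg _) (by positivity)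
    rwa [one_mul] at this
  have hsq : ‖τ‖ ^ 2 ≤ ‖τ‖ := sq_le_self' (norm_nonneg _) hτle1
  obtain ⟨F, r, hr0, hr1, hr, hFd, hFi, hFl, hFe⟩ := H β h p hp hp1 τ hτ hτ1
  have hr8 : 1 - r ≤ η / 8 := by
    have : C * ‖τ‖ ^ 2 ≤ C * ‖τ‖ := mul_le_mul_of_nonneg_left hsq hC.le
    (clear * - hτC hr this; linarith only [hτC, hr, this])
  have hc0 : (Real.exp τ.re : ℂ) ≠ 0 := by exact_mod_cast (Real.exp_pos _).ne'
  obtain ⟨γ, hγ, hγe⟩ := normalise hr0 hr1.le
    (hFd.mono (sdiff_subset_sdiff_left (ball_subset_ball hr1.le))) hFi hc0 hFl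
  refine ⟨γ, hγ, ?_⟩
  have hp1' : ‖p‖ < 1 := by (clear * - hη hp1; linarith only [hη, hp1])
  have hpb : p ∈ ball (0:ℂ) 1 := by simpa using hp1'
  have hp0 : p ≠ 0 := by
    intro h0; rw [h0, norm_zero] at hp; linarith only [hη, hp]
  obtain ⟨V, hVd, hV⟩ := reg_ext h hpb hp0 τ
  have hDo : IsOpen (ball (0:ℂ) 1 \ {0}) := isOpen_ball.sdiff isClosed_singleton
  have hmem : ∀ w : ℂ, 0 < ‖w‖ → ‖w‖ < 1 → w ∈ ball (0:ℂ) 1 \ {0} := by
    intro w h1 h2
    exact ⟨by simpa using h2, fun h3 => by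
      rw [mem_singleton_iff] at h3; rw [h3, norm_zero] at h1; exact lt_irrefl _ h1⟩
  have hVV : ∀ w : ℂ, 0 < ‖w‖ → ‖w‖ < 1 → 0 < ‖w - p‖ → V w = VV β p τ w := by
    intro w h1 h2 h3
    refine hV w (hmem w h1 h2) ?_
    rintro rfl; rw [sub_self, norm_zero] at h3; exact lt_irrefl _ h3
  have hVb : ∀ w : ℂ, η / 8 ≤ ‖w‖ → ‖w‖ ≤ 1 - η / 8 → η / 8 ≤ ‖w - p‖ → ‖V w‖ ≤ C2 * ‖τ‖ := by
    intro w h1 h2 h3
    rw [hVV w (by linarith only [hr1, hr8, h1]) (by linarith only [hr1, hr8, h2]) (by (clear * - hr1 hr8 h3; linarith only [hr1, hr8, h3]))]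
    exact (H2 β h p (by linarith only [hη, hp]) (by linarith only [hη, hp1]) τ (by linarith only [hτC2, h1, h2]) w h1 h2 h3).1
  intro z hz hz1 hzp
  set G : ℂ → ℂ := fun w => γ w - β w - (V w - (τ.re : ℂ) * phi β w) with hG
  have hφd : ∀ w : ℂ, 0 < ‖w‖ → ‖w‖ < 1 → DifferentiableAt ℂ (phi β) w := fun w h1 h2 =>
    (hasDerivAt_phi h.diff (hmem w h1 h2).1 (hmem w h1 h2).2).differentiableAt
  have hγd : ∀ w : ℂ, ‖w‖ < 1 → DifferentiableAt ℂ γ w := fun w h2 =>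
    hγ.diff.differentiableAt (isOpen_ball.mem_nhds (by simpa using h2))
  have hβd : ∀ w : ℂ, ‖w‖ < 1 → DifferentiableAt ℂ β w := fun w h2 =>
    h.diff.differentiableAt (isOpen_ball.mem_nhds (by simpa using h2))
  have hVdd : ∀ w : ℂ, 0 < ‖w‖ → ‖w‖ < 1 → DifferentiableAt ℂ V w := fun w h1 h2 =>
    hVd.differentiableAt (hDo.mem_nhds (hmem w h1 h2))
  have hGd : ∀ w : ℂ, 0 < ‖w‖ → ‖w‖ < 1 → DifferentiableAt ℂ G w := by
    intro w h1 h2
    exact ((hγd w h2).sub (hβd w h2)).sub ((hVdd w h1 h2).sub ((hφd w h1 h2).const_mul _))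
  have hz0 : 0 < ‖z‖ := by (clear * - hr1 hr8 hz; linarith only [hr1, hr8, hz])
  have hz1' : ‖z‖ < 1 := by linarith only [hr1, hr8, hz1]
  have hder : deriv γ z - deriv β z - deriv (fun z => VV β p τ z - (τ.re : ℂ) * phi β z) z =
      deriv G z := by
    have h1 : (fun z => VV β p τ z - (τ.re : ℂ) * phi β z) =ᶠ[𝓝 z]
        fun z => V z - (τ.re : ℂ) * phi β z := by
      have h2 : (ball (0:ℂ) 1 \ {0}) \ {p} ∈ 𝓝 z := by
        apply (hDo.sdiff isClosed_singleton).mem_nhds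
        refine ⟨hmem z hz0 hz1', ?_⟩
        rintro (rfl : z = p)
        rw [sub_self, norm_zero] at hzp; linarith only [hr1, hr8, hzp]
      filter_upwards [h2] with w hw
      rw [hV w hw.1 hw.2]
    rw [h1.deriv_eq, hG]
    have h3 := (hγd z hz1').hasDerivAt.sub (hβd z hz1').hasDerivAt
    have h4 := (hVdd z hz0 hz1').sub ((hφd z hz0 hz1').const_mul (τ.re : ℂ))
    exact ((h3.sub h4.hasDerivAt).deriv).symm
  rw [hder]
  have hsup : ∀ w ∈ sphere z (η / 4), ‖G w‖ ≤ K * ‖τ‖ ^ 2 := by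
    intro w hw
    rw [mem_sphere, dist_eq_norm] at hw
    have w1 : 3 * η / 4 ≤ ‖w‖ := by
      have := norm_ge_of_near (p := 0) (a := η) (by simpa using hz) hw.le
      rw [sub_zero] at this; linarith only [this]
    have w2 : ‖w‖ ≤ 1 - 3 * η / 4 := by
      have := norm_le_of_near hz1 hw.le; linarith only [this]
    have w3 : 3 * η / 4 ≤ ‖w - p‖ := by
      have := norm_ge_of_near hzp hw.le; linarith only [this]
    have hrw : ‖(r:ℂ) * w - w‖ ≤ 1 - r := by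
      have : (r:ℂ) * w - w = ((r - 1 : ℝ) : ℂ) * w := by push_cast; ring
      rw [this, norm_mul, Complex.norm_real, Real.norm_eq_abs, abs_of_nonpos (by linarith only [hr1])]
      exact aux_mul (norm_nonneg w) (by linarith only [hr1, hr8, w2]) hr1
    have r1 : η / 2 ≤ ‖(r:ℂ) * w‖ := by
      have := norm_ge_of_near (p := 0) (a := 3 * η / 4) (by simpa using w1) (hrw.trans hr8)
      rw [sub_zero] at this; linarith only [hr1, hr8, this]
    have r2 : ‖(r:ℂ) * w‖ ≤ 1 - η / 2 := by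
      have := norm_le_of_near w2 (hrw.trans hr8); linarith only [hr1, hr8, this]
    have r3 : η / 2 ≤ ‖(r:ℂ) * w - p‖ := by
      have := norm_ge_of_near w3 (hrw.trans hr8); linarith only [hr1, hr8, this]
    have hw0 : w ≠ 0 := norm_pos_iff.mp (by (clear * - hr1 hr8 w1; linarith only [hr1, hr8, w1]))
    have hrw0 : (r:ℂ) * w ≠ 0 := norm_pos_iff.mp (by linarith only [hr1, hr8, r1])
    have hwb : w ∈ ball (0:ℂ) 1 := by
      rw [mem_ball, dist_zero_right]; linarith only [hr1, hr8, w2]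
    -- the value of `γ`
    have k1 := hγe w hwb hw0
    obtain ⟨E, hE⟩ : ∃ E : ℂ, E = F (r * w) - phi β (r * w) - VV β p τ (r * w) := ⟨_, rfl⟩
    have hEb : ‖E‖ ≤ C * ‖τ‖ ^ 2 := by
      rw [hE]; exact hFe (r * w) (by (clear * - hτp hτ8 r1; linarith only [hτp, hτ8, r1])) (by linarith only [hτp, hτ8, r2]) (by linarith only [hτp, hτ8, r3])
    have k2 : G w = (r / (Real.exp τ.re : ℂ)) * (phi β (r * w) + V (r * w) + E) -
        (1 - (τ.re : ℂ)) * phi β w - V w := by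
      have k3 : F (r * w) = phi β (r * w) + V (r * w) + E := by
        rw [hE, hVV (r * w) (by linarith only [hτp, hτ8, r1]) (by linarith only [hτp, hτ8, r2]) (by linarith only [hτp, hτ8, r3])]; ring
      rw [← k3, ← k1, hG]
      unfold phi
      ring
    rw [k2]
    have hxre : |τ.re| ≤ ‖τ‖ := Complex.abs_re_le_norm τ
    have hx12 : |τ.re| ≤ 1 / 2 := by linarith only [hτ8, r1, r2, hxre]
    obtain ⟨x1, x2⟩ := exp_bound hx12 hr0 hr1
    have hq : ((r : ℂ) / (Real.exp τ.re : ℂ)) = ((r / Real.exp τ.re : ℝ) : ℂ) := by push_cast; rfl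
    have q1 : ‖((r : ℂ) / (Real.exp τ.re : ℂ))‖ ≤ 2 := by
      rw [hq, Complex.norm_real]; exact x2
    have q2 : ‖((r : ℂ) / (Real.exp τ.re : ℂ)) - (1 - (τ.re : ℂ))‖ ≤ (1 + 2 * C) * ‖τ‖ ^ 2 := by
      have : ((r : ℂ) / (Real.exp τ.re : ℂ)) - (1 - (τ.re : ℂ)) =
          ((r / Real.exp τ.re - (1 - τ.re) : ℝ) : ℂ) := by push_cast; rfl
      rw [this, Complex.norm_real]
      refine x1.trans ?_
      have h5 : τ.re ^ 2 ≤ ‖τ‖ ^ 2 := by
        rw [← sq_abs]; exact pow_le_pow_left₀ (abs_nonneg _) hxre 2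
      linarith only [hr, h5]
    have a1 : ‖phi β (r * w) - phi β w‖ ≤ M1 * C * ‖τ‖ ^ 2 := by
      have b1 := Pool.Agent.Helper77.CK.phi_sub_le h hw0 hrw0 (s := 1 - η / 8) (by linarith only [hr1, hr8])
        (by linarith only [hr1, hr8, w2]) (by linarith only [hr1, hr8, r2])
      have b2 := norm_inv_sub_le (x := (r:ℂ) * w) (y := w) (a := η / 8) (b := η / 8) (by linarith only [hr1, hr8])
        (by linarith only [hr1, hr8]) (by (clear * - hr1 hr8 r1; linarith only [hr1, hr8, r1])) (by linarith only [hr1, hr8, w1])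
      have b3 : ‖((r:ℂ) * w)⁻¹ - w⁻¹‖ ≤ (C * ‖τ‖ ^ 2) / (η / 8 * (η / 8)) :=
        b2.trans (div_le_div_of_nonneg_right (hrw.trans hr) (by positivity))
      calc ‖phi β (r * w) - phi β w‖ ≤ ‖((r:ℂ) * w)⁻¹ - w⁻¹‖ / (1 - (1 - η / 8) ^ 2) := b1
        _ ≤ ((C * ‖τ‖ ^ 2) / (η / 8 * (η / 8))) / (η / 8) := by
            exact div_le_div₀ (by (clear * - hC hτ hη; positivity)) b3 (by linarith only [hr1, hr8]) (aux_eta hη hη2)
        _ = M1 * C * ‖τ‖ ^ 2 := by rw [hM1]; field_simp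
    have a2 : ‖phi β w‖ ≤ M0 := by
      unfold phi
      refine (norm_add_le _ _).trans ?_
      rw [hM0]
      apply add_le_add
      · rw [norm_inv]
        exact inv_anti₀ (by (clear * - hr1 hr8; linarith only [hr1, hr8])) (by linarith only [hr1, hr8, w1])
      · exact Hb β h hβ0 w (by (clear * - hr1 hr8 w2; linarith only [hr1, hr8, w2]))
    have a3 : ‖V (r * w) - V w‖ ≤ 8 / η * C * ‖τ‖ ^ 2 := by
      have c1 : ‖V (r * w) - V w‖ ≤ 8 / η * ‖(r:ℂ) * w - w‖ := by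
        refine Convex.norm_image_sub_le_of_norm_deriv_le (f := V) (s := closedBall w (η / 8))
          ?_ ?_ (convex_closedBall w (η / 8)) ?_ ?_
        · intro v hv
          rw [mem_closedBall, dist_eq_norm] at hv
          have v1 := norm_ge_of_near (p := 0) (a := 3 * η / 4) (by simpa using w1) hv
          have v2 := norm_le_of_near w2 hv
          rw [sub_zero] at v1
          exact hVdd v (by linarith only [hr1, hr8, v1]) (by linarith only [hr1, hr8, v2])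
        · intro v hv
          rw [mem_closedBall, dist_eq_norm] at hv
          have v1 := norm_ge_of_near (p := 0) (a := 3 * η / 4) (by simpa using w1) hv
          have v2 := norm_le_of_near w2 hv
          have v3 := norm_ge_of_near w3 hv
          rw [sub_zero] at v1
          have c2 : ‖deriv V v‖ ≤ C2 * ‖τ‖ / (η / 8) := by
            apply Complex.norm_deriv_le_of_forall_mem_sphere_norm_le (by linarith only [hr1, hr8])
            · apply DifferentiableOn.diffContOnCl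
              rw [closure_ball v (by (clear * - hr1 hr8; linarith only [hr1, hr8]))]
              intro u hu
              rw [mem_closedBall, dist_eq_norm] at hu
              have u1 := norm_ge_of_near (p := 0) (a := 3 * η / 4 - η / 8)
                (by rw [sub_zero]; exact v1) hu
              have u2 := norm_le_of_near v2 hu
              rw [sub_zero] at u1
              exact (hVdd u (by linarith only [hτp, hτ8, u1]) (by linarith only [hτp, hτ8, u2])).differentiableWithinAt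
            · intro u hu
              rw [mem_sphere, dist_eq_norm] at hu
              have u1 := norm_ge_of_near (p := 0) (a := 3 * η / 4 - η / 8)
                (by rw [sub_zero]; exact v1) hu.le
              have u2 := norm_le_of_near v2 hu.le
              have u3 := norm_ge_of_near v3 hu.le
              rw [sub_zero] at u1
              exact hVb u (by linarith only [hτp, hτ8, u1]) (by linarith only [hτp, hτ8, u2]) (by linarith only [hτp, hτ8, u3])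
          refine c2.trans ?_
          rw [div_le_iff₀ (by linarith only [hr1, hr8])]
          have : 8 / η * (η / 8) = 1 := by field_simp
          rw [this]
          linarith only [hp, hp1, hτC2]
        · exact mem_closedBall_self (by linarith only [hr1, hr8])
        · rw [mem_closedBall, dist_eq_norm]
          exact hrw.trans hr8
      refine c1.trans ?_
      have : 8 / η * ‖(r:ℂ) * w - w‖ ≤ 8 / η * (C * ‖τ‖ ^ 2) :=
        mul_le_mul_of_nonneg_left (hrw.trans hr) (by positivity)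
      linarith only [this]
    have a4 : ‖V w‖ ≤ C2 * ‖τ‖ := hVb w (by linarith only [hr1, hr8, w1]) (by (clear * - hr1 hr8 w2; linarith only [hr1, hr8, w2])) (by linarith only [hr1, hr8, w3])
    have a5 : ‖((τ.re : ℝ) : ℂ)‖ ≤ ‖τ‖ := by rw [Complex.norm_real]; exact hxre
    have a6 := err_bound (E := E) q1 a1 q2 a2 a3 a5 a4
    refine a6.trans ?_
    rw [hK]
    have s1 : ((1 + 2 * C) * ‖τ‖ ^ 2 + ‖τ‖) * (C2 * ‖τ‖) ≤ ((1 + 2 * C) + 1) * C2 * ‖τ‖ ^ 2 := by
      have : (1 + 2 * C) * ‖τ‖ ^ 2 + ‖τ‖ ≤ ((1 + 2 * C) + 1) * ‖τ‖ := aux_lin hC hsq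
      calc ((1 + 2 * C) * ‖τ‖ ^ 2 + ‖τ‖) * (C2 * ‖τ‖) ≤ (((1 + 2 * C) + 1) * ‖τ‖) * (C2 * ‖τ‖) :=
            mul_le_mul_of_nonneg_right this (by positivity)
        _ = _ := by ring
    linarith only [hEb, s1]
  have hfin : ‖deriv G z‖ ≤ K * ‖τ‖ ^ 2 / (η / 4) := by
    apply Complex.norm_deriv_le_of_forall_mem_sphere_norm_le (by linarith only [hr1, hr8]) _ hsup
    apply DifferentiableOn.diffContOnCl
    rw [closure_ball z (by linarith only [hr1, hr8])]
    intro w hw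
    rw [mem_closedBall, dist_eq_norm] at hw
    have w1 := norm_ge_of_near (p := 0) (a := η) (by simpa using hz) hw
    have w2 := norm_le_of_near hz1 hw
    rw [sub_zero] at w1
    exact (hGd w (by linarith only [hr1, hr8, w1]) (by linarith only [hr1, hr8, w2])).differentiableWithinAt
  refine hfin.trans (le_of_eq ?_)
  ring

/-- **The variation lemma** -/
theorem variation : Variation := by
  intro η hη
  rcases lt_or_ge (1 / 2) η with h12 | h12
  · exact ⟨1, 1, one_pos, one_pos, fun β _ p hp hp1 => absurd (hp.trans hp1) (by linarith only [h12])⟩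
  obtain ⟨C, t0, hC, ht0, H⟩ := variation_zero hη h12
  refine ⟨C, t0, hC, ht0, ?_⟩
  intro β h p hp hp1 τ hτ
  by_cases h0 : τ = 0
  · refine ⟨β, h, ?_⟩
    intro z _ _ _
    have h1 : (fun z => VV β p τ z - (τ.re : ℂ) * phi β z) = fun _ => 0 := by
      funext w
      rw [h0]
      simp [VV, eps, hh]
    rw [h1, deriv_const, h0]
    simp
  · set b0 : ℂ := β 0 with hb0
    have hb1 : b0 = β 0 := hb0
    clear_value b0
    have hd : ∀ z : ℂ, deriv (fun z => β z - b0) z = deriv β z := fun z => by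
      rw [deriv_sub_const]
    have hp' : ∀ z : ℂ, phi (fun z => β z - b0) z = phi β z - b0 := fun z => by
      unfold phi; ring
    have hdp : ∀ z : ℂ, dphi (fun z => β z - b0) z = dphi β z := fun z => by
      unfold dphi; rw [hd]
    have hV' : ∀ z : ℂ, VV (fun z => β z - b0) p τ z = VV β p τ z := fun z => by
      unfold VV eps
      rw [hp', hp', hdp, hdp]
      congr 2
      ring
    have hE : Ext (fun z => β z - b0) := by
      refine ⟨h.diff.sub (differentiableOn_const _), ?_, ?_⟩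
      · intro ζ ω h1 h2 h3 h4 h5
        exact h.inj ζ ω h1 h2 h3 h4 (by linear_combination h5)
      · intro ζ h1
        rw [hd]
        exact h.ne ζ h1
    obtain ⟨γ, hγ, hγ'⟩ := H (fun z => β z - b0) hE (by simp [hb1]) p hp hp1 τ h0 hτ
    refine ⟨γ, hγ, ?_⟩
    intro z hz hz1 hzp
    have h1 := hγ' z hz hz1 hzp
    rw [hd] at h1
    have h2 : (fun z => VV (fun z => β z - b0) p τ z - (τ.re : ℂ) * phi (fun z => β z - b0) z) =
        fun z => (VV β p τ z - (τ.re : ℂ) * phi β z) + (τ.re : ℂ) * b0 := by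
      funext w
      rw [hV', hp']
      ring
    rw [h2, deriv_add_const] at h1
    exact h1

end Pool.Agent.Helper5.CK

end

section

namespace Pool.Agent.Helper39.Area
end Pool.Agent.Helper39.Area
namespace Pool.Agent.Helper52.EK
end Pool.Agent.Helper52.EK

set_option autoImplicit false

open Complex MeasureTheory Metric Set

open scoped Real ComplexConjugate

namespace Pool.Agent.Helper52.CK

open Pool.Agent.Helper39.Area Pool.Agent.Helper52.EK

/-- from the inequality of one target to the class Σ, all powers `p ≥ κ` -/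
theorem main_of_pt {κ dl Mb L : ℝ} (hκ : 1 ≤ κ) (hdl : 0 ≤ dl) (hMb : 0 ≤ Mb) (hMb2 : Mb < 2 * κ)
    {G : ℂ → ℂ} {Mh : (ℂ → ℂ) → ℂ → ℂ} (hG : GLip G L)
    (hMc : ∀ (β : ℂ → ℂ) (R : ℝ), ExtR β R → ContinuousOn (Mh β) {z | 0 < ‖z‖ ∧ ‖z‖ < 1})
    (hM : ∀ β z, ‖Mh β z‖ ≤ Mb) (pt : PTStmt κ dl G Mh) :
    ∀ p : ℝ, κ ≤ p → ∀ e : ℝ, 0 < e → ∃ C : ℝ, ∀ ψ : ℂ → ℂ,
      DifferentiableOn ℂ ψ {z : ℂ | 1 < ‖z‖} → InjOn ψ {z : ℂ | 1 < ‖z‖} →
      (∃ b : ℂ, Filter.Tendsto (fun z => ψ z - z) (Bornology.cobounded ℂ) (nhds b)) →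
      ∀ R : ℝ, 1 < R →
      (2 * π)⁻¹ * (∫ θ in (0:ℝ)..(2 * π), ‖deriv ψ (R * Complex.exp (θ * I))‖ ^ (-p)) ≤
        C * (R ^ 2 / (R ^ 2 - 1)) ^ (p - 1 + dl + e) :=
  asmS hκ hdl hMb hMb2 (fun _ _ h => Pool.Agent.Helper70.EK.wf_cont hG h.toExt) hMc hM
    (Pool.Agent.Helper27.CK.nearStmt Pool.Agent.Helper5.CK.variation (by (clear * - hκ; linarith)))
    (Pool.Agent.Helper14.CK.mint (by (clear * - hκ; linarith)) hdl) (Pool.Agent.Helper14.CK.mcont κ dl)
    Pool.Agent.Helper58.CK.ent_stmt pt (Pool.Agent.Helper77.CK.lip (by linarith))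

end Pool.Agent.Helper52.CK

end

section

namespace Pool.Agent.Helper39.Area
end Pool.Agent.Helper39.Area
namespace Pool.Agent.Helper52.EK
end Pool.Agent.Helper52.EK
namespace Pool.Agent.Helper52.CK
end Pool.Agent.Helper52.CK
namespace Pool.Agent.Helper69.CK
end Pool.Agent.Helper69.CK
namespace Pool.Agent.Helper84.CK
end Pool.Agent.Helper84.CK
namespace Pool.Agent.Helper71.CK
end Pool.Agent.Helper71.CK
namespace Pool.Agent.Helper65.CK
end Pool.Agent.Helper65.CK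
namespace Pool.Agent.Helper84.CB
end Pool.Agent.Helper84.CB
namespace Pool.Agent.Helper69.EK3
end Pool.Agent.Helper69.EK3
namespace Pool.Agent.Helper20.CK
end Pool.Agent.Helper20.CK
namespace Pool.Agent.Helper2.EK
end Pool.Agent.Helper2.EK
namespace Pool.Agent.Helper20.EK7
end Pool.Agent.Helper20.EK7

set_option autoImplicit false

open Complex MeasureTheory Metric Set

open scoped Real ComplexConjugate

namespace Pool.Agent.Helper71.CK

open Pool.Agent.Helper39.Area Pool.Agent.Helper52.EK Pool.Agent.Helper52.CK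

open Pool.Agent.Helper69.CK Pool.Agent.Helper84.CK Pool.Agent.Helper71.CK Pool.Agent.Helper65.CK

open Pool.Agent.Helper84.CB (RegQ CenQP Q_lowQ bq CenE line_hd q_hd cenQP_Xf)

open Pool.Agent.Helper69.EK3 (NiceH RectH pt_mem_RectH)

open Pool.Agent.Helper20.CK (Zeq Mq_lip)

open Pool.Agent.Helper2.EK (c1_sub)

variable {g : DatG}

/-- **the bound for one target from the pointwise inequality of the data**, for a field `G` and a
multiplier `M` -/
theorem K_pwH (w : g.Wf) (M0 : 0 < g.s.d.c.M) (lam0 : 0 ≤ g.s.d.c.lam)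
    (c10 : 0 ≤ g.s.d.c.c1) (del0 : 0 ≤ g.s.d.del) {G M : ℂ → ℂ} {L q : ℝ} (hG : GLip G L)
    (hGc : ∀ m, G (conj m) = conj (G m)) (hM : Continuous M)
    (hMc : ∀ m, M (conj m) = conj (M m))
    (hpt : ∃ B : ℝ, 0 ≤ B ∧ ∀ X Y : ℂ, X ≠ 0 → ∀ η ∈ Icc (0:ℝ) (π / 2),
      Real.sin η * ‖X‖ ≤ 9 → Real.sin η * ‖Y / X‖ ≤ 38 → ∃ l1 l2 : ℝ,
      0 ≤ l1 ∧ l1 ≤ B * (1 + ‖X - 1‖ ^ 2) ∧ 0 ≤ l2 ∧ l2 ≤ B * (1 + ‖X - 1‖ ^ 2) ∧
      g.s.d.c.M * ‖G (mX X Y (Real.sin η) (Real.cos η)) - e0 (Real.sin η) (Real.cos η)‖ ^ 2 +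
        (l1 * (16 - ‖Pool.Agent.Helper69.EK3.dA 1 X Y (Real.sin η) (Real.cos η)‖ ^ 2) +
          l2 * (16 - ‖Pool.Agent.Helper69.EK3.dA (-1) X Y (Real.sin η) (Real.cos η)‖ ^ 2)) ≤
        g.NT X Y η + (g.s.d.c.lam * ‖X - 1‖ ^ 2 + g.s.d.c.a2 * ((X.re - 1) ^ 2 - X.im ^ 2)) +
          (g.s.d.kb * (1 - X.re) + g.s.d.del) +
          g.s.d.c.M * (M (mX X Y (Real.sin η) (Real.cos η)) *
            e0 (Real.sin η) (Real.cos η) * (X ^ 2 - q)).re)
    (hC : CenE (g.Ecp g.s.d.c.c1 (355 / 113))) {κ : ℝ}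
    (hκ : (g.s.d.c.lam : ℝ) + g.s.d.c.c1 + (|(g.s.d.c.c1 : ℝ) - g.s.d.kb| +
      2 * |(g.s.d.c.a2 : ℝ)|) / 10 ^ 7 < 2 * κ * g.s.d.c.M) :
    ∃ e C V₀ a₀ : ℝ, 0 < e ∧ 0 ≤ C ∧ 0 < V₀ ∧ a₀ < 1 ∧
      ∀ (β : ℂ → ℂ) (R a V : ℝ) (Ω Ω₁ Ω₂ : ℝ → ℝ → ℝ), ExtR β R → a₀ < a → a < 1 →
      0 ≤ V → V ≤ V₀ → WtF (Real.log (tau a) + 1) (-1) V Ω Ω₁ Ω₂ →
      Kf (wf G β) 1 (-1) (Real.log a) +
          e * II (Real.log (tau a) + 1) (-1) (fun ξ η => ‖Xf β a (pt ξ η) - 1‖ ^ 2) ≤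
        κ * Real.log (‖N β a‖ / (1 - a ^ 2)) +
          π⁻¹ * II (Real.log (tau a) + 1) (-1) (fun ξ η => Ω ξ η * Mt M q (Xf β a) ξ η) +
          4 * π⁻¹ * II (Real.log (tau a) + 1) (-1) (fun ξ η => 1 - Ω ξ η) +
          (g.s.d.del : ℝ) / g.s.d.c.M * (-1 - (Real.log (tau a) + 1)) +
          C * (1 + V * (-1 - (Real.log (tau a) + 1))) := by
  have hM0 : (0:ℝ) < g.s.d.c.M := by exact_mod_cast M0
  have hlam : (0:ℝ) ≤ g.s.d.c.lam := by exact_mod_cast lam0
  have hc1 : (0:ℝ) ≤ g.s.d.c.c1 := by exact_mod_cast c10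
  have hdel : (0:ℝ) ≤ g.s.d.del := by exact_mod_cast del0
  obtain ⟨p, hp⟩ : ∃ p : ℝ, p = 355 / 113 := ⟨_, rfl⟩
  obtain ⟨e1, e2⟩ := Pool.Agent.Helper69.EK3.Dat.pi_err hp
  have hpi := Real.pi_pos
  obtain ⟨A, hA⟩ : ∃ A : ℝ, A = |(g.s.d.c.c1 : ℝ) - g.s.d.kb| + 2 * |(g.s.d.c.a2 : ℝ)| :=
    ⟨_, rfl⟩
  have hA0 : 0 ≤ A := by rw [hA]; (clear * -; positivity)
  obtain ⟨ε, hε⟩ : ∃ ε : ℝ, ε = A * ((p - π) / π) := ⟨_, rfl⟩
  have hε0 : 0 ≤ ε := by
    rw [hε]
    exact mul_nonneg hA0 (div_nonneg e1 hpi.le)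
  have hε1 : ε ≤ A / 10 ^ 7 := by
    rw [hε, div_eq_mul_one_div A (10 ^ 7 : ℝ)]
    exact mul_le_mul_of_nonneg_left e2 hA0
  have hεπ : ε * π = A * (p - π) := by
    rw [hε]
    (clear * -; field_simp)
  rw [← hA] at hκ
  rw [hA] at hεπ
  obtain ⟨k, hk⟩ : ∃ k : ℝ, k = g.s.d.c.c1 + ε := ⟨_, rfl⟩
  have n1 := (isNullW_har (P := Pool.Agent.Helper69.EK3.DiscP) (β := fun _ => (1:ℝ))
    continuous_const 2 le_rfl).const_mul (g.s.d.c.a2 : ℝ)
  have n2 := (isNullW_har (P := Pool.Agent.Helper69.EK3.DiscP) (β := fun _ => (1:ℝ))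
    continuous_const 1 (by norm_num)).const_mul (k - g.s.d.kb)
  have hN := (((DatG.isNullW_NT w).add n1).add n2).const_mul (1 / (g.s.d.c.M : ℝ))
  have hre2 : ∀ X : ℂ, ((X - 1) ^ 2).re = (X.re - 1) ^ 2 - X.im ^ 2 := by
    intro X
    rw [pow_two (X - 1), mul_re]
    simp
    ring
  have hre1 : ∀ X : ℂ, ((X - 1) ^ 1).re = X.re - 1 := by
    intro X
    simp
  have hint : ∫ _ in (0:ℝ)..(π / 2), (1:ℝ) = π / 2 := by simp
  obtain ⟨B, hB0, hpt'⟩ := hpt
  -- the centre condition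
  have hC1 : CenE (g.Ecp k π) := by
    obtain ⟨Fx, Fy, hF⟩ : ∃ Fx Fy : ℂ → ℝ,
        C1f (fun X => g.Ecp k π X - g.Ecp g.s.d.c.c1 (355 / 113) X) Fx Fy := by
      obtain ⟨Ax, Ay, hA'⟩ := DatG.Ecp_c1 (g := g) k π
      obtain ⟨Bx, By, hB'⟩ := DatG.Ecp_c1 (g := g) g.s.d.c.c1 (355 / 113)
      exact ⟨_, _, c1_sub hA' hB'⟩
    refine hC.add hF (fun X => by ring) fun X hX => ?_
    rw [← hp, hk]
    exact DatG.Ecp_pi e1 hεπ hX
  have hC2 : CenE fun X => 1 / (g.s.d.c.M : ℝ) * g.Ecp k π X := hC1.const_mul (by positivity)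
  have hCen := cenW_E hC2 hN.cK (by
    intro X x₁ x₂ hX ξ hξ
    have hm : pt ξ (π - π / 2) ∈ Rect x₁ x₂ := by
      have h9 := Pool.Agent.Helper69.EK3.mir_mem (pt_mem_RectH (h := π / 2) hξ
        (⟨by positivity, le_rfl⟩ : π / 2 ∈ Icc (0:ℝ) (π / 2)))
      rwa [Pool.Agent.Helper69.EK3.conj_pt] at h9
    have hA9 : AnalyticAt ℂ X (pt ξ (π - π / 2)) := hX.an _ hm
    have h1 := DatG.KT_conj w (X (pt ξ (π / 2))) (deriv X (pt ξ (π / 2))) k
    simp only [hre2, hre1, hint]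
    rw [Pool.Agent.Helper69.EK3.mir_pt, Pool.Agent.Helper69.EK3.mir_deriv_pt
      hA9.differentiableAt]
    have e9 : π - π / 2 = π / 2 := by ring
    rw [e9]
    linear_combination (1 / (g.s.d.c.M : ℝ)) * h1)
  refine K_oneW_g (B := B / g.s.d.c.M) (lam := g.s.d.c.lam / g.s.d.c.M)
    (k₂ := (g.s.d.c.lam + k) / g.s.d.c.M) (dc := (g.s.d.del : ℝ) / g.s.d.c.M)
    (div_nonneg hB0 hM0.le) (div_nonneg hlam hM0.le) ?_ (div_nonneg hdel hM0.le) ?_ hG hGc hM hMc
    hN ?_ (fun β R a h ha ha1 hx => cenQP_Xf h ha ha1 hx) hCen (D' := 72)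
    fun X x₁ x₂ hX => ?_
  · rw [div_le_div_iff_of_pos_right hM0, hk]
    linarith only [hc1, hε0]
  · rw [div_lt_iff₀ hM0, hk]
    (clear * - hκ hε1; linarith only [hκ, hε1])
  · intro X x₁ x₂ hX ξ hξ η hη h9 h38
    have hne := hX.ne _ (pt_mem_RectH hξ hη)
    obtain ⟨l1, l2, a1, a2, a3, a4, h1⟩ := hpt' (X (pt ξ η)) (deriv X (pt ξ η)) hne η hη h9 h38
    have hu : 0 ≤ 1 + ‖X (pt ξ η) - 1‖ ^ 2 := by (clear * -; positivity)
    refine ⟨0, l1 / g.s.d.c.M, l2 / g.s.d.c.M, le_rfl,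
      mul_nonneg (div_nonneg hB0 hM0.le) hu,
      div_nonneg a1 hM0.le, (div_le_div_of_nonneg_right a2 hM0.le).trans
        (le_of_eq (mul_div_right_comm _ _ _)), div_nonneg a3 hM0.le,
      (div_le_div_of_nonneg_right a4 hM0.le).trans
        (le_of_eq (mul_div_right_comm _ _ _)), ?_⟩
    simp only [hre2, hre1]
    unfold TG Mt
    generalize X (pt ξ η) = Z at *
    generalize deriv X (pt ξ η) = Y at *
    have e0 : ‖Z - 1‖ ^ 2 = ‖Z‖ ^ 2 - 2 * Z.re + 1 := by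
      rw [Pool.Agent.Helper69.EK3.nq_sq, Pool.Agent.Helper69.EK3.nq_sq]
      simp
      ring
    rw [e0] at h1
    refine le_of_mul_le_mul_left (le_trans (le_of_eq ?_) (h1.trans (le_of_eq ?_))) hM0
    · field_simp
      ring
    · field_simp
      ring
  · obtain ⟨δ, c1, c2, c3, c4⟩ := Pool.Agent.Helper84.CB.CenQP.re_le hX
    exact ⟨δ, c1, c2, fun ξ hξ => (re_le_norm _).trans (c3 ξ hξ), c4⟩

end Pool.Agent.Helper71.CK

end

section

namespace Pool.Sos71
end Pool.Sos71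
namespace Pool.EK71
end Pool.EK71
namespace Pool.Agent.Helper52.EK
end Pool.Agent.Helper52.EK
namespace Pool.Agent.Helper2.EK
end Pool.Agent.Helper2.EK
namespace Pool.Agent.Helper69.EK3
end Pool.Agent.Helper69.EK3
namespace Pool.Agent.Helper69.EK5
end Pool.Agent.Helper69.EK5
namespace Pool.Agent.Helper69.EK6
end Pool.Agent.Helper69.EK6
namespace Pool.Agent.Helper69.EK6.Dat
end Pool.Agent.Helper69.EK6.Dat
namespace Pool.Agent.Helper69.EK7
end Pool.Agent.Helper69.EK7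
namespace Pool.Agent.Helper20.EK7
end Pool.Agent.Helper20.EK7
namespace Pool.Agent.Helper71.CK
end Pool.Agent.Helper71.CK
namespace Pool.Agent.Helper84.CK
end Pool.Agent.Helper84.CK
namespace Pool.Agent.Helper20.CK
end Pool.Agent.Helper20.CK
namespace Pool.Agent.Helper20.CK.DatF
end Pool.Agent.Helper20.CK.DatF
namespace Pool.Agent.Helper39.Area
end Pool.Agent.Helper39.Area
namespace Pool.Agent.Helper69.CK
end Pool.Agent.Helper69.CK
namespace Pool.Agent.Helper84.CB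
end Pool.Agent.Helper84.CB

set_option autoImplicit false

open Complex MeasureTheory Metric Set

open scoped Real ComplexConjugate

namespace Pool.Agent.Helper9.CKD

open Pool.Sos71

open Pool.EK71 Pool.Agent.Helper52.EK Pool.Agent.Helper2.EK

open Pool.Agent.Helper69.EK3

open Pool.Agent.Helper69.EK5 (DQ Dd Dd_pos Dn Dn_ev)

open Pool.Agent.Helper69.EK6 (px px_o eCon px_Con)

open Pool.Agent.Helper69.EK6.Dat (tN_re)

open Pool.Agent.Helper69.EK7 (Grp EGr GLip2)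

open Pool.Agent.Helper20.EK7

open Pool.Agent.Helper71.CK

open Pool.Agent.Helper84.CK

open Pool.Agent.Helper20.CK

variable {e : DatF}

variable {gam c0 ka kb p0 p1 p2 la lb q0 q1 q2 : ℝ} {Ln Ld Ln' Ld' : ℤ}

open Pool.Agent.Helper20.CK.DatF (tSide_re)

/-- **the pointwise inequality**, general one-jet field, disc multipliers with growth, additional
multipliers of the relation -/
theorem pointH (o : e.Ok gam c0 ka kb p0 p1 p2 la lb q0 q1 q2 Ln Ld Ln' Ld')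
    {mi mo : Ex} (hIn : SideH e.g.s.d.c.K Ln Ld (tInM e mi))
    (hOut : SideH e.g.s.d.c.K Ln' Ld' (tOutM e mo)) :
    ∃ B : ℝ, 0 ≤ B ∧
    ∀ G : ℂ → ℂ, FldF G gam c0 ka kb p0 p1 p2 la lb q0 q1 q2 →
    ∀ X Y : ℂ, X ≠ 0 → ∀ η ∈ Icc (0:ℝ) (π / 2), Real.sin η * ‖X‖ ≤ 9 →
    Real.sin η * ‖Y / X‖ ≤ 38 →
    ∃ l1 l2 : ℝ, 0 ≤ l1 ∧ l1 ≤ B * (1 + ‖X - 1‖ ^ 2) ∧ 0 ≤ l2 ∧ l2 ≤ B * (1 + ‖X - 1‖ ^ 2) ∧
    e.g.s.d.c.M * ‖G (mX X Y (Real.sin η) (Real.cos η)) - e0 (Real.sin η) (Real.cos η)‖ ^ 2 +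
      (l1 * (16 - ‖dA 1 X Y (Real.sin η) (Real.cos η)‖ ^ 2) +
        l2 * (16 - ‖dA (-1) X Y (Real.sin η) (Real.cos η)‖ ^ 2)) ≤
      e.g.NT X Y η + (e.g.s.d.c.lam * ‖X - 1‖ ^ 2 + e.g.s.d.c.a2 * ((X.re - 1) ^ 2 -
        X.im ^ 2)) + (e.g.s.d.kb * (1 - X.re) + e.g.s.d.del) +
        e.g.s.d.c.M * (e.g.s.Mu p0 p1 p2 q0 q1 q2 (mX X Y (Real.sin η) (Real.cos η)) *
          e0 (Real.sin η) (Real.cos η) * (X ^ 2 - (1 + e.g.s.tn / e.g.s.td))).re := by
  obtain ⟨B1, hB1, k1⟩ := SideH.apply hIn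
  obtain ⟨B2, hB2, k2⟩ := SideH.apply hOut
  have w := DatG.wf_iff e.g o.wf
  refine ⟨max B1 B2, le_max_of_le_left hB1, fun G hG X Y hX η hη h9 h38 => ?_⟩
  have hM : (0:ℝ) < e.g.s.d.c.M := by exact_mod_cast o.Mpos
  have hMc : (e.g.s.d.c.M : ℂ) ≠ 0 := by exact_mod_cast hM.ne'
  have htd : (e.g.s.td : ℂ) ≠ 0 := by exact_mod_cast o.td0.ne'
  have hD : 0 < Dd e.g.s.d.c.a X.re X.im ^ e.g.s.d.c.K := pow_pos (Dd_pos _ _ _) _
  have he : ‖e0 (Real.sin η) (Real.cos η)‖ = 1 := norm_e0 η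
  have h1X : 0 ≤ 1 + ‖X - 1‖ ^ 2 := by (clear * -; positivity)
  have m1 : B1 * (1 + ‖X - 1‖ ^ 2) ≤ max B1 B2 * (1 + ‖X - 1‖ ^ 2) :=
    mul_le_mul_of_nonneg_right (le_max_left _ _) h1X
  have m2 : B2 * (1 + ‖X - 1‖ ^ 2) ≤ max B1 B2 * (1 + ‖X - 1‖ ^ 2) :=
    mul_le_mul_of_nonneg_right (le_max_right _ _) h1X
  have hMr : (e.g.s.d.c.M : ℝ) = e.mu * e.N ^ 2 := by
    rw [o.M0]
    push_cast
    ring
  -- the multiplier
  have hmul : ∀ z : ℂ, (e.g.s.d.c.M : ℝ) * (e.g.s.td * z / (e.g.s.d.c.M : ℂ) *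
      e0 (Real.sin η) (Real.cos η) * (X ^ 2 - (1 + e.g.s.tn / e.g.s.td))).re =
      (z * e0 (Real.sin η) (Real.cos η) * (e.g.s.td * (X ^ 2 - 1) - e.g.s.tn)).re := by
    intro z
    rw [← re_ofReal_mul]
    congr 1
    push_cast
    field_simp
    ring
  obtain ⟨m, hm⟩ : ∃ m : ℂ, m = mX X Y (Real.sin η) (Real.cos η) := ⟨_, rfl⟩
  by_cases h1 : ‖m‖ ≤ 1
  · obtain ⟨d1, d2, d3⟩ := o.lIn.l_bd o.inL h1
    obtain ⟨l, hl⟩ : ∃ l : ℝ, l = (1 - ‖m‖ ^ 2) / rF p0 p1 p2 m := ⟨_, rfl⟩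
    have hL : (0:ℝ) < Ld := by exact_mod_cast o.Ld0
    rw [← hl] at d2 d3
    have hc : (eCon e.g.s.d.c.fi).re (px l η X Y) = 0 := by
      refine o.fi.con ?_ (by norm_num)
      rw [← hm, hl, div_mul_cancel₀ _ d1.ne']
      push_cast
      ring
    obtain ⟨l1, l2, a1, a2, a3, a4, h5⟩ := k1 X Y l η hη h9 h38 d2 (by
      rw [le_div_iff₀ hL] at d3
      (clear * - d3; linarith))
    have h6' : (tInM e mi).re (px l η X Y) = e.tIn.re (px l η X Y) := by
      have e9 : (tInM e mi).re (px l η X Y) = e.tIn.re (px l η X Y) +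
        mi.re (px l η X Y) * (eCon e.g.s.d.c.fi).re (px l η X Y) := rfl
      rw [hc, mul_zero, add_zero] at e9
      exact e9
    rw [h6'] at h5
    have h6 : e.tIn.re (px l η X Y) = _ := tSide_re w w.d.mi hX l η hc e.Al e.Be
    rw [h6] at h5
    have h7 := le_of_mul_le_mul_left h5 hD
    rw [re_eT7 l η X Y o.eg o.ec o.ea o.eb 0, ← hm, o.fi.sg] at h7
    refine ⟨l1, l2, a1, a2.trans m1, a3, a4.trans m1, ?_⟩
    have h8 := mul_le_mul_of_nonneg_left (hG.gin m h1 _ he) hM.le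
    unfold Fd at h8
    rw [← hl] at h8
    rw [← hm]
    unfold DatT.Mu Mq
    rw [if_pos h1, ← hl, MS_scl, hmul]
    push_cast at h7
    rw [one_mul] at h7
    rw [hMr] at h8
    rw [hMr]
    linarith only [h8, h7]
  · have h1' : 1 < ‖m‖ := not_le.1 h1
    obtain ⟨d1, d2, d3⟩ := o.lOut.l_bd (outD_outL o.outD) h1'.le
    obtain ⟨l, hl⟩ : ∃ l : ℝ, l = (‖m‖ ^ 2 - 1) / rF q0 q1 q2 m := ⟨_, rfl⟩
    have hL : (0:ℝ) < Ld' := by exact_mod_cast o.Ld0'
    rw [← hl] at d2 d3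
    have hc : (eCon e.g.s.d.c.fo).re (px l η X Y) = 0 := by
      refine o.fo.con ?_ (by norm_num)
      rw [← hm, hl, div_mul_cancel₀ _ d1.ne']
      push_cast
      ring
    obtain ⟨l1, l2, a1, a2, a3, a4, h5⟩ := k2 X Y l η hη h9 h38 d2 (by
      rw [le_div_iff₀ hL] at d3
      (clear * - d3; linarith))
    have h6' : (tOutM e mo).re (px l η X Y) = e.tOut.re (px l η X Y) := by
      have e9 : (tOutM e mo).re (px l η X Y) = e.tOut.re (px l η X Y) +
        mo.re (px l η X Y) * (eCon e.g.s.d.c.fo).re (px l η X Y) := rfl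
      rw [hc, mul_zero, add_zero] at e9
      exact e9
    rw [h6'] at h5
    have h6 : e.tOut.re (px l η X Y) = _ := tSide_re w w.d.mo hX l η hc e.Al' e.Be'
    rw [h6] at h5
    have h7 := le_of_mul_le_mul_left h5 hD
    rw [re_eT7 l η X Y o.eg o.ec o.ea' o.eb' 0, ← hm, o.fo.sg] at h7
    have e1 : (1 - ‖m‖ ^ 2) / rF q0 q1 q2 m = ((-1 : ℤ) : ℝ) * l := by
      rw [hl]
      push_cast
      ring
    refine ⟨l1, l2, a1, a2.trans m2, a3, a4.trans m2, ?_⟩
    have h8 := mul_le_mul_of_nonneg_left (hG.gout m h1' _ he) hM.le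
    unfold Fd at h8
    rw [e1] at h8
    rw [← hm]
    unfold DatT.Mu Mq
    rw [if_neg h1, ← hl, MS_scl, hmul]
    rw [hMr] at h8
    rw [hMr]
    (clear * - h7 h8; linarith only [h7, h8])

section

open Pool.Agent.Helper39.Area Pool.Agent.Helper69.CK

open Pool.Agent.Helper84.CB (CenE)

/-- **the bound for one target from the data**, general one-jet field, growth of the disc
multipliers -/
theorem K_dataFH (o : e.Ok gam c0 ka kb p0 p1 p2 la lb q0 q1 q2 Ln Ld Ln' Ld')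
    {mi mo : Ex} (hIn : SideH e.g.s.d.c.K Ln Ld (tInM e mi))
    (hOut : SideH e.g.s.d.c.K Ln' Ld' (tOutM e mo))
    (hz : Zeq e.g.s.d.MI e.g.s.d.MO) (c10 : 0 ≤ e.g.s.d.c.c1) (del0 : 0 ≤ e.g.s.d.del)
    (hC : CenE (e.g.Ecp e.g.s.d.c.c1 (355 / 113))) {κ : ℝ}
    (hκ : (e.g.s.d.c.lam : ℝ) + e.g.s.d.c.c1 + (|(e.g.s.d.c.c1 : ℝ) - e.g.s.d.kb| +
      2 * |(e.g.s.d.c.a2 : ℝ)|) / 10 ^ 7 < 2 * κ * e.g.s.d.c.M) :
    ∃ e' C V₀ a₀ : ℝ, 0 < e' ∧ 0 ≤ C ∧ 0 < V₀ ∧ a₀ < 1 ∧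
      ∀ (β : ℂ → ℂ) (R a V : ℝ) (Ω Ω₁ Ω₂ : ℝ → ℝ → ℝ), ExtR β R → a₀ < a → a < 1 →
      0 ≤ V → V ≤ V₀ → WtF (Real.log (tau a) + 1) (-1) V Ω Ω₁ Ω₂ →
      Kf (wf (GF0 gam c0 ka kb p0 p1 p2 la lb q0 q1 q2) β) 1 (-1) (Real.log a) +
          e' * II (Real.log (tau a) + 1) (-1) (fun ξ η => ‖Xf β a (pt ξ η) - 1‖ ^ 2) ≤
        κ * Real.log (‖N β a‖ / (1 - a ^ 2)) +
          π⁻¹ * II (Real.log (tau a) + 1) (-1) (fun ξ η => Ω ξ η *
            Mt (e.g.s.Mu p0 p1 p2 q0 q1 q2) (1 + e.g.s.tn / e.g.s.td) (Xf β a) ξ η) +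
          4 * π⁻¹ * II (Real.log (tau a) + 1) (-1) (fun ξ η => 1 - Ω ξ η) +
          (e.g.s.d.del : ℝ) / e.g.s.d.c.M * (-1 - (Real.log (tau a) + 1)) +
          C * (1 + V * (-1 - (Real.log (tau a) + 1))) := by
  obtain ⟨L, hL⟩ := GF0_glip gam c0 ka kb p0 p1 p2 la lb q0 q1 q2 o.inL o.outD
  refine K_pwH (DatG.wf_iff e.g o.wf) o.Mpos o.lam0 c10 del0 hL
    (GF0_conj _ _ _ _ _ _ _ _ _ _ _ _)
    (Pool.Agent.Helper65.CK.Mq_cont o.inL (outD_outL o.outD) (Pool.Agent.Helper65.CK.Zeq_scl hz) _) (fun m => DatT.Mu_conj m) ?_ hC hκ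
  obtain ⟨B, hB, h⟩ := pointH o hIn hOut
  refine ⟨B, hB, fun X Y hX η hη h9 h38 => ?_⟩
  obtain ⟨l1, l2, a1, a2, a3, a4, h1⟩ := h _ (fld_GF0 _ _ _ _ _ _ _ _ _ _ _ _) X Y hX η hη h9 h38
  refine ⟨l1, l2, a1, a2, a3, a4, ?_⟩
  push_cast
  exact h1

end

end Pool.Agent.Helper9.CKD

end

section

namespace Pool.Agent.Helper71.CK
end Pool.Agent.Helper71.CK
namespace Pool.Agent.Helper69.EK3
end Pool.Agent.Helper69.EK3
namespace Pool.Agent.Helper69.CK
end Pool.Agent.Helper69.CK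
namespace Pool.Agent.Helper20.EK7
end Pool.Agent.Helper20.EK7
namespace Pool.Agent.Helper20.CK
end Pool.Agent.Helper20.CK

set_option autoImplicit false

open Complex Metric Set

open scoped ComplexConjugate

namespace Pool.Agent.Helper11.CK

open Pool.Agent.Helper71.CK (MS Mq scl DatT DatG)

open Pool.Agent.Helper69.EK3 (rF rF_eq)

open Pool.Agent.Helper69.CK (MOk)

open Pool.Agent.Helper20.EK7 (InL OutL prj prj_lip prj_of_le norm_prj_le)

open Pool.Agent.Helper20.CK (mchk ROk Mq_le sj MS_sj)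

/-- bounded and Lipschitz on `S` -/
def BL (S : Set ℂ) (f : ℂ → ℂ) : Prop :=
  ∃ B L : ℝ, 0 ≤ B ∧ 0 ≤ L ∧ (∀ m ∈ S, ‖f m‖ ≤ B) ∧
    ∀ m ∈ S, ∀ m' ∈ S, ‖f m - f m'‖ ≤ L * ‖m - m'‖

section BL

variable {S : Set ℂ} {f g : ℂ → ℂ}

theorem BL.const (S : Set ℂ) (c : ℂ) : BL S fun _ => c :=
  ⟨‖c‖, 0, norm_nonneg _, le_rfl, fun _ _ => le_rfl, fun _ _ _ _ => by simp⟩

theorem BL.add (hf : BL S f) (hg : BL S g) : BL S fun m => f m + g m := by
  obtain ⟨B, L, hB, hL, h1, h2⟩ := hf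
  obtain ⟨B', L', hB', hL', h1', h2'⟩ := hg
  refine ⟨B + B', L + L', by (clear * - hB hB'; positivity), by positivity, fun m hm =>
    (norm_add_le _ _).trans (add_le_add (h1 m hm) (h1' m hm)), fun m hm m' hm' => ?_⟩
  have e : f m + g m - (f m' + g m') = (f m - f m') + (g m - g m') := by ring
  rw [e, add_mul]
  exact (norm_add_le _ _).trans (add_le_add (h2 m hm m' hm') (h2' m hm m' hm'))

theorem BL.mul (hf : BL S f) (hg : BL S g) : BL S fun m => f m * g m := by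
  obtain ⟨B, L, hB, hL, h1, h2⟩ := hf
  obtain ⟨B', L', hB', hL', h1', h2'⟩ := hg
  refine ⟨B * B', B * L' + L * B', by (clear * - hB hB'; positivity), by (clear * - hB hL' hL hB'; positivity), fun m hm => ?_,
    fun m hm m' hm' => ?_⟩
  · rw [norm_mul]
    exact mul_le_mul (h1 m hm) (h1' m hm) (norm_nonneg _) hB
  · have e : f m * g m - f m' * g m' = f m * (g m - g m') + (f m - f m') * g m' := by ring
    rw [e, add_mul]
    refine (norm_add_le _ _).trans (add_le_add ?_ ?_)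
    · rw [norm_mul, mul_assoc]
      exact mul_le_mul (h1 m hm) (h2' m hm m' hm') (norm_nonneg _) hB
    · rw [norm_mul]
      have h3 := mul_le_mul (h2 m hm m' hm') (h1' m' hm') (norm_nonneg _)
        (mul_nonneg hL (norm_nonneg _))
      calc _ ≤ _ := h3
        _ = _ := by ring

theorem BL.inv (hf : BL S f) {c : ℝ} (hc : 0 < c) (h : ∀ m ∈ S, c ≤ ‖f m‖) :
    BL S fun m => (f m)⁻¹ := by
  obtain ⟨B, L, hB, hL, h1, h2⟩ := hf
  have h3 : ∀ m ∈ S, ‖(f m)⁻¹‖ ≤ c⁻¹ := fun m hm => by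
    rw [norm_inv]
    exact inv_anti₀ hc (h m hm)
  refine ⟨c⁻¹, c⁻¹ * L * c⁻¹, by positivity, by positivity, h3, fun m hm m' hm' => ?_⟩
  have n1 : f m ≠ 0 := norm_pos_iff.1 (hc.trans_le (h m hm))
  have n2 : f m' ≠ 0 := norm_pos_iff.1 (hc.trans_le (h m' hm'))
  have e : (f m)⁻¹ - (f m')⁻¹ = (f m)⁻¹ * (f m' - f m) * (f m')⁻¹ := by
    field_simp
  rw [e, norm_mul, norm_mul, norm_sub_rev]
  have h4 := mul_le_mul (h3 m hm) (h2 m hm m' hm') (norm_nonneg _) (inv_nonneg.2 hc.le)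
  have h5 := mul_le_mul h4 (h3 m' hm') (norm_nonneg _)
    (mul_nonneg (inv_nonneg.2 hc.le) (mul_nonneg hL (norm_nonneg _)))
  calc _ ≤ _ := h5
    _ = _ := by ring

theorem BL.pow (hf : BL S f) (n : ℕ) : BL S fun m => f m ^ n := by
  induction n with
  | zero => simpa using BL.const S 1
  | succ n ih => simpa [pow_succ] using ih.mul hf

theorem BL.congr (hf : BL S f) (h : ∀ m, g m = f m) : BL S g := by
  have : g = f := funext h
  rwa [this]

theorem BL.id {R : ℝ} (hR : 0 ≤ R) (hS : ∀ m ∈ S, ‖m‖ ≤ R) : BL S fun m => m :=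
  ⟨R, 1, hR, zero_le_one, hS, fun m _ m' _ => by rw [one_mul]⟩

theorem BL.cj {R : ℝ} (hR : 0 ≤ R) (hS : ∀ m ∈ S, ‖m‖ ≤ R) : BL S fun m => conj m :=
  ⟨R, 1, hR, zero_le_one, fun m hm => by rw [norm_conj]; exact hS m hm,
    fun m _ m' _ => by rw [one_mul, ← map_sub, norm_conj]⟩

theorem BL.contOn (hf : BL S f) : ContinuousOn f S := by
  obtain ⟨B, L, hB, hL, h1, h2⟩ := hf
  have h : LipschitzOnWith (Real.toNNReal L) f S := by
    refine LipschitzOnWith.of_dist_le_mul fun m hm m' hm' => ?_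
    rw [dist_eq_norm, dist_eq_norm, Real.coe_toNNReal _ hL]
    exact h2 m hm m' hm'
  exact h.continuousOn

end BL

section piece

variable {S : Set ℂ} {R : ℝ} (hR : 0 ≤ R) (hS : ∀ m ∈ S, ‖m‖ ≤ R)

include hR hS

theorem bl_sq : BL S fun m => ((‖m‖ ^ 2 : ℝ) : ℂ) :=
  ((BL.id hR hS).mul (BL.cj hR hS)).congr fun m => by
    rw [mul_conj']
    push_cast
    rfl

theorem bl_rF (p0 p1 p2 : ℝ) : BL S fun m => ((rF p0 p1 p2 m : ℝ) : ℂ) := by
  have h1 := ((BL.const S ((p0 + p1 : ℝ) : ℂ)).add ((BL.const S ((p1 : ℝ) : ℂ)).mul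
    ((BL.id hR hS).add (BL.cj hR hS)))).add ((BL.const S ((p1 + p2 : ℝ) : ℂ)).mul (bl_sq hR hS))
  refine h1.congr fun m => ?_
  have e : m + conj m = ((2 * m.re : ℝ) : ℂ) := add_conj m
  rw [rF_eq, e]
  push_cast
  ring

theorem bl_l (s : ℝ) {p0 p1 p2 c : ℝ} (hc : 0 < c) (hl : ∀ m ∈ S, c ≤ rF p0 p1 p2 m) :
    BL S fun m => (((s * (1 - ‖m‖ ^ 2)) / rF p0 p1 p2 m : ℝ) : ℂ) := by
  have h1 := ((BL.const S ((s : ℝ) : ℂ)).mul ((BL.const S 1).add
    ((BL.const S (-1)).mul (bl_sq hR hS)))).mul ((bl_rF hR hS p0 p1 p2).inv hc fun m hm => by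
      rw [Complex.norm_real, Real.norm_eq_abs]
      exact (hl m hm).trans (le_abs_self _))
  refine h1.congr fun m => ?_
  push_cast
  ring

theorem bl_MS (L : List (ℕ × ℕ × ℤ)) {l : ℂ → ℝ} (hl : BL S fun m => ((l m : ℝ) : ℂ)) :
    BL S fun m => MS L (l m) m := by
  unfold MS
  induction L with
  | nil => simpa using BL.const S 0
  | cons t L ih =>
    simp only [List.map_cons, List.sum_cons]
    exact ((BL.const S (t.2.2 : ℂ)).mul ((hl.pow t.1).mul ((BL.cj hR hS).pow t.2.1))).add ih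

end piece

theorem seg_point {m m' : ℂ} (h : ‖m‖ ≤ 1) (h' : 1 < ‖m'‖) : ∃ p : ℂ, ‖p‖ = 1 ∧
    ‖m - p‖ + ‖p - m'‖ = ‖m - m'‖ := by
  have hc : ContinuousOn (fun t : ℝ => ‖m + (t : ℂ) * (m' - m)‖) (Icc 0 1) := by fun_prop
  have h1 := intermediate_value_Icc (zero_le_one (α := ℝ)) hc
  have h2 : (1 : ℝ) ∈ Icc ‖m + ((0 : ℝ) : ℂ) * (m' - m)‖ ‖m + ((1 : ℝ) : ℂ) * (m' - m)‖ := by
    constructor
    · simpa using h
    · simpa using h'.le
  obtain ⟨t, ⟨ht0, ht1⟩, ht⟩ := h1 h2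
  refine ⟨m + (t : ℂ) * (m' - m), ht, ?_⟩
  have e1 : m - (m + (t : ℂ) * (m' - m)) = ((t : ℝ) : ℂ) * (m - m') := by ring
  have e2 : m + (t : ℂ) * (m' - m) - m' = ((1 - t : ℝ) : ℂ) * (m - m') := by push_cast; ring
  rw [e1, e2, norm_mul, norm_mul, Complex.norm_real, Complex.norm_real, Real.norm_eq_abs,
    Real.norm_eq_abs, abs_of_nonneg ht0, abs_of_nonneg (by (clear * - ht1; linarith only [ht1]))]
  ring

theorem glue {f g : ℂ → ℂ} {R : ℝ} (hR : 1 ≤ R) (hf : BL {m | ‖m‖ ≤ 1} f)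
    (hg : BL {m | ‖m‖ ≤ R} g) (h : ∀ m, ‖m‖ = 1 → f m = g m) :
    ∃ L : ℝ, 0 ≤ L ∧ ∀ m m' : ℂ, ‖m‖ ≤ R → ‖m'‖ ≤ R →
      ‖(if ‖m‖ ≤ 1 then f m else g m) - (if ‖m'‖ ≤ 1 then f m' else g m')‖ ≤ L * ‖m - m'‖ := by
  obtain ⟨B, L, hB, hL, h1, h2⟩ := hf
  obtain ⟨B', L', hB', hL', h1', h2'⟩ := hg
  have key : ∀ m m' : ℂ, ‖m‖ ≤ 1 → 1 < ‖m'‖ → ‖m'‖ ≤ R →
      ‖f m - g m'‖ ≤ max L L' * ‖m - m'‖ := by
    intro m m' hm hm' hR'
    obtain ⟨p, hp, hs⟩ := seg_point hm hm'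
    have a1 := h2 m hm p hp.le
    have a2 := h2' p (show ‖p‖ ≤ R by rw [hp]; exact hR) m' hR'
    have e : f m - g m' = (f m - f p) + (g p - g m') := by rw [h p hp]; ring
    rw [e, ← hs, mul_add]
    exact (norm_add_le _ _).trans (add_le_add
      (a1.trans (mul_le_mul_of_nonneg_right (le_max_left _ _) (norm_nonneg _)))
      (a2.trans (mul_le_mul_of_nonneg_right (le_max_right _ _) (norm_nonneg _))))
  refine ⟨max L L', le_max_of_le_left hL, fun m m' hm hm' => ?_⟩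
  split_ifs with c1 c2 c2
  · exact (h2 m c1 m' c2).trans (mul_le_mul_of_nonneg_right (le_max_left _ _) (norm_nonneg _))
  · exact key m m' c1 (not_le.1 c2) hm'
  · rw [norm_sub_rev, norm_sub_rev m m']
    exact key m' m c2 (not_le.1 c1) hm
  · exact (h2' m hm m' hm').trans
      (mul_le_mul_of_nonneg_right (le_max_right _ _) (norm_nonneg _))

/-- the sum of the coefficients of `l⁰ (conj m)^j` -/
def cs (j : ℕ) : List (ℕ × ℕ × ℤ) → ℤ
  | [] => 0
  | t :: L => cond (Nat.beq t.1 0 && Nat.beq t.2.1 j) (Int.add t.2.2 (cs j L)) (cs j L)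

/-- the columns of `l⁰` agree, and `j ≤ 2` -/
def shr (MI MO : List (ℕ × ℕ × ℤ)) : Bool :=
  MI.all (fun t => Nat.ble t.2.1 2) && MO.all (fun t => Nat.ble t.2.1 2) &&
    (cs 0 MI == cs 0 MO) && (cs 1 MI == cs 1 MO) && (cs 2 MI == cs 2 MO)

theorem sj_zero (j : ℕ) (L : List (ℕ × ℕ × ℤ)) : sj 0 j L = cs j L := by
  unfold sj
  induction L with
  | nil => simp [cs]
  | cons t L ih =>
    obtain ⟨n, i, c⟩ := t
    rw [List.map_cons, List.sum_cons, ih]
    have e : ∀ a b : ℤ, Int.add a b = a + b := fun _ _ => rfl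
    cases n with
    | zero =>
      by_cases h : i = j
      · have hb : Nat.beq i j = true := by rw [h]; exact Nat.beq_refl j
        have h0 : Nat.beq 0 0 = true := rfl
        simp [cs, h]
      · have hb : Nat.beq i j = false := by
          rw [Bool.eq_false_iff]
          intro h2
          exact h (Nat.eq_of_beq_eq_true h2)
        simp [cs, h, hb]
    | succ n =>
      have h0 : Nat.beq (n + 1) 0 = false := rfl
      simp [cs, h0]

theorem MS_shr {MI MO : List (ℕ × ℕ × ℤ)} (h : shr MI MO = true) (m : ℂ) :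
    MS MI 0 m = MS MO 0 m := by
  simp only [shr, Bool.and_eq_true, List.all_eq_true, Nat.ble_eq, beq_iff_eq] at h
  obtain ⟨⟨⟨⟨h1, h2⟩, h3⟩, h4⟩, h5⟩ := h
  rw [MS_sj h1, MS_sj h2, sj_zero, sj_zero, sj_zero, sj_zero, sj_zero, sj_zero, h3, h4, h5]

theorem cs_scl (td : ℤ) (j : ℕ) (L : List (ℕ × ℕ × ℤ)) : cs j (scl td L) = td * cs j L := by
  unfold scl
  induction L with
  | nil => simp [cs]
  | cons t L ih =>
    have e : ∀ a b : ℤ, Int.add a b = a + b := fun _ _ => rfl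
    have e2 : ∀ a b : ℤ, Int.mul a b = a * b := fun _ _ => rfl
    rw [List.map_cons, cs, cs, ih]
    cases (Nat.beq t.1 0 && Nat.beq t.2.1 j)
    · rfl
    · simp only [cond_true, e, e2]
      ring

theorem shr_scl {MI MO : List (ℕ × ℕ × ℤ)} (td : ℤ) (h : shr MI MO = true) :
    shr (scl td MI) (scl td MO) = true := by
  simp only [shr, Bool.and_eq_true, List.all_eq_true, Nat.ble_eq, beq_iff_eq] at h ⊢
  obtain ⟨⟨⟨⟨h1, h2⟩, h3⟩, h4⟩, h5⟩ := h
  refine ⟨⟨⟨⟨?_, ?_⟩, ?_⟩, ?_⟩, ?_⟩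
  · intro t ht
    unfold scl at ht
    obtain ⟨s, hs, rfl⟩ := List.mem_map.1 ht
    exact h1 s hs
  · intro t ht
    unfold scl at ht
    obtain ⟨s, hs, rfl⟩ := List.mem_map.1 ht
    exact h2 s hs
  · rw [cs_scl, cs_scl, h3]
  · rw [cs_scl, cs_scl, h4]
  · rw [cs_scl, cs_scl, h5]

section Mq

variable {a p0 p1 p2 q0 q1 q2 : ℝ} {M : ℤ} {MI MO : List (ℕ × ℕ × ℤ)}

theorem bl_in (hp : InL p0 p1 p2) (M : ℤ) (MI : List (ℕ × ℕ × ℤ)) :
    BL {m | ‖m‖ ≤ 1} fun m => MS MI ((1 - ‖m‖ ^ 2) / rF p0 p1 p2 m) m / (M : ℂ) := by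
  obtain ⟨c, hc, hl⟩ := hp.low
  have h1 : BL {m : ℂ | ‖m‖ ≤ 1} fun m => (((1 - ‖m‖ ^ 2) / rF p0 p1 p2 m : ℝ) : ℂ) :=
    (bl_l zero_le_one (fun m hm => hm) 1 hc fun m hm => by
      have := hl m hm
      nlinarith [sq_nonneg ‖m‖]).congr fun m => by rw [one_mul]
  exact ((bl_MS zero_le_one (fun m hm => hm) MI h1).mul (BL.const _ ((M : ℂ)⁻¹))).congr
    fun m => div_eq_mul_inv _ _

theorem bl_out (hq : OutL a q0 q1 q2) (M : ℤ) (MO : List (ℕ × ℕ × ℤ)) {R : ℝ} (hR : 0 ≤ R) :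
    BL {m | ‖m‖ ≤ R} fun m => MS MO ((‖m‖ ^ 2 - 1) / rF q0 q1 q2 m) m / (M : ℂ) := by
  obtain ⟨c, hc, hl⟩ := hq.low
  have h1 : BL {m : ℂ | ‖m‖ ≤ R} fun m => (((‖m‖ ^ 2 - 1) / rF q0 q1 q2 m : ℝ) : ℂ) :=
    (bl_l hR (fun m hm => hm) (-1) hc fun m _ => by
      have := hl m
      (clear * - this hc; nlinarith only [hc, this])).congr fun m => by
        congr 2
        ring
  exact ((bl_MS hR (fun m hm => hm) MO h1).mul (BL.const _ ((M : ℂ)⁻¹))).congr
    fun m => div_eq_mul_inv _ _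

theorem circ (hsh : shr MI MO = true) (m : ℂ) (hm : ‖m‖ = 1) :
    MS MI ((1 - ‖m‖ ^ 2) / rF p0 p1 p2 m) m / (M : ℂ) =
      MS MO ((‖m‖ ^ 2 - 1) / rF q0 q1 q2 m) m / (M : ℂ) := by
  rw [hm, one_pow, sub_self, zero_div, zero_div, MS_shr hsh]

/-- **continuity** of the multiplier -/
theorem Mq_cont (hp : InL p0 p1 p2) (hq : OutL a q0 q1 q2) (hsh : shr MI MO = true) :
    Continuous (Mq M MI MO p0 p1 p2 q0 q1 q2) := by
  unfold Mq
  refine continuous_if_le continuous_norm continuous_const (bl_in hp M MI).contOn ?_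
    fun m hm => circ hsh m hm
  have h1 : Continuous fun m : ℂ => MS MO ((‖m‖ ^ 2 - 1) / rF q0 q1 q2 m) m / (M : ℂ) := by
    rw [continuous_iff_continuousAt]
    intro m
    refine (bl_out hq M MO (R := ‖m‖ + 1) (by positivity)).contOn.continuousAt ?_
    exact Filter.mem_of_superset (ball_mem_nhds m one_pos) fun w hw => by
      have h2 : ‖w - m‖ < 1 := by rwa [mem_ball, dist_eq_norm] at hw
      have h3 : ‖w‖ ≤ ‖w - m‖ + ‖m‖ := by
        have := norm_add_le (w - m) m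
        rwa [sub_add_cancel] at this
      show ‖w‖ ≤ ‖m‖ + 1
      linarith
  exact h1.continuousOn

theorem Mq_lip (hp : InL p0 p1 p2) (hq : OutL a q0 q1 q2) (hsh : shr MI MO = true) {R : ℝ}
    (hR : 1 ≤ R) : ∃ L : ℝ, 0 ≤ L ∧ ∀ m m' : ℂ, ‖m‖ ≤ R → ‖m'‖ ≤ R →
      ‖Mq M MI MO p0 p1 p2 q0 q1 q2 m - Mq M MI MO p0 p1 p2 q0 q1 q2 m'‖ ≤ L * ‖m - m'‖ :=
  glue hR (bl_in hp M MI) (bl_out hq M MO (zero_le_one.trans hR)) fun m hm => circ hsh m hm

end Mq

/-- retraction on the disc `|m + 3| ≤ r` -/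
noncomputable def ret (r : ℝ) (m : ℂ) : ℂ := r * prj ((m + 3) / r) - 3

theorem ret_eq {r : ℝ} (hr : 0 < r) {m : ℂ} (h : ‖m + 3‖ ≤ r) : ret r m = m := by
  have hr' : (r : ℂ) ≠ 0 := by exact_mod_cast hr.ne'
  unfold ret
  rw [prj_of_le, mul_div_cancel₀ _ hr']
  · ring
  · rw [norm_div, Complex.norm_real, Real.norm_eq_abs, abs_of_pos hr]
    exact (div_le_one hr).2 h

theorem ret_mem {r : ℝ} (hr : 0 < r) (m : ℂ) : ‖ret r m + 3‖ ≤ r := by
  unfold ret
  rw [sub_add_cancel, norm_mul, Complex.norm_real, Real.norm_eq_abs, abs_of_pos hr]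
  have := mul_le_mul_of_nonneg_left (norm_prj_le ((m + 3) / r)) hr.le
  rwa [mul_one] at this

theorem ret_lip {r : ℝ} (hr : 0 < r) (m m' : ℂ) : ‖ret r m - ret r m'‖ ≤ 2 * ‖m - m'‖ := by
  have hr' : (r : ℂ) ≠ 0 := by exact_mod_cast hr.ne'
  unfold ret
  have e : (r : ℂ) * prj ((m + 3) / r) - 3 - (r * prj ((m' + 3) / r) - 3) =
      r * (prj ((m + 3) / r) - prj ((m' + 3) / r)) := by ring
  rw [e, norm_mul, Complex.norm_real, Real.norm_eq_abs, abs_of_pos hr]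
  have h1 := prj_lip ((m + 3) / r) ((m' + 3) / r)
  have e2 : (m + 3) / (r : ℂ) - (m' + 3) / r = (m - m') / r := by
    field_simp
    ring
  rw [e2, norm_div, Complex.norm_real, Real.norm_eq_abs, abs_of_pos hr] at h1
  calc r * ‖prj ((m + 3) / r) - prj ((m' + 3) / r)‖ ≤ r * (2 * (‖m - m'‖ / r)) :=
        mul_le_mul_of_nonneg_left h1 hr.le
    _ = 2 * ‖m - m'‖ := by field_simp

/-- from the disc `|m + 3| ≤ 4 + ε` to the disc `|m + 3| ≤ 4` -/
theorem near_pt {ε : ℝ} (hε : 0 ≤ ε) {m : ℂ} (h : ‖m + 3‖ ≤ 4 + ε) :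
    ∃ p : ℂ, ‖p + 3‖ ≤ 4 ∧ ‖m - p‖ ≤ ε := by
  by_cases h4 : ‖m + 3‖ ≤ 4
  · exact ⟨m, h4, by simpa using hε⟩
  · have h5 : 4 < ‖m + 3‖ := not_le.1 h4
    have h0 : 0 < ‖m + 3‖ := by (clear * - h4; linarith)
    refine ⟨((4 / ‖m + 3‖ : ℝ) : ℂ) * (m + 3) - 3, ?_, ?_⟩
    · rw [sub_add_cancel, norm_mul, Complex.norm_real, Real.norm_eq_abs,
        abs_of_pos (by positivity), div_mul_cancel₀ _ h0.ne']
    · have e : m - (((4 / ‖m + 3‖ : ℝ) : ℂ) * (m + 3) - 3) =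
          ((1 - 4 / ‖m + 3‖ : ℝ) : ℂ) * (m + 3) := by
        push_cast
        ring
      have h6 : 0 ≤ 1 - 4 / ‖m + 3‖ := by
        rw [sub_nonneg, div_le_one h0]
        exact h5.le
      rw [e, norm_mul, Complex.norm_real, Real.norm_eq_abs, abs_of_nonneg h6, sub_mul, one_mul,
        div_mul_cancel₀ _ h0.ne']
      linarith only [h]

/-- **the glue**: a continuous multiplier, Lipschitz on `|m| ≤ 8`, bounded by `b` on
`|m + 3| ≤ 4` -/
theorem mOk_gen {F : ℂ → ℂ} (hc : Continuous F) {L : ℝ} (hL : 0 ≤ L)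
    (hl : ∀ m m' : ℂ, ‖m‖ ≤ 8 → ‖m'‖ ≤ 8 → ‖F m - F m'‖ ≤ L * ‖m - m'‖) {b Mb : ℝ}
    (hb : ∀ m : ℂ, ‖m + 3‖ ≤ 4 → ‖F m‖ ≤ b) (hMb : b < Mb) :
    ∃ (M' : ℂ → ℂ) (L' ε : ℝ), 0 < ε ∧ MOk F M' Mb L' ε := by
  have d0 : 0 < Mb - b := sub_pos.2 hMb
  obtain ⟨ε, hε⟩ : ∃ ε : ℝ, ε = min 1 ((Mb - b) / (L + 1)) := ⟨_, rfl⟩
  have hε0 : 0 < ε := by
    rw [hε]
    exact lt_min one_pos (by (clear * - hMb hL; positivity))
  have hε1 : ε ≤ 1 := by rw [hε]; exact min_le_left _ _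
  have hε2 : L * ε ≤ Mb - b := by
    have h1 : ε ≤ (Mb - b) / (L + 1) := by rw [hε]; exact min_le_right _ _
    rw [le_div_iff₀ (by (clear * - hL; positivity))] at h1
    linarith only [hε0, h1]
  have hr : 0 < 4 + ε := by linarith only [hε0]
  have n8 : ∀ m : ℂ, ‖m + 3‖ ≤ 4 + ε → ‖m‖ ≤ 8 := fun m hm => by
    have h1 := norm_sub_le (m + 3) 3
    rw [add_sub_cancel_right, Complex.norm_ofNat] at h1
    (clear * - hε1 hm h1; linarith)
  refine ⟨fun m => F (ret (4 + ε) m), L * 2, ε, hε0, hc, fun m hm => ?_, fun m => ?_,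
    fun m m' => ?_⟩
  · show F m = F (ret (4 + ε) m)
    rw [ret_eq hr hm]
  · have h1 := ret_mem hr m
    obtain ⟨p, hp, hp'⟩ := near_pt hε0.le h1
    have h2 := hl _ p (n8 _ h1) (n8 p (by linarith))
    have h3 := norm_sub_norm_le (F (ret (4 + ε) m)) (F p)
    have h4 := hb p hp
    have h5 : L * ‖ret (4 + ε) m - p‖ ≤ L * ε := mul_le_mul_of_nonneg_left hp' hL
    show ‖F (ret (4 + ε) m)‖ ≤ Mb
    (clear * - hε2 h2 h3 h4 h5; linarith)
  · have h2 := hl _ _ (n8 _ (ret_mem hr m)) (n8 _ (ret_mem hr m'))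
    have h3 := mul_le_mul_of_nonneg_left (ret_lip hr m m') hL
    show ‖F (ret (4 + ε) m) - F (ret (4 + ε) m')‖ ≤ L * 2 * ‖m - m'‖
    linarith

/-- **the multiplier of the data satisfies `MOk`** -/
theorem mOk_Mq {a p0 p1 p2 q0 q1 q2 : ℝ} (hp : InL p0 p1 p2) (hq : OutL a q0 q1 q2) {M : ℤ}
    {MI MO : List (ℕ × ℕ × ℤ)} (hsh : shr MI MO = true) {b Mb : ℝ}
    (hb : ∀ m : ℂ, ‖m + 3‖ ≤ 4 → ‖Mq M MI MO p0 p1 p2 q0 q1 q2 m‖ ≤ b) (hMb : b < Mb) :
    ∃ (M' : ℂ → ℂ) (L' ε : ℝ), 0 < ε ∧ MOk (Mq M MI MO p0 p1 p2 q0 q1 q2) M' Mb L' ε := by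
  obtain ⟨L, hL, hl⟩ := Mq_lip (M := M) hp hq hsh (R := 8) (by norm_num)
  exact mOk_gen (Mq_cont hp hq hsh) hL hl hb hMb

/-- the numbers of the bound check: resolutions, depths and degrees inside and outside, the bound
`Bn / Bd`, and the denominators of the two sides as integers -/
structure MChk where
  (k n N k' n' N' : ℕ)
  (Bn Bd r r0 r1 r2 s s0 s1 s2 : ℤ)

/-- the Boolean check of the multiplier -/
def MChk.ok (c : MChk) (s : DatT) : Bool :=
  Nat.ble 1 c.k && Nat.ble 1 c.k' &&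
  shr s.d.MI s.d.MO &&
  mchk true c.k c.n c.N 1 c.r c.r0 c.r1 c.r2 s.d.c.M c.Bn c.Bd (scl s.td s.d.MI) &&
  mchk false c.k' c.n' c.N' (-1) c.s c.s0 c.s1 c.s2 s.d.c.M c.Bn c.Bd (scl s.td s.d.MO)

/-- **`MOk` for the data** -/
theorem mOk_Mu {s : DatT} {a p0 p1 p2 q0 q1 q2 : ℝ} (hp : InL p0 p1 p2) (hq : OutL a q0 q1 q2)
    (hM : 0 < s.d.c.M) (c : MChk) (hBn : 0 ≤ c.Bn) (hBd : 0 < c.Bd)
    (hr : ROk c.r c.r0 c.r1 c.r2 p0 p1 p2) (hr' : ROk c.s c.s0 c.s1 c.s2 q0 q1 q2)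
    (hc : c.ok s = true) {Mb : ℝ} (hMb : (c.Bn : ℝ) / c.Bd < Mb) :
    ∃ (M' : ℂ → ℂ) (L' ε : ℝ), 0 < ε ∧ MOk (s.Mu p0 p1 p2 q0 q1 q2) M' Mb L' ε := by
  simp only [MChk.ok, Bool.and_eq_true, Nat.ble_eq] at hc
  obtain ⟨⟨⟨⟨h1, h2⟩, h3⟩, h4⟩, h5⟩ := hc
  have k1 : 0 < c.k := h1
  have k2 : 0 < c.k' := h2
  exact mOk_Mq hp hq (shr_scl s.td h3)
    (fun m hm => Mq_le hp hq hr hr' k1 k2 hM hBn hBd h4 h5 hm) hMb

end Pool.Agent.Helper11.CK

end

section

namespace Pool.Agent.Helper71.CK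
end Pool.Agent.Helper71.CK
namespace Pool.Agent.Helper11.CK
end Pool.Agent.Helper11.CK
namespace Pool.Agent.Helper20.CK
end Pool.Agent.Helper20.CK
namespace Pool.Agent.Helper20.EK7
end Pool.Agent.Helper20.EK7
namespace Pool.Agent.Helper69.CK
end Pool.Agent.Helper69.CK

/-!
The multiplier of the certificate: `|M| ≤ 3` on `|m + 3| ≤ 4`.
-/

set_option autoImplicit false

namespace Pool.Agent.Helper9.CKD.E3

open Pool.Agent.Helper71.CK Pool.Agent.Helper11.CK

open Pool.Agent.Helper20.CK (ROk)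

open Pool.Agent.Helper20.EK7 (InL OutL)

open Pool.Agent.Helper69.CK (MOk)

def mc : MChk := ⟨128, 60, 2, 128, 60, 2, 3, 1, 20, 20, 1, -4, 20, 10, -1, 12⟩

theorem mc_ok : mc.ok g.s = true := by decide +kernel

theorem mOk {Mb : ℝ} (hMb : 3 < Mb) : ∃ (M' : ℂ → ℂ) (L' ε : ℝ), 0 < ε ∧
    MOk (g.s.Mu (1) (1 / 20) (-1 / 5) (1 / 2) (-1 / 20) (3 / 5)) M' Mb L' ε := by
  refine mOk_Mu (a := (11 / 20)) (by constructor <;> norm_num)
    (by constructor <;> norm_num) (by decide +kernel) mc (by decide) (by decide)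
    (by constructor <;> norm_num [mc]) (by constructor <;> norm_num [mc]) mc_ok ?_
  simp only [mc]
  norm_num
  linarith

end Pool.Agent.Helper9.CKD.E3

end

section

namespace Pool.Agent.Helper39.Area
end Pool.Agent.Helper39.Area
namespace Pool.Agent.Helper52.EK
end Pool.Agent.Helper52.EK
namespace Pool.Agent.Helper52.CK
end Pool.Agent.Helper52.CK
namespace Pool.Agent.Helper77.CK
end Pool.Agent.Helper77.CK

set_option autoImplicit false

open Complex MeasureTheory Metric Set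

open scoped Real ComplexConjugate

namespace Pool.Agent.Helper69.CK

open Pool.Agent.Helper39.Area Pool.Agent.Helper52.EK Pool.Agent.Helper52.CK

open Pool.Agent.Helper77.CK (KOneStmt tau_far' pt)

/-- the bound for one target with a larger constant -/
theorem kOne_mono {κ dc dc' q : ℝ} {G M : ℂ → ℂ} (h : KOneStmt κ dc G M q) (hd : dc ≤ dc') :
    KOneStmt κ dc' G M q := by
  obtain ⟨e, C, V₀, a₀, he, hC, hV₀, ha₀, h⟩ := h
  obtain ⟨a₁, ha₁⟩ : ∃ a₁ : ℝ, a₁ = Real.exp (-Real.exp (-2)) := ⟨_, rfl⟩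
  have h1 : a₁ < 1 := by
    rw [ha₁, Real.exp_lt_one_iff, neg_lt_zero]
    exact Real.exp_pos _
  refine ⟨e, C, V₀, max a₀ a₁, he, hC, hV₀, max_lt ha₀ h1, ?_⟩
  intro β R a V Ω Ω₁ Ω₂ hβ ha ha1 hV hVV hW
  have h2 := h β R a V Ω Ω₁ Ω₂ hβ ((le_max_left _ _).trans_lt ha) ha1 hV hVV hW
  have h3 : a₁ < a := (le_max_right _ _).trans_lt ha
  have ha0 : 0 < a := by
    rw [ha₁] at h3
    exact (Real.exp_pos _).trans h3
  have h4 : Real.log (tau a) + 1 ≤ -1 := by
    have e1 : a = Real.exp (-(-Real.log a)) := by rw [neg_neg, Real.exp_log ha0]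
    have h5 : 0 < -Real.log a := by
      rw [neg_pos]
      exact Real.log_neg ha0 ha1
    have h6 : -Real.log a ≤ Real.exp (-2) := by
      have h7 := Real.log_le_log (by rw [ha₁]; exact Real.exp_pos _) h3.le
      rw [ha₁, Real.log_exp] at h7
      linarith only [h7]
    have h8 := tau_far' h5 h6
    rwa [← e1] at h8
  have h5 : dc * (-1 - (Real.log (tau a) + 1)) ≤ dc' * (-1 - (Real.log (tau a) + 1)) :=
    mul_le_mul_of_nonneg_right hd (by linarith only [h4])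
  linarith

/-- **from a certificate with excess to the class Σ** -/
theorem main_excess {κ ex Mb Lm ε₀ L dc : ℝ} (hκ : 1 ≤ κ) (hex : 0 ≤ ex) (hMb2 : Mb < 2 * κ)
    (hdc : dc ≤ ex) {G M M' : ℂ → ℂ} (hG : GLip G L) (hM : MOk M M' Mb Lm ε₀) (hε₀ : 0 < ε₀)
    (hK : KOneStmt κ dc G M (1 + ex / (2 * κ))) :
    ∀ p : ℝ, κ ≤ p → ∀ e : ℝ, 0 < e → ∃ C : ℝ, ∀ ψ : ℂ → ℂ,
      DifferentiableOn ℂ ψ {z : ℂ | 1 < ‖z‖} → InjOn ψ {z : ℂ | 1 < ‖z‖} →
      (∃ b : ℂ, Filter.Tendsto (fun z => ψ z - z) (Bornology.cobounded ℂ) (nhds b)) →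
      ∀ R : ℝ, 1 < R →
      (2 * π)⁻¹ * (∫ θ in (0:ℝ)..(2 * π), ‖deriv ψ (R * Complex.exp (θ * I))‖ ^ (-p)) ≤
        C * (R ^ 2 / (R ^ 2 - 1)) ^ (p - 1 + ex + e) :=
  main_of_pt hκ hex ((norm_nonneg _).trans (hM.le 0)) hMb2 hG
    (fun β R h => Mh_cont hM h.toExt) (Mh_le hM)
    (pt (by (clear * - hκ; linarith)) hex hG hM hε₀ (kOne_mono hK hdc))

end Pool.Agent.Helper69.CK

end
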