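import Pool.Agent.Helper60.BE.T19
import Pool.Agent.Helper60.BE.T20
import Pool.Agent.Helper60.BE.T24

set_option linter.all false

section

namespace Pool.Sos71
end Pool.Sos71
namespace Pool.Agent.Helper71.CK
end Pool.Agent.Helper71.CK
namespace Pool.Agent.Helper20.CK
end Pool.Agent.Helper20.CK

set_option autoImplicit false

namespace Pool.Agent.Helper9.CKD.E3

open Pool.Sos71

open Pool.Agent.Helper71.CK

open Pool.Agent.Helper20.CK

theorem eOk : e.Ok (28 / 29) (4 / 145) (1 / 8) (1 / 12) (1) (1 / 20) (-1 / 5) (77 / 145) (1 / 40) (1 / 2) (-1 / 20) (3 / 5) 1 1 11 6 where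
  wf := by decide +kernel
  N0 := by decide +kernel
  mu0 := by decide +kernel
  M0 := by decide +kernel
  td0 := by decide +kernel
  lam0 := by decide +kernel
  fi := by constructor <;> simp only [e, g, ct, cm, cb] <;> norm_num
  fo := by constructor <;> simp only [e, g, ct, cm, cb] <;> norm_num
  eg := by simp only [e]; norm_num
  ec := by simp only [e]; norm_num
  ea := by simp only [e]; norm_num
  eb := by simp only [e]; norm_num
  ea' := by simp only [e]; norm_num
  eb' := by simp only [e]; norm_num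
  Ld0 := by norm_num
  Ld0' := by norm_num
  inL := by constructor <;> norm_num [abs_of_nonneg, abs_of_neg, abs_of_pos, abs_of_nonpos]
  outD := by constructor <;> norm_num [abs_of_nonneg, abs_of_neg, abs_of_pos, abs_of_nonpos]
  lIn := by constructor <;> norm_num
  lOut := by constructor <;> norm_num

theorem good0 (b : Blk) (hb : b ∈ D0.cert.blocks) : GoodH 2 1 1 b := by
  simp only [D0.cert, List.mem_cons, List.not_mem_nil, or_false] at hb
  rcases hb with rfl | rfl | rfl | rfl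
  · exact GoodH.one rfl
  · exact GoodH.ab rfl
  · exact GoodH.l rfl
  · exact GoodH.abl rfl

theorem good1 (b : Blk) (hb : b ∈ D1.cert.blocks) : GoodH 2 11 6 b := by
  simp only [D1.cert, List.mem_cons, List.not_mem_nil, or_false] at hb
  rcases hb with rfl | rfl | rfl | rfl | rfl
  · exact GoodH.one rfl
  · exact GoodH.ab rfl
  · exact GoodH.l rfl
  · exact GoodH.abl rfl
  · exact GoodH.d1 rfl (by decide +kernel)

theorem good2 (b : Blk) (hb : b ∈ D2.cert.blocks) : b.mult = mOne ∨ b.mult = mCen := by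
  simp only [D2.cert, List.mem_cons, List.not_mem_nil, or_false] at hb
  rcases hb with rfl | rfl | rfl | rfl
  · exact Or.inl rfl
  · exact Or.inl rfl
  · exact Or.inr rfl
  · exact Or.inr rfl

theorem hIn : SideH e.g.s.d.c.K 1 1 (tInM e mi) :=
  side_ofH D0.ok (by norm_num) good0

theorem hOut : SideH e.g.s.d.c.K 11 6 (tOutM e mo) :=
  side_ofH D1.ok (by norm_num) good1

theorem hCen (x : Pnt) (h : 0 ≤ -2 * x.f - x.f ^ 2 - x.g ^ 2) : 0 ≤ (Ex.bp g.cen).re x :=
  cen_of D2.ok good2 x h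

theorem hd : (g.s.d.del : ℝ) < 1 / 200 * g.s.d.c.M := by
  simp only [g, ct, cm, cb]
  norm_num

theorem hk : (g.s.d.c.lam : ℝ) + g.s.d.c.c1 + (|(g.s.d.c.c1 : ℝ) - g.s.d.kb| +
    2 * |(g.s.d.c.a2 : ℝ)|) / 10 ^ 7 < 2 * (2 / 1) * g.s.d.c.M := by
  simp only [g, ct, cm, cb]
  norm_num [abs_of_nonneg, abs_of_neg, abs_of_pos, abs_of_nonpos]

end Pool.Agent.Helper9.CKD.E3

end

section

namespace Pool.Agent.Helper71.CK
end Pool.Agent.Helper71.CK
namespace Pool.Agent.Helper39.Area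
end Pool.Agent.Helper39.Area
namespace Pool.Agent.Helper52.EK
end Pool.Agent.Helper52.EK
namespace Pool.Agent.Helper77.CK
end Pool.Agent.Helper77.CK
namespace Pool.Agent.Helper20.CK
end Pool.Agent.Helper20.CK
namespace Pool.Agent.Helper65.CK
end Pool.Agent.Helper65.CK

/-!
# Project CK, the critical exponent with an error: `B(-p) ≤ p - 1 + 1 / 200` for `p ≥ 2`
-/

set_option autoImplicit false

open Complex MeasureTheory Metric Set

open scoped Real ComplexConjugate

namespace Pool.Agent.Helper9.CKD.E3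

open Pool.Agent.Helper71.CK

open Pool.Agent.Helper39.Area Pool.Agent.Helper52.EK Pool.Agent.Helper77.CK

open Pool.Agent.Helper20.CK (GF0_glip outD_outL)

open Pool.Agent.Helper65.CK (cenE_pos)

/-- **the integral means spectrum**: `B(-p) ≤ p - 1 + 1 / 200` for `p ≥ 2` -/
theorem means : ∀ p : ℝ, 2 ≤ p → ∀ e : ℝ, 0 < e → ∃ C : ℝ, ∀ ψ : ℂ → ℂ,
    DifferentiableOn ℂ ψ {z : ℂ | 1 < ‖z‖} → InjOn ψ {z : ℂ | 1 < ‖z‖} →
    (∃ b : ℂ, Filter.Tendsto (fun z => ψ z - z) (Bornology.cobounded ℂ) (nhds b)) →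
    ∀ R : ℝ, 1 < R →
    (2 * π)⁻¹ * (∫ θ in (0:ℝ)..(2 * π), ‖deriv ψ (R * Complex.exp (θ * I))‖ ^ (-p)) ≤
      C * (R ^ 2 / (R ^ 2 - 1)) ^ (p - 1 + 1 / 200 + e) := by
  obtain ⟨M', L', ε, hε, hM⟩ := mOk (Mb := 7 / 2) (by norm_num)
  obtain ⟨L, hG⟩ := GF0_glip (28 / 29) (4 / 145) (1 / 8) (1 / 12) (1) (1 / 20) (-1 / 5) (77 / 145) (1 / 40) (1 / 2) (-1 / 20) (3 / 5) eOk.inL eOk.outD
  have hK := K_dataFH (κ := 2) eOk hIn hOut (by decide) (by decide) (by decide)
    (cenE_pos (DatG.wf_iff e.g eOk.wf) hCen) (by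
      have h := hk
      norm_num at h ⊢
      exact h)
  have hM0 : (0:ℝ) < e.g.s.d.c.M := by exact_mod_cast eOk.Mpos
  have hdel : (e.g.s.d.del : ℝ) / e.g.s.d.c.M ≤ 1 / 200 := by
    rw [div_le_iff₀ hM0]
    exact hd.le
  have hq : (1 + (e.g.s.tn : ℝ) / e.g.s.td) = 1 + 1 / 200 / (2 * 2 : ℝ) := by
    norm_num [e, g, ct]
  rw [hq] at hK
  exact Pool.Agent.Helper69.CK.main_excess (κ := 2) (Mb := 7 / 2) (by norm_num) (by norm_num)
    (by norm_num) hdel hG hM hε hK

end Pool.Agent.Helper9.CKD.E3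

end
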