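import Mathlib.Data.Int.Basic
import Mathlib

set_option linter.all false

section

namespace Pool.Agent.M16.Helper12.HR2
end Pool.Agent.M16.Helper12.HR2

section

set_option autoImplicit false

namespace Pool.Agent.M16.Helper12.HR2

/-- the parameters: numerators of `s`, denominator of `s`, numerator and denominator of `b` -/
structure Par where
  /-- numerator of the real part of `s` -/
  p : ℤ
  /-- numerator of the imaginary part of `s` -/
  q : ℤ
  /-- denominator of `s` -/
  sr : ℕ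
  /-- numerator of `b` -/
  bn : ℕ
  /-- denominator of `b` -/
  bd : ℕ

end Pool.Agent.M16.Helper12.HR2

end

section

set_option autoImplicit false

namespace Pool.Agent.M16.Helper54.HR2

open Pool.Agent.M16.Helper12.HR2 (Par)

/-- a row of a table: terms (shift, multiplicity) with the monomial itself, with its conjugate, with
a monomial which is its own conjugate; the shift is `K` times the number -/
abbrev Row := List (ℕ × ℕ) × List (ℕ × ℕ) × List (ℕ × ℕ)

/-- a row with one term: the shift (`K` times the number plus the logarithm of the multiplicity),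
the kind (0: the monomial itself, 1: its conjugate, 2: a monomial which is its own conjugate) -/
abbrev Sng := ℕ × ℕ

/-- a block of rows with one term: offset of the shifts, number of the first digit, rows -/
abbrev Blk := ℕ × ℕ × List Sng

/-- the packed terms -/
noncomputable def rr (l : List (ℕ × ℕ)) : ℕ :=
  List.rec (motive := fun _ => ℕ) 0 (fun p _ ih => Nat.add (Nat.shiftLeft p.2 p.1) ih) l

/-- all packed terms of a row -/
noncomputable def ra (r : Row) : ℕ := Nat.add (rr r.1) (Nat.add (rr r.2.1) (rr r.2.2))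

/-- the real form of the digits -/
noncomputable def fr (w : ℕ) (rs : List Row) : ℕ → ℕ :=
  List.rec (motive := fun _ => ℕ → ℕ) (fun _ => 0)
    (fun r _ ih x => Nat.add (Nat.mul (Nat.mod x w) (ra r)) (ih (Nat.div x w))) rs

/-- the real form of ones -/
noncomputable def fr1 (rs : List Row) : ℕ :=
  List.rec (motive := fun _ => ℕ) 0 (fun r _ ih => Nat.add (ra r) ih) rs

/-- the imaginary form of the digits -/
noncomputable def fi (w g : ℕ) (rs : List Row) : ℕ → ℕ :=
  List.rec (motive := fun _ => ℕ → ℕ) (fun _ => 0)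
    (fun r _ ih x => Nat.add (Nat.add (Nat.mul (Nat.mod x w) (rr r.1))
      (Nat.mul (Nat.sub g (Nat.mod x w)) (rr r.2.1))) (ih (Nat.div x w))) rs

/-- the imaginary form of ones -/
noncomputable def fi1 (rs : List Row) : ℕ :=
  List.rec (motive := fun _ => ℕ) 0 (fun r _ ih => Nat.add (Nat.add (rr r.1) (rr r.2.1)) ih) rs

/-- the real form with the offset `h` -/
noncomputable def zr (w h : ℕ) (rs : List Row) (x : ℕ) : ℤ :=
  Int.subNatNat (fr w rs x) (Nat.mul h (fr1 rs))

/-- the imaginary form with the offset `h` -/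
noncomputable def zi (w h : ℕ) (rs : List Row) (x : ℕ) : ℤ :=
  Int.subNatNat (fi w (Nat.mul 2 h) rs x) (Nat.mul h (fi1 rs))

/-- the real form of the digits, rows with one term -/
noncomputable def gr1 (w : ℕ) (rs : List Sng) : ℕ → ℕ :=
  List.rec (motive := fun _ => ℕ → ℕ) (fun _ => 0)
    (fun r _ ih x => Nat.add (Nat.shiftLeft (Nat.mod x w) r.1) (ih (Nat.div x w))) rs

/-- the real form of ones, rows with one term -/
noncomputable def go1 (rs : List Sng) : ℕ :=
  List.rec (motive := fun _ => ℕ) 0 (fun r _ ih => Nat.add (Nat.shiftLeft 1 r.1) ih) rs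

/-- the imaginary form of the digits, rows with one term -/
noncomputable def gi1 (w g : ℕ) (rs : List Sng) : ℕ → ℕ :=
  List.rec (motive := fun _ => ℕ → ℕ) (fun _ => 0)
    (fun r _ ih x => Nat.rec (motive := fun _ => ℕ)
      (Nat.add (Nat.shiftLeft (Nat.mod x w) r.1) (ih (Nat.div x w)))
      (fun f _ => Nat.rec (motive := fun _ => ℕ)
        (Nat.add (Nat.shiftLeft (Nat.sub g (Nat.mod x w)) r.1) (ih (Nat.div x w)))
        (fun _ _ => ih (Nat.div x w)) f) r.2) rs

/-- the imaginary form of ones, rows with one term -/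
noncomputable def gp1 (rs : List Sng) : ℕ :=
  List.rec (motive := fun _ => ℕ) 0
    (fun r _ ih => Nat.rec (motive := fun _ => ℕ) (Nat.add (Nat.shiftLeft 1 r.1) ih)
      (fun f _ => Nat.rec (motive := fun _ => ℕ) (Nat.add (Nat.shiftLeft 1 r.1) ih)
        (fun _ _ => ih) f) r.2) rs

/-- the real form with the offset `h`, rows with one term -/
noncomputable def yr (w h : ℕ) (rs : List Sng) (x : ℕ) : ℤ :=
  Int.subNatNat (gr1 w rs x) (Nat.mul h (go1 rs))

/-- the imaginary form with the offset `h`, rows with one term -/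
noncomputable def yi (w h : ℕ) (rs : List Sng) (x : ℕ) : ℤ :=
  Int.subNatNat (gi1 w (Nat.mul 2 h) rs x) (Nat.mul h (gp1 rs))

/-- multiplication by a power of two -/
noncomputable def sh (o : ℕ) (z : ℤ) : ℤ := Int.mul (Int.ofNat (Nat.shiftLeft 1 o)) z

/-- the real form for blocks -/
noncomputable def br (w h : ℕ) (bs : List Blk) (x : ℕ) : ℤ :=
  List.rec (motive := fun _ => ℤ) (Int.ofNat 0)
    (fun b _ ih => Int.add (sh b.1 (yr w h b.2.2 (Nat.div x (Nat.pow w b.2.1)))) ih) bs

/-- the imaginary form for blocks -/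
noncomputable def bi (w h : ℕ) (bs : List Blk) (x : ℕ) : ℤ :=
  List.rec (motive := fun _ => ℤ) (Int.ofNat 0)
    (fun b _ ih => Int.add (sh b.1 (yi w h b.2.2 (Nat.div x (Nat.pow w b.2.1)))) ih) bs

/-- a group of multipliers `(A, B)` with the same weight and the same number of zeros in `A` -/
structure Grp where
  /-- the weight -/
  w : ℕ
  /-- the number of zeros in the first list -/
  a : ℕ
  /-- offset of the shifts of the monomials -/
  oM : ℕ
  /-- offset of the shifts of the products -/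
  oE : ℕ
  /-- the monomials -/
  M : List Sng
  /-- the monomials multiplied by the first variable -/
  E : List Sng
  /-- the positive part of the derivative -/
  D : List Row

/-- the coefficient of the derivative -/
noncomputable def cD (P : Par) : ℤ := Int.ofNat (Nat.mul P.bd P.sr)

/-- the coefficient of the multiplication by the first variable, real part -/
noncomputable def cE (P : Par) (a : ℕ) : ℤ :=
  Int.add (Int.ofNat (Nat.mul (Nat.mul P.bd P.sr) a)) (Int.mul (Int.ofNat (Nat.mul 2 P.bd)) P.p)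

/-- the coefficient of the multiplication by the first variable, imaginary part -/
noncomputable def cF (P : Par) : ℤ := Int.mul (Int.ofNat (Nat.mul 2 P.bd)) P.q

/-- the coefficient of the monomial -/
noncomputable def cM (P : Par) (w : ℕ) : ℤ :=
  Int.ofNat (Nat.mul P.sr (Nat.add P.bn (Nat.mul P.bd w)))

/-- the real part of a group -/
noncomputable def gr (P : Par) (w h : ℕ) (g : Grp) (xy : ℕ × ℕ) : ℤ :=
  Int.sub (sh g.oE
    (Int.add (Int.sub (Int.mul (cD P) (zr w h g.D xy.1)) (Int.mul (cE P g.a) (yr w h g.E xy.1)))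
      (Int.mul (cF P) (yr w h g.E xy.2))))
    (sh g.oM (Int.mul (cM P g.w) (yr w h g.M xy.1)))

/-- the imaginary part of a group -/
noncomputable def gi (P : Par) (w h : ℕ) (g : Grp) (xy : ℕ × ℕ) : ℤ :=
  Int.add (sh g.oE
    (Int.add (Int.sub (Int.mul (cF P) (yi w h g.E xy.1)) (Int.mul (cD P) (zi w h g.D xy.2)))
      (Int.mul (cE P g.a) (yi w h g.E xy.2))))
    (sh g.oM (Int.mul (cM P g.w) (yi w h g.M xy.2)))

/-- all groups, real part -/
noncomputable def gsr (P : Par) (w h : ℕ) (gs : List Grp) : List (ℕ × ℕ) → ℤ :=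
  List.rec (motive := fun _ => List (ℕ × ℕ) → ℤ) (fun _ => Int.ofNat 0)
    (fun g _ ih l => List.rec (motive := fun _ => ℤ) (Int.ofNat 0)
      (fun xy l' _ => Int.add (gr P w h g xy) (ih l')) l) gs

/-- all groups, imaginary part -/
noncomputable def gsi (P : Par) (w h : ℕ) (gs : List Grp) : List (ℕ × ℕ) → ℤ :=
  List.rec (motive := fun _ => List (ℕ × ℕ) → ℤ) (fun _ => Int.ofNat 0)
    (fun g _ ih l => List.rec (motive := fun _ => ℤ) (Int.ofNat 0)
      (fun xy l' _ => Int.add (gi P w h g xy) (ih l')) l) gs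

/-- the sum of the first `n` powers of `B` -/
noncomputable def ons (B n : ℕ) : ℕ :=
  Nat.rec (motive := fun _ => ℕ) 0 (fun _ ih => Nat.add 1 (Nat.mul B ih)) n

/-- the first `n` digits to the base `w`, to the base `B` -/
noncomputable def spr (B w : ℕ) (n : ℕ) : ℕ → ℕ :=
  Nat.rec (motive := fun _ => ℕ → ℕ) (fun _ => 0)
    (fun _ ih x => Nat.add (Nat.mod x w) (Nat.mul B (ih (Nat.div x w)))) n

/-- a column of the Gram matrix, real part, with offsets; a row of `U` consists of the number of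
digits, the real parts and the imaginary parts -/
noncomputable def cr (B w h : ℕ) (U : List (ℕ × ℕ × ℕ)) : ℕ → ℕ :=
  List.rec (motive := fun _ => ℕ → ℕ) (fun _ => 0)
    (fun r _ ih k => Nat.add
      (Nat.add (Nat.add (Nat.mul (Nat.mod (Nat.div r.2.1 (Nat.pow w k)) w) (spr B w r.1 r.2.1))
        (Nat.mul (Nat.mod (Nat.div r.2.2 (Nat.pow w k)) w) (spr B w r.1 r.2.2)))
        (Nat.mul (Nat.sub (Nat.mul 4 h) (Nat.add (Nat.mod (Nat.div r.2.1 (Nat.pow w k)) w)
          (Nat.mod (Nat.div r.2.2 (Nat.pow w k)) w))) (Nat.mul h (ons B r.1))))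
      (Nat.rec (motive := fun _ => ℕ) 0 (fun k' _ => Nat.mul B (ih k')) k)) U

/-- a column of the Gram matrix, imaginary part, with offsets -/
noncomputable def ci (B w h : ℕ) (U : List (ℕ × ℕ × ℕ)) : ℕ → ℕ :=
  List.rec (motive := fun _ => ℕ → ℕ) (fun _ => 0)
    (fun r _ ih k => Nat.add
      (Nat.add (Nat.add (Nat.mul (Nat.mod (Nat.div r.2.1 (Nat.pow w k)) w) (spr B w r.1 r.2.2))
        (Nat.mul (Nat.sub (Nat.mul 2 h) (Nat.mod (Nat.div r.2.2 (Nat.pow w k)) w))
          (spr B w r.1 r.2.1)))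
        (Nat.mul (Nat.sub (Nat.add (Nat.mul 2 h) (Nat.mod (Nat.div r.2.2 (Nat.pow w k)) w))
          (Nat.mod (Nat.div r.2.1 (Nat.pow w k)) w)) (Nat.mul h (ons B r.1))))
      (Nat.rec (motive := fun _ => ℕ) 0 (fun k' _ => Nat.mul B (ih k')) k)) U

/-- the correction of the offsets -/
noncomputable def cq (B w h : ℕ) (U : List (ℕ × ℕ × ℕ)) : ℕ → ℕ :=
  List.rec (motive := fun _ => ℕ → ℕ) (fun _ => 0)
    (fun r _ ih k => Nat.add
      (Nat.add (Nat.mul h (Nat.add (spr B w r.1 r.2.1) (spr B w r.1 r.2.2)))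
        (Nat.mul (Nat.mul 2 h) (Nat.mul h (ons B r.1))))
      (Nat.rec (motive := fun _ => ℕ) 0 (fun k' _ => Nat.mul B (ih k')) k)) U

/-- the Gram matrix, real part -/
noncomputable def mr (B H w h n : ℕ) (U : List (ℕ × ℕ × ℕ)) (T : List (ℕ × List Blk)) : ℤ :=
  List.rec (motive := fun _ => ℤ) (Int.ofNat 0)
    (fun bs _ ih => Int.add
      (br B H bs.2 (Nat.sub (Nat.add (cr B w h U bs.1) (Nat.mul H (ons B n))) (cq B w h U bs.1)))
      ih) T

/-- the Gram matrix, imaginary part -/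
noncomputable def mi (B H w h n : ℕ) (U : List (ℕ × ℕ × ℕ)) (T : List (ℕ × List Blk)) : ℤ :=
  List.rec (motive := fun _ => ℤ) (Int.ofNat 0)
    (fun bs _ ih => Int.add
      (bi B H bs.2 (Nat.sub (Nat.add (ci B w h U bs.1) (Nat.mul H (ons B n))) (cq B w h U bs.1)))
      ih) T

/-- the tables -/
structure Tab6 where
  /-- the shift of the constant monomial -/
  one : ℕ
  /-- the monomials of the area form -/
  q : List Blk
  /-- the multipliers -/
  g : List Grp
  /-- the number of basis monomials for the Gram matrix -/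
  n : ℕ
  /-- the columns of the Gram matrix -/
  c : List (ℕ × List Blk)
  /-- the squares of all basis monomials -/
  d : List Blk
  /-- the monomials of the residual -/
  r : List Blk
  /-- the number of monomials of the area form -/
  nQ : ℕ
  /-- the number of multipliers -/
  nM : ℕ
  /-- the sum of the multiplicities of the derivatives -/
  nD : ℕ
  /-- the sum of the multiplicities of the Gram matrix -/
  nC : ℕ
  /-- the number of all basis monomials -/
  nB : ℕ
  /-- the number of digits of the residual -/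
  nR : ℕ

/-- the data of a certificate -/
structure Cert6 where
  /-- parameters -/
  P : Par
  /-- the constant -/
  eta : ℕ
  /-- base of the digits of the form -/
  wQ : ℕ
  /-- offset -/
  hQ : ℕ
  /-- the form, real parts -/
  qx : ℕ
  /-- the form, imaginary parts -/
  qy : ℕ
  /-- base of the digits of the multipliers -/
  wL : ℕ
  /-- offset -/
  hL : ℕ
  /-- common factor of the multipliers -/
  mL : ℕ
  /-- the multipliers -/
  G : List (ℕ × ℕ)
  /-- base of the digits of the rows -/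
  wU : ℕ
  /-- offset -/
  hU : ℕ
  /-- the rows -/
  U : List (ℕ × ℕ × ℕ)
  /-- base of the digits of the Gram matrix -/
  wG : ℕ
  /-- offset -/
  hG : ℕ
  /-- base of the digits of the diagonal -/
  wD : ℕ
  /-- the diagonal -/
  dg : ℕ
  /-- base of the digits of the residual -/
  wR : ℕ
  /-- offset -/
  hR : ℕ
  /-- the residual, real parts -/
  rx : ℕ
  /-- the residual, imaginary parts -/
  ry : ℕ
  /-- the multiple of the sum of squares -/
  eps : ℕ
  /-- multiplier of the left side -/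
  m1 : ℕ
  /-- multiplier of the rows -/
  m2 : ℕ

/-- the real part of the left side -/
noncomputable def TR (t : Tab6) (C : Cert6) : ℤ :=
  Int.add (Int.mul (Int.ofNat (Nat.mul C.P.sr C.P.bd))
    (Int.add (Int.ofNat (Nat.shiftLeft C.eta t.one)) (br C.wQ C.hQ t.q C.qx)))
    (Int.mul (Int.ofNat C.mL) (gsr C.P C.wL C.hL t.g C.G))

/-- the imaginary part of the left side -/
noncomputable def TI (t : Tab6) (C : Cert6) : ℤ :=
  Int.sub (Int.mul (Int.ofNat C.mL) (gsi C.P C.wL C.hL t.g C.G))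
    (Int.mul (Int.ofNat (Nat.mul C.P.sr C.P.bd)) (bi C.wQ C.hQ t.q C.qy))

/-- the real part of the identity -/
noncomputable def FR (t : Tab6) (C : Cert6) : ℤ :=
  Int.add (Int.add (Int.mul (Int.ofNat (Nat.mul 2 C.m1)) (TR t C))
    (Int.mul (Int.ofNat C.m2) (mr C.wG C.hG C.wU C.hU t.n C.U t.c)))
    (Int.add (Int.add (br C.wD 0 t.d C.dg) (Int.mul (Int.ofNat C.eps) (br 2 0 t.d (Nat.sub (Nat.pow 2 t.nB) 1))))
      (Int.mul (Int.ofNat 2) (br C.wR C.hR t.r C.rx)))

/-- minus the imaginary part of the identity -/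
noncomputable def FI (t : Tab6) (C : Cert6) : ℤ :=
  Int.add (Int.sub (Int.mul (Int.ofNat C.m2) (mi C.wG C.hG C.wU C.hU t.n C.U t.c))
    (Int.mul (Int.ofNat (Nat.mul 2 C.m1)) (TI t C)))
    (Int.mul (Int.ofNat 2) (bi C.wR C.hR t.r C.ry))

/-- sum of the moduli of the digits -/
noncomputable def sab (w h n : ℕ) : ℕ → ℕ :=
  Nat.rec (motive := fun _ => ℕ → ℕ) (fun _ => 0)
    (fun _ ih x => Nat.add (Nat.add (Nat.sub (Nat.mod x w) h) (Nat.sub h (Nat.mod x w)))
      (ih (Nat.div x w))) n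

/-- the bound of the norm of the identity -/
noncomputable def nF (t : Tab6) (C : Cert6) : ℕ :=
  Nat.add (Nat.add
    (Nat.mul (Nat.mul 2 C.m1) (Nat.add
      (Nat.mul (Nat.mul C.P.sr C.P.bd) (Nat.add C.eta (Nat.mul C.wQ t.nQ)))
      (Nat.mul C.mL (Nat.mul C.wL
        (Nat.add (Nat.mul (Nat.mul C.P.bd C.P.sr) t.nD)
          (Nat.mul t.nM (Nat.add (Nat.mul (Nat.mul C.P.bd C.P.sr) 12)
            (Nat.add (Nat.mul (Nat.mul 2 C.P.bd) (Nat.add (Int.natAbs C.P.p) (Int.natAbs C.P.q)))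
              (Nat.mul C.P.sr (Nat.add C.P.bn (Nat.mul C.P.bd 12)))))))))))
    (Nat.mul C.m2 (Nat.mul C.wG t.nC)))
    (Nat.add (Nat.mul (Nat.add C.wD C.eps) t.nB) (Nat.mul 2 (Nat.mul C.wR t.nR)))

/-- equality to zero -/
noncomputable def isz (x : ℤ) : Bool :=
  Int.rec (motive := fun _ => Bool) (fun n => Nat.beq n 0) (fun _ => false) x

/-- the numbers of digits of the rows are `n`, `n - 1`, ... -/
noncomputable def uok (U : List (ℕ × ℕ × ℕ)) : ℕ → Bool :=
  List.rec (motive := fun _ => ℕ → Bool) (fun n => Nat.beq n 0)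
    (fun r _ ih n => and (Nat.beq r.1 n) (and (Nat.ble 1 n) (ih (Nat.sub n 1)))) U

/-- the real part of the check -/
noncomputable def chR (t : Tab6) (C : Cert6) : Bool := isz (FR t C)

/-- the imaginary part of the check -/
noncomputable def chI (t : Tab6) (C : Cert6) : Bool := isz (FI t C)

/-- the other conditions; `2 ^ K` is the base -/
noncomputable def chB (t : Tab6) (K : ℕ) (C : Cert6) : Bool :=
  and (and (Nat.ble (Nat.succ (nF t C)) (Nat.pow 2 K)) (uok C.U t.n))
    (and (Nat.ble (Nat.mul 2 (Nat.add (sab C.wR C.hR t.nR C.rx) (sab C.wR C.hR t.nR C.ry))) C.eps)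
      (and (and (Nat.ble 1 C.P.sr) (and (Nat.ble 1 C.P.bd) (and (Nat.ble 1 C.m1) (Nat.ble 1 C.wD))))
        (and (and (Nat.ble (Nat.succ C.hL) C.wL) (Nat.ble C.wL (Nat.succ (Nat.mul 2 C.hL))))
          (and (and (Nat.ble (Nat.succ C.hR) C.wR) (Nat.ble C.wR (Nat.succ (Nat.mul 2 C.hR))))
            (and (and (Nat.ble (Nat.succ C.hQ) C.wQ) (Nat.ble C.wQ (Nat.succ (Nat.mul 2 C.hQ))))
              (and (and (Nat.ble (Nat.succ C.hU) C.wU) (Nat.ble C.wU (Nat.succ (Nat.mul 2 C.hU))))
                (and (Nat.beq C.wG (Nat.mul 2 C.hG))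
                  (Nat.ble (Nat.mul (Nat.mul 2 t.n) (Nat.mul C.wU C.wU)) C.hG))))))))

end Pool.Agent.M16.Helper54.HR2

end

section

set_option autoImplicit false

set_option maxRecDepth 100000

set_option linter.all false

namespace Pool.Agent.M16.Helper54.HR2

/-- group -/
noncomputable def tab79bg0 : Grp :=
  ⟨0, 0, 0, 168, [(0, 2)],
   [(0, 1)],
   [([], [], [])]⟩

/-- group -/
noncomputable def tab79bg1 : Grp :=
  ⟨1, 0, 168, 336, [(0, 0)],
   [(0, 2)],
   [([], [], [])]⟩

/-- group -/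
noncomputable def tab79bg2 : Grp :=
  ⟨1, 1, 168, 504, [(0, 1)],
   [(0, 1)],
   [([], [(168, 3)], [])]⟩

/-- group -/
noncomputable def tab79bg3 : Grp :=
  ⟨2, 0, 504, 840, [(0, 0), (168, 0), (168, 1)],
   [(0, 0), (168, 0), (504, 1)],
   [([], [], []), ([], [], []), ([], [(672, 4)], [])]⟩

/-- group -/
noncomputable def tab79bg4 : Grp :=
  ⟨2, 1, 336, 840, [(0, 2)],
   [(0, 1)],
   [([], [(168, 3)], [])]⟩

/-- group -/
noncomputable def tab79bg5 : Grp :=
  ⟨2, 2, 504, 1176, [(0, 1)],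
   [(0, 1)],
   [([], [(168, 6)], [])]⟩

/-- group -/
noncomputable def tab79bg6 : Grp :=
  ⟨3, 0, 1008, 2184, [(168, 0), (336, 0), (504, 0), (0, 1), (504, 1)],
   [(0, 0), (168, 0), (336, 0), (168, 1), (840, 1)],
   [([], [], []), ([], [], []), ([], [], []), ([], [(336, 4)], []), ([], [(1008, 1), (1176, 5)], [])]⟩

/-- group -/
noncomputable def tab79bg7 : Grp :=
  ⟨3, 1, 840, 1680, [(0, 0), (168, 0), (504, 1)],
   [(0, 2), (168, 0), (1176, 1)],
   [([], [(168, 3)], []), ([], [], [(336, 3)]), ([], [(1512, 3), (1344, 4)], [])]⟩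

/-- group -/
noncomputable def tab79bg8 : Grp :=
  ⟨3, 2, 840, 2184, [(0, 1)],
   [(0, 1)],
   [([], [(168, 6)], [])]⟩

/-- group -/
noncomputable def tab79bg9 : Grp :=
  ⟨3, 3, 1176, 2688, [(0, 1)],
   [(0, 1)],
   [([], [(168, 9)], [])]⟩

/-- group -/
noncomputable def tab79bg10 : Grp :=
  ⟨4, 0, 1848, 3696, [(840, 0), (1008, 0), (1176, 0), (1344, 0), (1512, 0), (0, 1), (168, 2), (672, 1), (1344, 1), (1512, 1)],
   [(840, 0), (1008, 0), (1176, 0), (1344, 0), (1512, 0), (0, 1), (672, 0), (1176, 1), (2184, 1), (2352, 1)],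
   [([], [], []), ([], [], []), ([], [], []), ([], [], []), ([], [], []), ([], [(168, 4)], []), ([], [(336, 4)], []), ([], [(1344, 1), (1512, 5)], []), ([], [(2520, 8)], []), ([], [(2520, 2), (2688, 6)], [])]⟩

/-- group -/
noncomputable def tab79bg11 : Grp :=
  ⟨4, 1, 2184, 3528, [(0, 0), (168, 0), (336, 0), (168, 1), (840, 1)],
   [(0, 0), (168, 0), (336, 0), (1176, 1), (2184, 1)],
   [([], [(672, 3)], []), ([], [(840, 3)], []), ([(504, 3)], [], []), ([], [(1512, 3), (1344, 4)], []), ([], [(2352, 1), (2688, 3), (2520, 5)], [])]⟩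

/-- group -/
noncomputable def tab79bg12 : Grp :=
  ⟨4, 2, 1680, 3528, [(0, 2), (168, 0), (1176, 1)],
   [(0, 1), (672, 0), (2016, 1)],
   [([], [(168, 6)], []), ([(840, 6)], [], []), ([], [(2352, 6), (2184, 4)], [])]⟩

/-- group -/
noncomputable def tab79bg13 : Grp :=
  ⟨4, 3, 2184, 4536, [(0, 1)],
   [(0, 1)],
   [([], [(168, 9)], [])]⟩

/-- group -/
noncomputable def tab79bg14 : Grp :=
  ⟨4, 4, 2688, 5376, [(0, 1)],
   [(0, 1)],
   [([], [(168, 12)], [])]⟩

/-- group -/
noncomputable def tab79bg15 : Grp :=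
  ⟨5, 0, 3864, 6720, [(1512, 0), (1680, 0), (1848, 0), (2016, 0), (2184, 0), (2352, 0), (2520, 0), (336, 1), (504, 1), (168, 0), (0, 1), (168, 1), (1176, 1), (1344, 1), (2352, 1), (2520, 1)],
   [(2520, 0), (2688, 0), (2856, 0), (3024, 0), (3192, 0), (3360, 0), (3528, 0), (0, 1), (336, 2), (504, 0), (1176, 1), (2352, 0), (3024, 1), (3192, 1), (4536, 1), (4704, 1)],
   [([], [], []), ([], [], []), ([], [], []), ([], [], []), ([], [], []), ([], [], []), ([], [], []), ([], [(168, 4)], []), ([], [(504, 4)], []), ([], [], [(672, 4)]), ([], [(1344, 1), (1512, 5)], []), ([], [(1680, 1), (1848, 5)], []), ([], [(3360, 8)], []), ([], [(3360, 2), (3528, 6)], []), ([], [(4872, 1), (5208, 4), (5040, 5)], []), ([], [(5208, 1), (5040, 2), (5376, 7)], [])]⟩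

/-- group -/
noncomputable def tab79bg16 : Grp :=
  ⟨5, 1, 3696, 7560, [(840, 0), (1008, 0), (1176, 0), (1344, 0), (1512, 0), (0, 1), (672, 0), (1176, 1), (2184, 1), (2352, 1)],
   [(0, 0), (168, 0), (336, 0), (504, 0), (672, 0), (168, 1), (1344, 0), (2016, 1), (3360, 1), (3528, 1)],
   [([], [(1176, 3)], []), ([], [(1344, 3)], []), ([], [(1512, 3)], []), ([(840, 3)], [], []), ([(1008, 3)], [], []), ([], [(504, 3), (336, 4)], []), ([(1512, 4)], [(840, 3)], []), ([], [(2184, 1), (2520, 3), (2352, 5)], []), ([], [(4032, 3), (3696, 8)], []), ([], [(3696, 2), (4200, 3), (3864, 6)], [])]⟩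

/-- group -/
noncomputable def tab79bg17 : Grp :=
  ⟨5, 2, 3528, 6552, [(0, 0), (168, 0), (336, 0), (1176, 1), (2184, 1)],
   [(0, 2), (168, 0), (336, 0), (2856, 1), (4200, 1)],
   [([], [(168, 6)], []), ([], [], [(504, 6)]), ([(672, 6)], [], []), ([], [(3192, 6), (3024, 4)], []), ([], [(4368, 1), (4704, 6), (4536, 5)], [])]⟩

/-- group -/
noncomputable def tab79bg18 : Grp :=
  ⟨5, 3, 3528, 7560, [(0, 1), (672, 0), (2016, 1)],
   [(0, 1), (1176, 0), (3024, 1)],
   [([], [(168, 9)], []), ([(1344, 9)], [], []), ([], [(3360, 9), (3192, 4)], [])]⟩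

/-- group -/
noncomputable def tab79bg19 : Grp :=
  ⟨5, 4, 4536, 9240, [(0, 1)],
   [(0, 1)],
   [([], [(168, 12)], [])]⟩

/-- group -/
noncomputable def tab79bg20 : Grp :=
  ⟨5, 5, 5376, 10416, [(0, 1)],
   [(0, 1)],
   [([], [(168, 15)], [])]⟩

/-- group -/
noncomputable def tab79bg21 : Grp :=
  ⟨6, 0, 6888, 12600, [(3528, 0), (3696, 0), (3864, 0), (4032, 0), (4200, 0), (4368, 0), (4536, 0), (4704, 0), (4872, 0), (5040, 0), (5208, 0), (1848, 1), (2016, 1), (2184, 1), (1512, 0), (1680, 0), (0, 1), (336, 1), (504, 2), (1176, 1), (1512, 1), (1344, 1), (1680, 1), (3192, 1), (3360, 1), (4704, 1), (4872, 1), (5040, 1)],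
   [(4536, 0), (4704, 0), (4872, 0), (5040, 0), (5208, 0), (5376, 0), (5544, 0), (5712, 0), (5880, 0), (6048, 0), (6216, 0), (1176, 1), (1512, 1), (504, 0), (672, 0), (840, 0), (0, 1), (504, 1), (1848, 0), (2688, 1), (4200, 0), (2856, 1), (4368, 0), (5376, 1), (5544, 1), (7560, 1), (7728, 1), (7896, 1)],
   [([], [], []), ([], [], []), ([], [], []), ([], [], []), ([], [], []), ([], [], []), ([], [], []), ([], [], []), ([], [], []), ([], [], []), ([], [], []), ([], [(1344, 4)], []), ([], [(1680, 4)], []), ([], [(1848, 4)], []), ([], [(2016, 4)], []), ([(1008, 4)], [], []), ([], [(168, 1), (336, 5)], []), ([], [(672, 1), (840, 5)], []), ([(2016, 1)], [(1008, 5)], []), ([], [(3024, 8)], []), ([], [(3360, 8)], []), ([], [(3024, 2), (3192, 6)], []), ([], [(3360, 2), (3528, 6)], []), ([], [(5712, 1), (6048, 4), (5880, 5)], []), ([], [(6048, 1), (5880, 2), (6216, 7)], []), ([], [(8232, 12)], []), ([], [(8232, 2), (8568, 4), (8400, 6)], []), ([], [(8232, 2), (8568,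 10)], [])]⟩

/-- group -/
noncomputable def tab79bg22 : Grp :=
  ⟨6, 1, 6720, 12432, [(2520, 0), (2688, 0), (2856, 0), (3024, 0), (3192, 0), (3360, 0), (3528, 0), (0, 1), (336, 2), (504, 0), (1176, 1), (2352, 0), (3024, 1), (3192, 1), (4536, 1), (4704, 1)],
   [(2352, 0), (2520, 0), (2688, 0), (2856, 0), (3024, 0), (3192, 0), (3360, 0), (0, 1), (1680, 0), (1848, 0), (2688, 1), (4200, 0), (5208, 1), (5376, 1), (7392, 1), (7560, 1)],
   [([], [(3864, 3)], []), ([], [(4032, 3)], []), ([], [(4200, 3)], []), ([], [(4368, 3)], []), ([], [(4536, 3)], []), ([(3528, 3)], [], []), ([(3696, 3)], [], []), ([], [(336, 3), (168, 4)], []), ([], [(840, 3), (672, 4)], []), ([(2184, 3), (2016, 4)], [], []), ([], [(2856, 1), (3192, 3), (3024, 5)], []), ([(4368, 1), (4536, 5)], [(3528, 3)], []), ([], [(5880, 3), (5544, 8)], []), ([], [(5544, 2), (6048, 3), (5712, 6)], []), ([], [(7728, 1), (8400, 3), (8064, 4), (7896, 5)], []), ([], [(8064, 1), (7896, 2), (8568, 3), (8232, 7)],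 [])]⟩

/-- group -/
noncomputable def tab79bg23 : Grp :=
  ⟨6, 2, 7560, 12264, [(0, 0), (168, 0), (336, 0), (504, 0), (672, 0), (168, 1), (1344, 0), (2016, 1), (3360, 1), (3528, 1)],
   [(0, 0), (168, 0), (336, 0), (504, 0), (672, 0), (2688, 1), (4200, 0), (5208, 1), (7224, 1), (7392, 1)],
   [([], [(1512, 6)], []), ([], [(1848, 6)], []), ([(840, 6)], [], []), ([(1008, 6)], [], []), ([(1176, 6)], [], []), ([], [(3024, 6), (2856, 4)], []), ([(4536, 6), (4368, 4)], [], []), ([], [(5376, 1), (5712, 6), (5544, 5)], []), ([], [(7896, 6), (7560, 8)], []), ([], [(7560, 2), (8064, 6), (7728, 6)], [])]⟩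

/-- group -/
noncomputable def tab79bg24 : Grp :=
  ⟨6, 3, 6552, 12264, [(0, 2), (168, 0), (336, 0), (2856, 1), (4200, 1)],
   [(0, 1), (1512, 0), (1680, 0), (5040, 1), (7056, 1)],
   [([], [(168, 9)], []), ([(1848, 9)], [], []), ([(2016, 9)], [], []), ([], [(5376, 9), (5208, 4)], []), ([], [(7224, 1), (7560, 9), (7392, 5)], [])]⟩

/-- group -/
noncomputable def tab79bg25 : Grp :=
  ⟨6, 4, 7560, 14784, [(0, 1), (1176, 0), (3024, 1)],
   [(0, 1), (1512, 0), (4368, 1)],
   [([], [(168, 12)], []), ([(1680, 12)], [], []), ([], [(4704, 12), (4536, 4)], [])]⟩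

/-- group -/
noncomputable def tab79bg26 : Grp :=
  ⟨6, 5, 9240, 17136, [(0, 1)],
   [(0, 1)],
   [([], [(168, 15)], [])]⟩

/-- group -/
noncomputable def tab79bg27 : Grp :=
  ⟨6, 6, 10416, 18984, [(0, 1)],
   [(0, 1)],
   [([], [(168, 18)], [])]⟩

/-- group -/
noncomputable def tab79bg28 : Grp :=
  ⟨7, 0, 12768, 21672, [(6216, 0), (6384, 0), (6552, 0), (6720, 0), (6888, 0), (7056, 0), (7224, 0), (7392, 0), (7560, 0), (7728, 0), (7896, 0), (8064, 0), (8232, 0), (8400, 0), (3528, 1), (3696, 1), (3864, 1), (4032, 1), (4200, 1), (3192, 0), (3360, 0), (1176, 1), (1512, 1), (1680, 1), (1848, 1), (840, 0), (0, 1), (504, 1), (1848, 0), (168, 1), (672, 1), (840, 1), (2856, 1), (3192, 1), (3024, 1), (3360, 1), (5544, 1), (5712, 1), (5880, 1)],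
   [(9408, 0), (9576, 0), (9744, 0), (9912, 0), (10080, 0), (10248, 0), (10416, 0), (10584, 0), (10752, 0), (10920, 0), (11088, 0), (11256, 0), (11424, 0), (11592, 0), (4200, 1), (4536, 1), (4872, 1), (3360, 0), (3528, 0), (3696, 0), (3864, 0), (0, 1), (672, 1), (1176, 2), (1344, 0), (1512, 0), (2688, 1), (3360, 1), (5208, 0), (2856, 1), (3528, 1), (5376, 0), (6552, 1), (9072, 0), (6720, 1), (9240, 0), (10584, 1), (10752, 1), (10920, 1)],
   [([], [], []), ([], [], []), ([], [], []), ([], [], []), ([], [], []), ([], [], []), ([], [], []), ([], [], []), ([], [], []), ([], [], []), ([], [], []), ([], [], []), ([], [], []), ([], [], []), ([], [(4368, 4)], []), ([], [(4704, 4)], []), ([], [(5040, 4)], []), ([], [(5208, 4)], []), ([], [(5376, 4)], []), ([], [(5544, 4)], []), ([(4032, 4)], [], []), ([], [(168, 1), (336, 5)], []), ([], [(840, 1), (1008, 5)], []), ([], [(1344, 1), (1512, 5)], []), ([], [(1848, 5)], [(1680, 1)]), ([(1848, 1)], [], [(2016, 5)]), ([],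 [(3024, 8)], []), ([], [(3696, 8)], []), ([(5544, 8)], [], []), ([], [(3024, 2), (3192, 6)], []), ([], [(3696, 2), (3864, 6)], []), ([(5544, 2)], [(4032, 6)], []), ([], [(6888, 1), (7224, 4), (7056, 5)], []), ([], [(7560, 1), (7896, 4), (7728, 5)], []), ([], [(7224, 1), (7056, 2), (7392, 7)], []), ([], [(7896, 1), (7728, 2), (8064, 7)], []), ([], [(11256, 12)], []), ([], [(11256, 2), (11592, 4), (11424, 6)], []), ([], [(11256, 2), (11592, 10)], [])]⟩

/-- group -/
noncomputable def tab79bg29 : Grp :=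
  ⟨7, 1, 12600, 21504, [(4536, 0), (4704, 0), (4872, 0), (5040, 0), (5208, 0), (5376, 0), (5544, 0), (5712, 0), (5880, 0), (6048, 0), (6216, 0), (1176, 1), (1512, 1), (504, 0), (672, 0), (840, 0), (0, 1), (504, 1), (1848, 0), (2688, 1), (4200, 0), (2856, 1), (4368, 0), (5376, 1), (5544, 1)],
   [(5880, 0), (6048, 0), (6216, 0), (6384, 0), (6552, 0), (6720, 0), (6888, 0), (7056, 0), (7224, 0), (7392, 0), (7560, 0), (0, 1), (672, 2), (840, 0), (1008, 0), (1176, 0), (2688, 1), (5040, 0), (5208, 0), (6384, 1), (8904, 0), (6552, 1), (9072, 0), (10416, 1), (10584, 1)],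
   [([], [(8400, 3)], []), ([], [(8568, 3)], []), ([], [(8736, 3)], []), ([], [(8904, 3)], []), ([], [(9072, 3)], []), ([], [(9240, 3)], []), ([], [(9408, 3)], []), ([(7728, 3)], [], []), ([(7896, 3)], [], []), ([(8064, 3)], [], []), ([(8232, 3)], [], []), ([], [(336, 3), (168, 4)], []), ([], [(1008, 3), (840, 4)], []), ([], [(1512, 3)], [(1344, 4)]), ([(1512, 4)], [], [(1848, 3)]), ([(2016, 3), (1680, 4)], [], []), ([], [(2856, 1), (3192, 3), (3024, 5)], []), ([], [(3528, 1), (3864, 3), (3696, 5)], []), ([(5376, 1), (5712, 3), (5544, 5)], [], []), ([], [(7056, 3), (6720, 8)], []), ([(9240, 8)], [(7728, 3)], []), ([], [(6720, 2), (7224, 3), (6888, 6)], []), ([(9240, 2), (9408, 6)], [(7896, 3)], []), ([], [(10752, 1), (11424, 3), (11088, 4), (10920, 5)], []), ([], [(11088, 1), (10920, 2), (11592, 3), (11256, 7)], [])]⟩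

/-- group -/
noncomputable def tab79bg30 : Grp :=
  ⟨7, 2, 12432, 23856, [(2352, 0), (2520, 0), (2688, 0), (2856, 0), (3024, 0), (3192, 0), (3360, 0), (0, 1), (1680, 0), (1848, 0), (2688, 1), (4200, 0), (5208, 1), (5376, 1)],
   [(0, 0), (168, 0), (336, 0), (504, 0), (672, 0), (840, 0), (1008, 0), (168, 1), (2352, 0), (2520, 0), (3864, 1), (6384, 0), (7728, 1), (7896, 1)],
   [([], [(2016, 6)], []), ([], [(2352, 6)], []), ([], [(2688, 6)], []), ([(1176, 6)], [], []), ([(1344, 6)], [], []), ([(1512, 6)], [], []), ([(1680, 6)], [], []), ([], [(504, 6), (336, 4)], []), ([(2688, 4)], [(1176, 6)], []), ([(3024, 6), (2856, 4)], [], []), ([], [(4032, 1), (4368, 6), (4200, 5)], []), ([(6552, 1), (6888, 6), (6720, 5)], [], []), ([], [(8400, 6), (8064, 8)], []), ([], [(8064, 2), (8568, 6), (8232, 6)], [])]⟩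

/-- group -/
noncomputable def tab79bg31 : Grp :=
  ⟨7, 3, 12264, 21336, [(0, 0), (168, 0), (336, 0), (504, 0), (672, 0), (2688, 1), (4200, 0), (5208, 1)],
   [(0, 2), (168, 0), (336, 0), (504, 0), (672, 0), (6216, 1), (8736, 0), (10080, 1)],
   [([], [(168, 9)], []), ([], [], [(840, 9)]), ([(1008, 9)], [], []), ([(1176, 9)], [], []), ([(1344, 9)], [], []), ([], [(6552, 9), (6384, 4)], []), ([(9072, 9), (8904, 4)], [], []), ([], [(10248, 1), (10584, 9), (10416, 5)], [])]⟩

/-- group -/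
noncomputable def tab79bg32 : Grp :=
  ⟨7, 4, 12264, 23856, [(0, 1), (1512, 0), (1680, 0), (5040, 1)],
   [(0, 1), (2016, 0), (2184, 0), (7392, 1)],
   [([], [(168, 12)], []), ([(2352, 12)], [], []), ([(2520, 12)], [], []), ([], [(7728, 12), (7560, 4)], [])]⟩

/-- group -/
noncomputable def tab79bg33 : Grp :=
  ⟨7, 5, 14784, 27384, [(0, 1), (1512, 0)],
   [(0, 1), (2520, 0)],
   [([], [(168, 15)], []), ([(2688, 15)], [], [])]⟩

/-- group -/
noncomputable def tab79bg34 : Grp :=
  ⟨7, 6, 17136, 31080, [(0, 1)],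
   [(0, 1)],
   [([], [(168, 18)], [])]⟩

/-- group -/
noncomputable def tab79bg35 : Grp :=
  ⟨8, 0, 21840, 33936, [(8064, 1), (8232, 1), (8400, 1), (8568, 1), (8736, 1), (8904, 1), (9072, 1), (7392, 0), (7560, 0), (7728, 0), (7896, 0), (4200, 1), (4536, 1), (4872, 1), (5040, 1), (5208, 1), (5376, 1), (3864, 0), (0, 1), (672, 1), (1176, 1), (1512, 2), (1680, 0), (168, 1), (840, 1), (1344, 1), (1680, 1), (1848, 2), (2856, 1), (3528, 1), (5376, 0), (3024, 1), (3696, 1), (3864, 1), (6720, 1), (7392, 1), (6888, 1), (7560, 1), (7056, 1), (7728, 1)],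
   [(8568, 1), (8904, 1), (9240, 1), (9576, 1), (9912, 1), (7224, 0), (7392, 0), (7560, 0), (7728, 0), (7896, 0), (8064, 0), (2688, 1), (3360, 1), (3864, 1), (4368, 1), (1512, 0), (1680, 0), (1848, 0), (0, 1), (840, 1), (4368, 0), (4536, 0), (4704, 0), (168, 1), (1008, 1), (1512, 1), (4872, 0), (5040, 0), (6216, 1), (7224, 1), (10248, 0), (6384, 1), (7392, 1), (10416, 0), (12096, 1), (14952, 0), (12264, 1), (15120, 0), (12432, 1), (15288, 0)],
   [([], [(8736, 4)], []), ([], [(9072, 4)], []), ([], [(9408, 4)], []), ([], [(9744, 4)], []), ([], [(10080, 4)], []), ([], [(10248, 4)], []), ([], [(10416, 4)], []), ([], [(10584, 4)], []), ([], [(10752, 4)], []), ([(8232, 4)], [], []), ([(8400, 4)], [], []), ([], [(2856, 1), (3024, 5)], []), ([], [(3528, 1), (3696, 5)], []), ([], [(4032, 1), (4200, 5)], []), ([], [(4536, 1), (4704, 5)], []), ([], [(4872, 1), (5040, 5)], []), ([(2016, 1)], [(5208, 5)], []), ([(2184, 1), (2352, 5)], [], []), ([], [(336, 8)], []), ([],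 [(1176, 8)], []), ([], [(1680, 8)], []), ([], [(2016, 8)], []), ([(5208, 8)], [], []), ([], [(336, 2), (504, 6)], []), ([], [(1176, 2), (1344, 6)], []), ([], [(1680, 2), (1848, 6)], []), ([], [(2016, 2), (2184, 6)], []), ([(5208, 2)], [(2352, 6)], []), ([], [(6552, 1), (6888, 4), (6720, 5)], []), ([], [(7560, 1), (7896, 4), (7728, 5)], []), ([(10584, 1), (10752, 5)], [(8232, 4)], []), ([], [(6888, 1), (6720, 2), (7056, 7)], []), ([], [(7896, 1), (7728, 2), (8064, 7)], []), ([(10752, 2)], [(8232, 1), (8400, 7)], []), ([], [(12768, 12)], []), ([], [(13272, 12)], []), ([], [(12768, 2), (13104, 4), (12936, 6)], []), ([], [(13272, 2), (13608, 4), (13440, 6)], []), ([], [(12768, 2), (13104, 10)], []), ([], [(13272, 2), (13608, 10)], [])]⟩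

/-- group -/
noncomputable def tab79bg36 : Grp :=
  ⟨8, 1, 21672, 33768, [(9408, 0), (9576, 0), (9744, 0), (9912, 0), (10080, 0), (10248, 0), (10416, 0), (10584, 0), (10752, 0), (10920, 0), (11088, 0), (11256, 0), (11424, 0), (11592, 0), (4200, 1), (4536, 1), (4872, 1), (3360, 0), (3528, 0), (3696, 0), (3864, 0), (0, 1), (672, 1), (1176, 2), (1344, 0), (1512, 0), (2688, 1), (3360, 1), (5208, 0), (2856, 1), (3528, 1), (5376, 0), (6552, 1), (9072, 0), (6720, 1), (9240, 0)],
   [(11088, 0), (11256, 0), (11424, 0), (11592, 0), (11760, 0), (11928, 0), (12096, 0), (12264, 0), (12432, 0), (12600, 0), (12768, 0), (12936, 0), (13104, 0), (13272, 0), (2688, 1), (3360, 1), (840, 0), (1008, 0), (1176, 0), (1344, 0), (1512, 0), (0, 1), (840, 1), (4032, 0), (4200, 0), (4368, 0), (6048, 1), (9744, 0), (9912, 0), (6216, 1), (10080, 0), (10248, 0), (11928, 1), (14784, 0), (12096, 1), (14952, 0)],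
   [([], [(13944, 3)], []), ([], [(14112, 3)], []), ([], [(14280, 3)], []), ([], [(14448, 3)], []), ([], [(14616, 3)], []), ([], [(14784, 3)], []), ([], [(14952, 3)], []), ([], [(15120, 3)], []), ([], [(15288, 3)], []), ([], [(15456, 3)], []), ([], [(15624, 3)], []), ([(13440, 3)], [], []), ([(13608, 3)], [], []), ([(13776, 3)], [], []), ([], [(3024, 3), (2856, 4)], []), ([], [(3696, 3), (3528, 4)], []), ([], [(4200, 3), (4032, 4)], []), ([], [(4704, 3), (4536, 4)], []), ([(1680, 4)], [(5040, 3)], []), ([(2184, 3), (1848, 4)], [], []), ([(2352, 3), (2016, 4)], [], []), ([], [(168, 1), (504, 3), (336, 5)], []), ([], [(1008, 1), (1344, 3), (1176, 5)], []), ([(4536, 1)], [(1848, 3), (1680, 5)], []), ([(4704, 1), (5040, 5)], [(2184, 3)], []), ([(4872, 1), (5376, 3), (5208, 5)], [], []), ([], [(6720, 3), (6384, 8)], []), ([], [(7728, 3), (7392, 8)], []), ([(10752, 3), (10416, 8)], [], []), ([], [(6384, 2), (6888, 3), (6552, 6)], []), ([], [(7392, 2), (7896, 3), (7560,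 6)], []), ([(10416, 2), (10920, 3), (10584, 6)], [], []), ([], [(12264, 1), (12936, 3), (12600, 4), (12432, 5)], []), ([(15120, 1), (15456, 4), (15288, 5)], [(13440, 3)], []), ([], [(12600, 1), (12432, 2), (13104, 3), (12768, 7)], []), ([(15456, 1), (15288, 2), (15624, 7)], [(13608, 3)], [])]⟩

/-- group -/
noncomputable def tab79bg37 : Grp :=
  ⟨8, 2, 21504, 33600, [(5880, 0), (6048, 0), (6216, 0), (6384, 0), (6552, 0), (6720, 0), (6888, 0), (7056, 0), (7224, 0), (7392, 0), (7560, 0), (0, 1), (672, 2), (840, 0), (1008, 0), (1176, 0), (2688, 1), (5040, 0), (5208, 0), (6384, 1), (8904, 0), (6552, 1), (9072, 0)],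
   [(5712, 0), (5880, 0), (6048, 0), (6216, 0), (6384, 0), (6552, 0), (6720, 0), (6888, 0), (7056, 0), (7224, 0), (7392, 0), (0, 1), (3528, 0), (3696, 0), (3864, 0), (4032, 0), (6048, 1), (9576, 0), (9744, 0), (11760, 1), (14616, 0), (11928, 1), (14784, 0)],
   [([], [(8904, 6)], []), ([], [(9240, 6)], []), ([], [(9576, 6)], []), ([], [(9912, 6)], []), ([], [(10248, 6)], []), ([(7560, 6)], [], []), ([(7728, 6)], [], []), ([(7896, 6)], [], []), ([(8064, 6)], [], []), ([(8232, 6)], [], []), ([(8400, 6)], [], []), ([], [(336, 6), (168, 4)], []), ([], [(1176, 6), (1008, 4)], []), ([(4704, 6), (4200, 4)], [], []), ([(4872, 6), (4368, 4)], [], []), ([(5040, 6), (4536, 4)], [], []), ([], [(6216, 1), (6552, 6), (6384, 5)], []), ([(9912, 1), (10248, 5)], [(7560, 6)], []), ([(10080, 1), (10584, 6), (10416, 5)], [], []), ([], [(12432, 6), (12096, 8)], []), ([(15288, 6), (14952, 8)], [], []), ([], [(12096, 2), (12600, 6), (12264, 6)], []), ([(14952, 2), (15456, 6), (15120,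 6)], [], [])]⟩

/-- group -/
noncomputable def tab79bg38 : Grp :=
  ⟨8, 3, 23856, 33432, [(0, 0), (168, 0), (336, 0), (504, 0), (672, 0), (840, 0), (1008, 0), (168, 1), (2352, 0), (2520, 0), (3864, 1), (6384, 0)],
   [(0, 0), (168, 0), (336, 0), (504, 0), (672, 0), (840, 0), (1008, 0), (6048, 1), (9408, 0), (9576, 0), (11760, 1), (14616, 0)],
   [([], [(3024, 9)], []), ([], [(3696, 9)], []), ([(1176, 9)], [], []), ([(1344, 9)], [], []), ([(1512, 9)], [], []), ([(1680, 9)], [], []), ([(1848, 9)], [], []), ([], [(6384, 9), (6216, 4)], []), ([(10080, 9), (9744, 4)], [], []), ([(10248, 9), (9912, 4)], [], []), ([], [(11928, 1), (12264, 9), (12096, 5)], []), ([(14784, 1), (15120, 9), (14952, 5)], [], [])]⟩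

/-- group -/
noncomputable def tab79bg39 : Grp :=
  ⟨8, 4, 21336, 33432, [(0, 2), (168, 0), (336, 0), (504, 0), (672, 0), (6216, 1), (8736, 0)],
   [(0, 1), (3024, 0), (3192, 0), (3360, 0), (3528, 0), (11592, 1), (14448, 0)],
   [([], [(168, 12)], []), ([(3696, 12)], [], []), ([(3864, 12)], [], []), ([(4032, 12)], [], []), ([(4200, 12)], [], []), ([], [(11928, 12), (11760, 4)], []), ([(14784, 12), (14616, 4)], [], [])]⟩

/-- group -/
noncomputable def tab79bg40 : Grp :=
  ⟨8, 5, 23856, 39312, [(0, 1), (2016, 0), (2184, 0)],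
   [(0, 1), (3192, 0), (3360, 0)],
   [([], [(168, 15)], []), ([(3528, 15)], [], []), ([(3696, 15)], [], [])]⟩

/-- group -/
noncomputable def tab79bg41 : Grp :=
  ⟨8, 6, 27384, 44856, [(0, 1), (2520, 0)],
   [(0, 1), (2856, 0)],
   [([], [(168, 18)], []), ([(3024, 18)], [], [])]⟩

/-- group -/
noncomputable def tab79bg42 : Grp :=
  ⟨9, 0, 34272, 50064, [(13440, 1), (13608, 1), (13776, 1), (13944, 1), (14112, 1), (14280, 1), (14448, 1), (14616, 1), (14784, 1), (14952, 1), (15120, 1), (12936, 0), (13104, 0), (13272, 0), (8400, 1), (8736, 1), (9072, 1), (9408, 1), (9744, 1), (9912, 1), (10080, 1), (10248, 1), (10416, 1), (7896, 0), (8064, 0), (2520, 1), (3192, 1), (3696, 1), (4200, 1), (4536, 1), (1680, 0), (1848, 0), (2688, 1), (3360, 1), (3864, 1), (4368, 1), (4704, 1), (4872, 1), (2016, 0), (0, 1), (840, 1), (1344, 1), (1680, 1), (4872, 0), (168, 1), (1008, 1), (1512, 1), (1848, 1), (2016, 1), (6216, 1), (7224, 1), (10248, 0), (6384, 1), (7392, 1), (10416,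 0), (6552, 1), (7560, 1), (7896, 1), (12432, 1), (12936, 1), (12600, 1), (13104, 1), (12768, 1), (13272, 1)],
   [(17136, 1), (17472, 1), (17808, 1), (18144, 1), (18480, 1), (18816, 1), (19152, 1), (15792, 0), (15960, 0), (16128, 0), (16296, 0), (16464, 0), (16632, 0), (16800, 0), (9240, 1), (9912, 1), (10584, 1), (11088, 1), (11592, 1), (12096, 1), (7392, 0), (7560, 0), (7728, 0), (7896, 0), (8064, 0), (0, 1), (1008, 1), (1848, 1), (2520, 2), (2688, 0), (2856, 0), (3024, 0), (168, 1), (1176, 1), (2016, 1), (2688, 1), (3192, 2), (3360, 0), (3528, 0), (5040, 1), (6384, 1), (12096, 0), (12264, 0), (12432, 0), (5208, 1), (6552, 1), (7392, 1), (12600, 0), (12768, 0), (14616, 1), (15792, 1), (19488, 0), (14784, 1), (15960, 1), (19656, 0), (14952, 1), (16128, 1), (19824, 0), (22344, 1), (26712, 0), (22512, 1), (26880, 0), (22680, 1), (27048, 0)],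
   [([], [(17304, 4)], []), ([], [(17640, 4)], []), ([], [(17976, 4)], []), ([], [(18312, 4)], []), ([], [(18648, 4)], []), ([], [(18984, 4)], []), ([], [(19320, 4)], []), ([], [(19488, 4)], []), ([], [(19656, 4)], []), ([], [(19824, 4)], []), ([], [(19992, 4)], []), ([], [(20160, 4)], []), ([], [(20328, 4)], []), ([(16968, 4)], [], []), ([], [(9408, 1), (9576, 5)], []), ([], [(10080, 1), (10248, 5)], []), ([], [(10752, 1), (10920, 5)], []), ([], [(11256, 1), (11424, 5)], []), ([], [(11760, 1), (11928, 5)], []), ([], [(12264, 1), (12432, 5)], []), ([], [(12600, 1), (12768, 5)], []), ([(8232, 1)], [(12936, 5)], []), ([(8400, 1)], [(13104, 5)], []), ([(8568, 1)], [(13272, 5)], []), ([(8736, 1), (8904, 5)], [], []), ([], [(336, 8)], []), ([], [(1344, 8)], []), ([], [(2184, 8)], []), ([], [(2856, 8)], []), ([], [(3360, 8)], []), ([], [], [(3696, 8)]), ([(3864, 8)], [], []), ([], [(336, 2), (504, 6)], []), ([], [(1344, 2), (1512, 6)], []), ([], [(2184, 2), (2352,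 6)], []), ([], [(2856, 2), (3024, 6)], []), ([], [(3360, 2), (3528, 6)], []), ([], [(3864, 6)], [(3696, 2)]), ([(3864, 2)], [], [(4032, 6)]), ([], [(5376, 1), (5712, 4), (5544, 5)], []), ([], [(6720, 1), (7056, 4), (6888, 5)], []), ([], [(7560, 1), (7896, 4), (7728, 5)], []), ([], [(8232, 1), (8568, 4), (8400, 5)], []), ([(12936, 1), (13272, 4), (13104, 5)], [], []), ([], [(5712, 1), (5544, 2), (5880, 7)], []), ([], [(7056, 1), (6888, 2), (7224, 7)], []), ([], [(7896, 1), (7728, 2), (8064, 7)], []), ([], [(8568, 1), (8400, 2), (8736, 7)], []), ([(13272, 1), (13104, 2)], [(8904, 7)], []), ([], [(15288, 12)], []), ([], [(16464, 12)], []), ([(20160, 12)], [], []), ([], [(15288, 2), (15624, 4), (15456, 6)], []), ([], [(16464, 2), (16800, 4), (16632, 6)], []), ([(20160, 2), (20328, 6)], [(16968, 4)], []), ([], [(15288, 2), (15624, 10)], []), ([], [(16464, 2), (16800, 10)], []), ([(20160, 2)], [(16968, 10)], []), ([], [(22848, 1), (23184, 8), (23016, 5)], []), ([],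 [(23856, 1), (24192, 8), (24024, 5)], []), ([], [(23184, 1), (23016, 2), (23520, 4), (23352, 7)], []), ([], [(24192, 1), (24024, 2), (24528, 4), (24360, 7)], []), ([], [(23184, 2), (23016, 1), (23688, 5), (23520, 6)], []), ([], [(24192, 2), (24024, 1), (24696, 5), (24528, 6)], [])]⟩

/-- group -/
noncomputable def tab79bg43 : Grp :=
  ⟨9, 1, 33936, 49896, [(8568, 1), (8904, 1), (9240, 1), (9576, 1), (9912, 1), (7224, 0), (7392, 0), (7560, 0), (7728, 0), (7896, 0), (8064, 0), (2688, 1), (3360, 1), (3864, 1), (4368, 1), (1512, 0), (1680, 0), (1848, 0), (0, 1), (840, 1), (4368, 0), (4536, 0), (4704, 0), (168, 1), (1008, 1), (1512, 1), (4872, 0), (5040, 0), (6216, 1), (7224, 1), (10248, 0), (6384, 1), (7392, 1), (10416, 0), (12096, 1), (14952, 0), (12264, 1), (15120, 0), (12432, 1), (15288, 0)],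
   [(9240, 1), (9912, 1), (10584, 1), (6216, 0), (6384, 0), (6552, 0), (6720, 0), (6888, 0), (7056, 0), (7224, 0), (7392, 0), (0, 1), (1008, 1), (1848, 2), (2016, 0), (2184, 0), (2352, 0), (2520, 0), (4872, 1), (6216, 1), (11256, 0), (11424, 0), (11592, 0), (5040, 1), (6384, 1), (11760, 0), (11928, 0), (12096, 0), (14448, 1), (18984, 0), (19152, 0), (14616, 1), (19320, 0), (19488, 0), (21840, 1), (26208, 0), (22008, 1), (26376, 0), (22176, 1), (26544, 0)],
   [([], [(9576, 3), (9408, 4)], []), ([], [(10248, 3), (10080, 4)], []), ([], [(10920, 3), (10752, 4)], []), ([], [(11424, 3), (11256, 4)], []), ([], [(11928, 3), (11760, 4)], []), ([], [(12432, 3), (12264, 4)], []), ([(7560, 4)], [(12768, 3)], []), ([(8400, 3), (7728, 4)], [], []), ([(8568, 3), (7896, 4)], [], []), ([(8736, 3), (8064, 4)], [], []), ([(8904, 3), (8232, 4)], [], []), ([], [(168, 1), (504, 3), (336, 5)], []), ([], [(1176, 1), (1512, 3), (1344, 5)], []), ([], [(2016, 1), (2352, 3), (2184, 5)],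 []), ([], [(3024, 3), (2856, 5)], [(2688, 1)]), ([(2856, 1)], [(3528, 3)], [(3360, 5)]), ([(3024, 1), (3528, 5)], [], [(3864, 3)]), ([(3192, 1), (4032, 3), (3696, 5)], [], []), ([], [(5544, 3), (5208, 8)], []), ([], [(6888, 3), (6552, 8)], []), ([(12264, 8)], [(7728, 3)], []), ([(12432, 8)], [(8400, 3)], []), ([(13104, 3), (12600, 8)], [], []), ([], [(5208, 2), (5712, 3), (5376, 6)], []), ([], [(6552, 2), (7056, 3), (6720, 6)], []), ([(12264, 2)], [(7896, 3), (7560, 6)], []), ([(12432, 2), (12768, 6)], [(8568, 3)], []), ([(12600, 2), (13272, 3), (12936, 6)], [], []), ([], [(14784, 1), (15456, 3), (15120, 4), (14952, 5)], []), ([], [(15960, 1), (16632, 3), (16296, 4), (16128, 5)], []), ([(19656, 1), (20328, 3), (19992, 4), (19824, 5)], [], []), ([], [(15120, 1), (14952, 2), (15624, 3), (15288, 7)], []), ([], [(16296, 1), (16128, 2), (16800, 3), (16464, 7)], []), ([(19992, 1), (19824, 2), (20496, 3), (20160, 7)], [], []), ([], [(23016, 3), (22512, 12)], []), ([(26880,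 12)], [(24024, 3)], []), ([], [(22512, 2), (23184, 3), (22848, 4), (22680, 6)], []), ([(26880, 2), (27216, 4), (27048, 6)], [(24192, 3)], []), ([], [(22512, 2), (23352, 3), (22848, 10)], []), ([(26880, 2), (27216, 10)], [(24360, 3)], [])]⟩

/-- group -/
noncomputable def tab79bg44 : Grp :=
  ⟨9, 2, 33768, 49728, [(11088, 0), (11256, 0), (11424, 0), (11592, 0), (11760, 0), (11928, 0), (12096, 0), (12264, 0), (12432, 0), (12600, 0), (12768, 0), (12936, 0), (13104, 0), (13272, 0), (2688, 1), (3360, 1), (840, 0), (1008, 0), (1176, 0), (1344, 0), (1512, 0), (0, 1), (840, 1), (4032, 0), (4200, 0), (4368, 0), (6048, 1), (9744, 0), (9912, 0), (6216, 1), (10080, 0), (10248, 0), (11928, 1), (14784, 0), (12096, 1), (14952, 0)],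
   [(13776, 0), (13944, 0), (14112, 0), (14280, 0), (14448, 0), (14616, 0), (14784, 0), (14952, 0), (15120, 0), (15288, 0), (15456, 0), (15624, 0), (15792, 0), (15960, 0), (0, 1), (1008, 2), (1176, 0), (1344, 0), (1512, 0), (1680, 0), (1848, 0), (4872, 1), (10752, 0), (10920, 0), (11088, 0), (11256, 0), (14280, 1), (18480, 0), (18648, 0), (14448, 1), (18816, 0), (18984, 0), (21672, 1), (26040, 0), (21840, 1), (26208, 0)],
   [([], [(17472, 6)], []), ([], [(17808, 6)], []), ([], [(18144, 6)], []), ([], [(18480, 6)], []), ([], [(18816, 6)], []), ([], [(19152, 6)], []), ([], [(19488, 6)], []), ([(16128, 6)], [], []), ([(16296, 6)], [], []), ([(16464, 6)], [], []), ([(16632, 6)], [], []), ([(16800, 6)], [], []), ([(16968, 6)], [], []), ([(17136, 6)], [], []), ([], [(336, 6), (168, 4)], []), ([], [(1344, 6), (1176, 4)], []), ([], [(2184, 6)], [(2016, 4)]), ([(2184, 4)], [], [(2856, 6)]), ([(3024, 6), (2352, 4)], [], []), ([(3192, 6), (2520, 4)], [], []), ([(3360,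 6), (2688, 4)], [], []), ([], [(5040, 1), (5376, 6), (5208, 5)], []), ([], [(6384, 1), (6720, 6), (6552, 5)], []), ([(11424, 1), (12432, 6), (11928, 5)], [], []), ([(11592, 1), (12600, 6), (12096, 5)], [], []), ([(11760, 1), (12768, 6), (12264, 5)], [], []), ([], [(14952, 6), (14616, 8)], []), ([(19152, 8)], [(16128, 6)], []), ([(19824, 6), (19320, 8)], [], []), ([], [(14616, 2), (15120, 6), (14784, 6)], []), ([(19152, 2), (19488, 6)], [(16296, 6)], []), ([(19320, 2), (19992, 6), (19656, 6)], [], []), ([], [(22008, 1), (22680, 6), (22344, 4), (22176, 5)], []), ([(26376, 1), (27048, 6), (26712, 4), (26544, 5)], [], []), ([], [(22344, 1), (22176, 2), (22848, 6), (22512, 7)], []), ([(26712, 1), (26544, 2), (27216, 6), (26880, 7)], [], [])]⟩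

/-- group -/
noncomputable def tab79bg45 : Grp :=
  ⟨9, 3, 33600, 54264, [(5712, 0), (5880, 0), (6048, 0), (6216, 0), (6384, 0), (6552, 0), (6720, 0), (6888, 0), (7056, 0), (7224, 0), (7392, 0), (0, 1), (3528, 0), (3696, 0), (3864, 0), (4032, 0), (6048, 1), (9576, 0), (9744, 0), (11760, 1), (14616, 0), (11928, 1), (14784, 0)],
   [(0, 0), (168, 0), (336, 0), (504, 0), (672, 0), (840, 0), (1008, 0), (1176, 0), (1344, 0), (1512, 0), (1680, 0), (168, 1), (5544, 0), (5712, 0), (5880, 0), (6048, 0), (9576, 1), (13608, 0), (13776, 0), (16800, 1), (21168, 0), (16968, 1), (21336, 0)],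
   [([], [(4872, 9)], []), ([], [(5544, 9)], []), ([], [(6216, 9)], []), ([(1848, 9)], [], []), ([(2016, 9)], [], []), ([(2184, 9)], [], []), ([(2352, 9)], [], []), ([(2520, 9)], [], []), ([(2688, 9)], [], []), ([(2856, 9)], [], []), ([(3024, 9)], [], []), ([], [(504, 9), (336, 4)], []), ([(6216, 4)], [(1848, 9)], []), ([(6888, 9), (6384, 4)], [], []), ([(7056, 9), (6552, 4)], [], []), ([(7224, 9), (6720, 4)], [], []), ([], [(9744, 1), (10080, 9), (9912, 5)], []), ([(13944, 1), (14616, 9), (14280, 5)], [], []), ([(14112, 1), (14784, 9), (14448, 5)], [], []), ([], [(17472, 9), (17136, 8)], []), ([(21840, 9), (21504, 8)], [], []), ([], [(17136, 2), (17640, 9), (17304, 6)], []), ([(21504, 2), (22008, 9), (21672, 6)], [], [])]⟩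

/-- group -/
noncomputable def tab79bg46 : Grp :=
  ⟨9, 4, 33432, 49560, [(0, 0), (168, 0), (336, 0), (504, 0), (672, 0), (840, 0), (1008, 0), (6048, 1), (9408, 0), (9576, 0), (11760, 1), (14616, 0)],
   [(0, 2), (168, 0), (336, 0), (504, 0), (672, 0), (840, 0), (1008, 0), (14112, 1), (17976, 0), (18144, 0), (21336, 1), (25704, 0)],
   [([], [(168, 12)], []), ([], [], [(1176, 12)]), ([(1344, 12)], [], []), ([(1512, 12)], [], []), ([(1680, 12)], [], []), ([(1848, 12)], [], []), ([(2016, 12)], [], []), ([], [(14448, 12), (14280, 4)], []), ([(18648, 12), (18312, 4)], [], []), ([(18816, 12), (18480, 4)], [], []), ([], [(21504, 1), (21840, 12), (21672, 5)], []), ([(25872, 1), (26208, 12), (26040, 5)], [], [])]⟩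

/-- group -/
noncomputable def tab79bg47 : Grp :=
  ⟨9, 5, 33432, 54264, [(0, 1), (3024, 0), (3192, 0), (3360, 0), (3528, 0), (11592, 1), (14448, 0)],
   [(0, 1), (4872, 0), (5040, 0), (5208, 0), (5376, 0), (16464, 1), (20832, 0)],
   [([], [(168, 15)], []), ([(5544, 15)], [], []), ([(5712, 15)], [], []), ([(5880, 15)], [], []), ([(6048, 15)], [], []), ([], [(16800, 15), (16632, 4)], []), ([(21168, 15), (21000, 4)], [], [])]⟩

/-- group -/
noncomputable def tab79bg48 : Grp :=
  ⟨9, 6, 39312, 63504, [(0, 1), (3192, 0), (3360, 0)],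
   [(0, 1), (3696, 0), (3864, 0)],
   [([], [(168, 18)], []), ([(4032, 18)], [], []), ([(4200, 18)], [], [])]⟩

/-- group -/
noncomputable def tab79bg49 : Grp :=
  ⟨9, 7, 44856, 70560, [(0, 1), (2856, 0)],
   [(0, 1), (4368, 0)],
   [([], [(168, 21)], []), ([(4536, 21)], [], [])]⟩

/-- group -/
noncomputable def tab79bg50 : Grp :=
  ⟨10, 0, 50400, 78120, [(24528, 1), (24696, 1), (24864, 1), (25032, 1), (25200, 1), (25368, 1), (25536, 1), (25704, 1), (25872, 1), (26040, 1), (26208, 1), (26376, 1), (26544, 1), (26712, 1), (23520, 0), (23688, 0), (23856, 0), (24024, 0), (24192, 0), (16968, 1), (17304, 1), (17640, 1), (17976, 1), (18312, 1), (18648, 1), (18984, 1), (19152, 1), (19320, 1), (19488, 1), (19656, 1), (19824, 1), (19992, 1), (9072, 1), (9744, 1), (10416, 1), (10920, 1), (11424, 1), (11928, 1), (12264, 1), (7896, 0), (8064, 0), (8232, 0), (8400, 0), (9240, 1), (9912, 1), (10584, 1), (11088, 1), (11592, 1), (12096, 1), (12432, 1), (12600, 1), (12768, 1),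 (12936, 1), (8568, 0), (0, 1), (1008, 1), (1848, 1), (2520, 1), (3024, 1), (3360, 2), (3528, 0), (168, 1), (1176, 1), (2016, 1), (2688, 1), (3192, 1), (3528, 1), (3696, 2), (5040, 1), (6384, 1), (7224, 1), (7896, 1), (12600, 0), (5208, 1), (6552, 1), (7392, 1), (8064, 1), (5376, 1), (6720, 1), (7560, 1), (8232, 1), (14952, 1), (16128, 1), (19824, 0), (15120, 1), (16296, 1), (19992, 0), (15288, 1), (16464, 1)],
   [(28728, 1), (29064, 1), (29400, 1), (29736, 1), (30072, 1), (30408, 1), (30744, 1), (31080, 1), (31416, 1), (31752, 1), (32088, 1), (27048, 0), (27216, 0), (27384, 0), (27552, 0), (27720, 0), (27888, 0), (28056, 0), (28224, 0), (17472, 1), (18144, 1), (18816, 1), (19488, 1), (20160, 1), (20664, 1), (21168, 1), (21672, 1), (22176, 1), (15960, 0), (16128, 0), (16296, 0), (16464, 0), (6552, 1), (7560, 1), (8400, 1), (9240, 1), (9912, 1), (3696, 0), (3864, 0), (4032, 0), (4200, 0), (4368, 0), (4536, 0), (6720, 1), (7728, 1), (8568, 1), (9408, 1), (10080,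 1), (10584, 1), (4704, 0), (4872, 0), (5040, 0), (5208, 0), (5376, 0), (0, 1), (1512, 1), (2688, 1), (3696, 1), (10584, 0), (10752, 0), (10920, 0), (168, 1), (1680, 1), (2856, 1), (3864, 1), (4704, 1), (11088, 0), (11256, 0), (13272, 1), (14784, 1), (21672, 0), (21840, 0), (22008, 0), (13440, 1), (14952, 1), (22176, 0), (22344, 0), (13608, 1), (15120, 1), (15960, 1), (22680, 0), (25536, 1), (27048, 1), (32424, 0), (25704, 1), (27216, 1), (32592, 0), (25872, 1), (27384, 1)],
   [([], [(28896, 4)], []), ([], [(29232, 4)], []), ([], [(29568, 4)], []), ([], [(29904, 4)], []), ([], [(30240, 4)], []), ([], [(30576, 4)], []), ([], [(30912, 4)], []), ([], [(31248, 4)], []), ([], [(31584, 4)], []), ([], [(31920, 4)], []), ([], [(32256, 4)], []), ([], [(32424, 4)], []), ([], [(32592, 4)], []), ([], [(32760, 4)], []), ([], [(32928, 4)], []), ([], [(33096, 4)], []), ([], [(33264, 4)], []), ([], [(33432, 4)], []), ([(28560, 4)], [], []), ([], [(17640, 1), (17808, 5)], []),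 ([], [(18312, 1), (18480, 5)], []), ([], [(18984, 1), (19152, 5)], []), ([], [(19656, 1), (19824, 5)], []), ([], [(20328, 1), (20496, 5)], []), ([], [(20832, 1), (21000, 5)], []), ([], [(21336, 1), (21504, 5)], []), ([], [(21840, 1), (22008, 5)], []), ([], [(22344, 1), (22512, 5)], []), ([], [(22680, 1), (22848, 5)], []), ([], [(23016, 1), (23184, 5)], []), ([(16800, 1)], [(23352, 5)], []), ([(16968, 1)], [(23520, 5)], []), ([], [(6888, 8)], []), ([], [(7896, 8)], []), ([], [(8736, 8)], []), ([], [(9576, 8)], []), ([], [(10248, 8)], []), ([], [(10752, 8)], []), ([], [(11088, 8)], []), ([], [(11424, 8)], []), ([(5544, 8)], [], []), ([(5712, 8)], [], []), ([(5880, 8)], [], []), ([], [(6888, 2), (7056, 6)], []), ([], [(7896, 2), (8064, 6)], []), ([], [(8736, 2), (8904, 6)], []), ([], [(9576, 2), (9744, 6)], []), ([], [(10248, 2), (10416, 6)], []), ([], [(10752, 2), (10920, 6)], []), ([], [(11088, 2), (11256, 6)], []), ([], [(11424, 2), (11592, 6)], []), ([(5544,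 2)], [(11760, 6)], []), ([(5712, 2)], [(11928, 6)], []), ([(5880, 2), (6048, 6)], [], []), ([], [(336, 1), (672, 4), (504, 5)], []), ([], [(1848, 1), (2184, 4), (2016, 5)], []), ([], [(3024, 1), (3360, 4), (3192, 5)], []), ([], [(4032, 1), (4368, 4), (4200, 5)], []), ([], [(4872, 1), (5208, 4), (5040, 5)], []), ([(11424, 1)], [(5712, 4), (5544, 5)], []), ([(11592, 1), (11928, 4), (11760, 5)], [], []), ([], [(672, 1), (504, 2), (840, 7)], []), ([], [(2184, 1), (2016, 2), (2352, 7)], []), ([], [(3360, 1), (3192, 2), (3528, 7)], []), ([], [(4368, 1), (4200, 2), (4536, 7)], []), ([], [(5208, 1), (5040, 2), (5376, 7)], []), ([], [(5712, 1), (5544, 2), (5880, 7)], []), ([(11928, 1), (11760, 2)], [(6048, 7)], []), ([], [(13944, 12)], []), ([], [(15456, 12)], []), ([], [(16296, 12)], []), ([], [(16800, 12)], []), ([(23352, 12)], [], []), ([], [(13944, 2), (14280, 4), (14112, 6)], []), ([], [(15456, 2), (15792, 4), (15624, 6)], []), ([], [(16296, 2), (16632, 4), (16464,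 6)], []), ([], [(16800, 2), (17136, 4), (16968, 6)], []), ([], [(13944, 2), (14280, 10)], []), ([], [(15456, 2), (15792, 10)], []), ([], [(16296, 2), (16632, 10)], []), ([], [(16800, 2), (17136, 10)], []), ([], [(26040, 1), (26376, 8), (26208, 5)], []), ([], [(27552, 1), (27888, 8), (27720, 5)], []), ([(32928, 1), (33264, 8), (33096, 5)], [], []), ([], [(26376, 1), (26208, 2), (26712, 4), (26544, 7)], []), ([], [(27888, 1), (27720, 2), (28224, 4), (28056, 7)], []), ([(33264, 1), (33096, 2), (33432, 7)], [(28560, 4)], []), ([], [(26376, 2), (26208, 1), (26880, 5), (26712, 6)], []), ([], [(27888, 2), (27720, 1), (28392, 5), (28224, 6)], [])]⟩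

/-- group -/
noncomputable def tab79bg51 : Grp :=
  ⟨10, 1, 50064, 77784, [(17136, 1), (17472, 1), (17808, 1), (18144, 1), (18480, 1), (18816, 1), (19152, 1), (15792, 0), (15960, 0), (16128, 0), (16296, 0), (16464, 0), (16632, 0), (16800, 0), (9240, 1), (9912, 1), (10584, 1), (11088, 1), (11592, 1), (12096, 1), (7392, 0), (7560, 0), (7728, 0), (7896, 0), (8064, 0), (0, 1), (1008, 1), (1848, 1), (2520, 2), (2688, 0), (2856, 0), (3024, 0), (168, 1), (1176, 1), (2016, 1), (2688, 1), (3192, 2), (3360, 0), (3528, 0), (5040, 1), (6384, 1), (12096, 0), (12264, 0), (12432, 0), (5208, 1), (6552, 1), (7392, 1), (12600, 0), (12768, 0), (14616, 1), (15792, 1), (19488, 0), (14784, 1), (15960, 1), (19656, 0), (14952, 1), (16128, 1), (19824, 0)],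
   [(17640, 1), (18312, 1), (18984, 1), (19656, 1), (20328, 1), (14784, 0), (14952, 0), (15120, 0), (15288, 0), (15456, 0), (15624, 0), (15792, 0), (15960, 0), (16128, 0), (6720, 1), (7728, 1), (8568, 1), (9408, 1), (2856, 0), (3024, 0), (3192, 0), (3360, 0), (3528, 0), (3696, 0), (3864, 0), (0, 1), (1512, 1), (9408, 0), (9576, 0), (9744, 0), (9912, 0), (10080, 0), (168, 1), (1680, 1), (2856, 1), (10248, 0), (10416, 0), (10584, 0), (10752, 0), (13272, 1), (14784, 1), (21000, 0), (21168, 0), (21336, 0), (13440, 1), (14952, 1), (21504, 0), (21672, 0), (21840, 0), (25200, 1), (31416, 0), (31584, 0), (25368, 1), (31752, 0), (31920, 0), (25536, 1), (32088, 0), (32256, 0)],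
   [([], [(17976, 3), (17808, 4)], []), ([], [(18648, 3), (18480, 4)], []), ([], [(19320, 3), (19152, 4)], []), ([], [(19992, 3), (19824, 4)], []), ([], [(20664, 3), (20496, 4)], []), ([], [(21168, 3), (21000, 4)], []), ([], [(21672, 3), (21504, 4)], []), ([], [(22176, 3), (22008, 4)], []), ([], [(22680, 3), (22512, 4)], []), ([(16296, 4)], [(23016, 3)], []), ([(16464, 4)], [(23352, 3)], []), ([(17136, 3), (16632, 4)], [], []), ([(17304, 3), (16800, 4)], [], []), ([(17472, 3), (16968, 4)], [], []), ([], [(6888, 1), (7224, 3), (7056, 5)], []), ([], [(7896, 1), (8232, 3), (8064, 5)], []), ([], [(8736, 1), (9072, 3), (8904, 5)], []), ([], [(9576, 1), (9912, 3), (9744, 5)], []), ([], [(10248, 1), (10584, 3), (10416, 5)], []), ([(4032, 1)], [(11088, 3), (10920, 5)], []), ([(4200, 1), (5040, 5)], [(11424, 3)], []), ([(4368, 1), (5208, 5)], [(11760, 3)], []), ([(4536, 1), (5880, 3), (5376, 5)], [], []), ([(4704, 1), (6048, 3), (5544, 5)], [], []), ([(4872, 1), (6216,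 3), (5712, 5)], [], []), ([], [(672, 3), (336, 8)], []), ([], [(2184, 3), (1848, 8)], []), ([], [(3360, 3), (3024, 8)], []), ([], [(4368, 3), (4032, 8)], []), ([(10920, 8)], [(5208, 3)], []), ([(11760, 3), (11088, 8)], [], []), ([(11928, 3), (11256, 8)], [], []), ([], [(336, 2), (840, 3), (504, 6)], []), ([], [(1848, 2), (2352, 3), (2016, 6)], []), ([], [(3024, 2), (3528, 3), (3192, 6)], []), ([], [(4032, 2), (4536, 3), (4200, 6)], []), ([(10920, 2)], [(5376, 3), (5040, 6)], []), ([(11088, 2), (11424, 6)], [(5880, 3)], []), ([(11256, 2), (12096, 3), (11592, 6)], [], []), ([], [(13608, 1), (14280, 3), (13944, 4), (13776, 5)], []), ([], [(15120, 1), (15792, 3), (15456, 4), (15288, 5)], []), ([(22008, 1), (22512, 5)], [(16632, 3), (16296, 4)], []), ([(22176, 1), (23016, 4), (22680, 5)], [(17136, 3)], []), ([(22344, 1), (23688, 3), (23184, 4), (22848, 5)], [], []), ([], [(13944, 1), (13776, 2), (14448, 3), (14112, 7)], []), ([], [(15456, 1), (15288, 2), (15960,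 3), (15624, 7)], []), ([(22512, 2)], [(16296, 1), (16800, 3), (16464, 7)], []), ([(23016, 1), (22680, 2), (23352, 7)], [(17304, 3)], []), ([(23184, 1), (22848, 2), (23856, 3), (23520, 7)], [], []), ([], [(26376, 3), (25872, 12)], []), ([], [(27888, 3), (27384, 12)], []), ([(33264, 3), (32760, 12)], [], []), ([], [(25872, 2), (26544, 3), (26208, 4), (26040, 6)], []), ([], [(27384, 2), (28056, 3), (27720, 4), (27552, 6)], []), ([(32760, 2), (33432, 3), (33096, 4), (32928, 6)], [], []), ([], [(25872, 2), (26712, 3), (26208, 10)], []), ([], [(27384, 2), (28224, 3), (27720, 10)], []), ([(32760, 2), (33600, 3), (33096, 10)], [], [])]⟩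

/-- group -/
noncomputable def tab79bg52 : Grp :=
  ⟨10, 2, 49896, 77616, [(20664, 0), (20832, 0), (21000, 0), (21168, 0), (21336, 0), (21504, 0), (21672, 0), (21840, 0), (22008, 0), (22176, 0), (22344, 0), (22512, 0), (22680, 0), (22848, 0), (23016, 0), (23184, 0), (23352, 0), (23520, 0), (23688, 0), (23856, 0), (9240, 1), (9912, 1), (10584, 1), (6216, 0), (6384, 0), (6552, 0), (6720, 0), (6888, 0), (7056, 0), (7224, 0), (7392, 0), (0, 1), (1008, 1), (1848, 2), (2016, 0), (2184, 0), (2352, 0), (2520, 0), (4872, 1), (6216, 1), (11256, 0), (11424, 0), (11592, 0), (5040, 1), (6384, 1), (11760, 0), (11928, 0), (12096, 0), (14448, 1), (18984, 0), (19152, 0), (14616, 1), (19320, 0), (19488, 0)],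
   [(24192, 0), (24360, 0), (24528, 0), (24696, 0), (24864, 0), (25032, 0), (25200, 0), (25368, 0), (25536, 0), (25704, 0), (25872, 0), (26040, 0), (26208, 0), (26376, 0), (26544, 0), (26712, 0), (26880, 0), (27048, 0), (27216, 0), (27384, 0), (6720, 1), (7728, 1), (1512, 0), (1680, 0), (1848, 0), (2016, 0), (2184, 0), (2352, 0), (2520, 0), (2688, 0), (2856, 0), (0, 1), (1512, 1), (8736, 0), (8904, 0), (9072, 0), (9240, 0), (9408, 0), (13104, 1), (19824, 0), (19992, 0), (20160, 0), (20328, 0), (13272, 1), (20496, 0), (20664, 0), (20832, 0), (21000, 0), (25032, 1), (30912, 0), (31080, 0), (25200, 1), (31248, 0), (31416, 0)],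
   [([], [(29232, 6)], []), ([], [(29568, 6)], []), ([], [(29904, 6)], []), ([], [(30240, 6)], []), ([], [(30576, 6)], []), ([], [(30912, 6)], []), ([], [(31248, 6)], []), ([], [(31584, 6)], []), ([], [(31920, 6)], []), ([], [(32256, 6)], []), ([], [(32592, 6)], []), ([(27552, 6)], [], []), ([(27720, 6)], [], []), ([(27888, 6)], [], []), ([(28056, 6)], [], []), ([(28224, 6)], [], []), ([(28392, 6)], [], []), ([(28560, 6)], [], []), ([(28728, 6)], [], []), ([(28896, 6)], [], []), ([], [(7056, 6), (6888, 4)], []), ([], [(8064, 6), (7896, 4)], []), ([], [(8904, 6), (8736, 4)], []), ([], [(9744, 6), (9576, 4)], []), ([(3024, 4)], [(10416, 6)], []), ([(4200, 6), (3192, 4)], [], []), ([(4368, 6), (3360, 4)], [], []), ([(4536, 6), (3528, 4)], [], []), ([(4704, 6), (3696, 4)], [], []), ([(4872, 6), (3864, 4)], [], []), ([(5040, 6), (4032, 4)], [], []), ([], [(168, 1), (504, 6), (336, 5)], []), ([], [(1680, 1), (2016, 6), (1848, 5)], []), ([(9576, 1)], [(3192, 6), (3024,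 5)], []), ([(9744, 1), (10416, 5)], [(4200, 6)], []), ([(9912, 1), (11088, 6), (10584, 5)], [], []), ([(10080, 1), (11256, 6), (10752, 5)], [], []), ([(10248, 1), (11424, 6), (10920, 5)], [], []), ([], [(13776, 6), (13440, 8)], []), ([], [(15288, 6), (14952, 8)], []), ([(22176, 6), (21168, 8)], [], []), ([(22344, 6), (21336, 8)], [], []), ([(22512, 6), (21504, 8)], [], []), ([], [(13440, 2), (13944, 6), (13608, 6)], []), ([], [(14952, 2), (15456, 6), (15120, 6)], []), ([(21168, 2), (22680, 6), (21672, 6)], [], []), ([(21336, 2), (22848, 6), (21840, 6)], [], []), ([(21504, 2), (23016, 6), (22008, 6)], [], []), ([], [(25368, 1), (26040, 6), (25704, 4), (25536, 5)], []), ([(31584, 1), (32256, 4), (31920, 5)], [(27552, 6)], []), ([(31752, 1), (32928, 6), (32424, 4), (32088, 5)], [], []), ([], [(25704, 1), (25536, 2), (26208, 6), (25872, 7)], []), ([(32256, 1), (31920, 2), (32592, 7)], [(27720, 6)], []), ([(32424, 1), (32088, 2), (33096, 6), (32760, 7)], [], [])]⟩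

/-- group -/
noncomputable def tab79bg53 : Grp :=
  ⟨10, 3, 49728, 77448, [(13776, 0), (13944, 0), (14112, 0), (14280, 0), (14448, 0), (14616, 0), (14784, 0), (14952, 0), (15120, 0), (15288, 0), (15456, 0), (15624, 0), (15792, 0), (15960, 0), (0, 1), (1008, 2), (1176, 0), (1344, 0), (1512, 0), (1680, 0), (1848, 0), (4872, 1), (10752, 0), (10920, 0), (11088, 0), (11256, 0), (14280, 1), (18480, 0), (18648, 0), (14448, 1), (18816, 0), (18984, 0)],
   [(12768, 0), (12936, 0), (13104, 0), (13272, 0), (13440, 0), (13608, 0), (13776, 0), (13944, 0), (14112, 0), (14280, 0), (14448, 0), (14616, 0), (14784, 0), (14952, 0), (0, 1), (7896, 0), (8064, 0), (8232, 0), (8400, 0), (8568, 0), (8736, 0), (13104, 1), (19320, 0), (19488, 0), (19656, 0), (19824, 0), (24864, 1), (30408, 0), (30576, 0), (25032, 1), (30744, 0), (30912, 0)],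
   [([], [(17976, 9)], []), ([], [(18648, 9)], []), ([], [(19320, 9)], []), ([], [(19992, 9)], []), ([], [(20664, 9)], []), ([(15120, 9)], [], []), ([(15288, 9)], [], []), ([(15456, 9)], [], []), ([(15624, 9)], [], []), ([(15792, 9)], [], []), ([(15960, 9)], [], []), ([(16128, 9)], [], []), ([(16296, 9)], [], []), ([(16464, 9)], [], []), ([], [(336, 9), (168, 4)], []), ([], [(1848, 9), (1680, 4)], []), ([(9744, 9), (8904, 4)], [], []), ([(9912, 9), (9072, 4)], [], []), ([(10080, 9), (9240, 4)], [], []), ([(10248, 9), (9408, 4)], [], []), ([(10416, 9), (9576, 4)], [], []), ([], [(13272, 1), (13608, 9), (13440, 5)], []), ([(19992, 1), (20664, 5)], [(15120, 9)], []), ([(20160, 1), (21336, 9), (20832, 5)], [], []), ([(20328, 1), (21504, 9), (21000, 5)], [], []), ([(20496, 1), (21672, 9), (21168, 5)], [], []), ([], [(25536, 9), (25200, 8)], []), ([(31752, 9), (31080, 8)], [], []), ([(31920, 9), (31248, 8)], [], []), ([], [(25200, 2), (25704, 9), (25368, 6)], []),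 ([(31080, 2), (32088, 9), (31416, 6)], [], []), ([(31248, 2), (32256, 9), (31584, 6)], [], [])]⟩

/-- group -/
noncomputable def tab79bg54 : Grp :=
  ⟨10, 4, 54264, 77280, [(0, 0), (168, 0), (336, 0), (504, 0), (672, 0), (840, 0), (1008, 0), (1176, 0), (1344, 0), (1512, 0), (1680, 0), (168, 1), (5544, 0), (5712, 0), (5880, 0), (6048, 0), (9576, 1), (13608, 0), (13776, 0)],
   [(0, 0), (168, 0), (336, 0), (504, 0), (672, 0), (840, 0), (1008, 0), (1176, 0), (1344, 0), (1512, 0), (1680, 0), (13104, 1), (18816, 0), (18984, 0), (19152, 0), (19320, 0), (24864, 1), (30240, 0), (30408, 0)],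
   [([], [(7056, 12)], []), ([], [(8064, 12)], []), ([(1848, 12)], [], []), ([(2016, 12)], [], []), ([(2184, 12)], [], []), ([(2352, 12)], [], []), ([(2520, 12)], [], []), ([(2688, 12)], [], []), ([(2856, 12)], [], []), ([(3024, 12)], [], []), ([(3192, 12)], [], []), ([], [(13440, 12), (13272, 4)], []), ([(20160, 12), (19488, 4)], [], []), ([(20328, 12), (19656, 4)], [], []), ([(20496, 12), (19824, 4)], [], []), ([(20664, 12), (19992, 4)], [], []), ([], [(25032, 1), (25368, 12), (25200, 5)], []), ([(30576, 1), (31248, 12), (30912, 5)], [], []), ([(30744, 1), (31416, 12), (31080, 5)], [], [])]⟩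

/-- group -/
noncomputable def tab79bg55 : Grp :=
  ⟨10, 5, 49560, 77280, [(0, 2), (168, 0), (336, 0), (504, 0), (672, 0), (840, 0), (1008, 0), (14112, 1), (17976, 0), (18144, 0)],
   [(0, 1), (7056, 0), (7224, 0), (7392, 0), (7560, 0), (7728, 0), (7896, 0), (24696, 1), (29904, 0), (30072, 0)],
   [([], [(168, 15)], []), ([(8064, 15)], [], []), ([(8232, 15)], [], []), ([(8400, 15)], [], []), ([(8568, 15)], [], []), ([(8736, 15)], [], []), ([(8904, 15)], [], []), ([], [(25032, 15), (24864, 4)], []), ([(30576, 15), (30240, 4)], [], []), ([(30744, 15), (30408, 4)], [], [])]⟩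

/-- group -/
noncomputable def tab79bg56 : Grp :=
  ⟨10, 6, 54264, 90216, [(0, 1), (4872, 0), (5040, 0), (5208, 0), (5376, 0)],
   [(0, 1), (5208, 0), (5376, 0), (5544, 0), (5712, 0)],
   [([], [(168, 18)], []), ([(5880, 18)], [], []), ([(6048, 18)], [], []), ([(6216, 18)], [], []), ([(6384, 18)], [], [])]⟩

/-- group -/
noncomputable def tab79bg57 : Grp :=
  ⟨10, 7, 63504, 101808, [(0, 1), (3696, 0), (3864, 0)],
   [(0, 1), (5040, 0), (5208, 0)],
   [([], [(168, 21)], []), ([(5376, 21)], [], []), ([(5544, 21)], [], [])]⟩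

/-- group -/
noncomputable def tab79bg58 : Grp :=
  ⟨11, 0, 78456, 112560, [(28560, 1), (28896, 1), (29232, 1), (29568, 1), (29904, 1), (30240, 1), (30576, 1), (30912, 1), (31248, 1), (31584, 1), (31920, 1), (32088, 1), (32256, 1), (32592, 1), (32760, 1), (32928, 1), (33096, 1), (17304, 1), (17976, 1), (18648, 1), (19320, 1), (19992, 1), (20496, 1), (21000, 1), (21504, 1), (22008, 1), (22344, 1), (22680, 1), (16464, 0), (16800, 0), (17472, 1), (18144, 1), (18816, 1), (19488, 1), (20160, 1), (20664, 1), (21168, 1), (21672, 1), (22176, 1), (22512, 1), (22848, 1), (6552, 1), (7560, 1), (8400, 1), (9240, 1), (9912, 1), (10416, 1), (10752, 1), (11088, 1), (5208, 0), (5376, 0), (5544, 0), (6720, 1), (7728, 1), (8568, 1), (9408, 1), (10080, 1), (10584, 1), (10920, 1), (11256, 1), (11424, 1), (11592, 1), (5712, 0), (0, 1), (1512, 1), (2688, 1), (3696, 1), (4536, 1), (11088, 0), (168, 1), (1680, 1), (2856, 1), (3864, 1), (336, 1), (1848, 1), (3024, 1), (4032, 1), (5376,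 1), (13608, 1), (15120, 1), (15960, 1), (16464, 1), (23016, 0), (13776, 1), (15288, 1), (16128, 1), (13944, 1), (15456, 1)],
   [(33432, 1), (34104, 1), (34776, 1), (35448, 1), (36120, 1), (36792, 1), (37464, 1), (37968, 1), (38472, 1), (38976, 1), (39480, 1), (39984, 1), (40488, 1), (31584, 0), (31752, 0), (31920, 0), (32088, 0), (17976, 1), (18984, 1), (19992, 1), (20832, 1), (21672, 1), (22512, 1), (23184, 1), (15792, 0), (15960, 0), (16128, 0), (16296, 0), (16464, 0), (16800, 0), (18144, 1), (19152, 1), (20160, 1), (21000, 1), (21840, 1), (22680, 1), (23352, 1), (23856, 1), (24360, 1), (24864, 1), (16968, 0), (0, 1), (1680, 1), (3192, 1), (4536, 1), (5712, 1), (6720, 2), (6888, 0), (7056, 0), (7224, 0), (7392, 0), (7560, 0), (168, 1), (1848, 1), (3360, 1), (4704, 1), (5880, 1), (6888, 1), (7728, 2), (7896, 0), (8064, 0), (8232, 0), (8400, 0), (11424, 1), (13272, 1), (14616, 1), (15792, 1), (23856, 0), (24024, 0), (11592, 1), (13440, 1), (14784, 1), (15960,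 1), (11760, 1), (13608, 1), (14952, 1), (16128, 1), (25032, 0), (27720, 1), (29904, 1), (39984, 0), (40152, 0), (40320, 0), (27888, 1), (30072, 1), (40488, 0), (28056, 1), (30240, 1)],
   [([], [(33600, 1), (33768, 5)], []), ([], [(34272, 1), (34440, 5)], []), ([], [(34944, 1), (35112, 5)], []), ([], [(35616, 1), (35784, 5)], []), ([], [(36288, 1), (36456, 5)], []), ([], [(36960, 1), (37128, 5)], []), ([], [(37632, 1), (37800, 5)], []), ([], [(38136, 1), (38304, 5)], []), ([], [(38640, 1), (38808, 5)], []), ([], [(39144, 1), (39312, 5)], []), ([], [(39648, 1), (39816, 5)], []), ([], [(40152, 1), (40320, 5)], []), ([], [(40656, 1), (40824, 5)], []), ([(32424, 1)], [(41160, 5)], []), ([(32592, 1)], [(41328, 5)], []), ([(32760, 1)], [(41496, 5)], []), ([(32928, 1)], [(41664, 5)], []), ([], [(18312, 8)], []), ([], [(19320, 8)], []), ([], [(20328, 8)], []), ([], [(21168, 8)], []), ([], [(22008, 8)], []), ([], [(22848, 8)], []), ([], [(23520, 8)], []), ([], [(24024,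 8)], []), ([], [(24528, 8)], []), ([], [(25032, 8)], []), ([], [(25368, 8)], []), ([], [(25704, 8)], []), ([(17472, 8)], [], []), ([], [(18312, 2), (18480, 6)], []), ([], [(19320, 2), (19488, 6)], []), ([], [(20328, 2), (20496, 6)], []), ([], [(21168, 2), (21336, 6)], []), ([], [(22008, 2), (22176, 6)], []), ([], [(22848, 2), (23016, 6)], []), ([], [(23520, 2), (23688, 6)], []), ([], [(24024, 2), (24192, 6)], []), ([], [(24528, 2), (24696, 6)], []), ([], [(25032, 2), (25200, 6)], []), ([], [(25368, 2), (25536, 6)], []), ([], [(336, 1), (672, 4), (504, 5)], []), ([], [(2016, 1), (2352, 4), (2184, 5)], []), ([], [(3528, 1), (3864, 4), (3696, 5)], []), ([], [(4872, 1), (5208, 4), (5040, 5)], []), ([], [(6048, 1), (6384, 4), (6216, 5)], []), ([], [(7056, 1), (7392, 4), (7224, 5)], []), ([], [(7896, 1), (8232, 4), (8064, 5)], []), ([], [(8904, 4), (8736, 5)], [(8568, 1)]), ([(8736, 1)], [(9408, 4)], [(9240, 5)]), ([(8904, 1), (9408, 5)], [], [(9744, 4)]), ([(9072,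 1), (9912, 4), (9576, 5)], [], []), ([], [(672, 1), (504, 2), (840, 7)], []), ([], [(2352, 1), (2184, 2), (2520, 7)], []), ([], [(3864, 1), (3696, 2), (4032, 7)], []), ([], [(5208, 1), (5040, 2), (5376, 7)], []), ([], [(6384, 1), (6216, 2), (6552, 7)], []), ([], [(7392, 1), (7224, 2), (7560, 7)], []), ([], [(8232, 1), (8064, 2), (8400, 7)], []), ([], [(8904, 1), (8736, 2), (9072, 7)], []), ([], [(9408, 1), (9576, 7)], [(9240, 2)]), ([(9408, 2)], [(9912, 7)], [(9744, 1)]), ([(9912, 1), (9576, 2)], [], [(10080, 7)]), ([], [(12096, 12)], []), ([], [(13944, 12)], []), ([], [(15288, 12)], []), ([], [(16464, 12)], []), ([], [(17136, 12)], []), ([(25704, 12)], [], []), ([], [(12096, 2), (12432, 4), (12264, 6)], []), ([], [(13944, 2), (14280, 4), (14112, 6)], []), ([], [(15288, 2), (15624, 4), (15456, 6)], []), ([], [(16464, 2), (16800, 4), (16632, 6)], []), ([], [(12096, 2), (12432, 10)], []), ([], [(13944, 2), (14280, 10)], []), ([], [(15288, 2), (15624, 10)], []),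 ([], [(16464, 2), (16800, 10)], []), ([(25704, 2)], [(17472, 10)], []), ([], [(28224, 1), (28560, 8), (28392, 5)], []), ([], [(30408, 1), (30744, 8), (30576, 5)], []), ([], [(31584, 1), (31920, 8), (31752, 5)], []), ([], [(32424, 1), (32760, 8), (32592, 5)], []), ([(41160, 1), (41496, 8), (41328, 5)], [], []), ([], [(28560, 1), (28392, 2), (28896, 4), (28728, 7)], []), ([], [(30744, 1), (30576, 2), (31080, 4), (30912, 7)], []), ([], [(31920, 1), (31752, 2), (32256, 4), (32088, 7)], []), ([], [(28560, 2), (28392, 1), (29064, 5), (28896, 6)], []), ([], [(30744, 2), (30576, 1), (31248, 5), (31080, 6)], [])]⟩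

/-- group -/
noncomputable def tab79bg59 : Grp :=
  ⟨11, 1, 78120, 112224, [(28728, 1), (29064, 1), (29400, 1), (29736, 1), (30072, 1), (30408, 1), (30744, 1), (31080, 1), (31416, 1), (31752, 1), (32088, 1), (27048, 0), (27216, 0), (27384, 0), (27552, 0), (27720, 0), (27888, 0), (28056, 0), (17472, 1), (18144, 1), (18816, 1), (19488, 1), (20160, 1), (20664, 1), (21168, 1), (21672, 1), (22176, 1), (15960, 0), (16128, 0), (16296, 0), (6552, 1), (7560, 1), (8400, 1), (9240, 1), (9912, 1), (3696, 0), (3864, 0), (4032, 0), (4200, 0), (4368, 0), (4536, 0), (6720, 1), (7728, 1), (8568, 1), (9408, 1), (10080, 1), (10584, 1), (4704, 0), (4872, 0), (5040, 0), (5208, 0), (5376, 0), (0, 1), (1512, 1), (2688, 1), (3696, 1), (10584, 0), (10752, 0), (168, 1), (1680, 1), (2856, 1), (3864, 1), (4704, 1), (13272, 1), (14784, 1), (21672, 0), (21840, 0), (22008, 0), (13440, 1), (14952, 1), (22176, 0), (22344, 0), (13608, 1), (15120, 1), (15960, 1), (22680, 0)],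
   [(33600, 1), (34272, 1), (34944, 1), (35616, 1), (36288, 1), (36960, 1), (37632, 1), (29568, 0), (29736, 0), (29904, 0), (30072, 0), (30240, 0), (30408, 0), (30576, 0), (30744, 0), (30912, 0), (31080, 0), (31248, 0), (18144, 1), (19152, 1), (20160, 1), (21000, 1), (21840, 1), (22680, 1), (14784, 0), (14952, 0), (15120, 0), (15288, 0), (15456, 0), (15624, 0), (0, 1), (1680, 1), (3192, 1), (4536, 2), (4704, 0), (4872, 0), (5040, 0), (5208, 0), (5376, 0), (5544, 0), (5712, 0), (168, 1), (1848, 1), (3360, 1), (4704, 1), (5880, 2), (6048, 0), (6216, 0), (6384, 0), (6552, 0), (6720, 0), (6888, 0), (11424, 1), (13272, 1), (22680, 0), (22848, 0), (23016, 0), (23184, 0), (11592, 1), (13440, 1), (14784, 1), (23520, 0), (23688, 0), (27384, 1), (29568, 1), (38304, 0), (38472, 0), (38640, 0), (27552, 1), (29736, 1), (38808, 0), (38976, 0), (27720, 1), (29904, 1), (39312, 0), (39480, 0)],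
   [([], [(33936, 3), (33768, 4)], []), ([], [(34608, 3), (34440, 4)], []), ([], [(35280, 3), (35112, 4)], []), ([], [(35952, 3), (35784, 4)], []), ([], [(36624, 3), (36456, 4)], []), ([], [(37296, 3), (37128, 4)], []), ([], [(37968, 3), (37800, 4)], []), ([], [(38472, 3), (38304, 4)], []), ([], [(38976, 3), (38808, 4)], []), ([], [(39480, 3), (39312, 4)], []), ([], [(39984, 3), (39816, 4)], []), ([], [(40488, 3), (40320, 4)], []), ([], [(40992, 3), (40824, 4)], []), ([(31752, 4)], [(41328, 3)], []), ([(32760, 3), (31920, 4)], [], []), ([(32928, 3), (32088, 4)], [], []), ([(33096, 3), (32256, 4)], [], []), ([(33264, 3), (32424, 4)], [], []), ([], [(18312, 1), (18648, 3), (18480, 5)], []), ([], [(19320, 1), (19656, 3), (19488, 5)], []), ([], [(20328, 1), (20664, 3), (20496, 5)], []), ([], [(21168, 1), (21504, 3), (21336, 5)], []), ([], [(22008, 1), (22344, 3), (22176, 5)], []), ([], [(22848, 1), (23184, 3), (23016, 5)], []), ([], [(23520, 1), (23856, 3), (23688,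 5)], []), ([(16128, 1)], [(24360, 3), (24192, 5)], []), ([(16296, 1)], [(24864, 3), (24696, 5)], []), ([(16464, 1)], [(25368, 3), (25200, 5)], []), ([(16632, 1), (17304, 5)], [(25704, 3)], []), ([(16800, 1), (17472, 5)], [(26040, 3)], []), ([], [(672, 3), (336, 8)], []), ([], [(2352, 3), (2016, 8)], []), ([], [(3864, 3), (3528, 8)], []), ([], [(5208, 3), (4872, 8)], []), ([], [(6384, 3), (6048, 8)], []), ([], [(7392, 3)], [(7056, 8)]), ([(7224, 8)], [(8232, 3)], []), ([(7392, 8)], [], [(8904, 3)]), ([(9072, 3), (7560, 8)], [], []), ([(9240, 3), (7728, 8)], [], []), ([(9408, 3), (7896, 8)], [], []), ([], [(336, 2), (840, 3), (504, 6)], []), ([], [(2016, 2), (2520, 3), (2184, 6)], []), ([], [(3528, 2), (4032, 3), (3696, 6)], []), ([], [(4872, 2), (5376, 3), (5040, 6)], []), ([], [(6048, 2), (6552, 3), (6216, 6)], []), ([], [(7560, 3), (7224, 6)], [(7056, 2)]), ([(7224, 2)], [(8400, 3)], [(8064, 6)]), ([(7392, 2), (8232, 6)], [(9072, 3)], []), ([(7560, 2), (8400,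 6)], [], [(9576, 3)]), ([(7728, 2), (9744, 3), (8568, 6)], [], []), ([(7896, 2), (9912, 3), (8736, 6)], [], []), ([], [(11760, 1), (12432, 3), (12096, 4), (11928, 5)], []), ([], [(13608, 1), (14280, 3), (13944, 4), (13776, 5)], []), ([], [(14952, 1), (15624, 3), (15288, 4), (15120, 5)], []), ([], [(16128, 1), (16800, 3), (16464, 4), (16296, 5)], []), ([(24192, 1), (25200, 4), (24696, 5)], [(17472, 3)], []), ([(24360, 1), (26040, 3), (25368, 4), (24864, 5)], [], []), ([], [(12096, 1), (11928, 2), (12600, 3), (12264, 7)], []), ([], [(13944, 1), (13776, 2), (14448, 3), (14112, 7)], []), ([], [(15288, 1), (15120, 2), (15792, 3), (15456, 7)], []), ([], [(16464, 1), (16296, 2), (16968, 3), (16632, 7)], []), ([(25200, 1), (24696, 2)], [(17640, 3), (17304, 7)], []), ([], [(28560, 3), (28056, 12)], []), ([], [(30744, 3), (30240, 12)], []), ([(40320, 12)], [(31920, 3)], []), ([(40488, 12)], [(32760, 3)], []), ([(41496, 3), (40656, 12)], [], []), ([], [(28056, 2), (28728,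 3), (28392, 4), (28224, 6)], []), ([], [(30240, 2), (30912, 3), (30576, 4), (30408, 6)], []), ([(40320, 2), (40824, 6)], [(32088, 3), (31752, 4)], []), ([(40488, 2), (41328, 4), (40992, 6)], [(32928, 3)], []), ([], [(28056, 2), (28896, 3), (28392, 10)], []), ([], [(30240, 2), (31080, 3), (30576, 10)], []), ([(40320, 2)], [(32256, 3), (31752, 10)], []), ([(40488, 2), (41328, 10)], [(33096, 3)], [])]⟩

/-- group -/
noncomputable def tab79bg60 : Grp :=
  ⟨11, 2, 77784, 112056, [(17640, 1), (18312, 1), (18984, 1), (19656, 1), (20328, 1), (14784, 0), (14952, 0), (15120, 0), (15288, 0), (15456, 0), (15624, 0), (15792, 0), (15960, 0), (16128, 0), (6720, 1), (7728, 1), (8568, 1), (9408, 1), (2856, 0), (3024, 0), (3192, 0), (3360, 0), (3528, 0), (3696, 0), (3864, 0), (0, 1), (1512, 1), (9408, 0), (9576, 0), (9744, 0), (9912, 0), (10080, 0), (168, 1), (1680, 1), (2856, 1), (10248, 0), (10416, 0), (10584, 0), (10752, 0), (13272, 1), (14784, 1), (21000, 0), (21168, 0),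 (21336, 0), (13440, 1), (14952, 1), (21504, 0), (21672, 0), (21840, 0)],
   [(18144, 1), (19152, 1), (20160, 1), (13104, 0), (13272, 0), (13440, 0), (13608, 0), (13776, 0), (13944, 0), (14112, 0), (14280, 0), (14448, 0), (14616, 0), (14784, 0), (0, 1), (1680, 1), (3192, 2), (3360, 0), (3528, 0), (3696, 0), (3864, 0), (4032, 0), (4200, 0), (4368, 0), (4536, 0), (11256, 1), (13104, 1), (21168, 0), (21336, 0), (21504, 0), (21672, 0), (21840, 0), (11424, 1), (13272, 1), (22008, 0), (22176, 0), (22344, 0), (22512, 0), (22680, 0), (27216, 1), (37128, 0), (37296, 0), (37464, 0), (37632, 0), (27384, 1), (37800, 0), (37968, 0), (38136, 0), (38304, 0)],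
   [([], [(18480, 6), (18312, 4)], []), ([], [(19488, 6), (19320, 4)], []), ([], [(20496, 6), (20328, 4)], []), ([], [(21336, 6), (21168, 4)], []), ([], [(22176, 6), (22008, 4)], []), ([], [(23016, 6), (22848, 4)], []), ([(14952, 4)], [(23688, 6)], []), ([(16296, 6), (15120, 4)], [], []), ([(16464, 6), (15288, 4)], [], []), ([(16632, 6), (15456, 4)], [], []), ([(16800, 6), (15624, 4)], [], []), ([(16968, 6), (15792, 4)], [], []), ([(17136, 6), (15960, 4)], [], []), ([(17304, 6), (16128, 4)], [], []), ([], [(168, 1), (504, 6), (336, 5)], []), ([], [(1848, 1), (2184, 6), (2016, 5)], []), ([], [(3360, 1), (3696, 6), (3528, 5)], []), ([], [(5040, 6), (4872, 5)], [(4704, 1)]), ([(4872, 1)], [(6216, 6)], [(6048, 5)]), ([(5040, 1), (6216, 5)], [], [(7224, 6)]), ([(5208, 1), (7392, 6), (6384, 5)], [], []), ([(5376, 1), (7560, 6), (6552, 5)], [], []), ([(5544, 1), (7728, 6), (6720, 5)], [], []), ([(5712, 1), (7896, 6), (6888, 5)], [], []), ([(5880, 1), (8064, 6), (7056,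 5)], [], []), ([], [(11928, 6), (11592, 8)], []), ([], [(13776, 6), (13440, 8)], []), ([(22848, 8)], [(15120, 6)], []), ([(23016, 8)], [(16296, 6)], []), ([(24360, 6), (23184, 8)], [], []), ([(24528, 6), (23352, 8)], [], []), ([(24696, 6), (23520, 8)], [], []), ([], [(11592, 2), (12096, 6), (11760, 6)], []), ([], [(13440, 2), (13944, 6), (13608, 6)], []), ([(22848, 2)], [(15288, 6), (14952, 6)], []), ([(23016, 2), (23688, 6)], [(16464, 6)], []), ([(23184, 2), (24864, 6), (23856, 6)], [], []), ([(23352, 2), (25032, 6), (24024, 6)], [], []), ([(23520, 2), (25200, 6), (24192, 6)], [], []), ([], [(27552, 1), (28224, 6), (27888, 4), (27720, 5)], []), ([], [(29736, 1), (30408, 6), (30072, 4), (29904, 5)], []), ([(38472, 1), (40488, 6), (39480, 4), (38976, 5)], [], []), ([(38640, 1), (40656, 6), (39648, 4), (39144, 5)], [], []), ([(38808, 1), (40824, 6), (39816, 4), (39312, 5)], [], []), ([], [(27888, 1), (27720, 2), (28392, 6), (28056, 7)], []), ([], [(30072, 1),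 (29904, 2), (30576, 6), (30240, 7)], []), ([(39480, 1), (38976, 2), (40992, 6), (39984, 7)], [], []), ([(39648, 1), (39144, 2), (41160, 6), (40152, 7)], [], []), ([(39816, 1), (39312, 2), (41328, 6), (40320, 7)], [], [])]⟩

/-- group -/
noncomputable def tab79bg61 : Grp :=
  ⟨11, 3, 77616, 111888, [(24192, 0), (24360, 0), (24528, 0), (24696, 0), (24864, 0), (25032, 0), (25200, 0), (25368, 0), (25536, 0), (25704, 0), (25872, 0), (26040, 0), (26208, 0), (26376, 0), (26544, 0), (26712, 0), (26880, 0), (27048, 0), (27216, 0), (27384, 0), (6720, 1), (7728, 1), (1512, 0), (1680, 0), (1848, 0), (2016, 0), (2184, 0), (2352, 0), (2520, 0), (2688, 0), (2856, 0), (0, 1), (1512, 1), (8736, 0), (8904, 0), (9072, 0), (9240, 0), (9408, 0), (13104, 1), (19824, 0), (19992, 0), (20160, 0), (20328, 0), (13272, 1), (20496, 0), (20664, 0), (20832, 0), (21000, 0)],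
   [(26544, 0), (26712, 0), (26880, 0), (27048, 0), (27216, 0), (27384, 0), (27552, 0), (27720, 0), (27888, 0), (28056, 0), (28224, 0), (28392, 0), (28560, 0), (28728, 0), (28896, 0), (29064, 0), (29232, 0), (29400, 0), (29568, 0), (29736, 0), (0, 1), (1680, 2), (1848, 0), (2016, 0), (2184, 0), (2352, 0), (2520, 0), (2688, 0), (2856, 0), (3024, 0), (3192, 0), (11256, 1), (20328, 0), (20496, 0), (20664, 0), (20832, 0), (21000, 0), (21168, 0), (27048, 1), (35952, 0), (36120, 0), (36288, 0), (36456, 0), (27216, 1), (36624, 0), (36792, 0), (36960, 0), (37128, 0)],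
   [([], [(33936, 9)], []), ([], [(34608, 9)], []), ([], [(35280, 9)], []), ([], [(35952, 9)], []), ([], [(36624, 9)], []), ([], [(37296, 9)], []), ([], [(37968, 9)], []), ([(29904, 9)], [], []), ([(30072, 9)], [], []), ([(30240, 9)], [], []), ([(30408, 9)], [], []), ([(30576, 9)], [], []), ([(30744, 9)], [], []), ([(30912, 9)], [], []), ([(31080, 9)], [], []), ([(31248, 9)], [], []), ([(31416, 9)], [], []), ([(31584, 9)], [], []), ([(31752, 9)], [], []), ([(31920, 9)], [], []), ([], [(336, 9), (168, 4)], []), ([], [(2016, 9), (1848, 4)], []), ([], [(3528, 9)], [(3360, 4)]), ([(3528, 4)], [], [(4872, 9)]), ([(5040, 9), (3696, 4)], [], []), ([(5208, 9), (3864, 4)], [], []), ([(5376, 9), (4032, 4)], [], []), ([(5544, 9), (4200, 4)], [], []), ([(5712, 9), (4368, 4)], [], []), ([(5880, 9), (4536, 4)], [], []), ([(6048, 9), (4704, 4)], [], []), ([], [(11424, 1), (11760, 9), (11592, 5)], []), ([], [(13272, 1), (13608, 9), (13440, 5)], []), ([(21336, 1), (23016, 9),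 (22176, 5)], [], []), ([(21504, 1), (23184, 9), (22344, 5)], [], []), ([(21672, 1), (23352, 9), (22512, 5)], [], []), ([(21840, 1), (23520, 9), (22680, 5)], [], []), ([(22008, 1), (23688, 9), (22848, 5)], [], []), ([], [(27720, 9), (27384, 8)], []), ([(37296, 8)], [(29904, 9)], []), ([(38640, 9), (37464, 8)], [], []), ([(38808, 9), (37632, 8)], [], []), ([(38976, 9), (37800, 8)], [], []), ([], [(27384, 2), (27888, 9), (27552, 6)], []), ([(37296, 2), (37968, 6)], [(30072, 9)], []), ([(37464, 2), (39144, 9), (38136, 6)], [], []), ([(37632, 2), (39312, 9), (38304, 6)], [], []), ([(37800, 2), (39480, 9), (38472, 6)], [], [])]⟩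

/-- group -/
noncomputable def tab79bg62 : Grp :=
  ⟨11, 4, 77448, 122808, [(12768, 0), (12936, 0), (13104, 0), (13272, 0), (13440, 0), (13608, 0), (13776, 0), (13944, 0), (14112, 0), (14280, 0), (14448, 0), (14616, 0), (14784, 0), (14952, 0), (0, 1), (7896, 0), (8064, 0), (8232, 0), (8400, 0), (8568, 0), (8736, 0), (13104, 1), (19320, 0), (19488, 0), (19656, 0), (19824, 0)],
   [(0, 0), (168, 0), (336, 0), (504, 0), (672, 0), (840, 0), (1008, 0), (1176, 0), (1344, 0), (1512, 0), (1680, 0), (1848, 0), (2016, 0), (2184, 0), (168, 1), (8400, 0), (8568, 0), (8736, 0), (8904, 0), (9072, 0), (9240, 0), (15960, 1), (24360, 0), (24528, 0), (24696, 0), (24864, 0)],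
   [([], [(7392, 12)], []), ([], [(8400, 12)], []), ([], [(9408, 12)], []), ([(2352, 12)], [], []), ([(2520, 12)], [], []), ([(2688, 12)], [], []), ([(2856, 12)], [], []), ([(3024, 12)], [], []), ([(3192, 12)], [], []), ([(3360, 12)], [], []), ([(3528, 12)], [], []), ([(3696, 12)], [], []), ([(3864, 12)], [], []), ([(4032, 12)], [], []), ([], [(504, 12), (336, 4)], []), ([(9408, 4)], [(2352, 12)], []), ([(10416, 12), (9576, 4)], [], []), ([(10584, 12), (9744, 4)], [], []), ([(10752, 12), (9912, 4)], [], []), ([(10920, 12), (10080, 4)], [], []), ([(11088, 12), (10248, 4)], [], []), ([], [(16128, 1), (16464, 12), (16296, 5)], []), ([(25032, 1), (26376, 12), (25704, 5)], [], []), ([(25200, 1), (26544, 12), (25872, 5)], [], []), ([(25368, 1), (26712, 12), (26040, 5)], [], []), ([(25536, 1), (26880, 12), (26208, 5)], [], [])]⟩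

/-- group -/
noncomputable def tab79bg63 : Grp :=
  ⟨11, 5, 77280, 111720, [(0, 0), (168, 0), (336, 0), (504, 0), (672, 0), (840, 0), (1008, 0), (1176, 0), (1344, 0), (1512, 0), (1680, 0), (13104, 1), (18816, 0), (18984, 0), (19152, 0), (19320, 0)],
   [(0, 2), (168, 0), (336, 0), (504, 0), (672, 0), (840, 0), (1008, 0), (1176, 0), (1344, 0), (1512, 0), (1680, 0), (26880, 1), (34776, 0), (34944, 0), (35112, 0), (35280, 0)],
   [([], [(168, 15)], []), ([], [], [(1848, 15)]), ([(2016, 15)], [], []), ([(2184, 15)], [], []), ([(2352, 15)], [], []), ([(2520, 15)], [], []), ([(2688, 15)], [], []), ([(2856, 15)], [], []), ([(3024, 15)], [], []), ([(3192, 15)], [], []), ([(3360, 15)], [], []), ([], [(27216, 15), (27048, 4)], []), ([(36120, 15), (35448, 4)], [], []), ([(36288, 15), (35616, 4)], [], []), ([(36456, 15), (35784, 4)], [], []), ([(36624, 15), (35952, 4)], [], [])]⟩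

/-- group -/
noncomputable def tab79bg64 : Grp :=
  ⟨11, 6, 77280, 122808, [(0, 1), (7056, 0), (7224, 0), (7392, 0), (7560, 0), (7728, 0), (7896, 0)],
   [(0, 1), (7392, 0), (7560, 0), (7728, 0), (7896, 0), (8064, 0), (8232, 0)],
   [([], [(168, 18)], []), ([(8400, 18)], [], []), ([(8568, 18)], [], []), ([(8736, 18)], [], []), ([(8904, 18)], [], []), ([(9072, 18)], [], []), ([(9240, 18)], [], [])]⟩

/-- group -/
noncomputable def tab79bg65 : Grp :=
  ⟨11, 7, 90216, 138432, [(0, 1), (5208, 0), (5376, 0), (5544, 0), (5712, 0)],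
   [(0, 1), (7392, 0), (7560, 0), (7728, 0), (7896, 0)],
   [([], [(168, 21)], []), ([(8064, 21)], [], []), ([(8232, 21)], [], []), ([(8400, 21)], [], []), ([(8568, 21)], [], [])]⟩

/-- column -/
noncomputable def tab79bc0 : ℕ × List Blk := (0, [(0, 0, [(0, 2)])])

/-- column -/
noncomputable def tab79bc1 : ℕ × List Blk := (1, [(168, 0, [(1, 1), (168, 2)])])

/-- column -/
noncomputable def tab79bc2 : ℕ × List Blk := (2, [(168, 0, [(1, 0), (337, 0), (168, 2)])])

/-- column -/
noncomputable def tab79bc3 : ℕ × List Blk := (3, [(504, 0, [(1, 1), (337, 1), (673, 1), (1176, 2)])])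

/-- column -/
noncomputable def tab79bc4 : ℕ × List Blk := (4, [(672, 0, [(1, 1), (337, 1), (673, 1), (1177, 1), (1344, 2)])])

/-- column -/
noncomputable def tab79bc5 : ℕ × List Blk := (5, [(336, 0, [(1, 2), (505, 0), (505, 1), (1849, 0), (2017, 0), (1344, 2)])])

/-- column -/
noncomputable def tab79bc6 : ℕ × List Blk := (6, [(504, 0, [(1, 0), (673, 0), (337, 0), (2185, 0), (2353, 0), (1681, 0), (1176, 2)])])

/-- column -/
noncomputable def tab79bc7 : ℕ × List Blk := (7, [(672, 0, [(1, 0), (673, 0), (337, 0), (2185, 0), (2521, 0), (1681, 0), (1177, 0), (1344, 2)])])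

/-- column -/
noncomputable def tab79bc8 : ℕ × List Blk := (8, [(1176, 0, [(1, 1), (1009, 1), (1513, 1), (2353, 1), (3025, 0), (3361, 1), (4201, 1), (4369, 1), (5376, 2)])])

/-- column -/
noncomputable def tab79bc9 : ℕ × List Blk := (9, [(1344, 0, [(1, 1), (1009, 1), (1513, 1), (2353, 1), (3025, 0), (3361, 1), (4201, 1), (4537, 1), (5377, 1), (5712, 2)])])

/-- column -/
noncomputable def tab79bc10 : ℕ × List Blk := (10, [(1512, 0, [(1, 1), (1009, 1), (1513, 1), (2353, 1), (2521, 1), (3361, 1), (4201, 1), (4705, 1), (5377, 1), (5713, 1), (5880, 2)])])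

/-- column -/
noncomputable def tab79bc11 : ℕ × List Blk := (11, [(840, 0, [(1, 1), (841, 2), (1345, 1), (2689, 0), (2857, 0), (2689, 1), (3697, 1), (3865, 1), (6721, 0), (6889, 0), (7057, 0), (5712, 2)])])

/-- column -/
noncomputable def tab79bc12 : ℕ × List Blk := (12, [(1008, 0, [(1, 1), (841, 1), (1345, 1), (3193, 1), (3361, 1), (2689, 1), (3697, 1), (4033, 1), (7729, 1), (7897, 1), (8065, 1), (5713, 1), (6048, 2)])])

/-- column -/
noncomputable def tab79bc13 : ℕ × List Blk := (13, [(840, 0, [(1, 0), (1345, 0), (841, 2), (3697, 0), (3865, 0), (2689, 0), (2689, 1), (2857, 1), (8401, 0), (8569, 0), (8737, 0), (6721, 0), (6889, 0), (5712, 2)])])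

/-- column -/
noncomputable def tab79bc14 : ℕ × List Blk := (14, [(1008, 0, [(1, 0), (1345, 0), (841, 0), (3697, 0), (4033, 0), (2689, 0), (3193, 0), (3361, 0), (8401, 0), (8737, 0), (9073, 0), (6721, 0), (7057, 0), (5713, 0), (6048, 2)])])

/-- column -/
noncomputable def tab79bc15 : ℕ × List Blk := (15, [(1176, 0, [(1, 0), (1513, 0), (1009, 0), (4201, 0), (4369, 0), (3361, 0), (2353, 0), (3025, 1), (9241, 0), (9409, 0), (9577, 0), (8065, 0), (8233, 0), (6385, 0), (7561, 1), (5376, 2)])])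

/-- column -/
noncomputable def tab79bc16 : ℕ × List Blk := (16, [(1344, 0, [(1, 0), (1513, 0), (1009, 0), (4201, 0), (4537, 0), (3361, 0), (2353, 0), (3025, 1), (9241, 0), (9577, 0), (9913, 0), (8065, 0), (8401, 0), (6385, 0), (7561, 1), (5377, 0), (5712, 2)])])

/-- column -/
noncomputable def tab79bc17 : ℕ × List Blk := (17, [(1512, 0, [(1, 0), (1513, 0), (1009, 0), (4201, 0), (4705, 0), (3361, 0), (2353, 0), (2521, 0), (9241, 0), (9745, 0), (10417, 0), (8065, 0), (8569, 0), (6385, 0), (7561, 1), (5377, 0), (5713, 0), (5880, 2)])])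

/-- column -/
noncomputable def tab79bc18 : ℕ × List Blk := (18, [(2184, 0, [(1, 1), (1345, 1), (2353, 1), (4369, 2), (4537, 0), (5377, 1), (7057, 1), (7225, 1), (10081, 0), (10249, 0), (10417, 0), (10081, 1), (11593, 0), (12601, 1), (12769, 1), (14953, 1), (15121, 1), (15289, 1), (19152, 2)])])

/-- column -/
noncomputable def tab79bc19 : ℕ × List Blk := (19, [(2352, 0, [(1, 1), (1345, 1), (2353, 1), (4369, 1), (4705, 2), (5377, 1), (7057, 1), (7393, 1), (11425, 1), (11761, 1), (10753, 0), (10081, 1), (11761, 0), (12601, 1), (12937, 1), (14953, 1), (15289, 1), (15625, 1), (19153, 1), (19824, 2)])])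

/-- column -/
noncomputable def tab79bc20 : ℕ × List Blk := (20, [(2520, 0, [(1, 1), (1345, 1), (2353, 1), (4369, 1), (4705, 1), (5377, 1), (7057, 1), (7561, 1), (11425, 1), (11761, 1), (11929, 1)]), (12600, 11, [(1, 1), (505, 1), (2521, 1), (3025, 1), (4873, 1), (5377, 1), (6049, 1), (9073, 1), (9745, 1), (10248, 2)])])

/-- column -/
noncomputable def tab79bc21 : ℕ × List Blk := (21, [(1680, 0, [(1, 2), (1849, 0), (1849, 1), (5881, 0), (6049, 0), (4873, 2), (5881, 1), (6049, 1), (13105, 0), (13273, 0), (13441, 0)]), (12264, 11, [(1, 0), (169, 0), (1, 1), (169, 1), (2521, 1), (2689, 1), (2857, 1), (11593, 0), (11761, 0), (11929, 0), (9072, 2)])])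

/-- column -/
noncomputable def tab79bc22 : ℕ × List Blk := (22, [(1848, 0, [(1, 1), (2353, 1), (1849, 1), (6889, 1), (7057, 1), (4873, 1), (5881, 1), (6217, 1), (14449, 1), (14617, 1), (14785, 1), (11929, 1)]), (12432, 12, [(1681, 1), (1, 1), (337, 1), (2521, 1), (2857, 1), (3193, 1), (13441, 1), (13777, 1), (14113, 1), (9073, 1), (9744, 2)])])

/-- column -/
noncomputable def tab79bc23 : ℕ × List Blk := (23, [(1848, 0, [(1, 0), (1849, 0), (2353, 0), (5881, 0), (6217, 0), (4873, 0), (6889, 0), (7057, 0), (13105, 0), (13441, 0), (13777, 0), (10585, 0)]), (12768, 12, [(1, 0), (1009, 0), (1345, 0), (3529, 0), (3697, 0), (3865, 0), (11257, 0), (11593, 0), (11929, 0), (8737, 0), (9073, 0), (9408, 2)])])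

/-- column -/
noncomputable def tab79bc24 : ℕ × List Blk := (24, [(2016, 0, [(1, 2), (2353, 1), (2353, 0), (6889, 1), (6385, 0), (5041, 2), (6889, 0), (6385, 1), (14449, 1), (14785, 1), (13945, 0), (12097, 1), (11257, 0)]), (13272, 13, [(841, 0), (1, 1), (3193, 0), (3529, 0), (2689, 1), (12937, 1), (11761, 0), (12097, 0), (8905, 2), (9241, 0), (9241, 1), (10080, 2)])])

/-- column -/
noncomputable def tab79bc25 : ℕ × List Blk := (25, [(2184, 0, [(1, 0), (2353, 0), (1345, 0), (7057, 0), (7225, 0), (5377, 0), (4369, 2), (4537, 1), (14953, 0), (15121, 0), (15289, 0), (12601, 0), (12769, 0)]), (12264, 13, [(1, 0), (1513, 1), (1, 1), (169, 1), (337, 1), (15121, 0), (15289, 0), (15457, 0), (11593, 0), (11761, 0), (13609, 1), (13945, 1), (9072, 2)])])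

/-- column -/
noncomputable def tab79bc26 : ℕ × List Blk := (26, [(2352, 0, [(1, 0), (2353, 0), (1345, 0), (7057, 0), (7393, 0), (5377, 0), (4369, 0), (4705, 2), (14953, 0), (15289, 0), (15625, 0), (12601, 0), (12937, 0), (10081, 0)]), (13104, 14, [(1009, 1), (673, 0), (1009, 0), (1, 1), (14449, 0), (14785, 0), (15121, 0), (10921, 0), (11257, 0), (13105, 1), (11929, 0), (8401, 0), (9072, 2)])])

/-- column -/
noncomputable def tab79bc27 : ℕ × List Blk := (27, [(2520, 0, [(1, 0), (2353, 0), (1345, 0), (7057, 0), (7561, 0), (5377, 0), (4369, 0), (4705, 0), (14953, 0), (15457, 0), (16129, 0), (12601, 0), (13105, 0), (10081, 0)]), (13104, 14, [(1, 0), (841, 0), (1177, 0), (1345, 0), (14617, 0), (15121, 0), (15793, 0), (11089, 0), (11593, 0), (13441, 1), (12265, 0), (8569, 0), (9241, 0), (9744, 2)])])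

/-- column -/
noncomputable def tab79bc28 : ℕ × List Blk := (28, [(4536, 0, [(1, 1), (3025, 1), (4705, 1), (7729, 1), (9241, 0), (10249, 1), (12601, 1), (12769, 1), (16801, 2), (16969, 0), (17137, 0), (19321, 1), (21337, 0), (22849, 1), (23017, 1)]), (31080, 15, [(1, 1), (169, 1), (337, 1), (2353, 1), (5377, 0), (5545, 0), (8233, 1), (11425, 0), (8401, 1), (11761, 0), (13777, 1), (13945, 1), (14113, 1), (18480, 2)])])

/-- column -/
noncomputable def tab79bc29 : ℕ × List Blk := (29, [(4704, 0, [(1, 1), (3025, 1), (4705, 1), (7729, 1), (9409, 0), (10249, 1), (12601, 1), (12937, 1), (16801, 1), (17473, 2), (17641, 0), (19321, 1), (21505, 0), (22849, 1), (23185, 1)]), (31248, 15, [(1, 1), (337, 1), (673, 1), (2353, 1), (5881, 0), (6049, 0), (8233, 1), (11593, 0), (8569, 1), (12265, 0), (13777, 1), (14113, 1), (14449, 1), (18481, 1), (19488, 2)])])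

/-- column -/
noncomputable def tab79bc30 : ℕ × List Blk := (30, [(4872, 0, [(1, 1), (3025, 1), (4705, 1), (7729, 1), (8233, 1), (10249, 1), (12601, 1), (13105, 1), (16801, 1), (17473, 1), (17977, 2), (19321, 1), (21673, 0), (22849, 1), (23353, 1), (26545, 1)]), (31920, 16, [(1, 1), (673, 1), (1849, 1), (2689, 1), (5881, 0), (7729, 1), (11257, 0), (8233, 1), (9241, 1), (13273, 1), (13777, 1), (14449, 1), (17977, 1), (18985, 1), (19824, 2)])])

/-- column -/
noncomputable def tab79bc31 : ℕ × List Blk := (31, [(5040, 0, [(1, 1), (3025, 1), (4705, 1), (7729, 1), (8233, 1), (10249, 1), (12601, 1), (13273, 1), (16801, 1), (17473, 1), (17977, 1), (19321, 1), (19993, 1), (22849, 1), (23521, 1), (26545, 1)]), (32256, 16, [(1, 1), (673, 1), (1681, 1), (2521, 1), (6049, 0), (7561, 1), (11257, 0), (8233, 1), (9241, 1), (13105, 1), (13777, 1), (14449, 1), (17809, 1), (18817, 1), (19657, 1), (20328, 2)])])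

/-- column -/
noncomputable def tab79bc32 : ℕ × List Blk := (32, [(5208, 0, [(1, 1), (3025, 1), (4705, 1), (7729, 1), (8233, 1), (10249, 1), (12601, 1), (13273, 1), (16801, 1), (17473, 1), (17977, 1), (19321, 1), (19993, 1), (22849, 1), (23521, 1), (26545, 1), (27217, 1)]), (33264, 17, [(1, 1), (841, 1), (1681, 1), (2185, 1), (6721, 1), (10585, 0), (7393, 1), (8401, 1), (12265, 1), (12937, 1), (13777, 1), (16969, 1), (17977, 1), (18817, 1), (19489, 1), (19992, 2)])])

/-- column -/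
noncomputable def tab79bc33 : ℕ × List Blk := (33, [(3528, 0, [(1, 1), (3025, 2), (4033, 1), (8737, 0), (8905, 0), (8737, 1), (11257, 1), (11425, 1), (20329, 0), (20497, 0), (20665, 0), (17809, 2), (17977, 0), (20329, 1), (20497, 1), (23857, 1), (24025, 1)]), (27720, 17, [(1, 1), (5713, 0), (5881, 0), (6049, 0), (5713, 1), (8737, 0), (5881, 1), (9409, 0), (11593, 1), (11761, 1), (11929, 1), (26545, 0), (26713, 0), (26881, 0), (27049, 0), (27217, 0), (21840, 2)])])

/-- column -/
noncomputable def tab79bc34 : ℕ × List Blk := (34, [(3696, 0, [(1, 1), (3025, 1), (4033, 1), (10081, 1), (10417, 1), (8737, 1), (11257, 1), (11593, 1), (22177, 1), (22513, 1), (22849, 1), (17809, 1), (18481, 2), (20329, 1), (20665, 1), (23857, 1), (24193, 1), (24529, 1)]), (33600, 18, [(2857, 1), (3529, 1), (1009, 0), (1, 1), (3529, 0), (337, 1), (1177, 1), (5881, 1), (6217, 1), (6553, 1), (25537, 1), (26209, 1), (26881, 1), (22513, 0), (22681, 0), (16129, 1), (17136, 2)])])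

/-- column -/
noncomputable def tab79bc35 : ℕ × List Blk := (35, [(3864, 0, [(1, 1), (3025, 1), (4033, 1), (10081, 1), (10417, 1), (8737, 1), (11257, 1), (11761, 1), (22177, 1), (22513, 1), (22849, 1), (17809, 1), (18481, 1), (20329, 1), (20833, 1), (23857, 1), (24361, 1), (25033, 1)]), (33768, 18, [(2857, 1), (3529, 1), (4033, 1), (1, 1), (841, 1), (505, 1), (1345, 1), (5881, 1), (6385, 1), (7057, 1), (25537, 1), (26209, 1), (26881, 1), (27385, 1), (27889, 1), (16129, 1), (17137, 1), (17976, 2)])])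

/-- column -/
noncomputable def tab79bc36 : ℕ × List Blk := (36, [(4200, 0, [(1, 0), (2521, 0), (4537, 0), (8233, 0), (8569, 0), (9577, 0), (12097, 0), (12265, 0), (19825, 0), (20161, 0), (20497, 0), (17305, 0), (17641, 0), (21673, 0), (22009, 0), (25705, 0), (25873, 0), (26041, 0), (29401, 0)]), (33936, 19, [(1, 0), (337, 0), (2521, 0), (2857, 0), (3193, 0), (3529, 0), (8569, 0), (8905, 0), (9241, 0), (20497, 0), (20833, 0), (21169, 0), (21505, 0), (21673, 0), (15793, 0), (16129, 0), (16465, 0), (16800, 2)])])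

/-- column -/
noncomputable def tab79bc37 : ℕ × List Blk := (37, [(4368, 0, [(1, 0), (2689, 2), (4537, 0), (9745, 1), (8905, 0), (9745, 0), (12097, 0), (12433, 0), (21841, 1), (20665, 0), (21001, 0), (17809, 2), (18145, 0), (21841, 0), (20665, 1), (25705, 0), (26041, 0), (26377, 0), (32761, 1)]), (34776, 19, [(1, 0), (337, 0), (2353, 0), (2689, 0), (1, 1), (3697, 0), (8065, 0), (8737, 0), (6385, 1), (25033, 1), (21337, 0), (21673, 0), (22009, 0), (22177, 0), (15961, 2), (16297, 0), (16633, 0), (16297, 1), (17808, 2)])])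

/-- column -/
noncomputable def tab79bc38 : ℕ × List Blk := (38, [(4032, 0, [(1, 1), (3193, 1), (5041, 0), (10249, 1), (10585, 1), (9073, 1), (12601, 0), (11929, 1), (22345, 1), (22849, 1), (23185, 1), (18313, 1), (18985, 0), (22513, 0), (21337, 1), (26209, 0), (26713, 0), (25537, 1), (33265, 1), (34273, 1)]), (34608, 20, [(1009, 0), (1, 1), (3361, 0), (505, 1), (1345, 1), (8569, 0), (6553, 1), (7225, 1), (25369, 1), (26545, 1), (27553, 1), (23017, 0), (23185, 0), (16297, 1), (17305, 0), (17641, 0), (16801, 1), (18313, 1), (19152, 2)])])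

/-- column -/
noncomputable def tab79bc39 : ℕ × List Blk := (39, [(3528, 0, [(1, 0), (4033, 0), (3025, 2), (11257, 0), (11425, 0), (8737, 0), (8737, 1), (8905, 1), (23857, 0), (24025, 0), (24193, 0), (20329, 0), (20497, 0), (17809, 2), (17977, 1), (20329, 1), (20497, 1), (20665, 1), (35785, 0), (35953, 0)]), (33432, 20, [(6217, 0), (1, 0), (169, 0), (3025, 1), (3697, 1), (1, 1), (169, 1), (337, 1), (30073, 0), (30241, 0), (30409, 0), (30577, 0), (30745, 0), (20833, 0), (21001, 0), (21169, 0), (25705, 1), (26377, 1), (27049, 1), (16128, 2)])])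

/-- column -/
noncomputable def tab79bc40 : ℕ × List Blk := (40, [(4200, 0, [(1, 1), (4537, 1), (2521, 1), (12097, 1), (12265, 1), (9577, 1), (8233, 1), (8569, 1), (25705, 1), (25873, 1), (26041, 1), (21673, 1), (22009, 1), (17305, 1)]), (21840, 14, [(1, 1), (2185, 1), (2521, 1), (2857, 1), (20665, 1), (21001, 1), (21337, 1), (14617, 1), (15289, 1), (14953, 1), (15625, 1), (11761, 1), (12097, 1), (12433, 1)]), (49728, 28, [(17473, 1), (17809, 1), (18145, 1), (18481, 1), (18817, 1), (9409, 1), (10081, 1), (10753, 1), (9745, 1), (10417, 1), (11089, 1), (1, 1), (1008, 2)])])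

/-- column -/
noncomputable def tab79bc41 : ℕ × List Blk := (41, [(3696, 0, [(1, 0), (4033, 0), (3025, 0), (11257, 0), (11593, 0), (8737, 0), (10081, 0), (10417, 0), (23857, 0), (24193, 0), (24529, 0), (20329, 0), (20665, 0), (17809, 0)]), (22176, 14, [(1, 2), (3697, 0), (4033, 0), (4369, 0), (17305, 0), (17641, 0), (17977, 0), (11425, 0), (11761, 0), (14953, 1), (12601, 0), (14281, 0), (14953, 0), (12433, 1)]), (49728, 28, [(13945, 0), (14281, 0), (14617, 0), (14953, 0), (15121, 0), (4705, 0), (5041, 0), (5377, 0), (10081, 1), (6385, 0), (6721, 0), (1, 0), (337, 0), (1008, 2)])])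

/-- column -/
noncomputable def tab79bc42 : ℕ × List Blk := (42, [(4368, 0, [(1, 1), (4537, 1), (2689, 2), (12097, 1), (12433, 1), (9745, 1), (9745, 0), (8905, 1), (25705, 1), (26041, 1), (26377, 1), (21841, 1), (20665, 0), (17809, 2), (18145, 1)]), (25032, 15, [(1177, 0), (1, 1), (337, 1), (17809, 1), (18481, 1), (16129, 0), (12097, 1), (9745, 0), (12433, 1), (13441, 1), (12097, 0), (9745, 1), (10081, 1), (42505, 1), (43177, 1)]), (50736, 30, [(18145, 1), (15121, 0), (15289, 0), (9073, 1), (5377, 0), (5713, 0), (9409, 1), (10585, 1), (11593, 1), (1, 2), (337, 0), (337, 1), (1848, 2)])])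

/-- column -/
noncomputable def tab79bc43 : ℕ × List Blk := (43, [(3864, 0, [(1, 0), (4033, 0), (3025, 0), (11257, 0), (11761, 0), (8737, 0), (10081, 0), (10417, 0), (23857, 0), (24361, 0), (25033, 0), (20329, 0), (20833, 0), (17809, 0), (18481, 0)]), (26040, 15, [(1, 0), (337, 0), (673, 0), (13609, 0), (14113, 0), (14785, 0), (7729, 0), (8233, 0), (8569, 0), (9073, 0), (10585, 0), (11257, 0), (11761, 0), (37801, 0), (38305, 0)]), (49896, 30, [(15121, 0), (15457, 0), (15793, 0), (4705, 0), (5209, 0), (5881, 0), (10585, 1), (6553, 0), (7225, 0), (1, 0), (505, 0), (1009, 0), (1513, 0), (1848, 2)])])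

/-- column -/
noncomputable def tab79bc44 : ℕ × List Blk := (44, [(4032, 0, [(1, 0), (5041, 1), (3193, 0), (12601, 1), (11929, 0), (9073, 0), (10249, 0), (10585, 0), (26209, 1), (26713, 1), (25537, 0), (22513, 1), (21337, 0), (18313, 0), (18985, 1)]), (26376, 15, [(1, 0), (505, 0), (841, 0), (16801, 1), (14785, 0), (15457, 0), (8233, 0), (8737, 0), (11593, 1), (9577, 0), (10921, 0), (11929, 0), (9241, 1), (41497, 1), (42505, 1)]), (50904, 30, [(15289, 0), (15625, 0), (15961, 0), (9577, 1), (5545, 0), (6217, 0), (9913, 1), (11425, 1), (7729, 0), (1, 0), (505, 0), (1009, 1), (2017, 0), (1345, 1), (2856, 2)])])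

/-- column -/
noncomputable def tab79bc45 : ℕ × List Blk := (45, [(4536, 0, [(1, 0), (4705, 0), (3025, 0), (12601, 0), (12769, 0), (10249, 0), (7729, 0), (9241, 1), (26545, 0), (26713, 0), (26881, 0), (22849, 0), (23017, 0), (19321, 0), (21337, 1), (16801, 2)]), (21504, 16, [(1, 1), (169, 1), (23353, 0), (23521, 0), (23689, 0), (17809, 0), (17977, 0), (21001, 1), (21337, 1), (11929, 0), (14953, 1), (15121, 1), (49057, 0), (49225, 0), (49393, 0), (49561, 0)]), (49560, 32, [(21673, 0), (13945, 0), (14113, 0), (14281, 0), (17641, 1), (17977, 1), (18313, 1), (4705, 0), (4873, 0), (9577, 1), (10249, 1), (9745, 1), (10417, 1), (0, 2)])])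

/-- column -/
noncomputable def tab79bc46 : ℕ × List Blk := (46, [(4704, 0, [(1, 0), (4705, 0), (3025, 0), (12601, 0), (12937, 0), (10249, 0), (7729, 0), (9409, 1), (26545, 0), (26881, 0), (27217, 0), (22849, 0), (23185, 0), (19321, 0), (21505, 1), (16801, 0)]), (22176, 16, [(1, 2), (169, 1), (22849, 0), (23185, 0), (23521, 0), (17305, 0), (17641, 0), (20665, 1), (21337, 1), (11425, 0), (14953, 1), (15121, 1), (48553, 0), (48889, 0), (49225, 0), (49561, 0)]), (49728, 32, [(22177, 0), (13945, 0), (14281, 0), (14617, 0), (17809, 1), (18481, 1), (19153, 1), (4705, 0), (5041, 0), (10081, 1), (6385, 0), (10249, 1), (11425, 1), (1, 0), (1008, 2)])])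

/-- column -/
noncomputable def tab79bc47 : ℕ × List Blk := (47, [(4872, 0, [(1, 0), (4705, 0), (3025, 0), (12601, 0), (13105, 0), (10249, 0), (7729, 0), (8233, 0), (26545, 0), (27049, 0), (27721, 0), (22849, 0), (23353, 0), (19321, 0), (21673, 1), (16801, 0)]), (22344, 16, [(1, 0), (505, 2), (22849, 0), (23353, 0), (24025, 0), (17305, 0), (17809, 0), (20833, 1), (18817, 0), (11425, 0), (12265, 0), (15457, 1), (48553, 0), (49057, 0), (49729, 0), (50065, 0)]), (49896, 32, [(22849, 0), (13945, 0), (14449, 0), (15121, 0), (17977, 1), (18985, 1), (16297, 0), (4705, 0), (5209, 0), (10585, 1), (6553, 0), (10753, 1), (12265, 1), (1, 0), (1009, 0), (1848, 2)])])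

/-- column -/
noncomputable def tab79bc48 : ℕ × List Blk := (48, [(5040, 0, [(1, 0), (4705, 0), (3025, 0), (12601, 0), (13273, 0), (10249, 0), (7729, 0), (8233, 0), (26545, 0), (27217, 0), (27889, 0), (22849, 0), (23521, 0), (19321, 0), (19993, 0), (16801, 0), (17473, 0)]), (23016, 17, [(1, 0), (22345, 0), (23017, 0), (23689, 0), (16801, 0), (17473, 0), (20497, 1), (18481, 0), (10921, 0), (11761, 0), (15289, 1), (48049, 0), (48721, 0), (49393, 0), (49897, 0), (50065, 0), (40993, 0)]), (50064, 34, [(14617, 0), (15289, 0), (18145, 1), (15793, 0), (16465, 0), (4705, 0), (5377, 0), (6049, 0), (6721, 0), (11089, 1), (7561, 0), (1, 0), (1009, 0), (1849, 0), (2520, 2)])])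

/-- column -/
noncomputable def tab79bc49 : ℕ × List Blk := (49, [(5208, 0, [(1, 0), (4705, 0), (3025, 0), (12601, 0), (13273, 0), (10249, 0), (7729, 0), (8233, 0), (26545, 0), (27217, 0), (28057, 0), (22849, 0), (23521, 0), (19321, 0), (19993, 0), (16801, 0), (17473, 0)]), (23184, 17, [(1, 0), (22345, 0), (23017, 0), (23857, 0), (16801, 0), (17473, 0), (20665, 1), (18481, 0), (10921, 0), (11761, 0), (12265, 0), (48049, 0), (48721, 0), (49561, 0), (49897, 0), (50569, 0), (40993, 0)]), (50232, 34, [(14617, 0), (15457, 0), (18313, 1), (15793, 0), (16633, 0), (4705, 0), (5377, 0), (6049, 0), (6721, 0), (11425, 1), (7561, 0), (1, 0), (1009, 0), (1849, 0), (2521, 0), (3024, 2)])])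

/-- column -/
noncomputable def tab79bc50 : ℕ × List Blk := (50, [(7560, 0, [(1, 1), (4705, 1), (7225, 1), (13777, 2), (13945, 0), (16297, 1), (19825, 1), (19993, 1), (25873, 0), (26041, 0), (26209, 0), (25873, 1), (28897, 0), (31753, 1), (31921, 1), (37297, 1), (37465, 1)]), (45192, 17, [(1, 1), (4369, 2), (4537, 0), (4705, 0), (9073, 1), (13945, 0), (9241, 1), (14617, 0), (18313, 1), (18481, 1), (18649, 1), (32089, 0), (32257, 0), (32425, 0), (32593, 0), (32761, 0), (32089, 1)]), (77448, 34, [(6889, 0), (7057, 0), (1, 1), (7897, 0), (8065, 0), (12769, 1), (17977, 0), (12937, 1), (18649, 0), (13105, 1), (19321, 0), (24361, 1), (24529, 1), (24697, 1), (24865, 1), (25033, 1), (34272, 2)])])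

/-- column -/
noncomputable def tab79bc51 : ℕ × List Blk := (51, [(7728, 0, [(1, 1), (4705, 1), (7225, 1), (13777, 1), (14449, 2), (16297, 1), (19825, 1), (20161, 1), (28729, 1), (29401, 1), (26881, 0), (25873, 1), (29401, 0), (31753, 1), (32089, 1), (37297, 1), (37633, 1), (37969, 1)]), (49728, 18, [(1, 1), (1009, 2), (1177, 0), (4705, 1), (10081, 0), (5041, 1), (6385, 1), (13945, 1), (14281, 1), (14617, 1), (34609, 1), (35617, 1), (29401, 0), (29569, 0), (29737, 0), (27721, 1), (35617, 0), (35785, 0)]), (77784, 36, [(1, 1), (1513, 1), (9409, 0), (12601, 1), (18313, 0), (12937, 1), (19657, 0), (13273, 1), (14785, 1), (24193, 1), (24529, 1), (24865, 1), (25201, 1), (25369, 1), (34105, 1), (35784, 2)])])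

/-- column -/
noncomputable def tab79bc52 : ℕ × List Blk := (52, [(7896, 0, [(1, 1), (4705, 1), (7225, 1), (13777, 1), (14449, 1), (16297, 1), (19825, 1), (20329, 1), (28729, 1), (29401, 1), (29905, 1), (25873, 1), (26713, 1), (31753, 1), (32257, 1), (37297, 1), (37801, 1), (38473, 1)]), (49896, 18, [(1, 1), (1009, 1), (1849, 2), (4705, 1), (10585, 0), (5209, 1), (6553, 1), (13945, 1), (14449, 1), (15121, 1), (34609, 1), (35617, 1), (36457, 1), (37297, 1), (30745, 0), (27721, 1), (29233, 1), (36457, 0)]), (78120, 36, [(1, 1), (1513, 1), (2689, 1), (12433, 1), (18649, 0), (12937, 1), (14449, 1), (13609, 1), (15121, 1), (24025, 1), (24529, 1), (25201, 1), (25537, 1), (25873, 1), (33937, 1), (35617, 1), (37128, 2)])])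

/-- column -/
noncomputable def tab79bc53 : ℕ × List Blk := (53, [(8064, 0, [(1, 1), (4705, 1), (7225, 1), (13777, 1), (14449, 1), (16297, 1), (19825, 1), (20497, 1), (28729, 1), (29401, 1), (29905, 1), (25873, 1), (26713, 1), (31753, 1), (32425, 1), (37297, 1), (37969, 1), (38641, 1)]), (50064, 18, [(1, 1), (1009, 1), (1849, 1), (4705, 1), (6049, 1), (5377, 1), (6721, 1), (13945, 1), (14617, 1), (15289, 1), (34609, 1), (35617, 1), (36457, 1), (37297, 1), (37969, 1), (27721, 1), (29233, 1), (37129, 0)]), (78456, 36, [(1, 1), (1513, 1), (2689, 1), (12265, 1), (18985, 0), (12937, 1), (14449, 1), (13609, 1), (15121, 1), (23857, 1), (24529, 1), (25201, 1), (25705, 1), (25873, 1), (33769, 1), (35449, 1), (36961, 1), (38304, 2)])])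

/-- column -/
noncomputable def tab79bc54 : ℕ × List Blk := (54, [(8232, 0, [(1, 1), (4705, 1), (7225, 1), (13777, 1), (14449, 1), (16297, 1), (19825, 1), (20497, 1), (28729, 1), (29401, 1), (29905, 1), (25873, 1), (26713, 1), (31753, 1), (32425, 1), (37297, 1), (37969, 1), (38809, 1), (42001, 1)]), (51240, 19, [(1, 1), (841, 1), (3697, 1), (5041, 1), (4369, 1), (5713, 1), (12937, 1), (13609, 1), (14449, 1), (33601, 1), (34609, 1), (35449, 1), (36289, 1), (36961, 1), (26713, 1), (28225, 1), (29401, 1), (27385, 1), (28897, 1)]), (81312, 38, [(1, 1), (9577, 1), (16801, 0), (10249, 1), (11761, 1), (11089, 1), (12601, 1), (21169, 1), (21841, 1), (22681, 1), (23017, 1), (23689, 1), (31081, 1), (32761, 1), (34273, 1), (35617, 1), (36792, 2)])])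

/-- column -/
noncomputable def tab79bc55 : ℕ × List Blk := (55, [(8736, 0, [(1, 0), (5041, 0), (7561, 0), (12769, 0), (13105, 0), (17137, 0), (21169, 0), (21337, 0), (24865, 0), (25201, 0), (25537, 0), (27721, 0), (28057, 0), (33769, 0), (34105, 0), (38977, 0), (39145, 0), (39313, 0), (40993, 0)]), (50064, 19, [(1, 0), (337, 0), (9073, 0), (9409, 0), (9745, 0), (10081, 0), (17137, 0), (17473, 0), (17809, 0), (27385, 0), (27721, 0), (28057, 0), (28393, 0), (28561, 0), (34273, 0), (34609, 0), (34945, 0), (35281, 0), (35617, 0)]), (86016, 38, [(1, 0), (9409, 0), (9745, 0), (10081, 0), (10417, 0), (10753, 0), (11089, 0), (20833, 0), (21169, 0), (21505, 0), (21841, 0), (22177, 0), (25873, 0), (26209, 0), (26545, 0), (26881, 0), (27049, 0), (27552, 2)])])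

/-- column -/
noncomputable def tab79bc56 : ℕ × List Blk := (56, [(8904, 0, [(1, 0), (5209, 0), (7561, 0), (13273, 2), (13609, 0), (17305, 0), (21169, 0), (21505, 0), (28225, 1), (25873, 0), (26209, 0), (28225, 0), (28561, 0), (33937, 0), (34609, 0), (38977, 0), (39313, 0), (39649, 0), (41833, 2)]), (51072, 19, [(1, 0), (337, 0), (8737, 0), (9073, 0), (5041, 1), (10249, 0), (16465, 0), (17137, 0), (17809, 0), (34273, 1), (28225, 0), (28561, 0), (28897, 0), (29065, 0), (34273, 0), (34609, 0), (34945, 0), (28225, 1), (36289, 0)]), (87696, 38, [(1, 0), (8401, 0), (8737, 0), (9745, 0), (10081, 0), (4873, 1), (11257, 0), (19489, 0), (20161, 0), (20833, 0), (21505, 0), (21841, 0), (25873, 2), (26209, 0), (26545, 0), (26881, 0), (27049, 0), (26209, 1), (29064, 2)])])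

/-- column -/
noncomputable def tab79bc57 : ℕ × List Blk := (57, [(9072, 0, [(1, 0), (4033, 1), (7561, 0), (13273, 1), (13945, 0), (17473, 0), (21169, 0), (21673, 0), (28225, 1), (29233, 1), (26545, 0), (25537, 1), (28897, 0), (34105, 0), (32089, 1), (38977, 0), (39481, 0), (40153, 0), (41833, 1), (42841, 0)]), (52248, 20, [(1, 0), (8233, 0), (8569, 0), (4201, 1), (10081, 0), (15625, 0), (16633, 0), (13945, 1), (33265, 1), (34945, 1), (28561, 0), (28897, 0), (29065, 0), (26881, 1), (34273, 0), (34609, 0), (27385, 1), (29569, 1), (36625, 0), (44521, 0)]), (92568, 40, [(4537, 0), (1, 1), (6385, 0), (673, 1), (8233, 0), (14953, 0), (15961, 0), (17305, 0), (12601, 1), (12937, 1), (21169, 1), (22849, 0), (23185, 0), (23521, 0), (23689, 0), (21673, 1), (24529, 1), (26712, 2)])])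

/-- column -/
noncomputable def tab79bc58 : ℕ × List Blk := (58, [(8400, 0, [(1, 1), (4873, 1), (8401, 0), (14113, 1), (14953, 2), (16633, 1), (22009, 0), (20833, 1), (29065, 1), (30073, 1), (27553, 0), (26377, 1), (30073, 0), (35113, 0), (33097, 1), (39817, 0), (40489, 0), (38809, 1), (42673, 1), (44185, 2)]), (52920, 20, [(1, 0), (3193, 1), (8401, 0), (3865, 1), (5377, 1), (15289, 0), (12937, 1), (13609, 1), (32761, 1), (34441, 1), (28897, 0), (29233, 0), (29401, 0), (26377, 1), (34441, 0), (34777, 0), (27049, 1), (29233, 1), (36625, 0), (44521, 0)]), (92904, 40, [(4873, 0), (1, 1), (7057, 0), (673, 1), (2017, 1), (14953, 0), (16297, 0), (12265, 1), (12769, 1), (12937, 1), (21001, 1), (23857, 2), (24193, 0), (24529, 0), (24697, 0), (21673, 1), (24529, 1), (26713, 1), (28224, 2)])])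

/-- column -/
noncomputable def tab79bc59 : ℕ × List Blk := (59, [(8568, 0, [(1, 1), (4873, 1), (8401, 0), (14113, 1), (14953, 1), (16633, 1), (22009, 0), (20833, 1), (29065, 1), (30073, 1), (30577, 1), (26377, 1), (30241, 0), (35281, 0), (33097, 1), (39817, 0), (40489, 0), (38977, 1), (42673, 1), (44185, 1)]), (53424, 20, [(1, 0), (2857, 1), (8401, 0), (3529, 1), (5041, 1), (15121, 0), (12601, 1), (13441, 1), (32425, 1), (34105, 1), (35281, 1), (29569, 0), (29737, 0), (26041, 1), (34609, 0), (34945, 0), (26713, 1), (28897, 1), (30241, 1), (44689, 0)]), (93072, 40, [(5377, 0), (1, 1), (7393, 0), (841, 1), (2185, 1), (15121, 0), (16465, 0), (12433, 1), (12769, 1), (13441, 1), (21001, 1), (23857, 1), (25201, 0), (25537, 0), (25705, 0), (21673, 1), (24529, 1), (26713, 1), (28225, 1), (28728, 2)])])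

/-- column -/
noncomputable def tab79bc60 : ℕ × List Blk := (60, [(6552, 0, [(1, 2), (5713, 0), (5713, 1), (17305, 0), (17473, 0), (14785, 2), (17305, 1), (17473, 1), (32761, 0), (32929, 0), (33097, 0), (26881, 0), (27049, 0), (26881, 1), (27049, 1), (32761, 1)]), (39480, 16, [(1, 1), (169, 1), (14785, 0), (14953, 0), (15121, 0), (10081, 2), (10249, 0), (10249, 1), (11257, 2), (14785, 1), (14953, 1), (15121, 1), (50737, 0), (50905, 0), (51073, 0), (51241, 0)]), (77280, 32, [(13609, 0), (1, 0), (169, 0), (337, 0), (7057, 1), (8065, 1), (1849, 0), (1, 1), (7057, 0), (169, 1), (8065, 0), (337, 1), (1849, 1), (12937, 1), (13105, 1), (13273, 1)]), (90720, 48, [(1, 1), (169, 1), (32089, 0), (32257, 0), (32425, 0), (32593, 0), (32761, 0), (39481, 1), (40489, 1), (41497, 1), (34441, 0), (34609, 0), (21000, 2)])])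

/-- column -/
noncomputable def tab79bc61 : ℕ × List Blk := (61, [(6720, 0, [(1, 1), (7057, 1), (5713, 1), (19153, 1), (19489, 1), (14785, 1), (17305, 1), (17641, 1), (35785, 1), (36121, 1), (36457, 1), (29737, 1), (30409, 1), (26881, 1), (27217, 1), (32761, 1)]), (39816, 16, [(1, 1), (337, 1), (19321, 1), (19993, 1), (20665, 1), (9913, 1), (10921, 2), (10249, 1), (11257, 1), (14617, 1), (14953, 1), (15289, 1), (55609, 1), (56281, 1), (56953, 1), (57625, 1)]), (77448, 32, [(20665, 1), (6889, 1), (7897, 1), (1681, 0), (7225, 1), (8233, 1), (9073, 1), (1, 1), (7897, 0), (337, 1), (1849, 1), (673, 1), (2185, 1), (12937, 1), (13273, 1), (13609, 1)]), (91392, 48, [(1, 1), (169, 1), (38809, 1), (39817, 1), (40825, 1), (33769, 0), (33937, 0), (39145, 1), (40153, 1), (41161, 1), (42001, 1), (42841, 1), (20497, 1), (22176, 2)])])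

/-- column -/
noncomputable def tab79bc62 : ℕ × List Blk := (62, [(6888, 0, [(1, 1), (7057, 1), (5713, 1), (19153, 1), (19489, 1), (14785, 1), (17305, 1), (17809, 1), (35785, 1), (36121, 1), (36457, 1), (29737, 1), (30409, 1), (26881, 1), (27385, 1), (32761, 1)]), (40152, 16, [(1, 1), (673, 1), (19153, 1), (19825, 1), (20497, 1), (9745, 1), (10753, 1), (10249, 1), (11257, 1), (14449, 1), (14953, 1), (15625, 1), (55441, 1), (56113, 1), (56785, 1), (57457, 1)]), (77616, 32, [(20665, 1), (6889, 1), (7897, 1), (8737, 1), (7393, 1), (8401, 1), (9241, 1), (1, 1), (1513, 1), (505, 1), (2017, 1), (1177, 1), (2689, 1), (12937, 1), (13441, 1), (14113, 1)]), (92064, 48, [(1, 1), (337, 1), (38305, 1), (39313, 1), (40321, 1), (41161, 1), (42001, 1), (38809, 1), (39817, 1), (40825, 1), (41665, 1), (42505, 1), (19993, 1), (21673, 1), (23184, 2)])])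

/-- column -/
noncomputable def tab79bc63 : ℕ × List Blk := (63, [(6720, 0, [(1, 0), (5713, 0), (7057, 0), (17305, 0), (17641, 0), (14785, 0), (19153, 0), (19489, 0), (32761, 0), (33097, 0), (33433, 0), (26881, 0), (27217, 0), (29737, 0), (30409, 0), (35785, 0)]), (42840, 16, [(1, 0), (337, 0), (11593, 0), (11929, 0), (12265, 0), (6889, 0), (7225, 0), (7897, 2), (8233, 0), (16297, 0), (16969, 0), (17641, 0), (47545, 0), (47881, 0), (48217, 0), (48553, 0)]), (77448, 32, [(14113, 0), (1, 0), (337, 0), (673, 0), (7897, 1), (1849, 0), (2185, 0), (6889, 0), (7225, 0), (7897, 0), (8233, 0), (1681, 1), (9073, 0), (17977, 0), (18649, 0), (19321, 0)]), (97440, 48, [(1, 0), (673, 0), (25537, 0), (25873, 0), (26209, 0), (26545, 0), (26713, 0), (33769, 1), (27721, 0), (28057, 0), (28393, 0), (28561, 0), (14449, 0), (14785, 0), (15121, 0), (16128, 2)])])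

/-- column -/
noncomputable def tab79bc64 : ℕ × List Blk := (64, [(7056, 0, [(1, 2), (7057, 1), (7057, 0), (19153, 1), (17977, 0), (15121, 2), (19153, 0), (17977, 1), (35785, 1), (36457, 1), (34105, 0), (30073, 1), (27721, 0), (30073, 0), (27721, 1), (35785, 0), (36457, 0)]), (41160, 17, [(1, 1), (18649, 1), (14953, 0), (15289, 0), (9577, 2), (9913, 0), (9913, 1), (11425, 2), (18649, 0), (14953, 1), (15289, 1), (54937, 1), (56281, 1), (51409, 0), (51745, 0), (51913, 0), (44185, 1)]), (79296, 34, [(1, 0), (337, 0), (6385, 1), (8065, 1), (2521, 0), (6049, 0), (6385, 0), (1, 1), (8065, 0), (337, 1), (2521, 1), (16801, 0), (18145, 0), (13273, 1), (13609, 1), (13777, 1), (51913, 1)]), (113568, 51, [(11593, 0), (11929, 0), (12265, 0), (12433, 0), (17977, 1), (19825, 1), (21505, 1), (14785, 0), (14953, 0), (1, 2), (337, 0), (673, 0), (337, 1), (3192, 2)])])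

/-- column -/
noncomputable def tab79bc65 : ℕ × List Blk := (65, [(7224, 0, [(1, 1), (7057, 1), (5881, 1), (19153, 1), (19657, 1), (15121, 1), (19321, 0), (18145, 1), (35785, 1), (36457, 1), (36961, 1), (30073, 1), (31081, 1), (27385, 1), (27889, 1), (35953, 0), (33937, 1)]), (41832, 17, [(1, 1), (18145, 1), (19321, 1), (20329, 1), (9073, 1), (10081, 0), (9577, 1), (11089, 1), (18649, 0), (14617, 1), (15289, 1), (54433, 1), (55777, 1), (56953, 1), (57961, 1), (58465, 1), (43681, 1)]), (79128, 34, [(8065, 1), (1681, 0), (6889, 1), (8569, 1), (9745, 1), (1, 1), (7393, 0), (505, 1), (2689, 1), (1177, 1), (3361, 1), (17641, 0), (13441, 1), (14113, 1), (14449, 1), (14785, 1), (52249, 1)]), (113736, 51, [(19489, 1), (21169, 1), (13441, 0), (13609, 0), (18145, 1), (19993, 1), (21673, 1), (22849, 1), (23353, 1), (1, 1), (1681, 0), (2017, 0), (505, 1), (3361, 1), (5544, 2)])])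

/-- column -/
noncomputable def tab79bc66 : ℕ × List Blk := (66, [(6888, 0, [(1, 0), (5713, 0), (7057, 0), (17305, 0), (17809, 0), (14785, 0), (19153, 0), (19489, 0), (32761, 0), (33265, 0), (33937, 0), (26881, 0), (27385, 0), (29737, 0), (30409, 0), (35785, 0), (36121, 0)]), (43344, 17, [(1, 0), (11257, 0), (11761, 0), (12433, 0), (6553, 0), (7057, 0), (7561, 0), (8065, 0), (15961, 0), (16633, 0), (17305, 0), (47209, 0), (47713, 0), (48385, 0), (48721, 0), (49057, 0), (34273, 0)]), (78120, 34, [(1, 0), (673, 0), (1009, 0), (1513, 0), (2185, 0), (6385, 0), (6889, 0), (7393, 0), (7897, 0), (8233, 0), (8737, 0), (17473, 0), (18145, 0), (18817, 0), (19489, 0), (20161, 0), (45025, 0)]), (112056, 51, [(11593, 0), (12265, 0), (12601, 0), (12937, 0), (20161, 1), (13441, 0), (14113, 0), (14449, 0), (14785, 0), (1, 0), (505, 0), (1177, 0), (1681, 0), (2185, 0), (2857, 0), (3192, 2)])])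

/-- column -/
noncomputable def tab79bc67 : ℕ × List Blk := (67, [(7224, 0, [(1, 0), (5881, 0), (7057, 0), (19321, 1), (18145, 0), (15121, 0), (19153, 0), (19657, 0), (35953, 1), (33937, 0), (34609, 0), (27385, 0), (27889, 0), (30073, 0), (31081, 0), (35785, 0), (36457, 0)]), (44184, 17, [(1, 0), (16297, 1), (12265, 0), (12937, 0), (6721, 0), (7225, 0), (7729, 1), (8737, 0), (15793, 0), (16969, 0), (17977, 0), (52585, 1), (48385, 0), (49057, 0), (49393, 0), (49729, 0), (34945, 0)]), (79632, 34, [(1, 0), (673, 0), (6889, 1), (2185, 0), (2857, 0), (5881, 0), (6385, 0), (7561, 0), (8065, 0), (1177, 1), (9241, 0), (16633, 0), (17977, 0), (19153, 0), (20161, 0), (20665, 0), (52585, 1)]), (113736, 51, [(11761, 0), (12433, 0), (12769, 0), (13105, 0), (18817, 1), (21337, 1), (14953, 0), (15289, 0), (15625, 0), (1, 0), (505, 0), (1177, 0), (1681, 1), (3361, 0), (4033, 0), (2017, 1), (5544, 2)])])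

/-- column -/
noncomputable def tab79bc68 : ℕ × List Blk := (68, [(7392, 0, [(1, 2), (7057, 1), (7057, 0), (19321, 1), (19825, 1), (15457, 2), (19321, 0), (19825, 0), (35953, 1), (36793, 1), (34777, 0), (30409, 1), (28225, 0), (30409, 0), (28225, 1), (35953, 0), (36793, 0), (34777, 1)]), (51744, 18, [(8905, 1), (10417, 1), (6217, 0), (1, 2), (505, 0), (505, 1), (2017, 2), (8905, 0), (10417, 0), (6217, 1), (45193, 1), (47041, 1), (42337, 0), (42673, 0), (43009, 0), (34609, 1), (29065, 0), (29737, 0)]), (80808, 36, [(6049, 1), (8065, 1), (3025, 0), (5545, 0), (6049, 0), (1, 1), (8065, 0), (673, 1), (3025, 1), (16129, 0), (17977, 0), (13273, 1), (13609, 1), (13945, 1), (51577, 1), (54097, 1), (46705, 0), (47041, 0)]), (115248, 54, [(12937, 0), (17641, 1), (20161, 1), (22345, 1), (23017, 1), (14785, 0), (1, 2), (505, 0), (1177, 0), (505, 1), (4033, 2), (4705, 0), (1177, 1), (4705, 1), (7056, 2)])])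

/-- column -/
noncomputable def tab79bc69 : ℕ × List Blk := (69, [(7560, 0, [(1, 0), (7225, 0), (4705, 0), (19825, 0), (19993, 0), (16297, 0), (13777, 2), (13945, 1), (37297, 0), (37465, 0), (37633, 0), (31753, 0), (31921, 0), (25873, 0), (28897, 1), (25873, 1), (26041, 1), (26209, 1)]), (49560, 18, [(13945, 0), (14113, 0), (14281, 0), (4705, 0), (4873, 0), (9577, 1), (10249, 1), (1, 2), (169, 1), (337, 1), (52249, 0), (52417, 0), (52585, 0), (52753, 0), (52921, 0), (40657, 0), (40825, 0), (40993, 0)]), (77280, 36, [(18145, 1), (18817, 1), (19489, 1), (1, 0), (169, 0), (7057, 1), (8065, 1), (7225, 1), (8233, 1), (1, 1), (169, 1), (337, 1), (505, 1), (673, 1), (61153, 0), (61321, 0), (61489, 0), (61657, 0)]), (111720, 54, [(27385, 0), (34105, 1), (34777, 1), (35449, 1), (36121, 1), (36793, 1), (11089, 0), (11257, 0), (11425, 0), (18481, 1), (19489, 1), (20497, 1), (18649, 1), (19657, 1), (20665, 1), (0, 2)])])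

/-- column -/
noncomputable def tab79bc70 : ℕ × List Blk := (70, [(8736, 0, [(1, 1), (7561, 1), (5041, 1), (21169, 1), (21337, 1), (17137, 1), (12769, 1), (13105, 1), (38977, 1), (39145, 1), (39313, 1), (33769, 1), (34105, 1), (27721, 1), (28057, 1), (24865, 1), (25201, 1), (25537, 1)]), (49728, 18, [(17473, 1), (17809, 1), (18145, 1), (9409, 1), (10081, 1), (9745, 1), (10417, 1), (1, 1), (337, 1), (673, 1), (57121, 1), (57457, 1), (57793, 1), (58129, 1), (58465, 1), (45697, 1), (46369, 1), (47041, 1)]), (77448, 36, [(18313, 1), (18985, 1), (19657, 1), (6889, 1), (7897, 1), (7225, 1), (8233, 1), (7561, 1), (8569, 1), (1, 1), (337, 1), (673, 1), (1009, 1), (1177, 1), (68377, 1), (69049, 1), (69721, 1), (70393, 1)]), (111888, 54, [(36625, 1), (34273, 1), (34945, 1), (35617, 1), (36289, 1), (36961, 1), (18313, 1), (19321, 1), (20329, 1), (18649, 1), (19657, 1), (20665, 1), (18985, 1), (19993, 1), (21001, 1), (1, 1), (1680, 2)])])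

/-- column -/
noncomputable def tab79bc71 : ℕ × List Blk := (71, [(7728, 0, [(1, 0), (7225, 0), (4705, 0), (19825, 0), (20161, 0), (16297, 0), (13777, 0), (14449, 2), (37297, 0), (37633, 0), (37969, 0), (31753, 0), (32089, 0), (25873, 0), (29401, 1), (28729, 0), (29401, 0), (26881, 1)]), (49728, 18, [(13945, 0), (14281, 0), (14617, 0), (4705, 0), (5041, 0), (10081, 1), (6385, 0), (1, 0), (1009, 2), (1177, 1), (52249, 0), (52585, 0), (52921, 0), (53257, 0), (53425, 0), (40657, 0), (40993, 0), (41329, 0)]), (77448, 36, [(18649, 1), (19993, 1), (15121, 0), (1, 0), (337, 0), (7897, 1), (1849, 0), (8065, 1), (9745, 1), (6889, 0), (7897, 0), (1681, 1), (1849, 1), (2017, 1), (61153, 0), (61489, 0), (61825, 0), (62161, 0)]), (111888, 54, [(27889, 0), (34609, 1), (35953, 1), (37297, 1), (29905, 0), (30073, 0), (11089, 0), (11425, 0), (11761, 0), (19321, 1), (13273, 0), (13609, 0), (19489, 1), (21337, 1), (23017, 1), (1, 0), (337, 0), (1680, 2)])])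

/-- column -/
noncomputable def tab79bc72 : ℕ × List Blk := (72, [(8904, 0, [(1, 1), (7561, 1), (5209, 1), (21169, 1), (21505, 1), (17305, 1), (13273, 2), (13609, 1), (38977, 1), (39313, 1), (39649, 1), (33937, 1), (34609, 1), (28225, 1), (28561, 1), (28225, 0), (25873, 1), (26209, 1), (58633, 1)]), (50736, 19, [(17473, 1), (18145, 1), (9073, 1), (5377, 0), (9409, 1), (10585, 1), (1, 2), (337, 1), (673, 1), (56449, 1), (57121, 1), (57793, 1), (58465, 1), (58801, 1), (45361, 1), (46705, 1), (41833, 0), (45697, 1), (47041, 1)]), (79296, 38, [(19657, 1), (6049, 1), (1, 0), (6385, 1), (8065, 1), (6721, 1), (8401, 1), (6049, 0), (1, 1), (337, 1), (673, 1), (841, 1), (67201, 1), (68545, 1), (69889, 1), (62497, 0), (62665, 0), (67537, 1), (68881, 1)]), (113568, 57, [(35953, 1), (37129, 1), (37633, 1), (17641, 1), (11593, 0), (11929, 0), (17977, 1), (19825, 1), (21505, 1), (18313, 1), (20161, 1), (21841, 1), (1, 2), (337, 0), (337, 1), (3192, 2)])])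

/-- column -/
noncomputable def tab79bc73 : ℕ × List Blk := (73, [(7896, 0, [(1, 0), (7225, 0), (4705, 0), (19825, 0), (20329, 0), (16297, 0), (13777, 0), (14449, 0), (37297, 0), (37801, 0), (38473, 0), (31753, 0), (32257, 0), (25873, 0), (26713, 0), (28729, 0), (29401, 0), (29905, 0), (55945, 0)]), (49896, 19, [(14449, 0), (15121, 0), (4705, 0), (5209, 0), (10585, 1), (6553, 0), (1, 0), (1009, 0), (1849, 2), (52249, 0), (52753, 0), (53425, 0), (53761, 0), (54097, 0), (40657, 0), (41161, 0), (41833, 0), (46873, 1), (42673, 0)]), (77616, 38, [(15625, 0), (1, 0), (505, 0), (1513, 0), (2017, 0), (8737, 1), (3193, 0), (6889, 0), (7897, 0), (8737, 0), (9577, 0), (3025, 1), (61153, 0), (61657, 0), (62329, 0), (62665, 0), (63001, 0), (69553, 1), (71569, 1)]), (112056, 57, [(30073, 0), (30409, 0), (30745, 0), (11089, 0), (11593, 0), (12265, 0), (20161, 1), (13441, 0), (14113, 0), (20329, 1), (22849, 1), (15457, 0), (1, 0), (505, 0), (1681, 0), (2185, 0), (3192, 2)])])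

/-- column -/
noncomputable def tab79bc74 : ℕ × List Blk := (74, [(9072, 0, [(1, 1), (7561, 1), (4033, 0), (21169, 1), (21673, 1), (17473, 1), (13273, 0), (13945, 1), (38977, 1), (39481, 1), (40153, 1), (34105, 1), (32089, 0), (25537, 0), (28897, 1), (28225, 0), (29233, 0), (26545, 1), (58801, 1)]), (50904, 19, [(17977, 1), (15289, 0), (9577, 1), (5545, 0), (9913, 1), (11425, 1), (1, 0), (1009, 1), (1345, 1), (56617, 1), (57625, 1), (58969, 1), (54265, 0), (54601, 0), (45865, 1), (41665, 0), (42337, 0), (46201, 1), (48049, 1)]), (79128, 38, [(21673, 1), (1, 0), (505, 0), (7393, 1), (2689, 0), (7729, 1), (9745, 1), (6385, 0), (8065, 0), (1681, 1), (2017, 1), (2185, 1), (68041, 1), (70057, 1), (63001, 0), (63337, 0), (63673, 0), (68377, 1), (70393, 1)]), (113736, 57, [(37969, 1), (38977, 1), (39817, 1), (18481, 1), (11761, 0), (12433, 0), (18817, 1), (21337, 1), (14953, 0), (19153, 1), (21673, 1), (23857, 1), (1, 0), (505, 0), (1681, 1), (3361, 0), (2017, 1),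 (5544, 2)])])

/-- column -/
noncomputable def tab79bc75 : ℕ × List Blk := (75, [(8064, 0, [(1, 0), (7225, 0), (4705, 0), (19825, 0), (20497, 0), (16297, 0), (13777, 0), (14449, 0), (37297, 0), (37969, 0), (38641, 0), (31753, 0), (32425, 0), (25873, 0), (26713, 0), (28729, 0), (29401, 0), (29905, 0), (55945, 0)]), (50064, 19, [(14617, 0), (15289, 0), (4705, 0), (5377, 0), (6049, 0), (6721, 0), (1, 0), (1009, 0), (1849, 0), (52249, 0), (52921, 0), (53593, 0), (54097, 0), (54265, 0), (40657, 0), (41329, 0), (42001, 0), (47377, 1), (42841, 0)]), (77784, 38, [(15793, 0), (1, 0), (673, 0), (1513, 0), (2185, 0), (9409, 1), (3361, 0), (6889, 0), (7897, 0), (8737, 0), (9577, 0), (10249, 0), (61153, 0), (61825, 0), (62497, 0), (63001, 0), (63169, 0), (70057, 1), (64009, 0)]), (112224, 57, [(30241, 0), (30745, 0), (30913, 0), (11089, 0), (11761, 0), (12433, 0), (12937, 0), (13609, 0), (14281, 0), (21001, 1), (14953, 0), (15625, 0), (1, 0), (673, 0), (1681, 0), (2353,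 0), (3193, 0), (3865, 0), (4536, 2)])])

/-- column -/
noncomputable def tab79bc76 : ℕ × List Blk := (76, [(8400, 0, [(1, 0), (8401, 1), (4873, 0), (22009, 1), (20833, 0), (16633, 0), (14113, 0), (14953, 2), (39817, 1), (40489, 1), (38809, 0), (35113, 1), (33097, 0), (26377, 0), (30073, 1), (29065, 0), (30073, 0), (27553, 1), (59809, 1), (57457, 0)]), (51072, 20, [(15457, 0), (5041, 0), (5713, 0), (10249, 1), (7225, 0), (1, 0), (1513, 2), (1849, 1), (56785, 1), (58129, 1), (54097, 0), (54601, 0), (54769, 0), (46369, 1), (41833, 0), (42505, 0), (46705, 1), (48889, 1), (43849, 0), (28225, 0)]), (79968, 40, [(1, 0), (7393, 1), (2185, 0), (7729, 1), (9577, 1), (5713, 0), (7393, 0), (1849, 1), (2185, 1), (2353, 1), (67873, 1), (61825, 0), (62497, 0), (63001, 0), (63169, 0), (68209, 1), (70729, 1), (72745, 1), (65017, 0), (65185, 0)]), (113904, 60, [(11257, 0), (11929, 0), (12601, 0), (19489, 1), (14449, 0), (15121, 0), (19825, 1), (22681, 1), (24361, 1), (1, 0),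 (673, 0), (2857, 2), (3529, 0), (3193, 1), (5713, 0), (3529, 1), (7224, 2)])])

/-- column -/
noncomputable def tab79bc77 : ℕ × List Blk := (77, [(8232, 0, [(1, 0), (7225, 0), (4705, 0), (19825, 0), (20497, 0), (16297, 0), (13777, 0), (14449, 0), (37297, 0), (37969, 0), (38809, 0), (31753, 0), (32425, 0), (25873, 0), (26713, 0), (28729, 0), (29401, 0), (29905, 0), (55945, 0), (56617, 0)]), (50232, 20, [(15457, 0), (4705, 0), (5377, 0), (6049, 0), (6721, 0), (1, 0), (1009, 0), (1849, 0), (52249, 0), (52921, 0), (53761, 0), (54097, 0), (54769, 0), (40657, 0), (41329, 0), (42169, 0), (47881, 1), (42841, 0), (43681, 0), (27721, 0)]), (78624, 40, [(1, 0), (841, 0), (1513, 0), (2017, 0), (2689, 0), (6217, 0), (7225, 0), (8065, 0), (8905, 0), (9577, 0), (60481, 0), (61153, 0), (61993, 0), (62329, 0), (63001, 0), (69889, 1), (63337, 0), (64177, 0), (64513, 0), (65185, 0)]), (112392, 60, [(11089, 0), (11761, 0), (12601, 0), (12937, 0), (13609, 0), (14449, 0), (21673,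 1), (14953, 0), (15793, 0), (1, 0), (673, 0), (1681, 0), (2353, 0), (3193, 0), (3865, 0), (4537, 0), (5209, 0), (5712, 2)])])

/-- column -/
noncomputable def tab79bc78 : ℕ × List Blk := (78, [(8568, 0, [(1, 0), (8401, 1), (4873, 0), (22009, 1), (20833, 0), (16633, 0), (14113, 0), (14953, 0), (39817, 1), (40489, 1), (38977, 0), (35281, 1), (33097, 0), (26377, 0), (30241, 1), (29065, 0), (30073, 0), (30577, 0), (59977, 1), (57457, 0)]), (51240, 20, [(15625, 0), (5041, 0), (5713, 0), (10585, 1), (7225, 0), (1, 0), (1513, 0), (2185, 1), (56953, 1), (58297, 1), (54265, 0), (54601, 0), (55273, 0), (46873, 1), (41833, 0), (42673, 0), (47209, 1), (49225, 1), (44017, 0), (28225, 0)]), (80136, 40, [(1, 0), (7897, 1), (2185, 0), (8233, 1), (3529, 0), (5713, 0), (7393, 0), (8569, 0), (2857, 1), (3025, 1), (68377, 1), (61825, 0), (62665, 0), (63001, 0), (63673, 0), (68713, 1), (71065, 1), (73417, 1), (65017, 0), (65521, 0)]), (114072, 60, [(11257, 0), (11929, 0), (12769,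 0), (20161, 1), (14449, 0), (15289, 0), (20497, 1), (23017, 1), (15961, 0), (1, 0), (673, 0), (2857, 0), (3529, 0), (4201, 1), (5713, 0), (4537, 1), (7225, 0), (4705, 1), (7728, 2)])])

/-- block -/
noncomputable def tab79br0 : Blk := (168, 0, [(0, 0)])

/-- block -/
noncomputable def tab79br1 : Blk := (504, 1, [(0, 0), (168, 0)])

/-- block -/
noncomputable def tab79br2 : Blk := (840, 3, [(0, 0), (168, 0), (336, 0), (504, 0), (672, 0)])

/-- block -/
noncomputable def tab79br3 : Blk := (1848, 8, [(0, 0), (336, 0), (504, 0), (672, 0), (840, 0), (1008, 0), (1176, 0), (1344, 0), (1512, 0)])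

/-- block -/
noncomputable def tab79br4 : Blk := (3528, 17, [(0, 0), (168, 0), (336, 0), (504, 0), (672, 0), (840, 0), (1008, 0), (1176, 0), (1344, 0), (1512, 0), (1680, 0), (1848, 0), (2016, 0), (2184, 0), (2352, 0), (2520, 0), (2688, 0), (2856, 0)])

/-- block -/
noncomputable def tab79br5 : Blk := (6720, 35, [(0, 0), (168, 0), (504, 0), (840, 0), (1008, 0), (1176, 0), (1344, 0), (1512, 0), (1680, 0), (1848, 0), (2016, 0), (2184, 0), (2352, 0), (2520, 0), (2688, 0), (2856, 0), (3024, 0), (3192, 0), (3360, 0), (3528, 0), (3696, 0), (3864, 0), (4032, 0), (4200, 0), (4368, 0), (4536, 0), (4704, 0), (4872, 0), (5040, 0), (5208, 0), (5376, 0)])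

/-- block -/
noncomputable def tab79br6 : Blk := (12264, 66, [(0, 0), (168, 0), (336, 0), (504, 0), (672, 0), (840, 0), (1008, 0), (1176, 0), (1344, 0), (1512, 0), (1680, 0), (1848, 0), (2016, 0), (2184, 0), (2352, 0), (2520, 0), (2688, 0), (2856, 0), (3024, 0), (3192, 0), (3360, 0), (3528, 0), (3696, 0), (3864, 0), (4032, 0), (4200, 0), (4368, 0), (4536, 0), (4704, 0), (4872, 0), (5040, 0), (5208, 0), (5376, 0), (5544, 0), (5712, 0), (5880, 0), (6048, 0), (6216, 0), (6384, 0), (6552, 0), (6720, 0), (6888, 0), (7056, 0), (7224, 0), (7392, 0), (7560, 0), (7728, 0), (7896, 0), (8064, 0), (8232, 0), (8400, 0), (8568, 0), (8736, 0), (8904, 0)])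

/-- block -/
noncomputable def tab79br7 : Blk := (21504, 120, [(0, 0), (168, 0), (336, 0), (504, 0), (840, 0), (1008, 0), (1176, 0), (1512, 0), (1680, 0), (2016, 0), (2352, 0), (2520, 0), (2688, 0), (2856, 0), (3024, 0), (3192, 0), (3360, 0), (3528, 0), (3696, 0), (3864, 0), (4032, 0), (4200, 0), (4368, 0), (4536, 0), (4704, 0), (4872, 0), (5040, 0), (5208, 0), (5376, 0), (5544, 0), (5712, 0), (5880, 0), (6048, 0), (6216, 0), (6384, 0), (6552, 0), (6720, 0), (6888, 0), (7056, 0), (7224, 0), (7392, 0), (7560, 0), (7728, 0), (7896, 0), (8064, 0), (8232, 0), (8400, 0), (8568, 0), (8736, 0), (8904, 0), (9072, 0), (9240, 0), (9408, 0), (9576, 0), (9744, 0), (9912, 0), (10080, 0), (10248, 0), (10416, 0), (10584, 0), (10752, 0), (10920, 0), (11088, 0), (11256, 0), (11424, 0), (11592, 0), (11760, 0)])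

/-- block -/
noncomputable def tab79br8 : Blk := (33432, 187, [(0, 0), (168, 0), (336, 0), (504, 0), (672, 0), (840, 0), (1008, 0), (1176, 0), (1344, 0), (1512, 0), (1680, 0), (1848, 0), (2016, 0), (2184, 0), (2352, 0), (2520, 0), (2688, 0), (2856, 0), (3024, 0), (3192, 0), (3360, 0), (3528, 0), (3696, 0), (3864, 0), (4032, 0), (4200, 0), (4368, 0), (4536, 0), (4704, 0), (4872, 0), (5040, 0), (5208, 0), (5376, 0), (5544, 0), (5712, 0), (5880, 0), (6048, 0), (6216, 0), (6384, 0), (6552, 0), (6720, 0), (6888, 0), (7056, 0), (7224, 0), (7392, 0), (7560, 0), (7728, 0), (7896, 0), (8064, 0), (8232, 0), (8400, 0), (8568, 0), (8736, 0), (8904, 0), (9072, 0), (9240, 0), (9408, 0), (9576, 0), (9744, 0), (9912, 0), (10080, 0), (10248, 0), (10416, 0), (10584, 0), (10752, 0), (10920, 0), (11088, 0), (11256, 0), (11424, 0), (11592, 0), (11760, 0), (11928, 0), (12096, 0), (12264, 0), (12432, 0), (12600, 0), (12768, 0), (12936, 0), (13104, 0), (13272, 0), (13440, 0), (13608,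 0), (13776, 0), (13944, 0), (14112, 0), (14280, 0), (14448, 0), (14616, 0), (14784, 0), (14952, 0), (15120, 0), (15288, 0), (15456, 0), (15624, 0), (15792, 0), (15960, 0)])

/-- block -/
noncomputable def tab79br9 : Blk := (49728, 283, [(0, 0), (168, 0), (336, 0), (504, 0), (672, 0), (840, 0), (1176, 0), (1344, 0), (1512, 0), (1680, 0), (1848, 0), (2184, 0), (2352, 0), (2520, 0), (2688, 0), (3024, 0), (3192, 0), (3360, 0), (3696, 0), (3864, 0), (4200, 0), (4536, 0), (4704, 0), (4872, 0), (5040, 0), (5208, 0), (5376, 0), (5544, 0), (5712, 0), (5880, 0), (6048, 0), (6216, 0), (6384, 0), (6552, 0), (6720, 0), (6888, 0), (7056, 0), (7224, 0), (7392, 0), (7560, 0), (7728, 0), (7896, 0), (8064, 0), (8232, 0), (8400, 0), (8568, 0), (8736, 0), (8904, 0), (9072, 0), (9240, 0), (9408, 0), (9576, 0), (9744, 0), (9912, 0), (10080, 0), (10248, 0), (10416, 0), (10584, 0), (10752, 0), (10920, 0), (11088, 0), (11256, 0), (11424, 0), (11592, 0), (11760, 0), (11928, 0), (12096,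 0), (12264, 0), (12432, 0), (12600, 0), (12768, 0), (12936, 0), (13104, 0), (13272, 0), (13440, 0), (13608, 0), (13776, 0), (13944, 0), (14112, 0), (14280, 0), (14448, 0), (14616, 0), (14784, 0), (14952, 0), (15120, 0), (15288, 0), (15456, 0), (15624, 0), (15792, 0), (15960, 0), (16128, 0), (16296, 0), (16464, 0), (16632, 0), (16800, 0), (16968, 0), (17136, 0), (17304, 0), (17472, 0), (17640, 0), (17808, 0), (17976, 0), (18144, 0), (18312, 0), (18480, 0), (18648, 0), (18816, 0), (18984, 0), (19152, 0), (19320, 0), (19488, 0), (19656, 0), (19824, 0), (19992, 0), (20160, 0), (20328, 0), (20496, 0), (20664, 0), (20832, 0), (21000, 0), (21168, 0), (21336, 0), (21504, 0), (21672, 0), (21840, 0), (22008, 0), (22176, 0), (22344, 0), (22512, 0), (22680, 0), (22848, 0), (23016, 0), (23184, 0), (23352, 0), (23520, 0), (23688, 0), (23856, 0), (24024, 0), (24192, 0), (24360, 0), (24528, 0), (24696, 0), (24864, 0), (25032, 0), (25200, 0), (25368, 0), (25536, 0), (25704,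 0), (25872, 0), (26040, 0), (26208, 0), (26376, 0), (26544, 0), (26712, 0), (26880, 0), (27048, 0), (27216, 0), (27384, 0)])

/-- block -/
noncomputable def tab79br10 : Blk := (77280, 441, [(0, 0), (168, 0), (336, 0), (504, 0), (672, 0), (840, 0), (1008, 0), (1176, 0), (1344, 0), (1512, 0), (1680, 0), (1848, 0), (2016, 0), (2184, 0), (2352, 0), (2520, 0), (2688, 0), (2856, 0), (3024, 0), (3192, 0), (3360, 0), (3528, 0), (3696, 0), (3864, 0), (4032, 0), (4200, 0), (4368, 0), (4536, 0), (4704, 0), (4872, 0), (5040, 0), (5208, 0), (5376, 0), (5544, 0), (5712, 0), (5880, 0), (6048, 0), (6216, 0), (6384, 0), (6552, 0), (6720, 0), (6888, 0), (7056, 0), (7224, 0), (7392, 0), (7560, 0), (7728, 0), (7896, 0), (8064, 0), (8232, 0), (8400, 0), (8568, 0), (8736, 0), (8904, 0), (9072, 0), (9240, 0), (9408, 0), (9576, 0), (9744, 0), (9912, 0), (10080, 0), (10248, 0), (10416, 0), (10584, 0), (10752, 0), (10920, 0), (11088, 0), (11256, 0), (11424, 0), (11592, 0), (11760, 0),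 (11928, 0), (12096, 0), (12264, 0), (12432, 0), (12600, 0), (12768, 0), (12936, 0), (13104, 0), (13272, 0), (13440, 0), (13608, 0), (13776, 0), (13944, 0), (14112, 0), (14280, 0), (14448, 0), (14616, 0), (14784, 0), (14952, 0), (15120, 0), (15288, 0), (15456, 0), (15624, 0), (15792, 0), (15960, 0), (16128, 0), (16296, 0), (16464, 0), (16632, 0), (16800, 0), (16968, 0), (17136, 0), (17304, 0), (17472, 0), (17640, 0), (17808, 0), (17976, 0), (18144, 0), (18312, 0), (18480, 0), (18648, 0), (18816, 0), (18984, 0), (19152, 0), (19320, 0), (19488, 0), (19656, 0), (19824, 0), (19992, 0), (20160, 0), (20328, 0), (20496, 0), (20664, 0), (20832, 0), (21000, 0), (21168, 0), (21336, 0), (21504, 0), (21672, 0), (21840, 0), (22008, 0), (22176, 0), (22344, 0), (22512, 0), (22680, 0), (22848, 0), (23016, 0), (23184, 0), (23352, 0), (23520, 0), (23688, 0), (23856, 0), (24024, 0), (24192, 0), (24360, 0), (24528, 0), (24696, 0), (24864, 0), (25032, 0), (25200, 0), (25368, 0),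 (25536, 0), (25704, 0), (25872, 0), (26040, 0), (26208, 0), (26376, 0), (26544, 0), (26712, 0), (26880, 0), (27048, 0), (27216, 0), (27384, 0), (27552, 0), (27720, 0), (27888, 0), (28056, 0), (28224, 0), (28392, 0), (28560, 0), (28728, 0), (28896, 0), (29064, 0), (29232, 0), (29400, 0), (29568, 0), (29736, 0), (29904, 0), (30072, 0), (30240, 0), (30408, 0), (30576, 0), (30744, 0), (30912, 0), (31080, 0), (31248, 0), (31416, 0), (31584, 0), (31752, 0), (31920, 0), (32088, 0), (32256, 0), (32424, 0), (32592, 0), (32760, 0), (32928, 0), (33096, 0), (33264, 0), (33432, 0), (33600, 0), (33768, 0), (33936, 0), (34104, 0), (34272, 0)])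

/-- block -/
noncomputable def tab79br11 : Blk := (111888, 646, [(0, 0), (168, 0), (336, 0), (504, 0), (672, 0), (840, 0), (1008, 0), (1176, 0), (1344, 0), (1512, 0), (1848, 0), (2016, 0), (2184, 0), (2352, 0), (2520, 0), (2688, 0), (2856, 0), (3024, 0), (3192, 0), (3528, 0), (3696, 0), (3864, 0), (4032, 0), (4200, 0), (4368, 0), (4536, 0), (4704, 0), (5040, 0), (5208, 0), (5376, 0), (5544, 0), (5712, 0), (5880, 0), (6048, 0), (6384, 0), (6552, 0), (6720, 0), (6888, 0), (7056, 0), (7224, 0), (7560, 0), (7728, 0), (7896, 0), (8064, 0), (8232, 0), (8568, 0), (8736, 0), (8904, 0), (9072, 0), (9408, 0), (9576, 0), (9744, 0), (10080, 0), (10248, 0), (10584, 0), (10920, 0), (11088, 0), (11256, 0), (11424, 0), (11592, 0), (11760, 0), (11928, 0), (12096, 0), (12264, 0), (12432, 0), (12600, 0), (12768, 0), (12936, 0), (13104, 0), (13272, 0), (13440, 0), (13608, 0), (13776, 0), (13944, 0), (14112, 0), (14280, 0), (14448, 0), (14616, 0), (14784, 0), (14952, 0), (15120,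 0), (15288, 0), (15456, 0), (15624, 0), (15792, 0), (15960, 0), (16128, 0), (16296, 0), (16464, 0), (16632, 0), (16800, 0), (16968, 0), (17136, 0), (17304, 0), (17472, 0), (17640, 0), (17808, 0), (17976, 0), (18144, 0), (18312, 0), (18480, 0), (18648, 0), (18816, 0), (18984, 0), (19152, 0), (19320, 0), (19488, 0), (19656, 0), (19824, 0), (19992, 0), (20160, 0), (20328, 0), (20496, 0), (20664, 0), (20832, 0), (21000, 0), (21168, 0), (21336, 0), (21504, 0), (21672, 0), (21840, 0), (22008, 0), (22176, 0), (22344, 0), (22512, 0), (22680, 0), (22848, 0), (23016, 0), (23184, 0), (23352, 0), (23520, 0), (23688, 0), (23856, 0), (24024, 0), (24192, 0), (24360, 0), (24528, 0), (24696, 0), (24864, 0), (25032, 0), (25200, 0), (25368, 0), (25536, 0), (25704, 0), (25872, 0), (26040, 0), (26208, 0), (26376, 0), (26544, 0), (26712, 0), (26880, 0), (27048, 0), (27216, 0), (27384, 0), (27552, 0), (27720, 0), (27888, 0), (28056, 0), (28224, 0), (28392, 0), (28560, 0), (28728,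 0), (28896, 0), (29064, 0), (29232, 0), (29400, 0), (29568, 0), (29736, 0), (29904, 0), (30072, 0), (30240, 0), (30408, 0), (30576, 0), (30744, 0), (30912, 0), (31080, 0), (31248, 0), (31416, 0), (31584, 0), (31752, 0), (31920, 0), (32088, 0), (32256, 0), (32424, 0), (32592, 0), (32760, 0), (32928, 0), (33096, 0), (33264, 0), (33432, 0), (33600, 0), (33768, 0), (33936, 0), (34104, 0), (34272, 0), (34440, 0), (34608, 0), (34776, 0), (34944, 0), (35112, 0), (35280, 0), (35448, 0), (35616, 0), (35784, 0), (35952, 0), (36120, 0), (36288, 0), (36456, 0), (36624, 0), (36792, 0), (36960, 0), (37128, 0), (37296, 0), (37464, 0), (37632, 0), (37800, 0), (37968, 0), (38136, 0), (38304, 0), (38472, 0), (38640, 0), (38808, 0), (38976, 0), (39144, 0), (39312, 0), (39480, 0), (39648, 0), (39816, 0), (39984, 0), (40152, 0), (40320, 0), (40488, 0), (40656, 0), (40824, 0), (40992, 0), (41160, 0), (41328, 0), (41496, 0), (41664, 0), (41832, 0), (42000, 0), (42168, 0), (42336,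 0)])

/-- form -/
noncomputable def tab79bq : List Blk := [(0, 0, [(0, 2), (504, 1), (672, 1), (2688, 1), (2856, 1), (3192, 1), (3360, 1), (3024, 1), (12096, 1), (11424, 1), (11760, 1), (11088, 1), (11928, 1), (11256, 1), (10752, 1), (11592, 1), (10920, 1), (10584, 1), (10416, 1), (504, 0), (672, 0), (1680, 2), (1848, 0), (1848, 1), (2016, 2), (7560, 1), (8736, 0), (7728, 1), (8904, 0), (8064, 1), (8400, 1), (8232, 1), (8568, 1), (7896, 1), (9072, 0), (29064, 1), (29736, 1), (28392, 1), (30912, 0), (28728, 1), (29400, 1), (28056, 1), (30576, 0), (28896, 1), (29568, 1), (28224, 1), (30744, 0), (27720, 1), (30240, 0), (28560, 1), (29232, 1), (27888, 1), (30408, 0), (27552, 1), (30072, 0), (27384, 1), (29904, 0), (2688, 0), (2856, 0), (3192, 0), (3360, 0), (3024, 0), (7560, 0), (7728, 0), (8064, 0), (8232, 0), (7896, 0), (8736, 1), (8904, 1), (8400, 0), (8568, 0), (9072, 1), (21336, 2), (21504, 0), (21840, 0), (22008, 0), (21672, 0), (21504, 1), (22176, 2), (22512,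 0), (22680, 0), (22344, 0), (21840, 1), (22512, 1), (23352, 2), (23520, 0), (23016, 1), (22008, 1), (22680, 1), (23520, 1), (23688, 2), (23184, 1), (21672, 1), (22344, 1), (23016, 0), (23184, 0), (22848, 2), (55944, 1), (57288, 1), (58800, 1), (58968, 1), (58128, 1), (55272, 1), (56616, 1), (62664, 0), (62832, 0), (57456, 1), (55608, 1), (56952, 1), (58464, 1), (63168, 0), (57792, 1), (54936, 1), (56280, 1), (61824, 0), (61992, 0), (61656, 0), (55776, 1), (57120, 1), (58632, 1), (63336, 0), (57960, 1), (55104, 1), (56448, 1), (62328, 0), (62496, 0), (62160, 0), (54600, 1), (60480, 0), (60816, 0), (60984, 0), (60648, 0), (55440, 1), (56784, 1), (58296, 1), (63000, 0), (57624, 1), (54768, 1), (56112, 1), (61320, 0), (61488, 0), (61152, 0), (54432, 1), (59808, 0), (60144, 0), (60312, 0), (59976, 0), (54264, 1), (59136, 0), (59472, 0), (59640, 0), (59304, 0), (12096, 0), (11424, 0), (11760, 0), (11088, 0), (11928, 0), (11256, 0), (10752, 0), (11592, 0), (10920,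 0), (10584, 0), (10416, 0), (29064, 0), (28392, 0), (28728, 0), (28056, 0), (28896, 0), (28224, 0), (27720, 0), (28560, 0), (27888, 0), (27552, 0), (27384, 0), (29736, 0), (30912, 1), (29400, 0), (30576, 1), (29568, 0), (30744, 1), (30240, 1), (29232, 0), (30408, 1), (30072, 1), (29904, 1), (55944, 0), (55272, 0), (55608, 0), (54936, 0), (55776, 0), (55104, 0), (54600, 0), (55440, 0), (54768, 0), (54432, 0), (54264, 0), (57288, 0), (56616, 0), (56952, 0), (56280, 0), (57120, 0), (56448, 0), (60480, 1), (56784, 0), (56112, 0), (59808, 1), (59136, 1), (58800, 0), (62664, 1), (58464, 0), (61824, 1), (58632, 0), (62328, 1), (60816, 1), (58296, 0), (61320, 1), (60144, 1), (59472, 1), (58968, 0), (62832, 1), (63168, 1), (61992, 1), (63336, 1), (62496, 1), (60984, 1), (63000, 1), (61488, 1), (60312, 1), (59640, 1), (58128, 0), (57456, 0), (57792, 0), (61656, 1), (57960, 0), (62160, 1), (60648, 1), (57624, 0), (61152, 1), (59976, 1), (59304, 1), (122640, 2), (120960,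 1), (122136, 1), (119112, 1), (122472, 1), (120120, 1), (116592, 1), (121632, 1), (117936, 1), (115080, 1), (113400, 1), (120960, 0), (120288, 2), (120624, 0), (118440, 1), (120792, 0), (119448, 1), (115920, 1), (120456, 0), (117264, 1), (114408, 1), (112728, 1), (122136, 0), (120624, 1), (121800, 2), (118776, 1), (121968, 0), (119784, 1), (116256, 1), (121296, 1), (117600, 1), (114744, 1), (113064, 1), (119112, 0), (118440, 0), (118776, 0), (118104, 2), (118944, 0), (118272, 0), (115584, 1), (118608, 0), (116928, 1), (114072, 1), (112392, 1), (122472, 0), (120792, 1), (121968, 1), (118944, 1), (122304, 2), (119952, 1), (116424, 1), (121464, 1), (117768, 1), (114912, 1), (113232, 1), (120120, 0), (119448, 0), (119784, 0), (118272, 1), (119952, 0), (119280, 2), (115752, 1), (119616, 0), (117096, 1), (114240, 1), (112560, 1), (116592, 0), (115920, 0), (116256, 0), (115584, 0), (116424, 0), (115752, 0), (115248, 2), (116088, 0), (115416, 0), (113736, 1), (112056,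 1), (121632, 0), (120456, 1), (121296, 0), (118608, 1), (121464, 0), (119616, 1), (116088, 1), (121128, 2), (117432, 1), (114576, 1), (112896, 1), (117936, 0), (117264, 0), (117600, 0), (116928, 0), (117768, 0), (117096, 0), (115416, 1), (117432, 0), (116760, 2), (113904, 1), (112224, 1), (115080, 0), (114408, 0), (114744, 0), (114072, 0), (114912, 0), (114240, 0), (113736, 0), (114576, 0), (113904, 0), (113568, 2), (111888, 1), (113400, 0), (112728, 0), (113064, 0), (112392, 0), (113232, 0), (112560, 0), (112056, 0), (112896, 0), (112224, 0), (111888, 0), (111720, 2)])]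

/-- squares -/
noncomputable def tab79bd : List Blk := [(0, 0, [(0, 2)]), (336, 1, [(0, 2), (0, 2)]), (1680, 3, [(0, 2), (336, 2), (0, 2), (0, 2), (336, 2)]), (6552, 8, [(0, 2), (504, 2), (840, 2), (0, 2), (504, 2), (0, 2), (504, 2), (0, 2), (504, 2), (840, 2)]), (21336, 18, [(0, 2), (840, 2), (1512, 2), (0, 2), (840, 2), (840, 2), (2016, 2), (0, 2), (840, 2), (1512, 2)]), (49560, 28, [(0, 2), (1176, 2), (2184, 2), (3024, 2), (3696, 2), (0, 2), (1176, 2), (2184, 2), (1176, 2), (3024, 2), (4200, 2), (0, 2), (1176, 2), (1176, 2), (3024, 2), (2184, 2), (4200, 2), (0, 2), (1176, 2), (2184, 2), (3024, 2), (3696, 2)]), (111720, 50, [(0, 2), (1848, 2), (3528, 2), (5040, 2), (6384, 2), (1848, 2), (5040, 2), (7560, 2), (9408, 2), (10080, 2), (0, 2), (1848, 2), (3528, 2), (1848, 2), (5040, 2), (7560, 2), (3528, 2), (7560, 2), (10584, 2), (0, 2), (1848, 2), (1848, 2), (5040, 2), (3528, 2), (7560, 2), (5040, 2), (9408, 2), (6384, 2), (10080, 2)]), (21336, 79, [(0, 2),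 (840, 2), (1512, 2), (2016, 2), (2352, 2), (0, 2), (840, 2), (1512, 2), (2016, 2), (2352, 2)]), (49560, 89, [(0, 2), (1176, 2), (2184, 2), (3024, 2), (3696, 2), (4200, 2), (4536, 2), (0, 2), (1176, 2), (2184, 2), (3024, 2), (3696, 2), (4200, 2), (4536, 2)]), (111720, 103, [(0, 2), (1848, 2), (3528, 2), (5040, 2), (6384, 2), (7560, 2), (8568, 2), (9408, 2), (10080, 2), (10584, 2), (10920, 2), (0, 2), (1848, 2), (3528, 2), (5040, 2), (6384, 2), (7560, 2), (8568, 2), (0, 2), (1848, 2), (3528, 2), (5040, 2), (6384, 2), (7560, 2), (8568, 2), (0, 2), (1848, 2), (3528, 2), (5040, 2), (6384, 2), (7560, 2), (8568, 2), (9408, 2), (10080, 2), (10584, 2), (10920, 2)])]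

/-- tables -/
noncomputable def tab79b : Tab6 where
  one := 0
  q := tab79bq
  g := [tab79bg0, tab79bg1, tab79bg2, tab79bg3, tab79bg4, tab79bg5, tab79bg6, tab79bg7, tab79bg8, tab79bg9, tab79bg10, tab79bg11, tab79bg12, tab79bg13, tab79bg14, tab79bg15, tab79bg16, tab79bg17, tab79bg18, tab79bg19, tab79bg20, tab79bg21, tab79bg22, tab79bg23, tab79bg24, tab79bg25, tab79bg26, tab79bg27, tab79bg28, tab79bg29, tab79bg30, tab79bg31, tab79bg32, tab79bg33, tab79bg34, tab79bg35, tab79bg36, tab79bg37, tab79bg38, tab79bg39, tab79bg40, tab79bg41, tab79bg42, tab79bg43, tab79bg44, tab79bg45, tab79bg46, tab79bg47, tab79bg48, tab79bg49, tab79bg50, tab79bg51, tab79bg52, tab79bg53, tab79bg54, tab79bg55, tab79bg56, tab79bg57, tab79bg58, tab79bg59, tab79bg60, tab79bg61, tab79bg62, tab79bg63, tab79bg64, tab79bg65]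
  n := 79
  c := [tab79bc0, tab79bc1, tab79bc2, tab79bc3, tab79bc4, tab79bc5, tab79bc6, tab79bc7, tab79bc8, tab79bc9, tab79bc10, tab79bc11, tab79bc12, tab79bc13, tab79bc14, tab79bc15, tab79bc16, tab79bc17, tab79bc18, tab79bc19, tab79bc20, tab79bc21, tab79bc22, tab79bc23, tab79bc24, tab79bc25, tab79bc26, tab79bc27, tab79bc28, tab79bc29, tab79bc30, tab79bc31, tab79bc32, tab79bc33, tab79bc34, tab79bc35, tab79bc36, tab79bc37, tab79bc38, tab79bc39, tab79bc40, tab79bc41, tab79bc42, tab79bc43, tab79bc44, tab79bc45, tab79bc46, tab79bc47, tab79bc48, tab79bc49, tab79bc50, tab79bc51, tab79bc52, tab79bc53, tab79bc54, tab79bc55, tab79bc56, tab79bc57, tab79bc58, tab79bc59, tab79bc60, tab79bc61, tab79bc62, tab79bc63, tab79bc64, tab79bc65, tab79bc66, tab79bc67, tab79bc68, tab79bc69, tab79bc70, tab79bc71, tab79bc72, tab79bc73, tab79bc74, tab79bc75, tab79bc76, tab79bc77, tab79bc78]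
  d := tab79bd
  r := [tab79br0, tab79br1, tab79br2, tab79br3, tab79br4, tab79br5, tab79br6, tab79br7, tab79br8, tab79br9, tab79br10, tab79br11]
  nQ := 361
  nM := 1126
  nD := 11118
  nC := 6241
  nB := 139
  nR := 889

end Pool.Agent.M16.Helper54.HR2

end

end

section

namespace Pool.Agent.M16.Helper12.HR2
end Pool.Agent.M16.Helper12.HR2
namespace Pool.Agent.M16.Helper54.HR2
end Pool.Agent.M16.Helper54.HR2

section

set_option autoImplicit false

open scoped ComplexConjugate

namespace Pool.Agent.M16.Helper12.HR2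

/-- a monomial: the indices of the variables and the indices of the conjugate variables -/
abbrev Mo := List ℕ × List ℕ

/-- Gaussian integers -/
abbrev GZ := ℤ × ℤ

/-- the complex number of a Gaussian integer -/
noncomputable def gv (z : GZ) : ℂ := (z.1 : ℂ) + (z.2 : ℂ) * Complex.I

/-- product -/
def gmul (z w : GZ) : GZ := (z.1 * w.1 - z.2 * w.2, z.1 * w.2 + z.2 * w.1)

/-- conjugate -/
def gconj (z : GZ) : GZ := (z.1, -z.2)

theorem gv_mul (z w : GZ) : gv (gmul z w) = gv z * gv w := by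
  simp only [gv, gmul]
  push_cast
  linear_combination (-(z.2 : ℂ) * (w.2 : ℂ)) * Complex.I_mul_I

theorem gv_conj (z : GZ) : gv (gconj z) = conj (gv z) := by
  simp only [gv, gconj, map_add, map_mul, Complex.conj_I, map_intCast]
  push_cast
  ring

theorem gv_re (z : GZ) : (gv z).re = z.1 := by simp [gv]

theorem gv_im (z : GZ) : (gv z).im = z.2 := by simp [gv]

/-- polynomials -/
abbrev Pol := List (Mo × GZ)

/-- the value of a monomial -/
noncomputable def mv (φ ψ : ℕ → ℂ) (m : Mo) : ℂ := (m.1.map φ).prod * (m.2.map ψ).prod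

/-- the value of a polynomial -/
noncomputable def pv (φ ψ : ℕ → ℂ) (P : Pol) : ℂ := (P.map (fun x => gv x.2 * mv φ ψ x.1)).sum

/-- product of a monomial term and a polynomial -/
def tmul (x : Mo × GZ) (Q : Pol) : Pol :=
  Q.map (fun y => ((x.1.1 ++ y.1.1, x.1.2 ++ y.1.2), gmul x.2 y.2))

/-- product -/
def pmul (P Q : Pol) : Pol := P.flatMap (fun x => tmul x Q)

/-- conjugate -/
def pconj (P : Pol) : Pol := P.map (fun x => ((x.1.2, x.1.1), gconj x.2))

/-- the weight -/
def wl (A : List ℕ) : ℕ := (A.map (fun k => k + 1)).sum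

section Values

variable (φ ψ : ℕ → ℂ)

theorem mv_mul (m m' : Mo) : mv φ ψ (m.1 ++ m'.1, m.2 ++ m'.2) = mv φ ψ m * mv φ ψ m' := by
  simp only [mv, List.map_append, List.prod_append]
  ring

theorem pv_nil : pv φ ψ [] = 0 := rfl

theorem pv_cons (x : Mo × GZ) (P : Pol) : pv φ ψ (x :: P) = gv x.2 * mv φ ψ x.1 + pv φ ψ P := by
  simp [pv]

theorem pv_append (P Q : Pol) : pv φ ψ (P ++ Q) = pv φ ψ P + pv φ ψ Q := by
  simp [pv]

theorem pv_tmul (x : Mo × GZ) (Q : Pol) :
    pv φ ψ (tmul x Q) = gv x.2 * mv φ ψ x.1 * pv φ ψ Q := by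
  induction Q with
  | nil => simp [tmul, pv_nil]
  | cons y Q ih =>
    change pv φ ψ (((x.1.1 ++ y.1.1, x.1.2 ++ y.1.2), gmul x.2 y.2) :: tmul x Q) = _
    rw [pv_cons, pv_cons, ih, mv_mul, gv_mul]
    ring

theorem pv_mul (P Q : Pol) : pv φ ψ (pmul P Q) = pv φ ψ P * pv φ ψ Q := by
  induction P with
  | nil => simp [pmul, pv_nil]
  | cons x P ih =>
    change pv φ ψ (tmul x Q ++ pmul P Q) = _
    rw [pv_append, pv_cons, ih, pv_tmul]
    ring

theorem prod_conj (l : List ℕ) (f : ℕ → ℂ) :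
    (l.map (fun k => conj (f k))).prod = conj ((l.map f).prod) := by
  induction l with
  | nil => simp
  | cons a l ih => simp [ih]

theorem pv_conj (P : Pol) :
    pv φ ψ (pconj P) = conj (pv (fun k => conj (ψ k)) (fun k => conj (φ k)) P) := by
  induction P with
  | nil => simp [pconj, pv_nil]
  | cons x P ih =>
    change pv φ ψ (((x.1.2, x.1.1), gconj x.2) :: pconj P) = _
    rw [pv_cons, pv_cons, ih, map_add, map_mul, gv_conj]
    congr 2
    simp only [mv, map_mul, prod_conj, Complex.conj_conj]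
    ring

end Values

theorem vanish_aux (B : ℤ) (M : ℕ) : ∀ (l : List (ℕ × ℤ)) (V : ℕ → ℂ),
    (∀ x ∈ l, x.1 < M) → ((l.map (fun x => |x.2|)).sum < B) →
    (l.map (fun x => x.2 * B ^ x.1)).sum = 0 → (l.map (fun x => (x.2 : ℂ) * V x.1)).sum = 0 := by
  induction M with
  | zero =>
    intro l V h _ _
    have : l = [] := by
      rcases l with _ | ⟨x, l⟩
      · rfl
      · exact absurd (h x (by simp)) (by omega)
    rw [this]
    simp
  | succ M ih =>
    intro l V hl hn h0
    have hB : 0 < B := lt_of_le_of_lt (List.sum_nonneg (by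
      intro y hy
      rw [List.mem_map] at hy
      obtain ⟨x, _, rfl⟩ := hy
      exact abs_nonneg _)) hn
    -- the part with exponent zero
    set l0 := l.filter (fun x => x.1 = 0) with hl0
    set l1 := (l.filter (fun x => ¬ x.1 = 0)).map (fun x => (x.1 - 1, x.2)) with hl1
    have key : ∀ (l : List (ℕ × ℤ)) (f : ℕ × ℤ → ℂ) (g : ℕ × ℤ → ℂ),
        (∀ x ∈ l, x.1 = 0 → f x = g x) → (∀ x ∈ l, x.1 ≠ 0 → f x = g x) →
        (l.map f).sum = ((l.filter (fun x => x.1 = 0)).map g).sum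
          + ((l.filter (fun x => ¬ x.1 = 0)).map g).sum := by
      intro l f g h1 h2
      induction l with
      | nil => simp
      | cons x l ih =>
        have ih' := ih (fun y hy => h1 y (by simp [hy])) (fun y hy => h2 y (by simp [hy]))
        by_cases hx : x.1 = 0
        · have := h1 x (by simp) hx
          simp only [List.map_cons, List.sum_cons, hx, List.filter_cons, decide_true, if_true,
            not_true, decide_false, Bool.false_eq_true, if_false, ih', this]
          ring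
        · have := h2 x (by simp) hx
          simp only [List.map_cons, List.sum_cons, hx, List.filter_cons, decide_false,
            Bool.false_eq_true, if_false, not_false_iff, decide_true, if_true, ih', this]
          ring
    have keyZ : ∀ (l : List (ℕ × ℤ)) (f : ℕ × ℤ → ℤ),
        (l.map f).sum = ((l.filter (fun x => x.1 = 0)).map f).sum
          + ((l.filter (fun x => ¬ x.1 = 0)).map f).sum := by
      intro l f
      induction l with
      | nil => simp
      | cons x l ih =>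
        by_cases hx : x.1 = 0
        · simp only [List.map_cons, List.sum_cons, hx, List.filter_cons, decide_true, if_true,
            not_true, decide_false, Bool.false_eq_true, if_false, ih]
          ring
        · simp only [List.map_cons, List.sum_cons, hx, List.filter_cons, decide_false,
            Bool.false_eq_true, if_false, not_false_iff, decide_true, if_true, ih]
          ring
    have habs := keyZ l (fun x => |x.2|)
    have hpow := keyZ l (fun x => x.2 * B ^ x.1)
    -- the exponent zero part of the power sum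
    have e0 : (l0.map (fun x => x.2 * B ^ x.1)).sum = (l0.map (fun x => x.2)).sum := by
      congr 1
      apply List.map_congr_left
      intro x hx
      have : x.1 = 0 := by simpa using (List.mem_filter.1 hx).2
      simp [this]
    have e1 : ((l.filter (fun x => ¬ x.1 = 0)).map (fun x => x.2 * B ^ x.1)).sum
        = B * (l1.map (fun x => x.2 * B ^ x.1)).sum := by
      rw [hl1, List.map_map, ← List.sum_map_mul_left]
      congr 1
      apply List.map_congr_left
      intro x hx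
      have hx0 : x.1 ≠ 0 := by simpa using (List.mem_filter.1 hx).2
      simp only [Function.comp]
      obtain ⟨k, hk⟩ := Nat.exists_eq_succ_of_ne_zero hx0
      rw [hk]
      simp only [Nat.succ_sub_one, pow_succ]
      ring
    have hs0 : (l0.map (fun x => x.2)).sum = 0 := by
      have hdvd : B ∣ (l0.map (fun x => x.2)).sum := by
        rw [h0] at hpow
        rw [← hl0, e0, e1] at hpow
        exact ⟨-(l1.map (fun x => x.2 * B ^ x.1)).sum, by linarith only [hpow]⟩
      have hle : |(l0.map (fun x => x.2)).sum| < B := by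
        have h1 : |(l0.map (fun x => x.2)).sum| ≤ (l0.map (fun x => |x.2|)).sum := by
          clear_value l0
          clear hl0 e0 hdvd
          induction l0 with
          | nil => simp
          | cons x l0 ih =>
            simp only [List.map_cons, List.sum_cons]
            exact (abs_add_le _ _).trans (by linarith only [ih])
        have h2 : 0 ≤ ((l.filter (fun x => ¬ x.1 = 0)).map (fun x => |x.2|)).sum :=
          List.sum_nonneg (by
            intro y hy
            rw [List.mem_map] at hy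
            obtain ⟨x, _, rfl⟩ := hy
            exact abs_nonneg _)
        linarith only [hn, habs, h1, h2]
      exact Int.eq_zero_of_abs_lt_dvd hdvd hle
    have hl1s : (l1.map (fun x => x.2 * B ^ x.1)).sum = 0 := by
      rw [h0] at hpow
      rw [← hl0, e0, e1, hs0] at hpow
      have : B * (l1.map (fun x => x.2 * B ^ x.1)).sum = 0 := by linarith only [hpow]
      exact (mul_eq_zero.1 this).resolve_left hB.ne'
    have hl1n : (l1.map (fun x => |x.2|)).sum < B := by
      have h1 : (l1.map (fun x => |x.2|)).sum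
          = ((l.filter (fun x => ¬ x.1 = 0)).map (fun x => |x.2|)).sum := by
        rw [hl1, List.map_map]
        rfl
      have h2 : 0 ≤ (l0.map (fun x => |x.2|)).sum := List.sum_nonneg (by
        intro y hy
        rw [List.mem_map] at hy
        obtain ⟨x, _, rfl⟩ := hy
        exact abs_nonneg _)
      rw [h1]
      linarith
    have hl1b : ∀ x ∈ l1, x.1 < M := by
      intro x hx
      rw [hl1, List.mem_map] at hx
      obtain ⟨y, hy, rfl⟩ := hx
      have h1 := hl y (List.mem_filter.1 hy).1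
      have h2 : y.1 ≠ 0 := by simpa using (List.mem_filter.1 hy).2
      simp only
      omega
    have hfin := ih l1 (fun N => V (N + 1)) hl1b hl1n hl1s
    have hk := key l (fun x => (x.2 : ℂ) * V x.1) (fun x => (x.2 : ℂ) * V x.1)
      (fun _ _ _ => rfl) (fun _ _ _ => rfl)
    rw [hk]
    have f0 : ((l.filter (fun x => x.1 = 0)).map (fun x => (x.2 : ℂ) * V x.1)).sum = 0 := by
      have : ((l.filter (fun x => x.1 = 0)).map (fun x => (x.2 : ℂ) * V x.1)).sum
          = (((l0.map (fun x => x.2)).sum : ℤ) : ℂ) * V 0 := by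
        rw [← hl0]
        clear_value l0
        have hall : ∀ x ∈ l0, x.1 = 0 := by
          intro x hx
          rw [hl0] at hx
          simpa using (List.mem_filter.1 hx).2
        clear hl0 hs0 e0
        induction l0 with
        | nil => simp
        | cons x l0 ih =>
          simp only [List.map_cons, List.sum_cons]
          rw [ih (fun y hy => hall y (by simp [hy])), hall x (by simp)]
          push_cast
          ring
      rw [this, hs0]
      simp
    have f1 : ((l.filter (fun x => ¬ x.1 = 0)).map (fun x => (x.2 : ℂ) * V x.1)).sum = 0 := by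
      rw [← hfin, hl1, List.map_map]
      congr 1
      apply List.map_congr_left
      intro x hx
      have hx0 : x.1 ≠ 0 := by simpa using (List.mem_filter.1 hx).2
      simp only [Function.comp]
      rw [Nat.sub_add_cancel (Nat.one_le_iff_ne_zero.2 hx0)]
    rw [f0, f1, add_zero]

/-- small coefficients: the vanishing of the number gives the vanishing of all linear
functionals -/
theorem vanish (B : ℤ) (l : List (ℕ × ℤ)) (V : ℕ → ℂ) (hn : (l.map (fun x => |x.2|)).sum < B)
    (h0 : (l.map (fun x => x.2 * B ^ x.1)).sum = 0) :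
    (l.map (fun x => (x.2 : ℂ) * V x.1)).sum = 0 := by
  refine vanish_aux B (((l.map (fun x => x.1)).sum) + 1) l V ?_ hn h0
  intro x hx
  have : x.1 ≤ (l.map (fun x => x.1)).sum :=
    List.single_le_sum (by simp) _ (List.mem_map.2 ⟨x, hx, rfl⟩)
  omega

theorem prod_count {M : Type*} [CommMonoid M] (n : ℕ) (A : List ℕ) (hA : ∀ i ∈ A, i < n)
    (f : ℕ → M) : (A.map f).prod = ∏ k ∈ Finset.range n, f k ^ A.count k := by
  rw [Finset.prod_list_map_count]
  apply Finset.prod_subset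
  · intro i hi
    exact Finset.mem_range.2 (hA i (List.mem_toFinset.1 hi))
  · intro i _ hi
    have : A.count i = 0 := List.count_eq_zero.2 (fun h => hi (List.mem_toFinset.2 h))
    rw [this, pow_zero]

theorem sum_count (n : ℕ) (A : List ℕ) (hA : ∀ i ∈ A, i < n)
    (f : ℕ → ℕ) : (A.map f).sum = ∑ k ∈ Finset.range n, A.count k * f k := by
  rw [Finset.sum_list_map_count]
  simp only [smul_eq_mul]
  apply Finset.sum_subset
  · intro i hi
    exact Finset.mem_range.2 (hA i (List.mem_toFinset.1 hi))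
  · intro i _ hi
    have : A.count i = 0 := List.count_eq_zero.2 (fun h => hi (List.mem_toFinset.2 h))
    rw [this, zero_mul]

end Pool.Agent.M16.Helper12.HR2

end

section

set_option autoImplicit false

open scoped ComplexConjugate

namespace Pool.Agent.M16.Helper12.HR2

/-- unpacking -/
def upl (w h : ℕ) : List Mo → ℕ → ℕ → Pol
  | [], _, _ => []
  | (m :: ms), x, y =>
    (m, (((x % w : ℕ) : ℤ) - h, ((y % w : ℕ) : ℤ) - h)) :: upl w h ms (x / w) (y / w)

/-- derivative of a variable -/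
noncomputable def dvl (c : ℕ → ℂ) (n : ℕ) : ℂ :=
  if n = 0 then 3 * c 1 - c 0 ^ 2
  else ((n : ℂ) + 3) * c (n + 1) + ∑ i ∈ Finset.range (n - 1), c (i + 1) * c (n - 1 - i)

/-- derivative of a monomial -/
noncomputable def Dvl (c : ℕ → ℂ) : List ℕ → ℂ
  | [] => 0
  | a :: A => dvl c a * (A.map c).prod + c a * Dvl c A

/-- the relation polynomials of the decoded multipliers -/
noncomputable def rel (s b : ℂ) (c : ℕ → ℂ) (P : Pol) : ℂ :=
  (P.map (fun t => gv t.2 * (((-2 * s * c 0 * (t.1.1.map c).prod + Dvl c t.1.1)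
    - (b + wl t.1.1 + wl t.1.2) * (t.1.1.map c).prod) * conj ((t.1.2.map c).prod)))).sum

theorem rel_nil (s b : ℂ) (c : ℕ → ℂ) : rel s b c [] = 0 := rfl

theorem rel_cons (s b : ℂ) (c : ℕ → ℂ) (t : Mo × GZ) (P : Pol) :
    rel s b c (t :: P) = gv t.2 * (((-2 * s * c 0 * (t.1.1.map c).prod + Dvl c t.1.1)
    - (b + wl t.1.1 + wl t.1.2) * (t.1.1.map c).prod) * conj ((t.1.2.map c).prod))
      + rel s b c P := by
  simp [rel]

theorem rel_append (s b : ℂ) (c : ℕ → ℂ) (P Q : Pol) :
    rel s b c (P ++ Q) = rel s b c P + rel s b c Q := by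
  simp [rel]

/-- the product of a basis monomial and a conjugate basis monomial -/
def prd (p : Mo × Mo) : Mo := (p.1.1 ++ p.2.2, p.1.2 ++ p.2.1)

theorem mv_prd (c : ℕ → ℂ) (p : Mo × Mo) : mv c (fun k => conj (c k)) (prd p)
    = mv c (fun k => conj (c k)) p.1 * conj (mv c (fun k => conj (c k)) p.2) := by
  simp only [mv, prd, List.map_append, List.prod_append, map_mul, prod_conj, Complex.conj_conj]
  ring

end Pool.Agent.M16.Helper12.HR2

end

section

set_option autoImplicit false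

open scoped ComplexConjugate

namespace Pool.Agent.M16.Helper54.HR2

open Pool.Agent.M16.Helper12.HR2 (Par Mo GZ gv Pol mv pv wl rel Dvl dvl upl prd)

theorem ons_eq (B n : ℕ) : ons B n = ∑ i ∈ Finset.range n, B ^ i := by
  induction n with
  | zero => rfl
  | succ n ih =>
    have h : ons B (n + 1) = 1 + B * ons B n := rfl
    rw [h, ih, Finset.sum_range_succ', Finset.mul_sum, pow_zero, add_comm]
    congr 1
    exact Finset.sum_congr rfl (fun i _ => by rw [pow_succ, mul_comm])

theorem spr_eq (B w n x : ℕ) : spr B w n x = ∑ i ∈ Finset.range n, x / w ^ i % w * B ^ i := by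
  induction n generalizing x with
  | zero => rfl
  | succ n ih =>
    have h : spr B w (n + 1) x = x % w + B * spr B w n (x / w) := rfl
    rw [h, ih, Finset.sum_range_succ', Finset.mul_sum, pow_zero, pow_zero, mul_one, Nat.div_one,
      add_comm]
    congr 1
    refine Finset.sum_congr rfl (fun i _ => ?_)
    rw [pow_succ' w, Nat.div_div_eq_div_mul]
    ring

/-- the digits of a sum -/
theorem dig_base (B n : ℕ) : ∀ (f : ℕ → ℕ) (_ : ∀ i < n, f i < B) (i : ℕ), i < n →
    (∑ j ∈ Finset.range n, f j * B ^ j) / B ^ i % B = f i := by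
  induction n with
  | zero => intro f _ i hi; omega
  | succ n ih =>
    intro f hf i hi
    have h1 : ∑ j ∈ Finset.range (n + 1), f j * B ^ j
        = f 0 + B * ∑ j ∈ Finset.range n, f (j + 1) * B ^ j := by
      rw [Finset.sum_range_succ', Finset.mul_sum, pow_zero, mul_one, add_comm]
      congr 1
      exact Finset.sum_congr rfl (fun j _ => by ring)
    rw [h1]
    have h0 := hf 0 (by omega)
    rcases i with _ | i
    · rw [pow_zero, Nat.div_one, Nat.add_mul_mod_self_left, Nat.mod_eq_of_lt h0]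
    · rw [pow_succ', ← Nat.div_div_eq_div_mul, Nat.add_mul_div_left _ _ (by omega),
        Nat.div_eq_of_lt h0, zero_add]
      exact ih (fun k => f (k + 1)) (fun k hk => hf (k + 1) (by omega)) i (by omega)

/-- a digit minus the offset -/
def dgo (w h x i : ℕ) : ℤ := ((x / w ^ i % w : ℕ) : ℤ) - h

/-- the Gram matrix, real part -/
def Gre (w h : ℕ) : List (ℕ × ℕ × ℕ) → ℕ → ℕ → ℤ
  | [], _, _ => 0
  | (r :: U), i, k => (dgo w h r.2.1 i * dgo w h r.2.1 k + dgo w h r.2.2 i * dgo w h r.2.2 k) +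
      (if 0 < i ∧ 0 < k then Gre w h U (i - 1) (k - 1) else 0)

/-- the Gram matrix, imaginary part -/
def Gim (w h : ℕ) : List (ℕ × ℕ × ℕ) → ℕ → ℕ → ℤ
  | [], _, _ => 0
  | (r :: U), i, k => (dgo w h r.2.2 i * dgo w h r.2.1 k - dgo w h r.2.1 i * dgo w h r.2.2 k) +
      (if 0 < i ∧ 0 < k then Gim w h U (i - 1) (k - 1) else 0)

theorem head_re (B w h n x y k : ℕ) (hw0 : 0 < w) (hw : w ≤ 2 * h + 1) :
    (((x / w ^ k % w) * spr B w n x + (y / w ^ k % w) * spr B w n y
      + (4 * h - (x / w ^ k % w + y / w ^ k % w)) * (h * ons B n) : ℕ) : ℤ)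
      - ((h * (spr B w n x + spr B w n y) + 2 * h * (h * ons B n) : ℕ) : ℤ)
    = ∑ i ∈ Finset.range n, (dgo w h x i * dgo w h x k + dgo w h y i * dgo w h y k) * (B : ℤ) ^ i := by
  have hx : x / w ^ k % w < w := Nat.mod_lt _ hw0
  have hy : y / w ^ k % w < w := Nat.mod_lt _ hw0
  have h1 : ∀ i, (dgo w h x i * dgo w h x k + dgo w h y i * dgo w h y k) * (B : ℤ) ^ i
      = ((x / w ^ k % w : ℕ) : ℤ) * (((x / w ^ i % w : ℕ) : ℤ) * (B : ℤ) ^ i)
        + ((y / w ^ k % w : ℕ) : ℤ) * (((y / w ^ i % w : ℕ) : ℤ) * (B : ℤ) ^ i)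
        + (2 * (h : ℤ) * h - h * ((x / w ^ k % w : ℕ) : ℤ) - h * ((y / w ^ k % w : ℕ) : ℤ))
          * (B : ℤ) ^ i
        - h * (((x / w ^ i % w : ℕ) : ℤ) * (B : ℤ) ^ i)
        - h * (((y / w ^ i % w : ℕ) : ℤ) * (B : ℤ) ^ i) := by
    intro i
    unfold dgo
    ring
  simp only [h1, Finset.sum_add_distrib, Finset.sum_sub_distrib, ← Finset.mul_sum]
  rw [spr_eq, spr_eq, ons_eq]
  have h2 : x / w ^ k % w + y / w ^ k % w ≤ 4 * h := by omega
  push_cast [Nat.cast_sub h2]
  ring

theorem head_im (B w h n x y k : ℕ) (hw0 : 0 < w) (hw : w ≤ 2 * h + 1) :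
    (((x / w ^ k % w) * spr B w n y + (2 * h - y / w ^ k % w) * spr B w n x
      + (2 * h + y / w ^ k % w - x / w ^ k % w) * (h * ons B n) : ℕ) : ℤ)
      - ((h * (spr B w n x + spr B w n y) + 2 * h * (h * ons B n) : ℕ) : ℤ)
    = ∑ i ∈ Finset.range n, (dgo w h y i * dgo w h x k - dgo w h x i * dgo w h y k) * (B : ℤ) ^ i := by
  have hx : x / w ^ k % w < w := Nat.mod_lt _ hw0
  have hy : y / w ^ k % w < w := Nat.mod_lt _ hw0
  have h1 : ∀ i, (dgo w h y i * dgo w h x k - dgo w h x i * dgo w h y k) * (B : ℤ) ^ i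
      = ((x / w ^ k % w : ℕ) : ℤ) * (((y / w ^ i % w : ℕ) : ℤ) * (B : ℤ) ^ i)
        - ((y / w ^ k % w : ℕ) : ℤ) * (((x / w ^ i % w : ℕ) : ℤ) * (B : ℤ) ^ i)
        + ((h : ℤ) * ((y / w ^ k % w : ℕ) : ℤ) - h * ((x / w ^ k % w : ℕ) : ℤ))
          * (B : ℤ) ^ i
        + h * (((x / w ^ i % w : ℕ) : ℤ) * (B : ℤ) ^ i)
        - h * (((y / w ^ i % w : ℕ) : ℤ) * (B : ℤ) ^ i) := by
    intro i
    unfold dgo
    ring
  simp only [h1, Finset.sum_add_distrib, Finset.sum_sub_distrib, ← Finset.mul_sum]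
  rw [spr_eq, spr_eq, ons_eq]
  have h2 : y / w ^ k % w ≤ 2 * h := by omega
  have h3 : x / w ^ k % w ≤ 2 * h + y / w ^ k % w := by omega
  push_cast [Nat.cast_sub h2, Nat.cast_sub h3]
  ring

theorem uok_cons {r : ℕ × ℕ × ℕ} {U : List (ℕ × ℕ × ℕ)} {n : ℕ} (h : uok (r :: U) n = true) :
    ∃ m, n = m + 1 ∧ r.1 = m + 1 ∧ uok U m = true := by
  have h' : (Nat.beq r.1 n && (Nat.ble 1 n && uok U (n - 1))) = true := h
  simp only [Bool.and_eq_true] at h'
  have h1 := Nat.eq_of_beq_eq_true h'.1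
  have h2 : 1 ≤ n := Nat.le_of_ble_eq_true h'.2.1
  refine ⟨n - 1, by omega, by omega, h'.2.2⟩

theorem uok_nil {n : ℕ} (h : uok [] n = true) : n = 0 := Nat.eq_of_beq_eq_true h

theorem uok_len {U : List (ℕ × ℕ × ℕ)} {n : ℕ} (h : uok U n = true) : U.length = n := by
  induction U generalizing n with
  | nil => rw [uok_nil h]; rfl
  | cons r U ih =>
    obtain ⟨m, rfl, -, h1⟩ := uok_cons h
    rw [List.length_cons, ih h1]

theorem cast_split (X Y c' q' : ℕ) :
    ((X + c' : ℕ) : ℤ) - ((Y + q' : ℕ) : ℤ) = ((X : ℤ) - Y) + ((c' : ℤ) - q') := by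
  push_cast
  ring

theorem cr_cq (B w h : ℕ) (hw0 : 0 < w) (hw : w ≤ 2 * h + 1) (U : List (ℕ × ℕ × ℕ)) :
    ∀ (n k : ℕ), uok U n = true → k < n →
    ((cr B w h U k : ℕ) : ℤ) - (cq B w h U k : ℕ)
      = ∑ i ∈ Finset.range n, Gre w h U i k * (B : ℤ) ^ i := by
  induction U with
  | nil =>
    intro n k hn hk
    rw [uok_nil hn] at hk
    omega
  | cons r U ih =>
    intro n k hn hk
    obtain ⟨m, rfl, hr, hU⟩ := uok_cons hn
    have h0 := head_re B w h r.1 r.2.1 r.2.2 k hw0 hw
    rcases k with _ | k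
    · have e1 : cr B w h (r :: U) 0 = ((r.2.1 / w ^ 0 % w) * spr B w r.1 r.2.1
        + (r.2.2 / w ^ 0 % w) * spr B w r.1 r.2.2
        + (4 * h - (r.2.1 / w ^ 0 % w + r.2.2 / w ^ 0 % w)) * (h * ons B r.1)) + 0 := rfl
      have e2 : cq B w h (r :: U) 0 = (h * (spr B w r.1 r.2.1 + spr B w r.1 r.2.2)
        + 2 * h * (h * ons B r.1)) + 0 := rfl
      rw [e1, e2, add_zero, add_zero, h0, hr]
      apply Finset.sum_congr rfl
      intro i _
      rw [Gre, if_neg (by omega), add_zero]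
    · have e1 : cr B w h (r :: U) (k + 1) = ((r.2.1 / w ^ (k + 1) % w) * spr B w r.1 r.2.1
        + (r.2.2 / w ^ (k + 1) % w) * spr B w r.1 r.2.2
        + (4 * h - (r.2.1 / w ^ (k + 1) % w + r.2.2 / w ^ (k + 1) % w)) * (h * ons B r.1))
          + B * cr B w h U k := rfl
      have e2 : cq B w h (r :: U) (k + 1) = (h * (spr B w r.1 r.2.1 + spr B w r.1 r.2.2)
        + 2 * h * (h * ons B r.1)) + B * cq B w h U k := rfl
      have h1 := ih m k hU (by omega)
      rw [e1, e2, cast_split, h0, hr]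
      have h2 : ((B * cr B w h U k : ℕ) : ℤ) - ((B * cq B w h U k : ℕ) : ℤ)
          = ∑ i ∈ Finset.range (m + 1),
            (if 0 < i ∧ 0 < k + 1 then Gre w h U (i - 1) (k + 1 - 1) else 0) * (B : ℤ) ^ i := by
        rw [Finset.sum_range_succ', if_neg (by omega), zero_mul, add_zero, Nat.cast_mul,
          Nat.cast_mul, ← mul_sub, h1, Finset.mul_sum]
        apply Finset.sum_congr rfl
        intro i _
        rw [if_pos (by omega), Nat.add_sub_cancel, Nat.add_sub_cancel, pow_succ]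
        ring
      rw [h2, ← Finset.sum_add_distrib]
      apply Finset.sum_congr rfl
      intro i _
      rw [Gre]
      ring

theorem ci_cq (B w h : ℕ) (hw0 : 0 < w) (hw : w ≤ 2 * h + 1) (U : List (ℕ × ℕ × ℕ)) :
    ∀ (n k : ℕ), uok U n = true → k < n →
    ((ci B w h U k : ℕ) : ℤ) - (cq B w h U k : ℕ)
      = ∑ i ∈ Finset.range n, Gim w h U i k * (B : ℤ) ^ i := by
  induction U with
  | nil =>
    intro n k hn hk
    rw [uok_nil hn] at hk
    omega
  | cons r U ih =>
    intro n k hn hk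
    obtain ⟨m, rfl, hr, hU⟩ := uok_cons hn
    have h0 := head_im B w h r.1 r.2.1 r.2.2 k hw0 hw
    rcases k with _ | k
    · have e1 : ci B w h (r :: U) 0 = ((r.2.1 / w ^ 0 % w) * spr B w r.1 r.2.2
        + (2 * h - r.2.2 / w ^ 0 % w) * spr B w r.1 r.2.1
        + (2 * h + r.2.2 / w ^ 0 % w - r.2.1 / w ^ 0 % w) * (h * ons B r.1)) + 0 := rfl
      have e2 : cq B w h (r :: U) 0 = (h * (spr B w r.1 r.2.1 + spr B w r.1 r.2.2)
        + 2 * h * (h * ons B r.1)) + 0 := rfl
      rw [e1, e2, add_zero, add_zero, h0, hr]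
      apply Finset.sum_congr rfl
      intro i _
      rw [Gim, if_neg (by omega), add_zero]
    · have e1 : ci B w h (r :: U) (k + 1) = ((r.2.1 / w ^ (k + 1) % w) * spr B w r.1 r.2.2
        + (2 * h - r.2.2 / w ^ (k + 1) % w) * spr B w r.1 r.2.1
        + (2 * h + r.2.2 / w ^ (k + 1) % w - r.2.1 / w ^ (k + 1) % w) * (h * ons B r.1))
          + B * ci B w h U k := rfl
      have e2 : cq B w h (r :: U) (k + 1) = (h * (spr B w r.1 r.2.1 + spr B w r.1 r.2.2)
        + 2 * h * (h * ons B r.1)) + B * cq B w h U k := rfl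
      have h1 := ih m k hU (by omega)
      rw [e1, e2, cast_split, h0, hr]
      have h2 : ((B * ci B w h U k : ℕ) : ℤ) - ((B * cq B w h U k : ℕ) : ℤ)
          = ∑ i ∈ Finset.range (m + 1),
            (if 0 < i ∧ 0 < k + 1 then Gim w h U (i - 1) (k + 1 - 1) else 0) * (B : ℤ) ^ i := by
        rw [Finset.sum_range_succ', if_neg (by omega), zero_mul, add_zero, Nat.cast_mul,
          Nat.cast_mul, ← mul_sub, h1, Finset.mul_sum]
        apply Finset.sum_congr rfl
        intro i _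
        rw [if_pos (by omega), Nat.add_sub_cancel, Nat.add_sub_cancel, pow_succ]
        ring
      rw [h2, ← Finset.sum_add_distrib]
      apply Finset.sum_congr rfl
      intro i _
      rw [Gim]
      ring

theorem dgo_abs (w h x i : ℕ) (hw : h < w) : |dgo w h x i| ≤ (w : ℤ) - 1 := by
  have h1 : x / w ^ i % w < w := Nat.mod_lt _ (by omega)
  unfold dgo
  rw [abs_le]
  constructor <;> omega

theorem mul_abs_le {a b m : ℤ} (ha : |a| ≤ m) (hb : |b| ≤ m) : |a * b| ≤ m * m := by
  rw [abs_mul]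
  exact mul_le_mul ha hb (abs_nonneg _) ((abs_nonneg _).trans ha)

theorem Gre_abs (w h : ℕ) (hw : h < w) (U : List (ℕ × ℕ × ℕ)) (i k : ℕ) :
    |Gre w h U i k| ≤ 2 * (U.length : ℤ) * (((w : ℤ) - 1) * ((w : ℤ) - 1)) := by
  induction U generalizing i k with
  | nil => simp [Gre]
  | cons r U ih =>
    rw [Gre, List.length_cons]
    have h1 := mul_abs_le (dgo_abs w h r.2.1 i hw) (dgo_abs w h r.2.1 k hw)
    have h2 := mul_abs_le (dgo_abs w h r.2.2 i hw) (dgo_abs w h r.2.2 k hw)
    have h3 : |if 0 < i ∧ 0 < k then Gre w h U (i - 1) (k - 1) else 0|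
        ≤ 2 * (U.length : ℤ) * (((w : ℤ) - 1) * ((w : ℤ) - 1)) := by
      split_ifs
      · exact ih _ _
      · rw [abs_zero]
        exact (abs_nonneg _).trans (ih i k)
    have h4 := abs_add_le (dgo w h r.2.1 i * dgo w h r.2.1 k + dgo w h r.2.2 i * dgo w h r.2.2 k)
      (if 0 < i ∧ 0 < k then Gre w h U (i - 1) (k - 1) else 0)
    have h5 := abs_add_le (dgo w h r.2.1 i * dgo w h r.2.1 k) (dgo w h r.2.2 i * dgo w h r.2.2 k)
    push_cast
    linarith only [h1, h2, h3, h4, h5]

theorem Gim_abs (w h : ℕ) (hw : h < w) (U : List (ℕ × ℕ × ℕ)) (i k : ℕ) :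
    |Gim w h U i k| ≤ 2 * (U.length : ℤ) * (((w : ℤ) - 1) * ((w : ℤ) - 1)) := by
  induction U generalizing i k with
  | nil => simp [Gim]
  | cons r U ih =>
    rw [Gim, List.length_cons]
    have h1 := mul_abs_le (dgo_abs w h r.2.2 i hw) (dgo_abs w h r.2.1 k hw)
    have h2 := mul_abs_le (dgo_abs w h r.2.1 i hw) (dgo_abs w h r.2.2 k hw)
    have h3 : |if 0 < i ∧ 0 < k then Gim w h U (i - 1) (k - 1) else 0|
        ≤ 2 * (U.length : ℤ) * (((w : ℤ) - 1) * ((w : ℤ) - 1)) := by
      split_ifs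
      · exact ih _ _
      · rw [abs_zero]
        exact (abs_nonneg _).trans (ih i k)
    have h4 := abs_add_le (dgo w h r.2.2 i * dgo w h r.2.1 k - dgo w h r.2.1 i * dgo w h r.2.2 k)
      (if 0 < i ∧ 0 < k then Gim w h U (i - 1) (k - 1) else 0)
    have h5 := abs_sub (dgo w h r.2.2 i * dgo w h r.2.1 k) (dgo w h r.2.1 i * dgo w h r.2.2 k)
    push_cast
    linarith only [h1, h2, h3, h4, h5]

/-- digits of a packed sum with offset -/
theorem packed (B H n c q : ℕ) (G : ℕ → ℤ) (hB : B = 2 * H)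
    (hc : (c : ℤ) - q = ∑ i ∈ Finset.range n, G i * (B : ℤ) ^ i) (hG : ∀ i < n, |G i| < H)
    (i : ℕ) (hi : i < n) : (((c + H * ons B n - q) / B ^ i % B : ℕ) : ℤ) - H = G i := by
  have h1 : ∀ j < n, (0 : ℤ) ≤ G j + H ∧ G j + H < B := by
    intro j hj
    have := abs_lt.1 (hG j hj)
    rw [hB]
    push_cast
    constructor <;> linarith only [this]
  have h2 : ((c + H * ons B n : ℕ) : ℤ)
      = ((q + ∑ j ∈ Finset.range n, (G j + H).toNat * B ^ j : ℕ) : ℤ) := by
    rw [ons_eq]
    push_cast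
    have h3 : ∑ j ∈ Finset.range n, (((G j + (H : ℤ)).toNat : ℕ) : ℤ) * (B : ℤ) ^ j
        = ∑ j ∈ Finset.range n, (G j * (B : ℤ) ^ j + (H : ℤ) * (B : ℤ) ^ j) := by
      apply Finset.sum_congr rfl
      intro j hj
      rw [Int.toNat_of_nonneg (h1 j (Finset.mem_range.1 hj)).1]
      ring
    rw [h3, Finset.sum_add_distrib, ← hc, ← Finset.mul_sum]
    ring
  have h4 : c + H * ons B n = q + ∑ j ∈ Finset.range n, (G j + H).toNat * B ^ j := by
    exact_mod_cast h2
  rw [h4, Nat.add_sub_cancel_left, dig_base B n (fun j => (G j + H).toNat) (by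
    intro j hj
    have := h1 j hj
    omega) i hi]
  have := h1 i hi
  omega

/-- a digit as a complex number -/
noncomputable def uc (w h : ℕ) (r : ℕ × ℕ × ℕ) (i : ℕ) : ℂ := gv (dgo w h r.2.1 i, dgo w h r.2.2 i)

/-- the Gram matrix -/
noncomputable def GG (w h : ℕ) (U : List (ℕ × ℕ × ℕ)) (i k : ℕ) : ℂ :=
  gv (Gre w h U i k, Gim w h U i k)

theorem GG_cons (w h : ℕ) (r : ℕ × ℕ × ℕ) (U : List (ℕ × ℕ × ℕ)) (i k : ℕ) :
    GG w h (r :: U) i k = uc w h r i * conj (uc w h r k)
      + if 0 < i ∧ 0 < k then GG w h U (i - 1) (k - 1) else 0 := by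
  unfold GG uc
  rw [Gre, Gim]
  have h1 : ∀ a b : ℤ, gv (a, b) = (a : ℂ) + b * Complex.I := fun a b => rfl
  split_ifs
  · simp only [h1, map_add, map_mul, Complex.conj_I]
    apply Complex.ext
    · simp
    · simp
      ring
  · simp only [h1]
    apply Complex.ext
    · simp
    · simp
      ring

/-- the sum over the pairs `i ≤ k` -/
noncomputable def SP (G : ℕ → ℕ → ℂ) (v : ℕ → ℂ) (n : ℕ) : ℝ :=
  ∑ k ∈ Finset.range n, ∑ i ∈ Finset.range (k + 1),
    (if i < k then 2 else 1) * (G i k * (v i * conj (v k))).re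

theorem SP_add (G G' : ℕ → ℕ → ℂ) (v : ℕ → ℂ) (n : ℕ) :
    SP (fun i k => G i k + G' i k) v n = SP G v n + SP G' v n := by
  unfold SP
  rw [← Finset.sum_add_distrib]
  apply Finset.sum_congr rfl
  intro k _
  rw [← Finset.sum_add_distrib]
  apply Finset.sum_congr rfl
  intro i _
  rw [add_mul, Complex.add_re]
  ring

theorem SP_sq (u v : ℕ → ℂ) (n : ℕ) :
    SP (fun i k => u i * conj (u k)) v n
      = ((∑ i ∈ Finset.range n, u i * v i) * conj (∑ i ∈ Finset.range n, u i * v i)).re := by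
  unfold SP
  induction n with
  | zero => simp
  | succ n ih =>
    rw [Finset.sum_range_succ, ih, Finset.sum_range_succ, if_neg (lt_irrefl n),
      Finset.sum_range_succ (fun i => u i * v i)]
    have h1 : ∑ i ∈ Finset.range n, (if i < n then 2 else 1 : ℝ)
        * (u i * conj (u n) * (v i * conj (v n))).re
        = 2 * ((∑ i ∈ Finset.range n, u i * v i) * conj (u n * v n)).re := by
      rw [Finset.sum_mul, Complex.re_sum, Finset.mul_sum]
      apply Finset.sum_congr rfl
      intro i hi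
      rw [if_pos (Finset.mem_range.1 hi), map_mul]
      congr 2
      ring
    rw [h1, map_add]
    generalize ∑ i ∈ Finset.range n, u i * v i = Z
    generalize hz : u n * v n = z
    have h2 : u n * conj (u n) * (v n * conj (v n)) = z * conj z := by
      rw [← hz, map_mul]
      ring
    rw [h2]
    simp only [Complex.mul_re, Complex.add_re, Complex.add_im, Complex.conj_re, Complex.conj_im]
    ring

theorem SP_shift (G : ℕ → ℕ → ℂ) (v : ℕ → ℂ) (m : ℕ) :
    SP (fun i k => if 0 < i ∧ 0 < k then G (i - 1) (k - 1) else 0) v (m + 1)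
      = SP G (fun i => v (i + 1)) m := by
  unfold SP
  rw [Finset.sum_range_succ']
  have h1 : ∑ i ∈ Finset.range (0 + 1), (if i < 0 then 2 else 1 : ℝ)
      * ((if 0 < i ∧ 0 < 0 then G (i - 1) (0 - 1) else 0) * (v i * conj (v 0))).re = 0 := by
    simp
  rw [h1, add_zero]
  apply Finset.sum_congr rfl
  intro k _
  rw [Finset.sum_range_succ']
  have h2 : (if 0 < k + 1 then 2 else 1 : ℝ)
      * ((if 0 < 0 ∧ 0 < k + 1 then G (0 - 1) (k + 1 - 1) else 0) * (v 0 * conj (v (k + 1)))).re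
      = 0 := by
    simp
  rw [h2, add_zero]
  apply Finset.sum_congr rfl
  intro i _
  have h3 : (i + 1 < k + 1) ↔ i < k := by omega
  simp only [h3]
  rw [if_pos (show 0 < i + 1 ∧ 0 < k + 1 by omega), Nat.add_sub_cancel, Nat.add_sub_cancel]

theorem SP_nonneg (w h : ℕ) (U : List (ℕ × ℕ × ℕ)) : ∀ (n : ℕ) (v : ℕ → ℂ), uok U n = true →
    0 ≤ SP (GG w h U) v n := by
  induction U with
  | nil =>
    intro n v hn
    rw [uok_nil hn]
    simp [SP]
  | cons r U ih =>
    intro n v hn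
    obtain ⟨m, rfl, -, hU⟩ := uok_cons hn
    have h1 : GG w h (r :: U) = fun i k => uc w h r i * conj (uc w h r k)
        + (if 0 < i ∧ 0 < k then GG w h U (i - 1) (k - 1) else 0) := by
      funext i k
      exact GG_cons w h r U i k
    rw [h1, SP_add, SP_sq, SP_shift]
    refine add_nonneg ?_ (ih m _ hU)
    rw [Complex.mul_conj, Complex.ofReal_re]
    exact Complex.normSq_nonneg _

end Pool.Agent.M16.Helper54.HR2

end

section

set_option autoImplicit false

namespace Pool.Agent.M16.Helper12.HR2F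

open Pool.Agent.M16.Helper54.HR2

open Pool.Agent.M16.Helper12.HR2 (Par)

/-- evaluate the argument first -/
noncomputable def frc {α : Type} (f : ℕ → α) (x : ℕ) : α :=
  Nat.rec (motive := fun _ => α) (f 0) (fun n _ => f (Nat.succ n)) x

/-- blocks: the digits -/
noncomputable def brN (w : ℕ) (bs : List Blk) (x : ℕ) : ℕ :=
  List.rec (motive := fun _ => ℕ) 0
    (fun b _ ih => Nat.add (Nat.shiftLeft (gr1 w b.2.2 (Nat.div x (Nat.pow w b.2.1))) b.1) ih) bs

/-- blocks: ones -/
noncomputable def brO (bs : List Blk) : ℕ :=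
  List.rec (motive := fun _ => ℕ) 0
    (fun b _ ih => Nat.add (Nat.shiftLeft (go1 b.2.2) b.1) ih) bs

/-- blocks: the digits, imaginary form -/
noncomputable def biN (w g : ℕ) (bs : List Blk) (x : ℕ) : ℕ :=
  List.rec (motive := fun _ => ℕ) 0
    (fun b _ ih => Nat.add (Nat.shiftLeft (gi1 w g b.2.2 (Nat.div x (Nat.pow w b.2.1))) b.1) ih) bs

/-- blocks: ones, imaginary form -/
noncomputable def biO (bs : List Blk) : ℕ :=
  List.rec (motive := fun _ => ℕ) 0
    (fun b _ ih => Nat.add (Nat.shiftLeft (gp1 b.2.2) b.1) ih) bs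

/-- sum over columns: ones -/
noncomputable def tO (f : List Blk → ℕ) (T : List (ℕ × List Blk)) : ℕ :=
  List.rec (motive := fun _ => ℕ) 0 (fun b _ ih => Nat.add (f b.2) ih) T

/-- sum over the groups: ones -/
noncomputable def gO (f : Grp → ℕ) (gs : List Grp) : ℕ :=
  List.rec (motive := fun _ => ℕ) 0 (fun g _ ih => Nat.add (f g) ih) gs

/-- sum over the groups -/
noncomputable def gN (f : Grp → ℕ × ℕ → ℕ) (gs : List Grp) : List (ℕ × ℕ) → ℕ :=
  List.rec (motive := fun _ => List (ℕ × ℕ) → ℕ) (fun _ => 0)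
    (fun g _ ih l => List.rec (motive := fun _ => ℕ) 0
      (fun xy l' _ => Nat.add (f g xy) (ih l')) l) gs

/-- the second list is not shorter -/
noncomputable def glen (gs : List Grp) : List (ℕ × ℕ) → Bool :=
  List.rec (motive := fun _ => List (ℕ × ℕ) → Bool) (fun _ => true)
    (fun _ _ ih l => List.rec (motive := fun _ => Bool) false (fun _ l' _ => ih l') l) gs

/-- the columns of the Gram matrix with one more row -/
noncomputable def rsp (w S T : ℕ) (X : List ℕ) : ℕ → ℕ → List ℕ :=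
  List.rec (motive := fun _ => ℕ → ℕ → List ℕ) (fun _ _ => [])
    (fun x _ ih a b => List.cons
      (Nat.add (Nat.add (Nat.mul (Nat.mod a w) S) (Nat.mul (Nat.mod b w) T)) x)
      (ih (Nat.div a w) (Nat.div b w))) X

/-- the columns of the Gram matrix: the real part and `be` times the imaginary part, modulo `Z`;
`Z1` is `Z - 1` -/
noncomputable def clp (B w h be Z Z1 : ℕ) (U : List (ℕ × ℕ × ℕ)) : ℕ → ℕ → List ℕ :=
  List.rec (motive := fun _ => ℕ → ℕ → List ℕ) (fun _ _ => [])
    (fun r _ ih P q => frc (fun SR => frc (fun SI => frc (fun O =>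
      frc (fun S => frc (fun T => frc (fun P' => frc (fun q' =>
        rsp w S T (List.cons q' (ih P' q')) r.2.1 r.2.2)
        (Nat.mod (Nat.add q (Nat.mul h (Nat.mul Z1 (Nat.add S T)))) Z))
        (Nat.mul P B))
        (Nat.mod (Nat.add (Nat.mul P (Nat.add SI (Nat.mul be O)))
          (Nat.mul Z1 (Nat.mul P (Nat.add O (Nat.mul be SR))))) Z))
        (Nat.mod (Nat.add (Nat.mul P (Nat.add SR (Nat.mul be SI)))
          (Nat.mul Z1 (Nat.mul P (Nat.mul O (Nat.add 1 be))))) Z))
        (Nat.mul h (ons B r.1))) (spr B w r.1 r.2.2)) (spr B w r.1 r.2.1)) U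

/-- sum over the columns -/
noncomputable def mM (f : List Blk → ℕ → ℕ) (T : List (ℕ × List Blk)) : List ℕ → ℕ :=
  List.rec (motive := fun _ => List ℕ → ℕ) (fun _ => 0)
    (fun b _ ih X => List.rec (motive := fun _ => ℕ) 0
      (fun x X' _ => Nat.add (f b.2 x) (ih X')) X) T

theorem frc_eq {α : Type} (f : ℕ → α) (x : ℕ) : frc f x = f x := by cases x <;> rfl

theorem shl_eq (a o : ℕ) : Nat.shiftLeft a o = a * 2 ^ o := Nat.shiftLeft_eq a o

theorem sh_eq (o : ℕ) (z : ℤ) : sh o z = 2 ^ o * z := by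
  have h : (Int.ofNat (Nat.shiftLeft 1 o)) = (2 : ℤ) ^ o := by
    rw [shl_eq, one_mul]
    exact Nat.cast_pow 2 o
  show (Int.ofNat (Nat.shiftLeft 1 o)) * z = _
  rw [h]

theorem yr_eq (w h : ℕ) (rs : List Sng) (x : ℕ) :
    yr w h rs x = (gr1 w rs x : ℤ) - h * (go1 rs : ℤ) := by
  have h1 : yr w h rs x = Int.subNatNat (gr1 w rs x) (h * go1 rs) := rfl
  rw [h1, Int.subNatNat_eq_coe]
  push_cast
  ring

theorem yi_eq (w h : ℕ) (rs : List Sng) (x : ℕ) :
    yi w h rs x = (gi1 w (2 * h) rs x : ℤ) - h * (gp1 rs : ℤ) := by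
  have h1 : yi w h rs x = Int.subNatNat (gi1 w (2 * h) rs x) (h * gp1 rs) := rfl
  rw [h1, Int.subNatNat_eq_coe]
  push_cast
  ring

theorem zr_eq (w h : ℕ) (rs : List Row) (x : ℕ) :
    zr w h rs x = (fr w rs x : ℤ) - h * (fr1 rs : ℤ) := by
  have h1 : zr w h rs x = Int.subNatNat (fr w rs x) (h * fr1 rs) := rfl
  rw [h1, Int.subNatNat_eq_coe]
  push_cast
  ring

theorem zi_eq (w h : ℕ) (rs : List Row) (x : ℕ) :
    zi w h rs x = (fi w (2 * h) rs x : ℤ) - h * (fi1 rs : ℤ) := by
  have h1 : zi w h rs x = Int.subNatNat (fi w (2 * h) rs x) (h * fi1 rs) := rfl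
  rw [h1, Int.subNatNat_eq_coe]
  push_cast
  ring

theorem brN_cons (w : ℕ) (b : Blk) (bs : List Blk) (x : ℕ) :
    brN w (b :: bs) x = gr1 w b.2.2 (x / w ^ b.2.1) * 2 ^ b.1 + brN w bs x := by
  rw [← shl_eq]; rfl

theorem brO_cons (b : Blk) (bs : List Blk) :
    brO (b :: bs) = go1 b.2.2 * 2 ^ b.1 + brO bs := by
  rw [← shl_eq]; rfl

theorem biN_cons (w g : ℕ) (b : Blk) (bs : List Blk) (x : ℕ) :
    biN w g (b :: bs) x = gi1 w g b.2.2 (x / w ^ b.2.1) * 2 ^ b.1 + biN w g bs x := by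
  rw [← shl_eq]; rfl

theorem biO_cons (b : Blk) (bs : List Blk) :
    biO (b :: bs) = gp1 b.2.2 * 2 ^ b.1 + biO bs := by
  rw [← shl_eq]; rfl

theorem br_eq (w h : ℕ) (bs : List Blk) (x : ℕ) :
    br w h bs x = (brN w bs x : ℤ) - h * (brO bs : ℤ) := by
  induction bs with
  | nil =>
    show (0 : ℤ) = ((0 : ℕ) : ℤ) - h * ((0 : ℕ) : ℤ)
    simp
  | cons b bs ih =>
    have h1 : br w h (b :: bs) x = sh b.1 (yr w h b.2.2 (x / w ^ b.2.1)) + br w h bs x := rfl
    rw [h1, ih, sh_eq, yr_eq, brN_cons, brO_cons]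
    push_cast
    ring

theorem bi_eq (w h : ℕ) (bs : List Blk) (x : ℕ) :
    bi w h bs x = (biN w (2 * h) bs x : ℤ) - h * (biO bs : ℤ) := by
  induction bs with
  | nil =>
    show (0 : ℤ) = ((0 : ℕ) : ℤ) - h * ((0 : ℕ) : ℤ)
    simp
  | cons b bs ih =>
    have h1 : bi w h (b :: bs) x = sh b.1 (yi w h b.2.2 (x / w ^ b.2.1)) + bi w h bs x := rfl
    rw [h1, ih, sh_eq, yi_eq, biN_cons, biO_cons]
    push_cast
    ring

theorem gN_cons (f : Grp → ℕ × ℕ → ℕ) (g : Grp) (gs : List Grp) (xy : ℕ × ℕ)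
    (l : List (ℕ × ℕ)) : gN f (g :: gs) (xy :: l) = f g xy + gN f gs l := rfl

theorem gO_cons (f : Grp → ℕ) (g : Grp) (gs : List Grp) : gO f (g :: gs) = f g + gO f gs := rfl

/-- the weighted derivative, digits, real form -/
noncomputable def f1 (w : ℕ) (g : Grp) (xy : ℕ × ℕ) : ℕ := Nat.shiftLeft (fr w g.D xy.1) g.oE

/-- the products, digits, real form, first component -/
noncomputable def f2 (w : ℕ) (g : Grp) (xy : ℕ × ℕ) : ℕ := Nat.shiftLeft (gr1 w g.E xy.1) g.oE

/-- the products, digits, real form, second component -/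
noncomputable def f3 (w : ℕ) (g : Grp) (xy : ℕ × ℕ) : ℕ := Nat.shiftLeft (gr1 w g.E xy.2) g.oE

/-- the monomials, digits, real form -/
noncomputable def f4 (w : ℕ) (g : Grp) (xy : ℕ × ℕ) : ℕ := Nat.shiftLeft (gr1 w g.M xy.1) g.oM

/-- ones -/
noncomputable def o1 (g : Grp) : ℕ := Nat.shiftLeft (fr1 g.D) g.oE

/-- ones -/
noncomputable def o2 (g : Grp) : ℕ := Nat.shiftLeft (go1 g.E) g.oE

/-- ones -/
noncomputable def o4 (g : Grp) : ℕ := Nat.shiftLeft (go1 g.M) g.oM

/-- the derivative, digits, imaginary form -/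
noncomputable def i1 (w h2 : ℕ) (g : Grp) (xy : ℕ × ℕ) : ℕ :=
  Nat.shiftLeft (fi w h2 g.D xy.2) g.oE

/-- the products, digits, imaginary form, first component -/
noncomputable def i2 (w h2 : ℕ) (g : Grp) (xy : ℕ × ℕ) : ℕ :=
  Nat.shiftLeft (gi1 w h2 g.E xy.1) g.oE

/-- the products, digits, imaginary form, second component -/
noncomputable def i3 (w h2 : ℕ) (g : Grp) (xy : ℕ × ℕ) : ℕ :=
  Nat.shiftLeft (gi1 w h2 g.E xy.2) g.oE

/-- the monomials, digits, imaginary form -/
noncomputable def i4 (w h2 : ℕ) (g : Grp) (xy : ℕ × ℕ) : ℕ :=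
  Nat.shiftLeft (gi1 w h2 g.M xy.2) g.oM

/-- ones -/
noncomputable def p1 (g : Grp) : ℕ := Nat.shiftLeft (fi1 g.D) g.oE

/-- ones -/
noncomputable def p2 (g : Grp) : ℕ := Nat.shiftLeft (gp1 g.E) g.oE

/-- ones -/
noncomputable def p4 (g : Grp) : ℕ := Nat.shiftLeft (gp1 g.M) g.oM

theorem gsr_eq (P : Par) (w h : ℕ) (gs : List Grp) : ∀ l : List (ℕ × ℕ), glen gs l = true →
    gsr P w h gs l = (P.bd : ℤ) * P.sr * ((gN (f1 w) gs l : ℤ) - h * (gO o1 gs : ℤ))
      - ((P.bd : ℤ) * P.sr * ((gN (fun g xy => Nat.mul g.a (f2 w g xy)) gs l : ℤ)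
          - h * (gO (fun g => Nat.mul g.a (o2 g)) gs : ℤ))
        + 2 * (P.bd : ℤ) * P.p * ((gN (f2 w) gs l : ℤ) - h * (gO o2 gs : ℤ)))
      + 2 * (P.bd : ℤ) * P.q * ((gN (f3 w) gs l : ℤ) - h * (gO o2 gs : ℤ))
      - ((P.sr : ℤ) * P.bn * ((gN (f4 w) gs l : ℤ) - h * (gO o4 gs : ℤ))
        + (P.sr : ℤ) * P.bd * ((gN (fun g xy => Nat.mul g.w (f4 w g xy)) gs l : ℤ)
          - h * (gO (fun g => Nat.mul g.w (o4 g)) gs : ℤ))) := by
  induction gs with
  | nil =>
    intro l _
    show (0 : ℤ) = _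
    have h0 : ∀ f : Grp → ℕ × ℕ → ℕ, gN f [] l = 0 := fun f => rfl
    have h1 : ∀ f : Grp → ℕ, gO f [] = 0 := fun f => rfl
    rw [h0, h0, h0, h0, h0, h0, h1, h1, h1, h1, h1]
    simp
  | cons g gs ih =>
    intro l hl
    rcases l with _ | ⟨xy, l⟩
    · exact absurd hl (by simp [glen])
    · have hl' : glen gs l = true := hl
      have h1 : gsr P w h (g :: gs) (xy :: l) = gr P w h g xy + gsr P w h gs l := rfl
      rw [h1, ih l hl']
      have h2 : gr P w h g xy = sh g.oE
          ((((P.bd : ℤ) * P.sr) * zr w h g.D xy.1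
            - ((P.bd : ℤ) * P.sr * g.a + 2 * (P.bd : ℤ) * P.p) * yr w h g.E xy.1)
            + (2 * (P.bd : ℤ) * P.q) * yr w h g.E xy.2)
          - sh g.oM (((P.sr : ℤ) * (P.bn + P.bd * g.w)) * yr w h g.M xy.1) := by
        have e1 : cD P = (P.bd : ℤ) * P.sr := Nat.cast_mul _ _
        have e2 : cE P g.a = (P.bd : ℤ) * P.sr * g.a + 2 * (P.bd : ℤ) * P.p := by
          show (((P.bd * P.sr * g.a : ℕ) : ℤ) + ((2 * P.bd : ℕ) : ℤ) * P.p) = _
          push_cast
          ring
        have e3 : cF P = 2 * (P.bd : ℤ) * P.q := by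
          show (((2 * P.bd : ℕ) : ℤ) * P.q) = _
          push_cast
          ring
        have e4 : cM P g.w = (P.sr : ℤ) * (P.bn + P.bd * g.w) := by
          show (((P.sr * (P.bn + P.bd * g.w) : ℕ)) : ℤ) = _
          push_cast
          ring
        rw [← e2, ← e1, ← e3, ← e4]
        rfl
      rw [h2, sh_eq, sh_eq, zr_eq, yr_eq, yr_eq, yr_eq]
      simp only [gN_cons, gO_cons, f1, f2, f3, f4, o1, o2, o4, shl_eq, Nat.mul_eq]
      push_cast
      ring

theorem gsi_eq (P : Par) (w h : ℕ) (gs : List Grp) : ∀ l : List (ℕ × ℕ), glen gs l = true →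
    gsi P w h gs l = 2 * (P.bd : ℤ) * P.q * ((gN (i2 w (2 * h)) gs l : ℤ) - h * (gO p2 gs : ℤ))
      - (P.bd : ℤ) * P.sr * ((gN (i1 w (2 * h)) gs l : ℤ) - h * (gO p1 gs : ℤ))
      + ((P.bd : ℤ) * P.sr * ((gN (fun g xy => Nat.mul g.a (i3 w (2 * h) g xy)) gs l : ℤ)
          - h * (gO (fun g => Nat.mul g.a (p2 g)) gs : ℤ))
        + 2 * (P.bd : ℤ) * P.p * ((gN (i3 w (2 * h)) gs l : ℤ) - h * (gO p2 gs : ℤ)))
      + ((P.sr : ℤ) * P.bn * ((gN (i4 w (2 * h)) gs l : ℤ) - h * (gO p4 gs : ℤ))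
        + (P.sr : ℤ) * P.bd * ((gN (fun g xy => Nat.mul g.w (i4 w (2 * h) g xy)) gs l : ℤ)
          - h * (gO (fun g => Nat.mul g.w (p4 g)) gs : ℤ))) := by
  induction gs with
  | nil =>
    intro l _
    show (0 : ℤ) = _
    have h0 : ∀ f : Grp → ℕ × ℕ → ℕ, gN f [] l = 0 := fun f => rfl
    have h1 : ∀ f : Grp → ℕ, gO f [] = 0 := fun f => rfl
    rw [h0, h0, h0, h0, h0, h0, h1, h1, h1, h1, h1]
    simp
  | cons g gs ih =>
    intro l hl
    rcases l with _ | ⟨xy, l⟩
    · exact absurd hl (by simp [glen])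
    · have hl' : glen gs l = true := hl
      have h1 : gsi P w h (g :: gs) (xy :: l) = gi P w h g xy + gsi P w h gs l := rfl
      rw [h1, ih l hl']
      have h2 : gi P w h g xy = sh g.oE
          (((2 * (P.bd : ℤ) * P.q) * yi w h g.E xy.1
            - ((P.bd : ℤ) * P.sr) * zi w h g.D xy.2)
            + ((P.bd : ℤ) * P.sr * g.a + 2 * (P.bd : ℤ) * P.p) * yi w h g.E xy.2)
          + sh g.oM (((P.sr : ℤ) * (P.bn + P.bd * g.w)) * yi w h g.M xy.2) := by
        have e1 : cD P = (P.bd : ℤ) * P.sr := Nat.cast_mul _ _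
        have e2 : cE P g.a = (P.bd : ℤ) * P.sr * g.a + 2 * (P.bd : ℤ) * P.p := by
          show (((P.bd * P.sr * g.a : ℕ) : ℤ) + ((2 * P.bd : ℕ) : ℤ) * P.p) = _
          push_cast
          ring
        have e3 : cF P = 2 * (P.bd : ℤ) * P.q := by
          show (((2 * P.bd : ℕ) : ℤ) * P.q) = _
          push_cast
          ring
        have e4 : cM P g.w = (P.sr : ℤ) * (P.bn + P.bd * g.w) := by
          show (((P.sr * (P.bn + P.bd * g.w) : ℕ)) : ℤ) = _
          push_cast
          ring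
        rw [← e2, ← e1, ← e3, ← e4]
        rfl
      rw [h2, sh_eq, sh_eq, zi_eq, yi_eq, yi_eq, yi_eq]
      simp only [gN_cons, gO_cons, i1, i2, i3, i4, p1, p2, p4, shl_eq, Nat.mul_eq]
      push_cast
      ring

/-- one term of a column, real part -/
def cfR (h SR SI O u v : ℕ) : ℕ := u * SR + v * SI + (4 * h - (u + v)) * O

/-- one term of a column, imaginary part -/
def cfI (h SR SI O u v : ℕ) : ℕ := u * SI + (2 * h - v) * SR + (2 * h + v - u) * O

theorem rsp_cons (w S T : ℕ) (x : ℕ) (X : List ℕ) (a b : ℕ) :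
    rsp w S T (x :: X) a b = (a % w * S + b % w * T + x) :: rsp w S T X (a / w) (b / w) := rfl

theorem rsp_get (w S T : ℕ) : ∀ (X : List ℕ) (a b k : ℕ),
    (rsp w S T X a b)[k]? = (X[k]?).map (fun x =>
      a / w ^ k % w * S + b / w ^ k % w * T + x) := by
  intro X
  induction X with
  | nil => intro a b k; rfl
  | cons x X ih =>
    intro a b k
    rw [rsp_cons]
    rcases k with _ | k
    · simp
    · rw [List.getElem?_cons_succ, List.getElem?_cons_succ, ih]
      simp only [Nat.div_div_eq_div_mul, pow_succ']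

/-- the first multiplier of a row -/
def mS (P be Z Z1 SR SI O : ℕ) : ℕ := (P * (SR + be * SI) + Z1 * (P * (O * (1 + be)))) % Z

/-- the second multiplier of a row -/
def mT (P be Z Z1 SR SI O : ℕ) : ℕ := (P * (SI + be * O) + Z1 * (P * (O + be * SR))) % Z

/-- the correction -/
def mQ (q h Z Z1 S T : ℕ) : ℕ := (q + h * (Z1 * (S + T))) % Z

theorem clp_cons (B w h be Z Z1 : ℕ) (r : ℕ × ℕ × ℕ) (U : List (ℕ × ℕ × ℕ)) (P q : ℕ) :
    clp B w h be Z Z1 (r :: U) P q = rsp w
      (mS P be Z Z1 (spr B w r.1 r.2.1) (spr B w r.1 r.2.2) (h * ons B r.1))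
      (mT P be Z Z1 (spr B w r.1 r.2.1) (spr B w r.1 r.2.2) (h * ons B r.1))
      (mQ q h Z Z1 (mS P be Z Z1 (spr B w r.1 r.2.1) (spr B w r.1 r.2.2) (h * ons B r.1))
        (mT P be Z Z1 (spr B w r.1 r.2.1) (spr B w r.1 r.2.2) (h * ons B r.1))
        :: clp B w h be Z Z1 U (P * B)
          (mQ q h Z Z1 (mS P be Z Z1 (spr B w r.1 r.2.1) (spr B w r.1 r.2.2) (h * ons B r.1))
          (mT P be Z Z1 (spr B w r.1 r.2.1) (spr B w r.1 r.2.2) (h * ons B r.1))))
      r.2.1 r.2.2 := by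
  have h1 : clp B w h be Z Z1 (r :: U) P q = frc (fun SR => frc (fun SI => frc (fun O =>
      frc (fun S => frc (fun T => frc (fun P' => frc (fun q' =>
        rsp w S T (q' :: clp B w h be Z Z1 U P' q') r.2.1 r.2.2)
        (mQ q h Z Z1 S T)) (P * B)) (mT P be Z Z1 SR SI O)) (mS P be Z Z1 SR SI O))
        (h * ons B r.1)) (spr B w r.1 r.2.2)) (spr B w r.1 r.2.1) := rfl
  rw [h1]
  simp only [frc_eq]

theorem cr_zero (B w h : ℕ) (r : ℕ × ℕ × ℕ) (U : List (ℕ × ℕ × ℕ)) :
    cr B w h (r :: U) 0 = cfR h (spr B w r.1 r.2.1) (spr B w r.1 r.2.2) (h * ons B r.1)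
      (r.2.1 / w ^ 0 % w) (r.2.2 / w ^ 0 % w) := rfl

theorem cr_succ (B w h : ℕ) (r : ℕ × ℕ × ℕ) (U : List (ℕ × ℕ × ℕ)) (k : ℕ) :
    cr B w h (r :: U) (k + 1) = cfR h (spr B w r.1 r.2.1) (spr B w r.1 r.2.2) (h * ons B r.1)
      (r.2.1 / w ^ (k + 1) % w) (r.2.2 / w ^ (k + 1) % w) + B * cr B w h U k := rfl

theorem ci_zero (B w h : ℕ) (r : ℕ × ℕ × ℕ) (U : List (ℕ × ℕ × ℕ)) :
    ci B w h (r :: U) 0 = cfI h (spr B w r.1 r.2.1) (spr B w r.1 r.2.2) (h * ons B r.1)
      (r.2.1 / w ^ 0 % w) (r.2.2 / w ^ 0 % w) := rfl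

theorem ci_succ (B w h : ℕ) (r : ℕ × ℕ × ℕ) (U : List (ℕ × ℕ × ℕ)) (k : ℕ) :
    ci B w h (r :: U) (k + 1) = cfI h (spr B w r.1 r.2.1) (spr B w r.1 r.2.2) (h * ons B r.1)
      (r.2.1 / w ^ (k + 1) % w) (r.2.2 / w ^ (k + 1) % w) + B * ci B w h U k := rfl

theorem cq_zero (B w h : ℕ) (r : ℕ × ℕ × ℕ) (U : List (ℕ × ℕ × ℕ)) :
    cq B w h (r :: U) 0 = h * (spr B w r.1 r.2.1 + spr B w r.1 r.2.2)
      + 2 * h * (h * ons B r.1) := rfl

theorem cq_succ (B w h : ℕ) (r : ℕ × ℕ × ℕ) (U : List (ℕ × ℕ × ℕ)) (k : ℕ) :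
    cq B w h (r :: U) (k + 1) = h * (spr B w r.1 r.2.1 + spr B w r.1 r.2.2)
      + 2 * h * (h * ons B r.1) + B * cq B w h U k := rfl

theorem cast_mS {Z Z1 : ℕ} (hZ : Z = Z1 + 1) (P be SR SI O : ℕ) :
    ((mS P be Z Z1 SR SI O : ℕ) : ZMod Z)
      = (P : ZMod Z) * (((SR : ZMod Z) - O) + be * ((SI : ZMod Z) - O)) := by
  have h1 : ((Z1 : ℕ) : ZMod Z) = -1 := by
    have : ((Z : ℕ) : ZMod Z) = 0 := ZMod.natCast_self Z
    rw [hZ] at this ⊢
    push_cast at this
    exact eq_neg_of_add_eq_zero_left this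
  unfold mS
  rw [ZMod.natCast_mod]
  push_cast
  rw [h1]
  ring

theorem cast_mT {Z Z1 : ℕ} (hZ : Z = Z1 + 1) (P be SR SI O : ℕ) :
    ((mT P be Z Z1 SR SI O : ℕ) : ZMod Z)
      = (P : ZMod Z) * (((SI : ZMod Z) - O) + be * ((O : ZMod Z) - SR)) := by
  have h1 : ((Z1 : ℕ) : ZMod Z) = -1 := by
    have : ((Z : ℕ) : ZMod Z) = 0 := ZMod.natCast_self Z
    rw [hZ] at this ⊢
    push_cast at this
    exact eq_neg_of_add_eq_zero_left this
  unfold mT
  rw [ZMod.natCast_mod]
  push_cast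
  rw [h1]
  ring

theorem cast_mQ {Z Z1 : ℕ} (hZ : Z = Z1 + 1) (q h S T : ℕ) :
    ((mQ q h Z Z1 S T : ℕ) : ZMod Z) = (q : ZMod Z) - h * ((S : ZMod Z) + T) := by
  have h1 : ((Z1 : ℕ) : ZMod Z) = -1 := by
    have : ((Z : ℕ) : ZMod Z) = 0 := ZMod.natCast_self Z
    rw [hZ] at this ⊢
    push_cast at this
    exact eq_neg_of_add_eq_zero_left this
  unfold mQ
  rw [ZMod.natCast_mod]
  push_cast
  rw [h1]
  ring

theorem cast_cf {R : Type} [CommRing R] {h u v : ℕ} (hu : u ≤ 2 * h) (hv : v ≤ 2 * h)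
    (P be SR SI O S T : R) (hS : S = P * ((SR - O) + be * (SI - O)))
    (hT : T = P * ((SI - O) + be * (O - SR))) (a b c : ℕ) (ha : (a : R) = SR) (hb : (b : R) = SI)
    (hc : (c : R) = O) :
    ((u : R) - h) * S + ((v : R) - h) * T
      = P * ((((cfR h a b c u v : ℕ) : R) - ((h * (a + b) + 2 * h * c : ℕ) : R))
        + be * (((cfI h a b c u v : ℕ) : R) - ((h * (a + b) + 2 * h * c : ℕ) : R))) := by
  have h1 : u + v ≤ 4 * h := by omega
  have h2 : u ≤ 2 * h + v := by omega
  unfold cfR cfI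
  push_cast [Nat.cast_sub h1, Nat.cast_sub hv, Nat.cast_sub h2]
  rw [hS, hT, ha, hb, hc]
  ring

theorem clp_get {B w h be Z Z1 : ℕ} (hZ : Z = Z1 + 1) (hw0 : 0 < w) (hw : w ≤ 2 * h + 1) :
    ∀ (U : List (ℕ × ℕ × ℕ)) (P q k : ℕ), k < U.length →
    ∃ y : ℕ, (clp B w h be Z Z1 U P q)[k]? = some y ∧ (y : ZMod Z) = (q : ZMod Z)
      + P * ((((cr B w h U k : ℕ) : ZMod Z) - ((cq B w h U k : ℕ) : ZMod Z))
        + be * (((ci B w h U k : ℕ) : ZMod Z) - ((cq B w h U k : ℕ) : ZMod Z))) := by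
  intro U
  induction U with
  | nil => intro P q k hk; simp at hk
  | cons r U ih =>
    intro P q k hk
    have hu : ∀ j, r.2.1 / w ^ j % w ≤ 2 * h := fun j => by
      have := Nat.mod_lt (r.2.1 / w ^ j) hw0
      omega
    have hv : ∀ j, r.2.2 / w ^ j % w ≤ 2 * h := fun j => by
      have := Nat.mod_lt (r.2.2 / w ^ j) hw0
      omega
    rw [clp_cons, rsp_get]
    set a := spr B w r.1 r.2.1 with ha
    set b := spr B w r.1 r.2.2 with hb
    set c := h * ons B r.1 with hc
    have hS := cast_mS hZ P be a b c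
    have hT := cast_mT hZ P be a b c
    have hQ := cast_mQ hZ q h (mS P be Z Z1 a b c) (mT P be Z Z1 a b c)
    rcases k with _ | k
    · refine ⟨_, by rw [List.getElem?_cons_zero, Option.map_some], ?_⟩
      have h1 := cast_cf (R := ZMod Z) (hu 0) (hv 0) (P : ZMod Z) (be : ZMod Z) (a : ZMod Z)
        (b : ZMod Z) (c : ZMod Z) _ _ hS hT a b c rfl rfl rfl
      rw [cr_zero, ci_zero, cq_zero, ← ha, ← hb, ← hc, ← h1]
      push_cast
      rw [hQ]
      ring
    · obtain ⟨y, hy, hy'⟩ := ih (P * B) (mQ q h Z Z1 (mS P be Z Z1 a b c) (mT P be Z Z1 a b c)) k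
        (by simpa using hk)
      refine ⟨_, by rw [List.getElem?_cons_succ, hy, Option.map_some], ?_⟩
      have h1 := cast_cf (R := ZMod Z) (hu (k + 1)) (hv (k + 1)) (P : ZMod Z) (be : ZMod Z)
        (a : ZMod Z) (b : ZMod Z) (c : ZMod Z) _ _ hS hT a b c rfl rfl rfl
      rw [cr_succ, ci_succ, cq_succ, ← ha, ← hb, ← hc]
      push_cast
      rw [hy', hQ]
      push_cast at h1 ⊢
      linear_combination h1

theorem mM_cons (f : List Blk → ℕ → ℕ) (b : ℕ × List Blk) (T : List (ℕ × List Blk)) (x : ℕ)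
    (X : List ℕ) : mM f (b :: T) (x :: X) = f b.2 x + mM f T X := rfl

/-- the sum over the columns from functions -/
theorem mM_eq (f g : List Blk → ℕ → ℕ) (G : ℕ → ℕ) :
    ∀ (T : List (ℕ × List Blk)) (i : ℕ) (X : List ℕ),
      T.map Prod.fst = List.range' i T.length →
      (∀ k < T.length, ∃ y, X[k]? = some y ∧ ∀ bs, f bs y = g bs (G (i + k))) →
      mM f T X = (T.map (fun b => g b.2 (G b.1))).sum := by
  intro T
  induction T with
  | nil => intro i X _ _; rfl
  | cons b T ih =>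
    intro i X hT hX
    rcases X with _ | ⟨x, X⟩
    · obtain ⟨y, hy, -⟩ := hX 0 (by simp)
      simp at hy
    rw [List.map_cons, List.length_cons, List.range'_succ, List.cons.injEq] at hT
    obtain ⟨y, hy, hg⟩ := hX 0 (by simp)
    have hx : x = y := by simpa using hy
    rw [mM_cons, List.map_cons, List.sum_cons, ih (i + 1) X hT.2, hT.1, hx, hg b.2, Nat.add_zero]
    intro k hk
    obtain ⟨y', hy', hg'⟩ := hX (k + 1) (by simpa using hk)
    rw [List.getElem?_cons_succ] at hy'
    refine ⟨y', hy', fun bs => ?_⟩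
    rw [hg' bs]
    congr 2
    omega

theorem mr_sum (B H w h n : ℕ) (U : List (ℕ × ℕ × ℕ)) (T : List (ℕ × List Blk)) :
    mr B H w h n U T = ((T.map (fun b => brN B b.2 (cr B w h U b.1 + H * ons B n
      - cq B w h U b.1))).sum : ℤ) - H * (tO brO T : ℤ) := by
  induction T with
  | nil =>
    show (0 : ℤ) = ((0 : ℕ) : ℤ) - H * ((0 : ℕ) : ℤ)
    simp
  | cons b T ih =>
    have h1 : mr B H w h n U (b :: T) = br B H b.2 (cr B w h U b.1 + H * ons B n
      - cq B w h U b.1) + mr B H w h n U T := rfl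
    have h2 : tO brO (b :: T) = brO b.2 + tO brO T := rfl
    rw [h1, ih, br_eq, h2, List.map_cons, List.sum_cons]
    push_cast
    ring

theorem mi_sum (B H w h n : ℕ) (U : List (ℕ × ℕ × ℕ)) (T : List (ℕ × List Blk)) :
    mi B H w h n U T = ((T.map (fun b => biN B (2 * H) b.2 (ci B w h U b.1 + H * ons B n
      - cq B w h U b.1))).sum : ℤ) - H * (tO biO T : ℤ) := by
  induction T with
  | nil =>
    show (0 : ℤ) = ((0 : ℕ) : ℤ) - H * ((0 : ℕ) : ℤ)
    simp
  | cons b T ih =>
    have h1 : mi B H w h n U (b :: T) = bi B H b.2 (ci B w h U b.1 + H * ons B n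
      - cq B w h U b.1) + mi B H w h n U T := rfl
    have h2 : tO biO (b :: T) = biO b.2 + tO biO T := rfl
    rw [h1, ih, bi_eq, h2, List.map_cons, List.sum_cons]
    push_cast
    ring

/-- a packed sum with offset is small and has a simple value -/
theorem packed_lt (B H n c q : ℕ) (G : ℕ → ℤ) (hB : B = 2 * H)
    (hc : (c : ℤ) - q = ∑ i ∈ Finset.range n, G i * (B : ℤ) ^ i) (hG : ∀ i < n, |G i| < H) :
    c + H * ons B n - q < B ^ n ∧ ((c + H * ons B n - q : ℕ) : ℤ) = c + H * ons B n - q := by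
  have h1 : ∀ j < n, (0 : ℤ) ≤ G j + H ∧ G j + H < B := by
    intro j hj
    have := abs_lt.1 (hG j hj)
    rw [hB]
    push_cast
    constructor <;> linarith only [this.1, this.2]
  have h2 : ((c + H * ons B n : ℕ) : ℤ)
      = ((q + ∑ j ∈ Finset.range n, (G j + H).toNat * B ^ j : ℕ) : ℤ) := by
    rw [ons_eq]
    push_cast
    have h3 : ∑ j ∈ Finset.range n, (((G j + (H : ℤ)).toNat : ℕ) : ℤ) * (B : ℤ) ^ j
        = ∑ j ∈ Finset.range n, (G j * (B : ℤ) ^ j + (H : ℤ) * (B : ℤ) ^ j) := by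
      apply Finset.sum_congr rfl
      intro j hj
      rw [Int.toNat_of_nonneg (h1 j (Finset.mem_range.1 hj)).1]
      ring
    rw [h3, Finset.sum_add_distrib, ← hc, ← Finset.mul_sum]
    ring
  have h4 : c + H * ons B n = q + ∑ j ∈ Finset.range n, (G j + H).toNat * B ^ j := by
    exact_mod_cast h2
  have h5 : ∀ m, (∀ j < m, (G j + H).toNat < B) →
      ∑ j ∈ Finset.range m, (G j + H).toNat * B ^ j < B ^ m := by
    intro m
    induction m with
    | zero => intro _; simp
    | succ m ih =>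
      intro hm
      rw [Finset.sum_range_succ, pow_succ]
      have e1 := ih (fun j hj => hm j (by omega))
      have e2 := hm m (by omega)
      have e3 : ((G m + H).toNat + 1) * B ^ m ≤ B * B ^ m := Nat.mul_le_mul_right _ e2
      rw [Nat.succ_mul, mul_comm B] at e3
      exact (Nat.add_lt_add_right e1 _).trans_le ((Nat.add_comm _ _).trans_le e3)
  constructor
  · rw [h4, Nat.add_sub_cancel_left]
    exact h5 n (fun j hj => by have := h1 j hj; omega)
  · rw [h4, Nat.add_sub_cancel_left]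
    have h6 : ((c + H * ons B n : ℕ) : ℤ)
        = ((q + ∑ j ∈ Finset.range n, (G j + H).toNat * B ^ j : ℕ) : ℤ) := by rw [h4]
    push_cast at h6 ⊢
    linarith only [h6]

/-- the real and the imaginary part of a packed column -/
theorem split_of_zmod {be y x x' : ℕ} (hx : x < be) (hx' : x' < be)
    (h : (y : ZMod (be * be)) = ((x + be * x' : ℕ) : ZMod (be * be))) :
    y % be = x ∧ y / be % be = x' := by
  have h1 : y % (be * be) = (x + be * x') % (be * be) := (ZMod.natCast_eq_natCast_iff' _ _ _).1 h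
  have h2 : x + be * x' < be * be :=
    (Nat.add_lt_add_right hx _).trans_le ((Nat.add_comm _ _).trans_le
      ((Nat.mul_succ be x').symm.trans_le (Nat.mul_le_mul_left be hx')))
  rw [Nat.mod_eq_of_lt h2, Nat.mod_mul] at h1
  have h3 : y % be < be := Nat.mod_lt _ (by omega)
  have h4 : (y % be + be * (y / be % be)) % be = (x + be * x') % be := by rw [h1]
  rw [Nat.add_mul_mod_self_left, Nat.add_mul_mod_self_left, Nat.mod_mod, Nat.mod_eq_of_lt hx]
    at h4
  refine ⟨h4, ?_⟩
  rw [h4] at h1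
  have h5 : be * (y / be % be) = be * x' := by omega
  exact Nat.eq_of_mul_eq_mul_left (by omega) h5

/-- the columns are right -/
theorem clp_split {B H w h n : ℕ} (hB : B = 2 * H) (hH : 2 * n * (w * w) ≤ H) (hw0 : 0 < w)
    (hw : w ≤ 2 * h + 1) (hw' : h < w) {U : List (ℕ × ℕ × ℕ)} (hU : uok U n = true) {Z1 : ℕ}
    (hZ : B ^ n * B ^ n = Z1 + 1) (k : ℕ) (hk : k < n) :
    ∃ y, (clp B w h (B ^ n) (B ^ n * B ^ n) Z1 U 1 (H * (ons B n * (1 + B ^ n))))[k]? = some y ∧
      y % B ^ n = cr B w h U k + H * ons B n - cq B w h U k ∧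
      y / B ^ n % B ^ n = ci B w h U k + H * ons B n - cq B w h U k := by
  have hlen : U.length = n := uok_len hU
  have hww : 0 < w * w := Nat.mul_pos hw0 hw0
  have hH0 : 0 < H := by
    have : 0 < 2 * n * (w * w) := Nat.mul_pos (by omega) hww
    omega
  have hb : 2 * (n : ℤ) * (((w : ℤ) - 1) * ((w : ℤ) - 1)) < H := by
    have h1 : 2 * (n : ℤ) * ((w : ℤ) * w) ≤ H := by exact_mod_cast hH
    have h2 : (1 : ℤ) ≤ w := by exact_mod_cast hw0
    have h3 : (1 : ℤ) ≤ n := by exact_mod_cast (by omega : 1 ≤ n)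
    have h4 : 0 < 2 * (n : ℤ) * (2 * w - 1) :=
      mul_pos (by linarith only [h3]) (by linarith only [h2])
    have h5 : 2 * (n : ℤ) * (((w : ℤ) - 1) * ((w : ℤ) - 1))
        = 2 * (n : ℤ) * ((w : ℤ) * w) - 2 * (n : ℤ) * (2 * w - 1) := by ring
    linarith only [h1, h4, h5]
  have hG1 : ∀ i < n, |Gre w h U i k| < (H : ℤ) := fun i _ => by
    have := Gre_abs w h hw' U i k
    rw [hlen] at this
    linarith only [this, hb]
  have hG2 : ∀ i < n, |Gim w h U i k| < (H : ℤ) := fun i _ => by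
    have := Gim_abs w h hw' U i k
    rw [hlen] at this
    linarith only [this, hb]
  obtain ⟨r1, r2⟩ := packed_lt B H n _ _ _ hB (cr_cq B w h hw0 hw U n k hU hk) hG1
  obtain ⟨i1, i2⟩ := packed_lt B H n _ _ _ hB (ci_cq B w h hw0 hw U n k hU hk) hG2
  obtain ⟨y, hy, hy'⟩ := clp_get (be := B ^ n) hZ hw0 hw U 1 (H * (ons B n * (1 + B ^ n))) k
    (by omega)
  refine ⟨y, hy, split_of_zmod r1 i1 ?_⟩
  have r3 := congrArg (Int.cast : ℤ → ZMod (B ^ n * B ^ n)) r2
  have i3 := congrArg (Int.cast : ℤ → ZMod (B ^ n * B ^ n)) i2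
  simp only [Int.cast_natCast, Int.cast_sub, Int.cast_add, Int.cast_mul] at r3 i3
  rw [hy', Nat.cast_add, Nat.cast_mul (B ^ n) (ci B w h U k + H * ons B n - cq B w h U k), r3, i3]
  push_cast
  ring

/-- the reading of the real part of a column -/
noncomputable def rdR (B be : ℕ) (bs : List Blk) (x : ℕ) : ℕ :=
  frc (fun y => brN B bs y) (Nat.mod x be)

/-- the reading of the imaginary part of a column -/
noncomputable def rdI (B be g : ℕ) (bs : List Blk) (x : ℕ) : ℕ :=
  frc (fun y => biN B g bs y) (Nat.mod (Nat.div x be) be)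

theorem rdR_eq (B be : ℕ) (bs : List Blk) (x : ℕ) : rdR B be bs x = brN B bs (x % be) :=
  frc_eq _ _

theorem rdI_eq (B be g : ℕ) (bs : List Blk) (x : ℕ) :
    rdI B be g bs x = biN B g bs (x / be % be) := frc_eq _ _

theorem mr_eq {B H w h n : ℕ} (hB : B = 2 * H) (hH : 2 * n * (w * w) ≤ H) (hw0 : 0 < w)
    (hw : w ≤ 2 * h + 1) (hw' : h < w) {U : List (ℕ × ℕ × ℕ)} (hU : uok U n = true) {Z1 : ℕ}
    (hZ : B ^ n * B ^ n = Z1 + 1) {T : List (ℕ × List Blk)}
    (hT : T.map Prod.fst = List.range' 0 T.length) (hn : T.length = n) :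
    mr B H w h n U T = (mM (rdR B (B ^ n)) T
      (clp B w h (B ^ n) (B ^ n * B ^ n) Z1 U 1 (H * (ons B n * (1 + B ^ n)))) : ℤ)
        - H * (tO brO T : ℤ) := by
  rw [mr_sum, mM_eq (rdR B (B ^ n)) (brN B)
    (fun k => cr B w h U k + H * ons B n - cq B w h U k) T 0 _ hT]
  intro k hk
  obtain ⟨y, hy, h1, -⟩ := clp_split hB hH hw0 hw hw' hU hZ k (by omega)
  refine ⟨y, hy, fun bs => ?_⟩
  rw [rdR_eq, h1, Nat.zero_add]

theorem mi_eq {B H w h n : ℕ} (hB : B = 2 * H) (hH : 2 * n * (w * w) ≤ H) (hw0 : 0 < w)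
    (hw : w ≤ 2 * h + 1) (hw' : h < w) {U : List (ℕ × ℕ × ℕ)} (hU : uok U n = true) {Z1 : ℕ}
    (hZ : B ^ n * B ^ n = Z1 + 1) {T : List (ℕ × List Blk)}
    (hT : T.map Prod.fst = List.range' 0 T.length) (hn : T.length = n) :
    mi B H w h n U T = (mM (rdI B (B ^ n) (2 * H)) T
      (clp B w h (B ^ n) (B ^ n * B ^ n) Z1 U 1 (H * (ons B n * (1 + B ^ n)))) : ℤ)
        - H * (tO biO T : ℤ) := by
  rw [mi_sum, mM_eq (rdI B (B ^ n) (2 * H)) (biN B (2 * H))
    (fun k => ci B w h U k + H * ons B n - cq B w h U k) T 0 _ hT]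
  intro k hk
  obtain ⟨y, hy, -, h1⟩ := clp_split hB hH hw0 hw hw' hU hZ k (by omega)
  refine ⟨y, hy, fun bs => ?_⟩
  rw [rdI_eq, h1, Nat.zero_add]

/-- constants of a table -/
structure TabC where
  /-- the form, real -/
  zq : ℕ
  /-- the derivatives, real -/
  zD : ℕ
  /-- the products with multiplicities, real -/
  zaE : ℕ
  /-- the products, real -/
  zE : ℕ
  /-- the monomials, real -/
  zM : ℕ
  /-- the monomials with weights, real -/
  zwM : ℕ
  /-- the Gram matrix, real -/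
  zC : ℕ
  /-- the residual, real -/
  zr : ℕ
  /-- the sum of all squares -/
  d1 : ℕ
  /-- the form, imaginary -/
  yq : ℕ
  /-- the derivatives, imaginary -/
  yD : ℕ
  /-- the products with multiplicities, imaginary -/
  yaE : ℕ
  /-- the products, imaginary -/
  yE : ℕ
  /-- the monomials, imaginary -/
  yM : ℕ
  /-- the monomials with weights, imaginary -/
  ywM : ℕ
  /-- the Gram matrix, imaginary -/
  yC : ℕ
  /-- the residual, imaginary -/
  yr : ℕ

/-- the constants belong to the table -/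
noncomputable def TabC.ok (c : TabC) (t : Tab6) : Bool :=
  and (and (and (and (Nat.beq c.zq (brO t.q)) (Nat.beq c.zD (gO o1 t.g)))
    (and (Nat.beq c.zaE (gO (fun g => Nat.mul g.a (o2 g)) t.g)) (Nat.beq c.zE (gO o2 t.g))))
    (and (and (Nat.beq c.zM (gO o4 t.g)) (Nat.beq c.zwM (gO (fun g => Nat.mul g.w (o4 g)) t.g)))
      (and (Nat.beq c.zC (tO brO t.c)) (Nat.beq c.zr (brO t.r)))))
    (and (and (and (and (Nat.beq c.yq (biO t.q)) (Nat.beq c.yD (gO p1 t.g)))
    (and (Nat.beq c.yaE (gO (fun g => Nat.mul g.a (p2 g)) t.g)) (Nat.beq c.yE (gO p2 t.g))))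
    (and (and (Nat.beq c.yM (gO p4 t.g)) (Nat.beq c.ywM (gO (fun g => Nat.mul g.w (p4 g)) t.g)))
      (and (Nat.beq c.yC (tO biO t.c)) (Nat.beq c.yr (biO t.r)))))
      (Nat.beq c.d1 (brN 2 t.d (Nat.sub (Nat.pow 2 t.nB) 1))))

/-- the groups, real part -/
noncomputable def gsF (P : Par) (w h : ℕ) (c : TabC) (gs : List Grp) (l : List (ℕ × ℕ)) : ℤ :=
  Int.sub (Int.add (Int.sub
    (Int.mul (Int.ofNat (Nat.mul P.bd P.sr))
      (Int.subNatNat (Nat.add (gN (f1 w) gs l) (Nat.mul h c.zaE))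
        (Nat.add (gN (fun g xy => Nat.mul g.a (f2 w g xy)) gs l) (Nat.mul h c.zD))))
    (Int.mul (Int.mul (Int.ofNat (Nat.mul 2 P.bd)) P.p)
      (Int.subNatNat (gN (f2 w) gs l) (Nat.mul h c.zE))))
    (Int.mul (Int.mul (Int.ofNat (Nat.mul 2 P.bd)) P.q)
      (Int.subNatNat (gN (f3 w) gs l) (Nat.mul h c.zE))))
    (Int.mul (Int.ofNat P.sr) (Int.subNatNat
      (Nat.add (Nat.mul P.bn (gN (f4 w) gs l))
        (Nat.mul P.bd (gN (fun g xy => Nat.mul g.w (f4 w g xy)) gs l)))
      (Nat.mul h (Nat.add (Nat.mul P.bn c.zM) (Nat.mul P.bd c.zwM)))))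

/-- the groups, imaginary part -/
noncomputable def gsG (P : Par) (w h h2 : ℕ) (c : TabC) (gs : List Grp) (l : List (ℕ × ℕ)) : ℤ :=
  Int.add (Int.add (Int.add
    (Int.mul (Int.ofNat (Nat.mul P.bd P.sr))
      (Int.subNatNat (Nat.add (gN (fun g xy => Nat.mul g.a (i3 w h2 g xy)) gs l) (Nat.mul h c.yD))
        (Nat.add (gN (i1 w h2) gs l) (Nat.mul h c.yaE))))
    (Int.mul (Int.mul (Int.ofNat (Nat.mul 2 P.bd)) P.p)
      (Int.subNatNat (gN (i3 w h2) gs l) (Nat.mul h c.yE))))
    (Int.mul (Int.mul (Int.ofNat (Nat.mul 2 P.bd)) P.q)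
      (Int.subNatNat (gN (i2 w h2) gs l) (Nat.mul h c.yE))))
    (Int.mul (Int.ofNat P.sr) (Int.subNatNat
      (Nat.add (Nat.mul P.bn (gN (i4 w h2) gs l))
        (Nat.mul P.bd (gN (fun g xy => Nat.mul g.w (i4 w h2 g xy)) gs l)))
      (Nat.mul h (Nat.add (Nat.mul P.bn c.yM) (Nat.mul P.bd c.ywM)))))

/-- the real part of the identity; `X` is the list of the columns -/
noncomputable def FRf (t : Tab6) (c : TabC) (C : Cert6) (B be : ℕ) (X : List ℕ) : ℤ :=
  Int.add (Int.add
    (Int.mul (Int.ofNat (Nat.mul 2 C.m1)) (Int.add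
      (Int.mul (Int.ofNat (Nat.mul C.P.sr C.P.bd))
        (Int.subNatNat (Nat.add (Nat.shiftLeft C.eta t.one) (frc (fun w => brN w t.q C.qx) C.wQ))
          (Nat.mul C.hQ c.zq)))
      (Int.mul (Int.ofNat C.mL) (frc (fun w => gsF C.P w C.hL c t.g C.G) C.wL))))
    (Int.mul (Int.ofNat C.m2) (Int.subNatNat (mM (rdR B be) t.c X) (Nat.mul C.hG c.zC))))
    (Int.add (Int.ofNat (Nat.add (frc (fun w => brN w t.d C.dg) C.wD) (Nat.mul C.eps c.d1)))
      (Int.mul (Int.ofNat 2) (Int.subNatNat (frc (fun w => brN w t.r C.rx) C.wR)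
        (Nat.mul C.hR c.zr))))

/-- minus the imaginary part of the identity -/
noncomputable def FIf (t : Tab6) (c : TabC) (C : Cert6) (B be : ℕ) (X : List ℕ) : ℤ :=
  Int.add (Int.sub
    (Int.mul (Int.ofNat C.m2) (Int.subNatNat
      (frc (fun g => mM (rdI B be g) t.c X) (Nat.mul 2 C.hG)) (Nat.mul C.hG c.yC)))
    (Int.mul (Int.ofNat (Nat.mul 2 C.m1)) (Int.sub
      (Int.mul (Int.ofNat C.mL)
        (frc (fun h2 => frc (fun w => gsG C.P w C.hL h2 c t.g C.G) C.wL) (Nat.mul 2 C.hL)))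
      (Int.mul (Int.ofNat (Nat.mul C.P.sr C.P.bd))
        (Int.subNatNat (frc (fun h2 => frc (fun w => biN w h2 t.q C.qy) C.wQ) (Nat.mul 2 C.hQ))
          (Nat.mul C.hQ c.yq))))))
    (Int.mul (Int.ofNat 2) (Int.subNatNat
      (frc (fun h2 => frc (fun w => biN w h2 t.r C.ry) C.wR) (Nat.mul 2 C.hR))
      (Nat.mul C.hR c.yr)))

/-- the conditions on the sizes -/
noncomputable def szF (t : Tab6) (C : Cert6) : Bool :=
  and (and (Nat.ble (Nat.succ C.hU) C.wU) (Nat.ble C.wU (Nat.succ (Nat.mul 2 C.hU))))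
    (and (Nat.beq C.wG (Nat.mul 2 C.hG))
      (Nat.ble (Nat.mul (Nat.mul 2 t.n) (Nat.mul C.wU C.wU)) C.hG))

/-- **The fast form of the checks `chR` and `chI`.** -/
noncomputable def chF (t : Tab6) (c : TabC) (C : Cert6) : Bool :=
  and (and (and (glen t.g C.G) (uok C.U t.n)) (szF t C))
    (frc (fun B => frc (fun w => frc (fun h => frc (fun be => frc (fun Z1 => frc (fun Z =>
      (fun X : List ℕ => and (Nat.beq Z (Nat.succ Z1))
        (and (isz (FRf t c C B be X)) (isz (FIf t c C B be X))))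
        (clp B w h be Z Z1 C.U 1 (Nat.mul C.hG (Nat.mul (ons B t.n) (Nat.add 1 be)))))
      (Nat.mul be be)) (Nat.sub (Nat.mul be be) 1)) (Nat.pow B t.n)) C.hU) C.wU) C.wG)

theorem TabC.ok_eqs {c : TabC} {t : Tab6} (h : c.ok t = true) :
    (c.zq = brO t.q ∧ c.zD = gO o1 t.g ∧ c.zaE = gO (fun g => Nat.mul g.a (o2 g)) t.g
      ∧ c.zE = gO o2 t.g ∧ c.zM = gO o4 t.g ∧ c.zwM = gO (fun g => Nat.mul g.w (o4 g)) t.g
      ∧ c.zC = tO brO t.c ∧ c.zr = brO t.r)
    ∧ (c.yq = biO t.q ∧ c.yD = gO p1 t.g ∧ c.yaE = gO (fun g => Nat.mul g.a (p2 g)) t.g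
      ∧ c.yE = gO p2 t.g ∧ c.yM = gO p4 t.g ∧ c.ywM = gO (fun g => Nat.mul g.w (p4 g)) t.g
      ∧ c.yC = tO biO t.c ∧ c.yr = biO t.r) ∧ c.d1 = brN 2 t.d (2 ^ t.nB - 1) := by
  simp only [TabC.ok, Bool.and_eq_true] at h
  obtain ⟨⟨⟨⟨a1, a2⟩, a3, a4⟩, ⟨a5, a6⟩, a7, a8⟩, ⟨⟨⟨b1, b2⟩, b3, b4⟩, ⟨b5, b6⟩, b7, b8⟩, d⟩ := h
  exact ⟨⟨Nat.eq_of_beq_eq_true a1, Nat.eq_of_beq_eq_true a2, Nat.eq_of_beq_eq_true a3,
    Nat.eq_of_beq_eq_true a4, Nat.eq_of_beq_eq_true a5, Nat.eq_of_beq_eq_true a6,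
    Nat.eq_of_beq_eq_true a7, Nat.eq_of_beq_eq_true a8⟩,
    ⟨Nat.eq_of_beq_eq_true b1, Nat.eq_of_beq_eq_true b2, Nat.eq_of_beq_eq_true b3,
    Nat.eq_of_beq_eq_true b4, Nat.eq_of_beq_eq_true b5, Nat.eq_of_beq_eq_true b6,
    Nat.eq_of_beq_eq_true b7, Nat.eq_of_beq_eq_true b8⟩, Nat.eq_of_beq_eq_true d⟩

theorem gsF_eq {t : Tab6} {c : TabC} (hc : c.ok t = true) (P : Par) (w h : ℕ)
    (l : List (ℕ × ℕ)) (hl : glen t.g l = true) : gsF P w h c t.g l = gsr P w h t.g l := by
  obtain ⟨⟨e1, e2, e3, e4, e5, e6, e7, e8⟩, -, -⟩ := TabC.ok_eqs hc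
  rw [gsr_eq P w h t.g l hl, ← e2, ← e3, ← e4, ← e5, ← e6]
  have h1 : gsF P w h c t.g l = ((P.bd * P.sr : ℕ) : ℤ)
      * Int.subNatNat (gN (f1 w) t.g l + h * c.zaE)
        (gN (fun g xy => Nat.mul g.a (f2 w g xy)) t.g l + h * c.zD)
      - (((2 * P.bd : ℕ) : ℤ) * P.p) * Int.subNatNat (gN (f2 w) t.g l) (h * c.zE)
      + (((2 * P.bd : ℕ) : ℤ) * P.q) * Int.subNatNat (gN (f3 w) t.g l) (h * c.zE)
      - (P.sr : ℤ) * Int.subNatNat (P.bn * gN (f4 w) t.g l
          + P.bd * gN (fun g xy => Nat.mul g.w (f4 w g xy)) t.g l)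
        (h * (P.bn * c.zM + P.bd * c.zwM)) := rfl
  rw [h1]
  simp only [Int.subNatNat_eq_coe]
  push_cast
  ring

theorem gsG_eq {t : Tab6} {c : TabC} (hc : c.ok t = true) (P : Par) (w h : ℕ)
    (l : List (ℕ × ℕ)) (hl : glen t.g l = true) :
    gsG P w h (2 * h) c t.g l = gsi P w h t.g l := by
  obtain ⟨-, ⟨e1, e2, e3, e4, e5, e6, e7, e8⟩, -⟩ := TabC.ok_eqs hc
  rw [gsi_eq P w h t.g l hl, ← e2, ← e3, ← e4, ← e5, ← e6]
  have h1 : gsG P w h (2 * h) c t.g l = ((P.bd * P.sr : ℕ) : ℤ)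
      * Int.subNatNat (gN (fun g xy => Nat.mul g.a (i3 w (2 * h) g xy)) t.g l + h * c.yD)
        (gN (i1 w (2 * h)) t.g l + h * c.yaE)
      + (((2 * P.bd : ℕ) : ℤ) * P.p) * Int.subNatNat (gN (i3 w (2 * h)) t.g l) (h * c.yE)
      + (((2 * P.bd : ℕ) : ℤ) * P.q) * Int.subNatNat (gN (i2 w (2 * h)) t.g l) (h * c.yE)
      + (P.sr : ℤ) * Int.subNatNat (P.bn * gN (i4 w (2 * h)) t.g l
          + P.bd * gN (fun g xy => Nat.mul g.w (i4 w (2 * h) g xy)) t.g l)
        (h * (P.bn * c.yM + P.bd * c.ywM)) := rfl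
  rw [h1]
  simp only [Int.subNatNat_eq_coe]
  push_cast
  ring

theorem FRf_eq {t : Tab6} {c : TabC} (hc : c.ok t = true)
    (hT : t.c.map Prod.fst = List.range' 0 t.c.length) (hn : t.c.length = t.n) (C : Cert6)
    (hl : glen t.g C.G = true) (hU : uok C.U t.n = true) (h1 : C.hU < C.wU)
    (h2 : C.wU ≤ 2 * C.hU + 1) (h3 : C.wG = 2 * C.hG) (h4 : 2 * t.n * (C.wU * C.wU) ≤ C.hG)
    {Z1 : ℕ} (hZ : C.wG ^ t.n * C.wG ^ t.n = Z1 + 1) :
    FRf t c C C.wG (C.wG ^ t.n) (clp C.wG C.wU C.hU (C.wG ^ t.n) (C.wG ^ t.n * C.wG ^ t.n) Z1 C.U 1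
      (C.hG * (ons C.wG t.n * (1 + C.wG ^ t.n)))) = FR t C := by
  obtain ⟨⟨e1, e2, e3, e4, e5, e6, e7, e8⟩, -, ed⟩ := TabC.ok_eqs hc
  set X := clp C.wG C.wU C.hU (C.wG ^ t.n) (C.wG ^ t.n * C.wG ^ t.n) Z1 C.U 1
      (C.hG * (ons C.wG t.n * (1 + C.wG ^ t.n))) with hX
  have q1 : FRf t c C C.wG (C.wG ^ t.n) X
      = ((2 * C.m1 : ℕ) : ℤ) * (((C.P.sr * C.P.bd : ℕ) : ℤ)
          * (Int.subNatNat (Nat.shiftLeft C.eta t.one + frc (fun w => brN w t.q C.qx) C.wQ)
            (C.hQ * c.zq)) + (C.mL : ℤ) * frc (fun w => gsF C.P w C.hL c t.g C.G) C.wL)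
        + (C.m2 : ℤ) * Int.subNatNat (mM (rdR C.wG (C.wG ^ t.n)) t.c X) (C.hG * c.zC)
        + ((((frc (fun w => brN w t.d C.dg) C.wD + C.eps * c.d1 : ℕ)) : ℤ)
          + 2 * Int.subNatNat (frc (fun w => brN w t.r C.rx) C.wR) (C.hR * c.zr)) := rfl
  have q2 : FR t C = ((2 * C.m1 : ℕ) : ℤ) * (((C.P.sr * C.P.bd : ℕ) : ℤ)
          * (((Nat.shiftLeft C.eta t.one : ℕ) : ℤ) + br C.wQ C.hQ t.q C.qx)
            + (C.mL : ℤ) * gsr C.P C.wL C.hL t.g C.G)
        + (C.m2 : ℤ) * mr C.wG C.hG C.wU C.hU t.n C.U t.c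
        + ((br C.wD 0 t.d C.dg + (C.eps : ℤ) * br 2 0 t.d (2 ^ t.nB - 1))
          + 2 * br C.wR C.hR t.r C.rx) := rfl
  rw [q1, q2, mr_eq h3 h4 (by omega) h2 h1 hU hZ hT hn, ← hX, br_eq, br_eq, br_eq, br_eq, ← e1,
    ← e7, ← e8, ← ed]
  simp only [frc_eq, Int.subNatNat_eq_coe]
  rw [gsF_eq hc C.P C.wL C.hL C.G hl]
  push_cast
  ring

theorem FIf_eq {t : Tab6} {c : TabC} (hc : c.ok t = true)
    (hT : t.c.map Prod.fst = List.range' 0 t.c.length) (hn : t.c.length = t.n) (C : Cert6)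
    (hl : glen t.g C.G = true) (hU : uok C.U t.n = true) (h1 : C.hU < C.wU)
    (h2 : C.wU ≤ 2 * C.hU + 1) (h3 : C.wG = 2 * C.hG) (h4 : 2 * t.n * (C.wU * C.wU) ≤ C.hG)
    {Z1 : ℕ} (hZ : C.wG ^ t.n * C.wG ^ t.n = Z1 + 1) :
    FIf t c C C.wG (C.wG ^ t.n) (clp C.wG C.wU C.hU (C.wG ^ t.n) (C.wG ^ t.n * C.wG ^ t.n) Z1 C.U 1
      (C.hG * (ons C.wG t.n * (1 + C.wG ^ t.n)))) = FI t C := by
  obtain ⟨-, ⟨e1, e2, e3, e4, e5, e6, e7, e8⟩, -⟩ := TabC.ok_eqs hc
  set X := clp C.wG C.wU C.hU (C.wG ^ t.n) (C.wG ^ t.n * C.wG ^ t.n) Z1 C.U 1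
      (C.hG * (ons C.wG t.n * (1 + C.wG ^ t.n))) with hX
  have q1 : FIf t c C C.wG (C.wG ^ t.n) X
      = (C.m2 : ℤ) * Int.subNatNat (frc (fun g => mM (rdI C.wG (C.wG ^ t.n) g) t.c X) (2 * C.hG))
          (C.hG * c.yC)
        - ((2 * C.m1 : ℕ) : ℤ) * ((C.mL : ℤ)
            * frc (fun h2 => frc (fun w => gsG C.P w C.hL h2 c t.g C.G) C.wL) (2 * C.hL)
          - ((C.P.sr * C.P.bd : ℕ) : ℤ) * Int.subNatNat
            (frc (fun h2 => frc (fun w => biN w h2 t.q C.qy) C.wQ) (2 * C.hQ)) (C.hQ * c.yq))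
        + 2 * Int.subNatNat (frc (fun h2 => frc (fun w => biN w h2 t.r C.ry) C.wR) (2 * C.hR))
          (C.hR * c.yr) := rfl
  have q2 : FI t C = (C.m2 : ℤ) * mi C.wG C.hG C.wU C.hU t.n C.U t.c
        - ((2 * C.m1 : ℕ) : ℤ) * ((C.mL : ℤ) * gsi C.P C.wL C.hL t.g C.G
          - ((C.P.sr * C.P.bd : ℕ) : ℤ) * bi C.wQ C.hQ t.q C.qy)
        + 2 * bi C.wR C.hR t.r C.ry := rfl
  rw [q1, q2, mi_eq h3 h4 (by omega) h2 h1 hU hZ hT hn, ← hX, bi_eq, bi_eq, ← e1, ← e7, ← e8]
  simp only [frc_eq, Int.subNatNat_eq_coe]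
  rw [gsG_eq hc C.P C.wL C.hL C.G hl]
  push_cast
  ring

theorem chF_eqs {t : Tab6} {c : TabC} (hc : c.ok t = true)
    (hT : t.c.map Prod.fst = List.range' 0 t.c.length) (hn : t.c.length = t.n) {C : Cert6}
    (h : chF t c C = true) : chR t C = true ∧ chI t C = true := by
  have h0 : chF t c C = (((glen t.g C.G && uok C.U t.n)
      && ((Nat.ble (Nat.succ C.hU) C.wU && Nat.ble C.wU (2 * C.hU + 1))
        && (Nat.beq C.wG (2 * C.hG) && Nat.ble (2 * t.n * (C.wU * C.wU)) C.hG)))
      && frc (fun B => frc (fun w => frc (fun h => frc (fun be => frc (fun Z1 => frc (fun Z =>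
        (Nat.beq Z (Z1 + 1) && (isz (FRf t c C B be (clp B w h be Z Z1 C.U 1
            (C.hG * (ons B t.n * (1 + be)))))
          && isz (FIf t c C B be (clp B w h be Z Z1 C.U 1 (C.hG * (ons B t.n * (1 + be))))))))
      (be * be)) (be * be - 1)) (B ^ t.n)) C.hU) C.wU) C.wG) := rfl
  rw [h0] at h
  simp only [frc_eq, Bool.and_eq_true] at h
  obtain ⟨⟨⟨hl, hU⟩, ⟨s1, s2⟩, s3, s4⟩, z, h1, h2⟩ := h
  have z' := Nat.eq_of_beq_eq_true z
  have s3' := Nat.eq_of_beq_eq_true s3
  rw [FRf_eq hc hT hn C hl hU (Nat.le_of_ble_eq_true s1) (Nat.le_of_ble_eq_true s2) s3'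
    (Nat.le_of_ble_eq_true s4) z'] at h1
  rw [FIf_eq hc hT hn C hl hU (Nat.le_of_ble_eq_true s1) (Nat.le_of_ble_eq_true s2) s3'
    (Nat.le_of_ble_eq_true s4) z'] at h2
  exact ⟨h1, h2⟩

end Pool.Agent.M16.Helper12.HR2F

end

section

set_option autoImplicit false

namespace Pool.Agent.M16.Helper54.HR2

open Pool.Agent.M16.Helper12.HR2 (Par)

section Forms

variable {A : Type*} [AddCommGroup A]

/-- the value of a list of terms -/
def tv (v : ℕ → A) (l : List (ℕ × ℕ)) : A := (l.map fun p => (p.2 : ℤ) • v p.1).sum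

/-- the real value of a row -/
def rowR (v : ℕ → A) (r : Row) : A := tv v r.1 + (tv v r.2.1 + tv v r.2.2)

/-- the imaginary value of a row -/
def rowI (v : ℕ → A) (r : Row) : A := tv v r.1 - tv v r.2.1

/-- the real value of a row with one term -/
def sR (v : ℕ → A) (s : Sng) : A := v s.1

/-- the imaginary value of a row with one term -/
def sI (v : ℕ → A) (s : Sng) : A := if s.2 = 0 then v s.1 else if s.2 = 1 then -v s.1 else 0

/-- a form: the digits of `x` minus `h` times the rows -/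
def fm {R : Type} (F : R → A) (w h : ℕ) : List R → ℕ → A
  | [], _ => 0
  | (r :: rs), x => (((x % w : ℕ) : ℤ) - h) • F r + fm F w h rs (x / w)

/-- the shifted valuation -/
def vo (v : ℕ → A) (o : ℕ) : ℕ → A := fun T => v (o + T)

/-- the real form of blocks -/
def bmR (v : ℕ → A) (w h : ℕ) (bs : List Blk) (x : ℕ) : A :=
  (bs.map fun b => fm (sR (vo v b.1)) w h b.2.2 (x / w ^ b.2.1)).sum

/-- the imaginary form of blocks -/
def bmI (v : ℕ → A) (w h : ℕ) (bs : List Blk) (x : ℕ) : A :=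
  (bs.map fun b => fm (sI (vo v b.1)) w h b.2.2 (x / w ^ b.2.1)).sum

/-- the real form of a group -/
noncomputable def gmR (P : Par) (v : ℕ → A) (w h : ℕ) (g : Grp) (xy : ℕ × ℕ) : A :=
  (cD P • fm (rowR (vo v g.oE)) w h g.D xy.1 - cE P g.a • fm (sR (vo v g.oE)) w h g.E xy.1)
    + cF P • fm (sR (vo v g.oE)) w h g.E xy.2 - cM P g.w • fm (sR (vo v g.oM)) w h g.M xy.1

/-- the imaginary form of a group -/
noncomputable def gmI (P : Par) (v : ℕ → A) (w h : ℕ) (g : Grp) (xy : ℕ × ℕ) : A :=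
  (cF P • fm (sI (vo v g.oE)) w h g.E xy.1 - cD P • fm (rowI (vo v g.oE)) w h g.D xy.2)
    + cE P g.a • fm (sI (vo v g.oE)) w h g.E xy.2 + cM P g.w • fm (sI (vo v g.oM)) w h g.M xy.2

/-- the real form of the groups -/
noncomputable def gsmR (P : Par) (v : ℕ → A) (w h : ℕ) : List Grp → List (ℕ × ℕ) → A
  | [], _ => 0
  | (_ :: _), [] => 0
  | (g :: gs), (xy :: l) => gmR P v w h g xy + gsmR P v w h gs l

/-- the imaginary form of the groups -/
noncomputable def gsmI (P : Par) (v : ℕ → A) (w h : ℕ) : List Grp → List (ℕ × ℕ) → A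
  | [], _ => 0
  | (_ :: _), [] => 0
  | (g :: gs), (xy :: l) => gmI P v w h g xy + gsmI P v w h gs l

/-- the packed column of the Gram matrix, real part -/
noncomputable def zc (B H w h n : ℕ) (U : List (ℕ × ℕ × ℕ)) (k : ℕ) : ℕ :=
  cr B w h U k + H * ons B n - cq B w h U k

/-- the packed column of the Gram matrix, imaginary part -/
noncomputable def zd (B H w h n : ℕ) (U : List (ℕ × ℕ × ℕ)) (k : ℕ) : ℕ :=
  ci B w h U k + H * ons B n - cq B w h U k

/-- the real form of the Gram matrix -/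
noncomputable def mmR (v : ℕ → A) (B H w h n : ℕ) (U : List (ℕ × ℕ × ℕ)) (T : List (ℕ × List Blk)) :
    A := (T.map fun bs => bmR v B H bs.2 (zc B H w h n U bs.1)).sum

/-- the imaginary form of the Gram matrix -/
noncomputable def mmI (v : ℕ → A) (B H w h n : ℕ) (U : List (ℕ × ℕ × ℕ)) (T : List (ℕ × List Blk)) :
    A := (T.map fun bs => bmI v B H bs.2 (zd B H w h n U bs.1)).sum

/-- the real form of the left side -/
noncomputable def TRm (t : Tab6) (C : Cert6) (v : ℕ → A) : A :=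
  ((C.P.sr * C.P.bd : ℕ) : ℤ) • ((C.eta : ℤ) • v t.one + bmR v C.wQ C.hQ t.q C.qx)
    + (C.mL : ℤ) • gsmR C.P v C.wL C.hL t.g C.G

/-- the imaginary form of the left side -/
noncomputable def TIm (t : Tab6) (C : Cert6) (v : ℕ → A) : A :=
  (C.mL : ℤ) • gsmI C.P v C.wL C.hL t.g C.G
    - ((C.P.sr * C.P.bd : ℕ) : ℤ) • bmI v C.wQ C.hQ t.q C.qy

/-- the real form of the identity -/
noncomputable def FRm (t : Tab6) (C : Cert6) (v : ℕ → A) : A :=
  (((2 * C.m1 : ℕ) : ℤ) • TRm t C v + (C.m2 : ℤ) • mmR v C.wG C.hG C.wU C.hU t.n C.U t.c)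
    + ((bmR v C.wD 0 t.d C.dg + (C.eps : ℤ) • bmR v 2 0 t.d (2 ^ t.nB - 1))
      + (2 : ℤ) • bmR v C.wR C.hR t.r C.rx)

/-- minus the imaginary form of the identity -/
noncomputable def FIm (t : Tab6) (C : Cert6) (v : ℕ → A) : A :=
  ((C.m2 : ℤ) • mmI v C.wG C.hG C.wU C.hU t.n C.U t.c - ((2 * C.m1 : ℕ) : ℤ) • TIm t C v)
    + (2 : ℤ) • bmI v C.wR C.hR t.r C.ry

end Forms

section Hom

variable {A B : Type*} [AddCommGroup A] [AddCommGroup B] (φ : A →+ B)

theorem map_tv (v : ℕ → A) (l : List (ℕ × ℕ)) : φ (tv v l) = tv (fun T => φ (v T)) l := by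
  unfold tv
  rw [map_list_sum, List.map_map]
  congr 1
  apply List.map_congr_left
  intro p _
  simp [map_zsmul]

theorem map_fm {R : Type} (F : R → A) (w h : ℕ) (rs : List R) (x : ℕ) :
    φ (fm F w h rs x) = fm (fun r => φ (F r)) w h rs x := by
  induction rs generalizing x with
  | nil => simp [fm]
  | cons r rs ih => simp only [fm, map_add, map_zsmul, ih]

theorem map_rowR (v : ℕ → A) (r : Row) : φ (rowR v r) = rowR (fun T => φ (v T)) r := by
  simp only [rowR, map_add, map_tv]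

theorem map_rowI (v : ℕ → A) (r : Row) : φ (rowI v r) = rowI (fun T => φ (v T)) r := by
  simp only [rowI, map_sub, map_tv]

theorem map_sR (v : ℕ → A) (s : Sng) : φ (sR v s) = sR (fun T => φ (v T)) s := rfl

theorem map_sI (v : ℕ → A) (s : Sng) : φ (sI v s) = sI (fun T => φ (v T)) s := by
  unfold sI
  split_ifs
  · rfl
  · rw [map_neg]
  · rw [map_zero]

theorem map_bmR (v : ℕ → A) (w h : ℕ) (bs : List Blk) (x : ℕ) :
    φ (bmR v w h bs x) = bmR (fun T => φ (v T)) w h bs x := by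
  unfold bmR
  rw [map_list_sum, List.map_map]
  congr 1
  apply List.map_congr_left
  intro b _
  simp only [Function.comp, map_fm]
  rfl

theorem map_bmI (v : ℕ → A) (w h : ℕ) (bs : List Blk) (x : ℕ) :
    φ (bmI v w h bs x) = bmI (fun T => φ (v T)) w h bs x := by
  unfold bmI
  rw [map_list_sum, List.map_map]
  congr 1
  apply List.map_congr_left
  intro b _
  simp only [Function.comp, map_fm, map_sI]
  rfl

theorem map_gmR (P : Par) (v : ℕ → A) (w h : ℕ) (g : Grp) (xy : ℕ × ℕ) :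
    φ (gmR P v w h g xy) = gmR P (fun T => φ (v T)) w h g xy := by
  unfold gmR
  simp only [map_add, map_sub, map_zsmul, map_fm, map_rowR, map_sR]
  rfl

theorem map_gmI (P : Par) (v : ℕ → A) (w h : ℕ) (g : Grp) (xy : ℕ × ℕ) :
    φ (gmI P v w h g xy) = gmI P (fun T => φ (v T)) w h g xy := by
  unfold gmI
  simp only [map_add, map_sub, map_zsmul, map_fm, map_rowI, map_sI]
  rfl

theorem map_gsmR (P : Par) (v : ℕ → A) (w h : ℕ) (gs : List Grp) (l : List (ℕ × ℕ)) :
    φ (gsmR P v w h gs l) = gsmR P (fun T => φ (v T)) w h gs l := by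
  induction gs generalizing l with
  | nil => simp [gsmR]
  | cons g gs ih =>
    rcases l with _ | ⟨xy, l⟩
    · simp [gsmR]
    · simp only [gsmR, map_add, ih, map_gmR]

theorem map_gsmI (P : Par) (v : ℕ → A) (w h : ℕ) (gs : List Grp) (l : List (ℕ × ℕ)) :
    φ (gsmI P v w h gs l) = gsmI P (fun T => φ (v T)) w h gs l := by
  induction gs generalizing l with
  | nil => simp [gsmI]
  | cons g gs ih =>
    rcases l with _ | ⟨xy, l⟩
    · simp [gsmI]
    · simp only [gsmI, map_add, ih, map_gmI]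

theorem map_mmR (v : ℕ → A) (B' H w h n : ℕ) (U : List (ℕ × ℕ × ℕ)) (T : List (ℕ × List Blk)) :
    φ (mmR v B' H w h n U T) = mmR (fun T => φ (v T)) B' H w h n U T := by
  unfold mmR
  rw [map_list_sum, List.map_map]
  congr 1
  apply List.map_congr_left
  intro b _
  simp only [Function.comp, map_bmR]

theorem map_mmI (v : ℕ → A) (B' H w h n : ℕ) (U : List (ℕ × ℕ × ℕ)) (T : List (ℕ × List Blk)) :
    φ (mmI v B' H w h n U T) = mmI (fun T => φ (v T)) B' H w h n U T := by
  unfold mmI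
  rw [map_list_sum, List.map_map]
  congr 1
  apply List.map_congr_left
  intro b _
  simp only [Function.comp, map_bmI]

theorem map_FRm (t : Tab6) (C : Cert6) (v : ℕ → A) : φ (FRm t C v) = FRm t C (fun T => φ (v T)) := by
  unfold FRm TRm
  simp only [map_add, map_zsmul, map_bmR, map_gsmR, map_mmR]

theorem map_FIm (t : Tab6) (C : Cert6) (v : ℕ → A) : φ (FIm t C v) = FIm t C (fun T => φ (v T)) := by
  unfold FIm TIm
  simp only [map_add, map_sub, map_zsmul, map_bmI, map_gsmI, map_mmI]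

end Hom

/-- the packed valuation -/
def pw (T : ℕ) : ℤ := 2 ^ T

theorem rr_eq (l : List (ℕ × ℕ)) : ((rr l : ℕ) : ℤ) = tv pw l := by
  induction l with
  | nil => rfl
  | cons p l ih =>
    have h1 : rr (p :: l) = p.2 <<< p.1 + rr l := rfl
    rw [h1, Nat.shiftLeft_eq]
    push_cast
    rw [ih]
    simp [tv, pw]

theorem ra_eq (r : Row) : ((ra r : ℕ) : ℤ) = rowR pw r := by
  have h1 : ra r = rr r.1 + (rr r.2.1 + rr r.2.2) := rfl
  rw [h1, rowR, ← rr_eq, ← rr_eq, ← rr_eq]
  push_cast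
  rfl

theorem zr_eq (w h : ℕ) (rs : List Row) (x : ℕ) : zr w h rs x = fm (rowR pw) w h rs x := by
  have h0 : zr w h rs x = (fr w rs x : ℤ) - (h * fr1 rs : ℕ) := Int.subNatNat_eq_coe
  rw [h0]
  clear h0
  induction rs generalizing x with
  | nil => simp [fr, fr1, fm]
  | cons r rs ih =>
    have h1 : fr w (r :: rs) x = (x % w) * ra r + fr w rs (x / w) := rfl
    have h2 : fr1 (r :: rs) = ra r + fr1 rs := rfl
    rw [h1, h2, fm, ← ih, ← ra_eq]
    push_cast
    simp only [smul_eq_mul]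
    ring

theorem zi_eq (w h : ℕ) (hw0 : 0 < w) (hw : w ≤ 2 * h + 1) (rs : List Row) (x : ℕ) :
    zi w h rs x = fm (rowI pw) w h rs x := by
  have h0 : zi w h rs x = (fi w (2 * h) rs x : ℤ) - (h * fi1 rs : ℕ) := Int.subNatNat_eq_coe
  rw [h0]
  clear h0
  induction rs generalizing x with
  | nil => simp [fi, fi1, fm]
  | cons r rs ih =>
    have h1 : fi w (2 * h) (r :: rs) x = ((x % w) * rr r.1 + (2 * h - x % w) * rr r.2.1)
      + fi w (2 * h) rs (x / w) := rfl
    have h2 : fi1 (r :: rs) = (rr r.1 + rr r.2.1) + fi1 rs := rfl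
    have h3 : x % w ≤ 2 * h := by
      have := Nat.mod_lt x hw0
      omega
    rw [h1, h2, fm, ← ih, rowI, ← rr_eq, ← rr_eq]
    push_cast [Nat.cast_sub h3]
    simp only [smul_eq_mul]
    ring

theorem yr_eq (w h : ℕ) (rs : List Sng) (x : ℕ) : yr w h rs x = fm (sR pw) w h rs x := by
  have h0 : yr w h rs x = (gr1 w rs x : ℤ) - (h * go1 rs : ℕ) := Int.subNatNat_eq_coe
  rw [h0]
  clear h0
  induction rs generalizing x with
  | nil => simp [gr1, go1, fm]
  | cons r rs ih =>
    have h1 : gr1 w (r :: rs) x = (x % w) <<< r.1 + gr1 w rs (x / w) := rfl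
    have h2 : go1 (r :: rs) = 1 <<< r.1 + go1 rs := rfl
    rw [h1, h2, fm, ← ih, Nat.shiftLeft_eq, Nat.shiftLeft_eq, sR, pw]
    push_cast
    simp only [smul_eq_mul]
    ring

theorem yi_eq (w h : ℕ) (hw0 : 0 < w) (hw : w ≤ 2 * h + 1) (rs : List Sng) (x : ℕ) :
    yi w h rs x = fm (sI pw) w h rs x := by
  have h0 : yi w h rs x = (gi1 w (2 * h) rs x : ℤ) - (h * gp1 rs : ℕ) := Int.subNatNat_eq_coe
  rw [h0]
  clear h0
  induction rs generalizing x with
  | nil => simp [gi1, gp1, fm]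
  | cons r rs ih =>
    obtain ⟨T, f⟩ := r
    have h3 : x % w ≤ 2 * h := by
      have := Nat.mod_lt x hw0
      omega
    rcases f with _ | _ | f
    · have h1 : gi1 w (2 * h) ((T, 0) :: rs) x = (x % w) <<< T + gi1 w (2 * h) rs (x / w) := rfl
      have h2 : gp1 ((T, 0) :: rs) = 1 <<< T + gp1 rs := rfl
      rw [h1, h2, fm, ← ih, Nat.shiftLeft_eq, Nat.shiftLeft_eq, sI, pw]
      push_cast
      simp only [smul_eq_mul]
      ring
    · have h1 : gi1 w (2 * h) ((T, 0 + 1) :: rs) x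
        = (2 * h - x % w) <<< T + gi1 w (2 * h) rs (x / w) := rfl
      have h2 : gp1 ((T, 0 + 1) :: rs) = 1 <<< T + gp1 rs := rfl
      rw [h1, h2, fm, ← ih, Nat.shiftLeft_eq, Nat.shiftLeft_eq, sI, pw]
      push_cast [Nat.cast_sub h3]
      simp only [smul_eq_mul]
      ring
    · have h1 : gi1 w (2 * h) ((T, f + 1 + 1) :: rs) x = gi1 w (2 * h) rs (x / w) := rfl
      have h2 : gp1 ((T, f + 1 + 1) :: rs) = gp1 rs := rfl
      have h4 : sI pw ((T, f + 1 + 1) : Sng) = 0 := by
        simp [sI]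
      rw [h1, h2, fm, ← ih, h4, smul_zero, zero_add]

theorem vo_pw (o : ℕ) : vo pw o = fun T => (2 ^ o : ℤ) * pw T := by
  funext T
  simp only [vo, pw, pow_add]

theorem fm_mul {R : Type} (F : R → ℤ) (z : ℤ) (w h : ℕ) (rs : List R) (x : ℕ) :
    fm (fun r => z * F r) w h rs x = z * fm F w h rs x := by
  have := map_fm (AddMonoidHom.mulLeft z) F w h rs x
  simpa using this.symm

theorem sh_eq (o : ℕ) (z : ℤ) : sh o z = 2 ^ o * z := by
  have h1 : sh o z = ((1 <<< o : ℕ) : ℤ) * z := rfl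
  rw [h1, Nat.shiftLeft_eq]
  push_cast
  ring

theorem fm_sR_vo (o w h : ℕ) (rs : List Sng) (x : ℕ) :
    fm (sR (vo pw o)) w h rs x = 2 ^ o * fm (sR pw) w h rs x := by
  rw [← fm_mul, vo_pw]
  rfl

theorem fm_sI_vo (o w h : ℕ) (rs : List Sng) (x : ℕ) :
    fm (sI (vo pw o)) w h rs x = 2 ^ o * fm (sI pw) w h rs x := by
  rw [← fm_mul, vo_pw]
  congr 1
  funext r
  unfold sI
  split_ifs <;> ring

theorem fm_rowR_vo (o w h : ℕ) (rs : List Row) (x : ℕ) :
    fm (rowR (vo pw o)) w h rs x = 2 ^ o * fm (rowR pw) w h rs x := by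
  rw [← fm_mul, vo_pw]
  congr 1
  funext r
  have := map_rowR (AddMonoidHom.mulLeft (2 ^ o : ℤ)) pw r
  simpa using this.symm

theorem fm_rowI_vo (o w h : ℕ) (rs : List Row) (x : ℕ) :
    fm (rowI (vo pw o)) w h rs x = 2 ^ o * fm (rowI pw) w h rs x := by
  rw [← fm_mul, vo_pw]
  congr 1
  funext r
  have := map_rowI (AddMonoidHom.mulLeft (2 ^ o : ℤ)) pw r
  simpa using this.symm

theorem br_eq (w h : ℕ) (bs : List Blk) (x : ℕ) : br w h bs x = bmR pw w h bs x := by
  induction bs with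
  | nil => rfl
  | cons b bs ih =>
    have h1 : br w h (b :: bs) x = sh b.1 (yr w h b.2.2 (x / w ^ b.2.1)) + br w h bs x := rfl
    rw [h1, ih, sh_eq, yr_eq]
    simp only [bmR, List.map_cons, List.sum_cons]
    rw [fm_sR_vo]

theorem bi_eq (w h : ℕ) (hw0 : 0 < w) (hw : w ≤ 2 * h + 1) (bs : List Blk) (x : ℕ) :
    bi w h bs x = bmI pw w h bs x := by
  induction bs with
  | nil => rfl
  | cons b bs ih =>
    have h1 : bi w h (b :: bs) x = sh b.1 (yi w h b.2.2 (x / w ^ b.2.1)) + bi w h bs x := rfl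
    rw [h1, ih, sh_eq, yi_eq w h hw0 hw]
    simp only [bmI, List.map_cons, List.sum_cons]
    rw [fm_sI_vo]

theorem gr_eq (P : Par) (w h : ℕ) (g : Grp) (xy : ℕ × ℕ) : gr P w h g xy = gmR P pw w h g xy := by
  have h1 : gr P w h g xy = sh g.oE (cD P * zr w h g.D xy.1 - cE P g.a * yr w h g.E xy.1
    + cF P * yr w h g.E xy.2) - sh g.oM (cM P g.w * yr w h g.M xy.1) := rfl
  rw [h1, gmR, sh_eq, sh_eq, zr_eq, yr_eq, yr_eq, yr_eq, fm_rowR_vo, fm_sR_vo, fm_sR_vo, fm_sR_vo]
  simp only [smul_eq_mul]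
  ring

theorem gi_eq (P : Par) (w h : ℕ) (hw0 : 0 < w) (hw : w ≤ 2 * h + 1) (g : Grp) (xy : ℕ × ℕ) :
    gi P w h g xy = gmI P pw w h g xy := by
  have h1 : gi P w h g xy = sh g.oE (cF P * yi w h g.E xy.1 - cD P * zi w h g.D xy.2
    + cE P g.a * yi w h g.E xy.2) + sh g.oM (cM P g.w * yi w h g.M xy.2) := rfl
  rw [h1, gmI, sh_eq, sh_eq, zi_eq w h hw0 hw, yi_eq w h hw0 hw, yi_eq w h hw0 hw,
    yi_eq w h hw0 hw, fm_rowI_vo, fm_sI_vo, fm_sI_vo, fm_sI_vo]
  simp only [smul_eq_mul]
  ring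

theorem gsr_eq (P : Par) (w h : ℕ) (gs : List Grp) (l : List (ℕ × ℕ)) :
    gsr P w h gs l = gsmR P pw w h gs l := by
  induction gs generalizing l with
  | nil => rfl
  | cons g gs ih =>
    rcases l with _ | ⟨xy, l⟩
    · rfl
    · have h1 : gsr P w h (g :: gs) (xy :: l) = gr P w h g xy + gsr P w h gs l := rfl
      rw [h1, ih, gr_eq, gsmR]

theorem gsi_eq (P : Par) (w h : ℕ) (hw0 : 0 < w) (hw : w ≤ 2 * h + 1) (gs : List Grp)
    (l : List (ℕ × ℕ)) : gsi P w h gs l = gsmI P pw w h gs l := by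
  induction gs generalizing l with
  | nil => rfl
  | cons g gs ih =>
    rcases l with _ | ⟨xy, l⟩
    · rfl
    · have h1 : gsi P w h (g :: gs) (xy :: l) = gi P w h g xy + gsi P w h gs l := rfl
      rw [h1, ih, gi_eq P w h hw0 hw, gsmI]

theorem mr_eq (B H w h n : ℕ) (U : List (ℕ × ℕ × ℕ)) (T : List (ℕ × List Blk)) :
    mr B H w h n U T = mmR pw B H w h n U T := by
  induction T with
  | nil => rfl
  | cons b T ih =>
    have h1 : mr B H w h n U (b :: T) = br B H b.2 (zc B H w h n U b.1) + mr B H w h n U T := rfl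
    rw [h1, ih, br_eq]
    simp [mmR]

theorem mi_eq (B H w h n : ℕ) (hw0 : 0 < B) (hw : B ≤ 2 * H + 1) (U : List (ℕ × ℕ × ℕ))
    (T : List (ℕ × List Blk)) : mi B H w h n U T = mmI pw B H w h n U T := by
  induction T with
  | nil => rfl
  | cons b T ih =>
    have h1 : mi B H w h n U (b :: T) = bi B H b.2 (zd B H w h n U b.1) + mi B H w h n U T := rfl
    rw [h1, ih, bi_eq B H hw0 hw]
    simp [mmI]

theorem FR_eq (t : Tab6) (C : Cert6) : FR t C = FRm t C pw := by
  have h1 : FR t C = (((2 * C.m1 : ℕ) : ℤ) * TR t C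
      + (C.m2 : ℤ) * mr C.wG C.hG C.wU C.hU t.n C.U t.c)
      + ((br C.wD 0 t.d C.dg + (C.eps : ℤ) * br 2 0 t.d (2 ^ t.nB - 1))
        + 2 * br C.wR C.hR t.r C.rx) := rfl
  have h2 : TR t C = ((C.P.sr * C.P.bd : ℕ) : ℤ) * (((C.eta <<< t.one : ℕ) : ℤ)
      + br C.wQ C.hQ t.q C.qx) + (C.mL : ℤ) * gsr C.P C.wL C.hL t.g C.G := rfl
  rw [h1, h2, FRm, TRm, mr_eq, br_eq, br_eq, br_eq, br_eq, gsr_eq, Nat.shiftLeft_eq]
  simp only [smul_eq_mul, pw]
  push_cast
  ring

theorem FI_eq (t : Tab6) (C : Cert6) (hL0 : 0 < C.wL) (hL : C.wL ≤ 2 * C.hL + 1) (hQ0 : 0 < C.wQ)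
    (hQ : C.wQ ≤ 2 * C.hQ + 1) (hG0 : 0 < C.wG) (hG : C.wG ≤ 2 * C.hG + 1) (hR0 : 0 < C.wR)
    (hR : C.wR ≤ 2 * C.hR + 1) : FI t C = FIm t C pw := by
  have h1 : FI t C = ((C.m2 : ℤ) * mi C.wG C.hG C.wU C.hU t.n C.U t.c
      - ((2 * C.m1 : ℕ) : ℤ) * TI t C) + 2 * bi C.wR C.hR t.r C.ry := rfl
  have h2 : TI t C = (C.mL : ℤ) * gsi C.P C.wL C.hL t.g C.G
      - ((C.P.sr * C.P.bd : ℕ) : ℤ) * bi C.wQ C.hQ t.q C.qy := rfl
  rw [h1, h2, FIm, TIm, mi_eq _ _ _ _ _ hG0 hG, bi_eq _ _ hQ0 hQ, bi_eq _ _ hR0 hR,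
    gsi_eq _ _ _ hL0 hL]
  simp only [smul_eq_mul]

end Pool.Agent.M16.Helper54.HR2

end

section

set_option autoImplicit false

namespace Pool.Agent.M16.Helper54.HR2

open Pool.Agent.M16.Helper12.HR2 (Par)

/-- the norm of an integral combination -/
noncomputable def NL (L : ℕ →₀ ℤ) : ℕ := ∑ j ∈ L.support, (L j).natAbs

theorem NL_eq (L : ℕ →₀ ℤ) (S : Finset ℕ) (hS : L.support ⊆ S) : NL L = ∑ j ∈ S, (L j).natAbs := by
  unfold NL
  apply Finset.sum_subset hS
  intro j _ hj
  rw [Finsupp.notMem_support_iff.1 hj]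
  rfl

theorem NL_zero : NL 0 = 0 := by simp [NL]

theorem NL_add (L L' : ℕ →₀ ℤ) : NL (L + L') ≤ NL L + NL L' := by
  classical
  rw [NL_eq L (L.support ∪ L'.support) Finset.subset_union_left,
    NL_eq L' (L.support ∪ L'.support) Finset.subset_union_right,
    NL_eq (L + L') (L.support ∪ L'.support) Finsupp.support_add, ← Finset.sum_add_distrib]
  apply Finset.sum_le_sum
  intro j _
  rw [Finsupp.add_apply]
  exact Int.natAbs_add_le _ _

theorem NL_smul (z : ℤ) (L : ℕ →₀ ℤ) : NL (z • L) = z.natAbs * NL L := by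
  rw [NL_eq (z • L) L.support Finsupp.support_smul, NL, Finset.mul_sum]
  apply Finset.sum_congr rfl
  intro j _
  rw [Finsupp.smul_apply, smul_eq_mul, Int.natAbs_mul]

theorem NL_neg (L : ℕ →₀ ℤ) : NL (-L) = NL L := by
  have := NL_smul (-1) L
  simpa using this

theorem NL_sub (L L' : ℕ →₀ ℤ) : NL (L - L') ≤ NL L + NL L' := by
  rw [sub_eq_add_neg]
  have := NL_add L (-L')
  rwa [NL_neg] at this

theorem NL_single (j : ℕ) (z : ℤ) : NL (Finsupp.single j z) = z.natAbs := by
  rw [NL_eq _ {j} Finsupp.support_single_subset, Finset.sum_singleton, Finsupp.single_eq_same]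

/-- the formal valuation -/
noncomputable def vF (K : ℕ) (T : ℕ) : ℕ →₀ ℤ := Finsupp.single (T / K) (2 ^ (T % K))

theorem NL_vF (K T : ℕ) : NL (vF K T) = 2 ^ (T % K) := by
  rw [vF, NL_single, Int.natAbs_pow]
  rfl

/-- a small form vanishes if its packed value vanishes -/
theorem eq_zero_of_packed (B : ℕ) (L : ℕ →₀ ℤ) (hN : NL L < B)
    (h0 : Finsupp.linearCombination ℤ (fun j => (B : ℤ) ^ j) L = 0) : L = 0 := by
  classical
  have key : ∀ i, L i = 0 := by
    intro i
    have h1 := Pool.Agent.M16.Helper12.HR2.vanish (B : ℤ) (L.support.toList.map (fun j => (j, L j)))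
      (fun j => if j = i then 1 else 0) (by
        rw [List.map_map]
        have h2 : (L.support.toList.map ((fun x : ℕ × ℤ => |x.2|) ∘ fun j => (j, L j))).sum
            = ∑ j ∈ L.support, |L j| := by
          rw [← Finset.sum_map_toList]
          rfl
        rw [h2]
        have h3 : ((NL L : ℕ) : ℤ) = ∑ j ∈ L.support, |L j| := by
          rw [NL]
          push_cast
          rfl
        rw [← h3]
        exact_mod_cast hN) (by
        rw [List.map_map]
        have h2 : (L.support.toList.map ((fun x : ℕ × ℤ => x.2 * (B : ℤ) ^ x.1)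
            ∘ fun j => (j, L j))).sum = ∑ j ∈ L.support, L j * (B : ℤ) ^ j := by
          rw [← Finset.sum_map_toList]
          rfl
        rw [h2, ← h0, Finsupp.linearCombination_apply, Finsupp.sum]
        rfl)
    rw [List.map_map] at h1
    have h2 : (L.support.toList.map ((fun x : ℕ × ℤ => (x.2 : ℂ) * (if x.1 = i then 1 else 0))
        ∘ fun j => (j, L j))).sum = ∑ j ∈ L.support, (L j : ℂ) * (if j = i then 1 else 0) := by
      rw [← Finset.sum_map_toList]
      rfl
    rw [h2] at h1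
    simp only [mul_ite, mul_one, mul_zero, Finset.sum_ite_eq', Finsupp.mem_support_iff, ne_eq,
      ite_not] at h1
    by_cases h : L i = 0
    · exact h
    · rw [if_neg h] at h1
      exact_mod_cast h1
  ext i
  rw [key i]
  rfl

theorem NL_tv (v : ℕ → ℕ →₀ ℤ) (l : List (ℕ × ℕ)) :
    NL (tv v l) ≤ (l.map fun p => p.2 * NL (v p.1)).sum := by
  induction l with
  | nil => simp [tv, NL_zero]
  | cons p l ih =>
    have h1 : tv v (p :: l) = (p.2 : ℤ) • v p.1 + tv v l := by simp [tv]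
    rw [h1]
    simp only [List.map_cons, List.sum_cons]
    refine (NL_add _ _).trans (Nat.add_le_add ?_ ih)
    rw [NL_smul]
    simp

theorem NL_fm {R : Type} (F : R → ℕ →₀ ℤ) (c : R → ℕ) (w h : ℕ) (hw : h < w) (rs : List R) (x : ℕ)
    (hc : ∀ r ∈ rs, NL (F r) ≤ c r) : NL (fm F w h rs x) ≤ (w - 1) * (rs.map c).sum := by
  induction rs generalizing x with
  | nil => simp [fm, NL_zero]
  | cons r rs ih =>
    simp only [fm, List.map_cons, List.sum_cons, mul_add]
    refine (NL_add _ _).trans (Nat.add_le_add ?_ (ih _ (fun r' h' => hc r' (by simp [h']))))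
    rw [NL_smul]
    refine Nat.mul_le_mul ?_ (hc r (by simp))
    have := Nat.mod_lt x (show 0 < w by omega)
    omega

/-- the multiplicity of a shift -/
def eK (K T : ℕ) : ℕ := 2 ^ (T % K)

/-- the sum of the multiplicities of blocks -/
def cB (K : ℕ) (bs : List Blk) : ℕ := (bs.map fun b => (b.2.2.map fun s => eK K (b.1 + s.1)).sum).sum

/-- the sum of the multiplicities of a list of terms -/
def cT (K o : ℕ) (l : List (ℕ × ℕ)) : ℕ := (l.map fun p => p.2 * eK K (o + p.1)).sum

/-- the sum of the multiplicities of a row -/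
def cRow (K o : ℕ) (r : Row) : ℕ := cT K o r.1 + (cT K o r.2.1 + cT K o r.2.2)

/-- the sum of the multiplicities of rows -/
def cDs (K o : ℕ) (rs : List Row) : ℕ := (rs.map (cRow K o)).sum

/-- the sum of the multiplicities of rows with one term -/
def cSs (K o : ℕ) (rs : List Sng) : ℕ := (rs.map fun s => eK K (o + s.1)).sum

theorem NL_sR (K o : ℕ) (s : Sng) : NL (sR (vo (vF K) o) s) = eK K (o + s.1) := NL_vF _ _

theorem NL_sI (K o : ℕ) (s : Sng) : NL (sI (vo (vF K) o) s) ≤ eK K (o + s.1) := by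
  unfold sI
  split_ifs
  · exact (NL_vF _ _).le
  · rw [NL_neg]
    exact (NL_vF _ _).le
  · rw [NL_zero]
    exact Nat.zero_le _

theorem NL_tvo (K o : ℕ) (l : List (ℕ × ℕ)) : NL (tv (vo (vF K) o) l) ≤ cT K o l := by
  refine (NL_tv _ _).trans (le_of_eq ?_)
  unfold cT
  congr 1
  apply List.map_congr_left
  intro p _
  rw [vo, NL_vF]
  rfl

theorem NL_rowR (K o : ℕ) (r : Row) : NL (rowR (vo (vF K) o) r) ≤ cRow K o r := by
  unfold rowR cRow
  refine (NL_add _ _).trans (Nat.add_le_add (NL_tvo _ _ _) ?_)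
  exact (NL_add _ _).trans (Nat.add_le_add (NL_tvo _ _ _) (NL_tvo _ _ _))

theorem NL_rowI (K o : ℕ) (r : Row) : NL (rowI (vo (vF K) o) r) ≤ cRow K o r := by
  unfold rowI cRow
  refine (NL_sub _ _).trans (Nat.add_le_add (NL_tvo _ _ _) ?_)
  exact (NL_tvo _ _ _).trans (by omega)

theorem NL_bmR (K w h : ℕ) (hw : h < w) (bs : List Blk) (x : ℕ) :
    NL (bmR (vF K) w h bs x) ≤ (w - 1) * cB K bs := by
  induction bs with
  | nil => simp [bmR, NL_zero]
  | cons b bs ih =>
    have h1 : bmR (vF K) w h (b :: bs) x = fm (sR (vo (vF K) b.1)) w h b.2.2 (x / w ^ b.2.1)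
      + bmR (vF K) w h bs x := by simp [bmR]
    have h2 : cB K (b :: bs) = (b.2.2.map fun s => eK K (b.1 + s.1)).sum + cB K bs := by simp [cB]
    rw [h1, h2, mul_add]
    refine (NL_add _ _).trans (Nat.add_le_add ?_ ih)
    exact NL_fm _ _ w h hw _ _ (fun s _ => (NL_sR K b.1 s).le)

theorem NL_bmI (K w h : ℕ) (hw : h < w) (bs : List Blk) (x : ℕ) :
    NL (bmI (vF K) w h bs x) ≤ (w - 1) * cB K bs := by
  induction bs with
  | nil => simp [bmI, NL_zero]
  | cons b bs ih =>
    have h1 : bmI (vF K) w h (b :: bs) x = fm (sI (vo (vF K) b.1)) w h b.2.2 (x / w ^ b.2.1)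
      + bmI (vF K) w h bs x := by simp [bmI]
    have h2 : cB K (b :: bs) = (b.2.2.map fun s => eK K (b.1 + s.1)).sum + cB K bs := by simp [cB]
    rw [h1, h2, mul_add]
    refine (NL_add _ _).trans (Nat.add_le_add ?_ ih)
    exact NL_fm _ _ w h hw _ _ (fun s _ => NL_sI K b.1 s)

theorem cD_abs (P : Par) : (cD P).natAbs = P.bd * P.sr := Int.natAbs_natCast _

theorem cE_abs (P : Par) (a : ℕ) (ha : a ≤ 12) :
    (cE P a).natAbs ≤ P.bd * P.sr * 12 + 2 * P.bd * P.p.natAbs := by
  have h1 : cE P a = ((P.bd * P.sr * a : ℕ) : ℤ) + ((2 * P.bd : ℕ) : ℤ) * P.p := rfl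
  rw [h1]
  refine (Int.natAbs_add_le _ _).trans (Nat.add_le_add ?_ ?_)
  · rw [Int.natAbs_natCast]
    exact Nat.mul_le_mul_left _ ha
  · rw [Int.natAbs_mul, Int.natAbs_natCast]

theorem cF_abs (P : Par) : (cF P).natAbs = 2 * P.bd * P.q.natAbs := by
  have h1 : cF P = ((2 * P.bd : ℕ) : ℤ) * P.q := rfl
  rw [h1, Int.natAbs_mul, Int.natAbs_natCast]

theorem cM_abs (P : Par) (w : ℕ) (hw : w ≤ 12) : (cM P w).natAbs ≤ P.sr * (P.bn + P.bd * 12) := by
  have h1 : cM P w = ((P.sr * (P.bn + P.bd * w) : ℕ) : ℤ) := rfl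
  rw [h1, Int.natAbs_natCast]
  exact Nat.mul_le_mul_left _ (Nat.add_le_add_left (Nat.mul_le_mul_left _ hw) _)

/-- the number of rows of a group (with multiplicities) -/
def cG (K : ℕ) (g : Grp) : ℕ := max (cSs K g.oE g.E) (cSs K g.oM g.M)

/-- the bound of the norm of the groups -/
def bG (P : Par) (d m : ℕ) : ℕ :=
  P.bd * P.sr * d + m * (P.bd * P.sr * 12 + (2 * P.bd * (P.p.natAbs + P.q.natAbs)
    + P.sr * (P.bn + P.bd * 12)))

theorem bG_add (P : Par) (d m d' m' : ℕ) : bG P (d + d') (m + m') = bG P d m + bG P d' m' := by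
  unfold bG
  ring

theorem grp_arith (P : Par) (w d e m c : ℕ) (a1 a2 a3 a4 : ℕ) (h1 : a1 = P.bd * P.sr)
    (h2 : a2 ≤ P.bd * P.sr * 12 + 2 * P.bd * P.p.natAbs) (h3 : a3 = 2 * P.bd * P.q.natAbs)
    (h4 : a4 ≤ P.sr * (P.bn + P.bd * 12)) (he : e ≤ c) (hm : m ≤ c) :
    a1 * (w * d) + a2 * (w * e) + a3 * (w * e) + a4 * (w * m) ≤ w * bG P d c := by
  have e1 : a2 * (w * e) ≤ (P.bd * P.sr * 12 + 2 * P.bd * P.p.natAbs) * (w * c) :=
    Nat.mul_le_mul h2 (Nat.mul_le_mul_left _ he)
  have e2 : a3 * (w * e) ≤ (2 * P.bd * P.q.natAbs) * (w * c) :=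
    Nat.mul_le_mul h3.le (Nat.mul_le_mul_left _ he)
  have e3 : a4 * (w * m) ≤ (P.sr * (P.bn + P.bd * 12)) * (w * c) :=
    Nat.mul_le_mul h4 (Nat.mul_le_mul_left _ hm)
  calc _ ≤ a1 * (w * d) + (P.bd * P.sr * 12 + 2 * P.bd * P.p.natAbs) * (w * c)
        + (2 * P.bd * P.q.natAbs) * (w * c) + (P.sr * (P.bn + P.bd * 12)) * (w * c) := by
        omega
    _ = _ := by
        rw [h1]
        unfold bG
        ring

theorem NL_gmR (P : Par) (K w h : ℕ) (hw : h < w) (g : Grp) (ha : g.a ≤ 12) (hgw : g.w ≤ 12)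
    (xy : ℕ × ℕ) :
    NL (gmR P (vF K) w h g xy) ≤ (w - 1) * bG P (cDs K g.oE g.D) (cG K g) := by
  unfold gmR
  have h1 := NL_fm (rowR (vo (vF K) g.oE)) (cRow K g.oE) w h hw g.D xy.1
    (fun r _ => NL_rowR K g.oE r)
  have h2 := NL_fm (sR (vo (vF K) g.oE)) (fun s => eK K (g.oE + s.1)) w h hw g.E xy.1
    (fun s _ => (NL_sR K g.oE s).le)
  have h3 := NL_fm (sR (vo (vF K) g.oE)) (fun s => eK K (g.oE + s.1)) w h hw g.E xy.2
    (fun s _ => (NL_sR K g.oE s).le)
  have h4 := NL_fm (sR (vo (vF K) g.oM)) (fun s => eK K (g.oM + s.1)) w h hw g.M xy.1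
    (fun s _ => (NL_sR K g.oM s).le)
  refine (NL_sub _ _).trans ?_
  refine (Nat.add_le_add_right (NL_add _ _) _).trans ?_
  refine (Nat.add_le_add_right (Nat.add_le_add_right (NL_sub _ _) _) _).trans ?_
  rw [NL_smul, NL_smul, NL_smul, NL_smul]
  refine le_trans ?_ (grp_arith P (w - 1) (cDs K g.oE g.D) (cSs K g.oE g.E) (cSs K g.oM g.M)
    (cG K g) _ _ _ _ (cD_abs P) (cE_abs P g.a ha) (cF_abs P) (cM_abs P g.w hgw)
    (le_max_left _ _) (le_max_right _ _))
  exact Nat.add_le_add (Nat.add_le_add (Nat.add_le_add (Nat.mul_le_mul_left _ h1)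
    (Nat.mul_le_mul_left _ h2)) (Nat.mul_le_mul_left _ h3)) (Nat.mul_le_mul_left _ h4)

theorem NL_gmI (P : Par) (K w h : ℕ) (hw : h < w) (g : Grp) (ha : g.a ≤ 12) (hgw : g.w ≤ 12)
    (xy : ℕ × ℕ) :
    NL (gmI P (vF K) w h g xy) ≤ (w - 1) * bG P (cDs K g.oE g.D) (cG K g) := by
  unfold gmI
  have h1 := NL_fm (rowI (vo (vF K) g.oE)) (cRow K g.oE) w h hw g.D xy.2
    (fun r _ => NL_rowI K g.oE r)
  have h2 := NL_fm (sI (vo (vF K) g.oE)) (fun s => eK K (g.oE + s.1)) w h hw g.E xy.1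
    (fun s _ => NL_sI K g.oE s)
  have h3 := NL_fm (sI (vo (vF K) g.oE)) (fun s => eK K (g.oE + s.1)) w h hw g.E xy.2
    (fun s _ => NL_sI K g.oE s)
  have h4 := NL_fm (sI (vo (vF K) g.oM)) (fun s => eK K (g.oM + s.1)) w h hw g.M xy.2
    (fun s _ => NL_sI K g.oM s)
  refine (NL_add _ _).trans ?_
  refine (Nat.add_le_add_right (NL_add _ _) _).trans ?_
  refine (Nat.add_le_add_right (Nat.add_le_add_right (NL_sub _ _) _) _).trans ?_
  rw [NL_smul, NL_smul, NL_smul, NL_smul]
  refine le_trans ?_ (grp_arith P (w - 1) (cDs K g.oE g.D) (cSs K g.oE g.E) (cSs K g.oM g.M)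
    (cG K g) _ _ _ _ (cD_abs P) (cE_abs P g.a ha) (cF_abs P) (cM_abs P g.w hgw)
    (le_max_left _ _) (le_max_right _ _))
  have e1 := Nat.mul_le_mul_left (cF P).natAbs h2
  have e2 := Nat.mul_le_mul_left (cD P).natAbs h1
  have e3 := Nat.mul_le_mul_left (cE P g.a).natAbs h3
  have e4 := Nat.mul_le_mul_left (cM P g.w).natAbs h4
  calc _ ≤ _ := Nat.add_le_add (Nat.add_le_add (Nat.add_le_add e1 e2) e3) e4
    _ = _ := by
      simp only [cDs, cSs]
      ring

theorem NL_gsmR (P : Par) (K w h : ℕ) (hw : h < w) (gs : List Grp)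
    (hg : ∀ g ∈ gs, g.a ≤ 12 ∧ g.w ≤ 12) (l : List (ℕ × ℕ)) :
    NL (gsmR P (vF K) w h gs l)
      ≤ (w - 1) * bG P (gs.map fun g => cDs K g.oE g.D).sum (gs.map (cG K)).sum := by
  induction gs generalizing l with
  | nil => simp [gsmR, NL_zero]
  | cons g gs ih =>
    rcases l with _ | ⟨xy, l⟩
    · simp [gsmR, NL_zero]
    · simp only [gsmR, List.map_cons, List.sum_cons]
      rw [bG_add, mul_add]
      refine (NL_add _ _).trans (Nat.add_le_add ?_ (ih (fun g' h' => hg g' (by simp [h'])) l))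
      exact NL_gmR P K w h hw g (hg g (by simp)).1 (hg g (by simp)).2 xy

theorem NL_gsmI (P : Par) (K w h : ℕ) (hw : h < w) (gs : List Grp)
    (hg : ∀ g ∈ gs, g.a ≤ 12 ∧ g.w ≤ 12) (l : List (ℕ × ℕ)) :
    NL (gsmI P (vF K) w h gs l)
      ≤ (w - 1) * bG P (gs.map fun g => cDs K g.oE g.D).sum (gs.map (cG K)).sum := by
  induction gs generalizing l with
  | nil => simp [gsmI, NL_zero]
  | cons g gs ih =>
    rcases l with _ | ⟨xy, l⟩
    · simp [gsmI, NL_zero]
    · simp only [gsmI, List.map_cons, List.sum_cons]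
      rw [bG_add, mul_add]
      refine (NL_add _ _).trans (Nat.add_le_add ?_ (ih (fun g' h' => hg g' (by simp [h'])) l))
      exact NL_gmI P K w h hw g (hg g (by simp)).1 (hg g (by simp)).2 xy

theorem NL_mmR (K B H w h n : ℕ) (hB : H < B) (U : List (ℕ × ℕ × ℕ)) (T : List (ℕ × List Blk)) :
    NL (mmR (vF K) B H w h n U T) ≤ (B - 1) * (T.map fun b => cB K b.2).sum := by
  induction T with
  | nil => simp [mmR, NL_zero]
  | cons b T ih =>
    have h1 : mmR (vF K) B H w h n U (b :: T) = bmR (vF K) B H b.2 (zc B H w h n U b.1)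
      + mmR (vF K) B H w h n U T := by simp [mmR]
    rw [h1]
    simp only [List.map_cons, List.sum_cons, mul_add]
    exact (NL_add _ _).trans (Nat.add_le_add (NL_bmR K B H hB _ _) ih)

theorem NL_mmI (K B H w h n : ℕ) (hB : H < B) (U : List (ℕ × ℕ × ℕ)) (T : List (ℕ × List Blk)) :
    NL (mmI (vF K) B H w h n U T) ≤ (B - 1) * (T.map fun b => cB K b.2).sum := by
  induction T with
  | nil => simp [mmI, NL_zero]
  | cons b T ih =>
    have h1 : mmI (vF K) B H w h n U (b :: T) = bmI (vF K) B H b.2 (zd B H w h n U b.1)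
      + mmI (vF K) B H w h n U T := by simp [mmI]
    rw [h1]
    simp only [List.map_cons, List.sum_cons, mul_add]
    exact (NL_add _ _).trans (Nat.add_le_add (NL_bmI K B H hB _ _) ih)

/-- the numerical data of the tables are correct -/
structure NumOK (t : Tab6) (K : ℕ) : Prop where
  one : t.one % K = 0
  q : cB K t.q ≤ t.nQ
  ga : ∀ g ∈ t.g, g.a ≤ 12 ∧ g.w ≤ 12
  D : (t.g.map fun g => cDs K g.oE g.D).sum ≤ t.nD
  M : (t.g.map (cG K)).sum ≤ t.nM
  c : (t.c.map fun b => cB K b.2).sum ≤ t.nC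
  d : cB K t.d ≤ t.nB
  r : cB K t.r ≤ t.nR

theorem bG_mono (P : Par) {d d' m m' : ℕ} (hd : d ≤ d') (hm : m ≤ m') : bG P d m ≤ bG P d' m' := by
  unfold bG
  exact Nat.add_le_add (Nat.mul_le_mul_left _ hd) (Nat.mul_le_mul_right _ hm)

theorem NL_FRm {t : Tab6} {K : ℕ} (ht : NumOK t K) (C : Cert6) (hL : C.hL < C.wL)
    (hQ : C.hQ < C.wQ) (hG : C.hG < C.wG) (hD : 0 < C.wD) (hR : C.hR < C.wR) :
    NL (FRm t C (vF K)) ≤ nF t C := by
  have a1 := (NL_bmR K C.wQ C.hQ hQ t.q C.qx).trans (Nat.mul_le_mul (Nat.sub_le _ _) ht.q)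
  have a2 := (NL_gsmR C.P K C.wL C.hL hL t.g ht.ga C.G).trans
    (Nat.mul_le_mul (Nat.sub_le _ _) (bG_mono C.P ht.D ht.M))
  have a3 := (NL_mmR K C.wG C.hG C.wU C.hU t.n hG C.U t.c).trans
    (Nat.mul_le_mul (Nat.sub_le _ _) ht.c)
  have a4 := (NL_bmR K C.wD 0 hD t.d C.dg).trans (Nat.mul_le_mul (Nat.sub_le _ _) ht.d)
  have a5 := (NL_bmR K 2 0 (by norm_num) t.d (2 ^ t.nB - 1)).trans
    (Nat.mul_le_mul (le_refl (2 - 1)) ht.d)
  have a6 := (NL_bmR K C.wR C.hR hR t.r C.rx).trans (Nat.mul_le_mul (Nat.sub_le _ _) ht.r)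
  have a7 : NL (vF K t.one) = 1 := by rw [NL_vF, ht.one, pow_zero]
  have b1 : NL (TRm t C (vF K)) ≤ C.P.sr * C.P.bd * (C.eta + C.wQ * t.nQ)
      + C.mL * (C.wL * bG C.P t.nD t.nM) := by
    unfold TRm
    refine (NL_add _ _).trans (Nat.add_le_add ?_ ?_)
    · rw [NL_smul, Int.natAbs_natCast]
      refine Nat.mul_le_mul_left _ ((NL_add _ _).trans (Nat.add_le_add ?_ a1))
      rw [NL_smul, Int.natAbs_natCast, a7, mul_one]
    · rw [NL_smul, Int.natAbs_natCast]
      exact Nat.mul_le_mul_left _ a2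
  have e : nF t C = (2 * C.m1 * (C.P.sr * C.P.bd * (C.eta + C.wQ * t.nQ)
      + C.mL * (C.wL * bG C.P t.nD t.nM)) + C.m2 * (C.wG * t.nC))
      + ((C.wD + C.eps) * t.nB + 2 * (C.wR * t.nR)) := rfl
  rw [e]
  unfold FRm
  refine (NL_add _ _).trans (Nat.add_le_add ((NL_add _ _).trans (Nat.add_le_add ?_ ?_))
    ((NL_add _ _).trans (Nat.add_le_add ?_ ?_)))
  · rw [NL_smul, Int.natAbs_natCast]
    exact Nat.mul_le_mul_left _ b1
  · rw [NL_smul, Int.natAbs_natCast]
    exact Nat.mul_le_mul_left _ a3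
  · rw [add_mul]
    refine (NL_add _ _).trans (Nat.add_le_add a4 ?_)
    rw [NL_smul, Int.natAbs_natCast]
    exact Nat.mul_le_mul_left _ (a5.trans (by omega))
  · rw [NL_smul]
    exact Nat.mul_le_mul_left _ a6

theorem NL_FIm {t : Tab6} {K : ℕ} (ht : NumOK t K) (C : Cert6) (hL : C.hL < C.wL)
    (hQ : C.hQ < C.wQ) (hG : C.hG < C.wG) (hR : C.hR < C.wR) :
    NL (FIm t C (vF K)) ≤ nF t C := by
  have a1 := (NL_bmI K C.wQ C.hQ hQ t.q C.qy).trans (Nat.mul_le_mul (Nat.sub_le _ _) ht.q)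
  have a2 := (NL_gsmI C.P K C.wL C.hL hL t.g ht.ga C.G).trans
    (Nat.mul_le_mul (Nat.sub_le _ _) (bG_mono C.P ht.D ht.M))
  have a3 := (NL_mmI K C.wG C.hG C.wU C.hU t.n hG C.U t.c).trans
    (Nat.mul_le_mul (Nat.sub_le _ _) ht.c)
  have a6 := (NL_bmI K C.wR C.hR hR t.r C.ry).trans (Nat.mul_le_mul (Nat.sub_le _ _) ht.r)
  have b1 : NL (TIm t C (vF K)) ≤ C.P.sr * C.P.bd * (C.eta + C.wQ * t.nQ)
      + C.mL * (C.wL * bG C.P t.nD t.nM) := by
    unfold TIm
    refine (NL_sub _ _).trans ?_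
    rw [NL_smul, NL_smul, Int.natAbs_natCast, Int.natAbs_natCast]
    have c1 := Nat.mul_le_mul_left C.mL a2
    have c2 := Nat.mul_le_mul_left (C.P.sr * C.P.bd) (a1.trans (Nat.le_add_left _ C.eta))
    omega
  have e : nF t C = (2 * C.m1 * (C.P.sr * C.P.bd * (C.eta + C.wQ * t.nQ)
      + C.mL * (C.wL * bG C.P t.nD t.nM)) + C.m2 * (C.wG * t.nC))
      + ((C.wD + C.eps) * t.nB + 2 * (C.wR * t.nR)) := rfl
  rw [e]
  unfold FIm
  have d1 := NL_add ((C.m2 : ℤ) • mmI (vF K) C.wG C.hG C.wU C.hU t.n C.U t.c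
    - ((2 * C.m1 : ℕ) : ℤ) • TIm t C (vF K)) ((2 : ℤ) • bmI (vF K) C.wR C.hR t.r C.ry)
  have d2 := NL_sub ((C.m2 : ℤ) • mmI (vF K) C.wG C.hG C.wU C.hU t.n C.U t.c)
    (((2 * C.m1 : ℕ) : ℤ) • TIm t C (vF K))
  rw [NL_smul, NL_smul, Int.natAbs_natCast, Int.natAbs_natCast] at d2
  have d3 : NL ((2 : ℤ) • bmI (vF K) C.wR C.hR t.r C.ry) ≤ 2 * (C.wR * t.nR) := by
    rw [NL_smul]
    exact Nat.mul_le_mul_left _ a6
  have d4 := Nat.mul_le_mul_left C.m2 a3
  have d5 := Nat.mul_le_mul_left (2 * C.m1) b1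
  omega

/-- the packed homomorphism -/
noncomputable def lc {A : Type*} [AddCommGroup A] (V : ℕ → A) : (ℕ →₀ ℤ) →+ A :=
  (Finsupp.linearCombination ℤ V).toAddMonoidHom

theorem lc_vF {A : Type*} [AddCommGroup A] (V : ℕ → A) (K T : ℕ) :
    lc V (vF K T) = (2 ^ (T % K) : ℤ) • V (T / K) := by
  simp [lc, vF, Finsupp.linearCombination_single]

/-- the semantic valuation -/
def vs {A : Type*} [AddCommGroup A] (K : ℕ) (V : ℕ → A) (T : ℕ) : A := (2 ^ (T % K) : ℤ) • V (T / K)

theorem vs_pw (K : ℕ) : vs K (fun j => ((2 ^ K : ℕ) : ℤ) ^ j) = pw := by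
  funext T
  simp only [vs, pw, smul_eq_mul]
  push_cast
  rw [← pow_mul, ← pow_add]
  congr 1
  have := Nat.div_add_mod T K
  omega

theorem FRm_zero {t : Tab6} {K : ℕ} (ht : NumOK t K) (C : Cert6) (hL : C.hL < C.wL)
    (hQ : C.hQ < C.wQ) (hG : C.hG < C.wG) (hD : 0 < C.wD) (hR : C.hR < C.wR)
    (hn : nF t C < 2 ^ K) (h0 : FRm t C pw = 0) {A : Type*} [AddCommGroup A] (V : ℕ → A) :
    FRm t C (vs K V) = 0 := by
  have h1 : ∀ {A : Type} [AddCommGroup A] (V : ℕ → A),
      lc V (FRm t C (vF K)) = FRm t C (vs K V) := by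
    intro A _ V
    rw [map_FRm]
    simp only [lc_vF]
    rfl
  have h2 := h1 (fun j => ((2 ^ K : ℕ) : ℤ) ^ j)
  rw [vs_pw, h0] at h2
  have h3 := eq_zero_of_packed (2 ^ K) (FRm t C (vF K))
    (lt_of_le_of_lt (NL_FRm ht C hL hQ hG hD hR) hn) h2
  have h4 : lc V (FRm t C (vF K)) = FRm t C (vs K V) := by
    rw [map_FRm]
    simp only [lc_vF]
    rfl
  rw [← h4, h3, map_zero]

theorem FIm_zero {t : Tab6} {K : ℕ} (ht : NumOK t K) (C : Cert6) (hL : C.hL < C.wL)
    (hQ : C.hQ < C.wQ) (hG : C.hG < C.wG) (hR : C.hR < C.wR)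
    (hn : nF t C < 2 ^ K) (h0 : FIm t C pw = 0) {A : Type*} [AddCommGroup A] (V : ℕ → A) :
    FIm t C (vs K V) = 0 := by
  have h2 : lc (fun j => ((2 ^ K : ℕ) : ℤ) ^ j) (FIm t C (vF K))
      = FIm t C (vs K (fun j => ((2 ^ K : ℕ) : ℤ) ^ j)) := by
    rw [map_FIm]
    simp only [lc_vF]
    rfl
  rw [vs_pw, h0] at h2
  have h3 := eq_zero_of_packed (2 ^ K) (FIm t C (vF K))
    (lt_of_le_of_lt (NL_FIm ht C hL hQ hG hR) hn) h2
  have h4 : lc V (FIm t C (vF K)) = FIm t C (vs K V) := by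
    rw [map_FIm]
    simp only [lc_vF]
    rfl
  rw [← h4, h3, map_zero]

end Pool.Agent.M16.Helper54.HR2

end

section

set_option autoImplicit false

open scoped ComplexConjugate

namespace Pool.Agent.M16.Helper54.HR2

open Pool.Agent.M16.Helper12.HR2 (Par Mo GZ gv Pol mv pv wl rel Dvl dvl upl prd)

/-- a digit to the base 16 -/
def dig (κ k : ℕ) : ℕ := κ / 16 ^ k % 16

/-- the value of a code -/
noncomputable def mc (c : ℕ → ℂ) (κ : ℕ) : ℂ :=
  (∏ k ∈ Finset.range 6, c k ^ dig κ k) * ∏ k ∈ Finset.range 6, conj (c k) ^ dig κ (6 + k)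

/-- the code of the conjugate monomial -/
def sw (κ : ℕ) : ℕ := κ / 16777216 % 16777216 + 16777216 * (κ % 16777216)

/-- the code of a monomial -/
def cod (m : Mo) : ℕ := (m.1.map (fun a => 16 ^ a)).sum + (m.2.map (fun b => 16 ^ (6 + b))).sum

theorem dig_aux (X H k : ℕ) (hk : k < 6) : (X + 16777216 * H) / 16 ^ k % 16 = X / 16 ^ k % 16 := by
  interval_cases k <;> norm_num <;> omega

theorem dig_sw_lo (κ k : ℕ) (hk : k < 6) : dig (sw κ) k = dig κ (6 + k) := by
  have h1 := dig_aux (κ / 16777216 % 16777216) (κ % 16777216) k hk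
  have h2 := dig_aux (κ / 16777216 % 16777216) (κ / 16777216 / 16777216) k hk
  have h3 : κ / 16777216 % 16777216 + 16777216 * (κ / 16777216 / 16777216) = κ / 16777216 :=
    Nat.mod_add_div _ _
  have h4 : κ / 16 ^ (6 + k) = κ / 16777216 / 16 ^ k := by
    rw [pow_add, ← Nat.div_div_eq_div_mul]
    norm_num
  unfold dig sw
  rw [h1, h4, ← h2, h3]

theorem dig_sw_hi (κ k : ℕ) (hk : k < 6) : dig (sw κ) (6 + k) = dig κ k := by
  have h1 := dig_aux (κ % 16777216) (κ / 16777216) k hk
  have h3 : κ % 16777216 + 16777216 * (κ / 16777216) = κ := Nat.mod_add_div _ _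
  have h4 : ∀ z : ℕ, z / 16 ^ (6 + k) = z / 16777216 / 16 ^ k := by
    intro z
    rw [pow_add, ← Nat.div_div_eq_div_mul]
    norm_num
  have h5 : (κ / 16777216 % 16777216 + 16777216 * (κ % 16777216)) / 16777216
      = κ % 16777216 := by omega
  unfold dig sw
  rw [h4, h5, ← h1, h3]

theorem mc_sw (c : ℕ → ℂ) (κ : ℕ) : mc c (sw κ) = conj (mc c κ) := by
  unfold mc
  rw [map_mul, map_prod, map_prod, mul_comm]
  congr 1
  · apply Finset.prod_congr rfl
    intro k hk
    rw [dig_sw_hi κ k (Finset.mem_range.1 hk), map_pow]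
  · apply Finset.prod_congr rfl
    intro k hk
    rw [dig_sw_lo κ k (Finset.mem_range.1 hk), map_pow, Complex.conj_conj]

theorem dig_sum (n : ℕ) : ∀ (e : ℕ → ℕ) (_ : ∀ k < n, e k < 16) (j : ℕ), j < n →
    dig (∑ k ∈ Finset.range n, e k * 16 ^ k) j = e j := by
  induction n with
  | zero => intro e _ j hj; omega
  | succ n ih =>
    intro e he j hj
    have h1 : ∑ k ∈ Finset.range (n + 1), e k * 16 ^ k
        = e 0 + 16 * ∑ k ∈ Finset.range n, e (k + 1) * 16 ^ k := by
      rw [Finset.sum_range_succ', Finset.mul_sum, add_comm]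
      congr 1
      · simp
      · apply Finset.sum_congr rfl
        intro k _
        ring
    rw [h1]
    have h0 := he 0 (by omega)
    rcases j with _ | j
    · unfold dig
      simp only [pow_zero, Nat.div_one]
      omega
    · have h2 := ih (fun k => e (k + 1)) (fun k hk => he (k + 1) (by omega)) j (by omega)
      unfold dig at h2 ⊢
      rw [pow_succ', ← Nat.div_div_eq_div_mul]
      have h3 : (e 0 + 16 * ∑ k ∈ Finset.range n, e (k + 1) * 16 ^ k) / 16
          = ∑ k ∈ Finset.range n, e (k + 1) * 16 ^ k := by omega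
      rw [h3]
      exact h2

/-- validity of a monomial -/
def vmo (m : Mo) : Bool :=
  m.1.all (fun i => Nat.ble (i + 1) 6) && m.2.all (fun i => Nat.ble (i + 1) 6)
    && Nat.ble m.1.length 15 && Nat.ble m.2.length 15

theorem vmo_iff {m : Mo} (h : vmo m = true) : (∀ i ∈ m.1, i < 6) ∧ (∀ i ∈ m.2, i < 6) ∧
    m.1.length ≤ 15 ∧ m.2.length ≤ 15 := by
  unfold vmo at h
  simp only [Bool.and_eq_true, List.all_eq_true, Nat.ble_eq] at h
  obtain ⟨⟨⟨h1, h2⟩, h3⟩, h4⟩ := h
  exact ⟨fun i hi => h1 i hi, fun i hi => h2 i hi, h3, h4⟩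

theorem cod_eq {m : Mo} (h : vmo m = true) : cod m
    = ∑ k ∈ Finset.range 12, (if k < 6 then m.1.count k else m.2.count (k - 6)) * 16 ^ k := by
  obtain ⟨h1, h2, -, -⟩ := vmo_iff h
  unfold cod
  rw [Pool.Agent.M16.Helper12.HR2.sum_count 6 m.1 h1 (fun a => 16 ^ a),
    Pool.Agent.M16.Helper12.HR2.sum_count 6 m.2 h2 (fun b => 16 ^ (6 + b))]
  simp only [Finset.sum_range_succ, Finset.sum_range_zero]
  norm_num
  ring

theorem mc_cod (c : ℕ → ℂ) {m : Mo} (h : vmo m = true) :
    mc c (cod m) = mv c (fun k => conj (c k)) m := by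
  obtain ⟨h1, h2, h3, h4⟩ := vmo_iff h
  have hd : ∀ j < 12, dig (cod m) j = if j < 6 then m.1.count j else m.2.count (j - 6) := by
    intro j hj
    rw [cod_eq h]
    refine dig_sum 12 (fun k => if k < 6 then m.1.count k else m.2.count (k - 6)) ?_ j hj
    intro k _
    split_ifs
    · exact lt_of_le_of_lt List.count_le_length (by omega)
    · exact lt_of_le_of_lt List.count_le_length (by omega)
  unfold mc mv
  rw [Pool.Agent.M16.Helper12.HR2.prod_count 6 m.1 h1, Pool.Agent.M16.Helper12.HR2.prod_count 6 m.2 h2]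
  congr 1
  · apply Finset.prod_congr rfl
    intro k hk
    have := Finset.mem_range.1 hk
    rw [hd k (by omega), if_pos this]
  · apply Finset.prod_congr rfl
    intro k hk
    have := Finset.mem_range.1 hk
    rw [hd (6 + k) (by omega), if_neg (by omega)]
    congr 2
    omega

/-- a form with complex digits -/
noncomputable def cf {R : Type} (F : R → ℂ) (w h : ℕ) : List R → ℕ → ℕ → ℂ
  | [], _, _ => 0
  | (r :: rs), x, y => gv ((((x % w : ℕ) : ℤ) - h), (((y % w : ℕ) : ℤ) - h)) * F r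
      + cf F w h rs (x / w) (y / w)

theorem cf_congr {R : Type} {F G : R → ℂ} (w h : ℕ) (rs : List R) (hFG : ∀ r ∈ rs, F r = G r)
    (x y : ℕ) : cf F w h rs x y = cf G w h rs x y := by
  induction rs generalizing x y with
  | nil => rfl
  | cons r rs ih =>
    rw [cf, cf, hFG r (by simp), ih (fun r' h' => hFG r' (by simp [h']))]

theorem cf_add {R : Type} (F G : R → ℂ) (w h : ℕ) (rs : List R) (x y : ℕ) :
    cf (fun r => F r + G r) w h rs x y = cf F w h rs x y + cf G w h rs x y := by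
  induction rs generalizing x y with
  | nil => simp [cf]
  | cons r rs ih => rw [cf, cf, cf, ih]; ring

theorem cf_mul {R : Type} (a : ℂ) (F : R → ℂ) (w h : ℕ) (rs : List R) (x y : ℕ) :
    cf (fun r => a * F r) w h rs x y = a * cf F w h rs x y := by
  induction rs generalizing x y with
  | nil => simp [cf]
  | cons r rs ih => rw [cf, cf, ih]; ring

theorem pv_upl (φ ψ : ℕ → ℂ) (w h : ℕ) (ms : List Mo) (x y : ℕ) :
    pv φ ψ (upl w h ms x y) = cf (mv φ ψ) w h ms x y := by
  induction ms generalizing x y with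
  | nil => simp [upl, cf, pv]
  | cons m ms ih => rw [upl, Pool.Agent.M16.Helper12.HR2.pv_cons, ih, cf]

/-- the value of a relation -/
noncomputable def rv (s b : ℂ) (c : ℕ → ℂ) (m : Mo) : ℂ :=
  ((-2 * s * c 0 * (m.1.map c).prod + Dvl c m.1) - (b + wl m.1 + wl m.2) * (m.1.map c).prod)
    * conj ((m.2.map c).prod)

theorem rel_upl (s b : ℂ) (c : ℕ → ℂ) (w h : ℕ) (ms : List Mo) (x y : ℕ) :
    rel s b c (upl w h ms x y) = cf (rv s b c) w h ms x y := by
  induction ms generalizing x y with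
  | nil => simp [upl, cf, rel]
  | cons m ms ih => rw [upl, Pool.Agent.M16.Helper12.HR2.rel_cons, ih, cf, rv]

/-- the rows have the real and imaginary parts of the complex values -/
theorem fm_cf {R S : Type} (FR FI : R → ℝ) (G : S → ℂ) (w h : ℕ) {rs : List R} {ms : List S}
    (hf : List.Forall₂ (fun r m => FR r = (G m).re ∧ FI r = (G m).im) rs ms) (x y : ℕ) :
    fm FR w h rs x - fm FI w h rs y = (cf G w h ms x y).re ∧
      fm FI w h rs x + fm FR w h rs y = (cf G w h ms x y).im := by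
  induction hf generalizing x y with
  | nil => simp [fm, cf]
  | cons h1 _ ih =>
    obtain ⟨i1, i2⟩ := ih (x / w) (y / w)
    simp only [fm, cf, Complex.add_re, Complex.add_im, Complex.mul_re, Complex.mul_im,
      Pool.Agent.M16.Helper12.HR2.gv_re, Pool.Agent.M16.Helper12.HR2.gv_im, zsmul_eq_mul]
    rw [← i1, ← i2, h1.1, h1.2]
    constructor <;> ring

/-- the semantic valuations -/
noncomputable def rhoV (K : ℕ) (rep : ℕ → ℕ) (c : ℕ → ℂ) : ℕ → ℝ :=
  vs K (fun j => (mc c (rep j)).re)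

/-- the semantic valuations -/
noncomputable def sigV (K : ℕ) (rep : ℕ → ℕ) (c : ℕ → ℂ) : ℕ → ℝ :=
  vs K (fun j => (mc c (rep j)).im)

/-- the check of a row with one term: code `κ`, multiplicity `2 ^ e` -/
def okS (K : ℕ) (rep : ℕ → ℕ) (o : ℕ) (s : Sng) (κ e : ℕ) : Bool :=
  Nat.beq ((o + s.1) % K) e &&
    match s.2 with
    | 0 => Nat.beq (rep ((o + s.1) / K)) κ
    | 1 => Nat.beq (rep ((o + s.1) / K)) (sw κ)
    | 2 => Nat.beq (rep ((o + s.1) / K)) κ && Nat.beq (sw κ) κ
    | _ => false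

theorem okS_spec {K : ℕ} {rep : ℕ → ℕ} {o : ℕ} {s : Sng} {κ e : ℕ} (h : okS K rep o s κ e = true)
    (c : ℕ → ℂ) : sR (vo (rhoV K rep c) o) s = ((2 ^ e : ℂ) * mc c κ).re ∧
      sI (vo (sigV K rep c) o) s = ((2 ^ e : ℂ) * mc c κ).im := by
  unfold okS at h
  rw [Bool.and_eq_true] at h
  obtain ⟨h1, h2⟩ := h
  have h1' := Nat.eq_of_beq_eq_true h1
  have e1 : ((2 ^ e : ℂ) * mc c κ).re = 2 ^ e * (mc c κ).re := by
    have : (2 ^ e : ℂ) = ((2 ^ e : ℝ) : ℂ) := by push_cast; rfl
    rw [this, Complex.re_ofReal_mul]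
  have e2 : ((2 ^ e : ℂ) * mc c κ).im = 2 ^ e * (mc c κ).im := by
    have : (2 ^ e : ℂ) = ((2 ^ e : ℝ) : ℂ) := by push_cast; rfl
    rw [this, Complex.im_ofReal_mul]
  have e3 : sR (vo (rhoV K rep c) o) s = 2 ^ e * (mc c (rep ((o + s.1) / K))).re := by
    simp only [sR, vo, rhoV, vs, h1', zsmul_eq_mul]
    push_cast
    rfl
  have e4 : vo (sigV K rep c) o s.1 = 2 ^ e * (mc c (rep ((o + s.1) / K))).im := by
    simp only [vo, sigV, vs, h1', zsmul_eq_mul]
    push_cast
    rfl
  rw [e1, e2, e3, sI, e4]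
  obtain ⟨T, f⟩ := s
  simp only at h2 ⊢
  rcases f with _ | _ | _ | f
  · have h3 := Nat.eq_of_beq_eq_true h2
    rw [h3]
    simp
  · have h3 := Nat.eq_of_beq_eq_true h2
    rw [h3, mc_sw]
    simp
  · simp only [Bool.and_eq_true] at h2
    have h3 := Nat.eq_of_beq_eq_true h2.1
    have h4 := Nat.eq_of_beq_eq_true h2.2
    rw [h3]
    have h5 : (mc c κ).im = 0 := by
      have := mc_sw c κ
      rw [h4] at this
      have h6 := congrArg Complex.im this
      rw [Complex.conj_im] at h6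
      linarith only [h6]
    rw [h5]
    simp
  · exact absurd h2 (by simp)

/-- the check of rows with one term -/
def okL {S : Type} (K : ℕ) (rep : ℕ → ℕ) (o : ℕ) (q : S → ℕ × ℕ) : List Sng → List S → Bool
  | [], [] => true
  | (s :: ss), (m :: ms) => okS K rep o s (q m).1 (q m).2 && okL K rep o q ss ms
  | _, _ => false

theorem okL_spec {S : Type} {K : ℕ} {rep : ℕ → ℕ} {o : ℕ} {q : S → ℕ × ℕ} (c : ℕ → ℂ) :
    ∀ (ss : List Sng) (ms : List S), okL K rep o q ss ms = true →
    List.Forall₂ (fun s m => sR (vo (rhoV K rep c) o) s = ((2 ^ (q m).2 : ℂ) * mc c (q m).1).re ∧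
      sI (vo (sigV K rep c) o) s = ((2 ^ (q m).2 : ℂ) * mc c (q m).1).im) ss ms := by
  intro ss
  induction ss with
  | nil =>
    intro ms h
    rcases ms with _ | ⟨m, ms⟩
    · exact List.Forall₂.nil
    · exact absurd h (by simp [okL])
  | cons s ss ih =>
    intro ms h
    rcases ms with _ | ⟨m, ms⟩
    · exact absurd h (by simp [okL])
    · simp only [okL, Bool.and_eq_true] at h
      exact List.Forall₂.cons (okS_spec h.1 c) (ih ms h.2)

/-- derivative of a variable -/
def dvt : ℕ → List (List ℕ × ℤ)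
  | 0 => [([1], 3), ([0, 0], -1)]
  | (k + 1) => ([k + 2], (k : ℤ) + 4) :: (List.range k).map (fun i => ([i + 1, k - i], 1))

/-- derivative of a monomial -/
def Dt : List ℕ → List (List ℕ × ℤ)
  | [] => []
  | (a :: A) => (dvt a).map (fun t => (t.1 ++ A, t.2)) ++ (Dt A).map (fun t => (a :: t.1, t.2))

/-- the value of a list of terms -/
noncomputable def tev (c : ℕ → ℂ) (l : List (List ℕ × ℤ)) : ℂ :=
  (l.map fun t => (t.2 : ℂ) * (t.1.map c).prod).sum

theorem tev_append (c : ℕ → ℂ) (l l' : List (List ℕ × ℤ)) : tev c (l ++ l') = tev c l + tev c l' := by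
  simp [tev]

theorem tev_cons (c : ℕ → ℂ) (t : List ℕ × ℤ) (l : List (List ℕ × ℤ)) :
    tev c (t :: l) = (t.2 : ℂ) * (t.1.map c).prod + tev c l := by
  simp [tev]

theorem tev_dvt (c : ℕ → ℂ) (n : ℕ) : tev c (dvt n) = dvl c n := by
  rcases n with _ | k
  · simp only [dvt, tev, dvl, List.map_cons, List.map_nil, List.prod_cons, List.prod_nil,
      List.sum_cons, List.sum_nil, if_true]
    push_cast
    ring
  · rw [dvt, tev_cons, dvl, if_neg (Nat.succ_ne_zero k)]
    have h1 : tev c ((List.range k).map (fun i => (([i + 1, k - i] : List ℕ), (1 : ℤ))))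
        = ∑ i ∈ Finset.range k, c (i + 1) * c (k - i) := by
      unfold tev
      rw [List.map_map, Finset.sum_range]
      have : ∀ n : ℕ, ((List.range n).map ((fun t : List ℕ × ℤ => (t.2 : ℂ) * (t.1.map c).prod)
          ∘ fun i => (([i + 1, k - i] : List ℕ), (1 : ℤ)))).sum
          = ∑ i ∈ Finset.range n, c (i + 1) * c (k - i) := by
        intro n
        induction n with
        | zero => simp
        | succ n ih =>
          rw [List.range_succ, List.map_append, List.sum_append, ih, Finset.sum_range_succ]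
          simp
      rw [this, Finset.sum_range]
    rw [h1]
    simp only [List.map_cons, List.map_nil, List.prod_cons, List.prod_nil, mul_one,
      Nat.add_sub_cancel]
    push_cast
    ring

theorem tev_Dt (c : ℕ → ℂ) (A : List ℕ) : tev c (Dt A) = Dvl c A := by
  induction A with
  | nil => rfl
  | cons a A ih =>
    rw [Dt, tev_append]
    have h1 : tev c ((dvt a).map (fun t => (t.1 ++ A, t.2))) = tev c (dvt a) * (A.map c).prod := by
      generalize dvt a = l
      induction l with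
      | nil => simp [tev]
      | cons t l ihl =>
        rw [List.map_cons, tev_cons, tev_cons, ihl]
        simp only [List.map_append, List.prod_append]
        ring
    have h2 : tev c ((Dt A).map (fun t => (a :: t.1, t.2))) = c a * tev c (Dt A) := by
      generalize Dt A = l
      induction l with
      | nil => simp [tev]
      | cons t l ihl =>
        rw [List.map_cons, tev_cons, tev_cons, ihl]
        simp only [List.map_cons, List.prod_cons]
        ring
    rw [h1, h2, ih, tev_dvt]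
    rfl

/-- insertion in a sorted list -/
def ins (p : ℕ × ℤ) : List (ℕ × ℤ) → List (ℕ × ℤ)
  | [] => [p]
  | (q :: l) => bif Nat.beq p.1 q.1 then (q.1, p.2 + q.2) :: l
      else bif Nat.ble p.1 q.1 then p :: q :: l else q :: ins p l

/-- the normal form -/
def nf (l : List (ℕ × ℤ)) : List (ℕ × ℤ) := l.foldr ins []

/-- the value of coded terms -/
noncomputable def kev (f : ℕ → ℂ) (l : List (ℕ × ℤ)) : ℂ := (l.map fun p => (p.2 : ℂ) * f p.1).sum

theorem kev_cons (f : ℕ → ℂ) (p : ℕ × ℤ) (l : List (ℕ × ℤ)) :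
    kev f (p :: l) = (p.2 : ℂ) * f p.1 + kev f l := by simp [kev]

theorem kev_append (f : ℕ → ℂ) (l l' : List (ℕ × ℤ)) : kev f (l ++ l') = kev f l + kev f l' := by
  simp [kev]

theorem kev_ins (f : ℕ → ℂ) (p : ℕ × ℤ) (l : List (ℕ × ℤ)) :
    kev f (ins p l) = (p.2 : ℂ) * f p.1 + kev f l := by
  induction l with
  | nil => simp [ins, kev]
  | cons q l ih =>
    rw [ins]
    rcases h1 : Nat.beq p.1 q.1 with _ | _
    · rcases h2 : Nat.ble p.1 q.1 with _ | _
      · simp only [cond_false]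
        rw [kev_cons, ih, kev_cons]
        ring
      · simp only [cond_false, cond_true]
        rw [kev_cons]
    · have h3 := Nat.eq_of_beq_eq_true h1
      simp only [cond_true]
      rw [kev_cons, kev_cons, h3]
      push_cast
      ring

theorem kev_nf (f : ℕ → ℂ) (l : List (ℕ × ℤ)) : kev f (nf l) = kev f l := by
  induction l with
  | nil => rfl
  | cons p l ih =>
    have : nf (p :: l) = ins p (nf l) := rfl
    rw [this, kev_ins, ih, kev_cons]

/-- the coded terms of a row -/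
def rowT (K : ℕ) (rep : ℕ → ℕ) (o : ℕ) (r : Row) : List (ℕ × ℤ) :=
  r.1.map (fun p => (rep ((o + p.1) / K), (p.2 : ℤ))) ++
    (r.2.1.map (fun p => (sw (rep ((o + p.1) / K)), (p.2 : ℤ))) ++
      r.2.2.map (fun p => (rep ((o + p.1) / K), (p.2 : ℤ))))

/-- the conditions on the shifts of a row -/
def okW (K : ℕ) (rep : ℕ → ℕ) (o : ℕ) (r : Row) : Bool :=
  r.1.all (fun p => Nat.beq ((o + p.1) % K) 0) && r.2.1.all (fun p => Nat.beq ((o + p.1) % K) 0) &&
    r.2.2.all (fun p => Nat.beq ((o + p.1) % K) 0 &&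
      Nat.beq (sw (rep ((o + p.1) / K))) (rep ((o + p.1) / K)))

theorem vs_zero {K : ℕ} (V : ℕ → ℝ) {T : ℕ} (h : T % K = 0) : vs K V T = V (T / K) := by
  simp [vs, h]

theorem row_spec {K : ℕ} {rep : ℕ → ℕ} {o : ℕ} {r : Row} (h : okW K rep o r = true) (c : ℕ → ℂ) :
    rowR (vo (rhoV K rep c) o) r = (kev (mc c) (rowT K rep o r)).re ∧
      rowI (vo (sigV K rep c) o) r = (kev (mc c) (rowT K rep o r)).im := by
  unfold okW at h
  simp only [Bool.and_eq_true, List.all_eq_true] at h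
  obtain ⟨⟨h1, h2⟩, h3⟩ := h
  have k0 : ∀ l : List (ℕ × ℕ), (∀ p ∈ l, Nat.beq ((o + p.1) % K) 0 = true) →
      tv (vo (rhoV K rep c) o) l
        = (kev (mc c) (l.map (fun p => (rep ((o + p.1) / K), (p.2 : ℤ))))).re ∧
      tv (vo (sigV K rep c) o) l
        = (kev (mc c) (l.map (fun p => (rep ((o + p.1) / K), (p.2 : ℤ))))).im := by
    intro l hl
    induction l with
    | nil => simp [tv, kev]
    | cons p l ih =>
      obtain ⟨i1, i2⟩ := ih (fun p' h' => hl p' (by simp [h']))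
      have h4 := Nat.eq_of_beq_eq_true (hl p (by simp))
      have e1 : tv (vo (rhoV K rep c) o) (p :: l)
          = (p.2 : ℤ) • vo (rhoV K rep c) o p.1 + tv (vo (rhoV K rep c) o) l := by simp [tv]
      have e2 : tv (vo (sigV K rep c) o) (p :: l)
          = (p.2 : ℤ) • vo (sigV K rep c) o p.1 + tv (vo (sigV K rep c) o) l := by simp [tv]
      rw [e1, e2, i1, i2, List.map_cons, kev_cons, Complex.add_re, Complex.add_im]
      have e3 : ((((p.2 : ℕ) : ℤ) : ℂ) * mc c (rep ((o + p.1) / K))).re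
          = (p.2 : ℝ) * (mc c (rep ((o + p.1) / K))).re := by
        have : ((((p.2 : ℕ) : ℤ) : ℂ)) = ((p.2 : ℝ) : ℂ) := by push_cast; rfl
        rw [this, Complex.re_ofReal_mul]
      have e4 : ((((p.2 : ℕ) : ℤ) : ℂ) * mc c (rep ((o + p.1) / K))).im
          = (p.2 : ℝ) * (mc c (rep ((o + p.1) / K))).im := by
        have : ((((p.2 : ℕ) : ℤ) : ℂ)) = ((p.2 : ℝ) : ℂ) := by push_cast; rfl
        rw [this, Complex.im_ofReal_mul]
      rw [e3, e4]
      simp only [vo, rhoV, sigV, vs_zero _ h4, zsmul_eq_mul]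
      push_cast
      exact ⟨rfl, rfl⟩
  have k1 : ∀ l : List (ℕ × ℕ),
      (kev (mc c) (l.map (fun p => (sw (rep ((o + p.1) / K)), (p.2 : ℤ)))))
        = conj (kev (mc c) (l.map (fun p => (rep ((o + p.1) / K), (p.2 : ℤ))))) := by
    intro l
    induction l with
    | nil => simp [kev]
    | cons p l ih =>
      rw [List.map_cons, List.map_cons, kev_cons, kev_cons, ih, map_add, map_mul, mc_sw]
      simp
  have k2 : (kev (mc c) (r.2.2.map (fun p => (rep ((o + p.1) / K), (p.2 : ℤ))))).im = 0 := by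
    have : ∀ l : List (ℕ × ℕ), (∀ p ∈ l, Nat.beq (sw (rep ((o + p.1) / K))) (rep ((o + p.1) / K))
        = true) → (kev (mc c) (l.map (fun p => (rep ((o + p.1) / K), (p.2 : ℤ))))).im = 0 := by
      intro l hl
      induction l with
      | nil => simp [kev]
      | cons p l ih =>
        rw [List.map_cons, kev_cons, Complex.add_im, ih (fun p' h' => hl p' (by simp [h']))]
        have h4 := Nat.eq_of_beq_eq_true (hl p (by simp))
        have h5 : (mc c (rep ((o + p.1) / K))).im = 0 := by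
          have := mc_sw c (rep ((o + p.1) / K))
          rw [h4] at this
          have h6 := congrArg Complex.im this
          rw [Complex.conj_im] at h6
          linarith only [h6]
        have : ((((p.2 : ℕ) : ℤ) : ℂ)) = ((p.2 : ℝ) : ℂ) := by push_cast; rfl
        rw [this, Complex.im_ofReal_mul, h5]
        simp
    exact this _ (fun p hp => (h3 p hp).2)
  obtain ⟨a1, a2⟩ := k0 r.1 h1
  obtain ⟨b1, b2⟩ := k0 r.2.1 h2
  obtain ⟨c1, c2⟩ := k0 r.2.2 (fun p hp => (h3 p hp).1)
  unfold rowR rowI rowT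
  rw [kev_append, kev_append, k1, a1, a2, b1, b2, c1]
  simp only [Complex.add_re, Complex.add_im, Complex.conj_re, Complex.conj_im]
  rw [k2]
  constructor
  · trivial
  · ring

/-- sum of powers of 16 -/
noncomputable def sS (l : List ℕ) : ℕ :=
  List.rec (motive := fun _ => ℕ) 0 (fun a _ ih => Nat.add (Nat.pow 16 a) ih) l

theorem sS_cons (a : ℕ) (l : List ℕ) : sS (a :: l) = 16 ^ a + sS l := rfl

theorem sS_eq (l : List ℕ) : (l.map (fun a => 16 ^ a)).sum = sS l := by
  induction l with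
  | nil => rfl
  | cons a l ih => rw [List.map_cons, List.sum_cons, ih, sS_cons]

theorem cod_sS (m : Mo) : cod m = sS m.1 + 16777216 * sS m.2 := by
  have h1 : ∀ l : List ℕ, (l.map (fun b => 16 ^ (6 + b))).sum = 16777216 * sS l := by
    intro l
    induction l with
    | nil => rfl
    | cons a l ih =>
      rw [List.map_cons, List.sum_cons, ih, sS_cons, pow_add]
      norm_num
      ring
  rw [cod, sS_eq, h1]

/-- validity of a list -/
def vl (l : List ℕ) : Bool := l.all (fun i => Nat.ble (i + 1) 6) && Nat.ble l.length 15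

theorem vmo_vl {A B : List ℕ} (h1 : vl A = true) (h2 : vl B = true) : vmo (A, B) = true := by
  unfold vl at h1 h2
  unfold vmo
  simp only [Bool.and_eq_true] at h1 h2 ⊢
  exact ⟨⟨⟨h1.1, h2.1⟩, h1.2⟩, h2.2⟩

/-- the conditions for the first factor -/
def okA (A : List ℕ) : Bool := vl A && vl (0 :: A) && (Dt A).all (fun t => vl t.1)

/-- the coded terms of the derivative plus `a` times the product with the first variable -/
noncomputable def DZ (a : ℕ) (A : List ℕ) : List (ℕ × ℤ) :=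
  nf ((sS (0 :: A), (a : ℤ)) :: (Dt A).map (fun t => (sS t.1, t.2)))

theorem DZ_spec {a : ℕ} {m : Mo} (hA : okA m.1 = true) (hB : vl m.2 = true) (c : ℕ → ℂ) :
    kev (fun κ => mc c (κ + 16777216 * sS m.2)) (DZ a m.1)
      = (Dvl c m.1 + a * (c 0 * (m.1.map c).prod)) * conj ((m.2.map c).prod) := by
  unfold okA at hA
  simp only [Bool.and_eq_true, List.all_eq_true] at hA
  obtain ⟨⟨-, h2⟩, h3⟩ := hA
  have hc : ∀ A : List ℕ, vl A = true → mc c (sS A + 16777216 * sS m.2)
      = (A.map c).prod * conj ((m.2.map c).prod) := by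
    intro A hA
    rw [← cod_sS (A, m.2), mc_cod c (vmo_vl hA hB), mv, Pool.Agent.M16.Helper12.HR2.prod_conj]
  rw [DZ, kev_nf, kev_cons, hc _ h2, ← tev_Dt]
  have h7 : ∀ l : List (List ℕ × ℤ), (∀ t ∈ l, vl t.1 = true) →
      kev (fun κ => mc c (κ + 16777216 * sS m.2)) (l.map (fun t => (sS t.1, t.2)))
        = tev c l * conj ((m.2.map c).prod) := by
    intro l hl
    induction l with
    | nil => simp [kev, tev]
    | cons t l ih =>
      rw [List.map_cons, kev_cons, tev_cons, ih (fun t' h' => hl t' (by simp [h'])),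
        hc _ (hl t (by simp))]
      ring
  rw [h7 _ h3]
  simp only [List.map_cons, List.prod_cons]
  push_cast
  ring

/-- `sw` without instances -/
noncomputable def swf (κ : ℕ) : ℕ :=
  Nat.add (Nat.mod (Nat.div κ 16777216) 16777216) (Nat.mul 16777216 (Nat.mod κ 16777216))

/-- the first element of the list is the term, kind 0 -/
noncomputable def hd0 (K : ℕ) (rep : ℕ → ℕ) (o κ μ : ℕ) (l : List (ℕ × ℕ)) : Bool :=
  List.rec (motive := fun _ => Bool) false
    (fun p _ _ => and (Nat.beq (rep (Nat.div (Nat.add o p.1) K)) κ)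
      (and (Nat.beq p.2 μ) (Nat.beq (Nat.mod (Nat.add o p.1) K) 0))) l

/-- the first element of the list is the term, kind 1 -/
noncomputable def hd1 (K : ℕ) (rep : ℕ → ℕ) (o κ μ : ℕ) (l : List (ℕ × ℕ)) : Bool :=
  List.rec (motive := fun _ => Bool) false
    (fun p _ _ => and (Nat.beq (swf (rep (Nat.div (Nat.add o p.1) K))) κ)
      (and (Nat.beq p.2 μ) (Nat.beq (Nat.mod (Nat.add o p.1) K) 0))) l

/-- the check of a row of the derivative -/
noncomputable def chk (K : ℕ) (rep : ℕ → ℕ) (o β : ℕ) (T : List (ℕ × ℤ)) :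
    List (ℕ × ℕ) → List (ℕ × ℕ) → List (ℕ × ℕ) → Bool :=
  List.rec (motive := fun _ => List (ℕ × ℕ) → List (ℕ × ℕ) → List (ℕ × ℕ) → Bool)
    (fun l0 l1 l2 => List.rec (motive := fun _ => Bool)
      (List.rec (motive := fun _ => Bool)
        (List.rec (motive := fun _ => Bool) true (fun _ _ _ => false) l2)
        (fun _ _ _ => false) l1) (fun _ _ _ => false) l0)
    (fun t _ ih l0 l1 l2 => Int.rec (motive := fun _ => Bool)
      (fun μ => Nat.rec (motive := fun _ => Bool) (ih l0 l1 l2)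
        (fun _ _ => Bool.rec (motive := fun _ => Bool)
          (Bool.rec (motive := fun _ => Bool)
            (and (hd0 K rep o (Nat.add t.1 β) μ l2)
              (and (Nat.beq (swf (Nat.add t.1 β)) (Nat.add t.1 β)) (ih l0 l1 l2.tail)))
            (ih l0 l1.tail l2) (hd1 K rep o (Nat.add t.1 β) μ l1))
          (ih l0.tail l1 l2) (hd0 K rep o (Nat.add t.1 β) μ l0)) μ)
      (fun _ => false) t.2) T

theorem hd0_spec {K : ℕ} {rep : ℕ → ℕ} {o κ μ : ℕ} {l : List (ℕ × ℕ)}
    (h : hd0 K rep o κ μ l = true) : ∃ p l', l = p :: l' ∧ rep ((o + p.1) / K) = κ ∧ p.2 = μ ∧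
      Nat.beq ((o + p.1) % K) 0 = true := by
  rcases l with _ | ⟨p, l'⟩
  · exact absurd h (by simp [hd0])
  · have h' : and (Nat.beq (rep (Nat.div (Nat.add o p.1) K)) κ)
      (and (Nat.beq p.2 μ) (Nat.beq (Nat.mod (Nat.add o p.1) K) 0)) = true := h
    simp only [Bool.and_eq_true] at h'
    exact ⟨p, l', rfl, Nat.eq_of_beq_eq_true h'.1, Nat.eq_of_beq_eq_true h'.2.1, h'.2.2⟩

theorem hd1_spec {K : ℕ} {rep : ℕ → ℕ} {o κ μ : ℕ} {l : List (ℕ × ℕ)}
    (h : hd1 K rep o κ μ l = true) : ∃ p l', l = p :: l' ∧ sw (rep ((o + p.1) / K)) = κ ∧ p.2 = μ ∧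
      Nat.beq ((o + p.1) % K) 0 = true := by
  rcases l with _ | ⟨p, l'⟩
  · exact absurd h (by simp [hd1])
  · have h' : and (Nat.beq (swf (rep (Nat.div (Nat.add o p.1) K))) κ)
      (and (Nat.beq p.2 μ) (Nat.beq (Nat.mod (Nat.add o p.1) K) 0)) = true := h
    simp only [Bool.and_eq_true] at h'
    exact ⟨p, l', rfl, Nat.eq_of_beq_eq_true h'.1, Nat.eq_of_beq_eq_true h'.2.1, h'.2.2⟩

theorem chk_spec {K : ℕ} {rep : ℕ → ℕ} {o β : ℕ} : ∀ (T : List (ℕ × ℤ)) (l0 l1 l2 : List (ℕ × ℕ)),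
    chk K rep o β T l0 l1 l2 = true → okW K rep o (l0, l1, l2) = true ∧
      ∀ f : ℕ → ℂ, kev f (rowT K rep o (l0, l1, l2)) = kev (fun κ => f (κ + β)) T := by
  intro T
  induction T with
  | nil =>
    intro l0 l1 l2 h
    rcases l0 with _ | ⟨p, l0⟩
    · rcases l1 with _ | ⟨p, l1⟩
      · rcases l2 with _ | ⟨p, l2⟩
        · exact ⟨rfl, fun f => rfl⟩
        · exact absurd h (by simp [chk])
      · exact absurd h (by simp [chk])
    · exact absurd h (by simp [chk])
  | cons t T ih =>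
    intro l0 l1 l2 h
    obtain ⟨κ, z⟩ := t
    rcases z with μ | μ
    · rcases μ with _ | μ
      · have h' : chk K rep o β T l0 l1 l2 = true := h
        obtain ⟨h1, h2⟩ := ih l0 l1 l2 h'
        refine ⟨h1, fun f => ?_⟩
        rw [h2 f, kev_cons]
        simp
      · have h' : Bool.rec (motive := fun _ => Bool)
          (Bool.rec (motive := fun _ => Bool)
            (and (hd0 K rep o (κ + β) (μ + 1) l2)
              (and (Nat.beq (swf (κ + β)) (κ + β)) (chk K rep o β T l0 l1 l2.tail)))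
            (chk K rep o β T l0 l1.tail l2) (hd1 K rep o (κ + β) (μ + 1) l1))
          (chk K rep o β T l0.tail l1 l2) (hd0 K rep o (κ + β) (μ + 1) l0) = true := h
        have hk : (Int.ofNat (μ + 1)) = ((μ + 1 : ℕ) : ℤ) := rfl
        rcases e0 : hd0 K rep o (κ + β) (μ + 1) l0 with _ | _
        · rw [e0] at h'
          rcases e1 : hd1 K rep o (κ + β) (μ + 1) l1 with _ | _
          · rw [e1] at h'
            have h'' : and (hd0 K rep o (κ + β) (μ + 1) l2)
              (and (Nat.beq (swf (κ + β)) (κ + β)) (chk K rep o β T l0 l1 l2.tail)) = true := h'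
            simp only [Bool.and_eq_true] at h''
            obtain ⟨h3, h4, h5⟩ := h''
            obtain ⟨p, l', rfl, g1, g2, g3⟩ := hd0_spec h3
            obtain ⟨h6, h7⟩ := ih _ _ _ h5
            refine ⟨?_, fun f => ?_⟩
            · simp only [okW, List.tail_cons, Bool.and_eq_true, List.all_cons] at h6 ⊢
              refine ⟨h6.1, ⟨g3, ?_⟩, h6.2⟩
              rw [g1]
              exact h4
            · have h8 := h7 f
              simp only [rowT, List.tail_cons, List.map_cons, kev_append, kev_cons] at h8 ⊢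
              rw [g1, g2, hk, ← h8]
              ring
          · rw [e1] at h'
            have h5 : chk K rep o β T l0 l1.tail l2 = true := h'
            obtain ⟨p, l', rfl, g1, g2, g3⟩ := hd1_spec e1
            obtain ⟨h6, h7⟩ := ih _ _ _ h5
            refine ⟨?_, fun f => ?_⟩
            · simp only [okW, List.tail_cons, Bool.and_eq_true, List.all_cons] at h6 ⊢
              exact ⟨⟨h6.1.1, g3, h6.1.2⟩, h6.2⟩
            · have h8 := h7 f
              simp only [rowT, List.tail_cons, List.map_cons, kev_append, kev_cons] at h8 ⊢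
              rw [g1, g2, hk, ← h8]
              ring
        · rw [e0] at h'
          have h5 : chk K rep o β T l0.tail l1 l2 = true := h'
          obtain ⟨p, l', rfl, g1, g2, g3⟩ := hd0_spec e0
          obtain ⟨h6, h7⟩ := ih _ _ _ h5
          refine ⟨?_, fun f => ?_⟩
          · simp only [okW, List.tail_cons, Bool.and_eq_true, List.all_cons] at h6 ⊢
            exact ⟨⟨⟨g3, h6.1.1⟩, h6.1.2⟩, h6.2⟩
          · have h8 := h7 f
            simp only [rowT, List.tail_cons, List.map_cons, kev_append, kev_cons] at h8 ⊢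
            rw [g1, g2, hk, ← h8]
            ring
    · exact absurd h (by simp [chk])

/-- the rows of the derivative are correct -/
def DOK (K : ℕ) (rep : ℕ → ℕ) (o a : ℕ) (rs : List Row) (ms : List Mo) : Prop :=
  ∀ c : ℕ → ℂ, List.Forall₂ (fun r m => rowR (vo (rhoV K rep c) o) r
        = ((Dvl c m.1 + a * (c 0 * (m.1.map c).prod)) * conj ((m.2.map c).prod)).re ∧
      rowI (vo (sigV K rep c) o) r
        = ((Dvl c m.1 + a * (c 0 * (m.1.map c).prod)) * conj ((m.2.map c).prod)).im) rs ms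

/-- correctness of a group -/
structure GrpOK (K : ℕ) (rep : ℕ → ℕ) (g : Grp) (ms : List Mo) : Prop where
  M : okL K rep g.oM (fun m : Mo => (cod m, 0)) g.M ms = true
  E : okL K rep g.oE (fun m : Mo => (cod (0 :: m.1, m.2), 0)) g.E ms = true
  D : DOK K rep g.oE g.a g.D ms
  v : ∀ m ∈ ms, vmo m = true
  v0 : ∀ m ∈ ms, vmo (0 :: m.1, m.2) = true
  w : ∀ m ∈ ms, wl m.1 + wl m.2 = g.w

/-- the check of a row with one term, without instances -/
noncomputable def okSf (K : ℕ) (rep : ℕ → ℕ) (T f κ e : ℕ) : Bool :=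
  and (Nat.beq (Nat.mod T K) e)
   (Nat.rec (motive := fun _ => Bool) (Nat.beq (rep (Nat.div T K)) κ)
     (fun f1 _ => Nat.rec (motive := fun _ => Bool) (Nat.beq (rep (Nat.div T K)) (swf κ))
        (fun f2 _ => Nat.rec (motive := fun _ => Bool)
          (and (Nat.beq (rep (Nat.div T K)) κ) (Nat.beq (swf κ) κ)) (fun _ _ => false) f2) f1) f)

theorem okSf_spec {K : ℕ} {rep : ℕ → ℕ} {o T f κ e : ℕ} (h : okSf K rep (o + T) f κ e = true) :
    okS K rep o (T, f) κ e = true := by
  rcases f with _ | _ | _ | f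
  · exact h
  · exact h
  · exact h
  · exact absurd h (by simp [okSf])

/-- the check of a group: the lists of the rows -/
noncomputable def okGf (K : ℕ) (rep : ℕ → ℕ) (oM oE a w : ℕ) (ms : List Mo) :
    List Sng → List Sng → List Row → Bool :=
  List.rec (motive := fun _ => List Sng → List Sng → List Row → Bool)
    (fun M E D => List.rec (motive := fun _ => Bool)
      (List.rec (motive := fun _ => Bool)
        (List.rec (motive := fun _ => Bool) true (fun _ _ _ => false) D)
        (fun _ _ _ => false) E) (fun _ _ _ => false) M)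
    (fun m _ ih M E D => List.rec (motive := fun _ => Bool) false
      (fun s M' _ => List.rec (motive := fun _ => Bool) false
        (fun e E' _ => List.rec (motive := fun _ => Bool) false
          (fun r D' _ => Prod.rec (motive := fun _ => Bool) (fun A B =>
            and (okSf K rep (Nat.add oM s.1) s.2 (Nat.add (sS A) (Nat.mul 16777216 (sS B))) 0)
             (and (okSf K rep (Nat.add oE e.1) e.2
                (Nat.add (sS (0 :: A)) (Nat.mul 16777216 (sS B))) 0)
              (and (and (okA A) (and (vl B) (Nat.beq (Nat.add (wl A) (wl B)) w)))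
               (and (chk K rep oE (Nat.mul 16777216 (sS B)) (DZ a A) r.1 r.2.1 r.2.2)
                (ih M' E' D'))))) m) D) E) M) ms

theorem okGf_spec {K : ℕ} {rep : ℕ → ℕ} {oM oE a w : ℕ} : ∀ (ms : List Mo) (M E : List Sng)
    (D : List Row), okGf K rep oM oE a w ms M E D = true →
    GrpOK K rep ⟨w, a, oM, oE, M, E, D⟩ ms := by
  intro ms
  induction ms with
  | nil =>
    intro M E D h
    rcases M with _ | ⟨s, M⟩
    · rcases E with _ | ⟨e, E⟩
      · rcases D with _ | ⟨r, D⟩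
        · exact ⟨rfl, rfl, fun _ => List.Forall₂.nil, by simp, by simp, by simp⟩
        · exact absurd h (by simp [okGf])
      · exact absurd h (by simp [okGf])
    · exact absurd h (by simp [okGf])
  | cons m ms ih =>
    intro M E D h
    rcases M with _ | ⟨s, M⟩
    · exact absurd h (by simp [okGf])
    · rcases E with _ | ⟨e, E⟩
      · exact absurd h (by simp [okGf])
      · rcases D with _ | ⟨r, D⟩
        · exact absurd h (by simp [okGf])
        · obtain ⟨A, B⟩ := m
          have h' : and (okSf K rep (oM + s.1) s.2 (sS A + 16777216 * sS B) 0)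
             (and (okSf K rep (oE + e.1) e.2 (sS (0 :: A) + 16777216 * sS B) 0)
              (and (and (okA A) (and (vl B) (Nat.beq (wl A + wl B) w)))
               (and (chk K rep oE (16777216 * sS B) (DZ a A) r.1 r.2.1 r.2.2)
                (okGf K rep oM oE a w ms M E D)))) = true := h
          simp only [Bool.and_eq_true] at h'
          obtain ⟨h1, h2, ⟨h3, h4, h5⟩, h6, h7⟩ := h'
          have G := ih M E D h7
          have hw := Nat.eq_of_beq_eq_true h5
          have hA := h3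
          unfold okA at hA
          simp only [Bool.and_eq_true] at hA
          have v1 : vmo (A, B) = true := vmo_vl hA.1.1 h4
          have v2 : vmo (0 :: A, B) = true := vmo_vl hA.1.2 h4
          have e1 : okS K rep oM s (cod (A, B)) 0 = true := by
            rw [cod_sS]
            exact okSf_spec h1
          have e2 : okS K rep oE e (cod (0 :: A, B)) 0 = true := by
            rw [cod_sS]
            exact okSf_spec h2
          refine ⟨?_, ?_, ?_, ?_, ?_, ?_⟩
          · simp only [okL, Bool.and_eq_true]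
            exact ⟨e1, G.M⟩
          · simp only [okL, Bool.and_eq_true]
            exact ⟨e2, G.E⟩
          · intro c
            refine List.Forall₂.cons ?_ (G.D c)
            obtain ⟨k1, k2⟩ := chk_spec _ _ _ _ h6
            obtain ⟨r1, r2⟩ := row_spec k1 c
            have k3 := k2 (mc c)
            rw [DZ_spec (m := (A, B)) h3 h4 c] at k3
            have hr : ((r.1, r.2.1, r.2.2) : Row) = r := rfl
            rw [hr] at k3 r1 r2
            rw [k3] at r1 r2
            exact ⟨r1, r2⟩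
          · intro m hm
            rcases List.mem_cons.1 hm with rfl | hm
            · exact v1
            · exact G.v m hm
          · intro m hm
            rcases List.mem_cons.1 hm with rfl | hm
            · exact v2
            · exact G.v0 m hm
          · intro m hm
            rcases List.mem_cons.1 hm with rfl | hm
            · exact hw
            · exact G.w m hm

/-- the check of all groups -/
noncomputable def okGsf (K : ℕ) (rep : ℕ → ℕ) (gs : List Grp) : List (List Mo) → Bool :=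
  List.rec (motive := fun _ => List (List Mo) → Bool)
    (fun gm => List.rec (motive := fun _ => Bool) true (fun _ _ _ => false) gm)
    (fun g _ ih gm => List.rec (motive := fun _ => Bool) false
      (fun ms gm' _ => and (okGf K rep g.oM g.oE g.a g.w ms g.M g.E g.D) (ih gm')) gm) gs

theorem okGsf_spec {K : ℕ} {rep : ℕ → ℕ} : ∀ (gs : List Grp) (gm : List (List Mo)),
    okGsf K rep gs gm = true → List.Forall₂ (GrpOK K rep) gs gm := by
  intro gs
  induction gs with
  | nil =>
    intro gm h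
    rcases gm with _ | ⟨ms, gm⟩
    · exact List.Forall₂.nil
    · exact absurd h (by simp [okGsf])
  | cons g gs ih =>
    intro gm h
    rcases gm with _ | ⟨ms, gm⟩
    · exact absurd h (by simp [okGsf])
    · have h' : and (okGf K rep g.oM g.oE g.a g.w ms g.M g.E g.D) (okGsf K rep gs gm) = true := h
      rw [Bool.and_eq_true] at h'
      exact List.Forall₂.cons (okGf_spec _ _ _ _ h'.1) (ih gm h'.2)

theorem grp_spec {K : ℕ} {rep : ℕ → ℕ} {g : Grp} {ms : List Mo} (h : GrpOK K rep g ms)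
    (P : Par) (hs : P.sr ≠ 0) (hb : P.bd ≠ 0) (c : ℕ → ℂ) (w hh x y : ℕ) :
    gmR P (rhoV K rep c) w hh g (x, y) + gmI P (sigV K rep c) w hh g (x, y)
      = (P.sr * P.bd : ℝ) * (rel (((P.p : ℂ) + P.q * Complex.I) / P.sr) ((P.bn : ℂ) / P.bd) c
          (upl w hh ms x y)).re := by
  obtain ⟨h1, h2, h3, hv, hv0, hw⟩ := h
  have f1 := okL_spec c g.M ms h1
  have f2 := okL_spec c g.E ms h2
  have f3 := h3 c
  obtain ⟨m1, -⟩ := fm_cf _ _ _ w hh f1 x y
  obtain ⟨e1, e2⟩ := fm_cf _ _ _ w hh f2 x y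
  obtain ⟨d1, -⟩ := fm_cf _ _ (fun m : Mo => (Dvl c m.1 + g.a * (c 0 * (m.1.map c).prod))
    * conj ((m.2.map c).prod)) w hh f3 x y
  have n1 : cf (fun m : Mo => (2 ^ ((fun m : Mo => (cod m, 0)) m).2 : ℂ)
      * mc c ((fun m : Mo => (cod m, 0)) m).1) w hh ms x y
      = cf (fun m : Mo => (m.1.map c).prod * conj ((m.2.map c).prod)) w hh ms x y := by
    apply cf_congr
    intro m hm
    simp only [pow_zero, one_mul]
    rw [mc_cod c (hv m hm), mv, Pool.Agent.M16.Helper12.HR2.prod_conj]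
  have n2 : cf (fun m : Mo => (2 ^ ((fun m : Mo => (cod (0 :: m.1, m.2), 0)) m).2 : ℂ)
      * mc c ((fun m : Mo => (cod (0 :: m.1, m.2), 0)) m).1) w hh ms x y
      = cf (fun m : Mo => (c 0 * (m.1.map c).prod) * conj ((m.2.map c).prod)) w hh ms x y := by
    apply cf_congr
    intro m hm
    simp only [pow_zero, one_mul]
    rw [mc_cod c (hv0 m hm), mv, Pool.Agent.M16.Helper12.HR2.prod_conj]
    simp only [List.map_cons, List.prod_cons]
  rw [n1] at m1
  rw [n2] at e1 e2
  have hsr : (P.sr : ℂ) ≠ 0 := Nat.cast_ne_zero.2 hs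
  have hbd : (P.bd : ℂ) ≠ 0 := Nat.cast_ne_zero.2 hb
  -- the relation
  have key : (P.sr * P.bd : ℂ) * rel (((P.p : ℂ) + P.q * Complex.I) / P.sr)
      ((P.bn : ℂ) / P.bd) c (upl w hh ms x y)
      = (P.bd * P.sr : ℂ) * cf (fun m : Mo => (Dvl c m.1 + g.a * (c 0 * (m.1.map c).prod))
          * conj ((m.2.map c).prod)) w hh ms x y
        + (-(((P.bd * P.sr * g.a : ℂ) + 2 * P.bd * P.p) + 2 * P.bd * P.q * Complex.I))
          * cf (fun m : Mo => (c 0 * (m.1.map c).prod) * conj ((m.2.map c).prod)) w hh ms x y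
        + (-(P.sr * (P.bn + P.bd * g.w) : ℂ))
          * cf (fun m : Mo => (m.1.map c).prod * conj ((m.2.map c).prod)) w hh ms x y := by
    rw [rel_upl, ← cf_mul, ← cf_mul, ← cf_mul, ← cf_mul, ← cf_add, ← cf_add]
    apply cf_congr
    intro m hm
    have hwm := hw m hm
    have hwc : (g.w : ℂ) = (wl m.1 : ℂ) + wl m.2 := by
      rw [← hwm]
      push_cast
      rfl
    rw [rv, hwc]
    field_simp
    ring
  have key2 := congrArg Complex.re key
  have r1 : ((P.sr * P.bd : ℂ) * rel (((P.p : ℂ) + P.q * Complex.I) / P.sr)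
      ((P.bn : ℂ) / P.bd) c (upl w hh ms x y)).re = (P.sr * P.bd : ℝ)
      * (rel (((P.p : ℂ) + P.q * Complex.I) / P.sr) ((P.bn : ℂ) / P.bd) c
        (upl w hh ms x y)).re := by
    have : (P.sr * P.bd : ℂ) = ((P.sr * P.bd : ℝ) : ℂ) := by push_cast; rfl
    rw [this, Complex.re_ofReal_mul]
  rw [r1] at key2
  rw [key2]
  generalize cf (fun m : Mo => (Dvl c m.1 + g.a * (c 0 * (m.1.map c).prod))
          * conj ((m.2.map c).prod)) w hh ms x y = zD at d1 ⊢
  generalize cf (fun m : Mo => (c 0 * (m.1.map c).prod) * conj ((m.2.map c).prod)) w hh ms x y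
    = zE at e1 e2 ⊢
  generalize cf (fun m : Mo => (m.1.map c).prod * conj ((m.2.map c).prod)) w hh ms x y
    = zM at m1 ⊢
  have c1 : ((P.bd * P.sr : ℂ) * zD).re = (P.bd * P.sr : ℝ) * zD.re := by
    have : (P.bd * P.sr : ℂ) = ((P.bd * P.sr : ℝ) : ℂ) := by push_cast; rfl
    rw [this, Complex.re_ofReal_mul]
  have c2 : ((-(P.sr * (P.bn + P.bd * g.w) : ℂ)) * zM).re
      = -(P.sr * (P.bn + P.bd * g.w) : ℝ) * zM.re := by
    have : (-(P.sr * (P.bn + P.bd * g.w) : ℂ)) = ((-(P.sr * (P.bn + P.bd * g.w)) : ℝ) : ℂ) := by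
      push_cast; rfl
    rw [this, Complex.re_ofReal_mul]
  have c3 : ((-(((P.bd * P.sr * g.a : ℂ) + 2 * P.bd * P.p) + 2 * P.bd * P.q * Complex.I)) * zE).re
      = -(P.bd * P.sr * g.a + 2 * P.bd * P.p : ℝ) * zE.re + (2 * P.bd * P.q : ℝ) * zE.im := by
    have : (-(((P.bd * P.sr * g.a : ℂ) + 2 * P.bd * P.p) + 2 * P.bd * P.q * Complex.I))
        = ((-(P.bd * P.sr * g.a + 2 * P.bd * P.p) : ℝ) : ℂ)
          + ((-(2 * P.bd * P.q) : ℝ) : ℂ) * Complex.I := by
      push_cast; ring
    rw [this, add_mul, Complex.add_re, Complex.re_ofReal_mul,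
      mul_assoc ((-(2 * P.bd * P.q) : ℝ) : ℂ), Complex.re_ofReal_mul, Complex.I_mul_re]
    ring
  rw [Complex.add_re, Complex.add_re, c1, c2, c3, ← d1, ← e1, ← e2, ← m1]
  unfold gmR gmI
  have p1 : ((cD P : ℤ) : ℝ) = P.bd * P.sr := by
    have : cD P = ((P.bd * P.sr : ℕ) : ℤ) := rfl
    rw [this]; push_cast; rfl
  have p2 : ((cE P g.a : ℤ) : ℝ) = P.bd * P.sr * g.a + 2 * P.bd * P.p := by
    have : cE P g.a = ((P.bd * P.sr * g.a : ℕ) : ℤ) + ((2 * P.bd : ℕ) : ℤ) * P.p := rfl
    rw [this]; push_cast; rfl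
  have p3 : ((cF P : ℤ) : ℝ) = 2 * P.bd * P.q := by
    have : cF P = ((2 * P.bd : ℕ) : ℤ) * P.q := rfl
    rw [this]; push_cast; rfl
  have p4 : ((cM P g.w : ℤ) : ℝ) = P.sr * (P.bn + P.bd * g.w) := by
    have : cM P g.w = ((P.sr * (P.bn + P.bd * g.w) : ℕ) : ℤ) := rfl
    rw [this]; push_cast; rfl
  simp only [zsmul_eq_mul, p1, p2, p3, p4]
  ring

end Pool.Agent.M16.Helper54.HR2

end

section

set_option autoImplicit false

open scoped ComplexConjugate

namespace Pool.Agent.M16.Helper54.HR2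

open Pool.Agent.M16.Helper12.HR2 (Par Mo GZ gv Pol mv pv wl rel Dvl dvl upl prd)

/-- the rows of blocks -/
def flat : List Blk → List Sng
  | [] => []
  | (b :: bs) => b.2.2.map (fun s => (b.1 + s.1, s.2)) ++ flat bs

/-- the blocks are consecutive -/
def okB : ℕ → List Blk → Bool
  | _, [] => true
  | k, (b :: bs) => Nat.beq b.2.1 k && okB (k + b.2.2.length) bs

section Forms

variable {A : Type*} [AddCommGroup A]

theorem fm_append {R : Type} (F : R → A) (w h : ℕ) (l l' : List R) (x : ℕ) :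
    fm F w h (l ++ l') x = fm F w h l x + fm F w h l' (x / w ^ l.length) := by
  induction l generalizing x with
  | nil => simp [fm]
  | cons r l ih =>
    rw [List.cons_append, fm, ih, fm, List.length_cons, pow_succ', ← Nat.div_div_eq_div_mul,
      add_assoc]

theorem fm_map {R S : Type} (F : R → A) (f : S → R) (w h : ℕ) (l : List S) (x : ℕ) :
    fm F w h (l.map f) x = fm (fun s => F (f s)) w h l x := by
  induction l generalizing x with
  | nil => rfl
  | cons r l ih => rw [List.map_cons, fm, fm, ih]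

theorem bmR_flat (v : ℕ → A) (w h : ℕ) (bs : List Blk) (k x : ℕ) (hk : okB k bs = true) :
    bmR v w h bs x = fm (sR v) w h (flat bs) (x / w ^ k) := by
  induction bs generalizing k with
  | nil => rfl
  | cons b bs ih =>
    simp only [okB, Bool.and_eq_true] at hk
    have h1 := Nat.eq_of_beq_eq_true hk.1
    have h2 := ih _ hk.2
    have h3 : bmR v w h (b :: bs) x = fm (sR (vo v b.1)) w h b.2.2 (x / w ^ b.2.1)
      + bmR v w h bs x := by simp [bmR]
    rw [h3, h2, flat, fm_append, fm_map, List.length_map, Nat.div_div_eq_div_mul, ← pow_add, h1]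
    rfl

theorem bmI_flat (v : ℕ → A) (w h : ℕ) (bs : List Blk) (k x : ℕ) (hk : okB k bs = true) :
    bmI v w h bs x = fm (sI v) w h (flat bs) (x / w ^ k) := by
  induction bs generalizing k with
  | nil => rfl
  | cons b bs ih =>
    simp only [okB, Bool.and_eq_true] at hk
    have h1 := Nat.eq_of_beq_eq_true hk.1
    have h2 := ih _ hk.2
    have h3 : bmI v w h (b :: bs) x = fm (sI (vo v b.1)) w h b.2.2 (x / w ^ b.2.1)
      + bmI v w h bs x := by simp [bmI]
    rw [h3, h2, flat, fm_append, fm_map, List.length_map, Nat.div_div_eq_div_mul, ← pow_add, h1]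
    rfl

theorem bmR_flat0 (v : ℕ → A) (w h : ℕ) (bs : List Blk) (x : ℕ) (hk : okB 0 bs = true) :
    bmR v w h bs x = fm (sR v) w h (flat bs) x := by
  rw [bmR_flat v w h bs 0 x hk, pow_zero, Nat.div_one]

theorem bmI_flat0 (v : ℕ → A) (w h : ℕ) (bs : List Blk) (x : ℕ) (hk : okB 0 bs = true) :
    bmI v w h bs x = fm (sI v) w h (flat bs) x := by
  rw [bmI_flat v w h bs 0 x hk, pow_zero, Nat.div_one]

end Forms

theorem vo_zero {A : Type*} (v : ℕ → A) : vo v 0 = v := by
  funext T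
  rw [vo, zero_add]

/-- the check of blocks: the rows are the coded elements -/
def okF {S : Type} (K : ℕ) (rep : ℕ → ℕ) (q : S → ℕ × ℕ) (bs : List Blk) (ms : List S) : Bool :=
  okB 0 bs && okL K rep 0 q (flat bs) ms

theorem okF_spec {S : Type} {K : ℕ} {rep : ℕ → ℕ} {q : S → ℕ × ℕ} {bs : List Blk} {ms : List S}
    (h : okF K rep q bs ms = true) (c : ℕ → ℂ) (w hh x y : ℕ) :
    bmR (rhoV K rep c) w hh bs x - bmI (sigV K rep c) w hh bs y
      = (cf (fun m => (2 ^ (q m).2 : ℂ) * mc c (q m).1) w hh ms x y).re := by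
  unfold okF at h
  rw [Bool.and_eq_true] at h
  rw [bmR_flat0 _ _ _ _ _ h.1, bmI_flat0 _ _ _ _ _ h.1]
  have h2 := okL_spec c (flat bs) ms h.2
  rw [vo_zero, vo_zero] at h2
  exact (fm_cf _ _ (fun m => (2 ^ (q m).2 : ℂ) * mc c (q m).1) w hh h2 x y).1

theorem okF_spec_re {S : Type} {K : ℕ} {rep : ℕ → ℕ} {q : S → ℕ × ℕ} {bs : List Blk}
    {ms : List S} (h : okF K rep q bs ms = true) (c : ℕ → ℂ) (w hh x : ℕ) :
    bmR (rhoV K rep c) w hh bs x
      = fm (fun m => ((2 ^ (q m).2 : ℂ) * mc c (q m).1).re) w hh ms x := by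
  unfold okF at h
  rw [Bool.and_eq_true] at h
  rw [bmR_flat0 _ _ _ _ _ h.1]
  have h2 := okL_spec c (flat bs) ms h.2
  rw [vo_zero, vo_zero] at h2
  clear h
  generalize flat bs = l at h2
  induction h2 generalizing x with
  | nil => rfl
  | cons h1 _ ih => rw [fm, fm, ih, h1.1]

theorem cf_range (F : ℕ → ℂ) (w h n : ℕ) : ∀ (s x y : ℕ),
    cf F w h (List.range' s n) x y
      = ∑ i ∈ Finset.range n, gv (dgo w h x i, dgo w h y i) * F (s + i) := by
  induction n with
  | zero => intro s x y; simp [cf]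
  | succ n ih =>
    intro s x y
    rw [List.range'_succ, cf, ih, Finset.sum_range_succ']
    rw [add_comm]
    congr 1
    · apply Finset.sum_congr rfl
      intro i _
      have h1 : ∀ z, dgo w h (z / w) i = dgo w h z (i + 1) := by
        intro z
        unfold dgo
        rw [Nat.div_div_eq_div_mul, ← pow_succ']
      rw [h1, h1]
      congr 2
      omega
    · simp [dgo]

/-- the monomial with the number `i` -/
def bm (bas : List Mo) (i : ℕ) : Mo := bas.getD i ([], [])

/-- the code and the multiplicity for the pair `(i, k)` -/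
def qik (bas : List Mo) (k i : ℕ) : ℕ × ℕ :=
  (cod (prd (bm bas i, bm bas k)), bif Nat.beq i k then 0 else 1)

/-- the check of the columns -/
def okC (K : ℕ) (rep : ℕ → ℕ) (bas : List Mo) (n : ℕ) : ℕ → List (ℕ × List Blk) → Bool
  | k, [] => Nat.beq k n
  | k, (b :: T) => Nat.beq b.1 k && okF K rep (qik bas k) b.2 (List.range' 0 (k + 1)) &&
      (List.range' 0 (k + 1)).all (fun i => vmo (prd (bm bas i, bm bas k))) && okC K rep bas n (k + 1) T

/-- the value of a basis monomial -/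
noncomputable def bv (c : ℕ → ℂ) (m : Mo) : ℂ := mv c (fun k => conj (c k)) m

theorem mc_prd (c : ℕ → ℂ) {p : Mo × Mo} (h : vmo (prd p) = true) :
    mc c (cod (prd p)) = bv c p.1 * conj (bv c p.2) := by
  rw [mc_cod c h]
  exact Pool.Agent.M16.Helper12.HR2.mv_prd c p

theorem okC_spec {K : ℕ} {rep : ℕ → ℕ} {bas : List Mo} {n : ℕ} (c : ℕ → ℂ) (B H w h : ℕ)
    (U : List (ℕ × ℕ × ℕ)) (hB : B = 2 * H) (hw0 : 0 < w) (hw : w ≤ 2 * h + 1) (hhw : h < w)
    (hU : uok U n = true) (hH : 2 * n * (w * w) ≤ H) :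
    ∀ (T : List (ℕ × List Blk)) (k : ℕ), okC K rep bas n k T = true →
    k ≤ n ∧ mmR (rhoV K rep c) B H w h n U T - mmI (sigV K rep c) B H w h n U T
      = ∑ j ∈ Finset.Ico k n, ∑ i ∈ Finset.range (j + 1),
        (if i < j then 2 else 1) * (GG w h U i j * (bv c (bm bas i) * conj (bv c (bm bas j)))).re := by
  intro T
  induction T with
  | nil =>
    intro k hk
    have h1 : k = n := Nat.eq_of_beq_eq_true hk
    subst h1
    simp [mmR, mmI]
  | cons b T ih =>
    intro k hk
    simp only [okC, Bool.and_eq_true] at hk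
    obtain ⟨⟨⟨h1, h2⟩, h3⟩, h4⟩ := hk
    have h1' := Nat.eq_of_beq_eq_true h1
    obtain ⟨h5, h6⟩ := ih (k + 1) h4
    refine ⟨by omega, ?_⟩
    have e1 : mmR (rhoV K rep c) B H w h n U (b :: T) = bmR (rhoV K rep c) B H b.2
      (zc B H w h n U b.1) + mmR (rhoV K rep c) B H w h n U T := by simp [mmR]
    have e2 : mmI (sigV K rep c) B H w h n U (b :: T) = bmI (sigV K rep c) B H b.2
      (zd B H w h n U b.1) + mmI (sigV K rep c) B H w h n U T := by simp [mmI]
    rw [e1, e2, add_sub_add_comm, h6, okF_spec h2, h1', cf_range,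
      ← Finset.sum_Ioo_add_eq_sum_Ico (show k < n by omega)]
    have e3 : Finset.Ico (k + 1) n = Finset.Ioo k n := by
      ext j
      simp only [Finset.mem_Ico, Finset.mem_Ioo]
      omega
    rw [e3, add_comm]
    congr 1
    rw [Complex.re_sum]
    apply Finset.sum_congr rfl
    intro i hi
    have hi' : i < k + 1 := Finset.mem_range.1 hi
    have hl := uok_len hU
    have hlt : 2 * (U.length : ℤ) * (((w : ℤ) - 1) * ((w : ℤ) - 1)) < H := by
      have a1 : ((2 * n * (w * w) : ℕ) : ℤ) ≤ H := by exact_mod_cast hH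
      have a2 : (1 : ℤ) ≤ w := by omega
      have a3 : (1 : ℤ) ≤ n := by omega
      rw [hl]
      push_cast at a1
      have h4 : 0 < 2 * (n : ℤ) * (2 * w - 1) :=
        mul_pos (by linarith only [a3]) (by linarith only [a2])
      have h5 : 2 * (n : ℤ) * (((w : ℤ) - 1) * ((w : ℤ) - 1))
          = 2 * (n : ℤ) * ((w : ℤ) * w) - 2 * (n : ℤ) * (2 * w - 1) := by ring
      linarith only [a1, h4, h5]
    have g1 : ∀ j < n, |Gre w h U j k| < H := fun j _ => lt_of_le_of_lt (Gre_abs w h hhw U j k) hlt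
    have g2 : ∀ j < n, |Gim w h U j k| < H := fun j _ => lt_of_le_of_lt (Gim_abs w h hhw U j k) hlt
    have p1 := packed B H n (cr B w h U k) (cq B w h U k) (fun j => Gre w h U j k) hB
      (cr_cq B w h hw0 hw U n k hU (by omega)) g1 i (by omega)
    have p2 := packed B H n (ci B w h U k) (cq B w h U k) (fun j => Gim w h U j k) hB
      (ci_cq B w h hw0 hw U n k hU (by omega)) g2 i (by omega)
    have d1 : dgo B H (zc B H w h n U k) i = Gre w h U i k := p1
    have d2 : dgo B H (zd B H w h n U k) i = Gim w h U i k := p2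
    rw [d1, d2, zero_add]
    have hv : vmo (prd (bm bas i, bm bas k)) = true := by
      have := List.all_eq_true.1 h3 i (by
        rw [List.mem_range'_1]
        omega)
      exact this
    have q1 : mc c (qik bas k i).1 = bv c (bm bas i) * conj (bv c (bm bas k)) := mc_prd c hv
    rw [q1]
    change (GG w h U i k * _).re = _
    by_cases hik : i < k
    · have q2 : (qik bas k i).2 = 1 := by
        have : Nat.beq i k = false := by
          rw [Bool.eq_false_iff]
          intro h0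
          have := Nat.eq_of_beq_eq_true h0
          omega
        simp only [qik, this, cond_false]
      rw [q2, if_pos hik, pow_one]
      have : GG w h U i k * ((2 : ℂ) * (bv c (bm bas i) * conj (bv c (bm bas k))))
          = ((2 : ℝ) : ℂ) * (GG w h U i k * (bv c (bm bas i) * conj (bv c (bm bas k)))) := by
        push_cast
        ring
      rw [this, Complex.re_ofReal_mul]
    · have hik' : i = k := by omega
      have q2 : (qik bas k i).2 = 0 := by
        have : Nat.beq i k = true := by rw [hik']; exact Nat.beq_refl k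
        simp only [qik, this, cond_true]
      rw [q2, if_neg hik, pow_zero, one_mul, one_mul]

/-- the decoded multipliers -/
def dec6 (w h : ℕ) : List (List Mo) → List (ℕ × ℕ) → Pol
  | [], _ => []
  | (_ :: _), [] => []
  | (ms :: gm), (xy :: l) => upl w h ms xy.1 xy.2 ++ dec6 w h gm l

theorem okGs_spec {K : ℕ} {rep : ℕ → ℕ} (P : Par) (hs : P.sr ≠ 0) (hb : P.bd ≠ 0) (c : ℕ → ℂ)
    (w h : ℕ) (gs : List Grp) (gm : List (List Mo)) (hg : List.Forall₂ (GrpOK K rep) gs gm) :
    ∀ l : List (ℕ × ℕ),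
    gsmR P (rhoV K rep c) w h gs l + gsmI P (sigV K rep c) w h gs l
      = (P.sr * P.bd : ℝ) * (rel (((P.p : ℂ) + P.q * Complex.I) / P.sr) ((P.bn : ℂ) / P.bd) c
          (dec6 w h gm l)).re := by
  induction hg with
  | nil =>
    intro l
    simp [gsmR, gsmI, dec6, Pool.Agent.M16.Helper12.HR2.rel_nil]
  | cons hg0 _ ih =>
    intro l
    rcases l with _ | ⟨xy, l⟩
    · simp [gsmR, gsmI, dec6, Pool.Agent.M16.Helper12.HR2.rel_nil]
    · have h1 := grp_spec hg0 P hs hb c w h xy.1 xy.2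
      have h2 := ih l
      simp only [gsmR, gsmI, dec6, Pool.Agent.M16.Helper12.HR2.rel_append, Complex.add_re]
      rw [mul_add, ← h1, ← h2]
      ring

/-- correctness of the tables -/
structure TabOK6 (t : Tab6) (K : ℕ) (rep : ℕ → ℕ) (bas qm : List Mo) (gm : List (List Mo))
    (prs : List (ℕ × ℕ)) : Prop where
  num : NumOK t K
  npos : 0 < t.n
  one : rep (t.one / K) = 0
  q : okF K rep (fun m => (cod m, 0)) t.q qm = true
  qv : qm.all vmo = true
  g : List.Forall₂ (GrpOK K rep) t.g gm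
  c : okC K rep bas t.n 0 t.c = true
  d : okF K rep (fun m => (cod (prd (m, m)), 0)) t.d bas = true
  dv : bas.all (fun m => vmo (prd (m, m))) = true
  nB : bas.length = t.nB
  r : okF K rep (fun p => (cod (prd (bm bas p.1, bm bas p.2)), 0)) t.r prs = true
  rv : prs.all (fun p => vmo (prd (bm bas p.1, bm bas p.2)) && Nat.ble (p.1 + 1) bas.length &&
    Nat.ble (p.2 + 1) bas.length) = true
  nR : prs.length = t.nR

theorem sab_succ (w h n x : ℕ) : sab w h (n + 1) x = ((x % w - h) + (h - x % w)) + sab w h n (x / w) :=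
  rfl

theorem cf_le {S : Type} (F : S → ℂ) (w h : ℕ) (M : ℝ) (ms : List S) (hM : ∀ m ∈ ms, ‖F m‖ ≤ M) :
    ∀ (x y : ℕ), ‖cf F w h ms x y‖ ≤ ((sab w h ms.length x + sab w h ms.length y : ℕ) : ℝ) * M := by
  induction ms with
  | nil => intro x y; simp [cf, sab]
  | cons m ms ih =>
    intro x y
    have h1 := ih (fun m' h' => hM m' (by simp [h'])) (x / w) (y / w)
    have h2 := hM m (by simp)
    rw [cf, List.length_cons, sab_succ, sab_succ]
    have h3 : ∀ z : ℕ, ((((z % w : ℕ) : ℤ) - h).natAbs : ℕ) = (z % w - h) + (h - z % w) := by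
      intro z
      omega
    have h4 : ‖gv ((((x % w : ℕ) : ℤ) - h), (((y % w : ℕ) : ℤ) - h))‖
        ≤ ((((x % w - h) + (h - x % w)) + ((y % w - h) + (h - y % w)) : ℕ) : ℝ) := by
      rw [← h3, ← h3]
      unfold gv
      refine (norm_add_le _ _).trans ?_
      rw [norm_mul, Complex.norm_I, mul_one]
      simp only
      rw [Complex.norm_intCast, Complex.norm_intCast, Nat.cast_add, Nat.cast_natAbs,
        Nat.cast_natAbs, Int.cast_abs, Int.cast_abs]
    refine (norm_add_le _ _).trans ?_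
    rw [norm_mul]
    have h5 := mul_le_mul h4 h2 (norm_nonneg _) (Nat.cast_nonneg _)
    have h6 : (((x % w - h + (h - x % w) + sab w h ms.length (x / w)
        + (y % w - h + (h - y % w) + sab w h ms.length (y / w)) : ℕ)) : ℝ) * M
        = (((x % w - h) + (h - x % w) + ((y % w - h) + (h - y % w)) : ℕ) : ℝ) * M
          + ((sab w h ms.length (x / w) + sab w h ms.length (y / w) : ℕ) : ℝ) * M := by
      push_cast
      ring
    rw [h6]
    exact add_le_add h5 h1

theorem fm_nonneg {S : Type} (F : S → ℝ) (w : ℕ) (ms : List S) (hF : ∀ m ∈ ms, 0 ≤ F m) :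
    ∀ x : ℕ, 0 ≤ fm F w 0 ms x := by
  induction ms with
  | nil => intro x; simp [fm]
  | cons m ms ih =>
    intro x
    rw [fm, zsmul_eq_mul]
    have h1 := ih (fun m' h' => hF m' (by simp [h'])) (x / w)
    have h2 := hF m (by simp)
    have h3 : (0 : ℝ) ≤ (((((x % w : ℕ) : ℤ) - (0 : ℕ)) : ℤ) : ℝ) := by
      push_cast
      rw [sub_zero]
      exact Nat.cast_nonneg _
    exact add_nonneg (mul_nonneg h3 h2) h1

theorem fm_ones {S : Type} (F : S → ℝ) (ms : List S) :
    fm F 2 0 ms (2 ^ ms.length - 1) = (ms.map F).sum := by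
  induction ms with
  | nil => rfl
  | cons m ms ih =>
    rw [fm, List.length_cons, List.map_cons, List.sum_cons]
    have h1 : (2 ^ (ms.length + 1) - 1) / 2 = 2 ^ ms.length - 1 := by
      rw [pow_succ]
      omega
    have h2 : (2 ^ (ms.length + 1) - 1) % 2 = 1 := by
      have := Nat.one_le_two_pow (n := ms.length)
      rw [pow_succ]
      omega
    rw [h1, h2, ih]
    simp

theorem isz_eq {x : ℤ} (h : isz x = true) : x = 0 := by
  rcases x with n | n
  · have h1 : n = 0 := Nat.eq_of_beq_eq_true h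
    rw [h1]
    rfl
  · exact absurd h (by simp [isz])

/-- **Soundness of the second check.** -/
theorem sound6 {t : Tab6} {K : ℕ} {rep : ℕ → ℕ} {bas qm : List Mo} {gm : List (List Mo)}
    {prs : List (ℕ × ℕ)} (ht : TabOK6 t K rep bas qm gm prs) (C : Cert6) (hR : chR t C = true)
    (hI : chI t C = true) (hBb : chB t K C = true) (c : ℕ → ℂ) :
    (C.eta : ℝ) + (pv c (fun k => conj (c k)) (upl C.wQ C.hQ qm C.qx C.qy)).re
      + C.mL * (rel (((C.P.p : ℂ) + C.P.q * Complex.I) / C.P.sr) ((C.P.bn : ℂ) / C.P.bd) c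
        (dec6 C.wL C.hL gm C.G)).re ≤ 0 := by
  have hb0 : ((Nat.ble (Nat.succ (nF t C)) (2 ^ K) && uok C.U t.n)
    && (Nat.ble (2 * (sab C.wR C.hR t.nR C.rx + sab C.wR C.hR t.nR C.ry)) C.eps
      && ((Nat.ble 1 C.P.sr && (Nat.ble 1 C.P.bd && (Nat.ble 1 C.m1 && Nat.ble 1 C.wD)))
        && ((Nat.ble (Nat.succ C.hL) C.wL && Nat.ble C.wL (Nat.succ (2 * C.hL)))
          && ((Nat.ble (Nat.succ C.hR) C.wR && Nat.ble C.wR (Nat.succ (2 * C.hR)))
            && ((Nat.ble (Nat.succ C.hQ) C.wQ && Nat.ble C.wQ (Nat.succ (2 * C.hQ)))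
              && ((Nat.ble (Nat.succ C.hU) C.wU && Nat.ble C.wU (Nat.succ (2 * C.hU)))
                && (Nat.beq C.wG (2 * C.hG)
                  && Nat.ble (2 * t.n * (C.wU * C.wU)) C.hG)))))))) = true := hBb
  simp only [Bool.and_eq_true, Nat.ble_eq] at hb0
  obtain ⟨⟨hn, hU⟩, heps, ⟨hsr, hbd, hm1, hwD⟩, ⟨hL1, hL2⟩, ⟨hR1, hR2⟩, ⟨hQ1, hQ2⟩, ⟨hU1, hU2⟩,
    hG1, hG2⟩ := hb0
  have hG1' := Nat.eq_of_beq_eq_true hG1
  have hwU : 1 ≤ C.wU := by omega
  have hH : 1 ≤ C.hG := by
    have h1 := ht.npos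
    have h2 : 1 ≤ C.wU * C.wU := Nat.mul_pos hwU hwU
    have h3 : 1 ≤ 2 * t.n * (C.wU * C.wU) := Nat.mul_pos (by omega) h2
    omega
  have z1 := FRm_zero ht.num C (by omega) (by omega) (by omega) (by omega) (by omega) (by omega)
    (by rw [← FR_eq]; exact isz_eq hR) (fun j => (mc c (rep j)).re)
  have z2 := FIm_zero ht.num C (by omega) (by omega) (by omega) (by omega) (by omega)
    (by rw [← FI_eq t C (by omega) (by omega) (by omega) (by omega) (by omega) (by omega)
      (by omega) (by omega)]; exact isz_eq hI) (fun j => (mc c (rep j)).im)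
  change FRm t C (rhoV K rep c) = 0 at z1
  change FIm t C (sigV K rep c) = 0 at z2
  have hsr0 : C.P.sr ≠ 0 := by omega
  have hbd0 : C.P.bd ≠ 0 := by omega
  -- the constant
  have e0 : rhoV K rep c t.one = 1 := by
    rw [rhoV, vs_zero _ ht.num.one, ht.one]
    simp [mc, dig]
  -- the form
  have e1 : bmR (rhoV K rep c) C.wQ C.hQ t.q C.qx - bmI (sigV K rep c) C.wQ C.hQ t.q C.qy
      = (pv c (fun k => conj (c k)) (upl C.wQ C.hQ qm C.qx C.qy)).re := by
    rw [okF_spec ht.q c C.wQ C.hQ C.qx C.qy, pv_upl]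
    congr 1
    apply cf_congr
    intro m hm
    have := List.all_eq_true.1 ht.qv m hm
    simp only [pow_zero, one_mul]
    exact mc_cod c this
  -- the multipliers
  have e2 := okGs_spec C.P hsr0 hbd0 c C.wL C.hL t.g gm ht.g C.G
  -- the Gram matrix
  have e3 : 0 ≤ mmR (rhoV K rep c) C.wG C.hG C.wU C.hU t.n C.U t.c
      - mmI (sigV K rep c) C.wG C.hG C.wU C.hU t.n C.U t.c := by
    rw [(okC_spec c C.wG C.hG C.wU C.hU C.U hG1' (by omega) (by omega) (by omega) hU hG2 t.c 0
      ht.c).2, ← Finset.range_eq_Ico]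
    exact SP_nonneg C.wU C.hU C.U t.n (fun i => bv c (bm bas i)) hU
  -- the squares
  have sq : ∀ m ∈ bas, ((2 ^ 0 : ℂ) * mc c (cod (prd (m, m)))).re = ‖bv c m‖ ^ 2 := by
    intro m hm
    have h1 := List.all_eq_true.1 ht.dv m hm
    rw [pow_zero, one_mul, mc_prd c h1]
    simp only
    rw [Complex.mul_conj, Complex.ofReal_re, Complex.normSq_eq_norm_sq]
  have e4 : 0 ≤ bmR (rhoV K rep c) C.wD 0 t.d C.dg := by
    rw [okF_spec_re ht.d]
    apply fm_nonneg
    intro m hm
    rw [sq m hm]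
    exact sq_nonneg _
  obtain ⟨S, hS⟩ : ∃ S : ℝ, bmR (rhoV K rep c) 2 0 t.d (2 ^ t.nB - 1) = S := ⟨_, rfl⟩
  have hS1 : S = (bas.map (fun m => ‖bv c m‖ ^ 2)).sum := by
    rw [← hS, okF_spec_re ht.d, ← ht.nB, fm_ones]
    congr 1
    exact List.map_congr_left sq
  have hS2 : ∀ m ∈ bas, ‖bv c m‖ ^ 2 ≤ S := by
    intro m hm
    rw [hS1]
    exact List.single_le_sum (by
      intro x hx
      obtain ⟨m', -, rfl⟩ := List.mem_map.1 hx
      exact sq_nonneg _) _ (List.mem_map.2 ⟨m, hm, rfl⟩)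
  have hS0 : 0 ≤ S := by
    rw [hS1]
    apply List.sum_nonneg
    intro x hx
    obtain ⟨m', -, rfl⟩ := List.mem_map.1 hx
    exact sq_nonneg _
  -- the residual
  have e5 : |bmR (rhoV K rep c) C.wR C.hR t.r C.rx - bmI (sigV K rep c) C.wR C.hR t.r C.ry|
      ≤ ((sab C.wR C.hR t.nR C.rx + sab C.wR C.hR t.nR C.ry : ℕ) : ℝ) * S := by
    rw [okF_spec ht.r c C.wR C.hR C.rx C.ry, ← ht.nR]
    refine (Complex.abs_re_le_norm _).trans (cf_le _ C.wR C.hR S prs ?_ C.rx C.ry)
    intro p hp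
    have h1 := List.all_eq_true.1 ht.rv p hp
    simp only [Bool.and_eq_true, Nat.ble_eq] at h1
    obtain ⟨⟨h2, h3⟩, h4⟩ := h1
    rw [pow_zero, one_mul, mc_prd c h2]
    simp only
    rw [norm_mul, Complex.norm_conj]
    have k1 : bm bas p.1 ∈ bas := by
      rw [bm, List.getD_eq_getElem _ _ (by omega)]
      exact List.getElem_mem _
    have k2 : bm bas p.2 ∈ bas := by
      rw [bm, List.getD_eq_getElem _ _ (by omega)]
      exact List.getElem_mem _
    nlinarith only [hS2 _ k1, hS2 _ k2]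
  -- the sum
  unfold FRm TRm at z1
  unfold FIm TIm at z2
  simp only [zsmul_eq_mul, e0, hS] at z1 z2
  push_cast at z1 z2
  generalize hT : (C.eta : ℝ) + (pv c (fun k => conj (c k)) (upl C.wQ C.hQ qm C.qx C.qy)).re
      + C.mL * (rel (((C.P.p : ℂ) + C.P.q * Complex.I) / C.P.sr) ((C.P.bn : ℂ) / C.P.bd) c
        (dec6 C.wL C.hL gm C.G)).re = T
  generalize (rel (((C.P.p : ℂ) + C.P.q * Complex.I) / C.P.sr) ((C.P.bn : ℂ) / C.P.bd) c
        (dec6 C.wL C.hL gm C.G)).re = X at e2 hT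
  generalize (pv c (fun k => conj (c k)) (upl C.wQ C.hQ qm C.qx C.qy)).re = Y at e1 hT
  generalize bmR (rhoV K rep c) C.wQ C.hQ t.q C.qx = Q1 at e1 z1
  generalize bmI (sigV K rep c) C.wQ C.hQ t.q C.qy = Q2 at e1 z2
  generalize gsmR C.P (rhoV K rep c) C.wL C.hL t.g C.G = G1 at e2 z1
  generalize gsmI C.P (sigV K rep c) C.wL C.hL t.g C.G = G2 at e2 z2
  generalize mmR (rhoV K rep c) C.wG C.hG C.wU C.hU t.n C.U t.c = M1 at e3 z1
  generalize mmI (sigV K rep c) C.wG C.hG C.wU C.hU t.n C.U t.c = M2 at e3 z2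
  generalize bmR (rhoV K rep c) C.wD 0 t.d C.dg = D1 at e4 z1
  generalize bmR (rhoV K rep c) C.wR C.hR t.r C.rx = R1 at e5 z1
  generalize bmI (sigV K rep c) C.wR C.hR t.r C.ry = R2 at e5 z2
  have f1 : 2 * (C.m1 : ℝ) * ((C.P.sr * C.P.bd : ℝ) * T) + C.m2 * (M1 - M2) + D1 + C.eps * S
      + 2 * (R1 - R2) = 0 := by
    rw [← hT, ← e1]
    have e2' : (C.mL : ℝ) * ((C.P.sr * C.P.bd : ℝ) * X) = C.mL * (G1 + G2) := by rw [e2]
    linear_combination z1 - z2 + 2 * (C.m1 : ℝ) * e2'
  have f2 : 0 ≤ (C.m2 : ℝ) * (M1 - M2) := mul_nonneg (Nat.cast_nonneg _) e3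
  have f3 : (((sab C.wR C.hR t.nR C.rx + sab C.wR C.hR t.nR C.ry : ℕ) : ℝ) * S) * 2
      ≤ C.eps * S := by
    have h1 : ((2 * (sab C.wR C.hR t.nR C.rx + sab C.wR C.hR t.nR C.ry) : ℕ) : ℝ) ≤ C.eps := by
      exact_mod_cast heps
    have h2 := mul_le_mul_of_nonneg_right h1 hS0
    push_cast at h2 ⊢
    linarith only [h2]
  have f4 := (abs_le.1 e5).1
  have f5 : (C.m1 : ℝ) * ((C.P.sr * C.P.bd : ℝ) * T) ≤ 0 := by linarith only [e4, f1, f2, f3, f4]
  have f6 : (0 : ℝ) < C.m1 * (C.P.sr * C.P.bd) := by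
    have a1 : (0 : ℝ) < C.m1 := by exact_mod_cast hm1
    have a2 : (0 : ℝ) < C.P.sr := by exact_mod_cast hsr
    have a3 : (0 : ℝ) < C.P.bd := by exact_mod_cast hbd
    positivity
  by_contra hneg
  have f7 : 0 < T := not_le.1 hneg
  nlinarith only [f5, f6, hneg]

end Pool.Agent.M16.Helper54.HR2

end

section

set_option autoImplicit false

namespace Pool.Agent.M16.Helper98.HR2

open Pool.Agent.M16.Helper12.HR2 (Mo GZ gv Pol mv pv upl pv_cons pv_nil)

end Pool.Agent.M16.Helper98.HR2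

end

end

section

namespace Pool.Agent.M16.Helper22.Half
end Pool.Agent.M16.Helper22.Half

section

/-!
Coefficients of `(1 - x)^{-z}` and algebraic identities for palindromic sequences.
-/

set_option autoImplicit false

namespace Pool.Agent.M16.Helper22.Half

section generic

variable {𝕜 : Type*} [Field 𝕜] [CharZero 𝕜]

/-- coefficients of `(1-x)^{-z}` -/
def pq (z : 𝕜) : ℕ → 𝕜
  | 0 => 1
  | n + 1 => pq z n * ((z + n) / (n + 1))

omit [CharZero 𝕜] in
theorem pq_zero (z : 𝕜) : pq z 0 = 1 := rfl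

omit [CharZero 𝕜] in
theorem pq_succ (z : 𝕜) (n : ℕ) : pq z (n + 1) = pq z n * ((z + n) / (n + 1)) := rfl

theorem pq_succ' (z : 𝕜) (n : ℕ) : ((n : 𝕜) + 1) * pq z (n + 1) = pq z n * (z + n) := by
  rw [pq_succ]
  have : (n : 𝕜) + 1 ≠ 0 := Nat.cast_add_one_ne_zero n
  field_simp

theorem pq_shift (z : 𝕜) (n : ℕ) : ((n : 𝕜) + 1) * pq z (n + 1) = z * pq (z + 1) n := by
  induction n with
  | zero => simp [pq]
  | succ n ih =>
    rw [pq_succ', pq_succ (z + 1) n]
    have h : (n : 𝕜) + 1 ≠ 0 := Nat.cast_add_one_ne_zero n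
    have e : z * (pq (z + 1) n * ((z + 1 + n) / (n + 1)))
        = (z * pq (z + 1) n) * ((z + 1 + n) / (n + 1)) := by ring
    rw [e, ← ih]
    push_cast
    field_simp
    ring

theorem pq_add_one (z : 𝕜) (n : ℕ) : z * pq (z + 1) n = pq z n * (z + n) := by
  rw [← pq_shift, pq_succ']

theorem pq_one (n : ℕ) : pq (1 : 𝕜) n = 1 := by
  induction n with
  | zero => rfl
  | succ n ih =>
    rw [pq_succ, ih]
    have h : (n : 𝕜) + 1 ≠ 0 := Nat.cast_add_one_ne_zero n
    rw [add_comm (1 : 𝕜), div_self h, one_mul]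

theorem pq_two (n : ℕ) : pq (2 : 𝕜) n = n + 1 := by
  have h := pq_add_one (1 : 𝕜) n
  rw [pq_one, one_mul, one_mul, one_add_one_eq_two] at h
  rw [h]; ring

/-- Vandermonde's identity -/
theorem vander (z w : 𝕜) (M : ℕ) :
    ∑ k ∈ Finset.range (M + 1), pq z k * pq w (M - k) = pq (z + w) M := by
  induction M with
  | zero => simp [pq]
  | succ M ih =>
    have h1 : ∑ k ∈ Finset.range (M + 2), (k : 𝕜) * (pq z k * pq w (M + 1 - k))
        = ∑ k ∈ Finset.range (M + 1), (z + k) * (pq z k * pq w (M - k)) := by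
      rw [Finset.sum_range_succ']
      simp only [Nat.cast_zero, zero_mul, add_zero]
      apply Finset.sum_congr rfl
      intro k _
      have e : M + 1 - (k + 1) = M - k := by omega
      rw [e]
      have := pq_succ' z k
      push_cast
      linear_combination (pq w (M - k)) * this
    have h2 : ∑ k ∈ Finset.range (M + 2), ((M + 1 - k : ℕ) : 𝕜) * (pq z k * pq w (M + 1 - k))
        = ∑ k ∈ Finset.range (M + 1), (w + (M - k : ℕ)) * (pq z k * pq w (M - k)) := by
      rw [Finset.sum_range_succ]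
      simp only [Nat.sub_self, Nat.cast_zero, zero_mul, add_zero]
      apply Finset.sum_congr rfl
      intro k hk
      rw [Finset.mem_range] at hk
      have e : M + 1 - k = (M - k) + 1 := by omega
      rw [e]
      have := pq_succ' w (M - k)
      push_cast at this ⊢
      linear_combination (pq z k) * this
    have h3 : ((M : 𝕜) + 1) * ∑ k ∈ Finset.range (M + 2), pq z k * pq w (M + 1 - k)
        = (z + w + M) * ∑ k ∈ Finset.range (M + 1), pq z k * pq w (M - k) := by
      have e1 : ((M : 𝕜) + 1) * ∑ k ∈ Finset.range (M + 2), pq z k * pq w (M + 1 - k)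
          = ∑ k ∈ Finset.range (M + 2), (k : 𝕜) * (pq z k * pq w (M + 1 - k))
            + ∑ k ∈ Finset.range (M + 2), ((M + 1 - k : ℕ) : 𝕜) * (pq z k * pq w (M + 1 - k)) := by
        rw [← Finset.sum_add_distrib, Finset.mul_sum]
        apply Finset.sum_congr rfl
        intro k hk
        rw [Finset.mem_range] at hk
        rw [Nat.cast_sub (by omega)]
        push_cast
        ring
      rw [e1, h1, h2, ← Finset.sum_add_distrib, Finset.mul_sum]
      apply Finset.sum_congr rfl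
      intro k hk
      rw [Finset.mem_range] at hk
      rw [Nat.cast_sub (by omega)]
      ring
    rw [ih] at h3
    have h4 := pq_succ' (z + w) M
    have h5 : ((M : 𝕜) + 1) ≠ 0 := Nat.cast_add_one_ne_zero M
    apply mul_left_cancel₀ h5
    rw [h3, h4]
    ring

end generic

/-- the coefficients `A_{M,k}` of the partial fraction expansion -/
noncomputable def Ac (s : ℂ) (M k : ℕ) : ℂ :=
  ((M - k : ℕ) : ℂ) * pq (1 + s) (M - k) * pq (-s) k

theorem conv_one (s : ℂ) (M : ℕ) :
    ∑ k ∈ Finset.range (M + 1), pq (1 + s) (M - k) * pq (-s) k = 1 := by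
  have h := vander (-s) (1 + s) M
  have e : -s + (1 + s) = 1 := by ring
  rw [e, pq_one] at h
  refine Eq.trans ?_ h
  apply Finset.sum_congr rfl
  intro k _
  ring

theorem conv_moment (s : ℂ) (M : ℕ) :
    ∑ k ∈ Finset.range M, Ac s M k = (1 + s) * M := by
  cases M with
  | zero => simp
  | succ M =>
    have h := vander (-s) (2 + s) M
    have e : -s + (2 + s) = 2 := by ring
    rw [e, pq_two] at h
    push_cast
    rw [← h, Finset.mul_sum]
    apply Finset.sum_congr rfl
    intro k hk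
    rw [Finset.mem_range] at hk
    unfold Ac
    have e2 : M + 1 - k = (M - k) + 1 := by omega
    rw [e2]
    have h2 := pq_shift (1 + s) (M - k)
    have e3 : (1 + s + 1 : ℂ) = 2 + s := by ring
    rw [e3] at h2
    push_cast
    linear_combination (pq (-s) k) * h2

theorem Ac_succ (s : ℂ) {M k : ℕ} (hk : k < M) :
    Ac s (M + 1) k * ((M - k : ℕ) : ℂ) = Ac s M k * (((M - k : ℕ) : ℂ) + (1 + s)) := by
  unfold Ac
  have e : M + 1 - k = (M - k) + 1 := by omega
  rw [e]
  have h := pq_succ' (1 + s) (M - k)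
  push_cast
  linear_combination (pq (-s) k * ((M - k : ℕ) : ℂ)) * h

/-- partial fraction expansion of a quotient of coefficients -/
theorem partial_frac (s : ℂ) (p : ℕ) (hs : ∀ k : ℕ, ((p + k : ℕ) : ℂ) - s ≠ 0) (M : ℕ) :
    pq (-s) p = pq (-s) (p + M) * (1 + ∑ k ∈ Finset.range M, Ac s M k / (((p + k : ℕ) : ℂ) - s)) := by
  induction M with
  | zero => simp
  | succ M ih =>
    have hne := hs M
    have hpM : pq (-s) (p + M) * (((p + M : ℕ) : ℂ) - s)
        = pq (-s) (p + M + 1) * (((p + M : ℕ) : ℂ) + 1) := by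
      have := pq_succ' (-s) (p + M)
      linear_combination -this
    have h1 : pq (-s) (p + M) = pq (-s) (p + (M + 1)) * ((((p + M : ℕ) : ℂ) + 1)
        / (((p + M : ℕ) : ℂ) - s)) := by
      rw [← add_assoc, mul_div_assoc', eq_div_iff hne, hpM]
    rw [ih, h1, mul_assoc]
    congr 1
    -- the coefficient identity
    have h2 : ∀ k ∈ Finset.range M, Ac s M k / (((p + k : ℕ) : ℂ) - s)
        * ((((p + M : ℕ) : ℂ) + 1) / (((p + M : ℕ) : ℂ) - s))
        = Ac s (M + 1) k / (((p + k : ℕ) : ℂ) - s)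
          - (1 + s) * (pq (1 + s) (M - k) * pq (-s) k) / (((p + M : ℕ) : ℂ) - s) := by
      intro k hk
      rw [Finset.mem_range] at hk
      have hk1 := hs k
      have hMk : ((M - k : ℕ) : ℂ) ≠ 0 := by
        have : M - k ≠ 0 := by omega
        exact_mod_cast this
      have e1 : Ac s (M + 1) k = Ac s M k * (((M - k : ℕ) : ℂ) + (1 + s)) / ((M - k : ℕ) : ℂ) := by
        rw [eq_div_iff hMk, Ac_succ s hk]
      have e2 : pq (1 + s) (M - k) * pq (-s) k = Ac s M k / ((M - k : ℕ) : ℂ) := by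
        rw [eq_div_iff hMk]
        unfold Ac; ring
      rw [e1, e2]
      have e3 : ((p + M : ℕ) : ℂ) = ((p + k : ℕ) : ℂ) + ((M - k : ℕ) : ℂ) := by
        rw [← Nat.cast_add]; congr 1; omega
      rw [e3] at hne ⊢
      field_simp
      ring
    rw [mul_add, mul_one, mul_comm _ (∑ k ∈ Finset.range M, _), Finset.sum_mul,
      Finset.sum_congr rfl h2, Finset.sum_sub_distrib, Finset.sum_range_succ (fun k => Ac s (M + 1) k / _)]
    have h3 : ∑ k ∈ Finset.range M, (1 + s) * (pq (1 + s) (M - k) * pq (-s) k)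
        / (((p + M : ℕ) : ℂ) - s) = (1 + s) * (1 - pq (-s) M) / (((p + M : ℕ) : ℂ) - s) := by
      rw [← Finset.sum_div, ← Finset.mul_sum]
      have h4 := conv_one s M
      rw [Finset.sum_range_succ, Nat.sub_self, pq_zero, one_mul] at h4
      have h4' : ∑ k ∈ Finset.range M, pq (1 + s) (M - k) * pq (-s) k = 1 - pq (-s) M := by
        linear_combination h4
      rw [h4']
    rw [h3]
    have h5 : Ac s (M + 1) M = (1 + s) * pq (-s) M := by
      unfold Ac
      have : M + 1 - M = 1 := by omega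
      rw [this]
      simp [pq]
    rw [h5]
    field_simp
    ring

theorem sum_tri (f : ℕ → ℕ → ℂ) (m : ℕ) :
    ∑ l ∈ Finset.range (m + 1), ∑ k ∈ Finset.range (m - l), f l (l + k)
      = ∑ i ∈ Finset.range m, ∑ l ∈ Finset.range (i + 1), f l i := by
  rw [Finset.sum_sigma', Finset.sum_sigma']
  apply Finset.sum_bij' (i := fun (x : (_ : ℕ) × ℕ) _ => (⟨x.1 + x.2, x.1⟩ : (_ : ℕ) × ℕ))
    (j := fun (x : (_ : ℕ) × ℕ) _ => (⟨x.2, x.1 - x.2⟩ : (_ : ℕ) × ℕ))
  · rintro ⟨l, k⟩ h
    simp only [Finset.mem_sigma, Finset.mem_range] at h ⊢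
    omega
  · rintro ⟨i, l⟩ h
    simp only [Finset.mem_sigma, Finset.mem_range] at h ⊢
    omega
  · rintro ⟨l, k⟩ h
    simp only [Finset.mem_sigma, Finset.mem_range] at h ⊢
    simp
  · rintro ⟨i, l⟩ h
    simp only [Finset.mem_sigma, Finset.mem_range] at h ⊢
    have : l + (i - l) = i := by omega
    simp [this]
  · rintro ⟨l, k⟩ h
    simp

/-- the sequence `V_i = ∑_{l ≤ min(i,m)} c_{i-l} d_l` -/
noncomputable def Vd (s : ℂ) (d : ℕ → ℂ) (m i : ℕ) : ℂ :=
  ∑ l ∈ Finset.range (min i m + 1), pq (-s) (i - l) * d l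

theorem g_formula (s : ℂ) (d : ℕ → ℂ) (m : ℕ) (hd : ∀ l ≤ m, d l = d (m - l)) :
    (1 + s) * (m * ∑ l ∈ Finset.range (m + 1), d l) / 2
      = ∑ i ∈ Finset.range m, ((m - i : ℕ) : ℂ) * pq (1 + s) (m - i) * Vd s d m i := by
  have h1 : ∑ l ∈ Finset.range (m + 1), ((m - l : ℕ) : ℂ) * d l
      = m * (∑ l ∈ Finset.range (m + 1), d l) / 2 := by
    have h2 : ∑ l ∈ Finset.range (m + 1), ((m - l : ℕ) : ℂ) * d l
        = ∑ l ∈ Finset.range (m + 1), (l : ℂ) * d l := by
      rw [← Finset.sum_range_reflect]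
      apply Finset.sum_congr rfl
      intro l hl
      rw [Finset.mem_range] at hl
      have e1 : m + 1 - 1 - l = m - l := by omega
      have e2 : m - (m - l) = l := by omega
      rw [e1, e2, ← hd l (by omega)]
    have h3 : ∑ l ∈ Finset.range (m + 1), ((m - l : ℕ) : ℂ) * d l
        + ∑ l ∈ Finset.range (m + 1), (l : ℂ) * d l = m * ∑ l ∈ Finset.range (m + 1), d l := by
      rw [← Finset.sum_add_distrib, Finset.mul_sum]
      apply Finset.sum_congr rfl
      intro l hl
      rw [Finset.mem_range] at hl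
      rw [Nat.cast_sub (by omega)]
      ring
    rw [← h2] at h3
    linear_combination h3 / 2
  have h4 : (1 + s) * (m * ∑ l ∈ Finset.range (m + 1), d l) / 2
      = ∑ l ∈ Finset.range (m + 1), ∑ k ∈ Finset.range (m - l), Ac s (m - l) k * d l := by
    rw [mul_div_assoc, ← h1, Finset.mul_sum]
    apply Finset.sum_congr rfl
    intro l _
    rw [← Finset.sum_mul, conv_moment]
    ring
  rw [h4]
  have h5 := sum_tri (fun l i => ((m - i : ℕ) : ℂ) * pq (1 + s) (m - i) * pq (-s) (i - l) * d l) m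
  have h6 : ∑ l ∈ Finset.range (m + 1), ∑ k ∈ Finset.range (m - l), Ac s (m - l) k * d l
      = ∑ l ∈ Finset.range (m + 1), ∑ k ∈ Finset.range (m - l),
        ((m - (l + k) : ℕ) : ℂ) * pq (1 + s) (m - (l + k)) * pq (-s) (l + k - l) * d l := by
    apply Finset.sum_congr rfl
    intro l _
    apply Finset.sum_congr rfl
    intro k _
    unfold Ac
    have e1 : m - l - k = m - (l + k) := by omega
    have e2 : l + k - l = k := by omega
    rw [e1, e2]
  rw [h6, h5]
  apply Finset.sum_congr rfl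
  intro i hi
  rw [Finset.mem_range] at hi
  unfold Vd
  have e : min i m = i := by omega
  rw [e, Finset.mul_sum]
  apply Finset.sum_congr rfl
  intro l _
  ring

/-- the values beyond the palindrome in terms of those before -/
theorem V_formula (s : ℂ) (d : ℕ → ℂ) (m j : ℕ) (hm : 1 ≤ m) (h1s : 1 + s ≠ 0)
    (hd : ∀ l ≤ m, d l = d (m - l)) (hs : ∀ k : ℕ, ((j + k : ℕ) : ℂ) - s ≠ 0) :
    Vd s d m (m + j) = pq (-s) (m + j) * ∑ i ∈ Finset.range m,
      ((m - i : ℕ) : ℂ) * pq (1 + s) (m - i) * Vd s d m i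
        * (2 / (m * (1 + s)) + 1 / (((j + i : ℕ) : ℂ) - s)) := by
  have hm0 : (m : ℂ) ≠ 0 := by
    have : m ≠ 0 := by omega
    exact_mod_cast this
  -- reflect
  have h1 : Vd s d m (m + j) = ∑ l ∈ Finset.range (m + 1), pq (-s) (j + l) * d l := by
    unfold Vd
    have e : min (m + j) m = m := by omega
    rw [e, ← Finset.sum_range_reflect]
    apply Finset.sum_congr rfl
    intro l hl
    rw [Finset.mem_range] at hl
    have e1 : m + 1 - 1 - l = m - l := by omega
    have e2 : m + j - (m - l) = j + l := by omega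
    rw [e1, e2, ← hd l (by omega)]
  have h2 : ∀ l ∈ Finset.range (m + 1), pq (-s) (j + l) * d l = pq (-s) (m + j) * (d l
      + ∑ k ∈ Finset.range (m - l), Ac s (m - l) k * d l / (((j + (l + k) : ℕ) : ℂ) - s)) := by
    intro l hl
    rw [Finset.mem_range] at hl
    have h3 := partial_frac s (j + l) (fun k => by
      have := hs (l + k)
      rwa [← add_assoc] at this) (m - l)
    have e1 : j + l + (m - l) = m + j := by omega
    rw [e1] at h3
    rw [h3, mul_assoc]
    congr 1
    rw [add_mul, one_mul, Finset.sum_mul]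
    congr 1
    apply Finset.sum_congr rfl
    intro k _
    rw [add_assoc]
    ring
  rw [h1, Finset.sum_congr rfl h2, ← Finset.mul_sum, Finset.sum_add_distrib]
  congr 1
  have h5 := sum_tri (fun l i => ((m - i : ℕ) : ℂ) * pq (1 + s) (m - i) * pq (-s) (i - l) * d l
    / (((j + i : ℕ) : ℂ) - s)) m
  have h6 : ∑ l ∈ Finset.range (m + 1), ∑ k ∈ Finset.range (m - l), Ac s (m - l) k * d l
        / (((j + (l + k) : ℕ) : ℂ) - s)
      = ∑ l ∈ Finset.range (m + 1), ∑ k ∈ Finset.range (m - l),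
        ((m - (l + k) : ℕ) : ℂ) * pq (1 + s) (m - (l + k)) * pq (-s) (l + k - l) * d l
          / (((j + (l + k) : ℕ) : ℂ) - s) := by
    apply Finset.sum_congr rfl
    intro l _
    apply Finset.sum_congr rfl
    intro k _
    unfold Ac
    have e1 : m - l - k = m - (l + k) := by omega
    have e2 : l + k - l = k := by omega
    rw [e1, e2]
  rw [h6, h5]
  have h7 := g_formula s d m hd
  have h8 : ∑ l ∈ Finset.range (m + 1), d l = (2 / (m * (1 + s))) *
      ∑ i ∈ Finset.range m, ((m - i : ℕ) : ℂ) * pq (1 + s) (m - i) * Vd s d m i := by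
    rw [← h7]
    field_simp
  rw [h8, Finset.mul_sum, ← Finset.sum_add_distrib]
  apply Finset.sum_congr rfl
  intro i hi
  rw [Finset.mem_range] at hi
  have h9 : ∑ l ∈ Finset.range (i + 1), ((m - i : ℕ) : ℂ) * pq (1 + s) (m - i) * pq (-s) (i - l)
      * d l / (((j + i : ℕ) : ℂ) - s)
      = ((m - i : ℕ) : ℂ) * pq (1 + s) (m - i) * Vd s d m i / (((j + i : ℕ) : ℂ) - s) := by
    unfold Vd
    have e : min i m = i := by omega
    rw [e, Finset.mul_sum, Finset.sum_div]
    apply Finset.sum_congr rfl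
    intro l _
    ring
  rw [h9]
  ring

end Pool.Agent.M16.Helper22.Half

end

section

set_option autoImplicit false

namespace Pool.Agent.M16.Helper22.Half

theorem pq_pos {z : ℝ} (hz : 0 < z) (n : ℕ) : 0 < pq z n := by
  induction n with
  | zero => simp [pq]
  | succ n ih => rw [pq_succ]; positivity

theorem normSq_one_add (s : ℂ) (n : ℕ) :
    ‖1 + s + n‖ ^ 2 = ((n : ℝ) + 1) ^ 2 + 2 * s.re * (n + 1) + ‖s‖ ^ 2 := by
  rw [← Complex.normSq_eq_norm_sq, ← Complex.normSq_eq_norm_sq, Complex.normSq_apply,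
    Complex.normSq_apply]
  simp only [Complex.add_re, Complex.one_re, Complex.natCast_re, Complex.add_im, Complex.one_im,
    Complex.natCast_im]
  ring

theorem normSq_nat_sub (s : ℂ) (n : ℕ) :
    ‖(n : ℂ) - s‖ ^ 2 = (n : ℝ) ^ 2 - 2 * s.re * n + ‖s‖ ^ 2 := by
  rw [← Complex.normSq_eq_norm_sq, ← Complex.normSq_eq_norm_sq, Complex.normSq_apply,
    Complex.normSq_apply]
  simp only [Complex.sub_re, Complex.natCast_re, Complex.sub_im, Complex.natCast_im]
  ring

/-- the products `∏_{k=2}^{n+1} (1 + ρ / (k (k + 2r)))` -/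
noncomputable def kap (r ρ : ℝ) : ℕ → ℝ
  | 0 => 1
  | n + 1 => kap r ρ n * (1 + ρ / (((n : ℝ) + 2) * (n + 2 + 2 * r)))

theorem kap_zero (r ρ : ℝ) : kap r ρ 0 = 1 := rfl

theorem kap_succ (r ρ : ℝ) (n : ℕ) :
    kap r ρ (n + 1) = kap r ρ n * (1 + ρ / (((n : ℝ) + 2) * (n + 2 + 2 * r))) := rfl

theorem kap_ge_one {r ρ : ℝ} (hr : -1 < r) (hρ : 0 ≤ ρ) (n : ℕ) : 1 ≤ kap r ρ n := by
  induction n with
  | zero => exact le_rfl
  | succ n ih =>
    rw [kap_succ]
    have h1 : 0 ≤ ρ / (((n : ℝ) + 2) * (n + 2 + 2 * r)) := by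
      apply div_nonneg hρ
      have : (0 : ℝ) ≤ n := Nat.cast_nonneg n
      apply mul_nonneg <;> linarith only [hr]
    nlinarith only [ih, h1]

theorem kap_mono {r ρ : ℝ} (hr : -1 < r) (hρ : 0 ≤ ρ) {a b : ℕ} (hab : a ≤ b) :
    kap r ρ a ≤ kap r ρ b := by
  induction b, hab using Nat.le_induction with
  | base => exact le_rfl
  | succ n _ ih =>
    refine ih.trans ?_
    rw [kap_succ]
    have h0 := kap_ge_one hr hρ n
    have h1 : 0 ≤ ρ / (((n : ℝ) + 2) * (n + 2 + 2 * r)) := by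
      apply div_nonneg hρ
      have : (0 : ℝ) ≤ n := Nat.cast_nonneg n
      apply mul_nonneg <;> linarith only [hr]
    nlinarith only [h0, h1]

theorem norm_Q (s : ℂ) (hr : -1 < s.re) (n : ℕ) :
    ((n : ℝ) + 1) * ‖pq (1 + s) (n + 1)‖ ^ 2
      = ‖1 + s‖ ^ 2 * kap s.re (‖s‖ ^ 2) n * pq (2 + 2 * s.re) n := by
  induction n with
  | zero => simp [pq, kap]
  | succ n ih =>
    have h1 : ‖pq (1 + s) (n + 1 + 1)‖ ^ 2 = ‖pq (1 + s) (n + 1)‖ ^ 2
        * ((((n : ℝ) + 2) ^ 2 + 2 * s.re * (n + 2) + ‖s‖ ^ 2) / ((n : ℝ) + 2) ^ 2) := by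
      rw [pq_succ, norm_mul, norm_div, mul_pow, div_pow, normSq_one_add]
      have e : ‖((n + 1 : ℕ) : ℂ) + 1‖ = (n : ℝ) + 2 := by
        have : ((n + 1 : ℕ) : ℂ) + 1 = (((n : ℝ) + 2 : ℝ) : ℂ) := by push_cast; ring
        rw [this, Complex.norm_real, Real.norm_of_nonneg (by positivity)]
      rw [e]
      push_cast
      ring
    have h2 : (0 : ℝ) < (n : ℝ) + 2 + 2 * s.re := by
      have : (0 : ℝ) ≤ n := Nat.cast_nonneg n
      linarith only [hr]
    rw [h1, kap_succ, pq_succ (2 + 2 * s.re)]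
    push_cast
    have e2 : ((n : ℝ) + 1 + 1) * (‖pq (1 + s) (n + 1)‖ ^ 2
        * ((((n : ℝ) + 2) ^ 2 + 2 * s.re * (n + 2) + ‖s‖ ^ 2) / ((n : ℝ) + 2) ^ 2))
        = (((n : ℝ) + 1) * ‖pq (1 + s) (n + 1)‖ ^ 2)
        * ((((n : ℝ) + 2) ^ 2 + 2 * s.re * (n + 2) + ‖s‖ ^ 2) / (((n : ℝ) + 2) * (n + 1))) := by
      field_simp
      ring
    rw [e2, ih]
    field_simp
    ring

end Pool.Agent.M16.Helper22.Half

end

section

set_option autoImplicit false

namespace Pool.Agent.M16.Helper22.Half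

/-- the lower half form -/
noncomputable def Pf (s : ℂ) (b : ℝ) (d : ℕ → ℂ) (m : ℕ) : ℝ :=
  ∑ i ∈ Finset.range m, ((m - i : ℕ) : ℝ) * (pq (b + 1 - 2 * s.re) i)⁻¹ * ‖Vd s d m i‖ ^ 2

theorem Pf_nonneg {s : ℂ} {b : ℝ} (hσ : 0 < b + 1 - 2 * s.re) (d : ℕ → ℂ) (m : ℕ) :
    0 ≤ Pf s b d m := by
  apply Finset.sum_nonneg
  intro i _
  have := pq_pos hσ i
  positivity

end Pool.Agent.M16.Helper22.Half

end

section

set_option autoImplicit false

open MeasureTheory Set Filter Topology

open scoped Real Nat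

namespace Pool.Agent.M16.Helper24.HR2

open Pool.Agent.M16.Helper22.Half

theorem pq_prod (z : ℂ) (n : ℕ) : pq z n * (n ! : ℂ) = ∏ j ∈ Finset.range n, (z + j) := by
  induction n with
  | zero => simp [pq]
  | succ n ih =>
    rw [Finset.prod_range_succ, ← ih, pq_succ, Nat.factorial_succ]
    have h : (n : ℂ) + 1 ≠ 0 := Nat.cast_add_one_ne_zero n
    push_cast
    field_simp

theorem pq_ofReal (b : ℝ) (n : ℕ) : pq (b : ℂ) n = ((pq b n : ℝ) : ℂ) := by
  induction n with
  | zero => simp [pq]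
  | succ n ih =>
    rw [pq_succ, pq_succ, ih]
    push_cast
    ring

theorem pq_gammaSeq {z : ℂ} (hz : ∀ m : ℕ, z ≠ -m) {n : ℕ} (hn : n ≠ 0) :
    pq z n * (n : ℂ) ^ (1 - z) = (Complex.GammaSeq z n)⁻¹ * ((n : ℂ) / (z + n)) := by
  have hn0 : (n : ℂ) ≠ 0 := Nat.cast_ne_zero.mpr hn
  have hzn : z + n ≠ 0 := fun h => hz n (eq_neg_of_add_eq_zero_left h)
  have hf : (n ! : ℂ) ≠ 0 := Nat.cast_ne_zero.mpr (Nat.factorial_ne_zero n)
  have hp : (n : ℂ) ^ z ≠ 0 := by
    rw [Complex.cpow_def_of_ne_zero hn0]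
    exact Complex.exp_ne_zero _
  rw [Complex.GammaSeq, Finset.prod_range_succ, ← pq_prod, inv_div, Complex.cpow_sub _ _ hn0,
    Complex.cpow_one]
  field_simp

theorem tendsto_pq {z : ℂ} (hz : ∀ m : ℕ, z ≠ -m) :
    Tendsto (fun n : ℕ => pq z n * (n : ℂ) ^ (1 - z)) atTop (𝓝 (Complex.Gamma z)⁻¹) := by
  have h1 : Tendsto (fun n : ℕ => (n : ℂ) / (z + n)) atTop (𝓝 1) := by
    have h2 : Tendsto (fun n : ℕ => (z / (n : ℂ) + 1)⁻¹) atTop (𝓝 (0 + 1)⁻¹) := by
      apply Tendsto.inv₀
      · apply Tendsto.add _ tendsto_const_nhds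
        exact tendsto_const_div_atTop_nhds_zero_nat z
      · norm_num
    rw [zero_add, inv_one] at h2
    apply h2.congr'
    filter_upwards [eventually_ne_atTop 0] with n hn
    have hn0 : (n : ℂ) ≠ 0 := Nat.cast_ne_zero.mpr hn
    rw [div_add_one hn0, inv_div]
  have h3 := ((Complex.GammaSeq_tendsto_Gamma z).inv₀ (Complex.Gamma_ne_zero hz)).mul h1
  rw [mul_one] at h3
  apply h3.congr'
  filter_upwards [eventually_ne_atTop 0] with n hn
  exact (pq_gammaSeq hz hn).symm

/-- the ratio of consecutive powers tends to one -/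
theorem tendsto_shift_pow (p : ℝ) :
    Tendsto (fun n : ℕ => (((n : ℝ) + 1) / n) ^ p) atTop (𝓝 1) := by
  have h1 : Tendsto (fun n : ℕ => ((n : ℝ) + 1) / n) atTop (𝓝 1) := by
    have h2 : Tendsto (fun n : ℕ => 1 + (1 : ℝ) / n) atTop (𝓝 (1 + 0)) :=
      tendsto_const_nhds.add tendsto_one_div_atTop_nhds_zero_nat
    rw [add_zero] at h2
    apply h2.congr'
    filter_upwards [eventually_ne_atTop 0] with n hn
    have hn0 : (n : ℝ) ≠ 0 := Nat.cast_ne_zero.mpr hn
    field_simp
  have h3 := h1.rpow_const (p := p) (Or.inl one_ne_zero)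
  rwa [Real.one_rpow] at h3

theorem tendsto_norm_pq {z : ℂ} (hz : ∀ m : ℕ, z ≠ -m) :
    Tendsto (fun n : ℕ => ‖pq z n‖ * ((n : ℝ) + 1) ^ (1 - z.re)) atTop
      (𝓝 ‖Complex.Gamma z‖⁻¹) := by
  have h1 := (tendsto_pq hz).norm
  rw [norm_inv] at h1
  have h2 := h1.mul (tendsto_shift_pow (1 - z.re))
  rw [mul_one] at h2
  apply h2.congr'
  filter_upwards [eventually_gt_atTop 0] with n hn
  have hn0 : (0 : ℝ) < n := by exact_mod_cast hn
  rw [norm_mul, Complex.norm_natCast_cpow_of_pos hn, Complex.sub_re, Complex.one_re,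
    Real.div_rpow (by positivity) hn0.le]
  have : (n : ℝ) ^ (1 - z.re) ≠ 0 := (Real.rpow_pos_of_pos hn0 _).ne'
  field_simp

theorem tendsto_pq_real {z : ℝ} (hz : 0 < z) :
    Tendsto (fun n : ℕ => pq z n * ((n : ℝ) + 1) ^ (1 - z)) atTop (𝓝 (Real.Gamma z)⁻¹) := by
  have hne : ∀ m : ℕ, (z : ℂ) ≠ -m := by
    intro m h
    have h1 := congrArg Complex.re h
    simp only [Complex.ofReal_re, Complex.neg_re, Complex.natCast_re] at h1
    have : (0 : ℝ) ≤ m := Nat.cast_nonneg m
    linarith only [hz, h1]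
  have h := tendsto_norm_pq hne
  rw [Complex.ofReal_re, Complex.Gamma_ofReal, Complex.norm_real, Real.norm_eq_abs,
    abs_of_pos (Real.Gamma_pos_of_pos hz)] at h
  apply h.congr
  intro n
  rw [pq_ofReal, Complex.norm_real, Real.norm_eq_abs, abs_of_pos (pq_pos hz n)]

theorem tendsto_pq_real_inv {z : ℝ} (hz : 0 < z) :
    Tendsto (fun n : ℕ => (pq z n)⁻¹ * ((n : ℝ) + 1) ^ (z - 1)) atTop (𝓝 (Real.Gamma z)) := by
  have h := (tendsto_pq_real hz).inv₀ (inv_ne_zero (Real.Gamma_pos_of_pos hz).ne')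
  rw [inv_inv] at h
  apply h.congr
  intro n
  have h1 : (0 : ℝ) < (n : ℝ) + 1 := by positivity
  rw [mul_inv, ← Real.rpow_neg h1.le, neg_sub]

/-- a bound from a limit -/
theorem le_of_tendsto_pow {u : ℕ → ℝ} {p L : ℝ}
    (h : Tendsto (fun n : ℕ => u n * ((n : ℝ) + 1) ^ p) atTop (𝓝 L)) :
    ∃ C : ℝ, 0 ≤ C ∧ ∀ n : ℕ, u n ≤ C * ((n : ℝ) + 1) ^ (-p) := by
  obtain ⟨C, hC⟩ := h.bddAbove_range
  refine ⟨max C 0, le_max_right _ _, fun n => ?_⟩
  have h1 : (0 : ℝ) < (n : ℝ) + 1 := by positivity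
  have h2 : u n * ((n : ℝ) + 1) ^ p ≤ C := hC ⟨n, rfl⟩
  have h3 : (0 : ℝ) < ((n : ℝ) + 1) ^ p := Real.rpow_pos_of_pos h1 _
  rw [Real.rpow_neg h1.le, ← div_eq_mul_inv, le_div_iff₀ h3]
  exact h2.trans (le_max_left _ _)

/-- scaled limits along a sequence of indices -/
theorem tendsto_scaled {u : ℕ → ℝ} {p L t : ℝ} (ht : 0 < t)
    (h : Tendsto (fun n : ℕ => u n * ((n : ℝ) + 1) ^ p) atTop (𝓝 L)) {k : ℕ → ℕ}
    (hk : Tendsto (fun m : ℕ => ((k m : ℝ) + 1) / m) atTop (𝓝 t)) :
    Tendsto (fun m : ℕ => u (k m) * (m : ℝ) ^ p) atTop (𝓝 (L * t ^ (-p))) := by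
  have hk1 : Tendsto k atTop atTop := by
    have h1 : Tendsto (fun m : ℕ => ((k m : ℝ) + 1) / m * m) atTop atTop :=
      hk.pos_mul_atTop ht tendsto_natCast_atTop_atTop
    have h2 : Tendsto (fun m : ℕ => (k m : ℝ) + 1) atTop atTop := by
      apply h1.congr'
      filter_upwards [eventually_ne_atTop 0] with m hm
      have hm0 : (m : ℝ) ≠ 0 := Nat.cast_ne_zero.mpr hm
      field_simp
    have h3 : Tendsto (fun m : ℕ => (k m : ℝ)) atTop atTop := by
      have := tendsto_atTop_add_const_right atTop (-1 : ℝ) h2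
      simpa using this
    exact tendsto_natCast_atTop_iff.mp h3
  have h4 := (h.comp hk1).mul (hk.rpow_const (p := -p) (Or.inl ht.ne'))
  apply h4.congr'
  filter_upwards [eventually_gt_atTop 0] with m hm
  have hm0 : (0 : ℝ) < m := by exact_mod_cast hm
  have hk0 : (0 : ℝ) < (k m : ℝ) + 1 := by positivity
  simp only [Function.comp_apply]
  rw [Real.rpow_neg (by positivity), Real.div_rpow hk0.le hm0.le, inv_div]
  have : ((k m : ℝ) + 1) ^ p ≠ 0 := (Real.rpow_pos_of_pos hk0 _).ne'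
  field_simp

theorem tendsto_of_scaled_atTop {k : ℕ → ℕ} {t : ℝ} (ht : 0 < t)
    (hk : Tendsto (fun m : ℕ => ((k m : ℝ) + 1) / m) atTop (𝓝 t)) : Tendsto k atTop atTop := by
  have h1 : Tendsto (fun m : ℕ => ((k m : ℝ) + 1) / m * m) atTop atTop :=
    hk.pos_mul_atTop ht tendsto_natCast_atTop_atTop
  have h2 : Tendsto (fun m : ℕ => (k m : ℝ) + 1) atTop atTop := by
    apply h1.congr'
    filter_upwards [eventually_ne_atTop 0] with m hm
    have hm0 : (m : ℝ) ≠ 0 := Nat.cast_ne_zero.mpr hm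
    field_simp
  have h3 : Tendsto (fun m : ℕ => (k m : ℝ)) atTop atTop := by
    have := tendsto_atTop_add_const_right atTop (-1 : ℝ) h2
    simpa using this
  exact tendsto_natCast_atTop_iff.mp h3

end Pool.Agent.M16.Helper24.HR2

end

section

set_option autoImplicit false

namespace Pool.Agent.M16.Helper22.Half

/-- interchange of the finite sums -/
theorem double_fin {S : ℕ → ℕ → ℝ} {lam : ℕ → ℝ} {κ : ℝ}
    (hlam : ∀ i, 0 ≤ lam i)
    (h : ∀ i M : ℕ, ∑ m ∈ Finset.range M, ((m - i : ℕ) : ℝ) * S m i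
      ≤ κ * ∑ m ∈ Finset.range i, ((i - m : ℕ) : ℝ) * S m i) (I : ℕ) :
    ∑ m ∈ Finset.range I, ∑ i ∈ Finset.range I, ((m - i : ℕ) : ℝ) * lam i * S m i
      ≤ κ * ∑ m ∈ Finset.range I, ∑ i ∈ Finset.range I, ((i - m : ℕ) : ℝ) * lam i * S m i := by
  rw [Finset.sum_comm, Finset.sum_comm (f := fun m i => ((i - m : ℕ) : ℝ) * lam i * S m i),
    Finset.mul_sum]
  apply Finset.sum_le_sum
  intro i hi
  rw [Finset.mem_range] at hi
  have h1 := mul_le_mul_of_nonneg_left (h i I) (hlam i)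
  have e1 : ∑ m ∈ Finset.range I, ((m - i : ℕ) : ℝ) * lam i * S m i
      = lam i * ∑ m ∈ Finset.range I, ((m - i : ℕ) : ℝ) * S m i := by
    rw [Finset.mul_sum]
    apply Finset.sum_congr rfl
    intro m _; ring
  have e2 : ∑ m ∈ Finset.range I, ((i - m : ℕ) : ℝ) * lam i * S m i
      = lam i * ∑ m ∈ Finset.range i, ((i - m : ℕ) : ℝ) * S m i := by
    have hsub : Finset.range i ⊆ Finset.range I := by
      intro m hm
      rw [Finset.mem_range] at hm ⊢
      omega
    rw [← Finset.sum_subset hsub, Finset.mul_sum]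
    · apply Finset.sum_congr rfl
      intro m _; ring
    · intro m _ hm
      rw [Finset.mem_range, not_lt] at hm
      have : i - m = 0 := by omega
      rw [this]; simp
  rw [e1, e2]
  calc lam i * ∑ m ∈ Finset.range I, ((m - i : ℕ) : ℝ) * S m i
      ≤ lam i * (κ * ∑ m ∈ Finset.range i, ((i - m : ℕ) : ℝ) * S m i) := h1
    _ = _ := by ring

/-- the upper part written with an explicit index -/
theorem upper_eq (a : ℕ → ℝ) (m I : ℕ) :
    ∑ i ∈ Finset.range I, ((i - m : ℕ) : ℝ) * a i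
      = ∑ j ∈ Finset.range (I - (m + 1)), ((j : ℝ) + 1) * a (m + 1 + j) := by
  rcases le_or_gt I (m + 1) with h | h
  · have e : I - (m + 1) = 0 := by omega
    rw [e, Finset.sum_range_zero]
    apply Finset.sum_eq_zero
    intro i hi
    rw [Finset.mem_range] at hi
    have : i - m = 0 := by omega
    rw [this]; simp
  · obtain ⟨J, rfl⟩ : ∃ J, I = m + 1 + J := ⟨I - (m + 1), by omega⟩
    have e : m + 1 + J - (m + 1) = J := by omega
    rw [e, Finset.sum_range_add]
    have h0 : ∑ i ∈ Finset.range (m + 1), ((i - m : ℕ) : ℝ) * a i = 0 := by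
      apply Finset.sum_eq_zero
      intro i hi
      rw [Finset.mem_range] at hi
      have : i - m = 0 := by omega
      rw [this]; simp
    rw [h0, zero_add]
    apply Finset.sum_congr rfl
    intro j _
    have : m + 1 + j - m = j + 1 := by omega
    rw [this]
    push_cast
    ring

theorem lower_eq {s : ℂ} {b : ℝ} (d : ℕ → ℂ) {m I : ℕ} (hm : m < I) :
    ∑ i ∈ Finset.range I, ((m - i : ℕ) : ℝ) * (pq (b + 1 - 2 * s.re) i)⁻¹ * ‖Vd s d m i‖ ^ 2
      = Pf s b d m := by
  unfold Pf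
  have hsub : Finset.range m ⊆ Finset.range I := by
    intro i hi
    rw [Finset.mem_range] at hi ⊢
    omega
  rw [← Finset.sum_subset hsub]
  intro i _ hi
  rw [Finset.mem_range, not_lt] at hi
  have : m - i = 0 := by omega
  rw [this]; simp

end Pool.Agent.M16.Helper22.Half

end

section

set_option autoImplicit false

namespace Pool.Agent.M16.Helper22.Half

section

variable {b r : ℝ}

end

end Pool.Agent.M16.Helper22.Half

end

section

set_option autoImplicit false

namespace Pool.Agent.M16.Helper39.HR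

open Pool.Agent.M16.Helper22.Half

end Pool.Agent.M16.Helper39.HR

end

section

set_option autoImplicit false

open scoped ComplexConjugate

namespace Pool.Agent.M16.Helper39.HR

open Pool.Agent.M16.Helper22.Half

section

variable {b : ℝ}

end

end Pool.Agent.M16.Helper39.HR

end

end
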