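import Mathlib
import Pool.Agent.Helper60.BE.T26

set_option linter.all false

section

namespace Pool.Agent.M16.Helper22.Half
end Pool.Agent.M16.Helper22.Half

section

set_option autoImplicit false

open Filter Topology Finset

open scoped ComplexConjugate

namespace Pool.Agent.M16.Helper37.PFS

theorem two_mul_le {x y c : ℝ} (hc : 0 < c) : 2 * (x * y) ≤ c * x ^ 2 + y ^ 2 / c := by
  have h : 0 ≤ (c * x - y) ^ 2 / c := div_nonneg (sq_nonneg _) hc.le
  have e : (c * x - y) ^ 2 / c = c * x ^ 2 + y ^ 2 / c - 2 * (x * y) := by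
    field_simp
    ring
  linarith only [h, e]

theorem nsq_add (z w : ℂ) : ‖z + w‖ ^ 2 = ‖z‖ ^ 2 + 2 * (conj z * w).re + ‖w‖ ^ 2 := by
  rw [← Complex.normSq_eq_norm_sq, ← Complex.normSq_eq_norm_sq, ← Complex.normSq_eq_norm_sq,
    Complex.normSq_apply, Complex.normSq_apply, Complex.normSq_apply]
  simp only [Complex.add_re, Complex.add_im, Complex.mul_re, Complex.conj_re, Complex.conj_im]
  ring

theorem re_mul_le (z w : ℂ) : (z * w).re ≤ ‖z‖ * ‖w‖ := by
  rw [← norm_mul]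
  exact Complex.re_le_norm _

theorem sq3 (F R0 R1 : ℂ) {κ : ℝ} (hκ : 0 < κ) :
    ‖F + (R0 + R1)‖ ^ 2 ≤ ‖F‖ ^ 2 + 2 * (conj F * R0).re + 2 * (conj F * R1).re
      + ((1 + 1 / κ) * ‖R0‖ ^ 2 + (1 + κ) * ‖R1‖ ^ 2) := by
  rw [nsq_add, nsq_add, mul_add, Complex.add_re]
  have h1 : (conj R0 * R1).re ≤ ‖R1‖ * ‖R0‖ := by
    have := re_mul_le (conj R0) R1
    rw [RCLike.norm_conj] at this
    linarith only [this]
  have h2 := two_mul_le (x := ‖R1‖) (y := ‖R0‖) hκ
  have e : (1 + 1 / κ) * ‖R0‖ ^ 2 = ‖R0‖ ^ 2 + ‖R0‖ ^ 2 / κ := by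
    field_simp
  linarith only [h1, h2, e]

/-- the norm square of a sum -/
theorem nsq_sum (L : Finset ℕ) (x : ℕ → ℂ) :
    ‖∑ l ∈ L, x l‖ ^ 2 = ∑ l ∈ L, ∑ k ∈ L, (x l * conj (x k)).re := by
  have h : ((‖∑ l ∈ L, x l‖ ^ 2 : ℝ) : ℂ) = ∑ l ∈ L, ∑ k ∈ L, x l * conj (x k) := by
    rw [← Complex.normSq_eq_norm_sq, ← Complex.mul_conj, map_sum, Finset.sum_mul_sum]
  have h2 := congrArg Complex.re h
  rw [Complex.ofReal_re] at h2
  rw [h2, Complex.re_sum]
  apply Finset.sum_congr rfl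
  intro l _
  rw [Complex.re_sum]

theorem cs1 (I : Finset ℕ) (a : ℕ → ℝ) (ha : ∀ i ∈ I, 0 < a i) (u r : ℕ → ℂ) :
    ‖∑ i ∈ I, u i * r i‖ ^ 2 ≤ (∑ i ∈ I, ‖u i‖ ^ 2 / a i) * ∑ i ∈ I, a i * ‖r i‖ ^ 2 := by
  have h1 : ‖∑ i ∈ I, u i * r i‖ ≤ ∑ i ∈ I, ‖u i‖ * ‖r i‖ := by
    refine (norm_sum_le _ _).trans (le_of_eq ?_)
    apply Finset.sum_congr rfl
    intro i _
    rw [norm_mul]
  have h2 := Finset.sum_sq_le_sum_mul_sum_of_sq_le_mul I
    (r := fun i => ‖u i‖ * ‖r i‖) (f := fun i => ‖u i‖ ^ 2 / a i)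
    (g := fun i => a i * ‖r i‖ ^ 2)
    (fun i hi => by have := ha i hi; positivity) (fun i hi => by have := ha i hi; positivity)
    (fun i hi => by
      have := (ha i hi).ne'
      apply le_of_eq
      field_simp)
  exact (pow_le_pow_left₀ (norm_nonneg _) h1 2).trans h2

theorem cs2 (I : Finset ℕ) (a : ℕ → ℝ) (ha : ∀ i ∈ I, 0 < a i) (w : ℕ → ℝ) (hw : ∀ j, 0 ≤ w j)
    (u : ℕ → ℂ) (r : ℕ → ℕ → ℂ) (J : ℕ) :
    ∑ j ∈ range J, w j * ‖∑ i ∈ I, u i * r i j‖ ^ 2
      ≤ (∑ i ∈ I, ‖u i‖ ^ 2 / a i) * ∑ j ∈ range J, ∑ i ∈ I, w j * a i * ‖r i j‖ ^ 2 := by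
  rw [Finset.mul_sum]
  apply Finset.sum_le_sum
  intro j _
  have h := mul_le_mul_of_nonneg_left (cs1 I a ha u (fun i => r i j)) (hw j)
  refine h.trans (le_of_eq ?_)
  have e : ∑ i ∈ I, w j * a i * ‖r i j‖ ^ 2 = w j * ∑ i ∈ I, a i * ‖r i j‖ ^ 2 := by
    rw [Finset.mul_sum]
    apply Finset.sum_congr rfl
    intro i _
    ring
  rw [e]
  ring

/-- the quadratic part -/
theorem quad (L : Finset ℕ) (w Y : ℕ → ℝ) (f : ℕ → ℂ) (J : ℕ) :
    ∑ j ∈ range J, w j * ‖∑ l ∈ L, f l * (Y j : ℂ) ^ l‖ ^ 2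
      = ∑ l ∈ L, ∑ k ∈ L, (f l * conj (f k)).re * ∑ j ∈ range J, w j * Y j ^ (l + k) := by
  have h : ∀ j, w j * ‖∑ l ∈ L, f l * (Y j : ℂ) ^ l‖ ^ 2
      = ∑ l ∈ L, ∑ k ∈ L, (f l * conj (f k)).re * (w j * Y j ^ (l + k)) := by
    intro j
    rw [nsq_sum, Finset.mul_sum]
    apply Finset.sum_congr rfl
    intro l _
    rw [Finset.mul_sum]
    apply Finset.sum_congr rfl
    intro k _
    have e : f l * (Y j : ℂ) ^ l * conj (f k * (Y j : ℂ) ^ k)
        = (f l * conj (f k)) * ((Y j ^ (l + k) : ℝ) : ℂ) := by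
      rw [map_mul, map_pow, Complex.conj_ofReal, pow_add]
      push_cast
      ring
    rw [e, Complex.re_mul_ofReal]
    ring
  rw [Finset.sum_congr rfl (fun j _ => h j), Finset.sum_comm]
  apply Finset.sum_congr rfl
  intro l _
  rw [Finset.sum_comm]
  apply Finset.sum_congr rfl
  intro k _
  rw [Finset.mul_sum]

/-- the cross part -/
theorem cross (L I : Finset ℕ) (w Y : ℕ → ℝ) (f u : ℕ → ℂ) (r : ℕ → ℕ → ℂ) (J : ℕ) :
    ∑ j ∈ range J, w j * (2 * (conj (∑ l ∈ L, f l * (Y j : ℂ) ^ l)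
        * ∑ i ∈ I, u i * r i j).re)
      = 2 * (∑ l ∈ L, conj (f l) * ∑ i ∈ I, u i
        * ∑ j ∈ range J, (w j : ℂ) * (Y j : ℂ) ^ l * r i j).re := by
  have h1 : ∑ l ∈ L, conj (f l) * ∑ i ∈ I, u i * ∑ j ∈ range J, (w j : ℂ) * (Y j : ℂ) ^ l * r i j
      = ∑ j ∈ range J, (w j : ℂ) * (conj (∑ l ∈ L, f l * (Y j : ℂ) ^ l)
        * ∑ i ∈ I, u i * r i j) := by
    have e : ∀ l ∈ L, conj (f l) * ∑ i ∈ I, u i
        * ∑ j ∈ range J, (w j : ℂ) * (Y j : ℂ) ^ l * r i j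
        = ∑ j ∈ range J, (w j : ℂ) * (conj (f l * (Y j : ℂ) ^ l) * ∑ i ∈ I, u i * r i j) := by
      intro l _
      have e2 : ∑ i ∈ I, u i * ∑ j ∈ range J, (w j : ℂ) * (Y j : ℂ) ^ l * r i j
          = ∑ j ∈ range J, ∑ i ∈ I, u i * ((w j : ℂ) * (Y j : ℂ) ^ l * r i j) := by
        rw [Finset.sum_comm]
        apply Finset.sum_congr rfl
        intro i _
        rw [Finset.mul_sum]
      rw [e2, Finset.mul_sum]
      apply Finset.sum_congr rfl
      intro j _
      rw [Finset.mul_sum, Finset.mul_sum, Finset.mul_sum]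
      apply Finset.sum_congr rfl
      intro i _
      rw [map_mul, map_pow, Complex.conj_ofReal]
      ring
    rw [Finset.sum_congr rfl e, Finset.sum_comm]
    apply Finset.sum_congr rfl
    intro j _
    rw [← Finset.mul_sum, ← Finset.sum_mul, map_sum]
  rw [h1, Complex.re_sum, Finset.mul_sum]
  apply Finset.sum_congr rfl
  intro j _
  rw [Complex.re_ofReal_mul]
  ring

end Pool.Agent.M16.Helper37.PFS

end

section

set_option autoImplicit false

namespace Pool.Agent.M16.Helper22.Half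

variable {b r : ℝ}

end Pool.Agent.M16.Helper22.Half

end

section

set_option autoImplicit false

namespace Pool.Agent.M16.Helper39.HR

open Pool.Agent.M16.Helper22.Half

end Pool.Agent.M16.Helper39.HR

end

section

set_option autoImplicit false

set_option maxRecDepth 100000

set_option linter.all false

namespace Pool.Agent.M16.Helper54.HR2

end Pool.Agent.M16.Helper54.HR2

end

end

section

section

set_option autoImplicit false

open Complex MeasureTheory Metric Set Filter Topology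

open scoped Real ENNReal ComplexConjugate NNReal

namespace Pool.Agent.M16.Helper39.Area

theorem taylor_term {E : ℂ → ℂ} {R : ℝ} (hR : 0 < R) (hE : DifferentiableOn ℂ E (closedBall 0 R))
    (n : ℕ) (y : ℂ) : (cauchyPowerSeries E 0 R n fun _ => y) =
      y ^ n * (iteratedDeriv n E 0 / n.factorial) := by
  rw [cauchyPowerSeries_apply]
  have h1 := hE.circleIntegral_one_div_sub_center_pow_smul hR n
  have h2 : (∮ z in C(0, R), (y / (z - 0)) ^ n • (z - 0)⁻¹ • E z) =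
      y ^ n * ∮ z in C(0, R), (1 / (z - 0) ^ (n + 1)) • E z := by
    rw [← circleIntegral.integral_const_mul]
    congr 1
    funext z
    simp only [sub_zero, smul_eq_mul, div_pow, pow_succ, one_div, mul_inv]
    ring
  rw [h2, h1]
  have : (2 * π * I : ℂ) ≠ 0 := two_pi_I_ne_zero
  simp only [smul_eq_mul]
  field_simp

theorem sphere_ne' {ρ : ℝ} (hρ : 0 < ρ) {ζ : ℂ} (hζ : ζ ∈ sphere (0:ℂ) ρ) : ζ ≠ 0 := by
  rintro rfl
  simp at hζ
  exact hρ.ne hζ

theorem conj_sphere {ρ : ℝ} (hρ : 0 < ρ) {ζ : ℂ} (hζ : ζ ∈ sphere (0:ℂ) ρ) :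
    conj ζ = (ρ:ℂ) ^ 2 / ζ := by
  have h0 := sphere_ne' hρ hζ
  rw [eq_div_iff h0, mul_comm, Complex.mul_conj, Complex.normSq_eq_norm_sq]
  have : ‖ζ‖ = ρ := by simpa using hζ
  rw [this]
  push_cast
  rfl

theorem deriv_coeff {E : ℂ → ℂ} {R ρ : ℝ} (hE : DifferentiableOn ℂ E (ball 0 R)) (hρ : 0 < ρ)
    (hρR : ρ < R) (n : ℕ) :
    (∮ ζ in C(0, ρ), (ζ ^ n)⁻¹ * deriv E ζ) =
      2 * π * I * (n * (iteratedDeriv n E 0 / n.factorial)) := by
  have hd : DifferentiableOn ℂ (deriv E) (ball 0 R) := hE.deriv isOpen_ball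
  cases n with
  | zero =>
    simp only [pow_zero, inv_one, one_mul, CharP.cast_eq_zero, zero_mul, mul_zero]
    apply circleIntegral.integral_eq_zero_of_hasDerivWithinAt hρ.le (f := E)
    intro ζ hζ
    have h1 : ζ ∈ ball (0:ℂ) R := by
      rw [mem_ball, dist_zero_right]
      rw [mem_sphere, dist_zero_right] at hζ
      linarith
    exact (hE.differentiableAt (isOpen_ball.mem_nhds h1)).hasDerivAt.hasDerivWithinAt
  | succ n =>
    have h1 := (hd.mono (closedBall_subset_ball hρR)).circleIntegral_one_div_sub_center_pow_smul hρ n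
    have h2 : (∮ ζ in C(0, ρ), (ζ ^ (n + 1))⁻¹ * deriv E ζ) =
        ∮ z in C(0, ρ), (1 / (z - 0) ^ (n + 1)) • deriv E z := by
      congr 1
      funext z
      simp
    rw [h2, h1, ← iteratedDeriv_succ', Nat.factorial_succ]
    have h3 : ((n.factorial : ℕ) : ℂ) ≠ 0 := by exact_mod_cast n.factorial_ne_zero
    have h4 : ((n : ℂ) + 1) ≠ 0 := by exact_mod_cast Nat.succ_ne_zero n
    push_cast
    simp only [smul_eq_mul]
    field_simp

theorem dirichlet_nonneg {E : ℂ → ℂ} {R ρ : ℝ} (hE : DifferentiableOn ℂ E (ball 0 R)) (hρ : 0 < ρ)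
    (hρR : ρ < R) :
    ∃ c : ℝ, 0 ≤ c ∧ (∮ ζ in C(0, ρ), conj (E ζ) * deriv E ζ) = 2 * π * I * c := by
  obtain ⟨r, hρr, hrR⟩ := exists_between hρR
  have hr : 0 < r := hρ.trans hρr
  lift r to ℝ≥0 using hr.le
  have hEr : DifferentiableOn ℂ E (closedBall 0 r) := hE.mono (closedBall_subset_ball hrR)
  have hps := hEr.hasFPowerSeriesOnBall (by exact_mod_cast hr)
  obtain ⟨r', hρr', hr'r⟩ := exists_between hρr
  lift r' to ℝ≥0 using (hρ.trans hρr').le
  have hun := hps.tendstoUniformlyOn (r' := r') (by exact_mod_cast hr'r)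
  have hd : DifferentiableOn ℂ (deriv E) (ball 0 R) := hE.deriv isOpen_ball
  have hmem : ∀ ζ ∈ sphere (0:ℂ) ρ, ζ ∈ ball (0:ℂ) R := by
    intro ζ hζ
    rw [mem_ball, dist_zero_right]
    rw [mem_sphere, dist_zero_right] at hζ
    linarith
  have hdc : ContinuousOn (deriv E) (sphere 0 ρ) := hd.continuousOn.mono hmem
  set e : ℕ → ℂ := fun n => iteratedDeriv n E 0 / n.factorial with he
  have hpart : ∀ (N : ℕ) (y : ℂ), (cauchyPowerSeries E 0 r).partialSum N y =
      ∑ n ∈ Finset.range N, y ^ n * e n := by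
    intro N y
    unfold FormalMultilinearSeries.partialSum
    apply Finset.sum_congr rfl
    intro n _
    exact taylor_term hr hEr n y
  set T : ℕ → ℂ → ℂ := fun N y => ∑ n ∈ Finset.range N, y ^ n * e n with hT
  have hTc : ∀ N, Continuous (T N) := by
    intro N
    rw [hT]
    fun_prop
  have hTE : TendstoUniformlyOn T E atTop (sphere 0 ρ) := by
    have h1 : TendstoUniformlyOn T E atTop (ball 0 r') := by
      have h2 : (fun (n : ℕ) (y : ℂ) => (cauchyPowerSeries E 0 r).partialSum n y) = T := by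
        funext N y; exact hpart N y
      rw [h2] at hun
      simpa using hun
    apply h1.mono
    intro ζ hζ
    rw [mem_ball, dist_zero_right]
    rw [mem_sphere, dist_zero_right] at hζ
    linarith
  -- bound for the derivative
  obtain ⟨B, hB⟩ := (isCompact_sphere (0:ℂ) ρ).exists_bound_of_continuousOn hdc
  have hlim : Tendsto (fun N => ∮ ζ in C(0, ρ), conj (T N ζ) * deriv E ζ) atTop
      (𝓝 (∮ ζ in C(0, ρ), conj (E ζ) * deriv E ζ)) := by
    apply TendstoUniformlyOn.tendsto_circleIntegral_of_continuousOn hρ.le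
    · refine Eventually.of_forall fun N => ?_
      exact ((Complex.continuous_conj.comp (hTc N)).continuousOn).mul hdc
    · rw [Metric.tendstoUniformlyOn_iff] at hTE ⊢
      intro ε hε
      have hε' : 0 < ε / (|B| + 1) := by positivity
      filter_upwards [hTE _ hε'] with N hN ζ hζ
      have h1 := hN ζ hζ
      rw [dist_eq_norm] at h1 ⊢
      rw [← sub_mul, ← map_sub, norm_mul, RCLike.norm_conj]
      calc ‖E ζ - T N ζ‖ * ‖deriv E ζ‖ ≤ ‖E ζ - T N ζ‖ * (|B| + 1) := by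
            gcongr
            exact (hB ζ hζ).trans ((le_abs_self B).trans (by linarith))
        _ < ε / (|B| + 1) * (|B| + 1) := by gcongr
        _ = ε := by field_simp
  have hval : ∀ N, (∮ ζ in C(0, ρ), conj (T N ζ) * deriv E ζ) =
      2 * π * I * ((∑ n ∈ Finset.range N, (n:ℝ) * ρ ^ (2 * n) * ‖e n‖ ^ 2 : ℝ) : ℂ) := by
    intro N
    have h1 : (∮ ζ in C(0, ρ), conj (T N ζ) * deriv E ζ) =
        ∮ ζ in C(0, ρ), ∑ n ∈ Finset.range N,
          (ρ:ℂ) ^ (2 * n) * conj (e n) * ((ζ ^ n)⁻¹ * deriv E ζ) := by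
      apply circleIntegral.integral_congr hρ.le
      intro ζ hζ
      simp only [hT, map_sum, map_mul, map_pow, Finset.sum_mul]
      apply Finset.sum_congr rfl
      intro n _
      rw [conj_sphere hρ hζ, div_pow, ← pow_mul, div_eq_mul_inv]
      ring
    rw [h1, circleIntegral.integral_fun_sum]
    · push_cast
      rw [Finset.mul_sum]
      apply Finset.sum_congr rfl
      intro n _
      rw [circleIntegral.integral_const_mul, deriv_coeff hE hρ hρR n]
      have h5 : (((‖e n‖ : ℝ)) : ℂ) ^ 2 = e n * conj (e n) := by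
        rw [Complex.mul_conj, Complex.normSq_eq_norm_sq]
        push_cast
        rfl
      rw [h5]
      ring
    · intro n _
      apply ContinuousOn.circleIntegrable hρ.le
      apply continuousOn_const.mul
      apply ContinuousOn.mul _ hdc
      apply ContinuousOn.inv₀ (by fun_prop)
      intro ζ hζ
      exact pow_ne_zero _ (sphere_ne' hρ hζ)
  -- the limit
  have h2pi : (2 * π * I : ℂ) ≠ 0 := two_pi_I_ne_zero
  set L : ℂ := ∮ ζ in C(0, ρ), conj (E ζ) * deriv E ζ with hL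
  set c : ℕ → ℝ := fun N => ∑ n ∈ Finset.range N, (n:ℝ) * ρ ^ (2 * n) * ‖e n‖ ^ 2 with hc
  have hlim2 : Tendsto (fun N => ((c N : ℝ) : ℂ)) atTop (𝓝 ((2 * π * I : ℂ)⁻¹ * L)) := by
    have := hlim.const_mul ((2 * π * I : ℂ)⁻¹)
    refine this.congr ?_
    intro N
    rw [hval N, ← mul_assoc, inv_mul_cancel₀ h2pi, one_mul]
  have hre := (Complex.continuous_re.tendsto _).comp hlim2
  have him := (Complex.continuous_im.tendsto _).comp hlim2
  refine ⟨((2 * π * I : ℂ)⁻¹ * L).re, ?_, ?_⟩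
  · apply ge_of_tendsto' hre
    intro N
    simp only [Function.comp, Complex.ofReal_re, hc]
    positivity
  · have him0 : ((2 * π * I : ℂ)⁻¹ * L).im = 0 := by
      have h1 : (Complex.im ∘ fun N => ((c N : ℝ) : ℂ)) = fun _ => (0:ℝ) := by
        funext N; simp
      rw [h1] at him
      exact (tendsto_nhds_unique him tendsto_const_nhds)
    have h3 : ((((2 * π * I : ℂ)⁻¹ * L).re : ℝ) : ℂ) = (2 * π * I : ℂ)⁻¹ * L := by
      apply Complex.ext
      · simp
      · simp only [Complex.ofReal_im]; exact him0.symm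
    rw [h3, ← mul_assoc, mul_inv_cancel₀ h2pi, one_mul]

end Pool.Agent.M16.Helper39.Area

end

section

set_option autoImplicit false

open Complex MeasureTheory Metric Set Filter Topology

open scoped Real ENNReal ComplexConjugate NNReal

namespace Pool.Agent.M16.Helper39.Area

/-- conjugate of a circle integral -/
theorem conj_circle {ρ : ℝ} (hρ : 0 < ρ) (f : ℂ → ℂ) :
    conj (∮ ζ in C(0, ρ), f ζ) = ∮ ζ in C(0, ρ), (-((ρ:ℂ) ^ 2 / ζ ^ 2)) * conj (f ζ) := by
  rw [circleIntegral, circleIntegral, intervalIntegral.integral_of_le Real.two_pi_pos.le,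
    intervalIntegral.integral_of_le Real.two_pi_pos.le, ← integral_conj]
  congr 1
  funext θ
  have hne : circleMap 0 ρ θ ≠ 0 := circleMap_ne_center (c := 0) (θ := θ) hρ.ne'
  have hc : conj (circleMap 0 ρ θ) = (ρ:ℂ) ^ 2 / circleMap 0 ρ θ :=
    conj_sphere hρ (circleMap_mem_sphere 0 hρ.le θ)
  simp only [deriv_circleMap, smul_eq_mul, map_mul, Complex.conj_I, hc]
  field_simp

theorem parts {ρ : ℝ} (hρ : 0 < ρ) {f g f' g' : ℂ → ℂ}
    (hf : ∀ ζ ∈ sphere (0:ℂ) ρ, HasDerivAt f (f' ζ) ζ)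
    (hg : ∀ ζ ∈ sphere (0:ℂ) ρ, HasDerivAt g (g' ζ) ζ)
    (hf' : ContinuousOn f' (sphere 0 ρ)) (hg' : ContinuousOn g' (sphere 0 ρ)) :
    (∮ ζ in C(0, ρ), f ζ * g' ζ) = - ∮ ζ in C(0, ρ), g ζ * f' ζ := by
  have hfc : ContinuousOn f (sphere 0 ρ) := fun ζ hζ => (hf ζ hζ).continuousAt.continuousWithinAt
  have hgc : ContinuousOn g (sphere 0 ρ) := fun ζ hζ => (hg ζ hζ).continuousAt.continuousWithinAt
  have h1 : (∮ ζ in C(0, ρ), (f' ζ * g ζ + f ζ * g' ζ)) = 0 := by
    apply circleIntegral.integral_eq_zero_of_hasDerivWithinAt hρ.le (f := fun ζ => f ζ * g ζ)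
    intro ζ hζ
    exact ((hf ζ hζ).mul (hg ζ hζ)).hasDerivWithinAt
  have hi1 : CircleIntegrable (fun ζ => f' ζ * g ζ) 0 ρ := (hf'.mul hgc).circleIntegrable hρ.le
  have hi2 : CircleIntegrable (fun ζ => f ζ * g' ζ) 0 ρ := (hfc.mul hg').circleIntegrable hρ.le
  rw [circleIntegral.integral_add hi1 hi2] at h1
  have h2 : (∮ ζ in C(0, ρ), f' ζ * g ζ) = ∮ ζ in C(0, ρ), g ζ * f' ζ := by
    congr 1; funext ζ; ring
  rw [h2] at h1
  linear_combination h1

theorem cauchy_zero {ρ R : ℝ} (hρ : 0 < ρ) (hρR : ρ < R) {W : ℂ → ℂ}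
    (hW : DifferentiableOn ℂ W (ball 0 R)) : (∮ ζ in C(0, ρ), W ζ) = 0 := by
  apply Complex.circleIntegral_eq_zero_of_differentiable_on_off_countable hρ.le countable_empty
  · exact hW.continuousOn.mono (closedBall_subset_ball hρR)
  · intro ζ hζ
    exact hW.differentiableAt (isOpen_ball.mem_nhds
      (closedBall_subset_ball hρR (ball_subset_closedBall hζ.1)))

/-- derivative of `log (1 - a / ζ)` -/
noncomputable def gp (a ζ : ℂ) : ℂ := (ζ - a)⁻¹ - ζ⁻¹

/-- reproducing property -/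
theorem repro {ρ R : ℝ} (hρ : 0 < ρ) (hρR : ρ < R) {W : ℂ → ℂ}
    (hW : DifferentiableOn ℂ W (ball 0 R)) {a : ℂ} (ha : a ∈ ball (0:ℂ) ρ) :
    (∮ ζ in C(0, ρ), W ζ * gp a ζ) = 2 * π * I * (W a - W 0) := by
  have hWc : DifferentiableOn ℂ W (closedBall 0 ρ) := hW.mono (closedBall_subset_ball hρR)
  have h1 := hWc.circleIntegral_sub_inv_smul ha
  have h2 := hWc.circleIntegral_sub_inv_smul (mem_ball_self hρ)
  have hWs : ContinuousOn W (sphere 0 ρ) := hWc.continuousOn.mono sphere_subset_closedBall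
  have hc : ∀ b ∈ ball (0:ℂ) ρ, CircleIntegrable (fun z => (z - b)⁻¹ • W z) 0 ρ := by
    intro b hb
    apply ContinuousOn.circleIntegrable hρ.le
    have hb' : ContinuousOn (fun z : ℂ => (z - b)⁻¹) (sphere 0 ρ) := by
      apply ContinuousOn.inv₀ (by fun_prop)
      intro ζ hζ h'
      rw [sub_eq_zero] at h'
      subst h'
      simp at hζ hb
      linarith only [hζ, hb]
    exact hb'.smul hWs
  have h3 : (∮ ζ in C(0, ρ), W ζ * gp a ζ) =
      ∮ ζ in C(0, ρ), ((ζ - a)⁻¹ • W ζ - (ζ - 0)⁻¹ • W ζ) := by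
    congr 1
    funext ζ
    simp only [gp, smul_eq_mul, sub_zero]
    ring
  rw [h3, circleIntegral.integral_sub (hc a ha) (hc 0 (mem_ball_self hρ)), h1, h2]
  simp only [smul_eq_mul]
  ring

section

variable {ρ : ℝ} {a : ℂ}

/-- `log (1 - conj a ζ / ρ²)` -/
noncomputable def Lam (ρ : ℝ) (a ζ : ℂ) : ℂ := Complex.log (1 - conj a * ζ / (ρ:ℂ) ^ 2)

noncomputable def Lamp (ρ : ℝ) (a ζ : ℂ) : ℂ := (-(conj a / (ρ:ℂ) ^ 2)) / (1 - conj a * ζ / (ρ:ℂ) ^ 2)

theorem lam_re (hρ : 0 < ρ) (_ha : a ∈ ball (0:ℂ) ρ) (ha0 : a ≠ 0) {ζ : ℂ}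
    (hζ : ζ ∈ ball (0:ℂ) (ρ ^ 2 / ‖a‖)) : 0 < (1 - conj a * ζ / (ρ:ℂ) ^ 2).re := by
  have ha' : 0 < ‖a‖ := norm_pos_iff.mpr ha0
  have h1 : ‖conj a * ζ / (ρ:ℂ) ^ 2‖ < 1 := by
    rw [norm_div, norm_mul, RCLike.norm_conj, norm_pow, Complex.norm_real, Real.norm_eq_abs,
      abs_of_pos hρ, div_lt_one (by positivity)]
    rw [mem_ball, dist_zero_right, lt_div_iff₀ ha'] at hζ
    linarith only [hζ]
  have h2 := (abs_le.mp (Complex.abs_re_le_norm (conj a * ζ / (ρ:ℂ) ^ 2))).2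
  rw [Complex.sub_re, Complex.one_re]
  linarith only [h1, h2]

theorem lam_hasDeriv (hρ : 0 < ρ) (ha : a ∈ ball (0:ℂ) ρ) (ha0 : a ≠ 0) {ζ : ℂ}
    (hζ : ζ ∈ ball (0:ℂ) (ρ ^ 2 / ‖a‖)) : HasDerivAt (Lam ρ a) (Lamp ρ a ζ) ζ := by
  have h1 : HasDerivAt (fun ζ : ℂ => 1 - conj a * ζ / (ρ:ℂ) ^ 2) (-(conj a / (ρ:ℂ) ^ 2)) ζ := by
    have h2 := (((hasDerivAt_id ζ).const_mul (conj a)).div_const ((ρ:ℂ) ^ 2)).const_sub 1
    have e : (-(conj a / (ρ:ℂ) ^ 2)) = -(conj a * 1 / (ρ:ℂ) ^ 2) := by ring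
    rw [e]
    exact h2
  exact h1.clog (Or.inl (lam_re hρ ha ha0 hζ))

theorem rad_lt (hρ : 0 < ρ) (ha : a ∈ ball (0:ℂ) ρ) (ha0 : a ≠ 0) : ρ < ρ ^ 2 / ‖a‖ := by
  have ha' : 0 < ‖a‖ := norm_pos_iff.mpr ha0
  rw [lt_div_iff₀ ha']
  rw [mem_ball, dist_zero_right] at ha
  nlinarith only [hρ, ha]

theorem lam_diff (hρ : 0 < ρ) (ha : a ∈ ball (0:ℂ) ρ) (ha0 : a ≠ 0) :
    DifferentiableOn ℂ (Lam ρ a) (ball 0 (ρ ^ 2 / ‖a‖)) := fun _ hζ =>
  (lam_hasDeriv hρ ha ha0 hζ).differentiableAt.differentiableWithinAt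

theorem conj_lam (hρ : 0 < ρ) (ha : a ∈ ball (0:ℂ) ρ) (ha0 : a ≠ 0) {ζ : ℂ}
    (hζ : ζ ∈ sphere (0:ℂ) ρ) : conj (Lam ρ a ζ) = Complex.log (1 - a / ζ) := by
  have h1 : ζ ∈ ball (0:ℂ) (ρ ^ 2 / ‖a‖) := by
    have := rad_lt hρ ha ha0
    rw [mem_ball, dist_zero_right]
    rw [mem_sphere, dist_zero_right] at hζ
    linarith only [hζ, this]
  have h2 := lam_re hρ ha ha0 h1
  have h3 : (1 - conj a * ζ / (ρ:ℂ) ^ 2).arg ≠ π := by
    intro h
    rw [Complex.arg_eq_pi_iff] at h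
    linarith only [h2, h]
  rw [Lam, ← Complex.log_conj _ h3]
  congr 1
  have hρ' : (ρ:ℂ) ≠ 0 := by exact_mod_cast hρ.ne'
  have h0 := sphere_ne' hρ hζ
  simp only [map_sub, map_one, map_div₀, map_mul, Complex.conj_conj, map_pow, Complex.conj_ofReal]
  rw [conj_sphere hρ hζ]
  field_simp

theorem g_hasDeriv (ha : a ∈ ball (0:ℂ) ρ) (hρ : 0 < ρ) {ζ : ℂ}
    (hζ : ζ ∈ sphere (0:ℂ) ρ) : HasDerivAt (fun ζ => Complex.log (1 - a / ζ)) (gp a ζ) ζ := by
  have h0 := sphere_ne' hρ hζ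
  have hne : ζ - a ≠ 0 := by
    intro h'
    rw [sub_eq_zero] at h'
    subst h'
    simp at hζ ha
    linarith
  have h1 : HasDerivAt (fun ζ : ℂ => 1 - a / ζ) (a / ζ ^ 2) ζ := by
    have h2 := ((hasDerivAt_inv h0).const_mul a).const_sub 1
    have e : a / ζ ^ 2 = -(a * -(ζ ^ 2)⁻¹) := by field_simp
    rw [e]
    exact h2
  have h2 : 0 < (1 - a / ζ).re := by
    have h3 : ‖a / ζ‖ < 1 := by
      rw [norm_div]
      rw [mem_ball, dist_zero_right] at ha
      rw [mem_sphere, dist_zero_right] at hζ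
      rw [hζ, div_lt_one hρ]
      exact ha
    have h4 := (abs_le.mp (Complex.abs_re_le_norm (a / ζ))).2
    rw [Complex.sub_re, Complex.one_re]
    linarith only [h3, h4]
  have h5 := h1.clog (Or.inl h2)
  have e : a / ζ ^ 2 / (1 - a / ζ) = gp a ζ := by
    unfold gp
    have h6 : 1 - a / ζ = (ζ - a) / ζ := by field_simp
    rw [h6]
    field_simp
    ring
  rw [← e]
  exact h5

theorem gp_cont (ha : a ∈ ball (0:ℂ) ρ) (hρ : 0 < ρ) : ContinuousOn (gp a) (sphere 0 ρ) := by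
  apply ContinuousOn.sub
  · apply ContinuousOn.inv₀ (by fun_prop)
    intro ζ hζ h'
    rw [sub_eq_zero] at h'
    subst h'
    simp at hζ ha
    linarith
  · exact ContinuousOn.inv₀ (by fun_prop) (fun ζ hζ => sphere_ne' hρ hζ)

/-- relation between the two derivatives -/
theorem lamp_eq (hρ : 0 < ρ) (ha : a ∈ ball (0:ℂ) ρ) (ha0 : a ≠ 0) {ζ : ℂ}
    (hζ : ζ ∈ sphere (0:ℂ) ρ) : (-((ρ:ℂ) ^ 2 / ζ ^ 2)) * conj (gp a ζ) = Lamp ρ a ζ := by
  have h1 : ζ ∈ ball (0:ℂ) (ρ ^ 2 / ‖a‖) := by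
    have := rad_lt hρ ha ha0
    rw [mem_ball, dist_zero_right]
    rw [mem_sphere, dist_zero_right] at hζ
    linarith
  have h2 := lam_re hρ ha ha0 h1
  have hne : 1 - conj a * ζ / (ρ:ℂ) ^ 2 ≠ 0 := by
    intro h; rw [h] at h2; simp at h2
  have hρ' : (ρ:ℂ) ≠ 0 := by exact_mod_cast hρ.ne'
  have h0 := sphere_ne' hρ hζ
  have h3 : (ρ:ℂ) ^ 2 - conj a * ζ ≠ 0 := by
    intro h
    apply hne
    rw [sub_eq_zero] at h
    rw [← h]
    field_simp
    ring
  have h4 : (ρ:ℂ) ^ 2 / ζ - conj a = ((ρ:ℂ) ^ 2 - conj a * ζ) / ζ := by field_simp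
  have h5 : 1 - conj a * ζ / (ρ:ℂ) ^ 2 = ((ρ:ℂ) ^ 2 - conj a * ζ) / (ρ:ℂ) ^ 2 := by field_simp
  unfold gp Lamp
  simp only [map_sub, map_inv₀]
  rw [conj_sphere hρ hζ, h4, h5]
  generalize conj a = x at h3 ⊢
  have h6 : (ρ:ℂ) ^ 2 - ζ * x ≠ 0 := by rwa [mul_comm] at h3
  field_simp
  ring

theorem gp_eq (hρ : 0 < ρ) (ha : a ∈ ball (0:ℂ) ρ) (ha0 : a ≠ 0) {ζ : ℂ}
    (hζ : ζ ∈ sphere (0:ℂ) ρ) : (-((ρ:ℂ) ^ 2 / ζ ^ 2)) * conj (Lamp ρ a ζ) = gp a ζ := by
  rw [← lamp_eq hρ ha ha0 hζ]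
  have hρ' : (ρ:ℂ) ≠ 0 := by exact_mod_cast hρ.ne'
  have h0 := sphere_ne' hρ hζ
  simp only [map_mul, map_neg, map_div₀, map_pow, Complex.conj_ofReal, Complex.conj_conj]
  rw [conj_sphere hρ hζ]
  field_simp

end

end Pool.Agent.M16.Helper39.Area

end

section

set_option autoImplicit false

open MeasureTheory Set Metric Filter Topology

open scoped ENNReal NNReal Real

namespace Pool.Agent.M16.Helper22.Marshall

theorem integral_exp_int (n : ℤ) (hn : n ≠ 0) :
    ∫ θ in (-π)..π, Complex.exp ((n : ℂ) * (θ : ℂ) * Complex.I) = 0 := by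
  have h1 : ∀ θ : ℝ, (n : ℂ) * (θ : ℂ) * Complex.I = (n : ℂ) * Complex.I * (θ : ℂ) := by
    intro θ; ring
  simp_rw [h1]
  have hne : (n : ℂ) * Complex.I ≠ 0 :=
    mul_ne_zero (Int.cast_ne_zero.mpr hn) Complex.I_ne_zero
  rw [integral_exp_mul_complex hne]
  have h2 : Complex.exp ((n : ℂ) * Complex.I * ((π : ℝ) : ℂ))
      = Complex.exp ((n : ℂ) * Complex.I * ((-π : ℝ) : ℂ)) := by
    rw [Complex.exp_eq_exp_iff_exists_int]
    refine ⟨n, ?_⟩
    push_cast
    ring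
  rw [h2, sub_self, zero_div]

theorem hasSum_mul_aux (F G : ℕ → ℂ) (s t : ℂ) (h0 : HasSum F s) (h1 : HasSum G t)
    (h : Summable fun n => ‖F n‖) (h2 : Summable fun n => ‖G n‖) :
    HasSum (fun p : ℕ × ℕ => F p.1 * G p.2) (s * t) :=
  h0.mul h1 (summable_mul_of_summable_norm h h2)

theorem parseval_aux (c : ℕ → ℂ) (r : ℝ) (hr : 0 ≤ r)
    (hs : Summable fun n => ‖c n‖ * r ^ n) (f : ℝ → ℂ)
    (hf : ∀ θ : ℝ, HasSum (fun n => c n * ((r : ℂ) * Complex.exp (θ * Complex.I)) ^ n) (f θ)) :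
    HasSum (fun n => ‖c n‖ ^ 2 * r ^ (2 * n)) ((1 / (2 * π)) * ∫ θ in (-π)..π, ‖f θ‖ ^ 2) := by
  obtain ⟨F, hF⟩ : ∃ F : ℕ → ℝ → ℂ,
    F = fun (n : ℕ) (θ : ℝ) => c n * ((r : ℂ) * Complex.exp ((θ : ℂ) * Complex.I)) ^ n :=
    ⟨_, rfl⟩
  have hnormF : ∀ n θ, ‖F n θ‖ = ‖c n‖ * r ^ n := by
    intro n θ
    simp only [hF, norm_mul, norm_pow, Complex.norm_exp_ofReal_mul_I, mul_one]
    rw [Complex.norm_real, Real.norm_of_nonneg hr]
  have hsn : ∀ θ, Summable fun n => ‖F n θ‖ := by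
    intro θ
    simp_rw [hnormF]
    exact hs
  have hprod : ∀ θ, HasSum (fun p : ℕ × ℕ => F p.1 θ * (starRingEnd ℂ) (F p.2 θ))
      (f θ * (starRingEnd ℂ) (f θ)) := by
    intro θ
    have h1 : HasSum (fun n => (starRingEnd ℂ) (F n θ)) ((starRingEnd ℂ) (f θ)) := by
      have := (hf θ).map (starRingEnd ℂ) Complex.continuous_conj
      rw [hF]
      exact this
    have h0 : HasSum (fun n => F n θ) (f θ) := by
      rw [hF]
      exact hf θ
    have h2 : Summable fun n => ‖(starRingEnd ℂ) (F n θ)‖ := by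
      simp_rw [Complex.norm_conj]
      exact hsn θ
    exact hasSum_mul_aux (fun n => F n θ) (fun n => (starRingEnd ℂ) (F n θ)) _ _ h0 h1 (hsn θ) h2

  have hFc : ∀ n, Continuous (F n) := by
    intro n
    simp only [hF]
    fun_prop
  have hint : HasSum (fun p : ℕ × ℕ => ∫ θ in (-π)..π, F p.1 θ * (starRingEnd ℂ) (F p.2 θ))
      (∫ θ in (-π)..π, f θ * (starRingEnd ℂ) (f θ)) := by
    have hpi : (-π : ℝ) ≤ π := by linarith [Real.pi_pos]
    have key : ∀ g : ℝ → ℂ, ∫ θ in (-π)..π, g θ = ∫ θ in Ioc (-π) π, g θ := fun g =>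
      intervalIntegral.integral_of_le hpi
    simp_rw [key]
    have h2 := hasSum_integral_of_summable_integral_norm (μ := volume.restrict (Ioc (-π) π))
      (F := fun (p : ℕ × ℕ) (θ : ℝ) => F p.1 θ * (starRingEnd ℂ) (F p.2 θ)) ?_ ?_
    · have h3 : (fun θ => ∑' p : ℕ × ℕ, F p.1 θ * (starRingEnd ℂ) (F p.2 θ))
          = fun θ => f θ * (starRingEnd ℂ) (f θ) := by
        funext θ
        exact (hprod θ).tsum_eq
      rw [h3] at h2
      exact h2
    · intro p
      apply Continuous.integrableOn_Ioc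
      exact (hFc p.1).mul (Complex.continuous_conj.comp (hFc p.2))
    · have h4 : ∀ p : ℕ × ℕ, ∫ θ in Ioc (-π) π, ‖F p.1 θ * (starRingEnd ℂ) (F p.2 θ)‖
          = (2 * π) * ((‖c p.1‖ * r ^ p.1) * (‖c p.2‖ * r ^ p.2)) := by
        intro p
        have : ∀ θ, ‖F p.1 θ * (starRingEnd ℂ) (F p.2 θ)‖
            = (‖c p.1‖ * r ^ p.1) * (‖c p.2‖ * r ^ p.2) := by
          intro θ
          rw [norm_mul, Complex.norm_conj, hnormF, hnormF]
        simp_rw [this]
        rw [setIntegral_const]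
        simp only [smul_eq_mul]
        rw [Real.volume_real_Ioc_of_le hpi]
        ring
      simp_rw [h4]
      apply Summable.mul_left
      exact summable_mul_of_summable_norm
        (f := fun n => ‖c n‖ * r ^ n) (g := fun n => ‖c n‖ * r ^ n)
        (by simpa [abs_of_nonneg hr] using hs) (by simpa [abs_of_nonneg hr] using hs)
  -- compute the integrals
  have hval : ∀ p : ℕ × ℕ, ∫ θ in (-π)..π, F p.1 θ * (starRingEnd ℂ) (F p.2 θ)
      = if p.1 = p.2 then ((2 * π * (‖c p.1‖ ^ 2 * r ^ (2 * p.1)) : ℝ) : ℂ) else 0 := by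
    rintro ⟨m, n⟩
    have h5 : ∀ θ : ℝ, F m θ * (starRingEnd ℂ) (F n θ)
        = (c m * (starRingEnd ℂ) (c n) * (r : ℂ) ^ (m + n)) *
          Complex.exp (((m : ℤ) - (n : ℤ) : ℤ) * (θ : ℂ) * Complex.I) := by
      intro θ
      simp only [hF, map_mul, map_pow, Complex.conj_ofReal]
      rw [← Complex.exp_conj]
      simp only [map_mul, Complex.conj_ofReal, Complex.conj_I]
      rw [mul_pow, mul_pow, ← Complex.exp_nat_mul, ← Complex.exp_nat_mul]
      have : Complex.exp (((m : ℤ) - (n : ℤ) : ℤ) * (θ : ℂ) * Complex.I)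
          = Complex.exp ((m : ℂ) * ((θ : ℂ) * Complex.I))
            * Complex.exp ((n : ℂ) * ((θ : ℂ) * -Complex.I)) := by
        rw [← Complex.exp_add]
        congr 1
        push_cast
        ring
      rw [this]
      ring
    simp only
    simp_rw [h5]
    rw [intervalIntegral.integral_const_mul]
    by_cases hmn : m = n
    · subst hmn
      rw [if_pos rfl]
      simp only [sub_self, Int.cast_zero, zero_mul, Complex.exp_zero]
      rw [intervalIntegral.integral_const, Complex.mul_conj, Complex.normSq_eq_norm_sq]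
      simp only [sub_neg_eq_add, Complex.real_smul, mul_one]
      push_cast
      ring
    · rw [if_neg hmn, integral_exp_int _ (sub_ne_zero.mpr (by exact_mod_cast hmn)), mul_zero]
  simp_rw [hval] at hint
  -- restrict to the diagonal
  have hdiag : HasSum (fun n : ℕ => ((2 * π * (‖c n‖ ^ 2 * r ^ (2 * n)) : ℝ) : ℂ))
      (∫ θ in (-π)..π, f θ * (starRingEnd ℂ) (f θ)) := by
    have hinj : Function.Injective (fun n : ℕ => (n, n)) := by
      intro a b h
      exact (Prod.mk.inj h).1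
    have := (hinj.hasSum_iff (f := fun p : ℕ × ℕ =>
      if p.1 = p.2 then ((2 * π * (‖c p.1‖ ^ 2 * r ^ (2 * p.1)) : ℝ) : ℂ) else 0)
      (a := ∫ θ in (-π)..π, f θ * (starRingEnd ℂ) (f θ)) ?_).mpr hint
    · simpa [Function.comp_def] using this
    · rintro ⟨a, b⟩ hab
      rw [if_neg]
      intro h
      apply hab
      refine ⟨a, ?_⟩
      simp only [Prod.mk.injEq, true_and]
      exact h
  have hreal : (∫ θ in (-π)..π, f θ * (starRingEnd ℂ) (f θ))
      = ((∫ θ in (-π)..π, ‖f θ‖ ^ 2 : ℝ) : ℂ) := by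
    rw [← intervalIntegral.integral_ofReal]
    congr 1
    funext θ
    rw [Complex.mul_conj, Complex.normSq_eq_norm_sq]
  rw [hreal] at hdiag
  have h6 := Complex.hasSum_ofReal.mp hdiag
  have h7 := h6.mul_left (1 / (2 * π))
  have hpi := Real.pi_pos
  have h8 : (fun n => ‖c n‖ ^ 2 * r ^ (2 * n))
      = fun n => 1 / (2 * π) * (2 * π * (‖c n‖ ^ 2 * r ^ (2 * n))) := by
    funext n
    field_simp
  rw [h8]
  exact h7

end Pool.Agent.M16.Helper22.Marshall

end

section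

set_option autoImplicit false

open MeasureTheory Set Metric Filter Topology

open scoped ENNReal NNReal Real Nat

namespace Pool.Agent.M16.Helper22.Marshall

/-- Taylor coefficient at zero. -/
noncomputable def coeff (f : ℂ → ℂ) (n : ℕ) : ℂ := (n ! : ℂ)⁻¹ * iteratedDeriv n f 0

theorem coeff_zero (f : ℂ → ℂ) : coeff f 0 = f 0 := by simp [coeff]

theorem hasSum_coeff {f : ℂ → ℂ} (hf : DifferentiableOn ℂ f (ball 0 1)) {z : ℂ}
    (hz : ‖z‖ < 1) : HasSum (fun n => coeff f n * z ^ n) (f z) := by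
  have h := Complex.hasSum_taylorSeries_on_ball (c := 0) (r := 1) (z := z) hf (by simpa using hz)
  have : (fun n => coeff f n * z ^ n)
      = fun n : ℕ => (n ! : ℂ)⁻¹ • (z - 0) ^ n • iteratedDeriv n f 0 := by
    funext n
    simp only [coeff, smul_eq_mul, sub_zero]
    ring
  rw [this]
  exact h

theorem coeff_deriv (f : ℂ → ℂ) (n : ℕ) :
    coeff (deriv f) n = ((n : ℂ) + 1) * coeff f (n + 1) := by
  simp only [coeff, Nat.factorial_succ, Nat.cast_mul, Nat.cast_succ]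
  rw [iteratedDeriv_succ']
  have h1 : ((n : ℂ) + 1) ≠ 0 := Nat.cast_add_one_ne_zero n
  have h2 : ((n ! : ℕ) : ℂ) ≠ 0 := Nat.cast_ne_zero.mpr (Nat.factorial_ne_zero n)
  field_simp

theorem differentiableOn_deriv {f : ℂ → ℂ} (hf : DifferentiableOn ℂ f (ball 0 1)) :
    DifferentiableOn ℂ (deriv f) (ball 0 1) := hf.deriv isOpen_ball

theorem hasSum_coeff_deriv {f : ℂ → ℂ} (hf : DifferentiableOn ℂ f (ball 0 1)) {z : ℂ}
    (hz : ‖z‖ < 1) : HasSum (fun n : ℕ => (n : ℂ) * coeff f n * z ^ n) (z * deriv f z) := by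
  have h := (hasSum_coeff (differentiableOn_deriv hf) hz).mul_left z
  have h2 : HasSum (fun n : ℕ => ((n + 1 : ℕ) : ℂ) * coeff f (n + 1) * z ^ (n + 1))
      (z * deriv f z) := by
    have : (fun n : ℕ => ((n + 1 : ℕ) : ℂ) * coeff f (n + 1) * z ^ (n + 1))
        = fun n => z * (coeff (deriv f) n * z ^ n) := by
      funext n
      rw [coeff_deriv]
      push_cast
      ring
    rw [this]
    exact h
  rw [← hasSum_nat_add_iff' 1]
  simpa using h2

theorem parseval_comb {f : ℂ → ℂ} (hf : DifferentiableOn ℂ f (ball 0 1)) (α β : ℂ) {r : ℝ}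
    (hr : 0 ≤ r) (hr1 : r < 1) :
    HasSum (fun n : ℕ => ‖(α * n + β) * coeff f n‖ ^ 2 * r ^ (2 * n))
      ((1 / (2 * π)) * ∫ θ in (-π)..π,
        ‖α * (((r : ℂ) * Complex.exp ((θ : ℂ) * Complex.I)) *
          deriv f ((r : ℂ) * Complex.exp ((θ : ℂ) * Complex.I)))
          + β * f ((r : ℂ) * Complex.exp ((θ : ℂ) * Complex.I))‖ ^ 2) := by
  have hsum : ∀ z : ℂ, ‖z‖ < 1 → HasSum (fun n : ℕ => (α * n + β) * coeff f n * z ^ n)
      (α * (z * deriv f z) + β * f z) := by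
    intro z hz
    have h1 := (hasSum_coeff_deriv hf hz).mul_left α
    have h2 := (hasSum_coeff hf hz).mul_left β
    have h3 := h1.add h2
    have : (fun n : ℕ => (α * n + β) * coeff f n * z ^ n)
        = fun n : ℕ => α * ((n : ℂ) * coeff f n * z ^ n) + β * (coeff f n * z ^ n) := by
      funext n
      ring
    rw [this]
    exact h3
  have hnorm : ∀ θ : ℝ, ‖(r : ℂ) * Complex.exp ((θ : ℂ) * Complex.I)‖ = r := by
    intro θ
    rw [norm_mul, Complex.norm_exp_ofReal_mul_I, mul_one, Complex.norm_real,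
      Real.norm_of_nonneg hr]
  apply parseval_aux (fun n : ℕ => (α * n + β) * coeff f n) r hr
  · have h := (hsum (r : ℂ) (by rw [Complex.norm_real, Real.norm_of_nonneg hr]; exact hr1)).summable
    have h2 := h.norm
    have : (fun n : ℕ => ‖(α * n + β) * coeff f n‖ * r ^ n)
        = fun n : ℕ => ‖(α * n + β) * coeff f n * (r : ℂ) ^ n‖ := by
      funext n
      rw [norm_mul _ ((r : ℂ) ^ n), norm_pow, Complex.norm_real, Real.norm_of_nonneg hr]
    rw [this]
    exact h2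
  · intro θ
    exact hsum _ (by rw [hnorm]; exact hr1)

end Pool.Agent.M16.Helper22.Marshall

end

section

set_option autoImplicit false

open MeasureTheory Set Metric Filter Topology

open scoped ENNReal NNReal Real Nat

namespace Pool.Agent.M16.Helper22.Marshall

theorem coeff_mul {f g : ℂ → ℂ} (hf : AnalyticAt ℂ f 0) (hg : AnalyticAt ℂ g 0) (n : ℕ) :
    coeff (fun z => f z * g z) n = ∑ i ∈ Finset.range (n + 1), coeff f i * coeff g (n - i) := by
  unfold coeff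
  have h := iteratedDeriv_mul (n := n) (x := (0 : ℂ)) hf.contDiffAt hg.contDiffAt
  have e : (fun z => f z * g z) = f * g := rfl
  rw [e, h, Finset.mul_sum]
  apply Finset.sum_congr rfl
  intro i hi
  rw [Finset.mem_range] at hi
  have h2 : (n.choose i : ℂ) * ((i ! : ℕ) : ℂ) * (((n - i)! : ℕ) : ℂ) = ((n ! : ℕ) : ℂ) := by
    exact_mod_cast Nat.choose_mul_factorial_mul_factorial (by omega : i ≤ n)
  have h3 : ((n ! : ℕ) : ℂ) ≠ 0 := Nat.cast_ne_zero.mpr (Nat.factorial_ne_zero n)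
  have h4 : ((i ! : ℕ) : ℂ) ≠ 0 := Nat.cast_ne_zero.mpr (Nat.factorial_ne_zero i)
  have h5 : (((n - i)! : ℕ) : ℂ) ≠ 0 := Nat.cast_ne_zero.mpr (Nat.factorial_ne_zero _)
  rw [← h2]
  have h6 : (n.choose i : ℂ) ≠ 0 := by
    intro h
    rw [h, zero_mul, zero_mul] at h2
    exact h3 h2.symm
  field_simp

theorem coeff_congr {f g : ℂ → ℂ} (h : f =ᶠ[𝓝 0] g) (n : ℕ) : coeff f n = coeff g n := by
  unfold coeff
  rw [h.iteratedDeriv_eq]

theorem coeff_const_mul (c : ℂ) (f : ℂ → ℂ) (n : ℕ) :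
    coeff (fun z => c * f z) n = c * coeff f n := by
  unfold coeff
  rw [iteratedDeriv_const_mul_field]
  ring

/-- uniqueness of Taylor coefficients -/
theorem coeff_eq_of_hasSum {f : ℂ → ℂ} {a : ℕ → ℂ} {r : ℝ} (hr : 0 < r)
    (h : ∀ z : ℂ, ‖z‖ < r → HasSum (fun n => a n * z ^ n) (f z)) (n : ℕ) : coeff f n = a n := by
  have hp : HasFPowerSeriesAt f (FormalMultilinearSeries.ofScalars ℂ a) 0 := by
    rw [hasFPowerSeriesAt_iff]
    filter_upwards [ball_mem_nhds (0 : ℂ) hr] with z hz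
    rw [mem_ball_zero_iff] at hz
    have e : (fun n => z ^ n • (FormalMultilinearSeries.ofScalars ℂ a).coeff n)
        = fun n => a n * z ^ n := by
      funext n
      rw [FormalMultilinearSeries.coeff_ofScalars, smul_eq_mul, mul_comm]
    rw [e, zero_add]
    exact h z hz
  have han : AnalyticAt ℂ f 0 := hp.analyticAt
  have h2 := han.hasFPowerSeriesAt
  have h3 := hp.eq_formalMultilinearSeries h2
  have h4 := congrArg (fun p : FormalMultilinearSeries ℂ ℂ ℂ => p.coeff n) h3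
  simp only [FormalMultilinearSeries.coeff_ofScalars] at h4
  rw [h4]
  unfold coeff
  rw [div_eq_inv_mul]

end Pool.Agent.M16.Helper22.Marshall

end

section

set_option autoImplicit false

open MeasureTheory Set Metric Filter Topology

open scoped ENNReal NNReal Real Nat

namespace Pool.Agent.M16.Helper22.Marshall

theorem hasSum_integral_bound {g : ℕ → ℝ → ℂ} (hg : ∀ n, Continuous (g n)) {B : ℕ → ℝ}
    (hB : Summable B) (hgB : ∀ n α, ‖g n α‖ ≤ B n) {G : ℝ → ℂ}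
    (hG : ∀ α, HasSum (fun n => g n α) (G α)) :
    HasSum (fun n => ∫ α in (-π)..π, g n α) (∫ α in (-π)..π, G α) := by
  have hpi : (-π : ℝ) ≤ π := by linarith only [Real.pi_pos]
  simp_rw [intervalIntegral.integral_of_le hpi]
  have h2 := hasSum_integral_of_summable_integral_norm (μ := volume.restrict (Ioc (-π) π))
    (F := g) (fun n => (hg n).integrableOn_Ioc) ?_
  · have h3 : (fun α => ∑' n, g n α) = G := by
      funext α
      exact (hG α).tsum_eq
    rw [h3] at h2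
    exact h2
  · apply (hB.mul_left (2 * π)).of_nonneg_of_le
    · intro n
      exact integral_nonneg fun α => norm_nonneg _
    · intro n
      calc ∫ α in Ioc (-π) π, ‖g n α‖ ≤ ∫ α in Ioc (-π) π, B n := by
            apply integral_mono
            · exact ((hg n).norm).integrableOn_Ioc
            · exact integrable_const _
            · intro α; exact hgB n α
        _ = 2 * π * B n := by
            rw [setIntegral_const, smul_eq_mul, Real.volume_real_Ioc_of_le hpi]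
            ring

/-- the point `r e^{iα}` -/
noncomputable def pt (r α : ℝ) : ℂ := (r : ℂ) * Complex.exp ((α : ℂ) * Complex.I)

theorem norm_pt {r : ℝ} (hr : 0 ≤ r) (α : ℝ) : ‖pt r α‖ = r := by
  unfold pt
  rw [norm_mul, Complex.norm_exp_ofReal_mul_I, mul_one, Complex.norm_real, Real.norm_of_nonneg hr]

theorem continuous_pt (r : ℝ) : Continuous (pt r) := by unfold pt; fun_prop

theorem pt_mem {r : ℝ} (hr : 0 ≤ r) (hr1 : r < 1) (α : ℝ) : pt r α ∈ ball (0 : ℂ) 1 := by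
  rw [mem_ball_zero_iff, norm_pt hr]; exact hr1

theorem circle_coeff {f : ℂ → ℂ} (hf : DifferentiableOn ℂ f (ball 0 1)) {r : ℝ} (hr : 0 ≤ r)
    (hr1 : r < 1) (k : ℕ) :
    ∫ α in (-π)..π, f (pt r α) * Complex.exp (-(k : ℂ) * α * Complex.I)
      = 2 * π * (coeff f k * (r : ℂ) ^ k) := by
  have hs : Summable fun n => ‖coeff f n * (r : ℂ) ^ n‖ :=
    (hasSum_coeff hf (z := (r : ℂ)) (by
      rw [Complex.norm_real, Real.norm_of_nonneg hr]; exact hr1)).summable.norm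
  have h1 := hasSum_integral_bound
    (g := fun n α => coeff f n * pt r α ^ n * Complex.exp (-(k : ℂ) * α * Complex.I))
    (fun n => by
      have := continuous_pt r
      fun_prop)
    hs (G := fun α => f (pt r α) * Complex.exp (-(k : ℂ) * α * Complex.I))
    (fun n α => by
      have e : -(k : ℂ) * α * Complex.I = ((-(k : ℝ) * α : ℝ) : ℂ) * Complex.I := by push_cast; ring
      rw [norm_mul, e, Complex.norm_exp_ofReal_mul_I, mul_one, norm_mul, norm_pow, norm_pt hr,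
        norm_mul, norm_pow, Complex.norm_real, Real.norm_of_nonneg hr])
    (fun α => by
      have := hasSum_coeff hf (z := pt r α) (by rw [norm_pt hr]; exact hr1)
      exact this.mul_right _)
  have h2 : ∀ n : ℕ, ∫ α in (-π)..π, coeff f n * pt r α ^ n * Complex.exp (-(k : ℂ) * α * Complex.I)
      = if n = k then 2 * π * (coeff f k * (r : ℂ) ^ k) else 0 := by
    intro n
    have e : ∀ α : ℝ, coeff f n * pt r α ^ n * Complex.exp (-(k : ℂ) * α * Complex.I)
        = (coeff f n * (r : ℂ) ^ n) * Complex.exp (((n : ℤ) - (k : ℤ) : ℤ) * (α : ℂ) * Complex.I) := by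
      intro α
      unfold pt
      have e2 : Complex.exp ((n : ℂ) * ((α : ℂ) * Complex.I))
          * Complex.exp (-(k : ℂ) * α * Complex.I)
          = Complex.exp (((n : ℤ) - (k : ℤ) : ℤ) * (α : ℂ) * Complex.I) := by
        rw [← Complex.exp_add]
        congr 1
        push_cast
        ring
      rw [mul_pow, ← Complex.exp_nat_mul, ← e2]
      ring
    simp_rw [e]
    rw [intervalIntegral.integral_const_mul]
    split_ifs with h
    · subst h
      simp
      ring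
    · rw [integral_exp_int _ (by omega), mul_zero]
  simp_rw [h2] at h1
  have h3 := h1.unique (hasSum_ite_eq k _)
  exact h3

/-- the data of a separately holomorphic continuous function -/
structure SepHol (U : ℂ → ℂ → ℂ) : Prop where
  cont : ContinuousOn (fun p : ℂ × ℂ => U p.1 p.2) (ball 0 1 ×ˢ ball 0 1)
  left : ∀ w ∈ ball (0 : ℂ) 1, DifferentiableOn ℂ (fun z => U z w) (ball 0 1)
  right : ∀ z ∈ ball (0 : ℂ) 1, DifferentiableOn ℂ (fun w => U z w) (ball 0 1)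

theorem SepHol.swap {U : ℂ → ℂ → ℂ} (h : SepHol U) : SepHol (fun z w => U w z) where
  cont := by
    have := h.cont.comp (f := fun p : ℂ × ℂ => (p.2, p.1)) (s := ball 0 1 ×ˢ ball 0 1)
      (by fun_prop) (fun p hp => ⟨hp.2, hp.1⟩)
    exact this
  left := h.right
  right := h.left

theorem SepHol.bound {U : ℂ → ℂ → ℂ} (h : SepHol U) {r : ℝ} (hr1 : r < 1) :
    ∃ M : ℝ, 0 ≤ M ∧ ∀ z w : ℂ, ‖z‖ ≤ r → ‖w‖ ≤ r → ‖U z w‖ ≤ M := by
  have hc : IsCompact (closedBall (0 : ℂ) r ×ˢ closedBall (0 : ℂ) r) :=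
    (isCompact_closedBall _ _).prod (isCompact_closedBall _ _)
  obtain ⟨M, hM⟩ := hc.exists_bound_of_continuousOn (h.cont.mono (by
    apply Set.prod_mono <;> exact closedBall_subset_ball hr1))
  refine ⟨max M 0, le_max_right _ _, fun z w hz hw => ?_⟩
  exact (hM (z, w) ⟨mem_closedBall_zero_iff.mpr hz, mem_closedBall_zero_iff.mpr hw⟩).trans
    (le_max_left _ _)

theorem coeff_bound {f : ℂ → ℂ} (hf : DifferentiableOn ℂ f (ball 0 1)) {r M : ℝ} (hr : 0 < r)
    (hr1 : r < 1) (hM : ∀ z, ‖z‖ ≤ r → ‖f z‖ ≤ M) (n : ℕ) : ‖coeff f n‖ * r ^ n ≤ M := by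
  have h1 : ‖∫ α in (-π)..π, f (pt r α) * Complex.exp (-(n : ℂ) * α * Complex.I)‖
      ≤ M * |π - (-π)| := by
    apply intervalIntegral.norm_integral_le_of_norm_le_const
    intro α _
    have e : -(n : ℂ) * α * Complex.I = ((-(n : ℝ) * α : ℝ) : ℂ) * Complex.I := by push_cast; ring
    rw [norm_mul, e, Complex.norm_exp_ofReal_mul_I, mul_one]
    exact hM _ (norm_pt hr.le α).le
  rw [circle_coeff hf hr.le hr1, norm_mul (2 * π : ℂ), norm_mul (coeff f n), norm_pow,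
    Complex.norm_real, Real.norm_of_nonneg hr.le] at h1
  have hpi := Real.pi_pos
  have h2 : |π - (-π)| = 2 * π := by rw [abs_of_pos (by linarith only [hpi])]; ring
  have h3 : ‖(2 * π : ℂ)‖ = 2 * π := by
    rw [norm_mul, Complex.norm_real, Real.norm_of_nonneg hpi.le]; simp
  rw [h2, h3] at h1
  have h4 : 2 * π * (‖coeff f n‖ * r ^ n) ≤ 2 * π * M := by linarith only [h1]
  exact le_of_mul_le_mul_left h4 (by positivity)

/-- for fixed `k`, the coefficient functions are given by a power series -/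
theorem SepHol.param {U : ℂ → ℂ → ℂ} (h : SepHol U) {r : ℝ} (hr : 0 < r) (hr1 : r < 1) (k : ℕ)
    {w : ℂ} (hw : ‖w‖ < r) :
    HasSum (fun l : ℕ => (∫ α in (-π)..π, coeff (U (pt r α)) l
        * Complex.exp (-(k : ℂ) * α * Complex.I)) * w ^ l)
      (2 * π * (coeff (fun z => U z w) k * (r : ℂ) ^ k)) := by
  have hw1 : w ∈ ball (0 : ℂ) 1 := mem_ball_zero_iff.mpr (hw.trans hr1)
  rw [← circle_coeff (h.left w hw1) hr.le hr1 k]
  obtain ⟨M, hM0, hM⟩ := h.bound hr1
  have hcb : ∀ (l : ℕ) (α : ℝ), ‖coeff (U (pt r α)) l‖ * r ^ l ≤ M := fun l α =>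
    coeff_bound (h.right _ (pt_mem hr.le hr1 α)) hr hr1
      (fun z hz => hM _ _ (norm_pt hr.le α).le hz) l
  have hcont : ∀ l : ℕ, Continuous (fun α : ℝ => coeff (U (pt r α)) l) := by
    intro l
    have h1 : ∀ α : ℝ, coeff (U (pt r α)) l = (2 * π * (r : ℂ) ^ l)⁻¹ *
        ∫ β in (-π)..π, U (pt r α) (pt r β) * Complex.exp (-(l : ℂ) * β * Complex.I) := by
      intro α
      rw [circle_coeff (h.right _ (pt_mem hr.le hr1 α)) hr.le hr1]
      have h3 : (r : ℂ) ≠ 0 := by exact_mod_cast hr.ne'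
      have h4 : (π : ℂ) ≠ 0 := by exact_mod_cast Real.pi_pos.ne'
      field_simp
    have h5 : (fun α : ℝ => coeff (U (pt r α)) l) = fun α => (2 * π * (r : ℂ) ^ l)⁻¹ *
        ∫ β in (-π)..π, U (pt r α) (pt r β) * Complex.exp (-(l : ℂ) * β * Complex.I) := by
      funext α; exact h1 α
    rw [h5]
    apply Continuous.mul continuous_const
    apply intervalIntegral.continuous_parametric_intervalIntegral_of_continuous'
    apply Continuous.mul
    · have := h.cont.comp_continuous (f := fun p : ℝ × ℝ => (pt r p.1, pt r p.2))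
        (by
          have := continuous_pt r
          fun_prop)
        (fun p => ⟨pt_mem hr.le hr1 _, pt_mem hr.le hr1 _⟩)
      exact this
    · fun_prop
  have hr' : ‖w‖ / r < 1 := (div_lt_one hr).mpr hw
  have h3 := hasSum_integral_bound
    (g := fun l α => coeff (U (pt r α)) l * Complex.exp (-(k : ℂ) * α * Complex.I) * w ^ l)
    (B := fun l => M * (‖w‖ / r) ^ l)
    (G := fun α => U (pt r α) w * Complex.exp (-(k : ℂ) * α * Complex.I))
    (fun l => by
      have := hcont l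
      fun_prop)
    ((summable_geometric_of_lt_one (by positivity) hr').mul_left M)
    (fun l α => by
      have e : -(k : ℂ) * α * Complex.I = ((-(k : ℝ) * α : ℝ) : ℂ) * Complex.I := by push_cast; ring
      rw [norm_mul, norm_mul, e, Complex.norm_exp_ofReal_mul_I, mul_one, norm_pow]
      have h6 := hcb l α
      have h7 : ‖coeff (U (pt r α)) l‖ ≤ M / r ^ l := by
        rw [le_div_iff₀ (by positivity)]; exact h6
      calc ‖coeff (U (pt r α)) l‖ * ‖w‖ ^ l ≤ M / r ^ l * ‖w‖ ^ l := by gcongr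
        _ = M * (‖w‖ / r) ^ l := by rw [div_pow]; ring)
    (fun α => by
      have := hasSum_coeff (h.right _ (pt_mem hr.le hr1 α)) (z := w) (by
        exact hw.trans hr1)
      have h8 := this.mul_right (Complex.exp (-(k : ℂ) * α * Complex.I))
      have e : (fun l => coeff (U (pt r α)) l * Complex.exp (-(k : ℂ) * α * Complex.I) * w ^ l)
          = fun l => coeff (fun w => U (pt r α) w) l * w ^ l
            * Complex.exp (-(k : ℂ) * α * Complex.I) := by
        funext l; ring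
      rw [e]
      exact h8)
  have e : (fun l : ℕ => (∫ α in (-π)..π, coeff (U (pt r α)) l
        * Complex.exp (-(k : ℂ) * α * Complex.I)) * w ^ l)
      = fun l : ℕ => ∫ α in (-π)..π, coeff (U (pt r α)) l
        * Complex.exp (-(k : ℂ) * α * Complex.I) * w ^ l := by
    funext l
    rw [intervalIntegral.integral_mul_const]
  rw [e]
  exact h3

theorem SepHol.coeff_diff {U : ℂ → ℂ → ℂ} (h : SepHol U) (k : ℕ) :
    DifferentiableOn ℂ (fun w => coeff (fun z => U z w) k) (ball 0 1) := by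
  intro w hw
  rw [mem_ball_zero_iff] at hw
  obtain ⟨r, hr1, hr2⟩ := exists_between hw
  have hr : 0 < r := (norm_nonneg w).trans_lt hr1
  have hr0 : (r : ℂ) ≠ 0 := by exact_mod_cast hr.ne'
  have hpi : (π : ℂ) ≠ 0 := by exact_mod_cast Real.pi_pos.ne'
  have hne : (2 * π * (r : ℂ) ^ k : ℂ) ≠ 0 :=
    mul_ne_zero (mul_ne_zero two_ne_zero hpi) (pow_ne_zero _ hr0)
  obtain ⟨a, ha⟩ : ∃ a : ℕ → ℂ, ∀ z : ℂ, ‖z‖ < r →
      HasSum (fun l => a l * z ^ l) (coeff (fun z' => U z' z) k) := by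
    refine ⟨fun l => (2 * π * (r : ℂ) ^ k)⁻¹ * ∫ α in (-π)..π, coeff (U (pt r α)) l
        * Complex.exp (-(k : ℂ) * α * Complex.I), fun z hz => ?_⟩
    have h1 := (h.param hr hr2 k hz).mul_left (2 * π * (r : ℂ) ^ k)⁻¹
    have e : (2 * π * (r : ℂ) ^ k)⁻¹ * (2 * π * (coeff (fun z' => U z' z) k * (r : ℂ) ^ k))
        = coeff (fun z' => U z' z) k := by
      field_simp
    rw [e] at h1
    have e2 : (fun l => (2 * π * (r : ℂ) ^ k)⁻¹ * (∫ α in (-π)..π, coeff (U (pt r α)) l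
        * Complex.exp (-(k : ℂ) * α * Complex.I)) * z ^ l)
        = fun l => (2 * π * (r : ℂ) ^ k)⁻¹ * ((∫ α in (-π)..π, coeff (U (pt r α)) l
        * Complex.exp (-(k : ℂ) * α * Complex.I)) * z ^ l) := by
      funext l; ring
    rw [e2]
    exact h1
  obtain ⟨r', hr1', hr2'⟩ := exists_between hr1
  have hr'0 : 0 < r' := (norm_nonneg w).trans_lt hr1'
  have hsum : Summable fun l => ‖a l‖ * r' ^ l := by
    have := (ha (r' : ℂ) (by rw [Complex.norm_real, Real.norm_of_nonneg hr'0.le]; exact hr2')).summable.norm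
    simpa [norm_mul, norm_pow, Complex.norm_real, abs_of_pos hr'0] using this
  have hd := Complex.differentiableOn_tsum_of_summable_norm (F := fun l z => a l * z ^ l) hsum
    (U := ball (0 : ℂ) r') (fun l => by fun_prop) isOpen_ball
    (fun l z hz => by
      rw [mem_ball_zero_iff] at hz
      rw [norm_mul, norm_pow]
      gcongr)
  have hww : w ∈ ball (0 : ℂ) r' := mem_ball_zero_iff.mpr hr1'
  have h2 := hd.differentiableAt (isOpen_ball.mem_nhds hww)
  apply DifferentiableAt.differentiableWithinAt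
  apply h2.congr_of_eventuallyEq
  filter_upwards [isOpen_ball.mem_nhds hww] with z hz
  rw [mem_ball_zero_iff] at hz
  exact (ha z (hz.trans hr2')).tsum_eq.symm

/-- the order of extracting coefficients does not matter -/
theorem SepHol.coeff_comm {U : ℂ → ℂ → ℂ} (h : SepHol U) (k l : ℕ) :
    coeff (fun w => coeff (fun z => U z w) k) l = coeff (fun z => coeff (fun w => U z w) l) k := by
  have hr0 : ((1 / 2 : ℝ) : ℂ) ≠ 0 := by norm_num
  have hpi : (π : ℂ) ≠ 0 := by exact_mod_cast Real.pi_pos.ne'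
  have hne : (2 * π * ((1 / 2 : ℝ) : ℂ) ^ k : ℂ) ≠ 0 :=
    mul_ne_zero (mul_ne_zero two_ne_zero hpi) (pow_ne_zero _ hr0)
  have h1 := coeff_eq_of_hasSum (f := fun w => 2 * π * (coeff (fun z => U z w) k * ((1 / 2 : ℝ) : ℂ) ^ k))
    (r := 1 / 2) (by norm_num) (fun w hw => h.param (r := 1 / 2) (by norm_num) (by norm_num) k hw) l
  have e1 : coeff (fun w => 2 * π * (coeff (fun z => U z w) k * ((1 / 2 : ℝ) : ℂ) ^ k)) l
      = (2 * π * ((1 / 2 : ℝ) : ℂ) ^ k) * coeff (fun w => coeff (fun z => U z w) k) l := by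
    rw [← coeff_const_mul]
    congr 1
    funext w
    ring
  rw [e1] at h1
  have h2 := circle_coeff (f := fun z => coeff (fun w => U z w) l) (h.swap.coeff_diff l)
    (r := 1 / 2) (by norm_num) (by norm_num) k
  rw [h2] at h1
  have : (2 * π * ((1 / 2 : ℝ) : ℂ) ^ k) * coeff (fun w => coeff (fun z => U z w) k) l
      = (2 * π * ((1 / 2 : ℝ) : ℂ) ^ k) * coeff (fun z => coeff (fun w => U z w) l) k := by
    rw [h1]; ring
  exact mul_left_cancel₀ hne this

/-- double Taylor coefficients -/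
noncomputable def dcoeff (U : ℂ → ℂ → ℂ) (k l : ℕ) : ℂ :=
  coeff (fun z => coeff (fun w => U z w) l) k

theorem SepHol.dcoeff_bound {U : ℂ → ℂ → ℂ} (h : SepHol U) {r : ℝ} (hr : 0 < r) (hr1 : r < 1) :
    ∃ M : ℝ, 0 ≤ M ∧ ∀ k l : ℕ, ‖dcoeff U k l‖ * r ^ k * r ^ l ≤ M := by
  obtain ⟨M, hM0, hM⟩ := h.bound hr1
  refine ⟨M, hM0, fun k l => ?_⟩
  have h1 : ∀ z, ‖z‖ ≤ r → ‖coeff (fun w => U z w) l‖ ≤ M / r ^ l := by
    intro z hz
    rw [le_div_iff₀ (by positivity)]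
    exact coeff_bound (h.right z (mem_ball_zero_iff.mpr (hz.trans_lt hr1))) hr hr1
      (fun w hw => hM z w hz hw) l
  have h2 := coeff_bound (f := fun z => coeff (fun w => U z w) l) (h.swap.coeff_diff l) hr hr1 h1 k
  rw [le_div_iff₀ (by positivity)] at h2
  exact h2

theorem SepHol.hasSum_left {U : ℂ → ℂ → ℂ} (h : SepHol U) {z : ℂ} (hz : ‖z‖ < 1) (l : ℕ) :
    HasSum (fun k => dcoeff U k l * z ^ k) (coeff (fun w => U z w) l) :=
  hasSum_coeff (f := fun z => coeff (fun w => U z w) l) (h.swap.coeff_diff l) hz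

/-- the diagonal -/
theorem SepHol.hasSum_diag {U : ℂ → ℂ → ℂ} (h : SepHol U) (m : ℕ) :
    coeff (fun z => U z z) m = ∑ k ∈ Finset.range (m + 1), dcoeff U k (m - k) := by
  apply coeff_eq_of_hasSum (r := 1 / 4) (by norm_num)
    (a := fun m => ∑ k ∈ Finset.range (m + 1), dcoeff U k (m - k))
  intro z hz
  obtain ⟨M, hM0, hM⟩ := h.dcoeff_bound (r := 1 / 2) (by norm_num) (by norm_num)
  have hz1 : ‖z‖ < 1 := by linarith only [hz]
  have hb : ∀ k l : ℕ, ‖dcoeff U k l * z ^ k * z ^ l‖ ≤ M * ((2 * ‖z‖) ^ k * (2 * ‖z‖) ^ l) := by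
    intro k l
    rw [norm_mul, norm_mul, norm_pow, norm_pow]
    have h1 := hM k l
    have h2 : ‖dcoeff U k l‖ ≤ M * (2 ^ k * 2 ^ l) := by
      have e : ‖dcoeff U k l‖ = (‖dcoeff U k l‖ * (1 / 2) ^ k * (1 / 2) ^ l) * (2 ^ k * 2 ^ l) := by
        rw [one_div, inv_pow, inv_pow]
        field_simp
      rw [e]
      exact mul_le_mul_of_nonneg_right h1 (by positivity)
    calc ‖dcoeff U k l‖ * ‖z‖ ^ k * ‖z‖ ^ l ≤ M * (2 ^ k * 2 ^ l) * ‖z‖ ^ k * ‖z‖ ^ l := by gcongr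
      _ = M * ((2 * ‖z‖) ^ k * (2 * ‖z‖) ^ l) := by rw [mul_pow, mul_pow]; ring
  have hg : Summable fun k : ℕ => (2 * ‖z‖) ^ k :=
    summable_geometric_of_lt_one (by positivity) (by linarith)
  have hs : Summable fun p : ℕ × ℕ => dcoeff U p.1 p.2 * z ^ p.1 * z ^ p.2 := by
    apply Summable.of_norm_bounded ((hg.mul_of_nonneg hg (fun _ => by positivity)
      (fun _ => by positivity)).mul_left M)
    intro p
    exact hb p.1 p.2
  have h1 : HasSum (fun p : ℕ × ℕ => dcoeff U p.1 p.2 * z ^ p.1 * z ^ p.2) (U z z) := by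
    have h2 := hs.hasSum
    have h3 : ∑' p : ℕ × ℕ, dcoeff U p.1 p.2 * z ^ p.1 * z ^ p.2 = U z z := by
      have e0 : ∑' p : ℕ × ℕ, dcoeff U p.1 p.2 * z ^ p.1 * z ^ p.2
          = ∑' p : ℕ × ℕ, dcoeff U p.2 p.1 * z ^ p.2 * z ^ p.1 :=
        ((Equiv.prodComm ℕ ℕ).tsum_eq
          (fun p : ℕ × ℕ => dcoeff U p.1 p.2 * z ^ p.1 * z ^ p.2)).symm
      have hs' : Summable fun p : ℕ × ℕ => dcoeff U p.2 p.1 * z ^ p.2 * z ^ p.1 :=
        (Equiv.prodComm ℕ ℕ).summable_iff.mpr hs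
      rw [e0, Summable.tsum_prod hs']
      have h4 : ∀ l : ℕ, ∑' k : ℕ, dcoeff U k l * z ^ k * z ^ l
          = coeff (fun w => U z w) l * z ^ l := by
        intro l
        rw [tsum_mul_right, (h.hasSum_left hz1 l).tsum_eq]
      simp_rw [h4]
      exact (hasSum_coeff (h.right z (mem_ball_zero_iff.mpr hz1)) hz1).tsum_eq
    rw [h3] at h2
    exact h2
  have h5 := hs.norm
  have h6 := (Finset.HasAntidiagonal.sigmaAntidiagonalEquivProd (A := ℕ)).hasSum_iff.mpr h1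
  have h7 := h6.sigma (g := fun m => (∑ k ∈ Finset.range (m + 1), dcoeff U k (m - k)) * z ^ m) (by
    intro m
    have h8 := hasSum_fintype (fun c : {x : ℕ × ℕ // x ∈ Finset.HasAntidiagonal.antidiagonal m} =>
      dcoeff U (c : ℕ × ℕ).1 (c : ℕ × ℕ).2 * z ^ (c : ℕ × ℕ).1 * z ^ (c : ℕ × ℕ).2)
    have h9 : ∑ c : {x : ℕ × ℕ // x ∈ Finset.HasAntidiagonal.antidiagonal m}, dcoeff U (c : ℕ × ℕ).1 (c : ℕ × ℕ).2
        * z ^ (c : ℕ × ℕ).1 * z ^ (c : ℕ × ℕ).2
        = (∑ k ∈ Finset.range (m + 1), dcoeff U k (m - k)) * z ^ m := by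
      rw [Finset.sum_coe_sort (Finset.HasAntidiagonal.antidiagonal m)
        (fun c : ℕ × ℕ => dcoeff U c.1 c.2 * z ^ c.1 * z ^ c.2)]
      rw [Finset.Nat.sum_antidiagonal_eq_sum_range_succ
        (fun k l => dcoeff U k l * z ^ k * z ^ l), Finset.sum_mul]
      apply Finset.sum_congr rfl
      intro k hk
      rw [Finset.mem_range] at hk
      rw [mul_assoc, ← pow_add]
      congr 2
      omega
    rw [h9] at h8
    exact h8)
  exact h7

end Pool.Agent.M16.Helper22.Marshall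

end

end

section

section

set_option autoImplicit false

open Complex MeasureTheory Metric Set

open scoped Real ENNReal ComplexConjugate

namespace Pool.Agent.M16.Helper39.Area

theorem circle_inv_out {ρ : ℝ} (hρ : 0 < ρ) {v : ℂ} (hv : ρ < ‖v‖) :
    (∮ w in C(0, ρ), (v - w)⁻¹) = 0 := by
  apply Complex.circleIntegral_eq_zero_of_differentiable_on_off_countable hρ.le countable_empty
  · apply ContinuousOn.inv₀ (by fun_prop)
    intro w hw h
    rw [sub_eq_zero] at h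
    subst h
    rw [mem_closedBall, dist_zero_right] at hw
    linarith only [hv, hw]
  · intro w hw
    have hw' : w ∈ ball (0:ℂ) ρ := hw.1
    apply DifferentiableAt.inv (by fun_prop)
    intro h
    rw [sub_eq_zero] at h
    subst h
    rw [mem_ball, dist_zero_right] at hw'
    linarith

theorem circle_inv_in {ρ : ℝ} {v : ℂ} (hv : ‖v‖ < ρ) :
    (∮ w in C(0, ρ), (v - w)⁻¹) = - (2 * π * I) := by
  have h := circleIntegral.integral_sub_inv_of_mem_ball (c := 0) (w := v) (R := ρ)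
    (by simpa using hv)
  have h2 : (∮ w in C(0, ρ), (v - w)⁻¹) = ∮ w in C(0, ρ), (-1 : ℂ) * (w - v)⁻¹ := by
    congr 1
    funext w
    rw [← neg_sub w v, inv_neg]; ring
  rw [h2, circleIntegral.integral_const_mul, h]
  ring

theorem circle_pow_inv (ρ : ℝ) (k : ℕ) :
    (∮ w in C(0, ρ), (w ^ (k + 2))⁻¹) = 0 := by
  have h := circleIntegral.integral_sub_zpow_of_ne (n := -((k:ℤ) + 2)) (by omega) (0:ℂ) 0 ρ
  rw [← h]
  congr 1
  funext w
  rw [sub_zero, zpow_neg]
  norm_cast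

theorem circle_inv_zero {ρ : ℝ} (hρ : 0 < ρ) :
    (∮ w in C(0, ρ), (w ^ (0 + 1))⁻¹) = 2 * π * I := by
  have h := circleIntegral.integral_sub_center_inv (0:ℂ) hρ.ne'
  simpa using h

theorem cont_pow_inv {ρ : ℝ} (hρ : 0 < ρ) (k : ℕ) :
    CircleIntegrable (fun w : ℂ => (w ^ k)⁻¹) 0 ρ := by
  apply ContinuousOn.circleIntegrable hρ.le
  apply ContinuousOn.inv₀ (by fun_prop)
  intro w hw
  apply pow_ne_zero
  rintro rfl
  simp at hw
  exact hρ.ne hw

theorem cont_sub_inv {ρ : ℝ} {v : ℂ} (hv : ‖v‖ ≠ ρ) :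
    ContinuousOn (fun w : ℂ => (v - w)⁻¹) (sphere 0 ρ) := by
  apply ContinuousOn.inv₀ (by fun_prop)
  intro w hw h
  rw [sub_eq_zero] at h
  subst h
  simp at hw
  exact hv hw

theorem circle_kernel {ρ : ℝ} (hρ : 0 < ρ) {v : ℂ} (hv0 : v ≠ 0) (hv : ‖v‖ ≠ ρ) (k : ℕ) :
    (∮ w in C(0, ρ), (w ^ (k + 1))⁻¹ * (v - w)⁻¹) =
      if ρ < ‖v‖ then 2 * π * I * (v ^ (k + 1))⁻¹ else 0 := by
  have hcs := cont_sub_inv hv
  have hint : ∀ j : ℕ, CircleIntegrable (fun w : ℂ => (w ^ j)⁻¹ * (v - w)⁻¹) 0 ρ := by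
    intro j
    apply ContinuousOn.circleIntegrable hρ.le
    apply ContinuousOn.mul _ hcs
    apply ContinuousOn.inv₀ (by fun_prop)
    intro w hw
    apply pow_ne_zero
    rintro rfl
    simp at hw
    exact hρ.ne hw
  have key : ∀ j : ℕ, (∮ w in C(0, ρ), (w ^ (j + 1))⁻¹ * (v - w)⁻¹) =
      v⁻¹ * ((∮ w in C(0, ρ), (w ^ (j + 1))⁻¹) + ∮ w in C(0, ρ), (w ^ j)⁻¹ * (v - w)⁻¹) := by
    intro j
    rw [← circleIntegral.integral_add (cont_pow_inv hρ _) (hint j),
      ← circleIntegral.integral_const_mul]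
    apply circleIntegral.integral_congr hρ.le
    intro w hw
    have hw0 : w ≠ 0 := by
      rintro rfl
      simp at hw
      exact hρ.ne hw
    have hvw : v - w ≠ 0 := by
      intro h
      rw [sub_eq_zero] at h
      subst h
      simp at hw
      exact hv hw
    simp only
    field_simp
    ring
  induction k with
  | zero =>
    rw [key 0, circle_inv_zero hρ]
    simp only [pow_zero, inv_one, one_mul]
    split_ifs with h
    · rw [circle_inv_out hρ h]; simp; ring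
    · rw [circle_inv_in (lt_of_le_of_ne (not_lt.mp h) hv)]; simp
  | succ k ih =>
    rw [key (k + 1), circle_pow_inv, ih]
    split_ifs with h
    · field_simp
      ring
    · simp

/-- the angular integral -/
theorem angular {ρ : ℝ} (hρ : 0 < ρ) {v : ℂ} (hv : ‖v‖ ≠ ρ) (k : ℕ) :
    (∫ θ in Ioo (-π) π, conj (Complex.polarCoord.symm (ρ, θ)) ^ k /
      (v - Complex.polarCoord.symm (ρ, θ))) =
      if ρ < ‖v‖ then 2 * π * ρ ^ (2 * k) * (v ^ (k + 1))⁻¹ else 0 := by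
  have e1 : ∀ θ : ℝ, Complex.polarCoord.symm (ρ, θ) = circleMap 0 ρ θ := by
    intro θ
    rw [Complex.polarCoord_symm_apply, circleMap, zero_add, Complex.exp_mul_I]
    simp
  simp_rw [e1]
  rw [← integral_Ioc_eq_integral_Ioo, ← intervalIntegral.integral_of_le (by linarith only [Real.pi_pos])]
  have hper : Function.Periodic (fun θ : ℝ => conj (circleMap 0 ρ θ) ^ k / (v - circleMap 0 ρ θ))
      (2 * π) := by
    intro θ
    simp only [periodic_circleMap 0 ρ θ]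
  have h2 := hper.intervalIntegral_add_eq (-π) 0
  rw [show -π + 2 * π = π by ring, zero_add] at h2
  rw [h2]
  -- express through a circle integral
  have e2 : (∫ θ in (0:ℝ)..2 * π, conj (circleMap 0 ρ θ) ^ k / (v - circleMap 0 ρ θ)) =
      (∮ w in C(0, ρ), ((ρ:ℂ) ^ (2 * k) * (-I)) * ((w ^ (k + 1))⁻¹ * (v - w)⁻¹)) := by
    rw [circleIntegral]
    apply intervalIntegral.integral_congr
    intro θ _
    simp only [deriv_circleMap, smul_eq_mul]
    have hne : circleMap 0 ρ θ ≠ 0 := circleMap_ne_center (c := 0) (θ := θ) hρ.ne'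
    have hc : conj (circleMap 0 ρ θ) = (ρ:ℂ) ^ 2 * (circleMap 0 ρ θ)⁻¹ := by
      rw [eq_mul_inv_iff_mul_eq₀ hne, mul_comm, Complex.mul_conj, Complex.normSq_eq_norm_sq]
      simp [abs_of_pos hρ]
    rw [hc, mul_pow, ← pow_mul, pow_succ, mul_inv, inv_pow, div_eq_mul_inv]
    have hI : I * -I = 1 := by simp
    linear_combination (-(((ρ:ℂ) ^ (2 * k)) * (circleMap 0 ρ θ ^ k)⁻¹ * (v - circleMap 0 ρ θ)⁻¹)) * hI * (circleMap 0 ρ θ * (circleMap 0 ρ θ)⁻¹) + (-(((ρ:ℂ) ^ (2 * k)) * (circleMap 0 ρ θ ^ k)⁻¹ * (v - circleMap 0 ρ θ)⁻¹)) * (mul_inv_cancel₀ hne)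
  rw [e2, circleIntegral.integral_const_mul]
  by_cases hv0 : v = 0
  · subst hv0
    have h3 : (∮ w in C(0, ρ), (w ^ (k + 1))⁻¹ * ((0:ℂ) - w)⁻¹) =
        ∮ w in C(0, ρ), (-1 : ℂ) * (w ^ (k + 2))⁻¹ := by
      congr 1
      funext w
      rw [zero_sub, inv_neg, pow_succ, pow_succ, pow_succ, mul_inv, mul_inv, mul_inv]
      ring
    rw [h3, circleIntegral.integral_const_mul, circle_pow_inv]
    simp
  · rw [circle_kernel hρ hv0 hv]
    split_ifs with h
    · have hI : I * -I = 1 := by simp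
      linear_combination (2 * π * (ρ:ℂ) ^ (2 * k) * (v ^ (k + 1))⁻¹) * hI
    · simp

/-- local integrability of the Cauchy kernel, uniformly -/
theorem lint_inv_ball (M : ℝ) :
    ∫⁻ u in ball (0:ℂ) M, ENNReal.ofReal (‖u‖⁻¹) ≤ ENNReal.ofReal (2 * π * M) := by
  rw [← lintegral_indicator measurableSet_ball, ← Complex.lintegral_comp_polarCoord_symm]
  calc _ ≤ ∫⁻ p in polarCoord.target, (Ioo 0 M ×ˢ Ioo (-π) π).indicator (fun _ => (1 : ℝ≥0∞)) p := by
        apply setLIntegral_mono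
        · exact measurable_const.indicator (measurableSet_Ioo.prod measurableSet_Ioo)
        rintro ⟨r, θ⟩ ⟨hr, hθ⟩
        simp only [mem_Ioi] at hr
        by_cases hrM : r < M
        · rw [indicator_of_mem (show (r, θ) ∈ Ioo 0 M ×ˢ Ioo (-π) π from ⟨⟨hr, hrM⟩, hθ⟩),
            indicator_of_mem (by rw [mem_ball, dist_zero_right, Complex.norm_polarCoord_symm, abs_of_pos hr]; exact hrM),
            Complex.norm_polarCoord_symm, abs_of_pos hr, smul_eq_mul, ← ENNReal.ofReal_mul hr.le,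
            mul_inv_cancel₀ hr.ne']
          simp
        · rw [indicator_of_notMem (by rw [mem_ball, dist_zero_right, Complex.norm_polarCoord_symm, abs_of_pos hr]; exact hrM)]
          simp
    _ ≤ ∫⁻ p, (Ioo 0 M ×ˢ Ioo (-π) π).indicator (fun _ => (1 : ℝ≥0∞)) p :=
        setLIntegral_le_lintegral _ _
    _ = ENNReal.ofReal (2 * π * M) := by
        rw [lintegral_indicator (measurableSet_Ioo.prod measurableSet_Ioo), setLIntegral_one,
          Measure.volume_eq_prod, Measure.prod_prod, Real.volume_Ioo, Real.volume_Ioo]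
        rcases le_total M 0 with h | h
        · rw [ENNReal.ofReal_of_nonpos (by linarith), zero_mul, ENNReal.ofReal_of_nonpos]
          nlinarith only [Real.pi_pos, h]
        · rw [← ENNReal.ofReal_mul (by linarith)]
          congr 1; ring

theorem lint_inv (v : ℂ) (M : ℝ) :
    ∫⁻ u in ball (0:ℂ) M, ENNReal.ofReal (‖v - u‖⁻¹) ≤ ENNReal.ofReal (2 * π * (‖v‖ + M)) := by
  rw [← lintegral_indicator measurableSet_ball]
  calc ∫⁻ u, (ball (0:ℂ) M).indicator (fun u => ENNReal.ofReal (‖v - u‖⁻¹)) u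
      ≤ ∫⁻ u, (ball (0:ℂ) (‖v‖ + M)).indicator (fun u => ENNReal.ofReal (‖u‖⁻¹)) (v - u) := by
        apply lintegral_mono
        intro u
        by_cases hu : u ∈ ball (0:ℂ) M
        · have h2 : v - u ∈ ball (0:ℂ) (‖v‖ + M) := by
            rw [mem_ball, dist_zero_right] at hu ⊢
            linarith [norm_sub_le v u]
          rw [indicator_of_mem hu]
          show _ ≤ (ball (0:ℂ) (‖v‖ + M)).indicator (fun u => ENNReal.ofReal (‖u‖⁻¹)) (v - u)
          rw [indicator_of_mem h2]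
        · rw [indicator_of_notMem hu]; exact zero_le
    _ = ∫⁻ u, (ball (0:ℂ) (‖v‖ + M)).indicator (fun u => ENNReal.ofReal (‖u‖⁻¹)) u :=
        lintegral_sub_left_eq_self _ v
    _ ≤ _ := by
        rw [lintegral_indicator measurableSet_ball]
        exact lint_inv_ball _

theorem integrable_inv (v : ℂ) (M : ℝ) :
    IntegrableOn (fun u : ℂ => ‖v - u‖⁻¹) (ball (0:ℂ) M) := by
  refine ⟨(by fun_prop : Measurable fun u : ℂ => ‖v - u‖⁻¹).aestronglyMeasurable, ?_⟩
  rw [hasFiniteIntegral_iff_enorm]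
  refine lt_of_le_of_lt ?_ (lt_of_le_of_lt (lint_inv v M) ENNReal.ofReal_lt_top)
  apply lintegral_mono
  intro u
  simp only
  rw [← ofReal_norm, Real.norm_of_nonneg (by positivity)]

theorem integrable_kernel (k : ℕ) (M : ℝ) (v : ℂ) :
    IntegrableOn (fun u : ℂ => conj u ^ k / (v - u)) (ball (0:ℂ) M) := by
  have h := (integrable_inv v M).const_mul (M ^ k)
  refine Integrable.mono' h ?_ ?_
  · apply Measurable.aestronglyMeasurable
    apply Measurable.div _ (by fun_prop)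
    exact (Complex.continuous_conj.measurable).pow_const k
  · rw [ae_restrict_iff' measurableSet_ball]
    refine Filter.Eventually.of_forall ?_
    intro u hu
    rw [mem_ball, dist_zero_right] at hu
    rw [norm_div, norm_pow, RCLike.norm_conj, div_eq_mul_inv]
    gcongr

theorem kernel (k : ℕ) (M : ℝ) (v : ℂ) (hv : ‖v‖ < M) :
    ∫ u in ball (0:ℂ) M, conj u ^ k / (v - u) = π * conj v ^ (k + 1) / (k + 1) := by
  have hM : 0 < M := lt_of_le_of_lt (norm_nonneg v) hv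
  set f : ℂ → ℂ := (ball (0:ℂ) M).indicator (fun u => conj u ^ k / (v - u)) with hf
  have hfi : Integrable f := by
    rw [hf, integrable_indicator_iff measurableSet_ball]
    exact integrable_kernel k M v
  have hfm : Measurable f := by
    apply Measurable.indicator _ measurableSet_ball
    apply Measurable.div _ (by fun_prop)
    exact (Complex.continuous_conj.measurable).pow_const k
  have hsm : Measurable (fun p : ℝ × ℝ => (Complex.polarCoord.symm p : ℂ)) := by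
    simp only [Complex.polarCoord_symm_apply]
    fun_prop
  have hprod : IntegrableOn (fun p : ℝ × ℝ => p.1 • f (Complex.polarCoord.symm p))
      (Ioi (0:ℝ) ×ˢ Ioo (-π) π) := by
    refine ⟨(measurable_fst.smul (hfm.comp hsm)).aestronglyMeasurable, ?_⟩
    rw [hasFiniteIntegral_iff_enorm]
    have h1 := Complex.lintegral_comp_polarCoord_symm (fun u => ‖f u‖ₑ)
    have h2 : (∫⁻ p in Ioi (0:ℝ) ×ˢ Ioo (-π) π, ‖p.1 • f (Complex.polarCoord.symm p)‖ₑ) =
        ∫⁻ p in polarCoord.target, ENNReal.ofReal p.1 • ‖f (Complex.polarCoord.symm p)‖ₑ := by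
      apply setLIntegral_congr_fun (measurableSet_Ioi.prod measurableSet_Ioo)
      rintro ⟨r, θ⟩ ⟨hr, hθ⟩
      simp only [mem_Ioi] at hr
      simp only [smul_eq_mul]
      rw [enorm_smul]
      congr 1
      rw [← ofReal_norm, Real.norm_of_nonneg hr.le]
    rw [h2, h1]
    exact hfi.2
  rw [← integral_indicator measurableSet_ball, ← hf, ← Complex.integral_comp_polarCoord_symm]
  rw [show polarCoord.target = Ioi (0:ℝ) ×ˢ Ioo (-π) π from rfl]
  rw [Measure.volume_eq_prod] at hprod ⊢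
  rw [setIntegral_prod _ hprod]
  -- the inner integral
  have hin : ∀ r ∈ Ioi (0:ℝ), r ≠ ‖v‖ → r ≠ M →
      (∫ θ in Ioo (-π) π, (r, θ).1 • f (Complex.polarCoord.symm (r, θ))) =
        (Ioo 0 ‖v‖).indicator (fun r : ℝ => 2 * π * (v ^ (k + 1))⁻¹ * ((r ^ (2 * k + 1) : ℝ) : ℂ)) r := by
    intro r hr hrv _
    simp only [mem_Ioi] at hr
    by_cases hrM : r < M
    · have e : ∀ θ, (r, θ).1 • f (Complex.polarCoord.symm (r, θ)) =
          (r : ℂ) * (conj (Complex.polarCoord.symm (r, θ)) ^ k / (v - Complex.polarCoord.symm (r, θ))) := by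
        intro θ
        rw [hf, indicator_of_mem (by rw [mem_ball, dist_zero_right, Complex.norm_polarCoord_symm, abs_of_pos hr]; exact hrM)]
        simp
      simp_rw [e]
      rw [integral_const_mul, angular hr (Ne.symm hrv) k]
      by_cases h : r < ‖v‖
      · rw [if_pos h, indicator_of_mem (show r ∈ Ioo 0 ‖v‖ from ⟨hr, h⟩)]
        push_cast
        ring
      · rw [if_neg h, indicator_of_notMem (fun h' => h h'.2), mul_zero]
    · have e : ∀ θ, (r, θ).1 • f (Complex.polarCoord.symm (r, θ)) = 0 := by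
        intro θ
        rw [hf, indicator_of_notMem (by rw [mem_ball, dist_zero_right, Complex.norm_polarCoord_symm, abs_of_pos hr]; exact hrM)]
        simp
      simp_rw [e]
      rw [indicator_of_notMem (fun h' => hrM (h'.2.trans hv))]
      simp
  have hae : (∫ r in Ioi (0:ℝ), ∫ θ in Ioo (-π) π, (r, θ).1 • f (Complex.polarCoord.symm (r, θ))) =
      ∫ r in Ioi (0:ℝ), (Ioo 0 ‖v‖).indicator
        (fun r : ℝ => 2 * π * (v ^ (k + 1))⁻¹ * ((r ^ (2 * k + 1) : ℝ) : ℂ)) r := by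
    apply setIntegral_congr_ae measurableSet_Ioi
    have h1 : ∀ᵐ r : ℝ, r ≠ ‖v‖ := by
      simp [ae_iff, measure_singleton]
    have h2 : ∀ᵐ r : ℝ, r ≠ M := by
      simp [ae_iff, measure_singleton]
    filter_upwards [h1, h2] with r hr1 hr2 hr
    exact hin r hr hr1 hr2
  rw [hae, setIntegral_indicator measurableSet_Ioo, inter_eq_self_of_subset_right Ioo_subset_Ioi_self,
    integral_const_mul, integral_complex_ofReal, ← integral_Ioc_eq_integral_Ioo,
    ← intervalIntegral.integral_of_le (norm_nonneg v), integral_pow]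
  by_cases hv0 : v = 0
  · subst hv0; simp
  have hc : ((‖v‖ : ℝ) : ℂ) ^ 2 = v * conj v := by
    rw [Complex.mul_conj, Complex.normSq_eq_norm_sq]; push_cast; ring
  have hpow : ((‖v‖ : ℝ) : ℂ) ^ (2 * k + 1 + 1) = v ^ (k + 1) * conj v ^ (k + 1) := by
    rw [show 2 * k + 1 + 1 = 2 * (k + 1) by ring, pow_mul, hc, mul_pow]
  have hvk : v ^ (k + 1) ≠ 0 := pow_ne_zero _ hv0
  have hk : ((k : ℂ) + 1) ≠ 0 := by exact_mod_cast Nat.succ_ne_zero k
  push_cast
  rw [zero_pow (by omega), sub_zero, hpow, show (2 * (k:ℂ) + 1 + 1) = 2 * ((k:ℂ) + 1) by ring]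
  field_simp

end Pool.Agent.M16.Helper39.Area

end

section

set_option autoImplicit false

open Complex MeasureTheory Metric Set Polynomial

open scoped Real ENNReal ComplexConjugate

namespace Pool.Agent.M16.Helper39.Area

/-- data of a univalent function `φ ζ = ζ⁻¹ + β ζ` on the punctured disc -/
structure Ext (β : ℂ → ℂ) : Prop where
  diff : DifferentiableOn ℂ β (ball 0 1)
  inj : ∀ ζ ω : ℂ, ζ ∈ ball (0:ℂ) 1 → ω ∈ ball (0:ℂ) 1 → ζ ≠ 0 → ω ≠ 0 →
    ζ⁻¹ + β ζ = ω⁻¹ + β ω → ζ = ω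
  ne : ∀ ζ : ℂ, ζ ∈ ball (0:ℂ) 1 → 1 - ζ ^ 2 * deriv β ζ ≠ 0

noncomputable def phi (β : ℂ → ℂ) (ζ : ℂ) : ℂ := ζ⁻¹ + β ζ

noncomputable def dphi (β : ℂ → ℂ) (ζ : ℂ) : ℂ := -(ζ ^ 2)⁻¹ + deriv β ζ

noncomputable def qq (β : ℂ → ℂ) (a ζ : ℂ) : ℂ := 1 - a * ζ * dslope β a ζ

variable {β : ℂ → ℂ}

theorem hasDerivAt_phi (h : DifferentiableOn ℂ β (ball 0 1)) {ζ : ℂ} (hζ : ζ ∈ ball (0:ℂ) 1)
    (h0 : ζ ≠ 0) : HasDerivAt (phi β) (dphi β ζ) ζ := by
  have h1 := (h.differentiableAt (isOpen_ball.mem_nhds hζ)).hasDerivAt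
  exact (hasDerivAt_inv h0).add h1

theorem phi_sub (a ζ : ℂ) (ha : a ≠ 0) (hζ : ζ ≠ 0) :
    phi β ζ - phi β a = (ζ⁻¹ - a⁻¹) * qq β a ζ := by
  unfold phi qq
  by_cases h : ζ = a
  · subst h; simp
  · rw [dslope_of_ne _ h, slope_def_field]
    have h1 : ζ - a ≠ 0 := sub_ne_zero.mpr h
    field_simp
    ring

theorem qq_diff (h : DifferentiableOn ℂ β (ball 0 1)) {a : ℂ} (ha : a ∈ ball (0:ℂ) 1) :
    DifferentiableOn ℂ (qq β a) (ball 0 1) := by
  have h1 : DifferentiableOn ℂ (dslope β a) (ball 0 1) :=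
    (Complex.differentiableOn_dslope (isOpen_ball.mem_nhds ha)).mpr h
  unfold qq
  fun_prop

theorem qq_ne (h : Ext β) {a ζ : ℂ} (ha : a ∈ ball (0:ℂ) 1) (hζ : ζ ∈ ball (0:ℂ) 1) :
    qq β a ζ ≠ 0 := by
  by_cases ha0 : a = 0
  · subst ha0; simp [qq]
  by_cases hζ0 : ζ = 0
  · subst hζ0; simp [qq]
  by_cases hne : ζ = a
  · subst hne
    have := h.ne ζ hζ
    unfold qq
    rw [dslope_same]
    intro h'
    apply this
    rw [← h']; ring
  · intro hq
    have h1 := phi_sub (β := β) a ζ ha0 hζ0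
    rw [hq, mul_zero, sub_eq_zero] at h1
    exact hne (h.inj ζ a hζ ha hζ0 ha0 h1)

theorem mem_ball_of_sphere {ρ : ℝ} (hρ1 : ρ < 1) {ζ : ℂ} (hζ : ζ ∈ closedBall (0:ℂ) ρ) :
    ζ ∈ ball (0:ℂ) 1 := by
  rw [mem_closedBall, dist_zero_right] at hζ
  rw [mem_ball, dist_zero_right]
  linarith

theorem sphere_ne {ρ : ℝ} (hρ : 0 < ρ) {ζ : ℂ} (hζ : ζ ∈ sphere (0:ℂ) ρ) : ζ ≠ 0 := by
  rintro rfl
  simp at hζ
  exact hρ.ne hζ

/-- integral of a logarithmic derivative of a zero free function -/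
theorem circle_logDeriv {ρ : ℝ} (hρ : 0 < ρ) (hρ1 : ρ < 1) {s : ℂ → ℂ}
    (hs : DifferentiableOn ℂ s (ball 0 1)) (hs0 : ∀ ζ ∈ closedBall (0:ℂ) ρ, s ζ ≠ 0) :
    (∮ ζ in C(0, ρ), deriv s ζ / s ζ) = 0 := by
  have hd : DifferentiableOn ℂ (deriv s) (ball 0 1) := hs.deriv isOpen_ball
  apply Complex.circleIntegral_eq_zero_of_differentiable_on_off_countable hρ.le countable_empty
  · apply ContinuousOn.div
    · exact hd.continuousOn.mono (fun ζ hζ => mem_ball_of_sphere hρ1 hζ)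
    · exact hs.continuousOn.mono (fun ζ hζ => mem_ball_of_sphere hρ1 hζ)
    · exact hs0
  · intro ζ hζ
    have hζ' : ζ ∈ closedBall (0:ℂ) ρ := ball_subset_closedBall hζ.1
    have hζ1 := mem_ball_of_sphere hρ1 hζ'
    exact (hd.differentiableAt (isOpen_ball.mem_nhds hζ1)).div
      (hs.differentiableAt (isOpen_ball.mem_nhds hζ1)) (hs0 ζ hζ')

theorem cont_logDeriv {ρ : ℝ} (hρ1 : ρ < 1) {s : ℂ → ℂ}
    (hs : DifferentiableOn ℂ s (ball 0 1)) (hs0 : ∀ ζ ∈ closedBall (0:ℂ) ρ, s ζ ≠ 0) :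
    ContinuousOn (fun ζ => deriv s ζ / s ζ) (sphere 0 ρ) := by
  have hd : DifferentiableOn ℂ (deriv s) (ball 0 1) := hs.deriv isOpen_ball
  apply ContinuousOn.div
  · exact hd.continuousOn.mono (fun ζ hζ => mem_ball_of_sphere hρ1 (sphere_subset_closedBall hζ))
  · exact hs.continuousOn.mono (fun ζ hζ => mem_ball_of_sphere hρ1 (sphere_subset_closedBall hζ))
  · intro ζ hζ; exact hs0 ζ (sphere_subset_closedBall hζ)

/-- the logarithmic derivative of `φ - φ a` -/
theorem dphi_div (h : Ext β) {a ζ : ℂ} (ha : a ∈ ball (0:ℂ) 1) (hζ : ζ ∈ ball (0:ℂ) 1)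
    (ha0 : a ≠ 0) (hζ0 : ζ ≠ 0) (hne : ζ ≠ a) :
    dphi β ζ / (phi β ζ - phi β a) = deriv (qq β a) ζ / qq β a ζ + (ζ - a)⁻¹ - ζ⁻¹ := by
  have hq := qq_ne h ha hζ
  have h1 : HasDerivAt (phi β) (-(ζ ^ 2)⁻¹ * qq β a ζ + (ζ⁻¹ - a⁻¹) * deriv (qq β a) ζ) ζ := by
    have h2 : HasDerivAt (fun ω => phi β a + (ω⁻¹ - a⁻¹) * qq β a ω)
        (-(ζ ^ 2)⁻¹ * qq β a ζ + (ζ⁻¹ - a⁻¹) * deriv (qq β a) ζ) ζ := by
      have h3 := ((qq_diff h.diff ha).differentiableAt (isOpen_ball.mem_nhds hζ)).hasDerivAt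
      exact (((hasDerivAt_inv hζ0).sub_const _).mul h3).const_add _
    apply h2.congr_of_eventuallyEq
    filter_upwards [isOpen_ne.mem_nhds hζ0] with ω hω
    rw [← phi_sub a ω ha0 hω]; ring
  have h4 := h1.unique (hasDerivAt_phi h.diff hζ hζ0)
  rw [← h4, phi_sub a ζ ha0 hζ0]
  have h5 : ζ - a ≠ 0 := sub_ne_zero.mpr hne
  have h6 : ζ⁻¹ - a⁻¹ ≠ 0 := by
    rw [sub_ne_zero]
    intro h'
    exact hne (inv_injective h')
  have h7 : a - ζ ≠ 0 := sub_ne_zero.mpr (Ne.symm hne)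
  have h8 : ζ⁻¹ - a⁻¹ = (a - ζ) / (ζ * a) := by field_simp
  rw [h8]
  field_simp
  ring

theorem wind_in (h : Ext β) {ρ : ℝ} (hρ : 0 < ρ) (hρ1 : ρ < 1) {a : ℂ} (ha : a ∈ ball (0:ℂ) ρ)
    (ha0 : a ≠ 0) : (∮ ζ in C(0, ρ), dphi β ζ / (phi β ζ - phi β a)) = 0 := by
  have ha1 : a ∈ ball (0:ℂ) 1 := mem_ball_of_sphere hρ1 (ball_subset_closedBall ha)
  have hq0 : ∀ ζ ∈ closedBall (0:ℂ) ρ, qq β a ζ ≠ 0 := fun ζ hζ =>
    qq_ne h ha1 (mem_ball_of_sphere hρ1 hζ)
  have h1 : (∮ ζ in C(0, ρ), dphi β ζ / (phi β ζ - phi β a)) =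
      ∮ ζ in C(0, ρ), (deriv (qq β a) ζ / qq β a ζ + (ζ - a)⁻¹ - ζ⁻¹) := by
    apply circleIntegral.integral_congr hρ.le
    intro ζ hζ
    apply dphi_div h ha1 (mem_ball_of_sphere hρ1 (sphere_subset_closedBall hζ)) ha0
      (sphere_ne hρ hζ)
    rintro rfl
    simp at hζ ha
    linarith
  have hc1 := (cont_logDeriv hρ1 (qq_diff h.diff ha1) hq0).circleIntegrable hρ.le
  have hc2 : CircleIntegrable (fun ζ : ℂ => (ζ - a)⁻¹) 0 ρ := by
    apply ContinuousOn.circleIntegrable hρ.le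
    apply ContinuousOn.inv₀ (by fun_prop)
    intro ζ hζ h'
    rw [sub_eq_zero] at h'
    subst h'
    simp at hζ ha
    linarith
  have hc3 : CircleIntegrable (fun ζ : ℂ => ζ⁻¹) 0 ρ := by
    apply ContinuousOn.circleIntegrable hρ.le
    apply ContinuousOn.inv₀ (by fun_prop)
    intro ζ hζ
    exact sphere_ne hρ hζ
  have hc12 : CircleIntegrable (fun ζ => deriv (qq β a) ζ / qq β a ζ + (ζ - a)⁻¹) 0 ρ :=
    hc1.add hc2
  rw [h1, circleIntegral.integral_sub hc12 hc3, circleIntegral.integral_add hc1 hc2,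
    circle_logDeriv hρ hρ1 (qq_diff h.diff ha1) hq0, circleIntegral.integral_sub_inv_of_mem_ball ha]
  have h2 := circle_inv_zero hρ
  simp only [zero_add, pow_one] at h2
  rw [h2]; ring

theorem wind_out (h : DifferentiableOn ℂ β (ball 0 1)) {ρ : ℝ} (hρ : 0 < ρ) (hρ1 : ρ < 1) {u : ℂ}
    (hu : ∀ ζ ∈ closedBall (0:ℂ) ρ, ζ ≠ 0 → phi β ζ ≠ u) :
    (∮ ζ in C(0, ρ), dphi β ζ / (phi β ζ - u)) = - (2 * π * I) := by
  set s : ℂ → ℂ := fun ζ => 1 + ζ * (β ζ - u) with hs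
  have hsd : DifferentiableOn ℂ s (ball 0 1) := by
    rw [hs]; fun_prop
  have hsphi : ∀ ζ : ℂ, ζ ≠ 0 → phi β ζ - u = ζ⁻¹ * s ζ := by
    intro ζ hζ
    simp only [phi, hs]
    field_simp
    ring
  have hs0 : ∀ ζ ∈ closedBall (0:ℂ) ρ, s ζ ≠ 0 := by
    intro ζ hζ
    by_cases h0 : ζ = 0
    · subst h0; simp [hs]
    · intro h'
      have h2 := hsphi ζ h0
      rw [h', mul_zero, sub_eq_zero] at h2
      exact hu ζ hζ h0 h2
  have h1 : (∮ ζ in C(0, ρ), dphi β ζ / (phi β ζ - u)) =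
      ∮ ζ in C(0, ρ), (deriv s ζ / s ζ - ζ⁻¹) := by
    apply circleIntegral.integral_congr hρ.le
    intro ζ hζ
    have hζ0 := sphere_ne hρ hζ
    have hζ1 := mem_ball_of_sphere hρ1 (sphere_subset_closedBall hζ)
    have hsne := hs0 ζ (sphere_subset_closedBall hζ)
    have h3 : HasDerivAt (phi β) (-(ζ ^ 2)⁻¹ * s ζ + ζ⁻¹ * deriv s ζ) ζ := by
      have h2 : HasDerivAt (fun ω => u + ω⁻¹ * s ω) (-(ζ ^ 2)⁻¹ * s ζ + ζ⁻¹ * deriv s ζ) ζ := by
        have h3 := (hsd.differentiableAt (isOpen_ball.mem_nhds hζ1)).hasDerivAt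
        exact ((hasDerivAt_inv hζ0).mul h3).const_add _
      apply h2.congr_of_eventuallyEq
      filter_upwards [isOpen_ne.mem_nhds hζ0] with ω hω
      rw [← hsphi ω hω]; ring
    have h4 := h3.unique (hasDerivAt_phi h hζ1 hζ0)
    simp only
    rw [← h4, hsphi ζ hζ0]
    field_simp
    ring
  have hc1 := (cont_logDeriv hρ1 hsd hs0).circleIntegrable hρ.le
  have hc3 : CircleIntegrable (fun ζ : ℂ => ζ⁻¹) 0 ρ := by
    apply ContinuousOn.circleIntegrable hρ.le
    apply ContinuousOn.inv₀ (by fun_prop)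
    intro ζ hζ
    exact sphere_ne hρ hζ
  rw [h1, circleIntegral.integral_sub hc1 hc3, circle_logDeriv hρ hρ1 hsd hs0]
  have h2 := circle_inv_zero hρ
  simp only [zero_add, pow_one] at h2
  rw [h2]; ring

theorem exact (h : DifferentiableOn ℂ β (ball 0 1)) {ρ : ℝ} (hρ : 0 < ρ) (hρ1 : ρ < 1)
    (Q : ℂ[X]) : (∮ ζ in C(0, ρ), Q.eval (phi β ζ) * dphi β ζ) = 0 := by
  have hcphi : ContinuousOn (phi β) (sphere 0 ρ) := fun ζ hζ =>
    (hasDerivAt_phi h (mem_ball_of_sphere hρ1 (sphere_subset_closedBall hζ))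
      (sphere_ne hρ hζ)).continuousAt.continuousWithinAt
  have hcd : ContinuousOn (dphi β) (sphere 0 ρ) := by
    apply ContinuousOn.add
    · apply ContinuousOn.neg
      apply ContinuousOn.inv₀ (by fun_prop)
      intro ζ hζ
      exact pow_ne_zero _ (sphere_ne hρ hζ)
    · exact (h.deriv isOpen_ball).continuousOn.mono
        (fun ζ hζ => mem_ball_of_sphere hρ1 (sphere_subset_closedBall hζ))
  have hci : ∀ Q : ℂ[X], CircleIntegrable (fun ζ => Q.eval (phi β ζ) * dphi β ζ) 0 ρ := by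
    intro Q
    apply ContinuousOn.circleIntegrable hρ.le
    exact (Q.continuous.comp_continuousOn hcphi).mul hcd
  induction Q using Polynomial.induction_on' with
  | add p q hp hq =>
    have : (∮ ζ in C(0, ρ), (p + q).eval (phi β ζ) * dphi β ζ) =
        ∮ ζ in C(0, ρ), (p.eval (phi β ζ) * dphi β ζ + q.eval (phi β ζ) * dphi β ζ) := by
      congr 1; funext ζ; rw [eval_add, add_mul]
    rw [this, circleIntegral.integral_add (hci p) (hci q), hp, hq, add_zero]
  | monomial n a =>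
    apply circleIntegral.integral_eq_zero_of_hasDerivWithinAt hρ.le
      (f := fun ζ => a * (phi β ζ ^ (n + 1) / (n + 1)))
    intro ζ hζ
    have h1 := hasDerivAt_phi h (mem_ball_of_sphere hρ1 (sphere_subset_closedBall hζ))
      (sphere_ne hρ hζ)
    have hn : ((n : ℂ) + 1) ≠ 0 := by exact_mod_cast Nat.succ_ne_zero n
    have h2 := ((h1.pow (n + 1)).div_const ((n:ℂ) + 1)).const_mul a
    have h3 : (monomial n a).eval (phi β ζ) * dphi β ζ =
        a * (((n + 1 : ℕ) : ℂ) * phi β ζ ^ (n + 1 - 1) * dphi β ζ / ((n:ℂ) + 1)) := by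
      rw [eval_monomial, Nat.add_sub_cancel]
      push_cast
      field_simp
    rw [h3]
    exact h2.hasDerivWithinAt

end Pool.Agent.M16.Helper39.Area

end

section

set_option autoImplicit false

open Complex MeasureTheory Metric Set Polynomial

open scoped Real ENNReal ComplexConjugate

namespace Pool.Agent.M16.Helper39.Area

variable {β : ℂ → ℂ}

theorem integrable_kernel_poly (p : ℂ[X]) (M : ℝ) (v : ℂ) :
    IntegrableOn (fun u : ℂ => conj (p.eval u) / (v - u)) (ball (0:ℂ) M) := by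
  induction p using Polynomial.induction_on' with
  | add p q hp hq =>
    have : (fun u : ℂ => conj ((p + q).eval u) / (v - u)) =
        fun u => conj (p.eval u) / (v - u) + conj (q.eval u) / (v - u) := by
      funext u; rw [eval_add, map_add, add_div]
    rw [this]
    exact hp.add hq
  | monomial n a =>
    have : (fun u : ℂ => conj ((monomial n a).eval u) / (v - u)) =
        fun u => conj a * (conj u ^ n / (v - u)) := by
      funext u; rw [eval_monomial, map_mul, map_pow, mul_div_assoc]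
    rw [this]
    exact (integrable_kernel n M v).const_mul _

theorem kernel_poly (p : ℂ[X]) (M : ℝ) (v : ℂ) (hv : ‖v‖ < M) :
    ∫ u in ball (0:ℂ) M, conj ((derivative p).eval u) / (v - u) =
      π * (conj (p.eval v) - conj (p.eval 0)) := by
  induction p using Polynomial.induction_on' with
  | add p q hp hq =>
    have : (fun u : ℂ => conj ((derivative (p + q)).eval u) / (v - u)) =
        fun u => conj ((derivative p).eval u) / (v - u) + conj ((derivative q).eval u) / (v - u) := by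
      funext u; rw [derivative_add, eval_add, map_add, add_div]
    rw [this, integral_add (integrable_kernel_poly _ M v) (integrable_kernel_poly _ M v), hp, hq]
    simp only [eval_add, map_add]
    ring
  | monomial n a =>
    cases n with
    | zero => simp
    | succ n =>
      have : (fun u : ℂ => conj ((derivative (monomial (n + 1) a)).eval u) / (v - u)) =
          fun u => conj a * (n + 1) * (conj u ^ n / (v - u)) := by
        funext u
        rw [derivative_monomial, eval_monomial]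
        simp only [Nat.add_sub_cancel, map_mul, map_pow, Complex.conj_natCast]
        push_cast
        ring
      rw [this, integral_const_mul, kernel n M v hv]
      have hn : ((n : ℂ) + 1) ≠ 0 := by exact_mod_cast Nat.succ_ne_zero n
      simp only [eval_monomial, map_mul, map_pow]
      rw [map_zero, zero_pow (Nat.succ_ne_zero n)]
      field_simp
      ring

theorem cont_phi (h : DifferentiableOn ℂ β (ball 0 1)) {ρ : ℝ} (hρ : 0 < ρ) (hρ1 : ρ < 1) :
    ContinuousOn (phi β) (sphere 0 ρ) := fun ζ hζ =>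
  (hasDerivAt_phi h (mem_ball_of_sphere hρ1 (sphere_subset_closedBall hζ))
    (sphere_ne hρ hζ)).continuousAt.continuousWithinAt

theorem cont_dphi (h : DifferentiableOn ℂ β (ball 0 1)) {ρ : ℝ} (hρ : 0 < ρ) (hρ1 : ρ < 1) :
    ContinuousOn (dphi β) (sphere 0 ρ) := by
  apply ContinuousOn.add
  · apply ContinuousOn.neg
    apply ContinuousOn.inv₀ (by fun_prop)
    intro ζ hζ
    exact pow_ne_zero _ (sphere_ne hρ hζ)
  · exact (h.deriv isOpen_ball).continuousOn.mono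
      (fun ζ hζ => mem_ball_of_sphere hρ1 (sphere_subset_closedBall hζ))

theorem circleMap_mem {ρ : ℝ} (hρ : 0 < ρ) (θ : ℝ) : circleMap 0 ρ θ ∈ sphere (0:ℂ) ρ :=
  circleMap_mem_sphere 0 hρ.le θ

/-- the inner contour integral -/
theorem inner_int (h : DifferentiableOn ℂ β (ball 0 1)) {ρ : ℝ} (hρ : 0 < ρ) (hρ1 : ρ < 1)
    (P : ℂ[X]) {u : ℂ} (hu : u ∉ phi β '' sphere 0 ρ) :
    (∮ ζ in C(0, ρ), P.eval (phi β ζ) * dphi β ζ / (phi β ζ - u)) =
      P.eval u * ∮ ζ in C(0, ρ), dphi β ζ / (phi β ζ - u) := by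
  have hne : ∀ ζ ∈ sphere (0:ℂ) ρ, phi β ζ - u ≠ 0 := by
    intro ζ hζ h'
    exact hu ⟨ζ, hζ, sub_eq_zero.mp h'⟩
  have hc1 : CircleIntegrable (fun ζ => P.eval u * (dphi β ζ / (phi β ζ - u))) 0 ρ := by
    apply ContinuousOn.circleIntegrable hρ.le
    exact continuousOn_const.mul ((cont_dphi h hρ hρ1).div
      ((cont_phi h hρ hρ1).sub continuousOn_const) hne)
  have hc2 : CircleIntegrable (fun ζ => (P /ₘ (X - C u)).eval (phi β ζ) * dphi β ζ) 0 ρ := by
    apply ContinuousOn.circleIntegrable hρ.le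
    exact ((P /ₘ (X - C u)).continuous.comp_continuousOn (cont_phi h hρ hρ1)).mul
      (cont_dphi h hρ hρ1)
  have h1 : (∮ ζ in C(0, ρ), P.eval (phi β ζ) * dphi β ζ / (phi β ζ - u)) =
      ∮ ζ in C(0, ρ), (P.eval u * (dphi β ζ / (phi β ζ - u)) +
        (P /ₘ (X - C u)).eval (phi β ζ) * dphi β ζ) := by
    apply circleIntegral.integral_congr hρ.le
    intro ζ hζ
    have h2 : P.eval (phi β ζ) = P.eval u + (phi β ζ - u) * (P /ₘ (X - C u)).eval (phi β ζ) := by
      have h3 := modByMonic_add_div P (X - C u)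
      have h4 := congrArg (eval (phi β ζ)) h3
      rw [modByMonic_X_sub_C_eq_C_eval] at h4
      simpa using h4.symm
    simp only
    rw [h2]
    have := hne ζ hζ
    field_simp
  rw [h1, circleIntegral.integral_add hc1 hc2, exact h hρ hρ1, add_zero,
    circleIntegral.integral_const_mul]

/-- the area inequality: `∮ conj P dP` is a nonpositive multiple of `2 i`. -/
theorem area_ineq (h : Ext β) {ρ : ℝ} (hρ : 0 < ρ) (hρ1 : ρ < 1) (p : ℂ[X]) :
    ∃ c : ℝ, 0 ≤ c ∧ (∮ ζ in C(0, ρ), conj (p.eval (phi β ζ)) *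
      ((derivative p).eval (phi β ζ) * dphi β ζ)) = -(2 * I) * c := by
  have hphic := cont_phi h.diff hρ hρ1
  have hdc := cont_dphi h.diff hρ hρ1
  -- the radius
  obtain ⟨M, hM⟩ : ∃ M : ℝ, ∀ ζ ∈ sphere (0:ℂ) ρ, ‖phi β ζ‖ < M := by
    obtain ⟨M, hM⟩ := (isCompact_sphere (0:ℂ) ρ).exists_bound_of_continuousOn hphic
    exact ⟨M + 1, fun ζ hζ => lt_of_le_of_lt (hM ζ hζ) (lt_add_one M)⟩
  have hMpos : 0 < M := lt_of_le_of_lt (norm_nonneg _) (hM _ (circleMap_mem hρ 0))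
  set D : ℂ → ℂ := fun ζ => (derivative p).eval (phi β ζ) * dphi β ζ with hD
  have hDc : ContinuousOn D (sphere 0 ρ) :=
    ((derivative p).continuous.comp_continuousOn hphic).mul hdc
  -- Step 1: rewrite with the kernel
  have e1 : (∮ ζ in C(0, ρ), conj (p.eval (phi β ζ)) * D ζ) =
      ∮ ζ in C(0, ρ), ((π:ℂ)⁻¹ * (D ζ * ∫ u in ball (0:ℂ) M,
        conj ((derivative p).eval u) / (phi β ζ - u)) + conj (p.eval 0) * D ζ) := by
    apply circleIntegral.integral_congr hρ.le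
    intro ζ hζ
    simp only
    rw [kernel_poly p M _ (hM ζ hζ)]
    have : (π:ℂ) ≠ 0 := by exact_mod_cast Real.pi_ne_zero
    field_simp
    ring
  have hpc : ContinuousOn (fun ζ => conj (p.eval (phi β ζ))) (sphere 0 ρ) :=
    Complex.continuous_conj.comp_continuousOn (p.continuous.comp_continuousOn hphic)
  have hci2 : CircleIntegrable (fun ζ => conj (p.eval 0) * D ζ) 0 ρ :=
    (continuousOn_const.mul hDc).circleIntegrable hρ.le
  have hci1 : CircleIntegrable (fun ζ => (π:ℂ)⁻¹ * (D ζ * ∫ u in ball (0:ℂ) M,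
        conj ((derivative p).eval u) / (phi β ζ - u))) 0 ρ := by
    apply ContinuousOn.circleIntegrable hρ.le
    have hcc : ContinuousOn (fun ζ => conj (p.eval (phi β ζ)) * D ζ - conj (p.eval 0) * D ζ)
        (sphere 0 ρ) := (hpc.mul hDc).sub (continuousOn_const.mul hDc)
    apply hcc.congr
    intro ζ hζ
    simp only
    rw [kernel_poly p M _ (hM ζ hζ)]
    have : (π:ℂ) ≠ 0 := by exact_mod_cast Real.pi_ne_zero
    field_simp
  have e2 : (∮ ζ in C(0, ρ), conj (p.eval 0) * D ζ) = 0 := by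
    rw [circleIntegral.integral_const_mul, hD, exact h.diff hρ hρ1, mul_zero]
  rw [e1, circleIntegral.integral_add hci1 hci2, e2, add_zero, circleIntegral.integral_const_mul]
  -- Step 2: Fubini
  have e3 : (∮ ζ in C(0, ρ), D ζ * ∫ u in ball (0:ℂ) M,
        conj ((derivative p).eval u) / (phi β ζ - u)) =
      ∫ u in ball (0:ℂ) M, conj ((derivative p).eval u) *
        ∮ ζ in C(0, ρ), (derivative p).eval (phi β ζ) * dphi β ζ / (phi β ζ - u) := by
    simp only [circleIntegral]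
    have e4 : (∫ θ in (0:ℝ)..2 * π, deriv (circleMap 0 ρ) θ • (D (circleMap 0 ρ θ) *
        ∫ u in ball (0:ℂ) M, conj ((derivative p).eval u) / (phi β (circleMap 0 ρ θ) - u))) =
        ∫ θ in (0:ℝ)..2 * π, ∫ u in ball (0:ℂ) M, deriv (circleMap 0 ρ) θ * (D (circleMap 0 ρ θ) *
          (conj ((derivative p).eval u) / (phi β (circleMap 0 ρ θ) - u))) := by
      congr 1
      funext θ
      rw [smul_eq_mul, ← integral_const_mul, ← integral_const_mul]
    have e5 : (∫ u in ball (0:ℂ) M, conj ((derivative p).eval u) *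
        ∫ θ in (0:ℝ)..2 * π, deriv (circleMap 0 ρ) θ •
          ((derivative p).eval (phi β (circleMap 0 ρ θ)) * dphi β (circleMap 0 ρ θ) /
            (phi β (circleMap 0 ρ θ) - u))) =
        ∫ u in ball (0:ℂ) M, ∫ θ in (0:ℝ)..2 * π, deriv (circleMap 0 ρ) θ * (D (circleMap 0 ρ θ) *
          (conj ((derivative p).eval u) / (phi β (circleMap 0 ρ θ) - u))) := by
      congr 1
      funext u
      rw [← intervalIntegral.integral_const_mul]
      congr 1
      funext θ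
      simp only [hD, smul_eq_mul]
      ring
    rw [e4, e5]
    simp only [intervalIntegral.integral_of_le Real.two_pi_pos.le]
    apply integral_integral_swap
    -- integrability
    have hcθ : Continuous (fun θ : ℝ => circleMap 0 ρ θ) := continuous_circleMap 0 ρ
    have hc1 : Continuous (fun θ : ℝ => phi β (circleMap 0 ρ θ)) :=
      hphic.comp_continuous hcθ (fun θ => circleMap_mem hρ θ)
    have hc2 : Continuous (fun θ : ℝ => deriv (circleMap 0 ρ) θ * D (circleMap 0 ρ θ)) := by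
      have : deriv (circleMap 0 ρ) = fun θ => circleMap 0 ρ θ * I := by
        funext θ; rw [deriv_circleMap]
      apply Continuous.mul
      · rw [this]; fun_prop
      · exact hDc.comp_continuous hcθ (fun θ => circleMap_mem hρ θ)
    have hmeas : Measurable (fun z : ℝ × ℂ => deriv (circleMap 0 ρ) z.1 * (D (circleMap 0 ρ z.1) *
          (conj ((derivative p).eval z.2) / (phi β (circleMap 0 ρ z.1) - z.2)))) := by
      have m1 : Measurable (fun z : ℝ × ℂ => deriv (circleMap 0 ρ) z.1 * D (circleMap 0 ρ z.1)) :=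
        hc2.measurable.comp measurable_fst
      have m2 : Measurable (fun z : ℝ × ℂ => conj ((derivative p).eval z.2)) :=
        (Complex.continuous_conj.comp (derivative p).continuous).measurable.comp measurable_snd
      have m3 : Measurable (fun z : ℝ × ℂ => phi β (circleMap 0 ρ z.1) - z.2) :=
        (hc1.measurable.comp measurable_fst).sub measurable_snd
      have e : (fun z : ℝ × ℂ => deriv (circleMap 0 ρ) z.1 * (D (circleMap 0 ρ z.1) *
          (conj ((derivative p).eval z.2) / (phi β (circleMap 0 ρ z.1) - z.2)))) =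
          fun z : ℝ × ℂ => (deriv (circleMap 0 ρ) z.1 * D (circleMap 0 ρ z.1)) *
          (conj ((derivative p).eval z.2) / (phi β (circleMap 0 ρ z.1) - z.2)) := by
        funext z; ring
      rw [e]
      exact m1.mul (m2.div m3)
    show Integrable (fun z : ℝ × ℂ => deriv (circleMap 0 ρ) z.1 * (D (circleMap 0 ρ z.1) *
          (conj ((derivative p).eval z.2) / (phi β (circleMap 0 ρ z.1) - z.2))))
          ((volume.restrict (Ioc 0 (2 * π))).prod (volume.restrict (ball 0 M)))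
    refine ⟨hmeas.aestronglyMeasurable, ?_⟩
    -- bounds
    obtain ⟨B1, hB1⟩ := (isCompact_Icc (a := (0:ℝ)) (b := 2 * π)).exists_bound_of_continuousOn
      hc2.continuousOn
    obtain ⟨B2, hB2⟩ := (isCompact_closedBall (0:ℂ) M).exists_bound_of_continuousOn
      (Complex.continuous_conj.comp (derivative p).continuous).continuousOn
    rw [hasFiniteIntegral_iff_enorm]
    rw [lintegral_prod _ (hmeas.enorm.aemeasurable)]
    calc ∫⁻ θ in Ioc (0:ℝ) (2 * π), ∫⁻ u in ball (0:ℂ) M, ‖deriv (circleMap 0 ρ) θ *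
          (D (circleMap 0 ρ θ) *
          (conj ((derivative p).eval u) / (phi β (circleMap 0 ρ θ) - u)))‖ₑ
        ≤ ∫⁻ θ in Ioc (0:ℝ) (2 * π), ENNReal.ofReal (B1 * B2) * ENNReal.ofReal (2 * π * (M + M)) := by
          apply setLIntegral_mono measurable_const
          intro θ hθ
          have hθ' : θ ∈ Icc (0:ℝ) (2 * π) := Ioc_subset_Icc_self hθ
          calc ∫⁻ u in ball (0:ℂ) M, ‖deriv (circleMap 0 ρ) θ * (D (circleMap 0 ρ θ) *
                (conj ((derivative p).eval u) / (phi β (circleMap 0 ρ θ) - u)))‖ₑ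
              ≤ ∫⁻ u in ball (0:ℂ) M, ENNReal.ofReal (B1 * B2) *
                  ENNReal.ofReal (‖phi β (circleMap 0 ρ θ) - u‖⁻¹) := by
                apply setLIntegral_mono
                · apply Measurable.const_mul
                  exact (by fun_prop : Measurable fun u : ℂ => ‖phi β (circleMap 0 ρ θ) - u‖⁻¹).ennreal_ofReal
                intro u hu
                rw [← ofReal_norm, ← ENNReal.ofReal_mul (mul_nonneg
                  ((norm_nonneg _).trans (hB1 θ hθ')) ((norm_nonneg _).trans (hB2 u (ball_subset_closedBall hu))))]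
                apply ENNReal.ofReal_le_ofReal
                have b1 := hB1 θ hθ'
                have b2 := hB2 u (ball_subset_closedBall hu)
                simp only [Function.comp] at b2
                calc ‖deriv (circleMap 0 ρ) θ * (D (circleMap 0 ρ θ) *
                      (conj ((derivative p).eval u) / (phi β (circleMap 0 ρ θ) - u)))‖
                    = ‖deriv (circleMap 0 ρ) θ * D (circleMap 0 ρ θ)‖ *
                      ‖conj ((derivative p).eval u)‖ * ‖phi β (circleMap 0 ρ θ) - u‖⁻¹ := by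
                      rw [← mul_assoc, norm_mul, norm_div, div_eq_mul_inv]
                      ring
                  _ ≤ B1 * B2 * ‖phi β (circleMap 0 ρ θ) - u‖⁻¹ := by
                      apply mul_le_mul_of_nonneg_right _ (by positivity)
                      exact mul_le_mul b1 b2 (norm_nonneg _) ((norm_nonneg _).trans b1)
            _ = ENNReal.ofReal (B1 * B2) * ∫⁻ u in ball (0:ℂ) M,
                  ENNReal.ofReal (‖phi β (circleMap 0 ρ θ) - u‖⁻¹) := by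
                rw [lintegral_const_mul' _ _ ENNReal.ofReal_ne_top]
            _ ≤ ENNReal.ofReal (B1 * B2) * ENNReal.ofReal (2 * π * (M + M)) := by
                gcongr
                refine (lint_inv _ M).trans ?_
                apply ENNReal.ofReal_le_ofReal
                have := (hM _ (circleMap_mem hρ θ)).le
                have hpi := Real.pi_pos
                nlinarith only [this, hpi]
      _ < ⊤ := by
          rw [setLIntegral_const]
          apply ENNReal.mul_lt_top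
          · exact ENNReal.mul_lt_top ENNReal.ofReal_lt_top ENNReal.ofReal_lt_top
          · rw [Real.volume_Ioc]; exact ENNReal.ofReal_lt_top
  rw [e3]
  -- Step 3: evaluate the inner integral almost everywhere
  have hnull : volume (phi β '' sphere 0 ρ) = 0 := by
    apply addHaar_image_eq_zero_of_differentiableOn_of_addHaar_eq_zero
    · intro ζ hζ
      have h1 := hasDerivAt_phi h.diff (mem_ball_of_sphere hρ1 (sphere_subset_closedBall hζ))
        (sphere_ne hρ hζ)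
      exact (h1.hasFDerivAt.restrictScalars ℝ).differentiableAt.differentiableWithinAt
    · exact Measure.addHaar_sphere volume 0 ρ
  set S : Set ℂ := phi β '' (ball 0 ρ \ {0}) with hS
  have hSo : IsOpen S := by
    -- open mapping
    have ho : ∀ ζ ∈ ball (0:ℂ) ρ \ {0}, S ∈ nhds (phi β ζ) := by
      rintro ζ ⟨hζ, hζ0⟩
      have hζ0' : ζ ≠ 0 := hζ0
      have hζ1 : ζ ∈ ball (0:ℂ) 1 := mem_ball_of_sphere hρ1 (ball_subset_closedBall hζ)
      have hst : HasStrictDerivAt (phi β) (dphi β ζ) ζ := by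
        have h1 : DifferentiableOn ℂ (phi β) (ball 0 1 \ {0}) := by
          rintro ω ⟨hω, hω0⟩
          exact (hasDerivAt_phi h.diff hω hω0).differentiableAt.differentiableWithinAt
        have h2 : AnalyticAt ℂ (phi β) ζ :=
          h1.analyticAt ((isOpen_ball.sdiff isClosed_singleton).mem_nhds ⟨hζ1, hζ0⟩)
        have h3 := h2.hasStrictDerivAt
        rwa [(hasDerivAt_phi h.diff hζ1 hζ0').deriv] at h3
      have hd0 : dphi β ζ ≠ 0 := by
        have := h.ne ζ hζ1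
        intro h'
        apply this
        have : 1 - ζ ^ 2 * deriv β ζ = - ζ ^ 2 * dphi β ζ := by
          unfold dphi
          field_simp
          ring
        rw [this, h', mul_zero]
      have hmap := hst.map_nhds_eq hd0
      rw [← hmap]
      exact Filter.image_mem_map ((isOpen_ball.sdiff isClosed_singleton).mem_nhds ⟨hζ, hζ0⟩)
    rw [isOpen_iff_mem_nhds]
    rintro _ ⟨ζ, hζ, rfl⟩
    exact ho ζ hζ
  have hae : ∀ᵐ u : ℂ, conj ((derivative p).eval u) *
        (∮ ζ in C(0, ρ), (derivative p).eval (phi β ζ) * dphi β ζ / (phi β ζ - u)) =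
      -(2 * π * I) * ((Sᶜ.indicator (fun u => ‖(derivative p).eval u‖ ^ 2) u : ℝ) : ℂ) := by
    have : ∀ᵐ u : ℂ, u ∉ phi β '' sphere 0 ρ := measure_eq_zero_iff_ae_notMem.mp hnull
    filter_upwards [this] with u hu
    rw [inner_int h.diff hρ hρ1 _ hu]
    by_cases huS : u ∈ S
    · rw [indicator_of_notMem (by simpa using huS)]
      obtain ⟨a, ⟨ha, ha0⟩, rfl⟩ := huS
      rw [wind_in h hρ hρ1 ha ha0]
      simp
    · rw [indicator_of_mem (by simpa using huS)]
      rw [wind_out h.diff hρ hρ1]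
      · have h7 : (((‖(derivative p).eval u‖ ^ 2 : ℝ)) : ℂ) =
            (derivative p).eval u * conj ((derivative p).eval u) := by
          rw [Complex.mul_conj, Complex.normSq_eq_norm_sq]
        rw [h7]; ring
      · intro ζ hζ hζ0 h'
        rcases lt_or_eq_of_le (show ‖ζ‖ ≤ ρ by simpa using hζ) with h8 | h8
        · exact huS ⟨ζ, ⟨by simpa using h8, hζ0⟩, h'⟩
        · exact hu ⟨ζ, by simpa using h8, h'⟩
  rw [setIntegral_congr_ae measurableSet_ball (hae.mono fun u hu _ => hu), integral_const_mul,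
    integral_complex_ofReal]
  refine ⟨∫ u in ball (0:ℂ) M, Sᶜ.indicator (fun u => ‖(derivative p).eval u‖ ^ 2) u, ?_, ?_⟩
  · apply integral_nonneg
    intro u
    apply indicator_nonneg
    intro u _
    positivity
  · have : (π:ℂ) ≠ 0 := by exact_mod_cast Real.pi_ne_zero
    field_simp

end Pool.Agent.M16.Helper39.Area

end

section

set_option autoImplicit false

open Complex MeasureTheory Metric Set

open scoped Real ENNReal ComplexConjugate

namespace Pool.Agent.M16.Helper39.Area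

theorem angular_log {ρ : ℝ} (hρ : 0 < ρ) {v : ℂ} (hv : ‖v‖ ≠ ρ) :
    (∫ θ in Ioo (-π) π, (conj (Complex.polarCoord.symm (ρ, θ)))⁻¹ /
      (v - Complex.polarCoord.symm (ρ, θ))) =
      if ρ < ‖v‖ then 0 else - (2 * π) * ((ρ:ℂ) ^ 2)⁻¹ := by
  have e1 : ∀ θ : ℝ, Complex.polarCoord.symm (ρ, θ) = circleMap 0 ρ θ := by
    intro θ
    rw [Complex.polarCoord_symm_apply, circleMap, zero_add, Complex.exp_mul_I]
    simp
  simp_rw [e1]
  rw [← integral_Ioc_eq_integral_Ioo, ← intervalIntegral.integral_of_le (by linarith [Real.pi_pos])]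
  have hper : Function.Periodic (fun θ : ℝ => (conj (circleMap 0 ρ θ))⁻¹ / (v - circleMap 0 ρ θ))
      (2 * π) := by
    intro θ
    simp only [periodic_circleMap 0 ρ θ]
  have h2 := hper.intervalIntegral_add_eq (-π) 0
  rw [show -π + 2 * π = π by ring, zero_add] at h2
  rw [h2]
  have e2 : (∫ θ in (0:ℝ)..2 * π, (conj (circleMap 0 ρ θ))⁻¹ / (v - circleMap 0 ρ θ)) =
      (∮ w in C(0, ρ), (((ρ:ℂ) ^ 2)⁻¹ * (-I)) * (v - w)⁻¹) := by
    rw [circleIntegral]
    apply intervalIntegral.integral_congr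
    intro θ _
    simp only [deriv_circleMap, smul_eq_mul]
    have hne : circleMap 0 ρ θ ≠ 0 := circleMap_ne_center (c := 0) (θ := θ) hρ.ne'
    have hρ' : (ρ:ℂ) ≠ 0 := by exact_mod_cast hρ.ne'
    have hc : (conj (circleMap 0 ρ θ))⁻¹ = ((ρ:ℂ) ^ 2)⁻¹ * circleMap 0 ρ θ := by
      have h3 : circleMap 0 ρ θ * conj (circleMap 0 ρ θ) = (ρ:ℂ) ^ 2 := by
        rw [Complex.mul_conj, Complex.normSq_eq_norm_sq]
        simp [abs_of_pos hρ]
      have h4 : conj (circleMap 0 ρ θ) ≠ 0 := by simpa using hne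
      rw [inv_eq_iff_eq_inv, mul_inv, inv_inv, ← h3]
      field_simp
    rw [hc, div_eq_mul_inv]
    have hI : I * -I = 1 := by simp
    linear_combination (-(((ρ:ℂ) ^ 2)⁻¹ * circleMap 0 ρ θ * (v - circleMap 0 ρ θ)⁻¹)) * hI
  rw [e2, circleIntegral.integral_const_mul]
  split_ifs with h
  · rw [circle_inv_out hρ h, mul_zero]
  · rw [circle_inv_in (lt_of_le_of_ne (not_lt.mp h) hv)]
    have hI : I * -I = 1 := by simp
    linear_combination (-(2 * π * ((ρ:ℂ) ^ 2)⁻¹)) * hI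

theorem inv_mul_inv_le (u v : ℂ) (hv : v ≠ 0) :
    ‖u‖⁻¹ * ‖v - u‖⁻¹ ≤ ‖v‖⁻¹ * (‖u‖⁻¹ + ‖v - u‖⁻¹) := by
  by_cases hu : u = 0
  · subst hu; simp; positivity
  by_cases huv : v - u = 0
  · rw [huv]; simp
    positivity
  have h1 : 0 < ‖u‖ := norm_pos_iff.mpr hu
  have h2 : 0 < ‖v - u‖ := norm_pos_iff.mpr huv
  have h3 : 0 < ‖v‖ := norm_pos_iff.mpr hv
  have h4 : ‖v‖ ≤ ‖u‖ + ‖v - u‖ := by
    calc ‖v‖ = ‖u + (v - u)‖ := by congr 1; ring
      _ ≤ _ := norm_add_le _ _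
  rw [← sub_nonneg]
  have : ‖v‖⁻¹ * (‖u‖⁻¹ + ‖v - u‖⁻¹) - ‖u‖⁻¹ * ‖v - u‖⁻¹ =
      (‖u‖ + ‖v - u‖ - ‖v‖) / (‖v‖ * ‖u‖ * ‖v - u‖) := by
    field_simp
    ring
  rw [this]
  apply div_nonneg (by linarith only [h4]) (by positivity)

theorem measurable_logkernel (v : ℂ) : Measurable (fun u : ℂ => (conj u)⁻¹ / (v - u)) := by
  apply Measurable.div _ (by fun_prop)
  exact (Complex.continuous_conj.measurable).inv

theorem integrable_logkernel (M : ℝ) {v : ℂ} (hv : v ≠ 0) :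
    IntegrableOn (fun u : ℂ => (conj u)⁻¹ / (v - u)) (ball (0:ℂ) M) := by
  have h0 := integrable_inv 0 M
  simp only [zero_sub, norm_neg] at h0
  have h := (h0.add (integrable_inv v M)).const_mul (‖v‖⁻¹)
  refine Integrable.mono' h (measurable_logkernel v).aestronglyMeasurable ?_
  refine Filter.Eventually.of_forall ?_
  intro u
  rw [norm_div, norm_inv, RCLike.norm_conj, div_eq_mul_inv]
  exact inv_mul_inv_le u v hv

theorem logkernel (M : ℝ) {v : ℂ} (hv0 : v ≠ 0) (hv : ‖v‖ < M) :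
    ∫ u in ball (0:ℂ) M, (conj u)⁻¹ / (v - u) = ((2 * π * (Real.log ‖v‖ - Real.log M) : ℝ) : ℂ) := by
  have hvpos : 0 < ‖v‖ := norm_pos_iff.mpr hv0
  have hM : 0 < M := hvpos.trans hv
  set f : ℂ → ℂ := (ball (0:ℂ) M).indicator (fun u => (conj u)⁻¹ / (v - u)) with hf
  have hfi : Integrable f := by
    rw [hf, integrable_indicator_iff measurableSet_ball]
    exact integrable_logkernel M hv0
  have hfm : Measurable f := (measurable_logkernel v).indicator measurableSet_ball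
  have hsm : Measurable (fun p : ℝ × ℝ => (Complex.polarCoord.symm p : ℂ)) := by
    simp only [Complex.polarCoord_symm_apply]
    fun_prop
  have hprod : IntegrableOn (fun p : ℝ × ℝ => p.1 • f (Complex.polarCoord.symm p))
      (Ioi (0:ℝ) ×ˢ Ioo (-π) π) := by
    refine ⟨(measurable_fst.smul (hfm.comp hsm)).aestronglyMeasurable, ?_⟩
    rw [hasFiniteIntegral_iff_enorm]
    have h1 := Complex.lintegral_comp_polarCoord_symm (fun u => ‖f u‖ₑ)
    have h2 : (∫⁻ p in Ioi (0:ℝ) ×ˢ Ioo (-π) π, ‖p.1 • f (Complex.polarCoord.symm p)‖ₑ) =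
        ∫⁻ p in polarCoord.target, ENNReal.ofReal p.1 • ‖f (Complex.polarCoord.symm p)‖ₑ := by
      apply setLIntegral_congr_fun (measurableSet_Ioi.prod measurableSet_Ioo)
      rintro ⟨r, θ⟩ ⟨hr, hθ⟩
      simp only [mem_Ioi] at hr
      simp only [smul_eq_mul]
      rw [enorm_smul]
      congr 1
      rw [← ofReal_norm, Real.norm_of_nonneg hr.le]
    rw [h2, h1]
    exact hfi.2
  rw [← integral_indicator measurableSet_ball, ← hf, ← Complex.integral_comp_polarCoord_symm]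
  rw [show polarCoord.target = Ioi (0:ℝ) ×ˢ Ioo (-π) π from rfl]
  rw [Measure.volume_eq_prod] at hprod ⊢
  rw [setIntegral_prod _ hprod]
  -- the inner integral
  have hin : ∀ r ∈ Ioi (0:ℝ), r ≠ ‖v‖ → r ≠ M →
      (∫ θ in Ioo (-π) π, (r, θ).1 • f (Complex.polarCoord.symm (r, θ))) =
        (Ioo ‖v‖ M).indicator (fun r : ℝ => ((-(2 * π) * (r⁻¹) : ℝ) : ℂ)) r := by
    intro r hr hrv hrM'
    simp only [mem_Ioi] at hr
    by_cases hrM : r < M
    · have e : ∀ θ, (r, θ).1 • f (Complex.polarCoord.symm (r, θ)) =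
          (r : ℂ) * ((conj (Complex.polarCoord.symm (r, θ)))⁻¹ / (v - Complex.polarCoord.symm (r, θ))) := by
        intro θ
        rw [hf, indicator_of_mem (by rw [mem_ball, dist_zero_right, Complex.norm_polarCoord_symm, abs_of_pos hr]; exact hrM)]
        simp
      simp_rw [e]
      rw [integral_const_mul, angular_log hr (Ne.symm hrv)]
      have hr' : (r:ℂ) ≠ 0 := by exact_mod_cast hr.ne'
      by_cases h : r < ‖v‖
      · rw [if_pos h, indicator_of_notMem (fun h' => absurd h'.1 (not_lt.mpr h.le)), mul_zero]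
      · rw [if_neg h, indicator_of_mem (show r ∈ Ioo ‖v‖ M from
          ⟨lt_of_le_of_ne (not_lt.mp h) (Ne.symm hrv), hrM⟩)]
        push_cast
        field_simp
    · have e : ∀ θ, (r, θ).1 • f (Complex.polarCoord.symm (r, θ)) = 0 := by
        intro θ
        rw [hf, indicator_of_notMem (by rw [mem_ball, dist_zero_right, Complex.norm_polarCoord_symm, abs_of_pos hr]; exact hrM)]
        simp
      simp_rw [e]
      rw [indicator_of_notMem (fun h' => hrM h'.2)]
      simp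
  have hae : (∫ r in Ioi (0:ℝ), ∫ θ in Ioo (-π) π, (r, θ).1 • f (Complex.polarCoord.symm (r, θ))) =
      ∫ r in Ioi (0:ℝ), (Ioo ‖v‖ M).indicator (fun r : ℝ => ((-(2 * π) * (r⁻¹) : ℝ) : ℂ)) r := by
    apply setIntegral_congr_ae measurableSet_Ioi
    have h1 : ∀ᵐ r : ℝ, r ≠ ‖v‖ := by
      simp [ae_iff, measure_singleton]
    have h2 : ∀ᵐ r : ℝ, r ≠ M := by
      simp [ae_iff, measure_singleton]
    filter_upwards [h1, h2] with r hr1 hr2 hr
    exact hin r hr hr1 hr2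
  have hsub : Ioo ‖v‖ M ⊆ Ioi (0:ℝ) := fun r hr => hvpos.trans hr.1
  rw [hae, setIntegral_indicator measurableSet_Ioo, inter_eq_self_of_subset_right hsub,
    integral_complex_ofReal, ← integral_Ioc_eq_integral_Ioo,
    ← intervalIntegral.integral_of_le hv.le, intervalIntegral.integral_const_mul,
    integral_inv_of_pos hvpos hM, Real.log_div hM.ne' hvpos.ne']
  congr 1
  ring

end Pool.Agent.M16.Helper39.Area

end

section

set_option autoImplicit false

open Complex MeasureTheory Metric Set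

open scoped Real ENNReal ComplexConjugate

namespace Pool.Agent.M16.Helper39.Area

variable {β : ℂ → ℂ}

/-- the inner contour integral -/
theorem inner_log (h : Ext β) {ρ : ℝ} (hρ : 0 < ρ) (hρ1 : ρ < 1)
    {a : ℂ} (ha : a ∈ ball (0:ℂ) ρ) (ha0 : a ≠ 0) {u : ℂ} (hu0 : u ≠ 0)
    (hu : phi β a + u ∉ phi β '' sphere 0 ρ) :
    (∮ ζ in C(0, ρ), dphi β ζ / (phi β ζ - phi β a) / (phi β ζ - phi β a - u)) =
      u⁻¹ * ∮ ζ in C(0, ρ), dphi β ζ / (phi β ζ - (phi β a + u)) := by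
  have ha1 : a ∈ ball (0:ℂ) 1 := mem_ball_of_sphere hρ1 (ball_subset_closedBall ha)
  have hne : ∀ ζ ∈ sphere (0:ℂ) ρ, phi β ζ - (phi β a + u) ≠ 0 := by
    intro ζ hζ h'
    exact hu ⟨ζ, hζ, sub_eq_zero.mp h'⟩
  have hne2 : ∀ ζ ∈ sphere (0:ℂ) ρ, phi β ζ - phi β a ≠ 0 := by
    intro ζ hζ h'
    have h2 := h.inj ζ a (mem_ball_of_sphere hρ1 (sphere_subset_closedBall hζ)) ha1
      (sphere_ne hρ hζ) ha0 (sub_eq_zero.mp h')
    subst h2
    simp at ha hζ
    linarith only [ha, hζ]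
  have hc1 : CircleIntegrable (fun ζ => dphi β ζ / (phi β ζ - (phi β a + u))) 0 ρ := by
    apply ContinuousOn.circleIntegrable hρ.le
    exact (cont_dphi h.diff hρ hρ1).div
      ((cont_phi h.diff hρ hρ1).sub continuousOn_const) hne
  have hc2 : CircleIntegrable (fun ζ => dphi β ζ / (phi β ζ - phi β a)) 0 ρ := by
    apply ContinuousOn.circleIntegrable hρ.le
    exact (cont_dphi h.diff hρ hρ1).div
      ((cont_phi h.diff hρ hρ1).sub continuousOn_const) hne2
  have h1 : (∮ ζ in C(0, ρ), dphi β ζ / (phi β ζ - phi β a) / (phi β ζ - phi β a - u)) =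
      ∮ ζ in C(0, ρ), u⁻¹ * (dphi β ζ / (phi β ζ - (phi β a + u)) -
        dphi β ζ / (phi β ζ - phi β a)) := by
    apply circleIntegral.integral_congr hρ.le
    intro ζ hζ
    have h3 := hne ζ hζ
    have h4 := hne2 ζ hζ
    have h5 : phi β ζ - phi β a - u ≠ 0 := by
      intro h'
      apply h3
      rw [← h']; ring
    simp only
    rw [show phi β ζ - (phi β a + u) = phi β ζ - phi β a - u by ring]
    field_simp
    ring
  rw [h1, circleIntegral.integral_const_mul, circleIntegral.integral_sub hc1 hc2,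
    wind_in h hρ hρ1 ha ha0, sub_zero]

/-- the area inequality for `log (φ - φ a)` -/
theorem area_log (h : Ext β) {ρ : ℝ} (hρ : 0 < ρ) (hρ1 : ρ < 1)
    {a : ℂ} (ha : a ∈ ball (0:ℂ) ρ) (ha0 : a ≠ 0) :
    ∃ c : ℝ, 0 ≤ c ∧ (∮ ζ in C(0, ρ), ((2 * Real.log ‖phi β ζ - phi β a‖ : ℝ) : ℂ) *
      (dphi β ζ / (phi β ζ - phi β a))) = -(2 * I) * c := by
  have ha1 : a ∈ ball (0:ℂ) 1 := mem_ball_of_sphere hρ1 (ball_subset_closedBall ha)
  have hphic := cont_phi h.diff hρ hρ1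
  have hdc := cont_dphi h.diff hρ hρ1
  set w : ℂ := phi β a with hw
  have hne2 : ∀ ζ ∈ sphere (0:ℂ) ρ, phi β ζ - w ≠ 0 := by
    intro ζ hζ h'
    have h2 := h.inj ζ a (mem_ball_of_sphere hρ1 (sphere_subset_closedBall hζ)) ha1
      (sphere_ne hρ hζ) ha0 (sub_eq_zero.mp h')
    subst h2
    simp at ha hζ
    linarith
  have hvc : ContinuousOn (fun ζ => phi β ζ - w) (sphere 0 ρ) := hphic.sub continuousOn_const
  -- the radius
  obtain ⟨M, hM⟩ : ∃ M : ℝ, ∀ ζ ∈ sphere (0:ℂ) ρ, ‖phi β ζ - w‖ < M := by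
    obtain ⟨M, hM⟩ := (isCompact_sphere (0:ℂ) ρ).exists_bound_of_continuousOn hvc
    exact ⟨M + 1, fun ζ hζ => lt_of_le_of_lt (hM ζ hζ) (lt_add_one M)⟩
  have hMpos : 0 < M := lt_of_le_of_lt (norm_nonneg _) (hM _ (circleMap_mem hρ 0))
  -- the lower bound
  obtain ⟨d, hd0, hd⟩ : ∃ d : ℝ, 0 < d ∧ ∀ ζ ∈ sphere (0:ℂ) ρ, ‖phi β ζ - w‖⁻¹ ≤ d := by
    have : ContinuousOn (fun ζ => (phi β ζ - w)⁻¹) (sphere 0 ρ) := hvc.inv₀ hne2
    obtain ⟨M, hM⟩ := (isCompact_sphere (0:ℂ) ρ).exists_bound_of_continuousOn this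
    refine ⟨|M| + 1, by positivity, fun ζ hζ => ?_⟩
    have := hM ζ hζ
    rw [norm_inv] at this
    linarith only [le_abs_self M, this]
  set D : ℂ → ℂ := fun ζ => dphi β ζ / (phi β ζ - w) with hD
  have hDc : ContinuousOn D (sphere 0 ρ) := hdc.div hvc hne2
  -- Step 1: rewrite with the kernel
  have e1 : (∮ ζ in C(0, ρ), ((2 * Real.log ‖phi β ζ - w‖ : ℝ) : ℂ) * D ζ) =
      ∮ ζ in C(0, ρ), ((π:ℂ)⁻¹ * (D ζ * ∫ u in ball (0:ℂ) M,
        (conj u)⁻¹ / (phi β ζ - w - u)) + ((2 * Real.log M : ℝ) : ℂ) * D ζ) := by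
    apply circleIntegral.integral_congr hρ.le
    intro ζ hζ
    simp only
    rw [logkernel M (hne2 ζ hζ) (hM ζ hζ)]
    have : (π:ℂ) ≠ 0 := by exact_mod_cast Real.pi_ne_zero
    push_cast
    field_simp
    ring
  have hlc : ContinuousOn (fun ζ => ((2 * Real.log ‖phi β ζ - w‖ : ℝ) : ℂ)) (sphere 0 ρ) := by
    apply Complex.continuous_ofReal.comp_continuousOn
    apply continuousOn_const.mul
    apply ContinuousOn.log hvc.norm
    intro ζ hζ
    exact norm_ne_zero_iff.mpr (hne2 ζ hζ)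
  have hci2 : CircleIntegrable (fun ζ => ((2 * Real.log M : ℝ) : ℂ) * D ζ) 0 ρ :=
    (continuousOn_const.mul hDc).circleIntegrable hρ.le
  have hci1 : CircleIntegrable (fun ζ => (π:ℂ)⁻¹ * (D ζ * ∫ u in ball (0:ℂ) M,
        (conj u)⁻¹ / (phi β ζ - w - u))) 0 ρ := by
    apply ContinuousOn.circleIntegrable hρ.le
    have hcc : ContinuousOn (fun ζ => ((2 * Real.log ‖phi β ζ - w‖ : ℝ) : ℂ) * D ζ -
        ((2 * Real.log M : ℝ) : ℂ) * D ζ) (sphere 0 ρ) :=
      (hlc.mul hDc).sub (continuousOn_const.mul hDc)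
    apply hcc.congr
    intro ζ hζ
    simp only
    rw [logkernel M (hne2 ζ hζ) (hM ζ hζ)]
    have : (π:ℂ) ≠ 0 := by exact_mod_cast Real.pi_ne_zero
    push_cast
    field_simp
  have e2 : (∮ ζ in C(0, ρ), ((2 * Real.log M : ℝ) : ℂ) * D ζ) = 0 := by
    rw [circleIntegral.integral_const_mul, hD, wind_in h hρ hρ1 ha ha0, mul_zero]
  rw [e1, circleIntegral.integral_add hci1 hci2, e2, add_zero, circleIntegral.integral_const_mul]
  -- Step 2: Fubini
  have e3 : (∮ ζ in C(0, ρ), D ζ * ∫ u in ball (0:ℂ) M, (conj u)⁻¹ / (phi β ζ - w - u)) =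
      ∫ u in ball (0:ℂ) M, (conj u)⁻¹ *
        ∮ ζ in C(0, ρ), dphi β ζ / (phi β ζ - w) / (phi β ζ - w - u) := by
    simp only [circleIntegral]
    have e4 : (∫ θ in (0:ℝ)..2 * π, deriv (circleMap 0 ρ) θ • (D (circleMap 0 ρ θ) *
        ∫ u in ball (0:ℂ) M, (conj u)⁻¹ / (phi β (circleMap 0 ρ θ) - w - u))) =
        ∫ θ in (0:ℝ)..2 * π, ∫ u in ball (0:ℂ) M, deriv (circleMap 0 ρ) θ * (D (circleMap 0 ρ θ) *
          ((conj u)⁻¹ / (phi β (circleMap 0 ρ θ) - w - u))) := by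
      congr 1
      funext θ
      rw [smul_eq_mul, ← integral_const_mul, ← integral_const_mul]
    have e5 : (∫ u in ball (0:ℂ) M, (conj u)⁻¹ *
        ∫ θ in (0:ℝ)..2 * π, deriv (circleMap 0 ρ) θ •
          (dphi β (circleMap 0 ρ θ) / (phi β (circleMap 0 ρ θ) - w) /
            (phi β (circleMap 0 ρ θ) - w - u))) =
        ∫ u in ball (0:ℂ) M, ∫ θ in (0:ℝ)..2 * π, deriv (circleMap 0 ρ) θ * (D (circleMap 0 ρ θ) *
          ((conj u)⁻¹ / (phi β (circleMap 0 ρ θ) - w - u))) := by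
      congr 1
      funext u
      rw [← intervalIntegral.integral_const_mul]
      congr 1
      funext θ
      simp only [hD, smul_eq_mul]
      ring
    rw [e4, e5]
    simp only [intervalIntegral.integral_of_le Real.two_pi_pos.le]
    apply integral_integral_swap
    -- integrability
    have hcθ : Continuous (fun θ : ℝ => circleMap 0 ρ θ) := continuous_circleMap 0 ρ
    have hc1 : Continuous (fun θ : ℝ => phi β (circleMap 0 ρ θ) - w) :=
      hvc.comp_continuous hcθ (fun θ => circleMap_mem hρ θ)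
    have hc2 : Continuous (fun θ : ℝ => deriv (circleMap 0 ρ) θ * D (circleMap 0 ρ θ)) := by
      have : deriv (circleMap 0 ρ) = fun θ => circleMap 0 ρ θ * I := by
        funext θ; rw [deriv_circleMap]
      apply Continuous.mul
      · rw [this]; fun_prop
      · exact hDc.comp_continuous hcθ (fun θ => circleMap_mem hρ θ)
    have hmeas : Measurable (fun z : ℝ × ℂ => deriv (circleMap 0 ρ) z.1 * (D (circleMap 0 ρ z.1) *
          ((conj z.2)⁻¹ / (phi β (circleMap 0 ρ z.1) - w - z.2)))) := by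
      have m1 : Measurable (fun z : ℝ × ℂ => deriv (circleMap 0 ρ) z.1 * D (circleMap 0 ρ z.1)) :=
        hc2.measurable.comp measurable_fst
      have m2 : Measurable (fun z : ℝ × ℂ => (conj z.2)⁻¹) :=
        (Complex.continuous_conj.measurable.inv).comp measurable_snd
      have m3 : Measurable (fun z : ℝ × ℂ => phi β (circleMap 0 ρ z.1) - w - z.2) :=
        (hc1.measurable.comp measurable_fst).sub measurable_snd
      have e : (fun z : ℝ × ℂ => deriv (circleMap 0 ρ) z.1 * (D (circleMap 0 ρ z.1) *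
          ((conj z.2)⁻¹ / (phi β (circleMap 0 ρ z.1) - w - z.2)))) =
          fun z : ℝ × ℂ => (deriv (circleMap 0 ρ) z.1 * D (circleMap 0 ρ z.1)) *
          ((conj z.2)⁻¹ / (phi β (circleMap 0 ρ z.1) - w - z.2)) := by
        funext z; ring
      rw [e]
      exact m1.mul (m2.div m3)
    show Integrable (fun z : ℝ × ℂ => deriv (circleMap 0 ρ) z.1 * (D (circleMap 0 ρ z.1) *
          ((conj z.2)⁻¹ / (phi β (circleMap 0 ρ z.1) - w - z.2))))
          ((volume.restrict (Ioc 0 (2 * π))).prod (volume.restrict (ball 0 M)))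
    refine ⟨hmeas.aestronglyMeasurable, ?_⟩
    -- bounds
    obtain ⟨B1, hB1⟩ := (isCompact_Icc (a := (0:ℝ)) (b := 2 * π)).exists_bound_of_continuousOn
      hc2.continuousOn
    have hB10 : 0 ≤ B1 := (norm_nonneg _).trans (hB1 0 ⟨le_rfl, Real.two_pi_pos.le⟩)
    rw [hasFiniteIntegral_iff_enorm]
    rw [lintegral_prod _ (hmeas.enorm.aemeasurable)]
    calc ∫⁻ θ in Ioc (0:ℝ) (2 * π), ∫⁻ u in ball (0:ℂ) M, ‖deriv (circleMap 0 ρ) θ *
          (D (circleMap 0 ρ θ) *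
          ((conj u)⁻¹ / (phi β (circleMap 0 ρ θ) - w - u)))‖ₑ
        ≤ ∫⁻ θ in Ioc (0:ℝ) (2 * π), ENNReal.ofReal (B1 * d) *
            (ENNReal.ofReal (2 * π * M) + ENNReal.ofReal (2 * π * (M + M))) := by
          apply setLIntegral_mono measurable_const
          intro θ hθ
          have hθ' : θ ∈ Icc (0:ℝ) (2 * π) := Ioc_subset_Icc_self hθ
          set v : ℂ := phi β (circleMap 0 ρ θ) - w with hv
          have hv0 : v ≠ 0 := hne2 _ (circleMap_mem hρ θ)
          have hvd : ‖v‖⁻¹ ≤ d := hd _ (circleMap_mem hρ θ)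
          have hvM : ‖v‖ < M := hM _ (circleMap_mem hρ θ)
          calc ∫⁻ u in ball (0:ℂ) M, ‖deriv (circleMap 0 ρ) θ * (D (circleMap 0 ρ θ) *
                ((conj u)⁻¹ / (v - u)))‖ₑ
              ≤ ∫⁻ u in ball (0:ℂ) M, ENNReal.ofReal (B1 * d) *
                  (ENNReal.ofReal (‖u‖⁻¹) + ENNReal.ofReal (‖v - u‖⁻¹)) := by
                apply setLIntegral_mono
                · apply Measurable.const_mul
                  exact (by fun_prop : Measurable fun u : ℂ => ‖u‖⁻¹).ennreal_ofReal.add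
                    (by fun_prop : Measurable fun u : ℂ => ‖v - u‖⁻¹).ennreal_ofReal
                intro u hu
                rw [← ofReal_norm, ← ENNReal.ofReal_add (by positivity) (by positivity),
                  ← ENNReal.ofReal_mul (by positivity)]
                apply ENNReal.ofReal_le_ofReal
                have b1 := hB1 θ hθ'
                calc ‖deriv (circleMap 0 ρ) θ * (D (circleMap 0 ρ θ) *
                      ((conj u)⁻¹ / (v - u)))‖
                    = ‖deriv (circleMap 0 ρ) θ * D (circleMap 0 ρ θ)‖ *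
                      (‖u‖⁻¹ * ‖v - u‖⁻¹) := by
                      rw [← mul_assoc, norm_mul, norm_div, norm_inv, RCLike.norm_conj, div_eq_mul_inv]
                  _ ≤ B1 * (‖v‖⁻¹ * (‖u‖⁻¹ + ‖v - u‖⁻¹)) := by
                      apply mul_le_mul b1 (inv_mul_inv_le u v hv0) (by positivity) hB10
                  _ ≤ B1 * (d * (‖u‖⁻¹ + ‖v - u‖⁻¹)) := by gcongr
                  _ = B1 * d * (‖u‖⁻¹ + ‖v - u‖⁻¹) := by ring
            _ = ENNReal.ofReal (B1 * d) * (∫⁻ u in ball (0:ℂ) M, ENNReal.ofReal (‖u‖⁻¹) +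
                  ENNReal.ofReal (‖v - u‖⁻¹)) := by
                rw [lintegral_const_mul' _ _ ENNReal.ofReal_ne_top]
            _ = ENNReal.ofReal (B1 * d) * ((∫⁻ u in ball (0:ℂ) M, ENNReal.ofReal (‖u‖⁻¹)) +
                  ∫⁻ u in ball (0:ℂ) M, ENNReal.ofReal (‖v - u‖⁻¹)) := by
                rw [lintegral_add_left (by fun_prop : Measurable fun u : ℂ => ‖u‖⁻¹).ennreal_ofReal]
            _ ≤ ENNReal.ofReal (B1 * d) *
                (ENNReal.ofReal (2 * π * M) + ENNReal.ofReal (2 * π * (M + M))) := by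
                gcongr
                · exact lint_inv_ball M
                · refine (lint_inv _ M).trans ?_
                  apply ENNReal.ofReal_le_ofReal
                  have hpi := Real.pi_pos
                  nlinarith only [hvM, hpi]
      _ < ⊤ := by
          rw [setLIntegral_const]
          apply ENNReal.mul_lt_top
          · apply ENNReal.mul_lt_top ENNReal.ofReal_lt_top
            exact ENNReal.add_lt_top.mpr ⟨ENNReal.ofReal_lt_top, ENNReal.ofReal_lt_top⟩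
          · rw [Real.volume_Ioc]; exact ENNReal.ofReal_lt_top
  rw [e3]
  -- Step 3: evaluate the inner integral almost everywhere
  have hnull : volume (phi β '' sphere 0 ρ) = 0 := by
    apply addHaar_image_eq_zero_of_differentiableOn_of_addHaar_eq_zero
    · intro ζ hζ
      have h1 := hasDerivAt_phi h.diff (mem_ball_of_sphere hρ1 (sphere_subset_closedBall hζ))
        (sphere_ne hρ hζ)
      exact (h1.hasFDerivAt.restrictScalars ℝ).differentiableAt.differentiableWithinAt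
    · exact Measure.addHaar_sphere volume 0 ρ
  set S : Set ℂ := phi β '' (ball 0 ρ \ {0}) with hS
  have hSo : IsOpen S := by
    have ho : ∀ ζ ∈ ball (0:ℂ) ρ \ {0}, S ∈ nhds (phi β ζ) := by
      rintro ζ ⟨hζ, hζ0⟩
      have hζ0' : ζ ≠ 0 := hζ0
      have hζ1 : ζ ∈ ball (0:ℂ) 1 := mem_ball_of_sphere hρ1 (ball_subset_closedBall hζ)
      have hst : HasStrictDerivAt (phi β) (dphi β ζ) ζ := by
        have h1 : DifferentiableOn ℂ (phi β) (ball 0 1 \ {0}) := by
          rintro ω ⟨hω, hω0⟩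
          exact (hasDerivAt_phi h.diff hω hω0).differentiableAt.differentiableWithinAt
        have h2 : AnalyticAt ℂ (phi β) ζ :=
          h1.analyticAt ((isOpen_ball.sdiff isClosed_singleton).mem_nhds ⟨hζ1, hζ0⟩)
        have h3 := h2.hasStrictDerivAt
        rwa [(hasDerivAt_phi h.diff hζ1 hζ0').deriv] at h3
      have hd0 : dphi β ζ ≠ 0 := by
        have := h.ne ζ hζ1
        intro h'
        apply this
        have : 1 - ζ ^ 2 * deriv β ζ = - ζ ^ 2 * dphi β ζ := by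
          unfold dphi
          field_simp
          ring
        rw [this, h', mul_zero]
      have hmap := hst.map_nhds_eq hd0
      rw [← hmap]
      exact Filter.image_mem_map ((isOpen_ball.sdiff isClosed_singleton).mem_nhds ⟨hζ, hζ0⟩)
    rw [isOpen_iff_mem_nhds]
    rintro _ ⟨ζ, hζ, rfl⟩
    exact ho ζ hζ
  set T : Set ℂ := {u | w + u ∉ S} with hT
  have hae : ∀ᵐ u : ℂ, (conj u)⁻¹ *
        (∮ ζ in C(0, ρ), dphi β ζ / (phi β ζ - w) / (phi β ζ - w - u)) =
      -(2 * π * I) * ((T.indicator (fun u => (‖u‖ ^ 2)⁻¹) u : ℝ) : ℂ) := by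
    have h1 : ∀ᵐ u : ℂ, w + u ∉ phi β '' sphere 0 ρ := by
      have h2 : volume ((fun u => w + u) ⁻¹' (phi β '' sphere 0 ρ)) = 0 := by
        rw [measure_preimage_add]; exact hnull
      exact measure_eq_zero_iff_ae_notMem.mp h2
    have h2 : ∀ᵐ u : ℂ, u ≠ 0 := by
      have : volume ({0} : Set ℂ) = 0 := measure_singleton 0
      filter_upwards [measure_eq_zero_iff_ae_notMem.mp this] with u hu
      simpa using hu
    filter_upwards [h1, h2] with u hu hu0
    rw [inner_log h hρ hρ1 ha ha0 hu0 hu]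
    by_cases huS : w + u ∈ S
    · rw [indicator_of_notMem (by simpa [hT] using huS)]
      obtain ⟨b, ⟨hb, hb0⟩, hbw⟩ := huS
      rw [← hw, ← hbw, wind_in h hρ hρ1 hb hb0]
      simp
    · rw [indicator_of_mem (by simpa [hT] using huS)]
      rw [wind_out h.diff hρ hρ1]
      · have h7 : (((‖u‖ ^ 2)⁻¹ : ℝ) : ℂ) = u⁻¹ * (conj u)⁻¹ := by
          rw [← mul_inv, Complex.mul_conj, Complex.normSq_eq_norm_sq]
          push_cast
          rfl
        rw [h7]; ring
      · intro ζ hζ hζ0 h'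
        rcases lt_or_eq_of_le (show ‖ζ‖ ≤ ρ by simpa using hζ) with h8 | h8
        · exact huS ⟨ζ, ⟨by simpa using h8, hζ0⟩, h'⟩
        · exact hu ⟨ζ, by simpa using h8, h'⟩
  rw [setIntegral_congr_ae measurableSet_ball (hae.mono fun u hu _ => hu), integral_const_mul,
    integral_complex_ofReal]
  refine ⟨∫ u in ball (0:ℂ) M, T.indicator (fun u => (‖u‖ ^ 2)⁻¹) u, ?_, ?_⟩
  · apply integral_nonneg
    intro u
    apply indicator_nonneg
    intro u _
    positivity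
  · have : (π:ℂ) ≠ 0 := by exact_mod_cast Real.pi_ne_zero
    field_simp

end Pool.Agent.M16.Helper39.Area

end

end

section

namespace Pool.Agent.M16.Helper39.Area
end Pool.Agent.M16.Helper39.Area
namespace Pool.Agent.M16.Helper22.Marshall
end Pool.Agent.M16.Helper22.Marshall
namespace Pool.Agent.M16.Helper22.Half
end Pool.Agent.M16.Helper22.Half
namespace Pool.Agent.M16.Helper39.MH
end Pool.Agent.M16.Helper39.MH

section

set_option autoImplicit false

open Complex MeasureTheory Metric Set Filter Topology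

open scoped Real ENNReal ComplexConjugate NNReal

namespace Pool.Agent.M16.Helper39.Area

variable {β : ℂ → ℂ}

theorem lam_zero (ρ : ℝ) (a : ℂ) : Lam ρ a 0 = 0 := by simp [Lam]

theorem lam_self {ρ : ℝ} (hρ : 0 < ρ) {a : ℂ} (ha : a ∈ ball (0:ℂ) ρ) :
    Lam ρ a a = ((Real.log (1 - ‖a‖ ^ 2 / ρ ^ 2) : ℝ) : ℂ) := by
  have h1 : conj a * a = ((‖a‖ ^ 2 : ℝ) : ℂ) := by
    rw [mul_comm, Complex.mul_conj, Complex.normSq_eq_norm_sq]
  have h2 : 0 ≤ 1 - ‖a‖ ^ 2 / ρ ^ 2 := by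
    rw [mem_ball, dist_zero_right] at ha
    have : ‖a‖ ^ 2 / ρ ^ 2 ≤ 1 := by
      rw [div_le_one (by positivity)]
      gcongr
    linarith only [this]
  rw [Lam, h1, Complex.ofReal_log h2]
  congr 1
  push_cast
  ring

theorem log_bound_aux (h : Ext β) {ρ : ℝ} (hρ : 0 < ρ) (hρ1 : ρ < 1)
    {a : ℂ} (ha : a ∈ ball (0:ℂ) ρ) (ha0 : a ≠ 0) {F : ℂ → ℂ}
    (hF : ∀ ζ ∈ ball (0:ℂ) 1, HasDerivAt F (deriv (qq β a) ζ / qq β a ζ) ζ)
    (hF0 : F 0 = 0) (hexp : ∀ ζ ∈ ball (0:ℂ) 1, Complex.exp (F ζ) = qq β a ζ) :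
    ‖F a‖ ≤ - Real.log (1 - ‖a‖ ^ 2 / ρ ^ 2) := by
  have ha1 : a ∈ ball (0:ℂ) 1 := mem_ball_of_sphere hρ1 (ball_subset_closedBall ha)
  have hapos : 0 < ‖a‖ := norm_pos_iff.mpr ha0
  have haρ : ‖a‖ < ρ := by simpa using ha
  set Q : ℂ → ℂ := fun ζ => deriv (qq β a) ζ / qq β a ζ with hQ
  set R : ℝ := min 1 (ρ ^ 2 / ‖a‖) with hR
  have hρR : ρ < R := lt_min hρ1 (rad_lt hρ ha ha0)
  have hR1 : ball (0:ℂ) R ⊆ ball 0 1 := ball_subset_ball (min_le_left _ _)
  have hR2 : ball (0:ℂ) R ⊆ ball 0 (ρ ^ 2 / ‖a‖) := ball_subset_ball (min_le_right _ _)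
  have hsR : sphere (0:ℂ) ρ ⊆ ball 0 R := by
    intro ζ hζ
    rw [mem_ball, dist_zero_right]
    rw [mem_sphere, dist_zero_right] at hζ
    linarith only [hρR, hζ]
  have hFd : DifferentiableOn ℂ F (ball 0 R) := fun ζ hζ =>
    (hF ζ (hR1 hζ)).differentiableAt.differentiableWithinAt
  have hQd : DifferentiableOn ℂ Q (ball 0 R) := by
    have h1 : DifferentiableOn ℂ (deriv F) (ball 0 R) := hFd.deriv isOpen_ball
    apply h1.congr
    intro ζ hζ
    exact (hF ζ (hR1 hζ)).deriv.symm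
  have hLd : DifferentiableOn ℂ (Lam ρ a) (ball 0 R) := (lam_diff hρ ha ha0).mono hR2
  have hLpd : DifferentiableOn ℂ (Lamp ρ a) (ball 0 R) := by
    have h1 : DifferentiableOn ℂ (deriv (Lam ρ a)) (ball 0 R) := hLd.deriv isOpen_ball
    apply h1.congr
    intro ζ hζ
    exact (lam_hasDeriv hρ ha ha0 (hR2 hζ)).deriv.symm
  have hFc : ContinuousOn F (sphere 0 ρ) := hFd.continuousOn.mono hsR
  have hQc : ContinuousOn Q (sphere 0 ρ) := hQd.continuousOn.mono hsR
  have hLc : ContinuousOn (Lam ρ a) (sphere 0 ρ) := hLd.continuousOn.mono hsR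
  have hLpc : ContinuousOn (Lamp ρ a) (sphere 0 ρ) := hLpd.continuousOn.mono hsR
  have hgpc : ContinuousOn (gp a) (sphere 0 ρ) := gp_cont ha hρ
  set G : ℂ → ℂ := fun ζ => Complex.log (1 - a / ζ) with hG
  have hGc : ContinuousOn G (sphere 0 ρ) := fun ζ hζ =>
    (g_hasDeriv ha hρ hζ).continuousAt.continuousWithinAt
  have hcFc : ContinuousOn (fun ζ => conj (F ζ)) (sphere 0 ρ) :=
    Complex.continuous_conj.comp_continuousOn hFc
  have hFs : ∀ ζ ∈ sphere (0:ℂ) ρ, HasDerivAt F (Q ζ) ζ := fun ζ hζ => hF ζ (hR1 (hsR hζ))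
  have hLs : ∀ ζ ∈ sphere (0:ℂ) ρ, HasDerivAt (Lam ρ a) (Lamp ρ a ζ) ζ := fun ζ hζ =>
    lam_hasDeriv hρ ha ha0 (hR2 (hsR hζ))
  have hGs : ∀ ζ ∈ sphere (0:ℂ) ρ, HasDerivAt G (gp a ζ) ζ := fun ζ hζ => g_hasDeriv ha hρ hζ
  have hGL : ∀ ζ ∈ sphere (0:ℂ) ρ, conj (Lam ρ a ζ) = G ζ := fun ζ hζ => conj_lam hρ ha ha0 hζ
  set ℓ : ℝ := - Real.log (1 - ‖a‖ ^ 2 / ρ ^ 2) with hℓ
  have hfrac : 0 < ‖a‖ ^ 2 / ρ ^ 2 := by positivity
  have hfrac1 : ‖a‖ ^ 2 / ρ ^ 2 < 1 := by
    rw [div_lt_one (by positivity)]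
    exact pow_lt_pow_left₀ haρ hapos.le two_ne_zero
  have hℓpos : 0 < ℓ := by
    rw [hℓ, neg_pos]
    exact Real.log_neg (by linarith only [hfrac1]) (by linarith only [hfrac])
  have hLa : Lam ρ a a = -(ℓ:ℂ) := by
    rw [lam_self hρ ha, hℓ]; push_cast; ring
  have hL0 : Lam ρ a 0 = 0 := lam_zero ρ a
  -- the basic integrals
  have I3 : (∮ ζ in C(0, ρ), G ζ * Q ζ) = -(2 * π * I * F a) := by
    rw [parts hρ hGs hFs hgpc hQc, repro hρ hρR hFd ha, hF0, sub_zero]
  have I4 : (∮ ζ in C(0, ρ), G ζ * gp a ζ) = 0 := by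
    have h1 := parts hρ hGs hGs hgpc hgpc
    have h2 : (2:ℂ) * (∮ ζ in C(0, ρ), G ζ * gp a ζ) = 0 := by linear_combination h1
    simpa using h2
  obtain ⟨A, hA0, hA⟩ := dirichlet_nonneg hFd hρ hρR
  have I5 : (∮ ζ in C(0, ρ), conj (F ζ) * Q ζ) = 2 * π * I * A := by
    rw [← hA]
    apply circleIntegral.integral_congr hρ.le
    intro ζ hζ
    simp only
    rw [(hFs ζ hζ).deriv]
  have I6 : (∮ ζ in C(0, ρ), conj (F ζ) * gp a ζ) = 0 := by
    have h1 := conj_circle hρ (fun ζ => conj (F ζ) * gp a ζ)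
    have h2 : (∮ ζ in C(0, ρ), (-((ρ:ℂ) ^ 2 / ζ ^ 2)) * conj (conj (F ζ) * gp a ζ)) =
        ∮ ζ in C(0, ρ), F ζ * Lamp ρ a ζ := by
      apply circleIntegral.integral_congr hρ.le
      intro ζ hζ
      simp only
      rw [map_mul, Complex.conj_conj, ← lamp_eq hρ ha ha0 hζ]
      ring
    have hz : (∮ ζ in C(0, ρ), F ζ * Lamp ρ a ζ) = 0 := cauchy_zero hρ hρR (hFd.mul hLpd)
    rw [h2, hz] at h1
    simpa using h1
  have I7 : (∮ ζ in C(0, ρ), conj (F ζ) * Lamp ρ a ζ) = -(2 * π * I * conj (F a)) := by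
    have h1 := conj_circle hρ (fun ζ => conj (F ζ) * Lamp ρ a ζ)
    have h2 : (∮ ζ in C(0, ρ), (-((ρ:ℂ) ^ 2 / ζ ^ 2)) * conj (conj (F ζ) * Lamp ρ a ζ)) =
        ∮ ζ in C(0, ρ), F ζ * gp a ζ := by
      apply circleIntegral.integral_congr hρ.le
      intro ζ hζ
      simp only
      rw [map_mul, Complex.conj_conj, ← gp_eq hρ ha ha0 hζ]
      ring
    rw [h2, repro hρ hρR hFd ha, hF0, sub_zero] at h1
    have h3 := congrArg conj h1
    rw [Complex.conj_conj] at h3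
    rw [h3]
    simp only [map_mul, Complex.conj_ofReal, Complex.conj_I, map_ofNat]
    ring
  have I8 : (∮ ζ in C(0, ρ), G ζ * Lamp ρ a ζ) = 2 * π * I * ℓ := by
    rw [parts hρ hGs hLs hgpc hLpc, repro hρ hρR hLd ha, hLa, hL0]
    ring
  -- the area inequality
  obtain ⟨c, hc0, hc⟩ := area_log h hρ hρ1 ha ha0
  set c0 : ℂ := ((-2 * Real.log ‖a‖ : ℝ) : ℂ) with hc0'
  have hW : DifferentiableOn ℂ (fun ζ => c0 + Lam ρ a ζ + F ζ) (ball 0 R) :=
    ((differentiableOn_const c0).add hLd).add hFd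
  have hWc : ContinuousOn (fun ζ => c0 + Lam ρ a ζ + F ζ) (sphere 0 ρ) := hW.continuousOn.mono hsR
  have I1 : (∮ ζ in C(0, ρ), (c0 + Lam ρ a ζ + F ζ) * Q ζ) = 0 :=
    cauchy_zero hρ hρR (hW.mul hQd)
  have I2 : (∮ ζ in C(0, ρ), (c0 + Lam ρ a ζ + F ζ) * gp a ζ) = 2 * π * I * (F a - ℓ) := by
    rw [repro hρ hρR hW ha, hLa, hL0, hF0]
    ring
  have hJ : (∮ ζ in C(0, ρ), ((2 * Real.log ‖phi β ζ - phi β a‖ : ℝ) : ℂ) *
      (dphi β ζ / (phi β ζ - phi β a))) =
      ∮ ζ in C(0, ρ), ((((((c0 + Lam ρ a ζ + F ζ) * Q ζ) + ((c0 + Lam ρ a ζ + F ζ) * gp a ζ)) +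
        (G ζ * Q ζ)) + (G ζ * gp a ζ)) + (conj (F ζ) * Q ζ)) + (conj (F ζ) * gp a ζ) := by
    apply circleIntegral.integral_congr hρ.le
    intro ζ hζ
    have hζ1 : ζ ∈ ball (0:ℂ) 1 := hR1 (hsR hζ)
    have hζ0 : ζ ≠ 0 := sphere_ne' hρ hζ
    have hne : ζ ≠ a := by
      rintro rfl
      simp at hζ
      linarith
    have h1 : ((2 * Real.log ‖phi β ζ - phi β a‖ : ℝ) : ℂ) =
        c0 + Lam ρ a ζ + F ζ + G ζ + conj (F ζ) := by
      have h2 : phi β ζ - phi β a = -a⁻¹ * (1 - a / ζ) * qq β a ζ := by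
        rw [phi_sub a ζ ha0 hζ0]
        field_simp
        ring
      have h3 : (1 - a / ζ) ≠ 0 := by
        intro h'
        rw [sub_eq_zero, eq_div_iff hζ0, one_mul] at h'
        exact hne h'
      have h4 : qq β a ζ ≠ 0 := qq_ne h ha1 hζ1
      have h5 : Real.log ‖phi β ζ - phi β a‖ = - Real.log ‖a‖ + (G ζ).re + (F ζ).re := by
        rw [h2, norm_mul, norm_mul, norm_neg, norm_inv,
          Real.log_mul (mul_ne_zero (inv_ne_zero hapos.ne') (norm_ne_zero_iff.mpr h3))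
            (norm_ne_zero_iff.mpr h4),
          Real.log_mul (inv_ne_zero hapos.ne') (norm_ne_zero_iff.mpr h3), Real.log_inv, hG,
          Complex.log_re, ← hexp ζ hζ1, Complex.norm_exp, Real.log_exp]
      have h6 : Lam ρ a ζ = conj (G ζ) := by rw [← hGL ζ hζ, Complex.conj_conj]
      rw [h5, h6, hc0']
      have h7 := Complex.add_conj (G ζ)
      have h8 := Complex.add_conj (F ζ)
      push_cast at h7 h8 ⊢
      linear_combination -h7 - h8
    simp only
    rw [h1, dphi_div h ha1 hζ1 ha0 hζ0 hne]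
    simp only [gp, hQ]
    ring
  have hc1 : CircleIntegrable (fun ζ => (c0 + Lam ρ a ζ + F ζ) * Q ζ) 0 ρ :=
    (hWc.mul hQc).circleIntegrable hρ.le
  have hc2 : CircleIntegrable (fun ζ => (c0 + Lam ρ a ζ + F ζ) * gp a ζ) 0 ρ :=
    (hWc.mul hgpc).circleIntegrable hρ.le
  have hc3 : CircleIntegrable (fun ζ => G ζ * Q ζ) 0 ρ := (hGc.mul hQc).circleIntegrable hρ.le
  have hc4 : CircleIntegrable (fun ζ => G ζ * gp a ζ) 0 ρ := (hGc.mul hgpc).circleIntegrable hρ.le
  have hc5 : CircleIntegrable (fun ζ => conj (F ζ) * Q ζ) 0 ρ :=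
    (hcFc.mul hQc).circleIntegrable hρ.le
  have hc6 : CircleIntegrable (fun ζ => conj (F ζ) * gp a ζ) 0 ρ :=
    (hcFc.mul hgpc).circleIntegrable hρ.le
  have hc12 : CircleIntegrable (fun ζ => ((c0 + Lam ρ a ζ + F ζ) * Q ζ) +
      ((c0 + Lam ρ a ζ + F ζ) * gp a ζ)) 0 ρ := hc1.add hc2
  have hc13 : CircleIntegrable (fun ζ => (((c0 + Lam ρ a ζ + F ζ) * Q ζ) +
      ((c0 + Lam ρ a ζ + F ζ) * gp a ζ)) + (G ζ * Q ζ)) 0 ρ := hc12.add hc3
  have hc14 : CircleIntegrable (fun ζ => ((((c0 + Lam ρ a ζ + F ζ) * Q ζ) +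
      ((c0 + Lam ρ a ζ + F ζ) * gp a ζ)) + (G ζ * Q ζ)) + (G ζ * gp a ζ)) 0 ρ := hc13.add hc4
  have hc15 : CircleIntegrable (fun ζ => (((((c0 + Lam ρ a ζ + F ζ) * Q ζ) +
      ((c0 + Lam ρ a ζ + F ζ) * gp a ζ)) + (G ζ * Q ζ)) + (G ζ * gp a ζ)) +
      (conj (F ζ) * Q ζ)) 0 ρ := hc14.add hc5
  rw [hJ, circleIntegral.integral_add hc15 hc6, circleIntegral.integral_add hc14 hc5,
    circleIntegral.integral_add hc13 hc4, circleIntegral.integral_add hc12 hc3,
    circleIntegral.integral_add hc1 hc2, I1, I2, I3, I4, I5, I6] at hc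
  have hpi : (π:ℂ) ≠ 0 := by exact_mod_cast Real.pi_ne_zero
  have hAc : (A:ℂ) = ℓ - c / π := by
    have hI : (2 * I : ℂ) ≠ 0 := by simp
    have : (2 * I : ℂ) * (π * A) = (2 * I : ℂ) * (π * ℓ - c) := by linear_combination hc
    have h2 := mul_left_cancel₀ hI this
    field_simp
    linear_combination h2
  have hAr : A = ℓ - c / π := by exact_mod_cast hAc
  have hAle : A ≤ ℓ := by
    rw [hAr]
    have : 0 ≤ c / π := div_nonneg hc0 Real.pi_pos.le
    linarith only [this]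
  -- the Dirichlet form of the combination
  set lam : ℂ := F a / ℓ with hlam
  have hEd : DifferentiableOn ℂ (fun ζ => F ζ + lam * Lam ρ a ζ) (ball 0 R) :=
    hFd.add (hLd.const_mul lam)
  obtain ⟨c2, hc20, hc2'⟩ := dirichlet_nonneg hEd hρ hρR
  have hℓc : (ℓ:ℂ) ≠ 0 := by exact_mod_cast hℓpos.ne'
  have hE : (∮ ζ in C(0, ρ), conj (F ζ + lam * Lam ρ a ζ) *
      deriv (fun ζ => F ζ + lam * Lam ρ a ζ) ζ) =
      ∮ ζ in C(0, ρ), (((conj (F ζ) * Q ζ) + lam * (conj (F ζ) * Lamp ρ a ζ)) +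
        conj lam * (G ζ * Q ζ)) + (conj lam * lam) * (G ζ * Lamp ρ a ζ) := by
    apply circleIntegral.integral_congr hρ.le
    intro ζ hζ
    have h1 : deriv (fun ζ => F ζ + lam * Lam ρ a ζ) ζ = Q ζ + lam * Lamp ρ a ζ :=
      ((hFs ζ hζ).add ((hLs ζ hζ).const_mul lam)).deriv
    simp only
    rw [h1, map_add, map_mul, hGL ζ hζ]
    ring
  have hd2 : CircleIntegrable (fun ζ => lam * (conj (F ζ) * Lamp ρ a ζ)) 0 ρ :=
    (continuousOn_const.mul (hcFc.mul hLpc)).circleIntegrable hρ.le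
  have hd3 : CircleIntegrable (fun ζ => conj lam * (G ζ * Q ζ)) 0 ρ :=
    (continuousOn_const.mul (hGc.mul hQc)).circleIntegrable hρ.le
  have hd4 : CircleIntegrable (fun ζ => (conj lam * lam) * (G ζ * Lamp ρ a ζ)) 0 ρ :=
    (continuousOn_const.mul (hGc.mul hLpc)).circleIntegrable hρ.le
  have hd12 : CircleIntegrable (fun ζ => (conj (F ζ) * Q ζ) +
      lam * (conj (F ζ) * Lamp ρ a ζ)) 0 ρ := hc5.add hd2
  have hd13 : CircleIntegrable (fun ζ => ((conj (F ζ) * Q ζ) +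
      lam * (conj (F ζ) * Lamp ρ a ζ)) + conj lam * (G ζ * Q ζ)) 0 ρ := hd12.add hd3
  rw [hE, circleIntegral.integral_add hd13 hd4, circleIntegral.integral_add hd12 hd3,
    circleIntegral.integral_add hc5 hd2, circleIntegral.integral_const_mul,
    circleIntegral.integral_const_mul, circleIntegral.integral_const_mul, I5, I7, I3, I8] at hc2'
  have hFa : F a * conj (F a) = ((‖F a‖ ^ 2 : ℝ) : ℂ) := by
    rw [Complex.mul_conj, Complex.normSq_eq_norm_sq]
  have hclam : conj lam = conj (F a) / ℓ := by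
    rw [hlam, map_div₀, Complex.conj_ofReal]
  have hfin : (A:ℂ) = c2 + ((‖F a‖ ^ 2 : ℝ) : ℂ) / ℓ := by
    have h2pi : (2 * π * I : ℂ) ≠ 0 := two_pi_I_ne_zero
    apply mul_left_cancel₀ h2pi
    rw [← hFa]
    rw [hclam, hlam] at hc2'
    have h9 : (2 * π * I : ℂ) * A + F a / ℓ * -(2 * π * I * conj (F a)) +
        conj (F a) / ℓ * -(2 * π * I * F a) + conj (F a) / ℓ * (F a / ℓ) * (2 * π * I * ℓ) =
        2 * π * I * (A - F a * conj (F a) / ℓ) := by
      field_simp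
      ring
    rw [h9] at hc2'
    linear_combination hc2'
  have hfinr : A = c2 + ‖F a‖ ^ 2 / ℓ := by exact_mod_cast hfin
  have h10 : ‖F a‖ ^ 2 / ℓ ≤ ℓ := by linarith only [hAle, hc20, hfinr]
  rw [div_le_iff₀ hℓpos] at h10
  nlinarith only [hℓpos, h10]

theorem log_bound (h : Ext β) {a : ℂ} (ha : a ∈ ball (0:ℂ) 1) {F : ℂ → ℂ}
    (hF : ∀ ζ ∈ ball (0:ℂ) 1, HasDerivAt F (deriv (qq β a) ζ / qq β a ζ) ζ)
    (hF0 : F 0 = 0) (hexp : ∀ ζ ∈ ball (0:ℂ) 1, Complex.exp (F ζ) = qq β a ζ) :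
    ‖F a‖ ≤ - Real.log (1 - ‖a‖ ^ 2) := by
  by_cases ha0 : a = 0
  · subst ha0; simp [hF0]
  have ha' : ‖a‖ < 1 := by simpa using ha
  have hlim : Tendsto (fun ρ : ℝ => - Real.log (1 - ‖a‖ ^ 2 / ρ ^ 2)) (𝓝[<] 1)
      (𝓝 (- Real.log (1 - ‖a‖ ^ 2))) := by
    have h1 : ContinuousAt (fun ρ : ℝ => - Real.log (1 - ‖a‖ ^ 2 / ρ ^ 2)) 1 := by
      apply ContinuousAt.neg
      apply ContinuousAt.log
      · apply ContinuousAt.sub continuousAt_const
        apply ContinuousAt.div continuousAt_const (by fun_prop) (by norm_num)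
      · have : ‖a‖ ^ 2 < 1 := by nlinarith only [norm_nonneg a, ha']
        simp only [one_pow, div_one]
        linarith
    have h2 := h1.tendsto
    simp only [one_pow, div_one] at h2
    exact h2.mono_left nhdsWithin_le_nhds
  apply ge_of_tendsto hlim
  have h1 : Ioo ‖a‖ 1 ∈ 𝓝[<] (1:ℝ) := Ioo_mem_nhdsLT ha'
  filter_upwards [h1] with ρ hρ
  exact log_bound_aux h ((norm_nonneg a).trans_lt hρ.1) hρ.2 (by simpa using hρ.1) ha0 hF hF0 hexp

end Pool.Agent.M16.Helper39.Area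

end

section

set_option autoImplicit false

open Complex MeasureTheory Metric Set Filter Topology

open scoped Real ENNReal ComplexConjugate NNReal

namespace Pool.Agent.M16.Helper39.Area

theorem eq_zero_of_exp_one {X : Type*} [TopologicalSpace X] {S : Set X} (hS : IsPreconnected S)
    {f : X → ℂ} (hf : ContinuousOn f S) (he : ∀ x ∈ S, Complex.exp (f x) = 1) {x0 : X}
    (hx0 : x0 ∈ S) (h0 : f x0 = 0) : ∀ x ∈ S, f x = 0 := by
  have him : ContinuousOn (fun x => (f x).im) S := Complex.continuous_im.comp_continuousOn hf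
  have hpre := (hS.image _ him).ordConnected
  intro x hx
  obtain ⟨n, hn⟩ := Complex.exp_eq_one_iff.mp (he x hx)
  have him2 : (f x).im = n * (2 * π) := by rw [hn]; simp
  have hn0 : n = 0 := by
    by_contra hne
    -- a value with imaginary part ±π
    have hz : (0:ℝ) ∈ (fun x => (f x).im) '' S := ⟨x0, hx0, by simp [h0]⟩
    have hz2 : (n * (2 * π) : ℝ) ∈ (fun x => (f x).im) '' S := ⟨x, hx, him2⟩
    have key : ∀ t : ℝ, (t = π ∨ t = -π) → t ∉ (fun x => (f x).im) '' S := by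
      rintro t ht ⟨y, hy, hyt⟩
      obtain ⟨m, hm⟩ := Complex.exp_eq_one_iff.mp (he y hy)
      have h1 : (f y).im = m * (2 * π) := by rw [hm]; simp
      simp only at hyt
      rw [hyt] at h1
      have hpi := Real.pi_pos
      rcases ht with rfl | rfl
      · have h2 : (1:ℝ) = m * 2 := by
          have : π * 1 = π * (m * 2) := by linarith only [h1]
          exact mul_left_cancel₀ hpi.ne' this
        have h3 : (1:ℤ) = m * 2 := by exact_mod_cast h2
        omega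
      · have h2 : (-1:ℝ) = m * 2 := by
          have : π * (-1) = π * (m * 2) := by linarith only [h1]
          exact mul_left_cancel₀ hpi.ne' this
        have h3 : (-1:ℤ) = m * 2 := by exact_mod_cast h2
        omega
    have hpi := Real.pi_pos
    rcases lt_or_gt_of_ne hne with h | h
    · have h1 : (n:ℝ) ≤ -1 := by exact_mod_cast (Int.le_sub_one_iff.mpr h)
      exact key (-π) (Or.inr rfl) (hpre.out hz2 hz ⟨by nlinarith only [hpi, h1], by linarith⟩)
    · have h1 : (1:ℝ) ≤ n := by exact_mod_cast h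
      exact key π (Or.inl rfl) (hpre.out hz hz2 ⟨by linarith, by nlinarith only [hpi, h1]⟩)
  rw [hn, hn0]; simp

variable {β : ℂ → ℂ}

theorem dslope_cont (hβ : DifferentiableOn ℂ β (ball 0 1)) :
    ContinuousOn (fun p : ℂ × ℂ => dslope β p.1 p.2) (ball 0 1 ×ˢ ball 0 1) := by
  rintro ⟨a, b⟩ ⟨ha, hb⟩
  simp only at ha hb
  apply ContinuousAt.continuousWithinAt
  have hβa : ContinuousAt β a := (hβ.differentiableAt (isOpen_ball.mem_nhds ha)).continuousAt
  have hβb : ContinuousAt β b := (hβ.differentiableAt (isOpen_ball.mem_nhds hb)).continuousAt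
  by_cases hab : a = b
  · subst hab
    have han : AnalyticAt ℂ β a := hβ.analyticAt (isOpen_ball.mem_nhds ha)
    have hst : HasStrictDerivAt β (deriv β a) a := han.hasStrictDerivAt
    have hdc : ContinuousAt (deriv β) a :=
      ((hβ.deriv isOpen_ball).differentiableAt (isOpen_ball.mem_nhds ha)).continuousAt
    have hdc2 : ContinuousAt (fun p : ℂ × ℂ => deriv β p.1) (a, a) :=
      ContinuousAt.comp (f := Prod.fst) (g := deriv β) (x := ((a, a) : ℂ × ℂ)) hdc continuousAt_fst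
    rw [Metric.continuousAt_iff']
    intro ε hε
    rw [Metric.continuousAt_iff'] at hdc2
    have h1 := (hasStrictDerivAt_iff_hasStrictFDerivAt.mp hst).isLittleO
    have h2 := (Asymptotics.isLittleO_iff.mp h1) (half_pos hε)
    filter_upwards [h2, hdc2 ε hε] with p hp1 hp2
    simp only [dslope_same]
    by_cases hp : p.1 = p.2
    · rw [← hp, dslope_same]
      exact hp2
    · rw [dslope_of_ne _ (Ne.symm hp), slope_def_field, dist_eq_norm]
      have h3 : p.2 - p.1 ≠ 0 := sub_ne_zero.mpr (Ne.symm hp)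
      have h4 : (β p.2 - β p.1) / (p.2 - p.1) - deriv β a =
          (β p.1 - β p.2 - (p.1 - p.2) * deriv β a) / (p.1 - p.2) := by
        have h5 : p.1 - p.2 ≠ 0 := sub_ne_zero.mpr hp
        field_simp
        ring
      rw [h4, norm_div]
      have h5 : 0 < ‖p.1 - p.2‖ := norm_pos_iff.mpr (sub_ne_zero.mpr hp)
      rw [div_lt_iff₀ h5]
      have h6 : ‖β p.1 - β p.2 - (p.1 - p.2) * deriv β a‖ ≤ ε / 2 * ‖p.1 - p.2‖ := by
        simpa [mul_comm] using hp1
      nlinarith only [hε, h5, h6]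
  · have hne : ∀ᶠ p : ℂ × ℂ in 𝓝 (a, b), p.1 ≠ p.2 := by
      have : IsOpen {p : ℂ × ℂ | p.1 ≠ p.2} := isOpen_ne_fun continuous_fst continuous_snd
      exact this.mem_nhds hab
    have h1 : ContinuousAt (fun p : ℂ × ℂ => (β p.2 - β p.1) / (p.2 - p.1)) (a, b) := by
      have c1 : ContinuousAt (fun p : ℂ × ℂ => β p.1) (a, b) :=
        ContinuousAt.comp (f := Prod.fst) (g := β) (x := ((a, b) : ℂ × ℂ)) hβa continuousAt_fst
      have c2 : ContinuousAt (fun p : ℂ × ℂ => β p.2) (a, b) :=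
        ContinuousAt.comp (f := Prod.snd) (g := β) (x := ((a, b) : ℂ × ℂ)) hβb continuousAt_snd
      exact (c2.sub c1).div (continuousAt_snd.sub continuousAt_fst) (sub_ne_zero.mpr (Ne.symm hab))
    apply h1.congr
    filter_upwards [hne] with p hp
    rw [dslope_of_ne _ (Ne.symm hp), slope_def_field]

theorem goluzin (h : Ext β) {H : ℂ → ℂ} (hH : ContinuousOn H (ball 0 1)) (hH0 : H 0 = 0)
    (hexp : ∀ ζ ∈ ball (0:ℂ) 1, Complex.exp (H ζ) = 1 - ζ ^ 2 * deriv β ζ) {a : ℂ}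
    (ha : a ∈ ball (0:ℂ) 1) : ‖H a‖ ≤ - Real.log (1 - ‖a‖ ^ 2) := by
  set U : Set (ℂ × ℂ) := ball 0 1 ×ˢ ball 0 1 with hU
  have hUo : IsOpen U := isOpen_ball.prod isOpen_ball
  have hUconv : Convex ℝ U := (convex_ball _ _).prod (convex_ball _ _)
  have h00 : ((0:ℂ), (0:ℂ)) ∈ U := ⟨mem_ball_self one_pos, mem_ball_self one_pos⟩
  have hUs : IsSimplyConnected U := by
    have hc : ContractibleSpace U := hUconv.contractibleSpace ⟨_, h00⟩
    show SimplyConnectedSpace U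
    infer_instance
  have hqc : ContinuousOn (fun p : ℂ × ℂ => qq β p.1 p.2) U := by
    unfold qq
    apply ContinuousOn.sub continuousOn_const
    apply ContinuousOn.mul (by fun_prop)
    exact dslope_cont h.diff
  have hq0 : 0 ∉ (fun p : ℂ × ℂ => qq β p.1 p.2) '' U := by
    rintro ⟨p, ⟨hp1, hp2⟩, hp⟩
    exact qq_ne h hp1 hp2 hp
  obtain ⟨Φ, hΦc, hΦ⟩ := Complex.exists_continuousOn_eqOn_exp_comp hUs hUo hqc hq0
  have hΦe : ∀ b ∈ ball (0:ℂ) 1, ∀ ζ ∈ ball (0:ℂ) 1, Complex.exp (Φ (b, ζ)) = qq β b ζ :=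
    fun b hb ζ hζ => hΦ (show (b, ζ) ∈ U from ⟨hb, hζ⟩)
  have h0b : (0:ℂ) ∈ ball (0:ℂ) 1 := mem_ball_self one_pos
  -- the diagonal
  have hTc : ContinuousOn (fun b : ℂ => Φ (b, b) - Φ (b, 0)) (ball 0 1) := by
    apply ContinuousOn.sub
    · exact hΦc.comp (by fun_prop) (fun b hb => ⟨hb, hb⟩)
    · exact hΦc.comp (by fun_prop) (fun b hb => ⟨hb, h0b⟩)
  have hTe : ∀ b ∈ ball (0:ℂ) 1, Complex.exp (Φ (b, b) - Φ (b, 0)) = 1 - b ^ 2 * deriv β b := by
    intro b hb
    rw [Complex.exp_sub, hΦe b hb b hb, hΦe b hb 0 h0b]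
    simp only [qq, mul_zero, zero_mul, sub_zero, div_one, dslope_same]
    ring
  have hTHc : ContinuousOn (fun b : ℂ => (Φ (b, b) - Φ (b, 0)) - H b) (ball 0 1) := hTc.sub hH
  have hTH : ∀ b ∈ ball (0:ℂ) 1, (Φ (b, b) - Φ (b, 0)) - H b = 0 := by
    apply eq_zero_of_exp_one (convex_ball (0:ℂ) 1).isPreconnected hTHc _ h0b
    · simp [hH0]
    · intro b hb
      rw [Complex.exp_sub, hTe b hb, hexp b hb, div_self]
      exact h.ne b hb
  -- the logarithm for fixed `a`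
  have hqd := qq_diff h.diff ha
  have hQd : DifferentiableOn ℂ (fun ζ => deriv (qq β a) ζ / qq β a ζ) (ball 0 1) :=
    (hqd.deriv isOpen_ball).div hqd (fun ζ hζ => qq_ne h ha hζ)
  obtain ⟨F, hF0, hF⟩ := hQd.isExactOn_ball.with_val_at 0 0
  have hFe : ∀ ζ ∈ ball (0:ℂ) 1, Complex.exp (F ζ) = qq β a ζ := by
    -- `exp F / q` has zero derivative
    have hderiv : ∀ ζ ∈ ball (0:ℂ) 1, HasDerivAt (fun ζ => Complex.exp (-F ζ) * qq β a ζ) 0 ζ := by
      intro ζ hζ
      have h1 := ((hF ζ hζ).neg.cexp).mul ((hqd.differentiableAt (isOpen_ball.mem_nhds hζ)).hasDerivAt)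
      have h2 := qq_ne h ha hζ
      have e : (0:ℂ) = Complex.exp (-F ζ) * -(deriv (qq β a) ζ / qq β a ζ) * qq β a ζ +
          Complex.exp (-F ζ) * deriv (qq β a) ζ := by
        field_simp
        ring
      rw [e]
      exact h1
    intro ζ hζ
    have h1 : Complex.exp (-F ζ) * qq β a ζ = Complex.exp (-F 0) * qq β a 0 := by
      apply (convex_ball (0:ℂ) 1).is_const_of_fderivWithin_eq_zero (𝕜 := ℂ)
        (f := fun ζ => Complex.exp (-F ζ) * qq β a ζ) _ _ hζ h0b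
      · intro ω hω
        exact (hderiv ω hω).differentiableAt.differentiableWithinAt
      · intro ω hω
        have h3 := (hderiv ω hω).hasFDerivAt.hasFDerivWithinAt (s := ball (0:ℂ) 1)
        rw [h3.fderivWithin (isOpen_ball.uniqueDiffWithinAt hω)]
        ext
        simp
    rw [hF0, neg_zero, Complex.exp_zero, one_mul] at h1
    have h2 : qq β a 0 = 1 := by simp [qq]
    rw [h2, Complex.exp_neg] at h1
    have h3 := Complex.exp_ne_zero (F ζ)
    field_simp at h1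
    exact h1.symm
  have hFc : ContinuousOn F (ball 0 1) := fun ζ hζ => (hF ζ hζ).continuousAt.continuousWithinAt
  have hFΦ : ∀ ζ ∈ ball (0:ℂ) 1, (Φ (a, ζ) - Φ (a, 0)) - F ζ = 0 := by
    apply eq_zero_of_exp_one (convex_ball (0:ℂ) 1).isPreconnected _ _ h0b
    · simp [hF0]
    · apply ContinuousOn.sub _ hFc
      apply ContinuousOn.sub _ continuousOn_const
      exact hΦc.comp (by fun_prop) (fun ζ hζ => ⟨ha, hζ⟩)
    · intro ζ hζ
      rw [Complex.exp_sub, Complex.exp_sub, hΦe a ha ζ hζ, hΦe a ha 0 h0b, hFe ζ hζ]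
      have h2 : qq β a 0 = 1 := by simp [qq]
      rw [h2, div_one, div_self (qq_ne h ha hζ)]
  have h1 := hTH a ha
  have h2 := hFΦ a ha
  have h3 : H a = F a := by linear_combination h2 - h1
  rw [h3]
  exact log_bound h ha hF hF0 hFe

end Pool.Agent.M16.Helper39.Area

end

section

set_option autoImplicit false

open MeasureTheory Set Metric Filter Topology

open scoped ENNReal NNReal Real Nat ComplexConjugate

namespace Pool.Agent.M16.Helper22.Marshall

open Pool.Agent.M16.Helper39.Area (Ext phi dphi area_ineq hasDerivAt_phi)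

/-- the (generalised) area inequality with constant `k`, in the coordinate `ζ = 1/z` -/
def GLe (β : ℂ → ℂ) (k : ℝ) : Prop :=
  ∀ (i : ℕ) (P : Polynomial ℂ) (v : ℕ → ℂ), P.natDegree ≤ i →
    (∀ ζ : ℂ, ζ ≠ 0 → ‖ζ‖ < 1 → HasSum (fun m => v m * ζ ^ m) (ζ ^ i * P.eval (phi β ζ))) →
    ∀ M : ℕ, ∑ m ∈ Finset.range M, ((m - i : ℕ) : ℝ) * ‖v m‖ ^ 2
      ≤ k ^ 2 * ∑ m ∈ Finset.range i, ((i - m : ℕ) : ℝ) * ‖v m‖ ^ 2

/-- power series with given values on the punctured disc -/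
theorem exists_g {v : ℕ → ℂ} {f : ℂ → ℂ}
    (h : ∀ ζ : ℂ, ζ ≠ 0 → ‖ζ‖ < 1 → HasSum (fun m => v m * ζ ^ m) (f ζ)) :
    ∃ g : ℂ → ℂ, DifferentiableOn ℂ g (ball 0 1) ∧ (∀ m, coeff g m = v m) ∧
      ∀ ζ : ℂ, ζ ≠ 0 → ‖ζ‖ < 1 → g ζ = f ζ := by
  have hs : ∀ ζ : ℂ, ‖ζ‖ < 1 → Summable (fun m => v m * ζ ^ m) := by
    intro ζ hζ
    by_cases h0 : ζ = 0
    · subst h0
      apply summable_of_ne_finset_zero (s := {0})
      intro m hm
      rw [Finset.mem_singleton] at hm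
      rw [zero_pow hm, mul_zero]
    · exact (h ζ h0 hζ).summable
  refine ⟨fun ζ => ∑' m, v m * ζ ^ m, ?_, ?_, ?_⟩
  · intro w hw
    rw [mem_ball_zero_iff] at hw
    obtain ⟨r, hr1, hr2⟩ := exists_between hw
    have hr : 0 < r := (norm_nonneg w).trans_lt hr1
    have hsum : Summable fun m => ‖v m‖ * r ^ m := by
      have := (hs (r : ℂ) (by rw [Complex.norm_real, Real.norm_of_nonneg hr.le]; exact hr2)).norm
      simpa [norm_mul, norm_pow, Complex.norm_real, abs_of_pos hr] using this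
    have hd := Complex.differentiableOn_tsum_of_summable_norm (F := fun m z => v m * z ^ m) hsum
      (U := ball (0 : ℂ) r) (fun l => by fun_prop) isOpen_ball
      (fun l z hz => by
        rw [mem_ball_zero_iff] at hz
        rw [norm_mul, norm_pow]
        gcongr)
    exact (hd.differentiableAt (isOpen_ball.mem_nhds (mem_ball_zero_iff.mpr hr1))).differentiableWithinAt
  · intro m
    exact coeff_eq_of_hasSum one_pos (fun z hz => (hs z hz).hasSum) m
  · intro ζ h0 hζ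
    exact (h ζ h0 hζ).tsum_eq

theorem real_part_id (g q : ℂ) : (conj g * q).re = (‖g + q‖ ^ 2 - ‖g - q‖ ^ 2) / 4 := by
  rw [← Complex.normSq_eq_norm_sq, ← Complex.normSq_eq_norm_sq]
  simp only [Complex.normSq_apply, Complex.mul_re, Complex.conj_re, Complex.conj_im,
    Complex.add_re, Complex.add_im, Complex.sub_re, Complex.sub_im]
  ring

/-- Parseval for `conj g (ζ g' - i g)` -/
theorem parseval_J {g : ℂ → ℂ} (hg : DifferentiableOn ℂ g (ball 0 1)) (i : ℕ) {r : ℝ}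
    (hr : 0 ≤ r) (hr1 : r < 1) :
    HasSum (fun n : ℕ => ((n : ℝ) - i) * ‖coeff g n‖ ^ 2 * r ^ (2 * n))
      ((1 / (2 * π)) * ∫ θ in (-π)..π,
        (conj (g ((r : ℂ) * Complex.exp ((θ : ℂ) * Complex.I))) *
          (((r : ℂ) * Complex.exp ((θ : ℂ) * Complex.I)) *
            deriv g ((r : ℂ) * Complex.exp ((θ : ℂ) * Complex.I))
            - i * g ((r : ℂ) * Complex.exp ((θ : ℂ) * Complex.I)))).re) := by
  have h1 := parseval_comb hg 1 (1 - i) hr hr1
  have h2 := parseval_comb hg (-1) (1 + i) hr hr1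
  have h3 := (h1.sub h2).mul_left (1 / 4)
  have e1 : (fun n : ℕ => 1 / 4 * (‖(1 * (n : ℂ) + (1 - i)) * coeff g n‖ ^ 2 * r ^ (2 * n)
      - ‖((-1) * (n : ℂ) + (1 + i)) * coeff g n‖ ^ 2 * r ^ (2 * n)))
      = fun n : ℕ => ((n : ℝ) - i) * ‖coeff g n‖ ^ 2 * r ^ (2 * n) := by
    funext n
    have e3 : (1 * (n : ℂ) + (1 - i)) = (((n : ℝ) + (1 - i) : ℝ) : ℂ) := by push_cast; ring
    have e4 : ((-1) * (n : ℂ) + (1 + i)) = (((-1) * (n : ℝ) + (1 + i) : ℝ) : ℂ) := by push_cast; ring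
    rw [e3, e4, norm_mul, norm_mul, Complex.norm_real, Complex.norm_real, mul_pow, mul_pow,
      Real.norm_eq_abs, Real.norm_eq_abs, sq_abs, sq_abs]
    ring
  have hc : ∀ α β : ℂ, Continuous (fun θ : ℝ => ‖α * (((r : ℂ) * Complex.exp ((θ : ℂ) * Complex.I)) *
          deriv g ((r : ℂ) * Complex.exp ((θ : ℂ) * Complex.I)))
          + β * g ((r : ℂ) * Complex.exp ((θ : ℂ) * Complex.I))‖ ^ 2) := by
    intro α β
    have hcirc : Continuous (fun θ : ℝ => (r : ℂ) * Complex.exp ((θ : ℂ) * Complex.I)) := by fun_prop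
    have hmem : ∀ θ : ℝ, (r : ℂ) * Complex.exp ((θ : ℂ) * Complex.I) ∈ ball (0 : ℂ) 1 := by
      intro θ
      rw [mem_ball_zero_iff, norm_mul, Complex.norm_exp_ofReal_mul_I, mul_one, Complex.norm_real,
        Real.norm_of_nonneg hr]
      exact hr1
    have c1 : Continuous (fun θ : ℝ => g ((r : ℂ) * Complex.exp ((θ : ℂ) * Complex.I))) :=
      hg.continuousOn.comp_continuous hcirc hmem
    have c2 : Continuous (fun θ : ℝ => deriv g ((r : ℂ) * Complex.exp ((θ : ℂ) * Complex.I))) :=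
      (hg.deriv isOpen_ball).continuousOn.comp_continuous hcirc hmem
    exact ((continuous_const.mul (hcirc.mul c2)).add (continuous_const.mul c1)).norm.pow 2
  have e2 : 1 / 4 * (1 / (2 * π) * (∫ θ in (-π)..π,
        ‖1 * (((r : ℂ) * Complex.exp ((θ : ℂ) * Complex.I)) *
          deriv g ((r : ℂ) * Complex.exp ((θ : ℂ) * Complex.I)))
          + (1 - i) * g ((r : ℂ) * Complex.exp ((θ : ℂ) * Complex.I))‖ ^ 2)
      - 1 / (2 * π) * ∫ θ in (-π)..π,
        ‖(-1) * (((r : ℂ) * Complex.exp ((θ : ℂ) * Complex.I)) *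
          deriv g ((r : ℂ) * Complex.exp ((θ : ℂ) * Complex.I)))
          + (1 + i) * g ((r : ℂ) * Complex.exp ((θ : ℂ) * Complex.I))‖ ^ 2)
      = (1 / (2 * π)) * ∫ θ in (-π)..π,
        (conj (g ((r : ℂ) * Complex.exp ((θ : ℂ) * Complex.I))) *
          (((r : ℂ) * Complex.exp ((θ : ℂ) * Complex.I)) *
            deriv g ((r : ℂ) * Complex.exp ((θ : ℂ) * Complex.I))
            - i * g ((r : ℂ) * Complex.exp ((θ : ℂ) * Complex.I)))).re := by
    rw [← mul_sub, ← intervalIntegral.integral_sub ((hc 1 (1 - i)).intervalIntegrable _ _)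
      ((hc (-1) (1 + i)).intervalIntegrable _ _), mul_left_comm,
      ← intervalIntegral.integral_const_mul]
    congr 2
    funext θ
    rw [real_part_id]
    generalize g ((r : ℂ) * Complex.exp ((θ : ℂ) * Complex.I)) = G
    generalize ((r : ℂ) * Complex.exp ((θ : ℂ) * Complex.I)) *
          deriv g ((r : ℂ) * Complex.exp ((θ : ℂ) * Complex.I)) = Q
    have e5 : 1 * Q + (1 - (i : ℂ)) * G = G + (Q - i * G) := by ring
    have e6 : (-1) * Q + (1 + (i : ℂ)) * G = G - (Q - i * G) := by ring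
    rw [e5, e6]
    ring
  rw [e1, e2] at h3
  exact h3

/-- the area inequality holds with constant one -/
theorem gLe_one {β : ℂ → ℂ} (h : Ext β) : GLe β 1 := by
  intro i P v hP hv M
  obtain ⟨g, hg, hgv, hgf⟩ := exists_g hv
  -- the inequality for each radius
  have key : ∀ r : ℝ, 0 < r → r < 1 → ∑' n : ℕ, ((n : ℝ) - i) * ‖v n‖ ^ 2 * r ^ (2 * n) ≤ 0 ∧
      Summable (fun n : ℕ => ((n : ℝ) - i) * ‖v n‖ ^ 2 * r ^ (2 * n)) := by
    intro r hr hr1
    have h1 := parseval_J hg i hr.le hr1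
    simp_rw [hgv] at h1
    refine ⟨?_, h1.summable⟩
    rw [h1.tsum_eq]
    obtain ⟨c, hc, hc2⟩ := area_ineq h hr hr1 P
    have h2 : (∮ ζ in C(0, r), conj (P.eval (phi β ζ)) *
        ((Polynomial.derivative P).eval (phi β ζ) * dphi β ζ))
        = (Complex.I * ((r : ℂ) ^ (2 * i))⁻¹) * ∫ θ in (0:ℝ)..(2 * π),
          (conj (g ((r : ℂ) * Complex.exp ((θ : ℂ) * Complex.I))) *
          (((r : ℂ) * Complex.exp ((θ : ℂ) * Complex.I)) *
            deriv g ((r : ℂ) * Complex.exp ((θ : ℂ) * Complex.I))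
            - i * g ((r : ℂ) * Complex.exp ((θ : ℂ) * Complex.I)))) := by
      rw [circleIntegral, ← intervalIntegral.integral_const_mul]
      congr 1
      funext θ
      have e0 : circleMap 0 r θ = (r : ℂ) * Complex.exp ((θ : ℂ) * Complex.I) := by
        rw [circleMap, zero_add]
      rw [deriv_circleMap, e0]
      set ζ : ℂ := (r : ℂ) * Complex.exp ((θ : ℂ) * Complex.I) with hζ
      have hζn : ‖ζ‖ = r := by
        rw [hζ, norm_mul, Complex.norm_exp_ofReal_mul_I, mul_one, Complex.norm_real,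
          Real.norm_of_nonneg hr.le]
      have hζ0 : ζ ≠ 0 := by
        rw [← norm_pos_iff, hζn]; exact hr
      have hζb : ζ ∈ ball (0 : ℂ) 1 := by rw [mem_ball_zero_iff, hζn]; exact hr1
      have hgd : HasDerivAt g (deriv g ζ) ζ :=
        (hg.differentiableAt (isOpen_ball.mem_nhds hζb)).hasDerivAt
      have hPd : HasDerivAt (fun ζ => ζ ^ i * P.eval (phi β ζ))
          (i * ζ ^ (i - 1) * P.eval (phi β ζ) + ζ ^ i * ((Polynomial.derivative P).eval (phi β ζ)
            * dphi β ζ)) ζ := by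
        have d1 := hasDerivAt_pow i ζ
        have d2 := (Polynomial.hasDerivAt P (phi β ζ)).comp ζ (hasDerivAt_phi h.diff hζb hζ0)
        exact d1.mul d2
      have hgP : g =ᶠ[𝓝 ζ] fun ζ => ζ ^ i * P.eval (phi β ζ) := by
        have hmem : ball (0 : ℂ) 1 \ {0} ∈ 𝓝 ζ := by
          apply IsOpen.mem_nhds (isOpen_ball.sdiff isClosed_singleton)
          exact ⟨hζb, hζ0⟩
        filter_upwards [hmem] with w hw
        exact hgf w hw.2 (mem_ball_zero_iff.mp hw.1)
      have e1 : deriv g ζ = i * ζ ^ (i - 1) * P.eval (phi β ζ)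
          + ζ ^ i * ((Polynomial.derivative P).eval (phi β ζ) * dphi β ζ) := by
        rw [hgP.deriv_eq, hPd.deriv]
      have e2 : g ζ = ζ ^ i * P.eval (phi β ζ) := hgf ζ hζ0 (by rw [hζn]; exact hr1)
      have e3 : ζ * deriv g ζ - i * g ζ
          = ζ ^ i * (ζ * ((Polynomial.derivative P).eval (phi β ζ) * dphi β ζ)) := by
        rw [e1, e2]
        cases i with
        | zero => simp
        | succ i =>
          simp only [Nat.add_sub_cancel]
          ring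
      rw [e3, e2]
      have e4 : conj ζ * ζ = (r : ℂ) ^ 2 := by
        rw [← hζn, Complex.conj_mul']
      have e5 : conj (ζ ^ i) * ζ ^ i = (r : ℂ) ^ (2 * i) := by
        rw [map_pow, ← mul_pow, e4, ← pow_mul]
      have hr0 : (r : ℂ) ^ (2 * i) ≠ 0 := pow_ne_zero _ (by exact_mod_cast hr.ne')
      rw [map_mul, smul_eq_mul]
      calc ζ * Complex.I * (conj (Polynomial.eval (phi β ζ) P) *
          (Polynomial.eval (phi β ζ) (Polynomial.derivative P) * dphi β ζ))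
          = (Complex.I * ((r : ℂ) ^ (2 * i))⁻¹) * ((r : ℂ) ^ (2 * i) *
            (conj (Polynomial.eval (phi β ζ) P) *
            (ζ * (Polynomial.eval (phi β ζ) (Polynomial.derivative P) * dphi β ζ)))) := by
            field_simp
        _ = _ := by rw [← e5]; ring
    rw [h2] at hc2
    have hr0 : (r : ℂ) ^ (2 * i) ≠ 0 := pow_ne_zero _ (by exact_mod_cast hr.ne')
    have h3 : (∫ θ in (0:ℝ)..(2 * π),
          (conj (g ((r : ℂ) * Complex.exp ((θ : ℂ) * Complex.I))) *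
          (((r : ℂ) * Complex.exp ((θ : ℂ) * Complex.I)) *
            deriv g ((r : ℂ) * Complex.exp ((θ : ℂ) * Complex.I))
            - i * g ((r : ℂ) * Complex.exp ((θ : ℂ) * Complex.I))))) = ((-2 * c * r ^ (2 * i) : ℝ) : ℂ) := by
      have h4 : Complex.I * ((r : ℂ) ^ (2 * i))⁻¹ ≠ 0 := mul_ne_zero Complex.I_ne_zero (inv_ne_zero hr0)
      apply mul_left_cancel₀ h4
      rw [hc2]
      push_cast
      field_simp
    -- shift of the interval
    set Fn : ℝ → ℂ := fun θ => (conj (g ((r : ℂ) * Complex.exp ((θ : ℂ) * Complex.I))) *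
          (((r : ℂ) * Complex.exp ((θ : ℂ) * Complex.I)) *
            deriv g ((r : ℂ) * Complex.exp ((θ : ℂ) * Complex.I))
            - i * g ((r : ℂ) * Complex.exp ((θ : ℂ) * Complex.I)))) with hFn
    have hper : Function.Periodic Fn (2 * π) := by
      intro θ
      have e : Complex.exp (((θ + 2 * π : ℝ) : ℂ) * Complex.I) = Complex.exp ((θ : ℂ) * Complex.I) := by
        push_cast
        rw [add_mul, Complex.exp_add, Complex.exp_two_pi_mul_I, mul_one]
      simp only [hFn, e]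
    have h5 := hper.intervalIntegral_add_eq (-π) 0
    rw [show -π + 2 * π = π by ring, zero_add] at h5
    have hFc : Continuous Fn := by
      have hcirc : Continuous (fun θ : ℝ => (r : ℂ) * Complex.exp ((θ : ℂ) * Complex.I)) := by fun_prop
      have hmem : ∀ θ : ℝ, (r : ℂ) * Complex.exp ((θ : ℂ) * Complex.I) ∈ ball (0 : ℂ) 1 := by
        intro θ
        rw [mem_ball_zero_iff, norm_mul, Complex.norm_exp_ofReal_mul_I, mul_one, Complex.norm_real,
          Real.norm_of_nonneg hr.le]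
        exact hr1
      have c1 : Continuous (fun θ : ℝ => g ((r : ℂ) * Complex.exp ((θ : ℂ) * Complex.I))) :=
        hg.continuousOn.comp_continuous hcirc hmem
      have c2 : Continuous (fun θ : ℝ => deriv g ((r : ℂ) * Complex.exp ((θ : ℂ) * Complex.I))) :=
        (hg.deriv isOpen_ball).continuousOn.comp_continuous hcirc hmem
      exact (Complex.continuous_conj.comp c1).mul ((hcirc.mul c2).sub (continuous_const.mul c1))
    have h6 : ∫ θ in (-π)..π, (Fn θ).re = (∫ θ in (-π)..π, Fn θ).re := by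
      have := Complex.reCLM.intervalIntegral_comp_comm (hFc.intervalIntegrable (μ := volume) (-π) π)
      exact this
    rw [h6, h5, h3, Complex.ofReal_re]
    have hpi := Real.pi_pos
    have : 0 ≤ r ^ (2 * i) := by positivity
    have h7 : 0 ≤ 1 / (2 * π) * (2 * c * r ^ (2 * i)) := by positivity
    linarith only [h7]
  -- partial sums
  have key2 : ∀ r : ℝ, 0 < r → r < 1 → (∑ m ∈ Finset.range M, ((m - i : ℕ) : ℝ) * ‖v m‖ ^ 2 * r ^ (2 * m))
      ≤ ∑ m ∈ Finset.range i, ((i - m : ℕ) : ℝ) * ‖v m‖ ^ 2 := by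
    intro r hr hr1
    obtain ⟨h1, h2⟩ := key r hr hr1
    have h3 : (∑ n ∈ Finset.range i, ((n : ℝ) - i) * ‖v n‖ ^ 2 * r ^ (2 * n))
        + ∑' n : ℕ, (((n + i : ℕ) : ℝ) - i) * ‖v (n + i)‖ ^ 2 * r ^ (2 * (n + i)) ≤ 0 := by
      rw [h2.sum_add_tsum_nat_add i]
      exact h1
    have h4 : (∑ m ∈ Finset.range M, ((m - i : ℕ) : ℝ) * ‖v m‖ ^ 2 * r ^ (2 * m))
        ≤ ∑ m ∈ Finset.range (i + M), ((m - i : ℕ) : ℝ) * ‖v m‖ ^ 2 * r ^ (2 * m) := by
      apply Finset.sum_le_sum_of_subset_of_nonneg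
      · intro m hm
        rw [Finset.mem_range] at hm ⊢
        omega
      · intro m _ _
        positivity
    have h5 : ∑ m ∈ Finset.range (i + M), ((m - i : ℕ) : ℝ) * ‖v m‖ ^ 2 * r ^ (2 * m)
        = ∑ m ∈ Finset.range M, (((m + i : ℕ) : ℝ) - i) * ‖v (m + i)‖ ^ 2 * r ^ (2 * (m + i)) := by
      rw [Finset.sum_range_add]
      have : ∑ x ∈ Finset.range i, ((x - i : ℕ) : ℝ) * ‖v x‖ ^ 2 * r ^ (2 * x) = 0 := by
        apply Finset.sum_eq_zero
        intro x hx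
        rw [Finset.mem_range] at hx
        have : x - i = 0 := by omega
        rw [this]
        simp
      rw [this, zero_add]
      apply Finset.sum_congr rfl
      intro x _
      have e : i + x - i = x := by omega
      rw [e, add_comm i x]
      push_cast
      ring
    have h6 : ∑ m ∈ Finset.range M, (((m + i : ℕ) : ℝ) - i) * ‖v (m + i)‖ ^ 2 * r ^ (2 * (m + i))
        ≤ ∑' n : ℕ, (((n + i : ℕ) : ℝ) - i) * ‖v (n + i)‖ ^ 2 * r ^ (2 * (n + i)) := by
      apply Summable.sum_le_tsum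
      · intro n _
        push_cast
        have : (n : ℝ) + i - i = n := by ring
        rw [this]
        positivity
      · exact (summable_nat_add_iff (f := fun n : ℕ => ((n : ℝ) - i) * ‖v n‖ ^ 2 * r ^ (2 * n))
          i).mpr h2
    have h7 : ∑ m ∈ Finset.range i, ((i - m : ℕ) : ℝ) * ‖v m‖ ^ 2 * r ^ (2 * m)
        ≤ ∑ m ∈ Finset.range i, ((i - m : ℕ) : ℝ) * ‖v m‖ ^ 2 := by
      apply Finset.sum_le_sum
      intro m _
      have : r ^ (2 * m) ≤ 1 := pow_le_one₀ hr.le hr1.le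
      have h0 : 0 ≤ ((i - m : ℕ) : ℝ) * ‖v m‖ ^ 2 := by positivity
      nlinarith only [this, h0]
    have h8 : ∑ m ∈ Finset.range i, ((i - m : ℕ) : ℝ) * ‖v m‖ ^ 2 * r ^ (2 * m)
        = - ∑ n ∈ Finset.range i, ((n : ℝ) - i) * ‖v n‖ ^ 2 * r ^ (2 * n) := by
      rw [← Finset.sum_neg_distrib]
      apply Finset.sum_congr rfl
      intro m hm
      rw [Finset.mem_range] at hm
      rw [Nat.cast_sub hm.le]
      ring
    linarith
  rw [one_pow, one_mul]
  -- limit r → 1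
  have hcont : Continuous (fun r : ℝ => ∑ m ∈ Finset.range M, ((m - i : ℕ) : ℝ) * ‖v m‖ ^ 2 * r ^ (2 * m)) := by
    fun_prop
  have hlim : Tendsto (fun r : ℝ => ∑ m ∈ Finset.range M, ((m - i : ℕ) : ℝ) * ‖v m‖ ^ 2 * r ^ (2 * m))
      (𝓝[<] 1) (𝓝 (∑ m ∈ Finset.range M, ((m - i : ℕ) : ℝ) * ‖v m‖ ^ 2 * 1 ^ (2 * m))) :=
    (hcont.tendsto 1).mono_left nhdsWithin_le_nhds
  simp only [one_pow, mul_one] at hlim
  apply le_of_tendsto hlim
  have hmem : Ioo (0 : ℝ) 1 ∈ 𝓝[<] (1 : ℝ) := Ioo_mem_nhdsLT one_pos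
  filter_upwards [hmem] with r hr
  exact key2 r hr.1 hr.2

end Pool.Agent.M16.Helper22.Marshall

end

section

set_option autoImplicit false

open MeasureTheory Set Metric Filter Topology

open scoped ENNReal NNReal Real Nat

namespace Pool.Agent.M16.Helper22.Marshall

open Pool.Agent.M16.Helper39.Area (Ext phi dphi qq_ne qq_diff dslope_cont eq_zero_of_exp_one)

theorem differentiableOn_of_exp {f : ℂ → ℂ} {s : Set ℂ} (hs : IsOpen s) (hf : ContinuousOn f s)
    (he : DifferentiableOn ℂ (fun z => Complex.exp (f z)) s) : DifferentiableOn ℂ f s := by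
  intro z hz
  apply DifferentiableAt.differentiableWithinAt
  have hfz : ContinuousAt f z := hf.continuousAt (hs.mem_nhds hz)
  have hez : DifferentiableAt ℂ (fun z => Complex.exp (f z)) z := he.differentiableAt (hs.mem_nhds hz)
  have h1 : DifferentiableAt ℂ (fun w => f z + Complex.log (Complex.exp (f w) * Complex.exp (-f z))) z := by
    apply DifferentiableAt.const_add
    apply DifferentiableAt.clog
    · exact hez.mul_const _
    · rw [← Complex.exp_add, add_neg_cancel, Complex.exp_zero]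
      exact Complex.one_mem_slitPlane
  apply h1.congr_of_eventuallyEq
  have h2 : ∀ᶠ w in 𝓝 z, ‖f w - f z‖ < 1 := by
    have h3 : ContinuousAt (fun w => ‖f w - f z‖) z := (hfz.sub continuousAt_const).norm
    have h4 : ‖f z - f z‖ < 1 := by simp
    exact h3.eventually_lt continuousAt_const h4
  filter_upwards [h2] with w hw
  rw [← Complex.exp_add, Complex.log_exp]
  · ring
  · have h5 := Complex.abs_im_le_norm (f w - f z)
    have h6 := (abs_lt.mp (h5.trans_lt hw)).1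
    have hpi := Real.pi_gt_three
    rw [← sub_eq_add_neg]
    linarith
  · have h5 := Complex.abs_im_le_norm (f w - f z)
    have h6 := (abs_lt.mp (h5.trans_lt hw)).2
    have hpi := Real.pi_gt_three
    rw [← sub_eq_add_neg]
    linarith

theorem qq_symm (β : ℂ → ℂ) (a b : ℂ) :
    Pool.Agent.M16.Helper39.Area.qq β a b = Pool.Agent.M16.Helper39.Area.qq β b a := by
  unfold Pool.Agent.M16.Helper39.Area.qq
  by_cases h : a = b
  · subst h; rfl
  · have e : dslope β a b = dslope β b a := by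
      rw [dslope_of_ne _ (Ne.symm h), dslope_of_ne _ h, slope_comm]
    rw [e]; ring

/-- the data of the logarithm of the two point function -/
structure LogPhi (β H : ℂ → ℂ) (Φ : ℂ → ℂ → ℂ) : Prop where
  sep : SepHol Φ
  exp_eq : ∀ a ∈ ball (0 : ℂ) 1, ∀ b ∈ ball (0 : ℂ) 1,
    Complex.exp (Φ a b) = Pool.Agent.M16.Helper39.Area.qq β a b
  zero_right : ∀ a ∈ ball (0 : ℂ) 1, Φ a 0 = 0
  symm : ∀ a ∈ ball (0 : ℂ) 1, ∀ b ∈ ball (0 : ℂ) 1, Φ a b = Φ b a
  diag : ∀ a ∈ ball (0 : ℂ) 1, Φ a a = H a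

theorem exists_logPhi {β : ℂ → ℂ} (h : Ext β) {H : ℂ → ℂ} (hH : ContinuousOn H (ball 0 1))
    (hH0 : H 0 = 0)
    (hexp : ∀ ζ ∈ ball (0 : ℂ) 1, Complex.exp (H ζ) = 1 - ζ ^ 2 * deriv β ζ) :
    ∃ Φ : ℂ → ℂ → ℂ, LogPhi β H Φ := by
  set U : Set (ℂ × ℂ) := ball 0 1 ×ˢ ball 0 1 with hU
  have hUo : IsOpen U := isOpen_ball.prod isOpen_ball
  have hUconv : Convex ℝ U := (convex_ball _ _).prod (convex_ball _ _)
  have h00 : ((0:ℂ), (0:ℂ)) ∈ U := ⟨mem_ball_self one_pos, mem_ball_self one_pos⟩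
  have h0b : (0:ℂ) ∈ ball (0:ℂ) 1 := mem_ball_self one_pos
  have hUs : IsSimplyConnected U := by
    have hc : ContractibleSpace U := hUconv.contractibleSpace ⟨_, h00⟩
    show SimplyConnectedSpace U
    infer_instance
  have hqc : ContinuousOn (fun p : ℂ × ℂ => Pool.Agent.M16.Helper39.Area.qq β p.1 p.2) U := by
    unfold Pool.Agent.M16.Helper39.Area.qq
    apply ContinuousOn.sub continuousOn_const
    apply ContinuousOn.mul (by fun_prop)
    exact dslope_cont h.diff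
  have hq0 : 0 ∉ (fun p : ℂ × ℂ => Pool.Agent.M16.Helper39.Area.qq β p.1 p.2) '' U := by
    rintro ⟨p, ⟨hp1, hp2⟩, hp⟩
    exact qq_ne h hp1 hp2 hp
  obtain ⟨Φ, hΦc, hΦ⟩ := Complex.exists_continuousOn_eqOn_exp_comp hUs hUo hqc hq0
  have hΦe : ∀ b ∈ ball (0:ℂ) 1, ∀ ζ ∈ ball (0:ℂ) 1,
      Complex.exp (Φ (b, ζ)) = Pool.Agent.M16.Helper39.Area.qq β b ζ :=
    fun b hb ζ hζ => hΦ (show (b, ζ) ∈ U from ⟨hb, hζ⟩)
  have hq00 : ∀ a : ℂ, Pool.Agent.M16.Helper39.Area.qq β a 0 = 1 := by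
    intro a; simp [Pool.Agent.M16.Helper39.Area.qq]
  have hΨe : ∀ a ∈ ball (0:ℂ) 1, ∀ b ∈ ball (0:ℂ) 1,
      Complex.exp (Φ (a, b) - Φ (0, 0)) = Pool.Agent.M16.Helper39.Area.qq β a b := by
    intro a ha b hb
    rw [Complex.exp_sub, hΦe a ha b hb, hΦe 0 h0b 0 h0b, hq00, div_one]
  have hΨc : ContinuousOn (fun p : ℂ × ℂ => Φ (p.1, p.2) - Φ (0, 0)) U := by
    have : ContinuousOn (fun p : ℂ × ℂ => Φ (p.1, p.2)) U := hΦc
    exact this.sub continuousOn_const
  have hright : ∀ a ∈ ball (0:ℂ) 1,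
      DifferentiableOn ℂ (fun b => Φ (a, b) - Φ (0, 0)) (ball 0 1) := by
    intro a ha
    apply differentiableOn_of_exp isOpen_ball
    · exact hΨc.comp (f := fun b => (a, b)) (by fun_prop) (fun b hb => ⟨ha, hb⟩)
    · apply (qq_diff h.diff ha).congr
      intro b hb
      exact hΨe a ha b hb
  have hleft : ∀ b ∈ ball (0:ℂ) 1,
      DifferentiableOn ℂ (fun a => Φ (a, b) - Φ (0, 0)) (ball 0 1) := by
    intro b hb
    apply differentiableOn_of_exp isOpen_ball
    · exact hΨc.comp (f := fun a => (a, b)) (by fun_prop) (fun a ha => ⟨ha, hb⟩)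
    · apply (qq_diff h.diff hb).congr
      intro a ha
      rw [hΨe a ha b hb, qq_symm]
  refine ⟨fun a b => Φ (a, b) - Φ (0, 0), ⟨hΨc, hleft, hright⟩, hΨe, ?_, ?_, ?_⟩
  · apply eq_zero_of_exp_one (convex_ball (0:ℂ) 1).isPreconnected _ _ h0b (by simp)
    · exact hΨc.comp (f := fun a => (a, 0)) (by fun_prop) (fun a ha => ⟨ha, h0b⟩)
    · intro a ha
      rw [hΨe a ha 0 h0b, hq00]
  · have h1 : ∀ p ∈ U, (Φ (p.1, p.2) - Φ (0, 0)) - (Φ (p.2, p.1) - Φ (0, 0)) = 0 := by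
      apply eq_zero_of_exp_one hUconv.isPreconnected _ _ h00 (by simp)
      · apply hΨc.sub
        exact hΨc.comp (f := fun p : ℂ × ℂ => (p.2, p.1)) (by fun_prop) (fun p hp => ⟨hp.2, hp.1⟩)
      · rintro ⟨a, b⟩ ⟨ha, hb⟩
        simp only at ha hb ⊢
        rw [Complex.exp_sub, hΨe a ha b hb, hΨe b hb a ha, qq_symm β a b, div_self]
        exact qq_ne h hb ha
    intro a ha b hb
    have := h1 (a, b) ⟨ha, hb⟩
    simp only at this
    exact sub_eq_zero.mp this
  · have h1 : ∀ a ∈ ball (0:ℂ) 1, (Φ (a, a) - Φ (0, 0)) - H a = 0 := by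
      apply eq_zero_of_exp_one (convex_ball (0:ℂ) 1).isPreconnected _ _ h0b (by simp [hH0])
      · apply ContinuousOn.sub _ hH
        exact hΨc.comp (f := fun a => (a, a)) (by fun_prop) (fun a ha => ⟨ha, ha⟩)
      · intro a ha
        rw [Complex.exp_sub, hΨe a ha a ha, hexp a ha]
        have e : Pool.Agent.M16.Helper39.Area.qq β a a = 1 - a ^ 2 * deriv β a := by
          unfold Pool.Agent.M16.Helper39.Area.qq
          rw [dslope_same]; ring
        rw [e, div_self (h.ne a ha)]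
    intro a ha
    exact sub_eq_zero.mp (h1 a ha)

end Pool.Agent.M16.Helper22.Marshall

end

section

set_option autoImplicit false

open MeasureTheory Set Metric Filter Topology

open scoped Real ComplexConjugate

namespace Pool.Agent.M16.Helper39.MH

open Pool.Agent.M16.Helper22.Marshall (coeff SepHol LogPhi dcoeff GLe)

open Pool.Agent.M16.Helper39.Area (Ext phi)

/-- the Euler operator -/
noncomputable def th (F : ℂ → ℂ) (z : ℂ) : ℂ := z * deriv F z

/-- the jets: `th g0 = 3 g1 - g0^2`, `th gn = (n+3) g(n+1) + sum_(i+j=n, i,j>=1) gi gj` -/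
noncomputable def gg (H : ℂ → ℂ) : ℕ → (ℂ → ℂ)
  | 0 => fun z => -(th H z) / 2
  | 1 => fun z => (th (gg H 0) z + (gg H 0 z) ^ 2) / 3
  | (n + 2) => fun z =>
      (th (gg H (n + 1)) z - ∑ i : Fin n, gg H (i.1 + 1) z * gg H (n - i.1) z) / ((n : ℂ) + 4)
termination_by n => n
decreasing_by all_goals omega

/-- the weight of a monomial (a list of indices) -/
def wt (A : List ℕ) : ℕ := (A.map (fun n => n + 1)).sum

/-- the value of a monomial -/
noncomputable def ev (c : ℕ → ℂ) (A : List ℕ) : ℂ := (A.map c).prod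

/-- the formal derivative of the variable `n` -/
noncomputable def dval (c : ℕ → ℂ) (n : ℕ) : ℂ :=
  if n = 0 then 3 * c 1 - c 0 ^ 2
  else ((n : ℂ) + 3) * c (n + 1) + ∑ i ∈ Finset.range (n - 1), c (i + 1) * c (n - 1 - i)

/-- the formal derivative of a monomial -/
noncomputable def Dv (c : ℕ → ℂ) : List ℕ → ℂ
  | [] => 0
  | a :: A => dval c a * ev c A + c a * Dv c A

/-- the scaled jets -/
noncomputable def cc (H : ℂ → ℂ) (z : ℂ) (n : ℕ) : ℂ :=
  (((1 - ‖z‖ ^ 2) ^ (n + 1) : ℝ) : ℂ) * gg H n z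

/-- the class of data: a dilated map of the class -/
structure Data (ρ : ℝ) (β H : ℂ → ℂ) (Φ : ℂ → ℂ → ℂ) : Prop where
  one_lt : 1 < ρ
  ext : Ext β
  logPhi : LogPhi β H Φ
  diff : DifferentiableOn ℂ H (ball 0 ρ)
  bloch : ∀ z ∈ ball (0 : ℂ) 1, (1 - ‖z‖ ^ 2) * ‖deriv H z‖ ≤ 28
  exp_eq : ∀ z ∈ ball (0 : ℂ) 1, Complex.exp (H z) = 1 - z ^ 2 * deriv β z

end Pool.Agent.M16.Helper39.MH

end

section

set_option autoImplicit false

open MeasureTheory Set Metric Filter Topology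

open scoped Real ComplexConjugate

namespace Pool.Agent.M16.Helper39.MH

open Pool.Agent.M16.Helper22.Marshall (coeff SepHol LogPhi dcoeff GLe)

open Pool.Agent.M16.Helper39.Area (Ext phi)

theorem gg_zero (H : ℂ → ℂ) (z : ℂ) : gg H 0 z = -(th H z) / 2 := by
  rw [gg]

theorem gg_one (H : ℂ → ℂ) (z : ℂ) :
    gg H 1 z = (th (gg H 0) z + (gg H 0 z) ^ 2) / 3 := by
  rw [gg.eq_2]

theorem gg_succ (H : ℂ → ℂ) (n : ℕ) (z : ℂ) :
    gg H (n + 2) z = (th (gg H (n + 1)) z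
      - ∑ i : Fin n, gg H (i.1 + 1) z * gg H (n - i.1) z) / ((n : ℂ) + 4) := by
  rw [gg.eq_3]

theorem gg_succ_range (H : ℂ → ℂ) (n : ℕ) (z : ℂ) :
    gg H (n + 2) z = (th (gg H (n + 1)) z
      - ∑ i ∈ Finset.range n, gg H (i + 1) z * gg H (n - i) z) / ((n : ℂ) + 4) := by
  rw [gg_succ, Fin.sum_univ_eq_sum_range (fun i => gg H (i + 1) z * gg H (n - i) z) n]

theorem th_diff {F : ℂ → ℂ} {ρ : ℝ} (hF : DifferentiableOn ℂ F (ball 0 ρ)) :
    DifferentiableOn ℂ (th F) (ball 0 ρ) :=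
  differentiableOn_id.mul (hF.deriv isOpen_ball)

theorem th_const (c : ℂ) (z : ℂ) : th (fun _ => c) z = 0 := by
  simp [th]

theorem th_add {F K : ℂ → ℂ} {z : ℂ} (hF : DifferentiableAt ℂ F z)
    (hK : DifferentiableAt ℂ K z) : th (fun w => F w + K w) z = th F z + th K z := by
  unfold th
  rw [deriv_fun_add hF hK]
  ring

theorem th_const_mul (c : ℂ) {F : ℂ → ℂ} {z : ℂ} (hF : DifferentiableAt ℂ F z) :
    th (fun w => c * F w) z = c * th F z := by
  unfold th
  rw [deriv_const_mul _ hF]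
  ring

theorem th_mul {F K : ℂ → ℂ} {z : ℂ} (hF : DifferentiableAt ℂ F z)
    (hK : DifferentiableAt ℂ K z) :
    th (fun w => F w * K w) z = th F z * K z + F z * th K z := by
  unfold th
  rw [deriv_fun_mul hF hK]
  ring

theorem th_congr {F K : ℂ → ℂ} {z : ℂ} (h : F =ᶠ[𝓝 z] K) : th F z = th K z := by
  unfold th
  rw [h.deriv_eq]

theorem coeff_th {F : ℂ → ℂ} (hF : DifferentiableOn ℂ F (ball 0 1)) (m : ℕ) :
    coeff (th F) m = (m : ℂ) * coeff F m :=
  Pool.Agent.M16.Helper22.Marshall.coeff_eq_of_hasSum one_pos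
    (fun _ hz => Pool.Agent.M16.Helper22.Marshall.hasSum_coeff_deriv hF hz) m

theorem gg_diff {H : ℂ → ℂ} {ρ : ℝ} (hρ : 0 < ρ) (hH : DifferentiableOn ℂ H (ball 0 ρ)) (n : ℕ) :
    DifferentiableOn ℂ (gg H n) (ball 0 ρ) := by
  have _ := hρ
  induction n using Nat.strong_induction_on with
  | _ n ih =>
    match n with
    | 0 =>
      have e : gg H 0 = fun z => -(th H z) / 2 := by
        funext z
        exact gg_zero H z
      rw [e]
      exact (th_diff hH).fun_neg.div_const 2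
    | 1 =>
      have e : gg H 1 = fun z => (th (gg H 0) z + (gg H 0 z) ^ 2) / 3 := by
        funext z
        exact gg_one H z
      rw [e]
      have h0 := ih 0 (by omega)
      exact ((th_diff h0).fun_add (h0.fun_pow 2)).div_const 3
    | (k + 2) =>
      have e : gg H (k + 2) = fun z => (th (gg H (k + 1)) z
          - ∑ i ∈ Finset.range k, gg H (i + 1) z * gg H (k - i) z) / ((k : ℂ) + 4) := by
        funext z
        exact gg_succ_range H k z
      rw [e]
      refine ((th_diff (ih (k + 1) (by omega))).fun_sub ?_).div_const _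
      apply DifferentiableOn.fun_sum
      intro i hi
      have hi' := Finset.mem_range.mp hi
      exact (ih (i + 1) (by omega)).fun_mul (ih (k - i) (by omega))

theorem th_gg {H : ℂ → ℂ} {z : ℂ} (n : ℕ) :
    th (gg H n) z = dval (fun k => gg H k z) n := by
  unfold dval
  match n with
  | 0 =>
    simp only [if_true]
    rw [gg_one]
    ring
  | (m + 1) =>
    rw [if_neg (Nat.succ_ne_zero m)]
    have e : m + 1 - 1 = m := by omega
    rw [e]
    have h1 : m + 1 + 1 = m + 2 := rfl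
    rw [h1]
    have h := gg_succ_range H m z
    have h4 : (m : ℂ) + 4 ≠ 0 := by
      have : ((m + 4 : ℕ) : ℂ) ≠ 0 := Nat.cast_ne_zero.mpr (by omega)
      push_cast at this
      exact this
    beta_reduce
    rw [h]
    push_cast
    field_simp
    ring

theorem ev_nil (c : ℕ → ℂ) : ev c [] = 1 := by simp [ev]

theorem ev_cons (c : ℕ → ℂ) (a : ℕ) (A : List ℕ) : ev c (a :: A) = c a * ev c A := by
  simp [ev]

theorem wt_nil : wt [] = 0 := rfl

theorem wt_cons (a : ℕ) (A : List ℕ) : wt (a :: A) = a + 1 + wt A := by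
  simp [wt]

theorem ev_gg_diff {H : ℂ → ℂ} {ρ : ℝ} (hρ : 0 < ρ) (hH : DifferentiableOn ℂ H (ball 0 ρ))
    (A : List ℕ) : DifferentiableOn ℂ (fun w => ev (fun k => gg H k w) A) (ball 0 ρ) := by
  induction A with
  | nil =>
    simp only [ev_nil]
    exact differentiableOn_const 1
  | cons a A ih =>
    simp only [ev_cons]
    exact (gg_diff hρ hH a).fun_mul ih

theorem th_ev_gg {H : ℂ → ℂ} {ρ : ℝ} (hρ : 0 < ρ) (hH : DifferentiableOn ℂ H (ball 0 ρ)) {z : ℂ}
    (hz : z ∈ ball (0 : ℂ) ρ) (A : List ℕ) :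
    th (fun w => ev (fun k => gg H k w) A) z = Dv (fun k => gg H k z) A := by
  induction A with
  | nil =>
    simp only [ev_nil, Dv]
    exact th_const 1 z
  | cons a A ih =>
    simp only [ev_cons, Dv]
    have h1 : DifferentiableAt ℂ (gg H a) z :=
      (gg_diff hρ hH a).differentiableAt (isOpen_ball.mem_nhds hz)
    have h2 : DifferentiableAt ℂ (fun w => ev (fun k => gg H k w) A) z :=
      (ev_gg_diff hρ hH A).differentiableAt (isOpen_ball.mem_nhds hz)
    rw [th_mul h1 h2, ih, th_gg]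

/-- scaling of the variables -/
theorem ev_scale (t : ℂ) (g : ℕ → ℂ) (A : List ℕ) :
    ev (fun n => t ^ (n + 1) * g n) A = t ^ (wt A) * ev g A := by
  induction A with
  | nil => simp [ev, wt]
  | cons a A ih =>
    rw [ev_cons, ev_cons, ih, wt_cons, pow_add]
    ring

theorem dval_scale (t : ℂ) (g : ℕ → ℂ) (n : ℕ) :
    dval (fun n => t ^ (n + 1) * g n) n = t ^ (n + 2) * dval g n := by
  unfold dval
  by_cases hn : n = 0
  · subst hn
    simp only [if_true]
    ring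
  · rw [if_neg hn, if_neg hn, mul_add, Finset.mul_sum]
    congr 1
    · ring
    · apply Finset.sum_congr rfl
      intro i hi
      have hi' := Finset.mem_range.mp hi
      have e : n + 2 = (i + 1 + 1) + (n - 1 - i + 1) := by omega
      rw [e, pow_add]
      ring

theorem Dv_scale (t : ℂ) (g : ℕ → ℂ) (A : List ℕ) :
    Dv (fun n => t ^ (n + 1) * g n) A = t ^ (wt A + 1) * Dv g A := by
  induction A with
  | nil => simp [Dv]
  | cons a A ih =>
    have e1 : Dv (fun n => t ^ (n + 1) * g n) (a :: A)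
        = dval (fun n => t ^ (n + 1) * g n) a * ev (fun n => t ^ (n + 1) * g n) A
          + t ^ (a + 1) * g a * Dv (fun n => t ^ (n + 1) * g n) A := rfl
    have e2 : Dv g (a :: A) = dval g a * ev g A + g a * Dv g A := rfl
    rw [e1, e2, ih, dval_scale, ev_scale, wt_cons]
    have h1 : a + 1 + wt A + 1 = (a + 2) + wt A := by omega
    rw [h1, pow_add, pow_add, pow_add, pow_add]
    ring

theorem cc_eq (H : ℂ → ℂ) (z : ℂ) :
    cc H z = fun n => (((1 - ‖z‖ ^ 2 : ℝ) : ℂ)) ^ (n + 1) * gg H n z := by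
  funext n
  unfold cc
  push_cast
  ring

theorem ev_cc (H : ℂ → ℂ) (z : ℂ) (A : List ℕ) :
    ev (cc H z) A = (((1 - ‖z‖ ^ 2) ^ (wt A) : ℝ) : ℂ) * ev (fun k => gg H k z) A := by
  rw [cc_eq, ev_scale]
  push_cast
  ring

end Pool.Agent.M16.Helper39.MH

end

section

set_option autoImplicit false

open MeasureTheory Set Metric Filter Topology

open scoped Real ComplexConjugate

namespace Pool.Agent.M16.Helper39.MH

/-- the formal weighted derivative: `th (exp (s H) * A) = exp (s H) * DGs s A` -/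
noncomputable def DGs (s : ℂ) (c : ℕ → ℂ) (A : List ℕ) : ℂ := -2 * s * c 0 * ev c A + Dv c A

theorem th_exp_mul (s : ℂ) {H : ℂ → ℂ} {z : ℂ} (hH : DifferentiableAt ℂ H z) :
    th (fun w => Complex.exp (s * H w)) z = -2 * s * gg H 0 z * Complex.exp (s * H z) := by
  rw [gg_zero]
  unfold th
  rw [deriv_cexp (hH.const_mul s), deriv_const_mul s hH]
  ring

theorem exp_mul_diff (s : ℂ) {H : ℂ → ℂ} {ρ : ℝ} (hH : DifferentiableOn ℂ H (ball 0 ρ)) :
    DifferentiableOn ℂ (fun w => Complex.exp (s * H w)) (ball 0 ρ) :=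
  (hH.const_mul s).cexp

theorem exp_ev_diff_s (s : ℂ) {H : ℂ → ℂ} {ρ : ℝ} (hρ : 0 < ρ)
    (hH : DifferentiableOn ℂ H (ball 0 ρ)) (A : List ℕ) :
    DifferentiableOn ℂ (fun w => Complex.exp (s * H w) * ev (fun k => gg H k w) A) (ball 0 ρ) :=
  (exp_mul_diff s hH).fun_mul (ev_gg_diff hρ hH A)

theorem th_ev_s (s : ℂ) {H : ℂ → ℂ} {ρ : ℝ} (hρ : 0 < ρ) (hH : DifferentiableOn ℂ H (ball 0 ρ))
    {z : ℂ} (hz : z ∈ ball (0 : ℂ) ρ) (A : List ℕ) :
    th (fun w => Complex.exp (s * H w) * ev (fun k => gg H k w) A) z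
      = Complex.exp (s * H z) * DGs s (fun k => gg H k z) A := by
  have h0 : DifferentiableAt ℂ H z := hH.differentiableAt (isOpen_ball.mem_nhds hz)
  have h1 : DifferentiableAt ℂ (fun w => Complex.exp (s * H w)) z :=
    (exp_mul_diff s hH).differentiableAt (isOpen_ball.mem_nhds hz)
  have h2 : DifferentiableAt ℂ (fun w => ev (fun k => gg H k w) A) z :=
    (ev_gg_diff hρ hH A).differentiableAt (isOpen_ball.mem_nhds hz)
  rw [th_mul h1 h2, th_exp_mul s h0, th_ev_gg hρ hH hz, DGs]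
  ring

theorem DGs_scale (s t : ℂ) (g : ℕ → ℂ) (A : List ℕ) :
    DGs s (fun n => t ^ (n + 1) * g n) A = t ^ (wt A + 1) * DGs s g A := by
  unfold DGs
  rw [Dv_scale, ev_scale, pow_add]
  ring

theorem DGs_cc (s : ℂ) (H : ℂ → ℂ) (z : ℂ) (A : List ℕ) :
    DGs s (cc H z) A
      = (((1 - ‖z‖ ^ 2) ^ (wt A + 1) : ℝ) : ℂ) * DGs s (fun k => gg H k z) A := by
  rw [cc_eq, DGs_scale]
  push_cast
  ring

end Pool.Agent.M16.Helper39.MH

end

section

set_option autoImplicit false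

open MeasureTheory Set Metric Filter Topology

open scoped Real ComplexConjugate

namespace Pool.Agent.M16.Helper24.HR2

open Pool.Agent.M16.Helper22.Half

open Pool.Agent.M16.Helper22.Marshall (coeff SepHol LogPhi dcoeff GLe)

open Pool.Agent.M16.Helper39.Area (Ext phi)

open Pool.Agent.M16.Helper39.MH

/-- the class of data: dilated maps of the class, with Goluzin's bound -/
structure Dat (ρ : ℝ) (β H : ℂ → ℂ) (Φ : ℂ → ℂ → ℂ) : Prop extends Data ρ β H Φ where
  gol : ∀ z ∈ ball (0 : ℂ) 1, ‖H z‖ ≤ Real.log (1 / (1 - ‖z‖ ^ 2))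

/-- weighted area integral with the density `|exp (s H)|^2 (1-|z|^2)^(b-1)` -/
noncomputable def LS (s : ℂ) (H : ℂ → ℂ) (b : ℝ) (f : ℂ → ℝ) : ℝ :=
  (1 / π) * ∫ z in ball (0 : ℂ) 1,
    (1 - ‖z‖ ^ 2) ^ (b - 1) * ‖Complex.exp (s * H z)‖ ^ 2 * f z

/-- the relation polynomial of the pair `(A, B)` -/
noncomputable def relS (s : ℂ) (b : ℝ) (c : ℕ → ℂ) (A B : List ℕ) : ℂ :=
  DGs s c A * conj (ev c B) - ((b + wt A + wt B : ℝ) : ℂ) * (ev c A * conj (ev c B))

/-- the function `exp (s H) * A`, `A` a monomial in the jets -/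
noncomputable def FA (s : ℂ) (H : ℂ → ℂ) (A : List ℕ) (z : ℂ) : ℂ :=
  Complex.exp (s * H z) * ev (fun k => gg H k z) A

/-- leading parts (weight `2 r`) of the even moments of the antidiagonals -/
noncomputable def XS (s : ℂ) (c : ℕ → ℂ) : ℕ → ℂ
  | 0 => 1
  | 1 => s * (c 0 ^ 2 - c 1) / 2
  | 2 => 3 / 4 * (s ^ 2 - s) * (c 0 ^ 2 - c 1) ^ 2
      + 3 / 2 * s * (-(c 3) + c 1 ^ 2 + 2 * c 0 * c 2 - 3 * c 0 ^ 2 * c 1 + c 0 ^ 4)
  | _ => 0

/-- the lower order part of the second moment -/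
noncomputable def low2S (s : ℂ) (g : ℕ → ℂ) : ℂ := 1 / 3 * s * g 0

/-- the lower order part of the fourth moment -/
noncomputable def low4S (s : ℂ) (g : ℕ → ℂ) : ℂ :=
  s * (6 / 5 * g 2 - 7 / 5 * g 0 * g 1 + 1 / 5 * g 0 ^ 3 - 1 / 5 * g 1 - 2 / 15 * g 0 ^ 2
      - 1 / 15 * g 0)
    + s ^ 2 * (-(g 0 * g 1) + g 0 ^ 3 + 1 / 3 * g 0 ^ 2)

/-- the Pochhammer symbol -/
noncomputable def poch (x : ℝ) (n : ℕ) : ℝ := ∏ k ∈ Finset.range n, (x + k)

/-- the normalised even moments of an antidiagonal -/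
noncomputable def vS (d : ℕ → ℂ) (m r : ℕ) : ℂ :=
  (∑ l ∈ Finset.range (m + 1), d l * ((l : ℂ) - m / 2) ^ (2 * r)) / (m : ℂ) ^ (2 * r)

/-- the functionals `(s+2)_n / (n+1)! * mu_(n+1)`, `mu_j` the moment of order `j` at the end point,
expressed by the central moments -/
noncomputable def muS (s : ℂ) (K : ℕ) (g : ℕ → ℂ) (n : ℕ) : ℂ :=
  (∏ k ∈ Finset.range n, (s + 2 + k)) / (Nat.factorial (n + 1) : ℂ)
    * ∑ r ∈ Finset.range K, (Nat.choose (n + 1) (2 * r) : ℂ) * (1 / 2) ^ (n + 1 - 2 * r) * g r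

/-- the moments of the normalised beta density: `E X^n` -/
noncomputable def Gm (s : ℂ) (b : ℝ) (n : ℕ) : ℝ :=
  ∏ k ∈ Finset.range n, (2 * s.re + 2 + k) / (b + 3 + k)

/-- the quadratic part of the test form -/
noncomputable def gamF (s : ℂ) (b : ℝ) (N : ℕ) (y : ℕ → ℂ) : ℝ :=
  ∑ n ∈ Finset.range N, ∑ k ∈ Finset.range N, Gm s b (n + k) * (y n * conj (y k)).re

/-- the linear part of the test form -/
noncomputable def linF (s : ℂ) (K N : ℕ) (g y : ℕ → ℂ) : ℝ :=
  2 * (∑ n ∈ Finset.range N, conj (y n) * muS s K g n).re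

/-- the upper form (partial sums) -/
noncomputable def Nf (s : ℂ) (b : ℝ) (d : ℕ → ℂ) (m J : ℕ) : ℝ :=
  ∑ j ∈ Finset.range J, ((j : ℝ) + 1) * (pq (b + 1 - 2 * s.re) (m + 1 + j))⁻¹
    * ‖Vd s d m (m + 1 + j)‖ ^ 2

/-- the limit of the partial products `kap` -/
noncomputable def KS (s : ℂ) : ℝ := ⨆ n, kap s.re (‖s‖ ^ 2) n

noncomputable def aD (s : ℂ) (b : ℝ) (m i : ℕ) : ℝ :=
  kap s.re (‖s‖ ^ 2) (m - 1 - i) * pq (2 + 2 * s.re) (m - 1 - i) * pq (b + 1 - 2 * s.re) i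

noncomputable def bD (s : ℂ) (b : ℝ) (m j : ℕ) : ℝ :=
  ((j : ℝ) + 1) * ‖(1 + s) * pq (-s) (m + 1 + j)‖ ^ 2 / pq (b + 1 - 2 * s.re) (m + 1 + j)

noncomputable def kD (s : ℂ) (m i j : ℕ) : ℂ := (m : ℂ) / (((j + 1 + i : ℕ) : ℂ) - s)

noncomputable def XD (s : ℂ) (m n i : ℕ) : ℂ :=
  (∏ k ∈ Finset.range n, (s + 1 + k + ((m - i : ℕ) : ℂ))) / (m : ℂ) ^ n

noncomputable def YD (m j : ℕ) : ℝ := (m : ℝ) / (m + 1 + j)

noncomputable def rD (s : ℂ) (D : ℕ) (p : ℕ → ℕ → ℝ) (m i j : ℕ) : ℂ :=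
  kD s m i j - ∑ n ∈ Finset.range D, ∑ l ∈ Finset.range D,
    (p n l : ℂ) * XD s m n i * (YD m j : ℂ) ^ (l + 1)

noncomputable def UD (s : ℂ) (d : ℕ → ℂ) (m i : ℕ) : ℂ := pq (s + 2) (m - 1 - i) * Vd s d m i

noncomputable def alp (s : ℂ) (b : ℝ) (x : ℝ) : ℝ :=
  (1 - x) ^ (2 * s.re + 1) * x ^ (b - 2 * s.re)

noncomputable def bet (b : ℝ) (y : ℝ) : ℝ := y * (1 + y) ^ (-b - 2)

noncomputable def B0 (s : ℂ) (b : ℝ) : ℝ := ∫ x in Ioo (0 : ℝ) 1, alp s b x

/-- the constant `|sin (pi s) / pi|^2` -/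
noncomputable def cst (s : ℂ) : ℝ := ‖Complex.sin (π * s) / π‖ ^ 2

/-- the main constant -/
noncomputable def Es (s : ℂ) (b : ℝ) : ℝ := cst s * B0 s b

/-- a polynomial kernel: coefficients `p n l` of `X^n Y^(l+1)`, `n, l < D` -/
noncomputable def kp (D : ℕ) (p : ℕ → ℕ → ℝ) (X Y : ℝ) : ℝ :=
  ∑ n ∈ Finset.range D, ∑ l ∈ Finset.range D, p n l * X ^ n * Y ^ (l + 1)

/-- the remainder of the kernel -/
noncomputable def RR (D : ℕ) (p : ℕ → ℕ → ℝ) (x y : ℝ) : ℝ :=
  1 / (x + y) - kp D p (1 - x) (1 / (1 + y))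

/-- the squared Hilbert-Schmidt norm of the remainder -/
noncomputable def HSn (s : ℂ) (b : ℝ) (D : ℕ) (p : ℕ → ℕ → ℝ) : ℝ :=
  (1 / B0 s b) * ∫ x in Ioo (0 : ℝ) 1, ∫ y in Ioi (0 : ℝ), alp s b x * bet b y * RR D p x y ^ 2

/-- the mixed moments of the remainder, `X^n Y^l` -/
noncomputable def xln (s : ℂ) (b : ℝ) (D : ℕ) (p : ℕ → ℕ → ℝ) (l n : ℕ) : ℝ :=
  (1 / B0 s b) * ∫ x in Ioo (0 : ℝ) 1, ∫ y in Ioi (0 : ℝ),
    alp s b x * bet b y * (1 - x) ^ n * (1 / (1 + y)) ^ l * RR D p x y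

/-- coefficients (of `Y^l`, `l ≤ D`) of the approximation of the inner function -/
noncomputable def FF (s : ℂ) (D : ℕ) (p : ℕ → ℕ → ℝ) (μ : ℕ → ℂ) : ℕ → ℂ
  | 0 => 2 / (1 + s) * μ 0
  | (l + 1) => ∑ n ∈ Finset.range D, (p n l : ℂ) * μ n

/-- the main part of the upper form -/
noncomputable def Nmain (b : ℝ) (D : ℕ) (F : ℕ → ℂ) : ℝ :=
  ∑ l ∈ Finset.range (D + 1), ∑ k ∈ Finset.range (D + 1),
    (F l * conj (F k)).re / ((b + l + k) * (b + l + k + 1))

/-- the cross part with the test vector -/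
noncomputable def Nx (s : ℂ) (b : ℝ) (D N : ℕ) (p : ℕ → ℕ → ℝ) (F y : ℕ → ℂ) : ℝ :=
  2 * ∑ l ∈ Finset.range (D + 1), ∑ n ∈ Finset.range N,
    xln s b D p l n * (conj (F l) * y n).re

/-- the cross functions `int bet Y^l RR dy` -/
noncomputable def rl (b : ℝ) (D : ℕ) (p : ℕ → ℕ → ℝ) (l : ℕ) (x : ℝ) : ℝ :=
  ∫ y in Ioi (0 : ℝ), bet b y * (1 / (1 + y)) ^ l * RR D p x y

/-- the norm of the cross functional -/
noncomputable def Ncross (s : ℂ) (b : ℝ) (D : ℕ) (p : ℕ → ℕ → ℝ) (F : ℕ → ℂ) : ℝ :=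
  (1 / B0 s b) * ∫ x in Ioo (0 : ℝ) 1, alp s b x
    * ‖∑ l ∈ Finset.range (D + 1), F l * (rl b D p l x : ℂ)‖ ^ 2

/-- multiplication of a vector by a matrix -/
noncomputable def Tg (K : ℕ) (T : ℕ → ℕ → ℂ) (g : ℕ → ℂ) (n : ℕ) : ℂ :=
  ∑ r ∈ Finset.range K, T n r * g r

/-- value of the Hermitian form `Q` -/
noncomputable def hF (K : ℕ) (Q : ℕ → ℕ → ℂ) (g : ℕ → ℂ) : ℝ :=
  ∑ r ∈ Finset.range K, ∑ t ∈ Finset.range K, (Q r t * (g t * conj (g r))).re

end Pool.Agent.M16.Helper24.HR2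

end

section

set_option autoImplicit false

open MeasureTheory Set Metric Filter Topology

open scoped Real ComplexConjugate

namespace Pool.Agent.M16.Helper24.HR2

open Pool.Agent.M16.Helper22.Half

open Pool.Agent.M16.Helper39.MH

/-- the remainder tested on the power `X^n` -/
noncomputable def ryn (s : ℂ) (b : ℝ) (D : ℕ) (p : ℕ → ℕ → ℝ) (n : ℕ) (y : ℝ) : ℝ :=
  (1 / B0 s b) * ∫ x in Ioo (0 : ℝ) 1, alp s b x * (1 - x) ^ n * RR D p x y

/-- the Gram matrix of the remainder on the powers -/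
noncomputable def MR (s : ℂ) (b : ℝ) (D : ℕ) (p : ℕ → ℕ → ℝ) (n k : ℕ) : ℝ :=
  ∫ y in Ioi (0 : ℝ), bet b y * ryn s b D p n y * ryn s b D p k y

noncomputable def gamR (s : ℂ) (b : ℝ) (N D : ℕ) (p : ℕ → ℕ → ℝ) (y : ℕ → ℂ) : ℝ :=
  ∑ n ∈ Finset.range N, ∑ k ∈ Finset.range N, MR s b D p n k * (y n * conj (y k)).re

/-- the second limit form of `P - N` (lower bound) -/
noncomputable def limG (s : ℂ) (b : ℝ) (K N D : ℕ) (p : ℕ → ℕ → ℝ) (κ τ : ℝ)
    (g y : ℕ → ℂ) : ℝ :=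
  linF s K N g y - gamF s b N y - (1 + 1 / κ) * Es s b * gamR s b N D p y
    - Es s b * Nmain b D (FF s D p (muS s K g))
    - Es s b * Nx s b D N p (FF s D p (muS s K g)) y
    - Es s b ^ 2 / τ * Ncross s b D p (FF s D p (muS s K g))

/-- the inequality `q ≤ P - N` for all large orders, up to small errors -/
def PF (s : ℂ) (b : ℝ) (K : ℕ) (q : (ℕ → ℂ) → ℝ) : Prop :=
  ∀ δ : ℝ, 0 < δ → ∃ m0 : ℕ, ∀ m : ℕ, 1 ≤ m → m0 ≤ m → ∀ (J : ℕ) (d : ℕ → ℂ),
    (∀ l ≤ m, d l = d (m - l)) →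
      (m : ℝ) ^ 2 / (KS s * pq (b + 3) (m - 1))
        * (q (vS d m) - δ * ∑ r ∈ Finset.range K, ‖vS d m r‖ ^ 2)
      ≤ Pf s b d m - Nf s b d m J

/-- convolutions of the moments -/
noncomputable def CN (s : ℂ) (b : ℝ) (n k N : ℕ) : ℝ :=
  ∑ j ∈ Finset.range (N + 1), Gm s b (n + j) * Gm s b (k + (N - j))

/-- the Gram matrix of the kernel `1 / (x + y)` on the powers -/
noncomputable def MM (s : ℂ) (b : ℝ) (n k : ℕ) : ℝ :=
  ∑' N : ℕ, CN s b n k N / ((b + N + 2) * (b + N + 3))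

/-- coefficients of the projection of the polynomial kernel -/
noncomputable def pil (s : ℂ) (b : ℝ) (D : ℕ) (p : ℕ → ℕ → ℝ) (n l : ℕ) : ℝ :=
  ∑ n' ∈ Finset.range D, p n' l * Gm s b (n + n')

/-- test functions for the tail -/
noncomputable def ph (c1 c2 b : ℝ) (N : ℕ) : ℝ :=
  c1 / (N + 2 * b + 5) + c2 / ((N + 2 * b + 5) * (N + 2 * b + 6))

noncomputable def ch (c1 c2 b : ℝ) (N : ℕ) : ℝ :=
  c1 / (N + b + 3) + c2 / ((N + b + 3) * (N + b + 4))

end Pool.Agent.M16.Helper24.HR2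

end

end

section

namespace Pool.Agent.M16.Helper22.Half
end Pool.Agent.M16.Helper22.Half
namespace Pool.Agent.M16.Helper24.HR2
end Pool.Agent.M16.Helper24.HR2
namespace Pool.Agent.M16.Helper39.MH
end Pool.Agent.M16.Helper39.MH
namespace Pool.Agent.M16.Helper39.Area
end Pool.Agent.M16.Helper39.Area
namespace Pool.Agent.M16.Helper22.Marshall
end Pool.Agent.M16.Helper22.Marshall
namespace Pool.Agent.M16.Helper39.HR
end Pool.Agent.M16.Helper39.HR

section

set_option autoImplicit false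

open MeasureTheory Set Metric Filter Topology

open scoped Real ComplexConjugate

namespace Pool.Agent.M16.Helper24.HR2

open Pool.Agent.M16.Helper22.Half

theorem kap_exp_bound {r ρ : ℝ} (hr : -1 < r) (hρ : 0 ≤ ρ) (n : ℕ) :
    kap r ρ (n + 1) ≤ kap r ρ 1 * Real.exp (ρ * (1 - 1 / ((n : ℝ) + 1))) := by
  induction n with
  | zero => simp
  | succ n ih =>
    have hn : (0 : ℝ) ≤ n := Nat.cast_nonneg n
    have h1 : 1 + ρ / ((((n + 1 : ℕ) : ℝ) + 2) * (((n + 1 : ℕ) : ℝ) + 2 + 2 * r))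
        ≤ Real.exp (ρ / (((n : ℝ) + 2) * ((n : ℝ) + 1))) := by
      have h2 : ρ / ((((n + 1 : ℕ) : ℝ) + 2) * (((n + 1 : ℕ) : ℝ) + 2 + 2 * r))
          ≤ ρ / (((n : ℝ) + 2) * ((n : ℝ) + 1)) := by
        apply div_le_div_of_nonneg_left hρ (by positivity)
        push_cast
        apply mul_le_mul <;> linarith only [hr]
      have h3 := Real.add_one_le_exp (ρ / (((n : ℝ) + 2) * ((n : ℝ) + 1)))
      linarith only [h2, h3]
    have h4 : Real.exp (ρ * (1 - 1 / (((n + 1 : ℕ) : ℝ) + 1)))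
        = Real.exp (ρ * (1 - 1 / ((n : ℝ) + 1))) * Real.exp (ρ / (((n : ℝ) + 2) * ((n : ℝ) + 1))) := by
      rw [← Real.exp_add]
      congr 1
      push_cast
      field_simp
      ring
    have h5 : 0 ≤ kap r ρ 1 := zero_le_one.trans (kap_ge_one hr hρ 1)
    have h6 : 0 ≤ 1 + ρ / ((((n + 1 : ℕ) : ℝ) + 2) * (((n + 1 : ℕ) : ℝ) + 2 + 2 * r)) := by
      have : 0 ≤ ((n + 1 : ℕ) : ℝ) + 2 + 2 * r := by push_cast; linarith only [hr]
      positivity
    rw [kap_succ, h4, ← mul_assoc]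
    exact mul_le_mul ih h1 h6 (mul_nonneg h5 (Real.exp_pos _).le)

theorem kap_bddAbove {r ρ : ℝ} (hr : -1 < r) (hρ : 0 ≤ ρ) :
    BddAbove (Set.range fun n => kap r ρ n) := by
  have h5 : 0 ≤ kap r ρ 1 := zero_le_one.trans (kap_ge_one hr hρ 1)
  refine ⟨kap r ρ 1 * Real.exp ρ, ?_⟩
  rintro _ ⟨n, rfl⟩
  refine (kap_mono hr hρ (Nat.le_succ n)).trans ((kap_exp_bound hr hρ n).trans ?_)
  apply mul_le_mul_of_nonneg_left _ h5
  apply Real.exp_le_exp.mpr
  have : 0 ≤ 1 / ((n : ℝ) + 1) := by positivity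
  nlinarith only [hρ, this]

theorem neg_one_lt_re {s : ℂ} (hs : ‖s‖ < 1) : -1 < s.re :=
  (abs_lt.mp ((Complex.abs_re_le_norm s).trans_lt hs)).1

theorem KS_facts {s : ℂ} (hs : ‖s‖ < 1) : 1 ≤ KS s ∧ (∀ n, kap s.re (‖s‖ ^ 2) n ≤ KS s)
    ∧ Tendsto (fun n => kap s.re (‖s‖ ^ 2) n) atTop (𝓝 (KS s)) := by
  have hr := neg_one_lt_re hs
  have hb := kap_bddAbove hr (sq_nonneg ‖s‖)
  have h1 : ∀ n, kap s.re (‖s‖ ^ 2) n ≤ KS s := fun n => le_ciSup hb n
  refine ⟨(kap_ge_one hr (sq_nonneg ‖s‖) 0).trans (h1 0), h1, ?_⟩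
  exact tendsto_atTop_ciSup (fun a b hab => kap_mono hr (sq_nonneg ‖s‖) hab) hb

theorem one_add_ne_zero_of {s : ℂ} (hs : ‖s‖ < 1) : 1 + s ≠ 0 := by
  intro h
  have h2 : s = -1 := by linear_combination h
  rw [h2, norm_neg, norm_one] at hs
  exact lt_irrefl _ hs

/-- the norm of the coefficients of `(1-x)^(-s-2)` -/
theorem norm_pq_two {s : ℂ} (hs : ‖s‖ < 1) (n : ℕ) :
    ‖pq (s + 2) n‖ ^ 2 = ((n : ℝ) + 1) * (kap s.re (‖s‖ ^ 2) n * pq (2 + 2 * s.re) n) := by
  have h1 := norm_Q s (neg_one_lt_re hs) n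
  have h2 := pq_shift (1 + s) n
  have e : 1 + s + 1 = s + 2 := by ring
  rw [e] at h2
  have h3 : ((n : ℝ) + 1) ^ 2 * ‖pq (1 + s) (n + 1)‖ ^ 2 = ‖1 + s‖ ^ 2 * ‖pq (s + 2) n‖ ^ 2 := by
    have h4 : ‖((n : ℂ) + 1)‖ = (n : ℝ) + 1 := by
      have : ((n : ℂ) + 1) = (((n : ℝ) + 1 : ℝ) : ℂ) := by push_cast; ring
      rw [this, Complex.norm_real, Real.norm_of_nonneg (by positivity)]
    rw [← h4, ← mul_pow, ← norm_mul, h2, norm_mul, mul_pow]
  have h5 : ‖1 + s‖ ^ 2 ≠ 0 := pow_ne_zero 2 (norm_ne_zero_iff.mpr (one_add_ne_zero_of hs))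
  apply mul_left_cancel₀ h5
  rw [← h3]
  linear_combination ((n : ℝ) + 1) * h1

theorem Pf_eq {s : ℂ} (hs : ‖s‖ < 1) {b : ℝ} (hσ : 0 < b + 1 - 2 * s.re) (d : ℕ → ℂ) (m : ℕ) :
    Pf s b d m = ∑ i ∈ Finset.range m, ‖UD s d m i‖ ^ 2 / aD s b m i := by
  unfold Pf
  apply Finset.sum_congr rfl
  intro i hi
  rw [Finset.mem_range] at hi
  have hr := neg_one_lt_re hs
  have p1 := (pq_pos hσ i).ne'
  have p2 := (pq_pos (by linarith only [hr] : 0 < 2 + 2 * s.re) (m - 1 - i)).ne'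
  have p3 := (zero_lt_one.trans_le (kap_ge_one hr (sq_nonneg ‖s‖) (m - 1 - i))).ne'
  have e : ((m - i : ℕ) : ℝ) = ((m - 1 - i : ℕ) : ℝ) + 1 := by
    have : m - i = (m - 1 - i) + 1 := by omega
    rw [this]
    push_cast
    ring
  unfold UD aD
  rw [norm_mul, mul_pow, norm_pq_two hs, e]
  generalize kap s.re (‖s‖ ^ 2) (m - 1 - i) = k0 at *
  generalize pq (2 + 2 * s.re) (m - 1 - i) = q0 at *
  field_simp

/-- products of nearly equal factors -/
theorem prod_close {B ε : ℝ} (hB : 1 ≤ B) (hε : 0 ≤ ε) {t : ℂ} (ht : ‖t‖ ≤ 1) (n : ℕ) (x : ℕ → ℂ)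
    (hx : ∀ j < n, ‖x j‖ ≤ B) (hxt : ∀ j < n, ‖x j - t‖ ≤ ε) :
    ‖∏ j ∈ Finset.range n, x j - t ^ n‖ ≤ n * B ^ n * ε := by
  induction n with
  | zero => simp
  | succ n ih =>
    have h1 := ih (fun j hj => hx j (by omega)) fun j hj => hxt j (by omega)
    rw [Finset.prod_range_succ, pow_succ]
    have e : (∏ j ∈ Finset.range n, x j) * x n - t ^ n * t
        = (∏ j ∈ Finset.range n, x j - t ^ n) * x n + t ^ n * (x n - t) := by ring
    rw [e]
    have h2 : ‖t ^ n‖ ≤ 1 := by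
      rw [norm_pow]
      exact pow_le_one₀ (norm_nonneg _) ht
    have h3 : 1 ≤ B ^ (n + 1) := one_le_pow₀ hB
    calc ‖(∏ j ∈ Finset.range n, x j - t ^ n) * x n + t ^ n * (x n - t)‖
        ≤ ‖∏ j ∈ Finset.range n, x j - t ^ n‖ * ‖x n‖ + ‖t ^ n‖ * ‖x n - t‖ := by
          refine (norm_add_le _ _).trans ?_
          rw [norm_mul, norm_mul]
      _ ≤ (n * B ^ n * ε) * B + 1 * ε := by
          apply add_le_add
          · exact mul_le_mul h1 (hx n (by omega)) (norm_nonneg _) (by positivity)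
          · exact mul_le_mul h2 (hxt n (by omega)) (norm_nonneg _) zero_le_one
      _ ≤ ((n + 1 : ℕ) : ℝ) * B ^ (n + 1) * ε := by
          push_cast
          have : ε ≤ B ^ (n + 1) * ε := le_mul_of_one_le_left hε h3
          have e2 : ((n : ℝ) + 1) * B ^ (n + 1) * ε = n * B ^ n * ε * B + B ^ (n + 1) * ε := by
            rw [pow_succ]
            ring
          rw [e2]
          linarith

/-- products of factors `(x + c_j) / m` with `0 ≤ x ≤ m` -/
theorem prod_close' {A : ℝ} (hA : 0 ≤ A) {m : ℕ} (hm : 1 ≤ m) {x : ℝ} (hx0 : 0 ≤ x)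
    (hxm : x ≤ m) (n : ℕ) (c : ℕ → ℂ) (hc : ∀ j < n, ‖c j‖ ≤ A) :
    ‖(∏ j ∈ Finset.range n, ((x : ℂ) + c j)) / (m : ℂ) ^ n - ((x / m : ℝ) : ℂ) ^ n‖
      ≤ n * (A + 1) ^ (n + 1) / m := by
  have hm0 : (0 : ℝ) < m := by exact_mod_cast (by omega : 0 < m)
  have hm1 : (1 : ℝ) ≤ m := by exact_mod_cast hm
  have hmc : (m : ℂ) ≠ 0 := by exact_mod_cast hm0.ne'
  have ht : ‖((x / m : ℝ) : ℂ)‖ ≤ 1 := by
    rw [Complex.norm_real, Real.norm_of_nonneg (by positivity), div_le_one hm0]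
    exact hxm
  have h1 : ∀ j < n, ‖((x : ℂ) + c j) / m - ((x / m : ℝ) : ℂ)‖ ≤ (A + 1) / m := by
    intro j hj
    have e : ((x : ℂ) + c j) / m - ((x / m : ℝ) : ℂ) = c j / m := by
      push_cast
      field_simp
      ring
    rw [e, norm_div, Complex.norm_natCast]
    apply div_le_div_of_nonneg_right _ hm0.le
    have := hc j hj
    linarith only [this]
  have h2 : ∀ j < n, ‖((x : ℂ) + c j) / m‖ ≤ A + 1 := by
    intro j hj
    rw [norm_div, Complex.norm_natCast, div_le_iff₀ hm0]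
    have h3 : ‖(x : ℂ) + c j‖ ≤ x + A := by
      refine (norm_add_le _ _).trans ?_
      rw [Complex.norm_real, Real.norm_of_nonneg hx0]
      have := hc j hj
      linarith only [this]
    nlinarith only [hA, hxm, hm1, h3]
  have h4 := prod_close (by linarith only [hA] : 1 ≤ A + 1) (by positivity : 0 ≤ (A + 1) / m) ht n
    (fun j => ((x : ℂ) + c j) / m) h2 h1
  rw [Finset.prod_div_distrib, Finset.prod_const, Finset.card_range] at h4
  refine h4.trans (le_of_eq ?_)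
  rw [pow_succ]
  ring

/-- weighted means of nearly equal functions -/
theorem mean_close {m : ℕ} (w : ℕ → ℝ) (hw : ∀ i < m, 0 ≤ w i) {S : ℝ} (hS : 0 < S)
    (hwS : ∑ i ∈ Finset.range m, w i = S) (f g : ℕ → ℂ) {δ : ℝ}
    (hfg : ∀ i < m, ‖f i - g i‖ ≤ δ) :
    ‖(∑ i ∈ Finset.range m, (w i : ℂ) * f i) / (S : ℂ)
      - (∑ i ∈ Finset.range m, (w i : ℂ) * g i) / (S : ℂ)‖ ≤ δ := by
  rw [← sub_div, ← Finset.sum_sub_distrib, norm_div, Complex.norm_real,
    Real.norm_of_nonneg hS.le, div_le_iff₀ hS]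
  calc ‖∑ i ∈ Finset.range m, ((w i : ℂ) * f i - (w i : ℂ) * g i)‖
      ≤ ∑ i ∈ Finset.range m, ‖(w i : ℂ) * f i - (w i : ℂ) * g i‖ := norm_sum_le _ _
    _ ≤ ∑ i ∈ Finset.range m, w i * δ := by
        apply Finset.sum_le_sum
        intro i hi
        rw [Finset.mem_range] at hi
        rw [← mul_sub, norm_mul, Complex.norm_real, Real.norm_of_nonneg (hw i hi)]
        exact mul_le_mul_of_nonneg_left (hfg i hi) (hw i hi)
    _ = δ * S := by rw [← Finset.sum_mul, hwS, mul_comm]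

/-- iterated shift of the parameter -/
theorem pq_rise (z : ℝ) (M n : ℕ) :
    pq z n * ∏ j ∈ Finset.range M, (z + n + j) = (∏ j ∈ Finset.range M, (z + j)) * pq (z + M) n := by
  induction M with
  | zero => simp
  | succ M ih =>
    rw [Finset.prod_range_succ, Finset.prod_range_succ, ← mul_assoc, ih]
    have h := pq_add_one (z + M) n
    have e : z + ((M + 1 : ℕ) : ℝ) = z + M + 1 := by push_cast; ring
    rw [e]
    linear_combination -(∏ j ∈ Finset.range M, (z + (j : ℝ))) * h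

/-- the rising moments of the weights -/
theorem sum_rise (z σ : ℝ) (M : ℕ) {m : ℕ} (hm : 1 ≤ m) :
    ∑ i ∈ Finset.range m, (pq z (m - 1 - i) * pq σ i)
        * ∏ j ∈ Finset.range M, (z + ((m - 1 - i : ℕ) : ℝ) + j)
      = (∏ j ∈ Finset.range M, (z + j)) * pq (z + σ + M) (m - 1) := by
  have h := vander σ (z + M) (m - 1)
  have e : m - 1 + 1 = m := by omega
  have e2 : σ + (z + M) = z + σ + M := by ring
  rw [e, e2] at h
  rw [← h, Finset.mul_sum]
  apply Finset.sum_congr rfl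
  intro i _
  have h2 := pq_rise z M (m - 1 - i)
  linear_combination (pq σ i) * h2

theorem gram_eq (N : ℕ) : ∃ C : ℝ, 0 ≤ C ∧ ∀ s : ℂ, ‖s‖ ≤ 7 / 10 → ∀ b : ℝ, 0 < b → b ≤ 1 →
    0 < b + 1 - 2 * s.re → ∀ m : ℕ, 1 ≤ m → ∀ n < N, ∀ k < N,
      ‖(∑ i ∈ Finset.range m, ((pq (2 + 2 * s.re) (m - 1 - i) * pq (b + 1 - 2 * s.re) i : ℝ) : ℂ)
          * (XD s m n i * conj (XD s m k i))) / (pq (b + 3) (m - 1) : ℝ) - (Gm s b (n + k) : ℂ)‖
        ≤ C / m := by
  obtain ⟨A, hA⟩ : ∃ A : ℝ, A = 2 * N + 5 := ⟨_, rfl⟩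
  have hA0 : 0 ≤ A := by rw [hA]; positivity
  obtain ⟨C1, hC1⟩ : ∃ C1 : ℝ, C1 = (2 * N) * (A + 1) ^ (2 * N + 1) := ⟨_, rfl⟩
  have hC10 : 0 ≤ C1 := by rw [hC1]; positivity
  have hN0 : (0 : ℝ) ≤ N := Nat.cast_nonneg N
  -- the basic comparison
  have key : ∀ m : ℕ, 1 ≤ m → ∀ x : ℝ, 0 ≤ x → x ≤ m → ∀ n ≤ 2 * N, ∀ c : ℕ → ℂ,
      (∀ j < n, ‖c j‖ ≤ A) →
      ‖(∏ j ∈ Finset.range n, ((x : ℂ) + c j)) / (m : ℂ) ^ n - ((x / m : ℝ) : ℂ) ^ n‖
        ≤ C1 / m := by
    intro m hm x hx0 hxm n hn c hc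
    refine (prod_close' hA0 hm hx0 hxm n c hc).trans ?_
    apply div_le_div_of_nonneg_right _ (Nat.cast_nonneg m)
    rw [hC1]
    apply mul_le_mul
    · exact_mod_cast hn
    · exact pow_le_pow_right₀ (by linarith only [hA0]) (by omega)
    · positivity
    · positivity
  refine ⟨C1 * (C1 + 1) + C1 + C1 + C1, by positivity, ?_⟩
  intro s hs b hb hb1 hσ m hm n hn k hk
  have hs1 : ‖s‖ < 1 := by linarith only [hs]
  have hr := neg_one_lt_re hs1
  have hre := abs_le.mp ((Complex.abs_re_le_norm s).trans hs)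
  have hm0 : (0 : ℝ) < m := by exact_mod_cast (by omega : 0 < m)
  have hm1 : (1 : ℝ) ≤ m := by exact_mod_cast hm
  have hmc : (m : ℂ) ≠ 0 := by exact_mod_cast hm0.ne'
  have hS : 0 < pq (b + 3) (m - 1) := pq_pos (by linarith only [hb]) _
  have hz : 0 < 2 + 2 * s.re := by linarith only [hre]
  have hzσ : 2 + 2 * s.re + (b + 1 - 2 * s.re) = b + 3 := by ring
  have hw : ∀ i < m, 0 ≤ pq (2 + 2 * s.re) (m - 1 - i) * pq (b + 1 - 2 * s.re) i := fun i _ =>
    (mul_pos (pq_pos hz _) (pq_pos hσ _)).le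
  have hwS : ∑ i ∈ Finset.range m, pq (2 + 2 * s.re) (m - 1 - i) * pq (b + 1 - 2 * s.re) i
      = pq (b + 3) (m - 1) := by
    have h := sum_rise (2 + 2 * s.re) (b + 1 - 2 * s.re) 0 hm
    simpa [hzσ] using h
  -- the argument of the factors
  have hx : ∀ i < m, ((m - 1 - i : ℕ) : ℝ) ≤ m := by
    intro i _
    exact_mod_cast (by omega : m - 1 - i ≤ m)
  -- the functions XD
  have hXD : ∀ p < N, ∀ i < m, ‖XD s m p i - ((((m - 1 - i : ℕ) : ℝ) / m : ℝ) : ℂ) ^ p‖
      ≤ C1 / m := by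
    intro p hp i hi
    have h := key m hm ((m - 1 - i : ℕ) : ℝ) (Nat.cast_nonneg _) (hx i hi) p (by omega)
      (fun j => s + 2 + j) (fun j hj => by
        have h1 : ‖s + 2 + (j : ℂ)‖ ≤ ‖s‖ + 2 + j := by
          refine (norm_add_le _ _).trans ?_
          rw [Complex.norm_natCast]
          have h2 := norm_add_le s 2
          rw [Complex.norm_two] at h2
          linarith only [h2]
        have h3 : (j : ℝ) ≤ N := by exact_mod_cast (by omega : j ≤ N)
        rw [hA]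
        linarith only [hs1, h1, h3])
    have e : XD s m p i = (∏ j ∈ Finset.range p,
        ((((m - 1 - i : ℕ) : ℝ) : ℂ) + (s + 2 + (j : ℂ)))) / (m : ℂ) ^ p := by
      unfold XD
      congr 1
      apply Finset.prod_congr rfl
      intro j _
      have : m - i = (m - 1 - i) + 1 := by omega
      rw [this]
      push_cast
      ring
    rw [e]
    exact h
  have ht : ∀ i < m, ∀ p : ℕ, ‖((((m - 1 - i : ℕ) : ℝ) / m : ℝ) : ℂ) ^ p‖ ≤ 1 := by
    intro i hi p
    rw [norm_pow]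
    apply pow_le_one₀ (norm_nonneg _)
    rw [Complex.norm_real, Real.norm_of_nonneg (by positivity), div_le_one hm0]
    exact hx i hi
  -- the rising products
  have hR : ∀ i < m, ‖(((∏ j ∈ Finset.range (n + k), (2 + 2 * s.re + ((m - 1 - i : ℕ) : ℝ) + j))
        / (m : ℝ) ^ (n + k) : ℝ) : ℂ) - ((((m - 1 - i : ℕ) : ℝ) / m : ℝ) : ℂ) ^ (n + k)‖
      ≤ C1 / m := by
    intro i hi
    have h := key m hm ((m - 1 - i : ℕ) : ℝ) (Nat.cast_nonneg _) (hx i hi) (n + k) (by omega)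
      (fun j => ((2 + 2 * s.re + j : ℝ) : ℂ)) (fun j hj => by
        have h3 : (j : ℝ) ≤ 2 * N := by exact_mod_cast (by omega : j ≤ 2 * N)
        have h4 : (0 : ℝ) ≤ j := Nat.cast_nonneg j
        rw [Complex.norm_real, Real.norm_of_nonneg (by linarith only [hz]), hA]
        linarith only [hre, h3])
    have e : (((∏ j ∈ Finset.range (n + k), (2 + 2 * s.re + ((m - 1 - i : ℕ) : ℝ) + j))
        / (m : ℝ) ^ (n + k) : ℝ) : ℂ) = (∏ j ∈ Finset.range (n + k),
        ((((m - 1 - i : ℕ) : ℝ) : ℂ) + ((2 + 2 * s.re + j : ℝ) : ℂ))) / (m : ℂ) ^ (n + k) := by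
      push_cast
      congr 1
      apply Finset.prod_congr rfl
      intro j _
      ring
    rw [e]
    exact h
  -- pointwise comparison
  have hP : ∀ i < m, ‖XD s m n i * conj (XD s m k i)
      - (((∏ j ∈ Finset.range (n + k), (2 + 2 * s.re + ((m - 1 - i : ℕ) : ℝ) + j))
        / (m : ℝ) ^ (n + k) : ℝ) : ℂ)‖ ≤ (C1 * (C1 + 1) + C1 + C1) / m := by
    intro i hi
    obtain ⟨t, htd⟩ : ∃ t : ℂ, t = ((((m - 1 - i : ℕ) : ℝ) / m : ℝ) : ℂ) := ⟨_, rfl⟩
    have h1 := hXD n hn i hi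
    have h2 := hXD k hk i hi
    have h3 := hR i hi
    have h4 := ht i hi n
    have h5 := ht i hi k
    rw [← htd] at h1 h2 h3 h4 h5
    have h6 : conj t = t := by rw [htd, Complex.conj_ofReal]
    have h7 : ‖conj (XD s m k i) - t ^ k‖ ≤ C1 / m := by
      have e : conj (XD s m k i) - t ^ k = conj (XD s m k i - t ^ k) := by
        rw [map_sub, map_pow, h6]
      rw [e, Complex.norm_conj]
      exact h2
    have h8 : ‖conj (XD s m k i)‖ ≤ C1 + 1 := by
      have h9 : C1 / m ≤ C1 := div_le_self hC10 hm1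
      have e : conj (XD s m k i) = (conj (XD s m k i) - t ^ k) + t ^ k := by ring
      rw [e]
      refine (norm_add_le _ _).trans ?_
      linarith only [h5, h7, h9]
    have e : XD s m n i * conj (XD s m k i)
        - (((∏ j ∈ Finset.range (n + k), (2 + 2 * s.re + ((m - 1 - i : ℕ) : ℝ) + j))
        / (m : ℝ) ^ (n + k) : ℝ) : ℂ)
        = (XD s m n i - t ^ n) * conj (XD s m k i) + t ^ n * (conj (XD s m k i) - t ^ k)
          - ((((∏ j ∈ Finset.range (n + k), (2 + 2 * s.re + ((m - 1 - i : ℕ) : ℝ) + j))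
            / (m : ℝ) ^ (n + k) : ℝ) : ℂ) - t ^ (n + k)) := by
      rw [pow_add]
      ring
    rw [e]
    refine (norm_sub_le _ _).trans ?_
    refine (add_le_add (norm_add_le _ _) h3).trans ?_
    rw [norm_mul, norm_mul]
    have g1 : ‖XD s m n i - t ^ n‖ * ‖conj (XD s m k i)‖ ≤ C1 / m * (C1 + 1) :=
      mul_le_mul h1 h8 (norm_nonneg _) (by positivity)
    have g2 : ‖t ^ n‖ * ‖conj (XD s m k i) - t ^ k‖ ≤ 1 * (C1 / m) :=
      mul_le_mul h4 h7 (norm_nonneg _) zero_le_one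
    have g3 : (C1 * (C1 + 1) + C1 + C1) / m = C1 / m * (C1 + 1) + 1 * (C1 / m) + C1 / m := by ring
    rw [g3]
    linarith only [g1, g2]
  have h10 := mean_close (fun i => pq (2 + 2 * s.re) (m - 1 - i) * pq (b + 1 - 2 * s.re) i) hw hS
    hwS (fun i => XD s m n i * conj (XD s m k i))
    (fun i => (((∏ j ∈ Finset.range (n + k), (2 + 2 * s.re + ((m - 1 - i : ℕ) : ℝ) + j))
        / (m : ℝ) ^ (n + k) : ℝ) : ℂ)) hP
  -- the exact value
  have hG : (∑ i ∈ Finset.range m,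
        ((pq (2 + 2 * s.re) (m - 1 - i) * pq (b + 1 - 2 * s.re) i : ℝ) : ℂ)
        * (((∏ j ∈ Finset.range (n + k), (2 + 2 * s.re + ((m - 1 - i : ℕ) : ℝ) + j))
        / (m : ℝ) ^ (n + k) : ℝ) : ℂ)) / ((pq (b + 3) (m - 1) : ℝ) : ℂ)
      = ((Gm s b (n + k) * ((∏ j ∈ Finset.range (n + k), ((m : ℝ) + (b + 2 + j)))
        / (m : ℝ) ^ (n + k)) : ℝ) : ℂ) := by
    have g1 : ∑ i ∈ Finset.range m, (pq (2 + 2 * s.re) (m - 1 - i) * pq (b + 1 - 2 * s.re) i)
        * ((∏ j ∈ Finset.range (n + k), (2 + 2 * s.re + ((m - 1 - i : ℕ) : ℝ) + j))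
        / (m : ℝ) ^ (n + k))
        = (∏ j ∈ Finset.range (n + k), (2 + 2 * s.re + j)) * pq (b + 3 + (n + k : ℕ)) (m - 1)
          / (m : ℝ) ^ (n + k) := by
      have g2 := sum_rise (2 + 2 * s.re) (b + 1 - 2 * s.re) (n + k) hm
      rw [hzσ] at g2
      rw [← g2, Finset.sum_div]
      apply Finset.sum_congr rfl
      intro i _
      ring
    have g3 := pq_rise (b + 3) (n + k) (m - 1)
    have g4 : ∏ j ∈ Finset.range (n + k), (b + 3 + ((m - 1 : ℕ) : ℝ) + j)
        = ∏ j ∈ Finset.range (n + k), ((m : ℝ) + (b + 2 + j)) := by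
      apply Finset.prod_congr rfl
      intro j _
      rw [Nat.cast_sub hm]
      push_cast
      ring
    rw [g4] at g3
    have g5 : (∏ j ∈ Finset.range (n + k), (b + 3 + (j : ℝ))) ≠ 0 := by
      apply Finset.prod_ne_zero_iff.mpr
      intro j _
      positivity
    have g6 : Gm s b (n + k) = (∏ j ∈ Finset.range (n + k), (2 + 2 * s.re + j))
        / ∏ j ∈ Finset.range (n + k), (b + 3 + (j : ℝ)) := by
      unfold Gm
      rw [Finset.prod_div_distrib]
      congr 1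
      apply Finset.prod_congr rfl
      intro j _
      ring
    have g7 : (∑ i ∈ Finset.range m, (pq (2 + 2 * s.re) (m - 1 - i) * pq (b + 1 - 2 * s.re) i)
        * ((∏ j ∈ Finset.range (n + k), (2 + 2 * s.re + ((m - 1 - i : ℕ) : ℝ) + j))
        / (m : ℝ) ^ (n + k))) / pq (b + 3) (m - 1)
        = Gm s b (n + k) * ((∏ j ∈ Finset.range (n + k), ((m : ℝ) + (b + 2 + j)))
        / (m : ℝ) ^ (n + k)) := by
      rw [g1, g6, div_eq_iff hS.ne']
      have g8 : (m : ℝ) ^ (n + k) ≠ 0 := pow_ne_zero _ hm0.ne'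
      generalize (∏ j ∈ Finset.range (n + k), (2 + 2 * s.re + (j : ℝ))) = P1 at *
      generalize (∏ j ∈ Finset.range (n + k), (b + 3 + (j : ℝ))) = P2 at *
      generalize (∏ j ∈ Finset.range (n + k), ((m : ℝ) + (b + 2 + j))) = P3 at *
      generalize (m : ℝ) ^ (n + k) = P4 at *
      field_simp
      linear_combination -P1 * g3
    rw [← g7]
    push_cast
    rfl
  rw [hG] at h10
  -- the limit value
  have hGm0 : 0 ≤ Gm s b (n + k) := by
    apply Finset.prod_nonneg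
    intro j _
    apply div_nonneg
    · have : (0 : ℝ) ≤ j := Nat.cast_nonneg j
      linarith only [hz]
    · positivity
  have hGm1 : Gm s b (n + k) ≤ 1 := by
    apply Finset.prod_le_one
    · intro j _
      apply div_nonneg
      · have : (0 : ℝ) ≤ j := Nat.cast_nonneg j
        linarith only [hz]
      · positivity
    · intro j _
      rw [div_le_one (by positivity)]
      linarith only [hσ]
  have hlim : ‖((Gm s b (n + k) * ((∏ j ∈ Finset.range (n + k), ((m : ℝ) + (b + 2 + j)))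
        / (m : ℝ) ^ (n + k)) : ℝ) : ℂ) - (Gm s b (n + k) : ℂ)‖ ≤ C1 / m := by
    have h := key m hm (m : ℝ) hm0.le le_rfl (n + k) (by omega)
      (fun j => ((b + 2 + j : ℝ) : ℂ)) (fun j hj => by
        have h3 : (j : ℝ) ≤ 2 * N := by exact_mod_cast (by omega : j ≤ 2 * N)
        rw [Complex.norm_real, Real.norm_of_nonneg (by positivity), hA]
        linarith only [hb1, h3])
    rw [div_self hm0.ne', Complex.ofReal_one, one_pow] at h
    have e : ((Gm s b (n + k) * ((∏ j ∈ Finset.range (n + k), ((m : ℝ) + (b + 2 + j)))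
        / (m : ℝ) ^ (n + k)) : ℝ) : ℂ) - (Gm s b (n + k) : ℂ)
        = (Gm s b (n + k) : ℂ) * ((∏ j ∈ Finset.range (n + k),
          (((m : ℝ) : ℂ) + ((b + 2 + j : ℝ) : ℂ))) / (m : ℂ) ^ (n + k) - 1) := by
      push_cast
      ring
    rw [e, norm_mul, Complex.norm_real, Real.norm_of_nonneg hGm0]
    calc Gm s b (n + k) * _ ≤ 1 * (C1 / m) := mul_le_mul hGm1 h (norm_nonneg _) zero_le_one
      _ = C1 / m := one_mul _
  have h11 := norm_sub_le_norm_sub_add_norm_sub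
    ((∑ i ∈ Finset.range m, ((pq (2 + 2 * s.re) (m - 1 - i) * pq (b + 1 - 2 * s.re) i : ℝ) : ℂ)
          * (XD s m n i * conj (XD s m k i))) / ((pq (b + 3) (m - 1) : ℝ) : ℂ))
    ((Gm s b (n + k) * ((∏ j ∈ Finset.range (n + k), ((m : ℝ) + (b + 2 + j)))
        / (m : ℝ) ^ (n + k)) : ℝ) : ℂ)
    ((Gm s b (n + k) : ℝ) : ℂ)
  have e9 : (C1 * (C1 + 1) + C1 + C1 + C1) / (m : ℝ)
      = (C1 * (C1 + 1) + C1 + C1) / m + C1 / m := by ring
  rw [e9]
  refine h11.trans (add_le_add h10 hlim)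

end Pool.Agent.M16.Helper24.HR2

end

section

set_option autoImplicit false

open Filter Topology Finset

open scoped ComplexConjugate

namespace Pool.Agent.M16.Helper37.PFS

open Pool.Agent.M16.Helper24.HR2

open Pool.Agent.M16.Helper22.Half

/-- the functionals -/
noncomputable def Phi (s : ℂ) (d : ℕ → ℂ) (m n : ℕ) : ℂ :=
  ∑ i ∈ range m, XD s m n i * UD s d m i

theorem XD_zero (s : ℂ) (m i : ℕ) : XD s m 0 i = 1 := by
  simp [XD]

theorem one_add_ne {s : ℂ} (hs : ‖s‖ < 1) : (1 + s) ≠ 0 := by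
  intro h
  have h2 : s = -1 := by linear_combination h
  rw [h2] at hs
  simp at hs

theorem nat_sub_ne {s : ℂ} (hs : ‖s‖ < 1) (k : ℕ) : (((k + 1 : ℕ) : ℂ) - s) ≠ 0 := by
  intro h
  have h2 : s = ((k + 1 : ℕ) : ℂ) := by linear_combination -h
  rw [h2, Complex.norm_natCast] at hs
  push_cast at hs
  have : (0 : ℝ) ≤ k := Nat.cast_nonneg k
  linarith

theorem Vd_eq {s : ℂ} (hs : ‖s‖ < 1) {m : ℕ} (hm : 1 ≤ m) {d : ℕ → ℂ}
    (hd : ∀ l ≤ m, d l = d (m - l)) (j : ℕ) :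
    Vd s d m (m + 1 + j) = ((1 + s) * pq (-s) (m + 1 + j)) * ((m : ℂ)⁻¹
      * ∑ i ∈ range m, UD s d m i * (2 / (1 + s) + kD s m i j)) := by
  have hm0 : (m : ℂ) ≠ 0 := by
    have : m ≠ 0 := by omega
    exact_mod_cast this
  have h1s := one_add_ne hs
  have hV := V_formula s d m (j + 1) hm h1s hd (fun k => by
    have := nat_sub_ne hs (j + k)
    have e : j + k + 1 = j + 1 + k := by ring
    rwa [e] at this)
  have e : m + (j + 1) = m + 1 + j := by ring
  rw [e] at hV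
  rw [hV, Finset.mul_sum, Finset.mul_sum, Finset.mul_sum]
  apply Finset.sum_congr rfl
  intro i hi
  rw [Finset.mem_range] at hi
  have h3 := pq_shift (1 + s) (m - 1 - i)
  have e1 : m - 1 - i + 1 = m - i := by omega
  rw [e1] at h3
  have e2 : (((m - 1 - i : ℕ) : ℂ) + 1) = ((m - i : ℕ) : ℂ) := by
    have : m - i = (m - 1 - i) + 1 := by omega
    rw [this]
    push_cast
    ring
  rw [e2] at h3
  have e3 : (1 + s + 1 : ℂ) = s + 2 := by ring
  rw [e3] at h3
  have h4 : (((j + 1 + i : ℕ) : ℂ) - s) ≠ 0 := by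
    have := nat_sub_ne hs (j + i)
    have e : j + i + 1 = j + 1 + i := by ring
    rwa [e] at this
  rw [h3]
  unfold UD kD
  field_simp

theorem inner_eq (s : ℂ) (D : ℕ) (p : ℕ → ℕ → ℝ) (m : ℕ) (d : ℕ → ℂ) (j : ℕ) :
    ∑ i ∈ range m, UD s d m i * (2 / (1 + s) + kD s m i j)
      = (∑ l ∈ range (D + 1), FF s D p (Phi s d m) l * (YD m j : ℂ) ^ l)
        + ∑ i ∈ range m, UD s d m i * rD s D p m i j := by
  rw [Finset.sum_range_succ']
  have e0 : FF s D p (Phi s d m) 0 = 2 / (1 + s) * ∑ i ∈ range m, UD s d m i := by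
    simp only [FF, Phi, XD_zero, one_mul]
  have e1 : ∑ l ∈ range D, FF s D p (Phi s d m) (l + 1) * (YD m j : ℂ) ^ (l + 1)
      = ∑ i ∈ range m, UD s d m i * ∑ n ∈ range D, ∑ l ∈ range D,
        (p n l : ℂ) * XD s m n i * (YD m j : ℂ) ^ (l + 1) := by
    have h1 : ∑ l ∈ range D, FF s D p (Phi s d m) (l + 1) * (YD m j : ℂ) ^ (l + 1)
        = ∑ l ∈ range D, ∑ n ∈ range D, ∑ i ∈ range m,
          UD s d m i * ((p n l : ℂ) * XD s m n i * (YD m j : ℂ) ^ (l + 1)) := by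
      apply Finset.sum_congr rfl
      intro l _
      simp only [FF, Phi]
      rw [Finset.sum_mul]
      apply Finset.sum_congr rfl
      intro n _
      rw [Finset.mul_sum, Finset.sum_mul]
      apply Finset.sum_congr rfl
      intro i _
      ring
    have h2 : ∑ i ∈ range m, UD s d m i * ∑ n ∈ range D, ∑ l ∈ range D,
        (p n l : ℂ) * XD s m n i * (YD m j : ℂ) ^ (l + 1)
        = ∑ i ∈ range m, ∑ n ∈ range D, ∑ l ∈ range D,
          UD s d m i * ((p n l : ℂ) * XD s m n i * (YD m j : ℂ) ^ (l + 1)) := by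
      apply Finset.sum_congr rfl
      intro i _
      rw [Finset.mul_sum]
      apply Finset.sum_congr rfl
      intro n _
      rw [Finset.mul_sum]
    rw [h1, h2]
    calc ∑ l ∈ range D, ∑ n ∈ range D, ∑ i ∈ range m,
          UD s d m i * ((p n l : ℂ) * XD s m n i * (YD m j : ℂ) ^ (l + 1))
        = ∑ n ∈ range D, ∑ l ∈ range D, ∑ i ∈ range m,
          UD s d m i * ((p n l : ℂ) * XD s m n i * (YD m j : ℂ) ^ (l + 1)) := Finset.sum_comm
      _ = ∑ n ∈ range D, ∑ i ∈ range m, ∑ l ∈ range D,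
          UD s d m i * ((p n l : ℂ) * XD s m n i * (YD m j : ℂ) ^ (l + 1)) :=
        Finset.sum_congr rfl (fun n _ => Finset.sum_comm)
      _ = ∑ i ∈ range m, ∑ n ∈ range D, ∑ l ∈ range D,
          UD s d m i * ((p n l : ℂ) * XD s m n i * (YD m j : ℂ) ^ (l + 1)) := Finset.sum_comm
  rw [e0, e1, pow_zero, mul_one, Finset.mul_sum, ← Finset.sum_add_distrib,
    ← Finset.sum_add_distrib]
  apply Finset.sum_congr rfl
  intro i _
  unfold rD
  ring

theorem Nf_eq {s : ℂ} (hs : ‖s‖ < 1) (b : ℝ) (D : ℕ) (p : ℕ → ℕ → ℝ) {m : ℕ} (hm : 1 ≤ m)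
    {d : ℕ → ℂ} (hd : ∀ l ≤ m, d l = d (m - l)) (J : ℕ) :
    Nf s b d m J = ∑ j ∈ range J, (bD s b m j / (m : ℝ) ^ 2)
      * ‖(∑ l ∈ range (D + 1), FF s D p (Phi s d m) l * (YD m j : ℂ) ^ l)
        + ∑ i ∈ range m, UD s d m i * rD s D p m i j‖ ^ 2 := by
  unfold Nf
  apply Finset.sum_congr rfl
  intro j _
  rw [Vd_eq hs hm hd j, inner_eq s D p m d j, norm_mul, norm_mul _⁻¹, norm_inv,
    Complex.norm_natCast]
  unfold bD
  ring

/-- `FF` is homogeneous -/
theorem FF_smul (s : ℂ) (D : ℕ) (p : ℕ → ℕ → ℝ) (μ : ℕ → ℂ) (c : ℂ) (l : ℕ) :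
    FF s D p (fun n => c * μ n) l = c * FF s D p μ l := by
  cases l with
  | zero => simp only [FF]; ring
  | succ l =>
    simp only [FF]
    rw [Finset.mul_sum]
    apply Finset.sum_congr rfl
    intro n _
    ring

end Pool.Agent.M16.Helper37.PFS

end

section

set_option autoImplicit false

open Filter Topology Finset

open scoped ComplexConjugate

namespace Pool.Agent.M16.Helper37.PFS

open Pool.Agent.M16.Helper24.HR2

open Pool.Agent.M16.Helper22.Half

/-- sums over the column index -/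
noncomputable def Sd (s : ℂ) (b : ℝ) (D : ℕ) (p : ℕ → ℕ → ℝ) (m l i : ℕ) : ℂ :=
  ∑' j, (bD s b m j : ℂ) * (YD m j : ℂ) ^ l * rD s D p m i j

/-- discrete Gram matrix -/
noncomputable def Gd (s : ℂ) (b : ℝ) (m n k : ℕ) : ℂ :=
  (∑ i ∈ range m, ((pq (2 + 2 * s.re) (m - 1 - i) * pq (b + 1 - 2 * s.re) i : ℝ) : ℂ)
    * (XD s m n i * conj (XD s m k i))) / (pq (b + 3) (m - 1) : ℝ)

/-- discrete moments of the column densities -/
noncomputable def Ad (s : ℂ) (b : ℝ) (m l : ℕ) : ℝ :=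
  KS s * pq (b + 3) (m - 1) / (m : ℝ) ^ 2 * ∑' j, bD s b m j * YD m j ^ l

/-- discrete cross moments -/
noncomputable def Xd (s : ℂ) (b : ℝ) (D : ℕ) (p : ℕ → ℕ → ℝ) (m l n : ℕ) : ℂ :=
  (1 / (m : ℂ) ^ 2) * ∑ i ∈ Finset.range m,
      (aD s b m i : ℂ) * conj (XD s m n i) * Sd s b D p m l i

/-- discrete Gram matrix of the cross functions -/
noncomputable def Cd (s : ℂ) (b : ℝ) (D : ℕ) (p : ℕ → ℕ → ℝ) (m l k : ℕ) : ℂ :=
  ((KS s * pq (b + 3) (m - 1) / (m : ℝ) ^ 4 : ℝ) : ℂ)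
      * ∑ i ∈ Finset.range m, (aD s b m i : ℂ)
        * (Sd s b D p m l i * conj (Sd s b D p m k i))

/-- the normalised functionals -/
noncomputable def ph (s : ℂ) (d : ℕ → ℂ) (m n : ℕ) : ℂ := Phi s d m n / m

theorem aD_pos {s : ℂ} (hs : ‖s‖ < 1) {b : ℝ} (hσ : 0 < b + 1 - 2 * s.re) (m i : ℕ) :
    0 < aD s b m i := by
  have hr : -1 < s.re := by
    have := Complex.abs_re_le_norm s
    have := neg_abs_le s.re
    linarith
  have h1 := kap_ge_one hr (by positivity : 0 ≤ ‖s‖ ^ 2) (m - 1 - i)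
  have h2 := pq_pos (z := 2 + 2 * s.re) (by linarith only [hr]) (m - 1 - i)
  have h3 := pq_pos hσ i
  unfold aD
  have h0 : 0 < kap s.re (‖s‖ ^ 2) (m - 1 - i) := by linarith
  positivity

theorem bD_nonneg {s : ℂ} {b : ℝ} (hσ : 0 < b + 1 - 2 * s.re) (m j : ℕ) :
    0 ≤ bD s b m j := by
  have h3 := pq_pos hσ (m + 1 + j)
  unfold bD
  positivity

/-- squares of sums, complex form -/
theorem nsq_sum' (L : Finset ℕ) (x : ℕ → ℂ) :
    ((‖∑ l ∈ L, x l‖ ^ 2 : ℝ) : ℂ) = ∑ l ∈ L, ∑ k ∈ L, x l * conj (x k) := by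
  rw [← Complex.normSq_eq_norm_sq, ← Complex.mul_conj, map_sum, Finset.sum_mul_sum]

theorem wsum_sq (I L : Finset ℕ) (a : ℕ → ℝ) (x : ℕ → ℕ → ℂ) :
    ∑ i ∈ I, a i * ‖∑ l ∈ L, x l i‖ ^ 2
      = (∑ l ∈ L, ∑ k ∈ L, ∑ i ∈ I, (a i : ℂ) * (x l i * conj (x k i))).re := by
  have h : ((∑ i ∈ I, a i * ‖∑ l ∈ L, x l i‖ ^ 2 : ℝ) : ℂ)
      = ∑ l ∈ L, ∑ k ∈ L, ∑ i ∈ I, (a i : ℂ) * (x l i * conj (x k i)) := by
    push_cast
    have e : ∀ i ∈ I, (a i : ℂ) * (‖∑ l ∈ L, x l i‖ : ℂ) ^ 2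
        = ∑ l ∈ L, ∑ k ∈ L, (a i : ℂ) * (x l i * conj (x k i)) := by
      intro i _
      have := nsq_sum' L (fun l => x l i)
      push_cast at this
      rw [this, Finset.mul_sum]
      apply Finset.sum_congr rfl
      intro l _
      rw [Finset.mul_sum]
    rw [Finset.sum_congr rfl e, Finset.sum_comm]
    apply Finset.sum_congr rfl
    intro l _
    rw [Finset.sum_comm]
  have h2 := congrArg Complex.re h
  rw [Complex.ofReal_re] at h2
  exact h2

theorem ph_eq (s : ℂ) (d : ℕ → ℂ) {m : ℕ} (hm : 1 ≤ m) (n : ℕ) :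
    Phi s d m n = (m : ℂ) * ph s d m n := by
  have hm0 : (m : ℂ) ≠ 0 := by
    have : m ≠ 0 := by omega
    exact_mod_cast this
  unfold ph
  field_simp

theorem FF_Phi (s : ℂ) (D : ℕ) (p : ℕ → ℕ → ℝ) (d : ℕ → ℂ) {m : ℕ} (hm : 1 ≤ m) (l : ℕ) :
    FF s D p (Phi s d m) l = (m : ℂ) * FF s D p (ph s d m) l := by
  rw [← FF_smul]
  congr 1
  funext n
  exact ph_eq s d hm n

/-- the linear term -/
theorem term1 (s : ℂ) (N : ℕ) {m : ℕ} (hm : 1 ≤ m) (d y : ℕ → ℂ) (k0 : ℝ) :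
    2 * (∑ i ∈ range m, conj (((m / k0 : ℝ) : ℂ) * ∑ n ∈ range N, y n * conj (XD s m n i))
        * UD s d m i).re
      = (m : ℝ) ^ 2 / k0 * (2 * (∑ n ∈ range N, conj (y n) * ph s d m n).re) := by
  have h : ∑ i ∈ range m, conj (((m / k0 : ℝ) : ℂ) * ∑ n ∈ range N, y n * conj (XD s m n i))
        * UD s d m i = (((m : ℝ) ^ 2 / k0 : ℝ) : ℂ) * ∑ n ∈ range N, conj (y n) * ph s d m n := by
    have e1 : ∀ i ∈ range m, conj (((m / k0 : ℝ) : ℂ) * ∑ n ∈ range N, y n * conj (XD s m n i))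
        * UD s d m i = ∑ n ∈ range N, ((m / k0 : ℝ) : ℂ) * (conj (y n)
          * (XD s m n i * UD s d m i)) := by
      intro i _
      rw [map_mul, Complex.conj_ofReal, map_sum, mul_assoc, Finset.sum_mul, Finset.mul_sum]
      apply Finset.sum_congr rfl
      intro n _
      rw [map_mul, Complex.conj_conj]
      ring
    rw [Finset.sum_congr rfl e1, Finset.sum_comm, Finset.mul_sum]
    apply Finset.sum_congr rfl
    intro n _
    rw [← Finset.mul_sum, ← Finset.mul_sum]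
    have e2 := ph_eq s d hm n
    unfold Phi at e2
    rw [e2]
    push_cast
    ring
  rw [h, Complex.re_ofReal_mul]
  ring

/-- the quadratic term in the test vector -/
theorem term2 {s : ℂ} (hs : ‖s‖ < 1) {b : ℝ} (hb : 0 < b) (hσ : 0 < b + 1 - 2 * s.re) (N : ℕ)
    {m : ℕ} (hm : 1 ≤ m) (y : ℕ → ℂ) :
    ∑ i ∈ range m, aD s b m i * ‖((m / (KS s * pq (b + 3) (m - 1)) : ℝ) : ℂ)
        * ∑ n ∈ range N, y n * conj (XD s m n i)‖ ^ 2
      ≤ (m : ℝ) ^ 2 / (KS s * pq (b + 3) (m - 1))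
        * (∑ n ∈ range N, ∑ k ∈ range N, y n * conj (y k) * Gd s b m k n).re := by
  have hKS := KS_facts hs
  have hK0 : 0 < KS s := by linarith only [hKS]
  have hS0 := pq_pos (z := b + 3) (by linarith) (m - 1)
  have hr : -1 < s.re := by
    have := Complex.abs_re_le_norm s
    have := neg_abs_le s.re
    linarith
  have hm0 : (0 : ℝ) < m := by exact_mod_cast hm
  set S0 := pq (b + 3) (m - 1) with hS0d
  set W : ℕ → ℝ := fun i => pq (2 + 2 * s.re) (m - 1 - i) * pq (b + 1 - 2 * s.re) i with hW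
  have hWp : ∀ i, 0 < W i := fun i =>
    mul_pos (pq_pos (z := 2 + 2 * s.re) (by linarith only [hr]) _) (pq_pos hσ i)
  have haW : ∀ i, aD s b m i ≤ KS s * W i := by
    intro i
    have h1 := mul_le_mul_of_nonneg_right (hKS.2.1 (m - 1 - i)) (hWp i).le
    refine le_trans (le_of_eq ?_) h1
    simp only [aD, hW]
    ring
  have h2 : ∑ i ∈ range m, W i * ‖∑ n ∈ range N, y n * conj (XD s m n i)‖ ^ 2
      = S0 * (∑ n ∈ range N, ∑ k ∈ range N, y n * conj (y k) * Gd s b m k n).re := by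
    have e := wsum_sq (range m) (range N) W (fun n i => y n * conj (XD s m n i))
    rw [e, ← Complex.re_ofReal_mul, Finset.mul_sum]
    congr 1
    apply Finset.sum_congr rfl
    intro n _
    rw [Finset.mul_sum]
    apply Finset.sum_congr rfl
    intro k _
    unfold Gd
    rw [← hS0d]
    have hS0c : (S0 : ℂ) ≠ 0 := by exact_mod_cast hS0.ne'
    have e3 : (S0 : ℂ) * (y n * conj (y k) * ((∑ i ∈ range m,
        ((pq (2 + 2 * s.re) (m - 1 - i) * pq (b + 1 - 2 * s.re) i : ℝ) : ℂ)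
          * (XD s m k i * conj (XD s m n i))) / (S0 : ℂ)))
        = y n * conj (y k) * ∑ i ∈ range m,
          ((pq (2 + 2 * s.re) (m - 1 - i) * pq (b + 1 - 2 * s.re) i : ℝ) : ℂ)
          * (XD s m k i * conj (XD s m n i)) := by
      field_simp
    rw [e3, Finset.mul_sum]
    apply Finset.sum_congr rfl
    intro i _
    simp only [hW]
    rw [map_mul, Complex.conj_conj]
    ring
  have h3 : ∑ i ∈ range m, aD s b m i * ‖((m / (KS s * S0) : ℝ) : ℂ)
        * ∑ n ∈ range N, y n * conj (XD s m n i)‖ ^ 2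
      ≤ (m / (KS s * S0)) ^ 2 * (KS s * ∑ i ∈ range m, W i
          * ‖∑ n ∈ range N, y n * conj (XD s m n i)‖ ^ 2) := by
    rw [Finset.mul_sum, Finset.mul_sum]
    apply Finset.sum_le_sum
    intro i _
    rw [norm_mul, Complex.norm_real, Real.norm_of_nonneg (by positivity), mul_pow]
    have h4 := mul_le_mul_of_nonneg_right (haW i)
      (by positivity : 0 ≤ (m / (KS s * S0)) ^ 2
        * ‖∑ n ∈ range N, y n * conj (XD s m n i)‖ ^ 2)
    refine h4.trans (le_of_eq ?_)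
    ring
  refine h3.trans (le_of_eq ?_)
  rw [h2]
  field_simp

/-- the polynomial part -/
theorem term3 {s : ℂ} (hs : ‖s‖ < 1) {b : ℝ} (hb : 0 < b) (D : ℕ) (p : ℕ → ℕ → ℝ)
    {m : ℕ} (hm : 1 ≤ m) (d : ℕ → ℂ) :
    ∑ l ∈ range (D + 1), ∑ k ∈ range (D + 1),
        (FF s D p (Phi s d m) l * conj (FF s D p (Phi s d m) k)).re
          * ((∑' j, bD s b m j * YD m j ^ (l + k)) / (m : ℝ) ^ 2)
      = (m : ℝ) ^ 2 / (KS s * pq (b + 3) (m - 1))
        * ∑ l ∈ range (D + 1), ∑ k ∈ range (D + 1),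
        (FF s D p (ph s d m) l * conj (FF s D p (ph s d m) k)).re * Ad s b m (l + k) := by
  have hKS := KS_facts hs
  have hK0 : 0 < KS s := by linarith only [hKS]
  have hS0 := pq_pos (z := b + 3) (by linarith only [hb]) (m - 1)
  have hm0 : (0 : ℝ) < m := by exact_mod_cast hm
  rw [Finset.mul_sum]
  apply Finset.sum_congr rfl
  intro l _
  rw [Finset.mul_sum]
  apply Finset.sum_congr rfl
  intro k _
  rw [FF_Phi s D p d hm, FF_Phi s D p d hm]
  have e : (m : ℂ) * FF s D p (ph s d m) l * conj ((m : ℂ) * FF s D p (ph s d m) k)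
      = (((m : ℝ) ^ 2 : ℝ) : ℂ) * (FF s D p (ph s d m) l * conj (FF s D p (ph s d m) k)) := by
    rw [map_mul, Complex.conj_natCast]
    push_cast
    ring
  rw [e, Complex.re_ofReal_mul]
  unfold Ad
  field_simp

/-- the cross term with the test vector -/
theorem term4 {s : ℂ} (hs : ‖s‖ < 1) {b : ℝ} (hb : 0 < b) (D N : ℕ) (p : ℕ → ℕ → ℝ)
    {m : ℕ} (hm : 1 ≤ m) (d y : ℕ → ℂ) :
    2 * (∑ l ∈ range (D + 1), conj (FF s D p (Phi s d m) l)
        * ∑ i ∈ range m, ((aD s b m i : ℂ) * (((m / (KS s * pq (b + 3) (m - 1)) : ℝ) : ℂ)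
        * ∑ n ∈ range N, y n * conj (XD s m n i))) * (Sd s b D p m l i / (m : ℂ) ^ 2)).re
      = (m : ℝ) ^ 2 / (KS s * pq (b + 3) (m - 1))
        * (2 * (∑ l ∈ range (D + 1), ∑ n ∈ range N,
        conj (FF s D p (ph s d m) l) * y n * Xd s b D p m l n).re) := by
  have hKS := KS_facts hs
  have hK0 : 0 < KS s := by linarith [hKS.1]
  have hS0 := pq_pos (z := b + 3) (by linarith only [hb]) (m - 1)
  have hm0 : (0 : ℝ) < m := by exact_mod_cast hm
  have hmc : (m : ℂ) ≠ 0 := by exact_mod_cast hm0.ne'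
  have hKc : (KS s : ℂ) ≠ 0 := by exact_mod_cast hK0.ne'
  have hSc : ((pq (b + 3) (m - 1) : ℝ) : ℂ) ≠ 0 := by exact_mod_cast hS0.ne'
  have h : ∑ l ∈ range (D + 1), conj (FF s D p (Phi s d m) l)
        * ∑ i ∈ range m, ((aD s b m i : ℂ) * (((m / (KS s * pq (b + 3) (m - 1)) : ℝ) : ℂ)
        * ∑ n ∈ range N, y n * conj (XD s m n i))) * (Sd s b D p m l i / (m : ℂ) ^ 2)
      = (((m : ℝ) ^ 2 / (KS s * pq (b + 3) (m - 1)) : ℝ) : ℂ)
        * ∑ l ∈ range (D + 1), ∑ n ∈ range N,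
        conj (FF s D p (ph s d m) l) * y n * Xd s b D p m l n := by
    rw [Finset.mul_sum]
    apply Finset.sum_congr rfl
    intro l _
    rw [FF_Phi s D p d hm, map_mul, Complex.conj_natCast]
    have e1 : ∀ i ∈ range m, ((aD s b m i : ℂ)
        * (((m / (KS s * pq (b + 3) (m - 1)) : ℝ) : ℂ)
        * ∑ n ∈ range N, y n * conj (XD s m n i))) * (Sd s b D p m l i / (m : ℂ) ^ 2)
        = ∑ n ∈ range N, (((m / (KS s * pq (b + 3) (m - 1)) : ℝ) : ℂ) / (m : ℂ) ^ 2 * y n)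
          * ((aD s b m i : ℂ) * conj (XD s m n i) * Sd s b D p m l i) := by
      intro i _
      rw [Finset.mul_sum, Finset.mul_sum, Finset.sum_mul]
      apply Finset.sum_congr rfl
      intro n _
      ring
    rw [Finset.sum_congr rfl e1, Finset.sum_comm, Finset.mul_sum, Finset.mul_sum]
    apply Finset.sum_congr rfl
    intro n _
    rw [← Finset.mul_sum]
    unfold Xd
    push_cast
    field_simp
  rw [h, Complex.re_ofReal_mul]
  ring

/-- the Gram term of the cross functions -/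
theorem term5 {s : ℂ} (hs : ‖s‖ < 1) {b : ℝ} (hb : 0 < b) (D : ℕ) (p : ℕ → ℕ → ℝ)
    {m : ℕ} (hm : 1 ≤ m) (d : ℕ → ℂ) :
    ∑ i ∈ range m, aD s b m i * ‖∑ l ∈ range (D + 1), conj (FF s D p (Phi s d m) l)
        * (Sd s b D p m l i / (m : ℂ) ^ 2)‖ ^ 2
      = (m : ℝ) ^ 2 / (KS s * pq (b + 3) (m - 1))
        * (∑ l ∈ range (D + 1), ∑ k ∈ range (D + 1),
        conj (FF s D p (ph s d m) l) * FF s D p (ph s d m) k * Cd s b D p m l k).re := by
  have hKS := KS_facts hs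
  have hK0 : 0 < KS s := by linarith [hKS.1]
  have hS0 := pq_pos (z := b + 3) (by linarith only [hb]) (m - 1)
  have hm0 : (0 : ℝ) < m := by exact_mod_cast hm
  have hmc : (m : ℂ) ≠ 0 := by exact_mod_cast hm0.ne'
  have hKc : (KS s : ℂ) ≠ 0 := by exact_mod_cast hK0.ne'
  have hSc : ((pq (b + 3) (m - 1) : ℝ) : ℂ) ≠ 0 := by exact_mod_cast hS0.ne'
  rw [wsum_sq (range m) (range (D + 1)) (aD s b m)
    (fun l i => conj (FF s D p (Phi s d m) l) * (Sd s b D p m l i / (m : ℂ) ^ 2)),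
    ← Complex.re_ofReal_mul, Finset.mul_sum]
  congr 1
  apply Finset.sum_congr rfl
  intro l _
  rw [Finset.mul_sum]
  apply Finset.sum_congr rfl
  intro k _
  rw [FF_Phi s D p d hm, FF_Phi s D p d hm]
  have e1 : ∀ i ∈ range m, (aD s b m i : ℂ) * (conj ((m : ℂ) * FF s D p (ph s d m) l)
      * (Sd s b D p m l i / (m : ℂ) ^ 2)
      * conj (conj ((m : ℂ) * FF s D p (ph s d m) k) * (Sd s b D p m k i / (m : ℂ) ^ 2)))
      = (conj (FF s D p (ph s d m) l) * FF s D p (ph s d m) k / (m : ℂ) ^ 2)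
        * ((aD s b m i : ℂ) * (Sd s b D p m l i * conj (Sd s b D p m k i))) := by
    intro i _
    simp only [map_mul, map_div₀, map_pow, Complex.conj_natCast, Complex.conj_conj]
    field_simp
  rw [Finset.sum_congr rfl e1, ← Finset.mul_sum]
  unfold Cd
  push_cast
  field_simp

end Pool.Agent.M16.Helper37.PFS

end

section

set_option autoImplicit false

open MeasureTheory Set Metric Filter Topology

open scoped Real ComplexConjugate

namespace Pool.Agent.M16.Helper24.HR2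

open Pool.Agent.M16.Helper22.Half

open Pool.Agent.M16.Helper39.MH

/-- the moments at the end point -/
noncomputable def mend (d : ℕ → ℂ) (m i : ℕ) : ℂ :=
  ∑ l ∈ Finset.range (m + 1), d l * (((m - l : ℕ) : ℂ) / m) ^ i

/-- the mixed rising moments -/
noncomputable def mris (d : ℕ → ℂ) (m i j : ℕ) : ℂ :=
  ∑ l ∈ Finset.range (m + 1), d l * ((((m - l : ℕ) : ℂ) / m) ^ i
    * ∏ k ∈ Finset.range j, ((((m - l : ℕ) : ℂ) + k) / m))

theorem mris_zero (d : ℕ → ℂ) (m i : ℕ) : mris d m i 0 = mend d m i := by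
  simp [mris, mend]

theorem mris_succ (d : ℕ → ℂ) (m i j : ℕ) :
    mris d m i (j + 1) = mris d m (i + 1) j + (j : ℂ) / m * mris d m i j := by
  unfold mris
  rw [Finset.mul_sum, ← Finset.sum_add_distrib]
  apply Finset.sum_congr rfl
  intro l _
  rw [Finset.prod_range_succ, pow_succ]
  ring

/-- odd central moments vanish -/
theorem odd_zero {d : ℕ → ℂ} {m : ℕ} (hd : ∀ l ≤ m, d l = d (m - l)) (r : ℕ) :
    ∑ l ∈ Finset.range (m + 1), d l * (((m : ℂ) / 2 - l) / m) ^ (2 * r + 1) = 0 := by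
  have h : ∑ l ∈ Finset.range (m + 1), d l * (((m : ℂ) / 2 - l) / m) ^ (2 * r + 1)
      = -∑ l ∈ Finset.range (m + 1), d l * (((m : ℂ) / 2 - l) / m) ^ (2 * r + 1) := by
    conv_lhs => rw [← Finset.sum_range_reflect]
    rw [← Finset.sum_neg_distrib]
    apply Finset.sum_congr rfl
    intro l hl
    rw [Finset.mem_range] at hl
    have e1 : m + 1 - 1 - l = m - l := by omega
    rw [e1, ← hd l (by omega), Nat.cast_sub (by omega)]
    have e2 : ((m : ℂ) / 2 - ((m : ℂ) - l)) / m = -(((m : ℂ) / 2 - l) / m) := by ring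
    rw [e2, Odd.neg_pow ⟨r, rfl⟩]
    ring
  have h2 : (2 : ℂ) * ∑ l ∈ Finset.range (m + 1), d l * (((m : ℂ) / 2 - l) / m) ^ (2 * r + 1)
      = 0 := by linear_combination h
  exact (mul_eq_zero.mp h2).resolve_left two_ne_zero

theorem even_vS {d : ℕ → ℂ} {m : ℕ} (r : ℕ) :
    ∑ l ∈ Finset.range (m + 1), d l * (((m : ℂ) / 2 - l) / m) ^ (2 * r) = vS d m r := by
  unfold vS
  rw [Finset.sum_div]
  apply Finset.sum_congr rfl
  intro l _
  rw [div_pow, mul_div_assoc]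
  congr 2
  rw [pow_mul, pow_mul]
  congr 1
  ring

/-- splitting a sum into even and odd indices -/
theorem sum_even_odd (f : ℕ → ℂ) (K : ℕ) :
    ∑ k ∈ Finset.range (2 * K), f k
      = ∑ r ∈ Finset.range K, (f (2 * r) + f (2 * r + 1)) := by
  induction K with
  | zero => simp
  | succ K ih =>
    rw [Finset.sum_range_succ, ← ih]
    have : 2 * (K + 1) = 2 * K + 1 + 1 := by ring
    rw [this, Finset.sum_range_succ, Finset.sum_range_succ]
    ring

/-- moments at the end point by the central moments -/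
theorem mend_eq {d : ℕ → ℂ} {m : ℕ} (hm : 1 ≤ m) (hd : ∀ l ≤ m, d l = d (m - l)) {K i : ℕ}
    (hi : i < 2 * K) :
    mend d m i = ∑ r ∈ Finset.range K,
      (Nat.choose i (2 * r) : ℂ) * (1 / 2) ^ (i - 2 * r) * vS d m r := by
  have hm0 : (m : ℂ) ≠ 0 := by
    have : m ≠ 0 := by omega
    exact_mod_cast this
  have h1 : mend d m i = ∑ k ∈ Finset.range (2 * K), (Nat.choose i k : ℂ) * (1 / 2) ^ (i - k)
      * ∑ l ∈ Finset.range (m + 1), d l * (((m : ℂ) / 2 - l) / m) ^ k := by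
    unfold mend
    simp_rw [Finset.mul_sum]
    rw [Finset.sum_comm]
    apply Finset.sum_congr rfl
    intro l hl
    rw [Finset.mem_range] at hl
    have e : (((m - l : ℕ) : ℂ) / m) = ((m : ℂ) / 2 - l) / m + 1 / 2 := by
      rw [Nat.cast_sub (by omega)]
      field_simp
      ring
    rw [e, add_pow, Finset.mul_sum]
    have h2 : Finset.range (i + 1) ⊆ Finset.range (2 * K) := by
      apply Finset.range_subset_range.mpr
      omega
    rw [← Finset.sum_subset h2]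
    · apply Finset.sum_congr rfl
      intro k _
      ring
    · intro k _ hk
      rw [Finset.mem_range, not_lt] at hk
      rw [Nat.choose_eq_zero_of_lt (by omega)]
      simp
  rw [h1, sum_even_odd]
  apply Finset.sum_congr rfl
  intro r _
  rw [odd_zero hd, even_vS]
  ring

theorem mend_le {d : ℕ → ℂ} {m : ℕ} (hm : 1 ≤ m) (hd : ∀ l ≤ m, d l = d (m - l)) {K i : ℕ}
    (hi : i < 2 * K) :
    ‖mend d m i‖ ≤ 2 ^ (2 * K) * ∑ r ∈ Finset.range K, ‖vS d m r‖ := by
  rw [mend_eq hm hd hi, Finset.mul_sum]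
  refine (norm_sum_le _ _).trans (Finset.sum_le_sum ?_)
  intro r _
  rw [norm_mul, norm_mul, norm_pow]
  have h1 : ‖(Nat.choose i (2 * r) : ℂ)‖ ≤ 2 ^ (2 * K) := by
    rw [Complex.norm_natCast]
    have h2 : Nat.choose i (2 * r) ≤ 2 ^ i := Nat.choose_le_two_pow _ _
    have h3 : (2 : ℕ) ^ i ≤ 2 ^ (2 * K) := Nat.pow_le_pow_right (by norm_num) (by omega)
    exact_mod_cast h2.trans h3
  have h2 : ‖(1 / 2 : ℂ)‖ ^ (i - 2 * r) ≤ 1 := by
    apply pow_le_one₀ (norm_nonneg _)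
    norm_num
  have h3 : (0 : ℝ) ≤ ‖(Nat.choose i (2 * r) : ℂ)‖ := norm_nonneg _
  have h4 : (0 : ℝ) ≤ ‖(1 / 2 : ℂ)‖ ^ (i - 2 * r) := by positivity
  have h5 : ‖(Nat.choose i (2 * r) : ℂ)‖ * ‖(1 / 2 : ℂ)‖ ^ (i - 2 * r) ≤ 2 ^ (2 * K) := by
    nlinarith only [h1, h2, h3]
  exact mul_le_mul_of_nonneg_right h5 (norm_nonneg _)

theorem mris_eq (K j : ℕ) : ∃ C : ℝ, 0 ≤ C ∧ ∀ i : ℕ, i + j < 2 * K → ∀ m : ℕ, 1 ≤ m →
    ∀ d : ℕ → ℂ, (∀ l ≤ m, d l = d (m - l)) →
      ‖mris d m i j - mend d m (i + j)‖ ≤ C / m * ∑ r ∈ Finset.range K, ‖vS d m r‖ := by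
  induction j with
  | zero =>
    refine ⟨0, le_rfl, ?_⟩
    intro i _ m _ d _
    rw [mris_zero]
    simp
  | succ j ih =>
    obtain ⟨C, hC, h⟩ := ih
    refine ⟨C + j * (2 ^ (2 * K) + C), by positivity, ?_⟩
    intro i hij m hm d hd
    have hmR : (1 : ℝ) ≤ m := by exact_mod_cast hm
    have h1 := h (i + 1) (by omega) m hm d hd
    have h2 := h i (by omega) m hm d hd
    have h3 := mend_le hm hd (K := K) (i := i + j) (by omega)
    set S := ∑ r ∈ Finset.range K, ‖vS d m r‖ with hS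
    have hS0 : 0 ≤ S := Finset.sum_nonneg fun _ _ => norm_nonneg _
    have h4 : ‖mris d m i j‖ ≤ (2 ^ (2 * K) + C) * S := by
      have h5 : ‖mris d m i j‖ ≤ ‖mend d m (i + j)‖ + ‖mris d m i j - mend d m (i + j)‖ := by
        have := norm_add_le (mend d m (i + j)) (mris d m i j - mend d m (i + j))
        rwa [add_sub_cancel] at this
      have h6 : C / m * S ≤ C * S := by
        apply mul_le_mul_of_nonneg_right _ hS0
        exact div_le_self hC hmR
      linarith only [h2, h3, h5, h6]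
    rw [mris_succ]
    have e1 : i + (j + 1) = i + 1 + j := by ring
    rw [e1]
    have e2 : mris d m (i + 1) j + (j : ℂ) / m * mris d m i j - mend d m (i + 1 + j)
        = (mris d m (i + 1) j - mend d m (i + 1 + j)) + (j : ℂ) / m * mris d m i j := by ring
    rw [e2]
    refine (norm_add_le _ _).trans ?_
    rw [norm_mul, norm_div, Complex.norm_natCast, Complex.norm_natCast]
    have h7 : (j : ℝ) / m * ‖mris d m i j‖ ≤ (j : ℝ) / m * ((2 ^ (2 * K) + C) * S) := by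
      apply mul_le_mul_of_nonneg_left h4
      positivity
    refine (add_le_add h1 h7).trans (le_of_eq ?_)
    ring

theorem pq_poch (s : ℂ) (n q : ℕ) :
    (∏ k ∈ Finset.range n, (s + 2 + k + (q : ℂ))) * pq (s + 2) q
      = (∏ k ∈ Finset.range n, (s + 2 + k)) * pq (s + 2 + n) q := by
  induction n with
  | zero => simp
  | succ n ih =>
    rw [Finset.prod_range_succ, Finset.prod_range_succ]
    have h := pq_add_one (s + 2 + n) q
    have e : s + 2 + ((n + 1 : ℕ) : ℂ) = s + 2 + n + 1 := by push_cast; ring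
    rw [e]
    linear_combination (s + 2 + n + q) * ih
      - (∏ k ∈ Finset.range n, (s + 2 + (k : ℂ))) * h

theorem pq_nat (n q : ℕ) :
    (Nat.factorial (n + 1) : ℂ) * pq ((n : ℂ) + 2) q
      = ∏ k ∈ Finset.range (n + 1), ((q : ℂ) + 1 + k) := by
  induction n with
  | zero =>
    have e : ((0 : ℕ) : ℂ) + 2 = 2 := by norm_num
    rw [e, pq_two]
    simp
  | succ n ih =>
    rw [Finset.prod_range_succ, ← ih, Nat.factorial_succ (n + 1)]
    have h := pq_add_one ((n : ℂ) + 2) q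
    have e : ((n + 1 : ℕ) : ℂ) + 2 = (n : ℂ) + 2 + 1 := by push_cast; ring
    rw [e]
    push_cast
    linear_combination (Nat.factorial (n + 1) : ℂ) * h

/-- the convolution -/
theorem conv_d (s : ℂ) (d : ℕ → ℂ) (m n : ℕ) :
    ∑ i ∈ Finset.range m, pq (s + 2 + n) (m - 1 - i) * Vd s d m i
      = ∑ l ∈ Finset.range m, pq ((n : ℂ) + 2) (m - 1 - l) * d l := by
  have h5 := sum_tri (fun l i => pq (s + 2 + n) (m - 1 - i) * pq (-s) (i - l) * d l) m
  have h1 : ∑ i ∈ Finset.range m, pq (s + 2 + n) (m - 1 - i) * Vd s d m i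
      = ∑ i ∈ Finset.range m, ∑ l ∈ Finset.range (i + 1),
        pq (s + 2 + n) (m - 1 - i) * pq (-s) (i - l) * d l := by
    apply Finset.sum_congr rfl
    intro i hi
    rw [Finset.mem_range] at hi
    unfold Vd
    have e : min i m = i := by omega
    rw [e, Finset.mul_sum]
    apply Finset.sum_congr rfl
    intro l _
    ring
  rw [h1, ← h5, Finset.sum_range_succ]
  simp only [Nat.sub_self, Finset.range_zero, Finset.sum_empty, add_zero]
  apply Finset.sum_congr rfl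
  intro l hl
  rw [Finset.mem_range] at hl
  rw [← Finset.sum_mul]
  congr 1
  have h := vander (-s) (s + 2 + n) (m - 1 - l)
  have e : -s + (s + 2 + n) = (n : ℂ) + 2 := by ring
  rw [e] at h
  rw [← h]
  have e2 : m - l = m - 1 - l + 1 := by omega
  rw [e2]
  apply Finset.sum_congr rfl
  intro k hk
  rw [Finset.mem_range] at hk
  have e3 : m - 1 - (l + k) = m - 1 - l - k := by omega
  have e4 : l + k - l = k := by omega
  rw [e3, e4]
  ring

/-- the functionals are rising moments -/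
theorem XU_eq (s : ℂ) (d : ℕ → ℂ) {m : ℕ} (hm : 1 ≤ m) (n : ℕ) :
    (∑ i ∈ Finset.range m, XD s m n i * UD s d m i) / m
      = (∏ k ∈ Finset.range n, (s + 2 + k)) / (Nat.factorial (n + 1) : ℂ)
        * mris d m 0 (n + 1) := by
  have hm0 : (m : ℂ) ≠ 0 := by
    have : m ≠ 0 := by omega
    exact_mod_cast this
  have hf : (Nat.factorial (n + 1) : ℂ) ≠ 0 := by
    exact_mod_cast Nat.factorial_ne_zero _
  have h1 : ∀ i ∈ Finset.range m, XD s m n i * UD s d m i
      = (∏ k ∈ Finset.range n, (s + 2 + k)) / (m : ℂ) ^ n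
        * (pq (s + 2 + n) (m - 1 - i) * Vd s d m i) := by
    intro i hi
    rw [Finset.mem_range] at hi
    unfold XD UD
    have e : (m - i : ℕ) = m - 1 - i + 1 := by omega
    have e2 : ∏ k ∈ Finset.range n, (s + 1 + k + ((m - i : ℕ) : ℂ))
        = ∏ k ∈ Finset.range n, (s + 2 + k + ((m - 1 - i : ℕ) : ℂ)) := by
      apply Finset.prod_congr rfl
      intro k _
      rw [e]
      push_cast
      ring
    rw [e2]
    have h := pq_poch s n (m - 1 - i)
    field_simp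
    linear_combination (Vd s d m i) * h
  rw [Finset.sum_congr rfl h1, ← Finset.mul_sum, conv_d]
  have h2 : mris d m 0 (n + 1) = (Nat.factorial (n + 1) : ℂ) / (m : ℂ) ^ (n + 1)
      * ∑ l ∈ Finset.range m, pq ((n : ℂ) + 2) (m - 1 - l) * d l := by
    unfold mris
    rw [Finset.sum_range_succ]
    have e0 : d m * ((((m - m : ℕ) : ℂ) / m) ^ 0
        * ∏ k ∈ Finset.range (n + 1), ((((m - m : ℕ) : ℂ) + k) / m)) = 0 := by
      rw [Finset.prod_range_succ']
      simp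
    rw [e0, add_zero, Finset.mul_sum]
    apply Finset.sum_congr rfl
    intro l hl
    rw [Finset.mem_range] at hl
    rw [pow_zero, one_mul]
    have e : ((m - l : ℕ) : ℂ) = ((m - 1 - l : ℕ) : ℂ) + 1 := by
      have : m - l = m - 1 - l + 1 := by omega
      rw [this]
      push_cast
      ring
    rw [e, Finset.prod_div_distrib, Finset.prod_const, Finset.card_range, ← pq_nat]
    field_simp
  rw [h2]
  field_simp
  ring

/-- the functionals are moments -/
theorem mom_eq (K N : ℕ) (hN : N + 1 ≤ 2 * K) : ∃ C : ℝ, 0 ≤ C ∧ ∀ s : ℂ, ‖s‖ ≤ 1 →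
    ∀ m : ℕ, 1 ≤ m → ∀ d : ℕ → ℂ, (∀ l ≤ m, d l = d (m - l)) → ∀ n < N,
      ‖(∑ i ∈ Finset.range m, XD s m n i * UD s d m i) / m - muS s K (vS d m) n‖
        ≤ C / m * ∑ r ∈ Finset.range K, ‖vS d m r‖ := by
  choose C hC h using mris_eq K
  refine ⟨∑ n ∈ Finset.range N, (∏ k ∈ Finset.range n, ((3 : ℝ) + k)) * C (n + 1), ?_, ?_⟩
  · apply Finset.sum_nonneg
    intro n _
    have := hC (n + 1)
    positivity
  intro s hs m hm d hd n hn
  have hmR : (1 : ℝ) ≤ m := by exact_mod_cast hm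
  have h1 := h (n + 1) 0 (by omega) m hm d hd
  rw [zero_add] at h1
  have e1 : muS s K (vS d m) n
      = (∏ k ∈ Finset.range n, (s + 2 + k)) / (Nat.factorial (n + 1) : ℂ) * mend d m (n + 1) := by
    unfold muS
    rw [mend_eq hm hd (K := K) (by omega)]
  rw [XU_eq s d hm, e1, ← mul_sub, norm_mul]
  set S := ∑ r ∈ Finset.range K, ‖vS d m r‖ with hS
  have hS0 : 0 ≤ S := Finset.sum_nonneg fun _ _ => norm_nonneg _
  have h2 : ‖(∏ k ∈ Finset.range n, (s + 2 + k)) / (Nat.factorial (n + 1) : ℂ)‖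
      ≤ ∏ k ∈ Finset.range n, ((3 : ℝ) + k) := by
    rw [norm_div, Complex.norm_natCast, norm_prod]
    have h3 : ∏ k ∈ Finset.range n, ‖s + 2 + (k : ℂ)‖ ≤ ∏ k ∈ Finset.range n, ((3 : ℝ) + k) := by
      apply Finset.prod_le_prod
      · intro k _
        exact norm_nonneg _
      · intro k _
        have h4 : ‖s + 2 + (k : ℂ)‖ ≤ ‖s‖ + ‖(2 : ℂ)‖ + ‖(k : ℂ)‖ := norm_add₃_le
        rw [Complex.norm_natCast, Complex.norm_two] at h4
        linarith only [hs, h4]
    refine (div_le_self (Finset.prod_nonneg fun _ _ => norm_nonneg _) ?_).trans h3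
    exact_mod_cast Nat.one_le_iff_ne_zero.mpr (Nat.factorial_ne_zero _)
  have h5 : (∏ k ∈ Finset.range n, ((3 : ℝ) + k)) * C (n + 1)
      ≤ ∑ n ∈ Finset.range N, (∏ k ∈ Finset.range n, ((3 : ℝ) + k)) * C (n + 1) := by
    apply Finset.single_le_sum (f := fun n => (∏ k ∈ Finset.range n, ((3 : ℝ) + k)) * C (n + 1))
    · intro i _
      have := hC (i + 1)
      positivity
    · exact Finset.mem_range.mpr hn
  calc _ ≤ (∏ k ∈ Finset.range n, ((3 : ℝ) + k)) * (C (n + 1) / m * S) := by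
        apply mul_le_mul h2 h1 (norm_nonneg _)
        positivity
    _ = ((∏ k ∈ Finset.range n, ((3 : ℝ) + k)) * C (n + 1)) / m * S := by ring
    _ ≤ _ := by
        apply mul_le_mul_of_nonneg_right _ hS0
        apply div_le_div_of_nonneg_right h5
        positivity

end Pool.Agent.M16.Helper24.HR2

end

section

set_option autoImplicit false

open MeasureTheory Set Metric Filter Topology

open scoped ENNReal NNReal Real Nat

namespace Pool.Agent.M16.Helper22.Half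

open Pool.Agent.M16.Helper39.Area (Ext phi dphi qq_ne qq_diff phi_sub)

open Pool.Agent.M16.Helper22.Marshall (coeff coeff_mul coeff_const_mul coeff_deriv coeff_zero coeff_congr coeff_eq_of_hasSum hasSum_coeff LogPhi)

/-- abstract Taylor recursion: `D T' = -θ D' T` with `D = 1 + ω (β - φ)` -/
theorem coeff_rec {D T : ℂ → ℂ} (hD : AnalyticAt ℂ D 0) (hT : AnalyticAt ℂ T 0) {θ : ℂ}
    (hD0 : D 0 = 1) (h : ∀ᶠ w in 𝓝 (0 : ℂ), D w * deriv T w = -θ * (deriv D w * T w)) (n : ℕ) :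
    ((n : ℂ) + 1) * coeff T (n + 1)
      = -∑ i ∈ Finset.range (n + 1), (θ * ((i : ℂ) + 1) + ((n - i : ℕ) : ℂ)) * coeff D (i + 1)
          * coeff T (n - i) := by
  have h1 := coeff_congr h n
  rw [coeff_mul hD hT.deriv, coeff_const_mul, coeff_mul hD.deriv hT] at h1
  simp_rw [coeff_deriv] at h1
  rw [Finset.sum_range_succ'] at h1
  simp only [coeff_zero, hD0, one_mul, Nat.sub_zero] at h1
  -- the shifted sum
  have h2 : ∑ k ∈ Finset.range n, coeff D (k + 1) * (((n - (k + 1) : ℕ) : ℂ) + 1)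
      * coeff T (n - (k + 1) + 1)
      = ∑ i ∈ Finset.range (n + 1), ((n - i : ℕ) : ℂ) * coeff D (i + 1) * coeff T (n - i) := by
    rw [Finset.sum_range_succ]
    simp only [Nat.sub_self, Nat.cast_zero, zero_mul, add_zero]
    apply Finset.sum_congr rfl
    intro k hk
    rw [Finset.mem_range] at hk
    have e : n - (k + 1) + 1 = n - k := by omega
    rw [e]
    have e2 : ((n - (k + 1) : ℕ) : ℂ) + 1 = ((n - k : ℕ) : ℂ) := by
      rw [← e]; push_cast; ring
    rw [e2]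
    ring
  have h3 : ∑ k ∈ Finset.range n, coeff D (k + 1) * ((((n - (k + 1) : ℕ) : ℂ) + 1)
      * coeff T (n - (k + 1) + 1))
      = ∑ i ∈ Finset.range (n + 1), ((n - i : ℕ) : ℂ) * coeff D (i + 1) * coeff T (n - i) := by
    rw [← h2]
    apply Finset.sum_congr rfl
    intro k _
    ring
  rw [h3] at h1
  have h4 : ∑ i ∈ Finset.range (n + 1), (θ * ((i : ℂ) + 1) + ((n - i : ℕ) : ℂ)) * coeff D (i + 1)
          * coeff T (n - i)
      = θ * ∑ i ∈ Finset.range (n + 1), ((i : ℂ) + 1) * coeff D (i + 1) * coeff T (n - i)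
        + ∑ i ∈ Finset.range (n + 1), ((n - i : ℕ) : ℂ) * coeff D (i + 1) * coeff T (n - i) := by
    rw [Finset.mul_sum, ← Finset.sum_add_distrib]
    apply Finset.sum_congr rfl
    intro i _
    ring
  rw [h4]
  linear_combination h1

/-- polynomials with prescribed recursion -/
theorem exists_poly (θ : ℂ) (bc : ℕ → ℂ) (n : ℕ) : ∃ P : ℕ → Polynomial ℂ,
    (∀ k ≤ n, (P k).natDegree ≤ k) ∧ P 0 = 1 ∧ ∀ k < n, Polynomial.C ((k : ℂ) + 1) * P (k + 1)
      = -∑ i ∈ Finset.range (k + 1), Polynomial.C (θ * ((i : ℂ) + 1) + ((k - i : ℕ) : ℂ))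
        * (Polynomial.C (bc i) - if i = 0 then Polynomial.X else 0) * P (k - i) := by
  induction n with
  | zero =>
    refine ⟨fun _ => 1, fun k hk => by simp, rfl, fun k hk => by omega⟩
  | succ n ih =>
    obtain ⟨P, hP1, hP0, hP2⟩ := ih
    obtain ⟨Q, hQ⟩ : ∃ Q : Polynomial ℂ, Q = Polynomial.C (((n : ℂ) + 1)⁻¹) * (-∑ i ∈ Finset.range (n + 1), Polynomial.C (θ * ((i : ℂ) + 1) + ((n - i : ℕ) : ℂ))
        * (Polynomial.C (bc i) - if i = 0 then Polynomial.X else 0) * P (n - i)) := ⟨_, rfl⟩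
    have hQd : Q.natDegree ≤ n + 1 := by
      rw [hQ]
      refine (Polynomial.natDegree_C_mul_le _ _).trans ?_
      rw [Polynomial.natDegree_neg]
      apply Polynomial.natDegree_sum_le_of_forall_le
      intro i hi
      rw [Finset.mem_range] at hi
      rw [mul_assoc]
      refine (Polynomial.natDegree_C_mul_le _ _).trans ?_
      refine Polynomial.natDegree_mul_le.trans ?_
      have h1 := hP1 (n - i) (by omega)
      have h2 : (Polynomial.C (bc i) - if i = 0 then Polynomial.X else 0 : Polynomial ℂ).natDegree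
          ≤ i + 1 := by
        refine (Polynomial.natDegree_sub_le _ _).trans ?_
        rw [Polynomial.natDegree_C]
        split_ifs
        · simp
        · simp
      omega
    refine ⟨fun k => if k = n + 1 then Q else P k, ?_, ?_, ?_⟩
    · intro k hk
      by_cases h : k = n + 1
      · simp only [h, if_true]; exact hQd
      · simp only [h, if_false]; exact hP1 k (by omega)
    · simp only [Nat.zero_ne_add_one, if_false]; exact hP0
    · intro k hk
      have e : ∀ i, (if k - i = n + 1 then Q else P (k - i)) = P (k - i) := by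
        intro i
        rw [if_neg (by omega)]
      simp only [e]
      by_cases h : k = n
      · subst h
        simp only [if_true]
        rw [hQ, ← mul_assoc, ← Polynomial.C_mul]
        have : ((k : ℂ) + 1) * ((k : ℂ) + 1)⁻¹ = 1 := mul_inv_cancel₀ (Nat.cast_add_one_ne_zero k)
        rw [this, Polynomial.C_1, one_mul]
      · rw [if_neg (by omega)]
        exact hP2 k (by omega)

theorem coeff_D {g : ℂ → ℂ} (hg : DifferentiableOn ℂ g (ball 0 1)) (n : ℕ) :
    coeff (fun w => 1 + w * g w) (n + 1) = coeff g n := by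
  have h := coeff_eq_of_hasSum (f := fun w => 1 + w * g w) (r := 1) one_pos
    (a := fun n => if n = 0 then 1 else coeff g (n - 1)) (fun z hz => by
      have h1 := (hasSum_coeff hg hz).mul_left z
      rw [← hasSum_nat_add_iff' 1]
      simp only [Finset.range_one, Finset.sum_singleton, if_true, pow_zero, mul_one,
        Nat.add_eq_zero_iff, one_ne_zero, and_false, if_false, Nat.add_sub_cancel, add_sub_cancel_left]
      have e : (fun n => coeff g n * z ^ (n + 1)) = fun n => z * (coeff g n * z ^ n) := by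
        funext n; ring
      rw [e]
      exact h1) (n + 1)
  rw [h]
  simp

theorem choose_eq_pq (α : ℂ) (n : ℕ) : Ring.choose (α + n - 1) n = pq α n := by
  rw [← Ring.multichoose_eq]
  have h : ∀ n : ℕ, (n.factorial : ℂ) * Ring.multichoose α n = (n.factorial : ℂ) * pq α n := by
    intro n
    have e := Ring.factorial_nsmul_multichoose_eq_ascPochhammer α n
    rw [nsmul_eq_mul] at e
    rw [e, Polynomial.ascPochhammer_smeval_eq_eval]
    induction n with
    | zero => simp [pq]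
    | succ n ih =>
      have e2 := Ring.factorial_nsmul_multichoose_eq_ascPochhammer α n
      rw [nsmul_eq_mul] at e2
      have ih' := ih e2
      rw [ascPochhammer_succ_eval, ih']
      have h3 := pq_succ' α n
      rw [Nat.factorial_succ]
      push_cast
      linear_combination (-(n.factorial : ℂ)) * h3
  have hne : (n.factorial : ℂ) ≠ 0 := Nat.cast_ne_zero.mpr (Nat.factorial_ne_zero n)
  exact mul_left_cancel₀ hne (h n)

theorem hasSum_pq (α : ℂ) {x : ℂ} (hx : ‖x‖ < 1) :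
    HasSum (fun n : ℕ => pq α n * x ^ n) (1 / (1 - x) ^ α) := by
  have h := (Complex.one_div_one_sub_cpow_hasFPowerSeriesOnBall_zero α).hasSum
    (y := x) (by
      rw [Metric.mem_eball, edist_zero_right]
      rw [← ofReal_norm]
      exact ENNReal.ofReal_lt_one.mpr hx)
  rw [zero_add] at h
  have e : (fun n : ℕ => pq α n * x ^ n) = fun n => ((FormalMultilinearSeries.ofScalars ℂ
      fun n ↦ Ring.choose (α + n - 1) n) n) fun _ => x := by
    funext n
    rw [FormalMultilinearSeries.ofScalars_apply_eq, choose_eq_pq]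
    simp
  rw [e]
  exact h

theorem coeff_power (s : ℂ) {ζ : ℂ} (h0 : ζ ≠ 0) (n : ℕ) :
    coeff (fun w => Complex.exp (s * Complex.log (1 - w / ζ))) n = pq (-s) n * (ζ⁻¹) ^ n := by
  apply coeff_eq_of_hasSum (r := ‖ζ‖) (norm_pos_iff.mpr h0)
  intro z hz
  have hx : ‖z / ζ‖ < 1 := by
    rw [norm_div, div_lt_one (norm_pos_iff.mpr h0)]; exact hz
  have h1 := hasSum_pq (-s) hx
  have hne : 1 - z / ζ ≠ 0 := by
    intro h
    rw [sub_eq_zero] at h
    rw [← h] at hx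
    simp at hx
  have e : (1 / (1 - z / ζ) ^ (-s)) = Complex.exp (s * Complex.log (1 - z / ζ)) := by
    rw [Complex.cpow_def_of_ne_zero hne, one_div, ← Complex.exp_neg]
    congr 1; ring
  rw [e] at h1
  have e2 : (fun n => pq (-s) n * ζ⁻¹ ^ n * z ^ n) = fun n => pq (-s) n * (z / ζ) ^ n := by
    funext n
    rw [div_eq_mul_inv, mul_pow]
    ring
  rw [e2]
  exact h1

theorem one_sub_slit {ζ w : ℂ} (h0 : ζ ≠ 0) (hw : ‖w‖ < ‖ζ‖) : 1 - w / ζ ∈ Complex.slitPlane := by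
  have hx : ‖w / ζ‖ < 1 := by
    rw [norm_div, div_lt_one (norm_pos_iff.mpr h0)]; exact hw
  left
  have := (abs_le.mp (Complex.abs_re_le_norm (w / ζ))).2
  rw [Complex.sub_re, Complex.one_re]
  linarith

section

variable {β H : ℂ → ℂ} {Φ : ℂ → ℂ → ℂ}

/-- the function `T` -/
noncomputable def TF (Φ : ℂ → ℂ → ℂ) (s ζ w : ℂ) : ℂ :=
  Complex.exp (s * (Complex.log (1 - w / ζ) + Φ ζ w))

theorem TF_diff (hΦ : LogPhi β H Φ) {ζ : ℂ} (hζ : ζ ∈ ball (0 : ℂ) 1) (h0 : ζ ≠ 0) :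
    ∀ w : ℂ, ‖w‖ < ‖ζ‖ → DifferentiableAt ℂ (fun w => Complex.log (1 - w / ζ) + Φ ζ w) w := by
  intro w hw
  rw [mem_ball_zero_iff] at hζ
  apply DifferentiableAt.add
  · apply DifferentiableAt.clog
    · fun_prop
    · exact one_sub_slit h0 hw
  · exact (hΦ.sep.right ζ (mem_ball_zero_iff.mpr hζ)).differentiableAt
      (isOpen_ball.mem_nhds (mem_ball_zero_iff.mpr (hw.trans hζ)))

theorem D_eq (hΦ : LogPhi β H Φ) {ζ : ℂ} (hζ : ζ ∈ ball (0 : ℂ) 1) (h0 : ζ ≠ 0) {w : ℂ}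
    (hw : ‖w‖ < ‖ζ‖) :
    Complex.exp (Complex.log (1 - w / ζ) + Φ ζ w) = 1 + w * (β w - phi β ζ) := by
  have hz1 := hζ
  rw [mem_ball_zero_iff] at hz1
  have hne : 1 - w / ζ ≠ 0 := Complex.slitPlane_ne_zero (one_sub_slit h0 hw)
  rw [Complex.exp_add, Complex.exp_log hne, hΦ.exp_eq ζ hζ w (mem_ball_zero_iff.mpr (hw.trans hz1))]
  by_cases hw0 : w = 0
  · subst hw0
    simp [Pool.Agent.M16.Helper39.Area.qq]
  · have h1 := phi_sub (β := β) ζ w h0 hw0
    have h2 : phi β w = w⁻¹ + β w := rfl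
    have h3 : (1 - w / ζ) * Pool.Agent.M16.Helper39.Area.qq β ζ w
        = w * ((w⁻¹ - ζ⁻¹) * Pool.Agent.M16.Helper39.Area.qq β ζ w) := by
      field_simp
    rw [h3, ← h1, h2]
    field_simp
    ring

theorem TF_ode (hΦ : LogPhi β H Φ) (s : ℂ) {ζ : ℂ} (hζ : ζ ∈ ball (0 : ℂ) 1) (h0 : ζ ≠ 0) :
    ∀ᶠ w in 𝓝 (0 : ℂ), (1 + w * (β w - phi β ζ)) * deriv (TF Φ s ζ) w
      = -(-s) * (deriv (fun w => 1 + w * (β w - phi β ζ)) w * TF Φ s ζ w) := by
  have hpos : 0 < ‖ζ‖ := norm_pos_iff.mpr h0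
  filter_upwards [ball_mem_nhds (0 : ℂ) hpos] with w hw
  rw [mem_ball_zero_iff] at hw
  have h1 := (TF_diff hΦ hζ h0 w hw).hasDerivAt
  have h2 := h1.cexp
  have h3 := (h1.const_mul s).cexp
  have e3 : deriv (TF Φ s ζ) w = TF Φ s ζ w * (s *
      deriv (fun w => Complex.log (1 - w / ζ) + Φ ζ w) w) := by
    have : TF Φ s ζ = fun w => Complex.exp (s * (Complex.log (1 - w / ζ) + Φ ζ w)) := rfl
    rw [this]
    exact h3.deriv
  have e2 : deriv (fun w => 1 + w * (β w - phi β ζ)) w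
      = (1 + w * (β w - phi β ζ)) * deriv (fun w => Complex.log (1 - w / ζ) + Φ ζ w) w := by
    have h4 : (fun w => 1 + w * (β w - phi β ζ)) =ᶠ[𝓝 w]
        fun w => Complex.exp (Complex.log (1 - w / ζ) + Φ ζ w) := by
      have : ball (0 : ℂ) ‖ζ‖ ∈ 𝓝 w := isOpen_ball.mem_nhds (mem_ball_zero_iff.mpr hw)
      filter_upwards [this] with v hv
      rw [mem_ball_zero_iff] at hv
      exact (D_eq hΦ hζ h0 hv).symm
    rw [h4.deriv_eq, h2.deriv, D_eq hΦ hζ h0 hw]
  rw [e3, e2]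
  ring

theorem TF_analytic (hΦ : LogPhi β H Φ) (s : ℂ) {ζ : ℂ} (hζ : ζ ∈ ball (0 : ℂ) 1) (h0 : ζ ≠ 0) :
    AnalyticAt ℂ (TF Φ s ζ) 0 := by
  have hpos : 0 < ‖ζ‖ := norm_pos_iff.mpr h0
  have hd : DifferentiableOn ℂ (TF Φ s ζ) (ball 0 ‖ζ‖) := by
    intro w hw
    rw [mem_ball_zero_iff] at hw
    exact ((TF_diff hΦ hζ h0 w hw).const_mul s).cexp.differentiableWithinAt
  exact hd.analyticAt (ball_mem_nhds (0 : ℂ) hpos)

/-- the Faber type polynomials -/
theorem faber_T (h : Ext β) (hΦ : LogPhi β H Φ) (s : ℂ) (n : ℕ) :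
    ∃ P : ℕ → Polynomial ℂ, (∀ k ≤ n, (P k).natDegree ≤ k) ∧
      ∀ ζ ∈ ball (0 : ℂ) 1, ζ ≠ 0 → ∀ k ≤ n, coeff (TF Φ s ζ) k = (P k).eval (phi β ζ) := by
  obtain ⟨P, hP1, hP0, hP2⟩ := exists_poly (-s) (coeff β) n
  refine ⟨P, hP1, fun ζ hζ h0 => ?_⟩
  have hrec := coeff_rec (D := fun w => 1 + w * (β w - phi β ζ)) (T := TF Φ s ζ) (θ := -s)
    (by
      have : DifferentiableOn ℂ (fun w => 1 + w * (β w - phi β ζ)) (ball 0 1) := by
        have := h.diff
        fun_prop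
      exact this.analyticAt (ball_mem_nhds _ one_pos))
    (TF_analytic hΦ s hζ h0) (by simp) (TF_ode hΦ s hζ h0)
  intro k
  induction k using Nat.strong_induction_on with
  | _ k ih =>
    intro hk
    cases k with
    | zero =>
      rw [coeff_zero, hP0]
      simp [TF, hΦ.zero_right ζ hζ]
    | succ k =>
      have h1 := hrec k
      have h2 := congrArg (Polynomial.eval (phi β ζ)) (hP2 k (by omega))
      rw [Polynomial.eval_mul, Polynomial.eval_C, Polynomial.eval_neg,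
        Polynomial.eval_finsetSum] at h2
      have hne : ((k : ℂ) + 1) ≠ 0 := Nat.cast_add_one_ne_zero k
      apply mul_left_cancel₀ hne
      rw [h1, h2]
      congr 1
      apply Finset.sum_congr rfl
      intro i hi
      rw [Finset.mem_range] at hi
      rw [Polynomial.eval_mul, Polynomial.eval_mul, Polynomial.eval_C, ih (k - i) (by omega) (by omega)]
      have e : coeff (fun w => 1 + w * (β w - phi β ζ)) (i + 1)
          = Polynomial.eval (phi β ζ) (Polynomial.C (coeff β i) - if i = 0 then Polynomial.X else 0) := by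
        rw [coeff_D (g := fun w => β w - phi β ζ) (by
          have := h.diff
          fun_prop)]
        have e2 : coeff (fun w => β w - phi β ζ) i = coeff β i - if i = 0 then phi β ζ else 0 := by
          cases i with
          | zero => simp [coeff_zero]
          | succ i =>
            simp only [Nat.add_eq_zero_iff, one_ne_zero, and_false, if_false, sub_zero]
            unfold coeff
            congr 1
            rw [iteratedDeriv_succ', iteratedDeriv_succ']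
            congr 1
            funext w
            simp
        rw [e2]
        rw [Polynomial.eval_sub, Polynomial.eval_C]
        split_ifs <;> simp
      rw [e]

/-- the Faber type polynomials for the symmetric kernel -/
theorem faber_E (h : Ext β) (hΦ : LogPhi β H Φ) (s : ℂ) (n : ℕ) :
    ∃ P : Polynomial ℂ, P.natDegree ≤ n ∧ ∀ ζ ∈ ball (0 : ℂ) 1, ζ ≠ 0 →
      ζ ^ n * P.eval (phi β ζ) = ∑ l ∈ Finset.range (n + 1), pq (-s) (n - l) *
        (coeff (fun w => Complex.exp (s * Φ ζ w)) l * ζ ^ l) := by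
  obtain ⟨P, hP1, hP2⟩ := faber_T h hΦ s n
  refine ⟨P n, hP1 n le_rfl, ?_⟩
  intro ζ hζ h0
  have hpos : 0 < ‖ζ‖ := norm_pos_iff.mpr h0
  have hFd : DifferentiableOn ℂ (fun w => Complex.exp (s * Φ ζ w)) (ball 0 1) :=
    ((hΦ.sep.right ζ hζ).const_mul _).cexp
  have hS : AnalyticAt ℂ (fun w => Complex.exp (s * Complex.log (1 - w / ζ))) 0 := by
    have hd : DifferentiableOn ℂ (fun w => Complex.exp (s * Complex.log (1 - w / ζ)))
        (ball 0 ‖ζ‖) := by
      intro w hw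
      rw [mem_ball_zero_iff] at hw
      apply DifferentiableAt.differentiableWithinAt
      apply DifferentiableAt.cexp
      apply DifferentiableAt.const_mul
      apply DifferentiableAt.clog
      · fun_prop
      · exact one_sub_slit h0 hw
    exact hd.analyticAt (ball_mem_nhds (0 : ℂ) hpos)
  have h2 := coeff_mul hS (hFd.analyticAt (ball_mem_nhds _ one_pos)) n
  have h3 : coeff (TF Φ s ζ) n
      = coeff (fun z => Complex.exp (s * Complex.log (1 - z / ζ)) * Complex.exp (s * Φ ζ z)) n := by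
    congr 1
    funext z
    unfold TF
    rw [mul_add, Complex.exp_add]
  rw [h2] at h3
  rw [← hP2 ζ hζ h0 n le_rfl, h3, Finset.mul_sum, ← Finset.sum_range_reflect]
  apply Finset.sum_congr rfl
  intro l hl
  rw [Finset.mem_range] at hl
  have e1 : n + 1 - 1 - l = n - l := by omega
  have e2 : n - (n - l) = l := by omega
  rw [e1, e2, coeff_power s h0]
  have e3 : ζ ^ n = ζ ^ (n - l) * ζ ^ l := by rw [← pow_add]; congr 1; omega
  rw [e3, inv_pow]
  have : ζ ^ (n - l) ≠ 0 := pow_ne_zero _ h0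
  field_simp

end

end Pool.Agent.M16.Helper22.Half

end

section

set_option autoImplicit false

open MeasureTheory Set Metric Filter Topology

open scoped ENNReal NNReal Real Nat ComplexConjugate

namespace Pool.Agent.M16.Helper22.Half

open Pool.Agent.M16.Helper39.Area (Ext phi)

open Pool.Agent.M16.Helper22.Marshall (coeff SepHol LogPhi dcoeff GLe coeff_congr)

theorem hasSum_shift {a : ℕ → ℂ} {z s : ℂ} (h : HasSum (fun k => a k * z ^ k) s) (l : ℕ) :
    HasSum (fun m => if l ≤ m then a (m - l) * z ^ m else 0) (s * z ^ l) := by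
  rw [← hasSum_nat_add_iff' l]
  have e1 : ∑ i ∈ Finset.range l, (if l ≤ i then a (i - l) * z ^ i else 0) = 0 := by
    apply Finset.sum_eq_zero
    intro i hi
    rw [Finset.mem_range] at hi
    rw [if_neg (by omega)]
  have e2 : (fun n => if l ≤ n + l then a (n + l - l) * z ^ (n + l) else 0)
      = fun n => (a n * z ^ n) * z ^ l := by
    funext n
    rw [if_pos (by omega), Nat.add_sub_cancel, pow_add]
    ring
  rw [e1, e2, sub_zero]
  exact h.mul_right _

/-- the `m`-th antidiagonal -/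
noncomputable def diagc (F : ℂ → ℂ → ℂ) (m l : ℕ) : ℂ := dcoeff F (m - l) l

theorem hasSum_Vd {F : ℂ → ℂ → ℂ} (hF : SepHol F) (s : ℂ) (n : ℕ) {ζ : ℂ} (hζ : ‖ζ‖ < 1) :
    HasSum (fun m => Vd s (diagc F m) m n * ζ ^ m)
      (∑ l ∈ Finset.range (n + 1), pq (-s) (n - l) * (coeff (F ζ) l * ζ ^ l)) := by
  have h1 : ∀ l ∈ Finset.range (n + 1), HasSum (fun m => pq (-s) (n - l) *
      (if l ≤ m then dcoeff F (m - l) l * ζ ^ m else 0))
      (pq (-s) (n - l) * (coeff (F ζ) l * ζ ^ l)) := by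
    intro l _
    apply HasSum.mul_left
    exact hasSum_shift (a := fun k => dcoeff F k l) (hF.hasSum_left hζ l) l
  have h2 := hasSum_sum h1
  have e : (fun m => ∑ l ∈ Finset.range (n + 1), pq (-s) (n - l) *
      (if l ≤ m then dcoeff F (m - l) l * ζ ^ m else 0))
      = fun m => Vd s (diagc F m) m n * ζ ^ m := by
    funext m
    unfold Vd diagc
    rw [Finset.sum_mul]
    symm
    have hsub : Finset.range (min n m + 1) ⊆ Finset.range (n + 1) := by
      intro l hl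
      rw [Finset.mem_range] at hl ⊢
      omega
    rw [← Finset.sum_subset hsub]
    · apply Finset.sum_congr rfl
      intro l hl
      rw [Finset.mem_range] at hl
      rw [if_pos (by omega)]
      ring
    · intro l hl hl2
      rw [Finset.mem_range] at hl hl2
      rw [if_neg (by omega), mul_zero]
  rw [e] at h2
  exact h2

theorem dcoeff_symm {U : ℂ → ℂ → ℂ} (h : SepHol U)
    (hs : ∀ a ∈ ball (0 : ℂ) 1, ∀ b ∈ ball (0 : ℂ) 1, U a b = U b a) (k l : ℕ) :
    dcoeff U k l = dcoeff U l k := by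
  unfold dcoeff
  rw [← h.coeff_comm k l]
  apply coeff_congr
  filter_upwards [ball_mem_nhds (0 : ℂ) one_pos] with w hw
  apply coeff_congr
  filter_upwards [ball_mem_nhds (0 : ℂ) one_pos] with z hz
  exact hs z hz w hw

section

variable {β H : ℂ → ℂ} {Φ : ℂ → ℂ → ℂ}

/-- the symmetric kernel -/
noncomputable def EE (Φ : ℂ → ℂ → ℂ) (s ζ w : ℂ) : ℂ := Complex.exp (s * Φ ζ w)

theorem EE_sep (hΦ : LogPhi β H Φ) (s : ℂ) : SepHol (EE Φ s) where
  cont := by
    have := hΦ.sep.cont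
    exact (continuousOn_const.mul this).cexp
  left := fun w hw => ((hΦ.sep.left w hw).const_mul s).cexp
  right := fun z hz => ((hΦ.sep.right z hz).const_mul s).cexp

theorem EE_symm (hΦ : LogPhi β H Φ) (s : ℂ) (m : ℕ) :
    ∀ l ≤ m, diagc (EE Φ s) m l = diagc (EE Φ s) m (m - l) := by
  intro l hl
  unfold diagc
  rw [dcoeff_symm (EE_sep hΦ s) (fun a ha b hb => by unfold EE; rw [hΦ.symm a ha b hb])]
  congr 1
  omega

theorem EE_zero (hΦ : LogPhi β H Φ) (s : ℂ) : diagc (EE Φ s) 0 0 = 1 := by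
  unfold diagc dcoeff EE
  rw [Pool.Agent.M16.Helper22.Marshall.coeff_zero, Pool.Agent.M16.Helper22.Marshall.coeff_zero,
    hΦ.zero_right 0 (mem_ball_self one_pos), mul_zero, Complex.exp_zero]

theorem EE_diag (hΦ : LogPhi β H Φ) (s : ℂ) (m : ℕ) :
    ∑ l ∈ Finset.range (m + 1), diagc (EE Φ s) m l = coeff (fun z => Complex.exp (s * H z)) m := by
  have h1 := (EE_sep hΦ s).hasSum_diag m
  have h2 : coeff (fun z => EE Φ s z z) m = coeff (fun z => Complex.exp (s * H z)) m := by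
    apply coeff_congr
    filter_upwards [ball_mem_nhds (0 : ℂ) one_pos] with z hz
    unfold EE
    rw [hΦ.diag z hz]
  rw [← h2, h1, ← Finset.sum_range_reflect]
  apply Finset.sum_congr rfl
  intro l hl
  rw [Finset.mem_range] at hl
  unfold diagc
  have e1 : m + 1 - 1 - l = m - l := by omega
  have e2 : m - (m - l) = l := by omega
  rw [e1, e2]

/-- the area inequality for each Faber type polynomial -/
theorem area_V {k : ℝ} (hk : GLe β k) (hE : Ext β) (hΦ : LogPhi β H Φ) (s : ℂ) (i M : ℕ) :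
    ∑ m ∈ Finset.range M, ((m - i : ℕ) : ℝ) * ‖Vd s (diagc (EE Φ s) m) m i‖ ^ 2
      ≤ k ^ 2 * ∑ m ∈ Finset.range i, ((i - m : ℕ) : ℝ) * ‖Vd s (diagc (EE Φ s) m) m i‖ ^ 2 := by
  obtain ⟨P, hP1, hP2⟩ := faber_E hE hΦ s i
  exact hk i P (fun m => Vd s (diagc (EE Φ s) m) m i) hP1 (fun ζ hζ0 hζ1 => by
    rw [hP2 ζ (mem_ball_zero_iff.mpr hζ1) hζ0]
    exact hasSum_Vd (EE_sep hΦ s) s i hζ1) M

end

end Pool.Agent.M16.Helper22.Half

end

section

set_option autoImplicit false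

open MeasureTheory Set Metric Filter Topology

open scoped Real ComplexConjugate

namespace Pool.Agent.M16.Helper24.HR2

open Pool.Agent.M16.Helper22.Half

open Pool.Agent.M16.Helper22.Marshall (coeff SepHol LogPhi dcoeff GLe)

open Pool.Agent.M16.Helper39.Area (Ext phi)

open Pool.Agent.M16.Helper39.MH

theorem area_sum_s {β H : ℂ → ℂ} {Φ : ℂ → ℂ → ℂ} (hE : Ext β) (hΦ : LogPhi β H Φ) {s : ℂ}
    {b : ℝ} (hσ : 0 < b + 1 - 2 * s.re) (M : ℕ) :
    ∑ m ∈ Finset.range M, Pf s b (diagc (EE Φ s) m) m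
      ≤ ∑ m ∈ Finset.range M, Nf s b (diagc (EE Φ s) m) m (M - (m + 1)) := by
  have h1 := double_fin (S := fun m i => ‖Vd s (diagc (EE Φ s) m) m i‖ ^ 2)
    (lam := fun i => (pq (b + 1 - 2 * s.re) i)⁻¹) (κ := 1 ^ 2)
    (fun i => (inv_pos.mpr (pq_pos hσ i)).le)
    (fun i M => area_V (Pool.Agent.M16.Helper22.Marshall.gLe_one hE) hE hΦ s i M) M
  rw [one_pow, one_mul] at h1
  have e1 : ∑ m ∈ Finset.range M, ∑ i ∈ Finset.range M, ((m - i : ℕ) : ℝ)
      * (pq (b + 1 - 2 * s.re) i)⁻¹ * ‖Vd s (diagc (EE Φ s) m) m i‖ ^ 2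
      = ∑ m ∈ Finset.range M, Pf s b (diagc (EE Φ s) m) m := by
    apply Finset.sum_congr rfl
    intro m hm
    exact lower_eq _ (Finset.mem_range.mp hm)
  rw [e1] at h1
  refine h1.trans (le_of_eq ?_)
  apply Finset.sum_congr rfl
  intro m _
  have h3 := upper_eq (fun i => (pq (b + 1 - 2 * s.re) i)⁻¹
    * ‖Vd s (diagc (EE Φ s) m) m i‖ ^ 2) m M
  unfold Nf
  simp only [← mul_assoc] at h3 ⊢
  exact h3

namespace AreaSAux

/-- the coefficients of `(1-x)^s` are bounded by `|s|` -/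
theorem pq_le {s : ℂ} (hs : ‖s‖ ≤ 1) (n : ℕ) : ‖pq (-s) (n + 1)‖ ≤ ‖s‖ := by
  induction n with
  | zero =>
    rw [pq_succ, pq_zero, one_mul]
    simp
  | succ n ih =>
    rw [pq_succ, norm_mul]
    have h1 : ‖(-s + ((n + 1 : ℕ) : ℂ)) / (((n + 1 : ℕ) : ℂ) + 1)‖ ≤ 1 := by
      rw [norm_div]
      have e : ‖((n + 1 : ℕ) : ℂ) + 1‖ = (n : ℝ) + 2 := by
        have : ((n + 1 : ℕ) : ℂ) + 1 = (((n : ℝ) + 2 : ℝ) : ℂ) := by push_cast; ring
        rw [this, Complex.norm_real, Real.norm_of_nonneg (by positivity)]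
      rw [e, div_le_one (by positivity)]
      calc ‖-s + ((n + 1 : ℕ) : ℂ)‖ ≤ ‖-s‖ + ‖((n + 1 : ℕ) : ℂ)‖ := norm_add_le _ _
        _ ≤ 1 + ((n : ℝ) + 1) := by
            rw [norm_neg, Complex.norm_natCast]
            push_cast
            linarith
        _ = _ := by ring
    calc ‖pq (-s) (n + 1)‖ * ‖(-s + ((n + 1 : ℕ) : ℂ)) / (((n + 1 : ℕ) : ℂ) + 1)‖
        ≤ ‖s‖ * 1 := by gcongr
      _ = ‖s‖ := mul_one _

theorem pq_le_one {s : ℂ} (hs : ‖s‖ ≤ 1) (n : ℕ) : ‖pq (-s) n‖ ≤ 1 := by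
  cases n with
  | zero => rw [pq_zero]; simp
  | succ n => exact (pq_le hs n).trans hs

/-- the boundary coefficients vanish -/
theorem diag_zero {β H : ℂ → ℂ} {Φ : ℂ → ℂ → ℂ} (hΦ : LogPhi β H Φ) (s : ℂ) {m : ℕ}
    (hm : 1 ≤ m) : diagc (EE Φ s) m 0 = 0 := by
  unfold diagc dcoeff
  have e1 : coeff (fun z => coeff (fun w => EE Φ s z w) 0) (m - 0)
      = coeff (fun _ => (1 : ℂ)) (m - 0) := by
    apply Pool.Agent.M16.Helper22.Marshall.coeff_congr
    filter_upwards [ball_mem_nhds (0 : ℂ) one_pos] with z hz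
    rw [Pool.Agent.M16.Helper22.Marshall.coeff_zero]
    unfold EE
    rw [hΦ.zero_right z hz, mul_zero, Complex.exp_zero]
  rw [e1, Nat.sub_zero]
  unfold coeff
  rw [iteratedDeriv_const]
  rw [if_neg (by omega)]
  simp

/-- bounds of the sums `V` by bounds of the coefficients -/
theorem V_le {s : ℂ} (hs : ‖s‖ ≤ 1) {d : ℕ → ℂ} {m i : ℕ} {B : ℝ} (hB : 0 ≤ B)
    (hd : ∀ l ≤ min i m, ‖d l‖ ≤ B) : ‖Vd s d m i‖ ≤ (i + 1) * B := by
  unfold Vd
  calc ‖∑ l ∈ Finset.range (min i m + 1), pq (-s) (i - l) * d l‖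
      ≤ ∑ l ∈ Finset.range (min i m + 1), ‖pq (-s) (i - l) * d l‖ := norm_sum_le _ _
    _ ≤ ∑ l ∈ Finset.range (min i m + 1), B := by
        apply Finset.sum_le_sum
        intro l hl
        rw [Finset.mem_range] at hl
        rw [norm_mul]
        calc ‖pq (-s) (i - l)‖ * ‖d l‖ ≤ 1 * B := by
              gcongr
              · exact pq_le_one hs _
              · exact hd l (by omega)
          _ = B := one_mul _
    _ = (((min i m + 1 : ℕ) : ℝ)) * B := by rw [Finset.sum_const, Finset.card_range, nsmul_eq_mul]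
    _ ≤ (i + 1) * B := by
        apply mul_le_mul_of_nonneg_right _ hB
        have : min i m + 1 ≤ i + 1 := by omega
        exact_mod_cast this

/-- the constants of the recursion -/
noncomputable def Kr : ℕ → ℝ
  | 0 => 0
  | i + 1 => ((i : ℝ) + 1) * (i + 2) * (Kr i + 1) + (i + 1) * Kr i

theorem Kr_nonneg (i : ℕ) : 0 ≤ Kr i := by
  induction i with
  | zero => exact le_rfl
  | succ i ih =>
    show 0 ≤ ((i : ℝ) + 1) * (i + 2) * (Kr i + 1) + (i + 1) * Kr i
    positivity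

theorem Kr_le (i : ℕ) : Kr i ≤ Kr (i + 1) := by
  show Kr i ≤ ((i : ℝ) + 1) * (i + 2) * (Kr i + 1) + (i + 1) * Kr i
  have h := Kr_nonneg i
  have h0 : (0 : ℝ) ≤ i := Nat.cast_nonneg i
  have h1 : 0 ≤ ((i : ℝ) + 1) * (i + 2) * (Kr i + 1) := by positivity
  nlinarith only [h, h1]

/-- the coefficients close to the boundary -/
theorem diag_le {β H : ℂ → ℂ} {Φ : ℂ → ℂ → ℂ} (hE : Ext β) (hΦ : LogPhi β H Φ) {s : ℂ}
    (hs : ‖s‖ ≤ 1) (i : ℕ) : ∀ m : ℕ, 1 ≤ m → ∀ l ≤ m, min l (m - l) ≤ i →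
      ‖diagc (EE Φ s) m l‖ ≤ Kr i * ‖s‖ := by
  have hs0 : 0 ≤ ‖s‖ := norm_nonneg s
  induction i with
  | zero =>
    intro m hm l hl hmin
    have h0 : diagc (EE Φ s) m l = 0 := by
      rcases Nat.eq_zero_or_pos l with h | h
      · rw [h]; exact diag_zero hΦ s hm
      · have hml : l = m := by omega
        rw [hml, EE_symm hΦ s m m le_rfl, Nat.sub_self]
        exact diag_zero hΦ s hm
    rw [h0, norm_zero]
    show 0 ≤ 0 * ‖s‖
    rw [zero_mul]
  | succ i ih =>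
    have hK := Kr_nonneg i
    -- the value at the index `i + 1`
    have key : ∀ m : ℕ, i + 1 < m → ‖diagc (EE Φ s) m (i + 1)‖ ≤ Kr (i + 1) * ‖s‖ := by
      intro m hm
      have hA := area_V (Pool.Agent.M16.Helper22.Marshall.gLe_one hE) hE hΦ s (i + 1) (m + 1)
      rw [one_pow, one_mul] at hA
      -- the right-hand side
      have hR : ∀ k ∈ Finset.range (i + 1), ((i + 1 - k : ℕ) : ℝ)
          * ‖Vd s (diagc (EE Φ s) k) k (i + 1)‖ ^ 2
          ≤ ((i : ℝ) + 1) * (((i : ℝ) + 2) * ((Kr i + 1) * ‖s‖)) ^ 2 := by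
        intro k hk
        rw [Finset.mem_range] at hk
        have hk1 : ((i + 1 - k : ℕ) : ℝ) ≤ (i : ℝ) + 1 := by
          have : i + 1 - k ≤ i + 1 := by omega
          exact_mod_cast this
        have hV : ‖Vd s (diagc (EE Φ s) k) k (i + 1)‖ ≤ ((i : ℝ) + 2) * ((Kr i + 1) * ‖s‖) := by
          rcases Nat.eq_zero_or_pos k with h | h
          · subst h
            unfold Vd
            rw [Nat.min_zero, zero_add, Finset.sum_range_one, EE_zero hΦ s, mul_one, Nat.sub_zero]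
            refine (pq_le hs i).trans ?_
            have h1 : 1 ≤ ((i : ℝ) + 2) * (Kr i + 1) := by
              have h0 : (0 : ℝ) ≤ i := Nat.cast_nonneg i
              nlinarith only [hK]
            nlinarith only [hs0, h1]
          · have h2 := V_le (m := k) (i := i + 1) (d := diagc (EE Φ s) k) (B := (Kr i + 1) * ‖s‖)
              hs (by positivity) (fun l hl => by
                refine (ih k h l (by omega) (by omega)).trans ?_
                linarith only [hs0])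
            push_cast at h2
            calc ‖Vd s (diagc (EE Φ s) k) k (i + 1)‖ ≤ ((i : ℝ) + 1 + 1) * ((Kr i + 1) * ‖s‖) := h2
              _ = _ := by ring
        have hV0 := norm_nonneg (Vd s (diagc (EE Φ s) k) k (i + 1))
        have hfin : ((i + 1 - k : ℕ) : ℝ) * ‖Vd s (diagc (EE Φ s) k) k (i + 1)‖ ^ 2
            ≤ ((i : ℝ) + 1) * (((i : ℝ) + 2) * ((Kr i + 1) * ‖s‖)) ^ 2 := by gcongr
        exact hfin
      have hR2 := hA.trans (Finset.sum_le_sum hR)
      rw [Finset.sum_const, Finset.card_range, nsmul_eq_mul] at hR2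
      -- one term of the left-hand side
      have hL : ‖Vd s (diagc (EE Φ s) m) m (i + 1)‖ ^ 2
          ≤ ∑ k ∈ Finset.range (m + 1), ((k - (i + 1) : ℕ) : ℝ)
            * ‖Vd s (diagc (EE Φ s) k) k (i + 1)‖ ^ 2 := by
        have h1 := Finset.single_le_sum (s := Finset.range (m + 1))
          (f := fun k => ((k - (i + 1) : ℕ) : ℝ) * ‖Vd s (diagc (EE Φ s) k) k (i + 1)‖ ^ 2)
          (fun k _ => by positivity) (Finset.mem_range.mpr (Nat.lt_succ_self m))
        refine le_trans ?_ h1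
        have h2 : (1 : ℝ) ≤ ((m - (i + 1) : ℕ) : ℝ) := by
          have : 1 ≤ m - (i + 1) := by omega
          exact_mod_cast this
        have h3 := sq_nonneg ‖Vd s (diagc (EE Φ s) m) m (i + 1)‖
        show ‖Vd s (diagc (EE Φ s) m) m (i + 1)‖ ^ 2
          ≤ ((m - (i + 1) : ℕ) : ℝ) * ‖Vd s (diagc (EE Φ s) m) m (i + 1)‖ ^ 2
        nlinarith only [h2]
      have hV2 : ‖Vd s (diagc (EE Φ s) m) m (i + 1)‖
          ≤ ((i : ℝ) + 1) * ((i : ℝ) + 2) * ((Kr i + 1) * ‖s‖) := by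
        have h1 := hL.trans hR2
        apply le_of_sq_le_sq _ (by positivity)
        refine h1.trans (le_of_eq ?_)
        push_cast
        ring
      -- the decomposition of `V`
      have hdec : Vd s (diagc (EE Φ s) m) m (i + 1)
          = (∑ l ∈ Finset.range (i + 1), pq (-s) (i + 1 - l) * diagc (EE Φ s) m l)
            + diagc (EE Φ s) m (i + 1) := by
        unfold Vd
        have e : min (i + 1) m = i + 1 := by omega
        rw [e, Finset.sum_range_succ, Nat.sub_self, pq_zero, one_mul]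
      have hsum : ‖∑ l ∈ Finset.range (i + 1), pq (-s) (i + 1 - l) * diagc (EE Φ s) m l‖
          ≤ ((i : ℝ) + 1) * (Kr i * ‖s‖) := by
        calc ‖∑ l ∈ Finset.range (i + 1), pq (-s) (i + 1 - l) * diagc (EE Φ s) m l‖
            ≤ ∑ l ∈ Finset.range (i + 1), ‖pq (-s) (i + 1 - l) * diagc (EE Φ s) m l‖ :=
              norm_sum_le _ _
          _ ≤ ∑ l ∈ Finset.range (i + 1), Kr i * ‖s‖ := by
              apply Finset.sum_le_sum
              intro l hl
              rw [Finset.mem_range] at hl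
              rw [norm_mul]
              calc ‖pq (-s) (i + 1 - l)‖ * ‖diagc (EE Φ s) m l‖ ≤ 1 * (Kr i * ‖s‖) := by
                    gcongr
                    · exact pq_le_one hs _
                    · exact ih m (by omega) l (by omega) (by omega)
                _ = _ := one_mul _
          _ = _ := by
              rw [Finset.sum_const, Finset.card_range, nsmul_eq_mul]
              push_cast
              ring
      have heq : diagc (EE Φ s) m (i + 1) = Vd s (diagc (EE Φ s) m) m (i + 1)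
          - ∑ l ∈ Finset.range (i + 1), pq (-s) (i + 1 - l) * diagc (EE Φ s) m l := by
        rw [hdec]; ring
      rw [heq]
      refine (norm_sub_le _ _).trans ?_
      show _ ≤ (((i : ℝ) + 1) * (i + 2) * (Kr i + 1) + (i + 1) * Kr i) * ‖s‖
      calc ‖Vd s (diagc (EE Φ s) m) m (i + 1)‖
            + ‖∑ l ∈ Finset.range (i + 1), pq (-s) (i + 1 - l) * diagc (EE Φ s) m l‖
          ≤ ((i : ℝ) + 1) * ((i : ℝ) + 2) * ((Kr i + 1) * ‖s‖) + ((i : ℝ) + 1) * (Kr i * ‖s‖) :=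
            add_le_add hV2 hsum
        _ = _ := by ring
    intro m hm l hl hmin
    by_cases hsm : min l (m - l) ≤ i
    · refine (ih m hm l hl hsm).trans ?_
      exact mul_le_mul_of_nonneg_right (Kr_le i) hs0
    · have hmin2 : min l (m - l) = i + 1 := by omega
      rcases Nat.le_total l (m - l) with h | h
      · have hl2 : l = i + 1 := by omega
        rw [hl2]
        exact key m (by omega)
      · have hl2 : m - l = i + 1 := by omega
        rw [EE_symm hΦ s m l hl, hl2]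
        exact key m (by omega)

end AreaSAux

open AreaSAux in
/-- the coefficients of bounded order are bounded; they are of the size of `s` for `m ≥ 1` -/
theorem diag_bound (m : ℕ) : ∃ C : ℝ, 0 ≤ C ∧ ∀ (ρ : ℝ) (β H : ℂ → ℂ) (Φ : ℂ → ℂ → ℂ),
    Dat ρ β H Φ → ∀ s : ℂ, ‖s‖ ≤ 1 → ∀ l ≤ m,
      ‖diagc (EE Φ s) m l‖ ≤ C ∧ (1 ≤ m → ‖diagc (EE Φ s) m l‖ ≤ C * ‖s‖) := by
  refine ⟨Kr m + 1, by have := Kr_nonneg m; positivity, ?_⟩
  intro ρ β H Φ hD s hs l hl
  have hK := Kr_nonneg m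
  have hs0 := norm_nonneg s
  have h1 : 1 ≤ m → ‖diagc (EE Φ s) m l‖ ≤ Kr m * ‖s‖ := fun hm =>
    diag_le hD.ext hD.logPhi hs m m hm l hl (by omega)
  refine ⟨?_, fun hm => (h1 hm).trans (by linarith only [hs0])⟩
  rcases Nat.eq_zero_or_pos m with h | h
  · subst h
    have hl0 : l = 0 := by omega
    rw [hl0, EE_zero hD.logPhi s, norm_one]
    linarith only [hK]
  · refine (h1 h).trans ?_
    nlinarith only [hs, hK]

namespace AreaSAux

/-- the weights -/
noncomputable def Tn (s : ℂ) (σ : ℝ) (n : ℕ) : ℝ := ‖pq (-s) n‖ ^ 2 / pq σ n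

theorem Tn_nonneg {s : ℂ} {σ : ℝ} (hσ : 0 < σ) (n : ℕ) : 0 ≤ Tn s σ n := by
  unfold Tn
  have := pq_pos hσ n
  positivity

theorem norm_pq_succ (s : ℂ) (n : ℕ) : ‖pq (-s) (n + 1)‖ ^ 2
    = ‖pq (-s) n‖ ^ 2 * (((n : ℝ) ^ 2 - 2 * s.re * n + ‖s‖ ^ 2) / ((n : ℝ) + 1) ^ 2) := by
  rw [pq_succ, norm_mul, norm_div, mul_pow, div_pow]
  have e1 : -s + (n : ℂ) = (n : ℂ) - s := by ring
  have e : ‖(n : ℂ) + 1‖ = (n : ℝ) + 1 := by
    have : (n : ℂ) + 1 = (((n : ℝ) + 1 : ℝ) : ℂ) := by push_cast; ring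
    rw [this, Complex.norm_real, Real.norm_of_nonneg (by positivity)]
  rw [e1, normSq_nat_sub, e]

theorem Tn_succ {s : ℂ} {σ : ℝ} (hσ : 0 < σ) (n : ℕ) : Tn s σ (n + 1)
    = Tn s σ n * (((n : ℝ) ^ 2 - 2 * s.re * n + ‖s‖ ^ 2) / (((n : ℝ) + 1) * (σ + n))) := by
  unfold Tn
  rw [norm_pq_succ, pq_succ]
  have h1 := (pq_pos hσ n).ne'
  have h2 : σ + n ≠ 0 := by positivity
  have h3 : (n : ℝ) + 1 ≠ 0 := by positivity
  field_simp

/-- telescoping -/
theorem tele {s : ℂ} (hs : ‖s‖ < 1) {b c : ℝ} (hb : 0 < b) (hσ : 0 < b + 1 - 2 * s.re)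
    (hc : 0 ≤ c) (hcc : 2 * ‖s‖ ^ 2 - 2 * s.re ≤ c * (1 + b - ‖s‖ ^ 2)) {n : ℕ} (hn : 1 ≤ n) :
    b / (b + 4) * ((n : ℝ) * Tn s (b + 1 - 2 * s.re) n)
      ≤ (n : ℝ) * (n + c) * Tn s (b + 1 - 2 * s.re) n
        - ((n + 1 : ℕ) : ℝ) * (((n + 1 : ℕ) : ℝ) + c) * Tn s (b + 1 - 2 * s.re) (n + 1) := by
  have hT := Tn_nonneg (s := s) hσ n
  rw [Tn_succ hσ n]
  obtain ⟨T, hTe⟩ : ∃ T, T = Tn s (b + 1 - 2 * s.re) n := ⟨_, rfl⟩
  rw [← hTe] at hT ⊢
  have hn1 : (1 : ℝ) ≤ n := by exact_mod_cast hn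
  have hre := Complex.abs_re_le_norm s
  have hre2 := abs_lt.mp (hre.trans_lt hs)
  have hu : 0 < b + 1 - 2 * s.re + n := by linarith only [hσ]
  have hs2 : 0 ≤ ‖s‖ ^ 2 := sq_nonneg _
  obtain ⟨q, hq⟩ : ∃ q, q = ‖s‖ ^ 2 := ⟨_, rfl⟩
  obtain ⟨r, hr⟩ : ∃ r, r = s.re := ⟨_, rfl⟩
  rw [← hq] at hcc hs2 ⊢
  rw [← hr] at hre2 hcc hu ⊢
  obtain ⟨x, hx⟩ : ∃ x : ℝ, x = n := ⟨_, rfl⟩
  push_cast
  rw [← hx] at hn1 hu ⊢
  have e : x * (x + c) * T - (x + 1) * (x + 1 + c) * (T * ((x ^ 2 - 2 * r * x + q)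
      / ((x + 1) * (b + 1 - 2 * r + x))))
      = T * ((b * x ^ 2 + x * (c * (b + 1) + 2 * r - q) - q * (1 + c)) / (b + 1 - 2 * r + x)) := by
    have h1 : x + 1 ≠ 0 := by positivity
    field_simp
    ring
  rw [e]
  have h2 : b / (b + 4) * x ≤ (b * x ^ 2 + x * (c * (b + 1) + 2 * r - q) - q * (1 + c))
      / (b + 1 - 2 * r + x) := by
    rw [le_div_iff₀ hu, div_mul_eq_mul_div, div_mul_eq_mul_div, div_le_iff₀ (by linarith only [hb])]
    have h3 : 0 ≤ x * (c * (b + 1) + 2 * r - q) - q * (1 + c) := by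
      have h4 : q * (1 + c) ≤ c * (b + 1) + 2 * r - q := by linarith only [hcc]
      have h5 : 0 ≤ c * (b + 1) + 2 * r - q := le_trans (by positivity) h4
      nlinarith only [hn1, h4, h5]
    have h6 : b + 1 - 2 * r + x ≤ (b + 4) * x := by nlinarith only [hσ, hre2, hr, hn1]
    have h7 : b * x * (b + 1 - 2 * r + x) ≤ b * x * ((b + 4) * x) := by
      apply mul_le_mul_of_nonneg_left h6 (by positivity)
    have h8 : 0 ≤ (x * (c * (b + 1) + 2 * r - q) - q * (1 + c)) * (b + 4) := by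
      apply mul_nonneg h3 (by linarith only [hb])
    linarith only [h7, h8]
  calc b / (b + 4) * (x * T) = T * (b / (b + 4) * x) := by ring
    _ ≤ _ := mul_le_mul_of_nonneg_left h2 hT

/-- the sums of the weights -/
theorem sum_Tn_le {s : ℂ} (hs : ‖s‖ < 1) {b c : ℝ} (hb : 0 < b) (hσ : 0 < b + 1 - 2 * s.re)
    (hc : 0 ≤ c) (hcc : 2 * ‖s‖ ^ 2 - 2 * s.re ≤ c * (1 + b - ‖s‖ ^ 2)) (k J : ℕ) :
    ∑ j ∈ Finset.range J, ((j + 1 + k : ℕ) : ℝ) * Tn s (b + 1 - 2 * s.re) (j + 1 + k)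
      ≤ (b + 4) / b * ((1 + c) * (‖s‖ ^ 2 / (b + 1 - 2 * s.re))) := by
  obtain ⟨σ, hσe⟩ : ∃ σ, σ = b + 1 - 2 * s.re := ⟨_, rfl⟩
  have hσ' : 0 < σ := by rw [hσe]; exact hσ
  obtain ⟨G, hG⟩ : ∃ G : ℕ → ℝ, G = fun n : ℕ => (n : ℝ) * (n + c) * Tn s σ n := ⟨_, rfl⟩
  have hG0 : ∀ n : ℕ, 0 ≤ G n := by
    intro n
    rw [hG]
    have := Tn_nonneg (s := s) hσ' n
    positivity
  have hstep : ∀ n : ℕ, 1 ≤ n → b / (b + 4) * ((n : ℝ) * Tn s σ n) ≤ G n - G (n + 1) := by
    intro n hn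
    rw [hG, hσe]
    exact tele hs hb hσ hc hcc hn
  have hanti : ∀ n : ℕ, G (n + 1) ≤ G 1 := by
    intro n
    induction n with
    | zero => exact le_rfl
    | succ n ih =>
      have h1 := hstep (n + 1) (by omega)
      have h2 : 0 ≤ b / (b + 4) * (((n + 1 : ℕ) : ℝ) * Tn s σ (n + 1)) := by
        have := Tn_nonneg (s := s) hσ' (n + 1)
        positivity
      linarith only [ih, h1, h2]
  have hsum : b / (b + 4) * ∑ j ∈ Finset.range J, ((j + 1 + k : ℕ) : ℝ) * Tn s σ (j + 1 + k)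
      ≤ G (1 + k) - G (J + 1 + k) := by
    induction J with
    | zero =>
      rw [Finset.sum_range_zero, mul_zero]
      have e : 0 + 1 + k = 1 + k := by ring
      rw [e, sub_self]
    | succ J ih =>
      rw [Finset.sum_range_succ, mul_add]
      have h1 := hstep (J + 1 + k) (by omega)
      have e : J + 1 + k + 1 = J + 1 + 1 + k := by ring
      rw [e] at h1
      linarith only [ih, h1]
  have h1 : G 1 = (1 + c) * (‖s‖ ^ 2 / σ) := by
    rw [hG]
    simp only [Nat.cast_one, one_mul]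
    have h2 := Tn_succ (s := s) hσ' 0
    rw [zero_add] at h2
    rw [h2]
    unfold Tn
    rw [pq_zero, pq_zero]
    simp
  have h2 := hanti k
  have e2 : k + 1 = 1 + k := by ring
  rw [e2] at h2
  have h3 := hG0 (J + 1 + k)
  rw [← hσe]
  have h4 : b / (b + 4) * ∑ j ∈ Finset.range J, ((j + 1 + k : ℕ) : ℝ) * Tn s σ (j + 1 + k)
      ≤ (1 + c) * (‖s‖ ^ 2 / σ) := by linarith only [hsum, h1, h2, h3]
  have hb4 : 0 < b + 4 := by linarith only [hb]
  calc ∑ j ∈ Finset.range J, ((j + 1 + k : ℕ) : ℝ) * Tn s σ (j + 1 + k)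
      = (b + 4) / b * (b / (b + 4)
        * ∑ j ∈ Finset.range J, ((j + 1 + k : ℕ) : ℝ) * Tn s σ (j + 1 + k)) := by
        field_simp
    _ ≤ _ := mul_le_mul_of_nonneg_left h4 (by positivity)

/-- shifting the index of the positive weights -/
theorem pq_shift_le {σ κ : ℝ} (hκ : 0 < κ) (hκ1 : κ ≤ 1) (hκσ : κ ≤ σ) (n l : ℕ) :
    (pq σ (n + l))⁻¹ ≤ (1 / κ) ^ l * (pq σ n)⁻¹ := by
  have hσ : 0 < σ := hκ.trans_le hκσ
  induction l with
  | zero => simp
  | succ l ih =>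
    have e : n + (l + 1) = n + l + 1 := by ring
    rw [e, pq_succ, mul_inv]
    have h1 := pq_pos hσ (n + l)
    have h2 : ((σ + ((n + l : ℕ) : ℝ)) / (((n + l : ℕ) : ℝ) + 1))⁻¹ ≤ 1 / κ := by
      rw [inv_div, div_le_div_iff₀ (by positivity) hκ]
      have h3 : (0 : ℝ) ≤ ((n + l : ℕ) : ℝ) := Nat.cast_nonneg _
      nlinarith only [hκ1, hκσ]
    have h4 : 0 ≤ ((σ + ((n + l : ℕ) : ℝ)) / (((n + l : ℕ) : ℝ) + 1))⁻¹ := by positivity
    have h5 : 0 ≤ (1 / κ) ^ l * (pq σ n)⁻¹ := by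
      have := pq_pos hσ n
      positivity
    calc (pq σ (n + l))⁻¹ * ((σ + ((n + l : ℕ) : ℝ)) / (((n + l : ℕ) : ℝ) + 1))⁻¹
        ≤ ((1 / κ) ^ l * (pq σ n)⁻¹) * (1 / κ) := by gcongr
      _ = _ := by rw [pow_succ]; ring

/-- the general bound of the upper forms -/
theorem Nf_le {s : ℂ} (hs : ‖s‖ < 1) {b c κ : ℝ} (hb : 0 < b) (hσ : 0 < b + 1 - 2 * s.re)
    (hc : 0 ≤ c) (hcc : 2 * ‖s‖ ^ 2 - 2 * s.re ≤ c * (1 + b - ‖s‖ ^ 2)) (hκ : 0 < κ)
    (hκ1 : κ ≤ 1) (hκσ : κ ≤ b + 1 - 2 * s.re) {d : ℕ → ℂ} {m : ℕ} {C : ℝ} (hC : 0 ≤ C)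
    (hd : ∀ l ≤ m, ‖d l‖ ≤ C) (J : ℕ) :
    Nf s b d m J ≤ ((m : ℝ) + 1) ^ 2 * C ^ 2 * (1 / κ) ^ m
      * ((b + 4) / b * ((1 + c) * (‖s‖ ^ 2 / (b + 1 - 2 * s.re)))) := by
  obtain ⟨σ, hσe⟩ : ∃ σ, σ = b + 1 - 2 * s.re := ⟨_, rfl⟩
  obtain ⟨S, hS⟩ : ∃ S, S = (b + 4) / b * ((1 + c) * (‖s‖ ^ 2 / (b + 1 - 2 * s.re))) := ⟨_, rfl⟩
  have hsum : ∀ k, ∑ j ∈ Finset.range J, ((j + 1 + k : ℕ) : ℝ) * Tn s σ (j + 1 + k) ≤ S := by
    intro k
    rw [hσe, hS]
    exact sum_Tn_le hs hb hσ hc hcc k J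
  rw [← hS]
  rw [← hσe] at hσ hκσ
  have hk1 : 1 ≤ 1 / κ := by rw [le_div_iff₀ hκ]; linarith only [hκ1]
  -- each term
  have hterm : ∀ j ∈ Finset.range J, ((j : ℝ) + 1) * (pq σ (m + 1 + j))⁻¹
      * ‖Vd s d m (m + 1 + j)‖ ^ 2
      ≤ ∑ l ∈ Finset.range (m + 1), ((m : ℝ) + 1) * C ^ 2 * (1 / κ) ^ m
        * (((j + 1 + (m - l) : ℕ) : ℝ) * Tn s σ (j + 1 + (m - l))) := by
    intro j _
    have hV : ‖Vd s d m (m + 1 + j)‖ ^ 2 ≤ ((m : ℝ) + 1) * ∑ l ∈ Finset.range (m + 1),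
        C ^ 2 * ‖pq (-s) (m + 1 + j - l)‖ ^ 2 := by
      unfold Vd
      have e : min (m + 1 + j) m = m := by omega
      rw [e]
      have h1 : ‖∑ l ∈ Finset.range (m + 1), pq (-s) (m + 1 + j - l) * d l‖
          ≤ ∑ l ∈ Finset.range (m + 1), C * ‖pq (-s) (m + 1 + j - l)‖ := by
        refine (norm_sum_le _ _).trans ?_
        apply Finset.sum_le_sum
        intro l hl
        rw [Finset.mem_range] at hl
        rw [norm_mul, mul_comm]
        gcongr
        exact hd l (by omega)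
      have h2 := pow_le_pow_left₀ (norm_nonneg _) h1 2
      refine h2.trans ?_
      have h3 := sq_sum_le_card_mul_sum_sq (s := Finset.range (m + 1))
        (f := fun l => C * ‖pq (-s) (m + 1 + j - l)‖)
      rw [Finset.card_range] at h3
      push_cast at h3
      refine h3.trans (le_of_eq ?_)
      congr 1
      apply Finset.sum_congr rfl
      intro l _
      rw [mul_pow]
    have hp := pq_pos hσ (m + 1 + j)
    calc ((j : ℝ) + 1) * (pq σ (m + 1 + j))⁻¹ * ‖Vd s d m (m + 1 + j)‖ ^ 2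
        ≤ ((j : ℝ) + 1) * (pq σ (m + 1 + j))⁻¹ * (((m : ℝ) + 1) * ∑ l ∈ Finset.range (m + 1),
          C ^ 2 * ‖pq (-s) (m + 1 + j - l)‖ ^ 2) := by gcongr
      _ = ∑ l ∈ Finset.range (m + 1), ((m : ℝ) + 1) * C ^ 2 * (((j : ℝ) + 1)
          * ((pq σ (m + 1 + j))⁻¹ * ‖pq (-s) (m + 1 + j - l)‖ ^ 2)) := by
          rw [Finset.mul_sum, Finset.mul_sum]
          apply Finset.sum_congr rfl
          intro l _
          ring
      _ ≤ _ := by
          apply Finset.sum_le_sum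
          intro l hl
          rw [Finset.mem_range] at hl
          have e1 : m + 1 + j - l = j + 1 + (m - l) := by omega
          have e2 : m + 1 + j = (j + 1 + (m - l)) + l := by omega
          rw [e1, e2]
          obtain ⟨n, hn⟩ : ∃ n, n = j + 1 + (m - l) := ⟨_, rfl⟩
          rw [← hn]
          have h1 := pq_shift_le hκ hκ1 hκσ n l
          have h2 : (1 / κ) ^ l ≤ (1 / κ) ^ m := pow_le_pow_right₀ hk1 (by omega)
          have h3 : (j : ℝ) + 1 ≤ (n : ℝ) := by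
            have : j + 1 ≤ n := by omega
            exact_mod_cast this
          have hpn := pq_pos hσ n
          have h4 : (pq σ (n + l))⁻¹ * ‖pq (-s) n‖ ^ 2 ≤ (1 / κ) ^ m * Tn s σ n := by
            calc (pq σ (n + l))⁻¹ * ‖pq (-s) n‖ ^ 2
                ≤ ((1 / κ) ^ l * (pq σ n)⁻¹) * ‖pq (-s) n‖ ^ 2 := by gcongr
              _ ≤ ((1 / κ) ^ m * (pq σ n)⁻¹) * ‖pq (-s) n‖ ^ 2 := by gcongr
              _ = _ := by unfold Tn; ring
          have hTn := Tn_nonneg (s := s) hσ n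
          have hpl := pq_pos hσ (n + l)
          have h5 : 0 ≤ (pq σ (n + l))⁻¹ * ‖pq (-s) n‖ ^ 2 := by positivity
          calc ((m : ℝ) + 1) * C ^ 2 * (((j : ℝ) + 1) * ((pq σ (n + l))⁻¹ * ‖pq (-s) n‖ ^ 2))
              ≤ ((m : ℝ) + 1) * C ^ 2 * ((n : ℝ) * ((1 / κ) ^ m * Tn s σ n)) := by gcongr
            _ = _ := by ring
  unfold Nf
  rw [← hσe]
  refine (Finset.sum_le_sum hterm).trans ?_
  rw [Finset.sum_comm]
  have hfin : ∀ l ∈ Finset.range (m + 1), ∑ j ∈ Finset.range J, ((m : ℝ) + 1) * C ^ 2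
      * (1 / κ) ^ m * (((j + 1 + (m - l) : ℕ) : ℝ) * Tn s σ (j + 1 + (m - l)))
      ≤ ((m : ℝ) + 1) * C ^ 2 * (1 / κ) ^ m * S := by
    intro l _
    rw [← Finset.mul_sum]
    exact mul_le_mul_of_nonneg_left (hsum (m - l)) (by positivity)
  refine (Finset.sum_le_sum hfin).trans (le_of_eq ?_)
  rw [Finset.sum_const, Finset.card_range, nsmul_eq_mul]
  push_cast
  ring

end AreaSAux

open AreaSAux in
theorem Nf_small_fixed {s : ℂ} (hs : ‖s‖ < 1) {b : ℝ} (hb : 0 < b)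
    (hσ : 0 < b + 1 - 2 * s.re) (m : ℕ) : ∃ C : ℝ, 0 ≤ C ∧
    ∀ (ρ : ℝ) (β H : ℂ → ℂ) (Φ : ℂ → ℂ → ℂ), Dat ρ β H Φ →
      ∀ J : ℕ, Nf s b (diagc (EE Φ s) m) m J ≤ C := by
  obtain ⟨C, hC0, hC⟩ := diag_bound m
  have hre := Complex.abs_re_le_norm s
  have hre2 := abs_lt.mp (hre.trans_lt hs)
  have hsn := norm_nonneg s
  have hs2 : ‖s‖ ^ 2 < 1 := by nlinarith only [hs, hsn]
  have hκ : 0 < min 1 (b + 1 - 2 * s.re) := lt_min one_pos hσ
  have h1s : 0 < 1 - ‖s‖ ^ 2 := by linarith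
  have hc0 : 0 ≤ 4 / (1 - ‖s‖ ^ 2) := by positivity
  have hcc : 2 * ‖s‖ ^ 2 - 2 * s.re ≤ 4 / (1 - ‖s‖ ^ 2) * (1 + b - ‖s‖ ^ 2) := by
    have h1 : 4 / (1 - ‖s‖ ^ 2) * (1 - ‖s‖ ^ 2) = 4 := by field_simp
    have h2 : 4 / (1 - ‖s‖ ^ 2) * (1 + b - ‖s‖ ^ 2)
        = 4 / (1 - ‖s‖ ^ 2) * (1 - ‖s‖ ^ 2) + 4 / (1 - ‖s‖ ^ 2) * b := by ring
    rw [h2, h1]
    have h3 : 0 ≤ 4 / (1 - ‖s‖ ^ 2) * b := by positivity
    linarith only [hre2, hs2, h3]
  refine ⟨((m : ℝ) + 1) ^ 2 * C ^ 2 * (1 / min 1 (b + 1 - 2 * s.re)) ^ m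
      * ((b + 4) / b * ((1 + 4 / (1 - ‖s‖ ^ 2)) * (‖s‖ ^ 2 / (b + 1 - 2 * s.re)))), by
    positivity, ?_⟩
  intro ρ β H Φ hD J
  exact Nf_le hs hb hσ hc0 hcc hκ (min_le_left _ _) (min_le_right _ _) hC0
    (fun l hl => (hC ρ β H Φ hD s hs.le l hl).1) J

end Pool.Agent.M16.Helper24.HR2

end

section

set_option autoImplicit false

open MeasureTheory Set Metric Filter Topology

open scoped ENNReal NNReal Real Nat ComplexConjugate

namespace Pool.Agent.M16.Helper39.HR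

open Pool.Agent.M16.Helper22.Half

open Pool.Agent.M16.Helper39.Area (Ext phi)

open Pool.Agent.M16.Helper22.Marshall (coeff coeff_mul coeff_congr coeff_eq_of_hasSum hasSum_coeff hasSum_coeff_deriv coeff_zero coeff_const_mul SepHol LogPhi dcoeff)

/-- the operator `t d/dt` on power series -/
noncomputable def Dt {R : Type} [CommRing R] (f : PowerSeries R) : PowerSeries R :=
  PowerSeries.mk fun n => (n : R) * PowerSeries.coeff n f

theorem coeff_Dt {R : Type} [CommRing R] (f : PowerSeries R) (n : ℕ) :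
    PowerSeries.coeff n (Dt f) = (n : R) * PowerSeries.coeff n f := PowerSeries.coeff_mk _ _

theorem Dt_mul {R : Type} [CommRing R] (f g : PowerSeries R) :
    Dt (f * g) = Dt f * g + f * Dt g := by
  ext n
  rw [coeff_Dt, map_add, PowerSeries.coeff_mul, PowerSeries.coeff_mul, PowerSeries.coeff_mul,
    Finset.mul_sum, ← Finset.sum_add_distrib]
  apply Finset.sum_congr rfl
  intro p hp
  rw [Finset.HasAntidiagonal.mem_antidiagonal] at hp
  rw [coeff_Dt, coeff_Dt, ← hp]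
  push_cast
  ring

theorem Dt_add {R : Type} [CommRing R] (f g : PowerSeries R) : Dt (f + g) = Dt f + Dt g := by
  ext n
  rw [coeff_Dt, map_add, map_add, coeff_Dt, coeff_Dt]
  ring

theorem Dt_sub {R : Type} [CommRing R] (f g : PowerSeries R) : Dt (f - g) = Dt f - Dt g := by
  ext n
  rw [coeff_Dt, map_sub, map_sub, coeff_Dt, coeff_Dt]
  ring

theorem Dt_C_mul {R : Type} [CommRing R] (c : R) (f : PowerSeries R) :
    Dt (PowerSeries.C c * f) = PowerSeries.C c * Dt f := by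
  ext n
  rw [coeff_Dt, PowerSeries.coeff_C_mul, PowerSeries.coeff_C_mul, coeff_Dt]
  ring

theorem Dt_map {R S : Type} [CommRing R] [CommRing S] (f0 : R →+* S) (f : PowerSeries R) :
    PowerSeries.map f0 (Dt f) = Dt (PowerSeries.map f0 f) := by
  ext n
  rw [PowerSeries.coeff_map, coeff_Dt, coeff_Dt, PowerSeries.coeff_map, map_mul, map_natCast]

/-- the operator `x d/dx` on power series in `t` with polynomial coefficients in `x` -/
noncomputable def Th (f : PowerSeries (Polynomial ℂ)) : PowerSeries (Polynomial ℂ) :=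
  PowerSeries.mk fun n => Polynomial.X * Polynomial.derivative (PowerSeries.coeff n f)

theorem coeff_Th (f : PowerSeries (Polynomial ℂ)) (n : ℕ) :
    PowerSeries.coeff n (Th f) = Polynomial.X * Polynomial.derivative (PowerSeries.coeff n f) :=
  PowerSeries.coeff_mk _ _

theorem Th_mul (f g : PowerSeries (Polynomial ℂ)) : Th (f * g) = Th f * g + f * Th g := by
  ext1 n
  rw [coeff_Th, map_add, PowerSeries.coeff_mul, PowerSeries.coeff_mul, PowerSeries.coeff_mul,
    Polynomial.derivative_sum, Finset.mul_sum, ← Finset.sum_add_distrib]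
  apply Finset.sum_congr rfl
  intro p _
  rw [coeff_Th, coeff_Th, Polynomial.derivative_mul]
  ring

theorem Th_add (f g : PowerSeries (Polynomial ℂ)) : Th (f + g) = Th f + Th g := by
  ext1 n
  rw [coeff_Th, map_add, Polynomial.derivative_add, (PowerSeries.coeff n).map_add, coeff_Th,
    coeff_Th]
  ring

theorem Th_C_mul (c : ℂ) (f : PowerSeries (Polynomial ℂ)) :
    Th (PowerSeries.C (Polynomial.C c) * f) = PowerSeries.C (Polynomial.C c) * Th f := by
  ext1 n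
  rw [coeff_Th, PowerSeries.coeff_C_mul, PowerSeries.coeff_C_mul, coeff_Th,
    Polynomial.derivative_C_mul]
  ring

theorem Dt_Th (f : PowerSeries (Polynomial ℂ)) : Dt (Th f) = Th (Dt f) := by
  ext1 n
  rw [coeff_Dt, coeff_Th, coeff_Th, coeff_Dt, Polynomial.derivative_natCast_mul]
  ring

/-- evaluation of the coefficients at `1` -/
noncomputable def Ev (f : PowerSeries (Polynomial ℂ)) : PowerSeries ℂ :=
  PowerSeries.map (Polynomial.evalRingHom (1 : ℂ)) f

/-- power series with coefficients given by a double array -/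
noncomputable def Pa (a : ℕ → ℕ → ℂ) : PowerSeries (Polynomial ℂ) :=
  PowerSeries.mk fun m => ∑ l ∈ Finset.range (m + 1), Polynomial.C (a m l) * Polynomial.X ^ l

theorem Th_Pa (a : ℕ → ℕ → ℂ) : Th (Pa a) = Pa (fun m l => (l : ℂ) * a m l) := by
  ext1 m
  rw [coeff_Th, Pa, Pa, PowerSeries.coeff_mk, PowerSeries.coeff_mk, Polynomial.derivative_sum,
    Finset.mul_sum]
  apply Finset.sum_congr rfl
  intro l _
  rw [Polynomial.derivative_C_mul_X_pow]
  cases l with
  | zero => simp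
  | succ l =>
    rw [Nat.add_sub_cancel, pow_succ, Polynomial.C_mul, Polynomial.C_mul]
    ring

theorem Ev_Pa (a : ℕ → ℕ → ℂ) (m : ℕ) :
    PowerSeries.coeff m (Ev (Pa a)) = ∑ l ∈ Finset.range (m + 1), a m l := by
  rw [Ev, PowerSeries.coeff_map, Pa, PowerSeries.coeff_mk, Polynomial.coe_evalRingHom,
    Polynomial.eval_finsetSum]
  apply Finset.sum_congr rfl
  intro l _
  simp

/-- the Taylor series of a function at zero -/
noncomputable def psf (f : ℂ → ℂ) : PowerSeries ℂ := PowerSeries.mk (coeff f)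

theorem coeff_psf (f : ℂ → ℂ) (n : ℕ) : PowerSeries.coeff n (psf f) = coeff f n :=
  PowerSeries.coeff_mk _ _

theorem anAt {f : ℂ → ℂ} (hf : DifferentiableOn ℂ f (ball 0 1)) : AnalyticAt ℂ f 0 :=
  hf.analyticAt (ball_mem_nhds _ one_pos)

theorem psf_mul {f g : ℂ → ℂ} (hf : DifferentiableOn ℂ f (ball 0 1))
    (hg : DifferentiableOn ℂ g (ball 0 1)) : psf (fun z => f z * g z) = psf f * psf g := by
  ext n
  rw [coeff_psf, coeff_mul (anAt hf) (anAt hg), PowerSeries.coeff_mul,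
    Finset.Nat.sum_antidiagonal_eq_sum_range_succ_mk]
  apply Finset.sum_congr rfl
  intro k _
  rw [coeff_psf, coeff_psf]

theorem psf_congr {f g : ℂ → ℂ} (h : ∀ z ∈ ball (0 : ℂ) 1, f z = g z) : psf f = psf g := by
  ext n
  rw [coeff_psf, coeff_psf]
  apply coeff_congr
  filter_upwards [ball_mem_nhds (0 : ℂ) one_pos] with z hz
  exact h z hz

theorem psf_const_mul (c : ℂ) (f : ℂ → ℂ) :
    psf (fun z => c * f z) = PowerSeries.C c * psf f := by
  ext n
  rw [coeff_psf, PowerSeries.coeff_C_mul, coeff_psf, coeff_const_mul]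

theorem psf_D {f : ℂ → ℂ} (hf : DifferentiableOn ℂ f (ball 0 1)) :
    psf (fun z => z * deriv f z) = Dt (psf f) := by
  ext n
  rw [coeff_psf, coeff_Dt, coeff_psf]
  exact coeff_eq_of_hasSum (f := fun z => z * deriv f z) (a := fun n => (n : ℂ) * coeff f n)
    one_pos (fun z hz => hasSum_coeff_deriv hf hz) n

/-- the logarithmic derivative of an exponential -/
theorem psf_exp {f : ℂ → ℂ} (hf : DifferentiableOn ℂ f (ball 0 1)) (s : ℂ) :
    Dt (psf (fun z => Complex.exp (s * f z)))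
      = PowerSeries.C s * (psf (fun z => z * deriv f z) * psf (fun z => Complex.exp (s * f z))) := by
  have h1 : DifferentiableOn ℂ (fun z => Complex.exp (s * f z)) (ball 0 1) :=
    (hf.const_mul s).cexp
  have h2 : DifferentiableOn ℂ (fun z => z * deriv f z) (ball 0 1) :=
    differentiableOn_id.mul (hf.deriv isOpen_ball)
  rw [← psf_D h1, ← psf_mul h2 h1, ← psf_const_mul]
  apply psf_congr
  intro z hz
  have h3 := (hf.differentiableAt (isOpen_ball.mem_nhds hz)).hasDerivAt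
  have h4 := ((h3.const_mul s).cexp).deriv
  rw [h4]
  ring

theorem coeff_scale {f : ℂ → ℂ} (hf : DifferentiableOn ℂ f (ball 0 1)) {x : ℂ} (hx : ‖x‖ ≤ 1)
    (n : ℕ) : coeff (fun w => f (x * w)) n = coeff f n * x ^ n := by
  apply coeff_eq_of_hasSum (f := fun w => f (x * w)) (a := fun n => coeff f n * x ^ n) one_pos
  intro z hz
  have h1 : ‖x * z‖ < 1 := by
    rw [norm_mul]
    have := norm_nonneg z
    nlinarith only [hx, hz, this]
  have h2 := hasSum_coeff hf h1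
  have e : (fun n => coeff f n * x ^ n * z ^ n) = fun n => coeff f n * (x * z) ^ n := by
    funext n
    rw [mul_pow]
    ring
  rw [e]
  exact h2

theorem mul_mem_ball {x z : ℂ} (hx : ‖x‖ ≤ 1) (hz : z ∈ ball (0 : ℂ) 1) :
    x * z ∈ ball (0 : ℂ) 1 := by
  rw [mem_ball_zero_iff] at hz ⊢
  rw [norm_mul]
  have := norm_nonneg z
  nlinarith only [hx, hz, this]

theorem sep_scale {U : ℂ → ℂ → ℂ} (h : SepHol U) {x : ℂ} (hx : ‖x‖ ≤ 1) :
    SepHol (fun z w => U z (x * w)) where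
  cont := by
    have := h.cont.comp (f := fun p : ℂ × ℂ => (p.1, x * p.2)) (s := ball 0 1 ×ˢ ball 0 1)
      (by fun_prop) (fun p hp => ⟨hp.1, mul_mem_ball hx hp.2⟩)
    exact this
  left := fun w hw => h.left _ (mul_mem_ball hx hw)
  right := fun z hz => by
    have := (h.right z hz).comp (f := fun w => x * w) (s := ball 0 1)
      (by fun_prop) (fun w hw => mul_mem_ball hx hw)
    exact this

theorem coeff_diag_scale {U : ℂ → ℂ → ℂ} (h : SepHol U) {x : ℂ} (hx : ‖x‖ ≤ 1) (m : ℕ) :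
    coeff (fun z => U z (x * z)) m = ∑ l ∈ Finset.range (m + 1), diagc U m l * x ^ l := by
  have h1 := (sep_scale h hx).hasSum_diag m
  rw [h1, ← Finset.sum_range_reflect]
  apply Finset.sum_congr rfl
  intro l hl
  rw [Finset.mem_range] at hl
  have e1 : m + 1 - 1 - l = m - l := by omega
  have e2 : m - (m - l) = l := by omega
  rw [e1, e2]
  unfold diagc dcoeff
  have h2 : coeff (fun z => coeff (fun w => U z (x * w)) l) (m - l)
      = coeff (fun z => x ^ l * coeff (fun w => U z w) l) (m - l) := by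
    apply coeff_congr
    filter_upwards [ball_mem_nhds (0 : ℂ) one_pos] with z hz
    rw [coeff_scale (h.right z hz) hx, mul_comm]
  rw [h2, coeff_const_mul, mul_comm]

/-- the coefficients of the two point function -/
noncomputable def qa (β : ℂ → ℂ) (k l : ℕ) : ℂ :=
  if l = 0 then (if k = 0 then 1 else 0) else (if l < k then -coeff β (k - 1) else 0)

theorem qa_sum (β : ℂ → ℂ) (f : ℕ → ℂ) (k : ℕ) :
    ∑ l ∈ Finset.range (k + 1 + 1), qa β (k + 1) l * f l
      = -coeff β k * ∑ l ∈ Finset.range k, f (l + 1) := by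
  rw [Finset.sum_range_succ', Finset.sum_range_succ]
  have e0 : qa β (k + 1) 0 = 0 := by simp [qa]
  have e1 : qa β (k + 1) (k + 1) = 0 := by simp [qa]
  rw [e0, e1, zero_mul, zero_mul, add_zero, add_zero, Finset.mul_sum]
  apply Finset.sum_congr rfl
  intro l hl
  rw [Finset.mem_range] at hl
  have e2 : qa β (k + 1) (l + 1) = -coeff β k := by
    unfold qa
    rw [if_neg (Nat.succ_ne_zero l), if_pos (by omega), Nat.add_sub_cancel]
  rw [e2]

theorem qa_zero (β : ℂ → ℂ) (f : ℕ → ℂ) :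
    ∑ l ∈ Finset.range (0 + 1), qa β 0 l * f l = f 0 := by
  simp [qa]

theorem qq_line {β : ℂ → ℂ} {x : ℂ} (hx1 : x ≠ 1) (z : ℂ) :
    Pool.Agent.M16.Helper39.Area.qq β z (x * z) = 1 - x * z * (β (x * z) - β z) / (x - 1) := by
  unfold Pool.Agent.M16.Helper39.Area.qq
  by_cases hz : z = 0
  · subst hz; simp
  · have h1 : x - 1 ≠ 0 := sub_ne_zero.mpr hx1
    have h2 : x * z ≠ z := by
      intro h
      apply h1
      have : (x - 1) * z = 0 := by linear_combination h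
      exact (mul_eq_zero.mp this).resolve_right hz
    have h3 : x * z - z ≠ 0 := sub_ne_zero.mpr h2
    rw [dslope_of_ne _ h2, slope_def_field]
    have h4 : x * z - z = z * (x - 1) := by ring
    rw [h4]
    field_simp

theorem coeff_qq {β : ℂ → ℂ} (hβ : DifferentiableOn ℂ β (ball 0 1)) {x : ℂ} (hx : ‖x‖ < 1)
    (m : ℕ) : coeff (fun z => Pool.Agent.M16.Helper39.Area.qq β z (x * z)) m
      = ∑ l ∈ Finset.range (m + 1), qa β m l * x ^ l := by
  have hx1 : x ≠ 1 := by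
    rintro rfl
    simp at hx
  have h1 : x - 1 ≠ 0 := sub_ne_zero.mpr hx1
  apply coeff_eq_of_hasSum (f := fun z => Pool.Agent.M16.Helper39.Area.qq β z (x * z))
    (a := fun m => ∑ l ∈ Finset.range (m + 1), qa β m l * x ^ l) one_pos
  intro z hz
  rw [qq_line hx1, ← hasSum_nat_add_iff' 1]
  rw [Finset.sum_range_one, qa_zero, pow_zero, pow_zero, mul_one]
  have hxz : ‖x * z‖ < 1 := by
    rw [norm_mul]
    have := norm_nonneg z
    nlinarith only [hx, hz, this]
  have h2 := ((hasSum_coeff hβ hxz).sub (hasSum_coeff hβ hz)).mul_left (-(x * z) / (x - 1))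
  have e1 : 1 - x * z * (β (x * z) - β z) / (x - 1) - 1
      = -(x * z) / (x - 1) * (β (x * z) - β z) := by ring
  rw [e1]
  have e2 : (fun n => (∑ l ∈ Finset.range (n + 1 + 1), qa β (n + 1) l * x ^ l) * z ^ (n + 1))
      = fun n => -(x * z) / (x - 1) * (coeff β n * (x * z) ^ n - coeff β n * z ^ n) := by
    funext n
    rw [qa_sum]
    have e3 : ∑ l ∈ Finset.range n, x ^ (l + 1) = x * ((x ^ n - 1) / (x - 1)) := by
      rw [← geom_sum_eq hx1, Finset.mul_sum]
      apply Finset.sum_congr rfl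
      intro l _
      rw [pow_succ]; ring
    rw [e3, mul_pow]
    field_simp
    ring
  rw [e2]
  exact h2

theorem map_Pa (a : ℕ → ℕ → ℂ) (x : ℂ) (m : ℕ) :
    PowerSeries.coeff m (PowerSeries.map (Polynomial.evalRingHom x) (Pa a))
      = ∑ l ∈ Finset.range (m + 1), a m l * x ^ l := by
  rw [PowerSeries.coeff_map, Pa, PowerSeries.coeff_mk, Polynomial.coe_evalRingHom,
    Polynomial.eval_finsetSum]
  apply Finset.sum_congr rfl
  intro l _
  simp

section

variable {β H : ℂ → ℂ} {Φ : ℂ → ℂ → ℂ}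

theorem line_diff (hE : Ext β) (hΦ : LogPhi β H Φ) {x : ℂ} (hx : ‖x‖ < 1) :
    DifferentiableOn ℂ (fun z => Φ z (x * z)) (ball 0 1) := by
  have hx1 : x ≠ 1 := by
    rintro rfl
    simp at hx
  apply Pool.Agent.M16.Helper22.Marshall.differentiableOn_of_exp isOpen_ball
  · have := hΦ.sep.cont.comp (f := fun z : ℂ => (z, x * z)) (s := ball 0 1)
      (by fun_prop) (fun z hz => ⟨hz, mul_mem_ball hx.le hz⟩)
    exact this
  · have h1 : DifferentiableOn ℂ (fun z => 1 - x * z * (β (x * z) - β z) / (x - 1))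
        (ball 0 1) := by
      have h2 := hE.diff
      have h3 : DifferentiableOn ℂ (fun z => β (x * z)) (ball 0 1) :=
        h2.comp (f := fun z => x * z) (by fun_prop) (fun z hz => mul_mem_ball hx.le hz)
      have h4 : DifferentiableOn ℂ (fun z : ℂ => x * z) (ball 0 1) := by fun_prop
      exact ((h4.mul (h3.sub h2)).div_const _).const_sub _
    apply h1.congr
    intro z hz
    rw [hΦ.exp_eq z hz _ (mul_mem_ball hx.le hz), qq_line hx1]

theorem map_E (hΦ : LogPhi β H Φ) (s : ℂ) {x : ℂ} (hx : ‖x‖ < 1) :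
    PowerSeries.map (Polynomial.evalRingHom x) (Pa (fun m l => diagc (EE Φ s) m l))
      = psf (fun z => Complex.exp (s * Φ z (x * z))) := by
  ext m
  rw [map_Pa, coeff_psf, ← coeff_diag_scale (EE_sep hΦ s) hx.le]
  rfl

theorem map_Q (hE : Ext β) (hΦ : LogPhi β H Φ) {x : ℂ} (hx : ‖x‖ < 1) :
    PowerSeries.map (Polynomial.evalRingHom x) (Pa (qa β))
      = psf (fun z => Complex.exp (1 * Φ z (x * z))) := by
  ext m
  rw [map_Pa, coeff_psf, ← coeff_qq hE.diff hx]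
  apply coeff_congr
  filter_upwards [ball_mem_nhds (0 : ℂ) one_pos] with z hz
  rw [one_mul, hΦ.exp_eq z hz _ (mul_mem_ball hx.le hz)]

theorem poly_ode (hE : Ext β) (hΦ : LogPhi β H Φ) (s : ℂ) :
    Dt (Pa (fun m l => diagc (EE Φ s) m l)) * Pa (qa β)
      = PowerSeries.C (Polynomial.C s) * (Pa (fun m l => diagc (EE Φ s) m l) * Dt (Pa (qa β))) := by
  ext1 n
  apply Polynomial.eq_of_infinite_eval_eq
  apply Set.Infinite.mono (s := ball (0 : ℂ) 1)
  · intro x hx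
    rw [mem_ball_zero_iff] at hx
    show Polynomial.evalRingHom x _ = Polynomial.evalRingHom x _
    rw [← PowerSeries.coeff_map, ← PowerSeries.coeff_map]
    refine congrArg (PowerSeries.coeff n) ?_
    rw [map_mul, map_mul, map_mul, Dt_map, Dt_map, map_E hΦ s hx, map_Q hE hΦ hx,
      psf_exp (line_diff hE hΦ hx), psf_exp (line_diff hE hΦ hx), PowerSeries.map_C,
      Polynomial.coe_evalRingHom, Polynomial.eval_C, map_one]
    ring
  · exact infinite_of_mem_nhds (0 : ℂ) (ball_mem_nhds _ one_pos)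

theorem Ev_Q (hE : Ext β) (hΦ : LogPhi β H Φ) :
    Ev (Pa (qa β)) = psf (fun z => Complex.exp (1 * H z)) := by
  ext m
  rw [Ev_Pa, coeff_psf]
  have h1 : coeff (fun z => Complex.exp (1 * H z)) m = coeff (fun z => 1 - z * (z * deriv β z)) m := by
    apply coeff_congr
    filter_upwards [ball_mem_nhds (0 : ℂ) one_pos] with z hz
    rw [one_mul, ← hΦ.diag z hz, hΦ.exp_eq z hz z hz]
    unfold Pool.Agent.M16.Helper39.Area.qq
    rw [dslope_same]
    ring
  rw [h1]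
  symm
  apply coeff_eq_of_hasSum (f := fun z => 1 - z * (z * deriv β z))
    (a := fun m => ∑ l ∈ Finset.range (m + 1), qa β m l) one_pos
  intro z hz
  rw [← hasSum_nat_add_iff' 1]
  have h0 := qa_zero β (fun _ => 1)
  simp only [mul_one] at h0
  rw [Finset.sum_range_one, h0, pow_zero, mul_one]
  have h2 := (hasSum_coeff_deriv hE.diff hz).mul_left (-z)
  have e1 : 1 - z * (z * deriv β z) - 1 = -z * (z * deriv β z) := by ring
  rw [e1]
  have e2 : (fun n => (∑ l ∈ Finset.range (n + 1 + 1), qa β (n + 1) l) * z ^ (n + 1))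
      = fun n : ℕ => -z * ((n : ℂ) * coeff β n * z ^ n) := by
    funext n
    have h3 := qa_sum β (fun _ => 1) n
    simp only [mul_one, Finset.sum_const, Finset.card_range, nsmul_eq_mul] at h3
    rw [h3, pow_succ]
    ring
  rw [e2]
  exact h2

end

end Pool.Agent.M16.Helper39.HR

end

section

set_option autoImplicit false

open MeasureTheory Set Metric Filter Topology

open scoped Real ComplexConjugate

namespace Pool.Agent.M16.Helper39.MH

open Pool.Agent.M16.Helper22.Half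

open Pool.Agent.M16.Helper22.Marshall (coeff SepHol LogPhi dcoeff GLe coeff_eq_of_hasSum hasSum_coeff)

open Pool.Agent.M16.Helper39.Area (Ext phi)

open Pool.Agent.M16.Helper39.HR (Dt coeff_Dt Dt_mul Th coeff_Th Th_mul Th_Pa Ev Pa Ev_Pa psf coeff_psf psf_mul psf_congr psf_const_mul psf_D qa qa_sum map_E map_Q Ev_Q line_diff)

/-- `X_j`: `(th - 1)^j (1/G) = X_j / G` -/
noncomputable def XX (H : ℂ → ℂ) : ℕ → (ℂ → ℂ)
  | 0 => fun _ => 1
  | (n + 1) => fun z => th (XX H n) z - 2 * gg H 0 z * XX H n z - XX H n z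

theorem Dt_Pa (a : ℕ → ℕ → ℂ) : Dt (Pa a) = Pa (fun m l => (m : ℂ) * a m l) := by
  ext1 m
  rw [coeff_Dt, Pa, Pa, PowerSeries.coeff_mk, PowerSeries.coeff_mk, Finset.mul_sum]
  apply Finset.sum_congr rfl
  intro l _
  rw [Polynomial.C_mul, map_natCast]
  ring

/-- the derivation `z^m x^l -> (l - m/2) z^m x^l` -/
noncomputable def La (f : PowerSeries (Polynomial ℂ)) : PowerSeries (Polynomial ℂ) :=
  Th f - PowerSeries.C (Polynomial.C (1 / 2 : ℂ)) * Dt f

theorem La_mul (f g : PowerSeries (Polynomial ℂ)) : La (f * g) = La f * g + f * La g := by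
  unfold La
  rw [Th_mul, Dt_mul]
  ring

theorem La_add (f g : PowerSeries (Polynomial ℂ)) : La (f + g) = La f + La g := by
  unfold La
  rw [Pool.Agent.M16.Helper39.HR.Th_add, Pool.Agent.M16.Helper39.HR.Dt_add]
  ring

theorem La_Pa (a : ℕ → ℕ → ℂ) : La (Pa a) = Pa (fun m l => ((l : ℂ) - m / 2) * a m l) := by
  unfold La
  rw [Th_Pa, Dt_Pa]
  ext1 m
  rw [map_sub, PowerSeries.coeff_C_mul, Pa, Pa, Pa, PowerSeries.coeff_mk, PowerSeries.coeff_mk,
    PowerSeries.coeff_mk, Finset.mul_sum, ← Finset.sum_sub_distrib]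
  apply Finset.sum_congr rfl
  intro l _
  rw [← mul_assoc, ← Polynomial.C_mul, ← sub_mul, ← Polynomial.C_sub]
  congr 2
  ring

private theorem sum_refl_zero {f : ℕ → ℂ} {m : ℕ} (h : ∀ l ≤ m, f (m - l) = -f l) :
    ∑ l ∈ Finset.range (m + 1), f l = 0 := by
  have h1 := Finset.sum_range_reflect f (m + 1)
  have h2 : ∑ j ∈ Finset.range (m + 1), f (m + 1 - 1 - j) = -∑ l ∈ Finset.range (m + 1), f l := by
    rw [← Finset.sum_neg_distrib]
    apply Finset.sum_congr rfl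
    intro l hl
    rw [Finset.mem_range] at hl
    rw [Nat.add_sub_cancel, h l (by omega)]
  rw [h2] at h1
  have h3 : (2 : ℂ) * ∑ l ∈ Finset.range (m + 1), f l = 0 := by linear_combination -h1
  exact (mul_eq_zero.mp h3).resolve_left two_ne_zero

/-- the odd moments of a symmetric array vanish -/
theorem ev_odd {a : ℕ → ℕ → ℂ} (ha : ∀ m, ∀ l ≤ m, a m l = a m (m - l)) {c : ℕ → ℕ → ℂ}
    (hc : ∀ m, ∀ l ≤ m, c m (m - l) = -c m l) : Ev (Pa (fun m l => c m l * a m l)) = 0 := by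
  ext m
  rw [Ev_Pa, map_zero]
  apply sum_refl_zero
  intro l hl
  rw [hc m l hl, ← ha m l hl]
  ring

theorem qa_symm (β : ℂ → ℂ) (m : ℕ) : ∀ l ≤ m, qa β m l = qa β m (m - l) := by
  intro l hl
  unfold qa
  by_cases h0 : l = 0
  · subst h0
    rw [if_pos rfl, Nat.sub_zero]
    by_cases h1 : m = 0
    · simp [h1]
    · rw [if_neg h1, if_neg h1, if_neg (lt_irrefl m)]
  · rw [if_neg h0]
    by_cases h1 : l = m
    · subst h1
      rw [if_neg (lt_irrefl l), Nat.sub_self, if_pos rfl, if_neg h0]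
    · rw [if_pos (by omega), if_neg (by omega), if_pos (by omega)]

private theorem sum_pow1 (c : ℂ) (k : ℕ) : ∑ l ∈ Finset.range k, (((l + 1 : ℕ) : ℂ) - c) ^ 2
    = (k : ℂ) * (k + 1) * (2 * k + 1) / 6 - c * (k * (k + 1)) + c ^ 2 * k := by
  induction k with
  | zero => simp
  | succ k ih =>
    rw [Finset.sum_range_succ, ih]
    push_cast
    ring

private theorem sum_pow4 (c : ℂ) (k : ℕ) : ∑ l ∈ Finset.range k, (((l + 1 : ℕ) : ℂ) - c) ^ 4
    = (k : ℂ) * (k + 1) * (2 * k + 1) * (3 * k ^ 2 + 3 * k - 1) / 30 - c * (k * (k + 1)) ^ 2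
      + c ^ 2 * (k * (k + 1) * (2 * k + 1)) - 2 * c ^ 3 * (k * (k + 1)) + c ^ 4 * k := by
  induction k with
  | zero => simp
  | succ k ih =>
    rw [Finset.sum_range_succ, ih]
    push_cast
    ring

/-- the operator `Dt - 1` -/
noncomputable def Dm (f : PowerSeries ℂ) : PowerSeries ℂ := Dt f - f

theorem coeff_Dm (f : PowerSeries ℂ) (n : ℕ) :
    PowerSeries.coeff n (Dm f) = ((n : ℂ) - 1) * PowerSeries.coeff n f := by
  rw [Dm, map_sub, coeff_Dt]
  ring

theorem ev_Q0 (β : ℂ → ℂ) (m : ℕ) : PowerSeries.coeff m (Ev (Pa (qa β)))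
    = if m = 0 then 1 else -coeff β (m - 1) * ((m : ℂ) - 1) := by
  rw [Ev_Pa]
  cases m with
  | zero => simp [qa]
  | succ m =>
    have h2 := qa_sum β (fun _ => 1) m
    simp only [mul_one, Finset.sum_const, Finset.card_range, nsmul_eq_mul] at h2
    rw [h2, if_neg (Nat.succ_ne_zero m), Nat.add_sub_cancel]
    push_cast
    ring

theorem ev_Q2 (β : ℂ → ℂ) : Ev (La (La (Pa (qa β))))
    = PowerSeries.C (1 / 12) * (Dm (Dm (Ev (Pa (qa β)))) - Ev (Pa (qa β))) := by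
  ext m
  rw [La_Pa, La_Pa, Ev_Pa, PowerSeries.coeff_C_mul, map_sub, coeff_Dm, coeff_Dm, ev_Q0]
  cases m with
  | zero => simp [qa]
  | succ m =>
    have h1 := qa_sum β (fun l => ((l : ℂ) - ((m + 1 : ℕ) : ℂ) / 2) ^ 2) m
    rw [sum_pow1] at h1
    rw [if_neg (Nat.succ_ne_zero m), Nat.add_sub_cancel]
    have h3 : ∑ l ∈ Finset.range (m + 1 + 1), ((l : ℂ) - ((m + 1 : ℕ) : ℂ) / 2)
          * (((l : ℂ) - ((m + 1 : ℕ) : ℂ) / 2) * qa β (m + 1) l)
        = ∑ l ∈ Finset.range (m + 1 + 1), qa β (m + 1) l * ((l : ℂ) - ((m + 1 : ℕ) : ℂ) / 2) ^ 2 := by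
      apply Finset.sum_congr rfl
      intro l _
      ring
    rw [h3, h1]
    push_cast
    ring

theorem ev_Q4 (β : ℂ → ℂ) : Ev (La (La (La (La (Pa (qa β))))))
    = PowerSeries.C (1 / 240) * (3 * Dm (Dm (Dm (Dm (Ev (Pa (qa β))))))
        - 10 * Dm (Dm (Ev (Pa (qa β)))) + 7 * Ev (Pa (qa β))) := by
  have hc : ∀ (k : ℕ) (f : PowerSeries ℂ) (n : ℕ), PowerSeries.coeff n ((k : PowerSeries ℂ) * f)
      = (k : ℂ) * PowerSeries.coeff n f := by
    intro k f n
    rw [← map_natCast (PowerSeries.C (R := ℂ)) k, PowerSeries.coeff_C_mul]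
  ext m
  have h3' := hc 3 (Dm (Dm (Dm (Dm (Ev (Pa (qa β))))))) m
  have h10' := hc 10 (Dm (Dm (Ev (Pa (qa β))))) m
  have h7' := hc 7 (Ev (Pa (qa β))) m
  push_cast at h3' h10' h7'
  rw [La_Pa, La_Pa, La_Pa, La_Pa, Ev_Pa, PowerSeries.coeff_C_mul, map_add, map_sub, h3', h10', h7',
    coeff_Dm, coeff_Dm, coeff_Dm, coeff_Dm, ev_Q0]
  cases m with
  | zero => simp [qa]; norm_num
  | succ m =>
    have h1 := qa_sum β (fun l => ((l : ℂ) - ((m + 1 : ℕ) : ℂ) / 2) ^ 4) m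
    rw [sum_pow4] at h1
    rw [if_neg (Nat.succ_ne_zero m), Nat.add_sub_cancel]
    have h3 : ∑ l ∈ Finset.range (m + 1 + 1), ((l : ℂ) - ((m + 1 : ℕ) : ℂ) / 2)
          * (((l : ℂ) - ((m + 1 : ℕ) : ℂ) / 2) * (((l : ℂ) - ((m + 1 : ℕ) : ℂ) / 2)
          * (((l : ℂ) - ((m + 1 : ℕ) : ℂ) / 2) * qa β (m + 1) l)))
        = ∑ l ∈ Finset.range (m + 1 + 1), qa β (m + 1) l * ((l : ℂ) - ((m + 1 : ℕ) : ℂ) / 2) ^ 4 := by
      apply Finset.sum_congr rfl
      intro l _
      ring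
    rw [h3, h1]
    push_cast
    ring

theorem psf_sub {f g : ℂ → ℂ} (hf : DifferentiableOn ℂ f (ball 0 1))
    (hg : DifferentiableOn ℂ g (ball 0 1)) : psf (fun z => f z - g z) = psf f - psf g := by
  ext n
  rw [map_sub, coeff_psf, coeff_psf, coeff_psf]
  apply coeff_eq_of_hasSum (f := fun z => f z - g z) (a := fun n => coeff f n - coeff g n) one_pos
  intro z hz
  have h1 := (hasSum_coeff hf hz).sub (hasSum_coeff hg hz)
  have e : (fun n => (coeff f n - coeff g n) * z ^ n)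
      = fun n => coeff f n * z ^ n - coeff g n * z ^ n := by
    funext n
    ring
  rw [e]
  exact h1

private theorem th_diffA {f : ℂ → ℂ} (hf : DifferentiableOn ℂ f (ball 0 1)) :
    DifferentiableOn ℂ (th f) (ball 0 1) := differentiableOn_id.mul (hf.deriv isOpen_ball)

theorem gg0_diff {H : ℂ → ℂ} (hH : DifferentiableOn ℂ H (ball 0 1)) :
    DifferentiableOn ℂ (gg H 0) (ball 0 1) := by
  unfold gg
  exact (th_diffA hH).neg.div_const 2

theorem XX_diff {H : ℂ → ℂ} (hH : DifferentiableOn ℂ H (ball 0 1)) (n : ℕ) :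
    DifferentiableOn ℂ (XX H n) (ball 0 1) := by
  induction n with
  | zero => exact differentiableOn_const 1
  | succ n ih =>
    show DifferentiableOn ℂ (fun z => th (XX H n) z - 2 * gg H 0 z * XX H n z - XX H n z) (ball 0 1)
    exact ((th_diffA ih).sub (((gg0_diff hH).const_mul 2).mul ih)).sub ih

/-- `x_n = X_n exp H` -/
theorem psf_XX {H : ℂ → ℂ} (hH : DifferentiableOn ℂ H (ball 0 1)) (n : ℕ) :
    psf (fun z => XX H (n + 1) z * Complex.exp (H z))
      = Dm (psf (fun z => XX H n z * Complex.exp (H z))) := by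
  have hX := XX_diff hH n
  have hF : DifferentiableOn ℂ (fun z => XX H n z * Complex.exp (H z)) (ball 0 1) :=
    hX.mul hH.cexp
  rw [Dm, ← psf_D hF, ← psf_sub (f := fun z => z * deriv (fun z => XX H n z * Complex.exp (H z)) z)
      (differentiableOn_id.mul (hF.deriv isOpen_ball)) hF]
  apply psf_congr
  intro z hz
  have h1 := (hX.differentiableAt (isOpen_ball.mem_nhds hz)).hasDerivAt
  have h2 := (hH.differentiableAt (isOpen_ball.mem_nhds hz)).hasDerivAt
  have h3 := (h1.mul h2.cexp).deriv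
  have h4 : deriv (fun z => XX H n z * Complex.exp (H z)) z
      = deriv (XX H n) z * Complex.exp (H z) + XX H n z * (Complex.exp (H z) * deriv H z) := h3
  have h5 : gg H 0 z = -(z * deriv H z) / 2 := by
    unfold gg
    rfl
  show XX H (n + 1) z * Complex.exp (H z)
    = z * deriv (fun z => XX H n z * Complex.exp (H z)) z - XX H n z * Complex.exp (H z)
  rw [h4]
  show (th (XX H n) z - 2 * gg H 0 z * XX H n z - XX H n z) * Complex.exp (H z) = _
  rw [h5, th]
  ring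

theorem psf_X0 {H : ℂ → ℂ} : psf (fun z => XX H 0 z * Complex.exp (H z))
    = psf (fun z => Complex.exp (1 * H z)) := by
  apply psf_congr
  intro z _
  show 1 * Complex.exp (H z) = _
  rw [one_mul, one_mul]

section

variable {β H : ℂ → ℂ} {Φ : ℂ → ℂ → ℂ}

end

theorem Data.diff1 {ρ : ℝ} {β H : ℂ → ℂ} {Φ : ℂ → ℂ → ℂ} (h : Data ρ β H Φ) :
    DifferentiableOn ℂ H (ball 0 1) := h.diff.mono (ball_subset_ball h.one_lt.le)

end Pool.Agent.M16.Helper39.MH

end

section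

set_option autoImplicit false

open MeasureTheory Set Metric Filter Topology

open scoped Real ComplexConjugate

namespace Pool.Agent.M16.Helper39.MH

open Pool.Agent.M16.Helper22.Half

open Pool.Agent.M16.Helper22.Marshall (coeff SepHol LogPhi dcoeff GLe coeff_eq_of_hasSum hasSum_coeff coeff_const_mul)

open Pool.Agent.M16.Helper39.Area (Ext phi)

/-- `F` is differentiable at `z` and `th F z = d` -/
def HT (F : ℂ → ℂ) (z d : ℂ) : Prop := DifferentiableAt ℂ F z ∧ th F z = d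

theorem HT.add {F K : ℂ → ℂ} {z a b : ℂ} (hF : HT F z a) (hK : HT K z b) :
    HT (fun w => F w + K w) z (a + b) :=
  ⟨hF.1.fun_add hK.1, by rw [th_add hF.1 hK.1, hF.2, hK.2]⟩

theorem HT.mul {F K : ℂ → ℂ} {z a b : ℂ} (hF : HT F z a) (hK : HT K z b) :
    HT (fun w => F w * K w) z (a * K z + F z * b) :=
  ⟨hF.1.fun_mul hK.1, by rw [th_mul hF.1 hK.1, hF.2, hK.2]⟩

theorem HT.const (c z : ℂ) : HT (fun _ => c) z 0 :=
  ⟨differentiableAt_const c, th_const c z⟩

theorem HT.cm (c : ℂ) {F : ℂ → ℂ} {z a : ℂ} (hF : HT F z a) :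
    HT (fun w => c * F w) z (c * a) :=
  ⟨hF.1.const_mul c, by rw [th_const_mul c hF.1, hF.2]⟩

theorem HT.congr {F K : ℂ → ℂ} {z a : ℂ} (hF : HT F z a) (h : K =ᶠ[𝓝 z] F) : HT K z a :=
  ⟨hF.1.congr_of_eventuallyEq h, by rw [th_congr h, hF.2]⟩

section

variable {H : ℂ → ℂ} {ρ : ℝ}

theorem HT_gg (hρ : 0 < ρ) (hH : DifferentiableOn ℂ H (ball 0 ρ)) {z : ℂ}
    (hz : z ∈ ball (0 : ℂ) ρ) (n : ℕ) : HT (gg H n) z (dval (fun k => gg H k z) n) :=
  ⟨(gg_diff hρ hH n).differentiableAt (isOpen_ball.mem_nhds hz), th_gg n⟩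

theorem HT_g0 (hρ : 0 < ρ) (hH : DifferentiableOn ℂ H (ball 0 ρ)) {z : ℂ}
    (hz : z ∈ ball (0 : ℂ) ρ) : HT (gg H 0) z (3 * gg H 1 z - gg H 0 z ^ 2) := by
  have h := HT_gg hρ hH hz 0
  simpa [dval] using h

theorem HT_g1 (hρ : 0 < ρ) (hH : DifferentiableOn ℂ H (ball 0 ρ)) {z : ℂ}
    (hz : z ∈ ball (0 : ℂ) ρ) : HT (gg H 1) z (4 * gg H 2 z) := by
  have h := HT_gg hρ hH hz 1
  have e : dval (fun k => gg H k z) 1 = 4 * gg H 2 z := by
    unfold dval
    rw [if_neg one_ne_zero]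
    simp only [Nat.cast_one, Nat.sub_self, Finset.range_zero, Finset.sum_empty]
    ring
  rw [e] at h
  exact h

theorem HT_g2 (hρ : 0 < ρ) (hH : DifferentiableOn ℂ H (ball 0 ρ)) {z : ℂ}
    (hz : z ∈ ball (0 : ℂ) ρ) : HT (gg H 2) z (5 * gg H 3 z + gg H 1 z ^ 2) := by
  have h := HT_gg hρ hH hz 2
  have e : dval (fun k => gg H k z) 2 = 5 * gg H 3 z + gg H 1 z ^ 2 := by
    unfold dval
    rw [if_neg two_ne_zero]
    have e1 : Finset.range (2 - 1) = Finset.range 1 := rfl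
    rw [e1, Finset.sum_range_one]
    push_cast
    ring
  rw [e] at h
  exact h

theorem XX_one (z : ℂ) : XX H 1 z = -(2 * gg H 0 z + 1) := by
  have e : XX H 1 z = th (XX H 0) z - 2 * gg H 0 z * XX H 0 z - XX H 0 z := rfl
  have e0 : XX H 0 = fun _ => (1 : ℂ) := rfl
  rw [e, e0, th_const]
  ring

theorem XX_succ (n : ℕ) (z : ℂ) :
    XX H (n + 1) z = th (XX H n) z - 2 * gg H 0 z * XX H n z - XX H n z := rfl

theorem HT_XX1 (hρ : 0 < ρ) (hH : DifferentiableOn ℂ H (ball 0 ρ)) {z : ℂ}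
    (hz : z ∈ ball (0 : ℂ) ρ) : HT (XX H 1) z (-2 * (3 * gg H 1 z - gg H 0 z ^ 2)) := by
  have h := ((HT_g0 hρ hH hz).cm (-2)).add (HT.const (-1) z)
  rw [add_zero] at h
  refine h.congr (Eventually.of_forall fun w => ?_)
  show XX H 1 w = -2 * gg H 0 w + -1
  rw [XX_one]
  ring

theorem XX_two (hρ : 0 < ρ) (hH : DifferentiableOn ℂ H (ball 0 ρ)) {z : ℂ}
    (hz : z ∈ ball (0 : ℂ) ρ) :
    XX H 2 z = 1 + 4 * gg H 0 z + 6 * gg H 0 z ^ 2 - 6 * gg H 1 z := by
  rw [XX_succ, (HT_XX1 hρ hH hz).2, XX_one]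
  ring

theorem HT_XX2 (hρ : 0 < ρ) (hH : DifferentiableOn ℂ H (ball 0 ρ)) {z : ℂ}
    (hz : z ∈ ball (0 : ℂ) ρ) :
    HT (XX H 2) z ((4 + 12 * gg H 0 z) * (3 * gg H 1 z - gg H 0 z ^ 2) - 24 * gg H 2 z) := by
  have h0 := HT_g0 hρ hH hz
  have h1 := HT_g1 hρ hH hz
  have h := ((h0.cm 4).add ((h0.mul h0).cm 6)).add ((h1.cm (-6)).add (HT.const 1 z))
  have h2 := h.congr (K := XX H 2) (by
    filter_upwards [isOpen_ball.mem_nhds hz] with w hw
    rw [XX_two hρ hH hw]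
    ring)
  refine ⟨h2.1, ?_⟩
  rw [h2.2]
  ring

theorem XX_three (hρ : 0 < ρ) (hH : DifferentiableOn ℂ H (ball 0 ρ)) {z : ℂ}
    (hz : z ∈ ball (0 : ℂ) ρ) :
    XX H 3 z = (4 + 12 * gg H 0 z) * (3 * gg H 1 z - gg H 0 z ^ 2) - 24 * gg H 2 z
      - (2 * gg H 0 z + 1) * (1 + 4 * gg H 0 z + 6 * gg H 0 z ^ 2 - 6 * gg H 1 z) := by
  rw [XX_succ, (HT_XX2 hρ hH hz).2, XX_two hρ hH hz]
  ring

theorem HT_XX3 (hρ : 0 < ρ) (hH : DifferentiableOn ℂ H (ball 0 ρ)) {z : ℂ}
    (hz : z ∈ ball (0 : ℂ) ρ) :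
    HT (XX H 3) z (12 * (3 * gg H 1 z - gg H 0 z ^ 2) ^ 2
      + (4 + 12 * gg H 0 z) * (12 * gg H 2 z - 2 * gg H 0 z * (3 * gg H 1 z - gg H 0 z ^ 2))
      - 24 * (5 * gg H 3 z + gg H 1 z ^ 2)
      - 2 * (3 * gg H 1 z - gg H 0 z ^ 2)
        * (1 + 4 * gg H 0 z + 6 * gg H 0 z ^ 2 - 6 * gg H 1 z)
      - (2 * gg H 0 z + 1)
        * ((4 + 12 * gg H 0 z) * (3 * gg H 1 z - gg H 0 z ^ 2) - 24 * gg H 2 z)) := by
  have h0 := HT_g0 hρ hH hz
  have h1 := HT_g1 hρ hH hz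
  have h2 := HT_g2 hρ hH hz
  have hX := HT_XX2 hρ hH hz
  have ha := (HT.const 4 z).add (h0.cm 12)
  have hb := (h1.cm 3).add ((h0.mul h0).cm (-1))
  have hc := ((h0.cm (-2)).add (HT.const (-1) z)).mul hX
  have h := ((ha.mul hb).add (h2.cm (-24))).add hc
  have h3 := h.congr (K := XX H 3) (by
    filter_upwards [isOpen_ball.mem_nhds hz] with w hw
    rw [XX_three hρ hH hw, XX_two hρ hH hw]
    ring)
  refine ⟨h3.1, ?_⟩
  rw [h3.2, XX_two hρ hH hz]
  ring

theorem XX_four (hρ : 0 < ρ) (hH : DifferentiableOn ℂ H (ball 0 ρ)) {z : ℂ}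
    (hz : z ∈ ball (0 : ℂ) ρ) :
    XX H 4 z = (12 * (3 * gg H 1 z - gg H 0 z ^ 2) ^ 2
      + (4 + 12 * gg H 0 z) * (12 * gg H 2 z - 2 * gg H 0 z * (3 * gg H 1 z - gg H 0 z ^ 2))
      - 24 * (5 * gg H 3 z + gg H 1 z ^ 2)
      - 2 * (3 * gg H 1 z - gg H 0 z ^ 2)
        * (1 + 4 * gg H 0 z + 6 * gg H 0 z ^ 2 - 6 * gg H 1 z)
      - (2 * gg H 0 z + 1)
        * ((4 + 12 * gg H 0 z) * (3 * gg H 1 z - gg H 0 z ^ 2) - 24 * gg H 2 z))
      - (2 * gg H 0 z + 1) * ((4 + 12 * gg H 0 z) * (3 * gg H 1 z - gg H 0 z ^ 2)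
        - 24 * gg H 2 z
        - (2 * gg H 0 z + 1) * (1 + 4 * gg H 0 z + 6 * gg H 0 z ^ 2 - 6 * gg H 1 z)) := by
  rw [XX_succ, (HT_XX3 hρ hH hz).2, XX_three hρ hH hz]
  ring

end

section

variable {H : ℂ → ℂ}

end

end Pool.Agent.M16.Helper39.MH

end

section

set_option autoImplicit false

open MeasureTheory Set Metric Filter Topology

open scoped Real ComplexConjugate

namespace Pool.Agent.M16.Helper24.HR2

open Pool.Agent.M16.Helper22.Half

open Pool.Agent.M16.Helper22.Marshall (coeff SepHol LogPhi dcoeff GLe)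

open Pool.Agent.M16.Helper39.Area (Ext phi)

open Pool.Agent.M16.Helper39.MH

open Pool.Agent.M16.Helper39.HR (Dt coeff_Dt Dt_mul Dt_sub Dt_C_mul Dt_Th Th coeff_Th Th_mul Th_C_mul Th_Pa Ev Pa Ev_Pa psf coeff_psf psf_mul psf_congr psf_const_mul qa Ev_Q poly_ode)

/-- uniqueness for `q x' = c q' x` -/
theorem ode_zero {q X c : PowerSeries (Polynomial ℂ)} (hq : PowerSeries.coeff 0 q = 1)
    (hX : PowerSeries.coeff 0 X = 0) (h : q * Dt X = c * (Dt q * X)) : X = 0 := by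
  ext1 n
  rw [map_zero]
  induction n using Nat.strong_induction_on with
  | _ n ih =>
    rcases Nat.eq_zero_or_pos n with h0 | hpos
    · rw [h0]
      exact hX
    · have h1 := congrArg (PowerSeries.coeff n) h
      rw [PowerSeries.coeff_mul, PowerSeries.coeff_mul] at h1
      have h2 : ∀ j ≤ n, PowerSeries.coeff j (Dt q * X) = 0 := by
        intro j hj
        rw [PowerSeries.coeff_mul]
        apply Finset.sum_eq_zero
        intro p hp
        rw [Finset.HasAntidiagonal.mem_antidiagonal] at hp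
        rcases Nat.eq_zero_or_pos p.1 with h3 | h3
        · rw [h3, coeff_Dt, Nat.cast_zero, zero_mul, zero_mul]
        · rw [ih p.2 (by omega), mul_zero]
      have h3 : ∑ p ∈ Finset.HasAntidiagonal.antidiagonal n,
          PowerSeries.coeff p.1 c * PowerSeries.coeff p.2 (Dt q * X) = 0 := by
        apply Finset.sum_eq_zero
        intro p hp
        rw [Finset.HasAntidiagonal.mem_antidiagonal] at hp
        rw [h2 p.2 (by omega), mul_zero]
      have h4 : ∑ p ∈ Finset.HasAntidiagonal.antidiagonal n,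
          PowerSeries.coeff p.1 q * PowerSeries.coeff p.2 (Dt X)
            = (n : Polynomial ℂ) * PowerSeries.coeff n X := by
        rw [Finset.sum_eq_single (0, n)]
        · rw [hq, coeff_Dt, one_mul]
        · intro p hp hne
          rw [Finset.HasAntidiagonal.mem_antidiagonal] at hp
          have hlt : p.2 < n := by
            rcases Nat.lt_or_ge p.2 n with h5 | h5
            · exact h5
            · exfalso
              apply hne
              have h6 : p.1 = 0 := by omega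
              have h7 : p.2 = n := by omega
              exact Prod.ext h6 h7
          rw [coeff_Dt, ih p.2 hlt, mul_zero, mul_zero]
        · intro hn
          exfalso
          apply hn
          rw [Finset.HasAntidiagonal.mem_antidiagonal]
          exact zero_add n
      rw [h3, h4] at h1
      have h5 : (n : Polynomial ℂ) ≠ 0 := by
        exact_mod_cast hpos.ne'
      exact (mul_eq_zero.mp h1).resolve_left h5

theorem La_C_mul (c : ℂ) (f : PowerSeries (Polynomial ℂ)) :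
    La (PowerSeries.C (Polynomial.C c) * f) = PowerSeries.C (Polynomial.C c) * La f := by
  unfold La
  rw [Th_C_mul, Dt_C_mul]
  ring

section

variable {β H : ℂ → ℂ} {Φ : ℂ → ℂ → ℂ}

theorem th_ode (hE : Ext β) (hΦ : LogPhi β H Φ) (s : ℂ) :
    Th (Pa (fun m l => diagc (EE Φ s) m l)) * Pa (qa β)
      = PowerSeries.C (Polynomial.C s) * (Pa (fun m l => diagc (EE Φ s) m l) * Th (Pa (qa β))) := by
  have hode := poly_ode hE hΦ s
  have hq : PowerSeries.coeff 0 (Pa (qa β)) = 1 := by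
    rw [Pa, PowerSeries.coeff_mk]
    simp [qa]
  have hT0 : ∀ a : ℕ → ℕ → ℂ, PowerSeries.coeff 0 (Th (Pa a)) = 0 := by
    intro a
    rw [Th_Pa, Pa, PowerSeries.coeff_mk]
    simp
  have ht1 := congrArg Th hode
  rw [Th_mul, Th_C_mul, Th_mul, ← Dt_Th, ← Dt_Th] at ht1
  rw [← sub_eq_zero]
  apply ode_zero (q := Pa (qa β)) (c := 1 + PowerSeries.C (Polynomial.C s)) hq
  · rw [map_sub, PowerSeries.coeff_mul, PowerSeries.coeff_C_mul, PowerSeries.coeff_mul]
    simp [hT0]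
  · rw [Dt_sub, Dt_C_mul, Dt_mul, Dt_mul]
    linear_combination Pa (qa β) * ht1
      - (1 + PowerSeries.C (Polynomial.C s)) * Th (Pa (qa β)) * hode

theorem la_ode (hE : Ext β) (hΦ : LogPhi β H Φ) (s : ℂ) :
    La (Pa (fun m l => diagc (EE Φ s) m l)) * Pa (qa β)
      = PowerSeries.C (Polynomial.C s) * (Pa (fun m l => diagc (EE Φ s) m l) * La (Pa (qa β))) := by
  have h1 := poly_ode hE hΦ s
  have h2 := th_ode hE hΦ s
  unfold La
  linear_combination h2 - PowerSeries.C (Polynomial.C (1 / 2 : ℂ)) * h1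

private theorem half_refl_pv1 (m l : ℕ) (hl : l ≤ m) :
    (((m - l : ℕ) : ℂ) - m / 2) = -((l : ℂ) - m / 2) := by
  rw [Nat.cast_sub hl]
  ring

private theorem odd1_pv1 {a : ℕ → ℕ → ℂ} (ha : ∀ m, ∀ l ≤ m, a m l = a m (m - l)) :
    Ev (La (Pa a)) = 0 := by
  rw [La_Pa]
  exact ev_odd ha (fun m l hl => half_refl_pv1 m l hl)

private theorem odd3_pv1 {a : ℕ → ℕ → ℂ} (ha : ∀ m, ∀ l ≤ m, a m l = a m (m - l)) :
    Ev (La (La (La (Pa a)))) = 0 := by
  rw [La_Pa, La_Pa, La_Pa]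
  have h := ev_odd (c := fun m l => ((l : ℂ) - m / 2) ^ 3) ha
    (fun m l hl => by simp only [half_refl_pv1 m l hl]; ring)
  rw [← h]
  congr 1
  congr 1
  funext m l
  ring

/-- the two identities at the diagonal, `q0 e2 = s e0 q2` and
`q0 e4 = s (q4 e0 + 3 q2 e2) - 3 e2 q2` -/
theorem momentsS (hE : Ext β) (hΦ : LogPhi β H Φ) (s : ℂ) :
    Ev (La (La (Pa (fun m l => diagc (EE Φ s) m l)))) * Ev (Pa (qa β))
      = PowerSeries.C s * (Ev (Pa (fun m l => diagc (EE Φ s) m l)) * Ev (La (La (Pa (qa β))))) ∧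
    Ev (La (La (La (La (Pa (fun m l => diagc (EE Φ s) m l)))))) * Ev (Pa (qa β))
      = PowerSeries.C s * (Ev (Pa (fun m l => diagc (EE Φ s) m l))
            * Ev (La (La (La (La (Pa (qa β))))))
          + 3 * (Ev (La (La (Pa (fun m l => diagc (EE Φ s) m l)))) * Ev (La (La (Pa (qa β))))))
        - 3 * (Ev (La (La (Pa (fun m l => diagc (EE Φ s) m l)))) * Ev (La (La (Pa (qa β))))) := by
  have h1 := la_ode hE hΦ s
  have hsE := fun m => EE_symm hΦ s m
  have hsQ := fun m => qa_symm β m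
  have oE1 : Ev (La (Pa (fun m l => diagc (EE Φ s) m l))) = 0 := odd1_pv1 hsE
  have oE3 : Ev (La (La (La (Pa (fun m l => diagc (EE Φ s) m l))))) = 0 := odd3_pv1 hsE
  have oQ1 : Ev (La (Pa (qa β))) = 0 := odd1_pv1 hsQ
  have oQ3 : Ev (La (La (La (Pa (qa β))))) = 0 := odd3_pv1 hsQ
  generalize Pa (fun m l => diagc (EE Φ s) m l) = E at *
  generalize Pa (qa β) = Q at *
  have h2 := congrArg La h1
  rw [La_mul, La_C_mul, La_mul] at h2
  have h3 := congrArg La h2
  rw [La_add, La_mul, La_mul, La_C_mul, La_add, La_mul, La_mul] at h3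
  have h4 := congrArg La h3
  rw [La_add, La_add, La_add, La_C_mul, La_add, La_add, La_add] at h4
  simp only [La_mul] at h4
  have hmul : ∀ a b, Ev (a * b) = Ev a * Ev b := fun a b => map_mul _ a b
  have hadd : ∀ a b, Ev (a + b) = Ev a + Ev b := fun a b => map_add _ a b
  have hC : Ev (PowerSeries.C (Polynomial.C s)) = PowerSeries.C s := by
    rw [Ev, PowerSeries.map_C, Polynomial.coe_evalRingHom, Polynomial.eval_C]
  have g2 := congrArg Ev h2
  have g4 := congrArg Ev h4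
  simp only [hmul, hadd, hC, oE1, oE3, oQ1, oQ3] at g2 g4
  constructor
  · linear_combination g2
  · linear_combination g4

end

theorem ev_ES {β H : ℂ → ℂ} {Φ : ℂ → ℂ → ℂ} (hΦ : LogPhi β H Φ) (s : ℂ) :
    Ev (Pa (fun m l => diagc (EE Φ s) m l)) = psf (fun z => Complex.exp (s * H z)) := by
  ext n
  rw [Ev_Pa, coeff_psf]
  exact EE_diag hΦ s n

private theorem half_sum (d : ℕ → ℂ) (m : ℕ) :
    ∑ l ∈ Finset.range (m + 1), d l * ((l : ℂ) - m / 2) ^ 2
      = ∑ l ∈ Finset.range (m + 1), ((l : ℂ) - m / 2) * (((l : ℂ) - m / 2) * d l) := by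
  apply Finset.sum_congr rfl
  intro l _
  ring

private theorem half_sum4 (d : ℕ → ℂ) (m : ℕ) :
    ∑ l ∈ Finset.range (m + 1), d l * ((l : ℂ) - m / 2) ^ 4
      = ∑ l ∈ Finset.range (m + 1), ((l : ℂ) - m / 2) * (((l : ℂ) - m / 2)
        * (((l : ℂ) - m / 2) * (((l : ℂ) - m / 2) * d l))) := by
  apply Finset.sum_congr rfl
  intro l _
  ring

private theorem dsub_pv1 {f g : ℂ → ℂ} (hf : DifferentiableOn ℂ f (ball 0 1))
    (hg : DifferentiableOn ℂ g (ball 0 1)) : DifferentiableOn ℂ (fun z => f z - g z) (ball 0 1) :=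
  hf.sub hg

private theorem dadd {f g : ℂ → ℂ} (hf : DifferentiableOn ℂ f (ball 0 1))
    (hg : DifferentiableOn ℂ g (ball 0 1)) : DifferentiableOn ℂ (fun z => f z + g z) (ball 0 1) :=
  hf.add hg

private theorem dmul_pv1 {f g : ℂ → ℂ} (hf : DifferentiableOn ℂ f (ball 0 1))
    (hg : DifferentiableOn ℂ g (ball 0 1)) : DifferentiableOn ℂ (fun z => f z * g z) (ball 0 1) :=
  hf.mul hg

private theorem dcm_pv1 (c : ℂ) {f : ℂ → ℂ} (hf : DifferentiableOn ℂ f (ball 0 1)) :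
    DifferentiableOn ℂ (fun z => c * f z) (ball 0 1) := hf.const_mul c

private theorem dpow (n : ℕ) {f : ℂ → ℂ} (hf : DifferentiableOn ℂ f (ball 0 1)) :
    DifferentiableOn ℂ (fun z => f z ^ n) (ball 0 1) := hf.fun_pow n

/-- the diagonal of `La La Q` -/
noncomputable def q2f (H : ℂ → ℂ) (z : ℂ) : ℂ :=
  1 / 12 * (XX H 2 z * Complex.exp (H z) - XX H 0 z * Complex.exp (H z))

/-- the diagonal of `La La La La Q` -/
noncomputable def q4f (H : ℂ → ℂ) (z : ℂ) : ℂ :=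
  1 / 240 * (3 * (XX H 4 z * Complex.exp (H z)) - (10 * (XX H 2 z * Complex.exp (H z))
    - 7 * (XX H 0 z * Complex.exp (H z))))

theorem q2f_diff {H : ℂ → ℂ} (hH : DifferentiableOn ℂ H (ball 0 1)) :
    DifferentiableOn ℂ (q2f H) (ball 0 1) := by
  have hX : ∀ n, DifferentiableOn ℂ (fun z => XX H n z * Complex.exp (H z)) (ball 0 1) :=
    fun n => (XX_diff hH n).mul hH.cexp
  exact dcm_pv1 _ (dsub_pv1 (hX 2) (hX 0))

theorem q4f_diff {H : ℂ → ℂ} (hH : DifferentiableOn ℂ H (ball 0 1)) :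
    DifferentiableOn ℂ (q4f H) (ball 0 1) := by
  have hX : ∀ n, DifferentiableOn ℂ (fun z => XX H n z * Complex.exp (H z)) (ball 0 1) :=
    fun n => (XX_diff hH n).mul hH.cexp
  exact dcm_pv1 _ (dsub_pv1 (dcm_pv1 _ (hX 4)) (dsub_pv1 (dcm_pv1 _ (hX 2)) (dcm_pv1 _ (hX 0))))

theorem ev_q2f {β H : ℂ → ℂ} {Φ : ℂ → ℂ → ℂ} (hE : Ext β) (hΦ : LogPhi β H Φ)
    (hH : DifferentiableOn ℂ H (ball 0 1)) :
    Ev (La (La (Pa (qa β)))) = psf (q2f H) := by
  have hX : ∀ n, DifferentiableOn ℂ (fun z => XX H n z * Complex.exp (H z)) (ball 0 1) :=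
    fun n => (XX_diff hH n).mul hH.cexp
  rw [ev_Q2, Ev_Q hE hΦ, ← psf_X0, ← psf_XX hH, ← psf_XX hH, ← psf_sub (hX 2) (hX 0),
    ← psf_const_mul]
  rfl

theorem ev_q4f {β H : ℂ → ℂ} {Φ : ℂ → ℂ → ℂ} (hE : Ext β) (hΦ : LogPhi β H Φ)
    (hH : DifferentiableOn ℂ H (ball 0 1)) :
    Ev (La (La (La (La (Pa (qa β)))))) = psf (q4f H) := by
  have hX : ∀ n, DifferentiableOn ℂ (fun z => XX H n z * Complex.exp (H z)) (ball 0 1) :=
    fun n => (XX_diff hH n).mul hH.cexp
  have cst : ∀ k : ℕ, (k : PowerSeries ℂ) = PowerSeries.C (k : ℂ) := by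
    intro k
    rw [map_natCast]
  have c3 : (3 : PowerSeries ℂ) = PowerSeries.C (3 : ℂ) := by exact_mod_cast cst 3
  have c10 : (10 : PowerSeries ℂ) = PowerSeries.C (10 : ℂ) := by exact_mod_cast cst 10
  have c7 : (7 : PowerSeries ℂ) = PowerSeries.C (7 : ℂ) := by exact_mod_cast cst 7
  rw [ev_Q4, Ev_Q hE hΦ, ← psf_X0, ← psf_XX hH, ← psf_XX hH, ← psf_XX hH, ← psf_XX hH]
  have e : psf (q4f H) = psf (fun z => 1 / 240 * (3 * (XX H 4 z * Complex.exp (H z))
        - (10 * (XX H 2 z * Complex.exp (H z)) - 7 * (XX H 0 z * Complex.exp (H z))))) := rfl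
  rw [e, psf_const_mul, psf_sub (dcm_pv1 3 (hX 4)) (dsub_pv1 (dcm_pv1 10 (hX 2)) (dcm_pv1 7 (hX 0))),
    psf_sub (dcm_pv1 10 (hX 2)) (dcm_pv1 7 (hX 0)), psf_const_mul, psf_const_mul, psf_const_mul,
    c3, c10, c7]
  ring

theorem XS_one (s : ℂ) (c : ℕ → ℂ) : XS s c 1 = s * (c 0 ^ 2 - c 1) / 2 := rfl

theorem XS_two (s : ℂ) (c : ℕ → ℂ) : XS s c 2 = 3 / 4 * (s ^ 2 - s) * (c 0 ^ 2 - c 1) ^ 2
      + 3 / 2 * s * (-(c 3) + c 1 ^ 2 + 2 * c 0 * c 2 - 3 * c 0 ^ 2 * c 1 + c 0 ^ 4) := rfl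

/-- the second moment on the diagonal -/
noncomputable def k2f (s : ℂ) (H : ℂ → ℂ) (z : ℂ) : ℂ :=
  Complex.exp (s * H z) * (XS s (fun k => gg H k z) 1 + low2S s (fun k => gg H k z))

/-- the fourth moment on the diagonal -/
noncomputable def k4f (s : ℂ) (H : ℂ → ℂ) (z : ℂ) : ℂ :=
  Complex.exp (s * H z) * (XS s (fun k => gg H k z) 2 + low4S s (fun k => gg H k z))

theorem k2f_diff {H : ℂ → ℂ} (hH : DifferentiableOn ℂ H (ball 0 1)) (s : ℂ) :
    DifferentiableOn ℂ (k2f s H) (ball 0 1) := by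
  have d0 := gg_diff one_pos hH 0
  have d1 := gg_diff one_pos hH 1
  have dE : DifferentiableOn ℂ (fun z => Complex.exp (s * H z)) (ball 0 1) :=
    (hH.const_mul s).cexp
  have h := dmul_pv1 dE (dadd (dcm_pv1 (s / 2) (dsub_pv1 (dpow 2 d0) d1)) (dcm_pv1 (1 / 3 * s) d0))
  refine h.congr fun z _ => ?_
  unfold k2f low2S
  rw [XS_one]
  ring

theorem k4f_diff {H : ℂ → ℂ} (hH : DifferentiableOn ℂ H (ball 0 1)) (s : ℂ) :
    DifferentiableOn ℂ (k4f s H) (ball 0 1) := by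
  have d0 := gg_diff one_pos hH 0
  have d1 := gg_diff one_pos hH 1
  have d2 := gg_diff one_pos hH 2
  have d3 := gg_diff one_pos hH 3
  have dE : DifferentiableOn ℂ (fun z => Complex.exp (s * H z)) (ball 0 1) :=
    (hH.const_mul s).cexp
  unfold k4f low4S
  simp only [XS_two]
  fun_prop

private theorem q0_ne_pv1 {β H : ℂ → ℂ} {Φ : ℂ → ℂ → ℂ} (hE : Ext β) (hΦ : LogPhi β H Φ) :
    psf (fun z => Complex.exp (1 * H z)) ≠ 0 := by
  intro h
  rw [← Ev_Q hE hΦ] at h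
  have h1 := congrArg (PowerSeries.coeff 0) h
  rw [Ev_Pa, map_zero] at h1
  simp [qa] at h1

theorem ev_k2f {β H : ℂ → ℂ} {Φ : ℂ → ℂ → ℂ} (hE : Ext β) (hΦ : LogPhi β H Φ)
    (hH : DifferentiableOn ℂ H (ball 0 1)) (s : ℂ) :
    Ev (La (La (Pa (fun m l => diagc (EE Φ s) m l)))) = psf (k2f s H) := by
  have h1 := (momentsS hE hΦ s).1
  have dE : DifferentiableOn ℂ (fun z => Complex.exp (s * H z)) (ball 0 1) :=
    (hH.const_mul s).cexp
  have d1 : DifferentiableOn ℂ (fun z => Complex.exp (1 * H z)) (ball 0 1) :=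
    (hH.const_mul 1).cexp
  rw [ev_q2f hE hΦ hH, ev_ES hΦ, Ev_Q hE hΦ, ← psf_mul dE (q2f_diff hH), ← psf_const_mul] at h1
  apply mul_right_cancel₀ (q0_ne_pv1 hE hΦ)
  rw [h1, ← psf_mul (k2f_diff hH s) d1]
  apply psf_congr
  intro z hz
  have e3 : XX H 0 z = 1 := rfl
  unfold q2f k2f low2S
  rw [XS_one, e3, XX_two one_pos hH hz, one_mul (H z)]
  ring

theorem ev_k4f {β H : ℂ → ℂ} {Φ : ℂ → ℂ → ℂ} (hE : Ext β) (hΦ : LogPhi β H Φ)
    (hH : DifferentiableOn ℂ H (ball 0 1)) (s : ℂ) :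
    Ev (La (La (La (La (Pa (fun m l => diagc (EE Φ s) m l)))))) = psf (k4f s H) := by
  have h1 := (momentsS hE hΦ s).2
  have dE : DifferentiableOn ℂ (fun z => Complex.exp (s * H z)) (ball 0 1) :=
    (hH.const_mul s).cexp
  have d1 : DifferentiableOn ℂ (fun z => Complex.exp (1 * H z)) (ball 0 1) :=
    (hH.const_mul 1).cexp
  have dk := k2f_diff hH s
  have dq := q2f_diff hH
  have dq4 := q4f_diff hH
  have c3 : (3 : PowerSeries ℂ) = PowerSeries.C (3 : ℂ) := (map_ofNat PowerSeries.C 3).symm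
  have f1 : psf (fun z => Complex.exp (s * H z)) * psf (q4f H)
        + PowerSeries.C 3 * (psf (k2f s H) * psf (q2f H))
      = psf (fun z => Complex.exp (s * H z) * q4f H z - (-3) * (k2f s H z * q2f H z)) := by
    rw [psf_sub (dmul_pv1 dE dq4) (dcm_pv1 (-3) (dmul_pv1 dk dq)), psf_mul dE dq4, psf_const_mul,
      psf_mul dk dq, map_neg]
    ring
  have f2 : PowerSeries.C s * psf (fun z => Complex.exp (s * H z) * q4f H z
          - (-3) * (k2f s H z * q2f H z)) - PowerSeries.C 3 * (psf (k2f s H) * psf (q2f H))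
      = psf (fun z => s * (Complex.exp (s * H z) * q4f H z - (-3) * (k2f s H z * q2f H z))
          - 3 * (k2f s H z * q2f H z)) := by
    rw [psf_sub (dcm_pv1 s (dsub_pv1 (dmul_pv1 dE dq4) (dcm_pv1 (-3) (dmul_pv1 dk dq)))) (dcm_pv1 3 (dmul_pv1 dk dq)),
      psf_const_mul, psf_const_mul, psf_mul dk dq]
  rw [ev_q2f hE hΦ hH, ev_q4f hE hΦ hH, ev_ES hΦ, Ev_Q hE hΦ, ev_k2f hE hΦ hH, c3, f1, f2] at h1
  apply mul_right_cancel₀ (q0_ne_pv1 hE hΦ)
  rw [h1, ← psf_mul (k4f_diff hH s) d1]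
  apply psf_congr
  intro z hz
  have e3 : XX H 0 z = 1 := rfl
  unfold q2f q4f k2f k4f low2S low4S
  rw [XS_one, XS_two, e3, XX_two one_pos hH hz, XX_four one_pos hH hz, one_mul (H z)]
  ring

theorem jetS2 {ρ : ℝ} {β H : ℂ → ℂ} {Φ : ℂ → ℂ → ℂ} (h : Data ρ β H Φ) (s : ℂ) (m : ℕ) :
    ∑ l ∈ Finset.range (m + 1), diagc (EE Φ s) m l * ((l : ℂ) - m / 2) ^ 2
      = coeff (fun z => Complex.exp (s * H z)
        * (XS s (fun k => gg H k z) 1 + low2S s (fun k => gg H k z))) m := by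
  have h1 := congrArg (PowerSeries.coeff m) (ev_k2f h.ext h.logPhi h.diff1 s)
  rw [La_Pa, La_Pa, Ev_Pa, ← half_sum, coeff_psf] at h1
  exact h1

theorem jetS4 {ρ : ℝ} {β H : ℂ → ℂ} {Φ : ℂ → ℂ → ℂ} (h : Data ρ β H Φ) (s : ℂ) (m : ℕ) :
    ∑ l ∈ Finset.range (m + 1), diagc (EE Φ s) m l * ((l : ℂ) - m / 2) ^ 4
      = coeff (fun z => Complex.exp (s * H z)
        * (XS s (fun k => gg H k z) 2 + low4S s (fun k => gg H k z))) m := by
  have h1 := congrArg (PowerSeries.coeff m) (ev_k4f h.ext h.logPhi h.diff1 s)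
  rw [La_Pa, La_Pa, La_Pa, La_Pa, Ev_Pa, ← half_sum4, coeff_psf] at h1
  exact h1

end Pool.Agent.M16.Helper24.HR2

end

section

set_option autoImplicit false

namespace Pool.Agent.M16.Helper24.HR2

/-- leading part (weight 6) of the sixth central moment -/
noncomputable def XS6 (s : ℂ) (c : ℕ → ℂ) : ℂ :=
  s * (-(45 / 4) * c 5 + 45 / 2 * c 0 * c 4 + 45 / 4 * c 1 * c 3 - 45 / 2 * c 0 ^ 2 * c 3
      + 45 / 4 * c 2 ^ 2 - 45 * c 0 * c 1 * c 2 + 45 / 2 * c 0 ^ 3 * c 2 - 15 / 4 * c 1 ^ 3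
      + 135 / 4 * c 0 ^ 2 * c 1 ^ 2 - 45 / 2 * c 0 ^ 4 * c 1 + 15 / 4 * c 0 ^ 6)
    + s ^ 2 * (45 / 4 * c 1 * c 3 - 45 / 4 * c 0 ^ 2 * c 3 - 45 / 2 * c 0 * c 1 * c 2
      + 45 / 2 * c 0 ^ 3 * c 2 - 45 / 8 * c 1 ^ 3 + 225 / 8 * c 0 ^ 2 * c 1 ^ 2
      - 225 / 8 * c 0 ^ 4 * c 1 + 45 / 8 * c 0 ^ 6)
    + s ^ 3 * (15 / 8 * (c 0 ^ 2 - c 1) ^ 3)

/-- the lower order part of the sixth central moment -/
noncomputable def low6S (s : ℂ) (g : ℕ → ℂ) : ℂ :=
  s * (135 / 14 * g 4 - 165 / 14 * g 0 * g 3 - 72 / 7 * g 1 * g 2 + 69 / 14 * g 0 ^ 2 * g 2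
      + 153 / 14 * g 0 * g 1 ^ 2 - 57 / 14 * g 0 ^ 3 * g 1 + 9 / 14 * g 0 ^ 5
      - 15 / 7 * g 3 - 12 / 7 * g 0 * g 2 + 9 / 14 * g 1 ^ 2 + 25 / 7 * g 0 ^ 2 * g 1
      - 5 / 14 * g 0 ^ 4
      - 3 / 7 * g 2 + 19 / 14 * g 0 * g 1 + 23 / 126 * g 0 ^ 3
      + 1 / 7 * g 1 + 4 / 21 * g 0 ^ 2 + 1 / 21 * g 0)
    + s ^ 2 * (-(15 / 2) * g 0 * g 3 - 9 * g 1 * g 2 + 24 * g 0 ^ 2 * g 2
      + 57 / 4 * g 0 * g 1 ^ 2 - 27 * g 0 ^ 3 * g 1 + 21 / 4 * g 0 ^ 5
      + 6 * g 0 * g 2 + 3 / 2 * g 1 ^ 2 - 15 / 2 * g 0 ^ 2 * g 1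
      - 1 / 2 * g 0 * g 1 - 7 / 6 * g 0 ^ 3 - 1 / 3 * g 0 ^ 2)
    + s ^ 3 * (15 / 4 * g 0 * g 1 ^ 2 - 15 / 2 * g 0 ^ 3 * g 1 + 15 / 4 * g 0 ^ 5
      - 5 / 2 * g 0 ^ 2 * g 1 + 5 / 2 * g 0 ^ 4 + 5 / 9 * g 0 ^ 3)

end Pool.Agent.M16.Helper24.HR2

end

section

set_option autoImplicit false

open MeasureTheory Set Metric Filter Topology

open scoped Real ComplexConjugate

namespace Pool.Agent.M16.Helper24.HR2

open Pool.Agent.M16.Helper22.Half

open Pool.Agent.M16.Helper22.Marshall (coeff SepHol LogPhi dcoeff GLe)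

open Pool.Agent.M16.Helper39.Area (Ext phi)

open Pool.Agent.M16.Helper39.MH

open Pool.Agent.M16.Helper39.HR (Dt coeff_Dt Dt_mul Dt_sub Dt_C_mul Dt_Th Th coeff_Th Th_mul Th_C_mul Th_Pa Ev Pa Ev_Pa psf coeff_psf psf_mul psf_congr psf_const_mul qa qa_sum Ev_Q poly_ode)

private theorem sum_pow6 (c : ℂ) (k : ℕ) : ∑ l ∈ Finset.range k, (((l + 1 : ℕ) : ℂ) - c) ^ 6
    = (k : ℂ) * (k + 1) * (2 * k + 1) * (3 * k ^ 4 + 6 * k ^ 3 - 3 * k + 1) / 42
      - c * (k ^ 2 * (k + 1) ^ 2 * (2 * k ^ 2 + 2 * k - 1) / 2)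
      + c ^ 2 * (k * (k + 1) * (2 * k + 1) * (3 * k ^ 2 + 3 * k - 1) / 2)
      - c ^ 3 * (5 * (k * (k + 1)) ^ 2) + c ^ 4 * (5 * (k * (k + 1) * (2 * k + 1)) / 2)
      - c ^ 5 * (3 * (k * (k + 1))) + c ^ 6 * k := by
  induction k with
  | zero => simp
  | succ k ih =>
    rw [Finset.sum_range_succ, ih]
    push_cast
    ring

theorem ev_Q6 (β : ℂ → ℂ) : Ev (La (La (La (La (La (La (Pa (qa β))))))))
    = PowerSeries.C (1 / 1344) * (3 * Dm (Dm (Dm (Dm (Dm (Dm (Ev (Pa (qa β))))))))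
        - 21 * Dm (Dm (Dm (Dm (Ev (Pa (qa β)))))) + 49 * Dm (Dm (Ev (Pa (qa β))))
        - 31 * Ev (Pa (qa β))) := by
  have hc : ∀ (k : ℕ) (f : PowerSeries ℂ) (n : ℕ), PowerSeries.coeff n ((k : PowerSeries ℂ) * f)
      = (k : ℂ) * PowerSeries.coeff n f := by
    intro k f n
    rw [← map_natCast (PowerSeries.C (R := ℂ)) k, PowerSeries.coeff_C_mul]
  ext m
  have h3' := hc 3 (Dm (Dm (Dm (Dm (Dm (Dm (Ev (Pa (qa β))))))))) m
  have h21' := hc 21 (Dm (Dm (Dm (Dm (Ev (Pa (qa β))))))) m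
  have h49' := hc 49 (Dm (Dm (Ev (Pa (qa β))))) m
  have h31' := hc 31 (Ev (Pa (qa β))) m
  push_cast at h3' h21' h49' h31'
  rw [La_Pa, La_Pa, La_Pa, La_Pa, La_Pa, La_Pa, Ev_Pa, PowerSeries.coeff_C_mul, map_sub, map_add,
    map_sub, h3', h21', h49', h31', coeff_Dm, coeff_Dm, coeff_Dm, coeff_Dm, coeff_Dm, coeff_Dm,
    ev_Q0]
  cases m with
  | zero => simp [qa]; norm_num
  | succ m =>
    have h1 := qa_sum β (fun l => ((l : ℂ) - ((m + 1 : ℕ) : ℂ) / 2) ^ 6) m
    rw [sum_pow6] at h1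
    rw [if_neg (Nat.succ_ne_zero m), Nat.add_sub_cancel]
    have h3 : ∑ l ∈ Finset.range (m + 1 + 1), ((l : ℂ) - ((m + 1 : ℕ) : ℂ) / 2)
          * (((l : ℂ) - ((m + 1 : ℕ) : ℂ) / 2) * (((l : ℂ) - ((m + 1 : ℕ) : ℂ) / 2)
          * (((l : ℂ) - ((m + 1 : ℕ) : ℂ) / 2) * (((l : ℂ) - ((m + 1 : ℕ) : ℂ) / 2)
          * (((l : ℂ) - ((m + 1 : ℕ) : ℂ) / 2) * qa β (m + 1) l)))))
        = ∑ l ∈ Finset.range (m + 1 + 1), qa β (m + 1) l * ((l : ℂ) - ((m + 1 : ℕ) : ℂ) / 2) ^ 6 := by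
      apply Finset.sum_congr rfl
      intro l _
      ring
    rw [h3, h1]
    push_cast
    ring

section

variable {H : ℂ → ℂ} {ρ : ℝ}

theorem HT_g3 (hρ : 0 < ρ) (hH : DifferentiableOn ℂ H (ball 0 ρ)) {z : ℂ}
    (hz : z ∈ ball (0 : ℂ) ρ) : HT (gg H 3) z (6 * gg H 4 z + 2 * gg H 1 z * gg H 2 z) := by
  have h := HT_gg hρ hH hz 3
  have e : dval (fun k => gg H k z) 3 = 6 * gg H 4 z + 2 * gg H 1 z * gg H 2 z := by
    unfold dval
    rw [if_neg (by norm_num)]
    have e1 : Finset.range (3 - 1) = Finset.range 2 := rfl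
    rw [e1, Finset.sum_range_succ, Finset.sum_range_one]
    push_cast
    ring_nf
  rw [e] at h
  exact h

theorem HT_g4 (hρ : 0 < ρ) (hH : DifferentiableOn ℂ H (ball 0 ρ)) {z : ℂ}
    (hz : z ∈ ball (0 : ℂ) ρ) :
    HT (gg H 4) z (7 * gg H 5 z + 2 * gg H 1 z * gg H 3 z + gg H 2 z ^ 2) := by
  have h := HT_gg hρ hH hz 4
  have e : dval (fun k => gg H k z) 4
      = 7 * gg H 5 z + 2 * gg H 1 z * gg H 3 z + gg H 2 z ^ 2 := by
    unfold dval
    rw [if_neg (by norm_num)]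
    have e1 : Finset.range (4 - 1) = Finset.range 3 := rfl
    rw [e1, Finset.sum_range_succ, Finset.sum_range_succ, Finset.sum_range_one]
    push_cast
    ring_nf
  rw [e] at h
  exact h

theorem XX_four' (hρ : 0 < ρ) (hH : DifferentiableOn ℂ H (ball 0 ρ)) {z : ℂ}
    (hz : z ∈ ball (0 : ℂ) ρ) :
    XX H 4 z = 120 * gg H 0 z ^ 4 - 360 * gg H 0 z ^ 2 * gg H 1 z + 120 * gg H 1 z ^ 2
       + 240 * gg H 0 z * gg H 2 z - 120 * gg H 3 z + 96 * gg H 0 z ^ 3
       - 192 * gg H 0 z * gg H 1 z + 96 * gg H 2 z + 36 * gg H 0 z ^ 2 - 36 * gg H 1 z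
       + 8 * gg H 0 z + 1 := by
  rw [XX_four hρ hH hz]
  ring

theorem HT_XX4 (hρ : 0 < ρ) (hH : DifferentiableOn ℂ H (ball 0 ρ)) {z : ℂ}
    (hz : z ∈ ball (0 : ℂ) ρ) :
    HT (XX H 4) z (-(480 * gg H 0 z ^ 5) + 2160 * gg H 0 z ^ 3 * gg H 1 z
       - 1920 * gg H 0 z * gg H 1 z ^ 2 - 1680 * gg H 0 z ^ 2 * gg H 2 z
       + 1440 * gg H 1 z * gg H 2 z + 1200 * gg H 0 z * gg H 3 z - 720 * gg H 4 z
       - 288 * gg H 0 z ^ 4 + 1056 * gg H 0 z ^ 2 * gg H 1 z - 480 * gg H 1 z ^ 2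
       - 768 * gg H 0 z * gg H 2 z + 480 * gg H 3 z - 72 * gg H 0 z ^ 3
       + 216 * gg H 0 z * gg H 1 z - 144 * gg H 2 z - 8 * gg H 0 z ^ 2 + 24 * gg H 1 z) := by
  have h0 := HT_g0 hρ hH hz
  have h1 := HT_g1 hρ hH hz
  have h2 := HT_g2 hρ hH hz
  have h3 := HT_g3 hρ hH hz
  have h := ((((((((((((h0.mul (h0.mul (h0.mul h0))).cm (120)).add
      ((h0.mul (h0.mul h1)).cm (-360))).add
      ((h1.mul h1).cm (120))).add
      ((h0.mul h2).cm (240))).add
      (h3.cm (-120))).add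
      ((h0.mul (h0.mul h0)).cm (96))).add
      ((h0.mul h1).cm (-192))).add
      (h2.cm (96))).add
      ((h0.mul h0).cm (36))).add
      (h1.cm (-36))).add
      (h0.cm (8))).add
      (HT.const (1) z)
  have h' := h.congr (K := XX H 4) (by
    filter_upwards [isOpen_ball.mem_nhds hz] with w hw
    rw [XX_four' hρ hH hw]
    ring)
  refine ⟨h'.1, ?_⟩
  rw [h'.2]
  ring

theorem XX_five' (hρ : 0 < ρ) (hH : DifferentiableOn ℂ H (ball 0 ρ)) {z : ℂ}
    (hz : z ∈ ball (0 : ℂ) ρ) :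
    XX H 5 z = -(720 * gg H 0 z ^ 5) + 2880 * gg H 0 z ^ 3 * gg H 1 z
       - 2160 * gg H 0 z * gg H 1 z ^ 2 - 2160 * gg H 0 z ^ 2 * gg H 2 z
       + 1440 * gg H 1 z * gg H 2 z + 1440 * gg H 0 z * gg H 3 z - 720 * gg H 4 z
       - 600 * gg H 0 z ^ 4 + 1800 * gg H 0 z ^ 2 * gg H 1 z - 600 * gg H 1 z ^ 2
       - 1200 * gg H 0 z * gg H 2 z + 600 * gg H 3 z - 240 * gg H 0 z ^ 3
       + 480 * gg H 0 z * gg H 1 z - 240 * gg H 2 z - 60 * gg H 0 z ^ 2
       + 60 * gg H 1 z - 10 * gg H 0 z - 1 := by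
  rw [XX_succ, (HT_XX4 hρ hH hz).2, XX_four' hρ hH hz]
  ring

theorem HT_XX5 (hρ : 0 < ρ) (hH : DifferentiableOn ℂ H (ball 0 ρ)) {z : ℂ}
    (hz : z ∈ ball (0 : ℂ) ρ) :
    HT (XX H 5) z (3600 * gg H 0 z ^ 6 - 19440 * gg H 0 z ^ 4 * gg H 1 z
       + 25920 * gg H 0 z ^ 2 * gg H 1 z ^ 2 - 5040 * gg H 1 z ^ 3
       + 15840 * gg H 0 z ^ 3 * gg H 2 z - 27360 * gg H 0 z * gg H 1 z * gg H 2 z
       + 5040 * gg H 2 z ^ 2 - 12240 * gg H 0 z ^ 2 * gg H 3 z
       + 10080 * gg H 1 z * gg H 3 z + 8640 * gg H 0 z * gg H 4 z - 5040 * gg H 5 z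
       + 2400 * gg H 0 z ^ 5 - 10800 * gg H 0 z ^ 3 * gg H 1 z
       + 9600 * gg H 0 z * gg H 1 z ^ 2 + 8400 * gg H 0 z ^ 2 * gg H 2 z
       - 7200 * gg H 1 z * gg H 2 z - 6000 * gg H 0 z * gg H 3 z + 3600 * gg H 4 z
       + 720 * gg H 0 z ^ 4 - 2640 * gg H 0 z ^ 2 * gg H 1 z + 1200 * gg H 1 z ^ 2
       + 1920 * gg H 0 z * gg H 2 z - 1200 * gg H 3 z + 120 * gg H 0 z ^ 3
       - 360 * gg H 0 z * gg H 1 z + 240 * gg H 2 z + 10 * gg H 0 z ^ 2
       - 30 * gg H 1 z) := by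
  have h0 := HT_g0 hρ hH hz
  have h1 := HT_g1 hρ hH hz
  have h2 := HT_g2 hρ hH hz
  have h3 := HT_g3 hρ hH hz
  have h4 := HT_g4 hρ hH hz
  have h := (((((((((((((((((((h0.mul (h0.mul (h0.mul (h0.mul h0)))).cm (-720)).add
      ((h0.mul (h0.mul (h0.mul h1))).cm (2880))).add
      ((h0.mul (h1.mul h1)).cm (-2160))).add
      ((h0.mul (h0.mul h2)).cm (-2160))).add
      ((h1.mul h2).cm (1440))).add
      ((h0.mul h3).cm (1440))).add
      (h4.cm (-720))).add
      ((h0.mul (h0.mul (h0.mul h0))).cm (-600))).add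
      ((h0.mul (h0.mul h1)).cm (1800))).add
      ((h1.mul h1).cm (-600))).add
      ((h0.mul h2).cm (-1200))).add
      (h3.cm (600))).add
      ((h0.mul (h0.mul h0)).cm (-240))).add
      ((h0.mul h1).cm (480))).add
      (h2.cm (-240))).add
      ((h0.mul h0).cm (-60))).add
      (h1.cm (60))).add
      (h0.cm (-10))).add
      (HT.const (-1) z)
  have h' := h.congr (K := XX H 5) (by
    filter_upwards [isOpen_ball.mem_nhds hz] with w hw
    rw [XX_five' hρ hH hw]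
    ring)
  refine ⟨h'.1, ?_⟩
  rw [h'.2]
  ring

theorem XX_six' (hρ : 0 < ρ) (hH : DifferentiableOn ℂ H (ball 0 ρ)) {z : ℂ}
    (hz : z ∈ ball (0 : ℂ) ρ) :
    XX H 6 z = 5040 * gg H 0 z ^ 6 - 25200 * gg H 0 z ^ 4 * gg H 1 z
       + 30240 * gg H 0 z ^ 2 * gg H 1 z ^ 2 - 5040 * gg H 1 z ^ 3
       + 20160 * gg H 0 z ^ 3 * gg H 2 z - 30240 * gg H 0 z * gg H 1 z * gg H 2 z
       + 5040 * gg H 2 z ^ 2 - 15120 * gg H 0 z ^ 2 * gg H 3 z
       + 10080 * gg H 1 z * gg H 3 z + 10080 * gg H 0 z * gg H 4 z - 5040 * gg H 5 z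
       + 4320 * gg H 0 z ^ 5 - 17280 * gg H 0 z ^ 3 * gg H 1 z
       + 12960 * gg H 0 z * gg H 1 z ^ 2 + 12960 * gg H 0 z ^ 2 * gg H 2 z
       - 8640 * gg H 1 z * gg H 2 z - 8640 * gg H 0 z * gg H 3 z + 4320 * gg H 4 z
       + 1800 * gg H 0 z ^ 4 - 5400 * gg H 0 z ^ 2 * gg H 1 z + 1800 * gg H 1 z ^ 2
       + 3600 * gg H 0 z * gg H 2 z - 1800 * gg H 3 z + 480 * gg H 0 z ^ 3
       - 960 * gg H 0 z * gg H 1 z + 480 * gg H 2 z + 90 * gg H 0 z ^ 2
       - 90 * gg H 1 z + 12 * gg H 0 z + 1 := by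
  rw [XX_succ, (HT_XX5 hρ hH hz).2, XX_five' hρ hH hz]
  ring

end

section

variable {β H : ℂ → ℂ} {Φ : ℂ → ℂ → ℂ}

private theorem half_refl_pv2 (m l : ℕ) (hl : l ≤ m) :
    (((m - l : ℕ) : ℂ) - m / 2) = -((l : ℂ) - m / 2) := by
  rw [Nat.cast_sub hl]
  ring

private theorem odd1_pv2 {a : ℕ → ℕ → ℂ} (ha : ∀ m, ∀ l ≤ m, a m l = a m (m - l)) :
    Ev (La (Pa a)) = 0 := by
  rw [La_Pa]
  exact ev_odd ha (fun m l hl => half_refl_pv2 m l hl)

private theorem odd3_pv2 {a : ℕ → ℕ → ℂ} (ha : ∀ m, ∀ l ≤ m, a m l = a m (m - l)) :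
    Ev (La (La (La (Pa a)))) = 0 := by
  rw [La_Pa, La_Pa, La_Pa]
  have h := ev_odd (c := fun m l => ((l : ℂ) - m / 2) ^ 3) ha
    (fun m l hl => by simp only [half_refl_pv2 m l hl]; ring)
  rw [← h]
  congr 1
  congr 1
  funext m l
  ring

private theorem odd5 {a : ℕ → ℕ → ℂ} (ha : ∀ m, ∀ l ≤ m, a m l = a m (m - l)) :
    Ev (La (La (La (La (La (Pa a)))))) = 0 := by
  rw [La_Pa, La_Pa, La_Pa, La_Pa, La_Pa]
  have h := ev_odd (c := fun m l => ((l : ℂ) - m / 2) ^ 5) ha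
    (fun m l hl => by simp only [half_refl_pv2 m l hl]; ring)
  rw [← h]
  congr 1
  congr 1
  funext m l
  ring

/-- the identity of order six at the diagonal,
`q0 e6 = s (e0 q6 + 10 e2 q4 + 5 e4 q2) - 10 e4 q2 - 5 e2 q4` -/
theorem momentsS6 (hE : Ext β) (hΦ : LogPhi β H Φ) (s : ℂ) {e0 e2 e4 e6 q0 q2 q4 q6 : PowerSeries ℂ}
    (he0 : Ev (Pa (fun m l => diagc (EE Φ s) m l)) = e0)
    (he2 : Ev (La (La (Pa (fun m l => diagc (EE Φ s) m l)))) = e2)
    (he4 : Ev (La (La (La (La (Pa (fun m l => diagc (EE Φ s) m l)))))) = e4)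
    (he6 : Ev (La (La (La (La (La (La (Pa (fun m l => diagc (EE Φ s) m l)))))))) = e6)
    (hq0 : Ev (Pa (qa β)) = q0) (hq2 : Ev (La (La (Pa (qa β)))) = q2)
    (hq4 : Ev (La (La (La (La (Pa (qa β)))))) = q4)
    (hq6 : Ev (La (La (La (La (La (La (Pa (qa β)))))))) = q6) :
    e6 * q0 = PowerSeries.C s * (e0 * q6 + 10 * (e2 * q4) + 5 * (e4 * q2))
      - 10 * (e4 * q2) - 5 * (e2 * q4) := by
  have h1 := la_ode hE hΦ s
  have hsE := fun m => EE_symm hΦ s m
  have hsQ := fun m => qa_symm β m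
  have oE1 : Ev (La (Pa (fun m l => diagc (EE Φ s) m l))) = 0 := odd1_pv2 hsE
  have oE3 : Ev (La (La (La (Pa (fun m l => diagc (EE Φ s) m l))))) = 0 := odd3_pv2 hsE
  have oE5 : Ev (La (La (La (La (La (Pa (fun m l => diagc (EE Φ s) m l))))))) = 0 := odd5 hsE
  have oQ1 : Ev (La (Pa (qa β))) = 0 := odd1_pv2 hsQ
  have oQ3 : Ev (La (La (La (Pa (qa β))))) = 0 := odd3_pv2 hsQ
  have oQ5 : Ev (La (La (La (La (La (Pa (qa β))))))) = 0 := odd5 hsQ
  generalize Pa (fun m l => diagc (EE Φ s) m l) = E at *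
  generalize Pa (qa β) = Q at *
  have h2 := congrArg La h1
  rw [La_C_mul] at h2
  simp only [La_mul] at h2
  have h3 := congrArg La h2
  rw [La_C_mul] at h3
  simp only [La_add, La_mul] at h3
  have h4 := congrArg La h3
  rw [La_C_mul] at h4
  simp only [La_add, La_mul] at h4
  have h5 := congrArg La h4
  rw [La_C_mul] at h5
  simp only [La_add, La_mul] at h5
  have h6 := congrArg La h5
  rw [La_C_mul] at h6
  simp only [La_add, La_mul] at h6
  have hmul : ∀ a b, Ev (a * b) = Ev a * Ev b := fun a b => map_mul _ a b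
  have hadd : ∀ a b, Ev (a + b) = Ev a + Ev b := fun a b => map_add _ a b
  have hC : Ev (PowerSeries.C (Polynomial.C s)) = PowerSeries.C s := by
    rw [Ev, PowerSeries.map_C, Polynomial.coe_evalRingHom, Polynomial.eval_C]
  have g6 := congrArg Ev h6
  simp only [hmul, hadd, hC, oE1, oE3, oE5, oQ1, oQ3, oQ5, he0, he2, he4, he6, hq0, hq2, hq4,
    hq6] at g6
  linear_combination g6

end

private theorem half_sum6 (d : ℕ → ℂ) (m : ℕ) :
    ∑ l ∈ Finset.range (m + 1), d l * ((l : ℂ) - m / 2) ^ 6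
      = ∑ l ∈ Finset.range (m + 1), ((l : ℂ) - m / 2) * (((l : ℂ) - m / 2)
        * (((l : ℂ) - m / 2) * (((l : ℂ) - m / 2) * (((l : ℂ) - m / 2)
        * (((l : ℂ) - m / 2) * d l))))) := by
  apply Finset.sum_congr rfl
  intro l _
  ring

private theorem dsub_pv2 {f g : ℂ → ℂ} (hf : DifferentiableOn ℂ f (ball 0 1))
    (hg : DifferentiableOn ℂ g (ball 0 1)) : DifferentiableOn ℂ (fun z => f z - g z) (ball 0 1) :=
  hf.sub hg

private theorem dmul_pv2 {f g : ℂ → ℂ} (hf : DifferentiableOn ℂ f (ball 0 1))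
    (hg : DifferentiableOn ℂ g (ball 0 1)) : DifferentiableOn ℂ (fun z => f z * g z) (ball 0 1) :=
  hf.mul hg

private theorem dcm_pv2 (c : ℂ) {f : ℂ → ℂ} (hf : DifferentiableOn ℂ f (ball 0 1)) :
    DifferentiableOn ℂ (fun z => c * f z) (ball 0 1) := hf.const_mul c

/-- the diagonal of `La La La La La La Q` -/
noncomputable def q6f (H : ℂ → ℂ) (z : ℂ) : ℂ :=
  1 / 1344 * (3 * (XX H 6 z * Complex.exp (H z)) - (21 * (XX H 4 z * Complex.exp (H z))
    - (49 * (XX H 2 z * Complex.exp (H z)) - 31 * (XX H 0 z * Complex.exp (H z)))))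

theorem q6f_diff {H : ℂ → ℂ} (hH : DifferentiableOn ℂ H (ball 0 1)) :
    DifferentiableOn ℂ (q6f H) (ball 0 1) := by
  have hX : ∀ n, DifferentiableOn ℂ (fun z => XX H n z * Complex.exp (H z)) (ball 0 1) :=
    fun n => (XX_diff hH n).mul hH.cexp
  exact dcm_pv2 _ (dsub_pv2 (dcm_pv2 _ (hX 6)) (dsub_pv2 (dcm_pv2 _ (hX 4)) (dsub_pv2 (dcm_pv2 _ (hX 2)) (dcm_pv2 _ (hX 0)))))

theorem ev_q6f {β H : ℂ → ℂ} {Φ : ℂ → ℂ → ℂ} (hE : Ext β) (hΦ : LogPhi β H Φ)
    (hH : DifferentiableOn ℂ H (ball 0 1)) :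
    Ev (La (La (La (La (La (La (Pa (qa β)))))))) = psf (q6f H) := by
  have hX : ∀ n, DifferentiableOn ℂ (fun z => XX H n z * Complex.exp (H z)) (ball 0 1) :=
    fun n => (XX_diff hH n).mul hH.cexp
  have cst : ∀ k : ℕ, (k : PowerSeries ℂ) = PowerSeries.C (k : ℂ) := by
    intro k
    rw [map_natCast]
  have c3 : (3 : PowerSeries ℂ) = PowerSeries.C (3 : ℂ) := by exact_mod_cast cst 3
  have c21 : (21 : PowerSeries ℂ) = PowerSeries.C (21 : ℂ) := by exact_mod_cast cst 21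
  have c49 : (49 : PowerSeries ℂ) = PowerSeries.C (49 : ℂ) := by exact_mod_cast cst 49
  have c31 : (31 : PowerSeries ℂ) = PowerSeries.C (31 : ℂ) := by exact_mod_cast cst 31
  rw [ev_Q6, Ev_Q hE hΦ, ← psf_X0, ← psf_XX hH, ← psf_XX hH, ← psf_XX hH, ← psf_XX hH,
    ← psf_XX hH, ← psf_XX hH]
  have e : psf (q6f H) = psf (fun z => 1 / 1344 * (3 * (XX H 6 z * Complex.exp (H z))
        - (21 * (XX H 4 z * Complex.exp (H z)) - (49 * (XX H 2 z * Complex.exp (H z))
        - 31 * (XX H 0 z * Complex.exp (H z)))))) := rfl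
  rw [e, psf_const_mul, psf_sub (dcm_pv2 3 (hX 6)) (dsub_pv2 (dcm_pv2 21 (hX 4)) (dsub_pv2 (dcm_pv2 49 (hX 2))
      (dcm_pv2 31 (hX 0)))), psf_sub (dcm_pv2 21 (hX 4)) (dsub_pv2 (dcm_pv2 49 (hX 2)) (dcm_pv2 31 (hX 0))),
    psf_sub (dcm_pv2 49 (hX 2)) (dcm_pv2 31 (hX 0)), psf_const_mul, psf_const_mul, psf_const_mul,
    psf_const_mul, c3, c21, c49, c31]
  ring

/-- the sixth moment on the diagonal -/
noncomputable def k6f (s : ℂ) (H : ℂ → ℂ) (z : ℂ) : ℂ :=
  Complex.exp (s * H z) * (XS6 s (fun k => gg H k z) + low6S s (fun k => gg H k z))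

theorem k6f_diff {H : ℂ → ℂ} (hH : DifferentiableOn ℂ H (ball 0 1)) (s : ℂ) :
    DifferentiableOn ℂ (k6f s H) (ball 0 1) := by
  have d0 := gg_diff one_pos hH 0
  have d1 := gg_diff one_pos hH 1
  have d2 := gg_diff one_pos hH 2
  have d3 := gg_diff one_pos hH 3
  have d4 := gg_diff one_pos hH 4
  have d5 := gg_diff one_pos hH 5
  have dE : DifferentiableOn ℂ (fun z => Complex.exp (s * H z)) (ball 0 1) :=
    (hH.const_mul s).cexp
  unfold k6f low6S XS6
  fun_prop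

private theorem q0_ne_pv2 {β H : ℂ → ℂ} {Φ : ℂ → ℂ → ℂ} (hE : Ext β) (hΦ : LogPhi β H Φ) :
    psf (fun z => Complex.exp (1 * H z)) ≠ 0 := by
  intro h
  rw [← Ev_Q hE hΦ] at h
  have h1 := congrArg (PowerSeries.coeff 0) h
  rw [Ev_Pa, map_zero] at h1
  simp [qa] at h1

theorem ev_k6f {β H : ℂ → ℂ} {Φ : ℂ → ℂ → ℂ} (hE : Ext β) (hΦ : LogPhi β H Φ)
    (hH : DifferentiableOn ℂ H (ball 0 1)) (s : ℂ) :
    Ev (La (La (La (La (La (La (Pa (fun m l => diagc (EE Φ s) m l)))))))) = psf (k6f s H) := by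
  have h1 := momentsS6 hE hΦ s (ev_ES hΦ s) (ev_k2f hE hΦ hH s) (ev_k4f hE hΦ hH s) rfl
    (Ev_Q hE hΦ) (ev_q2f hE hΦ hH) (ev_q4f hE hΦ hH) (ev_q6f hE hΦ hH)
  have dE : DifferentiableOn ℂ (fun z => Complex.exp (s * H z)) (ball 0 1) :=
    (hH.const_mul s).cexp
  have d1 : DifferentiableOn ℂ (fun z => Complex.exp (1 * H z)) (ball 0 1) :=
    (hH.const_mul 1).cexp
  have dk2 := k2f_diff hH s
  have dk4 := k4f_diff hH s
  have dq2 := q2f_diff hH
  have dq4 := q4f_diff hH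
  have dq6 := q6f_diff hH
  have c10 : (10 : PowerSeries ℂ) = PowerSeries.C (10 : ℂ) := (map_ofNat PowerSeries.C 10).symm
  have c5 : (5 : PowerSeries ℂ) = PowerSeries.C (5 : ℂ) := (map_ofNat PowerSeries.C 5).symm
  have hA := dmul_pv2 dE dq6
  have hB := dmul_pv2 dk2 dq4
  have hC := dmul_pv2 dk4 dq2
  have f1 : psf (fun z => s * (Complex.exp (s * H z) * q6f H z)
          - ((5 - 10 * s) * (k2f s H z * q4f H z) - (5 * s - 10) * (k4f s H z * q2f H z)))
      = PowerSeries.C s * (psf (fun z => Complex.exp (s * H z)) * psf (q6f H))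
        - (PowerSeries.C (5 - 10 * s) * (psf (k2f s H) * psf (q4f H))
          - PowerSeries.C (5 * s - 10) * (psf (k4f s H) * psf (q2f H))) := by
    rw [psf_sub (dcm_pv2 s hA) (dsub_pv2 (dcm_pv2 (5 - 10 * s) hB) (dcm_pv2 (5 * s - 10) hC)),
      psf_sub (dcm_pv2 (5 - 10 * s) hB) (dcm_pv2 (5 * s - 10) hC), psf_const_mul, psf_const_mul,
      psf_const_mul, psf_mul dE dq6, psf_mul dk2 dq4, psf_mul dk4 dq2]
  have f2 : psf (fun z => s * (Complex.exp (s * H z) * q6f H z)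
          - ((5 - 10 * s) * (k2f s H z * q4f H z) - (5 * s - 10) * (k4f s H z * q2f H z)))
      = psf (fun z => k6f s H z * Complex.exp (1 * H z)) := by
    apply psf_congr
    intro z hz
    have e3 : XX H 0 z = 1 := rfl
    unfold q2f q4f q6f k2f k4f k6f low2S low4S low6S XS6
    rw [XS_one, XS_two, e3, XX_two one_pos hH hz, XX_four' one_pos hH hz, XX_six' one_pos hH hz,
      one_mul (H z)]
    ring
  apply mul_right_cancel₀ (q0_ne_pv2 hE hΦ)
  rw [h1, ← psf_mul (k6f_diff hH s) d1, ← f2, f1, c10, c5, map_sub, map_sub, map_mul, map_mul]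
  ring

theorem jetS6 {ρ : ℝ} {β H : ℂ → ℂ} {Φ : ℂ → ℂ → ℂ} (h : Data ρ β H Φ) (s : ℂ) (m : ℕ) :
    ∑ l ∈ Finset.range (m + 1), diagc (EE Φ s) m l * ((l : ℂ) - m / 2) ^ 6
      = coeff (fun z => Complex.exp (s * H z)
        * (XS6 s (fun k => gg H k z) + low6S s (fun k => gg H k z))) m := by
  have h1 := congrArg (PowerSeries.coeff m) (ev_k6f h.ext h.logPhi h.diff1 s)
  rw [La_Pa, La_Pa, La_Pa, La_Pa, La_Pa, La_Pa, Ev_Pa, ← half_sum6, coeff_psf] at h1
  exact h1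

end Pool.Agent.M16.Helper24.HR2

end

end

section

namespace Pool.Agent.M16.Helper22.Half
end Pool.Agent.M16.Helper22.Half

section

set_option autoImplicit false

open Filter Topology

namespace Pool.Agent.M16.Helper22.Half

/-- `ψ` is in the class Sigma of the exterior disc and `h` is the branch of `log ψ'` on the
exterior disc that tends to `0` at infinity. -/
structure SigmaLog (ψ h : ℂ → ℂ) : Prop where
  diff : DifferentiableOn ℂ ψ {z : ℂ | 1 < ‖z‖}
  inj : Set.InjOn ψ {z : ℂ | 1 < ‖z‖}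
  normalised : ∃ b : ℂ, Tendsto (fun z => ψ z - z) (Bornology.cobounded ℂ) (𝓝 b)
  hdiff : DifferentiableOn ℂ h {z : ℂ | 1 < ‖z‖}
  exp_eq : ∀ z : ℂ, 1 < ‖z‖ → Complex.exp (h z) = deriv ψ z
  lim : Tendsto h (Bornology.cobounded ℂ) (𝓝 0)

end Pool.Agent.M16.Helper22.Half

end

section

set_option autoImplicit false

open MeasureTheory Set Metric Filter Topology

open scoped ENNReal NNReal Real ComplexConjugate

namespace Pool.Agent.M16.Helper94.HR2

open Pool.Agent.M16.Helper22.Half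

end Pool.Agent.M16.Helper94.HR2

end

section

set_option autoImplicit false

namespace Pool.Agent.M16.Helper22.Half

variable {b r : ℝ}

end Pool.Agent.M16.Helper22.Half

end

section

set_option autoImplicit false

namespace Pool.Agent.M16.Helper22.Half

variable {b r : ℝ}

end Pool.Agent.M16.Helper22.Half

end

section

set_option autoImplicit false

namespace Pool.Agent.M16.Helper22.Half

end Pool.Agent.M16.Helper22.Half

end

section

set_option autoImplicit false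

namespace Pool.Agent.M16.Helper39.HR

open Pool.Agent.M16.Helper22.Half

end Pool.Agent.M16.Helper39.HR

end

section

set_option autoImplicit false

open scoped ComplexConjugate

namespace Pool.Agent.M16.Helper39.HR

section

variable {s : ℂ}

end

end Pool.Agent.M16.Helper39.HR

end

section

set_option autoImplicit false

open scoped ComplexConjugate

namespace Pool.Agent.M16.Helper39.HR

open Pool.Agent.M16.Helper22.Half

end Pool.Agent.M16.Helper39.HR

end

end
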