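import Mathlib
import Pool.Agent.Helper60.BE.T26
import Pool.Agent.Helper60.BE.T28

set_option linter.all false

section

namespace Pool.Agent.M16.Helper24.HR2
end Pool.Agent.M16.Helper24.HR2
namespace Pool.Agent.M16.Helper12.HR2
end Pool.Agent.M16.Helper12.HR2
namespace Pool.Agent.M16.Helper54.HR2
end Pool.Agent.M16.Helper54.HR2

section

set_option autoImplicit false

open Filter Topology Finset

open scoped ComplexConjugate

namespace Pool.Agent.M16.Helper37.PFS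

open Pool.Agent.M16.Helper24.HR2

/-- palindromic sequences -/
def Pal (m : ℕ) (d : ℕ → ℂ) : Prop := ∀ l ≤ m, d l = d (m - l)

/-- the sum of the absolute values of the moments -/
noncomputable def G1 (K m : ℕ) (d : ℕ → ℂ) : ℝ := ∑ r ∈ range K, ‖vS d m r‖

theorem G1_nonneg (K m : ℕ) (d : ℕ → ℂ) : 0 ≤ G1 K m d :=
  Finset.sum_nonneg (fun _ _ => norm_nonneg _)

theorem G1_sq_le (K m : ℕ) (d : ℕ → ℂ) :
    G1 K m d ^ 2 ≤ K * ∑ r ∈ range K, ‖vS d m r‖ ^ 2 := by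
  have h := sq_sum_le_card_mul_sum_sq (s := range K) (f := fun r => ‖vS d m r‖)
  rw [Finset.card_range] at h
  exact h

section

variable {E : Type} [NormedRing E]

/-- asymptotic equality of order `k` -/
def Ap (K k : ℕ) (f f' : ℕ → (ℕ → ℂ) → E) : Prop :=
  ∀ η : ℝ, 0 < η → ∃ m0 : ℕ, ∀ m, m0 ≤ m → 1 ≤ m → ∀ d, Pal m d →
    ‖f m d - f' m d‖ ≤ η * G1 K m d ^ k

/-- boundedness of order `k` -/
def Bd (K k : ℕ) (f : ℕ → (ℕ → ℂ) → E) : Prop :=
  ∃ C : ℝ, 0 ≤ C ∧ ∀ m, 1 ≤ m → ∀ d, Pal m d → ‖f m d‖ ≤ C * G1 K m d ^ k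

theorem Ap.refl {K k : ℕ} (f : ℕ → (ℕ → ℂ) → E) : Ap K k f f := by
  intro η hη
  refine ⟨0, fun m _ _ d _ => ?_⟩
  rw [sub_self, norm_zero]
  exact mul_nonneg hη.le (pow_nonneg (G1_nonneg _ _ _) _)

theorem Ap.add {K k : ℕ} {f f' g g' : ℕ → (ℕ → ℂ) → E} (h1 : Ap K k f f') (h2 : Ap K k g g') :
    Ap K k (fun m d => f m d + g m d) (fun m d => f' m d + g' m d) := by
  intro η hη
  obtain ⟨m1, h1⟩ := h1 (η / 2) (by positivity)
  obtain ⟨m2, h2⟩ := h2 (η / 2) (by positivity)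
  refine ⟨max m1 m2, fun m hm hm1 d hd => ?_⟩
  have a1 := h1 m (le_of_max_le_left hm) hm1 d hd
  have a2 := h2 m (le_of_max_le_right hm) hm1 d hd
  have e : f m d + g m d - (f' m d + g' m d) = (f m d - f' m d) + (g m d - g' m d) := by abel
  rw [e]
  refine (norm_add_le _ _).trans ?_
  linarith only [a1, a2]

theorem Ap.sub {K k : ℕ} {f f' g g' : ℕ → (ℕ → ℂ) → E} (h1 : Ap K k f f') (h2 : Ap K k g g') :
    Ap K k (fun m d => f m d - g m d) (fun m d => f' m d - g' m d) := by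
  intro η hη
  obtain ⟨m1, h1⟩ := h1 (η / 2) (by positivity)
  obtain ⟨m2, h2⟩ := h2 (η / 2) (by positivity)
  refine ⟨max m1 m2, fun m hm hm1 d hd => ?_⟩
  have a1 := h1 m (le_of_max_le_left hm) hm1 d hd
  have a2 := h2 m (le_of_max_le_right hm) hm1 d hd
  have e : f m d - g m d - (f' m d - g' m d) = (f m d - f' m d) - (g m d - g' m d) := by abel
  rw [e]
  refine (norm_sub_le _ _).trans ?_
  linarith only [a1, a2]

theorem Ap.sum {K k : ℕ} (L : Finset ℕ) {f f' : ℕ → ℕ → (ℕ → ℂ) → E}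
    (h : ∀ l ∈ L, Ap K k (f l) (f' l)) :
    Ap K k (fun m d => ∑ l ∈ L, f l m d) (fun m d => ∑ l ∈ L, f' l m d) := by
  induction L using Finset.induction_on with
  | empty => simpa using Ap.refl (K := K) (k := k) (fun (_ : ℕ) (_ : ℕ → ℂ) => (0 : E))
  | insert a s ha ih =>
    have h1 := h a (Finset.mem_insert_self _ _)
    have h2 := ih (fun l hl => h l (Finset.mem_insert_of_mem hl))
    have h3 := h1.add h2
    simpa only [Finset.sum_insert ha] using h3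

theorem Bd.add {K k : ℕ} {f g : ℕ → (ℕ → ℂ) → E} (h1 : Bd K k f) (h2 : Bd K k g) :
    Bd K k (fun m d => f m d + g m d) := by
  obtain ⟨C1, c1, h1⟩ := h1
  obtain ⟨C2, c2, h2⟩ := h2
  refine ⟨C1 + C2, by positivity, fun m hm d hd => ?_⟩
  refine (norm_add_le _ _).trans ?_
  have := h1 m hm d hd
  have := h2 m hm d hd
  linarith

theorem Bd.zero {K k : ℕ} : Bd K k (fun (_ : ℕ) (_ : ℕ → ℂ) => (0 : E)) :=
  ⟨0, le_rfl, fun m _ d _ => by simp⟩

theorem Bd.sum {K k : ℕ} (L : Finset ℕ) {f : ℕ → ℕ → (ℕ → ℂ) → E}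
    (h : ∀ l ∈ L, Bd K k (f l)) : Bd K k (fun m d => ∑ l ∈ L, f l m d) := by
  induction L using Finset.induction_on with
  | empty => simpa using Bd.zero (K := K) (k := k) (E := E)
  | insert a s ha ih =>
    have h1 := h a (Finset.mem_insert_self _ _)
    have h2 := ih (fun l hl => h l (Finset.mem_insert_of_mem hl))
    have h3 := h1.add h2
    simpa only [Finset.sum_insert ha] using h3

theorem Bd.mul {K j k : ℕ} {f g : ℕ → (ℕ → ℂ) → E} (h1 : Bd K j f) (h2 : Bd K k g) :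
    Bd K (j + k) (fun m d => f m d * g m d) := by
  obtain ⟨C1, c1, h1⟩ := h1
  obtain ⟨C2, c2, h2⟩ := h2
  refine ⟨C1 * C2, by positivity, fun m hm d hd => ?_⟩
  refine (norm_mul_le _ _).trans ?_
  have h3 := mul_le_mul (h1 m hm d hd) (h2 m hm d hd) (norm_nonneg _)
    (mul_nonneg c1 (pow_nonneg (G1_nonneg _ _ _) _))
  refine h3.trans (le_of_eq ?_)
  rw [pow_add]
  ring

theorem Bd.const {K : ℕ} (c : E) : Bd K 0 (fun (_ : ℕ) (_ : ℕ → ℂ) => c) :=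
  ⟨‖c‖, norm_nonneg _, fun m _ d _ => by simp⟩

theorem Ap.mul {K j k : ℕ} {f f' g g' : ℕ → (ℕ → ℂ) → E} (h1 : Ap K j f f') (h2 : Ap K k g g')
    (b1 : Bd K j f') (b2 : Bd K k g') :
    Ap K (j + k) (fun m d => f m d * g m d) (fun m d => f' m d * g' m d) := by
  obtain ⟨C1, c1, b1⟩ := b1
  obtain ⟨C2, c2, b2⟩ := b2
  intro η hη
  set θ := min 1 (η / (C1 + C2 + 1)) with hθ
  have hθ0 : 0 < θ := lt_min one_pos (by positivity)
  have hθ1 : θ ≤ 1 := min_le_left _ _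
  have hθ2 : θ * (C1 + C2 + 1) ≤ η := by
    have := min_le_right 1 (η / (C1 + C2 + 1))
    rw [← hθ, le_div_iff₀ (by positivity)] at this
    exact this
  obtain ⟨m1, h1⟩ := h1 θ hθ0
  obtain ⟨m2, h2⟩ := h2 θ hθ0
  refine ⟨max m1 m2, fun m hm hm1 d hd => ?_⟩
  have a1 := h1 m (le_of_max_le_left hm) hm1 d hd
  have a2 := h2 m (le_of_max_le_right hm) hm1 d hd
  have a3 := b1 m hm1 d hd
  have a4 := b2 m hm1 d hd
  have g0 := pow_nonneg (G1_nonneg K m d) j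
  have g1 := pow_nonneg (G1_nonneg K m d) k
  have e : f m d * g m d - f' m d * g' m d
      = (f m d - f' m d) * (g m d - g' m d) + (f m d - f' m d) * g' m d
        + f' m d * (g m d - g' m d) := by noncomm_ring
  rw [e]
  have n1 : ‖(f m d - f' m d) * (g m d - g' m d)‖
      ≤ (θ * G1 K m d ^ j) * (θ * G1 K m d ^ k) :=
    (norm_mul_le _ _).trans (mul_le_mul a1 a2 (norm_nonneg _) (by positivity))
  have n2 : ‖(f m d - f' m d) * g' m d‖ ≤ (θ * G1 K m d ^ j) * (C2 * G1 K m d ^ k) :=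
    (norm_mul_le _ _).trans (mul_le_mul a1 a4 (norm_nonneg _) (by positivity))
  have n3 : ‖f' m d * (g m d - g' m d)‖ ≤ (C1 * G1 K m d ^ j) * (θ * G1 K m d ^ k) :=
    (norm_mul_le _ _).trans (mul_le_mul a3 a2 (norm_nonneg _) (by positivity))
  refine (norm_add₃_le).trans ?_
  rw [pow_add]
  have hgg : 0 ≤ G1 K m d ^ j * G1 K m d ^ k := mul_nonneg g0 g1
  have f1 : θ * θ ≤ θ * 1 := mul_le_mul_of_nonneg_left hθ1 hθ0.le
  have f2 : θ * θ + θ * C2 + C1 * θ ≤ η := by nlinarith only [hθ0, hθ1, hθ2]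
  calc ‖(f m d - f' m d) * (g m d - g' m d)‖ + ‖(f m d - f' m d) * g' m d‖
        + ‖f' m d * (g m d - g' m d)‖
      ≤ (θ * G1 K m d ^ j) * (θ * G1 K m d ^ k) + (θ * G1 K m d ^ j) * (C2 * G1 K m d ^ k)
        + (C1 * G1 K m d ^ j) * (θ * G1 K m d ^ k) := by linarith only [n1, n2, n3]
    _ = (θ * θ + θ * C2 + C1 * θ) * (G1 K m d ^ j * G1 K m d ^ k) := by ring
    _ ≤ η * (G1 K m d ^ j * G1 K m d ^ k) := mul_le_mul_of_nonneg_right f2 hgg

theorem ap_of_tendsto {K : ℕ} {c : ℕ → E} {l : E} (h : Tendsto c atTop (𝓝 l)) :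
    Ap K 0 (fun m (_ : ℕ → ℂ) => c m) (fun (_ : ℕ) (_ : ℕ → ℂ) => l) := by
  intro η hη
  obtain ⟨m0, hm0⟩ := Metric.tendsto_atTop.1 h η hη
  refine ⟨m0, fun m hm _ d _ => ?_⟩
  have := hm0 m hm
  rw [dist_eq_norm] at this
  rw [pow_zero, mul_one]
  exact this.le

/-- an error of size `C / m` -/
theorem ap_of_le {K k : ℕ} {f f' : ℕ → (ℕ → ℂ) → E} {C : ℝ}
    (h : ∀ m : ℕ, 1 ≤ m → ∀ d, Pal m d → ‖f m d - f' m d‖ ≤ C / m * G1 K m d ^ k) :
    Ap K k f f' := by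
  intro η hη
  obtain ⟨m0, hm0⟩ := exists_nat_ge (C / η)
  refine ⟨m0, fun m hm hm1 d hd => (h m hm1 d hd).trans ?_⟩
  apply mul_le_mul_of_nonneg_right _ (pow_nonneg (G1_nonneg _ _ _) _)
  have hm' : (0 : ℝ) < m := by exact_mod_cast hm1
  rw [div_le_iff₀ hm']
  rw [div_le_iff₀ hη] at hm0
  have : (m0 : ℝ) ≤ m := by exact_mod_cast hm
  nlinarith only [hη, hm0, this]

theorem Ap.cmul {K k : ℕ} {f f' : ℕ → (ℕ → ℂ) → E} (c : E) (h : Ap K k f f') :
    Ap K k (fun m d => c * f m d) (fun m d => c * f' m d) := by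
  intro η hη
  obtain ⟨m1, h1⟩ := h (η / (‖c‖ + 1)) (by positivity)
  refine ⟨m1, fun m hm hm1 d hd => ?_⟩
  have a1 := h1 m hm hm1 d hd
  rw [← mul_sub]
  refine (norm_mul_le _ _).trans ?_
  have hg := pow_nonneg (G1_nonneg K m d) k
  have h3 := mul_le_mul_of_nonneg_left a1 (norm_nonneg c)
  refine h3.trans ?_
  rw [← mul_assoc]
  apply mul_le_mul_of_nonneg_right _ hg
  rw [mul_div_assoc']
  rw [div_le_iff₀ (by positivity)]
  linarith only [hη]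

end

theorem Ap.conj {K k : ℕ} {f f' : ℕ → (ℕ → ℂ) → ℂ} (h : Ap K k f f') :
    Ap K k (fun m d => conj (f m d)) (fun m d => conj (f' m d)) := by
  intro η hη
  obtain ⟨m0, h⟩ := h η hη
  refine ⟨m0, fun m hm hm1 d hd => ?_⟩
  rw [← map_sub, RCLike.norm_conj]
  exact h m hm hm1 d hd

theorem Bd.conj {K k : ℕ} {f : ℕ → (ℕ → ℂ) → ℂ} (h : Bd K k f) :
    Bd K k (fun m d => conj (f m d)) := by
  obtain ⟨C, c, h⟩ := h
  refine ⟨C, c, fun m hm d hd => ?_⟩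
  rw [RCLike.norm_conj]
  exact h m hm d hd

theorem Ap.re {K k : ℕ} {f f' : ℕ → (ℕ → ℂ) → ℂ} (h : Ap K k f f') :
    Ap K k (fun m d => (f m d).re) (fun m d => (f' m d).re) := by
  intro η hη
  obtain ⟨m0, h⟩ := h η hη
  refine ⟨m0, fun m hm hm1 d hd => ?_⟩
  rw [← Complex.sub_re]
  exact (Complex.abs_re_le_norm _).trans (h m hm hm1 d hd)

theorem Bd.re {K k : ℕ} {f : ℕ → (ℕ → ℂ) → ℂ} (h : Bd K k f) :
    Bd K k (fun m d => (f m d).re) := by
  obtain ⟨C, c, h⟩ := h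
  refine ⟨C, c, fun m hm d hd => ?_⟩
  exact (Complex.abs_re_le_norm _).trans (h m hm d hd)

/-- the moments themselves -/
theorem bd_vS {K r : ℕ} (hr : r < K) : Bd K 1 (fun m d => vS d m r) := by
  refine ⟨1, zero_le_one, fun m _ d _ => ?_⟩
  rw [pow_one, one_mul]
  exact Finset.single_le_sum (f := fun r => ‖vS d m r‖) (fun _ _ => norm_nonneg _)
    (Finset.mem_range.2 hr)

/-- the final use: a lower bound -/
theorem Ap.lower {K k : ℕ} {f f' : ℕ → (ℕ → ℂ) → ℝ} (h : Ap K k f f') {η : ℝ} (hη : 0 < η) :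
    ∃ m0 : ℕ, ∀ m, m0 ≤ m → 1 ≤ m → ∀ d, Pal m d →
      f' m d - η * G1 K m d ^ k ≤ f m d := by
  obtain ⟨m0, h⟩ := h η hη
  refine ⟨m0, fun m hm hm1 d hd => ?_⟩
  have := (abs_le.1 (h m hm hm1 d hd)).1
  linarith only [this]

end Pool.Agent.M16.Helper37.PFS

end

section

set_option autoImplicit false

namespace Pool.Agent.M16.Helper54.HR2

open Pool.Agent.M16.Helper12.HR2 (Mo prd)

/-- validity of a list, short version -/
def vs7 (l : List ℕ) : Bool := l.all (fun i => Nat.ble (i + 1) 6) && Nat.ble l.length 7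

theorem sS_le (l : List ℕ) (h : ∀ i ∈ l, i < 6) : sS l ≤ l.length * 1048576 := by
  induction l with
  | nil => simp [sS]
  | cons a l ih =>
    have h1 := ih (fun i hi => h i (by simp [hi]))
    have h2 : 16 ^ a ≤ 16 ^ 5 := Nat.pow_le_pow_right (by norm_num) (by
      have := h a (by simp)
      omega)
    rw [sS_cons, List.length_cons]
    norm_num at h2
    omega

theorem vs7_iff {l : List ℕ} (h : vs7 l = true) : (∀ i ∈ l, i < 6) ∧ l.length ≤ 7 := by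
  unfold vs7 at h
  simp only [Bool.and_eq_true, List.all_eq_true, Nat.ble_eq] at h
  exact ⟨fun i hi => h.1 i hi, h.2⟩

theorem sS_lt {l : List ℕ} (h : vs7 l = true) : sS l < 16777216 := by
  obtain ⟨h1, h2⟩ := vs7_iff h
  have h3 := sS_le l h1
  have h4 : l.length * 1048576 ≤ 7 * 1048576 := Nat.mul_le_mul_right _ h2
  omega

theorem sS_append (l l' : List ℕ) : sS (l ++ l') = sS l + sS l' := by
  induction l with
  | nil =>
    rw [List.nil_append]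
    exact (Nat.zero_add _).symm
  | cons a l ih => rw [List.cons_append, sS_cons, sS_cons, ih, add_assoc]

theorem cod_prd {m m' : Mo} (h1 : vs7 m'.1 = true) (h2 : vs7 m'.2 = true) :
    cod (prd (m, m')) = cod m + sw (cod m') := by
  have e1 := sS_lt h1
  have e2 := sS_lt h2
  rw [cod_sS, cod_sS, cod_sS]
  unfold prd sw
  simp only
  rw [sS_append, sS_append]
  omega

theorem vmo_prd {m m' : Mo} (h1 : vs7 m.1 = true) (h2 : vs7 m.2 = true) (h3 : vs7 m'.1 = true)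
    (h4 : vs7 m'.2 = true) : vmo (prd (m, m')) = true := by
  obtain ⟨a1, b1⟩ := vs7_iff h1
  obtain ⟨a2, b2⟩ := vs7_iff h2
  obtain ⟨a3, b3⟩ := vs7_iff h3
  obtain ⟨a4, b4⟩ := vs7_iff h4
  unfold vmo prd
  simp only [Bool.and_eq_true, List.all_eq_true, List.mem_append, Nat.ble_eq, List.length_append]
  refine ⟨⟨⟨?_, ?_⟩, by omega⟩, by omega⟩
  · rintro i (hi | hi)
    · exact a1 i hi
    · exact a4 i hi
  · rintro i (hi | hi)
    · exact a2 i hi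
    · exact a3 i hi

/-- the check of the codes of the basis monomials -/
noncomputable def okK (kb : ℕ → ℕ) (bas : List Mo) : ℕ → Bool :=
  List.rec (motive := fun _ => ℕ → Bool) (fun _ => true)
    (fun m _ ih i => Prod.rec (motive := fun _ => Bool) (fun A B => and (and (vs7 A) (vs7 B))
      (and (Nat.beq (kb i) (Nat.add (sS A) (Nat.mul 16777216 (sS B)))) (ih (Nat.succ i)))) m) bas

theorem okK_spec {kb : ℕ → ℕ} : ∀ (bas : List Mo) (s : ℕ), okK kb bas s = true →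
    ∀ i < bas.length, kb (s + i) = cod (bm bas i) ∧ vs7 (bm bas i).1 = true ∧
      vs7 (bm bas i).2 = true := by
  intro bas
  induction bas with
  | nil => intro s _ i hi; exact absurd hi (by simp)
  | cons m bas ih =>
    intro s h i hi
    obtain ⟨A, B⟩ := m
    have h' : and (and (vs7 A) (vs7 B)) (and (Nat.beq (kb s) (sS A + 16777216 * sS B))
      (okK kb bas (s + 1))) = true := h
    simp only [Bool.and_eq_true] at h'
    obtain ⟨⟨h1, h2⟩, h3, h4⟩ := h'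
    rcases i with _ | i
    · refine ⟨?_, h1, h2⟩
      rw [cod_sS]
      exact Nat.eq_of_beq_eq_true h3
    · have := ih (s + 1) h4 i (by rw [List.length_cons] at hi; omega)
      rw [show s + (i + 1) = s + 1 + i by ring]
      exact this

theorem okK_all {kb : ℕ → ℕ} {bas : List Mo} (h : okK kb bas 0 = true) (i : ℕ) :
    vs7 (bm bas i).1 = true ∧ vs7 (bm bas i).2 = true := by
  by_cases hi : i < bas.length
  · exact (okK_spec bas 0 h i hi).2
  · have : bm bas i = ([], []) := by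
      rw [bm, List.getD_eq_default _ _ (by omega)]
    rw [this]
    exact ⟨rfl, rfl⟩

theorem okK_vmo {kb : ℕ → ℕ} {bas : List Mo} (h : okK kb bas 0 = true) (i j : ℕ) :
    vmo (prd (bm bas i, bm bas j)) = true :=
  vmo_prd (okK_all h i).1 (okK_all h i).2 (okK_all h j).1 (okK_all h j).2

theorem okK_cod {kb : ℕ → ℕ} {bas : List Mo} (h : okK kb bas 0 = true) {i j : ℕ}
    (hi : i < bas.length) (hj : j < bas.length) :
    kb i + swf (kb j) = cod (prd (bm bas i, bm bas j)) := by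
  have h1 := (okK_spec bas 0 h i hi).1
  have h2 := (okK_spec bas 0 h j hj).1
  rw [zero_add] at h1 h2
  rw [cod_prd (okK_all h j).1 (okK_all h j).2, h1, h2]
  rfl

theorem okK_dv {kb : ℕ → ℕ} {bas : List Mo} (h : okK kb bas 0 = true) :
    bas.all (fun m => vmo (prd (m, m))) = true := by
  rw [List.all_eq_true]
  intro m hm
  obtain ⟨i, hi, rfl⟩ := List.getElem_of_mem hm
  have := okK_vmo h i i
  rw [bm, List.getD_eq_getElem _ _ hi] at this
  exact this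

/-- rows of a block and the elements, then the rest -/
noncomputable def okFr {S : Type} (K : ℕ) (rep : ℕ → ℕ) (q : S → ℕ × ℕ) (o : ℕ) (ss : List Sng)
    (c : ℕ → List S → Bool) : ℕ → List S → Bool :=
  List.rec (motive := fun _ => ℕ → List S → Bool) (fun i ms => c i ms)
    (fun s _ ih i ms => List.rec (motive := fun _ => Bool) false
      (fun m ms' _ => and (okSf K rep (Nat.add o s.1) s.2 (q m).1 (q m).2)
        (ih (Nat.succ i) ms')) ms) ss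

/-- all blocks -/
noncomputable def okFb {S : Type} (K : ℕ) (rep : ℕ → ℕ) (q : S → ℕ × ℕ) (bs : List Blk) :
    ℕ → List S → Bool :=
  List.rec (motive := fun _ => ℕ → List S → Bool)
    (fun _ ms => List.rec (motive := fun _ => Bool) true (fun _ _ _ => false) ms)
    (fun b _ ih i ms => and (Nat.beq b.2.1 i) (okFr K rep q b.1 b.2.2 ih i ms)) bs

theorem okL_append {S : Type} {K : ℕ} {rep : ℕ → ℕ} {o : ℕ} {q : S → ℕ × ℕ} : ∀ (l1 : List Sng)
    (m1 : List S) (l2 : List Sng) (m2 : List S), okL K rep o q l1 m1 = true →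
    okL K rep o q l2 m2 = true → okL K rep o q (l1 ++ l2) (m1 ++ m2) = true := by
  intro l1
  induction l1 with
  | nil =>
    intro m1 l2 m2 h1 h2
    rcases m1 with _ | ⟨m, m1⟩
    · exact h2
    · exact absurd h1 (by simp [okL])
  | cons s l1 ih =>
    intro m1 l2 m2 h1 h2
    rcases m1 with _ | ⟨m, m1⟩
    · exact absurd h1 (by simp [okL])
    · simp only [okL, List.cons_append, Bool.and_eq_true] at h1 ⊢
      exact ⟨h1.1, ih m1 l2 m2 h1.2 h2⟩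

theorem okL_congr {S : Type} {K : ℕ} {rep : ℕ → ℕ} {o : ℕ} {q q' : S → ℕ × ℕ} :
    ∀ (l : List Sng) (ms : List S), (∀ m ∈ ms, q m = q' m) →
    okL K rep o q l ms = true → okL K rep o q' l ms = true := by
  intro l
  induction l with
  | nil =>
    intro ms _ h
    rcases ms with _ | ⟨m, ms⟩
    · rfl
    · exact absurd h (by simp [okL])
  | cons s l ih =>
    intro ms hq h
    rcases ms with _ | ⟨m, ms⟩
    · exact absurd h (by simp [okL])
    · simp only [okL, Bool.and_eq_true] at h ⊢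
      rw [← hq m (by simp)]
      exact ⟨h.1, ih ms (fun m' h' => hq m' (by simp [h'])) h.2⟩

theorem okFr_spec {S : Type} {K : ℕ} {rep : ℕ → ℕ} {q : S → ℕ × ℕ} {o : ℕ}
    {c : ℕ → List S → Bool} : ∀ (ss : List Sng) (i : ℕ) (ms : List S),
    okFr K rep q o ss c i ms = true → ∃ m1 m2, ms = m1 ++ m2 ∧
      okL K rep 0 q (ss.map (fun s => (o + s.1, s.2))) m1 = true ∧ c (i + ss.length) m2 = true := by
  intro ss
  induction ss with
  | nil => intro i ms h; exact ⟨[], ms, rfl, rfl, h⟩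
  | cons s ss ih =>
    intro i ms h
    rcases ms with _ | ⟨m, ms⟩
    · exact absurd h (by simp [okFr])
    · have h' : and (okSf K rep (o + s.1) s.2 (q m).1 (q m).2) (okFr K rep q o ss c (i + 1) ms)
          = true := h
      rw [Bool.and_eq_true] at h'
      obtain ⟨m1, m2, e1, e2, e3⟩ := ih _ _ h'.2
      refine ⟨m :: m1, m2, by rw [e1]; rfl, ?_, ?_⟩
      · rw [List.map_cons]
        simp only [okL, Bool.and_eq_true]
        refine ⟨?_, e2⟩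
        have h1 : okSf K rep (0 + (o + s.1)) s.2 (q m).1 (q m).2 = true := by
          rw [zero_add]
          exact h'.1
        exact okSf_spec h1
      · rw [List.length_cons, show i + (ss.length + 1) = i + 1 + ss.length by ring]
        exact e3

theorem okFb_spec {S : Type} {K : ℕ} {rep : ℕ → ℕ} {q : S → ℕ × ℕ} : ∀ (bs : List Blk) (i : ℕ)
    (ms : List S), okFb K rep q bs i ms = true → okB i bs = true ∧
      okL K rep 0 q (flat bs) ms = true := by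
  intro bs
  induction bs with
  | nil =>
    intro i ms h
    rcases ms with _ | ⟨m, ms⟩
    · exact ⟨rfl, rfl⟩
    · exact absurd h (by simp [okFb])
  | cons b bs ih =>
    intro i ms h
    have h' : and (Nat.beq b.2.1 i) (okFr K rep q b.1 b.2.2 (okFb K rep q bs) i ms) = true := h
    rw [Bool.and_eq_true] at h'
    obtain ⟨m1, m2, rfl, e2, e3⟩ := okFr_spec _ _ _ h'.2
    obtain ⟨f1, f2⟩ := ih _ _ e3
    refine ⟨?_, ?_⟩
    · simp only [okB, Bool.and_eq_true]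
      exact ⟨h'.1, f1⟩
    · rw [flat]
      exact okL_append _ _ _ _ e2 f2

theorem okF_of {S : Type} {K : ℕ} {rep : ℕ → ℕ} {q q' : S → ℕ × ℕ} {bs : List Blk} {ms : List S}
    (h : okFb K rep q bs 0 ms = true) (hq : ∀ m ∈ ms, q m = q' m) :
    okF K rep q' bs ms = true := by
  obtain ⟨h1, h2⟩ := okFb_spec bs 0 ms h
  unfold okF
  rw [Bool.and_eq_true]
  exact ⟨h1, okL_congr _ _ hq h2⟩

/-- the multiplicity of the pair -/
noncomputable def eqk (i k : ℕ) : ℕ := Bool.rec (motive := fun _ => ℕ) 1 0 (Nat.beq i k)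

/-- the fast check of the columns -/
noncomputable def okCf (K : ℕ) (rep kb : ℕ → ℕ) (n : ℕ) (T : List (ℕ × List Blk)) : ℕ → Bool :=
  List.rec (motive := fun _ => ℕ → Bool) (fun k => Nat.beq k n)
    (fun b _ ih k => and (Nat.beq b.1 k)
      (and (okFb K rep (fun i => (Nat.add (kb i) (swf (kb k)), eqk i k)) b.2 0
        (List.range' 0 (Nat.succ k))) (ih (Nat.succ k)))) T

theorem okCf_len {K : ℕ} {rep kb : ℕ → ℕ} {n : ℕ} : ∀ (T : List (ℕ × List Blk)) (k : ℕ),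
    okCf K rep kb n T k = true → k + T.length = n := by
  intro T
  induction T with
  | nil => intro k h; exact Nat.eq_of_beq_eq_true h
  | cons b T ih =>
    intro k h
    have h' : and (Nat.beq b.1 k)
      (and (okFb K rep (fun i => (Nat.add (kb i) (swf (kb k)), eqk i k)) b.2 0
        (List.range' 0 (k + 1))) (okCf K rep kb n T (k + 1))) = true := h
    simp only [Bool.and_eq_true] at h'
    have := ih _ h'.2.2
    rw [List.length_cons]
    omega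

theorem okC_of {K : ℕ} {rep kb : ℕ → ℕ} {bas : List Mo} {n : ℕ} (hK : okK kb bas 0 = true)
    (hn : n ≤ bas.length) : ∀ (T : List (ℕ × List Blk)) (k : ℕ), okCf K rep kb n T k = true →
    okC K rep bas n k T = true := by
  intro T
  induction T with
  | nil => intro k h; exact h
  | cons b T ih =>
    intro k h
    have h' : and (Nat.beq b.1 k)
      (and (okFb K rep (fun i => (Nat.add (kb i) (swf (kb k)), eqk i k)) b.2 0
        (List.range' 0 (k + 1))) (okCf K rep kb n T (k + 1))) = true := h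
    simp only [Bool.and_eq_true] at h'
    obtain ⟨h1, h2, h3⟩ := h'
    have hlen := okCf_len _ _ h3
    simp only [okC, Bool.and_eq_true]
    refine ⟨⟨⟨h1, okF_of h2 ?_⟩, ?_⟩, ih _ h3⟩
    · intro i hi
      rw [List.mem_range'_1] at hi
      have e1 : kb i + swf (kb k) = cod (prd (bm bas i, bm bas k)) :=
        okK_cod hK (by omega) (by omega)
      have e2 : eqk i k = bif Nat.beq i k then 0 else 1 := by
        unfold eqk
        cases Nat.beq i k <;> rfl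
      rw [qik, ← e1, ← e2]
      rfl
    · rw [List.all_eq_true]
      intro i _
      exact okK_vmo hK i k

/-- the bounds of the indices -/
noncomputable def okI (n : ℕ) (prs : List (ℕ × ℕ)) : Bool :=
  List.rec (motive := fun _ => Bool) true
    (fun p _ ih => and (Nat.ble (Nat.succ p.1) n) (and (Nat.ble (Nat.succ p.2) n) ih)) prs

theorem okI_spec {n : ℕ} : ∀ (prs : List (ℕ × ℕ)), okI n prs = true →
    ∀ p ∈ prs, p.1 < n ∧ p.2 < n := by
  intro prs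
  induction prs with
  | nil => intro _ p hp; exact absurd hp (by simp)
  | cons p0 prs ih =>
    intro h p hp
    have h' : and (Nat.ble (p0.1 + 1) n) (and (Nat.ble (p0.2 + 1) n) (okI n prs)) = true := h
    simp only [Bool.and_eq_true, Nat.ble_eq] at h'
    rcases List.mem_cons.1 hp with rfl | hp
    · exact ⟨h'.1, h'.2.1⟩
    · exact ih h'.2.2 p hp

theorem okr_of {K : ℕ} {rep kb : ℕ → ℕ} {bas : List Mo} {bs : List Blk} {prs : List (ℕ × ℕ)}
    {n : ℕ} (hK : okK kb bas 0 = true) (hn : bas.length = n) (hI : okI n prs = true)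
    (h : okFb K rep (fun p : ℕ × ℕ => (Nat.add (kb p.1) (swf (kb p.2)), 0)) bs 0 prs = true) :
    okF K rep (fun p : ℕ × ℕ => (cod (prd (bm bas p.1, bm bas p.2)), 0)) bs prs = true := by
  refine okF_of h ?_
  intro p hp
  obtain ⟨h1, h2⟩ := okI_spec _ hI p hp
  have := okK_cod hK (show p.1 < bas.length by omega) (show p.2 < bas.length by omega)
  rw [← this]
  rfl

theorem okrv_of {kb : ℕ → ℕ} {bas : List Mo} {prs : List (ℕ × ℕ)} {n : ℕ}
    (hK : okK kb bas 0 = true) (hn : bas.length = n) (hI : okI n prs = true) :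
    prs.all (fun p => vmo (prd (bm bas p.1, bm bas p.2)) && Nat.ble (p.1 + 1) bas.length &&
      Nat.ble (p.2 + 1) bas.length) = true := by
  rw [List.all_eq_true]
  intro p hp
  obtain ⟨h1, h2⟩ := okI_spec _ hI p hp
  simp only [Bool.and_eq_true, Nat.ble_eq]
  exact ⟨⟨okK_vmo hK _ _, by omega⟩, by omega⟩

/-- the monomials of the form with four moments -/
def qmSix : List Mo := [
  ([], []), ([0, 0], []), ([1], []), ([0, 0, 0, 0], []), ([0, 0, 1], []), ([1, 1], []), ([3], []),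
  ([0, 2], []), ([5], []), ([0, 4], []), ([1, 3], []), ([0, 0, 3], []), ([2, 2], []),
  ([0, 1, 2], []), ([0, 0, 0, 2], []), ([1, 1, 1], []), ([0, 0, 1, 1], []), ([0, 0, 0, 0, 1], []),
  ([0, 0, 0, 0, 0, 0], []), ([], [0, 0]), ([], [1]), ([0, 0], [0, 0]), ([0, 0], [1]),
  ([1], [0, 0]), ([1], [1]), ([0, 0, 0, 0], [0, 0]), ([0, 0, 0, 0], [1]), ([0, 0, 1], [0, 0]),
  ([0, 0, 1], [1]), ([1, 1], [0, 0]), ([1, 1], [1]), ([3], [0, 0]), ([3], [1]), ([0, 2], [0, 0]),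
  ([0, 2], [1]), ([5], [0, 0]), ([5], [1]), ([0, 4], [0, 0]), ([0, 4], [1]), ([1, 3], [0, 0]),
  ([1, 3], [1]), ([0, 0, 3], [0, 0]), ([0, 0, 3], [1]), ([2, 2], [0, 0]), ([2, 2], [1]),
  ([0, 1, 2], [0, 0]), ([0, 1, 2], [1]), ([0, 0, 0, 2], [0, 0]), ([0, 0, 0, 2], [1]),
  ([1, 1, 1], [0, 0]), ([1, 1, 1], [1]), ([0, 0, 1, 1], [0, 0]), ([0, 0, 1, 1], [1]),
  ([0, 0, 0, 0, 1], [0, 0]), ([0, 0, 0, 0, 1], [1]), ([0, 0, 0, 0, 0, 0], [0, 0]),
  ([0, 0, 0, 0, 0, 0], [1]), ([], [0, 0, 0, 0]), ([], [0, 0, 1]), ([], [1, 1]), ([], [3]),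
  ([], [0, 2]), ([0, 0], [0, 0, 0, 0]), ([0, 0], [0, 0, 1]), ([0, 0], [1, 1]), ([0, 0], [3]),
  ([0, 0], [0, 2]), ([1], [0, 0, 0, 0]), ([1], [0, 0, 1]), ([1], [1, 1]), ([1], [3]),
  ([1], [0, 2]), ([0, 0, 0, 0], [0, 0, 0, 0]), ([0, 0, 0, 0], [0, 0, 1]), ([0, 0, 0, 0], [1, 1]),
  ([0, 0, 0, 0], [3]), ([0, 0, 0, 0], [0, 2]), ([0, 0, 1], [0, 0, 0, 0]), ([0, 0, 1], [0, 0, 1]),
  ([0, 0, 1], [1, 1]), ([0, 0, 1], [3]), ([0, 0, 1], [0, 2]), ([1, 1], [0, 0, 0, 0]),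
  ([1, 1], [0, 0, 1]), ([1, 1], [1, 1]), ([1, 1], [3]), ([1, 1], [0, 2]), ([3], [0, 0, 0, 0]),
  ([3], [0, 0, 1]), ([3], [1, 1]), ([3], [3]), ([3], [0, 2]), ([0, 2], [0, 0, 0, 0]),
  ([0, 2], [0, 0, 1]), ([0, 2], [1, 1]), ([0, 2], [3]), ([0, 2], [0, 2]), ([5], [0, 0, 0, 0]),
  ([5], [0, 0, 1]), ([5], [1, 1]), ([5], [3]), ([5], [0, 2]), ([0, 4], [0, 0, 0, 0]),
  ([0, 4], [0, 0, 1]), ([0, 4], [1, 1]), ([0, 4], [3]), ([0, 4], [0, 2]), ([1, 3], [0, 0, 0, 0]),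
  ([1, 3], [0, 0, 1]), ([1, 3], [1, 1]), ([1, 3], [3]), ([1, 3], [0, 2]),
  ([0, 0, 3], [0, 0, 0, 0]), ([0, 0, 3], [0, 0, 1]), ([0, 0, 3], [1, 1]), ([0, 0, 3], [3]),
  ([0, 0, 3], [0, 2]), ([2, 2], [0, 0, 0, 0]), ([2, 2], [0, 0, 1]), ([2, 2], [1, 1]),
  ([2, 2], [3]), ([2, 2], [0, 2]), ([0, 1, 2], [0, 0, 0, 0]), ([0, 1, 2], [0, 0, 1]),
  ([0, 1, 2], [1, 1]), ([0, 1, 2], [3]), ([0, 1, 2], [0, 2]), ([0, 0, 0, 2], [0, 0, 0, 0]),
  ([0, 0, 0, 2], [0, 0, 1]), ([0, 0, 0, 2], [1, 1]), ([0, 0, 0, 2], [3]), ([0, 0, 0, 2], [0, 2]),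
  ([1, 1, 1], [0, 0, 0, 0]), ([1, 1, 1], [0, 0, 1]), ([1, 1, 1], [1, 1]), ([1, 1, 1], [3]),
  ([1, 1, 1], [0, 2]), ([0, 0, 1, 1], [0, 0, 0, 0]), ([0, 0, 1, 1], [0, 0, 1]),
  ([0, 0, 1, 1], [1, 1]), ([0, 0, 1, 1], [3]), ([0, 0, 1, 1], [0, 2]),
  ([0, 0, 0, 0, 1], [0, 0, 0, 0]), ([0, 0, 0, 0, 1], [0, 0, 1]), ([0, 0, 0, 0, 1], [1, 1]),
  ([0, 0, 0, 0, 1], [3]), ([0, 0, 0, 0, 1], [0, 2]), ([0, 0, 0, 0, 0, 0], [0, 0, 0, 0]),
  ([0, 0, 0, 0, 0, 0], [0, 0, 1]), ([0, 0, 0, 0, 0, 0], [1, 1]), ([0, 0, 0, 0, 0, 0], [3]),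
  ([0, 0, 0, 0, 0, 0], [0, 2]), ([], [5]), ([], [0, 4]), ([], [1, 3]), ([], [0, 0, 3]),
  ([], [2, 2]), ([], [0, 1, 2]), ([], [0, 0, 0, 2]), ([], [1, 1, 1]), ([], [0, 0, 1, 1]),
  ([], [0, 0, 0, 0, 1]), ([], [0, 0, 0, 0, 0, 0]), ([0, 0], [5]), ([0, 0], [0, 4]),
  ([0, 0], [1, 3]), ([0, 0], [0, 0, 3]), ([0, 0], [2, 2]), ([0, 0], [0, 1, 2]),
  ([0, 0], [0, 0, 0, 2]), ([0, 0], [1, 1, 1]), ([0, 0], [0, 0, 1, 1]), ([0, 0], [0, 0, 0, 0, 1]),
  ([0, 0], [0, 0, 0, 0, 0, 0]), ([1], [5]), ([1], [0, 4]), ([1], [1, 3]), ([1], [0, 0, 3]),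
  ([1], [2, 2]), ([1], [0, 1, 2]), ([1], [0, 0, 0, 2]), ([1], [1, 1, 1]), ([1], [0, 0, 1, 1]),
  ([1], [0, 0, 0, 0, 1]), ([1], [0, 0, 0, 0, 0, 0]), ([0, 0, 0, 0], [5]), ([0, 0, 0, 0], [0, 4]),
  ([0, 0, 0, 0], [1, 3]), ([0, 0, 0, 0], [0, 0, 3]), ([0, 0, 0, 0], [2, 2]),
  ([0, 0, 0, 0], [0, 1, 2]), ([0, 0, 0, 0], [0, 0, 0, 2]), ([0, 0, 0, 0], [1, 1, 1]),
  ([0, 0, 0, 0], [0, 0, 1, 1]), ([0, 0, 0, 0], [0, 0, 0, 0, 1]),
  ([0, 0, 0, 0], [0, 0, 0, 0, 0, 0]), ([0, 0, 1], [5]), ([0, 0, 1], [0, 4]), ([0, 0, 1], [1, 3]),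
  ([0, 0, 1], [0, 0, 3]), ([0, 0, 1], [2, 2]), ([0, 0, 1], [0, 1, 2]), ([0, 0, 1], [0, 0, 0, 2]),
  ([0, 0, 1], [1, 1, 1]), ([0, 0, 1], [0, 0, 1, 1]), ([0, 0, 1], [0, 0, 0, 0, 1]),
  ([0, 0, 1], [0, 0, 0, 0, 0, 0]), ([1, 1], [5]), ([1, 1], [0, 4]), ([1, 1], [1, 3]),
  ([1, 1], [0, 0, 3]), ([1, 1], [2, 2]), ([1, 1], [0, 1, 2]), ([1, 1], [0, 0, 0, 2]),
  ([1, 1], [1, 1, 1]), ([1, 1], [0, 0, 1, 1]), ([1, 1], [0, 0, 0, 0, 1]),
  ([1, 1], [0, 0, 0, 0, 0, 0]), ([3], [5]), ([3], [0, 4]), ([3], [1, 3]), ([3], [0, 0, 3]),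
  ([3], [2, 2]), ([3], [0, 1, 2]), ([3], [0, 0, 0, 2]), ([3], [1, 1, 1]), ([3], [0, 0, 1, 1]),
  ([3], [0, 0, 0, 0, 1]), ([3], [0, 0, 0, 0, 0, 0]), ([0, 2], [5]), ([0, 2], [0, 4]),
  ([0, 2], [1, 3]), ([0, 2], [0, 0, 3]), ([0, 2], [2, 2]), ([0, 2], [0, 1, 2]),
  ([0, 2], [0, 0, 0, 2]), ([0, 2], [1, 1, 1]), ([0, 2], [0, 0, 1, 1]), ([0, 2], [0, 0, 0, 0, 1]),
  ([0, 2], [0, 0, 0, 0, 0, 0]), ([5], [5]), ([5], [0, 4]), ([5], [1, 3]), ([5], [0, 0, 3]),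
  ([5], [2, 2]), ([5], [0, 1, 2]), ([5], [0, 0, 0, 2]), ([5], [1, 1, 1]), ([5], [0, 0, 1, 1]),
  ([5], [0, 0, 0, 0, 1]), ([5], [0, 0, 0, 0, 0, 0]), ([0, 4], [5]), ([0, 4], [0, 4]),
  ([0, 4], [1, 3]), ([0, 4], [0, 0, 3]), ([0, 4], [2, 2]), ([0, 4], [0, 1, 2]),
  ([0, 4], [0, 0, 0, 2]), ([0, 4], [1, 1, 1]), ([0, 4], [0, 0, 1, 1]), ([0, 4], [0, 0, 0, 0, 1]),
  ([0, 4], [0, 0, 0, 0, 0, 0]), ([1, 3], [5]), ([1, 3], [0, 4]), ([1, 3], [1, 3]),
  ([1, 3], [0, 0, 3]), ([1, 3], [2, 2]), ([1, 3], [0, 1, 2]), ([1, 3], [0, 0, 0, 2]),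
  ([1, 3], [1, 1, 1]), ([1, 3], [0, 0, 1, 1]), ([1, 3], [0, 0, 0, 0, 1]),
  ([1, 3], [0, 0, 0, 0, 0, 0]), ([0, 0, 3], [5]), ([0, 0, 3], [0, 4]), ([0, 0, 3], [1, 3]),
  ([0, 0, 3], [0, 0, 3]), ([0, 0, 3], [2, 2]), ([0, 0, 3], [0, 1, 2]), ([0, 0, 3], [0, 0, 0, 2]),
  ([0, 0, 3], [1, 1, 1]), ([0, 0, 3], [0, 0, 1, 1]), ([0, 0, 3], [0, 0, 0, 0, 1]),
  ([0, 0, 3], [0, 0, 0, 0, 0, 0]), ([2, 2], [5]), ([2, 2], [0, 4]), ([2, 2], [1, 3]),
  ([2, 2], [0, 0, 3]), ([2, 2], [2, 2]), ([2, 2], [0, 1, 2]), ([2, 2], [0, 0, 0, 2]),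
  ([2, 2], [1, 1, 1]), ([2, 2], [0, 0, 1, 1]), ([2, 2], [0, 0, 0, 0, 1]),
  ([2, 2], [0, 0, 0, 0, 0, 0]), ([0, 1, 2], [5]), ([0, 1, 2], [0, 4]), ([0, 1, 2], [1, 3]),
  ([0, 1, 2], [0, 0, 3]), ([0, 1, 2], [2, 2]), ([0, 1, 2], [0, 1, 2]), ([0, 1, 2], [0, 0, 0, 2]),
  ([0, 1, 2], [1, 1, 1]), ([0, 1, 2], [0, 0, 1, 1]), ([0, 1, 2], [0, 0, 0, 0, 1]),
  ([0, 1, 2], [0, 0, 0, 0, 0, 0]), ([0, 0, 0, 2], [5]), ([0, 0, 0, 2], [0, 4]),
  ([0, 0, 0, 2], [1, 3]), ([0, 0, 0, 2], [0, 0, 3]), ([0, 0, 0, 2], [2, 2]),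
  ([0, 0, 0, 2], [0, 1, 2]), ([0, 0, 0, 2], [0, 0, 0, 2]), ([0, 0, 0, 2], [1, 1, 1]),
  ([0, 0, 0, 2], [0, 0, 1, 1]), ([0, 0, 0, 2], [0, 0, 0, 0, 1]),
  ([0, 0, 0, 2], [0, 0, 0, 0, 0, 0]), ([1, 1, 1], [5]), ([1, 1, 1], [0, 4]), ([1, 1, 1], [1, 3]),
  ([1, 1, 1], [0, 0, 3]), ([1, 1, 1], [2, 2]), ([1, 1, 1], [0, 1, 2]), ([1, 1, 1], [0, 0, 0, 2]),
  ([1, 1, 1], [1, 1, 1]), ([1, 1, 1], [0, 0, 1, 1]), ([1, 1, 1], [0, 0, 0, 0, 1]),
  ([1, 1, 1], [0, 0, 0, 0, 0, 0]), ([0, 0, 1, 1], [5]), ([0, 0, 1, 1], [0, 4]),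
  ([0, 0, 1, 1], [1, 3]), ([0, 0, 1, 1], [0, 0, 3]), ([0, 0, 1, 1], [2, 2]),
  ([0, 0, 1, 1], [0, 1, 2]), ([0, 0, 1, 1], [0, 0, 0, 2]), ([0, 0, 1, 1], [1, 1, 1]),
  ([0, 0, 1, 1], [0, 0, 1, 1]), ([0, 0, 1, 1], [0, 0, 0, 0, 1]),
  ([0, 0, 1, 1], [0, 0, 0, 0, 0, 0]), ([0, 0, 0, 0, 1], [5]), ([0, 0, 0, 0, 1], [0, 4]),
  ([0, 0, 0, 0, 1], [1, 3]), ([0, 0, 0, 0, 1], [0, 0, 3]), ([0, 0, 0, 0, 1], [2, 2]),
  ([0, 0, 0, 0, 1], [0, 1, 2]), ([0, 0, 0, 0, 1], [0, 0, 0, 2]), ([0, 0, 0, 0, 1], [1, 1, 1]),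
  ([0, 0, 0, 0, 1], [0, 0, 1, 1]), ([0, 0, 0, 0, 1], [0, 0, 0, 0, 1]),
  ([0, 0, 0, 0, 1], [0, 0, 0, 0, 0, 0]), ([0, 0, 0, 0, 0, 0], [5]), ([0, 0, 0, 0, 0, 0], [0, 4]),
  ([0, 0, 0, 0, 0, 0], [1, 3]), ([0, 0, 0, 0, 0, 0], [0, 0, 3]), ([0, 0, 0, 0, 0, 0], [2, 2]),
  ([0, 0, 0, 0, 0, 0], [0, 1, 2]), ([0, 0, 0, 0, 0, 0], [0, 0, 0, 2]),
  ([0, 0, 0, 0, 0, 0], [1, 1, 1]), ([0, 0, 0, 0, 0, 0], [0, 0, 1, 1]),
  ([0, 0, 0, 0, 0, 0], [0, 0, 0, 0, 1]), ([0, 0, 0, 0, 0, 0], [0, 0, 0, 0, 0, 0])]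

end Pool.Agent.M16.Helper54.HR2

end

section

set_option autoImplicit false

namespace Pool.Agent.M16.Helper98.HR2

end Pool.Agent.M16.Helper98.HR2

end

section

set_option autoImplicit false

set_option maxRecDepth 100000

namespace Pool.Agent.M16.Helper98.HR2

open Pool.Agent.M16.Helper54.HR2

open Pool.Agent.M16.Helper12.HR2 (Mo GZ Par)

end Pool.Agent.M16.Helper98.HR2

end

end

section

namespace Pool.Agent.M16.Helper22.Half
end Pool.Agent.M16.Helper22.Half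
namespace Pool.Agent.M16.Helper22.Marshall
end Pool.Agent.M16.Helper22.Marshall
namespace Pool.Agent.M16.Helper39.Area
end Pool.Agent.M16.Helper39.Area
namespace Pool.Agent.M16.Helper39.MH
end Pool.Agent.M16.Helper39.MH
namespace Pool.Agent.M16.Helper54.HR2
end Pool.Agent.M16.Helper54.HR2
namespace Pool.Agent.M16.Helper12.HR2
end Pool.Agent.M16.Helper12.HR2

section

set_option autoImplicit false

open MeasureTheory Set Metric Filter Topology

open scoped ENNReal NNReal Real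

namespace Pool.Agent.M16.Helper22.Marshall

end Pool.Agent.M16.Helper22.Marshall

end

section

set_option autoImplicit false

open Complex MeasureTheory Metric Set Filter Topology

open scoped Real ENNReal ComplexConjugate NNReal

namespace Pool.Agent.M16.Helper39.Area

noncomputable def toDisc (l : ℂ) (f : ℂ → ℂ) (ζ : ℂ) : ℂ := if ζ = 0 then l else f ζ⁻¹

theorem inv_mem {ζ : ℂ} (hζ : ζ ∈ ball (0:ℂ) 1) (h0 : ζ ≠ 0) : 1 < ‖ζ⁻¹‖ := by
  rw [mem_ball, dist_zero_right] at hζ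
  rw [norm_inv]
  exact (one_lt_inv₀ (norm_pos_iff.mpr h0)).mpr hζ

theorem isOpen_ext : IsOpen {z : ℂ | 1 < ‖z‖} := isOpen_lt continuous_const continuous_norm

theorem toDisc_diff {f : ℂ → ℂ} {l : ℂ} (hf : DifferentiableOn ℂ f {z : ℂ | 1 < ‖z‖})
    (hl : Tendsto f (Bornology.cobounded ℂ) (𝓝 l)) :
    DifferentiableOn ℂ (toDisc l f) (ball 0 1) := by
  have hb : ball (0:ℂ) 1 ∈ 𝓝 (0:ℂ) := ball_mem_nhds 0 one_pos
  rw [← differentiableOn_compl_singleton_and_continuousAt_iff hb]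
  constructor
  · rintro ζ ⟨hζ, h0⟩
    have h0' : ζ ≠ 0 := h0
    have h1 : DifferentiableAt ℂ (fun ζ : ℂ => f ζ⁻¹) ζ := by
      have h2 := hf.differentiableAt (isOpen_ext.mem_nhds (inv_mem hζ h0'))
      exact h2.comp ζ (differentiableAt_inv h0')
    have h2 : toDisc l f =ᶠ[𝓝 ζ] fun ζ : ℂ => f ζ⁻¹ := by
      filter_upwards [isOpen_ne.mem_nhds h0'] with ω hω
      simp only [toDisc]
      rw [if_neg hω]
    exact (h1.congr_of_eventuallyEq h2).differentiableWithinAt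
  · rw [continuousAt_iff_punctured_nhds]
    have h1 : Tendsto (fun ζ : ℂ => f ζ⁻¹) (𝓝[≠] 0) (𝓝 l) := hl.comp tendsto_inv₀_nhdsNE_zero
    have h2 : toDisc l f 0 = l := by simp [toDisc]
    rw [h2]
    apply h1.congr'
    filter_upwards [self_mem_nhdsWithin] with ω hω
    have hω' : ω ≠ 0 := hω
    simp only [toDisc]
    rw [if_neg hω']

theorem ext_data {ψ h : ℂ → ℂ} {b : ℂ}
    (hψ : DifferentiableOn ℂ ψ {z : ℂ | 1 < ‖z‖})
    (hinj : InjOn ψ {z : ℂ | 1 < ‖z‖})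
    (hb : Tendsto (fun z => ψ z - z) (Bornology.cobounded ℂ) (𝓝 b))
    (hexp : ∀ z : ℂ, 1 < ‖z‖ → Complex.exp (h z) = deriv ψ z) :
    Ext (toDisc b (fun z => ψ z - z)) ∧ ∀ ζ ∈ ball (0:ℂ) 1,
      Complex.exp (toDisc 0 h ζ) = 1 - ζ ^ 2 * deriv (toDisc b (fun z => ψ z - z)) ζ := by
  set β : ℂ → ℂ := toDisc b (fun z => ψ z - z) with hβ
  have hdiff : DifferentiableOn ℂ β (ball 0 1) := toDisc_diff (hψ.sub differentiableOn_id) hb
  have hβ' : ∀ ζ : ℂ, ζ ≠ 0 → β ζ = ψ ζ⁻¹ - ζ⁻¹ := by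
    intro ζ hζ
    simp only [hβ, toDisc]
    rw [if_neg hζ]
  have hE : ∀ ζ ∈ ball (0:ℂ) 1, Complex.exp (toDisc 0 h ζ) = 1 - ζ ^ 2 * deriv β ζ := by
    intro ζ hζ
    by_cases h0 : ζ = 0
    · subst h0; simp [toDisc]
    · have h1 := inv_mem hζ h0
      have h2 : toDisc 0 h ζ = h ζ⁻¹ := by
        simp only [toDisc]; rw [if_neg h0]
      rw [h2, hexp _ h1]
      have h3 := (hψ.differentiableAt (isOpen_ext.mem_nhds h1)).hasDerivAt
      have h4 : HasDerivAt (fun ζ : ℂ => ψ ζ⁻¹) (deriv ψ ζ⁻¹ * -(ζ ^ 2)⁻¹) ζ :=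
        h3.comp ζ (hasDerivAt_inv h0)
      have h5 : HasDerivAt (fun ζ : ℂ => ψ ζ⁻¹ - ζ⁻¹) (deriv ψ ζ⁻¹ * -(ζ ^ 2)⁻¹ - -(ζ ^ 2)⁻¹) ζ :=
        h4.sub (hasDerivAt_inv h0)
      have h6 : β =ᶠ[𝓝 ζ] fun ζ : ℂ => ψ ζ⁻¹ - ζ⁻¹ := by
        filter_upwards [isOpen_ne.mem_nhds h0] with ω hω
        exact hβ' ω hω
      rw [(h5.congr_of_eventuallyEq h6).deriv]
      field_simp
      ring
  refine ⟨⟨hdiff, ?_, ?_⟩, hE⟩
  · intro ζ ω hζ hω hζ0 hω0 heq
    rw [hβ' ζ hζ0, hβ' ω hω0] at heq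
    have h1 : ψ ζ⁻¹ = ψ ω⁻¹ := by linear_combination heq
    exact inv_injective (hinj (inv_mem hζ hζ0) (inv_mem hω hω0) h1)
  · intro ζ hζ h'
    rw [← hE ζ hζ] at h'
    exact Complex.exp_ne_zero _ h'

/-- Goluzin's inequality, in the coordinate `ζ = 1/z`. -/
theorem goluzin_disc {ψ h : ℂ → ℂ}
    (hψ : DifferentiableOn ℂ ψ {z : ℂ | 1 < ‖z‖})
    (hinj : InjOn ψ {z : ℂ | 1 < ‖z‖})
    (hb : ∃ b : ℂ, Tendsto (fun z => ψ z - z) (Bornology.cobounded ℂ) (𝓝 b))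
    (hh : DifferentiableOn ℂ h {z : ℂ | 1 < ‖z‖})
    (hexp : ∀ z : ℂ, 1 < ‖z‖ → Complex.exp (h z) = deriv ψ z)
    (hh0 : Tendsto h (Bornology.cobounded ℂ) (𝓝 0)) :
    DifferentiableOn ℂ (toDisc 0 h) (ball 0 1) ∧ ∀ ζ ∈ ball (0:ℂ) 1,
      ‖toDisc 0 h ζ‖ ≤ Real.log (1 / (1 - ‖ζ‖ ^ 2)) := by
  obtain ⟨b, hb⟩ := hb
  obtain ⟨h1, h2⟩ := ext_data hψ hinj hb hexp
  have h3 : DifferentiableOn ℂ (toDisc 0 h) (ball 0 1) := toDisc_diff hh hh0
  refine ⟨h3, fun ζ hζ => ?_⟩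
  have h4 := goluzin h1 h3.continuousOn (by simp [toDisc]) h2 hζ
  rwa [one_div, Real.log_inv]

end Pool.Agent.M16.Helper39.Area

end

section

set_option autoImplicit false

open MeasureTheory Set Metric Filter Topology

open scoped ENNReal NNReal Real ComplexConjugate

namespace Pool.Agent.M16.Helper12.HR2

open Pool.Agent.M16.Helper22.Half (SigmaLog)

/-- the mean of `|exp (s h)|^2` over the circle of radius `R` -/
noncomputable def mE (s : ℂ) (R : ℝ) (h : ℂ → ℂ) : ℝ :=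
  (1 / (2 * π)) * ∫ θ in (0:ℝ)..(2 * π),
    ‖Complex.exp (s * h ((R : ℂ) * Complex.exp ((θ : ℂ) * Complex.I)))‖ ^ 2

end Pool.Agent.M16.Helper12.HR2

end

section

set_option autoImplicit false

open Complex MeasureTheory Metric Set Filter Topology

open scoped Real ENNReal ComplexConjugate NNReal

namespace Pool.Agent.M16.Helper39.Dim

open Pool.Agent.M16.Helper39.Area

theorem exists_log {q : ℂ → ℂ} (hq : DifferentiableOn ℂ q (ball 0 1))
    (hne : ∀ ζ ∈ ball (0:ℂ) 1, q ζ ≠ 0) (h0 : q 0 = 1) :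
    ∃ F : ℂ → ℂ, DifferentiableOn ℂ F (ball 0 1) ∧ F 0 = 0 ∧
      ∀ ζ ∈ ball (0:ℂ) 1, Complex.exp (F ζ) = q ζ := by
  have hQd : DifferentiableOn ℂ (fun ζ => deriv q ζ / q ζ) (ball 0 1) :=
    (hq.deriv isOpen_ball).div hq hne
  obtain ⟨F, hF0, hF⟩ := hQd.isExactOn_ball.with_val_at 0 0
  have h0b : (0:ℂ) ∈ ball (0:ℂ) 1 := mem_ball_self one_pos
  refine ⟨F, fun ζ hζ => (hF ζ hζ).differentiableAt.differentiableWithinAt, hF0, ?_⟩
  have hderiv : ∀ ζ ∈ ball (0:ℂ) 1, HasDerivAt (fun ζ => Complex.exp (-F ζ) * q ζ) 0 ζ := by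
    intro ζ hζ
    have h1 := ((hF ζ hζ).neg.cexp).mul ((hq.differentiableAt (isOpen_ball.mem_nhds hζ)).hasDerivAt)
    have h2 := hne ζ hζ
    have e : (0:ℂ) = Complex.exp (-F ζ) * -(deriv q ζ / q ζ) * q ζ +
        Complex.exp (-F ζ) * deriv q ζ := by
      field_simp
      ring
    rw [e]
    exact h1
  intro ζ hζ
  have h1 : Complex.exp (-F ζ) * q ζ = Complex.exp (-F 0) * q 0 := by
    apply (convex_ball (0:ℂ) 1).is_const_of_fderivWithin_eq_zero (𝕜 := ℂ)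
      (f := fun ζ => Complex.exp (-F ζ) * q ζ) _ _ hζ h0b
    · intro ω hω
      exact (hderiv ω hω).differentiableAt.differentiableWithinAt
    · intro ω hω
      have h3 := (hderiv ω hω).hasFDerivAt.hasFDerivWithinAt (s := ball (0:ℂ) 1)
      rw [h3.fderivWithin (isOpen_ball.uniqueDiffWithinAt hω)]
      ext
      simp
  rw [hF0, neg_zero, Complex.exp_zero, one_mul, h0, Complex.exp_neg] at h1
  have h3 := Complex.exp_ne_zero (F ζ)
  field_simp at h1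
  exact h1.symm

/-- second coefficient bound for univalent functions on the disc, with `f' = exp k`. -/
theorem second_coeff {f k : ℂ → ℂ} (hf : DifferentiableOn ℂ f (ball 0 1))
    (hinj : InjOn f (ball 0 1)) (hf0 : f 0 = 0) (hk : DifferentiableOn ℂ k (ball 0 1))
    (hk0 : k 0 = 0) (hexp : ∀ ζ ∈ ball (0:ℂ) 1, Complex.exp (k ζ) = deriv f ζ) :
    ‖deriv k 0‖ ≤ 28 / 3 := by
  have h0b : (0:ℂ) ∈ ball (0:ℂ) 1 := mem_ball_self one_pos
  have hb0 : ball (0:ℂ) 1 ∈ 𝓝 (0:ℂ) := ball_mem_nhds 0 one_pos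
  have hf1 : deriv f 0 = 1 := by rw [← hexp 0 h0b, hk0, Complex.exp_zero]
  set g : ℂ → ℂ := dslope f 0 with hg
  have hgd : DifferentiableOn ℂ g (ball 0 1) := (Complex.differentiableOn_dslope hb0).mpr hf
  have hg0 : g 0 = 1 := by rw [hg, dslope_same, hf1]
  have hgf : ∀ ζ : ℂ, f ζ = ζ * g ζ := by
    intro ζ
    by_cases h : ζ = 0
    · subst h; simp [hf0]
    · rw [hg, dslope_of_ne _ h, slope_def_field, hf0]
      field_simp
      ring
  have hfne : ∀ ζ ∈ ball (0:ℂ) 1, ζ ≠ 0 → f ζ ≠ 0 := by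
    intro ζ hζ h h'
    exact h (hinj hζ h0b (by rw [h', hf0]))
  have hgne : ∀ ζ ∈ ball (0:ℂ) 1, g ζ ≠ 0 := by
    intro ζ hζ h
    by_cases h0 : ζ = 0
    · subst h0; rw [hg0] at h; exact one_ne_zero h
    · apply hfne ζ hζ h0
      rw [hgf, h, mul_zero]
  set g1 : ℂ → ℂ := dslope g 0 with hg1
  have hg1d : DifferentiableOn ℂ g1 (ball 0 1) := (Complex.differentiableOn_dslope hb0).mpr hgd
  set β : ℂ → ℂ := fun ζ => -(g1 ζ / g ζ) with hβ
  have hβd : DifferentiableOn ℂ β (ball 0 1) := (hg1d.div hgd hgne).neg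
  have hβf : ∀ ζ ∈ ball (0:ℂ) 1, ζ ≠ 0 → ζ⁻¹ + β ζ = (f ζ)⁻¹ := by
    intro ζ hζ h
    have h1 : g1 ζ = (g ζ - 1) / ζ := by
      rw [hg1, dslope_of_ne _ h, slope_def_field, hg0, sub_zero]
    have h2 := hgne ζ hζ
    simp only [hβ]
    rw [h1, hgf ζ]
    field_simp
    ring
  -- the derivative of `β`
  have hβ' : ∀ ζ ∈ ball (0:ℂ) 1, 1 - ζ ^ 2 * deriv β ζ = deriv f ζ / g ζ ^ 2 := by
    intro ζ hζ
    by_cases h : ζ = 0
    · subst h; simp [hf1, hg0]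
    · have h1 : HasDerivAt (fun ζ : ℂ => ζ⁻¹ + β ζ) (-(ζ ^ 2)⁻¹ + deriv β ζ) ζ :=
        (hasDerivAt_inv h).add ((hβd.differentiableAt (isOpen_ball.mem_nhds hζ)).hasDerivAt)
      have h2 : HasDerivAt (fun ζ : ℂ => (f ζ)⁻¹) (-deriv f ζ / f ζ ^ 2) ζ :=
        ((hf.differentiableAt (isOpen_ball.mem_nhds hζ)).hasDerivAt).inv (hfne ζ hζ h)
      have h3 : (fun ζ : ℂ => ζ⁻¹ + β ζ) =ᶠ[𝓝 ζ] fun ζ : ℂ => (f ζ)⁻¹ := by
        filter_upwards [isOpen_ball.mem_nhds hζ, isOpen_ne.mem_nhds h] with ω hω hω0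
        exact hβf ω hω hω0
      have h4 := (h1.congr_of_eventuallyEq h3.symm).unique h2
      have h5 : deriv β ζ = (ζ ^ 2)⁻¹ + -deriv f ζ / f ζ ^ 2 := by linear_combination h4
      have h6 := hgne ζ hζ
      rw [h5, hgf ζ]
      field_simp
      ring
  have hext : Ext β := by
    refine ⟨hβd, ?_, ?_⟩
    · intro ζ ω hζ hω hζ0 hω0 h
      rw [hβf ζ hζ hζ0, hβf ω hω hω0] at h
      exact hinj hζ hω (inv_injective h)
    · intro ζ hζ
      rw [hβ' ζ hζ, ← hexp ζ hζ]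
      exact div_ne_zero (Complex.exp_ne_zero _) (pow_ne_zero _ (hgne ζ hζ))
  obtain ⟨G, hGd, hG0, hG⟩ := exists_log hgd hgne hg0
  set H : ℂ → ℂ := fun ζ => k ζ - 2 * G ζ with hH
  have hHd : DifferentiableOn ℂ H (ball 0 1) := hk.sub (hGd.const_mul 2)
  have hHe : ∀ ζ ∈ ball (0:ℂ) 1, Complex.exp (H ζ) = 1 - ζ ^ 2 * deriv β ζ := by
    intro ζ hζ
    rw [hβ' ζ hζ, hH]
    simp only
    rw [Complex.exp_sub, two_mul, Complex.exp_add, hexp ζ hζ, hG ζ hζ, sq]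
  have hgol : ∀ ζ ∈ ball (0:ℂ) 1, ‖H ζ‖ ≤ -Real.log (1 - ‖ζ‖ ^ 2) := fun ζ hζ =>
    goluzin hext hHd.continuousOn (by simp [hH, hk0, hG0]) hHe hζ
  -- bound for `β'`
  have hβb : ∀ ζ ∈ ball (0:ℂ) 1, ζ ≠ 0 → ‖deriv β ζ‖ ≤ 1 / (1 - ‖ζ‖ ^ 2) := by
    intro ζ hζ h
    have hn : ‖ζ‖ < 1 := by simpa using hζ
    have hn0 : 0 < ‖ζ‖ := norm_pos_iff.mpr h
    have hd : 0 < 1 - ‖ζ‖ ^ 2 := by nlinarith only [hn, hn0]
    have h1 : ‖Complex.exp (H ζ) - 1‖ ≤ Real.exp ‖H ζ‖ - 1 := by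
      have := Complex.norm_exp_sub_sum_le_exp_norm_sub_sum (H ζ) 1
      simpa using this
    have h2 : Real.exp ‖H ζ‖ ≤ 1 / (1 - ‖ζ‖ ^ 2) := by
      calc Real.exp ‖H ζ‖ ≤ Real.exp (-Real.log (1 - ‖ζ‖ ^ 2)) := Real.exp_le_exp.mpr (hgol ζ hζ)
        _ = 1 / (1 - ‖ζ‖ ^ 2) := by rw [Real.exp_neg, Real.exp_log hd, one_div]
    have h3 : ‖Complex.exp (H ζ) - 1‖ = ‖ζ‖ ^ 2 * ‖deriv β ζ‖ := by
      rw [hHe ζ hζ]
      have : 1 - ζ ^ 2 * deriv β ζ - 1 = -(ζ ^ 2 * deriv β ζ) := by ring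
      rw [this, norm_neg, norm_mul, norm_pow]
    rw [h3] at h1
    have h4 : ‖ζ‖ ^ 2 * ‖deriv β ζ‖ ≤ ‖ζ‖ ^ 2 * (1 / (1 - ‖ζ‖ ^ 2)) := by
      have e : ‖ζ‖ ^ 2 * (1 / (1 - ‖ζ‖ ^ 2)) = 1 / (1 - ‖ζ‖ ^ 2) - 1 := by
        field_simp
        ring
      rw [e]
      linarith
    exact le_of_mul_le_mul_left h4 (by positivity)
  have hβb2 : ∀ ζ ∈ closedBall (0:ℂ) (1/2), ‖deriv β ζ‖ ≤ 4 / 3 := by
    have h5 : ∀ ζ ∈ closedBall (0:ℂ) (1/2), ζ ≠ 0 → ‖deriv β ζ‖ ≤ 4 / 3 := by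
      intro ζ hζ h
      have hn : ‖ζ‖ ≤ 1 / 2 := by simpa using hζ
      have hζb : ζ ∈ ball (0:ℂ) 1 := by
        rw [mem_ball, dist_zero_right]; linarith only [hn]
      refine (hβb ζ hζb h).trans ?_
      rw [div_le_div_iff₀ (by nlinarith only [norm_nonneg ζ, hn]) (by norm_num)]
      nlinarith only [norm_nonneg ζ, hn]
    intro ζ hζ
    by_cases h : ζ = 0
    · subst h
      have hc : ContinuousAt (fun ζ => ‖deriv β ζ‖) 0 :=
        (((hβd.deriv isOpen_ball).continuousOn.continuousAt hb0)).norm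
      have h6 : Tendsto (fun ζ => ‖deriv β ζ‖) (𝓝[≠] 0) (𝓝 ‖deriv β 0‖) :=
        hc.tendsto.mono_left nhdsWithin_le_nhds
      apply le_of_tendsto h6
      have h7 : closedBall (0:ℂ) (1/2) ∈ 𝓝[≠] (0:ℂ) :=
        mem_nhdsWithin_of_mem_nhds (closedBall_mem_nhds 0 (by norm_num))
      filter_upwards [h7, self_mem_nhdsWithin] with ω hω hω0
      exact h5 ω hω hω0
    · exact h5 ζ hζ h
  have hβ0 : ‖β 0‖ ≤ 14 / 3 := by
    by_contra hcon
    push Not at hcon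
    have hfb : ∀ ζ ∈ sphere (0:ℂ) (1/2), ‖f ζ‖ ≤ 1 / (‖β 0‖ - 8 / 3) := by
      intro ζ hζ
      have hn : ‖ζ‖ = 1 / 2 := by simpa using hζ
      have hζc : ζ ∈ closedBall (0:ℂ) (1/2) := sphere_subset_closedBall hζ
      have hζb : ζ ∈ ball (0:ℂ) 1 := by
        rw [mem_ball, dist_zero_right]; linarith
      have hζ0 : ζ ≠ 0 := by
        rintro rfl
        simp at hn
      have h8 : ‖β ζ - β 0‖ ≤ 4 / 3 * ‖ζ - 0‖ := by
        apply (convex_closedBall (0:ℂ) (1/2)).norm_image_sub_le_of_norm_deriv_le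
          (f := β) _ hβb2 (by simp) hζc
        intro ω hω
        apply hβd.differentiableAt (isOpen_ball.mem_nhds _)
        rw [mem_ball, dist_zero_right]
        have : ‖ω‖ ≤ 1 / 2 := by simpa using hω
        linarith only [this]
      rw [sub_zero, hn] at h8
      have h9 := hβf ζ hζb hζ0
      have h10 : ‖β 0‖ - 8 / 3 ≤ ‖(f ζ)⁻¹‖ := by
        rw [← h9]
        have h11 : ‖β 0‖ ≤ ‖ζ⁻¹ + β ζ‖ + ‖ζ⁻¹‖ + ‖β ζ - β 0‖ := by
          have : β 0 = (ζ⁻¹ + β ζ) - ζ⁻¹ - (β ζ - β 0) := by ring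
          calc ‖β 0‖ = ‖(ζ⁻¹ + β ζ) - ζ⁻¹ - (β ζ - β 0)‖ := by rw [← this]
            _ ≤ ‖(ζ⁻¹ + β ζ) - ζ⁻¹‖ + ‖β ζ - β 0‖ := norm_sub_le _ _
            _ ≤ ‖ζ⁻¹ + β ζ‖ + ‖ζ⁻¹‖ + ‖β ζ - β 0‖ := by
                gcongr
                exact norm_sub_le _ _
        have h12 : ‖ζ⁻¹‖ = 2 := by rw [norm_inv, hn]; norm_num
        linarith only [h8, h11, h12]
      rw [norm_inv] at h10
      have hfp : 0 < ‖f ζ‖ := norm_pos_iff.mpr (hfne ζ hζb hζ0)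
      rw [le_div_iff₀ (by linarith only [hcon])]
      have h13 : (‖β 0‖ - 8 / 3) * ‖f ζ‖ ≤ ‖f ζ‖⁻¹ * ‖f ζ‖ :=
        mul_le_mul_of_nonneg_right h10 hfp.le
      rw [inv_mul_cancel₀ hfp.ne'] at h13
      linarith only [h13]
    have hdc : DiffContOnCl ℂ f (ball 0 (1/2)) := by
      apply DifferentiableOn.diffContOnCl
      apply hf.mono
      rw [closure_ball (0:ℂ) (by norm_num)]
      exact closedBall_subset_ball (by norm_num)
    have h14 := Complex.norm_deriv_le_of_forall_mem_sphere_norm_le (by norm_num) hdc hfb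
    rw [hf1, norm_one] at h14
    have h15 : 1 / (‖β 0‖ - 8 / 3) / (1 / 2) < 1 := by
      rw [div_div, div_lt_one (by linarith only [hcon])]
      linarith only [hcon]
    linarith
  -- `k'(0) = -2 β(0)`
  have hH' : deriv H 0 = 0 := by
    have h1 : HasDerivAt (fun ζ => Complex.exp (H ζ)) (Complex.exp (H 0) * deriv H 0) 0 :=
      ((hHd.differentiableAt hb0).hasDerivAt).cexp
    have h2 : HasDerivAt (fun ζ : ℂ => 1 - ζ ^ 2 * deriv β ζ)
        (0 - (((2:ℕ) * (0:ℂ) ^ 1 * 1) * deriv β 0 + (0:ℂ) ^ 2 * deriv (deriv β) 0)) 0 := by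
      apply (hasDerivAt_const (0:ℂ) (1:ℂ)).sub
      exact ((hasDerivAt_id (0:ℂ)).pow 2).mul
        (((hβd.deriv isOpen_ball).differentiableAt hb0).hasDerivAt)
    have h3 : (fun ζ => Complex.exp (H ζ)) =ᶠ[𝓝 0] fun ζ : ℂ => 1 - ζ ^ 2 * deriv β ζ := by
      filter_upwards [hb0] with ζ hζ
      exact hHe ζ hζ
    have h4 := (h1.congr_of_eventuallyEq h3.symm).unique h2
    have h5 : H 0 = 0 := by simp [hH, hk0, hG0]
    rw [h5, Complex.exp_zero] at h4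
    simpa using h4
  have hG' : deriv G 0 = deriv g 0 := by
    have h1 : HasDerivAt (fun ζ => Complex.exp (G ζ)) (Complex.exp (G 0) * deriv G 0) 0 :=
      ((hGd.differentiableAt hb0).hasDerivAt).cexp
    have h3 : (fun ζ => Complex.exp (G ζ)) =ᶠ[𝓝 0] g := by
      filter_upwards [hb0] with ζ hζ
      exact hG ζ hζ
    have h4 := (h1.congr_of_eventuallyEq h3.symm).deriv
    rw [hG0, Complex.exp_zero, one_mul] at h4
    exact h4.symm
  have hβ0' : β 0 = -deriv g 0 := by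
    simp only [hβ, hg1, dslope_same, hg0, div_one]
  have hk' : deriv k 0 = 2 * deriv G 0 := by
    have h1 : HasDerivAt H (deriv k 0 - 2 * deriv G 0) 0 :=
      ((hk.differentiableAt hb0).hasDerivAt).sub
        (((hGd.differentiableAt hb0).hasDerivAt).const_mul 2)
    have h2 := h1.deriv
    rw [hH'] at h2
    linear_combination -h2
  rw [hk', hG', norm_mul]
  have h3 : ‖deriv g 0‖ = ‖β 0‖ := by rw [hβ0', norm_neg]
  rw [h3]
  have : ‖(2:ℂ)‖ = 2 := by simp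
  rw [this]
  linarith only [hβ0]

end Pool.Agent.M16.Helper39.Dim

end

section

set_option autoImplicit false

open Complex MeasureTheory Metric Set Filter Topology

open scoped Real ENNReal ComplexConjugate NNReal

namespace Pool.Agent.M16.Helper39.Dim

open Pool.Agent.M16.Helper39.Area

theorem preSchwarzian {ψ h : ℂ → ℂ}
    (hψ : DifferentiableOn ℂ ψ {z : ℂ | 1 < ‖z‖})
    (hinj : InjOn ψ {z : ℂ | 1 < ‖z‖})
    (hh : DifferentiableOn ℂ h {z : ℂ | 1 < ‖z‖})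
    (hexp : ∀ z : ℂ, 1 < ‖z‖ → Complex.exp (h z) = deriv ψ z) {z : ℂ} (hz : 1 < ‖z‖) :
    (‖z‖ - 1) * ‖deriv h z‖ ≤ 28 / 3 := by
  set δ : ℝ := ‖z‖ - 1 with hδ
  have hδ0 : 0 < δ := by linarith
  have hδc : (δ : ℂ) ≠ 0 := by exact_mod_cast hδ0.ne'
  have hmem : ∀ ζ ∈ ball (0:ℂ) 1, z + δ * ζ ∈ {z : ℂ | 1 < ‖z‖} := by
    intro ζ hζ
    have hn : ‖ζ‖ < 1 := by simpa using hζ
    have h1 : ‖z‖ - ‖(δ:ℂ) * ζ‖ ≤ ‖z + δ * ζ‖ := by
      have := norm_sub_norm_le z (-((δ:ℂ) * ζ))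
      rwa [norm_neg, sub_neg_eq_add] at this
    have h2 : ‖(δ:ℂ) * ζ‖ = δ * ‖ζ‖ := by
      rw [norm_mul, Complex.norm_real, Real.norm_of_nonneg hδ0.le]
    rw [h2] at h1
    have h3 : δ * ‖ζ‖ < δ := by nlinarith only [hδ0, hn]
    show 1 < ‖z + δ * ζ‖
    linarith
  have hzm : z ∈ {z : ℂ | 1 < ‖z‖} := hz
  have hψ0 : deriv ψ z ≠ 0 := by rw [← hexp z hz]; exact Complex.exp_ne_zero _
  have haff : ∀ ζ : ℂ, HasDerivAt (fun ζ : ℂ => z + δ * ζ) (δ : ℂ) ζ := by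
    intro ζ
    have := ((hasDerivAt_id ζ).const_mul (δ:ℂ)).const_add z
    simpa using this
  set f : ℂ → ℂ := fun ζ => (ψ (z + δ * ζ) - ψ z) / (δ * deriv ψ z) with hf
  set k : ℂ → ℂ := fun ζ => h (z + δ * ζ) - h z with hk
  have hden : (δ:ℂ) * deriv ψ z ≠ 0 := mul_ne_zero hδc hψ0
  have hfd : ∀ ζ ∈ ball (0:ℂ) 1, HasDerivAt f (deriv ψ (z + δ * ζ) / deriv ψ z) ζ := by
    intro ζ hζ
    have h1 : HasDerivAt ψ (deriv ψ (z + δ * ζ)) (z + δ * ζ) :=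
      (hψ.differentiableAt (isOpen_ext.mem_nhds (hmem ζ hζ))).hasDerivAt
    have h2 := ((h1.comp ζ (haff ζ)).sub_const (ψ z)).div_const ((δ:ℂ) * deriv ψ z)
    have e : deriv ψ (z + δ * ζ) / deriv ψ z = deriv ψ (z + δ * ζ) * δ / (δ * deriv ψ z) := by
      field_simp
    rw [e]
    exact h2
  have hkd : ∀ ζ ∈ ball (0:ℂ) 1, HasDerivAt k (deriv h (z + δ * ζ) * δ) ζ := by
    intro ζ hζ
    have h1 : HasDerivAt h (deriv h (z + δ * ζ)) (z + δ * ζ) :=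
      (hh.differentiableAt (isOpen_ext.mem_nhds (hmem ζ hζ))).hasDerivAt
    exact (h1.comp ζ (haff ζ)).sub_const (h z)
  have key := second_coeff (f := f) (k := k)
    (fun ζ hζ => (hfd ζ hζ).differentiableAt.differentiableWithinAt)
    (by
      intro ζ hζ ω hω he
      simp only [hf] at he
      have h1 : ψ (z + δ * ζ) - ψ z = ψ (z + δ * ω) - ψ z := by
        rwa [div_left_inj' hden] at he
      have h2 : z + δ * ζ = z + δ * ω := hinj (hmem ζ hζ) (hmem ω hω) (sub_left_injective h1)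
      have h3 : (δ:ℂ) * ζ = δ * ω := add_left_cancel h2
      exact mul_left_cancel₀ hδc h3)
    (by simp [hf])
    (fun ζ hζ => (hkd ζ hζ).differentiableAt.differentiableWithinAt)
    (by simp [hk])
    (by
      intro ζ hζ
      rw [(hfd ζ hζ).deriv]
      simp only [hk]
      rw [Complex.exp_sub, hexp _ (hmem ζ hζ), hexp z hz])
  rw [(hkd 0 (mem_ball_self one_pos)).deriv, mul_zero, add_zero, norm_mul, Complex.norm_real,
    Real.norm_of_nonneg hδ0.le] at key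
  linarith

theorem bloch_disc {ψ h : ℂ → ℂ}
    (hψ : DifferentiableOn ℂ ψ {z : ℂ | 1 < ‖z‖})
    (hinj : InjOn ψ {z : ℂ | 1 < ‖z‖})
    (hb : ∃ b : ℂ, Tendsto (fun z => ψ z - z) (Bornology.cobounded ℂ) (𝓝 b))
    (hh : DifferentiableOn ℂ h {z : ℂ | 1 < ‖z‖})
    (hexp : ∀ z : ℂ, 1 < ‖z‖ → Complex.exp (h z) = deriv ψ z)
    (hh0 : Tendsto h (Bornology.cobounded ℂ) (𝓝 0)) {ζ : ℂ} (hζ : ζ ∈ ball (0:ℂ) 1) :
    (1 - ‖ζ‖ ^ 2) * ‖deriv (toDisc 0 h) ζ‖ ≤ 28 := by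
  obtain ⟨hd, hg⟩ := goluzin_disc hψ hinj hb hh hexp hh0
  have hn : ‖ζ‖ < 1 := by simpa using hζ
  have hn0 := norm_nonneg ζ
  by_cases hc : ‖ζ‖ ≤ 1 / 2
  · -- Cauchy estimate
    have hsub : closedBall ζ (1/4) ⊆ ball (0:ℂ) 1 := by
      intro ω hω
      rw [mem_closedBall, dist_eq_norm] at hω
      rw [mem_ball, dist_zero_right]
      have : ‖ω‖ ≤ ‖ω - ζ‖ + ‖ζ‖ := by
        have := norm_add_le (ω - ζ) ζ
        simpa using this
      linarith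
    have hbd : ∀ ω ∈ sphere ζ (1/4), ‖toDisc 0 h ω‖ ≤ 1 := by
      intro ω hω
      have hω' := sphere_subset_closedBall hω
      refine (hg ω (hsub hω')).trans ?_
      rw [mem_closedBall, dist_eq_norm] at hω'
      have h1 : ‖ω‖ ≤ 3 / 4 := by
        have := norm_add_le (ω - ζ) ζ
        simp only [sub_add_cancel] at this
        linarith only [hc, hω', this]
      have h2 : 0 < 1 - ‖ω‖ ^ 2 := by nlinarith only [norm_nonneg ω, h1]
      have h3 : 1 / (1 - ‖ω‖ ^ 2) ≤ 16 / 7 := by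
        rw [div_le_div_iff₀ h2 (by norm_num)]
        nlinarith [norm_nonneg ω]
      calc Real.log (1 / (1 - ‖ω‖ ^ 2)) ≤ Real.log (16 / 7) := Real.log_le_log (by positivity) h3
        _ ≤ 1 := by
            rw [Real.log_le_iff_le_exp (by norm_num)]
            have := Real.exp_one_gt_d9
            linarith only [this]
    have hdc : DiffContOnCl ℂ (toDisc 0 h) (ball ζ (1/4)) := by
      apply DifferentiableOn.diffContOnCl
      apply hd.mono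
      rw [closure_ball ζ (by norm_num)]
      exact hsub
    have h4 := Complex.norm_deriv_le_of_forall_mem_sphere_norm_le (by norm_num) hdc hbd
    have h5 : 1 - ‖ζ‖ ^ 2 ≤ 1 := by nlinarith only []
    have h6 : (0:ℝ) ≤ 1 - ‖ζ‖ ^ 2 := by nlinarith only [hn, hn0]
    calc (1 - ‖ζ‖ ^ 2) * ‖deriv (toDisc 0 h) ζ‖ ≤ 1 * (1 / (1/4)) := by gcongr
      _ ≤ 28 := by norm_num
  · push Not at hc
    have hζ0 : ζ ≠ 0 := by
      rintro rfl
      simp at hc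
      linarith
    have hpos : 0 < ‖ζ‖ := by linarith
    have hm := inv_mem hζ hζ0
    have h1 : HasDerivAt (toDisc 0 h) (deriv h ζ⁻¹ * (-(ζ ^ 2)⁻¹)) ζ := by
      have h2 : HasDerivAt (fun ζ : ℂ => h ζ⁻¹) (deriv h ζ⁻¹ * (-(ζ ^ 2)⁻¹)) ζ :=
        ((hh.differentiableAt (isOpen_ext.mem_nhds hm)).hasDerivAt).comp ζ (hasDerivAt_inv hζ0)
      apply h2.congr_of_eventuallyEq
      filter_upwards [isOpen_ne.mem_nhds hζ0] with ω hω
      simp only [toDisc]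
      rw [if_neg hω]
    rw [h1.deriv, norm_mul, norm_neg, norm_inv, norm_pow]
    have h2 := preSchwarzian hψ hinj hh hexp hm
    rw [norm_inv] at h2
    set d : ℝ := ‖deriv h ζ⁻¹‖ with hdd
    have hd0 : 0 ≤ d := norm_nonneg _
    have h3 : (1 - ‖ζ‖) * d ≤ 28 / 3 * ‖ζ‖ := by
      have : (‖ζ‖⁻¹ - 1) * d * ‖ζ‖ ≤ 28 / 3 * ‖ζ‖ := mul_le_mul_of_nonneg_right h2 hpos.le
      have e : (‖ζ‖⁻¹ - 1) * d * ‖ζ‖ = (1 - ‖ζ‖) * d := by field_simp
      linarith only [this, e]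
    have e : (1 - ‖ζ‖ ^ 2) * (d * (‖ζ‖ ^ 2)⁻¹) = (1 + ‖ζ‖) * ((1 - ‖ζ‖) * d) / ‖ζ‖ ^ 2 := by
      field_simp
      ring
    rw [e, div_le_iff₀ (by positivity)]
    calc (1 + ‖ζ‖) * ((1 - ‖ζ‖) * d) ≤ (1 + ‖ζ‖) * (28 / 3 * ‖ζ‖) := by gcongr
      _ ≤ 28 * ‖ζ‖ ^ 2 := by nlinarith only [hc]

end Pool.Agent.M16.Helper39.Dim

end

section

set_option autoImplicit false

open MeasureTheory Set Metric Filter Topology

open scoped Real ComplexConjugate

namespace Pool.Agent.M16.Helper24.HR2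

open Pool.Agent.M16.Helper22.Half

open Pool.Agent.M16.Helper22.Marshall (coeff SepHol LogPhi dcoeff GLe)

open Pool.Agent.M16.Helper39.Area (Ext phi)

open Pool.Agent.M16.Helper39.MH

/-- the radial integral -/
theorem rad_pow {p : ℝ} (hp : -1 < p) :
    IntegrableOn (fun y : ℝ => y * (1 - y ^ 2) ^ p) (Ioc 0 1) ∧
      ∫ y in Ioc (0 : ℝ) 1, y * (1 - y ^ 2) ^ p = 1 / (2 * (p + 1)) := by
  have hp1 : 0 < p + 1 := by linarith
  have hcont : ContinuousOn (fun y : ℝ => -(1 - y ^ 2) ^ (p + 1) / (2 * (p + 1))) (Icc 0 1) := by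
    apply Continuous.continuousOn
    have h1 : Continuous (fun y : ℝ => (1 - y ^ 2 : ℝ) ^ (p + 1)) := by
      apply Continuous.rpow_const (by fun_prop)
      intro z
      right
      exact hp1.le
    exact h1.neg.div_const _
  have hd : ∀ r ∈ Ioo (0 : ℝ) 1,
      HasDerivAt (fun r : ℝ => -(1 - r ^ 2) ^ (p + 1) / (2 * (p + 1)))
        (r * (1 - r ^ 2) ^ p) r := by
    intro r hr
    have hne : (1 : ℝ) - r ^ 2 ≠ 0 := by
      have := hr.1
      have := hr.2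
      nlinarith
    have h1 : HasDerivAt (fun r : ℝ => 1 - r ^ 2) (-(2 * r)) r := by
      have := (hasDerivAt_pow 2 r).const_sub 1
      simpa using this
    have h2 : HasDerivAt (fun r : ℝ => -(1 - r ^ 2) ^ (p + 1) / (2 * (p + 1)))
        (-(-(2 * r) * (p + 1) * (1 - r ^ 2) ^ (p + 1 - 1)) / (2 * (p + 1))) r :=
      (h1.rpow_const (p := p + 1) (Or.inl hne)).neg.div_const (2 * (p + 1))
    refine h2.congr_deriv ?_
    rw [show p + 1 - 1 = p by ring]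
    field_simp
  have hpos : ∀ r ∈ Ioo (0 : ℝ) 1, 0 ≤ r * (1 - r ^ 2) ^ p := by
    intro r hr
    have h1 : 0 ≤ 1 - r ^ 2 := by
      have := hr.1
      have := hr.2
      nlinarith
    exact mul_nonneg hr.1.le (Real.rpow_nonneg h1 _)
  have hi := intervalIntegral.integrableOn_deriv_of_nonneg hcont hd hpos
  refine ⟨hi, ?_⟩
  have h := intervalIntegral.integral_eq_sub_of_hasDerivAt_of_le zero_le_one hcont hd
    ((intervalIntegrable_iff_integrableOn_Ioc_of_le zero_le_one).mpr hi)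
  rw [intervalIntegral.integral_of_le zero_le_one] at h
  rw [h, show (1 : ℝ) - 1 ^ 2 = 0 by norm_num, show (1 : ℝ) - 0 ^ 2 = 1 by norm_num,
    Real.zero_rpow hp1.ne', Real.one_rpow]
  field_simp
  ring

/-- the area integral of a power of `1 - |z|^2` -/
theorem disc_pow {p : ℝ} (hp : -1 < p) :
    IntegrableOn (fun z : ℂ => (1 - ‖z‖ ^ 2) ^ p) (ball (0 : ℂ) 1) ∧
      ∫ z in ball (0 : ℂ) 1, (1 - ‖z‖ ^ 2) ^ p = π / (p + 1) := by
  have hp1 : 0 < p + 1 := by linarith only [hp]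
  let f : ℝ → ℝ := (Iic (1 : ℝ)).indicator (fun y => (1 - y ^ 2) ^ p)
  have e : ∀ᵐ z : ℂ, f ‖z‖ = (ball (0 : ℂ) 1).indicator (fun z : ℂ => (1 - ‖z‖ ^ 2) ^ p) z := by
    have h0 : volume (sphere (0 : ℂ) 1) = 0 := Measure.addHaar_sphere volume 0 1
    have h1 : ∀ᵐ z : ℂ, z ∉ sphere (0 : ℂ) 1 := measure_eq_zero_iff_ae_notMem.mp h0
    filter_upwards [h1] with z hz
    have hz' : ‖z‖ ≠ 1 := by simpa using hz
    by_cases h : ‖z‖ < 1
    · rw [indicator_of_mem (by simpa using h)]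
      exact indicator_of_mem (mem_Iic.mpr h.le) _
    · rw [indicator_of_notMem (by simpa using h)]
      refine indicator_of_notMem ?_ _
      intro h2
      exact h (lt_of_le_of_ne h2 hz')
  have hfin : Module.finrank ℝ ℂ = 2 := Complex.finrank_real_complex
  have hr := rad_pow hp
  have hrw : (fun y : ℝ => y ^ (Module.finrank ℝ ℂ - 1) • f y)
      = (Iic (1 : ℝ)).indicator (fun y => y * (1 - y ^ 2) ^ p) := by
    funext y
    rw [hfin]
    by_cases h : y ∈ Iic (1 : ℝ)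
    · rw [indicator_of_mem h]
      simp only [f, indicator_of_mem h]
      simp
    · rw [indicator_of_notMem h]
      simp only [f, indicator_of_notMem h]
      simp
  have hset : Ioi (0 : ℝ) ∩ Iic 1 = Ioc 0 1 := Ioi_inter_Iic
  have hI : Integrable (fun z : ℂ => f ‖z‖) := by
    rw [integrable_fun_norm_addHaar, hrw, IntegrableOn, integrable_indicator_iff measurableSet_Iic,
      IntegrableOn, Measure.restrict_restrict measurableSet_Iic, inter_comm, hset]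
    exact hr.1
  have hI2 : Integrable ((ball (0 : ℂ) 1).indicator (fun z : ℂ => (1 - ‖z‖ ^ 2) ^ p)) :=
    hI.congr e
  refine ⟨(integrable_indicator_iff measurableSet_ball).mp hI2, ?_⟩
  rw [← integral_indicator measurableSet_ball, ← integral_congr_ae e,
    integral_fun_norm_addHaar, hrw, setIntegral_indicator measurableSet_Iic, hset, hr.2, hfin,
    measureReal_def, Complex.volume_ball]
  simp
  field_simp

theorem LS_int {s : ℂ} {H : ℂ → ℂ} {b : ℝ} (hH : ContinuousOn H (closedBall 0 1)) (hb : 0 < b)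
    {f : ℂ → ℝ} (hf : ContinuousOn f (closedBall 0 1)) :
    IntegrableOn (fun z => (1 - ‖z‖ ^ 2) ^ (b - 1) * ‖Complex.exp (s * H z)‖ ^ 2 * f z)
      (ball (0 : ℂ) 1) := by
  have hc : ContinuousOn (fun z => ‖Complex.exp (s * H z)‖ ^ 2 * f z) (closedBall (0 : ℂ) 1) :=
    ((continuousOn_const.mul hH).cexp.norm.pow 2).mul hf
  have h1 := (disc_pow (p := b - 1) (by linarith)).1
  obtain ⟨C, hC⟩ := (isCompact_closedBall (0 : ℂ) 1).exists_bound_of_continuousOn hc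
  have h2 : IntegrableOn (fun z : ℂ => (1 - ‖z‖ ^ 2) ^ (b - 1)
      * (‖Complex.exp (s * H z)‖ ^ 2 * f z)) (ball (0 : ℂ) 1) := by
    refine Integrable.mul_bdd (c := C) h1
      ((hc.mono ball_subset_closedBall).aestronglyMeasurable measurableSet_ball) ?_
    refine (ae_restrict_iff' measurableSet_ball).mpr (ae_of_all _ fun z hz => ?_)
    exact hC z (ball_subset_closedBall hz)
  refine h2.congr_fun (fun z _ => ?_) measurableSet_ball
  ring

theorem LS_add {s : ℂ} {H : ℂ → ℂ} {b : ℝ} (hH : ContinuousOn H (closedBall 0 1)) (hb : 0 < b)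
    {f g : ℂ → ℝ} (hf : ContinuousOn f (closedBall 0 1)) (hg : ContinuousOn g (closedBall 0 1)) :
    LS s H b (fun z => f z + g z) = LS s H b f + LS s H b g := by
  unfold LS
  rw [← mul_add, ← integral_add (LS_int hH hb hf) (LS_int hH hb hg)]
  congr 1
  apply integral_congr_ae
  filter_upwards with z
  ring

theorem LS_smul {s : ℂ} {H : ℂ → ℂ} {b : ℝ} (k : ℝ) (f : ℂ → ℝ) :
    LS s H b (fun z => k * f z) = k * LS s H b f := by
  have h : ∫ z in ball (0 : ℂ) 1,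
      (1 - ‖z‖ ^ 2) ^ (b - 1) * ‖Complex.exp (s * H z)‖ ^ 2 * (k * f z)
      = k * ∫ z in ball (0 : ℂ) 1,
        (1 - ‖z‖ ^ 2) ^ (b - 1) * ‖Complex.exp (s * H z)‖ ^ 2 * f z := by
    rw [← integral_const_mul]
    apply integral_congr_ae
    filter_upwards with z
    ring
  unfold LS
  rw [h]
  ring

theorem LS_mono {s : ℂ} {H : ℂ → ℂ} {b : ℝ} (hH : ContinuousOn H (closedBall 0 1)) (hb : 0 < b)
    {f g : ℂ → ℝ} (hf : ContinuousOn f (closedBall 0 1)) (hg : ContinuousOn g (closedBall 0 1))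
    (hfg : ∀ z ∈ ball (0 : ℂ) 1, f z ≤ g z) : LS s H b f ≤ LS s H b g := by
  unfold LS
  apply mul_le_mul_of_nonneg_left _ (by positivity)
  apply setIntegral_mono_on (LS_int hH hb hf) (LS_int hH hb hg) measurableSet_ball
  intro z hz
  have hz1 : ‖z‖ < 1 := by simpa using hz
  have h0 : 0 ≤ 1 - ‖z‖ ^ 2 := by nlinarith only [norm_nonneg z, hz1]
  have h1 : 0 ≤ (1 - ‖z‖ ^ 2) ^ (b - 1) := Real.rpow_nonneg h0 _
  exact mul_le_mul_of_nonneg_left (hfg z hz) (by positivity)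

theorem LS_congr {s : ℂ} {H : ℂ → ℂ} {b : ℝ} {f g : ℂ → ℝ}
    (hfg : ∀ z ∈ ball (0 : ℂ) 1, f z = g z) : LS s H b f = LS s H b g := by
  unfold LS
  congr 1
  apply setIntegral_congr_fun measurableSet_ball
  intro z hz
  simp only
  rw [hfg z hz]

theorem LS_nonneg {s : ℂ} {H : ℂ → ℂ} {b : ℝ} (hH : ContinuousOn H (closedBall 0 1))
    (hb : 0 < b) {f : ℂ → ℝ} (hf : ContinuousOn f (closedBall 0 1))
    (h0 : ∀ z ∈ ball (0 : ℂ) 1, 0 ≤ f z) : 0 ≤ LS s H b f := by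
  have h := LS_mono (s := s) (f := fun _ => (0 : ℝ)) hH hb continuousOn_const hf h0
  have h2 : LS s H b (fun _ => (0 : ℝ)) = 0 := by
    unfold LS
    simp
  rw [h2] at h
  exact h

theorem LS_list {s : ℂ} {H : ℂ → ℂ} {b : ℝ} {X : Type} (hH : ContinuousOn H (closedBall 0 1))
    (hb : 0 < b) (l : List X) (f : X → ℂ → ℝ)
    (hf : ∀ x ∈ l, ContinuousOn (f x) (closedBall 0 1)) :
    LS s H b (fun z => (l.map (fun x => f x z)).sum) = (l.map (fun x => LS s H b (f x))).sum ∧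
      ContinuousOn (fun z => (l.map (fun x => f x z)).sum) (closedBall 0 1) := by
  induction l with
  | nil =>
    refine ⟨?_, ?_⟩
    · unfold LS
      simp
    · simp only [List.map_nil, List.sum_nil]
      exact continuousOn_const
  | cons x l ih =>
    have ih' := ih (fun y hy => hf y (List.mem_cons_of_mem _ hy))
    have hx := hf x List.mem_cons_self
    refine ⟨?_, ?_⟩
    · simp only [List.map_cons, List.sum_cons]
      rw [LS_add hH hb hx ih'.2, ih'.1]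
    · simp only [List.map_cons, List.sum_cons]
      exact hx.add ih'.2

/-- the error terms are bounded, by Goluzin's inequality -/
theorem LS_err {ρ : ℝ} {β H : ℂ → ℂ} {Φ : ℂ → ℂ → ℂ} (h : Dat ρ β H Φ) {s : ℂ} {b : ℝ}
    (hb : 0 < b) (hs : 2 * ‖s‖ < b + 1) {M : ℝ} {f : ℂ → ℝ}
    (hf : ContinuousOn f (closedBall 0 1)) (hM : ∀ z ∈ ball (0 : ℂ) 1, |f z| ≤ M) :
    |LS s H b (fun z => (1 - ‖z‖ ^ 2) * f z)| ≤ M / (b + 1 - 2 * ‖s‖) := by
  have hM0 : 0 ≤ M := (abs_nonneg _).trans (hM 0 (mem_ball_self one_pos))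
  have hp := disc_pow (p := b - 2 * ‖s‖) (by linarith)
  have hb1 : 0 < b + 1 - 2 * ‖s‖ := by linarith only [hs]
  have hbd : ∀ z ∈ ball (0 : ℂ) 1,
      ‖(1 - ‖z‖ ^ 2) ^ (b - 1) * ‖Complex.exp (s * H z)‖ ^ 2 * ((1 - ‖z‖ ^ 2) * f z)‖
        ≤ M * (1 - ‖z‖ ^ 2) ^ (b - 2 * ‖s‖) := by
    intro z hz
    have hz1 : ‖z‖ < 1 := by simpa using hz
    have h0 : 0 < 1 - ‖z‖ ^ 2 := by nlinarith only [norm_nonneg z, hz1]
    have hg := h.gol z hz
    have e1 : ‖Complex.exp (s * H z)‖ ^ 2 ≤ (1 - ‖z‖ ^ 2) ^ (-(2 * ‖s‖)) := by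
      rw [Complex.norm_exp, ← Real.exp_nat_mul, Real.rpow_def_of_pos h0]
      apply Real.exp_le_exp.mpr
      have e2 : (s * H z).re ≤ ‖s‖ * ‖H z‖ := (Complex.re_le_norm _).trans (norm_mul_le _ _)
      have e3 : ‖s‖ * ‖H z‖ ≤ ‖s‖ * Real.log (1 / (1 - ‖z‖ ^ 2)) :=
        mul_le_mul_of_nonneg_left hg (norm_nonneg _)
      rw [one_div, Real.log_inv] at e3
      push_cast
      linarith only [e2, e3]
    have e4 : (1 - ‖z‖ ^ 2) ^ (b - 1) * (1 - ‖z‖ ^ 2) = (1 - ‖z‖ ^ 2) ^ b := by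
      rw [Real.rpow_sub_one h0.ne']
      field_simp
    rw [norm_mul, norm_mul, norm_mul, Real.norm_of_nonneg (Real.rpow_nonneg h0.le _),
      Real.norm_of_nonneg (by positivity), Real.norm_of_nonneg h0.le, Real.norm_eq_abs]
    calc (1 - ‖z‖ ^ 2) ^ (b - 1) * ‖Complex.exp (s * H z)‖ ^ 2 * ((1 - ‖z‖ ^ 2) * |f z|)
        = (1 - ‖z‖ ^ 2) ^ (b - 1) * (1 - ‖z‖ ^ 2) * ‖Complex.exp (s * H z)‖ ^ 2 * |f z| := by
          ring
      _ = (1 - ‖z‖ ^ 2) ^ b * ‖Complex.exp (s * H z)‖ ^ 2 * |f z| := by rw [e4]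
      _ ≤ (1 - ‖z‖ ^ 2) ^ b * (1 - ‖z‖ ^ 2) ^ (-(2 * ‖s‖)) * M := by
          apply mul_le_mul (mul_le_mul_of_nonneg_left e1 (Real.rpow_nonneg h0.le _)) (hM z hz)
            (abs_nonneg _)
          exact mul_nonneg (Real.rpow_nonneg h0.le _) (Real.rpow_nonneg h0.le _)
      _ = M * (1 - ‖z‖ ^ 2) ^ (b - 2 * ‖s‖) := by
          rw [← Real.rpow_add h0, mul_comm,
            show b + -(2 * ‖s‖) = b - 2 * ‖s‖ by ring]
  have h1 := norm_integral_le_of_norm_le (μ := volume.restrict (ball (0 : ℂ) 1))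
    (f := fun z => (1 - ‖z‖ ^ 2) ^ (b - 1) * ‖Complex.exp (s * H z)‖ ^ 2
      * ((1 - ‖z‖ ^ 2) * f z))
    (g := fun z => M * (1 - ‖z‖ ^ 2) ^ (b - 2 * ‖s‖)) (hp.1.const_mul M)
    ((ae_restrict_iff' measurableSet_ball).mpr (ae_of_all _ hbd))
  rw [integral_const_mul, hp.2] at h1
  unfold LS
  rw [abs_mul, abs_of_nonneg (by positivity : (0 : ℝ) ≤ 1 / π), ← Real.norm_eq_abs]
  calc 1 / π * ‖∫ z in ball (0 : ℂ) 1, (1 - ‖z‖ ^ 2) ^ (b - 1) * ‖Complex.exp (s * H z)‖ ^ 2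
        * ((1 - ‖z‖ ^ 2) * f z)‖ ≤ 1 / π * (M * (π / (b - 2 * ‖s‖ + 1))) :=
        mul_le_mul_of_nonneg_left h1 (by positivity)
    _ = M / (b + 1 - 2 * ‖s‖) := by
        have hpi := Real.pi_pos
        rw [show b - 2 * ‖s‖ + 1 = b + 1 - 2 * ‖s‖ by ring]
        field_simp

end Pool.Agent.M16.Helper24.HR2

end

section

set_option autoImplicit false

set_option maxRecDepth 100000

namespace Pool.Agent.M16.Helper98.HR2

open Pool.Agent.M16.Helper54.HR2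

open Pool.Agent.M16.Helper12.HR2 (Mo GZ Par)

end Pool.Agent.M16.Helper98.HR2

end

end

section

namespace Pool.Agent.M16.Helper39.MH
end Pool.Agent.M16.Helper39.MH
namespace Pool.Agent.M16.Helper24.HR2
end Pool.Agent.M16.Helper24.HR2
namespace Pool.Agent.M16.Helper54.HR2
end Pool.Agent.M16.Helper54.HR2
namespace Pool.Agent.M16.Helper12.HR2
end Pool.Agent.M16.Helper12.HR2

section

set_option autoImplicit false

namespace Pool.Agent.M16.Helper12.HR2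

/-- the square of the distance to the origin of the point `(X, Y) / N`, minus 1 -/
noncomputable def nrm2 (X Y : ℤ) : ℤ := Int.add (Int.mul X X) (Int.mul Y Y)

theorem nrm2_eq (X Y : ℤ) : nrm2 X Y = X * X + Y * Y := rfl

end Pool.Agent.M16.Helper12.HR2

end

section

set_option autoImplicit false

set_option linter.defProp false

namespace Pool.Agent.M16.Helper12.HR2.B

end Pool.Agent.M16.Helper12.HR2.B

end

section

set_option autoImplicit false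

open scoped ComplexConjugate

namespace Pool.Agent.M16.Helper12.HR2

open Pool.Agent.M16.Helper39.MH (ev wt dval Dv DGs)

open Pool.Agent.M16.Helper24.HR2 (relS XS poch)

theorem dvl_eq (c : ℕ → ℂ) (n : ℕ) : dvl c n = dval c n := rfl

theorem Dvl_eq (c : ℕ → ℂ) (A : List ℕ) : Dvl c A = Dv c A := by
  induction A with
  | nil => rfl
  | cons a A ih =>
    change dvl c a * (A.map c).prod + c a * Dvl c A = dval c a * ev c A + c a * Dv c A
    rw [ih, dvl_eq]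
    rfl

/-- the relations are those of the project -/
theorem rel_eq (s : ℂ) (b : ℝ) (c : ℕ → ℂ) (P : Pol) :
    rel s (b : ℂ) c P = (P.map (fun t => gv t.2 * relS s b c t.1.1 t.1.2)).sum := by
  unfold rel
  congr 1
  apply List.map_congr_left
  intro t _
  unfold relS DGs
  rw [← Dvl_eq]
  have h1 : ((b + wt t.1.1 + wt t.1.2 : ℝ) : ℂ) = (b : ℂ) + wl t.1.1 + wl t.1.2 := by
    push_cast
    rfl
  rw [h1]
  have h2 : ev c t.1.1 = (t.1.1.map c).prod := rfl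
  have h3 : ev c t.1.2 = (t.1.2.map c).prod := rfl
  rw [h2, h3]
  ring

/-- the Gaussian integer matrix of the area form -/
abbrev M3 := ℕ → ℕ → GZ

/-- the scaled moments as polynomials -/
def XP (P : Par) : ℕ → Pol
  | 0 => [(([], []), (1, 0))]
  | 1 => [(([0, 0], []), (P.p, P.q)), (([1], []), (-P.p, -P.q))]
  | 2 =>
    let S2 : GZ := gmul (P.p, P.q) (P.p, P.q)
    let T : GZ := ((P.sr : ℤ) * P.p, (P.sr : ℤ) * P.q)
    [(([0, 0, 0, 0], []), (3 * (S2.1 + T.1), 3 * (S2.2 + T.2))),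
     (([0, 0, 1], []), (3 * (-2 * S2.1 - 4 * T.1), 3 * (-2 * S2.2 - 4 * T.2))),
     (([1, 1], []), (3 * (S2.1 + T.1), 3 * (S2.2 + T.2))),
     (([3], []), (-6 * T.1, -6 * T.2)),
     (([0, 2], []), (12 * T.1, 12 * T.2))]
  | _ => []

/-- the normalisation of the moments -/
noncomputable def xsc (P : Par) : ℕ → ℝ
  | 0 => 1
  | 1 => 1 / (2 * P.sr)
  | 2 => 1 / (4 * P.sr ^ 2)
  | _ => 0

theorem pv_XP (P : Par) (hs : P.sr ≠ 0) (c ψ : ℕ → ℂ) {r : ℕ} (hr : r < 3) :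
    XS (((P.p : ℂ) + P.q * Complex.I) / P.sr) c r = xsc P r * pv c ψ (XP P r) := by
  have hs' : (P.sr : ℂ) ≠ 0 := by exact_mod_cast hs
  have hI : Complex.I ^ 2 = -1 := Complex.I_sq
  interval_cases r
  · simp [XS, xsc, XP, pv_cons, pv_nil, mv, gv]
  · simp only [XS, xsc, XP, pv_cons, pv_nil, mv, gv, List.map_cons, List.map_nil, List.prod_cons,
      List.prod_nil]
    push_cast
    field_simp
    ring
  · simp only [XS, xsc, XP, pv_cons, pv_nil, mv, gv, gmul, List.map_cons, List.map_nil,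
      List.prod_cons, List.prod_nil]
    push_cast
    field_simp
    ring_nf
    simp only [hI]
    ring

theorem pv_flatMap {α : Type} (φ ψ : ℕ → ℂ) (l : List α) (f : α → Pol) :
    pv φ ψ (l.flatMap f) = (l.map (fun x => pv φ ψ (f x))).sum := by
  induction l with
  | nil => rfl
  | cons x l ih =>
    rw [List.flatMap_cons, pv_append, ih, List.map_cons, List.sum_cons]

theorem sum_range_list (n : ℕ) (f : ℕ → ℂ) :
    ((List.range n).map f).sum = ∑ i ∈ Finset.range n, f i := by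
  induction n with
  | zero => simp
  | succ n ih => rw [List.range_succ, List.map_append, List.sum_append, ih, Finset.sum_range_succ]; simp

end Pool.Agent.M16.Helper12.HR2

end

section

set_option autoImplicit false

open scoped ComplexConjugate

namespace Pool.Agent.M16.Helper24.HR2

namespace SmallCert

end SmallCert

end Pool.Agent.M16.Helper24.HR2

end

section

set_option autoImplicit false

set_option maxRecDepth 100000

namespace Pool.Agent.M16.Helper98.HR2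

open Pool.Agent.M16.Helper54.HR2

open Pool.Agent.M16.Helper12.HR2 (Mo GZ Par)

end Pool.Agent.M16.Helper98.HR2

end

end

section

namespace Pool.Agent.M16.Helper22.Half
end Pool.Agent.M16.Helper22.Half
namespace Pool.Agent.M16.Helper22.Marshall
end Pool.Agent.M16.Helper22.Marshall
namespace Pool.Agent.M16.Helper39.Area
end Pool.Agent.M16.Helper39.Area
namespace Pool.Agent.M16.Helper39.MH
end Pool.Agent.M16.Helper39.MH

section

set_option autoImplicit false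

open MeasureTheory Set Metric Filter Topology

open scoped Real ComplexConjugate

namespace Pool.Agent.M16.Helper24.HR2

open Pool.Agent.M16.Helper22.Half

open Pool.Agent.M16.Helper22.Marshall (coeff SepHol LogPhi dcoeff GLe)

open Pool.Agent.M16.Helper39.Area (Ext phi)

open Pool.Agent.M16.Helper39.MH

noncomputable def alm (s : ℂ) (b : ℝ) (m : ℕ) (x : ℝ) : ℝ :=
  aD s b m ⌊(m : ℝ) * x⌋₊ / (m : ℝ) ^ (b + 1)

noncomputable def bem (s : ℂ) (b : ℝ) (m : ℕ) (y : ℝ) : ℝ :=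
  bD s b m ⌊(m : ℝ) * y⌋₊ * (m : ℝ) ^ (b + 1)

theorem re_bounds {s : ℂ} (hs : ‖s‖ < 1) : -1 < s.re ∧ s.re < 1 :=
  abs_lt.mp ((Complex.abs_re_le_norm s).trans_lt hs)

theorem one_add_ne {s : ℂ} (hs : ‖s‖ < 1) : 1 + s ≠ 0 := by
  intro h
  have h1 : s = -1 := by linear_combination h
  rw [h1, norm_neg, norm_one] at hs
  exact lt_irrefl _ hs

theorem tendsto_floor {x : ℝ} (hx : 0 ≤ x) :
    Tendsto (fun m : ℕ => ((⌊(m : ℝ) * x⌋₊ : ℝ)) / m) atTop (𝓝 x) := by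
  have h := (tendsto_nat_floor_mul_div_atTop hx).comp
    (tendsto_natCast_atTop_atTop (R := ℝ))
  refine h.congr fun m => ?_
  simp only [Function.comp_apply]
  rw [mul_comm]

theorem tendsto_floor_one {x : ℝ} (hx : 0 ≤ x) :
    Tendsto (fun m : ℕ => ((⌊(m : ℝ) * x⌋₊ : ℝ) + 1) / m) atTop (𝓝 x) := by
  have h := (tendsto_floor hx).add (tendsto_one_div_atTop_nhds_zero_nat (𝕜 := ℝ))
  rw [add_zero] at h
  refine h.congr fun m => ?_
  rw [add_div]

theorem floor_lt_m {m : ℕ} (hm : 1 ≤ m) {x : ℝ} (hx : x ∈ Ioo (0 : ℝ) 1) :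
    ⌊(m : ℝ) * x⌋₊ < m := by
  have hm0 : (0 : ℝ) < m := by exact_mod_cast hm
  rw [Nat.floor_lt' (by omega)]
  nlinarith only [hx.2, hm0]

theorem cast_sub_floor {m : ℕ} (hm : 1 ≤ m) {x : ℝ} (hx : x ∈ Ioo (0 : ℝ) 1) :
    ((m - 1 - ⌊(m : ℝ) * x⌋₊ : ℕ) : ℝ) + 1 = m - (⌊(m : ℝ) * x⌋₊ : ℝ) := by
  have h := floor_lt_m hm hx
  have h1 : m - 1 - ⌊(m : ℝ) * x⌋₊ + 1 = m - ⌊(m : ℝ) * x⌋₊ := by omega
  have h2 : ((m - 1 - ⌊(m : ℝ) * x⌋₊ + 1 : ℕ) : ℝ) = ((m - ⌊(m : ℝ) * x⌋₊ : ℕ) : ℝ) := by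
    rw [h1]
  rw [Nat.cast_sub h.le] at h2
  push_cast at h2
  exact h2

theorem tendsto_co_floor {x : ℝ} (hx : x ∈ Ioo (0 : ℝ) 1) :
    Tendsto (fun m : ℕ => (((m - 1 - ⌊(m : ℝ) * x⌋₊ : ℕ) : ℝ) + 1) / m) atTop (𝓝 (1 - x)) := by
  have h := (tendsto_const_nhds (x := (1 : ℝ))).sub (tendsto_floor hx.1.le)
  refine h.congr' ?_
  filter_upwards [eventually_ge_atTop 1] with m hm
  have hm0 : (m : ℝ) ≠ 0 := by
    have : m ≠ 0 := by omega
    exact_mod_cast this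
  rw [cast_sub_floor hm hx, sub_div, div_self hm0]

theorem floor_mul_le {m : ℕ} {x : ℝ} (hx : 0 ≤ x) : (⌊(m : ℝ) * x⌋₊ : ℝ) ≤ m * x :=
  Nat.floor_le (by positivity)

theorem lt_floor_mul {m : ℕ} {x : ℝ} : (m : ℝ) * x < (⌊(m : ℝ) * x⌋₊ : ℝ) + 1 :=
  Nat.lt_floor_add_one _

theorem kt_id {A B N P : ℝ} (hA : A ≠ 0) (hB : B ≠ 0) (X a : ℝ) :
    a * X / (N * P) = N⁻¹ * (X * A⁻¹ * (P⁻¹ * (a * B)) * (A / B)) := by
  have e : N⁻¹ * (X * A⁻¹ * (P⁻¹ * (a * B)) * (A / B)) = a * X * (N⁻¹ * P⁻¹) * (A⁻¹ * A) * (B * B⁻¹) := by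
    rw [div_eq_mul_inv A B]
    ring
  rw [e, inv_mul_cancel₀ hA, mul_inv_cancel₀ hB, mul_one, mul_one, ← mul_inv, div_eq_mul_inv]

theorem bt_id {m : ℝ} (hm : m ≠ 0) (N F X Y M : ℝ) :
    N * (F / m * X * Y * (m * M)) = F * (N * X) * Y * M := by
  have e : N * (F / m * X * Y * (m * M)) = N * ((F / m * m) * X * Y * M) := by ring
  rw [e, div_mul_cancel₀ F hm]
  ring

theorem fac1 {k K p P q Q M : ℝ} (hk : k ≤ K) (hp : p ≤ P) (hq : q ≤ Q) (k0 : 0 ≤ k) (p0 : 0 ≤ p)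
    (q0 : 0 ≤ q) (M0 : 0 ≤ M) : k * p * q / M ≤ K * P * Q / M :=
  div_le_div_of_nonneg_right (mul_le_mul (mul_le_mul hk hp p0 (k0.trans hk)) hq q0
    (mul_nonneg (k0.trans hk) (p0.trans hp))) M0

theorem fac_id (K C1 A C2 B M1 M2 : ℝ) :
    K * (C1 * A) * (C2 * B) / (M1 * M2) = K * C1 * C2 * ((A / M1) * (B / M2)) := by
  rw [div_mul_div_comm, ← mul_div_assoc]
  congr 1
  ring

theorem fac2 {F N X XX Y YY M : ℝ} (hX : X ≤ XX) (hY : Y ≤ YY) (F0 : 0 ≤ F) (N0 : 0 ≤ N)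
    (X0 : 0 ≤ X) (Y0 : 0 ≤ Y) (M0 : 0 ≤ M) :
    F * (N * X ^ 2) * Y * M ≤ F * (N * XX ^ 2) * YY * M :=
  mul_le_mul_of_nonneg_right (mul_le_mul (mul_le_mul_of_nonneg_left (mul_le_mul_of_nonneg_left
    (pow_le_pow_left₀ X0 hX 2) N0) F0) hY Y0 (mul_nonneg F0 (mul_nonneg N0 (sq_nonneg _)))) M0

theorem kap_tendsto {s : ℂ} (hs : ‖s‖ < 1) : Tendsto (kap s.re (‖s‖ ^ 2)) atTop
    (𝓝 (Real.Gamma (2 + 2 * s.re) / ‖Complex.Gamma (s + 2)‖ ^ 2)) := by
  obtain ⟨hr1, hr2⟩ := re_bounds hs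
  have h1s := one_add_ne hs
  have hz : ∀ m : ℕ, 1 + s ≠ -m := by
    intro m h
    have h1 := congrArg Complex.re h
    simp only [Complex.add_re, Complex.one_re, Complex.neg_re, Complex.natCast_re] at h1
    have : (0 : ℝ) ≤ m := Nat.cast_nonneg m
    linarith only [h1, this, hr1]
  have t1 : Tendsto (fun n : ℕ => ‖pq (1 + s) (n + 1)‖ * (((n + 1 : ℕ) : ℝ) + 1) ^ (-s.re)) atTop
      (𝓝 ‖Complex.Gamma (1 + s)‖⁻¹) := by
    have h := (tendsto_norm_pq hz).comp (tendsto_add_atTop_nat 1)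
    refine h.congr fun n => ?_
    simp only [Function.comp_apply, Complex.add_re, Complex.one_re]
    congr 2
    ring
  have t2 := tendsto_pq_real_inv (z := 2 + 2 * s.re) (by linarith only [hr1])
  have t3 := (tendsto_shift_pow (2 * s.re)).comp (tendsto_add_atTop_nat 1)
  have t4 := (((t1.pow 2).mul t2).mul t3).const_mul ((‖1 + s‖ ^ 2)⁻¹)
  have hG : ‖Complex.Gamma (s + 2)‖ = ‖1 + s‖ * ‖Complex.Gamma (1 + s)‖ := by
    have e : s + 2 = (1 + s) + 1 := by ring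
    rw [e, Complex.Gamma_add_one _ h1s, norm_mul]
  have hn1 : ‖1 + s‖ ≠ 0 := norm_ne_zero_iff.mpr h1s
  have hlim : (‖1 + s‖ ^ 2)⁻¹ * (‖Complex.Gamma (1 + s)‖⁻¹ ^ 2 * Real.Gamma (2 + 2 * s.re) * 1)
      = Real.Gamma (2 + 2 * s.re) / ‖Complex.Gamma (s + 2)‖ ^ 2 := by
    rw [hG, mul_pow, inv_pow, mul_one, div_eq_mul_inv, mul_inv]
    ring
  rw [hlim] at t4
  refine t4.congr fun n => ?_
  simp only [Function.comp_apply]
  have hq := norm_Q s hr1 n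
  have hp := pq_pos (by linarith only [hr1] : 0 < 2 + 2 * s.re) n
  have a1 : (0 : ℝ) < (n : ℝ) + 1 := by positivity
  have a2 : (0 : ℝ) < (n : ℝ) + 1 + 1 := by positivity
  push_cast
  rw [mul_pow]
  have e1 : (((n : ℝ) + 1 + 1) ^ (-s.re)) ^ 2 = (((n : ℝ) + 1 + 1) ^ (2 * s.re))⁻¹ := by
    rw [← Real.rpow_natCast, ← Real.rpow_mul a2.le, ← Real.rpow_neg a2.le]
    congr 1
    push_cast
    ring
  have e2 : ((n : ℝ) + 1) ^ (2 + 2 * s.re - 1) = ((n : ℝ) + 1) * ((n : ℝ) + 1) ^ (2 * s.re) := by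
    have : 2 + 2 * s.re - 1 = 1 + 2 * s.re := by ring
    rw [this, Real.rpow_add a1, Real.rpow_one]
  have e3 : (((n : ℝ) + 1 + 1) / ((n : ℝ) + 1)) ^ (2 * s.re)
      = ((n : ℝ) + 1 + 1) ^ (2 * s.re) / ((n : ℝ) + 1) ^ (2 * s.re) := Real.div_rpow a2.le a1.le _
  rw [e1, e2, e3]
  have b1 : ((n : ℝ) + 1) ^ (2 * s.re) ≠ 0 := (Real.rpow_pos_of_pos a1 _).ne'
  have b2 : ((n : ℝ) + 1 + 1) ^ (2 * s.re) ≠ 0 := (Real.rpow_pos_of_pos a2 _).ne'
  have c1 : kap s.re (‖s‖ ^ 2) n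
      = (((n : ℝ) + 1) * ‖pq (1 + s) (n + 1)‖ ^ 2) / (‖1 + s‖ ^ 2 * pq (2 + 2 * s.re) n) := by
    rw [hq, eq_div_iff (mul_ne_zero (pow_ne_zero 2 hn1) hp.ne')]
    ring
  rw [c1]
  exact (kt_id b2 b1 _ _).symm

theorem KS_eq {s : ℂ} (hs : ‖s‖ < 1) :
    KS s = Real.Gamma (2 + 2 * s.re) / ‖Complex.Gamma (s + 2)‖ ^ 2 := by
  have h := kap_tendsto hs
  have hm : Monotone (kap s.re (‖s‖ ^ 2)) := fun a c hac =>
    kap_mono (re_bounds hs).1 (sq_nonneg _) hac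
  exact tendsto_nhds_unique (tendsto_atTop_ciSup hm h.bddAbove_range) h

theorem KS_pos {s : ℂ} (hs : ‖s‖ < 1) : 0 < KS s := by
  have h1 := kap_ge_one (re_bounds hs).1 (sq_nonneg ‖s‖) 0
  have h2 : kap s.re (‖s‖ ^ 2) 0 ≤ KS s := le_ciSup (kap_tendsto hs).bddAbove_range 0
  linarith only [h1, h2]

theorem kap_le_KS {s : ℂ} (hs : ‖s‖ < 1) (n : ℕ) : kap s.re (‖s‖ ^ 2) n ≤ KS s :=
  le_ciSup (kap_tendsto hs).bddAbove_range n

theorem kap_tendsto_KS {s : ℂ} (hs : ‖s‖ < 1) :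
    Tendsto (kap s.re (‖s‖ ^ 2)) atTop (𝓝 (KS s)) := by
  rw [KS_eq hs]
  exact kap_tendsto hs

theorem B0_eq {s : ℂ} (hs : ‖s‖ < 1) {b : ℝ} (hσ : 0 < b + 1 - 2 * s.re) :
    B0 s b = Real.Gamma (2 + 2 * s.re) * Real.Gamma (b + 1 - 2 * s.re) / Real.Gamma (b + 3) := by
  obtain ⟨hr1, hr2⟩ := re_bounds hs
  have hv : 0 < 2 + 2 * s.re := by linarith only [hr1]
  have h := ProbabilityTheory.beta_eq_betaIntegralReal (b + 1 - 2 * s.re) (2 + 2 * s.re) hσ hv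
  have h1 : ProbabilityTheory.beta (b + 1 - 2 * s.re) (2 + 2 * s.re)
      = Real.Gamma (2 + 2 * s.re) * Real.Gamma (b + 1 - 2 * s.re) / Real.Gamma (b + 3) := by
    unfold ProbabilityTheory.beta
    rw [mul_comm (Real.Gamma (b + 1 - 2 * s.re))]
    congr 2
    ring
  rw [← h1, h, B0, Complex.betaIntegral, intervalIntegral.integral_of_le (by norm_num),
    integral_Ioc_eq_integral_Ioo, ← RCLike.re_to_complex, ← integral_re]
  · refine setIntegral_congr_fun measurableSet_Ioo fun x hx => ?_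
    have hx0 : 0 ≤ x := hx.1.le
    have hx1 : 0 ≤ 1 - x := by linarith only [hx.2]
    have e1 : ((x : ℂ)) ^ (((b + 1 - 2 * s.re : ℝ) : ℂ) - 1) = ((x ^ (b - 2 * s.re) : ℝ) : ℂ) := by
      rw [Complex.ofReal_cpow hx0]
      congr 1
      push_cast
      ring
    have e2 : (1 - (x : ℂ)) ^ (((2 + 2 * s.re : ℝ) : ℂ) - 1)
        = (((1 - x) ^ (2 * s.re + 1) : ℝ) : ℂ) := by
      rw [Complex.ofReal_cpow hx1]
      push_cast
      congr 1
      ring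
    simp only [alp]
    rw [e1, e2, ← Complex.ofReal_mul, RCLike.re_to_complex, Complex.ofReal_re]
    ring
  · have := Complex.betaIntegral_convergent (u := ((b + 1 - 2 * s.re : ℝ) : ℂ))
      (v := ((2 + 2 * s.re : ℝ) : ℂ)) (by simpa using hσ) (by simpa using hv)
    rw [intervalIntegrable_iff_integrableOn_Ioo_of_le (by norm_num)] at this
    exact this

theorem neg_ne_nat {s : ℂ} (hs0 : s ≠ 0) (hs : ‖s‖ < 1) (m : ℕ) : -s ≠ -(m : ℂ) := by
  intro h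
  have h1 : s = m := neg_injective h
  rcases Nat.eq_zero_or_pos m with h2 | h2
  · apply hs0
    rw [h1, h2, Nat.cast_zero]
  · rw [h1, Complex.norm_natCast] at hs
    have : (1 : ℝ) ≤ m := by exact_mod_cast h2
    linarith only [hs, this]

theorem alm_tendsto {s : ℂ} (hs : ‖s‖ < 1) {b : ℝ} (hσ : 0 < b + 1 - 2 * s.re) {x : ℝ}
    (hx : x ∈ Ioo (0 : ℝ) 1) : Tendsto (fun m : ℕ => alm s b m x) atTop
      (𝓝 (KS s * (Real.Gamma (2 + 2 * s.re))⁻¹ * (Real.Gamma (b + 1 - 2 * s.re))⁻¹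
        * alp s b x)) := by
  obtain ⟨hr1, hr2⟩ := re_bounds hs
  have hx1 : 0 < 1 - x := by linarith [hx.2]
  have k1 := tendsto_co_floor hx
  have k2 := tendsto_floor_one hx.1.le
  have t1 := (kap_tendsto_KS hs).comp (tendsto_of_scaled_atTop hx1 k1)
  have t2 := tendsto_scaled hx1 (tendsto_pq_real (z := 2 + 2 * s.re) (by linarith only [hr1])) k1
  have t3 := tendsto_scaled hx.1 (tendsto_pq_real hσ) k2
  have t4 := (t1.mul t2).mul t3
  have hlim : KS s * ((Real.Gamma (2 + 2 * s.re))⁻¹ * (1 - x) ^ (-(1 - (2 + 2 * s.re))))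
      * ((Real.Gamma (b + 1 - 2 * s.re))⁻¹ * x ^ (-(1 - (b + 1 - 2 * s.re))))
      = KS s * (Real.Gamma (2 + 2 * s.re))⁻¹ * (Real.Gamma (b + 1 - 2 * s.re))⁻¹
        * alp s b x := by
    have e1 : -(1 - (2 + 2 * s.re)) = 2 * s.re + 1 := by ring
    have e2 : -(1 - (b + 1 - 2 * s.re)) = b - 2 * s.re := by ring
    rw [e1, e2, alp]
    ring
  rw [hlim] at t4
  refine t4.congr' ?_
  filter_upwards [eventually_gt_atTop 0] with m hm
  have hm0 : (0 : ℝ) < m := by exact_mod_cast hm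
  simp only [Function.comp_apply, alm, aD]
  have e3 : (m : ℝ) ^ (1 - (2 + 2 * s.re)) * (m : ℝ) ^ (1 - (b + 1 - 2 * s.re))
      = ((m : ℝ) ^ (b + 1))⁻¹ := by
    rw [← Real.rpow_add hm0, ← Real.rpow_neg hm0.le]
    congr 1
    ring
  rw [div_eq_mul_inv, ← e3]
  ring

theorem bem_tendsto {s : ℂ} (hs0 : s ≠ 0) (hs : ‖s‖ < 1) {b : ℝ} (hσ : 0 < b + 1 - 2 * s.re)
    {y : ℝ} (hy : 0 < y) : Tendsto (fun m : ℕ => bem s b m y) atTop
      (𝓝 (‖1 + s‖ ^ 2 * (‖Complex.Gamma (-s)‖⁻¹) ^ 2 * Real.Gamma (b + 1 - 2 * s.re)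
        * bet b y)) := by
  have hy1 : 0 < 1 + y := by linarith only [hy]
  have k1 := tendsto_floor_one hy.le
  have k2 : Tendsto (fun m : ℕ => (((m + 1 + ⌊(m : ℝ) * y⌋₊ : ℕ) : ℝ) + 1) / m) atTop
      (𝓝 (1 + y)) := by
    have h := ((tendsto_const_nhds (x := (1 : ℝ))).add
      (tendsto_one_div_atTop_nhds_zero_nat (𝕜 := ℝ))).add k1
    rw [add_zero] at h
    refine h.congr' ?_
    filter_upwards [eventually_gt_atTop 0] with m hm
    have hm0 : (m : ℝ) ≠ 0 := by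
      have : m ≠ 0 := by omega
      exact_mod_cast this
    push_cast
    field_simp
    ring
  have t1 := tendsto_scaled hy1 (tendsto_norm_pq (neg_ne_nat hs0 hs)) k2
  have t2 := tendsto_scaled (p := (b + 1 - 2 * s.re) - 1) hy1 (tendsto_pq_real_inv hσ) k2
  have t3 := ((k1.mul (t1.pow 2)).mul t2).const_mul (‖1 + s‖ ^ 2)
  have hlim : ‖1 + s‖ ^ 2 * (y * (‖Complex.Gamma (-s)‖⁻¹ * (1 + y) ^ (-(1 - (-s).re))) ^ 2
      * (Real.Gamma (b + 1 - 2 * s.re) * (1 + y) ^ (-(b + 1 - 2 * s.re - 1))))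
      = ‖1 + s‖ ^ 2 * (‖Complex.Gamma (-s)‖⁻¹) ^ 2 * Real.Gamma (b + 1 - 2 * s.re)
        * bet b y := by
    have e1 : ((1 + y) ^ (-(1 - (-s).re))) ^ 2 * (1 + y) ^ (-(b + 1 - 2 * s.re - 1))
        = (1 + y) ^ (-b - 2) := by
      rw [← Real.rpow_natCast, ← Real.rpow_mul hy1.le, ← Real.rpow_add hy1]
      congr 1
      rw [Complex.neg_re]
      push_cast
      ring
    rw [bet, ← e1]
    ring
  rw [hlim] at t3
  refine t3.congr' ?_
  filter_upwards [eventually_gt_atTop 0] with m hm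
  have hm0 : (0 : ℝ) < m := by exact_mod_cast hm
  simp only [bem, bD]
  have e3 : ((m : ℝ) ^ (1 - (-s).re)) ^ 2 * (m : ℝ) ^ (b + 1 - 2 * s.re - 1)
      = (m : ℝ) * (m : ℝ) ^ (b + 1) := by
    have e4 : (m : ℝ) * (m : ℝ) ^ (b + 1) = (m : ℝ) ^ ((1 : ℝ) + (b + 1)) := by
      rw [Real.rpow_add hm0 1 (b + 1), Real.rpow_one]
    rw [e4, ← Real.rpow_natCast, ← Real.rpow_mul hm0.le, ← Real.rpow_add hm0]
    congr 1
    rw [Complex.neg_re]
    push_cast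
    ring
  rw [norm_mul, mul_pow, mul_pow]
  have e5 : ‖1 + s‖ ^ 2 * (((⌊(m : ℝ) * y⌋₊ : ℝ) + 1) / m
      * (‖pq (-s) (m + 1 + ⌊(m : ℝ) * y⌋₊)‖ ^ 2 * ((m : ℝ) ^ (1 - (-s).re)) ^ 2)
      * ((pq (b + 1 - 2 * s.re) (m + 1 + ⌊(m : ℝ) * y⌋₊))⁻¹ * (m : ℝ) ^ (b + 1 - 2 * s.re - 1)))
      = ‖1 + s‖ ^ 2 * (((⌊(m : ℝ) * y⌋₊ : ℝ) + 1) / m
      * ‖pq (-s) (m + 1 + ⌊(m : ℝ) * y⌋₊)‖ ^ 2
      * (pq (b + 1 - 2 * s.re) (m + 1 + ⌊(m : ℝ) * y⌋₊))⁻¹
      * (((m : ℝ) ^ (1 - (-s).re)) ^ 2 * (m : ℝ) ^ (b + 1 - 2 * s.re - 1))) := by ring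
  rw [e5, e3]
  exact bt_id hm0.ne' _ _ _ _ _

/-- the constants and the pointwise limits -/
theorem asy_consts {s : ℂ} (hs0 : s ≠ 0) (hs : ‖s‖ < 1) {b : ℝ} (hb : 0 < b)
    (hσ : 0 < b + 1 - 2 * s.re) : ∃ ca cb : ℝ, 0 < ca ∧ 0 < cb ∧ ca * cb = cst s
      ∧ (∀ x ∈ Ioo (0 : ℝ) 1, Tendsto (fun m : ℕ => alm s b m x) atTop (𝓝 (ca * alp s b x)))
      ∧ (∀ y : ℝ, 0 < y → Tendsto (fun m : ℕ => bem s b m y) atTop (𝓝 (cb * bet b y)))
      ∧ Tendsto (fun m : ℕ => KS s * pq (b + 3) (m - 1) / (m : ℝ) ^ (b + 2)) atTop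
          (𝓝 (ca * B0 s b)) := by
  obtain ⟨hr1, hr2⟩ := re_bounds hs
  have g1 := Real.Gamma_pos_of_pos (by linarith : 0 < 2 + 2 * s.re)
  have g2 := Real.Gamma_pos_of_pos hσ
  have hK := KS_pos hs
  have h1s := one_add_ne hs
  have hn1 : 0 < ‖1 + s‖ := norm_pos_iff.mpr h1s
  have hgs : Complex.Gamma (-s) ≠ 0 := Complex.Gamma_ne_zero (neg_ne_nat hs0 hs)
  have hgn : 0 < ‖Complex.Gamma (-s)‖ := norm_pos_iff.mpr hgs
  refine ⟨KS s * (Real.Gamma (2 + 2 * s.re))⁻¹ * (Real.Gamma (b + 1 - 2 * s.re))⁻¹,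
    ‖1 + s‖ ^ 2 * (‖Complex.Gamma (-s)‖⁻¹) ^ 2 * Real.Gamma (b + 1 - 2 * s.re),
    by positivity, by positivity, ?_, fun x hx => alm_tendsto hs hσ hx,
    fun y hy => bem_tendsto hs0 hs hσ hy, ?_⟩
  · have e1 : Complex.Gamma (s + 2) = (1 + s) * Complex.Gamma (1 + s) := by
      have e : s + 2 = (1 + s) + 1 := by ring
      rw [e, Complex.Gamma_add_one _ h1s]
    have e2 := Complex.Gamma_mul_Gamma_one_sub (-s)
    rw [sub_neg_eq_add] at e2
    have e3 : (Complex.Gamma (-s) * Complex.Gamma (1 + s))⁻¹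
        = Complex.sin (π * -s) / π := by rw [e2, inv_div]
    have e4 : cst s = (‖Complex.Gamma (-s)‖⁻¹ * ‖Complex.Gamma (1 + s)‖⁻¹) ^ 2 := by
      rw [cst, ← norm_inv, ← norm_inv, ← norm_mul, ← mul_inv, e3, mul_neg, Complex.sin_neg,
        neg_div, norm_neg]
    have hg3 : 0 < ‖Complex.Gamma (1 + s)‖ := by
      apply norm_pos_iff.mpr
      apply Complex.Gamma_ne_zero_of_re_pos
      rw [Complex.add_re, Complex.one_re]
      linarith only [hr1]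
    rw [e4, KS_eq hs, e1, norm_mul]
    have g1' := g1.ne'
    have g2' := g2.ne'
    generalize Real.Gamma (2 + 2 * s.re) = G1 at g1' ⊢
    generalize Real.Gamma (b + 1 - 2 * s.re) = G2 at g2' ⊢
    field_simp
  · have k1 : Tendsto (fun m : ℕ => (((m - 1 : ℕ) : ℝ) + 1) / m) atTop (𝓝 1) := by
      refine tendsto_const_nhds.congr' ?_
      filter_upwards [eventually_gt_atTop 0] with m hm
      have hm0 : (m : ℝ) ≠ 0 := by
        have : m ≠ 0 := by omega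
        exact_mod_cast this
      have h1 : ((m - 1 : ℕ) : ℝ) + 1 = m := by
        rw [Nat.cast_sub hm, Nat.cast_one, sub_add_cancel]
      rw [h1, div_self hm0]
    have t1 := (tendsto_scaled one_pos (tendsto_pq_real (z := b + 3) (by linarith only [hb])) k1).const_mul
      (KS s)
    rw [Real.one_rpow, mul_one] at t1
    have hlim : KS s * (Real.Gamma (b + 3))⁻¹ = KS s * (Real.Gamma (2 + 2 * s.re))⁻¹
        * (Real.Gamma (b + 1 - 2 * s.re))⁻¹ * B0 s b := by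
      rw [B0_eq hs hσ]
      have g1' := g1.ne'
      have g2' := g2.ne'
      generalize Real.Gamma (2 + 2 * s.re) = G1 at g1' ⊢
      generalize Real.Gamma (b + 1 - 2 * s.re) = G2 at g2' ⊢
      field_simp
    rw [hlim] at t1
    refine t1.congr' ?_
    filter_upwards [eventually_gt_atTop 0] with m hm
    have hm0 : (0 : ℝ) < m := by exact_mod_cast hm
    have e1 : (m : ℝ) ^ (1 - (b + 3)) = ((m : ℝ) ^ (b + 2))⁻¹ := by
      rw [← Real.rpow_neg hm0.le]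
      congr 1
      ring
    rw [e1]
    ring

theorem exists_norm_pq_le {s : ℂ} (hs : ‖s‖ < 1) : ∃ C : ℝ, 0 ≤ C ∧ ∀ n : ℕ, 1 ≤ n →
    ‖pq (-s) n‖ ≤ C * ((n : ℝ) + 1) ^ (-(1 + s.re)) := by
  rcases eq_or_ne s 0 with h0 | h0
  · refine ⟨0, le_rfl, fun n hn => ?_⟩
    obtain ⟨k, rfl⟩ : ∃ k, n = k + 1 := ⟨n - 1, by omega⟩
    have : pq (-(0 : ℂ)) (k + 1) = 0 := by
      rw [neg_zero]
      induction k with
      | zero => simp [pq]
      | succ k ih => rw [pq_succ, ih (by omega), zero_mul]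
    rw [h0, this, norm_zero, zero_mul]
  · have h := tendsto_norm_pq (neg_ne_nat h0 hs)
    rw [Complex.neg_re, sub_neg_eq_add] at h
    obtain ⟨C, hC, h1⟩ := le_of_tendsto_pow h
    exact ⟨C, hC, fun n _ => h1 n⟩

theorem rpow_le_add_one {x t a : ℝ} (hx : 0 < x) (hxt : x ≤ t) (ht : t ≤ 1) :
    t ^ a ≤ x ^ a + 1 := by
  have h0 : 0 < t := hx.trans_le hxt
  have h1 := Real.rpow_nonneg hx.le a
  rcases le_total a 0 with ha | ha
  · have := Real.rpow_le_rpow_of_nonpos hx hxt ha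
    linarith only [this]
  · have := Real.rpow_le_one h0.le ht ha
    linarith only [h1, this]

theorem alm_le {s : ℂ} (hs : ‖s‖ < 1) {b : ℝ} (hb : 0 < b) (hσ : 0 < b + 1 - 2 * s.re) :
    ∃ C : ℝ, 0 ≤ C ∧ ∀ m : ℕ, 1 ≤ m → ∀ x ∈ Ioo (0 : ℝ) 1, 0 ≤ alm s b m x ∧
      alm s b m x ≤ C * (((1 - x) ^ (2 * s.re + 1) + 1) * (x ^ (b - 2 * s.re) + 1)) := by
  obtain ⟨hr1, hr2⟩ := re_bounds hs
  have hz : 0 < 2 + 2 * s.re := by linarith only [hr1]
  obtain ⟨C1, hC1, h1⟩ := le_of_tendsto_pow (tendsto_pq_real hz)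
  obtain ⟨C2, hC2, h2⟩ := le_of_tendsto_pow (tendsto_pq_real hσ)
  have hK := KS_pos hs
  have hKC : 0 ≤ KS s * C1 * C2 := mul_nonneg (mul_nonneg hK.le hC1) hC2
  refine ⟨KS s * C1 * C2, hKC, fun m hm x hx => ?_⟩
  have hm0 : (0 : ℝ) < m := by exact_mod_cast hm
  have hx1 : 0 < 1 - x := by linarith only [hx.2]
  have p1 := pq_pos hz (m - 1 - ⌊(m : ℝ) * x⌋₊)
  have p2 := pq_pos hσ ⌊(m : ℝ) * x⌋₊
  have p3 := kap_ge_one hr1 (sq_nonneg ‖s‖) (m - 1 - ⌊(m : ℝ) * x⌋₊)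
  have hmb : (0 : ℝ) < (m : ℝ) ^ (b + 1) := Real.rpow_pos_of_pos hm0 _
  have f1 := h1 (m - 1 - ⌊(m : ℝ) * x⌋₊)
  have f2 := h2 ⌊(m : ℝ) * x⌋₊
  have f3 := kap_le_KS hs (m - 1 - ⌊(m : ℝ) * x⌋₊)
  have i1 := floor_mul_le (m := m) hx.1.le
  have i2 := lt_floor_mul (m := m) (x := x)
  have i3 := floor_lt_m hm hx
  have i4 := cast_sub_floor hm hx
  have i5 : (⌊(m : ℝ) * x⌋₊ : ℝ) + 1 ≤ m := by exact_mod_cast i3
  have j0 : (0 : ℝ) ≤ ⌊(m : ℝ) * x⌋₊ := Nat.cast_nonneg _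
  -- the first factor
  have u1 : (((m - 1 - ⌊(m : ℝ) * x⌋₊ : ℕ) : ℝ) + 1) / m ≤ 1 := by
    rw [div_le_one hm0, i4]
    linarith only []
  have u2 : 1 - x ≤ (((m - 1 - ⌊(m : ℝ) * x⌋₊ : ℕ) : ℝ) + 1) / m := by
    rw [le_div_iff₀ hm0, i4]
    linarith only [i1]
  have u3 := rpow_le_add_one (a := 2 * s.re + 1) hx1 u2 u1
  have v1 : ((⌊(m : ℝ) * x⌋₊ : ℝ) + 1) / m ≤ 1 := by
    rw [div_le_one hm0]
    exact i5
  have v2 : x ≤ ((⌊(m : ℝ) * x⌋₊ : ℝ) + 1) / m := by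
    rw [le_div_iff₀ hm0]
    linarith only [i2]
  have v3 := rpow_le_add_one (a := b - 2 * s.re) hx.1 v2 v1
  have w1 : (0 : ℝ) < ((m - 1 - ⌊(m : ℝ) * x⌋₊ : ℕ) : ℝ) + 1 := by positivity
  have w2 : (0 : ℝ) < (⌊(m : ℝ) * x⌋₊ : ℝ) + 1 := by positivity
  have e1 : -(1 - (2 + 2 * s.re)) = 2 * s.re + 1 := by ring
  have e2 : -(1 - (b + 1 - 2 * s.re)) = b - 2 * s.re := by ring
  rw [e1] at f1
  rw [e2] at f2
  rw [Real.div_rpow w1.le hm0.le] at u3
  rw [Real.div_rpow w2.le hm0.le] at v3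
  have e3 : (m : ℝ) ^ (2 * s.re + 1) * (m : ℝ) ^ (b - 2 * s.re) = (m : ℝ) ^ (b + 1) := by
    rw [← Real.rpow_add hm0]
    congr 1
    ring
  have q1 : (0 : ℝ) < (m : ℝ) ^ (2 * s.re + 1) := Real.rpow_pos_of_pos hm0 _
  have q2 : (0 : ℝ) < (m : ℝ) ^ (b - 2 * s.re) := Real.rpow_pos_of_pos hm0 _
  have q3 : 0 ≤ (((m - 1 - ⌊(m : ℝ) * x⌋₊ : ℕ) : ℝ) + 1) ^ (2 * s.re + 1) :=
    Real.rpow_nonneg w1.le _
  have q4 : 0 ≤ ((⌊(m : ℝ) * x⌋₊ : ℝ) + 1) ^ (b - 2 * s.re) := Real.rpow_nonneg w2.le _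
  have hx2 : 0 ≤ (1 - x) ^ (2 * s.re + 1) := Real.rpow_nonneg hx1.le _
  have hx3 : 0 ≤ x ^ (b - 2 * s.re) := Real.rpow_nonneg hx.1.le _
  refine ⟨?_, ?_⟩
  · simp only [alm, aD]
    exact div_nonneg (mul_nonneg (mul_nonneg (zero_le_one.trans p3) p1.le) p2.le) hmb.le
  · simp only [alm, aD]
    calc kap s.re (‖s‖ ^ 2) (m - 1 - ⌊(m : ℝ) * x⌋₊) * pq (2 + 2 * s.re) (m - 1 - ⌊(m : ℝ) * x⌋₊)
          * pq (b + 1 - 2 * s.re) ⌊(m : ℝ) * x⌋₊ / (m : ℝ) ^ (b + 1)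
        ≤ KS s * (C1 * (((m - 1 - ⌊(m : ℝ) * x⌋₊ : ℕ) : ℝ) + 1) ^ (2 * s.re + 1))
          * (C2 * ((⌊(m : ℝ) * x⌋₊ : ℝ) + 1) ^ (b - 2 * s.re)) / (m : ℝ) ^ (b + 1) :=
          fac1 f3 f1 f2 (zero_le_one.trans p3) p1.le p2.le hmb.le
      _ = KS s * C1 * C2 * (((((m - 1 - ⌊(m : ℝ) * x⌋₊ : ℕ) : ℝ) + 1) ^ (2 * s.re + 1)
            / (m : ℝ) ^ (2 * s.re + 1))
          * (((⌊(m : ℝ) * x⌋₊ : ℝ) + 1) ^ (b - 2 * s.re) / (m : ℝ) ^ (b - 2 * s.re))) := by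
          rw [← e3]
          exact fac_id _ _ _ _ _ _ _
      _ ≤ _ := mul_le_mul_of_nonneg_left (mul_le_mul u3 v3 (div_nonneg q4 q2.le)
          (add_nonneg hx2 zero_le_one)) hKC

theorem bem_le {s : ℂ} (hs : ‖s‖ < 1) {b : ℝ} (hb : 0 < b) (hσ : 0 < b + 1 - 2 * s.re) :
    ∃ C : ℝ, 0 ≤ C ∧ ∀ m : ℕ, 1 ≤ m → ∀ y : ℝ, 0 < y → 0 ≤ bem s b m y ∧
      bem s b m y ≤ C * ((y + 1 / m) * (1 + y) ^ (-b - 2)) := by
  obtain ⟨C1, hC1, h1⟩ := exists_norm_pq_le hs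
  obtain ⟨C2, hC2, h2⟩ := le_of_tendsto_pow (p := (b + 1 - 2 * s.re) - 1)
    (tendsto_pq_real_inv hσ)
  have hKC : 0 ≤ ‖1 + s‖ ^ 2 * C1 ^ 2 * C2 :=
    mul_nonneg (mul_nonneg (sq_nonneg _) (sq_nonneg _)) hC2
  refine ⟨‖1 + s‖ ^ 2 * C1 ^ 2 * C2, hKC, fun m hm y hy => ?_⟩
  have hm0 : (0 : ℝ) < m := by exact_mod_cast hm
  have hy1 : 0 < 1 + y := by linarith only [hy]
  have p2 := pq_pos hσ (m + 1 + ⌊(m : ℝ) * y⌋₊)
  have f1 := h1 (m + 1 + ⌊(m : ℝ) * y⌋₊) (by omega)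
  have f2 := h2 (m + 1 + ⌊(m : ℝ) * y⌋₊)
  have i1 := floor_mul_le (m := m) hy.le
  have i2 := lt_floor_mul (m := m) (x := y)
  have j0 : (0 : ℝ) ≤ ⌊(m : ℝ) * y⌋₊ := Nat.cast_nonneg _
  have hmb : (0 : ℝ) < (m : ℝ) ^ (b + 1) := Real.rpow_pos_of_pos hm0 _
  have w0 : (0 : ℝ) < ((m + 1 + ⌊(m : ℝ) * y⌋₊ : ℕ) : ℝ) + 1 := by positivity
  have u1 : 1 + y ≤ (((m + 1 + ⌊(m : ℝ) * y⌋₊ : ℕ) : ℝ) + 1) / m := by
    rw [le_div_iff₀ hm0]
    push_cast
    linarith only [i2]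
  have u2 : ((⌊(m : ℝ) * y⌋₊ : ℝ) + 1) / m ≤ y + 1 / m := by
    rw [add_div]
    have : (⌊(m : ℝ) * y⌋₊ : ℝ) / m ≤ y := by
      rw [div_le_iff₀ hm0]
      linarith only [i1]
    linarith only [this]
  have u3 : ((((m + 1 + ⌊(m : ℝ) * y⌋₊ : ℕ) : ℝ) + 1) / m) ^ (-b - 2) ≤ (1 + y) ^ (-b - 2) :=
    Real.rpow_le_rpow_of_nonpos hy1 u1 (by linarith only [hb])
  rw [Real.div_rpow w0.le hm0.le] at u3
  have q0 : (0 : ℝ) < (m : ℝ) ^ (-b - 2) := Real.rpow_pos_of_pos hm0 _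
  have q1 : 0 ≤ (1 + y) ^ (-b - 2) := Real.rpow_nonneg hy1.le _
  have q2 : 0 ≤ (((m + 1 + ⌊(m : ℝ) * y⌋₊ : ℕ) : ℝ) + 1) ^ (-(1 + s.re)) :=
    Real.rpow_nonneg w0.le _
  have q3 : 0 ≤ (((m + 1 + ⌊(m : ℝ) * y⌋₊ : ℕ) : ℝ) + 1) ^ (-(b + 1 - 2 * s.re - 1)) :=
    Real.rpow_nonneg w0.le _
  refine ⟨?_, ?_⟩
  · simp only [bem, bD]
    exact mul_nonneg (div_nonneg (mul_nonneg (add_nonneg j0 zero_le_one) (sq_nonneg _)) p2.le)
      hmb.le
  · simp only [bem, bD]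
    have e1 : (m : ℝ) ^ (b + 1) = 1 / ((m : ℝ) * (m : ℝ) ^ (-b - 2)) := by
      have h3 : (m : ℝ) * (m : ℝ) ^ (-b - 2) = (m : ℝ) ^ (-(b + 1)) := by
        have h4 : -(b + 1) = 1 + (-b - 2) := by ring
        rw [h4, Real.rpow_add hm0, Real.rpow_one]
      rw [h3, Real.rpow_neg hm0.le, one_div, inv_inv]
    have e2 : ((((m + 1 + ⌊(m : ℝ) * y⌋₊ : ℕ) : ℝ) + 1) ^ (-(1 + s.re))) ^ 2
        * (((m + 1 + ⌊(m : ℝ) * y⌋₊ : ℕ) : ℝ) + 1) ^ (-(b + 1 - 2 * s.re - 1))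
        = (((m + 1 + ⌊(m : ℝ) * y⌋₊ : ℕ) : ℝ) + 1) ^ (-b - 2) := by
      rw [← Real.rpow_natCast, ← Real.rpow_mul w0.le, ← Real.rpow_add w0]
      congr 1
      push_cast
      ring
    rw [norm_mul, mul_pow, div_eq_mul_inv]
    calc ((⌊(m : ℝ) * y⌋₊ : ℝ) + 1) * (‖1 + s‖ ^ 2 * ‖pq (-s) (m + 1 + ⌊(m : ℝ) * y⌋₊)‖ ^ 2)
          * (pq (b + 1 - 2 * s.re) (m + 1 + ⌊(m : ℝ) * y⌋₊))⁻¹ * (m : ℝ) ^ (b + 1)
        ≤ ((⌊(m : ℝ) * y⌋₊ : ℝ) + 1) * (‖1 + s‖ ^ 2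
            * (C1 * (((m + 1 + ⌊(m : ℝ) * y⌋₊ : ℕ) : ℝ) + 1) ^ (-(1 + s.re))) ^ 2)
          * (C2 * (((m + 1 + ⌊(m : ℝ) * y⌋₊ : ℕ) : ℝ) + 1) ^ (-(b + 1 - 2 * s.re - 1)))
          * (m : ℝ) ^ (b + 1) :=
          fac2 f1 f2 (add_nonneg j0 zero_le_one) (sq_nonneg _) (norm_nonneg _)
            (inv_nonneg.mpr p2.le) hmb.le
      _ = ‖1 + s‖ ^ 2 * C1 ^ 2 * C2 * (((⌊(m : ℝ) * y⌋₊ : ℝ) + 1) / m
          * ((((m + 1 + ⌊(m : ℝ) * y⌋₊ : ℕ) : ℝ) + 1) ^ (-b - 2) / (m : ℝ) ^ (-b - 2))) := by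
          rw [← e2, e1]
          ring
      _ ≤ _ := mul_le_mul_of_nonneg_left (mul_le_mul u2 u3
          (div_nonneg (Real.rpow_nonneg w0.le _) q0.le)
          (add_nonneg hy.le (div_nonneg zero_le_one hm0.le))) hKC

theorem kD_le {s : ℂ} (hs : ‖s‖ < 1) : ∃ C : ℝ, 0 ≤ C ∧ ∀ m : ℕ, 1 ≤ m → ∀ x y : ℝ, 0 < x →
    0 < y → ‖kD s m ⌊(m : ℝ) * x⌋₊ ⌊(m : ℝ) * y⌋₊‖ ≤ C / (x + y + 1 / m) := by
  have h1 : 0 < 1 - ‖s‖ := by linarith
  refine ⟨3 / (1 - ‖s‖), by positivity, fun m hm x y hx hy => ?_⟩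
  have hm0 : (0 : ℝ) < m := by exact_mod_cast hm
  have i1 := lt_floor_mul (m := m) (x := x)
  have i2 := lt_floor_mul (m := m) (x := y)
  have j1 : (0 : ℝ) ≤ ⌊(m : ℝ) * x⌋₊ := Nat.cast_nonneg _
  have j2 : (0 : ℝ) ≤ ⌊(m : ℝ) * y⌋₊ := Nat.cast_nonneg _
  generalize ⌊(m : ℝ) * x⌋₊ = i at *
  generalize ⌊(m : ℝ) * y⌋₊ = j at *
  have h2 : (1 - ‖s‖) * ((j : ℝ) + 1 + i) ≤ ‖((j + 1 + i : ℕ) : ℂ) - s‖ := by
    have h3 := norm_sub_norm_le (((j + 1 + i : ℕ) : ℂ)) s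
    rw [Complex.norm_natCast] at h3
    push_cast at h3 ⊢
    have h4 : 0 ≤ ‖s‖ := norm_nonneg s
    nlinarith only [h3, h4]
  have h5 : 0 < (1 - ‖s‖) * ((j : ℝ) + 1 + i) := by positivity
  have h6 : 0 < x + y + 1 / m := by positivity
  unfold kD
  rw [norm_div, Complex.norm_natCast, div_div, div_le_div_iff₀ (h5.trans_le h2) (by positivity)]
  have h7 : (m : ℝ) * (x + y + 1 / m) = m * x + m * y + 1 := by field_simp
  calc (m : ℝ) * ((1 - ‖s‖) * (x + y + 1 / m))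
      = (1 - ‖s‖) * (m * x + m * y + 1) := by rw [← h7]; ring
    _ ≤ (1 - ‖s‖) * (3 * ((j : ℝ) + 1 + i)) := by
        apply mul_le_mul_of_nonneg_left _ h1.le
        linarith only [i1, i2]
    _ = 3 * ((1 - ‖s‖) * ((j : ℝ) + 1 + i)) := by ring
    _ ≤ _ := by
        apply mul_le_mul_of_nonneg_left h2 (by norm_num)

theorem kD_tendsto {s : ℂ} {x y : ℝ} (hx : 0 < x) (hy : 0 < y) :
    Tendsto (fun m : ℕ => kD s m ⌊(m : ℝ) * x⌋₊ ⌊(m : ℝ) * y⌋₊) atTop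
      (𝓝 ((1 / (x + y) : ℝ) : ℂ)) := by
  have h1 : Tendsto (fun m : ℕ => (((⌊(m : ℝ) * y⌋₊ : ℝ) + 1) / m + (⌊(m : ℝ) * x⌋₊ : ℝ) / m))
      atTop (𝓝 (y + x)) := (tendsto_floor_one hy.le).add (tendsto_floor hx.le)
  have h2 : Tendsto (fun m : ℕ => ((((⌊(m : ℝ) * y⌋₊ : ℝ) + 1) / m
      + (⌊(m : ℝ) * x⌋₊ : ℝ) / m : ℝ) : ℂ) - s / m) atTop (𝓝 (((y + x : ℝ) : ℂ) - 0)) :=
    ((Complex.continuous_ofReal.tendsto _).comp h1).sub (tendsto_const_div_atTop_nhds_zero_nat s)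
  rw [sub_zero] at h2
  have h3 : ((y + x : ℝ) : ℂ) ≠ 0 := by
    have : y + x ≠ 0 := by positivity
    exact_mod_cast this
  have h4 := h2.inv₀ h3
  have e : (((y + x : ℝ) : ℂ))⁻¹ = ((1 / (x + y) : ℝ) : ℂ) := by
    rw [add_comm y x, one_div, Complex.ofReal_inv]
  rw [e] at h4
  refine h4.congr' ?_
  filter_upwards [eventually_gt_atTop 0] with m hm
  have hm0 : (m : ℂ) ≠ 0 := by
    have : m ≠ 0 := by omega
    exact_mod_cast this
  unfold kD
  rw [← inv_div]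
  congr 1
  push_cast
  field_simp

theorem XD_tendsto {s : ℂ} (n : ℕ) {x : ℝ} (hx : x ∈ Ioo (0 : ℝ) 1) :
    Tendsto (fun m : ℕ => XD s m n ⌊(m : ℝ) * x⌋₊) atTop (𝓝 (((1 - x) ^ n : ℝ) : ℂ)) := by
  have h1 : ∀ k ∈ Finset.range n, Tendsto (fun m : ℕ => (s + 1 + k
      + ((m - ⌊(m : ℝ) * x⌋₊ : ℕ) : ℂ)) / m) atTop (𝓝 (((1 - x : ℝ)) : ℂ)) := by
    intro k _
    have h2 : Tendsto (fun m : ℕ => (s + k) / (m : ℂ)
        + (((((m - 1 - ⌊(m : ℝ) * x⌋₊ : ℕ) : ℝ) + 1) / m : ℝ) : ℂ) + 1 / (m : ℂ))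
        atTop (𝓝 (0 + ((1 - x : ℝ) : ℂ) + 0)) :=
      ((tendsto_const_div_atTop_nhds_zero_nat (s + k)).add
        ((Complex.continuous_ofReal.tendsto _).comp (tendsto_co_floor hx))).add
        (tendsto_const_div_atTop_nhds_zero_nat (1 : ℂ))
    rw [zero_add, add_zero] at h2
    refine h2.congr' ?_
    filter_upwards [eventually_ge_atTop 1] with m hm
    have hm0 : (m : ℂ) ≠ 0 := by
      have : m ≠ 0 := by omega
      exact_mod_cast this
    have h3 := floor_lt_m hm hx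
    have h4 : m - ⌊(m : ℝ) * x⌋₊ = m - 1 - ⌊(m : ℝ) * x⌋₊ + 1 := by omega
    rw [h4]
    push_cast
    field_simp
    ring
  have h5 := tendsto_finset_prod _ h1
  rw [Finset.prod_const, Finset.card_range, ← Complex.ofReal_pow] at h5
  refine h5.congr fun m => ?_
  unfold XD
  rw [Finset.prod_div_distrib, Finset.prod_const, Finset.card_range]

theorem XD_le (n : ℕ) : ∃ C : ℝ, 0 ≤ C ∧ ∀ s : ℂ, ‖s‖ < 1 → ∀ m : ℕ, 1 ≤ m → ∀ i < m,
    ‖XD s m n i‖ ≤ C := by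
  refine ⟨∏ k ∈ Finset.range n, (3 + (k : ℝ)), Finset.prod_nonneg fun k _ => by positivity,
    fun s hs m hm i hi => ?_⟩
  have hm0 : (0 : ℝ) < m := by exact_mod_cast hm
  have hm1 : (1 : ℝ) ≤ m := by exact_mod_cast hm
  unfold XD
  rw [norm_div, norm_pow, Complex.norm_natCast, div_le_iff₀ (by positivity), norm_prod]
  have e : (m : ℝ) ^ n = ∏ k ∈ Finset.range n, (m : ℝ) := by
    rw [Finset.prod_const, Finset.card_range]
  rw [e, ← Finset.prod_mul_distrib]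
  apply Finset.prod_le_prod
  · intro k _
    exact norm_nonneg _
  · intro k _
    have h1 : ‖s + 1 + k + ((m - i : ℕ) : ℂ)‖ ≤ ‖s‖ + 1 + k + ((m - i : ℕ) : ℝ) := by
      refine (norm_add_le _ _).trans ?_
      rw [Complex.norm_natCast]
      refine add_le_add_left ?_ _ |>.trans le_rfl
      refine (norm_add_le _ _).trans ?_
      rw [Complex.norm_natCast]
      refine add_le_add_left ?_ _ |>.trans le_rfl
      refine (norm_add_le _ _).trans ?_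
      rw [norm_one]
    have h2 : ((m - i : ℕ) : ℝ) ≤ m := by
      exact_mod_cast Nat.sub_le m i
    have h3 : (0 : ℝ) ≤ k := Nat.cast_nonneg k
    nlinarith only [hs, hm1, h1, h2]

end Pool.Agent.M16.Helper24.HR2

end

section

set_option autoImplicit false

open MeasureTheory Set Metric Filter Topology

open scoped Real ComplexConjugate

namespace Pool.Agent.M16.Helper24.HR2

open Pool.Agent.M16.Helper22.Half

open Pool.Agent.M16.Helper22.Marshall (coeff SepHol LogPhi dcoeff GLe)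

open Pool.Agent.M16.Helper39.Area (Ext phi)

open Pool.Agent.M16.Helper39.MH

namespace LimX

theorem floor_meas (m : ℕ) : Measurable (fun y : ℝ => ⌊(m : ℝ) * y⌋₊) :=
  Nat.measurable_floor.comp (measurable_const_mul _)

theorem step_meas (m : ℕ) (f : ℕ → ℂ) : Measurable (fun x : ℝ => f ⌊(m : ℝ) * x⌋₊) :=
  measurable_from_nat.comp (floor_meas m)

theorem map_floor {m : ℕ} (hm : 1 ≤ m) :
    Measure.map (fun y : ℝ => ⌊(m : ℝ) * y⌋₊) (volume.restrict (Ioi (0 : ℝ)))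
      = ENNReal.ofReal (1 / m) • Measure.count := by
  have hm0 : (0 : ℝ) < m := by exact_mod_cast hm
  apply Measure.ext_of_singleton
  intro j
  rw [Measure.map_apply (floor_meas m) (measurableSet_singleton j),
    Measure.restrict_apply ((floor_meas m) (measurableSet_singleton j)),
    Measure.smul_apply, Measure.count_singleton, smul_eq_mul, mul_one]
  rcases Nat.eq_zero_or_pos j with hj | hj
  · have h : (fun y : ℝ => ⌊(m : ℝ) * y⌋₊) ⁻¹' {j} ∩ Ioi 0 = Ioo 0 (1 / (m : ℝ)) := by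
      ext y
      simp only [mem_inter_iff, mem_preimage, mem_singleton_iff, mem_Ioi, mem_Ioo]
      rw [hj, Nat.floor_eq_zero, lt_div_iff₀ hm0, mul_comm y]
      tauto
    rw [h, Real.volume_Ioo, sub_zero]
  · have h : (fun y : ℝ => ⌊(m : ℝ) * y⌋₊) ⁻¹' {j} ∩ Ioi 0
        = Ico ((j : ℝ) / m) (((j : ℝ) + 1) / m) := by
      ext y
      simp only [mem_inter_iff, mem_preimage, mem_singleton_iff, mem_Ioi, mem_Ico]
      rw [Nat.floor_eq_iff' (by omega), lt_div_iff₀ hm0, div_le_iff₀ hm0, mul_comm y]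
      constructor
      · rintro ⟨h1, _⟩
        exact h1
      · intro h1
        refine ⟨h1, ?_⟩
        have hj0 : (0 : ℝ) < j := by exact_mod_cast hj
        by_contra h2
        have h3 : (m : ℝ) * y ≤ 0 := mul_nonpos_of_nonneg_of_nonpos hm0.le (not_lt.mp h2)
        linarith only [h1, hj0, h3]
    rw [h, Real.volume_Ico]
    congr 1
    rw [← sub_div, add_sub_cancel_left]

theorem step_int {m : ℕ} (hm : 1 ≤ m) (f : ℕ → ℂ) :
    IntegrableOn (fun y : ℝ => f ⌊(m : ℝ) * y⌋₊) (Ioi 0) ↔ Summable (fun j => ‖f j‖) := by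
  have hm0 : (0 : ℝ) < m := by exact_mod_cast hm
  have h1 : Integrable f (Measure.map (fun y : ℝ => ⌊(m : ℝ) * y⌋₊)
      (volume.restrict (Ioi (0 : ℝ)))) ↔
      Integrable (f ∘ (fun y : ℝ => ⌊(m : ℝ) * y⌋₊)) (volume.restrict (Ioi (0 : ℝ))) :=
    integrable_map_measure (measurable_from_nat.aestronglyMeasurable) (floor_meas m).aemeasurable
  rw [IntegrableOn, ← integrable_count_iff]
  have h2 : (fun y : ℝ => f ⌊(m : ℝ) * y⌋₊) = f ∘ (fun y : ℝ => ⌊(m : ℝ) * y⌋₊) := rfl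
  rw [h2, ← h1, map_floor hm]
  apply integrable_smul_measure
  · simp only [ne_eq, ENNReal.ofReal_eq_zero, not_le]
    positivity
  · exact ENNReal.ofReal_ne_top

theorem step_eq {m : ℕ} (hm : 1 ≤ m) (f : ℕ → ℂ) (hf : Summable (fun j => ‖f j‖)) :
    ∫ y in Ioi (0 : ℝ), f ⌊(m : ℝ) * y⌋₊ = (1 / (m : ℂ)) * ∑' j, f j := by
  have hm0 : (0 : ℝ) < m := by exact_mod_cast hm
  have h1 : ∫ k, f k ∂(Measure.map (fun y : ℝ => ⌊(m : ℝ) * y⌋₊)
      (volume.restrict (Ioi (0 : ℝ)))) = ∫ y in Ioi (0 : ℝ), f ⌊(m : ℝ) * y⌋₊ :=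
    integral_map (floor_meas m).aemeasurable (measurable_from_nat.aestronglyMeasurable)
  rw [← h1, map_floor hm, integral_smul_measure, ENNReal.toReal_ofReal (by positivity),
    integral_countable (integrable_count_iff.mpr hf)]
  simp only [count_real_singleton, one_smul]
  rw [Complex.real_smul]
  push_cast
  rfl

theorem step_fin {m : ℕ} (hm : 1 ≤ m) (f : ℕ → ℂ) :
    ∫ x in Ioo (0 : ℝ) 1, f ⌊(m : ℝ) * x⌋₊ = (1 / (m : ℂ)) * ∑ i ∈ Finset.range m, f i := by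
  have hm0 : (0 : ℝ) < m := by exact_mod_cast hm
  have hsum : Summable (fun j => ‖if j < m then f j else 0‖) := by
    apply summable_of_ne_finset_zero (s := Finset.range m)
    intro j hj
    rw [Finset.mem_range] at hj
    rw [if_neg hj, norm_zero]
  have h1 := step_eq hm (fun j => if j < m then f j else 0) hsum
  rw [tsum_eq_sum (s := Finset.range m)] at h1
  · have h2 : ∑ i ∈ Finset.range m, (if i < m then f i else 0) = ∑ i ∈ Finset.range m, f i := by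
      apply Finset.sum_congr rfl
      intro i hi
      rw [Finset.mem_range] at hi
      rw [if_pos hi]
    rw [h2] at h1
    rw [← h1]
    have h3 : ∀ y ∈ Ioi (0 : ℝ), (if ⌊(m : ℝ) * y⌋₊ < m then f ⌊(m : ℝ) * y⌋₊ else 0)
        = (Iio (1 : ℝ)).indicator (fun y => f ⌊(m : ℝ) * y⌋₊) y := by
      intro y hy
      have h4 : ⌊(m : ℝ) * y⌋₊ < m ↔ y < 1 := by
        rw [Nat.floor_lt' (by omega)]
        constructor
        · intro h
          by_contra h5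
          nlinarith only [h, h5]
        · intro h
          nlinarith only [hm0, h]
      by_cases h6 : y < 1
      · rw [if_pos (h4.mpr h6), indicator_of_mem (by exact h6)]
      · rw [if_neg (fun h => h6 (h4.mp h)), indicator_of_notMem (by exact h6)]
    rw [setIntegral_congr_fun measurableSet_Ioi h3, setIntegral_indicator measurableSet_Iio,
      Ioi_inter_Iio]
  · intro j hj
    rw [Finset.mem_range] at hj
    rw [if_neg hj]

/-- the scaled inner sums -/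
noncomputable def psi (s : ℂ) (b : ℝ) (D : ℕ) (p : ℕ → ℕ → ℝ) (l m i : ℕ) : ℂ :=
  (((m : ℝ) ^ b : ℝ) : ℂ) * ∑' j, (bD s b m j : ℂ) * (YD m j : ℂ) ^ l * rD s D p m i j

theorem YD_nonneg (m j : ℕ) : 0 ≤ YD m j := by
  unfold YD
  positivity

theorem YD_le_one (m j : ℕ) : YD m j ≤ 1 := by
  unfold YD
  rw [div_le_one (by positivity)]
  have : (0 : ℝ) ≤ j := Nat.cast_nonneg j
  linarith

theorem YD_floor_le {m : ℕ} (hm : 1 ≤ m) {y : ℝ} (hy : 0 < y) :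
    YD m ⌊(m : ℝ) * y⌋₊ ≤ 1 / (1 + y) := by
  have hm0 : (0 : ℝ) < m := by exact_mod_cast hm
  have h := lt_floor_mul (m := m) (x := y)
  have h0 : (0 : ℝ) ≤ (⌊(m : ℝ) * y⌋₊ : ℝ) := Nat.cast_nonneg _
  unfold YD
  rw [div_le_div_iff₀ (by linarith only []) (by linarith only [hy])]
  linarith only [h]

theorem YD_tendsto {y : ℝ} (hy : 0 < y) :
    Tendsto (fun m : ℕ => YD m ⌊(m : ℝ) * y⌋₊) atTop (𝓝 (1 / (1 + y))) := by
  have h1 : Tendsto (fun m : ℕ => 1 + ((⌊(m : ℝ) * y⌋₊ : ℝ) + 1) / m) atTop (𝓝 (1 + y)) :=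
    tendsto_const_nhds.add (tendsto_floor_one hy.le)
  have h2 := h1.inv₀ (by positivity)
  rw [← one_div] at h2
  refine h2.congr' ?_
  filter_upwards [eventually_gt_atTop 0] with m hm
  have hm0 : (0 : ℝ) < m := by exact_mod_cast hm
  unfold YD
  rw [← inv_div]
  field_simp
  ring

theorem rD_le {s : ℂ} (hs : ‖s‖ < 1) (D : ℕ) (p : ℕ → ℕ → ℝ) : ∃ C : ℝ, 0 ≤ C ∧
    ∀ m : ℕ, 1 ≤ m → ∀ x ∈ Ioo (0 : ℝ) 1, ∀ y : ℝ, 0 < y →
      ‖rD s D p m ⌊(m : ℝ) * x⌋₊ ⌊(m : ℝ) * y⌋₊‖ ≤ C * (1 / (x + y + 1 / m) + 1 / (1 + y)) := by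
  obtain ⟨C1, hC1, h1⟩ := kD_le hs
  choose CX hCX hX using XD_le
  set C2 : ℝ := ∑ n ∈ Finset.range D, ∑ l ∈ Finset.range D, |p n l| * CX n with hC2
  have hC20 : 0 ≤ C2 := Finset.sum_nonneg fun n _ => Finset.sum_nonneg fun l _ =>
    mul_nonneg (abs_nonneg _) (hCX n)
  refine ⟨C1 + C2, by positivity, fun m hm x hx y hy => ?_⟩
  have hm0 : (0 : ℝ) < m := by exact_mod_cast hm
  have hy1 : (0 : ℝ) < 1 / (1 + y) := by positivity
  have hx0 := hx.1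
  have hxy : (0 : ℝ) < 1 / (x + y + 1 / m) := by positivity
  have hY0 := YD_nonneg m ⌊(m : ℝ) * y⌋₊
  have hY1 := YD_le_one m ⌊(m : ℝ) * y⌋₊
  have hY2 := YD_floor_le hm hy
  have hk := h1 m hm x y hx0 hy
  have hp : ‖∑ n ∈ Finset.range D, ∑ l ∈ Finset.range D,
      (p n l : ℂ) * XD s m n ⌊(m : ℝ) * x⌋₊ * (YD m ⌊(m : ℝ) * y⌋₊ : ℂ) ^ (l + 1)‖
      ≤ C2 * (1 / (1 + y)) := by
    rw [hC2, Finset.sum_mul]
    refine (norm_sum_le _ _).trans (Finset.sum_le_sum fun n _ => ?_)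
    rw [Finset.sum_mul]
    refine (norm_sum_le _ _).trans (Finset.sum_le_sum fun l _ => ?_)
    rw [norm_mul, norm_mul, norm_pow, Complex.norm_real, Complex.norm_real, Real.norm_eq_abs,
      Real.norm_eq_abs, abs_of_nonneg hY0]
    have hx1 := hX n s hs m hm _ (floor_lt_m hm hx)
    have hpow : YD m ⌊(m : ℝ) * y⌋₊ ^ (l + 1) ≤ 1 / (1 + y) := by
      rw [pow_succ]
      have h3 : YD m ⌊(m : ℝ) * y⌋₊ ^ l ≤ 1 := pow_le_one₀ hY0 hY1
      have h4 : 0 ≤ YD m ⌊(m : ℝ) * y⌋₊ ^ l := pow_nonneg hY0 l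
      exact (mul_le_mul h3 hY2 hY0 zero_le_one).trans_eq (one_mul _)
    have h5 : 0 ≤ YD m ⌊(m : ℝ) * y⌋₊ ^ (l + 1) := pow_nonneg hY0 _
    exact mul_le_mul (mul_le_mul_of_nonneg_left hx1 (abs_nonneg _)) hpow h5
      (mul_nonneg (abs_nonneg _) (hCX n))
  unfold rD
  refine (norm_sub_le _ _).trans ?_
  have e : C1 / (x + y + 1 / m) = C1 * (1 / (x + y + 1 / m)) := by ring
  rw [e] at hk
  linarith only [mul_nonneg hC1 hy1.le, mul_nonneg hC20 hxy.le, hk, hp]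

theorem rD_tendsto {s : ℂ} (D : ℕ) (p : ℕ → ℕ → ℝ) {x y : ℝ} (hx : x ∈ Ioo (0 : ℝ) 1)
    (hy : 0 < y) : Tendsto (fun m : ℕ => rD s D p m ⌊(m : ℝ) * x⌋₊ ⌊(m : ℝ) * y⌋₊) atTop
      (𝓝 ((RR D p x y : ℝ) : ℂ)) := by
  have h1 := kD_tendsto (s := s) hx.1 hy
  have h2 : Tendsto (fun m : ℕ => ∑ n ∈ Finset.range D, ∑ l ∈ Finset.range D,
      (p n l : ℂ) * XD s m n ⌊(m : ℝ) * x⌋₊ * (YD m ⌊(m : ℝ) * y⌋₊ : ℂ) ^ (l + 1)) atTop
      (𝓝 (∑ n ∈ Finset.range D, ∑ l ∈ Finset.range D,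
        (p n l : ℂ) * (((1 - x) ^ n : ℝ) : ℂ) * ((1 / (1 + y) : ℝ) : ℂ) ^ (l + 1))) := by
    refine tendsto_finsetSum _ fun n _ => tendsto_finsetSum _ fun l _ => ?_
    refine ((tendsto_const_nhds.mul (XD_tendsto n hx))).mul ?_
    exact ((Complex.continuous_ofReal.tendsto _).comp (YD_tendsto hy)).pow (l + 1)
  have h3 := h1.sub h2
  have e : ((1 / (x + y) : ℝ) : ℂ) - (∑ n ∈ Finset.range D, ∑ l ∈ Finset.range D,
        (p n l : ℂ) * (((1 - x) ^ n : ℝ) : ℂ) * ((1 / (1 + y) : ℝ) : ℂ) ^ (l + 1))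
      = ((RR D p x y : ℝ) : ℂ) := by
    unfold RR kp
    push_cast
    rfl
  rw [e] at h3
  exact h3

theorem term_bound {s : ℂ} (hs : ‖s‖ < 1) {b : ℝ} (hb : 0 < b) (hσ : 0 < b + 1 - 2 * s.re)
    (D : ℕ) (p : ℕ → ℕ → ℝ) (l : ℕ) : ∃ C : ℝ, 0 ≤ C ∧
    ∀ m : ℕ, 1 ≤ m → ∀ x ∈ Ioo (0 : ℝ) 1, ∀ y : ℝ, 0 < y →
      ‖((bem s b m y : ℝ) : ℂ) * (YD m ⌊(m : ℝ) * y⌋₊ : ℂ) ^ l
        * rD s D p m ⌊(m : ℝ) * x⌋₊ ⌊(m : ℝ) * y⌋₊‖ ≤ C * (y + 1) ^ (-b - 2) := by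
  obtain ⟨C0, hC0, h0⟩ := bem_le hs hb hσ
  obtain ⟨C1, hC1, h1⟩ := rD_le hs D p
  refine ⟨C0 * C1 * 2, by positivity, fun m hm x hx y hy => ?_⟩
  have hm0 : (0 : ℝ) < m := by exact_mod_cast hm
  have hm1 : (1 : ℝ) / m ≤ 1 := by
    rw [div_le_one hm0]
    exact_mod_cast hm
  have hY0 := YD_nonneg m ⌊(m : ℝ) * y⌋₊
  have hY1 := YD_le_one m ⌊(m : ℝ) * y⌋₊
  obtain ⟨g0, g1⟩ := h0 m hm y hy
  have g2 := h1 m hm x hx y hy
  have hx0 := hx.1
  rw [norm_mul, norm_mul, norm_pow, Complex.norm_real, Complex.norm_real, Real.norm_eq_abs,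
    Real.norm_eq_abs, abs_of_nonneg hY0, abs_of_nonneg g0]
  have hpow : YD m ⌊(m : ℝ) * y⌋₊ ^ l ≤ 1 := pow_le_one₀ hY0 hY1
  have hW : 0 < (1 + y) ^ (-b - 2) := Real.rpow_pos_of_pos (by linarith only [hy]) _
  have q1 : (y + 1 / m) * (1 / (x + y + 1 / m)) ≤ 1 := by
    rw [mul_one_div, div_le_one (by positivity)]
    linarith only [hx0]
  have q2 : (y + 1 / m) * (1 / (1 + y)) ≤ 1 := by
    rw [mul_one_div, div_le_one (by positivity)]
    linarith only [hm1]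
  have hz : 0 ≤ 1 / (x + y + 1 / m) + 1 / (1 + y) := by positivity
  calc bem s b m y * YD m ⌊(m : ℝ) * y⌋₊ ^ l
        * ‖rD s D p m ⌊(m : ℝ) * x⌋₊ ⌊(m : ℝ) * y⌋₊‖
      ≤ (C0 * ((y + 1 / m) * (1 + y) ^ (-b - 2))) * 1
          * (C1 * (1 / (x + y + 1 / m) + 1 / (1 + y))) :=
        mul_le_mul (mul_le_mul g1 hpow (pow_nonneg hY0 l) (g0.trans g1)) g2 (norm_nonneg _)
          (mul_nonneg (g0.trans g1) zero_le_one)
    _ = C0 * C1 * (1 + y) ^ (-b - 2) * ((y + 1 / m) * (1 / (x + y + 1 / m))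
          + (y + 1 / m) * (1 / (1 + y))) := by ring
    _ ≤ C0 * C1 * (1 + y) ^ (-b - 2) * (1 + 1) :=
        mul_le_mul_of_nonneg_left (add_le_add q1 q2) (mul_nonneg (mul_nonneg hC0 hC1) hW.le)
    _ = _ := by
      rw [add_comm 1 y]
      ring

theorem bound_int {b : ℝ} (hb : 0 < b) : IntegrableOn (fun y : ℝ => (y + 1) ^ (-b - 2)) (Ioi 0) :=
  integrableOn_add_rpow_Ioi_of_lt (by linarith only [hb]) (by norm_num)

theorem F_int {s : ℂ} (hs : ‖s‖ < 1) {b : ℝ} (hb : 0 < b) (hσ : 0 < b + 1 - 2 * s.re)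
    (D : ℕ) (p : ℕ → ℕ → ℝ) (l : ℕ) {m : ℕ} (hm : 1 ≤ m) {x : ℝ} (hx : x ∈ Ioo (0 : ℝ) 1) :
    IntegrableOn (fun y : ℝ => ((bem s b m y : ℝ) : ℂ) * (YD m ⌊(m : ℝ) * y⌋₊ : ℂ) ^ l
        * rD s D p m ⌊(m : ℝ) * x⌋₊ ⌊(m : ℝ) * y⌋₊) (Ioi 0) := by
  obtain ⟨C, hC, h⟩ := term_bound hs hb hσ D p l
  refine Integrable.mono' ((bound_int hb).const_mul C) ?_ ?_
  · exact (step_meas m (fun j : ℕ => ((bD s b m j * (m : ℝ) ^ (b + 1) : ℝ) : ℂ)
        * (YD m j : ℂ) ^ l * rD s D p m ⌊(m : ℝ) * x⌋₊ j)).aestronglyMeasurable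
  · filter_upwards [ae_restrict_mem measurableSet_Ioi] with y hy
    exact h m hm x hx y hy

theorem summable_floor {s : ℂ} (hs : ‖s‖ < 1) {b : ℝ} (hb : 0 < b) (hσ : 0 < b + 1 - 2 * s.re)
    (D : ℕ) (p : ℕ → ℕ → ℝ) (l : ℕ) {m : ℕ} (hm : 1 ≤ m) {x : ℝ} (hx : x ∈ Ioo (0 : ℝ) 1) :
    Summable (fun j => ‖((bD s b m j * (m : ℝ) ^ (b + 1) : ℝ) : ℂ)
        * (YD m j : ℂ) ^ l * rD s D p m ⌊(m : ℝ) * x⌋₊ j‖) :=
  (step_int hm _).mp (F_int hs hb hσ D p l hm hx)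

theorem summable_term {s : ℂ} (hs : ‖s‖ < 1) {b : ℝ} (hb : 0 < b) (hσ : 0 < b + 1 - 2 * s.re)
    (D : ℕ) (p : ℕ → ℕ → ℝ) (l : ℕ) {m i : ℕ} (hi : i < m) :
    Summable (fun j => (bD s b m j : ℂ) * (YD m j : ℂ) ^ l * rD s D p m i j) := by
  have hm : 1 ≤ m := by omega
  have hm0 : (0 : ℝ) < m := by exact_mod_cast hm
  have hx : ((i : ℝ) + 1 / 2) / m ∈ Ioo (0 : ℝ) 1 := by
    constructor
    · positivity
    · rw [div_lt_one hm0]
      have : (i : ℝ) + 1 ≤ m := by exact_mod_cast hi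
      linarith only [this]
  have hf : ⌊(m : ℝ) * (((i : ℝ) + 1 / 2) / m)⌋₊ = i := by
    rw [mul_div_cancel₀ _ hm0.ne', Nat.floor_eq_iff (by positivity)]
    constructor <;> linarith only []
  have h := (summable_floor hs hb hσ D p l hm hx).of_norm
  rw [hf] at h
  have hc : (((m : ℝ) ^ (b + 1) : ℝ) : ℂ) ≠ 0 := by
    exact_mod_cast (Real.rpow_pos_of_pos hm0 _).ne'
  have h2 := h.mul_left (((m : ℝ) ^ (b + 1) : ℝ) : ℂ)⁻¹
  refine h2.congr fun j => ?_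
  rw [Complex.ofReal_mul]
  have e : ((((m : ℝ) ^ (b + 1) : ℝ) : ℂ))⁻¹ * ((bD s b m j : ℂ) * (((m : ℝ) ^ (b + 1) : ℝ) : ℂ)
      * (YD m j : ℂ) ^ l * rD s D p m i j) = ((((m : ℝ) ^ (b + 1) : ℝ) : ℂ)⁻¹
      * (((m : ℝ) ^ (b + 1) : ℝ) : ℂ)) * ((bD s b m j : ℂ) * (YD m j : ℂ) ^ l * rD s D p m i j) := by
    ring
  rw [e, inv_mul_cancel₀ hc, one_mul]

theorem psi_eq {s : ℂ} (hs : ‖s‖ < 1) {b : ℝ} (hb : 0 < b) (hσ : 0 < b + 1 - 2 * s.re)
    (D : ℕ) (p : ℕ → ℕ → ℝ) (l : ℕ) {m : ℕ} (hm : 1 ≤ m) {x : ℝ} (hx : x ∈ Ioo (0 : ℝ) 1) :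
    psi s b D p l m ⌊(m : ℝ) * x⌋₊
      = ∫ y in Ioi (0 : ℝ), ((bem s b m y : ℝ) : ℂ) * (YD m ⌊(m : ℝ) * y⌋₊ : ℂ) ^ l
        * rD s D p m ⌊(m : ℝ) * x⌋₊ ⌊(m : ℝ) * y⌋₊ := by
  have hm0 : (0 : ℝ) < m := by exact_mod_cast hm
  have hmc : (m : ℂ) ≠ 0 := by
    have : m ≠ 0 := by omega
    exact_mod_cast this
  have h := step_eq hm _ (summable_floor hs hb hσ D p l hm hx)
  unfold bem
  rw [h]
  have e : ∀ j, ((bD s b m j * (m : ℝ) ^ (b + 1) : ℝ) : ℂ)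
        * (YD m j : ℂ) ^ l * rD s D p m ⌊(m : ℝ) * x⌋₊ j
      = (m : ℂ) * (((m : ℝ) ^ b : ℝ) : ℂ) * ((bD s b m j : ℂ) * (YD m j : ℂ) ^ l
        * rD s D p m ⌊(m : ℝ) * x⌋₊ j) := by
    intro j
    rw [Real.rpow_add hm0, Real.rpow_one]
    push_cast
    ring
  rw [tsum_congr e, tsum_mul_left]
  unfold psi
  field_simp

theorem psi_le {s : ℂ} (hs : ‖s‖ < 1) {b : ℝ} (hb : 0 < b) (hσ : 0 < b + 1 - 2 * s.re)
    (D : ℕ) (p : ℕ → ℕ → ℝ) (l : ℕ) : ∃ C : ℝ, 0 ≤ C ∧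
    ∀ m : ℕ, 1 ≤ m → ∀ x ∈ Ioo (0 : ℝ) 1, ‖psi s b D p l m ⌊(m : ℝ) * x⌋₊‖ ≤ C := by
  obtain ⟨C, hC, h⟩ := term_bound hs hb hσ D p l
  have h0 : 0 ≤ ∫ y in Ioi (0 : ℝ), C * (y + 1) ^ (-b - 2) := by
    apply setIntegral_nonneg measurableSet_Ioi
    intro y hy
    have : 0 ≤ (y + 1) ^ (-b - 2) := Real.rpow_nonneg (by linarith only [mem_Ioi.mp hy]) _
    positivity
  refine ⟨_, h0, fun m hm x hx => ?_⟩
  rw [psi_eq hs hb hσ D p l hm hx]
  apply norm_integral_le_of_norm_le ((bound_int hb).const_mul C)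
  filter_upwards [ae_restrict_mem measurableSet_Ioi] with y hy
  exact h m hm x hx y hy

theorem psi_tendsto {s : ℂ} (hs : ‖s‖ < 1) {b : ℝ} (hb : 0 < b)
    (hσ : 0 < b + 1 - 2 * s.re) (D : ℕ) (p : ℕ → ℕ → ℝ) (l : ℕ) {cb : ℝ}
    (hcb : ∀ y : ℝ, 0 < y → Tendsto (fun m : ℕ => bem s b m y) atTop (𝓝 (cb * bet b y)))
    {x : ℝ} (hx : x ∈ Ioo (0 : ℝ) 1) :
    Tendsto (fun m : ℕ => psi s b D p l m ⌊(m : ℝ) * x⌋₊) atTop
      (𝓝 ((cb * rl b D p l x : ℝ) : ℂ)) := by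
  obtain ⟨C, hC, h⟩ := term_bound hs hb hσ D p l
  have key : Tendsto (fun m : ℕ => ∫ y in Ioi (0 : ℝ), ((bem s b m y : ℝ) : ℂ)
        * (YD m ⌊(m : ℝ) * y⌋₊ : ℂ) ^ l * rD s D p m ⌊(m : ℝ) * x⌋₊ ⌊(m : ℝ) * y⌋₊) atTop
      (𝓝 (∫ y in Ioi (0 : ℝ), ((cb * bet b y : ℝ) : ℂ) * ((1 / (1 + y) : ℝ) : ℂ) ^ l
        * ((RR D p x y : ℝ) : ℂ))) := by
    apply tendsto_integral_filter_of_dominated_convergence (fun y => C * (y + 1) ^ (-b - 2))
    · filter_upwards [eventually_ge_atTop 1] with m hm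
      exact (F_int hs hb hσ D p l hm hx).aestronglyMeasurable
    · filter_upwards [eventually_ge_atTop 1] with m hm
      filter_upwards [ae_restrict_mem measurableSet_Ioi] with y hy
      exact h m hm x hx y hy
    · exact (bound_int hb).const_mul C
    · filter_upwards [ae_restrict_mem measurableSet_Ioi] with y hy
      have hy0 : 0 < y := hy
      exact (((Complex.continuous_ofReal.tendsto _).comp (hcb y hy0)).mul
        (((Complex.continuous_ofReal.tendsto _).comp (YD_tendsto hy0)).pow l)).mul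
        (rD_tendsto D p hx hy0)
  have e : ∫ y in Ioi (0 : ℝ), ((cb * bet b y : ℝ) : ℂ) * ((1 / (1 + y) : ℝ) : ℂ) ^ l
        * ((RR D p x y : ℝ) : ℂ) = ((cb * rl b D p l x : ℝ) : ℂ) := by
    unfold rl
    rw [← integral_const_mul, ← integral_complex_ofReal]
    congr 1
    funext y
    push_cast
    ring
  rw [e] at key
  refine key.congr' ?_
  filter_upwards [eventually_ge_atTop 1] with m hm
  exact (psi_eq hs hb hσ D p l hm hx).symm

theorem beta_int {α β : ℝ} (hα : -1 < α) (hβ : -1 < β) :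
    IntegrableOn (fun x : ℝ => (1 - x) ^ α * x ^ β) (Ioo 0 1) := by
  have h := Complex.betaIntegral_convergent (u := ((β + 1 : ℝ) : ℂ)) (v := ((α + 1 : ℝ) : ℂ))
    (by rw [Complex.ofReal_re]; linarith) (by rw [Complex.ofReal_re]; linarith)
  rw [intervalIntegrable_iff_integrableOn_Ioo_of_le (by norm_num)] at h
  have h2 : IntegrableOn (fun x : ℝ => ‖(x : ℂ) ^ (((β + 1 : ℝ) : ℂ) - 1)
      * (1 - (x : ℂ)) ^ (((α + 1 : ℝ) : ℂ) - 1)‖) (Ioo 0 1) := h.norm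
  refine h2.congr_fun (fun x hx => ?_) measurableSet_Ioo
  have hx0 : 0 < x := hx.1
  have hx1 : 0 < 1 - x := by linarith only [hx.2]
  have e : (1 - (x : ℂ)) = ((1 - x : ℝ) : ℂ) := by push_cast; rfl
  simp only [norm_mul]
  rw [e, Complex.norm_cpow_eq_rpow_re_of_pos hx0, Complex.norm_cpow_eq_rpow_re_of_pos hx1]
  simp only [Complex.sub_re, Complex.ofReal_re, Complex.one_re, add_sub_cancel_right]
  ring

theorem alm_bound_int {s : ℂ} (hs : ‖s‖ < 1) {b : ℝ} (hσ : 0 < b + 1 - 2 * s.re) :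
    IntegrableOn (fun x : ℝ => ((1 - x) ^ (2 * s.re + 1) + 1) * (x ^ (b - 2 * s.re) + 1))
      (Ioo 0 1) := by
  obtain ⟨hr1, hr2⟩ := re_bounds hs
  have h1 := beta_int (α := 2 * s.re + 1) (β := b - 2 * s.re) (by linarith) (by linarith)
  have h2 := beta_int (α := 2 * s.re + 1) (β := 0) (by linarith) (by norm_num)
  have h3 := beta_int (α := 0) (β := b - 2 * s.re) (by norm_num) (by linarith)
  have h4 := beta_int (α := 0) (β := 0) (by norm_num) (by norm_num)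
  have h5 := ((h1.add h2).add h3).add h4
  refine h5.congr_fun (fun x _ => ?_) measurableSet_Ioo
  simp only [Pi.add_apply, Real.rpow_zero]
  ring

theorem B0_pos {s : ℂ} (hs : ‖s‖ < 1) {b : ℝ} (hb : 0 < b) (hσ : 0 < b + 1 - 2 * s.re) :
    0 < B0 s b := by
  obtain ⟨hr1, hr2⟩ := re_bounds hs
  rw [B0_eq hs hσ]
  have g1 := Real.Gamma_pos_of_pos (by linarith only [hr1] : 0 < 2 + 2 * s.re)
  have g2 := Real.Gamma_pos_of_pos hσ
  have g3 := Real.Gamma_pos_of_pos (by linarith : 0 < b + 3)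
  positivity

end LimX

open LimX

theorem lx_id {B : ℝ} (hB : B ≠ 0) (c I : ℝ) : c * B * (1 / B * I) = c * I := by
  rw [one_div, mul_assoc, mul_inv_cancel_left₀ hB]

theorem lx_id2 {m B : ℂ} (hm : m ≠ 0) (hB : B ≠ 0) (a x t : ℂ) :
    1 / m * (a / (B * m) * x * (B * t)) = 1 / m ^ 2 * (a * x * t) := by
  have e : 1 / m * (a / (B * m) * x * (B * t)) = (B * B⁻¹) * (m⁻¹ * m⁻¹ * (a * x * t)) := by
    rw [one_div, div_eq_mul_inv, mul_inv]
    ring
  rw [e, mul_inv_cancel₀ hB, one_mul, one_div, sq, mul_inv]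

theorem lc_id {m B : ℂ} (hm : m ≠ 0) (hB : B ≠ 0) (K a t u : ℂ) :
    K / (B * m ^ 2) * (1 / m * (a / (B * m) * (B * t * (B * u)))) = K / m ^ 4 * (a * (t * u)) := by
  have e : K / (B * m ^ 2) * (1 / m * (a / (B * m) * (B * t * (B * u))))
      = (B * B⁻¹) * ((B * B⁻¹) * (K * (m⁻¹) ^ 4 * (a * (t * u)))) := by
    rw [div_eq_mul_inv, one_div, div_eq_mul_inv, mul_inv, mul_inv, ← inv_pow]
    ring
  rw [e, mul_inv_cancel₀ hB, one_mul, one_mul, inv_pow, ← div_eq_mul_inv]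

theorem lc_id2 {B : ℝ} (hB : B ≠ 0) (a c I : ℝ) :
    a * B * (a * c ^ 2 * I) = (a * c * B) ^ 2 / B * I := by
  have e : (a * c * B) ^ 2 / B * I = a ^ 2 * c ^ 2 * I * (B * B⁻¹) * B := by
    rw [div_eq_mul_inv]
    ring
  rw [e, mul_inv_cancel₀ hB]
  ring

theorem st_id {c : ℂ} (hc : c ≠ 0) (a y r : ℂ) : c⁻¹ * (a * c * y * r) = a * y * r := by
  have e : c⁻¹ * (a * c * y * r) = (c⁻¹ * c) * (a * y * r) := by ring
  rw [e, inv_mul_cancel₀ hc, one_mul]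

theorem lim_x {s : ℂ} (hs0 : s ≠ 0) (hs : ‖s‖ < 1) {b : ℝ} (hb : 0 < b)
    (hσ : 0 < b + 1 - 2 * s.re) (D : ℕ) (p : ℕ → ℕ → ℝ) (l n : ℕ) :
    (∀ m i, i < m → Summable (fun j => (bD s b m j : ℂ) * (YD m j : ℂ) ^ l * rD s D p m i j)) ∧
    Tendsto (fun m : ℕ => (1 / (m : ℂ) ^ 2) * ∑ i ∈ Finset.range m,
      (aD s b m i : ℂ) * conj (XD s m n i)
        * ∑' j, (bD s b m j : ℂ) * (YD m j : ℂ) ^ l * rD s D p m i j) atTop
      (𝓝 ((Es s b * xln s b D p l n : ℝ) : ℂ)) := by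
  refine ⟨fun m i hi => summable_term hs hb hσ D p l hi, ?_⟩
  obtain ⟨ca, cb, hca, hcb, hcc, ha, hbt, _⟩ := asy_consts hs0 hs hb hσ
  obtain ⟨Ca, hCa, hal⟩ := alm_le hs hb hσ
  obtain ⟨Cp, hCp, hpl⟩ := psi_le hs hb hσ D p l
  obtain ⟨Cx, hCx, hxl⟩ := XD_le n
  have key : Tendsto (fun m : ℕ => ∫ x in Ioo (0 : ℝ) 1, ((alm s b m x : ℝ) : ℂ)
        * conj (XD s m n ⌊(m : ℝ) * x⌋₊) * psi s b D p l m ⌊(m : ℝ) * x⌋₊) atTop
      (𝓝 (∫ x in Ioo (0 : ℝ) 1, ((ca * alp s b x : ℝ) : ℂ) * conj ((((1 - x) ^ n : ℝ)) : ℂ)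
        * ((cb * rl b D p l x : ℝ) : ℂ))) := by
    apply tendsto_integral_filter_of_dominated_convergence
      (fun x => Ca * Cx * Cp * (((1 - x) ^ (2 * s.re + 1) + 1) * (x ^ (b - 2 * s.re) + 1)))
    · filter_upwards with m
      exact (step_meas m (fun i => ((aD s b m i / (m : ℝ) ^ (b + 1) : ℝ) : ℂ)
        * conj (XD s m n i) * psi s b D p l m i)).aestronglyMeasurable
    · filter_upwards [eventually_ge_atTop 1] with m hm
      filter_upwards [ae_restrict_mem measurableSet_Ioo] with x hx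
      obtain ⟨g0, g1⟩ := hal m hm x hx
      have g2 := hpl m hm x hx
      have g3 := hxl s hs m hm _ (floor_lt_m hm hx)
      have g4 : 0 ≤ ((1 - x) ^ (2 * s.re + 1) + 1) * (x ^ (b - 2 * s.re) + 1) := mul_nonneg
        (add_nonneg (Real.rpow_nonneg (by linarith only [hx.2] : 0 ≤ 1 - x) (2 * s.re + 1))
          zero_le_one)
        (add_nonneg (Real.rpow_nonneg hx.1.le (b - 2 * s.re)) zero_le_one)
      rw [norm_mul, norm_mul, RCLike.norm_conj, Complex.norm_real, Real.norm_eq_abs,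
        abs_of_nonneg g0]
      calc alm s b m x * ‖XD s m n ⌊(m : ℝ) * x⌋₊‖ * ‖psi s b D p l m ⌊(m : ℝ) * x⌋₊‖
          ≤ (Ca * (((1 - x) ^ (2 * s.re + 1) + 1) * (x ^ (b - 2 * s.re) + 1))) * Cx * Cp :=
            mul_le_mul (mul_le_mul g1 g3 (norm_nonneg _) (mul_nonneg hCa g4)) g2 (norm_nonneg _)
              (mul_nonneg (mul_nonneg hCa g4) hCx)
        _ = _ := by ring
    · exact (alm_bound_int hs hσ).const_mul _
    · filter_upwards [ae_restrict_mem measurableSet_Ioo] with x hx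
      exact (((Complex.continuous_ofReal.tendsto _).comp (ha x hx)).mul
        ((Complex.continuous_conj.tendsto _).comp (XD_tendsto n hx))).mul
        (psi_tendsto hs hb hσ D p l hbt hx)
  have e : ∫ x in Ioo (0 : ℝ) 1, ((ca * alp s b x : ℝ) : ℂ) * conj ((((1 - x) ^ n : ℝ)) : ℂ)
        * ((cb * rl b D p l x : ℝ) : ℂ) = ((Es s b * xln s b D p l n : ℝ) : ℂ) := by
    have hB := (B0_pos hs hb hσ).ne'
    have e1 : Es s b * xln s b D p l n
        = ca * cb * ∫ x in Ioo (0 : ℝ) 1, alp s b x * (1 - x) ^ n * rl b D p l x := by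
      unfold Es xln
      rw [hcc]
      have e2 : ∀ x : ℝ, ∫ y in Ioi (0 : ℝ), alp s b x * bet b y * (1 - x) ^ n
          * (1 / (1 + y)) ^ l * RR D p x y = alp s b x * (1 - x) ^ n * rl b D p l x := by
        intro x
        unfold rl
        rw [← integral_const_mul]
        congr 1
        funext y
        ring
      simp only [e2]
      exact lx_id hB _ _
    rw [e1, ← integral_const_mul, ← integral_complex_ofReal]
    congr 1
    funext x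
    rw [Complex.conj_ofReal]
    push_cast
    ring
  rw [e] at key
  refine key.congr' ?_
  filter_upwards [eventually_ge_atTop 1] with m hm
  have hm0 : (0 : ℝ) < m := by exact_mod_cast hm
  have hmc : (m : ℂ) ≠ 0 := by
    have : m ≠ 0 := by omega
    exact_mod_cast this
  have hmb : (((m : ℝ) ^ b : ℝ) : ℂ) ≠ 0 := by
    exact_mod_cast (Real.rpow_pos_of_pos hm0 _).ne'
  have h := step_fin hm (fun i => ((aD s b m i / (m : ℝ) ^ (b + 1) : ℝ) : ℂ)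
        * conj (XD s m n i) * psi s b D p l m i)
  unfold alm
  rw [h, Finset.mul_sum, Finset.mul_sum]
  apply Finset.sum_congr rfl
  intro i _
  unfold psi
  rw [Real.rpow_add hm0, Real.rpow_one]
  push_cast
  exact lx_id2 hmc hmb _ _ _

theorem lim_cross {s : ℂ} (hs0 : s ≠ 0) (hs : ‖s‖ < 1) {b : ℝ} (hb : 0 < b)
    (hσ : 0 < b + 1 - 2 * s.re) (D : ℕ) (p : ℕ → ℕ → ℝ) (l k : ℕ) :
    Tendsto (fun m : ℕ => ((KS s * pq (b + 3) (m - 1) / (m : ℝ) ^ 4 : ℝ) : ℂ)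
      * ∑ i ∈ Finset.range m, (aD s b m i : ℂ)
        * ((∑' j, (bD s b m j : ℂ) * (YD m j : ℂ) ^ l * rD s D p m i j)
          * conj (∑' j, (bD s b m j : ℂ) * (YD m j : ℂ) ^ k * rD s D p m i j))) atTop
      (𝓝 ((Es s b ^ 2 / B0 s b
        * ∫ x in Ioo (0 : ℝ) 1, alp s b x * rl b D p l x * rl b D p k x : ℝ) : ℂ)) := by
  obtain ⟨ca, cb, hca, hcb, hcc, ha, hbt, hK⟩ := asy_consts hs0 hs hb hσ
  obtain ⟨Ca, hCa, hal⟩ := alm_le hs hb hσ
  obtain ⟨Cp, hCp, hpl⟩ := psi_le hs hb hσ D p l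
  obtain ⟨Cq, hCq, hql⟩ := psi_le hs hb hσ D p k
  have key : Tendsto (fun m : ℕ => ∫ x in Ioo (0 : ℝ) 1, ((alm s b m x : ℝ) : ℂ)
        * (psi s b D p l m ⌊(m : ℝ) * x⌋₊ * conj (psi s b D p k m ⌊(m : ℝ) * x⌋₊))) atTop
      (𝓝 (∫ x in Ioo (0 : ℝ) 1, ((ca * alp s b x : ℝ) : ℂ)
        * (((cb * rl b D p l x : ℝ) : ℂ) * conj ((cb * rl b D p k x : ℝ) : ℂ)))) := by
    apply tendsto_integral_filter_of_dominated_convergence
      (fun x => Ca * Cp * Cq * (((1 - x) ^ (2 * s.re + 1) + 1) * (x ^ (b - 2 * s.re) + 1)))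
    · filter_upwards with m
      exact (step_meas m (fun i => ((aD s b m i / (m : ℝ) ^ (b + 1) : ℝ) : ℂ)
        * (psi s b D p l m i * conj (psi s b D p k m i)))).aestronglyMeasurable
    · filter_upwards [eventually_ge_atTop 1] with m hm
      filter_upwards [ae_restrict_mem measurableSet_Ioo] with x hx
      obtain ⟨g0, g1⟩ := hal m hm x hx
      have g2 := hpl m hm x hx
      have g3 := hql m hm x hx
      have g4 : 0 ≤ ((1 - x) ^ (2 * s.re + 1) + 1) * (x ^ (b - 2 * s.re) + 1) := mul_nonneg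
        (add_nonneg (Real.rpow_nonneg (by linarith only [hx.2] : 0 ≤ 1 - x) (2 * s.re + 1))
          zero_le_one)
        (add_nonneg (Real.rpow_nonneg hx.1.le (b - 2 * s.re)) zero_le_one)
      rw [norm_mul, norm_mul, RCLike.norm_conj, Complex.norm_real, Real.norm_eq_abs,
        abs_of_nonneg g0]
      calc alm s b m x * (‖psi s b D p l m ⌊(m : ℝ) * x⌋₊‖ * ‖psi s b D p k m ⌊(m : ℝ) * x⌋₊‖)
          ≤ (Ca * (((1 - x) ^ (2 * s.re + 1) + 1) * (x ^ (b - 2 * s.re) + 1))) * (Cp * Cq) :=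
            mul_le_mul g1 (mul_le_mul g2 g3 (norm_nonneg _) hCp)
              (mul_nonneg (norm_nonneg _) (norm_nonneg _)) (mul_nonneg hCa g4)
        _ = _ := by ring
    · exact (alm_bound_int hs hσ).const_mul _
    · filter_upwards [ae_restrict_mem measurableSet_Ioo] with x hx
      exact ((Complex.continuous_ofReal.tendsto _).comp (ha x hx)).mul
        ((psi_tendsto hs hb hσ D p l hbt hx).mul
          ((Complex.continuous_conj.tendsto _).comp (psi_tendsto hs hb hσ D p k hbt hx)))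
  have key2 := ((Complex.continuous_ofReal.tendsto _).comp hK).mul key
  have e : ((ca * B0 s b : ℝ) : ℂ) * ∫ x in Ioo (0 : ℝ) 1, ((ca * alp s b x : ℝ) : ℂ)
        * (((cb * rl b D p l x : ℝ) : ℂ) * conj ((cb * rl b D p k x : ℝ) : ℂ))
      = ((Es s b ^ 2 / B0 s b
        * ∫ x in Ioo (0 : ℝ) 1, alp s b x * rl b D p l x * rl b D p k x : ℝ) : ℂ) := by
    have hB := (B0_pos hs hb hσ).ne'
    have e1 : ∫ x in Ioo (0 : ℝ) 1, ((ca * alp s b x : ℝ) : ℂ)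
        * (((cb * rl b D p l x : ℝ) : ℂ) * conj ((cb * rl b D p k x : ℝ) : ℂ))
        = ((ca * cb ^ 2 * ∫ x in Ioo (0 : ℝ) 1, alp s b x * rl b D p l x * rl b D p k x : ℝ)
          : ℂ) := by
      rw [← integral_const_mul, ← integral_complex_ofReal]
      congr 1
      funext x
      rw [Complex.conj_ofReal]
      push_cast
      ring
    rw [e1, ← Complex.ofReal_mul]
    congr 1
    unfold Es
    rw [← hcc]
    exact lc_id2 hB _ _ _
  rw [e] at key2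
  refine key2.congr' ?_
  filter_upwards [eventually_ge_atTop 1] with m hm
  have hm0 : (0 : ℝ) < m := by exact_mod_cast hm
  have hmc : (m : ℂ) ≠ 0 := by
    have : m ≠ 0 := by omega
    exact_mod_cast this
  have hmb : (((m : ℝ) ^ b : ℝ) : ℂ) ≠ 0 := by
    exact_mod_cast (Real.rpow_pos_of_pos hm0 _).ne'
  have h := step_fin hm (fun i => ((aD s b m i / (m : ℝ) ^ (b + 1) : ℝ) : ℂ)
        * (psi s b D p l m i * conj (psi s b D p k m i)))
  unfold alm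
  simp only [Function.comp_apply]
  rw [h, Finset.mul_sum, Finset.mul_sum, Finset.mul_sum]
  apply Finset.sum_congr rfl
  intro i _
  unfold psi
  have e2 : (m : ℝ) ^ (b + 2) = (m : ℝ) ^ b * (m : ℝ) ^ 2 := by
    rw [Real.rpow_add hm0, Real.rpow_two]
  rw [e2, Real.rpow_add hm0, Real.rpow_one, map_mul, Complex.conj_ofReal]
  push_cast
  exact lc_id hmc hmb _ _ _ _

end Pool.Agent.M16.Helper24.HR2

end

section

set_option autoImplicit false

open MeasureTheory Set Metric Filter Topology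

open scoped Real ComplexConjugate

namespace Pool.Agent.M16.Helper39.MH

open Pool.Agent.M16.Helper22.Marshall (coeff SepHol LogPhi dcoeff GLe)

open Pool.Agent.M16.Helper39.Area (Ext phi)

namespace Bounds

theorem one_sub_sq_pos {z : ℂ} (hz : z ∈ ball (0 : ℂ) 1) : 0 < 1 - ‖z‖ ^ 2 := by
  have h1 : ‖z‖ < 1 := mem_ball_zero_iff.mp hz
  have h0 := norm_nonneg z
  nlinarith only [h1, h0]

theorem th_diff {F : ℂ → ℂ} (hF : DifferentiableOn ℂ F (ball 0 1)) :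
    DifferentiableOn ℂ (th F) (ball 0 1) := by
  have h : DifferentiableOn ℂ (fun z : ℂ => z * deriv F z) (ball 0 1) :=
    differentiableOn_id.mul (hF.deriv isOpen_ball)
  exact h

theorem tb_id {s q : ℝ} (hs : s ≠ 0) (hq : q ≠ 0) (A : ℝ) :
    q * s * (A / q / (s / 4)) = A * 4 := by
  have e : q * s * (A / q / (s / 4)) = A * 4 * (q * q⁻¹) * (s * s⁻¹) := by
    rw [div_div_eq_mul_div, div_eq_mul_inv, div_eq_mul_inv]
    ring
  rw [e, mul_inv_cancel₀ hq, mul_inv_cancel₀ hs, mul_one, mul_one]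

/-- the Euler operator raises the order of growth by one -/
theorem th_bound {F : ℂ → ℂ} (hF : DifferentiableOn ℂ F (ball 0 1)) {w : ℕ} {C : ℝ}
    (hC : ∀ z ∈ ball (0 : ℂ) 1, (1 - ‖z‖ ^ 2) ^ w * ‖F z‖ ≤ C) {z : ℂ}
    (hz : z ∈ ball (0 : ℂ) 1) :
    (1 - ‖z‖ ^ 2) ^ (w + 1) * ‖th F z‖ ≤ 4 ^ (w + 1) * C := by
  have hz1 : ‖z‖ < 1 := mem_ball_zero_iff.mp hz
  have hz0 := norm_nonneg z
  have hpos := one_sub_sq_pos hz
  set s : ℝ := 1 - ‖z‖ ^ 2 with hs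
  set r : ℝ := (1 - ‖z‖) / 2 with hr
  have hr0 : 0 < r := by rw [hr]; linarith only [hz1]
  have hrs : s / 4 ≤ r := by
    have h := mul_le_mul_of_nonneg_left (by linarith only [hz1] : 1 + ‖z‖ ≤ 2)
      (by linarith only [hz1] : 0 ≤ 1 - ‖z‖)
    linarith only [hr, hs, h, (by ring : (1 - ‖z‖) * (1 + ‖z‖) = 1 - ‖z‖ ^ 2)]
  have hs4 : 0 < s / 4 := div_pos hpos four_pos
  have hC0 : 0 ≤ C := le_trans (mul_nonneg (pow_nonneg hpos.le _) (norm_nonneg _)) (hC z hz)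
  have hsub : closedBall z r ⊆ ball (0 : ℂ) 1 := by
    intro ζ hζ
    have h1 : ‖ζ - z‖ ≤ r := by simpa [dist_eq_norm] using hζ
    have h2 : ‖ζ‖ ≤ ‖ζ - z‖ + ‖z‖ := by
      have := norm_add_le (ζ - z) z
      simpa using this
    rw [mem_ball_zero_iff]
    rw [hr] at h1
    linarith only [hr, hr0, h1, h2]
  have hd : DiffContOnCl ℂ F (ball z r) := by
    apply DifferentiableOn.diffContOnCl
    apply hF.mono
    exact closure_ball_subset_closedBall.trans hsub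
  have key : ∀ ζ ∈ sphere z r, ‖F ζ‖ ≤ 4 ^ w * C / s ^ w := by
    intro ζ hζ
    have hζb : ζ ∈ ball (0 : ℂ) 1 := hsub (sphere_subset_closedBall hζ)
    have h1 : ‖ζ - z‖ = r := by simpa [dist_eq_norm] using hζ
    have h2 : ‖ζ‖ ≤ ‖ζ - z‖ + ‖z‖ := by
      have := norm_add_le (ζ - z) z
      simpa using this
    have h3 : ‖ζ‖ ≤ (1 + ‖z‖) / 2 := by rw [h1, hr] at h2; linarith only [h2]
    have h4 : s / 4 ≤ 1 - ‖ζ‖ ^ 2 := by
      have h5 := norm_nonneg ζ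
      have h6 : ‖ζ‖ ^ 2 ≤ ‖ζ‖ := by
        have h7 := mul_le_mul_of_nonneg_left (by linarith only [h3, hz1] : ‖ζ‖ ≤ 1) h5
        rwa [mul_one, ← sq] at h7
      linarith only [h6, h3, hrs, hr]
    have h5 : (s / 4) ^ w * ‖F ζ‖ ≤ C :=
      le_trans (mul_le_mul_of_nonneg_right (pow_le_pow_left₀ hs4.le h4 w)
        (norm_nonneg _)) (hC ζ hζb)
    rw [div_pow, div_mul_eq_mul_div, div_le_iff₀ (pow_pos four_pos w)] at h5
    rw [le_div_iff₀ (pow_pos hpos w)]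
    linarith only [h5]
  have h7 := Complex.norm_deriv_le_of_forall_mem_sphere_norm_le hr0 hd key
  have h8 : ‖th F z‖ ≤ 4 ^ w * C / s ^ w / r := by
    unfold th
    rw [norm_mul]
    calc ‖z‖ * ‖deriv F z‖ ≤ 1 * ‖deriv F z‖ :=
          mul_le_mul_of_nonneg_right hz1.le (norm_nonneg _)
      _ = ‖deriv F z‖ := one_mul _
      _ ≤ _ := h7
  have h9 : 4 ^ w * C / s ^ w / r ≤ 4 ^ w * C / s ^ w / (s / 4) := by
    exact div_le_div_of_nonneg_left (div_nonneg (mul_nonneg (pow_pos four_pos w).le hC0)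
      (pow_pos hpos w).le) hs4 hrs
  calc s ^ (w + 1) * ‖th F z‖ ≤ s ^ (w + 1) * (4 ^ w * C / s ^ w / (s / 4)) :=
        mul_le_mul_of_nonneg_left (h8.trans h9) (pow_pos hpos _).le
    _ = 4 ^ (w + 1) * C := by
        rw [pow_succ s, tb_id hpos.ne' (pow_pos hpos w).ne', pow_succ]
        ring

theorem gg_diff1 {H : ℂ → ℂ} (hH : DifferentiableOn ℂ H (ball 0 1)) (n : ℕ) :
    DifferentiableOn ℂ (gg H n) (ball 0 1) := by
  induction n using Nat.strong_induction_on with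
  | _ n ih =>
    match n with
    | 0 =>
      have h : DifferentiableOn ℂ (fun z => -(th H z) / 2) (ball (0 : ℂ) 1) :=
        (Pool.Agent.M16.Helper39.MH.Bounds.th_diff hH).neg.div_const 2
      rw [gg]
      exact h
    | 1 =>
      have h0 := ih 0 (by norm_num)
      have h : DifferentiableOn ℂ (fun z => (th (gg H 0) z + (gg H 0 z) ^ 2) / 3)
          (ball (0 : ℂ) 1) := ((Pool.Agent.M16.Helper39.MH.Bounds.th_diff h0).add (h0.pow 2)).div_const 3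
      rw [gg]
      exact h
    | (n + 2) =>
      have h1 := ih (n + 1) (by omega)
      have h2 : ∀ i : Fin n, DifferentiableOn ℂ (fun z => gg H (i.1 + 1) z * gg H (n - i.1) z)
          (ball (0 : ℂ) 1) := fun i =>
        (ih (i.1 + 1) (by omega)).mul (ih (n - i.1) (by omega))
      have h : DifferentiableOn ℂ (fun z => (th (gg H (n + 1)) z
          - ∑ i : Fin n, gg H (i.1 + 1) z * gg H (n - i.1) z) / ((n : ℂ) + 4))
          (ball (0 : ℂ) 1) :=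
        ((Pool.Agent.M16.Helper39.MH.Bounds.th_diff h1).sub (DifferentiableOn.fun_sum fun i _ => h2 i)).div_const _
      rw [gg]
      exact h

/-- the hypotheses on `H` -/
def Hyp (H : ℂ → ℂ) : Prop :=
  DifferentiableOn ℂ H (ball 0 1) ∧ ∀ z ∈ ball (0 : ℂ) 1, (1 - ‖z‖ ^ 2) * ‖deriv H z‖ ≤ 28

theorem gg_bound_one (n : ℕ) : ∃ C : ℝ, 0 ≤ C ∧ ∀ H : ℂ → ℂ, Hyp H →
    ∀ z ∈ ball (0 : ℂ) 1, (1 - ‖z‖ ^ 2) ^ (n + 1) * ‖gg H n z‖ ≤ C := by
  induction n using Nat.strong_induction_on with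
  | _ n ih =>
    match n with
    | 0 =>
      refine ⟨14, by norm_num, fun H hH z hz => ?_⟩
      have h1 := hH.2 z hz
      have hz1 : ‖z‖ < 1 := mem_ball_zero_iff.mp hz
      have hpos := one_sub_sq_pos hz
      have e : gg H 0 z = -(th H z) / 2 := by rw [gg]
      have h2 : ‖gg H 0 z‖ ≤ ‖deriv H z‖ / 2 := by
        rw [e, norm_div, norm_neg]
        unfold th
        rw [norm_mul]
        have h3 : ‖z‖ * ‖deriv H z‖ ≤ 1 * ‖deriv H z‖ :=
          mul_le_mul_of_nonneg_right hz1.le (norm_nonneg _)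
        have h4 : ‖(2 : ℂ)‖ = 2 := by simp
        rw [h4]
        linarith only [h3]
      have h3 : (1 - ‖z‖ ^ 2) * ‖gg H 0 z‖ ≤ (1 - ‖z‖ ^ 2) * (‖deriv H z‖ / 2) :=
        mul_le_mul_of_nonneg_left h2 hpos.le
      simp only [zero_add, pow_one]
      linarith only [h1, h3]
    | 1 =>
      obtain ⟨C, hC0, hC⟩ := ih 0 (by norm_num)
      refine ⟨(4 ^ (1 + 1) * C + C * C) / 3, by positivity, fun H hH z hz => ?_⟩
      have hpos := one_sub_sq_pos hz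
      have hd := gg_diff1 hH.1 0
      have h1 := th_bound hd (w := 1) (C := C) (fun z hz => by simpa using hC H hH z hz) hz
      have h2 := hC H hH z hz
      have e : gg H 1 z = (th (gg H 0) z + (gg H 0 z) ^ 2) / 3 := by conv_lhs => rw [gg]
      have h3 : ‖gg H 1 z‖ ≤ (‖th (gg H 0) z‖ + ‖gg H 0 z‖ * ‖gg H 0 z‖) / 3 := by
        rw [e, norm_div]
        have h4 : ‖(3 : ℂ)‖ = 3 := by simp
        rw [h4]
        apply div_le_div_of_nonneg_right _ (by norm_num)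
        calc ‖th (gg H 0) z + gg H 0 z ^ 2‖ ≤ ‖th (gg H 0) z‖ + ‖gg H 0 z ^ 2‖ := norm_add_le _ _
          _ = ‖th (gg H 0) z‖ + ‖gg H 0 z‖ * ‖gg H 0 z‖ := by rw [norm_pow, sq]
      have h5 : ((1 - ‖z‖ ^ 2) ^ (0 + 1) * ‖gg H 0 z‖) * ((1 - ‖z‖ ^ 2) ^ (0 + 1) * ‖gg H 0 z‖)
          ≤ C * C := mul_le_mul h2 h2 (mul_nonneg (pow_pos hpos _).le (norm_nonneg _)) hC0
      calc (1 - ‖z‖ ^ 2) ^ (1 + 1) * ‖gg H 1 z‖
          ≤ (1 - ‖z‖ ^ 2) ^ (1 + 1) * ((‖th (gg H 0) z‖ + ‖gg H 0 z‖ * ‖gg H 0 z‖) / 3) :=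
            mul_le_mul_of_nonneg_left h3 (pow_pos hpos _).le
        _ = ((1 - ‖z‖ ^ 2) ^ (1 + 1) * ‖th (gg H 0) z‖
            + ((1 - ‖z‖ ^ 2) ^ (0 + 1) * ‖gg H 0 z‖)
              * ((1 - ‖z‖ ^ 2) ^ (0 + 1) * ‖gg H 0 z‖)) / 3 := by ring
        _ ≤ (4 ^ (1 + 1) * C + C * C) / 3 := by
            apply div_le_div_of_nonneg_right _ (by norm_num)
            linarith only [h1, h5]
    | (n + 2) =>
      have hex : ∀ k : Fin (n + 2), ∃ C : ℝ, 0 ≤ C ∧ ∀ H : ℂ → ℂ, Hyp H →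
          ∀ z ∈ ball (0 : ℂ) 1, (1 - ‖z‖ ^ 2) ^ (k.1 + 1) * ‖gg H k.1 z‖ ≤ C :=
        fun k => ih k.1 k.2
      choose B hB0 hB using hex
      let B' : ℕ → ℝ := fun k => if h : k < n + 2 then B ⟨k, h⟩ else 0
      have hB'0 : ∀ k, 0 ≤ B' k := by
        intro k
        simp only [B']
        split_ifs with h
        · exact hB0 _
        · exact le_refl _
      have hB' : ∀ k, k < n + 2 → ∀ H : ℂ → ℂ, Hyp H → ∀ z ∈ ball (0 : ℂ) 1,
          (1 - ‖z‖ ^ 2) ^ (k + 1) * ‖gg H k z‖ ≤ B' k := by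
        intro k hk H hH z hz
        simp only [B', dif_pos hk]
        exact hB ⟨k, hk⟩ H hH z hz
      refine ⟨(4 ^ (n + 1 + 1 + 1) * B' (n + 1)
        + ∑ i : Fin n, B' (i.1 + 1) * B' (n - i.1)) / ((n : ℝ) + 4), ?_, fun H hH z hz => ?_⟩
      · have : 0 ≤ ∑ i : Fin n, B' (i.1 + 1) * B' (n - i.1) :=
          Finset.sum_nonneg fun i _ => mul_nonneg (hB'0 _) (hB'0 _)
        have h2 := hB'0 (n + 1)
        exact div_nonneg (add_nonneg (mul_nonneg (pow_pos four_pos _).le h2) this)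
          (add_nonneg (Nat.cast_nonneg n) four_pos.le)
      · have hpos := one_sub_sq_pos hz
        have hd := gg_diff1 hH.1 (n + 1)
        have h1 := th_bound hd (w := n + 1 + 1) (C := B' (n + 1))
          (fun z hz => hB' (n + 1) (by omega) H hH z hz) hz
        have e : gg H (n + 2) z = (th (gg H (n + 1)) z
          - ∑ i : Fin n, gg H (i.1 + 1) z * gg H (n - i.1) z) / ((n : ℂ) + 4) := by rw [gg]
        have h4 : ‖(n : ℂ) + 4‖ = (n : ℝ) + 4 := by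
          have : ((n : ℂ) + 4) = (((n : ℝ) + 4 : ℝ) : ℂ) := by push_cast; ring
          rw [this, Complex.norm_real, Real.norm_of_nonneg (by positivity)]
        have h3 : ‖gg H (n + 2) z‖ ≤ (‖th (gg H (n + 1)) z‖
            + ∑ i : Fin n, ‖gg H (i.1 + 1) z‖ * ‖gg H (n - i.1) z‖) / ((n : ℝ) + 4) := by
          rw [e, norm_div, h4]
          apply div_le_div_of_nonneg_right _ (by positivity)
          refine (norm_sub_le _ _).trans ?_
          gcongr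
          refine (norm_sum_le _ _).trans ?_
          apply Finset.sum_le_sum
          intro i _
          rw [norm_mul]
        have h5 : ∀ i : Fin n, (1 - ‖z‖ ^ 2) ^ (n + 2 + 1)
            * (‖gg H (i.1 + 1) z‖ * ‖gg H (n - i.1) z‖) ≤ B' (i.1 + 1) * B' (n - i.1) := by
          intro i
          have hi := i.2
          have e1 : n + 2 + 1 = (i.1 + 1 + 1) + (n - i.1 + 1) := by omega
          have h6 := hB' (i.1 + 1) (by omega) H hH z hz
          have h7 := hB' (n - i.1) (by omega) H hH z hz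
          calc (1 - ‖z‖ ^ 2) ^ (n + 2 + 1) * (‖gg H (i.1 + 1) z‖ * ‖gg H (n - i.1) z‖)
              = ((1 - ‖z‖ ^ 2) ^ (i.1 + 1 + 1) * ‖gg H (i.1 + 1) z‖)
                * ((1 - ‖z‖ ^ 2) ^ (n - i.1 + 1) * ‖gg H (n - i.1) z‖) := by
                rw [e1, pow_add, mul_mul_mul_comm]
            _ ≤ B' (i.1 + 1) * B' (n - i.1) :=
                mul_le_mul h6 h7 (mul_nonneg (pow_pos hpos _).le (norm_nonneg _)) (hB'0 _)
        calc (1 - ‖z‖ ^ 2) ^ (n + 2 + 1) * ‖gg H (n + 2) z‖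
            ≤ (1 - ‖z‖ ^ 2) ^ (n + 2 + 1) * ((‖th (gg H (n + 1)) z‖
              + ∑ i : Fin n, ‖gg H (i.1 + 1) z‖ * ‖gg H (n - i.1) z‖) / ((n : ℝ) + 4)) :=
              mul_le_mul_of_nonneg_left h3 (pow_pos hpos _).le
          _ = ((1 - ‖z‖ ^ 2) ^ (n + 1 + 1 + 1) * ‖th (gg H (n + 1)) z‖
              + ∑ i : Fin n, (1 - ‖z‖ ^ 2) ^ (n + 2 + 1)
                * (‖gg H (i.1 + 1) z‖ * ‖gg H (n - i.1) z‖)) / ((n : ℝ) + 4) := by
              rw [← Finset.mul_sum]; ring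
          _ ≤ _ := by
              apply div_le_div_of_nonneg_right _ (by positivity)
              exact add_le_add h1 (Finset.sum_le_sum fun i _ => h5 i)

end Bounds

open Bounds

theorem gg_bound : ∃ Cb : ℕ → ℝ, (∀ n, 0 ≤ Cb n) ∧ ∀ H : ℂ → ℂ,
    DifferentiableOn ℂ H (ball 0 1) → (∀ z ∈ ball (0 : ℂ) 1, (1 - ‖z‖ ^ 2) * ‖deriv H z‖ ≤ 28) →
    ∀ (n : ℕ), ∀ z ∈ ball (0 : ℂ) 1, ‖cc H z n‖ ≤ Cb n := by
  choose Cb h0 h using gg_bound_one
  refine ⟨Cb, h0, fun H hH hB n z hz => ?_⟩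
  have hpos := one_sub_sq_pos hz
  have h1 := h n H ⟨hH, hB⟩ z hz
  unfold cc
  rw [norm_mul, Complex.norm_real, Real.norm_of_nonneg (by positivity)]
  exact h1

end Pool.Agent.M16.Helper39.MH

end

end

section

namespace Pool.Agent.M16.Helper22.Half
end Pool.Agent.M16.Helper22.Half
namespace Pool.Agent.M16.Helper39.MH
end Pool.Agent.M16.Helper39.MH
namespace Pool.Agent.M16.Helper3.HR2
end Pool.Agent.M16.Helper3.HR2
namespace Pool.Agent.M16.Helper54.HR2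
end Pool.Agent.M16.Helper54.HR2
namespace Pool.Agent.M16.Helper12.HR2
end Pool.Agent.M16.Helper12.HR2

section

set_option autoImplicit false

open MeasureTheory Set Filter Topology

namespace Pool.Agent.M16.Helper3.HR2

theorem floor_cell {m : ℕ} (hm : 1 ≤ m) (j : ℕ) {y : ℝ}
    (hy : y ∈ Ico ((j : ℝ) / m) (((j : ℝ) + 1) / m)) : ⌊(m : ℝ) * y⌋₊ = j := by
  have h0 : (0 : ℝ) < m := by exact_mod_cast hm
  obtain ⟨h1, h2⟩ := hy
  rw [div_le_iff₀ h0] at h1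
  rw [lt_div_iff₀ h0] at h2
  have h3 : (0 : ℝ) ≤ (m : ℝ) * y := le_trans (Nat.cast_nonneg j) (by linarith only [h1])
  rw [Nat.floor_eq_iff h3]
  constructor <;> linarith only [h1, h2]

theorem cells_disjoint {m : ℕ} (hm : 1 ≤ m) :
    Pairwise (Function.onFun Disjoint fun j : ℕ => Ico ((j : ℝ) / m) (((j : ℝ) + 1) / m)) := by
  intro i j hij
  rw [Function.onFun, Set.disjoint_left]
  intro y hi hj
  exact hij ((floor_cell hm i hi).symm.trans (floor_cell hm j hj))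

theorem mem_cell {m : ℕ} (hm : 1 ≤ m) {y : ℝ} (hy : 0 ≤ y) :
    y ∈ Ico ((⌊(m : ℝ) * y⌋₊ : ℝ) / m) (((⌊(m : ℝ) * y⌋₊ : ℝ) + 1) / m) := by
  have h0 : (0 : ℝ) < m := by exact_mod_cast hm
  constructor
  · rw [div_le_iff₀ h0]
    have := Nat.floor_le (show (0 : ℝ) ≤ (m : ℝ) * y by positivity)
    linarith only [this]
  · rw [lt_div_iff₀ h0]
    have := Nat.lt_floor_add_one ((m : ℝ) * y)
    linarith only [this]

theorem iUnion_cells {m : ℕ} (hm : 1 ≤ m) :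
    (⋃ j : ℕ, Ico ((j : ℝ) / m) (((j : ℝ) + 1) / m)) = Ici (0 : ℝ) := by
  ext y
  simp only [mem_iUnion, mem_Ici]
  constructor
  · rintro ⟨j, hj⟩
    exact le_trans (by positivity) hj.1
  · intro hy
    exact ⟨_, mem_cell hm hy⟩

variable {E : Type*} [NormedAddCommGroup E] [NormedSpace ℝ E] [CompleteSpace E]

theorem cell_integral {m : ℕ} (hm : 1 ≤ m) (g : ℕ → E) (j : ℕ) :
    ∫ y in Ico ((j : ℝ) / m) (((j : ℝ) + 1) / m), g ⌊(m : ℝ) * y⌋₊ = (1 / (m : ℝ)) • g j := by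
  have h0 : (0 : ℝ) < m := by exact_mod_cast hm
  rw [setIntegral_congr_fun measurableSet_Ico (g := fun _ => g j)
    (fun y hy => by simp only [floor_cell hm j hy])]
  rw [setIntegral_const, Real.volume_real_Ico_of_le (by gcongr; linarith)]
  congr 1
  ring

theorem hasSum_step {m : ℕ} (hm : 1 ≤ m) {g : ℕ → E}
    (hg : IntegrableOn (fun y : ℝ => g ⌊(m : ℝ) * y⌋₊) (Ioi 0)) :
    HasSum (fun j => (1 / (m : ℝ)) • g j) (∫ y in Ioi (0 : ℝ), g ⌊(m : ℝ) * y⌋₊) := by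
  have h := hasSum_integral_iUnion (μ := volume) (f := fun y : ℝ => g ⌊(m : ℝ) * y⌋₊)
    (s := fun j : ℕ => Ico ((j : ℝ) / m) (((j : ℝ) + 1) / m)) (fun j => measurableSet_Ico)
    (cells_disjoint hm) (by
      rw [iUnion_cells hm]
      exact (integrableOn_Ici_iff_integrableOn_Ioi (μ := volume)).mpr hg)
  rw [iUnion_cells hm, integral_Ici_eq_integral_Ioi] at h
  simpa only [cell_integral hm] using h

theorem sum_step {m : ℕ} (hm : 1 ≤ m) (g : ℕ → E) :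
    ∫ x in Ioo (0 : ℝ) 1, g ⌊(m : ℝ) * x⌋₊ = (1 / (m : ℝ)) • ∑ i ∈ Finset.range m, g i := by
  have h0 : (0 : ℝ) < m := by exact_mod_cast hm
  rw [← integral_Ico_eq_integral_Ioo]
  have hU : Ico (0 : ℝ) 1 = ⋃ i ∈ Finset.range m, Ico ((i : ℝ) / m) (((i : ℝ) + 1) / m) := by
    ext x
    simp only [mem_iUnion, Finset.mem_range, exists_prop]
    constructor
    · rintro ⟨h1, h2⟩
      refine ⟨⌊(m : ℝ) * x⌋₊, ?_, mem_cell hm h1⟩
      rw [Nat.floor_lt (by positivity)]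
      nlinarith only [h0, h2]
    · rintro ⟨i, hi, hx⟩
      refine ⟨le_trans (by positivity) hx.1, lt_of_lt_of_le hx.2 ?_⟩
      rw [div_le_one h0]
      exact_mod_cast hi
  rw [hU, integral_biUnion_finset _ (fun i _ => measurableSet_Ico)
    (fun i _ j _ hij => cells_disjoint hm hij)]
  · rw [Finset.smul_sum]
    exact Finset.sum_congr rfl fun i _ => cell_integral hm g i
  · intro i _
    refine (integrableOn_const (C := g i) (by
      rw [Real.volume_Ico]; exact ENNReal.ofReal_ne_top)).congr_fun ?_ measurableSet_Ico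
    intro y hy
    simp only [floor_cell hm i hy]

/-- lower bound for a double integral of a nonnegative step function -/
theorem sum_le_double {m : ℕ} (hm : 1 ≤ m) (f : ℕ → ℕ → ℝ) (hf : ∀ i < m, ∀ j, 0 ≤ f i j)
    (hint : ∀ i < m, IntegrableOn (fun y : ℝ => f i ⌊(m : ℝ) * y⌋₊) (Ioi 0)) (J : ℕ) :
    1 / (m : ℝ) ^ 2 * ∑ j ∈ Finset.range J, ∑ i ∈ Finset.range m, f i j
      ≤ ∫ x in Ioo (0 : ℝ) 1, ∫ y in Ioi (0 : ℝ), f ⌊(m : ℝ) * x⌋₊ ⌊(m : ℝ) * y⌋₊ := by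
  have h0 : (0 : ℝ) < m := by exact_mod_cast hm
  have h1 := sum_step hm (fun i => ∫ y in Ioi (0 : ℝ), f i ⌊(m : ℝ) * y⌋₊)
  rw [h1, Finset.sum_comm, smul_eq_mul, Finset.mul_sum, Finset.mul_sum]
  refine Finset.sum_le_sum fun i hi => ?_
  have hi' := Finset.mem_range.mp hi
  have h2 := hasSum_step hm (hint i hi')
  have h3 := sum_le_hasSum (Finset.range J) (fun j _ => by
    rw [smul_eq_mul]
    exact mul_nonneg (by positivity) (hf i hi' j)) h2
  simp only [smul_eq_mul] at h3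
  rw [← Finset.mul_sum] at h3
  calc 1 / (m : ℝ) ^ 2 * ∑ j ∈ Finset.range J, f i j
      = 1 / (m : ℝ) * (1 / (m : ℝ) * ∑ j ∈ Finset.range J, f i j) := by
        field_simp
    _ ≤ _ := by gcongr

/-- step functions are measurable -/
theorem measurable_step {F : Type*} [MeasurableSpace F] (m : ℕ) (g : ℕ → F) :
    Measurable (fun y : ℝ => g ⌊(m : ℝ) * y⌋₊) :=
  (measurable_of_countable g).comp (Nat.measurable_floor.comp (measurable_id.const_mul _))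

theorem measurable_step2 {F : Type*} [MeasurableSpace F] (m : ℕ) (g : ℕ → ℕ → F) :
    Measurable (fun z : ℝ × ℝ => g ⌊(m : ℝ) * z.1⌋₊ ⌊(m : ℝ) * z.2⌋₊) := by
  have h : Measurable (fun q : ℕ × ℕ => g q.1 q.2) := measurable_of_countable _
  exact h.comp ((Nat.measurable_floor.comp (measurable_fst.const_mul _)).prodMk
    (Nat.measurable_floor.comp (measurable_snd.const_mul _)))

/-- the beta density is integrable -/
theorem integrable_beta {p q : ℝ} (hp : -1 < p) (hq : -1 < q) :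
    IntegrableOn (fun x : ℝ => (1 - x) ^ p * x ^ q) (Ioo 0 1) := by
  have h := Complex.betaIntegral_convergent (u := ((q + 1 : ℝ) : ℂ)) (v := ((p + 1 : ℝ) : ℂ))
    (by simp; linarith) (by simp; linarith only [hp])
  have h1 := h.norm
  rw [intervalIntegrable_iff_integrableOn_Ioo_of_le zero_le_one] at h1
  refine h1.congr_fun ?_ measurableSet_Ioo
  intro x hx
  have hx1 : 0 < 1 - x := by linarith [hx.2]
  simp only [norm_mul]
  rw [show (1 - (x : ℂ)) = ((1 - x : ℝ) : ℂ) by push_cast; ring,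
    Complex.norm_cpow_eq_rpow_re_of_pos hx.1, Complex.norm_cpow_eq_rpow_re_of_pos hx1]
  simp only [Complex.sub_re, Complex.ofReal_re, Complex.one_re, add_sub_cancel_right]
  ring

/-- the dominating function in the variable `x` -/
theorem integrable_domx {p q t : ℝ} (hp : -1 < p) (ht : t < 1) (hq : -1 < q - t) :
    IntegrableOn (fun x : ℝ => ((1 - x) ^ p + 1) * (x ^ q + 1) * x ^ (-t)) (Ioo 0 1) := by
  have h1 := integrable_beta hp hq
  have h2 := integrable_beta (q := -t) hp (by linarith)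
  have h3 := integrable_beta (p := 0) (by norm_num) hq
  have h4 := integrable_beta (p := 0) (q := -t) (by norm_num) (by linarith)
  refine (((h1.add h2).add h3).add h4).congr_fun ?_ measurableSet_Ioo
  intro x hx
  simp only [Pi.add_apply, Real.rpow_zero, one_mul]
  rw [Real.rpow_sub hx.1, Real.rpow_neg hx.1.le]
  field_simp
  ring

theorem integrable_tail {c : ℝ} (hc : 0 < c) :
    IntegrableOn (fun y : ℝ => (1 + y) ^ (-c - 1)) (Ioi 0) := by
  have h := integrableOn_add_rpow_Ioi_of_lt (a := -c - 1) (m := 1) (c := 0) (by linarith)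
    (by norm_num)
  simpa only [add_comm] using h

theorem integral_tail {c : ℝ} (hc : 0 < c) :
    ∫ y in Ioi (0 : ℝ), (1 + y) ^ (-c - 1) = 1 / c := by
  have h := integral_Ioi_of_hasDerivAt_of_tendsto (a := 0) (m := 0)
    (f := fun y : ℝ => -(1 + y) ^ (-c) / c) (f' := fun y : ℝ => (1 + y) ^ (-c - 1)) ?_ ?_
    (integrable_tail hc) ?_
  · rw [h]
    simp
    rw [neg_div, neg_neg, one_div]
  · refine ContinuousAt.continuousWithinAt ?_
    refine ContinuousAt.div_const (ContinuousAt.neg ?_) _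
    exact ContinuousAt.rpow_const (by fun_prop) (Or.inl (by norm_num))
  · intro y hy
    have hy' : (0 : ℝ) < 1 + y := by have := mem_Ioi.mp hy; linarith only [this]
    have h1 : HasDerivAt (fun y : ℝ => (1 + y) ^ (-c)) (-c * (1 + y) ^ (-c - 1)) y := by
      have h2 : HasDerivAt (fun y : ℝ => 1 + y) 1 y := by
        simpa using (hasDerivAt_id y).const_add 1
      have h3 := h2.rpow_const (p := -c) (Or.inl hy'.ne')
      rw [show -c * (1 + y) ^ (-c - 1) = 1 * -c * (1 + y) ^ (-c - 1) by ring]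
      exact h3
    have h4 := (h1.neg).div_const c
    have h5 : -(-c * (1 + y) ^ (-c - 1)) / c = (1 + y) ^ (-c - 1) := by
      rw [neg_mul, neg_neg, mul_div_cancel_left₀ _ hc.ne']
    rw [h5] at h4
    exact h4
  · have h1 : Tendsto (fun y : ℝ => (1 + y) ^ (-c)) atTop (𝓝 0) :=
      (tendsto_rpow_neg_atTop hc).comp (tendsto_atTop_add_const_left _ _ tendsto_id)
    have h2 := (h1.neg).div_const c
    simpa using h2

/-- the dominating function in the variable `y` -/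
theorem integrable_domy {b t : ℝ} (hb : 0 < b) (ht : 0 < t) (ht1 : t ≤ 1) :
    IntegrableOn (fun y : ℝ => (1 + y) ^ (-b - 2) * y ^ (t - 1)) (Ioi 0) := by
  rw [← Ioc_union_Ioi_eq_Ioi (zero_le_one (α := ℝ))]
  refine IntegrableOn.union ?_ ?_
  · have h : IntegrableOn (fun y : ℝ => y ^ (t - 1)) (Ioc 0 1) := by
      have := intervalIntegral.intervalIntegrable_rpow' (a := 0) (b := 1) (r := t - 1)
        (by linarith only [ht])
      rwa [intervalIntegrable_iff_integrableOn_Ioc_of_le zero_le_one] at this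
    refine Integrable.mono' h ?_ ?_
    · refine ContinuousOn.aestronglyMeasurable ?_ measurableSet_Ioc
      intro y hy
      have hy0 := hy.1
      refine ContinuousAt.continuousWithinAt ?_
      refine ContinuousAt.mul ?_ ?_
      · exact ContinuousAt.rpow_const (by fun_prop) (Or.inl (by linarith))
      · exact ContinuousAt.rpow_const (by fun_prop) (Or.inl hy0.ne')
    · filter_upwards [ae_restrict_mem measurableSet_Ioc] with y hy
      have hy0 := hy.1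
      rw [Real.norm_of_nonneg (by positivity)]
      have h1 : (1 + y) ^ (-b - 2) ≤ 1 :=
        Real.rpow_le_one_of_one_le_of_nonpos (by linarith) (by linarith)
      have h2 : 0 ≤ y ^ (t - 1) := by positivity
      nlinarith only [h1, h2]
  · have h : IntegrableOn (fun y : ℝ => (1 + y) ^ (-b - 1)) (Ioi 1) :=
      (integrable_tail hb).mono_set (Ioi_subset_Ioi zero_le_one)
    refine Integrable.mono' h ?_ ?_
    · refine ContinuousOn.aestronglyMeasurable ?_ measurableSet_Ioi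
      intro y hy
      have hy0 : (0 : ℝ) < y := lt_trans one_pos hy
      refine ContinuousAt.continuousWithinAt ?_
      refine ContinuousAt.mul ?_ ?_
      · exact ContinuousAt.rpow_const (by fun_prop) (Or.inl (by linarith))
      · exact ContinuousAt.rpow_const (by fun_prop) (Or.inl hy0.ne')
    · filter_upwards [ae_restrict_mem measurableSet_Ioi] with y hy
      have hy1 : (1 : ℝ) < y := hy
      have hy0 : (0 : ℝ) < y := by linarith
      rw [Real.norm_of_nonneg (by positivity)]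
      have h1 : y ^ (t - 1) ≤ 1 :=
        Real.rpow_le_one_of_one_le_of_nonpos hy1.le (by linarith)
      have h2 : (1 + y) ^ (-b - 2) ≤ (1 + y) ^ (-b - 1) :=
        Real.rpow_le_rpow_of_exponent_le (by linarith) (by linarith)
      have h3 : 0 ≤ (1 + y) ^ (-b - 2) := by positivity
      nlinarith only [h1, h2, h3]

/-- splitting of the singularity -/
theorem inv_add_le {x y t : ℝ} (hx : 0 < x) (hy : 0 < y) (ht : 0 ≤ t) (ht1 : t ≤ 1) :
    1 / (x + y) ≤ x ^ (-t) * y ^ (t - 1) := by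
  have h := Real.geom_mean_le_arith_mean2_weighted (w₁ := t) (w₂ := 1 - t) (p₁ := x) (p₂ := y)
    ht (by linarith) hx.le hy.le (by ring)
  have h1 : x ^ t * y ^ (1 - t) ≤ x + y := by nlinarith only [hx, hy, ht, ht1, h]
  rw [div_le_iff₀ (by linarith)]
  have h2 : x ^ (-t) * y ^ (t - 1) * (x ^ t * y ^ (1 - t)) = 1 := by
    rw [show x ^ (-t) * y ^ (t - 1) * (x ^ t * y ^ (1 - t))
      = (x ^ (-t) * x ^ t) * (y ^ (t - 1) * y ^ (1 - t)) by ring, ← Real.rpow_add hx,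
      ← Real.rpow_add hy]
    simp
  calc (1 : ℝ) = x ^ (-t) * y ^ (t - 1) * (x ^ t * y ^ (1 - t)) := h2.symm
    _ ≤ x ^ (-t) * y ^ (t - 1) * (x + y) := by gcongr

end Pool.Agent.M16.Helper3.HR2

end

section

set_option autoImplicit false

open MeasureTheory Set Metric Filter Topology

open scoped Real ComplexConjugate

namespace Pool.Agent.M16.Helper24.HR2

open Pool.Agent.M16.Helper22.Half

open Pool.Agent.M16.Helper39.MH

open Pool.Agent.M16.Helper3.HR2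

namespace LimHS

theorem YD_nonneg (m j : ℕ) : 0 ≤ YD m j := by
  unfold YD
  positivity

theorem YD_le_one (m j : ℕ) : YD m j ≤ 1 := by
  unfold YD
  rw [div_le_one (by positivity)]
  have : (0 : ℝ) ≤ j := Nat.cast_nonneg j
  linarith

theorem floor_div_tendsto {y : ℝ} (hy : 0 ≤ y) :
    Tendsto (fun m : ℕ => (⌊(m : ℝ) * y⌋₊ : ℝ) / m) atTop (𝓝 y) := by
  have h := (tendsto_nat_floor_mul_div_atTop (R := ℝ) hy).comp tendsto_natCast_atTop_atTop
  refine h.congr fun m => ?_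
  simp only [Function.comp, mul_comm]

theorem YD_tendsto {y : ℝ} (hy : 0 ≤ y) :
    Tendsto (fun m : ℕ => YD m ⌊(m : ℝ) * y⌋₊) atTop (𝓝 (1 / (1 + y))) := by
  have h1 := floor_div_tendsto hy
  have h2 : Tendsto (fun m : ℕ => (1 : ℝ) / m) atTop (𝓝 0) := tendsto_one_div_atTop_nhds_zero_nat
  have h3 : Tendsto (fun m : ℕ => 1 / (1 + 1 / (m : ℝ) + (⌊(m : ℝ) * y⌋₊ : ℝ) / m)) atTop
      (𝓝 (1 / (1 + 0 + y))) :=
    Tendsto.div tendsto_const_nhds ((tendsto_const_nhds.add h2).add h1) (by positivity)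
  rw [add_zero] at h3
  refine h3.congr' ?_
  filter_upwards [eventually_ge_atTop 1] with m hm
  have h0 : (0 : ℝ) < m := by exact_mod_cast hm
  unfold YD
  field_simp

theorem rD_tendsto {s : ℂ} (D : ℕ) (p : ℕ → ℕ → ℝ) {x y : ℝ} (hx : x ∈ Ioo (0 : ℝ) 1)
    (hy : 0 < y) : Tendsto (fun m : ℕ => rD s D p m ⌊(m : ℝ) * x⌋₊ ⌊(m : ℝ) * y⌋₊) atTop
      (𝓝 ((RR D p x y : ℝ) : ℂ)) := by
  unfold rD RR kp
  rw [Complex.ofReal_sub, Complex.ofReal_sum]
  refine (kD_tendsto hx.1 hy).sub (tendsto_finsetSum _ fun n _ => ?_)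
  rw [Complex.ofReal_sum]
  refine tendsto_finsetSum _ fun l _ => ?_
  have h1 := XD_tendsto (s := s) n hx
  have h2 : Tendsto (fun m : ℕ => ((YD m ⌊(m : ℝ) * y⌋₊ : ℝ) : ℂ)) atTop
      (𝓝 ((1 / (1 + y) : ℝ) : ℂ)) :=
    (Complex.continuous_ofReal.tendsto _).comp (YD_tendsto hy.le)
  have h3 := (h1.const_mul (p n l : ℂ)).mul (h2.pow (l + 1))
  have h4 : ((p n l * (1 - x) ^ n * (1 / (1 + y)) ^ (l + 1) : ℝ) : ℂ)
      = (p n l : ℂ) * (((1 - x) ^ n : ℝ) : ℂ) * ((1 / (1 + y) : ℝ) : ℂ) ^ (l + 1) := by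
    push_cast
    ring
  rw [h4]
  exact h3

theorem floor_lt_m {m : ℕ} (hm : 1 ≤ m) {x : ℝ} (hx : x ∈ Ioo (0 : ℝ) 1) :
    ⌊(m : ℝ) * x⌋₊ < m := by
  have h0 : (0 : ℝ) < m := by exact_mod_cast hm
  rw [Nat.floor_lt (by have := hx.1; positivity)]
  have := hx.2
  nlinarith only [h0, this]

/-- the polynomial part of the kernel is bounded -/
theorem polD_le {s : ℂ} (hs : ‖s‖ < 1) (D : ℕ) (p : ℕ → ℕ → ℝ) : ∃ P : ℝ, 0 ≤ P ∧
    ∀ m : ℕ, 1 ≤ m → ∀ i < m, ∀ j : ℕ,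
      ‖∑ n ∈ Finset.range D, ∑ l ∈ Finset.range D,
        (p n l : ℂ) * XD s m n i * (YD m j : ℂ) ^ (l + 1)‖ ≤ P := by
  choose C hC0 hC using XD_le
  refine ⟨∑ n ∈ Finset.range D, ∑ l ∈ Finset.range D, |p n l| * C n, ?_, ?_⟩
  · exact Finset.sum_nonneg fun n _ => Finset.sum_nonneg fun l _ =>
      mul_nonneg (abs_nonneg _) (hC0 n)
  · intro m hm i hi j
    refine (norm_sum_le _ _).trans (Finset.sum_le_sum fun n _ => ?_)
    refine (norm_sum_le _ _).trans (Finset.sum_le_sum fun l _ => ?_)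
    rw [norm_mul, norm_mul, norm_pow, Complex.norm_real, Complex.norm_real,
      Real.norm_of_nonneg (YD_nonneg m j), Real.norm_eq_abs]
    have h1 := hC n s hs m hm i hi
    have h2 : YD m j ^ (l + 1) ≤ 1 := pow_le_one₀ (YD_nonneg m j) (YD_le_one m j)
    calc |p n l| * ‖XD s m n i‖ * YD m j ^ (l + 1) ≤ |p n l| * C n * 1 := by
          have := YD_nonneg m j
          have := hC0 n
          gcongr
      _ = |p n l| * C n := mul_one _

/-- the norm of the remainder kernel, for all cells -/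
theorem rD_le {s : ℂ} (hs : ‖s‖ < 1) (D : ℕ) (p : ℕ → ℕ → ℝ) : ∃ C P : ℝ, 0 ≤ C ∧ 0 ≤ P ∧
    ∀ m : ℕ, 1 ≤ m → ∀ x ∈ Ioo (0 : ℝ) 1, ∀ y : ℝ, 0 < y →
      ‖rD s D p m ⌊(m : ℝ) * x⌋₊ ⌊(m : ℝ) * y⌋₊‖ ≤ C / (x + y + 1 / m) + P := by
  obtain ⟨C, hC0, hC⟩ := kD_le hs
  obtain ⟨P, hP0, hP⟩ := polD_le hs D p
  refine ⟨C, P, hC0, hP0, fun m hm x hx y hy => ?_⟩
  unfold rD
  refine (norm_sub_le _ _).trans (add_le_add (hC m hm x y hx.1 hy) ?_)
  exact hP m hm _ (floor_lt_m hm hx) _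

noncomputable def domA (s : ℂ) (b : ℝ) (x : ℝ) : ℝ :=
  ((1 - x) ^ (2 * s.re + 1) + 1) * (x ^ (b - 2 * s.re) + 1)

theorem domA_pos (s : ℂ) (b : ℝ) {x : ℝ} (hx : x ∈ Ioo (0 : ℝ) 1) : 0 < domA s b x := by
  have h1 : (0 : ℝ) < 1 - x := by linarith [hx.2]
  have h2 := hx.1
  unfold domA
  positivity

theorem re_bounds {s : ℂ} (hs : ‖s‖ < 1) : -1 < s.re ∧ s.re < 1 :=
  abs_lt.mp (lt_of_le_of_lt (Complex.abs_re_le_norm s) hs)

theorem domA_int {s : ℂ} (hs : ‖s‖ < 1) {b t : ℝ} (hσ : t < b + 1 - 2 * s.re) (ht : t < 1) :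
    IntegrableOn (fun x => domA s b x * x ^ (-t)) (Ioo (0 : ℝ) 1) :=
  integrable_domx (by linarith only [(re_bounds hs).1]) ht (by linarith)

theorem domA_int0 {s : ℂ} (hs : ‖s‖ < 1) {b : ℝ} (hσ : 0 < b + 1 - 2 * s.re) :
    IntegrableOn (fun x => domA s b x) (Ioo (0 : ℝ) 1) := by
  have h := domA_int hs (b := b) (t := 0) (by linarith only [hσ]) (by norm_num)
  simpa using h

theorem alp_pos {s : ℂ} {b x : ℝ} (hx : x ∈ Ioo (0 : ℝ) 1) : 0 < alp s b x := by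
  have h1 : (0 : ℝ) < 1 - x := by linarith [hx.2]
  have h2 := hx.1
  unfold alp
  positivity

theorem alp_int {s : ℂ} (hs : ‖s‖ < 1) {b : ℝ} (hσ : 0 < b + 1 - 2 * s.re) :
    IntegrableOn (fun x => alp s b x) (Ioo (0 : ℝ) 1) :=
  integrable_beta (by linarith only [(re_bounds hs).1]) (by linarith only [hσ])

theorem B0_pos {s : ℂ} (hs : ‖s‖ < 1) {b : ℝ} (hσ : 0 < b + 1 - 2 * s.re) : 0 < B0 s b := by
  unfold B0
  rw [setIntegral_pos_iff_support_of_nonneg_ae]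
  · have h : Ioo (0 : ℝ) 1 ⊆ Function.support (fun x => alp s b x) ∩ Ioo (0 : ℝ) 1 :=
      fun x hx => ⟨(alp_pos hx).ne', hx⟩
    refine lt_of_lt_of_le ?_ (measure_mono h)
    simp
  · filter_upwards [ae_restrict_mem measurableSet_Ioo] with x hx
    exact (alp_pos hx).le
  · exact alp_int hs hσ

theorem bem_cell (s : ℂ) (b : ℝ) {m : ℕ} (hm : 1 ≤ m) (j : ℕ) :
    bem s b m (((j : ℝ) + 1 / 2) / m) = bD s b m j * (m : ℝ) ^ (b + 1) := by
  have h0 : (0 : ℝ) < m := by exact_mod_cast hm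
  have h : ⌊(m : ℝ) * (((j : ℝ) + 1 / 2) / m)⌋₊ = j := by
    refine floor_cell hm j ⟨?_, ?_⟩
    · gcongr; linarith only []
    · gcongr; norm_num
  unfold bem
  rw [h]

theorem bD_nonneg {s : ℂ} (hs : ‖s‖ < 1) {b : ℝ} (hb : 0 < b) (hσ : 0 < b + 1 - 2 * s.re)
    {m : ℕ} (hm : 1 ≤ m) (j : ℕ) : 0 ≤ bD s b m j := by
  have h0 : (0 : ℝ) < m := by exact_mod_cast hm
  obtain ⟨C, _, hC⟩ := bem_le hs hb hσ
  have h := (hC m hm (((j : ℝ) + 1 / 2) / m) (by positivity)).1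
  rw [bem_cell s b hm] at h
  exact nonneg_of_mul_nonneg_left h (by positivity)

theorem alm_cell (s : ℂ) (b : ℝ) {m : ℕ} (hm : 1 ≤ m) (i : ℕ) :
    alm s b m (((i : ℝ) + 1 / 2) / m) = aD s b m i / (m : ℝ) ^ (b + 1) := by
  have h0 : (0 : ℝ) < m := by exact_mod_cast hm
  have h : ⌊(m : ℝ) * (((i : ℝ) + 1 / 2) / m)⌋₊ = i := by
    refine floor_cell hm i ⟨?_, ?_⟩
    · gcongr; linarith only []
    · gcongr; norm_num
  unfold alm
  rw [h]

theorem mid_mem {m : ℕ} (hm : 1 ≤ m) {i : ℕ} (hi : i < m) :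
    ((i : ℝ) + 1 / 2) / m ∈ Ioo (0 : ℝ) 1 := by
  have h0 : (0 : ℝ) < m := by exact_mod_cast hm
  have h1 : (i : ℝ) + 1 ≤ m := by exact_mod_cast hi
  refine ⟨by positivity, ?_⟩
  rw [div_lt_one h0]
  linarith only [h1]

theorem aD_nonneg {s : ℂ} (hs : ‖s‖ < 1) {b : ℝ} (hb : 0 < b) (hσ : 0 < b + 1 - 2 * s.re)
    {m : ℕ} (hm : 1 ≤ m) {i : ℕ} (hi : i < m) : 0 ≤ aD s b m i := by
  have h0 : (0 : ℝ) < m := by exact_mod_cast hm
  obtain ⟨C, _, hC⟩ := alm_le hs hb hσ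
  have h := (hC m hm (((i : ℝ) + 1 / 2) / m) (mid_mem hm hi)).1
  rw [alm_cell s b hm] at h
  have h2 : (0 : ℝ) < (m : ℝ) ^ (b + 1) := by positivity
  rw [le_div_iff₀ h2] at h
  linarith only [h]

/-- `bem` is dominated by `(1+y)^(-b-1)` -/
theorem bem_le' {s : ℂ} (hs : ‖s‖ < 1) {b : ℝ} (hb : 0 < b) (hσ : 0 < b + 1 - 2 * s.re) :
    ∃ C : ℝ, 0 ≤ C ∧ ∀ m : ℕ, 1 ≤ m → ∀ y : ℝ, 0 < y →
      bem s b m y ≤ C * (1 + y) ^ (-b - 1) := by
  obtain ⟨C, hC0, hC⟩ := bem_le hs hb hσ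
  refine ⟨C, hC0, fun m hm y hy => ((hC m hm y hy).2).trans ?_⟩
  have h0 : (0 : ℝ) < m := by exact_mod_cast hm
  have h1 : (1 : ℝ) / m ≤ 1 := by
    rw [div_le_one h0]
    exact_mod_cast hm
  have h2 : (1 + y) ^ (-b - 1) = (1 + y) * (1 + y) ^ (-b - 2) := by
    rw [show -b - 1 = 1 + (-b - 2) by ring, Real.rpow_add (by linarith only [hy]), Real.rpow_one]
  rw [h2]
  have h3 : 0 ≤ (1 + y) ^ (-b - 2) := by positivity
  exact mul_le_mul_of_nonneg_left (mul_le_mul_of_nonneg_right (by linarith only [h1]) h3) hC0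

theorem bem_step_int {s : ℂ} (hs : ‖s‖ < 1) {b : ℝ} (hb : 0 < b) (hσ : 0 < b + 1 - 2 * s.re)
    {m : ℕ} (hm : 1 ≤ m) (g : ℕ → ℝ) {K : ℝ} (hg : ∀ j, |g j| ≤ K) :
    IntegrableOn (fun y : ℝ => bem s b m y * g ⌊(m : ℝ) * y⌋₊) (Ioi 0) := by
  obtain ⟨C, hC0, hC⟩ := bem_le' hs hb hσ
  obtain ⟨C', _, hC'⟩ := bem_le hs hb hσ
  have hm1 : Measurable (fun y : ℝ => bem s b m y * g ⌊(m : ℝ) * y⌋₊) :=
    measurable_step m (fun j => bD s b m j * (m : ℝ) ^ (b + 1) * g j)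
  refine Integrable.mono' (((integrable_tail hb).const_mul C).mul_const K)
    hm1.aestronglyMeasurable ?_
  filter_upwards [ae_restrict_mem measurableSet_Ioi] with y hy
  rw [norm_mul, Real.norm_of_nonneg (hC' m hm y hy).1, Real.norm_eq_abs]
  have h1 := hC m hm y hy
  have h2 := (hC' m hm y hy).1
  have h3 := hg ⌊(m : ℝ) * y⌋₊
  have h4 : 0 ≤ |g ⌊(m : ℝ) * y⌋₊| := abs_nonneg _
  calc bem s b m y * |g ⌊(m : ℝ) * y⌋₊| ≤ (C * (1 + y) ^ (-b - 1)) * K :=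
        mul_le_mul h1 h3 h4 (h2.trans h1)
    _ = _ := rfl

/-- the series of the weights as an integral -/
theorem bD_hasSum {s : ℂ} (hs : ‖s‖ < 1) {b : ℝ} (hb : 0 < b) (hσ : 0 < b + 1 - 2 * s.re)
    {m : ℕ} (hm : 1 ≤ m) (g : ℕ → ℝ) {K : ℝ} (hg : ∀ j, |g j| ≤ K) :
    HasSum (fun j => bD s b m j * g j)
      ((m : ℝ) ^ (-b) * ∫ y in Ioi (0 : ℝ), bem s b m y * g ⌊(m : ℝ) * y⌋₊) := by
  have h0 : (0 : ℝ) < m := by exact_mod_cast hm
  have h := hasSum_step hm (g := fun j => bD s b m j * (m : ℝ) ^ (b + 1) * g j)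
    (bem_step_int hs hb hσ hm g hg)
  have h1 := h.mul_left ((m : ℝ) ^ (-b))
  have h3 : (fun j => bD s b m j * g j)
      = fun j => (m : ℝ) ^ (-b) * ((1 / (m : ℝ)) • (bD s b m j * (m : ℝ) ^ (b + 1) * g j)) := by
    funext j
    simp only [smul_eq_mul]
    have h2 : (m : ℝ) ^ (b + 1) = (m : ℝ) ^ b * m := by
      rw [Real.rpow_add h0, Real.rpow_one]
    rw [h2, Real.rpow_neg h0.le]
    field_simp
  rw [h3]
  exact h1

theorem bD_summable {s : ℂ} (hs : ‖s‖ < 1) {b : ℝ} (hb : 0 < b) (hσ : 0 < b + 1 - 2 * s.re)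
    (l m : ℕ) : Summable (fun j => bD s b m j * YD m j ^ l) := by
  have hpow : ∀ m j : ℕ, |YD m j ^ l| ≤ 1 := fun m j => by
    rw [abs_of_nonneg (pow_nonneg (YD_nonneg m j) l)]
    exact pow_le_one₀ (YD_nonneg m j) (YD_le_one m j)
  rcases Nat.eq_zero_or_pos m with h | hm
  · subst h
    have h1 : Summable (fun j => bD s b 1 j * 1) :=
      (bD_hasSum hs hb hσ le_rfl (fun _ => 1) (K := 1) (by simp)).summable
    rw [← summable_nat_add_iff 1]
    refine Summable.of_norm_bounded (h1.mul_left 2) fun j => ?_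
    have h2 : bD s b 0 (j + 1) ≤ 2 * (bD s b 1 j * 1) ∧ 0 ≤ bD s b 0 (j + 1) := by
      have h3 : bD s b 0 (j + 1) = ((j : ℝ) + 2) / (j + 1) * bD s b 1 j := by
        unfold bD
        rw [show 0 + 1 + (j + 1) = 1 + 1 + j by ring]
        push_cast
        field_simp
        ring
      have h4 := bD_nonneg hs hb hσ (le_refl 1) j
      have h5 : ((j : ℝ) + 2) / (j + 1) ≤ 2 := by
        rw [div_le_iff₀ (by positivity)]
        have : (0 : ℝ) ≤ j := Nat.cast_nonneg j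
        linarith only []
      rw [h3]
      refine ⟨?_, by positivity⟩
      rw [mul_one]
      exact mul_le_mul_of_nonneg_right h5 h4
    rw [norm_mul, Real.norm_of_nonneg h2.2, Real.norm_eq_abs]
    calc bD s b 0 (j + 1) * |YD 0 (j + 1) ^ l| ≤ bD s b 0 (j + 1) * 1 :=
          mul_le_mul_of_nonneg_left (hpow 0 (j + 1)) h2.2
      _ ≤ _ := by rw [mul_one]; exact h2.1
  · exact (bD_hasSum hs hb hσ hm (fun j => YD m j ^ l) (hpow m)).summable

theorem bet_integral {b : ℝ} (hb : 0 < b) (l : ℕ) :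
    ∫ y in Ioi (0 : ℝ), bet b y * (1 / (1 + y)) ^ l = 1 / ((b + l) * (b + l + 1)) := by
  have hl : (0 : ℝ) ≤ l := Nat.cast_nonneg l
  have h1 : ∀ y ∈ Ioi (0 : ℝ), bet b y * (1 / (1 + y)) ^ l
      = (1 + y) ^ (-(b + l) - 1) - (1 + y) ^ (-(b + l + 1) - 1) := by
    intro y hy
    have hy' : (0 : ℝ) < 1 + y := by have := mem_Ioi.mp hy; linarith only [this]
    unfold bet
    rw [show -(b + l) - 1 = (-(b + l + 1) - 1) + 1 by ring, Real.rpow_add hy', Real.rpow_one,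
      show -(b + l + 1) - 1 = (-b - 2) + -(l : ℝ) by ring, Real.rpow_add hy',
      Real.rpow_neg hy'.le, Real.rpow_natCast]
    rw [one_div, inv_pow]
    ring
  rw [setIntegral_congr_fun measurableSet_Ioi h1, integral_sub
    (integrable_tail (c := b + l) (by positivity)) (integrable_tail (c := b + l + 1) (by positivity)),
    integral_tail (by positivity), integral_tail (by positivity)]
  field_simp
  ring

/-- the discrete density on the cells -/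
noncomputable def dens (s : ℂ) (b : ℝ) (D : ℕ) (p : ℕ → ℕ → ℝ) (m : ℕ) (z : ℝ × ℝ) : ℝ :=
  alm s b m z.1 * bem s b m z.2 * ‖rD s D p m ⌊(m : ℝ) * z.1⌋₊ ⌊(m : ℝ) * z.2⌋₊‖ ^ 2

theorem dens_measurable (s : ℂ) (b : ℝ) (D : ℕ) (p : ℕ → ℕ → ℝ) (m : ℕ) :
    Measurable (dens s b D p m) :=
  measurable_step2 m (fun i j => aD s b m i / (m : ℝ) ^ (b + 1) * (bD s b m j * (m : ℝ) ^ (b + 1))
    * ‖rD s D p m i j‖ ^ 2)

/-- the dominating function -/
noncomputable def domF (s : ℂ) (b t K1 K2 : ℝ) (z : ℝ × ℝ) : ℝ :=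
  K1 * ((domA s b z.1 * z.1 ^ (-t)) * ((1 + z.2) ^ (-b - 2) * z.2 ^ (t - 1)))
    + K2 * (domA s b z.1 * (1 + z.2) ^ (-b - 1))

theorem domF_int {s : ℂ} (hs : ‖s‖ < 1) {b : ℝ} (hb : 0 < b) {t : ℝ} (ht0 : 0 < t)
    (ht : t < b + 1 - 2 * s.re) (ht1 : t < 1) (K1 K2 : ℝ) :
    Integrable (domF s b t K1 K2)
      ((volume.restrict (Ioo (0 : ℝ) 1)).prod (volume.restrict (Ioi (0 : ℝ)))) := by
  have h1 := (domA_int hs ht ht1).mul_prod (integrable_domy hb ht0 ht1.le)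
  have h2 := (domA_int0 hs (b := b) (by linarith only [ht0, ht])).mul_prod (integrable_tail hb)
  exact (h1.const_mul K1).add (h2.const_mul K2)

theorem dens_le {s : ℂ} (hs : ‖s‖ < 1) {b : ℝ} (hb : 0 < b) (hσ : 0 < b + 1 - 2 * s.re)
    (D : ℕ) (p : ℕ → ℕ → ℝ) {t : ℝ} (ht0 : 0 < t) (ht1 : t < 1) :
    ∃ K1 K2 : ℝ, ∀ m : ℕ, 1 ≤ m → ∀ x ∈ Ioo (0 : ℝ) 1, ∀ y : ℝ, 0 < y →
      0 ≤ dens s b D p m (x, y) ∧ dens s b D p m (x, y) ≤ domF s b t K1 K2 (x, y) := by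
  obtain ⟨Ca, hCa0, hCa⟩ := alm_le hs hb hσ
  obtain ⟨Cb, hCb0, hCb⟩ := bem_le hs hb hσ
  obtain ⟨C1, hC10, hC1⟩ := bem_le' hs hb hσ
  obtain ⟨C, P, hC0, hP0, hr⟩ := rD_le hs D p
  refine ⟨Ca * (2 * C ^ 2 * Cb), Ca * (2 * P ^ 2 * C1), fun m hm x hx y hy => ?_⟩
  have h0 : (0 : ℝ) < m := by exact_mod_cast hm
  have hx0 := hx.1
  have ha := hCa m hm x hx
  have hbb := hCb m hm y hy
  have hb1 := hC1 m hm y hy
  have hrr := hr m hm x hx y hy
  set R := ‖rD s D p m ⌊(m : ℝ) * x⌋₊ ⌊(m : ℝ) * y⌋₊‖ with hR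
  have hR0 : 0 ≤ R := norm_nonneg _
  set u : ℝ := x + y + 1 / m with hu
  have hu0 : 0 < u := by positivity
  have hA : 0 < domA s b x := domA_pos s b hx
  refine ⟨by unfold dens; exact mul_nonneg (mul_nonneg ha.1 hbb.1) (by positivity), ?_⟩
  have h1 : R ^ 2 ≤ 2 * C ^ 2 / u ^ 2 + 2 * P ^ 2 := by
    have h2 : R ^ 2 ≤ (C / u + P) ^ 2 := pow_le_pow_left₀ hR0 hrr 2
    have h3 : (C / u + P) ^ 2 ≤ 2 * (C / u) ^ 2 + 2 * P ^ 2 := by linarith only [sq_nonneg (C / u - P)]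
    calc R ^ 2 ≤ 2 * (C / u) ^ 2 + 2 * P ^ 2 := h2.trans h3
      _ = _ := by rw [div_pow]; ring
  have hw : 0 ≤ (1 + y) ^ (-b - 2) := by positivity
  have hw1 : 0 ≤ (1 + y) ^ (-b - 1) := by positivity
  have h4 : bem s b m y * (2 * C ^ 2 / u ^ 2)
      ≤ 2 * C ^ 2 * Cb * (x ^ (-t) * ((1 + y) ^ (-b - 2) * y ^ (t - 1))) := by
    have h5 : (y + 1 / m) / u ^ 2 ≤ x ^ (-t) * y ^ (t - 1) := by
      refine le_trans ?_ (inv_add_le hx0 hy ht0.le ht1.le)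
      rw [div_le_div_iff₀ (by positivity) (by positivity), one_mul]
      have h6 : y + 1 / m ≤ u := by rw [hu]; linarith only [hx0]
      have h7 : x + y ≤ u := by
        rw [hu]
        have : (0 : ℝ) ≤ 1 / m := by positivity
        linarith only [this]
      calc (y + 1 / m) * (x + y) ≤ u * u := by
            have : (0 : ℝ) ≤ 1 / m := by positivity
            exact mul_le_mul h6 h7 (by positivity) hu0.le
        _ = u ^ 2 := by ring
    calc bem s b m y * (2 * C ^ 2 / u ^ 2)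
        ≤ (Cb * ((y + 1 / m) * (1 + y) ^ (-b - 2))) * (2 * C ^ 2 / u ^ 2) :=
          mul_le_mul_of_nonneg_right hbb.2 (by positivity)
      _ = 2 * C ^ 2 * Cb * (1 + y) ^ (-b - 2) * ((y + 1 / m) / u ^ 2) := by ring
      _ ≤ 2 * C ^ 2 * Cb * (1 + y) ^ (-b - 2) * (x ^ (-t) * y ^ (t - 1)) :=
          mul_le_mul_of_nonneg_left h5 (by positivity)
      _ = _ := by ring
  have h8 : bem s b m y * R ^ 2
      ≤ 2 * C ^ 2 * Cb * (x ^ (-t) * ((1 + y) ^ (-b - 2) * y ^ (t - 1)))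
        + 2 * P ^ 2 * C1 * (1 + y) ^ (-b - 1) := by
    calc bem s b m y * R ^ 2 ≤ bem s b m y * (2 * C ^ 2 / u ^ 2 + 2 * P ^ 2) :=
          mul_le_mul_of_nonneg_left h1 hbb.1
      _ = bem s b m y * (2 * C ^ 2 / u ^ 2) + bem s b m y * (2 * P ^ 2) := by ring
      _ ≤ _ := by
          refine add_le_add h4 ?_
          calc bem s b m y * (2 * P ^ 2) ≤ (C1 * (1 + y) ^ (-b - 1)) * (2 * P ^ 2) :=
                mul_le_mul_of_nonneg_right hb1 (by positivity)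
            _ = _ := by ring
  have hx1 : 0 ≤ x ^ (-t) := by positivity
  have hy1 : 0 ≤ y ^ (t - 1) := by positivity
  unfold dens domF
  simp only
  rw [mul_assoc]
  calc alm s b m x * (bem s b m y * R ^ 2)
      ≤ (Ca * domA s b x) * (2 * C ^ 2 * Cb * (x ^ (-t) * ((1 + y) ^ (-b - 2) * y ^ (t - 1)))
        + 2 * P ^ 2 * C1 * (1 + y) ^ (-b - 1)) :=
        mul_le_mul ha.2 h8 (mul_nonneg hbb.1 (by positivity)) (by positivity)
    _ = _ := by ring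

end LimHS

open LimHS in
theorem lim_bD {s : ℂ} (hs0 : s ≠ 0) (hs : ‖s‖ < 1) {b : ℝ} (hb : 0 < b)
    (hσ : 0 < b + 1 - 2 * s.re) (l : ℕ) :
    (∀ m, Summable (fun j => bD s b m j * YD m j ^ l)) ∧
    Tendsto (fun m : ℕ => KS s * pq (b + 3) (m - 1) / (m : ℝ) ^ 2
      * ∑' j, bD s b m j * YD m j ^ l) atTop (𝓝 (Es s b / ((b + l) * (b + l + 1)))) := by
  refine ⟨bD_summable hs hb hσ l, ?_⟩
  obtain ⟨ca, cb, hca, hcb, hcc, _, hbem, hnu⟩ := asy_consts hs0 hs hb hσ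
  obtain ⟨C, hC0, hC⟩ := bem_le' hs hb hσ
  obtain ⟨C', _, hC'⟩ := bem_le hs hb hσ
  have hpow : ∀ m j : ℕ, |YD m j ^ l| ≤ 1 := fun m j => by
    rw [abs_of_nonneg (pow_nonneg (YD_nonneg m j) l)]
    exact pow_le_one₀ (YD_nonneg m j) (YD_le_one m j)
  have hI : Tendsto (fun m : ℕ => ∫ y in Ioi (0 : ℝ), bem s b m y * YD m ⌊(m : ℝ) * y⌋₊ ^ l)
      atTop (𝓝 (∫ y in Ioi (0 : ℝ), cb * bet b y * (1 / (1 + y)) ^ l)) := by
    refine tendsto_integral_filter_of_dominated_convergence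
      (fun y => C * (1 + y) ^ (-b - 1)) ?_ ?_ ((integrable_tail hb).const_mul C) ?_
    · filter_upwards [eventually_ge_atTop 1] with m hm
      exact (bem_step_int hs hb hσ hm (fun j => YD m j ^ l) (hpow m)).aestronglyMeasurable
    · filter_upwards [eventually_ge_atTop 1] with m hm
      filter_upwards [ae_restrict_mem measurableSet_Ioi] with y hy
      rw [norm_mul, Real.norm_of_nonneg (hC' m hm y hy).1, Real.norm_eq_abs]
      calc bem s b m y * |YD m ⌊(m : ℝ) * y⌋₊ ^ l| ≤ bem s b m y * 1 :=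
            mul_le_mul_of_nonneg_left (hpow _ _) (hC' m hm y hy).1
        _ ≤ _ := by rw [mul_one]; exact hC m hm y hy
    · filter_upwards [ae_restrict_mem measurableSet_Ioi] with y hy
      exact (hbem y hy).mul ((YD_tendsto (mem_Ioi.mp hy).le).pow l)
  have h1 := hnu.mul hI
  have h2 : ca * B0 s b * ∫ y in Ioi (0 : ℝ), cb * bet b y * (1 / (1 + y)) ^ l
      = Es s b / ((b + l) * (b + l + 1)) := by
    have h3 : ∫ y in Ioi (0 : ℝ), cb * bet b y * (1 / (1 + y)) ^ l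
        = cb * (1 / ((b + l) * (b + l + 1))) := by
      rw [← bet_integral hb l, ← integral_const_mul]
      simp only [mul_assoc]
    rw [h3]
    unfold Es
    rw [← hcc]
    ring
  rw [h2] at h1
  refine h1.congr' ?_
  filter_upwards [eventually_ge_atTop 1] with m hm
  have h0 : (0 : ℝ) < m := by exact_mod_cast hm
  rw [(bD_hasSum hs hb hσ hm (fun j => YD m j ^ l) (hpow m)).tsum_eq]
  have h4 : (m : ℝ) ^ (b + 2) = (m : ℝ) ^ b * (m : ℝ) ^ 2 := by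
    rw [Real.rpow_add h0]
    norm_num
  rw [h4, Real.rpow_neg h0.le]
  field_simp

open LimHS in
theorem lim_HS {s : ℂ} (hs0 : s ≠ 0) (hs : ‖s‖ < 1) {b : ℝ} (hb : 0 < b)
    (hσ : 0 < b + 1 - 2 * s.re) (D : ℕ) (p : ℕ → ℕ → ℝ) {δ : ℝ} (hδ : 0 < δ) :
    ∀ᶠ m : ℕ in atTop, ∀ J : ℕ, 1 / (m : ℝ) ^ 2 * ∑ j ∈ Finset.range J, ∑ i ∈ Finset.range m,
      bD s b m j * aD s b m i * ‖rD s D p m i j‖ ^ 2 ≤ Es s b * HSn s b D p + δ := by
  obtain ⟨ca, cb, hca, hcb, hcc, halm, hbem, _⟩ := asy_consts hs0 hs hb hσ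
  obtain ⟨t, ht0, ht, ht1⟩ : ∃ t : ℝ, 0 < t ∧ t < b + 1 - 2 * s.re ∧ t < 1 :=
    ⟨min (1 / 2) ((b + 1 - 2 * s.re) / 2), lt_min (by norm_num) (by linarith),
      lt_of_le_of_lt (min_le_right _ _) (by linarith only [hσ]),
      lt_of_le_of_lt (min_le_left _ _) (by norm_num)⟩
  obtain ⟨K1, K2, hK⟩ := dens_le hs hb hσ D p ht0 ht1
  set μ := (volume.restrict (Ioo (0 : ℝ) 1)).prod (volume.restrict (Ioi (0 : ℝ))) with hμ
  have hdom := domF_int hs hb ht0 ht ht1 K1 K2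
  have hae : ∀ᵐ z ∂μ, z.1 ∈ Ioo (0 : ℝ) 1 ∧ z.2 ∈ Ioi (0 : ℝ) := by
    rw [hμ, Measure.prod_restrict]
    exact ae_restrict_mem (measurableSet_Ioo.prod measurableSet_Ioi)
  have hbound : ∀ m : ℕ, 1 ≤ m → ∀ᵐ z ∂μ, ‖dens s b D p m z‖ ≤ domF s b t K1 K2 z := by
    intro m hm
    filter_upwards [hae] with z hz
    have h := hK m hm z.1 hz.1 z.2 hz.2
    rw [Real.norm_of_nonneg h.1]
    exact h.2
  have hintm : ∀ m : ℕ, 1 ≤ m → Integrable (dens s b D p m) μ := fun m hm =>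
    Integrable.mono' hdom (dens_measurable s b D p m).aestronglyMeasurable (hbound m hm)
  have hlim : ∀ᵐ z ∂μ, Tendsto (fun m : ℕ => dens s b D p m z) atTop
      (𝓝 (cst s * (alp s b z.1 * bet b z.2 * RR D p z.1 z.2 ^ 2))) := by
    filter_upwards [hae] with z hz
    have h1 := ((halm z.1 hz.1).mul (hbem z.2 hz.2)).mul
      (((rD_tendsto (s := s) D p hz.1 hz.2).norm).pow 2)
    have h2 : ca * alp s b z.1 * (cb * bet b z.2) * ‖((RR D p z.1 z.2 : ℝ) : ℂ)‖ ^ 2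
        = cst s * (alp s b z.1 * bet b z.2 * RR D p z.1 z.2 ^ 2) := by
      rw [Complex.norm_real, Real.norm_eq_abs, sq_abs, ← hcc]
      ring
    rw [h2] at h1
    exact h1
  have hI := tendsto_integral_filter_of_dominated_convergence (μ := μ) (domF s b t K1 K2)
    (Filter.Eventually.of_forall fun m => (dens_measurable s b D p m).aestronglyMeasurable)
    (by filter_upwards [eventually_ge_atTop 1] with m hm using hbound m hm) hdom hlim
  have hval : ∫ z, cst s * (alp s b z.1 * bet b z.2 * RR D p z.1 z.2 ^ 2) ∂μ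
      = Es s b * HSn s b D p := by
    have hLint : Integrable (fun z : ℝ × ℝ => cst s * (alp s b z.1 * bet b z.2
        * RR D p z.1 z.2 ^ 2)) μ := by
      refine Integrable.mono' hdom
        (aestronglyMeasurable_of_tendsto_ae atTop
          (fun m => (dens_measurable s b D p m).aestronglyMeasurable) hlim) ?_
      filter_upwards [hlim, hae] with z hz hz2
      refine le_of_tendsto hz.norm ?_
      filter_upwards [eventually_ge_atTop 1] with m hm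
      have h := hK m hm z.1 hz2.1 z.2 hz2.2
      rw [Real.norm_of_nonneg h.1]
      exact h.2
    rw [hμ] at hLint ⊢
    rw [integral_prod _ hLint]
    have hB := B0_pos hs hσ
    unfold Es HSn
    simp only [integral_const_mul]
    field_simp
  rw [hval] at hI
  have hev := hI.eventually (Iio_mem_nhds (show Es s b * HSn s b D p
    < Es s b * HSn s b D p + δ by linarith))
  filter_upwards [hev, eventually_ge_atTop 1] with m hm1 hm J
  refine le_trans ?_ (le_of_lt hm1)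
  have h0 : (0 : ℝ) < m := by exact_mod_cast hm
  have hpos : (0 : ℝ) < (m : ℝ) ^ (b + 1) := by positivity
  rw [hμ, integral_prod _ (hintm m hm)]
  have hf := sum_le_double hm (fun i j => aD s b m i / (m : ℝ) ^ (b + 1)
      * (bD s b m j * (m : ℝ) ^ (b + 1)) * ‖rD s D p m i j‖ ^ 2) (fun i hi j => by
        have h1 := aD_nonneg hs hb hσ hm hi
        have h2 := bD_nonneg hs hb hσ hm j
        positivity) (fun i hi => ?_) J
  · refine le_trans (le_of_eq ?_) hf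
    congr 1
    refine Finset.sum_congr rfl fun j _ => Finset.sum_congr rfl fun i _ => ?_
    field_simp
  · -- integrability in `y` for a fixed cell
    have hxm := mid_mem hm hi
    have hfl : ⌊(m : ℝ) * (((i : ℝ) + 1 / 2) / m)⌋₊ = i := by
      refine floor_cell hm i ⟨?_, ?_⟩
      · gcongr; linarith only []
      · gcongr; norm_num
    have hd2 : IntegrableOn (fun y : ℝ => domF s b t K1 K2 (((i : ℝ) + 1 / 2) / m, y)) (Ioi 0) :=
      (((integrable_domy hb ht0 ht1.le).const_mul (domA s b (((i : ℝ) + 1 / 2) / m)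
        * (((i : ℝ) + 1 / 2) / m) ^ (-t))).const_mul K1).add
        (((integrable_tail hb).const_mul (domA s b (((i : ℝ) + 1 / 2) / m))).const_mul K2)
    refine Integrable.mono' hd2 (measurable_step m (fun j => aD s b m i / (m : ℝ) ^ (b + 1)
      * (bD s b m j * (m : ℝ) ^ (b + 1)) * ‖rD s D p m i j‖ ^ 2)).aestronglyMeasurable ?_
    filter_upwards [ae_restrict_mem measurableSet_Ioi] with y hy
    have h := hK m hm _ hxm y hy
    unfold dens alm bem at h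
    simp only [hfl] at h
    rw [Real.norm_of_nonneg h.1]
    exact h.2

end Pool.Agent.M16.Helper24.HR2

end

section

set_option autoImplicit false

set_option maxRecDepth 100000

namespace Pool.Agent.M16.Helper98.HR2

open Pool.Agent.M16.Helper54.HR2

open Pool.Agent.M16.Helper12.HR2 (Mo GZ Par)

end Pool.Agent.M16.Helper98.HR2

end

end

section

namespace Pool.Agent.M16.Helper22.Half
end Pool.Agent.M16.Helper22.Half
namespace Pool.Agent.M16.Helper22.Marshall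
end Pool.Agent.M16.Helper22.Marshall
namespace Pool.Agent.M16.Helper39.Area
end Pool.Agent.M16.Helper39.Area
namespace Pool.Agent.M16.Helper39.MH
end Pool.Agent.M16.Helper39.MH
namespace Pool.Agent.M16.Helper24.HR2
end Pool.Agent.M16.Helper24.HR2
namespace Pool.Agent.M16.Helper12.HR2
end Pool.Agent.M16.Helper12.HR2
namespace Pool.Agent.M16.Helper65.HR2
end Pool.Agent.M16.Helper65.HR2
namespace Pool.Agent.M16.Helper3.HR2
end Pool.Agent.M16.Helper3.HR2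
namespace Pool.Agent.M16.Helper54.HR2
end Pool.Agent.M16.Helper54.HR2

section

set_option autoImplicit false

open MeasureTheory Set Metric Filter Topology

open scoped Real ComplexConjugate

namespace Pool.Agent.M16.Helper24.HR2

/-- the mean of `|exp (s h)|^2` over the circle of radius `R` -/
noncomputable def mS (s : ℂ) (R : ℝ) (h : ℂ → ℂ) : ℝ :=
  (1 / (2 * π)) * ∫ θ in (0:ℝ)..(2 * π),
    ‖Complex.exp (s * h ((R : ℂ) * Complex.exp ((θ : ℂ) * Complex.I)))‖ ^ 2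

end Pool.Agent.M16.Helper24.HR2

end

section

set_option autoImplicit false

open MeasureTheory Set Metric Filter Topology

open scoped Real ComplexConjugate

namespace Pool.Agent.M16.Helper24.HR2

open Pool.Agent.M16.Helper22.Half

open Pool.Agent.M16.Helper22.Marshall (coeff SepHol LogPhi dcoeff GLe parseval_comb exists_logPhi)

open Pool.Agent.M16.Helper39.Area (Ext phi toDisc goluzin_disc ext_data)

open Pool.Agent.M16.Helper39.MH

/-- the point with given polar coordinates -/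
private noncomputable def cp (r θ : ℝ) : ℂ := (r : ℂ) * Complex.exp ((θ : ℂ) * Complex.I)

private theorem norm_cp {r : ℝ} (hr : 0 ≤ r) (θ : ℝ) : ‖cp r θ‖ = r := by
  rw [cp, norm_mul, Complex.norm_exp_ofReal_mul_I, mul_one, Complex.norm_real,
    Real.norm_of_nonneg hr]

private theorem cp_polar (p : ℝ × ℝ) : Complex.polarCoord.symm p = cp p.1 p.2 := by
  rw [Complex.polarCoord_symm_apply, cp, Complex.exp_mul_I]
  simp

private theorem cont_cp : Continuous (fun p : ℝ × ℝ => cp p.1 p.2) := by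
  unfold cp; fun_prop

private theorem cp_periodic (r θ : ℝ) : cp r (θ + 2 * π) = cp r θ := by
  have : Complex.exp (((θ + 2 * π : ℝ) : ℂ) * Complex.I) = Complex.exp ((θ : ℂ) * Complex.I) := by
    push_cast
    rw [add_mul, Complex.exp_add, Complex.exp_two_pi_mul_I, mul_one]
  simp only [cp]
  rw [this]

private theorem refl_int {k : ℝ → ℝ} (hper : Function.Periodic k (2 * π)) :
    ∫ θ in (0:ℝ)..(2 * π), k (-θ) = ∫ θ in (0:ℝ)..(2 * π), k θ := by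
  rw [intervalIntegral.integral_comp_neg (fun θ => k θ)]
  have h2 := hper.intervalIntegral_add_eq (-(2 * π)) 0
  have e1 : -(2 * π) + 2 * π = (0:ℝ) := by ring
  have e2 : (0:ℝ) + 2 * π = 2 * π := by ring
  rw [e1, e2] at h2
  rw [neg_zero, h2]

private theorem shift_int {k : ℝ → ℝ} (hper : Function.Periodic k (2 * π)) :
    ∫ θ in (-π)..π, k θ = ∫ θ in (0:ℝ)..(2 * π), k θ := by
  have h2 := hper.intervalIntegral_add_eq (-π) 0
  have e1 : -π + 2 * π = π := by ring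
  have e2 : (0:ℝ) + 2 * π = 2 * π := by ring
  rw [e1, e2] at h2
  exact h2

/-- the radial weight -/
private theorem weight_facts {b : ℝ} (hb : 0 < b) {r0 : ℝ} (h0 : 0 ≤ r0) (h1 : r0 < 1) :
    IntegrableOn (fun r : ℝ => r * (1 - r ^ 2) ^ (b - 1)) (Ioo r0 1) ∧
    ∫ r in Ioo r0 1, r * (1 - r ^ 2) ^ (b - 1) = (1 - r0 ^ 2) ^ b / (2 * b) := by
  have hcont : ContinuousOn (fun r : ℝ => -((1 - r ^ 2) ^ b) / (2 * b)) (Icc r0 1) := by
    apply ContinuousOn.div_const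
    apply ContinuousOn.neg
    apply ContinuousOn.rpow_const (by fun_prop)
    intro x _
    exact Or.inr hb.le
  have hder : ∀ x ∈ Ioo r0 1, HasDerivAt (fun r : ℝ => -((1 - r ^ 2) ^ b) / (2 * b))
      (x * (1 - x ^ 2) ^ (b - 1)) x := by
    intro x hx
    have hx0 : 0 ≤ x := h0.trans hx.1.le
    have hpos : 0 < 1 - x ^ 2 := by nlinarith only [hx.2, hx0]
    have h2 : HasDerivAt (fun r : ℝ => 1 - r ^ 2) (-(2 * x)) x := by
      have := ((hasDerivAt_id x).pow 2).const_sub 1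
      simpa using this
    have h3 := ((h2.rpow_const (p := b) (Or.inl hpos.ne')).neg).div_const (2 * b)
    have e : -(-(2 * x) * b * (1 - x ^ 2) ^ (b - 1)) / (2 * b) = x * (1 - x ^ 2) ^ (b - 1) := by
      field_simp
    rw [← e]
    exact h3
  have hnn : ∀ x ∈ Ioo r0 1, 0 ≤ x * (1 - x ^ 2) ^ (b - 1) := by
    intro x hx
    have hx0 : 0 ≤ x := h0.trans hx.1.le
    have hpos : 0 < 1 - x ^ 2 := by nlinarith only [hx.2, hx0]
    positivity
  have hint := intervalIntegral.integrableOn_deriv_of_nonneg hcont hder hnn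
  refine ⟨hint.mono_set Ioo_subset_Ioc_self, ?_⟩
  have h4 := intervalIntegral.integral_eq_sub_of_hasDerivAt_of_le h1.le hcont hder
    ((intervalIntegrable_iff_integrableOn_Ioc_of_le h1.le).2 hint)
  rw [intervalIntegral.integral_of_le h1.le, integral_Ioc_eq_integral_Ioo] at h4
  rw [h4]
  have e : (1 : ℝ) - 1 ^ 2 = 0 := by norm_num
  rw [e, Real.zero_rpow hb.ne']
  ring

/-- the circle mean is bounded by the area integral -/
private theorem circle_le_s {ρ : ℝ} (hρ : 1 < ρ) {G : ℂ → ℂ}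
    (hG : DifferentiableOn ℂ G (ball 0 ρ)) {b : ℝ} (hb : 0 < b) {r0 : ℝ} (h0 : 0 ≤ r0)
    (h1 : r0 < 1) :
    (1 / (2 * π)) * ∫ θ in (-π)..π, ‖G (cp r0 θ)‖ ^ 2
      ≤ b * ((1 / π) * ∫ z in ball (0 : ℂ) 1, (1 - ‖z‖ ^ 2) ^ (b - 1) * ‖G z‖ ^ 2)
        * (1 - r0 ^ 2) ^ (-b) := by
  have hG1 : DifferentiableOn ℂ G (ball 0 1) := hG.mono (ball_subset_ball hρ.le)
  have hGc : ContinuousOn G (closedBall 0 1) :=
    hG.continuousOn.mono (closedBall_subset_ball hρ)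
  obtain ⟨M, hM⟩ : ∃ M : ℝ → ℝ, M = fun r => (1 / (2 * π)) * ∫ θ in (-π)..π,
    ‖G (cp r θ)‖ ^ 2 := ⟨_, rfl⟩
  have hMr : ∀ r, ∫ θ in (-π)..π, ‖G (cp r θ)‖ ^ 2 = 2 * π * M r := by
    intro r
    rw [hM]
    have := Real.pi_pos
    field_simp
  -- monotonicity
  have hmono : ∀ r, r0 ≤ r → r < 1 → M r0 ≤ M r := by
    intro r hr hr1
    have hpar : ∀ t : ℝ, 0 ≤ t → t < 1 →
        HasSum (fun n : ℕ => ‖coeff G n‖ ^ 2 * t ^ (2 * n)) (M t) := by
      intro t ht ht1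
      have := parseval_comb hG1 0 1 ht ht1
      simp only [zero_mul, zero_add, one_mul] at this
      rw [hM]
      exact this
    apply hasSum_le _ (hpar r0 h0 h1) (hpar r (h0.trans hr) hr1)
    intro n
    exact mul_le_mul_of_nonneg_left (pow_le_pow_left₀ h0 hr _) (by positivity)
  -- boundedness
  obtain ⟨B, hB⟩ := (isCompact_closedBall (0 : ℂ) 1).exists_bound_of_continuousOn hGc
  have hB0 : 0 ≤ B := (norm_nonneg _).trans (hB 0 (by simp))
  obtain ⟨hW, -⟩ := weight_facts hb (le_refl (0 : ℝ)) one_pos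
  obtain ⟨S, hS⟩ : ∃ S : Set (ℝ × ℝ), S = Ioo (0 : ℝ) 1 ×ˢ Ioo (-π) π := ⟨_, rfl⟩
  have hSm : MeasurableSet S := by rw [hS]; exact measurableSet_Ioo.prod measurableSet_Ioo
  have hball : ∀ p ∈ S, cp p.1 p.2 ∈ ball (0 : ℂ) 1 := by
    rintro ⟨a, c⟩ hp
    rw [hS] at hp
    obtain ⟨ha, -⟩ := hp
    rw [mem_ball_zero_iff, norm_cp ha.1.le]
    exact ha.2
  -- polar coordinates
  have hpolar : ∫ z in ball (0 : ℂ) 1, (1 - ‖z‖ ^ 2) ^ (b - 1) * ‖G z‖ ^ 2 =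
      ∫ p in S, (p.1 * (1 - p.1 ^ 2) ^ (b - 1)) * ‖G (cp p.1 p.2)‖ ^ 2 := by
    rw [← integral_indicator measurableSet_ball, ← Complex.integral_comp_polarCoord_symm,
      polarCoord_target]
    have hsub : S ⊆ Ioi (0:ℝ) ×ˢ Ioo (-π) π := by
      rw [hS]
      exact prod_mono Ioo_subset_Ioi_self (subset_refl _)
    rw [setIntegral_eq_of_subset_of_forall_sdiff_eq_zero
      (measurableSet_Ioi.prod measurableSet_Ioo) hsub]
    · apply setIntegral_congr_fun hSm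
      intro p hp
      have hp1 : 0 < p.1 := by rw [hS] at hp; exact hp.1.1
      simp only
      rw [cp_polar, indicator_of_mem (hball p hp), norm_cp hp1.le, smul_eq_mul]
      ring
    · rintro ⟨a, c⟩ ⟨⟨ha, hc⟩, hn⟩
      have ha' : (0 : ℝ) < a := ha
      have hnm : cp a c ∉ ball (0 : ℂ) 1 := by
        intro hmem
        rw [mem_ball_zero_iff, norm_cp ha'.le] at hmem
        exact hn (by rw [hS]; exact ⟨⟨ha', hmem⟩, hc⟩)
      rw [cp_polar, indicator_of_notMem hnm, smul_zero]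
  -- integrability on the product
  have hintS : IntegrableOn (fun p : ℝ × ℝ => (p.1 * (1 - p.1 ^ 2) ^ (b - 1)) *
      ‖G (cp p.1 p.2)‖ ^ 2) S := by
    have hdom : IntegrableOn (fun p : ℝ × ℝ => (p.1 * (1 - p.1 ^ 2) ^ (b - 1)) * B ^ 2) S := by
      rw [hS, IntegrableOn, Measure.volume_eq_prod, ← Measure.prod_restrict]
      have h3 : Integrable (fun _ : ℝ => B ^ 2) (volume.restrict (Ioo (-π) π)) :=
        (integrable_const _)
      exact Integrable.mul_prod hW h3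
    refine hdom.mono' ?_ ?_
    · apply ContinuousOn.aestronglyMeasurable _ hSm
      apply ContinuousOn.mul
      · apply ContinuousOn.mul continuous_fst.continuousOn
        apply ContinuousOn.rpow_const (by fun_prop)
        intro p hp
        left
        rw [hS] at hp
        have h3 := hp.1.1
        have h4 := hp.1.2
        nlinarith only [h3, h4]
      · apply ContinuousOn.pow
        apply ContinuousOn.norm
        exact hG1.continuousOn.comp cont_cp.continuousOn hball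
    · rw [ae_restrict_iff' hSm]
      refine Filter.Eventually.of_forall fun p hp => ?_
      have h3 : 0 ≤ p.1 * (1 - p.1 ^ 2) ^ (b - 1) := by
        rw [hS] at hp
        have h3 := hp.1.1
        have h4 := hp.1.2
        have h5 : 0 < 1 - p.1 ^ 2 := by nlinarith only [h3, h4]
        positivity
      rw [Real.norm_of_nonneg (by positivity)]
      apply mul_le_mul_of_nonneg_left _ h3
      have h4 : ‖G (cp p.1 p.2)‖ ≤ B := hB _ (ball_subset_closedBall (hball p hp))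
      exact pow_le_pow_left₀ (norm_nonneg _) h4 2
  have hiter : ∫ p in S, (p.1 * (1 - p.1 ^ 2) ^ (b - 1)) * ‖G (cp p.1 p.2)‖ ^ 2 =
      ∫ r in Ioo (0 : ℝ) 1, (r * (1 - r ^ 2) ^ (b - 1)) * (2 * π * M r) := by
    rw [hS] at hintS ⊢
    rw [Measure.volume_eq_prod] at hintS ⊢
    rw [setIntegral_prod _ hintS]
    apply setIntegral_congr_fun measurableSet_Ioo
    intro r _
    simp only
    rw [integral_const_mul, ← hMr r, intervalIntegral.integral_of_le (by linarith only [Real.pi_pos]),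
      integral_Ioc_eq_integral_Ioo]
  have hint1 : IntegrableOn (fun r : ℝ => (r * (1 - r ^ 2) ^ (b - 1)) * (2 * π * M r))
      (Ioo (0 : ℝ) 1) := by
    rw [hS, IntegrableOn, Measure.volume_eq_prod, ← Measure.prod_restrict] at hintS
    have h3 := hintS.integral_prod_left
    refine h3.congr ?_
    rw [Filter.EventuallyEq, ae_restrict_iff' measurableSet_Ioo]
    refine Filter.Eventually.of_forall fun r _ => ?_
    simp only
    rw [integral_const_mul, ← hMr r, intervalIntegral.integral_of_le (by linarith only [Real.pi_pos]),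
      integral_Ioc_eq_integral_Ioo]
  have hM0 : ∀ r, 0 ≤ M r := by
    intro r
    rw [hM]
    apply mul_nonneg (by positivity)
    apply intervalIntegral.integral_nonneg (by linarith only [Real.pi_pos])
    intro θ _
    positivity
  obtain ⟨hW1, hW2⟩ := weight_facts hb h0 h1
  have hlow : 2 * π * M r0 * ((1 - r0 ^ 2) ^ b / (2 * b)) ≤
      ∫ z in ball (0 : ℂ) 1, (1 - ‖z‖ ^ 2) ^ (b - 1) * ‖G z‖ ^ 2 := by
    rw [hpolar, hiter, ← hW2]
    calc 2 * π * M r0 * ∫ r in Ioo r0 1, r * (1 - r ^ 2) ^ (b - 1)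
        = ∫ r in Ioo r0 1, (r * (1 - r ^ 2) ^ (b - 1)) * (2 * π * M r0) := by
          rw [integral_mul_const, mul_comm]
      _ ≤ ∫ r in Ioo r0 1, (r * (1 - r ^ 2) ^ (b - 1)) * (2 * π * M r) := by
          apply setIntegral_mono_on (hW1.mul_const _)
            (hint1.mono_set (Ioo_subset_Ioo_left h0)) measurableSet_Ioo
          intro r hr
          have h3 : 0 ≤ r := h0.trans hr.1.le
          have h5 : 0 < 1 - r ^ 2 := by nlinarith only [hr.2, h3]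
          apply mul_le_mul_of_nonneg_left _ (by positivity)
          apply mul_le_mul_of_nonneg_left (hmono r hr.1.le hr.2) (by positivity)
      _ ≤ ∫ r in Ioo (0 : ℝ) 1, (r * (1 - r ^ 2) ^ (b - 1)) * (2 * π * M r) := by
          apply setIntegral_mono_set hint1
          · rw [Filter.EventuallyLE, ae_restrict_iff' measurableSet_Ioo]
            refine Filter.Eventually.of_forall fun r hr => ?_
            have h5 : 0 < 1 - r ^ 2 := by nlinarith only [hr.1, hr.2]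
            have h6 := hM0 r
            have h7 := hr.1
            have h8 := Real.pi_pos
            simp only [Pi.zero_apply]
            positivity
          · exact (Ioo_subset_Ioo_left h0).eventuallyLE
  have hx : 0 < 1 - r0 ^ 2 := by nlinarith only [h0, h1]
  have hpw : 0 < (1 - r0 ^ 2) ^ b := Real.rpow_pos_of_pos hx _
  have hMe : (1 / (2 * π)) * ∫ θ in (-π)..π, ‖G (cp r0 θ)‖ ^ 2 = M r0 := by rw [hM]
  rw [hMe, Real.rpow_neg hx.le, ← div_eq_mul_inv, le_div_iff₀ hpw]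
  have hpi := Real.pi_pos
  have e : M r0 * (1 - r0 ^ 2) ^ b = b * ((1 / π) * (2 * π * M r0 *
      ((1 - r0 ^ 2) ^ b / (2 * b)))) := by
    field_simp
  rw [e]
  apply mul_le_mul_of_nonneg_left _ hb.le
  exact mul_le_mul_of_nonneg_left hlow (by positivity)

/-- the dilated data -/
private theorem dil_dat {β H : ℂ → ℂ} (hE : Ext β) (hH : DifferentiableOn ℂ H (ball 0 1))
    (hH0 : H 0 = 0) (hexp : ∀ z ∈ ball (0 : ℂ) 1, Complex.exp (H z) = 1 - z ^ 2 * deriv β z)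
    (hbl : ∀ z ∈ ball (0 : ℂ) 1, (1 - ‖z‖ ^ 2) * ‖deriv H z‖ ≤ 28)
    (hgol : ∀ z ∈ ball (0 : ℂ) 1, ‖H z‖ ≤ Real.log (1 / (1 - ‖z‖ ^ 2))) {ρ : ℝ} (hρ : 1 < ρ) :
    ∃ (βρ : ℂ → ℂ) (Φ : ℂ → ℂ → ℂ), Dat ρ βρ (fun z => H (z / (ρ : ℂ))) Φ := by
  have hρ0 : 0 < ρ := by linarith
  have hρc : (ρ : ℂ) ≠ 0 := by exact_mod_cast hρ0.ne'
  have hnρ : ‖(ρ : ℂ)‖ = ρ := by rw [Complex.norm_real, Real.norm_of_nonneg hρ0.le]
  have hmem' : ∀ z ∈ ball (0 : ℂ) ρ, z / (ρ : ℂ) ∈ ball (0 : ℂ) 1 := by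
    intro z hz
    rw [mem_ball_zero_iff] at hz ⊢
    rw [norm_div, hnρ, div_lt_one hρ0]
    exact hz
  have hmem : ∀ z ∈ ball (0 : ℂ) 1, z / (ρ : ℂ) ∈ ball (0 : ℂ) 1 := by
    intro z hz
    apply hmem' z
    rw [mem_ball_zero_iff] at hz ⊢
    linarith
  have hd : ∀ {F : ℂ → ℂ}, DifferentiableOn ℂ F (ball 0 1) → ∀ z ∈ ball (0 : ℂ) ρ,
      HasDerivAt (fun z => F (z / (ρ : ℂ))) (deriv F (z / (ρ : ℂ)) * (1 / (ρ : ℂ))) z := by
    intro F hF z hz
    have h1 : HasDerivAt F (deriv F (z / (ρ : ℂ))) (z / (ρ : ℂ)) :=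
      (hF.differentiableAt (isOpen_ball.mem_nhds (hmem' z hz))).hasDerivAt
    exact h1.comp z ((hasDerivAt_id z).div_const (ρ : ℂ))
  have hsub : ∀ z ∈ ball (0 : ℂ) 1, z ∈ ball (0 : ℂ) ρ := by
    intro z hz
    rw [mem_ball_zero_iff] at hz ⊢
    linarith
  have hdβ : ∀ z ∈ ball (0 : ℂ) 1,
      HasDerivAt (fun z => β (z / (ρ : ℂ)) / (ρ : ℂ)) (deriv β (z / (ρ : ℂ)) / (ρ : ℂ) ^ 2) z := by
    intro z hz
    have h1 := (hd hE.diff z (hsub z hz)).div_const (ρ : ℂ)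
    have e : deriv β (z / (ρ : ℂ)) / (ρ : ℂ) ^ 2
        = deriv β (z / (ρ : ℂ)) * (1 / (ρ : ℂ)) / (ρ : ℂ) := by
      field_simp
    rw [e]
    exact h1
  have hexpρ : ∀ z ∈ ball (0 : ℂ) 1, Complex.exp (H (z / (ρ : ℂ)))
      = 1 - z ^ 2 * deriv (fun z => β (z / (ρ : ℂ)) / (ρ : ℂ)) z := by
    intro z hz
    rw [(hdβ z hz).deriv, hexp _ (hmem z hz)]
    field_simp
  have hExt : Ext (fun z => β (z / (ρ : ℂ)) / (ρ : ℂ)) := by
    refine ⟨fun z hz => (hdβ z hz).differentiableAt.differentiableWithinAt, ?_, ?_⟩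
    · intro ζ ω hζ hω hζ0 hω0 heq
      have h1 := hE.inj (ζ / (ρ : ℂ)) (ω / (ρ : ℂ)) (hmem ζ hζ) (hmem ω hω)
        (div_ne_zero hζ0 hρc) (div_ne_zero hω0 hρc) (by
          rw [inv_div, inv_div, div_eq_mul_inv, div_eq_mul_inv]
          have h2 : (ρ : ℂ) * (ζ⁻¹ + β (ζ / (ρ : ℂ)) / (ρ : ℂ))
              = (ρ : ℂ) * (ω⁻¹ + β (ω / (ρ : ℂ)) / (ρ : ℂ)) := by rw [heq]
          rw [mul_add, mul_add, mul_div_cancel₀ _ hρc, mul_div_cancel₀ _ hρc] at h2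
          exact h2)
      exact (div_left_inj' hρc).mp h1
    · intro ζ hζ h'
      rw [← hexpρ ζ hζ] at h'
      exact Complex.exp_ne_zero _ h'
  have hHρ : DifferentiableOn ℂ (fun z => H (z / (ρ : ℂ))) (ball 0 ρ) :=
    fun z hz => (hd hH z hz).differentiableAt.differentiableWithinAt
  obtain ⟨Φ, hΦ⟩ := exists_logPhi hExt (H := fun z => H (z / (ρ : ℂ)))
    (hHρ.continuousOn.mono (fun z hz => hsub z hz)) (by simp [hH0]) hexpρ
  have hcmp : ∀ z ∈ ball (0 : ℂ) 1, 0 < 1 - ‖z‖ ^ 2 ∧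
      1 - ‖z‖ ^ 2 ≤ 1 - (‖z‖ / ρ) ^ 2 := by
    intro z hz
    have hz1 : ‖z‖ < 1 := mem_ball_zero_iff.mp hz
    have hz0 := norm_nonneg z
    have h3 : ‖z‖ / ρ ≤ ‖z‖ := div_le_self hz0 hρ.le
    have h4 : 0 ≤ ‖z‖ / ρ := by positivity
    constructor <;> nlinarith only [hz1, hz0, h3, h4]
  refine ⟨_, Φ, ⟨hρ, hExt, hΦ, hHρ, ?_, hexpρ⟩, ?_⟩
  · intro z hz
    rw [(hd hH z (hsub z hz)).deriv, norm_mul, norm_div, norm_one, hnρ]
    have h1 := hbl _ (hmem z hz)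
    rw [norm_div, hnρ] at h1
    have h0 := norm_nonneg (deriv H (z / (ρ : ℂ)))
    obtain ⟨h5, h2⟩ := hcmp z hz
    have h6 : 1 / ρ ≤ 1 := by
      rw [div_le_one hρ0]
      exact hρ.le
    calc (1 - ‖z‖ ^ 2) * (‖deriv H (z / (ρ : ℂ))‖ * (1 / ρ))
        ≤ (1 - ‖z‖ ^ 2) * (‖deriv H (z / (ρ : ℂ))‖ * 1) := by gcongr
      _ ≤ (1 - (‖z‖ / ρ) ^ 2) * (‖deriv H (z / (ρ : ℂ))‖ * 1) := by gcongr
      _ ≤ 28 := by rw [mul_one]; exact h1
  · intro z hz
    obtain ⟨h5, h2⟩ := hcmp z hz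
    have h1 := hgol _ (hmem z hz)
    rw [norm_div, hnρ] at h1
    refine h1.trans ?_
    apply Real.log_le_log (by
      apply one_div_pos.2
      linarith only [h5, h2])
    exact one_div_le_one_div_of_le h5 h2

theorem mean_of_LS {s : ℂ} {b C : ℝ} (hb : 0 < b)
    (hL : ∀ (ρ : ℝ) (β H : ℂ → ℂ) (Φ : ℂ → ℂ → ℂ), Dat ρ β H Φ → LS s H b (fun _ => 1) ≤ C) :
    ∀ ψ h : ℂ → ℂ, SigmaLog ψ h → ∀ R : ℝ, 1 < R →
      mS s R h ≤ b * C * (R ^ 2 / (R ^ 2 - 1)) ^ b := by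
  intro ψ h hψ R hR
  have hR0 : 0 < R := by linarith only [hR]
  obtain ⟨c, hc⟩ := hψ.normalised
  obtain ⟨hE, hex⟩ := ext_data hψ.diff hψ.inj hc hψ.exp_eq
  obtain ⟨hH, hgol⟩ := goluzin_disc hψ.diff hψ.inj hψ.normalised hψ.hdiff hψ.exp_eq hψ.lim
  have hbl : ∀ z ∈ ball (0 : ℂ) 1, (1 - ‖z‖ ^ 2) * ‖deriv (toDisc 0 h) z‖ ≤ 28 := fun z hz =>
    Pool.Agent.M16.Helper39.Dim.bloch_disc hψ.diff hψ.inj hψ.normalised hψ.hdiff hψ.exp_eq hψ.lim hz
  have hH0 : toDisc 0 h 0 = 0 := by simp [toDisc]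
  -- the mean in the coordinate `1 / z`
  have hms : mS s R h = (1 / (2 * π)) * ∫ θ in (-π)..π,
      ‖Complex.exp (s * toDisc 0 h (cp R⁻¹ θ))‖ ^ 2 := by
    unfold mS
    congr 1
    have hper : Function.Periodic (fun θ : ℝ =>
        ‖Complex.exp (s * toDisc 0 h (cp R⁻¹ θ))‖ ^ 2) (2 * π) := by
      intro θ
      simp only
      rw [cp_periodic]
    rw [shift_int hper, ← refl_int hper]
    congr 1
    funext θ
    have hne : cp R⁻¹ (-θ) ≠ 0 := by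
      unfold cp
      apply mul_ne_zero _ (Complex.exp_ne_zero _)
      exact_mod_cast inv_ne_zero hR0.ne'
    have h2 : (cp R⁻¹ (-θ))⁻¹ = (R : ℂ) * Complex.exp ((θ : ℂ) * Complex.I) := by
      unfold cp
      rw [mul_inv, ← Complex.exp_neg]
      push_cast
      rw [inv_inv]
      congr 2
      ring
    simp only [toDisc]
    rw [if_neg hne, h2]
  -- the bound for the dilations
  have hdil : ∀ ρ : ℝ, 1 < ρ → ρ < R →
      mS s R h ≤ b * C * (1 - (ρ / R) ^ 2) ^ (-b) := by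
    intro ρ hρ hρR
    have hρ0 : 0 < ρ := by linarith only [hρ]
    have hρc : (ρ : ℂ) ≠ 0 := by exact_mod_cast hρ0.ne'
    obtain ⟨βρ, Φ, hD⟩ := dil_dat hE hH hH0 hex hbl hgol hρ
    have hL1 := hL ρ βρ _ Φ hD
    have hr1 : ρ / R < 1 := (div_lt_one hR0).2 hρR
    have hr0 : 0 ≤ ρ / R := by positivity
    have hGd : DifferentiableOn ℂ (fun z => Complex.exp (s * toDisc 0 h (z / (ρ : ℂ))))
        (ball 0 ρ) := (hD.diff.const_mul s).cexp
    have hcirc := circle_le_s hρ hGd hb hr0 hr1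
    have e1 : (1 / π) * ∫ z in ball (0 : ℂ) 1, (1 - ‖z‖ ^ 2) ^ (b - 1)
        * ‖Complex.exp (s * toDisc 0 h (z / (ρ : ℂ)))‖ ^ 2
        = LS s (fun z => toDisc 0 h (z / (ρ : ℂ))) b (fun _ => 1) := by
      unfold LS
      simp only [mul_one]
    have e2 : ∀ θ : ℝ, cp (ρ / R) θ / (ρ : ℂ) = cp R⁻¹ θ := by
      intro θ
      unfold cp
      push_cast
      field_simp
    rw [e1] at hcirc
    simp_rw [e2] at hcirc
    rw [hms]
    refine hcirc.trans ?_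
    have hx : 0 < 1 - (ρ / R) ^ 2 := by nlinarith only [hr1, hr0]
    apply mul_le_mul_of_nonneg_right _ (Real.rpow_nonneg hx.le _)
    exact mul_le_mul_of_nonneg_left hL1 hb.le
  -- the limit
  have hRR : 0 < R ^ 2 - 1 := by nlinarith only [hR]
  have hcont : ContinuousAt (fun ρ : ℝ => b * C * (1 - (ρ / R) ^ 2) ^ (-b)) 1 := by
    apply ContinuousAt.mul continuousAt_const
    apply ContinuousAt.rpow_const (by fun_prop)
    left
    rw [div_pow, one_pow]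
    have : 1 / R ^ 2 < 1 := by
      rw [div_lt_one (by positivity)]
      linarith only [hRR]
    linarith only [this]
  have hlim : Tendsto (fun ρ : ℝ => b * C * (1 - (ρ / R) ^ 2) ^ (-b)) (𝓝[>] 1)
      (𝓝 (b * C * (1 - (1 / R) ^ 2) ^ (-b))) := hcont.tendsto.mono_left nhdsWithin_le_nhds
  have hev : ∀ᶠ ρ : ℝ in 𝓝[>] 1, mS s R h ≤ b * C * (1 - (ρ / R) ^ 2) ^ (-b) := by
    filter_upwards [Ioo_mem_nhdsGT hR] with ρ hρ
    exact hdil ρ hρ.1 hρ.2
  have hfin := ge_of_tendsto hlim hev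
  refine hfin.trans (le_of_eq ?_)
  have e3 : 1 - (1 / R) ^ 2 = (R ^ 2 / (R ^ 2 - 1))⁻¹ := by
    rw [inv_div, div_pow, one_pow]
    field_simp
  rw [e3, Real.inv_rpow (by positivity), Real.rpow_neg (by positivity), inv_inv]

end Pool.Agent.M16.Helper24.HR2

end

section

set_option autoImplicit false

open scoped ComplexConjugate

namespace Pool.Agent.M16.Helper65.HR2

open Pool.Agent.M16.Helper24.HR2

open Pool.Agent.M16.Helper12.HR2

open Pool.Agent.M16.Helper22.Half (SigmaLog)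

/-- the bound of the means at the point `s = (p + q i) / sr` with the exponent `b = bn / bd` -/
def PtOK (P : Par) : Prop :=
  ∃ C : ℝ, ∀ ψ h : ℂ → ℂ, SigmaLog ψ h → ∀ R : ℝ, 1 < R →
    mE (((P.p : ℂ) + P.q * Complex.I) / P.sr) R h
      ≤ C * (R ^ 2 / (R ^ 2 - 1)) ^ ((P.bn : ℝ) / P.bd)

namespace AP

end AP

end Pool.Agent.M16.Helper65.HR2

end

section

set_option autoImplicit false

open scoped ComplexConjugate

namespace Pool.Agent.M16.Helper12.HR2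

open Pool.Agent.M16.Helper22.Half (SigmaLog)

open Pool.Agent.M16.Helper65.HR2 (PtOK)

end Pool.Agent.M16.Helper12.HR2

end

section

set_option autoImplicit false

open MeasureTheory Set Metric Filter Topology

open scoped Real ComplexConjugate

namespace Pool.Agent.M16.Helper24.HR2

open Pool.Agent.M16.Helper22.Half

open Pool.Agent.M16.Helper39.MH

open Pool.Agent.M16.Helper3.HR2 (inv_add_le integrable_domy integrable_tail)

namespace LimY

/-- the scaled inner sums -/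
noncomputable def inn (s : ℂ) (b : ℝ) (D : ℕ) (p : ℕ → ℕ → ℝ) (n m j : ℕ) : ℂ :=
  (((m : ℝ) ^ (b + 2) : ℝ) : ℂ)⁻¹ * ∑ i ∈ Finset.range m,
    (aD s b m i : ℂ) * conj (XD s m n i) * rD s D p m i j

/-- the integrand of the inner sums -/
noncomputable def itg (s : ℂ) (b : ℝ) (D : ℕ) (p : ℕ → ℕ → ℝ) (n m j : ℕ) (x : ℝ) : ℂ :=
  ((alm s b m x : ℝ) : ℂ) * conj (XD s m n ⌊(m : ℝ) * x⌋₊) * rD s D p m ⌊(m : ℝ) * x⌋₊ j

theorem inn_eq (s : ℂ) (b : ℝ) (D : ℕ) (p : ℕ → ℕ → ℝ) (n : ℕ) {m : ℕ} (hm : 1 ≤ m) (j : ℕ) :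
    inn s b D p n m j = ∫ x in Ioo (0 : ℝ) 1, itg s b D p n m j x := by
  have hm0 : (0 : ℝ) < m := by exact_mod_cast hm
  have hmc : (m : ℂ) ≠ 0 := by
    have : m ≠ 0 := by omega
    exact_mod_cast this
  have h := LimX.step_fin hm (fun i => ((aD s b m i / (m : ℝ) ^ (b + 1) : ℝ) : ℂ)
        * conj (XD s m n i) * rD s D p m i j)
  unfold itg alm
  rw [h]
  unfold inn
  rw [Finset.mul_sum, Finset.mul_sum]
  apply Finset.sum_congr rfl
  intro i _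
  have e : (m : ℝ) ^ (b + 2) = (m : ℝ) ^ (b + 1) * m := by
    rw [show b + 2 = (b + 1) + 1 by ring, Real.rpow_add hm0 (b + 1) 1, Real.rpow_one]
  rw [e]
  have hb1 : (((m : ℝ) ^ (b + 1) : ℝ) : ℂ) ≠ 0 := by
    exact_mod_cast (Real.rpow_pos_of_pos hm0 _).ne'
  push_cast
  field_simp

theorem itg_meas (s : ℂ) (b : ℝ) (D : ℕ) (p : ℕ → ℕ → ℝ) (n m j : ℕ) :
    Measurable (itg s b D p n m j) :=
  LimX.step_meas m (fun i => ((aD s b m i / (m : ℝ) ^ (b + 1) : ℝ) : ℂ)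
        * conj (XD s m n i) * rD s D p m i j)

theorem itg_le {s : ℂ} (hs : ‖s‖ < 1) {b : ℝ} (hb : 0 < b) (hσ : 0 < b + 1 - 2 * s.re)
    (D : ℕ) (p : ℕ → ℕ → ℝ) (n : ℕ) : ∃ C P : ℝ, 0 ≤ C ∧ 0 ≤ P ∧
    ∀ m : ℕ, 1 ≤ m → ∀ x ∈ Ioo (0 : ℝ) 1, ∀ y : ℝ, 0 < y →
      ‖itg s b D p n m ⌊(m : ℝ) * y⌋₊ x‖ ≤ LimHS.domA s b x * (C / (x + y + 1 / m) + P) := by
  obtain ⟨Ca, hCa, hal⟩ := alm_le hs hb hσ
  obtain ⟨C, P, hC, hP, hr⟩ := LimHS.rD_le hs D p
  obtain ⟨Cx, hCx, hxl⟩ := XD_le n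
  refine ⟨Ca * Cx * C, Ca * Cx * P, by positivity, by positivity, fun m hm x hx y hy => ?_⟩
  have hm0 : (0 : ℝ) < m := by exact_mod_cast hm
  obtain ⟨g0, g1⟩ := hal m hm x hx
  have g2 := hr m hm x hx y hy
  have g3 := hxl s hs m hm _ (floor_lt_m hm hx)
  have g4 := (LimHS.domA_pos s b hx).le
  have hx0 := hx.1
  unfold itg
  rw [norm_mul, norm_mul, RCLike.norm_conj, Complex.norm_real, Real.norm_eq_abs,
    abs_of_nonneg g0]
  have g1' : alm s b m x ≤ Ca * LimHS.domA s b x := g1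
  calc alm s b m x * ‖XD s m n ⌊(m : ℝ) * x⌋₊‖
        * ‖rD s D p m ⌊(m : ℝ) * x⌋₊ ⌊(m : ℝ) * y⌋₊‖
      ≤ (Ca * LimHS.domA s b x) * Cx * (C / (x + y + 1 / m) + P) := by gcongr
    _ = _ := by ring

theorem inn_le {s : ℂ} (hs : ‖s‖ < 1) {b : ℝ} (hb : 0 < b) (hσ : 0 < b + 1 - 2 * s.re)
    (D : ℕ) (p : ℕ → ℕ → ℝ) (n : ℕ) {t : ℝ} (ht0 : 0 ≤ t) (ht1 : t < 1)
    (ht : t < b + 1 - 2 * s.re) : ∃ K : ℝ, 0 ≤ K ∧
    ∀ m : ℕ, 1 ≤ m → ∀ y : ℝ, 0 < y →
      ‖inn s b D p n m ⌊(m : ℝ) * y⌋₊‖ ≤ K * ((y + 1 / m) ^ (t - 1) + 1) := by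
  obtain ⟨C, P, hC, hP, h⟩ := itg_le hs hb hσ D p n
  set I1 : ℝ := ∫ x in Ioo (0 : ℝ) 1, LimHS.domA s b x * x ^ (-t) with hI1
  set I0 : ℝ := ∫ x in Ioo (0 : ℝ) 1, LimHS.domA s b x with hI0
  have h1 : 0 ≤ I1 := setIntegral_nonneg measurableSet_Ioo fun x hx =>
    mul_nonneg (LimHS.domA_pos s b hx).le (Real.rpow_nonneg hx.1.le _)
  have h0 : 0 ≤ I0 := setIntegral_nonneg measurableSet_Ioo fun x hx => (LimHS.domA_pos s b hx).le
  refine ⟨C * I1 + P * I0, by positivity, fun m hm y hy => ?_⟩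
  have hm0 : (0 : ℝ) < m := by exact_mod_cast hm
  have hy1 : (0 : ℝ) < y + 1 / m := by positivity
  rw [inn_eq s b D p n hm]
  have i1 := LimHS.domA_int hs (b := b) ht ht1
  have i0 := LimHS.domA_int0 hs (b := b) hσ
  have hle : ‖∫ x in Ioo (0 : ℝ) 1, itg s b D p n m ⌊(m : ℝ) * y⌋₊ x‖
      ≤ ∫ x in Ioo (0 : ℝ) 1, (C * (y + 1 / m) ^ (t - 1) * (LimHS.domA s b x * x ^ (-t))
        + P * LimHS.domA s b x) := by
    have hg : IntegrableOn (fun x => C * (y + 1 / m) ^ (t - 1) * (LimHS.domA s b x * x ^ (-t))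
        + P * LimHS.domA s b x) (Ioo (0 : ℝ) 1) := (i1.const_mul _).add (i0.const_mul _)
    refine norm_integral_le_of_norm_le hg ?_
    filter_upwards [ae_restrict_mem measurableSet_Ioo] with x hx
    have hx0 := hx.1
    have g4 := (LimHS.domA_pos s b hx).le
    refine (h m hm x hx y hy).trans ?_
    have h5 := inv_add_le hx0 hy1 ht0 ht1.le
    have h6 : C / (x + y + 1 / m) ≤ C * (x ^ (-t) * (y + 1 / m) ^ (t - 1)) := by
      rw [div_eq_mul_one_div, add_assoc]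
      gcongr
    calc LimHS.domA s b x * (C / (x + y + 1 / m) + P)
        ≤ LimHS.domA s b x * (C * (x ^ (-t) * (y + 1 / m) ^ (t - 1)) + P) := by gcongr
      _ = _ := by ring
  refine hle.trans ?_
  rw [integral_add (i1.const_mul _) (i0.const_mul _), integral_const_mul, integral_const_mul,
    ← hI1, ← hI0]
  have h7 : 0 ≤ (y + 1 / m) ^ (t - 1) := by positivity
  linarith only [mul_nonneg hC h1, mul_nonneg (mul_nonneg hP h0) h7]

theorem inn_tendsto {s : ℂ} (hs : ‖s‖ < 1) {b : ℝ} (hb : 0 < b) (hσ : 0 < b + 1 - 2 * s.re)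
    (D : ℕ) (p : ℕ → ℕ → ℝ) (n : ℕ) {ca : ℝ}
    (ha : ∀ x ∈ Ioo (0 : ℝ) 1, Tendsto (fun m : ℕ => alm s b m x) atTop (𝓝 (ca * alp s b x)))
    {y : ℝ} (hy : 0 < y) :
    Tendsto (fun m : ℕ => inn s b D p n m ⌊(m : ℝ) * y⌋₊) atTop
      (𝓝 ((ca * B0 s b * ryn s b D p n y : ℝ) : ℂ)) := by
  obtain ⟨C, P, hC, hP, h⟩ := itg_le hs hb hσ D p n
  have key : Tendsto (fun m : ℕ => ∫ x in Ioo (0 : ℝ) 1, itg s b D p n m ⌊(m : ℝ) * y⌋₊ x)
      atTop (𝓝 (∫ x in Ioo (0 : ℝ) 1, ((ca * alp s b x : ℝ) : ℂ) * conj (((1 - x) ^ n : ℝ) : ℂ)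
        * ((RR D p x y : ℝ) : ℂ))) := by
    apply tendsto_integral_filter_of_dominated_convergence
      (fun x => (C / y + P) * LimHS.domA s b x)
    · filter_upwards with m
      exact (itg_meas s b D p n m _).aestronglyMeasurable
    · filter_upwards [eventually_ge_atTop 1] with m hm
      filter_upwards [ae_restrict_mem measurableSet_Ioo] with x hx
      have hm0 : (0 : ℝ) < m := by exact_mod_cast hm
      have hx0 := hx.1
      have g4 := (LimHS.domA_pos s b hx).le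
      refine (h m hm x hx y hy).trans ?_
      rw [mul_comm]
      have h6 : C / (x + y + 1 / m) ≤ C / y := by
        apply div_le_div_of_nonneg_left hC hy
        have : (0 : ℝ) < 1 / m := by positivity
        linarith only [hx0, this]
      gcongr
    · exact (LimHS.domA_int0 hs (b := b) hσ).const_mul _
    · filter_upwards [ae_restrict_mem measurableSet_Ioo] with x hx
      exact (((Complex.continuous_ofReal.tendsto _).comp (ha x hx)).mul
        ((Complex.continuous_conj.tendsto _).comp (XD_tendsto n hx))).mul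
        (LimHS.rD_tendsto D p hx hy)
  have e : ∫ x in Ioo (0 : ℝ) 1, ((ca * alp s b x : ℝ) : ℂ) * conj (((1 - x) ^ n : ℝ) : ℂ)
        * ((RR D p x y : ℝ) : ℂ) = ((ca * B0 s b * ryn s b D p n y : ℝ) : ℂ) := by
    have hB := (LimHS.B0_pos hs hσ).ne'
    have e1 : ca * B0 s b * ryn s b D p n y
        = ca * ∫ x in Ioo (0 : ℝ) 1, alp s b x * (1 - x) ^ n * RR D p x y := by
      unfold ryn
      field_simp
    rw [e1, ← integral_const_mul, ← integral_complex_ofReal]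
    congr 1
    funext x
    rw [Complex.conj_ofReal]
    push_cast
    ring
  rw [e] at key
  refine key.congr' ?_
  filter_upwards [eventually_ge_atTop 1] with m hm
  exact (inn_eq s b D p n hm _).symm

/-- the integrand of the outer sum -/
noncomputable def oug (s : ℂ) (b : ℝ) (D : ℕ) (p : ℕ → ℕ → ℝ) (n k m : ℕ) (y : ℝ) : ℂ :=
  ((bem s b m y : ℝ) : ℂ) * (inn s b D p n m ⌊(m : ℝ) * y⌋₊
    * conj (inn s b D p k m ⌊(m : ℝ) * y⌋₊))

theorem oug_meas (s : ℂ) (b : ℝ) (D : ℕ) (p : ℕ → ℕ → ℝ) (n k m : ℕ) :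
    Measurable (oug s b D p n k m) :=
  LimX.step_meas m (fun j => ((bD s b m j * (m : ℝ) ^ (b + 1) : ℝ) : ℂ)
        * (inn s b D p n m j * conj (inn s b D p k m j)))

theorem oug_le {s : ℂ} (hs : ‖s‖ < 1) {b : ℝ} (hb : 0 < b) (hσ : 0 < b + 1 - 2 * s.re)
    (D : ℕ) (p : ℕ → ℕ → ℝ) (n k : ℕ) {t : ℝ} (ht0 : 0 < t) (ht1 : 2 * t ≤ 1)
    (ht : t < b + 1 - 2 * s.re) : ∃ K : ℝ, 0 ≤ K ∧
    ∀ m : ℕ, 1 ≤ m → ∀ y : ℝ, 0 < y → ‖oug s b D p n k m y‖
      ≤ K * ((1 + y) ^ (-b - 2) * y ^ (2 * t - 1) + (1 + y) ^ (-b - 1)) := by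
  obtain ⟨K1, hK1, h1⟩ := inn_le hs hb hσ D p n ht0.le (by linarith) ht
  obtain ⟨K2, hK2, h2⟩ := inn_le hs hb hσ D p k ht0.le (by linarith) ht
  obtain ⟨Cb, hCb, hbl⟩ := bem_le hs hb hσ
  refine ⟨2 * Cb * K1 * K2, by positivity, fun m hm y hy => ?_⟩
  have hm0 : (0 : ℝ) < m := by exact_mod_cast hm
  have hm1 : (1 : ℝ) / m ≤ 1 := by
    rw [div_le_one hm0]
    exact_mod_cast hm
  obtain ⟨g0, g1⟩ := hbl m hm y hy
  have g2 := h1 m hm y hy
  have g3 := h2 m hm y hy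
  set u : ℝ := y + 1 / m with hu
  have hu0 : 0 < u := by positivity
  have huy : y ≤ u := by
    have : (0 : ℝ) < 1 / m := by positivity
    linarith only [this]
  have hu1 : u ≤ 1 + y := by linarith only [hm1]
  have hW : 0 ≤ (1 + y) ^ (-b - 2) := by positivity
  have hU : 0 ≤ u ^ (t - 1) := by positivity
  unfold oug
  rw [norm_mul, norm_mul, RCLike.norm_conj, Complex.norm_real, Real.norm_eq_abs,
    abs_of_nonneg g0]
  have e1 : u * (u ^ (t - 1)) ^ 2 = u ^ (2 * t - 1) := by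
    rw [← Real.rpow_natCast (u ^ (t - 1)) 2, ← Real.rpow_mul hu0.le]
    nth_rewrite 1 [← Real.rpow_one u]
    rw [← Real.rpow_add hu0]
    congr 1
    push_cast
    ring
  have e2 : u ^ (2 * t - 1) ≤ y ^ (2 * t - 1) :=
    Real.rpow_le_rpow_of_nonpos hy huy (by linarith only [ht1])
  have e3 : (1 + y) ^ (-b - 2) * (1 + y) = (1 + y) ^ (-b - 1) := by
    have hy1 : (0 : ℝ) < 1 + y := by linarith only [hu0, hu1]
    rw [← Real.rpow_add_one hy1.ne']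
    congr 1
    ring
  have e4 : (u ^ (t - 1) + 1) * (u ^ (t - 1) + 1) ≤ 2 * (u ^ (t - 1)) ^ 2 + 2 := by
    linarith only [sq_nonneg (u ^ (t - 1) - 1)]
  calc bem s b m y * (‖inn s b D p n m ⌊(m : ℝ) * y⌋₊‖ * ‖inn s b D p k m ⌊(m : ℝ) * y⌋₊‖)
      ≤ (Cb * (u * (1 + y) ^ (-b - 2))) * ((K1 * (u ^ (t - 1) + 1))
          * (K2 * (u ^ (t - 1) + 1))) := by gcongr
    _ = Cb * K1 * K2 * (1 + y) ^ (-b - 2) * (u * ((u ^ (t - 1) + 1) * (u ^ (t - 1) + 1))) := by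
        ring
    _ ≤ Cb * K1 * K2 * (1 + y) ^ (-b - 2) * (u * (2 * (u ^ (t - 1)) ^ 2 + 2)) := by gcongr
    _ = 2 * Cb * K1 * K2 * (1 + y) ^ (-b - 2) * (u * (u ^ (t - 1)) ^ 2 + u) := by ring
    _ ≤ 2 * Cb * K1 * K2 * (1 + y) ^ (-b - 2) * (y ^ (2 * t - 1) + (1 + y)) := by
        rw [e1]
        gcongr
    _ = 2 * Cb * K1 * K2 * ((1 + y) ^ (-b - 2) * y ^ (2 * t - 1)
          + (1 + y) ^ (-b - 2) * (1 + y)) := by ring
    _ = _ := by rw [e3]

theorem dom_int {b t : ℝ} (hb : 0 < b) (ht0 : 0 < t) (ht1 : 2 * t ≤ 1) :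
    IntegrableOn (fun y : ℝ => (1 + y) ^ (-b - 2) * y ^ (2 * t - 1) + (1 + y) ^ (-b - 1))
      (Ioi 0) :=
  (integrable_domy hb (by linarith) ht1).add (integrable_tail hb)

theorem exists_t {s : ℂ} {b : ℝ} (hσ : 0 < b + 1 - 2 * s.re) :
    ∃ t : ℝ, 0 < t ∧ 2 * t ≤ 1 ∧ t < b + 1 - 2 * s.re :=
  ⟨min (1 / 2) ((b + 1 - 2 * s.re) / 2), lt_min (by norm_num) (by linarith only [hσ]),
    by linarith only [min_le_left (1 / 2) ((b + 1 - 2 * s.re) / 2)],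
    lt_of_le_of_lt (min_le_right _ _) (by linarith only [hσ])⟩

theorem oug_int {s : ℂ} (hs : ‖s‖ < 1) {b : ℝ} (hb : 0 < b) (hσ : 0 < b + 1 - 2 * s.re)
    (D : ℕ) (p : ℕ → ℕ → ℝ) (n k : ℕ) {m : ℕ} (hm : 1 ≤ m) :
    IntegrableOn (oug s b D p n k m) (Ioi 0) := by
  obtain ⟨t, ht0, ht1, ht⟩ := exists_t hσ
  obtain ⟨K, hK, h⟩ := oug_le hs hb hσ D p n k ht0 ht1 ht
  refine Integrable.mono' ((dom_int hb ht0 ht1).const_mul K)
    (oug_meas s b D p n k m).aestronglyMeasurable ?_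
  filter_upwards [ae_restrict_mem measurableSet_Ioi] with y hy
  exact h m hm y hy

theorem summable_scaled {s : ℂ} (hs : ‖s‖ < 1) {b : ℝ} (hb : 0 < b)
    (hσ : 0 < b + 1 - 2 * s.re) (D : ℕ) (p : ℕ → ℕ → ℝ) (n k : ℕ) {m : ℕ} (hm : 1 ≤ m) :
    Summable (fun j => ‖((bD s b m j * (m : ℝ) ^ (b + 1) : ℝ) : ℂ)
        * (inn s b D p n m j * conj (inn s b D p k m j))‖) :=
  (LimX.step_int hm _).mp (oug_int hs hb hσ D p n k hm)

theorem scaled_eq (s : ℂ) (b : ℝ) (D : ℕ) (p : ℕ → ℕ → ℝ) (n k : ℕ) {m : ℕ} (hm : 1 ≤ m)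
    (j : ℕ) : (bD s b m j : ℂ)
      * ((∑ i ∈ Finset.range m, (aD s b m i : ℂ) * conj (XD s m n i) * rD s D p m i j)
        * conj (∑ i ∈ Finset.range m, (aD s b m i : ℂ) * conj (XD s m k i)
            * rD s D p m i j))
      = (((m : ℝ) ^ (b + 3) : ℝ) : ℂ) * (((bD s b m j * (m : ℝ) ^ (b + 1) : ℝ) : ℂ)
        * (inn s b D p n m j * conj (inn s b D p k m j))) := by
  have hm0 : (0 : ℝ) < m := by exact_mod_cast hm
  have h2 : (((m : ℝ) ^ (b + 2) : ℝ) : ℂ) ≠ 0 := by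
    exact_mod_cast (Real.rpow_pos_of_pos hm0 _).ne'
  have e : ((m : ℝ) ^ (b + 3)) * (m : ℝ) ^ (b + 1) = ((m : ℝ) ^ (b + 2)) ^ 2 := by
    rw [← Real.rpow_natCast ((m : ℝ) ^ (b + 2)) 2, ← Real.rpow_mul hm0.le, ← Real.rpow_add hm0]
    congr 1
    push_cast
    ring
  have e2 : (((m : ℝ) ^ (b + 3) : ℝ) : ℂ) * (((bD s b m j * (m : ℝ) ^ (b + 1) : ℝ) : ℂ))
      = (bD s b m j : ℂ) * (((m : ℝ) ^ (b + 2) : ℝ) : ℂ) ^ 2 := by
    rw [← Complex.ofReal_mul, ← Complex.ofReal_pow, ← Complex.ofReal_mul, ← e]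
    congr 1
    ring
  rw [← mul_assoc (((m : ℝ) ^ (b + 3) : ℝ) : ℂ), e2]
  unfold inn
  rw [map_mul, map_inv₀, Complex.conj_ofReal]
  field_simp

theorem summable_main {s : ℂ} (hs : ‖s‖ < 1) {b : ℝ} (hb : 0 < b) (hσ : 0 < b + 1 - 2 * s.re)
    (D : ℕ) (p : ℕ → ℕ → ℝ) (n k m : ℕ) : Summable (fun j => (bD s b m j : ℂ)
      * ((∑ i ∈ Finset.range m, (aD s b m i : ℂ) * conj (XD s m n i) * rD s D p m i j)
        * conj (∑ i ∈ Finset.range m, (aD s b m i : ℂ) * conj (XD s m k i)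
            * rD s D p m i j))) := by
  rcases Nat.eq_zero_or_pos m with hm | hm
  · rw [hm]
    simp only [Finset.range_zero, Finset.sum_empty, zero_mul, mul_zero]
    exact summable_zero
  · have h := (summable_scaled hs hb hσ D p n k hm).of_norm
    refine (h.mul_left (((m : ℝ) ^ (b + 3) : ℝ) : ℂ)).congr fun j => ?_
    rw [scaled_eq s b D p n k hm]

end LimY

open LimY

theorem lim_y {s : ℂ} (hs0 : s ≠ 0) (hs : ‖s‖ < 1) {b : ℝ} (hb : 0 < b)
    (hσ : 0 < b + 1 - 2 * s.re) (D : ℕ) (p : ℕ → ℕ → ℝ) (n k : ℕ) :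
    (∀ m, Summable (fun j => (bD s b m j : ℂ)
      * ((∑ i ∈ Finset.range m, (aD s b m i : ℂ) * conj (XD s m n i) * rD s D p m i j)
        * conj (∑ i ∈ Finset.range m, (aD s b m i : ℂ) * conj (XD s m k i)
            * rD s D p m i j)))) ∧
    Tendsto (fun m : ℕ => ((1 / ((m : ℝ) ^ 2 * (KS s * pq (b + 3) (m - 1))) : ℝ) : ℂ)
      * ∑' j, (bD s b m j : ℂ)
        * ((∑ i ∈ Finset.range m, (aD s b m i : ℂ) * conj (XD s m n i) * rD s D p m i j)
          * conj (∑ i ∈ Finset.range m, (aD s b m i : ℂ) * conj (XD s m k i)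
              * rD s D p m i j))) atTop
      (𝓝 ((Es s b * MR s b D p n k : ℝ) : ℂ)) := by
  refine ⟨fun m => summable_main hs hb hσ D p n k m, ?_⟩
  obtain ⟨ca, cb, hca, hcb, hcc, ha, hbt, hK⟩ := asy_consts hs0 hs hb hσ
  obtain ⟨t, ht0, ht1, ht⟩ := exists_t hσ
  obtain ⟨K, hK0, h⟩ := oug_le hs hb hσ D p n k ht0 ht1 ht
  have hB := LimHS.B0_pos hs hσ
  have key : Tendsto (fun m : ℕ => ∫ y in Ioi (0 : ℝ), oug s b D p n k m y) atTop
      (𝓝 (∫ y in Ioi (0 : ℝ), ((cb * bet b y : ℝ) : ℂ)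
        * (((ca * B0 s b * ryn s b D p n y : ℝ) : ℂ)
          * conj ((ca * B0 s b * ryn s b D p k y : ℝ) : ℂ)))) := by
    apply tendsto_integral_filter_of_dominated_convergence
      (fun y => K * ((1 + y) ^ (-b - 2) * y ^ (2 * t - 1) + (1 + y) ^ (-b - 1)))
    · filter_upwards with m
      exact (oug_meas s b D p n k m).aestronglyMeasurable
    · filter_upwards [eventually_ge_atTop 1] with m hm
      filter_upwards [ae_restrict_mem measurableSet_Ioi] with y hy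
      exact h m hm y hy
    · exact (dom_int hb ht0 ht1).const_mul K
    · filter_upwards [ae_restrict_mem measurableSet_Ioi] with y hy
      have hy0 : 0 < y := hy
      exact ((Complex.continuous_ofReal.tendsto _).comp (hbt y hy0)).mul
        ((inn_tendsto hs hb hσ D p n ha hy0).mul
          ((Complex.continuous_conj.tendsto _).comp (inn_tendsto hs hb hσ D p k ha hy0)))
  have hKi := hK.inv₀ (by positivity)
  have key2 := ((Complex.continuous_ofReal.tendsto _).comp hKi).mul key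
  have e : (((ca * B0 s b)⁻¹ : ℝ) : ℂ) * ∫ y in Ioi (0 : ℝ), ((cb * bet b y : ℝ) : ℂ)
        * (((ca * B0 s b * ryn s b D p n y : ℝ) : ℂ)
          * conj ((ca * B0 s b * ryn s b D p k y : ℝ) : ℂ))
      = ((Es s b * MR s b D p n k : ℝ) : ℂ) := by
    have e1 : ∫ y in Ioi (0 : ℝ), ((cb * bet b y : ℝ) : ℂ)
        * (((ca * B0 s b * ryn s b D p n y : ℝ) : ℂ)
          * conj ((ca * B0 s b * ryn s b D p k y : ℝ) : ℂ))
        = ((cb * (ca * B0 s b) ^ 2 * MR s b D p n k : ℝ) : ℂ) := by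
      unfold MR
      rw [← integral_const_mul, ← integral_complex_ofReal]
      congr 1
      funext y
      rw [Complex.conj_ofReal]
      push_cast
      ring
    rw [e1, ← Complex.ofReal_mul]
    congr 1
    unfold Es
    rw [← hcc]
    field_simp
  rw [e] at key2
  refine key2.congr' ?_
  filter_upwards [eventually_ge_atTop 1] with m hm
  have hm0 : (0 : ℝ) < m := by exact_mod_cast hm
  have h1 := LimX.step_eq hm _ (summable_scaled hs hb hσ D p n k hm)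
  simp only [Function.comp_apply]
  have h2 : ∫ y in Ioi (0 : ℝ), oug s b D p n k m y
      = (1 / (m : ℂ)) * ∑' j, ((bD s b m j * (m : ℝ) ^ (b + 1) : ℝ) : ℂ)
        * (inn s b D p n m j * conj (inn s b D p k m j)) := h1
  rw [h2]
  simp only [scaled_eq s b D p n k hm]
  rw [tsum_mul_left, ← mul_assoc, ← mul_assoc]
  congr 1
  have hpq : 0 < pq (b + 3) (m - 1) := pq_pos (by linarith only [hb]) _
  have hKS := KS_pos hs
  have e3 : (m : ℝ) ^ (b + 3) = (m : ℝ) ^ (b + 2) * m := by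
    rw [show b + 3 = (b + 2) + 1 by ring, Real.rpow_add hm0 (b + 2) 1, Real.rpow_one]
  have e4 : (KS s * pq (b + 3) (m - 1) / (m : ℝ) ^ (b + 2))⁻¹ * (1 / (m : ℝ))
      = 1 / ((m : ℝ) ^ 2 * (KS s * pq (b + 3) (m - 1))) * (m : ℝ) ^ (b + 3) := by
    rw [e3]
    have : (m : ℝ) ^ (b + 2) ≠ 0 := (Real.rpow_pos_of_pos hm0 _).ne'
    field_simp
  rw [← Complex.ofReal_mul, ← e4]
  push_cast
  rfl

end Pool.Agent.M16.Helper24.HR2

end

section

set_option autoImplicit false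

open Filter Topology Finset

open scoped ComplexConjugate

namespace Pool.Agent.M16.Helper37.PFS

theorem main_fin2 (m D : ℕ) (a : ℕ → ℝ) (ha : ∀ i ∈ range m, 0 < a i) (w : ℕ → ℝ)
    (hw : ∀ j, 0 ≤ w j) (Y : ℕ → ℝ) (r : ℕ → ℕ → ℂ) (A : ℕ → ℝ) (S : ℕ → ℕ → ℂ)
    (hA : ∀ l, Tendsto (fun J => ∑ j ∈ range J, w j * Y j ^ l) atTop (𝓝 (A l)))
    (hS : ∀ l, ∀ i ∈ range m,
      Tendsto (fun J => ∑ j ∈ range J, (w j : ℂ) * (Y j : ℂ) ^ l * r i j) atTop (𝓝 (S l i)))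
    {HS κ τ RQ : ℝ} (hHS : ∀ J, ∑ j ∈ range J, ∑ i ∈ range m, w j * a i * ‖r i j‖ ^ 2 ≤ HS)
    (hκ : 0 < κ) (hτ : 0 < τ) (h1 : (1 + κ) * HS + τ ≤ 1) (U q f : ℕ → ℂ)
    (hRQ : ∀ J, ∑ j ∈ range J, w j * ‖∑ i ∈ range m, ((a i : ℂ) * q i) * r i j‖ ^ 2 ≤ RQ)
    (J : ℕ) :
    2 * (∑ i ∈ range m, conj (q i) * U i).re
        - (∑ i ∈ range m, a i * ‖q i‖ ^ 2) - (1 + 1 / κ) * RQ
        - (∑ l ∈ range (D + 1), ∑ k ∈ range (D + 1), (f l * conj (f k)).re * A (l + k))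
        - 2 * (∑ l ∈ range (D + 1), conj (f l) * ∑ i ∈ range m, ((a i : ℂ) * q i) * S l i).re
        - 1 / τ * (∑ i ∈ range m, a i * ‖∑ l ∈ range (D + 1), conj (f l) * S l i‖ ^ 2)
      ≤ (∑ i ∈ range m, ‖U i‖ ^ 2 / a i)
        - ∑ j ∈ range J, w j * ‖(∑ l ∈ range (D + 1), f l * (Y j : ℂ) ^ l)
          + ∑ i ∈ range m, U i * r i j‖ ^ 2 := by
  set u0 : ℕ → ℂ := fun i => (a i : ℂ) * q i with hu0
  set v : ℕ → ℂ := fun i => U i - u0 i with hv
  set P0 := ∑ i ∈ range m, ‖u0 i‖ ^ 2 / a i with hP0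
  set Pv := ∑ i ∈ range m, ‖v i‖ ^ 2 / a i with hPv
  have hPvn : 0 ≤ Pv := Finset.sum_nonneg (fun i hi => by have := ha i hi; positivity)
  -- the value of P0
  have eP0 : P0 = ∑ i ∈ range m, a i * ‖q i‖ ^ 2 := by
    apply Finset.sum_congr rfl
    intro i hi
    have := ha i hi
    rw [hu0]
    simp only
    rw [norm_mul, Complex.norm_real, Real.norm_of_nonneg this.le]
    field_simp
  -- decomposition of P
  have eP : ∑ i ∈ range m, ‖U i‖ ^ 2 / a i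
      = 2 * (∑ i ∈ range m, conj (q i) * U i).re - P0 + Pv := by
    have e : ∀ i ∈ range m, ‖U i‖ ^ 2 / a i
        = 2 * (conj (q i) * U i).re - ‖u0 i‖ ^ 2 / a i + ‖v i‖ ^ 2 / a i := by
      intro i hi
      have hi' := ha i hi
      have e1 : ‖v i‖ ^ 2 = ‖U i‖ ^ 2 - 2 * a i * (conj (q i) * U i).re + ‖u0 i‖ ^ 2 := by
        have e2 : v i = -u0 i + U i := by simp only [hv]; ring
        rw [e2, nsq_add, norm_neg]
        have e3 : (conj (-u0 i) * U i).re = - (a i * (conj (q i) * U i).re) := by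
          have : conj (-u0 i) * U i = ((-a i : ℝ) : ℂ) * (conj (q i) * U i) := by
            simp only [hu0, map_neg, map_mul, Complex.conj_ofReal]
            push_cast
            ring
          rw [this, Complex.re_ofReal_mul]
          ring
        rw [e3]
        ring
      rw [e1]
      field_simp
      ring
    rw [Finset.sum_congr rfl e, Finset.sum_add_distrib, Finset.sum_sub_distrib,
      ← Finset.mul_sum, ← Complex.re_sum]
  -- the bound for a finite number of terms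
  set G : ℕ → ℝ := fun J' =>
    (∑ l ∈ range (D + 1), ∑ k ∈ range (D + 1), (f l * conj (f k)).re
        * ∑ j ∈ range J', w j * Y j ^ (l + k))
      + 2 * (∑ l ∈ range (D + 1), conj (f l) * ∑ i ∈ range m, u0 i
        * ∑ j ∈ range J', (w j : ℂ) * (Y j : ℂ) ^ l * r i j).re
      + 2 * (∑ l ∈ range (D + 1), conj (f l) * ∑ i ∈ range m, v i
        * ∑ j ∈ range J', (w j : ℂ) * (Y j : ℂ) ^ l * r i j).re
      + ((1 + 1 / κ) * RQ + (1 + κ) * (Pv * HS)) with hG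
  have hle : ∀ J' : ℕ, ∑ j ∈ range J', w j * ‖(∑ l ∈ range (D + 1), f l * (Y j : ℂ) ^ l)
      + ∑ i ∈ range m, U i * r i j‖ ^ 2 ≤ G J' := by
    intro J'
    have hpt : ∀ j ∈ range J', w j * ‖(∑ l ∈ range (D + 1), f l * (Y j : ℂ) ^ l)
        + ∑ i ∈ range m, U i * r i j‖ ^ 2
        ≤ w j * ‖∑ l ∈ range (D + 1), f l * (Y j : ℂ) ^ l‖ ^ 2
          + w j * (2 * (conj (∑ l ∈ range (D + 1), f l * (Y j : ℂ) ^ l)
            * ∑ i ∈ range m, u0 i * r i j).re)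
          + w j * (2 * (conj (∑ l ∈ range (D + 1), f l * (Y j : ℂ) ^ l)
            * ∑ i ∈ range m, v i * r i j).re)
          + ((1 + 1 / κ) * (w j * ‖∑ i ∈ range m, u0 i * r i j‖ ^ 2)
            + (1 + κ) * (w j * ‖∑ i ∈ range m, v i * r i j‖ ^ 2)) := by
      intro j _
      have e : ∑ i ∈ range m, U i * r i j
          = ∑ i ∈ range m, u0 i * r i j + ∑ i ∈ range m, v i * r i j := by
        rw [← Finset.sum_add_distrib]
        apply Finset.sum_congr rfl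
        intro i _
        simp only [hv]
        ring
      rw [e]
      have h := mul_le_mul_of_nonneg_left (sq3 (∑ l ∈ range (D + 1), f l * (Y j : ℂ) ^ l)
        (∑ i ∈ range m, u0 i * r i j) (∑ i ∈ range m, v i * r i j) hκ) (hw j)
      linarith only [h]
    refine (Finset.sum_le_sum hpt).trans ?_
    rw [Finset.sum_add_distrib, Finset.sum_add_distrib, Finset.sum_add_distrib,
      Finset.sum_add_distrib, ← Finset.mul_sum, ← Finset.mul_sum, quad, cross, cross]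
    have c1 := (cs2 (range m) a ha w hw v r J').trans
      (mul_le_mul_of_nonneg_left (hHS J') hPvn)
    have c0' := mul_le_mul_of_nonneg_left (hRQ J') (by positivity : 0 ≤ 1 + 1 / κ)
    have c1' := mul_le_mul_of_nonneg_left c1 (by positivity : 0 ≤ 1 + κ)
    simp only [hG]
    linarith only [c0', c1']
  -- the limit
  set Gi : ℝ := (∑ l ∈ range (D + 1), ∑ k ∈ range (D + 1), (f l * conj (f k)).re * A (l + k))
      + 2 * (∑ l ∈ range (D + 1), conj (f l) * ∑ i ∈ range m, u0 i * S l i).re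
      + 2 * (∑ l ∈ range (D + 1), conj (f l) * ∑ i ∈ range m, v i * S l i).re
      + ((1 + 1 / κ) * RQ + (1 + κ) * (Pv * HS)) with hGi
  have hlim : Tendsto G atTop (𝓝 Gi) := by
    have hc : ∀ x : ℕ → ℂ, Tendsto (fun J' : ℕ => 2 * (∑ l ∈ range (D + 1), conj (f l)
        * ∑ i ∈ range m, x i * ∑ j ∈ range J', (w j : ℂ) * (Y j : ℂ) ^ l * r i j).re) atTop
        (𝓝 (2 * (∑ l ∈ range (D + 1), conj (f l) * ∑ i ∈ range m, x i * S l i).re)) := by
      intro x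
      apply Tendsto.const_mul
      apply (Complex.continuous_re.tendsto _).comp
      apply tendsto_finsetSum
      intro l _
      apply Tendsto.const_mul
      apply tendsto_finsetSum
      intro i hi
      exact (hS l i hi).const_mul _
    refine Tendsto.add (Tendsto.add (Tendsto.add ?_ (hc u0)) (hc v)) tendsto_const_nhds
    apply tendsto_finsetSum
    intro l _
    apply tendsto_finsetSum
    intro k _
    exact (hA (l + k)).const_mul _
  have hfin : ∑ j ∈ range J, w j * ‖(∑ l ∈ range (D + 1), f l * (Y j : ℂ) ^ l)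
      + ∑ i ∈ range m, U i * r i j‖ ^ 2 ≤ Gi := by
    apply ge_of_tendsto hlim
    filter_upwards [eventually_ge_atTop J] with J' hJ'
    refine le_trans ?_ (hle J')
    apply Finset.sum_le_sum_of_subset_of_nonneg
    · exact Finset.range_subset_range.2 hJ'
    · intro j _ _
      exact mul_nonneg (hw j) (sq_nonneg _)
  -- the cross term with `v`
  have hcv : 2 * (∑ l ∈ range (D + 1), conj (f l) * ∑ i ∈ range m, v i * S l i).re
      ≤ τ * Pv + 1 / τ * ∑ i ∈ range m, a i * ‖∑ l ∈ range (D + 1), conj (f l) * S l i‖ ^ 2 := by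
    have e : ∑ l ∈ range (D + 1), conj (f l) * ∑ i ∈ range m, v i * S l i
        = ∑ i ∈ range m, v i * ∑ l ∈ range (D + 1), conj (f l) * S l i := by
      have e1 : ∀ l ∈ range (D + 1), conj (f l) * ∑ i ∈ range m, v i * S l i
          = ∑ i ∈ range m, v i * (conj (f l) * S l i) := by
        intro l _
        rw [Finset.mul_sum]
        apply Finset.sum_congr rfl
        intro i _
        ring
      rw [Finset.sum_congr rfl e1, Finset.sum_comm]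
      apply Finset.sum_congr rfl
      intro i _
      rw [Finset.mul_sum]
    rw [e, Complex.re_sum, Finset.mul_sum, hPv, Finset.mul_sum, Finset.mul_sum,
      ← Finset.sum_add_distrib]
    apply Finset.sum_le_sum
    intro i hi
    have hi' := ha i hi
    have h2 := re_mul_le (v i) (∑ l ∈ range (D + 1), conj (f l) * S l i)
    have h3 := two_mul_le (x := ‖v i‖) (y := ‖∑ l ∈ range (D + 1), conj (f l) * S l i‖)
      (div_pos hτ hi')
    have e2 : τ / a i * ‖v i‖ ^ 2 = τ * (‖v i‖ ^ 2 / a i) := by ring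
    have e3 : ‖∑ l ∈ range (D + 1), conj (f l) * S l i‖ ^ 2 / (τ / a i)
        = 1 / τ * (a i * ‖∑ l ∈ range (D + 1), conj (f l) * S l i‖ ^ 2) := by
      field_simp
    rw [e2, e3] at h3
    linarith only [h2, h3]
  have hfinal : 0 ≤ (1 - ((1 + κ) * HS + τ)) * Pv := mul_nonneg (by linarith only [h1]) hPvn
  rw [eP]
  rw [← eP0]
  simp only [hGi] at hfin
  have e4 : (1 - ((1 + κ) * HS + τ)) * Pv = Pv - (1 + κ) * (Pv * HS) - τ * Pv := by ring
  rw [e4] at hfinal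
  linarith

end Pool.Agent.M16.Helper37.PFS

end

section

set_option autoImplicit false

set_option maxRecDepth 100000

namespace Pool.Agent.M16.Helper98.HR2

open Pool.Agent.M16.Helper54.HR2

open Pool.Agent.M16.Helper12.HR2 (Mo GZ Par)

end Pool.Agent.M16.Helper98.HR2

end

end
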