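import Mathlib
import Pool.Agent.Helper60.BE.T29
import Pool.Agent.Helper60.BE.T30

set_option linter.all false

section

namespace Pool.Agent.M16.Helper12.HR2
end Pool.Agent.M16.Helper12.HR2
namespace Pool.Agent.M16.Helper54.HR2
end Pool.Agent.M16.Helper54.HR2

section

set_option autoImplicit false

set_option maxRecDepth 100000

set_option linter.all false

namespace Pool.Agent.M16.Helper54.HR2

open Pool.Agent.M16.Helper12.HR2 (Mo)

/-- the codes of the monomials -/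
noncomputable def rep79 (j : ℕ) : ℕ := Nat.mod (Nat.shiftRight 2647374665137635745730569861978170983433319958969809564766005841092830239916201444581085005237371868499923163260761101492625539298616678395951764124397452828616211958332912523492918065460226752699234220712271831397172333536988024172643130476212570675446853177180011442803764546115137677307021622311181770489428527333529750163482980171034438001461172488594642717384280967023666226298150502723774202577228026967021963390496541092726807322111829981785172432746810290040532465565967635563701021218127594759277913639436970695905735190183569282998370031666464634630377264350361679142862768102586844245494380097588184915961819111069181211274723056474308612543602115575883548269035689062765056492730055599840862280909102065117756926637446411504792636701615078344024188133623080082592788893368798286124040963061707824415391702420285444476053542160946186530550923025064262637048103037322833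20330495694229019541097901859367596108073487396291376402243422996278733805073865410011520012012118638911793114911204829160850017182581739218250477603537438900196708688384519500691793882222127154087069608283961877968533193805782615027835233170593855752449596352995982234433568738946536941327289372123209415674066462576420297706957387103869791050217976233405628843047815268162636330120926949547568518735258352800575096742921912806615914109978038134720797575387621923072773961947190483151876910376896131443428292657612194330727489540930856225930093426526985119495517639863539173942065953551241931430945690288548820537105880116313060085481858058411670909271843755885122759213980869962320064749678018396557430979968605035127226391722910131224325037782800553710385973781265145397301459930021242445052038038970191527796171435400703259635855076699252292763270920293405937596110642626495151120549394391701964301958159368449754223178015068153847253921144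74703919146245178227781674699077166083710933451592040498491217533591585792837140100570360264582706446618432259699826704462674543329960359738929541507211251069789045483442627706904410739529432887761218830742572025638910589510566001215917820128560765488423405894421358200316907422196065494485954428705739663104734018830579858847222944238046693809066330856895732916585816741844990111753530564692421470982364834747121099299797508309064056834698389039342868231888651677046751671825944437296138932313408188006616523569855230516455101864169178896786998316090327393481864097414720706404686794253373055087134514539014753425369407060372018202174796850041470121701221279508403979115423305476602174437306300920048689329249083651981514288618068236828640141652320634843495680540364329390874198158248043155544101129745464288341009309117776006601069149619286358048243650156543382071191726392429608035357468768304612322645598952494734016151249442168969640903611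09566326032616341202398527522600074467019509461194756327465027642834112845608987734565807478038892772682303322472233760779662093520575788109641622238246241394146084393414444279597510474487718500864638768150328507779100582151998583900288889567545684380494613365622243220822777842350063803074308217113055780912945066633460423657541669682867900393959218565607767898380417287459691553509075424513275249758101775994010938944901549125609130914391031167657828641409805383405883180078493263892035268264203467791072487929829790509633431707692982186139019391807249892873102332645779919552403402955505359400238916706053330603617316614995588690571351882730950769610536733381553051589693673769069444302354590094298030893793445929562935455087951931096695434238462955766657472667487651447751142017801115769023709940867967431432862289315920193001531133812313824229250978035619562604318463666108285974578142717900102207161430026623005517602343606540849512943782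35818437908080980408127427051327620244099816462355579047592239717547011735391838695530104524221449513455148696094939523541549110099184029418546204588498362345990008326428024902506081416985915930140003888979426505170358282361169798602448783213310689372500382924788673528641122936561762145932201744849938095929618717386708782836170448714208257148605612597653851135595760630864267126231115137802658885481623831516638289517446559327437655329007288375430387228890114067241676063975943205624386934876835396693915104731635041622664193162239656506494739071996216839704025656342314653504603602578083252170399618858064339431992893669806180109677992462150416687885082225587157884069775204148153655243717770449381106837176318950664004242478343644717166952712808908314132204696363342692466341076120958636713478760141204476022838311240287496457255043169335232917014074925566029462784024987488550915488382140728110258191583982283728426046656861105579313377105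15468167837904664800345369352540201159542653393966888441706760862547968380660057795248040784726146439407777711368256041922284861736638834129237157069172886749435663948837766538248417972523420424237621233268390907726690769862992855139564553368297242999505657157973820702572688960052233959770280532498366154144414769117618174949196608195394328770633782801294696152178665399672548919655149231094400028493624607375249119654025365583785345774350935916413635337900619173448558912348067904393178233554218756639061298114415815620321838472811353128099895788097410614146115137058719714157151549510866376290413398001186241197800632947430416450219902191024754298401537852840820545962421273642739847073834138926564512033006535151242425334473955369476896423929795677527320788030048648893750153031147296126180999639379038854606363275357829096230658202191097671385721470612508756787228831194687752489061851140616692544377407509378352858362775644276493544973984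23305895013922864851838132315450255214063701000959817894316818457036056594448461943440951447746657652178700356638318826292349771662883884054686004362144839120507039233731410715985259631845765260007325868790352374385829568710773490531239305319128357771552300402567575626979166027376617084148458788053964639730285622851501262088147554212485752753739936335288958607937907860121254884343594479921112677034976224020106375982229924970411972566296313769319569977601092139170736612940746396920628163941761930719782068485694424912904391739961430914619364987718164509830644814770405594490241725633374175597875176726128664957739777180914878965168100570769476965213422700380169471390722437262142699672980647912199823573706654506762554763682676043389166130578512713929939033689061225667316501266663705392348427096134978989650096441088014227440286288918324046237157599387701191370150412723745710082165275970189712138148731436816233801988017999655306719492058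88662804568032806094093012269349381255671054178580151231814759071437644048550447768912070758573269991193437636387370308520850485498143109190333926017266806043563434401464669119043962086464792579830139401643045956896162485469848237242029255035630522694141235229447129561938846250552508532682459311986886862979991739097565204478674216676604460467822089124212139090732891238833081235658548766322526686439726489857853459554801447329837273297562482506590476399355870464483628462027430978454679154868391553591503961471495036267076381034989013802920541982334786178415052832209939811432890193872696618181804608138189184526847992491506019366878225439515654010269190470743382530299561713257736971823648644277553386057716041942802601057815295660885786739672663703420040492165163256887208848093784537330674484037070698760782885373761709257991522532522796854941029710518933124138726919720446211539861399919835504317071493075674727327007309650891900718099286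46157496718873102857587020182545386899255431685832402915844688248118790496675411561252358687883104086056172108657511826051634717366131282222708414864437383227125904574796988954605243372626466704982539919326452112862267843822873668782200494688889862302135369225483259559542462862636392890185594319463169986644786255603255671272331312576064639632663398774369182460979490492258041283395868221328552389540221203714222242479408318313364277593419258976978920867365690736621172264815560972678026223712105130096102305087403432953485892193871676531213530542019547861006479724380455151302103910997879983249740522041430938904017355241037439429259664887461194469661750677065336099519093122236931216179820723422199612782070941229961422411392712293210342430821022472018444692932850382101177317229048418262865243671557468570268034379855827150898109462668760106819380458382420849635543545757449792860751578120849872861290524287805614512475514365266022577488080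73623971020206737351908781304683651248412885587684854283241977585563771934008925732352193673090599288909698377129880148826864560754101121534452727577900572492176296984590562837400970063850152261803415555958910649551863387776432516579069337294675711976082114923631060025368014114723855900335417302956010602343319455211566314064783801566763630123075975852279252206149048442677045092209512064301565529233470614599619551064577158088937177581934106957687514601071687217919443131683106083897055551664820792770533507620780517423445780014124057737054491048851144609074421061883211889059532788230025835635197863790090342936105231551074893233179925735976710903258942172113855851808275802047103288779038205080565763273286158158869016522253020731811140692679294038369732582648289182424352452518072508808222515158868991524702210910470612146297463401370072101365933742225856228020415953103866045262889970408160974107824947634105668823269120426315442639920954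93540767949344332341871659846111576851885972519939296071836340268612658998162591626492380308128590214222504307241193358794099883925798678171242361975950342761542028670669450857372901575393716979247661688663587082296469345817416386210643133983120915998925370975196394461187045539979144202165106281328315187040056181610012565567306972054313521413950033894307552625864136745010093926081387899037932939310823620314402765660990289233126963570995810632817347200212754587679817978373961653391957757996269246101474403856530829316852523600524460951731299712568612164604076945938502090439078220969198382822154708840325771883170985284876824307112965772147531542569740978465133098993677194074232839351282180827723682825506349195302810968004581386584824727397272036454013586309229262693673205394951241246551761696948866838355685076396972088694658297343446861619418474374141102106118463156118512801301698996450410912791248568481468408160277004275009319143637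27762012215818656170678081030078272608730552122914854829257812406956444463008521130663263226886044248489685218798866042328044696375928342658562988849620249049183342447597922822035560823268858500162958265879866124226330870639198901576568895414246995174088298967229750764718540350654961644937914855635371767986616261759283062828813750970126468558768859878287406944662385858680395321172662333807750606080497519931835385892934036097070788199560906501636212423181928120081100312405920399118144474450089063533488746978770929680816690404170307082191050933188902497097417375076470646817832153704890869755190615088910240441447893193913554347344900168837117597446101260988715595190661376735029295676660520741028996610251362643153670699179788382021736377629728073105121754294151427048304580678168755774833629700294053775236932777010682593626032465724221600135781952709974867005678562217818656621823111016840511108303084394626753067570581774289012895107988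93283816194344328808529534630003132700578564036182079024384307335939064825812967389255114176648407705525028968296911650397422901581368361434414466185458214365262600686351889979440025311336071523053732407849831577703997440950195309872049835764669412987546739741441074235817827906698239708908579620776773115535246143708510473634118598213986323021677296005137396054817654648178350758147352441017696882219158780867522485045423258525357212069218936972958488413790623959225212648258129426224171870200643272493199626560861511126107593276479274342552986975766881037785178148173225491422988616387314855263650818520191072094412600429411072531672328372073069328155263821803156742255057009394632642130330934696639232014469738987782421393889934103454717904071355815335580649688912510233592004452373845606544915427050292449158660883551029001363656078316637959965738103068007777358116421943872524395170381267353433358008341203869898321730240138946001139171975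012635294279315225701844526348078795356832627945218091068133483556879947185292155970518837487954832580782262275977114505077105295497342531644099271150993458307018932373570635691134596508526527529002639736037140680773378267274294010544434486867367897419652056440441782777674792746922876863505280110068980360927052569154522782550120780597530138807081625830870702549607096627649610649573367526236968797761174356525624554890112209130591244085592549071434240922310292123271872014761048217663417089909830135955847260591675526386098721991359041015348440089739590458919865183571636192429933677995251000519827470044923846228769971243072602837246146545276621102920724980814051113986590493442039155729582251857538179655740233944740885569965662603511238891663967697542060492765285106365570102972758639969133305078933002113366845180879507681881209805085949197893413864140723341313251493686550808972854455892205385825726643096363558921392789411763664005715801054406256202254681610384772551772785219450879440819190629495778488201406339737949154883921583153007058154106575185583800320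 (Nat.mul 48 j)) 281474976710656

/-- the codes of the basis monomials -/
noncomputable def kb79 (j : ℕ) : ℕ := Nat.mod (Nat.shiftRight 1104819145324986694827935301616364489854261053270840891682957331329713048859323644348170124177736694238266801931148997138442073862056317134138058674049360208443271606180793018816646420050534514372059341487766261277607689741142380905141104365889801120144307723918304388780761659071698184956974242277848094380357854397749082582894147218024806942870306590533142546188910609809917339742297488877994122624076270151513895240308177203711600419278735323043840029468384714403680404934489563093874716390568874870564965787067550289468116094576878781171340792395537855083135105053183592139288836893196566281504050834628711647872575312895046186150813371249023690116157191736350766467066375937886021922352826472983406190135806967447617135124224276531498006182536098195438801581810153806845079489911192896181971742024851401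63288273158650150368930121480637102660524240926509302368754338832915494596726353169601144015919678400906093828803921741991074511253039498513664941830230908307462271143980811391594947730953287408591660638436775396630894899011454052496606728599283633535183523196145986091059623530759629028915942729283346270250847682010816526566541261346381490216342488745963814596641304548550855144894974592279737347934685091307918020807680917868332612206385262326609377050149589255840918297921877772226113497092563324350152111686980446190925020655049882173153342773199782053594051345718989951163416000577821108529140443294905802873449727763598596689437942591740611203818047652646752831788150771935379025280127273946872108213047355119714291915226517311771634242437622650739248421975089293180654220055308268270889638671925928033973227475085739455083527228570174617463117781216186745172382242344701672316918581302839053974458583084482028038236188190376214224357869943360433477818111384407930202737936495139006253149885253628368589738019009728005043718594302160111366973104856160594068959468035066727050305220903607858524762610665395557985937275686590377895365289189313974155673481688561792104374640466203980595200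 (Nat.mul 48 j)) 281474976710656

/-- the basis monomials -/
noncomputable def bas79 : List Mo := [
  ([], []), ([], [0]), ([0], []), ([], [0, 0]), ([], [1]), ([0], [0]), ([0, 0], []), ([1], []),
  ([], [0, 0, 0]), ([], [0, 1]), ([], [2]), ([0], [0, 0]), ([0], [1]), ([0, 0], [0]), ([1], [0]),
  ([0, 0, 0], []), ([0, 1], []), ([2], []), ([0], [0, 0, 0]), ([0], [0, 1]), ([0], [2]),
  ([0, 0], [0, 0]), ([0, 0], [1]), ([1], [0, 0]), ([1], [1]), ([0, 0, 0], [0]), ([0, 1], [0]),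
  ([2], [0]), ([0], [0, 0, 0, 0]), ([0], [0, 0, 1]), ([0], [0, 2]), ([0], [1, 1]), ([0], [3]),
  ([0, 0], [0, 0, 0]), ([0, 0], [0, 1]), ([0, 0], [2]), ([1], [0, 0, 0]), ([1], [0, 1]),
  ([1], [2]), ([0, 0, 0], [0, 0]), ([0, 0, 0], [1]), ([0, 1], [0, 0]), ([0, 1], [1]),
  ([2], [0, 0]), ([2], [1]), ([0, 0, 0, 0], [0]), ([0, 0, 1], [0]), ([0, 2], [0]), ([1, 1], [0]),
  ([3], [0]), ([0, 0], [0, 0, 0, 0]), ([0, 0], [0, 0, 1]), ([0, 0], [0, 2]), ([0, 0], [1, 1]),
  ([0, 0], [3]), ([1], [0, 0, 0, 0]), ([1], [0, 0, 1]), ([1], [0, 2]), ([1], [1, 1]), ([1], [3]),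
  ([0, 0, 0], [0, 0, 0]), ([0, 0, 0], [0, 1]), ([0, 0, 0], [2]), ([0, 1], [0, 0, 0]),
  ([0, 1], [0, 1]), ([0, 1], [2]), ([2], [0, 0, 0]), ([2], [0, 1]), ([2], [2]),
  ([0, 0, 0, 0], [0, 0]), ([0, 0, 0, 0], [1]), ([0, 0, 1], [0, 0]), ([0, 0, 1], [1]),
  ([0, 2], [0, 0]), ([0, 2], [1]), ([1, 1], [0, 0]), ([1, 1], [1]), ([3], [0, 0]), ([3], [1]),
  ([], [0, 0, 0, 0]), ([], [0, 0, 1]), ([], [0, 2]), ([], [1, 1]), ([], [3]), ([0, 0, 0, 0], []),
  ([0, 0, 1], []), ([0, 2], []), ([1, 1], []), ([3], []), ([], [0, 0, 0, 0, 0]),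
  ([], [0, 0, 0, 1]), ([], [0, 0, 2]), ([], [0, 1, 1]), ([], [0, 3]), ([], [1, 2]), ([], [4]),
  ([0, 0, 0, 0, 0], []), ([0, 0, 0, 1], []), ([0, 0, 2], []), ([0, 1, 1], []), ([0, 3], []),
  ([1, 2], []), ([4], []), ([], [0, 0, 0, 0, 0, 0]), ([], [0, 0, 0, 0, 1]), ([], [0, 0, 0, 2]),
  ([], [0, 0, 1, 1]), ([], [0, 0, 3]), ([], [0, 1, 2]), ([], [0, 4]), ([], [1, 1, 1]),
  ([], [1, 3]), ([], [2, 2]), ([], [5]), ([0], [0, 0, 0, 0, 0]), ([0], [0, 0, 0, 1]),
  ([0], [0, 0, 2]), ([0], [0, 1, 1]), ([0], [0, 3]), ([0], [1, 2]), ([0], [4]),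
  ([0, 0, 0, 0, 0], [0]), ([0, 0, 0, 1], [0]), ([0, 0, 2], [0]), ([0, 1, 1], [0]), ([0, 3], [0]),
  ([1, 2], [0]), ([4], [0]), ([0, 0, 0, 0, 0, 0], []), ([0, 0, 0, 0, 1], []), ([0, 0, 0, 2], []),
  ([0, 0, 1, 1], []), ([0, 0, 3], []), ([0, 1, 2], []), ([0, 4], []), ([1, 1, 1], []),
  ([1, 3], []), ([2, 2], []), ([5], [])]

/-- the multipliers of a group -/
noncomputable def gm79x0 : List Mo := [
  ([], [])]

/-- the multipliers of a group -/
noncomputable def gm79x1 : List Mo := [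
  ([], [0])]

/-- the multipliers of a group -/
noncomputable def gm79x2 : List Mo := [
  ([0], [])]

/-- the multipliers of a group -/
noncomputable def gm79x3 : List Mo := [
  ([], [0, 0]), ([], [1]), ([1], [])]

/-- the multipliers of a group -/
noncomputable def gm79x4 : List Mo := [
  ([0], [0])]

/-- the multipliers of a group -/
noncomputable def gm79x5 : List Mo := [
  ([0, 0], [])]

/-- the multipliers of a group -/
noncomputable def gm79x6 : List Mo := [
  ([], [0, 0, 0]), ([], [0, 1]), ([], [2]), ([1], [0]), ([2], [])]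

/-- the multipliers of a group -/
noncomputable def gm79x7 : List Mo := [
  ([0], [0, 0]), ([0], [1]), ([0, 1], [])]

/-- the multipliers of a group -/
noncomputable def gm79x8 : List Mo := [
  ([0, 0], [0])]

/-- the multipliers of a group -/
noncomputable def gm79x9 : List Mo := [
  ([0, 0, 0], [])]

/-- the multipliers of a group -/
noncomputable def gm79x10 : List Mo := [
  ([], [0, 0, 0, 0]), ([], [0, 0, 1]), ([], [0, 2]), ([], [1, 1]), ([], [3]), ([1], [0, 0]),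
  ([1], [1]), ([2], [0]), ([1, 1], []), ([3], [])]

/-- the multipliers of a group -/
noncomputable def gm79x11 : List Mo := [
  ([0], [0, 0, 0]), ([0], [0, 1]), ([0], [2]), ([0, 1], [0]), ([0, 2], [])]

/-- the multipliers of a group -/
noncomputable def gm79x12 : List Mo := [
  ([0, 0], [0, 0]), ([0, 0], [1]), ([0, 0, 1], [])]

/-- the multipliers of a group -/
noncomputable def gm79x13 : List Mo := [
  ([0, 0, 0], [0])]

/-- the multipliers of a group -/
noncomputable def gm79x14 : List Mo := [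
  ([0, 0, 0, 0], [])]

/-- the multipliers of a group -/
noncomputable def gm79x15 : List Mo := [
  ([], [0, 0, 0, 0, 0]), ([], [0, 0, 0, 1]), ([], [0, 0, 2]), ([], [0, 1, 1]), ([], [0, 3]),
  ([], [1, 2]), ([], [4]), ([1], [0, 0, 0]), ([1], [0, 1]), ([1], [2]), ([2], [0, 0]), ([2], [1]),
  ([1, 1], [0]), ([3], [0]), ([1, 2], []), ([4], [])]

/-- the multipliers of a group -/
noncomputable def gm79x16 : List Mo := [
  ([0], [0, 0, 0, 0]), ([0], [0, 0, 1]), ([0], [0, 2]), ([0], [1, 1]), ([0], [3]),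
  ([0, 1], [0, 0]), ([0, 1], [1]), ([0, 2], [0]), ([0, 1, 1], []), ([0, 3], [])]

/-- the multipliers of a group -/
noncomputable def gm79x17 : List Mo := [
  ([0, 0], [0, 0, 0]), ([0, 0], [0, 1]), ([0, 0], [2]), ([0, 0, 1], [0]), ([0, 0, 2], [])]

/-- the multipliers of a group -/
noncomputable def gm79x18 : List Mo := [
  ([0, 0, 0], [0, 0]), ([0, 0, 0], [1]), ([0, 0, 0, 1], [])]

/-- the multipliers of a group -/
noncomputable def gm79x19 : List Mo := [
  ([0, 0, 0, 0], [0])]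

/-- the multipliers of a group -/
noncomputable def gm79x20 : List Mo := [
  ([0, 0, 0, 0, 0], [])]

/-- the multipliers of a group -/
noncomputable def gm79x21 : List Mo := [
  ([], [0, 0, 0, 0, 0, 0]), ([], [0, 0, 0, 0, 1]), ([], [0, 0, 0, 2]), ([], [0, 0, 1, 1]),
  ([], [0, 0, 3]), ([], [0, 1, 2]), ([], [0, 4]), ([], [1, 1, 1]), ([], [1, 3]), ([], [2, 2]),
  ([], [5]), ([1], [0, 0, 0, 0]), ([1], [0, 0, 1]), ([1], [0, 2]), ([1], [1, 1]), ([1], [3]),
  ([2], [0, 0, 0]), ([2], [0, 1]), ([2], [2]), ([1, 1], [0, 0]), ([1, 1], [1]), ([3], [0, 0]),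
  ([3], [1]), ([1, 2], [0]), ([4], [0]), ([1, 1, 1], []), ([1, 3], []), ([2, 2], [])]

/-- the multipliers of a group -/
noncomputable def gm79x22 : List Mo := [
  ([0], [0, 0, 0, 0, 0]), ([0], [0, 0, 0, 1]), ([0], [0, 0, 2]), ([0], [0, 1, 1]), ([0], [0, 3]),
  ([0], [1, 2]), ([0], [4]), ([0, 1], [0, 0, 0]), ([0, 1], [0, 1]), ([0, 1], [2]),
  ([0, 2], [0, 0]), ([0, 2], [1]), ([0, 1, 1], [0]), ([0, 3], [0]), ([0, 1, 2], []), ([0, 4], [])]

/-- the multipliers of a group -/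
noncomputable def gm79x23 : List Mo := [
  ([0, 0], [0, 0, 0, 0]), ([0, 0], [0, 0, 1]), ([0, 0], [0, 2]), ([0, 0], [1, 1]), ([0, 0], [3]),
  ([0, 0, 1], [0, 0]), ([0, 0, 1], [1]), ([0, 0, 2], [0]), ([0, 0, 1, 1], []), ([0, 0, 3], [])]

/-- the multipliers of a group -/
noncomputable def gm79x24 : List Mo := [
  ([0, 0, 0], [0, 0, 0]), ([0, 0, 0], [0, 1]), ([0, 0, 0], [2]), ([0, 0, 0, 1], [0]),
  ([0, 0, 0, 2], [])]

/-- the multipliers of a group -/
noncomputable def gm79x25 : List Mo := [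
  ([0, 0, 0, 0], [0, 0]), ([0, 0, 0, 0], [1]), ([0, 0, 0, 0, 1], [])]

/-- the multipliers of a group -/
noncomputable def gm79x26 : List Mo := [
  ([0, 0, 0, 0, 0], [0])]

/-- the multipliers of a group -/
noncomputable def gm79x27 : List Mo := [
  ([0, 0, 0, 0, 0, 0], [])]

/-- the multipliers of a group -/
noncomputable def gm79x28 : List Mo := [
  ([], [0, 0, 0, 0, 0, 0, 0]), ([], [0, 0, 0, 0, 0, 1]), ([], [0, 0, 0, 0, 2]),
  ([], [0, 0, 0, 1, 1]), ([], [0, 0, 0, 3]), ([], [0, 0, 1, 2]), ([], [0, 0, 4]),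
  ([], [0, 1, 1, 1]), ([], [0, 1, 3]), ([], [0, 2, 2]), ([], [0, 5]), ([], [1, 1, 2]),
  ([], [1, 4]), ([], [2, 3]), ([1], [0, 0, 0, 0, 0]), ([1], [0, 0, 0, 1]), ([1], [0, 0, 2]),
  ([1], [0, 1, 1]), ([1], [0, 3]), ([1], [1, 2]), ([1], [4]), ([2], [0, 0, 0, 0]),
  ([2], [0, 0, 1]), ([2], [0, 2]), ([2], [1, 1]), ([2], [3]), ([1, 1], [0, 0, 0]),
  ([1, 1], [0, 1]), ([1, 1], [2]), ([3], [0, 0, 0]), ([3], [0, 1]), ([3], [2]), ([1, 2], [0, 0]),
  ([1, 2], [1]), ([4], [0, 0]), ([4], [1]), ([1, 1, 1], [0]), ([1, 3], [0]), ([2, 2], [0])]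

/-- the multipliers of a group -/
noncomputable def gm79x29 : List Mo := [
  ([0], [0, 0, 0, 0, 0, 0]), ([0], [0, 0, 0, 0, 1]), ([0], [0, 0, 0, 2]), ([0], [0, 0, 1, 1]),
  ([0], [0, 0, 3]), ([0], [0, 1, 2]), ([0], [0, 4]), ([0], [1, 1, 1]), ([0], [1, 3]),
  ([0], [2, 2]), ([0], [5]), ([0, 1], [0, 0, 0, 0]), ([0, 1], [0, 0, 1]), ([0, 1], [0, 2]),
  ([0, 1], [1, 1]), ([0, 1], [3]), ([0, 2], [0, 0, 0]), ([0, 2], [0, 1]), ([0, 2], [2]),
  ([0, 1, 1], [0, 0]), ([0, 1, 1], [1]), ([0, 3], [0, 0]), ([0, 3], [1]), ([0, 1, 2], [0]),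
  ([0, 4], [0])]

/-- the multipliers of a group -/
noncomputable def gm79x30 : List Mo := [
  ([0, 0], [0, 0, 0, 0, 0]), ([0, 0], [0, 0, 0, 1]), ([0, 0], [0, 0, 2]), ([0, 0], [0, 1, 1]),
  ([0, 0], [0, 3]), ([0, 0], [1, 2]), ([0, 0], [4]), ([0, 0, 1], [0, 0, 0]), ([0, 0, 1], [0, 1]),
  ([0, 0, 1], [2]), ([0, 0, 2], [0, 0]), ([0, 0, 2], [1]), ([0, 0, 1, 1], [0]), ([0, 0, 3], [0])]

/-- the multipliers of a group -/
noncomputable def gm79x31 : List Mo := [
  ([0, 0, 0], [0, 0, 0, 0]), ([0, 0, 0], [0, 0, 1]), ([0, 0, 0], [0, 2]), ([0, 0, 0], [1, 1]),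
  ([0, 0, 0], [3]), ([0, 0, 0, 1], [0, 0]), ([0, 0, 0, 1], [1]), ([0, 0, 0, 2], [0])]

/-- the multipliers of a group -/
noncomputable def gm79x32 : List Mo := [
  ([0, 0, 0, 0], [0, 0, 0]), ([0, 0, 0, 0], [0, 1]), ([0, 0, 0, 0], [2]), ([0, 0, 0, 0, 1], [0])]

/-- the multipliers of a group -/
noncomputable def gm79x33 : List Mo := [
  ([0, 0, 0, 0, 0], [0, 0]), ([0, 0, 0, 0, 0], [1])]

/-- the multipliers of a group -/
noncomputable def gm79x34 : List Mo := [
  ([0, 0, 0, 0, 0, 0], [0])]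

/-- the multipliers of a group -/
noncomputable def gm79x35 : List Mo := [
  ([1], [0, 0, 0, 0, 0, 0]), ([1], [0, 0, 0, 0, 1]), ([1], [0, 0, 0, 2]), ([1], [0, 0, 1, 1]),
  ([1], [0, 0, 3]), ([1], [0, 1, 2]), ([1], [0, 4]), ([1], [1, 1, 1]), ([1], [1, 3]),
  ([1], [2, 2]), ([1], [5]), ([2], [0, 0, 0, 0, 0]), ([2], [0, 0, 0, 1]), ([2], [0, 0, 2]),
  ([2], [0, 1, 1]), ([2], [0, 3]), ([2], [1, 2]), ([2], [4]), ([1, 1], [0, 0, 0, 0]),
  ([1, 1], [0, 0, 1]), ([1, 1], [0, 2]), ([1, 1], [1, 1]), ([1, 1], [3]), ([3], [0, 0, 0, 0]),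
  ([3], [0, 0, 1]), ([3], [0, 2]), ([3], [1, 1]), ([3], [3]), ([1, 2], [0, 0, 0]),
  ([1, 2], [0, 1]), ([1, 2], [2]), ([4], [0, 0, 0]), ([4], [0, 1]), ([4], [2]),
  ([1, 1, 1], [0, 0]), ([1, 1, 1], [1]), ([1, 3], [0, 0]), ([1, 3], [1]), ([2, 2], [0, 0]),
  ([2, 2], [1])]

/-- the multipliers of a group -/
noncomputable def gm79x36 : List Mo := [
  ([0], [0, 0, 0, 0, 0, 0, 0]), ([0], [0, 0, 0, 0, 0, 1]), ([0], [0, 0, 0, 0, 2]),
  ([0], [0, 0, 0, 1, 1]), ([0], [0, 0, 0, 3]), ([0], [0, 0, 1, 2]), ([0], [0, 0, 4]),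
  ([0], [0, 1, 1, 1]), ([0], [0, 1, 3]), ([0], [0, 2, 2]), ([0], [0, 5]), ([0], [1, 1, 2]),
  ([0], [1, 4]), ([0], [2, 3]), ([0, 1], [0, 0, 0, 0, 0]), ([0, 1], [0, 0, 0, 1]),
  ([0, 1], [0, 0, 2]), ([0, 1], [0, 1, 1]), ([0, 1], [0, 3]), ([0, 1], [1, 2]), ([0, 1], [4]),
  ([0, 2], [0, 0, 0, 0]), ([0, 2], [0, 0, 1]), ([0, 2], [0, 2]), ([0, 2], [1, 1]), ([0, 2], [3]),
  ([0, 1, 1], [0, 0, 0]), ([0, 1, 1], [0, 1]), ([0, 1, 1], [2]), ([0, 3], [0, 0, 0]),
  ([0, 3], [0, 1]), ([0, 3], [2]), ([0, 1, 2], [0, 0]), ([0, 1, 2], [1]), ([0, 4], [0, 0]),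
  ([0, 4], [1])]

/-- the multipliers of a group -/
noncomputable def gm79x37 : List Mo := [
  ([0, 0], [0, 0, 0, 0, 0, 0]), ([0, 0], [0, 0, 0, 0, 1]), ([0, 0], [0, 0, 0, 2]),
  ([0, 0], [0, 0, 1, 1]), ([0, 0], [0, 0, 3]), ([0, 0], [0, 1, 2]), ([0, 0], [0, 4]),
  ([0, 0], [1, 1, 1]), ([0, 0], [1, 3]), ([0, 0], [2, 2]), ([0, 0], [5]),
  ([0, 0, 1], [0, 0, 0, 0]), ([0, 0, 1], [0, 0, 1]), ([0, 0, 1], [0, 2]), ([0, 0, 1], [1, 1]),
  ([0, 0, 1], [3]), ([0, 0, 2], [0, 0, 0]), ([0, 0, 2], [0, 1]), ([0, 0, 2], [2]),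
  ([0, 0, 1, 1], [0, 0]), ([0, 0, 1, 1], [1]), ([0, 0, 3], [0, 0]), ([0, 0, 3], [1])]

/-- the multipliers of a group -/
noncomputable def gm79x38 : List Mo := [
  ([0, 0, 0], [0, 0, 0, 0, 0]), ([0, 0, 0], [0, 0, 0, 1]), ([0, 0, 0], [0, 0, 2]),
  ([0, 0, 0], [0, 1, 1]), ([0, 0, 0], [0, 3]), ([0, 0, 0], [1, 2]), ([0, 0, 0], [4]),
  ([0, 0, 0, 1], [0, 0, 0]), ([0, 0, 0, 1], [0, 1]), ([0, 0, 0, 1], [2]), ([0, 0, 0, 2], [0, 0]),
  ([0, 0, 0, 2], [1])]

/-- the multipliers of a group -/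
noncomputable def gm79x39 : List Mo := [
  ([0, 0, 0, 0], [0, 0, 0, 0]), ([0, 0, 0, 0], [0, 0, 1]), ([0, 0, 0, 0], [0, 2]),
  ([0, 0, 0, 0], [1, 1]), ([0, 0, 0, 0], [3]), ([0, 0, 0, 0, 1], [0, 0]), ([0, 0, 0, 0, 1], [1])]

/-- the multipliers of a group -/
noncomputable def gm79x40 : List Mo := [
  ([0, 0, 0, 0, 0], [0, 0, 0]), ([0, 0, 0, 0, 0], [0, 1]), ([0, 0, 0, 0, 0], [2])]

/-- the multipliers of a group -/
noncomputable def gm79x41 : List Mo := [
  ([0, 0, 0, 0, 0, 0], [0, 0]), ([0, 0, 0, 0, 0, 0], [1])]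

/-- the multipliers of a group -/
noncomputable def gm79x42 : List Mo := [
  ([1], [0, 0, 0, 0, 0, 0, 0]), ([1], [0, 0, 0, 0, 0, 1]), ([1], [0, 0, 0, 0, 2]),
  ([1], [0, 0, 0, 1, 1]), ([1], [0, 0, 0, 3]), ([1], [0, 0, 1, 2]), ([1], [0, 0, 4]),
  ([1], [0, 1, 1, 1]), ([1], [0, 1, 3]), ([1], [0, 2, 2]), ([1], [0, 5]), ([1], [1, 1, 2]),
  ([1], [1, 4]), ([1], [2, 3]), ([2], [0, 0, 0, 0, 0, 0]), ([2], [0, 0, 0, 0, 1]),
  ([2], [0, 0, 0, 2]), ([2], [0, 0, 1, 1]), ([2], [0, 0, 3]), ([2], [0, 1, 2]), ([2], [0, 4]),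
  ([2], [1, 1, 1]), ([2], [1, 3]), ([2], [2, 2]), ([2], [5]), ([1, 1], [0, 0, 0, 0, 0]),
  ([1, 1], [0, 0, 0, 1]), ([1, 1], [0, 0, 2]), ([1, 1], [0, 1, 1]), ([1, 1], [0, 3]),
  ([1, 1], [1, 2]), ([1, 1], [4]), ([3], [0, 0, 0, 0, 0]), ([3], [0, 0, 0, 1]), ([3], [0, 0, 2]),
  ([3], [0, 1, 1]), ([3], [0, 3]), ([3], [1, 2]), ([3], [4]), ([1, 2], [0, 0, 0, 0]),
  ([1, 2], [0, 0, 1]), ([1, 2], [0, 2]), ([1, 2], [1, 1]), ([1, 2], [3]), ([4], [0, 0, 0, 0]),
  ([4], [0, 0, 1]), ([4], [0, 2]), ([4], [1, 1]), ([4], [3]), ([1, 1, 1], [0, 0, 0]),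
  ([1, 1, 1], [0, 1]), ([1, 1, 1], [2]), ([1, 3], [0, 0, 0]), ([1, 3], [0, 1]), ([1, 3], [2]),
  ([2, 2], [0, 0, 0]), ([2, 2], [0, 1]), ([2, 2], [2]), ([1, 1, 2], [0, 0]), ([1, 1, 2], [1]),
  ([1, 4], [0, 0]), ([1, 4], [1]), ([2, 3], [0, 0]), ([2, 3], [1])]

/-- the multipliers of a group -/
noncomputable def gm79x43 : List Mo := [
  ([0, 1], [0, 0, 0, 0, 0, 0]), ([0, 1], [0, 0, 0, 0, 1]), ([0, 1], [0, 0, 0, 2]),
  ([0, 1], [0, 0, 1, 1]), ([0, 1], [0, 0, 3]), ([0, 1], [0, 1, 2]), ([0, 1], [0, 4]),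
  ([0, 1], [1, 1, 1]), ([0, 1], [1, 3]), ([0, 1], [2, 2]), ([0, 1], [5]),
  ([0, 2], [0, 0, 0, 0, 0]), ([0, 2], [0, 0, 0, 1]), ([0, 2], [0, 0, 2]), ([0, 2], [0, 1, 1]),
  ([0, 2], [0, 3]), ([0, 2], [1, 2]), ([0, 2], [4]), ([0, 1, 1], [0, 0, 0, 0]),
  ([0, 1, 1], [0, 0, 1]), ([0, 1, 1], [0, 2]), ([0, 1, 1], [1, 1]), ([0, 1, 1], [3]),
  ([0, 3], [0, 0, 0, 0]), ([0, 3], [0, 0, 1]), ([0, 3], [0, 2]), ([0, 3], [1, 1]), ([0, 3], [3]),
  ([0, 1, 2], [0, 0, 0]), ([0, 1, 2], [0, 1]), ([0, 1, 2], [2]), ([0, 4], [0, 0, 0]),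
  ([0, 4], [0, 1]), ([0, 4], [2]), ([0, 1, 1, 1], [0, 0]), ([0, 1, 1, 1], [1]),
  ([0, 1, 3], [0, 0]), ([0, 1, 3], [1]), ([0, 2, 2], [0, 0]), ([0, 2, 2], [1])]

/-- the multipliers of a group -/
noncomputable def gm79x44 : List Mo := [
  ([0, 0], [0, 0, 0, 0, 0, 0, 0]), ([0, 0], [0, 0, 0, 0, 0, 1]), ([0, 0], [0, 0, 0, 0, 2]),
  ([0, 0], [0, 0, 0, 1, 1]), ([0, 0], [0, 0, 0, 3]), ([0, 0], [0, 0, 1, 2]), ([0, 0], [0, 0, 4]),
  ([0, 0], [0, 1, 1, 1]), ([0, 0], [0, 1, 3]), ([0, 0], [0, 2, 2]), ([0, 0], [0, 5]),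
  ([0, 0], [1, 1, 2]), ([0, 0], [1, 4]), ([0, 0], [2, 3]), ([0, 0, 1], [0, 0, 0, 0, 0]),
  ([0, 0, 1], [0, 0, 0, 1]), ([0, 0, 1], [0, 0, 2]), ([0, 0, 1], [0, 1, 1]), ([0, 0, 1], [0, 3]),
  ([0, 0, 1], [1, 2]), ([0, 0, 1], [4]), ([0, 0, 2], [0, 0, 0, 0]), ([0, 0, 2], [0, 0, 1]),
  ([0, 0, 2], [0, 2]), ([0, 0, 2], [1, 1]), ([0, 0, 2], [3]), ([0, 0, 1, 1], [0, 0, 0]),
  ([0, 0, 1, 1], [0, 1]), ([0, 0, 1, 1], [2]), ([0, 0, 3], [0, 0, 0]), ([0, 0, 3], [0, 1]),
  ([0, 0, 3], [2]), ([0, 0, 1, 2], [0, 0]), ([0, 0, 1, 2], [1]), ([0, 0, 4], [0, 0]),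
  ([0, 0, 4], [1])]

/-- the multipliers of a group -/
noncomputable def gm79x45 : List Mo := [
  ([0, 0, 0], [0, 0, 0, 0, 0, 0]), ([0, 0, 0], [0, 0, 0, 0, 1]), ([0, 0, 0], [0, 0, 0, 2]),
  ([0, 0, 0], [0, 0, 1, 1]), ([0, 0, 0], [0, 0, 3]), ([0, 0, 0], [0, 1, 2]), ([0, 0, 0], [0, 4]),
  ([0, 0, 0], [1, 1, 1]), ([0, 0, 0], [1, 3]), ([0, 0, 0], [2, 2]), ([0, 0, 0], [5]),
  ([0, 0, 0, 1], [0, 0, 0, 0]), ([0, 0, 0, 1], [0, 0, 1]), ([0, 0, 0, 1], [0, 2]),
  ([0, 0, 0, 1], [1, 1]), ([0, 0, 0, 1], [3]), ([0, 0, 0, 2], [0, 0, 0]), ([0, 0, 0, 2], [0, 1]),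
  ([0, 0, 0, 2], [2]), ([0, 0, 0, 1, 1], [0, 0]), ([0, 0, 0, 1, 1], [1]), ([0, 0, 0, 3], [0, 0]),
  ([0, 0, 0, 3], [1])]

/-- the multipliers of a group -/
noncomputable def gm79x46 : List Mo := [
  ([0, 0, 0, 0], [0, 0, 0, 0, 0]), ([0, 0, 0, 0], [0, 0, 0, 1]), ([0, 0, 0, 0], [0, 0, 2]),
  ([0, 0, 0, 0], [0, 1, 1]), ([0, 0, 0, 0], [0, 3]), ([0, 0, 0, 0], [1, 2]), ([0, 0, 0, 0], [4]),
  ([0, 0, 0, 0, 1], [0, 0, 0]), ([0, 0, 0, 0, 1], [0, 1]), ([0, 0, 0, 0, 1], [2]),
  ([0, 0, 0, 0, 2], [0, 0]), ([0, 0, 0, 0, 2], [1])]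

/-- the multipliers of a group -/
noncomputable def gm79x47 : List Mo := [
  ([0, 0, 0, 0, 0], [0, 0, 0, 0]), ([0, 0, 0, 0, 0], [0, 0, 1]), ([0, 0, 0, 0, 0], [0, 2]),
  ([0, 0, 0, 0, 0], [1, 1]), ([0, 0, 0, 0, 0], [3]), ([0, 0, 0, 0, 0, 1], [0, 0]),
  ([0, 0, 0, 0, 0, 1], [1])]

/-- the multipliers of a group -/
noncomputable def gm79x48 : List Mo := [
  ([0, 0, 0, 0, 0, 0], [0, 0, 0]), ([0, 0, 0, 0, 0, 0], [0, 1]), ([0, 0, 0, 0, 0, 0], [2])]

/-- the multipliers of a group -/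
noncomputable def gm79x49 : List Mo := [
  ([0, 0, 0, 0, 0, 0, 0], [0, 0]), ([0, 0, 0, 0, 0, 0, 0], [1])]

/-- the multipliers of a group -/
noncomputable def gm79x50 : List Mo := [
  ([1], [0, 0, 0, 0, 0, 0, 0, 0]), ([1], [0, 0, 0, 0, 0, 0, 1]), ([1], [0, 0, 0, 0, 0, 2]),
  ([1], [0, 0, 0, 0, 1, 1]), ([1], [0, 0, 0, 0, 3]), ([1], [0, 0, 0, 1, 2]), ([1], [0, 0, 0, 4]),
  ([1], [0, 0, 1, 1, 1]), ([1], [0, 0, 1, 3]), ([1], [0, 0, 2, 2]), ([1], [0, 0, 5]),
  ([1], [0, 1, 1, 2]), ([1], [0, 1, 4]), ([1], [0, 2, 3]), ([1], [1, 1, 1, 1]), ([1], [1, 1, 3]),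
  ([1], [1, 2, 2]), ([1], [1, 5]), ([1], [2, 4]), ([2], [0, 0, 0, 0, 0, 0, 0]),
  ([2], [0, 0, 0, 0, 0, 1]), ([2], [0, 0, 0, 0, 2]), ([2], [0, 0, 0, 1, 1]), ([2], [0, 0, 0, 3]),
  ([2], [0, 0, 1, 2]), ([2], [0, 0, 4]), ([2], [0, 1, 1, 1]), ([2], [0, 1, 3]), ([2], [0, 2, 2]),
  ([2], [0, 5]), ([2], [1, 1, 2]), ([2], [1, 4]), ([1, 1], [0, 0, 0, 0, 0, 0]),
  ([1, 1], [0, 0, 0, 0, 1]), ([1, 1], [0, 0, 0, 2]), ([1, 1], [0, 0, 1, 1]), ([1, 1], [0, 0, 3]),
  ([1, 1], [0, 1, 2]), ([1, 1], [0, 4]), ([1, 1], [1, 1, 1]), ([1, 1], [1, 3]), ([1, 1], [2, 2]),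
  ([1, 1], [5]), ([3], [0, 0, 0, 0, 0, 0]), ([3], [0, 0, 0, 0, 1]), ([3], [0, 0, 0, 2]),
  ([3], [0, 0, 1, 1]), ([3], [0, 0, 3]), ([3], [0, 1, 2]), ([3], [0, 4]), ([3], [1, 1, 1]),
  ([3], [1, 3]), ([3], [2, 2]), ([3], [5]), ([1, 2], [0, 0, 0, 0, 0]), ([1, 2], [0, 0, 0, 1]),
  ([1, 2], [0, 0, 2]), ([1, 2], [0, 1, 1]), ([1, 2], [0, 3]), ([1, 2], [1, 2]), ([1, 2], [4]),
  ([4], [0, 0, 0, 0, 0]), ([4], [0, 0, 0, 1]), ([4], [0, 0, 2]), ([4], [0, 1, 1]), ([4], [0, 3]),
  ([4], [1, 2]), ([4], [4]), ([1, 1, 1], [0, 0, 0, 0]), ([1, 1, 1], [0, 0, 1]),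
  ([1, 1, 1], [0, 2]), ([1, 1, 1], [1, 1]), ([1, 1, 1], [3]), ([1, 3], [0, 0, 0, 0]),
  ([1, 3], [0, 0, 1]), ([1, 3], [0, 2]), ([1, 3], [1, 1]), ([2, 2], [0, 0, 0, 0]),
  ([2, 2], [0, 0, 1]), ([2, 2], [0, 2]), ([2, 2], [1, 1]), ([1, 1, 2], [0, 0, 0]),
  ([1, 1, 2], [0, 1]), ([1, 1, 2], [2]), ([1, 4], [0, 0, 0]), ([1, 4], [0, 1]), ([1, 4], [2]),
  ([2, 3], [0, 0, 0]), ([2, 3], [0, 1])]

/-- the multipliers of a group -/
noncomputable def gm79x51 : List Mo := [
  ([0, 1], [0, 0, 0, 0, 0, 0, 0]), ([0, 1], [0, 0, 0, 0, 0, 1]), ([0, 1], [0, 0, 0, 0, 2]),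
  ([0, 1], [0, 0, 0, 1, 1]), ([0, 1], [0, 0, 0, 3]), ([0, 1], [0, 0, 1, 2]), ([0, 1], [0, 0, 4]),
  ([0, 1], [0, 1, 1, 1]), ([0, 1], [0, 1, 3]), ([0, 1], [0, 2, 2]), ([0, 1], [0, 5]),
  ([0, 1], [1, 1, 2]), ([0, 1], [1, 4]), ([0, 1], [2, 3]), ([0, 2], [0, 0, 0, 0, 0, 0]),
  ([0, 2], [0, 0, 0, 0, 1]), ([0, 2], [0, 0, 0, 2]), ([0, 2], [0, 0, 1, 1]), ([0, 2], [0, 0, 3]),
  ([0, 2], [0, 1, 2]), ([0, 2], [0, 4]), ([0, 2], [1, 1, 1]), ([0, 2], [1, 3]), ([0, 2], [2, 2]),
  ([0, 2], [5]), ([0, 1, 1], [0, 0, 0, 0, 0]), ([0, 1, 1], [0, 0, 0, 1]), ([0, 1, 1], [0, 0, 2]),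
  ([0, 1, 1], [0, 1, 1]), ([0, 1, 1], [0, 3]), ([0, 1, 1], [1, 2]), ([0, 1, 1], [4]),
  ([0, 3], [0, 0, 0, 0, 0]), ([0, 3], [0, 0, 0, 1]), ([0, 3], [0, 0, 2]), ([0, 3], [0, 1, 1]),
  ([0, 3], [0, 3]), ([0, 3], [1, 2]), ([0, 3], [4]), ([0, 1, 2], [0, 0, 0, 0]),
  ([0, 1, 2], [0, 0, 1]), ([0, 1, 2], [0, 2]), ([0, 1, 2], [1, 1]), ([0, 1, 2], [3]),
  ([0, 4], [0, 0, 0, 0]), ([0, 4], [0, 0, 1]), ([0, 4], [0, 2]), ([0, 4], [1, 1]), ([0, 4], [3]),
  ([0, 1, 1, 1], [0, 0, 0]), ([0, 1, 1, 1], [0, 1]), ([0, 1, 1, 1], [2]), ([0, 1, 3], [0, 0, 0]),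
  ([0, 1, 3], [0, 1]), ([0, 1, 3], [2]), ([0, 2, 2], [0, 0, 0]), ([0, 2, 2], [0, 1]),
  ([0, 2, 2], [2])]

/-- the multipliers of a group -/
noncomputable def gm79x52 : List Mo := [
  ([0, 0], [0, 0, 0, 0, 0, 0, 0, 0]), ([0, 0], [0, 0, 0, 0, 0, 0, 1]),
  ([0, 0], [0, 0, 0, 0, 0, 2]), ([0, 0], [0, 0, 0, 0, 1, 1]), ([0, 0], [0, 0, 0, 0, 3]),
  ([0, 0], [0, 0, 0, 1, 2]), ([0, 0], [0, 0, 0, 4]), ([0, 0], [0, 0, 1, 1, 1]),
  ([0, 0], [0, 0, 1, 3]), ([0, 0], [0, 0, 2, 2]), ([0, 0], [0, 0, 5]), ([0, 0], [0, 1, 1, 2]),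
  ([0, 0], [0, 1, 4]), ([0, 0], [0, 2, 3]), ([0, 0], [1, 1, 1, 1]), ([0, 0], [1, 1, 3]),
  ([0, 0], [1, 2, 2]), ([0, 0], [1, 5]), ([0, 0], [2, 4]), ([0, 0], [3, 3]),
  ([0, 0, 1], [0, 0, 0, 0, 0, 0]), ([0, 0, 1], [0, 0, 0, 0, 1]), ([0, 0, 1], [0, 0, 0, 2]),
  ([0, 0, 1], [0, 0, 1, 1]), ([0, 0, 1], [0, 0, 3]), ([0, 0, 1], [0, 1, 2]), ([0, 0, 1], [0, 4]),
  ([0, 0, 1], [1, 1, 1]), ([0, 0, 1], [1, 3]), ([0, 0, 1], [2, 2]), ([0, 0, 1], [5]),
  ([0, 0, 2], [0, 0, 0, 0, 0]), ([0, 0, 2], [0, 0, 0, 1]), ([0, 0, 2], [0, 0, 2]),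
  ([0, 0, 2], [0, 1, 1]), ([0, 0, 2], [0, 3]), ([0, 0, 2], [1, 2]), ([0, 0, 2], [4]),
  ([0, 0, 1, 1], [0, 0, 0, 0]), ([0, 0, 1, 1], [0, 0, 1]), ([0, 0, 1, 1], [0, 2]),
  ([0, 0, 1, 1], [1, 1]), ([0, 0, 1, 1], [3]), ([0, 0, 3], [0, 0, 0, 0]), ([0, 0, 3], [0, 0, 1]),
  ([0, 0, 3], [0, 2]), ([0, 0, 3], [1, 1]), ([0, 0, 3], [3]), ([0, 0, 1, 2], [0, 0, 0]),
  ([0, 0, 1, 2], [0, 1]), ([0, 0, 1, 2], [2]), ([0, 0, 4], [0, 0, 0]), ([0, 0, 4], [0, 1]),
  ([0, 0, 4], [2])]

/-- the multipliers of a group -/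
noncomputable def gm79x53 : List Mo := [
  ([0, 0, 0], [0, 0, 0, 0, 0, 0, 0]), ([0, 0, 0], [0, 0, 0, 0, 0, 1]),
  ([0, 0, 0], [0, 0, 0, 0, 2]), ([0, 0, 0], [0, 0, 0, 1, 1]), ([0, 0, 0], [0, 0, 0, 3]),
  ([0, 0, 0], [0, 0, 1, 2]), ([0, 0, 0], [0, 0, 4]), ([0, 0, 0], [0, 1, 1, 1]),
  ([0, 0, 0], [0, 1, 3]), ([0, 0, 0], [0, 2, 2]), ([0, 0, 0], [0, 5]), ([0, 0, 0], [1, 1, 2]),
  ([0, 0, 0], [1, 4]), ([0, 0, 0], [2, 3]), ([0, 0, 0, 1], [0, 0, 0, 0, 0]),
  ([0, 0, 0, 1], [0, 0, 0, 1]), ([0, 0, 0, 1], [0, 0, 2]), ([0, 0, 0, 1], [0, 1, 1]),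
  ([0, 0, 0, 1], [0, 3]), ([0, 0, 0, 1], [1, 2]), ([0, 0, 0, 1], [4]),
  ([0, 0, 0, 2], [0, 0, 0, 0]), ([0, 0, 0, 2], [0, 0, 1]), ([0, 0, 0, 2], [0, 2]),
  ([0, 0, 0, 2], [1, 1]), ([0, 0, 0, 2], [3]), ([0, 0, 0, 1, 1], [0, 0, 0]),
  ([0, 0, 0, 1, 1], [0, 1]), ([0, 0, 0, 1, 1], [2]), ([0, 0, 0, 3], [0, 0, 0]),
  ([0, 0, 0, 3], [0, 1]), ([0, 0, 0, 3], [2])]

/-- the multipliers of a group -/
noncomputable def gm79x54 : List Mo := [
  ([0, 0, 0, 0], [0, 0, 0, 0, 0, 0]), ([0, 0, 0, 0], [0, 0, 0, 0, 1]),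
  ([0, 0, 0, 0], [0, 0, 0, 2]), ([0, 0, 0, 0], [0, 0, 1, 1]), ([0, 0, 0, 0], [0, 0, 3]),
  ([0, 0, 0, 0], [0, 1, 2]), ([0, 0, 0, 0], [0, 4]), ([0, 0, 0, 0], [1, 1, 1]),
  ([0, 0, 0, 0], [1, 3]), ([0, 0, 0, 0], [2, 2]), ([0, 0, 0, 0], [5]),
  ([0, 0, 0, 0, 1], [0, 0, 0, 0]), ([0, 0, 0, 0, 1], [0, 0, 1]), ([0, 0, 0, 0, 1], [0, 2]),
  ([0, 0, 0, 0, 1], [1, 1]), ([0, 0, 0, 0, 1], [3]), ([0, 0, 0, 0, 2], [0, 0, 0]),
  ([0, 0, 0, 0, 2], [0, 1]), ([0, 0, 0, 0, 2], [2])]

/-- the multipliers of a group -/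
noncomputable def gm79x55 : List Mo := [
  ([0, 0, 0, 0, 0], [0, 0, 0, 0, 0]), ([0, 0, 0, 0, 0], [0, 0, 0, 1]),
  ([0, 0, 0, 0, 0], [0, 0, 2]), ([0, 0, 0, 0, 0], [0, 1, 1]), ([0, 0, 0, 0, 0], [0, 3]),
  ([0, 0, 0, 0, 0], [1, 2]), ([0, 0, 0, 0, 0], [4]), ([0, 0, 0, 0, 0, 1], [0, 0, 0]),
  ([0, 0, 0, 0, 0, 1], [0, 1]), ([0, 0, 0, 0, 0, 1], [2])]

/-- the multipliers of a group -/
noncomputable def gm79x56 : List Mo := [
  ([0, 0, 0, 0, 0, 0], [0, 0, 0, 0]), ([0, 0, 0, 0, 0, 0], [0, 0, 1]),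
  ([0, 0, 0, 0, 0, 0], [0, 2]), ([0, 0, 0, 0, 0, 0], [1, 1]), ([0, 0, 0, 0, 0, 0], [3])]

/-- the multipliers of a group -/
noncomputable def gm79x57 : List Mo := [
  ([0, 0, 0, 0, 0, 0, 0], [0, 0, 0]), ([0, 0, 0, 0, 0, 0, 0], [0, 1]), ([0, 0, 0, 0, 0, 0, 0], [2])]

/-- the multipliers of a group -/
noncomputable def gm79x58 : List Mo := [
  ([2], [0, 0, 0, 0, 0, 0, 0, 0]), ([2], [0, 0, 0, 0, 0, 0, 1]), ([2], [0, 0, 0, 0, 0, 2]),
  ([2], [0, 0, 0, 0, 1, 1]), ([2], [0, 0, 0, 0, 3]), ([2], [0, 0, 0, 1, 2]), ([2], [0, 0, 0, 4]),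
  ([2], [0, 0, 1, 1, 1]), ([2], [0, 0, 1, 3]), ([2], [0, 0, 2, 2]), ([2], [0, 0, 5]),
  ([2], [0, 1, 1, 2]), ([2], [0, 1, 4]), ([2], [1, 1, 1, 1]), ([2], [1, 1, 3]), ([2], [1, 2, 2]),
  ([2], [1, 5]), ([1, 1], [0, 0, 0, 0, 0, 0, 0]), ([1, 1], [0, 0, 0, 0, 0, 1]),
  ([1, 1], [0, 0, 0, 0, 2]), ([1, 1], [0, 0, 0, 1, 1]), ([1, 1], [0, 0, 0, 3]),
  ([1, 1], [0, 0, 1, 2]), ([1, 1], [0, 0, 4]), ([1, 1], [0, 1, 1, 1]), ([1, 1], [0, 1, 3]),
  ([1, 1], [0, 2, 2]), ([1, 1], [0, 5]), ([1, 1], [1, 1, 2]), ([1, 1], [2, 3]),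
  ([3], [0, 0, 0, 0, 0, 0, 0]), ([3], [0, 0, 0, 0, 0, 1]), ([3], [0, 0, 0, 0, 2]),
  ([3], [0, 0, 0, 1, 1]), ([3], [0, 0, 0, 3]), ([3], [0, 0, 1, 2]), ([3], [0, 0, 4]),
  ([3], [0, 1, 1, 1]), ([3], [0, 1, 3]), ([3], [0, 2, 2]), ([3], [0, 5]),
  ([1, 2], [0, 0, 0, 0, 0, 0]), ([1, 2], [0, 0, 0, 0, 1]), ([1, 2], [0, 0, 0, 2]),
  ([1, 2], [0, 0, 1, 1]), ([1, 2], [0, 0, 3]), ([1, 2], [0, 1, 2]), ([1, 2], [0, 4]),
  ([1, 2], [1, 1, 1]), ([1, 2], [1, 3]), ([1, 2], [2, 2]), ([1, 2], [5]),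
  ([4], [0, 0, 0, 0, 0, 0]), ([4], [0, 0, 0, 0, 1]), ([4], [0, 0, 0, 2]), ([4], [0, 0, 1, 1]),
  ([4], [0, 0, 3]), ([4], [0, 1, 2]), ([4], [0, 4]), ([4], [1, 1, 1]), ([4], [1, 3]),
  ([4], [2, 2]), ([4], [5]), ([1, 1, 1], [0, 0, 0, 0, 0]), ([1, 1, 1], [0, 0, 0, 1]),
  ([1, 1, 1], [0, 0, 2]), ([1, 1, 1], [0, 1, 1]), ([1, 1, 1], [0, 3]), ([1, 1, 1], [1, 2]),
  ([1, 3], [0, 0, 0, 0, 0]), ([1, 3], [0, 0, 0, 1]), ([1, 3], [0, 0, 2]), ([1, 3], [0, 1, 1]),
  ([2, 2], [0, 0, 0, 0, 0]), ([2, 2], [0, 0, 0, 1]), ([2, 2], [0, 0, 2]), ([2, 2], [0, 1, 1]),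
  ([2, 2], [1, 2]), ([1, 1, 2], [0, 0, 0, 0]), ([1, 1, 2], [0, 0, 1]), ([1, 1, 2], [0, 2]),
  ([1, 1, 2], [1, 1]), ([1, 1, 2], [3]), ([1, 4], [0, 0, 0, 0]), ([1, 4], [0, 0, 1]),
  ([1, 4], [0, 2]), ([2, 3], [0, 0, 0, 0]), ([2, 3], [0, 0, 1])]

/-- the multipliers of a group -/
noncomputable def gm79x59 : List Mo := [
  ([0, 1], [0, 0, 0, 0, 0, 0, 0, 0]), ([0, 1], [0, 0, 0, 0, 0, 0, 1]),
  ([0, 1], [0, 0, 0, 0, 0, 2]), ([0, 1], [0, 0, 0, 0, 1, 1]), ([0, 1], [0, 0, 0, 0, 3]),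
  ([0, 1], [0, 0, 0, 1, 2]), ([0, 1], [0, 0, 0, 4]), ([0, 1], [0, 0, 1, 1, 1]),
  ([0, 1], [0, 0, 1, 3]), ([0, 1], [0, 0, 2, 2]), ([0, 1], [0, 0, 5]), ([0, 1], [0, 1, 1, 2]),
  ([0, 1], [0, 1, 4]), ([0, 1], [0, 2, 3]), ([0, 1], [1, 1, 1, 1]), ([0, 1], [1, 1, 3]),
  ([0, 1], [1, 2, 2]), ([0, 1], [1, 5]), ([0, 2], [0, 0, 0, 0, 0, 0, 0]),
  ([0, 2], [0, 0, 0, 0, 0, 1]), ([0, 2], [0, 0, 0, 0, 2]), ([0, 2], [0, 0, 0, 1, 1]),
  ([0, 2], [0, 0, 0, 3]), ([0, 2], [0, 0, 1, 2]), ([0, 2], [0, 0, 4]), ([0, 2], [0, 1, 1, 1]),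
  ([0, 2], [0, 1, 3]), ([0, 2], [0, 2, 2]), ([0, 2], [0, 5]), ([0, 2], [1, 1, 2]),
  ([0, 1, 1], [0, 0, 0, 0, 0, 0]), ([0, 1, 1], [0, 0, 0, 0, 1]), ([0, 1, 1], [0, 0, 0, 2]),
  ([0, 1, 1], [0, 0, 1, 1]), ([0, 1, 1], [0, 0, 3]), ([0, 1, 1], [0, 1, 2]), ([0, 1, 1], [0, 4]),
  ([0, 1, 1], [1, 1, 1]), ([0, 1, 1], [1, 3]), ([0, 1, 1], [2, 2]), ([0, 1, 1], [5]),
  ([0, 3], [0, 0, 0, 0, 0, 0]), ([0, 3], [0, 0, 0, 0, 1]), ([0, 3], [0, 0, 0, 2]),
  ([0, 3], [0, 0, 1, 1]), ([0, 3], [0, 0, 3]), ([0, 3], [0, 1, 2]), ([0, 3], [0, 4]),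
  ([0, 3], [1, 1, 1]), ([0, 3], [1, 3]), ([0, 3], [2, 2]), ([0, 3], [5]),
  ([0, 1, 2], [0, 0, 0, 0, 0]), ([0, 1, 2], [0, 0, 0, 1]), ([0, 1, 2], [0, 0, 2]),
  ([0, 1, 2], [0, 1, 1]), ([0, 1, 2], [0, 3]), ([0, 1, 2], [1, 2]), ([0, 4], [0, 0, 0, 0, 0]),
  ([0, 4], [0, 0, 0, 1]), ([0, 4], [0, 0, 2]), ([0, 4], [0, 1, 1]), ([0, 4], [0, 3]),
  ([0, 1, 1, 1], [0, 0, 0, 0]), ([0, 1, 1, 1], [0, 0, 1]), ([0, 1, 1, 1], [0, 2]),
  ([0, 1, 1, 1], [1, 1]), ([0, 1, 1, 1], [3]), ([0, 1, 3], [0, 0, 0, 0]), ([0, 1, 3], [0, 0, 1]),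
  ([0, 1, 3], [0, 2]), ([0, 1, 3], [1, 1]), ([0, 2, 2], [0, 0, 0, 0]), ([0, 2, 2], [0, 0, 1]),
  ([0, 2, 2], [0, 2]), ([0, 2, 2], [1, 1])]

/-- the multipliers of a group -/
noncomputable def gm79x60 : List Mo := [
  ([0, 0, 1], [0, 0, 0, 0, 0, 0, 0]), ([0, 0, 1], [0, 0, 0, 0, 0, 1]),
  ([0, 0, 1], [0, 0, 0, 0, 2]), ([0, 0, 1], [0, 0, 0, 1, 1]), ([0, 0, 1], [0, 0, 0, 3]),
  ([0, 0, 1], [0, 0, 1, 2]), ([0, 0, 1], [0, 0, 4]), ([0, 0, 1], [0, 1, 1, 1]),
  ([0, 0, 1], [0, 1, 3]), ([0, 0, 1], [0, 2, 2]), ([0, 0, 1], [0, 5]), ([0, 0, 1], [1, 1, 2]),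
  ([0, 0, 1], [1, 4]), ([0, 0, 1], [2, 3]), ([0, 0, 2], [0, 0, 0, 0, 0, 0]),
  ([0, 0, 2], [0, 0, 0, 0, 1]), ([0, 0, 2], [0, 0, 0, 2]), ([0, 0, 2], [0, 0, 1, 1]),
  ([0, 0, 2], [0, 0, 3]), ([0, 0, 2], [0, 1, 2]), ([0, 0, 2], [0, 4]), ([0, 0, 2], [1, 1, 1]),
  ([0, 0, 2], [1, 3]), ([0, 0, 2], [2, 2]), ([0, 0, 2], [5]), ([0, 0, 1, 1], [0, 0, 0, 0, 0]),
  ([0, 0, 1, 1], [0, 0, 0, 1]), ([0, 0, 1, 1], [0, 0, 2]), ([0, 0, 1, 1], [0, 1, 1]),
  ([0, 0, 1, 1], [0, 3]), ([0, 0, 1, 1], [1, 2]), ([0, 0, 1, 1], [4]),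
  ([0, 0, 3], [0, 0, 0, 0, 0]), ([0, 0, 3], [0, 0, 0, 1]), ([0, 0, 3], [0, 0, 2]),
  ([0, 0, 3], [0, 1, 1]), ([0, 0, 3], [0, 3]), ([0, 0, 3], [1, 2]), ([0, 0, 3], [4]),
  ([0, 0, 1, 2], [0, 0, 0, 0]), ([0, 0, 1, 2], [0, 0, 1]), ([0, 0, 1, 2], [0, 2]),
  ([0, 0, 1, 2], [1, 1]), ([0, 0, 1, 2], [3]), ([0, 0, 4], [0, 0, 0, 0]), ([0, 0, 4], [0, 0, 1]),
  ([0, 0, 4], [0, 2]), ([0, 0, 4], [1, 1]), ([0, 0, 4], [3])]

/-- the multipliers of a group -/
noncomputable def gm79x61 : List Mo := [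
  ([0, 0, 0], [0, 0, 0, 0, 0, 0, 0, 0]), ([0, 0, 0], [0, 0, 0, 0, 0, 0, 1]),
  ([0, 0, 0], [0, 0, 0, 0, 0, 2]), ([0, 0, 0], [0, 0, 0, 0, 1, 1]), ([0, 0, 0], [0, 0, 0, 0, 3]),
  ([0, 0, 0], [0, 0, 0, 1, 2]), ([0, 0, 0], [0, 0, 0, 4]), ([0, 0, 0], [0, 0, 1, 1, 1]),
  ([0, 0, 0], [0, 0, 1, 3]), ([0, 0, 0], [0, 0, 2, 2]), ([0, 0, 0], [0, 0, 5]),
  ([0, 0, 0], [0, 1, 1, 2]), ([0, 0, 0], [0, 1, 4]), ([0, 0, 0], [0, 2, 3]),
  ([0, 0, 0], [1, 1, 1, 1]), ([0, 0, 0], [1, 1, 3]), ([0, 0, 0], [1, 2, 2]), ([0, 0, 0], [1, 5]),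
  ([0, 0, 0], [2, 4]), ([0, 0, 0], [3, 3]), ([0, 0, 0, 1], [0, 0, 0, 0, 0, 0]),
  ([0, 0, 0, 1], [0, 0, 0, 0, 1]), ([0, 0, 0, 1], [0, 0, 0, 2]), ([0, 0, 0, 1], [0, 0, 1, 1]),
  ([0, 0, 0, 1], [0, 0, 3]), ([0, 0, 0, 1], [0, 1, 2]), ([0, 0, 0, 1], [0, 4]),
  ([0, 0, 0, 1], [1, 1, 1]), ([0, 0, 0, 1], [1, 3]), ([0, 0, 0, 1], [2, 2]), ([0, 0, 0, 1], [5]),
  ([0, 0, 0, 2], [0, 0, 0, 0, 0]), ([0, 0, 0, 2], [0, 0, 0, 1]), ([0, 0, 0, 2], [0, 0, 2]),
  ([0, 0, 0, 2], [0, 1, 1]), ([0, 0, 0, 2], [0, 3]), ([0, 0, 0, 2], [1, 2]), ([0, 0, 0, 2], [4]),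
  ([0, 0, 0, 1, 1], [0, 0, 0, 0]), ([0, 0, 0, 1, 1], [0, 0, 1]), ([0, 0, 0, 1, 1], [0, 2]),
  ([0, 0, 0, 1, 1], [1, 1]), ([0, 0, 0, 1, 1], [3]), ([0, 0, 0, 3], [0, 0, 0, 0]),
  ([0, 0, 0, 3], [0, 0, 1]), ([0, 0, 0, 3], [0, 2]), ([0, 0, 0, 3], [1, 1]), ([0, 0, 0, 3], [3])]

/-- the multipliers of a group -/
noncomputable def gm79x62 : List Mo := [
  ([0, 0, 0, 0], [0, 0, 0, 0, 0, 0, 0]), ([0, 0, 0, 0], [0, 0, 0, 0, 0, 1]),
  ([0, 0, 0, 0], [0, 0, 0, 0, 2]), ([0, 0, 0, 0], [0, 0, 0, 1, 1]), ([0, 0, 0, 0], [0, 0, 0, 3]),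
  ([0, 0, 0, 0], [0, 0, 1, 2]), ([0, 0, 0, 0], [0, 0, 4]), ([0, 0, 0, 0], [0, 1, 1, 1]),
  ([0, 0, 0, 0], [0, 1, 3]), ([0, 0, 0, 0], [0, 2, 2]), ([0, 0, 0, 0], [0, 5]),
  ([0, 0, 0, 0], [1, 1, 2]), ([0, 0, 0, 0], [1, 4]), ([0, 0, 0, 0], [2, 3]),
  ([0, 0, 0, 0, 1], [0, 0, 0, 0, 0]), ([0, 0, 0, 0, 1], [0, 0, 0, 1]),
  ([0, 0, 0, 0, 1], [0, 0, 2]), ([0, 0, 0, 0, 1], [0, 1, 1]), ([0, 0, 0, 0, 1], [0, 3]),
  ([0, 0, 0, 0, 1], [1, 2]), ([0, 0, 0, 0, 1], [4]), ([0, 0, 0, 0, 2], [0, 0, 0, 0]),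
  ([0, 0, 0, 0, 2], [0, 0, 1]), ([0, 0, 0, 0, 2], [0, 2]), ([0, 0, 0, 0, 2], [1, 1]),
  ([0, 0, 0, 0, 2], [3])]

/-- the multipliers of a group -/
noncomputable def gm79x63 : List Mo := [
  ([0, 0, 0, 0, 0], [0, 0, 0, 0, 0, 0]), ([0, 0, 0, 0, 0], [0, 0, 0, 0, 1]),
  ([0, 0, 0, 0, 0], [0, 0, 0, 2]), ([0, 0, 0, 0, 0], [0, 0, 1, 1]), ([0, 0, 0, 0, 0], [0, 0, 3]),
  ([0, 0, 0, 0, 0], [0, 1, 2]), ([0, 0, 0, 0, 0], [0, 4]), ([0, 0, 0, 0, 0], [1, 1, 1]),
  ([0, 0, 0, 0, 0], [1, 3]), ([0, 0, 0, 0, 0], [2, 2]), ([0, 0, 0, 0, 0], [5]),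
  ([0, 0, 0, 0, 0, 1], [0, 0, 0, 0]), ([0, 0, 0, 0, 0, 1], [0, 0, 1]),
  ([0, 0, 0, 0, 0, 1], [0, 2]), ([0, 0, 0, 0, 0, 1], [1, 1]), ([0, 0, 0, 0, 0, 1], [3])]

/-- the multipliers of a group -/
noncomputable def gm79x64 : List Mo := [
  ([0, 0, 0, 0, 0, 0], [0, 0, 0, 0, 0]), ([0, 0, 0, 0, 0, 0], [0, 0, 0, 1]),
  ([0, 0, 0, 0, 0, 0], [0, 0, 2]), ([0, 0, 0, 0, 0, 0], [0, 1, 1]), ([0, 0, 0, 0, 0, 0], [0, 3]),
  ([0, 0, 0, 0, 0, 0], [1, 2]), ([0, 0, 0, 0, 0, 0], [4])]

/-- the multipliers of a group -/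
noncomputable def gm79x65 : List Mo := [
  ([0, 0, 0, 0, 0, 0, 0], [0, 0, 0, 0]), ([0, 0, 0, 0, 0, 0, 0], [0, 0, 1]),
  ([0, 0, 0, 0, 0, 0, 0], [0, 2]), ([0, 0, 0, 0, 0, 0, 0], [1, 1]), ([0, 0, 0, 0, 0, 0, 0], [3])]

/-- the multipliers -/
noncomputable def gm79 : List (List Mo) := [
  gm79x0, gm79x1, gm79x2, gm79x3, gm79x4, gm79x5, gm79x6, gm79x7, gm79x8, gm79x9, gm79x10, gm79x11,
  gm79x12, gm79x13, gm79x14, gm79x15, gm79x16, gm79x17, gm79x18, gm79x19, gm79x20, gm79x21,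
  gm79x22, gm79x23, gm79x24, gm79x25, gm79x26, gm79x27, gm79x28, gm79x29, gm79x30, gm79x31,
  gm79x32, gm79x33, gm79x34, gm79x35, gm79x36, gm79x37, gm79x38, gm79x39, gm79x40, gm79x41,
  gm79x42, gm79x43, gm79x44, gm79x45, gm79x46, gm79x47, gm79x48, gm79x49, gm79x50, gm79x51,
  gm79x52, gm79x53, gm79x54, gm79x55, gm79x56, gm79x57, gm79x58, gm79x59, gm79x60, gm79x61,
  gm79x62, gm79x63, gm79x64, gm79x65]

/-- the monomials of the residual -/
noncomputable def prs79 : List (ℕ × ℕ) := [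
  (0, 2), (0, 6), (0, 7), (0, 13), (0, 14), (0, 15), (0, 16), (0, 17), (0, 23), (0, 25), (0, 26),
  (0, 27), (0, 84), (0, 85), (0, 86), (0, 87), (0, 88), (0, 39), (0, 41), (0, 43), (0, 44),
  (0, 36), (0, 37), (0, 45), (0, 46), (0, 47), (0, 48), (0, 49), (0, 96), (0, 97), (0, 98),
  (0, 99), (0, 100), (0, 101), (0, 102), (0, 63), (0, 66), (0, 67), (0, 69), (0, 71), (0, 73),
  (0, 75), (0, 77), (0, 76), (0, 78), (0, 55), (0, 56), (0, 57), (0, 121), (0, 122), (0, 123),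
  (0, 124), (0, 125), (0, 126), (0, 127), (0, 128), (0, 129), (0, 130), (0, 131), (0, 132),
  (0, 133), (0, 134), (0, 135), (0, 136), (0, 137), (0, 138), (1, 60), (1, 63), (1, 66), (2, 75),
  (2, 77), (1, 67), (2, 76), (2, 78), (17, 88), (1, 55), (2, 66), (1, 56), (2, 67), (2, 68),
  (7, 44), (1, 69), (1, 71), (1, 73), (1, 75), (1, 77), (2, 126), (2, 127), (4, 44), (7, 102),
  (2, 55), (2, 56), (2, 57), (2, 58), (2, 59), (1, 121), (1, 122), (1, 123), (1, 124), (1, 125),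
  (1, 126), (1, 127), (2, 135), (2, 136), (2, 137), (2, 138), (1, 128), (1, 129), (1, 130),
  (1, 131), (1, 132), (1, 133), (1, 134), (1, 135), (1, 136), (1, 137), (1, 138), (4, 101),
  (4, 102), (10, 88), (3, 55), (5, 66), (4, 55), (6, 77), (5, 67), (4, 56), (6, 78), (4, 57),
  (17, 49), (7, 78), (3, 60), (3, 63), (3, 66), (4, 63), (5, 77), (4, 66), (6, 127), (4, 64),
  (5, 78), (4, 67), (7, 127), (17, 102), (4, 114), (6, 66), (4, 115), (6, 67), (4, 116), (6, 68),
  (7, 67), (10, 93), (7, 68), (3, 69), (3, 71), (3, 73), (3, 75), (3, 77), (4, 73), (5, 127),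
  (4, 75), (4, 77), (6, 137), (6, 138), (4, 76), (4, 78), (7, 137), (7, 138), (4, 103), (4, 104),
  (4, 105), (4, 106), (4, 107), (4, 108), (4, 109), (3, 121), (3, 122), (3, 123), (3, 124),
  (3, 125), (3, 126), (3, 127), (4, 124), (4, 125), (5, 137), (5, 138), (4, 126), (4, 127),
  (10, 49), (8, 50), (8, 55), (10, 50), (9, 55), (13, 77), (10, 55), (15, 127), (10, 51), (9, 56),
  (13, 78), (10, 56), (16, 127), (17, 125), (10, 57), (17, 127), (10, 58), (87, 102), (88, 102),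
  (9, 114), (10, 114), (12, 55), (15, 77), (9, 115), (10, 115), (12, 56), (15, 78), (10, 116),
  (12, 57), (17, 77), (10, 117), (12, 58), (16, 78), (12, 59), (32, 83), (17, 78), (8, 60),
  (8, 63), (8, 66), (9, 63), (11, 77), (9, 66), (13, 127), (12, 75), (12, 77), (10, 66), (15, 138),
  (9, 67), (14, 127), (12, 76), (12, 78), (10, 67), (16, 138), (10, 68), (17, 138), (9, 103),
  (10, 103), (9, 104), (10, 104), (9, 105), (10, 105), (9, 106), (10, 106), (9, 107), (10, 107),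
  (10, 108), (10, 109), (10, 110), (10, 111), (8, 69), (8, 71), (8, 73), (8, 75), (8, 77), (9, 73),
  (11, 127), (9, 75), (9, 77), (10, 73), (13, 138), (10, 75), (12, 127), (10, 77), (10, 76),
  (24, 102), (10, 78), (12, 103), (12, 104), (12, 105), (12, 106), (12, 107), (12, 108), (12, 109),
  (12, 110), (12, 111), (12, 112), (12, 113), (18, 55), (20, 50), (19, 55), (25, 77), (20, 55),
  (84, 127), (20, 51), (19, 56), (25, 78), (20, 56), (85, 127), (19, 57), (27, 77), (20, 57),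
  (86, 127), (26, 78), (20, 58), (87, 127), (20, 59), (88, 127), (95, 94), (18, 60), (18, 63),
  (18, 66), (19, 63), (21, 77), (19, 66), (25, 127), (22, 75), (22, 77), (20, 66), (84, 138),
  (19, 64), (21, 78), (19, 67), (26, 127), (22, 76), (22, 78), (20, 67), (85, 138), (27, 127),
  (31, 38), (32, 38), (20, 68), (86, 138), (24, 76), (24, 78), (38, 44), (87, 138), (88, 138),
  (19, 114), (20, 114), (22, 55), (32, 89), (19, 115), (20, 115), (22, 56), (32, 90), (19, 116),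
  (20, 116), (22, 57), (32, 91), (20, 117), (22, 58), (32, 92), (20, 118), (22, 59), (32, 93),
  (20, 119), (24, 57), (32, 94), (31, 95), (32, 95), (59, 82), (59, 83), (83, 112), (18, 69),
  (18, 71), (18, 73), (18, 75), (18, 77), (19, 73), (21, 127), (19, 75), (19, 77), (20, 73),
  (25, 138), (20, 75), (22, 127), (20, 77), (19, 76), (19, 78), (20, 74), (26, 138), (20, 76),
  (24, 127), (20, 78), (68, 88), (19, 103), (20, 103), (19, 104), (20, 104), (19, 105), (20, 105),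
  (19, 106), (20, 106), (19, 107), (20, 107), (19, 108), (20, 108), (19, 109), (20, 109),
  (20, 110), (20, 111), (20, 112), (20, 113), (38, 94), (38, 95), (18, 121), (18, 122), (18, 123),
  (18, 124), (18, 125), (18, 126), (18, 127), (19, 124), (19, 125), (20, 123), (21, 138),
  (19, 126), (19, 127), (20, 125), (22, 135), (22, 136), (20, 126), (22, 138), (20, 127), (32, 49),
  (24, 135), (24, 136), (24, 137), (24, 138), (38, 102), (59, 88), (22, 103), (22, 104), (22, 105),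
  (22, 106), (22, 107), (22, 108), (22, 109), (22, 110), (22, 111), (22, 112), (22, 113),
  (24, 108), (24, 109), (44, 93), (28, 50), (28, 55), (30, 50), (29, 55), (32, 50), (30, 55),
  (45, 127), (31, 55), (32, 55), (35, 66), (96, 138), (30, 51), (29, 56), (32, 51), (30, 56),
  (46, 127), (31, 56), (32, 56), (35, 67), (97, 138), (32, 52), (30, 57), (47, 127), (31, 57),
  (32, 57), (35, 68), (98, 138), (30, 58), (48, 127), (31, 58), (32, 58), (38, 67), (99, 138),
  (49, 127), (31, 59), (32, 59), (100, 137), (100, 138), (44, 78), (38, 68), (101, 138),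
  (102, 138), (29, 114), (30, 114), (31, 114), (32, 114), (35, 55), (95, 103), (29, 115),
  (30, 115), (31, 115), (32, 115), (35, 56), (95, 104), (30, 116), (31, 116), (32, 116), (35, 57),
  (95, 105), (30, 117), (31, 117), (32, 117), (35, 58), (95, 106), (31, 118), (32, 118), (35, 59),
  (95, 107), (32, 119), (38, 57), (95, 108), (94, 109), (95, 109), (38, 58), (95, 110), (95, 111),
  (95, 112), (28, 60), (28, 63), (28, 66), (29, 63), (32, 60), (29, 66), (39, 127), (31, 63),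
  (32, 63), (30, 66), (45, 138), (31, 66), (40, 127), (32, 66), (29, 67), (41, 127), (31, 64),
  (32, 64), (30, 67), (46, 138), (31, 67), (42, 127), (32, 67), (30, 68), (47, 138), (31, 68),
  (44, 127), (32, 68), (38, 76), (76, 102), (38, 78), (29, 103), (30, 103), (31, 103), (32, 103),
  (29, 104), (30, 104), (31, 104), (32, 104), (29, 105), (30, 105), (31, 105), (32, 105),
  (29, 106), (30, 106), (31, 106), (32, 106), (29, 107), (30, 107), (31, 107), (32, 107),
  (30, 108), (31, 108), (32, 108), (30, 109), (31, 109), (32, 109), (30, 110), (31, 110),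
  (32, 110), (30, 111), (31, 111), (32, 111), (31, 112), (32, 112), (31, 113), (32, 113), (59, 94),
  (59, 95), (28, 69), (28, 71), (28, 73), (28, 75), (28, 77), (29, 73), (33, 127), (29, 75),
  (29, 77), (30, 73), (39, 138), (30, 75), (34, 127), (30, 77), (31, 75), (31, 77), (35, 126),
  (40, 138), (35, 127), (32, 77), (30, 76), (37, 127), (30, 78), (31, 76), (31, 78), (38, 126),
  (42, 138), (38, 127), (32, 78), (68, 102), (34, 103), (35, 103), (34, 104), (35, 104), (34, 105),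
  (35, 105), (34, 106), (35, 106), (34, 107), (35, 107), (34, 108), (35, 108), (34, 109),
  (35, 109), (34, 110), (35, 110), (34, 111), (35, 111), (34, 112), (35, 112), (34, 113),
  (35, 113), (38, 108), (38, 109), (68, 93), (38, 110), (38, 111), (38, 112), (38, 113), (50, 55),
  (52, 50), (51, 55), (54, 50), (52, 55), (109, 103), (53, 55), (54, 55), (62, 66), (113, 103),
  (52, 51), (51, 56), (54, 51), (52, 56), (109, 104), (53, 56), (54, 56), (62, 67), (113, 104),
  (51, 57), (54, 52), (52, 57), (109, 105), (53, 57), (54, 57), (62, 68), (113, 105), (54, 53),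
  (52, 58), (109, 106), (53, 58), (54, 58), (65, 67), (113, 106), (52, 59), (109, 107), (53, 59),
  (54, 59), (112, 107), (113, 107), (109, 108), (58, 57), (59, 57), (65, 68), (113, 108),
  (110, 109), (111, 109), (112, 109), (113, 109), (59, 58), (112, 110), (113, 110), (112, 111),
  (113, 111), (113, 112), (50, 60), (50, 63), (50, 66), (51, 63), (54, 60), (51, 66), (69, 127),
  (53, 63), (54, 63), (52, 66), (113, 114), (53, 66), (70, 127), (54, 66), (51, 64), (54, 61),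
  (51, 67), (71, 127), (53, 64), (54, 64), (52, 67), (113, 115), (53, 67), (72, 127), (54, 67),
  (73, 127), (53, 65), (54, 65), (52, 68), (113, 116), (53, 68), (74, 127), (54, 68), (58, 64),
  (59, 64), (57, 67), (113, 117), (58, 67), (76, 127), (59, 67), (113, 118), (78, 126), (78, 127),
  (59, 68), (51, 114), (52, 114), (53, 114), (54, 114), (62, 55), (120, 103), (51, 115), (52, 115),
  (53, 115), (54, 115), (62, 56), (120, 104), (51, 116), (52, 116), (53, 116), (54, 116), (62, 57),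
  (120, 105), (52, 117), (53, 117), (54, 117), (62, 58), (120, 106), (52, 118), (53, 118),
  (54, 118), (62, 59), (120, 107), (52, 119), (53, 119), (54, 119), (65, 57), (120, 108),
  (53, 120), (54, 120), (119, 109), (120, 109), (59, 117), (65, 58), (120, 110), (59, 118),
  (65, 59), (120, 111), (118, 112), (68, 57), (120, 112), (119, 113), (120, 113), (68, 58),
  (50, 69), (50, 71), (50, 73), (50, 75), (50, 77), (51, 73), (60, 127), (51, 75), (51, 77),
  (52, 73), (69, 138), (52, 75), (61, 127), (52, 77), (53, 75), (53, 77), (62, 126), (70, 138),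
  (62, 127), (54, 77), (51, 76), (51, 78), (52, 74), (71, 138), (52, 76), (64, 127), (52, 78),
  (53, 76), (53, 78), (65, 126), (72, 138), (65, 127), (54, 78), (68, 125), (74, 135), (74, 136),
  (68, 126), (74, 138), (68, 127), (58, 76), (58, 78), (76, 137), (76, 138), (59, 78), (51, 103),
  (52, 103), (53, 103), (54, 103), (51, 104), (52, 104), (53, 104), (54, 104), (51, 105),
  (52, 105), (53, 105), (54, 105), (51, 106), (52, 106), (53, 106), (54, 106), (51, 107),
  (52, 107), (53, 107), (54, 107), (51, 108), (52, 108), (53, 108), (54, 108), (51, 109),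
  (52, 109), (53, 109), (54, 109), (52, 110), (53, 110), (54, 110), (52, 111), (53, 111),
  (54, 111), (52, 112), (53, 112), (54, 112), (52, 113), (53, 113), (54, 113), (57, 108),
  (58, 108), (59, 108), (57, 109), (58, 109), (59, 109), (74, 59), (59, 110), (59, 111), (59, 112),
  (59, 113)]

theorem tab79b_k : okK kb79 bas79 0 = true := by decide +kernel

theorem tab79b_i : okI 139 prs79 = true := by decide +kernel

theorem tab79b_l : bas79.length = 139 := by decide +kernel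

theorem tab79b_num : NumOK tab79b 168 where
  one := by decide +kernel
  q := by decide +kernel
  ga := by decide +kernel
  D := by decide +kernel
  M := by decide +kernel
  c := by decide +kernel
  d := by decide +kernel
  r := by decide +kernel

/-- **The tables are correct.** -/
theorem tab79b_ok : TabOK6 tab79b 168 rep79 bas79 qmSix gm79 prs79 where
  num := tab79b_num
  npos := by decide +kernel
  one := by decide +kernel
  q := by decide +kernel
  qv := by decide +kernel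
  g := okGsf_spec _ _ (by decide +kernel)
  c := okC_of tab79b_k (by rw [tab79b_l]; decide +kernel) _ 0 (by decide +kernel)
  d := by decide +kernel
  dv := okK_dv tab79b_k
  nB := by rw [tab79b_l]; decide +kernel
  r := okr_of tab79b_k tab79b_l tab79b_i (by decide +kernel)
  rv := okrv_of tab79b_k tab79b_l tab79b_i
  nR := by decide +kernel

end Pool.Agent.M16.Helper54.HR2

end

section

set_option autoImplicit false

set_option maxRecDepth 100000

namespace Pool.Agent.M16.Helper98.HR2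

open Pool.Agent.M16.Helper54.HR2

open Pool.Agent.M16.Helper12.HR2 (Mo GZ Par)

end Pool.Agent.M16.Helper98.HR2

end

end

section

namespace Pool.Agent.M16.Helper22.Half
end Pool.Agent.M16.Helper22.Half
namespace Pool.Agent.M16.Helper24.HR2
end Pool.Agent.M16.Helper24.HR2
namespace Pool.Agent.M16.Helper24.HR2.NB
end Pool.Agent.M16.Helper24.HR2.NB
namespace Pool.Agent.M16.Helper24.HR2.NM
end Pool.Agent.M16.Helper24.HR2.NM
namespace Pool.Agent.M16.Helper54.HR2
end Pool.Agent.M16.Helper54.HR2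
namespace Pool.Agent.M16.Helper12.HR2
end Pool.Agent.M16.Helper12.HR2

section

set_option autoImplicit false

open MeasureTheory Set Metric Filter Topology

open scoped Real ComplexConjugate

namespace Pool.Agent.M16.Helper24.HR2

open Pool.Agent.M16.Helper22.Half

noncomputable def en (s : ℂ) (b : ℝ) (n : ℕ) : ℝ :=
  ‖(1 + s) * pq (-s) n‖ ^ 2 * kap s.re (‖s‖ ^ 2) n * pq (b + 3) n / pq (b + 1 - 2 * s.re) n

/-- the quotient `en (n+1) / en n` -/
noncomputable def qn (s : ℂ) (b : ℝ) (n : ℕ) : ℝ :=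
  ((n : ℝ) ^ 2 - 2 * s.re * n + ‖s‖ ^ 2) / ((n : ℝ) + 1) ^ 2
    * (1 + ‖s‖ ^ 2 / (((n : ℝ) + 2) * (n + 2 + 2 * s.re)))
    * ((n + b + 3) / (n + b + 1 - 2 * s.re))

theorem re_gt {s : ℂ} (hs : ‖s‖ < 1) : -1 < s.re := by
  have h := Complex.abs_re_le_norm s
  have := neg_abs_le s.re
  linarith

theorem en_succ {s : ℂ} {b : ℝ} (hσ : 0 < b + 1 - 2 * s.re) (n : ℕ) :
    en s b (n + 1) = en s b n * qn s b n := by
  have h1 : ‖(1 + s) * pq (-s) (n + 1)‖ ^ 2
      = ‖(1 + s) * pq (-s) n‖ ^ 2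
        * (((n : ℝ) ^ 2 - 2 * s.re * n + ‖s‖ ^ 2) / ((n : ℝ) + 1) ^ 2) := by
    rw [pq_succ, norm_mul, norm_mul, norm_div, norm_mul, mul_pow, mul_pow, mul_pow, div_pow]
    have e1 : -s + (n : ℂ) = (n : ℂ) - s := by ring
    rw [e1, normSq_nat_sub]
    have e : ‖(n : ℂ) + 1‖ = (n : ℝ) + 1 := by
      have : (n : ℂ) + 1 = (((n : ℝ) + 1 : ℝ) : ℂ) := by push_cast; ring
      rw [this, Complex.norm_real, Real.norm_of_nonneg (by positivity)]
    rw [e]
    ring
  have h2 : 0 < pq (b + 1 - 2 * s.re) n := pq_pos hσ n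
  have h3 : 0 < b + 1 - 2 * s.re + n := by
    have : (0 : ℝ) ≤ n := Nat.cast_nonneg n
    linarith only [hσ]
  have h4 : (n : ℝ) + b + 1 - 2 * s.re = b + 1 - 2 * s.re + n := by ring
  have h5 : (n : ℝ) + b + 3 = b + 3 + n := by ring
  unfold en qn
  rw [h1, kap_succ, pq_succ (b + 3), pq_succ (b + 1 - 2 * s.re), h4, h5]
  generalize 1 + ‖s‖ ^ 2 / (((n : ℝ) + 2) * (n + 2 + 2 * s.re)) = w
  generalize ((n : ℝ) ^ 2 - 2 * s.re * n + ‖s‖ ^ 2) / ((n : ℝ) + 1) ^ 2 = v
  have h6 : (0 : ℝ) < (n : ℝ) + 1 := by positivity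
  field_simp

theorem en_nonneg {s : ℂ} (hs : ‖s‖ < 1) {b : ℝ} (hb : 0 < b) (hσ : 0 < b + 1 - 2 * s.re) (n : ℕ) :
    0 ≤ en s b n := by
  unfold en
  have h1 := pq_pos hσ n
  have h2 := pq_pos (by linarith only [hb] : 0 < b + 3) n
  have h3 := kap_ge_one (re_gt hs) (sq_nonneg ‖s‖) n
  have h4 : 0 ≤ kap s.re (‖s‖ ^ 2) n := by linarith
  positivity

theorem pq_euler (s : ℂ) (n : ℕ) :
    ((n : ℂ) + 1) * (pq (-s) (n + 1) * pq (1 + s) n)
      = -(s * ∏ j ∈ Finset.range n, (1 - s ^ 2 / ((j : ℂ) + 1) ^ 2)) := by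
  induction n with
  | zero => simp [pq]
  | succ n ih =>
    rw [Finset.prod_range_succ, pq_succ (-s) (n + 1), pq_succ (1 + s) n]
    have h1 : (n : ℂ) + 1 ≠ 0 := Nat.cast_add_one_ne_zero n
    have h2 : (n : ℂ) + 1 + 1 ≠ 0 := by
      have := Nat.cast_add_one_ne_zero (R := ℂ) (n + 1)
      push_cast at this
      exact this
    have e : -(s * ((∏ j ∈ Finset.range n, (1 - s ^ 2 / ((j : ℂ) + 1) ^ 2))
          * (1 - s ^ 2 / ((n : ℂ) + 1) ^ 2)))
        = -(s * ∏ j ∈ Finset.range n, (1 - s ^ 2 / ((j : ℂ) + 1) ^ 2))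
          * (1 - s ^ 2 / ((n : ℂ) + 1) ^ 2) := by ring
    rw [e, ← ih]
    push_cast
    field_simp
    ring

theorem euler_tendsto (s : ℂ) :
    Tendsto (fun n : ℕ => ‖((n : ℂ) + 1) * (pq (-s) (n + 1) * pq (1 + s) n)‖ ^ 2) atTop
      (𝓝 (cst s)) := by
  have h := Complex.tendsto_euler_sin_prod s
  have hpi : (π : ℂ) ≠ 0 := Complex.ofReal_ne_zero.mpr Real.pi_ne_zero
  have h2 := ((h.div_const (π : ℂ)).norm).pow 2
  unfold cst
  refine h2.congr ?_
  intro n
  rw [pq_euler, norm_neg]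
  congr 2
  field_simp

theorem pq_gamma {x : ℝ} (hx : 0 < x) {n : ℕ} (hn : n ≠ 0) :
    pq x (n + 1) * (((n : ℝ) + 1) * Real.GammaSeq x n) = (n : ℝ) ^ x := by
  have h1 : ∀ m : ℕ, pq x m * (m.factorial : ℝ) = ∏ j ∈ Finset.range m, (x + j) := by
    intro m
    induction m with
    | zero => simp [pq]
    | succ m ih =>
      rw [Finset.prod_range_succ, ← ih, pq_succ, Nat.factorial_succ]
      have : (m : ℝ) + 1 ≠ 0 := by positivity
      push_cast
      field_simp
  have h2 := h1 (n + 1)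
  have h3 : 0 < ∏ j ∈ Finset.range (n + 1), (x + j) := by
    apply Finset.prod_pos
    intro j _
    positivity
  rw [Real.GammaSeq]
  rw [Nat.factorial_succ] at h2
  push_cast at h2
  rw [← h2] at h3 ⊢
  have h4 : (0 : ℝ) < n.factorial := by positivity
  have h5 : (0 : ℝ) < (n : ℝ) + 1 := by positivity
  have h6 : 0 < pq x (n + 1) := pq_pos hx (n + 1)
  field_simp

theorem beta_tendsto {x y : ℝ} (hx : 0 < x) (hy : 0 < y) :
    Tendsto (fun n : ℕ => pq (x + y) (n + 1) / (pq x (n + 1) * pq y (n + 1) * ((n : ℝ) + 1))) atTop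
      (𝓝 (Real.Gamma x * Real.Gamma y / Real.Gamma (x + y))) := by
  have hxy : 0 < x + y := by linarith
  have h := ((Real.GammaSeq_tendsto_Gamma x).mul (Real.GammaSeq_tendsto_Gamma y)).div
    (Real.GammaSeq_tendsto_Gamma (x + y)) (Real.Gamma_pos_of_pos hxy).ne'
  refine h.congr' ?_
  filter_upwards [eventually_ne_atTop 0] with n hn
  have hn0 : (0 : ℝ) < n := by
    have : 0 < n := Nat.pos_of_ne_zero hn
    exact_mod_cast this
  have g1 := pq_gamma hx hn
  have g2 := pq_gamma hy hn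
  have g3 := pq_gamma hxy hn
  have p1 := pq_pos hx (n + 1)
  have p2 := pq_pos hy (n + 1)
  have p3 := pq_pos hxy (n + 1)
  rw [Real.rpow_add hn0] at g3
  have h5 : (0 : ℝ) < (n : ℝ) + 1 := by positivity
  have q1 : (0 : ℝ) < (n : ℝ) ^ x := Real.rpow_pos_of_pos hn0 x
  have q2 : (0 : ℝ) < (n : ℝ) ^ y := Real.rpow_pos_of_pos hn0 y
  have s1 : Real.GammaSeq x n = (n : ℝ) ^ x / (pq x (n + 1) * ((n : ℝ) + 1)) := by
    rw [← g1]; field_simp
  have s2 : Real.GammaSeq y n = (n : ℝ) ^ y / (pq y (n + 1) * ((n : ℝ) + 1)) := by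
    rw [← g2]; field_simp
  have s3 : Real.GammaSeq (x + y) n
      = (n : ℝ) ^ x * (n : ℝ) ^ y / (pq (x + y) (n + 1) * ((n : ℝ) + 1)) := by
    rw [← g3]; field_simp
  change Real.GammaSeq x n * Real.GammaSeq y n / Real.GammaSeq (x + y) n = _
  rw [s1, s2, s3]
  field_simp

private theorem B0_eq_pv1 {s : ℂ} (hs : ‖s‖ < 1) {b : ℝ} (hσ : 0 < b + 1 - 2 * s.re) :
    B0 s b = Real.Gamma (b + 1 - 2 * s.re) * Real.Gamma (2 + 2 * s.re) / Real.Gamma (b + 3) := by
  have hr := re_gt hs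
  have hβ : 0 < 2 + 2 * s.re := by linarith
  have h := ProbabilityTheory.beta_eq_betaIntegralReal (b + 1 - 2 * s.re) (2 + 2 * s.re) hσ hβ
  unfold ProbabilityTheory.beta at h
  have e : b + 1 - 2 * s.re + (2 + 2 * s.re) = b + 3 := by ring
  rw [e] at h
  rw [h, Complex.betaIntegral, intervalIntegral.integral_of_le (by norm_num),
    ← RCLike.re_to_complex, ← integral_re]
  · unfold B0
    rw [← integral_Ioc_eq_integral_Ioo]
    refine setIntegral_congr_fun measurableSet_Ioc fun x hx => ?_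
    obtain ⟨hx1, hx2⟩ := hx
    unfold alp
    have e1 : ((b + 1 - 2 * s.re : ℝ) : ℂ) - 1 = ((b - 2 * s.re : ℝ) : ℂ) := by push_cast; ring
    have e2 : ((2 + 2 * s.re : ℝ) : ℂ) - 1 = ((2 * s.re + 1 : ℝ) : ℂ) := by push_cast; ring
    have e3 : (1 : ℂ) - (x : ℂ) = ((1 - x : ℝ) : ℂ) := by push_cast; ring
    simp only [e1, e2, e3]
    rw [← Complex.ofReal_cpow hx1.le, ← Complex.ofReal_cpow (by linarith only [hx2]), RCLike.re_to_complex,
      Complex.re_mul_ofReal, Complex.ofReal_re]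
    ring
  · have hc := Complex.betaIntegral_convergent (u := ((b + 1 - 2 * s.re : ℝ) : ℂ))
      (v := ((2 + 2 * s.re : ℝ) : ℂ)) (by simpa using hσ) (by simpa using hβ)
    rw [intervalIntegrable_iff_integrableOn_Ioc_of_le (by norm_num)] at hc
    exact hc

/-- the elementary factor -/
theorem ratio_tendsto (s : ℂ) (k : ℕ) :
    Tendsto (fun n : ℕ => ‖1 + s + ((n + k : ℕ) : ℂ)‖ ^ 2 / ((n : ℝ) + k + 1) ^ 2) atTop
      (𝓝 1) := by
  have h1 : Tendsto (fun n : ℕ => 1 / ((n : ℝ) + 1)) atTop (𝓝 0) :=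
    tendsto_one_div_add_atTop_nhds_zero_nat
  have h2 : Tendsto (fun n : ℕ => 1 / (((n + k : ℕ) : ℝ) + 1)) atTop (𝓝 0) :=
    h1.comp (tendsto_add_atTop_nat k)
  have h3 : Tendsto (fun n : ℕ => 1 + 2 * s.re * (1 / (((n + k : ℕ) : ℝ) + 1))
      + ‖s‖ ^ 2 * (1 / (((n + k : ℕ) : ℝ) + 1)) ^ 2) atTop
      (𝓝 (1 + 2 * s.re * 0 + ‖s‖ ^ 2 * 0 ^ 2)) :=
    ((h2.const_mul (2 * s.re)).const_add 1).add ((h2.pow 2).const_mul (‖s‖ ^ 2))
  have e : (1 : ℝ) + 2 * s.re * 0 + ‖s‖ ^ 2 * 0 ^ 2 = 1 := by ring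
  rw [e] at h3
  refine h3.congr ?_
  intro n
  rw [normSq_one_add]
  push_cast
  have : (0 : ℝ) < (n : ℝ) + k + 1 := by positivity
  field_simp

theorem en_formula {s : ℂ} (hs : ‖s‖ < 1) {b : ℝ} (hσ : 0 < b + 1 - 2 * s.re) (n : ℕ) :
    en s b (n + 1) = ‖((n : ℂ) + 1) * (pq (-s) (n + 1) * pq (1 + s) n)‖ ^ 2
      * (pq (b + 1 - 2 * s.re + (2 + 2 * s.re)) (n + 1)
          / (pq (b + 1 - 2 * s.re) (n + 1) * pq (2 + 2 * s.re) (n + 1) * ((n : ℝ) + 1)))
      * ((‖1 + s + ((n + 0 : ℕ) : ℂ)‖ ^ 2 / ((n : ℝ) + (0 : ℕ) + 1) ^ 2)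
        * (‖1 + s + ((n + 1 : ℕ) : ℂ)‖ ^ 2 / ((n : ℝ) + (1 : ℕ) + 1) ^ 2)
        * (1 + 1 / ((n : ℝ) + 1))) := by
  have hr := re_gt hs
  have hβ : 0 < 2 + 2 * s.re := by linarith only [hr]
  have hQ := norm_Q s hr (n + 1)
  have p2 := pq_pos hβ (n + 1)
  have p1 := pq_pos hσ (n + 1)
  have e0 : b + 1 - 2 * s.re + (2 + 2 * s.re) = b + 3 := by ring
  have nn : ∀ m : ℕ, ‖(m : ℂ) + 1‖ = (m : ℝ) + 1 := by
    intro m
    have : (m : ℂ) + 1 = (((m : ℝ) + 1 : ℝ) : ℂ) := by push_cast; ring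
    rw [this, Complex.norm_real, Real.norm_of_nonneg (by positivity)]
  have hk : ‖1 + s‖ ^ 2 * kap s.re (‖s‖ ^ 2) (n + 1)
      = ((n : ℝ) + 2) * ‖pq (1 + s) (n + 2)‖ ^ 2 / pq (2 + 2 * s.re) (n + 1) := by
    rw [eq_div_iff p2.ne', ← hQ]
    push_cast
    ring
  have hp : ‖pq (1 + s) (n + 2)‖ ^ 2 = ‖pq (1 + s) n‖ ^ 2
      * (‖1 + s + (n : ℂ)‖ ^ 2 / ((n : ℝ) + 1) ^ 2)
      * (‖1 + s + ((n + 1 : ℕ) : ℂ)‖ ^ 2 / ((n : ℝ) + 2) ^ 2) := by
    rw [pq_succ (1 + s) (n + 1), pq_succ (1 + s) n, norm_mul, norm_mul, norm_div, norm_div,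
      nn (n + 1), nn n]
    have h7 : (((n + 1 : ℕ) : ℝ)) + 1 = (n : ℝ) + 2 := by push_cast; ring
    have h5 : (0 : ℝ) < (n : ℝ) + 1 := by positivity
    have h6 : (0 : ℝ) < (n : ℝ) + 2 := by positivity
    rw [h7]
    field_simp
  have hen : en s b (n + 1) = ‖pq (-s) (n + 1)‖ ^ 2
      * (‖1 + s‖ ^ 2 * kap s.re (‖s‖ ^ 2) (n + 1)) * pq (b + 3) (n + 1)
      / pq (b + 1 - 2 * s.re) (n + 1) := by
    unfold en
    rw [norm_mul, mul_pow]
    ring
  rw [hen, hk, hp, e0, norm_mul, norm_mul, nn n]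
  simp only [add_zero, Nat.cast_zero, Nat.cast_one]
  have h5 : (0 : ℝ) < (n : ℝ) + 1 := by positivity
  have h6 : (0 : ℝ) < (n : ℝ) + 2 := by positivity
  have h7 : (n : ℝ) + 1 + 1 = n + 2 := by ring
  have h8 : (1 : ℝ) + 1 / ((n : ℝ) + 1) = (n + 2) / (n + 1) := by
    field_simp
    ring
  rw [h7, h8]
  field_simp

set_option linter.unusedVariables false in
theorem en_tendsto {s : ℂ} (hs0 : s ≠ 0) (hs : ‖s‖ < 1) {b : ℝ} (hb : 0 < b)
    (hσ : 0 < b + 1 - 2 * s.re) : Tendsto (en s b) atTop (𝓝 (Es s b)) := by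
  have hr := re_gt hs
  have hβ : 0 < 2 + 2 * s.re := by linarith only [hr]
  have h1 := euler_tendsto s
  have h2 := beta_tendsto hσ hβ
  have h3 := ratio_tendsto s 0
  have h4 := ratio_tendsto s 1
  have h5 : Tendsto (fun n : ℕ => 1 + 1 / ((n : ℝ) + 1)) atTop (𝓝 (1 + 0)) :=
    tendsto_one_div_add_atTop_nhds_zero_nat.const_add 1
  have h6 := (h1.mul h2).mul ((h3.mul h4).mul h5)
  have e0 : b + 1 - 2 * s.re + (2 + 2 * s.re) = b + 3 := by ring
  have e : cst s * (Real.Gamma (b + 1 - 2 * s.re) * Real.Gamma (2 + 2 * s.re)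
      / Real.Gamma (b + 1 - 2 * s.re + (2 + 2 * s.re))) * (1 * 1 * (1 + 0)) = Es s b := by
    unfold Es
    rw [B0_eq_pv1 hs hσ, e0]
    ring
  rw [e] at h6
  rw [← tendsto_add_atTop_iff_nat 1]
  refine h6.congr ?_
  intro n
  exact (en_formula hs hσ n).symm

end Pool.Agent.M16.Helper24.HR2

end

section

set_option autoImplicit false

open Filter Topology

open scoped Real

namespace Pool.Agent.M16.Helper53.HR2

open Pool.Agent.M16.Helper24.HR2

open Pool.Agent.M16.Helper22.Half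

/-- the value of a polynomial -/
noncomputable def pev : List ℚ → ℝ → ℝ
  | [], _ => 0
  | a :: l, x => (a : ℝ) + x * pev l x

/-- sum -/
def padd : List ℚ → List ℚ → List ℚ
  | [], l => l
  | a :: l, [] => a :: l
  | a :: l, b :: m => (a + b) :: padd l m

/-- scalar multiple -/
def psm (t : ℚ) : List ℚ → List ℚ
  | [] => []
  | a :: l => (t * a) :: psm t l

/-- multiplication by `x + a` -/
def plin (a : ℚ) (l : List ℚ) : List ℚ := padd (psm a l) (0 :: l)

/-- multiplication by `x ^ 2 + u x + v` -/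
def pquad (u v : ℚ) (l : List ℚ) : List ℚ := padd (psm v l) (0 :: padd (psm u l) (0 :: l))

theorem pev_add (x : ℝ) : ∀ l m : List ℚ, pev (padd l m) x = pev l x + pev m x
  | [], m => by simp [padd, pev]
  | a :: l, [] => by simp [padd, pev]
  | a :: l, b :: m => by
    simp only [padd, pev, pev_add x l m]
    push_cast
    ring

theorem pev_sm (x : ℝ) (t : ℚ) : ∀ l : List ℚ, pev (psm t l) x = t * pev l x
  | [] => by simp [psm, pev]
  | a :: l => by
    simp only [psm, pev, pev_sm x t l]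
    push_cast
    ring

theorem pev_lin (x : ℝ) (a : ℚ) (l : List ℚ) : pev (plin a l) x = (x + a) * pev l x := by
  rw [plin, pev_add, pev_sm]
  simp only [pev]
  push_cast
  ring

theorem pev_quad (x : ℝ) (u v : ℚ) (l : List ℚ) :
    pev (pquad u v l) x = (x ^ 2 + u * x + v) * pev l x := by
  rw [pquad, pev_add, pev_sm]
  simp only [pev]
  rw [pev_add, pev_sm]
  simp only [pev]
  push_cast
  ring

theorem pev_nonneg {x : ℝ} (hx : 0 ≤ x) : ∀ {l : List ℚ}, (l.all fun a => decide (0 ≤ a)) = true →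
    0 ≤ pev l x
  | [], _ => le_refl _
  | a :: l, h => by
    rw [List.all_cons, Bool.and_eq_true, decide_eq_true_eq] at h
    have h1 : (0 : ℝ) ≤ (a : ℝ) := by exact_mod_cast h.1
    have h2 := pev_nonneg hx h.2
    simp only [pev]
    positivity

/-- the quotients -/
def qnQ (r q b k : ℚ) : ℚ :=
  (k ^ 2 - 2 * r * k + q) * ((k + 2) * (k + 2 + 2 * r) + q) * (k + b + 3)
    / ((k + 1) ^ 2 * ((k + 2) * (k + 2 + 2 * r)) * (k + b + 1 - 2 * r))

/-- the approximations -/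
def enQ (r q b : ℚ) : ℕ → ℚ
  | 0 => 1 + 2 * r + q
  | n + 1 => enQ r q b n * qnQ r q b n

theorem qn_eq {s : ℂ} {r q b : ℚ} (hr : s.re = r) (hq : ‖s‖ ^ 2 = q) (hs : ‖s‖ < 1) (k : ℕ) :
    qn s b k = (qnQ r q b k : ℚ) := by
  have h1 := re_gt hs
  rw [hr] at h1
  have hk : (0 : ℝ) ≤ k := Nat.cast_nonneg k
  have h2 : (k : ℝ) + 2 + 2 * (r : ℝ) ≠ 0 := by
    have : 0 < (k : ℝ) + 2 + 2 * (r : ℝ) := by linarith only [h1]
    exact this.ne'
  have h3 : (k : ℝ) + 2 ≠ 0 := by positivity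
  have h4 : (k : ℝ) + 1 ≠ 0 := by positivity
  unfold qn qnQ
  rw [hr, hq]
  push_cast
  have e : (1 : ℝ) + (q : ℝ) / (((k : ℝ) + 2) * (k + 2 + 2 * r))
      = (((k : ℝ) + 2) * (k + 2 + 2 * r) + q) / (((k : ℝ) + 2) * (k + 2 + 2 * r)) := by
    field_simp
  rw [e, div_mul_div_comm, div_mul_div_comm]

theorem en_eq {s : ℂ} {r q b : ℚ} (hr : s.re = r) (hq : ‖s‖ ^ 2 = q) (hs : ‖s‖ < 1)
    (hσ : (0 : ℝ) < b + 1 - 2 * s.re) (n : ℕ) : en s b n = (enQ r q b n : ℚ) := by
  induction n with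
  | zero =>
    have h1 : ‖1 + s‖ ^ 2 = 1 + 2 * s.re + ‖s‖ ^ 2 := by
      rw [← Complex.normSq_eq_norm_sq, ← Complex.normSq_eq_norm_sq, Complex.normSq_apply,
        Complex.normSq_apply]
      simp
      ring
    simp only [en, enQ, pq_zero, kap_zero, mul_one, div_one]
    rw [h1, hr, hq]
    push_cast
    ring
  | succ n ih =>
    rw [en_succ hσ, ih, qn_eq hr hq hs, enQ]
    push_cast
    rfl

theorem pev_diff (l m : List ℚ) (x : ℝ) : pev (padd l (psm (-1) m)) x = pev l x - pev m x := by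
  rw [pev_add, pev_sm]
  push_cast
  ring

theorem Es_upper2 {s : ℂ} (hs0 : s ≠ 0) (hs : ‖s‖ < 1) {b : ℝ} (hb : 0 < b)
    (hσ : 0 < b + 1 - 2 * s.re) {n : ℕ} {β γ : ℝ} (hβ : 0 < (n : ℝ) + β) (hγ : 0 < (n : ℝ) + γ)
    (hq : ∀ k : ℕ, n ≤ k → qn s b k ≤ ((k : ℝ) + 1 + β) * (k + γ) / ((k + β) * (k + γ + 1))) :
    Es s b ≤ en s b n * ((n + γ) / (n + β)) := by
  have hlim := en_tendsto hs0 hs hb hσ
  have hen := en_nonneg hs hb hσ n
  have key : ∀ m : ℕ, n ≤ m → en s b m * ((m + γ) / (m + β)) ≤ en s b n * ((n + γ) / (n + β)) := by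
    intro m hm
    induction m, hm using Nat.le_induction with
    | base => exact le_refl _
    | succ m hm ih =>
      have hmn : (n : ℝ) ≤ m := by exact_mod_cast hm
      have h1 : 0 < (m : ℝ) + β := by linarith only [hβ, hmn]
      have h2 : 0 < (m : ℝ) + γ := by linarith only [hγ, hmn]
      have h3 : 0 < (m : ℝ) + 1 + β := by linarith only [h1]
      have h4 : 0 < (m : ℝ) + γ + 1 := by linarith only [h2]
      have h5 := hq m hm
      have h6 := en_nonneg hs hb hσ m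
      rw [en_succ hσ m]
      refine le_trans ?_ ih
      have e : (((m + 1 : ℕ) : ℝ) + γ) / (((m + 1 : ℕ) : ℝ) + β)
          = ((m : ℝ) + γ + 1) / (m + 1 + β) := by
        push_cast
        congr 1
        ring
      rw [e]
      have h7 : qn s b m * (((m : ℝ) + γ + 1) / (m + 1 + β)) ≤ (m + γ) / (m + β) := by
        calc qn s b m * (((m : ℝ) + γ + 1) / (m + 1 + β))
            ≤ ((m : ℝ) + 1 + β) * (m + γ) / ((m + β) * (m + γ + 1))
                * (((m : ℝ) + γ + 1) / (m + 1 + β)) :=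
              mul_le_mul_of_nonneg_right h5 (by positivity)
          _ = (m + γ) / (m + β) := by
              field_simp
      calc en s b m * qn s b m * (((m : ℝ) + γ + 1) / (m + 1 + β))
          = en s b m * (qn s b m * (((m : ℝ) + γ + 1) / (m + 1 + β))) := by ring
        _ ≤ en s b m * ((m + γ) / (m + β)) := mul_le_mul_of_nonneg_left h7 h6
  have hinv : Tendsto (fun m : ℕ => ((m : ℝ))⁻¹) atTop (𝓝 0) := tendsto_inv_atTop_nhds_zero_nat
  have hr : Tendsto (fun m : ℕ => ((m : ℝ) + γ) / (m + β)) atTop (𝓝 1) := by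
    have h1 : Tendsto (fun m : ℕ => (1 + γ * (m : ℝ)⁻¹) / (1 + β * (m : ℝ)⁻¹)) atTop
        (𝓝 ((1 + γ * 0) / (1 + β * 0))) := by
      apply Tendsto.div ((hinv.const_mul γ).const_add 1) ((hinv.const_mul β).const_add 1)
      simp
    have h2 : ((1 : ℝ) + γ * 0) / (1 + β * 0) = 1 := by simp
    rw [h2] at h1
    refine h1.congr' ?_
    filter_upwards [eventually_gt_atTop 0, eventually_ge_atTop n] with m hm hmn
    have hm0 : (0 : ℝ) < m := by exact_mod_cast hm
    have hm1 : (n : ℝ) ≤ m := by exact_mod_cast hmn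
    have h3 : 0 < (m : ℝ) + β := by linarith only [hβ, hm1]
    have e1 : (1 : ℝ) + γ * (m : ℝ)⁻¹ = ((m : ℝ) + γ) / m := by field_simp
    have e2 : (1 : ℝ) + β * (m : ℝ)⁻¹ = ((m : ℝ) + β) / m := by field_simp
    rw [e1, e2]
    field_simp
  have h := le_of_tendsto (hlim.mul hr) (eventually_atTop.2 ⟨n, fun m hm => key m hm⟩)
  simpa using h

theorem Es_lower2 {s : ℂ} (hs0 : s ≠ 0) (hs : ‖s‖ < 1) {b : ℝ} (hb : 0 < b)
    (hσ : 0 < b + 1 - 2 * s.re) {n : ℕ} {β γ : ℝ} (hβ : 0 < (n : ℝ) + β) (hγ : 0 < (n : ℝ) + γ)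
    (hq : ∀ k : ℕ, n ≤ k → ((k : ℝ) + 1 + β) * (k + γ) / ((k + β) * (k + γ + 1)) ≤ qn s b k) :
    en s b n * ((n + γ) / (n + β)) ≤ Es s b := by
  have hlim := en_tendsto hs0 hs hb hσ
  have hen := en_nonneg hs hb hσ n
  have key : ∀ m : ℕ, n ≤ m → en s b n * ((n + γ) / (n + β)) ≤ en s b m * ((m + γ) / (m + β)) := by
    intro m hm
    induction m, hm using Nat.le_induction with
    | base => exact le_refl _
    | succ m hm ih =>
      have hmn : (n : ℝ) ≤ m := by exact_mod_cast hm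
      have h1 : 0 < (m : ℝ) + β := by linarith only [hβ, hmn]
      have h2 : 0 < (m : ℝ) + γ := by linarith only [hγ, hmn]
      have h3 : 0 < (m : ℝ) + 1 + β := by linarith only [h1]
      have h4 : 0 < (m : ℝ) + γ + 1 := by linarith only [h2]
      have h5 := hq m hm
      have h6 := en_nonneg hs hb hσ m
      rw [en_succ hσ m]
      refine le_trans ih ?_
      have e : (((m + 1 : ℕ) : ℝ) + γ) / (((m + 1 : ℕ) : ℝ) + β)
          = ((m : ℝ) + γ + 1) / (m + 1 + β) := by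
        push_cast
        congr 1
        ring
      rw [e]
      have h7 : (m + γ) / (m + β) ≤ qn s b m * (((m : ℝ) + γ + 1) / (m + 1 + β)) := by
        calc (m + γ) / (m + β) = ((m : ℝ) + 1 + β) * (m + γ) / ((m + β) * (m + γ + 1))
                * (((m : ℝ) + γ + 1) / (m + 1 + β)) := by
              field_simp
          _ ≤ qn s b m * (((m : ℝ) + γ + 1) / (m + 1 + β)) :=
              mul_le_mul_of_nonneg_right h5 (by positivity)
      calc en s b m * ((m + γ) / (m + β))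
          ≤ en s b m * (qn s b m * (((m : ℝ) + γ + 1) / (m + 1 + β))) :=
            mul_le_mul_of_nonneg_left h7 h6
        _ = en s b m * qn s b m * (((m : ℝ) + γ + 1) / (m + 1 + β)) := by ring
  have hinv : Tendsto (fun m : ℕ => ((m : ℝ))⁻¹) atTop (𝓝 0) := tendsto_inv_atTop_nhds_zero_nat
  have hr : Tendsto (fun m : ℕ => ((m : ℝ) + γ) / (m + β)) atTop (𝓝 1) := by
    have h1 : Tendsto (fun m : ℕ => (1 + γ * (m : ℝ)⁻¹) / (1 + β * (m : ℝ)⁻¹)) atTop
        (𝓝 ((1 + γ * 0) / (1 + β * 0))) := by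
      apply Tendsto.div ((hinv.const_mul γ).const_add 1) ((hinv.const_mul β).const_add 1)
      simp
    have h2 : ((1 : ℝ) + γ * 0) / (1 + β * 0) = 1 := by simp
    rw [h2] at h1
    refine h1.congr' ?_
    filter_upwards [eventually_gt_atTop 0, eventually_ge_atTop n] with m hm hmn
    have hm0 : (0 : ℝ) < m := by exact_mod_cast hm
    have hm1 : (n : ℝ) ≤ m := by exact_mod_cast hmn
    have h3 : 0 < (m : ℝ) + β := by linarith only [hβ, hm1]
    have e1 : (1 : ℝ) + γ * (m : ℝ)⁻¹ = ((m : ℝ) + γ) / m := by field_simp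
    have e2 : (1 : ℝ) + β * (m : ℝ)⁻¹ = ((m : ℝ) + β) / m := by field_simp
    rw [e1, e2]
    field_simp
  have h := ge_of_tendsto (hlim.mul hr) (eventually_atTop.2 ⟨n, fun m hm => key m hm⟩)
  simpa using h

/-- numerator of the quotient, in `x = k - n`, times `(k + β) (k + γ + 1)` -/
def lhsP2 (r q b n be ga : ℚ) : List ℚ :=
  pquad (2 * n - 2 * r) (n ^ 2 - 2 * r * n + q)
    (pquad (2 * n + 4 + 2 * r) (n ^ 2 + (4 + 2 * r) * n + 4 + 4 * r + q)
      (plin (n + b + 3) (plin (n + be) [n + ga + 1, 1])))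

/-- denominator of the quotient, in `x = k - n`, times `(k + 1 + β) (k + γ)` -/
def rhsP2 (r b n be ga : ℚ) : List ℚ :=
  plin (n + b + 1 - 2 * r) (plin (n + 2 + 2 * r) (plin (n + 2) (plin (n + 1) (plin (n + 1)
    (plin (n + 1 + be) [n + ga, 1])))))

theorem pev_lhs2 (r q b n be ga : ℚ) (x : ℝ) : pev (lhsP2 r q b n be ga) x
    = ((x + n) ^ 2 - 2 * r * (x + n) + q) * ((x + n + 2) * (x + n + 2 + 2 * r) + q)
      * (x + n + b + 3) * ((x + n + be) * (x + n + ga + 1)) := by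
  simp only [lhsP2, pev_quad, pev_lin, pev]
  push_cast
  ring

theorem pev_rhs2 (r b n be ga : ℚ) (x : ℝ) : pev (rhsP2 r b n be ga) x
    = (x + n + 1) ^ 2 * ((x + n + 2) * (x + n + 2 + 2 * r)) * (x + n + b + 1 - 2 * r)
      * ((x + n + 1 + be) * (x + n + ga)) := by
  simp only [rhsP2, pev_lin, pev]
  push_cast
  ring

/-- the second check: `bu, gu` are the parameters `β, γ` of the upper bound, `bl, gl` those of the
lower bound; best choice `γ = β + cinf` (see the generator) -/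
def esQ2 (r q b : ℚ) (n : ℕ) (bu gu bl gl Elo Ehi : ℚ) : Bool :=
  decide (0 < (n : ℚ) + bu) && decide (0 < (n : ℚ) + gu)
    && decide (0 < (n : ℚ) + bl) && decide (0 < (n : ℚ) + gl)
    && (padd (rhsP2 r b n bu gu) (psm (-1) (lhsP2 r q b n bu gu))).all (fun a => decide (0 ≤ a))
    && (padd (lhsP2 r q b n bl gl) (psm (-1) (rhsP2 r b n bl gl))).all (fun a => decide (0 ≤ a))
    && decide (0 ≤ Elo) && decide (Elo ≤ enQ r q b n * ((n + gl) / (n + bl)))
    && decide (enQ r q b n * ((n + gu) / (n + bu)) ≤ Ehi)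

/-- the sharper enclosure of the main constant -/
theorem esQ2_sound {s : ℂ} {r q b : ℚ} {n : ℕ} {bu gu bl gl Elo Ehi : ℚ} (hr : s.re = r)
    (hq : ‖s‖ ^ 2 = q) (hs0 : s ≠ 0) (hs : ‖s‖ < 1) (hb : (0 : ℝ) < b)
    (hσ : (0 : ℝ) < b + 1 - 2 * s.re) (h : esQ2 r q b n bu gu bl gl Elo Ehi = true) :
    (Elo : ℝ) ≤ Es s b ∧ Es s b ≤ Ehi ∧ (0 : ℝ) ≤ Elo := by
  simp only [esQ2, Bool.and_eq_true, decide_eq_true_eq] at h
  obtain ⟨⟨⟨⟨⟨⟨⟨⟨h1, h1'⟩, h2⟩, h2'⟩, h4⟩, h5⟩, h6⟩, h7⟩, h8⟩ := h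
  have g1 : (0 : ℝ) < (n : ℝ) + bu := by exact_mod_cast h1
  have g1' : (0 : ℝ) < (n : ℝ) + gu := by exact_mod_cast h1'
  have g2 : (0 : ℝ) < (n : ℝ) + bl := by exact_mod_cast h2
  have g2' : (0 : ℝ) < (n : ℝ) + gl := by exact_mod_cast h2'
  have hre := re_gt hs
  have hre' : -1 < (r : ℝ) := by rw [← hr]; exact hre
  have hσ' : (0 : ℝ) < b + 1 - 2 * r := by rw [← hr]; exact hσ
  have key : ∀ k : ℕ, n ≤ k → ∃ x : ℝ, 0 ≤ x ∧ (x + ((n : ℚ) : ℝ)) = k := by
    intro k hk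
    refine ⟨(k : ℝ) - n, ?_, ?_⟩
    · have : (n : ℝ) ≤ k := by exact_mod_cast hk
      linarith only [this]
    · push_cast
      ring
  have hqU : ∀ k : ℕ, n ≤ k → qn s b k
      ≤ ((k : ℝ) + 1 + bu) * (k + gu) / ((k + bu) * (k + gu + 1)) := by
    intro k hk
    obtain ⟨x, hx, hxk⟩ := key k hk
    have hp := pev_nonneg hx h4
    rw [pev_diff, pev_lhs2, pev_rhs2, hxk] at hp
    have hk0 : (0 : ℝ) ≤ k := Nat.cast_nonneg k
    have hkn : (n : ℝ) ≤ k := by exact_mod_cast hk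
    have p1 : (0 : ℝ) < (k : ℝ) + 2 + 2 * r := by linarith only [hre']
    have p2 : (0 : ℝ) < (k : ℝ) + b + 1 - 2 * r := by linarith only [hσ']
    have p3 : (0 : ℝ) < (k : ℝ) + 1 := by linarith only []
    have p4 : (0 : ℝ) < (k : ℝ) + 2 := by linarith only []
    have p5 : (0 : ℝ) < (k : ℝ) + bu := by linarith only [g1, hkn]
    have p6 : (0 : ℝ) < (k : ℝ) + gu + 1 := by linarith only [g1', hkn]
    rw [qn_eq hr hq hs]
    unfold qnQ
    push_cast
    rw [div_le_div_iff₀ (by positivity) (by positivity)]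
    linarith
  have hqL : ∀ k : ℕ, n ≤ k → ((k : ℝ) + 1 + bl) * (k + gl) / ((k + bl) * (k + gl + 1))
      ≤ qn s b k := by
    intro k hk
    obtain ⟨x, hx, hxk⟩ := key k hk
    have hp := pev_nonneg hx h5
    rw [pev_diff, pev_lhs2, pev_rhs2, hxk] at hp
    have hk0 : (0 : ℝ) ≤ k := Nat.cast_nonneg k
    have hkn : (n : ℝ) ≤ k := by exact_mod_cast hk
    have p1 : (0 : ℝ) < (k : ℝ) + 2 + 2 * r := by linarith only [hre']
    have p2 : (0 : ℝ) < (k : ℝ) + b + 1 - 2 * r := by linarith only [hσ']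
    have p3 : (0 : ℝ) < (k : ℝ) + 1 := by linarith only []
    have p4 : (0 : ℝ) < (k : ℝ) + 2 := by linarith only []
    have p5 : (0 : ℝ) < (k : ℝ) + bl := by linarith only [g2, hkn]
    have p6 : (0 : ℝ) < (k : ℝ) + gl + 1 := by linarith only [g2', hkn]
    rw [qn_eq hr hq hs]
    unfold qnQ
    push_cast
    rw [div_le_div_iff₀ (by positivity) (by positivity)]
    linarith
  have f1 := Es_lower2 hs0 hs hb hσ g2 g2' hqL
  have f2 := Es_upper2 hs0 hs hb hσ g1 g1' hqU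
  rw [en_eq hr hq hs hσ] at f1 f2
  refine ⟨le_trans ?_ f1, le_trans f2 ?_, by exact_mod_cast h6⟩
  · have : ((Elo : ℚ) : ℝ) ≤ ((enQ r q b n * ((n + gl) / (n + bl)) : ℚ) : ℝ) := by
      exact_mod_cast h7
    push_cast at this
    exact this
  · have : ((enQ r q b n * ((n + gu) / (n + bu)) : ℚ) : ℝ) ≤ (Ehi : ℝ) := by exact_mod_cast h8
    push_cast at this
    exact this

end Pool.Agent.M16.Helper53.HR2

end

section

set_option autoImplicit false

open Filter Topology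

open scoped Real

namespace Pool.Agent.M16.Helper53.HR2

open Pool.Agent.M16.Helper24.HR2

open Pool.Agent.M16.Helper24.HR2.NB Pool.Agent.M16.Helper24.HR2.NM

open Pool.Agent.M16.Helper22.Half

theorem div_up (x : ℕ) {y : ℕ} (hy : 0 < y) : (x : ℝ) / y ≤ ((x / y + 1 : ℕ) : ℝ) := by
  have h := Nat.lt_mul_div_succ x hy
  have hy' : (0 : ℝ) < y := by exact_mod_cast hy
  rw [div_le_iff₀ hy']
  have h2 : (x : ℝ) < ((y * (x / y + 1) : ℕ) : ℝ) := by exact_mod_cast h
  rw [Nat.cast_mul] at h2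
  linarith

theorem div_dn (x y : ℕ) : ((x / y : ℕ) : ℝ) ≤ (x : ℝ) / y := Nat.cast_div_le

/-- one step of the moments -/
def gNum (D R N g : ℕ) : ℕ := g * (R + N * D)

/-- one step of the convolutions -/
def cNum (D B R N c g : ℕ) : ℕ := (N * D + 2 * R) * c + (2 * B + 4 * D) * g

def goU (D B R : ℕ) : ℕ → ℕ → ℕ → ℕ → ℕ → ℕ × ℕ × ℕ
  | 0, _, g, c, s => (g, c, s)
  | k + 1, N, g, c, s =>
    goU D B R k (N + 1) (gNum D R N g / (B + 3 * D + N * D) + 1)
      (cNum D B R N c (gNum D R N g / (B + 3 * D + N * D) + 1) / (N * D + 2 * B + 5 * D) + 1)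
      (s + (c * (D * D) / ((B + (N + 2) * D) * (B + (N + 3) * D)) + 1))

def goL (D B R : ℕ) : ℕ → ℕ → ℕ → ℕ → ℕ → ℕ × ℕ × ℕ
  | 0, _, g, c, s => (g, c, s)
  | k + 1, N, g, c, s =>
    goL D B R k (N + 1) (gNum D R N g / (B + 3 * D + N * D))
      (cNum D B R N c (gNum D R N g / (B + 3 * D + N * D)) / (N * D + 2 * B + 5 * D))
      (s + c * (D * D) / ((B + (N + 2) * D) * (B + (N + 3) * D)))

theorem cNum_cast (D B R N c g : ℕ) : ((cNum D B R N c g : ℕ) : ℝ)
    = ((N * D + 2 * R : ℕ) : ℝ) * c + ((2 * B + 4 * D : ℕ) : ℝ) * g := by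
  unfold cNum
  push_cast
  ring

theorem gNum_cast (D R N g : ℕ) : ((gNum D R N g : ℕ) : ℝ) = (g : ℝ) * ((R + N * D : ℕ) : ℝ) := by
  unfold gNum
  push_cast
  ring

section steps

variable {s : ℂ} {D B R : ℕ}

/-- the partial sums -/
noncomputable def PS (s : ℂ) (b : ℝ) (N : ℕ) : ℝ :=
  ∑ i ∈ Finset.range N, CN s b 0 0 i / ((b + i + 2) * (b + i + 3))

theorem gm_step (hD : 0 < D) (hr : 2 * s.re + 2 = (R : ℝ) / D) (N : ℕ) :
    Gm s ((B : ℝ) / D) (N + 1)
      = Gm s ((B : ℝ) / D) N * (((R + N * D : ℕ) : ℝ) / ((B + 3 * D + N * D : ℕ) : ℝ)) := by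
  have hD' : (0 : ℝ) < D := by exact_mod_cast hD
  rw [Gm_succ, hr]
  congr 1
  push_cast
  have h1 : (0 : ℝ) < (B : ℝ) + 3 * D + N * D := by positivity
  field_simp

theorem cn_step (hD : 0 < D) (hB : 0 < B) (hr : 2 * s.re + 2 = (R : ℝ) / D) (N : ℕ) :
    CN s ((B : ℝ) / D) 0 0 (N + 1)
      = (((N * D + 2 * R : ℕ) : ℝ) * CN s ((B : ℝ) / D) 0 0 N
          + ((2 * B + 4 * D : ℕ) : ℝ) * Gm s ((B : ℝ) / D) (N + 1))
        / ((N * D + 2 * B + 5 * D : ℕ) : ℝ) := by
  have hD' : (0 : ℝ) < D := by exact_mod_cast hD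
  have hB' : (0 : ℝ) < B := by exact_mod_cast hB
  have hb : (0 : ℝ) < (B : ℝ) / D := div_pos hB' hD'
  have h := CN_rec (s := s) hb N
  have e : (N : ℝ) + 4 * s.re + 4 = N + 2 * ((R : ℝ) / D) := by rw [← hr]; ring
  rw [e] at h
  push_cast
  have h1 : (0 : ℝ) < (N : ℝ) * D + 2 * B + 5 * D := by positivity
  rw [eq_div_iff h1.ne']
  have h2 : ((N : ℝ) + 2 * ((B : ℝ) / D) + 5) * D = N * D + 2 * B + 5 * D := by
    field_simp
  have h3 : ((N : ℝ) + 2 * ((R : ℝ) / D)) * D = N * D + 2 * R := by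
    field_simp
  have h4 : (2 * ((B : ℝ) / D + 2)) * D = 2 * B + 4 * D := by
    field_simp
    ring
  rw [← h2, ← h3, ← h4]
  linear_combination (D : ℝ) * h

theorem ps_step (hD : 0 < D) (N : ℕ) :
    PS s ((B : ℝ) / D) (N + 1) = PS s ((B : ℝ) / D) N + CN s ((B : ℝ) / D) 0 0 N
      * (((D * D : ℕ) : ℝ) / (((B + (N + 2) * D) * (B + (N + 3) * D) : ℕ) : ℝ)) := by
  have hD' : (0 : ℝ) < D := by exact_mod_cast hD
  unfold PS
  rw [Finset.sum_range_succ]
  congr 1
  push_cast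
  have h1 : (0 : ℝ) < (B : ℝ) + (N + 2) * D := by positivity
  have h2 : (0 : ℝ) < (B : ℝ) + (N + 3) * D := by positivity
  have h3 : (B : ℝ) / D + N + 2 = ((B : ℝ) + (N + 2) * D) / D := by
    field_simp
    ring
  have h4 : (B : ℝ) / D + N + 3 = ((B : ℝ) + (N + 3) * D) / D := by
    field_simp
    ring
  rw [h3, h4]
  field_simp

theorem goU_spec (hD : 0 < D) (hB : 0 < B) (hs : -1 < s.re) (hr : 2 * s.re + 2 = (R : ℝ) / D)
    {S : ℝ} (hS : 0 ≤ S) : ∀ (k N g c t : ℕ), S * Gm s ((B : ℝ) / D) N ≤ g →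
      S * CN s ((B : ℝ) / D) 0 0 N ≤ c → S * PS s ((B : ℝ) / D) N ≤ t →
      S * Gm s ((B : ℝ) / D) (N + k) ≤ (goU D B R k N g c t).1 ∧
      S * CN s ((B : ℝ) / D) 0 0 (N + k) ≤ (goU D B R k N g c t).2.1 ∧
      S * PS s ((B : ℝ) / D) (N + k) ≤ (goU D B R k N g c t).2.2
  | 0, N, g, c, t, h1, h2, h3 => ⟨h1, h2, h3⟩
  | k + 1, N, g, c, t, h1, h2, h3 => by
    have e : N + (k + 1) = N + 1 + k := by ring
    rw [e, goU]
    have p1 : 0 < B + 3 * D + N * D := by omega
    have p2 : 0 < N * D + 2 * B + 5 * D := by omega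
    have p3 : 0 < (B + (N + 2) * D) * (B + (N + 3) * D) := by positivity
    have q1 : (0 : ℝ) < ((B + 3 * D + N * D : ℕ) : ℝ) := by exact_mod_cast p1
    have q2 : (0 : ℝ) < ((N * D + 2 * B + 5 * D : ℕ) : ℝ) := by exact_mod_cast p2
    have q3 : (0 : ℝ) < (((B + (N + 2) * D) * (B + (N + 3) * D) : ℕ) : ℝ) := by exact_mod_cast p3
    have hg : S * Gm s ((B : ℝ) / D) (N + 1)
        ≤ ((gNum D R N g / (B + 3 * D + N * D) + 1 : ℕ) : ℝ) := by
      refine le_trans ?_ (div_up _ p1)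
      rw [gm_step hD hr, ← mul_assoc, gNum_cast, mul_div_assoc]
      exact mul_le_mul_of_nonneg_right h1 (by positivity)
    have hc : S * CN s ((B : ℝ) / D) 0 0 (N + 1)
        ≤ ((cNum D B R N c (gNum D R N g / (B + 3 * D + N * D) + 1)
            / (N * D + 2 * B + 5 * D) + 1 : ℕ) : ℝ) := by
      refine le_trans ?_ (div_up _ p2)
      rw [cn_step hD hB hr, ← mul_div_assoc]
      refine div_le_div_of_nonneg_right ?_ q2.le
      rw [cNum_cast]
      have i1 : ((N * D + 2 * R : ℕ) : ℝ) * (S * CN s ((B : ℝ) / D) 0 0 N)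
          ≤ ((N * D + 2 * R : ℕ) : ℝ) * c := mul_le_mul_of_nonneg_left h2 (Nat.cast_nonneg _)
      have i2 := mul_le_mul_of_nonneg_left hg (Nat.cast_nonneg (α := ℝ) (2 * B + 4 * D))
      linarith only [i1, i2]
    have hp : S * PS s ((B : ℝ) / D) (N + 1)
        ≤ ((t + (c * (D * D) / ((B + (N + 2) * D) * (B + (N + 3) * D)) + 1) : ℕ) : ℝ) := by
      have hd := div_up (c * (D * D)) p3
      rw [ps_step hD, Nat.cast_add t, mul_add S]
      refine add_le_add h3 (le_trans ?_ hd)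
      rw [Nat.cast_mul c, mul_div_assoc, ← mul_assoc]
      exact mul_le_mul_of_nonneg_right h2 (div_nonneg (Nat.cast_nonneg _) q3.le)
    exact goU_spec hD hB hs hr hS k (N + 1) _ _ _ hg hc hp

theorem goL_spec (hD : 0 < D) (hB : 0 < B) (hs : -1 < s.re) (hr : 2 * s.re + 2 = (R : ℝ) / D)
    {S : ℝ} (hS : 0 ≤ S) : ∀ (k N g c t : ℕ), (g : ℝ) ≤ S * Gm s ((B : ℝ) / D) N →
      (c : ℝ) ≤ S * CN s ((B : ℝ) / D) 0 0 N → (t : ℝ) ≤ S * PS s ((B : ℝ) / D) N →
      ((goL D B R k N g c t).1 : ℝ) ≤ S * Gm s ((B : ℝ) / D) (N + k) ∧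
      ((goL D B R k N g c t).2.1 : ℝ) ≤ S * CN s ((B : ℝ) / D) 0 0 (N + k) ∧
      ((goL D B R k N g c t).2.2 : ℝ) ≤ S * PS s ((B : ℝ) / D) (N + k)
  | 0, N, g, c, t, h1, h2, h3 => ⟨h1, h2, h3⟩
  | k + 1, N, g, c, t, h1, h2, h3 => by
    have e : N + (k + 1) = N + 1 + k := by ring
    rw [e, goL]
    have p1 : 0 < B + 3 * D + N * D := by omega
    have p2 : 0 < N * D + 2 * B + 5 * D := by omega
    have p3 : 0 < (B + (N + 2) * D) * (B + (N + 3) * D) := by positivity
    have q1 : (0 : ℝ) < ((B + 3 * D + N * D : ℕ) : ℝ) := by exact_mod_cast p1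
    have q2 : (0 : ℝ) < ((N * D + 2 * B + 5 * D : ℕ) : ℝ) := by exact_mod_cast p2
    have q3 : (0 : ℝ) < (((B + (N + 2) * D) * (B + (N + 3) * D) : ℕ) : ℝ) := by exact_mod_cast p3
    have hg : ((gNum D R N g / (B + 3 * D + N * D) : ℕ) : ℝ)
        ≤ S * Gm s ((B : ℝ) / D) (N + 1) := by
      refine le_trans (div_dn _ _) ?_
      rw [gm_step hD hr, ← mul_assoc, gNum_cast, mul_div_assoc]
      exact mul_le_mul_of_nonneg_right h1 (by positivity)
    have hc : ((cNum D B R N c (gNum D R N g / (B + 3 * D + N * D))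
            / (N * D + 2 * B + 5 * D) : ℕ) : ℝ)
        ≤ S * CN s ((B : ℝ) / D) 0 0 (N + 1) := by
      refine le_trans (div_dn _ _) ?_
      rw [cn_step hD hB hr, ← mul_div_assoc]
      refine div_le_div_of_nonneg_right ?_ q2.le
      rw [cNum_cast]
      have i1 : ((N * D + 2 * R : ℕ) : ℝ) * c
          ≤ ((N * D + 2 * R : ℕ) : ℝ) * (S * CN s ((B : ℝ) / D) 0 0 N) :=
        mul_le_mul_of_nonneg_left h2 (Nat.cast_nonneg _)
      have i2 := mul_le_mul_of_nonneg_left hg (Nat.cast_nonneg (α := ℝ) (2 * B + 4 * D))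
      linarith only [i1, i2]
    have hp : ((t + c * (D * D) / ((B + (N + 2) * D) * (B + (N + 3) * D)) : ℕ) : ℝ)
        ≤ S * PS s ((B : ℝ) / D) (N + 1) := by
      have hd := div_dn (c * (D * D)) ((B + (N + 2) * D) * (B + (N + 3) * D))
      rw [ps_step hD, Nat.cast_add t, mul_add S]
      refine add_le_add h3 (le_trans hd ?_)
      rw [Nat.cast_mul c, mul_div_assoc, ← mul_assoc]
      exact mul_le_mul_of_nonneg_right h2 (div_nonneg (Nat.cast_nonneg _) q3.le)
    exact goL_spec hD hB hs hr hS k (N + 1) _ _ _ hg hc hp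

end steps

/-- the bracket `(f1 (u + 1) + f2) (u + 2) - (f1 (u + 2) + f2) (N + w)`, `u = N + a` -/
def brk (f1 f2 a w j : ℚ) : List ℚ :=
  padd (plin (j + a + 2) [f1 * (j + a + 1) + f2, f1])
    (psm (-1) (plin (j + w) [f1 * (j + a + 2) + f2, f1]))

def lhs1 (b j : ℚ) : List ℚ := plin (j + 2 * b + 5) (plin (j + 2 * b + 6) [j + 2 * b + 7, 1])

def rhs1 (f1 f2 b rho j : ℚ) : List ℚ :=
  plin (j + b + 2) (plin (j + b + 3) (brk f1 f2 (2 * b + 5) (2 * rho) j))

def lhs2 (f1 f2 b rho j : ℚ) : List ℚ :=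
  psm (2 * (b + 2)) (plin (j + rho) (plin (j + b + 4) (plin (j + b + 5)
    [f1 * (j + 2 * b + 7) + f2, f1])))

def rhs2 (g1 g2 b rho j : ℚ) : List ℚ :=
  plin (j + 2 * b + 5) (plin (j + 2 * b + 6) (plin (j + 2 * b + 7)
    (brk g1 g2 (b + 3) rho j)))

theorem pev_brk (f1 f2 a w j : ℚ) (x : ℝ) : pev (brk f1 f2 a w j) x
    = (f1 * ((x + j) + a + 1) + f2) * ((x + j) + a + 2)
      - (f1 * ((x + j) + a + 2) + f2) * ((x + j) + w) := by
  simp only [brk, pev_diff, pev_lin, pev]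
  push_cast
  ring

theorem pev_lhs1 (b j : ℚ) (x : ℝ) : pev (lhs1 b j) x
    = ((x + j) + 2 * b + 5) * ((x + j) + 2 * b + 6) * ((x + j) + 2 * b + 7) := by
  simp only [lhs1, pev_lin, pev]
  push_cast
  ring

theorem pev_rhs1 (f1 f2 b rho j : ℚ) (x : ℝ) : pev (rhs1 f1 f2 b rho j) x
    = ((x + j) + b + 2) * ((x + j) + b + 3)
      * ((f1 * ((x + j) + 2 * b + 6) + f2) * ((x + j) + 2 * b + 7)
        - (f1 * ((x + j) + 2 * b + 7) + f2) * ((x + j) + 2 * rho)) := by
  simp only [rhs1, pev_lin, pev_brk]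
  push_cast
  ring

theorem pev_mlhs2 (f1 f2 b rho j : ℚ) (x : ℝ) : pev (lhs2 f1 f2 b rho j) x
    = 2 * (b + 2) * ((x + j) + rho) * (f1 * ((x + j) + 2 * b + 7) + f2)
      * ((x + j) + b + 4) * ((x + j) + b + 5) := by
  simp only [lhs2, pev_sm, pev_lin, pev]
  push_cast
  ring

theorem pev_mrhs2 (g1 g2 b rho j : ℚ) (x : ℝ) : pev (rhs2 g1 g2 b rho j) x
    = ((x + j) + 2 * b + 5) * ((x + j) + 2 * b + 6) * ((x + j) + 2 * b + 7)
      * ((g1 * ((x + j) + b + 4) + g2) * ((x + j) + b + 5)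
        - (g1 * ((x + j) + b + 5) + g2) * ((x + j) + rho)) := by
  simp only [rhs2, pev_lin, pev_brk]
  push_cast
  ring

/-- values of the test functions at `J` -/
def phQ (f1 f2 b J : ℚ) : ℚ :=
  f1 / (J + 2 * b + 5) + f2 / ((J + 2 * b + 5) * (J + 2 * b + 6))

def chQ (g1 g2 b J : ℚ) : ℚ :=
  g1 / (J + b + 3) + g2 / ((J + b + 3) * (J + b + 4))

/-- all coefficients are nonnegative -/
def nn (l : List ℚ) : Bool := l.all (fun a => decide (0 ≤ a))

/-- the final value -/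
def fin3 (x : ℕ × ℕ × ℕ) (p c : ℚ) : ℚ := x.2.2 + x.2.1 * p + x.1 * c

/-- the check: `S` the scale, `J` the cut, `f1 .. g2` the parameters of the upper bound,
`f1' .. g2'` those of the lower bound -/
def mmC (D B R S J : ℕ) (f1 f2 g1 g2 f1' f2' g1' g2' Mlo Mhi : ℚ) : Bool :=
  decide (0 < D) && decide (0 < B) && decide (0 < S)
    && nn (padd (rhs1 f1 f2 ((B : ℚ) / D) ((R : ℚ) / D) J) (psm (-1) (lhs1 ((B : ℚ) / D) J)))
    && nn (padd (rhs2 g1 g2 ((B : ℚ) / D) ((R : ℚ) / D) J)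
        (psm (-1) (lhs2 f1 f2 ((B : ℚ) / D) ((R : ℚ) / D) J)))
    && decide (0 ≤ phQ f1 f2 ((B : ℚ) / D) J) && decide (0 ≤ chQ g1 g2 ((B : ℚ) / D) J)
    && decide (fin3 (goU D B R J 0 S S 0) (phQ f1 f2 ((B : ℚ) / D) J)
        (chQ g1 g2 ((B : ℚ) / D) J) ≤ S * Mhi)
    && nn (padd (lhs1 ((B : ℚ) / D) J)
        (psm (-1) (rhs1 f1' f2' ((B : ℚ) / D) ((R : ℚ) / D) J)))
    && nn (padd (lhs2 f1' f2' ((B : ℚ) / D) ((R : ℚ) / D) J)
        (psm (-1) (rhs2 g1' g2' ((B : ℚ) / D) ((R : ℚ) / D) J)))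
    && decide (0 ≤ phQ f1' f2' ((B : ℚ) / D) J) && decide (0 ≤ chQ g1' g2' ((B : ℚ) / D) J)
    && decide (S * Mlo ≤ fin3 (goL D B R J 0 S S 0) (phQ f1' f2' ((B : ℚ) / D) J)
        (chQ g1' g2' ((B : ℚ) / D) J))

theorem ph_cast (f1 f2 b : ℚ) (J : ℕ) : ((phQ f1 f2 b J : ℚ) : ℝ) = ph f1 f2 b J := by
  unfold phQ ph
  push_cast
  rfl

theorem ch_cast (g1 g2 b : ℚ) (J : ℕ) : ((chQ g1 g2 b J : ℚ) : ℝ) = ch g1 g2 b J := by
  unfold chQ ch
  push_cast
  rfl

/-- rational form of the first difference -/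
theorem ph_diff {f1 f2 b w : ℝ} (hb : 0 < b) (N : ℕ) :
    ph f1 f2 b N - ph f1 f2 b (N + 1) * ((N + w) / (N + 2 * b + 5))
      = ((f1 * (N + 2 * b + 6) + f2) * (N + 2 * b + 7) - (f1 * (N + 2 * b + 7) + f2) * (N + w))
        / ((N + 2 * b + 5) * (N + 2 * b + 6) * (N + 2 * b + 7)) := by
  have hN : (0 : ℝ) ≤ N := Nat.cast_nonneg N
  have h1 : (0 : ℝ) < (N : ℝ) + 2 * b + 5 := by linarith
  have h2 : (0 : ℝ) < (N : ℝ) + 2 * b + 6 := by linarith only [h1]
  have h3 : (0 : ℝ) < (N : ℝ) + 2 * b + 7 := by linarith only [h2]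
  unfold ph
  have e1 : (((N + 1 : ℕ) : ℝ)) + 2 * b + 5 = N + 2 * b + 6 := by push_cast; ring
  have e2 : (((N + 1 : ℕ) : ℝ)) + 2 * b + 6 = N + 2 * b + 7 := by push_cast; ring
  rw [e1, e2]
  field_simp

theorem ch_diff {g1 g2 b w : ℝ} (hb : 0 < b) (N : ℕ) :
    ch g1 g2 b N - ch g1 g2 b (N + 1) * ((w + N) / (b + 3 + N))
      = ((g1 * (N + b + 4) + g2) * (N + b + 5) - (g1 * (N + b + 5) + g2) * (N + w))
        / ((N + b + 3) * (N + b + 4) * (N + b + 5)) := by
  have hN : (0 : ℝ) ≤ N := Nat.cast_nonneg N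
  have h1 : (0 : ℝ) < (N : ℝ) + b + 3 := by linarith
  have h2 : (0 : ℝ) < (N : ℝ) + b + 4 := by linarith only [h1]
  have h3 : (0 : ℝ) < (N : ℝ) + b + 5 := by linarith only [h2]
  unfold ch
  have e1 : (((N + 1 : ℕ) : ℝ)) + b + 3 = N + b + 4 := by push_cast; ring
  have e2 : (((N + 1 : ℕ) : ℝ)) + b + 4 = N + b + 5 := by push_cast; ring
  have e3 : b + 3 + (N : ℝ) = N + b + 3 := by ring
  rw [e1, e2, e3]
  field_simp
  ring

theorem ph_next {f1 f2 b : ℝ} (hb : 0 < b) (N : ℕ) :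
    ph f1 f2 b (N + 1) = (f1 * (N + 2 * b + 7) + f2) / ((N + 2 * b + 6) * (N + 2 * b + 7)) := by
  have hN : (0 : ℝ) ≤ N := Nat.cast_nonneg N
  have h2 : (0 : ℝ) < (N : ℝ) + 2 * b + 6 := by linarith
  have h3 : (0 : ℝ) < (N : ℝ) + 2 * b + 7 := by linarith only [h2]
  unfold ph
  have e1 : (((N + 1 : ℕ) : ℝ)) + 2 * b + 5 = N + 2 * b + 6 := by push_cast; ring
  have e2 : (((N + 1 : ℕ) : ℝ)) + 2 * b + 6 = N + 2 * b + 7 := by push_cast; ring
  rw [e1, e2]
  field_simp

/-- abstract form of the two comparisons -/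
theorem aux_one {K A5 A6 A7 B2 B3 : ℝ} (h5 : 0 < A5) (h6 : 0 < A6) (h7 : 0 < A7) (h2 : 0 < B2)
    (h3 : 0 < B3) (hp : 0 ≤ A5 * A6 * A7 - B2 * B3 * K) :
    K / (A5 * A6 * A7) ≤ 1 / (B2 * B3) := by
  rw [div_le_div_iff₀ (by positivity) (by positivity)]
  linarith only [hp]

theorem aux_one' {K A5 A6 A7 B2 B3 : ℝ} (h5 : 0 < A5) (h6 : 0 < A6) (h7 : 0 < A7) (h2 : 0 < B2)
    (h3 : 0 < B3) (hp : 0 ≤ B2 * B3 * K - A5 * A6 * A7) :
    1 / (B2 * B3) ≤ K / (A5 * A6 * A7) := by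
  rw [div_le_div_iff₀ (by positivity) (by positivity)]
  linarith only [hp]

theorem aux_two {K A5 A6 A7 B3 B4 B5 F W : ℝ} (h5 : 0 < A5) (h6 : 0 < A6) (h7 : 0 < A7)
    (h3 : 0 < B3) (h4 : 0 < B4) (h8 : 0 < B5) (hp : 0 ≤ W * F * B4 * B5 - A5 * A6 * A7 * K) :
    K / (B3 * B4 * B5) ≤ F * W / (A6 * A7 * (A5 * B3)) := by
  rw [div_le_div_iff₀ (by positivity) (by positivity)]
  have h := mul_nonneg hp h3.le
  linarith only [h]

theorem aux_two' {K A5 A6 A7 B3 B4 B5 F W : ℝ} (h5 : 0 < A5) (h6 : 0 < A6) (h7 : 0 < A7)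
    (h3 : 0 < B3) (h4 : 0 < B4) (h8 : 0 < B5) (hp : 0 ≤ A5 * A6 * A7 * K - W * F * B4 * B5) :
    F * W / (A6 * A7 * (A5 * B3)) ≤ K / (B3 * B4 * B5) := by
  rw [div_le_div_iff₀ (by positivity) (by positivity)]
  have h := mul_nonneg hp h3.le
  linarith only [h]

/-- the enclosure -/
theorem mmC_sound {s : ℂ} {b : ℝ} {D B R S J : ℕ} {f1 f2 g1 g2 f1' f2' g1' g2' Mlo Mhi : ℚ}
    (hs : -1 < s.re) (hbB : b = (B : ℝ) / D) (hr : 2 * s.re + 2 = (R : ℝ) / D)
    (hσ : 0 < b + 1 - 2 * s.re)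
    (h : mmC D B R S J f1 f2 g1 g2 f1' f2' g1' g2' Mlo Mhi = true) :
    (Mlo : ℝ) ≤ MM s b 0 0 ∧ MM s b 0 0 ≤ Mhi := by
  simp only [mmC, Bool.and_eq_true, decide_eq_true_eq] at h
  obtain ⟨⟨⟨⟨⟨⟨⟨⟨⟨⟨⟨⟨h1, h2⟩, h3⟩, h4⟩, h5⟩, h6⟩, h7⟩, h8⟩, h9⟩, h10⟩, h11⟩, h12⟩, h13⟩ := h
  have hD : (0 : ℝ) < D := by exact_mod_cast h1
  have hB : (0 : ℝ) < B := by exact_mod_cast h2
  have hb : 0 < b := by rw [hbB]; exact div_pos hB hD
  have hbq : (((B : ℚ) / D : ℚ) : ℝ) = b := by rw [hbB]; push_cast; rfl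
  have hrq : (((R : ℚ) / D : ℚ) : ℝ) = 2 * s.re + 2 := by rw [hr]; push_cast; rfl
  have key : ∀ N : ℕ, J ≤ N → ∃ x : ℝ, 0 ≤ x ∧ (x + ((J : ℚ) : ℝ)) = N := by
    intro k hk
    refine ⟨(k : ℝ) - J, ?_, ?_⟩
    · have : (J : ℝ) ≤ k := by exact_mod_cast hk
      linarith only [this]
    · push_cast
      ring
  have w4 : ∀ N : ℕ, (N : ℝ) + 4 * s.re + 4 = N + 2 * (2 * s.re + 2) := fun N => by ring
  have hS : (0 : ℝ) < S := by exact_mod_cast h3
  have hPS0 : (S : ℝ) * PS s ((B : ℝ) / D) 0 = ((0 : ℕ) : ℝ) := by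
    unfold PS
    rw [Finset.sum_range_zero, mul_zero, Nat.cast_zero]
  have hCN0 : (S : ℝ) * CN s ((B : ℝ) / D) 0 0 0 = S := by
    rw [CN_zero, Gm_zero]
    simp
  constructor
  · -- lower bound
    have a1 : ∀ N : ℕ, J ≤ N →
        ph f1' f2' b N - ph f1' f2' b (N + 1) * ((N + 4 * s.re + 4) / (N + 2 * b + 5))
          ≤ 1 / ((b + N + 2) * (b + N + 3)) := by
      intro N hN
      obtain ⟨x, hx, hxN⟩ := key N hN
      have hp := pev_nonneg hx h9
      rw [pev_diff, pev_lhs1, pev_rhs1, hxN, hbq, hrq] at hp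
      have hN0 : (0 : ℝ) ≤ N := Nat.cast_nonneg N
      rw [w4, ph_diff hb]
      have p1 : (0 : ℝ) < (N : ℝ) + 2 * b + 5 := by linarith only [hb]
      have p2 : (0 : ℝ) < (N : ℝ) + 2 * b + 6 := by linarith only [p1]
      have p3 : (0 : ℝ) < (N : ℝ) + 2 * b + 7 := by linarith only [p2]
      have p4 : (0 : ℝ) < (N : ℝ) + b + 2 := by linarith only [hb, hN0]
      have p5 : (0 : ℝ) < (N : ℝ) + b + 3 := by linarith only [p4]
      have bN2 : b + (N : ℝ) + 2 = N + b + 2 := by ring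
      have bN3 : b + (N : ℝ) + 3 = N + b + 3 := by ring
      rw [bN2, bN3]
      exact aux_one p1 p2 p3 p4 p5 hp
    have a2 : ∀ N : ℕ, J ≤ N →
        ch g1' g2' b N - ch g1' g2' b (N + 1) * ((2 * s.re + 2 + N) / (b + 3 + N))
          ≤ ph f1' f2' b (N + 1) * (2 * (b + 2) * (2 * s.re + 2 + N)
            / ((N + 2 * b + 5) * (b + 3 + N))) := by
      intro N hN
      obtain ⟨x, hx, hxN⟩ := key N hN
      have hp := pev_nonneg hx h10
      rw [pev_diff, pev_mlhs2, pev_mrhs2, hxN, hbq, hrq] at hp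
      have hN0 : (0 : ℝ) ≤ N := Nat.cast_nonneg N
      rw [ch_diff hb, ph_next hb, div_mul_div_comm]
      have p1 : (0 : ℝ) < (N : ℝ) + 2 * b + 5 := by linarith only [hb]
      have p2 : (0 : ℝ) < (N : ℝ) + 2 * b + 6 := by linarith only [p1]
      have p3 : (0 : ℝ) < (N : ℝ) + 2 * b + 7 := by linarith only [p2]
      have p4 : (0 : ℝ) < (N : ℝ) + b + 3 := by linarith only [p2]
      have p5 : (0 : ℝ) < (N : ℝ) + b + 4 := by linarith only [p4]
      have p6 : (0 : ℝ) < (N : ℝ) + b + 5 := by linarith only [p5]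
      have e3 : b + 3 + (N : ℝ) = N + b + 3 := by ring
      have e4 : 2 * s.re + 2 + (N : ℝ) = N + (2 * s.re + 2) := by ring
      rw [e3, e4]
      exact aux_two p1 p2 p3 p4 p5 p6 hp
    have hl := MM_lower hs hb hσ J a1 a2
    obtain ⟨b1, b2, b3⟩ := goL_spec h1 h2 hs hr hS.le J 0 S S 0
      (by rw [Gm_zero, mul_one]) hCN0.ge hPS0.ge
    rw [zero_add] at b1 b2 b3
    rw [← hbB] at b1 b2 b3
    have c1 : (0 : ℝ) ≤ ph f1' f2' b J := by
      rw [← hbq, ← ph_cast]; exact_mod_cast h11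
    have c2 : (0 : ℝ) ≤ ch g1' g2' b J := by
      rw [← hbq, ← ch_cast]; exact_mod_cast h12
    have d1 : ((S * Mlo : ℚ) : ℝ) ≤ ((fin3 (goL D B R J 0 S S 0) (phQ f1' f2' ((B : ℚ) / D) J)
        (chQ g1' g2' ((B : ℚ) / D) J) : ℚ) : ℝ) := by exact_mod_cast h13
    unfold fin3 at d1
    push_cast [ph_cast, ch_cast] at d1
    rw [← hbB] at d1
    have e1 := mul_le_mul_of_nonneg_right b2 c1
    have e2 := mul_le_mul_of_nonneg_right b1 c2
    have e3 : (S : ℝ) * Mlo ≤ S * MM s b 0 0 := by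
      have := mul_le_mul_of_nonneg_left hl hS.le
      unfold PS at b3
      linarith only [b3, d1, e1, e2, this]
    exact le_of_mul_le_mul_left e3 hS
  · -- upper bound
    have a1 : ∀ N : ℕ, J ≤ N → 1 / ((b + N + 2) * (b + N + 3))
        ≤ ph f1 f2 b N - ph f1 f2 b (N + 1) * ((N + 4 * s.re + 4) / (N + 2 * b + 5)) := by
      intro N hN
      obtain ⟨x, hx, hxN⟩ := key N hN
      have hp := pev_nonneg hx h4
      rw [pev_diff, pev_lhs1, pev_rhs1, hxN, hbq, hrq] at hp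
      have hN0 : (0 : ℝ) ≤ N := Nat.cast_nonneg N
      rw [w4, ph_diff hb]
      have p1 : (0 : ℝ) < (N : ℝ) + 2 * b + 5 := by linarith only [hb]
      have p2 : (0 : ℝ) < (N : ℝ) + 2 * b + 6 := by linarith only [p1]
      have p3 : (0 : ℝ) < (N : ℝ) + 2 * b + 7 := by linarith only [p2]
      have p4 : (0 : ℝ) < (N : ℝ) + b + 2 := by linarith only [hb, hN0]
      have p5 : (0 : ℝ) < (N : ℝ) + b + 3 := by linarith only [p4]
      have bN2 : b + (N : ℝ) + 2 = N + b + 2 := by ring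
      have bN3 : b + (N : ℝ) + 3 = N + b + 3 := by ring
      rw [bN2, bN3]
      exact aux_one' p1 p2 p3 p4 p5 hp
    have a2 : ∀ N : ℕ, J ≤ N →
        ph f1 f2 b (N + 1) * (2 * (b + 2) * (2 * s.re + 2 + N)
            / ((N + 2 * b + 5) * (b + 3 + N)))
          ≤ ch g1 g2 b N - ch g1 g2 b (N + 1) * ((2 * s.re + 2 + N) / (b + 3 + N)) := by
      intro N hN
      obtain ⟨x, hx, hxN⟩ := key N hN
      have hp := pev_nonneg hx h5
      rw [pev_diff, pev_mlhs2, pev_mrhs2, hxN, hbq, hrq] at hp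
      have hN0 : (0 : ℝ) ≤ N := Nat.cast_nonneg N
      rw [ch_diff hb, ph_next hb, div_mul_div_comm]
      have p1 : (0 : ℝ) < (N : ℝ) + 2 * b + 5 := by linarith only [hb]
      have p2 : (0 : ℝ) < (N : ℝ) + 2 * b + 6 := by linarith only [p1]
      have p3 : (0 : ℝ) < (N : ℝ) + 2 * b + 7 := by linarith only [p2]
      have p4 : (0 : ℝ) < (N : ℝ) + b + 3 := by linarith only [p2]
      have p5 : (0 : ℝ) < (N : ℝ) + b + 4 := by linarith only [p4]
      have p6 : (0 : ℝ) < (N : ℝ) + b + 5 := by linarith only [p5]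
      have e3 : b + 3 + (N : ℝ) = N + b + 3 := by ring
      have e4 : 2 * s.re + 2 + (N : ℝ) = N + (2 * s.re + 2) := by ring
      rw [e3, e4]
      exact aux_two' p1 p2 p3 p4 p5 p6 hp
    have hl := MM_upper hs hb hσ J a1 a2
    obtain ⟨b1, b2, b3⟩ := goU_spec h1 h2 hs hr hS.le J 0 S S 0
      (by rw [Gm_zero, mul_one]) hCN0.le hPS0.le
    rw [zero_add] at b1 b2 b3
    rw [← hbB] at b1 b2 b3
    have c1 : (0 : ℝ) ≤ ph f1 f2 b J := by
      rw [← hbq, ← ph_cast]; exact_mod_cast h6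
    have c2 : (0 : ℝ) ≤ ch g1 g2 b J := by
      rw [← hbq, ← ch_cast]; exact_mod_cast h7
    have d1 : ((fin3 (goU D B R J 0 S S 0) (phQ f1 f2 ((B : ℚ) / D) J)
        (chQ g1 g2 ((B : ℚ) / D) J) : ℚ) : ℝ) ≤ ((S * Mhi : ℚ) : ℝ) := by exact_mod_cast h8
    unfold fin3 at d1
    push_cast [ph_cast, ch_cast] at d1
    rw [← hbB] at d1
    have e1 := mul_le_mul_of_nonneg_right b2 c1
    have e2 := mul_le_mul_of_nonneg_right b1 c2
    have e3 : (S : ℝ) * MM s b 0 0 ≤ S * Mhi := by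
      have := mul_le_mul_of_nonneg_left hl hS.le
      unfold PS at b3
      linarith only [b3, d1, e1, e2, this]
    exact le_of_mul_le_mul_left e3 hS

end Pool.Agent.M16.Helper53.HR2

end

section

set_option autoImplicit false

set_option maxRecDepth 100000

namespace Pool.Agent.M16.Helper98.HR2

open Pool.Agent.M16.Helper54.HR2

open Pool.Agent.M16.Helper12.HR2 (Mo GZ Par)

end Pool.Agent.M16.Helper98.HR2

end

end
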