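import Mathlib
import Pool.Agent.Helper60.BE.T28
import Pool.Agent.Helper60.BE.T30
import Pool.Agent.Helper60.BE.T29

set_option linter.all false

section

namespace Pool.Agent.M16.Helper24.HR2
end Pool.Agent.M16.Helper24.HR2
namespace Pool.Agent.M16.Helper22.Half
end Pool.Agent.M16.Helper22.Half
namespace Pool.Agent.M16.Helper22.Marshall
end Pool.Agent.M16.Helper22.Marshall
namespace Pool.Agent.M16.Helper39.Area
end Pool.Agent.M16.Helper39.Area
namespace Pool.Agent.M16.Helper39.MH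
end Pool.Agent.M16.Helper39.MH
namespace Pool.Agent.M16.Helper37.PFS
end Pool.Agent.M16.Helper37.PFS

section

set_option autoImplicit false

open Filter Topology Finset

open scoped ComplexConjugate

namespace Pool.Agent.M16.Helper37.PFS

open Pool.Agent.M16.Helper24.HR2

open Pool.Agent.M16.Helper22.Half

/-- the remainder tested on the powers, discrete form -/
noncomputable def Rn (s : ℂ) (b : ℝ) (D : ℕ) (p : ℕ → ℕ → ℝ) (m n j : ℕ) : ℂ :=
  ∑ i ∈ Finset.range m, (aD s b m i : ℂ) * conj (XD s m n i) * rD s D p m i j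

/-- the discrete Gram matrix of the remainder -/
noncomputable def Yd (s : ℂ) (b : ℝ) (D : ℕ) (p : ℕ → ℕ → ℝ) (m n k : ℕ) : ℂ :=
  ((1 / ((m : ℝ) ^ 2 * (KS s * pq (b + 3) (m - 1))) : ℝ) : ℂ)
      * ∑' j, (bD s b m j : ℂ) * (Rn s b D p m n j * conj (Rn s b D p m k j))

/-- the discrete form -/
noncomputable def Eg (s : ℂ) (b : ℝ) (D N : ℕ) (p : ℕ → ℕ → ℝ) (κ τ : ℝ) (m : ℕ) (d : ℕ → ℂ)
    (y : ℕ → ℂ) : ℝ :=
  2 * (∑ n ∈ range N, conj (y n) * ph s d m n).re
    - (∑ n ∈ range N, ∑ k ∈ range N, y n * conj (y k) * Gd s b m k n).re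
    - (1 + 1 / κ) * (∑ n ∈ range N, ∑ k ∈ range N, y n * conj (y k) * Yd s b D p m n k).re
    - (∑ l ∈ range (D + 1), ∑ k ∈ range (D + 1),
        (FF s D p (ph s d m) l * conj (FF s D p (ph s d m) k)).re * Ad s b m (l + k))
    - 2 * (∑ l ∈ range (D + 1), ∑ n ∈ range N,
        conj (FF s D p (ph s d m) l) * y n * Xd s b D p m l n).re
    - 1 / τ * (∑ l ∈ range (D + 1), ∑ k ∈ range (D + 1),
        conj (FF s D p (ph s d m) l) * FF s D p (ph s d m) k * Cd s b D p m l k).re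

/-- the term of the test vector -/
theorem term6 {s : ℂ} (hs : ‖s‖ < 1) {b : ℝ} (hb : 0 < b) (hσ : 0 < b + 1 - 2 * s.re)
    (D N : ℕ) (p : ℕ → ℕ → ℝ) {m : ℕ} (hm : 1 ≤ m) (y : ℕ → ℂ)
    (hY : ∀ n k, Summable (fun j => (bD s b m j : ℂ)
      * (Rn s b D p m n j * conj (Rn s b D p m k j)))) (J : ℕ) :
    ∑ j ∈ range J, (bD s b m j / (m : ℝ) ^ 2) * ‖∑ i ∈ range m,
        ((aD s b m i : ℂ) * (((m / (KS s * pq (b + 3) (m - 1)) : ℝ) : ℂ)
          * ∑ n ∈ range N, y n * conj (XD s m n i))) * rD s D p m i j‖ ^ 2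
      ≤ (m : ℝ) ^ 2 / (KS s * pq (b + 3) (m - 1))
        * (∑ n ∈ range N, ∑ k ∈ range N, y n * conj (y k) * Yd s b D p m n k).re := by
  have hKS := KS_facts hs
  have hK0 : 0 < KS s := by linarith [hKS.1]
  have hS0 := pq_pos (z := b + 3) (by linarith) (m - 1)
  have hm0 : (0 : ℝ) < m := by exact_mod_cast hm
  set k0 := KS s * pq (b + 3) (m - 1) with hk0
  have hk0p : 0 < k0 := mul_pos hK0 hS0
  have hmc : (m : ℂ) ≠ 0 := by exact_mod_cast hm0.ne'
  have hkc : (k0 : ℂ) ≠ 0 := by exact_mod_cast hk0p.ne'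
  -- pointwise form
  have e1 : ∀ j, (bD s b m j / (m : ℝ) ^ 2) * ‖∑ i ∈ range m,
        ((aD s b m i : ℂ) * (((m / k0 : ℝ) : ℂ)
          * ∑ n ∈ range N, y n * conj (XD s m n i))) * rD s D p m i j‖ ^ 2
      = (1 / k0 ^ 2) * (bD s b m j * ‖∑ n ∈ range N, y n * Rn s b D p m n j‖ ^ 2) := by
    intro j
    have e2 : ∑ i ∈ range m, ((aD s b m i : ℂ) * (((m / k0 : ℝ) : ℂ)
          * ∑ n ∈ range N, y n * conj (XD s m n i))) * rD s D p m i j
        = ((m / k0 : ℝ) : ℂ) * ∑ n ∈ range N, y n * Rn s b D p m n j := by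
      have e3 : ∀ i ∈ range m, ((aD s b m i : ℂ) * (((m / k0 : ℝ) : ℂ)
          * ∑ n ∈ range N, y n * conj (XD s m n i))) * rD s D p m i j
          = ∑ n ∈ range N, ((m / k0 : ℝ) : ℂ) * (y n
            * ((aD s b m i : ℂ) * conj (XD s m n i) * rD s D p m i j)) := by
        intro i _
        rw [Finset.mul_sum, Finset.mul_sum, Finset.sum_mul]
        apply Finset.sum_congr rfl
        intro n _
        ring
      rw [Finset.sum_congr rfl e3, Finset.sum_comm, Finset.mul_sum]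
      apply Finset.sum_congr rfl
      intro n _
      rw [← Finset.mul_sum, ← Finset.mul_sum]
      rfl
    rw [e2, norm_mul, Complex.norm_real, Real.norm_of_nonneg (by positivity), mul_pow]
    field_simp
  -- the series
  have hs1 : HasSum (fun j => (bD s b m j : ℂ)
      * ∑ n ∈ range N, ∑ k ∈ range N, (y n * Rn s b D p m n j)
        * conj (y k * Rn s b D p m k j))
      (∑ n ∈ range N, ∑ k ∈ range N, y n * conj (y k)
        * ∑' j, (bD s b m j : ℂ) * (Rn s b D p m n j * conj (Rn s b D p m k j))) := by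
    have h : HasSum (fun j => ∑ n ∈ range N, ∑ k ∈ range N, y n * conj (y k)
        * ((bD s b m j : ℂ) * (Rn s b D p m n j * conj (Rn s b D p m k j))))
        (∑ n ∈ range N, ∑ k ∈ range N, y n * conj (y k)
        * ∑' j, (bD s b m j : ℂ) * (Rn s b D p m n j * conj (Rn s b D p m k j))) := by
      apply hasSum_sum
      intro n _
      apply hasSum_sum
      intro k _
      exact (hY n k).hasSum.mul_left _
    have e : (fun j => (bD s b m j : ℂ)
        * ∑ n ∈ range N, ∑ k ∈ range N, (y n * Rn s b D p m n j)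
          * conj (y k * Rn s b D p m k j))
        = (fun j => ∑ n ∈ range N, ∑ k ∈ range N, y n * conj (y k)
        * ((bD s b m j : ℂ) * (Rn s b D p m n j * conj (Rn s b D p m k j)))) := by
      funext j
      rw [Finset.mul_sum]
      apply Finset.sum_congr rfl
      intro n _
      rw [Finset.mul_sum]
      apply Finset.sum_congr rfl
      intro k _
      rw [map_mul]
      ring
    rw [e]
    exact h
  have hs2 : HasSum (fun j => bD s b m j * ‖∑ n ∈ range N, y n * Rn s b D p m n j‖ ^ 2)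
      (∑ n ∈ range N, ∑ k ∈ range N, y n * conj (y k)
        * ∑' j, (bD s b m j : ℂ) * (Rn s b D p m n j * conj (Rn s b D p m k j))).re := by
    have h := Complex.hasSum_re hs1
    have e : (fun j => bD s b m j * ‖∑ n ∈ range N, y n * Rn s b D p m n j‖ ^ 2)
        = fun j => ((bD s b m j : ℂ) * ∑ n ∈ range N, ∑ k ∈ range N, (y n * Rn s b D p m n j)
          * conj (y k * Rn s b D p m k j)).re := by
      funext j
      rw [← nsq_sum' (range N) (fun n => y n * Rn s b D p m n j), ← Complex.ofReal_mul,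
        Complex.ofReal_re]
    rw [e]
    exact h
  have hle : ∑ j ∈ range J, bD s b m j * ‖∑ n ∈ range N, y n * Rn s b D p m n j‖ ^ 2
      ≤ (∑ n ∈ range N, ∑ k ∈ range N, y n * conj (y k)
        * ∑' j, (bD s b m j : ℂ) * (Rn s b D p m n j * conj (Rn s b D p m k j))).re :=
    sum_le_hasSum _ (fun j _ => mul_nonneg (bD_nonneg hσ m j) (sq_nonneg _)) hs2
  rw [Finset.sum_congr rfl (fun j _ => e1 j), ← Finset.mul_sum]
  refine (mul_le_mul_of_nonneg_left hle (by positivity)).trans (le_of_eq ?_)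
  rw [← Complex.re_ofReal_mul, ← Complex.re_ofReal_mul, Finset.mul_sum, Finset.mul_sum]
  congr 1
  apply Finset.sum_congr rfl
  intro n _
  rw [Finset.mul_sum, Finset.mul_sum]
  apply Finset.sum_congr rfl
  intro k _
  unfold Yd
  rw [← hk0]
  push_cast
  field_simp

theorem disc2 {s : ℂ} (hs : ‖s‖ < 1) {b : ℝ} (hb : 0 < b) (hσ : 0 < b + 1 - 2 * s.re) {N D : ℕ}
    (p : ℕ → ℕ → ℝ) {κ τ HS : ℝ} (hκ : 0 < κ) (hτ : 0 < τ) (h1 : (1 + κ) * HS + τ ≤ 1)
    {m : ℕ} (hm : 1 ≤ m)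
    (hHS : ∀ J : ℕ, 1 / (m : ℝ) ^ 2 * ∑ j ∈ Finset.range J, ∑ i ∈ Finset.range m,
      bD s b m j * aD s b m i * ‖rD s D p m i j‖ ^ 2 ≤ HS)
    (hA : ∀ l, Summable (fun j => bD s b m j * YD m j ^ l))
    (hS : ∀ l i, i < m →
      Summable (fun j => (bD s b m j : ℂ) * (YD m j : ℂ) ^ l * rD s D p m i j))
    (hY : ∀ n k, Summable (fun j => (bD s b m j : ℂ)
      * (Rn s b D p m n j * conj (Rn s b D p m k j))))
    {d : ℕ → ℂ} (hd : ∀ l ≤ m, d l = d (m - l)) (y : ℕ → ℂ) (J : ℕ) :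
    (m : ℝ) ^ 2 / (KS s * pq (b + 3) (m - 1)) * Eg s b D N p κ τ m d y
      ≤ Pf s b d m - Nf s b d m J := by
  have hKS := KS_facts hs
  have hK0 : 0 < KS s := by linarith only [hKS]
  have hS0 := pq_pos (z := b + 3) (by linarith only [hb]) (m - 1)
  have hm0 : (0 : ℝ) < m := by exact_mod_cast hm
  have hA' : ∀ l, Tendsto (fun J => ∑ j ∈ range J, (bD s b m j / (m : ℝ) ^ 2) * YD m j ^ l) atTop
      (𝓝 ((∑' j, bD s b m j * YD m j ^ l) / (m : ℝ) ^ 2)) := by
    intro l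
    have h := ((hA l).hasSum.tendsto_sum_nat).div_const ((m : ℝ) ^ 2)
    refine h.congr (fun J => ?_)
    rw [Finset.sum_div]
    apply Finset.sum_congr rfl
    intro j _
    ring
  have hS' : ∀ l, ∀ i ∈ range m, Tendsto (fun J => ∑ j ∈ range J,
      ((bD s b m j / (m : ℝ) ^ 2 : ℝ) : ℂ) * (YD m j : ℂ) ^ l * rD s D p m i j) atTop
      (𝓝 (Sd s b D p m l i / (m : ℂ) ^ 2)) := by
    intro l i hi
    have h := ((hS l i (Finset.mem_range.1 hi)).hasSum.tendsto_sum_nat).div_const ((m : ℂ) ^ 2)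
    refine h.congr (fun J => ?_)
    rw [Finset.sum_div]
    apply Finset.sum_congr rfl
    intro j _
    push_cast
    ring
  have hHS' : ∀ J, ∑ j ∈ range J, ∑ i ∈ range m,
      (bD s b m j / (m : ℝ) ^ 2) * aD s b m i * ‖rD s D p m i j‖ ^ 2 ≤ HS := by
    intro J
    refine le_trans (le_of_eq ?_) (hHS J)
    rw [Finset.mul_sum]
    apply Finset.sum_congr rfl
    intro j _
    rw [Finset.mul_sum]
    apply Finset.sum_congr rfl
    intro i _
    ring
  have hmain := main_fin2 m D (aD s b m) (fun i _ => aD_pos hs hσ m i)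
    (fun j => bD s b m j / (m : ℝ) ^ 2)
    (fun j => div_nonneg (bD_nonneg hσ m j) (by positivity)) (YD m) (rD s D p m)
    (fun l => (∑' j, bD s b m j * YD m j ^ l) / (m : ℝ) ^ 2)
    (fun l i => Sd s b D p m l i / (m : ℂ) ^ 2) hA' hS' hHS' hκ hτ h1 (UD s d m)
    (fun i => ((m / (KS s * pq (b + 3) (m - 1)) : ℝ) : ℂ)
      * ∑ n ∈ range N, y n * conj (XD s m n i)) (FF s D p (Phi s d m))
    (term6 hs hb hσ D N p hm y hY) J
  rw [Nf_eq hs b D p hm hd J, Pf_eq hs hσ d m]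
  refine le_trans ?_ hmain
  have t1 := term1 s N hm d y (KS s * pq (b + 3) (m - 1))
  have t2 := term2 hs hb hσ N hm y
  have t3 := term3 hs hb D p hm d
  have t4 := term4 hs hb D N p hm d y
  have t5 := term5 hs hb D p hm d
  rw [t1, t3, t4, t5]
  unfold Eg
  set c := (m : ℝ) ^ 2 / (KS s * pq (b + 3) (m - 1)) with hc
  set x1 := (∑ n ∈ range N, conj (y n) * ph s d m n).re
  set x2 := (∑ n ∈ range N, ∑ k ∈ range N, y n * conj (y k) * Gd s b m k n).re
  set x3 := (∑ n ∈ range N, ∑ k ∈ range N, y n * conj (y k) * Yd s b D p m n k).re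
  set x4 := ∑ l ∈ range (D + 1), ∑ k ∈ range (D + 1),
        (FF s D p (ph s d m) l * conj (FF s D p (ph s d m) k)).re * Ad s b m (l + k)
  set x5 := (∑ l ∈ range (D + 1), ∑ n ∈ range N,
        conj (FF s D p (ph s d m) l) * y n * Xd s b D p m l n).re
  set x6 := (∑ l ∈ range (D + 1), ∑ k ∈ range (D + 1),
        conj (FF s D p (ph s d m) l) * FF s D p (ph s d m) k * Cd s b D p m l k).re
  have e : c * (2 * x1 - x2 - (1 + 1 / κ) * x3 - x4 - 2 * x5 - 1 / τ * x6)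
      = c * (2 * x1) - c * x2 - (1 + 1 / κ) * (c * x3) - c * x4 - c * (2 * x5)
        - 1 / τ * (c * x6) := by ring
  rw [e]
  linarith only [t2]

end Pool.Agent.M16.Helper37.PFS

end

section

set_option autoImplicit false

open Filter Topology Finset MeasureTheory Set

open scoped ComplexConjugate

namespace Pool.Agent.M16.Helper37.PFS

open Pool.Agent.M16.Helper24.HR2

open Pool.Agent.M16.Helper22.Half

section

variable {K : ℕ}

theorem ap_ph {s : ℂ} (hs : ‖s‖ ≤ 1) {N : ℕ} (hN : N + 1 ≤ 2 * K) {n : ℕ} (hn : n < N) :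
    Ap K 1 (fun m d => ph s d m n) (fun m d => muS s K (vS d m) n) := by
  obtain ⟨C, _, hC⟩ := mom_eq K N hN
  refine ap_of_le (C := C) (fun m hm d hd => ?_)
  have h := hC s hs m hm d hd n hn
  rw [pow_one]
  exact h

theorem bd_Tg (T : ℕ → ℕ → ℂ) (n : ℕ) : Bd K 1 (fun m d => Tg K T (vS d m) n) := by
  unfold Tg
  apply Bd.sum
  intro r hr
  have h := (Bd.const (K := K) (T n r)).mul (bd_vS (Finset.mem_range.1 hr))
  simpa only [zero_add] using h

theorem bd_mu (s : ℂ) (n : ℕ) : Bd K 1 (fun m d => muS s K (vS d m) n) := by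
  unfold muS
  have h1 : Bd K 1 (fun m d => ∑ r ∈ Finset.range K,
      (Nat.choose (n + 1) (2 * r) : ℂ) * (1 / 2) ^ (n + 1 - 2 * r) * vS d m r) := by
    apply Bd.sum
    intro r hr
    have h := (Bd.const (K := K) ((Nat.choose (n + 1) (2 * r) : ℂ)
      * (1 / 2) ^ (n + 1 - 2 * r))).mul (bd_vS (Finset.mem_range.1 hr))
    simpa only [zero_add] using h
  have h2 := (Bd.const (K := K) ((∏ k ∈ Finset.range n, (s + 2 + k))
    / (Nat.factorial (n + 1) : ℂ))).mul h1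
  simpa only [zero_add] using h2

theorem ap_FF {s : ℂ} (D : ℕ) (p : ℕ → ℕ → ℝ) {N : ℕ} (hN1 : 1 ≤ N) (hD : D ≤ N)
    {f f' : ℕ → ℕ → (ℕ → ℂ) → ℂ} (h : ∀ n < N, Ap K 1 (f n) (f' n)) (l : ℕ) :
    Ap K 1 (fun m d => FF s D p (fun n => f n m d) l)
      (fun m d => FF s D p (fun n => f' n m d) l) := by
  cases l with
  | zero => exact (h 0 hN1).cmul (2 / (1 + s))
  | succ l =>
    simp only [FF]
    apply Ap.sum
    intro n hn
    exact (h n (lt_of_lt_of_le (Finset.mem_range.1 hn) hD)).cmul (p n l : ℂ)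

theorem bd_FF {s : ℂ} (D : ℕ) (p : ℕ → ℕ → ℝ)
    {f : ℕ → ℕ → (ℕ → ℂ) → ℂ} (h : ∀ n, Bd K 1 (f n)) (l : ℕ) :
    Bd K 1 (fun m d => FF s D p (fun n => f n m d) l) := by
  cases l with
  | zero =>
    have := (Bd.const (K := K) (2 / (1 + s))).mul (h 0)
    simpa only [zero_add, FF] using this
  | succ l =>
    simp only [FF]
    apply Bd.sum
    intro n _
    have := (Bd.const (K := K) (p n l : ℂ)).mul (h n)
    simpa only [zero_add] using this

theorem ap_Gd {s : ℂ} (hs : ‖s‖ ≤ 7 / 10) {b : ℝ} (hb : 0 < b) (hb1 : b ≤ 1)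
    (hσ : 0 < b + 1 - 2 * s.re) (n k : ℕ) :
    Ap K 0 (fun m (_ : ℕ → ℂ) => Gd s b m n k)
      (fun (_ : ℕ) (_ : ℕ → ℂ) => (Gm s b (n + k) : ℂ)) := by
  obtain ⟨C, _, hC⟩ := gram_eq (max n k + 1)
  refine ap_of_le (C := C) (fun m hm d _ => ?_)
  have h := hC s hs b hb hb1 hσ m hm n (by omega) k (by omega)
  rw [pow_zero, mul_one]
  exact h

end

end Pool.Agent.M16.Helper37.PFS

end

section

set_option autoImplicit false

open Filter Topology Finset MeasureTheory Set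

open scoped ComplexConjugate

namespace Pool.Agent.M16.Helper37.PFS

open Pool.Agent.M16.Helper24.HR2

open Pool.Agent.M16.Helper22.Half

/-- the limit of the discrete form, before the last rewriting -/
noncomputable def Elg (s : ℂ) (b : ℝ) (K N D : ℕ) (p : ℕ → ℕ → ℝ) (κ τ : ℝ)
    (g y : ℕ → ℂ) : ℝ :=
  2 * (∑ n ∈ Finset.range N, conj (y n) * muS s K g n).re
    - (∑ n ∈ Finset.range N, ∑ k ∈ Finset.range N,
        y n * conj (y k) * (Gm s b (k + n) : ℂ)).re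
    - (1 + 1 / κ) * (∑ n ∈ Finset.range N, ∑ k ∈ Finset.range N,
        y n * conj (y k) * ((Es s b * MR s b D p n k : ℝ) : ℂ)).re
    - (∑ l ∈ Finset.range (D + 1), ∑ k ∈ Finset.range (D + 1),
        (FF s D p (muS s K g) l * conj (FF s D p (muS s K g) k)).re
          * (Es s b / ((b + (l + k : ℕ)) * (b + (l + k : ℕ) + 1))))
    - 2 * (∑ l ∈ Finset.range (D + 1), ∑ n ∈ Finset.range N,
        conj (FF s D p (muS s K g) l) * y n * ((Es s b * xln s b D p l n : ℝ) : ℂ)).re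
    - 1 / τ * (∑ l ∈ Finset.range (D + 1), ∑ k ∈ Finset.range (D + 1),
        conj (FF s D p (muS s K g) l) * FF s D p (muS s K g) k
          * ((Es s b ^ 2 / B0 s b
            * ∫ x in Ioo (0 : ℝ) 1, alp s b x * rl b D p l x * rl b D p k x : ℝ) : ℂ)).re

section

variable {K : ℕ}

theorem ap_Eg {s : ℂ} (hs0 : s ≠ 0) (hs : ‖s‖ ≤ 7 / 10) {b : ℝ} (hb : 0 < b) (hb1 : b ≤ 1)
    (hσ : 0 < b + 1 - 2 * s.re) {N D : ℕ} (hN : N + 1 ≤ 2 * K) (hD : D ≤ N)
    (hN1 : 1 ≤ N) (p : ℕ → ℕ → ℝ) (T : ℕ → ℕ → ℂ) (κ τ : ℝ) :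
    Ap K 2 (fun m d => Eg s b D N p κ τ m d (Tg K T (vS d m)))
      (fun m d => Elg s b K N D p κ τ (vS d m) (Tg K T (vS d m))) := by
  have hs1 : ‖s‖ < 1 := by linarith only [hs]
  have aF : ∀ l, Ap K 1 (fun m d => FF s D p (ph s d m) l)
      (fun m d => FF s D p (muS s K (vS d m)) l) := fun l =>
    ap_FF D p hN1 hD (f := fun n m d => ph s d m n) (f' := fun n m d => muS s K (vS d m) n)
      (fun n hn => ap_ph hs1.le hN hn) l
  have bF : ∀ l, Bd K 1 (fun m d => FF s D p (muS s K (vS d m)) l) := fun l =>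
    bd_FF D p (f := fun n m d => muS s K (vS d m) n) (fun n => bd_mu s n) l
  have by' : ∀ n, Bd K 1 (fun m d => Tg K T (vS d m) n) := fun n => bd_Tg T n
  have ay : ∀ n, Ap K 1 (fun m d => Tg K T (vS d m) n) (fun m d => Tg K T (vS d m) n) :=
    fun n => Ap.refl _
  -- the six terms
  have t1 : Ap K 2 (fun m d => 2 * (∑ n ∈ Finset.range N,
      conj (Tg K T (vS d m) n) * ph s d m n).re)
      (fun m d => 2 * (∑ n ∈ Finset.range N,
      conj (Tg K T (vS d m) n) * muS s K (vS d m) n).re) := by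
    apply Ap.cmul
    apply Ap.re
    apply Ap.sum
    intro n hn
    exact (ay n).conj.mul (ap_ph hs1.le hN (Finset.mem_range.1 hn)) (by' n).conj (bd_mu s n)
  have t2 : Ap K 2 (fun m d => (∑ n ∈ Finset.range N,
      ∑ k ∈ Finset.range N, Tg K T (vS d m) n * conj (Tg K T (vS d m) k) * Gd s b m k n).re)
      (fun m d => (∑ n ∈ Finset.range N,
      ∑ k ∈ Finset.range N, Tg K T (vS d m) n * conj (Tg K T (vS d m) k)
        * (Gm s b (k + n) : ℂ)).re) := by
    apply Ap.re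
    apply Ap.sum
    intro n _
    apply Ap.sum
    intro k _
    exact ((ay n).mul (ay k).conj (by' n) (by' k).conj).mul (ap_Gd hs hb hb1 hσ k n)
      ((by' n).mul (by' k).conj) (Bd.const _)
  have t6 : Ap K 2 (fun m d => (1 + 1 / κ) * (∑ n ∈ Finset.range N,
      ∑ k ∈ Finset.range N, Tg K T (vS d m) n * conj (Tg K T (vS d m) k)
        * Yd s b D p m n k).re)
      (fun m d => (1 + 1 / κ) * (∑ n ∈ Finset.range N,
      ∑ k ∈ Finset.range N, Tg K T (vS d m) n * conj (Tg K T (vS d m) k)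
        * ((Es s b * MR s b D p n k : ℝ) : ℂ)).re) := by
    apply Ap.cmul
    apply Ap.re
    apply Ap.sum
    intro n _
    apply Ap.sum
    intro k _
    have hY := ap_of_tendsto (K := K) (lim_y hs0 hs1 hb hσ D p n k).2
    exact ((ay n).mul (ay k).conj (by' n) (by' k).conj).mul hY
      ((by' n).mul (by' k).conj) (Bd.const _)
  have t3 : Ap K 2 (fun m d => ∑ l ∈ Finset.range (D + 1), ∑ k ∈ Finset.range (D + 1),
        (FF s D p (ph s d m) l * conj (FF s D p (ph s d m) k)).re * Ad s b m (l + k))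
      (fun m d => ∑ l ∈ Finset.range (D + 1), ∑ k ∈ Finset.range (D + 1),
        (FF s D p (muS s K (vS d m)) l * conj (FF s D p (muS s K (vS d m)) k)).re
          * (Es s b / ((b + (l + k : ℕ)) * (b + (l + k : ℕ) + 1)))) := by
    apply Ap.sum
    intro l _
    apply Ap.sum
    intro k _
    have hA := ap_of_tendsto (K := K) (lim_bD hs0 hs1 hb hσ (l + k)).2
    exact (((aF l).mul (aF k).conj (bF l) (bF k).conj).re).mul hA
      ((bF l).mul (bF k).conj).re (Bd.const _)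
  have t4 : Ap K 2 (fun m d => 2 * (∑ l ∈ Finset.range (D + 1), ∑ n ∈ Finset.range N,
        conj (FF s D p (ph s d m) l) * Tg K T (vS d m) n * Xd s b D p m l n).re)
      (fun m d => 2 * (∑ l ∈ Finset.range (D + 1), ∑ n ∈ Finset.range N,
        conj (FF s D p (muS s K (vS d m)) l) * Tg K T (vS d m) n
          * ((Es s b * xln s b D p l n : ℝ) : ℂ)).re) := by
    apply Ap.cmul
    apply Ap.re
    apply Ap.sum
    intro l _
    apply Ap.sum
    intro n _
    have hX := ap_of_tendsto (K := K) (lim_x hs0 hs1 hb hσ D p l n).2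
    exact ((aF l).conj.mul (ay n) (bF l).conj (by' n)).mul hX
      ((bF l).conj.mul (by' n)) (Bd.const _)
  have t5 : Ap K 2 (fun m d => 1 / τ * (∑ l ∈ Finset.range (D + 1), ∑ k ∈ Finset.range (D + 1),
        conj (FF s D p (ph s d m) l) * FF s D p (ph s d m) k * Cd s b D p m l k).re)
      (fun m d => 1 / τ * (∑ l ∈ Finset.range (D + 1), ∑ k ∈ Finset.range (D + 1),
        conj (FF s D p (muS s K (vS d m)) l) * FF s D p (muS s K (vS d m)) k
          * ((Es s b ^ 2 / B0 s b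
            * ∫ x in Ioo (0 : ℝ) 1, alp s b x * rl b D p l x * rl b D p k x : ℝ) : ℂ)).re) := by
    apply Ap.cmul
    apply Ap.re
    apply Ap.sum
    intro l _
    apply Ap.sum
    intro k _
    have hC := ap_of_tendsto (K := K) (lim_cross hs0 hs1 hb hσ D p l k)
    exact ((aF l).conj.mul (aF k) (bF l).conj (bF k)).mul hC
      ((bF l).conj.mul (bF k)) (Bd.const _)
  exact ((((t1.sub t2).sub t6).sub t3).sub t4).sub t5

end

end Pool.Agent.M16.Helper37.PFS

end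

section

set_option autoImplicit false

open MeasureTheory Set Metric Filter Topology

open scoped Real ComplexConjugate

namespace Pool.Agent.M16.Helper24.HR2

open Pool.Agent.M16.Helper22.Half

open Pool.Agent.M16.Helper22.Marshall (coeff SepHol LogPhi dcoeff GLe)

open Pool.Agent.M16.Helper39.Area (Ext phi)

open Pool.Agent.M16.Helper39.MH

open Pool.Agent.M16.Helper37.PFS (Elg Ncross_eq ap_Eg disc2 Ap.lower G1 G1_sq_le G1_nonneg)

theorem Elg_eq {s : ℂ} (hs : ‖s‖ < 1) {b : ℝ} (hb : 0 < b) (hσ : 0 < b + 1 - 2 * s.re)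
    (K N D : ℕ) (p : ℕ → ℕ → ℝ) (κ τ : ℝ) (g y : ℕ → ℂ) :
    Elg s b K N D p κ τ g y = limG s b K N D p κ τ g y := by
  have e2 : (∑ n ∈ Finset.range N, ∑ k ∈ Finset.range N,
        y n * conj (y k) * (Gm s b (k + n) : ℂ)).re = gamF s b N y := by
    rw [Complex.re_sum]
    unfold gamF
    apply Finset.sum_congr rfl
    intro n _
    rw [Complex.re_sum]
    apply Finset.sum_congr rfl
    intro k _
    rw [Complex.re_mul_ofReal, add_comm k n]
    ring
  have e6 : (∑ n ∈ Finset.range N, ∑ k ∈ Finset.range N,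
        y n * conj (y k) * ((Es s b * MR s b D p n k : ℝ) : ℂ)).re
      = Es s b * gamR s b N D p y := by
    rw [Complex.re_sum]
    unfold gamR
    rw [Finset.mul_sum]
    apply Finset.sum_congr rfl
    intro n _
    rw [Complex.re_sum, Finset.mul_sum]
    apply Finset.sum_congr rfl
    intro k _
    rw [Complex.re_mul_ofReal]
    ring
  have e3 : (∑ l ∈ Finset.range (D + 1), ∑ k ∈ Finset.range (D + 1),
        (FF s D p (muS s K g) l * conj (FF s D p (muS s K g) k)).re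
          * (Es s b / ((b + (l + k : ℕ)) * (b + (l + k : ℕ) + 1))))
      = Es s b * Nmain b D (FF s D p (muS s K g)) := by
    unfold Nmain
    rw [Finset.mul_sum]
    apply Finset.sum_congr rfl
    intro l _
    rw [Finset.mul_sum]
    apply Finset.sum_congr rfl
    intro k _
    push_cast
    rw [← add_assoc b (l : ℝ) (k : ℝ)]
    ring
  have e4 : 2 * (∑ l ∈ Finset.range (D + 1), ∑ n ∈ Finset.range N,
        conj (FF s D p (muS s K g) l) * y n * ((Es s b * xln s b D p l n : ℝ) : ℂ)).re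
      = Es s b * Nx s b D N p (FF s D p (muS s K g)) y := by
    unfold Nx
    rw [Complex.re_sum, Finset.mul_sum, Finset.mul_sum, Finset.mul_sum]
    apply Finset.sum_congr rfl
    intro l _
    rw [Complex.re_sum, Finset.mul_sum, Finset.mul_sum, Finset.mul_sum]
    apply Finset.sum_congr rfl
    intro n _
    rw [Complex.re_mul_ofReal]
    ring
  have e5 : 1 / τ * (∑ l ∈ Finset.range (D + 1), ∑ k ∈ Finset.range (D + 1),
        conj (FF s D p (muS s K g) l) * FF s D p (muS s K g) k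
          * ((Es s b ^ 2 / B0 s b
            * ∫ x in Ioo (0 : ℝ) 1, alp s b x * rl b D p l x * rl b D p k x : ℝ) : ℂ)).re
      = Es s b ^ 2 / τ * Ncross s b D p (FF s D p (muS s K g)) := by
    rw [Ncross_eq hs hb hσ, Complex.re_sum, Finset.mul_sum, Finset.mul_sum, Finset.mul_sum]
    apply Finset.sum_congr rfl
    intro l _
    rw [Complex.re_sum, Finset.mul_sum, Finset.mul_sum, Finset.mul_sum]
    apply Finset.sum_congr rfl
    intro k _
    rw [Complex.re_mul_ofReal]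
    ring
  unfold Elg limG
  rw [e2, e3, e4, e5, e6]
  unfold linF
  ring

theorem perfreq_g {s : ℂ} (hs0 : s ≠ 0) (hs : ‖s‖ ≤ 7 / 10) {b : ℝ} (hb : 0 < b) (hb1 : b ≤ 1)
    (hσ : 0 < b + 1 - 2 * s.re) {K N D : ℕ} (hN : N + 1 ≤ 2 * K) (hD : D ≤ N)
    (hN1 : 1 ≤ N) (p : ℕ → ℕ → ℝ) (T : ℕ → ℕ → ℂ) {ε κ τ : ℝ} (hε : Es s b * HSn s b D p ≤ ε)
    (hκ : 0 < κ) (hτ : 0 < τ) (h1 : (1 + κ) * ε + τ < 1) :
    PF s b K (fun g => limG s b K N D p κ τ g (Tg K T g)) := by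
  intro δ hδ
  have hs1 : ‖s‖ < 1 := by linarith only [hs]
  have hK0 : (0 : ℝ) < K := by
    have : 0 < K := by omega
    exact_mod_cast this
  set δ₁ := (1 - ((1 + κ) * ε + τ)) / (1 + κ) with hδ₁
  have hδ₁0 : 0 < δ₁ := by
    apply div_pos
    · linarith only [h1]
    · linarith only [hκ]
  have hδ₁a : (1 + κ) * (ε + δ₁) + τ ≤ 1 := by
    have h : δ₁ * (1 + κ) = 1 - ((1 + κ) * ε + τ) := by
      rw [hδ₁]
      field_simp
    linarith only [h]
  obtain ⟨m1, hm1⟩ := Ap.lower (ap_Eg (K := K) hs0 hs hb hb1 hσ hN hD hN1 p T κ τ)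
    (η := δ / K) (by positivity)
  obtain ⟨m2, hm2⟩ := eventually_atTop.1 (lim_HS hs0 hs1 hb hσ D p hδ₁0)
  refine ⟨max m1 m2, fun m hm hmm J d hd => ?_⟩
  have hmm1 : m1 ≤ m := le_of_max_le_left hmm
  have hmm2 : m2 ≤ m := le_of_max_le_right hmm
  have hd2 := disc2 hs1 hb hσ (N := N) (D := D) p hκ hτ hδ₁a hm
    (fun J => (hm2 m hmm2 J).trans (by linarith only [hε])) (fun l => (lim_bD hs0 hs1 hb hσ l).1 m)
    (fun l i hi => (lim_x hs0 hs1 hb hσ D p l 0).1 m i hi)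
    (fun n k => (lim_y hs0 hs1 hb hσ D p n k).1 m) hd (Tg K T (vS d m)) J
  refine le_trans ?_ hd2
  have hKS := KS_facts hs1
  have hS0 := pq_pos (z := b + 3) (by linarith only [hb]) (m - 1)
  have hKSp : 0 < KS s := by linarith only [hKS]
  apply mul_le_mul_of_nonneg_left _ (by positivity)
  have h2 := hm1 m hmm1 hm d hd
  rw [Elg_eq hs1 hb hσ] at h2
  have h5 := G1_sq_le K m d
  have h9 : δ / K * G1 K m d ^ 2 ≤ δ * ∑ r ∈ Finset.range K, ‖vS d m r‖ ^ 2 := by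
    have := mul_le_mul_of_nonneg_left h5 (by positivity : 0 ≤ δ / K)
    refine this.trans (le_of_eq ?_)
    field_simp
  linarith only [h2, h9]

end Pool.Agent.M16.Helper24.HR2

end

section

set_option autoImplicit false

open scoped ComplexConjugate

namespace Pool.Agent.M16.Helper65.HR2

open Pool.Agent.M16.Helper24.HR2

/-- an entry -/
def cget (u : SV × SV) (i : ℕ) : GQ := ⟨u.1.get i, u.2.get i⟩

/-- the Hermitian product -/
noncomputable def ip (u v : SV × SV) : GQ :=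
  ⟨sdot u.1 v.1 + sdot u.2 v.2, sdot u.1 v.2 - sdot u.2 v.1⟩

theorem ip_eq (u v : SV × SV) (n : ℕ) (h1 : u.1.num.length ≤ n) (h2 : u.2.num.length ≤ n) :
    (ip u v).toC = ∑ i ∈ Finset.range n, conj (cget u i).toC * (cget v i).toC := by
  rw [ip, sdot_eq _ _ n h1, sdot_eq _ _ n h2, sdot_eq _ _ n h1, sdot_eq _ _ n h2]
  apply Complex.ext
  · rw [GQ.toC_re, Complex.re_sum]
    push_cast
    rw [← Finset.sum_add_distrib]
    refine Finset.sum_congr rfl (fun i _ => ?_)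
    simp [GQ.toC, cget]
  · rw [GQ.toC_im, Complex.im_sum]
    push_cast
    rw [← Finset.sum_sub_distrib]
    refine Finset.sum_congr rfl (fun i _ => ?_)
    simp [GQ.toC, cget]
    ring

/-- product of a real matrix and a complex vector -/
noncomputable def mvc (X : RM) (v : SV × SV) : SV × SV := (mv X v.1, mv X v.2)

theorem mvc_get (f : ℕ → ℕ → ℚ) (m m' : ℕ) (v : SV × SV) {i : ℕ} (hi : i < m) :
    (cget (mvc (rm f m m') v) i).toC
      = ∑ j ∈ Finset.range m', ((f i j : ℝ) : ℂ) * (cget v j).toC := by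
  rw [cget, mvc]
  simp only
  rw [mv_get _ _ _ _ hi, mv_get _ _ _ _ hi]
  apply Complex.ext
  · rw [GQ.toC_re, Complex.re_sum]
    push_cast
    refine Finset.sum_congr rfl (fun j _ => ?_)
    simp [GQ.toC, cget]
  · rw [GQ.toC_im, Complex.im_sum]
    push_cast
    refine Finset.sum_congr rfl (fun j _ => ?_)
    simp [GQ.toC, cget]

theorem sm_rat (f : ℕ → ℚ) (n : ℕ) : sm f n = ∑ i ∈ Finset.range n, f i := by
  induction n with
  | zero => simp [sm]
  | succ n ih => rw [sm, Finset.sum_range_succ, ← ih]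

end Pool.Agent.M16.Helper65.HR2

end

section

set_option autoImplicit false

open scoped ComplexConjugate

namespace Pool.Agent.M16.Helper65.HR2

open Pool.Agent.M16.Helper24.HR2

/-- scalar product of lists of natural numbers -/
noncomputable def dotN : List ℕ → List ℕ → ℕ :=
  List.rec (motive := fun _ => List ℕ → ℕ) (fun _ => 0)
    (fun a _ ih v => List.rec (motive := fun _ => ℕ) 0
      (fun b t _ => Nat.add (Nat.mul a b) (ih t)) v)

theorem dotN_eq (u : List ℕ) : ∀ (v : List ℕ) (n : ℕ), u.length ≤ n →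
    dotN u v = ∑ i ∈ Finset.range n, u.getD i 0 * v.getD i 0 := by
  induction u with
  | nil =>
    intro v n _
    change 0 = _
    simp
  | cons a u ih =>
    intro v n hn
    obtain ⟨m, rfl⟩ : ∃ m, n = m + 1 := by
      rcases n with _ | m
      · simp at hn
      · exact ⟨m, rfl⟩
    have hm : u.length ≤ m := by simpa using hn
    rcases v with _ | ⟨b, v⟩
    · change 0 = _
      simp
    · change a * b + dotN u v = _
      rw [ih v m hm, Finset.sum_range_succ']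
      simp
      ring

/-- dropping the first elements -/
noncomputable def dropN : ℕ → List ℕ → List ℕ :=
  Nat.rec (motive := fun _ => List ℕ → List ℕ) (fun l => l)
    (fun _ ih l => List.rec (motive := fun _ => List ℕ) [] (fun _ t _ => ih t) l)

theorem dropN_nil (i : ℕ) : dropN i [] = [] := by
  cases i <;> rfl

theorem dropN_getD (i : ℕ) : ∀ (l : List ℕ) (j : ℕ), (dropN i l).getD j 0 = l.getD (i + j) 0 := by
  induction i with
  | zero =>
    intro l j
    rw [Nat.zero_add]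
    rfl
  | succ i ih =>
    intro l j
    rcases l with _ | ⟨a, l⟩
    · change ([] : List ℕ).getD j 0 = _
      simp
    · change (dropN i l).getD j 0 = _
      rw [ih l j, Nat.succ_add]
      rfl

/-- the first elements -/
noncomputable def takeN : ℕ → List ℕ → List ℕ :=
  Nat.rec (motive := fun _ => List ℕ → List ℕ) (fun _ => [])
    (fun _ ih l => List.rec (motive := fun _ => List ℕ) [] (fun a t _ => a :: ih t) l)

theorem takeN_length (i : ℕ) : ∀ l : List ℕ, (takeN i l).length ≤ i := by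
  induction i with
  | zero => intro l; exact le_rfl
  | succ i ih =>
    intro l
    rcases l with _ | ⟨a, l⟩
    · exact Nat.zero_le _
    · change (a :: takeN i l).length ≤ _
      rw [List.length_cons]
      exact Nat.succ_le_succ (ih l)

theorem takeN_getD (i : ℕ) : ∀ (l : List ℕ) (j : ℕ), j < i →
    (takeN i l).getD j 0 = l.getD j 0 := by
  induction i with
  | zero => intro l j h; omega
  | succ i ih =>
    intro l j h
    rcases l with _ | ⟨a, l⟩
    · rfl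
    · change (a :: takeN i l).getD j 0 = _
      rcases j with _ | j
      · rfl
      · rw [List.getD_cons_succ, List.getD_cons_succ]
        exact ih l j (by omega)

/-- `c * w + s` elementwise; `s` may be shorter -/
noncomputable def axN (c : ℕ) : List ℕ → List ℕ → List ℕ :=
  List.rec (motive := fun _ => List ℕ → List ℕ) (fun _ => [])
    (fun a _ ih s => List.rec (motive := fun _ => List ℕ) (Nat.mul c a :: ih [])
      (fun b t _ => Nat.add (Nat.mul c a) b :: ih t) s)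

theorem axN_length (c : ℕ) (w : List ℕ) : ∀ s, (axN c w s).length = w.length := by
  induction w with
  | nil => intro s; rfl
  | cons a w ih =>
    intro s
    rcases s with _ | ⟨b, s⟩
    · change (c * a :: axN c w []).length = _
      rw [List.length_cons, ih, List.length_cons]
    · change ((c * a + b) :: axN c w s).length = _
      rw [List.length_cons, ih, List.length_cons]

theorem axN_getD (c : ℕ) (w : List ℕ) : ∀ (s : List ℕ) (i : ℕ), i < w.length →
    (axN c w s).getD i 0 = c * w.getD i 0 + s.getD i 0 := by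
  induction w with
  | nil => intro s i h; simp at h
  | cons a w ih =>
    intro s i h
    rcases s with _ | ⟨b, s⟩
    · change (c * a :: axN c w []).getD i 0 = _
      rcases i with _ | i
      · simp
      · rw [List.getD_cons_succ, ih [] i (by simpa using h), List.getD_cons_succ]
        simp
    · change ((c * a + b) :: axN c w s).getD i 0 = _
      rcases i with _ | i
      · simp
      · rw [List.getD_cons_succ, ih s i (by simpa using h), List.getD_cons_succ,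
          List.getD_cons_succ]

/-- scalar products with the shifts of a list -/
noncomputable def convN (u : List ℕ) : ℕ → List ℕ → List ℕ :=
  Nat.rec (motive := fun _ => List ℕ → List ℕ) (fun _ => [])
    (fun _ ih v => dotN u v :: ih (List.rec (motive := fun _ => List ℕ) [] (fun _ t _ => t) v))

theorem convN_length (u : List ℕ) (n : ℕ) : ∀ v, (convN u n v).length = n := by
  induction n with
  | zero => intro v; rfl
  | succ n ih =>
    intro v
    change (dotN u v :: convN u n _).length = _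
    rw [List.length_cons, ih]

theorem convN_getD (u : List ℕ) (n : ℕ) : ∀ (v : List ℕ) (i : ℕ), i < n →
    (convN u n v).getD i 0 = dotN u (dropN i v) := by
  induction n with
  | zero => intro v i h; omega
  | succ n ih =>
    intro v i h
    change (dotN u v :: convN u n (List.rec (motive := fun _ => List ℕ) [] (fun _ t _ => t) v)).getD
      i 0 = _
    rcases i with _ | i
    · rfl
    · rw [List.getD_cons_succ, ih _ i (by omega)]
      rcases v with _ | ⟨a, v⟩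
      · change dotN u (dropN i []) = dotN u (dropN (i + 1) [])
        rw [dropN_nil, dropN_nil]
      · rfl

/-- the natural numerator of a non-negative `q` over the denominator `L` -/
noncomputable def nmN (L : ℕ) (q : ℚ) : ℕ := Nat.mul (Int.toNat q.num) (Nat.div L q.den)

theorem nmN_eq {L : ℕ} (hL : 0 < L) {q : ℚ} (h : q.den ∣ L) (hq : 0 ≤ q) :
    (nmN L q : ℚ) / L = q := by
  have h1 := nmr_eq hL h
  have h2 : ((nmN L q : ℕ) : ℤ) = nmr L q := by
    have h3 : ((q.num.toNat : ℕ) : ℤ) = q.num := Int.toNat_of_nonneg (Rat.num_nonneg.2 hq)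
    rw [nmN, nmr]
    change ((q.num.toNat * (L / q.den) : ℕ) : ℤ) = q.num * ((L / q.den : ℕ) : ℤ)
    rw [Nat.cast_mul, h3]
  have h4 : ((nmN L q : ℕ) : ℚ) = ((nmr L q : ℤ) : ℚ) := by
    rw [← h2, Int.cast_natCast]
  rw [h4]
  exact h1

/-- natural numerators of a non-negative function -/
noncomputable def svN (f : ℕ → ℚ) (n : ℕ) : List ℕ := tabG (fun i => nmN (lcd f n) (f i)) n

theorem svN_length (f : ℕ → ℚ) (n : ℕ) : (svN f n).length = n := tabG_length _ _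

theorem svN_get (f : ℕ → ℚ) (n : ℕ) {i : ℕ} (hi : i < n) (hf : 0 ≤ f i) :
    ((svN f n).getD i 0 : ℚ) / lcd f n = f i := by
  rw [svN, tabG_getD _ _ hi]
  exact nmN_eq (lcd_pos f n) (den_dvd_lcd f n hi) hf

section cross

variable (r b : ℚ) (D : ℕ) (p : ℕ → ℕ → ℚ) (J : ℕ)

/-- numerators of the weights -/
noncomputable def wNs : List ℕ := svN (wQ b) (Nat.succ (Nat.add D J))

/-- numerators of the moments -/
noncomputable def gNs : List ℕ := svN (gmQ r b) (Nat.mul 2 J)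

/-- positive parts of a row of the kernel -/
noncomputable def pPo (j : ℕ) : List ℕ :=
  tabG (fun m => Int.toNat (nmr (lcd2 p D D) (p j m))) D

/-- negative parts of a row of the kernel -/
noncomputable def pNe (j : ℕ) : List ℕ :=
  tabG (fun m => Int.toNat (Int.neg (nmr (lcd2 p D D) (p j m)))) D

/-- negative part of the cross function -/
noncomputable def cNe (l : ℕ) : List ℕ :=
  tabG (fun j => dotN (pPo D p j) (dropN (Nat.succ l) (wNs b D J))) D

/-- positive part of the cross function -/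
noncomputable def cPo (l : ℕ) : List ℕ :=
  axN (lcd2 p D D) (takeN J (dropN (Nat.succ l) (wNs b D J)))
    (tabG (fun j => dotN (pNe D p j) (dropN (Nat.succ l) (wNs b D J))) D)

/-- positive parts of the moments of the cross function -/
noncomputable def vPo (k : ℕ) : List ℕ := convN (cPo b D p J k) J (gNs r b J)

/-- negative parts of the moments of the cross function -/
noncomputable def vNe (k : ℕ) : List ℕ := convN (cNe b D p J k) J (gNs r b J)

/-- numerators of the matrix -/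
noncomputable def wwI (l k : ℕ) : ℤ :=
  Int.subNatNat (Nat.add (dotN (cPo b D p J l) (vPo r b D p J k))
      (dotN (cNe b D p J l) (vNe r b D p J k)))
    (Nat.add (dotN (vNe r b D p J k) (cPo b D p J l)) (dotN (cNe b D p J l) (vPo r b D p J k)))

theorem getD_of_le (l : List ℕ) {i : ℕ} (h : l.length ≤ i) : l.getD i 0 = 0 := by
  rw [List.getD_eq_getElem?_getD, List.getElem?_eq_none h]
  rfl

theorem toNat_sub (x : ℤ) : ((Int.toNat x : ℕ) : ℤ) - ((Int.toNat (-x) : ℕ) : ℤ) = x := by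
  omega

theorem wQ_nonneg (hb : 0 < b) (k : ℕ) : 0 ≤ wQ b k := by
  rw [wQ]
  positivity

theorem gmQ_nonneg (hr : 0 < r + 1) (hb : 0 < b) (n : ℕ) : 0 ≤ gmQ r b n := by
  induction n with
  | zero => simp [gmQ]
  | succ n ih =>
    rw [gmQ]
    have h1 : (0 : ℚ) ≤ n := Nat.cast_nonneg n
    have h2 : 0 ≤ 2 * r + 2 + n := by linarith only [hr]
    have h3 : 0 ≤ b + 3 + n := by linarith
    positivity

/-- the cross function, integral -/
noncomputable def ci (l j : ℕ) : ℤ :=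
  ((cPo b D p J l).getD j 0 : ℤ) - ((cNe b D p J l).getD j 0 : ℤ)

/-- its moments, integral -/
noncomputable def vi (k i : ℕ) : ℤ :=
  ((vPo r b D p J k).getD i 0 : ℤ) - ((vNe r b D p J k).getD i 0 : ℤ)

theorem wNs_get (hb : 0 < b) {i : ℕ} (hi : i < D + J + 1) :
    ((wNs b D J).getD i 0 : ℚ) = wQ b i * lcd (wQ b) (D + J + 1) := by
  have h := svN_get (wQ b) (D + J + 1) hi (wQ_nonneg b hb i)
  have h2 : (0 : ℚ) < lcd (wQ b) (D + J + 1) := by exact_mod_cast lcd_pos _ _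
  rw [← h, div_mul_cancel₀ _ h2.ne']
  rfl

theorem gNs_get (hr : 0 < r + 1) (hb : 0 < b) {i : ℕ} (hi : i < 2 * J) :
    ((gNs r b J).getD i 0 : ℚ) = gmQ r b i * lcd (gmQ r b) (2 * J) := by
  have h := svN_get (gmQ r b) (2 * J) hi (gmQ_nonneg r b hr hb i)
  have h2 : (0 : ℚ) < lcd (gmQ r b) (2 * J) := by exact_mod_cast lcd_pos _ _
  rw [← h, div_mul_cancel₀ _ h2.ne']
  rfl

theorem wNs_length : (wNs b D J).length = D + J + 1 := svN_length _ _

theorem dropN_length (i : ℕ) : ∀ l : List ℕ, (dropN i l).length = l.length - i := by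
  induction i with
  | zero => intro l; rfl
  | succ i ih =>
    intro l
    rcases l with _ | ⟨a, l⟩
    · simp [dropN_nil]
    · change (dropN i l).length = _
      rw [ih, List.length_cons]
      omega

theorem takeN_length_eq (i : ℕ) : ∀ l : List ℕ, i ≤ l.length → (takeN i l).length = i := by
  induction i with
  | zero => intro l _; rfl
  | succ i ih =>
    intro l h
    rcases l with _ | ⟨a, l⟩
    · simp at h
    · change (a :: takeN i l).length = _
      rw [List.length_cons, ih l (by simpa using h)]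

theorem ci_eq (hb : 0 < b) (hDJ : D ≤ J) {l j : ℕ} (hl : l < D + 1) (hj : j < J) :
    (ci b D p J l j : ℚ) = cJQ b D p l j
      * ((lcd2 p D D : ℚ) * lcd (wQ b) (D + J + 1)) := by
  have hlen : (takeN J (dropN (Nat.succ l) (wNs b D J))).length = J := by
    apply takeN_length_eq
    rw [dropN_length, wNs_length]
    change J ≤ D + J + 1 - (l + 1)
    omega
  have hLp : (0 : ℚ) < (lcd2 p D D : ℚ) := by exact_mod_cast lcd2_pos p D D
  have hdot : ∀ (q : ℕ → ℕ), dotN (tabG q D) (dropN (Nat.succ l) (wNs b D J))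
      = ∑ m ∈ Finset.range D, q m * (wNs b D J).getD (l + 1 + m) 0 := by
    intro q
    rw [dotN_eq _ _ D (by rw [tabG_length])]
    refine Finset.sum_congr rfl (fun m hm => ?_)
    rw [tabG_getD _ _ (Finset.mem_range.1 hm), dropN_getD]
  rw [ci, cPo, axN_getD _ _ _ _ (by rw [hlen]; exact hj), takeN_getD _ _ _ hj, dropN_getD, cNe,
    cJQ]
  rw [show l.succ + j = l + 1 + j from rfl]
  have hw : ((wNs b D J).getD (l + 1 + j) 0 : ℚ)
      = 1 / ((b + l + 1 + j) * (b + l + 2 + j)) * lcd (wQ b) (D + J + 1) := by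
    rw [wNs_get b D J hb (by omega), wQ]
    push_cast
    congr 2
    ring
  by_cases hjD : j < D
  · rw [tabG_getD _ _ hjD, tabG_getD _ _ hjD, if_pos hjD, pNe, pPo, hdot,
      hdot]
    have hsum : ((∑ m ∈ Finset.range D, Int.toNat (Int.neg (nmr (lcd2 p D D) (p j m)))
          * (wNs b D J).getD (l + 1 + m) 0 : ℕ) : ℚ)
        - ((∑ m ∈ Finset.range D, Int.toNat (nmr (lcd2 p D D) (p j m))
          * (wNs b D J).getD (l + 1 + m) 0 : ℕ) : ℚ)
        = - (sm (fun l' => p j l' * wQ b (l + l' + 1)) D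
          * ((lcd2 p D D : ℚ) * lcd (wQ b) (D + J + 1))) := by
      rw [sm_rat, Finset.sum_mul, ← Finset.sum_neg_distrib]
      push_cast
      rw [← Finset.sum_sub_distrib]
      refine Finset.sum_congr rfl (fun m hm => ?_)
      have hm' := Finset.mem_range.1 hm
      rw [wNs_get b D J hb (by omega)]
      have h1 := toNat_sub (nmr (lcd2 p D D) (p j m))
      have h2 := nmr_eq (lcd2_pos p D D) (den_dvd_lcd2 p D D hjD hm')
      have h3 : ((Int.toNat (nmr (lcd2 p D D) (p j m)) : ℕ) : ℚ)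
          - ((Int.toNat (Int.neg (nmr (lcd2 p D D) (p j m))) : ℕ) : ℚ)
          = p j m * (lcd2 p D D : ℚ) := by
        have h4 : ((nmr (lcd2 p D D) (p j m) : ℤ) : ℚ) = p j m * (lcd2 p D D : ℚ) := by
          field_simp at h2
          linarith only [h2]
        have h5 : ((Int.toNat (nmr (lcd2 p D D) (p j m)) : ℕ) : ℚ)
            - ((Int.toNat (-nmr (lcd2 p D D) (p j m)) : ℕ) : ℚ)
            = ((nmr (lcd2 p D D) (p j m) : ℤ) : ℚ) := by exact_mod_cast h1
        rw [← h4]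
        exact h5
      rw [show l + 1 + m = l + m + 1 from by ring]
      linear_combination (-(wQ b (l + m + 1) * (lcd (wQ b) (D + J + 1) : ℚ))) * h3
    push_cast at hsum ⊢
    rw [hw]
    linear_combination hsum
  · have t1 : ∀ f : ℕ → ℕ, (tabG f D).getD j 0 = 0 := fun f =>
      getD_of_le _ (by rw [tabG_length]; omega)
    rw [if_neg hjD, t1, t1]
    push_cast
    rw [hw]
    ring

theorem vi_eq (hr : 0 < r + 1) (hb : 0 < b) (hDJ : D ≤ J) {k i : ℕ} (hk : k < D + 1)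
    (hi : i < J) : (vi r b D p J k i : ℚ) = vQ r b D p J k i
      * ((lcd2 p D D : ℚ) * lcd (wQ b) (D + J + 1) * lcd (gmQ r b) (2 * J)) := by
  have hlenP : (cPo b D p J k).length = J := by
    rw [cPo, axN_length]
    apply takeN_length_eq
    rw [dropN_length, wNs_length]
    change J ≤ D + J + 1 - (k + 1)
    omega
  have hlenN : (cNe b D p J k).length ≤ J := by
    rw [cNe, tabG_length]
    exact hDJ
  rw [vi, vPo, vNe, convN_getD _ _ _ _ hi, convN_getD _ _ _ _ hi,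
    dotN_eq _ _ J hlenP.le, dotN_eq _ _ J hlenN, vQ, sm_rat, Finset.sum_mul]
  push_cast
  rw [← Finset.sum_sub_distrib]
  refine Finset.sum_congr rfl (fun j hj => ?_)
  have hj' := Finset.mem_range.1 hj
  have h1 := ci_eq b D p J hb hDJ hk hj'
  rw [ci] at h1
  push_cast at h1
  rw [dropN_getD, gNs_get r b J hr hb (by omega)]
  linear_combination (gmQ r b (i + j) * (lcd (gmQ r b) (2 * J) : ℚ)) * h1

theorem wwI_eq (hr : 0 < r + 1) (hb : 0 < b) (hDJ : D ≤ J) {l k : ℕ} (hl : l < D + 1)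
    (hk : k < D + 1) : (wwI r b D p J l k : ℚ)
      = sm (fun i => cJQ b D p l i * vQ r b D p J k i) J
        * ((lcd2 p D D : ℚ) * lcd (wQ b) (D + J + 1)
          * ((lcd2 p D D : ℚ) * lcd (wQ b) (D + J + 1) * lcd (gmQ r b) (2 * J))) := by
  have hlenP : (cPo b D p J l).length ≤ J := by
    rw [cPo, axN_length]
    exact takeN_length _ _
  have hlenN : (cNe b D p J l).length ≤ J := by
    rw [cNe, tabG_length]
    exact hDJ
  have hlenV : (vNe r b D p J k).length ≤ J := by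
    rw [vNe, convN_length]
  have e : wwI r b D p J l k = ((dotN (cPo b D p J l) (vPo r b D p J k)
      + dotN (cNe b D p J l) (vNe r b D p J k) : ℕ) : ℤ)
      - ((dotN (vNe r b D p J k) (cPo b D p J l) + dotN (cNe b D p J l) (vPo r b D p J k) : ℕ) : ℤ) :=
    Int.subNatNat_eq_coe
  rw [e, dotN_eq _ _ J hlenP, dotN_eq _ _ J hlenN, dotN_eq _ _ J hlenV, dotN_eq _ _ J hlenN,
    sm_rat, Finset.sum_mul]
  push_cast
  rw [← Finset.sum_add_distrib, ← Finset.sum_add_distrib, ← Finset.sum_sub_distrib]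
  refine Finset.sum_congr rfl (fun i hi => ?_)
  have hi' := Finset.mem_range.1 hi
  have h1 := ci_eq b D p J hb hDJ hl hi'
  have h2 := vi_eq r b D p J hr hb hDJ hk hi'
  rw [ci] at h1
  rw [vi] at h2
  push_cast at h1 h2
  calc _ = (((cPo b D p J l).getD i 0 : ℚ) - ((cNe b D p J l).getD i 0 : ℚ))
        * (((vPo r b D p J k).getD i 0 : ℚ) - ((vNe r b D p J k).getD i 0 : ℚ)) := by ring
    _ = _ := by
      rw [h1, h2]
      ring

/-- the tail on the diagonal -/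
noncomputable def tlQ (th : ℚ) (l : ℕ) : ℚ := (1 + 1 / th) * gmQ r b (2 * J)
  * sm (fun l' => 1 / (b + l' + 1 + J)) (D + 1) * (1 / (b + l + 1 + J))

/-- denominator of the products -/
noncomputable def wwD : ℕ := Nat.mul (Nat.mul (lcd2 p D D) (lcd (wQ b) (Nat.succ (Nat.add D J))))
  (Nat.mul (Nat.mul (lcd2 p D D) (lcd (wQ b) (Nat.succ (Nat.add D J)))) (lcd (gmQ r b) (Nat.mul 2 J)))

/-- entries of the matrix of the cross functional over the common denominator -/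
noncomputable def wwE (th : ℚ) (l k : ℕ) : ℤ :=
  Int.add (Int.mul (Int.mul (1 + th).num (Int.ofNat (lcd (tlQ r b D J th) (Nat.succ D))))
      (bif Nat.ble l k then wwI r b D p J l k else wwI r b D p J k l))
    (bif Nat.beq l k then Int.mul (nmr (lcd (tlQ r b D J th) (Nat.succ D)) (tlQ r b D J th l))
      (Int.ofNat (Nat.mul (1 + th).den (wwD r b D p J))) else 0)

/-- the matrix of the cross functional -/
noncomputable def wwM (th : ℚ) : RM :=
  ⟨Nat.mul (Nat.mul (1 + th).den (lcd (tlQ r b D J th) (Nat.succ D))) (wwD r b D p J),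
    tabG (fun l => tabG (fun k => wwE r b D p J th l k) (Nat.succ D)) (Nat.succ D)⟩

theorem wq_symm (l k : ℕ) : sm (fun i => cJQ b D p l i * vQ r b D p J k i) J
    = sm (fun i => cJQ b D p k i * vQ r b D p J l i) J := by
  rw [sm_rat, sm_rat]
  simp only [vQ, sm_rat, Finset.mul_sum]
  rw [Finset.sum_comm]
  refine Finset.sum_congr rfl (fun i _ => Finset.sum_congr rfl (fun j _ => ?_))
  rw [add_comm i j]
  ring

theorem wwE_eq (hr : 0 < r + 1) (hb : 0 < b) (hDJ : D ≤ J) (th : ℚ) {l k : ℕ} (hl : l < D + 1)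
    (hk : k < D + 1) : (wwE r b D p J th l k : ℚ) / ((wwM r b D p J th).den : ℕ)
      = WQ r b D p J th l k := by
  have hL : 0 < lcd (tlQ r b D J th) (D + 1) := lcd_pos _ _
  have hL' : (0 : ℚ) < (lcd (tlQ r b D J th) (D + 1) : ℚ) := by exact_mod_cast hL
  have h1 : (((1 + th).num : ℤ) : ℚ) = (1 + th) * ((1 + th).den : ℚ) := by
    have := Rat.num_div_den (1 + th)
    have h2 : (((1 + th).den : ℕ) : ℚ) ≠ 0 := by exact_mod_cast (1 + th).den_pos.ne'
    field_simp at this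
    linarith only [this]
  have hden : (0 : ℚ) < ((1 + th).den : ℚ) := by exact_mod_cast (1 + th).den_pos
  have hD : (0 : ℚ) < (wwD r b D p J : ℚ) := by
    have a1 := lcd2_pos p D D
    have a2 := lcd_pos (wQ b) (Nat.succ (Nat.add D J))
    have a3 := lcd_pos (gmQ r b) (Nat.mul 2 J)
    exact_mod_cast Nat.mul_pos (Nat.mul_pos a1 a2) (Nat.mul_pos (Nat.mul_pos a1 a2) a3)
  have hDe : (wwD r b D p J : ℚ) = (lcd2 p D D : ℚ) * lcd (wQ b) (D + J + 1)
      * ((lcd2 p D D : ℚ) * lcd (wQ b) (D + J + 1) * lcd (gmQ r b) (2 * J)) := by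
    have : wwD r b D p J = lcd2 p D D * lcd (wQ b) (D + J + 1)
      * (lcd2 p D D * lcd (wQ b) (D + J + 1) * lcd (gmQ r b) (2 * J)) := rfl
    rw [this]
    push_cast
    ring
  have hw : ((bif Nat.ble l k then wwI r b D p J l k else wwI r b D p J k l : ℤ) : ℚ)
      = sm (fun i => cJQ b D p l i * vQ r b D p J k i) J * (wwD r b D p J : ℚ) := by
    rw [hDe]
    cases h : Nat.ble l k
    · rw [cond_false, wwI_eq r b D p J hr hb hDJ hk hl, wq_symm]
    · rw [cond_true, wwI_eq r b D p J hr hb hDJ hl hk]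
  have hden2 : (((wwM r b D p J th).den : ℕ) : ℚ)
      = ((1 + th).den : ℚ) * (lcd (tlQ r b D J th) (D + 1) : ℚ) * (wwD r b D p J : ℚ) := by
    rw [← Nat.cast_mul, ← Nat.cast_mul]
    rfl
  have ht := nmr_eq hL (den_dvd_lcd (tlQ r b D J th) (D + 1) hl)
  have ht' : ((nmr (lcd (tlQ r b D J th) (D + 1)) (tlQ r b D J th l) : ℤ) : ℚ)
      = tlQ r b D J th l * (lcd (tlQ r b D J th) (D + 1) : ℚ) := by
    field_simp at ht
    linarith only [ht]
  rw [hden2, div_eq_iff (by positivity), wwE]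
  have e1 : ∀ x y : ℤ, ((Int.add x y : ℤ) : ℚ) = (x : ℚ) + (y : ℚ) := fun x y => by
    change ((x + y : ℤ) : ℚ) = _
    push_cast
    ring
  have e2 : ∀ x y : ℤ, ((Int.mul x y : ℤ) : ℚ) = (x : ℚ) * (y : ℚ) := fun x y => by
    change ((x * y : ℤ) : ℚ) = _
    push_cast
    ring
  have e3 : ∀ n : ℕ, ((Int.ofNat n : ℤ) : ℚ) = (n : ℚ) := fun n => Int.cast_natCast n
  rw [e1, e2, e2, hw, h1, e3, WQ]
  cases h : Nat.beq l k
  · have hne : l ≠ k := Nat.ne_of_beq_eq_false h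
    rw [cond_false, if_neg hne]
    push_cast
    ring
  · have he : l = k := Nat.eq_of_beq_eq_true h
    have e4 : ((nmr (lcd (tlQ r b D J th) D.succ) (tlQ r b D J th l) : ℤ) : ℚ)
        = tlQ r b D J th l * (lcd (tlQ r b D J th) (D + 1) : ℚ) := ht'
    rw [cond_true, if_pos he, e2, e3, e4,
      show Nat.mul (1 + th).den (wwD r b D p J) = (1 + th).den * wwD r b D p J from rfl,
      show D.succ = D + 1 from rfl, tlQ]
    push_cast
    ring

end cross

theorem mv_get' (L : ℕ) (a : ℕ → ℕ → ℤ) (m m' : ℕ) (v : SV) {i : ℕ} (hi : i < m) :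
    (mv ⟨L, tabG (fun i => tabG (fun j => a i j) m') m⟩ v).get i
      = ∑ j ∈ Finset.range m', ((a i j : ℚ) / L) * v.get j := by
  rw [SV.get, mv_num]
  have h1 : ((tabG (fun i => tabG (fun j => a i j) m') m).map
      (fun row => dotI row v.num)).getD i 0 = dotI (tabG (fun j => a i j) m') v.num := by
    rw [List.getD_eq_getElem?_getD, List.getElem?_map, tabG_getElem _ _ hi]
    rfl
  rw [h1, dotI_eq _ _ m' (by rw [tabG_length])]
  have h2 : (((mv ⟨L, tabG (fun i => tabG (fun j => a i j) m') m⟩ v).den : ℕ) : ℚ)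
      = (L : ℚ) * v.den := by
    rw [← Nat.cast_mul]
    rfl
  rw [h2]
  push_cast
  rw [Finset.sum_div]
  refine Finset.sum_congr rfl (fun j hj => ?_)
  rw [tabG_getD _ _ (Finset.mem_range.1 hj), ← div_mul_div_comm, SV.get]

theorem mvc_get' (L : ℕ) (a : ℕ → ℕ → ℤ) (m m' : ℕ) (v : SV × SV) {i : ℕ} (hi : i < m) :
    (cget (mvc ⟨L, tabG (fun i => tabG (fun j => a i j) m') m⟩ v) i).toC
      = ∑ j ∈ Finset.range m', ((((a i j : ℚ) / L : ℚ) : ℝ) : ℂ) * (cget v j).toC := by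
  rw [cget, mvc]
  simp only
  rw [mv_get' _ _ _ _ _ hi, mv_get' _ _ _ _ _ hi]
  apply Complex.ext
  · rw [GQ.toC_re, Complex.re_sum]
    push_cast
    refine Finset.sum_congr rfl (fun j _ => ?_)
    simp [GQ.toC, cget]
  · rw [GQ.toC_im, Complex.im_sum]
    push_cast
    refine Finset.sum_congr rfl (fun j _ => ?_)
    simp [GQ.toC, cget]

end Pool.Agent.M16.Helper65.HR2

end

section

set_option autoImplicit false

open scoped ComplexConjugate

namespace Pool.Agent.M16.Helper65.HR2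

open Pool.Agent.M16.Helper24.HR2

theorem re_prod (N N' : ℕ) (a c : ℕ → ℝ) (y z : ℕ → ℂ) :
    ((∑ n ∈ Finset.range N, (a n : ℂ) * y n) * conj (∑ k ∈ Finset.range N', (c k : ℂ) * z k)).re
      = ∑ n ∈ Finset.range N, ∑ k ∈ Finset.range N', a n * c k * (y n * conj (z k)).re := by
  rw [map_sum, Finset.sum_mul_sum, Complex.re_sum]
  refine Finset.sum_congr rfl (fun n _ => ?_)
  rw [Complex.re_sum]
  refine Finset.sum_congr rfl (fun k _ => ?_)
  rw [map_mul, Complex.conj_ofReal, show (a n : ℂ) * y n * ((c k : ℂ) * conj (z k))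
    = ((a n * c k : ℝ) : ℂ) * (y n * conj (z k)) from by push_cast; ring, Complex.re_ofReal_mul]

theorem re_symm (x y : ℂ) : (x * conj y).re = (y * conj x).re := by
  simp only [Complex.mul_re, Complex.conj_re, Complex.conj_im]
  ring

/-- the coefficients of the projection as a functional -/
noncomputable def UU (s : ℂ) (b : ℝ) (N D : ℕ) (p : ℕ → ℕ → ℝ) (y : ℕ → ℂ) (l : ℕ) : ℂ :=
  ∑ n ∈ Finset.range N, ((pil s b D p n l : ℝ) : ℂ) * y n

/-- the differences of the series as a functional -/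
noncomputable def VV (s : ℂ) (b : ℝ) (N : ℕ) (y : ℕ → ℂ) (l : ℕ) : ℂ :=
  ∑ n ∈ Finset.range N, ((SS s b n l - SS s b n (l + 1) : ℝ) : ℂ) * y n

theorem gamR_eq {s : ℂ} (hs : -1 < s.re) {b : ℝ} (hb : 0 < b) (hσ : 0 < b + 1 - 2 * s.re)
    (N D : ℕ) (p : ℕ → ℕ → ℝ) (y : ℕ → ℂ) : gamR s b N D p y
      = (∑ n ∈ Finset.range N, ∑ k ∈ Finset.range N, MM s b n k * (y n * conj (y k)).re)
        - 2 * ∑ l ∈ Finset.range D, (VV s b N y (l + 1) * conj (UU s b N D p y l)).re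
        + ∑ l ∈ Finset.range D, ∑ l' ∈ Finset.range D, 1 / ((b + l + l' + 2) * (b + l + l' + 3))
          * (UU s b N D p y l' * conj (UU s b N D p y l)).re := by
  have h1 : ∀ l, (VV s b N y (l + 1) * conj (UU s b N D p y l)).re
      = ∑ n ∈ Finset.range N, ∑ k ∈ Finset.range N,
        (SS s b n (l + 1) - SS s b n (l + 2)) * pil s b D p k l * (y n * conj (y k)).re := by
    intro l
    rw [VV, UU, re_prod]
  have h1' : ∀ l, (VV s b N y (l + 1) * conj (UU s b N D p y l)).re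
      = ∑ n ∈ Finset.range N, ∑ k ∈ Finset.range N,
        (SS s b k (l + 1) - SS s b k (l + 2)) * pil s b D p n l * (y n * conj (y k)).re := by
    intro l
    rw [h1, Finset.sum_comm]
    refine Finset.sum_congr rfl (fun n _ => Finset.sum_congr rfl (fun k _ => ?_))
    rw [re_symm (y k) (y n)]
  have h2 : ∀ l l', (UU s b N D p y l' * conj (UU s b N D p y l)).re
      = ∑ n ∈ Finset.range N, ∑ k ∈ Finset.range N,
        pil s b D p n l * pil s b D p k l' * (y n * conj (y k)).re := by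
    intro l l'
    rw [re_symm, UU, UU, re_prod]
  have e1 : 2 * ∑ l ∈ Finset.range D, (VV s b N y (l + 1) * conj (UU s b N D p y l)).re
      = ∑ n ∈ Finset.range N, ∑ k ∈ Finset.range N,
        ((∑ l ∈ Finset.range D, pil s b D p k l * (SS s b n (l + 1) - SS s b n (l + 2)))
          + ∑ l ∈ Finset.range D, pil s b D p n l * (SS s b k (l + 1) - SS s b k (l + 2)))
          * (y n * conj (y k)).re := by
    have e2 : ∑ l ∈ Finset.range D, (VV s b N y (l + 1) * conj (UU s b N D p y l)).re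
        = ∑ n ∈ Finset.range N, ∑ k ∈ Finset.range N,
          (∑ l ∈ Finset.range D, pil s b D p k l * (SS s b n (l + 1) - SS s b n (l + 2)))
          * (y n * conj (y k)).re := by
      simp only [h1]
      rw [Finset.sum_comm]
      refine Finset.sum_congr rfl (fun n _ => ?_)
      rw [Finset.sum_comm]
      refine Finset.sum_congr rfl (fun k _ => ?_)
      rw [Finset.sum_mul]
      exact Finset.sum_congr rfl (fun l _ => by ring)
    have e3 : ∑ l ∈ Finset.range D, (VV s b N y (l + 1) * conj (UU s b N D p y l)).re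
        = ∑ n ∈ Finset.range N, ∑ k ∈ Finset.range N,
          (∑ l ∈ Finset.range D, pil s b D p n l * (SS s b k (l + 1) - SS s b k (l + 2)))
          * (y n * conj (y k)).re := by
      simp only [h1']
      rw [Finset.sum_comm]
      refine Finset.sum_congr rfl (fun n _ => ?_)
      rw [Finset.sum_comm]
      refine Finset.sum_congr rfl (fun k _ => ?_)
      rw [Finset.sum_mul]
      exact Finset.sum_congr rfl (fun l _ => by ring)
    rw [two_mul]
    nth_rewrite 1 [e2]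
    rw [e3]
    rw [← Finset.sum_add_distrib]
    refine Finset.sum_congr rfl (fun n _ => ?_)
    rw [← Finset.sum_add_distrib]
    exact Finset.sum_congr rfl (fun k _ => by ring)
  have e4 : ∑ l ∈ Finset.range D, ∑ l' ∈ Finset.range D,
        1 / ((b + l + l' + 2) * (b + l + l' + 3))
          * (UU s b N D p y l' * conj (UU s b N D p y l)).re
      = ∑ n ∈ Finset.range N, ∑ k ∈ Finset.range N,
        (∑ l ∈ Finset.range D, ∑ l' ∈ Finset.range D, pil s b D p n l * pil s b D p k l'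
          / ((b + l + l' + 2) * (b + l + l' + 3))) * (y n * conj (y k)).re := by
    simp only [h2, Finset.mul_sum, Finset.sum_mul]
    rw [Finset.sum_comm' (t' := Finset.range D) (s' := fun _ => Finset.range D)
      (by intro x z; tauto)]
    calc ∑ l' ∈ Finset.range D, ∑ l ∈ Finset.range D, ∑ n ∈ Finset.range N,
          ∑ k ∈ Finset.range N, 1 / ((b + l + l' + 2) * (b + l + l' + 3))
            * (pil s b D p n l * pil s b D p k l' * (y n * conj (y k)).re)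
        = ∑ l ∈ Finset.range D, ∑ n ∈ Finset.range N, ∑ k ∈ Finset.range N,
          ∑ l' ∈ Finset.range D, 1 / ((b + l + l' + 2) * (b + l + l' + 3))
            * (pil s b D p n l * pil s b D p k l' * (y n * conj (y k)).re) := by
          rw [Finset.sum_comm]
          refine Finset.sum_congr rfl (fun l _ => ?_)
          rw [Finset.sum_comm]
          refine Finset.sum_congr rfl (fun n _ => ?_)
          rw [Finset.sum_comm]
      _ = ∑ n ∈ Finset.range N, ∑ k ∈ Finset.range N, ∑ l ∈ Finset.range D,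
          ∑ l' ∈ Finset.range D, 1 / ((b + l + l' + 2) * (b + l + l' + 3))
            * (pil s b D p n l * pil s b D p k l' * (y n * conj (y k)).re) := by
          rw [Finset.sum_comm]
          refine Finset.sum_congr rfl (fun n _ => ?_)
          rw [Finset.sum_comm]
      _ = _ := by
          refine Finset.sum_congr rfl (fun n _ => Finset.sum_congr rfl (fun k _ =>
            Finset.sum_congr rfl (fun l _ => Finset.sum_congr rfl (fun l' _ => ?_))))
          ring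
  rw [e1, e4, gamR, ← Finset.sum_sub_distrib, ← Finset.sum_add_distrib]
  refine Finset.sum_congr rfl (fun n _ => ?_)
  rw [← Finset.sum_sub_distrib, ← Finset.sum_add_distrib]
  refine Finset.sum_congr rfl (fun k _ => ?_)
  rw [MR_eq hs hb hσ]
  ring

theorem Nx_eq2 {s : ℂ} (hs : -1 < s.re) {b : ℝ} (hb : 0 < b) (hσ : 0 < b + 1 - 2 * s.re)
    (D N : ℕ) (p : ℕ → ℕ → ℝ) (F y : ℕ → ℂ) : Nx s b D N p F y
      = 2 * ∑ l ∈ Finset.range (D + 1), ((VV s b N y l
        - ∑ m ∈ Finset.range D, ((1 / ((b + l + m + 1) * (b + l + m + 2)) : ℝ) : ℂ)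
          * UU s b N D p y m) * conj (F l)).re := by
  rw [Nx]
  congr 1
  refine Finset.sum_congr rfl (fun l _ => ?_)
  have h1 : VV s b N y l
        - ∑ m ∈ Finset.range D, ((1 / ((b + l + m + 1) * (b + l + m + 2)) : ℝ) : ℂ)
          * UU s b N D p y m
      = ∑ n ∈ Finset.range N, ((xln s b D p l n : ℝ) : ℂ) * y n := by
    rw [VV]
    simp only [UU, Finset.mul_sum]
    rw [Finset.sum_comm, ← Finset.sum_sub_distrib]
    refine Finset.sum_congr rfl (fun n _ => ?_)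
    have h2 : xln s b D p l n = SS s b n l - SS s b n (l + 1)
        - ∑ m ∈ Finset.range D, 1 / ((b + l + m + 1) * (b + l + m + 2)) * pil s b D p n m := by
      rw [xln_eq hs hb hσ, Finset.sum_comm]
      congr 1
      refine Finset.sum_congr rfl (fun m _ => ?_)
      rw [pil, Finset.mul_sum]
      exact Finset.sum_congr rfl (fun n' _ => by ring)
    rw [h2]
    push_cast
    rw [sub_mul _ (∑ m ∈ Finset.range D, _) (y n), Finset.sum_mul]
    congr 1
    exact Finset.sum_congr rfl (fun m _ => by ring)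
  rw [h1, Finset.sum_mul, Complex.re_sum]
  refine Finset.sum_congr rfl (fun n _ => ?_)
  rw [mul_assoc, Complex.re_ofReal_mul, mul_comm (conj (F l))]

end Pool.Agent.M16.Helper65.HR2

end

section

set_option autoImplicit false

open scoped ComplexConjugate

namespace Pool.Agent.M16.Helper65.HR2

open Pool.Agent.M16.Helper24.HR2

/-- the functionals given by a family of columns -/
noncomputable def fnl (K : ℕ) (A : ℕ → SV × SV) (g : ℕ → ℂ) (i : ℕ) : ℂ :=
  ∑ t ∈ Finset.range K, (cget (A t) i).toC * g t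

theorem fnl_mvc (K : ℕ) (f : ℕ → ℕ → ℚ) (m m' : ℕ) (A : ℕ → SV × SV) (g : ℕ → ℂ) {i : ℕ}
    (hi : i < m) : fnl K (fun t => mvc (rm f m m') (A t)) g i
      = ∑ j ∈ Finset.range m', ((f i j : ℝ) : ℂ) * fnl K A g j := by
  rw [fnl]
  have h : ∀ t ∈ Finset.range K, (cget (mvc (rm f m m') (A t)) i).toC * g t
      = ∑ j ∈ Finset.range m', ((f i j : ℝ) : ℂ) * ((cget (A t) j).toC * g t) := by
    intro t _
    rw [mvc_get _ _ _ _ hi, Finset.sum_mul]
    exact Finset.sum_congr rfl (fun j _ => by ring)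
  rw [Finset.sum_congr rfl h, Finset.sum_comm]
  refine Finset.sum_congr rfl (fun j _ => ?_)
  rw [fnl, Finset.mul_sum]

/-- dropping the first entries -/
noncomputable def cdrop (j : ℕ) (u : SV × SV) : SV × SV := (sdrop j u.1, sdrop j u.2)

theorem fnl_cdrop (K j : ℕ) (A : ℕ → SV × SV) (g : ℕ → ℂ) (i : ℕ) :
    fnl K (fun t => cdrop j (A t)) g i = fnl K A g (j + i) := by
  rw [fnl, fnl]
  refine Finset.sum_congr rfl (fun t _ => ?_)
  rw [cget, cdrop, cget]
  simp only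
  rw [sdrop_get, sdrop_get]

/-- both parts have at most `n` entries -/
def SL (n : ℕ) (u : SV × SV) : Prop := u.1.num.length ≤ n ∧ u.2.num.length ≤ n

theorem SL_mvc (f : ℕ → ℕ → ℚ) (m m' : ℕ) (v : SV × SV) : SL m (mvc (rm f m m') v) := by
  constructor
  · rw [mvc, mv_length]
  · rw [mvc, mv_length]

theorem ipF_eq (K n : ℕ) (B A : ℕ → SV × SV) (hB : ∀ r, SL n (B r)) (g : ℕ → ℂ) :
    hF K (fun r t => (ip (B r) (A t)).toC) g
      = ∑ i ∈ Finset.range n, (fnl K A g i * conj (fnl K B g i)).re := by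
  have h : (fun r t => (ip (B r) (A t)).toC)
      = fun r t => ∑ i ∈ Finset.range n, (cget (A t) i).toC * conj (cget (B r) i).toC := by
    funext r t
    rw [ip_eq _ _ n (hB r).1 (hB r).2]
    exact Finset.sum_congr rfl (fun i _ => mul_comm _ _)
  rw [h, hF_sum]
  refine Finset.sum_congr rfl (fun i _ => ?_)
  rw [hF_prod]
  rfl

end Pool.Agent.M16.Helper65.HR2

end

section

set_option autoImplicit false

open scoped ComplexConjugate

namespace Pool.Agent.M16.Helper65.HR2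

open Pool.Agent.M16.Helper24.HR2

/-- the complex number -/
noncomputable def GZ.toC (x : GZ) : ℂ := x.toQ.toC

theorem GZ.toC_eq (x : GZ) : x.toC = ⟨(x.re : ℝ), (x.im : ℝ)⟩ := by
  rw [GZ.toC, GZ.toQ]
  apply Complex.ext
  · rw [GQ.toC_re]
    push_cast
    rfl
  · rw [GQ.toC_im]
    push_cast
    rfl

/-- the integral weight of a term -/
noncomputable def wgt (L : ℕ) (q : ℚ) (d : ℕ) : ℤ :=
  Int.mul q.num (Int.ofNat (Nat.div L (Nat.mul q.den d)))

theorem wgt_eq {L : ℕ} {q : ℚ} {d : ℕ} (hL : 0 < L) (h : Nat.mul q.den d ∣ L) :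
    (wgt L q d : ℝ) = (L : ℝ) * ((q : ℝ) / (d : ℝ)) := by
  obtain ⟨k, hk⟩ := h
  have hp : 0 < Nat.mul q.den d := by
    rcases Nat.eq_zero_or_pos (Nat.mul q.den d) with h | h
    · rw [h, zero_mul] at hk
      omega
    · exact h
  have hd : 0 < d := by
    rcases Nat.eq_zero_or_pos d with h | h
    · rw [h] at hp
      exact absurd hp (by simp)
    · exact h
  have h1 : Nat.div L (Nat.mul q.den d) = k := by
    rw [hk]
    exact Nat.mul_div_cancel_left k hp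
  have h2 : (wgt L q d : ℝ) = (q.num : ℝ) * (k : ℝ) := by
    rw [wgt, h1]
    change ((q.num * (k : ℤ) : ℤ) : ℝ) = _
    push_cast
    ring
  have h3 : (L : ℝ) = (q.den : ℝ) * (d : ℝ) * (k : ℝ) := by
    have : L = q.den * d * k := hk
    rw [this]
    push_cast
    ring
  have h4 : (q : ℝ) = (q.num : ℝ) / (q.den : ℝ) := by
    have := Rat.num_div_den q
    have h5 : ((q.num : ℚ) / (q.den : ℚ) : ℚ) = q := this
    calc (q : ℝ) = (((q.num : ℚ) / (q.den : ℚ) : ℚ) : ℝ) := by rw [h5]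
      _ = _ := by push_cast; ring
  have h6 : (q.den : ℝ) ≠ 0 := by exact_mod_cast q.den_pos.ne'
  have h7 : (d : ℝ) ≠ 0 := by exact_mod_cast hd.ne'
  rw [h2, h3, h4]
  field_simp

/-- twice the Hermitian part -/
noncomputable def hz (z : ℕ → ℕ → GZ) (i j : ℕ) : GZ :=
  GZ.rec (motive := fun _ => GZ)
    (fun a b => GZ.rec (motive := fun _ => GZ)
      (fun c d => ⟨Int.add a c, Int.sub b d⟩) (z j i)) (z i j)

theorem hz_eq (z : ℕ → ℕ → GZ) (i j : ℕ) :
    (hz z i j).toC = (z i j).toC + conj (z j i).toC := by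
  have e : hz z i j = ⟨Int.add (z i j).re (z j i).re, Int.sub (z i j).im (z j i).im⟩ := rfl
  have e1 : ∀ x y : ℤ, ((Int.add x y : ℤ) : ℝ) = (x : ℝ) + (y : ℝ) := fun x y => by
    change ((x + y : ℤ) : ℝ) = _
    push_cast
    ring
  have e3 : ∀ x y : ℤ, ((Int.sub x y : ℤ) : ℝ) = (x : ℝ) - (y : ℝ) := fun x y => by
    change ((x - y : ℤ) : ℝ) = _
    push_cast
    ring
  rw [e, GZ.toC_eq, GZ.toC_eq, GZ.toC_eq]
  apply Complex.ext
  · rw [Complex.add_re, Complex.conj_re]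
    simp only [e1]
  · rw [Complex.add_im, Complex.conj_im]
    simp only [e3]
    ring

theorem hz_hF (K : ℕ) (z : ℕ → ℕ → GZ) (g : ℕ → ℂ) :
    uf K (fun i j => (hz z i j).toQ) g = 2 * hF K (fun r t => (z r t).toC) g := by
  have h1 := hrm_eq K (fun i j => (z i j).toQ) g
  have h2 : uf K (fun i j => (hz z i j).toQ) g
      = uf K (fun i j => (hrm (fun i j => (z i j).toQ) i j).sc 2) g := by
    refine uf_congr K _ _ g (fun i j _ _ => ?_)
    have h3 := hz_eq z i j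
    rw [GZ.toC] at h3
    rw [h3, GQ.toC_sc, hrm_toC]
    change _ = (((2 : ℚ) : ℝ) : ℂ) * (1 / 2 * ((z i j).toC + conj (z j i).toC))
    push_cast
    ring
  rw [h2, uf_sc, ← h1]
  push_cast
  rfl

/-- integral combination of four matrices -/
noncomputable def comb4Z (x0 x1 x2 x3 : ℤ) (a b c d : GZ) : GZ :=
  ⟨Int.sub (Int.mul x0 a.re) (Int.add (Int.mul x1 b.re)
      (Int.add (Int.mul x2 c.re) (Int.mul x3 d.re))),
    Int.sub (Int.mul x0 a.im) (Int.add (Int.mul x1 b.im)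
      (Int.add (Int.mul x2 c.im) (Int.mul x3 d.im)))⟩

/-- check of positivity of `A - E (B + S C + M D)` -/
noncomputable def chkZ (K : ℕ) (A B C D : ℕ → ℕ → GZ) (E S M : ℚ) : Bool :=
  psdL K (triU (fun i j => comb4Z
    (Int.ofNat (Nat.mul E.den (Nat.mul S.den M.den)))
    (Int.mul E.num (Int.ofNat (Nat.mul S.den M.den)))
    (Int.mul E.num (Int.mul S.num (Int.ofNat M.den)))
    (Int.mul E.num (Int.mul M.num (Int.ofNat S.den))) (A i j) (B i j) (C i j) (D i j)) K)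

theorem hF_congr (K : ℕ) (F G : ℕ → ℕ → ℂ) (g : ℕ → ℂ)
    (h : ∀ r t, r < K → t < K → F r t = G r t) : hF K F g = hF K G g := by
  rw [hF, hF]
  refine Finset.sum_congr rfl (fun r hr => Finset.sum_congr rfl (fun t ht => ?_))
  rw [h r t (Finset.mem_range.1 hr) (Finset.mem_range.1 ht)]

theorem chkZ_uf (K : ℕ) (A B C D : ℕ → ℕ → GZ) (E S M : ℚ)
    (h : chkZ K A B C D E S M = true) (g : ℕ → ℂ) :
    0 ≤ uf K (fun i j => (A i j).toQ) g - (E : ℝ) * (uf K (fun i j => (B i j).toQ) g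
      + (S : ℝ) * uf K (fun i j => (C i j).toQ) g
      + (M : ℝ) * uf K (fun i j => (D i j).toQ) g) := by
  have h2 := psdT_U K _ h
  have h3 := psdU_sound K _ h2 g
  have hEd : (0 : ℝ) < (E.den : ℝ) := by exact_mod_cast E.den_pos
  have hSd : (0 : ℝ) < (S.den : ℝ) := by exact_mod_cast S.den_pos
  have hMd : (0 : ℝ) < (M.den : ℝ) := by exact_mod_cast M.den_pos
  obtain ⟨T, hT⟩ : ∃ T : ℚ, T = (E.den : ℚ) * ((S.den : ℚ) * M.den) := ⟨_, rfl⟩
  have e1 : ∀ x y : ℤ, ((Int.add x y : ℤ) : ℚ) = (x : ℚ) + (y : ℚ) := fun x y => by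
    change ((x + y : ℤ) : ℚ) = _
    push_cast
    ring
  have e2 : ∀ x y : ℤ, ((Int.mul x y : ℤ) : ℚ) = (x : ℚ) * (y : ℚ) := fun x y => by
    change ((x * y : ℤ) : ℚ) = _
    push_cast
    ring
  have e3 : ∀ x y : ℤ, ((Int.sub x y : ℤ) : ℚ) = (x : ℚ) - (y : ℚ) := fun x y => by
    change ((x - y : ℤ) : ℚ) = _
    push_cast
    ring
  have e4 : ∀ n : ℕ, ((Int.ofNat n : ℤ) : ℚ) = (n : ℚ) := fun n => Int.cast_natCast n
  have e5 : ∀ n m : ℕ, ((Nat.mul n m : ℕ) : ℚ) = (n : ℚ) * (m : ℚ) := fun n m => by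
    change ((n * m : ℕ) : ℚ) = _
    push_cast
    ring
  have e7 : ∀ q : ℚ, (q.num : ℚ) = q * q.den := by
    intro q
    have := Rat.num_div_den q
    have h2 : ((q.den : ℕ) : ℚ) ≠ 0 := by exact_mod_cast q.den_pos.ne'
    field_simp at this
    linarith
  have h4 : uf K (fun i j => (comb4Z
    (Int.ofNat (Nat.mul E.den (Nat.mul S.den M.den)))
    (Int.mul E.num (Int.ofNat (Nat.mul S.den M.den)))
    (Int.mul E.num (Int.mul S.num (Int.ofNat M.den)))
    (Int.mul E.num (Int.mul M.num (Int.ofNat S.den))) (A i j) (B i j) (C i j)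
      (D i j)).toQ) g
      = uf K (fun i j => (((A i j).toQ).sub (((((B i j).toQ).add
        (((C i j).toQ).sc S)).add (((D i j).toQ).sc M)).sc E)).sc T) g := by
    refine uf_congr K _ _ g (fun i j hij hj => ?_)
    congr 1
    simp only [comb4Z, GZ.toQ, e1, e2, e3, e4, e5, e7 E, e7 S, e7 M, hT]
    simp only [GQ.sub, GQ.sc, GQ.add]
    congr 1 <;> ring
  rw [h4, uf_sc] at h3
  have hT1 : (0 : ℝ) < (T : ℝ) := by
    rw [hT]
    push_cast
    positivity
  have h5 := nonneg_of_mul_nonneg_right h3 hT1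
  -- splitting
  have s1 : ∀ P Q : ℕ → ℕ → GQ, uf K (fun i j => (P i j).sub (Q i j)) g
      = uf K P g - uf K Q g := by
    intro P Q
    have := uf_comb K 1 P Q g
    rw [Rat.cast_one, one_mul] at this
    rw [← this]
    refine uf_congr K _ _ g (fun i j _ _ => ?_)
    rw [GQ.toC_sub, GQ.toC_sub, GQ.toC_sc]
    push_cast
    ring
  have s2 : ∀ P Q : ℕ → ℕ → GQ, uf K (fun i j => (P i j).add (Q i j)) g
      = uf K P g + uf K Q g := by
    intro P Q
    have := s1 P (fun i j => (Q i j).sc (-1))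
    rw [uf_sc] at this
    push_cast at this
    have h6 : uf K (fun i j => (P i j).add (Q i j)) g
        = uf K (fun i j => (P i j).sub ((Q i j).sc (-1))) g := by
      refine uf_congr K _ _ g (fun i j _ _ => ?_)
      rw [GQ.toC_sub, GQ.toC_add, GQ.toC_sc]
      push_cast
      ring
    rw [h6, this]
    ring
  rw [s1, uf_sc, s2, s2, uf_sc, uf_sc] at h5
  exact h5

/-- common denominator of a family -/
noncomputable def lcdC (f : ℕ → ℕ → GQ) (K n : ℕ) : ℕ :=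
  Nat.lcm (lcd2 (fun i t => (f i t).re) K n) (lcd2 (fun i t => (f i t).im) K n)

theorem lcdC_pos (f : ℕ → ℕ → GQ) (K n : ℕ) : 0 < lcdC f K n :=
  Nat.lcm_pos (lcd2_pos _ _ _) (lcd2_pos _ _ _)

/-- a family of vectors with one common denominator -/
noncomputable def cvecU (f : ℕ → ℕ → GQ) (K n t : ℕ) : SV × SV :=
  (⟨lcdC f K n, tabG (fun i => nmr (lcdC f K n) (f i t).re) n⟩,
    ⟨lcdC f K n, tabG (fun i => nmr (lcdC f K n) (f i t).im) n⟩)

theorem SL_cvecU (f : ℕ → ℕ → GQ) (K n t : ℕ) : SL n (cvecU f K n t) := by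
  constructor
  · rw [cvecU, tabG_length]
  · rw [cvecU, tabG_length]

theorem cvecU_get (f : ℕ → ℕ → GQ) (K n : ℕ) {i t : ℕ} (hi : i < n) (ht : t < K) :
    cget (cvecU f K n t) i = f i t := by
  have h1 : (f i t).re.den ∣ lcdC f K n :=
    (den_dvd_lcd2 (fun i t => (f i t).re) K n hi ht).trans (Nat.dvd_lcm_left _ _)
  have h2 : (f i t).im.den ∣ lcdC f K n :=
    (den_dvd_lcd2 (fun i t => (f i t).im) K n hi ht).trans (Nat.dvd_lcm_right _ _)
  rw [cget, SV.get, SV.get, cvecU]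
  simp only
  rw [tabG_getD _ _ hi, tabG_getD _ _ hi, nmr_eq (lcdC_pos _ _ _) h1,
    nmr_eq (lcdC_pos _ _ _) h2]

theorem fnl_cvecU (K : ℕ) (f : ℕ → ℕ → GQ) (m : ℕ) (g : ℕ → ℂ) {i : ℕ} (hi : i < m) :
    fnl K (cvecU f K m) g i = ∑ t ∈ Finset.range K, (f i t).toC * g t := by
  rw [fnl]
  refine Finset.sum_congr rfl (fun t ht => ?_)
  rw [cvecU_get _ _ _ hi (Finset.mem_range.1 ht)]

end Pool.Agent.M16.Helper65.HR2

end

section

set_option autoImplicit false

open MeasureTheory Set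

open scoped ComplexConjugate Real

namespace Pool.Agent.M16.Helper65.HR2

open Pool.Agent.M16.Helper24.HR2

/-- the data at one point: the data of `AP` (with `N` rows of test vectors and `K` moments) and the
enclosure of the Gram constant -/
structure AP2 where
  /-- the data -/
  P : AP
  /-- number of moments -/
  K : ℕ
  /-- number of test functions -/
  N : ℕ
  /-- lower bound of the Gram constant -/
  Mlo : ℚ
  /-- upper bound of the Gram constant -/
  Mhi : ℚ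

namespace AP2

/-- test vectors -/
noncomputable def Tc (X : AP2) (t : ℕ) : SV × SV := cvecU X.P.Tf X.K X.N t

/-- the functionals -/
noncomputable def muc (X : AP2) (t : ℕ) : SV × SV := cvecU (muQ X.P.s) X.K X.N t

/-- moments of the test vectors -/
noncomputable def Gc (X : AP2) (t : ℕ) : SV × SV :=
  mvc (rm (fun i j => gmQ X.P.s.re X.P.b (i + j)) X.N X.N) (X.Tc t)

/-- projections -/
noncomputable def Uc (X : AP2) (t : ℕ) : SV × SV :=
  mvc (rm (fun l n => X.P.pf n l) X.P.D X.P.D) (X.Gc t)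

/-- Gram matrix, constant part -/
noncomputable def Mc0 (X : AP2) (t : ℕ) : SV × SV :=
  mvc (rm (fun i j => (mmQ X.P.s.re X.P.b i j).c0) X.N X.N) (X.Tc t)

/-- Gram matrix, first part -/
noncomputable def Mc1 (X : AP2) (t : ℕ) : SV × SV :=
  mvc (rm (fun i j => (mmQ X.P.s.re X.P.b i j).c1) X.N X.N) (X.Tc t)

/-- Gram matrix, second part -/
noncomputable def Mc2 (X : AP2) (t : ℕ) : SV × SV :=
  mvc (rm (fun i j => (mmQ X.P.s.re X.P.b i j).c2) X.N X.N) (X.Tc t)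

/-- differences of the series, constant part -/
noncomputable def Sc0 (X : AP2) (t : ℕ) : SV × SV :=
  mvc (rm (fun l n => (ssQ X.P.s.re X.P.b n l).1 - (ssQ X.P.s.re X.P.b n (l + 1)).1)
    (X.P.D + 1) X.N) (X.Tc t)

/-- differences of the series, linear part -/
noncomputable def Sc1 (X : AP2) (t : ℕ) : SV × SV :=
  mvc (rm (fun l n => (ssQ X.P.s.re X.P.b n l).2 - (ssQ X.P.s.re X.P.b n (l + 1)).2)
    (X.P.D + 1) X.N) (X.Tc t)

/-- weighted projections -/
noncomputable def Wc (X : AP2) (t : ℕ) : SV × SV :=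
  mvc (rm (fun l m => wQ X.P.b (l + m + 1)) (X.P.D + 1) X.P.D) (X.Uc t)

/-- the inner function -/
noncomputable def Pc (X : AP2) (t : ℕ) : SV × SV :=
  cvecU (phQ X.P.s X.P.D X.P.pf) X.K (X.P.D + 1) t

/-- its main part -/
noncomputable def Dc (X : AP2) (t : ℕ) : SV × SV :=
  mvc (rm (fun l k => wQ X.P.b (l + k)) (X.P.D + 1) (X.P.D + 1)) (X.Pc t)

/-- its cross part -/
noncomputable def Cc (X : AP2) (t : ℕ) : SV × SV :=
  mvc (wwM X.P.s.re X.P.b X.P.D X.P.pf X.P.J2 X.P.th) (X.Pc t)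

section pieces

variable (X : AP2) (g : ℕ → ℂ)

theorem fTc {n : ℕ} (hn : n < X.N) : fnl X.K X.Tc g n = Tg X.K X.P.TC g n := by
  have := fnl_cvecU X.K X.P.Tf X.N g hn
  rw [Tg]
  exact this

theorem fmuc {n : ℕ} (hn : n < X.N) : fnl X.K X.muc g n = muS X.P.sC X.K g n := by
  have := fnl_cvecU X.K (muQ X.P.s) X.N g hn
  rw [AP.sC, muQ_eq]
  exact this

theorem fPc {l : ℕ} (hl : l < X.P.D + 1) : fnl X.K X.Pc g l
    = FF X.P.sC X.P.D X.P.pR (muS X.P.sC X.K g) l := by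
  have := fnl_cvecU X.K (phQ X.P.s X.P.D X.P.pf) (X.P.D + 1) g hl
  have h2 := phQ_eq X.P.s X.P.D X.P.pf X.K g l
  exact this.trans h2.symm

theorem fGc {n : ℕ} (hn : n < X.N) : fnl X.K X.Gc g n
    = ∑ k ∈ Finset.range X.N, ((Gm X.P.sC X.P.bR (n + k) : ℝ) : ℂ)
      * Tg X.K X.P.TC g k := by
  have := fnl_mvc X.K (fun i j => gmQ X.P.s.re X.P.b (i + j)) X.N X.N X.Tc g hn
  refine this.trans (Finset.sum_congr rfl (fun k hk => ?_))
  rw [X.fTc g (Finset.mem_range.1 hk)]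
  congr 2
  exact gmQ_eq (s := X.P.sC) rfl (n + k)

theorem fUc (hD : X.P.D ≤ X.N) {l : ℕ} (hl : l < X.P.D) : fnl X.K X.Uc g l
    = UU X.P.sC X.P.bR X.N X.P.D X.P.pR (Tg X.K X.P.TC g) l := by
  have := fnl_mvc X.K (fun l n => X.P.pf n l) X.P.D X.P.D X.Gc g hl
  refine this.trans ?_
  rw [UU]
  have h1 : ∀ n ∈ Finset.range X.P.D, ((X.P.pf n l : ℝ) : ℂ) * fnl X.K X.Gc g n
      = ∑ k ∈ Finset.range X.N, ((X.P.pR n l * Gm X.P.sC X.P.bR (k + n) : ℝ) : ℂ)
        * Tg X.K X.P.TC g k := by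
    intro n hn
    rw [X.fGc g (lt_of_lt_of_le (Finset.mem_range.1 hn) hD), Finset.mul_sum]
    refine Finset.sum_congr rfl (fun k _ => ?_)
    rw [add_comm n k, AP.pR]
    push_cast
    ring
  rw [Finset.sum_congr rfl h1, Finset.sum_comm]
  refine Finset.sum_congr rfl (fun k _ => ?_)
  rw [← Finset.sum_mul, pil]
  push_cast
  rfl

theorem fWc (hD : X.P.D ≤ X.N) {l : ℕ} (hl : l < X.P.D + 1) : fnl X.K X.Wc g l
    = ∑ m ∈ Finset.range X.P.D, ((1 / ((X.P.bR + l + m + 1) * (X.P.bR + l + m + 2)) : ℝ) : ℂ)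
      * UU X.P.sC X.P.bR X.N X.P.D X.P.pR (Tg X.K X.P.TC g) m := by
  have := fnl_mvc X.K (fun l m => wQ X.P.b (l + m + 1)) (X.P.D + 1) X.P.D X.Uc g hl
  refine this.trans (Finset.sum_congr rfl (fun m hm => ?_))
  rw [X.fUc g hD (Finset.mem_range.1 hm)]
  congr 2
  rw [wQ, AP.bR]
  push_cast
  congr 1
  ring

theorem fSc {l : ℕ} (hl : l < X.P.D + 1) (hs : -1 < X.P.sC.re) (hb : 0 < (X.P.b : ℝ))
    (hσ : 0 < (X.P.b : ℝ) + 1 - 2 * X.P.sC.re) :
    fnl X.K X.Sc0 g l + ((SS X.P.sC X.P.bR 0 1 : ℝ) : ℂ) * fnl X.K X.Sc1 g l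
      = VV X.P.sC X.P.bR X.N (Tg X.K X.P.TC g) l := by
  have h0 := fnl_mvc X.K (fun l n => (ssQ X.P.s.re X.P.b n l).1
    - (ssQ X.P.s.re X.P.b n (l + 1)).1) (X.P.D + 1) X.N X.Tc g hl
  have h1 := fnl_mvc X.K (fun l n => (ssQ X.P.s.re X.P.b n l).2
    - (ssQ X.P.s.re X.P.b n (l + 1)).2) (X.P.D + 1) X.N X.Tc g hl
  have e0 : fnl X.K X.Sc0 g l = _ := h0
  have e1 : fnl X.K X.Sc1 g l = _ := h1
  rw [e0, e1, VV, Finset.mul_sum, ← Finset.sum_add_distrib]
  refine Finset.sum_congr rfl (fun n hn => ?_)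
  rw [X.fTc g (Finset.mem_range.1 hn)]
  have e2 : SS X.P.sC X.P.bR n l = _ := ssQ_eq (s := X.P.sC) rfl hs hb hσ n l
  have e3 : SS X.P.sC X.P.bR n (l + 1) = _ := ssQ_eq (s := X.P.sC) rfl hs hb hσ n (l + 1)
  rw [e2, e3, av, av]
  have e4 : SS X.P.sC X.P.bR 0 1 = SS X.P.sC (X.P.b : ℝ) 0 1 := rfl
  rw [e4]
  push_cast
  ring

theorem fMc {n : ℕ} (hn : n < X.N) (hs : -1 < X.P.sC.re) (hb : 0 < (X.P.b : ℝ))
    (hσ : 0 < (X.P.b : ℝ) + 1 - 2 * X.P.sC.re) :
    fnl X.K X.Mc0 g n + ((SS X.P.sC X.P.bR 0 1 : ℝ) : ℂ) * fnl X.K X.Mc1 g n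
        + ((MM X.P.sC X.P.bR 0 0 : ℝ) : ℂ) * fnl X.K X.Mc2 g n
      = ∑ k ∈ Finset.range X.N, ((MM X.P.sC X.P.bR n k : ℝ) : ℂ) * Tg X.K X.P.TC g k := by
  have e0 : fnl X.K X.Mc0 g n = _ :=
    fnl_mvc X.K (fun i j => (mmQ X.P.s.re X.P.b i j).c0) X.N X.N X.Tc g hn
  have e1 : fnl X.K X.Mc1 g n = _ :=
    fnl_mvc X.K (fun i j => (mmQ X.P.s.re X.P.b i j).c1) X.N X.N X.Tc g hn
  have e2 : fnl X.K X.Mc2 g n = _ :=
    fnl_mvc X.K (fun i j => (mmQ X.P.s.re X.P.b i j).c2) X.N X.N X.Tc g hn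
  rw [e0, e1, e2, Finset.mul_sum, Finset.mul_sum, ← Finset.sum_add_distrib,
    ← Finset.sum_add_distrib]
  refine Finset.sum_congr rfl (fun k hk => ?_)
  rw [X.fTc g (Finset.mem_range.1 hk)]
  have e3 : MM X.P.sC X.P.bR n k = _ := mmQ_eq (s := X.P.sC) rfl hs hb hσ n k
  rw [e3, tv]
  have e4 : SS X.P.sC X.P.bR 0 1 = SS X.P.sC (X.P.b : ℝ) 0 1 := rfl
  have e5 : MM X.P.sC X.P.bR 0 0 = MM X.P.sC (X.P.b : ℝ) 0 0 := rfl
  rw [e4, e5]
  push_cast
  ring

theorem fDc {l : ℕ} (hl : l < X.P.D + 1) : fnl X.K X.Dc g l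
    = ∑ k ∈ Finset.range (X.P.D + 1), ((1 / ((X.P.bR + l + k) * (X.P.bR + l + k + 1)) : ℝ) : ℂ)
      * FF X.P.sC X.P.D X.P.pR (muS X.P.sC X.K g) k := by
  have := fnl_mvc X.K (fun l k => wQ X.P.b (l + k)) (X.P.D + 1) (X.P.D + 1) X.Pc g hl
  refine this.trans (Finset.sum_congr rfl (fun k hk => ?_))
  rw [X.fPc g (Finset.mem_range.1 hk)]
  congr 2
  rw [wQ, AP.bR]
  push_cast
  congr 1
  ring

end pieces

section forms

variable (X : AP2) (g : ℕ → ℂ)

theorem fm_lin : hF X.K (fun r t => (ip (X.Tc r) (X.muc t)).toC) g * 2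
    = linF X.P.sC X.K X.N g (Tg X.K X.P.TC g) := by
  rw [ipF_eq X.K X.N X.Tc X.muc (fun r => SL_cvecU _ _ _ _), linF, mul_comm, Complex.re_sum]
  congr 1
  refine Finset.sum_congr rfl (fun n hn => ?_)
  rw [X.fTc g (Finset.mem_range.1 hn), X.fmuc g (Finset.mem_range.1 hn), mul_comm]

theorem fm_gam : hF X.K (fun r t => (ip (X.Tc r) (X.Gc t)).toC) g
    = gamF X.P.sC X.P.bR X.N (Tg X.K X.P.TC g) := by
  rw [ipF_eq X.K X.N X.Tc X.Gc (fun r => SL_cvecU _ _ _ _), gamF]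
  refine Finset.sum_congr rfl (fun n hn => ?_)
  rw [X.fTc g (Finset.mem_range.1 hn), X.fGc g (Finset.mem_range.1 hn), Finset.sum_mul,
    Complex.re_sum]
  refine Finset.sum_congr rfl (fun k _ => ?_)
  rw [mul_assoc, Complex.re_ofReal_mul, re_symm]

theorem fm_D : hF X.K (fun r t => (ip (X.Pc r) (X.Dc t)).toC) g
    = Nmain X.P.bR X.P.D (FF X.P.sC X.P.D X.P.pR (muS X.P.sC X.K g)) := by
  rw [ipF_eq X.K (X.P.D + 1) X.Pc X.Dc (fun r => SL_cvecU _ _ _ _), Nmain]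
  refine Finset.sum_congr rfl (fun l hl => ?_)
  rw [X.fPc g (Finset.mem_range.1 hl), X.fDc g (Finset.mem_range.1 hl), Finset.sum_mul,
    Complex.re_sum]
  refine Finset.sum_congr rfl (fun k _ => ?_)
  rw [mul_assoc, Complex.re_ofReal_mul, re_symm, one_div_mul_eq_div]

theorem fm_C (hs : -1 < X.P.sC.re) (hb : 0 < X.P.b) (hDJ : X.P.D ≤ X.P.J2) :
    hF X.K (fun r t => (ip (X.Pc r) (X.Cc t)).toC) g
    = hF X.K (fun i j => (bil (X.P.D + 1) (X.P.D + 1) (WQ X.P.s.re X.P.b X.P.D X.P.pf X.P.J2 X.P.th)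
        (phQ X.P.s X.P.D X.P.pf) (phQ X.P.s X.P.D X.P.pf) i j).toC) g := by
  rw [ipF_eq X.K (X.P.D + 1) X.Pc X.Cc (fun r => SL_cvecU _ _ _ _), bil_eq]
  refine Finset.sum_congr rfl (fun l hl => ?_)
  have hl' := Finset.mem_range.1 hl
  have hr1 : 0 < X.P.s.re + 1 := by
    have h1 : X.P.sC.re = ((X.P.s.re : ℚ) : ℝ) := rfl
    rw [h1] at hs
    have h2 : (0 : ℝ) < ((X.P.s.re + 1 : ℚ) : ℝ) := by
      push_cast
      linarith only [hs]
    exact_mod_cast h2
  have e1 : fnl X.K X.Cc g l = ∑ k ∈ Finset.range (X.P.D + 1),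
      (((WQ X.P.s.re X.P.b X.P.D X.P.pf X.P.J2 X.P.th l k : ℚ) : ℝ) : ℂ) * fnl X.K X.Pc g k := by
    rw [fnl]
    have h : ∀ t ∈ Finset.range X.K, (cget (X.Cc t) l).toC * g t
        = ∑ j ∈ Finset.range (X.P.D + 1),
          (((WQ X.P.s.re X.P.b X.P.D X.P.pf X.P.J2 X.P.th l j : ℚ) : ℝ) : ℂ)
            * ((cget (X.Pc t) j).toC * g t) := by
      intro t _
      have h1 := mvc_get' (wwM X.P.s.re X.P.b X.P.D X.P.pf X.P.J2 X.P.th).den
        (wwE X.P.s.re X.P.b X.P.D X.P.pf X.P.J2 X.P.th) (X.P.D + 1) (X.P.D + 1) (X.Pc t) hl'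
      have h2 : (cget (X.Cc t) l).toC = _ := h1
      rw [h2, Finset.sum_mul]
      refine Finset.sum_congr rfl (fun j hj => ?_)
      rw [wwE_eq _ _ _ _ _ hr1 hb hDJ _ hl' (Finset.mem_range.1 hj)]
      ring
    rw [Finset.sum_congr rfl h, Finset.sum_comm]
    refine Finset.sum_congr rfl (fun j _ => ?_)
    rw [fnl, Finset.mul_sum]
  have e2 : ∀ i, i ∈ Finset.range (X.P.D + 1) → fnl X.K X.Pc g i
      = ∑ t ∈ Finset.range X.K, (phQ X.P.s X.P.D X.P.pf i t).toC * g t := fun i hi =>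
    fnl_cvecU X.K (phQ X.P.s X.P.D X.P.pf) (X.P.D + 1) g (Finset.mem_range.1 hi)
  rw [e1, Finset.sum_mul, Complex.re_sum]
  refine Finset.sum_congr rfl (fun k hk => ?_)
  rw [mul_assoc, Complex.re_ofReal_mul, re_symm, e2 l hl, e2 k hk]

end forms

end AP2

end Pool.Agent.M16.Helper65.HR2

end

section

set_option autoImplicit false

open scoped ComplexConjugate

namespace Pool.Agent.M16.Helper65.HR2

open Pool.Agent.M16.Helper24.HR2

/-- forward packing -/
noncomputable def pF (B : ℕ) : List ℕ → ℕ :=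
  List.rec (motive := fun _ => ℕ) 0 (fun a _ ih => Nat.add a (Nat.mul B ih))

/-- backward packing with accumulator -/
noncomputable def pRa (B : ℕ) : List ℕ → ℕ → ℕ :=
  List.rec (motive := fun _ => ℕ → ℕ) (fun acc => acc)
    (fun a _ ih acc => ih (Nat.mul (Nat.add acc a) B))

/-- backward packing -/
noncomputable def pR (B : ℕ) (l : List ℕ) : ℕ := pRa B l 0

/-- sum of a list -/
noncomputable def smN : List ℕ → ℕ :=
  List.rec (motive := fun _ => ℕ) 0 (fun a _ ih => Nat.add a ih)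

theorem pF_nil (B : ℕ) : pF B [] = 0 := rfl

theorem pF_cons (B a : ℕ) (l : List ℕ) : pF B (a :: l) = a + B * pF B l := rfl

theorem smN_nil : smN [] = 0 := rfl

theorem smN_cons (a : ℕ) (l : List ℕ) : smN (a :: l) = a + smN l := rfl

theorem pRa_eq (B : ℕ) (l : List ℕ) : ∀ acc, pRa B l acc = acc * B ^ l.length + pR B l := by
  induction l with
  | nil =>
    intro acc
    change acc = acc * B ^ 0 + 0
    simp
  | cons a l ih =>
    intro acc
    have h1 : pRa B (a :: l) acc = pRa B l ((acc + a) * B) := rfl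
    have h2 : pR B (a :: l) = pRa B l ((0 + a) * B) := rfl
    rw [h1, h2, ih, ih, List.length_cons, pow_succ]
    ring

theorem pR_nil (B : ℕ) : pR B [] = 0 := rfl

theorem pR_cons (B a : ℕ) (l : List ℕ) :
    pR B (a :: l) = a * B ^ (l.length + 1) + pR B l := by
  have h2 : pR B (a :: l) = pRa B l ((0 + a) * B) := rfl
  rw [h2, pRa_eq, pow_succ]
  ring

theorem pR_le {B : ℕ} (hB : 0 < B) (l : List ℕ) : pR B l ≤ smN l * B ^ l.length := by
  induction l with
  | nil => exact le_of_eq (by rw [pR_nil, smN_nil, zero_mul])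
  | cons a l ih =>
    rw [pR_cons, smN_cons, List.length_cons, add_mul]
    refine Nat.add_le_add_left (ih.trans ?_) _
    exact Nat.mul_le_mul_left _ (Nat.pow_le_pow_right hB (Nat.le_succ _))

theorem dotN_le (u : List ℕ) : ∀ v, dotN u v ≤ smN u * smN v := by
  induction u with
  | nil =>
    intro v
    exact Nat.zero_le _
  | cons a u ih =>
    intro v
    rcases v with _ | ⟨b, v⟩
    · exact Nat.zero_le _
    · have h1 : dotN (a :: u) (b :: v) = a * b + dotN u v := rfl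
      have h2 := ih v
      rw [h1, smN_cons, smN_cons]
      nlinarith only [h2]

/-- the number `P` has the digit `c` at the place `n`, with room `S` -/
def Pk (B n P c S : ℕ) : Prop :=
  ∃ low high, P = low + B ^ n * (c + B * high) ∧ B * low ≤ S * B ^ n ∧ c ≤ S

theorem Pk.add {B n P c S P' c' S' : ℕ} (h : Pk B n P c S) (h' : Pk B n P' c' S') :
    Pk B n (P + P') (c + c') (S + S') := by
  obtain ⟨l, k, h1, h2, h3⟩ := h
  obtain ⟨l', k', h1', h2', h3'⟩ := h'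
  refine ⟨l + l', k + k', ?_, ?_, Nat.add_le_add h3 h3'⟩
  · rw [h1, h1']
    ring
  · rw [mul_add, add_mul]
    exact Nat.add_le_add h2 h2'

theorem pk {B : ℕ} (hB : 0 < B) (b : List ℕ) : ∀ a : List ℕ,
    Pk B b.length (pF B a * pR B b) (dotN a b) (smN a * smN b) := by
  induction b with
  | nil =>
    intro a
    have h : dotN a [] = 0 := by
      cases a <;> rfl
    refine ⟨0, 0, ?_, ?_, ?_⟩
    · rw [pR_nil, h]
      simp
    · rw [mul_zero]
      exact Nat.zero_le _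
    · rw [h]
      exact Nat.zero_le _
  | cons y b ih =>
    intro a
    rcases a with _ | ⟨x, a⟩
    · refine ⟨0, 0, ?_, ?_, ?_⟩
      · rw [pF_nil]
        change 0 * _ = 0 + _ * (0 + B * 0)
        simp
      · rw [mul_zero]
        exact Nat.zero_le _
      · exact Nat.zero_le _
    · obtain ⟨l, k, h1, h2, h3⟩ := ih a
      have h4 := pR_le hB b
      have h5 : dotN (x :: a) (y :: b) = x * y + dotN a b := rfl
      refine ⟨x * pR B b + B * l, pF B a * y + k, ?_, ?_, ?_⟩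
      · rw [pF_cons, pR_cons, h5, List.length_cons]
        have e : (x + B * pF B a) * (y * B ^ (b.length + 1) + pR B b)
            = x * pR B b + B ^ (b.length + 1) * (x * y) + B ^ (b.length + 1) * (B * (pF B a * y))
              + B * (pF B a * pR B b) := by ring
        rw [e, h1]
        ring
      · rw [smN_cons, smN_cons, List.length_cons]
        have e1 : B * (x * pR B b + B * l) = B * x * pR B b + B * (B * l) := by ring
        rw [e1]
        calc B * x * pR B b + B * (B * l)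
            ≤ B * x * (smN b * B ^ b.length) + B * (smN a * smN b * B ^ b.length) :=
              Nat.add_le_add (Nat.mul_le_mul_left _ h4) (Nat.mul_le_mul_left _ h2)
          _ = (x + smN a) * smN b * B ^ (b.length + 1) := by ring
          _ ≤ (x + smN a) * (y + smN b) * B ^ (b.length + 1) :=
              Nat.mul_le_mul_right _ (Nat.mul_le_mul_left _ (Nat.le_add_left _ _))
      · exact dotN_le _ _

/-- a digit -/
noncomputable def dig (B n P : ℕ) : ℕ := Nat.mod (Nat.div P (Nat.pow B n)) B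

theorem Pk.dig {B n P c S : ℕ} (h : Pk B n P c S) (hS : S < B) : dig B n P = c := by
  obtain ⟨l, k, h1, h2, h3⟩ := h
  have hB : 0 < B := by omega
  have hp : 0 < B ^ n := Nat.pow_pos hB
  have h4 : l < B ^ n := by
    have h5 : B * l < B * B ^ n := lt_of_le_of_lt h2 (Nat.mul_lt_mul_of_pos_right hS hp)
    exact Nat.lt_of_mul_lt_mul_left h5
  have h6 : P / B ^ n = c + B * k := by
    rw [h1, Nat.add_mul_div_left _ _ hp, Nat.div_eq_of_lt h4, zero_add]
  change P / B ^ n % B = c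
  rw [h6, Nat.add_mul_mod_self_left, Nat.mod_eq_of_lt (lt_of_le_of_lt h3 hS)]

/-- a complex vector: positive and negative parts of the real and the imaginary parts -/
structure CV4 where
  /-- real part, positive -/
  a : List ℕ
  /-- real part, negative -/
  b : List ℕ
  /-- imaginary part, positive -/
  c : List ℕ
  /-- imaginary part, negative -/
  d : List ℕ

/-- an entry -/
noncomputable def at4 (w : CV4) (i : ℕ) : ℂ :=
  ⟨(w.a.getD i 0 : ℝ) - (w.b.getD i 0 : ℝ), (w.c.getD i 0 : ℝ) - (w.d.getD i 0 : ℝ)⟩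

/-- a complex number: positive and negative parts -/
structure G4 where
  /-- real part, positive -/
  a : ℕ
  /-- real part, negative -/
  b : ℕ
  /-- imaginary part, positive -/
  c : ℕ
  /-- imaginary part, negative -/
  d : ℕ

/-- the complex number -/
noncomputable def G4.toC (x : G4) : ℂ := ⟨(x.a : ℝ) - x.b, (x.c : ℝ) - x.d⟩

/-- sum of all numbers of a vector -/
noncomputable def sum4 (w : CV4) : ℕ :=
  Nat.add (smN w.a) (Nat.add (smN w.b) (Nat.add (smN w.c) (smN w.d)))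

/-- Hermitian product -/
noncomputable def ip4 (B n : ℕ) (u v : CV4) : G4 :=
  ⟨dig B n (Nat.add (Nat.mul (pF B u.a) (pR B v.a)) (Nat.add (Nat.mul (pF B u.b) (pR B v.b))
      (Nat.add (Nat.mul (pF B u.c) (pR B v.c)) (Nat.mul (pF B u.d) (pR B v.d))))),
    dig B n (Nat.add (Nat.mul (pF B u.a) (pR B v.b)) (Nat.add (Nat.mul (pF B u.b) (pR B v.a))
      (Nat.add (Nat.mul (pF B u.c) (pR B v.d)) (Nat.mul (pF B u.d) (pR B v.c))))),
    dig B n (Nat.add (Nat.mul (pF B u.a) (pR B v.c)) (Nat.add (Nat.mul (pF B u.b) (pR B v.d))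
      (Nat.add (Nat.mul (pF B u.c) (pR B v.b)) (Nat.mul (pF B u.d) (pR B v.a))))),
    dig B n (Nat.add (Nat.mul (pF B u.a) (pR B v.d)) (Nat.add (Nat.mul (pF B u.b) (pR B v.c))
      (Nat.add (Nat.mul (pF B u.c) (pR B v.a)) (Nat.mul (pF B u.d) (pR B v.b)))))⟩

/-- the length of the four lists -/
def Len4 (n : ℕ) (w : CV4) : Prop :=
  w.a.length = n ∧ w.b.length = n ∧ w.c.length = n ∧ w.d.length = n

theorem dig4 {B n : ℕ} (hB : 0 < B) {x1 x2 x3 x4 y1 y2 y3 y4 : List ℕ} (h1 : y1.length = n)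
    (h2 : y2.length = n) (h3 : y3.length = n) (h4 : y4.length = n)
    (hS : (smN x1 + (smN x2 + (smN x3 + smN x4))) * (smN y1 + (smN y2 + (smN y3 + smN y4))) < B) :
    dig B n (Nat.add (Nat.mul (pF B x1) (pR B y1)) (Nat.add (Nat.mul (pF B x2) (pR B y2))
      (Nat.add (Nat.mul (pF B x3) (pR B y3)) (Nat.mul (pF B x4) (pR B y4)))))
      = dotN x1 y1 + (dotN x2 y2 + (dotN x3 y3 + dotN x4 y4)) := by
  have k1 := pk hB y1 x1
  have k2 := pk hB y2 x2
  have k3 := pk hB y3 x3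
  have k4 := pk hB y4 x4
  rw [h1] at k1
  rw [h2] at k2
  rw [h3] at k3
  rw [h4] at k4
  refine (k1.add (k2.add (k3.add k4))).dig (lt_of_le_of_lt ?_ hS)
  generalize smN x1 = a1
  generalize smN x2 = a2
  generalize smN x3 = a3
  generalize smN x4 = a4
  generalize smN y1 = b1
  generalize smN y2 = b2
  generalize smN y3 = b3
  generalize smN y4 = b4
  have e : (a1 + (a2 + (a3 + a4))) * (b1 + (b2 + (b3 + b4)))
      = (a1 * b1 + (a2 * b2 + (a3 * b3 + a4 * b4)))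
        + (a1 * (b2 + b3 + b4) + a2 * (b1 + b3 + b4) + a3 * (b1 + b2 + b4)
          + a4 * (b1 + b2 + b3)) := by ring
  rw [e]
  exact Nat.le_add_right _ _

theorem ip4_eq {B n : ℕ} (hB : 0 < B) {u v : CV4} (hu : Len4 n u) (hv : Len4 n v)
    (hS : sum4 u * sum4 v < B) :
    (ip4 B n u v).toC = ∑ i ∈ Finset.range n, conj (at4 u i) * at4 v i := by
  obtain ⟨u1, u2, u3, u4⟩ := hu
  obtain ⟨v1, v2, v3, v4⟩ := hv
  have hS1 : (smN u.a + (smN u.b + (smN u.c + smN u.d)))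
      * (smN v.a + (smN v.b + (smN v.c + smN v.d))) < B := hS
  have e1 := dig4 hB (x1 := u.a) (x2 := u.b) (x3 := u.c) (x4 := u.d) v1 v2 v3 v4 hS1
  have e2 := dig4 hB (x1 := u.a) (x2 := u.b) (x3 := u.c) (x4 := u.d) v2 v1 v4 v3
    (lt_of_eq_of_lt (by ring) hS1)
  have e3 := dig4 hB (x1 := u.a) (x2 := u.b) (x3 := u.c) (x4 := u.d) v3 v4 v2 v1
    (lt_of_eq_of_lt (by ring) hS1)
  have e4 := dig4 hB (x1 := u.a) (x2 := u.b) (x3 := u.c) (x4 := u.d) v4 v3 v1 v2
    (lt_of_eq_of_lt (by ring) hS1)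
  rw [ip4, e1, e2, e3, e4, G4.toC]
  apply Complex.ext
  · rw [Complex.re_sum]
    simp only [dotN_eq _ _ n u1.le, dotN_eq _ _ n u2.le, dotN_eq _ _ n u3.le, dotN_eq _ _ n u4.le]
    push_cast
    rw [← Finset.sum_add_distrib, ← Finset.sum_add_distrib, ← Finset.sum_add_distrib,
      ← Finset.sum_add_distrib, ← Finset.sum_add_distrib, ← Finset.sum_add_distrib,
      ← Finset.sum_sub_distrib]
    refine Finset.sum_congr rfl (fun i _ => ?_)
    simp only [at4, Complex.mul_re, Complex.conj_re, Complex.conj_im]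
    ring
  · rw [Complex.im_sum]
    simp only [dotN_eq _ _ n u1.le, dotN_eq _ _ n u2.le, dotN_eq _ _ n u3.le, dotN_eq _ _ n u4.le]
    push_cast
    rw [← Finset.sum_add_distrib, ← Finset.sum_add_distrib, ← Finset.sum_add_distrib,
      ← Finset.sum_add_distrib, ← Finset.sum_add_distrib, ← Finset.sum_add_distrib,
      ← Finset.sum_sub_distrib]
    refine Finset.sum_congr rfl (fun i _ => ?_)
    simp only [at4, Complex.mul_im, Complex.conj_re, Complex.conj_im]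
    ring

/-- product of a real matrix (rows `P - N`) and a complex vector -/
noncomputable def mv4 (B : ℕ) (P N : ℕ → List ℕ) (m m' : ℕ) (v : CV4) : CV4 :=
  ⟨tabG (fun i => dig B m' (Nat.add (Nat.mul (pF B (P i)) (pR B v.a))
      (Nat.mul (pF B (N i)) (pR B v.b)))) m,
    tabG (fun i => dig B m' (Nat.add (Nat.mul (pF B (P i)) (pR B v.b))
      (Nat.mul (pF B (N i)) (pR B v.a)))) m,
    tabG (fun i => dig B m' (Nat.add (Nat.mul (pF B (P i)) (pR B v.c))
      (Nat.mul (pF B (N i)) (pR B v.d)))) m,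
    tabG (fun i => dig B m' (Nat.add (Nat.mul (pF B (P i)) (pR B v.d))
      (Nat.mul (pF B (N i)) (pR B v.c)))) m⟩

theorem Len4_mv4 (B : ℕ) (P N : ℕ → List ℕ) (m m' : ℕ) (v : CV4) : Len4 m (mv4 B P N m m' v) :=
  ⟨tabG_length _ _, tabG_length _ _, tabG_length _ _, tabG_length _ _⟩

theorem dig2 {B n : ℕ} (hB : 0 < B) {x1 x2 y1 y2 : List ℕ} (h1 : y1.length = n)
    (h2 : y2.length = n) {S : ℕ} (hS : smN y1 + smN y2 ≤ S) (hSB : (smN x1 + smN x2) * S < B) :
    dig B n (Nat.add (Nat.mul (pF B x1) (pR B y1)) (Nat.mul (pF B x2) (pR B y2)))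
      = dotN x1 y1 + dotN x2 y2 := by
  have k1 := pk hB y1 x1
  have k2 := pk hB y2 x2
  rw [h1] at k1
  rw [h2] at k2
  refine (k1.add k2).dig (lt_of_le_of_lt ?_ hSB)
  refine le_trans ?_ (Nat.mul_le_mul_left _ hS)
  generalize smN x1 = a1
  generalize smN x2 = a2
  generalize smN y1 = b1
  generalize smN y2 = b2
  have e : (a1 + a2) * (b1 + b2) = (a1 * b1 + a2 * b2) + (a1 * b2 + a2 * b1) := by ring
  rw [e]
  exact Nat.le_add_right _ _

theorem mv4_at {B m m' : ℕ} (hB : 0 < B) {P N : ℕ → List ℕ} {v : CV4} (hv : Len4 m' v) {i : ℕ}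
    (hi : i < m) (hP : (P i).length ≤ m') (hN : (N i).length ≤ m')
    (hS : (smN (P i) + smN (N i)) * sum4 v < B) :
    at4 (mv4 B P N m m' v) i = ∑ j ∈ Finset.range m',
      ((((P i).getD j 0 : ℝ) - ((N i).getD j 0 : ℝ) : ℝ) : ℂ) * at4 v j := by
  obtain ⟨v1, v2, v3, v4⟩ := hv
  have e0 : sum4 v = smN v.a + (smN v.b + (smN v.c + smN v.d)) := rfl
  have e1 := dig2 hB (x1 := P i) (x2 := N i) v1 v2 (S := sum4 v) (by omega) hS
  have e2 := dig2 hB (x1 := P i) (x2 := N i) v2 v1 (S := sum4 v) (by omega) hS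
  have e3 := dig2 hB (x1 := P i) (x2 := N i) v3 v4 (S := sum4 v) (by omega) hS
  have e4 := dig2 hB (x1 := P i) (x2 := N i) v4 v3 (S := sum4 v) (by omega) hS
  rw [at4, mv4]
  simp only
  rw [tabG_getD _ _ hi, tabG_getD _ _ hi, tabG_getD _ _ hi, tabG_getD _ _ hi, e1, e2, e3, e4,
    dotN_eq _ _ m' hP, dotN_eq _ _ m' hN, dotN_eq _ _ m' hP, dotN_eq _ _ m' hN,
    dotN_eq _ _ m' hP, dotN_eq _ _ m' hN, dotN_eq _ _ m' hP, dotN_eq _ _ m' hN]
  apply Complex.ext
  · rw [Complex.re_sum]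
    simp only [Nat.cast_add, Nat.cast_sum, Nat.cast_mul]
    rw [← Finset.sum_add_distrib, ← Finset.sum_add_distrib, ← Finset.sum_sub_distrib]
    refine Finset.sum_congr rfl (fun j _ => ?_)
    rw [Complex.re_ofReal_mul]
    simp only [at4]
    ring
  · rw [Complex.im_sum]
    simp only [Nat.cast_add, Nat.cast_sum, Nat.cast_mul]
    rw [← Finset.sum_add_distrib, ← Finset.sum_add_distrib, ← Finset.sum_sub_distrib]
    refine Finset.sum_congr rfl (fun j _ => ?_)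
    rw [Complex.im_ofReal_mul]
    simp only [at4]
    ring

/-- dropping the first entry -/
noncomputable def tlN (l : List ℕ) : List ℕ :=
  List.rec (motive := fun _ => List ℕ) [] (fun _ t _ => t) l

/-- dropping the first entries of a vector -/
noncomputable def tl4 (w : CV4) : CV4 := ⟨tlN w.a, tlN w.b, tlN w.c, tlN w.d⟩

theorem tlN_getD (l : List ℕ) (i : ℕ) : (tlN l).getD i 0 = l.getD (1 + i) 0 := by
  rcases l with _ | ⟨a, l⟩
  · change ([] : List ℕ).getD i 0 = _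
    simp
  · rw [add_comm]
    rfl

theorem tlN_length (l : List ℕ) : (tlN l).length = l.length - 1 := by
  rcases l with _ | ⟨a, l⟩
  · rfl
  · change l.length = _
    rw [List.length_cons]
    omega

theorem tl4_at (w : CV4) (i : ℕ) : at4 (tl4 w) i = at4 w (1 + i) := by
  rw [at4, at4, tl4]
  simp only [tlN_getD]

theorem Len4_tl4 {n : ℕ} {w : CV4} (h : Len4 (n + 1) w) : Len4 n (tl4 w) := by
  obtain ⟨h1, h2, h3, h4⟩ := h
  refine ⟨?_, ?_, ?_, ?_⟩
  · rw [tl4]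
    simp only [tlN_length, h1]
    omega
  · rw [tl4]
    simp only [tlN_length, h2]
    omega
  · rw [tl4]
    simp only [tlN_length, h3]
    omega
  · rw [tl4]
    simp only [tlN_length, h4]
    omega

/-- the vector `w` over the denominator `a` is `u` -/
def Rel (a n : ℕ) (u : SV × SV) (w : CV4) : Prop :=
  (∀ i < n, (cget u i).toC = (((1 : ℝ) / (a : ℝ) : ℝ) : ℂ) * at4 w i) ∧ Len4 n w

theorem Rel_cdrop {a n : ℕ} {u : SV × SV} {w : CV4} (h : Rel a (n + 1) u w) :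
    Rel a n (cdrop 1 u) (tl4 w) := by
  refine ⟨fun i hi => ?_, Len4_tl4 h.2⟩
  have h1 : cget (cdrop 1 u) i = cget u (1 + i) := by
    rw [cget, cdrop, cget]
    simp only
    rw [sdrop_get, sdrop_get]
  rw [h1, tl4_at, h.1 (1 + i) (by omega)]

theorem ip_4 {a b B n : ℕ} {u v : SV × SV} {w z : CV4} (hB : 0 < B) (hu : Rel a n u w)
    (hl : SL n u) (hv : Rel b n v z) (hS : sum4 w * sum4 z < B) :
    (ip u v).toC = (((1 : ℝ) / ((a : ℝ) * (b : ℝ)) : ℝ) : ℂ) * (ip4 B n w z).toC := by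
  rw [ip_eq u v n hl.1 hl.2, ip4_eq hB hu.2 hv.2 hS, Finset.mul_sum]
  refine Finset.sum_congr rfl (fun i hi => ?_)
  have hi' := Finset.mem_range.1 hi
  rw [hu.1 i hi', hv.1 i hi', map_mul, Complex.conj_ofReal]
  push_cast
  ring

end Pool.Agent.M16.Helper65.HR2

end

section

set_option autoImplicit false

open scoped ComplexConjugate

namespace Pool.Agent.M16.Helper65.HR2

open Pool.Agent.M16.Helper24.HR2

/-- positive part of an integer times `c` -/
noncomputable def zP (z : ℤ) (c : ℕ) : ℕ :=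
  Int.rec (motive := fun _ => ℕ) (fun a => Nat.mul a c) (fun _ => 0) z

/-- negative part of an integer times `c` -/
noncomputable def zN (z : ℤ) (c : ℕ) : ℕ :=
  Int.rec (motive := fun _ => ℕ) (fun _ => 0) (fun a => Nat.mul (Nat.succ a) c) z

theorem zPN (z : ℤ) (c : ℕ) : ((zP z c : ℕ) : ℤ) - ((zN z c : ℕ) : ℤ) = z * (c : ℤ) := by
  rcases z with a | a
  · change ((a * c : ℕ) : ℤ) - ((0 : ℕ) : ℤ) = (a : ℤ) * (c : ℤ)
    push_cast
    ring
  · change ((0 : ℕ) : ℤ) - (((a + 1) * c : ℕ) : ℤ) = _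
    rw [Int.negSucc_eq]
    push_cast
    ring

/-- numerator, positive part -/
noncomputable def nP (L : ℕ) (q : ℚ) : ℕ := zP q.num (Nat.div L q.den)

/-- numerator, negative part -/
noncomputable def nN (L : ℕ) (q : ℚ) : ℕ := zN q.num (Nat.div L q.den)

theorem nPN (L : ℕ) (q : ℚ) : ((nP L q : ℕ) : ℤ) - ((nN L q : ℕ) : ℤ) = nmr L q := by
  rw [nP, nN, zPN]
  rfl

theorem nPN_eq {L : ℕ} (hL : 0 < L) {q : ℚ} (h : q.den ∣ L) :
    ((nP L q : ℝ) - (nN L q : ℝ)) = (L : ℝ) * (q : ℝ) := by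
  have h1 := nmr_eq hL h
  have hL' : ((L : ℕ) : ℚ) ≠ 0 := by exact_mod_cast hL.ne'
  have h2 : ((nmr L q : ℤ) : ℚ) = (L : ℚ) * q := by
    field_simp at h1
    linarith only [h1]
  have h3 : (((nmr L q : ℤ) : ℚ) : ℝ) = (((L : ℚ) * q : ℚ) : ℝ) := by rw [h2]
  rw [← nPN] at h3
  push_cast at h3
  exact h3

/-- a family of vectors -/
noncomputable def fam4 (f : ℕ → ℕ → GQ) (K n t : ℕ) : CV4 :=
  ⟨tabG (fun i => nP (lcdC f K n) (f i t).re) n, tabG (fun i => nN (lcdC f K n) (f i t).re) n,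
    tabG (fun i => nP (lcdC f K n) (f i t).im) n, tabG (fun i => nN (lcdC f K n) (f i t).im) n⟩

theorem Rel_fam4 (f : ℕ → ℕ → GQ) {K n t : ℕ} (ht : t < K) :
    Rel (lcdC f K n) n (cvecU f K n t) (fam4 f K n t) := by
  refine ⟨fun i hi => ?_, tabG_length _ _, tabG_length _ _, tabG_length _ _, tabG_length _ _⟩
  have h1 : (f i t).re.den ∣ lcdC f K n :=
    (den_dvd_lcd2 (fun i t => (f i t).re) K n hi ht).trans (Nat.dvd_lcm_left _ _)
  have h2 : (f i t).im.den ∣ lcdC f K n :=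
    (den_dvd_lcd2 (fun i t => (f i t).im) K n hi ht).trans (Nat.dvd_lcm_right _ _)
  have hL : (0 : ℝ) < (lcdC f K n : ℝ) := by exact_mod_cast lcdC_pos f K n
  rw [cvecU_get f K n hi ht, at4, fam4]
  simp only
  rw [tabG_getD _ _ hi, tabG_getD _ _ hi, tabG_getD _ _ hi, tabG_getD _ _ hi,
    nPN_eq (lcdC_pos f K n) h1, nPN_eq (lcdC_pos f K n) h2]
  apply Complex.ext
  · rw [Complex.re_ofReal_mul, GQ.toC_re]
    field_simp
  · rw [Complex.im_ofReal_mul, GQ.toC_im]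
    field_simp

/-- sum of all numbers of a matrix -/
noncomputable def matS (P N : ℕ → List ℕ) : ℕ → ℕ :=
  Nat.rec (motive := fun _ => ℕ) 0 (fun i ih => Nat.add ih (Nat.add (smN (P i)) (smN (N i))))

/-- sum of all numbers of a family -/
noncomputable def famS (A : ℕ → CV4) : ℕ → ℕ :=
  Nat.rec (motive := fun _ => ℕ) 0 (fun t ih => Nat.add ih (sum4 (A t)))

theorem le_matS (P N : ℕ → List ℕ) (m : ℕ) {i : ℕ} (hi : i < m) :
    smN (P i) + smN (N i) ≤ matS P N m := by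
  induction m with
  | zero => omega
  | succ m ih =>
    have e : matS P N (m + 1) = matS P N m + (smN (P m) + smN (N m)) := rfl
    rcases Nat.lt_succ_iff_lt_or_eq.1 hi with h | h
    · have := ih h
      omega
    · rw [h]
      omega

theorem le_famS (A : ℕ → CV4) (m : ℕ) {i : ℕ} (hi : i < m) : sum4 (A i) ≤ famS A m := by
  induction m with
  | zero => omega
  | succ m ih =>
    have e : famS A (m + 1) = famS A m + sum4 (A m) := rfl
    rcases Nat.lt_succ_iff_lt_or_eq.1 hi with h | h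
    · have := ih h
      omega
    · rw [h]
      omega

/-- the base -/
noncomputable def bs (S T : ℕ) : ℕ := Nat.pow 2 (Nat.succ (Nat.log2 (Nat.mul S T)))

theorem bs_pos (S T : ℕ) : 0 < bs S T := Nat.pow_pos (by norm_num)

theorem lt_bs {S T x y : ℕ} (hx : x ≤ S) (hy : y ≤ T) : x * y < bs S T := by
  refine lt_of_le_of_lt (Nat.mul_le_mul hx hy) ?_
  change S * T < 2 ^ (Nat.log2 (S * T) + 1)
  exact Nat.lt_log2_self

/-- rows of a matrix, positive parts -/
noncomputable def rwP (f : ℕ → ℕ → ℚ) (L m' i : ℕ) : List ℕ := tabG (fun j => nP L (f i j)) m'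

/-- rows of a matrix, negative parts -/
noncomputable def rwN (f : ℕ → ℕ → ℚ) (L m' i : ℕ) : List ℕ := tabG (fun j => nN L (f i j)) m'

/-- product of a matrix and a family -/
noncomputable def mvF (P N : ℕ → List ℕ) (m m' K : ℕ) (A : ℕ → CV4) (t : ℕ) : CV4 :=
  mv4 (bs (matS P N m) (famS A K)) P N m m' (A t)

/-- product of a rational matrix and a family of vectors of length `n` -/
noncomputable def mvR (f : ℕ → ℕ → ℚ) (m m' n K : ℕ) (A : ℕ → CV4) (t : ℕ) : CV4 :=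
  mvF (rwP f (lcd2 f m' m) m') (rwN f (lcd2 f m' m) m') m n K A t

theorem Rel_mvF {X : RM} {f : ℕ → ℕ → ℚ} {P N : ℕ → List ℕ} {m m' n K a t : ℕ} {u : SV × SV}
    {A : ℕ → CV4} (hn : m' ≤ n) (ht : t < K) (h : Rel a n u (A t))
    (hP : ∀ i < m, (P i).length = m') (hN : ∀ i < m, (N i).length = m')
    (hX : ∀ i < m, (cget (mvc X u) i).toC
      = ∑ j ∈ Finset.range m', ((f i j : ℝ) : ℂ) * (cget u j).toC)
    (hf : ∀ i < m, ∀ j < m', (f i j : ℝ)
      = (1 / (X.den : ℝ)) * (((P i).getD j 0 : ℝ) - ((N i).getD j 0 : ℝ))) :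
    Rel (Nat.mul X.den a) m (mvc X u) (mvF P N m n K A t) := by
  refine ⟨fun i hi => ?_, Len4_mv4 _ _ _ _ _ _⟩
  have e : ((Nat.mul X.den a : ℕ) : ℝ) = (X.den : ℝ) * (a : ℝ) := by
    change ((X.den * a : ℕ) : ℝ) = _
    push_cast
    ring
  have e2 : ∑ j ∈ Finset.range n,
      ((((P i).getD j 0 : ℝ) - ((N i).getD j 0 : ℝ) : ℝ) : ℂ) * at4 (A t) j
      = ∑ j ∈ Finset.range m',
      ((((P i).getD j 0 : ℝ) - ((N i).getD j 0 : ℝ) : ℝ) : ℂ) * at4 (A t) j := by
    refine (Finset.sum_subset (Finset.range_mono hn) (fun j _ hj => ?_)).symm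
    have hj' : m' ≤ j := by
      by_contra hh
      exact hj (Finset.mem_range.2 (by omega))
    rw [getD_of_le _ (by rw [hP i hi]; exact hj'), getD_of_le _ (by rw [hN i hi]; exact hj')]
    simp
  rw [hX i hi, mvF, mv4_at (bs_pos _ _) h.2 hi ((hP i hi).le.trans hn) ((hN i hi).le.trans hn)
    (lt_bs (le_matS P N m hi) (le_famS A K ht)), e, e2, Finset.mul_sum]
  refine Finset.sum_congr rfl (fun j hj => ?_)
  have hj' := Finset.mem_range.1 hj
  rw [hf i hi j hj', h.1 j (by omega)]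
  push_cast
  ring

theorem Rel_mvR {f : ℕ → ℕ → ℚ} {m m' n K a t : ℕ} {u : SV × SV} {A : ℕ → CV4} (hn : m' ≤ n)
    (ht : t < K) (h : Rel a n u (A t)) :
    Rel (Nat.mul (rm f m m').den a) m (mvc (rm f m m') u) (mvR f m m' n K A t) := by
  refine Rel_mvF (f := f) hn ht h (fun i _ => tabG_length _ _) (fun i _ => tabG_length _ _)
    (fun i hi => mvc_get f m m' u hi) (fun i hi j hj => ?_)
  have hL : (0 : ℝ) < (lcd2 f m' m : ℝ) := by exact_mod_cast lcd2_pos f m' m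
  rw [rwP, rwN, tabG_getD _ _ hj, tabG_getD _ _ hj,
    nPN_eq (lcd2_pos f m' m) (den_dvd_lcd2 f m' m hi hj)]
  change _ = 1 / ((lcd2 f m' m : ℕ) : ℝ) * _
  field_simp

/-- Hermitian products of two families -/
noncomputable def ipF4 (K n : ℕ) (A A' : ℕ → CV4) (r t : ℕ) : G4 :=
  ip4 (bs (famS A K) (famS A' K)) n (A r) (A' t)

theorem ip_F4 {K n a b r t : ℕ} {u v : SV × SV} {A A' : ℕ → CV4} (hr : r < K) (ht : t < K)
    (hu : Rel a n u (A r)) (hl : SL n u) (hv : Rel b n v (A' t)) :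
    (ip u v).toC = (((1 : ℝ) / ((a : ℝ) * (b : ℝ)) : ℝ) : ℂ) * (ipF4 K n A A' r t).toC :=
  ip_4 (bs_pos _ _) hu hl hv (lt_bs (le_famS A K hr) (le_famS A' K ht))

/-- one term of a form: a rational coefficient, a denominator and a matrix -/
structure TZ4 where
  /-- coefficient -/
  q : ℚ
  /-- denominator -/
  d : ℕ
  /-- matrix -/
  z : ℕ → ℕ → G4

/-- the weight of a term -/
noncomputable def wgC (L : ℕ) (T : TZ4) : ℕ := Nat.div L (Nat.mul T.q.den T.d)

/-- integral combination of terms over the common denominator `L` -/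
noncomputable def zsum4 (L : ℕ) : List TZ4 → ℕ → ℕ → G4 :=
  List.rec (motive := fun _ => ℕ → ℕ → G4) (fun _ _ => ⟨0, 0, 0, 0⟩)
    (fun T _ ih i j =>
      G4.rec (motive := fun _ => G4)
        (fun a b c d => G4.rec (motive := fun _ => G4)
          (fun a' b' c' d' =>
            ⟨Nat.add (Nat.add (Nat.mul (zP T.q.num (wgC L T)) a)
                (Nat.mul (zN T.q.num (wgC L T)) b)) a',
              Nat.add (Nat.add (Nat.mul (zP T.q.num (wgC L T)) b)
                (Nat.mul (zN T.q.num (wgC L T)) a)) b',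
              Nat.add (Nat.add (Nat.mul (zP T.q.num (wgC L T)) c)
                (Nat.mul (zN T.q.num (wgC L T)) d)) c',
              Nat.add (Nat.add (Nat.mul (zP T.q.num (wgC L T)) d)
                (Nat.mul (zN T.q.num (wgC L T)) c)) d'⟩) (ih i j)) (T.z i j))

theorem zsum4_nil (L i j : ℕ) : zsum4 L [] i j = ⟨0, 0, 0, 0⟩ := rfl

theorem zsum4_cons (L : ℕ) (T : TZ4) (l : List TZ4) (i j : ℕ) :
    zsum4 L (T :: l) i j =
      ⟨(zP T.q.num (wgC L T) * (T.z i j).a + zN T.q.num (wgC L T) * (T.z i j).b)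
          + (zsum4 L l i j).a,
        (zP T.q.num (wgC L T) * (T.z i j).b + zN T.q.num (wgC L T) * (T.z i j).a)
          + (zsum4 L l i j).b,
        (zP T.q.num (wgC L T) * (T.z i j).c + zN T.q.num (wgC L T) * (T.z i j).d)
          + (zsum4 L l i j).c,
        (zP T.q.num (wgC L T) * (T.z i j).d + zN T.q.num (wgC L T) * (T.z i j).c)
          + (zsum4 L l i j).d⟩ := rfl

/-- the rational value of a list of terms -/
noncomputable def tsum4 (l : List TZ4) (i j : ℕ) : ℂ :=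
  (l.map (fun T => (((T.q : ℝ) / (T.d : ℝ) : ℝ) : ℂ) * (T.z i j).toC)).sum

/-- common denominator of the terms -/
noncomputable def lcdT4 : List TZ4 → ℕ :=
  List.rec (motive := fun _ => ℕ) 1 (fun T _ ih => Nat.lcm (Nat.mul T.q.den T.d) ih)

theorem lcdT4_dvd (l : List TZ4) {T : TZ4} (h : T ∈ l) : Nat.mul T.q.den T.d ∣ lcdT4 l := by
  induction l with
  | nil => simp at h
  | cons T' l ih =>
    change _ ∣ Nat.lcm (Nat.mul T'.q.den T'.d) (lcdT4 l)
    rcases List.mem_cons.1 h with h | h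
    · rw [h]
      exact Nat.dvd_lcm_left _ _
    · exact (ih h).trans (Nat.dvd_lcm_right _ _)

theorem zsum4_eq {L : ℕ} (hL : 0 < L) (l : List TZ4) (h : ∀ T ∈ l, Nat.mul T.q.den T.d ∣ L)
    (i j : ℕ) : (zsum4 L l i j).toC = ((L : ℝ) : ℂ) * tsum4 l i j := by
  induction l with
  | nil =>
    rw [zsum4_nil, tsum4, G4.toC]
    simp
    rfl
  | cons T l ih =>
    have h1 := ih (fun T' hT' => h T' (List.mem_cons_of_mem _ hT'))
    have h2 := wgt_eq hL (h T (List.mem_cons_self ..))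
    have h3 : tsum4 (T :: l) i j = (((T.q : ℝ) / (T.d : ℝ) : ℝ) : ℂ) * (T.z i j).toC
        + tsum4 l i j := by
      rw [tsum4, List.map_cons, List.sum_cons, tsum4]
    have h4 : ((zP T.q.num (wgC L T) : ℕ) : ℝ) - ((zN T.q.num (wgC L T) : ℕ) : ℝ)
        = (L : ℝ) * ((T.q : ℝ) / (T.d : ℝ)) := by
      rw [← h2]
      have h5 := zPN T.q.num (wgC L T)
      have h6 : T.q.num * ((wgC L T : ℕ) : ℤ) = wgt L T.q T.d := rfl
      rw [h6] at h5
      exact_mod_cast h5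
    rw [h3, mul_add, ← h1, ← mul_assoc, ← Complex.ofReal_mul, ← h4, zsum4_cons, G4.toC, G4.toC,
      G4.toC]
    generalize zP T.q.num (wgC L T) = x
    generalize zN T.q.num (wgC L T) = y
    apply Complex.ext
    · rw [Complex.add_re, Complex.re_ofReal_mul]
      push_cast
      ring
    · rw [Complex.add_im, Complex.im_ofReal_mul]
      push_cast
      ring

/-- twice the Hermitian part, as Gaussian integer -/
noncomputable def hz4 (z : ℕ → ℕ → G4) (i j : ℕ) : GZ :=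
  G4.rec (motive := fun _ => GZ)
    (fun a b c d => G4.rec (motive := fun _ => GZ)
      (fun a' b' c' d' => ⟨Int.subNatNat (Nat.add a a') (Nat.add b b'),
        Int.subNatNat (Nat.add c d') (Nat.add d c')⟩) (z j i)) (z i j)

theorem hz4_eq (z : ℕ → ℕ → G4) (i j : ℕ) :
    (hz4 z i j).toC = (z i j).toC + conj (z j i).toC := by
  have e : hz4 z i j = ⟨Int.subNatNat ((z i j).a + (z j i).a) ((z i j).b + (z j i).b),
      Int.subNatNat ((z i j).c + (z j i).d) ((z i j).d + (z j i).c)⟩ := rfl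
  rw [e, GZ.toC_eq, Int.subNatNat_eq_coe, Int.subNatNat_eq_coe, G4.toC, G4.toC]
  apply Complex.ext
  · rw [Complex.add_re, Complex.conj_re]
    push_cast
    ring
  · rw [Complex.add_im, Complex.conj_im]
    push_cast
    ring

theorem hz4_hF (K : ℕ) (z : ℕ → ℕ → G4) (g : ℕ → ℂ) :
    uf K (fun i j => (hz4 z i j).toQ) g = 2 * hF K (fun r t => (z r t).toC) g := by
  obtain ⟨y, hy⟩ : ∃ y : ℕ → ℕ → GZ, y = fun i j => ⟨Int.subNatNat (z i j).a (z i j).b,
    Int.subNatNat (z i j).c (z i j).d⟩ := ⟨_, rfl⟩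
  have h1 : ∀ i j, (y i j).toC = (z i j).toC := by
    intro i j
    rw [hy, GZ.toC_eq]
    simp only
    rw [Int.subNatNat_eq_coe, Int.subNatNat_eq_coe, G4.toC]
    push_cast
    rfl
  have h2 := hz_hF K y g
  have h3 : (fun r t => (y r t).toC) = fun r t => (z r t).toC := by
    funext r t
    exact h1 r t
  rw [h3] at h2
  rw [← h2]
  refine uf_congr K _ _ g (fun i j _ _ => ?_)
  have h4 := hz4_eq z i j
  have h5 := hz_eq y i j
  rw [h1, h1] at h5
  exact h4.trans h5.symm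

theorem chkZ_hF4 (K : ℕ) (A B C D : ℕ → ℕ → G4) (E S M : ℚ)
    (h : chkZ K (hz4 A) (hz4 B) (hz4 C) (hz4 D) E S M = true) (g : ℕ → ℂ) :
    0 ≤ hF K (fun r t => (A r t).toC) g - (E : ℝ) * (hF K (fun r t => (B r t).toC) g
      + (S : ℝ) * hF K (fun r t => (C r t).toC) g
      + (M : ℝ) * hF K (fun r t => (D r t).toC) g) := by
  have h5 := chkZ_uf K _ _ _ _ E S M h g
  rw [hz4_hF, hz4_hF, hz4_hF, hz4_hF] at h5
  linarith only [h5]

end Pool.Agent.M16.Helper65.HR2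

end

section

set_option autoImplicit false

open MeasureTheory Set

open scoped ComplexConjugate Real

namespace Pool.Agent.M16.Helper65.HR2

open Pool.Agent.M16.Helper24.HR2

open Pool.Agent.M16.Helper22.Half (pq pq_pos)

namespace AP2

/-- the scale of the entries of the form -/
def fac2 (X : AP2) (r t : ℕ) : ℚ :=
  X.P.N * (X.P.b * (X.P.b + 1) * (X.P.b + 2)) / AP.pochQ X.P.b (2 * r + 2 * t)
    * (1 / (2 * X.P.sd) ^ (r + t))

/-- the matrix of the form -/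
def Qf2 (X : AP2) (r t : ℕ) : GQ := (X.P.Mf r t).sc (1 / X.fac2 r t)

/-- the part independent of the constants -/
noncomputable def N0 (X : AP2) (r t : ℕ) : GQ :=
  (((((ip (X.Tc r) (X.muc t)).sc 2).sub (ip (X.Tc r) (X.Gc t))).sub
    ((ip (X.Pc r) (X.Cc t)).sc (X.P.Ehi ^ 2 / X.P.tau)))).sub (X.Qf2 r t)

/-- coefficient of the main constant -/
noncomputable def B0 (X : AP2) (r t : ℕ) : GQ :=
  ((ip (X.Pc r) (X.Dc t)).add
    (((ip (X.Pc r) (X.Sc0 t)).sub (ip (X.Pc r) (X.Wc t))).sc 2)).add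
  ((((ip (X.Tc r) (X.Mc0 t)).add (ip (X.Uc r) (cdrop 1 (X.Wc t)))).sub
    ((ip (X.Uc r) (cdrop 1 (X.Sc0 t))).sc 2)).sc (1 + 1 / X.P.kap))

/-- coefficient of the main constant and the first series -/
noncomputable def B1 (X : AP2) (r t : ℕ) : GQ :=
  ((ip (X.Pc r) (X.Sc1 t)).sc 2).add
  (((ip (X.Tc r) (X.Mc1 t)).sub
    ((ip (X.Uc r) (cdrop 1 (X.Sc1 t))).sc 2)).sc (1 + 1 / X.P.kap))

/-- coefficient of the main constant and the second series -/
noncomputable def B2 (X : AP2) (r t : ℕ) : GQ :=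
  (ip (X.Tc r) (X.Mc2 t)).sc (1 + 1 / X.P.kap)

/-- numerical conditions -/
def c6 (X : AP2) : Bool :=
  decide (X.N + 1 ≤ 2 * X.K) && decide (1 ≤ X.N) && decide (X.P.D ≤ X.N)

/-- denominators of the families -/
noncomputable def dT (X : AP2) : ℕ := lcdC X.P.Tf X.K X.N

/-- denominators of the families -/
noncomputable def dmu (X : AP2) : ℕ := lcdC (muQ X.P.s) X.K X.N

/-- denominators of the families -/
noncomputable def dP (X : AP2) : ℕ := lcdC (phQ X.P.s X.P.D X.P.pf) X.K (X.P.D + 1)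

/-- denominators of the families -/
noncomputable def dG (X : AP2) : ℕ :=
  Nat.mul (rm (fun i j => gmQ X.P.s.re X.P.b (i + j)) X.N X.N).den X.dT

/-- denominators of the families -/
noncomputable def dU (X : AP2) : ℕ := Nat.mul (rm (fun l n => X.P.pf n l) X.P.D X.P.D).den X.dG

/-- denominators of the families -/
noncomputable def dM0 (X : AP2) : ℕ :=
  Nat.mul (rm (fun i j => (mmQ X.P.s.re X.P.b i j).c0) X.N X.N).den X.dT

/-- denominators of the families -/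
noncomputable def dM1 (X : AP2) : ℕ :=
  Nat.mul (rm (fun i j => (mmQ X.P.s.re X.P.b i j).c1) X.N X.N).den X.dT

/-- denominators of the families -/
noncomputable def dM2 (X : AP2) : ℕ :=
  Nat.mul (rm (fun i j => (mmQ X.P.s.re X.P.b i j).c2) X.N X.N).den X.dT

/-- denominators of the families -/
noncomputable def dS0 (X : AP2) : ℕ :=
  Nat.mul (rm (fun l n => (ssQ X.P.s.re X.P.b n l).1 - (ssQ X.P.s.re X.P.b n (l + 1)).1)
    (X.P.D + 1) X.N).den X.dT

/-- denominators of the families -/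
noncomputable def dS1 (X : AP2) : ℕ :=
  Nat.mul (rm (fun l n => (ssQ X.P.s.re X.P.b n l).2 - (ssQ X.P.s.re X.P.b n (l + 1)).2)
    (X.P.D + 1) X.N).den X.dT

/-- denominators of the families -/
noncomputable def dW (X : AP2) : ℕ :=
  Nat.mul (rm (fun l m => wQ X.P.b (l + m + 1)) (X.P.D + 1) X.P.D).den X.dU

/-- denominators of the families -/
noncomputable def dD (X : AP2) : ℕ :=
  Nat.mul (rm (fun l k => wQ X.P.b (l + k)) (X.P.D + 1) (X.P.D + 1)).den X.dP

/-- denominators of the families -/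
noncomputable def dC (X : AP2) : ℕ :=
  Nat.mul (wwM X.P.s.re X.P.b X.P.D X.P.pf X.P.J2 X.P.th).den X.dP

/-- denominator of the matrix of the form -/
noncomputable def dQ (X : AP2) : ℕ := lcdC X.Qf2 X.K X.K

/-- the factor of the Gram form -/
def ck (X : AP2) : ℚ := 1 + 1 / X.P.kap

/-- test vectors -/
noncomputable def T4 (X : AP2) : ℕ → CV4 := fam4 X.P.Tf X.K X.N

/-- the functionals -/
noncomputable def mu4 (X : AP2) : ℕ → CV4 := fam4 (muQ X.P.s) X.K X.N

/-- the inner function -/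
noncomputable def P4 (X : AP2) : ℕ → CV4 := fam4 (phQ X.P.s X.P.D X.P.pf) X.K (X.P.D + 1)

/-- moments of the test vectors -/
noncomputable def G4f (X : AP2) : ℕ → CV4 :=
  mvR (fun i j => gmQ X.P.s.re X.P.b (i + j)) X.N X.N X.N X.K X.T4

/-- projections -/
noncomputable def U4 (X : AP2) : ℕ → CV4 := mvR (fun l n => X.P.pf n l) X.P.D X.P.D X.N X.K X.G4f

/-- Gram matrix, constant part -/
noncomputable def M04 (X : AP2) : ℕ → CV4 :=
  mvR (fun i j => (mmQ X.P.s.re X.P.b i j).c0) X.N X.N X.N X.K X.T4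

/-- Gram matrix, first part -/
noncomputable def M14 (X : AP2) : ℕ → CV4 :=
  mvR (fun i j => (mmQ X.P.s.re X.P.b i j).c1) X.N X.N X.N X.K X.T4

/-- Gram matrix, second part -/
noncomputable def M24 (X : AP2) : ℕ → CV4 :=
  mvR (fun i j => (mmQ X.P.s.re X.P.b i j).c2) X.N X.N X.N X.K X.T4

/-- differences of the series, constant part -/
noncomputable def S04 (X : AP2) : ℕ → CV4 :=
  mvR (fun l n => (ssQ X.P.s.re X.P.b n l).1 - (ssQ X.P.s.re X.P.b n (l + 1)).1)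
    (X.P.D + 1) X.N X.N X.K X.T4

/-- differences of the series, linear part -/
noncomputable def S14 (X : AP2) : ℕ → CV4 :=
  mvR (fun l n => (ssQ X.P.s.re X.P.b n l).2 - (ssQ X.P.s.re X.P.b n (l + 1)).2)
    (X.P.D + 1) X.N X.N X.K X.T4

/-- weighted projections -/
noncomputable def W4 (X : AP2) : ℕ → CV4 :=
  mvR (fun l m => wQ X.P.b (l + m + 1)) (X.P.D + 1) X.P.D X.P.D X.K X.U4

/-- its main part -/
noncomputable def D4 (X : AP2) : ℕ → CV4 :=
  mvR (fun l k => wQ X.P.b (l + k)) (X.P.D + 1) (X.P.D + 1) (X.P.D + 1) X.K X.P4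

/-- rows of the cross matrix -/
noncomputable def wP4 (X : AP2) (l : ℕ) : List ℕ :=
  tabG (fun k => zP (wwE X.P.s.re X.P.b X.P.D X.P.pf X.P.J2 X.P.th l k) 1) (Nat.succ X.P.D)

/-- rows of the cross matrix -/
noncomputable def wN4 (X : AP2) (l : ℕ) : List ℕ :=
  tabG (fun k => zN (wwE X.P.s.re X.P.b X.P.D X.P.pf X.P.J2 X.P.th l k) 1) (Nat.succ X.P.D)

/-- its cross part -/
noncomputable def C4 (X : AP2) : ℕ → CV4 :=
  mvF X.wP4 X.wN4 (X.P.D + 1) (X.P.D + 1) X.K X.P4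

section rel

variable (X : AP2) {t : ℕ} (ht : t < X.K)

include ht

theorem rT : Rel X.dT X.N (X.Tc t) (X.T4 t) := Rel_fam4 _ ht

theorem rmu : Rel X.dmu X.N (X.muc t) (X.mu4 t) := Rel_fam4 _ ht

theorem rP : Rel X.dP (X.P.D + 1) (X.Pc t) (X.P4 t) := Rel_fam4 _ ht

theorem rG : Rel X.dG X.N (X.Gc t) (X.G4f t) := Rel_mvR le_rfl ht (X.rT ht)

theorem rM0 : Rel X.dM0 X.N (X.Mc0 t) (X.M04 t) := Rel_mvR le_rfl ht (X.rT ht)

theorem rM1 : Rel X.dM1 X.N (X.Mc1 t) (X.M14 t) := Rel_mvR le_rfl ht (X.rT ht)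

theorem rM2 : Rel X.dM2 X.N (X.Mc2 t) (X.M24 t) := Rel_mvR le_rfl ht (X.rT ht)

theorem rS0 : Rel X.dS0 (X.P.D + 1) (X.Sc0 t) (X.S04 t) := Rel_mvR le_rfl ht (X.rT ht)

theorem rS1 : Rel X.dS1 (X.P.D + 1) (X.Sc1 t) (X.S14 t) := Rel_mvR le_rfl ht (X.rT ht)

theorem rU (hD : X.P.D ≤ X.N) : Rel X.dU X.P.D (X.Uc t) (X.U4 t) := Rel_mvR hD ht (X.rG ht)

theorem rW (hD : X.P.D ≤ X.N) : Rel X.dW (X.P.D + 1) (X.Wc t) (X.W4 t) :=
  Rel_mvR le_rfl ht (X.rU ht hD)

theorem rD : Rel X.dD (X.P.D + 1) (X.Dc t) (X.D4 t) := Rel_mvR le_rfl ht (X.rP ht)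

theorem rC : Rel X.dC (X.P.D + 1) (X.Cc t) (X.C4 t) := by
  refine Rel_mvF (X := wwM X.P.s.re X.P.b X.P.D X.P.pf X.P.J2 X.P.th)
    (f := fun i j => (wwE X.P.s.re X.P.b X.P.D X.P.pf X.P.J2 X.P.th i j : ℚ)
      / ((wwM X.P.s.re X.P.b X.P.D X.P.pf X.P.J2 X.P.th).den : ℕ)) le_rfl ht (X.rP ht)
    (fun i _ => tabG_length _ _) (fun i _ => tabG_length _ _)
    (fun i hi => mvc_get' (wwM X.P.s.re X.P.b X.P.D X.P.pf X.P.J2 X.P.th).den
        (wwE X.P.s.re X.P.b X.P.D X.P.pf X.P.J2 X.P.th) (X.P.D + 1) (X.P.D + 1) (X.Pc t) hi)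
    (fun i hi j hj => ?_)
  rw [wP4, wN4, tabG_getD _ _ hj, tabG_getD _ _ hj]
  have h1 := zPN (wwE X.P.s.re X.P.b X.P.D X.P.pf X.P.J2 X.P.th i j) 1
  have h2 : ((zP (wwE X.P.s.re X.P.b X.P.D X.P.pf X.P.J2 X.P.th i j) 1 : ℕ) : ℝ)
      - ((zN (wwE X.P.s.re X.P.b X.P.D X.P.pf X.P.J2 X.P.th i j) 1 : ℕ) : ℝ)
      = (wwE X.P.s.re X.P.b X.P.D X.P.pf X.P.J2 X.P.th i j : ℝ) := by
    rw [Nat.cast_one, mul_one] at h1
    exact_mod_cast h1
  rw [h2]
  push_cast
  ring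

end rel

/-- terms of the part independent of the constants -/
noncomputable def lA (X : AP2) : List TZ4 :=
  [⟨2, Nat.mul X.dT X.dmu, ipF4 X.K X.N X.T4 X.mu4⟩,
    ⟨-1, Nat.mul X.dT X.dG, ipF4 X.K X.N X.T4 X.G4f⟩,
    ⟨-(X.P.Ehi ^ 2 / X.P.tau), Nat.mul X.dP X.dC, ipF4 X.K (X.P.D + 1) X.P4 X.C4⟩,
    ⟨-1, X.dQ, fun r t => ⟨nP X.dQ (X.Qf2 r t).re, nN X.dQ (X.Qf2 r t).re,
      nP X.dQ (X.Qf2 r t).im, nN X.dQ (X.Qf2 r t).im⟩⟩]

/-- terms of the coefficient of the main constant -/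
noncomputable def lB (X : AP2) : List TZ4 :=
  [⟨1, Nat.mul X.dP X.dD, ipF4 X.K (X.P.D + 1) X.P4 X.D4⟩,
    ⟨2, Nat.mul X.dP X.dS0, ipF4 X.K (X.P.D + 1) X.P4 X.S04⟩,
    ⟨-2, Nat.mul X.dP X.dW, ipF4 X.K (X.P.D + 1) X.P4 X.W4⟩,
    ⟨X.ck, Nat.mul X.dT X.dM0, ipF4 X.K X.N X.T4 X.M04⟩,
    ⟨X.ck, Nat.mul X.dU X.dW, ipF4 X.K X.P.D X.U4 (fun t => tl4 (X.W4 t))⟩,
    ⟨-2 * X.ck, Nat.mul X.dU X.dS0, ipF4 X.K X.P.D X.U4 (fun t => tl4 (X.S04 t))⟩]

/-- terms of the coefficient of the main constant and the first series -/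
noncomputable def lC (X : AP2) : List TZ4 :=
  [⟨2, Nat.mul X.dP X.dS1, ipF4 X.K (X.P.D + 1) X.P4 X.S14⟩,
    ⟨X.ck, Nat.mul X.dT X.dM1, ipF4 X.K X.N X.T4 X.M14⟩,
    ⟨-2 * X.ck, Nat.mul X.dU X.dS1, ipF4 X.K X.P.D X.U4 (fun t => tl4 (X.S14 t))⟩]

/-- terms of the coefficient of the main constant and the second series -/
noncomputable def lD (X : AP2) : List TZ4 :=
  [⟨X.ck, Nat.mul X.dT X.dM2, ipF4 X.K X.N X.T4 X.M24⟩]

/-- the common denominator -/
noncomputable def LL (X : AP2) : ℕ :=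
  Nat.lcm (Nat.lcm (lcdT4 X.lA) (lcdT4 X.lB)) (Nat.lcm (lcdT4 X.lC) (lcdT4 X.lD))

/-- positivity at a corner -/
noncomputable def cc (X : AP2) (E S M : ℚ) : Bool :=
  decide (0 < X.LL) && chkZ X.K (hz4 (zsum4 X.LL X.lA)) (hz4 (zsum4 X.LL X.lB))
    (hz4 (zsum4 X.LL X.lC)) (hz4 (zsum4 X.LL X.lD)) E S M

theorem tsum_lA (X : AP2) {r t : ℕ} (hr : r < X.K) (ht : t < X.K) :
    tsum4 X.lA r t = (X.N0 r t).toC := by
  have hd0 : 0 < X.dQ := lcdC_pos _ _ _
  have hq : (⟨nP X.dQ (X.Qf2 r t).re, nN X.dQ (X.Qf2 r t).re, nP X.dQ (X.Qf2 r t).im,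
      nN X.dQ (X.Qf2 r t).im⟩ : G4).toC = (((X.dQ : ℕ) : ℝ) : ℂ) * (X.Qf2 r t).toC := by
    have h1 : (X.Qf2 r t).re.den ∣ X.dQ :=
      (den_dvd_lcd2 (fun i t => (X.Qf2 i t).re) X.K X.K hr ht).trans (Nat.dvd_lcm_left _ _)
    have h2 : (X.Qf2 r t).im.den ∣ X.dQ :=
      (den_dvd_lcd2 (fun i t => (X.Qf2 i t).im) X.K X.K hr ht).trans (Nat.dvd_lcm_right _ _)
    rw [G4.toC]
    apply Complex.ext
    · rw [Complex.re_ofReal_mul, GQ.toC_re]
      exact nPN_eq hd0 h1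
    · rw [Complex.im_ofReal_mul, GQ.toC_im]
      exact nPN_eq hd0 h2
  have hd : ((X.dQ : ℕ) : ℂ) ≠ 0 := by exact_mod_cast hd0.ne'
  have hi : ((X.dQ : ℕ) : ℂ) * ((X.dQ : ℕ) : ℂ)⁻¹ = 1 := mul_inv_cancel₀ hd
  have e : ∀ x y : ℕ, ((Nat.mul x y : ℕ) : ℝ) = (x : ℝ) * (y : ℝ) := fun x y => by
    change ((x * y : ℕ) : ℝ) = _
    push_cast
    ring
  rw [N0, GQ.toC_sub, GQ.toC_sub, GQ.toC_sub, GQ.toC_sc, GQ.toC_sc,
    ip_F4 hr ht (X.rT hr) (SL_cvecU _ _ _ _) (X.rmu ht),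
    ip_F4 hr ht (X.rT hr) (SL_cvecU _ _ _ _) (X.rG ht),
    ip_F4 hr ht (X.rP hr) (SL_cvecU _ _ _ _) (X.rC ht)]
  simp only [tsum4, lA, List.map_cons, List.map_nil, List.sum_cons, List.sum_nil, hq, e]
  push_cast
  linear_combination (-(X.Qf2 r t).toC) * hi

theorem tsum_lB (X : AP2) (hD : X.P.D ≤ X.N) {r t : ℕ} (hr : r < X.K) (ht : t < X.K) :
    tsum4 X.lB r t = (X.B0 r t).toC := by
  have e : ∀ x y : ℕ, ((Nat.mul x y : ℕ) : ℝ) = (x : ℝ) * (y : ℝ) := fun x y => by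
    change ((x * y : ℕ) : ℝ) = _
    push_cast
    ring
  rw [B0, GQ.toC_add, GQ.toC_add, GQ.toC_sc, GQ.toC_sub, GQ.toC_sc, GQ.toC_sub, GQ.toC_add,
    GQ.toC_sc, ip_F4 hr ht (X.rP hr) (SL_cvecU _ _ _ _) (X.rD ht),
    ip_F4 hr ht (X.rP hr) (SL_cvecU _ _ _ _) (X.rS0 ht),
    ip_F4 hr ht (X.rP hr) (SL_cvecU _ _ _ _) (X.rW ht hD),
    ip_F4 hr ht (X.rT hr) (SL_cvecU _ _ _ _) (X.rM0 ht),
    ip_F4 (A' := fun t => tl4 (X.W4 t)) hr ht (X.rU hr hD) (SL_mvc _ _ _ _)
      (Rel_cdrop (X.rW ht hD)),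
    ip_F4 (A' := fun t => tl4 (X.S04 t)) hr ht (X.rU hr hD) (SL_mvc _ _ _ _)
      (Rel_cdrop (X.rS0 ht))]
  simp only [tsum4, lB, List.map_cons, List.map_nil, List.sum_cons, List.sum_nil, e, ck]
  push_cast
  ring

theorem tsum_lC (X : AP2) (hD : X.P.D ≤ X.N) {r t : ℕ} (hr : r < X.K) (ht : t < X.K) :
    tsum4 X.lC r t = (X.B1 r t).toC := by
  have e : ∀ x y : ℕ, ((Nat.mul x y : ℕ) : ℝ) = (x : ℝ) * (y : ℝ) := fun x y => by
    change ((x * y : ℕ) : ℝ) = _
    push_cast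
    ring
  rw [B1, GQ.toC_add, GQ.toC_sc, GQ.toC_sc, GQ.toC_sub, GQ.toC_sc,
    ip_F4 hr ht (X.rP hr) (SL_cvecU _ _ _ _) (X.rS1 ht),
    ip_F4 hr ht (X.rT hr) (SL_cvecU _ _ _ _) (X.rM1 ht),
    ip_F4 (A' := fun t => tl4 (X.S14 t)) hr ht (X.rU hr hD) (SL_mvc _ _ _ _)
      (Rel_cdrop (X.rS1 ht))]
  simp only [tsum4, lC, List.map_cons, List.map_nil, List.sum_cons, List.sum_nil, e, ck]
  push_cast
  ring

theorem tsum_lD (X : AP2) {r t : ℕ} (hr : r < X.K) (ht : t < X.K) :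
    tsum4 X.lD r t = (X.B2 r t).toC := by
  have e : ∀ x y : ℕ, ((Nat.mul x y : ℕ) : ℝ) = (x : ℝ) * (y : ℝ) := fun x y => by
    change ((x * y : ℕ) : ℝ) = _
    push_cast
    ring
  rw [B2, GQ.toC_sc, ip_F4 hr ht (X.rT hr) (SL_cvecU _ _ _ _) (X.rM2 ht)]
  simp only [tsum4, lD, List.map_cons, List.map_nil, List.sum_cons, List.sum_nil, e, ck]
  push_cast
  ring

theorem cc_sound (X : AP2) (hD : X.P.D ≤ X.N) (E S M : ℚ) (h : X.cc E S M = true) (g : ℕ → ℂ) :
    0 ≤ hF X.K (fun r t => (X.N0 r t).toC) g - (E : ℝ) * (hF X.K (fun r t => (X.B0 r t).toC) g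
      + (S : ℝ) * hF X.K (fun r t => (X.B1 r t).toC) g
      + (M : ℝ) * hF X.K (fun r t => (X.B2 r t).toC) g) := by
  rw [cc, Bool.and_eq_true, decide_eq_true_eq] at h
  obtain ⟨h0, h1⟩ := h
  have h2 := chkZ_hF4 _ _ _ _ _ _ _ _ h1 g
  have hA : lcdT4 X.lA ∣ X.LL := (Nat.dvd_lcm_left _ _).trans (Nat.dvd_lcm_left _ _)
  have hB : lcdT4 X.lB ∣ X.LL := (Nat.dvd_lcm_right _ _).trans (Nat.dvd_lcm_left _ _)
  have hC : lcdT4 X.lC ∣ X.LL := (Nat.dvd_lcm_left _ _).trans (Nat.dvd_lcm_right _ _)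
  have hD' : lcdT4 X.lD ∣ X.LL := (Nat.dvd_lcm_right _ _).trans (Nat.dvd_lcm_right _ _)
  have kA : hF X.K (fun r t => (zsum4 X.LL X.lA r t).toC) g
      = (X.LL : ℝ) * hF X.K (fun r t => (X.N0 r t).toC) g := by
    rw [← hF_smul]
    refine hF_congr _ _ _ _ (fun r t hr ht => ?_)
    rw [zsum4_eq h0 X.lA (fun T hT => (lcdT4_dvd X.lA hT).trans hA), X.tsum_lA hr ht]
  have kB : hF X.K (fun r t => (zsum4 X.LL X.lB r t).toC) g
      = (X.LL : ℝ) * hF X.K (fun r t => (X.B0 r t).toC) g := by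
    rw [← hF_smul]
    refine hF_congr _ _ _ _ (fun r t hr ht => ?_)
    rw [zsum4_eq h0 X.lB (fun T hT => (lcdT4_dvd X.lB hT).trans hB), X.tsum_lB hD hr ht]
  have kC : hF X.K (fun r t => (zsum4 X.LL X.lC r t).toC) g
      = (X.LL : ℝ) * hF X.K (fun r t => (X.B1 r t).toC) g := by
    rw [← hF_smul]
    refine hF_congr _ _ _ _ (fun r t hr ht => ?_)
    rw [zsum4_eq h0 X.lC (fun T hT => (lcdT4_dvd X.lC hT).trans hC), X.tsum_lC hD hr ht]
  have kD : hF X.K (fun r t => (zsum4 X.LL X.lD r t).toC) g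
      = (X.LL : ℝ) * hF X.K (fun r t => (X.B2 r t).toC) g := by
    rw [← hF_smul]
    refine hF_congr _ _ _ _ (fun r t hr ht => ?_)
    rw [zsum4_eq h0 X.lD (fun T hT => (lcdT4_dvd X.lD hT).trans hD'), X.tsum_lD hr ht]
  rw [kA, kB, kC, kD] at h2
  have h3 : (0 : ℝ) < (X.LL : ℝ) := by exact_mod_cast h0
  refine nonneg_of_mul_nonneg_right (a := (X.LL : ℝ)) ?_ h3
  linarith only [h2]

/-- positivity at all corners -/
noncomputable def c7 (X : AP2) : Bool :=
  X.cc X.P.Elo X.P.Slo X.Mlo && X.cc X.P.Elo X.P.Shi X.Mlo &&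
  X.cc X.P.Ehi X.P.Slo X.Mlo && X.cc X.P.Ehi X.P.Shi X.Mlo &&
  X.cc X.P.Elo X.P.Slo X.Mhi && X.cc X.P.Elo X.P.Shi X.Mhi &&
  X.cc X.P.Ehi X.P.Slo X.Mhi && X.cc X.P.Ehi X.P.Shi X.Mhi

/-- the form -/
noncomputable def QC2 (X : AP2) (r t : ℕ) : ℂ := (X.Qf2 r t).toC

theorem fm_B (X : AP2) (g : ℕ → ℂ) (hD : X.P.D ≤ X.N) (hs : -1 < X.P.sC.re) (hb : 0 < (X.P.b : ℝ))
    (hσ : 0 < (X.P.b : ℝ) + 1 - 2 * X.P.sC.re) :
    hF X.K (fun r t => (X.B0 r t).toC) g
        + SS X.P.sC X.P.bR 0 1 * hF X.K (fun r t => (X.B1 r t).toC) g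
        + MM X.P.sC X.P.bR 0 0 * hF X.K (fun r t => (X.B2 r t).toC) g
      = Nmain X.P.bR X.P.D (FF X.P.sC X.P.D X.P.pR (muS X.P.sC X.K g))
        + Nx X.P.sC X.P.bR X.P.D X.N X.P.pR (FF X.P.sC X.P.D X.P.pR (muS X.P.sC X.K g))
          (Tg X.K X.P.TC g)
        + (1 + 1 / (X.P.kap : ℝ)) * gamR X.P.sC X.P.bR X.N X.P.D X.P.pR (Tg X.K X.P.TC g) := by
  obtain ⟨S, hS⟩ : ∃ S, S = SS X.P.sC X.P.bR 0 1 := ⟨_, rfl⟩
  obtain ⟨M, hM⟩ : ∃ M, M = MM X.P.sC X.P.bR 0 0 := ⟨_, rfl⟩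
  obtain ⟨c, hc⟩ : ∃ c : ℝ, c = 1 + 1 / (X.P.kap : ℝ) := ⟨_, rfl⟩
  have hcq : (((1 + 1 / X.P.kap : ℚ) : ℝ)) = c := by rw [hc]; push_cast; ring
  -- expansions of the three matrices
  have e0 : hF X.K (fun r t => (X.B0 r t).toC) g
      = hF X.K (fun r t => (ip (X.Pc r) (X.Dc t)).toC) g
        + 2 * (hF X.K (fun r t => (ip (X.Pc r) (X.Sc0 t)).toC) g
          - hF X.K (fun r t => (ip (X.Pc r) (X.Wc t)).toC) g)
        + c * (hF X.K (fun r t => (ip (X.Tc r) (X.Mc0 t)).toC) g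
          + hF X.K (fun r t => (ip (X.Uc r) (cdrop 1 (X.Wc t))).toC) g
          - 2 * hF X.K (fun r t => (ip (X.Uc r) (cdrop 1 (X.Sc0 t))).toC) g) := by
    have : (fun r t => (X.B0 r t).toC) = fun r t =>
        ((ip (X.Pc r) (X.Dc t)).toC + ((2 : ℝ) : ℂ) * ((ip (X.Pc r) (X.Sc0 t)).toC
          - (ip (X.Pc r) (X.Wc t)).toC))
        + (c : ℂ) * (((ip (X.Tc r) (X.Mc0 t)).toC + (ip (X.Uc r) (cdrop 1 (X.Wc t))).toC)
          - ((2 : ℝ) : ℂ) * (ip (X.Uc r) (cdrop 1 (X.Sc0 t))).toC) := by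
      funext r t
      rw [B0, GQ.toC_add, GQ.toC_add, GQ.toC_sc, GQ.toC_sub, GQ.toC_sc, GQ.toC_sub, GQ.toC_add,
        GQ.toC_sc, hcq]
      norm_num
    rw [this, hF_add, hF_add, hF_smul, hF_smul, hF_sub, hF_sub, hF_add, hF_smul]
  have e1 : hF X.K (fun r t => (X.B1 r t).toC) g
      = 2 * hF X.K (fun r t => (ip (X.Pc r) (X.Sc1 t)).toC) g
        + c * (hF X.K (fun r t => (ip (X.Tc r) (X.Mc1 t)).toC) g
          - 2 * hF X.K (fun r t => (ip (X.Uc r) (cdrop 1 (X.Sc1 t))).toC) g) := by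
    have : (fun r t => (X.B1 r t).toC) = fun r t =>
        ((2 : ℝ) : ℂ) * (ip (X.Pc r) (X.Sc1 t)).toC
        + (c : ℂ) * ((ip (X.Tc r) (X.Mc1 t)).toC
          - ((2 : ℝ) : ℂ) * (ip (X.Uc r) (cdrop 1 (X.Sc1 t))).toC) := by
      funext r t
      rw [B1, GQ.toC_add, GQ.toC_sc, GQ.toC_sc, GQ.toC_sub, GQ.toC_sc, hcq]
      norm_num
    rw [this, hF_add, hF_smul, hF_smul, hF_sub, hF_smul]
  have e2 : hF X.K (fun r t => (X.B2 r t).toC) g
      = c * hF X.K (fun r t => (ip (X.Tc r) (X.Mc2 t)).toC) g := by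
    have : (fun r t => (X.B2 r t).toC) = fun r t =>
        (c : ℂ) * (ip (X.Tc r) (X.Mc2 t)).toC := by
      funext r t
      rw [B2, GQ.toC_sc, hcq]
    rw [this, hF_smul]
  -- the products
  have p1 : ∀ A : ℕ → SV × SV, hF X.K (fun r t => (ip (X.Pc r) (A t)).toC) g
      = ∑ l ∈ Finset.range (X.P.D + 1), (fnl X.K A g l * conj (fnl X.K X.Pc g l)).re :=
    fun A => ipF_eq X.K (X.P.D + 1) X.Pc A (fun r => SL_cvecU _ _ _ _) g
  have p2 : ∀ A : ℕ → SV × SV, hF X.K (fun r t => (ip (X.Tc r) (A t)).toC) g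
      = ∑ l ∈ Finset.range X.N, (fnl X.K A g l * conj (fnl X.K X.Tc g l)).re :=
    fun A => ipF_eq X.K X.N X.Tc A (fun r => SL_cvecU _ _ _ _) g
  have p3 : ∀ A : ℕ → SV × SV, hF X.K (fun r t => (ip (X.Uc r) (cdrop 1 (A t))).toC) g
      = ∑ l ∈ Finset.range X.P.D, (fnl X.K A g (1 + l) * conj (fnl X.K X.Uc g l)).re := by
    intro A
    have := ipF_eq X.K X.P.D X.Uc (fun t => cdrop 1 (A t)) (fun r => SL_mvc _ _ _ _) g
    rw [this]
    refine Finset.sum_congr rfl (fun l _ => ?_)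
    rw [fnl_cdrop]
  rw [← hS, ← hM, e0, e1, e2, fm_D, p1, p1, p1, p2, p2, p2, p3, p3, p3,
    Nx_eq2 (b := X.P.bR) hs hb hσ, gamR_eq (b := X.P.bR) hs hb hσ, ← hc]
  -- the pieces
  have q1 : ∑ l ∈ Finset.range (X.P.D + 1), (fnl X.K X.Sc0 g l * conj (fnl X.K X.Pc g l)).re
      + S * ∑ l ∈ Finset.range (X.P.D + 1), (fnl X.K X.Sc1 g l * conj (fnl X.K X.Pc g l)).re
      - ∑ l ∈ Finset.range (X.P.D + 1), (fnl X.K X.Wc g l * conj (fnl X.K X.Pc g l)).re
      = ∑ l ∈ Finset.range (X.P.D + 1), ((VV X.P.sC X.P.bR X.N (Tg X.K X.P.TC g) l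
        - ∑ m ∈ Finset.range X.P.D,
          ((1 / ((X.P.bR + l + m + 1) * (X.P.bR + l + m + 2)) : ℝ) : ℂ)
          * UU X.P.sC X.P.bR X.N X.P.D X.P.pR (Tg X.K X.P.TC g) m)
          * conj (FF X.P.sC X.P.D X.P.pR (muS X.P.sC X.K g) l)).re := by
    rw [Finset.mul_sum, ← Finset.sum_add_distrib, ← Finset.sum_sub_distrib]
    refine Finset.sum_congr rfl (fun l hl => ?_)
    have hl' := Finset.mem_range.1 hl
    rw [← X.fSc g hl' hs hb hσ, ← X.fWc g hD hl', X.fPc g hl', ← hS]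
    rw [sub_mul, add_mul, Complex.sub_re, Complex.add_re, mul_assoc (S : ℂ),
      Complex.re_ofReal_mul]
  have q2 : ∑ n ∈ Finset.range X.N, (fnl X.K X.Mc0 g n * conj (fnl X.K X.Tc g n)).re
      + S * ∑ n ∈ Finset.range X.N, (fnl X.K X.Mc1 g n * conj (fnl X.K X.Tc g n)).re
      + M * ∑ n ∈ Finset.range X.N, (fnl X.K X.Mc2 g n * conj (fnl X.K X.Tc g n)).re
      = ∑ n ∈ Finset.range X.N, ∑ k ∈ Finset.range X.N, MM X.P.sC X.P.bR n k
        * (Tg X.K X.P.TC g n * conj (Tg X.K X.P.TC g k)).re := by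
    rw [Finset.mul_sum, Finset.mul_sum, ← Finset.sum_add_distrib, ← Finset.sum_add_distrib]
    refine Finset.sum_congr rfl (fun n hn => ?_)
    have hn' := Finset.mem_range.1 hn
    have h3 := X.fMc g hn' hs hb hσ
    rw [← hS, ← hM] at h3
    have h4 : (fnl X.K X.Mc0 g n * conj (fnl X.K X.Tc g n)).re
        + S * (fnl X.K X.Mc1 g n * conj (fnl X.K X.Tc g n)).re
        + M * (fnl X.K X.Mc2 g n * conj (fnl X.K X.Tc g n)).re
        = ((fnl X.K X.Mc0 g n + (S : ℂ) * fnl X.K X.Mc1 g n + (M : ℂ) * fnl X.K X.Mc2 g n)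
          * conj (fnl X.K X.Tc g n)).re := by
      rw [add_mul, add_mul, Complex.add_re, Complex.add_re, mul_assoc (S : ℂ),
        Complex.re_ofReal_mul, mul_assoc (M : ℂ), Complex.re_ofReal_mul]
    rw [h4, h3, X.fTc g hn', Finset.sum_mul, Complex.re_sum]
    refine Finset.sum_congr rfl (fun k _ => ?_)
    rw [mul_assoc, Complex.re_ofReal_mul, re_symm]
  have q3 : ∑ l ∈ Finset.range X.P.D, (fnl X.K X.Sc0 g (1 + l) * conj (fnl X.K X.Uc g l)).re
      + S * ∑ l ∈ Finset.range X.P.D, (fnl X.K X.Sc1 g (1 + l) * conj (fnl X.K X.Uc g l)).re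
      = ∑ l ∈ Finset.range X.P.D, (VV X.P.sC X.P.bR X.N (Tg X.K X.P.TC g) (l + 1)
        * conj (UU X.P.sC X.P.bR X.N X.P.D X.P.pR (Tg X.K X.P.TC g) l)).re := by
    rw [Finset.mul_sum, ← Finset.sum_add_distrib]
    refine Finset.sum_congr rfl (fun l hl => ?_)
    have hl' := Finset.mem_range.1 hl
    have h3 := X.fSc g (l := l + 1) (by omega) hs hb hσ
    rw [← h3, X.fUc g hD hl', ← hS, add_comm 1 l]
    rw [add_mul, Complex.add_re, mul_assoc (S : ℂ), Complex.re_ofReal_mul]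
  have q4 : ∑ l ∈ Finset.range X.P.D, (fnl X.K X.Wc g (1 + l) * conj (fnl X.K X.Uc g l)).re
      = ∑ l ∈ Finset.range X.P.D, ∑ l' ∈ Finset.range X.P.D,
        1 / ((X.P.bR + l + l' + 2) * (X.P.bR + l + l' + 3))
          * (UU X.P.sC X.P.bR X.N X.P.D X.P.pR (Tg X.K X.P.TC g) l'
            * conj (UU X.P.sC X.P.bR X.N X.P.D X.P.pR (Tg X.K X.P.TC g) l)).re := by
    refine Finset.sum_congr rfl (fun l hl => ?_)
    have hl' := Finset.mem_range.1 hl
    rw [X.fWc g hD (l := 1 + l) (by omega), X.fUc g hD hl', Finset.sum_mul, Complex.re_sum]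
    refine Finset.sum_congr rfl (fun m _ => ?_)
    rw [mul_assoc, Complex.re_ofReal_mul]
    congr 2
    push_cast
    congr 1 <;> ring
  rw [← q1, ← q2, ← q3, ← q4]
  ring

theorem corner3 {E S M E1 E2 S1 S2 M1 M2 m a0 a1 a2 : ℝ} (hE1 : E1 ≤ E) (hE2 : E ≤ E2)
    (hS1 : S1 ≤ S) (hS2 : S ≤ S2) (hM1 : M1 ≤ M) (hM2 : M ≤ M2)
    (h1 : 0 ≤ m - E1 * (a0 + S1 * a1 + M1 * a2)) (h2 : 0 ≤ m - E1 * (a0 + S2 * a1 + M1 * a2))
    (h3 : 0 ≤ m - E2 * (a0 + S1 * a1 + M1 * a2)) (h4 : 0 ≤ m - E2 * (a0 + S2 * a1 + M1 * a2))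
    (h5 : 0 ≤ m - E1 * (a0 + S1 * a1 + M2 * a2)) (h6 : 0 ≤ m - E1 * (a0 + S2 * a1 + M2 * a2))
    (h7 : 0 ≤ m - E2 * (a0 + S1 * a1 + M2 * a2)) (h8 : 0 ≤ m - E2 * (a0 + S2 * a1 + M2 * a2)) :
    0 ≤ m - E * (a0 + S * a1 + M * a2) := by
  have k1 : 0 ≤ m - E * ((a0 + M1 * a2) + S * a1) :=
    corner hE1 hE2 hS1 hS2 (by linarith) (by linarith) (by linarith only [h3]) (by linarith)
  have k2 : 0 ≤ m - E * ((a0 + M2 * a2) + S * a1) :=
    corner hE1 hE2 hS1 hS2 (by linarith) (by linarith) (by linarith) (by linarith only [h8])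
  rcases le_total 0 (E * a2) with h | h
  · nlinarith only [hM2, k2, h]
  · nlinarith only [hM1, k1, h]

/-- the hypothesis on the form -/
theorem form_le (X : AP2) (h1 : X.P.c1 = true) (h3 : X.P.c3 = true) (h6 : X.c6 = true)
    (h7 : X.c7 = true) (hE1 : (X.P.Elo : ℝ) ≤ Es X.P.sC X.P.bR)
    (hE2 : Es X.P.sC X.P.bR ≤ (X.P.Ehi : ℝ)) (hM1 : (X.Mlo : ℝ) ≤ MM X.P.sC X.P.bR 0 0)
    (hM2 : MM X.P.sC X.P.bR 0 0 ≤ (X.Mhi : ℝ)) (g : ℕ → ℂ) :
    hF X.K X.QC2 g ≤ limG X.P.sC X.P.bR X.K X.N X.P.D X.P.pR (X.P.kap : ℝ) (X.P.tau : ℝ) g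
      (Tg X.K X.P.TC g) := by
  simp only [AP.c1, Bool.and_eq_true, decide_eq_true_eq] at h1
  obtain ⟨⟨⟨⟨⟨⟨⟨⟨⟨⟨⟨⟨⟨⟨-, -⟩, -⟩, hq0⟩, hq1⟩, hb0⟩, hb1⟩, hσ⟩, -⟩, -⟩, hDJ⟩, hk⟩, hta⟩, hth⟩, -⟩ := h1
  simp only [c6, Bool.and_eq_true, decide_eq_true_eq] at h6
  obtain ⟨-, hD⟩ := h6
  simp only [c7, Bool.and_eq_true] at h7
  obtain ⟨⟨⟨⟨⟨⟨⟨k1, k2⟩, k3⟩, k4⟩, k5⟩, k6⟩, k7⟩, k8⟩ := h7
  have hb' : (0 : ℝ) < (X.P.b : ℝ) := by exact_mod_cast hb0
  have hr : X.P.sC.re = (X.P.s.re : ℝ) := rfl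
  have hσ' : (0 : ℝ) < (X.P.b : ℝ) + 1 - 2 * X.P.sC.re := by
    rw [hr]
    exact_mod_cast hσ
  have hn : ‖X.P.sC‖ ^ 2 ≤ 49 / 100 := by
    rw [AP.sC, ← GQ.nsq_eq]
    have := (Rat.cast_le (K := ℝ)).2 hq1
    push_cast at this
    exact this
  have hs : -1 < X.P.sC.re := by
    have h5 : ‖X.P.sC‖ ≤ 7 / 10 := by nlinarith only [hn]
    have h6 := Complex.abs_re_le_norm X.P.sC
    have h7 := neg_abs_le X.P.sC.re
    linarith only [h5, h6, h7]
  have hth' : (0 : ℝ) < (X.P.th : ℝ) := by exact_mod_cast hth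
  have hta' : (0 : ℝ) < (X.P.tau : ℝ) := by exact_mod_cast hta
  obtain ⟨hS1, hS2⟩ := s0C_sound (s := X.P.sC) hr hs hb' hσ' h3
  have j1 := X.cc_sound hD _ _ _ k1 g
  have j2 := X.cc_sound hD _ _ _ k2 g
  have j3 := X.cc_sound hD _ _ _ k3 g
  have j4 := X.cc_sound hD _ _ _ k4 g
  have j5 := X.cc_sound hD _ _ _ k5 g
  have j6 := X.cc_sound hD _ _ _ k6 g
  have j7 := X.cc_sound hD _ _ _ k7 g
  have j8 := X.cc_sound hD _ _ _ k8 g
  have jj : 0 ≤ hF X.K (fun r t => (X.N0 r t).toC) g - Es X.P.sC X.P.bR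
      * (hF X.K (fun r t => (X.B0 r t).toC) g
        + SS X.P.sC X.P.bR 0 1 * hF X.K (fun r t => (X.B1 r t).toC) g
        + MM X.P.sC X.P.bR 0 0 * hF X.K (fun r t => (X.B2 r t).toC) g) :=
    corner3 hE1 hE2 hS1 hS2 hM1 hM2 j1 j2 j3 j4 j5 j6 j7 j8
  have e0 : hF X.K (fun r t => (X.N0 r t).toC) g
      = linF X.P.sC X.K X.N g (Tg X.K X.P.TC g)
        - gamF X.P.sC X.P.bR X.N (Tg X.K X.P.TC g)
        - (X.P.Ehi : ℝ) ^ 2 / (X.P.tau : ℝ)
          * hF X.K (fun i j => (bil (X.P.D + 1) (X.P.D + 1)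
            (WQ X.P.s.re X.P.b X.P.D X.P.pf X.P.J2 X.P.th) (phQ X.P.s X.P.D X.P.pf)
            (phQ X.P.s X.P.D X.P.pf) i j).toC) g
        - hF X.K X.QC2 g := by
    have : (fun r t => (X.N0 r t).toC) = fun r t =>
        (((2 : ℝ) : ℂ) * (ip (X.Tc r) (X.muc t)).toC - (ip (X.Tc r) (X.Gc t)).toC
        - (((X.P.Ehi : ℝ) ^ 2 / (X.P.tau : ℝ) : ℝ) : ℂ) * (ip (X.Pc r) (X.Cc t)).toC)
        - X.QC2 r t := by
      funext r t
      rw [N0, GQ.toC_sub, GQ.toC_sub, GQ.toC_sub, GQ.toC_sc, GQ.toC_sc, QC2]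
      push_cast
      rfl
    rw [this, hF_sub, hF_sub, hF_sub, hF_smul, hF_smul, fm_gam, fm_C X g hs hb0 hDJ,
      ← fm_lin]
    ring
  rw [X.fm_B g hD hs hb' hσ', e0] at jj
  have e7 := ncross_le (s := X.P.s) (b := X.P.b) hs hb' hσ' hDJ X.P.pf X.K g hth'
  have e8 := AP.ncross_nonneg X.P.sC X.P.bR X.P.D X.P.pR
    (FF X.P.sC X.P.D X.P.pR (muS X.P.sC X.K g))
  have hEs : 0 ≤ Es X.P.sC X.P.bR := by
    have ha : ∀ x ∈ Ioo (0 : ℝ) 1, 0 ≤ alp X.P.sC X.P.bR x := by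
      intro x hx
      exact mul_nonneg (Real.rpow_nonneg (by linarith only [hx.2]) _) (Real.rpow_nonneg hx.1.le _)
    exact mul_nonneg (by rw [cst]; positivity) (setIntegral_nonneg measurableSet_Ioo ha)
  have e9 : Es X.P.sC X.P.bR ^ 2 / (X.P.tau : ℝ)
        * Ncross X.P.sC X.P.bR X.P.D X.P.pR (FF X.P.sC X.P.D X.P.pR (muS X.P.sC X.K g))
      ≤ (X.P.Ehi : ℝ) ^ 2 / (X.P.tau : ℝ) * hF X.K (fun i j => (bil (X.P.D + 1) (X.P.D + 1)
            (WQ X.P.s.re X.P.b X.P.D X.P.pf X.P.J2 X.P.th) (phQ X.P.s X.P.D X.P.pf)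
            (phQ X.P.s X.P.D X.P.pf) i j).toC) g := by
    have f1 : Es X.P.sC X.P.bR ^ 2 / (X.P.tau : ℝ) ≤ (X.P.Ehi : ℝ) ^ 2 / (X.P.tau : ℝ) := by
      gcongr
    have f2 : (0 : ℝ) ≤ (X.P.Ehi : ℝ) ^ 2 / (X.P.tau : ℝ) := by positivity
    calc Es X.P.sC X.P.bR ^ 2 / (X.P.tau : ℝ)
          * Ncross X.P.sC X.P.bR X.P.D X.P.pR (FF X.P.sC X.P.D X.P.pR (muS X.P.sC X.K g))
        ≤ (X.P.Ehi : ℝ) ^ 2 / (X.P.tau : ℝ)
          * Ncross X.P.sC X.P.bR X.P.D X.P.pR (FF X.P.sC X.P.D X.P.pR (muS X.P.sC X.K g)) :=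
          mul_le_mul_of_nonneg_right f1 e8
      _ ≤ _ := mul_le_mul_of_nonneg_left e7 f2
  rw [limG]
  linarith

/-- the per-frequency inequality at the point -/
theorem pf (X : AP2) (h1 : X.P.c1 = true) (h2 : X.P.c2 = true) (h3 : X.P.c3 = true)
    (h6 : X.c6 = true) (h7 : X.c7 = true) (hE1 : (X.P.Elo : ℝ) ≤ Es X.P.sC X.P.bR)
    (hE2 : Es X.P.sC X.P.bR ≤ (X.P.Ehi : ℝ)) (hM1 : (X.Mlo : ℝ) ≤ MM X.P.sC X.P.bR 0 0)
    (hM2 : MM X.P.sC X.P.bR 0 0 ≤ (X.Mhi : ℝ)) :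
    X.P.sC ≠ 0 ∧ ‖X.P.sC‖ ≤ 7 / 10 ∧ 0 < X.P.bR ∧ X.P.bR ≤ 1 ∧ 0 < X.P.bR + 1 - 2 * X.P.sC.re ∧
      2 * ‖X.P.sC‖ < X.P.bR + 1 ∧ PF X.P.sC X.P.bR X.K (hF X.K X.QC2) := by
  have h5 := X.P.hs_le h1 h2 h3 hE1 hE2
  have h8 := X.form_le h1 h3 h6 h7 hE1 hE2 hM1 hM2
  simp only [c6, Bool.and_eq_true, decide_eq_true_eq] at h6
  obtain ⟨⟨hN, hN1⟩, hD⟩ := h6
  simp only [AP.c1, Bool.and_eq_true, decide_eq_true_eq] at h1
  obtain ⟨⟨⟨⟨⟨⟨⟨⟨⟨⟨⟨⟨⟨⟨-, -⟩, -⟩, hq0⟩, hq1⟩, hb0⟩, hb1⟩, hσ⟩, hg⟩, hD5⟩, -⟩, hk⟩, hta⟩, hth⟩, hse⟩ := h1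
  have hr : X.P.sC.re = (X.P.s.re : ℝ) := rfl
  have hb' : (0 : ℝ) < X.P.bR := by rw [AP.bR]; exact_mod_cast hb0
  have hnq : ((X.P.s.nsq : ℚ) : ℝ) = ‖X.P.sC‖ ^ 2 := GQ.nsq_eq X.P.s
  have hn : ‖X.P.sC‖ ^ 2 ≤ 49 / 100 := by
    rw [← hnq]
    have := (Rat.cast_le (K := ℝ)).2 hq1
    push_cast at this
    exact this
  have hn0 : 0 < ‖X.P.sC‖ ^ 2 := by
    rw [← hnq]
    exact_mod_cast hq0
  have g1 : X.P.sC ≠ 0 := by
    intro h
    rw [h] at hn0
    simp at hn0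
  have g2 : ‖X.P.sC‖ ≤ 7 / 10 := by nlinarith only [hn]
  have g3 : X.P.bR ≤ 1 := by rw [AP.bR]; exact_mod_cast hb1
  have g4 : 0 < X.P.bR + 1 - 2 * X.P.sC.re := by
    rw [hr, AP.bR]
    exact_mod_cast hσ
  have g5 : 2 * ‖X.P.sC‖ < X.P.bR + 1 := by
    have := (Rat.cast_lt (K := ℝ)).2 hg
    push_cast at this
    rw [hnq] at this
    have h7 : (2 * ‖X.P.sC‖) ^ 2 < (X.P.bR + 1) ^ 2 := by
      rw [mul_pow, AP.bR]
      linarith only [this]
    exact lt_of_pow_lt_pow_left₀ 2 (by linarith only [hb']) h7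
  have g6 : (1 + (X.P.kap : ℝ)) * (X.P.eps : ℝ) + (X.P.tau : ℝ) < 1 := by
    have := (Rat.cast_lt (K := ℝ)).2 hse
    push_cast at this
    exact this
  have g7 : (0 : ℝ) < (X.P.kap : ℝ) := by exact_mod_cast hk
  have g8 : (0 : ℝ) < (X.P.tau : ℝ) := by exact_mod_cast hta
  refine ⟨g1, g2, hb', g3, g4, g5, ?_⟩
  have key := perfreq_g g1 g2 hb' g3 g4 hN hD hN1 X.P.pR X.P.TC h5 g7 g8 g6
  -- monotonicity
  intro δ hδ
  obtain ⟨m0, hm0⟩ := key δ hδ
  refine ⟨m0, fun m hm1 hm J d hd => le_trans ?_ (hm0 m hm1 hm J d hd)⟩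
  have hKS : 0 ≤ (m : ℝ) ^ 2 / (KS X.P.sC * pq (X.P.bR + 3) (m - 1)) := by
    have k1 : 0 < KS X.P.sC := KS_pos (lt_of_le_of_lt g2 (by norm_num))
    have k2 : 0 < pq (X.P.bR + 3) (m - 1) := pq_pos (by linarith only [hb']) _
    positivity
  refine mul_le_mul_of_nonneg_left ?_ hKS
  have := h8 (vS d m)
  linarith only [this]

end AP2

end Pool.Agent.M16.Helper65.HR2

end

end

section

section

set_option autoImplicit false

set_option linter.unusedSectionVars false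

set_option linter.unusedTactic false

namespace Pool.Agent.M16.Helper65.HR2.F7

/-- a rational number: positive and negative parts of the numerator, denominator -/
structure QF where
  /-- positive part -/
  p : ℕ
  /-- negative part -/
  n : ℕ
  /-- denominator -/
  d : ℕ

/-- `x` is `q` -/
def Rp (x : QF) (q : ℚ) : Prop := 0 < x.d ∧ ((x.p : ℚ) - (x.n : ℚ)) = q * (x.d : ℚ)

/-- evaluation of the argument before the call -/
noncomputable def frc {α : Type} (k : ℕ → α) (n : ℕ) : α :=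
  Nat.rec (motive := fun _ => α) (k 0) (fun m _ => k (Nat.succ m)) n

theorem frc_eq {α : Type} (k : ℕ → α) (n : ℕ) : frc k n = k n := by
  cases n <;> rfl

/-- normalization -/
noncomputable def nrm (p n d : ℕ) : QF :=
  frc (fun q => frc (fun m => frc (fun e => frc (fun g =>
    QF.mk (Nat.div q g) (Nat.div m g) (Nat.div e g)) (Nat.gcd (Nat.add q m) e)) d)
      (Nat.sub n p)) (Nat.sub p n)

theorem nrm_eq (p n d : ℕ) : nrm p n d = QF.mk ((p - n) / Nat.gcd ((p - n) + (n - p)) d)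
    ((n - p) / Nat.gcd ((p - n) + (n - p)) d) (d / Nat.gcd ((p - n) + (n - p)) d) := by
  rw [nrm, frc_eq, frc_eq, frc_eq, frc_eq]
  rfl

theorem Rp_nrm {p n d : ℕ} (hd : 0 < d) {q : ℚ} (h : ((p : ℚ) - (n : ℚ)) = q * (d : ℚ)) :
    Rp (nrm p n d) q := by
  rw [nrm_eq]
  obtain ⟨g, hg⟩ : ∃ g, g = Nat.gcd ((p - n) + (n - p)) d := ⟨_, rfl⟩
  have hg0 : 0 < g := by
    rw [hg]
    exact Nat.gcd_pos_of_pos_right _ hd
  have h1 : g ∣ (p - n) + (n - p) := by rw [hg]; exact Nat.gcd_dvd_left _ _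
  have h2 : g ∣ d := by rw [hg]; exact Nat.gcd_dvd_right _ _
  have h3 : g ∣ p - n ∧ g ∣ n - p := by
    rcases le_total p n with h | h
    · rw [Nat.sub_eq_zero_of_le h] at h1 ⊢
      rw [zero_add] at h1
      exact ⟨dvd_zero _, h1⟩
    · rw [Nat.sub_eq_zero_of_le h] at h1 ⊢
      rw [add_zero] at h1
      exact ⟨h1, dvd_zero _⟩
  rw [← hg]
  obtain ⟨⟨a, ha⟩, ⟨b, hb⟩⟩ := h3
  obtain ⟨e, he⟩ := h2
  have hgq : (g : ℚ) ≠ 0 := by exact_mod_cast hg0.ne'
  have h4 : ((p : ℚ) - (n : ℚ)) = (g : ℚ) * ((a : ℚ) - (b : ℚ)) := by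
    rcases le_total p n with h | h
    · have e1 : (p - n : ℕ) = 0 := Nat.sub_eq_zero_of_le h
      rw [e1] at ha
      have e2 : a = 0 := by
        rcases Nat.mul_eq_zero.1 ha.symm with h | h
        · omega
        · exact h
      have e3 : n = p + g * b := by omega
      rw [e3, e2]
      push_cast
      ring
    · have e1 : (n - p : ℕ) = 0 := Nat.sub_eq_zero_of_le h
      rw [e1] at hb
      have e2 : b = 0 := by
        rcases Nat.mul_eq_zero.1 hb.symm with h | h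
        · omega
        · exact h
      have e3 : p = n + g * a := by omega
      rw [e3, e2]
      push_cast
      ring
  constructor
  · change 0 < d / g
    rw [he, Nat.mul_div_cancel_left _ hg0]
    rcases Nat.eq_zero_or_pos e with h | h
    · rw [h, mul_zero] at he
      omega
    · exact h
  · change (((p - n) / g : ℕ) : ℚ) - (((n - p) / g : ℕ) : ℚ) = q * ((d / g : ℕ) : ℚ)
    rw [ha, hb, he, Nat.mul_div_cancel_left _ hg0, Nat.mul_div_cancel_left _ hg0,
      Nat.mul_div_cancel_left _ hg0]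
    rw [h4, he] at h
    push_cast at h
    have h5 : (g : ℚ) * (((a : ℚ) - (b : ℚ)) - q * (e : ℚ)) = 0 := by linarith
    rcases mul_eq_zero.1 h5 with h6 | h6
    · exact absurd h6 hgq
    · linarith

/-- `x` is `q` in lowest terms -/
def Cq (x : QF) (q : ℚ) : Prop := x.d = q.den ∧ x.p = q.num.toNat ∧ x.n = (-q.num).toNat

theorem Cq.rp {x : QF} {q : ℚ} (h : Cq x q) : Rp x q := by
  obtain ⟨h1, h2, h3⟩ := h
  refine ⟨by rw [h1]; exact q.den_pos, ?_⟩
  rw [h1, h2, h3]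
  have h4 : ((q.num.toNat : ℕ) : ℤ) - (((-q.num).toNat : ℕ) : ℤ) = q.num := by omega
  have h5 : ((q.num.toNat : ℕ) : ℚ) - (((-q.num).toNat : ℕ) : ℚ) = (q.num : ℚ) := by
    exact_mod_cast h4
  rw [h5]
  have h6 := Rat.num_div_den q
  have h7 : (q.den : ℚ) ≠ 0 := by exact_mod_cast q.den_pos.ne'
  field_simp at h6
  linarith

theorem Cq_of {x : QF} {q : ℚ} (h : Rp x q) (h0 : x.p = 0 ∨ x.n = 0)
    (hc : Nat.Coprime (x.p + x.n) x.d) : Cq x q := by
  obtain ⟨p, n, d⟩ := x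
  obtain ⟨h1, h2⟩ := h
  simp only at h1 h2 h0 hc
  have hd : (d : ℚ) ≠ 0 := by exact_mod_cast h1.ne'
  obtain ⟨a, ha⟩ : ∃ a : ℤ, a = (p : ℤ) - (n : ℤ) := ⟨_, rfl⟩
  have h3 : q = (a : ℚ) / ((d : ℤ) : ℚ) := by
    rw [ha, eq_div_iff (by exact_mod_cast h1.ne')]
    push_cast
    linarith
  have h4 : a.natAbs = p + n := by
    rcases h0 with h | h
    · rw [ha, h]
      omega
    · rw [ha, h]
      omega
  have h5 : Nat.Coprime a.natAbs (d : ℤ).natAbs := by
    rw [h4, Int.natAbs_natCast]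
    exact hc
  have h6 : q.num = a := by
    rw [h3]
    exact Rat.num_div_eq_of_coprime (by exact_mod_cast h1) h5
  have h7 : ((q.den : ℕ) : ℤ) = (d : ℤ) := by
    rw [h3]
    exact Rat.den_div_eq_of_coprime (by exact_mod_cast h1) h5
  refine ⟨?_, ?_, ?_⟩
  · exact_mod_cast h7.symm
  · change p = _
    rw [h6, ha]
    omega
  · change n = _
    rw [h6, ha]
    omega

theorem Cq_nrm {p n d : ℕ} (hd : 0 < d) {q : ℚ} (h : ((p : ℚ) - (n : ℚ)) = q * (d : ℚ)) :
    Cq (nrm p n d) q := by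
  refine Cq_of (Rp_nrm hd h) ?_ ?_
  · rw [nrm_eq]
    simp only
    rcases le_total p n with h | h
    · left
      rw [Nat.sub_eq_zero_of_le h, Nat.zero_div]
    · right
      rw [Nat.sub_eq_zero_of_le h, Nat.zero_div]
  · rw [nrm_eq]
    simp only
    have hg : 0 < Nat.gcd ((p - n) + (n - p)) d := Nat.gcd_pos_of_pos_right _ hd
    have e : (p - n) / Nat.gcd ((p - n) + (n - p)) d + (n - p) / Nat.gcd ((p - n) + (n - p)) d
        = ((p - n) + (n - p)) / Nat.gcd ((p - n) + (n - p)) d := by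
      rcases le_total p n with h | h
      · rw [Nat.sub_eq_zero_of_le h, Nat.zero_div, zero_add, zero_add]
      · rw [Nat.sub_eq_zero_of_le h, Nat.zero_div, add_zero, add_zero]
    rw [e]
    exact Nat.coprime_div_gcd_div_gcd hg

namespace QF

/-- sum -/
noncomputable def add (x y : QF) : QF :=
  QF.rec (motive := fun _ => QF) (fun p n d => QF.rec (motive := fun _ => QF)
    (fun p' n' d' => nrm (Nat.add (Nat.mul p d') (Nat.mul p' d))
      (Nat.add (Nat.mul n d') (Nat.mul n' d)) (Nat.mul d d')) y) x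

/-- difference -/
noncomputable def sub (x y : QF) : QF :=
  QF.rec (motive := fun _ => QF) (fun p n d => QF.rec (motive := fun _ => QF)
    (fun p' n' d' => nrm (Nat.add (Nat.mul p d') (Nat.mul n' d))
      (Nat.add (Nat.mul n d') (Nat.mul p' d)) (Nat.mul d d')) y) x

/-- product -/
noncomputable def mul (x y : QF) : QF :=
  QF.rec (motive := fun _ => QF) (fun p n d => QF.rec (motive := fun _ => QF)
    (fun p' n' d' => nrm (Nat.add (Nat.mul p p') (Nat.mul n n'))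
      (Nat.add (Nat.mul p n') (Nat.mul n p')) (Nat.mul d d')) y) x

/-- quotient -/
noncomputable def div (x y : QF) : QF :=
  QF.rec (motive := fun _ => QF) (fun p n d => QF.rec (motive := fun _ => QF)
    (fun p' n' d' => nrm (Nat.mul (Nat.add (Nat.mul p p') (Nat.mul n n')) d')
      (Nat.mul (Nat.add (Nat.mul p n') (Nat.mul n p')) d')
      (Nat.mul d (Nat.mul (Nat.add (Nat.sub p' n') (Nat.sub n' p'))
        (Nat.add (Nat.sub p' n') (Nat.sub n' p'))))) y) x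

end QF

/-- a natural number -/
noncomputable def qn (a : ℕ) : QF := ⟨a, 0, 1⟩

theorem Cq_qn (a : ℕ) : Cq (qn a) (a : ℚ) := by
  rw [qn]
  refine ⟨?_, ?_, ?_⟩
  · change 1 = ((a : ℚ)).den
    rw [Rat.den_natCast]
  · change a = ((a : ℚ)).num.toNat
    rw [Rat.num_natCast]
    rfl
  · change 0 = (-((a : ℚ)).num).toNat
    rw [Rat.num_natCast]
    omega

theorem Cq_add {x y : QF} {q r : ℚ} (hx : Cq x q) (hy : Cq y r) : Cq (x.add y) (q + r) := by
  obtain ⟨h1, h2⟩ := hx.rp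
  obtain ⟨h3, h4⟩ := hy.rp
  obtain ⟨p, n, d⟩ := x
  obtain ⟨p', n', d'⟩ := y
  refine Cq_nrm (Nat.mul_pos h1 h3) ?_
  change (((p * d' + p' * d : ℕ) : ℚ) - ((n * d' + n' * d : ℕ) : ℚ)) = _ * ((d * d' : ℕ) : ℚ)
  simp only at h2 h4
  push_cast
  linear_combination (d' : ℚ) * h2 + (d : ℚ) * h4

theorem Cq_sub {x y : QF} {q r : ℚ} (hx : Cq x q) (hy : Cq y r) : Cq (x.sub y) (q - r) := by
  obtain ⟨h1, h2⟩ := hx.rp
  obtain ⟨h3, h4⟩ := hy.rp
  obtain ⟨p, n, d⟩ := x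
  obtain ⟨p', n', d'⟩ := y
  refine Cq_nrm (Nat.mul_pos h1 h3) ?_
  change (((p * d' + n' * d : ℕ) : ℚ) - ((n * d' + p' * d : ℕ) : ℚ)) = _ * ((d * d' : ℕ) : ℚ)
  simp only at h2 h4
  push_cast
  linear_combination (d' : ℚ) * h2 - (d : ℚ) * h4

theorem Cq_mul {x y : QF} {q r : ℚ} (hx : Cq x q) (hy : Cq y r) : Cq (x.mul y) (q * r) := by
  obtain ⟨h1, h2⟩ := hx.rp
  obtain ⟨h3, h4⟩ := hy.rp
  obtain ⟨p, n, d⟩ := x
  obtain ⟨p', n', d'⟩ := y
  refine Cq_nrm (Nat.mul_pos h1 h3) ?_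
  change (((p * p' + n * n' : ℕ) : ℚ) - ((p * n' + n * p' : ℕ) : ℚ)) = _ * ((d * d' : ℕ) : ℚ)
  simp only at h2 h4
  push_cast
  linear_combination ((p' : ℚ) - n') * h2 + (q * d) * h4

theorem Cq_div {x y : QF} {q r : ℚ} (hx : Cq x q) (hy : Cq y r) (hr : r ≠ 0) :
    Cq (x.div y) (q / r) := by
  obtain ⟨h1, h2⟩ := hx.rp
  obtain ⟨h3, h4⟩ := hy.rp
  obtain ⟨p, n, d⟩ := x
  obtain ⟨p', n', d'⟩ := y
  simp only at h1 h2 h3 h4
  have hd' : (d' : ℚ) ≠ 0 := by exact_mod_cast h3.ne'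
  obtain ⟨w, hw⟩ : ∃ w : ℕ, w = (p' - n') + (n' - p') := ⟨_, rfl⟩
  have e1 : ((w * w : ℕ) : ℚ) = ((p' : ℚ) - n') * ((p' : ℚ) - n') := by
    rw [hw]
    rcases le_total p' n' with h | h
    · rw [Nat.sub_eq_zero_of_le h, zero_add]
      push_cast [Nat.cast_sub h]
      ring
    · rw [Nat.sub_eq_zero_of_le h, add_zero]
      push_cast [Nat.cast_sub h]
      ring
  have hw0 : 0 < w := by
    rcases Nat.eq_zero_or_pos w with h | h
    · rw [h] at hw
      have h5 : p' = n' := by omega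
      rw [h5, sub_self] at h4
      rcases mul_eq_zero.1 h4.symm with h6 | h6
      · exact absurd h6 hr
      · exact absurd h6 hd'
    · exact h
  refine Cq_nrm (Nat.mul_pos h1 ?_) ?_
  · change 0 < ((p' - n') + (n' - p')) * ((p' - n') + (n' - p'))
    rw [← hw]
    exact Nat.mul_pos hw0 hw0
  · change ((((p * p' + n * n') * d' : ℕ) : ℚ) - (((p * n' + n * p') * d' : ℕ) : ℚ))
      = _ * ((d * (((p' - n') + (n' - p')) * ((p' - n') + (n' - p'))) : ℕ) : ℚ)
    rw [← hw, Nat.cast_mul d (w * w), e1]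
    push_cast
    have e2 : ((p' : ℚ) - n') = r * d' := h4
    have e3 : ((p : ℚ) - n) = q * d := h2
    have e4 : ((p : ℚ) * p' + n * n') * d' - (p * n' + n * p') * d'
        = ((p : ℚ) - n) * ((p' : ℚ) - n') * d' := by ring
    rw [e4, e2, e3]
    field_simp

attribute [irreducible] nrm QF.add QF.sub QF.mul QF.div

theorem Cq.cast {x : QF} {q q' : ℚ} (h : Cq x q) (e : q = q') : Cq x q' := e ▸ h

section defs

variable (r b : QF)

/-- the moments -/
noncomputable def gmX : ℕ → QF :=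
  Nat.rec (motive := fun _ => QF) (qn 1)
    (fun n ih => ih.mul (((QF.mul (qn 2) r).add (qn (Nat.add 2 n))).div (b.add (qn (Nat.add 3 n)))))

/-- the first row, constant part -/
noncomputable def ss0X1 : ℕ → QF :=
  Nat.rec (motive := fun _ => QF) ((QF.div (qn 1) (b.add (qn 1))).add (qn 1))
    (fun n _ => Nat.rec (motive := fun _ => QF) (qn 0)
      (fun j ih => QF.div ((QF.mul (qn j) (ih.sub (QF.div (qn 1) (b.add (qn (Nat.add 2 j)))))).add
        (qn 1)) ((b.add (qn (Nat.add 1 j))).sub (QF.mul (qn 2) r))) n)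

/-- the first row, linear part -/
noncomputable def ss0X2 : ℕ → QF :=
  Nat.rec (motive := fun _ => QF) ((QF.mul (qn 2) r).sub b)
    (fun n _ => Nat.rec (motive := fun _ => QF) (qn 1)
      (fun j ih => QF.div (QF.mul (qn j) ih)
        ((b.add (qn (Nat.add 1 j))).sub (QF.mul (qn 2) r))) n)

/-- the step of the first column -/
noncomputable def scX (n : ℕ) : QF := ((QF.mul (qn 2) r).add (qn (Nat.add 1 n))).sub b

/-- all rows, constant part -/
noncomputable def ssX1 (n : ℕ) : ℕ → QF :=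
  Nat.rec (motive := fun _ => ℕ → QF) (ss0X1 r b)
    (fun n ih => fun j => Nat.rec (motive := fun _ => QF)
      (QF.div ((gmX r b n).add (QF.mul (scX r b n) (ih 0))) (qn (Nat.add 2 n)))
      (fun j _ => (ih j).sub (QF.div (gmX r b n) (b.add (qn (Nat.add 1 j))))) j) n

/-- all rows, linear part -/
noncomputable def ssX2 (n : ℕ) : ℕ → QF :=
  Nat.rec (motive := fun _ => ℕ → QF) (ss0X2 r b)
    (fun n ih => fun j => Nat.rec (motive := fun _ => QF)
      (QF.div (QF.mul (scX r b n) (ih 0)) (qn (Nat.add 2 n)))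
      (fun j _ => ih j) j) n

/-- differences, constant part -/
noncomputable def dsX1 (n : ℕ) : QF := (ssX1 r b n 0).sub (ssX1 r b n 1)

/-- differences, linear part -/
noncomputable def dsX2 (n : ℕ) : QF := (ssX2 r b n 0).sub (ssX2 r b n 1)

/-- step of the Gram matrix -/
noncomputable def stX (ds : ℕ → QF) (n k : ℕ) (x : QF) : QF :=
  QF.div ((QF.mul (((QF.mul (qn 4) r).add (qn (Nat.add (Nat.add n k) 1))).sub b) x).add
    ((QF.mul (QF.mul (b.add (qn (Nat.add 2 k))) (gmX r b k)) (ds n)).sub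
      (QF.mul (QF.mul (qn (Nat.add k 1)) (gmX r b n)) (ds k)))) (b.add (qn (Nat.add 3 (Nat.add n k))))

/-- step of the Gram matrix, main part -/
noncomputable def stX2 (n k : ℕ) (x : QF) : QF :=
  QF.div (QF.mul (((QF.mul (qn 4) r).add (qn (Nat.add (Nat.add n k) 1))).sub b) x)
    (b.add (qn (Nat.add 3 (Nat.add n k))))

/-- the Gram matrix from a step and an initial value -/
noncomputable def mmX (st : ℕ → ℕ → QF → QF) (x0 : QF) (n k : ℕ) : QF :=
  Nat.rec (motive := fun _ => QF)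
    (Nat.rec (motive := fun _ => QF) x0 (fun k ih => st k 0 ih) k)
    (fun n ih => st n k ih) n

/-- weights -/
noncomputable def wX (k : ℕ) : QF :=
  QF.div (qn 1) (QF.mul (b.add (qn k)) (b.add (qn (Nat.succ k))))

/-- the Pochhammer symbol -/
noncomputable def pochX : ℕ → QF :=
  Nat.rec (motive := fun _ => QF) (qn 1) (fun n ih => ih.mul (b.add (qn n)))

/-- finite sums -/
noncomputable def smX (f : ℕ → QF) : ℕ → QF :=
  Nat.rec (motive := fun _ => QF) (qn 0) (fun n ih => ih.add (f n))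

end defs

theorem Cq_one : Cq (qn 1) 1 := by simpa using Cq_qn 1

theorem Cq_zero : Cq (qn 0) 0 := by simpa using Cq_qn 0

theorem Cq_two : Cq (qn 2) 2 := by simpa using Cq_qn 2

theorem Cq_four : Cq (qn 4) 4 := by simpa using Cq_qn 4

theorem Cq_sm {F : ℕ → QF} {f : ℕ → ℚ} {n : ℕ} (h : ∀ i < n, Cq (F i) (f i)) :
    Cq (smX F n) (sm f n) := by
  induction n with
  | zero => exact Cq_zero
  | succ n ih => exact Cq_add (ih (fun i hi => h i (Nat.lt_succ_of_lt hi))) (h n (Nat.lt_succ_self n))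

section sound

variable {r b : QF} {r' b' : ℚ} (hr : Cq r r') (hb : Cq b b') (hb0 : 0 < b')
  (hσ : 0 < b' + 1 - 2 * r')

include hb in
theorem Cq_bn (n : ℕ) : Cq (b.add (qn n)) (b' + n) := Cq_add hb (Cq_qn n)

include hb0 in
theorem bn_pos (n : ℕ) : 0 < b' + (n : ℚ) := by positivity

include hr hb hb0 in
theorem Cq_gm (n : ℕ) : Cq (gmX r b n) (gmQ r' b' n) := by
  induction n with
  | zero => exact Cq_one
  | succ n ih =>
    have h1 : Cq (gmX r b (n + 1)) _ := Cq_mul ih (Cq_div (Cq_add (Cq_mul Cq_two hr)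
      (Cq_qn (Nat.add 2 n))) (Cq_bn hb (Nat.add 3 n)) (bn_pos hb0 _).ne')
    refine h1.cast ?_
    rw [gmQ]
    change _ * ((_ + ((2 + n : ℕ) : ℚ)) / (_ + ((3 + n : ℕ) : ℚ))) = _
    push_cast
    congr 2 <;> ring

include hr hb hb0 hσ in
theorem Cq_ss01 (j : ℕ) : Cq (ss0X1 r b j) (ss0 r' b' j).1 := by
  have hd : ∀ j : ℕ, Cq ((b.add (qn (Nat.add 1 j))).sub (QF.mul (qn 2) r))
      (b' + ((1 + j : ℕ) : ℚ) - 2 * r') := fun j => Cq_sub (Cq_bn hb _) (Cq_mul Cq_two hr)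
  have hd0 : ∀ j : ℕ, b' + ((1 + j : ℕ) : ℚ) - 2 * r' ≠ 0 := by
    intro j
    have : (0 : ℚ) ≤ j := Nat.cast_nonneg j
    push_cast
    have h2 : 0 < b' + (1 + (j : ℚ)) - 2 * r' := by linarith
    exact h2.ne'
  rcases j with _ | j
  · have h1 : Cq (ss0X1 r b 0) _ := Cq_add (Cq_div Cq_one (Cq_bn hb 1) (bn_pos hb0 _).ne') Cq_one
    refine h1.cast ?_
    rw [ss0]
    push_cast
    ring
  · induction j with
    | zero =>
      refine (show Cq (ss0X1 r b (0 + 1)) 0 from Cq_zero).cast ?_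
      rw [zero_add, ss0]
    | succ j ih =>
      have h1 : Cq (ss0X1 r b (j + 1 + 1)) _ := Cq_div (Cq_add (Cq_mul (Cq_qn j)
        (Cq_sub ih (Cq_div Cq_one (Cq_bn hb (Nat.add 2 j)) (bn_pos hb0 _).ne'))) Cq_one)
        (hd j) (hd0 j)
      refine h1.cast ?_
      rw [ss0]
      change (_ * (_ - 1 / (b' + ((2 + j : ℕ) : ℚ))) + 1) / _ = _
      simp only
      rw [← neg_div_neg_eq]
      push_cast
      congr 1
      · rw [show b' + (2 + (j : ℚ)) = b' + 2 + j from by ring]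
        ring
      · ring

omit hb0 in
include hr hb hσ in
theorem Cq_ss02 (j : ℕ) : Cq (ss0X2 r b j) (ss0 r' b' j).2 := by
  have hd : ∀ j : ℕ, Cq ((b.add (qn (Nat.add 1 j))).sub (QF.mul (qn 2) r))
      (b' + ((1 + j : ℕ) : ℚ) - 2 * r') := fun j => Cq_sub (Cq_bn hb _) (Cq_mul Cq_two hr)
  have hd0 : ∀ j : ℕ, b' + ((1 + j : ℕ) : ℚ) - 2 * r' ≠ 0 := by
    intro j
    have : (0 : ℚ) ≤ j := Nat.cast_nonneg j
    push_cast
    have h2 : 0 < b' + (1 + (j : ℚ)) - 2 * r' := by linarith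
    exact h2.ne'
  rcases j with _ | j
  · have h1 : Cq (ss0X2 r b 0) _ := Cq_sub (Cq_mul Cq_two hr) hb
    refine h1.cast ?_
    rw [ss0]
  · induction j with
    | zero =>
      refine (show Cq (ss0X2 r b (0 + 1)) 1 from Cq_one).cast ?_
      rw [zero_add, ss0]
    | succ j ih =>
      have h1 : Cq (ss0X2 r b (j + 1 + 1)) _ := Cq_div (Cq_mul (Cq_qn j) ih) (hd j) (hd0 j)
      refine h1.cast ?_
      rw [ss0]
      simp only
      rw [← neg_div_neg_eq]
      push_cast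
      congr 1 <;> ring

include hr hb in
theorem Cq_sc (n : ℕ) : Cq (scX r b n) (2 * r' + 1 + n - b') := by
  have h1 : Cq (scX r b n) _ := Cq_sub (Cq_add (Cq_mul Cq_two hr) (Cq_qn (Nat.add 1 n))) hb
  refine h1.cast ?_
  change _ + ((1 + n : ℕ) : ℚ) - _ = _
  push_cast
  ring

include hr hb hb0 hσ in
theorem Cq_ss1 (n : ℕ) : ∀ j, Cq (ssX1 r b n j) (ssQ r' b' n j).1 := by
  induction n with
  | zero =>
    intro j
    have h := Cq_ss01 hr hb hb0 hσ j
    have e : (ssQ r' b' 0 j) = ss0 r' b' j := by rw [ssQ]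
    rw [e]
    exact h
  | succ n ih =>
    intro j
    have h2 : Cq (qn (Nat.add 2 n)) ((n : ℚ) + 2) := by
      refine (Cq_qn _).cast ?_
      change ((2 + n : ℕ) : ℚ) = _
      push_cast
      ring
    rcases j with _ | j
    · have h1 : Cq (ssX1 r b (n + 1) 0) _ := Cq_div (Cq_add (Cq_gm hr hb hb0 n)
        (Cq_mul (Cq_sc hr hb n) (ih 0))) h2 (by positivity)
      rw [ssQ]
      exact h1
    · have h1 : Cq (ssX1 r b (n + 1) (j + 1)) _ := Cq_sub (ih j)
        (Cq_div (Cq_gm hr hb hb0 n) (Cq_bn hb (Nat.add 1 j)) (bn_pos hb0 _).ne')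
      rw [ssQ]
      refine h1.cast ?_
      change _ - _ / (b' + ((1 + j : ℕ) : ℚ)) = _
      push_cast
      rw [add_assoc]

include hr hb hb0 hσ in
theorem Cq_ss2 (n : ℕ) : ∀ j, Cq (ssX2 r b n j) (ssQ r' b' n j).2 := by
  induction n with
  | zero =>
    intro j
    have h := Cq_ss02 hr hb hσ j
    have e : (ssQ r' b' 0 j) = ss0 r' b' j := by rw [ssQ]
    rw [e]
    exact h
  | succ n ih =>
    intro j
    have h2 : Cq (qn (Nat.add 2 n)) ((n : ℚ) + 2) := by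
      refine (Cq_qn _).cast ?_
      change ((2 + n : ℕ) : ℚ) = _
      push_cast
      ring
    rcases j with _ | j
    · have h1 : Cq (ssX2 r b (n + 1) 0) _ := Cq_div (Cq_mul (Cq_sc hr hb n) (ih 0)) h2
        (by positivity)
      rw [ssQ]
      exact h1
    · have h1 : Cq (ssX2 r b (n + 1) (j + 1)) _ := ih j
      rw [ssQ]
      exact h1

include hr hb hb0 in
theorem Cq_st {ds : ℕ → QF} {dq : ℕ → ℚ} (hds : ∀ n, Cq (ds n) (dq n)) (n k : ℕ) {x : QF} {q : ℚ}
    (hx : Cq x q) : Cq (stX r b ds n k x)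
      (((4 * r' - b' + n + k + 1) * q + ((b' + 2 + k) * gmQ r' b' k * dq n
        - (k + 1) * gmQ r' b' n * dq k)) / (b' + 3 + n + k)) := by
  have h1 : Cq (stX r b ds n k x) _ := Cq_div (Cq_add (Cq_mul (Cq_sub (Cq_add (Cq_mul Cq_four hr)
    (Cq_qn (Nat.add (Nat.add n k) 1))) hb) hx)
    (Cq_sub (Cq_mul (Cq_mul (Cq_bn hb (Nat.add 2 k)) (Cq_gm hr hb hb0 k)) (hds n))
      (Cq_mul (Cq_mul (Cq_qn (Nat.add k 1)) (Cq_gm hr hb hb0 n)) (hds k))))
    (Cq_bn hb (Nat.add 3 (Nat.add n k))) (bn_pos hb0 _).ne'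
  refine h1.cast ?_
  change ((_ + ((n + k + 1 : ℕ) : ℚ) - _) * _ + ((b' + ((2 + k : ℕ) : ℚ)) * _ * _
    - ((k + 1 : ℕ) : ℚ) * _ * _)) / (b' + ((3 + (n + k) : ℕ) : ℚ)) = _
  push_cast
  congr 1
  · ring
  · ring

include hr hb hb0 in
theorem Cq_st2 (n k : ℕ) {x : QF} {q : ℚ} (hx : Cq x q) : Cq (stX2 r b n k x)
      ((4 * r' - b' + n + k + 1) * q / (b' + 3 + n + k)) := by
  have h1 : Cq (stX2 r b n k x) _ := Cq_div (Cq_mul (Cq_sub (Cq_add (Cq_mul Cq_four hr)
    (Cq_qn (Nat.add (Nat.add n k) 1))) hb) hx)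
    (Cq_bn hb (Nat.add 3 (Nat.add n k))) (bn_pos hb0 _).ne'
  refine h1.cast ?_
  change ((_ + ((n + k + 1 : ℕ) : ℚ) - _) * _) / (b' + ((3 + (n + k) : ℕ) : ℚ)) = _
  push_cast
  congr 1
  · ring
  · ring

theorem mmX_s (st : ℕ → ℕ → QF → QF) (x0 : QF) (n k : ℕ) :
    mmX st x0 (n + 1) k = st n k (mmX st x0 n k) := rfl

theorem mmX_zs (st : ℕ → ℕ → QF → QF) (x0 : QF) (k : ℕ) :
    mmX st x0 0 (k + 1) = st k 0 (mmX st x0 0 k) := rfl

include hr hb hb0 hσ in
theorem Cq_mm0 (n k : ℕ) : Cq (mmX (stX r b (dsX1 r b)) (qn 0) n k) (mmQ r' b' n k).c0 := by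
  have hds : ∀ n, Cq (dsX1 r b n) ((ssQ r' b' n 0).1 - (ssQ r' b' n 1).1) := fun n =>
    Cq_sub (Cq_ss1 hr hb hb0 hσ n 0) (Cq_ss1 hr hb hb0 hσ n 1)
  have hz : ∀ k, Cq (mmX (stX r b (dsX1 r b)) (qn 0) 0 k) (mm0 r' b' k).c0 := by
    intro k
    induction k with
    | zero => exact Cq_zero
    | succ k ih =>
      rw [mmX_zs, mm0, mmStep]
      exact Cq_st hr hb hb0 hds k 0 ih
  induction n with
  | zero => rw [mmQ]; exact hz k
  | succ n ih =>
    rw [mmX_s, mmQ, mmStep]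
    exact Cq_st hr hb hb0 hds n k ih

include hr hb hb0 hσ in
theorem Cq_mm1 (n k : ℕ) : Cq (mmX (stX r b (dsX2 r b)) (qn 0) n k) (mmQ r' b' n k).c1 := by
  have hds : ∀ n, Cq (dsX2 r b n) ((ssQ r' b' n 0).2 - (ssQ r' b' n 1).2) := fun n =>
    Cq_sub (Cq_ss2 hr hb hb0 hσ n 0) (Cq_ss2 hr hb hb0 hσ n 1)
  have hz : ∀ k, Cq (mmX (stX r b (dsX2 r b)) (qn 0) 0 k) (mm0 r' b' k).c1 := by
    intro k
    induction k with
    | zero => exact Cq_zero
    | succ k ih =>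
      rw [mmX_zs, mm0, mmStep]
      exact Cq_st hr hb hb0 hds k 0 ih
  induction n with
  | zero => rw [mmQ]; exact hz k
  | succ n ih =>
    rw [mmX_s, mmQ, mmStep]
    exact Cq_st hr hb hb0 hds n k ih

include hr hb hb0 in
theorem Cq_mm2 (n k : ℕ) : Cq (mmX (stX2 r b) (qn 1) n k) (mmQ r' b' n k).c2 := by
  have hz : ∀ k, Cq (mmX (stX2 r b) (qn 1) 0 k) (mm0 r' b' k).c2 := by
    intro k
    induction k with
    | zero => exact Cq_one
    | succ k ih =>
      rw [mmX_zs, mm0, mmStep]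
      exact Cq_st2 hr hb hb0 k 0 ih
  induction n with
  | zero => rw [mmQ]; exact hz k
  | succ n ih =>
    rw [mmX_s, mmQ, mmStep]
    exact Cq_st2 hr hb hb0 n k ih

include hb hb0 in
theorem Cq_w (k : ℕ) : Cq (wX b k) (wQ b' k) := by
  have h1 : Cq (wX b k) _ := Cq_div Cq_one (Cq_mul (Cq_bn hb k) (Cq_bn hb (Nat.succ k)))
    (mul_pos (bn_pos hb0 _) (bn_pos hb0 _)).ne'
  refine h1.cast ?_
  rw [wQ]
  push_cast
  rw [add_assoc b' (k : ℚ) 1]

include hb in
theorem Cq_poch (n : ℕ) : Cq (pochX b n) (AP.pochQ b' n) := by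
  induction n with
  | zero => exact Cq_one
  | succ n ih => exact Cq_mul ih (Cq_bn hb n)

end sound

/-- numerator, positive part -/
noncomputable def nPX (L : ℕ) (x : QF) : ℕ := Nat.mul x.p (Nat.div L x.d)

/-- numerator, negative part -/
noncomputable def nNX (L : ℕ) (x : QF) : ℕ := Nat.mul x.n (Nat.div L x.d)

theorem zP_toNat (z : ℤ) (c : ℕ) : zP z c = z.toNat * c := by
  rcases z with a | a
  · rfl
  · change 0 = 0 * c
    rw [zero_mul]

theorem zN_toNat (z : ℤ) (c : ℕ) : zN z c = (-z).toNat * c := by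
  rcases z with a | a
  · change 0 = (-(a : ℤ)).toNat * c
    have : (-(a : ℤ)).toNat = 0 := by omega
    rw [this, zero_mul]
  · rfl

theorem nPX_eq (L : ℕ) {x : QF} {q : ℚ} (h : Cq x q) : nPX L x = nP L q := by
  rw [nP, zP_toNat, nPX, h.1, h.2.1]
  rfl

theorem nNX_eq (L : ℕ) {x : QF} {q : ℚ} (h : Cq x q) : nNX L x = nN L q := by
  rw [nN, zN_toNat, nNX, h.1, h.2.2]
  rfl

theorem nPX_nmN (L : ℕ) {x : QF} {q : ℚ} (h : Cq x q) : nPX L x = nmN L q := by
  rw [nmN, nPX, h.1, h.2.1]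

/-- numerator -/
noncomputable def nmX (L : ℕ) (x : QF) : ℤ :=
  Int.mul (Int.subNatNat x.p x.n) (Int.ofNat (Nat.div L x.d))

theorem nmX_eq (L : ℕ) {x : QF} {q : ℚ} (h : Cq x q) : nmX L x = nmr L q := by
  rw [nmr, nmX, h.1, h.2.1, h.2.2]
  congr 1
  rw [Int.subNatNat_eq_coe]
  omega

theorem toNat_mul (z : ℤ) (c : ℕ) : (z * (c : ℤ)).toNat = z.toNat * c := by
  rcases le_total 0 z with h | h
  · obtain ⟨a, rfl⟩ := Int.eq_ofNat_of_zero_le h
    rw [← Nat.cast_mul, Int.toNat_natCast, Int.toNat_natCast]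
  · have h1 : z.toNat = 0 := by omega
    have h2 : z * (c : ℤ) ≤ 0 := mul_nonpos_of_nonpos_of_nonneg h (Int.natCast_nonneg c)
    have h3 : (z * (c : ℤ)).toNat = 0 := by omega
    rw [h1, h3, zero_mul]

theorem toNat_nmr (L : ℕ) (q : ℚ) : Int.toNat (nmr L q) = nP L q := by
  rw [nP, zP_toNat, nmr]
  exact toNat_mul _ _

theorem toNat_neg_nmr (L : ℕ) (q : ℚ) : Int.toNat (Int.neg (nmr L q)) = nN L q := by
  rw [nN, zN_toNat, nmr]
  change Int.toNat (-(q.num * ((L / q.den : ℕ) : ℤ))) = _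
  rw [← neg_mul]
  exact toNat_mul _ _

/-- the least common denominator -/
noncomputable def lcdX (f : ℕ → QF) : ℕ → ℕ :=
  Nat.rec (motive := fun _ => ℕ) 1 (fun n ih => Nat.lcm ih (f n).d)

/-- the least common denominator of a matrix -/
noncomputable def lcd2X (f : ℕ → ℕ → QF) (m' : ℕ) : ℕ → ℕ :=
  Nat.rec (motive := fun _ => ℕ) 1 (fun n ih => Nat.lcm ih (lcdX (f n) m'))

theorem lcdX_eq {F : ℕ → QF} {f : ℕ → ℚ} {n : ℕ} (h : ∀ i < n, Cq (F i) (f i)) :
    lcdX F n = lcd f n := by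
  induction n with
  | zero => rfl
  | succ n ih =>
    change Nat.lcm (lcdX F n) (F n).d = Nat.lcm (lcd f n) (f n).den
    rw [ih (fun i hi => h i (Nat.lt_succ_of_lt hi)), (h n (Nat.lt_succ_self n)).1]

theorem lcd2X_eq {F : ℕ → ℕ → QF} {f : ℕ → ℕ → ℚ} {m' n : ℕ}
    (h : ∀ i < n, ∀ j < m', Cq (F i j) (f i j)) : lcd2X F m' n = lcd2 f m' n := by
  induction n with
  | zero => rfl
  | succ n ih =>
    change Nat.lcm (lcd2X F m' n) (lcdX (F n) m') = Nat.lcm (lcd2 f m' n) (lcd (f n) m')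
    rw [ih (fun i hi => h i (Nat.lt_succ_of_lt hi)), lcdX_eq (h n (Nat.lt_succ_self n))]

theorem tabG_congr {α : Type} {f g : ℕ → α} {n : ℕ} (h : ∀ i < n, f i = g i) :
    tabG f n = tabG g n := by
  rw [tabG_eq, tabG_eq]
  exact List.map_congr_left (fun i hi => h i (List.mem_range.1 hi))

/-- numerators of a non-negative function -/
noncomputable def svX (f : ℕ → QF) (n : ℕ) : List ℕ := tabG (fun i => nPX (lcdX f n) (f i)) n

theorem svX_eq {F : ℕ → QF} {f : ℕ → ℚ} {n : ℕ} (h : ∀ i < n, Cq (F i) (f i)) :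
    svX F n = svN f n := by
  rw [svX, svN, lcdX_eq h]
  exact tabG_congr (fun i hi => nPX_nmN _ (h i hi))

/-- rows of a matrix, positive parts -/
noncomputable def rwPX (f : ℕ → ℕ → QF) (L m' i : ℕ) : List ℕ := tabG (fun j => nPX L (f i j)) m'

/-- rows of a matrix, negative parts -/
noncomputable def rwNX (f : ℕ → ℕ → QF) (L m' i : ℕ) : List ℕ := tabG (fun j => nNX L (f i j)) m'

/-- product of a rational matrix and a family of vectors of length `n` -/
noncomputable def mvX (f : ℕ → ℕ → QF) (m m' n K : ℕ) (A : ℕ → CV4) (t : ℕ) : CV4 :=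
  mvF (rwPX f (lcd2X f m' m) m') (rwNX f (lcd2X f m' m) m') m n K A t

/-- a complex number with rational parts -/
structure GX where
  /-- real part -/
  re : QF
  /-- imaginary part -/
  im : QF

/-- `x` is `z` in lowest terms -/
def Cg (x : GX) (z : GQ) : Prop := Cq x.re z.re ∧ Cq x.im z.im

/-- product -/
noncomputable def GX.mul (x y : GX) : GX :=
  ⟨(x.re.mul y.re).sub (x.im.mul y.im), (x.re.mul y.im).add (x.im.mul y.re)⟩

/-- product with a rational number -/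
noncomputable def GX.sc (q : QF) (x : GX) : GX := ⟨q.mul x.re, q.mul x.im⟩

/-- sum -/
noncomputable def GX.add (x y : GX) : GX := ⟨x.re.add y.re, x.im.add y.im⟩

theorem Cg_mul {x y : GX} {z w : GQ} (hx : Cg x z) (hy : Cg y w) : Cg (x.mul y) (z.mul w) :=
  ⟨Cq_sub (Cq_mul hx.1 hy.1) (Cq_mul hx.2 hy.2), Cq_add (Cq_mul hx.1 hy.2) (Cq_mul hx.2 hy.1)⟩

theorem Cg_sc {x : GX} {z : GQ} {q : QF} {a : ℚ} (hq : Cq q a) (hx : Cg x z) :
    Cg (x.sc q) (z.sc a) :=
  ⟨Cq_mul hq hx.1, Cq_mul hq hx.2⟩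

theorem Cg_add {x y : GX} {z w : GQ} (hx : Cg x z) (hy : Cg y w) : Cg (x.add y) (z.add w) :=
  ⟨Cq_add hx.1 hy.1, Cq_add hx.2 hy.2⟩

/-- finite sums -/
noncomputable def smGX (f : ℕ → GX) : ℕ → GX :=
  Nat.rec (motive := fun _ => GX) ⟨qn 0, qn 0⟩ (fun n ih => ih.add (f n))

theorem Cg_sm {F : ℕ → GX} {f : ℕ → GQ} {n : ℕ} (h : ∀ i < n, Cg (F i) (f i)) :
    Cg (smGX F n) (smG f n) := by
  induction n with
  | zero => exact ⟨Cq_zero, Cq_zero⟩
  | succ n ih => exact Cg_add (ih (fun i hi => h i (Nat.lt_succ_of_lt hi))) (h n (Nat.lt_succ_self n))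

/-- common denominator of a family -/
noncomputable def lcdCX (f : ℕ → ℕ → GX) (K n : ℕ) : ℕ :=
  Nat.lcm (lcd2X (fun i t => (f i t).re) K n) (lcd2X (fun i t => (f i t).im) K n)

/-- a family of vectors -/
noncomputable def fam4X (f : ℕ → ℕ → GX) (K n t : ℕ) : CV4 :=
  ⟨tabG (fun i => nPX (lcdCX f K n) (f i t).re) n, tabG (fun i => nNX (lcdCX f K n) (f i t).re) n,
    tabG (fun i => nPX (lcdCX f K n) (f i t).im) n, tabG (fun i => nNX (lcdCX f K n) (f i t).im) n⟩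

theorem lcdCX_eq {F : ℕ → ℕ → GX} {f : ℕ → ℕ → GQ} {K n : ℕ}
    (h : ∀ i < n, ∀ t < K, Cg (F i t) (f i t)) : lcdCX F K n = lcdC f K n := by
  rw [lcdCX, lcdC, lcd2X_eq (fun i hi t ht => (h i hi t ht).1),
    lcd2X_eq (fun i hi t ht => (h i hi t ht).2)]

/-- a fraction -/
noncomputable def zq (z : ℤ) (d : ℕ) : QF := nrm (zP z 1) (zN z 1) d

theorem Cq_zq (z : ℤ) {d : ℕ} (hd : 0 < d) : Cq (zq z d) (mkRat z d) := by
  refine Cq_nrm hd ?_
  have h1 : ((zP z 1 : ℕ) : ℤ) - ((zN z 1 : ℕ) : ℤ) = z := by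
    rw [zPN]
    push_cast
    ring
  have h2 : ((zP z 1 : ℕ) : ℚ) - ((zN z 1 : ℕ) : ℚ) = (z : ℚ) := by exact_mod_cast h1
  have h3 : (d : ℚ) ≠ 0 := by exact_mod_cast hd.ne'
  rw [h2, Rat.mkRat_eq_div]
  field_simp

/-- the fast form of a rational number -/
noncomputable def ofQ (q : ℚ) : QF := ⟨zP q.num 1, zN q.num 1, q.den⟩

theorem Cq_ofQ (q : ℚ) : Cq (ofQ q) q := by
  refine ⟨rfl, ?_, ?_⟩
  · change zP q.num 1 = _
    rw [zP_toNat, mul_one]
  · change zN q.num 1 = _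
    rw [zN_toNat, mul_one]

/-- the product in the functionals; `s` is the exponent -/
noncomputable def prX (re im : QF) : ℕ → GX :=
  Nat.rec (motive := fun _ => GX) ⟨qn 1, qn 0⟩
    (fun n ih => ih.mul ⟨re.add (qn (Nat.add 2 n)), im⟩)

/-- the coefficient of the functionals -/
noncomputable def mcX (n r : ℕ) : QF :=
  nrm (Nat.choose (Nat.succ n) (Nat.mul 2 r)) 0
    (Nat.mul (Nat.pow 2 (Nat.sub (Nat.succ n) (Nat.mul 2 r))) (Nat.factorial (Nat.succ n)))

/-- the functionals -/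
noncomputable def muX (re im : QF) (n r : ℕ) : GX := (prX re im n).sc (mcX n r)

/-- the coefficients of the inner function -/
noncomputable def phX (re im : QF) (D : ℕ) (p : ℕ → ℕ → QF) (l r : ℕ) : GX :=
  Nat.rec (motive := fun _ => GX)
    ((GX.sc (qn 2) ⟨((qn 1).add re).div ((((qn 1).add re).mul ((qn 1).add re)).add (im.mul im)),
      ((qn 0).sub im).div ((((qn 1).add re).mul ((qn 1).add re)).add (im.mul im))⟩).mul
        (muX re im 0 r))
    (fun l _ => smGX (fun n => (muX re im n r).sc (p n l)) D) l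

section func

variable {re im : QF} {s : GQ} (hre : Cq re s.re) (him : Cq im s.im)

include hre him in
theorem Cg_pr (n : ℕ) : Cg (prX re im n) (prQ s n) := by
  induction n with
  | zero => exact ⟨Cq_one, Cq_zero⟩
  | succ n ih =>
    refine Cg_mul ih ⟨?_, him⟩
    refine (Cq_add hre (Cq_qn (Nat.add 2 n))).cast ?_
    change s.re + ((2 + n : ℕ) : ℚ) = _
    push_cast
    ring

theorem Cq_mc (n r : ℕ) : Cq (mcX n r) ((Nat.choose (n + 1) (2 * r) : ℚ)
    * (1 / 2) ^ (n + 1 - 2 * r) / (Nat.factorial (n + 1) : ℚ)) := by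
  refine Cq_nrm (Nat.mul_pos (Nat.pow_pos (by norm_num)) (Nat.factorial_pos _)) ?_
  change ((Nat.choose (n + 1) (2 * r) : ℕ) : ℚ) - ((0 : ℕ) : ℚ)
    = _ * ((2 ^ (n + 1 - 2 * r) * Nat.factorial (n + 1) : ℕ) : ℚ)
  have h1 : ((Nat.factorial (n + 1) : ℕ) : ℚ) ≠ 0 := by
    exact_mod_cast (Nat.factorial_pos _).ne'
  obtain ⟨k, hk⟩ : ∃ k, k = n + 1 - 2 * r := ⟨_, rfl⟩
  have h2 : ((1 : ℚ) / 2) ^ k * 2 ^ k = 1 := by
    rw [← mul_pow]
    norm_num
  rw [← hk]
  push_cast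
  field_simp
  linear_combination (-(Nat.choose (n + 1) (2 * r) : ℚ)) * h2

include hre him in
theorem Cg_mu (n r : ℕ) : Cg (muX re im n r) (muQ s n r) := Cg_sc (Cq_mc n r) (Cg_pr hre him n)

include hre him in
theorem Cg_ph (hs : 1 + s.re ≠ 0) {D : ℕ} {p : ℕ → ℕ → QF} {p' : ℕ → ℕ → ℚ}
    (hp : ∀ n < D, ∀ l, Cq (p n l) (p' n l)) (l r : ℕ) :
    Cg (phX re im D p l r) (phQ s D p' l r) := by
  rcases l with _ | l
  · have h1 : Cq ((qn 1).add re) (1 + s.re) := Cq_add Cq_one hre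
    have h2 : Cq ((((qn 1).add re).mul ((qn 1).add re)).add (im.mul im))
        ((1 + s.re) * (1 + s.re) + s.im * s.im) := Cq_add (Cq_mul h1 h1) (Cq_mul him him)
    have h3 : (1 + s.re) * (1 + s.re) + s.im * s.im ≠ 0 := by
      have := mul_self_pos.2 hs
      have := mul_self_nonneg s.im
      linarith
    have h4 : Cq ((qn 0).sub im) (-s.im) := by
      refine (Cq_sub Cq_zero him).cast ?_
      ring
    rw [phQ]
    refine Cg_mul (Cg_sc Cq_two ⟨Cq_div h1 h2 h3, Cq_div h4 h2 h3⟩) (Cg_mu hre him 0 r)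
  · rw [phQ]
    exact Cg_sm (fun n hn => Cg_sc (hp n hn l) (Cg_mu hre him n r))

end func

section cross

variable (r b : QF) (D : ℕ) (p : ℕ → ℕ → QF) (J : ℕ)

/-- positive parts of a row of the kernel -/
noncomputable def pPoX (j : ℕ) : List ℕ := tabG (fun m => nPX (lcd2X p D D) (p j m)) D

/-- negative parts of a row of the kernel -/
noncomputable def pNeX (j : ℕ) : List ℕ := tabG (fun m => nNX (lcd2X p D D) (p j m)) D

/-- negative part of the cross function -/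
noncomputable def cNeX (W : List ℕ) (l : ℕ) : List ℕ :=
  tabG (fun j => dotN (pPoX D p j) (dropN (Nat.succ l) W)) D

/-- positive part of the cross function -/
noncomputable def cPoX (W : List ℕ) (l : ℕ) : List ℕ :=
  axN (lcd2X p D D) (takeN J (dropN (Nat.succ l) W))
    (tabG (fun j => dotN (pNeX D p j) (dropN (Nat.succ l) W)) D)

/-- numerators of the matrix -/
noncomputable def wwIX (W G : List ℕ) (l k : ℕ) : ℤ :=
  Int.subNatNat (Nat.add (dotN (cPoX D p J W l) (convN (cPoX D p J W k) J G))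
      (dotN (cNeX D p W l) (convN (cNeX D p W k) J G)))
    (Nat.add (dotN (convN (cNeX D p W k) J G) (cPoX D p J W l))
      (dotN (cNeX D p W l) (convN (cPoX D p J W k) J G)))

/-- numerators of the weights -/
noncomputable def wLX : List ℕ := svX (wX b) (Nat.succ (Nat.add D J))

/-- numerators of the moments -/
noncomputable def gLX : List ℕ := svX (gmX r b) (Nat.mul 2 J)

/-- the tail on the diagonal -/
noncomputable def tlX (th : ℚ) (l : ℕ) : QF :=
  (((ofQ (1 + 1 / th)).mul (gmX r b (Nat.mul 2 J))).mul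
    (smX (fun l' => (qn 1).div (b.add (qn (Nat.add (Nat.succ l') J)))) (Nat.succ D))).mul
    ((qn 1).div (b.add (qn (Nat.add (Nat.succ l) J))))

/-- denominator of the products -/
noncomputable def wwDX : ℕ :=
  Nat.mul (Nat.mul (lcd2X p D D) (lcdX (wX b) (Nat.succ (Nat.add D J))))
    (Nat.mul (Nat.mul (lcd2X p D D) (lcdX (wX b) (Nat.succ (Nat.add D J))))
      (lcdX (gmX r b) (Nat.mul 2 J)))

/-- entries of the matrix of the cross functional over the common denominator -/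
noncomputable def wwEX (th : ℚ) (l k : ℕ) : ℤ :=
  Int.add (Int.mul (Int.mul (1 + th).num (Int.ofNat (lcdX (tlX r b D J th) (Nat.succ D))))
      (bif Nat.ble l k then wwIX D p J (wLX b D J) (gLX r b J) l k
        else wwIX D p J (wLX b D J) (gLX r b J) k l))
    (bif Nat.beq l k then Int.mul (nmX (lcdX (tlX r b D J th) (Nat.succ D)) (tlX r b D J th l))
      (Int.ofNat (Nat.mul (1 + th).den (wwDX r b D p J))) else 0)

/-- denominator of the matrix of the cross functional -/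
noncomputable def wwdX (th : ℚ) : ℕ :=
  Nat.mul (Nat.mul (1 + th).den (lcdX (tlX r b D J th) (Nat.succ D))) (wwDX r b D p J)

end cross

section sound

variable {r b : QF} {r' b' : ℚ} (hr : Cq r r') (hb : Cq b b') (hb0 : 0 < b')
  {D : ℕ} {p : ℕ → ℕ → QF} {p' : ℕ → ℕ → ℚ} (hp : ∀ n < D, ∀ l < D, Cq (p n l) (p' n l)) (J : ℕ)

include hp in
theorem pPoX_eq {j : ℕ} (hj : j < D) : pPoX D p j = pPo D p' j := by
  rw [pPoX, pPo, lcd2X_eq hp]
  exact tabG_congr (fun m hm => by rw [nPX_eq _ (hp j hj m hm), toNat_nmr])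

include hp in
theorem pNeX_eq {j : ℕ} (hj : j < D) : pNeX D p j = pNe D p' j := by
  rw [pNeX, pNe, lcd2X_eq hp]
  exact tabG_congr (fun m hm => by rw [nNX_eq _ (hp j hj m hm), toNat_neg_nmr])

include hb hb0 in
theorem wLX_eq : wLX b D J = wNs b' D J := svX_eq (fun i _ => Cq_w hb hb0 i)

include hr hb hb0 in
theorem gLX_eq : gLX r b J = gNs r' b' J := svX_eq (fun i _ => Cq_gm hr hb hb0 i)

include hb hb0 hp in
theorem cNeX_eq (l : ℕ) : cNeX D p (wLX b D J) l = cNe b' D p' J l := by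
  rw [cNeX, cNe, wLX_eq hb hb0]
  exact tabG_congr (fun j hj => by rw [pPoX_eq hp hj])

include hb hb0 hp in
theorem cPoX_eq (l : ℕ) : cPoX D p J (wLX b D J) l = cPo b' D p' J l := by
  rw [cPoX, cPo, wLX_eq hb hb0, lcd2X_eq hp]
  congr 1
  exact tabG_congr (fun j hj => by rw [pNeX_eq hp hj])

include hr hb hb0 hp in
theorem wwIX_eq (l k : ℕ) : wwIX D p J (wLX b D J) (gLX r b J) l k = wwI r' b' D p' J l k := by
  rw [wwIX, wwI, cPoX_eq hb hb0 hp, cPoX_eq hb hb0 hp, cNeX_eq hb hb0 hp, cNeX_eq hb hb0 hp,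
    gLX_eq hr hb hb0, vPo, vNe]

include hr hb hb0 in
theorem Cq_tl (th : ℚ) (l : ℕ) : Cq (tlX r b D J th l) (tlQ r' b' D J th l) := by
  have h1 : ∀ l' : ℕ, Cq ((qn 1).div (b.add (qn (Nat.add (Nat.succ l') J))))
      (1 / (b' + l' + 1 + J)) := by
    intro l'
    refine (Cq_div Cq_one (Cq_bn hb _) (bn_pos hb0 _).ne').cast ?_
    change 1 / (b' + ((l' + 1 + J : ℕ) : ℚ)) = _
    push_cast
    congr 1
    ring
  have h2 := Cq_mul (Cq_mul (Cq_mul (Cq_ofQ (1 + 1 / th)) (Cq_gm hr hb hb0 (Nat.mul 2 J)))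
    (Cq_sm (n := Nat.succ D) (fun l' _ => h1 l'))) (h1 l)
  exact h2

include hr hb hb0 hp in
theorem wwDX_eq : wwDX r b D p J = wwD r' b' D p' J := by
  rw [wwDX, wwD, lcd2X_eq hp, lcdX_eq (fun i _ => Cq_w hb hb0 i),
    lcdX_eq (fun i _ => Cq_gm hr hb hb0 i)]

include hr hb hb0 hp in
theorem wwEX_eq (th : ℚ) {l k : ℕ} : wwEX r b D p J th l k = wwE r' b' D p' J th l k := by
  rw [wwEX, wwE, wwIX_eq hr hb hb0 hp, wwIX_eq hr hb hb0 hp, wwDX_eq hr hb hb0 hp,
    lcdX_eq (fun i _ => Cq_tl hr hb hb0 J th i), nmX_eq _ (Cq_tl hr hb hb0 J th l)]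

include hr hb hb0 hp in
theorem wwdX_eq (th : ℚ) : wwdX r b D p J th = (wwM r' b' D p' J th).den := by
  rw [wwdX, wwM, wwDX_eq hr hb hb0 hp, lcdX_eq (fun i _ => Cq_tl hr hb hb0 J th i)]

end sound

/-- the Gaussian integer -/
noncomputable def _root_.Pool.Agent.M16.Helper65.HR2.G4.toZ (x : G4) : GZ := ⟨Int.subNatNat x.a x.b, Int.subNatNat x.c x.d⟩

/-- the reduced form of the differences `p - n`, `q - m` -/
noncomputable def mkG (p n q m : ℕ) : G4 :=
  frc (fun a => frc (fun b => frc (fun c => frc (fun d => G4.mk a b c d) (Nat.sub m q))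
    (Nat.sub q m)) (Nat.sub n p)) (Nat.sub p n)

theorem snn_sub (p n : ℕ) : Int.subNatNat (p - n) (n - p) = (p : ℤ) - (n : ℤ) := by
  rw [Int.subNatNat_eq_coe]
  omega

theorem mkG_toZ (p n q m : ℕ) : (mkG p n q m).toZ = ⟨(p : ℤ) - n, (q : ℤ) - m⟩ := by
  rw [mkG, frc_eq, frc_eq, frc_eq, frc_eq, G4.toZ]
  congr 1
  · exact snn_sub p n
  · exact snn_sub q m

/-- an entry of the Schur complement -/
noncomputable def schP (h : ℕ) (a m b : G4) : G4 :=
  G4.rec (motive := fun _ => G4) (fun a1 a2 a3 a4 => G4.rec (motive := fun _ => G4)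
    (fun m1 m2 m3 m4 => G4.rec (motive := fun _ => G4) (fun b1 b2 b3 b4 =>
      mkG (Nat.add (Nat.mul h m1) (Nat.add (Nat.add (Nat.mul a1 b2) (Nat.mul a2 b1))
            (Nat.add (Nat.mul a3 b4) (Nat.mul a4 b3))))
        (Nat.add (Nat.mul h m2) (Nat.add (Nat.add (Nat.mul a1 b1) (Nat.mul a2 b2))
            (Nat.add (Nat.mul a3 b3) (Nat.mul a4 b4))))
        (Nat.add (Nat.mul h m3) (Nat.add (Nat.add (Nat.mul a1 b4) (Nat.mul a2 b3))
            (Nat.add (Nat.mul a3 b1) (Nat.mul a4 b2))))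
        (Nat.add (Nat.mul h m4) (Nat.add (Nat.add (Nat.mul a1 b3) (Nat.mul a2 b4))
            (Nat.add (Nat.mul a3 b2) (Nat.mul a4 b1))))) b) m) a

theorem schP_toZ (h : ℕ) (a m b : G4) :
    (schP h a m b).toZ = schZ (h : ℤ) a.toZ m.toZ b.toZ := by
  obtain ⟨a1, a2, a3, a4⟩ := a
  obtain ⟨m1, m2, m3, m4⟩ := m
  obtain ⟨b1, b2, b3, b4⟩ := b
  rw [schP]
  refine (mkG_toZ _ _ _ _).trans ?_
  rw [schZ, G4.toZ, G4.toZ, G4.toZ]
  simp only [Int.subNatNat_eq_coe]
  congr 1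
  · change (((h * m1 + ((a1 * b2 + a2 * b1) + (a3 * b4 + a4 * b3)) : ℕ) : ℤ)
      - ((h * m2 + ((a1 * b1 + a2 * b2) + (a3 * b3 + a4 * b4)) : ℕ) : ℤ))
      = (h : ℤ) * ((m1 : ℤ) - m2) - (((a1 : ℤ) - a2) * ((b1 : ℤ) - b2)
        + ((a3 : ℤ) - a4) * ((b3 : ℤ) - b4))
    push_cast
    ring
  · change (((h * m3 + ((a1 * b4 + a2 * b3) + (a3 * b1 + a4 * b2)) : ℕ) : ℤ)
      - ((h * m4 + ((a1 * b3 + a2 * b4) + (a3 * b2 + a4 * b1)) : ℕ) : ℤ))
      = (h : ℤ) * ((m3 : ℤ) - m4) - (((a1 : ℤ) - a2) * ((b3 : ℤ) - b4)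
        - ((a3 : ℤ) - a4) * ((b1 : ℤ) - b2))
    push_cast
    ring

/-- a row of the Schur complement -/
noncomputable def zipP (h : ℕ) (a : G4) : List G4 → List G4 → List G4 :=
  List.rec (motive := fun _ => List G4 → List G4) (fun _ => [])
    (fun m _ ih v => List.rec (motive := fun _ => List G4) []
      (fun b t _ => schP h a m b :: ih t) v)

theorem zipP_toZ (h : ℕ) (a : G4) (row : List G4) : ∀ v : List G4,
    (zipP h a row v).map G4.toZ = zipS (h : ℤ) a.toZ (row.map G4.toZ) (v.map G4.toZ) := by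
  induction row with
  | nil => intro v; rfl
  | cons m row ih =>
    intro v
    rcases v with _ | ⟨b, v⟩
    · rfl
    · change (schP h a m b :: zipP h a row v).map G4.toZ
        = schZ (h : ℤ) a.toZ m.toZ b.toZ :: zipS (h : ℤ) a.toZ (row.map G4.toZ) (v.map G4.toZ)
      rw [List.map_cons, ih v, schP_toZ]

/-- the Schur complement -/
noncomputable def schPL (h : ℕ) : List G4 → List (List G4) → List (List G4) :=
  List.rec (motive := fun _ => List (List G4) → List (List G4)) (fun _ => [])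
    (fun a u ih rows => List.rec (motive := fun _ => List (List G4)) []
      (fun row rest _ => zipP h a row (a :: u) :: ih rest) rows)

theorem schPL_toZ (h : ℕ) (u : List G4) : ∀ rows : List (List G4),
    (schPL h u rows).map (List.map G4.toZ)
      = schL (h : ℤ) (u.map G4.toZ) (rows.map (List.map G4.toZ)) := by
  induction u with
  | nil => intro rows; rfl
  | cons a u ih =>
    intro rows
    rcases rows with _ | ⟨row, rest⟩
    · rfl
    · change (zipP h a row (a :: u) :: schPL h u rest).map (List.map G4.toZ)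
        = zipS (h : ℤ) a.toZ (row.map G4.toZ) ((a :: u).map G4.toZ)
          :: schL (h : ℤ) (u.map G4.toZ) (rest.map (List.map G4.toZ))
      rw [List.map_cons, ih rest, zipP_toZ]

/-- the check, for a list of rows of the upper triangle -/
noncomputable def psdP : ℕ → List (List G4) → Bool :=
  Nat.rec (motive := fun _ => List (List G4) → Bool) (fun _ => true)
    (fun _ ih rows => List.rec (motive := fun _ => Bool) false
      (fun row rest _ => List.rec (motive := fun _ => Bool) false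
        (fun h u _ => Bool.and (Bool.and (Nat.beq h.b 0) (Nat.ble 1 h.a))
          (ih (schPL h.a u rest))) row) rows)

theorem psdP_psdL (n : ℕ) : ∀ rows : List (List G4), psdP n rows = true →
    psdL n (rows.map (List.map G4.toZ)) = true := by
  induction n with
  | zero => intro rows _; rfl
  | succ n ih =>
    intro rows h
    rcases rows with _ | ⟨row, rest⟩
    · exact absurd h (by intro h'; exact Bool.noConfusion h')
    · rcases row with _ | ⟨x, u⟩
      · exact absurd h (by intro h'; exact Bool.noConfusion h')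
      · change Bool.and (Bool.and (Nat.beq x.b 0) (Nat.ble 1 x.a))
          (psdP n (schPL x.a u rest)) = true at h
        obtain ⟨h1, h2⟩ := (Bool.and_eq_true _ _).mp h
        obtain ⟨h3, h4⟩ := (Bool.and_eq_true _ _).mp h1
        have h5 : x.b = 0 := Nat.eq_of_beq_eq_true h3
        have h6 : 1 ≤ x.a := Nat.le_of_ble_eq_true h4
        have h7 : x.toZ.re = (x.a : ℤ) := by
          rw [G4.toZ, h5]
          simp only
          rw [Int.subNatNat_eq_coe]
          omega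
        change Bool.and (decide (0 < x.toZ.re)) (psdL n (schL x.toZ.re (u.map G4.toZ)
          (rest.map (List.map G4.toZ)))) = true
        rw [h7, ← schPL_toZ, ih _ h2]
        have h8 : (0 : ℤ) < (x.a : ℤ) := by omega
        rw [decide_eq_true h8]
        rfl

/-- a row of the upper triangle -/
noncomputable def rowP (f : ℕ → ℕ → G4) (K i : ℕ) : List G4 :=
  Nat.rec (motive := fun _ => List G4 → List G4) (fun acc => acc)
    (fun j ih acc => ih (bif Nat.ble i j then f i j :: acc else acc)) K []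

/-- the upper triangle -/
noncomputable def triP (f : ℕ → ℕ → G4) (K : ℕ) : List (List G4) := tabG (rowP f K) K

theorem rowP_toZ (f : ℕ → ℕ → G4) (K i : ℕ) :
    (rowP f K i).map G4.toZ = rowU (fun i j => (f i j).toZ) K i := by
  have h : ∀ (n : ℕ) (acc : List G4), (Nat.rec (motive := fun _ => List G4 → List G4)
      (fun acc => acc) (fun j ih acc => ih (bif Nat.ble i j then f i j :: acc else acc)) n acc
        : List G4).map G4.toZ = (Nat.rec (motive := fun _ => List GZ → List GZ)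
      (fun acc => acc) (fun j ih acc => ih (bif Nat.ble i j then (f i j).toZ :: acc else acc)) n
        (acc.map G4.toZ) : List GZ) := by
    intro n
    induction n with
    | zero => intro acc; rfl
    | succ n ih =>
      intro acc
      refine (ih _).trans ?_
      change _ = (Nat.rec (motive := fun _ => List GZ → List GZ)
        (fun acc => acc) (fun j ih acc => ih (bif Nat.ble i j then (f i j).toZ :: acc else acc)) n
          (bif Nat.ble i n then (f i n).toZ :: acc.map G4.toZ else acc.map G4.toZ) : List GZ)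
      congr 1
      cases Nat.ble i n
      · rfl
      · rfl
  exact h K []

theorem triP_toZ (f : ℕ → ℕ → G4) (K : ℕ) :
    (triP f K).map (List.map G4.toZ) = triU (fun i j => (f i j).toZ) K := by
  rw [triP, triU, tabG_eq, tabG_eq, List.map_map]
  exact List.map_congr_left (fun i _ => rowP_toZ f K i)

/-- twice the Hermitian part -/
noncomputable def hzP (z : ℕ → ℕ → G4) (i j : ℕ) : G4 :=
  G4.rec (motive := fun _ => G4) (fun a b c d => G4.rec (motive := fun _ => G4)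
    (fun a' b' c' d' => mkG (Nat.add a a') (Nat.add b b') (Nat.add c d') (Nat.add d c'))
      (z j i)) (z i j)

theorem hzP_toZ (z : ℕ → ℕ → G4) (i j : ℕ) : (hzP z i j).toZ = hz4 z i j := by
  have e : hzP z i j = mkG ((z i j).a + (z j i).a) ((z i j).b + (z j i).b)
    ((z i j).c + (z j i).d) ((z i j).d + (z j i).c) := rfl
  have e2 : hz4 z i j = ⟨Int.subNatNat ((z i j).a + (z j i).a) ((z i j).b + (z j i).b),
      Int.subNatNat ((z i j).c + (z j i).d) ((z i j).d + (z j i).c)⟩ := rfl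
  rw [e, e2, mkG_toZ, Int.subNatNat_eq_coe, Int.subNatNat_eq_coe]

/-- combination of four matrices -/
noncomputable def combP (x0 x1 x2 x3 : ℕ) (A B C D : G4) : G4 :=
  mkG (Nat.add (Nat.mul x0 A.a) (Nat.add (Nat.mul x1 B.b) (Nat.add (Nat.mul x2 C.b)
      (Nat.mul x3 D.b))))
    (Nat.add (Nat.mul x0 A.b) (Nat.add (Nat.mul x1 B.a) (Nat.add (Nat.mul x2 C.a)
      (Nat.mul x3 D.a))))
    (Nat.add (Nat.mul x0 A.c) (Nat.add (Nat.mul x1 B.d) (Nat.add (Nat.mul x2 C.d)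
      (Nat.mul x3 D.d))))
    (Nat.add (Nat.mul x0 A.d) (Nat.add (Nat.mul x1 B.c) (Nat.add (Nat.mul x2 C.c)
      (Nat.mul x3 D.c))))

theorem combP_toZ (x0 x1 x2 x3 : ℕ) (A B C D : G4) :
    (combP x0 x1 x2 x3 A B C D).toZ
      = comb4Z (x0 : ℤ) (x1 : ℤ) (x2 : ℤ) (x3 : ℤ) A.toZ B.toZ C.toZ D.toZ := by
  obtain ⟨a1, a2, a3, a4⟩ := A
  obtain ⟨b1, b2, b3, b4⟩ := B
  obtain ⟨c1, c2, c3, c4⟩ := C
  obtain ⟨d1, d2, d3, d4⟩ := D
  rw [combP]
  refine (mkG_toZ _ _ _ _).trans ?_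
  rw [comb4Z, G4.toZ, G4.toZ, G4.toZ, G4.toZ]
  simp only [Int.subNatNat_eq_coe]
  congr 1
  · change (((x0 * a1 + (x1 * b2 + (x2 * c2 + x3 * d2)) : ℕ) : ℤ)
      - ((x0 * a2 + (x1 * b1 + (x2 * c1 + x3 * d1)) : ℕ) : ℤ))
      = (x0 : ℤ) * ((a1 : ℤ) - a2) - ((x1 : ℤ) * ((b1 : ℤ) - b2) + ((x2 : ℤ) * ((c1 : ℤ) - c2)
        + (x3 : ℤ) * ((d1 : ℤ) - d2)))
    push_cast
    ring
  · change (((x0 * a3 + (x1 * b4 + (x2 * c4 + x3 * d4)) : ℕ) : ℤ)
      - ((x0 * a4 + (x1 * b3 + (x2 * c3 + x3 * d3)) : ℕ) : ℤ))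
      = (x0 : ℤ) * ((a3 : ℤ) - a4) - ((x1 : ℤ) * ((b3 : ℤ) - b4) + ((x2 : ℤ) * ((c3 : ℤ) - c4)
        + (x3 : ℤ) * ((d3 : ℤ) - d4)))
    push_cast
    ring

/-- check of positivity of `A - E (B + S C + M D)`, for non-negative numbers -/
noncomputable def chkP (K : ℕ) (A B C D : ℕ → ℕ → G4) (E S M : ℚ) : Bool :=
  Bool.and (Bool.and (Nat.beq (zN E.num 1) 0) (Bool.and (Nat.beq (zN S.num 1) 0)
    (Nat.beq (zN M.num 1) 0)))
  (psdP K (triP (fun i j => combP
    (Nat.mul E.den (Nat.mul S.den M.den))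
    (Nat.mul (zP E.num 1) (Nat.mul S.den M.den))
    (Nat.mul (zP E.num 1) (Nat.mul (zP S.num 1) M.den))
    (Nat.mul (zP E.num 1) (Nat.mul (zP M.num 1) S.den)) (A i j) (B i j) (C i j) (D i j)) K))

theorem zP_of {z : ℤ} (h : zN z 1 = 0) : ((zP z 1 : ℕ) : ℤ) = z := by
  have := zPN z 1
  rw [h] at this
  push_cast at this
  linarith

theorem chkP_chkZ {K : ℕ} {A B C D : ℕ → ℕ → G4} {A' B' C' D' : ℕ → ℕ → GZ} {E S M : ℚ}
    (h : chkP K A B C D E S M = true) (hA : ∀ i j, (A i j).toZ = A' i j)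
    (hB : ∀ i j, (B i j).toZ = B' i j) (hC : ∀ i j, (C i j).toZ = C' i j)
    (hD : ∀ i j, (D i j).toZ = D' i j) : chkZ K A' B' C' D' E S M = true := by
  rw [chkP] at h
  obtain ⟨h1, h2⟩ := (Bool.and_eq_true _ _).mp h
  obtain ⟨h3, h4⟩ := (Bool.and_eq_true _ _).mp h1
  obtain ⟨h5, h6⟩ := (Bool.and_eq_true _ _).mp h4
  have hE := zP_of (Nat.eq_of_beq_eq_true h3)
  have hS := zP_of (Nat.eq_of_beq_eq_true h5)
  have hM := zP_of (Nat.eq_of_beq_eq_true h6)
  have h7 := psdP_psdL _ _ h2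
  rw [triP_toZ] at h7
  rw [chkZ, ← h7]
  congr 2
  funext i j
  rw [combP_toZ, hA, hB, hC, hD]
  congr 1
  · change E.num * ((S.den * M.den : ℕ) : ℤ) = ((zP E.num 1 * (S.den * M.den) : ℕ) : ℤ)
    push_cast
    rw [hE]
  · change E.num * (S.num * (M.den : ℤ)) = ((zP E.num 1 * (zP S.num 1 * M.den) : ℕ) : ℤ)
    push_cast
    rw [hE, hS]
  · change E.num * (M.num * (S.den : ℤ)) = ((zP E.num 1 * (zP M.num 1 * S.den) : ℕ) : ℤ)
    push_cast
    rw [hE, hM]

theorem fam4X_fun {F : ℕ → ℕ → GX} {f : ℕ → ℕ → GQ} {K n : ℕ}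
    (h : ∀ i t, Cg (F i t) (f i t)) : fam4X F K n = fam4 f K n := by
  funext t
  rw [fam4X, fam4, lcdCX_eq (fun i _ t _ => h i t)]
  congr 1
  · exact tabG_congr (fun i _ => nPX_eq _ (h i t).1)
  · exact tabG_congr (fun i _ => nNX_eq _ (h i t).1)
  · exact tabG_congr (fun i _ => nPX_eq _ (h i t).2)
  · exact tabG_congr (fun i _ => nNX_eq _ (h i t).2)

theorem mvX_fun {F : ℕ → ℕ → QF} {f : ℕ → ℕ → ℚ} {m m' n K : ℕ} {A : ℕ → CV4}
    (h : ∀ i j, Cq (F i j) (f i j)) : mvX F m m' n K A = mvR f m m' n K A := by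
  have e1 : rwPX F (lcd2 f m' m) m' = rwP f (lcd2 f m' m) m' := by
    funext i
    exact tabG_congr (fun j _ => nPX_eq _ (h i j))
  have e2 : rwNX F (lcd2 f m' m) m' = rwN f (lcd2 f m' m) m' := by
    funext i
    exact tabG_congr (fun j _ => nNX_eq _ (h i j))
  funext t
  rw [mvX, mvR, lcd2X_eq (fun i _ j _ => h i j), e1, e2]

namespace AF

/-- the real part of the exponent -/
noncomputable def rX (X : AP2) : QF := zq X.P.s1 X.P.sd

/-- the imaginary part of the exponent -/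
noncomputable def iX (X : AP2) : QF := zq X.P.s2 X.P.sd

/-- the parameter -/
noncomputable def bX (X : AP2) : QF := nrm X.P.bn 0 X.P.bd

/-- the kernel -/
noncomputable def pX (X : AP2) (n l : ℕ) : QF := zq ((X.P.p.getD n []).getD l 0) X.P.pd

/-- the test vectors -/
noncomputable def TX (X : AP2) (n r : ℕ) : GX :=
  ⟨zq ((X.P.T.getD n []).getD r (0, 0)).1 X.P.td, zq ((X.P.T.getD n []).getD r (0, 0)).2 X.P.td⟩

/-- the inverse of the scale of the form -/
noncomputable def fX (X : AP2) (r t : ℕ) : QF :=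
  ((pochX (bX X) (Nat.add (Nat.mul 2 r) (Nat.mul 2 t))).mul
    (qn (Nat.pow (Nat.mul 2 X.P.sd) (Nat.add r t)))).div
    ((qn X.P.N).mul (((bX X).mul ((bX X).add (qn 1))).mul ((bX X).add (qn 2))))

/-- an integer -/
noncomputable def zi (z : ℤ) : QF := ⟨zP z 1, zN z 1, 1⟩

/-- the form -/
noncomputable def QX (X : AP2) (r t : ℕ) : GX :=
  GX.sc (fX X r t) ⟨zi ((X.P.M.getD r []).getD t (0, 0)).1, zi ((X.P.M.getD r []).getD t (0, 0)).2⟩

/-- the moments -/
noncomputable def gF (X : AP2) (i j : ℕ) : QF := gmX (rX X) (bX X) (Nat.add i j)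

/-- the Gram matrix -/
noncomputable def m0F (X : AP2) (i j : ℕ) : QF :=
  mmX (stX (rX X) (bX X) (dsX1 (rX X) (bX X))) (qn 0) i j

/-- the Gram matrix -/
noncomputable def m1F (X : AP2) (i j : ℕ) : QF :=
  mmX (stX (rX X) (bX X) (dsX2 (rX X) (bX X))) (qn 0) i j

/-- the Gram matrix -/
noncomputable def m2F (X : AP2) (i j : ℕ) : QF := mmX (stX2 (rX X) (bX X)) (qn 1) i j

/-- differences of the series -/
noncomputable def s0F (X : AP2) (l n : ℕ) : QF :=
  (ssX1 (rX X) (bX X) n l).sub (ssX1 (rX X) (bX X) n (Nat.succ l))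

/-- differences of the series -/
noncomputable def s1F (X : AP2) (l n : ℕ) : QF :=
  (ssX2 (rX X) (bX X) n l).sub (ssX2 (rX X) (bX X) n (Nat.succ l))

/-- the kernel, transposed -/
noncomputable def ptF (X : AP2) (l n : ℕ) : QF := pX X n l

/-- weights -/
noncomputable def w1F (X : AP2) (l m : ℕ) : QF := wX (bX X) (Nat.succ (Nat.add l m))

/-- weights -/
noncomputable def w0F (X : AP2) (l m : ℕ) : QF := wX (bX X) (Nat.add l m)

/-- the functionals -/
noncomputable def muF (X : AP2) : ℕ → ℕ → GX := muX (rX X) (iX X)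

/-- the inner function -/
noncomputable def phF (X : AP2) : ℕ → ℕ → GX := phX (rX X) (iX X) X.P.D (pX X)

/-- denominators -/
noncomputable def dT (X : AP2) : ℕ := lcdCX (TX X) X.K X.N

/-- denominators -/
noncomputable def dmu (X : AP2) : ℕ := lcdCX (muF X) X.K X.N

/-- denominators -/
noncomputable def dP (X : AP2) : ℕ := lcdCX (phF X) X.K (X.P.D + 1)

/-- denominators -/
noncomputable def dG (X : AP2) : ℕ := Nat.mul (lcd2X (gF X) X.N X.N) (dT X)

/-- denominators -/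
noncomputable def dU (X : AP2) : ℕ := Nat.mul (lcd2X (ptF X) X.P.D X.P.D) (dG X)

/-- denominators -/
noncomputable def dM0 (X : AP2) : ℕ := Nat.mul (lcd2X (m0F X) X.N X.N) (dT X)

/-- denominators -/
noncomputable def dM1 (X : AP2) : ℕ := Nat.mul (lcd2X (m1F X) X.N X.N) (dT X)

/-- denominators -/
noncomputable def dM2 (X : AP2) : ℕ := Nat.mul (lcd2X (m2F X) X.N X.N) (dT X)

/-- denominators -/
noncomputable def dS0 (X : AP2) : ℕ := Nat.mul (lcd2X (s0F X) X.N (X.P.D + 1)) (dT X)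

/-- denominators -/
noncomputable def dS1 (X : AP2) : ℕ := Nat.mul (lcd2X (s1F X) X.N (X.P.D + 1)) (dT X)

/-- denominators -/
noncomputable def dW (X : AP2) : ℕ := Nat.mul (lcd2X (w1F X) X.P.D (X.P.D + 1)) (dU X)

/-- denominators -/
noncomputable def dD (X : AP2) : ℕ := Nat.mul (lcd2X (w0F X) (X.P.D + 1) (X.P.D + 1)) (dP X)

/-- denominators -/
noncomputable def dC (X : AP2) : ℕ :=
  Nat.mul (wwdX (rX X) (bX X) X.P.D (pX X) X.P.J2 X.P.th) (dP X)

/-- denominator of the form -/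
noncomputable def dQ (X : AP2) : ℕ := lcdCX (QX X) X.K X.K

/-- test vectors -/
noncomputable def T4 (X : AP2) : ℕ → CV4 := fam4X (TX X) X.K X.N

/-- the functionals -/
noncomputable def mu4 (X : AP2) : ℕ → CV4 := fam4X (muF X) X.K X.N

/-- the inner function -/
noncomputable def P4 (X : AP2) : ℕ → CV4 := fam4X (phF X) X.K (X.P.D + 1)

/-- moments of the test vectors -/
noncomputable def G4f (X : AP2) : ℕ → CV4 := mvX (gF X) X.N X.N X.N X.K (T4 X)

/-- projections -/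
noncomputable def U4 (X : AP2) : ℕ → CV4 := mvX (ptF X) X.P.D X.P.D X.N X.K (G4f X)

/-- Gram matrix -/
noncomputable def M04 (X : AP2) : ℕ → CV4 := mvX (m0F X) X.N X.N X.N X.K (T4 X)

/-- Gram matrix -/
noncomputable def M14 (X : AP2) : ℕ → CV4 := mvX (m1F X) X.N X.N X.N X.K (T4 X)

/-- Gram matrix -/
noncomputable def M24 (X : AP2) : ℕ → CV4 := mvX (m2F X) X.N X.N X.N X.K (T4 X)

/-- differences of the series -/
noncomputable def S04 (X : AP2) : ℕ → CV4 := mvX (s0F X) (X.P.D + 1) X.N X.N X.K (T4 X)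

/-- differences of the series -/
noncomputable def S14 (X : AP2) : ℕ → CV4 := mvX (s1F X) (X.P.D + 1) X.N X.N X.K (T4 X)

/-- weighted projections -/
noncomputable def W4 (X : AP2) : ℕ → CV4 := mvX (w1F X) (X.P.D + 1) X.P.D X.P.D X.K (U4 X)

/-- its main part -/
noncomputable def D4 (X : AP2) : ℕ → CV4 :=
  mvX (w0F X) (X.P.D + 1) (X.P.D + 1) (X.P.D + 1) X.K (P4 X)

/-- rows of the cross matrix -/
noncomputable def wP4 (X : AP2) (l : ℕ) : List ℕ :=
  tabG (fun k => zP (wwEX (rX X) (bX X) X.P.D (pX X) X.P.J2 X.P.th l k) 1) (Nat.succ X.P.D)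

/-- rows of the cross matrix -/
noncomputable def wN4 (X : AP2) (l : ℕ) : List ℕ :=
  tabG (fun k => zN (wwEX (rX X) (bX X) X.P.D (pX X) X.P.J2 X.P.th l k) 1) (Nat.succ X.P.D)

/-- its cross part -/
noncomputable def C4 (X : AP2) : ℕ → CV4 :=
  mvF (wP4 X) (wN4 X) (X.P.D + 1) (X.P.D + 1) X.K (P4 X)

/-- terms of the part independent of the constants -/
noncomputable def lA (X : AP2) : List TZ4 :=
  [⟨2, Nat.mul (dT X) (dmu X), ipF4 X.K X.N (T4 X) (mu4 X)⟩,
    ⟨-1, Nat.mul (dT X) (dG X), ipF4 X.K X.N (T4 X) (G4f X)⟩,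
    ⟨-(X.P.Ehi ^ 2 / X.P.tau), Nat.mul (dP X) (dC X), ipF4 X.K (X.P.D + 1) (P4 X) (C4 X)⟩,
    ⟨-1, dQ X, fun r t => ⟨nPX (dQ X) (QX X r t).re, nNX (dQ X) (QX X r t).re,
      nPX (dQ X) (QX X r t).im, nNX (dQ X) (QX X r t).im⟩⟩]

/-- terms of the coefficient of the main constant -/
noncomputable def lB (X : AP2) : List TZ4 :=
  [⟨1, Nat.mul (dP X) (dD X), ipF4 X.K (X.P.D + 1) (P4 X) (D4 X)⟩,
    ⟨2, Nat.mul (dP X) (dS0 X), ipF4 X.K (X.P.D + 1) (P4 X) (S04 X)⟩,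
    ⟨-2, Nat.mul (dP X) (dW X), ipF4 X.K (X.P.D + 1) (P4 X) (W4 X)⟩,
    ⟨X.ck, Nat.mul (dT X) (dM0 X), ipF4 X.K X.N (T4 X) (M04 X)⟩,
    ⟨X.ck, Nat.mul (dU X) (dW X), ipF4 X.K X.P.D (U4 X) (fun t => tl4 (W4 X t))⟩,
    ⟨-2 * X.ck, Nat.mul (dU X) (dS0 X), ipF4 X.K X.P.D (U4 X) (fun t => tl4 (S04 X t))⟩]

/-- terms of the coefficient of the main constant and the first series -/
noncomputable def lC (X : AP2) : List TZ4 :=
  [⟨2, Nat.mul (dP X) (dS1 X), ipF4 X.K (X.P.D + 1) (P4 X) (S14 X)⟩,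
    ⟨X.ck, Nat.mul (dT X) (dM1 X), ipF4 X.K X.N (T4 X) (M14 X)⟩,
    ⟨-2 * X.ck, Nat.mul (dU X) (dS1 X), ipF4 X.K X.P.D (U4 X) (fun t => tl4 (S14 X t))⟩]

/-- terms of the coefficient of the main constant and the second series -/
noncomputable def lD (X : AP2) : List TZ4 :=
  [⟨X.ck, Nat.mul (dT X) (dM2 X), ipF4 X.K X.N (T4 X) (M24 X)⟩]

/-- the common denominator -/
noncomputable def LL (X : AP2) : ℕ :=
  Nat.lcm (Nat.lcm (lcdT4 (lA X)) (lcdT4 (lB X))) (Nat.lcm (lcdT4 (lC X)) (lcdT4 (lD X)))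

/-- positivity at a corner -/
noncomputable def cc (X : AP2) (E S M : ℚ) : Bool :=
  Bool.and (Nat.ble 1 (LL X)) (chkP X.K (hzP (zsum4 (LL X) (lA X))) (hzP (zsum4 (LL X) (lB X)))
    (hzP (zsum4 (LL X) (lC X))) (hzP (zsum4 (LL X) (lD X))) E S M)

section sound

variable {X : AP2}

/-- the elementary conditions -/
def ok (X : AP2) : Prop :=
  0 < X.P.sd ∧ 0 < X.P.bd ∧ 0 < X.P.pd ∧ 0 < X.P.td ∧ 0 < X.P.N ∧ 0 < X.P.b ∧
    0 < X.P.b + 1 - 2 * X.P.s.re ∧ 1 + X.P.s.re ≠ 0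

variable (h : ok X)

include h

theorem hr : Cq (rX X) X.P.s.re := Cq_zq _ h.1

theorem hi : Cq (iX X) X.P.s.im := Cq_zq _ h.1

theorem hb : Cq (bX X) X.P.b := by
  refine Cq_nrm h.2.1 ?_
  have h3 : (X.P.bd : ℚ) ≠ 0 := by exact_mod_cast h.2.1.ne'
  rw [AP.b, Rat.mkRat_eq_div]
  push_cast
  field_simp
  ring

theorem hb0 : 0 < X.P.b := h.2.2.2.2.2.1

theorem hσ : 0 < X.P.b + 1 - 2 * X.P.s.re := h.2.2.2.2.2.2.1

theorem hp (n l : ℕ) : Cq (pX X n l) (X.P.pf n l) := Cq_zq _ h.2.2.1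

theorem hT (i t : ℕ) : Cg (TX X i t) (X.P.Tf i t) := ⟨Cq_zq _ h.2.2.2.1, Cq_zq _ h.2.2.2.1⟩

omit h in
theorem Cq_zi (z : ℤ) : Cq (zi z) (z : ℚ) := by
  refine ⟨?_, ?_, ?_⟩
  · change 1 = ((z : ℚ)).den
    rw [Rat.den_intCast]
  · change zP z 1 = ((z : ℚ)).num.toNat
    rw [Rat.num_intCast, zP_toNat, mul_one]
  · change zN z 1 = (-((z : ℚ)).num).toNat
    rw [Rat.num_intCast, zN_toNat, mul_one]

theorem hf (r t : ℕ) : Cq (fX X r t) (1 / X.fac2 r t) := by
  have hN : ((X.P.N : ℕ) : ℚ) ≠ 0 := by exact_mod_cast h.2.2.2.2.1.ne'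
  have hbp := hb0 h
  have h1 : X.P.b * (X.P.b + 1) * (X.P.b + 2) ≠ 0 := by positivity
  have h2 := Cq_div (Cq_mul (Cq_poch (hb h) (Nat.add (Nat.mul 2 r) (Nat.mul 2 t)))
    (Cq_qn (Nat.pow (Nat.mul 2 X.P.sd) (Nat.add r t)))) (Cq_mul (Cq_qn X.P.N)
    (Cq_mul (Cq_mul (hb h) (Cq_add (hb h) Cq_one)) (Cq_add (hb h) Cq_two)))
    (mul_ne_zero hN h1)
  refine h2.cast ?_
  change AP.pochQ X.P.b (2 * r + 2 * t) * (((2 * X.P.sd) ^ (r + t) : ℕ) : ℚ)
    / ((X.P.N : ℚ) * (X.P.b * (X.P.b + 1) * (X.P.b + 2))) = 1 / X.fac2 r t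
  have h3 : AP.pochQ X.P.b (2 * r + 2 * t) ≠ 0 := by
    have : ∀ n, 0 < AP.pochQ X.P.b n := by
      intro n
      induction n with
      | zero => exact one_pos
      | succ n ih => exact mul_pos ih (bn_pos hbp n)
    exact (this _).ne'
  have h4 : ((2 : ℚ) * X.P.sd) ≠ 0 := by
    have : ((X.P.sd : ℕ) : ℚ) ≠ 0 := by exact_mod_cast h.1.ne'
    positivity
  rw [AP2.fac2]
  push_cast
  field_simp

theorem hQ (r t : ℕ) : Cg (QX X r t) (X.Qf2 r t) := Cg_sc (hf h r t) ⟨Cq_zi _, Cq_zi _⟩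

theorem T4_eq : T4 X = X.T4 := fam4X_fun (hT h)

theorem mu4_eq : mu4 X = X.mu4 := fam4X_fun (Cg_mu (hr h) (hi h))

theorem hph (i t : ℕ) : Cg (phF X i t) (phQ X.P.s X.P.D X.P.pf i t) :=
  Cg_ph (hr h) (hi h) h.2.2.2.2.2.2.2 (fun n _ l => hp h n l) i t

theorem P4_eq : P4 X = X.P4 := fam4X_fun (hph h)

theorem hg (i j : ℕ) : Cq (gF X i j) (gmQ X.P.s.re X.P.b (i + j)) :=
  Cq_gm (hr h) (hb h) (hb0 h) _

theorem hm0 (i j : ℕ) : Cq (m0F X i j) (mmQ X.P.s.re X.P.b i j).c0 :=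
  Cq_mm0 (hr h) (hb h) (hb0 h) (hσ h) i j

theorem hm1 (i j : ℕ) : Cq (m1F X i j) (mmQ X.P.s.re X.P.b i j).c1 :=
  Cq_mm1 (hr h) (hb h) (hb0 h) (hσ h) i j

theorem hm2 (i j : ℕ) : Cq (m2F X i j) (mmQ X.P.s.re X.P.b i j).c2 :=
  Cq_mm2 (hr h) (hb h) (hb0 h) i j

theorem hs0 (l n : ℕ) : Cq (s0F X l n)
    ((ssQ X.P.s.re X.P.b n l).1 - (ssQ X.P.s.re X.P.b n (l + 1)).1) :=
  Cq_sub (Cq_ss1 (hr h) (hb h) (hb0 h) (hσ h) n l) (Cq_ss1 (hr h) (hb h) (hb0 h) (hσ h) n (l + 1))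

theorem hs1 (l n : ℕ) : Cq (s1F X l n)
    ((ssQ X.P.s.re X.P.b n l).2 - (ssQ X.P.s.re X.P.b n (l + 1)).2) :=
  Cq_sub (Cq_ss2 (hr h) (hb h) (hb0 h) (hσ h) n l) (Cq_ss2 (hr h) (hb h) (hb0 h) (hσ h) n (l + 1))

theorem hw1 (l m : ℕ) : Cq (w1F X l m) (wQ X.P.b (l + m + 1)) := Cq_w (hb h) (hb0 h) _

theorem hw0 (l m : ℕ) : Cq (w0F X l m) (wQ X.P.b (l + m)) := Cq_w (hb h) (hb0 h) _

theorem G4f_eq : G4f X = X.G4f := by
  rw [G4f, AP2.G4f, T4_eq h]
  exact mvX_fun (hg h)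

theorem U4_eq : U4 X = X.U4 := by
  rw [U4, AP2.U4, G4f_eq h]
  exact mvX_fun (fun l n => hp h n l)

theorem M04_eq : M04 X = X.M04 := by
  rw [M04, AP2.M04, T4_eq h]
  exact mvX_fun (hm0 h)

theorem M14_eq : M14 X = X.M14 := by
  rw [M14, AP2.M14, T4_eq h]
  exact mvX_fun (hm1 h)

theorem M24_eq : M24 X = X.M24 := by
  rw [M24, AP2.M24, T4_eq h]
  exact mvX_fun (hm2 h)

theorem S04_eq : S04 X = X.S04 := by
  rw [S04, AP2.S04, T4_eq h]
  exact mvX_fun (hs0 h)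

theorem S14_eq : S14 X = X.S14 := by
  rw [S14, AP2.S14, T4_eq h]
  exact mvX_fun (hs1 h)

theorem W4_eq : W4 X = X.W4 := by
  rw [W4, AP2.W4, U4_eq h]
  exact mvX_fun (hw1 h)

theorem D4_eq : D4 X = X.D4 := by
  rw [D4, AP2.D4, P4_eq h]
  exact mvX_fun (hw0 h)

theorem C4_eq : C4 X = X.C4 := by
  have e : ∀ l k, wwEX (rX X) (bX X) X.P.D (pX X) X.P.J2 X.P.th l k
      = wwE X.P.s.re X.P.b X.P.D X.P.pf X.P.J2 X.P.th l k := fun l k =>
    wwEX_eq (hr h) (hb h) (hb0 h) (fun n _ l _ => hp h n l) X.P.J2 X.P.th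
  have e1 : wP4 X = X.wP4 := by
    funext l
    rw [wP4, AP2.wP4]
    exact tabG_congr (fun k _ => by rw [e])
  have e2 : wN4 X = X.wN4 := by
    funext l
    rw [wN4, AP2.wN4]
    exact tabG_congr (fun k _ => by rw [e])
  rw [C4, AP2.C4, P4_eq h, e1, e2]

theorem dT_eq : dT X = X.dT := lcdCX_eq (fun i _ t _ => hT h i t)

theorem dmu_eq : dmu X = X.dmu := lcdCX_eq (fun i _ t _ => Cg_mu (hr h) (hi h) i t)

theorem dP_eq : dP X = X.dP := lcdCX_eq (fun i _ t _ => hph h i t)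

theorem dG_eq : dG X = X.dG := by
  rw [dG, AP2.dG, dT_eq h, lcd2X_eq (fun i _ j _ => hg h i j)]
  rfl

theorem dU_eq : dU X = X.dU := by
  have e : ∀ i j, Cq (ptF X i j) (X.P.pf j i) := fun i j => hp h j i
  rw [dU, AP2.dU, dG_eq h, lcd2X_eq (fun i _ j _ => e i j)]
  rfl

theorem dM0_eq : dM0 X = X.dM0 := by
  rw [dM0, AP2.dM0, dT_eq h, lcd2X_eq (fun i _ j _ => hm0 h i j)]
  rfl

theorem dM1_eq : dM1 X = X.dM1 := by
  rw [dM1, AP2.dM1, dT_eq h, lcd2X_eq (fun i _ j _ => hm1 h i j)]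
  rfl

theorem dM2_eq : dM2 X = X.dM2 := by
  rw [dM2, AP2.dM2, dT_eq h, lcd2X_eq (fun i _ j _ => hm2 h i j)]
  rfl

theorem dS0_eq : dS0 X = X.dS0 := by
  rw [dS0, AP2.dS0, dT_eq h, lcd2X_eq (fun i _ j _ => hs0 h i j)]
  rfl

theorem dS1_eq : dS1 X = X.dS1 := by
  rw [dS1, AP2.dS1, dT_eq h, lcd2X_eq (fun i _ j _ => hs1 h i j)]
  rfl

theorem dW_eq : dW X = X.dW := by
  rw [dW, AP2.dW, dU_eq h, lcd2X_eq (fun i _ j _ => hw1 h i j)]
  rfl

theorem dD_eq : dD X = X.dD := by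
  rw [dD, AP2.dD, dP_eq h, lcd2X_eq (fun i _ j _ => hw0 h i j)]
  rfl

theorem dC_eq : dC X = X.dC := by
  rw [dC, AP2.dC, dP_eq h,
    wwdX_eq (hr h) (hb h) (hb0 h) (fun n _ l _ => hp h n l) X.P.J2 X.P.th]

theorem dQ_eq : dQ X = X.dQ := lcdCX_eq (fun i _ t _ => hQ h i t)

theorem lA_eq : lA X = X.lA := by
  have e : (fun r t => (⟨nPX X.dQ (QX X r t).re, nNX X.dQ (QX X r t).re,
      nPX X.dQ (QX X r t).im, nNX X.dQ (QX X r t).im⟩ : G4))
      = fun r t => ⟨nP X.dQ (X.Qf2 r t).re, nN X.dQ (X.Qf2 r t).re,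
        nP X.dQ (X.Qf2 r t).im, nN X.dQ (X.Qf2 r t).im⟩ := by
    funext r t
    rw [nPX_eq _ (hQ h r t).1, nNX_eq _ (hQ h r t).1, nPX_eq _ (hQ h r t).2,
      nNX_eq _ (hQ h r t).2]
  rw [lA, AP2.lA, dQ_eq h, e, dT_eq h, dmu_eq h, dG_eq h, dP_eq h, dC_eq h, T4_eq h, mu4_eq h,
    G4f_eq h, P4_eq h, C4_eq h]

theorem lB_eq : lB X = X.lB := by
  rw [lB, AP2.lB, dP_eq h, dD_eq h, dS0_eq h, dW_eq h, dT_eq h, dM0_eq h, dU_eq h, P4_eq h,
    D4_eq h, S04_eq h, W4_eq h, T4_eq h, M04_eq h, U4_eq h]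

theorem lC_eq : lC X = X.lC := by
  rw [lC, AP2.lC, dP_eq h, dS1_eq h, dT_eq h, dM1_eq h, dU_eq h, P4_eq h, S14_eq h, T4_eq h,
    M14_eq h, U4_eq h]

theorem lD_eq : lD X = X.lD := by
  rw [lD, AP2.lD, dT_eq h, dM2_eq h, T4_eq h, M24_eq h]

theorem LL_eq : LL X = X.LL := by
  rw [LL, AP2.LL, lA_eq h, lB_eq h, lC_eq h, lD_eq h]

theorem cc_cc {E S M : ℚ} (hc : cc X E S M = true) : X.cc E S M = true := by
  obtain ⟨h1, h2⟩ := (Bool.and_eq_true _ _).mp hc
  have h3 : 0 < X.LL := by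
    have := Nat.le_of_ble_eq_true h1
    rw [LL_eq h] at this
    exact this
  rw [LL_eq h, lA_eq h, lB_eq h, lC_eq h, lD_eq h] at h2
  rw [AP2.cc, Bool.and_eq_true, decide_eq_true_eq]
  exact ⟨h3, chkP_chkZ h2 (fun i j => hzP_toZ _ i j) (fun i j => hzP_toZ _ i j)
    (fun i j => hzP_toZ _ i j) (fun i j => hzP_toZ _ i j)⟩

end sound

end AF

end Pool.Agent.M16.Helper65.HR2.F7

namespace Pool.Agent.M16.Helper65.HR2

open F7

namespace AP2

/-- the fast form of the check `c7` -/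
noncomputable def c7f (X : AP2) : Bool :=
  Bool.and (Bool.and (Nat.ble 1 X.P.pd) (Nat.ble 1 X.P.td))
  (Bool.and (Bool.and (Bool.and (AF.cc X X.P.Elo X.P.Slo X.Mlo) (AF.cc X X.P.Elo X.P.Shi X.Mlo))
    (Bool.and (AF.cc X X.P.Ehi X.P.Slo X.Mlo) (AF.cc X X.P.Ehi X.P.Shi X.Mlo)))
  (Bool.and (Bool.and (AF.cc X X.P.Elo X.P.Slo X.Mhi) (AF.cc X X.P.Elo X.P.Shi X.Mhi))
    (Bool.and (AF.cc X X.P.Ehi X.P.Slo X.Mhi) (AF.cc X X.P.Ehi X.P.Shi X.Mhi))))

/-- the fast form implies the check `c7` -/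
theorem c7_of_c7f {X : AP2} (h1 : X.P.c1 = true) (h : X.c7f = true) : X.c7 = true := by
  obtain ⟨h2, h3⟩ := (Bool.and_eq_true _ _).mp h
  obtain ⟨h4, h5⟩ := (Bool.and_eq_true _ _).mp h2
  have hpd := Nat.le_of_ble_eq_true h4
  have htd := Nat.le_of_ble_eq_true h5
  simp only [AP.c1, Bool.and_eq_true, decide_eq_true_eq] at h1
  obtain ⟨⟨⟨⟨⟨⟨⟨⟨⟨⟨⟨⟨⟨⟨hsd, hbd⟩, hN⟩, hq0⟩, hq1⟩, hb0⟩, hb1⟩, hσ⟩, -⟩, -⟩, hDJ⟩, hk⟩, hta⟩, hth⟩, -⟩ := h1
  have hs : 1 + X.P.s.re ≠ 0 := by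
    intro h6
    have h7 : X.P.s.re = -1 := by linarith
    rw [GQ.nsq, h7] at hq1
    have := mul_self_nonneg X.P.s.im
    linarith
  have hok : AF.ok X := ⟨hsd, hbd, hpd, htd, hN, hb0, hσ, hs⟩
  obtain ⟨h6, h7⟩ := (Bool.and_eq_true _ _).mp h3
  obtain ⟨h8, h9⟩ := (Bool.and_eq_true _ _).mp h6
  obtain ⟨h10, h11⟩ := (Bool.and_eq_true _ _).mp h7
  obtain ⟨k1, k2⟩ := (Bool.and_eq_true _ _).mp h8
  obtain ⟨k3, k4⟩ := (Bool.and_eq_true _ _).mp h9
  obtain ⟨k5, k6⟩ := (Bool.and_eq_true _ _).mp h10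
  obtain ⟨k7, k8⟩ := (Bool.and_eq_true _ _).mp h11
  simp only [c7, Bool.and_eq_true]
  exact ⟨⟨⟨⟨⟨⟨⟨AF.cc_cc hok k1, AF.cc_cc hok k2⟩, AF.cc_cc hok k3⟩, AF.cc_cc hok k4⟩,
    AF.cc_cc hok k5⟩, AF.cc_cc hok k6⟩, AF.cc_cc hok k7⟩, AF.cc_cc hok k8⟩

end AP2

end Pool.Agent.M16.Helper65.HR2

end

end
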