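import Mathlib
import Pool.Agent.Helper60.BE.T31
import Pool.Agent.Helper60.BE.T33
import Pool.Agent.Helper60.BE.T32

set_option linter.all false

section

namespace Pool.Agent.M16.Helper12.HR2
end Pool.Agent.M16.Helper12.HR2
namespace Pool.Agent.M16.Helper24.HR2
end Pool.Agent.M16.Helper24.HR2
namespace Pool.Agent.M16.Helper53.HR2
end Pool.Agent.M16.Helper53.HR2

section

set_option autoImplicit false

open scoped ComplexConjugate

namespace Pool.Agent.M16.Helper53.HR2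

open Pool.Agent.M16.Helper12.HR2

open Pool.Agent.M16.Helper24.HR2 (relS XS XS6 XT qT poch)

/-- multiplication by an integer -/
def gz (n : ℤ) (x : GZ) : GZ := (n * x.1, n * x.2)

theorem gv_gz (n : ℤ) (x : GZ) : gv (gz n x) = (n : ℂ) * gv x := by
  simp only [gz, gv]
  push_cast
  ring

/-- addition -/
def ga (x y : GZ) : GZ := (x.1 + y.1, x.2 + y.2)

theorem gv_ga (x y : GZ) : gv (ga x y) = gv x + gv y := by
  simp only [ga, gv]
  push_cast
  ring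

/-- the coefficient `a s + b s ^ 2 + c s ^ 3`, multiplied by `sr ^ 3` -/
def cf (P : Par) (a b c : ℤ) : GZ :=
  ga (gz (a * (P.sr : ℤ) ^ 2) (P.p, P.q))
    (ga (gz (b * (P.sr : ℤ)) (gmul (P.p, P.q) (P.p, P.q)))
      (gz c (gmul (P.p, P.q) (gmul (P.p, P.q) (P.p, P.q)))))

theorem gv_cf (P : Par) (a b c : ℤ) : gv (cf P a b c)
    = a * P.sr ^ 2 * ((P.p : ℂ) + P.q * Complex.I)
      + b * P.sr * ((P.p : ℂ) + P.q * Complex.I) ^ 2
      + c * ((P.p : ℂ) + P.q * Complex.I) ^ 3 := by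
  rw [cf, gv_ga, gv_ga, gv_gz, gv_gz, gv_gz, gv_mul, gv_mul, gv_mul]
  have : gv (P.p, P.q) = (P.p : ℂ) + P.q * Complex.I := rfl
  rw [this]
  push_cast
  ring

/-- the sixth moment, scaled -/
def XP6 (P : Par) : Pol :=
  [(([5], []), cf P (-90) 0 0), (([0, 4], []), cf P 180 0 0), (([1, 3], []), cf P 90 90 0),
    (([0, 0, 3], []), cf P (-180) (-90) 0), (([2, 2], []), cf P 90 0 0),
    (([0, 1, 2], []), cf P (-360) (-180) 0), (([0, 0, 0, 2], []), cf P 180 180 0),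
    (([1, 1, 1], []), cf P (-30) (-45) (-15)), (([0, 0, 1, 1], []), cf P 270 225 45),
    (([0, 0, 0, 0, 1], []), cf P (-180) (-225) (-45)),
    (([0, 0, 0, 0, 0, 0], []), cf P 30 45 15)]

/-- the scaled moments as polynomials, orders 0, 2, 4, 6 -/
def XP4 (P : Par) : ℕ → Pol
  | 0 => XP P 0
  | 1 => XP P 1
  | 2 => XP P 2
  | 3 => XP6 P
  | _ => []

/-- minus the area form with integer coefficients -/
def qfM4 (P : Par) (M : M3) : Pol :=
  (List.range 4).flatMap (fun r => (List.range 4).flatMap (fun t =>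
    pmul (pmul [(([], []), (-(M r t).1, -(M r t).2))] (XP4 P t)) (pconj (XP4 P r))))

/-- the normalisation of the moments -/
noncomputable def xsc4 (P : Par) (r : ℕ) : ℝ := 1 / (2 * P.sr) ^ r

theorem xsc4_eq (P : Par) {r : ℕ} (hr : r < 3) : xsc4 P r = xsc P r := by
  interval_cases r
  · simp [xsc4, xsc]
  · simp [xsc4, xsc]
  · simp only [xsc4, xsc]
    congr 1
    ring

theorem pv_XP6 (P : Par) (hs : P.sr ≠ 0) (c ψ : ℕ → ℂ) :
    XS6 (((P.p : ℂ) + P.q * Complex.I) / P.sr) c = xsc4 P 3 * pv c ψ (XP6 P) := by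
  have hs' : (P.sr : ℂ) ≠ 0 := by exact_mod_cast hs
  simp only [XP6, pv_cons, pv_nil, mv, gv_cf, List.map_cons, List.map_nil, List.prod_cons,
    List.prod_nil, XS6, xsc4]
  generalize (P.p : ℂ) + P.q * Complex.I = S
  push_cast
  field_simp
  ring

theorem pv_XP4 (P : Par) (hs : P.sr ≠ 0) (c ψ : ℕ → ℂ) {r : ℕ} (hr : r < 4) :
    XT (((P.p : ℂ) + P.q * Complex.I) / P.sr) c r = xsc4 P r * pv c ψ (XP4 P r) := by
  by_cases h3 : r = 3
  · subst h3
    rw [XT, if_pos rfl]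
    exact pv_XP6 P hs c ψ
  · have hr3 : r < 3 := by omega
    rw [XT, if_neg h3, xsc4_eq P hr3, pv_XP P hs c ψ hr3]
    congr 2
    interval_cases r <;> rfl

/-- the area form is the polynomial -/
theorem qT_eq4 (P : Par) (hs : P.sr ≠ 0) (M : M3) (Q : ℕ → ℕ → ℂ) {N b : ℝ} (c : ℕ → ℂ)
    (hQ : ∀ r < 4, ∀ t < 4, ((N * (b * (b + 1) * (b + 2) / poch b (2 * r + 2 * t)
      * (xsc4 P r * xsc4 P t)) : ℝ) : ℂ) * Q r t = gv (M r t)) :
    N * qT Q (((P.p : ℂ) + P.q * Complex.I) / P.sr) b c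
      = -(pv c (fun k => conj (c k)) (qfM4 P M)).re := by
  unfold qT qfM4
  rw [pv_flatMap, sum_range_list]
  have h1 : ∀ r ∈ Finset.range 4, ∀ t ∈ Finset.range 4,
      N * (b * (b + 1) * (b + 2) * ((Q r t * (XT (((P.p : ℂ) + P.q * Complex.I) / P.sr) c t
        * conj (XT (((P.p : ℂ) + P.q * Complex.I) / P.sr) c r))).re / poch b (2 * r + 2 * t)))
      = -(pv c (fun k => conj (c k)) (pmul (pmul [(([], []), (-(M r t).1, -(M r t).2))] (XP4 P t))
          (pconj (XP4 P r)))).re := by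
    intro r hr t ht
    have hr' := Finset.mem_range.1 hr
    have ht' := Finset.mem_range.1 ht
    have h2 := hQ r hr' t ht'
    rw [pv_XP4 P hs c (fun k => conj (c k)) hr', pv_XP4 P hs c (fun k => conj (c k)) ht', pv_mul,
      pv_mul, pv_conj]
    have h3 : (fun k => conj ((fun k => conj (c k)) k)) = c := by
      funext k
      simp
    rw [h3]
    have h4 : pv c (fun k => conj (c k)) [((([] : List ℕ), ([] : List ℕ)),
        ((-(M r t).1, -(M r t).2) : GZ))] = -gv (M r t) := by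
      simp [pv_cons, pv_nil, mv, gv]
      ring
    rw [h4, ← h2]
    rw [← Complex.neg_re]
    have h5 : -(-(((N * (b * (b + 1) * (b + 2) / poch b (2 * r + 2 * t)
        * (xsc4 P r * xsc4 P t)) : ℝ) : ℂ) * Q r t) * pv c (fun k => conj (c k)) (XP4 P t)
          * conj (pv c (fun k => conj (c k)) (XP4 P r)))
        = ((N * (b * (b + 1) * (b + 2) / poch b (2 * r + 2 * t)) : ℝ) : ℂ)
          * (Q r t * ((xsc4 P t : ℂ) * pv c (fun k => conj (c k)) (XP4 P t)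
            * conj ((xsc4 P r : ℂ) * pv c (fun k => conj (c k)) (XP4 P r)))) := by
      rw [map_mul, Complex.conj_ofReal]
      push_cast
      ring
    rw [h5, Complex.re_ofReal_mul]
    ring
  have h6 : (∑ i ∈ Finset.range 4, pv c (fun k => conj (c k))
      ((List.range 4).flatMap (fun t => pmul (pmul [(([], []), (-(M i t).1, -(M i t).2))] (XP4 P t))
        (pconj (XP4 P i))))).re
      = ∑ r ∈ Finset.range 4, ∑ t ∈ Finset.range 4, (pv c (fun k => conj (c k))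
        (pmul (pmul [(([], []), (-(M r t).1, -(M r t).2))] (XP4 P t)) (pconj (XP4 P r)))).re := by
    rw [Complex.re_sum]
    refine Finset.sum_congr rfl fun r _ => ?_
    rw [pv_flatMap, sum_range_list, Complex.re_sum]
  rw [h6, ← Finset.sum_neg_distrib, Finset.mul_sum, Finset.mul_sum]
  refine Finset.sum_congr rfl fun r hr => ?_
  rw [← Finset.sum_neg_distrib, Finset.mul_sum, Finset.mul_sum]
  refine Finset.sum_congr rfl fun t ht => ?_
  exact h1 r hr t ht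

/-- the relations with real multipliers -/
noncomputable def relsL (mL N : ℝ) (L : Pol) : List (ℂ × List ℕ × List ℕ) :=
  L.map (fun t => (-((mL / N : ℝ) : ℂ) * gv t.2, t.1.1, t.1.2))

/-- the pointwise inequality from the conclusion of a certificate checker -/
theorem hc_of_sound4 (P : Par) (hsr : P.sr ≠ 0) (M : M3) (Q : ℕ → ℕ → ℂ) {N b : ℝ} (hN : 0 < N)
    {s : ℂ} (hs : s = ((P.p : ℂ) + P.q * Complex.I) / P.sr) (hb : b = (P.bn : ℝ) / P.bd)
    {eta mL : ℝ} {qf L : Pol}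
    (h : ∀ c : ℕ → ℂ, eta + (pv c (fun k => conj (c k)) qf).re
      + mL * (rel (((P.p : ℂ) + P.q * Complex.I) / P.sr) ((P.bn : ℂ) / P.bd) c L).re ≤ 0)
    (hqf : ∀ c : ℕ → ℂ, (pv c (fun k => conj (c k)) qf).re
      = (pv c (fun k => conj (c k)) (qfM4 P M)).re)
    (hQ : ∀ r < 4, ∀ t < 4, ((N * (b * (b + 1) * (b + 2) / poch b (2 * r + 2 * t)
      * (xsc4 P r * xsc4 P t)) : ℝ) : ℂ) * Q r t = gv (M r t)) (c : ℕ → ℂ) :
    eta / N ≤ qT Q s b c
      + ((relsL mL N L).map (fun x => (x.1 * relS s b c x.2.1 x.2.2).re)).sum := by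
  have h1 := h c
  have hbc : ((P.bn : ℂ) / P.bd) = ((b : ℝ) : ℂ) := by
    rw [hb]
    push_cast
    rfl
  have h2 := qT_eq4 P hsr M Q (N := N) (b := b) c hQ
  rw [← hs] at h2
  rw [hbc, ← hs, rel_eq, hqf] at h1
  have h3 : ((relsL mL N L).map (fun x => (x.1 * relS s b c x.2.1 x.2.2).re)).sum
      = -(mL / N) * (L.map (fun t => gv t.2 * relS s b c t.1.1 t.1.2)).sum.re := by
    unfold relsL
    clear h1 h hqf
    induction L with
    | nil => simp
    | cons x L ih =>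
      simp only [List.map_cons, List.sum_cons, Complex.add_re] at ih ⊢
      rw [ih]
      have h4 : (-((mL / N : ℝ) : ℂ) * gv x.2 * relS s b c x.1.1 x.1.2).re
          = -(mL / N) * (gv x.2 * relS s b c x.1.1 x.1.2).re := by
        rw [mul_assoc, ← Complex.ofReal_neg, Complex.re_ofReal_mul]
      rw [h4]
      ring
  rw [h3]
  obtain ⟨q, hq⟩ : ∃ q, q = qT Q s b c := ⟨_, rfl⟩
  obtain ⟨r, hr⟩ : ∃ r, r = (L.map (fun t => gv t.2
        * relS s b c t.1.1 t.1.2)).sum.re := ⟨_, rfl⟩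
  rw [← hq] at h2 ⊢
  rw [← hr] at h1 ⊢
  have h5 : eta ≤ N * q - mL * r := by linarith only [h2, h1]
  rw [div_le_iff₀ hN]
  have h6 : (q + -(mL / N) * r) * N = N * q - mL * r := by
    field_simp
    ring
  rw [h6]
  exact h5

end Pool.Agent.M16.Helper53.HR2

end

section

set_option autoImplicit false

open scoped ComplexConjugate

namespace Pool.Agent.M16.Helper65.HR2

open Pool.Agent.M16.Helper24.HR2

open Pool.Agent.M16.Helper12.HR2

namespace AP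

/-- the parameters of the certificate -/
def par (P : AP) : Par := ⟨P.s1, P.s2, P.sd, P.bn, P.bd⟩

/-- the matrix of the certificate -/
def MZ (P : AP) (r t : ℕ) : ℤ × ℤ := (P.M.getD r []).getD t (0, 0)

theorem sC_eq (P : AP) : P.sC = ((P.s1 : ℂ) + P.s2 * Complex.I) / P.sd := by
  apply Complex.ext
  · rw [sC, GQ.toC_re, s, Rat.mkRat_eq_div, ← Complex.ofReal_natCast, Complex.div_ofReal_re]
    push_cast
    simp
  · rw [sC, GQ.toC_im, s, ← Complex.ofReal_natCast, Complex.div_ofReal_im]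
    simp only [Rat.mkRat_eq_div]
    push_cast
    simp

theorem bR_eq (P : AP) : P.bR = (P.bn : ℝ) / P.bd := by
  rw [bR, b, Rat.mkRat_eq_div]
  push_cast
  rfl

theorem pochQ_eq (x : ℚ) (n : ℕ) : ((pochQ x n : ℚ) : ℝ) = poch (x : ℝ) n := by
  induction n with
  | zero => simp [pochQ, poch]
  | succ n ih =>
    rw [pochQ, poch, Finset.prod_range_succ, ← poch, ← ih]
    push_cast
    ring

theorem pochQ_pos {x : ℚ} (hx : 0 < x) (n : ℕ) : 0 < pochQ x n := by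
  induction n with
  | zero => simp [pochQ]
  | succ n ih =>
    rw [pochQ]
    have : (0 : ℚ) ≤ n := Nat.cast_nonneg n
    positivity

end AP

end Pool.Agent.M16.Helper65.HR2

end

section

set_option autoImplicit false

open scoped ComplexConjugate

namespace Pool.Agent.M16.Helper65.HR2

open Pool.Agent.M16.Helper24.HR2

open Pool.Agent.M16.Helper12.HR2

open Pool.Agent.M16.Helper53.HR2 (xsc4 xsc4_eq qfM4 relsL hc_of_sound4)

/-- from the bound of the weighted area integral to the means -/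
theorem AP.ptOK_of_LS (P : AP) (hb : 0 < P.bR)
    (h : ∃ C0 : ℝ, ∀ (ρ : ℝ) (β H : ℂ → ℂ) (Φ : ℂ → ℂ → ℂ), Dat ρ β H Φ →
      LS P.sC H P.bR (fun _ => 1) ≤ C0) : PtOK P.par := by
  obtain ⟨C0, hC0⟩ := h
  have key := mean_of_LS hb hC0
  rw [P.sC_eq, P.bR_eq] at key
  exact ⟨(P.bn : ℝ) / P.bd * C0, key⟩

namespace AP2

theorem fac2_pos (X : AP2) (h1 : X.P.c1 = true) (r t : ℕ) : 0 < X.fac2 r t := by
  simp only [AP.c1, Bool.and_eq_true, decide_eq_true_eq] at h1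
  obtain ⟨⟨⟨⟨⟨⟨⟨⟨⟨⟨⟨⟨⟨⟨hsd, -⟩, hN⟩, -⟩, -⟩, hb0⟩, -⟩, -⟩, -⟩, -⟩, -⟩, -⟩, -⟩, -⟩, -⟩ := h1
  rw [fac2]
  have h4 := AP.pochQ_pos hb0 (2 * r + 2 * t)
  positivity

theorem fac2_eq (X : AP2) (r t : ℕ) : ((X.fac2 r t : ℚ) : ℝ)
    = (X.P.N : ℝ) * (X.P.bR * (X.P.bR + 1) * (X.P.bR + 2) / poch X.P.bR (2 * r + 2 * t)
      * (xsc4 X.P.par r * xsc4 X.P.par t)) := by
  have e : (X.P.par.sr : ℝ) = X.P.sd := rfl
  rw [fac2, AP.bR, ← AP.pochQ_eq, xsc4, xsc4, e]
  push_cast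
  rw [pow_add, ← one_div_mul_one_div]
  ring

theorem QC2_eq (X : AP2) (h1 : X.P.c1 = true) (r t : ℕ) :
    (((X.P.N : ℝ) * (X.P.bR * (X.P.bR + 1) * (X.P.bR + 2) / poch X.P.bR (2 * r + 2 * t)
      * (xsc4 X.P.par r * xsc4 X.P.par t)) : ℝ) : ℂ) * X.QC2 r t = gv (X.P.MZ r t) := by
  have hfac := X.fac2_pos h1 r t
  rw [← fac2_eq, QC2, Qf2, GQ.toC_sc, ← mul_assoc, ← Complex.ofReal_mul, ← Rat.cast_mul,
    mul_one_div_cancel hfac.ne', Rat.cast_one, Complex.ofReal_one, one_mul]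
  apply Complex.ext
  · simp [GQ.toC, AP.Mf, AP.MZ, gv]
  · simp [GQ.toC, AP.Mf, AP.MZ, gv]

theorem QC2_zero (X : AP2) (h1 : X.P.c1 = true) {r t : ℕ} (h : X.P.MZ r t = (0, 0)) :
    X.QC2 r t = 0 := by
  have h2 := X.QC2_eq h1 r t
  rw [h, ← fac2_eq] at h2
  have h3 : ((X.fac2 r t : ℝ) : ℂ) ≠ 0 := by
    have := X.fac2_pos h1 r t
    exact_mod_cast this.ne'
  have h4 : gv (0, 0) = 0 := by simp [gv]
  rw [h4] at h2
  exact (mul_eq_zero.1 h2).resolve_left h3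

theorem QC2_pos (X : AP2) (h1 : X.P.c1 = true) {r t : ℕ} (h : 0 < (X.P.MZ r t).1) :
    0 < (X.QC2 r t).re := by
  have h2 := X.QC2_eq h1 r t
  rw [← fac2_eq] at h2
  have h3 : (0 : ℝ) < (X.fac2 r t : ℝ) := by
    have := X.fac2_pos h1 r t
    exact_mod_cast this
  have h4 := congrArg Complex.re h2
  rw [Complex.re_ofReal_mul, gv_re] at h4
  have h5 : (0 : ℝ) < ((X.P.MZ r t).1 : ℝ) := by exact_mod_cast h
  rw [← h4] at h5
  exact (pos_iff_pos_of_mul_pos h5).1 h3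

theorem N_pos (X : AP2) (h1 : X.P.c1 = true) : (0 : ℝ) < (X.P.N : ℝ) := by
  simp only [AP.c1, Bool.and_eq_true, decide_eq_true_eq] at h1
  obtain ⟨⟨⟨⟨⟨⟨⟨⟨⟨⟨⟨⟨⟨⟨-, -⟩, hN⟩, -⟩, -⟩, -⟩, -⟩, -⟩, -⟩, -⟩, -⟩, -⟩, -⟩, -⟩, -⟩ := h1
  exact_mod_cast hN

theorem sr_ne (X : AP2) (h1 : X.P.c1 = true) : X.P.par.sr ≠ 0 := by
  simp only [AP.c1, Bool.and_eq_true, decide_eq_true_eq] at h1
  obtain ⟨⟨⟨⟨⟨⟨⟨⟨⟨⟨⟨⟨⟨⟨hsd, -⟩, -⟩, -⟩, -⟩, -⟩, -⟩, -⟩, -⟩, -⟩, -⟩, -⟩, -⟩, -⟩, -⟩ := h1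
  exact hsd.ne'

end AP2

end Pool.Agent.M16.Helper65.HR2

end

end

section

namespace Pool.Agent.M16.Helper24.HR2
end Pool.Agent.M16.Helper24.HR2
namespace Pool.Agent.M16.Helper53.HR2
end Pool.Agent.M16.Helper53.HR2

section

set_option autoImplicit false

namespace Pool.Agent.M16.Helper65.HR2

open Pool.Agent.M16.Helper24.HR2

open Pool.Agent.M16.Helper53.HR2 (mmC mmC_sound esQ2 esQ2_sound)

namespace AP

/-- the enclosure of the Gram constant, at the point -/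
def mm (P : AP) (S J : ℕ) (f1 f2 g1 g2 f1' f2' g1' g2' Mlo Mhi : ℚ) : Bool :=
  decide (0 ≤ P.s1 + P.sd) &&
    mmC (P.bd * P.sd) (P.bn * P.sd) (2 * (P.s1 + P.sd).toNat * P.bd) S J
      f1 f2 g1 g2 f1' f2' g1' g2' Mlo Mhi

theorem mm_sound (P : AP) (h1 : P.c1 = true) {S J : ℕ} {f1 f2 g1 g2 f1' f2' g1' g2' Mlo Mhi : ℚ}
    (h : P.mm S J f1 f2 g1 g2 f1' f2' g1' g2' Mlo Mhi = true) :
    (Mlo : ℝ) ≤ MM P.sC P.bR 0 0 ∧ MM P.sC P.bR 0 0 ≤ (Mhi : ℝ) := by
  simp only [mm, Bool.and_eq_true, decide_eq_true_eq] at h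
  obtain ⟨hs0, h⟩ := h
  simp only [c1, Bool.and_eq_true, decide_eq_true_eq] at h1
  obtain ⟨⟨⟨⟨⟨⟨⟨⟨⟨⟨⟨⟨⟨⟨hsd, hbd⟩, -⟩, -⟩, hq1⟩, -⟩, -⟩, hσ⟩, -⟩, -⟩, -⟩, -⟩, -⟩, -⟩, -⟩ := h1
  have hsdR : (0 : ℝ) < P.sd := by exact_mod_cast hsd
  have hbdR : (0 : ℝ) < P.bd := by exact_mod_cast hbd
  have hre : P.sC.re = ((P.s.re : ℚ) : ℝ) := rfl
  have hre2 : P.sC.re = (P.s1 : ℝ) / P.sd := by
    rw [hre]
    simp only [s, Rat.mkRat_eq_div]
    push_cast
    rfl
  have hnq : ((P.s.nsq : ℚ) : ℝ) = ‖P.sC‖ ^ 2 := GQ.nsq_eq P.s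
  have hn : ‖P.sC‖ ^ 2 ≤ 49 / 100 := by
    rw [← hnq]
    have := (Rat.cast_le (K := ℝ)).2 hq1
    push_cast at this
    exact this
  have hs : -1 < P.sC.re := by
    have a := Complex.abs_re_le_norm P.sC
    have b1 := neg_abs_le P.sC.re
    have c := norm_nonneg P.sC
    nlinarith only [hn, a, b1]
  have hb : P.bR = ((P.bn * P.sd : ℕ) : ℝ) / ((P.bd * P.sd : ℕ) : ℝ) := by
    rw [bR, b, Rat.mkRat_eq_div]
    push_cast
    field_simp
  have hr : 2 * P.sC.re + 2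
      = ((2 * (P.s1 + P.sd).toNat * P.bd : ℕ) : ℝ) / ((P.bd * P.sd : ℕ) : ℝ) := by
    have e : (((P.s1 + P.sd).toNat : ℕ) : ℝ) = P.s1 + P.sd := by
      have : (((P.s1 + P.sd).toNat : ℕ) : ℤ) = P.s1 + P.sd := Int.toNat_of_nonneg hs0
      exact_mod_cast this
    rw [hre2]
    push_cast
    rw [e]
    field_simp
  have hσ' : (0 : ℝ) < P.bR + 1 - 2 * P.sC.re := by
    rw [hre, bR]
    exact_mod_cast hσ
  exact mmC_sound hs hb hr hσ' h

end AP

namespace AP2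

/-- the enclosure of the main constant -/
def c5 (X : AP2) (n : ℕ) (bu gu bl gl : ℚ) : Bool :=
  esQ2 X.P.s.re X.P.s.nsq X.P.b n bu gu bl gl X.P.Elo X.P.Ehi

/-- the enclosure of the Gram constant -/
def c8 (X : AP2) (S J : ℕ) (f1 f2 g1 g2 f1' f2' g1' g2' : ℚ) : Bool :=
  X.P.mm S J f1 f2 g1 g2 f1' f2' g1' g2' X.Mlo X.Mhi

/-- the hypotheses of the core theorem from the kernel checks alone -/
theorem pf' (X : AP2) (h1 : X.P.c1 = true) (h2 : X.P.c2 = true) (h3 : X.P.c3 = true)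
    (h6 : X.c6 = true) (h7 : X.c7 = true) {m : ℕ} {bu gu bl gl : ℚ}
    (h5 : X.c5 m bu gu bl gl = true) {S J : ℕ} {f1 f2 g1 g2 f1' f2' g1' g2' : ℚ}
    (h8 : X.c8 S J f1 f2 g1 g2 f1' f2' g1' g2' = true) :
    X.P.sC ≠ 0 ∧ ‖X.P.sC‖ ≤ 7 / 10 ∧ 0 < X.P.bR ∧ X.P.bR ≤ 1 ∧ 0 < X.P.bR + 1 - 2 * X.P.sC.re ∧
      2 * ‖X.P.sC‖ < X.P.bR + 1 ∧ PF X.P.sC X.P.bR X.K (hF X.K X.QC2) := by
  have h1' := h1
  simp only [AP.c1, Bool.and_eq_true, decide_eq_true_eq] at h1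
  obtain ⟨⟨⟨⟨⟨⟨⟨⟨⟨⟨⟨⟨⟨⟨-, -⟩, -⟩, hs0⟩, hs1⟩, hb0⟩, -⟩, hσ⟩, -⟩, -⟩, -⟩, -⟩, -⟩, -⟩, -⟩ := h1
  have hnsq : ‖X.P.sC‖ ^ 2 = ((X.P.s.nsq : ℚ) : ℝ) := (GQ.nsq_eq X.P.s).symm
  have hb : (0 : ℝ) < X.P.bR := by
    rw [AP.bR]
    exact_mod_cast hb0
  have hsne : X.P.sC ≠ 0 := by
    intro h0
    rw [h0, norm_zero] at hnsq
    have : ((X.P.s.nsq : ℚ) : ℝ) = 0 := by rw [← hnsq]; norm_num
    have h2 : X.P.s.nsq = 0 := by exact_mod_cast this
    rw [h2] at hs0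
    exact lt_irrefl _ hs0
  have hslt : ‖X.P.sC‖ < 1 := by
    have : ((X.P.s.nsq : ℚ) : ℝ) ≤ ((49 / 100 : ℚ) : ℝ) := by exact_mod_cast hs1
    rw [← hnsq] at this
    push_cast at this
    nlinarith only [this]
  have hre : X.P.sC.re = ((X.P.s.re : ℚ) : ℝ) := rfl
  have hσ' : (0 : ℝ) < X.P.bR + 1 - 2 * X.P.sC.re := by
    rw [hre, AP.bR]
    exact_mod_cast hσ
  obtain ⟨hE1, hE2, -⟩ := esQ2_sound hre hnsq hsne hslt (b := X.P.b) hb hσ' h5
  obtain ⟨hM1, hM2⟩ := X.P.mm_sound h1' h8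
  exact X.pf h1' h2 h3 h6 h7 hE1 hE2 hM1 hM2

end AP2

end Pool.Agent.M16.Helper65.HR2

end

end

section

namespace Pool.Agent.M16.Helper53.HR2
end Pool.Agent.M16.Helper53.HR2

section

set_option autoImplicit false

namespace Pool.Agent.M16.Helper53.HR2

def zadd : List ℤ → List ℤ → List ℤ
  | [], l => l
  | a :: l, [] => a :: l
  | a :: l, b :: m => (a + b) :: zadd l m

def zsm (t : ℤ) : List ℤ → List ℤ
  | [] => []
  | a :: l => (t * a) :: zsm t l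

/-- multiplication by `u x + v` -/
def zlin (u v : ℤ) (l : List ℤ) : List ℤ := zadd (zsm v l) (0 :: zsm u l)

/-- multiplication by `w x ^ 2 + u x + v` -/
def zquad (w u v : ℤ) (l : List ℤ) : List ℤ := zadd (zsm v l) (0 :: zadd (zsm u l) (0 :: zsm w l))

/-- the integer polynomial is `c` times the rational polynomial -/
def Sc (c : ℚ) (l : List ℤ) (m : List ℚ) : Prop := l.map (fun z : ℤ => (z : ℚ)) = psm c m

theorem map_zadd : ∀ l m : List ℤ, (zadd l m).map (fun z : ℤ => (z : ℚ))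
    = padd (l.map (fun z : ℤ => (z : ℚ))) (m.map (fun z : ℤ => (z : ℚ)))
  | [], m => by simp [zadd, padd]
  | a :: l, [] => by simp [zadd, padd]
  | a :: l, b :: m => by
    simp only [zadd, padd, List.map_cons, map_zadd l m, List.cons.injEq, and_true]
    push_cast
    rfl

theorem map_zsm (t : ℤ) : ∀ l : List ℤ, (zsm t l).map (fun z : ℤ => (z : ℚ))
    = psm (t : ℚ) (l.map (fun z : ℤ => (z : ℚ)))
  | [] => by simp [zsm, psm]
  | a :: l => by
    simp only [zsm, psm, List.map_cons, map_zsm t l, List.cons.injEq, and_true]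
    push_cast
    rfl

theorem psm_padd (c : ℚ) : ∀ l m : List ℚ, psm c (padd l m) = padd (psm c l) (psm c m)
  | [], m => by simp [psm, padd]
  | a :: l, [] => by simp [psm, padd]
  | a :: l, b :: m => by
    simp only [psm, padd, psm_padd c l m, List.cons.injEq, and_true]
    ring

theorem psm_psm (c d : ℚ) : ∀ l : List ℚ, psm c (psm d l) = psm (c * d) l
  | [] => rfl
  | a :: l => by
    simp only [psm, psm_psm c d l, List.cons.injEq, and_true]
    ring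

theorem Sc.add {c : ℚ} {l l' : List ℤ} {m m' : List ℚ} (h : Sc c l m) (h' : Sc c l' m') :
    Sc c (zadd l l') (padd m m') := by
  unfold Sc at *
  rw [map_zadd, psm_padd, h, h']

theorem Sc.sm {c d : ℚ} {t : ℤ} {a : ℚ} {l : List ℤ} {m : List ℚ} (h : Sc c l m)
    (he : (t : ℚ) * c = d * a) : Sc d (zsm t l) (psm a m) := by
  unfold Sc at *
  rw [map_zsm, h, psm_psm, psm_psm, he]

theorem Sc.sm1 {c d : ℚ} {t : ℤ} {l : List ℤ} {m : List ℚ} (h : Sc c l m)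
    (he : (t : ℚ) * c = d) : Sc d (zsm t l) m := by
  unfold Sc at *
  rw [map_zsm, h, psm_psm, he]

theorem Sc.cons0 {c : ℚ} {l : List ℤ} {m : List ℚ} (h : Sc c l m) : Sc c (0 :: l) (0 :: m) := by
  unfold Sc at *
  simp only [List.map_cons, psm, h, Int.cast_zero, mul_zero]

theorem Sc.lin {c : ℚ} {u v : ℤ} {a : ℚ} {l : List ℤ} {m : List ℚ} (h : Sc c l m)
    (he : (v : ℚ) = u * a) : Sc (u * c) (zlin u v l) (plin a m) :=
  (h.sm (by rw [he]; ring)).add (h.sm1 rfl).cons0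

theorem Sc.quad {c : ℚ} {w u v : ℤ} {a b : ℚ} {l : List ℤ} {m : List ℚ} (h : Sc c l m)
    (hu : (u : ℚ) = w * a) (hv : (v : ℚ) = w * b) : Sc (w * c) (zquad w u v l) (pquad a b m) :=
  (h.sm (by rw [hv]; ring)).add ((h.sm (by rw [hu]; ring)).add (h.sm1 rfl).cons0).cons0

theorem Sc.start {ga' : ℕ} {u : ℤ} {a : ℚ} (he : (u : ℚ) = ga' * a) :
    Sc ga' [u, ga'] [a, 1] := by
  unfold Sc
  simp only [List.map_cons, List.map_nil, psm, mul_one, he, Int.cast_natCast]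

theorem Sc.nonneg {c : ℚ} (hc : 0 < c) : ∀ {l : List ℤ} {m : List ℚ}, Sc c l m →
    (l.all fun a => decide (0 ≤ a)) = true → (m.all fun a => decide (0 ≤ a)) = true
  | _, [], _, _ => rfl
  | [], a :: m, h, _ => by simp [Sc, psm] at h
  | z :: l, a :: m, h, hl => by
    simp only [Sc, List.map_cons, psm, List.cons.injEq] at h
    rw [List.all_cons, Bool.and_eq_true, decide_eq_true_eq] at hl ⊢
    refine ⟨?_, Sc.nonneg hc h.2 hl.2⟩
    have h1 : (0 : ℚ) ≤ (z : ℚ) := by exact_mod_cast hl.1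
    rw [h.1] at h1
    exact nonneg_of_mul_nonneg_right h1 hc

def zL (sd bd be' ga' : ℕ) (p n2 bn be ga n : ℤ) : List ℤ :=
  zquad (sd * sd) (2 * n * (sd * sd) - 2 * p * sd) (n * n * (sd * sd) - 2 * p * n * sd + n2)
    (zquad (sd * sd) ((2 * n + 4) * (sd * sd) + 2 * p * sd)
        ((n * n + 4 * n + 4) * (sd * sd) + (2 * n + 4) * p * sd + n2)
      (zlin bd ((n + 3) * bd + bn) (zlin be' (n * be' + be) [(n + 1) * ga' + ga, ga'])))

def zR (sd bd be' ga' : ℕ) (p bn be ga n : ℤ) : List ℤ :=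
  zlin (bd * sd) ((n + 1) * bd * sd + bn * sd - 2 * p * bd)
    (zlin (sd * sd * sd) (((n + 2) * sd + 2 * p) * sd * sd)
      (zlin 1 (n + 2) (zlin 1 (n + 1) (zlin 1 (n + 1)
        (zlin be' ((n + 1) * be' + be) [n * ga' + ga, ga'])))))

section

variable {sd bd : ℕ} {p n2 bn : ℤ} {r q b : ℚ}

theorem sc_L (hr : r * sd = p) (hq : q * (sd * sd) = n2) (hb : b * bd = bn) (n : ℕ) (be ga : ℚ) :
    Sc ((sd * sd) * ((sd * sd) * (bd * (be.den * ga.den))))
      (zL sd bd be.den ga.den p n2 bn be.num ga.num n) (lhsP2 r q b n be ga) := by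
  have e1 : (be.num : ℚ) = be * be.den := (Rat.mul_den_eq_num be).symm
  have e2 : (ga.num : ℚ) = ga * ga.den := (Rat.mul_den_eq_num ga).symm
  have h1 : Sc ga.den [((n : ℤ) + 1) * ga.den + ga.num, (ga.den : ℤ)] [(n : ℚ) + ga + 1, 1] :=
    Sc.start (by push_cast; rw [e2]; ring)
  have h2 := h1.lin (u := (be.den : ℤ)) (v := (n : ℤ) * be.den + be.num) (a := (n : ℚ) + be)
    (by push_cast; rw [e1]; ring)
  have h3 := h2.lin (u := (bd : ℤ)) (v := ((n : ℤ) + 3) * bd + bn) (a := (n : ℚ) + b + 3)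
    (by push_cast; rw [← hb]; ring)
  have h4 := h3.quad (w := (sd : ℤ) * sd) (u := (2 * (n : ℤ) + 4) * (sd * sd) + 2 * p * sd)
    (v := ((n : ℤ) * n + 4 * n + 4) * (sd * sd) + (2 * n + 4) * p * sd + n2)
    (a := 2 * (n : ℚ) + 4 + 2 * r) (b := (n : ℚ) ^ 2 + (4 + 2 * r) * n + 4 + 4 * r + q)
    (by push_cast; rw [← hr]; ring) (by push_cast; rw [← hr, ← hq]; ring)
  have h5 := h4.quad (w := (sd : ℤ) * sd) (u := 2 * (n : ℤ) * (sd * sd) - 2 * p * sd)
    (v := (n : ℤ) * n * (sd * sd) - 2 * p * n * sd + n2)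
    (a := 2 * (n : ℚ) - 2 * r) (b := (n : ℚ) ^ 2 - 2 * r * n + q)
    (by push_cast; rw [← hr]; ring) (by push_cast; rw [← hr, ← hq]; ring)
  push_cast at h5
  exact h5

theorem sc_R (hr : r * sd = p) (hb : b * bd = bn) (n : ℕ) (be ga : ℚ) :
    Sc ((bd * sd) * ((sd * sd * sd) * (be.den * ga.den)))
      (zR sd bd be.den ga.den p bn be.num ga.num n) (rhsP2 r b n be ga) := by
  have e1 : (be.num : ℚ) = be * be.den := (Rat.mul_den_eq_num be).symm
  have e2 : (ga.num : ℚ) = ga * ga.den := (Rat.mul_den_eq_num ga).symm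
  have h1 : Sc ga.den [(n : ℤ) * ga.den + ga.num, (ga.den : ℤ)] [(n : ℚ) + ga, 1] :=
    Sc.start (by push_cast; rw [e2]; ring)
  have h2 := h1.lin (u := (be.den : ℤ)) (v := ((n : ℤ) + 1) * be.den + be.num)
    (a := (n : ℚ) + 1 + be) (by push_cast; rw [e1]; ring)
  have h3 := h2.lin (u := 1) (v := (n : ℤ) + 1) (a := (n : ℚ) + 1) (by push_cast; ring)
  have h4 := h3.lin (u := 1) (v := (n : ℤ) + 1) (a := (n : ℚ) + 1) (by push_cast; ring)
  have h5 := h4.lin (u := 1) (v := (n : ℤ) + 2) (a := (n : ℚ) + 2) (by push_cast; ring)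
  have h6 := h5.lin (u := (sd : ℤ) * sd * sd) (v := (((n : ℤ) + 2) * sd + 2 * p) * sd * sd)
    (a := (n : ℚ) + 2 + 2 * r) (by push_cast; rw [← hr]; ring)
  have h7 := h6.lin (u := (bd : ℤ) * sd) (v := ((n : ℤ) + 1) * bd * sd + bn * sd - 2 * p * bd)
    (a := (n : ℚ) + b + 1 - 2 * r) (by push_cast; rw [← hr, ← hb]; ring)
  push_cast at h7
  simp only [one_mul] at h7
  exact h7

end

/-- numerator of the quotient -/
def eN (sd pP pN n2 bn bd k : ℕ) : ℕ :=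
  ((sd * k) * (sd * k) + 2 * pN * (sd * k) + n2 - 2 * pP * (sd * k))
    * ((sd * (k + 2)) * (sd * (k + 2)) + 2 * pP * (sd * (k + 2)) + n2 - 2 * pN * (sd * (k + 2)))
    * (bd * (k + 3) + bn)

/-- denominator of the quotient -/
def eD (sd pP pN bn bd k : ℕ) : ℕ :=
  sd * sd * ((k + 1) * (k + 1) * (k + 2)) * (sd * (k + 2) + 2 * pP - 2 * pN)
    * (bd * sd * (k + 1) + bn * sd + 2 * pN * bd - 2 * pP * bd)

def goE (sd pP pN n2 bn bd : ℕ) : ℕ → ℕ → ℕ → ℕ → ℕ × ℕ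
  | 0, _, lo, hi => (lo, hi)
  | k + 1, j, lo, hi =>
    goE sd pP pN n2 bn bd k (j + 1) (lo * eN sd pP pN n2 bn bd j / eD sd pP pN bn bd j)
      (hi * eN sd pP pN n2 bn bd j / eD sd pP pN bn bd j + 1)

section

variable {sd pP pN n2 bn bd : ℕ} {r q b : ℚ}

/-- `2 p x ≤ x ^ 2 + n2` -/
theorem le_sq {P N n2 : ℕ} (h : ((P : ℤ) - N) * (P - N) ≤ n2) (x : ℕ) :
    2 * P * x ≤ x * x + 2 * N * x + n2 := by
  have h2 : (0 : ℤ) ≤ ((x : ℤ) - (P - N)) * (x - (P - N)) := mul_self_nonneg _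
  have h3 : (2 * (P : ℤ) * x) ≤ x * x + 2 * N * x + n2 := by linarith
  exact_mod_cast h3

theorem eN_eq (hr : r * sd = (pP : ℚ) - pN) (hq : q * (sd * sd) = n2) (hb : b * bd = bn)
    (hn : ((pP : ℤ) - pN) * (pP - pN) ≤ n2) (k : ℕ) :
    (eN sd pP pN n2 bn bd k : ℚ) = ((sd : ℚ) ^ 4 * bd)
      * (((k : ℚ) ^ 2 - 2 * r * k + q) * (((k : ℚ) + 2) * (k + 2 + 2 * r) + q) * (k + b + 3)) := by
  have h1 := le_sq hn (sd * k)
  have hn' : ((pN : ℤ) - pP) * (pN - pP) ≤ n2 := by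
    have e : ((pN : ℤ) - pP) * (pN - pP) = ((pP : ℤ) - pN) * (pP - pN) := by ring
    rw [e]
    exact hn
  have h2 := le_sq hn' (sd * (k + 2))
  have e1 : (((sd * k) * (sd * k) + 2 * pN * (sd * k) + n2 - 2 * pP * (sd * k) : ℕ) : ℚ)
      = (sd : ℚ) ^ 2 * ((k : ℚ) ^ 2 - 2 * r * k + q) := by
    rw [Nat.cast_sub h1]
    push_cast
    rw [← hq]
    linear_combination (2 * (sd : ℚ) * k) * hr
  have e2 : (((sd * (k + 2)) * (sd * (k + 2)) + 2 * pP * (sd * (k + 2)) + n2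
      - 2 * pN * (sd * (k + 2)) : ℕ) : ℚ)
      = (sd : ℚ) ^ 2 * (((k : ℚ) + 2) * (k + 2 + 2 * r) + q) := by
    rw [Nat.cast_sub h2]
    push_cast
    rw [← hq]
    linear_combination (2 * (sd : ℚ) * (k + 2)) * (-hr)
  have e3 : ((bd * (k + 3) + bn : ℕ) : ℚ) = (bd : ℚ) * (k + b + 3) := by
    push_cast
    rw [← hb]
    ring
  unfold eN
  rw [Nat.cast_mul, Nat.cast_mul, e1, e2, e3]
  generalize (k : ℚ) ^ 2 - 2 * r * k + q = A
  generalize ((k : ℚ) + 2) * (k + 2 + 2 * r) + q = B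
  generalize (k : ℚ) + b + 3 = C
  ring

theorem eD_eq (hr : r * sd = (pP : ℚ) - pN) (hb : b * bd = bn)
    (h1 : 2 * pN < sd * 2 + 2 * pP) (h2 : 2 * pP * bd < bd * sd + bn * sd + 2 * pN * bd)
    (k : ℕ) :
    (eD sd pP pN bn bd k : ℚ) = ((sd : ℚ) ^ 4 * bd)
      * (((k : ℚ) + 1) ^ 2 * (((k : ℚ) + 2) * (k + 2 + 2 * r)) * (k + b + 1 - 2 * r)) := by
  have k1 : 2 * pN ≤ sd * (k + 2) + 2 * pP := by nlinarith [Nat.zero_le (sd * k)]
  have k2 : 2 * pP * bd ≤ bd * sd * (k + 1) + bn * sd + 2 * pN * bd := by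
    nlinarith [Nat.zero_le (bd * sd * k)]
  have e1 : ((sd * (k + 2) + 2 * pP - 2 * pN : ℕ) : ℚ) = (sd : ℚ) * (k + 2 + 2 * r) := by
    rw [Nat.cast_sub k1]
    push_cast
    linear_combination (-2) * hr
  have e2 : ((bd * sd * (k + 1) + bn * sd + 2 * pN * bd - 2 * pP * bd : ℕ) : ℚ)
      = (bd : ℚ) * sd * (k + b + 1 - 2 * r) := by
    rw [Nat.cast_sub k2]
    push_cast
    rw [← hb]
    linear_combination (2 * (bd : ℚ)) * hr
  unfold eD
  rw [Nat.cast_mul, Nat.cast_mul, e1, e2]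
  push_cast
  generalize (k : ℚ) + 2 + 2 * r = B
  generalize (k : ℚ) + b + 1 - 2 * r = C
  ring

theorem eD_pos (hsd : 0 < sd) (h1 : 2 * pN < sd * 2 + 2 * pP)
    (h2 : 2 * pP * bd < bd * sd + bn * sd + 2 * pN * bd) (k : ℕ) : 0 < eD sd pP pN bn bd k := by
  have k1 : 2 * pN < sd * (k + 2) + 2 * pP := by nlinarith [Nat.zero_le (sd * k)]
  have k2 : 2 * pP * bd < bd * sd * (k + 1) + bn * sd + 2 * pN * bd := by
    nlinarith [Nat.zero_le (bd * sd * k)]
  have k3 : 0 < sd * (k + 2) + 2 * pP - 2 * pN := by omega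
  have k4 : 0 < bd * sd * (k + 1) + bn * sd + 2 * pN * bd - 2 * pP * bd := Nat.sub_pos_of_lt k2
  unfold eD
  positivity

theorem qn_frac (hsd : 0 < sd) (hbd : 0 < bd) (hr : r * sd = (pP : ℚ) - pN)
    (hq : q * (sd * sd) = n2) (hb : b * bd = bn)
    (hn : ((pP : ℤ) - pN) * (pP - pN) ≤ n2)
    (h1 : 2 * pN < sd * 2 + 2 * pP) (h2 : 2 * pP * bd < bd * sd + bn * sd + 2 * pN * bd)
    (k : ℕ) : qnQ r q b k = (eN sd pP pN n2 bn bd k : ℚ) / eD sd pP pN bn bd k := by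
  rw [eN_eq hr hq hb hn, eD_eq hr hb h1 h2, qnQ, mul_div_mul_left]
  have a1 : (0 : ℚ) < sd := by exact_mod_cast hsd
  have a2 : (0 : ℚ) < bd := by exact_mod_cast hbd
  positivity

theorem goE_spec (hsd : 0 < sd) (hbd : 0 < bd) (hr : r * sd = (pP : ℚ) - pN)
    (hq : q * (sd * sd) = n2) (hb : b * bd = bn)
    (hn : ((pP : ℤ) - pN) * (pP - pN) ≤ n2)
    (h1 : 2 * pN < sd * 2 + 2 * pP) (h2 : 2 * pP * bd < bd * sd + bn * sd + 2 * pN * bd)
    {S : ℚ} : ∀ (m j lo hi : ℕ), (lo : ℚ) ≤ S * enQ r q b j → S * enQ r q b j ≤ hi →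
      ((goE sd pP pN n2 bn bd m j lo hi).1 : ℚ) ≤ S * enQ r q b (j + m) ∧
      S * enQ r q b (j + m) ≤ ((goE sd pP pN n2 bn bd m j lo hi).2 : ℚ)
  | 0, j, lo, hi, k1, k2 => ⟨k1, k2⟩
  | m + 1, j, lo, hi, k1, k2 => by
    have e : j + (m + 1) = j + 1 + m := by ring
    rw [e, goE]
    have hD := eD_pos hsd h1 h2 j
    have hD' : (0 : ℚ) < (eD sd pP pN bn bd j : ℚ) := by exact_mod_cast hD
    have hen : S * enQ r q b (j + 1)
        = (S * enQ r q b j) * ((eN sd pP pN n2 bn bd j : ℚ) / eD sd pP pN bn bd j) := by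
      rw [enQ, qn_frac hsd hbd hr hq hb hn h1 h2 j]
      ring
    have hf : (0 : ℚ) ≤ (eN sd pP pN n2 bn bd j : ℚ) / eD sd pP pN bn bd j := by positivity
    apply goE_spec hsd hbd hr hq hb hn h1 h2
    · rw [hen]
      refine le_trans Nat.cast_div_le ?_
      push_cast
      rw [mul_div_assoc]
      exact mul_le_mul_of_nonneg_right k1 hf
    · rw [hen]
      refine le_trans (mul_le_mul_of_nonneg_right k2 hf) ?_
      rw [← mul_div_assoc, div_le_iff₀ hD']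
      have h5 := Nat.lt_mul_div_succ (hi * eN sd pP pN n2 bn bd j) hD
      have h6 : ((hi * eN sd pP pN n2 bn bd j : ℕ) : ℚ) < ((eD sd pP pN bn bd j
        * (hi * eN sd pP pN n2 bn bd j / eD sd pP pN bn bd j + 1) : ℕ) : ℚ) := by exact_mod_cast h5
      rw [Nat.cast_mul, Nat.cast_mul] at h6
      linarith

end

/-- the fast check -/
def esF (s1 s2 : ℤ) (sd bn bd n : ℕ) (bu gu bl gl Elo Ehi : ℚ) : Bool :=
  decide (0 < sd) && decide (0 < bd)
    && decide (2 * (-s1).toNat < sd * 2 + 2 * s1.toNat)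
    && decide (2 * s1.toNat * bd < bd * sd + bn * sd + 2 * (-s1).toNat * bd)
    && decide (0 < (n : ℚ) + bu) && decide (0 < (n : ℚ) + gu)
    && decide (0 < (n : ℚ) + bl) && decide (0 < (n : ℚ) + gl)
    && (zadd (zR sd bd bu.den gu.den s1 bn bu.num gu.num n)
      (zsm (-1) (zL sd bd bu.den gu.den s1 (s1 * s1 + s2 * s2) bn bu.num gu.num n))).all
        (fun a => decide (0 ≤ a))
    && (zadd (zL sd bd bl.den gl.den s1 (s1 * s1 + s2 * s2) bn bl.num gl.num n)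
      (zsm (-1) (zR sd bd bl.den gl.den s1 bn bl.num gl.num n))).all (fun a => decide (0 ≤ a))
    && decide (0 ≤ Elo)
    && (let x0 := 2 ^ 128 * (sd * sd + 2 * s1.toNat * sd + (s1 * s1 + s2 * s2).toNat
          - 2 * (-s1).toNat * sd) / (sd * sd)
        let e := goE sd s1.toNat (-s1).toNat (s1 * s1 + s2 * s2).toNat bn bd n 0 x0 (x0 + 1)
        decide (2 ^ 128 * Elo ≤ e.1 * (((n : ℚ) + gl) / ((n : ℚ) + bl))) &&
        decide (e.2 * (((n : ℚ) + gu) / ((n : ℚ) + bu)) ≤ 2 ^ 128 * Ehi))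

theorem esF_sound {s1 s2 : ℤ} {sd bn bd n : ℕ} {bu gu bl gl Elo Ehi : ℚ}
    (h : esF s1 s2 sd bn bd n bu gu bl gl Elo Ehi = true) {r q b : ℚ}
    (hr : r = mkRat s1 sd) (hq : q = mkRat s1 sd * mkRat s1 sd + mkRat s2 sd * mkRat s2 sd)
    (hb : b = mkRat bn bd) : esQ2 r q b n bu gu bl gl Elo Ehi = true := by
  simp only [esF, Bool.and_eq_true, decide_eq_true_eq] at h
  obtain ⟨⟨⟨⟨⟨⟨⟨⟨⟨⟨⟨c1, c2⟩, c3⟩, c4⟩, c5⟩, c6⟩, c7⟩, c8⟩, c9⟩, c10⟩, c11⟩, c12, c13⟩ := h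
  have a1 : (0 : ℚ) < sd := by exact_mod_cast c1
  have a2 : (0 : ℚ) < bd := by exact_mod_cast c2
  have hr' : r * sd = (s1 : ℚ) := by
    rw [hr, Rat.mkRat_eq_div]
    field_simp
  have hq' : q * (sd * sd) = ((s1 * s1 + s2 * s2 : ℤ) : ℚ) := by
    rw [hq, Rat.mkRat_eq_div, Rat.mkRat_eq_div]
    push_cast
    field_simp
  have hb' : b * bd = ((bn : ℤ) : ℚ) := by
    rw [hb, Rat.mkRat_eq_div]
    push_cast
    field_simp
  -- the signs
  have hp : ((s1.toNat : ℤ)) - ((-s1).toNat : ℤ) = s1 := by omega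
  have hpq : r * sd = (s1.toNat : ℚ) - ((-s1).toNat : ℚ) := by
    rw [hr']
    have : ((((s1.toNat : ℤ)) - ((-s1).toNat : ℤ) : ℤ) : ℚ) = (s1 : ℚ) := by rw [hp]
    push_cast at this
    exact this.symm
  have hn0 : (0 : ℤ) ≤ s1 * s1 + s2 * s2 := add_nonneg (mul_self_nonneg _) (mul_self_nonneg _)
  have hnZ : (((s1 * s1 + s2 * s2).toNat : ℕ) : ℤ) = s1 * s1 + s2 * s2 := Int.toNat_of_nonneg hn0
  have hnq : q * (sd * sd) = (((s1 * s1 + s2 * s2).toNat : ℕ) : ℚ) := by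
    rw [hq', ← hnZ, Int.cast_natCast]
    rfl
  have hn : (((s1.toNat : ℕ) : ℤ) - ((-s1).toNat : ℕ)) * ((s1.toNat : ℕ) - ((-s1).toNat : ℕ))
      ≤ ((s1 * s1 + s2 * s2).toNat : ℕ) := by
    rw [hp, hnZ]
    have := mul_self_nonneg s2
    linarith
  have hbq : b * bd = ((bn : ℕ) : ℚ) := by
    rw [hb']
    push_cast
    rfl
  -- the starting values
  set S : ℚ := 2 ^ 128 with hS
  have hS0 : (0 : ℚ) < S := by norm_num [hS]
  set X : ℕ := sd * sd + 2 * s1.toNat * sd + (s1 * s1 + s2 * s2).toNat - 2 * (-s1).toNat * sd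
    with hX
  have hle : 2 * (-s1).toNat * sd ≤ sd * sd + 2 * s1.toNat * sd + (s1 * s1 + s2 * s2).toNat := by
    have hn' : (((-s1).toNat : ℕ) - ((s1.toNat : ℕ) : ℤ)) * ((-s1).toNat - (s1.toNat : ℕ))
        ≤ ((s1 * s1 + s2 * s2).toNat : ℕ) := by
      have e : (((-s1).toNat : ℕ) - ((s1.toNat : ℕ) : ℤ)) * ((-s1).toNat - (s1.toNat : ℕ))
        = (((s1.toNat : ℕ) : ℤ) - ((-s1).toNat : ℕ)) * ((s1.toNat : ℕ) - ((-s1).toNat : ℕ)) := by
        ring
      rw [e]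
      exact hn
    exact le_sq hn' sd
  have hXq : (X : ℚ) = (sd * sd) * (1 + 2 * r + q) := by
    rw [hX, Nat.cast_sub hle]
    push_cast
    have h5 := hnq
    linear_combination (-2 * (sd : ℚ)) * hpq - h5
  have hen : S * enQ r q b 0 = (2 ^ 128 * X : ℕ) / ((sd * sd : ℕ) : ℚ) := by
    rw [enQ]
    push_cast
    rw [hXq, hS]
    field_simp
    ring
  have hssd : 0 < sd * sd := Nat.mul_pos c1 c1
  have k1 : (((2 ^ 128 * X / (sd * sd) : ℕ)) : ℚ) ≤ S * enQ r q b 0 := by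
    rw [hen]
    exact Nat.cast_div_le
  have k2 : S * enQ r q b 0 ≤ (((2 ^ 128 * X / (sd * sd) + 1 : ℕ)) : ℚ) := by
    have a3 : (0 : ℚ) < ((sd * sd : ℕ) : ℚ) := by exact_mod_cast hssd
    rw [hen, div_le_iff₀ a3]
    have h5 := Nat.lt_mul_div_succ (2 ^ 128 * X) hssd
    have h6 : ((2 ^ 128 * X : ℕ) : ℚ) < ((sd * sd * (2 ^ 128 * X / (sd * sd) + 1) : ℕ) : ℚ) := by
      exact_mod_cast h5
    rw [Nat.cast_mul (sd * sd)] at h6
    linarith
  obtain ⟨g1, g2⟩ := goE_spec c1 c2 hpq hnq hbq hn c3 c4 n 0 _ _ k1 k2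
  rw [zero_add] at g1 g2
  have w1 : (0 : ℚ) ≤ ((n : ℚ) + gl) / ((n : ℚ) + bl) := by positivity
  have w2 : (0 : ℚ) ≤ ((n : ℚ) + gu) / ((n : ℚ) + bu) := by positivity
  simp only [esQ2, Bool.and_eq_true, decide_eq_true_eq]
  refine ⟨⟨⟨⟨⟨⟨⟨⟨c5, c6⟩, c7⟩, c8⟩, ?_⟩, ?_⟩, c11⟩, ?_⟩, ?_⟩
  · have hR := sc_R (n := n) hr' hb' bu gu
    have hL := sc_L (n := n) hr' hq' hb' bu gu
    have hbu : (0 : ℚ) < bu.den := by exact_mod_cast bu.den_pos
    have hgu : (0 : ℚ) < gu.den := by exact_mod_cast gu.den_pos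
    have e : ((bd * sd) * ((sd * sd * sd) * (bu.den * gu.den)) : ℚ)
        = (sd * sd) * ((sd * sd) * (bd * (bu.den * gu.den))) := by ring
    rw [e] at hR
    exact (hR.add (hL.sm (t := -1) (a := -1) (by push_cast; ring))).nonneg (by positivity) c9
  · have hR := sc_R (n := n) hr' hb' bl gl
    have hL := sc_L (n := n) hr' hq' hb' bl gl
    have hbu : (0 : ℚ) < bl.den := by exact_mod_cast bl.den_pos
    have hgu : (0 : ℚ) < gl.den := by exact_mod_cast gl.den_pos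
    have e : ((bd * sd) * ((sd * sd * sd) * (bl.den * gl.den)) : ℚ)
        = (sd * sd) * ((sd * sd) * (bd * (bl.den * gl.den))) := by ring
    rw [e] at hR
    exact (hL.add (hR.sm (t := -1) (a := -1) (by push_cast; ring))).nonneg (by positivity) c10
  · have h5 := c12.trans (mul_le_mul_of_nonneg_right g1 w1)
    rw [mul_assoc] at h5
    exact le_of_mul_le_mul_left h5 hS0
  · have h5 := (mul_le_mul_of_nonneg_right g2 w2).trans c13
    rw [mul_assoc] at h5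
    exact le_of_mul_le_mul_left h5 hS0

end Pool.Agent.M16.Helper53.HR2

namespace Pool.Agent.M16.Helper65.HR2.AP2

open Pool.Agent.M16.Helper53.HR2 (esF esF_sound)

/-- fast form of the check `c5` -/
def c5f (X : AP2) (n : ℕ) (bu gu bl gl : ℚ) : Bool :=
  esF X.P.s1 X.P.s2 X.P.sd X.P.bn X.P.bd n bu gu bl gl X.P.Elo X.P.Ehi

theorem c5_of_c5f {X : AP2} {n : ℕ} {bu gu bl gl : ℚ} (h : X.c5f n bu gu bl gl = true) :
    X.c5 n bu gu bl gl = true :=
  esF_sound h rfl rfl rfl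

end Pool.Agent.M16.Helper65.HR2.AP2

end

end

section

namespace Pool.Agent.M16.Helper24.HR2
end Pool.Agent.M16.Helper24.HR2
namespace Pool.Agent.M16.Helper12.HR2
end Pool.Agent.M16.Helper12.HR2
namespace Pool.Agent.M16.Helper53.HR2
end Pool.Agent.M16.Helper53.HR2
namespace Pool.Agent.M16.Helper65.HR2
end Pool.Agent.M16.Helper65.HR2

section

set_option autoImplicit false

open scoped ComplexConjugate

namespace Pool.Agent.M16.Helper65.HR2

open Pool.Agent.M16.Helper24.HR2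

open Pool.Agent.M16.Helper12.HR2

open Pool.Agent.M16.Helper53.HR2 (xsc4 xsc4_eq qfM4 relsL hc_of_sound4)

namespace AP2

/-- the row and the column of order `i` vanish before the diagonal, which is positive -/
def cz (X : AP2) (i : ℕ) : Bool :=
  decide (0 < (X.P.MZ i i).1) &&
    (List.range i).all (fun j => decide (X.P.MZ i j = (0, 0)) && decide (X.P.MZ j i = (0, 0)))

/-- the moments of order `k, ..., K - 1` split off -/
def c10 (X : AP2) (k : ℕ) : Bool :=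
  decide (k ≤ X.K) && (List.range X.K).all (fun i => decide (i < k) || X.cz i)

theorem hF_succ_split (K : ℕ) (Q : ℕ → ℕ → ℂ) (h1 : ∀ j < K, Q K j = 0) (h2 : ∀ j < K, Q j K = 0)
    (g : ℕ → ℂ) : hF K Q g + (Q K K).re * ‖g K‖ ^ 2 = hF (K + 1) Q g := by
  have e : (Q K K * (g K * conj (g K))).re = (Q K K).re * ‖g K‖ ^ 2 := by
    rw [Complex.mul_conj, Complex.normSq_eq_norm_sq, Complex.re_mul_ofReal]
  have e1 : ∑ t ∈ Finset.range K, (Q K t * (g t * conj (g K))).re = 0 := by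
    refine Finset.sum_eq_zero (fun j hj => ?_)
    rw [h1 j (Finset.mem_range.1 hj), zero_mul, Complex.zero_re]
  have e2 : ∑ r ∈ Finset.range K, (Q r K * (g K * conj (g r))).re = 0 := by
    refine Finset.sum_eq_zero (fun j hj => ?_)
    rw [h2 j (Finset.mem_range.1 hj), zero_mul, Complex.zero_re]
  rw [← e, hF, hF, Finset.sum_range_succ]
  simp only [Finset.sum_range_succ]
  rw [Finset.sum_add_distrib, e1, e2]
  ring

theorem pf_drop_aux (X : AP2) (h1 : X.P.c1 = true) (hs : ‖X.P.sC‖ < 1) (hb : 0 < X.P.bR) (k : ℕ) :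
    ∀ K : ℕ, k ≤ K → (∀ i < K, i < k ∨ X.cz i = true) → PF X.P.sC X.P.bR K (hF K X.QC2) →
      PF X.P.sC X.P.bR k (hF k X.QC2) := by
  intro K
  induction K with
  | zero =>
    intro hk _ h
    have : k = 0 := by omega
    rw [this]
    exact h
  | succ K ih =>
    intro hk hz h
    by_cases hk' : k = K + 1
    · rw [hk']
      exact h
    · have hkK : k ≤ K := by omega
      refine ih hkK (fun i hi => hz i (by omega)) ?_
      have h2 := (hz K (by omega)).resolve_left (by omega)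
      simp only [cz, Bool.and_eq_true, decide_eq_true_eq, List.all_eq_true, List.mem_range] at h2
      obtain ⟨h3, h4⟩ := h2
      exact PF_extK hs hb h (X.QC2_pos h1 h3) (fun g =>
        (hF_succ_split K X.QC2 (fun j hj => X.QC2_zero h1 (h4 j hj).1)
          (fun j hj => X.QC2_zero h1 (h4 j hj).2) g).le)

/-- the per-frequency inequality with the first `k` moments -/
theorem pf_drop (X : AP2) (h1 : X.P.c1 = true) (hs : ‖X.P.sC‖ < 1) (hb : 0 < X.P.bR) {k : ℕ}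
    (h10 : X.c10 k = true) (h : PF X.P.sC X.P.bR X.K (hF X.K X.QC2)) :
    PF X.P.sC X.P.bR k (hF k X.QC2) := by
  simp only [c10, Bool.and_eq_true, decide_eq_true_eq, List.all_eq_true, List.mem_range,
    Bool.or_eq_true] at h10
  exact X.pf_drop_aux h1 hs hb k X.K h10.1 h10.2 h

/-- **the bound of the means at the point, four moments**, the others are eliminated; from the
conclusion of any certificate checker -/
theorem ok4g_of_sound (X : AP2) (h1 : X.P.c1 = true) (h2 : X.P.c2 = true) (h3 : X.P.c3 = true)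
    (h6 : X.c6 = true) (h7 : X.c7 = true) {m : ℕ} {bu gu bl gl : ℚ}
    (h5 : X.c5 m bu gu bl gl = true) {S J : ℕ} {f1 f2 g1 g2 f1' f2' g1' g2' : ℚ}
    (h8 : X.c8 S J f1 f2 g1 g2 f1' f2' g1' g2' = true) (h10 : X.c10 4 = true)
    {eta mL : ℝ} {qf L : Pol} (heta : 0 < eta)
    (h : ∀ c : ℕ → ℂ, eta + (pv c (fun k => conj (c k)) qf).re
      + mL * (rel (((X.P.par.p : ℂ) + X.P.par.q * Complex.I) / X.P.par.sr)
        ((X.P.par.bn : ℂ) / X.P.par.bd) c L).re ≤ 0)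
    (hqf : ∀ c : ℕ → ℂ, (pv c (fun k => conj (c k)) qf).re
      = (pv c (fun k => conj (c k)) (qfM4 X.P.par X.P.MZ)).re) : PtOK X.P.par := by
  obtain ⟨k1, k2, k3, k4, k5, k6, k7⟩ := X.pf' h1 h2 h3 h6 h7 h5 h8
  have hpf := X.pf_drop h1 (by linarith only [k4, k6]) k3 h10 k7
  have hc := hc_of_sound4 X.P.par (X.sr_ne h1) X.P.MZ X.QC2 (X.N_pos h1) X.P.sC_eq X.P.bR_eq h hqf
    (fun r _ t _ => X.QC2_eq h1 r t)
  exact X.P.ptOK_of_LS k3 (core_t k1 k2 k3 k4 k5 k6 X.QC2 hpf (relsL mL X.P.N L)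
    (div_pos heta (X.N_pos h1)) hc)

end AP2

end Pool.Agent.M16.Helper65.HR2

end

section

set_option autoImplicit false

open scoped ComplexConjugate

namespace Pool.Agent.M16.Helper54.HR2

open Pool.Agent.M16.Helper12.HR2 (Par Mo GZ gv Pol mv pv wl rel Dvl dvl upl prd M3)

open Pool.Agent.M16.Helper65.HR2 (AP2)

open Pool.Agent.M16.Helper53.HR2 (qfM4)

/-- `a = z + h` -/
noncomputable def ieq (a h : ℕ) (z : ℤ) : Bool :=
  Int.rec (motive := fun _ => Bool) (fun n => Nat.beq a (Nat.add n h))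
    (fun n => Nat.beq (Nat.add a (Nat.succ n)) h) z

/-- the coefficients are the digits -/
noncomputable def eqQ (w h : ℕ) (l : List (Mo × GZ)) : ℕ → ℕ → Bool :=
  List.rec (motive := fun _ => ℕ → ℕ → Bool) (fun _ _ => true)
    (fun t _ ih x y => and (ieq (Nat.mod x w) h t.2.1)
      (and (ieq (Nat.mod y w) h t.2.2) (ih (Nat.div x w) (Nat.div y w)))) l

theorem ieq_eq {a h : ℕ} {z : ℤ} (hz : ieq a h z = true) : ((a : ℕ) : ℤ) - h = z := by
  rcases z with n | n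
  · have h1 : a = n + h := Nat.eq_of_beq_eq_true hz
    rw [h1]
    push_cast
    simp
  · have h1 : a + (n + 1) = h := Nat.eq_of_beq_eq_true hz
    rw [← h1, Int.negSucc_eq]
    push_cast
    ring

theorem eqQ_eq (w h : ℕ) (l : List (Mo × GZ)) : ∀ x y : ℕ, eqQ w h l x y = true →
    upl w h (l.map Prod.fst) x y = l := by
  induction l with
  | nil => intro x y _; rfl
  | cons t l ih =>
    intro x y hq
    have h' : (ieq (x % w) h t.2.1 && (ieq (y % w) h t.2.2 && eqQ w h l (x / w) (y / w))) = true :=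
      hq
    simp only [Bool.and_eq_true] at h'
    rw [List.map_cons, upl, ih _ _ h'.2.2, ieq_eq h'.1, ieq_eq h'.2.1]

set_option maxRecDepth 100000 in
theorem qfM4_mono (P : Par) (M : M3) : (qfM4 P M).map Prod.fst = qmSix := rfl

/-- a matrix from a list -/
def mfn (l : List (List (ℤ × ℤ))) : M3 := fun r t => (l.getD r []).getD t (0, 0)

/-- the first matrix is `kq` times the second (first four rows and columns) -/
def okM (M M1 : M3) (kq : ℕ) : Bool :=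
  (List.range 4).all (fun r => (List.range 4).all (fun t =>
    decide (M r t = ((kq : ℤ) * (M1 r t).1, (kq : ℤ) * (M1 r t).2))))

theorem pv_qfM4_scale (P : Par) {M M1 : M3} {kq : ℕ} (h : okM M M1 kq = true) (φ ψ : ℕ → ℂ) :
    pv φ ψ (qfM4 P M) = (kq : ℂ) * pv φ ψ (qfM4 P M1) := by
  have h' : ∀ r ∈ Finset.range 4, ∀ t ∈ Finset.range 4,
      M r t = ((kq : ℤ) * (M1 r t).1, (kq : ℤ) * (M1 r t).2) := by
    intro r hr t ht
    simp only [okM, List.all_eq_true, List.mem_range, decide_eq_true_eq] at h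
    exact h r (Finset.mem_range.1 hr) t (Finset.mem_range.1 ht)
  unfold qfM4
  rw [Pool.Agent.M16.Helper12.HR2.pv_flatMap, Pool.Agent.M16.Helper12.HR2.sum_range_list,
    Pool.Agent.M16.Helper12.HR2.pv_flatMap, Pool.Agent.M16.Helper12.HR2.sum_range_list, Finset.mul_sum]
  refine Finset.sum_congr rfl (fun r hr => ?_)
  rw [Pool.Agent.M16.Helper12.HR2.pv_flatMap, Pool.Agent.M16.Helper12.HR2.sum_range_list,
    Pool.Agent.M16.Helper12.HR2.pv_flatMap, Pool.Agent.M16.Helper12.HR2.sum_range_list, Finset.mul_sum]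
  refine Finset.sum_congr rfl (fun t ht => ?_)
  rw [h' r hr t ht]
  simp only [Pool.Agent.M16.Helper12.HR2.pv_mul, Pool.Agent.M16.Helper12.HR2.pv_cons,
    Pool.Agent.M16.Helper12.HR2.pv_nil, gv]
  push_cast
  ring

/-- **The point is good**: the data of the area form, a certificate with basis monomials of weight
at most 6 for a smaller multiple of the matrix, any correct table. -/
theorem ok6k (X : AP2) (h1 : X.P.c1 = true) (h2 : X.P.c2 = true) (h3 : X.P.c3 = true)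
    (h6 : X.c6 = true) (h7 : X.c7 = true) {m : ℕ} {bu gu bl gl : ℚ}
    (h5 : X.c5 m bu gu bl gl = true) {S J : ℕ} {f1 f2 g1 g2 f1' f2' g1' g2' : ℚ}
    (h8 : X.c8 S J f1 f2 g1 g2 f1' f2' g1' g2' = true) (h10 : X.c10 4 = true)
    {t : Tab6} {K : ℕ} {rep : ℕ → ℕ} {bas : List Mo} {gm : List (List Mo)} {prs : List (ℕ × ℕ)}
    (ht : TabOK6 t K rep bas qmSix gm prs) (C : Cert6) (hR : chR t C = true)
    (hI : chI t C = true) (hB : chB t K C = true) (hP : C.P = X.P.par) (M1 : M3) (kq : ℕ)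
    (hM : okM X.P.MZ M1 kq = true) (hkq : 0 < kq)
    (hqf : eqQ C.wQ C.hQ (qfM4 C.P M1) C.qx C.qy = true)
    (heta : 0 < C.eta) : Pool.Agent.M16.Helper65.HR2.PtOK X.P.par := by
  have hq := eqQ_eq _ _ _ _ _ hqf
  rw [qfM4_mono] at hq
  have hk : (0 : ℝ) < kq := by exact_mod_cast hkq
  have he : (0 : ℝ) < C.eta := by exact_mod_cast heta
  refine X.ok4g_of_sound h1 h2 h3 h6 h7 h5 h8 h10 (eta := (kq : ℝ) * C.eta)
    (mL := (kq : ℝ) * C.mL) (qf := qfM4 X.P.par X.P.MZ) (L := dec6 C.wL C.hL gm C.G)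
    (mul_pos hk he) ?_ (fun c => rfl)
  intro c
  have h := sound6 ht C hR hI hB c
  rw [hq, hP] at h
  have h9 : ((kq : ℂ) * pv c (fun k => conj (c k)) (qfM4 X.P.par M1)).re
      = (kq : ℝ) * (pv c (fun k => conj (c k)) (qfM4 X.P.par M1)).re := by
    have : (kq : ℂ) = ((kq : ℝ) : ℂ) := by push_cast; rfl
    rw [this, Complex.re_ofReal_mul]
  rw [pv_qfM4_scale X.P.par hM, h9]
  have h11 := mul_nonpos_of_nonneg_of_nonpos hk.le h
  linarith only [h11]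

end Pool.Agent.M16.Helper54.HR2

end

end
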