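import Mathlib
import Pool.Agent.Helper60.BE.T01
import Pool.Agent.Helper60.BE.T13
import Pool.Agent.Helper60.BE.T35
import Pool.Agent.Helper60.BE.T08

set_option linter.all false

section

/-!
Definitions used in the statement.
-/

set_option autoImplicit false

open Filter Topology

namespace Pool.Agent.Helper22.Half

/-- `ψ` is in the class Sigma of the exterior disc and `h` is the branch of `log ψ'` on the
exterior disc that tends to `0` at infinity. -/
structure SigmaLog (ψ h : ℂ → ℂ) : Prop where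
  diff : DifferentiableOn ℂ ψ {z : ℂ | 1 < ‖z‖}
  inj : Set.InjOn ψ {z : ℂ | 1 < ‖z‖}
  normalised : ∃ b : ℂ, Tendsto (fun z => ψ z - z) (Bornology.cobounded ℂ) (𝓝 b)
  hdiff : DifferentiableOn ℂ h {z : ℂ | 1 < ‖z‖}
  exp_eq : ∀ z : ℂ, 1 < ‖z‖ → Complex.exp (h z) = deriv ψ z
  lim : Tendsto h (Bornology.cobounded ℂ) (𝓝 0)

/-- A holomorphic family in the class Sigma, parametrised by the unit disc, starting at the
identity. -/
structure HolFam (ψ h : ℂ → ℂ → ℂ) : Prop where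
  mem : ∀ l ∈ Metric.ball (0:ℂ) 1, SigmaLog (ψ l) (h l)
  hol : ∀ z : ℂ, 1 < ‖z‖ → DifferentiableOn ℂ (fun l => ψ l z) (Metric.ball 0 1)
  base : ∀ z : ℂ, 1 < ‖z‖ → ψ 0 z = z

/-- The mean of `exp (a |h|² / log (R² / (R² - 1)))` over the circle of radius `R`. -/
noncomputable def mInt (a R : ℝ) (h : ℂ → ℂ) : ℝ :=
  (1 / (2 * Real.pi)) * ∫ θ in (0:ℝ)..(2 * Real.pi),
    Real.exp (a * ‖h ((R : ℂ) * Complex.exp ((θ : ℂ) * Complex.I))‖ ^ 2
      / Real.log (R ^ 2 / (R ^ 2 - 1)))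

end Pool.Agent.Helper22.Half

end

section

set_option autoImplicit false

open MeasureTheory Set Metric Filter Topology
open scoped Real

/-!
The logarithm of the derivative of a function of the class Σ (light imports).
-/

namespace Pool.Agent.Helper58.BF

open Pool.Agent.Helper22.Half (SigmaLog)
open Pool.Agent.Helper39.Area (toDisc inv_mem isOpen_ext)
open Pool.Agent.Helper24.Br (deriv_ne_of_inj exists_log_ball)

/-- the logarithm of the derivative -/
theorem exists_sigmaLog {ψ : ℂ → ℂ}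
    (hψ : DifferentiableOn ℂ ψ {z : ℂ | 1 < ‖z‖})
    (hinj : Set.InjOn ψ {z : ℂ | 1 < ‖z‖})
    (hc : ∃ c : ℂ, Tendsto (fun z => ψ z - z) (Bornology.cobounded ℂ) (𝓝 c)) :
    ∃ h : ℂ → ℂ, SigmaLog ψ h := by
  obtain ⟨c, hc⟩ := hc
  have hne : ∀ z : ℂ, 1 < ‖z‖ → deriv ψ z ≠ 0 := fun z hz => deriv_ne_of_inj isOpen_ext hψ hinj hz
  have hexp : ∀ z : ℂ, 1 < ‖z‖ → Complex.exp ((fun z => Complex.log (deriv ψ z)) z) =
      deriv ψ z := fun z hz => Complex.exp_log (hne z hz)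
  obtain ⟨hE, hex⟩ := Pool.Agent.Helper39.Area.ext_data hψ hinj hc hexp
  have hq : DifferentiableOn ℂ (fun ζ => 1 - ζ ^ 2 * deriv (toDisc c (fun z => ψ z - z)) ζ)
      (ball 0 1) := by
    have h1 := hE.diff.deriv isOpen_ball
    have h2 : DifferentiableOn ℂ (fun ζ : ℂ => ζ ^ 2) (ball 0 1) := by fun_prop
    exact (differentiableOn_const (1 : ℂ)).sub (h2.mul h1)
  obtain ⟨H, hH, hH0, hHe⟩ := exists_log_ball hq (fun z hz => hE.ne z hz) (by simp)
  have hz0 : ∀ z : ℂ, 1 < ‖z‖ → z ≠ 0 := by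
    rintro z hz rfl
    simp at hz
    linarith
  have hzb : ∀ z : ℂ, 1 < ‖z‖ → z⁻¹ ∈ ball (0 : ℂ) 1 := by
    intro z hz
    rw [mem_ball_zero_iff, norm_inv]
    exact inv_lt_one_of_one_lt₀ hz
  refine ⟨fun z => H z⁻¹, ⟨hψ, hinj, ⟨c, hc⟩, ?_, ?_, ?_⟩⟩
  · intro z hz
    have h1 : DifferentiableAt ℂ H z⁻¹ := hH.differentiableAt (isOpen_ball.mem_nhds (hzb z hz))
    exact (h1.comp z (differentiableAt_inv (hz0 z hz))).differentiableWithinAt
  · intro z hz
    have h0 := inv_ne_zero (hz0 z hz)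
    rw [hHe _ (hzb z hz), ← hex _ (hzb z hz)]
    simp only [toDisc]
    rw [if_neg h0, inv_inv]
    exact Complex.exp_log (hne _ hz)
  · have h1 : ContinuousAt H 0 := (hH.differentiableAt (ball_mem_nhds 0 one_pos)).continuousAt
    have h2 := h1.tendsto
    rw [hH0] at h2
    exact h2.comp tendsto_inv₀_cobounded

end Pool.Agent.Helper58.BF

end

section

/-! Injective holomorphic functions: open images and holomorphic inverses. -/

set_option autoImplicit false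
open Set Metric Filter Topology Complex

namespace Pool.Agent.Helper15.CK

/-- the image of an open set under an injective holomorphic function is open -/
theorem nhds_image {f : ℂ → ℂ} {U : Set ℂ} (hU : IsOpen U) (hf : DifferentiableOn ℂ f U)
    (hinj : InjOn f U) {z : ℂ} (hz : z ∈ U) : f '' U ∈ 𝓝 (f z) := by
  have hd : deriv f z ≠ 0 := Pool.Agent.Helper24.Br.deriv_ne_of_inj hU hf hinj hz
  have ha : AnalyticAt ℂ f z := hf.analyticAt (hU.mem_nhds hz)
  rw [← ha.hasStrictDerivAt.map_nhds_eq hd]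
  exact image_mem_map (hU.mem_nhds hz)

theorem isOpen_image {f : ℂ → ℂ} {U V : Set ℂ} (hf : DifferentiableOn ℂ f U)
    (hinj : InjOn f U) (hV : IsOpen V) (hVU : V ⊆ U) : IsOpen (f '' V) := by
  rw [isOpen_iff_mem_nhds]
  rintro _ ⟨z, hz, rfl⟩
  exact nhds_image hV (hf.mono hVU) (hinj.mono hVU) hz

/-- the inverse of an injective holomorphic function is holomorphic -/
theorem exists_inverse {U : Set ℂ} (hUo : IsOpen U) {f : ℂ → ℂ} (hf : DifferentiableOn ℂ f U)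
    (hfi : InjOn f U) :
    ∃ g : ℂ → ℂ, DifferentiableOn ℂ g (f '' U) ∧ (∀ z ∈ U, g (f z) = z) ∧
      (∀ w ∈ f '' U, g w ∈ U ∧ f (g w) = w) ∧
      ∀ z ∈ U, HasDerivAt g (deriv f z)⁻¹ (f z) := by
  classical
  have hleft : ∀ z ∈ U, Function.invFunOn f U (f z) = z := fun z hz => hfi.leftInvOn_invFunOn hz
  have hright : ∀ w ∈ f '' U, Function.invFunOn f U w ∈ U ∧ f (Function.invFunOn f U w) = w :=
    fun w hw => ⟨Function.invFunOn_mem hw, Function.invFunOn_eq hw⟩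
  have hcont : ∀ z ∈ U, ContinuousAt (Function.invFunOn f U) (f z) := by
    intro z hz
    rw [ContinuousAt, hleft z hz]
    intro V hV
    rw [mem_map]
    have hVU : V ∩ U ∈ 𝓝 z := inter_mem hV (hUo.mem_nhds hz)
    obtain ⟨W, hWs, hWo, hzW⟩ := _root_.mem_nhds_iff.mp hVU
    have h1 : f '' W ∈ 𝓝 (f z) :=
      (isOpen_image hf hfi hWo (fun x hx => (hWs hx).2)).mem_nhds ⟨z, hzW, rfl⟩
    refine mem_of_superset h1 ?_
    rintro _ ⟨x, hx, rfl⟩
    simp only [mem_preimage]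
    rw [hleft x (hWs hx).2]
    exact (hWs hx).1
  have hder : ∀ z ∈ U, HasDerivAt (Function.invFunOn f U) (deriv f z)⁻¹ (f z) := by
    intro z hz
    have hd : deriv f z ≠ 0 := Pool.Agent.Helper24.Br.deriv_ne_of_inj hUo hf hfi hz
    apply HasDerivAt.of_local_left_inverse (f := f) (hcont z hz)
    · rw [hleft z hz]
      exact (hf.differentiableAt (hUo.mem_nhds hz)).hasDerivAt
    · exact hd
    · filter_upwards [nhds_image hUo hf hfi hz] with w hw
      exact (hright w hw).2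
  refine ⟨Function.invFunOn f U, ?_, hleft, hright, hder⟩
  rintro _ ⟨z, hz, rfl⟩
  exact (hder z hz).differentiableAt.differentiableWithinAt

end Pool.Agent.Helper15.CK

end

section

set_option autoImplicit false
open Complex MeasureTheory Metric Set
open scoped Real ComplexConjugate

/-! Project EK, module E6e: transfer of the moment bound to the class Σ. -/

namespace Pool.Agent.Helper32.EK

open Pool.Agent.Helper39.Area Pool.Agent.Helper52.EK
open Pool.Agent.Helper24.Br (deriv_ne_of_inj)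

/-- E6e: the class Σ -/
theorem final {κ : ℝ} (hM : ∀ p : ℝ, κ ≤ p → ∃ C : ℝ, ∀ (β : ℂ → ℂ) (r : ℝ), Ext β → 0 < r →
      r < 1 → (2 * π)⁻¹ * (∫ α in (0:ℝ)..(2 * π), ‖N β (r * Complex.exp (α * I))‖ ^ (-p)) ≤
        C * (1 - r ^ 2) ^ (-(p - 1))) :
    ∀ p : ℝ, κ ≤ p → ∃ C : ℝ, ∀ ψ : ℂ → ℂ, DifferentiableOn ℂ ψ {z : ℂ | 1 < ‖z‖} →
      InjOn ψ {z : ℂ | 1 < ‖z‖} →
      (∃ b : ℂ, Filter.Tendsto (fun z => ψ z - z) (Bornology.cobounded ℂ) (nhds b)) →
      ∀ R : ℝ, 1 < R →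
      (2 * π)⁻¹ * (∫ θ in (0:ℝ)..(2 * π), ‖deriv ψ (R * Complex.exp (θ * I))‖ ^ (-p)) ≤
        C * (R ^ 2 / (R ^ 2 - 1)) ^ (p - 1) := by
  intro p hp
  obtain ⟨C, hC⟩ := hM p hp
  refine ⟨C, ?_⟩
  rintro ψ hψ hinj ⟨b, hb⟩ R hR
  have hR0 : 0 < R := by linarith
  have hne : ∀ z : ℂ, 1 < ‖z‖ → deriv ψ z ≠ 0 := fun z hz =>
    deriv_ne_of_inj isOpen_ext hψ hinj hz
  have hexp : ∀ z : ℂ, 1 < ‖z‖ → Complex.exp ((fun z => Complex.log (deriv ψ z)) z) =
      deriv ψ z := fun z hz => Complex.exp_log (hne z hz)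
  obtain ⟨hE, hex⟩ := ext_data hψ hinj hb hexp
  have hr0 : 0 < R⁻¹ := by positivity
  have hr1 : R⁻¹ < 1 := inv_lt_one_of_one_lt₀ hR
  have hmain := hC (toDisc b (fun z => ψ z - z)) R⁻¹ hE hr0 hr1
  obtain ⟨k, hk⟩ : ∃ k : ℝ → ℝ, k = fun (α : ℝ) =>
    ‖N (toDisc b (fun z => ψ z - z)) (((R⁻¹ : ℝ) : ℂ) * Complex.exp (α * I))‖ ^ (-p) := ⟨_, rfl⟩
  have h1 : ∀ θ : ℝ, ‖deriv ψ (R * Complex.exp (θ * I))‖ ^ (-p) = k (-θ) := by
    intro θ
    have hne0 : ((R⁻¹ : ℝ) : ℂ) * Complex.exp (((-θ : ℝ) : ℂ) * I) ≠ 0 := by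
      apply mul_ne_zero _ (Complex.exp_ne_zero _)
      exact_mod_cast inv_ne_zero hR0.ne'
    have hmem : ((R⁻¹ : ℝ) : ℂ) * Complex.exp (((-θ : ℝ) : ℂ) * I) ∈ ball (0:ℂ) 1 := by
      rw [mem_ball_zero_iff, norm_mul, Complex.norm_exp_ofReal_mul_I, mul_one, Complex.norm_real,
        Real.norm_of_nonneg hr0.le]
      exact hr1
    have h2 : (((R⁻¹ : ℝ) : ℂ) * Complex.exp (((-θ : ℝ) : ℂ) * I))⁻¹ =
        (R : ℂ) * Complex.exp ((θ : ℂ) * I) := by
      rw [mul_inv, ← Complex.exp_neg]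
      push_cast
      rw [inv_inv]
      congr 2
      ring
    have h3 := hex _ hmem
    simp only [toDisc] at h3
    rw [if_neg hne0, h2, hexp] at h3
    · simp only [hk, N]
      rw [h3]
    · rw [norm_mul, Complex.norm_exp_ofReal_mul_I, mul_one, Complex.norm_real,
        Real.norm_of_nonneg hR0.le]
      exact hR
  simp_rw [h1]
  rw [intervalIntegral.integral_comp_neg (fun θ => k θ)]
  have hper : Function.Periodic k (2 * π) := by
    intro θ
    simp only [hk]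
    have : Complex.exp (((θ + 2 * π : ℝ) : ℂ) * I) = Complex.exp ((θ : ℂ) * I) := by
      push_cast
      rw [add_mul, Complex.exp_add, Complex.exp_two_pi_mul_I, mul_one]
    rw [this]
  have h2 := hper.intervalIntegral_add_eq (-(2 * π)) 0
  have e1 : -(2 * π) + 2 * π = (0:ℝ) := by ring
  have e2 : (0:ℝ) + 2 * π = 2 * π := by ring
  rw [e1, e2] at h2
  rw [neg_zero, h2]
  have hRR : 0 < R ^ 2 - 1 := by nlinarith
  have hx : (1 - R⁻¹ ^ 2) ^ (-(p - 1)) = (R ^ 2 / (R ^ 2 - 1)) ^ (p - 1) := by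
    have h3 : 1 - R⁻¹ ^ 2 = (R ^ 2 / (R ^ 2 - 1))⁻¹ := by
      rw [inv_pow]
      field_simp
    rw [h3, Real.inv_rpow (by positivity), Real.rpow_neg (by positivity), inv_inv]
  rw [hx] at hmain
  rw [hk]
  exact hmain

end Pool.Agent.Helper32.EK

end

section

set_option autoImplicit false

open Complex MeasureTheory Metric Set Filter
open scoped Real ComplexConjugate Topology

/-!
From the class Σ to univalent functions in the disc: circle means of negative powers of `|f'|`.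
-/

namespace Pool.Agent.Helper58.CK

open Pool.Agent.Helper39.Area
open Pool.Agent.Helper24.Br (deriv_ne_of_inj)

/-- the bound for the class Σ, power `q`, exponent `s` -/
def SigB (q s : ℝ) : Prop :=
  ∃ C : ℝ, ∀ ψ : ℂ → ℂ, DifferentiableOn ℂ ψ {z : ℂ | 1 < ‖z‖} →
    InjOn ψ {z : ℂ | 1 < ‖z‖} →
    (∃ b : ℂ, Filter.Tendsto (fun z => ψ z - z) (Bornology.cobounded ℂ) (nhds b)) →
    ∀ R : ℝ, 1 < R →
    (2 * π)⁻¹ * (∫ θ in (0:ℝ)..(2 * π), ‖deriv ψ (R * Complex.exp (θ * I))‖ ^ (-q)) ≤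
      C * (R ^ 2 / (R ^ 2 - 1)) ^ s

theorem inv_mem {z : ℂ} (hz : 1 < ‖z‖) : z⁻¹ ∈ ball (0:ℂ) 1 ∧ z⁻¹ ≠ 0 := by
  refine ⟨?_, inv_ne_zero ?_⟩
  · rw [mem_ball_zero_iff, norm_inv]
    exact inv_lt_one_of_one_lt₀ hz
  · rintro rfl
    rw [norm_zero] at hz
    linarith

/-- a univalent function of the disc as a function of the class Σ -/
theorem sigma_of {f : ℂ → ℂ} (hf : DifferentiableOn ℂ f (ball 0 1)) (hinj : InjOn f (ball 0 1)) :
    ∃ ψ : ℂ → ℂ, DifferentiableOn ℂ ψ {z : ℂ | 1 < ‖z‖} ∧ InjOn ψ {z : ℂ | 1 < ‖z‖} ∧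
      (∃ b : ℂ, Filter.Tendsto (fun z => ψ z - z) (Bornology.cobounded ℂ) (nhds b)) ∧
      ∃ c : ℝ, 0 < c ∧ ∀ z : ℂ, 1 / 2 ≤ ‖z‖ → ‖z‖ < 1 → c * ‖deriv ψ z⁻¹‖ ≤ ‖deriv f z‖ := by
  have h0 : (0:ℂ) ∈ ball (0:ℂ) 1 := mem_ball_self one_pos
  obtain ⟨a, ha⟩ : ∃ a : ℂ, a = deriv f 0 := ⟨_, rfl⟩
  have ha0 : a ≠ 0 := by rw [ha]; exact deriv_ne_of_inj isOpen_ball hf hinj h0
  have hne : ∀ w ∈ ball (0:ℂ) 1, w ≠ 0 → f w - f 0 ≠ 0 := by
    intro w hw hw0 h
    exact hw0 (hinj hw h0 (sub_eq_zero.1 h))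
  obtain ⟨ψ, hψ⟩ : ∃ ψ : ℂ → ℂ, ψ = fun z => a / (f z⁻¹ - f 0) := ⟨_, rfl⟩
  have hder : ∀ z : ℂ, 1 < ‖z‖ → HasDerivAt ψ (a * deriv f z⁻¹ * (z⁻¹) ^ 2 /
      (f z⁻¹ - f 0) ^ 2) z := by
    intro z hz
    obtain ⟨h1, h2⟩ := inv_mem hz
    have hz0 : z ≠ 0 := by rintro rfl; simp at h2
    have hd : HasDerivAt f (deriv f z⁻¹) z⁻¹ :=
      (hf.differentiableAt (isOpen_ball.mem_nhds h1)).hasDerivAt
    have h3 : HasDerivAt (fun z : ℂ => z⁻¹) (-(z ^ 2)⁻¹) z := hasDerivAt_inv hz0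
    have h4 := (hd.comp z h3).sub_const (f 0)
    have h5 := (hasDerivAt_const z a).div h4 (hne _ h1 h2)
    rw [hψ]
    refine h5.congr_deriv ?_
    simp only [Function.comp]
    have := hne _ h1 h2
    field_simp
    ring
  refine ⟨ψ, fun z hz => (hder z hz).differentiableAt.differentiableWithinAt, ?_, ?_, ?_⟩
  · intro z hz w hw h
    obtain ⟨h1, h2⟩ := inv_mem hz
    obtain ⟨h3, h4⟩ := inv_mem hw
    simp only [hψ] at h
    rw [div_eq_div_iff (hne _ h1 h2) (hne _ h3 h4)] at h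
    have h5 := mul_left_cancel₀ ha0 h
    have h6 : f w⁻¹ = f z⁻¹ := by linear_combination h5
    exact (inv_injective (hinj h3 h1 h6)).symm
  · obtain ⟨F, hF⟩ : ∃ F : ℂ → ℂ, F = dslope f 0 := ⟨_, rfl⟩
    have hFd : DifferentiableOn ℂ F (ball 0 1) := by
      rw [hF]; exact (Complex.differentiableOn_dslope (isOpen_ball.mem_nhds h0)).2 hf
    have hF0 : F 0 = a := by rw [hF, dslope_same, ha]
    have hFe : ∀ w : ℂ, f w - f 0 = w * F w := by
      intro w
      have := sub_smul_dslope f 0 w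
      rw [sub_zero, smul_eq_mul] at this
      rw [hF]; exact this.symm
    obtain ⟨G, hG⟩ : ∃ G : ℂ → ℂ, G = dslope F 0 := ⟨_, rfl⟩
    have hGd : DifferentiableOn ℂ G (ball 0 1) := by
      rw [hG]; exact (Complex.differentiableOn_dslope (isOpen_ball.mem_nhds h0)).2 hFd
    have hGe : ∀ w : ℂ, F w - a = w * G w := by
      intro w
      have := sub_smul_dslope F 0 w
      rw [sub_zero, smul_eq_mul, hF0] at this
      rw [hG]; exact this.symm
    have hF1 : Tendsto F (𝓝 0) (𝓝 a) := by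
      rw [← hF0]; exact (hFd.differentiableAt (isOpen_ball.mem_nhds h0)).continuousAt
    have hG1 : Tendsto G (𝓝 0) (𝓝 (G 0)) :=
      (hGd.differentiableAt (isOpen_ball.mem_nhds h0)).continuousAt
    have hlim : Tendsto (fun w : ℂ => -(G w) / F w) (𝓝 0) (𝓝 (-(G 0) / a)) :=
      hG1.neg.div hF1 ha0
    have hinv : Tendsto (fun z : ℂ => z⁻¹) (Bornology.cobounded ℂ) (𝓝 0) :=
      tendsto_inv₀_cobounded
    refine ⟨-(G 0) / a, (hlim.comp hinv).congr' ?_⟩
    have hev : ∀ᶠ z : ℂ in Bornology.cobounded ℂ, 1 < ‖z‖ :=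
      tendsto_norm_cobounded_atTop.eventually (eventually_gt_atTop 1)
    filter_upwards [hev] with z hz
    obtain ⟨h1, h2⟩ := inv_mem hz
    have hz0 : z ≠ 0 := by rintro rfl; simp at h2
    have h3 : F z⁻¹ ≠ 0 := by
      intro h
      have h4 := hFe z⁻¹
      rw [h, mul_zero] at h4
      exact hne _ h1 h2 h4
    simp only [Function.comp, hψ]
    rw [hFe z⁻¹]
    have h5 := hGe z⁻¹
    have h6 : G z⁻¹ = z * (F z⁻¹ - a) := by
      rw [h5, ← mul_assoc, mul_inv_cancel₀ hz0, one_mul]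
    rw [h6]
    generalize F z⁻¹ = p at h3 ⊢
    field_simp
    ring
  · -- lower bound
    obtain ⟨ε, hε, hball⟩ := Metric.mem_nhds_iff.1
      (Pool.Agent.Helper15.CK.nhds_image (U := ball (0:ℂ) (1 / 2)) isOpen_ball
        (hf.mono (ball_subset_ball (by norm_num))) (hinj.mono (ball_subset_ball (by norm_num)))
        (mem_ball_self (by norm_num)))
    refine ⟨ε ^ 2 / ‖a‖, by have := norm_pos_iff.2 ha0; positivity, ?_⟩
    intro z hz1 hz2
    have hzb : z ∈ ball (0:ℂ) 1 := by rwa [mem_ball_zero_iff]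
    have hz0 : z ≠ 0 := by
      rintro rfl
      rw [norm_zero] at hz1
      linarith
    have hfar : ε ≤ ‖f z - f 0‖ := by
      by_contra h
      push Not at h
      have h1 : f z ∈ ball (f 0) ε := by rwa [mem_ball, dist_eq_norm]
      obtain ⟨w, hw, hwz⟩ := hball h1
      have h2 : w = z := hinj (ball_subset_ball (by norm_num) hw) hzb hwz
      rw [h2, mem_ball_zero_iff] at hw
      linarith
    have hzi : 1 < ‖z⁻¹‖ := by
      rw [norm_inv]
      exact (one_lt_inv₀ (norm_pos_iff.2 hz0)).2 hz2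
    rw [(hder _ hzi).deriv, inv_inv, norm_div, norm_mul, norm_mul, norm_pow, norm_pow]
    have hapos := norm_pos_iff.2 ha0
    have hfpos : 0 < ‖f z - f 0‖ := lt_of_lt_of_le hε hfar
    have e1 : ε ^ 2 / ‖a‖ * (‖a‖ * ‖deriv f z‖ * ‖z‖ ^ 2 / ‖f z - f 0‖ ^ 2) =
        ‖deriv f z‖ * (ε ^ 2 * ‖z‖ ^ 2 / ‖f z - f 0‖ ^ 2) := by
      field_simp
    rw [e1]
    refine mul_le_of_le_one_right (norm_nonneg _) ?_
    rw [div_le_one (by positivity)]
    have h3 : ε ^ 2 ≤ ‖f z - f 0‖ ^ 2 := by gcongr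
    have h4 : ‖z‖ ^ 2 ≤ 1 := by nlinarith [norm_nonneg z]
    calc ε ^ 2 * ‖z‖ ^ 2 ≤ ‖f z - f 0‖ ^ 2 * 1 := by gcongr
      _ = ‖f z - f 0‖ ^ 2 := mul_one _

theorem isOpen_ext' : IsOpen {z : ℂ | 1 < ‖z‖} := isOpen_lt continuous_const continuous_norm

theorem pow_cont {f : ℂ → ℂ} (hf : DifferentiableOn ℂ f (ball 0 1)) (hinj : InjOn f (ball 0 1))
    (q : ℝ) : ContinuousOn (fun z => ‖deriv f z‖ ^ (-q)) (ball 0 1) := by
  refine ((hf.deriv isOpen_ball).continuousOn.norm).rpow_const fun z hz => Or.inl ?_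
  exact norm_ne_zero_iff.2 (deriv_ne_of_inj isOpen_ball hf hinj hz)

/-- circle means for one univalent function of the disc -/
theorem mean_disc {q s : ℝ} (hq : 0 ≤ q) (hs : 0 ≤ s) (H : SigB q s) {f : ℂ → ℂ}
    (hf : DifferentiableOn ℂ f (ball 0 1)) (hinj : InjOn f (ball 0 1)) :
    ∃ C : ℝ, 0 ≤ C ∧ ∀ r : ℝ, 0 < r → r < 1 →
      (∫ θ in (0:ℝ)..(2 * π), ‖deriv f (r * Complex.exp (θ * I))‖ ^ (-q)) ≤
        C * (1 - r ^ 2) ^ (-s) := by
  obtain ⟨C, hC⟩ := H
  obtain ⟨ψ, hψ, hψi, hψb, c, hc, hcf⟩ := sigma_of hf hinj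
  have h2π : (0:ℝ) < 2 * π := by positivity
  -- bound inside
  obtain ⟨M, hM⟩ := (isCompact_closedBall (0:ℂ) (1 / 2)).exists_bound_of_continuousOn
    ((pow_cont hf hinj q).mono (closedBall_subset_ball (by norm_num)))
  have hmem : ∀ (r θ : ℝ), 0 < r → ‖(r : ℂ) * Complex.exp (θ * I)‖ = r := by
    intro r θ hr
    rw [norm_mul, Complex.norm_exp_ofReal_mul_I, mul_one, Complex.norm_real,
      Real.norm_eq_abs, abs_of_pos hr]
  have hcirc : ∀ r : ℝ, 0 < r → r < 1 →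
      Continuous (fun θ : ℝ => ‖deriv f (r * Complex.exp (θ * I))‖ ^ (-q)) := by
    intro r h0 h1
    refine (pow_cont hf hinj q).comp_continuous
      (f := fun θ : ℝ => (r : ℂ) * Complex.exp (θ * I)) (by fun_prop) fun θ => ?_
    rw [mem_ball_zero_iff, hmem r θ h0]
    exact h1
  refine ⟨2 * π * |M| + c ^ (-q) * (2 * π * |C|), by positivity, ?_⟩
  intro r hr0 hr1
  have h1r : 0 < 1 - r ^ 2 := by nlinarith
  have hpow1 : 1 ≤ (1 - r ^ 2) ^ (-s) :=
    Real.one_le_rpow_of_pos_of_le_one_of_nonpos h1r (by nlinarith) (by linarith)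
  rcases le_or_gt r (1 / 2) with hr | hr
  · have h1 : (∫ θ in (0:ℝ)..(2 * π), ‖deriv f (r * Complex.exp (θ * I))‖ ^ (-q)) ≤
        ∫ _θ in (0:ℝ)..(2 * π), |M| := by
      apply intervalIntegral.integral_mono_on h2π.le ((hcirc r hr0 hr1).intervalIntegrable _ _)
        intervalIntegrable_const
      intro θ _
      have h2 := hM ((r : ℂ) * Complex.exp (θ * I)) (by
        rw [mem_closedBall_zero_iff, hmem r θ hr0]; exact hr)
      rw [Real.norm_eq_abs] at h2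
      exact (le_abs_self _).trans (h2.trans (le_abs_self _))
    rw [intervalIntegral.integral_const, smul_eq_mul, sub_zero] at h1
    calc _ ≤ 2 * π * |M| := h1
      _ ≤ 2 * π * |M| * (1 - r ^ 2) ^ (-s) := le_mul_of_one_le_right (by positivity) hpow1
      _ ≤ _ := by
        apply mul_le_mul_of_nonneg_right _ (by positivity)
        have : 0 ≤ c ^ (-q) * (2 * π * |C|) := by positivity
        linarith
  · have hR : 1 < r⁻¹ := (one_lt_inv₀ hr0).2 hr1
    have hmain := hC ψ hψ hψi hψb r⁻¹ hR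
    obtain ⟨k, hk⟩ : ∃ k : ℝ → ℝ, k = fun θ : ℝ =>
      ‖deriv ψ (((r⁻¹ : ℝ) : ℂ) * Complex.exp (θ * I))‖ ^ (-q) := ⟨_, rfl⟩
    have hψd : DifferentiableOn ℂ (deriv ψ) {z : ℂ | 1 < ‖z‖} := hψ.deriv isOpen_ext'
    have hmemR : ∀ θ : ℝ, ((r⁻¹ : ℝ) : ℂ) * Complex.exp (θ * I) ∈ {z : ℂ | 1 < ‖z‖} := by
      intro θ
      rw [mem_ofPred_eq, hmem _ _ (by positivity)]
      exact hR
    have hkc : Continuous k := by
      rw [hk]
      have h1 : Continuous (fun θ : ℝ => deriv ψ (((r⁻¹ : ℝ) : ℂ) * Complex.exp (θ * I))) :=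
        hψd.continuousOn.comp_continuous (by fun_prop) hmemR
      exact h1.norm.rpow_const fun θ => Or.inl (norm_ne_zero_iff.2
        (deriv_ne_of_inj isOpen_ext' hψ hψi (hmemR θ)))
    have hle : ∀ θ : ℝ, ‖deriv f (r * Complex.exp (θ * I))‖ ^ (-q) ≤ c ^ (-q) * k (-θ) := by
      intro θ
      have h1 := hcf ((r : ℂ) * Complex.exp (θ * I)) (by rw [hmem r θ hr0]; exact hr.le)
        (by rw [hmem r θ hr0]; exact hr1)
      have e1 : ((r : ℂ) * Complex.exp (θ * I))⁻¹ =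
          ((r⁻¹ : ℝ) : ℂ) * Complex.exp (((-θ : ℝ) : ℂ) * I) := by
        rw [mul_inv, ← Complex.exp_neg]
        push_cast
        congr 2
        ring
      rw [e1] at h1
      have hpos : 0 < ‖deriv ψ (((r⁻¹ : ℝ) : ℂ) * Complex.exp (((-θ : ℝ) : ℂ) * I))‖ :=
        norm_pos_iff.2 (deriv_ne_of_inj isOpen_ext' hψ hψi (hmemR (-θ)))
      calc _ ≤ (c * ‖deriv ψ (((r⁻¹ : ℝ) : ℂ) * Complex.exp (((-θ : ℝ) : ℂ) * I))‖) ^ (-q) :=
            Real.rpow_le_rpow_of_nonpos (by positivity) h1 (by linarith)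
        _ = c ^ (-q) * k (-θ) := by
            rw [Real.mul_rpow hc.le (norm_nonneg _), hk]
    have hper : Function.Periodic k (2 * π) := by
      intro θ
      simp only [hk]
      have : Complex.exp (((θ + 2 * π : ℝ) : ℂ) * I) = Complex.exp ((θ : ℂ) * I) := by
        push_cast
        rw [add_mul, Complex.exp_add, Complex.exp_two_pi_mul_I, mul_one]
      rw [this]
    have hint : (∫ θ in (0:ℝ)..(2 * π), k (-θ)) = ∫ θ in (0:ℝ)..(2 * π), k θ := by
      rw [intervalIntegral.integral_comp_neg (fun θ => k θ)]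
      have h2 := hper.intervalIntegral_add_eq (-(2 * π)) 0
      have e1 : -(2 * π) + 2 * π = (0:ℝ) := by ring
      have e2 : (0:ℝ) + 2 * π = 2 * π := by ring
      rw [e1, e2] at h2
      rw [neg_zero, h2]
    have e3 : (r⁻¹ ^ 2 / (r⁻¹ ^ 2 - 1)) ^ s = (1 - r ^ 2) ^ (-s) := by
      have h3 : r⁻¹ ^ 2 / (r⁻¹ ^ 2 - 1) = (1 - r ^ 2)⁻¹ := by
        rw [inv_pow]
        have : (r ^ 2)⁻¹ - 1 = (1 - r ^ 2) / r ^ 2 := by field_simp
        rw [this]
        field_simp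
      rw [h3, Real.inv_rpow h1r.le, Real.rpow_neg h1r.le]
    rw [e3, inv_mul_le_iff₀ h2π] at hmain
    have hmain' : (∫ θ in (0:ℝ)..(2 * π), k θ) ≤ 2 * π * (|C| * (1 - r ^ 2) ^ (-s)) := by
      rw [hk]
      refine hmain.trans ?_
      apply mul_le_mul_of_nonneg_left _ h2π.le
      exact mul_le_mul_of_nonneg_right (le_abs_self _) (by positivity)
    calc (∫ θ in (0:ℝ)..(2 * π), ‖deriv f (r * Complex.exp (θ * I))‖ ^ (-q))
        ≤ ∫ θ in (0:ℝ)..(2 * π), c ^ (-q) * k (-θ) :=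
          intervalIntegral.integral_mono_on h2π.le ((hcirc r hr0 hr1).intervalIntegrable _ _)
            ((continuous_const.mul (hkc.comp continuous_neg)).intervalIntegrable _ _)
            fun θ _ => hle θ
      _ = c ^ (-q) * ∫ θ in (0:ℝ)..(2 * π), k θ := by
          rw [intervalIntegral.integral_const_mul, hint]
      _ ≤ c ^ (-q) * (2 * π * (|C| * (1 - r ^ 2) ^ (-s))) :=
          mul_le_mul_of_nonneg_left hmain' (by positivity)
      _ = c ^ (-q) * (2 * π * |C|) * (1 - r ^ 2) ^ (-s) := by ring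
      _ ≤ _ := by
          apply mul_le_mul_of_nonneg_right _ (by positivity)
          have : 0 ≤ 2 * π * |M| := by positivity
          linarith

end Pool.Agent.Helper58.CK

end

section

set_option autoImplicit false

open Complex MeasureTheory Metric Set Filter
open scoped Real ComplexConjugate Topology ENNReal

/-!
Area integrals of negative powers of `|f'|` (Brennan's range), from the bound for the class Σ.
-/

namespace Pool.Agent.Helper58.CK

open Pool.Agent.Helper24.Br (deriv_ne_of_inj)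

theorem rpow_int {s : ℝ} (hs1 : s < 1) : IntegrableOn (fun r : ℝ => (1 - r) ^ (-s)) (Ioo 0 1) := by
  have h1 : IntervalIntegrable (fun x : ℝ => x ^ (-s)) volume 0 1 :=
    intervalIntegral.intervalIntegrable_rpow' (by linarith)
  have h2 := (h1.comp_sub_left 1).symm
  simp only [sub_zero, sub_self] at h2
  rw [intervalIntegrable_iff_integrableOn_Ioo_of_le zero_le_one] at h2
  exact h2

theorem exp_form (r θ : ℝ) : (Complex.polarCoord.symm (r, θ) : ℂ) = r * Complex.exp (θ * I) := by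
  rw [Complex.polarCoord_symm_apply, Complex.exp_mul_I]
  push_cast
  rfl

theorem area_disc {q s : ℝ} (hq : 0 ≤ q) (hs : 0 ≤ s) (hs1 : s < 1) (H : SigB q s) {f : ℂ → ℂ}
    (hf : DifferentiableOn ℂ f (ball 0 1)) (hinj : InjOn f (ball 0 1)) :
    IntegrableOn (fun z => ‖deriv f z‖ ^ (-q)) (ball 0 1) := by
  obtain ⟨C, hC0, hC⟩ := mean_disc hq hs H hf hinj
  obtain ⟨g, hg⟩ : ∃ g : ℂ → ℝ, g = fun z => ‖deriv f z‖ ^ (-q) := ⟨_, rfl⟩
  rw [← hg]
  have hgm : Measurable g := by rw [hg]; exact (measurable_deriv f).norm.pow_const _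
  have hg0 : ∀ z, 0 ≤ g z := fun z => by rw [hg]; positivity
  have hgc : ContinuousOn g (ball 0 1) := by rw [hg]; exact pow_cont hf hinj q
  refine ⟨hgm.aestronglyMeasurable, ?_⟩
  rw [hasFiniteIntegral_iff_enorm]
  have hb : MeasurableSet (ball (0:ℂ) 1) := measurableSet_ball
  rw [← lintegral_indicator hb, ← Complex.lintegral_comp_polarCoord_symm, polarCoord_target,
    Measure.volume_eq_prod, ← Measure.prod_restrict]
  have hpol : Measurable (fun p : ℝ × ℝ => (Complex.polarCoord.symm p : ℂ)) := by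
    have : (fun p : ℝ × ℝ => (Complex.polarCoord.symm p : ℂ)) = fun p : ℝ × ℝ =>
        (p.1 : ℂ) * (Real.cos p.2 + Real.sin p.2 * Complex.I) := by
      funext p
      exact Complex.polarCoord_symm_apply p
    rw [this]
    have hc : Continuous (fun p : ℝ × ℝ =>
        (p.1 : ℂ) * ((Real.cos p.2 : ℂ) + (Real.sin p.2 : ℂ) * Complex.I)) := by fun_prop
    exact hc.measurable
  have hind : Measurable ((ball (0:ℂ) 1).indicator fun z => ‖g z‖ₑ) :=
    hgm.enorm.indicator hb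
  have hm : Measurable (fun p : ℝ × ℝ => ENNReal.ofReal p.1 •
      (ball (0:ℂ) 1).indicator (fun z => ‖g z‖ₑ) (Complex.polarCoord.symm p)) :=
    (measurable_fst.ennreal_ofReal).smul (hind.comp hpol)
  rw [lintegral_prod _ hm.aemeasurable]
  have hmem : ∀ (r θ : ℝ), 0 < r → ‖(r : ℂ) * Complex.exp (θ * I)‖ = r := by
    intro r θ hr
    rw [norm_mul, Complex.norm_exp_ofReal_mul_I, mul_one, Complex.norm_real,
      Real.norm_eq_abs, abs_of_pos hr]
  have hinner : ∀ r ∈ Ioi (0:ℝ), (∫⁻ θ in Ioo (-π) π, ENNReal.ofReal (r, θ).1 •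
      (ball (0:ℂ) 1).indicator (fun z => ‖g z‖ₑ) (Complex.polarCoord.symm (r, θ))) ≤
      (Ioo (0:ℝ) 1).indicator (fun r => ENNReal.ofReal (C * (1 - r) ^ (-s))) r := by
    intro r hr
    rw [mem_Ioi] at hr
    rcases le_or_gt 1 r with h1 | h1
    · have : ∀ θ : ℝ, ENNReal.ofReal (r, θ).1 • (ball (0:ℂ) 1).indicator (fun z => ‖g z‖ₑ)
          (Complex.polarCoord.symm (r, θ)) = 0 := by
        intro θ
        rw [exp_form, indicator_of_notMem, smul_zero]
        rw [mem_ball_zero_iff, hmem r θ hr]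
        exact not_lt.2 h1
      simp only [this, lintegral_zero]
      positivity
    · rw [indicator_of_mem (show r ∈ Ioo (0:ℝ) 1 from ⟨hr, h1⟩)]
      have hcirc : Continuous (fun θ : ℝ => g (r * Complex.exp (θ * I))) := by
        refine hgc.comp_continuous (f := fun θ : ℝ => (r : ℂ) * Complex.exp (θ * I))
          (by fun_prop) fun θ => ?_
        rw [mem_ball_zero_iff, hmem r θ hr]
        exact h1
      have e1 : ∀ θ : ℝ, ENNReal.ofReal (r, θ).1 • (ball (0:ℂ) 1).indicator (fun z => ‖g z‖ₑ)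
          (Complex.polarCoord.symm (r, θ)) =
          ENNReal.ofReal (r * g (r * Complex.exp (θ * I))) := by
        intro θ
        rw [exp_form, indicator_of_mem, smul_eq_mul, Real.enorm_eq_ofReal (hg0 _),
          ← ENNReal.ofReal_mul hr.le]
        rw [mem_ball_zero_iff, hmem r θ hr]
        exact h1
      simp only [e1]
      have hint : IntegrableOn (fun θ : ℝ => r * g (r * Complex.exp (θ * I))) (Ioo (-π) π) :=
        (((continuous_const.mul hcirc).continuousOn (s := Icc (-π) π)).integrableOn_compact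
          isCompact_Icc).mono_set Ioo_subset_Icc_self
      rw [← ofReal_integral_eq_lintegral_ofReal hint
        (Eventually.of_forall fun θ => mul_nonneg hr.le (hg0 _))]
      apply ENNReal.ofReal_le_ofReal
      have hπ := Real.pi_pos
      rw [← integral_Ioc_eq_integral_Ioo, ← intervalIntegral.integral_of_le (by linarith),
        intervalIntegral.integral_const_mul]
      have hper : Function.Periodic (fun θ : ℝ => g (r * Complex.exp (θ * I))) (2 * π) := by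
        intro θ
        simp only
        have : Complex.exp (((θ + 2 * π : ℝ) : ℂ) * I) = Complex.exp ((θ : ℂ) * I) := by
          push_cast
          rw [add_mul, Complex.exp_add, Complex.exp_two_pi_mul_I, mul_one]
        rw [this]
      have h2 := hper.intervalIntegral_add_eq (-π) 0
      have e2 : -π + 2 * π = π := by ring
      have e3 : (0:ℝ) + 2 * π = 2 * π := by ring
      rw [e2, e3] at h2
      rw [h2]
      have h3 := hC r hr h1
      have e4 : (∫ θ in (0:ℝ)..(2 * π), g (r * Complex.exp (θ * I))) =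
          ∫ θ in (0:ℝ)..(2 * π), ‖deriv f (r * Complex.exp (θ * I))‖ ^ (-q) := by rw [hg]
      rw [← e4] at h3
      have h4 : 0 ≤ ∫ θ in (0:ℝ)..(2 * π), g (r * Complex.exp (θ * I)) :=
        intervalIntegral.integral_nonneg (by positivity) fun θ _ => hg0 _
      have h5 : (1 - r ^ 2) ^ (-s) ≤ (1 - r) ^ (-s) :=
        Real.rpow_le_rpow_of_nonpos (by linarith) (by nlinarith) (by linarith)
      calc r * (∫ θ in (0:ℝ)..(2 * π), g (r * Complex.exp (θ * I)))
          ≤ 1 * (∫ θ in (0:ℝ)..(2 * π), g (r * Complex.exp (θ * I))) :=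
            mul_le_mul_of_nonneg_right h1.le h4
        _ ≤ C * (1 - r ^ 2) ^ (-s) := by rw [one_mul]; exact h3
        _ ≤ C * (1 - r) ^ (-s) := mul_le_mul_of_nonneg_left h5 hC0
  refine lt_of_le_of_lt (setLIntegral_mono' measurableSet_Ioi hinner) ?_
  rw [lintegral_indicator measurableSet_Ioo, Measure.restrict_restrict measurableSet_Ioo,
    inter_eq_self_of_subset_left Ioo_subset_Ioi_self]
  exact ((rpow_int hs1).const_mul C).lintegral_lt_top

theorem pow_le_add {x q k : ℝ} (hx : 0 < x) (hq : 0 ≤ q) (hqk : q ≤ k) :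
    x ^ (-q) ≤ 1 + x ^ (-k) := by
  rcases le_or_gt 1 x with h | h
  · have h1 : x ^ (-q) ≤ 1 := Real.rpow_le_one_of_one_le_of_nonpos h (by linarith)
    have h2 : 0 ≤ x ^ (-k) := by positivity
    linarith
  · have h1 : x ^ (-q) ≤ x ^ (-k) :=
      Real.rpow_le_rpow_of_exponent_ge hx h.le (by linarith)
    linarith

/-- Brennan's range for univalent functions of the disc -/
theorem brennan_disc {k s : ℝ} (hs : 0 ≤ s) (hs1 : s < 1) (H : SigB k s) {f : ℂ → ℂ}
    (hf : DifferentiableOn ℂ f (ball 0 1)) (hinj : InjOn f (ball 0 1)) {q : ℝ} (hq : 0 ≤ q)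
    (hqk : q ≤ k) : IntegrableOn (fun z => ‖deriv f z‖ ^ (-q)) (ball 0 1) := by
  have h1 := area_disc (hq.trans hqk) hs hs1 H hf hinj
  have h2 : IntegrableOn (fun z => 1 + ‖deriv f z‖ ^ (-k)) (ball 0 1) :=
    (integrableOn_const (by
      exact (measure_ball_lt_top (μ := (volume : Measure ℂ)) (x := (0:ℂ)) (r := 1)).ne)).add h1
  refine Integrable.mono' h2 ?_ ?_
  · exact ((measurable_deriv f).norm.pow_const _).aestronglyMeasurable
  · rw [ae_restrict_iff' measurableSet_ball]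
    refine Eventually.of_forall fun z hz => ?_
    rw [Real.norm_of_nonneg (by positivity)]
    exact pow_le_add (norm_pos_iff.2 (deriv_ne_of_inj isOpen_ball hf hinj hz)) hq hqk

/-- Brennan's range for conformal maps onto the disc -/
theorem brennan_domain {k s : ℝ} (hs : 0 ≤ s) (hs1 : s < 1) (H : SigB k s) {Ω : Set ℂ}
    (hΩ : IsOpen Ω) {φ : ℂ → ℂ} (hφ : DifferentiableOn ℂ φ Ω) (hinj : InjOn φ Ω)
    (him : φ '' Ω = ball 0 1) {p : ℝ} (hp : 2 ≤ p) (hpk : p ≤ 2 + k) :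
    IntegrableOn (fun z => ‖deriv φ z‖ ^ p) Ω := by
  obtain ⟨g, hg, hgl, hgr, hgd⟩ := Pool.Agent.Helper15.CK.exists_inverse hΩ hφ hinj
  rw [him] at hg hgr
  have hgi : InjOn g (ball 0 1) := by
    intro w hw w' hw' h
    rw [← (hgr w hw).2, ← (hgr w' hw').2, h]
  have h1 := brennan_disc hs hs1 H hg hgi (q := p - 2) (by linarith) (by linarith)
  rw [← him] at h1
  have h2 := (integrableOn_image_iff_integrableOn_abs_det_fderiv_smul volume hΩ.measurableSet
    (f' := fun z => deriv φ z • (1 : ℂ →L[ℝ] ℂ))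
    (fun z hz => ((hφ.differentiableAt (hΩ.mem_nhds hz)).hasDerivAt.complexToReal_fderiv
      ).hasFDerivWithinAt) hinj _).1 h1
  refine h2.congr_fun (fun z hz => ?_) hΩ.measurableSet
  show |(deriv φ z • (1 : ℂ →L[ℝ] ℂ)).det| • ‖deriv g (φ z)‖ ^ (-(p - 2)) = ‖deriv φ z‖ ^ p
  have hpos : 0 < ‖deriv φ z‖ := norm_pos_iff.2 (deriv_ne_of_inj hΩ hφ hinj hz)
  rw [Pool.Agent.Helper84.EK.det_mul, abs_of_nonneg (by positivity), smul_eq_mul,
    (hgd z hz).deriv, norm_inv, Real.inv_rpow hpos.le, Real.rpow_neg hpos.le, inv_inv,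
    ← Real.rpow_two, ← Real.rpow_add hpos]
  congr 1
  ring

end Pool.Agent.Helper58.CK

end

section

set_option autoImplicit false

open Complex MeasureTheory Metric Set Filter
open scoped Real ComplexConjugate Topology

/-!
Convexity of the integral means spectrum of the class Σ (Hölder) and the range of Brennan's
integral given by a bound with an excess.
-/

namespace Pool.Agent.Helper58.CK

open Pool.Agent.Helper39.Area
open Pool.Agent.Helper24.Br (deriv_ne_of_inj)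

theorem circ_ext {R : ℝ} (hR : 1 < R) (θ : ℝ) :
    (R : ℂ) * Complex.exp (θ * I) ∈ {z : ℂ | 1 < ‖z‖} := by
  rw [mem_ofPred_eq, norm_mul, Complex.norm_exp_ofReal_mul_I, mul_one, Complex.norm_real,
    Real.norm_eq_abs, abs_of_pos (by linarith)]
  exact hR

theorem circ_pow_cont {ψ : ℂ → ℂ} (hψ : DifferentiableOn ℂ ψ {z : ℂ | 1 < ‖z‖})
    (hinj : InjOn ψ {z : ℂ | 1 < ‖z‖}) {R : ℝ} (hR : 1 < R) (q : ℝ) :
    Continuous (fun θ : ℝ => ‖deriv ψ (R * Complex.exp (θ * I))‖ ^ q) := by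
  have h1 : Continuous (fun θ : ℝ => deriv ψ (R * Complex.exp (θ * I))) :=
    (hψ.deriv isOpen_ext).continuousOn.comp_continuous (by fun_prop) (circ_ext hR)
  refine h1.norm.rpow_const fun θ => Or.inl ?_
  exact (norm_pos_iff.2 (deriv_ne_of_inj isOpen_ext hψ hinj (circ_ext hR θ))).ne'

/-- convexity of the spectrum, real exponents -/
theorem SigB.interp {q₀ q₁ s₀ s₁ θ : ℝ} (h₀ : SigB q₀ s₀) (h₁ : SigB q₁ s₁)
    (hθ0 : 0 ≤ θ) (hθ1 : θ ≤ 1) :
    SigB ((1 - θ) * q₀ + θ * q₁) ((1 - θ) * s₀ + θ * s₁) := by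
  obtain ⟨C₀, hC₀⟩ := h₀
  obtain ⟨C₁, hC₁⟩ := h₁
  refine ⟨(max C₀ 1) ^ (1 - θ) * (max C₁ 1) ^ θ, ?_⟩
  intro ψ a1 a2 a3 R hR
  have hπ : (0:ℝ) < 2 * π := by positivity
  have hR2 : 0 < R ^ 2 - 1 := by nlinarith
  have hX : 0 < R ^ 2 / (R ^ 2 - 1) := by positivity
  obtain ⟨X, hXe⟩ : ∃ X : ℝ, X = R ^ 2 / (R ^ 2 - 1) := ⟨_, rfl⟩
  rw [← hXe] at hX ⊢
  obtain ⟨A, hA⟩ : ∃ A : ℝ, A = max C₀ 1 * X ^ s₀ := ⟨_, rfl⟩
  obtain ⟨B, hB⟩ : ∃ B : ℝ, B = max C₁ 1 * X ^ s₁ := ⟨_, rfl⟩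
  have hA0 : 0 < A := by rw [hA]; positivity
  have hB0 : 0 < B := by rw [hB]; positivity
  have hf : ∀ q : ℝ, Continuous (fun φ : ℝ =>
      ‖deriv ψ (R * Complex.exp (φ * I))‖ ^ (-q)) := fun q => circ_pow_cont a1 a2 hR (-q)
  have hm0 : (2 * π)⁻¹ * (∫ φ in (0:ℝ)..(2 * π),
      ‖deriv ψ (R * Complex.exp (φ * I))‖ ^ (-q₀)) ≤ A := by
    have := hC₀ ψ a1 a2 a3 R hR
    rw [← hXe] at this
    rw [hA]
    exact this.trans (mul_le_mul_of_nonneg_right (le_max_left _ _) (by positivity))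
  have hm1 : (2 * π)⁻¹ * (∫ φ in (0:ℝ)..(2 * π),
      ‖deriv ψ (R * Complex.exp (φ * I))‖ ^ (-q₁)) ≤ B := by
    have := hC₁ ψ a1 a2 a3 R hR
    rw [← hXe] at this
    rw [hB]
    exact this.trans (mul_le_mul_of_nonneg_right (le_max_left _ _) (by positivity))
  have hpt : ∀ φ : ℝ, ‖deriv ψ (R * Complex.exp (φ * I))‖ ^ (-((1 - θ) * q₀ + θ * q₁)) ≤
      (A ^ (1 - θ) * B ^ θ) * ((1 - θ) * A⁻¹ *
      ‖deriv ψ (R * Complex.exp (φ * I))‖ ^ (-q₀) + θ * B⁻¹ *
      ‖deriv ψ (R * Complex.exp (φ * I))‖ ^ (-q₁)) := by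
    intro φ
    obtain ⟨w, hw⟩ : ∃ w : ℝ, w = ‖deriv ψ (R * Complex.exp (φ * I))‖ := ⟨_, rfl⟩
    have hw0 : 0 < w := by
      rw [hw]
      exact norm_pos_iff.2 (deriv_ne_of_inj isOpen_ext a1 a2 (circ_ext hR φ))
    rw [← hw]
    have e1 : w ^ (-((1 - θ) * q₀ + θ * q₁)) = (w ^ (-q₀)) ^ (1 - θ) * (w ^ (-q₁)) ^ θ := by
      rw [← Real.rpow_mul hw0.le, ← Real.rpow_mul hw0.le, ← Real.rpow_add hw0]
      congr 1
      ring
    rw [e1]
    have h2 := Real.geom_mean_le_arith_mean2_weighted (w₁ := 1 - θ) (w₂ := θ)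
      (p₁ := w ^ (-q₀) / A) (p₂ := w ^ (-q₁) / B)
      (by linarith) hθ0 (by positivity) (by positivity) (by ring)
    rw [Real.div_rpow (by positivity) hA0.le, Real.div_rpow (by positivity) hB0.le] at h2
    have hAp : 0 < A ^ (1 - θ) := by positivity
    have hBp : 0 < B ^ θ := by positivity
    calc (w ^ (-q₀)) ^ (1 - θ) * (w ^ (-q₁)) ^ θ
        = (A ^ (1 - θ) * B ^ θ) * ((w ^ (-q₀)) ^ (1 - θ) / A ^ (1 - θ) *
          ((w ^ (-q₁)) ^ θ / B ^ θ)) := by field_simp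
      _ ≤ (A ^ (1 - θ) * B ^ θ) * ((1 - θ) * (w ^ (-q₀) / A) +
          θ * (w ^ (-q₁) / B)) := mul_le_mul_of_nonneg_left h2 (by positivity)
      _ = _ := by ring
  have hi0 : IntervalIntegrable (fun φ : ℝ => (1 - θ) * A⁻¹ *
      ‖deriv ψ (R * Complex.exp (φ * I))‖ ^ (-q₀)) volume 0 (2 * π) :=
    (continuous_const.mul (hf q₀)).intervalIntegrable _ _
  have hi1 : IntervalIntegrable (fun φ : ℝ => θ * B⁻¹ *
      ‖deriv ψ (R * Complex.exp (φ * I))‖ ^ (-q₁)) volume 0 (2 * π) :=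
    (continuous_const.mul (hf q₁)).intervalIntegrable _ _
  have hi2 : IntervalIntegrable (fun φ : ℝ =>
      ‖deriv ψ (R * Complex.exp (φ * I))‖ ^ (-((1 - θ) * q₀ + θ * q₁))) volume 0 (2 * π) :=
    (hf _).intervalIntegrable _ _
  have hint := intervalIntegral.integral_mono_on hπ.le hi2
    ((hi0.add hi1).const_mul (A ^ (1 - θ) * B ^ θ)) (fun φ _ => hpt φ)
  rw [intervalIntegral.integral_const_mul, intervalIntegral.integral_add hi0 hi1,
    intervalIntegral.integral_const_mul, intervalIntegral.integral_const_mul] at hint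
  have e3 : (max C₀ 1) ^ (1 - θ) * (max C₁ 1) ^ θ * X ^ ((1 - θ) * s₀ + θ * s₁) =
      A ^ (1 - θ) * B ^ θ := by
    rw [hA, hB, Real.mul_rpow (by positivity) (by positivity),
      Real.mul_rpow (by positivity) (by positivity), ← Real.rpow_mul hX.le,
      ← Real.rpow_mul hX.le, Real.rpow_add hX, mul_comm s₀, mul_comm s₁]
    ring
  rw [e3]
  obtain ⟨I₀, hI₀⟩ : ∃ x : ℝ, x = ∫ φ in (0:ℝ)..(2 * π),
      ‖deriv ψ (R * Complex.exp (φ * I))‖ ^ (-q₀) := ⟨_, rfl⟩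
  obtain ⟨I₁, hI₁⟩ : ∃ x : ℝ, x = ∫ φ in (0:ℝ)..(2 * π),
      ‖deriv ψ (R * Complex.exp (φ * I))‖ ^ (-q₁) := ⟨_, rfl⟩
  rw [← hI₀, ← hI₁] at hint
  rw [← hI₀] at hm0
  rw [← hI₁] at hm1
  have hP : 0 < A ^ (1 - θ) * B ^ θ := by positivity
  calc (2 * π)⁻¹ * (∫ φ in (0:ℝ)..(2 * π),
        ‖deriv ψ (R * Complex.exp (φ * I))‖ ^ (-((1 - θ) * q₀ + θ * q₁)))
      ≤ (2 * π)⁻¹ * ((A ^ (1 - θ) * B ^ θ) * ((1 - θ) * A⁻¹ * I₀ + θ * B⁻¹ * I₁)) :=
        mul_le_mul_of_nonneg_left hint (by positivity)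
    _ = (A ^ (1 - θ) * B ^ θ) * ((1 - θ) * A⁻¹ * ((2 * π)⁻¹ * I₀) +
        θ * B⁻¹ * ((2 * π)⁻¹ * I₁)) := by ring
    _ ≤ (A ^ (1 - θ) * B ^ θ) * ((1 - θ) * A⁻¹ * A + θ * B⁻¹ * B) := by
        apply mul_le_mul_of_nonneg_left _ hP.le
        apply add_le_add
        · exact mul_le_mul_of_nonneg_left hm0 (mul_nonneg (by linarith) (by positivity))
        · exact mul_le_mul_of_nonneg_left hm1 (by positivity)
    _ = A ^ (1 - θ) * B ^ θ := by
        rw [mul_assoc (1 - θ), mul_assoc θ, inv_mul_cancel₀ hA0.ne', inv_mul_cancel₀ hB0.ne']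
        ring

theorem sigB_zero : SigB 0 0 := by
  refine ⟨1, ?_⟩
  intro ψ _ _ _ R hR
  have hπ : (0:ℝ) < 2 * π := by positivity
  simp only [neg_zero, Real.rpow_zero, mul_one, intervalIntegral.integral_const, sub_zero,
    smul_eq_mul]
  rw [inv_mul_cancel₀ hπ.ne']

theorem SigB.scale {q s θ : ℝ} (h : SigB q s) (hθ0 : 0 ≤ θ) (hθ1 : θ ≤ 1) :
    SigB (θ * q) (θ * s) := by
  have := sigB_zero.interp h hθ0 hθ1
  simpa using this

theorem SigB.mono {q s s' : ℝ} (h : SigB q s) (hs : s ≤ s') : SigB q s' := by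
  obtain ⟨C, hC⟩ := h
  refine ⟨max C 0, ?_⟩
  intro ψ a1 a2 a3 R hR
  have hR2 : 0 < R ^ 2 - 1 := by nlinarith
  have h1 := hC ψ a1 a2 a3 R hR
  have hX1 : 1 ≤ R ^ 2 / (R ^ 2 - 1) := by
    rw [one_le_div hR2]; linarith
  calc _ ≤ C * (R ^ 2 / (R ^ 2 - 1)) ^ s := h1
    _ ≤ max C 0 * (R ^ 2 / (R ^ 2 - 1)) ^ s :=
        mul_le_mul_of_nonneg_right (le_max_left _ _) (by positivity)
    _ ≤ max C 0 * (R ^ 2 / (R ^ 2 - 1)) ^ s' :=
        mul_le_mul_of_nonneg_left (Real.rpow_le_rpow_of_exponent_le hX1 hs) (le_max_right _ _)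

/-- A bound with exponent at least one still gives a range of Brennan's integral: from the
exponent `s` for the power `q` (`s ≥ 1`) all `p < 2 + q / s`. -/
theorem brennan_excess {q s : ℝ} (hq : 0 < q) (hs : 1 ≤ s) (H : ∀ e : ℝ, 0 < e → SigB q (s + e))
    {Ω : Set ℂ} (hΩ : IsOpen Ω) {φ : ℂ → ℂ} (hφ : DifferentiableOn ℂ φ Ω) (hinj : InjOn φ Ω)
    (him : φ '' Ω = ball 0 1) {p : ℝ} (hp : 2 ≤ p) (hpk : p < 2 + q / s) :
    IntegrableOn (fun z => ‖deriv φ z‖ ^ p) Ω := by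
  have hs0 : 0 < s := by linarith
  obtain ⟨k, hk⟩ : ∃ k : ℝ, k = p - 2 := ⟨_, rfl⟩
  have hk0 : 0 ≤ k := by linarith
  have hks : k < q / s := by linarith
  have hks2 : k * s < q := by rwa [lt_div_iff₀ hs0] at hks
  have hkq : k ≤ q := by nlinarith
  obtain ⟨θ, hθ⟩ : ∃ θ : ℝ, θ = k / q := ⟨_, rfl⟩
  have hθ0 : 0 ≤ θ := by rw [hθ]; positivity
  have hθ1 : θ ≤ 1 := by rw [hθ, div_le_one hq]; exact hkq
  have hθs : θ * s < 1 := by
    rw [hθ, div_mul_eq_mul_div, div_lt_one hq]; exact hks2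
  obtain ⟨e, he⟩ : ∃ e : ℝ, e = (1 - θ * s) / 2 := ⟨_, rfl⟩
  have he0 : 0 < e := by linarith
  have h1 := (H e he0).scale hθ0 hθ1
  have e1 : θ * q = k := by rw [hθ, div_mul_cancel₀ _ hq.ne']
  rw [e1] at h1
  have h2 : θ * (s + e) < 1 := by nlinarith
  exact brennan_domain (k := k) (s := θ * (s + e)) (by positivity) h2 h1 hΩ hφ hinj him hp
    (by linarith)

end Pool.Agent.Helper58.CK

end

section

set_option autoImplicit false

open Complex MeasureTheory Metric Set Filter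
open scoped Real ComplexConjugate Topology

/-!
The piecewise linear bound of the integral means spectrum of the class Σ given by finitely many
values (convexity), and its use for Brennan's integral.
-/

namespace Pool.Agent.Helper58.CK

/-- the bound for the power `q` with every exponent above `s` -/
def SigE (q s : ℝ) : Prop := ∀ e : ℝ, 0 < e → SigB q (s + e)

theorem SigE.mono {q s s' : ℝ} (h : SigE q s) (hs : s ≤ s') : SigE q s' :=
  fun e he => (h e he).mono (by linarith)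

theorem sigE_zero : SigE 0 0 := fun e he => sigB_zero.mono (by linarith)

theorem SigE.interp {q₀ q₁ s₀ s₁ θ : ℝ} (h₀ : SigE q₀ s₀) (h₁ : SigE q₁ s₁)
    (hθ0 : 0 ≤ θ) (hθ1 : θ ≤ 1) :
    SigE ((1 - θ) * q₀ + θ * q₁) ((1 - θ) * s₀ + θ * s₁) := by
  intro e he
  have h := (h₀ e he).interp (h₁ e he) hθ0 hθ1
  have e1 : (1 - θ) * (s₀ + e) + θ * (s₁ + e) = (1 - θ) * s₀ + θ * s₁ + e := by ring
  rwa [e1] at h

/-- the chord between two values -/
theorem SigE.chord {a b x y p : ℝ} (h₀ : SigE a x) (h₁ : SigE b y) (hab : a < b)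
    (ha : a ≤ p) (hb : p ≤ b) : SigE p (((b - p) * x + (p - a) * y) / (b - a)) := by
  have hd : 0 < b - a := by linarith
  have h := h₀.interp h₁ (θ := (p - a) / (b - a)) (div_nonneg (by linarith) hd.le)
    ((div_le_one hd).2 (by linarith))
  have e1 : (1 - (p - a) / (b - a)) * a + (p - a) / (b - a) * b = p := by
    field_simp
    ring
  have e2 : (1 - (p - a) / (b - a)) * x + (p - a) / (b - a) * y =
      ((b - p) * x + (p - a) * y) / (b - a) := by
    field_simp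
    ring
  rwa [e1, e2] at h

/-- **two data**: the bound `B(-p) ≤ p - 1 + x₁` for `p ≥ 1`, `B(-p) ≤ p - 1 + x₂` for `p ≥ 2` -/
theorem sigE_max3 {x₁ x₂ : ℝ} (h₁ : ∀ p : ℝ, 1 ≤ p → SigE p (p - 1 + x₁))
    (h₂ : ∀ p : ℝ, 2 ≤ p → SigE p (p - 1 + x₂)) {p : ℝ} (hp : 0 ≤ p) :
    SigE p (max (p * x₁) (max ((2 - p) * x₁ + (p - 1) * (1 + x₂)) (p - 1 + x₂))) := by
  rcases le_total p 1 with h | h
  · have h3 := sigE_zero.chord (h₁ 1 le_rfl) one_pos hp h
    refine h3.mono ?_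
    refine le_trans (le_of_eq ?_) (le_max_left _ _)
    ring
  · rcases le_total p 2 with h' | h'
    · have h3 := (h₁ 1 le_rfl).chord (h₂ 2 le_rfl) one_lt_two h h'
      refine h3.mono ?_
      refine le_trans (le_of_eq ?_) ((le_max_left _ _).trans (le_max_right _ _))
      ring
    · exact (h₂ p h').mono ((le_max_right _ _).trans (le_max_right _ _))

/-- **three data** -/
theorem sigE_max4 {x₁ x₂ x₃ : ℝ} (h₁ : ∀ p : ℝ, 1 ≤ p → SigE p (p - 1 + x₁))
    (h₂ : ∀ p : ℝ, 3 / 2 ≤ p → SigE p (p - 1 + x₂))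
    (h₃ : ∀ p : ℝ, 2 ≤ p → SigE p (p - 1 + x₃)) {p : ℝ} (hp : 0 ≤ p) :
    SigE p (max (p * x₁) (max ((3 - 2 * p) * x₁ + (2 * p - 2) * (1 / 2 + x₂))
      (max ((4 - 2 * p) * (1 / 2 + x₂) + (2 * p - 3) * (1 + x₃)) (p - 1 + x₃)))) := by
  rcases le_total p 1 with h | h
  · have h3 := sigE_zero.chord (h₁ 1 le_rfl) one_pos hp h
    refine h3.mono ?_
    refine le_trans (le_of_eq ?_) (le_max_left _ _)
    ring
  · rcases le_total p (3 / 2) with h' | h'
    · have h3 := (h₁ 1 le_rfl).chord (h₂ (3 / 2) le_rfl) (by norm_num) h h'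
      refine h3.mono ?_
      refine le_trans (le_of_eq ?_) ((le_max_left _ _).trans (le_max_right _ _))
      ring
    · rcases le_total p 2 with h'' | h''
      · have h3 := (h₂ (3 / 2) le_rfl).chord (h₃ 2 le_rfl) (by norm_num) h' h''
        refine h3.mono ?_
        refine le_trans (le_of_eq ?_) ((le_max_left _ _).trans
          ((le_max_right _ _).trans (le_max_right _ _)))
        ring
      · exact (h₃ p h'').mono ((le_max_right _ _).trans
          ((le_max_right _ _).trans (le_max_right _ _)))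

/-- Brennan's integral from a power `q ≤ 2` with exponent `1` -/
theorem brennan_sigE {q s : ℝ} (hq : 0 < q) (hs : 1 ≤ s) (H : SigE q s)
    {Ω : Set ℂ} (hΩ : IsOpen Ω) {φ : ℂ → ℂ} (hφ : DifferentiableOn ℂ φ Ω) (hinj : InjOn φ Ω)
    (him : φ '' Ω = ball 0 1) {p : ℝ} (hp : 2 ≤ p) (hpk : p < 2 + q / s) :
    IntegrableOn (fun z => ‖deriv φ z‖ ^ p) Ω :=
  brennan_excess hq hs H hΩ hφ hinj him hp hpk

/-- from the value `x₁ < 1` at `1` and `1 + x₂` at `2` (`x₂ ≥ 0`): the chord has the value `1` at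
`1 + (1 - x₁) / (1 + x₂ - x₁)`, hence Brennan's integral for `p` below
`3 + (1 - x₁) / (1 + x₂ - x₁)` -/
theorem brennan_chord {x₁ x₂ : ℝ} (h₁ : SigE 1 x₁) (h₂ : SigE 2 (1 + x₂)) (hx1 : x₁ < 1)
    (hx2 : 0 ≤ x₂) {Ω : Set ℂ} (hΩ : IsOpen Ω) {φ : ℂ → ℂ} (hφ : DifferentiableOn ℂ φ Ω)
    (hinj : InjOn φ Ω) (him : φ '' Ω = ball 0 1) {p : ℝ} (hp : 2 ≤ p)
    (hpk : p < 3 + (1 - x₁) / (1 + x₂ - x₁)) :
    IntegrableOn (fun z => ‖deriv φ z‖ ^ p) Ω := by
  have hd : 0 < 1 + x₂ - x₁ := by linarith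
  obtain ⟨θ, hθ⟩ : ∃ θ : ℝ, θ = (1 - x₁) / (1 + x₂ - x₁) := ⟨_, rfl⟩
  have hθ0 : 0 ≤ θ := by rw [hθ]; exact div_nonneg (by linarith) hd.le
  have hθ1 : θ ≤ 1 := by rw [hθ, div_le_one hd]; linarith
  have h := h₁.interp h₂ hθ0 hθ1
  have e1 : (1 - θ) * 1 + θ * 2 = 1 + θ := by ring
  have e2 : (1 - θ) * x₁ + θ * (1 + x₂) = 1 := by
    rw [hθ]
    field_simp
    ring
  rw [e1, e2] at h
  refine brennan_excess (by linarith) le_rfl h hΩ hφ hinj him hp ?_
  rw [← hθ] at hpk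
  rw [div_one]
  linarith

end Pool.Agent.Helper58.CK

end

section

/-!
From the checked certificates at real numbers `s` to the bound of the integral means of the class Σ
(the bridge of Helper39/SP/Bridge for the merged closure): `B(1) ≤ 133 / 400`,
`B(-1) ≤ 353 / 1250`, `B(-7/5) ≤ 533 / 1000`.
-/

set_option autoImplicit false

open Complex MeasureTheory Set Filter
open scoped Real Topology

namespace Pool.Agent.Helper58.BF

open Pool.Agent.M16.Helper65.HR2 Pool.Agent.M16.Helper12.HR2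
open Pool.Agent.Helper58.CK (SigB SigE)

/-- the square of the exponential as a power of the derivative -/
theorem norm_exp_sq {w h : ℂ} (e : Complex.exp h = w) (s : ℝ) :
    ‖Complex.exp ((s : ℂ) * h)‖ ^ 2 = ‖w‖ ^ (2 * s) := by
  rw [← e, Complex.norm_exp, Complex.norm_exp, ← Real.exp_nat_mul, ← Real.exp_mul]
  congr 1
  rw [Complex.re_ofReal_mul]
  push_cast
  ring

/-- the means of a real exponent -/
theorem mE_real {ψ h : ℂ → ℂ} (H : Pool.Agent.Helper22.Half.SigmaLog ψ h) {R : ℝ} (hR : 1 < R)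
    (s : ℝ) : mE (s : ℂ) R h =
      (2 * π)⁻¹ * (∫ θ in (0:ℝ)..(2 * π), ‖deriv ψ (R * Complex.exp (θ * I))‖ ^ (2 * s)) := by
  rw [mE, one_div]
  congr 1
  apply intervalIntegral.integral_congr
  intro θ _
  refine norm_exp_sq (H.exp_eq _ ?_) s
  rw [norm_mul, Complex.norm_exp_ofReal_mul_I, mul_one, Complex.norm_real, Real.norm_eq_abs,
    abs_of_pos (one_pos.trans hR)]
  exact hR

/-- the bridge -/
theorem sigB_of_ptOK {P : Par} (hP : PtOK P) (hq : P.q = 0) :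
    SigB (-(2 * ((P.p : ℝ) / P.sr))) ((P.bn : ℝ) / P.bd) := by
  obtain ⟨C, hC⟩ := hP
  refine ⟨C, ?_⟩
  intro ψ hψ hinj hb R hR
  obtain ⟨h, H⟩ := exists_sigmaLog hψ hinj hb
  have h1 := hC ψ h ⟨H.diff, H.inj, H.normalised, H.hdiff, H.exp_eq, H.lim⟩ R hR
  have e1 : ((P.p : ℂ) + P.q * Complex.I) / P.sr = (((P.p : ℝ) / P.sr : ℝ) : ℂ) := by
    rw [hq]
    push_cast
    ring
  rw [e1, mE_real H hR] at h1
  rwa [neg_neg]

theorem sigE_of_sigB {q s : ℝ} (h : SigB q s) : SigE q s := fun e he => h.mono (by linarith)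

/-- the power `-1` -/
theorem sigE_one : SigE 1 (353 / 1250) := by
  have h := sigB_of_ptOK P.okhm rfl
  norm_num at h
  exact sigE_of_sigB h

/-- the power `1` -/
theorem sigE_neg_one : SigE (-1) (133 / 400) := by
  have h := sigB_of_ptOK P.okh1 rfl
  norm_num at h
  exact sigE_of_sigB h

/-- the power `-7/5` -/
theorem sigE_m14 : SigE (7 / 5) (533 / 1000) := by
  have h := sigB_of_ptOK P.okm14 rfl
  norm_num at h
  exact sigE_of_sigB h

end Pool.Agent.Helper58.BF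

end

section

/-!
Project EKC, corollary on the near-extremal values of `log ψ'`: definitions.
-/

set_option autoImplicit false

namespace Pool.Agent.Helper42.EKC

open Pool.Agent.Helper22.Half (SigmaLog)

/-- The moment bound with the exact power `‖t‖ - 1`, for the complex exponent `t`, uniform on the
class Sigma. -/
def Mom (t : ℂ) : Prop :=
  ∃ C : ℝ, ∀ ψ h : ℂ → ℂ, SigmaLog ψ h → ∀ R : ℝ, 1 < R →
    (1 / (2 * Real.pi)) * ∫ θ in (0:ℝ)..(2 * Real.pi),
      ‖Complex.exp (t * h ((R : ℂ) * Complex.exp ((θ : ℂ) * Complex.I)))‖ ≤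
        C * (R ^ 2 / (R ^ 2 - 1)) ^ (‖t‖ - 1)

end Pool.Agent.Helper42.EKC

end

section

/-!
Project EKC: the moment bound for the exponent two, from the area theorem.
-/

set_option autoImplicit false

open Complex MeasureTheory Metric Set Filter Topology
open scoped Real ComplexConjugate

namespace Pool.Agent.Helper42.EKC

open Pool.Agent.Helper22.Half (SigmaLog)
open Pool.Agent.Helper39.Area (Ext phi toDisc ext_data)
open Pool.Agent.Helper22.Marshall (coeff hasSum_coeff parseval_comb gLe_one)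

theorem nat_mul_pow_le {x : ℝ} (h0 : 0 ≤ x) (h1 : x < 1) (n : ℕ) :
    (n : ℝ) * x ^ n ≤ 1 / (1 - x) := by
  have h2 : (n : ℝ) * x ^ n ≤ ∑ k ∈ Finset.range n, x ^ k := by
    have : (n : ℝ) * x ^ n = ∑ k ∈ Finset.range n, x ^ n := by simp
    rw [this]
    apply Finset.sum_le_sum
    intro k hk
    exact pow_le_pow_of_le_one h0 h1.le (Finset.mem_range.mp hk).le
  have h3 : ∑ k ∈ Finset.range n, x ^ k ≤ 1 / (1 - x) := by
    rw [geom_sum_eq h1.ne, le_div_iff₀ (by linarith)]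
    have h4 : (x ^ n - 1) / (x - 1) * (1 - x) = 1 - x ^ n := by
      have : x - 1 ≠ 0 := by linarith
      field_simp
      ring
    rw [h4]
    linarith [pow_nonneg h0 n]
  linarith

/-- Gronwall's area theorem -/
theorem area_coeff {β : ℂ → ℂ} (hE : Ext β) (M : ℕ) :
    ∑ m ∈ Finset.range M, (m : ℝ) * ‖coeff β m‖ ^ 2 ≤ 1 := by
  set v : ℕ → ℂ := fun m => if m = 0 then 1 else coeff β (m - 1) with hv
  have hv0 : v 0 = 1 := by simp [hv]
  have hvs : ∀ m, v (m + 1) = coeff β m := by intro m; simp [hv]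
  have h1 := gLe_one hE 1 Polynomial.X v (by simp) (by
    intro ζ hζ0 hζ1
    rw [← hasSum_nat_add_iff' 1]
    simp only [Finset.range_one, Finset.sum_singleton, pow_zero, mul_one, hv0, hvs, pow_one,
      Polynomial.eval_X]
    have h2 := (hasSum_coeff hE.diff hζ1).mul_left ζ
    have h3 : ζ * phi β ζ - 1 = ζ * β ζ := by
      unfold Pool.Agent.Helper39.Area.phi
      field_simp
      ring
    rw [h3]
    refine h2.congr_fun ?_
    intro m
    ring) (M + 1)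
  rw [Finset.sum_range_succ'] at h1
  simp only [Finset.range_one, Finset.sum_singleton, hv0, hvs, norm_one, one_pow, mul_one,
    Nat.add_sub_cancel, Nat.zero_sub, Nat.cast_zero, Nat.sub_zero, Nat.cast_one, add_zero] at h1
  simpa using h1

theorem mean_deriv_le {β : ℂ → ℂ} (hE : Ext β) {r : ℝ} (hr : 0 ≤ r) (hr1 : r < 1) :
    (1 / (2 * π)) * ∫ θ in (-π)..π, ‖((r : ℂ) * Complex.exp ((θ : ℂ) * Complex.I)) *
      deriv β ((r : ℂ) * Complex.exp ((θ : ℂ) * Complex.I))‖ ^ 2 ≤ 1 / (1 - r ^ 2) := by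
  have h1 := parseval_comb hE.diff 1 0 hr hr1
  simp only [one_mul, zero_mul, add_zero] at h1
  have hx1 : r ^ 2 < 1 := by nlinarith
  have hx0 : 0 ≤ r ^ 2 := by positivity
  have hpos : 0 < 1 - r ^ 2 := by linarith
  refine hasSum_le_of_sum_le h1 ?_
  intro s
  obtain ⟨M, hM⟩ := s.exists_nat_subset_range
  have h2 : ∀ n : ℕ, ‖(n : ℂ) * coeff β n‖ ^ 2 * r ^ (2 * n) ≤
      1 / (1 - r ^ 2) * ((n : ℝ) * ‖coeff β n‖ ^ 2) := by
    intro n
    have h3 := nat_mul_pow_le hx0 hx1 n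
    rw [norm_mul, Complex.norm_natCast, mul_pow, pow_mul]
    have h4 : (n : ℝ) ^ 2 * ‖coeff β n‖ ^ 2 * (r ^ 2) ^ n =
        ((n : ℝ) * (r ^ 2) ^ n) * ((n : ℝ) * ‖coeff β n‖ ^ 2) := by ring
    rw [h4]
    exact mul_le_mul_of_nonneg_right h3 (by positivity)
  calc ∑ n ∈ s, ‖(n : ℂ) * coeff β n‖ ^ 2 * r ^ (2 * n)
      ≤ ∑ n ∈ Finset.range M, ‖(n : ℂ) * coeff β n‖ ^ 2 * r ^ (2 * n) :=
        Finset.sum_le_sum_of_subset_of_nonneg hM fun n _ _ => by positivity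
    _ ≤ ∑ n ∈ Finset.range M, 1 / (1 - r ^ 2) * ((n : ℝ) * ‖coeff β n‖ ^ 2) :=
        Finset.sum_le_sum fun n _ => h2 n
    _ = 1 / (1 - r ^ 2) * ∑ n ∈ Finset.range M, (n : ℝ) * ‖coeff β n‖ ^ 2 := by
        rw [Finset.mul_sum]
    _ ≤ 1 / (1 - r ^ 2) * 1 :=
        mul_le_mul_of_nonneg_left (area_coeff hE M) (by positivity)
    _ = 1 / (1 - r ^ 2) := mul_one _

theorem mom_two : Mom 2 := by
  refine ⟨4, fun ψ h H R hR => ?_⟩
  obtain ⟨b, hb⟩ := H.normalised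
  obtain ⟨hE, hex⟩ := ext_data H.diff H.inj hb H.exp_eq
  set β : ℂ → ℂ := toDisc b (fun z => ψ z - z) with hβ
  have hR0 : 0 < R := by linarith
  have hr0 : 0 < R⁻¹ := by positivity
  have hr1 : R⁻¹ < 1 := inv_lt_one_of_one_lt₀ hR
  obtain ⟨k, hk⟩ : ∃ k : ℝ → ℝ, k = fun (α : ℝ) =>
    ‖(((R⁻¹ : ℝ) : ℂ) * Complex.exp ((α : ℂ) * I)) *
      deriv β (((R⁻¹ : ℝ) : ℂ) * Complex.exp ((α : ℂ) * I))‖ ^ 2 := ⟨_, rfl⟩
  have hnorm : ∀ α : ℝ, ‖((R⁻¹ : ℝ) : ℂ) * Complex.exp ((α : ℂ) * I)‖ = R⁻¹ := by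
    intro α
    rw [norm_mul, Complex.norm_exp_ofReal_mul_I, mul_one, Complex.norm_real,
      Real.norm_of_nonneg hr0.le]
  have h1 : ∀ θ : ℝ, ‖Complex.exp (2 * h ((R : ℂ) * Complex.exp ((θ : ℂ) * I)))‖ ≤
      2 + 2 * k (-θ) := by
    intro θ
    have hne0 : ((R⁻¹ : ℝ) : ℂ) * Complex.exp (((-θ : ℝ) : ℂ) * I) ≠ 0 := by
      apply mul_ne_zero _ (Complex.exp_ne_zero _)
      exact_mod_cast inv_ne_zero hR0.ne'
    have hmem : ((R⁻¹ : ℝ) : ℂ) * Complex.exp (((-θ : ℝ) : ℂ) * I) ∈ ball (0:ℂ) 1 := by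
      rw [mem_ball_zero_iff, hnorm]
      exact hr1
    have h2 : (((R⁻¹ : ℝ) : ℂ) * Complex.exp (((-θ : ℝ) : ℂ) * I))⁻¹ =
        (R : ℂ) * Complex.exp ((θ : ℂ) * I) := by
      rw [mul_inv, ← Complex.exp_neg]
      push_cast
      rw [inv_inv]
      congr 2
      ring
    have h3 := hex _ hmem
    have h3' : toDisc 0 h (((R⁻¹ : ℝ) : ℂ) * Complex.exp (((-θ : ℝ) : ℂ) * I)) =
        h ((R : ℂ) * Complex.exp ((θ : ℂ) * I)) := by
      simp only [toDisc]
      rw [if_neg hne0, h2]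
    rw [h3'] at h3
    have h4 : Complex.exp (2 * h ((R : ℂ) * Complex.exp ((θ : ℂ) * I))) =
        Complex.exp (h ((R : ℂ) * Complex.exp ((θ : ℂ) * I))) ^ 2 := by
      rw [← Complex.exp_nat_mul]
      norm_num
    rw [h4, norm_pow, h3]
    set ζ : ℂ := ((R⁻¹ : ℝ) : ℂ) * Complex.exp (((-θ : ℝ) : ℂ) * I) with hζ
    have hζn : ‖ζ‖ ≤ 1 := by rw [hζ, hnorm]; exact hr1.le
    have h5 : ‖1 - ζ ^ 2 * deriv β ζ‖ ≤ 1 + ‖ζ * deriv β ζ‖ := by
      refine (norm_sub_le _ _).trans ?_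
      rw [norm_one]
      have h6 : ζ ^ 2 * deriv β ζ = ζ * (ζ * deriv β ζ) := by ring
      rw [h6, norm_mul]
      have : ‖ζ‖ * ‖ζ * deriv β ζ‖ ≤ 1 * ‖ζ * deriv β ζ‖ :=
        mul_le_mul_of_nonneg_right hζn (norm_nonneg _)
      linarith
    have h7 : k (-θ) = ‖ζ * deriv β ζ‖ ^ 2 := by
      rw [hk, hζ]
    rw [h7]
    nlinarith [norm_nonneg (1 - ζ ^ 2 * deriv β ζ), norm_nonneg (ζ * deriv β ζ),
      sq_nonneg (1 - ‖ζ * deriv β ζ‖)]
  have hkc : Continuous k := by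
    have hd : DifferentiableOn ℂ (deriv β) (ball 0 1) := hE.diff.deriv isOpen_ball
    have h8 : Continuous fun α : ℝ =>
        deriv β (((R⁻¹ : ℝ) : ℂ) * Complex.exp ((α : ℂ) * I)) := by
      rw [continuous_iff_continuousAt]
      intro α
      have hmem : ((R⁻¹ : ℝ) : ℂ) * Complex.exp ((α : ℂ) * I) ∈ ball (0:ℂ) 1 := by
        rw [mem_ball_zero_iff, hnorm]
        exact hr1
      have h9 : ContinuousAt (deriv β) (((R⁻¹ : ℝ) : ℂ) * Complex.exp ((α : ℂ) * I)) :=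
        (hd.differentiableAt (isOpen_ball.mem_nhds hmem)).continuousAt
      exact ContinuousAt.comp
        (f := fun α : ℝ => ((R⁻¹ : ℝ) : ℂ) * Complex.exp ((α : ℂ) * I)) h9 (by fun_prop)
    rw [hk]
    exact ((by fun_prop : Continuous fun α : ℝ =>
      ((R⁻¹ : ℝ) : ℂ) * Complex.exp ((α : ℂ) * I)).mul h8).norm.pow 2
  have hhc : Continuous fun θ : ℝ =>
      ‖Complex.exp (2 * h ((R : ℂ) * Complex.exp ((θ : ℂ) * I)))‖ := by
    have h8 : Continuous fun θ : ℝ => h ((R : ℂ) * Complex.exp ((θ : ℂ) * I)) := by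
      rw [continuous_iff_continuousAt]
      intro θ
      have hmem : 1 < ‖(R : ℂ) * Complex.exp ((θ : ℂ) * I)‖ := by
        rw [norm_mul, Complex.norm_exp_ofReal_mul_I, mul_one, Complex.norm_real,
          Real.norm_of_nonneg (by linarith)]
        exact hR
      have h9 : ContinuousAt h ((R : ℂ) * Complex.exp ((θ : ℂ) * I)) :=
        (H.hdiff.differentiableAt
          ((isOpen_lt continuous_const continuous_norm).mem_nhds hmem)).continuousAt
      exact ContinuousAt.comp (f := fun θ : ℝ => (R : ℂ) * Complex.exp ((θ : ℂ) * I)) h9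
        (by fun_prop)
    exact (Complex.continuous_exp.comp (continuous_const.mul h8)).norm
  have hint : (∫ θ in (0:ℝ)..(2 * π),
      ‖Complex.exp (2 * h ((R : ℂ) * Complex.exp ((θ : ℂ) * I)))‖) ≤
      ∫ θ in (0:ℝ)..(2 * π), (2 + 2 * k (-θ)) := by
    apply intervalIntegral.integral_mono_on Real.two_pi_pos.le (hhc.intervalIntegrable _ _)
    · apply Continuous.intervalIntegrable
      have := hkc.comp continuous_neg
      simp only [Function.comp_def] at this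
      fun_prop
    · intro θ _
      exact h1 θ
  have hkper : Function.Periodic k (2 * π) := by
    intro θ
    simp only [hk]
    have : Complex.exp (((θ + 2 * π : ℝ) : ℂ) * I) = Complex.exp ((θ : ℂ) * I) := by
      push_cast
      rw [add_mul, Complex.exp_add, Complex.exp_two_pi_mul_I, mul_one]
    rw [this]
  have hsplit : (∫ θ in (0:ℝ)..(2 * π), (2 + 2 * k (-θ))) =
      2 * (2 * π) + 2 * ∫ θ in (-π)..π, k θ := by
    have hkn : Continuous fun θ : ℝ => k (-θ) := hkc.comp continuous_neg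
    have hkn2 : Continuous fun θ : ℝ => 2 * k (-θ) := continuous_const.mul hkn
    rw [intervalIntegral.integral_add (continuous_const.intervalIntegrable _ _)
      (hkn2.intervalIntegrable _ _), intervalIntegral.integral_const_mul,
      intervalIntegral.integral_comp_neg (fun θ => k θ), intervalIntegral.integral_const]
    have h2 := hkper.intervalIntegral_add_eq (-(2 * π)) (-π)
    have e1 : -(2 * π) + 2 * π = (0:ℝ) := by ring
    have e2 : -π + 2 * π = (π : ℝ) := by ring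
    rw [e1, e2] at h2
    rw [neg_zero, h2, smul_eq_mul]
    ring
  have hmean := mean_deriv_le hE hr0.le hr1
  have hk2 : (∫ θ in (-π)..π, k θ) = ∫ θ in (-π)..π,
      ‖(((R⁻¹ : ℝ) : ℂ) * Complex.exp ((θ : ℂ) * Complex.I)) *
      deriv β (((R⁻¹ : ℝ) : ℂ) * Complex.exp ((θ : ℂ) * Complex.I))‖ ^ 2 := by
    rw [hk]
  rw [← hk2] at hmean
  have hR2 : 0 < R ^ 2 - 1 := by nlinarith
  have hx : 1 / (1 - R⁻¹ ^ 2) = R ^ 2 / (R ^ 2 - 1) := by
    rw [inv_pow]
    field_simp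
  rw [hx] at hmean
  have hx1 : 1 ≤ R ^ 2 / (R ^ 2 - 1) := by
    rw [le_div_iff₀ hR2]
    linarith
  have hn2 : (‖(2:ℂ)‖ - 1 : ℝ) = 1 := by
    rw [Complex.norm_ofNat]
    norm_num
  rw [hn2, Real.rpow_one]
  have hpi : 0 < 1 / (2 * π) := by positivity
  calc 1 / (2 * π) * ∫ θ in (0:ℝ)..(2 * π),
        ‖Complex.exp (2 * h ((R : ℂ) * Complex.exp ((θ : ℂ) * I)))‖
      ≤ 1 / (2 * π) * (2 * (2 * π) + 2 * ∫ θ in (-π)..π, k θ) := by
        rw [← hsplit]
        exact mul_le_mul_of_nonneg_left hint hpi.le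
    _ = 2 + 2 * (1 / (2 * π) * ∫ θ in (-π)..π, k θ) := by
        have : π ≠ 0 := Real.pi_ne_zero
        field_simp
    _ ≤ 2 + 2 * (R ^ 2 / (R ^ 2 - 1)) := by linarith
    _ ≤ 4 * (R ^ 2 / (R ^ 2 - 1)) := by linarith

end Pool.Agent.Helper42.EKC

end

section

/-!
The integral means of the class Σ for the positive powers `≥ 2`: `B(t) ≤ t - 1` (area theorem,
sharp bound of the derivative).
-/

set_option autoImplicit false

open Complex MeasureTheory Metric Set Filter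
open scoped Real ComplexConjugate Topology

namespace Pool.Agent.Helper69.BF

open Pool.Agent.Helper22.Half (SigmaLog)
open Pool.Agent.Helper39.Area (toDisc)
open Pool.Agent.Helper24.Br (deriv_ne_of_inj exists_log_ball)
open Pool.Agent.Helper58.CK (SigB circ_ext circ_pow_cont)

/-- the logarithm of the derivative -/
theorem log_of_sigma {ψ : ℂ → ℂ}
    (hψ : DifferentiableOn ℂ ψ {z : ℂ | 1 < ‖z‖})
    (hinj : Set.InjOn ψ {z : ℂ | 1 < ‖z‖})
    (hc : ∃ c : ℂ, Tendsto (fun z => ψ z - z) (Bornology.cobounded ℂ) (𝓝 c)) :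
    ∃ h : ℂ → ℂ, SigmaLog ψ h := by
  obtain ⟨c, hc⟩ := hc
  have hne : ∀ z : ℂ, 1 < ‖z‖ → deriv ψ z ≠ 0 :=
    fun z hz => deriv_ne_of_inj Pool.Agent.Helper39.Area.isOpen_ext hψ hinj hz
  have hexp : ∀ z : ℂ, 1 < ‖z‖ → Complex.exp ((fun z => Complex.log (deriv ψ z)) z) =
      deriv ψ z := fun z hz => Complex.exp_log (hne z hz)
  obtain ⟨hE, hex⟩ := Pool.Agent.Helper39.Area.ext_data hψ hinj hc hexp
  have hq : DifferentiableOn ℂ (fun ζ => 1 - ζ ^ 2 * deriv (toDisc c (fun z => ψ z - z)) ζ)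
      (ball 0 1) := by
    have h1 := hE.diff.deriv isOpen_ball
    have h2 : DifferentiableOn ℂ (fun ζ : ℂ => ζ ^ 2) (ball 0 1) := by fun_prop
    exact (differentiableOn_const (1 : ℂ)).sub (h2.mul h1)
  obtain ⟨H, hH, hH0, hHe⟩ := exists_log_ball hq (fun z hz => hE.ne z hz) (by simp)
  have hz0 : ∀ z : ℂ, 1 < ‖z‖ → z ≠ 0 := by
    rintro z hz rfl
    simp at hz
    linarith
  have hzb : ∀ z : ℂ, 1 < ‖z‖ → z⁻¹ ∈ ball (0 : ℂ) 1 := by
    intro z hz
    rw [mem_ball_zero_iff, norm_inv]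
    exact inv_lt_one_of_one_lt₀ hz
  refine ⟨fun z => H z⁻¹, ⟨hψ, hinj, ⟨c, hc⟩, ?_, ?_, ?_⟩⟩
  · intro z hz
    have h1 : DifferentiableAt ℂ H z⁻¹ := hH.differentiableAt (isOpen_ball.mem_nhds (hzb z hz))
    exact (h1.comp z (differentiableAt_inv (hz0 z hz))).differentiableWithinAt
  · intro z hz
    have h0 := inv_ne_zero (hz0 z hz)
    rw [hHe _ (hzb z hz), ← hex _ (hzb z hz)]
    simp only [toDisc]
    rw [if_neg h0, inv_inv]
    exact Complex.exp_log (hne _ hz)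
  · have h1 : ContinuousAt H 0 := (hH.differentiableAt (ball_mem_nhds 0 one_pos)).continuousAt
    have h2 := h1.tendsto
    rw [hH0] at h2
    exact h2.comp tendsto_inv₀_cobounded

/-- the sharp bound of the derivative -/
theorem deriv_le {ψ h : ℂ → ℂ} (H : SigmaLog ψ h) {z : ℂ} (hz : 1 < ‖z‖) :
    ‖deriv ψ z‖ ≤ ‖z‖ ^ 2 / (‖z‖ ^ 2 - 1) := by
  have h1 := Pool.Agent.Helper39.Area.goluzin_ext H.diff H.inj H.normalised H.hdiff H.exp_eq
    H.lim hz
  have h2 : 0 < ‖z‖ ^ 2 - 1 := by nlinarith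
  have h3 : 0 < ‖z‖ ^ 2 / (‖z‖ ^ 2 - 1) := by positivity
  rw [← H.exp_eq z hz, Complex.norm_exp]
  have h4 : (h z).re ≤ Real.log (‖z‖ ^ 2 / (‖z‖ ^ 2 - 1)) := (Complex.re_le_norm _).trans h1
  calc Real.exp (h z).re ≤ Real.exp (Real.log (‖z‖ ^ 2 / (‖z‖ ^ 2 - 1))) :=
        Real.exp_le_exp.2 h4
    _ = _ := Real.exp_log h3

/-- the second moment -/
theorem sigB_neg_two : SigB (-2) 1 := by
  obtain ⟨C, hC⟩ := Pool.Agent.Helper42.EKC.mom_two
  refine ⟨C, ?_⟩
  intro ψ a1 a2 a3 R hR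
  obtain ⟨h, H⟩ := log_of_sigma a1 a2 a3
  have h1 := hC ψ h H R hR
  have e1 : (‖(2:ℂ)‖ - 1 : ℝ) = 1 := by norm_num
  rw [e1] at h1
  have e2 : (∫ θ in (0:ℝ)..(2 * π), ‖deriv ψ (R * Complex.exp (θ * I))‖ ^ (-(-2:ℝ))) =
      ∫ θ in (0:ℝ)..(2 * π), ‖Complex.exp (2 * h ((R : ℂ) * Complex.exp ((θ : ℂ) * I)))‖ := by
    apply intervalIntegral.integral_congr
    intro θ _
    have h2 : Complex.exp (2 * h ((R : ℂ) * Complex.exp ((θ : ℂ) * I))) =
        deriv ψ (R * Complex.exp (θ * I)) ^ 2 := by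
      rw [← H.exp_eq _ (circ_ext hR θ), ← Complex.exp_nat_mul]
      norm_num
    simp only [h2, norm_pow, neg_neg]
    norm_num
  rw [e2]
  simpa [one_div] using h1

/-- **the positive powers `≥ 2`** -/
theorem sigB_neg {t : ℝ} (ht : 2 ≤ t) : SigB (-t) (t - 1) := by
  obtain ⟨C, hC⟩ := sigB_neg_two
  refine ⟨C, ?_⟩
  intro ψ a1 a2 a3 R hR
  obtain ⟨h, H⟩ := log_of_sigma a1 a2 a3
  have hR2 : 0 < R ^ 2 - 1 := by nlinarith
  have hX : 0 < R ^ 2 / (R ^ 2 - 1) := by positivity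
  obtain ⟨X, hXe⟩ : ∃ X : ℝ, X = R ^ 2 / (R ^ 2 - 1) := ⟨_, rfl⟩
  have h0 := hC ψ a1 a2 a3 R hR
  rw [← hXe] at hX h0 ⊢
  have hpt : ∀ θ : ℝ, ‖deriv ψ (R * Complex.exp (θ * I))‖ ^ (-(-t)) ≤
      X ^ (t - 2) * ‖deriv ψ (R * Complex.exp (θ * I))‖ ^ (-(-2:ℝ)) := by
    intro θ
    have hz : 1 < ‖(R : ℂ) * Complex.exp (θ * I)‖ := circ_ext hR θ
    have hd := deriv_le H hz
    have hn : ‖(R : ℂ) * Complex.exp (θ * I)‖ = R := by
      rw [norm_mul, Complex.norm_exp_ofReal_mul_I, mul_one, Complex.norm_real,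
        Real.norm_of_nonneg (by linarith)]
    rw [hn, ← hXe] at hd
    have hp : 0 < ‖deriv ψ (R * Complex.exp (θ * I))‖ :=
      norm_pos_iff.2 (deriv_ne_of_inj Pool.Agent.Helper39.Area.isOpen_ext a1 a2 hz)
    have e1 : (-(-t) : ℝ) = (t - 2) + (-(-2)) := by ring
    rw [e1, Real.rpow_add hp]
    exact mul_le_mul_of_nonneg_right (Real.rpow_le_rpow hp.le hd (by linarith)) (by positivity)
  have hint : (∫ θ in (0:ℝ)..(2 * π), ‖deriv ψ (R * Complex.exp (θ * I))‖ ^ (-(-t))) ≤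
      ∫ θ in (0:ℝ)..(2 * π), X ^ (t - 2) *
        ‖deriv ψ (R * Complex.exp (θ * I))‖ ^ (-(-2:ℝ)) := by
    apply intervalIntegral.integral_mono_on (by positivity)
    · exact (circ_pow_cont a1 a2 hR _).intervalIntegrable _ _
    · exact ((circ_pow_cont a1 a2 hR _).const_mul _).intervalIntegrable _ _
    · intro θ _
      exact hpt θ
  rw [intervalIntegral.integral_const_mul] at hint
  have hπ : (0:ℝ) ≤ (2 * π)⁻¹ := by positivity
  calc (2 * π)⁻¹ * (∫ θ in (0:ℝ)..(2 * π), ‖deriv ψ (R * Complex.exp (θ * I))‖ ^ (-(-t)))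
      ≤ (2 * π)⁻¹ * (X ^ (t - 2) * ∫ θ in (0:ℝ)..(2 * π),
        ‖deriv ψ (R * Complex.exp (θ * I))‖ ^ (-(-2:ℝ))) := mul_le_mul_of_nonneg_left hint hπ
    _ = X ^ (t - 2) * ((2 * π)⁻¹ * ∫ θ in (0:ℝ)..(2 * π),
        ‖deriv ψ (R * Complex.exp (θ * I))‖ ^ (-(-2:ℝ))) := by ring
    _ ≤ X ^ (t - 2) * (C * X ^ (1:ℝ)) := mul_le_mul_of_nonneg_left h0 (by positivity)
    _ = C * X ^ (t - 1) := by
      have e1 : t - 1 = (t - 2) + 1 := by ring
      rw [e1, Real.rpow_add hX]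
      ring

end Pool.Agent.Helper69.BF

end

section

/-!
The piecewise linear bound of the integral means spectrum on the real line, from the values at `2`,
`1`, `-1`, `-7/5` and a bound `p - 1 + e` for the powers `-p`, `p ≥ 2`.
-/

set_option autoImplicit false

open Complex MeasureTheory Set Filter
open scoped Real Topology

namespace Pool.Agent.Helper58.BF

open Pool.Agent.Helper58.CK (SigB SigE sigE_zero)

theorem sigB_of_lt {q s b : ℝ} (h : SigE q s) (hb : s < b) : SigB q b := by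
  have h1 := h (b - s) (by linarith)
  rwa [add_sub_cancel] at h1

/-- **the bound function** -/
theorem bound_fun {e : ℝ} (hE : ∀ p : ℝ, 2 ≤ p → SigE p (p - 1 + e)) {t b : ℝ}
    (h1 : 133 / 400 * t < b) (h6 : (267 * t - 134) / 400 < b) (h7 : t - 1 < b)
    (h2 : -(353 / 1250) * t < b)
    (h3 : -(6265 * t + 3441) / 10000 < b)
    (h4 : ((2 + t) * (533 / 1000) - (t + 7 / 5) * (1 + e)) * (5 / 3) < b)
    (h5 : -t - 1 + e < b) : SigB (-t) b := by
  rcases le_total 2 t with p2 | p2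
  · exact (Pool.Agent.Helper69.BF.sigB_neg p2).mono h7.le
  rcases le_total 1 t with p1 | p1
  · have h8 : SigE (-2) 1 := sigE_of_sigB Pool.Agent.Helper69.BF.sigB_neg_two
    have h9 := h8.chord sigE_neg_one (p := -t) (by norm_num) (by linarith) (by linarith)
    apply sigB_of_lt h9
    have e1 : ((-1 - -t) * 1 + (-t - -2) * (133 / 400)) / (-1 - -2) = (267 * t - 134) / 400 := by
      ring
    rw [e1]
    exact h6
  rcases le_total 0 t with p0 | p0
  · have h8 := sigE_neg_one.chord sigE_zero (p := -t) (by norm_num) (by linarith) (by linarith)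
    apply sigB_of_lt h8
    have e1 : ((0 - -t) * (133 / 400) + (-t - -1) * 0) / (0 - -1) = 133 / 400 * t := by ring
    rw [e1]
    exact h1
  rcases le_total (-1) t with n1 | n1
  · have h8 := sigE_zero.chord sigE_one (p := -t) (by norm_num) (by linarith) (by linarith)
    apply sigB_of_lt h8
    have e1 : ((1 - -t) * 0 + (-t - 0) * (353 / 1250)) / (1 - 0) = -(353 / 1250) * t := by ring
    rw [e1]
    exact h2
  rcases le_total (-(7 / 5)) t with n7 | n7
  · have h8 := sigE_one.chord sigE_m14 (p := -t) (by norm_num) (by linarith) (by linarith)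
    apply sigB_of_lt h8
    have e1 : ((7 / 5 - -t) * (353 / 1250) + (-t - 1) * (533 / 1000)) / (7 / 5 - 1) =
        -(6265 * t + 3441) / 10000 := by ring
    rw [e1]
    exact h3
  rcases le_total (-2) t with n2 | n2
  · have h8 := sigE_m14.chord (hE 2 le_rfl) (p := -t) (by norm_num) (by linarith) (by linarith)
    apply sigB_of_lt h8
    have e1 : ((2 - -t) * (533 / 1000) + (-t - 7 / 5) * (2 - 1 + e)) / (2 - 7 / 5) =
        ((2 + t) * (533 / 1000) - (t + 7 / 5) * (1 + e)) * (5 / 3) := by ring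
    rw [e1]
    exact h4
  · exact sigB_of_lt (hE (-t) (by linarith)) h5

/-- **the bound of the spectrum on the real line**, from the excess `1 / 200` at `-2` -/
theorem spectrum (hE : ∀ p : ℝ, 2 ≤ p → ∀ e : ℝ, 0 < e → SigB p (p - 1 + 1 / 200 + e)) :
    ∀ t b : ℝ, t - 1 < b → (267 * t - 134) / 400 < b → 133 / 400 * t < b →
      -(353 / 1250) * t < b → -(6265 * t + 3441) / 10000 < b → -(472 * t + 341) / 600 < b →
      -t - 199 / 200 < b →
      ∃ C : ℝ, ∀ ψ : ℂ → ℂ,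
      DifferentiableOn ℂ ψ {z : ℂ | 1 < ‖z‖} →
      Set.InjOn ψ {z : ℂ | 1 < ‖z‖} →
      (∃ c : ℂ, Filter.Tendsto (fun z => ψ z - z) (Bornology.cobounded ℂ) (nhds c)) →
      ∀ R : ℝ, 1 < R →
        (2 * Real.pi)⁻¹ * (∫ θ in (0:ℝ)..(2 * Real.pi),
          ‖deriv ψ (R * Complex.exp (θ * Complex.I))‖ ^ t) ≤
          C * (R ^ 2 / (R ^ 2 - 1)) ^ b := by
  intro t b h7 h6 h1 h2 h3 h4 h5
  have h := bound_fun (e := 1 / 200) (fun p hp => fun e he => hE p hp e he) h1 h6 h7 h2 h3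
    (by
      have e1 : ((2 + t) * (533 / 1000) - (t + 7 / 5) * (1 + 1 / 200)) * (5 / 3) =
        -(472 * t + 341) / 600 := by ring
      rw [e1]
      exact h4)
    (by linarith)
  unfold SigB at h
  rw [neg_neg] at h
  exact h

end Pool.Agent.Helper58.BF

end
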